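import Mathlib

set_option autoImplicit false

namespace Pool.Agent.SDT.MP_6cbfb8_an
end Pool.Agent.SDT.MP_6cbfb8_an
namespace Pool.Agent.SDT.MST
end Pool.Agent.SDT.MST
namespace Pool.Agent.SDT.N1
end Pool.Agent.SDT.N1

section -- MP_6cbfb8_an.Bessel

/-!
A Bessel-type inequality: the Fourier transform of the push-forward of a complex measure `F μ`
under a map `Ψ` which pushes `μ` below a multiple of Lebesgue measure.
-/

namespace Pool.Agent.SDT.MP_6cbfb8_an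

open MeasureTheory Set
open scoped ENNReal Real RealInnerProductSpace

section bessel

variable {V : Type*} [NormedAddCommGroup V] [InnerProductSpace ℝ V] [FiniteDimensional ℝ V]
    [MeasurableSpace V] [BorelSpace V]

/-- The Fourier transform of the Gaussian `exp (-a ‖ξ‖²)`. -/
noncomputable def gk (a : ℝ) (x : V) : ℝ :=
  (π / a) ^ (Module.finrank ℝ V / 2 : ℝ) * Real.exp (-(π ^ 2 / a) * ‖x‖ ^ 2)

omit [FiniteDimensional ℝ V] [MeasurableSpace V] [BorelSpace V] in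
theorem gk_nonneg {a : ℝ} (ha : 0 < a) (x : V) : 0 ≤ gk a x := by
  unfold gk; positivity

omit [FiniteDimensional ℝ V] [MeasurableSpace V] [BorelSpace V] in
theorem continuous_gk (a : ℝ) : Continuous (fun x : V => gk a x) := by
  unfold gk; fun_prop

omit [FiniteDimensional ℝ V] [MeasurableSpace V] [BorelSpace V] in
theorem gk_neg (a : ℝ) (x : V) : gk a (-x) = gk a x := by simp [gk]

theorem gk_fourier {a : ℝ} (ha : 0 < a) (x : V) :
    ∫ ξ : V, Complex.exp (((-(2 * π * inner ℝ x ξ) : ℝ) : ℂ) * Complex.I) *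
      ((Real.exp (-a * ‖ξ‖ ^ 2) : ℝ) : ℂ) = ((gk a x : ℝ) : ℂ) := by
  have h := GaussianFourier.integral_cexp_neg_mul_sq_norm_add (V := V) (b := (a : ℂ))
    (by simpa using ha) (-(2 * π * Complex.I)) x
  have e1 : (fun ξ : V => Complex.exp (((-(2 * π * inner ℝ x ξ) : ℝ) : ℂ) * Complex.I) *
      ((Real.exp (-a * ‖ξ‖ ^ 2) : ℝ) : ℂ)) =
      fun v => Complex.exp (-(a : ℂ) * ‖v‖ ^ 2 + (-(2 * π * Complex.I)) * (inner ℝ x v : ℝ)) := by
    funext ξ
    rw [Complex.ofReal_exp, ← Complex.exp_add]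
    congr 1
    push_cast
    ring
  rw [e1, h]
  unfold gk
  rw [Complex.ofReal_mul, Complex.ofReal_cpow (by positivity), Complex.ofReal_exp]
  have ha' : (a : ℂ) ≠ 0 := by exact_mod_cast ha.ne'
  congr 1
  · push_cast
    ring_nf
  · congr 1
    have : ((2 * (π : ℂ) * Complex.I)) ^ 2 = - (4 * (π:ℂ) ^ 2) := by
      rw [mul_pow, Complex.I_sq]; ring
    rw [neg_sq, this]
    push_cast
    field_simp

theorem integral_gk {a : ℝ} (ha : 0 < a) : ∫ x : V, gk a x = 1 := by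
  unfold gk
  rw [integral_const_mul]
  have h := GaussianFourier.integral_rexp_neg_mul_sq_norm (V := V) (b := π ^ 2 / a) (by positivity)
  rw [h, ← Real.mul_rpow (by positivity) (by positivity)]
  have : π / a * (π / (π ^ 2 / a)) = 1 := by
    have := Real.pi_pos.ne'
    field_simp
  rw [this, Real.one_rpow]

theorem integrable_gk {a : ℝ} (ha : 0 < a) : Integrable (fun x : V => gk a x) := by
  by_contra h
  have := integral_gk (V := V) ha
  rw [integral_undef h] at this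
  norm_num at this

theorem lintegral_gk {a : ℝ} (ha : 0 < a) : ∫⁻ x : V, ENNReal.ofReal (gk a x) = 1 := by
  rw [← ofReal_integral_eq_lintegral_ofReal (integrable_gk ha)
    (Filter.Eventually.of_forall fun x => gk_nonneg ha x), integral_gk ha, ENNReal.ofReal_one]

theorem integrable_gauss {a : ℝ} (ha : 0 < a) :
    Integrable (fun x : V => Real.exp (-a * ‖x‖ ^ 2)) := by
  have h := integrable_gk (V := V) (a := π ^ 2 / a) (by positivity)
  unfold gk at h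
  have e : π ^ 2 / (π ^ 2 / a) = a := by
    have := Real.pi_pos.ne'
    field_simp
  rw [e] at h
  have h2 : (π / (π ^ 2 / a)) ^ (Module.finrank ℝ V / 2 : ℝ) ≠ 0 := by positivity
  have h3 := h.const_mul ((π / (π ^ 2 / a)) ^ (Module.finrank ℝ V / 2 : ℝ))⁻¹
  refine h3.congr (Filter.Eventually.of_forall fun x => ?_)
  simp only
  rw [← mul_assoc, inv_mul_cancel₀ h2, one_mul]

variable {Ω : Type*} [MeasurableSpace Ω] (μ : Measure Ω) [SFinite μ]

/-- The unimodular phase. -/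
noncomputable def ph (Ψ : Ω → V) (w : Ω) (ξ : V) : ℂ :=
  Complex.exp (((-(2 * π * inner ℝ (Ψ w) ξ) : ℝ) : ℂ) * Complex.I)

omit [FiniteDimensional ℝ V] [MeasurableSpace V] [BorelSpace V] [MeasurableSpace Ω] in
theorem norm_ph (Ψ : Ω → V) (w : Ω) (ξ : V) : ‖ph Ψ w ξ‖ = 1 := by
  unfold ph; exact Complex.norm_exp_ofReal_mul_I _

theorem measurable_ph {Ψ : Ω → V} (hΨ : Measurable Ψ) :
    Measurable (fun q : V × Ω => ph Ψ q.2 q.1) := by
  unfold ph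
  have h1 : Measurable (fun q : V × Ω => (inner ℝ (Ψ q.2) q.1 : ℝ)) :=
    (hΨ.comp measurable_snd).inner measurable_fst
  fun_prop

theorem key_identity {Ψ : Ω → V} (hΨ : Measurable Ψ) {F : Ω → ℂ} (hF : Integrable F μ)
    {a : ℝ} (ha : 0 < a) :
    ∫ ξ : V, ((‖∫ w, F w * ph Ψ w ξ ∂μ‖ ^ 2 * Real.exp (-a * ‖ξ‖ ^ 2) : ℝ) : ℂ) =
    ∫ q : Ω × Ω, F q.1 * (starRingEnd ℂ) (F q.2) * ((gk a (Ψ q.1 - Ψ q.2) : ℝ) : ℂ)
      ∂(μ.prod μ) := by
  have e1 : ∀ ξ : V, ((‖∫ w, F w * ph Ψ w ξ ∂μ‖ ^ 2 * Real.exp (-a * ‖ξ‖ ^ 2) : ℝ) : ℂ) =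
      ∫ q : Ω × Ω, (F q.1 * ph Ψ q.1 ξ) * (starRingEnd ℂ) (F q.2 * ph Ψ q.2 ξ) *
        ((Real.exp (-a * ‖ξ‖ ^ 2) : ℝ) : ℂ) ∂(μ.prod μ) := by
    intro ξ
    rw [integral_mul_const, integral_prod_mul (fun w => F w * ph Ψ w ξ)
      (fun w => (starRingEnd ℂ) (F w * ph Ψ w ξ)), integral_conj, Complex.mul_conj,
      Complex.normSq_eq_norm_sq]
    push_cast
    ring
  simp_rw [e1]
  rw [integral_integral_swap]
  · refine integral_congr_ae (Filter.Eventually.of_forall fun q => ?_)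
    simp only
    rw [← gk_fourier ha, ← integral_const_mul]
    refine integral_congr_ae (Filter.Eventually.of_forall fun ξ => ?_)
    simp only [map_mul]
    have h2 : ph Ψ q.1 ξ * (starRingEnd ℂ) (ph Ψ q.2 ξ) =
        Complex.exp (((-(2 * π * inner ℝ (Ψ q.1 - Ψ q.2) ξ) : ℝ) : ℂ) * Complex.I) := by
      unfold ph
      rw [← Complex.exp_conj, ← Complex.exp_add, inner_sub_left]
      congr 1
      simp only [map_mul, Complex.conj_I, Complex.conj_ofReal]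
      push_cast
      ring
    rw [← h2]
    ring
  · -- integrability
    have hF1 : Integrable (fun q : Ω × Ω => F q.1 * (starRingEnd ℂ) (F q.2)) (μ.prod μ) :=
      hF.mul_prod (f := F) (g := fun w => (starRingEnd ℂ) (F w))
        ((Complex.conjCLE.toContinuousLinearMap.integrable_comp hF))
    have hG : Integrable (fun ξ : V => ((Real.exp (-a * ‖ξ‖ ^ 2) : ℝ) : ℂ)) :=
      (integrable_gauss (V := V) ha).ofReal
    have h3 := hG.mul_prod hF1
    have hm : AEStronglyMeasurable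
        (fun p : V × (Ω × Ω) => ph Ψ p.2.1 p.1 * (starRingEnd ℂ) (ph Ψ p.2.2 p.1))
        ((volume : Measure V).prod (μ.prod μ)) := by
      have m1 : Measurable (fun p : V × (Ω × Ω) => ph Ψ p.2.1 p.1) :=
        (measurable_ph hΨ).comp (measurable_fst.prodMk (measurable_fst.comp measurable_snd))
      have m2 : Measurable (fun p : V × (Ω × Ω) => ph Ψ p.2.2 p.1) :=
        (measurable_ph hΨ).comp (measurable_fst.prodMk (measurable_snd.comp measurable_snd))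
      have m3 : Measurable (fun p : V × (Ω × Ω) => (starRingEnd ℂ) (ph Ψ p.2.2 p.1)) :=
        Complex.continuous_conj.measurable.comp m2
      exact (m1.mul m3).aestronglyMeasurable
    have h4 := h3.bdd_mul (c := 1) hm (Filter.Eventually.of_forall fun p => by
      rw [norm_mul, norm_ph, RCLike.norm_conj, norm_ph]; norm_num)
    refine h4.congr (Filter.Eventually.of_forall fun p => ?_)
    simp only [Function.uncurry, map_mul]
    ring

theorem bessel_gauss {Ψ : Ω → V} (hΨ : Measurable Ψ) {A : ℝ≥0∞}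
    (hA : ∀ φ : V → ℝ≥0∞, Measurable φ → ∫⁻ w, φ (Ψ w) ∂μ ≤ A * ∫⁻ x, φ x)
    {F : Ω → ℂ} (hF : Integrable F μ) {a : ℝ} (ha : 0 < a) :
    ∫⁻ ξ : V, ‖∫ w, F w * ph Ψ w ξ ∂μ‖ₑ ^ (2:ℝ) * ENNReal.ofReal (Real.exp (-a * ‖ξ‖ ^ 2))
      ≤ A * ∫⁻ w, ‖F w‖ₑ ^ (2:ℝ) ∂μ := by
  have hmF : AEMeasurable (fun w => ‖F w‖ₑ) μ := hF.aestronglyMeasurable.enorm
  have hmΦ : AEStronglyMeasurable (fun ξ : V => ∫ w, F w * ph Ψ w ξ ∂μ) volume := by
    have : AEStronglyMeasurable (fun p : V × Ω => F p.2 * ph Ψ p.2 p.1)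
        ((volume : Measure V).prod μ) :=
      (hF.aestronglyMeasurable.comp_snd).mul (measurable_ph hΨ).aestronglyMeasurable
    exact this.integral_prod_right'
  have hle : ∀ ξ : V, ‖∫ w, F w * ph Ψ w ξ ∂μ‖ ≤ ∫ w, ‖F w‖ ∂μ := by
    intro ξ
    refine (norm_integral_le_integral_norm _).trans (le_of_eq ?_)
    refine integral_congr_ae (Filter.Eventually.of_forall fun w => ?_)
    simp only
    rw [norm_mul, norm_ph, mul_one]
  -- the left-hand side as a real integral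
  have hint : Integrable (fun ξ : V => ‖∫ w, F w * ph Ψ w ξ ∂μ‖ ^ 2 *
      Real.exp (-a * ‖ξ‖ ^ 2)) := by
    refine (integrable_gauss (V := V) ha).bdd_mul (c := (∫ w, ‖F w‖ ∂μ) ^ 2)
      (hmΦ.norm.pow 2) (Filter.Eventually.of_forall fun ξ => ?_)
    rw [Real.norm_of_nonneg (by positivity)]
    exact pow_le_pow_left₀ (norm_nonneg _) (hle ξ) 2
  have hL : ∫⁻ ξ : V, ‖∫ w, F w * ph Ψ w ξ ∂μ‖ₑ ^ (2:ℝ) *
      ENNReal.ofReal (Real.exp (-a * ‖ξ‖ ^ 2)) =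
      ENNReal.ofReal (∫ ξ : V, ‖∫ w, F w * ph Ψ w ξ ∂μ‖ ^ 2 * Real.exp (-a * ‖ξ‖ ^ 2)) := by
    rw [ofReal_integral_eq_lintegral_ofReal hint (Filter.Eventually.of_forall fun ξ => by
      simp only [Pi.zero_apply]; positivity)]
    refine lintegral_congr fun ξ => ?_
    rw [ENNReal.ofReal_mul (by positivity), ENNReal.ofReal_pow (norm_nonneg _), ofReal_norm]
    norm_num
  rw [hL]
  have hid := key_identity μ hΨ hF ha
  rw [integral_complex_ofReal] at hid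
  have hnn : 0 ≤ ∫ ξ : V, ‖∫ w, F w * ph Ψ w ξ ∂μ‖ ^ 2 * Real.exp (-a * ‖ξ‖ ^ 2) :=
    integral_nonneg fun ξ => by positivity
  have hval : ENNReal.ofReal (∫ ξ : V, ‖∫ w, F w * ph Ψ w ξ ∂μ‖ ^ 2 *
      Real.exp (-a * ‖ξ‖ ^ 2)) =
      ‖∫ q : Ω × Ω, F q.1 * (starRingEnd ℂ) (F q.2) * ((gk a (Ψ q.1 - Ψ q.2) : ℝ) : ℂ)
      ∂(μ.prod μ)‖ₑ := by
    rw [← hid, ← ofReal_norm, Complex.norm_real, Real.norm_of_nonneg hnn]
  rw [hval]
  refine (enorm_integral_le_lintegral_enorm _).trans ?_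
  -- pointwise Young inequality
  have hK : ∀ q : Ω × Ω, ‖F q.1 * (starRingEnd ℂ) (F q.2) *
      ((gk a (Ψ q.1 - Ψ q.2) : ℝ) : ℂ)‖ₑ ≤
      (‖F q.1‖ₑ ^ (2:ℝ) / 2) * ENNReal.ofReal (gk a (Ψ q.1 - Ψ q.2)) +
      (‖F q.2‖ₑ ^ (2:ℝ) / 2) * ENNReal.ofReal (gk a (Ψ q.1 - Ψ q.2)) := by
    intro q
    have h1 : ‖F q.1 * (starRingEnd ℂ) (F q.2) * ((gk a (Ψ q.1 - Ψ q.2) : ℝ) : ℂ)‖ₑ =
        (‖F q.1‖ₑ * ‖F q.2‖ₑ) * ENNReal.ofReal (gk a (Ψ q.1 - Ψ q.2)) := by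
      rw [enorm_mul, enorm_mul]
      congr 1
      · congr 1
        rw [← ofReal_norm, ← ofReal_norm, RCLike.norm_conj]
      · rw [← ofReal_norm, Complex.norm_real, Real.norm_of_nonneg (gk_nonneg ha _)]
    rw [h1, ← add_mul]
    gcongr
    have := ENNReal.young_inequality (‖F q.1‖ₑ) (‖F q.2‖ₑ) (Real.HolderConjugate.two_two)
    simpa using this
  refine (lintegral_mono hK).trans ?_
  have hmK : Measurable (fun q : Ω × Ω => ENNReal.ofReal (gk a (Ψ q.1 - Ψ q.2))) :=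
    ENNReal.measurable_ofReal.comp ((continuous_gk a).measurable.comp
      ((hΨ.comp measurable_fst).sub (hΨ.comp measurable_snd)))
  have hmass : ∀ x : V, ∫⁻ w', ENNReal.ofReal (gk a (x - Ψ w')) ∂μ ≤ A := by
    intro x
    refine (hA (fun y => ENNReal.ofReal (gk a (x - y))) ?_).trans ?_
    · exact ENNReal.measurable_ofReal.comp ((continuous_gk a).measurable.comp
        (measurable_const.sub measurable_id))
    · rw [lintegral_sub_left_eq_self (fun y => ENNReal.ofReal (gk a y)) x, lintegral_gk ha,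
        mul_one]
  have hm1 : AEMeasurable (fun q : Ω × Ω => (‖F q.1‖ₑ ^ (2:ℝ) / 2) *
      ENNReal.ofReal (gk a (Ψ q.1 - Ψ q.2))) (μ.prod μ) := by
    have : AEMeasurable (fun q : Ω × Ω => ‖F q.1‖ₑ) (μ.prod μ) :=
      (hF.aestronglyMeasurable.comp_fst).enorm
    exact ((this.pow_const _).div_const _).mul hmK.aemeasurable
  rw [lintegral_add_left' hm1]
  have I1 : ∫⁻ q : Ω × Ω, (‖F q.1‖ₑ ^ (2:ℝ) / 2) * ENNReal.ofReal (gk a (Ψ q.1 - Ψ q.2))
      ∂(μ.prod μ) ≤ (A * ∫⁻ w, ‖F w‖ₑ ^ (2:ℝ) ∂μ) / 2 := by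
    rw [lintegral_prod _ hm1]
    calc ∫⁻ w, ∫⁻ w', (‖F w‖ₑ ^ (2:ℝ) / 2) * ENNReal.ofReal (gk a (Ψ w - Ψ w')) ∂μ ∂μ
        ≤ ∫⁻ w, (‖F w‖ₑ ^ (2:ℝ) / 2) * A ∂μ := by
          refine lintegral_mono fun w => ?_
          have hmw : Measurable (fun w' => ENNReal.ofReal (gk a (Ψ w - Ψ w'))) :=
            ENNReal.measurable_ofReal.comp ((continuous_gk a).measurable.comp
              (measurable_const.sub hΨ))
          simp only
          rw [lintegral_const_mul _ hmw]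
          gcongr
          exact hmass (Ψ w)
      _ = (A * ∫⁻ w, ‖F w‖ₑ ^ (2:ℝ) ∂μ) / 2 := by
          have : ∀ w, (‖F w‖ₑ ^ (2:ℝ) / 2) * A = ‖F w‖ₑ ^ (2:ℝ) * (A / 2) := by
            intro w
            rw [div_eq_mul_inv, div_eq_mul_inv]; ring
          simp_rw [this]
          rw [lintegral_mul_const'' _ (hmF.pow_const _), div_eq_mul_inv, div_eq_mul_inv]
          ring
  have I2 : ∫⁻ q : Ω × Ω, (‖F q.2‖ₑ ^ (2:ℝ) / 2) * ENNReal.ofReal (gk a (Ψ q.1 - Ψ q.2))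
      ∂(μ.prod μ) ≤ (A * ∫⁻ w, ‖F w‖ₑ ^ (2:ℝ) ∂μ) / 2 := by
    refine le_trans (le_of_eq ?_) I1
    rw [← lintegral_prod_swap]
    refine lintegral_congr fun q => ?_
    simp only [Prod.fst_swap, Prod.snd_swap]
    rw [← gk_neg, neg_sub]
  calc _ ≤ (A * ∫⁻ w, ‖F w‖ₑ ^ (2:ℝ) ∂μ) / 2 + (A * ∫⁻ w, ‖F w‖ₑ ^ (2:ℝ) ∂μ) / 2 :=
        add_le_add I1 I2
    _ = A * ∫⁻ w, ‖F w‖ₑ ^ (2:ℝ) ∂μ := ENNReal.add_halves _

end bessel

theorem bessel {Ω : Type*} [MeasurableSpace Ω] (μ : Measure Ω) [SFinite μ]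
    {V : Type*} [NormedAddCommGroup V] [InnerProductSpace ℝ V] [FiniteDimensional ℝ V]
    [MeasurableSpace V] [BorelSpace V]
    (Ψ : Ω → V) (hΨ : Measurable Ψ) (A : ℝ≥0∞) (hA0 : A ≠ ∞)
    (hA : ∀ φ : V → ℝ≥0∞, Measurable φ → ∫⁻ w, φ (Ψ w) ∂μ ≤ A * ∫⁻ x, φ x)
    (F : Ω → ℂ) (hF : Integrable F μ) :
    ∫⁻ ξ : V, ‖∫ w, F w * Complex.exp (((-(2 * π * inner ℝ (Ψ w) ξ) : ℝ) : ℂ) * Complex.I) ∂μ‖ₑ ^ (2:ℝ)
      ≤ A * ∫⁻ w, ‖F w‖ₑ ^ (2:ℝ) ∂μ := by
  change ∫⁻ ξ : V, ‖∫ w, F w * ph Ψ w ξ ∂μ‖ₑ ^ (2:ℝ) ≤ _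
  have hmΦ : AEStronglyMeasurable (fun ξ : V => ∫ w, F w * ph Ψ w ξ ∂μ) volume := by
    have : AEStronglyMeasurable (fun p : V × Ω => F p.2 * ph Ψ p.2 p.1)
        ((volume : Measure V).prod μ) :=
      (hF.aestronglyMeasurable.comp_snd).mul (measurable_ph hΨ).aestronglyMeasurable
    exact this.integral_prod_right'
  have hlim : ∀ ξ : V, Filter.Tendsto (fun k : ℕ => ‖∫ w, F w * ph Ψ w ξ ∂μ‖ₑ ^ (2:ℝ) *
      ENNReal.ofReal (Real.exp (-(1 / ((k:ℝ) + 1)) * ‖ξ‖ ^ 2))) Filter.atTop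
      (nhds (‖∫ w, F w * ph Ψ w ξ ∂μ‖ₑ ^ (2:ℝ))) := by
    intro ξ
    have h1 : Filter.Tendsto (fun k : ℕ => Real.exp (-(1 / ((k:ℝ) + 1)) * ‖ξ‖ ^ 2)) Filter.atTop
        (nhds 1) := by
      have h2 : Filter.Tendsto (fun k : ℕ => -(1 / ((k:ℝ) + 1)) * ‖ξ‖ ^ 2) Filter.atTop
          (nhds (-0 * ‖ξ‖ ^ 2)) := (tendsto_one_div_add_atTop_nhds_zero_nat.neg).mul_const _
      have h3 := (Real.continuous_exp.tendsto _).comp h2
      simpa [Function.comp_def] using h3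
    have h4 := ENNReal.Tendsto.const_mul (a := ‖∫ w, F w * ph Ψ w ξ ∂μ‖ₑ ^ (2:ℝ))
      (ENNReal.tendsto_ofReal h1) (Or.inl (by simp))
    simpa using h4
  have hmk : ∀ k : ℕ, AEMeasurable (fun ξ : V => ‖∫ w, F w * ph Ψ w ξ ∂μ‖ₑ ^ (2:ℝ) *
      ENNReal.ofReal (Real.exp (-(1 / ((k:ℝ) + 1)) * ‖ξ‖ ^ 2))) volume := by
    intro k
    have h5 : AEMeasurable (fun ξ : V =>
      ENNReal.ofReal (Real.exp (-(1 / ((k:ℝ) + 1)) * ‖ξ‖ ^ 2))) volume := by fun_prop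
    exact (hmΦ.enorm.pow_const _).mul h5
  have hbk : ∀ k : ℕ, ∫⁻ ξ : V, ‖∫ w, F w * ph Ψ w ξ ∂μ‖ₑ ^ (2:ℝ) *
        ENNReal.ofReal (Real.exp (-(1 / ((k:ℝ) + 1)) * ‖ξ‖ ^ 2)) ≤
        A * ∫⁻ w, ‖F w‖ₑ ^ (2:ℝ) ∂μ := by
    intro k
    have hk : (0:ℝ) < 1 / ((k:ℝ) + 1) := by positivity
    exact bessel_gauss μ hΨ hA hF hk
  calc ∫⁻ ξ : V, ‖∫ w, F w * ph Ψ w ξ ∂μ‖ₑ ^ (2:ℝ)
      = ∫⁻ ξ : V, Filter.liminf (fun k : ℕ => ‖∫ w, F w * ph Ψ w ξ ∂μ‖ₑ ^ (2:ℝ) *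
        ENNReal.ofReal (Real.exp (-(1 / ((k:ℝ) + 1)) * ‖ξ‖ ^ 2))) Filter.atTop := by
        refine lintegral_congr fun ξ => ?_
        rw [(hlim ξ).liminf_eq]
    _ ≤ Filter.liminf (fun k : ℕ => ∫⁻ ξ : V, ‖∫ w, F w * ph Ψ w ξ ∂μ‖ₑ ^ (2:ℝ) *
        ENNReal.ofReal (Real.exp (-(1 / ((k:ℝ) + 1)) * ‖ξ‖ ^ 2))) Filter.atTop := by
        exact lintegral_liminf_le' hmk
    _ ≤ A * ∫⁻ w, ‖F w‖ₑ ^ (2:ℝ) ∂μ := by
        exact Filter.liminf_le_of_frequently_le' (Filter.Frequently.of_forall hbk)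

end Pool.Agent.SDT.MP_6cbfb8_an

end -- MP_6cbfb8_an.Bessel

section -- N1G.E0

/-!
N1G, block L2b: mean value theorems near the base point.
-/

namespace Pool.Agent.SDT.N1G

open MeasureTheory Set Metric Pool.Agent.SDT.MP_6cbfb8_an Pool.Agent.SDT.MST Pool.Agent.SDT.N1
open scoped ENNReal Real ContDiff

/-- Mean value theorem on an unordered interval. -/
theorem mvt_u (f f' : ℝ → ℝ) (a b : ℝ) (h : ∀ x ∈ uIcc a b, HasDerivAt f (f' x) x) :
    ∃ ξ ∈ uIcc a b, f a - f b = f' ξ * (a - b) := by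
  rcases lt_trichotomy a b with hab | hab | hab
  · have hc : ContinuousOn f (Icc a b) := fun x hx =>
      (h x (by rw [uIcc_of_le hab.le]; exact hx)).continuousAt.continuousWithinAt
    obtain ⟨ξ, hξ, h1⟩ := exists_hasDerivAt_eq_slope f f' hab hc
      (fun x hx => h x (by rw [uIcc_of_le hab.le]; exact Ioo_subset_Icc_self hx))
    refine ⟨ξ, by rw [uIcc_of_le hab.le]; exact Ioo_subset_Icc_self hξ, ?_⟩
    have h2 : b - a ≠ 0 := by
      intro h3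
      linarith
    rw [eq_div_iff h2] at h1
    linarith
  · subst hab
    exact ⟨a, left_mem_uIcc, by ring⟩
  · have hc : ContinuousOn f (Icc b a) := fun x hx =>
      (h x (by rw [uIcc_of_ge hab.le]; exact hx)).continuousAt.continuousWithinAt
    obtain ⟨ξ, hξ, h1⟩ := exists_hasDerivAt_eq_slope f f' hab hc
      (fun x hx => h x (by rw [uIcc_of_ge hab.le]; exact Ioo_subset_Icc_self hx))
    refine ⟨ξ, by rw [uIcc_of_ge hab.le]; exact Ioo_subset_Icc_self hξ, ?_⟩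
    have h2 : a - b ≠ 0 := by
      intro h3
      linarith
    rw [eq_div_iff h2] at h1
    linarith

theorem uIcc_lt {a b c d : ℝ} (ha : |a - c| < d) (hb : |b - c| < d) :
    ∀ x ∈ uIcc a b, |x - c| < d := by
  intro x hx
  rw [mem_uIcc] at hx
  rw [abs_lt] at ha hb ⊢
  rcases hx with hx | hx <;> constructor <;> linarith [hx.1, hx.2]

/-- Mean value theorem in the direction `v` near a point. -/
theorem mvt_dir {E : Type*} [NormedAddCommGroup E] [NormedSpace ℝ E] (f : E → ℝ) (e0 : E) (r : ℝ)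
    (hr : 0 < r) (hf : ContDiffOn ℝ ∞ f (ball e0 r)) (v : E) (ε : ℝ) (hε : 0 < ε) :
    ∃ δ : ℝ, 0 < δ ∧ δ ≤ r ∧ ∀ e ∈ ball e0 δ, ∀ t : ℝ, e + t • v ∈ ball e0 δ →
      ∃ D : ℝ, |D - fderiv ℝ f e0 v| ≤ ε ∧ f (e + t • v) - f e = D * t := by
  have ho : IsOpen (ball e0 r) := isOpen_ball
  have hfd : ContinuousOn (fun e => fderiv ℝ f e v) (ball e0 r) :=
    (hf.continuousOn_fderiv_of_isOpen ho (by norm_num)).clm_apply continuousOn_const
  have hca : ContinuousAt (fun e => fderiv ℝ f e v) e0 :=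
    hfd.continuousAt (ho.mem_nhds (mem_ball_self hr))
  obtain ⟨δ, hδ, h1⟩ := Metric.continuousAt_iff.1 hca ε hε
  refine ⟨min δ r, lt_min hδ hr, min_le_right _ _, fun e he t het => ?_⟩
  have hseg : ∀ s ∈ uIcc t 0, e + s • v ∈ ball e0 (min δ r) := by
    intro s hs
    have hconv := convex_ball e0 (min δ r)
    rcases eq_or_ne t 0 with h0 | h0
    · subst h0
      have : s = 0 := by simpa using hs
      subst this
      simpa using he
    · have h2 : e + s • v = (1 - s / t) • e + (s / t) • (e + t • v) := by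
        rw [smul_add, smul_smul, div_mul_cancel₀ s h0]
        module
      rw [h2]
      have h3 : 0 ≤ s / t ∧ s / t ≤ 1 := by
        rw [mem_uIcc] at hs
        rcases hs with ⟨a1, a2⟩ | ⟨a1, a2⟩
        · have ht : t < 0 := lt_of_le_of_ne (a1.trans a2) h0
          exact ⟨div_nonneg_of_nonpos a2 ht.le, by rw [div_le_one_of_neg ht]; exact a1⟩
        · have ht : 0 < t := lt_of_le_of_ne (a1.trans a2) (Ne.symm h0)
          exact ⟨div_nonneg a1 ht.le, by rw [div_le_one ht]; exact a2⟩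
      exact hconv he het (by linarith [h3.2]) h3.1 (by ring)
  have hd : ∀ s ∈ uIcc t 0, HasDerivAt (fun s : ℝ => f (e + s • v)) (fderiv ℝ f (e + s • v) v) s := by
    intro s hs
    have hin : e + s • v ∈ ball e0 r := ball_subset_ball (min_le_right _ _) (hseg s hs)
    have hdf : DifferentiableAt ℝ f (e + s • v) :=
      (hf.contDiffAt (ho.mem_nhds hin)).differentiableAt (by norm_num)
    have h4 : HasDerivAt (fun s : ℝ => e + s • v) v s := by
      simpa using ((hasDerivAt_id s).smul_const v).const_add e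
    exact hdf.hasFDerivAt.comp_hasDerivAt s h4
  obtain ⟨ξ, hξ, h5⟩ := mvt_u _ _ t 0 hd
  refine ⟨fderiv ℝ f (e + ξ • v) v, ?_, ?_⟩
  · have h6 := h1 (mem_ball.1 (ball_subset_ball (min_le_left δ r) (hseg ξ hξ)))
    rw [Real.dist_eq] at h6
    exact h6.le
  · simpa using h5

end Pool.Agent.SDT.N1G

end -- N1G.E0
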