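import Mathlib

set_option autoImplicit false

namespace Pool.Agent.SDT.MP_6cbfb8_an
end Pool.Agent.SDT.MP_6cbfb8_an
namespace Pool.Agent.SDT.MST
end Pool.Agent.SDT.MST
namespace Pool.Agent.SDT.N1
end Pool.Agent.SDT.N1
namespace Pool.Agent.SDT.N1F
end Pool.Agent.SDT.N1F
namespace Pool.Agent.SDT.N1G
end Pool.Agent.SDT.N1G
namespace Pool.Agent.SDT.N1M
end Pool.Agent.SDT.N1M

section -- MP_6cbfb8_an.Low1

/-!
Hoelder, Tonelli and the planar estimate.
-/

namespace Pool.Agent.SDT.MP_6cbfb8_an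

open MeasureTheory Set
open scoped ENNReal Real RealInnerProductSpace

lemma holder_weight {W : Type*} [MeasurableSpace W] (κ : Measure W) (k h : W → ℝ≥0∞)
    (hk : Measurable k) (hh : Measurable h) {p : ℝ} (hp : 1 ≤ p) :
    (∫⁻ w, k w * h w ∂κ) ^ p ≤ (∫⁻ w, k w ∂κ) ^ (p - 1) * ∫⁻ w, k w * h w ^ p ∂κ := by
  have hp0 : 0 < p := by linarith
  have h1 := ENNReal.lintegral_mul_norm_pow_le (μ := κ) (f := k) (g := fun w => k w * h w ^ p)
    hk.aemeasurable (hk.mul (hh.pow_const p)).aemeasurable (p := 1 - 1 / p) (q := 1 / p)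
    (by rw [sub_nonneg, div_le_one hp0]; exact hp) (by positivity) (by ring)
  have h2 : ∫⁻ w, k w * h w ∂κ = ∫⁻ w, k w ^ (1 - 1 / p) * (k w * h w ^ p) ^ (1 / p) ∂κ := by
    refine lintegral_congr fun w => ?_
    rw [ENNReal.mul_rpow_of_nonneg _ _ (by positivity : (0:ℝ) ≤ 1 / p), ← ENNReal.rpow_mul,
      mul_one_div_cancel hp0.ne', ENNReal.rpow_one, ← mul_assoc,
      ← ENNReal.rpow_add_of_nonneg _ _ (by rw [sub_nonneg, div_le_one hp0]; exact hp)
        (by positivity : (0:ℝ) ≤ 1 / p)]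
    simp
  rw [← h2] at h1
  calc (∫⁻ w, k w * h w ∂κ) ^ p ≤ ((∫⁻ w, k w ∂κ) ^ (1 - 1 / p) *
        (∫⁻ w, k w * h w ^ p ∂κ) ^ (1 / p)) ^ p := by gcongr
    _ = _ := by
        rw [ENNReal.mul_rpow_of_nonneg _ _ hp0.le, ← ENNReal.rpow_mul, ← ENNReal.rpow_mul,
          one_div_mul_cancel hp0.ne', ENNReal.rpow_one]
        congr 2
        field_simp



end Pool.Agent.SDT.MP_6cbfb8_an

end -- MP_6cbfb8_an.Low1

section -- N1.A1

/-!
N1, block AN: extension by a bump function and the division lemma of Hadamard.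
-/

namespace Pool.Agent.SDT.N1

open MeasureTheory Set Metric
open scoped ENNReal Real ContDiff Convolution

/-- Bump extension. -/
theorem ext_smooth {Q : Type*} [NormedAddCommGroup Q] [NormedSpace ℝ Q] [FiniteDimensional ℝ Q]
    (f : Q → ℝ) (q0 : Q) (r : ℝ) (hr : 0 < r) (hf : ContDiffOn ℝ ∞ f (ball q0 r)) :
    ∃ g : Q → ℝ, ContDiff ℝ ∞ g ∧ ∀ q ∈ ball q0 (r / 2), g q = f q := by
  let χ : ContDiffBump q0 := ⟨r / 2, 3 * r / 4, by linarith, by linarith⟩
  refine ⟨fun q => χ q * f q, ?_, ?_⟩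
  · rw [contDiff_iff_contDiffAt]
    intro x
    by_cases hx : x ∈ ball q0 r
    · exact (χ.contDiff (n := ⊤)).contDiffAt.mul
        ((hf x hx).contDiffAt (isOpen_ball.mem_nhds hx))
    · have h1 : ∀ᶠ y in nhds x, χ y * f y = 0 := by
        have h2 : x ∈ (closedBall q0 (3 * r / 4))ᶜ := by
          simp only [mem_compl_iff, mem_closedBall, not_le]
          simp only [mem_ball, not_lt] at hx
          linarith
        filter_upwards [(isClosed_closedBall.isOpen_compl).mem_nhds h2] with y hy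
        have h3 : χ y = 0 := by
          apply χ.zero_of_le_dist
          simp only [mem_compl_iff, mem_closedBall, not_le] at hy
          exact hy.le
        rw [h3, zero_mul]
      exact (contDiffAt_const (c := (0 : ℝ))).congr_of_eventuallyEq h1
  · intro q hq
    have h3 : χ q = 1 := by
      apply χ.one_of_mem_closedBall
      exact ball_subset_closedBall hq
    show χ q * f q = f q
    rw [h3, one_mul]

/-- Smoothness of an integral over `[0, 1]`. -/
theorem smooth_integral {P : Type*} [NormedAddCommGroup P] [NormedSpace ℝ P]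
    [FiniteDimensional ℝ P] (h : ℝ × P → ℝ) (hh : ContDiff ℝ ∞ h) :
    ContDiff ℝ ∞ (fun p : P => ∫ t in (0 : ℝ)..1, h (t, p)) := by
  let χ : ContDiffBump (0 : ℝ) := ⟨1, 2, by norm_num, by norm_num⟩
  let g : P → ℝ → ℝ := fun p x => χ x * h (-x, p)
  have hg : ContDiffOn ℝ ∞ (Function.uncurry g) ((univ : Set P) ×ˢ (univ : Set ℝ)) := by
    have h1 : ContDiff ℝ ∞ (fun z : P × ℝ => χ z.2 * h (-z.2, z.1)) :=
      ((χ.contDiff (n := ⊤)).comp contDiff_snd).mul
        (hh.comp ((contDiff_snd.neg).prodMk contDiff_fst))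
    exact h1.contDiffOn
  have hgs : ∀ p : P, ∀ x : ℝ, p ∈ (univ : Set P) → x ∉ closedBall (0 : ℝ) 2 → g p x = 0 := by
    intro p x _ hx
    have h3 : χ x = 0 := by
      apply χ.zero_of_le_dist
      simp only [mem_closedBall, not_le] at hx
      exact hx.le
    show χ x * h (-x, p) = 0
    rw [h3, zero_mul]
  have hfi : LocallyIntegrable (indicator (Ioc (0 : ℝ) 1) (fun _ => (1 : ℝ))) volume := by
    apply Integrable.locallyIntegrable
    exact (integrable_indicator_iff measurableSet_Ioc).2 (integrableOn_const (by simp) (by simp))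
  have key := contDiffOn_convolution_right_with_param (𝕜 := ℝ) (n := ⊤) (μ := (volume : Measure ℝ))
    (ContinuousLinearMap.lsmul ℝ ℝ) isOpen_univ (isCompact_closedBall (0 : ℝ) 2) hgs hfi hg
  have key2 : ContDiff ℝ ∞ (fun p : P => ((indicator (Ioc (0 : ℝ) 1) (fun _ => (1 : ℝ)))
      ⋆[ContinuousLinearMap.lsmul ℝ ℝ, volume] g p) 0) := by
    have h2 : ContDiff ℝ ∞ (fun q : P × ℝ => ((indicator (Ioc (0 : ℝ) 1) (fun _ => (1 : ℝ)))
      ⋆[ContinuousLinearMap.lsmul ℝ ℝ, volume] g q.1) q.2) := by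
      rw [← contDiffOn_univ, ← univ_prod_univ]
      exact key
    exact h2.comp (contDiff_id.prodMk contDiff_const)
  have heq : (fun p : P => ∫ t in (0 : ℝ)..1, h (t, p)) =
      (fun p : P => ((indicator (Ioc (0 : ℝ) 1) (fun _ => (1 : ℝ)))
      ⋆[ContinuousLinearMap.lsmul ℝ ℝ, volume] g p) 0) := by
    funext p
    rw [convolution_def, intervalIntegral.integral_of_le zero_le_one,
      ← integral_indicator measurableSet_Ioc]
    congr 1
    funext t
    by_cases ht : t ∈ Ioc (0 : ℝ) 1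
    · rw [indicator_of_mem ht, indicator_of_mem ht]
      have h3 : χ (0 - t) = 1 := by
        apply χ.one_of_mem_closedBall
        simp only [mem_closedBall, zero_sub, dist_zero_right, norm_neg, Real.norm_eq_abs]
        show |t| ≤ 1
        rw [abs_of_pos ht.1]
        exact ht.2
      simp only [ContinuousLinearMap.lsmul_apply, smul_eq_mul, one_mul]
      show h (t, p) = χ (0 - t) * h (-(0 - t), p)
      rw [h3, one_mul]
      congr 2
      ring
    · rw [indicator_of_notMem ht, indicator_of_notMem ht]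
      simp
  rw [heq]
  exact key2

/-- Hadamard's lemma: division by the first variable. -/
theorem hadamard {Q : Type*} [NormedAddCommGroup Q] [NormedSpace ℝ Q] [FiniteDimensional ℝ Q]
    (f : ℝ × Q → ℝ) (hf : ContDiff ℝ ∞ f) (h0 : ∀ q, f (0, q) = 0) :
    ∃ k : ℝ × Q → ℝ, ContDiff ℝ ∞ k ∧ ∀ ρ q, f (ρ, q) = ρ * k (ρ, q) := by
  have hd : ContDiff ℝ ∞ (fun z : ℝ × Q => fderiv ℝ f z (1, 0)) :=
    (hf.fderiv_right (m := ∞) (by simp)).clm_apply contDiff_const
  refine ⟨fun z => ∫ t in (0 : ℝ)..1, fderiv ℝ f (t * z.1, z.2) (1, 0), ?_, ?_⟩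
  · exact smooth_integral (P := ℝ × Q) (fun w => fderiv ℝ f (w.1 * w.2.1, w.2.2) (1, 0))
      (hd.comp (((contDiff_fst.mul (contDiff_fst.comp contDiff_snd))).prodMk
        (contDiff_snd.comp contDiff_snd)))
  · intro ρ q
    have h1 : ∀ t ∈ uIcc (0 : ℝ) 1, HasDerivAt (fun t : ℝ => f (t * ρ, q))
        (ρ * fderiv ℝ f (t * ρ, q) (1, 0)) t := by
      intro t _
      have h2 : HasFDerivAt f (fderiv ℝ f (t * ρ, q)) (t * ρ, q) :=
        (hf.differentiable (by simp)).differentiableAt.hasFDerivAt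
      have h3 : HasDerivAt (fun t : ℝ => ((t * ρ, q) : ℝ × Q)) (ρ, 0) t := by
        have h4 : HasDerivAt (fun t : ℝ => t * ρ) ρ t := by
          simpa using (hasDerivAt_id t).mul_const ρ
        exact h4.prodMk (hasDerivAt_const t q)
      have h5 := h2.comp_hasDerivAt t h3
      have h6 : fderiv ℝ f (t * ρ, q) (ρ, 0) = ρ * fderiv ℝ f (t * ρ, q) (1, 0) := by
        have h7 : ((ρ, 0) : ℝ × Q) = ρ • ((1, 0) : ℝ × Q) := by simp
        rw [h7, map_smul, smul_eq_mul]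
      rw [← h6]
      exact h5
    have h8 : Continuous (fun t : ℝ => ρ * fderiv ℝ f (t * ρ, q) (1, 0)) := by
      have h9 : Continuous (fun t : ℝ => ((t * ρ, q) : ℝ × Q)) := by fun_prop
      exact continuous_const.mul (hd.continuous.comp h9)
    have h10 := intervalIntegral.integral_eq_sub_of_hasDerivAt h1 (h8.intervalIntegrable 0 1)
    rw [intervalIntegral.integral_const_mul] at h10
    simp only [one_mul, zero_mul, h0, sub_zero] at h10
    exact h10.symm

/-- Hadamard's lemma for even functions. -/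
theorem hadamard_even {Q : Type*} [NormedAddCommGroup Q] [NormedSpace ℝ Q] [FiniteDimensional ℝ Q]
    (f : ℝ × Q → ℝ) (hf : ContDiff ℝ ∞ f) (h0 : ∀ ρ q, f (-ρ, q) = f (ρ, q)) :
    ∃ k : ℝ × Q → ℝ, ContDiff ℝ ∞ k ∧ ∀ ρ q, f (ρ, q) = f (0, q) + ρ ^ 2 * k (ρ, q) := by
  have hc : ContDiff ℝ ∞ (fun z : ℝ × Q => f z - f (0, z.2)) :=
    hf.sub (hf.comp (contDiff_const.prodMk contDiff_snd))
  obtain ⟨k1, hk1, e1⟩ := hadamard (fun z : ℝ × Q => f z - f (0, z.2)) hc (by intro q; simp)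
  have hz : ∀ q, k1 (0, q) = 0 := by
    intro q
    have hcont : Continuous (fun ρ : ℝ => k1 (ρ, q) + k1 (-ρ, q)) := by
      have a1 : Continuous (fun ρ : ℝ => ((ρ, q) : ℝ × Q)) := by fun_prop
      have a2 : Continuous (fun ρ : ℝ => ((-ρ, q) : ℝ × Q)) := by fun_prop
      exact (hk1.continuous.comp a1).add (hk1.continuous.comp a2)
    have hne : ∀ ρ : ℝ, ρ ≠ 0 → k1 (ρ, q) + k1 (-ρ, q) = 0 := by
      intro ρ hρ
      have b1 := e1 ρ q
      have b2 := e1 (-ρ) q
      simp only [h0] at b1 b2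
      have b3 : ρ * (k1 (ρ, q) + k1 (-ρ, q)) = 0 := by linarith
      rcases mul_eq_zero.1 b3 with b4 | b4
      · exact absurd b4 hρ
      · exact b4
    have heq : (fun ρ : ℝ => k1 (ρ, q) + k1 (-ρ, q)) = fun _ => (0 : ℝ) := by
      apply Continuous.ext_on (dense_compl_singleton (0 : ℝ)) hcont continuous_const
      intro ρ hρ
      exact hne ρ hρ
    have h1 := congrFun heq 0
    simp only [neg_zero] at h1
    linarith
  obtain ⟨k, hk, e2⟩ := hadamard k1 hk1 hz
  refine ⟨k, hk, ?_⟩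
  intro ρ q
  have h1 := e1 ρ q
  rw [e2 ρ q] at h1
  simp only at h1
  linarith [h1]

end Pool.Agent.SDT.N1

end -- N1.A1

section -- N1.AN1

/-!
Row [N1-AN1]. One-dimensional integral of a decaying function of a strictly monotone function.

Proof. `deriv f` is continuous and nonzero on the interval `Icc α β`, so it has a constant sign there
(`IsPreconnected`/intermediate value theorem); replacing `f` by `-f` (|f| does not change) we may assume
`deriv f ≥ c₀` on `Icc α β`. Then `1/(1 + lam |f|)² ≤ (1/c₀) (1/(1 + lam |f|)²) deriv f` and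
`∫_α^β (g ∘ f) * deriv f = ∫_{f α}^{f β} g` (`intervalIntegral.integral_comp_mul_deriv`), for the continuous
function `g v = 1/(1 + lam |v|)²`. Finally `∫_{x}^{y} g ≤ ∫_ℝ g = 2 ∫_0^∞ dv/(1 + lam v)² = 2/lam`, or
directly: the antiderivative `v ↦ v/(1 + lam |v|)` of `g` takes values in `[-1/lam, 1/lam]`
(`integral_eq_sub_of_hasDerivAt`, derivative also at `0`).
-/

namespace Pool.Agent.SDT.N1

open MeasureTheory Set Metric Pool.Agent.SDT.MST
open scoped ContDiff

private theorem AN1_hasDeriv (lam : ℝ) (hl : 0 < lam) (v : ℝ) :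
    HasDerivAt (fun v : ℝ => v / (1 + lam * |v|)) (1 / (1 + lam * |v|) ^ 2) v := by
  have hpos : ∀ v : ℝ, 0 < 1 + lam * |v| := fun v => by positivity
  have hne : ∀ v : ℝ, v ≠ 0 → HasDerivAt (fun v : ℝ => v / (1 + lam * |v|))
      (1 / (1 + lam * |v|) ^ 2) v := by
    intro v hv
    have h1 := (hasDerivAt_abs hv).const_mul lam
    have h2 := h1.const_add 1
    have h3 := (hasDerivAt_id v).div h2 (hpos v).ne'
    have h4 : (1 * (1 + lam * |v|) - v * (lam * ((SignType.sign v : SignType) : ℝ)))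
        / (1 + lam * |v|) ^ 2 = 1 / (1 + lam * |v|) ^ 2 := by
      congr 1
      have : v * ((SignType.sign v : SignType) : ℝ) = |v| := by
        rcases lt_trichotomy v 0 with h | h | h
        · simp [h, abs_of_neg h]
        · exact absurd h hv
        · simp [h, abs_of_pos h]
      nlinarith [this]
    rw [← h4]
    exact h3
  by_cases hv : v = 0
  · subst hv
    refine hasDerivAt_of_hasDerivAt_of_ne (g := fun v : ℝ => 1 / (1 + lam * |v|) ^ 2)
      (fun y hy => hne y hy) ?_ ?_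
    · exact (continuous_id.div (by fun_prop) fun v => (hpos v).ne').continuousAt
    · exact (continuous_const.div (by fun_prop) fun v => (pow_pos (hpos v) 2).ne').continuousAt
  · exact hne v hv

private theorem AN1_pos (f : ℝ → ℝ) (α β c₀ lam : ℝ) (hab : α ≤ β) (hf : ContDiff ℝ 1 f)
    (hc : 0 < c₀) (hl : 0 < lam) (h : ∀ t ∈ Icc α β, c₀ ≤ deriv f t) :
    ∫ t in α..β, 1 / (1 + lam * |f t|) ^ 2 ≤ 2 / (c₀ * lam) := by
  have hpos : ∀ v : ℝ, 0 < 1 + lam * |v| := fun v => by positivity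
  have hfc : Continuous f := hf.continuous
  have hf' : Continuous (deriv f) := hf.continuous_deriv le_rfl
  have hg : Continuous fun t => 1 / (1 + lam * |f t|) ^ 2 :=
    continuous_const.div (by fun_prop) fun t => (pow_pos (hpos (f t)) 2).ne'
  have hd : ∀ t, HasDerivAt (fun t => f t / (1 + lam * |f t|))
      (1 / (1 + lam * |f t|) ^ 2 * deriv f t) t := by
    intro t
    have h1 : HasDerivAt f (deriv f t) t := (hf.differentiable one_ne_zero t).hasDerivAt
    exact (AN1_hasDeriv lam hl (f t)).comp t h1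
  have hI : ∫ t in α..β, 1 / (1 + lam * |f t|) ^ 2 * deriv f t
      = f β / (1 + lam * |f β|) - f α / (1 + lam * |f α|) :=
    intervalIntegral.integral_eq_sub_of_hasDerivAt (fun t _ => hd t)
      ((hg.mul hf').intervalIntegrable α β)
  have hb : ∀ v : ℝ, |v / (1 + lam * |v|)| ≤ 1 / lam := by
    intro v
    rw [abs_div, abs_of_pos (hpos v), div_le_div_iff₀ (hpos v) hl]
    nlinarith [abs_nonneg v]
  have hmono : ∫ t in α..β, 1 / (1 + lam * |f t|) ^ 2
      ≤ ∫ t in α..β, (1 / c₀) * (1 / (1 + lam * |f t|) ^ 2 * deriv f t) := by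
    refine intervalIntegral.integral_mono_on hab (hg.intervalIntegrable α β)
      ((continuous_const.mul (hg.mul hf')).intervalIntegrable α β) ?_
    intro t ht
    have h1 := h t ht
    have h2 : 0 ≤ 1 / (1 + lam * |f t|) ^ 2 := by positivity
    have h3 : (1 / c₀) * (1 / (1 + lam * |f t|) ^ 2 * deriv f t)
        = 1 / (1 + lam * |f t|) ^ 2 * (deriv f t / c₀) := by ring
    rw [h3]
    refine le_mul_of_one_le_right h2 ?_
    rw [le_div_iff₀ hc]; linarith
  refine hmono.trans ?_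
  rw [intervalIntegral.integral_const_mul, hI]
  have h1 := (abs_le.mp (hb (f β))).2
  have h2 := (abs_le.mp (hb (f α))).1
  have h3 : f β / (1 + lam * |f β|) - f α / (1 + lam * |f α|) ≤ 2 / lam := by
    have : (2 : ℝ) / lam = 1 / lam + 1 / lam := by ring
    rw [this]; linarith
  have h4 : (2 : ℝ) / (c₀ * lam) = (1 / c₀) * (2 / lam) := by
    field_simp
  rw [h4]
  exact mul_le_mul_of_nonneg_left h3 (by positivity)

theorem mono_int (f : ℝ → ℝ) (α β c₀ lam : ℝ) (hab : α ≤ β) (hf : ContDiff ℝ 1 f) (hc : 0 < c₀)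
    (hl : 0 < lam) (h : ∀ t ∈ Icc α β, c₀ ≤ |deriv f t|) :
    ∫ t in α..β, 1 / (1 + lam * |f t|) ^ 2 ≤ 2 / (c₀ * lam) := by
  have hf' : Continuous (deriv f) := hf.continuous_deriv le_rfl
  have hcase : (∀ t ∈ Icc α β, c₀ ≤ deriv f t) ∨ (∀ t ∈ Icc α β, deriv f t ≤ -c₀) := by
    by_contra hcon
    push Not at hcon
    obtain ⟨⟨t1, ht1, h1⟩, ⟨t2, ht2, h2⟩⟩ := hcon
    have h1' : deriv f t1 < 0 := by
      have := h t1 ht1
      rcases le_or_gt 0 (deriv f t1) with h0 | h0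
      · rw [abs_of_nonneg h0] at this; linarith
      · exact h0
    have h2' : 0 < deriv f t2 := by
      have := h t2 ht2
      rcases le_or_gt (deriv f t2) 0 with h0 | h0
      · rw [abs_of_nonpos h0] at this; linarith
      · exact h0
    have h3 : (0 : ℝ) ∈ deriv f '' Icc α β :=
      isPreconnected_Icc.intermediate_value ht1 ht2 hf'.continuousOn ⟨h1'.le, h2'.le⟩
    obtain ⟨t, ht, h0⟩ := h3
    have := h t ht
    rw [h0, abs_zero] at this
    linarith
  rcases hcase with h1 | h1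
  · exact AN1_pos f α β c₀ lam hab hf hc hl h1
  · have h2 := AN1_pos (fun t => -f t) α β c₀ lam hab hf.neg hc hl (fun t ht => by
      have := h1 t ht
      rw [show deriv (fun t => -f t) t = -deriv f t from deriv.fun_neg]
      linarith)
    simpa only [abs_neg] using h2

end Pool.Agent.SDT.N1

end -- N1.AN1

section -- N1.Cell

namespace Pool.Agent.SDT.N1

open MeasureTheory Set Metric Pool.Agent.SDT.MP_6cbfb8_an Pool.Agent.SDT.MST
open scoped ENNReal Real ContDiff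

/-- From local to uniform on a compact set. -/
theorem g2_unif {X : Type*} [PseudoMetricSpace X] {K : Set X} (hK : IsCompact K)
    (P : X → ℝ → ℝ → Prop)
    (hmono : ∀ x δ δ' C C', 0 < δ' → δ' ≤ δ → C ≤ C' → P x δ C → P x δ' C')
    (hloc : ∀ x ∈ K, ∃ δ : ℝ, 0 < δ ∧ ∃ C : ℝ, 0 ≤ C ∧ P x δ C)
    (hshift : ∀ x x' δ C, 0 < δ → dist x' x ≤ δ / 2 → P x δ C → P x' (δ / 2) C) :
    ∃ δ : ℝ, 0 < δ ∧ ∃ C : ℝ, 0 ≤ C ∧ ∀ x ∈ K, P x δ C := by
  refine hK.induction_on
    (p := fun S => ∃ δ : ℝ, 0 < δ ∧ ∃ C : ℝ, 0 ≤ C ∧ ∀ x ∈ S, P x δ C) ?_ ?_ ?_ ?_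
  · exact ⟨1, one_pos, 0, le_rfl, fun x hx => absurd hx (notMem_empty x)⟩
  · rintro S S' hS ⟨δ, hδ, C, hC, h⟩
    exact ⟨δ, hδ, C, hC, fun x hx => h x (hS hx)⟩
  · rintro S S' ⟨δ, hδ, C, hC, h⟩ ⟨δ', hδ', C', hC', h'⟩
    refine ⟨min δ δ', lt_min hδ hδ', max C C', le_max_of_le_left hC, ?_⟩
    rintro x (hx | hx)
    · exact hmono x δ _ C _ (lt_min hδ hδ') (min_le_left _ _) (le_max_left _ _) (h x hx)
    · exact hmono x δ' _ C' _ (lt_min hδ hδ') (min_le_right _ _) (le_max_right _ _) (h' x hx)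
  · intro x hx
    obtain ⟨δ, hδ, C, hC, h⟩ := hloc x hx
    refine ⟨closedBall x (δ / 2),
      mem_nhdsWithin_of_mem_nhds (closedBall_mem_nhds x (half_pos hδ)), δ / 2, half_pos hδ, C,
      hC, ?_⟩
    intro x' hx'
    exact hshift x x' δ C hδ hx' h

/-- the cell index -/
noncomputable def g2_ix (R δ s : ℝ) : ℕ := ⌊(s + R) / δ⌋₊

theorem g2_ix_lt {R δ s : ℝ} (hδ : 0 < δ) (hs : |s| ≤ R) :
    g2_ix R δ s < ⌊2 * R / δ⌋₊ + 1 := by
  unfold g2_ix
  refine Nat.lt_succ_of_le (Nat.floor_le_floor ?_)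
  have := (abs_le.1 hs).2
  gcongr
  linarith

theorem g2_ix_near {R δ s t : ℝ} (hδ : 0 < δ) (hs : |s| ≤ R) (ht : |t| ≤ R)
    (h : g2_ix R δ s = g2_ix R δ t) : |s - t| ≤ δ := by
  unfold g2_ix at h
  have hs0 : 0 ≤ (s + R) / δ := div_nonneg (by linarith [(abs_le.1 hs).1]) hδ.le
  have ht0 : 0 ≤ (t + R) / δ := div_nonneg (by linarith [(abs_le.1 ht).1]) hδ.le
  have h1 := Nat.floor_le hs0
  have h2 := Nat.lt_floor_add_one ((s + R) / δ)
  have h3 := Nat.floor_le ht0
  have h4 := Nat.lt_floor_add_one ((t + R) / δ)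
  rw [h] at h1 h2
  have h5 : (s + R) / δ - (t + R) / δ < 1 := by linarith
  have h6 : (t + R) / δ - (s + R) / δ < 1 := by linarith
  have h7 : (s + R) / δ - (t + R) / δ = (s - t) / δ := by ring
  rw [h7] at h5
  have h8 : (t + R) / δ - (s + R) / δ = (t - s) / δ := by ring
  rw [h8] at h6
  rw [div_lt_one hδ] at h5 h6
  rw [abs_le]
  constructor <;> linarith

theorem g2_ix_meas (R δ : ℝ) : Measurable (g2_ix R δ) := by
  unfold g2_ix
  exact Nat.measurable_floor.comp (by fun_prop)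

/-- restriction to a cell -/
noncomputable def g2_cut {α : Type*} (φ : α → ℝ) (R δ : ℝ) (A : α → ℂ) (i : ℕ) (u : α) : ℂ :=
  if g2_ix R δ (φ u) = i then A u else 0

theorem g2_cut_meas {α : Type*} [MeasurableSpace α] {φ : α → ℝ} (hφ : Measurable φ) (R δ : ℝ)
    {A : α → ℂ} (hA : Measurable A) (i : ℕ) : Measurable (g2_cut φ R δ A i) := by
  unfold g2_cut
  refine Measurable.ite ?_ hA measurable_const
  exact ((g2_ix_meas R δ).comp hφ) (measurableSet_singleton i)

theorem g2_cut_norm {α : Type*} (φ : α → ℝ) (R δ : ℝ) {A : α → ℂ} (hA : ∀ a, ‖A a‖ ≤ 1) (i : ℕ)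
    (u : α) : ‖g2_cut φ R δ A i u‖ ≤ 1 := by
  unfold g2_cut
  split_ifs
  · exact hA u
  · simp

theorem g2_cut_ne {α : Type*} {φ : α → ℝ} {R δ : ℝ} {A : α → ℂ} {i : ℕ} {u : α}
    (h : g2_cut φ R δ A i u ≠ 0) : g2_ix R δ (φ u) = i ∧ A u ≠ 0 := by
  unfold g2_cut at h
  split_ifs at h with h1
  · exact ⟨h1, h⟩
  · exact absurd rfl h

theorem g2_cut_sum {α : Type*} (φ : α → ℝ) (R δ : ℝ) (hδ : 0 < δ) (A : α → ℂ)
    (hAs : ∀ u, A u ≠ 0 → |φ u| ≤ R) (u : α) :
    ∑ i ∈ Finset.range (⌊2 * R / δ⌋₊ + 1), g2_cut φ R δ A i u = A u := by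
  by_cases hA : A u = 0
  · rw [hA]
    refine Finset.sum_eq_zero fun i _ => ?_
    unfold g2_cut
    rw [hA]
    simp
  · unfold g2_cut
    rw [Finset.sum_ite_eq, if_pos]
    exact Finset.mem_range.2 (g2_ix_lt hδ (hAs u hA))

end Pool.Agent.SDT.N1

end -- N1.Cell

section -- N1F.HM4

/-!
The geometry for the anisotropic estimate, continued.
-/

namespace Pool.Agent.SDT.N1F

open MeasureTheory Set Metric Pool.Agent.SDT.MST Pool.Agent.SDT.N1
open scoped ContDiff

theorem hm_B3 (κ ε A u b g K L m2 : ℝ) (hκ : 0 < κ) (hε : 0 < ε) (hu : 0 ≤ u)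
    (hL : 0 < L) (hK : 1 ≤ K) (hm2 : 0 < m2) (hA : K * (ε * u) ≤ |A|) (hb : m2 / 2 ≤ |b|)
    (hg : |g| ≤ L * u) (hKL : L ≤ K * (m2 / 4)) :
    m2 / 8 * (κ * |A| + κ * ε * u) ≤ |κ * (A * b + ε * g)| := by
  have h1 : |A * b| - |ε * g| ≤ |A * b + ε * g| := by
    have h8 := abs_sub_abs_le_abs_sub (A * b) (-(ε * g))
    rw [abs_neg, sub_neg_eq_add] at h8
    exact h8
  have h2 : |A| * (m2 / 2) ≤ |A * b| := by
    rw [abs_mul]
    exact mul_le_mul_of_nonneg_left hb (abs_nonneg _)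
  have h3 : |ε * g| ≤ ε * (L * u) := by
    rw [abs_mul, abs_of_pos hε]
    exact mul_le_mul_of_nonneg_left hg hε.le
  have h4 : ε * (L * u) ≤ m2 / 4 * |A| := by
    calc ε * (L * u) = L * (ε * u) := by ring
      _ ≤ K * (m2 / 4) * (ε * u) := mul_le_mul_of_nonneg_right hKL (by positivity)
      _ = m2 / 4 * (K * (ε * u)) := by ring
      _ ≤ m2 / 4 * |A| := mul_le_mul_of_nonneg_left hA (by positivity)
  have h5 : ε * u ≤ |A| := by
    have : 1 * (ε * u) ≤ K * (ε * u) := mul_le_mul_of_nonneg_right hK (by positivity)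
    linarith
  have h6 : m2 / 8 * (|A| + ε * u) ≤ |A * b + ε * g| := by
    have h7 : m2 / 8 * (|A| + ε * u) ≤ m2 / 8 * (|A| + |A|) :=
      mul_le_mul_of_nonneg_left (by linarith) (by positivity)
    linarith
  rw [abs_mul, abs_of_pos hκ]
  calc m2 / 8 * (κ * |A| + κ * ε * u) = κ * (m2 / 8 * (|A| + ε * u)) := by ring
    _ ≤ κ * |A * b + ε * g| := mul_le_mul_of_nonneg_left h6 hκ.le

theorem hm_B1 (κ ε A u b g K L S σ1 t x : ℝ) (hκ : 0 < κ) (hε : 0 < ε) (hu : 0 ≤ u) (hS : 0 < S)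
    (hσ1 : 0 < σ1) (ht : 0 < t) (hA : K * (ε * u) ≤ |A|) (hb : |b| ≤ x)
    (hg : |g| ≤ L * u) (hx : S * x ≤ σ1 * t / 8) (hKL : S * L ≤ K * (σ1 * t / 8)) :
    S * |κ * (A * b + ε * g)| ≤ σ1 / 4 * (t * (κ * |A| + κ * ε * u)) := by
  have h1 : |A * b + ε * g| ≤ |A| * x + ε * (L * u) := by
    refine (abs_add_le _ _).trans (add_le_add ?_ ?_)
    · rw [abs_mul]
      exact mul_le_mul_of_nonneg_left hb (abs_nonneg _)
    · rw [abs_mul, abs_of_pos hε]
      exact mul_le_mul_of_nonneg_left hg hε.le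
  have h2 : S * (|A| * x) ≤ σ1 * t / 8 * |A| := by
    calc S * (|A| * x) = S * x * |A| := by ring
      _ ≤ σ1 * t / 8 * |A| := mul_le_mul_of_nonneg_right hx (abs_nonneg _)
  have h3 : S * (ε * (L * u)) ≤ σ1 * t / 8 * |A| := by
    calc S * (ε * (L * u)) = S * L * (ε * u) := by ring
      _ ≤ K * (σ1 * t / 8) * (ε * u) := mul_le_mul_of_nonneg_right hKL (by positivity)
      _ = σ1 * t / 8 * (K * (ε * u)) := by ring
      _ ≤ σ1 * t / 8 * |A| := mul_le_mul_of_nonneg_left hA (by positivity)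
  have h4 : S * |A * b + ε * g| ≤ σ1 * t / 4 * |A| := by
    calc S * |A * b + ε * g| ≤ S * (|A| * x + ε * (L * u)) := mul_le_mul_of_nonneg_left h1 hS.le
      _ = S * (|A| * x) + S * (ε * (L * u)) := by ring
      _ ≤ σ1 * t / 4 * |A| := by linarith
  have h5 : 0 ≤ σ1 / 4 * (t * (κ * ε * u)) := by positivity
  rw [abs_mul, abs_of_pos hκ]
  calc S * (κ * |A * b + ε * g|) = κ * (S * |A * b + ε * g|) := by ring
    _ ≤ κ * (σ1 * t / 4 * |A|) := mul_le_mul_of_nonneg_left h4 hκ.le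
    _ ≤ σ1 / 4 * (t * (κ * |A| + κ * ε * u)) := by
      have e : σ1 / 4 * (t * (κ * |A| + κ * ε * u)) =
        κ * (σ1 * t / 4 * |A|) + σ1 / 4 * (t * (κ * ε * u)) := by ring
      linarith

theorem hm_C3 (κ ε A u b g B K c4 c3 x : ℝ) (hκ : 0 < κ) (hε : 0 < ε) (hu : 0 ≤ u)
    (hK : 1 ≤ K) (hc3 : 0 < c3) (hx : 0 < x) (hA : |A| ≤ K * (ε * u)) (hb : |b| ≤ x)
    (hg : |g - B| ≤ x * u) (hB : c4 * u ≤ |B|) (hKx : (1 + K) * x ≤ c4 / 2)
    (hcc : c3 * (2 * (1 + K)) ≤ c4) :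
    c3 * (κ * |A| + κ * ε * u) ≤ |κ * (A * b + ε * g)| := by
  have h1 : |ε * g| - |A * b| ≤ |A * b + ε * g| := by
    have h8 := abs_sub_abs_le_abs_sub (ε * g) (-(A * b))
    rw [abs_neg, sub_neg_eq_add, add_comm (ε * g)] at h8
    exact h8
  have h2 : |A * b| ≤ K * (ε * u) * x := by
    rw [abs_mul]
    exact mul_le_mul hA hb (abs_nonneg _) (by positivity)
  have h3 : c4 * u - x * u ≤ |g| := by
    have h4 := abs_sub_abs_le_abs_sub B (B - g)
    rw [sub_sub_cancel, abs_sub_comm B g] at h4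
    linarith
  have h4 : ε * (c4 * u - x * u) ≤ |ε * g| := by
    rw [abs_mul, abs_of_pos hε]
    exact mul_le_mul_of_nonneg_left h3 hε.le
  have h5 : c3 * (|A| + ε * u) ≤ |A * b + ε * g| := by
    have h6 : c3 * (|A| + ε * u) ≤ c3 * ((1 + K) * (ε * u)) :=
      mul_le_mul_of_nonneg_left (by linarith) hc3.le
    have h7 : c3 * ((1 + K) * (ε * u)) ≤ c4 / 2 * (ε * u) := by
      have h8 : c3 * (1 + K) ≤ c4 / 2 := by linarith
      calc c3 * ((1 + K) * (ε * u)) = c3 * (1 + K) * (ε * u) := by ring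
        _ ≤ c4 / 2 * (ε * u) := mul_le_mul_of_nonneg_right h8 (by positivity)
    have h9 : (1 + K) * x * (ε * u) ≤ c4 / 2 * (ε * u) :=
      mul_le_mul_of_nonneg_right hKx (by positivity)
    have h10 : ε * (c4 * u - x * u) - K * (ε * u) * x = c4 * (ε * u) - (1 + K) * x * (ε * u) := by
      ring
    linarith
  rw [abs_mul, abs_of_pos hκ]
  calc c3 * (κ * |A| + κ * ε * u) = κ * (c3 * (|A| + ε * u)) := by ring
    _ ≤ κ * |A * b + ε * g| := mul_le_mul_of_nonneg_left h5 hκ.le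

/-- upper bound for a derivative of the coupling -/
theorem hm_up (κ ε A b g La Lg x y : ℝ) (hκ : 0 < κ) (hκ1 : κ ≤ 1) (hε : 0 < ε) (hεx : ε ≤ x)
    (hA : |A| ≤ La) (hb : |b| ≤ y) (hg : |g| ≤ Lg) : |κ * (A * b + ε * g)| ≤ La * y + x * Lg := by
  have h1 : |A * b + ε * g| ≤ La * y + x * Lg := by
    refine (abs_add_le _ _).trans (add_le_add ?_ ?_)
    · rw [abs_mul]
      exact mul_le_mul hA hb (abs_nonneg _) ((abs_nonneg _).trans hA)
    · rw [abs_mul, abs_of_pos hε]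
      exact mul_le_mul hεx hg (abs_nonneg _) (hε.le.trans hεx)
  rw [abs_mul, abs_of_pos hκ]
  calc κ * |A * b + ε * g| ≤ 1 * |A * b + ε * g| := mul_le_mul_of_nonneg_right hκ1 (abs_nonneg _)
    _ ≤ La * y + x * Lg := by rw [one_mul]; exact h1

/-- upper bound for a difference of derivatives of the coupling -/
theorem hm_upD (κ ε A b g u Lb Lg L : ℝ) (hκ : 0 < κ) (hε : 0 < ε) (hu : 0 ≤ u)
    (hb : |b| ≤ Lb) (hg : |g| ≤ Lg * u) (h1 : Lb ≤ L) (h2 : Lg ≤ L) :
    |κ * (A * b + ε * g)| ≤ L * (κ * |A| + κ * ε * u) := by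
  have h3 : |A * b + ε * g| ≤ L * (|A| + ε * u) := by
    have h4 : |A * b| ≤ L * |A| := by
      rw [abs_mul, mul_comm]
      exact mul_le_mul_of_nonneg_right (hb.trans h1) (abs_nonneg _)
    have h5 : |ε * g| ≤ L * (ε * u) := by
      rw [abs_mul, abs_of_pos hε]
      calc ε * |g| ≤ ε * (Lg * u) := mul_le_mul_of_nonneg_left hg hε.le
        _ = Lg * (ε * u) := by ring
        _ ≤ L * (ε * u) := mul_le_mul_of_nonneg_right h2 (by positivity)
    refine (abs_add_le _ _).trans ?_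
    linarith
  rw [abs_mul, abs_of_pos hκ]
  calc κ * |A * b + ε * g| ≤ κ * (L * (|A| + ε * u)) := mul_le_mul_of_nonneg_left h3 hκ.le
    _ = L * (κ * |A| + κ * ε * u) := by ring

theorem hm_iterG (b1 g1 : ℝ → ℝ) (h1 : ContDiff ℝ ∞ b1) (h2 : ContDiff ℝ ∞ g1) (κ ε A : ℝ)
    (j : ℕ) : iteratedDeriv j (fun t => κ * (A * b1 t + ε * g1 t)) 0 =
      κ * (A * iteratedDeriv j b1 0 + ε * iteratedDeriv j g1 0) := by
  have k1 : ContDiffAt ℝ j b1 0 := (h1.of_le (by exact_mod_cast le_top)).contDiffAt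
  have k2 : ContDiffAt ℝ j g1 0 := (h2.of_le (by exact_mod_cast le_top)).contDiffAt
  rw [iteratedDeriv_const_mul_field, iteratedDeriv_fun_add (contDiffAt_const.mul k1)
    (contDiffAt_const.mul k2), iteratedDeriv_const_mul_field, iteratedDeriv_const_mul_field]

end Pool.Agent.SDT.N1F

end -- N1F.HM4

section -- N1Q.AbA

/-!
N1Q, block absE: lower bound of the phase of a rectangle with non-tangential sides.
-/

namespace Pool.Agent.SDT.N1Q

open MeasureTheory Set Metric Pool.Agent.SDT.MP_6cbfb8_an Pool.Agent.SDT.MST Pool.Agent.SDT.N1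
open Pool.Agent.SDT.N1F Pool.Agent.SDT.N1G Pool.Agent.SDT.N1M
open scoped ENNReal Real ContDiff

/-- The algebraic core. -/
theorem absE_core (s0 s1 s2 s3 U V D : ℝ) (h0 : 1 / 2 ≤ s0) (h1 : 1 / 2 ≤ s1) (h2 : 1 / 2 ≤ s2)
    (h3 : 1 / 2 ≤ s3) (k0 : s0 ≤ 5) (k1 : s1 ≤ 5) (k2 : s2 ≤ 5) (k3 : s3 ≤ 5)
    (e1 : s0 ^ 2 - s1 ^ 2 = 2 * U) (e2 : s0 ^ 2 - s2 ^ 2 = 2 * V)
    (e3 : s3 ^ 2 = s0 ^ 2 - 2 * U - 2 * V + 2 * D) (hD : |D| ≤ |U * V| / 1000) :
    |U * V| / 200 ≤ |s0 - s1 - s2 + s3| := by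
  have p01 : 0 < s0 + s1 := by linarith
  have p23 : 0 < s2 + s3 := by linarith
  have p02 : 0 < s0 + s2 := by linarith
  have p13 : 0 < s1 + s3 := by linarith
  have hF : s0 - s1 - s2 + s3 = -(4 / ((s0 + s1) * (s2 + s3)) *
      (U * (V / (s0 + s2) + (V - D) / (s1 + s3)))) + 2 * D / (s2 + s3) := by
    have a1 : V / (s0 + s2) = (s0 - s2) / 2 := by
      rw [div_eq_iff p02.ne']
      linear_combination (-1 / 2) * e2
    have a2 : (V - D) / (s1 + s3) = (s1 - s3) / 2 := by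
      rw [div_eq_iff p13.ne']
      linear_combination (1 / 2) * e1 + (1 / 2) * e3
    have a3 : U = (s0 - s1) * (s0 + s1) / 2 := by linear_combination (-1 / 2) * e1
    have a4 : 2 * D / (s2 + s3) = (s0 - s1) * (s0 + s1) / (s2 + s3) - (s2 - s3) := by
      rw [div_eq_iff p23.ne', sub_mul, div_mul_cancel₀ _ p23.ne']
      linear_combination -e1 - e2 - e3
    rw [a1, a2, a4, a3]
    field_simp
    ring
  have hU : |U| ≤ 25 / 2 := by
    rw [abs_le]
    constructor <;> nlinarith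
  have hUV : |U * V| = |U| * |V| := abs_mul _ _
  have hU0 := abs_nonneg U
  have hV0 := abs_nonneg V
  have hD0 := abs_nonneg D
  have hDV : |D| ≤ 25 / 2000 * |V| := by
    rw [hUV] at hD
    have := mul_le_mul_of_nonneg_right hU hV0
    linarith
  -- lower bound of the bracket
  have hbr : 187 / 1000 * |V| ≤ |V / (s0 + s2) + (V - D) / (s1 + s3)| := by
    have i1 : V / (s0 + s2) + (V - D) / (s1 + s3) =
        V * (1 / (s0 + s2) + 1 / (s1 + s3)) - D * (1 / (s1 + s3)) := by ring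
    rw [i1]
    have j1 : 1 / 10 ≤ 1 / (s0 + s2) := one_div_le_one_div_of_le p02 (by linarith)
    have j2 : 1 / 10 ≤ 1 / (s1 + s3) := one_div_le_one_div_of_le p13 (by linarith)
    have j3 : 1 / (s1 + s3) ≤ 1 := by
      rw [div_le_one p13]
      linarith
    have j4 : 0 ≤ 1 / (s1 + s3) := by positivity
    have l1 : |V| * (1 / 5) ≤ |V * (1 / (s0 + s2) + 1 / (s1 + s3))| := by
      rw [abs_mul]
      refine mul_le_mul_of_nonneg_left ?_ hV0
      rw [abs_of_nonneg (by linarith)]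
      linarith
    have l2 : |D * (1 / (s1 + s3))| ≤ |D| := by
      rw [abs_mul, abs_of_nonneg j4]
      exact mul_le_of_le_one_right hD0 j3
    have := abs_sub_abs_le_abs_sub (V * (1 / (s0 + s2) + 1 / (s1 + s3))) (D * (1 / (s1 + s3)))
    linarith
  have hk : 4 / 100 ≤ 4 / ((s0 + s1) * (s2 + s3)) := by
    apply div_le_div_of_nonneg_left (by norm_num) (by positivity)
    nlinarith
  have t1 : 748 / 100000 * (|U| * |V|) ≤ |4 / ((s0 + s1) * (s2 + s3)) *
      (U * (V / (s0 + s2) + (V - D) / (s1 + s3)))| := by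
    rw [abs_mul, abs_mul, abs_of_nonneg (le_trans (by norm_num) hk)]
    calc 748 / 100000 * (|U| * |V|) = 4 / 100 * (|U| * (187 / 1000 * |V|)) := by ring
      _ ≤ _ := mul_le_mul hk (mul_le_mul_of_nonneg_left hbr hU0) (by positivity)
          (le_trans (by norm_num) hk)
  have t2 : |2 * D / (s2 + s3)| ≤ 2 * |D| := by
    rw [abs_div, abs_mul, abs_of_pos p23, abs_of_pos (by norm_num : (0:ℝ) < 2)]
    apply div_le_self (by positivity)
    linarith
  rw [hF]
  have := abs_sub_abs_le_abs_sub (-(4 / ((s0 + s1) * (s2 + s3)) *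
      (U * (V / (s0 + s2) + (V - D) / (s1 + s3))))) (-(2 * D / (s2 + s3)))
  rw [sub_neg_eq_add, abs_neg, abs_neg] at this
  rw [hUV] at hD ⊢
  have hUV0 : 0 ≤ |U| * |V| := by positivity
  linarith

end Pool.Agent.SDT.N1Q

end -- N1Q.AbA
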