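import Pool.Agent.SDT.Defs0

set_option autoImplicit false

namespace Pool.Agent.SDT.MP_6cbfb8_an
end Pool.Agent.SDT.MP_6cbfb8_an
namespace Pool.Agent.SDT.MST
end Pool.Agent.SDT.MST
namespace Pool.Agent.SDT.N1
end Pool.Agent.SDT.N1
namespace Pool.Agent.SDT.N1F
end Pool.Agent.SDT.N1F
namespace Pool.Agent.SDT.N1G
end Pool.Agent.SDT.N1G
namespace Pool.Agent.SDT.N1M
end Pool.Agent.SDT.N1M

section -- MP_6cbfb8_an.Defs

/-!
Basic definitions for the restriction problem (surface measure on the sphere, the Fourier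
transform of a measure with a density, angular regularity along the parallels).
-/

namespace Pool.Agent.SDT.MP_6cbfb8_an

open MeasureTheory Set
open scoped ENNReal Real




/-- The point `(x, t)` of `R^(n+1)`. -/
noncomputable def join {n : ℕ} (x : E n) (t : ℝ) : E (n + 1) :=
  WithLp.toLp 2 (Fin.snoc (α := fun _ => ℝ) (fun i => x i) t)

/-- The point `(sin θ • ω, cos θ)`: for `ω` in the unit sphere of `R^n` it runs through the
parallel of polar angle `θ` of the unit sphere of `R^(n+1)`. -/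
noncomputable def pt {n : ℕ} (θ : ℝ) (ω : E n) : E (n + 1) :=
  join (Real.sin θ • ω) (Real.cos θ)


/-- Angular energy: the integral over all parallels `θ = const` of the square of the `H^s`
(Gagliardo) seminorm of `g` on the parallel, each parallel being parametrised by the unit sphere
of `R^n`, with the weight `(sin θ)^(n-2)`. -/
noncomputable def angEnergy {n : ℕ} (s : ℝ) (g : E (n + 1) → ℂ) : ℝ≥0∞ :=
  ∫⁻ θ in Ioo 0 π, ENNReal.ofReal (Real.sin θ ^ (n - 2)) *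
    (∫⁻ ω : S n, (∫⁻ ω' : S n,
      ‖g (pt θ (ω : E n)) - g (pt θ (ω' : E n))‖ₑ ^ (2:ℝ) /
        ENNReal.ofReal (‖(ω : E n) - (ω' : E n)‖ ^ ((n : ℝ) - 1 + 2 * s)) ∂(sm n)) ∂(sm n))


end Pool.Agent.SDT.MP_6cbfb8_an

end -- MP_6cbfb8_an.Defs

section -- MP_6cbfb8_an.Tools

/-!
Elementary tools: measurability, linearity and bounds for the extension operator in polar
coordinates, interpolation of integrals.
-/

namespace Pool.Agent.SDT.MP_6cbfb8_an

open MeasureTheory Set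
open scoped ENNReal Real RealInnerProductSpace

/-- The phase factor. -/
lemma norm_phase (t : ℝ) : ‖Complex.exp ((t : ℂ) * Complex.I)‖ = 1 := by
  rw [Complex.norm_exp_ofReal_mul_I]

lemma enorm_phase (t : ℝ) : ‖Complex.exp ((t : ℂ) * Complex.I)‖ₑ = 1 := by
  rw [← ofReal_norm, norm_phase]; simp

lemma lintegral_interp {α : Type*} [MeasurableSpace α] {μ : Measure α} (f : α → ℝ≥0∞)
    (hf : Measurable f) {p q a : ℝ} (ha0 : 0 ≤ a) (ha1 : a ≤ 1)
    (hq : 0 ≤ q) (hp : p = 2 * a + q * (1 - a)) :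
    ∫⁻ x, f x ^ p ∂μ ≤ (∫⁻ x, f x ^ (2:ℝ) ∂μ) ^ a * (∫⁻ x, f x ^ q ∂μ) ^ (1 - a) := by
  have h := ENNReal.lintegral_mul_norm_pow_le (μ := μ) (f := fun x => f x ^ (2:ℝ))
    (g := fun x => f x ^ q) (hf.pow_const _).aemeasurable (hf.pow_const _).aemeasurable
    (p := a) (q := 1 - a) ha0 (by linarith) (by ring)
  refine le_trans (le_of_eq ?_) h
  refine lintegral_congr fun x => ?_
  rw [← ENNReal.rpow_mul, ← ENNReal.rpow_mul, hp,
    ENNReal.rpow_add_of_nonneg _ _ (by positivity) (mul_nonneg hq (by linarith))]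

lemma lintegral_rpow_le_sup {α : Type*} [MeasurableSpace α] {μ : Measure α} (f : α → ℝ≥0∞)
    (hf : Measurable f) {p p' : ℝ} (hp' : 0 ≤ p') (hp : p' ≤ p) (M : ℝ≥0∞) (hM : ∀ x, f x ≤ M) :
    ∫⁻ x, f x ^ p ∂μ ≤ M ^ (p - p') * ∫⁻ x, f x ^ p' ∂μ := by
  rw [← lintegral_const_mul _ (hf.pow_const _)]
  refine lintegral_mono fun x => ?_
  calc f x ^ p = f x ^ (p - p') * f x ^ p' := by
        rw [← ENNReal.rpow_add_of_nonneg _ _ (by linarith) hp']; congr 1; ring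
    _ ≤ M ^ (p - p') * f x ^ p' := by
        gcongr
        exact hM x

lemma add_rpow_le_three {a b c : ℝ≥0∞} {p : ℝ} (hp : 0 ≤ p) :
    (a + b + c) ^ p ≤ 3 ^ p * (a ^ p + b ^ p + c ^ p) := by
  have h1 : a + b + c ≤ 3 * max a (max b c) := by
    have ha : a ≤ max a (max b c) := le_max_left _ _
    have hb : b ≤ max a (max b c) := (le_max_left _ _).trans (le_max_right _ _)
    have hc : c ≤ max a (max b c) := (le_max_right _ _).trans (le_max_right _ _)
    calc a + b + c ≤ max a (max b c) + max a (max b c) + max a (max b c) := by gcongr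
      _ = 3 * max a (max b c) := by ring
  calc (a + b + c) ^ p ≤ (3 * max a (max b c)) ^ p := by gcongr
    _ = 3 ^ p * (max a (max b c)) ^ p := ENNReal.mul_rpow_of_nonneg _ _ hp
    _ ≤ 3 ^ p * (a ^ p + b ^ p + c ^ p) := by
        gcongr
        rcases max_choice a (max b c) with h | h <;> rw [h]
        · exact le_add_right (le_add_right le_rfl)
        · rcases max_choice b c with h' | h' <;> rw [h']
          · exact le_add_right (le_add_left le_rfl)
          · exact le_add_left le_rfl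

section cyl

variable {j : ℕ}

lemma measurable_inner_coe {n : ℕ} : Measurable fun q : E n × S n =>
    (inner ℝ (q.2 : E n) q.1 : ℝ) := by
  have h : Continuous fun q : E n × S n => (inner ℝ (q.2 : E n) q.1 : ℝ) := by fun_prop
  exact h.measurable

/-- The integrand of `cyl`. -/
noncomputable def cylI (G : ℝ → E (j + 2) → ℂ) (y : E (j + 2)) (z θ : ℝ) (ω : S (j + 2)) : ℂ :=
  G θ ω * Complex.exp (((-(2 * π * (Real.sin θ * inner ℝ (ω : E (j + 2)) y + z * Real.cos θ)) : ℝ) : ℂ)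
      * Complex.I)

lemma measurable_cylI (G : ℝ → E (j + 2) → ℂ) (hG : Measurable (Function.uncurry G)) :
    Measurable fun q : ((E (j + 2) × ℝ) × ℝ) × S (j + 2) => cylI G q.1.1.1 q.1.1.2 q.1.2 q.2 := by
  unfold cylI
  have h1 : Measurable fun q : ((E (j + 2) × ℝ) × ℝ) × S (j + 2) => G q.1.2 (q.2 : E (j + 2)) :=
    hG.comp (f := fun q : ((E (j + 2) × ℝ) × ℝ) × S (j + 2) => (q.1.2, (q.2 : E (j + 2))))
      (by fun_prop)
  have h2 : Measurable fun q : ((E (j + 2) × ℝ) × ℝ) × S (j + 2) =>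
      (inner ℝ (q.2 : E (j + 2)) q.1.1.1 : ℝ) :=
    measurable_inner_coe.comp (f := fun q : ((E (j + 2) × ℝ) × ℝ) × S (j + 2) => (q.1.1.1, q.2))
      (by fun_prop)
  fun_prop


lemma integrable_cylI (G : ℝ → E (j + 2) → ℂ) (hG : Measurable (Function.uncurry G)) {B : ℝ}
    (hB : ∀ θ x, ‖G θ x‖ ≤ B) (y : E (j + 2)) (z θ : ℝ) :
    Integrable (cylI G y z θ) (sm (j + 2)) := by
  refine Integrable.of_bound (C := B) ?_ ?_
  · exact ((measurable_cylI G hG).comp (f := fun ω : S (j + 2) => (((y, z), θ), ω))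
      (by fun_prop)).aestronglyMeasurable
  · refine Filter.Eventually.of_forall fun ω => ?_
    rw [cylI, norm_mul, norm_phase, mul_one]
    exact hB _ _

lemma norm_inner_integral_le (G : ℝ → E (j + 2) → ℂ) {B : ℝ}
    (hB : ∀ θ x, ‖G θ x‖ ≤ B) (y : E (j + 2)) (z θ : ℝ) :
    ‖∫ ω : S (j + 2), cylI G y z θ ω ∂(sm (j + 2))‖ ≤ B * (sm (j + 2)).real univ := by
  refine norm_integral_le_of_norm_le_const ?_
  refine Filter.Eventually.of_forall fun ω => ?_
  rw [cylI, norm_mul, norm_phase, mul_one]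
  exact hB _ _

lemma integrable_outer (G : ℝ → E (j + 2) → ℂ) (hG : Measurable (Function.uncurry G)) {B : ℝ}
    (hB : ∀ θ x, ‖G θ x‖ ≤ B) (y : E (j + 2)) (z : ℝ) :
    Integrable (fun θ => (∫ ω : S (j + 2), cylI G y z θ ω ∂(sm (j + 2))) *
      ((Real.sin θ ^ (j + 1) : ℝ) : ℂ)) ((volume : Measure ℝ).restrict (Ioo 0 π)) := by
  have hB0 : 0 ≤ B := (norm_nonneg _).trans (hB 0 0)
  refine Integrable.of_bound (C := B * (sm (j + 2)).real univ * 1) ?_ ?_
  · have h := (measurable_cylI G hG).stronglyMeasurable.integral_prod_right' (ν := sm (j + 2))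
    have h2 : Measurable fun q : (E (j + 2) × ℝ) × ℝ =>
        (∫ ω : S (j + 2), cylI G q.1.1 q.1.2 q.2 ω ∂(sm (j + 2))) *
          ((Real.sin q.2 ^ (j + 1) : ℝ) : ℂ) := by
      refine h.measurable.mul ?_
      fun_prop
    exact (h2.comp (f := fun θ : ℝ => ((y, z), θ)) (by fun_prop)).aestronglyMeasurable
  · refine Filter.Eventually.of_forall fun θ => ?_
    rw [norm_mul]
    refine mul_le_mul (norm_inner_integral_le G hB y z θ) ?_ (norm_nonneg _) (by positivity)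
    rw [Complex.norm_real, Real.norm_eq_abs, abs_pow]
    exact pow_le_one₀ (abs_nonneg _) (Real.abs_sin_le_one θ)



end cyl

lemma sm_univ_ne_top (n : ℕ) : sm n univ ≠ ∞ := measure_ne_top _ _

end Pool.Agent.SDT.MP_6cbfb8_an

end -- MP_6cbfb8_an.Tools

section -- MST.Defs

/-!
Definitions for the almost-everywhere restriction theorem: dilated densities on the sphere.
-/

namespace Pool.Agent.SDT.MST

open MeasureTheory Set Pool.Agent.SDT.MP_6cbfb8_an
open scoped ENNReal Real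

/-- `exp (-2 π i a)`. -/
noncomputable def ex (a : ℝ) : ℂ := Complex.exp (((-(2 * π * a) : ℝ) : ℂ) * Complex.I)

/-- The square of the scaled height over a point `w` with `‖w‖ ^ 2 = ρ`. -/
noncomputable def vv (κ s ρ : ℝ) : ℝ := (1 - s * ρ) / κ ^ 2

/-- Amplitude and phase of a strip. -/
noncomputable def amp (a : ℝ → ℝ) (κ s t ρ : ℝ) : ℂ :=
  ((a (vv κ s ρ) : ℝ) : ℂ) * ex (t * (κ * √(vv κ s ρ)))

/-- The extension operator of a strip. -/
noncomputable def op (a : ℝ → ℝ) (κ s t : ℝ) (G : E 2 → ℂ) (x : E 2) : ℂ :=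
  ∫ w : E 2, G w * amp a κ s t (‖w‖ ^ 2) * ex (inner ℝ w x)

/-- A polynomial bump function (used on `[s0, s1]` only). -/
def bmp (s0 s1 s : ℝ) : ℝ := ((s - s0) * (s1 - s)) ^ 3

/-- The Fourier transform of `v ^ 2 * exp (-π v ^ 2)`. -/
noncomputable def HH (y : ℝ) : ℝ := (1 / (2 * π) - y ^ 2) * Real.exp (-(π * y ^ 2))

/-- The weight in the dilation parameter. -/
noncomputable def muS (s0 s1 : ℝ) : Measure ℝ :=
  ((volume : Measure ℝ).restrict (Icc s0 s1)).withDensity fun s => ENNReal.ofReal (bmp s0 s1 s)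

/-- The weight in the time variable. -/
noncomputable def muT (T : ℝ) : Measure ℝ :=
  (volume : Measure ℝ).withDensity fun t =>
    ENNReal.ofReal ((t / T) ^ 2 * Real.exp (-(π * (t / T) ^ 2)))

/-- The size of the phase of the four-linear form. -/
noncomputable def DD (κ r1 r2 r3 r4 : ℝ) : ℝ :=
  |r1 + r2 - r3 - r4| / κ ^ 2 + |r1 - r3| * |r1 - r4| / κ ^ 4

/-- The one-dimensional oscillatory integral in the dilation parameter. -/
noncomputable def KI (a : ℝ → ℝ) (κ s0 s1 lam r1 r2 r3 r4 : ℝ) : ℝ :=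
  ∫ s in s0..s1, bmp s0 s1 s *
    (a (vv κ s r1) * a (vv κ s r2) * a (vv κ s r3) * a (vv κ s r4)) *
    HH (lam * (√(vv κ s r1) + √(vv κ s r2) - √(vv κ s r3) - √(vv κ s r4)))

/-- Strip cut-off functions: twice continuously differentiable, supported in `[1/4, 4]`. -/
def Cut (a : ℝ → ℝ) : Prop := ContDiff ℝ 2 a ∧ ∀ v, v ≤ 1 / 4 ∨ 4 ≤ v → a v = 0

/-- The part on the upper hemisphere of the density `G (r x_1, r x_2)`. -/
noncomputable def up (r : ℝ) (G : E 2 → ℂ) (x : E 3) : ℂ :=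
  if 0 < x (Fin.last 2) then G (r • (fstE (k := 2) (l := 1) x : E 2)) else 0

/-- The density `G (r x_1, r x_2)`. -/
noncomputable def dens (r : ℝ) (G : E 2 → ℂ) (x : E 3) : ℂ :=
  G (r • (fstE (k := 2) (l := 1) x : E 2))

end Pool.Agent.SDT.MST

end -- MST.Defs

section -- MST.NS

namespace Pool.Agent.SDT.MST

open MeasureTheory Set Pool.Agent.SDT.MP_6cbfb8_an
open scoped ENNReal Real

/-- Bounds for the derivatives of a factor of a product. -/
theorem hns_quot (n : ℕ) (C0 c0 : ℝ) (hc : 0 < c0) : ∃ M : ℝ, 0 ≤ M ∧ ∀ (g h : ℝ → ℝ) (τ : ℝ),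
    (∀ k : ℕ, ContDiff ℝ k g) → (∀ k : ℕ, ContDiff ℝ k h) →
    (∀ j ≤ n, |iteratedDeriv j (g * h) τ| ≤ C0) → (∀ j ≤ n, |iteratedDeriv j h τ| ≤ C0) →
    c0 ≤ |h τ| → ∀ j ≤ n, |iteratedDeriv j g τ| ≤ M := by
  induction n with
  | zero =>
    refine ⟨|C0| / c0, by positivity, fun g h τ _ _ h3 _ h5 j hj => ?_⟩
    obtain rfl : j = 0 := by omega
    have h6 := h3 0 le_rfl
    rw [iteratedDeriv_zero] at h6 ⊢
    rw [le_div_iff₀ hc]
    calc |g τ| * c0 ≤ |g τ| * |h τ| := mul_le_mul_of_nonneg_left h5 (abs_nonneg _)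
      _ = |(g * h) τ| := by rw [Pi.mul_apply, abs_mul]
      _ ≤ |C0| := h6.trans (le_abs_self _)
  | succ n ih =>
    obtain ⟨M, hM, hb⟩ := ih
    refine ⟨max M ((|C0| + ∑ i ∈ Finset.range (n + 1), ((n + 1).choose i : ℝ) * M * |C0|) / c0),
      le_max_of_le_left hM, fun g h τ h1 h2 h3 h4 h5 j hj => ?_⟩
    have hb' := hb g h τ h1 h2 (fun j hj => h3 j (by omega)) (fun j hj => h4 j (by omega)) h5
    rcases Nat.lt_or_ge j (n + 1) with h6 | h6
    · exact (hb' j (by omega)).trans (le_max_left _ _)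
    · obtain rfl : j = n + 1 := by omega
      refine le_trans ?_ (le_max_right _ _)
      rw [le_div_iff₀ hc]
      have h7 := iteratedDeriv_mul (n := n + 1) (x := τ) (f := g) (g := h)
        ((h1 (n + 1)).contDiffAt) ((h2 (n + 1)).contDiffAt)
      rw [Finset.sum_range_succ] at h7
      simp only [Nat.choose_self, Nat.cast_one, one_mul, Nat.sub_self, iteratedDeriv_zero] at h7
      have h8 : iteratedDeriv (n + 1) g τ * h τ = iteratedDeriv (n + 1) (g * h) τ -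
          ∑ i ∈ Finset.range (n + 1), ((n + 1).choose i : ℝ) * iteratedDeriv i g τ *
            iteratedDeriv (n + 1 - i) h τ := by
        rw [h7]
        ring
      calc |iteratedDeriv (n + 1) g τ| * c0 ≤ |iteratedDeriv (n + 1) g τ| * |h τ| :=
            mul_le_mul_of_nonneg_left h5 (abs_nonneg _)
        _ = |iteratedDeriv (n + 1) g τ * h τ| := (abs_mul _ _).symm
        _ ≤ |iteratedDeriv (n + 1) (g * h) τ| +
            |∑ i ∈ Finset.range (n + 1), ((n + 1).choose i : ℝ) * iteratedDeriv i g τ *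
            iteratedDeriv (n + 1 - i) h τ| := by
          rw [h8]
          exact abs_sub _ _
        _ ≤ |C0| + ∑ i ∈ Finset.range (n + 1), ((n + 1).choose i : ℝ) * M * |C0| := by
          refine add_le_add ((h3 _ le_rfl).trans (le_abs_self _)) ?_
          refine (Finset.abs_sum_le_sum_abs _ _).trans (Finset.sum_le_sum fun i hi => ?_)
          have hi' : i ≤ n := by
            have := Finset.mem_range.1 hi
            omega
          rw [abs_mul, abs_mul, Nat.abs_cast]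
          refine mul_le_mul (mul_le_mul_of_nonneg_left (hb' i hi') (Nat.cast_nonneg _))
            ((h4 _ (by omega)).trans (le_abs_self _)) (abs_nonneg _) (by positivity)

theorem hns_hasDeriv_ex (f : ℝ → ℝ) (hf : ContDiff ℝ 1 f) (lam τ : ℝ) :
    HasDerivAt (fun s => ex (lam * f s))
      (ex (lam * f τ) * (((-(2 * π * (lam * deriv f τ)) : ℝ) : ℂ) * Complex.I)) τ := by
  have h1 : HasDerivAt f (deriv f τ) τ :=
    (hf.differentiable (by norm_num) τ).hasDerivAt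
  have h2 : HasDerivAt (fun s => -(2 * π * (lam * f s))) (-(2 * π * (lam * deriv f τ))) τ :=
    ((h1.const_mul lam).const_mul (2 * π)).neg
  have h3 := (h2.ofReal_comp).mul_const Complex.I
  exact h3.cexp

theorem hns_norm_ex (a : ℝ) : ‖ex a‖ = 1 := by
  unfold ex
  rw [Complex.norm_exp_ofReal_mul_I]

theorem hns_cont_ex (f : ℝ → ℝ) (hf : Continuous f) (lam : ℝ) :
    Continuous fun s => ex (lam * f s) := by
  unfold ex
  fun_prop

/-- The quotient of `b` by `f'` is smooth. -/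
theorem hns_smooth (b h : ℝ → ℝ) (hb : ∀ n : ℕ, ContDiff ℝ n b) (hh : ∀ n : ℕ, ContDiff ℝ n h)
    (α β : ℝ) (h0 : ∀ τ, τ ∉ Icc α β → b τ = 0) (h1 : ∀ τ ∈ Icc α β, h τ ≠ 0) (n : ℕ) :
    ContDiff ℝ n fun τ => b τ / h τ := by
  rw [contDiff_iff_contDiffAt]
  intro τ
  by_cases hτ : τ ∈ Icc α β
  · exact (hb n).contDiffAt.div (hh n).contDiffAt (h1 τ hτ)
  · have h2 : (fun τ => b τ / h τ) =ᶠ[nhds τ] fun _ => (0 : ℝ) := by
      filter_upwards [isClosed_Icc.isOpen_compl.mem_nhds hτ] with s hs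
      rw [h0 s hs, zero_div]
    exact contDiffAt_const.congr_of_eventuallyEq h2

theorem hns_zero (g : ℝ → ℝ) (α β : ℝ) (h0 : ∀ τ, τ ∉ Icc α β → g τ = 0) (j : ℕ) (τ : ℝ)
    (hτ : τ ∉ Icc α β) : iteratedDeriv j g τ = 0 := by
  have h2 : g =ᶠ[nhds τ] fun _ => (0 : ℝ) := by
    filter_upwards [isClosed_Icc.isOpen_compl.mem_nhds hτ] with s hs
    exact h0 s hs
  rw [(h2.iteratedDeriv j).eq_of_nhds]
  simp

theorem hns_int (b : ℝ → ℂ) (hb : Continuous b) (α β : ℝ) (h0 : ∀ τ, τ ∉ Icc α β → b τ = 0) :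
    Integrable b := by
  refine hb.integrable_of_hasCompactSupport ?_
  exact HasCompactSupport.intro isCompact_Icc h0

/-
ROW NS (2 h). Non-stationary phase of order J in one variable.
Induction on J, for all L C0 c0 at once. J = 0: ‖∫‖ ≤ ∫ |b| ≤ L C0 (b = 0 outside Icc α β, ‖ex‖ = 1).
Step J → J+1: f' ≠ 0 on Icc α β, hence on an open neighbourhood U of it (continuity, compactness). Let
b̃ := deriv (fun τ => b τ / f' τ) on U and 0 outside Icc α β. b and all its derivatives vanish outside the open interval and at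
α, β, so b/f' (set to 0 outside Icc α β; note b/f' already vanishes there because b does: b τ / f' τ = 0 when b τ = 0,
also when f' τ = 0 in Lean) is C^n for all n: near a point of Icc α β it is a quotient with f' ≠ 0, near a point outside it is 0.
Integration by parts on ℝ (compact support; integral_mul_deriv_eq_deriv_mul_of_integrable or on an interval):
∫ b ex(λ f) = ∫ (b/f') f' ex(λ f) = -(1/(-2π i λ)) ∫ (b/f')' ex(λ f), since d/dτ ex(λ f) = -2π i λ f' ex(λ f).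
So ‖∫ b ex(λf)‖ ≤ (1/(2π|λ|)) ‖∫ b̃ ex(λ f)‖ and the induction hypothesis (J, new constant C0') applies to b̃ = (b/f')'.
Bounds: |iteratedDeriv j b̃| = |iteratedDeriv (j+1) (b/f')| ≤ C(J, C0, c0) for j ≤ J on Icc α β, by the Leibniz rule and the bounds
for the derivatives of 1/f' (induction: (1/g)' = -g' (1/g)²), from |f^(i)| ≤ C0 for 1 ≤ i ≤ J+2, |f'| ≥ c0, |b^(i)| ≤ C0, i ≤ J+1.
(norm_iteratedFDeriv_mul_le, or iteratedDeriv versions; it may be convenient to prove a lemma: for smooth g with |g| ≥ c0 at τ and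
|iteratedDeriv i g τ| ≤ C0 for i ≤ J one has |iteratedDeriv i (1/g) τ| ≤ C(J,C0,c0).)
-/
theorem nonstat (J : ℕ) (L C0 c0 : ℝ) (hc : 0 < c0) : ∃ C : ℝ, 0 ≤ C ∧ ∀ (b f : ℝ → ℝ),
    (∀ n : ℕ, ContDiff ℝ n b) → (∀ n : ℕ, ContDiff ℝ n f) → ∀ α β : ℝ, α ≤ β → β - α ≤ L →
    (∀ τ, τ ∉ Icc α β → b τ = 0) → (∀ j ≤ J, ∀ τ, |iteratedDeriv j b τ| ≤ C0) →
    (∀ j, 1 ≤ j → j ≤ J + 1 → ∀ τ ∈ Icc α β, |iteratedDeriv j f τ| ≤ C0) →
    (∀ τ ∈ Icc α β, c0 ≤ |deriv f τ|) → ∀ lam : ℝ, lam ≠ 0 →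
    ‖∫ τ : ℝ, ((b τ : ℝ) : ℂ) * ex (lam * f τ)‖ ≤ C / |lam| ^ J := by
  induction J generalizing C0 with
  | zero =>
    refine ⟨|C0| * |L|, by positivity, fun b f hb hf α β hαβ hL h0 h1 _ _ lam _ => ?_⟩
    rw [pow_zero, div_one]
    have h2 : ∫ τ : ℝ, ((b τ : ℝ) : ℂ) * ex (lam * f τ) =
        ∫ τ in Icc α β, ((b τ : ℝ) : ℂ) * ex (lam * f τ) := by
      symm
      refine setIntegral_eq_integral_of_forall_compl_eq_zero fun τ hτ => ?_
      rw [h0 τ hτ]
      simp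
    rw [h2]
    have h3 : ∀ τ ∈ Icc α β, ‖((b τ : ℝ) : ℂ) * ex (lam * f τ)‖ ≤ |C0| := by
      intro τ _
      rw [norm_mul, hns_norm_ex, mul_one, Complex.norm_real, Real.norm_eq_abs]
      have := h1 0 le_rfl τ
      rw [iteratedDeriv_zero] at this
      exact this.trans (le_abs_self _)
    refine (norm_setIntegral_le_of_norm_le_const (by simp) h3).trans ?_
    refine mul_le_mul_of_nonneg_left ?_ (abs_nonneg _)
    rw [Measure.real, Real.volume_Icc, ENNReal.toReal_ofReal (by linarith)]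
    exact hL.trans (le_abs_self _)
  | succ J ih =>
    obtain ⟨M, hM, hq⟩ := hns_quot (J + 1) C0 c0 hc
    obtain ⟨C, hC, hI⟩ := ih (max C0 M)
    refine ⟨C, hC, fun b f hb hf α β hαβ hL h0 h1 h2 h3 lam hlam => ?_⟩
    have hf' : ∀ n : ℕ, ContDiff ℝ n (deriv f) := by
      intro n
      have h4 : ContDiff ℝ ((n : WithTop ℕ∞) + 1) f := by exact_mod_cast hf (n + 1)
      exact ((contDiff_succ_iff_deriv.1 h4).2.2)
    have hne : ∀ τ ∈ Icc α β, deriv f τ ≠ 0 := by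
      intro τ hτ h4
      have h5 := h3 τ hτ
      rw [h4, abs_zero] at h5
      linarith
    set g : ℝ → ℝ := fun τ => b τ / deriv f τ with hg
    have hgs : ∀ n : ℕ, ContDiff ℝ n g := hns_smooth b (deriv f) hb hf' α β h0 hne
    have hg' : ∀ n : ℕ, ContDiff ℝ n (deriv g) := by
      intro n
      have h4 : ContDiff ℝ ((n : WithTop ℕ∞) + 1) g := by exact_mod_cast hgs (n + 1)
      exact ((contDiff_succ_iff_deriv.1 h4).2.2)
    have hg0 : ∀ τ, τ ∉ Icc α β → g τ = 0 := by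
      intro τ hτ
      rw [hg]
      simp only
      rw [h0 τ hτ, zero_div]
    have hgh : g * deriv f = b := by
      funext τ
      rw [Pi.mul_apply]
      by_cases hτ : τ ∈ Icc α β
      · exact div_mul_cancel₀ _ (hne τ hτ)
      · rw [hg0 τ hτ, h0 τ hτ, zero_mul]
    have hgb : ∀ j ≤ J + 1, ∀ τ, |iteratedDeriv j g τ| ≤ M := by
      intro j hj τ
      by_cases hτ : τ ∈ Icc α β
      · refine hq g (deriv f) τ hgs hf' (fun i hi => ?_) (fun i hi => ?_) (h3 τ hτ) j hj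
        · rw [hgh]
          exact h1 i hi τ
        · rw [← iteratedDeriv_succ']
          exact h2 (i + 1) (by omega) (by omega) τ hτ
      · rw [hns_zero g α β hg0 j τ hτ, abs_zero]
        exact hM
    have h5 := hI (deriv g) f hg' hf α β hαβ hL (fun τ hτ => by
      have := hns_zero g α β hg0 1 τ hτ
      rwa [iteratedDeriv_one] at this) (fun j hj τ => by
      rw [← iteratedDeriv_succ']
      exact (hgb (j + 1) (by omega) τ).trans (le_max_right _ _)) (fun j hj1 hj τ hτ =>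
      (h2 j hj1 (by omega) τ hτ).trans (le_max_left _ _)) h3 lam hlam
    -- integration by parts
    have hd : ∀ τ, HasDerivAt (fun s => ((g s : ℝ) : ℂ) * ex (lam * f s))
        (((deriv g τ : ℝ) : ℂ) * ex (lam * f τ) -
          (2 * π * lam * Complex.I) * (((b τ : ℝ) : ℂ) * ex (lam * f τ))) τ := by
      intro τ
      have h6 : HasDerivAt g (deriv g τ) τ :=
        ((hgs 1).differentiable (by norm_num) τ).hasDerivAt
      have h7 := (h6.ofReal_comp).mul (hns_hasDeriv_ex f (hf 1) lam τ)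
      refine HasDerivAt.congr_deriv h7 ?_
      have h8 : ((b τ : ℝ) : ℂ) = ((g τ : ℝ) : ℂ) * ((deriv f τ : ℝ) : ℂ) := by
        rw [← hgh, Pi.mul_apply]
        push_cast
        ring
      rw [h8]
      push_cast
      ring
    have hcf : Continuous f := (hf 0).continuous
    have hi1 : Integrable (fun s => ((g s : ℝ) : ℂ) * ex (lam * f s)) :=
      hns_int _ ((Complex.continuous_ofReal.comp (hgs 0).continuous).mul
        (hns_cont_ex f hcf lam)) α β (fun τ hτ => by rw [hg0 τ hτ]; simp)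
    have hi2 : Integrable (fun s => ((deriv g s : ℝ) : ℂ) * ex (lam * f s)) :=
      hns_int _ ((Complex.continuous_ofReal.comp (hg' 0).continuous).mul
        (hns_cont_ex f hcf lam)) α β (fun τ hτ => by
          have := hns_zero g α β hg0 1 τ hτ
          rw [iteratedDeriv_one] at this
          rw [this]
          simp)
    have hi3 : Integrable (fun s => ((b s : ℝ) : ℂ) * ex (lam * f s)) :=
      hns_int _ ((Complex.continuous_ofReal.comp (hb 0).continuous).mul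
        (hns_cont_ex f hcf lam)) α β (fun τ hτ => by rw [h0 τ hτ]; simp)
    have h6 := integral_eq_zero_of_hasDerivAt_of_integrable hd
      (hi2.sub (hi3.const_mul _)) hi1
    rw [integral_sub hi2 (hi3.const_mul _), integral_const_mul, sub_eq_zero] at h6
    have h7 : ‖∫ τ : ℝ, ((deriv g τ : ℝ) : ℂ) * ex (lam * f τ)‖ =
        2 * π * |lam| * ‖∫ τ : ℝ, ((b τ : ℝ) : ℂ) * ex (lam * f τ)‖ := by
      rw [h6, norm_mul]
      congr 1
      simp [abs_of_pos Real.pi_pos]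
    rw [h7] at h5
    have hl : 0 < |lam| := abs_pos.2 hlam
    have h8 : (1 : ℝ) ≤ 2 * π := by
      have := Real.pi_gt_three
      linarith
    rw [le_div_iff₀ (by positivity)] at h5 ⊢
    calc ‖∫ τ : ℝ, ((b τ : ℝ) : ℂ) * ex (lam * f τ)‖ * |lam| ^ (J + 1)
        = 1 * (|lam| * ‖∫ τ : ℝ, ((b τ : ℝ) : ℂ) * ex (lam * f τ)‖ * |lam| ^ J) := by ring
      _ ≤ (2 * π) * (|lam| * ‖∫ τ : ℝ, ((b τ : ℝ) : ℂ) * ex (lam * f τ)‖ * |lam| ^ J) :=
          mul_le_mul_of_nonneg_right h8 (by positivity)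
      _ = 2 * π * |lam| * ‖∫ τ : ℝ, ((b τ : ℝ) : ℂ) * ex (lam * f τ)‖ * |lam| ^ J := by ring
      _ ≤ C := h5

end Pool.Agent.SDT.MST

end -- MST.NS

section -- N1.Defs

/-!
Definitions for the restriction theorem for product densities `G₁(x₁) G₂(x₂)`.
-/

namespace Pool.Agent.SDT.N1

open MeasureTheory Set Pool.Agent.SDT.MP_6cbfb8_an Pool.Agent.SDT.MST
open scoped ENNReal Real ContDiff

/-- Triples of real numbers. -/
abbrev V : Type := ℝ × ℝ × ℝ

/-- A globally smooth function, equal to `√v` for `v ≥ c ^ 2 / 8`. -/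
noncomputable def Sq (c v : ℝ) : ℝ := √v * Real.smoothTransition ((16 * v - c ^ 2) / c ^ 2)

/-- The height of the point of the sphere over `(a, b)`. -/
noncomputable def qf (c a b : ℝ) : ℝ := Sq c (1 - a ^ 2 - b ^ 2)

/-- Smooth cut-off function: `0` below `c / 2`, `1` above `c` (this is `MST.hft_b`). -/
noncomputable def smb (c x : ℝ) : ℝ := Real.smoothTransition ((2 * x - c) / c)

/-- The amplitude belonging to `smb` (this is `MST.hft_a`). -/
noncomputable def sma (c v : ℝ) : ℝ := smb c √v / √v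

/-- The amplitude. -/
noncomputable def wf (c a b : ℝ) : ℝ := sma c (1 - a ^ 2 - b ^ 2)

/-- The phase of a rectangle; `u = (y₁, a, z₁)`, `v = (y₂, b, z₂)`. -/
noncomputable def Fr (c : ℝ) (u v : V) : ℝ :=
  qf c u.2.1 v.2.1 - qf c (u.2.1 - u.1) (v.2.1 - v.1) - qf c (u.2.1 - u.2.2) (v.2.1 - v.2.2) +
    qf c (u.2.1 - u.1 - u.2.2) (v.2.1 - v.1 - v.2.2)

/-- The amplitude of a rectangle. -/
noncomputable def Wr (c : ℝ) (u v : V) : ℝ :=
  wf c u.2.1 v.2.1 * wf c (u.2.1 - u.1) (v.2.1 - v.1) * wf c (u.2.1 - u.2.2) (v.2.1 - v.2.2) *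
    wf c (u.2.1 - u.1 - u.2.2) (v.2.1 - v.1 - v.2.2)

/-- A smooth weight, `1` on `[1, 2]`, supported in `[1 / 2, 3]`. -/
noncomputable def chi (s : ℝ) : ℝ :=
  Real.smoothTransition (2 * s - 1) * Real.smoothTransition (3 - s)

/-- The kernel in the time variable. -/
noncomputable def Kt (T x : ℝ) : ℂ := ∫ t : ℝ, ((chi (t / T) : ℝ) : ℂ) * ex (t * x)

/-- The four-linear form with a general density `M` on the space of rectangles. -/
noncomputable def FF (c T : ℝ) (M : V × V → ℂ) : ℂ :=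
  ∫ q : V × V, M q * ((Wr c q.1 q.2 : ℝ) : ℂ) * Kt T (Fr c q.1 q.2)

/-- The tensor product of two functions. -/
noncomputable def tp (A B : V → ℂ) (q : V × V) : ℂ := A q.1 * B q.2

/-- Interchange of the two sides of the rectangle. -/
def swp (q : V × V) : V × V := ((q.1.2.2, q.1.2.1, q.1.1), (q.2.2.2, q.2.2.1, q.2.1))

/-- The inner integral of a positive form; `y = (y₁, y₂)`, `x = (a, b)`. -/
noncomputable def Hy (c : ℝ) (M : (ℝ × ℝ) × (ℝ × ℝ) → ℂ) (y : ℝ × ℝ) (t : ℝ) : ℂ :=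
  ∫ x : ℝ × ℝ, M (y, x) * ((wf c x.1 x.2 * wf c (x.1 - y.1) (x.2 - y.2) : ℝ) : ℂ) *
    ex (t * (qf c x.1 x.2 - qf c (x.1 - y.1) (x.2 - y.2)))

/-- The positive form. -/
noncomputable def Th (c T : ℝ) (M : (ℝ × ℝ) × (ℝ × ℝ) → ℂ) : ℝ≥0∞ :=
  ∫⁻ y : ℝ × ℝ, ∫⁻ t : ℝ, ENNReal.ofReal (chi (t / T)) * ‖Hy c M y t‖ₑ ^ 2

/-- The density on the space of rectangles belonging to a positive form. -/
noncomputable def sqM (M : (ℝ × ℝ) × (ℝ × ℝ) → ℂ) (q : V × V) : ℂ :=
  M ((q.1.1, q.2.1), (q.1.2.1, q.2.2.1)) *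
    (starRingEnd ℂ) (M ((q.1.1, q.2.1), (q.1.2.1 - q.1.2.2, q.2.2.1 - q.2.2.2)))

/-- Product densities `α (y₁, a) β (y₂, b)` for positive forms. -/
noncomputable def pd (α β : ℝ × ℝ → ℂ) (p : (ℝ × ℝ) × (ℝ × ℝ)) : ℂ :=
  α (p.1.1, p.2.1) * β (p.1.2, p.2.2)

/-- The extension operator for product densities in the chart. -/
noncomputable def Eo (c : ℝ) (G₁ G₂ : ℝ → ℂ) (t : ℝ) (ξ : ℝ × ℝ) : ℂ :=
  ∫ x : ℝ × ℝ, G₁ x.1 * G₂ x.2 * ((wf c x.1 x.2 : ℝ) : ℂ) * ex (t * qf c x.1 x.2) *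
    ex (x.1 * ξ.1 + x.2 * ξ.2)

/-- The compact part of the disc on which everything takes place. -/
def Kc (c : ℝ) : Set (ℝ × ℝ) := {x | c ≤ x.1 ∧ c ≤ x.2 ∧ x.1 ^ 2 + x.2 ^ 2 ≤ 1 - c ^ 2 / 4}

/-- First separated function. -/
noncomputable def om (ρ y a : ℝ) : ℝ := y * (2 * a - ρ * y) / (a - ρ * y) ^ 2

/-- Second separated function. -/
noncomputable def sg (ρ y b : ℝ) : ℝ := -(y * (2 * b - ρ * y) / (1 - (b - ρ * y) ^ 2))

/-- The first derivative of the phase vanishes when this function does. -/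
noncomputable def Nf (ρ : ℝ) (y x : ℝ × ℝ) : ℝ := om ρ y.1 x.1 - sg ρ y.2 x.2

end Pool.Agent.SDT.N1

end -- N1.Defs

section -- N1.AN0

/-!
# Block AN: internal definitions
-/

namespace Pool.Agent.SDT.N1

open MeasureTheory Set Metric Pool.Agent.SDT.MST
open scoped ContDiff

/-- the oscillatory kernel -/
noncomputable def kk (lam : ℝ) (c : ℝ → V → V → ℝ) (F : V → V → ℝ) (a b : V) : ℂ :=
  ∫ s : ℝ, ((c s a b : ℝ) : ℂ) * ex (lam * (s * F a b))

/-- The dichotomy for the phase `F`, with the size function `D`, for `a, a'` in the cell `SA` and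
`b` in `closedBall b₀ (3 ρ)`. -/
structure Dich (F : V → V → ℝ) (D : V → V → ℝ) (SA : Set V) (b₀ : V)
    (ρ c₀ C₀ s₀ s₁ : ℝ) : Prop where
  smooth : ContDiff ℝ ∞ (fun x : V × V => F x.1 x.2)
  cont : Continuous (fun x : V × V => D x.1 x.2)
  nonneg : ∀ a a', 0 ≤ D a a'
  es : ∃ e : V, ‖e‖ ≤ 1 ∧ ∀ a ∈ SA, ∀ b ∈ closedBall b₀ (3 * ρ),
    c₀ ≤ |deriv (fun t : ℝ => F a (b + t • e)) 0|
  di : ∀ a ∈ SA, ∀ a' ∈ SA,
    (∀ b ∈ closedBall b₀ (3 * ρ), c₀ * D a a' ≤ |F a b - F a' b|) ∨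
    (∀ s s' : ℝ, s₀ ≤ |s| → |s| ≤ s₁ → s₀ ≤ |s'| → |s'| ≤ s₁ → ∃ e : V, ‖e‖ ≤ 1 ∧
      ∀ b ∈ closedBall b₀ (3 * ρ), c₀ * (|s - s'| + D a a')
        ≤ |deriv (fun t : ℝ => s * F a (b + t • e) - s' * F a' (b + t • e)) 0|)
  up : ∀ a ∈ SA, ∀ a' ∈ SA, ∀ s s' : ℝ, |s| ≤ s₁ → |s'| ≤ s₁ → ∀ e : V, ‖e‖ ≤ 1 →
    ∀ b ∈ closedBall b₀ (3 * ρ), ∀ j : ℕ, 1 ≤ j → j ≤ 9 →
      |iteratedDeriv j (fun t : ℝ => s * F a (b + t • e) - s' * F a' (b + t • e)) 0|
        ≤ C₀ * (|s - s'| + D a a')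

/-- The hypotheses on the amplitude `c` and the cutoff `φ`. -/
structure Ampl (c : ℝ → V → V → ℝ) (φ : V → ℝ) (SA : Set V) (b₀ : V)
    (ρ C₀ s₀ s₁ : ℝ) : Prop where
  smooth : ContDiff ℝ ∞ (fun x : ℝ × V × V => c x.1 x.2.1 x.2.2)
  smoothφ : ContDiff ℝ ∞ φ
  supp : ∀ s a b, c s a b ≠ 0 → s₀ ≤ |s| ∧ |s| ≤ s₁
  suppφ : ∀ b, b ∉ ball b₀ ρ → φ b = 0
  oneφ : ∀ b ∈ ball b₀ (ρ / 2), φ b = 1
  nonneg : ∀ b, 0 ≤ φ b
  le : ∀ b, φ b ≤ 1
  ds : ∀ a ∈ SA, ∀ b ∈ closedBall b₀ (3 * ρ), ∀ s : ℝ, ∀ j ≤ 8,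
    |iteratedDeriv j (fun s => c s a b) s| ≤ C₀
  db : ∀ a ∈ SA, ∀ a' ∈ SA, ∀ s s' : ℝ, ∀ e : V, ‖e‖ ≤ 1 → ∀ b : V, ∀ t : ℝ, ∀ j ≤ 8,
    |iteratedDeriv j (fun t : ℝ => c s a (b + t • e) * c s' a' (b + t • e) * φ (b + t • e)) t|
      ≤ C₀

end Pool.Agent.SDT.N1

end -- N1.AN0

section -- N1E.Defs

/-!
MP_6cbfb8_an, N1 (product densities), block E: absolute estimates.  Definitions.
-/

set_option autoImplicit false

namespace Pool.Agent.SDT.N1E

open MeasureTheory Set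
open scoped ENNReal

/-- the height function -/
noncomputable def qf (a b : ℝ) : ℝ := √(1 - a ^ 2 - b ^ 2)

/-- minus the derivative of `qf` in `a` -/
noncomputable def sf (a b : ℝ) : ℝ := a / qf a b

/-- minus the derivative of `qf` in `b` -/
noncomputable def rf (a b : ℝ) : ℝ := b / qf a b

/-- the difference with the outer increment `(y1, y2)` -/
noncomputable def ph (y1 y2 a b : ℝ) : ℝ := qf a b - qf (a - y1) (b - y2)

/-- the points of the four-linear form: `((y1, a, z1), (y2, b, z2))` -/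
abbrev P6 : Type := (ℝ × ℝ × ℝ) × (ℝ × ℝ × ℝ)

/-- the four term difference -/
noncomputable def F6 (w : P6) : ℝ :=
  ph w.1.1 w.2.1 w.1.2.1 w.2.2.1 - ph w.1.1 w.2.1 (w.1.2.1 - w.1.2.2) (w.2.2.1 - w.2.2.2)

/-- the separated function whose zeros are the zeros of `∂_a ph` -/
noncomputable def om (y1 a : ℝ) : ℝ := (a / (a - y1)) ^ 2

/-- see `om` -/
noncomputable def sg (y2 b : ℝ) : ℝ := (1 - b ^ 2) / (1 - (b - y2) ^ 2)

/-- see `om` -/
noncomputable def NN (y1 y2 a b : ℝ) : ℝ := om y1 a - sg y2 b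

/-- the part of the disc on which everything takes place -/
def Dom (c a b : ℝ) : Prop := c / 2 ≤ a ∧ c / 2 ≤ b ∧ a ^ 2 + b ^ 2 ≤ 1 - c ^ 2 / 8

/-- all four points of the rectangle -/
structure In4 (c : ℝ) (w : P6) : Prop where
  p1 : Dom c w.1.2.1 w.2.2.1
  p2 : Dom c (w.1.2.1 - w.1.1) (w.2.2.1 - w.2.1)
  p3 : Dom c (w.1.2.1 - w.1.2.2) (w.2.2.1 - w.2.2.2)
  p4 : Dom c (w.1.2.1 - w.1.2.2 - w.1.1) (w.2.2.1 - w.2.2.2 - w.2.1)

/-- the value of `NN` at the point `x - u z` of the segment -/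
noncomputable def NNu (w : P6) (u : ℝ) : ℝ :=
  NN w.1.1 w.2.1 (w.1.2.1 - u * w.1.2.2) (w.2.2.1 - u * w.2.2.2)

/-- `-∂_a ph` at the point `x - u z` of the segment -/
noncomputable def dS (w : P6) (u : ℝ) : ℝ :=
  sf (w.1.2.1 - u * w.1.2.2) (w.2.2.1 - u * w.2.2.2) -
    sf (w.1.2.1 - u * w.1.2.2 - w.1.1) (w.2.2.1 - u * w.2.2.2 - w.2.1)

/-- `-∂_b ph` at the point `x - u z` of the segment -/
noncomputable def dR (w : P6) (u : ℝ) : ℝ :=
  rf (w.1.2.1 - u * w.1.2.2) (w.2.2.1 - u * w.2.2.2) -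
    rf (w.1.2.1 - u * w.1.2.2 - w.1.1) (w.2.2.1 - u * w.2.2.2 - w.2.1)

end Pool.Agent.SDT.N1E

end -- N1E.Defs

section -- N1.Y0

/-!
Definitions for the restriction theorem for near Schur multipliers.
-/

namespace Pool.Agent.SDT.N1

open MeasureTheory Set Pool.Agent.SDT.MP_6cbfb8_an
open scoped ENNReal Real




/-- The function `G(x₀, x₁)` on the part `|x₀| > b, |x₁| > b, x₀² + x₁² < 1 - c²` of the plane,
and `0` elsewhere. -/
noncomputable def cdn (b c : ℝ) (G : ℝ × ℝ → ℂ) (x : E 2) : ℂ :=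
  if b < |x 0| ∧ b < |x 1| ∧ x 0 ^ 2 + x 1 ^ 2 < 1 - c ^ 2 then G (x 0, x 1) else 0

end Pool.Agent.SDT.N1

end -- N1.Y0

section -- N1G.Cn1

/-!
N1G, case (N): a factor different from zero may be dropped.
-/

namespace Pool.Agent.SDT.N1G

open Set Metric Filter Topology
open scoped ContDiff

section
variable {E G : Type*} [NormedAddCommGroup E] [NormedSpace ℝ E] [NormedAddCommGroup G]
  [NormedSpace ℝ G]

theorem cn_part1 {J : E → G → ℝ} {a : E} {b : G}
    (hJ : DifferentiableAt ℝ (fun z : E × G => J z.1 z.2) (a, b)) (u : E) :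
    DifferentiableAt ℝ (fun a' => J a' b) a ∧
    fderiv ℝ (fun a' => J a' b) a u = fderiv ℝ (fun z : E × G => J z.1 z.2) (a, b) (u, 0) := by
  have h1 : HasFDerivAt (fun a' : E => ((a', b) : E × G)) (ContinuousLinearMap.inl ℝ E G) a := by
    exact (hasFDerivAt_id (𝕜 := ℝ) a).prodMk (hasFDerivAt_const (𝕜 := ℝ) b a)
  have h2 := HasFDerivAt.comp (f := fun a' : E => ((a', b) : E × G)) a hJ.hasFDerivAt h1
  refine ⟨h2.differentiableAt, ?_⟩
  have h3 : fderiv ℝ (fun a' => J a' b) a =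
      (fderiv ℝ (fun z : E × G => J z.1 z.2) (a, b)).comp (ContinuousLinearMap.inl ℝ E G) :=
    h2.fderiv
  rw [h3]
  simp

theorem cn_part2 {J : E → G → ℝ} {a : E} {b : G}
    (hJ : DifferentiableAt ℝ (fun z : E × G => J z.1 z.2) (a, b)) :
    DifferentiableAt ℝ (fun b' => J a b') b := by
  have h1 : DifferentiableAt ℝ (fun b' : G => ((a, b') : E × G)) b := by fun_prop
  exact DifferentiableAt.comp (g := fun z : E × G => J z.1 z.2)
    (f := fun b' : G => ((a, b') : E × G)) b hJ h1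

omit [NormedSpace ℝ E] [NormedSpace ℝ G] in
/-- continuity of `b ↦ (a, b)` in terms of eventually -/
theorem cn_ev {p : E × G → Prop} {a : E} {b : G} (h : ∀ᶠ z in 𝓝 (a, b), p z) :
    ∀ᶠ b' in 𝓝 b, p (a, b') := by
  have h1 : Tendsto (fun b' : G => ((a, b') : E × G)) (𝓝 b) (𝓝 (a, b)) :=
    (Continuous.tendsto (by fun_prop) b)
  exact h1.eventually h

omit [NormedSpace ℝ E] [NormedSpace ℝ G] in
theorem cn_ev1 {p : E × G → Prop} {a : E} {b : G} (h : ∀ᶠ z in 𝓝 (a, b), p z) :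
    ∀ᶠ a' in 𝓝 a, p (a', b) := by
  have h1 : Tendsto (fun a' : E => ((a', b) : E × G)) (𝓝 a) (𝓝 (a, b)) :=
    (Continuous.tendsto (by fun_prop) a)
  exact h1.eventually h

theorem cn_part3 {J : E → G → ℝ} {a : E} {b : G}
    (hJ : ContDiffAt ℝ 2 (fun z : E × G => J z.1 z.2) (a, b)) (u : E) :
    DifferentiableAt ℝ (fun b' => fderiv ℝ (fun a' => J a' b') a u) b := by
  have h1 : ∀ᶠ z in 𝓝 (a, b), ContDiffAt ℝ 2 (fun z : E × G => J z.1 z.2) z :=
    hJ.eventually (by simp)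
  have h2 : (fun b' => fderiv ℝ (fun a' => J a' b') a u) =ᶠ[𝓝 b]
      fun b' => fderiv ℝ (fun z : E × G => J z.1 z.2) (a, b') (u, 0) := by
    filter_upwards [cn_ev h1] with b' hb'
    exact (cn_part1 (hb'.differentiableAt (by simp)) u).2
  have h3 : ContDiffAt ℝ 1 (fderiv ℝ (fun z : E × G => J z.1 z.2)) (a, b) :=
    hJ.fderiv_right (by norm_num)
  have h4 : DifferentiableAt ℝ (fderiv ℝ (fun z : E × G => J z.1 z.2)) (a, b) :=
    h3.differentiableAt (by simp)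
  have h5 : DifferentiableAt ℝ (fun b' : G => fderiv ℝ (fun z : E × G => J z.1 z.2) (a, b')) b := by
    have h6 : DifferentiableAt ℝ (fun b' : G => ((a, b') : E × G)) b := by fun_prop
    exact DifferentiableAt.comp (g := fderiv ℝ (fun z : E × G => J z.1 z.2))
      (f := fun b' : G => ((a, b') : E × G)) b h4 h6
  refine DifferentiableAt.congr_of_eventuallyEq ?_ h2
  exact h5.clm_apply (differentiableAt_const _)

/-- A factor different from zero may be dropped. -/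
theorem cn_mul {H K J : E → G → ℝ} {a0 : E} {b0 : G}
    (hK : ContDiffAt ℝ 2 (fun z : E × G => K z.1 z.2) (a0, b0))
    (hJ : ContDiffAt ℝ 2 (fun z : E × G => J z.1 z.2) (a0, b0))
    (hH : ∀ᶠ z in 𝓝 (a0, b0), H z.1 z.2 = K z.1 z.2 * J z.1 z.2)
    (hK0 : K a0 b0 ≠ 0) (hJ0 : J a0 b0 = 0) (u : E) (d : ℝ)
    (h1 : fderiv ℝ (fun a => H a b0) a0 u = 0)
    (h2 : ∀ e : G, fderiv ℝ (fun b => fderiv ℝ (fun a => H a b) a0 u) b0 e +
      d * fderiv ℝ (fun b => H a0 b) b0 e = 0) :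
    fderiv ℝ (fun a => J a b0) a0 u = 0 ∧
    ∀ e : G, fderiv ℝ (fun b => fderiv ℝ (fun a => J a b) a0 u) b0 e +
      (d + fderiv ℝ (fun a => K a b0) a0 u / K a0 b0) * fderiv ℝ (fun b => J a0 b) b0 e = 0 := by
  have eK := hK.eventually (by simp)
  have eJ := hJ.eventually (by simp)
  have eH : ∀ᶠ z in 𝓝 (a0, b0), ∀ᶠ z' in 𝓝 z, H z'.1 z'.2 = K z'.1 z'.2 * J z'.1 z'.2 :=
    eventually_eventually_nhds.2 hH
  -- first derivative
  have key : ∀ b : G, ContDiffAt ℝ 2 (fun z : E × G => K z.1 z.2) (a0, b) →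
      ContDiffAt ℝ 2 (fun z : E × G => J z.1 z.2) (a0, b) →
      (∀ᶠ z' in 𝓝 ((a0, b) : E × G), H z'.1 z'.2 = K z'.1 z'.2 * J z'.1 z'.2) →
      fderiv ℝ (fun a => H a b) a0 u = K a0 b * fderiv ℝ (fun a => J a b) a0 u +
        J a0 b * fderiv ℝ (fun a => K a b) a0 u := by
    intro b k1 k2 k3
    have k4 : (fun a => H a b) =ᶠ[𝓝 a0] fun a => K a b * J a b := cn_ev1 k3
    rw [k4.fderiv_eq, fderiv_fun_mul (cn_part1 (k1.differentiableAt (by simp)) u).1
      (cn_part1 (k2.differentiableAt (by simp)) u).1]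
    simp
  have kb := key b0 hK hJ hH
  rw [hJ0, zero_mul, add_zero] at kb
  rw [kb] at h1
  have r1 : fderiv ℝ (fun a => J a b0) a0 u = 0 := by
    rcases mul_eq_zero.1 h1 with h | h
    · exact absurd h hK0
    · exact h
  refine ⟨r1, fun e => ?_⟩
  have k5 : (fun b => fderiv ℝ (fun a => H a b) a0 u) =ᶠ[𝓝 b0] fun b =>
      K a0 b * fderiv ℝ (fun a => J a b) a0 u + J a0 b * fderiv ℝ (fun a => K a b) a0 u := by
    filter_upwards [cn_ev eK, cn_ev eJ, cn_ev eH] with b q1 q2 q3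
    exact key b q1 q2 q3
  have dK := cn_part2 (hK.differentiableAt (by simp))
  have dJ := cn_part2 (hJ.differentiableAt (by simp))
  have dKA := cn_part3 hK u
  have dJA := cn_part3 hJ u
  have k6 := h2 e
  rw [k5.fderiv_eq, fderiv_fun_add (dK.fun_mul dJA) (dJ.fun_mul dKA), fderiv_fun_mul dK dJA,
    fderiv_fun_mul dJ dKA] at k6
  have k7 : (fun b => H a0 b) =ᶠ[𝓝 b0] fun b => K a0 b * J a0 b := cn_ev hH
  rw [k7.fderiv_eq, fderiv_fun_mul dK dJ] at k6
  simp only [add_apply, smul_apply, smul_eq_mul, r1,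
    hJ0, zero_mul, add_zero] at k6
  have k8 : K a0 b0 * (fderiv ℝ (fun b => fderiv ℝ (fun a => J a b) a0 u) b0 e +
      (d + fderiv ℝ (fun a => K a b0) a0 u / K a0 b0) * fderiv ℝ (fun b => J a0 b) b0 e) = 0 := by
    have k9 : K a0 b0 * (fderiv ℝ (fun b => fderiv ℝ (fun a => J a b) a0 u) b0 e +
      (d + fderiv ℝ (fun a => K a b0) a0 u / K a0 b0) * fderiv ℝ (fun b => J a0 b) b0 e) =
      K a0 b0 * fderiv ℝ (fun b => fderiv ℝ (fun a => J a b) a0 u) b0 e +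
      (K a0 b0 * d + fderiv ℝ (fun a => K a b0) a0 u) * fderiv ℝ (fun b => J a0 b) b0 e := by
      field_simp
    rw [k9]
    linear_combination k6
  rcases mul_eq_zero.1 k8 with h | h
  · exact absurd h hK0
  · exact h

end

end Pool.Agent.SDT.N1G

end -- N1G.Cn1

section -- N1G.Cn2

/-!
N1G, case (N): the algebra of the bordered matrix of the family.
-/

namespace Pool.Agent.SDT.N1G

/-- The bordered matrix is nonsingular. -/
theorem cn_alg {B1 B2 τ P g1 g2 η1 η2 U ζ1 ζ2 u1 u2 u3 d : ℝ}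
    (hU : τ * U = g1 * η1 + g2 * η2)
    (hJ : (B1 * η1 * P + g1 * U) * ζ1 + (B2 * η2 * P + g2 * U) * ζ2 = 0)
    (hg1 : g1 ≠ 0) (hg2 : g2 ≠ 0) (hζ1 : ζ1 ≠ 0) (hζ2 : ζ2 ≠ 0) (hη1 : η1 ≠ 0) (hη2 : η2 ≠ 0)
    (hΔ : B2 * g1 ^ 2 + B1 * g2 ^ 2 + τ * B1 * B2 * P ≠ 0)
    (E1 : g1 * g2 * u3 + τ * (2 * ζ2 * B2 * g1 - ζ1 * B1 * g2) * u2 +
      d * (ζ2 * (g2 ^ 2 + τ * B2 * P) + ζ1 * g1 * g2) = 0)
    (E3 : g1 * g2 * u1 + (2 * B2 * η2 * g1 - g2 * B1 * η1) * u2 +
      d * (B2 * η2 * P + g2 * U) = 0)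
    (E2 : u3 * (2 * B1 * η1 * g2 - g1 * B2 * η2) + τ * u1 * (2 * ζ1 * B1 * g2 - ζ2 * B2 * g1) +
      τ * B1 * B2 * (ζ1 * η2 + ζ2 * η1) * u2 +
      d * (-(ζ2 * B2 * g1 * η1) + ζ1 * (2 * B1 * η1 * g2 - g1 * B2 * η2)) = 0)
    (A : u1 * (ζ1 * (g1 ^ 2 + τ * B1 * P) + ζ2 * g1 * g2) +
      u2 * (-(ζ1 * B1 * g2 * η2) + ζ2 * (2 * B2 * η2 * g1 - g2 * B1 * η1)) +
      u3 * (B1 * η1 * P + g1 * U) = 0) :
    u1 = 0 ∧ u2 = 0 ∧ u3 = 0 ∧ d = 0 := by
  obtain ⟨D1, hD1⟩ : ∃ D1, D1 = g1 ^ 2 + τ * B1 * P := ⟨_, rfl⟩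
  obtain ⟨D2, hD2⟩ : ∃ D2, D2 = g2 ^ 2 + τ * B2 * P := ⟨_, rfl⟩
  obtain ⟨m1, hm1⟩ : ∃ m1, m1 = B1 * η1 * P + g1 * U := ⟨_, rfl⟩
  obtain ⟨m2, hm2⟩ : ∃ m2, m2 = B2 * η2 * P + g2 * U := ⟨_, rfl⟩
  obtain ⟨Δ, hΔd⟩ : ∃ Δ, Δ = B2 * g1 ^ 2 + B1 * g2 ^ 2 + τ * B1 * B2 * P := ⟨_, rfl⟩
  rw [← hΔd] at hΔ
  rw [← hD2] at E1
  rw [← hm2] at E3
  rw [← hD1, ← hm1] at A
  rw [← hm1, ← hm2] at hJ
  have hT1 : τ * m1 = η1 * D1 + g1 * g2 * η2 := by
    rw [hm1, hD1]
    linear_combination g1 * hU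
  have hT2 : τ * m2 = η2 * D2 + g1 * g2 * η1 := by
    rw [hm2, hD2]
    linear_combination g2 * hU
  have hX : g1 * g2 * (ζ1 * η2 + ζ2 * η1) = -(ζ1 * η1 * D1 + ζ2 * η2 * D2) := by
    linear_combination τ * hJ - ζ1 * hT1 - ζ2 * hT2
  have hDD : D1 * D2 - g1 ^ 2 * g2 ^ 2 = τ * P * Δ := by
    rw [hD1, hD2, hΔd]
    ring
  have hΔ1 : Δ = B2 * g1 ^ 2 + B1 * D2 := by
    rw [hΔd, hD2]
    ring
  have hΔ2 : Δ = B1 * g2 ^ 2 + B2 * D1 := by
    rw [hΔd, hD1]
    ring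
  -- first reduced equation
  have a11 : 4 * (B2 ^ 2 * g1 ^ 2 * (ζ2 * η2) + B1 ^ 2 * g2 ^ 2 * (ζ1 * η1) -
      B1 * B2 * (g1 * g2 * (ζ1 * η2 + ζ2 * η1))) = 4 * Δ * (B1 * ζ1 * η1 + B2 * ζ2 * η2) := by
    rw [hX]
    linear_combination (-4) * (B2 * ζ2 * η2) * hΔ1 + (-4) * (B1 * ζ1 * η1) * hΔ2
  have row1 : τ * (4 * (B2 ^ 2 * g1 ^ 2 * (ζ2 * η2) + B1 ^ 2 * g2 ^ 2 * (ζ1 * η1) -
      B1 * B2 * (g1 * g2 * (ζ1 * η2 + ζ2 * η1)))) * u2 +
      (-(g1 * g2 * ζ2 * B2 * g1 * η1) - ζ2 * D2 * (2 * B1 * η1 * g2 - g1 * B2 * η2) -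
        τ * m2 * (2 * ζ1 * B1 * g2 - ζ2 * B2 * g1)) * d = 0 := by
    linear_combination g1 * g2 * E2 - (2 * B1 * η1 * g2 - g1 * B2 * η2) * E1 -
      τ * (2 * ζ1 * B1 * g2 - ζ2 * B2 * g1) * E3
  have a12 : g1 * (-(g1 * g2 * ζ2 * B2 * g1 * η1) - ζ2 * D2 * (2 * B1 * η1 * g2 - g1 * B2 * η2) -
        τ * m2 * (2 * ζ1 * B1 * g2 - ζ2 * B2 * g1)) =
      2 * Δ * (ζ2 * η2 * D2 + τ * P * B1 * (ζ1 * η1)) := by
    rw [hT2]
    linear_combination (-2 * B1 * D2) * hX + (2 * B1 * ζ1 * η1) * hDD -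
      (2 * ζ2 * η2 * D2) * hΔ1
  have r1 : 2 * Δ * (2 * g1 * τ * (B1 * ζ1 * η1 + B2 * ζ2 * η2) * u2 +
      (ζ2 * η2 * D2 + τ * P * B1 * (ζ1 * η1)) * d) = 0 := by
    linear_combination g1 * row1 - g1 * τ * u2 * a11 - d * a12
  have r1' : 2 * g1 * τ * (B1 * ζ1 * η1 + B2 * ζ2 * η2) * u2 +
      (ζ2 * η2 * D2 + τ * P * B1 * (ζ1 * η1)) * d = 0 := by
    rcases mul_eq_zero.1 r1 with h | h
    · exact absurd h (mul_ne_zero two_ne_zero hΔ)
    · exact h
  -- second reduced equation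
  have row2 : (-(g1 * g2 * ζ1 * B1 * g2 * η2) - ζ1 * D1 * (2 * B2 * η2 * g1 - g2 * B1 * η1) -
        τ * m1 * (2 * ζ2 * B2 * g1 - ζ1 * B1 * g2)) * u2 -
      (m2 * ζ1 * D1 + m1 * ζ2 * D2) * d = 0 := by
    linear_combination g1 * g2 * A - (ζ1 * D1 + ζ2 * g1 * g2) * E3 - m1 * E1 +
      g1 * g2 * d * hJ
  have a21 : g2 * (-(g1 * g2 * ζ1 * B1 * g2 * η2) - ζ1 * D1 * (2 * B2 * η2 * g1 - g2 * B1 * η1) -
        τ * m1 * (2 * ζ2 * B2 * g1 - ζ1 * B1 * g2)) =
      2 * Δ * (ζ1 * η1 * D1 + τ * P * B2 * (ζ2 * η2)) := by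
    rw [hT1]
    linear_combination (-2 * B2 * D1) * hX + (2 * B2 * ζ2 * η2) * hDD -
      (2 * ζ1 * η1 * D1) * hΔ2
  have r2 : 2 * Δ * (ζ1 * η1 * D1 + τ * P * B2 * (ζ2 * η2)) * u2 -
      g2 * (m2 * ζ1 * D1 + m1 * ζ2 * D2) * d = 0 := by
    linear_combination g2 * row2 - u2 * a21
  have hm : τ * (m2 * ζ1 * D1 + m1 * ζ2 * D2) = (ζ1 * η2 + ζ2 * η1) * (τ * P * Δ) := by
    rw [← hDD]
    linear_combination (ζ1 * D1) * hT2 + (ζ2 * D2) * hT1 + (g1 * g2) * hX
  have hdet : 2 * g1 * g2 * (B1 * ζ1 * η1 + B2 * ζ2 * η2) *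
      (τ * (m2 * ζ1 * D1 + m1 * ζ2 * D2)) +
      2 * Δ * (ζ2 * η2 * D2 + τ * P * B1 * (ζ1 * η1)) * (ζ1 * η1 * D1 + τ * P * B2 * (ζ2 * η2)) =
      2 * Δ * (g1 * g2) ^ 2 * (ζ1 * η1) * (ζ2 * η2) := by
    rw [hm]
    have e1 : (D1 - τ * P * B1) * (D2 - τ * P * B2) = (g1 * g2) ^ 2 := by
      rw [hD1, hD2]
      ring
    rw [← e1]
    linear_combination (2 * (B1 * ζ1 * η1 + B2 * ζ2 * η2) * τ * P * Δ) * hX
  have hne : 2 * Δ * (g1 * g2) ^ 2 * (ζ1 * η1) * (ζ2 * η2) ≠ 0 :=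
    mul_ne_zero (mul_ne_zero (mul_ne_zero (mul_ne_zero two_ne_zero hΔ)
      (pow_ne_zero _ (mul_ne_zero hg1 hg2))) (mul_ne_zero hζ1 hη1)) (mul_ne_zero hζ2 hη2)
  have hu2 : u2 = 0 := by
    have e2 : (2 * Δ * (g1 * g2) ^ 2 * (ζ1 * η1) * (ζ2 * η2)) * u2 = 0 := by
      rw [← hdet]
      linear_combination g2 * (m2 * ζ1 * D1 + m1 * ζ2 * D2) * r1' +
        (ζ2 * η2 * D2 + τ * P * B1 * (ζ1 * η1)) * r2
    rcases mul_eq_zero.1 e2 with h | h
    · exact absurd h hne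
    · exact h
  have hd : d = 0 := by
    have e2 : (2 * Δ * (g1 * g2) ^ 2 * (ζ1 * η1) * (ζ2 * η2)) * d = 0 := by
      rw [← hdet]
      linear_combination 2 * Δ * (ζ1 * η1 * D1 + τ * P * B2 * (ζ2 * η2)) * r1' -
        2 * g1 * τ * (B1 * ζ1 * η1 + B2 * ζ2 * η2) * r2
    rcases mul_eq_zero.1 e2 with h | h
    · exact absurd h hne
    · exact h
  rw [hu2, hd] at E1 E3
  have hg : g1 * g2 ≠ 0 := mul_ne_zero hg1 hg2
  refine ⟨?_, hu2, ?_, hd⟩
  · have e3 : g1 * g2 * u1 = 0 := by linarith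
    exact (mul_eq_zero.1 e3).resolve_left hg
  · have e3 : g1 * g2 * u3 = 0 := by linarith
    exact (mul_eq_zero.1 e3).resolve_left hg

end Pool.Agent.SDT.N1G

end -- N1G.Cn2

section -- N1Q.AbC

/-!
N1Q, block absE: integrals.
-/

namespace Pool.Agent.SDT.N1Q

open MeasureTheory Set Metric Pool.Agent.SDT.MP_6cbfb8_an Pool.Agent.SDT.MST Pool.Agent.SDT.N1
open Pool.Agent.SDT.N1F Pool.Agent.SDT.N1G Pool.Agent.SDT.N1M
open scoped ENNReal Real ContDiff

theorem lint_aff (g c : ℝ) (hg : g ≠ 0) (f : ℝ → ℝ≥0∞) (hf : Measurable f) :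
    ∫⁻ x, f (c + g * x) = ENNReal.ofReal |g⁻¹| * ∫⁻ x, f x := by
  have h1 : ∫⁻ x, f (c + g * x) = ∫⁻ y, f (c + y) ∂(Measure.map (g * ·) volume) := by
    have hm : Measurable fun y : ℝ => f (c + y) := hf.comp (measurable_const_add c)
    rw [lintegral_map hm (measurable_const_mul g)]
  rw [h1, Real.map_volume_mul_left hg, lintegral_smul_measure, lintegral_add_left_eq_self,
    smul_eq_mul]

theorem lint_log (C T : ℝ) (hC : 0 ≤ C) (hT : 1 ≤ T) :
    ∫⁻ u in Ioc (1 / T) 3, ENNReal.ofReal (C / u) = ENNReal.ofReal (C * Real.log (3 * T)) := by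
  have hT0 : 0 < T := by linarith
  have h1T : 1 / T ≤ 1 := by
    rw [div_le_one hT0]
    exact hT
  have h0 : 0 < 1 / T := by positivity
  have hint : IntervalIntegrable (fun u : ℝ => C / u) volume (1 / T) 3 := by
    apply ContinuousOn.intervalIntegrable
    rw [uIcc_of_le (by linarith)]
    intro x hx
    have : x ≠ 0 := by
      have := hx.1
      linarith
    exact (continuousAt_const.div continuousAt_id this).continuousWithinAt
  rw [intervalIntegrable_iff_integrableOn_Ioc_of_le (by linarith)] at hint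
  rw [← ofReal_integral_eq_lintegral_ofReal hint]
  · congr 1
    rw [← intervalIntegral.integral_of_le (by linarith)]
    have : (fun u : ℝ => C / u) = fun u : ℝ => C * u⁻¹ := by
      funext u
      ring
    rw [this, intervalIntegral.integral_const_mul, integral_inv_of_pos h0 (by norm_num)]
    congr 2
    field_simp
  · rw [Filter.EventuallyLE, ae_restrict_iff' measurableSet_Ioc]
    refine Filter.Eventually.of_forall fun u hu => ?_
    have : 0 < u := by linarith [hu.1]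
    positivity

/-- The integrand in the normal variables. -/
noncomputable def hhE (T u v : ℝ) : ℝ≥0∞ :=
  if |u| ≤ 3 ∧ |v| ≤ 3 then ENNReal.ofReal (1 / (1 + T * (|u| * |v| / 1000)) ^ 2) else 0

theorem hhE_meas (T : ℝ) : Measurable fun w : ℝ × ℝ => hhE T w.1 w.2 := by
  unfold hhE
  refine Measurable.ite ?_ ?_ measurable_const
  · have h1 : MeasurableSet {w : ℝ × ℝ | |w.1| ≤ 3} := measurableSet_le (by fun_prop) (by fun_prop)
    have h2 : MeasurableSet {w : ℝ × ℝ | |w.2| ≤ 3} := measurableSet_le (by fun_prop) (by fun_prop)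
    exact h1.inter h2
  · fun_prop

theorem hhE_1 (T u : ℝ) (hT : 0 ≤ T) : ∫⁻ v, hhE T u v ≤ ENNReal.ofReal 6 := by
  calc ∫⁻ v, hhE T u v ≤ ∫⁻ v, (Icc (-3 : ℝ) 3).indicator (fun _ => (1 : ℝ≥0∞)) v := by
        refine lintegral_mono fun v => ?_
        unfold hhE
        split_ifs with h
        · rw [indicator_of_mem (show v ∈ Icc (-3 : ℝ) 3 from abs_le.1 h.2)]
          rw [← ENNReal.ofReal_one]
          apply ENNReal.ofReal_le_ofReal
          rw [div_le_one (by positivity)]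
          have : 0 ≤ T * (|u| * |v| / 1000) := by positivity
          nlinarith
        · exact zero_le
    _ = _ := by
        rw [lintegral_indicator measurableSet_Icc, setLIntegral_one, Real.volume_Icc]
        norm_num

theorem hhE_2 (T u : ℝ) (hT : 0 < T) (hu : u ≠ 0) :
    ∫⁻ v, hhE T u v ≤ ENNReal.ofReal (1000 * π / T / |u|) := by
  have hu' : 0 < |u| := abs_pos.2 hu
  have hg : (T * |u| / 1000) ≠ 0 := by positivity
  have h1 : ∀ v, hhE T u v ≤ ENNReal.ofReal ((1 + (0 + T * |u| / 1000 * v) ^ 2)⁻¹) := by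
    intro v
    unfold hhE
    split_ifs with h
    · apply ENNReal.ofReal_le_ofReal
      rw [one_div]
      apply inv_anti₀ (by positivity)
      have e : T * (|u| * |v| / 1000) = |T * |u| / 1000 * v| := by
        rw [abs_mul, abs_of_pos (by positivity : 0 < T * |u| / 1000)]
        ring
      rw [e, zero_add]
      have := abs_nonneg (T * |u| / 1000 * v)
      nlinarith [sq_abs (T * |u| / 1000 * v)]
    · exact zero_le
  refine (lintegral_mono h1).trans ?_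
  rw [lint_aff (T * |u| / 1000) 0 hg (fun v => ENNReal.ofReal ((1 + v ^ 2)⁻¹)) (by fun_prop)]
  rw [← ofReal_integral_eq_lintegral_ofReal integrable_inv_one_add_sq
    (Filter.Eventually.of_forall fun v => by positivity), integral_univ_inv_one_add_sq,
    ← ENNReal.ofReal_mul (abs_nonneg _)]
  apply ENNReal.ofReal_le_ofReal
  rw [abs_of_pos (by positivity)]
  apply le_of_eq
  field_simp

theorem hhE_int (T : ℝ) (hT : 1 ≤ T) : ∫⁻ w : ℝ × ℝ, hhE T w.1 w.2 ≤
    ENNReal.ofReal (20000 * (1 + Real.log T) / T) := by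
  have hT0 : 0 < T := by linarith
  have h1T : 1 / T ≤ 1 := by
    rw [div_le_one hT0]
    exact hT
  have h0 : 0 < 1 / T := by positivity
  obtain ⟨C, hC⟩ : ∃ C, C = 1000 * π / T := ⟨_, rfl⟩
  have hC0 : 0 ≤ C := by
    rw [hC]
    positivity
  rw [Measure.volume_eq_prod, lintegral_prod _ (hhE_meas T).aemeasurable]
  simp only
  have hb : ∀ u, ∫⁻ v, hhE T u v ≤ (Icc (-(1 / T)) (1 / T)).indicator (fun _ => ENNReal.ofReal 6) u +
      ((Ioc (1 / T) 3).indicator (fun u => ENNReal.ofReal (C / u)) u +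
        (Ioc (1 / T) 3).indicator (fun u => ENNReal.ofReal (C / u)) (0 + (-1) * u)) := by
    intro u
    by_cases c1 : |u| ≤ 1 / T
    · rw [indicator_of_mem (show u ∈ Icc (-(1 / T)) (1 / T) from abs_le.1 c1)]
      exact (hhE_1 T u hT0.le).trans le_self_add
    push Not at c1
    by_cases c2 : |u| ≤ 3
    · have hu : u ≠ 0 := by
        intro h
        rw [h, abs_zero] at c1
        linarith
      refine (hhE_2 T u hT0 hu).trans (le_trans ?_ le_add_self)
      rw [← hC]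
      rcases lt_or_gt_of_ne hu with h | h
      · refine le_trans ?_ le_add_self
        rw [abs_of_neg h] at c1 c2 ⊢
        rw [indicator_of_mem (show 0 + (-1) * u ∈ Ioc (1 / T) 3 from ⟨by linarith, by linarith⟩)]
        apply le_of_eq
        congr 2
        ring
      · refine le_trans ?_ le_self_add
        rw [abs_of_pos h] at c1 c2 ⊢
        rw [indicator_of_mem (show u ∈ Ioc (1 / T) 3 from ⟨by linarith, by linarith⟩)]
    · have : ∀ v, hhE T u v = 0 := by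
        intro v
        unfold hhE
        rw [if_neg (fun h => c2 h.1)]
      simp only [this, lintegral_zero]
      exact zero_le
  refine (lintegral_mono hb).trans ?_
  have m1 : Measurable ((Ioc (1 / T) 3).indicator (fun u => ENNReal.ofReal (C / u))) :=
    Measurable.indicator (by fun_prop) measurableSet_Ioc
  rw [lintegral_add_left (Measurable.indicator measurable_const measurableSet_Icc),
    lintegral_add_left m1, lint_aff (-1) 0 (by norm_num) _ m1,
    lintegral_indicator measurableSet_Icc, lintegral_indicator measurableSet_Ioc,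
    lint_log C T hC0 hT, setLIntegral_const, Real.volume_Icc]
  have hlog : Real.log (3 * T) ≤ 2 + Real.log T := by
    rw [Real.log_mul (by norm_num) (by positivity)]
    have : Real.log 3 ≤ 2 := by
      have := Real.log_le_sub_one_of_pos (show (0:ℝ) < 3 by norm_num)
      linarith
    linarith
  have hlog0 : 0 ≤ Real.log T := Real.log_nonneg hT
  have hlog3 : 0 ≤ Real.log (3 * T) := Real.log_nonneg (by linarith)
  have e1 : |(-1 : ℝ)⁻¹| = 1 := by norm_num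
  rw [e1, ENNReal.ofReal_one, one_mul, ← ENNReal.ofReal_mul (by norm_num),
    ← ENNReal.ofReal_add (by positivity) (by positivity),
    ← ENNReal.ofReal_add (by
      have : 0 < 1 / T - -(1 / T) := by linarith
      positivity) (by positivity)]
  apply ENNReal.ofReal_le_ofReal
  have hπ := Real.pi_lt_four
  have hC4 : C ≤ 4000 / T := by
    rw [hC]
    apply div_le_div_of_nonneg_right _ hT0.le
    linarith
  have k1 : C * Real.log (3 * T) ≤ 4000 / T * (2 + Real.log T) :=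
    mul_le_mul hC4 hlog hlog3 (by positivity)
  have k2 : 20000 * (1 + Real.log T) / T = 20000 / T * (1 + Real.log T) := by ring
  rw [k2]
  have k3 : 0 ≤ 1 / T * Real.log T := by positivity
  have k4 : 4000 / T * (2 + Real.log T) = 8000 * (1 / T) + 4000 * (1 / T * Real.log T) := by ring
  have k5 : 20000 / T * (1 + Real.log T) = 20000 * (1 / T) + 20000 * (1 / T * Real.log T) := by
    ring
  linarith

end Pool.Agent.SDT.N1Q

end -- N1Q.AbC
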