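import Pool.Agent.SDT.Defs0

set_option autoImplicit false

namespace Pool.Agent.SDT.MP_6cbfb8_an
end Pool.Agent.SDT.MP_6cbfb8_an
namespace Pool.Agent.SDT.MST
end Pool.Agent.SDT.MST

section -- MP_6cbfb8_an.Main

/-!
The main estimate, by summing over dyadic shells.
-/

namespace Pool.Agent.SDT.MP_6cbfb8_an

open MeasureTheory Set
open scoped ENNReal Real RealInnerProductSpace

/-- Choice of exponents. -/
lemma exists_exponents (N s p : ℝ) (hN : 3 ≤ N) (hs : 0 < s)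
    (hp : 2 * N / (N - 1) < p) (hps : 2 * (N + 1) / (N - 1 + 2 * s) < p) :
    ∃ p' q : ℝ, 2 * N / (N - 1) < p' ∧ p' < p ∧ p' < 4 ∧ p' < q ∧ 2 * (N + 1) / (N - 1) < q ∧
      (q - p') / (q - 2) - s * p' / 2 < 0 := by
  have hN1 : 0 < N - 1 := by linarith
  have hN0 : 0 < N := by linarith
  have hN2 : 0 < N - 1 + 2 * s := by linarith
  have hc4 : 2 * N / (N - 1) < 4 := by rw [div_lt_iff₀ hN1]; linarith
  have hcq : 2 * N / (N - 1) < 2 * (N + 1) / (N - 1) := by gcongr; linarith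
  have hd4 : 2 * (N + 1) / (N - 1 + 2 * s) < 4 := by rw [div_lt_iff₀ hN2]; linarith
  have hdq : 2 * (N + 1) / (N - 1 + 2 * s) < 2 * (N + 1) / (N - 1) := by
    gcongr; linarith
  set m := min p (min 4 (2 * (N + 1) / (N - 1))) with hm
  set l := max (2 * N / (N - 1)) (2 * (N + 1) / (N - 1 + 2 * s)) with hl
  have hmc : l < m := by
    rw [hm, hl]
    exact lt_min (max_lt hp hps) (lt_min (max_lt hc4 hd4) (max_lt hcq hdq))
  obtain ⟨p', h1', h2⟩ := exists_between hmc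
  have h1 : 2 * N / (N - 1) < p' := lt_of_le_of_lt (le_max_left _ _) h1'
  have h1s : 2 * (N + 1) / (N - 1 + 2 * s) < p' := lt_of_le_of_lt (le_max_right _ _) h1'
  have h3 : p' < p := lt_of_lt_of_le h2 (min_le_left _ _)
  have h4 : p' < 4 := lt_of_lt_of_le h2 ((min_le_right _ _).trans (min_le_left _ _))
  have h5 : p' < 2 * (N + 1) / (N - 1) :=
    lt_of_lt_of_le h2 ((min_le_right _ _).trans (min_le_right _ _))
  set Q := 2 * (N + 1) / (N - 1) with hQ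
  have hQ2 : Q - 2 = 4 / (N - 1) := by rw [hQ]; field_simp; ring
  have hp'0 : 0 < p' := lt_trans (by positivity) h1
  have hgap : 0 < s * p' * (Q - 2) - 2 * (Q - p') := by
    have h6 : s * p' * (Q - 2) - 2 * (Q - p') =
        2 * (p' * (N - 1 + 2 * s) - 2 * (N + 1)) / (N - 1) := by
      rw [hQ2, hQ]; field_simp; ring
    rw [h6]
    rw [div_lt_iff₀ hN2] at h1s
    have : 0 < p' * (N - 1 + 2 * s) - 2 * (N + 1) := by linarith
    positivity
  set gap := s * p' * (Q - 2) - 2 * (Q - p') with hgapdef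
  refine ⟨p', Q + gap / 4, h1, h3, h4, by linarith, by linarith, ?_⟩
  have hq2 : 0 < Q + gap / 4 - 2 := by
    have : 0 < Q - 2 := by rw [hQ2]; positivity
    linarith
  rw [sub_neg, div_lt_iff₀ hq2]
  have h11 : 0 ≤ s * p' * (gap / 4) := by positivity
  nlinarith

/-- Sum of a geometric-type series. -/
lemma tsum_dyadic_ne_top (e : ℝ) (he : e < 0) :
    ∑' k : ℕ, ENNReal.ofReal (((2:ℝ) ^ k) ^ e) ≠ ∞ := by
  have h1 : ∀ k : ℕ, ENNReal.ofReal (((2:ℝ) ^ k) ^ e) = (ENNReal.ofReal ((2:ℝ) ^ e)) ^ k := by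
    intro k
    rw [← ENNReal.ofReal_pow (by positivity), ← Real.rpow_natCast, ← Real.rpow_natCast,
      ← Real.rpow_mul (by norm_num), ← Real.rpow_mul (by norm_num), mul_comm]
  simp_rw [h1]
  rw [ENNReal.tsum_geometric]
  have h2 : ENNReal.ofReal ((2:ℝ) ^ e) < 1 := by
    rw [ENNReal.ofReal_lt_one]
    exact Real.rpow_lt_one_of_one_lt_of_neg (by norm_num) he
  exact ENNReal.inv_ne_top.mpr (tsub_pos_of_lt h2).ne'


lemma lintegral_mul_add3 {α : Type*} [MeasurableSpace α] {μ : Measure α} (c : ℝ≥0∞)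
    (f g h : α → ℝ≥0∞) (hf : Measurable f) (hg : Measurable g) (hh : Measurable h) :
    ∫⁻ x, c * (f x + g x + h x) ∂μ = c * ((∫⁻ x, f x ∂μ) + (∫⁻ x, g x ∂μ) + ∫⁻ x, h x ∂μ) := by
  have h1 : Measurable fun x => f x + g x := hf.add hg
  have h2 : Measurable fun x => f x + g x + h x := h1.add hh
  rw [lintegral_const_mul _ h2, lintegral_add_left h1, lintegral_add_left hf]



end Pool.Agent.SDT.MP_6cbfb8_an

end -- MP_6cbfb8_an.Main

section -- N1.Y8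

/-!
N1, block Y: monotone partitions adapted to a finite measure; functions of bounded quadratic
variation.
-/

namespace Pool.Agent.SDT.N1

open MeasureTheory Set Metric Pool.Agent.SDT.MP_6cbfb8_an Pool.Agent.SDT.MST
open scoped ENNReal Real

/-- The position of a real number relative to a finite set. -/
noncomputable def ka (S : Finset ℝ) (y : ℝ) : ℕ :=
  (S.filter (· < y)).card + (S.filter (· ≤ y)).card

theorem ka_mono (S : Finset ℝ) : Monotone (ka S) := by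
  intro y y' h
  unfold ka
  refine add_le_add (Finset.card_le_card ?_) (Finset.card_le_card ?_)
  · intro z hz
    rw [Finset.mem_filter] at hz ⊢
    exact ⟨hz.1, hz.2.trans_le h⟩
  · intro z hz
    rw [Finset.mem_filter] at hz ⊢
    exact ⟨hz.1, hz.2.trans h⟩

theorem ka_le (S : Finset ℝ) (y : ℝ) : ka S y ≤ 2 * S.card := by
  unfold ka
  have h1 := Finset.card_filter_le S (· < y)
  have h2 := Finset.card_filter_le S (· ≤ y)
  omega

theorem ka_fiber (S : Finset ℝ) {y y' z : ℝ} (h : y < y') (he : ka S y = ka S y') (hz : z ∈ S)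
    (h1 : y ≤ z) (h2 : z ≤ y') : False := by
  have m1 : (S.filter (· < y)).card ≤ (S.filter (· < y')).card := by
    refine Finset.card_le_card ?_
    intro w hw
    rw [Finset.mem_filter] at hw ⊢
    exact ⟨hw.1, hw.2.trans h⟩
  have m2 : (S.filter (· ≤ y)).card ≤ (S.filter (· ≤ y')).card := by
    refine Finset.card_le_card ?_
    intro w hw
    rw [Finset.mem_filter] at hw ⊢
    exact ⟨hw.1, hw.2.trans h.le⟩
  unfold ka at he
  rcases lt_or_eq_of_le h2 with h3 | h3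
  · have m3 : (S.filter (· < y)).card < (S.filter (· < y')).card := by
      refine Finset.card_lt_card ?_
      rw [Finset.ssubset_iff_of_subset]
      · refine ⟨z, ?_, ?_⟩
        · rw [Finset.mem_filter]
          exact ⟨hz, h3⟩
        · rw [Finset.mem_filter]
          rintro ⟨-, h4⟩
          exact absurd h4 (not_lt.2 h1)
      · intro w hw
        rw [Finset.mem_filter] at hw ⊢
        exact ⟨hw.1, hw.2.trans h⟩
    omega
  · have m3 : (S.filter (· ≤ y)).card < (S.filter (· ≤ y')).card := by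
      refine Finset.card_lt_card ?_
      rw [Finset.ssubset_iff_of_subset]
      · refine ⟨z, ?_, ?_⟩
        · rw [Finset.mem_filter]
          exact ⟨hz, h2⟩
        · rw [Finset.mem_filter]
          rintro ⟨-, h4⟩
          linarith
      · intro w hw
        rw [Finset.mem_filter] at hw ⊢
        exact ⟨hw.1, hw.2.trans h.le⟩
    omega

theorem ka_zero (S : Finset ℝ) : ∃ y, ka S y = 0 := by
  obtain ⟨m, hm⟩ := S.finite_toSet.bddBelow
  refine ⟨m - 1, ?_⟩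
  unfold ka
  rw [Nat.add_eq_zero_iff, Finset.card_eq_zero, Finset.card_eq_zero, Finset.filter_eq_empty_iff,
    Finset.filter_eq_empty_iff]
  constructor
  · intro z hz h1
    have := hm (Finset.mem_coe.2 hz)
    linarith
  · intro z hz h1
    have := hm (Finset.mem_coe.2 hz)
    linarith

/-- Monotone representatives of the values of a monotone index. -/
theorem mono_rep (κ : ℝ → ℕ) (hκ : Monotone κ) (h0 : ∃ y, κ y = 0) :
    ∃ ρ : ℕ → ℝ, Monotone ρ ∧ ∀ y, κ (ρ (κ y)) = κ y := by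
  classical
  set σ : ℕ → ℕ := fun k => Nat.findGreatest (fun j => ∃ y, κ y = j) k with hσ
  have h1 : ∀ k, ∃ y, κ y = σ k := by
    intro k
    exact Nat.findGreatest_spec (P := fun j => ∃ y, κ y = j) (Nat.zero_le k) h0
  have h2 : Monotone σ := by
    intro a b hab
    exact Nat.findGreatest_mono_right (P := fun j => ∃ y, κ y = j) hab
  have h3 : ∀ y, σ (κ y) = κ y := by
    intro y
    exact Nat.findGreatest_eq (P := fun j => ∃ y, κ y = j) ⟨y, rfl⟩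
  have h4 : ∀ j : ℕ, ∃ y : ℝ, (∃ y, κ y = j) → κ y = j := by
    intro j
    by_cases h : ∃ y, κ y = j
    · obtain ⟨y, hy⟩ := h
      exact ⟨y, fun _ => hy⟩
    · exact ⟨0, fun h' => absurd h' h⟩
  choose r hr using h4
  refine ⟨fun k => r (σ k), ?_, ?_⟩
  · intro a b hab
    rcases lt_or_eq_of_le (h2 hab) with h5 | h5
    · have e1 := hr (σ a) (h1 a)
      have e2 := hr (σ b) (h1 b)
      by_contra h6
      push Not at h6
      have := hκ h6.le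
      omega
    · simp only [h5]
      exact le_rfl
  · intro y
    simp only [h3]
    exact hr (κ y) ⟨y, rfl⟩

/-- Quantiles of a finite measure. -/
theorem cut_pts (μ : Measure ℝ) [IsFiniteMeasure μ] (N : ℕ) (hN : 1 ≤ N) :
    ∃ S : Finset ℝ, S.card ≤ N + 1 ∧ ∀ y1 y2 : ℝ, μ.real univ / N < μ.real (Icc y1 y2) →
      ∃ z ∈ S, y1 ≤ z ∧ z ≤ y2 := by
  classical
  have hN0 : (0:ℝ) < N := by exact_mod_cast hN
  obtain ⟨δ, hδ⟩ : ∃ δ, δ = μ.real univ / N := ⟨_, rfl⟩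
  have hδ0 : 0 ≤ δ := by rw [hδ]; exact div_nonneg measureReal_nonneg hN0.le
  refine ⟨(Finset.range (N + 1)).image fun j : ℕ => sInf {y : ℝ | (j:ℝ) * δ ≤ μ.real (Iic y)},
    ?_, ?_⟩
  · refine Finset.card_image_le.trans ?_
    rw [Finset.card_range]
  intro y1 y2 h
  rw [← hδ] at h
  have hB : μ.real (Icc y1 y2) ≤ μ.real univ := measureReal_mono (subset_univ _)
  have htot : μ.real univ = N * δ := by rw [hδ]; field_simp
  have hδ1 : 0 < δ := by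
    rcases lt_or_eq_of_le hδ0 with h1 | h1
    · exact h1
    · rw [← h1] at htot h
      rw [htot, mul_zero] at hB
      exact absurd hB (not_le.2 h)
  have h12 : y1 ≤ y2 := by
    by_contra hc
    push Not at hc
    rw [Icc_eq_empty (not_le.2 hc), measureReal_empty] at h
    linarith
  set A : ℝ := μ.real (Iio y1) with hA
  have hA0 : 0 ≤ A := measureReal_nonneg
  have hsum : A + μ.real (Icc y1 y2) = μ.real (Iic y2) := by
    rw [hA, ← measureReal_union _ measurableSet_Icc]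
    · congr 1
      exact Iio_union_Icc_eq_Iic h12
    · rw [Set.disjoint_left]
      intro z hz hz'
      exact absurd hz'.1 (not_le.2 hz)
  have hle : μ.real (Iic y2) ≤ N * δ := by
    rw [← htot]
    exact measureReal_mono (subset_univ _)
  obtain ⟨j, hj⟩ : ∃ j : ℕ, j = ⌊A / δ⌋₊ + 1 := ⟨_, rfl⟩
  have h1 : A < j * δ := by
    have := Nat.lt_floor_add_one (A / δ)
    rw [div_lt_iff₀ hδ1] at this
    rw [hj]
    push_cast
    exact this
  have h2 : (j:ℝ) * δ ≤ A + δ := by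
    have := Nat.floor_le (div_nonneg hA0 hδ0)
    rw [le_div_iff₀ hδ1] at this
    rw [hj]
    push_cast
    linarith
  have h3 : j ≤ N := by
    by_contra hc
    push Not at hc
    have h4 : (N:ℝ) * δ < j * δ := by
      apply mul_lt_mul_of_pos_right _ hδ1
      exact_mod_cast hc
    linarith
  refine ⟨sInf {y : ℝ | (j:ℝ) * δ ≤ μ.real (Iic y)}, ?_, ?_, ?_⟩
  · rw [Finset.mem_image]
    exact ⟨j, Finset.mem_range.2 (by omega), rfl⟩
  · have hmem : y2 ∈ {y : ℝ | (j:ℝ) * δ ≤ μ.real (Iic y)} := by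
      show (j:ℝ) * δ ≤ μ.real (Iic y2)
      linarith
    refine le_csInf ⟨y2, hmem⟩ ?_
    intro y hy
    by_contra hc
    push Not at hc
    have h5 : μ.real (Iic y) ≤ A := measureReal_mono (Iic_subset_Iio.2 hc)
    have h6 : (j:ℝ) * δ ≤ μ.real (Iic y) := hy
    linarith
  · refine csInf_le ⟨y1, ?_⟩ ?_
    · intro y hy
      by_contra hc
      push Not at hc
      have h5 : μ.real (Iic y) ≤ A := measureReal_mono (Iic_subset_Iio.2 hc)
      have h6 : (j:ℝ) * δ ≤ μ.real (Iic y) := hy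
      linarith
    · show (j:ℝ) * δ ≤ μ.real (Iic y2)
      linarith

/-- Either the fibre carries little measure or the function has no variation on it. -/
theorem fib_small (μ : Measure ℝ) [IsFiniteMeasure μ] (S : Finset ℝ) (δ : ℝ) (hδ : 0 ≤ δ)
    (hS : ∀ y1 y2 : ℝ, δ < μ.real (Icc y1 y2) → ∃ z ∈ S, y1 ≤ z ∧ z ≤ y2) (k : ℕ) (f : ℝ → ℂ) :
    eVariationOn f (ka S ⁻¹' {k}) * μ (ka S ⁻¹' {k}) ≤
      eVariationOn f (ka S ⁻¹' {k}) * ENNReal.ofReal δ := by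
  by_cases hs : (ka S ⁻¹' {k}).Subsingleton
  · rw [eVariationOn.subsingleton f hs]
    simp
  have hle : μ (ka S ⁻¹' {k}) ≤ ENNReal.ofReal δ := by
    by_contra hc
    push Not at hc
    have hm : MeasurableSet (ka S ⁻¹' {k}) := (ka_mono S).measurable (measurableSet_singleton k)
    obtain ⟨K, hK, hKc, hKm⟩ := hm.exists_lt_isCompact hc
    have hne : K.Nonempty := by
      by_contra h
      rw [not_nonempty_iff_eq_empty] at h
      rw [h, measure_empty] at hKm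
      exact absurd hKm not_lt_zero
    have e1 := hKc.sInf_mem hne
    have e2 := hKc.sSup_mem hne
    have e3 : K ⊆ Icc (sInf K) (sSup K) := by
      intro z hz
      exact ⟨csInf_le hKc.bddBelow hz, le_csSup hKc.bddAbove hz⟩
    have e4 : δ < μ.real (Icc (sInf K) (sSup K)) := by
      have h1 : ENNReal.ofReal δ < μ (Icc (sInf K) (sSup K)) := hKm.trans_le (measure_mono e3)
      rw [measureReal_def]
      rwa [ENNReal.ofReal_lt_iff_lt_toReal hδ (measure_ne_top _ _)] at h1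
    obtain ⟨z, hz, h1, h2⟩ := hS _ _ e4
    have k1 : ka S (sInf K) = k := hK e1
    have k2 : ka S (sSup K) = k := hK e2
    rcases lt_or_eq_of_le (h1.trans h2) with h3 | h3
    · exact ka_fiber S h3 (k1.trans k2.symm) hz h1 h2
    · have hz1 : z = sInf K := le_antisymm (h3 ▸ h2) h1
      rw [not_subsingleton_iff] at hs
      obtain ⟨a, ha, b, hb, hab⟩ := hs
      have hex : ∃ w, ka S w = k ∧ w ≠ z := by
        by_cases h4 : a = z
        · exact ⟨b, hb, fun h5 => hab (h4.trans h5.symm)⟩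
        · exact ⟨a, ha, h4⟩
      obtain ⟨w, hw, hwz⟩ := hex
      rw [← hz1] at k1
      rcases lt_or_gt_of_ne hwz with h5 | h5
      · exact ka_fiber S h5 (hw.trans k1.symm) hz h5.le le_rfl
      · exact ka_fiber S h5 (k1.trans hw.symm) hz le_rfl h5.le
  gcongr

theorem var_sum (f : ℝ → ℂ) (κ : ℝ → ℕ) (hκ : Monotone κ) (n : ℕ) :
    ∑ k ∈ Finset.range n, eVariationOn f (κ ⁻¹' {k}) ≤ eVariationOn f (κ ⁻¹' (Iio n)) := by
  induction n with
  | zero => simp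
  | succ n ih =>
    rw [Finset.sum_range_succ]
    have h1 : κ ⁻¹' (Iio (n + 1)) = κ ⁻¹' (Iio n) ∪ κ ⁻¹' {n} := by
      ext y
      simp only [mem_preimage, mem_Iio, mem_union, mem_singleton_iff]
      omega
    rw [h1]
    refine (add_le_add ih le_rfl).trans (eVariationOn.add_le_union f ?_)
    intro x hx y hy
    by_contra hc
    push Not at hc
    have h2 := hκ hc.le
    have h3 : κ x < n := hx
    have h4 : κ y = n := hy
    omega

/-- A finite partition of the line adapted to a finite measure. -/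
theorem bv_part (μ : Measure ℝ) [IsFiniteMeasure μ] (N : ℕ) (hN : 1 ≤ N) :
    ∃ (κ : ℝ → ℕ) (ρ : ℕ → ℝ), Monotone κ ∧ Monotone ρ ∧ (∀ y, κ y ≤ 2 * (N + 1)) ∧
      ∀ f : ℝ → ℂ, ∫⁻ y, ‖f y - f (ρ (κ y))‖ₑ ∂μ ≤
        eVariationOn f univ * ENNReal.ofReal (μ.real univ / N) := by
  obtain ⟨S, hS1, hS2⟩ := cut_pts μ N hN
  obtain ⟨ρ, hρ, hρ2⟩ := mono_rep (ka S) (ka_mono S) (ka_zero S)
  have hN0 : (0:ℝ) < N := by exact_mod_cast hN
  have hδ0 : 0 ≤ μ.real univ / N := div_nonneg measureReal_nonneg hN0.le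
  refine ⟨ka S, ρ, ka_mono S, hρ, fun y => (ka_le S y).trans (by omega), ?_⟩
  intro f
  obtain ⟨M, hM⟩ : ∃ M : ℕ, M = 2 * (N + 1) + 1 := ⟨_, rfl⟩
  have hk : ∀ y, ka S y < M := fun y => by
    have := (ka_le S y)
    omega
  have hm : ∀ k, MeasurableSet (ka S ⁻¹' {k}) := fun k =>
    (ka_mono S).measurable (measurableSet_singleton k)
  have hpt : ∀ y, ‖f y - f (ρ (ka S y))‖ₑ ≤ ∑ k ∈ Finset.range M,
      (ka S ⁻¹' {k}).indicator (fun _ => eVariationOn f (ka S ⁻¹' {k})) y := by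
    intro y
    have h1 : (ka S ⁻¹' {ka S y}).indicator (fun _ => eVariationOn f (ka S ⁻¹' {ka S y})) y ≤
        ∑ k ∈ Finset.range M,
          (ka S ⁻¹' {k}).indicator (fun _ => eVariationOn f (ka S ⁻¹' {k})) y :=
      Finset.single_le_sum (f := fun k =>
        (ka S ⁻¹' {k}).indicator (fun _ => eVariationOn f (ka S ⁻¹' {k})) y)
        (fun _ _ => zero_le) (Finset.mem_range.2 (hk y))
    refine le_trans ?_ h1
    rw [indicator_of_mem (show y ∈ ka S ⁻¹' {ka S y} from rfl), ← edist_eq_enorm_sub]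
    exact eVariationOn.edist_le f (s := ka S ⁻¹' {ka S y}) rfl (hρ2 y)
  calc ∫⁻ y, ‖f y - f (ρ (ka S y))‖ₑ ∂μ
      ≤ ∫⁻ y, ∑ k ∈ Finset.range M,
          (ka S ⁻¹' {k}).indicator (fun _ => eVariationOn f (ka S ⁻¹' {k})) y ∂μ :=
        lintegral_mono hpt
    _ = ∑ k ∈ Finset.range M, eVariationOn f (ka S ⁻¹' {k}) * μ (ka S ⁻¹' {k}) := by
        rw [lintegral_finsetSum _ fun k _ => measurable_const.indicator (hm k)]
        refine Finset.sum_congr rfl fun k _ => ?_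
        rw [lintegral_indicator (hm k), setLIntegral_const]
    _ ≤ ∑ k ∈ Finset.range M, eVariationOn f (ka S ⁻¹' {k}) *
          ENNReal.ofReal (μ.real univ / N) :=
        Finset.sum_le_sum fun k _ => fib_small μ S _ hδ0 hS2 k f
    _ = (∑ k ∈ Finset.range M, eVariationOn f (ka S ⁻¹' {k})) *
          ENNReal.ofReal (μ.real univ / N) := by rw [Finset.sum_mul]
    _ ≤ eVariationOn f univ * ENNReal.ofReal (μ.real univ / N) := by
        gcongr
        exact (var_sum f (ka S) (ka_mono S) M).trans (eVariationOn.mono f (subset_univ _))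

/-- Dyadic difference of a sequence. -/
def dya (g : ℕ → ℂ) (l q : ℕ) : ℂ := g (q * 2 ^ l) - g (q / 2 * 2 * 2 ^ l)

theorem dya_sum (g : ℕ → ℂ) (L k : ℕ) (hk : k < 2 ^ L) :
    g k = g 0 + ∑ l ∈ Finset.range L, dya g l (k / 2 ^ l) := by
  have h1 : ∀ n : ℕ, ∑ l ∈ Finset.range n, dya g l (k / 2 ^ l) =
      g k - g (k / 2 ^ n * 2 ^ n) := by
    intro n
    induction n with
    | zero => simp
    | succ n ih =>
      rw [Finset.sum_range_succ, ih]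
      unfold dya
      have h2 : k / 2 ^ n / 2 * 2 * 2 ^ n = k / 2 ^ (n + 1) * 2 ^ (n + 1) := by
        rw [Nat.div_div_eq_div_mul, pow_succ]
        ring
      rw [h2]
      ring
  rw [h1, Nat.div_eq_of_lt hk, zero_mul]
  ring

theorem dya_zero (g : ℕ → ℂ) (l : ℕ) : dya g l 0 = 0 := by
  unfold dya
  simp

theorem dya_succ (g : ℕ → ℂ) (l q : ℕ) :
    ‖dya g l (q + 1)‖ ≤ ‖g ((q + 1) * 2 ^ l) - g (q * 2 ^ l)‖ := by
  unfold dya
  rcases Nat.even_or_odd (q + 1) with h | h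
  · have h1 : (q + 1) / 2 * 2 = q + 1 := Nat.div_mul_cancel h.two_dvd
    rw [h1, sub_self, norm_zero]
    exact norm_nonneg _
  · obtain ⟨r, hr⟩ := h
    have h1 : (q + 1) / 2 * 2 = q := by omega
    rw [h1]

theorem dya_var (g : ℕ → ℂ) (l n : ℕ) (hn : 1 ≤ n) : ∑ q ∈ Finset.range n, ‖dya g l q‖ ^ 2 ≤
    ∑ q ∈ Finset.range n, ‖g ((q + 1) * 2 ^ l) - g (q * 2 ^ l)‖ ^ 2 := by
  obtain ⟨m, rfl⟩ : ∃ m, n = m + 1 := ⟨n - 1, by omega⟩
  rw [Finset.sum_range_succ', dya_zero, norm_zero]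
  calc ∑ q ∈ Finset.range m, ‖dya g l (q + 1)‖ ^ 2 + 0 ^ 2
      ≤ ∑ q ∈ Finset.range m, ‖g ((q + 1) * 2 ^ l) - g (q * 2 ^ l)‖ ^ 2 + 0 := by
        refine add_le_add (Finset.sum_le_sum fun q _ => ?_) (by norm_num)
        exact pow_le_pow_left₀ (norm_nonneg _) (dya_succ g l q) 2
    _ ≤ _ := by
        rw [Finset.sum_range_succ]
        gcongr
        positivity

theorem qv_W (V : ℝ) (f : ℝ → ℂ) (hf : QVar V f) : ∃ W : ℝ → ℝ, Monotone W ∧
    (∀ y, 0 ≤ W y ∧ W y ≤ V) ∧ ∀ y z, y ≤ z → ‖f z - f y‖ ^ 2 ≤ W z - W y := by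
  set Z : ℝ → Set ℝ := fun y => {s | ∃ (u : ℕ → ℝ) (n : ℕ), Monotone u ∧ u n ≤ y ∧
    s = ∑ i ∈ Finset.range n, ‖f (u (i + 1)) - f (u i)‖ ^ 2} with hZ
  have hb : ∀ y, ∀ s ∈ Z y, s ≤ V := by
    rintro y s ⟨u, n, hu, -, rfl⟩
    exact hf u hu n
  have hbd : ∀ y, BddAbove (Z y) := fun y => ⟨V, fun s hs => hb y s hs⟩
  have h0 : ∀ y, (0:ℝ) ∈ Z y := fun y => ⟨fun _ => y, 0, fun _ _ _ => le_rfl, le_rfl, by simp⟩
  have hne : ∀ y, (Z y).Nonempty := fun y => ⟨0, h0 y⟩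
  have hstep : ∀ y z, y ≤ z → ‖f z - f y‖ ^ 2 ≤ sSup (Z z) - sSup (Z y) := by
    intro y z hyz
    rw [le_sub_iff_add_le, add_comm, ← le_sub_iff_add_le]
    refine csSup_le (hne y) ?_
    rintro s ⟨u, n, hu, hun, rfl⟩
    rw [le_sub_iff_add_le]
    obtain ⟨w, w1, w2, w3⟩ : ∃ w : ℕ → ℝ, (∀ i, i ≤ n → w i = u i) ∧ w (n + 1) = y ∧
        ∀ i, n + 2 ≤ i → w i = z := by
      refine ⟨fun i => if i ≤ n then u i else if i = n + 1 then y else z, ?_, ?_, ?_⟩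
      · intro i hi
        simp only [hi, if_true]
      · simp
      · intro i hi
        simp only
        rw [if_neg (by omega), if_neg (by omega)]
    have hw : Monotone w := by
      refine monotone_nat_of_le_succ fun i => ?_
      rcases lt_or_ge i n with h | h
      · rw [w1 i h.le, w1 (i + 1) h]
        exact hu (Nat.le_succ i)
      · rcases eq_or_lt_of_le h with h' | h'
        · rw [← h', w1 n le_rfl, w2]
          exact hun
        · rcases eq_or_lt_of_le (Nat.succ_le_of_lt h') with h'' | h''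
          · have e0 : i = n + 1 := h''.symm
            rw [e0, w2, w3 (n + 1 + 1) le_rfl]
            exact hyz
          · have e0 : n + 1 < i := h''
            rw [w3 i (by omega), w3 (i + 1) (by omega)]
    have hmem : (∑ i ∈ Finset.range (n + 2), ‖f (w (i + 1)) - f (w i)‖ ^ 2) ∈ Z z :=
      ⟨w, n + 2, hw, (w3 (n + 2) le_rfl).le, rfl⟩
    refine le_trans ?_ (le_csSup (hbd z) hmem)
    rw [Finset.sum_range_succ, Finset.sum_range_succ]
    have e1 : ∑ i ∈ Finset.range n, ‖f (w (i + 1)) - f (w i)‖ ^ 2 =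
        ∑ i ∈ Finset.range n, ‖f (u (i + 1)) - f (u i)‖ ^ 2 := by
      refine Finset.sum_congr rfl fun i hi => ?_
      have hi' := Finset.mem_range.1 hi
      rw [w1 (i + 1) (by omega), w1 i hi'.le]
    rw [e1, w2, w3 (n + 1 + 1) le_rfl]
    have e2 : 0 ≤ ‖f y - f (w n)‖ ^ 2 := by positivity
    linarith
  refine ⟨fun y => sSup (Z y), ?_, ?_, hstep⟩
  · intro y z hyz
    have h1 := hstep y z hyz
    have h2 : 0 ≤ ‖f z - f y‖ ^ 2 := by positivity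
    simp only
    linarith
  · intro y
    exact ⟨le_csSup (hbd y) (h0 y), csSup_le (hne y) (hb y)⟩

theorem mono_var (W : ℝ → ℝ) (hW : Monotone W) (V : ℝ) (hV : ∀ y, 0 ≤ W y ∧ W y ≤ V) :
    eVariationOn (fun y => (W y : ℂ)) univ ≤ ENNReal.ofReal V := by
  unfold eVariationOn
  refine iSup_le fun p => ?_
  obtain ⟨n, u, hu, -⟩ := p
  simp only
  have h1 : ∀ i, edist (W (u (i + 1)) : ℂ) (W (u i) : ℂ) =
      ENNReal.ofReal (W (u (i + 1)) - W (u i)) := by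
    intro i
    rw [edist_dist, Complex.dist_eq, ← Complex.ofReal_sub, Complex.norm_real, Real.norm_eq_abs,
      abs_of_nonneg]
    exact sub_nonneg.2 (hW (hu (Nat.le_succ i)))
  simp only [h1]
  rw [← ENNReal.ofReal_sum_of_nonneg fun i _ => sub_nonneg.2 (hW (hu (Nat.le_succ i))),
    Finset.sum_range_sub (fun i => W (u i))]
  apply ENNReal.ofReal_le_ofReal
  linarith [(hV (u n)).2, (hV (u 0)).1]

theorem log_size (N : ℕ) (hN : 1 ≤ N) :
    ((Nat.log 2 (2 * (N + 1)) + 1 : ℕ) : ℝ) ≤ 3 * (1 + Real.log N) := by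
  have hN0 : (0:ℝ) < N := by exact_mod_cast hN
  have hN1 : (1:ℝ) ≤ N := by exact_mod_cast hN
  have h1 : 2 ^ Nat.log 2 (2 * (N + 1)) ≤ 2 * (N + 1) := Nat.pow_log_le_self 2 (by omega)
  have h2 : (2:ℝ) ^ Nat.log 2 (2 * (N + 1)) ≤ 4 * N := by
    have : ((2 ^ Nat.log 2 (2 * (N + 1)) : ℕ) : ℝ) ≤ ((2 * (N + 1) : ℕ) : ℝ) := by exact_mod_cast h1
    push_cast at this
    linarith
  have h3 := Real.log_le_log (by positivity) h2
  rw [Real.log_pow, Real.log_mul (by norm_num) hN0.ne'] at h3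
  have h4 : Real.log 4 = 2 * Real.log 2 := by
    rw [show (4:ℝ) = 2 ^ 2 by norm_num, Real.log_pow]
    norm_num
  rw [h4] at h3
  have h5 := Real.log_two_gt_d9
  have h6 := Real.log_nonneg hN1
  push_cast
  set n : ℝ := (Nat.log 2 (2 * (N + 1)) : ℝ) with hn
  have h7 : (n - 2) * Real.log 2 ≤ Real.log N := by linarith
  by_contra hc
  push Not at hc
  have h8 : 2 + 3 * Real.log N < n := by linarith
  have h9 : 3 * Real.log N * Real.log 2 ≤ (n - 2) * Real.log 2 := by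
    apply mul_le_mul_of_nonneg_right _ (by linarith)
    linarith
  have h10 : Real.log N ≤ 3 * Real.log N * Real.log 2 := by nlinarith
  have h11 : (2 + 3 * Real.log N - 2) * Real.log 2 < (n - 2) * Real.log 2 := by
    apply mul_lt_mul_of_pos_right _ (by linarith)
    linarith
  linarith

/-- A finite partition of the line adapted to a finite measure, for functions of bounded
quadratic variation. -/
theorem qv_part (μ : Measure ℝ) [IsFiniteMeasure μ] (N : ℕ) (hN : 1 ≤ N) :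
    ∃ (κ : ℝ → ℕ) (ρ : ℕ → ℝ), Monotone κ ∧ Monotone ρ ∧ (∀ y, κ y ≤ 2 * (N ^ 2 + 1)) ∧
      ∀ (V : ℝ) (f : ℝ → ℂ), 0 ≤ V → QVar V f → ∫⁻ y, ‖f y - f (ρ (κ y))‖ₑ ∂μ ≤
        ENNReal.ofReal ((V + 1) * μ.real univ / N) := by
  obtain ⟨κ, ρ, hκ, hρ, hκN, herr⟩ := bv_part μ (N ^ 2) (Nat.one_le_pow _ _ hN)
  refine ⟨κ, ρ, hκ, hρ, hκN, ?_⟩
  intro V f hV hf
  have hN0 : (0:ℝ) < N := by exact_mod_cast hN
  have htot : μ univ = ENNReal.ofReal (μ.real univ) := by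
    rw [measureReal_def, ENNReal.ofReal_toReal (measure_ne_top _ _)]
  have htot0 : 0 ≤ μ.real univ := measureReal_nonneg
  obtain ⟨W, hW, hWb, hWf⟩ := qv_W V f hf
  have h1 : ∀ y z, ‖f z - f y‖ ^ 2 ≤ |W z - W y| := by
    intro y z
    rcases le_total y z with h | h
    · exact (hWf y z h).trans (le_abs_self _)
    · rw [norm_sub_rev, abs_sub_comm]
      exact (hWf z y h).trans (le_abs_self _)
  have hpt : ∀ y, ‖f y - f (ρ (κ y))‖ₑ ≤ ENNReal.ofReal N * ‖(W y : ℂ) - (W (ρ (κ y)) : ℂ)‖ₑ +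
      ENNReal.ofReal (1 / N) := by
    intro y
    rw [← ofReal_norm, ← ofReal_norm, ← Complex.ofReal_sub, Complex.norm_real, Real.norm_eq_abs,
      ← ENNReal.ofReal_mul hN0.le, ← ENNReal.ofReal_add (by positivity) (by positivity)]
    apply ENNReal.ofReal_le_ofReal
    have h2 := h1 (ρ (κ y)) y
    set t : ℝ := ‖f y - f (ρ (κ y))‖ with ht
    have ht0 : 0 ≤ t := norm_nonneg _
    rcases le_total t (1 / N) with h3 | h3
    · have : 0 ≤ (N:ℝ) * |W y - W (ρ (κ y))| := by positivity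
      linarith
    · have h4 : 1 ≤ (N:ℝ) * t := by
        rw [div_le_iff₀ hN0] at h3
        linarith
      have h5 : t ≤ (N:ℝ) * t ^ 2 := by nlinarith
      have h6 : (N:ℝ) * t ^ 2 ≤ N * |W y - W (ρ (κ y))| := mul_le_mul_of_nonneg_left h2 hN0.le
      have h7 : 0 ≤ (1:ℝ) / N := by positivity
      linarith
  calc ∫⁻ y, ‖f y - f (ρ (κ y))‖ₑ ∂μ
      ≤ ∫⁻ y, (ENNReal.ofReal N * ‖(W y : ℂ) - (W (ρ (κ y)) : ℂ)‖ₑ + ENNReal.ofReal (1 / N)) ∂μ :=
        lintegral_mono hpt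
    _ = ENNReal.ofReal N * ∫⁻ y, ‖(W y : ℂ) - (W (ρ (κ y)) : ℂ)‖ₑ ∂μ +
          ENNReal.ofReal (1 / N) * μ univ := by
        rw [lintegral_add_right _ measurable_const, lintegral_const,
          lintegral_const_mul' _ _ ENNReal.ofReal_ne_top]
    _ ≤ ENNReal.ofReal N * (ENNReal.ofReal V * ENNReal.ofReal (μ.real univ / (N ^ 2 : ℕ))) +
          ENNReal.ofReal (1 / N) * ENNReal.ofReal (μ.real univ) := by
        rw [htot]
        gcongr
        refine (herr fun y => (W y : ℂ)).trans ?_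
        gcongr
        exact mono_var W hW V hWb
    _ = ENNReal.ofReal ((V + 1) * μ.real univ / N) := by
        rw [← ENNReal.ofReal_mul hV, ← ENNReal.ofReal_mul hN0.le,
          ← ENNReal.ofReal_mul (by positivity), ← ENNReal.ofReal_add (by positivity)
          (by positivity)]
        congr 1
        push_cast
        field_simp

end Pool.Agent.SDT.N1

end -- N1.Y8

section -- N1G.Qd0

/-!
N1G: the nondegeneracy in case (D) for the quadratic family, algebraic part (`ρ = 0`).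
-/

namespace Pool.Agent.SDT.N1G.Qf

open MeasureTheory Set Metric Filter
open scoped ENNReal Real ContDiff Topology

/-- The function `B₂ η₂ Q + G₂ U` for `ρ = 0`; `u = (Y₁, X₁)`, `v = (Y₂, X₂)`. -/
def qNn (B1 B2 τ P g1 g2 s : ℝ) (u v : ℝ × ℝ) : ℝ :=
  B2 * (s * g1 + τ * v.1) *
      (P + 2 * g1 * u.2 + 2 * g2 * v.2 - τ * (B1 * u.2 ^ 2 + B2 * v.2 ^ 2)) +
    (g2 - τ * B2 * v.2) * ((g1 - τ * B1 * u.2) * u.1 + (g2 - τ * B2 * v.2) * v.1 +
      s * g2 * B1 * u.2 - s * g1 * B2 * v.2)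

/-- `D₁`, a function of `X₂`. -/
def qD1 (B1 B2 τ P g1 g2 : ℝ) (x : ℝ) : ℝ :=
  g1 ^ 2 + τ * B1 * (P + 2 * g2 * x - τ * B2 * x ^ 2)

/-- The closed form of `Γ`. -/
noncomputable def qG (B1 B2 τ P g1 g2 s : ℝ) (u v : ℝ × ℝ) : ℝ :=
  -(2 * g1 * qNn B1 B2 τ P g1 g2 s u v) / ((g1 - τ * B1 * u.2) * qD1 B1 B2 τ P g1 g2 v.2)

/-- The first separated function at `ρ = 0`. -/
noncomputable def qom (B1 τ g1 g2 s : ℝ) (u : ℝ × ℝ) : ℝ :=
  2 * (g1 * u.1 - s * g2 * B1 * u.2) / (g1 - τ * B1 * u.2)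

/-- The second separated function at `ρ = 0`. -/
noncomputable def qsg (B1 B2 τ P g1 g2 s : ℝ) (v : ℝ × ℝ) : ℝ :=
  -(2 * (g1 * (g2 - τ * B2 * v.2) * v.1 - s * g1 ^ 2 * B2 * v.2 -
    s * g2 * B1 * (P + 2 * g2 * v.2 - τ * B2 * v.2 ^ 2))) / qD1 B1 B2 τ P g1 g2 v.2

theorem hd_poly2 (a b c : ℝ) : HasDerivAt (fun t : ℝ => a + b * t + c * t ^ 2) b 0 := by
  have h1 : HasDerivAt (fun t : ℝ => a + b * t) b 0 := by
    simpa using ((hasDerivAt_id (0:ℝ)).const_mul b).const_add a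
  have h2 : HasDerivAt (fun t : ℝ => c * t ^ 2) (c * (2 * 0)) 0 := by
    simpa using (hasDerivAt_pow 2 (0:ℝ)).const_mul c
  have h3 := h1.add h2
  rw [mul_zero, mul_zero, add_zero] at h3
  exact h3

theorem hd_of_eq {f : ℝ → ℝ} (a b c : ℝ) (h : ∀ t, f t = a + b * t + c * t ^ 2) :
    HasDerivAt f b 0 := by
  have : f = fun t : ℝ => a + b * t + c * t ^ 2 := funext h
  rw [this]
  exact hd_poly2 a b c

theorem hd_ratio {f g : ℝ → ℝ} {f' g' : ℝ} (hf : HasDerivAt f f' 0) (hg : HasDerivAt g g' 0)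
    (h0 : g 0 ≠ 0) (c : ℝ) (hc : f' * g 0 - f 0 * g' = c * g 0 ^ 2) :
    HasDerivAt (fun t => f t / g t) c 0 := by
  have h := hf.fun_div hg h0
  rw [hc, mul_div_assoc, div_self (pow_ne_zero 2 h0), mul_one] at h
  exact h

/-- The derivative of `om` in the kernel direction. -/
theorem qom_ker (B1 τ g1 g2 s y x : ℝ) (hG : g1 - τ * B1 * x ≠ 0) :
    HasDerivAt (fun t : ℝ => qom B1 τ g1 g2 s
      (y + t * (-(B1 * (-(s * g2) + τ * y) / (g1 - τ * B1 * x))), x + t * 1)) 0 0 := by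
  obtain ⟨u, hu⟩ : ∃ u : ℝ, u = -(B1 * (-(s * g2) + τ * y) / (g1 - τ * B1 * x)) := ⟨_, rfl⟩
  have hu' : u * (g1 - τ * B1 * x) = -(B1 * (-(s * g2) + τ * y)) := by
    rw [hu, neg_mul, div_mul_cancel₀ _ hG]
  rw [← hu]
  refine hd_ratio (f := fun t => 2 * (g1 * (y + t * u) - s * g2 * B1 * (x + t * 1)))
    (g := fun t => g1 - τ * B1 * (x + t * 1))
    (hd_of_eq (2 * (g1 * y - s * g2 * B1 * x)) (2 * (g1 * u - s * g2 * B1)) 0
      (fun t => by ring))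
    (hd_of_eq (g1 - τ * B1 * x) (-(τ * B1)) 0 (fun t => by ring)) (by simpa using hG) 0 ?_
  simp only [zero_mul, add_zero]
  linear_combination (2 * g1) * hu'

/-- The derivative of `sg` in the kernel direction. -/
theorem qsg_ker (B1 B2 τ P g1 g2 s y x e : ℝ) (hD : qD1 B1 B2 τ P g1 g2 x ≠ 0)
    (he : e * ((g2 - τ * B2 * x) * qD1 B1 B2 τ P g1 g2 x) =
      (s * g1 + τ * y) * (B2 * qD1 B1 B2 τ P g1 g2 x + 2 * B1 * (g2 - τ * B2 * x) ^ 2)) :
    HasDerivAt (fun t : ℝ => qsg B1 B2 τ P g1 g2 s (y + t * e, x + t * 1)) 0 0 := by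
  have hf : HasDerivAt (fun t : ℝ => -(2 * (g1 * (g2 - τ * B2 * (x + t * 1)) * (y + t * e) -
      s * g1 ^ 2 * B2 * (x + t * 1) -
      s * g2 * B1 * (P + 2 * g2 * (x + t * 1) - τ * B2 * (x + t * 1) ^ 2))))
      (-(2 * (g1 * (g2 - τ * B2 * x) * e - g1 * τ * B2 * y - s * g1 ^ 2 * B2 -
        s * g2 * B1 * (2 * g2 - 2 * τ * B2 * x)))) 0 :=
    hd_of_eq (-(2 * (g1 * (g2 - τ * B2 * x) * y - s * g1 ^ 2 * B2 * x -
      s * g2 * B1 * (P + 2 * g2 * x - τ * B2 * x ^ 2)))) _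
      (2 * (g1 * τ * B2 * e) - 2 * (s * g2 * B1 * τ * B2)) (fun t => by ring)
  have hg : HasDerivAt (fun t : ℝ => qD1 B1 B2 τ P g1 g2 (x + t * 1))
      (τ * B1 * (2 * g2 - 2 * τ * B2 * x)) 0 :=
    hd_of_eq (qD1 B1 B2 τ P g1 g2 x) _ (-(τ * B1 * (τ * B2))) (fun t => by unfold qD1; ring)
  refine hd_ratio hf hg (by simpa using hD) 0 ?_
  simp only [zero_mul, add_zero]
  unfold qD1 at he ⊢
  linear_combination (-2 * g1) * he

/-- The value of `N₀` and its derivative. -/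
theorem qN0_e (B1 B2 τ P g1 g2 s Y1 X1 Y2 X2 e : ℝ) :
    HasDerivAt (fun t : ℝ => qNn B1 B2 τ P g1 g2 s (Y1, X1) (Y2 + t * e, X2 + t * 1))
      (B2 * (τ * e) * (P + 2 * g1 * X1 + 2 * g2 * X2 - τ * (B1 * X1 ^ 2 + B2 * X2 ^ 2)) +
        B2 * (s * g1 + τ * Y2) * (2 * (g2 - τ * B2 * X2)) -
        τ * B2 * ((g1 - τ * B1 * X1) * Y1 + (g2 - τ * B2 * X2) * Y2 + s * g2 * B1 * X1 -
          s * g1 * B2 * X2) +
        (g2 - τ * B2 * X2) * ((g2 - τ * B2 * X2) * e - B2 * (s * g1 + τ * Y2))) 0 := by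
  have hE : HasDerivAt (fun t : ℝ => B2 * (s * g1 + τ * (Y2 + t * e))) (B2 * (τ * e)) 0 :=
    hd_of_eq (B2 * (s * g1 + τ * Y2)) _ 0 (fun t => by ring)
  have hQ : HasDerivAt (fun t : ℝ => P + 2 * g1 * X1 + 2 * g2 * (X2 + t * 1) -
      τ * (B1 * X1 ^ 2 + B2 * (X2 + t * 1) ^ 2)) (2 * (g2 - τ * B2 * X2)) 0 :=
    hd_of_eq (P + 2 * g1 * X1 + 2 * g2 * X2 - τ * (B1 * X1 ^ 2 + B2 * X2 ^ 2)) _
      (-(τ * B2)) (fun t => by ring)
  have hG : HasDerivAt (fun t : ℝ => g2 - τ * B2 * (X2 + t * 1)) (-(τ * B2)) 0 :=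
    hd_of_eq (g2 - τ * B2 * X2) _ 0 (fun t => by ring)
  have hU : HasDerivAt (fun t : ℝ => (g1 - τ * B1 * X1) * Y1 +
      (g2 - τ * B2 * (X2 + t * 1)) * (Y2 + t * e) + s * g2 * B1 * X1 - s * g1 * B2 * (X2 + t * 1))
      ((g2 - τ * B2 * X2) * e - B2 * (s * g1 + τ * Y2)) 0 :=
    hd_of_eq ((g1 - τ * B1 * X1) * Y1 + (g2 - τ * B2 * X2) * Y2 + s * g2 * B1 * X1 -
      s * g1 * B2 * X2) _ (-(τ * B2 * e)) (fun t => by ring)
  have h := (hE.fun_mul hQ).fun_add (hG.fun_mul hU)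
  refine HasDerivAt.congr_deriv h ?_
  simp only [zero_mul, add_zero]
  ring

/-- The derivative of `N` in the direction `u`. -/
theorem qNn_u (B1 B2 τ P g1 g2 s Y1 X1 u : ℝ) (v : ℝ × ℝ)
    (hu : u * (g1 - τ * B1 * X1) = -(B1 * (-(s * g2) + τ * Y1))) :
    HasDerivAt (fun t : ℝ => qNn B1 B2 τ P g1 g2 s (Y1 + t * u, X1 + t * 1) v)
      (2 * (g1 - τ * B1 * X1) * (B2 * (s * g1 + τ * v.1)) -
        2 * (B1 * (-(s * g2) + τ * Y1)) * (g2 - τ * B2 * v.2)) 0 := by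
  refine hd_of_eq (qNn B1 B2 τ P g1 g2 s (Y1, X1) v) _
    (-(B2 * (s * g1 + τ * v.1) * τ * B1) - (g2 - τ * B2 * v.2) * τ * B1 * u) (fun t => ?_)
  unfold qNn
  simp only
  linear_combination (g2 - τ * B2 * v.2) * t * hu

/-- `∂ᵤ Γ`. -/
theorem qG_u (B1 B2 τ P g1 g2 s Y1 X1 u : ℝ) (v : ℝ × ℝ)
    (hu : u * (g1 - τ * B1 * X1) = -(B1 * (-(s * g2) + τ * Y1)))
    (hG : g1 - τ * B1 * X1 ≠ 0) (hD : qD1 B1 B2 τ P g1 g2 v.2 ≠ 0) :
    HasDerivAt (fun t : ℝ => qG B1 B2 τ P g1 g2 s (Y1 + t * u, X1 + t * 1) v)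
      (-(2 * g1 * ((2 * (g1 - τ * B1 * X1) * (B2 * (s * g1 + τ * v.1)) -
        2 * (B1 * (-(s * g2) + τ * Y1)) * (g2 - τ * B2 * v.2)) * (g1 - τ * B1 * X1) +
        τ * B1 * qNn B1 B2 τ P g1 g2 s (Y1, X1) v)) /
        ((g1 - τ * B1 * X1) ^ 2 * qD1 B1 B2 τ P g1 g2 v.2)) 0 := by
  have h1 := ((qNn_u B1 B2 τ P g1 g2 s Y1 X1 u v hu).const_mul (2 * g1)).fun_neg
  have h2 : HasDerivAt (fun t : ℝ => (g1 - τ * B1 * (X1 + t * 1)) * qD1 B1 B2 τ P g1 g2 v.2)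
      (-(τ * B1) * qD1 B1 B2 τ P g1 g2 v.2) 0 :=
    hd_of_eq ((g1 - τ * B1 * X1) * qD1 B1 B2 τ P g1 g2 v.2) _ 0 (fun t => by ring)
  refine hd_ratio h1 h2 (by simpa using ⟨hG, hD⟩) _ ?_
  simp only [zero_mul, add_zero]
  field_simp
  ring

/-- The derivative of `D₁`. -/
theorem qD1_e (B1 B2 τ P g1 g2 X2 : ℝ) :
    HasDerivAt (fun t : ℝ => qD1 B1 B2 τ P g1 g2 (X2 + t * 1))
      (τ * B1 * (2 * (g2 - τ * B2 * X2))) 0 :=
  hd_of_eq (qD1 B1 B2 τ P g1 g2 X2) _ (-(τ * B1 * (τ * B2))) (fun t => by unfold qD1; ring)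

/-- Algebra. -/
theorem nd_alg (g1 G D D' N0 Nt Ne Nte k : ℝ) (hG : G ≠ 0) (hD : D ≠ 0) :
    (-(2 * g1 * N0) / (G * D)) *
      (-(2 * g1 * ((Nte * G + k * Ne) * D - (Nt * G + k * N0) * D')) / (G ^ 2 * D ^ 2)) -
      (-(2 * g1 * (Nt * G + k * N0)) / (G ^ 2 * D)) *
        (-(2 * g1 * (Ne * D - N0 * D')) / (G * D ^ 2)) =
    4 * g1 ^ 2 * (N0 * Nte - Nt * Ne) / (G ^ 2 * D ^ 2) := by
  field_simp
  ring

/-- The main identity. -/
theorem nd_main (τ B1 B2 G1 G2 Q D U η1 η2 e N0 Nt Ne Nte Δ : ℝ) (hG1 : G1 ≠ 0) (hG2 : G2 ≠ 0)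
    (hD : D = G1 ^ 2 + τ * B1 * Q) (hU : τ * U = G1 * η1 + G2 * η2)
    (hN : G1 * U = -(B1 * η1 * Q)) (he : e * (G2 * D) = η2 * (B2 * D + 2 * B1 * G2 ^ 2))
    (h0 : N0 = B2 * η2 * Q + G2 * U) (ht : Nt = 2 * (G1 * B2 * η2 - B1 * η1 * G2))
    (h1 : Ne = e * (τ * B2 * Q + G2 ^ 2) + B2 * η2 * G2 - τ * B2 * U)
    (h2 : Nte = 2 * τ * B2 * (G1 * e + B1 * η1)) (hΔ : Δ = B2 * D + B1 * G2 ^ 2) :
    (N0 * Nte - Nt * Ne) * D ^ 2 = -(4 * G1 * G2 * η2 ^ 2 * Δ ^ 2) := by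
  have a1 : η1 * D = -(G1 * G2 * η2) := by
    rw [hD]
    linear_combination τ * hN - G1 * hU
  have a2 : U * D = B1 * G2 * η2 * Q := by
    refine mul_left_cancel₀ hG1 ?_
    linear_combination D * hN - B1 * Q * a1
  have b0 : N0 * D = η2 * Q * Δ := by
    rw [h0, hΔ]
    linear_combination G2 * a2
  have bt : Nt * D = 2 * η2 * G1 * Δ := by
    rw [ht, hΔ]
    linear_combination (-2 * B1 * G2) * a1
  have b2 : Nte * (G2 * D) = 2 * τ * B2 * G1 * η2 * Δ := by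
    rw [h2, hΔ]
    linear_combination (2 * τ * B2 * G1) * he + (2 * τ * B2 * B1 * G2) * a1
  have b1 : Ne * (G2 * D) = η2 * ((B2 * D + 2 * B1 * G2 ^ 2) * (τ * B2 * Q + G2 ^ 2) +
      B2 * G2 ^ 2 * D - τ * B1 * B2 * G2 ^ 2 * Q) := by
    rw [h1]
    linear_combination (τ * B2 * Q + G2 ^ 2) * he - (τ * B2 * G2) * a2
  refine mul_left_cancel₀ hG2 ?_
  calc G2 * ((N0 * Nte - Nt * Ne) * D ^ 2) =
      (N0 * D) * (Nte * (G2 * D)) - (Nt * D) * (Ne * (G2 * D)) := by ring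
    _ = _ := by
      rw [b0, bt, b2, b1, hΔ]
      ring

/-- The nondegeneracy for the closed forms. -/
theorem qnd (B1 B2 τ P g1 g2 s Y1 X1 Y2 X2 : ℝ) (hg1 : g1 ≠ 0) (hG1 : g1 - τ * B1 * X1 ≠ 0)
    (hG2 : g2 - τ * B2 * X2 ≠ 0) (hD : qD1 B1 B2 τ P g1 g2 X2 ≠ 0)
    (hη : s * g1 + τ * Y2 ≠ 0)
    (hΔ : B2 * qD1 B1 B2 τ P g1 g2 X2 + B1 * (g2 - τ * B2 * X2) ^ 2 ≠ 0)
    (hN : qom B1 τ g1 g2 s (Y1, X1) - qsg B1 B2 τ P g1 g2 s (Y2, X2) = 0) :
    ∃ (u e : ℝ) (Gu : ℝ → ℝ) (Ge Gue : ℝ),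
      HasDerivAt (fun t : ℝ => qom B1 τ g1 g2 s (Y1 + t * u, X1 + t * 1)) 0 0 ∧
      HasDerivAt (fun t : ℝ => qsg B1 B2 τ P g1 g2 s (Y2 + t * e, X2 + t * 1)) 0 0 ∧
      (∀ t' : ℝ, qD1 B1 B2 τ P g1 g2 (X2 + t' * 1) ≠ 0 →
        HasDerivAt (fun t : ℝ => qG B1 B2 τ P g1 g2 s (Y1 + t * u, X1 + t * 1)
          (Y2 + t' * e, X2 + t' * 1)) (Gu t') 0) ∧
      HasDerivAt (fun t' : ℝ => qG B1 B2 τ P g1 g2 s (Y1, X1) (Y2 + t' * e, X2 + t' * 1)) Ge 0 ∧
      HasDerivAt Gu Gue 0 ∧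
      qG B1 B2 τ P g1 g2 s (Y1, X1) (Y2, X2) * Gue ≠ Gu 0 * Ge := by
  obtain ⟨G1, hG1e⟩ : ∃ G : ℝ, G = g1 - τ * B1 * X1 := ⟨_, rfl⟩
  obtain ⟨G2, hG2e⟩ : ∃ G : ℝ, G = g2 - τ * B2 * X2 := ⟨_, rfl⟩
  obtain ⟨D, hDe⟩ : ∃ D : ℝ, D = qD1 B1 B2 τ P g1 g2 X2 := ⟨_, rfl⟩
  obtain ⟨Q, hQe⟩ : ∃ Q : ℝ, Q = P + 2 * g1 * X1 + 2 * g2 * X2 - τ * (B1 * X1 ^ 2 + B2 * X2 ^ 2) :=
    ⟨_, rfl⟩
  obtain ⟨U, hUe⟩ : ∃ U : ℝ, U = (g1 - τ * B1 * X1) * Y1 + (g2 - τ * B2 * X2) * Y2 +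
    s * g2 * B1 * X1 - s * g1 * B2 * X2 := ⟨_, rfl⟩
  obtain ⟨η1, hη1⟩ : ∃ η : ℝ, η = -(s * g2) + τ * Y1 := ⟨_, rfl⟩
  obtain ⟨η2, hη2⟩ : ∃ η : ℝ, η = s * g1 + τ * Y2 := ⟨_, rfl⟩
  obtain ⟨u, hu⟩ : ∃ u : ℝ, u = -(B1 * (-(s * g2) + τ * Y1) / (g1 - τ * B1 * X1)) := ⟨_, rfl⟩
  have hu' : u * (g1 - τ * B1 * X1) = -(B1 * (-(s * g2) + τ * Y1)) := by
    rw [hu, neg_mul, div_mul_cancel₀ _ hG1]
  obtain ⟨e, he⟩ : ∃ e : ℝ, e = (s * g1 + τ * Y2) * (B2 * qD1 B1 B2 τ P g1 g2 X2 +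
    2 * B1 * (g2 - τ * B2 * X2) ^ 2) / ((g2 - τ * B2 * X2) * qD1 B1 B2 τ P g1 g2 X2) := ⟨_, rfl⟩
  have he' : e * ((g2 - τ * B2 * X2) * qD1 B1 B2 τ P g1 g2 X2) =
      (s * g1 + τ * Y2) * (B2 * qD1 B1 B2 τ P g1 g2 X2 + 2 * B1 * (g2 - τ * B2 * X2) ^ 2) := by
    rw [he, div_mul_cancel₀ _ (mul_ne_zero hG2 hD)]
  obtain ⟨N0, hN0⟩ : ∃ N : ℝ, N = qNn B1 B2 τ P g1 g2 s (Y1, X1) (Y2, X2) := ⟨_, rfl⟩
  obtain ⟨Ne, hNe⟩ : ∃ N : ℝ, N = (B2 * (τ * e) * (P + 2 * g1 * X1 + 2 * g2 * X2 -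
      τ * (B1 * X1 ^ 2 + B2 * X2 ^ 2)) +
        B2 * (s * g1 + τ * Y2) * (2 * (g2 - τ * B2 * X2)) -
        τ * B2 * ((g1 - τ * B1 * X1) * Y1 + (g2 - τ * B2 * X2) * Y2 + s * g2 * B1 * X1 -
          s * g1 * B2 * X2) +
        (g2 - τ * B2 * X2) * ((g2 - τ * B2 * X2) * e - B2 * (s * g1 + τ * Y2))) := ⟨_, rfl⟩
  have hNd := qN0_e B1 B2 τ P g1 g2 s Y1 X1 Y2 X2 e
  rw [← hNe] at hNd
  have hDd := qD1_e B1 B2 τ P g1 g2 X2
  obtain ⟨D', hD'⟩ : ∃ D' : ℝ, D' = τ * B1 * (2 * (g2 - τ * B2 * X2)) := ⟨_, rfl⟩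
  rw [← hD'] at hDd
  obtain ⟨Nt, hNt⟩ : ∃ N : ℝ, N = 2 * (G1 * B2 * η2 - B1 * η1 * G2) := ⟨_, rfl⟩
  obtain ⟨Nte, hNte⟩ : ∃ N : ℝ, N = 2 * τ * B2 * (G1 * e + B1 * η1) := ⟨_, rfl⟩
  have hNtd : HasDerivAt (fun t' : ℝ => 2 * (g1 - τ * B1 * X1) * (B2 * (s * g1 + τ *
      (Y2 + t' * e))) - 2 * (B1 * (-(s * g2) + τ * Y1)) * (g2 - τ * B2 * (X2 + t' * 1))) Nte 0 := by
    rw [hNte, hG1e, hη1]
    exact hd_of_eq (2 * (g1 - τ * B1 * X1) * (B2 * (s * g1 + τ * Y2)) -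
      2 * (B1 * (-(s * g2) + τ * Y1)) * (g2 - τ * B2 * X2)) _ 0 (fun t => by ring)
  have hnum : HasDerivAt (fun t' : ℝ => -(2 * g1 * ((2 * (g1 - τ * B1 * X1) * (B2 * (s * g1 + τ *
      (Y2 + t' * e))) - 2 * (B1 * (-(s * g2) + τ * Y1)) * (g2 - τ * B2 * (X2 + t' * 1))) *
        (g1 - τ * B1 * X1) +
        τ * B1 * qNn B1 B2 τ P g1 g2 s (Y1, X1) (Y2 + t' * e, X2 + t' * 1))))
      (-(2 * g1 * (Nte * G1 + τ * B1 * Ne))) 0 := by
    rw [hG1e]
    exact (((hNtd.mul_const _).fun_add (hNd.const_mul (τ * B1))).const_mul (2 * g1)).fun_neg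
  have hden : HasDerivAt (fun t' : ℝ => (g1 - τ * B1 * X1) ^ 2 *
      qD1 B1 B2 τ P g1 g2 (X2 + t' * 1)) (G1 ^ 2 * D') 0 := by
    rw [hG1e]
    exact hDd.const_mul _
  have z0 : ∀ x y : ℝ, x + 0 * y = x := fun x y => by ring
  refine ⟨u, e, fun t' => -(2 * g1 * ((2 * (g1 - τ * B1 * X1) * (B2 * (s * g1 + τ *
      (Y2 + t' * e))) - 2 * (B1 * (-(s * g2) + τ * Y1)) * (g2 - τ * B2 * (X2 + t' * 1))) *
        (g1 - τ * B1 * X1) +
        τ * B1 * qNn B1 B2 τ P g1 g2 s (Y1, X1) (Y2 + t' * e, X2 + t' * 1))) /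
        ((g1 - τ * B1 * X1) ^ 2 * qD1 B1 B2 τ P g1 g2 (X2 + t' * 1)),
    -(2 * g1 * (Ne * D - N0 * D')) / (G1 * D ^ 2),
    -(2 * g1 * ((Nte * G1 + τ * B1 * Ne) * D - (Nt * G1 + τ * B1 * N0) * D')) / (G1 ^ 2 * D ^ 2),
    ?_, ?_, ?_, ?_, ?_, ?_⟩
  · rw [hu]
    exact qom_ker B1 τ g1 g2 s Y1 X1 hG1
  · exact qsg_ker B1 B2 τ P g1 g2 s Y2 X2 e hD he'
  · intro t' ht'
    exact qG_u B1 B2 τ P g1 g2 s Y1 X1 u (Y2 + t' * e, X2 + t' * 1) hu' hG1 ht'
  · have h1 := (hNd.const_mul (2 * g1)).fun_neg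
    have h2 : HasDerivAt (fun t' : ℝ => (g1 - τ * B1 * X1) *
        qD1 B1 B2 τ P g1 g2 (X2 + t' * 1)) (G1 * D') 0 := by
      rw [hG1e]
      exact hDd.const_mul _
    refine hd_ratio h1 h2 (by simpa using ⟨hG1, hD⟩) _ ?_
    simp only [z0]
    rw [← hN0, ← hDe, ← hG1e]
    have : G1 ≠ 0 := by rw [hG1e]; exact hG1
    have : D ≠ 0 := by rw [hDe]; exact hD
    field_simp
    ring
  · refine hd_ratio hnum hden (by simpa using ⟨hG1, hD⟩) _ ?_
    simp only [z0]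
    rw [← hN0, ← hDe, ← hG1e, ← hη1, ← hη2, ← hG2e]
    have h3 : G1 ≠ 0 := by rw [hG1e]; exact hG1
    have h4 : D ≠ 0 := by rw [hDe]; exact hD
    have h5 : 2 * G1 * (B2 * η2) - 2 * (B1 * η1) * G2 = Nt := by rw [hNt]; ring
    rw [h5]
    field_simp
    ring
  · have h3 : G1 ≠ 0 := by rw [hG1e]; exact hG1
    have h4 : D ≠ 0 := by rw [hDe]; exact hD
    have h6 : G2 ≠ 0 := by rw [hG2e]; exact hG2
    have h7 : η2 ≠ 0 := by rw [hη2]; exact hη
    simp only [z0]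
    unfold qG
    simp only
    rw [← hN0, ← hDe, ← hG1e, ← hη1, ← hη2, ← hG2e]
    have h5 : 2 * G1 * (B2 * η2) - 2 * (B1 * η1) * G2 = Nt := by rw [hNt]; ring
    rw [h5, ← sub_ne_zero, nd_alg g1 G1 D D' N0 Nt Ne Nte (τ * B1) h3 h4]
    have hDG : D = G1 ^ 2 + τ * B1 * Q := by
      rw [hDe, hG1e, hQe]
      unfold qD1
      ring
    have hUU : τ * U = G1 * η1 + G2 * η2 := by
      rw [hUe, hG1e, hη1, hG2e, hη2]
      ring
    have hNN : G1 * U = -(B1 * η1 * Q) := by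
      have k1 : (g1 * Y1 - s * g2 * B1 * X1) * D + G1 * (g1 * G2 * Y2 - s * g1 ^ 2 * B2 * X2 -
          s * g2 * B1 * (P + 2 * g2 * X2 - τ * B2 * X2 ^ 2)) = 0 := by
        unfold qom qsg at hN
        simp only at hN
        rw [← hG1e, ← hG2e, ← hDe, div_sub_div _ _ h3 h4, div_eq_zero_iff] at hN
        rcases hN with hN | hN
        · linear_combination (1 / 2) * hN
        · exact absurd hN (mul_ne_zero h3 h4)
      have k2 : (g1 * Y1 - s * g2 * B1 * X1) * D + G1 * (g1 * G2 * Y2 - s * g1 ^ 2 * B2 * X2 -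
          s * g2 * B1 * (P + 2 * g2 * X2 - τ * B2 * X2 ^ 2)) = g1 * (B1 * η1 * Q + G1 * U) := by
        rw [hDe, hG1e, hG2e, hQe, hUe, hη1]
        unfold qD1
        ring
      rw [k2] at k1
      rcases mul_eq_zero.1 k1 with k1 | k1
      · exact absurd k1 hg1
      · linear_combination k1
    have h8 := nd_main τ B1 B2 G1 G2 Q D U η1 η2 e N0 Nt Ne Nte
      (B2 * D + B1 * G2 ^ 2) h3 h6 hDG hUU hNN (by rw [hG2e, hDe, hη2]; exact he')
      (by rw [hN0, hη2, hQe, hG2e, hUe]; unfold qNn; ring) hNt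
      (by rw [hNe, hQe, hη2, hG2e, hUe]; ring) hNte rfl
    have h9 : B2 * D + B1 * G2 ^ 2 ≠ 0 := by rw [hDe, hG2e]; exact hΔ
    have h10 : N0 * Nte - Nt * Ne ≠ 0 := by
      intro h
      rw [h, zero_mul] at h8
      have : 4 * G1 * G2 * η2 ^ 2 * (B2 * D + B1 * G2 ^ 2) ^ 2 ≠ 0 :=
        mul_ne_zero (mul_ne_zero (mul_ne_zero (mul_ne_zero four_ne_zero h3) h6)
          (pow_ne_zero 2 h7)) (pow_ne_zero 2 h9)
      exact this (by linarith)
    exact div_ne_zero (mul_ne_zero (mul_ne_zero four_ne_zero (pow_ne_zero 2 hg1)) h10)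
      (mul_ne_zero (pow_ne_zero 2 h3) (pow_ne_zero 2 h4))

end Pool.Agent.SDT.N1G.Qf

end -- N1G.Qd0

section -- N1Q.Bd2

/-!
N1Q, block Q1, part 2: counting cells.
-/

namespace Pool.Agent.SDT.N1Q

open Set

/-- Conditions on the set where everything takes place. -/
structure Band (C1 h : ℝ) (S : Set (ℝ × ℝ)) : Prop where
  H0 : ∀ x ∈ S, |x.1| ≤ C1
  H1 : ∀ x ∈ S, ∀ x' ∈ S, |x.2 - x'.2| ≤ C1 * (|x.1 - x'.1| + h)
  H2 : ∀ x x' y : ℝ × ℝ, x ∈ S → x - y ∈ S → x' ∈ S → x' - y ∈ S →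
    |x.1 - x'.1| * |y.1| ≤ C1 * h

/-- The cell of a point. -/
noncomputable def cel (h : ℝ) (x : ℝ × ℝ) : ℤ × ℤ := (⌊x.1 / h⌋, ⌊x.2 / h⌋)

theorem fl_diff {h a b : ℝ} (hh : 0 < h) : |((⌊a / h⌋ - ⌊b / h⌋ : ℤ) : ℝ)| < |a - b| / h + 1 := by
  have h1 := Int.floor_le (a / h)
  have h2 := Int.lt_floor_add_one (a / h)
  have h3 := Int.floor_le (b / h)
  have h4 := Int.lt_floor_add_one (b / h)
  have e : |a - b| / h = |a / h - b / h| := by
    rw [← sub_div, abs_div, abs_of_pos hh]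
  rw [e]
  push_cast
  rw [abs_lt]
  have h5 := le_abs_self (a / h - b / h)
  have h6 := neg_abs_le (a / h - b / h)
  constructor <;> linarith

theorem fl_diff_le {h a b C : ℝ} {m : ℕ} (hh : 0 < h) (hab : |a - b| ≤ C * h)
    (hm : C + 1 ≤ m) : |⌊a / h⌋ - ⌊b / h⌋| ≤ (m : ℤ) := by
  have h1 := fl_diff (a := a) (b := b) hh
  have h2 : |a - b| / h ≤ C := by rwa [div_le_iff₀ hh]
  have h3 : |((⌊a / h⌋ - ⌊b / h⌋ : ℤ) : ℝ)| < m := by linarith
  have h4 : ((|⌊a / h⌋ - ⌊b / h⌋| : ℤ) : ℝ) < ((m : ℤ) : ℝ) := by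
    rw [Int.cast_abs]
    exact_mod_cast h3
  exact (Int.cast_lt.1 h4).le

theorem fl_eq_lt {h a b : ℝ} (hh : 0 < h) (hab : ⌊a / h⌋ = ⌊b / h⌋) : |a - b| < h := by
  have h1 := Int.floor_le (a / h)
  have h2 := Int.lt_floor_add_one (a / h)
  have h3 := Int.floor_le (b / h)
  have h4 := Int.lt_floor_add_one (b / h)
  rw [hab] at h1 h2
  have h5 : |a / h - b / h| < 1 := by
    rw [abs_lt]
    constructor <;> linarith
  rw [← sub_div, abs_div, abs_of_pos hh, div_lt_one hh] at h5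
  exact h5

theorem card_Icc_int (c : ℤ) (m : ℕ) : (Finset.Icc (c - m) (c + m)).card = 2 * m + 1 := by
  rw [Int.card_Icc]
  omega

/-- A set of integers in an interval of real radius. -/
theorem card_of_near (s : Finset ℤ) (c : ℤ) (L : ℝ) (hL : 0 ≤ L)
    (h : ∀ i ∈ s, |((i - c : ℤ) : ℝ)| ≤ L) : (s.card : ℝ) ≤ 2 * L + 1 := by
  have h1 : s ⊆ Finset.Icc (c - (⌊L⌋₊ : ℤ)) (c + (⌊L⌋₊ : ℤ)) := by
    intro i hi
    have h2 := h i hi
    have h3 : ((i - c).natAbs : ℝ) ≤ L := by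
      rw [Nat.cast_natAbs, Int.cast_abs]
      exact h2
    have h4 : (i - c).natAbs ≤ ⌊L⌋₊ := Nat.le_floor h3
    rw [Finset.mem_Icc]
    omega
  have h2 := Finset.card_le_card h1
  rw [card_Icc_int] at h2
  have h3 : (s.card : ℝ) ≤ ((2 * ⌊L⌋₊ + 1 : ℕ) : ℝ) := Nat.cast_le.2 h2
  push_cast at h3
  have h4 := Nat.floor_le hL
  linarith

/-- The pairs of cells which occur at `y`. -/
def Occ (h : ℝ) (S : Set (ℝ × ℝ)) (y : ℝ × ℝ) (p : (ℤ × ℤ) × (ℤ × ℤ)) : Prop :=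
  ∃ x, x ∈ S ∧ x - y ∈ S ∧ cel h x = p.1 ∧ cel h (x - y) = p.2

theorem count_fib {C1 h : ℝ} {S : Set (ℝ × ℝ)} (hC : 1 ≤ C1) (hh : 0 < h) (hB : Band C1 h S)
    (y : ℝ × ℝ) (P : Finset ((ℤ × ℤ) × (ℤ × ℤ))) (hP : ∀ p ∈ P, Occ h S y p) (m : ℕ)
    (hm : 2 * C1 + 1 ≤ m) (i : ℤ) : (P.filter fun p => p.1.1 = i).card ≤ (2 * m + 1) ^ 3 := by
  classical
  rcases (P.filter fun p => p.1.1 = i).eq_empty_or_nonempty with h0 | ⟨p0, hp0⟩
  · rw [h0]
    simp
  rw [Finset.mem_filter] at hp0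
  obtain ⟨x0, a1, a2, a3, a4⟩ := hP p0 hp0.1
  have hsub : (P.filter fun p => p.1.1 = i) ⊆
      (({i} : Finset ℤ) ×ˢ Finset.Icc (p0.1.2 - m) (p0.1.2 + m)) ×ˢ
        (Finset.Icc (p0.2.1 - m) (p0.2.1 + m) ×ˢ Finset.Icc (p0.2.2 - m) (p0.2.2 + m)) := by
    intro p hp
    rw [Finset.mem_filter] at hp
    obtain ⟨x, b1, b2, b3, b4⟩ := hP p hp.1
    have e1 : ⌊x.1 / h⌋ = ⌊x0.1 / h⌋ := by
      have c1 : ⌊x.1 / h⌋ = p.1.1 := congrArg Prod.fst b3
      have c2 : ⌊x0.1 / h⌋ = p0.1.1 := congrArg Prod.fst a3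
      rw [c1, c2, hp.2, hp0.2]
    have e2 := fl_eq_lt hh e1
    have e3 : |x.2 - x0.2| ≤ 2 * C1 * h := by
      refine (hB.H1 x b1 x0 a1).trans ?_
      calc C1 * (|x.1 - x0.1| + h) ≤ C1 * (h + h) := by
            refine mul_le_mul_of_nonneg_left ?_ (by linarith)
            linarith
        _ = 2 * C1 * h := by ring
    have e4 : |x.1 - x0.1| ≤ 2 * C1 * h := by nlinarith
    have e5 : |(x - y).2 - (x0 - y).2| ≤ 2 * C1 * h := by
      have : (x - y).2 - (x0 - y).2 = x.2 - x0.2 := by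
        simp only [Prod.snd_sub]
        ring
      rw [this]
      exact e3
    have e6 : |(x - y).1 - (x0 - y).1| ≤ 2 * C1 * h := by
      have : (x - y).1 - (x0 - y).1 = x.1 - x0.1 := by
        simp only [Prod.fst_sub]
        ring
      rw [this]
      exact e4
    have f1 := fl_diff_le hh e3 hm
    have f2 := fl_diff_le hh e5 hm
    have f3 := fl_diff_le hh e6 hm
    have g1 : ⌊x.2 / h⌋ = p.1.2 := congrArg Prod.snd b3
    have g2 : ⌊x0.2 / h⌋ = p0.1.2 := congrArg Prod.snd a3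
    have g3 : ⌊(x - y).2 / h⌋ = p.2.2 := congrArg Prod.snd b4
    have g4 : ⌊(x0 - y).2 / h⌋ = p0.2.2 := congrArg Prod.snd a4
    have g5 : ⌊(x - y).1 / h⌋ = p.2.1 := congrArg Prod.fst b4
    have g6 : ⌊(x0 - y).1 / h⌋ = p0.2.1 := congrArg Prod.fst a4
    rw [g1, g2] at f1
    rw [g3, g4] at f2
    rw [g5, g6] at f3
    rw [abs_le] at f1 f2 f3
    simp only [Finset.mem_product, Finset.mem_singleton, Finset.mem_Icc]
    refine ⟨⟨hp.2, ?_, ?_⟩, ⟨?_, ?_⟩, ?_, ?_⟩ <;> linarith [f1.1, f1.2, f2.1, f2.2, f3.1, f3.2]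
  refine (Finset.card_le_card hsub).trans (le_of_eq ?_)
  rw [Finset.card_product, Finset.card_product, Finset.card_product, Finset.card_singleton,
    card_Icc_int, card_Icc_int, card_Icc_int]
  ring

/-- The number of pairs of cells which occur at `y`. -/
theorem count_P {C1 h : ℝ} {S : Set (ℝ × ℝ)} (hC : 1 ≤ C1) (hh : 0 < h) (hh1 : h ≤ 1)
    (hB : Band C1 h S) (y : ℝ × ℝ) (P : Finset ((ℤ × ℤ) × (ℤ × ℤ))) (hP : ∀ p ∈ P, Occ h S y p)
    (m : ℕ) (hm : 2 * C1 + 1 ≤ m) : ∀ p ∈ P,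
      (P.card : ℝ) * (h * (1 + |((p.1.1 - p.2.1 : ℤ) : ℝ)|)) ≤
        (2 * m + 1) ^ 3 * (14 * C1 + 6) := by
  classical
  intro p0 hp0
  obtain ⟨x0, a1, a2, a3, a4⟩ := hP p0 hp0
  obtain ⟨d, hd⟩ : ∃ d : ℝ, d = |((p0.1.1 - p0.2.1 : ℤ) : ℝ)| := ⟨_, rfl⟩
  have hd0 : 0 ≤ d := by rw [hd]; exact abs_nonneg _
  rw [← hd]
  have u1 : ⌊x0.1 / h⌋ = p0.1.1 := congrArg Prod.fst a3
  have u2 : ⌊(x0 - y).1 / h⌋ = p0.2.1 := congrArg Prod.fst a4
  have v1 := Int.floor_le (x0.1 / h)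
  have v2 := Int.lt_floor_add_one (x0.1 / h)
  have v3 := Int.floor_le ((x0 - y).1 / h)
  have v4 := Int.lt_floor_add_one ((x0 - y).1 / h)
  rw [u1] at v1 v2
  rw [u2] at v3 v4
  have hy : |y.1 / h - ((p0.1.1 - p0.2.1 : ℤ) : ℝ)| < 1 := by
    have e : (x0 - y).1 / h = x0.1 / h - y.1 / h := by
      rw [Prod.fst_sub, sub_div]
    rw [e] at v3 v4
    push_cast
    rw [abs_lt]
    constructor <;> linarith
  -- lower bound of y
  have hy1 : (d - 1) * h ≤ |y.1| := by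
    have e1 := abs_sub_abs_le_abs_sub ((p0.1.1 - p0.2.1 : ℤ) : ℝ) (y.1 / h)
    rw [abs_sub_comm, ← hd] at e1
    have e2 : |y.1 / h| = |y.1| / h := by rw [abs_div, abs_of_pos hh]
    rw [e2] at e1
    have e3 : d - 1 ≤ |y.1| / h := by linarith
    rwa [le_div_iff₀ hh] at e3
  have hy2 : d * h ≤ 2 * C1 + h := by
    have e1 := abs_sub_abs_le_abs_sub ((p0.1.1 - p0.2.1 : ℤ) : ℝ) (y.1 / h)
    rw [abs_sub_comm, ← hd] at e1
    have e2 : |y.1 / h| = |y.1| / h := by rw [abs_div, abs_of_pos hh]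
    rw [e2] at e1
    have e3 : |y.1| ≤ 2 * C1 := by
      have f1 := hB.H0 x0 a1
      have f2 := hB.H0 _ a2
      have f3 : y.1 = x0.1 - (x0 - y).1 := by
        rw [Prod.fst_sub]
        ring
      rw [f3]
      exact (abs_sub _ _).trans (by linarith)
    have e4 : d < |y.1| / h + 1 := by linarith
    have e5 : d * h < (|y.1| / h + 1) * h := mul_lt_mul_of_pos_right e4 hh
    rw [add_mul, div_mul_cancel₀ _ hh.ne', one_mul] at e5
    linarith
  -- distance of the points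
  have hdist : ∀ x, x ∈ S → x - y ∈ S → |x.1 - x0.1| * (1 + d) ≤ 4 * C1 := by
    intro x b1 b2
    have n1 := abs_nonneg (x.1 - x0.1)
    have f0 : |x.1 - x0.1| ≤ 2 * C1 := by
      have f1 := hB.H0 x b1
      have f2 := hB.H0 x0 a1
      exact (abs_sub _ _).trans (by linarith)
    have f1 := hB.H2 x x0 y b1 b2 a1 a2
    have f2 : |x.1 - x0.1| * ((d - 1) * h) ≤ C1 * h :=
      (mul_le_mul_of_nonneg_left hy1 n1).trans f1
    have f3 : |x.1 - x0.1| * (d - 1) ≤ C1 := by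
      have : |x.1 - x0.1| * (d - 1) * h ≤ C1 * h := by linarith
      exact le_of_mul_le_mul_right this hh
    rcases le_or_gt d 1 with g | g
    · nlinarith
    · rcases le_or_gt d 2 with g' | g'
      · -- d is an integer, so d = 2 or d = 1
        have hdz : d = 2 := by
          have : ∃ n : ℕ, d = n := ⟨(p0.1.1 - p0.2.1).natAbs, by
            rw [hd, Nat.cast_natAbs, Int.cast_abs]⟩
          obtain ⟨n, hn⟩ := this
          rw [hn] at g g' ⊢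
          have k1 : 1 < n := by exact_mod_cast g
          have k2 : n ≤ 2 := by exact_mod_cast g'
          have : n = 2 := by omega
          rw [this]
          norm_num
        rw [hdz] at f3 ⊢
        linarith
      · have : 1 + d ≤ 3 * (d - 1) := by linarith
        nlinarith
  -- the image
  have himg : ((P.image fun p => p.1.1).card : ℝ) ≤ 2 * (4 * C1 / (1 + d) / h + 1) + 1 := by
    refine card_of_near _ p0.1.1 _ (by positivity) ?_
    intro i hi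
    rw [Finset.mem_image] at hi
    obtain ⟨p, hp, rfl⟩ := hi
    obtain ⟨x, b1, b2, b3, b4⟩ := hP p hp
    have e1 := hdist x b1 b2
    have e2 : |x.1 - x0.1| ≤ 4 * C1 / (1 + d) := by
      rw [le_div_iff₀ (by linarith)]
      exact e1
    have e3 := fl_diff (a := x.1) (b := x0.1) hh
    have c1 : ⌊x.1 / h⌋ = p.1.1 := congrArg Prod.fst b3
    rw [c1, u1] at e3
    have e4 : |x.1 - x0.1| / h ≤ 4 * C1 / (1 + d) / h := div_le_div_of_nonneg_right e2 hh.le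
    linarith
  have hcard : P.card ≤ (2 * m + 1) ^ 3 * (P.image fun p => p.1.1).card :=
    Finset.card_le_mul_card_image P _ fun i _ => count_fib hC hh hB y P hP m hm i
  have hcard' : (P.card : ℝ) ≤ (2 * m + 1) ^ 3 * (P.image fun p => p.1.1).card := by
    exact_mod_cast hcard
  have hM : (0:ℝ) ≤ (2 * m + 1) ^ 3 := by positivity
  have hpos : 0 ≤ h * (1 + d) := by positivity
  calc (P.card : ℝ) * (h * (1 + d)) ≤ ((2 * m + 1) ^ 3 *
      (2 * (4 * C1 / (1 + d) / h + 1) + 1)) * (h * (1 + d)) :=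
        mul_le_mul_of_nonneg_right (hcard'.trans (mul_le_mul_of_nonneg_left himg hM)) hpos
    _ = (2 * m + 1) ^ 3 * (8 * C1 + 3 * (h * (1 + d))) := by
        have : (1 + d) ≠ 0 := by positivity
        field_simp
        ring
    _ ≤ (2 * m + 1) ^ 3 * (14 * C1 + 6) := by
        refine mul_le_mul_of_nonneg_left ?_ hM
        nlinarith

/-- Cells which meet `S`, with given first coordinate. -/
theorem count_A {C1 h : ℝ} {S : Set (ℝ × ℝ)} (hC : 1 ≤ C1) (hh : 0 < h) (hB : Band C1 h S)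
    (A : Finset (ℤ × ℤ)) (hA : ∀ J ∈ A, ∃ x ∈ S, cel h x = J) (m : ℕ)
    (hm : 2 * C1 + 1 ≤ m) (i : ℤ) : (A.filter fun J => J.1 = i).card ≤ 2 * m + 1 := by
  classical
  rcases (A.filter fun p => p.1 = i).eq_empty_or_nonempty with h0 | ⟨p0, hp0⟩
  · rw [h0]
    simp
  rw [Finset.mem_filter] at hp0
  obtain ⟨x0, a1, a3⟩ := hA p0 hp0.1
  have hsub : (A.filter fun p => p.1 = i) ⊆
      (({i} : Finset ℤ) ×ˢ Finset.Icc (p0.2 - m) (p0.2 + m)) := by
    intro p hp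
    rw [Finset.mem_filter] at hp
    obtain ⟨x, b1, b3⟩ := hA p hp.1
    have e1 : ⌊x.1 / h⌋ = ⌊x0.1 / h⌋ := by
      have c1 : ⌊x.1 / h⌋ = p.1 := congrArg Prod.fst b3
      have c2 : ⌊x0.1 / h⌋ = p0.1 := congrArg Prod.fst a3
      rw [c1, c2, hp.2, hp0.2]
    have e2 := fl_eq_lt hh e1
    have e3 : |x.2 - x0.2| ≤ 2 * C1 * h := by
      refine (hB.H1 x b1 x0 a1).trans ?_
      calc C1 * (|x.1 - x0.1| + h) ≤ C1 * (h + h) := by
            refine mul_le_mul_of_nonneg_left ?_ (by linarith)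
            linarith
        _ = 2 * C1 * h := by ring
    have f1 := fl_diff_le hh e3 hm
    have g1 : ⌊x.2 / h⌋ = p.2 := congrArg Prod.snd b3
    have g2 : ⌊x0.2 / h⌋ = p0.2 := congrArg Prod.snd a3
    rw [g1, g2] at f1
    rw [abs_le] at f1
    simp only [Finset.mem_product, Finset.mem_singleton, Finset.mem_Icc]
    refine ⟨hp.2, ?_, ?_⟩ <;> linarith [f1.1, f1.2]
  refine (Finset.card_le_card hsub).trans (le_of_eq ?_)
  rw [Finset.card_product, Finset.card_singleton, card_Icc_int]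
  ring

/-- Sum over the second cell. -/
theorem sum_A {C1 h : ℝ} {S : Set (ℝ × ℝ)} (hC : 1 ≤ C1) (hh : 0 < h) (hB : Band C1 h S)
    (A : Finset (ℤ × ℤ)) (hA : ∀ J ∈ A, ∃ x ∈ S, cel h x = J) (m : ℕ)
    (hm : 2 * C1 + 1 ≤ m) (i : ℤ) (N : ℕ) (hN : ∀ J ∈ A, (i - J.1).natAbs < N) :
    ∑ J ∈ A, 1 / (1 + |((i - J.1 : ℤ) : ℝ)|) ≤ 2 * (2 * m + 1) * (1 + Real.log N) := by
  classical
  have h1 : ∑ J ∈ A, 1 / (1 + |((i - J.1 : ℤ) : ℝ)|) =
      ∑ k ∈ Finset.range N, ∑ J ∈ A.filter (fun J => (i - J.1).natAbs = k),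
        1 / (1 + |((i - J.1 : ℤ) : ℝ)|) :=
    (Finset.sum_fiberwise_of_maps_to (fun J hJ => Finset.mem_range.2 (hN J hJ)) _).symm
  have h2 : ∀ k ∈ Finset.range N, ∑ J ∈ A.filter (fun J => (i - J.1).natAbs = k),
      1 / (1 + |((i - J.1 : ℤ) : ℝ)|) ≤ 2 * (2 * m + 1) * (1 / ((k : ℝ) + 1)) := by
    intro k _
    have e1 : ∀ J ∈ A.filter (fun J => (i - J.1).natAbs = k),
        1 / (1 + |((i - J.1 : ℤ) : ℝ)|) = 1 / ((k : ℝ) + 1) := by
      intro J hJ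
      rw [Finset.mem_filter] at hJ
      have : |((i - J.1 : ℤ) : ℝ)| = k := by
        rw [← hJ.2, Nat.cast_natAbs, Int.cast_abs]
      rw [this, add_comm]
    rw [Finset.sum_congr rfl e1, Finset.sum_const, nsmul_eq_mul]
    refine mul_le_mul_of_nonneg_right ?_ (by positivity)
    have e2 : A.filter (fun J => (i - J.1).natAbs = k) ⊆
        A.filter (fun J => J.1 = i - k) ∪ A.filter (fun J => J.1 = i + k) := by
      intro J hJ
      rw [Finset.mem_filter] at hJ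
      rw [Finset.mem_union, Finset.mem_filter, Finset.mem_filter]
      have : J.1 = i - k ∨ J.1 = i + k := by omega
      rcases this with h | h
      · exact Or.inl ⟨hJ.1, h⟩
      · exact Or.inr ⟨hJ.1, h⟩
    have e3 := (Finset.card_le_card e2).trans (Finset.card_union_le _ _)
    have e4 := count_A hC hh hB A hA m hm (i - k)
    have e5 := count_A hC hh hB A hA m hm (i + k)
    have e6 : (A.filter (fun J => (i - J.1).natAbs = k)).card ≤ 2 * (2 * m + 1) := by omega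
    exact_mod_cast e6
  rw [h1]
  refine (Finset.sum_le_sum h2).trans ?_
  rw [← Finset.mul_sum]
  refine mul_le_mul_of_nonneg_left ?_ (by positivity)
  have h3 := harmonic_le_one_add_log N
  have h4 : ((harmonic N : ℚ) : ℝ) = ∑ k ∈ Finset.range N, 1 / ((k : ℝ) + 1) := by
    unfold harmonic
    push_cast
    refine Finset.sum_congr rfl fun k _ => ?_
    rw [one_div]
  rw [h4] at h3
  exact h3

/-- The double sum. -/
theorem sum_AA {C1 h : ℝ} {S : Set (ℝ × ℝ)} (hC : 1 ≤ C1) (hh : 0 < h) (hh1 : h ≤ 1)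
    (hB : Band C1 h S) (A : Finset (ℤ × ℤ)) (hA : ∀ J ∈ A, ∃ x ∈ S, cel h x = J) (m : ℕ)
    (hm : 2 * C1 + 1 ≤ m) :
    ∑ p ∈ A ×ˢ A, 1 / (1 + |((p.1.1 - p.2.1 : ℤ) : ℝ)|) ≤
      (2 * m + 1) ^ 2 * (2 * (2 * C1 + 4) * (1 + Real.log (2 * C1 + 4))) *
        ((1 + Real.log (1 / h)) / h) := by
  classical
  -- bounds of the first coordinates
  have hi : ∀ J ∈ A, |((J.1 : ℤ) : ℝ)| ≤ C1 / h + 1 := by
    intro J hJ
    obtain ⟨x, hx, hxJ⟩ := hA J hJ
    have c1 : ⌊x.1 / h⌋ = J.1 := congrArg Prod.fst hxJ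
    have h0 := hB.H0 x hx
    have h1 := Int.floor_le (x.1 / h)
    have h2 := Int.lt_floor_add_one (x.1 / h)
    rw [c1] at h1 h2
    have h3 : |x.1 / h| ≤ C1 / h := by
      rw [abs_div, abs_of_pos hh]
      exact div_le_div_of_nonneg_right h0 hh.le
    rw [abs_le] at h3 ⊢
    constructor <;> linarith [h3.1, h3.2]
  obtain ⟨N, hN⟩ : ∃ N : ℕ, N = ⌊2 * (C1 / h + 1)⌋₊ + 1 := ⟨_, rfl⟩
  have hCh : 0 ≤ C1 / h := by positivity
  have hN1 : (N : ℝ) ≤ (2 * C1 + 4) / h := by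
    rw [hN]
    push_cast
    have h1 := Nat.floor_le (show 0 ≤ 2 * (C1 / h + 1) by positivity)
    have h2 : (1:ℝ) ≤ 1 / h := by rw [le_div_iff₀ hh]; linarith
    have h3 : (2 * C1 + 4) / h = 2 * (C1 / h) + 4 * (1 / h) := by ring
    rw [h3]
    linarith
  have hN0 : 1 ≤ N := by omega
  have hNr : (1:ℝ) ≤ N := by exact_mod_cast hN0
  have hnat : ∀ i : ℤ, |((i : ℤ) : ℝ)| ≤ C1 / h + 1 → ∀ J ∈ A, (i - J.1).natAbs < N := by
    intro i hi' J hJ
    have h1 := hi J hJ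
    have h2 : ((i - J.1).natAbs : ℝ) ≤ 2 * (C1 / h + 1) := by
      rw [Nat.cast_natAbs, Int.cast_abs]
      push_cast
      exact (abs_sub _ _).trans (by linarith)
    have h3 := Nat.le_floor h2
    omega
  have hcA : (A.card : ℝ) ≤ (2 * m + 1) * (2 * (C1 / h + 1) + 1) := by
    have h1 : A.card ≤ (2 * m + 1) * (A.image fun J => J.1).card :=
      Finset.card_le_mul_card_image A _ fun i _ => count_A hC hh hB A hA m hm i
    have h2 : ((A.image fun J => J.1).card : ℝ) ≤ 2 * (C1 / h + 1) + 1 := by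
      refine card_of_near _ 0 _ (by positivity) ?_
      intro i hi'
      rw [Finset.mem_image] at hi'
      obtain ⟨J, hJ, rfl⟩ := hi'
      rw [sub_zero]
      exact hi J hJ
    have h3 : (A.card : ℝ) ≤ (2 * m + 1) * (A.image fun J => J.1).card := by exact_mod_cast h1
    exact h3.trans (mul_le_mul_of_nonneg_left h2 (by positivity))
  have hlog : Real.log N ≤ Real.log (2 * C1 + 4) + Real.log (1 / h) := by
    rw [← Real.log_mul (by positivity) (by positivity)]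
    refine Real.log_le_log (by linarith) ?_
    rw [mul_one_div]
    exact hN1
  have hl1 : 0 ≤ Real.log (2 * C1 + 4) := Real.log_nonneg (by linarith)
  have hl2 : 0 ≤ Real.log (1 / h) := Real.log_nonneg (by rw [le_div_iff₀ hh]; linarith)
  have hl0 : 0 ≤ Real.log N := Real.log_nonneg hNr
  rw [Finset.sum_product]
  calc ∑ J ∈ A, ∑ J' ∈ A, 1 / (1 + |((J.1 - J'.1 : ℤ) : ℝ)|)
      ≤ ∑ J ∈ A, 2 * (2 * m + 1) * (1 + Real.log N) :=
        Finset.sum_le_sum fun J hJ => sum_A hC hh hB A hA m hm J.1 N (hnat J.1 (hi J hJ))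
    _ = A.card * (2 * (2 * m + 1) * (1 + Real.log N)) := by
        rw [Finset.sum_const, nsmul_eq_mul]
    _ ≤ ((2 * m + 1) * ((2 * C1 + 4) / h)) * (2 * (2 * m + 1) *
        ((1 + Real.log (2 * C1 + 4)) * (1 + Real.log (1 / h)))) := by
        have h2 : (1:ℝ) ≤ 1 / h := by rw [le_div_iff₀ hh]; linarith
        have h3 : (2 * C1 + 4) / h = 2 * (C1 / h) + 4 * (1 / h) := by ring
        refine mul_le_mul ?_ ?_ (by positivity) (by positivity)
        · refine hcA.trans (mul_le_mul_of_nonneg_left ?_ (by positivity))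
          rw [h3]
          linarith
        · refine mul_le_mul_of_nonneg_left ?_ (by positivity)
          nlinarith [mul_nonneg hl1 hl2]
    _ = _ := by ring

end Pool.Agent.SDT.N1Q

end -- N1Q.Bd2
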