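import Pool.Agent.SDT.B01
import Pool.Agent.SDT.B03

set_option autoImplicit false

namespace Pool.Agent.SDT.MP_6cbfb8_an
end Pool.Agent.SDT.MP_6cbfb8_an

section -- MP_6cbfb8_an.Sphere

namespace Pool.Agent.SDT.MP_6cbfb8_an

open MeasureTheory Set
open scoped ENNReal Real RealInnerProductSpace Pointwise

theorem measurePreserving_isometry {n : ℕ} (R : E n ≃ₗᵢ[ℝ] E n) :
    MeasurePreserving (fun x : S n => (⟨R x, by simp⟩ : S n)) (sm n) (sm n) := by
  have hc : Continuous (fun x : S n => (⟨R x, by simp⟩ : S n)) :=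
    (R.continuous.comp continuous_subtype_val).subtype_mk _
  refine ⟨hc.measurable, ?_⟩
  refine Measure.ext fun s hs => ?_
  rw [Measure.map_apply hc.measurable hs, Measure.toSphere_apply' _ (hc.measurable hs),
    Measure.toSphere_apply' _ hs]
  congr 1
  have e : Ioo (0 : ℝ) 1 • ((↑) '' ((fun x : S n => (⟨R x, by simp⟩ : S n)) ⁻¹' s) : Set (E n)) =
      R ⁻¹' (Ioo (0 : ℝ) 1 • ((↑) '' s : Set (E n))) := by
    ext x
    simp only [Set.mem_smul, mem_image, mem_preimage]
    constructor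
    · rintro ⟨a, ha, _, ⟨y, hy, rfl⟩, rfl⟩
      exact ⟨a, ha, R y, ⟨_, hy, rfl⟩, by simp⟩
    · rintro ⟨a, ha, _, ⟨y, hy, rfl⟩, he⟩
      refine ⟨a, ha, R.symm y, ⟨⟨R.symm y, by simp⟩, ?_, rfl⟩, ?_⟩
      · simpa using hy
      · apply R.injective
        rw [← he]
        simp
  rw [e, (R.measurePreserving).measure_preimage_emb R.toHomeomorph.measurableEmbedding]

lemma norm_join_sq {n : ℕ} (x : E n) (t : ℝ) : ‖join x t‖ ^ 2 = ‖x‖ ^ 2 + t ^ 2 := by
  rw [EuclideanSpace.norm_sq_eq, EuclideanSpace.norm_sq_eq, Fin.sum_univ_castSucc]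
  simp [join]

theorem pt_mem {n : ℕ} (θ : ℝ) (ω : S n) : pt θ (ω : E n) ∈ S (n + 1) := by
  rw [mem_sphere_zero_iff_norm]
  have h1 : ‖pt θ (ω : E n)‖ ^ 2 = 1 := by
    unfold pt
    rw [norm_join_sq, norm_smul]
    have : ‖(ω : E n)‖ = 1 := by simp
    rw [this, mul_one, Real.norm_eq_abs, sq_abs, Real.sin_sq_add_cos_sq]
  nlinarith [norm_nonneg (pt θ (ω : E n)), sq_nonneg (‖pt θ (ω : E n)‖ - 1)]

lemma continuous_join {n : ℕ} : Continuous fun q : E n × ℝ => join q.1 q.2 := by
  unfold join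
  refine (PiLp.continuous_toLp 2 _).comp ?_
  refine continuous_pi fun i => ?_
  refine Fin.lastCases ?_ (fun j => ?_) i
  · simp only [Fin.snoc_last]
    exact continuous_snd
  · simp only [Fin.snoc_castSucc]
    exact (EuclideanSpace.proj j : E n →L[ℝ] ℝ).continuous.comp continuous_fst

lemma continuous_pt {n : ℕ} : Continuous fun q : ℝ × E n => pt q.1 q.2 := by
  unfold pt
  have h1 : Continuous fun q : ℝ × E n => ((Real.sin q.1 • q.2, Real.cos q.1) : E n × ℝ) := by
    fun_prop
  exact continuous_join.comp h1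

lemma smul_join {n : ℕ} (c : ℝ) (x : E n) (t : ℝ) : c • join x t = join (c • x) (c * t) := by
  unfold join
  ext i
  refine Fin.lastCases ?_ (fun j => ?_) i
  · simp
  · simp

theorem lintegral_join (n : ℕ) (φ : E (n + 1) → ℝ≥0∞) (hφ : Measurable φ) :
    ∫⁻ x, φ x = ∫⁻ y : E n, ∫⁻ z : ℝ, φ (join y z) := by
  have h1 := PiLp.volume_preserving_toLp (Fin (n + 1))
  have h2 := (volume_preserving_piFinSuccAbove (fun _ : Fin (n + 1) => ℝ) (Fin.last n)).symm
  have h3 := PiLp.volume_preserving_toLp (Fin n)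
  have m1 : Measurable fun q : E n × ℝ => φ (join q.1 q.2) :=
    hφ.comp continuous_join.measurable
  rw [← h1.lintegral_comp hφ]
  have m2 : Measurable fun f : Fin (n + 1) → ℝ => φ (WithLp.toLp 2 f) := hφ.comp h1.measurable
  rw [← h2.lintegral_comp m2]
  have e : ∀ q : ℝ × (Fin n → ℝ), φ (WithLp.toLp 2
      ((MeasurableEquiv.piFinSuccAbove (fun _ : Fin (n + 1) => ℝ) (Fin.last n)).symm q)) =
      φ (join (WithLp.toLp 2 q.2) q.1) := by
    rintro ⟨z, y⟩
    congr 1
    unfold join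
    congr 1
    simp [MeasurableEquiv.piFinSuccAbove]
    rfl
  simp only [e]
  have m3 : Measurable fun q : ℝ × (Fin n → ℝ) => φ (join (WithLp.toLp 2 q.2) q.1) := by
    have : Measurable fun q : ℝ × (Fin n → ℝ) => ((WithLp.toLp 2 q.2, q.1) : E n × ℝ) :=
      (h3.measurable.comp measurable_snd).prodMk measurable_fst
    exact m1.comp this
  have m4 : Measurable fun y : E n => ∫⁻ z : ℝ, φ (join y z) := by
    exact m1.lintegral_prod_right'
  rw [← h3.lintegral_comp m4]
  rw [Measure.volume_eq_prod, lintegral_prod_symm' _ m3]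

theorem lintegral_polar (j : ℕ) (φ : E (j + 1) → ℝ≥0∞) (hφ : Measurable φ) :
    ∫⁻ x, φ x = ∫⁻ ω : S (j + 1), (∫⁻ ρ in Ioi (0:ℝ),
      φ (ρ • (ω : E (j + 1))) * ENNReal.ofReal (ρ ^ j)) ∂(sm (j + 1)) := by
  have h1 := Measure.measurePreserving_homeomorphUnitSphereProd (volume : Measure (E (j + 1)))
  have hd : Module.finrank ℝ (E (j + 1)) - 1 = j := by simp
  rw [hd] at h1
  have e1 : ∫⁻ x, φ x = ∫⁻ x : ({0}ᶜ : Set (E (j + 1))), φ x
      ∂((volume : Measure (E (j + 1))).comap (↑)) := by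
    rw [lintegral_subtype_comap (measurableSet_singleton _).compl, restrict_compl_singleton]
  have m1 : Measurable fun q : S (j + 1) × Ioi (0:ℝ) => φ ((q.2 : ℝ) • (q.1 : E (j + 1))) := by
    have : Continuous fun q : S (j + 1) × Ioi (0:ℝ) => ((q.2 : ℝ) • (q.1 : E (j + 1))) := by
      fun_prop
    exact hφ.comp this.measurable
  have e2 := h1.lintegral_comp m1
  have e3 : ∀ x : ({0}ᶜ : Set (E (j + 1))),
      (((homeomorphUnitSphereProd (E (j + 1))) x).2 : ℝ) •
        (((homeomorphUnitSphereProd (E (j + 1))) x).1 : E (j + 1)) = x := by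
    intro x
    have := homeomorphUnitSphereProd_symm_apply_coe (E (j + 1))
      ((homeomorphUnitSphereProd (E (j + 1))) x)
    rw [Homeomorph.symm_apply_apply] at this
    exact this.symm
  simp only [e3] at e2
  rw [e1, e2, lintegral_prod _ m1.aemeasurable]
  refine lintegral_congr fun ω => ?_
  unfold Measure.volumeIoiPow
  have m2 : Measurable fun r : Ioi (0:ℝ) => ENNReal.ofReal ((r : ℝ) ^ j) := by fun_prop
  have m3 : Measurable fun r : Ioi (0:ℝ) => φ ((r : ℝ) • (ω : E (j + 1))) := by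
    have : Continuous fun r : Ioi (0:ℝ) => ((r : ℝ) • (ω : E (j + 1))) := by
      fun_prop
    exact hφ.comp this.measurable
  rw [lintegral_withDensity_eq_lintegral_mul _ m2 m3, ← lintegral_subtype_comap measurableSet_Ioi]
  refine lintegral_congr fun r => ?_
  simp [mul_comm]

lemma norm_pt {n : ℕ} (θ : ℝ) (ω : S n) : ‖pt θ (ω : E n)‖ = 1 := by
  simpa using pt_mem θ ω

/-- the radial test function of a set of the sphere -/
noncomputable def rad {n : ℕ} (A : Set (S n)) (x : E n) : ℝ≥0∞ :=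
  ((fun x : E n => (‖x‖⁻¹ • x)) ⁻¹' ((↑) '' A : Set (E n)) ∩ {x | ‖x‖ < 1}).indicator 1 x

lemma measurable_rad {n : ℕ} {A : Set (S n)} (hA : MeasurableSet A) :
    Measurable (rad A) := by
  unfold rad
  have h1 : MeasurableSet ((↑) '' A : Set (E n)) :=
    (Metric.isClosed_sphere.measurableSet).subtype_image hA
  have h2 : Measurable fun x : E n => (‖x‖⁻¹ • x) := by fun_prop
  have h3 : MeasurableSet {x : E n | ‖x‖ < 1} :=
    (isOpen_lt continuous_norm continuous_const).measurableSet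
  exact Measurable.indicator measurable_one ((h2 h1).inter h3)

lemma rad_smul {n : ℕ} (A : Set (S n)) (ω : S n) {r : ℝ} (hr : 0 < r) :
    rad A (r • (ω : E n)) = (Iio (1:ℝ)).indicator 1 r * A.indicator 1 ω := by
  classical
  have h1 : ‖(ω : E n)‖ = 1 := by simp
  have h2 : ‖r • (ω : E n)‖ = r := by rw [norm_smul, h1, mul_one, Real.norm_of_nonneg hr.le]
  unfold rad
  have h3 : r⁻¹ • r • (ω : E n) = ω := by rw [smul_smul, inv_mul_cancel₀ hr.ne', one_smul]
  simp only [indicator_apply, mem_inter_iff, mem_preimage, mem_ofPred_eq, h2, h3, mem_Iio,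
    Pi.one_apply, Subtype.val_injective.mem_set_image]
  by_cases ha : ω ∈ A <;> by_cases hb : r < 1 <;> simp [ha, hb]

lemma lintegral_rpow_Iio (k : ℕ) :
    ∫⁻ ρ in Ioi (0:ℝ), (Iio (1:ℝ)).indicator 1 ρ * ENNReal.ofReal (ρ ^ k) =
      ENNReal.ofReal (1 / (k + 1)) := by
  have e1 : ∀ ρ : ℝ, (Iio (1:ℝ)).indicator (1 : ℝ → ℝ≥0∞) ρ * ENNReal.ofReal (ρ ^ k) =
      (Iio (1:ℝ)).indicator (fun ρ => ENNReal.ofReal (ρ ^ k)) ρ := by
    intro ρ
    by_cases h : ρ ∈ Iio (1:ℝ) <;> simp [h]
  simp only [e1]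
  rw [lintegral_indicator measurableSet_Iio, Measure.restrict_restrict measurableSet_Iio,
    Iio_inter_Ioi, ← ofReal_integral_eq_lintegral_ofReal]
  · congr 1
    rw [← integral_Ioc_eq_integral_Ioo, ← intervalIntegral.integral_of_le zero_le_one,
      integral_pow]
    simp
  · have : IntegrableOn (fun ρ : ℝ => ρ ^ k) (Icc 0 1) :=
      (continuous_pow k).continuousOn.integrableOn_Icc
    exact this.mono_set Ioo_subset_Icc_self
  · refine (ae_restrict_iff' measurableSet_Ioo).2 (ae_of_all _ fun ρ hρ => ?_)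
    exact pow_nonneg hρ.1.le _

/-- the polar decomposition of the test function in the half plane -/
lemma planar (n j : ℕ) (A : Set (S (n + 1))) (hA : MeasurableSet A) (ω : S n) :
    ∫⁻ ρ in Ioi (0:ℝ), (∫⁻ z : ℝ, rad A (join (ρ • (ω : E n)) z)) * ENNReal.ofReal (ρ ^ j) =
      ENNReal.ofReal (1 / ((j + 1 : ℕ) + 1)) * ∫⁻ θ in Ioo 0 π, ENNReal.ofReal (Real.sin θ ^ j) *
        A.indicator 1 (⟨pt θ (ω : E n), pt_mem θ ω⟩ : S (n + 1)) := by
  have m0 : Measurable (rad A) := measurable_rad hA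
  have m1 : Measurable fun q : ℝ × ℝ => rad A (join (q.2 • (ω : E n)) q.1) := by
    have : Continuous fun q : ℝ × ℝ => ((q.2 • (ω : E n), q.1) : E n × ℝ) := by
      fun_prop
    exact m0.comp (continuous_join.comp this).measurable
  set f : ℝ × ℝ → ℝ≥0∞ := fun q => (Ioi (0:ℝ)).indicator 1 q.2 *
    (rad A (join (q.2 • (ω : E n)) q.1) * ENNReal.ofReal (q.2 ^ j)) with hf
  have m2 : Measurable f := by
    refine ((measurable_one.indicator measurableSet_Ioi).comp measurable_snd).mul
      (m1.mul ?_)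
    fun_prop
  have e1 : ∫⁻ ρ in Ioi (0:ℝ), (∫⁻ z : ℝ, rad A (join (ρ • (ω : E n)) z)) *
      ENNReal.ofReal (ρ ^ j) = ∫⁻ q : ℝ × ℝ, f q := by
    rw [Measure.volume_eq_prod, lintegral_prod_symm' _ m2, ← lintegral_indicator measurableSet_Ioi]
    refine lintegral_congr fun ρ => ?_
    have m3 : Measurable fun z : ℝ => rad A (join (ρ • (ω : E n)) z) := by
      have h0 : Measurable fun z : ℝ => ((z, ρ) : ℝ × ℝ) := by fun_prop
      have h1 := m1.comp h0
      dsimp only [Function.comp_def] at h1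
      exact h1
    by_cases h : ρ ∈ Ioi (0:ℝ)
    · simp only [hf, h, indicator_of_mem, Pi.one_apply, one_mul]
      rw [lintegral_mul_const _ m3]
    · simp [hf, h]
  rw [e1, ← lintegral_comp_polarCoord_symm]
  have e2 : ∫⁻ p : ℝ × ℝ in polarCoord.target, ENNReal.ofReal p.1 • f (polarCoord.symm p) =
      ∫⁻ p : ℝ × ℝ in polarCoord.target, ((Iio (1:ℝ)).indicator 1 p.1 *
        ENNReal.ofReal (p.1 ^ (j + 1))) * ((Ioo 0 π).indicator (fun θ =>
        ENNReal.ofReal (Real.sin θ ^ j) *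
        A.indicator 1 (⟨pt θ (ω : E n), pt_mem θ ω⟩ : S (n + 1))) p.2) := by
    refine setLIntegral_congr_fun polarCoord.open_target.measurableSet fun p hp => ?_
    rw [polarCoord_target] at hp
    obtain ⟨hr, hθ⟩ := hp
    simp only [mem_Ioi] at hr
    have hsym : polarCoord.symm p = (p.1 * Real.cos p.2, p.1 * Real.sin p.2) := rfl
    simp only [hsym, hf, smul_eq_mul]
    by_cases h : p.2 ∈ Ioo 0 π
    · have hs : 0 < Real.sin p.2 := Real.sin_pos_of_mem_Ioo h
      have h1 : p.1 * Real.sin p.2 ∈ Ioi (0:ℝ) := mul_pos hr hs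
      have h2 : join ((p.1 * Real.sin p.2) • (ω : E n)) (p.1 * Real.cos p.2) =
          p.1 • pt p.2 (ω : E n) := by
        unfold pt
        rw [smul_join, smul_smul]
      have h3 := rad_smul A (⟨pt p.2 (ω : E n), pt_mem p.2 ω⟩ : S (n + 1)) hr
      simp only at h3
      rw [indicator_of_mem h1, indicator_of_mem h, h2, h3, mul_pow, ENNReal.ofReal_mul (by positivity),
        pow_succ, ENNReal.ofReal_mul (by positivity)]
      simp only [Pi.one_apply]
      ring
    · have hs : ¬ (0 < Real.sin p.2) := by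
        intro hs
        apply h
        refine ⟨?_, hθ.2⟩
        by_contra hc
        push Not at hc
        have := Real.sin_nonpos_of_nonpos_of_neg_pi_le hc hθ.1.le
        linarith
      have h1 : p.1 * Real.sin p.2 ∉ Ioi (0:ℝ) := by
        intro h1
        exact hs (pos_of_mul_pos_right h1 hr.le)
      rw [indicator_of_notMem h1, indicator_of_notMem h]
      simp
  have m4 : Measurable fun θ : ℝ => ENNReal.ofReal (Real.sin θ ^ j) *
        A.indicator 1 (⟨pt θ (ω : E n), pt_mem θ ω⟩ : S (n + 1)) := by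
    have hc0 : Continuous fun θ : ℝ => ((θ, (ω : E n)) : ℝ × E n) := by fun_prop
    have hc1 := continuous_pt.comp hc0
    dsimp only [Function.comp_def] at hc1
    have hc : Continuous fun θ : ℝ => (⟨pt θ (ω : E n), pt_mem θ ω⟩ : S (n + 1)) :=
      Continuous.subtype_mk hc1 _
    have hm : Measurable fun θ : ℝ =>
        A.indicator (1 : S (n + 1) → ℝ≥0∞) (⟨pt θ (ω : E n), pt_mem θ ω⟩ : S (n + 1)) :=
      (measurable_one.indicator hA).comp hc.measurable
    refine Measurable.mul ?_ hm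
    fun_prop
  have m5 : Measurable fun r : ℝ => (Iio (1:ℝ)).indicator (1 : ℝ → ℝ≥0∞) r *
        ENNReal.ofReal (r ^ (j + 1)) := by
    refine (measurable_one.indicator measurableSet_Iio).mul ?_
    fun_prop
  rw [e2, polarCoord_target, Measure.volume_eq_prod, ← Measure.prod_restrict,
    lintegral_prod_mul m5.aemeasurable (m4.indicator measurableSet_Ioo).aemeasurable,
    lintegral_rpow_Iio, lintegral_indicator measurableSet_Ioo,
    Measure.restrict_restrict measurableSet_Ioo]
  have e3 : Ioo 0 π ∩ Ioo (-π) π = Ioo 0 π := by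
    rw [inter_eq_left]
    intro θ hθ
    exact ⟨by linarith [hθ.1, Real.pi_pos], hθ.2⟩
  rw [e3]

/-- slicing, with the dimension written `j + 1 + 1` -/
theorem slicing_aux (j : ℕ) :
    MeasurePreserving
      (fun q : ℝ × S (j + 1) => (⟨pt q.1 (q.2 : E (j + 1)), pt_mem q.1 q.2⟩ : S (j + 1 + 1)))
      ((((volume : Measure ℝ).restrict (Ioo 0 π)).withDensity
        (fun θ => ENNReal.ofReal (Real.sin θ ^ j))).prod (sm (j + 1))) (sm (j + 1 + 1)) := by
  have hc : Continuous (fun q : ℝ × S (j + 1) =>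
      (⟨pt q.1 (q.2 : E (j + 1)), pt_mem q.1 q.2⟩ : S (j + 1 + 1))) := by
    have hc0 : Continuous fun q : ℝ × S (j + 1) => ((q.1, (q.2 : E (j + 1))) : ℝ × E (j + 1)) := by
      fun_prop
    have hc1 := continuous_pt.comp hc0
    dsimp only [Function.comp_def] at hc1
    exact Continuous.subtype_mk hc1 _
  refine ⟨hc.measurable, ?_⟩
  refine Measure.ext fun A hA => ?_
  rw [Measure.map_apply hc.measurable hA]
  have m0 : Measurable (rad A) := measurable_rad hA
  set c : ℝ≥0∞ := ENNReal.ofReal (1 / ((j + 1 : ℕ) + 1)) with hcdef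
  have hc0 : c ≠ 0 := by
    rw [hcdef]
    simp only [ne_eq, ENNReal.ofReal_eq_zero, not_le]
    positivity
  have hct : c ≠ ∞ := ENNReal.ofReal_ne_top
  have e1 : ∫⁻ x, rad A x = c * sm (j + 1 + 1) A := by
    rw [lintegral_polar (j + 1) _ m0]
    have : ∀ ω : S (j + 1 + 1), ∫⁻ ρ in Ioi (0:ℝ), rad A (ρ • (ω : E (j + 1 + 1))) *
        ENNReal.ofReal (ρ ^ (j + 1)) = c * A.indicator 1 ω := by
      intro ω
      rw [hcdef, ← lintegral_rpow_Iio (j + 1), ← lintegral_mul_const]
      · refine setLIntegral_congr_fun measurableSet_Ioi fun ρ hρ => ?_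
        rw [rad_smul A ω hρ]
        ring
      · refine (measurable_one.indicator measurableSet_Iio).mul ?_
        fun_prop
    simp only [this]
    rw [lintegral_const_mul _ (measurable_one.indicator hA), lintegral_indicator_one hA]
  have e2 : ∫⁻ x, rad A x = c * ((((volume : Measure ℝ).restrict (Ioo 0 π)).withDensity
        (fun θ => ENNReal.ofReal (Real.sin θ ^ j))).prod (sm (j + 1)))
        ((fun q : ℝ × S (j + 1) =>
      (⟨pt q.1 (q.2 : E (j + 1)), pt_mem q.1 q.2⟩ : S (j + 1 + 1))) ⁻¹' A) := by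
    rw [lintegral_join (j + 1) _ m0]
    have m1 : Measurable fun y : E (j + 1) => ∫⁻ z : ℝ, rad A (join y z) := by
      have : Measurable fun q : E (j + 1) × ℝ => rad A (join q.1 q.2) :=
        m0.comp continuous_join.measurable
      exact this.lintegral_prod_right'
    rw [lintegral_polar j _ m1]
    simp only [planar (j + 1) j A hA]
    rw [← lintegral_indicator_one (hc.measurable hA)]
    rw [lintegral_prod_symm' _ (measurable_one.indicator (hc.measurable hA)),
      ← lintegral_const_mul]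
    · refine lintegral_congr fun ω => ?_
      congr 1
      rw [lintegral_withDensity_eq_lintegral_mul]
      · rfl
      · fun_prop
      · have h0 : Measurable fun θ : ℝ => ((θ, ω) : ℝ × S (j + 1)) := by fun_prop
        exact (measurable_one.indicator (hc.measurable hA)).comp h0
    · have : Measurable fun q : S (j + 1) × ℝ => ((fun q : ℝ × S (j + 1) =>
      (⟨pt q.1 (q.2 : E (j + 1)), pt_mem q.1 q.2⟩ : S (j + 1 + 1))) ⁻¹' A).indicator
        (1 : ℝ × S (j + 1) → ℝ≥0∞) (q.2, q.1) :=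
        (measurable_one.indicator (hc.measurable hA)).comp measurable_swap
      exact this.lintegral_prod_right'
  have e3 := e2.symm.trans e1
  exact (ENNReal.mul_right_inj hc0 hct).1 e3

theorem slicing (j : ℕ) :
    MeasurePreserving
      (fun q : ℝ × S (j + 1) => (⟨pt q.1 (q.2 : E (j + 1)), pt_mem q.1 q.2⟩ : S (j + 2)))
      ((((volume : Measure ℝ).restrict (Ioo 0 π)).withDensity
        (fun θ => ENNReal.ofReal (Real.sin θ ^ j))).prod (sm (j + 1))) (sm (j + 2)) :=
  slicing_aux j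

end Pool.Agent.SDT.MP_6cbfb8_an

end -- MP_6cbfb8_an.Sphere

section -- MP_6cbfb8_an.ExtnCyl

/-!
Polar coordinates for the extension operator.
-/

namespace Pool.Agent.SDT.MP_6cbfb8_an

open MeasureTheory Set
open scoped ENNReal Real RealInnerProductSpace

theorem inner_join {n : ℕ} (x y : E n) (s t : ℝ) :
    inner ℝ (join x s) (join y t) = inner ℝ x y + s * t := by
  unfold join
  simp only [PiLp.inner_apply, Fin.sum_univ_castSucc, Fin.snoc_castSucc, Fin.snoc_last]
  simp [mul_comm]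

theorem inner_pt_join {n : ℕ} (θ : ℝ) (ω y : E n) (z : ℝ) :
    inner ℝ (pt θ ω) (join y z) = Real.sin θ * inner ℝ ω y + z * Real.cos θ := by
  unfold pt
  rw [inner_join, real_inner_smul_left]
  ring

theorem join_continuous {n : ℕ} : Continuous (fun q : E n × ℝ => join q.1 q.2) := by
  unfold join
  refine (PiLp.continuous_toLp 2 _).comp ?_
  refine continuous_pi fun i => ?_
  refine Fin.lastCases ?_ (fun i => ?_) i
  · simp only [Fin.snoc_last]
    fun_prop
  · simp only [Fin.snoc_castSucc]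
    fun_prop

theorem pt_continuous {n : ℕ} : Continuous (fun q : ℝ × E n => pt q.1 q.2) := by
  unfold pt
  exact join_continuous.comp (f := fun q : ℝ × E n => (Real.sin q.1 • q.2, Real.cos q.1))
    (by fun_prop)


end Pool.Agent.SDT.MP_6cbfb8_an

end -- MP_6cbfb8_an.ExtnCyl

section -- MST.LF

namespace Pool.Agent.SDT.MST

open MeasureTheory Set Pool.Agent.SDT.MP_6cbfb8_an
open scoped ENNReal Real

lemma hlf_norm_ex (a : ℝ) : ‖ex a‖ = 1 := by
  unfold ex
  rw [Complex.norm_exp_ofReal_mul_I]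

lemma hlf_ex_add (a b : ℝ) : ex (a + b) = ex a * ex b := by
  unfold ex
  rw [← Complex.exp_add]
  congr 1
  push_cast
  ring

lemma hlf_measurable_ex : Measurable ex := by
  unfold ex
  fun_prop

/-- bounded with bounded support is integrable -/
lemma hlf_integrable {m : ℕ} {f : E m → ℂ} (hf : Measurable f) {B R : ℝ}
    (hB : ∀ w, ‖f w‖ ≤ B) (hR : ∀ w, R < ‖w‖ → f w = 0) : Integrable f := by
  have h1 : IntegrableOn f (Metric.closedBall 0 R) :=
    Measure.integrableOn_of_bounded (M := B) measure_closedBall_lt_top.ne hf.aestronglyMeasurable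
      (ae_of_all _ hB)
  rw [integrableOn_iff_integrable_of_support_subset] at h1
  · exact h1
  · intro w hw
    rw [mem_closedBall_zero_iff]
    by_contra hcon
    exact hw (hR w (not_le.mp hcon))

/-- the integrand of the convolution -/
lemma hlf_conv_integrable {m : ℕ} {f g : E m → ℂ} (hf : Integrable f) (hg : Integrable g) :
    Integrable (fun p : E m × E m => f p.2 * g (p.1 - p.2)) (volume.prod volume) :=
  hf.convolution_integrand (ContinuousLinearMap.mul ℝ ℂ) hg

/-- squaring a Fourier integral -/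
lemma hlf_sq {m : ℕ} {f : E m → ℂ} (hf : Integrable f) (x : E m) :
    (∫ w : E m, f w * ex (inner ℝ w x)) ^ 2 =
      ∫ u : E m, (∫ w : E m, f w * f (u - w)) * ex (inner ℝ u x) := by
  have hexm : Measurable fun w : E m => ex (inner ℝ w x) :=
    hlf_measurable_ex.comp (by fun_prop)
  have hfe : Integrable fun w : E m => f w * ex (inner ℝ w x) :=
    hf.mul_bdd (c := 1) hexm.aestronglyMeasurable (ae_of_all _ fun w => (hlf_norm_ex _).le)
  rw [sq, ← integral_mul_const]
  have h1 : ∀ w : E m, f w * ex (inner ℝ w x) * ∫ w' : E m, f w' * ex (inner ℝ w' x) =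
      ∫ u : E m, (f w * f (u - w)) * ex (inner ℝ u x) := by
    intro w
    rw [← integral_sub_right_eq_self (fun w' : E m => f w' * ex (inner ℝ w' x)) w,
      ← integral_const_mul]
    refine integral_congr_ae (ae_of_all _ fun u => ?_)
    have h2 : ex (inner ℝ u x) = ex (inner ℝ w x) * ex (inner ℝ (u - w) x) := by
      rw [← hlf_ex_add, ← inner_add_left, add_sub_cancel]
    simp only
    rw [h2]
    ring
  simp_rw [h1]
  rw [integral_integral_swap]
  · refine integral_congr_ae (ae_of_all _ fun u => ?_)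
    simp only
    rw [integral_mul_const]
  · have h3 := (hlf_conv_integrable hf hf).swap
    have h4 : Integrable (fun p : E m × E m => (f p.1 * f (p.2 - p.1)) * ex (inner ℝ p.2 x))
        (volume.prod volume) := by
      refine Integrable.mul_bdd (c := 1) h3 ?_ (ae_of_all _ fun p => (hlf_norm_ex _).le)
      exact (hlf_measurable_ex.comp (by fun_prop)).aestronglyMeasurable
    exact h4

theorem hlf_h_int {m : ℕ} {f : E m → ℂ} (hf : Integrable f) :
    Integrable fun u : E m => ∫ w : E m, f w * f (u - w) :=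
  (hlf_conv_integrable hf hf).integral_prod_left

/-- the four-linear form -/
theorem hlf_form {m : ℕ} {f : E m → ℂ} (hf : Measurable f) {B R : ℝ}
    (hB : ∀ w, ‖f w‖ ≤ B) (hR : ∀ w, R < ‖w‖ → f w = 0) :
    ∫ q : E m × E m × E m, f q.1 * f (q.1 - q.2.1 - q.2.2) *
        (starRingEnd ℂ) (f (q.1 - q.2.1)) * (starRingEnd ℂ) (f (q.1 - q.2.2)) =
      ∫ u : E m, (∫ w : E m, f w * f (u - w)) * (starRingEnd ℂ) (∫ w : E m, f w * f (u - w)) := by
  have hfi := hlf_integrable hf hB hR
  have hfc : Integrable fun w => (starRingEnd ℂ) (f w) := by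
    refine hlf_integrable (B := B) (R := R) (Complex.continuous_conj.measurable.comp hf) ?_ ?_
    · intro w; rw [RCLike.norm_conj]; exact hB w
    · intro w hw; rw [hR w hw, map_zero]
  have hcm : Measurable fun w => (starRingEnd ℂ) (f w) := Complex.continuous_conj.measurable.comp hf
  have hB0 : 0 ≤ B := (norm_nonneg _).trans (hB 0)
  set Φ : E m × E m × E m → ℂ := fun q => f q.1 * f (q.1 - q.2.1 - q.2.2) *
        (starRingEnd ℂ) (f (q.1 - q.2.1)) * (starRingEnd ℂ) (f (q.1 - q.2.2)) with hΦ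
  have hΦm : Measurable Φ := by
    have m1 : Measurable fun q : E m × E m × E m => q.1 := by fun_prop
    have m2 : Measurable fun q : E m × E m × E m => q.1 - q.2.1 - q.2.2 := by fun_prop
    have m3 : Measurable fun q : E m × E m × E m => q.1 - q.2.1 := by fun_prop
    have m4 : Measurable fun q : E m × E m × E m => q.1 - q.2.2 := by fun_prop
    exact (((hf.comp m1).mul (hf.comp m2)).mul (hcm.comp m3)).mul (hcm.comp m4)
  have hΦb : ∀ q, ‖Φ q‖ ≤ B * B * B * B := by
    intro q
    simp only [hΦ, norm_mul, RCLike.norm_conj]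
    have h1 := hB q.1
    have h2 := hB (q.1 - q.2.1 - q.2.2)
    have h3 := hB (q.1 - q.2.1)
    have h4 := hB (q.1 - q.2.2)
    gcongr
  have hΦi : Integrable Φ (volume.prod (volume.prod volume)) := by
    have h1 : IntegrableOn Φ (Metric.closedBall 0 R ×ˢ (Metric.closedBall 0 (2 * R) ×ˢ
        Metric.closedBall 0 (2 * R))) (volume.prod (volume.prod volume)) := by
      refine Measure.integrableOn_of_bounded (M := B * B * B * B) ?_ hΦm.aestronglyMeasurable
        (ae_of_all _ hΦb)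
      rw [Measure.prod_prod, Measure.prod_prod]
      exact (ENNReal.mul_lt_top measure_closedBall_lt_top
        (ENNReal.mul_lt_top measure_closedBall_lt_top measure_closedBall_lt_top)).ne
    rw [integrableOn_iff_integrable_of_support_subset] at h1
    · exact h1
    · intro q hq
      have hz : ∀ v : E m, f v ≠ 0 → ‖v‖ ≤ R := fun v hv => by
        by_contra hcon
        exact hv (hR v (not_le.mp hcon))
      have hq' : Φ q ≠ 0 := hq
      have a1 : ‖q.1‖ ≤ R := hz _ fun h => hq' (by simp [hΦ, h])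
      have a3 : ‖q.1 - q.2.1‖ ≤ R := hz _ fun h => hq' (by simp [hΦ, h])
      have a4 : ‖q.1 - q.2.2‖ ≤ R := hz _ fun h => hq' (by simp [hΦ, h])
      refine ⟨?_, ?_, ?_⟩
      · rw [mem_closedBall_zero_iff]; exact a1
      · rw [mem_closedBall_zero_iff]
        calc ‖q.2.1‖ = ‖q.1 - (q.1 - q.2.1)‖ := by rw [sub_sub_cancel]
          _ ≤ ‖q.1‖ + ‖q.1 - q.2.1‖ := norm_sub_le _ _
          _ ≤ 2 * R := by linarith
      · rw [mem_closedBall_zero_iff]
        calc ‖q.2.2‖ = ‖q.1 - (q.1 - q.2.2)‖ := by rw [sub_sub_cancel]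
          _ ≤ ‖q.1‖ + ‖q.1 - q.2.2‖ := norm_sub_le _ _
          _ ≤ 2 * R := by linarith
  -- sections
  have hsec : ∀ w : E m, Integrable (fun p : E m × E m => Φ (w, p)) (volume.prod volume) := by
    intro w
    have h1 : IntegrableOn (fun p : E m × E m => Φ (w, p)) (Metric.closedBall w R ×ˢ
        Metric.closedBall w R) (volume.prod volume) := by
      refine Measure.integrableOn_of_bounded (M := B * B * B * B) ?_
        (hΦm.comp measurable_prodMk_left).aestronglyMeasurable (ae_of_all _ fun p => hΦb _)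
      rw [Measure.prod_prod]
      exact (ENNReal.mul_lt_top measure_closedBall_lt_top measure_closedBall_lt_top).ne
    rw [integrableOn_iff_integrable_of_support_subset] at h1
    · exact h1
    · intro p hp
      have hz : ∀ v : E m, f v ≠ 0 → ‖v‖ ≤ R := fun v hv => by
        by_contra hcon
        exact hv (hR v (not_le.mp hcon))
      have hq' : Φ (w, p) ≠ 0 := hp
      have a3 : ‖w - p.1‖ ≤ R := hz _ fun h => hq' (by simp [hΦ, h])
      have a4 : ‖w - p.2‖ ≤ R := hz _ fun h => hq' (by simp [hΦ, h])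
      refine ⟨?_, ?_⟩
      · rw [Metric.mem_closedBall, dist_comm, dist_eq_norm]; exact a3
      · rw [Metric.mem_closedBall, dist_comm, dist_eq_norm]; exact a4
  have e1 : ∫ q : E m × E m × E m, Φ q = ∫ w : E m, ∫ y : E m, ∫ z : E m, Φ (w, y, z) := by
    have h1 : ∫ q : E m × E m × E m, Φ q = ∫ w : E m, ∫ p : E m × E m, Φ (w, p) := by
      exact integral_prod Φ hΦi
    rw [h1]
    refine integral_congr_ae (ae_of_all _ fun w => ?_)
    exact integral_prod (fun p : E m × E m => Φ (w, p)) (hsec w)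
  -- the inner integral
  set h : E m → ℂ := fun u => ∫ w : E m, f w * f (u - w) with hh
  have hconj : ∀ u, (starRingEnd ℂ) (h u) =
      ∫ w' : E m, (starRingEnd ℂ) (f w') * (starRingEnd ℂ) (f (u - w')) := by
    intro u
    simp only [hh]
    rw [← integral_conj]
    refine integral_congr_ae (ae_of_all _ fun w => ?_)
    simp only [map_mul]
  have e2 : ∀ w : E m, ∫ y : E m, ∫ z : E m, Φ (w, y, z) =
      f w * ∫ u : E m, f (u - w) * (starRingEnd ℂ) (h u) := by
    intro w
    have i1 : ∀ y : E m, ∫ z : E m, Φ (w, y, z) = f w * ((starRingEnd ℂ) (f (w - y)) *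
        ∫ u : E m, f (u - w) * (starRingEnd ℂ) (f (u - (w - y)))) := by
      intro y
      rw [← integral_sub_left_eq_self (fun u : E m => f (u - w) *
        (starRingEnd ℂ) (f (u - (w - y)))) volume (w + w - y), ← integral_const_mul,
        ← integral_const_mul]
      refine integral_congr_ae (ae_of_all _ fun z => ?_)
      simp only [hΦ]
      have b1 : w + w - y - z - w = w - y - z := by abel
      have b2 : w + w - y - z - (w - y) = w - z := by abel
      rw [b1, b2]
      ring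
    simp_rw [i1]
    rw [integral_const_mul]
    congr 1
    rw [integral_sub_left_eq_self (fun w' : E m => (starRingEnd ℂ) (f w') *
        ∫ u : E m, f (u - w) * (starRingEnd ℂ) (f (u - w'))) volume w]
    have i2 : ∀ w' : E m, (starRingEnd ℂ) (f w') *
        ∫ u : E m, f (u - w) * (starRingEnd ℂ) (f (u - w')) =
        ∫ u : E m, f (u - w) * ((starRingEnd ℂ) (f w') * (starRingEnd ℂ) (f (u - w'))) := by
      intro w'
      rw [← integral_const_mul]
      refine integral_congr_ae (ae_of_all _ fun u => ?_)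
      simp only
      ring
    simp_rw [i2]
    rw [integral_integral_swap]
    · refine integral_congr_ae (ae_of_all _ fun u => ?_)
      simp only
      rw [integral_const_mul, hconj]
    · have h3 := (hlf_conv_integrable hfc hfc).swap
      have h4 : Integrable (fun p : E m × E m => f (p.2 - w) * ((starRingEnd ℂ) (f p.1) *
          (starRingEnd ℂ) (f (p.2 - p.1)))) (volume.prod volume) := by
        refine Integrable.bdd_mul (c := B) h3 ?_ (ae_of_all _ fun p => hB _)
        exact (hf.comp (by fun_prop)).aestronglyMeasurable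
      exact h4
  rw [e1]
  simp_rw [e2]
  -- last swap
  have e3 : ∀ w : E m, f w * ∫ u : E m, f (u - w) * (starRingEnd ℂ) (h u) =
      ∫ u : E m, (f w * f (u - w)) * (starRingEnd ℂ) (h u) := by
    intro w
    rw [← integral_const_mul]
    refine integral_congr_ae (ae_of_all _ fun u => ?_)
    simp only
    ring
  simp_rw [e3]
  rw [integral_integral_swap]
  · refine integral_congr_ae (ae_of_all _ fun u => ?_)
    simp only
    rw [integral_mul_const]
  · have h3 := (hlf_conv_integrable hfi hfi).swap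
    have hhb : ∀ u, ‖h u‖ ≤ B * ∫ w : E m, ‖f w‖ := by
      intro u
      simp only [hh]
      refine (norm_integral_le_integral_norm _).trans ?_
      rw [← integral_const_mul]
      refine integral_mono_of_nonneg (ae_of_all _ fun w => norm_nonneg _)
        (hfi.norm.const_mul _) (ae_of_all _ fun w => ?_)
      simp only [norm_mul]
      rw [mul_comm]
      exact mul_le_mul_of_nonneg_right (hB _) (norm_nonneg _)
    have hhm : AEStronglyMeasurable h volume := (hlf_h_int hfi).aestronglyMeasurable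
    have h4 : Integrable (fun p : E m × E m => (f p.1 * f (p.2 - p.1)) *
        (starRingEnd ℂ) (h p.2)) (volume.prod volume) := by
      refine Integrable.mul_bdd (c := B * ∫ w : E m, ‖f w‖) h3 ?_ (ae_of_all _ fun p => ?_)
      · exact (Complex.continuous_conj.comp_aestronglyMeasurable hhm).comp_snd
      · rw [RCLike.norm_conj]; exact hhb _
    exact h4

/-
ROW LF (1.5 h). The L^4 norm of a Fourier transform as a four-linear form (Plancherel).
Let f be measurable, bounded by B, zero for ‖w‖ > R. Put h u = ∫ w, f w * f (u - w); h is bounded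
and zero for ‖u‖ > 2R, so integrable and in L². By Fubini (integral_prod, change of variables
u = w + w', Haar invariance) (∫ w, f w * ex (inner w x)) ^ 2 = ∫ u, h u * ex (inner u x).
`bessel` (Bessel.lean) with Ω = E m, Ψ = id, A = 1 gives
∫⁻ x ‖∫ u, h u * ex (inner u x)‖ₑ ^ 2 ≤ ∫⁻ u, ‖h u‖ₑ ^ 2 (this is ≤ in Plancherel, all we need),
‖z‖ₑ ^ 4 = ‖z ^ 2‖ₑ ^ 2. Finally ‖h u‖² = ∫∫ f w f (u-w) conj f w' conj f (u-w') dw dw', integrate over u
and substitute w' = w - y, u = 2w - y - z (for fixed w the map (y,z) ↦ (w', u) preserves the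
measure: w' = w - y is a reflection/translation, then u = 2w - y - z in z): the integrand becomes
f w * f (w - y - z) * conj f (w - y) * conj f (w - z).
-/
theorem four_linear {m : ℕ} (f : E m → ℂ) (hf : Measurable f) (B R : ℝ)
    (hB : ∀ w, ‖f w‖ ≤ B) (hR : ∀ w, R < ‖w‖ → f w = 0) :
    ∫⁻ x : E m, ‖∫ w : E m, f w * ex (inner ℝ w x)‖ₑ ^ (4:ℝ) ≤
      ENNReal.ofReal (∫ q : E m × E m × E m, f q.1 * f (q.1 - q.2.1 - q.2.2) *
        (starRingEnd ℂ) (f (q.1 - q.2.1)) * (starRingEnd ℂ) (f (q.1 - q.2.2))).re := by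
  have hfi := hlf_integrable hf hB hR
  rw [hlf_form hf hB hR]
  set h : E m → ℂ := fun u => ∫ w : E m, f w * f (u - w) with hh
  have hhi : Integrable h := hlf_h_int hfi
  have hhb : ∀ u, ‖h u‖ ≤ B * ∫ w : E m, ‖f w‖ := by
    intro u
    simp only [hh]
    refine (norm_integral_le_integral_norm _).trans ?_
    rw [← integral_const_mul]
    refine integral_mono_of_nonneg (ae_of_all _ fun w => norm_nonneg _)
      (hfi.norm.const_mul _) (ae_of_all _ fun w => ?_)
    simp only [norm_mul]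
    rw [mul_comm]
    exact mul_le_mul_of_nonneg_right (hB _) (norm_nonneg _)
  have hb := bessel (volume : Measure (E m)) (Ψ := (id : E m → E m)) measurable_id 1
    ENNReal.one_ne_top (fun φ _ => by simp) h hhi
  have h1 : ∫⁻ x : E m, ‖∫ w : E m, f w * ex (inner ℝ w x)‖ₑ ^ (4:ℝ) =
      ∫⁻ ξ : E m, ‖∫ w, h w * Complex.exp (((-(2 * π * inner ℝ (id w) ξ) : ℝ) : ℂ) *
        Complex.I)‖ₑ ^ (2:ℝ) := by
    refine lintegral_congr fun x => ?_
    have h2 := hlf_sq hfi x
    have h3 : ‖∫ w : E m, f w * ex (inner ℝ w x)‖ₑ ^ (4:ℝ) =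
        ‖(∫ w : E m, f w * ex (inner ℝ w x)) ^ 2‖ₑ ^ (2:ℝ) := by
      rw [enorm_pow, ← ENNReal.rpow_natCast, ← ENNReal.rpow_mul]
      norm_num
    rw [h3, h2]
    rfl
  rw [h1]
  refine hb.trans ?_
  rw [one_mul]
  have h4 : ∀ u : E m, h u * (starRingEnd ℂ) (h u) = ((‖h u‖ ^ 2 : ℝ) : ℂ) := by
    intro u
    rw [Complex.mul_conj, Complex.normSq_eq_norm_sq]
  have h5 : ∫ u : E m, (∫ w : E m, f w * f (u - w)) *
      (starRingEnd ℂ) (∫ w : E m, f w * f (u - w)) = ∫ u : E m, ((‖h u‖ ^ 2 : ℝ) : ℂ) :=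
    integral_congr_ae (ae_of_all _ h4)
  rw [h5, integral_complex_ofReal, Complex.ofReal_re]
  have hsq : Integrable fun u : E m => ‖h u‖ ^ 2 := by
    have : Integrable fun u : E m => ‖h u‖ * ‖h u‖ :=
      Integrable.bdd_mul (c := B * ∫ w : E m, ‖f w‖) hhi.norm hhi.norm.aestronglyMeasurable
        (ae_of_all _ fun u => by rw [norm_norm]; exact hhb u)
    refine this.congr (ae_of_all _ fun u => ?_)
    simp only
    ring
  rw [ofReal_integral_eq_lintegral_ofReal hsq (ae_of_all _ fun u => sq_nonneg _)]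
  refine le_of_eq (lintegral_congr fun u => ?_)
  rw [ENNReal.ofReal_pow (norm_nonneg _), ofReal_norm, ← ENNReal.rpow_natCast]
  norm_num

end Pool.Agent.SDT.MST

end -- MST.LF

section -- MST.LP

namespace Pool.Agent.SDT.MST

open MeasureTheory Set Pool.Agent.SDT.MP_6cbfb8_an
open scoped ENNReal Real

/-- the four-linear form -/
noncomputable def hlp_F {m : ℕ} (f : E m → ℂ) (q : E m × E m × E m) : ℂ :=
  f q.1 * f (q.1 - q.2.1 - q.2.2) *
        (starRingEnd ℂ) (f (q.1 - q.2.1)) * (starRingEnd ℂ) (f (q.1 - q.2.2))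

/-- a set containing the support of the four-linear form -/
def hlp_S (m : ℕ) (R : ℝ) : Set (E m × E m × E m) :=
  Metric.closedBall 0 R ×ˢ (Metric.closedBall 0 (2 * R) ×ˢ Metric.closedBall 0 (2 * R))

theorem hlp_S_fin (m : ℕ) (R : ℝ) : (volume : Measure (E m × E m × E m)) (hlp_S m R) < ⊤ :=
  ((isCompact_closedBall _ _).prod ((isCompact_closedBall _ _).prod
    (isCompact_closedBall _ _))).measure_lt_top

theorem hlp_zero {m : ℕ} (f : E m → ℂ) (R : ℝ) (hR : ∀ w, R < ‖w‖ → f w = 0)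
    (q : E m × E m × E m) (hq : q ∉ hlp_S m R) : hlp_F f q = 0 := by
  by_contra h
  apply hq
  have h' : ∀ w, f w ≠ 0 → ‖w‖ ≤ R := fun w hw => by
    by_contra h1
    exact hw (hR w (not_le.1 h1))
  unfold hlp_F at h
  obtain ⟨h1, h4⟩ := mul_ne_zero_iff.1 h
  obtain ⟨h2, h3⟩ := mul_ne_zero_iff.1 h1
  obtain ⟨h5, h6⟩ := mul_ne_zero_iff.1 h2
  have a1 := h' _ h5
  have a3 := h' _ ((map_ne_zero (starRingEnd ℂ)).1 h3)
  have a4 := h' _ ((map_ne_zero (starRingEnd ℂ)).1 h4)
  refine ⟨?_, ?_, ?_⟩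
  · simpa using a1
  · have h7 : ‖q.2.1‖ ≤ 2 * R := by
      have : q.2.1 = q.1 - (q.1 - q.2.1) := by abel
      rw [this]
      refine (norm_sub_le _ _).trans ?_
      linarith
    simpa using h7
  · have h7 : ‖q.2.2‖ ≤ 2 * R := by
      have : q.2.2 = q.1 - (q.1 - q.2.2) := by abel
      rw [this]
      refine (norm_sub_le _ _).trans ?_
      linarith
    simpa using h7

theorem hlp_norm {m : ℕ} (f : E m → ℂ) (B : ℝ) (hB : ∀ w, ‖f w‖ ≤ B)
    (q : E m × E m × E m) : ‖hlp_F f q‖ ≤ B * B * B * B := by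
  have hB0 : 0 ≤ B := (norm_nonneg _).trans (hB 0)
  unfold hlp_F
  rw [norm_mul, norm_mul, norm_mul, RCLike.norm_conj, RCLike.norm_conj]
  gcongr
  · exact hB _
  · exact hB _
  · exact hB _
  · exact hB _

theorem hlp_meas {m : ℕ} (f : E m → ℂ) (hf : Measurable f) : Measurable (hlp_F f) := by
  unfold hlp_F
  have h1 : Measurable fun q : E m × E m × E m => f q.1 := hf.comp measurable_fst
  have h2 : Measurable fun q : E m × E m × E m => f (q.1 - q.2.1 - q.2.2) :=
    hf.comp (by fun_prop)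
  have h3 : Measurable fun q : E m × E m × E m => (starRingEnd ℂ) (f (q.1 - q.2.1)) :=
    Complex.continuous_conj.measurable.comp (hf.comp (by fun_prop))
  have h4 : Measurable fun q : E m × E m × E m => (starRingEnd ℂ) (f (q.1 - q.2.2)) :=
    Complex.continuous_conj.measurable.comp (hf.comp (by fun_prop))
  exact ((h1.mul h2).mul h3).mul h4

theorem hlp_int {α : Type*} [MeasurableSpace α] {ν : Measure α} {S : Set α} (hν : ν S < ⊤)
    (F : α → ℂ) (hF : Measurable F) (C : ℝ) (hC : ∀ x, ‖F x‖ ≤ C) (h0 : ∀ x, x ∉ S → F x = 0) :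
    Integrable F ν :=
  (IntegrableOn.of_bound hν hF.aestronglyMeasurable C
    (Filter.Eventually.of_forall hC)).integrable_of_forall_notMem_eq_zero h0

theorem hlp_F_int {m : ℕ} (f : E m → ℂ) (hf : Measurable f) (B R : ℝ)
    (hB : ∀ w, ‖f w‖ ≤ B) (hR : ∀ w, R < ‖w‖ → f w = 0) : Integrable (hlp_F f) :=
  hlp_int (hlp_S_fin m R) _ (hlp_meas f hf) _ (hlp_norm f B hB) (hlp_zero f R hR)

theorem hlp_eq {m : ℕ} (f : E m → ℂ) (hf : Measurable f) (B R : ℝ)
    (hB : ∀ w, ‖f w‖ ≤ B) (hR : ∀ w, R < ‖w‖ → f w = 0) :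
    ∫ q : E m × E m × E m, hlp_F f q =
      ∫ y : E m, ((‖∫ w : E m, f w * (starRingEnd ℂ) (f (w - y))‖ ^ 2 : ℝ) : ℂ) := by
  have hI := hlp_F_int f hf B R hB hR
  have hmp := volume_preserving_prodAssoc (α₁ := E m) (β₁ := E m) (γ₁ := E m)
  have h1 : ∫ q : E m × E m × E m, hlp_F f q =
      ∫ p : (E m × E m) × E m, hlp_F f (p.1.1, p.1.2, p.2) := by
    rw [← hmp.integral_comp' (g := hlp_F f)]
    rfl
  have hI2 : Integrable (fun p : (E m × E m) × E m => hlp_F f (p.1.1, p.1.2, p.2)) :=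
    hmp.integrable_comp_of_integrable hI
  have hI3 := hI2.integral_prod_left
  rw [h1]
  change ∫ p : (E m × E m) × E m, hlp_F f (p.1.1, p.1.2, p.2) ∂(volume.prod volume) = _
  rw [integral_prod _ hI2]
  change ∫ p : E m × E m, (∫ z : E m, hlp_F f (p.1, p.2, z)) ∂(volume.prod volume) = _
  rw [integral_prod_symm _ hI3]
  refine integral_congr_ae (Filter.Eventually.of_forall fun y => ?_)
  change ∫ w : E m, (∫ z : E m, hlp_F f (w, y, z)) = _
  set c : ℂ := ∫ w : E m, f w * (starRingEnd ℂ) (f (w - y)) with hc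
  have h2 : ∀ w : E m, (∫ z : E m, hlp_F f (w, y, z)) =
      (f w * (starRingEnd ℂ) (f (w - y))) * (starRingEnd ℂ) c := by
    intro w
    have h3 : ∀ z : E m, hlp_F f (w, y, z) = (f w * (starRingEnd ℂ) (f (w - y))) *
        (starRingEnd ℂ) ((fun v => f v * (starRingEnd ℂ) (f (v - y))) (w - z)) := by
      intro z
      unfold hlp_F
      simp only [map_mul, Complex.conj_conj]
      rw [show w - y - z = w - z - y by abel]
      ring
    rw [integral_congr_ae (Filter.Eventually.of_forall h3), integral_const_mul, integral_conj,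
      integral_sub_left_eq_self (fun v => f v * (starRingEnd ℂ) (f (v - y))) volume w]
  rw [integral_congr_ae (Filter.Eventually.of_forall h2), integral_mul_const, ← hc,
    Complex.mul_conj, Complex.normSq_eq_norm_sq]

/-
ROW LP (1 h). Parameter version of four_linear.
Apply four_linear to f = G * A l for each l; the four-linear integral over q is integrable in (l, q)
(bounded by B^4, supported in ‖q.1‖ ≤ R, ‖q.2.1‖ ≤ 2R, ‖q.2.2‖ ≤ 2R, μ finite; wlog R ≥ 0), it is
nonnegative for each l up to ofReal of its real part:  by four_linear the left side is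
≤ ∫⁻ l, ofReal (Re I(l)) ∂μ. Careful: Re I(l) ≥ 0 is needed to pass to the integral: either note
I(l) = ∫ ‖h‖² ≥ 0, or simply bound as follows: if the real parts could be negative then
∫⁻ ofReal (Re I) is not ofReal ∫ Re I. So first prove 0 ≤ Re I(l) (it is the integral of ‖h u‖²,
see the proof of four_linear; a separate lemma four_linear_nonneg below).
Then ∫⁻ l, ofReal (Re I l) = ofReal (∫ l, Re I l) = ofReal (Re ∫ l ∫ q ...) = ofReal Re (∫ q, G G conj G conj G *
(∫ l, A A conj A conj A)) ≤ ∫⁻ q, ‖∫ l, ...‖ₑ by Fubini and ‖G G conj G conj G‖ ≤ 1.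
-/
theorem four_linear_nonneg {m : ℕ} (f : E m → ℂ) (hf : Measurable f) (B R : ℝ)
    (hB : ∀ w, ‖f w‖ ≤ B) (hR : ∀ w, R < ‖w‖ → f w = 0) :
    0 ≤ (∫ q : E m × E m × E m, f q.1 * f (q.1 - q.2.1 - q.2.2) *
        (starRingEnd ℂ) (f (q.1 - q.2.1)) * (starRingEnd ℂ) (f (q.1 - q.2.2))).re := by
  have h1 := hlp_eq f hf B R hB hR
  unfold hlp_F at h1
  rw [h1, integral_complex_ofReal, Complex.ofReal_re]
  exact integral_nonneg fun y => by positivity

theorem four_linear_param {m : ℕ} {Λ : Type*} [MeasurableSpace Λ] (μ : Measure Λ)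
    [IsFiniteMeasure μ] (A : Λ → E m → ℂ) (hA : Measurable (Function.uncurry A)) (B R : ℝ)
    (hB : ∀ l w, ‖A l w‖ ≤ B) (hR : ∀ l w, R < ‖w‖ → A l w = 0)
    (G : E m → ℂ) (hG : Measurable G) (hb : ∀ w, ‖G w‖ ≤ 1) :
    ∫⁻ l, (∫⁻ x : E m, ‖∫ w : E m, G w * A l w * ex (inner ℝ w x)‖ₑ ^ (4:ℝ)) ∂μ ≤
      ∫⁻ q : E m × E m × E m, ‖∫ l, A l q.1 * A l (q.1 - q.2.1 - q.2.2) *
        (starRingEnd ℂ) (A l (q.1 - q.2.1)) * (starRingEnd ℂ) (A l (q.1 - q.2.2)) ∂μ‖ₑ := by
  have hAl : ∀ l, Measurable (A l) := fun l => hA.comp measurable_prodMk_left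
  have hfm : ∀ l, Measurable fun w => G w * A l w := fun l => hG.mul (hAl l)
  have hfB : ∀ l w, ‖G w * A l w‖ ≤ B := fun l w => by
    rw [norm_mul]
    calc ‖G w‖ * ‖A l w‖ ≤ 1 * ‖A l w‖ := mul_le_mul_of_nonneg_right (hb w) (norm_nonneg _)
      _ ≤ B := by rw [one_mul]; exact hB l w
  have hfR : ∀ l w, R < ‖w‖ → G w * A l w = 0 := fun l w hw => by rw [hR l w hw, mul_zero]
  -- the integrand on the product
  let Φ : Λ → (E m × E m × E m) → ℂ := fun l q => hlp_F (fun w => G w * A l w) q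
  have hΦm : Measurable (Function.uncurry Φ) := by
    have hf2 : Measurable fun p : Λ × E m => G p.2 * A p.1 p.2 :=
      (hG.comp measurable_snd).mul hA
    have h1 : Measurable fun p : Λ × (E m × E m × E m) => G p.2.1 * A p.1 p.2.1 :=
      hf2.comp (measurable_fst.prodMk (by fun_prop))
    have h2 : Measurable fun p : Λ × (E m × E m × E m) =>
        G (p.2.1 - p.2.2.1 - p.2.2.2) * A p.1 (p.2.1 - p.2.2.1 - p.2.2.2) :=
      hf2.comp (measurable_fst.prodMk (by fun_prop))
    have h3 : Measurable fun p : Λ × (E m × E m × E m) =>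
        (starRingEnd ℂ) (G (p.2.1 - p.2.2.1) * A p.1 (p.2.1 - p.2.2.1)) :=
      Complex.continuous_conj.measurable.comp (hf2.comp (measurable_fst.prodMk (by fun_prop)))
    have h4 : Measurable fun p : Λ × (E m × E m × E m) =>
        (starRingEnd ℂ) (G (p.2.1 - p.2.2.2) * A p.1 (p.2.1 - p.2.2.2)) :=
      Complex.continuous_conj.measurable.comp (hf2.comp (measurable_fst.prodMk (by fun_prop)))
    exact ((h1.mul h2).mul h3).mul h4
  have hΦI : Integrable (Function.uncurry Φ) (μ.prod volume) := by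
    refine hlp_int (S := Set.univ ×ˢ hlp_S m R) ?_ _ hΦm (B * B * B * B) ?_ ?_
    · rw [Measure.prod_prod]
      exact ENNReal.mul_lt_top (measure_lt_top _ _) (hlp_S_fin m R)
    · rintro ⟨l, q⟩
      exact hlp_norm _ B (hfB l) q
    · rintro ⟨l, q⟩ hq
      refine hlp_zero _ R (hfR l) q fun h => hq ⟨Set.mem_univ _, h⟩
  have h1 : ∀ l, ∫⁻ x : E m, ‖∫ w : E m, G w * A l w * ex (inner ℝ w x)‖ₑ ^ (4:ℝ) ≤
      ENNReal.ofReal (∫ q, Φ l q).re := fun l =>
    four_linear (fun w => G w * A l w) (hfm l) B R (hfB l) (hfR l)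
  have h2 : ∀ l, 0 ≤ (∫ q, Φ l q).re := fun l =>
    four_linear_nonneg (fun w => G w * A l w) (hfm l) B R (hfB l) (hfR l)
  have h3 : Integrable (fun l => ∫ q, Φ l q) μ := hΦI.integral_prod_left
  have h4 : ∫⁻ l, ENNReal.ofReal (∫ q, Φ l q).re ∂μ =
      ENNReal.ofReal (∫ l, (∫ q, Φ l q).re ∂μ) :=
    (ofReal_integral_eq_lintegral_ofReal h3.re (Filter.Eventually.of_forall h2)).symm
  have h5 : ∫ l, (∫ q, Φ l q).re ∂μ = (∫ l, (∫ q, Φ l q) ∂μ).re := integral_re h3
  have h6 : ∫ l, (∫ q, Φ l q) ∂μ = ∫ q, (∫ l, Φ l q ∂μ) := integral_integral_swap hΦI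
  have h7 : ∀ q : E m × E m × E m, ‖∫ l, Φ l q ∂μ‖ₑ ≤ ‖∫ l, A l q.1 * A l (q.1 - q.2.1 - q.2.2) *
        (starRingEnd ℂ) (A l (q.1 - q.2.1)) * (starRingEnd ℂ) (A l (q.1 - q.2.2)) ∂μ‖ₑ := by
    intro q
    have h8 : ∀ l, Φ l q = hlp_F G q * (A l q.1 * A l (q.1 - q.2.1 - q.2.2) *
        (starRingEnd ℂ) (A l (q.1 - q.2.1)) * (starRingEnd ℂ) (A l (q.1 - q.2.2))) := by
      intro l
      simp only [Φ, hlp_F, map_mul]
      ring
    rw [integral_congr_ae (Filter.Eventually.of_forall h8), integral_const_mul, enorm_mul]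
    have h9 : ‖hlp_F G q‖ₑ ≤ 1 := by
      have h10 := hlp_norm G 1 hb q
      rw [← ofReal_norm]
      refine ENNReal.ofReal_le_one.2 ?_
      linarith
    calc _ ≤ 1 * _ := mul_le_mul_left h9 _
      _ = _ := one_mul _
  calc ∫⁻ l, (∫⁻ x : E m, ‖∫ w : E m, G w * A l w * ex (inner ℝ w x)‖ₑ ^ (4:ℝ)) ∂μ
      ≤ ∫⁻ l, ENNReal.ofReal (∫ q, Φ l q).re ∂μ := lintegral_mono h1
    _ = ENNReal.ofReal (∫ q, (∫ l, Φ l q ∂μ)).re := by rw [h4, h5, h6]
    _ ≤ ENNReal.ofReal ‖∫ q, (∫ l, Φ l q ∂μ)‖ := ENNReal.ofReal_le_ofReal (Complex.re_le_norm _)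
    _ = ‖∫ q, (∫ l, Φ l q ∂μ)‖ₑ := ofReal_norm _
    _ ≤ ∫⁻ q, ‖∫ l, Φ l q ∂μ‖ₑ := enorm_integral_le_lintegral_enorm _
    _ ≤ _ := lintegral_mono h7

end Pool.Agent.SDT.MST

end -- MST.LP
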