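import Pool.Agent.SDT.B03

set_option autoImplicit false

namespace Pool.Agent.SDT.MP_6cbfb8_an
end Pool.Agent.SDT.MP_6cbfb8_an

section -- MP_6cbfb8_an.LiftDefs

/-!
Definitions for lifting densities from the sphere of `R^(k+1)` to the sphere of `R^(k+l)`.
-/

namespace Pool.Agent.SDT.MP_6cbfb8_an

open MeasureTheory Set
open scoped ENNReal Real

/-- The point `(x, y)` of `R^(k+l)`. -/
noncomputable def bj {k l : ℕ} (x : E k) (y : E l) : E (k + l) :=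
  WithLp.toLp 2 (Fin.append (fun i => x i) (fun i => y i))


/-- The last `l` coordinates of a point of `R^(k+l)`. -/
noncomputable def sndE {k l : ℕ} (x : E (k + l)) : E l :=
  WithLp.toLp 2 fun i => x (Fin.natAdd k i)

/-- The function `G(x', |x''|)` of `x = (x', x'')` in `R^k × R^l`, for a function `G` on
`R^(k+1)`. -/
noncomputable def lift {k l : ℕ} (G : E (k + 1) → ℂ) (x : E (k + l)) : ℂ :=
  G (join (fstE x) ‖(sndE x : E l)‖)

/-- The function `G` times the `j`-th power of the last coordinate on the half space where the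
last coordinate is positive, zero elsewhere. -/
noncomputable def tpow {k : ℕ} (j : ℕ) (G : E (k + 1) → ℂ) (x : E (k + 1)) : ℂ :=
  if 0 < x (Fin.last k) then G x * (((x (Fin.last k)) ^ j : ℝ) : ℂ) else 0

end Pool.Agent.SDT.MP_6cbfb8_an

end -- MP_6cbfb8_an.LiftDefs

section -- MST.Defs2

/-!
Definitions for the theorem on almost every linear image, in all dimensions.
-/

namespace Pool.Agent.SDT.MST

open MeasureTheory Set Pool.Agent.SDT.MP_6cbfb8_an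
open scoped ENNReal Real

/-- Real `m × m` matrices (with product Lebesgue measure). -/
abbrev Mat (m : ℕ) : Type := Fin m → Fin m → ℝ

/-- The product of a matrix and a vector. -/
noncomputable def mv {m : ℕ} (N : Mat m) (w : E m) : E m :=
  WithLp.toLp 2 fun i => ∑ j, N i j * w j

/-- The square of the height of the point of the sphere over `N w`. -/
noncomputable def vN {m : ℕ} (N : Mat m) (w : E m) : ℝ := 1 - ‖mv N w‖ ^ 2

/-- Amplitude and phase. -/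
noncomputable def amp2 {m : ℕ} (a : ℝ → ℝ) (N : Mat m) (t : ℝ) (w : E m) : ℂ :=
  ((a (vN N w) : ℝ) : ℂ) * ex (t * √(vN N w))

/-- The extension operator in linear coordinates. -/
noncomputable def op2 {m : ℕ} (a : ℝ → ℝ) (N : Mat m) (t : ℝ) (G : E m → ℂ) (x : E m) : ℂ :=
  ∫ w : E m, G w * amp2 a N t w * ex (inner ℝ w x)

/-- Smooth cut-off functions vanishing below `c0`. -/
def Cut2 (c0 : ℝ) (a : ℝ → ℝ) : Prop := (∀ n : ℕ, ContDiff ℝ n a) ∧ ∀ v, v ≤ c0 → a v = 0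

/-- The matrix with a single entry `1`. -/
def em {m : ℕ} (k l : Fin m) : Mat m := fun i j => if i = k ∧ j = l then 1 else 0

/-- The weight `v ^ (2 J) exp (-π v²)`. -/
noncomputable def etaJ (J : ℕ) (v : ℝ) : ℝ := v ^ (2 * J) * Real.exp (-(π * v ^ 2))

/-- The weight in the time variable. -/
noncomputable def muJ (J : ℕ) (T : ℝ) : Measure ℝ :=
  (volume : Measure ℝ).withDensity fun t => ENNReal.ofReal (etaJ J (t / T))

/-- The four-term difference of a function at the four points `w, w - y - z, w - y, w - z`. -/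
def fd {m : ℕ} (Φ : E m → ℝ) (w y z : E m) : ℝ :=
  Φ w + Φ (w - y - z) - Φ (w - y) - Φ (w - z)

/-- The kernel of the four-linear form. -/
noncomputable def K2 {m : ℕ} (a : ℝ → ℝ) (φ : Mat m → ℝ) (T : ℝ) (w y z : E m) : ℂ :=
  ∫ l : Mat m × ℝ, amp2 a l.1 l.2 w * amp2 a l.1 l.2 (w - y - z) *
    (starRingEnd ℂ) (amp2 a l.1 l.2 (w - y)) * (starRingEnd ℂ) (amp2 a l.1 l.2 (w - z))
    ∂(((volume : Measure (Mat m)).withDensity fun N => ENNReal.ofReal (φ N)).prod (muJ m T))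

end Pool.Agent.SDT.MST

end -- MST.Defs2

section -- MST.IT

namespace Pool.Agent.SDT.MST

open MeasureTheory Set Pool.Agent.SDT.MP_6cbfb8_an
open scoped ENNReal Real

/-- Iterated directional derivatives. -/
noncomputable def hitD {Q : Type*} [NormedAddCommGroup Q] [NormedSpace ℝ Q] (v : Q) (Ψ : Q → ℝ) :
    ℕ → Q → ℝ
  | 0 => Ψ
  | j + 1 => fun q => fderiv ℝ (hitD v Ψ j) q v

lemma hit_smooth {Q : Type*} [NormedAddCommGroup Q] [NormedSpace ℝ Q] (v : Q) (Ψ : Q → ℝ)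
    (h : ∀ n : ℕ, ContDiff ℝ n Ψ) (j : ℕ) : ∀ n : ℕ, ContDiff ℝ n (hitD v Ψ j) := by
  induction j with
  | zero => exact h
  | succ j ih =>
    intro n
    have h1 := ih (n + 1)
    have h2 : ContDiff ℝ n (fderiv ℝ (hitD v Ψ j)) :=
      h1.fderiv_right (by push_cast; exact le_rfl)
    exact h2.clm_apply contDiff_const

lemma hit_formula {Q : Type*} [NormedAddCommGroup Q] [NormedSpace ℝ Q] (v : Q) (Ψ : Q → ℝ)
    (h : ∀ n : ℕ, ContDiff ℝ n Ψ) (j : ℕ) (q : Q) : ∀ τ : ℝ,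
    iteratedDeriv j (fun τ : ℝ => Ψ (q + τ • v)) τ = hitD v Ψ j (q + τ • v) := by
  induction j with
  | zero => intro τ; simp [hitD]
  | succ j ih =>
    intro τ
    rw [iteratedDeriv_succ, funext ih]
    have h1 : DifferentiableAt ℝ (hitD v Ψ j) (q + τ • v) :=
      ((hit_smooth v Ψ h j 1).differentiable (by norm_num)) _
    have h2 : HasDerivAt (fun τ : ℝ => q + τ • v) v τ := by
      have h3 : HasDerivAt (fun τ : ℝ => τ • v) ((1 : ℝ) • v) τ := (hasDerivAt_id τ).smul_const v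
      rw [one_smul] at h3
      exact h3.const_add q
    exact (h1.hasFDerivAt.comp_hasDerivAt τ h2).deriv

/-
ROW IT (1.2 h). Iterated derivatives in one parameter of a smooth function of several variables.
iter_smooth: Φ 0 = Ψ, Φ (j+1) q := fderiv ℝ (Φ j) q (em k l, 0) (smooth: ContDiff.fderiv_right / clm_apply); the formula by induction on j:
iteratedDeriv_succ, HasFDerivAt composed with the affine map τ ↦ (N + τ • em k l, p).
iter_bdd: same with ℝ × P and direction (1, 0): the functions (τ,p) ↦ iteratedDeriv j (fun τ => Ψ (τ,p)) τ are continuous, hence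
bounded on the compact set {|τ| ≤ R, ‖p‖ ≤ R} (P finite-dimensional, isCompact_closedBall).
second_diff: with g (s,t) = Φ (N, w - s•y - t•z) the difference is ∫_0^1∫_0^1 ∂_s∂_t g, or apply the mean value inequality twice:
D(y) := Φ(N, w-y) - Φ(N, w-y-z) as a function of y has derivative bounded by sup‖D²Φ‖ ‖z‖ (norm_image_sub_le of the
segment), the point stays in ‖·‖ ≤ 3R, where the second derivative is bounded (compactness, ContDiff 2).
-/
theorem iter_smooth {m : ℕ} {P : Type*} [NormedAddCommGroup P] [NormedSpace ℝ P] (k l : Fin m)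
    (Ψ : Mat m × P → ℝ) (h : ∀ n : ℕ, ContDiff ℝ n Ψ) : ∃ Φ : ℕ → Mat m × P → ℝ,
    Φ 0 = Ψ ∧ (∀ (j n : ℕ), ContDiff ℝ n (Φ j)) ∧ ∀ (j : ℕ) (N : Mat m) (p : P) (τ : ℝ),
      iteratedDeriv j (fun τ : ℝ => Ψ (N + τ • em k l, p)) τ = Φ j (N + τ • em k l, p) := by
  refine ⟨hitD (em k l, (0 : P)) Ψ, rfl, hit_smooth _ Ψ h, fun j N p τ => ?_⟩
  have h1 := hit_formula ((em k l, (0 : P)) : Mat m × P) Ψ h j (N, p) τ
  have h2 : ∀ τ : ℝ, ((N, p) : Mat m × P) + τ • ((em k l, (0 : P)) : Mat m × P) =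
      (N + τ • em k l, p) := by
    intro τ
    ext <;> simp
  simp only [h2] at h1
  exact h1

theorem iter_bdd {P : Type*} [NormedAddCommGroup P] [NormedSpace ℝ P] [FiniteDimensional ℝ P]
    (Ψ : ℝ × P → ℝ) (h : ∀ n : ℕ, ContDiff ℝ n Ψ) (J : ℕ) (R : ℝ) : ∃ C : ℝ, 0 ≤ C ∧
    ∀ p : P, ‖p‖ ≤ R → ∀ τ : ℝ, |τ| ≤ R → ∀ j ≤ J,
      |iteratedDeriv j (fun τ : ℝ => Ψ (τ, p)) τ| ≤ C := by
  have hb : ∀ j : ℕ, ∃ C : ℝ, ∀ q ∈ Metric.closedBall (0 : ℝ × P) R,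
      ‖hitD ((1, 0) : ℝ × P) Ψ j q‖ ≤ C := by
    intro j
    have : ProperSpace (ℝ × P) := FiniteDimensional.proper_real (ℝ × P)
    exact (isCompact_closedBall (0 : ℝ × P) R).exists_bound_of_continuousOn
      ((hit_smooth _ Ψ h j 0).continuous.continuousOn)
  choose C hC using hb
  refine ⟨∑ j ∈ Finset.range (J + 1), |C j|, Finset.sum_nonneg fun _ _ => abs_nonneg _, ?_⟩
  intro p hp τ hτ j hj
  have h1 := hit_formula ((1, (0 : P)) : ℝ × P) Ψ h j (0, p) τ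
  have h2 : ∀ τ : ℝ, ((0, p) : ℝ × P) + τ • ((1, (0 : P)) : ℝ × P) = (τ, p) := by
    intro τ
    ext <;> simp
  simp only [h2] at h1
  rw [h1]
  have h3 : ((τ, p) : ℝ × P) ∈ Metric.closedBall (0 : ℝ × P) R := by
    rw [mem_closedBall_zero_iff, Prod.norm_def]
    exact max_le (by rw [Real.norm_eq_abs]; exact hτ) hp
  have h4 := hC j _ h3
  rw [Real.norm_eq_abs] at h4
  refine (h4.trans (le_abs_self _)).trans ?_
  exact Finset.single_le_sum (f := fun j => |C j|) (fun _ _ => abs_nonneg _)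
    (Finset.mem_range.mpr (by omega))

theorem second_diff {m : ℕ} {Q : Type*} [NormedAddCommGroup Q] [NormedSpace ℝ Q]
    [FiniteDimensional ℝ Q] (Φ : Q × E m → ℝ) (h : ContDiff ℝ 2 Φ) (R : ℝ) : ∃ C : ℝ, 0 ≤ C ∧
    ∀ N : Q, ‖N‖ ≤ R → ∀ w y z : E m, ‖w‖ ≤ R → ‖y‖ ≤ R → ‖z‖ ≤ R →
      |fd (fun w => Φ (N, w)) w y z| ≤ C * (‖y‖ * ‖z‖) := by
  have : ProperSpace (Q × E m) := FiniteDimensional.proper_real (Q × E m)
  have hG : ContDiff ℝ 1 (fderiv ℝ Φ) := h.fderiv_right (by norm_num)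
  obtain ⟨C0, hC0⟩ := (isCompact_closedBall (0 : Q × E m) (3 * R)).exists_bound_of_continuousOn
    (f := fderiv ℝ (fderiv ℝ Φ)) ((hG.continuous_fderiv (by norm_num)).continuousOn)
  refine ⟨max C0 0, le_max_right _ _, ?_⟩
  intro N hN w y z hw hy hz
  have hR : 0 ≤ R := le_trans (norm_nonneg _) hN
  set v : Q × E m := (0, z) with hv
  have hvn : ‖v‖ = ‖z‖ := by rw [hv, Prod.norm_def]; simp
  -- Lipschitz bound of the first derivative
  have hL : ∀ p ∈ Metric.closedBall (0 : Q × E m) (3 * R),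
      ∀ q ∈ Metric.closedBall (0 : Q × E m) (3 * R),
      ‖fderiv ℝ Φ q - fderiv ℝ Φ p‖ ≤ max C0 0 * ‖q - p‖ := by
    intro p hp q hq
    refine (convex_closedBall (0 : Q × E m) (3 * R)).norm_image_sub_le_of_norm_fderiv_le
      (𝕜 := ℝ) (fun x _ => (hG.differentiable (by norm_num)) x) (fun x hx => ?_) hp hq
    exact (hC0 x hx).trans (le_max_left _ _)
  set s : Set (Q × E m) := Metric.closedBall (0 : Q × E m) (3 * R) ∩
    Metric.closedBall v (3 * R) with hs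
  have hsc : Convex ℝ s := (convex_closedBall _ _).inter (convex_closedBall _ _)
  have hD : ∀ x ∈ s, HasFDerivWithinAt (fun q => Φ q - Φ (q - v))
      (fderiv ℝ Φ x - fderiv ℝ Φ (x - v)) s x := by
    intro x _
    have h1 : HasFDerivAt Φ (fderiv ℝ Φ x) x := ((h.differentiable (by norm_num)) x).hasFDerivAt
    have h2 : HasFDerivAt Φ (fderiv ℝ Φ (x - v)) (x - v) :=
      ((h.differentiable (by norm_num)) (x - v)).hasFDerivAt
    have h3 : HasFDerivAt (fun q => Φ (q - v)) (fderiv ℝ Φ (x - v)) x := by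
      have h4 : HasFDerivAt (fun q : Q × E m => q - v) (ContinuousLinearMap.id ℝ (Q × E m)) x :=
        (hasFDerivAt_id x).sub_const v
      have h5 := h2.comp x h4
      rw [ContinuousLinearMap.comp_id] at h5
      exact h5
    exact (h1.sub h3).hasFDerivWithinAt
  have hbd : ∀ x ∈ s, ‖fderiv ℝ Φ x - fderiv ℝ Φ (x - v)‖ ≤ max C0 0 * ‖z‖ := by
    intro x hx
    have h1 : x - v ∈ Metric.closedBall (0 : Q × E m) (3 * R) := by
      rw [mem_closedBall_zero_iff, ← dist_eq_norm]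
      exact hx.2
    have h2 := hL (x - v) h1 x hx.1
    rwa [sub_sub_cancel, hvn] at h2
  have hpair : ∀ u : E m, ‖(N, u)‖ ≤ 3 * R ↔ ‖u‖ ≤ 3 * R := by
    intro u
    rw [Prod.norm_def]
    constructor
    · intro h; exact (le_max_right _ _).trans h
    · intro h; exact max_le (by linarith) h
  have hsub : ∀ u : E m, ((N, u) : Q × E m) - v = (N, u - z) := by
    intro u; rw [hv]; ext <;> simp
  have hmem : ∀ u : E m, ‖u‖ ≤ 3 * R → ‖u - z‖ ≤ 3 * R → ((N, u) : Q × E m) ∈ s := by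
    intro u h1 h2
    refine ⟨?_, ?_⟩
    · rw [mem_closedBall_zero_iff]; exact (hpair u).mpr h1
    · rw [mem_closedBall_iff_norm, hsub]; exact (hpair _).mpr h2
  have n1 : ‖w - z‖ ≤ 2 * R := (norm_sub_le _ _).trans (by linarith)
  have n2 : ‖w - y‖ ≤ 2 * R := (norm_sub_le _ _).trans (by linarith)
  have n3 : ‖w - y - z‖ ≤ 3 * R := (norm_sub_le _ _).trans (by linarith)
  have hfin := hsc.norm_image_sub_le_of_norm_hasFDerivWithin_le hD hbd
    (hmem (w - y) (by linarith) n3) (hmem w (by linarith) (by linarith))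
  have h7 : ((N, w) : Q × E m) - (N, w - y) = (0, y) := by ext <;> simp
  have h8 : ‖((0, y) : Q × E m)‖ = ‖y‖ := by rw [Prod.norm_def]; simp
  rw [h7, h8, hsub, hsub, Real.norm_eq_abs] at hfin
  have h9 : fd (fun w => Φ (N, w)) w y z =
      Φ (N, w) - Φ (N, w - z) - (Φ (N, w - y) - Φ (N, w - y - z)) := by
    unfold fd
    ring
  rw [h9]
  refine hfin.trans (le_of_eq ?_)
  ring

end Pool.Agent.SDT.MST

end -- MST.IT

section -- MST.TS

namespace Pool.Agent.SDT.MST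

open MeasureTheory Set Pool.Agent.SDT.MP_6cbfb8_an
open scoped ENNReal Real

theorem hts_cover (g : ℝ → ℝ≥0∞) : ∫⁻ t : ℝ, g t ≤ (∫⁻ t in {t : ℝ | |t| ≤ 1}, g t) +
    ∑' i : ℕ, ∫⁻ t in {t : ℝ | (2:ℝ) ^ i ≤ |t| ∧ |t| ≤ 2 * 2 ^ i}, g t := by
  have h1 : (univ : Set ℝ) ⊆ {t : ℝ | |t| ≤ 1} ∪
      ⋃ i : ℕ, {t : ℝ | (2:ℝ) ^ i ≤ |t| ∧ |t| ≤ 2 * 2 ^ i} := by
    intro t _
    by_cases ht : |t| ≤ 1
    · exact Or.inl ht
    · right
      rw [not_le] at ht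
      rw [mem_iUnion]
      obtain ⟨n, hn1, hn2⟩ := exists_nat_pow_near ht.le (one_lt_two (α := ℝ))
      refine ⟨n, hn1, ?_⟩
      rw [pow_succ] at hn2
      linarith
  calc ∫⁻ t : ℝ, g t = ∫⁻ t in univ, g t := by rw [Measure.restrict_univ]
    _ ≤ ∫⁻ t in ({t : ℝ | |t| ≤ 1} ∪ ⋃ i : ℕ, {t : ℝ | (2:ℝ) ^ i ≤ |t| ∧ |t| ≤ 2 * 2 ^ i}), g t :=
        lintegral_mono_set h1
    _ ≤ (∫⁻ t in {t : ℝ | |t| ≤ 1}, g t) +
        ∫⁻ t in (⋃ i : ℕ, {t : ℝ | (2:ℝ) ^ i ≤ |t| ∧ |t| ≤ 2 * 2 ^ i}), g t :=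
        lintegral_union_le _ _ _
    _ ≤ _ := by
        gcongr
        exact lintegral_iUnion_le _ _

theorem hts_vol (T : ℝ) (hT : 0 ≤ T) :
    volume {t : ℝ | T ≤ |t| ∧ |t| ≤ 2 * T} ≤ ENNReal.ofReal (2 * T) := by
  have h1 : {t : ℝ | T ≤ |t| ∧ |t| ≤ 2 * T} ⊆ Icc T (2 * T) ∪ Icc (-(2 * T)) (-T) := by
    rintro t ⟨h2, h3⟩
    rcases le_total 0 t with h4 | h4
    · rw [abs_of_nonneg h4] at h2 h3
      exact Or.inl ⟨h2, h3⟩
    · rw [abs_of_nonpos h4] at h2 h3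
      exact Or.inr ⟨by linarith, by linarith⟩
  refine (measure_mono h1).trans ((measure_union_le _ _).trans ?_)
  rw [Real.volume_Icc, Real.volume_Icc, ← ENNReal.ofReal_add (by linarith) (by linarith)]
  exact ENNReal.ofReal_le_ofReal (by linarith)

theorem hts_measSet (T : ℝ) : MeasurableSet {t : ℝ | T ≤ |t| ∧ |t| ≤ 2 * T} :=
  (measurableSet_le measurable_const measurable_abs).inter
    (measurableSet_le measurable_abs measurable_const)

/-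
ROW TS (1.2 h). Summation over dyadic time shells; pure measure theory.
Split ℝ ∋ t into |t| < 1 and the shells 2^i ≤ |t| ≤ 2^(i+1), i ≥ 0 (cover, lintegral_iUnion_le).
|t| < 1: ‖F‖^p ≤ C2^(p-2) ‖F‖², so ∫⁻ l ∫⁻ |t|<1 ∫⁻ x ≤ C2^(p-2)·C1·2·π(univ).
Shell T = 2^i: Hölder on the product space P × shell × X (`lintegral_interp` of Tools.lean with q = 4,
p = 2a + 4(1-a), a = (4-p)/2, 1-a = (p-2)/2; it is stated for one measure, use the product measure or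
iterate): ≤ (π(univ)·2T·C1)^((4-p)/2) · (C3 T^(-β))^((p-2)/2) (the set {T ≤ |t| ≤ 2T} has measure 2T).
Exponent of T: (4-p)/2 - β(p-2)/2 < 0: geometric series. [`F` measurable in (l, t, x).]
-/
theorem time_sum {P X : Type*} [MeasurableSpace P] [MeasurableSpace X] (π' : Measure P)
    [IsFiniteMeasure π'] (ν : Measure X) [SFinite ν] (p β : ℝ) (hp : 2 < p) (hp4 : p < 4)
    (hβ : 4 - p < β * (p - 2)) : ∃ C : ℝ≥0∞, C ≠ ∞ ∧ ∀ (F : P → ℝ → X → ℂ),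
    (Measurable fun q : P × ℝ × X => F q.1 q.2.1 q.2.2) → ∀ C1 C2 C3 : ℝ≥0∞,
    (∀ l t, ∫⁻ x, ‖F l t x‖ₑ ^ (2:ℝ) ∂ν ≤ C1) → (∀ l t x, ‖F l t x‖ₑ ≤ C2) →
    (∀ T : ℝ, 1 ≤ T → ∫⁻ l, (∫⁻ t in {t : ℝ | T ≤ |t| ∧ |t| ≤ 2 * T},
      (∫⁻ x, ‖F l t x‖ₑ ^ (4:ℝ) ∂ν)) ∂π' ≤ C3 * ENNReal.ofReal (T ^ (-β))) →
    ∫⁻ l, (∫⁻ t : ℝ, (∫⁻ x, ‖F l t x‖ₑ ^ p ∂ν)) ∂π' ≤
      C * (C2 ^ (p - 2) * C1 + C1 ^ ((4 - p) / 2) * C3 ^ ((p - 2) / 2)) := by
  obtain ⟨m0, hm00⟩ : ∃ m0 : ℝ≥0∞, m0 = π' univ := ⟨_, rfl⟩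
  have hmf0 : m0 ≠ ∞ := by rw [hm00]; exact measure_ne_top _ _
  obtain ⟨δ, hδ⟩ : ∃ δ : ℝ, δ = (β * (p - 2) - (4 - p)) / 2 := ⟨_, rfl⟩
  have hδ0 : 0 < δ := by rw [hδ]; linarith
  obtain ⟨ρ, hρ⟩ : ∃ ρ : ℝ, ρ = (2:ℝ) ^ (-δ) := ⟨_, rfl⟩
  have hρ0 : 0 < ρ := by rw [hρ]; positivity
  have hρ1 : ρ < 1 := by
    rw [hρ]
    exact Real.rpow_lt_one_of_one_lt_of_neg one_lt_two (by linarith)
  have hC : (2 * m0 + (2 * m0) ^ ((4 - p) / 2) * (1 - ENNReal.ofReal ρ)⁻¹ : ℝ≥0∞) ≠ ∞ := by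
    refine ENNReal.add_ne_top.2 ⟨ENNReal.mul_ne_top (by norm_num) hmf0, ENNReal.mul_ne_top ?_ ?_⟩
    · exact ENNReal.rpow_ne_top_of_nonneg (by linarith) (ENNReal.mul_ne_top (by norm_num) hmf0)
    · rw [ENNReal.inv_ne_top]
      rw [Ne, tsub_eq_zero_iff_le, not_le]
      exact ENNReal.ofReal_lt_one.2 hρ1
  refine ⟨_, hC, ?_⟩
  intro F hF C1 C2 C3 h1 h2 h3
  have hm : Measurable fun q : P × ℝ × X => ‖F q.1 q.2.1 q.2.2‖ₑ := hF.enorm
  have hmp : ∀ e : ℝ, Measurable fun q : P × ℝ × X => ‖F q.1 q.2.1 q.2.2‖ₑ ^ e :=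
    fun e => hm.pow_const e
  have hmg : ∀ e : ℝ, Measurable fun q : P × ℝ => ∫⁻ x, ‖F q.1 q.2 x‖ₑ ^ e ∂ν := by
    intro e
    have h4 : Measurable fun q : (P × ℝ) × X => ‖F q.1.1 q.1.2 q.2‖ₑ ^ e :=
      (hmp e).comp (measurable_fst.fst.prodMk (measurable_fst.snd.prodMk measurable_snd))
    exact h4.lintegral_prod_right'
  have hmS : ∀ (e : ℝ) (s : Set ℝ), Measurable fun l : P =>
      ∫⁻ t in s, (∫⁻ x, ‖F l t x‖ₑ ^ e ∂ν) := fun e s => (hmg e).lintegral_prod_right'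
  -- triple integrals as integrals over the product
  have hprod : ∀ (e : ℝ) (s : Set ℝ), ∫⁻ q : P × ℝ × X, ‖F q.1 q.2.1 q.2.2‖ₑ ^ e
      ∂(π'.prod ((volume.restrict s).prod ν)) =
      ∫⁻ l, (∫⁻ t in s, (∫⁻ x, ‖F l t x‖ₑ ^ e ∂ν)) ∂π' := by
    intro e s
    rw [lintegral_prod _ (hmp e).aemeasurable]
    refine lintegral_congr fun l => ?_
    rw [lintegral_prod]
    exact ((hmp e).comp (measurable_const.prodMk measurable_id)).aemeasurable
  -- second moments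
  have hsec : ∀ s : Set ℝ, ∫⁻ l, (∫⁻ t in s, (∫⁻ x, ‖F l t x‖ₑ ^ (2:ℝ) ∂ν)) ∂π' ≤
      C1 * volume s * m0 := by
    intro s
    calc ∫⁻ l, (∫⁻ t in s, (∫⁻ x, ‖F l t x‖ₑ ^ (2:ℝ) ∂ν)) ∂π' ≤ ∫⁻ _l : P, (∫⁻ _t in s, C1) ∂π' :=
          lintegral_mono fun l => lintegral_mono fun t => h1 l t
      _ = C1 * volume s * m0 := by
          simp only [lintegral_const, Measure.restrict_apply MeasurableSet.univ, univ_inter, hm00]
  -- small times
  have hA : ∫⁻ l, (∫⁻ t in {t : ℝ | |t| ≤ 1}, (∫⁻ x, ‖F l t x‖ₑ ^ p ∂ν)) ∂π' ≤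
      2 * m0 * (C2 ^ (p - 2) * C1) := by
    calc ∫⁻ l, (∫⁻ t in {t : ℝ | |t| ≤ 1}, (∫⁻ x, ‖F l t x‖ₑ ^ p ∂ν)) ∂π'
        ≤ ∫⁻ _l : P, (∫⁻ _t in {t : ℝ | |t| ≤ 1}, C2 ^ (p - 2) * C1) ∂π' := by
          refine lintegral_mono fun l => lintegral_mono fun t => ?_
          calc ∫⁻ x, ‖F l t x‖ₑ ^ p ∂ν ≤ C2 ^ (p - 2) * ∫⁻ x, ‖F l t x‖ₑ ^ (2:ℝ) ∂ν :=
                lintegral_rpow_le_sup _
                  (hm.comp (measurable_const.prodMk (measurable_const.prodMk measurable_id)))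
                  zero_le_two hp.le C2 (fun x => h2 l t x)
            _ ≤ C2 ^ (p - 2) * C1 := by
                gcongr
                exact h1 l t
      _ = C2 ^ (p - 2) * C1 * volume {t : ℝ | |t| ≤ 1} * m0 := by
          simp only [lintegral_const, Measure.restrict_apply MeasurableSet.univ, univ_inter, hm00]
      _ ≤ 2 * m0 * (C2 ^ (p - 2) * C1) := by
          have h4 : {t : ℝ | |t| ≤ 1} = Icc (-1) 1 := by
            ext t
            rw [mem_ofPred_eq, mem_Icc]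
            exact abs_le
          rw [h4, Real.volume_Icc]
          norm_num
          exact le_of_eq (by ring)
  -- shells
  have hB : ∀ i : ℕ, ∫⁻ l, (∫⁻ t in {t : ℝ | (2:ℝ) ^ i ≤ |t| ∧ |t| ≤ 2 * 2 ^ i},
      (∫⁻ x, ‖F l t x‖ₑ ^ p ∂ν)) ∂π' ≤
      (2 * m0) ^ ((4 - p) / 2) * (C1 ^ ((4 - p) / 2) * C3 ^ ((p - 2) / 2)) * ENNReal.ofReal ρ ^ i := by
    intro i
    have hT : (1:ℝ) ≤ 2 ^ i := one_le_pow₀ one_le_two
    have h4 := h3 _ hT
    rw [← hprod] at h4 ⊢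
    have h5 := hsec {t : ℝ | (2:ℝ) ^ i ≤ |t| ∧ |t| ≤ 2 * 2 ^ i}
    rw [← hprod] at h5
    have h6 := lintegral_interp (μ := π'.prod
      ((volume.restrict {t : ℝ | (2:ℝ) ^ i ≤ |t| ∧ |t| ≤ 2 * 2 ^ i}).prod ν)) _ hm
      (p := p) (q := 4) (a := (4 - p) / 2) (by linarith) (by linarith) (by norm_num) (by ring)
    have e1 : 1 - (4 - p) / 2 = (p - 2) / 2 := by ring
    rw [e1] at h6
    refine h6.trans ?_
    have h7 : C1 * volume {t : ℝ | (2:ℝ) ^ i ≤ |t| ∧ |t| ≤ 2 * 2 ^ i} * m0 ≤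
        2 * m0 * C1 * ENNReal.ofReal (2 ^ i) := by
      calc C1 * volume {t : ℝ | (2:ℝ) ^ i ≤ |t| ∧ |t| ≤ 2 * 2 ^ i} * m0 ≤
          C1 * ENNReal.ofReal (2 * 2 ^ i) * m0 := by
            gcongr
            exact hts_vol _ (by linarith)
        _ = 2 * m0 * C1 * ENNReal.ofReal (2 ^ i) := by
            rw [ENNReal.ofReal_mul zero_le_two, ENNReal.ofReal_ofNat]
            ring
    calc _ ≤ (2 * m0 * C1 * ENNReal.ofReal (2 ^ i)) ^ ((4 - p) / 2) *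
          (C3 * ENNReal.ofReal ((2 ^ i) ^ (-β))) ^ ((p - 2) / 2) :=
          mul_le_mul' (ENNReal.rpow_le_rpow (h5.trans h7) (by linarith))
            (ENNReal.rpow_le_rpow h4 (by linarith))
      _ = (2 * m0) ^ ((4 - p) / 2) * (C1 ^ ((4 - p) / 2) * C3 ^ ((p - 2) / 2)) *
          (ENNReal.ofReal (2 ^ i) ^ ((4 - p) / 2) *
            ENNReal.ofReal ((2 ^ i) ^ (-β)) ^ ((p - 2) / 2)) := by
          rw [ENNReal.mul_rpow_of_nonneg _ _ (by linarith : 0 ≤ (4 - p) / 2),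
            ENNReal.mul_rpow_of_nonneg _ _ (by linarith : 0 ≤ (4 - p) / 2),
            ENNReal.mul_rpow_of_nonneg _ _ (by linarith : 0 ≤ (p - 2) / 2)]
          ring
      _ = _ := by
          congr 1
          rw [ENNReal.ofReal_rpow_of_nonneg (by positivity) (by linarith),
            ENNReal.ofReal_rpow_of_nonneg (by positivity) (by linarith),
            ← ENNReal.ofReal_mul (by positivity), ← ENNReal.ofReal_pow hρ0.le]
          congr 1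
          rw [hρ, ← Real.rpow_natCast 2 i, ← Real.rpow_natCast ((2:ℝ) ^ (-δ)) i,
            ← Real.rpow_mul zero_le_two, ← Real.rpow_mul zero_le_two, ← Real.rpow_mul zero_le_two,
            ← Real.rpow_mul zero_le_two, ← Real.rpow_add two_pos]
          congr 1
          rw [hδ]
          ring
  calc ∫⁻ l, (∫⁻ t : ℝ, (∫⁻ x, ‖F l t x‖ₑ ^ p ∂ν)) ∂π'
      ≤ ∫⁻ l, ((∫⁻ t in {t : ℝ | |t| ≤ 1}, (∫⁻ x, ‖F l t x‖ₑ ^ p ∂ν)) +
        ∑' i : ℕ, ∫⁻ t in {t : ℝ | (2:ℝ) ^ i ≤ |t| ∧ |t| ≤ 2 * 2 ^ i},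
          (∫⁻ x, ‖F l t x‖ₑ ^ p ∂ν)) ∂π' := lintegral_mono fun l => hts_cover _
    _ = (∫⁻ l, (∫⁻ t in {t : ℝ | |t| ≤ 1}, (∫⁻ x, ‖F l t x‖ₑ ^ p ∂ν)) ∂π') +
        ∑' i : ℕ, ∫⁻ l, (∫⁻ t in {t : ℝ | (2:ℝ) ^ i ≤ |t| ∧ |t| ≤ 2 * 2 ^ i},
          (∫⁻ x, ‖F l t x‖ₑ ^ p ∂ν)) ∂π' := by
        rw [lintegral_add_left (hmS p _), lintegral_tsum fun i => (hmS p _).aemeasurable]
    _ ≤ 2 * m0 * (C2 ^ (p - 2) * C1) +
        ∑' i : ℕ, (2 * m0) ^ ((4 - p) / 2) * (C1 ^ ((4 - p) / 2) * C3 ^ ((p - 2) / 2)) *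
          ENNReal.ofReal ρ ^ i := add_le_add hA (ENNReal.tsum_le_tsum hB)
    _ = 2 * m0 * (C2 ^ (p - 2) * C1) +
        (2 * m0) ^ ((4 - p) / 2) * (1 - ENNReal.ofReal ρ)⁻¹ *
          (C1 ^ ((4 - p) / 2) * C3 ^ ((p - 2) / 2)) := by
        rw [ENNReal.tsum_mul_left, ENNReal.tsum_geometric]
        ring
    _ ≤ _ := by
        obtain ⟨A, hA'⟩ : ∃ A, A = 2 * m0 := ⟨_, rfl⟩
        obtain ⟨B, hB'⟩ : ∃ B, B = (2 * m0) ^ ((4 - p) / 2) * (1 - ENNReal.ofReal ρ)⁻¹ := ⟨_, rfl⟩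
        obtain ⟨U, hU⟩ : ∃ U, U = C2 ^ (p - 2) * C1 := ⟨_, rfl⟩
        obtain ⟨V, hV⟩ : ∃ V, V = C1 ^ ((4 - p) / 2) * C3 ^ ((p - 2) / 2) := ⟨_, rfl⟩
        rw [← hB', ← hU, ← hV, ← hA']
        calc A * U + B * V ≤ (A + B) * U + (A + B) * V :=
              add_le_add (mul_le_mul' le_self_add le_rfl) (mul_le_mul' le_add_self le_rfl)
          _ = (A + B) * (U + V) := by ring

end Pool.Agent.SDT.MST

end -- MST.TS
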