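import Pool.Agent.SDT.B03

set_option autoImplicit false

namespace Pool.Agent.SDT.MP_6cbfb8_an
end Pool.Agent.SDT.MP_6cbfb8_an
namespace Pool.Agent.SDT.MST
end Pool.Agent.SDT.MST
namespace Pool.Agent.SDT.N1
end Pool.Agent.SDT.N1

section -- MP_6cbfb8_an.LiftC

namespace Pool.Agent.SDT.MP_6cbfb8_an

open MeasureTheory Set
open scoped ENNReal Real

noncomputable def liftC_A (e : ℤ) (p : Polynomial ℝ) (u : ℝ) : ℝ :=
  Real.sin u ^ e * p.eval (Real.cos u)

noncomputable def liftC_T (e : ℤ) (p : Polynomial ℝ) : Polynomial ℝ :=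
  (1 - Polynomial.X ^ 2) * Polynomial.derivative p - Polynomial.C ((e : ℝ) - 1) * Polynomial.X * p

theorem liftC_hasDerivAt (e : ℤ) (p : Polynomial ℝ) {u : ℝ} (hu : 0 < Real.sin u) :
    HasDerivAt (liftC_A (e - 1) p) (-liftC_A (e - 2) (liftC_T e p) u) u := by
  have h1 : HasDerivAt (fun u => Real.sin u ^ (e - 1))
      (((e - 1 : ℤ) : ℝ) * Real.sin u ^ (e - 1 - 1) * Real.cos u) u :=
    (hasDerivAt_zpow (e - 1) (Real.sin u) (Or.inl hu.ne')).comp u (Real.hasDerivAt_sin u)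
  have h2 : HasDerivAt (fun u => p.eval (Real.cos u))
      ((Polynomial.derivative p).eval (Real.cos u) * (-Real.sin u)) u :=
    (p.hasDerivAt (Real.cos u)).comp u (Real.hasDerivAt_cos u)
  refine (h1.mul h2).congr_deriv ?_
  have h3 : Real.sin u ^ (e - 1) = Real.sin u ^ (e - 2) * Real.sin u := by
    rw [← zpow_add_one₀ hu.ne']; congr 1; ring
  have h4 : e - 1 - 1 = e - 2 := by ring
  have h5 : Real.sin u ^ 2 = 1 - Real.cos u ^ 2 := Real.sin_sq u
  unfold liftC_A liftC_T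
  rw [h3, h4]
  simp only [Polynomial.eval_sub, Polynomial.eval_mul, Polynomial.eval_one, Polynomial.eval_pow,
    Polynomial.eval_X, Polynomial.eval_C]
  push_cast
  linear_combination (-(Real.sin u ^ (e - 2)) *
    (Polynomial.derivative p).eval (Real.cos u)) * h5

theorem liftC_sin_pos {u0 u : ℝ} (hu0 : 0 < u0) (hu : u ∈ Icc u0 (π - u0)) :
    0 < Real.sin u :=
  Real.sin_pos_of_pos_of_lt_pi (by linarith [hu.1]) (by linarith [hu.2])

theorem liftC_cont (e : ℤ) (p : Polynomial ℝ) {u0 : ℝ} (hu0 : 0 < u0) :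
    ContinuousOn (liftC_A e p) (Icc u0 (π - u0)) := by
  unfold liftC_A
  apply ContinuousOn.mul
  · exact (Real.continuous_sin.continuousOn).zpow₀ e fun u hu => Or.inl (liftC_sin_pos hu0 hu).ne'
  · exact (p.continuous.comp Real.continuous_cos).continuousOn

theorem liftC_fcont {f : ℕ → ℝ → ℂ}
    (hf : ∀ j v, HasDerivAt (f j) (-(2 * π * Complex.I) * f (j + 1) v) v) (j : ℕ) :
    Continuous (f j) :=
  continuous_iff_continuousAt.2 fun v => (hf j v).continuousAt

theorem liftC_step (e : ℤ) (p : Polynomial ℝ) {z u0 : ℝ} (hz : 0 < z) (hu0 : 0 < u0)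
    (hu1 : u0 ≤ π / 2) (n : ℕ) {f : ℕ → ℝ → ℂ}
    (hf : ∀ j v, HasDerivAt (f j) (-(2 * π * Complex.I) * f (j + 1) v) v) :
    ∫ u in u0..(π - u0), (liftC_A e p u : ℂ) * f (n + 1) (z * Real.cos u) =
      (2 * π * Complex.I * z)⁻¹ *
        ((liftC_A (e - 1) p (π - u0) : ℂ) * f n (z * Real.cos (π - u0))
          - (liftC_A (e - 1) p u0 : ℂ) * f n (z * Real.cos u0)
          + ∫ u in u0..(π - u0), (liftC_A (e - 2) (liftC_T e p) u : ℂ) *
              f n (z * Real.cos u)) := by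
  have hle : u0 ≤ π - u0 := by linarith
  have hI : uIcc u0 (π - u0) = Icc u0 (π - u0) := uIcc_of_le hle
  have hfc := liftC_fcont hf
  have cA : ∀ (e : ℤ) (p : Polynomial ℝ) (m : ℕ), IntervalIntegrable
      (fun u => (liftC_A e p u : ℂ) * f m (z * Real.cos u)) volume u0 (π - u0) := by
    intro e p m
    apply ContinuousOn.intervalIntegrable
    rw [hI]
    apply ContinuousOn.mul
    · exact Complex.continuous_ofReal.comp_continuousOn (liftC_cont e p hu0)
    · exact ((hfc m).comp (continuous_const.mul Real.continuous_cos)).continuousOn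
  have hder : ∀ u ∈ uIcc u0 (π - u0), HasDerivAt
      (fun u => (liftC_A (e - 1) p u : ℂ) * f n (z * Real.cos u))
      ((2 * π * Complex.I * z) * ((liftC_A e p u : ℂ) * f (n + 1) (z * Real.cos u))
        - (liftC_A (e - 2) (liftC_T e p) u : ℂ) * f n (z * Real.cos u)) u := by
    intro u hu
    rw [hI] at hu
    have hs := liftC_sin_pos hu0 hu
    have h1 : HasDerivAt (fun u => (liftC_A (e - 1) p u : ℂ))
        ((-liftC_A (e - 2) (liftC_T e p) u : ℝ) : ℂ) u := (liftC_hasDerivAt e p hs).ofReal_comp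
    have h2 : HasDerivAt (fun u => z * Real.cos u) (z * -Real.sin u) u :=
      (Real.hasDerivAt_cos u).const_mul z
    have h3 : HasDerivAt (fun u => f n (z * Real.cos u))
        ((z * -Real.sin u) • (-(2 * π * Complex.I) * f (n + 1) (z * Real.cos u))) u :=
      (hf n (z * Real.cos u)).scomp u h2
    refine (h1.mul h3).congr_deriv ?_
    have h4 : liftC_A e p u = liftC_A (e - 1) p u * Real.sin u := by
      unfold liftC_A
      have : Real.sin u ^ e = Real.sin u ^ (e - 1) * Real.sin u := by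
        rw [← zpow_add_one₀ hs.ne']; congr 1; ring
      rw [this]; ring
    rw [h4, Complex.real_smul]
    push_cast
    ring
  have hint := intervalIntegral.integral_eq_sub_of_hasDerivAt hder
    (((cA e p (n + 1)).const_mul _).sub (cA (e - 2) (liftC_T e p) n))
  rw [intervalIntegral.integral_sub ((cA e p (n + 1)).const_mul _) (cA _ _ n),
    intervalIntegral.integral_const_mul] at hint
  have hne : (2 * π * Complex.I * z : ℂ) ≠ 0 := by
    have hπ : (π : ℂ) ≠ 0 := Complex.ofReal_ne_zero.2 Real.pi_ne_zero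
    have hz' : (z : ℂ) ≠ 0 := Complex.ofReal_ne_zero.2 hz.ne'
    exact mul_ne_zero (mul_ne_zero (mul_ne_zero two_ne_zero hπ) Complex.I_ne_zero) hz'
  rw [eq_inv_mul_iff_mul_eq₀ hne]
  linear_combination hint

/-- pushed forward piece -/
noncomputable def liftC_nu (j : ℕ) (a b : ℝ) (g : ℝ → ℝ) : Measure (ℕ × ℝ) :=
  ((volume.restrict (Ioo a b)).withDensity (fun u => ‖g u‖ₑ)).map (fun u => (j, Real.cos u))

theorem liftC_lintegral_nu (j : ℕ) (a b : ℝ) {g : ℝ → ℝ} (hg : Measurable g) {F : ℕ × ℝ → ℝ≥0∞}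
    (hF : Measurable F) : ∫⁻ q, F q ∂(liftC_nu j a b g) =
      ∫⁻ u in Ioo a b, ‖g u‖ₑ * F (j, Real.cos u) := by
  unfold liftC_nu
  have hm : Measurable (fun u : ℝ => (j, Real.cos u)) :=
    measurable_const.prodMk Real.measurable_cos
  rw [lintegral_map hF hm]
  exact lintegral_withDensity_eq_lintegral_mul _ hg.enorm (hF.comp hm)

theorem liftC_measA (e : ℤ) (p : Polynomial ℝ) : Measurable (liftC_A e p) := by
  unfold liftC_A
  exact (Real.measurable_sin.pow_const e).mul (p.continuous.measurable.comp Real.measurable_cos)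

theorem liftC_ae_nu (j : ℕ) {a b : ℝ} (ha : 0 ≤ a) (hb : b ≤ π) {g : ℝ → ℝ} :
    ∀ᵐ q ∂(liftC_nu j a b g), q.1 ≤ j ∧ q.2 ≠ 0 ∧ |q.2| ≤ 1 := by
  unfold liftC_nu
  have hm : Measurable (fun u : ℝ => (j, Real.cos u)) :=
    measurable_const.prodMk Real.measurable_cos
  rw [ae_map_iff hm.aemeasurable]
  · apply (withDensity_absolutelyContinuous _ _).ae_le
    have h1 : ∀ᵐ u ∂(volume.restrict (Ioo a b)), u ∈ Ioo a b := ae_restrict_mem measurableSet_Ioo
    have h2 : ∀ᵐ u ∂(volume.restrict (Ioo a b)), u ≠ π / 2 :=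
      ae_restrict_of_ae (Measure.ae_ne volume (π / 2))
    filter_upwards [h1, h2] with u hu hu2
    refine ⟨le_rfl, ?_, Real.abs_cos_le_one u⟩
    intro h0
    have h0' : Real.cos u = 0 := h0
    rcases lt_or_gt_of_ne hu2 with h | h
    · have := Real.cos_pos_of_mem_Ioo (x := u) ⟨by linarith [hu.1, Real.pi_pos], h⟩
      linarith
    · have := Real.cos_neg_of_pi_div_two_lt_of_lt (x := u) h (by linarith [hu.2, Real.pi_pos])
      linarith
  · apply MeasurableSet.inter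
    · exact measurableSet_le measurable_fst measurable_const
    · apply MeasurableSet.inter
      · exact (measurableSet_eq_fun measurable_snd measurable_const).compl
      · exact measurableSet_le measurable_snd.abs measurable_const

/-- the measure of the far part -/
noncomputable def liftC_mu (Z u0 : ℝ) : ℕ → ℤ → Polynomial ℝ → Measure (ℕ × ℝ)
  | 0, e, p => liftC_nu 0 u0 (π - u0) (liftC_A e p)
  | n + 1, e, p => ENNReal.ofReal Z⁻¹ •
      (‖liftC_A (e - 1) p (π - u0)‖ₑ • Measure.dirac (n, -Real.cos u0)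
        + ‖liftC_A (e - 1) p u0‖ₑ • Measure.dirac (n, Real.cos u0)
        + liftC_mu Z u0 n (e - 2) (liftC_T e p))

theorem liftC_lintegral_mu_succ (Z u0 : ℝ) (n : ℕ) (e : ℤ) (p : Polynomial ℝ) {F : ℕ × ℝ → ℝ≥0∞}
    (hF : Measurable F) : ∫⁻ q, F q ∂(liftC_mu Z u0 (n + 1) e p) =
      ENNReal.ofReal Z⁻¹ * (‖liftC_A (e - 1) p (π - u0)‖ₑ * F (n, -Real.cos u0)
        + ‖liftC_A (e - 1) p u0‖ₑ * F (n, Real.cos u0)
        + ∫⁻ q, F q ∂(liftC_mu Z u0 n (e - 2) (liftC_T e p))) := by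
  rw [liftC_mu, lintegral_smul_measure, lintegral_add_measure, lintegral_add_measure,
    lintegral_smul_measure, lintegral_smul_measure, lintegral_dirac' _ hF, lintegral_dirac' _ hF]
  rfl

theorem liftC_measF {f : ℕ → ℝ → ℂ}
    (hf : ∀ j v, HasDerivAt (f j) (-(2 * π * Complex.I) * f (j + 1) v) v) (z : ℝ) :
    Measurable fun q : ℕ × ℝ => ‖f q.1 (z * q.2)‖ₑ := by
  apply measurable_from_prod_countable_right
  intro j
  exact (((liftC_fcont hf j).comp (continuous_const.mul continuous_id)).measurable).enorm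

theorem liftC_bound (n : ℕ) : ∀ (e : ℤ) (p : Polynomial ℝ) {Z z u0 : ℝ}, 0 < Z → Z ≤ z →
    0 < u0 → u0 ≤ π / 2 → ∀ {f : ℕ → ℝ → ℂ},
    (∀ j v, HasDerivAt (f j) (-(2 * π * Complex.I) * f (j + 1) v) v) →
    ‖∫ u in u0..(π - u0), (liftC_A e p u : ℂ) * f n (z * Real.cos u)‖ₑ ≤
      ∫⁻ q, ‖f q.1 (z * q.2)‖ₑ ∂(liftC_mu Z u0 n e p) := by
  induction n with
  | zero =>
    intro e p Z z u0 hZ hz hu0 hu1 f hf
    rw [liftC_mu, liftC_lintegral_nu _ _ _ (liftC_measA e p) (liftC_measF hf z),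
      intervalIntegral.integral_of_le (by linarith), integral_Ioc_eq_integral_Ioo]
    refine (enorm_integral_le_lintegral_enorm _).trans (le_of_eq ?_)
    congr 1
    funext u
    rw [enorm_mul]
    congr 1
    rw [← ofReal_norm, ← ofReal_norm, Complex.norm_real]
  | succ n ih =>
    intro e p Z z u0 hZ hz hu0 hu1 f hf
    have hz0 : 0 < z := hZ.trans_le hz
    rw [liftC_lintegral_mu_succ _ _ _ _ _ (liftC_measF hf z), liftC_step e p hz0 hu0 hu1 n hf,
      enorm_mul]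
    have hcast : ∀ x : ℝ, ‖(x : ℂ)‖ₑ = ‖x‖ₑ := by
      intro x; rw [← ofReal_norm, ← ofReal_norm, Complex.norm_real]
    apply mul_le_mul'
    · rw [← ofReal_norm]
      apply ENNReal.ofReal_le_ofReal
      rw [norm_inv, norm_mul, norm_mul, norm_mul, Complex.norm_I, mul_one, Complex.norm_ofNat,
        Complex.norm_real, Complex.norm_real, Real.norm_of_nonneg Real.pi_pos.le,
        Real.norm_of_nonneg hz0.le]
      apply inv_anti₀ hZ
      have := Real.pi_gt_three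
      nlinarith
    · refine (enorm_add_le _ _).trans ?_
      apply add_le_add
      · refine (enorm_sub_le).trans ?_
        rw [enorm_mul, enorm_mul, hcast, hcast, Real.cos_pi_sub]
      · exact ih (e - 2) (liftC_T e p) hZ hz hu0 hu1 hf

/-- the weight -/
noncomputable def liftC_w (b : ℝ) (q : ℕ × ℝ) : ℝ≥0∞ := ENNReal.ofReal (1 + |q.2| ^ (-b))

theorem liftC_measw (b : ℝ) : Measurable (liftC_w b) := by
  unfold liftC_w
  exact (measurable_const.add (measurable_snd.abs.pow_const _)).ennreal_ofReal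

theorem liftC_int_sin {u0 : ℝ} (hu0 : 0 < u0) (hu1 : u0 ≤ π / 2) :
    ∫⁻ u in Ioo u0 (π - u0), ENNReal.ofReal (Real.sin u ^ (-2 : ℤ)) ≤
      ENNReal.ofReal (2 / Real.sin u0) := by
  have hle : u0 ≤ π - u0 := by linarith
  have hI : uIcc u0 (π - u0) = Icc u0 (π - u0) := uIcc_of_le hle
  have hder : ∀ u ∈ uIcc u0 (π - u0), HasDerivAt (fun u => -(Real.cos u / Real.sin u))
      (Real.sin u ^ (-2 : ℤ)) u := by
    intro u hu
    rw [hI] at hu
    have hs := liftC_sin_pos hu0 hu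
    refine (((Real.hasDerivAt_cos u).div (Real.hasDerivAt_sin u) hs.ne').neg).congr_deriv ?_
    rw [zpow_neg, zpow_ofNat]
    field_simp
    have := Real.sin_sq_add_cos_sq u
    linarith
  have hc : ContinuousOn (fun u => Real.sin u ^ (-2 : ℤ)) (Icc u0 (π - u0)) :=
    (Real.continuous_sin.continuousOn).zpow₀ _ fun u hu => Or.inl (liftC_sin_pos hu0 hu).ne'
  have hii : IntervalIntegrable (fun u => Real.sin u ^ (-2 : ℤ)) volume u0 (π - u0) := by
    apply ContinuousOn.intervalIntegrable; rw [hI]; exact hc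
  have hint := intervalIntegral.integral_eq_sub_of_hasDerivAt hder hii
  rw [intervalIntegral.integral_of_le hle, integral_Ioc_eq_integral_Ioo, Real.cos_pi_sub,
    Real.sin_pi_sub] at hint
  have hio : IntegrableOn (fun u => Real.sin u ^ (-2 : ℤ)) (Ioo u0 (π - u0)) :=
    (hc.integrableOn_Icc).mono_set Ioo_subset_Icc_self
  have hs0 : 0 < Real.sin u0 := liftC_sin_pos hu0 ⟨le_rfl, hle⟩
  rw [← ofReal_integral_eq_lintegral_ofReal hio]
  · apply ENNReal.ofReal_le_ofReal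
    rw [hint]
    have : Real.cos u0 ≤ 1 := Real.cos_le_one u0
    have e : -(-Real.cos u0 / Real.sin u0) - -(Real.cos u0 / Real.sin u0)
        = 2 * Real.cos u0 / Real.sin u0 := by ring
    rw [e]
    gcongr
    linarith
  · filter_upwards [ae_restrict_mem measurableSet_Ioo] with u hu
    exact zpow_nonneg (liftC_sin_pos hu0 (Ioo_subset_Icc_self hu)).le _

theorem liftC_cos_ge {u : ℝ} (hu0 : 0 ≤ u) (hu1 : u ≤ π) :
    2 / π * |u - π / 2| ≤ |Real.cos u| := by
  have h := Real.mul_abs_le_abs_sin (x := u - π / 2) (by rw [abs_le]; constructor <;> linarith)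
  rwa [Real.sin_sub_pi_div_two, abs_neg] at h

/-- finiteness of the total weight -/
theorem liftC_M (b : ℝ) (hb0 : 0 ≤ b) (hb1 : b < 1) :
    ∫⁻ u in Ioo 0 π, ENNReal.ofReal (1 + |Real.cos u| ^ (-b)) < ∞ := by
  have hpi := Real.pi_pos
  have h1 : IntegrableOn (fun u : ℝ => |u - π / 2| ^ (-b)) (Ioo 0 π) := by
    have hA : IntervalIntegrable (fun u : ℝ => (π / 2 - u) ^ (-b)) volume 0 (π / 2) := by
      have := (intervalIntegral.intervalIntegrable_rpow' (a := π / 2) (b := 0) (r := -b)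
        (by linarith)).comp_sub_left (π / 2)
      simpa using this
    have hB : IntervalIntegrable (fun u : ℝ => (u - π / 2) ^ (-b)) volume (π / 2) π := by
      have := (intervalIntegral.intervalIntegrable_rpow' (a := 0) (b := π / 2) (r := -b)
        (by linarith)).comp_sub_right (π / 2)
      simpa using this
    have hA' : IntervalIntegrable (fun u : ℝ => |u - π / 2| ^ (-b)) volume 0 (π / 2) := by
      refine hA.congr ?_
      rw [uIoc_of_le (by positivity)]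
      intro u hu
      simp only
      rw [abs_of_nonpos (by linarith [hu.2])]
      congr 1; ring
    have hB' : IntervalIntegrable (fun u : ℝ => |u - π / 2| ^ (-b)) volume (π / 2) π := by
      refine hB.congr ?_
      rw [uIoc_of_le (by linarith)]
      intro u hu
      simp only
      rw [abs_of_pos (by linarith [hu.1])]
    have := hA'.trans hB'
    rw [intervalIntegrable_iff_integrableOn_Ioc_of_le hpi.le] at this
    exact this.mono_set Ioo_subset_Ioc_self
  have h2 : IntegrableOn (fun u : ℝ => 1 + (2 / π) ^ (-b) * |u - π / 2| ^ (-b)) (Ioo 0 π) := by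
    apply Integrable.add
    · exact integrable_const _
    · exact h1.const_mul _
  have h3 : ∀ᵐ u ∂(volume.restrict (Ioo 0 π)), ENNReal.ofReal (1 + |Real.cos u| ^ (-b)) ≤
      ENNReal.ofReal (1 + (2 / π) ^ (-b) * |u - π / 2| ^ (-b)) := by
    have h1 : ∀ᵐ u ∂(volume.restrict (Ioo (0:ℝ) π)), u ∈ Ioo 0 π :=
      ae_restrict_mem measurableSet_Ioo
    have h2 : ∀ᵐ u ∂(volume.restrict (Ioo (0:ℝ) π)), u ≠ π / 2 :=
      ae_restrict_of_ae (Measure.ae_ne volume (π / 2))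
    filter_upwards [h1, h2] with u hu hu2
    apply ENNReal.ofReal_le_ofReal
    have hp : 0 < |u - π / 2| := abs_pos.2 (sub_ne_zero.2 hu2)
    rw [← Real.mul_rpow (by positivity) (abs_nonneg _)]
    have := Real.rpow_le_rpow_of_nonpos (x := 2 / π * |u - π / 2|) (y := |Real.cos u|) (z := -b)
      (by positivity) (liftC_cos_ge hu.1.le hu.2.le) (by linarith)
    linarith
  exact (lintegral_mono_ae h3).trans_lt h2.lintegral_lt_top

theorem liftC_pbound (p : Polynomial ℝ) : ∃ B : ℝ, 0 ≤ B ∧ ∀ c ∈ Icc (-1 : ℝ) 1, |p.eval c| ≤ B := by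
  obtain ⟨B, hB⟩ := isCompact_Icc.exists_bound_of_continuousOn (s := Icc (-1 : ℝ) 1)
    (f := fun c => p.eval c) p.continuous.continuousOn
  refine ⟨max B 0, le_max_right _ _, fun c hc => ?_⟩
  exact (hB c hc).trans (le_max_left _ _)

theorem liftC_Abound {p : Polynomial ℝ} {B : ℝ} (hB : ∀ c ∈ Icc (-1 : ℝ) 1, |p.eval c| ≤ B)
    (e : ℤ) {u : ℝ} (hu : 0 < Real.sin u) :
    ‖liftC_A e p u‖ₑ ≤ ENNReal.ofReal (B * Real.sin u ^ e) := by
  rw [← ofReal_norm]
  apply ENNReal.ofReal_le_ofReal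
  unfold liftC_A
  rw [norm_mul, Real.norm_eq_abs, Real.norm_eq_abs, abs_of_pos (zpow_pos hu e), mul_comm]
  apply mul_le_mul_of_nonneg_right (hB _ ⟨Real.neg_one_le_cos u, Real.cos_le_one u⟩)
    (zpow_pos hu e).le

theorem liftC_cos_big {u : ℝ} (h1 : |Real.sin u| ≤ 1 / 2) {b : ℝ} (hb0 : 0 ≤ b) (hb1 : b < 1) :
    |Real.cos u| ^ (-b) ≤ 2 := by
  have h2 : 1 / 2 ≤ |Real.cos u| := by
    have h3 := Real.sin_sq_add_cos_sq u
    rw [← sq_abs (Real.sin u), ← sq_abs (Real.cos u)] at h3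
    by_contra hcon
    push Not at hcon
    nlinarith [abs_nonneg (Real.sin u), abs_nonneg (Real.cos u)]
  calc |Real.cos u| ^ (-b) ≤ (1 / 2 : ℝ) ^ (-b) :=
        Real.rpow_le_rpow_of_nonpos (by norm_num) h2 (by linarith)
    _ = 2 ^ b := by
        rw [one_div, Real.inv_rpow (by norm_num), Real.rpow_neg (by norm_num), inv_inv]
    _ ≤ 2 ^ (1:ℝ) := Real.rpow_le_rpow_of_exponent_le (by norm_num) hb1.le
    _ = 2 := by norm_num

theorem liftC_zpow_anti {x y : ℝ} (hx : 0 < x) (hxy : x ≤ y) {e : ℤ} (he : e ≤ 0) :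
    y ^ e ≤ x ^ e := by
  obtain ⟨k, hk⟩ := Int.eq_ofNat_of_zero_le (neg_nonneg.2 he)
  have : e = -(k : ℤ) := by omega
  rw [this, zpow_neg, zpow_neg, zpow_natCast, zpow_natCast]
  exact inv_anti₀ (pow_pos hx k) (pow_le_pow_left₀ hx.le hxy k)

theorem liftC_base (b : ℝ) (hb0 : 0 ≤ b) (hb1 : b < 1) (e : ℤ) (he : e ≤ -2)
    (p : Polynomial ℝ) : ∃ C : ℝ≥0∞, C ≠ ∞ ∧ ∀ u0 : ℝ, 0 < u0 → u0 ≤ π / 2 → Real.sin u0 ≤ 1 / 2 →
      ∫⁻ u in Ioo u0 (π - u0), ‖liftC_A e p u‖ₑ * liftC_w b (0, Real.cos u) ≤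
        C * ENNReal.ofReal (Real.sin u0 ^ (e + 1)) := by
  obtain ⟨B, hB0, hB⟩ := liftC_pbound p
  have hM := liftC_M b hb0 hb1
  set M := ∫⁻ u in Ioo 0 π, ENNReal.ofReal (1 + |Real.cos u| ^ (-b)) with hMdef
  refine ⟨ENNReal.ofReal B * (ENNReal.ofReal ((1 / 2 : ℝ) ^ e) * M + 6), ?_, ?_⟩
  · apply ENNReal.mul_ne_top ENNReal.ofReal_ne_top
    apply ENNReal.add_ne_top.2
    exact ⟨ENNReal.mul_ne_top ENNReal.ofReal_ne_top hM.ne, by norm_num⟩
  intro u0 hu0 hu1 hs
  have hpi := Real.pi_pos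
  have hle : u0 ≤ π - u0 := by linarith
  have hs0 : 0 < Real.sin u0 := liftC_sin_pos hu0 ⟨le_rfl, hle⟩
  set δ := Real.sin u0 with hδ
  have hsin : ∀ u ∈ Ioo u0 (π - u0), δ ≤ Real.sin u := by
    intro u hu
    rcases le_total u (π / 2) with h | h
    · exact Real.sin_le_sin_of_le_of_le_pi_div_two (by linarith) h hu.1.le
    · rw [← Real.sin_pi_sub u]
      exact Real.sin_le_sin_of_le_of_le_pi_div_two (by linarith) (by linarith) (by linarith [hu.2])
  have hpt : ∀ u ∈ Ioo u0 (π - u0), ‖liftC_A e p u‖ₑ * liftC_w b (0, Real.cos u) ≤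
      ENNReal.ofReal B * (ENNReal.ofReal ((1 / 2 : ℝ) ^ e) *
        ENNReal.ofReal (1 + |Real.cos u| ^ (-b))
        + ENNReal.ofReal (3 * δ ^ (e + 2)) * ENNReal.ofReal (Real.sin u ^ (-2 : ℤ))) := by
    intro u hu
    have hsu := hsin u hu
    have hsp : 0 < Real.sin u := hs0.trans_le hsu
    have hc0 : 0 ≤ |Real.cos u| ^ (-b) := Real.rpow_nonneg (abs_nonneg _) _
    calc ‖liftC_A e p u‖ₑ * liftC_w b (0, Real.cos u)
        ≤ ENNReal.ofReal (B * Real.sin u ^ e) * ENNReal.ofReal (1 + |Real.cos u| ^ (-b)) :=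
          mul_le_mul' (liftC_Abound hB e hsp) le_rfl
      _ = ENNReal.ofReal B * ENNReal.ofReal (Real.sin u ^ e * (1 + |Real.cos u| ^ (-b))) := by
          rw [ENNReal.ofReal_mul hB0, ENNReal.ofReal_mul (zpow_pos hsp e).le, mul_assoc]
      _ ≤ ENNReal.ofReal B * ENNReal.ofReal ((1 / 2 : ℝ) ^ e * (1 + |Real.cos u| ^ (-b))
            + 3 * δ ^ (e + 2) * Real.sin u ^ (-2 : ℤ)) := by
          apply mul_le_mul' le_rfl
          apply ENNReal.ofReal_le_ofReal
          have hnn : 0 ≤ 3 * δ ^ (e + 2) * Real.sin u ^ (-2 : ℤ) := by positivity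
          have hnn2 : 0 ≤ (1 / 2 : ℝ) ^ e * (1 + |Real.cos u| ^ (-b)) := by positivity
          rcases le_total (1 / 2) (Real.sin u) with h | h
          · have : Real.sin u ^ e ≤ (1 / 2 : ℝ) ^ e :=
              liftC_zpow_anti (by norm_num) h (by omega)
            have := mul_le_mul_of_nonneg_right this (by positivity : 0 ≤ 1 + |Real.cos u| ^ (-b))
            linarith
          · have h2 := liftC_cos_big (u := u) (by rw [abs_of_pos hsp]; exact h) hb0 hb1
            have h3 : Real.sin u ^ e = Real.sin u ^ (e + 2) * Real.sin u ^ (-2 : ℤ) := by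
              rw [← zpow_add₀ hsp.ne']; congr 1; ring
            have h4 : Real.sin u ^ (e + 2) ≤ δ ^ (e + 2) :=
              liftC_zpow_anti hs0 hsu (by omega)
            have h5 : Real.sin u ^ e * (1 + |Real.cos u| ^ (-b)) ≤
                (δ ^ (e + 2) * Real.sin u ^ (-2 : ℤ)) * 3 := by
              rw [h3]
              apply mul_le_mul (mul_le_mul_of_nonneg_right h4 (by positivity)) (by linarith)
                (by positivity) (by positivity)
            linarith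
      _ = _ := by
          rw [ENNReal.ofReal_add (by positivity) (by positivity),
            ENNReal.ofReal_mul (by positivity : (0:ℝ) ≤ (1 / 2 : ℝ) ^ e),
            ENNReal.ofReal_mul (by positivity : (0:ℝ) ≤ 3 * δ ^ (e + 2))]
  have hmeas1 : Measurable fun u => ENNReal.ofReal (1 + |Real.cos u| ^ (-b)) :=
    (measurable_const.add (Real.measurable_cos.abs.pow_const _)).ennreal_ofReal
  have hmeas2 : Measurable fun u => ENNReal.ofReal (Real.sin u ^ (-2 : ℤ)) :=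
    (Real.measurable_sin.pow_const _).ennreal_ofReal
  calc ∫⁻ u in Ioo u0 (π - u0), ‖liftC_A e p u‖ₑ * liftC_w b (0, Real.cos u)
      ≤ ∫⁻ u in Ioo u0 (π - u0), ENNReal.ofReal B * (ENNReal.ofReal ((1 / 2 : ℝ) ^ e) *
        ENNReal.ofReal (1 + |Real.cos u| ^ (-b))
        + ENNReal.ofReal (3 * δ ^ (e + 2)) * ENNReal.ofReal (Real.sin u ^ (-2 : ℤ))) :=
        setLIntegral_mono' measurableSet_Ioo hpt
    _ = ENNReal.ofReal B * (ENNReal.ofReal ((1 / 2 : ℝ) ^ e) *
          (∫⁻ u in Ioo u0 (π - u0), ENNReal.ofReal (1 + |Real.cos u| ^ (-b)))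
          + ENNReal.ofReal (3 * δ ^ (e + 2)) *
          ∫⁻ u in Ioo u0 (π - u0), ENNReal.ofReal (Real.sin u ^ (-2 : ℤ))) := by
        have hm3 : Measurable fun u => ENNReal.ofReal ((1 / 2 : ℝ) ^ e) *
            ENNReal.ofReal (1 + |Real.cos u| ^ (-b)) + ENNReal.ofReal (3 * δ ^ (e + 2)) *
            ENNReal.ofReal (Real.sin u ^ (-2 : ℤ)) :=
          (hmeas1.const_mul _).add (hmeas2.const_mul _)
        rw [lintegral_const_mul _ hm3,
          lintegral_add_left (hmeas1.const_mul _), lintegral_const_mul _ hmeas1,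
          lintegral_const_mul _ hmeas2]
    _ ≤ ENNReal.ofReal B * (ENNReal.ofReal ((1 / 2 : ℝ) ^ e) * M
          + ENNReal.ofReal (3 * δ ^ (e + 2)) * ENNReal.ofReal (2 / δ)) := by
        gcongr
        · rw [hMdef]
          exact lintegral_mono_set (Ioo_subset_Ioo hu0.le (by linarith))
        · exact liftC_int_sin hu0 hu1
    _ ≤ ENNReal.ofReal B * ((ENNReal.ofReal ((1 / 2 : ℝ) ^ e) * M + 6) *
          ENNReal.ofReal (δ ^ (e + 1))) := by
        apply mul_le_mul' le_rfl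
        rw [add_mul]
        apply add_le_add
        · have : (1 : ℝ) ≤ δ ^ (e + 1) := one_le_zpow_of_nonpos₀ hs0 (by linarith) (by omega)
          calc ENNReal.ofReal ((1 / 2 : ℝ) ^ e) * M = ENNReal.ofReal ((1 / 2 : ℝ) ^ e) * M * 1 := by
                rw [mul_one]
            _ ≤ _ := by
                apply mul_le_mul' le_rfl
                rw [← ENNReal.ofReal_one]
                exact ENNReal.ofReal_le_ofReal this
        · rw [← ENNReal.ofReal_mul (by positivity)]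
          have e6 : (6 : ℝ≥0∞) = ENNReal.ofReal 6 := by norm_num
          rw [e6, ← ENNReal.ofReal_mul (by norm_num)]
          apply ENNReal.ofReal_le_ofReal
          have : δ ^ (e + 2) = δ ^ (e + 1) * δ := by
            rw [← zpow_add_one₀ hs0.ne']; congr 1; ring
          rw [this]
          field_simp
          norm_num
    _ = _ := by rw [mul_assoc]

theorem liftC_mass (b : ℝ) (hb0 : 0 ≤ b) (hb1 : b < 1) (n : ℕ) : ∀ (e : ℤ), e - 2 * n ≤ -2 →
    ∀ (p : Polynomial ℝ), ∃ C : ℝ≥0∞, C ≠ ∞ ∧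
      ∀ (Z u0 : ℝ), 0 < u0 → u0 ≤ π / 2 → Real.sin u0 ≤ 1 / 2 → Z⁻¹ = 4 * Real.sin u0 ^ 2 →
      ∫⁻ q, liftC_w b q ∂(liftC_mu Z u0 n e p) ≤ C * ENNReal.ofReal (Real.sin u0 ^ (e + 1)) := by
  induction n with
  | zero =>
    intro e he p
    obtain ⟨C, hC, h⟩ := liftC_base b hb0 hb1 e (by simpa using he) p
    refine ⟨C, hC, fun Z u0 hu0 hu1 hs _ => ?_⟩
    rw [liftC_mu, liftC_lintegral_nu _ _ _ (liftC_measA e p) (liftC_measw b)]
    exact h u0 hu0 hu1 hs
  | succ n ih =>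
    intro e he p
    obtain ⟨C, hC, h⟩ := ih (e - 2) (by push_cast at he; linarith) (liftC_T e p)
    obtain ⟨B, hB0, hB⟩ := liftC_pbound p
    refine ⟨24 * ENNReal.ofReal B + 4 * C, ?_, ?_⟩
    · apply ENNReal.add_ne_top.2
      exact ⟨ENNReal.mul_ne_top (by norm_num) ENNReal.ofReal_ne_top,
        ENNReal.mul_ne_top (by norm_num) hC⟩
    intro Z u0 hu0 hu1 hs hZ
    have hpi := Real.pi_pos
    have hle : u0 ≤ π - u0 := by linarith
    have hs0 : 0 < Real.sin u0 := liftC_sin_pos hu0 ⟨le_rfl, hle⟩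
    rw [liftC_lintegral_mu_succ _ _ _ _ _ (liftC_measw b), hZ]
    have hIH := h Z u0 hu0 hu1 hs hZ
    set δ := Real.sin u0 with hδ
    have hw : liftC_w b (n, Real.cos u0) ≤ 3 := by
      unfold liftC_w
      have := liftC_cos_big (u := u0) (by rw [abs_of_pos hs0]; exact hs) hb0 hb1
      calc ENNReal.ofReal (1 + |Real.cos u0| ^ (-b)) ≤ ENNReal.ofReal 3 :=
            ENNReal.ofReal_le_ofReal (by linarith)
        _ = 3 := by norm_num
    have hw' : liftC_w b (n, -Real.cos u0) ≤ 3 := by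
      have : liftC_w b (n, -Real.cos u0) = liftC_w b (n, Real.cos u0) := by
        unfold liftC_w; rw [abs_neg]
      rw [this]; exact hw
    have hA1 : ‖liftC_A (e - 1) p (π - u0)‖ₑ ≤ ENNReal.ofReal (B * δ ^ (e - 1)) := by
      have := liftC_Abound hB (e - 1) (u := π - u0) (by rw [Real.sin_pi_sub]; exact hs0)
      rwa [Real.sin_pi_sub] at this
    have hA2 : ‖liftC_A (e - 1) p u0‖ₑ ≤ ENNReal.ofReal (B * δ ^ (e - 1)) :=
      liftC_Abound hB (e - 1) hs0
    have hexp : e - 2 + 1 = e - 1 := by ring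
    rw [hexp] at hIH
    calc ENNReal.ofReal (4 * δ ^ 2) * (‖liftC_A (e - 1) p (π - u0)‖ₑ *
          liftC_w b (n, -Real.cos u0) + ‖liftC_A (e - 1) p u0‖ₑ * liftC_w b (n, Real.cos u0)
          + ∫⁻ q, liftC_w b q ∂(liftC_mu Z u0 n (e - 2) (liftC_T e p)))
        ≤ ENNReal.ofReal (4 * δ ^ 2) * (ENNReal.ofReal (B * δ ^ (e - 1)) * 3 +
            ENNReal.ofReal (B * δ ^ (e - 1)) * 3 + C * ENNReal.ofReal (δ ^ (e - 1))) := by
          gcongr
      _ = (24 * ENNReal.ofReal B + 4 * C) * ENNReal.ofReal (δ ^ (e + 1)) := by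
          have h1 : δ ^ (e + 1) = δ ^ 2 * δ ^ (e - 1) := by
            rw [← zpow_natCast, ← zpow_add₀ hs0.ne']; congr 1; push_cast; ring
          rw [h1, ENNReal.ofReal_mul hB0, ENNReal.ofReal_mul (by positivity : (0:ℝ) ≤ δ ^ 2),
            ENNReal.ofReal_mul (by norm_num : (0:ℝ) ≤ 4)]
          have : ENNReal.ofReal 4 = 4 := by norm_num
          rw [this]
          ring

theorem liftC_ae_mu (Z u0 : ℝ) (hu0 : 0 < u0) (hu1 : u0 < π / 2) (n : ℕ) : ∀ (e : ℤ)
    (p : Polynomial ℝ),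
    ∀ᵐ q ∂(liftC_mu Z u0 n e p), q.1 ≤ n ∧ q.2 ≠ 0 ∧ |q.2| ≤ 1 := by
  have hpi := Real.pi_pos
  induction n with
  | zero =>
    intro e p
    rw [liftC_mu]
    exact liftC_ae_nu 0 hu0.le (by linarith)
  | succ n ih =>
    intro e p
    rw [liftC_mu]
    have hcos : 0 < Real.cos u0 := Real.cos_pos_of_mem_Ioo ⟨by linarith, hu1⟩
    have hmeas : MeasurableSet {q : ℕ × ℝ | q.1 ≤ n + 1 ∧ q.2 ≠ 0 ∧ |q.2| ≤ 1} := by
      apply MeasurableSet.inter
      · exact measurableSet_le measurable_fst measurable_const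
      · apply MeasurableSet.inter
        · exact (measurableSet_eq_fun measurable_snd measurable_const).compl
        · exact measurableSet_le measurable_snd.abs measurable_const
    have hd : ∀ c : ℝ, c ≠ 0 → |c| ≤ 1 →
        ∀ᵐ q ∂(Measure.dirac (n, c) : Measure (ℕ × ℝ)), q.1 ≤ n + 1 ∧ q.2 ≠ 0 ∧ |q.2| ≤ 1 := by
      intro c hc hc1
      rw [ae_dirac_iff hmeas]
      exact ⟨Nat.le_succ n, hc, hc1⟩
    apply Measure.ae_smul_measure
    rw [ae_add_measure_iff, ae_add_measure_iff]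
    refine ⟨⟨?_, ?_⟩, ?_⟩
    · apply Measure.ae_smul_measure
      exact hd _ (neg_ne_zero.2 hcos.ne') (by rw [abs_neg]; exact Real.abs_cos_le_one u0)
    · apply Measure.ae_smul_measure
      exact hd _ hcos.ne' (Real.abs_cos_le_one u0)
    · filter_upwards [ih (e - 2) (liftC_T e p)] with q hq
      exact ⟨hq.1.trans (Nat.le_succ n), hq.2⟩

/-- the near parts -/
theorem liftC_near (b : ℝ) (hb0 : 0 ≤ b) (hb1 : b < 1) (i j : ℕ) {δ A B : ℝ} (hδ0 : 0 < δ)
    (hδ : δ ≤ 1 / 2) (hAB : B - A ≤ π / 2 * δ) (h : ∀ u ∈ Ioo A B, 0 ≤ Real.sin u ∧ Real.sin u ≤ δ) :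
    ∫⁻ q, liftC_w b q ∂(liftC_nu j A B (liftC_A i 1)) ≤ 5 * ENNReal.ofReal (δ ^ (i + 1)) := by
  rw [liftC_lintegral_nu _ _ _ (liftC_measA _ _) (liftC_measw b)]
  have hpt : ∀ u ∈ Ioo A B, ‖liftC_A i 1 u‖ₑ * liftC_w b (j, Real.cos u) ≤
      ENNReal.ofReal (3 * δ ^ i) := by
    intro u hu
    obtain ⟨h0, h1⟩ := h u hu
    have h2 := liftC_cos_big (u := u) (by rw [abs_of_nonneg h0]; linarith) hb0 hb1
    have h3 : ‖liftC_A i 1 u‖ₑ ≤ ENNReal.ofReal (δ ^ i) := by
      rw [← ofReal_norm]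
      apply ENNReal.ofReal_le_ofReal
      unfold liftC_A
      rw [Polynomial.eval_one, mul_one, zpow_natCast, norm_pow, Real.norm_of_nonneg h0]
      exact pow_le_pow_left₀ h0 h1 i
    calc ‖liftC_A i 1 u‖ₑ * liftC_w b (j, Real.cos u)
        ≤ ENNReal.ofReal (δ ^ i) * ENNReal.ofReal 3 := by
          apply mul_le_mul' h3
          unfold liftC_w
          apply ENNReal.ofReal_le_ofReal
          simp only
          linarith
      _ = _ := by rw [← ENNReal.ofReal_mul (by positivity), mul_comm]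
  calc ∫⁻ u in Ioo A B, ‖liftC_A i 1 u‖ₑ * liftC_w b (j, Real.cos u)
      ≤ ∫⁻ u in Ioo A B, ENNReal.ofReal (3 * δ ^ i) := setLIntegral_mono' measurableSet_Ioo hpt
    _ = ENNReal.ofReal (3 * δ ^ i) * ENNReal.ofReal (B - A) := by
        rw [setLIntegral_const, Real.volume_Ioo]
    _ ≤ ENNReal.ofReal (3 * δ ^ i) * ENNReal.ofReal (π / 2 * δ) := by
        gcongr
    _ = ENNReal.ofReal (3 * δ ^ i * (π / 2 * δ)) := by rw [← ENNReal.ofReal_mul (by positivity)]
    _ ≤ ENNReal.ofReal (5 * δ ^ (i + 1)) := by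
        apply ENNReal.ofReal_le_ofReal
        have hpi : π < 3.15 := Real.pi_lt_d2
        have : 0 < δ ^ (i + 1) := by positivity
        calc 3 * δ ^ i * (π / 2 * δ) = (3 * π / 2) * δ ^ (i + 1) := by ring
          _ ≤ 5 * δ ^ (i + 1) := by
              apply mul_le_mul_of_nonneg_right _ this.le
              linarith
    _ = _ := by
        rw [ENNReal.ofReal_mul (by norm_num)]
        norm_num

theorem near_far (i : ℕ) (b : ℝ) (hb0 : 0 ≤ b) (hb1 : b < 1) :
    ∃ C : ℝ≥0∞, C ≠ ∞ ∧ ∀ Z : ℝ, 1 ≤ Z → ∃ K : Measure (ℕ × ℝ), IsFiniteMeasure K ∧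
      ∫⁻ q, ENNReal.ofReal (1 + |q.2| ^ (-b)) ∂K ≤
        C * ENNReal.ofReal (Z ^ (-(((i : ℝ) + 1) / 2))) ∧
      (∀ᵐ q ∂K, q.1 ≤ i + 1 ∧ q.2 ≠ 0 ∧ |q.2| ≤ 1) ∧
      ∀ f : ℕ → ℝ → ℂ,
        (∀ j v, HasDerivAt (f j) (-(2 * π * Complex.I) * f (j + 1) v) v) →
        ∀ z ∈ Icc Z (2 * Z),
          ‖∫ u in Ioo 0 π, ((Real.sin u ^ i : ℝ) : ℂ) * f (i + 1) (z * Real.cos u)‖ₑ ≤
            ∫⁻ q, ‖f q.1 (z * q.2)‖ₑ ∂K := by
  obtain ⟨C, hC, hmass⟩ := liftC_mass b hb0 hb1 (i + 1) (i : ℤ) (by push_cast; linarith) 1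
  refine ⟨10 + C, ENNReal.add_ne_top.2 ⟨by norm_num, hC⟩, fun Z hZ => ?_⟩
  have hpi := Real.pi_pos
  have hZ0 : 0 < Z := by linarith
  set δ : ℝ := 1 / (2 * Real.sqrt Z) with hδ
  have hsq : 1 ≤ Real.sqrt Z := by rw [Real.one_le_sqrt]; exact hZ
  have hδ0 : 0 < δ := by positivity
  have hδ1 : δ ≤ 1 / 2 := by
    rw [hδ, div_le_div_iff₀ (by positivity) (by norm_num)]; linarith
  set u0 := Real.arcsin δ with hu0def
  have hsin : Real.sin u0 = δ := Real.sin_arcsin (by linarith) (by linarith)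
  have hu0 : 0 < u0 := Real.arcsin_pos.2 hδ0
  have hu1 : u0 < π / 2 := by
    rw [hu0def, Real.arcsin_lt_pi_div_two]; linarith
  have hu2 : u0 ≤ π / 2 * δ := by
    have := Real.mul_le_sin hu0.le hu1.le
    rw [hsin] at this
    calc u0 = π / 2 * (2 / π * u0) := by field_simp
      _ ≤ π / 2 * δ := by gcongr
  have hle : u0 ≤ π - u0 := by linarith
  have hZinv : Z⁻¹ = 4 * Real.sin u0 ^ 2 := by
    rw [hsin, hδ, div_pow, mul_pow, Real.sq_sqrt hZ0.le]
    field_simp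
    norm_num
  have hpow : δ ^ (i + 1) ≤ Z ^ (-(((i : ℝ) + 1) / 2)) := by
    have h1 : δ ≤ Z ^ (-(1 / 2 : ℝ)) := by
      rw [Real.rpow_neg hZ0.le, ← Real.sqrt_eq_rpow, hδ, ← one_div]
      apply one_div_le_one_div_of_le (by positivity)
      linarith
    calc δ ^ (i + 1) ≤ (Z ^ (-(1 / 2 : ℝ))) ^ (i + 1) := pow_le_pow_left₀ hδ0.le h1 _
      _ = _ := by
          rw [← Real.rpow_natCast, ← Real.rpow_mul hZ0.le]
          congr 1
          push_cast
          ring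
  set K1 := liftC_nu (i + 1) 0 u0 (liftC_A i 1) with hK1
  set K2 := liftC_nu (i + 1) (π - u0) π (liftC_A i 1) with hK2
  set K3 := liftC_mu Z u0 (i + 1) i 1 with hK3
  have hm1 := liftC_near b hb0 hb1 i (i + 1) (A := 0) (B := u0) hδ0 hδ1 (by linarith) (by
    intro u hu
    refine ⟨Real.sin_nonneg_of_nonneg_of_le_pi hu.1.le (by linarith [hu.2]), ?_⟩
    rw [← hsin]
    exact Real.sin_le_sin_of_le_of_le_pi_div_two (by linarith [hu.1]) hu1.le hu.2.le)
  have hm2 := liftC_near b hb0 hb1 i (i + 1) (A := π - u0) (B := π) hδ0 hδ1 (by linarith) (by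
    intro u hu
    refine ⟨Real.sin_nonneg_of_nonneg_of_le_pi (by linarith [hu.1]) hu.2.le, ?_⟩
    rw [← hsin, ← Real.sin_pi_sub u]
    exact Real.sin_le_sin_of_le_of_le_pi_div_two (by linarith [hu.2]) hu1.le (by linarith [hu.1]))
  have hm3 := hmass Z u0 hu0 hu1.le (by rw [hsin]; exact hδ1) hZinv
  rw [hsin] at hm3
  have hm3' : δ ^ ((i : ℤ) + 1) = δ ^ (i + 1) := by
    rw [← zpow_natCast]; push_cast; rfl
  rw [hm3'] at hm3
  have htot : ∫⁻ q, liftC_w b q ∂(K1 + K2 + K3) ≤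
      (10 + C) * ENNReal.ofReal (Z ^ (-(((i : ℝ) + 1) / 2))) := by
    rw [lintegral_add_measure, lintegral_add_measure]
    calc _ ≤ 5 * ENNReal.ofReal (δ ^ (i + 1)) + 5 * ENNReal.ofReal (δ ^ (i + 1))
          + C * ENNReal.ofReal (δ ^ (i + 1)) := add_le_add (add_le_add hm1 hm2) hm3
      _ = (10 + C) * ENNReal.ofReal (δ ^ (i + 1)) := by ring
      _ ≤ _ := by gcongr
  refine ⟨K1 + K2 + K3, ?_, htot, ?_, ?_⟩
  · constructor
    calc (K1 + K2 + K3) univ = ∫⁻ _, 1 ∂(K1 + K2 + K3) := by rw [lintegral_one]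
      _ ≤ ∫⁻ q, liftC_w b q ∂(K1 + K2 + K3) := by
          apply lintegral_mono
          intro q
          unfold liftC_w
          rw [← ENNReal.ofReal_one]
          apply ENNReal.ofReal_le_ofReal
          have := Real.rpow_nonneg (abs_nonneg q.2) (-b)
          linarith
      _ ≤ _ := htot
      _ < ∞ := ENNReal.mul_lt_top (ENNReal.add_lt_top.2 ⟨by norm_num, hC.lt_top⟩)
          ENNReal.ofReal_lt_top
  · rw [ae_add_measure_iff, ae_add_measure_iff]
    refine ⟨⟨liftC_ae_nu (i + 1) le_rfl (by linarith), liftC_ae_nu (i + 1) (by linarith) le_rfl⟩,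
      liftC_ae_mu Z u0 hu0 hu1 (i + 1) i 1⟩
  · intro f hf z hz
    have hz0 : Z ≤ z := hz.1
    have hFm := liftC_measF hf z
    rw [lintegral_add_measure, lintegral_add_measure]
    have hfc : Continuous (fun u : ℝ => ((Real.sin u ^ i : ℝ) : ℂ) *
        f (i + 1) (z * Real.cos u)) := by
      apply Continuous.mul
      · exact Complex.continuous_ofReal.comp (Real.continuous_sin.pow i)
      · exact (liftC_fcont hf (i + 1)).comp (continuous_const.mul Real.continuous_cos)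
    have hnu : ∀ A B : ℝ, A ≤ B → ‖∫ u in A..B, ((Real.sin u ^ i : ℝ) : ℂ) *
        f (i + 1) (z * Real.cos u)‖ₑ ≤
        ∫⁻ q, ‖f q.1 (z * q.2)‖ₑ ∂(liftC_nu (i + 1) A B (liftC_A i 1)) := by
      intro A B hAB
      rw [liftC_lintegral_nu _ _ _ (liftC_measA _ _) hFm, intervalIntegral.integral_of_le hAB,
        integral_Ioc_eq_integral_Ioo]
      refine (enorm_integral_le_lintegral_enorm _).trans (le_of_eq ?_)
      congr 1
      funext u
      rw [enorm_mul]
      congr 1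
      rw [← ofReal_norm, ← ofReal_norm, Complex.norm_real]
      unfold liftC_A
      rw [Polynomial.eval_one, mul_one, zpow_natCast]
    have hmid : ‖∫ u in u0..(π - u0), ((Real.sin u ^ i : ℝ) : ℂ) *
        f (i + 1) (z * Real.cos u)‖ₑ ≤ ∫⁻ q, ‖f q.1 (z * q.2)‖ₑ ∂K3 := by
      have := liftC_bound (i + 1) (i : ℤ) 1 hZ0 hz0 hu0 hu1.le hf
      refine le_trans (le_of_eq ?_) this
      congr 2
      funext u
      unfold liftC_A
      rw [Polynomial.eval_one, mul_one, zpow_natCast]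
    have hsplit : ∫ u in Ioo 0 π, ((Real.sin u ^ i : ℝ) : ℂ) * f (i + 1) (z * Real.cos u) =
        (∫ u in (0:ℝ)..u0, ((Real.sin u ^ i : ℝ) : ℂ) * f (i + 1) (z * Real.cos u)) +
        (∫ u in (π - u0)..π, ((Real.sin u ^ i : ℝ) : ℂ) * f (i + 1) (z * Real.cos u)) +
        (∫ u in u0..(π - u0), ((Real.sin u ^ i : ℝ) : ℂ) * f (i + 1) (z * Real.cos u)) := by
      rw [← integral_Ioc_eq_integral_Ioo, ← intervalIntegral.integral_of_le hpi.le,
        ← intervalIntegral.integral_add_adjacent_intervals (b := u0)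
          (hfc.intervalIntegrable _ _) (hfc.intervalIntegrable _ _),
        ← intervalIntegral.integral_add_adjacent_intervals (a := u0) (b := π - u0) (c := π)
          (hfc.intervalIntegrable _ _) (hfc.intervalIntegrable _ _)]
      ring
    rw [hsplit]
    refine (enorm_add_le _ _).trans (add_le_add ((enorm_add_le _ _).trans (add_le_add ?_ ?_)) hmid)
    · exact hnu 0 u0 hu0.le
    · exact hnu (π - u0) π (by linarith)

end Pool.Agent.SDT.MP_6cbfb8_an

end -- MP_6cbfb8_an.LiftC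

section -- N1.HL2

/-!
Block AN, degenerate case: the geometry of the phase `w (p, a) - σ (p, b) + κ g (p, a, b)`.
-/

namespace Pool.Agent.SDT.N1

open MeasureTheory Set Metric Pool.Agent.SDT.MST
open scoped ContDiff

theorem hl_pick (r1 r2 r3 r4 M L η ε σ1 : ℝ) (h1 : 0 < r1) (h2 : 0 < r2) (h3 : 0 < r3)
    (h4 : 0 < r4) (hM : 0 < M) (hL : 0 < L) (hη : 0 < η) (hε : 0 < ε) (hσ : 0 < σ1) :
    ∃ δ : ℝ, 0 < δ ∧ 4 * δ ≤ 1 ∧ 4 * δ ≤ r1 ∧ 4 * δ ≤ r2 ∧ 4 * δ ≤ r3 ∧ 4 * δ ≤ r4 ∧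
      M * δ ≤ η / 2 ∧ L * δ ≤ ε ∧ L * δ ≤ σ1 / 4 := by
  refine ⟨min (1 / 4) (min (r1 / 4) (min (r2 / 4) (min (r3 / 4) (min (r4 / 4)
    (min (η / 2 / M) (min (ε / L) (σ1 / 4 / L))))))), ?_, ?_, ?_, ?_, ?_, ?_, ?_, ?_, ?_⟩
  · refine lt_min (by norm_num) (lt_min ?_ (lt_min ?_ (lt_min ?_ (lt_min ?_ (lt_min ?_
      (lt_min ?_ ?_)))))) <;> positivity
  · have := min_le_left (1 / 4 : ℝ) (min (r1 / 4) (min (r2 / 4) (min (r3 / 4) (min (r4 / 4)
      (min (η / 2 / M) (min (ε / L) (σ1 / 4 / L)))))))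
    linarith
  · have h : min (1 / 4) (min (r1 / 4) (min (r2 / 4) (min (r3 / 4) (min (r4 / 4)
      (min (η / 2 / M) (min (ε / L) (σ1 / 4 / L))))))) ≤ r1 / 4 := by
      refine (min_le_right _ _).trans (min_le_left _ _)
    linarith
  · have h : min (1 / 4) (min (r1 / 4) (min (r2 / 4) (min (r3 / 4) (min (r4 / 4)
      (min (η / 2 / M) (min (ε / L) (σ1 / 4 / L))))))) ≤ r2 / 4 := by
      refine (min_le_right _ _).trans ((min_le_right _ _).trans (min_le_left _ _))
    linarith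
  · have h : min (1 / 4) (min (r1 / 4) (min (r2 / 4) (min (r3 / 4) (min (r4 / 4)
      (min (η / 2 / M) (min (ε / L) (σ1 / 4 / L))))))) ≤ r3 / 4 := by
      refine (min_le_right _ _).trans ((min_le_right _ _).trans ((min_le_right _ _).trans
        (min_le_left _ _)))
    linarith
  · have h : min (1 / 4) (min (r1 / 4) (min (r2 / 4) (min (r3 / 4) (min (r4 / 4)
      (min (η / 2 / M) (min (ε / L) (σ1 / 4 / L))))))) ≤ r4 / 4 := by
      refine (min_le_right _ _).trans ((min_le_right _ _).trans ((min_le_right _ _).trans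
        ((min_le_right _ _).trans (min_le_left _ _))))
    linarith
  · have h : min (1 / 4) (min (r1 / 4) (min (r2 / 4) (min (r3 / 4) (min (r4 / 4)
      (min (η / 2 / M) (min (ε / L) (σ1 / 4 / L))))))) ≤ η / 2 / M := by
      refine (min_le_right _ _).trans ((min_le_right _ _).trans ((min_le_right _ _).trans
        ((min_le_right _ _).trans ((min_le_right _ _).trans (min_le_left _ _)))))
    calc _ ≤ M * (η / 2 / M) := mul_le_mul_of_nonneg_left h hM.le
      _ = η / 2 := by field_simp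
  · have h : min (1 / 4) (min (r1 / 4) (min (r2 / 4) (min (r3 / 4) (min (r4 / 4)
      (min (η / 2 / M) (min (ε / L) (σ1 / 4 / L))))))) ≤ ε / L := by
      refine (min_le_right _ _).trans ((min_le_right _ _).trans ((min_le_right _ _).trans
        ((min_le_right _ _).trans ((min_le_right _ _).trans ((min_le_right _ _).trans
        (min_le_left _ _))))))
    calc _ ≤ L * (ε / L) := mul_le_mul_of_nonneg_left h hL.le
      _ = ε := by field_simp
  · have h : min (1 / 4) (min (r1 / 4) (min (r2 / 4) (min (r3 / 4) (min (r4 / 4)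
      (min (η / 2 / M) (min (ε / L) (σ1 / 4 / L))))))) ≤ σ1 / 4 / L := by
      refine (min_le_right _ _).trans ((min_le_right _ _).trans ((min_le_right _ _).trans
        ((min_le_right _ _).trans ((min_le_right _ _).trans ((min_le_right _ _).trans
        (min_le_right _ _))))))
    calc _ ≤ L * (σ1 / 4 / L) := mul_le_mul_of_nonneg_left h hL.le
      _ = σ1 / 4 := by field_simp

theorem hl_pick2 (M C2 σ1 w1 q : ℝ) (hM : 0 < M) (hC : 0 < C2) (hσ : 0 < σ1) (hw : 0 < w1)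
    (hq : 0 < q) : ∃ c : ℝ, 0 < c ∧ c ≤ 1 / 3 ∧ c * (M + 2) ≤ σ1 / 4 ∧ c * (C2 + M + 1) ≤ q ∧
      c ≤ σ1 / 2 ∧ c ≤ w1 / 2 := by
  refine ⟨min (1 / 3) (min (σ1 / 4 / (M + 2)) (min (q / (C2 + M + 1)) (min (σ1 / 2) (w1 / 2)))),
    ?_, ?_, ?_, ?_, ?_, ?_⟩
  · refine lt_min (by norm_num) (lt_min ?_ (lt_min ?_ (lt_min ?_ ?_))) <;> positivity
  · exact min_le_left _ _
  · have h : min (1 / 3) (min (σ1 / 4 / (M + 2)) (min (q / (C2 + M + 1))
      (min (σ1 / 2) (w1 / 2)))) ≤ σ1 / 4 / (M + 2) := (min_le_right _ _).trans (min_le_left _ _)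
    calc _ ≤ σ1 / 4 / (M + 2) * (M + 2) := mul_le_mul_of_nonneg_right h (by positivity)
      _ = σ1 / 4 := by field_simp
  · have h : min (1 / 3) (min (σ1 / 4 / (M + 2)) (min (q / (C2 + M + 1))
      (min (σ1 / 2) (w1 / 2)))) ≤ q / (C2 + M + 1) :=
      (min_le_right _ _).trans ((min_le_right _ _).trans (min_le_left _ _))
    calc _ ≤ q / (C2 + M + 1) * (C2 + M + 1) := mul_le_mul_of_nonneg_right h (by positivity)
      _ = q := by field_simp
  · exact (min_le_right _ _).trans ((min_le_right _ _).trans ((min_le_right _ _).trans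
      (min_le_left _ _)))
  · exact (min_le_right _ _).trans ((min_le_right _ _).trans ((min_le_right _ _).trans
      (min_le_right _ _)))

/-- Case 2a. -/
theorem hl_num1 (d X Y Z s κ u L S σ1 C2 M W c : ℝ) (hκ : 0 < κ) (hu : 0 ≤ u) (hL : 0 < L)
    (hs : |s| ≤ S) (hS : 0 < S) (hσ : 0 < σ1) (hX : 3 * σ1 / 4 ≤ |X|) (hY : κ * |Y| ≤ σ1 / 4)
    (hZ : |Z| ≤ L * u) (hC2 : C2 * (κ * u) ≤ |d|) (hC2a : S * L ≤ σ1 / 4 * C2) (hC21 : 1 ≤ C2)
    (hW : |W| ≤ M * (κ * u)) (hc : 0 < c) (hM : 0 < M) (hcM : c * (M + 2) ≤ σ1 / 4) :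
    c * (|d| + (|W| + κ * u)) ≤ |d * (-X + κ * Y) + s * κ * Z| := by
  have hku : 0 ≤ κ * u := by positivity
  have h1 : σ1 / 2 ≤ |-X + κ * Y| := by
    have h2 : |X| - |κ * Y| ≤ |-X + κ * Y| := by
      have h3 := abs_sub_abs_le_abs_sub (-X) (-(κ * Y))
      rw [abs_neg, abs_neg, sub_neg_eq_add] at h3
      exact h3
    rw [abs_mul, abs_of_pos hκ] at h2
    linarith
  have h4 : |s * κ * Z| ≤ S * L * (κ * u) := by
    rw [abs_mul, abs_mul, abs_of_pos hκ]
    calc |s| * κ * |Z| ≤ S * κ * (L * u) := by gcongr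
      _ = S * L * (κ * u) := by ring
  have h5 : S * L * (κ * u) ≤ σ1 / 4 * |d| := by
    calc S * L * (κ * u) ≤ σ1 / 4 * C2 * (κ * u) := mul_le_mul_of_nonneg_right hC2a hku
      _ = σ1 / 4 * (C2 * (κ * u)) := by ring
      _ ≤ σ1 / 4 * |d| := mul_le_mul_of_nonneg_left hC2 (by positivity)
  have h6 : |d| * (σ1 / 2) ≤ |d * (-X + κ * Y)| := by
    rw [abs_mul]
    exact mul_le_mul_of_nonneg_left h1 (abs_nonneg _)
  have h7 : |d * (-X + κ * Y)| - |s * κ * Z| ≤ |d * (-X + κ * Y) + s * κ * Z| := by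
    have h3 := abs_sub_abs_le_abs_sub (d * (-X + κ * Y)) (-(s * κ * Z))
    rw [abs_neg, sub_neg_eq_add] at h3
    exact h3
  have h8 : κ * u ≤ |d| := by
    calc κ * u = 1 * (κ * u) := by ring
      _ ≤ C2 * (κ * u) := mul_le_mul_of_nonneg_right hC21 hku
      _ ≤ |d| := hC2
  have h9 : c * (|d| + (|W| + κ * u)) ≤ c * (M + 2) * |d| := by
    have h10 : |d| + (|W| + κ * u) ≤ (M + 2) * |d| := by
      have h11 : M * (κ * u) ≤ M * |d| := mul_le_mul_of_nonneg_left h8 hM.le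
      linarith
    calc c * (|d| + (|W| + κ * u)) ≤ c * ((M + 2) * |d|) := mul_le_mul_of_nonneg_left h10 hc.le
      _ = c * (M + 2) * |d| := by ring
  have h12 : c * (M + 2) * |d| ≤ σ1 / 4 * |d| := mul_le_mul_of_nonneg_right hcM (abs_nonneg _)
  linarith

/-- Case 2b. -/
theorem hl_num2 (d X Y Z B s κ u s0 c3 ε C2 M W c : ℝ) (hκ : 0 < κ) (hu : 0 ≤ u)
    (hs : s0 ≤ |s|) (hs0 : 0 < s0) (hε : 0 < ε) (hC2p : 0 < C2) (hX : |X| ≤ ε)
    (hY : κ * |Y| ≤ ε) (hZ : |Z - B| ≤ ε * u) (hB : c3 * u ≤ |B|) (hd : |d| ≤ C2 * (κ * u))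
    (hεc : ε * (s0 + 2 * C2) ≤ s0 * c3 / 2)
    (hW : |W| ≤ M * (κ * u)) (hc : 0 < c) (hcM : c * (C2 + M + 1) ≤ s0 * c3 / 2) :
    c * (|d| + (|W| + κ * u)) ≤ |d * (-X + κ * Y) + s * κ * Z| := by
  have hku : 0 ≤ κ * u := by positivity
  have h1 : |-X + κ * Y| ≤ 2 * ε := by
    have h2 := abs_add_le (-X) (κ * Y)
    rw [abs_neg, abs_mul, abs_of_pos hκ] at h2
    linarith
  have h2 : |d * (-X + κ * Y)| ≤ C2 * (κ * u) * (2 * ε) := by
    rw [abs_mul]
    exact mul_le_mul hd h1 (abs_nonneg _) (by positivity)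
  have hεc3 : ε ≤ c3 := by
    have h3 : ε * s0 ≤ s0 * c3 / 2 := by nlinarith
    have h4 : 0 < s0 * c3 := by nlinarith [mul_pos hε hs0]
    nlinarith
  have h3 : (c3 - ε) * u ≤ |Z| := by
    have h4 := abs_sub_abs_le_abs_sub B (B - Z)
    rw [sub_sub_cancel, abs_sub_comm B Z] at h4
    linarith
  have h4 : s0 * κ * ((c3 - ε) * u) ≤ |s * κ * Z| := by
    rw [abs_mul, abs_mul, abs_of_pos hκ]
    have h5 : 0 ≤ (c3 - ε) * u := mul_nonneg (by linarith) hu
    exact mul_le_mul (mul_le_mul_of_nonneg_right hs hκ.le) h3 h5 (by positivity)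
  have h5 : |s * κ * Z| - |d * (-X + κ * Y)| ≤ |d * (-X + κ * Y) + s * κ * Z| := by
    have h6 := abs_sub_abs_le_abs_sub (s * κ * Z) (-(d * (-X + κ * Y)))
    rw [abs_neg, sub_neg_eq_add, add_comm (s * κ * Z)] at h6
    exact h6
  have h6 : c * (|d| + (|W| + κ * u)) ≤ c * (C2 + M + 1) * (κ * u) := by
    have h7 : |d| + (|W| + κ * u) ≤ (C2 + M + 1) * (κ * u) := by linarith
    calc c * (|d| + (|W| + κ * u)) ≤ c * ((C2 + M + 1) * (κ * u)) :=
          mul_le_mul_of_nonneg_left h7 hc.le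
      _ = c * (C2 + M + 1) * (κ * u) := by ring
  have h8 : c * (C2 + M + 1) * (κ * u) ≤ s0 * c3 / 2 * (κ * u) :=
    mul_le_mul_of_nonneg_right hcM hku
  have h9 : ε * (s0 + 2 * C2) * (κ * u) ≤ s0 * c3 / 2 * (κ * u) :=
    mul_le_mul_of_nonneg_right hεc hku
  have h10 : s0 * κ * ((c3 - ε) * u) - C2 * (κ * u) * (2 * ε) =
      s0 * c3 * (κ * u) - ε * (s0 + 2 * C2) * (κ * u) := by ring
  linarith

end Pool.Agent.SDT.N1

end -- N1.HL2

section -- N1E.E5

set_option autoImplicit false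

namespace Pool.Agent.SDT.N1E

open MeasureTheory Set
open scoped ENNReal

theorem prod_le {α β : Type*} [MeasurableSpace α] [MeasurableSpace β] (μ : Measure α)
    (ν : Measure β) [SFinite μ] [SFinite ν] {S : Set (α × β)} (hS : MeasurableSet S) {I : Set α}
    {M : ℝ≥0∞} (hI : ∀ p ∈ S, p.1 ∈ I) (hM : ∀ x, ν (Prod.mk x ⁻¹' S) ≤ M) :
    μ.prod ν S ≤ M * μ I := by
  rw [Measure.prod_apply hS]
  refine le_trans (lintegral_mono fun x => ?_) (lintegral_indicator_const_le I M)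
  by_cases hx : x ∈ I
  · rw [indicator_of_mem hx]
    exact hM x
  · rw [indicator_of_notMem hx]
    have : Prod.mk x ⁻¹' S = ∅ := by
      ext y
      simp only [mem_preimage, mem_empty_iff_false, iff_false]
      intro hy
      exact hx (hI _ hy)
    rw [this, measure_empty]

theorem prod_le_symm {α β : Type*} [MeasurableSpace α] [MeasurableSpace β] (μ : Measure α)
    (ν : Measure β) [SFinite μ] [SFinite ν] {S : Set (α × β)} (hS : MeasurableSet S) {I : Set β}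
    {M : ℝ≥0∞} (hI : ∀ p ∈ S, p.2 ∈ I) (hM : ∀ y, μ ((fun x => (x, y)) ⁻¹' S) ≤ M) :
    μ.prod ν S ≤ M * ν I := by
  rw [Measure.prod_apply_symm hS]
  refine le_trans (lintegral_mono fun y => ?_) (lintegral_indicator_const_le I M)
  by_cases hy : y ∈ I
  · rw [indicator_of_mem hy]
    exact hM y
  · rw [indicator_of_notMem hy]
    have : (fun x => (x, y)) ⁻¹' S = ∅ := by
      ext x
      simp only [mem_preimage, mem_empty_iff_false, iff_false]
      intro hx
      exact hy (hI _ hx)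
    rw [this, measure_empty]

/-- Volume of a region whose sections in the `a`-direction have diameter at most `k`. -/
theorem vol_slice {I1 I3 J1 J2 J3 : Set ℝ} {k : ℝ} (hk : 0 ≤ k) (R : Set P6)
    (hR : MeasurableSet R)
    (h : ∀ w ∈ R, w.1.1 ∈ I1 ∧ w.1.2.2 ∈ I3 ∧ w.2.1 ∈ J1 ∧ w.2.2.1 ∈ J2 ∧ w.2.2.2 ∈ J3)
    (hs : ∀ y1 a a' z1 : ℝ, ∀ v : ℝ × ℝ × ℝ, ((y1, a, z1), v) ∈ R → ((y1, a', z1), v) ∈ R →
      |a - a'| ≤ k) :
    volume R ≤ ENNReal.ofReal k * volume I3 * volume I1 *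
      (volume J3 * volume J2 * volume J1) := by
  have hJ : volume (J1 ×ˢ (J2 ×ˢ J3)) ≤ volume J3 * volume J2 * volume J1 := by
    rw [Measure.volume_eq_prod, Measure.prod_prod, Measure.volume_eq_prod, Measure.prod_prod]
    rw [mul_comm, mul_comm (volume J2)]
  refine le_trans ?_ (mul_le_mul_right hJ _)
  rw [Measure.volume_eq_prod]
  refine prod_le_symm _ _ hR (fun p hp => ?_) (fun v => ?_)
  · exact ⟨(h p hp).2.2.1, (h p hp).2.2.2.1, (h p hp).2.2.2.2⟩
  have hS : MeasurableSet ((fun u : ℝ × ℝ × ℝ => (u, v)) ⁻¹' R) :=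
    (measurable_id.prodMk measurable_const) hR
  rw [Measure.volume_eq_prod]
  refine prod_le _ _ hS (fun p hp => (h _ hp).1) (fun y1 => ?_)
  have hS2 : MeasurableSet (Prod.mk y1 ⁻¹' ((fun u : ℝ × ℝ × ℝ => (u, v)) ⁻¹' R)) :=
    measurable_prodMk_left hS
  rw [Measure.volume_eq_prod]
  refine prod_le_symm _ _ hS2 (fun p hp => (h _ hp).2.1) (fun z1 => ?_)
  refine (Real.volume_le_diam _).trans (Metric.ediam_le fun a ha a' ha' => ?_)
  rw [edist_dist, Real.dist_eq]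
  exact ENNReal.ofReal_le_ofReal (hs y1 a a' z1 v ha ha')

end Pool.Agent.SDT.N1E

end -- N1E.E5

section -- N1F.E0

/-!
N1F, block A4. Exact factorised formula for the phase of a rectangle (LEMMA E0).
-/

namespace Pool.Agent.SDT.N1F

open Pool.Agent.SDT.N1

/-- Difference of two square roots. -/
theorem sqrt_sub (x y : ℝ) (hx : 0 < x) (hy : 0 < y) : √x - √y = (x - y) / (√x + √y) := by
  have h1 := Real.sq_sqrt hx.le
  have h2 := Real.sq_sqrt hy.le
  have h3 := Real.sqrt_pos.2 hx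
  have h4 := Real.sqrt_pos.2 hy
  rw [eq_div_iff (by positivity)]
  nlinarith

/-- The factor in the second difference in one variable. -/
noncomputable def E1f (p x y z : ℝ) : ℝ :=
  (2 * (√(p - (x - z) ^ 2) + √(p - (x - y - z) ^ 2)) +
    ((x - z) + (x - y - z)) * ((x + (x - z)) / (√(p - x ^ 2) + √(p - (x - z) ^ 2)) +
      ((x - y) + (x - y - z)) / (√(p - (x - y) ^ 2) + √(p - (x - y - z) ^ 2)))) /
  ((√(p - x ^ 2) + √(p - (x - y) ^ 2)) * (√(p - (x - z) ^ 2) + √(p - (x - y - z) ^ 2)))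

/-- Second difference of `√(p - x²)`. -/
theorem diff_one (p x y z : ℝ) (h1 : 0 < p - x ^ 2) (h2 : 0 < p - (x - y) ^ 2)
    (h3 : 0 < p - (x - z) ^ 2) (h4 : 0 < p - (x - y - z) ^ 2) :
    √(p - x ^ 2) - √(p - (x - y) ^ 2) - √(p - (x - z) ^ 2) + √(p - (x - y - z) ^ 2) =
      -(y * z * E1f p x y z) := by
  have e1 := Real.sq_sqrt h1.le
  have e2 := Real.sq_sqrt h2.le
  have e3 := Real.sq_sqrt h3.le
  have e4 := Real.sq_sqrt h4.le
  have k1 := Real.sqrt_pos.2 h1
  have k2 := Real.sqrt_pos.2 h2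
  have k3 := Real.sqrt_pos.2 h3
  have k4 := Real.sqrt_pos.2 h4
  have d12 := sqrt_sub _ _ h1 h2
  have d34 := sqrt_sub _ _ h3 h4
  have d13 := sqrt_sub _ _ h1 h3
  have d24 := sqrt_sub _ _ h2 h4
  unfold E1f
  set f1 := √(p - x ^ 2)
  set f2 := √(p - (x - y) ^ 2)
  set f3 := √(p - (x - z) ^ 2)
  set f4 := √(p - (x - y - z) ^ 2)
  have s12 : 0 < f1 + f2 := by positivity
  have s34 : 0 < f3 + f4 := by positivity
  have s13 : 0 < f1 + f3 := by positivity
  have s24 : 0 < f2 + f4 := by positivity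
  -- the slopes
  have d13' : f3 - f1 = z * ((x + (x - z)) / (f1 + f3)) := by
    rw [← neg_sub, d13]
    field_simp
    ring
  have d24' : f4 - f2 = z * (((x - y) + (x - y - z)) / (f2 + f4)) := by
    rw [← neg_sub, d24]
    field_simp
    ring
  have d12' : f1 - f2 = -(y * ((x + (x - y)) / (f1 + f2))) := by
    rw [d12]
    field_simp
    ring
  have d34' : f3 - f4 = -(y * (((x - z) + (x - y - z)) / (f3 + f4))) := by
    rw [d34]
    field_simp
    ring
  have key : (x + (x - y)) / (f1 + f2) - ((x - z) + (x - y - z)) / (f3 + f4) =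
      z * ((2 * (f3 + f4) + ((x - z) + (x - y - z)) * ((x + (x - z)) / (f1 + f3) +
        ((x - y) + (x - y - z)) / (f2 + f4))) / ((f1 + f2) * (f3 + f4))) := by
    rw [div_sub_div _ _ s12.ne' s34.ne', ← mul_div_assoc]
    congr 1
    have : (f1 + f2) = (f3 + f4) - (z * ((x + (x - z)) / (f1 + f3)) +
        z * (((x - y) + (x - y - z)) / (f2 + f4))) := by
      linarith
    generalize (x + (x - z)) / (f1 + f3) = A at this ⊢
    generalize ((x - y) + (x - y - z)) / (f2 + f4) = B at this ⊢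
    rw [this]
    ring
  have h5 : f1 - f2 - f3 + f4 = -(y * ((x + (x - y)) / (f1 + f2) -
      ((x - z) + (x - y - z)) / (f3 + f4))) := by
    have : f1 - f2 - f3 + f4 = (f1 - f2) - (f3 - f4) := by ring
    rw [this, d12', d34']
    ring
  rw [h5, key]
  ring

/-- Bounds for the factor. -/
theorem E1f_bd (p x y z m : ℝ) (hm : 0 < m) (hp : p ≤ 1) (h1 : m ≤ p - x ^ 2)
    (h2 : m ≤ p - (x - y) ^ 2) (h3 : m ≤ p - (x - z) ^ 2) (h4 : m ≤ p - (x - y - z) ^ 2)
    (g1 : 0 ≤ x) (g2 : 0 ≤ x - y) (g3 : 0 ≤ x - z) (g4 : 0 ≤ x - y - z) :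
    1 ≤ E1f p x y z ∧ E1f p x y z ≤ 2 / m ^ 3 := by
  have hm1 : m ≤ 1 := by nlinarith [sq_nonneg x]
  have hf : ∀ t : ℝ, m ≤ p - t ^ 2 → m ≤ √(p - t ^ 2) ∧ √(p - t ^ 2) ≤ 1 := by
    intro t ht
    constructor
    · apply Real.le_sqrt_of_sq_le
      nlinarith
    · rw [Real.sqrt_le_one]
      nlinarith [sq_nonneg t]
  have hx : ∀ t : ℝ, m ≤ p - t ^ 2 → 0 ≤ t → t ≤ 1 := by
    intro t ht h0
    nlinarith
  obtain ⟨a1, b1⟩ := hf x h1
  obtain ⟨a2, b2⟩ := hf (x - y) h2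
  obtain ⟨a3, b3⟩ := hf (x - z) h3
  obtain ⟨a4, b4⟩ := hf (x - y - z) h4
  have c1 := hx x h1 g1
  have c2 := hx (x - y) h2 g2
  have c3 := hx (x - z) h3 g3
  have c4 := hx (x - y - z) h4 g4
  unfold E1f
  set f1 := √(p - x ^ 2)
  set f2 := √(p - (x - y) ^ 2)
  set f3 := √(p - (x - z) ^ 2)
  set f4 := √(p - (x - y - z) ^ 2)
  have s12 : 0 < f1 + f2 := by linarith
  have s34 : 0 < f3 + f4 := by linarith
  have s13 : 0 < f1 + f3 := by linarith
  have s24 : 0 < f2 + f4 := by linarith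
  have n1 : 0 ≤ (x + (x - z)) / (f1 + f3) := by positivity
  have n2 : 0 ≤ ((x - y) + (x - y - z)) / (f2 + f4) := by positivity
  have n1' : (x + (x - z)) / (f1 + f3) ≤ 1 / m := by
    rw [div_le_div_iff₀ s13 hm]
    nlinarith
  have n2' : ((x - y) + (x - y - z)) / (f2 + f4) ≤ 1 / m := by
    rw [div_le_div_iff₀ s24 hm]
    nlinarith
  generalize (x + (x - z)) / (f1 + f3) = A at n1 n1' ⊢
  generalize ((x - y) + (x - y - z)) / (f2 + f4) = B at n2 n2' ⊢
  have hs : 0 ≤ (x - z) + (x - y - z) := by linarith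
  have hden : 0 < (f1 + f2) * (f3 + f4) := mul_pos s12 s34
  constructor
  · rw [le_div_iff₀ hden, one_mul]
    have : 0 ≤ ((x - z) + (x - y - z)) * (A + B) := by positivity
    nlinarith
  · rw [div_le_div_iff₀ hden (by positivity)]
    have hi : 1 ≤ 1 / m := by rw [le_div_iff₀ hm]; linarith
    have u1 : ((x - z) + (x - y - z)) * (A + B) ≤ 4 * (1 / m) := by
      calc ((x - z) + (x - y - z)) * (A + B) ≤ 2 * (1 / m + 1 / m) := by
            apply mul_le_mul (by linarith) (by linarith) (by linarith) (by norm_num)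
        _ = 4 * (1 / m) := by ring
    have u2 : 2 * (f3 + f4) + ((x - z) + (x - y - z)) * (A + B) ≤ 8 * (1 / m) := by
      linarith
    have u3 : 4 * m ^ 2 ≤ (f1 + f2) * (f3 + f4) := by
      have := mul_le_mul (show 2 * m ≤ f1 + f2 by linarith) (show 2 * m ≤ f3 + f4 by linarith)
        (by positivity) s12.le
      nlinarith
    calc (2 * (f3 + f4) + ((x - z) + (x - y - z)) * (A + B)) * m ^ 3
        ≤ 8 * (1 / m) * m ^ 3 := by
          apply mul_le_mul_of_nonneg_right u2 (by positivity)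
      _ = 2 * (4 * m ^ 2) := by field_simp; norm_num
      _ ≤ 2 * ((f1 + f2) * (f3 + f4)) := by linarith

/-- The factor in the mixed difference. -/
noncomputable def E3f (u u' s s' : ℝ) : ℝ :=
  (1 / (√(1 - u - s) + √(1 - u - s')) + 1 / (√(1 - u' - s) + √(1 - u' - s'))) /
    ((√(1 - u - s) + √(1 - u' - s)) * (√(1 - u - s') + √(1 - u' - s')))

/-- Mixed difference of `√(1 - u - s)`. -/
theorem diff_mix (u u' s s' : ℝ) (h1 : 0 < 1 - u - s) (h2 : 0 < 1 - u' - s)
    (h3 : 0 < 1 - u - s') (h4 : 0 < 1 - u' - s') :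
    √(1 - u - s) - √(1 - u' - s) - √(1 - u - s') + √(1 - u' - s') =
      -((u - u') * (s - s') * E3f u u' s s') := by
  have k1 := Real.sqrt_pos.2 h1
  have k2 := Real.sqrt_pos.2 h2
  have k3 := Real.sqrt_pos.2 h3
  have k4 := Real.sqrt_pos.2 h4
  have d12 := sqrt_sub _ _ h1 h2
  have d34 := sqrt_sub _ _ h3 h4
  have d13 := sqrt_sub _ _ h1 h3
  have d24 := sqrt_sub _ _ h2 h4
  unfold E3f
  set f1 := √(1 - u - s)
  set f2 := √(1 - u' - s)
  set f3 := √(1 - u - s')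
  set f4 := √(1 - u' - s')
  have s12 : 0 < f1 + f2 := by positivity
  have s34 : 0 < f3 + f4 := by positivity
  have s13 : 0 < f1 + f3 := by positivity
  have s24 : 0 < f2 + f4 := by positivity
  have e13 : f1 - f3 = -((s - s') * (1 / (f1 + f3))) := by
    rw [d13]
    field_simp
    ring
  have e24 : f2 - f4 = -((s - s') * (1 / (f2 + f4))) := by
    rw [d24]
    field_simp
    ring
  have e12 : f1 - f2 = -((u - u') / (f1 + f2)) := by
    rw [d12]
    field_simp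
    ring
  have e34 : f3 - f4 = -((u - u') / (f3 + f4)) := by
    rw [d34]
    field_simp
    ring
  have h5 : f1 - f2 - f3 + f4 = (f1 - f2) - (f3 - f4) := by ring
  have h6 : f3 + f4 - (f1 + f2) = (s - s') * (1 / (f1 + f3) + 1 / (f2 + f4)) := by
    linarith
  rw [h5, e12, e34]
  generalize 1 / (f1 + f3) + 1 / (f2 + f4) = A at h6 ⊢
  have h7 : -((u - u') / (f1 + f2)) - -((u - u') / (f3 + f4)) =
      -((u - u') * (f3 + f4 - (f1 + f2)) / ((f1 + f2) * (f3 + f4))) := by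
    field_simp
    ring
  rw [h7, h6]
  field_simp

/-- Bounds for the factor in the mixed difference. -/
theorem E3f_bd (u u' s s' m : ℝ) (hm : 0 < m) (hu : 0 ≤ u) (hu' : 0 ≤ u') (hs : 0 ≤ s)
    (hs' : 0 ≤ s') (h1 : m ≤ 1 - u - s) (h2 : m ≤ 1 - u' - s) (h3 : m ≤ 1 - u - s')
    (h4 : m ≤ 1 - u' - s') :
    1 / 4 ≤ E3f u u' s s' ∧ E3f u u' s s' ≤ 1 / (4 * m ^ 3) := by
  have hm1 : m ≤ 1 := by linarith
  have hf : ∀ t : ℝ, m ≤ t → t ≤ 1 → m ≤ √t ∧ √t ≤ 1 := by
    intro t ht ht1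
    constructor
    · apply Real.le_sqrt_of_sq_le
      nlinarith
    · rw [Real.sqrt_le_one]
      exact ht1
  obtain ⟨a1, b1⟩ := hf _ h1 (by linarith)
  obtain ⟨a2, b2⟩ := hf _ h2 (by linarith)
  obtain ⟨a3, b3⟩ := hf _ h3 (by linarith)
  obtain ⟨a4, b4⟩ := hf _ h4 (by linarith)
  unfold E3f
  set f1 := √(1 - u - s)
  set f2 := √(1 - u' - s)
  set f3 := √(1 - u - s')
  set f4 := √(1 - u' - s')
  have s12 : 0 < f1 + f2 := by linarith
  have s34 : 0 < f3 + f4 := by linarith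
  have s13 : 0 < f1 + f3 := by linarith
  have s24 : 0 < f2 + f4 := by linarith
  have n1 : 1 / 2 ≤ 1 / (f1 + f3) := by
    rw [div_le_div_iff₀ (by norm_num) s13]; linarith
  have n2 : 1 / 2 ≤ 1 / (f2 + f4) := by
    rw [div_le_div_iff₀ (by norm_num) s24]; linarith
  have n1' : 1 / (f1 + f3) ≤ 1 / (2 * m) := by
    rw [div_le_div_iff₀ s13 (by positivity)]; linarith
  have n2' : 1 / (f2 + f4) ≤ 1 / (2 * m) := by
    rw [div_le_div_iff₀ s24 (by positivity)]; linarith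
  generalize 1 / (f1 + f3) = A at n1 n1' ⊢
  generalize 1 / (f2 + f4) = B at n2 n2' ⊢
  have hden : 0 < (f1 + f2) * (f3 + f4) := mul_pos s12 s34
  have hden1 : (f1 + f2) * (f3 + f4) ≤ 4 := by
    have := mul_le_mul (show f1 + f2 ≤ 2 by linarith) (show f3 + f4 ≤ 2 by linarith) s34.le
      (by norm_num)
    linarith
  have hden2 : 4 * m ^ 2 ≤ (f1 + f2) * (f3 + f4) := by
    have := mul_le_mul (show 2 * m ≤ f1 + f2 by linarith) (show 2 * m ≤ f3 + f4 by linarith)
      (by positivity) s12.le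
    nlinarith
  constructor
  · rw [div_le_div_iff₀ (by norm_num) hden]
    nlinarith
  · rw [div_le_div_iff₀ hden (by positivity)]
    calc (A + B) * (4 * m ^ 3) ≤ (1 / (2 * m) + 1 / (2 * m)) * (4 * m ^ 3) := by
          apply mul_le_mul_of_nonneg_right (by linarith) (by positivity)
      _ = 4 * m ^ 2 := by field_simp; ring
      _ ≤ 1 * ((f1 + f2) * (f3 + f4)) := by linarith

end Pool.Agent.SDT.N1F

end -- N1F.E0

section -- N1.Y1

/-!
N1, block Y: densities approximated by combinations of products.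
-/

namespace Pool.Agent.SDT.N1

open MeasureTheory Set Metric Pool.Agent.SDT.MP_6cbfb8_an Pool.Agent.SDT.MST
open scoped ENNReal Real

/-- `G` is approximated in the mean, up to `Q / N`, by a combination of products with
coefficients of total size at most `Q`. -/
def AT (Q : ℝ) (N : ℕ) (G : ℝ × ℝ → ℂ) : Prop :=
  ∃ (ι : Type) (_ : Fintype ι) (c : ι → ℂ) (α β : ι → ℝ → ℂ),
    (∀ i, Measurable (α i)) ∧ (∀ i, Measurable (β i)) ∧ (∀ i a, ‖α i a‖ ≤ 1) ∧
    (∀ i b, ‖β i b‖ ≤ 1) ∧ ∑ i, ‖c i‖ ≤ Q ∧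
    ∫⁻ x in Icc (-1:ℝ) 1 ×ˢ Icc (-1:ℝ) 1, ‖G x - ∑ i, c i * (α i x.1 * β i x.2)‖ₑ ≤
      ENNReal.ofReal (Q / N)

theorem AT_one (N : ℕ) : AT 1 N fun _ => 1 := by
  refine ⟨Unit, inferInstance, fun _ => 1, fun _ _ => 1, fun _ _ => 1, ?_, ?_, ?_, ?_, ?_, ?_⟩
  · exact fun _ => measurable_const
  · exact fun _ => measurable_const
  · intro _ _; simp
  · intro _ _; simp
  · simp
  · simp

theorem AT_mono {Q Q' : ℝ} {N : ℕ} {G : ℝ × ℝ → ℂ} (hQ : Q ≤ Q') (h : AT Q N G) : AT Q' N G := by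
  obtain ⟨ι, inst, c, α, β, m1, m2, b1, b2, hc, he⟩ := h
  refine ⟨ι, inst, c, α, β, m1, m2, b1, b2, hc.trans hQ, he.trans ?_⟩
  exact ENNReal.ofReal_le_ofReal (div_le_div_of_nonneg_right hQ (Nat.cast_nonneg _))

theorem norm_spr_le {ι : Type} [Fintype ι] (c : ι → ℂ) (α β : ι → ℝ → ℂ)
    (b1 : ∀ i a, ‖α i a‖ ≤ 1) (b2 : ∀ i b, ‖β i b‖ ≤ 1) (x : ℝ × ℝ) :
    ‖∑ i, c i * (α i x.1 * β i x.2)‖ ≤ ∑ i, ‖c i‖ := by
  refine (norm_sum_le _ _).trans (Finset.sum_le_sum fun i _ => ?_)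
  rw [norm_mul, norm_mul]
  exact mul_le_of_le_one_right (norm_nonneg _) (mul_le_one₀ (b1 _ _) (norm_nonneg _) (b2 _ _))

theorem spr_meas {ι : Type} [Fintype ι] (c : ι → ℂ) (α β : ι → ℝ → ℂ)
    (m1 : ∀ i, Measurable (α i)) (m2 : ∀ i, Measurable (β i)) :
    Measurable fun x : ℝ × ℝ => ∑ i, c i * (α i x.1 * β i x.2) :=
  Finset.measurable_sum _ fun i _ =>
    measurable_const.mul (((m1 i).comp measurable_fst).mul ((m2 i).comp measurable_snd))

theorem AT_mul {Q Q' : ℝ} {N : ℕ} {G G' : ℝ × ℝ → ℂ} (hQ : 0 ≤ Q) (hQ' : 0 ≤ Q')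
    (h : AT Q N G) (h' : AT Q' N G') (mG : Measurable G) (mG' : Measurable G')
    (hG : ∀ x, ‖G x‖ ≤ 1) : AT (Q * Q' + Q') N fun x => G x * G' x := by
  have hN0 : (0:ℝ) ≤ N := Nat.cast_nonneg _
  obtain ⟨ι, inst, c, α, β, m1, m2, b1, b2, hc, he⟩ := h
  obtain ⟨ι', inst', c', α', β', m1', m2', b1', b2', hc', he'⟩ := h'
  set S : ℝ × ℝ → ℂ := fun x => ∑ i, c i * (α i x.1 * β i x.2) with hS
  set S' : ℝ × ℝ → ℂ := fun x => ∑ i, c' i * (α' i x.1 * β' i x.2) with hS'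
  have mS : Measurable S := spr_meas c α β m1 m2
  have mS' : Measurable S' := spr_meas c' α' β' m1' m2'
  have bS' : ∀ x, ‖S' x‖ ≤ Q' := fun x => (norm_spr_le c' α' β' b1' b2' x).trans hc'
  refine ⟨ι × ι', inferInstance, fun i => c i.1 * c' i.2, fun i a => α i.1 a * α' i.2 a,
    fun i b => β i.1 b * β' i.2 b, ?_, ?_, ?_, ?_, ?_, ?_⟩
  · exact fun i => (m1 _).mul (m1' _)
  · exact fun i => (m2 _).mul (m2' _)
  · intro i a
    rw [norm_mul]
    exact mul_le_one₀ (b1 _ _) (norm_nonneg _) (b1' _ _)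
  · intro i b
    rw [norm_mul]
    exact mul_le_one₀ (b2 _ _) (norm_nonneg _) (b2' _ _)
  · have h2 : ∑ i : ι × ι', ‖c i.1 * c' i.2‖ = (∑ i, ‖c i‖) * ∑ i, ‖c' i‖ := by
      rw [Fintype.sum_prod_type, Finset.sum_mul]
      refine Finset.sum_congr rfl fun i _ => ?_
      rw [Finset.mul_sum]
      refine Finset.sum_congr rfl fun j _ => ?_
      rw [norm_mul]
    rw [h2]
    calc (∑ i, ‖c i‖) * ∑ i, ‖c' i‖ ≤ Q * Q' :=
          mul_le_mul hc hc' (Finset.sum_nonneg fun _ _ => norm_nonneg _) hQ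
      _ ≤ Q * Q' + Q' := by linarith
  · have h2 : ∀ x : ℝ × ℝ, ∑ i : ι × ι', c i.1 * c' i.2 *
        (α i.1 x.1 * α' i.2 x.1 * (β i.1 x.2 * β' i.2 x.2)) = S x * S' x := by
      intro x
      rw [Fintype.sum_prod_type, hS, hS', Finset.sum_mul]
      refine Finset.sum_congr rfl fun i _ => ?_
      rw [Finset.mul_sum]
      refine Finset.sum_congr rfl fun j _ => ?_
      ring
    have h3 : ∀ x : ℝ × ℝ, ‖G x * G' x - S x * S' x‖ₑ ≤
        ‖G' x - S' x‖ₑ + ENNReal.ofReal Q' * ‖G x - S x‖ₑ := by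
      intro x
      have e1 : G x * G' x - S x * S' x = G x * (G' x - S' x) + S' x * (G x - S x) := by ring
      rw [e1]
      refine (enorm_add_le _ _).trans (add_le_add ?_ ?_)
      · rw [enorm_mul]
        have : ‖G x‖ₑ ≤ 1 := by
          rw [← ofReal_norm]
          exact ENNReal.ofReal_le_one.2 (hG x)
        exact (mul_le_mul_left this _).trans (one_mul _).le
      · rw [enorm_mul]
        refine mul_le_mul_left ?_ _
        rw [← ofReal_norm]
        exact ENNReal.ofReal_le_ofReal (bS' x)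
    calc ∫⁻ x in Icc (-1:ℝ) 1 ×ˢ Icc (-1:ℝ) 1, ‖G x * G' x - ∑ i : ι × ι', c i.1 * c' i.2 *
          (α i.1 x.1 * α' i.2 x.1 * (β i.1 x.2 * β' i.2 x.2))‖ₑ
        ≤ ∫⁻ x in Icc (-1:ℝ) 1 ×ˢ Icc (-1:ℝ) 1,
            (‖G' x - S' x‖ₑ + ENNReal.ofReal Q' * ‖G x - S x‖ₑ) := by
          refine lintegral_mono fun x => ?_
          rw [h2]
          exact h3 x
      _ = (∫⁻ x in Icc (-1:ℝ) 1 ×ˢ Icc (-1:ℝ) 1, ‖G' x - S' x‖ₑ) +
            ENNReal.ofReal Q' *
              ∫⁻ x in Icc (-1:ℝ) 1 ×ˢ Icc (-1:ℝ) 1, ‖G x - S x‖ₑ := by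
          have e1 : Measurable fun x => ‖G' x - S' x‖ₑ := (mG'.sub mS').enorm
          have e2 : Measurable fun x => ‖G x - S x‖ₑ := (mG.sub mS).enorm
          rw [lintegral_add_left e1, lintegral_const_mul _ e2]
      _ ≤ ENNReal.ofReal (Q' / N) + ENNReal.ofReal Q' * ENNReal.ofReal (Q / N) := by
          gcongr
      _ = ENNReal.ofReal (Q' / N + Q' * (Q / N)) := by
          rw [← ENNReal.ofReal_mul (by positivity), ← ENNReal.ofReal_add (by positivity)
            (by positivity)]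
      _ = ENNReal.ofReal ((Q * Q' + Q') / N) := by
          congr 1
          ring

/-- Interchange of the two variables. -/
theorem AT_swap {Q : ℝ} {N : ℕ} {G : ℝ × ℝ → ℂ} (h : AT Q N G) :
    AT Q N fun x => G x.swap := by
  obtain ⟨ι, inst, c, α, β, m1, m2, b1, b2, hc, he⟩ := h
  refine ⟨ι, inst, c, β, α, m2, m1, b2, b1, hc, ?_⟩
  refine le_trans (le_of_eq ?_) he
  have h1 : MeasurePreserving (Prod.swap : ℝ × ℝ → ℝ × ℝ)
      ((volume : Measure (ℝ × ℝ)).restrict (Icc (-1:ℝ) 1 ×ˢ Icc (-1:ℝ) 1))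
      ((volume : Measure (ℝ × ℝ)).restrict (Icc (-1:ℝ) 1 ×ˢ Icc (-1:ℝ) 1)) := by
    rw [Measure.volume_eq_prod, ← Measure.prod_restrict]
    exact Measure.measurePreserving_swap
  have h2 : MeasurableEmbedding (Prod.swap : ℝ × ℝ → ℝ × ℝ) :=
    MeasurableEquiv.prodComm.measurableEmbedding
  rw [← h1.lintegral_comp_emb h2]
  refine lintegral_congr fun x => ?_
  congr 2
  refine Finset.sum_congr rfl fun i _ => ?_
  simp only [Prod.fst_swap, Prod.snd_swap]
  ring

end Pool.Agent.SDT.N1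

end -- N1.Y1

section -- N1.Y5

/-!
N1, block Y: kernels `∑ᵢ uᵢ(x₁) vᵢ(x₂)` with square summable factors are combinations of products
of bounded functions, up to a small error and a logarithmic loss (random signs and truncation).
-/

namespace Pool.Agent.SDT.N1

open MeasureTheory Set Metric
open scoped ENNReal Real

/-- The sign of a truth value. -/
def bsg (b : Bool) : ℝ := if b then 1 else -1

theorem bsg_sq (b : Bool) : bsg b * bsg b = 1 := by
  cases b <;> simp [bsg]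

theorem sum_bool_prod {κ : Type} [Fintype κ] [DecidableEq κ] (f : κ → Bool → ℝ) :
    ∑ ε : κ → Bool, ∏ i, f i (ε i) = ∏ i, (f i true + f i false) := by
  have h := Finset.prod_univ_sum (fun _ : κ => (Finset.univ : Finset Bool)) f
  simp only [Fintype.sum_bool] at h
  rw [h, Fintype.piFinset_univ]

theorem bsg_orth {κ : Type} [Fintype κ] [DecidableEq κ] (i j : κ) :
    ∑ ε : κ → Bool, bsg (ε i) * bsg (ε j) = if i = j then (2:ℝ) ^ Fintype.card κ else 0 := by
  by_cases h : i = j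
  · subst h
    simp only [bsg_sq, Finset.sum_const, Finset.card_univ, Fintype.card_pi, Fintype.card_bool,
      Finset.prod_const, if_true, nsmul_eq_mul, mul_one]
    push_cast
    rfl
  · rw [if_neg h]
    have h1 : ∀ ε : κ → Bool, bsg (ε i) * bsg (ε j) = ∏ k, (fun (k : κ) (b : Bool) =>
        (if k = i then bsg b else 1) * (if k = j then bsg b else 1)) k (ε k) := by
      intro ε
      rw [Finset.prod_mul_distrib]
      congr 1
      · rw [Finset.prod_ite_eq']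
        simp
      · rw [Finset.prod_ite_eq']
        simp
    rw [Finset.sum_congr rfl fun ε _ => h1 ε]
    refine (sum_bool_prod fun (k : κ) (b : Bool) =>
      (if k = i then bsg b else 1) * (if k = j then bsg b else 1)).trans ?_
    refine Finset.prod_eq_zero (Finset.mem_univ i) ?_
    simp [bsg, h]

/-- The signed sum. -/
noncomputable def rs {κ : Type} [Fintype κ] (a : κ → ℂ) (ε : κ → Bool) : ℂ :=
  ∑ i, a i * (bsg (ε i) : ℂ)

theorem rs_mul {κ : Type} [Fintype κ] [DecidableEq κ] (a b : κ → ℂ) :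
    ∑ ε : κ → Bool, rs a ε * rs b ε = 2 ^ Fintype.card κ * ∑ i, a i * b i := by
  unfold rs
  have h1 : ∀ ε : κ → Bool, (∑ i, a i * (bsg (ε i) : ℂ)) * ∑ i, b i * (bsg (ε i) : ℂ) =
      ∑ i, ∑ j, a i * b j * ((bsg (ε i) * bsg (ε j) : ℝ) : ℂ) := by
    intro ε
    rw [Finset.sum_mul]
    refine Finset.sum_congr rfl fun i _ => ?_
    rw [Finset.mul_sum]
    refine Finset.sum_congr rfl fun j _ => ?_
    push_cast
    ring
  simp only [h1]
  rw [Finset.sum_comm, Finset.mul_sum]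
  refine Finset.sum_congr rfl fun i _ => ?_
  rw [Finset.sum_comm]
  have h2 : ∀ j : κ, ∑ ε : κ → Bool, a i * b j * ((bsg (ε i) * bsg (ε j) : ℝ) : ℂ) =
      if i = j then 2 ^ Fintype.card κ * (a i * b j) else 0 := by
    intro j
    rw [← Finset.mul_sum, ← Complex.ofReal_sum, bsg_orth]
    split_ifs
    · push_cast
      ring
    · simp
  simp only [h2]
  rw [Finset.sum_ite_eq]
  simp

/-- The exponential moments of a real signed sum. -/
theorem exp_moment {κ : Type} [Fintype κ] [DecidableEq κ] (r : κ → ℝ) :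
    ∑ ε : κ → Bool, Real.exp (∑ i, r i * bsg (ε i)) ≤
      2 ^ Fintype.card κ * Real.exp ((∑ i, r i ^ 2) / 2) := by
  have h1 : ∀ ε : κ → Bool, Real.exp (∑ i, r i * bsg (ε i)) =
      ∏ i, (fun (i : κ) (b : Bool) => Real.exp (r i * bsg b)) i (ε i) := by
    intro ε
    rw [Real.exp_sum]
  rw [Finset.sum_congr rfl fun ε _ => h1 ε]
  refine (sum_bool_prod fun (i : κ) (b : Bool) => Real.exp (r i * bsg b)).le.trans ?_
  have h2 : ∀ i : κ, Real.exp (r i * bsg true) + Real.exp (r i * bsg false) ≤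
      2 * Real.exp (r i ^ 2 / 2) := by
    intro i
    have h3 := Real.cosh_le_exp_half_sq (r i)
    rw [Real.cosh_eq] at h3
    simp only [bsg, if_true, mul_one, Bool.false_eq_true, if_false, mul_neg]
    linarith
  calc ∏ i, (Real.exp (r i * bsg true) + Real.exp (r i * bsg false))
      ≤ ∏ i : κ, (2 * Real.exp (r i ^ 2 / 2)) :=
        Finset.prod_le_prod (fun i _ => by positivity) fun i _ => h2 i
    _ = 2 ^ Fintype.card κ * Real.exp ((∑ i, r i ^ 2) / 2) := by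
        rw [Finset.prod_mul_distrib, Finset.prod_const, Finset.card_univ, ← Real.exp_sum,
          Finset.sum_div]

theorem exp_moment_abs {κ : Type} [Fintype κ] [DecidableEq κ] (r : κ → ℝ)
    (hr : ∑ i, r i ^ 2 ≤ 1) :
    ∑ ε : κ → Bool, Real.exp (8 * |∑ i, r i * bsg (ε i)|) ≤
      2 ^ Fintype.card κ * (2 * Real.exp 32) := by
  have h1 : ∀ s : ℝ, |s| = 1 → ∑ ε : κ → Bool, Real.exp (8 * s * ∑ i, r i * bsg (ε i)) ≤
      2 ^ Fintype.card κ * Real.exp 32 := by
    intro s hs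
    have h2 := exp_moment fun i => 8 * s * r i
    have h3 : ∀ ε : κ → Bool, 8 * s * ∑ i, r i * bsg (ε i) = ∑ i, 8 * s * r i * bsg (ε i) := by
      intro ε
      rw [Finset.mul_sum]
      refine Finset.sum_congr rfl fun i _ => ?_
      ring
    simp only [h3]
    refine h2.trans ?_
    have h4 : (∑ i, (8 * s * r i) ^ 2) / 2 ≤ 32 := by
      have h5 : ∑ i, (8 * s * r i) ^ 2 = 64 * s ^ 2 * ∑ i, r i ^ 2 := by
        rw [Finset.mul_sum]
        refine Finset.sum_congr rfl fun i _ => ?_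
        ring
      have h6 : s ^ 2 = 1 := by rw [← sq_abs, hs, one_pow]
      rw [h5, h6]
      linarith
    gcongr
  have h2 : ∀ ε : κ → Bool, Real.exp (8 * |∑ i, r i * bsg (ε i)|) ≤
      Real.exp (8 * 1 * ∑ i, r i * bsg (ε i)) + Real.exp (8 * (-1) * ∑ i, r i * bsg (ε i)) := by
    intro ε
    rcases abs_cases (∑ i, r i * bsg (ε i)) with ⟨h, -⟩ | ⟨h, -⟩
    · rw [h, mul_one]
      linarith [Real.exp_pos (8 * (-1) * ∑ i, r i * bsg (ε i))]
    · rw [h]
      have : 8 * -(∑ i, r i * bsg (ε i)) = 8 * (-1) * ∑ i, r i * bsg (ε i) := by ring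
      rw [this]
      linarith [Real.exp_pos (8 * 1 * ∑ i, r i * bsg (ε i))]
  refine (Finset.sum_le_sum fun ε _ => h2 ε).trans ?_
  rw [Finset.sum_add_distrib]
  have h3 := h1 1 (by simp)
  have h4 := h1 (-1) (by simp)
  linarith

/-- Truncation. -/
noncomputable def tau (M : ℝ) (z : ℂ) : ℂ := if ‖z‖ ≤ M then z else 0

theorem tau_norm (M : ℝ) (hM : 0 ≤ M) (z : ℂ) : ‖tau M z‖ ≤ M := by
  unfold tau
  split_ifs with h
  · exact h
  · simpa using hM

theorem tau_meas (M : ℝ) : Measurable (tau M) := by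
  unfold tau
  exact Measurable.ite (measurableSet_le measurable_norm measurable_const) measurable_id
    measurable_const

theorem tau_err (M : ℝ) (z w : ℂ) :
    ‖z * w - tau M z * tau M w‖ ≤ Real.exp (-M) * Real.exp (2 * (‖z‖ + ‖w‖)) := by
  by_cases h : ‖z‖ ≤ M ∧ ‖w‖ ≤ M
  · unfold tau
    rw [if_pos h.1, if_pos h.2, sub_self, norm_zero]
    positivity
  · have h1 : ‖z * w - tau M z * tau M w‖ ≤ ‖z‖ * ‖w‖ := by
      have h2 : tau M z * tau M w = 0 := by
        unfold tau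
        by_cases h3 : ‖z‖ ≤ M
        · have h4 : ¬ ‖w‖ ≤ M := fun h5 => h ⟨h3, h5⟩
          rw [if_neg h4, mul_zero]
        · rw [if_neg h3, zero_mul]
      rw [h2, sub_zero, norm_mul]
    have h2 : M ≤ ‖z‖ + ‖w‖ := by
      by_contra hc
      push Not at hc
      exact h ⟨by linarith [norm_nonneg w], by linarith [norm_nonneg z]⟩
    refine h1.trans ?_
    rw [← Real.exp_add]
    have h3 : ‖z‖ ≤ Real.exp ‖z‖ := by linarith [Real.add_one_le_exp ‖z‖]
    have h4 : ‖w‖ ≤ Real.exp ‖w‖ := by linarith [Real.add_one_le_exp ‖w‖]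
    calc ‖z‖ * ‖w‖ ≤ Real.exp ‖z‖ * Real.exp ‖w‖ :=
          mul_le_mul h3 h4 (norm_nonneg _) (Real.exp_pos _).le
      _ = Real.exp (‖z‖ + ‖w‖) := by rw [Real.exp_add]
      _ ≤ Real.exp (-M + 2 * (‖z‖ + ‖w‖)) := by
          apply Real.exp_le_exp.2
          linarith

theorem exp_four (a b c d : ℝ) : Real.exp (2 * (a + b + (c + d))) ≤
    (Real.exp (8 * a) + Real.exp (8 * b) + (Real.exp (8 * c) + Real.exp (8 * d))) / 4 := by
  have h1 : ∀ x y : ℝ, Real.exp (x + y) ≤ (Real.exp (2 * x) + Real.exp (2 * y)) / 2 := by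
    intro x y
    rw [Real.exp_add, two_mul x, two_mul y, Real.exp_add, Real.exp_add]
    nlinarith [sq_nonneg (Real.exp x - Real.exp y)]
  have e1 : 2 * (a + b + (c + d)) = 2 * (a + b) + 2 * (c + d) := by ring
  rw [e1]
  refine (h1 _ _).trans ?_
  have h2 := h1 (4 * a) (4 * b)
  have h3 := h1 (4 * c) (4 * d)
  have e2 : 2 * (2 * (a + b)) = 4 * a + 4 * b := by ring
  have e3 : 2 * (2 * (c + d)) = 4 * c + 4 * d := by ring
  have e4 : 2 * (4 * a) = 8 * a := by ring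
  have e5 : 2 * (4 * b) = 8 * b := by ring
  have e6 : 2 * (4 * c) = 8 * c := by ring
  have e7 : 2 * (4 * d) = 8 * d := by ring
  rw [e2, e3]
  rw [e4, e5] at h2
  rw [e6, e7] at h3
  linarith

theorem rs_parts {κ : Type} [Fintype κ] (a : κ → ℂ) (ε : κ → Bool) :
    ‖rs a ε‖ ≤ |∑ i, (a i).re * bsg (ε i)| + |∑ i, (a i).im * bsg (ε i)| := by
  have h1 : (rs a ε).re = ∑ i, (a i).re * bsg (ε i) := by
    unfold rs
    rw [Complex.re_sum]
    refine Finset.sum_congr rfl fun i _ => ?_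
    simp
  have h2 : (rs a ε).im = ∑ i, (a i).im * bsg (ε i) := by
    unfold rs
    rw [Complex.im_sum]
    refine Finset.sum_congr rfl fun i _ => ?_
    simp
  rw [← h1, ← h2]
  exact Complex.norm_le_abs_re_add_abs_im _

theorem sum_re_le {κ : Type} [Fintype κ] (a : κ → ℂ) (ha : ∑ i, ‖a i‖ ^ 2 ≤ 1) :
    ∑ i, (a i).re ^ 2 ≤ 1 ∧ ∑ i, (a i).im ^ 2 ≤ 1 := by
  constructor
  · refine le_trans (Finset.sum_le_sum fun i _ => ?_) ha
    rw [← sq_abs]
    exact pow_le_pow_left₀ (abs_nonneg _) (Complex.abs_re_le_norm _) 2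
  · refine le_trans (Finset.sum_le_sum fun i _ => ?_) ha
    rw [← sq_abs]
    exact pow_le_pow_left₀ (abs_nonneg _) (Complex.abs_im_le_norm _) 2

/-- Truncated random signs reproduce the scalar product up to a small error. -/
theorem rs_trunc {κ : Type} [Fintype κ] [DecidableEq κ] (a b : κ → ℂ)
    (ha : ∑ i, ‖a i‖ ^ 2 ≤ 1) (hb : ∑ i, ‖b i‖ ^ 2 ≤ 1) (M : ℝ) :
    ‖∑ i, a i * b i - ∑ ε : κ → Bool, (1 / 2 ^ Fintype.card κ : ℂ) *
      (tau M (rs a ε) * tau M (rs b ε))‖ ≤ 2 * Real.exp 32 * Real.exp (-M) := by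
  have hn : (0:ℝ) < 2 ^ Fintype.card κ := by positivity
  have h1 : ∑ i, a i * b i - ∑ ε : κ → Bool, (1 / 2 ^ Fintype.card κ : ℂ) *
      (tau M (rs a ε) * tau M (rs b ε)) = ∑ ε : κ → Bool, (1 / 2 ^ Fintype.card κ : ℂ) *
      (rs a ε * rs b ε - tau M (rs a ε) * tau M (rs b ε)) := by
    have h2 : ∑ i, a i * b i =
        ∑ ε : κ → Bool, (1 / 2 ^ Fintype.card κ : ℂ) * (rs a ε * rs b ε) := by
      rw [← Finset.mul_sum, rs_mul]
      have : (2 ^ Fintype.card κ : ℂ) ≠ 0 := pow_ne_zero _ two_ne_zero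
      field_simp
    rw [h2, ← Finset.sum_sub_distrib]
    refine Finset.sum_congr rfl fun ε _ => ?_
    ring
  rw [h1]
  refine (norm_sum_le _ _).trans ?_
  have h3 : ∀ ε : κ → Bool, ‖(1 / 2 ^ Fintype.card κ : ℂ) *
      (rs a ε * rs b ε - tau M (rs a ε) * tau M (rs b ε))‖ ≤
      (1 / 2 ^ Fintype.card κ) * (Real.exp (-M) * ((Real.exp (8 * |∑ i, (a i).re * bsg (ε i)|) +
        Real.exp (8 * |∑ i, (a i).im * bsg (ε i)|) + (Real.exp (8 * |∑ i, (b i).re * bsg (ε i)|) +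
        Real.exp (8 * |∑ i, (b i).im * bsg (ε i)|))) / 4)) := by
    intro ε
    rw [norm_mul]
    have e1 : ‖(1 / 2 ^ Fintype.card κ : ℂ)‖ = 1 / 2 ^ Fintype.card κ := by
      rw [norm_div, norm_one, norm_pow]
      norm_num
    rw [e1]
    refine mul_le_mul_of_nonneg_left ?_ (by positivity)
    refine (tau_err M _ _).trans ?_
    refine mul_le_mul_of_nonneg_left ?_ (by positivity)
    refine le_trans (Real.exp_le_exp.2 ?_) (exp_four _ _ _ _)
    have e2 := rs_parts a ε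
    have e3 := rs_parts b ε
    linarith
  refine (Finset.sum_le_sum fun ε _ => h3 ε).trans ?_
  rw [← Finset.mul_sum, ← Finset.mul_sum, ← Finset.sum_div, Finset.sum_add_distrib,
    Finset.sum_add_distrib, Finset.sum_add_distrib]
  obtain ⟨a1, a2⟩ := sum_re_le a ha
  obtain ⟨b1, b2⟩ := sum_re_le b hb
  have k1 := exp_moment_abs (fun i => (a i).re) a1
  have k2 := exp_moment_abs (fun i => (a i).im) a2
  have k3 := exp_moment_abs (fun i => (b i).re) b1
  have k4 := exp_moment_abs (fun i => (b i).im) b2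
  rw [one_div, inv_mul_le_iff₀ hn]
  have e5 : 0 < Real.exp (-M) := Real.exp_pos _
  calc Real.exp (-M) * ((∑ ε : κ → Bool, Real.exp (8 * |∑ i, (a i).re * bsg (ε i)|) +
        ∑ ε : κ → Bool, Real.exp (8 * |∑ i, (a i).im * bsg (ε i)|) +
        (∑ ε : κ → Bool, Real.exp (8 * |∑ i, (b i).re * bsg (ε i)|) +
        ∑ ε : κ → Bool, Real.exp (8 * |∑ i, (b i).im * bsg (ε i)|))) / 4)
      ≤ Real.exp (-M) * (2 ^ Fintype.card κ * (2 * Real.exp 32)) := by
        refine mul_le_mul_of_nonneg_left ?_ e5.le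
        linarith
    _ = 2 ^ Fintype.card κ * (2 * Real.exp 32 * Real.exp (-M)) := by ring

end Pool.Agent.SDT.N1

end -- N1.Y5

section -- N1.Y6

/-!
N1, block Y: kernels with square summable factors, the class of near Schur multipliers.
-/

namespace Pool.Agent.SDT.N1

open MeasureTheory Set Metric
open scoped ENNReal Real

theorem vol_sq : volume (Icc (-1:ℝ) 1 ×ˢ Icc (-1:ℝ) 1) = 4 := by
  rw [Measure.volume_eq_prod, Measure.prod_prod, Real.volume_Icc, ← ENNReal.ofReal_mul (by norm_num)]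
  norm_num

theorem AT_schur {κ : Type} [Fintype κ] (u v : κ → ℝ → ℂ) (mu : ∀ i, Measurable (u i))
    (mv : ∀ i, Measurable (v i)) (B : ℝ) (hB : 0 < B) (hu : ∀ a, ∑ i, ‖u i a‖ ^ 2 ≤ B ^ 2)
    (hv : ∀ b, ∑ i, ‖v i b‖ ^ 2 ≤ B ^ 2) (N : ℕ) (hN : 1 ≤ N) (G : ℝ × ℝ → ℂ) (e : ℝ)
    (he0 : 0 ≤ e) (he : ∫⁻ x in Icc (-1:ℝ) 1 ×ˢ Icc (-1:ℝ) 1, ‖G x - ∑ i, u i x.1 * v i x.2‖ₑ ≤
      ENNReal.ofReal (e / N)) :
    AT (e + (8 * Real.exp 32 + 1) * B ^ 2 * (1 + Real.log N) ^ 2) N G := by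
  classical
  have hN0 : (0:ℝ) < N := by exact_mod_cast hN
  have hN1 : (1:ℝ) ≤ N := by exact_mod_cast hN
  obtain ⟨M, hM⟩ : ∃ M : ℝ, M = 1 + Real.log N := ⟨_, rfl⟩
  have hM1 : 1 ≤ M := by rw [hM]; linarith [Real.log_nonneg hN1]
  have hM0 : 0 < M := by linarith
  have hexp : Real.exp (-M) ≤ 1 / N := by
    rw [hM, neg_add, Real.exp_add, Real.exp_neg (Real.log N), Real.exp_log hN0, one_div]
    have : Real.exp (-1) ≤ 1 := Real.exp_le_one_iff.2 (by norm_num)
    exact mul_le_of_le_one_left (by positivity) this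
  obtain ⟨n, hn⟩ : ∃ n : ℕ, n = Fintype.card κ := ⟨_, rfl⟩
  have h2n : (0:ℝ) < 2 ^ n := by positivity
  have mrs : ∀ (w : κ → ℝ → ℂ), (∀ i, Measurable (w i)) → ∀ ε : κ → Bool,
      Measurable fun a => rs (fun i => w i a / B) ε := by
    intro w mw ε
    unfold rs
    exact Finset.measurable_sum _ fun i _ => ((mw i).div_const _).mul_const _
  have hdiv : ∀ w : κ → ℝ → ℂ, (∀ a, ∑ i, ‖w i a‖ ^ 2 ≤ B ^ 2) →
      ∀ a, ∑ i, ‖w i a / (B:ℂ)‖ ^ 2 ≤ 1 := by
    intro w hw a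
    have h1 : ∀ i, ‖w i a / (B:ℂ)‖ ^ 2 = ‖w i a‖ ^ 2 / B ^ 2 := by
      intro i
      rw [norm_div, Complex.norm_real, Real.norm_eq_abs, abs_of_pos hB, div_pow]
    simp only [h1]
    rw [← Finset.sum_div, div_le_one (by positivity)]
    exact hw a
  refine ⟨κ → Bool, inferInstance, fun _ => ((B ^ 2 * M ^ 2 / 2 ^ n : ℝ) : ℂ),
    fun ε a => tau M (rs (fun i => u i a / B) ε) / M,
    fun ε b => tau M (rs (fun i => v i b / B) ε) / M, ?_, ?_, ?_, ?_, ?_, ?_⟩
  · exact fun ε => ((tau_meas M).comp (mrs u mu ε)).div_const _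
  · exact fun ε => ((tau_meas M).comp (mrs v mv ε)).div_const _
  · intro ε a
    rw [norm_div, Complex.norm_real, Real.norm_eq_abs, abs_of_pos hM0, div_le_one hM0]
    exact tau_norm M hM0.le _
  · intro ε b
    rw [norm_div, Complex.norm_real, Real.norm_eq_abs, abs_of_pos hM0, div_le_one hM0]
    exact tau_norm M hM0.le _
  · have h1 : ∑ _ε : κ → Bool, ‖((B ^ 2 * M ^ 2 / 2 ^ n : ℝ) : ℂ)‖ = B ^ 2 * M ^ 2 := by
      rw [Finset.sum_const, Finset.card_univ, Fintype.card_pi, Complex.norm_real,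
        Real.norm_eq_abs, abs_of_pos (by positivity)]
      simp only [Fintype.card_bool, Finset.prod_const, Finset.card_univ, ← hn, nsmul_eq_mul]
      push_cast
      field_simp
    rw [h1, ← hM]
    have h2 : 0 ≤ 8 * Real.exp 32 * (B ^ 2 * M ^ 2) := by positivity
    nlinarith
  · have hpt : ∀ x : ℝ × ℝ, ‖G x - ∑ ε : κ → Bool, ((B ^ 2 * M ^ 2 / 2 ^ n : ℝ) : ℂ) *
        (tau M (rs (fun i => u i x.1 / B) ε) / M * (tau M (rs (fun i => v i x.2 / B) ε) / M))‖ₑ ≤
        ‖G x - ∑ i, u i x.1 * v i x.2‖ₑ + ENNReal.ofReal (2 * Real.exp 32 * B ^ 2 / N) := by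
      intro x
      have h1 := rs_trunc (fun i => u i x.1 / (B:ℂ)) (fun i => v i x.2 / (B:ℂ))
        (hdiv u hu x.1) (hdiv v hv x.2) M
      rw [← hn] at h1
      have hBc : (B:ℂ) ≠ 0 := by exact_mod_cast hB.ne'
      have hMc : (M:ℂ) ≠ 0 := by exact_mod_cast hM0.ne'
      have e1 : ∑ i, u i x.1 * v i x.2 - ∑ ε : κ → Bool, ((B ^ 2 * M ^ 2 / 2 ^ n : ℝ) : ℂ) *
          (tau M (rs (fun i => u i x.1 / B) ε) / M * (tau M (rs (fun i => v i x.2 / B) ε) / M)) =
          (B:ℂ) ^ 2 * (∑ i, u i x.1 / (B:ℂ) * (v i x.2 / (B:ℂ)) - ∑ ε : κ → Bool,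
            (1 / 2 ^ n : ℂ) * (tau M (rs (fun i => u i x.1 / B) ε) *
              tau M (rs (fun i => v i x.2 / B) ε))) := by
        rw [mul_sub, Finset.mul_sum, Finset.mul_sum]
        congr 1
        · refine Finset.sum_congr rfl fun i _ => ?_
          field_simp
        · refine Finset.sum_congr rfl fun ε _ => ?_
          push_cast
          field_simp
      have e2 : G x - ∑ ε : κ → Bool, ((B ^ 2 * M ^ 2 / 2 ^ n : ℝ) : ℂ) *
          (tau M (rs (fun i => u i x.1 / B) ε) / M * (tau M (rs (fun i => v i x.2 / B) ε) / M)) =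
          (G x - ∑ i, u i x.1 * v i x.2) + (∑ i, u i x.1 * v i x.2 -
            ∑ ε : κ → Bool, ((B ^ 2 * M ^ 2 / 2 ^ n : ℝ) : ℂ) *
          (tau M (rs (fun i => u i x.1 / B) ε) / M * (tau M (rs (fun i => v i x.2 / B) ε) / M))) := by
        ring
      rw [e2]
      refine (enorm_add_le _ _).trans (add_le_add le_rfl ?_)
      rw [e1, ← ofReal_norm]
      apply ENNReal.ofReal_le_ofReal
      rw [norm_mul, norm_pow, Complex.norm_real, Real.norm_eq_abs, abs_of_pos hB]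
      calc B ^ 2 * _ ≤ B ^ 2 * (2 * Real.exp 32 * Real.exp (-M)) :=
            mul_le_mul_of_nonneg_left h1 (by positivity)
        _ ≤ B ^ 2 * (2 * Real.exp 32 * (1 / N)) := by gcongr
        _ = 2 * Real.exp 32 * B ^ 2 / N := by ring
    calc ∫⁻ x in Icc (-1:ℝ) 1 ×ˢ Icc (-1:ℝ) 1, ‖G x - ∑ ε : κ → Bool,
          ((B ^ 2 * M ^ 2 / 2 ^ n : ℝ) : ℂ) *
        (tau M (rs (fun i => u i x.1 / B) ε) / M * (tau M (rs (fun i => v i x.2 / B) ε) / M))‖ₑ
        ≤ ∫⁻ x in Icc (-1:ℝ) 1 ×ˢ Icc (-1:ℝ) 1, (‖G x - ∑ i, u i x.1 * v i x.2‖ₑ +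
            ENNReal.ofReal (2 * Real.exp 32 * B ^ 2 / N)) := lintegral_mono hpt
      _ = (∫⁻ x in Icc (-1:ℝ) 1 ×ˢ Icc (-1:ℝ) 1, ‖G x - ∑ i, u i x.1 * v i x.2‖ₑ) +
            ENNReal.ofReal (2 * Real.exp 32 * B ^ 2 / N) * 4 := by
          rw [lintegral_add_right _ measurable_const, setLIntegral_const, vol_sq]
      _ ≤ ENNReal.ofReal (e / N) + ENNReal.ofReal (2 * Real.exp 32 * B ^ 2 / N) * 4 := by
          gcongr
      _ = ENNReal.ofReal (e / N + 2 * Real.exp 32 * B ^ 2 / N * 4) := by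
          have h4 : (4 : ℝ≥0∞) = ENNReal.ofReal 4 := by norm_num
          rw [h4, ← ENNReal.ofReal_mul (by positivity), ← ENNReal.ofReal_add (by positivity)
            (by positivity)]
      _ ≤ ENNReal.ofReal ((e + (8 * Real.exp 32 + 1) * B ^ 2 * (1 + Real.log N) ^ 2) / N) := by
          apply ENNReal.ofReal_le_ofReal
          rw [← hM]
          have h1 : e / N + 2 * Real.exp 32 * B ^ 2 / N * 4 = (e + 8 * Real.exp 32 * B ^ 2) / N := by
            ring
          rw [h1]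
          apply div_le_div_of_nonneg_right _ hN0.le
          have h2 : 1 ≤ M ^ 2 := one_le_pow₀ hM1
          have h3 : 8 * Real.exp 32 * B ^ 2 ≤ (8 * Real.exp 32 + 1) * B ^ 2 * M ^ 2 := by
            have h4 : 8 * Real.exp 32 * B ^ 2 ≤ (8 * Real.exp 32 + 1) * B ^ 2 := by
              have : 0 ≤ B ^ 2 := by positivity
              linarith
            exact h4.trans (le_mul_of_one_le_right (by positivity) h2)
          linarith

end Pool.Agent.SDT.N1

end -- N1.Y6
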