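import Pool.Agent.SDT.B02
import Pool.Agent.SDT.B03

set_option autoImplicit false

namespace Pool.Agent.SDT.MP_6cbfb8_an
end Pool.Agent.SDT.MP_6cbfb8_an
namespace Pool.Agent.SDT.MST
end Pool.Agent.SDT.MST
namespace Pool.Agent.SDT.N1
end Pool.Agent.SDT.N1

section -- N1.Defs2

/-!
N1: definitions used by the blocks F, E, M.
-/

namespace Pool.Agent.SDT.N1

open MeasureTheory Set Metric Pool.Agent.SDT.MP_6cbfb8_an Pool.Agent.SDT.MST
open scoped ENNReal Real ContDiff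

/-- `m` is the Fourier transform of an integrable function of total mass at most `B`. -/
def FT1 (B : ℝ) (m : ℝ → ℂ) : Prop :=
  ∃ w : ℝ → ℂ, Integrable w ∧ (∫ η, ‖w η‖) ≤ B ∧ ∀ x, m x = ∫ η, w η * ex (η * x)

/-- Smooth cut-off: `1` on `[-1, 1]`, supported in `[-2, 2]`. -/
noncomputable def th (x : ℝ) : ℝ := Real.smoothTransition (2 - x) * Real.smoothTransition (2 + x)

/-- Dyadic piece: supported in `2 ^ (-j - 1) ≤ |x| ≤ 2 ^ (1 - j)`. -/
noncomputable def uj (j : ℕ) (x : ℝ) : ℝ := th (2 ^ j * x) - th (2 ^ (j + 1) * x)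

/-- One-sided dyadic piece: supported in `[1 / 2, 2]`. -/
noncomputable def mpl (x : ℝ) : ℝ := if 0 < x then th x - th (2 * x) else 0

/-- `G(a) conj G(a - y)`. -/
noncomputable def da (G : ℝ → ℂ) (p : ℝ × ℝ) : ℂ := G p.2 * (starRingEnd ℂ) (G (p.2 - p.1))

/-- The neighbourhood of a base point. -/
def Nb (δ ρ : ℝ) (x0 y0 : ℝ × ℝ) (q : V × V) : Prop :=
  |q.1.1 / ρ - y0.1| ≤ δ ∧ |q.2.1 / ρ - y0.2| ≤ δ ∧ |q.1.2.1 - x0.1| ≤ δ ∧ |q.2.2.1 - x0.2| ≤ δ ∧
    |q.1.2.2| ≤ δ ∧ |q.2.2.2| ≤ δ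

/-- The function `N` at the point `x`. -/
noncomputable def Nx (ρ : ℝ) (q : V × V) : ℝ := Nf ρ (q.1.1 / ρ, q.2.1 / ρ) (q.1.2.1, q.2.2.1)

/-- The function `N` at the point `x - z`. -/
noncomputable def Nz (ρ : ℝ) (q : V × V) : ℝ :=
  Nf ρ (q.1.1 / ρ, q.2.1 / ρ) (q.1.2.1 - q.1.2.2, q.2.2.1 - q.2.2.2)

/-- All four points have coordinates at least `c`. -/
def Ge (c : ℝ) (u : V) : Prop :=
  c ≤ u.2.1 ∧ c ≤ u.2.1 - u.1 ∧ c ≤ u.2.1 - u.2.2 ∧ c ≤ u.2.1 - u.1 - u.2.2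

/-- The product density on the sphere. -/
noncomputable def prd (c : ℝ) (G₁ G₂ : ℝ → ℂ) (x : E 2) : ℂ :=
  if c < |x 0| ∧ c < |x 1| ∧ x 0 ^ 2 + x 1 ^ 2 < 1 - c ^ 2 then G₁ (x 0) * G₂ (x 1) else 0

end Pool.Agent.SDT.N1

end -- N1.Defs2

section -- N1.F1

/-!
N1, block F, part 1: elementary properties of the forms.
-/

namespace Pool.Agent.SDT.N1

open MeasureTheory Set Metric Pool.Agent.SDT.MP_6cbfb8_an Pool.Agent.SDT.MST
open scoped ENNReal Real ContDiff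

/-! ### The kernel in the time variable -/

theorem f1_chi_smooth (n : ℕ) : ContDiff ℝ n chi := by
  have h1 : ContDiff ℝ n Real.smoothTransition := Real.smoothTransition.contDiff
  unfold chi
  exact (h1.comp (by fun_prop)).mul (h1.comp (by fun_prop))

theorem f1_chi_zero (s : ℝ) (h : s ∉ Icc (1 / 2 : ℝ) 3) : chi s = 0 := by
  unfold chi
  rcases lt_or_ge s (1 / 2) with h1 | h1
  · rw [Real.smoothTransition.zero_of_nonpos (by linarith), zero_mul]
  · have h2 : 3 < s := by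
      by_contra h3
      exact h ⟨h1, not_lt.1 h3⟩
    rw [Real.smoothTransition.zero_of_nonpos (x := 3 - s) (by linarith), mul_zero]

theorem f1_chi_nonneg (s : ℝ) : 0 ≤ chi s :=
  mul_nonneg (Real.smoothTransition.nonneg _) (Real.smoothTransition.nonneg _)

theorem f1_chi_int : Integrable chi :=
  (f1_chi_smooth 0).continuous.integrable_of_hasCompactSupport
    (HasCompactSupport.intro isCompact_Icc f1_chi_zero)

theorem f1_ex_cont : Continuous ex := by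
  unfold ex
  fun_prop

theorem f1_Kt_scale (T x : ℝ) (hT : 0 < T) :
    Kt T x = (T : ℂ) * ∫ s : ℝ, ((chi s : ℝ) : ℂ) * ex (T * x * s) := by
  have h1 := Measure.integral_comp_div (fun s : ℝ => ((chi s : ℝ) : ℂ) * ex (T * x * s)) T
  rw [abs_of_pos hT, Complex.real_smul] at h1
  rw [← h1]
  unfold Kt
  refine integral_congr_ae (Filter.Eventually.of_forall fun t => ?_)
  simp only
  congr 2
  field_simp

theorem Kt_le : ∃ C : ℝ, 0 ≤ C ∧ ∀ T x : ℝ, 0 < T → ‖Kt T x‖ ≤ C * T / (1 + T * |x|) ^ 3 := by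
  -- bounds for the derivatives of `chi`
  have hb : ∃ C0 : ℝ, ∀ j ≤ 3, ∀ τ, |iteratedDeriv j chi τ| ≤ C0 := by
    have h1 : ∀ j : ℕ, ∃ C, ∀ τ, |iteratedDeriv j chi τ| ≤ C := by
      intro j
      have h2 : Continuous (iteratedDeriv j chi) :=
        (f1_chi_smooth j).continuous_iteratedDeriv j le_rfl
      have h3 : HasCompactSupport (iteratedDeriv j chi) :=
        HasCompactSupport.intro isCompact_Icc fun τ hτ => hns_zero chi _ _ f1_chi_zero j τ hτ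
      obtain ⟨C, hC⟩ := h3.exists_bound_of_continuous h2
      exact ⟨C, hC⟩
    choose C hC using h1
    refine ⟨max (max (C 0) (C 1)) (max (C 2) (C 3)), fun j hj τ => ?_⟩
    interval_cases j
    · exact (hC 0 τ).trans ((le_max_left _ _).trans (le_max_left _ _))
    · exact (hC 1 τ).trans ((le_max_right _ _).trans (le_max_left _ _))
    · exact (hC 2 τ).trans ((le_max_left _ _).trans (le_max_right _ _))
    · exact (hC 3 τ).trans ((le_max_right _ _).trans (le_max_right _ _))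
  obtain ⟨C0, hC0⟩ := hb
  obtain ⟨C, hC, H⟩ := nonstat 3 3 (max C0 1) 1 one_pos
  have hid : ∀ j : ℕ, 1 ≤ j → j ≤ 3 + 1 → ∀ τ ∈ Icc (1 / 2 : ℝ) 3,
      |iteratedDeriv j (fun s : ℝ => s) τ| ≤ max C0 1 := by
    intro j hj1 _ τ _
    have h1 : |iteratedDeriv j (fun s : ℝ => s) τ| ≤ 1 := by
      obtain ⟨k, rfl⟩ : ∃ k, j = k + 1 := ⟨j - 1, by omega⟩
      rw [iteratedDeriv_succ']
      have h2 : deriv (fun s : ℝ => s) = fun _ => 1 := by
        funext s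
        simp
      rw [h2, iteratedDeriv_const]
      split_ifs <;> simp
    exact h1.trans (le_max_right _ _)
  have H1 : ∀ lam : ℝ, lam ≠ 0 →
      ‖∫ s : ℝ, ((chi s : ℝ) : ℂ) * ex (lam * s)‖ ≤ C / |lam| ^ 3 := by
    intro lam hlam
    refine H chi (fun s => s) f1_chi_smooth (fun n => contDiff_id) (1 / 2) 3 (by norm_num)
      (by norm_num) f1_chi_zero (fun j hj τ => (hC0 j hj τ).trans (le_max_left _ _)) hid
      (fun τ _ => ?_) lam hlam
    simp
  set A : ℝ := ∫ s, ‖((chi s : ℝ) : ℂ)‖ with hA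
  have hA0 : 0 ≤ A := integral_nonneg fun _ => norm_nonneg _
  have H0 : ∀ lam : ℝ, ‖∫ s : ℝ, ((chi s : ℝ) : ℂ) * ex (lam * s)‖ ≤ A := by
    intro lam
    refine (norm_integral_le_integral_norm _).trans (le_of_eq ?_)
    rw [hA]
    congr 1
    funext s
    rw [norm_mul, hns_norm_ex, mul_one]
  have H2 : ∀ lam : ℝ, ‖∫ s : ℝ, ((chi s : ℝ) : ℂ) * ex (lam * s)‖ ≤
      8 * (A + C) / (1 + |lam|) ^ 3 := by
    intro lam
    have hl : 0 ≤ |lam| := abs_nonneg _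
    rcases le_or_gt |lam| 1 with h | h
    · refine (H0 lam).trans ?_
      rw [le_div_iff₀ (by positivity)]
      have h1 : (1 + |lam|) ^ 3 ≤ 2 ^ 3 := pow_le_pow_left₀ (by positivity) (by linarith) 3
      nlinarith
    · refine (H1 lam (by intro h0; rw [h0, abs_zero] at h; linarith)).trans ?_
      rw [div_le_div_iff₀ (by positivity) (by positivity)]
      have h1 : (1 + |lam|) ^ 3 ≤ (2 * |lam|) ^ 3 :=
        pow_le_pow_left₀ (by positivity) (by linarith) 3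
      have h2 : 0 ≤ |lam| ^ 3 := by positivity
      calc C * (1 + |lam|) ^ 3 ≤ C * (2 * |lam|) ^ 3 := mul_le_mul_of_nonneg_left h1 hC
        _ = 8 * C * |lam| ^ 3 := by ring
        _ ≤ 8 * (A + C) * |lam| ^ 3 := by nlinarith
  refine ⟨8 * (A + C), by positivity, fun T x hT => ?_⟩
  rw [f1_Kt_scale T x hT, norm_mul, Complex.norm_real, Real.norm_eq_abs, abs_of_pos hT]
  have h1 := H2 (T * x)
  rw [abs_mul, abs_of_pos hT] at h1
  calc T * ‖∫ s : ℝ, ((chi s : ℝ) : ℂ) * ex (T * x * s)‖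
      ≤ T * (8 * (A + C) / (1 + T * |x|) ^ 3) := mul_le_mul_of_nonneg_left h1 hT.le
    _ = 8 * (A + C) * T / (1 + T * |x|) ^ 3 := by ring

theorem f1_Kt_meas (T : ℝ) : Measurable (Kt T) := by
  have h1 : Measurable fun p : ℝ × ℝ => ((chi (p.2 / T) : ℝ) : ℂ) * ex (p.2 * p.1) := by
    have h2 : Measurable chi := (f1_chi_smooth 0).continuous.measurable
    have h3 : Measurable fun p : ℝ × ℝ => ((chi (p.2 / T) : ℝ) : ℂ) :=
      Complex.measurable_ofReal.comp (h2.comp (measurable_snd.div_const T))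
    have h4 : Measurable fun p : ℝ × ℝ => ex (p.2 * p.1) :=
      f1_ex_cont.measurable.comp (by fun_prop)
    exact h3.mul h4
  have h5 := h1.stronglyMeasurable.integral_prod_right' (ν := (volume : Measure ℝ))
  exact h5.measurable

/-! ### The amplitude -/

theorem f1_sma_zero (c : ℝ) (hc : 0 < c) (v : ℝ) (hv : v ≤ c ^ 2 / 4) : sma c v = 0 := by
  unfold sma smb
  rw [Real.smoothTransition.zero_of_nonpos, zero_div]
  refine div_nonpos_of_nonpos_of_nonneg ?_ hc.le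
  have : √v ≤ c / 2 := by
    rw [Real.sqrt_le_left (by positivity)]
    linarith
  linarith

theorem f1_sma_le (c : ℝ) (hc : 0 < c) (v : ℝ) : |sma c v| ≤ 2 / c := by
  rcases le_or_gt v (c ^ 2 / 4) with h | h
  · rw [f1_sma_zero c hc v h, abs_zero]
    positivity
  · have h1 : c / 2 ≤ √v := by
      apply Real.le_sqrt_of_sq_le
      linarith
    have h2 : 0 < √v := lt_of_lt_of_le (by positivity) h1
    unfold sma smb
    rw [abs_div, abs_of_pos h2, abs_of_nonneg (Real.smoothTransition.nonneg _)]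
    calc Real.smoothTransition ((2 * √v - c) / c) / √v ≤ 1 / √v :=
          div_le_div_of_nonneg_right (Real.smoothTransition.le_one _) h2.le
      _ ≤ 1 / (c / 2) := one_div_le_one_div_of_le (by positivity) h1
      _ = 2 / c := by field_simp

theorem f1_wf_le (c : ℝ) (hc : 0 < c) (a b : ℝ) : |wf c a b| ≤ 2 / c := f1_sma_le c hc _

theorem f1_wf_supp (c : ℝ) (hc : 0 < c) (a b : ℝ) (h : wf c a b ≠ 0) : |a| ≤ 1 ∧ |b| ≤ 1 := by
  have h1 : ¬ (1 - a ^ 2 - b ^ 2 ≤ c ^ 2 / 4) := fun h2 => h (f1_sma_zero c hc _ h2)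
  have h3 : a ^ 2 + b ^ 2 < 1 := by nlinarith [sq_nonneg c]
  constructor
  · rw [abs_le_one_iff_mul_self_le_one]
    nlinarith [sq_nonneg b]
  · rw [abs_le_one_iff_mul_self_le_one]
    nlinarith [sq_nonneg a]

theorem f1_sma_cont (c : ℝ) (hc : 0 < c) : Continuous (sma c) := by
  rw [continuous_iff_continuousAt]
  intro v
  rcases lt_or_ge v (c ^ 2 / 4) with h | h
  · have h1 : sma c =ᶠ[nhds v] fun _ => 0 := by
      filter_upwards [Iio_mem_nhds h] with w hw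
      exact f1_sma_zero c hc w (le_of_lt hw)
    exact continuousAt_const.congr h1.symm
  · have hv : 0 < v := lt_of_lt_of_le (by positivity) h
    have h1 : Continuous Real.smoothTransition := Real.smoothTransition.continuous
    have h2 : Continuous fun v : ℝ => smb c √v := by
      unfold smb
      exact h1.comp (by fun_prop)
    exact h2.continuousAt.div Real.continuous_sqrt.continuousAt (Real.sqrt_pos.2 hv).ne'

theorem f1_wf_cont (c : ℝ) (hc : 0 < c) : Continuous fun x : ℝ × ℝ => wf c x.1 x.2 := by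
  unfold wf
  exact (f1_sma_cont c hc).comp (by fun_prop)

theorem f1_qf_cont (c : ℝ) : Continuous fun x : ℝ × ℝ => qf c x.1 x.2 := by
  unfold qf Sq
  have h1 : Continuous Real.smoothTransition := Real.smoothTransition.continuous
  have h2 : Continuous fun x : ℝ × ℝ => √(1 - x.1 ^ 2 - x.2 ^ 2) := by fun_prop
  have h3 : Continuous fun x : ℝ × ℝ => (16 * (1 - x.1 ^ 2 - x.2 ^ 2) - c ^ 2) / c ^ 2 := by
    fun_prop
  exact h2.mul (h1.comp h3)

theorem f1_Fr_cont (c : ℝ) : Continuous fun q : V × V => Fr c q.1 q.2 := by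
  unfold Fr
  have h := f1_qf_cont c
  have h1 : Continuous fun q : V × V => qf c q.1.2.1 q.2.2.1 :=
    h.comp (f := fun q : V × V => (q.1.2.1, q.2.2.1)) (by fun_prop)
  have h2 : Continuous fun q : V × V => qf c (q.1.2.1 - q.1.1) (q.2.2.1 - q.2.1) :=
    h.comp (f := fun q : V × V => (q.1.2.1 - q.1.1, q.2.2.1 - q.2.1)) (by fun_prop)
  have h3 : Continuous fun q : V × V => qf c (q.1.2.1 - q.1.2.2) (q.2.2.1 - q.2.2.2) :=
    h.comp (f := fun q : V × V => (q.1.2.1 - q.1.2.2, q.2.2.1 - q.2.2.2)) (by fun_prop)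
  have h4 : Continuous fun q : V × V =>
      qf c (q.1.2.1 - q.1.1 - q.1.2.2) (q.2.2.1 - q.2.1 - q.2.2.2) :=
    h.comp (f := fun q : V × V => (q.1.2.1 - q.1.1 - q.1.2.2, q.2.2.1 - q.2.1 - q.2.2.2))
      (by fun_prop)
  exact ((h1.sub h2).sub h3).add h4

theorem f1_Wr_cont (c : ℝ) (hc : 0 < c) : Continuous fun q : V × V => Wr c q.1 q.2 := by
  unfold Wr
  have h := f1_wf_cont c hc
  have h1 : Continuous fun q : V × V => wf c q.1.2.1 q.2.2.1 :=
    h.comp (f := fun q : V × V => (q.1.2.1, q.2.2.1)) (by fun_prop)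
  have h2 : Continuous fun q : V × V => wf c (q.1.2.1 - q.1.1) (q.2.2.1 - q.2.1) :=
    h.comp (f := fun q : V × V => (q.1.2.1 - q.1.1, q.2.2.1 - q.2.1)) (by fun_prop)
  have h3 : Continuous fun q : V × V => wf c (q.1.2.1 - q.1.2.2) (q.2.2.1 - q.2.2.2) :=
    h.comp (f := fun q : V × V => (q.1.2.1 - q.1.2.2, q.2.2.1 - q.2.2.2)) (by fun_prop)
  have h4 : Continuous fun q : V × V =>
      wf c (q.1.2.1 - q.1.1 - q.1.2.2) (q.2.2.1 - q.2.1 - q.2.2.2) :=
    h.comp (f := fun q : V × V => (q.1.2.1 - q.1.1 - q.1.2.2, q.2.2.1 - q.2.1 - q.2.2.2))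
      (by fun_prop)
  exact ((h1.mul h2).mul h3).mul h4

theorem Wr_bdd (c : ℝ) (hc : 0 < c) : ∃ C : ℝ, 0 ≤ C ∧ ∀ u v : V, |Wr c u v| ≤ C := by
  refine ⟨(2 / c) * (2 / c) * (2 / c) * (2 / c), by positivity, fun u v => ?_⟩
  have h0 : 0 ≤ 2 / c := by positivity
  unfold Wr
  rw [abs_mul, abs_mul, abs_mul]
  have h1 := f1_wf_le c hc u.2.1 v.2.1
  have h2 := f1_wf_le c hc (u.2.1 - u.1) (v.2.1 - v.1)
  have h3 := f1_wf_le c hc (u.2.1 - u.2.2) (v.2.1 - v.2.2)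
  have h4 := f1_wf_le c hc (u.2.1 - u.1 - u.2.2) (v.2.1 - v.1 - v.2.2)
  exact mul_le_mul (mul_le_mul (mul_le_mul h1 h2 (abs_nonneg _) h0) h3 (abs_nonneg _)
    (by positivity)) h4 (abs_nonneg _) (by positivity)

theorem f1_Wr_ne (c : ℝ) (u v : V) (h : Wr c u v ≠ 0) : wf c u.2.1 v.2.1 ≠ 0 ∧
    wf c (u.2.1 - u.1) (v.2.1 - v.1) ≠ 0 ∧ wf c (u.2.1 - u.2.2) (v.2.1 - v.2.2) ≠ 0 ∧
    wf c (u.2.1 - u.1 - u.2.2) (v.2.1 - v.1 - v.2.2) ≠ 0 := by
  unfold Wr at h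
  have h1 := left_ne_zero_of_mul h
  have h2 := left_ne_zero_of_mul h1
  exact ⟨left_ne_zero_of_mul h2, right_ne_zero_of_mul h2, right_ne_zero_of_mul h1,
    right_ne_zero_of_mul h⟩

/-- The support of the amplitude of a rectangle. -/
theorem f1_Wr_supp (c : ℝ) (hc : 0 < c) (q : V × V) (h : Wr c q.1 q.2 ≠ 0) :
    q ∈ closedBall (0 : V × V) 2 := by
  obtain ⟨h1, h2, h3, _⟩ := f1_Wr_ne c q.1 q.2 h
  obtain ⟨a1, b1⟩ := f1_wf_supp c hc _ _ h1
  obtain ⟨a2, b2⟩ := f1_wf_supp c hc _ _ h2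
  obtain ⟨a3, b3⟩ := f1_wf_supp c hc _ _ h3
  rw [abs_le] at a1 b1 a2 b2 a3 b3
  rw [mem_closedBall_zero_iff, Prod.norm_def, Prod.norm_def, Prod.norm_def, Prod.norm_def,
    Prod.norm_def]
  simp only [Real.norm_eq_abs]
  refine max_le (max_le ?_ (max_le ?_ ?_)) (max_le ?_ (max_le ?_ ?_)) <;> rw [abs_le] <;>
    constructor <;> linarith [a1.1, a1.2, b1.1, b1.2, a2.1, a2.2, b2.1, b2.2, a3.1, a3.2, b3.1,
      b3.2]

theorem f1_Wr_int (c : ℝ) (hc : 0 < c) : Integrable fun q : V × V => Wr c q.1 q.2 := by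
  refine (f1_Wr_cont c hc).integrable_of_hasCompactSupport ?_
  refine HasCompactSupport.intro (isCompact_closedBall (0 : V × V) 2) fun q hq => ?_
  by_contra h
  exact hq (f1_Wr_supp c hc q h)

theorem f1_KF_meas (c T : ℝ) : Measurable fun q : V × V => Kt T (Fr c q.1 q.2) :=
  (f1_Kt_meas T).comp (f1_Fr_cont c).measurable

theorem FF_int (c : ℝ) (hc : 0 < c) (T : ℝ) (hT : 0 < T) (M : V × V → ℂ) (hM : Measurable M)
    (B : ℝ) (hB : ∀ q, ‖M q‖ ≤ B) :
    Integrable fun q : V × V => M q * ((Wr c q.1 q.2 : ℝ) : ℂ) * Kt T (Fr c q.1 q.2) := by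
  obtain ⟨C, hC, hK⟩ := Kt_le
  have h1 : Integrable fun q : V × V => ((Wr c q.1 q.2 : ℝ) : ℂ) := (f1_Wr_int c hc).ofReal
  have h2 : Integrable fun q : V × V => M q * ((Wr c q.1 q.2 : ℝ) : ℂ) :=
    h1.bdd_mul (c := B) hM.aestronglyMeasurable (Filter.Eventually.of_forall hB)
  refine h2.mul_bdd (c := C * T) (f1_KF_meas c T).aestronglyMeasurable
    (Filter.Eventually.of_forall fun q => ?_)
  refine (hK T _ hT).trans (div_le_self (by positivity) ?_)
  exact one_le_pow₀ (by nlinarith [abs_nonneg (Fr c q.1 q.2)])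

theorem FF_sum (c : ℝ) (hc : 0 < c) (T : ℝ) (hT : 0 < T) {ι : Type*} (s : Finset ι)
    (M : ι → V × V → ℂ) (hM : ∀ i, Measurable (M i)) (B : ℝ) (hB : ∀ i q, ‖M i q‖ ≤ B) :
    FF c T (fun q => ∑ i ∈ s, M i q) = ∑ i ∈ s, FF c T (M i) := by
  unfold FF
  rw [← integral_finsetSum s fun i _ => FF_int c hc T hT (M i) (hM i) B (hB i)]
  refine integral_congr_ae (Filter.Eventually.of_forall fun q => ?_)
  simp only
  rw [Finset.sum_mul, Finset.sum_mul]

/-! ### Interchange of the two sides -/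

/-- Interchange of the first and the last coordinate. -/
def f1_s : V ≃ᵐ V where
  toFun v := (v.2.2, v.2.1, v.1)
  invFun v := (v.2.2, v.2.1, v.1)
  left_inv _ := rfl
  right_inv _ := rfl
  measurable_toFun := by
    simp only [Equiv.coe_fn_mk]
    fun_prop
  measurable_invFun := by
    simp only [Equiv.coe_fn_symm_mk]
    fun_prop

theorem f1_s_mp : MeasurePreserving f1_s (volume : Measure V) volume := by
  have h1 : MeasurePreserving (Prod.swap : ℝ × (ℝ × ℝ) → (ℝ × ℝ) × ℝ)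
      (volume : Measure (ℝ × (ℝ × ℝ))) (volume : Measure ((ℝ × ℝ) × ℝ)) :=
    Measure.measurePreserving_swap
  have h2 : MeasurePreserving (Prod.map (Prod.swap : ℝ × ℝ → ℝ × ℝ) (id : ℝ → ℝ))
      (volume : Measure ((ℝ × ℝ) × ℝ)) (volume : Measure ((ℝ × ℝ) × ℝ)) :=
    Measure.measurePreserving_swap.prod (MeasurePreserving.id _)
  have h3 : MeasurePreserving (MeasurableEquiv.prodAssoc : (ℝ × ℝ) × ℝ ≃ᵐ ℝ × ℝ × ℝ)
      (volume : Measure ((ℝ × ℝ) × ℝ)) (volume : Measure (ℝ × ℝ × ℝ)) :=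
    measurePreserving_prodAssoc volume volume volume
  exact h3.comp (h2.comp h1)

/-- Interchange of the two sides of the rectangle. -/
def f1_sw : V × V ≃ᵐ V × V := f1_s.prodCongr f1_s

theorem f1_sw_mp : MeasurePreserving f1_sw (volume : Measure (V × V)) volume :=
  f1_s_mp.prod f1_s_mp

theorem f1_sw_eq (q : V × V) : f1_sw q = swp q := rfl

theorem f1_Fr_swp (c : ℝ) (q : V × V) : Fr c (swp q).1 (swp q).2 = Fr c q.1 q.2 := by
  unfold Fr swp
  simp only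
  rw [sub_right_comm q.1.2.1 q.1.2.2 q.1.1, sub_right_comm q.2.2.1 q.2.2.2 q.2.1]
  ring

theorem f1_Wr_swp (c : ℝ) (q : V × V) : Wr c (swp q).1 (swp q).2 = Wr c q.1 q.2 := by
  unfold Wr swp
  simp only
  rw [sub_right_comm q.1.2.1 q.1.2.2 q.1.1, sub_right_comm q.2.2.1 q.2.2.2 q.2.1]
  ring

theorem FF_swp (c T : ℝ) (M : V × V → ℂ) : FF c T (fun q => M (swp q)) = FF c T M := by
  unfold FF
  rw [← f1_sw_mp.integral_comp f1_sw.measurableEmbedding
    (fun q : V × V => M q * ((Wr c q.1 q.2 : ℝ) : ℂ) * Kt T (Fr c q.1 q.2))]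
  refine integral_congr_ae (Filter.Eventually.of_forall fun q => ?_)
  simp only [f1_sw_eq]
  rw [f1_Fr_swp, f1_Wr_swp]

/-! ### Absolute estimate -/

theorem FF_abs (c : ℝ) (hc : 0 < c) : ∃ C : ℝ, 0 ≤ C ∧ ∀ T : ℝ, 0 < T → ∀ (M : V × V → ℂ)
    (S : Set (V × V)) (f0 v0 : ℝ), Measurable M → (∀ q, ‖M q‖ ≤ 1) →
    (∀ q, M q ≠ 0 → Wr c q.1 q.2 ≠ 0 → q ∈ S) → 0 ≤ v0 → volume S ≤ ENNReal.ofReal v0 → 0 ≤ f0 →
    (∀ q ∈ S, f0 ≤ |Fr c q.1 q.2|) → ‖FF c T M‖ ≤ C * T * v0 / (1 + T * f0) ^ 3 := by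
  obtain ⟨C1, hC1, hW⟩ := Wr_bdd c hc
  obtain ⟨C2, hC2, hK⟩ := Kt_le
  refine ⟨C1 * C2, by positivity, fun T hT M S f0 v0 hM hM1 hS hv0 hvS hf0 hF => ?_⟩
  set S' : Set (V × V) := {q | M q ≠ 0 ∧ Wr c q.1 q.2 ≠ 0} with hS'
  have hS'm : MeasurableSet S' := by
    refine MeasurableSet.inter ?_ ?_
    · exact (hM (measurableSet_singleton (0 : ℂ))).compl
    · exact ((f1_Wr_cont c hc).measurable (measurableSet_singleton (0 : ℝ))).compl
  have hS'S : S' ⊆ S := fun q hq => hS q hq.1 hq.2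
  have hv : volume S' ≤ ENNReal.ofReal v0 := (measure_mono hS'S).trans hvS
  have h1 : FF c T M = ∫ q in S', M q * ((Wr c q.1 q.2 : ℝ) : ℂ) * Kt T (Fr c q.1 q.2) := by
    unfold FF
    symm
    refine setIntegral_eq_integral_of_forall_compl_eq_zero fun q hq => ?_
    by_cases hq1 : M q = 0
    · rw [hq1, zero_mul, zero_mul]
    · have hq2 : Wr c q.1 q.2 = 0 := by
        by_contra h
        exact hq ⟨hq1, h⟩
      rw [hq2]
      simp
  have h2 : ∀ q ∈ S', ‖M q * ((Wr c q.1 q.2 : ℝ) : ℂ) * Kt T (Fr c q.1 q.2)‖ ≤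
      C1 * (C2 * T / (1 + T * f0) ^ 3) := by
    intro q hq
    rw [norm_mul, norm_mul, Complex.norm_real, Real.norm_eq_abs]
    have h3 : ‖M q‖ * |Wr c q.1 q.2| ≤ C1 := by
      calc ‖M q‖ * |Wr c q.1 q.2| ≤ 1 * C1 :=
            mul_le_mul (hM1 q) (hW _ _) (abs_nonneg _) zero_le_one
        _ = C1 := one_mul _
    have h4 : ‖Kt T (Fr c q.1 q.2)‖ ≤ C2 * T / (1 + T * f0) ^ 3 := by
      refine (hK T _ hT).trans ?_
      refine div_le_div_of_nonneg_left (by positivity) (by positivity) ?_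
      refine pow_le_pow_left₀ (by positivity) ?_ 3
      have := mul_le_mul_of_nonneg_left (hF q (hS'S hq)) hT.le
      linarith
    exact mul_le_mul h3 h4 (norm_nonneg _) hC1
  rw [h1]
  have h5 := norm_setIntegral_le_of_norm_le_const (lt_of_le_of_lt hv ENNReal.ofReal_lt_top) h2
  refine h5.trans ?_
  have h6 : volume.real S' ≤ v0 := by
    rw [Measure.real]
    exact ENNReal.toReal_le_of_le_ofReal hv0 hv
  calc C1 * (C2 * T / (1 + T * f0) ^ 3) * volume.real S' ≤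
        C1 * (C2 * T / (1 + T * f0) ^ 3) * v0 := mul_le_mul_of_nonneg_left h6 (by positivity)
    _ = C1 * C2 * T * v0 / (1 + T * f0) ^ 3 := by ring

/-! ### Interchange of the two coordinates -/

theorem f1_wf_comm (c a b : ℝ) : wf c a b = wf c b a := by
  unfold wf
  congr 1
  ring

theorem f1_qf_comm (c a b : ℝ) : qf c a b = qf c b a := by
  unfold qf
  congr 1
  ring

theorem f1_Hy_comm (c : ℝ) (α β : ℝ × ℝ → ℂ) (y : ℝ × ℝ) (t : ℝ) :
    Hy c (pd α β) y.swap t = Hy c (pd β α) y t := by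
  unfold Hy
  have h1 : MeasurePreserving (MeasurableEquiv.prodComm : ℝ × ℝ ≃ᵐ ℝ × ℝ)
      (volume : Measure (ℝ × ℝ)) volume := Measure.measurePreserving_swap
  rw [← h1.integral_comp MeasurableEquiv.prodComm.measurableEmbedding]
  refine integral_congr_ae (Filter.Eventually.of_forall fun x => ?_)
  have e : ∀ x : ℝ × ℝ, (MeasurableEquiv.prodComm : ℝ × ℝ ≃ᵐ ℝ × ℝ) x = (x.2, x.1) :=
    fun _ => rfl
  simp only [e, Prod.fst_swap, Prod.snd_swap, pd]
  rw [f1_wf_comm c x.2 x.1, f1_qf_comm c x.2 x.1, f1_wf_comm c (x.2 - y.2) (x.1 - y.1),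
    f1_qf_comm c (x.2 - y.2) (x.1 - y.1), mul_comm (α (y.2, x.2)) (β (y.1, x.1))]

/-- Interchange of the two coordinates. -/
theorem Th_comm (c T : ℝ) (α β : ℝ × ℝ → ℂ) : Th c T (pd α β) = Th c T (pd β α) := by
  unfold Th
  have h1 : MeasurePreserving (MeasurableEquiv.prodComm : ℝ × ℝ ≃ᵐ ℝ × ℝ)
      (volume : Measure (ℝ × ℝ)) volume := Measure.measurePreserving_swap
  rw [← h1.lintegral_comp_emb MeasurableEquiv.prodComm.measurableEmbedding]
  refine lintegral_congr fun y => ?_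
  refine lintegral_congr fun t => ?_
  have e : ∀ x : ℝ × ℝ, (MeasurableEquiv.prodComm : ℝ × ℝ ≃ᵐ ℝ × ℝ) x = x.swap :=
    fun _ => rfl
  simp only [e]
  rw [f1_Hy_comm]

end Pool.Agent.SDT.N1

end -- N1.F1

section -- N1.G1

/-!
N1, block G: smoothness of the basic functions.
-/

namespace Pool.Agent.SDT.N1

open MeasureTheory Set Metric Pool.Agent.SDT.MP_6cbfb8_an Pool.Agent.SDT.MST
open scoped ENNReal Real ContDiff

lemma g_st : ContDiff ℝ ∞ Real.smoothTransition := Real.smoothTransition.contDiff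

lemma Sq_smooth (c : ℝ) (hc : 0 < c) : ContDiff ℝ ∞ (Sq c) := by
  rw [contDiff_iff_contDiffAt]
  intro v
  rcases lt_or_ge v (c ^ 2 / 16) with h | h
  · have h1 : Sq c =ᶠ[nhds v] fun _ => 0 := by
      filter_upwards [Iio_mem_nhds h] with w hw
      unfold Sq
      rw [Real.smoothTransition.zero_of_nonpos, mul_zero]
      exact div_nonpos_of_nonpos_of_nonneg (by linarith [mem_Iio.1 hw]) (by positivity)
    exact contDiffAt_const.congr_of_eventuallyEq h1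
  · have hv : 0 < v := lt_of_lt_of_le (by positivity) h
    have h1 : ContDiffAt ℝ ∞ (fun v => √v) v := Real.contDiffAt_sqrt hv.ne'
    have h2 : ContDiffAt ℝ ∞ (fun v => Real.smoothTransition ((16 * v - c ^ 2) / c ^ 2)) v := by
      exact (g_st.comp (by fun_prop : ContDiff ℝ ∞ fun v : ℝ => (16 * v - c ^ 2) / c ^ 2)).contDiffAt
    exact h1.mul h2

lemma Sq_eq (c : ℝ) (hc : 0 < c) (v : ℝ) (hv : c ^ 2 / 8 ≤ v) : Sq c v = √v := by
  unfold Sq
  rw [Real.smoothTransition.one_of_one_le, mul_one]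
  rw [le_div_iff₀ (by positivity)]
  linarith

lemma sma_smooth (c : ℝ) (hc : 0 < c) : ContDiff ℝ ∞ (sma c) := by
  rw [contDiff_iff_contDiffAt]
  intro v
  rcases lt_or_ge v (c ^ 2 / 4) with h | h
  · have h1 : sma c =ᶠ[nhds v] fun _ => 0 := by
      filter_upwards [Iio_mem_nhds h] with w hw
      unfold sma smb
      rw [Real.smoothTransition.zero_of_nonpos, zero_div]
      refine div_nonpos_of_nonpos_of_nonneg ?_ hc.le
      have : √w ≤ c / 2 := by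
        rw [Real.sqrt_le_left (by positivity)]
        have := (mem_Iio.1 hw).le
        nlinarith
      linarith
    exact contDiffAt_const.congr_of_eventuallyEq h1
  · have hv : 0 < v := lt_of_lt_of_le (by positivity) h
    have h1 : ContDiffAt ℝ ∞ (fun v => √v) v := Real.contDiffAt_sqrt hv.ne'
    have h2 : ContDiffAt ℝ ∞ (fun v => smb c √v) v := by
      have : ContDiff ℝ ∞ (smb c) := by
        unfold smb
        exact g_st.comp (by fun_prop)
      exact this.contDiffAt.comp v h1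
    exact h2.div h1 (Real.sqrt_pos.2 hv).ne'

lemma chi_smooth : ContDiff ℝ ∞ chi := by
  unfold chi
  exact (g_st.comp (by fun_prop)).mul (g_st.comp (by fun_prop))

lemma chi_zero (s : ℝ) (h : chi s ≠ 0) : 1 / 2 ≤ s ∧ s ≤ 3 := by
  unfold chi at h
  constructor
  · by_contra h1
    exact h (by rw [Real.smoothTransition.zero_of_nonpos (by linarith), zero_mul])
  · by_contra h1
    exact h (by rw [Real.smoothTransition.zero_of_nonpos (x := 3 - s) (by linarith), mul_zero])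

lemma qf_smooth (c : ℝ) (hc : 0 < c) : ContDiff ℝ ∞ fun x : ℝ × ℝ => qf c x.1 x.2 := by
  unfold qf
  exact (Sq_smooth c hc).comp (by fun_prop)

lemma wf_smooth (c : ℝ) (hc : 0 < c) : ContDiff ℝ ∞ fun x : ℝ × ℝ => wf c x.1 x.2 := by
  unfold wf
  exact (sma_smooth c hc).comp (by fun_prop)

lemma qf_eq (c : ℝ) (hc : 0 < c) (a b : ℝ) (h : c ^ 2 / 8 ≤ 1 - a ^ 2 - b ^ 2) :
    qf c a b = √(1 - a ^ 2 - b ^ 2) := Sq_eq c hc _ h

lemma qf_sq (c : ℝ) (hc : 0 < c) (a b : ℝ) (h : c ^ 2 / 8 ≤ 1 - a ^ 2 - b ^ 2) :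
    qf c a b ^ 2 = 1 - a ^ 2 - b ^ 2 := by
  rw [qf_eq c hc a b h, Real.sq_sqrt (le_trans (by positivity) h)]

lemma qf_pos (c : ℝ) (hc : 0 < c) (a b : ℝ) (h : c ^ 2 / 8 ≤ 1 - a ^ 2 - b ^ 2) :
    0 < qf c a b := by
  rw [qf_eq c hc a b h]
  exact Real.sqrt_pos.2 (lt_of_lt_of_le (by positivity) h)

/-- composition with `qf` -/
lemma qf_comp {Q : Type*} [NormedAddCommGroup Q] [NormedSpace ℝ Q] (c : ℝ) (hc : 0 < c)
    {f g : Q → ℝ} (hf : ContDiff ℝ ∞ f) (hg : ContDiff ℝ ∞ g) :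
    ContDiff ℝ ∞ fun x => qf c (f x) (g x) := by
  have h1 : ContDiff ℝ ∞ fun x => 1 - f x ^ 2 - g x ^ 2 := by fun_prop
  have h2 := (Sq_smooth c hc).comp h1
  exact h2

lemma wf_comp {Q : Type*} [NormedAddCommGroup Q] [NormedSpace ℝ Q] (c : ℝ) (hc : 0 < c)
    {f g : Q → ℝ} (hf : ContDiff ℝ ∞ f) (hg : ContDiff ℝ ∞ g) :
    ContDiff ℝ ∞ fun x => wf c (f x) (g x) := by
  have h1 : ContDiff ℝ ∞ fun x => 1 - f x ^ 2 - g x ^ 2 := by fun_prop
  have h2 := (sma_smooth c hc).comp h1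
  exact h2

lemma Fr_smooth (c : ℝ) (hc : 0 < c) : ContDiff ℝ ∞ fun q : V × V => Fr c q.1 q.2 := by
  have h1 := qf_comp (Q := V × V) c hc (f := fun q => q.1.2.1) (g := fun q => q.2.2.1)
    (by fun_prop) (by fun_prop)
  have h2 := qf_comp (Q := V × V) c hc (f := fun q => q.1.2.1 - q.1.1)
    (g := fun q => q.2.2.1 - q.2.1) (by fun_prop) (by fun_prop)
  have h3 := qf_comp (Q := V × V) c hc (f := fun q => q.1.2.1 - q.1.2.2)
    (g := fun q => q.2.2.1 - q.2.2.2) (by fun_prop) (by fun_prop)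
  have h4 := qf_comp (Q := V × V) c hc (f := fun q => q.1.2.1 - q.1.1 - q.1.2.2)
    (g := fun q => q.2.2.1 - q.2.1 - q.2.2.2) (by fun_prop) (by fun_prop)
  exact ((h1.sub h2).sub h3).add h4

lemma Wr_smooth (c : ℝ) (hc : 0 < c) : ContDiff ℝ ∞ fun q : V × V => Wr c q.1 q.2 := by
  have h1 := wf_comp (Q := V × V) c hc (f := fun q => q.1.2.1) (g := fun q => q.2.2.1)
    (by fun_prop) (by fun_prop)
  have h2 := wf_comp (Q := V × V) c hc (f := fun q => q.1.2.1 - q.1.1)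
    (g := fun q => q.2.2.1 - q.2.1) (by fun_prop) (by fun_prop)
  have h3 := wf_comp (Q := V × V) c hc (f := fun q => q.1.2.1 - q.1.2.2)
    (g := fun q => q.2.2.1 - q.2.2.2) (by fun_prop) (by fun_prop)
  have h4 := wf_comp (Q := V × V) c hc (f := fun q => q.1.2.1 - q.1.1 - q.1.2.2)
    (g := fun q => q.2.2.1 - q.2.1 - q.2.2.2) (by fun_prop) (by fun_prop)
  exact ((h1.mul h2).mul h3).mul h4

lemma wf_ne (c : ℝ) (hc : 0 < c) (a b : ℝ) (h : wf c a b ≠ 0) : c ^ 2 / 4 < 1 - a ^ 2 - b ^ 2 := by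
  by_contra h1
  apply h
  unfold wf sma smb
  rw [Real.smoothTransition.zero_of_nonpos, zero_div]
  refine div_nonpos_of_nonpos_of_nonneg ?_ hc.le
  have : √(1 - a ^ 2 - b ^ 2) ≤ c / 2 := by
    rw [Real.sqrt_le_left (by positivity)]
    linarith
  linarith

end Pool.Agent.SDT.N1

end -- N1.G1

section -- N1.GD

/-!
N1, block G: scaling.
-/

namespace Pool.Agent.SDT.N1

open MeasureTheory Set Metric Pool.Agent.SDT.MP_6cbfb8_an Pool.Agent.SDT.MST
open scoped ENNReal Real ContDiff Topology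

/-- Scaling of a triple. -/
noncomputable def Sc (ρ γ : ℝ) (u : V) : V := (ρ * u.1, u.2.1, γ * u.2.2)

lemma Sc_cont (ρ γ : ℝ) : Continuous (Sc ρ γ) := by
  unfold Sc
  fun_prop

lemma Sc_eq (ρ γ : ℝ) : Sc ρ γ = Prod.map (fun x : ℝ => ρ * x) (Prod.map (fun x : ℝ => x)
    (fun x : ℝ => γ * x)) := rfl

lemma map_Sc (ρ γ : ℝ) (hρ : 0 < ρ) (hγ : 0 < γ) :
    Measure.map (Sc ρ γ) (volume : Measure V) = ENNReal.ofReal ((ρ * γ)⁻¹) • volume := by
  rw [Sc_eq]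
  have h1 : (volume : Measure V) = (volume : Measure ℝ).prod
    ((volume : Measure ℝ).prod (volume : Measure ℝ)) := rfl
  rw [h1, ← Measure.map_prod_map _ _ (by fun_prop) (by fun_prop),
    ← Measure.map_prod_map _ _ (by fun_prop) (by fun_prop)]
  rw [Real.map_volume_mul_left hρ.ne', Real.map_volume_mul_left hγ.ne']
  have h2 : Measure.map (fun x : ℝ => x) volume = (volume : Measure ℝ) := Measure.map_id
  rw [h2, Measure.prod_smul_right, Measure.prod_smul_left, Measure.prod_smul_right, smul_smul]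
  congr 1
  rw [abs_of_pos (by positivity), abs_of_pos (by positivity),
    ← ENNReal.ofReal_mul (by positivity), mul_inv]

/-- Scaling as a measurable equivalence. -/
noncomputable def ScE (ρ γ : ℝ) (hρ : ρ ≠ 0) (hγ : γ ≠ 0) : V ≃ᵐ V :=
  ((Homeomorph.mulLeft₀ ρ hρ).prodCongr ((Homeomorph.refl ℝ).prodCongr
    (Homeomorph.mulLeft₀ γ hγ))).toMeasurableEquiv

lemma ScE_apply (ρ γ : ℝ) (hρ : ρ ≠ 0) (hγ : γ ≠ 0) (u : V) :
    ScE ρ γ hρ hγ u = Sc ρ γ u := rfl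

theorem integral_scale (f : V × V → ℂ) (ρ γ γ' : ℝ) (hρ : 0 < ρ) (hγ : 0 < γ) (hγ' : 0 < γ') :
    ∫ q : V × V, f q = (((ρ * γ) * (ρ * γ') : ℝ) : ℂ) *
      ∫ q : V × V, f (Sc ρ γ q.1, Sc ρ γ' q.2) := by
  have h0 : Measure.map (fun q : V × V => (Sc ρ γ q.1, Sc ρ γ' q.2)) volume =
      ENNReal.ofReal (((ρ * γ) * (ρ * γ'))⁻¹) • (volume : Measure (V × V)) := by
    have h1 : (volume : Measure (V × V)) = (volume : Measure V).prod (volume : Measure V) := rfl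
    have h2 : (fun q : V × V => (Sc ρ γ q.1, Sc ρ γ' q.2)) = Prod.map (Sc ρ γ) (Sc ρ γ') := rfl
    rw [h1, h2, ← Measure.map_prod_map _ _ (Sc_cont ρ γ).measurable (Sc_cont ρ γ').measurable,
      map_Sc ρ γ hρ hγ, map_Sc ρ γ' hρ hγ', Measure.prod_smul_right, Measure.prod_smul_left,
      smul_smul]
    congr 1
    rw [← ENNReal.ofReal_mul (by positivity)]
    congr 1
    rw [← mul_inv, mul_comm]
  have h3 := integral_map_equiv (μ := (volume : Measure (V × V)))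
    (MeasurableEquiv.prodCongr (ScE ρ γ hρ.ne' hγ.ne') (ScE ρ γ' hρ.ne' hγ'.ne')) f
  have h4 : (⇑(MeasurableEquiv.prodCongr (ScE ρ γ hρ.ne' hγ.ne') (ScE ρ γ' hρ.ne' hγ'.ne'))) =
    fun q : V × V => (Sc ρ γ q.1, Sc ρ γ' q.2) := rfl
  rw [h4, h0, integral_smul_measure] at h3
  rw [← h3, ENNReal.toReal_ofReal (by positivity), Complex.real_smul, ← mul_assoc,
    ← Complex.ofReal_mul, mul_inv_cancel₀ (by positivity), Complex.ofReal_one, one_mul]

/-- The kernel in scaled form. -/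
theorem Kt_scale (T x E F : ℝ) (hT : 0 < T) (hE : E ≠ 0) (m : ℝ) (hx : x = m * (E * F)) :
    Kt T x = (T : ℂ) * ∫ s : ℝ, ((chi (s / E) / |E| : ℝ) : ℂ) * ex (T * m * (s * F)) := by
  unfold Kt
  have h1 : ∫ t : ℝ, ((chi (t / T) : ℝ) : ℂ) * ex (t * x) = (T : ℂ) *
      ∫ s : ℝ, ((chi s : ℝ) : ℂ) * ex (T * s * x) := by
    have h2 := Measure.integral_comp_mul_left (fun t : ℝ => ((chi (t / T) : ℝ) : ℂ) * ex (t * x)) T
    have h3 : ∀ s : ℝ, T * s / T = s := fun s => by field_simp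
    simp only [h3] at h2
    rw [h2, abs_of_pos (by positivity), Complex.real_smul, ← mul_assoc, ← Complex.ofReal_mul,
      mul_inv_cancel₀ hT.ne', Complex.ofReal_one, one_mul]
  rw [h1]
  congr 1
  have h4 := Measure.integral_comp_mul_left (fun s : ℝ => ((chi (s / E) / |E| : ℝ) : ℂ) *
    ex (T * m * (s * F))) E
  have h5 : ∀ s : ℝ, E * s / E = s := fun s => by field_simp
  simp only [h5] at h4
  have hEa : 0 < |E| := abs_pos.2 hE
  rw [abs_inv, Complex.real_smul] at h4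
  have h6 : ∫ s : ℝ, ((chi (s / E) / |E| : ℝ) : ℂ) * ex (T * m * (s * F)) =
      ((|E| : ℝ) : ℂ) * ∫ s : ℝ, ((chi s / |E| : ℝ) : ℂ) * ex (T * m * (E * s * F)) := by
    rw [h4, ← mul_assoc, ← Complex.ofReal_mul, mul_inv_cancel₀ hEa.ne', Complex.ofReal_one,
      one_mul]
  rw [h6, ← integral_const_mul]
  refine integral_congr_ae (Filter.Eventually.of_forall fun s => ?_)
  simp only
  have hE' : ((|E| : ℝ) : ℂ) ≠ 0 := by exact_mod_cast hEa.ne'
  rw [hx, show T * s * (m * (E * F)) = T * m * (E * s * F) by ring, Complex.ofReal_div]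
  field_simp

end Pool.Agent.SDT.N1

end -- N1.GD

section -- N1.GE

/-!
N1, block G: derivatives of separated functions and nondegeneracy.
-/

namespace Pool.Agent.SDT.N1

open MeasureTheory Set Metric Pool.Agent.SDT.MP_6cbfb8_an Pool.Agent.SDT.MST
open scoped ENNReal Real ContDiff Topology

lemma fd_of (f : V → ℝ) (x u : V) (d : ℝ) (hf : DifferentiableAt ℝ f x)
    (h : HasDerivAt (fun t : ℝ => f (x.1 + t * u.1, x.2.1 + t * u.2.1, x.2.2 + t * u.2.2)) d 0) :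
    fderiv ℝ f x u = d := by
  have h1 : HasDerivAt (fun t : ℝ => x + t • u) u 0 := by
    have h3 : HasDerivAt (fun t : ℝ => t • u) ((1 : ℝ) • u) 0 := (hasDerivAt_id 0).smul_const u
    rw [one_smul] at h3
    exact h3.const_add x
  have h2 : HasFDerivAt f (fderiv ℝ f x) (x + (0:ℝ) • u) := by
    rw [zero_smul, add_zero]
    exact hf.hasFDerivAt
  have h3 := h2.comp_hasDerivAt (0:ℝ) h1
  have h4 : (f ∘ fun t : ℝ => x + t • u) = fun t : ℝ =>
    f (x.1 + t * u.1, x.2.1 + t * u.2.1, x.2.2 + t * u.2.2) := by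
    funext t
    rfl
  rw [h4] at h3
  exact h3.unique h

lemma g_lin (x u : ℝ) : HasDerivAt (fun t : ℝ => x + t * u) u 0 := by
  simpa using ((hasDerivAt_id (0:ℝ)).mul_const u).const_add x

section sep

variable (F : V × V → ℝ) (X0 X1 X2 Y0 Y1 Y2 : V → ℝ) (a0 b0 : V)

lemma sep_a (hX0 : DifferentiableAt ℝ X0 a0) (hX1 : DifferentiableAt ℝ X1 a0)
    (hX2 : DifferentiableAt ℝ X2 a0) (y0 y1 y2 : ℝ) (u : V) :
    fderiv ℝ (fun a => X0 a + y0 + X1 a * y1 + X2 a * y2) a0 u =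
      fderiv ℝ X0 a0 u + fderiv ℝ X1 a0 u * y1 + fderiv ℝ X2 a0 u * y2 := by
  have h := ((hX0.hasFDerivAt.add_const y0).add (hX1.hasFDerivAt.mul_const y1)).add
    (hX2.hasFDerivAt.mul_const y2)
  have h' := h.fderiv
  have e : (fun a => X0 a + y0 + X1 a * y1 + X2 a * y2) = ((fun a => X0 a + y0) +
    fun a => X1 a * y1) + fun a => X2 a * y2 := rfl
  rw [e, h']
  simp only [ContinuousLinearMap.add_apply, ContinuousLinearMap.smul_apply, smul_eq_mul]
  ring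

lemma sep_b (hY0 : DifferentiableAt ℝ Y0 b0) (hY1 : DifferentiableAt ℝ Y1 b0)
    (hY2 : DifferentiableAt ℝ Y2 b0) (x0 x1 x2 : ℝ) (e : V) :
    fderiv ℝ (fun b => x0 + Y0 b + x1 * Y1 b + x2 * Y2 b) b0 e =
      fderiv ℝ Y0 b0 e + x1 * fderiv ℝ Y1 b0 e + x2 * fderiv ℝ Y2 b0 e := by
  have h := ((hY0.hasFDerivAt.const_add x0).add (hY1.hasFDerivAt.const_mul x1)).add
    (hY2.hasFDerivAt.const_mul x2)
  have h' := h.fderiv
  have e' : (fun b => x0 + Y0 b + x1 * Y1 b + x2 * Y2 b) = ((fun b => x0 + Y0 b) +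
    fun b => x1 * Y1 b) + fun b => x2 * Y2 b := rfl
  rw [e', h']
  simp only [ContinuousLinearMap.add_apply, ContinuousLinearMap.smul_apply, smul_eq_mul]

variable (hF : ∀ᶠ q in 𝓝 (a0, b0), F q = X0 q.1 + Y0 q.2 + X1 q.1 * Y1 q.2 + X2 q.1 * Y2 q.2)
  (hX0 : DifferentiableAt ℝ X0 a0) (hX1 : DifferentiableAt ℝ X1 a0)
  (hX2 : DifferentiableAt ℝ X2 a0) (hY0 : DifferentiableAt ℝ Y0 b0)
  (hY1 : DifferentiableAt ℝ Y1 b0) (hY2 : DifferentiableAt ℝ Y2 b0)

include hF hX0 hX1 hX2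

lemma sep_1 (u : V) : fderiv ℝ (fun a => F (a, b0)) a0 u =
    fderiv ℝ X0 a0 u + fderiv ℝ X1 a0 u * Y1 b0 + fderiv ℝ X2 a0 u * Y2 b0 := by
  have h1 : (fun a => F (a, b0)) =ᶠ[𝓝 a0] fun a => X0 a + Y0 b0 + X1 a * Y1 b0 + X2 a * Y2 b0 := by
    have h2 : Filter.Tendsto (fun a : V => (a, b0)) (𝓝 a0) (𝓝 (a0, b0)) :=
      (by fun_prop : Continuous fun a : V => (a, b0)).tendsto a0
    exact h2.eventually hF
  rw [h1.fderiv_eq]
  exact sep_a X0 X1 X2 a0 hX0 hX1 hX2 _ _ _ u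

include hY0 hY1 hY2

lemma sep_3 (e : V) : fderiv ℝ (fun b => F (a0, b)) b0 e =
    fderiv ℝ Y0 b0 e + X1 a0 * fderiv ℝ Y1 b0 e + X2 a0 * fderiv ℝ Y2 b0 e := by
  have h1 : (fun b => F (a0, b)) =ᶠ[𝓝 b0] fun b => X0 a0 + Y0 b + X1 a0 * Y1 b + X2 a0 * Y2 b := by
    have h2 : Filter.Tendsto (fun b : V => (a0, b)) (𝓝 b0) (𝓝 (a0, b0)) :=
      (by fun_prop : Continuous fun b : V => (a0, b)).tendsto b0
    exact h2.eventually hF
  rw [h1.fderiv_eq]
  exact sep_b Y0 Y1 Y2 b0 hY0 hY1 hY2 _ _ _ e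

lemma sep_2 (u e : V) : fderiv ℝ (fun b => fderiv ℝ (fun a => F (a, b)) a0 u) b0 e =
    fderiv ℝ X1 a0 u * fderiv ℝ Y1 b0 e + fderiv ℝ X2 a0 u * fderiv ℝ Y2 b0 e := by
  have h0 : ∀ᶠ q in 𝓝 (b0, a0), F (q.2, q.1) =
      X0 q.2 + Y0 q.1 + X1 q.2 * Y1 q.1 + X2 q.2 * Y2 q.1 := by
    have h2 : Filter.Tendsto (fun q : V × V => (q.2, q.1)) (𝓝 (b0, a0)) (𝓝 (a0, b0)) :=
      (by fun_prop : Continuous fun q : V × V => (q.2, q.1)).tendsto (b0, a0)
    exact h2.eventually hF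
  have h1 : (fun b => fderiv ℝ (fun a => F (a, b)) a0 u) =ᶠ[𝓝 b0] fun b =>
      fderiv ℝ X0 a0 u + 0 + fderiv ℝ X1 a0 u * Y1 b + fderiv ℝ X2 a0 u * Y2 b := by
    filter_upwards [h0.curry_nhds] with b hb
    have h3 : (fun a => F (a, b)) =ᶠ[𝓝 a0] fun a => X0 a + Y0 b + X1 a * Y1 b + X2 a * Y2 b := hb
    rw [h3.fderiv_eq, sep_a X0 X1 X2 a0 hX0 hX1 hX2]
    ring
  rw [h1.fderiv_eq]
  have h4 := sep_b (fun _ => 0) Y1 Y2 b0 (differentiableAt_const _) hY1 hY2 (fderiv ℝ X0 a0 u)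
    (fderiv ℝ X1 a0 u) (fderiv ℝ X2 a0 u) e
  rw [h4]
  simp

end sep

end Pool.Agent.SDT.N1

end -- N1.GE

section -- N1.AN9

/-!
Row [N1-AN9]. The two volume integrals.

Proof. (1) is the special case of the estimate `(1 + lam ‖a - a'‖)⁶ ≥ ∏_{i=1}^3 (1 + lam |a_i - a'_i|)²` (sup norm),
`∫_{x ∈ ℝ} dx/(1 + lam |y - x|)² ≤ 2/lam`, so the inner integral is `≤ (2/lam)³` (the integral over the ball is at most
the one over `V = ℝ × ℝ × ℝ`, `integral_prod_mul`; or over a box containing the ball with `mono_int` for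
`f x = x - y`), and the outer one adds the volume of `ball a₀ δ`.
(2) `(1 + lam (|w a - w a'| + κ ‖a - a'‖))⁶ ≥ (1 + lam |w a - w a'|)² (1 + lam κ |a_2 - a'_2|)² (1 + lam κ |a_3 - a'_3|)²`.
The ball `ball a₀ δ` is the product `(Ioo) × (Ioo) × (Ioo)` of intervals of radius `δ` (sup norm). For fixed `a`, `a'_2`, `a'_3` the integral in
`a'_1` over the interval of `1/(1 + lam |w a - w (a'_1, a'_2, a'_3)|)²` is `≤ 2/(c₀ lam)` by `mono_int` (AN1)
(`f x = w (x, a'_2, a'_3) - w a`, closed interval; `deriv f x` is the derivative in the hypothesis);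
the other two integrals are `≤ 2/(lam κ)` each. So the inner integral is `≤ 8/(c₀ lam³ κ²)`.
-/

namespace Pool.Agent.SDT.N1

open MeasureTheory Set Metric Pool.Agent.SDT.MST
open scoped ContDiff

private theorem AN9_ball (a₀ : V) (δ : ℝ) :
    ball a₀ δ = ball a₀.1 δ ×ˢ ball a₀.2 δ := by
  rw [ball_prod_same]

private theorem AN9_ball2 (a₀ : ℝ × ℝ) (δ : ℝ) :
    ball a₀ δ = ball a₀.1 δ ×ˢ ball a₀.2 δ := by
  rw [ball_prod_same]

/-- integral of a product dominated function over a ball in `V` -/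
private theorem AN9_inner (a₀ : V) (δ : ℝ) (G g1 : V → ℝ) (g2 g3 : ℝ → ℝ) (M1 M2 M3 : ℝ)
    (hg1 : Continuous g1) (hg2 : Continuous g2) (hg3 : Continuous g3)
    (p0 : ∀ a, 0 ≤ G a) (p2 : ∀ y, 0 ≤ g2 y) (p3 : ∀ y, 0 ≤ g3 y)
    (hM1 : 0 ≤ M1) (hM2 : 0 ≤ M2)
    (hle : ∀ a : V, G a ≤ g1 a * (g2 a.2.1 * g3 a.2.2))
    (h1 : ∀ v ∈ ball a₀.2 δ, ∫ x in ball a₀.1 δ, g1 (x, v) ≤ M1)
    (h2 : ∫ y in ball a₀.2.1 δ, g2 y ≤ M2) (h3 : ∫ y in ball a₀.2.2 δ, g3 y ≤ M3) :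
    ∫ a in ball a₀ δ, G a ≤ M1 * (M2 * M3) := by
  have hcG : Continuous (fun a : V => g1 a * (g2 a.2.1 * g3 a.2.2)) := by fun_prop
  have hcompact : IsCompact (closure (ball a₀ δ)) :=
    (isBounded_ball (x := a₀) (r := δ)).isCompact_closure
  have hI : IntegrableOn (fun a : V => g1 a * (g2 a.2.1 * g3 a.2.2)) (ball a₀ δ) volume :=
    (hcG.continuousOn.integrableOn_compact hcompact).mono_set subset_closure
  have hstep1 : ∫ a in ball a₀ δ, G a ≤ ∫ a in ball a₀ δ, g1 a * (g2 a.2.1 * g3 a.2.2) := by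
    refine integral_mono_of_nonneg ?_ hI ?_
    · exact Filter.Eventually.of_forall p0
    · exact Filter.Eventually.of_forall hle
  refine hstep1.trans ?_
  -- Fubini
  have hprod : ∫ a in ball a₀ δ, g1 a * (g2 a.2.1 * g3 a.2.2) =
      ∫ v in ball a₀.2 δ, ∫ x in ball a₀.1 δ, g1 (x, v) * (g2 v.1 * g3 v.2) := by
    have hI' : IntegrableOn (fun a : V => g1 a * (g2 a.2.1 * g3 a.2.2))
        (ball a₀.1 δ ×ˢ ball a₀.2 δ) ((volume : Measure ℝ).prod (volume : Measure (ℝ × ℝ))) := by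
      rw [← AN9_ball]; exact hI
    have e1 : ∫ a in ball a₀ δ, g1 a * (g2 a.2.1 * g3 a.2.2) =
        ∫ x in ball a₀.1 δ, ∫ v in ball a₀.2 δ, g1 (x, v) * (g2 v.1 * g3 v.2) := by
      rw [AN9_ball]
      exact setIntegral_prod _ hI'
    rw [e1]
    apply integral_integral_swap
    rw [Measure.prod_restrict]
    exact hI'
  rw [hprod]
  have hmain : ∀ v ∈ ball a₀.2 δ, ∫ x in ball a₀.1 δ, g1 (x, v) * (g2 v.1 * g3 v.2) ≤
      M1 * (g2 v.1 * g3 v.2) := by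
    intro v hv
    rw [integral_mul_const]
    exact mul_le_mul_of_nonneg_right (h1 v hv) (mul_nonneg (p2 _) (p3 _))
  have hcomp2 : IsCompact (closure (ball a₀.2 δ)) :=
    (isBounded_ball (x := a₀.2) (r := δ)).isCompact_closure
  have hI2 : IntegrableOn (fun v : ℝ × ℝ => M1 * (g2 v.1 * g3 v.2)) (ball a₀.2 δ) volume := by
    have hc : Continuous (fun v : ℝ × ℝ => M1 * (g2 v.1 * g3 v.2)) := by fun_prop
    exact (hc.continuousOn.integrableOn_compact hcomp2).mono_set subset_closure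
  have hIL : Integrable (fun v : ℝ × ℝ => ∫ x in ball a₀.1 δ, g1 (x, v) * (g2 v.1 * g3 v.2))
      (volume.restrict (ball a₀.2 δ)) := by
    have hI' : IntegrableOn (fun a : V => g1 a * (g2 a.2.1 * g3 a.2.2))
        (ball a₀.1 δ ×ˢ ball a₀.2 δ) ((volume : Measure ℝ).prod (volume : Measure (ℝ × ℝ))) := by
      rw [← AN9_ball]; exact hI
    rw [IntegrableOn, ← Measure.prod_restrict] at hI'
    exact hI'.integral_prod_right
  have hstep2 : ∫ v in ball a₀.2 δ, ∫ x in ball a₀.1 δ, g1 (x, v) * (g2 v.1 * g3 v.2) ≤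
      ∫ v in ball a₀.2 δ, M1 * (g2 v.1 * g3 v.2) := by
    refine setIntegral_mono_on hIL hI2 measurableSet_ball hmain
  refine hstep2.trans ?_
  rw [integral_const_mul]
  refine mul_le_mul_of_nonneg_left ?_ hM1
  have e2 : ∫ v in ball a₀.2 δ, g2 v.1 * g3 v.2 =
      (∫ y in ball a₀.2.1 δ, g2 y) * ∫ y in ball a₀.2.2 δ, g3 y := by
    rw [AN9_ball2]
    exact setIntegral_prod_mul g2 g3 _ _
  rw [e2]
  have n3 : 0 ≤ ∫ y in ball a₀.2.2 δ, g3 y := integral_nonneg p3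
  exact mul_le_mul h2 h3 n3 hM2

/-- one-dimensional integral over a ball -/
private theorem AN9_one (x₀ δ c₀ lam : ℝ) (hδ : 0 < δ) (f : ℝ → ℝ) (hf : ContDiff ℝ 1 f)
    (hc : 0 < c₀) (hl : 0 < lam) (h : ∀ t ∈ closedBall x₀ δ, c₀ ≤ |deriv f t|) :
    ∫ t in ball x₀ δ, 1 / (1 + lam * |f t|) ^ 2 ≤ 2 / (c₀ * lam) := by
  have hab : x₀ - δ ≤ x₀ + δ := by linarith
  have := mono_int f (x₀ - δ) (x₀ + δ) c₀ lam hab hf hc hl (by
    intro t ht
    apply h
    rw [Real.closedBall_eq_Icc]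
    exact ht)
  rw [intervalIntegral.integral_of_le hab, integral_Ioc_eq_integral_Ioo] at this
  rw [Real.ball_eq_Ioo]
  exact this

private theorem AN9_cont1 (lam : ℝ) (hl : 0 < lam) (f : V → ℝ) (hf : Continuous f) :
    Continuous (fun a : V => 1 / (1 + lam * |f a|) ^ 2) := by
  refine Continuous.div continuous_const ?_ ?_
  · exact (continuous_const.add (continuous_const.mul hf.abs)).pow 2
  · intro x
    positivity

private theorem AN9_cont2 (lam y : ℝ) (hl : 0 < lam) :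
    Continuous (fun x : ℝ => 1 / (1 + lam * |x - y|) ^ 2) := by
  refine Continuous.div continuous_const ?_ ?_
  · exact (continuous_const.add (continuous_const.mul (continuous_id.sub continuous_const).abs)).pow 2
  · intro x
    positivity

private theorem AN9_lin (x₀ δ lam y : ℝ) (hδ : 0 < δ) (hl : 0 < lam) :
    ∫ t in ball x₀ δ, 1 / (1 + lam * |t - y|) ^ 2 ≤ 2 / lam := by
  have := AN9_one x₀ δ 1 lam hδ (fun t => t - y) (by fun_prop) one_pos hl (by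
    intro t _
    have : deriv (fun t : ℝ => t - y) t = 1 := by
      rw [deriv_sub_const]; simp
    rw [this]; simp)
  simpa using this

private theorem AN9_alg (X p q r : ℝ) (hp : 0 ≤ p) (hq : 0 ≤ q) (hr : 0 ≤ r)
    (hpX : p ≤ X) (hqX : q ≤ X) (hrX : r ≤ X) :
    1 / (1 + X) ^ 6 ≤ 1 / (1 + p) ^ 2 * (1 / (1 + q) ^ 2 * (1 / (1 + r) ^ 2)) := by
  have hX : 0 ≤ X := hp.trans hpX
  rw [one_div_mul_one_div, one_div_mul_one_div]
  apply one_div_le_one_div_of_le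
  · positivity
  · have e : (1 + X) ^ 6 = (1 + X) ^ 2 * ((1 + X) ^ 2 * (1 + X) ^ 2) := by ring
    rw [e]
    gcongr

theorem vol_RC (a₀ : V) (δ : ℝ) : ∃ C : ℝ, 0 ≤ C ∧ ∀ lam : ℝ, 0 < lam →
    ∫ a in ball a₀ δ, ∫ a' in ball a₀ δ, 1 / (1 + lam * ‖a - a'‖) ^ 6 ≤ C / lam ^ 3 := by
  refine ⟨8 * volume.real (ball a₀ δ), by positivity, ?_⟩
  intro lam hlam
  rcases le_or_gt δ 0 with hδ | hδ
  · rw [ball_eq_empty.2 hδ]; simp
  have hin : ∀ a : V, ∫ a' in ball a₀ δ, 1 / (1 + lam * ‖a - a'‖) ^ 6 ≤ 8 / lam ^ 3 := by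
    intro a
    have key := AN9_inner a₀ δ (fun a' => 1 / (1 + lam * ‖a - a'‖) ^ 6)
      (fun a' => 1 / (1 + lam * |a'.1 - a.1|) ^ 2) (fun y => 1 / (1 + lam * |y - a.2.1|) ^ 2)
      (fun y => 1 / (1 + lam * |y - a.2.2|) ^ 2) (2 / lam) (2 / lam) (2 / lam)
      (AN9_cont1 lam hlam (fun a' => a'.1 - a.1) (by fun_prop))
      (AN9_cont2 lam _ hlam) (AN9_cont2 lam _ hlam)
      (fun a' => by positivity) (fun a' => by positivity) (fun a' => by positivity)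
      (by positivity) (by positivity) ?_ ?_ ?_ ?_
    · refine key.trans (le_of_eq ?_)
      field_simp
      norm_num
    · intro a'
      have n1 : |a'.1 - a.1| ≤ ‖a - a'‖ := by
        rw [abs_sub_comm]
        exact norm_fst_le (a - a')
      have n2 : |a'.2.1 - a.2.1| ≤ ‖a - a'‖ := by
        rw [abs_sub_comm]
        exact (norm_fst_le (a - a').2).trans (norm_snd_le (a - a'))
      have n3 : |a'.2.2 - a.2.2| ≤ ‖a - a'‖ := by
        rw [abs_sub_comm]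
        exact (norm_snd_le (a - a').2).trans (norm_snd_le (a - a'))
      exact AN9_alg _ _ _ _ (by positivity) (by positivity) (by positivity)
        (by gcongr) (by gcongr) (by gcongr)
    · intro v _
      exact AN9_lin a₀.1 δ lam a.1 hδ hlam
    · exact AN9_lin a₀.2.1 δ lam a.2.1 hδ hlam
    · exact AN9_lin a₀.2.2 δ lam a.2.2 hδ hlam
  have hb := norm_setIntegral_le_of_norm_le_const (μ := volume) (s := ball a₀ δ)
    (f := fun a : V => ∫ a' in ball a₀ δ, 1 / (1 + lam * ‖a - a'‖) ^ 6) (C := 8 / lam ^ 3)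
    measure_ball_lt_top (by
      intro a _
      rw [Real.norm_of_nonneg (integral_nonneg fun a' => by positivity)]
      exact hin a)
  refine (le_abs_self _).trans (hb.trans (le_of_eq ?_))
  ring

theorem vol_HL (a₀ : V) (δ c₀ : ℝ) (hc : 0 < c₀) : ∃ C : ℝ, 0 ≤ C ∧ ∀ (w : V → ℝ) (lam κ : ℝ),
    ContDiff ℝ ∞ w → 0 < lam → 0 < κ →
    (∀ a ∈ closedBall a₀ δ, c₀ ≤ |deriv (fun x : ℝ => w (x, a.2)) a.1|) →
    ∫ a in ball a₀ δ, ∫ a' in ball a₀ δ, 1 / (1 + lam * (|w a - w a'| + κ * ‖a - a'‖)) ^ 6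
      ≤ C / (lam ^ 3 * κ ^ 2) := by
  refine ⟨8 / c₀ * volume.real (ball a₀ δ), by positivity, ?_⟩
  intro w lam κ hw hlam hκ hder
  rcases le_or_gt δ 0 with hδ | hδ
  · rw [ball_eq_empty.2 hδ]; simp
  have hlk : 0 < lam * κ := mul_pos hlam hκ
  have hin : ∀ a : V, ∫ a' in ball a₀ δ, 1 / (1 + lam * (|w a - w a'| + κ * ‖a - a'‖)) ^ 6
      ≤ 8 / c₀ / (lam ^ 3 * κ ^ 2) := by
    intro a
    have key := AN9_inner a₀ δ (fun a' => 1 / (1 + lam * (|w a - w a'| + κ * ‖a - a'‖)) ^ 6)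
      (fun a' => 1 / (1 + lam * |w a' - w a|) ^ 2)
      (fun y => 1 / (1 + lam * κ * |y - a.2.1|) ^ 2)
      (fun y => 1 / (1 + lam * κ * |y - a.2.2|) ^ 2) (2 / (c₀ * lam)) (2 / (lam * κ))
      (2 / (lam * κ))
      (AN9_cont1 lam hlam (fun a' => w a' - w a) (hw.continuous.sub continuous_const))
      (AN9_cont2 (lam * κ) _ hlk) (AN9_cont2 (lam * κ) _ hlk)
      (fun a' => by positivity) (fun a' => by positivity) (fun a' => by positivity)
      (by positivity) (by positivity) ?_ ?_ ?_ ?_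
    · refine key.trans (le_of_eq ?_)
      field_simp
      norm_num
    · intro a'
      have n2 : |a'.2.1 - a.2.1| ≤ ‖a - a'‖ := by
        rw [abs_sub_comm]
        exact (norm_fst_le (a - a').2).trans (norm_snd_le (a - a'))
      have n3 : |a'.2.2 - a.2.2| ≤ ‖a - a'‖ := by
        rw [abs_sub_comm]
        exact (norm_snd_le (a - a').2).trans (norm_snd_le (a - a'))
      have hk2 : lam * κ * |a'.2.1 - a.2.1| ≤ lam * (|w a - w a'| + κ * ‖a - a'‖) := by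
        have h1 : κ * |a'.2.1 - a.2.1| ≤ |w a - w a'| + κ * ‖a - a'‖ := by
          have := mul_le_mul_of_nonneg_left n2 hκ.le
          have := abs_nonneg (w a - w a')
          linarith
        calc lam * κ * |a'.2.1 - a.2.1| = lam * (κ * |a'.2.1 - a.2.1|) := by ring
          _ ≤ _ := mul_le_mul_of_nonneg_left h1 hlam.le
      have hk3 : lam * κ * |a'.2.2 - a.2.2| ≤ lam * (|w a - w a'| + κ * ‖a - a'‖) := by
        have h1 : κ * |a'.2.2 - a.2.2| ≤ |w a - w a'| + κ * ‖a - a'‖ := by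
          have := mul_le_mul_of_nonneg_left n3 hκ.le
          have := abs_nonneg (w a - w a')
          linarith
        calc lam * κ * |a'.2.2 - a.2.2| = lam * (κ * |a'.2.2 - a.2.2|) := by ring
          _ ≤ _ := mul_le_mul_of_nonneg_left h1 hlam.le
      have hk1 : lam * |w a' - w a| ≤ lam * (|w a - w a'| + κ * ‖a - a'‖) := by
        apply mul_le_mul_of_nonneg_left _ hlam.le
        rw [abs_sub_comm]
        have : 0 ≤ κ * ‖a - a'‖ := by positivity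
        linarith
      exact AN9_alg _ _ _ _ (by positivity) (by positivity) (by positivity) hk1 hk2 hk3
    · intro v hv
      have hf : ContDiff ℝ 1 (fun x : ℝ => w (x, v) - w a) := by
        have : ContDiff ℝ ∞ (fun x : ℝ => w (x, v) - w a) :=
          (hw.comp (contDiff_id.prodMk contDiff_const)).sub contDiff_const
        exact this.of_le (by exact_mod_cast le_top)
      refine AN9_one a₀.1 δ c₀ lam hδ (fun x => w (x, v) - w a) hf hc hlam ?_
      intro t ht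
      rw [deriv_sub_const]
      have hmem : ((t, v) : V) ∈ closedBall a₀ δ := by
        rw [show a₀ = (a₀.1, a₀.2) from rfl, ← closedBall_prod_same]
        exact ⟨ht, ball_subset_closedBall hv⟩
      exact hder (t, v) hmem
    · exact AN9_lin a₀.2.1 δ (lam * κ) a.2.1 hδ hlk
    · exact AN9_lin a₀.2.2 δ (lam * κ) a.2.2 hδ hlk
  have hb := norm_setIntegral_le_of_norm_le_const (μ := volume) (s := ball a₀ δ)
    (f := fun a : V => ∫ a' in ball a₀ δ, 1 / (1 + lam * (|w a - w a'| + κ * ‖a - a'‖)) ^ 6)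
    (C := 8 / c₀ / (lam ^ 3 * κ ^ 2)) measure_ball_lt_top (by
      intro a _
      rw [Real.norm_of_nonneg (integral_nonneg fun a' => by positivity)]
      exact hin a)
  refine (le_abs_self _).trans (hb.trans (le_of_eq ?_))
  ring

end Pool.Agent.SDT.N1

end -- N1.AN9

section -- N1F.Defs

/-!
N1F: product densities without cut-offs near the coordinate axes. Definitions.

`al`, `be` are the sizes of the two coordinates, `A = al ^ 2`, `B = be ^ 2`.
-/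

namespace Pool.Agent.SDT.N1F

open MeasureTheory Set Metric Pool.Agent.SDT.MP_6cbfb8_an Pool.Agent.SDT.MST Pool.Agent.SDT.N1
open scoped ENNReal Real ContDiff

/-- A local block in one coordinate: `u = (y, a, z)`. -/
def LB (sy sx sz y x z δ : ℝ) (u : V) : Prop :=
  |u.1 / sy - y| ≤ δ ∧ |u.2.1 / sx - x| ≤ δ ∧ |u.2.2 / sz - z| ≤ δ

/-- A global block in one coordinate: `u = (y, a, z)`. -/
def GB (sy sx sz K : ℝ) (u : V) : Prop :=
  (1 / K ≤ |u.1 / sy| ∧ |u.1 / sy| ≤ K) ∧ (1 / K ≤ u.2.1 / sx ∧ u.2.1 / sx ≤ K) ∧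
    (1 / K ≤ |u.2.2 / sz| ∧ |u.2.2 / sz| ≤ K)

/-- The base points. -/
def Bs (c A B : ℝ) (x : ℝ × ℝ) : Prop :=
  0 ≤ A ∧ 0 ≤ B ∧ A * B = 0 ∧ 0 < x.1 ∧ 0 < x.2 ∧ A * x.1 ^ 2 + B * x.2 ^ 2 ≤ 1 - c ^ 2 / 4

/-- The value at the base point of the function whose zero is dangerous. -/
noncomputable def nb (B : ℝ) (x y : ℝ × ℝ) : ℝ :=
  2 * y.1 / x.1 + 2 * y.2 * x.2 / (1 - B * x.2 ^ 2)

/-- Neighbourhood of a base point, type N: `y = (al be² ρ y₁', be ρ y₂')`. -/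
def NbF (al be δ ρ : ℝ) (x0 y0 : ℝ × ℝ) (q : V × V) : Prop :=
  |q.1.1 / (al * be ^ 2 * ρ) - y0.1| ≤ δ ∧ |q.2.1 / (be * ρ) - y0.2| ≤ δ ∧
    |q.1.2.1 / al - x0.1| ≤ δ ∧ |q.2.2.1 / be - x0.2| ≤ δ ∧
    |q.1.2.2 / al| ≤ δ ∧ |q.2.2.2 / be| ≤ δ

/-- Admissible sizes near `(A0, B0)`. -/
def Sz (al be A0 B0 δ : ℝ) : Prop :=
  0 < al ∧ al ≤ 1 ∧ 0 < be ∧ be ≤ 1 ∧ |al ^ 2 - A0| < δ ∧ |be ^ 2 - B0| < δ

/-- Support of a family `α (y, a)` in a cap of length `r al` inside `[al, 2 al]`, with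
`|y| ≤ r al` automatically. -/
def CapS (al r x sy K : ℝ) (α : ℝ × ℝ → ℂ) : Prop :=
  ∀ p, α p ≠ 0 → al ≤ p.2 ∧ p.2 ≤ 2 * al ∧ al ≤ p.2 - p.1 ∧ p.2 - p.1 ≤ 2 * al ∧
    |p.2 - x| ≤ r * al ∧ |p.2 - p.1 - x| ≤ r * al ∧ 1 / K ≤ |p.1 / sy| ∧ |p.1 / sy| ≤ K

/-- Support of `G` in a cap. -/
def CapG (al r x : ℝ) (G : ℝ → ℂ) : Prop :=
  ∀ a, G a ≠ 0 → al ≤ a ∧ a ≤ 2 * al ∧ |a - x| ≤ r * al

end Pool.Agent.SDT.N1F

end -- N1F.Defs

section -- N1F.HM3

/-!
The geometry for the anisotropic estimate: phase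
`w (p, a) - σ (p, b) + κ (α (p, a) β (p, b) + ε g (p, a, b))`.
-/

namespace Pool.Agent.SDT.N1F

open MeasureTheory Set Metric Pool.Agent.SDT.MST Pool.Agent.SDT.N1
open scoped ContDiff

theorem hm_alg (wl αl γ : V →L[ℝ] ℝ) (h : ∀ u, wl u = 0 → αl u = 0 → γ u = 0 → u = 0) :
    ∃ η c : ℝ, 0 < η ∧ 0 < c ∧ ∀ v, |wl v| ≤ η * ‖v‖ → |αl v| ≤ η * ‖v‖ → c * ‖v‖ ≤ |γ v| := by
  let L : V →L[ℝ] V := wl.prod (αl.prod γ)
  have hL : ∀ v, L v = (wl v, αl v, γ v) := fun v => rfl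
  have hker : LinearMap.ker L.toLinearMap = ⊥ := by
    rw [LinearMap.ker_eq_bot']
    intro v hv
    have hv' : L v = 0 := hv
    rw [hL, Prod.mk_eq_zero, Prod.mk_eq_zero] at hv'
    exact h v hv'.1 hv'.2.1 hv'.2.2
  obtain ⟨K, hK, hanti⟩ := LinearMap.exists_antilipschitzWith L.toLinearMap hker
  have hK' : (0 : ℝ) < K := hK
  have hb : ∀ v, ‖v‖ ≤ K * ‖L v‖ := by
    intro v
    have h0 := hanti.le_mul_dist v 0
    have h1 : dist (L.toLinearMap v) (L.toLinearMap 0) = ‖L v‖ := by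
      rw [map_zero]
      exact dist_zero_right (L v)
    rw [h1, dist_zero_right] at h0
    exact h0
  refine ⟨1 / (2 * K), 1 / K, by positivity, by positivity, fun v hv1 hv2 => ?_⟩
  rcases eq_or_ne v 0 with hv0 | hv0
  · simp [hv0]
  have hvp : 0 < ‖v‖ := norm_pos_iff.mpr hv0
  have h1 := hb v
  rw [hL, Prod.norm_def, Prod.norm_def] at h1
  have h2 : 1 / K * ‖v‖ ≤ max ‖wl v‖ (max ‖αl v‖ ‖γ v‖) := by
    rw [one_div, inv_mul_le_iff₀ hK']
    exact h1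
  have h3 : 1 / (2 * K) * ‖v‖ < 1 / K * ‖v‖ := by
    refine mul_lt_mul_of_pos_right ?_ hvp
    rw [div_lt_div_iff₀ (by positivity) hK']
    linarith
  rw [Real.norm_eq_abs, Real.norm_eq_abs, Real.norm_eq_abs] at h2
  rcases le_max_iff.mp h2 with h5 | h5
  · exact absurd h5 (not_le.mpr (hv1.trans_lt h3))
  · rcases le_max_iff.mp h5 with h6 | h6
    · exact absurd h6 (not_le.mpr (hv2.trans_lt h3))
    · exact h6

/-- choice of the closeness parameter -/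
theorem hm_pick (m1 m2 σ1 L S tB tC s0 c3 K c4 η M : ℝ) (h1 : 0 < m1) (h2 : 0 < m2) (h3 : 0 < σ1)
    (hL : 0 < L) (hS : 0 < S) (hB : 0 < tB) (hC : 0 < tC) (hs0 : 0 < s0) (hc3 : 0 < c3)
    (hK : 0 < K) (hc4 : 0 < c4) (hη : 0 < η) (hM : 0 < M) :
    ∃ x : ℝ, 0 < x ∧ x ≤ 1 ∧ x ≤ m1 / 2 ∧ x ≤ m2 / 2 ∧ L * x ≤ σ1 / 8 ∧ S * x ≤ σ1 * tB / 8 ∧
      tC * ((1 + L) * x) ≤ s0 * c3 / 4 ∧ (1 + K) * x ≤ c4 / 2 ∧ x ≤ η / 2 ∧
      M * ((1 + K) * x) ≤ η / 2 ∧ K * x ≤ η / 2 ∧ tC * (L * x) ≤ s0 * c3 / 4 := by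
  have key : ∀ (l : List (ℝ × ℝ)), (∀ q ∈ l, 0 < q.1 ∧ 0 < q.2) →
      ∃ x : ℝ, 0 < x ∧ ∀ q ∈ l, q.1 * x ≤ q.2 := by
    intro l
    induction l with
    | nil => exact fun _ => ⟨1, one_pos, by simp⟩
    | cons q l ih =>
      intro hq
      obtain ⟨x, hx, hx2⟩ := ih fun r hr => hq r (List.mem_cons_of_mem _ hr)
      have hq0 := hq q List.mem_cons_self
      refine ⟨min x (q.2 / q.1), lt_min hx (div_pos hq0.2 hq0.1), fun r hr => ?_⟩
      rcases List.mem_cons.1 hr with h | h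
      · subst h
        calc r.1 * min x (r.2 / r.1) ≤ r.1 * (r.2 / r.1) :=
              mul_le_mul_of_nonneg_left (min_le_right _ _) hq0.1.le
          _ = r.2 := by
            have := hq0.1.ne'
            field_simp
      · have hr0 := hq r (List.mem_cons_of_mem _ h)
        exact (mul_le_mul_of_nonneg_left (min_le_left _ _) hr0.1.le).trans (hx2 r h)
  obtain ⟨x, hx, hx2⟩ := key [(1, 1), (1, m1 / 2), (1, m2 / 2), (L, σ1 / 8), (S, σ1 * tB / 8),
    (tC * (1 + L), s0 * c3 / 4), (1 + K, c4 / 2), (1, η / 2), (M * (1 + K), η / 2), (K, η / 2),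
    (tC * L, s0 * c3 / 4)] (by
      simp only [List.forall_mem_cons]
      refine ⟨⟨by positivity, by positivity⟩, ⟨by positivity, by positivity⟩,
        ⟨by positivity, by positivity⟩, ⟨by positivity, by positivity⟩,
        ⟨by positivity, by positivity⟩, ⟨by positivity, by positivity⟩,
        ⟨by positivity, by positivity⟩, ⟨by positivity, by positivity⟩,
        ⟨by positivity, by positivity⟩, ⟨by positivity, by positivity⟩,
        ⟨by positivity, by positivity⟩, by simp⟩)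
  simp only [List.forall_mem_cons, one_mul] at hx2
  obtain ⟨a1, a2, a3, a4, a5, a6, a7, a8, a9, a10, a11, _⟩ := hx2
  exact ⟨x, hx, a1, a2, a3, a4, a5, by linarith, a7, a8, by linarith, a10, by linarith⟩

end Pool.Agent.SDT.N1F

end -- N1F.HM3

section -- N1G.Defs

/-!
N1G: forms with a general phase and a general amplitude; smooth families of phases.

A point of `YX` is a pair `(y, x)`, `y = (y₁, y₂)` the outer difference, `x = (a, b)` the point.
A point of `V × V` is a rectangle `q = ((y₁, a, z₁), (y₂, b, z₂))` as in `N1`.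
-/

namespace Pool.Agent.SDT.N1G

open MeasureTheory Set Metric Pool.Agent.SDT.MP_6cbfb8_an Pool.Agent.SDT.MST Pool.Agent.SDT.N1
open scoped ENNReal Real ContDiff

/-- Pairs `(y, x)`. -/
abbrev YX : Type := (ℝ × ℝ) × (ℝ × ℝ)

/-- The pair `(y, x)` of a rectangle. -/
def px (q : V × V) : YX := ((q.1.1, q.2.1), (q.1.2.1, q.2.2.1))

/-- The pair `(y, x - z)` of a rectangle. -/
def pz (q : V × V) : YX := ((q.1.1, q.2.1), (q.1.2.1 - q.1.2.2, q.2.2.1 - q.2.2.2))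

/-- The phase of a rectangle for the pair phase `φ`. -/
noncomputable def Fg (φ : YX → ℝ) (q : V × V) : ℝ := φ (px q) - φ (pz q)

/-- The amplitude of a rectangle for the pair amplitude `w`. -/
noncomputable def Wg (w : YX → ℝ) (q : V × V) : ℝ := w (px q) * w (pz q)

/-- The four-linear form. -/
noncomputable def FFg (φ w : YX → ℝ) (T : ℝ) (M : V × V → ℂ) : ℂ :=
  ∫ q : V × V, M q * ((Wg w q : ℝ) : ℂ) * Kt T (Fg φ q)

/-- The inner integral of the positive form. -/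
noncomputable def Hyg (φ w : YX → ℝ) (M : YX → ℂ) (y : ℝ × ℝ) (t : ℝ) : ℂ :=
  ∫ x : ℝ × ℝ, M (y, x) * ((w (y, x) : ℝ) : ℂ) * ex (t * φ (y, x))

/-- The positive form. -/
noncomputable def Thg (φ w : YX → ℝ) (T : ℝ) (M : YX → ℂ) : ℝ≥0∞ :=
  ∫⁻ y : ℝ × ℝ, ∫⁻ t : ℝ, ENNReal.ofReal (chi (t / T)) * ‖Hyg φ w M y t‖ₑ ^ 2

/-- Admissible pairs of a phase and an amplitude. -/
structure Adm (B R : ℝ) (φ w : YX → ℝ) : Prop where
  mφ : Measurable φ
  mw : Measurable w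
  bw : ∀ p, |w p| ≤ B
  sw : ∀ p, w p ≠ 0 → ‖p‖ ≤ R

/-- The pair phase of a phase `q` of one point. -/
def dif (q : ℝ × ℝ → ℝ) (p : YX) : ℝ := q p.2 - q (p.2 - p.1)

/-- The pair amplitude of an amplitude `w` of one point. -/
def dam (w : ℝ × ℝ → ℝ) (p : YX) : ℝ := w p.2 * w (p.2 - p.1)

/-- Exchange of the two coordinates. -/
def cs (p : YX) : YX := (p.1.swap, p.2.swap)

/-- A separated function. -/
def nn (om sg : ℝ × ℝ → ℝ) (p : YX) : ℝ := om (p.1.1, p.2.1) - sg (p.1.2, p.2.2)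

/-- The box of size `δ` around `(y0, x0)`. -/
def Bx (δ : ℝ) (x0 y0 : ℝ × ℝ) (p : YX) : Prop :=
  |p.1.1 - y0.1| ≤ δ ∧ |p.1.2 - y0.2| ≤ δ ∧ |p.2.1 - x0.1| ≤ δ ∧ |p.2.2 - x0.2| ≤ δ

/-- The neighbourhood of a base point in the space of rectangles. -/
def NbG (δ : ℝ) (x0 y0 : ℝ × ℝ) (q : V × V) : Prop :=
  Bx δ x0 y0 (px q) ∧ Bx δ x0 y0 (pz q) ∧ |q.1.2.2| ≤ δ ∧ |q.2.2.2| ≤ δ

/-- A smooth family of phases, with the factorisation of the derivative in the first variable. -/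
structure Fam (P : Type*) where
  /-- the phase -/
  ψ : P × YX → ℝ
  /-- the amplitude -/
  W : P × YX → ℝ
  /-- the positive factor -/
  l : P × YX → ℝ
  /-- the part of the first separated function which does not depend on `a`; `(p, y₁)` -/
  o0 : P × ℝ → ℝ
  /-- the coefficient of `μ` in the first separated function; `(p, y₁, a)` -/
  o1 : P × ℝ × ℝ → ℝ
  /-- the second separated function; `(p, y₂, b)` -/
  s : P × ℝ × ℝ → ℝ
  /-- the size of the dependence on `a` -/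
  μ : P → ℝ

namespace Fam

variable {P : Type*} (F : Fam P)

/-- The first separated function. -/
def om (p : P) (u : ℝ × ℝ) : ℝ := F.o0 (p, u.1) + F.μ p * F.o1 (p, u.1, u.2)

/-- The second separated function. -/
def sg (p : P) (v : ℝ × ℝ) : ℝ := F.s (p, v.1, v.2)

/-- The difference of the separated functions. -/
def N (p : P) (s : YX) : ℝ := nn (F.om p) (F.sg p) s

/-- `∂_b ψ`. -/
noncomputable def ψb (p : P) (s : YX) : ℝ := deriv (fun b => F.ψ (p, (s.1, (s.2.1, b)))) s.2.2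

/-- `∂_a ψ`. -/
noncomputable def ψa (p : P) (s : YX) : ℝ := deriv (fun a => F.ψ (p, (s.1, (a, s.2.2)))) s.2.1

/-- The ratio `Γ = ∂_b ψ / l` as a function of `(y₁, a)` and `(y₂, b)`. -/
noncomputable def Γ (p : P) (u v : ℝ × ℝ) : ℝ :=
  F.ψb p ((u.1, v.1), (u.2, v.2)) / F.l (p, ((u.1, v.1), (u.2, v.2)))

/-- The limit phase in case (N), a function of `(y₁, a, ζ₁)` and `(y₂, b, ζ₂)`. -/
noncomputable def H (p : P) (u v : V) : ℝ :=
  u.2.2 * F.ψa p ((u.1, v.1), (u.2.1, v.2.1)) + v.2.2 * F.ψb p ((u.1, v.1), (u.2.1, v.2.1))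

end Fam

/-- Smoothness near the base point and the factorisation. -/
structure FamOk {P : Type*} [NormedAddCommGroup P] [NormedSpace ℝ P] (F : Fam P) (p0 : P)
    (x0 y0 : ℝ × ℝ) (r : ℝ) : Prop where
  hr : 0 < r
  sψ : ContDiffOn ℝ ∞ F.ψ (ball (p0, (y0, x0)) r)
  sW : ContDiffOn ℝ ∞ F.W (ball (p0, (y0, x0)) r)
  sl : ContDiffOn ℝ ∞ F.l (ball (p0, (y0, x0)) r)
  so0 : ContDiffOn ℝ ∞ F.o0 (ball (p0, y0.1) r)
  so1 : ContDiffOn ℝ ∞ F.o1 (ball (p0, y0.1, x0.1) r)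
  ss : ContDiffOn ℝ ∞ F.s (ball (p0, y0.2, x0.2) r)
  sμ : ContDiffOn ℝ ∞ F.μ (ball p0 r)
  dψ : ∀ (p : P) (s : YX), (p, s) ∈ ball (p0, (y0, x0)) r →
    HasDerivAt (fun a => F.ψ (p, (s.1, (a, s.2.2)))) (-(F.l (p, s) * F.N p s)) s.2.1
  lpos : 0 < F.l (p0, (y0, x0))
  bne : F.ψb p0 (y0, x0) ≠ 0

/-- Case (D): the first derivative of the phase vanishes at the base point. -/
structure CaseD {P : Type*} (F : Fam P) (p0 : P) (x0 y0 : ℝ × ℝ) : Prop where
  n0 : F.N p0 (y0, x0) = 0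
  da : deriv (fun a => F.o1 (p0, y0.1, a)) x0.1 ≠ 0
  dy : deriv (fun y => F.om p0 (y, x0.1)) y0.1 ≠ 0
  dy' : deriv (fun y => F.sg p0 (y, x0.2)) y0.2 ≠ 0
  nd : ∃ u e : ℝ × ℝ,
    deriv (fun t : ℝ => F.om p0 (y0.1 + t * u.1, x0.1 + t * u.2)) 0 = 0 ∧
    deriv (fun t : ℝ => F.sg p0 (y0.2 + t * e.1, x0.2 + t * e.2)) 0 = 0 ∧
    F.Γ p0 (y0.1, x0.1) (y0.2, x0.2) *
      deriv (fun t' : ℝ => deriv (fun t : ℝ => F.Γ p0 (y0.1 + t * u.1, x0.1 + t * u.2)
        (y0.2 + t' * e.1, x0.2 + t' * e.2)) 0) 0 ≠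
    deriv (fun t : ℝ => F.Γ p0 (y0.1 + t * u.1, x0.1 + t * u.2) (y0.2, x0.2)) 0 *
      deriv (fun t' : ℝ => F.Γ p0 (y0.1, x0.1) (y0.2 + t' * e.1, x0.2 + t' * e.2)) 0

/-- Case (N): both derivatives of the phase are different from zero at the base point, and the
rotational curvature condition holds. -/
structure CaseN {P : Type*} (F : Fam P) (p0 : P) (x0 y0 : ℝ × ℝ) : Prop where
  n0 : F.N p0 (y0, x0) ≠ 0
  nd : ∀ ζ₁ ζ₂ : ℝ, ζ₁ ≠ 0 → ζ₂ ≠ 0 → ζ₁ * F.ψa p0 (y0, x0) + ζ₂ * F.ψb p0 (y0, x0) = 0 →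
    ∀ (u : V) (d : ℝ),
      fderiv ℝ (fun a => F.H p0 a (y0.2, x0.2, ζ₂)) (y0.1, x0.1, ζ₁) u = 0 →
      (∀ e : V, fderiv ℝ (fun b => fderiv ℝ (fun a => F.H p0 a b) (y0.1, x0.1, ζ₁) u)
          (y0.2, x0.2, ζ₂) e +
        d * fderiv ℝ (fun b => F.H p0 (y0.1, x0.1, ζ₁) b) (y0.2, x0.2, ζ₂) e = 0) →
      u = 0 ∧ d = 0

/-- The functions `φ`, `w` agree with the member `p` of the family near the base point. -/
def Agr {P : Type*} (F : Fam P) (p : P) (x0 y0 : ℝ × ℝ) (δ : ℝ) (φ w : YX → ℝ) : Prop :=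
  ∀ s : YX, Bx δ x0 y0 s → φ s = F.ψ (p, s) ∧ w s = F.W (p, s)

/-- A function of one side supported in a box with inner difference in a dyadic interval. -/
def Sp (δ y x γ : ℝ) (A : V → ℂ) : Prop :=
  ∀ u, A u ≠ 0 → |u.1 - y| ≤ δ ∧ |u.2.1 - x| ≤ δ ∧ |u.2.1 - u.2.2 - x| ≤ δ ∧
    γ / 2 < |u.2.2| ∧ |u.2.2| ≤ γ

end Pool.Agent.SDT.N1G

end -- N1G.Defs
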