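import Pool.Agent.SDT.B02
import Pool.Agent.SDT.B03

set_option autoImplicit false

namespace Pool.Agent.SDT.MST
end Pool.Agent.SDT.MST

section -- N1.AN2

/-!
Row [N1-AN2]. The same on a ball of `V`, with a direction `e` in which the derivative is not small.

Proof. `w b = 1/(1 + lam |f b|)²` (continuous, between 0 and 1), `𝟙` = indicator of `ball b₀ ρ`. For every `t`
translation invariance gives `∫_{ball b₀ ρ} w = ∫ b, (𝟙 w)(b + t e)`. Average over `t ∈ [-ρ, ρ]` and use Fubini: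
`2ρ ∫_{ball b₀ ρ} w = ∫ b, ∫_{t=-ρ}^{ρ} (𝟙 w)(b + t e)`. For `b ∉ ball b₀ (2ρ)` the inner integral is `0`
(`‖t e‖ ≤ ρ`). For `b ∈ ball b₀ (2ρ)` all points `b + t e`, `|t| ≤ ρ`, are in `closedBall b₀ (3ρ)`, the derivative of
`t ↦ f (b + t e)` at `t` is that of `τ ↦ f ((b + t e) + τ e)` at `0`, so `mono_int` gives
`∫_{-ρ}^{ρ} w(b + t e) dt ≤ 2/(c₀ lam)`. So the constant `C = volume(ball b₀ (2ρ)) / (ρ c₀)` works; the
volume of a ball of radius `2ρ` does not depend on the centre (`Measure.addHaar_ball_center`).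
-/

namespace Pool.Agent.SDT.N1

open MeasureTheory Set Metric Pool.Agent.SDT.MST
open scoped ContDiff

theorem dir_int (c₀ ρ : ℝ) (hc : 0 < c₀) (hρ : 0 < ρ) : ∃ C : ℝ, 0 ≤ C ∧
    ∀ (f : V → ℝ) (b₀ e : V) (lam : ℝ), ContDiff ℝ ∞ f → ‖e‖ ≤ 1 → 0 < lam →
      (∀ b ∈ closedBall b₀ (3 * ρ), c₀ ≤ |deriv (fun t : ℝ => f (b + t • e)) 0|) →
      ∫ b in ball b₀ ρ, 1 / (1 + lam * |f b|) ^ 2 ≤ C / lam := by
  have hHaar : (volume : Measure V).IsAddHaarMeasure :=
    Measure.prod.instIsAddHaarMeasure (volume : Measure ℝ) (volume : Measure (ℝ × ℝ))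
  refine ⟨(volume (ball (0 : V) (2 * ρ))).toReal / (ρ * c₀), by positivity, ?_⟩
  intro f b₀ e lam hf he hl hd
  have hpos : ∀ v : ℝ, 0 < 1 + lam * |v| := fun v => by positivity
  have hfc : Continuous f := hf.continuous
  have hwc : Continuous fun b : V => 1 / (1 + lam * |f b|) ^ 2 :=
    continuous_const.div (by fun_prop) fun b => (pow_pos (hpos (f b)) 2).ne'
  have hw0 : ∀ b : V, 0 ≤ 1 / (1 + lam * |f b|) ^ 2 := fun b => by positivity
  set W : V → ℝ := (ball b₀ ρ).indicator (fun b : V => 1 / (1 + lam * |f b|) ^ 2) with hW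
  have hWi : Integrable W volume := by
    rw [hW, integrable_indicator_iff measurableSet_ball]
    exact (hwc.continuousOn.integrableOn_compact (isCompact_closedBall b₀ ρ)).mono_set
      ball_subset_closedBall
  have hW0 : ∀ b, 0 ≤ W b := fun b => indicator_nonneg (fun b _ => hw0 b) b
  have hWle : ∀ b, W b ≤ 1 / (1 + lam * |f b|) ^ 2 := fun b =>
    indicator_le_self' (fun b _ => hw0 b) b
  have hWm : Measurable W := hwc.measurable.indicator measurableSet_ball
  have hlhs : ∫ b in ball b₀ ρ, 1 / (1 + lam * |f b|) ^ 2 = ∫ b, W b := by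
    rw [hW, integral_indicator measurableSet_ball]
  -- the integrability on the product
  have hmeas : Measurable (Function.uncurry fun (t : ℝ) (b : V) => W (b + t • e)) := by
    refine hWm.comp ?_
    exact (Continuous.add continuous_snd (continuous_fst.smul continuous_const)).measurable
  have hint : Integrable (Function.uncurry fun (t : ℝ) (b : V) => W (b + t • e))
      ((volume.restrict (Ioc (-ρ) ρ)).prod volume) := by
    rw [integrable_prod_iff hmeas.aestronglyMeasurable]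
    refine ⟨Filter.Eventually.of_forall fun t => hWi.comp_add_right (t • e), ?_⟩
    have : (fun t : ℝ => ∫ b : V, ‖Function.uncurry (fun (t : ℝ) (b : V) => W (b + t • e)) (t, b)‖)
        = fun _ => ∫ b : V, ‖W b‖ := by
      funext t
      simp only [Function.uncurry_apply_pair]
      exact integral_add_right_eq_self (fun b : V => ‖W b‖) (t • e)
    rw [this]
    exact integrable_const _
  have hswap : ∫ t in Ioc (-ρ) ρ, ∫ b : V, W (b + t • e)
      = ∫ b : V, ∫ t in Ioc (-ρ) ρ, W (b + t • e) := integral_integral_swap hint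
  have hleft : ∫ t in Ioc (-ρ) ρ, ∫ b : V, W (b + t • e) = 2 * ρ * ∫ b, W b := by
    have : (fun t : ℝ => ∫ b : V, W (b + t • e)) = fun _ => ∫ b : V, W b := by
      funext t
      exact integral_add_right_eq_self W (t • e)
    rw [this, setIntegral_const, measureReal_def, Real.volume_Ioc,
      ENNReal.toReal_ofReal (by linarith), smul_eq_mul]
    ring
  have hinner : ∀ b : V, ∫ t in Ioc (-ρ) ρ, W (b + t • e)
      ≤ (ball b₀ (2 * ρ)).indicator (fun _ => 2 / (c₀ * lam)) b := by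
    intro b
    by_cases hb : b ∈ ball b₀ (2 * ρ)
    · rw [indicator_of_mem hb]
      have hcont : Continuous fun t : ℝ => f (b + t • e) := by fun_prop
      have hgc : Continuous fun t : ℝ => 1 / (1 + lam * |f (b + t • e)|) ^ 2 :=
        continuous_const.div (by fun_prop) fun t => (pow_pos (hpos _) 2).ne'
      have h1 : ∫ t in Ioc (-ρ) ρ, W (b + t • e)
          ≤ ∫ t in Ioc (-ρ) ρ, 1 / (1 + lam * |f (b + t • e)|) ^ 2 := by
        refine integral_mono_of_nonneg (Filter.Eventually.of_forall fun t => hW0 _) ?_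
          (Filter.Eventually.of_forall fun t => hWle _)
        exact (hgc.continuousOn.integrableOn_compact isCompact_Icc).mono_set Ioc_subset_Icc_self
      refine h1.trans ?_
      rw [← intervalIntegral.integral_of_le (by linarith : -ρ ≤ ρ)]
      refine mono_int (fun t => f (b + t • e)) (-ρ) ρ c₀ lam (by linarith) ?_ hc hl ?_
      · have h2 : ContDiff ℝ ∞ fun t : ℝ => f (b + t • e) :=
          hf.comp (contDiff_const.add (contDiff_id.smul contDiff_const))
        exact h2.of_le (by exact_mod_cast le_top)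
      · intro t ht
        have hmem : b + t • e ∈ closedBall b₀ (3 * ρ) := by
          rw [mem_closedBall, dist_eq_norm]
          rw [mem_ball, dist_eq_norm] at hb
          have h3 : b + t • e - b₀ = (b - b₀) + t • e := by abel
          rw [h3]
          refine (norm_add_le _ _).trans ?_
          have h4 : ‖t • e‖ ≤ ρ := by
            rw [norm_smul, Real.norm_eq_abs]
            have h5 : |t| ≤ ρ := abs_le.mpr ⟨ht.1, ht.2⟩
            calc |t| * ‖e‖ ≤ ρ * 1 := mul_le_mul h5 he (norm_nonneg _) hρ.le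
              _ = ρ := mul_one ρ
          linarith
        have h6 := hd _ hmem
        have h7 : deriv (fun τ : ℝ => f (b + t • e + τ • e)) 0
            = deriv (fun t : ℝ => f (b + t • e)) t := by
          have h8 : (fun τ : ℝ => f (b + t • e + τ • e))
              = fun τ : ℝ => (fun t : ℝ => f (b + t • e)) (t + τ) := by
            funext τ
            simp only [add_smul, add_assoc]
          rw [h8]
          have h10 := deriv_comp_const_add (f := fun t : ℝ => f (b + t • e)) t 0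
          rw [add_zero] at h10
          exact h10
        rw [h7] at h6
        exact h6
    · rw [indicator_of_notMem hb]
      have hz : ∀ t ∈ Ioc (-ρ) ρ, W (b + t • e) = 0 := by
        intro t ht
        rw [hW]
        refine indicator_of_notMem ?_ _
        intro hmem
        apply hb
        rw [mem_ball, dist_eq_norm] at hmem ⊢
        have h3 : b - b₀ = (b + t • e - b₀) - t • e := by abel
        rw [h3]
        have h4 : ‖t • e‖ ≤ ρ := by
          rw [norm_smul, Real.norm_eq_abs]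
          have h5 : |t| ≤ ρ := abs_le.mpr ⟨ht.1.le, ht.2⟩
          calc |t| * ‖e‖ ≤ ρ * 1 := mul_le_mul h5 he (norm_nonneg _) hρ.le
            _ = ρ := mul_one ρ
        have h9 := norm_sub_le (b + t • e - b₀) (t • e)
        linarith
      rw [setIntegral_congr_fun measurableSet_Ioc hz]
      simp
  have hfin : volume (ball b₀ (2 * ρ)) < ⊤ := measure_ball_lt_top
  have hri : Integrable (fun b : V => (ball b₀ (2 * ρ)).indicator (fun _ => 2 / (c₀ * lam)) b)
      volume := by
    rw [show (fun b : V => (ball b₀ (2 * ρ)).indicator (fun _ => 2 / (c₀ * lam)) b)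
      = (ball b₀ (2 * ρ)).indicator (fun _ => 2 / (c₀ * lam)) from rfl,
      integrable_indicator_iff measurableSet_ball]
    exact integrableOn_const hfin.ne
  have hright : ∫ b : V, ∫ t in Ioc (-ρ) ρ, W (b + t • e)
      ≤ (volume (ball b₀ (2 * ρ))).toReal * (2 / (c₀ * lam)) := by
    have h1 : ∫ b : V, ∫ t in Ioc (-ρ) ρ, W (b + t • e)
        ≤ ∫ b : V, (ball b₀ (2 * ρ)).indicator (fun _ => 2 / (c₀ * lam)) b := by
      refine integral_mono_of_nonneg (Filter.Eventually.of_forall fun b => ?_) hri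
        (Filter.Eventually.of_forall hinner)
      exact integral_nonneg fun t => hW0 _
    refine h1.trans (le_of_eq ?_)
    rw [integral_indicator measurableSet_ball, setIntegral_const, measureReal_def, smul_eq_mul]
  have hvol : (volume (ball b₀ (2 * ρ))).toReal = (volume (ball (0 : V) (2 * ρ))).toReal := by
    rw [Measure.addHaar_ball_center]
  rw [hlhs]
  rw [← hswap, hleft, hvol] at hright
  have hval : (volume (ball (0 : V) (2 * ρ))).toReal / (ρ * c₀) / lam
      = (volume (ball (0 : V) (2 * ρ))).toReal * (2 / (c₀ * lam)) / (2 * ρ) := by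
    field_simp
  rw [hval, le_div_iff₀ (by linarith : (0 : ℝ) < 2 * ρ)]
  linarith

end Pool.Agent.SDT.N1

end -- N1.AN2

section -- N1.AN3

/-!
Row [N1-AN3]. Decay of a one-dimensional Fourier integral.

Proof. `nonstat` (MST/NS.lean) with `J = 8`, `L = 2 s₁`, the phase `f = id` (all derivatives of order `≥ 2`
vanish, `deriv = 1`), `α = -s₁`, `β = s₁`, gives `C/|x|⁸` for `x ≠ 0`; the trivial bound is `2 s₁ C₀`. For
`|x| ≥ 1`: `1/|x|⁸ ≤ 2⁸/(1 + |x|)⁸`, for `|x| ≤ 1`: `1 ≤ 2⁸/(1 + |x|)⁸`. (If `s₁ < 0` then `c = 0`.)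
-/

namespace Pool.Agent.SDT.N1

open MeasureTheory Set Metric Pool.Agent.SDT.MST
open scoped ContDiff

private theorem AN3_id (j : ℕ) (hj : 1 ≤ j) (τ : ℝ) : |iteratedDeriv j (fun t : ℝ => t) τ| ≤ 1 := by
  obtain ⟨k, rfl⟩ : ∃ k, j = k + 1 := ⟨j - 1, by omega⟩
  rw [iteratedDeriv_succ']
  have e : deriv (fun t : ℝ => t) = fun _ => 1 := by
    funext t
    exact deriv_id t
  rw [e, iteratedDeriv_const]
  split_ifs <;> simp

private theorem AN3_norm_ex (a : ℝ) : ‖ex a‖ = 1 := by
  unfold ex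
  rw [Complex.norm_exp_ofReal_mul_I]

theorem k_decay (C₀ s₁ : ℝ) : ∃ C : ℝ, 0 ≤ C ∧ ∀ (c : ℝ → ℝ) (x : ℝ), ContDiff ℝ ∞ c →
    (∀ s, c s ≠ 0 → |s| ≤ s₁) → (∀ s : ℝ, ∀ j ≤ 8, |iteratedDeriv j c s| ≤ C₀) →
    ‖∫ s : ℝ, ((c s : ℝ) : ℂ) * ex (x * s)‖ ≤ C / (1 + |x|) ^ 8 := by
  obtain ⟨C, hC, H⟩ := nonstat 8 (2 * |s₁|) (|C₀| + 1) 1 one_pos
  refine ⟨2 ^ 8 * (C + |C₀| * (2 * |s₁|)), by positivity, ?_⟩
  intro c x hc hs hd
  have hx0 := abs_nonneg x
  have hz : ∀ τ, τ ∉ Icc (-|s₁|) |s₁| → c τ = 0 := by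
    intro τ hτ
    by_contra h
    apply hτ
    have := hs τ h
    exact abs_le.1 (this.trans (le_abs_self _))
  have hab : -|s₁| ≤ |s₁| := by
    have := abs_nonneg s₁
    linarith
  by_cases hx : |x| ≤ 1
  · have h2 : ∫ τ : ℝ, ((c τ : ℝ) : ℂ) * ex (x * τ) =
        ∫ τ in Icc (-|s₁|) |s₁|, ((c τ : ℝ) : ℂ) * ex (x * τ) := by
      symm
      refine setIntegral_eq_integral_of_forall_compl_eq_zero fun τ hτ => ?_
      rw [hz τ hτ]
      simp
    have h3 : ∀ τ ∈ Icc (-|s₁|) |s₁|, ‖((c τ : ℝ) : ℂ) * ex (x * τ)‖ ≤ |C₀| := by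
      intro τ _
      rw [norm_mul, AN3_norm_ex, mul_one, Complex.norm_real, Real.norm_eq_abs]
      have := hd τ 0 (by norm_num)
      rw [iteratedDeriv_zero] at this
      exact this.trans (le_abs_self _)
    have h4 : ‖∫ s : ℝ, ((c s : ℝ) : ℂ) * ex (x * s)‖ ≤ |C₀| * (2 * |s₁|) := by
      rw [h2]
      refine (norm_setIntegral_le_of_norm_le_const (by simp) h3).trans ?_
      refine mul_le_mul_of_nonneg_left ?_ (abs_nonneg _)
      rw [Measure.real, Real.volume_Icc, ENNReal.toReal_ofReal (by linarith)]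
      linarith
    rw [le_div_iff₀ (by positivity)]
    calc ‖∫ s : ℝ, ((c s : ℝ) : ℂ) * ex (x * s)‖ * (1 + |x|) ^ 8
        ≤ (|C₀| * (2 * |s₁|)) * 2 ^ 8 := by
          refine mul_le_mul h4 ?_ (by positivity) (by positivity)
          exact pow_le_pow_left₀ (by positivity) (by linarith) 8
      _ ≤ 2 ^ 8 * (C + |C₀| * (2 * |s₁|)) := by linarith
  · rw [not_le] at hx
    have hxn : x ≠ 0 := by
      rintro rfl
      simp at hx
      linarith
    have h1 := H c (fun t => t) (fun n => contDiff_infty.1 hc n) (fun n => contDiff_id)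
      (-|s₁|) |s₁| hab (by linarith) hz
      (fun j hj τ => (hd τ j hj).trans ((le_abs_self _).trans (by linarith)))
      (fun j hj _ τ _ => (AN3_id j hj τ).trans (by linarith [abs_nonneg C₀]))
      (fun τ _ => by
        have e : deriv (fun t : ℝ => t) τ = 1 := deriv_id τ
        rw [e, abs_one]) x hxn
    have hxp : 0 < |x| := by linarith
    rw [le_div_iff₀ (by positivity)]
    calc ‖∫ s : ℝ, ((c s : ℝ) : ℂ) * ex (x * s)‖ * (1 + |x|) ^ 8
        ≤ (C / |x| ^ 8) * (2 * |x|) ^ 8 := by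
          refine mul_le_mul h1 ?_ (by positivity) (by positivity)
          exact pow_le_pow_left₀ (by positivity) (by linarith) 8
      _ = 2 ^ 8 * C := by
          rw [mul_pow]
          field_simp
      _ ≤ 2 ^ 8 * (C + |C₀| * (2 * |s₁|)) := by
          have : 0 ≤ |C₀| * (2 * |s₁|) := by positivity
          linarith

end Pool.Agent.SDT.N1

end -- N1.AN3

section -- N1.AN5

/-!
Row [N1-AN5]. The kernel of `T T*`, case 1 of the dichotomy (absolute values only).

Proof. `k_decay` (AN3) with the function `s ↦ c s a b` (smooth: `hA.smooth` composed with `s ↦ (s, a, b)`), bounds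
`hA.ds`, and `x = lam * F a b` (`lam * (s * F a b) = x * s`) gives `‖kk lam c F a b‖ ≤ C₁/(1 + lam |F a b|)⁸` for
`b ∈ closedBall b₀ (3ρ)`, `a ∈ SA`. With `X = lam |F a b|`, `Y = lam |F a' b|`, `X + Y ≥ lam c₀ D`:
`(1+X)⁸ (1+Y)⁸ ≥ (1+X)² ((1+X)(1+Y))⁶ ≥ (1+X)² (1 + lam c₀ D)⁶ ≥ (1+X)² (min 1 c₀)⁶ (1 + lam D)⁶`. So the integrand
is bounded by `C₁² (min 1 c₀)⁻⁶ (1 + lam D)⁻⁶ * 1/(1 + lam |F a b|)²` on `ball b₀ ρ` and is zero outside
(`hA.suppφ`), `0 ≤ φ ≤ 1`; `dir_int` (AN2) with `f = F a` and the direction `hD.es` bounds the integral.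
-/

namespace Pool.Agent.SDT.N1

open MeasureTheory Set Metric Pool.Agent.SDT.MST
open scoped ContDiff

theorem KK1 (c₀ C₀ ρ s₀ s₁ : ℝ) (hc : 0 < c₀) (hρ : 0 < ρ) : ∃ C : ℝ, 0 ≤ C ∧
    ∀ (F : V → V → ℝ) (D : V → V → ℝ) (SA : Set V) (b₀ : V) (c : ℝ → V → V → ℝ) (φ : V → ℝ),
      Dich F D SA b₀ ρ c₀ C₀ s₀ s₁ → Ampl c φ SA b₀ ρ C₀ s₀ s₁ → ∀ lam : ℝ, 0 < lam →
      ∀ a ∈ SA, ∀ a' ∈ SA, (∀ b ∈ closedBall b₀ (3 * ρ), c₀ * D a a' ≤ |F a b - F a' b|) →
      ‖∫ b : V, ((φ b : ℝ) : ℂ) * (kk lam c F a b * (starRingEnd ℂ) (kk lam c F a' b))‖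
        ≤ C / lam / (1 + lam * D a a') ^ 6 := by
  obtain ⟨C₁, hC1, hk⟩ := k_decay C₀ s₁
  obtain ⟨C₂, hC2, hdir⟩ := dir_int c₀ ρ hc hρ
  obtain ⟨m, hm0, hm1, hmc⟩ : ∃ m : ℝ, 0 < m ∧ m ≤ 1 ∧ m ≤ c₀ :=
    ⟨min 1 c₀, lt_min one_pos hc, min_le_left _ _, min_le_right _ _⟩
  refine ⟨C₁ ^ 2 * C₂ / m ^ 6, by positivity, ?_⟩
  intro F D SA b₀ c φ hD hA lam hl a ha a' ha' hdi
  have hD0 : 0 ≤ D a a' := hD.nonneg a a'
  have hsub : ball b₀ ρ ⊆ closedBall b₀ (3 * ρ) :=
    ball_subset_closedBall.trans (closedBall_subset_closedBall (by linarith))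
  -- decay of the kernel
  have hker : ∀ a ∈ SA, ∀ b ∈ closedBall b₀ (3 * ρ),
      ‖kk lam c F a b‖ ≤ C₁ / (1 + lam * |F a b|) ^ 8 := by
    intro a ha b hb
    have hsm : ContDiff ℝ ∞ fun s : ℝ => c s a b :=
      hA.smooth.comp (contDiff_id.prodMk contDiff_const : ContDiff ℝ ∞ fun s : ℝ => (s, a, b))
    have h1 := hk (fun s => c s a b) (lam * F a b) hsm
      (fun s hs => (hA.supp s a b hs).2) (fun s j hj => hA.ds a ha b hb s j hj)
    have h2 : (∫ s : ℝ, ((c s a b : ℝ) : ℂ) * ex (lam * F a b * s)) = kk lam c F a b := by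
      unfold kk
      refine integral_congr_ae (Filter.Eventually.of_forall fun s => ?_)
      have h3 : lam * F a b * s = lam * (s * F a b) := by ring
      simp only [h3]
    rw [abs_mul, abs_of_pos hl] at h1
    rw [← h2]
    exact h1
  obtain ⟨e, he, hes⟩ := hD.es
  have hFc : Continuous (F a) := by
    have h := hD.smooth.continuous.comp (Continuous.prodMk_right (X := V) (Y := V) a)
    exact h
  have hFs : ContDiff ℝ ∞ (F a) := by
    have h := hD.smooth.comp (contDiff_const.prodMk contDiff_id :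
      ContDiff ℝ ∞ fun b : V => (a, b))
    exact h
  have hwc : Continuous fun b : V => 1 / (1 + lam * |F a b|) ^ 2 :=
    continuous_const.div (by fun_prop) fun b => by positivity
  have hwi : IntegrableOn (fun b : V => 1 / (1 + lam * |F a b|) ^ 2) (ball b₀ ρ) volume :=
    (hwc.continuousOn.integrableOn_compact (isCompact_closedBall b₀ ρ)).mono_set
      ball_subset_closedBall
  set K : ℝ := C₁ ^ 2 / (m ^ 6 * (1 + lam * D a a') ^ 6) with hK
  have hK0 : 0 ≤ K := by positivity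
  set G : V → ℝ := (ball b₀ ρ).indicator fun b => K * (1 / (1 + lam * |F a b|) ^ 2) with hG
  have hGi : Integrable G volume := by
    rw [hG, integrable_indicator_iff measurableSet_ball]
    exact hwi.const_mul K
  have hbound : ∀ b : V,
      ‖((φ b : ℝ) : ℂ) * (kk lam c F a b * (starRingEnd ℂ) (kk lam c F a' b))‖ ≤ G b := by
    intro b
    by_cases hb : b ∈ ball b₀ ρ
    · rw [hG, indicator_of_mem hb]
      have hb3 := hsub hb
      obtain ⟨X, hX⟩ : ∃ X : ℝ, X = lam * |F a b| := ⟨_, rfl⟩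
      obtain ⟨Y, hY⟩ : ∃ Y : ℝ, Y = lam * |F a' b| := ⟨_, rfl⟩
      have hX0 : 0 ≤ X := by rw [hX]; positivity
      have hY0 : 0 ≤ Y := by rw [hY]; positivity
      have hk1 := hker a ha b hb3
      have hk2 := hker a' ha' b hb3
      rw [← hX] at hk1 ⊢
      rw [← hY] at hk2
      have hsum : c₀ * (lam * D a a') ≤ X + Y := by
        have h1 := hdi b hb3
        have h2 : |F a b - F a' b| ≤ |F a b| + |F a' b| := abs_sub _ _
        have h3 := mul_le_mul_of_nonneg_left (h1.trans h2) hl.le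
        rw [hX, hY]
        linarith
      have hprod : m * (1 + lam * D a a') ≤ (1 + X) * (1 + Y) := by
        have h1 : m * (lam * D a a') ≤ c₀ * (lam * D a a') :=
          mul_le_mul_of_nonneg_right hmc (by positivity)
        nlinarith [mul_nonneg hX0 hY0]
      have hpow : (m * (1 + lam * D a a')) ^ 6 ≤ ((1 + X) * (1 + Y)) ^ 6 :=
        pow_le_pow_left₀ (by positivity) hprod 6
      have hden : (m ^ 6 * (1 + lam * D a a') ^ 6) * (1 + X) ^ 2 ≤ (1 + X) ^ 8 * (1 + Y) ^ 8 := by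
        calc (m ^ 6 * (1 + lam * D a a') ^ 6) * (1 + X) ^ 2
            = (m * (1 + lam * D a a')) ^ 6 * (1 + X) ^ 2 := by ring
          _ ≤ ((1 + X) * (1 + Y)) ^ 6 * (1 + X) ^ 2 :=
              mul_le_mul_of_nonneg_right hpow (by positivity)
          _ = (1 + X) ^ 8 * ((1 + Y) ^ 6 * 1) := by ring
          _ ≤ (1 + X) ^ 8 * ((1 + Y) ^ 6 * (1 + Y) ^ 2) := by
              have h1 : (1 : ℝ) ≤ (1 + Y) ^ 2 := one_le_pow₀ (by linarith)
              gcongr
          _ = (1 + X) ^ 8 * (1 + Y) ^ 8 := by ring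
      have hphi : ‖((φ b : ℝ) : ℂ)‖ ≤ 1 := by
        rw [Complex.norm_real, Real.norm_eq_abs, abs_of_nonneg (hA.nonneg b)]
        exact hA.le b
      rw [norm_mul, norm_mul, RCLike.norm_conj]
      calc ‖((φ b : ℝ) : ℂ)‖ * (‖kk lam c F a b‖ * ‖kk lam c F a' b‖)
          ≤ 1 * (C₁ / (1 + X) ^ 8 * (C₁ / (1 + Y) ^ 8)) := by
            refine mul_le_mul hphi ?_ (by positivity) zero_le_one
            exact mul_le_mul hk1 hk2 (norm_nonneg _) (by positivity)
        _ = C₁ ^ 2 / ((1 + X) ^ 8 * (1 + Y) ^ 8) := by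
            rw [one_mul, div_mul_div_comm, pow_two]
        _ ≤ C₁ ^ 2 / ((m ^ 6 * (1 + lam * D a a') ^ 6) * (1 + X) ^ 2) :=
            div_le_div_of_nonneg_left (by positivity) (by positivity) hden
        _ = K * (1 / (1 + X) ^ 2) := by
            rw [hK, div_mul_div_comm, mul_one]
    · rw [hG, indicator_of_notMem hb, hA.suppφ b hb]
      simp
  have hval : ∫ b : V, G b = K * ∫ b in ball b₀ ρ, 1 / (1 + lam * |F a b|) ^ 2 := by
    rw [hG, integral_indicator measurableSet_ball, integral_const_mul]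
  calc ‖∫ b : V, ((φ b : ℝ) : ℂ) * (kk lam c F a b * (starRingEnd ℂ) (kk lam c F a' b))‖
      ≤ ∫ b : V, G b := norm_integral_le_of_norm_le hGi (Filter.Eventually.of_forall hbound)
    _ = K * ∫ b in ball b₀ ρ, 1 / (1 + lam * |F a b|) ^ 2 := hval
    _ ≤ K * (C₂ / lam) :=
        mul_le_mul_of_nonneg_left (hdir (F a) b₀ e lam hFs he hl (hes a ha)) hK0
    _ = C₁ ^ 2 * C₂ / m ^ 6 / lam / (1 + lam * D a a') ^ 6 := by
        rw [hK]
        field_simp

end Pool.Agent.SDT.N1

end -- N1.AN5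

section -- N1.AN4

/-!
Row [N1-AN4]. Non-stationary phase in a direction `e` of `V`.

Proof. Fix once for all a smooth bump `η : ℝ → ℝ` (e.g. from `ContDiffBump (0 : ℝ)` with radii `ρ/2 < ρ`, divided by
its integral: `ContDiffBump.normed`), supported in `Icc (-ρ) ρ`, `∫ η = 1`, with
`|iteratedDeriv j η| ≤ Cη` for `j ≤ 8` (continuous with compact support). By translation invariance and
Fubini (`h` is continuous with compact support, everything integrable)
`∫ h(b) ex(Φ b) db = ∫ db ∫ dt η(t) h(b + t e) ex(Φ(b + t e))`. For `b ∉ ball b₀ (2ρ)` the inner integral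
vanishes. For `b ∈ ball b₀ (2ρ)` and `|t| ≤ ρ` the point `b + t e` is in `closedBall b₀ (3ρ)`. If `Lam > 0`
apply `nonstat` (MST/NS.lean, `J = 8`) to the amplitude `t ↦ η(t) h(b + t e)` (Leibniz: derivatives `≤ 2⁸ Cη |C₀|`,
`iteratedDeriv_mul`), the phase `f(t) = Φ(b + t e)/Lam` and the parameter `Lam`, `α = -ρ`, `β = ρ`
(`iteratedDeriv j (fun t => Φ (b + t • e)) t = iteratedDeriv j (fun τ => Φ ((b + t • e) + τ • e)) 0`, from
`iteratedDeriv_comp_add_const` or the like): the inner integral is `≤ C/Lam⁸`. Trivial bound: inner integral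
`≤ 2ρ Cη |C₀|`. Together `≤ C'/(1 + Lam)⁸`, times the volume of `ball b₀ (2ρ)`
(`Measure.addHaar_ball_center`).
-/

namespace Pool.Agent.SDT.N1

open MeasureTheory Set Metric Pool.Agent.SDT.MST
open scoped ContDiff

private lemma AN4_norm_ex (a : ℝ) : ‖ex a‖ = 1 := by
  unfold ex
  rw [Complex.norm_exp_ofReal_mul_I]

private lemma AN4_zero (g : ℝ → ℝ) (α β : ℝ) (h0 : ∀ τ, τ ∉ Icc α β → g τ = 0) (j : ℕ) (τ : ℝ)
    (hτ : τ ∉ Icc α β) : iteratedDeriv j g τ = 0 := by
  have h2 : g =ᶠ[nhds τ] fun _ => (0 : ℝ) := by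
    filter_upwards [isClosed_Icc.isOpen_compl.mem_nhds hτ] with s hs
    exact h0 s hs
  rw [(h2.iteratedDeriv j).eq_of_nhds]
  simp

private lemma AN4_haar : (volume : Measure V).IsAddHaarMeasure := by
  have h1 : (volume : Measure V) =
      (volume : Measure ℝ).prod ((volume : Measure ℝ).prod (volume : Measure ℝ)) := rfl
  rw [h1]
  have h2 : ((volume : Measure ℝ).prod (volume : Measure ℝ)).IsAddHaarMeasure :=
    Measure.prod.instIsAddHaarMeasure _ _
  exact Measure.prod.instIsAddHaarMeasure _ _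

private lemma AN4_bump (ρ : ℝ) (hρ : 0 < ρ) : ∃ (η : ℝ → ℝ) (Cη : ℝ), 0 ≤ Cη ∧
    (∀ n : ℕ, ContDiff ℝ n η) ∧ (∀ t, ρ ≤ |t| → η t = 0) ∧ (∫ t : ℝ, η t = 1) ∧
    ∀ j ≤ 8, ∀ t, |iteratedDeriv j η t| ≤ Cη := by
  let χ : ContDiffBump (0 : ℝ) := ⟨ρ / 2, ρ, by linarith, by linarith⟩
  have hsm : ∀ n : ℕ, ContDiff ℝ n (χ.normed volume) := fun n => χ.contDiff_normed (n := n)
  have hz : ∀ t, ρ ≤ |t| → χ.normed volume t = 0 := by
    intro t ht
    have h1 : t ∉ Function.support (χ.normed volume) := by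
      rw [χ.support_normed_eq]
      simp only [mem_ball, dist_zero_right, Real.norm_eq_abs, not_lt]
      exact ht
    simpa using h1
  have hz' : ∀ t, t ∉ Icc (-ρ) ρ → χ.normed volume t = 0 := by
    intro t ht
    apply hz
    by_contra hcon
    push Not at hcon
    exact ht ⟨(abs_lt.1 hcon).1.le, (abs_lt.1 hcon).2.le⟩
  have hb : ∀ j : ℕ, ∃ C : ℝ, ∀ t, |iteratedDeriv j (χ.normed volume) t| ≤ C := by
    intro j
    have h1 : Continuous (iteratedDeriv j (χ.normed volume)) :=
      (hsm j).continuous_iteratedDeriv j le_rfl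
    have h2 : HasCompactSupport (iteratedDeriv j (χ.normed volume)) :=
      HasCompactSupport.intro isCompact_Icc (AN4_zero _ (-ρ) ρ hz' j)
    obtain ⟨C, hC⟩ := h1.bounded_above_of_compact_support h2
    exact ⟨C, fun t => by simpa using hC t⟩
  choose C hC using hb
  refine ⟨χ.normed volume, ∑ j ∈ Finset.range 9, |C j|, Finset.sum_nonneg fun _ _ => abs_nonneg _,
    hsm, hz, χ.integral_normed, ?_⟩
  intro j hj t
  refine ((hC j t).trans (le_abs_self _)).trans ?_
  exact Finset.single_le_sum (f := fun j => |C j|) (fun _ _ => abs_nonneg _)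
    (Finset.mem_range.2 (by omega))

private lemma AN4_fubini (η : ℝ → ℝ) (hη : Continuous η) (ρ : ℝ)
    (hz : ∀ t, ρ ≤ |t| → η t = 0) (h1 : ∫ t : ℝ, η t = 1) (g : V → ℂ) (hg : Continuous g)
    (b₀ e : V) (he : ‖e‖ ≤ 1) (hg0 : ∀ b, b ∉ ball b₀ ρ → g b = 0) :
    ∫ b : V, g b = ∫ b : V, ∫ t : ℝ, (η t : ℂ) * g (b + t • e) := by
  have := AN4_haar
  have hint : Integrable (Function.uncurry fun (t : ℝ) (b : V) => (η t : ℂ) * g (b + t • e))
      ((volume : Measure ℝ).prod (volume : Measure V)) := by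
    apply Continuous.integrable_of_hasCompactSupport
    · unfold Function.uncurry
      fun_prop
    · apply HasCompactSupport.intro
        ((isCompact_closedBall (0 : ℝ) ρ).prod (isCompact_closedBall b₀ (2 * ρ)))
      rintro ⟨t, b⟩ hn
      show (η t : ℂ) * g (b + t • e) = 0
      rw [Set.mem_prod, not_and_or] at hn
      rcases hn with hn | hn
      · rw [mem_closedBall, not_le, dist_zero_right, Real.norm_eq_abs] at hn
        rw [hz t hn.le]
        simp
      · by_cases ht : ρ ≤ |t|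
        · rw [hz t ht]
          simp
        · push Not at ht
          rw [mem_closedBall, not_le] at hn
          rw [hg0 (b + t • e), mul_zero]
          rw [mem_ball, not_lt]
          have h2 : dist b b₀ ≤ dist b (b + t • e) + dist (b + t • e) b₀ := dist_triangle _ _ _
          have h3 : dist b (b + t • e) ≤ |t| := by
            rw [dist_comm, dist_eq_norm, add_sub_cancel_left, norm_smul, Real.norm_eq_abs]
            exact mul_le_of_le_one_right (abs_nonneg _) he
          simp only at hn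
          linarith
  rw [← integral_integral_swap hint]
  have h2 : ∀ t : ℝ, ∫ b : V, (η t : ℂ) * g (b + t • e) = (η t : ℂ) * ∫ b : V, g b := by
    intro t
    rw [integral_const_mul, integral_add_right_eq_self (fun b => g b) (t • e)]
  simp_rw [h2]
  rw [integral_mul_const]
  have h3 : ∫ t : ℝ, (η t : ℂ) = 1 := by
    have h4 := integral_ofReal (𝕜 := ℂ) (f := η) (μ := (volume : Measure ℝ))
    rw [h1] at h4
    simpa using h4
  rw [h3, one_mul]

private lemma AN4_leib (F G : ℝ → ℝ) (A B : ℝ) (hA : 0 ≤ A) (hB : 0 ≤ B)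
    (hF : ∀ n : ℕ, ContDiff ℝ n F) (hG : ∀ n : ℕ, ContDiff ℝ n G)
    (hFb : ∀ j ≤ 8, ∀ t, |iteratedDeriv j F t| ≤ A) (hGb : ∀ j ≤ 8, ∀ t, |iteratedDeriv j G t| ≤ B) :
    ∀ j ≤ 8, ∀ t, |iteratedDeriv j (F * G) t| ≤ 256 * A * B := by
  intro j hj t
  rw [iteratedDeriv_mul ((hF j).contDiffAt) ((hG j).contDiffAt)]
  refine (Finset.abs_sum_le_sum_abs _ _).trans ?_
  have h1 : ∀ i ∈ Finset.range (j + 1), |((j.choose i : ℕ) : ℝ) * iteratedDeriv i F t *
      iteratedDeriv (j - i) G t| ≤ (j.choose i : ℝ) * (A * B) := by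
    intro i hi
    have hi' : i ≤ j := by
      have := Finset.mem_range.1 hi
      omega
    rw [abs_mul, abs_mul, Nat.abs_cast, mul_assoc]
    refine mul_le_mul_of_nonneg_left ?_ (Nat.cast_nonneg _)
    exact mul_le_mul (hFb i (by omega) t) (hGb (j - i) (by omega) t) (abs_nonneg _) hA
  refine (Finset.sum_le_sum h1).trans ?_
  rw [← Finset.sum_mul, mul_assoc]
  refine mul_le_mul_of_nonneg_right ?_ (mul_nonneg hA hB)
  have h2 : ∑ i ∈ Finset.range (j + 1), (j.choose i : ℝ) = ((2 ^ j : ℕ) : ℝ) := by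
    rw [← Nat.sum_range_choose j]
    push_cast
    rfl
  rw [h2]
  have h3 : 2 ^ j ≤ 2 ^ 8 := Nat.pow_le_pow_right (by norm_num) hj
  calc ((2 ^ j : ℕ) : ℝ) ≤ ((2 ^ 8 : ℕ) : ℝ) := by exact_mod_cast h3
    _ = 256 := by norm_num

theorem nonstat_dir (C₀ c₀ ρ : ℝ) (hc : 0 < c₀) (hρ : 0 < ρ) : ∃ C : ℝ, 0 ≤ C ∧
    ∀ (h Φ : V → ℝ) (b₀ e : V) (Lam : ℝ), ContDiff ℝ ∞ h → ContDiff ℝ ∞ Φ → ‖e‖ ≤ 1 → 0 ≤ Lam →
      (∀ b, b ∉ ball b₀ ρ → h b = 0) →
      (∀ (b : V) (t : ℝ), ∀ j ≤ 8, |iteratedDeriv j (fun t : ℝ => h (b + t • e)) t| ≤ C₀) →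
      (∀ b ∈ closedBall b₀ (3 * ρ), ∀ j : ℕ, 1 ≤ j → j ≤ 9 →
        |iteratedDeriv j (fun t : ℝ => Φ (b + t • e)) 0| ≤ C₀ * Lam) →
      (∀ b ∈ closedBall b₀ (3 * ρ), c₀ * Lam ≤ |deriv (fun t : ℝ => Φ (b + t • e)) 0|) →
      ‖∫ b : V, ((h b : ℝ) : ℂ) * ex (Φ b)‖ ≤ C / (1 + Lam) ^ 8 := by
  have := AN4_haar
  obtain ⟨η, Cη, hCη, hηs, hηz, hη1, hηb⟩ := AN4_bump ρ hρ
  obtain ⟨C, hC, hns⟩ := nonstat 8 (2 * ρ) (max (256 * Cη * |C₀|) |C₀|) c₀ hc
  refine ⟨256 * (C + 2 * ρ * (Cη * |C₀|)) * volume.real (ball (0 : V) (2 * ρ)), by positivity, ?_⟩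
  intro h Φ b₀ e Lam hh hΦ he hLam hh0 hhb hΦb hΦd
  have hgc : Continuous (fun b : V => ((h b : ℝ) : ℂ) * ex (Φ b)) := by
    have h1 := hh.continuous
    have h2 := hΦ.continuous
    unfold ex
    fun_prop
  have hg0 : ∀ b, b ∉ ball b₀ ρ → ((h b : ℝ) : ℂ) * ex (Φ b) = 0 := by
    intro b hb
    rw [hh0 b hb]
    simp
  rw [AN4_fubini η (hηs 0).continuous ρ hηz hη1 _ hgc b₀ e he hg0]
  -- smoothness along lines
  have hline : ∀ (b : V) (n : ℕ), ContDiff ℝ n (fun t : ℝ => b + t • e) := by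
    intro b n
    fun_prop
  have hhl : ∀ (b : V) (n : ℕ), ContDiff ℝ n (fun t : ℝ => h (b + t • e)) := fun b n =>
    (hh.of_le (by exact_mod_cast le_top)).comp (hline b n)
  have hΦl : ∀ (b : V) (n : ℕ), ContDiff ℝ n (fun t : ℝ => Φ (b + t • e)) := fun b n =>
    (hΦ.of_le (by exact_mod_cast le_top)).comp (hline b n)
  -- the inner integral vanishes outside the ball
  have hout : ∀ b, b ∉ ball b₀ (2 * ρ) →
      ∫ t : ℝ, (η t : ℂ) * (((h (b + t • e) : ℝ) : ℂ) * ex (Φ (b + t • e))) = 0 := by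
    intro b hb
    have h1 : ∀ t : ℝ, (η t : ℂ) * (((h (b + t • e) : ℝ) : ℂ) * ex (Φ (b + t • e))) = 0 := by
      intro t
      by_cases ht : ρ ≤ |t|
      · rw [hηz t ht]
        simp
      · push Not at ht
        rw [mem_ball, not_lt] at hb
        rw [hh0 (b + t • e)]
        · simp
        · rw [mem_ball, not_lt]
          have h2 : dist b b₀ ≤ dist b (b + t • e) + dist (b + t • e) b₀ := dist_triangle _ _ _
          have h3 : dist b (b + t • e) ≤ |t| := by
            rw [dist_comm, dist_eq_norm, add_sub_cancel_left, norm_smul, Real.norm_eq_abs]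
            exact mul_le_of_le_one_right (abs_nonneg _) he
          linarith
    simp [h1]
  -- the pointwise bound
  have hin : ∀ b ∈ ball b₀ (2 * ρ),
      ‖∫ t : ℝ, (η t : ℂ) * (((h (b + t • e) : ℝ) : ℂ) * ex (Φ (b + t • e)))‖ ≤
        256 * (C + 2 * ρ * (Cη * |C₀|)) / (1 + Lam) ^ 8 := by
    intro b hb
    have hmem : ∀ t ∈ Icc (-ρ) ρ, b + t • e ∈ closedBall b₀ (3 * ρ) := by
      intro t ht
      rw [mem_ball] at hb
      rw [mem_closedBall]
      have h2 : dist (b + t • e) b₀ ≤ dist (b + t • e) b + dist b b₀ := dist_triangle _ _ _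
      have h3 : dist (b + t • e) b ≤ |t| := by
        rw [dist_eq_norm, add_sub_cancel_left, norm_smul, Real.norm_eq_abs]
        exact mul_le_of_le_one_right (abs_nonneg _) he
      have h4 : |t| ≤ ρ := abs_le.2 ht
      linarith
    have hp : (0 : ℝ) < (1 + Lam) ^ 8 := by positivity
    have hK : (0 : ℝ) ≤ 2 * ρ * (Cη * |C₀|) := by positivity
    by_cases hL : 1 ≤ Lam
    · have hL0 : Lam ≠ 0 := by linarith
      have key := hns (η * fun t : ℝ => h (b + t • e)) (fun t : ℝ => Φ (b + t • e) / Lam)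
        (fun n => (hηs n).mul (hhl b n)) (fun n => (hΦl b n).div_const Lam) (-ρ) ρ (by linarith)
        (by linarith) ?_ ?_ ?_ ?_ Lam hL0
      · have h1 : (∫ t : ℝ, (η t : ℂ) * (((h (b + t • e) : ℝ) : ℂ) * ex (Φ (b + t • e)))) =
            ∫ t : ℝ, ((((η * fun t : ℝ => h (b + t • e)) t : ℝ)) : ℂ) *
              ex (Lam * (Φ (b + t • e) / Lam)) := by
          congr 1
          funext t
          rw [mul_div_cancel₀ _ hL0, Pi.mul_apply]
          push_cast
          ring
        rw [h1]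
        refine key.trans ?_
        rw [abs_of_nonneg hLam, div_le_div_iff₀ (by positivity) hp]
        have h2 : (1 + Lam) ^ 8 ≤ 256 * Lam ^ 8 := by
          calc (1 + Lam) ^ 8 ≤ (2 * Lam) ^ 8 := pow_le_pow_left₀ (by linarith) (by linarith) 8
            _ = 256 * Lam ^ 8 := by ring
        calc C * (1 + Lam) ^ 8 ≤ C * (256 * Lam ^ 8) := mul_le_mul_of_nonneg_left h2 hC
          _ ≤ (C + 2 * ρ * (Cη * |C₀|)) * (256 * Lam ^ 8) :=
            mul_le_mul_of_nonneg_right (by linarith) (by positivity)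
          _ = 256 * (C + 2 * ρ * (Cη * |C₀|)) * Lam ^ 8 := by ring
      · intro t ht
        rw [Pi.mul_apply, hηz t, zero_mul]
        by_contra hcon
        push Not at hcon
        exact ht ⟨(abs_lt.1 hcon).1.le, (abs_lt.1 hcon).2.le⟩
      · intro j hj t
        refine (AN4_leib η (fun t : ℝ => h (b + t • e)) Cη |C₀| hCη (abs_nonneg _) hηs (hhl b)
          hηb ?_ j hj t).trans (le_max_left _ _)
        intro j hj t
        exact (hhb b t j hj).trans (le_abs_self _)
      · intro j hj1 hj2 t ht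
        have h1 : iteratedDeriv j (fun t : ℝ => Φ (b + t • e) / Lam) t =
            Lam⁻¹ * iteratedDeriv j (fun τ : ℝ => Φ ((b + t • e) + τ • e)) 0 := by
          have h2 : (fun t : ℝ => Φ (b + t • e) / Lam) = fun t => Lam⁻¹ * Φ (b + t • e) := by
            funext t
            rw [div_eq_inv_mul]
          rw [h2, iteratedDeriv_const_mul_field Lam⁻¹ (fun t : ℝ => Φ (b + t • e))]
          congr 1
          have h3 := iteratedDeriv_comp_const_add j (fun τ : ℝ => Φ (b + τ • e)) t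
          have h4 := congrFun h3 0
          simp only [add_zero] at h4
          rw [← h4]
          congr 1
          funext τ
          rw [add_smul, add_assoc]
        rw [h1, abs_mul]
        refine le_trans ?_ (le_max_right _ _)
        have h5 := hΦb (b + t • e) (hmem t ht) j hj1 (by omega)
        have h6 : |Lam⁻¹| = Lam⁻¹ := abs_of_nonneg (by positivity)
        rw [h6]
        calc Lam⁻¹ * |iteratedDeriv j (fun τ : ℝ => Φ ((b + t • e) + τ • e)) 0| ≤
            Lam⁻¹ * (C₀ * Lam) := mul_le_mul_of_nonneg_left h5 (by positivity)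
          _ = C₀ := by field_simp
          _ ≤ |C₀| := le_abs_self _
      · intro t ht
        have h1 : deriv (fun t : ℝ => Φ (b + t • e) / Lam) t =
            deriv (fun τ : ℝ => Φ ((b + t • e) + τ • e)) 0 / Lam := by
          rw [deriv_div_const]
          congr 1
          have h3 := deriv_comp_const_add (fun τ : ℝ => Φ (b + τ • e)) t 0
          rw [add_zero] at h3
          rw [← h3]
          congr 1
          funext τ
          rw [add_smul, add_assoc]
        rw [h1, abs_div, abs_of_nonneg hLam, le_div_iff₀ (by linarith)]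
        exact hΦd (b + t • e) (hmem t ht)
    · push Not at hL
      have h1 : ∫ t : ℝ, (η t : ℂ) * (((h (b + t • e) : ℝ) : ℂ) * ex (Φ (b + t • e))) =
          ∫ t in Icc (-ρ) ρ, (η t : ℂ) * (((h (b + t • e) : ℝ) : ℂ) * ex (Φ (b + t • e))) := by
        symm
        refine setIntegral_eq_integral_of_forall_compl_eq_zero fun t ht => ?_
        rw [hηz t]
        · simp
        · by_contra hcon
          push Not at hcon
          exact ht ⟨(abs_lt.1 hcon).1.le, (abs_lt.1 hcon).2.le⟩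
      rw [h1]
      have h2 : ∀ t ∈ Icc (-ρ) ρ,
          ‖(η t : ℂ) * (((h (b + t • e) : ℝ) : ℂ) * ex (Φ (b + t • e)))‖ ≤ Cη * |C₀| := by
        intro t _
        rw [norm_mul, norm_mul, AN4_norm_ex, mul_one, Complex.norm_real, Complex.norm_real,
          Real.norm_eq_abs, Real.norm_eq_abs]
        have h3 := hηb 0 (by norm_num) t
        have h4 := hhb b t 0 (by norm_num)
        rw [iteratedDeriv_zero] at h3 h4
        exact mul_le_mul h3 (h4.trans (le_abs_self _)) (abs_nonneg _) hCη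
      refine (norm_setIntegral_le_of_norm_le_const (by simp) h2).trans ?_
      have h5 : volume.real (Icc (-ρ) ρ) = 2 * ρ := by
        rw [Measure.real, Real.volume_Icc, ENNReal.toReal_ofReal (by linarith)]
        ring
      rw [h5, le_div_iff₀ hp]
      have h6 : (1 + Lam) ^ 8 ≤ 256 := by
        calc (1 + Lam) ^ 8 ≤ 2 ^ 8 := pow_le_pow_left₀ (by linarith) (by linarith) 8
          _ = 256 := by norm_num
      calc Cη * |C₀| * (2 * ρ) * (1 + Lam) ^ 8 ≤ Cη * |C₀| * (2 * ρ) * 256 :=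
            mul_le_mul_of_nonneg_left h6 (by positivity)
        _ ≤ 256 * (C + 2 * ρ * (Cη * |C₀|)) := by nlinarith
  -- conclusion
  have hset : ∫ b : V, ∫ t : ℝ, (η t : ℂ) * (((h (b + t • e) : ℝ) : ℂ) * ex (Φ (b + t • e))) =
      ∫ b in ball b₀ (2 * ρ),
        ∫ t : ℝ, (η t : ℂ) * (((h (b + t • e) : ℝ) : ℂ) * ex (Φ (b + t • e))) := by
    symm
    exact setIntegral_eq_integral_of_forall_compl_eq_zero hout
  rw [hset]
  have hfin : volume (ball b₀ (2 * ρ)) < ⊤ := measure_ball_lt_top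
  refine (norm_setIntegral_le_of_norm_le_const hfin hin).trans ?_
  have hv : volume.real (ball b₀ (2 * ρ)) = volume.real (ball (0 : V) (2 * ρ)) := by
    rw [Measure.real, Measure.real, Measure.addHaar_ball_center]
  rw [hv]
  exact le_of_eq (by ring)

end Pool.Agent.SDT.N1

end -- N1.AN4

section -- N1.AN6

/-!
Row [N1-AN6]. The kernel of `T T*`, case 2 of the dichotomy.

Proof. `conj (ex x) = ex (-x)`, so
`φ kk(a,b) conj kk(a',b) = ∫_s ∫_{s'} φ(b) c(s,a,b) c(s',a',b) ex(Φ b)`, `Φ b = lam (s F a b - s' F a' b)`. Fubini (all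
functions are continuous with compact support in `(s, s', b)`):
`K = ∫_{|s| ≤ s₁} ∫_{|s'| ≤ s₁} I(s,s')`, `I(s,s') = ∫ b, h(b) ex(Φ b)`, `h b = c s a b * c s' a' b * φ b`. If
`|s|` or `|s'|` is not in `[s₀, s₁]` then `h = 0`. Otherwise take `e` from the hypothesis and apply
`nonstat_dir` (AN4) with `Lam = lam (|s - s'| + D a a')`; its derivative hypotheses are `hA.db`, `lam` times `hD.up`
and `lam` times the hypothesis (`iteratedDeriv_const_mul`, `deriv_const_mul`; rewrite
`lam * (s * F a (b + t • e) - s' * F a' (b + t • e))`). So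
`‖I‖ ≤ C₁/(1 + lam |s - s'| + lam D)⁸ ≤ C₁ /(1 + lam D)⁶ * 1/(1 + lam |s - s'|)²` and
`∫_{|s'| ≤ s₁} ds'/(1 + lam |s - s'|)² ≤ 2/lam` (as in AN1; or `∫_ℝ`), `∫_{|s| ≤ s₁} ds ≤ 2 s₁`.
-/

namespace Pool.Agent.SDT.N1

open MeasureTheory Set Metric Pool.Agent.SDT.MST
open scoped ContDiff

theorem AN6_exadd (x y : ℝ) : ex (x + y) = ex x * ex y := by
  unfold ex
  rw [← Complex.exp_add]
  congr 1
  push_cast
  ring

theorem AN6_exconj (x : ℝ) : (starRingEnd ℂ) (ex x) = ex (-x) := by
  unfold ex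
  rw [← Complex.exp_conj, map_mul, Complex.conj_ofReal, Complex.conj_I]
  congr 1
  push_cast
  ring

theorem AN6_excont : Continuous ex := by
  unfold ex
  fun_prop

/-- the inner integral -/
theorem AN6_inner (lam s₁ K x : ℝ) (hl : 0 < lam) (hK : 0 ≤ K) :
    ∫ y in Icc (-s₁) s₁, K / (1 + lam * |x - y|) ^ 2 ≤ K * (2 / lam) := by
  rcases lt_or_ge s₁ (-s₁) with h | h
  · rw [Icc_eq_empty (not_le.2 h), setIntegral_empty]
    positivity
  · rw [integral_Icc_eq_integral_Ioc, ← intervalIntegral.integral_of_le h]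
    have e : ∀ y : ℝ, K / (1 + lam * |x - y|) ^ 2 = K * (1 / (1 + lam * |y - x|) ^ 2) := by
      intro y
      rw [abs_sub_comm x y]
      ring
    simp only [e]
    rw [intervalIntegral.integral_const_mul]
    have h1 := mono_int (fun y : ℝ => y - x) (-s₁) s₁ 1 lam h (by fun_prop) one_pos hl (by
      intro t _
      rw [deriv_sub_const, deriv_id'', abs_one])
    rw [one_mul] at h1
    exact mul_le_mul_of_nonneg_left h1 hK

theorem KK2 (c₀ C₀ ρ s₀ s₁ : ℝ) (hc : 0 < c₀) (hρ : 0 < ρ) : ∃ C : ℝ, 0 ≤ C ∧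
    ∀ (F : V → V → ℝ) (D : V → V → ℝ) (SA : Set V) (b₀ : V) (c : ℝ → V → V → ℝ) (φ : V → ℝ),
      Dich F D SA b₀ ρ c₀ C₀ s₀ s₁ → Ampl c φ SA b₀ ρ C₀ s₀ s₁ → ∀ lam : ℝ, 0 < lam →
      ∀ a ∈ SA, ∀ a' ∈ SA,
      (∀ s s' : ℝ, s₀ ≤ |s| → |s| ≤ s₁ → s₀ ≤ |s'| → |s'| ≤ s₁ → ∃ e : V, ‖e‖ ≤ 1 ∧
        ∀ b ∈ closedBall b₀ (3 * ρ), c₀ * (|s - s'| + D a a')
          ≤ |deriv (fun t : ℝ => s * F a (b + t • e) - s' * F a' (b + t • e)) 0|) →
      ‖∫ b : V, ((φ b : ℝ) : ℂ) * (kk lam c F a b * (starRingEnd ℂ) (kk lam c F a' b))‖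
        ≤ C / lam / (1 + lam * D a a') ^ 6 := by
  obtain ⟨C₁, hC₁, hns⟩ := nonstat_dir C₀ c₀ ρ hc hρ
  refine ⟨C₁ * 2 * (2 * |s₁|), by positivity, ?_⟩
  intro F D SA b₀ c φ hD hA lam hl a ha a' ha' hdir
  have hD0 : 0 ≤ D a a' := hD.nonneg a a'
  -- smoothness
  have hcs : ∀ (s : ℝ) (a : V), ContDiff ℝ ∞ (fun b : V => c s a b) := fun s a =>
    hA.smooth.comp (contDiff_const.prodMk (contDiff_const.prodMk contDiff_id))
  have hFs : ∀ a : V, ContDiff ℝ ∞ (fun b : V => F a b) := fun a =>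
    hD.smooth.comp (contDiff_const.prodMk contDiff_id)
  obtain ⟨K, hK⟩ : ∃ K : ℝ, K = C₁ / (1 + lam * D a a') ^ 6 := ⟨_, rfl⟩
  have hK0 : 0 ≤ K := by rw [hK]; positivity
  obtain ⟨I, hI⟩ : ∃ I : ℝ × ℝ → ℂ, I = fun z => ∫ b : V,
      ((c z.1 a b * c z.2 a' b * φ b : ℝ) : ℂ) * ex (lam * (z.1 * F a b - z.2 * F a' b)) :=
    ⟨_, rfl⟩
  have hc0 : ∀ (s : ℝ) (a b : V), ¬ (s₀ ≤ |s| ∧ |s| ≤ s₁) → c s a b = 0 := by
    intro s a b h
    by_contra h0
    exact h (hA.supp s a b h0)
  have hIb : ∀ z : ℝ × ℝ, ‖I z‖ ≤ K / (1 + lam * |z.1 - z.2|) ^ 2 := by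
    rintro ⟨s, s'⟩
    rw [hI]
    change ‖∫ b : V, ((c s a b * c s' a' b * φ b : ℝ) : ℂ) *
      ex (lam * (s * F a b - s' * F a' b))‖ ≤ K / (1 + lam * |s - s'|) ^ 2
    by_cases h1 : s₀ ≤ |s| ∧ |s| ≤ s₁
    swap
    · have : ∀ b : V, ((c s a b * c s' a' b * φ b : ℝ) : ℂ) *
          ex (lam * (s * F a b - s' * F a' b)) = 0 := by
        intro b
        rw [hc0 s a b h1]
        simp
      simp only [this, integral_zero, norm_zero]
      positivity
    by_cases h2 : s₀ ≤ |s'| ∧ |s'| ≤ s₁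
    swap
    · have : ∀ b : V, ((c s a b * c s' a' b * φ b : ℝ) : ℂ) *
          ex (lam * (s * F a b - s' * F a' b)) = 0 := by
        intro b
        rw [hc0 s' a' b h2]
        simp
      simp only [this, integral_zero, norm_zero]
      positivity
    obtain ⟨e, he, hde⟩ := hdir s s' h1.1 h1.2 h2.1 h2.2
    have h3 := hns (fun b => c s a b * c s' a' b * φ b)
      (fun b => lam * (s * F a b - s' * F a' b)) b₀ e (lam * (|s - s'| + D a a'))
      (((hcs s a).mul (hcs s' a')).mul hA.smoothφ)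
      (contDiff_const.mul ((contDiff_const.mul (hFs a)).sub (contDiff_const.mul (hFs a')))) he
      (by positivity) (fun b hb => by simp only [hA.suppφ b hb, mul_zero])
      (fun b t j hj => hA.db a ha a' ha' s s' e he b t j hj)
      (fun b hb j h1j hj => by
        have h4 := hD.up a ha a' ha' s s' h1.2 h2.2 e he b hb j h1j hj
        rw [iteratedDeriv_const_mul_field, abs_mul, abs_of_pos hl]
        calc _ ≤ lam * (C₀ * (|s - s'| + D a a')) := mul_le_mul_of_nonneg_left h4 hl.le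
          _ = _ := by ring)
      (fun b hb => by
        have h4 := hde b hb
        rw [deriv_const_mul_field, abs_mul, abs_of_pos hl]
        calc _ = lam * (c₀ * (|s - s'| + D a a')) := by ring
          _ ≤ _ := mul_le_mul_of_nonneg_left h4 hl.le)
    refine h3.trans ?_
    rw [hK, div_div]
    refine div_le_div_of_nonneg_left hC₁ (by positivity) ?_
    have hx : 0 ≤ lam * |s - s'| := by positivity
    have hy : 0 ≤ lam * D a a' := by positivity
    have e1 : 1 + lam * (|s - s'| + D a a') = 1 + lam * |s - s'| + lam * D a a' := by ring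
    rw [e1]
    calc (1 + lam * D a a') ^ 6 * (1 + lam * |s - s'|) ^ 2
        ≤ (1 + lam * |s - s'| + lam * D a a') ^ 6 * (1 + lam * |s - s'| + lam * D a a') ^ 2 := by
          refine mul_le_mul (pow_le_pow_left₀ (by positivity) (by linarith) 6)
            (pow_le_pow_left₀ (by positivity) (by linarith) 2) (by positivity) (by positivity)
      _ = _ := by ring
  have hI0 : ∀ z : ℝ × ℝ, z ∉ Icc (-s₁) s₁ ×ˢ Icc (-s₁) s₁ → I z = 0 := by
    rintro ⟨s, s'⟩ hz
    rw [hI]
    change ∫ b : V, ((c s a b * c s' a' b * φ b : ℝ) : ℂ) *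
      ex (lam * (s * F a b - s' * F a' b)) = 0
    have : ∀ b : V, ((c s a b * c s' a' b * φ b : ℝ) : ℂ) *
        ex (lam * (s * F a b - s' * F a' b)) = 0 := by
      intro b
      by_cases h1 : |s| ≤ s₁
      · have h2 : ¬ |s'| ≤ s₁ := fun h2 => hz ⟨abs_le.1 h1, abs_le.1 h2⟩
        rw [hc0 s' a' b fun h => h2 h.2]
        simp
      · rw [hc0 s a b fun h => h1 h.2]
        simp
    simp only [this, integral_zero]
  -- Fubini
  have hfub : ∫ b : V, ((φ b : ℝ) : ℂ) * (kk lam c F a b * (starRingEnd ℂ) (kk lam c F a' b)) =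
      ∫ z : ℝ × ℝ, I z := by
    obtain ⟨Gf, hG⟩ : ∃ Gf : V → ℝ × ℝ → ℂ, Gf = fun b z =>
        ((c z.1 a b * c z.2 a' b * φ b : ℝ) : ℂ) * ex (lam * (z.1 * F a b - z.2 * F a' b)) :=
      ⟨_, rfl⟩
    have hL : ∀ b : V, ((φ b : ℝ) : ℂ) * (kk lam c F a b * (starRingEnd ℂ) (kk lam c F a' b)) =
        ∫ z : ℝ × ℝ, Gf b z := by
      intro b
      unfold kk
      rw [← integral_conj, ← integral_prod_mul, ← integral_const_mul, hG,
        ← Measure.volume_eq_prod]
      refine integral_congr_ae (Filter.Eventually.of_forall fun z => ?_)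
      change ((φ b : ℝ) : ℂ) * (((c z.1 a b : ℝ) : ℂ) * ex (lam * (z.1 * F a b)) *
        (starRingEnd ℂ) (((c z.2 a' b : ℝ) : ℂ) * ex (lam * (z.2 * F a' b)))) =
        ((c z.1 a b * c z.2 a' b * φ b : ℝ) : ℂ) * ex (lam * (z.1 * F a b - z.2 * F a' b))
      rw [map_mul, Complex.conj_ofReal, AN6_exconj]
      have e : lam * (z.1 * F a b - z.2 * F a' b) =
          lam * (z.1 * F a b) + -(lam * (z.2 * F a' b)) := by ring
      rw [e, AN6_exadd]
      push_cast
      ring
    have hcc : ∀ (a : V) (f : V × (ℝ × ℝ) → ℝ), Continuous f →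
        Continuous fun x : V × (ℝ × ℝ) => c (f x) a x.1 := by
      intro a f hf
      exact hA.smooth.continuous.comp (hf.prodMk (continuous_const.prodMk continuous_fst))
    have hFc : ∀ a : V, Continuous fun x : V × (ℝ × ℝ) => F a x.1 := by
      intro a
      exact hD.smooth.continuous.comp (continuous_const.prodMk continuous_fst)
    have h1 : Continuous fun x : V × (ℝ × ℝ) => x.2.1 := continuous_fst.comp continuous_snd
    have h2 : Continuous fun x : V × (ℝ × ℝ) => x.2.2 := continuous_snd.comp continuous_snd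
    have hGc : Continuous (Function.uncurry Gf) := by
      rw [hG]
      change Continuous fun x : V × (ℝ × ℝ) =>
        ((c x.2.1 a x.1 * c x.2.2 a' x.1 * φ x.1 : ℝ) : ℂ) *
          ex (lam * (x.2.1 * F a x.1 - x.2.2 * F a' x.1))
      refine (Complex.continuous_ofReal.comp (((hcc a _ h1).mul (hcc a' _ h2)).mul
        (hA.smoothφ.continuous.comp continuous_fst))).mul (AN6_excont.comp ?_)
      exact continuous_const.mul ((h1.mul (hFc a)).sub (h2.mul (hFc a')))
    have hGs : HasCompactSupport (Function.uncurry Gf) := by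
      refine HasCompactSupport.intro ((isCompact_closedBall b₀ ρ).prod
        (isCompact_Icc (a := -s₁) (b := s₁) |>.prod (isCompact_Icc (a := -s₁) (b := s₁)))) ?_
      rintro ⟨b, s, s'⟩ hx
      rw [hG]
      change ((c s a b * c s' a' b * φ b : ℝ) : ℂ) * ex (lam * (s * F a b - s' * F a' b)) = 0
      by_cases hs : |s| ≤ s₁
      · by_cases hs' : |s'| ≤ s₁
        · by_cases hb : b ∈ ball b₀ ρ
          · exact absurd ⟨ball_subset_closedBall hb, abs_le.1 hs, abs_le.1 hs'⟩ hx
          · rw [hA.suppφ b hb]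
            simp
        · rw [hc0 s' a' b fun h => hs' h.2]
          simp
      · rw [hc0 s a b fun h => hs h.2]
        simp
    have hGi : Integrable (Function.uncurry Gf) ((volume : Measure V).prod volume) :=
      hGc.integrable_of_hasCompactSupport hGs
    calc ∫ b : V, ((φ b : ℝ) : ℂ) * (kk lam c F a b * (starRingEnd ℂ) (kk lam c F a' b))
        = ∫ b : V, ∫ z : ℝ × ℝ, Gf b z := integral_congr_ae (Filter.Eventually.of_forall hL)
      _ = ∫ z : ℝ × ℝ, ∫ b : V, Gf b z := integral_integral_swap hGi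
      _ = ∫ z : ℝ × ℝ, I z := by rw [hI, hG]
  rw [hfub, ← setIntegral_eq_integral_of_forall_compl_eq_zero hI0]
  have hgc : Continuous fun z : ℝ × ℝ => K / (1 + lam * |z.1 - z.2|) ^ 2 := by
    refine continuous_const.div (by fun_prop) fun z => ?_
    positivity
  have hgi : IntegrableOn (fun z : ℝ × ℝ => K / (1 + lam * |z.1 - z.2|) ^ 2)
      (Icc (-s₁) s₁ ×ˢ Icc (-s₁) s₁) volume :=
    hgc.continuousOn.integrableOn_compact (isCompact_Icc.prod isCompact_Icc)
  refine (norm_integral_le_of_norm_le hgi (Filter.Eventually.of_forall hIb)).trans ?_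
  rw [Measure.volume_eq_prod, setIntegral_prod _ (by rwa [Measure.volume_eq_prod] at hgi)]
  have h5 : ∫ x in Icc (-s₁) s₁, ∫ y in Icc (-s₁) s₁, K / (1 + lam * |x - y|) ^ 2 ≤
      K * (2 / lam) * (2 * |s₁|) := by
    have h6 : ∫ x in Icc (-s₁) s₁, ∫ y in Icc (-s₁) s₁, K / (1 + lam * |x - y|) ^ 2 ≤
        ∫ x in Icc (-s₁) s₁, K * (2 / lam) := by
      refine integral_mono_of_nonneg (Filter.Eventually.of_forall fun x => ?_)
        (continuous_const.continuousOn.integrableOn_compact isCompact_Icc)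
        (Filter.Eventually.of_forall fun x => AN6_inner lam s₁ K x hl hK0)
      change 0 ≤ ∫ y in Icc (-s₁) s₁, K / (1 + lam * |x - y|) ^ 2
      exact integral_nonneg fun y => by positivity
    refine h6.trans ?_
    rw [setIntegral_const, smul_eq_mul, Real.volume_real_Icc, mul_comm]
    refine mul_le_mul_of_nonneg_left ?_ (by positivity)
    refine max_le ?_ (by positivity)
    linarith [le_abs_self s₁]
  refine h5.trans (le_of_eq ?_)
  rw [hK]
  field_simp

end Pool.Agent.SDT.N1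

end -- N1.AN6

section -- N1.AN7

/-!
Row [N1-AN7]. `T T*` for a general continuous kernel.

Proof. All functions are bounded, measurable and vanish outside bounded sets, so everything is integrable.
`H b = ∫ a, A a * K a b`. Fubini (`integral_prod_symm` or `integral_prod` after swapping):
`∫ q, A q.1 * B q.2 * K q.1 q.2 = ∫ b, B b * H b`; only `b ∈ ball b₀ ρ'` contributes, `‖B‖ ≤ 1`:
`‖.‖ ≤ ∫_{ball b₀ ρ'} ‖H‖`, and Cauchy-Schwarz `(∫_{ball} ‖H‖)² ≤ vol(ball) ∫_{ball} ‖H‖² ≤ vol ∫ φ ‖H‖²` as `φ = 1`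
on the ball and `φ ≥ 0`. `‖H b‖² = H conj H = ∫_{a} ∫_{a'} A a conj(A a') K a b conj(K a' b)`
(`integral_mul_const`, `integral_conj`), Fubini in `(b; a, a')`:
`∫ φ ‖H‖² = ∫_{a ∈ SA} ∫_{a' ∈ SA} A a conj(A a') (∫ b, φ K conj K)`, norm `≤ ∫_{SA}∫_{SA} ‖∫ b ..‖` (the functions
`(a, a') ↦ ∫ b, φ K conj K` are continuous: parameter integral over a compact set; bounded on the
bounded set `SA`).
-/

namespace Pool.Agent.SDT.N1

open MeasureTheory Set Metric Pool.Agent.SDT.MST
open scoped ContDiff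

/-- Cauchy-Schwarz. -/
private theorem AN7_cs {α : Type*} [MeasurableSpace α] (μ : Measure α) [IsFiniteMeasure μ]
    (f : α → ℝ) (hf : Integrable f μ) (hf2 : Integrable (fun x => f x ^ 2) μ) :
    (∫ x, f x ∂μ) ^ 2 ≤ μ.real univ * ∫ x, f x ^ 2 ∂μ := by
  have h : ∀ t : ℝ, 0 ≤ μ.real univ * (t * t) + (-2 * ∫ x, f x ∂μ) * t + ∫ x, f x ^ 2 ∂μ := by
    intro t
    have h1 : 0 ≤ ∫ x, (f x - t) ^ 2 ∂μ := integral_nonneg fun x => sq_nonneg _
    have h2 : ∫ x, (f x - t) ^ 2 ∂μ =
        μ.real univ * (t * t) + (-2 * ∫ x, f x ∂μ) * t + ∫ x, f x ^ 2 ∂μ := by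
      have e : (fun x => (f x - t) ^ 2) = fun x => (f x ^ 2 - 2 * t * f x) + t ^ 2 := by
        ext x; ring
      have i0 : Integrable (fun x => 2 * t * f x) μ := hf.const_mul _
      have i1 : Integrable (fun x => f x ^ 2 - 2 * t * f x) μ := hf2.sub i0
      rw [e, integral_add i1 (integrable_const _), integral_sub hf2 i0, integral_const_mul,
        integral_const, smul_eq_mul]
      ring
    rw [← h2]; exact h1
  have := discrim_le_zero h
  unfold discrim at this
  nlinarith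

private theorem AN7_int {α E : Type*} [MeasurableSpace α] [NormedAddCommGroup E] (μ : Measure α)
    (s : Set α) (hms : MeasurableSet s) (hs : μ s ≠ ⊤) (f : α → E)
    (hf : AEStronglyMeasurable f μ) (C : ℝ) (hb : ∀ x ∈ s, ‖f x‖ ≤ C) (h0 : ∀ x, x ∉ s → f x = 0) :
    Integrable f μ := by
  have h1 : IntegrableOn f s μ :=
    Measure.integrableOn_of_bounded hs hf (ae_restrict_of_forall_mem hms hb)
  refine (integrableOn_iff_integrable_of_support_subset ?_).1 h1
  intro x hx
  by_contra hxs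
  exact hx (h0 x hxs)

theorem TT (K : V → V → ℂ) (hK : Continuous (fun x : V × V => K x.1 x.2)) (φ : V → ℝ)
    (hφ : Continuous φ) (a₀ b₀ : V) (δ ρ ρ' : ℝ) (hφ0 : ∀ b, 0 ≤ φ b)
    (hφ1 : ∀ b ∈ ball b₀ ρ', φ b = 1) (hφs : ∀ b, b ∉ ball b₀ ρ → φ b = 0)
    (A B : V → ℂ) (hA : Measurable A) (hB : Measurable B) (bA : ∀ a, ‖A a‖ ≤ 1)
    (bB : ∀ b, ‖B b‖ ≤ 1) (sA : ∀ a, A a ≠ 0 → a ∈ ball a₀ δ)
    (sB : ∀ b, B b ≠ 0 → b ∈ ball b₀ ρ') :
    ‖∫ q : V × V, A q.1 * B q.2 * K q.1 q.2‖ ^ 2 ≤ (volume (ball b₀ ρ')).toReal *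
      ∫ a in ball a₀ δ, ∫ a' in ball a₀ δ,
        ‖∫ b : V, ((φ b : ℝ) : ℂ) * (K a b * (starRingEnd ℂ) (K a' b))‖ := by
  classical
  -- bounds
  have hKc : IsCompact (closedBall a₀ δ ×ˢ (closedBall b₀ ρ ∪ closedBall b₀ ρ')) :=
    (isCompact_closedBall _ _).prod ((isCompact_closedBall _ _).union (isCompact_closedBall _ _))
  obtain ⟨M₀, hM₀⟩ := hKc.exists_bound_of_continuousOn hK.continuousOn
  obtain ⟨M, hM0, hM⟩ : ∃ M : ℝ, 0 ≤ M ∧ ∀ a ∈ ball a₀ δ, ∀ b,
      (b ∈ ball b₀ ρ ∨ b ∈ ball b₀ ρ') → ‖K a b‖ ≤ M := by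
    refine ⟨max M₀ 0, le_max_right _ _, fun a ha b hb => ?_⟩
    refine le_trans (hM₀ (a, b) ⟨ball_subset_closedBall ha, ?_⟩) (le_max_left _ _)
    rcases hb with hb | hb
    · exact Or.inl (ball_subset_closedBall hb)
    · exact Or.inr (ball_subset_closedBall hb)
  obtain ⟨P₀, hP₀⟩ := (isCompact_closedBall b₀ ρ).exists_bound_of_continuousOn hφ.continuousOn
  obtain ⟨P, hP0, hP⟩ : ∃ P : ℝ, 0 ≤ P ∧ ∀ b ∈ ball b₀ ρ, ‖φ b‖ ≤ P :=
    ⟨max P₀ 0, le_max_right _ _, fun b hb =>
      le_trans (hP₀ b (ball_subset_closedBall hb)) (le_max_left _ _)⟩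
  have mSA : MeasurableSet (ball a₀ δ) := measurableSet_ball
  have mSB : MeasurableSet (ball b₀ ρ') := measurableSet_ball
  have mSR : MeasurableSet (ball b₀ ρ) := measurableSet_ball
  have fSA : volume (ball a₀ δ) ≠ ⊤ := measure_ball_lt_top.ne
  have fSB : volume (ball b₀ ρ') ≠ ⊤ := measure_ball_lt_top.ne
  have fSR : volume (ball b₀ ρ) ≠ ⊤ := measure_ball_lt_top.ne
  have mK : Measurable (fun x : V × V => K x.1 x.2) := hK.measurable
  have mconj : Measurable (fun z : ℂ => (starRingEnd ℂ) z) := Complex.continuous_conj.measurable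
  -- the function `H`
  set H : V → ℂ := fun b => ∫ a, A a * K a b with hH
  have mH : StronglyMeasurable H := by
    have h1 : StronglyMeasurable (fun q : V × V => A q.2 * K q.2 q.1) :=
      ((hA.comp measurable_snd).mul (mK.comp (measurable_snd.prodMk measurable_fst))).stronglyMeasurable
    exact h1.integral_prod_right'
  have bH : ∀ b, (b ∈ ball b₀ ρ ∨ b ∈ ball b₀ ρ') → ‖H b‖ ≤ M * (volume (ball a₀ δ)).toReal := by
    intro b hb
    have hi : Integrable (indicator (ball a₀ δ) fun _ : V => M) :=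
      (integrable_indicator_iff mSA).2 (integrableOn_const fSA)
    have h1 : ‖H b‖ ≤ ∫ a, indicator (ball a₀ δ) (fun _ : V => M) a := by
      refine norm_integral_le_of_norm_le hi (Filter.Eventually.of_forall fun a => ?_)
      by_cases ha : a ∈ ball a₀ δ
      · rw [indicator_of_mem ha, norm_mul]
        calc ‖A a‖ * ‖K a b‖ ≤ 1 * M :=
              mul_le_mul (bA a) (hM a ha b hb) (norm_nonneg _) zero_le_one
          _ = M := one_mul _
      · have h0 : A a = 0 := by
          by_contra h; exact ha (sA a h)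
        rw [h0, zero_mul, norm_zero, indicator_of_notMem ha]
    rw [integral_indicator mSA, setIntegral_const, smul_eq_mul, mul_comm] at h1
    exact h1
  -- step 1
  have s1 : ‖∫ q : V × V, A q.1 * B q.2 * K q.1 q.2‖ ≤ ∫ b in ball b₀ ρ', ‖H b‖ := by
    have hint : Integrable (fun q : V × V => A q.1 * B q.2 * K q.1 q.2)
        ((volume : Measure V).prod (volume : Measure V)) := by
      refine AN7_int _ (ball a₀ δ ×ˢ ball b₀ ρ') (mSA.prod mSB) ?_ _ ?_ M ?_ ?_
      · rw [Measure.prod_prod]; exact ENNReal.mul_ne_top fSA fSB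
      · exact (((hA.comp measurable_fst).mul (hB.comp measurable_snd)).mul mK).aestronglyMeasurable
      · rintro ⟨a, b⟩ ⟨ha, hb⟩
        simp only [norm_mul]
        calc ‖A a‖ * ‖B b‖ * ‖K a b‖ ≤ 1 * 1 * M := by
              refine mul_le_mul (mul_le_mul (bA a) (bB b) (norm_nonneg _) zero_le_one)
                (hM a ha b (Or.inr hb)) (norm_nonneg _) (by norm_num)
          _ = M := by ring
      · rintro ⟨a, b⟩ hab
        by_cases ha : a ∈ ball a₀ δ
        · have hb : B b = 0 := by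
            by_contra h; exact hab ⟨ha, sB b h⟩
          simp [hb]
        · have h0 : A a = 0 := by
            by_contra h; exact ha (sA a h)
          simp [h0]
    rw [Measure.volume_eq_prod, integral_prod_symm _ hint]
    have e1 : ∀ b, ∫ a, A a * B b * K a b = B b * H b := by
      intro b
      rw [hH, ← integral_const_mul]
      congr 1; ext a; ring
    simp only [e1]
    have hi : IntegrableOn (fun b => ‖H b‖) (ball b₀ ρ') :=
      Measure.integrableOn_of_bounded fSB mH.norm.aestronglyMeasurable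
        (ae_restrict_of_forall_mem mSB fun b hb => by
          rw [norm_norm]; exact bH b (Or.inr hb))
    rw [← integral_indicator mSB]
    refine norm_integral_le_of_norm_le ((integrable_indicator_iff mSB).2 hi)
      (Filter.Eventually.of_forall fun b => ?_)
    by_cases hb : b ∈ ball b₀ ρ'
    · rw [indicator_of_mem hb, norm_mul]
      calc ‖B b‖ * ‖H b‖ ≤ 1 * ‖H b‖ := mul_le_mul_of_nonneg_right (bB b) (norm_nonneg _)
        _ = ‖H b‖ := one_mul _
    · have h0 : B b = 0 := by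
        by_contra h; exact hb (sB b h)
      rw [h0, zero_mul, norm_zero, indicator_of_notMem hb]
  -- step 2
  have hi1 : IntegrableOn (fun b => ‖H b‖) (ball b₀ ρ') :=
    Measure.integrableOn_of_bounded fSB mH.norm.aestronglyMeasurable
      (ae_restrict_of_forall_mem mSB fun b hb => by
        rw [norm_norm]; exact bH b (Or.inr hb))
  have hi2 : IntegrableOn (fun b => ‖H b‖ ^ 2) (ball b₀ ρ') := by
    refine Measure.integrableOn_of_bounded (M := (M * (volume (ball a₀ δ)).toReal) ^ 2) fSB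
      (mH.norm.pow 2).aestronglyMeasurable
      (ae_restrict_of_forall_mem mSB fun b hb => ?_)
    rw [norm_pow, norm_norm]
    exact pow_le_pow_left₀ (norm_nonneg _) (bH b (Or.inr hb)) 2
  have s2 : (∫ b in ball b₀ ρ', ‖H b‖) ^ 2 ≤
      (volume (ball b₀ ρ')).toReal * ∫ b in ball b₀ ρ', ‖H b‖ ^ 2 := by
    have : IsFiniteMeasure (volume.restrict (ball b₀ ρ')) :=
      ⟨by rw [Measure.restrict_apply_univ]; exact measure_ball_lt_top⟩
    have h := AN7_cs (volume.restrict (ball b₀ ρ')) (fun b => ‖H b‖) hi1 hi2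
    simpa [Measure.real, Measure.restrict_apply_univ] using h
  -- step 3
  have hi3 : Integrable (fun b => φ b * ‖H b‖ ^ 2) := by
    refine AN7_int _ (ball b₀ ρ) mSR fSR _
      (hφ.aestronglyMeasurable.mul (mH.norm.pow 2).aestronglyMeasurable)
      (P * (M * (volume (ball a₀ δ)).toReal) ^ 2) ?_ ?_
    · intro b hb
      rw [norm_mul, norm_pow, norm_norm]
      exact mul_le_mul (hP b hb) (pow_le_pow_left₀ (norm_nonneg _) (bH b (Or.inl hb)) 2)
        (by positivity) hP0
    · intro b hb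
      rw [hφs b hb, zero_mul]
  have s3 : ∫ b in ball b₀ ρ', ‖H b‖ ^ 2 ≤ ∫ b, φ b * ‖H b‖ ^ 2 := by
    calc ∫ b in ball b₀ ρ', ‖H b‖ ^ 2 = ∫ b in ball b₀ ρ', φ b * ‖H b‖ ^ 2 := by
          refine setIntegral_congr_fun mSB fun b hb => ?_
          rw [hφ1 b hb, one_mul]
      _ ≤ ∫ b, φ b * ‖H b‖ ^ 2 :=
          setIntegral_le_integral hi3 (Filter.Eventually.of_forall fun b =>
            mul_nonneg (hφ0 b) (by positivity))
  -- step 4
  set L : V × V → ℂ := fun w => ∫ b : V, ((φ b : ℝ) : ℂ) * (K w.1 b * (starRingEnd ℂ) (K w.2 b))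
    with hL
  have mL : StronglyMeasurable L := by
    have h1 : StronglyMeasurable (fun z : (V × V) × V =>
        ((φ z.2 : ℝ) : ℂ) * (K z.1.1 z.2 * (starRingEnd ℂ) (K z.1.2 z.2))) := by
      refine Measurable.stronglyMeasurable ?_
      refine (Complex.measurable_ofReal.comp (hφ.measurable.comp measurable_snd)).mul ?_
      refine (mK.comp ((measurable_fst.comp measurable_fst).prodMk measurable_snd)).mul ?_
      exact mconj.comp (mK.comp ((measurable_snd.comp measurable_fst).prodMk measurable_snd))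
    exact h1.integral_prod_right'
  have bL : ∀ w ∈ ball a₀ δ ×ˢ ball a₀ δ, ‖L w‖ ≤ P * (M * M) * (volume (ball b₀ ρ)).toReal := by
    rintro ⟨a, a'⟩ ⟨ha, ha'⟩
    have hi : Integrable (indicator (ball b₀ ρ) fun _ : V => P * (M * M)) :=
      (integrable_indicator_iff mSR).2 (integrableOn_const fSR)
    have h1 : ‖L (a, a')‖ ≤ ∫ b, indicator (ball b₀ ρ) (fun _ : V => P * (M * M)) b := by
      refine norm_integral_le_of_norm_le hi (Filter.Eventually.of_forall fun b => ?_)
      by_cases hb : b ∈ ball b₀ ρ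
      · rw [indicator_of_mem hb, norm_mul, norm_mul, Complex.norm_real, RCLike.norm_conj]
        exact mul_le_mul (hP b hb) (mul_le_mul (hM a ha b (Or.inl hb)) (hM a' ha' b (Or.inl hb))
          (norm_nonneg _) hM0) (by positivity) hP0
      · rw [hφs b hb, Complex.ofReal_zero, zero_mul, norm_zero, indicator_of_notMem hb]
    rw [integral_indicator mSR, setIntegral_const, smul_eq_mul, mul_comm] at h1
    exact h1
  have hiL : IntegrableOn (fun w => ‖L w‖) (ball a₀ δ ×ˢ ball a₀ δ)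
      ((volume : Measure V).prod (volume : Measure V)) := by
    refine Measure.integrableOn_of_bounded (M := P * (M * M) * (volume (ball b₀ ρ)).toReal) ?_
      mL.norm.aestronglyMeasurable (ae_restrict_of_forall_mem (mSA.prod mSA) fun w hw => ?_)
    · rw [Measure.prod_prod]; exact ENNReal.mul_ne_top fSA fSA
    · rw [norm_norm]; exact bL w hw
  have e2 : ((∫ b, φ b * ‖H b‖ ^ 2 : ℝ) : ℂ) =
      ∫ w : V × V, (A w.1 * (starRingEnd ℂ) (A w.2)) * L w
        ∂((volume : Measure V).prod (volume : Measure V)) := by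
    rw [← integral_complex_ofReal]
    have e3 : ∀ b, ((φ b * ‖H b‖ ^ 2 : ℝ) : ℂ) = ∫ w : V × V, ((φ b : ℝ) : ℂ) *
        ((A w.1 * K w.1 b) * (starRingEnd ℂ) (A w.2 * K w.2 b))
          ∂((volume : Measure V).prod (volume : Measure V)) := by
      intro b
      rw [integral_const_mul, integral_prod_mul (fun a => A a * K a b)
        (fun a => (starRingEnd ℂ) (A a * K a b)), integral_conj, Complex.mul_conj']
      push_cast
      rfl
    have e4 : ∀ w : V × V, (A w.1 * (starRingEnd ℂ) (A w.2)) * L w = ∫ b, ((φ b : ℝ) : ℂ) *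
        ((A w.1 * K w.1 b) * (starRingEnd ℂ) (A w.2 * K w.2 b)) := by
      intro w
      rw [hL, ← integral_const_mul]
      congr 1; ext b
      rw [map_mul]; ring
    have e3' : (fun b => ((φ b * ‖H b‖ ^ 2 : ℝ) : ℂ)) = fun b => ∫ w : V × V, ((φ b : ℝ) : ℂ) *
        ((A w.1 * K w.1 b) * (starRingEnd ℂ) (A w.2 * K w.2 b))
          ∂((volume : Measure V).prod (volume : Measure V)) := funext e3
    have e4' : (fun w : V × V => (A w.1 * (starRingEnd ℂ) (A w.2)) * L w) =
        fun w => ∫ b, ((φ b : ℝ) : ℂ) *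
        ((A w.1 * K w.1 b) * (starRingEnd ℂ) (A w.2 * K w.2 b)) := funext e4
    rw [e4']
    have e5 : ∫ b, ((φ b * ‖H b‖ ^ 2 : ℝ) : ℂ) = ∫ b, ∫ w : V × V, ((φ b : ℝ) : ℂ) *
        ((A w.1 * K w.1 b) * (starRingEnd ℂ) (A w.2 * K w.2 b))
          ∂((volume : Measure V).prod (volume : Measure V)) := by rw [← e3']
    refine e5.trans ?_
    refine integral_integral_swap ?_
    refine AN7_int _ (ball b₀ ρ ×ˢ (ball a₀ δ ×ˢ ball a₀ δ)) (mSR.prod (mSA.prod mSA)) ?_ _ ?_
      (P * (M * M)) ?_ ?_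
    · rw [Measure.prod_prod, Measure.prod_prod]
      exact ENNReal.mul_ne_top fSR (ENNReal.mul_ne_top fSA fSA)
    · refine Measurable.aestronglyMeasurable ?_
      have m1 : Measurable (fun z : V × (V × V) => A z.2.1 * K z.2.1 z.1) :=
        (hA.comp (measurable_fst.comp measurable_snd)).mul
          (mK.comp ((measurable_fst.comp measurable_snd).prodMk measurable_fst))
      have m2 : Measurable (fun z : V × (V × V) => A z.2.2 * K z.2.2 z.1) :=
        (hA.comp (measurable_snd.comp measurable_snd)).mul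
          (mK.comp ((measurable_snd.comp measurable_snd).prodMk measurable_fst))
      exact (Complex.measurable_ofReal.comp (hφ.measurable.comp measurable_fst)).mul
        (m1.mul (mconj.comp m2))
    · rintro ⟨b, a, a'⟩ ⟨hb, ha, ha'⟩
      simp only [Function.uncurry]
      rw [norm_mul, norm_mul, Complex.norm_real, RCLike.norm_conj, norm_mul, norm_mul]
      have h1 : ‖A a‖ * ‖K a b‖ ≤ M := by
        calc ‖A a‖ * ‖K a b‖ ≤ 1 * M :=
              mul_le_mul (bA a) (hM a ha b (Or.inl hb)) (norm_nonneg _) zero_le_one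
          _ = M := one_mul _
      have h2 : ‖A a'‖ * ‖K a' b‖ ≤ M := by
        calc ‖A a'‖ * ‖K a' b‖ ≤ 1 * M :=
              mul_le_mul (bA a') (hM a' ha' b (Or.inl hb)) (norm_nonneg _) zero_le_one
          _ = M := one_mul _
      exact mul_le_mul (hP b hb) (mul_le_mul h1 h2 (by positivity) hM0) (by positivity) hP0
    · rintro ⟨b, a, a'⟩ h
      simp only [Function.uncurry]
      by_cases hb : b ∈ ball b₀ ρ
      · by_cases ha : a ∈ ball a₀ δ
        · have h0 : A a' = 0 := by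
            by_contra h'; exact h ⟨hb, ha, sA a' h'⟩
          rw [h0, zero_mul, map_zero, mul_zero, mul_zero]
        · have h0 : A a = 0 := by
            by_contra h'; exact ha (sA a h')
          rw [h0, zero_mul, zero_mul, mul_zero]
      · rw [hφs b hb, Complex.ofReal_zero, zero_mul]
  have s4 : ∫ b, φ b * ‖H b‖ ^ 2 ≤ ∫ a in ball a₀ δ, ∫ a' in ball a₀ δ, ‖L (a, a')‖ := by
    calc ∫ b, φ b * ‖H b‖ ^ 2 ≤ ‖((∫ b, φ b * ‖H b‖ ^ 2 : ℝ) : ℂ)‖ := by
          rw [Complex.norm_real]; exact le_abs_self _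
      _ = ‖∫ w : V × V, (A w.1 * (starRingEnd ℂ) (A w.2)) * L w
        ∂((volume : Measure V).prod (volume : Measure V))‖ := by rw [e2]
      _ ≤ ∫ w : V × V, indicator (ball a₀ δ ×ˢ ball a₀ δ) (fun w => ‖L w‖) w
        ∂((volume : Measure V).prod (volume : Measure V)) := by
          refine norm_integral_le_of_norm_le ((integrable_indicator_iff (mSA.prod mSA)).2 hiL)
            (Filter.Eventually.of_forall fun w => ?_)
          by_cases hw : w ∈ ball a₀ δ ×ˢ ball a₀ δ
          · rw [indicator_of_mem hw, norm_mul, norm_mul, RCLike.norm_conj]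
            calc ‖A w.1‖ * ‖A w.2‖ * ‖L w‖ ≤ 1 * 1 * ‖L w‖ := by
                  refine mul_le_mul_of_nonneg_right ?_ (norm_nonneg _)
                  exact mul_le_mul (bA _) (bA _) (norm_nonneg _) zero_le_one
              _ = ‖L w‖ := by ring
          · rw [indicator_of_notMem hw]
            by_cases ha : w.1 ∈ ball a₀ δ
            · have h0 : A w.2 = 0 := by
                by_contra h'; exact hw ⟨ha, sA _ h'⟩
              rw [h0, map_zero, mul_zero, zero_mul, norm_zero]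
            · have h0 : A w.1 = 0 := by
                by_contra h'; exact ha (sA _ h')
              rw [h0, zero_mul, zero_mul, norm_zero]
      _ = ∫ a in ball a₀ δ, ∫ a' in ball a₀ δ, ‖L (a, a')‖ := by
          rw [integral_indicator (mSA.prod mSA), setIntegral_prod _ hiL]
  have hv : (0 : ℝ) ≤ (volume (ball b₀ ρ')).toReal := ENNReal.toReal_nonneg
  calc ‖∫ q : V × V, A q.1 * B q.2 * K q.1 q.2‖ ^ 2 ≤ (∫ b in ball b₀ ρ', ‖H b‖) ^ 2 :=
        pow_le_pow_left₀ (norm_nonneg _) s1 2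
    _ ≤ (volume (ball b₀ ρ')).toReal * ∫ b in ball b₀ ρ', ‖H b‖ ^ 2 := s2
    _ ≤ (volume (ball b₀ ρ')).toReal * ∫ a in ball a₀ δ, ∫ a' in ball a₀ δ, ‖L (a, a')‖ :=
        mul_le_mul_of_nonneg_left (s3.trans s4) hv

end Pool.Agent.SDT.N1

end -- N1.AN7

section -- N1.AN8

/-!
Row [N1-AN8]. The bilinear bound.

Proof. `KK1` or `KK2` (by `hD.di a a'`), constant `C = max`. `TT` with `K = kk lam c F` (continuous: `c`, `F`
continuous, the `s`-integral is over the compact `[-s₁, s₁]` since `c s a b = 0` for `|s| > s₁`: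
`continuous_parametric_intervalIntegral_of_continuous'` or dominated convergence), `ρ' = ρ/2`. Volume of
`ball b₀ (ρ/2)` is independent of `b₀` (`Measure.addHaar_ball_center`). The right side is an integral of
a continuous bounded function of `(a, a')` (`hD.cont`) over a bounded set.
-/

namespace Pool.Agent.SDT.N1

open MeasureTheory Set Metric Pool.Agent.SDT.MST
open scoped ContDiff

private theorem AN8_cont_ex : Continuous ex := by
  unfold ex
  fun_prop

private theorem AN8_cont_kk (lam s₁ : ℝ) (c : ℝ → V → V → ℝ) (F : V → V → ℝ)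
    (hc : Continuous (fun x : ℝ × V × V => c x.1 x.2.1 x.2.2))
    (hF : Continuous (fun x : V × V => F x.1 x.2))
    (hs : ∀ s a b, c s a b ≠ 0 → |s| ≤ s₁) :
    Continuous (fun x : V × V => kk lam c F x.1 x.2) := by
  have h1 : (fun x : V × V => kk lam c F x.1 x.2) =
      fun x : V × V => ∫ s in Icc (-s₁) s₁, ((c s x.1 x.2 : ℝ) : ℂ) * ex (lam * (s * F x.1 x.2)) := by
    funext x
    unfold kk
    symm
    apply setIntegral_eq_integral_of_forall_compl_eq_zero
    intro s hsn
    have : c s x.1 x.2 = 0 := by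
      by_contra hne
      exact hsn (abs_le.mp (hs s x.1 x.2 hne))
    simp [this]
  rw [h1]
  apply continuous_parametric_integral_of_continuous _ isCompact_Icc
  have hc' : Continuous (fun p : (V × V) × ℝ => c p.2 p.1.1 p.1.2) :=
    hc.comp (by fun_prop : Continuous (fun p : (V × V) × ℝ => (p.2, p.1.1, p.1.2)))
  have hF' : Continuous (fun p : (V × V) × ℝ => F p.1.1 p.1.2) :=
    hF.comp (by fun_prop : Continuous (fun p : (V × V) × ℝ => (p.1.1, p.1.2)))
  have h2 : Continuous (fun p : (V × V) × ℝ =>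
      ((c p.2 p.1.1 p.1.2 : ℝ) : ℂ) * ex (lam * (p.2 * F p.1.1 p.1.2))) := by
    refine (Complex.continuous_ofReal.comp hc').mul (AN8_cont_ex.comp ?_)
    exact continuous_const.mul (continuous_snd.mul hF')
  exact h2

private theorem AN8_int (S : Set V) (hS : Bornology.IsBounded S) (g : V × V → ℝ)
    (hg : Continuous g) : Integrable g ((volume.restrict S).prod (volume.restrict S)) := by
  rw [Measure.prod_restrict]
  have hK : IsCompact (closure S ×ˢ closure S) :=
    (hS.isCompact_closure).prod (hS.isCompact_closure)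
  have := hg.continuousOn.integrableOn_compact (μ := (volume : Measure V).prod volume) hK
  exact this.mono_set (Set.prod_mono subset_closure subset_closure)

private theorem AN8_mono (S : Set V) (hS : Bornology.IsBounded S) (hm : MeasurableSet S)
    (N g : V → V → ℝ) (hN : ∀ a a', 0 ≤ N a a') (hg : Continuous (fun x : V × V => g x.1 x.2))
    (h : ∀ a ∈ S, ∀ a' ∈ S, N a a' ≤ g a a') :
    ∫ a in S, ∫ a' in S, N a a' ≤ ∫ a in S, ∫ a' in S, g a a' := by
  have hint := (AN8_int S hS _ hg).integral_prod_left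
  refine integral_mono_of_nonneg ?_ hint ?_
  · exact Filter.Eventually.of_forall fun a => integral_nonneg fun a' => hN a a'
  · rw [Filter.EventuallyLE, ae_restrict_iff' hm]
    refine Filter.Eventually.of_forall fun a ha => ?_
    have hI : IntegrableOn (fun a' : V => g a a') S volume := by
      have hc2 : Continuous (fun a' : V => g a a') := hg.comp (Continuous.prodMk_right a)
      exact (hc2.continuousOn.integrableOn_compact hS.isCompact_closure).mono_set subset_closure
    refine integral_mono_of_nonneg ?_ hI ?_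
    · exact Filter.Eventually.of_forall fun a' => hN a a'
    · rw [Filter.EventuallyLE, ae_restrict_iff' hm]
      exact Filter.Eventually.of_forall fun a' ha' => h a ha a' ha'

private theorem AN8_haar : (volume : Measure V).IsAddHaarMeasure := by
  have h2 : (volume : Measure (ℝ × ℝ)).IsAddHaarMeasure :=
    (inferInstance : ((volume : Measure ℝ).prod (volume : Measure ℝ)).IsAddHaarMeasure)
  exact (inferInstance : ((volume : Measure ℝ).prod (volume : Measure (ℝ × ℝ))).IsAddHaarMeasure)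

theorem bil (c₀ C₀ ρ s₀ s₁ : ℝ) (hc : 0 < c₀) (hρ : 0 < ρ) : ∃ C : ℝ, 0 ≤ C ∧
    ∀ (F : V → V → ℝ) (D : V → V → ℝ) (a₀ b₀ : V) (δ : ℝ) (c : ℝ → V → V → ℝ) (φ : V → ℝ),
      Dich F D (ball a₀ δ) b₀ ρ c₀ C₀ s₀ s₁ → Ampl c φ (ball a₀ δ) b₀ ρ C₀ s₀ s₁ →
      ∀ lam : ℝ, 0 < lam → ∀ A B : V → ℂ, Measurable A → Measurable B → (∀ a, ‖A a‖ ≤ 1) →
      (∀ b, ‖B b‖ ≤ 1) → (∀ a, A a ≠ 0 → a ∈ ball a₀ δ) →
      (∀ b, B b ≠ 0 → b ∈ ball b₀ (ρ / 2)) →
      ‖∫ q : V × V, A q.1 * B q.2 * kk lam c F q.1 q.2‖ ^ 2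
        ≤ C / lam * ∫ a in ball a₀ δ, ∫ a' in ball a₀ δ, 1 / (1 + lam * D a a') ^ 6 := by
  obtain ⟨C1, hC1, H1⟩ := KK1 c₀ C₀ ρ s₀ s₁ hc hρ
  obtain ⟨C2, hC2, H2⟩ := KK2 c₀ C₀ ρ s₀ s₁ hc hρ
  refine ⟨(volume (ball (0 : V) (ρ / 2))).toReal * max C1 C2,
    mul_nonneg ENNReal.toReal_nonneg (le_max_of_le_left hC1), ?_⟩
  intro F D a₀ b₀ δ c φ hD hA lam hlam A B mA mB bA bB sA sB
  have hcont : Continuous (fun x : V × V => kk lam c F x.1 x.2) :=
    AN8_cont_kk lam s₁ c F hA.smooth.continuous hD.smooth.continuous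
      (fun s a b h => (hA.supp s a b h).2)
  have hTT := TT (kk lam c F) hcont φ hA.smoothφ.continuous a₀ b₀ δ ρ (ρ / 2) hA.nonneg hA.oneφ
    hA.suppφ A B mA mB bA bB sA sB
  have hvol : (volume (ball b₀ (ρ / 2))).toReal = (volume (ball (0 : V) (ρ / 2))).toReal := by
    have := AN8_haar
    rw [Measure.addHaar_ball_center]
  rw [hvol] at hTT
  refine hTT.trans ?_
  rw [mul_div_assoc, mul_assoc]
  refine mul_le_mul_of_nonneg_left ?_ ENNReal.toReal_nonneg
  -- kernel bound
  have hker : ∀ a ∈ ball a₀ δ, ∀ a' ∈ ball a₀ δ,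
      ‖∫ b : V, ((φ b : ℝ) : ℂ) * (kk lam c F a b * (starRingEnd ℂ) (kk lam c F a' b))‖ ≤
        max C1 C2 / lam * (1 / (1 + lam * D a a') ^ 6) := by
    intro a ha a' ha'
    have hpos : 0 < (1 + lam * D a a') ^ 6 := by
      have : 0 ≤ lam * D a a' := mul_nonneg hlam.le (hD.nonneg a a')
      positivity
    rw [mul_one_div]
    rcases hD.di a ha a' ha' with h | h
    · refine (H1 F D (ball a₀ δ) b₀ c φ hD hA lam hlam a ha a' ha' h).trans ?_
      gcongr
      exact le_max_left _ _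
    · refine (H2 F D (ball a₀ δ) b₀ c φ hD hA lam hlam a ha a' ha' h).trans ?_
      gcongr
      exact le_max_right _ _
  have hgc : Continuous (fun x : V × V => max C1 C2 / lam * (1 / (1 + lam * D x.1 x.2) ^ 6)) := by
    refine continuous_const.mul (Continuous.div continuous_const ?_ ?_)
    · exact (continuous_const.add (continuous_const.mul hD.cont)).pow 6
    · intro x
      have : 0 ≤ lam * D x.1 x.2 := mul_nonneg hlam.le (hD.nonneg x.1 x.2)
      positivity
  have hmono := AN8_mono (ball a₀ δ) isBounded_ball measurableSet_ball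
    (fun a a' => ‖∫ b : V, ((φ b : ℝ) : ℂ) * (kk lam c F a b * (starRingEnd ℂ) (kk lam c F a' b))‖)
    (fun a a' => max C1 C2 / lam * (1 / (1 + lam * D a a') ^ 6))
    (fun a a' => norm_nonneg _) hgc hker
  refine hmono.trans (le_of_eq ?_)
  rw [← integral_const_mul]
  congr 1
  funext a
  rw [← integral_const_mul]

end Pool.Agent.SDT.N1

end -- N1.AN8
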