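import Pool.Agent.SDT.B03

set_option autoImplicit false


section -- N1E.E2

set_option autoImplicit false

namespace Pool.Agent.SDT.N1E

open MeasureTheory Set

theorem dom_ab {c a b : ℝ} (hc : 0 < c) (h : Dom c a b) : c / 2 ≤ a ∧ a ≤ 1 ∧ c / 2 ≤ b ∧ b ≤ 1 ∧
    c ^ 2 / 4 ≤ 1 - a ^ 2 ∧ c ^ 2 / 4 ≤ 1 - b ^ 2 ∧ 1 - a ^ 2 ≤ 1 ∧ 1 - b ^ 2 ≤ 1 := by
  obtain ⟨h1, h2, h3⟩ := h
  have h4 : c ^ 2 / 4 ≤ a ^ 2 := by nlinarith
  have h5 : c ^ 2 / 4 ≤ b ^ 2 := by nlinarith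
  refine ⟨h1, ?_, h2, ?_, by nlinarith, by nlinarith, by nlinarith, by nlinarith⟩
  · nlinarith
  · nlinarith

theorem dom_q {c a b : ℝ} (hc : 0 < c) (h : Dom c a b) : c / 3 ≤ qf a b ∧ qf a b ≤ 1 ∧
    qf a b ^ 2 = 1 - a ^ 2 - b ^ 2 := by
  have h3 := h.2.2
  unfold qf
  refine ⟨?_, ?_, Real.sq_sqrt (by nlinarith)⟩
  · refine Real.le_sqrt_of_sq_le ?_
    nlinarith
  · rw [Real.sqrt_le_one]
    nlinarith [sq_nonneg a, sq_nonneg b]

/-- the region is convex -/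
theorem dom_seg {c a b a' b' u : ℝ} (h : Dom c a b) (h' : Dom c a' b') (hu : u ∈ Icc (0:ℝ) 1) :
    Dom c (a + u * (a' - a)) (b + u * (b' - b)) := by
  obtain ⟨h1, h2, h3⟩ := h
  obtain ⟨h1', h2', h3'⟩ := h'
  obtain ⟨u0, u1⟩ := hu
  refine ⟨by nlinarith, by nlinarith, ?_⟩
  have e : (a + u * (a' - a)) ^ 2 + (b + u * (b' - b)) ^ 2 =
      (1 - u) * (a ^ 2 + b ^ 2) + u * (a' ^ 2 + b' ^ 2) -
        u * (1 - u) * ((a' - a) ^ 2 + (b' - b) ^ 2) := by ring
  rw [e]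
  have h4 : 0 ≤ u * (1 - u) * ((a' - a) ^ 2 + (b' - b) ^ 2) := by
    have : 0 ≤ 1 - u := by linarith
    positivity
  nlinarith

/-- exact formula for the difference of `sf` -/
theorem sf_sub {c a b a' b' : ℝ} (hc : 0 < c) (h : Dom c a b) (h' : Dom c a' b') :
    sf a b - sf a' b' = ((a - a') * qf a' b' + a' * (((a - a') * (a + a') +
      (b - b') * (b + b')) / (qf a b + qf a' b'))) / (qf a b * qf a' b') := by
  obtain ⟨q1, -, q2⟩ := dom_q hc h
  obtain ⟨q1', -, q2'⟩ := dom_q hc h'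
  have hq : 0 < qf a b := by linarith
  have hq' : 0 < qf a' b' := by linarith
  unfold sf
  have e : (a - a') * (a + a') + (b - b') * (b + b') =
      (qf a' b' - qf a b) * (qf a b + qf a' b') := by
    have : (qf a' b' - qf a b) * (qf a b + qf a' b') = qf a' b' ^ 2 - qf a b ^ 2 := by ring
    rw [this, q2, q2']
    ring
  rw [e, mul_div_assoc, div_self (by positivity)]
  field_simp
  ring

/-- the same for `rf` -/
theorem rf_sub {c a b a' b' : ℝ} (hc : 0 < c) (h : Dom c a b) (h' : Dom c a' b') :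
    rf a b - rf a' b' = ((b - b') * qf a' b' + b' * (((a - a') * (a + a') +
      (b - b') * (b + b')) / (qf a b + qf a' b'))) / (qf a b * qf a' b') := by
  obtain ⟨q1, -, q2⟩ := dom_q hc h
  obtain ⟨q1', -, q2'⟩ := dom_q hc h'
  have hq : 0 < qf a b := by linarith
  have hq' : 0 < qf a' b' := by linarith
  unfold rf
  have e : (a - a') * (a + a') + (b - b') * (b + b') =
      (qf a' b' - qf a b) * (qf a b + qf a' b') := by
    have : (qf a' b' - qf a b) * (qf a b + qf a' b') = qf a' b' ^ 2 - qf a b ^ 2 := by ring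
    rw [this, q2, q2']
    ring
  rw [e, mul_div_assoc, div_self (by positivity)]
  field_simp
  ring

theorem qf_comm (a b : ℝ) : qf a b = qf b a := by
  unfold qf
  congr 1
  ring

theorem rf_eq (a b : ℝ) : rf a b = sf b a := by
  unfold rf sf
  rw [qf_comm]

theorem dom_swap {c a b : ℝ} (h : Dom c a b) : Dom c b a :=
  ⟨h.2.1, h.1, by linarith [h.2.2]⟩

/-- upper bound for the difference of `sf` -/
theorem sf_le {c a b a' b' : ℝ} (hc : 0 < c) (hc1 : c ≤ 1) (h : Dom c a b) (h' : Dom c a' b') :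
    |sf a b - sf a' b'| ≤ 36 / c ^ 3 * (|a - a'| + |b - b'|) := by
  obtain ⟨q1, q3, -⟩ := dom_q hc h
  obtain ⟨q1', q3', -⟩ := dom_q hc h'
  obtain ⟨a1, a2, b1, b2, -, -, -, -⟩ := dom_ab hc h
  obtain ⟨a1', a2', b1', b2', -, -, -, -⟩ := dom_ab hc h'
  have hq : 0 < qf a b := by linarith
  have hq' : 0 < qf a' b' := by linarith
  rw [sf_sub hc h h', abs_div, abs_of_pos (mul_pos hq hq')]
  have hx := abs_nonneg (a - a')
  have hy := abs_nonneg (b - b')
  have e1 : |(a - a') * qf a' b'| ≤ |a - a'| := by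
    rw [abs_mul, abs_of_pos hq']
    exact mul_le_of_le_one_right hx q3'
  have e2 : |(a - a') * (a + a') + (b - b') * (b + b')| ≤ 2 * (|a - a'| + |b - b'|) := by
    refine (abs_add_le _ _).trans ?_
    rw [abs_mul, abs_mul, abs_of_nonneg (show 0 ≤ a + a' by linarith),
      abs_of_nonneg (show 0 ≤ b + b' by linarith)]
    nlinarith
  have e3 : |a' * (((a - a') * (a + a') + (b - b') * (b + b')) / (qf a b + qf a' b'))| ≤
      3 / c * (|a - a'| + |b - b'|) := by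
    rw [abs_mul, abs_div, abs_of_pos (add_pos hq hq'), abs_of_pos (show 0 < a' by linarith)]
    have e4 : |(a - a') * (a + a') + (b - b') * (b + b')| / (qf a b + qf a' b') ≤
        2 * (|a - a'| + |b - b'|) / (2 * c / 3) := by
      refine div_le_div₀ (by positivity) e2 (by positivity) (by linarith)
    calc a' * (|(a - a') * (a + a') + (b - b') * (b + b')| / (qf a b + qf a' b')) ≤
        1 * (2 * (|a - a'| + |b - b'|) / (2 * c / 3)) := by
          refine mul_le_mul a2' e4 (by positivity) zero_le_one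
      _ = 3 / c * (|a - a'| + |b - b'|) := by
          field_simp
  have e5 : |(a - a') * qf a' b' + a' * (((a - a') * (a + a') +
      (b - b') * (b + b')) / (qf a b + qf a' b'))| ≤ 4 / c * (|a - a'| + |b - b'|) := by
    refine (abs_add_le _ _).trans ?_
    have e6 : |a - a'| ≤ 1 / c * (|a - a'| + |b - b'|) := by
      have : (1:ℝ) ≤ 1 / c := by
        rw [le_div_iff₀ hc]
        linarith
      nlinarith
    calc _ ≤ 1 / c * (|a - a'| + |b - b'|) + 3 / c * (|a - a'| + |b - b'|) := by linarith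
      _ = _ := by ring
  have e7 : c ^ 2 / 9 ≤ qf a b * qf a' b' := by nlinarith
  calc _ ≤ 4 / c * (|a - a'| + |b - b'|) / (c ^ 2 / 9) := by
        refine div_le_div₀ (by positivity) e5 (by positivity) e7
    _ = _ := by
        field_simp
        ring

theorem rf_le {c a b a' b' : ℝ} (hc : 0 < c) (hc1 : c ≤ 1) (h : Dom c a b) (h' : Dom c a' b') :
    |rf a b - rf a' b'| ≤ 36 / c ^ 3 * (|a - a'| + |b - b'|) := by
  rw [rf_eq, rf_eq, add_comm |a - a'|]
  exact sf_le hc hc1 (dom_swap h) (dom_swap h')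

/-- lower bound for the difference of `sf`, direction `a` -/
theorem sf_ge {c a b a' b' : ℝ} (hc : 0 < c) (h : Dom c a b) (h' : Dom c a' b') :
    |a - a'| - 27 / c ^ 3 * |b - b'| ≤ |sf a b - sf a' b'| := by
  obtain ⟨q1, q3, -⟩ := dom_q hc h
  obtain ⟨q1', q3', -⟩ := dom_q hc h'
  obtain ⟨a1, a2, b1, b2, -, -, -, -⟩ := dom_ab hc h
  obtain ⟨a1', a2', b1', b2', -, -, -, -⟩ := dom_ab hc h'
  have hq : 0 < qf a b := by linarith
  have hq' : 0 < qf a' b' := by linarith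
  have hx := abs_nonneg (a - a')
  have hy := abs_nonneg (b - b')
  have e0 : sf a b - sf a' b' = (a - a') * ((qf a' b' + a' * (a + a') / (qf a b + qf a' b')) /
      (qf a b * qf a' b')) + (b - b') * (a' * (b + b') / ((qf a b + qf a' b') *
      (qf a b * qf a' b'))) := by
    rw [sf_sub hc h h']
    field_simp
    ring
  have e1 : 1 ≤ (qf a' b' + a' * (a + a') / (qf a b + qf a' b')) / (qf a b * qf a' b') := by
    rw [le_div_iff₀ (by positivity), one_mul]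
    have : 0 ≤ a' * (a + a') / (qf a b + qf a' b') := by
      have : 0 ≤ a' * (a + a') := by nlinarith
      positivity
    nlinarith
  have e2 : a' * (b + b') / ((qf a b + qf a' b') * (qf a b * qf a' b')) ≤ 27 / c ^ 3 := by
    have e3 : a' * (b + b') ≤ 2 := by nlinarith
    have e4 : 2 * c / 3 * (c ^ 2 / 9) ≤ (qf a b + qf a' b') * (qf a b * qf a' b') := by
      refine mul_le_mul (by linarith) (by nlinarith) (by positivity) (by positivity)
    calc _ ≤ 2 / (2 * c / 3 * (c ^ 2 / 9)) := div_le_div₀ (by norm_num) e3 (by positivity) e4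
      _ = _ := by
          field_simp
          ring
  have e2' : 0 ≤ a' * (b + b') / ((qf a b + qf a' b') * (qf a b * qf a' b')) := by
    have : 0 ≤ a' * (b + b') := by nlinarith
    positivity
  rw [e0]
  refine le_trans ?_ (abs_sub_abs_le_abs_add _ _)
  rw [abs_mul, abs_mul, abs_of_nonneg e2', abs_of_nonneg (zero_le_one.trans e1)]
  nlinarith

/-- lower bound for the difference of `rf`, direction `a` -/
theorem rf_ge {c a b a' b' : ℝ} (hc : 0 < c) (hc1 : c ≤ 1) (h : Dom c a b) (h' : Dom c a' b') :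
    c ^ 2 / 4 * |a - a'| - 30 / c ^ 3 * |b - b'| ≤ |rf a b - rf a' b'| := by
  obtain ⟨q1, q3, -⟩ := dom_q hc h
  obtain ⟨q1', q3', -⟩ := dom_q hc h'
  obtain ⟨a1, a2, b1, b2, -, -, -, -⟩ := dom_ab hc h
  obtain ⟨a1', a2', b1', b2', -, -, -, -⟩ := dom_ab hc h'
  have hq : 0 < qf a b := by linarith
  have hq' : 0 < qf a' b' := by linarith
  have hx := abs_nonneg (a - a')
  have hy := abs_nonneg (b - b')
  have e0 : rf a b - rf a' b' = (a - a') * (b' * (a + a') / ((qf a b + qf a' b') *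
      (qf a b * qf a' b'))) + (b - b') * (1 / qf a b + b' * (b + b') / ((qf a b + qf a' b') *
      (qf a b * qf a' b'))) := by
    rw [rf_sub hc h h']
    field_simp
    ring
  have e1 : c ^ 2 / 4 ≤ b' * (a + a') / ((qf a b + qf a' b') * (qf a b * qf a' b')) := by
    have e3 : c ^ 2 / 2 ≤ b' * (a + a') := by nlinarith
    have e5 : qf a b * qf a' b' ≤ 1 := by nlinarith
    have e4 : (qf a b + qf a' b') * (qf a b * qf a' b') ≤ 2 := by nlinarith [mul_pos hq hq']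
    calc c ^ 2 / 4 = c ^ 2 / 2 / 2 := by ring
      _ ≤ _ := div_le_div₀ (by nlinarith) e3 (by positivity) e4
  have e2 : b' * (b + b') / ((qf a b + qf a' b') * (qf a b * qf a' b')) ≤ 27 / c ^ 3 := by
    have e3 : b' * (b + b') ≤ 2 := by nlinarith
    have e4 : 2 * c / 3 * (c ^ 2 / 9) ≤ (qf a b + qf a' b') * (qf a b * qf a' b') := by
      refine mul_le_mul (by linarith) (by nlinarith) (by positivity) (by positivity)
    calc _ ≤ 2 / (2 * c / 3 * (c ^ 2 / 9)) := div_le_div₀ (by norm_num) e3 (by positivity) e4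
      _ = _ := by
          field_simp
          ring
  have e2' : 0 ≤ b' * (b + b') / ((qf a b + qf a' b') * (qf a b * qf a' b')) := by
    have : 0 ≤ b' * (b + b') := by nlinarith
    positivity
  have e6 : 1 / qf a b ≤ 3 / c ^ 3 := by
    rw [div_le_div_iff₀ hq (by positivity)]
    have : c ^ 3 ≤ c := by nlinarith [mul_pos hc hc]
    nlinarith
  have e7 : 0 ≤ 1 / qf a b + b' * (b + b') / ((qf a b + qf a' b') * (qf a b * qf a' b')) := by
    positivity
  have e8 : 1 / qf a b + b' * (b + b') / ((qf a b + qf a' b') * (qf a b * qf a' b')) ≤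
      30 / c ^ 3 := by
    calc _ ≤ 3 / c ^ 3 + 27 / c ^ 3 := add_le_add e6 e2
      _ = _ := by ring
  rw [e0]
  refine le_trans ?_ (abs_sub_abs_le_abs_add _ _)
  rw [abs_mul, abs_mul, abs_of_nonneg e7, abs_of_nonneg ((by positivity : (0:ℝ) ≤ c ^ 2 / 4).trans e1)]
  nlinarith

end Pool.Agent.SDT.N1E

end -- N1E.E2

section -- N1E.E3

set_option autoImplicit false

namespace Pool.Agent.SDT.N1E

open MeasureTheory Set

/-- the separated form of the difference of `sf` -/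
theorem sf_NN {c y1 y2 a b : ℝ} (hc : 0 < c) (h : Dom c a b) (h' : Dom c (a - y1) (b - y2)) :
    ∃ l : ℝ, c ^ 5 / 96 ≤ l ∧ l ≤ 81 / c ^ 5 ∧
      sf a b - sf (a - y1) (b - y2) = l * NN y1 y2 a b := by
  obtain ⟨q1, q3, q2⟩ := dom_q hc h
  obtain ⟨q1', q3', q2'⟩ := dom_q hc h'
  obtain ⟨a1, a2, b1, b2, -, -, -, -⟩ := dom_ab hc h
  obtain ⟨a1', a2', b1', b2', a3', b3', -, b4'⟩ := dom_ab hc h'
  have hq : 0 < qf a b := by linarith
  have hq' : 0 < qf (a - y1) (b - y2) := by linarith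
  have ha : 0 < a := by linarith
  have ha' : 0 < a - y1 := by linarith
  have hb' : 0 < 1 - (b - y2) ^ 2 := lt_of_lt_of_le (by positivity) b3'
  set q := qf a b with hqd
  set q' := qf (a - y1) (b - y2) with hqd'
  have hs : sf a b = a / q := rfl
  have hs' : sf (a - y1) (b - y2) = (a - y1) / q' := rfl
  have hsp : 0 < a / q := div_pos ha hq
  have hsp' : 0 < (a - y1) / q' := div_pos ha' hq'
  refine ⟨(a - y1) ^ 2 * (1 - (b - y2) ^ 2) / (q ^ 2 * q' ^ 2 * (a / q + (a - y1) / q')),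
    ?_, ?_, ?_⟩
  · have e1 : a / q ≤ 3 / c := by
      rw [div_le_div_iff₀ hq hc]
      nlinarith
    have e1' : (a - y1) / q' ≤ 3 / c := by
      rw [div_le_div_iff₀ hq' hc]
      nlinarith
    have e2 : c ^ 2 / 4 * (c ^ 2 / 4) ≤ (a - y1) ^ 2 * (1 - (b - y2) ^ 2) := by
      refine mul_le_mul (by nlinarith) b3' (by positivity) (by positivity)
    have e3 : q ^ 2 * q' ^ 2 * (a / q + (a - y1) / q') ≤ 6 / c := by
      have e4 : q ^ 2 ≤ 1 := pow_le_one₀ hq.le q3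
      have e4' : q' ^ 2 ≤ 1 := pow_le_one₀ hq'.le q3'
      have e5 : q ^ 2 * q' ^ 2 ≤ 1 := mul_le_one₀ e4 (by positivity) e4'
      calc _ ≤ 1 * (3 / c + 3 / c) := mul_le_mul e5 (add_le_add e1 e1') (by positivity) zero_le_one
        _ = 6 / c := by ring
    calc c ^ 5 / 96 = c ^ 2 / 4 * (c ^ 2 / 4) / (6 / c) := by
          field_simp
          ring
      _ ≤ _ := div_le_div₀ (by positivity) e2 (by positivity) e3
  · have e1 : c / 2 ≤ a / q := by
      rw [le_div_iff₀ hq]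
      nlinarith
    have e1' : c / 2 ≤ (a - y1) / q' := by
      rw [le_div_iff₀ hq']
      nlinarith
    have e2 : (a - y1) ^ 2 * (1 - (b - y2) ^ 2) ≤ 1 := by
      refine mul_le_one₀ (pow_le_one₀ ha'.le a2') hb'.le b4'
    have e3 : (c / 3) ^ 2 * (c / 3) ^ 2 * (c / 2 + c / 2) ≤
        q ^ 2 * q' ^ 2 * (a / q + (a - y1) / q') := by
      refine mul_le_mul (mul_le_mul (pow_le_pow_left₀ (by positivity) q1 2)
        (pow_le_pow_left₀ (by positivity) q1' 2) (by positivity) (by positivity))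
        (add_le_add e1 e1') (by positivity) (by positivity)
    calc _ ≤ 1 / ((c / 3) ^ 2 * (c / 3) ^ 2 * (c / 2 + c / 2)) :=
          div_le_div₀ zero_le_one e2 (by positivity) e3
      _ = 81 / c ^ 5 := by
          field_simp
          ring
  · rw [hs, hs']
    have e1 : NN y1 y2 a b = (a ^ 2 * (1 - (b - y2) ^ 2) - (a - y1) ^ 2 * (1 - b ^ 2)) /
        ((a - y1) ^ 2 * (1 - (b - y2) ^ 2)) := by
      unfold NN om sg
      field_simp
    have e2 : (a / q) ^ 2 - ((a - y1) / q') ^ 2 =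
        (a ^ 2 * (1 - (b - y2) ^ 2) - (a - y1) ^ 2 * (1 - b ^ 2)) / (q ^ 2 * q' ^ 2) := by
      have e3 : a ^ 2 * (1 - (b - y2) ^ 2) - (a - y1) ^ 2 * (1 - b ^ 2) =
          a ^ 2 * q' ^ 2 - (a - y1) ^ 2 * q ^ 2 := by
        rw [q2, q2']
        ring
      rw [e3]
      field_simp
    have e4 : a / q - (a - y1) / q' = ((a / q) ^ 2 - ((a - y1) / q') ^ 2) /
        (a / q + (a - y1) / q') := by
      rw [eq_div_iff (by positivity)]
      ring
    rw [e4, e2, e1]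
    have h5 : (a - y1) ^ 2 * (1 - (b - y2) ^ 2) ≠ 0 := by positivity
    have h6 : a / q + (a - y1) / q' ≠ 0 := by positivity
    rw [div_div, div_mul_div_comm, mul_comm ((a - y1) ^ 2 * (1 - (b - y2) ^ 2))
      (a ^ 2 * (1 - (b - y2) ^ 2) - (a - y1) ^ 2 * (1 - b ^ 2)), mul_div_mul_right _ _ h5]

/-- `om` is strictly monotone in `a` -/
theorem om_sub {c y a a' : ℝ} (hc : 0 < c) (h1 : c / 2 ≤ a) (h2 : a ≤ 1) (h1' : c / 2 ≤ a')
    (h2' : a' ≤ 1) (h3 : c / 2 ≤ a - y) (h4 : a - y ≤ 1) (h3' : c / 2 ≤ a' - y)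
    (h4' : a' - y ≤ 1) (h0 : 0 ≤ y * (a' - a)) : c * (y * (a' - a)) ≤ om y a - om y a' := by
  have p1 : 0 < a - y := by linarith
  have p2 : 0 < a' - y := by linarith
  have e : om y a - om y a' = (y * (a' - a) / ((a - y) * (a' - y))) *
      (a / (a - y) + a' / (a' - y)) := by
    unfold om
    field_simp
    ring
  rw [e]
  have e1 : y * (a' - a) ≤ y * (a' - a) / ((a - y) * (a' - y)) := by
    rw [le_div_iff₀ (by positivity)]
    have : (a - y) * (a' - y) ≤ 1 := mul_le_one₀ h4 p2.le h4'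
    nlinarith
  have e2 : c / 2 ≤ a / (a - y) := by
    rw [le_div_iff₀ p1]
    nlinarith
  have e3 : c / 2 ≤ a' / (a' - y) := by
    rw [le_div_iff₀ p2]
    nlinarith
  calc c * (y * (a' - a)) = y * (a' - a) * c := by ring
    _ ≤ y * (a' - a) / ((a - y) * (a' - y)) * (a / (a - y) + a' / (a' - y)) := by
        refine mul_le_mul e1 (by linarith) hc.le (h0.trans e1)

/-- `om` is Lipschitz in `a` -/
theorem om_le {c y a a' : ℝ} (hc : 0 < c) (h1 : c / 2 ≤ a) (h2 : a ≤ 1) (h1' : c / 2 ≤ a')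
    (h2' : a' ≤ 1) (h3 : c / 2 ≤ a - y) (h4 : a - y ≤ 1) (h3' : c / 2 ≤ a' - y)
    (h4' : a' - y ≤ 1) : |om y a - om y a'| ≤ 16 / c ^ 3 * (|y| * |a - a'|) := by
  have p1 : 0 < a - y := by linarith
  have p2 : 0 < a' - y := by linarith
  have p3 : 0 < a := by linarith
  have p4 : 0 < a' := by linarith
  have e : om y a - om y a' = (y * (a' - a)) * ((a / (a - y) + a' / (a' - y)) /
      ((a - y) * (a' - y))) := by
    unfold om
    field_simp
    ring
  rw [e, abs_mul, abs_mul, abs_sub_comm a' a]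
  have e2 : a / (a - y) ≤ 2 / c := by
    rw [div_le_div_iff₀ p1 hc]
    nlinarith
  have e3 : a' / (a' - y) ≤ 2 / c := by
    rw [div_le_div_iff₀ p2 hc]
    nlinarith
  have e4 : |(a / (a - y) + a' / (a' - y)) / ((a - y) * (a' - y))| ≤ 16 / c ^ 3 := by
    rw [abs_of_nonneg (by positivity)]
    have e5 : c / 2 * (c / 2) ≤ (a - y) * (a' - y) := mul_le_mul h3 h3' (by positivity) p1.le
    calc _ ≤ (2 / c + 2 / c) / (c / 2 * (c / 2)) :=
          div_le_div₀ (by positivity) (add_le_add e2 e3) (by positivity) e5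
      _ = _ := by
          field_simp
          ring
  have := mul_nonneg (abs_nonneg y) (abs_nonneg (a - a'))
  nlinarith

/-- `sg` is Lipschitz in `b` -/
theorem sg_le {c y b b' : ℝ} (hc : 0 < c) (h1 : c / 2 ≤ b) (h2 : b ≤ 1) (h1' : c / 2 ≤ b')
    (h2' : b' ≤ 1) (h3 : c / 2 ≤ b - y) (h4 : b - y ≤ 1) (h3' : c / 2 ≤ b' - y)
    (h4' : b' - y ≤ 1) (h5 : c ^ 2 / 4 ≤ 1 - (b - y) ^ 2) (h5' : c ^ 2 / 4 ≤ 1 - (b' - y) ^ 2) :
    |sg y b - sg y b'| ≤ 64 / c ^ 4 * (|y| * |b - b'|) := by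
  have p1 : 0 < 1 - (b - y) ^ 2 := lt_of_lt_of_le (by positivity) h5
  have p2 : 0 < 1 - (b' - y) ^ 2 := lt_of_lt_of_le (by positivity) h5'
  have e : sg y b - sg y b' = -(y * (b - b')) * ((2 + b * (b' - y) + b' * (b - y)) /
      ((1 - (b - y) ^ 2) * (1 - (b' - y) ^ 2))) := by
    unfold sg
    rw [div_sub_div _ _ p1.ne' p2.ne', ← mul_div_assoc]
    congr 1
    ring
  rw [e, abs_mul, abs_neg, abs_mul]
  have e1 : 0 ≤ 2 + b * (b' - y) + b' * (b - y) := by
    have : 0 ≤ b * (b' - y) := mul_nonneg (by linarith) (by linarith)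
    have : 0 ≤ b' * (b - y) := mul_nonneg (by linarith) (by linarith)
    linarith
  have e2 : 2 + b * (b' - y) + b' * (b - y) ≤ 4 := by nlinarith
  have e4 : |(2 + b * (b' - y) + b' * (b - y)) / ((1 - (b - y) ^ 2) * (1 - (b' - y) ^ 2))| ≤
      64 / c ^ 4 := by
    rw [abs_of_nonneg (by positivity)]
    have e5 : c ^ 2 / 4 * (c ^ 2 / 4) ≤ (1 - (b - y) ^ 2) * (1 - (b' - y) ^ 2) :=
      mul_le_mul h5 h5' (by positivity) p1.le
    calc _ ≤ 4 / (c ^ 2 / 4 * (c ^ 2 / 4)) := div_le_div₀ (by norm_num) e2 (by positivity) e5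
      _ = _ := by
          field_simp
          ring
  have := mul_nonneg (abs_nonneg y) (abs_nonneg (b - b'))
  nlinarith

/-- points of the segment -/
theorem seg1 {c : ℝ} {w : P6} (h : In4 c w) {u : ℝ} (hu : u ∈ Icc (0:ℝ) 1) :
    Dom c (w.1.2.1 - u * w.1.2.2) (w.2.2.1 - u * w.2.2.2) := by
  have := dom_seg h.p1 h.p3 hu
  convert this using 1 <;> ring

theorem seg2 {c : ℝ} {w : P6} (h : In4 c w) {u : ℝ} (hu : u ∈ Icc (0:ℝ) 1) :
    Dom c (w.1.2.1 - u * w.1.2.2 - w.1.1) (w.2.2.1 - u * w.2.2.2 - w.2.1) := by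
  have := dom_seg h.p2 h.p4 hu
  convert this using 1 <;> ring

/-- the difference of `NN` along the segment: lower bound -/
theorem NN_mono {c : ℝ} (hc : 0 < c) {w : P6} (h : In4 c w) {A : ℝ}
    (hA : A + 64 / c ^ 4 * (|w.2.1| * |w.2.2.2|) ≤ c * (|w.1.1| * |w.1.2.2|)) :
    ∃ s : ℝ, (s = 1 ∨ s = -1) ∧ ∀ u ∈ Icc (0:ℝ) 1, ∀ u' ∈ Icc (0:ℝ) 1, u ≤ u' →
      A * (u' - u) ≤ s * (NNu w u' - NNu w u) := by
  have key : ∀ u ∈ Icc (0:ℝ) 1, ∀ u' ∈ Icc (0:ℝ) 1, u ≤ u' →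
      |sg w.2.1 (w.2.2.1 - u * w.2.2.2) - sg w.2.1 (w.2.2.1 - u' * w.2.2.2)| ≤
        64 / c ^ 4 * (|w.2.1| * |w.2.2.2|) * (u' - u) := by
    intro u hu u' hu' huu
    obtain ⟨-, -, b1, b2, -, -, -, -⟩ := dom_ab hc (seg1 h hu)
    obtain ⟨-, -, b3, b4, -, b5, -, -⟩ := dom_ab hc (seg2 h hu)
    obtain ⟨-, -, b1', b2', -, -, -, -⟩ := dom_ab hc (seg1 h hu')
    obtain ⟨-, -, b3', b4', -, b5', -, -⟩ := dom_ab hc (seg2 h hu')
    refine (sg_le hc b1 b2 b1' b2' b3 b4 b3' b4' b5 b5').trans (le_of_eq ?_)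
    have : w.2.2.1 - u * w.2.2.2 - (w.2.2.1 - u' * w.2.2.2) = (u' - u) * w.2.2.2 := by ring
    rw [this, abs_mul, abs_of_nonneg (sub_nonneg.2 huu)]
    ring
  rcases le_total 0 (w.1.1 * w.1.2.2) with h0 | h0
  · refine ⟨1, Or.inl rfl, fun u hu u' hu' huu => ?_⟩
    obtain ⟨a1, a2, -, -, -, -, -, -⟩ := dom_ab hc (seg1 h hu)
    obtain ⟨a3, a4, -, -, -, -, -, -⟩ := dom_ab hc (seg2 h hu)
    obtain ⟨a1', a2', -, -, -, -, -, -⟩ := dom_ab hc (seg1 h hu')
    obtain ⟨a3', a4', -, -, -, -, -, -⟩ := dom_ab hc (seg2 h hu')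
    have e1 : w.1.1 * (w.1.2.1 - u * w.1.2.2 - (w.1.2.1 - u' * w.1.2.2)) =
        (u' - u) * (w.1.1 * w.1.2.2) := by ring
    have e2 := om_sub hc a1' a2' a1 a2 a3' a4' a3 a4 (y := w.1.1) (by
      rw [e1]
      exact mul_nonneg (sub_nonneg.2 huu) h0)
    rw [e1] at e2
    have e3 := key u hu u' hu' huu
    have e4 : |w.1.1| * |w.1.2.2| = w.1.1 * w.1.2.2 := by rw [← abs_mul, abs_of_nonneg h0]
    rw [e4] at hA
    have e5 := (abs_le.1 e3).1
    have e6 : NNu w u' - NNu w u = (om w.1.1 (w.1.2.1 - u' * w.1.2.2) -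
        om w.1.1 (w.1.2.1 - u * w.1.2.2)) + (sg w.2.1 (w.2.2.1 - u * w.2.2.2) -
        sg w.2.1 (w.2.2.1 - u' * w.2.2.2)) := by
      unfold NNu NN
      ring
    rw [one_mul, e6]
    have e7 : 0 ≤ u' - u := sub_nonneg.2 huu
    nlinarith
  · refine ⟨-1, Or.inr rfl, fun u hu u' hu' huu => ?_⟩
    obtain ⟨a1, a2, -, -, -, -, -, -⟩ := dom_ab hc (seg1 h hu)
    obtain ⟨a3, a4, -, -, -, -, -, -⟩ := dom_ab hc (seg2 h hu)
    obtain ⟨a1', a2', -, -, -, -, -, -⟩ := dom_ab hc (seg1 h hu')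
    obtain ⟨a3', a4', -, -, -, -, -, -⟩ := dom_ab hc (seg2 h hu')
    have e1 : w.1.1 * (w.1.2.1 - u' * w.1.2.2 - (w.1.2.1 - u * w.1.2.2)) =
        (u' - u) * -(w.1.1 * w.1.2.2) := by ring
    have e2 := om_sub hc a1 a2 a1' a2' a3 a4 a3' a4' (y := w.1.1) (by
      rw [e1]
      exact mul_nonneg (sub_nonneg.2 huu) (by linarith))
    rw [e1] at e2
    have e3 := key u hu u' hu' huu
    have e4 : |w.1.1| * |w.1.2.2| = -(w.1.1 * w.1.2.2) := by rw [← abs_mul, abs_of_nonpos h0]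
    rw [e4] at hA
    have e5 := (abs_le.1 e3).2
    have e6 : NNu w u' - NNu w u = (om w.1.1 (w.1.2.1 - u' * w.1.2.2) -
        om w.1.1 (w.1.2.1 - u * w.1.2.2)) + (sg w.2.1 (w.2.2.1 - u * w.2.2.2) -
        sg w.2.1 (w.2.2.1 - u' * w.2.2.2)) := by
      unfold NNu NN
      ring
    rw [e6]
    have e7 : 0 ≤ u' - u := sub_nonneg.2 huu
    nlinarith

/-- the difference of `NN` along the segment: upper bound -/
theorem NN_lip {c : ℝ} (hc : 0 < c) {w : P6} (h : In4 c w) {u : ℝ} (hu : u ∈ Icc (0:ℝ) 1) :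
    |NNu w u - NNu w 0| ≤ 16 / c ^ 3 * (|w.1.1| * |w.1.2.2|) +
      64 / c ^ 4 * (|w.2.1| * |w.2.2.2|) := by
  have hu' : (0:ℝ) ∈ Icc (0:ℝ) 1 := ⟨le_rfl, zero_le_one⟩
  obtain ⟨a1, a2, b1, b2, -, -, -, -⟩ := dom_ab hc (seg1 h hu)
  obtain ⟨a3, a4, b3, b4, -, b5, -, -⟩ := dom_ab hc (seg2 h hu)
  obtain ⟨a1', a2', b1', b2', -, -, -, -⟩ := dom_ab hc (seg1 h hu')
  obtain ⟨a3', a4', b3', b4', -, b5', -, -⟩ := dom_ab hc (seg2 h hu')
  have e1 := om_le hc a1 a2 a1' a2' a3 a4 a3' a4'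
  have e2 := sg_le hc b1 b2 b1' b2' b3 b4 b3' b4' b5 b5'
  have f1 : |w.1.2.1 - u * w.1.2.2 - (w.1.2.1 - 0 * w.1.2.2)| ≤ |w.1.2.2| := by
    have : w.1.2.1 - u * w.1.2.2 - (w.1.2.1 - 0 * w.1.2.2) = -(u * w.1.2.2) := by ring
    rw [this, abs_neg, abs_mul, abs_of_nonneg hu.1]
    exact mul_le_of_le_one_left (abs_nonneg _) hu.2
  have f2 : |w.2.2.1 - u * w.2.2.2 - (w.2.2.1 - 0 * w.2.2.2)| ≤ |w.2.2.2| := by
    have : w.2.2.1 - u * w.2.2.2 - (w.2.2.1 - 0 * w.2.2.2) = -(u * w.2.2.2) := by ring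
    rw [this, abs_neg, abs_mul, abs_of_nonneg hu.1]
    exact mul_le_of_le_one_left (abs_nonneg _) hu.2
  have e6 : NNu w u - NNu w 0 = (om w.1.1 (w.1.2.1 - u * w.1.2.2) -
      om w.1.1 (w.1.2.1 - 0 * w.1.2.2)) - (sg w.2.1 (w.2.2.1 - u * w.2.2.2) -
      sg w.2.1 (w.2.2.1 - 0 * w.2.2.2)) := by
    unfold NNu NN
    ring
  rw [e6]
  refine (abs_sub _ _).trans (add_le_add (e1.trans ?_) (e2.trans ?_))
  · gcongr
  · gcongr

end Pool.Agent.SDT.N1E

end -- N1E.E3
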