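import Pool.Agent.SDT.B05
import Pool.Agent.SDT.B06
import Pool.Agent.SDT.B07
import Pool.Agent.SDT.B08
import Pool.Agent.SDT.B10

set_option autoImplicit false

namespace Pool.Agent.SDT.MP_6cbfb8_an
end Pool.Agent.SDT.MP_6cbfb8_an
namespace Pool.Agent.SDT.MST
end Pool.Agent.SDT.MST
namespace Pool.Agent.SDT.N1
end Pool.Agent.SDT.N1

section -- MP_6cbfb8_an.Decay

namespace Pool.Agent.SDT.MP_6cbfb8_an

open MeasureTheory Set
open scoped ENNReal Real RealInnerProductSpace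

/-! ## decay of the Fourier transform of the surface measure -/

namespace DecayAux

/-- the character -/
noncomputable def ch (t : ℝ) : ℂ := Complex.exp (((-(2 * π * t) : ℝ) : ℂ) * Complex.I)

theorem norm_ch (t : ℝ) : ‖ch t‖ = 1 := Complex.norm_exp_ofReal_mul_I _

theorem continuous_ch : Continuous ch := by
  unfold ch; fun_prop

theorem ch_add (s t : ℝ) : ch (s + t) = ch s * ch t := by
  unfold ch
  rw [← Complex.exp_add]
  congr 1
  push_cast
  ring

theorem ch_neg (t : ℝ) : ch (-t) = (starRingEnd ℂ) (ch t) := by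
  unfold ch
  rw [← Complex.exp_conj]
  congr 1
  rw [map_mul, Complex.conj_ofReal, Complex.conj_I]
  push_cast
  ring

theorem ch_sub (s t : ℝ) : ch (s - t) = ch s * (starRingEnd ℂ) (ch t) := by
  rw [sub_eq_add_neg, ch_add, ch_neg]

theorem extn_eq {n : ℕ} (g : E n → ℂ) (ξ : E n) :
    extn g ξ = ∫ x : S n, g x * ch (inner ℝ (x : E n) ξ) ∂(sm n) := rfl

theorem inner_join {n : ℕ} (x y : E n) (s t : ℝ) :
    inner ℝ (join x s) (join y t) = inner ℝ x y + s * t := by
  unfold join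
  rw [PiLp.inner_apply, PiLp.inner_apply, Fin.sum_univ_castSucc]
  simp [mul_comm]

theorem norm_join_zero_one {n : ℕ} : ‖(join (0 : E n) 1)‖ = 1 := by
  have h : inner ℝ (join (0 : E n) 1) (join (0 : E n) 1) = (1:ℝ) := by
    rw [inner_join]; simp
  rw [real_inner_self_eq_norm_sq] at h
  have := norm_nonneg (join (0 : E n) 1)
  nlinarith

/-- rotation invariance -/
theorem extn_one_rot {n : ℕ} (ξ : E (n + 1)) :
    extn (fun _ => (1:ℂ)) ξ = extn (fun _ => (1:ℂ)) (‖ξ‖ • join (0 : E n) 1) := by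
  set v : E (n + 1) := ‖ξ‖ • join (0 : E n) 1 with hv
  have hnorm : ‖v‖ = ‖ξ‖ := by
    rw [hv, norm_smul, norm_join_zero_one]; simp
  set R : E (n + 1) ≃ₗᵢ[ℝ] E (n + 1) := Submodule.reflection (ℝ ∙ (v - ξ))ᗮ with hR
  have hRv : R v = ξ := Submodule.reflection_sub hnorm
  have hmp := measurePreserving_isometry R
  rw [extn_eq, extn_eq]
  have h1 : ∫ x : S (n + 1), (1:ℂ) * ch (inner ℝ (x : E (n + 1)) ξ) ∂(sm (n + 1)) =
      ∫ x : S (n + 1), (1:ℂ) * ch (inner ℝ (R (x : E (n + 1))) ξ) ∂(sm (n + 1)) := by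
    conv_lhs => rw [← hmp.map_eq]
    rw [integral_map hmp.measurable.aemeasurable]
    refine Continuous.aestronglyMeasurable ?_
    have := continuous_ch
    fun_prop
  rw [h1]
  congr 1
  funext x
  rw [← hRv, LinearIsometryEquiv.inner_map_map]

theorem extn_one_eq (j : ℕ) (ρ : ℝ) :
    extn (fun _ => (1:ℂ)) (ρ • join (0 : E (j + 1)) 1) =
      ((sm (j + 1)).real univ : ℂ) *
        ∫ θ in (0:ℝ)..π, ((Real.sin θ ^ j : ℝ) : ℂ) * ch (ρ * Real.cos θ) := by
  have hmp := slicing j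
  rw [extn_eq]
  have h1 : ∫ x : S (j + 2), (1:ℂ) * ch (inner ℝ (x : E (j + 2)) (ρ • join (0 : E (j + 1)) 1))
      ∂(sm (j + 2)) =
      ∫ q : ℝ × S (j + 1), ch (ρ * Real.cos q.1)
        ∂((((volume : Measure ℝ).restrict (Ioo 0 π)).withDensity
        (fun θ => ENNReal.ofReal (Real.sin θ ^ j))).prod (sm (j + 1))) := by
    conv_lhs => rw [← hmp.map_eq]
    rw [integral_map hmp.measurable.aemeasurable]
    · congr 1
      funext q
      rw [one_mul]
      congr 1
      show inner ℝ (pt q.1 (q.2 : E (j + 1))) _ = _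
      rw [inner_smul_right]
      unfold pt
      rw [inner_join]
      simp
    · refine Continuous.aestronglyMeasurable ?_
      have := continuous_ch
      fun_prop
  rw [h1, integral_fun_fst (fun θ => ch (ρ * Real.cos θ)),
    integral_withDensity_eq_integral_toReal_smul (by fun_prop)
      (by filter_upwards with x using ENNReal.ofReal_lt_top),
    intervalIntegral.integral_of_le Real.pi_pos.le, integral_Ioc_eq_integral_Ioo]
  rw [Complex.real_smul]
  congr 1
  refine setIntegral_congr_fun measurableSet_Ioo fun θ hθ => ?_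
  have : 0 ≤ Real.sin θ := Real.sin_nonneg_of_nonneg_of_le_pi hθ.1.le hθ.2.le
  simp only [ENNReal.toReal_ofReal (pow_nonneg this j), Complex.real_smul]

theorem norm_sin_le {z : ℂ} (hz : ‖z‖ ≤ 1) : ‖Complex.sin z‖ ≤ 2 * ‖z‖ := by
  have h1 : Complex.sin z =
      ((Complex.exp (-z * Complex.I) - 1) - (Complex.exp (z * Complex.I) - 1)) * Complex.I / 2 := by
    rw [Complex.sin]; ring
  have h2 : ‖Complex.exp (-z * Complex.I) - 1‖ ≤ 2 * ‖z‖ := by
    have := Complex.norm_exp_sub_one_le (x := -z * Complex.I) (by simpa using hz)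
    simpa using this
  have h3 : ‖Complex.exp (z * Complex.I) - 1‖ ≤ 2 * ‖z‖ := by
    have := Complex.norm_exp_sub_one_le (x := z * Complex.I) (by simpa using hz)
    simpa using this
  rw [h1, norm_div, norm_mul, Complex.norm_I, mul_one, Complex.norm_ofNat]
  have h4 := norm_sub_le (Complex.exp (-z * Complex.I) - 1) (Complex.exp (z * Complex.I) - 1)
  linarith

theorem norm_cos_le {z : ℂ} (hz : ‖z‖ ≤ 1 / 2) : ‖Complex.cos z‖ ≤ 2 := by
  have h1 : Complex.cos z =
      1 + ((Complex.exp (z * Complex.I) - 1) + (Complex.exp (-z * Complex.I) - 1)) / 2 := by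
    rw [Complex.cos]; ring
  have h2 : ‖Complex.exp (-z * Complex.I) - 1‖ ≤ 2 * ‖z‖ := by
    have := Complex.norm_exp_sub_one_le (x := -z * Complex.I) (by simpa using hz.trans (by norm_num))
    simpa using this
  have h3 : ‖Complex.exp (z * Complex.I) - 1‖ ≤ 2 * ‖z‖ := by
    have := Complex.norm_exp_sub_one_le (x := z * Complex.I) (by simpa using hz.trans (by norm_num))
    simpa using this
  rw [h1]
  calc ‖1 + ((Complex.exp (z * Complex.I) - 1) + (Complex.exp (-z * Complex.I) - 1)) / 2‖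
      ≤ ‖(1:ℂ)‖ + ‖((Complex.exp (z * Complex.I) - 1) + (Complex.exp (-z * Complex.I) - 1)) / 2‖ :=
        norm_add_le _ _
    _ ≤ 1 + (2 * ‖z‖ + 2 * ‖z‖) / 2 := by
        rw [norm_one, norm_div, Complex.norm_ofNat]
        have := norm_add_le (Complex.exp (z * Complex.I) - 1) (Complex.exp (-z * Complex.I) - 1)
        linarith
    _ ≤ 2 := by linarith

theorem sin_lower {δ u : ℝ} (hδ : 0 < δ) (hδ1 : δ ≤ 1) (hu : u ∈ Icc δ (π - δ)) :
    2 / π * δ ≤ Real.sin u := by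
  have hpi := Real.pi_gt_three
  have h1 : 2 / π * δ ≤ Real.sin δ := Real.mul_le_sin hδ.le (by linarith)
  refine h1.trans ?_
  by_cases h : u ≤ π / 2
  · exact Real.sin_le_sin_of_le_of_le_pi_div_two (by linarith) h hu.1
  · push Not at h
    rw [← Real.sin_pi_sub u]
    exact Real.sin_le_sin_of_le_of_le_pi_div_two (by linarith) (by linarith) (by linarith [hu.2])

theorem norm_csin_le {δ u : ℝ} (hδ : 0 < δ) (hδ1 : δ ≤ 1) (hu : u ∈ Icc δ (π - δ)) {w : ℂ}
    (hw : ‖w - u‖ ≤ δ / 2) : ‖Complex.sin w‖ ≤ 4 * Real.sin u := by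
  have hs := sin_lower hδ hδ1 hu
  have hpi := Real.pi_gt_three
  have hpi4 := Real.pi_le_four
  have h1 : Complex.sin w = Complex.sin u * Complex.cos (w - u) +
      Complex.cos u * Complex.sin (w - u) := by
    rw [← Complex.sin_add]; congr 1; ring
  have h2 := norm_sin_le (hw.trans (by linarith : δ / 2 ≤ 1))
  have h3 := norm_cos_le (hw.trans (by linarith : δ / 2 ≤ 1 / 2))
  have h4 : ‖Complex.sin (u : ℂ)‖ = Real.sin u := by
    rw [← Complex.ofReal_sin, Complex.norm_real, Real.norm_eq_abs, abs_of_nonneg]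
    exact le_trans (by positivity) hs
  have h5 : ‖Complex.cos (u : ℂ)‖ ≤ 1 := by
    rw [← Complex.ofReal_cos, Complex.norm_real, Real.norm_eq_abs]
    exact Real.abs_cos_le_one u
  have h6 : δ ≤ 2 * Real.sin u := by
    have : δ ≤ π / 2 * Real.sin u := by
      have h7 : π / 2 * (2 / π * δ) = δ := by field_simp
      have h8 := mul_le_mul_of_nonneg_left hs (by positivity : (0:ℝ) ≤ π / 2)
      rw [h7] at h8
      exact h8
    have hs0 : 0 ≤ Real.sin u := le_trans (by positivity) hs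
    nlinarith
  calc ‖Complex.sin w‖ ≤ ‖Complex.sin (u:ℂ) * Complex.cos (w - u)‖ +
        ‖Complex.cos (u:ℂ) * Complex.sin (w - u)‖ := by rw [h1]; exact norm_add_le _ _
    _ = Real.sin u * ‖Complex.cos (w - u)‖ + ‖Complex.cos (u:ℂ)‖ * ‖Complex.sin (w - u)‖ := by
        rw [norm_mul, norm_mul, h4]
    _ ≤ Real.sin u * 2 + 1 * (2 * (δ / 2)) := by
        have hs0 : 0 ≤ Real.sin u := le_trans (by positivity) hs
        gcongr
        linarith
    _ ≤ 4 * Real.sin u := by linarith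

theorem sin_pos_of_mem {δ u : ℝ} (hδ : 0 < δ) (hδ1 : δ ≤ 1) (hu : u ∈ Icc δ (π - δ)) :
    0 < Real.sin u := lt_of_lt_of_le (by positivity) (sin_lower hδ hδ1 hu)

theorem integral_inv_sin_sq {δ : ℝ} (hδ : 0 < δ) (hδ1 : δ ≤ 1) :
    ∫ u in δ..(π - δ), 1 / Real.sin u ^ 2 ≤ π / δ := by
  have hpi := Real.pi_gt_three
  have hle : δ ≤ π - δ := by linarith
  have h1 : ∫ u in δ..(π - δ), 1 / Real.sin u ^ 2 =
      (-(Real.cos (π - δ) / Real.sin (π - δ))) - (-(Real.cos δ / Real.sin δ)) := by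
    refine intervalIntegral.integral_eq_sub_of_hasDerivAt (f := fun u => -(Real.cos u / Real.sin u))
      (fun u hu => ?_) ?_
    · rw [uIcc_of_le hle] at hu
      have hs := sin_pos_of_mem hδ hδ1 hu
      have h2 : HasDerivAt (fun u => -(Real.cos u / Real.sin u))
          (-((-Real.sin u * Real.sin u - Real.cos u * Real.cos u) / Real.sin u ^ 2)) u :=
        ((Real.hasDerivAt_cos u).div (Real.hasDerivAt_sin u) hs.ne').neg
      have h3 := Real.sin_sq_add_cos_sq u
      have h4 : 1 / Real.sin u ^ 2 =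
          -((-Real.sin u * Real.sin u - Real.cos u * Real.cos u) / Real.sin u ^ 2) := by
        rw [show -((-Real.sin u * Real.sin u - Real.cos u * Real.cos u) / Real.sin u ^ 2) =
          (Real.sin u ^ 2 + Real.cos u ^ 2) / Real.sin u ^ 2 by ring, h3]
      rw [h4]
      exact h2
    · refine ContinuousOn.intervalIntegrable fun u hu => ?_
      rw [uIcc_of_le hle] at hu
      have hs := sin_pos_of_mem hδ hδ1 hu
      refine ContinuousAt.continuousWithinAt ?_
      refine ContinuousAt.div continuousAt_const (by fun_prop) (by positivity)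
  rw [h1, Real.cos_pi_sub, Real.sin_pi_sub]
  have hs : 2 / π * δ ≤ Real.sin δ := Real.mul_le_sin hδ.le (by linarith)
  have hs0 : 0 < Real.sin δ := lt_of_lt_of_le (by positivity) hs
  have hc : Real.cos δ ≤ 1 := Real.cos_le_one δ
  have h2 : -(-Real.cos δ / Real.sin δ) - -(Real.cos δ / Real.sin δ) = 2 * Real.cos δ / Real.sin δ := by
    ring
  rw [h2, div_le_div_iff₀ hs0 hδ]
  have h3 : 2 * δ ≤ π * Real.sin δ := by
    have h4 := mul_le_mul_of_nonneg_left hs Real.pi_pos.le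
    have h5 : π * (2 / π * δ) = 2 * δ := by field_simp
    rw [h5] at h4
    exact h4
  nlinarith


end DecayAux


end Pool.Agent.SDT.MP_6cbfb8_an

end -- MP_6cbfb8_an.Decay

section -- MP_6cbfb8_an.LiftA

/-!
The decomposition `R^(k+l) = R^k x R^l`: basic lemmas (task A of the lifting theorem).
-/

namespace Pool.Agent.SDT.MP_6cbfb8_an

open MeasureTheory Set
open scoped ENNReal Real RealInnerProductSpace

theorem liftA_bj_castAdd {k l : ℕ} (x : E k) (y : E l) (i : Fin k) :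
    bj x y (Fin.castAdd l i) = x i := by
  simp [bj]

theorem liftA_bj_natAdd {k l : ℕ} (x : E k) (y : E l) (i : Fin l) :
    bj x y (Fin.natAdd k i) = y i := by
  simp [bj]

theorem inner_bj {k l : ℕ} (x x' : E k) (y y' : E l) :
    inner ℝ (bj x y) (bj x' y') = inner ℝ x x' + inner ℝ y y' := by
  rw [PiLp.inner_apply, PiLp.inner_apply, PiLp.inner_apply, Fin.sum_univ_add]
  simp only [liftA_bj_castAdd, liftA_bj_natAdd]

theorem fstE_bj {k l : ℕ} (x : E k) (y : E l) : fstE (bj x y) = x := by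
  ext i
  exact liftA_bj_castAdd x y i

theorem sndE_bj {k l : ℕ} (x : E k) (y : E l) : sndE (bj x y) = y := by
  ext i
  exact liftA_bj_natAdd x y i

theorem bj_fst_snd {k l : ℕ} (x : E (k + l)) : bj (fstE x) (sndE x : E l) = x := by
  ext i
  refine Fin.addCases (fun j => ?_) (fun j => ?_) i
  · rw [liftA_bj_castAdd]; rfl
  · rw [liftA_bj_natAdd]; rfl

theorem continuous_bj {k l : ℕ} : Continuous fun q : E k × E l => bj q.1 q.2 := by
  unfold bj
  refine (PiLp.continuous_toLp 2 _).comp ?_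
  refine continuous_pi fun i => ?_
  refine Fin.addCases (fun j => ?_) (fun j => ?_) i
  · simp only [Fin.append_left]
    exact (EuclideanSpace.proj j : E k →L[ℝ] ℝ).continuous.comp continuous_fst
  · simp only [Fin.append_right]
    exact (EuclideanSpace.proj j : E l →L[ℝ] ℝ).continuous.comp continuous_snd

theorem liftA_smul_bj {k l : ℕ} (c : ℝ) (x : E k) (y : E l) :
    c • bj x y = bj (c • x) (c • y) := by
  ext i
  refine Fin.addCases (fun j => ?_) (fun j => ?_) i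
  · rw [liftA_bj_castAdd, PiLp.smul_apply, liftA_bj_castAdd, PiLp.smul_apply]
  · rw [liftA_bj_natAdd, PiLp.smul_apply, liftA_bj_natAdd, PiLp.smul_apply]

theorem liftA_norm_bj_sq {k l : ℕ} (x : E k) (y : E l) : ‖bj x y‖ ^ 2 = ‖x‖ ^ 2 + ‖y‖ ^ 2 := by
  rw [← real_inner_self_eq_norm_sq, ← real_inner_self_eq_norm_sq, ← real_inner_self_eq_norm_sq,
    inner_bj]

theorem liftA_append (k l : ℕ) :
    MeasurePreserving (fun q : (Fin k → ℝ) × (Fin l → ℝ) => (Fin.append q.1 q.2 : Fin (k + l) → ℝ))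
      volume volume := by
  have h1 := (volume_measurePreserving_sumPiEquivProdPi (fun _ : Fin k ⊕ Fin l => ℝ)).symm
  have h2 := volume_measurePreserving_piCongrLeft (fun _ : Fin (k + l) => ℝ)
    (finSumFinEquiv (m := k) (n := l))
  have h3 := h2.comp h1
  have e : (fun q : (Fin k → ℝ) × (Fin l → ℝ) => (Fin.append q.1 q.2 : Fin (k + l) → ℝ)) =
    (MeasurableEquiv.piCongrLeft (fun _ : Fin (k + l) => ℝ) (finSumFinEquiv (m := k) (n := l))) ∘
      (MeasurableEquiv.sumPiEquivProdPi (fun _ : Fin k ⊕ Fin l => ℝ)).symm := by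
    funext q i
    refine Fin.addCases (fun j => ?_) (fun j => ?_) i
    · rw [Fin.append_left]
      have := Equiv.piCongrLeft_apply_apply (P := fun _ : Fin (k + l) => ℝ)
        (finSumFinEquiv (m := k) (n := l))
        ((MeasurableEquiv.sumPiEquivProdPi (fun _ : Fin k ⊕ Fin l => ℝ)).symm q) (Sum.inl j)
      exact this.symm
    · rw [Fin.append_right]
      have := Equiv.piCongrLeft_apply_apply (P := fun _ : Fin (k + l) => ℝ)
        (finSumFinEquiv (m := k) (n := l))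
        ((MeasurableEquiv.sumPiEquivProdPi (fun _ : Fin k ⊕ Fin l => ℝ)).symm q) (Sum.inr j)
      exact this.symm
  rw [e]
  exact h3

theorem lintegral_bj (k l : ℕ) (F : E (k + l) → ℝ≥0∞) (hF : Measurable F) :
    ∫⁻ x, F x = ∫⁻ y : E k, ∫⁻ z : E l, F (bj y z) := by
  have h1 := PiLp.volume_preserving_toLp (Fin (k + l))
  have h2 := liftA_append k l
  have h3 := PiLp.volume_preserving_toLp (Fin k)
  have h4 := PiLp.volume_preserving_toLp (Fin l)
  have m1 : Measurable fun q : E k × E l => F (bj q.1 q.2) :=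
    hF.comp continuous_bj.measurable
  rw [← h1.lintegral_comp hF]
  have m2 : Measurable fun f : Fin (k + l) → ℝ => F (WithLp.toLp 2 f) := hF.comp h1.measurable
  rw [← h2.lintegral_comp m2]
  have m3 : Measurable fun q : (Fin k → ℝ) × (Fin l → ℝ) =>
      F (WithLp.toLp 2 (Fin.append q.1 q.2 : Fin (k + l) → ℝ)) := m2.comp h2.measurable
  have m4 : Measurable fun y : E k => ∫⁻ z : E l, F (bj y z) := m1.lintegral_prod_right'
  rw [← h3.lintegral_comp m4, Measure.volume_eq_prod, lintegral_prod _ m3.aemeasurable]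
  refine lintegral_congr fun y => ?_
  have m5 : Measurable fun z : E l => F (bj (WithLp.toLp 2 y) z) := by
    have h0 : Measurable fun z : E l => ((WithLp.toLp 2 y, z) : E k × E l) := by fun_prop
    exact m1.comp h0
  rw [← h4.lintegral_comp m5]
  rfl

/-- the radial test function -/
noncomputable def liftA_rad {n : ℕ} (F : E n → ℝ≥0∞) (x : E n) : ℝ≥0∞ :=
  (Iio (1:ℝ)).indicator 1 ‖x‖ * F (‖x‖⁻¹ • x)

theorem liftA_measurable_rad {n : ℕ} {F : E n → ℝ≥0∞} (hF : Measurable F) :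
    Measurable (liftA_rad F) := by
  unfold liftA_rad
  have h2 : Measurable fun x : E n => (‖x‖⁻¹ • x) := by fun_prop
  have h3 : Measurable fun x : E n => (Iio (1:ℝ)).indicator (1 : ℝ → ℝ≥0∞) ‖x‖ :=
    (measurable_one.indicator measurableSet_Iio).comp measurable_norm
  exact h3.mul (hF.comp h2)

theorem liftA_rad_smul {n : ℕ} (F : E n → ℝ≥0∞) {x : E n} (hx : ‖x‖ = 1) {r : ℝ} (hr : 0 < r) :
    liftA_rad F (r • x) = (Iio (1:ℝ)).indicator 1 r * F x := by
  have h2 : ‖r • x‖ = r := by rw [norm_smul, hx, mul_one, Real.norm_of_nonneg hr.le]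
  unfold liftA_rad
  rw [h2, smul_smul, inv_mul_cancel₀ hr.ne', one_smul]

theorem liftA_norm_one {k l : ℕ} (θ : ℝ) (ω : S k) (η : S l) :
    ‖bj (Real.sin θ • (ω : E k)) (Real.cos θ • (η : E l))‖ = 1 := by
  have h1 : ‖bj (Real.sin θ • (ω : E k)) (Real.cos θ • (η : E l))‖ ^ 2 = 1 := by
    rw [liftA_norm_bj_sq, norm_smul, norm_smul]
    have e1 : ‖(ω : E k)‖ = 1 := by simp
    have e2 : ‖(η : E l)‖ = 1 := by simp
    rw [e1, e2, mul_one, mul_one, Real.norm_eq_abs, Real.norm_eq_abs, sq_abs, sq_abs,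
      Real.sin_sq_add_cos_sq]
  nlinarith [norm_nonneg (bj (Real.sin θ • (ω : E k)) (Real.cos θ • (η : E l)))]

/-- the polar decomposition in the quarter plane -/
theorem liftA_planar (k l : ℕ) (F : E ((k + 1) + (l + 1)) → ℝ≥0∞) (hF : Measurable F)
    (ω : S (k + 1)) (η : S (l + 1)) :
    ∫⁻ q : ℝ × ℝ in (Ioi 0) ×ˢ (Ioi 0), liftA_rad F (bj (q.2 • (ω : E (k + 1)))
      (q.1 • (η : E (l + 1)))) * (ENNReal.ofReal (q.2 ^ k) * ENNReal.ofReal (q.1 ^ l)) =
      ENNReal.ofReal (1 / ((k + 1 + l : ℕ) + 1)) * ∫⁻ θ in Ioo 0 (π / 2),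
        ENNReal.ofReal (Real.sin θ ^ k * Real.cos θ ^ l) *
        F (bj (Real.sin θ • (ω : E (k + 1))) (Real.cos θ • (η : E (l + 1)))) := by
  have m0 : Measurable (liftA_rad F) := liftA_measurable_rad hF
  have c1 : Continuous fun q : ℝ × ℝ => bj (q.2 • (ω : E (k + 1))) (q.1 • (η : E (l + 1))) := by
    have : Continuous fun q : ℝ × ℝ =>
        ((q.2 • (ω : E (k + 1)), q.1 • (η : E (l + 1))) : E (k + 1) × E (l + 1)) := by
      fun_prop
    exact continuous_bj.comp this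
  have m1 : Measurable fun q : ℝ × ℝ => liftA_rad F
      (bj (q.2 • (ω : E (k + 1))) (q.1 • (η : E (l + 1)))) := m0.comp c1.measurable
  set f : ℝ × ℝ → ℝ≥0∞ := ((Ioi (0:ℝ)) ×ˢ (Ioi (0:ℝ))).indicator fun q =>
    liftA_rad F (bj (q.2 • (ω : E (k + 1))) (q.1 • (η : E (l + 1)))) *
      (ENNReal.ofReal (q.2 ^ k) * ENNReal.ofReal (q.1 ^ l)) with hf
  have ms : MeasurableSet ((Ioi (0:ℝ)) ×ˢ (Ioi (0:ℝ))) := measurableSet_Ioi.prod measurableSet_Ioi
  rw [← lintegral_indicator ms, ← hf, ← lintegral_comp_polarCoord_symm]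
  have e2 : ∫⁻ p : ℝ × ℝ in polarCoord.target, ENNReal.ofReal p.1 • f (polarCoord.symm p) =
      ∫⁻ p : ℝ × ℝ in polarCoord.target, ((Iio (1:ℝ)).indicator 1 p.1 *
        ENNReal.ofReal (p.1 ^ (k + 1 + l))) * ((Ioo 0 (π / 2)).indicator (fun θ =>
        ENNReal.ofReal (Real.sin θ ^ k * Real.cos θ ^ l) *
        F (bj (Real.sin θ • (ω : E (k + 1))) (Real.cos θ • (η : E (l + 1))))) p.2) := by
    refine setLIntegral_congr_fun polarCoord.open_target.measurableSet fun p hp => ?_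
    rw [polarCoord_target] at hp
    obtain ⟨hr, hθ⟩ := hp
    simp only [mem_Ioi] at hr
    have hsym : polarCoord.symm p = (p.1 * Real.cos p.2, p.1 * Real.sin p.2) := rfl
    simp only [hsym, hf, smul_eq_mul]
    by_cases h : p.2 ∈ Ioo 0 (π / 2)
    · have hs : 0 < Real.sin p.2 := Real.sin_pos_of_mem_Ioo ⟨h.1, by linarith [h.2, Real.pi_pos]⟩
      have hc : 0 < Real.cos p.2 := Real.cos_pos_of_mem_Ioo ⟨by linarith [h.1, Real.pi_pos], h.2⟩
      have h1 : (p.1 * Real.cos p.2, p.1 * Real.sin p.2) ∈ (Ioi (0:ℝ)) ×ˢ (Ioi (0:ℝ)) :=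
        ⟨mul_pos hr hc, mul_pos hr hs⟩
      have h2 : bj ((p.1 * Real.sin p.2) • (ω : E (k + 1))) ((p.1 * Real.cos p.2) •
          (η : E (l + 1))) = p.1 • bj (Real.sin p.2 • (ω : E (k + 1)))
          (Real.cos p.2 • (η : E (l + 1))) := by
        rw [liftA_smul_bj, smul_smul, smul_smul]
      rw [indicator_of_mem h1, indicator_of_mem h]
      simp only
      rw [h2, liftA_rad_smul F (liftA_norm_one p.2 ω η) hr, ← ENNReal.ofReal_mul (by positivity)]
      have e4 : ENNReal.ofReal p.1 * ENNReal.ofReal ((p.1 * Real.sin p.2) ^ k *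
          (p.1 * Real.cos p.2) ^ l) = ENNReal.ofReal (p.1 ^ (k + 1 + l)) *
          ENNReal.ofReal (Real.sin p.2 ^ k * Real.cos p.2 ^ l) := by
        rw [← ENNReal.ofReal_mul hr.le, ← ENNReal.ofReal_mul (by positivity)]
        congr 1
        ring
      calc _ = (ENNReal.ofReal p.1 * ENNReal.ofReal ((p.1 * Real.sin p.2) ^ k *
          (p.1 * Real.cos p.2) ^ l)) * ((Iio (1:ℝ)).indicator 1 p.1 *
            F (bj (Real.sin p.2 • (ω : E (k + 1))) (Real.cos p.2 • (η : E (l + 1))))) := by ring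
        _ = _ := by rw [e4]; ring
    · have h1 : (p.1 * Real.cos p.2, p.1 * Real.sin p.2) ∉ (Ioi (0:ℝ)) ×ˢ (Ioi (0:ℝ)) := by
        rintro ⟨h1, h2⟩
        apply h
        have hc : 0 < Real.cos p.2 := pos_of_mul_pos_right h1 hr.le
        have hs : 0 < Real.sin p.2 := pos_of_mul_pos_right h2 hr.le
        constructor
        · by_contra hcon
          push Not at hcon
          have := Real.sin_nonpos_of_nonpos_of_neg_pi_le hcon hθ.1.le
          linarith
        · by_contra hcon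
          push Not at hcon
          have := Real.cos_nonpos_of_pi_div_two_le_of_le hcon (by linarith [hθ.2, Real.pi_pos])
          linarith
      rw [indicator_of_notMem h1, indicator_of_notMem h]
      simp
  have m4 : Measurable fun θ : ℝ => ENNReal.ofReal (Real.sin θ ^ k * Real.cos θ ^ l) *
        F (bj (Real.sin θ • (ω : E (k + 1))) (Real.cos θ • (η : E (l + 1)))) := by
    have hc : Continuous fun θ : ℝ =>
        bj (Real.sin θ • (ω : E (k + 1))) (Real.cos θ • (η : E (l + 1))) := by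
      have : Continuous fun θ : ℝ => ((Real.cos θ, Real.sin θ) : ℝ × ℝ) := by fun_prop
      exact c1.comp this
    refine Measurable.mul ?_ (hF.comp hc.measurable)
    fun_prop
  have m5 : Measurable fun r : ℝ => (Iio (1:ℝ)).indicator (1 : ℝ → ℝ≥0∞) r *
        ENNReal.ofReal (r ^ (k + 1 + l)) := by
    refine (measurable_one.indicator measurableSet_Iio).mul ?_
    fun_prop
  rw [e2, polarCoord_target, Measure.volume_eq_prod, ← Measure.prod_restrict,
    lintegral_prod_mul m5.aemeasurable (m4.indicator measurableSet_Ioo).aemeasurable,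
    lintegral_rpow_Iio, lintegral_indicator measurableSet_Ioo,
    Measure.restrict_restrict measurableSet_Ioo]
  have e3 : Ioo 0 (π / 2) ∩ Ioo (-π) π = Ioo 0 (π / 2) := by
    rw [inter_eq_left]
    intro θ hθ
    exact ⟨by linarith [hθ.1, Real.pi_pos], by linarith [hθ.2, Real.pi_pos]⟩
  rw [e3]

theorem liftA_e1 (n : ℕ) (F : E (n + 1) → ℝ≥0∞) (hF : Measurable F) :
    ∫⁻ x, liftA_rad F x = ENNReal.ofReal (1 / ((n : ℕ) + 1)) *
      ∫⁻ x : S (n + 1), F x ∂(sm (n + 1)) := by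
  have m0 : Measurable (liftA_rad F) := liftA_measurable_rad hF
  have mFs : Measurable fun ω : S (n + 1) => F (ω : E (n + 1)) :=
    hF.comp measurable_subtype_coe
  rw [lintegral_polar n _ m0, ← lintegral_const_mul _ mFs]
  refine lintegral_congr fun ω => ?_
  rw [← lintegral_rpow_Iio n, ← lintegral_mul_const]
  · refine setLIntegral_congr_fun measurableSet_Ioi fun ρ hρ => ?_
    have hω : ‖(ω : E (n + 1))‖ = 1 := by simp
    have h := liftA_rad_smul F hω hρ
    rw [h, mul_right_comm]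
  · refine (measurable_one.indicator measurableSet_Iio).mul ?_
    fun_prop

theorem liftA_e2 (k l : ℕ) (H : E ((k + 1) + (l + 1)) → ℝ≥0∞) (hH : Measurable H) :
    ∫⁻ x, H x = ∫⁻ ω : S (k + 1), ∫⁻ η : S (l + 1),
      (∫⁻ q : ℝ × ℝ in (Ioi 0) ×ˢ (Ioi 0), H (bj (q.2 • (ω : E (k + 1)))
      (q.1 • (η : E (l + 1)))) * (ENNReal.ofReal (q.2 ^ k) * ENNReal.ofReal (q.1 ^ l)))
      ∂(sm (l + 1)) ∂(sm (k + 1)) := by
  have mj : Measurable fun q : E (k + 1) × E (l + 1) => H (bj q.1 q.2) :=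
    hH.comp continuous_bj.measurable
  rw [lintegral_bj (k + 1) (l + 1) H hH]
  have m1 : Measurable fun y : E (k + 1) => ∫⁻ z : E (l + 1), H (bj y z) :=
    mj.lintegral_prod_right'
  rw [lintegral_polar k _ m1]
  refine lintegral_congr fun ω => ?_
  have i1 : ∀ ρ ∈ Ioi (0:ℝ), (∫⁻ z : E (l + 1), H (bj (ρ • (ω : E (k + 1))) z)) *
      ENNReal.ofReal (ρ ^ k) = ∫⁻ η : S (l + 1), (∫⁻ b in Ioi (0:ℝ),
        H (bj (ρ • (ω : E (k + 1))) (b • (η : E (l + 1)))) *
          (ENNReal.ofReal (ρ ^ k) * ENNReal.ofReal (b ^ l))) ∂(sm (l + 1)) := by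
    intro ρ _
    have m2 : Measurable fun z : E (l + 1) => H (bj (ρ • (ω : E (k + 1))) z) := by
      have h0 : Measurable fun z : E (l + 1) => ((ρ • (ω : E (k + 1)), z) : E (k + 1) × E (l + 1)) := by
        fun_prop
      exact mj.comp h0
    rw [lintegral_polar l _ m2, ← lintegral_mul_const' _ _ ENNReal.ofReal_ne_top]
    refine lintegral_congr fun η => ?_
    rw [← lintegral_mul_const' _ _ ENNReal.ofReal_ne_top]
    refine lintegral_congr fun b => ?_
    rw [mul_assoc, mul_comm (ENNReal.ofReal (b ^ l))]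
  rw [setLIntegral_congr_fun measurableSet_Ioi i1]
  have m5 : Measurable fun q : (ℝ × S (l + 1)) × ℝ =>
      H (bj (q.1.1 • (ω : E (k + 1))) (q.2 • (q.1.2 : E (l + 1)))) *
        (ENNReal.ofReal (q.1.1 ^ k) * ENNReal.ofReal (q.2 ^ l)) := by
    have h0 : Continuous fun q : (ℝ × S (l + 1)) × ℝ =>
        ((q.1.1 • (ω : E (k + 1)), q.2 • (q.1.2 : E (l + 1))) : E (k + 1) × E (l + 1)) := by
      fun_prop
    refine (mj.comp h0.measurable).mul ?_
    fun_prop
  have m6 : Measurable fun q : ℝ × S (l + 1) => ∫⁻ b in Ioi (0:ℝ),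
      H (bj (q.1 • (ω : E (k + 1))) (b • (q.2 : E (l + 1)))) *
        (ENNReal.ofReal (q.1 ^ k) * ENNReal.ofReal (b ^ l)) :=
    m5.lintegral_prod_right' (ν := (volume : Measure ℝ).restrict (Ioi 0))
  rw [lintegral_lintegral_swap (f := fun (ρ : ℝ) (η : S (l + 1)) => ∫⁻ b in Ioi (0:ℝ),
      H (bj (ρ • (ω : E (k + 1))) (b • (η : E (l + 1)))) *
        (ENNReal.ofReal (ρ ^ k) * ENNReal.ofReal (b ^ l))) m6.aemeasurable]
  refine lintegral_congr fun η => ?_
  have m7 : Measurable fun q : ℝ × ℝ => H (bj (q.2 • (ω : E (k + 1)))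
      (q.1 • (η : E (l + 1)))) * (ENNReal.ofReal (q.2 ^ k) * ENNReal.ofReal (q.1 ^ l)) := by
    have h0 : Continuous fun q : ℝ × ℝ =>
        ((q.2 • (ω : E (k + 1)), q.1 • (η : E (l + 1))) : E (k + 1) × E (l + 1)) := by
      fun_prop
    refine (mj.comp h0.measurable).mul ?_
    fun_prop
  rw [Measure.volume_eq_prod, ← Measure.prod_restrict, lintegral_prod_symm' _ m7]

theorem liftA_e3 (k l : ℕ) (F : E ((k + 1) + (l + 1)) → ℝ≥0∞) (hF : Measurable F) :
    ∫⁻ ω : S (k + 1), ∫⁻ η : S (l + 1), (∫⁻ θ in Ioo 0 (π / 2),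
        ENNReal.ofReal (Real.sin θ ^ k * Real.cos θ ^ l) *
        F (bj (Real.sin θ • (ω : E (k + 1))) (Real.cos θ • (η : E (l + 1)))))
        ∂(sm (l + 1)) ∂(sm (k + 1)) =
      ∫⁻ θ in Ioo 0 (π / 2), ENNReal.ofReal (Real.sin θ ^ k * Real.cos θ ^ l) *
        ∫⁻ ω : S (k + 1), ∫⁻ η : S (l + 1),
          F (bj (Real.sin θ • (ω : E (k + 1))) (Real.cos θ • (η : E (l + 1))))
            ∂(sm (l + 1)) ∂(sm (k + 1)) := by
  have mj : Measurable fun q : E (k + 1) × E (l + 1) => F (bj q.1 q.2) :=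
    hF.comp continuous_bj.measurable
  have s1 : ∀ ω : S (k + 1), ∫⁻ η : S (l + 1), (∫⁻ θ in Ioo 0 (π / 2),
      ENNReal.ofReal (Real.sin θ ^ k * Real.cos θ ^ l) *
      F (bj (Real.sin θ • (ω : E (k + 1))) (Real.cos θ • (η : E (l + 1))))) ∂(sm (l + 1)) =
      ∫⁻ θ in Ioo 0 (π / 2), ENNReal.ofReal (Real.sin θ ^ k * Real.cos θ ^ l) *
        ∫⁻ η : S (l + 1), F (bj (Real.sin θ • (ω : E (k + 1))) (Real.cos θ • (η : E (l + 1))))
          ∂(sm (l + 1)) := by
    intro ω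
    have m1 : Measurable fun q : S (l + 1) × ℝ =>
        ENNReal.ofReal (Real.sin q.2 ^ k * Real.cos q.2 ^ l) *
        F (bj (Real.sin q.2 • (ω : E (k + 1))) (Real.cos q.2 • (q.1 : E (l + 1)))) := by
      have h0 : Continuous fun q : S (l + 1) × ℝ =>
          ((Real.sin q.2 • (ω : E (k + 1)), Real.cos q.2 • (q.1 : E (l + 1))) :
            E (k + 1) × E (l + 1)) := by
        fun_prop
      refine Measurable.mul ?_ (mj.comp h0.measurable)
      fun_prop
    rw [lintegral_lintegral_swap (f := fun (η : S (l + 1)) (θ : ℝ) =>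
      ENNReal.ofReal (Real.sin θ ^ k * Real.cos θ ^ l) *
      F (bj (Real.sin θ • (ω : E (k + 1))) (Real.cos θ • (η : E (l + 1))))) m1.aemeasurable]
    refine lintegral_congr fun θ => ?_
    rw [lintegral_const_mul' _ _ ENNReal.ofReal_ne_top]
  rw [lintegral_congr s1]
  have m6 : Measurable fun q : (S (k + 1) × ℝ) × S (l + 1) =>
      F (bj (Real.sin q.1.2 • (q.1.1 : E (k + 1))) (Real.cos q.1.2 • (q.2 : E (l + 1)))) := by
    have h0 : Continuous fun q : (S (k + 1) × ℝ) × S (l + 1) =>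
        ((Real.sin q.1.2 • (q.1.1 : E (k + 1)), Real.cos q.1.2 • (q.2 : E (l + 1))) :
          E (k + 1) × E (l + 1)) := by
      fun_prop
    exact mj.comp h0.measurable
  have m7 : Measurable fun q : S (k + 1) × ℝ => ∫⁻ η : S (l + 1),
      F (bj (Real.sin q.2 • (q.1 : E (k + 1))) (Real.cos q.2 • (η : E (l + 1)))) ∂(sm (l + 1)) :=
    m6.lintegral_prod_right' (ν := sm (l + 1))
  have m8 : Measurable fun q : S (k + 1) × ℝ =>
      ENNReal.ofReal (Real.sin q.2 ^ k * Real.cos q.2 ^ l) * ∫⁻ η : S (l + 1),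
      F (bj (Real.sin q.2 • (q.1 : E (k + 1))) (Real.cos q.2 • (η : E (l + 1)))) ∂(sm (l + 1)) := by
    refine Measurable.mul ?_ m7
    fun_prop
  rw [lintegral_lintegral_swap (f := fun (ω : S (k + 1)) (θ : ℝ) =>
      ENNReal.ofReal (Real.sin θ ^ k * Real.cos θ ^ l) * ∫⁻ η : S (l + 1),
      F (bj (Real.sin θ • (ω : E (k + 1))) (Real.cos θ • (η : E (l + 1)))) ∂(sm (l + 1)))
    m8.aemeasurable]
  refine lintegral_congr fun θ => ?_
  rw [lintegral_const_mul' _ _ ENNReal.ofReal_ne_top]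

theorem bslice (k l : ℕ) (F : E ((k + 1) + (l + 1)) → ℝ≥0∞) (hF : Measurable F) :
    ∫⁻ x : S ((k + 1) + (l + 1)), F x ∂(sm ((k + 1) + (l + 1))) =
      ∫⁻ θ in Ioo 0 (π / 2), ENNReal.ofReal (Real.sin θ ^ k * Real.cos θ ^ l) *
        ∫⁻ ω : S (k + 1), ∫⁻ η : S (l + 1),
          F (bj (Real.sin θ • (ω : E (k + 1))) (Real.cos θ • (η : E (l + 1))))
            ∂(sm (l + 1)) ∂(sm (k + 1)) := by
  have m0 : Measurable (liftA_rad F) := liftA_measurable_rad hF
  have hc0 : ENNReal.ofReal (1 / ((k + 1 + l : ℕ) + 1)) ≠ 0 := by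
    simp only [ne_eq, ENNReal.ofReal_eq_zero, not_le]
    positivity
  have hct : ENNReal.ofReal (1 / ((k + 1 + l : ℕ) + 1)) ≠ ∞ := ENNReal.ofReal_ne_top
  have e1 : ∫⁻ x, liftA_rad F x = ENNReal.ofReal (1 / ((k + 1 + l : ℕ) + 1)) *
      ∫⁻ x : S ((k + 1) + (l + 1)), F x ∂(sm ((k + 1) + (l + 1))) :=
    liftA_e1 (k + 1 + l) F hF
  have e2 : ∫⁻ x, liftA_rad F x = ENNReal.ofReal (1 / ((k + 1 + l : ℕ) + 1)) *
      ∫⁻ ω : S (k + 1), ∫⁻ η : S (l + 1), (∫⁻ θ in Ioo 0 (π / 2),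
        ENNReal.ofReal (Real.sin θ ^ k * Real.cos θ ^ l) *
        F (bj (Real.sin θ • (ω : E (k + 1))) (Real.cos θ • (η : E (l + 1)))))
        ∂(sm (l + 1)) ∂(sm (k + 1)) := by
    rw [liftA_e2 k l _ m0, ← lintegral_const_mul' _ _ hct]
    refine lintegral_congr fun ω => ?_
    rw [← lintegral_const_mul' _ _ hct]
    refine lintegral_congr fun η => ?_
    exact liftA_planar k l F hF ω η
  rw [liftA_e3 k l F hF] at e2
  exact (ENNReal.mul_right_inj hc0 hct).1 (e1.symm.trans e2)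

end Pool.Agent.SDT.MP_6cbfb8_an

end -- MP_6cbfb8_an.LiftA

section -- MP_6cbfb8_an.LiftB

/-!
The Fourier transform of a lifted density.
-/

namespace Pool.Agent.SDT.MP_6cbfb8_an

open MeasureTheory Set
open scoped ENNReal Real RealInnerProductSpace

lemma liftB_mem {k l : ℕ} (θ : ℝ) (ω : S k) (η : S l) :
    bj (Real.sin θ • (ω : E k)) (Real.cos θ • (η : E l)) ∈ S (k + l) := by
  rw [mem_sphere_zero_iff_norm]
  have h : inner ℝ (bj (Real.sin θ • (ω : E k)) (Real.cos θ • (η : E l)))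
      (bj (Real.sin θ • (ω : E k)) (Real.cos θ • (η : E l))) = (1 : ℝ) := by
    rw [inner_bj, real_inner_self_eq_norm_sq, real_inner_self_eq_norm_sq, norm_smul, norm_smul]
    have h1 : ‖(ω : E k)‖ = 1 := by simp
    have h2 : ‖(η : E l)‖ = 1 := by simp
    rw [h1, h2]
    simp [Real.sin_sq_add_cos_sq]
  rw [real_inner_self_eq_norm_sq] at h
  nlinarith [norm_nonneg (bj (Real.sin θ • (ω : E k)) (Real.cos θ • (η : E l)))]

/-- The parametrisation of the sphere by pairs of points of two spheres and an angle. -/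
noncomputable def liftBmap {k l : ℕ} (q : ℝ × (S k × S l)) : S (k + l) :=
  ⟨bj (Real.sin q.1 • (q.2.1 : E k)) (Real.cos q.1 • (q.2.2 : E l)),
    liftB_mem q.1 q.2.1 q.2.2⟩

lemma liftB_cont {k l : ℕ} : Continuous (liftBmap : ℝ × (S k × S l) → S (k + l)) := by
  refine Continuous.subtype_mk ?_ _
  have h0 : Continuous fun q : ℝ × (S k × S l) =>
      ((Real.sin q.1 • (q.2.1 : E k), Real.cos q.1 • (q.2.2 : E l)) : E k × E l) := by fun_prop
  exact continuous_bj.comp h0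

/-- The weight of the angle. -/
noncomputable def liftBμ (k l : ℕ) : Measure ℝ :=
  ((volume : Measure ℝ).restrict (Ioo 0 (π / 2))).withDensity
    (fun θ => ENNReal.ofReal (Real.sin θ ^ k * Real.cos θ ^ l))

instance liftBμ_finite (k l : ℕ) : IsFiniteMeasure (liftBμ k l) := by
  refine ⟨?_⟩
  rw [liftBμ, withDensity_apply _ MeasurableSet.univ, Measure.restrict_univ]
  calc ∫⁻ θ in Ioo 0 (π / 2), ENNReal.ofReal (Real.sin θ ^ k * Real.cos θ ^ l)
      ≤ ∫⁻ θ in Ioo 0 (π / 2), 1 := by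
        refine lintegral_mono fun θ => ?_
        rw [← ENNReal.ofReal_one]
        refine ENNReal.ofReal_le_ofReal ?_
        refine (le_abs_self _).trans ?_
        rw [abs_mul, abs_pow, abs_pow]
        exact mul_le_one₀ (pow_le_one₀ (abs_nonneg _) (Real.abs_sin_le_one θ)) (by positivity)
          (pow_le_one₀ (abs_nonneg _) (Real.abs_cos_le_one θ))
    _ < ∞ := by simp

theorem liftB_mp (k l : ℕ) :
    MeasurePreserving (liftBmap : ℝ × (S (k + 1) × S (l + 1)) → S ((k + 1) + (l + 1)))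
      ((liftBμ k l).prod ((sm (k + 1)).prod (sm (l + 1)))) (sm ((k + 1) + (l + 1))) := by
  refine ⟨liftB_cont.measurable, ?_⟩
  refine Measure.ext fun A hA => ?_
  rw [Measure.map_apply liftB_cont.measurable hA]
  have hA' : MeasurableSet ((↑) '' A : Set (E ((k + 1) + (l + 1)))) :=
    (Metric.isClosed_sphere.measurableSet).subtype_image hA
  have h := bslice k l (((↑) '' A : Set (E ((k + 1) + (l + 1)))).indicator 1)
    (measurable_one.indicator hA')
  have e1 : ∀ x : S ((k + 1) + (l + 1)),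
      ((↑) '' A : Set (E ((k + 1) + (l + 1)))).indicator (1 : E ((k + 1) + (l + 1)) → ℝ≥0∞) x =
        A.indicator 1 x := by
    intro x
    classical
    simp only [indicator_apply, Subtype.val_injective.mem_set_image, Pi.one_apply]
  simp only [e1] at h
  rw [lintegral_indicator_one hA] at h
  have m1 : Measurable ((liftBmap ⁻¹' A).indicator (1 : ℝ × (S (k + 1) × S (l + 1)) → ℝ≥0∞)) :=
    measurable_one.indicator (liftB_cont.measurable hA)
  rw [h, ← lintegral_indicator_one (liftB_cont.measurable hA), lintegral_prod _ m1.aemeasurable,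
    liftBμ, lintegral_withDensity_eq_lintegral_mul _ (by fun_prop) m1.lintegral_prod_right']
  refine setLIntegral_congr_fun measurableSet_Ioo fun θ _ => ?_
  simp only [Pi.mul_apply]
  congr 1
  have m2 : Measurable fun q : S (k + 1) × S (l + 1) =>
      (liftBmap ⁻¹' A).indicator (1 : ℝ × (S (k + 1) × S (l + 1)) → ℝ≥0∞) (θ, q) :=
    m1.comp measurable_prodMk_left
  rw [lintegral_prod _ m2.aemeasurable]
  refine lintegral_congr fun ω => lintegral_congr fun η => ?_
  have e2 := e1 (liftBmap (θ, (ω, η)))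
  simp only [liftBmap] at e2
  rw [e2]
  rfl

lemma liftB_lift {κ i : ℕ} (G : E (κ + 2) → ℂ) {θ : ℝ} (hθ : θ ∈ Ioo 0 (π / 2)) (ω : S (κ + 1))
    (η : S (i + 2)) :
    (lift G : E ((κ + 1) + (i + 2)) → ℂ)
      (bj (Real.sin θ • (ω : E (κ + 1))) (Real.cos θ • (η : E (i + 2)))) =
      G (pt θ (ω : E (κ + 1))) := by
  unfold lift pt
  rw [fstE_bj, sndE_bj, norm_smul]
  have h2 : ‖(η : E (i + 2))‖ = 1 := by simp
  have h3 : 0 ≤ Real.cos θ :=
    (Real.cos_pos_of_mem_Ioo ⟨by linarith [hθ.1, Real.pi_pos], hθ.2⟩).le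
  rw [h2, mul_one, Real.norm_of_nonneg h3]

open DecayAux

lemma liftB_bessel (i : ℕ) (w : E (i + 2)) {c : ℝ} (hc : 0 ≤ c) :
    ∫ η : S (i + 2), ch (c * inner ℝ (η : E (i + 2)) w) ∂(sm (i + 2)) =
      (((sm (i + 1)).real univ : ℝ) : ℂ) *
        ∫ u in Ioo 0 π, ((Real.sin u ^ i : ℝ) : ℂ) * ch ((c * ‖w‖) * Real.cos u) := by
  have h1 : ∫ η : S (i + 2), ch (c * inner ℝ (η : E (i + 2)) w) ∂(sm (i + 2)) =
      extn (fun _ => (1:ℂ)) (c • w) := by
    rw [extn_eq]
    refine integral_congr_ae (Filter.Eventually.of_forall fun x => ?_)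
    simp only
    rw [one_mul, real_inner_smul_right]
  rw [h1, extn_one_rot, extn_one_eq, intervalIntegral.integral_of_le Real.pi_pos.le,
    integral_Ioc_eq_integral_Ioo, norm_smul, Real.norm_of_nonneg hc]

/-- The inner integral over the small sphere. -/
noncomputable def liftBK {κ : ℕ} (G : E (κ + 2) → ℂ) (y : E (κ + 1)) (θ : ℝ) : ℂ :=
  ∫ ω : S (κ + 1), G (pt θ (ω : E (κ + 1))) * ch (Real.sin θ * inner ℝ (ω : E (κ + 1)) y)
    ∂(sm (κ + 1))

section

variable {κ : ℕ} (G : E (κ + 2) → ℂ) (hG : Measurable G) (hb : ∀ x, ‖G x‖ ≤ 1) (y : E (κ + 1))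

include hG in
lemma measurable_liftBI : Measurable fun q : ℝ × S (κ + 1) =>
    G (pt q.1 (q.2 : E (κ + 1))) * ch (Real.sin q.1 * inner ℝ (q.2 : E (κ + 1)) y) := by
  have h0 : Continuous fun q : ℝ × S (κ + 1) => ((q.1, (q.2 : E (κ + 1))) : ℝ × E (κ + 1)) := by
    fun_prop
  have h1 : Measurable fun q : ℝ × S (κ + 1) => G (pt q.1 (q.2 : E (κ + 1))) :=
    hG.comp (continuous_pt.comp h0).measurable
  have h2 : Continuous fun q : ℝ × S (κ + 1) =>
      ch (Real.sin q.1 * inner ℝ (q.2 : E (κ + 1)) y) := by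
    have := continuous_ch
    fun_prop
  exact h1.mul h2.measurable

include hG in
lemma measurable_liftBK : Measurable (liftBK G y) :=
  ((measurable_liftBI G hG y).stronglyMeasurable.integral_prod_right' (ν := sm (κ + 1))).measurable

include hb in
lemma norm_liftBK_le (θ : ℝ) : ‖liftBK G y θ‖ ≤ (sm (κ + 1)).real univ := by
  unfold liftBK
  have h := norm_integral_le_of_norm_le_const (μ := sm (κ + 1)) (C := 1)
    (f := fun ω : S (κ + 1) => G (pt θ (ω : E (κ + 1))) *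
      ch (Real.sin θ * inner ℝ (ω : E (κ + 1)) y)) (Filter.Eventually.of_forall fun ω => by
        rw [norm_mul, norm_ch, mul_one]
        exact hb _)
  rwa [one_mul] at h

include hG hb in
lemma liftB_rhs (i : ℕ) (z : ℝ) : extn (tpow (i + 1) G) (join y z) =
    ∫ θ, liftBK G y θ * ch (z * Real.cos θ) ∂(liftBμ κ (i + 1)) := by
  set μ : Measure ℝ := ((volume : Measure ℝ).restrict (Ioo 0 π)).withDensity
        (fun θ => ENNReal.ofReal (Real.sin θ ^ κ)) with hμ
  have hsl := slicing κ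
  have hμfin : IsFiniteMeasure μ := by
    refine ⟨?_⟩
    rw [hμ, withDensity_apply _ MeasurableSet.univ, Measure.restrict_univ]
    calc ∫⁻ θ in Ioo 0 π, ENNReal.ofReal (Real.sin θ ^ κ) ≤ ∫⁻ θ in Ioo 0 π, 1 := by
          refine lintegral_mono fun θ => ?_
          rw [← ENNReal.ofReal_one]
          refine ENNReal.ofReal_le_ofReal ?_
          refine (le_abs_self _).trans ?_
          rw [abs_pow]
          exact pow_le_one₀ (abs_nonneg _) (Real.abs_sin_le_one θ)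
      _ < ∞ := by simp
  have htp : Measurable (tpow (i + 1) G) := by
    unfold tpow
    have h1 : Measurable fun x : E (κ + 2) => x (Fin.last (κ + 1)) :=
      (EuclideanSpace.proj (Fin.last (κ + 1)) : E (κ + 2) →L[ℝ] ℝ).continuous.measurable
    refine Measurable.ite (measurableSet_lt measurable_const h1) ?_ measurable_const
    refine hG.mul ?_
    fun_prop
  have htb : ∀ x : S (κ + 2), ‖tpow (i + 1) G (x : E (κ + 2))‖ ≤ 1 := by
    intro x
    unfold tpow
    split_ifs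
    · rw [norm_mul, Complex.norm_real, norm_pow]
      have h1 : ‖(x : E (κ + 2)) (Fin.last (κ + 1))‖ ≤ 1 := by
        have := PiLp.norm_apply_le (x : E (κ + 2)) (Fin.last (κ + 1))
        simpa using this
      exact mul_le_one₀ (hb _) (by positivity) (pow_le_one₀ (norm_nonneg _) h1)
    · simp
  have hF : Measurable (fun x : S (κ + 2) => tpow (i + 1) G x *
      ch (inner ℝ (x : E (κ + 2)) (join y z))) := by
    refine (htp.comp measurable_subtype_coe).mul ?_
    have : Continuous (fun x : S (κ + 2) => ch (inner ℝ (x : E (κ + 2)) (join y z))) := by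
      have := continuous_ch
      fun_prop
    exact this.measurable
  have hFi : Integrable (fun x : S (κ + 2) => tpow (i + 1) G x *
      ch (inner ℝ (x : E (κ + 2)) (join y z))) (sm (κ + 2)) := by
    refine Integrable.of_bound hF.aestronglyMeasurable 1 (Filter.Eventually.of_forall fun x => ?_)
    rw [norm_mul, norm_ch, mul_one]
    exact htb x
  have h1 : extn (tpow (i + 1) G) (join y z) =
      ∫ q : ℝ × S (κ + 1), tpow (i + 1) G (pt q.1 (q.2 : E (κ + 1))) *
        ch (inner ℝ (pt q.1 (q.2 : E (κ + 1))) (join y z)) ∂(μ.prod (sm (κ + 1))) := by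
    rw [extn_eq]
    conv_lhs => rw [← hsl.map_eq]
    rw [integral_map hsl.measurable.aemeasurable hF.aestronglyMeasurable]
  have h2 : Integrable (fun q : ℝ × S (κ + 1) => tpow (i + 1) G (pt q.1 (q.2 : E (κ + 1))) *
        ch (inner ℝ (pt q.1 (q.2 : E (κ + 1))) (join y z))) (μ.prod (sm (κ + 1))) :=
    hsl.integrable_comp_of_integrable hFi
  rw [h1, integral_prod _ h2, hμ, liftBμ,
    integral_withDensity_eq_integral_toReal_smul (by fun_prop) (by simp),
    integral_withDensity_eq_integral_toReal_smul (by fun_prop) (by simp)]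
  have h3 : Ioo 0 (π / 2) ⊆ Ioo 0 π := Ioo_subset_Ioo_right (by linarith [Real.pi_pos])
  rw [setIntegral_eq_of_subset_of_forall_sdiff_eq_zero measurableSet_Ioo h3]
  · refine setIntegral_congr_fun measurableSet_Ioo fun θ hθ => ?_
    have hc : 0 < Real.cos θ := Real.cos_pos_of_mem_Ioo ⟨by linarith [hθ.1, Real.pi_pos], hθ.2⟩
    have hs : 0 < Real.sin θ := Real.sin_pos_of_mem_Ioo (h3 hθ)
    simp only
    rw [ENNReal.toReal_ofReal (by positivity), ENNReal.toReal_ofReal (by positivity),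
      Complex.real_smul, Complex.real_smul]
    have h4 : ∀ ω : S (κ + 1), tpow (i + 1) G (pt θ (ω : E (κ + 1))) *
        ch (inner ℝ (pt θ (ω : E (κ + 1))) (join y z)) =
        (((Real.cos θ) ^ (i + 1) : ℝ) : ℂ) * ch (z * Real.cos θ) * (G (pt θ (ω : E (κ + 1))) *
          ch (Real.sin θ * inner ℝ (ω : E (κ + 1)) y)) := by
      intro ω
      have h5 : inner ℝ (pt θ (ω : E (κ + 1))) (join y z) =
          Real.sin θ * inner ℝ (ω : E (κ + 1)) y + z * Real.cos θ := by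
        unfold pt
        rw [DecayAux.inner_join, real_inner_smul_left]
        ring
      have h6 : (pt θ (ω : E (κ + 1))) (Fin.last (κ + 1)) = Real.cos θ := by
        unfold pt join
        simp
      rw [h5, ch_add]
      unfold tpow
      rw [h6, if_pos hc]
      ring
    simp only [h4]
    rw [integral_const_mul]
    unfold liftBK
    push_cast
    ring
  · intro θ hθ
    have hc : ¬ (0 < Real.cos θ) := by
      have h5 : π / 2 ≤ θ := by
        by_contra h
        push Not at h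
        exact hθ.2 ⟨hθ.1.1, h⟩
      have := Real.cos_nonpos_of_pi_div_two_le_of_le h5 (by linarith [hθ.1.2, Real.pi_pos])
      linarith
    have h4 : ∀ ω : S (κ + 1), tpow (i + 1) G (pt θ (ω : E (κ + 1))) = 0 := by
      intro ω
      have h6 : (pt θ (ω : E (κ + 1))) (Fin.last (κ + 1)) = Real.cos θ := by
        unfold pt join
        simp
      unfold tpow
      rw [h6, if_neg hc]
    simp only [h4, zero_mul, integral_zero, smul_zero]

include hG hb in
lemma liftB_lhs (i : ℕ) (w : E (i + 2)) :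
    extn (lift G : E ((κ + 1) + (i + 2)) → ℂ) (bj y w) =
    ∫ θ, liftBK G y θ * ((((sm (i + 1)).real univ : ℝ) : ℂ) *
        ∫ u in Ioo 0 π, ((Real.sin u ^ i : ℝ) : ℂ) * ch ((Real.cos θ * ‖w‖) * Real.cos u))
      ∂(liftBμ κ (i + 1)) := by
  have hmp := liftB_mp κ (i + 1)
  have hl : Measurable (lift G : E ((κ + 1) + (i + 2)) → ℂ) := by
    unfold lift
    have h1 : Continuous fun x : E ((κ + 1) + (i + 2)) => (fstE x : E (κ + 1)) := by
      unfold fstE
      refine (PiLp.continuous_toLp 2 _).comp ?_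
      fun_prop
    have h2 : Continuous fun x : E ((κ + 1) + (i + 2)) => (sndE x : E (i + 2)) := by
      unfold sndE
      refine (PiLp.continuous_toLp 2 _).comp ?_
      fun_prop
    exact hG.comp (continuous_join.comp (h1.prodMk h2.norm)).measurable
  have hF : Measurable (fun x : S ((κ + 1) + (i + 2)) => lift G (x : E ((κ + 1) + (i + 2))) *
      ch (inner ℝ (x : E ((κ + 1) + (i + 2))) (bj y w))) := by
    refine (hl.comp measurable_subtype_coe).mul ?_
    have : Continuous (fun x : S ((κ + 1) + (i + 2)) =>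
        ch (inner ℝ (x : E ((κ + 1) + (i + 2))) (bj y w))) := by
      have := continuous_ch
      fun_prop
    exact this.measurable
  have hFi : Integrable (fun x : S ((κ + 1) + (i + 2)) => lift G (x : E ((κ + 1) + (i + 2))) *
      ch (inner ℝ (x : E ((κ + 1) + (i + 2))) (bj y w))) (sm ((κ + 1) + (i + 2))) := by
    refine Integrable.of_bound hF.aestronglyMeasurable 1 (Filter.Eventually.of_forall fun x => ?_)
    rw [norm_mul, norm_ch, mul_one]
    exact hb _
  have h1 : extn (lift G : E ((κ + 1) + (i + 2)) → ℂ) (bj y w) =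
      ∫ q : ℝ × (S (κ + 1) × S (i + 2)), lift G ((liftBmap q : S ((κ + 1) + (i + 2))) :
          E ((κ + 1) + (i + 2))) * ch (inner ℝ ((liftBmap q : S ((κ + 1) + (i + 2))) :
          E ((κ + 1) + (i + 2))) (bj y w))
        ∂((liftBμ κ (i + 1)).prod ((sm (κ + 1)).prod (sm (i + 2)))) := by
    rw [extn_eq]
    conv_lhs => rw [← hmp.map_eq]
    rw [integral_map hmp.measurable.aemeasurable hF.aestronglyMeasurable]
  have h2 : Integrable (fun q : ℝ × (S (κ + 1) × S (i + 2)) =>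
      lift G ((liftBmap q : S ((κ + 1) + (i + 2))) :
          E ((κ + 1) + (i + 2))) * ch (inner ℝ ((liftBmap q : S ((κ + 1) + (i + 2))) :
          E ((κ + 1) + (i + 2))) (bj y w)))
      ((liftBμ κ (i + 1)).prod ((sm (κ + 1)).prod (sm (i + 2)))) :=
    hmp.integrable_comp_of_integrable hFi
  rw [h1, integral_prod _ h2, liftBμ,
    integral_withDensity_eq_integral_toReal_smul (by fun_prop) (by simp),
    integral_withDensity_eq_integral_toReal_smul (by fun_prop) (by simp)]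
  refine setIntegral_congr_fun measurableSet_Ioo fun θ hθ => ?_
  have hc : 0 < Real.cos θ := Real.cos_pos_of_mem_Ioo ⟨by linarith [hθ.1, Real.pi_pos], hθ.2⟩
  congr 1
  have h4 : ∀ q : S (κ + 1) × S (i + 2), lift G ((liftBmap (θ, q) : S ((κ + 1) + (i + 2))) :
          E ((κ + 1) + (i + 2))) * ch (inner ℝ ((liftBmap (θ, q) : S ((κ + 1) + (i + 2))) :
          E ((κ + 1) + (i + 2))) (bj y w)) = (G (pt θ (q.1 : E (κ + 1))) *
          ch (Real.sin θ * inner ℝ (q.1 : E (κ + 1)) y)) *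
          ch (Real.cos θ * inner ℝ (q.2 : E (i + 2)) w) := by
    intro q
    have h5 : inner ℝ ((liftBmap (θ, q) : S ((κ + 1) + (i + 2))) : E ((κ + 1) + (i + 2))) (bj y w) =
        Real.sin θ * inner ℝ (q.1 : E (κ + 1)) y + Real.cos θ * inner ℝ (q.2 : E (i + 2)) w := by
      unfold liftBmap
      rw [inner_bj, real_inner_smul_left, real_inner_smul_left]
    have h6 : lift G ((liftBmap (θ, q) : S ((κ + 1) + (i + 2))) : E ((κ + 1) + (i + 2))) =
        G (pt θ (q.1 : E (κ + 1))) := liftB_lift G hθ q.1 q.2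
    rw [h5, h6, ch_add]
    ring
  simp only [h4]
  rw [integral_prod_mul (f := fun ω : S (κ + 1) => G (pt θ (ω : E (κ + 1))) *
          ch (Real.sin θ * inner ℝ (ω : E (κ + 1)) y))
    (g := fun η : S (i + 2) => ch (Real.cos θ * inner ℝ (η : E (i + 2)) w)), liftB_bessel i w hc.le]
  rfl

end

theorem extn_lift (κ i : ℕ) (G : E (κ + 2) → ℂ) (hG : Measurable G) (hb : ∀ x, ‖G x‖ ≤ 1)
    (y : E (κ + 1)) (w : E (i + 2)) :
    extn (lift G : E ((κ + 1) + (i + 2)) → ℂ) (bj y w) =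
      (((sm (i + 1)).real univ : ℝ) : ℂ) * ∫ u in Ioo 0 π, ((Real.sin u ^ i : ℝ) : ℂ) *
        extn (tpow (i + 1) G) (join y (‖w‖ * Real.cos u)) := by
  rw [liftB_lhs G hG hb y i w]
  have h1 : ∀ θ : ℝ, liftBK G y θ * ((((sm (i + 1)).real univ : ℝ) : ℂ) *
        ∫ u in Ioo 0 π, ((Real.sin u ^ i : ℝ) : ℂ) * ch ((Real.cos θ * ‖w‖) * Real.cos u)) =
      (((sm (i + 1)).real univ : ℝ) : ℂ) * ∫ u in Ioo 0 π, liftBK G y θ *
        (((Real.sin u ^ i : ℝ) : ℂ) * ch ((Real.cos θ * ‖w‖) * Real.cos u)) := by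
    intro θ
    rw [integral_const_mul]
    ring
  simp only [h1]
  rw [integral_const_mul, integral_integral_swap]
  · congr 1
    refine integral_congr_ae (Filter.Eventually.of_forall fun u => ?_)
    simp only
    rw [liftB_rhs G hG hb y i, ← integral_const_mul]
    refine integral_congr_ae (Filter.Eventually.of_forall fun θ => ?_)
    simp only
    have h2 : Real.cos θ * ‖w‖ * Real.cos u = ‖w‖ * Real.cos u * Real.cos θ := by ring
    rw [h2]
    ring
  · have hm : Measurable (Function.uncurry fun (θ u : ℝ) => liftBK G y θ *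
        (((Real.sin u ^ i : ℝ) : ℂ) * ch ((Real.cos θ * ‖w‖) * Real.cos u))) := by
      have h2 : Measurable fun q : ℝ × ℝ => liftBK G y q.1 :=
        (measurable_liftBK G hG y).comp measurable_fst
      have h3 : Continuous fun q : ℝ × ℝ =>
          ((Real.sin q.2 ^ i : ℝ) : ℂ) * ch ((Real.cos q.1 * ‖w‖) * Real.cos q.2) := by
        have := continuous_ch
        fun_prop
      exact h2.mul h3.measurable
    refine Integrable.of_bound hm.aestronglyMeasurable ((sm (κ + 1)).real univ)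
      (Filter.Eventually.of_forall fun q => ?_)
    simp only [Function.uncurry]
    rw [norm_mul, norm_mul, norm_ch, mul_one, Complex.norm_real, norm_pow]
    calc ‖liftBK G y q.1‖ * ‖Real.sin q.2‖ ^ i ≤ (sm (κ + 1)).real univ * 1 :=
          mul_le_mul (norm_liftBK_le G hb y q.1)
            (pow_le_one₀ (norm_nonneg _) (Real.abs_sin_le_one _)) (by positivity)
            (by positivity)
      _ = _ := mul_one _

end Pool.Agent.SDT.MP_6cbfb8_an

end -- MP_6cbfb8_an.LiftB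

section -- N1.Evol

/-!
N1, block E: `vol_box`, `vol_strip`.
-/

namespace Pool.Agent.SDT.N1

open MeasureTheory Set Metric Pool.Agent.SDT.MP_6cbfb8_an Pool.Agent.SDT.MST
open scoped ENNReal Real ContDiff

theorem vol_box (x0 y0 : ℝ × ℝ) (δ ρ g d : ℝ) (hδ : 0 ≤ δ) (hδ1 : δ ≤ 1) (hρ : 0 < ρ)
    (hg : 0 ≤ g) (hd : 0 ≤ d) :
    volume {q : V × V | Nb δ ρ x0 y0 q ∧ |q.1.2.2| ≤ g ∧ |q.2.2.2| ≤ d} ≤
      ENNReal.ofReal (64 * ρ ^ 2 * g * d) := by
  have hsub : {q : V × V | Nb δ ρ x0 y0 q ∧ |q.1.2.2| ≤ g ∧ |q.2.2.2| ≤ d} ⊆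
      (Icc (ρ * (y0.1 - 1)) (ρ * (y0.1 + 1)) ×ˢ Icc (x0.1 - 1) (x0.1 + 1) ×ˢ Icc (-g) g) ×ˢ
      (Icc (ρ * (y0.2 - 1)) (ρ * (y0.2 + 1)) ×ˢ Icc (x0.2 - 1) (x0.2 + 1) ×ˢ Icc (-d) d) := by
    rintro ⟨⟨y1, a, z1⟩, ⟨y2, b, z2⟩⟩ ⟨⟨h1, h2, h3, h4, h5, h6⟩, h7, h8⟩
    simp only at h1 h2 h3 h4 h5 h6 h7 h8
    have key : ∀ y t : ℝ, |y / ρ - t| ≤ δ → ρ * (t - 1) ≤ y ∧ y ≤ ρ * (t + 1) := by
      intro y t ht
      rw [abs_le] at ht
      have e : y = ρ * (y / ρ) := by field_simp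
      constructor
      · rw [e]; exact mul_le_mul_of_nonneg_left (by linarith [ht.1]) hρ.le
      · rw [e]; exact mul_le_mul_of_nonneg_left (by linarith [ht.2]) hρ.le
    rw [abs_le] at h3 h4 h7 h8
    exact ⟨⟨key y1 _ h1, ⟨by linarith [h3.1], by linarith [h3.2]⟩, ⟨h7.1, h7.2⟩⟩,
      ⟨key y2 _ h2, ⟨by linarith [h4.1], by linarith [h4.2]⟩, ⟨h8.1, h8.2⟩⟩⟩
  refine (measure_mono hsub).trans ?_
  simp only [Measure.volume_eq_prod, Measure.prod_prod, Real.volume_Icc]
  rw [← ENNReal.ofReal_mul (by linarith), ← ENNReal.ofReal_mul (by nlinarith),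
    ← ENNReal.ofReal_mul (by linarith), ← ENNReal.ofReal_mul (by nlinarith),
    ← ENNReal.ofReal_mul (by
      refine mul_nonneg (by nlinarith) (mul_nonneg (by linarith) (by linarith)))]
  apply ENNReal.ofReal_le_ofReal
  apply le_of_eq
  ring

/-- measurability of `Nx` -/
private theorem vol_Nx_meas (ρ : ℝ) : Measurable (fun q : V × V => Nx ρ q) := by
  unfold Nx Nf om sg
  fun_prop

/-- lower bound of the difference of `om` -/
private theorem vol_om {c ρ y a a' : ℝ} (hc : 0 < c) (hρ : 0 < ρ)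
    (h1 : c / 2 ≤ a) (h2 : a ≤ 1) (h1' : c / 2 ≤ a') (h2' : a' ≤ 1)
    (h3 : c / 2 ≤ a - y) (h4 : a - y ≤ 1) (h3' : c / 2 ≤ a' - y) (h4' : a' - y ≤ 1) :
    c * |y / ρ| * |a - a'| ≤ |om ρ (y / ρ) a - om ρ (y / ρ) a'| := by
  have hρy : ρ * (y / ρ) = y := by field_simp
  have e : ∀ t : ℝ, 0 < t - y → om ρ (y / ρ) t = (N1E.om y t - 1) / ρ := by
    intro t ht
    unfold om N1E.om
    rw [hρy]
    field_simp
    ring
  have p1 : 0 < a - y := by linarith
  have p2 : 0 < a' - y := by linarith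
  rw [e a p1, e a' p2]
  have e2 : (N1E.om y a - 1) / ρ - (N1E.om y a' - 1) / ρ = (N1E.om y a - N1E.om y a') / ρ := by
    ring
  rw [e2, abs_div, abs_div, abs_of_pos hρ]
  have e3 : c * (|y| / ρ) * |a - a'| = c * (|y| * |a - a'|) / ρ := by ring
  rw [e3]
  refine div_le_div_of_nonneg_right ?_ hρ.le
  rw [← abs_mul]
  rcases le_total 0 (y * (a' - a)) with h | h
  · have h5 := N1E.om_sub hc h1 h2 h1' h2' h3 h4 h3' h4' h
    have h6 : |y * (a - a')| = y * (a' - a) := by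
      rw [show y * (a - a') = -(y * (a' - a)) by ring, abs_neg, abs_of_nonneg h]
    rw [h6]
    exact h5.trans (le_abs_self _)
  · have h' : 0 ≤ y * (a - a') := by nlinarith
    have h5 := N1E.om_sub hc h1' h2' h1 h2 h3' h4' h3 h4 h'
    rw [abs_of_nonneg h', abs_sub_comm]
    exact h5.trans (le_abs_self _)

theorem vol_strip (c : ℝ) (hc : 0 < c) (x0 y0 : ℝ × ℝ) (hx : x0 ∈ Kc c) (hy1 : y0.1 ≠ 0) :
    ∃ δ C : ℝ, 0 < δ ∧ 0 < C ∧ ∀ ρ : ℝ, 0 < ρ → ρ < δ → ∀ κ g d : ℝ, 0 ≤ κ → 0 ≤ g → 0 ≤ d →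
    volume {q : V × V | Nb δ ρ x0 y0 q ∧ |Nx ρ q| ≤ 2 * κ ∧ |q.1.2.2| ≤ g ∧ |q.2.2.2| ≤ d} ≤
      ENNReal.ofReal (C * ρ ^ 2 * κ * g * d) := by
  obtain ⟨hx1, hx2, hx3⟩ := hx
  have hy0 : 0 < |y0.1| := abs_pos.2 hy1
  have hden : 0 < 2 * (2 + |y0.1|) := by positivity
  obtain ⟨δ, hδ0, hδ1, hδ2, hδ3, hδ4⟩ : ∃ δ : ℝ, 0 < δ ∧ δ ≤ 1 ∧ δ ≤ |y0.1| / 2 ∧
      δ * (2 + |y0.1|) ≤ c / 2 ∧ δ * (2 + |y0.1|) ≤ c ^ 2 / 2 := by
    refine ⟨min (min 1 (|y0.1| / 2)) (min (c / (2 * (2 + |y0.1|))) (c ^ 2 / (2 * (2 + |y0.1|)))),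
      by positivity, (min_le_left _ _).trans (min_le_left _ _),
      (min_le_left _ _).trans (min_le_right _ _), ?_, ?_⟩
    · have h := (min_le_right (min 1 (|y0.1| / 2))
        (min (c / (2 * (2 + |y0.1|))) (c ^ 2 / (2 * (2 + |y0.1|))))).trans (min_le_left _ _)
      rw [le_div_iff₀ hden] at h
      linarith
    · have h := (min_le_right (min 1 (|y0.1| / 2))
        (min (c / (2 * (2 + |y0.1|))) (c ^ 2 / (2 * (2 + |y0.1|))))).trans (min_le_right _ _)
      rw [le_div_iff₀ hden] at h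
      linarith
  refine ⟨δ, 256 / (c * |y0.1|), hδ0, by positivity, ?_⟩
  intro ρ hρ hρδ κ g d hκ hg hd
  -- measurability
  have mN := vol_Nx_meas ρ
  have hR : MeasurableSet {q : V × V | Nb δ ρ x0 y0 q ∧ |Nx ρ q| ≤ 2 * κ ∧ |q.1.2.2| ≤ g ∧
      |q.2.2.2| ≤ d} := by
    refine MeasurableSet.inter (s₁ := {q : V × V | Nb δ ρ x0 y0 q}) ?_ (MeasurableSet.inter
      (s₁ := {q : V × V | |Nx ρ q| ≤ 2 * κ}) (s₂ := {q : V × V | |q.1.2.2| ≤ g ∧ |q.2.2.2| ≤ d})
      (measurableSet_le mN.abs measurable_const) ?_)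
    · have e : {q : V × V | Nb δ ρ x0 y0 q} = {q : V × V | |q.1.1 / ρ - y0.1| ≤ δ} ∩
          ({q : V × V | |q.2.1 / ρ - y0.2| ≤ δ} ∩ ({q : V × V | |q.1.2.1 - x0.1| ≤ δ} ∩
          ({q : V × V | |q.2.2.1 - x0.2| ≤ δ} ∩ ({q : V × V | |q.1.2.2| ≤ δ} ∩
          {q : V × V | |q.2.2.2| ≤ δ})))) := rfl
      rw [e]
      refine (measurableSet_le (by fun_prop) measurable_const).inter
        ((measurableSet_le (by fun_prop) measurable_const).inter
        ((measurableSet_le (by fun_prop) measurable_const).inter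
        ((measurableSet_le (by fun_prop) measurable_const).inter
        ((measurableSet_le (by fun_prop) measurable_const).inter
        (measurableSet_le (by fun_prop) measurable_const)))))
    · have m1 : Measurable fun q : V × V => |q.1.2.2| := by fun_prop
      have m2 : Measurable fun q : V × V => |q.2.2.2| := by fun_prop
      exact MeasurableSet.inter (s₁ := {q : V × V | |q.1.2.2| ≤ g})
        (s₂ := {q : V × V | |q.2.2.2| ≤ d}) (measurableSet_le m1 measurable_const)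
        (measurableSet_le m2 measurable_const)
  have hk : 0 ≤ 8 * κ / (c * |y0.1|) := by positivity
  have key : ∀ y t : ℝ, |y / ρ - t| ≤ δ → ρ * (t - 1) ≤ y ∧ y ≤ ρ * (t + 1) := by
    intro y t ht
    rw [abs_le] at ht
    have e : y = ρ * (y / ρ) := by field_simp
    constructor
    · rw [e]; exact mul_le_mul_of_nonneg_left (by linarith [ht.1]) hρ.le
    · rw [e]; exact mul_le_mul_of_nonneg_left (by linarith [ht.2]) hρ.le
  have h := N1E.vol_slice (I1 := Icc (ρ * (y0.1 - 1)) (ρ * (y0.1 + 1))) (I3 := Icc (-g) g)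
    (J1 := Icc (ρ * (y0.2 - 1)) (ρ * (y0.2 + 1))) (J2 := Icc (x0.2 - 1) (x0.2 + 1))
    (J3 := Icc (-d) d) hk _ hR ?_ ?_
  · refine h.trans ?_
    simp only [Real.volume_Icc]
    rw [← ENNReal.ofReal_mul hk, ← ENNReal.ofReal_mul (by
        refine mul_nonneg hk (by linarith)), ← ENNReal.ofReal_mul (by linarith),
      ← ENNReal.ofReal_mul (by nlinarith), ← ENNReal.ofReal_mul (by
        refine mul_nonneg (mul_nonneg hk (by linarith)) (by nlinarith))]
    apply ENNReal.ofReal_le_ofReal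
    apply le_of_eq
    field_simp
    ring
  · rintro ⟨⟨y1, a, z1⟩, ⟨y2, b, z2⟩⟩ ⟨⟨h1, h2, h3, h4, h5, h6⟩, h7, h8, h9⟩
    simp only at h1 h2 h3 h4 h5 h6 h8 h9
    rw [abs_le] at h4 h8 h9
    exact ⟨key y1 _ h1, ⟨h8.1, h8.2⟩, key y2 _ h2, ⟨by linarith [h4.1], by linarith [h4.2]⟩,
      ⟨h9.1, h9.2⟩⟩
  · rintro y1 a a' z1 ⟨y2, b, z2⟩ ⟨⟨h1, h2, h3, h4, h5, h6⟩, h7, h8, h9⟩
      ⟨⟨-, -, h3', -, -, -⟩, h7', -, -⟩
    simp only at h1 h2 h3 h4 h5 h6 h8 h9 h3'
    have hyρ : |y1| ≤ δ * (|y0.1| + 1) := by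
      have e : y1 = ρ * (y1 / ρ) := by field_simp
      have e1 : |y1 / ρ| ≤ |y0.1| + 1 := by
        have := abs_sub_abs_le_abs_sub (y1 / ρ) y0.1
        linarith
      rw [e, abs_mul, abs_of_pos hρ]
      exact mul_le_mul hρδ.le e1 (abs_nonneg _) hδ0.le
    have hylow : |y0.1| / 2 ≤ |y1 / ρ| := by
      have := abs_sub_abs_le_abs_sub y0.1 (y1 / ρ)
      rw [abs_sub_comm] at this
      linarith
    have hxu : x0.1 ≤ 1 - c ^ 2 / 2 := by nlinarith [sq_nonneg (x0.1 - 1), sq_nonneg (x0.1 + 1)]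
    have rng : ∀ t : ℝ, |t - x0.1| ≤ δ → c / 2 ≤ t ∧ t ≤ 1 ∧ c / 2 ≤ t - y1 ∧ t - y1 ≤ 1 := by
      intro t ht
      rw [abs_le] at ht
      have hy := abs_le.1 hyρ
      refine ⟨?_, ?_, ?_, ?_⟩ <;> nlinarith [ht.1, ht.2, hy.1, hy.2, abs_nonneg y0.1]
    obtain ⟨r1, r2, r3, r4⟩ := rng a h3
    obtain ⟨r1', r2', r3', r4'⟩ := rng a' h3'
    have hlow := vol_om hc hρ r1 r2 r1' r2' r3 r4 r3' r4'
    have hN : |om ρ (y1 / ρ) a - om ρ (y1 / ρ) a'| ≤ 4 * κ := by
      simp only [Nx, Nf] at h7 h7'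
      have e : om ρ (y1 / ρ) a - om ρ (y1 / ρ) a' = (om ρ (y1 / ρ) a - sg ρ (y2 / ρ) b) -
        (om ρ (y1 / ρ) a' - sg ρ (y2 / ρ) b) := by ring
      rw [e]
      exact (abs_sub _ _).trans (by linarith)
    rw [le_div_iff₀ (by positivity)]
    have h10 : c * (|y0.1| / 2) * |a - a'| ≤ 4 * κ := by
      refine le_trans ?_ (hlow.trans hN)
      exact mul_le_mul_of_nonneg_right (mul_le_mul_of_nonneg_left hylow hc.le) (abs_nonneg _)
    nlinarith

end Pool.Agent.SDT.N1

end -- N1.Evol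

section -- N1F.Vol

/-!
N1F, block A4: `vol_boxF`, `vol_stripF`.
-/

namespace Pool.Agent.SDT.N1F

open MeasureTheory Set Metric Pool.Agent.SDT.MP_6cbfb8_an Pool.Agent.SDT.MST Pool.Agent.SDT.N1
open scoped ENNReal Real ContDiff

private theorem volF_key {s δ : ℝ} (hs : 0 < s) (hδ1 : δ ≤ 1) : ∀ y t : ℝ, |y / s - t| ≤ δ →
    s * (t - 1) ≤ y ∧ y ≤ s * (t + 1) := by
  intro y t ht
  rw [abs_le] at ht
  have e : y = s * (y / s) := by field_simp
  constructor
  · rw [e]; exact mul_le_mul_of_nonneg_left (by linarith [ht.1]) hs.le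
  · rw [e]; exact mul_le_mul_of_nonneg_left (by linarith [ht.2]) hs.le

theorem vol_boxF (al be : ℝ) (x0 y0 : ℝ × ℝ) (δ ρ g d : ℝ) (hal : 0 < al) (hbe : 0 < be)
    (hδ : 0 ≤ δ) (hδ1 : δ ≤ 1) (hρ : 0 < ρ) (hg : 0 ≤ g) (hd : 0 ≤ d) :
    volume {q : V × V | NbF al be δ ρ x0 y0 q ∧ |q.1.2.2| ≤ g ∧ |q.2.2.2| ≤ d} ≤
      ENNReal.ofReal (64 * (al ^ 2 * be ^ 4) * ρ ^ 2 * g * d) := by
  have hs1 : 0 < al * be ^ 2 * ρ := by positivity
  have hs2 : 0 < be * ρ := by positivity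
  have hsub : {q : V × V | NbF al be δ ρ x0 y0 q ∧ |q.1.2.2| ≤ g ∧ |q.2.2.2| ≤ d} ⊆
      (Icc (al * be ^ 2 * ρ * (y0.1 - 1)) (al * be ^ 2 * ρ * (y0.1 + 1)) ×ˢ
        Icc (al * (x0.1 - 1)) (al * (x0.1 + 1)) ×ˢ Icc (-g) g) ×ˢ
      (Icc (be * ρ * (y0.2 - 1)) (be * ρ * (y0.2 + 1)) ×ˢ
        Icc (be * (x0.2 - 1)) (be * (x0.2 + 1)) ×ˢ Icc (-d) d) := by
    rintro ⟨⟨y1, a, z1⟩, ⟨y2, b, z2⟩⟩ ⟨⟨h1, h2, h3, h4, h5, h6⟩, h7, h8⟩
    simp only at h1 h2 h3 h4 h5 h6 h7 h8
    rw [abs_le] at h7 h8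
    exact ⟨⟨volF_key hs1 hδ1 y1 _ h1, volF_key hal hδ1 a _ h3, ⟨h7.1, h7.2⟩⟩,
      ⟨volF_key hs2 hδ1 y2 _ h2, volF_key hbe hδ1 b _ h4, ⟨h8.1, h8.2⟩⟩⟩
  refine (measure_mono hsub).trans ?_
  have e1 : al * be ^ 2 * ρ * (y0.1 + 1) - al * be ^ 2 * ρ * (y0.1 - 1) =
      2 * (al * be ^ 2 * ρ) := by ring
  have e2 : al * (x0.1 + 1) - al * (x0.1 - 1) = 2 * al := by ring
  have e3 : g - -g = 2 * g := by ring
  have e4 : be * ρ * (y0.2 + 1) - be * ρ * (y0.2 - 1) = 2 * (be * ρ) := by ring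
  have e5 : be * (x0.2 + 1) - be * (x0.2 - 1) = 2 * be := by ring
  have e6 : d - -d = 2 * d := by ring
  simp only [Measure.volume_eq_prod, Measure.prod_prod, Real.volume_Icc, e1, e2, e3, e4, e5, e6]
  rw [← ENNReal.ofReal_mul (by positivity), ← ENNReal.ofReal_mul (by positivity),
    ← ENNReal.ofReal_mul (by positivity), ← ENNReal.ofReal_mul (by positivity),
    ← ENNReal.ofReal_mul (by positivity)]
  apply ENNReal.ofReal_le_ofReal
  apply le_of_eq
  ring

/-- measurability of `Nx` -/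
private theorem volF_Nx_meas (ρ : ℝ) : Measurable (fun q : V × V => Nx ρ q) := by
  unfold Nx Nf om sg
  fun_prop

/-- lower bound for the difference of the scaled function `om` -/
private theorem volF_om {x r Y a a' : ℝ} (hx : 0 < x) (hr : 0 < r)
    (ha1 : x / 2 ≤ a) (ha2 : a ≤ 2 * x) (ha1' : x / 2 ≤ a') (ha2' : a' ≤ 2 * x)
    (hY : |r * Y| ≤ x / 4) :
    |Y| * |a - a'| ≤ 12 * x ^ 2 * |om r Y a - om r Y a'| := by
  rw [abs_le] at hY
  have p1 : 0 < a - r * Y := by linarith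
  have p2 : 0 < a' - r * Y := by linarith
  have q1 : a - r * Y ≤ 9 * x / 4 := by linarith
  have q2 : a' - r * Y ≤ 9 * x / 4 := by linarith
  have pa : 0 < a := by linarith
  have pa' : 0 < a' := by linarith
  have e : om r Y a - om r Y a' =
      Y * (a' - a) * ((a / (a - r * Y) + a' / (a' - r * Y)) / ((a - r * Y) * (a' - r * Y))) := by
    unfold om
    have key : ∀ w p q : ℝ, p ≠ 0 → q ≠ 0 → Y * (2 * (p + w) - w) / p ^ 2 -
        Y * (2 * (q + w) - w) / q ^ 2 =
        Y * (q - p) * (((p + w) / p + (q + w) / q) / (p * q)) := by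
      intro w p q hp hq
      field_simp
      ring
    have k1 := key (r * Y) (a - r * Y) (a' - r * Y) p1.ne' p2.ne'
    have k2 : a - r * Y + r * Y = a := by ring
    have k3 : a' - r * Y + r * Y = a' := by ring
    have k4 : a' - r * Y - (a - r * Y) = a' - a := by ring
    rw [k2, k3, k4] at k1
    exact k1
  have l1 : 2 / 9 ≤ a / (a - r * Y) := by
    rw [div_le_div_iff₀ (by norm_num) p1]
    linarith
  have l2 : 2 / 9 ≤ a' / (a' - r * Y) := by
    rw [div_le_div_iff₀ (by norm_num) p2]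
    linarith
  have l3 : 1 / (12 * x ^ 2) ≤
      (a / (a - r * Y) + a' / (a' - r * Y)) / ((a - r * Y) * (a' - r * Y)) := by
    rw [div_le_div_iff₀ (by positivity) (by positivity)]
    have h1 : (a - r * Y) * (a' - r * Y) ≤ 9 * x / 4 * (9 * x / 4) :=
      mul_le_mul q1 q2 p2.le (by positivity)
    have h2 : 4 / 9 * (12 * x ^ 2) ≤ (a / (a - r * Y) + a' / (a' - r * Y)) * (12 * x ^ 2) := by
      gcongr
      linarith
    nlinarith
  rw [e, abs_mul, abs_mul, abs_of_nonneg (le_trans (by positivity) l3), abs_sub_comm a' a]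
  have h3 : 1 = 12 * x ^ 2 * (1 / (12 * x ^ 2)) := by field_simp
  calc |Y| * |a - a'| = |Y| * |a - a'| * (12 * x ^ 2 * (1 / (12 * x ^ 2))) := by
        rw [← h3, mul_one]
    _ ≤ |Y| * |a - a'| * (12 * x ^ 2 *
        ((a / (a - r * Y) + a' / (a' - r * Y)) / ((a - r * Y) * (a' - r * Y)))) := by gcongr
    _ = _ := by ring

theorem vol_stripF (c : ℝ) (hc : 0 < c) (A0 B0 : ℝ) (x0 y0 : ℝ × ℝ) (hb : Bs c A0 B0 x0)
    (hy1 : y0.1 ≠ 0) :
    ∃ δ C : ℝ, 0 < δ ∧ 0 < C ∧ ∀ al be : ℝ, Sz al be A0 B0 δ → ∀ ρ : ℝ, 0 < ρ → ρ < δ →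
    ∀ κ g d : ℝ, 0 ≤ κ → 0 ≤ g → 0 ≤ d →
    volume {q : V × V | NbF al be δ ρ x0 y0 q ∧ |Nx (be ^ 2 * ρ) q| ≤ 2 * κ ∧ |q.1.2.2| ≤ g ∧
      |q.2.2.2| ≤ d} ≤ ENNReal.ofReal (C * (al ^ 2 * be ^ 4) * ρ ^ 2 * κ * g * d) := by
  obtain ⟨-, -, -, hx, -, -⟩ := hb
  have hy0 : 0 < |y0.1| := abs_pos.2 hy1
  obtain ⟨δ, hδ0, hδ1, hδ2, hδ3, hδ4⟩ : ∃ δ : ℝ, 0 < δ ∧ δ ≤ 1 ∧ δ ≤ |y0.1| / 2 ∧
      δ ≤ x0.1 / 2 ∧ δ * (1 + |y0.1|) ≤ x0.1 / 4 := by
    refine ⟨min (min 1 (|y0.1| / 2)) (min (x0.1 / 2) (x0.1 / (4 * (1 + |y0.1|)))),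
      by positivity, (min_le_left _ _).trans (min_le_left _ _),
      (min_le_left _ _).trans (min_le_right _ _), (min_le_right _ _).trans (min_le_left _ _), ?_⟩
    have h := (min_le_right (min 1 (|y0.1| / 2))
      (min (x0.1 / 2) (x0.1 / (4 * (1 + |y0.1|))))).trans (min_le_right _ _)
    rw [le_div_iff₀ (by positivity)] at h
    linarith
  refine ⟨δ, 3072 * x0.1 ^ 2 / |y0.1|, hδ0, by positivity, ?_⟩
  intro al be hS ρ hρ hρδ κ g d hκ hg hd
  obtain ⟨hal, hal1, hbe, hbe1, -, -⟩ := hS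
  have hs1 : 0 < al * be ^ 2 * ρ := by positivity
  have hs2 : 0 < be * ρ := by positivity
  have hr : 0 < be ^ 2 * ρ := by positivity
  have hbe2 : be ^ 2 ≤ 1 := pow_le_one₀ hbe.le hbe1
  -- measurability
  have mN := volF_Nx_meas (be ^ 2 * ρ)
  have hR : MeasurableSet {q : V × V | NbF al be δ ρ x0 y0 q ∧ |Nx (be ^ 2 * ρ) q| ≤ 2 * κ ∧
      |q.1.2.2| ≤ g ∧ |q.2.2.2| ≤ d} := by
    refine MeasurableSet.inter (s₁ := {q : V × V | NbF al be δ ρ x0 y0 q}) ?_ (MeasurableSet.inter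
      (s₁ := {q : V × V | |Nx (be ^ 2 * ρ) q| ≤ 2 * κ})
      (s₂ := {q : V × V | |q.1.2.2| ≤ g ∧ |q.2.2.2| ≤ d})
      (measurableSet_le mN.abs measurable_const) ?_)
    · have e : {q : V × V | NbF al be δ ρ x0 y0 q} =
          {q : V × V | |q.1.1 / (al * be ^ 2 * ρ) - y0.1| ≤ δ} ∩
          ({q : V × V | |q.2.1 / (be * ρ) - y0.2| ≤ δ} ∩ ({q : V × V | |q.1.2.1 / al - x0.1| ≤ δ} ∩
          ({q : V × V | |q.2.2.1 / be - x0.2| ≤ δ} ∩ ({q : V × V | |q.1.2.2 / al| ≤ δ} ∩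
          {q : V × V | |q.2.2.2 / be| ≤ δ})))) := rfl
      rw [e]
      refine (measurableSet_le (by fun_prop) measurable_const).inter
        ((measurableSet_le (by fun_prop) measurable_const).inter
        ((measurableSet_le (by fun_prop) measurable_const).inter
        ((measurableSet_le (by fun_prop) measurable_const).inter
        ((measurableSet_le (by fun_prop) measurable_const).inter
        (measurableSet_le (by fun_prop) measurable_const)))))
    · have m1 : Measurable fun q : V × V => |q.1.2.2| := by fun_prop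
      have m2 : Measurable fun q : V × V => |q.2.2.2| := by fun_prop
      exact MeasurableSet.inter (s₁ := {q : V × V | |q.1.2.2| ≤ g})
        (s₂ := {q : V × V | |q.2.2.2| ≤ d}) (measurableSet_le m1 measurable_const)
        (measurableSet_le m2 measurable_const)
  have hk : 0 ≤ al * (96 * x0.1 ^ 2 * κ / |y0.1|) := by positivity
  have h := N1E.vol_slice
    (I1 := Icc (al * be ^ 2 * ρ * (y0.1 - 1)) (al * be ^ 2 * ρ * (y0.1 + 1)))
    (I3 := Icc (-g) g)
    (J1 := Icc (be * ρ * (y0.2 - 1)) (be * ρ * (y0.2 + 1)))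
    (J2 := Icc (be * (x0.2 - 1)) (be * (x0.2 + 1)))
    (J3 := Icc (-d) d) hk _ hR ?_ ?_
  · refine h.trans ?_
    have e1 : al * be ^ 2 * ρ * (y0.1 + 1) - al * be ^ 2 * ρ * (y0.1 - 1) =
        2 * (al * be ^ 2 * ρ) := by ring
    have e3 : g - -g = 2 * g := by ring
    have e4 : be * ρ * (y0.2 + 1) - be * ρ * (y0.2 - 1) = 2 * (be * ρ) := by ring
    have e5 : be * (x0.2 + 1) - be * (x0.2 - 1) = 2 * be := by ring
    have e6 : d - -d = 2 * d := by ring
    simp only [Real.volume_Icc, e1, e3, e4, e5, e6]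
    rw [← ENNReal.ofReal_mul (by positivity), ← ENNReal.ofReal_mul (by positivity),
      ← ENNReal.ofReal_mul (by positivity), ← ENNReal.ofReal_mul (by positivity),
      ← ENNReal.ofReal_mul (by positivity)]
    apply ENNReal.ofReal_le_ofReal
    apply le_of_eq
    field_simp
    ring
  · rintro ⟨⟨y1, a, z1⟩, ⟨y2, b, z2⟩⟩ ⟨⟨h1, h2, h3, h4, h5, h6⟩, h7, h8, h9⟩
    simp only at h1 h2 h3 h4 h5 h6 h8 h9
    rw [abs_le] at h8 h9
    exact ⟨volF_key hs1 hδ1 y1 _ h1, ⟨h8.1, h8.2⟩, volF_key hs2 hδ1 y2 _ h2,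
      volF_key hbe hδ1 b _ h4, ⟨h9.1, h9.2⟩⟩
  · rintro y1 a a' z1 ⟨y2, b, z2⟩ ⟨⟨h1, h2, h3, h4, h5, h6⟩, h7, h8, h9⟩
      ⟨⟨-, -, h3', -, -, -⟩, h7', -, -⟩
    simp only at h1 h2 h3 h4 h5 h6 h8 h9 h3'
    have hYu : |y1 / (al * be ^ 2 * ρ)| ≤ 1 + |y0.1| := by
      have := abs_sub_abs_le_abs_sub (y1 / (al * be ^ 2 * ρ)) y0.1
      linarith
    have hYl : |y0.1| / 2 ≤ |y1 / (al * be ^ 2 * ρ)| := by
      have := abs_sub_abs_le_abs_sub y0.1 (y1 / (al * be ^ 2 * ρ))
      rw [abs_sub_comm] at this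
      linarith
    have hrY : |be ^ 2 * ρ * (y1 / (al * be ^ 2 * ρ))| ≤ x0.1 / 4 := by
      rw [abs_mul, abs_of_pos hr]
      calc be ^ 2 * ρ * |y1 / (al * be ^ 2 * ρ)| ≤ 1 * δ * (1 + |y0.1|) := by gcongr
        _ ≤ x0.1 / 4 := by linarith
    have rng : ∀ t : ℝ, |t / al - x0.1| ≤ δ → x0.1 / 2 ≤ t / al ∧ t / al ≤ 2 * x0.1 := by
      intro t ht
      rw [abs_le] at ht
      constructor <;> linarith [ht.1, ht.2]
    obtain ⟨r1, r2⟩ := rng a h3
    obtain ⟨r1', r2'⟩ := rng a' h3'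
    have hlow := volF_om hx hr r1 r2 r1' r2' hrY
    -- scaling of `om`
    have hom : ∀ t : ℝ, x0.1 / 2 ≤ t / al → om (be ^ 2 * ρ) (y1 / (be ^ 2 * ρ)) t =
        om (be ^ 2 * ρ) (y1 / (al * be ^ 2 * ρ)) (t / al) := by
      intro t ht
      have hw : be ^ 2 * ρ * (y1 / (al * be ^ 2 * ρ)) = y1 / al := by
        field_simp
      have hw2 : be ^ 2 * ρ * (y1 / (be ^ 2 * ρ)) = y1 := by
        field_simp
      have hp : 0 < t / al - y1 / al := by
        rw [hw, abs_le] at hrY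
        linarith [hrY.2]
      have hp2 : 0 < t - y1 := by
        have : t / al - y1 / al = (t - y1) / al := by ring
        rw [this] at hp
        exact (div_pos_iff_of_pos_right hal).1 hp
      unfold om
      rw [hw, hw2]
      field_simp
    have hN : |om (be ^ 2 * ρ) (y1 / (al * be ^ 2 * ρ)) (a / al) -
        om (be ^ 2 * ρ) (y1 / (al * be ^ 2 * ρ)) (a' / al)| ≤ 4 * κ := by
      rw [← hom a r1, ← hom a' r1']
      simp only [Nx, Nf] at h7 h7'
      have e : om (be ^ 2 * ρ) (y1 / (be ^ 2 * ρ)) a - om (be ^ 2 * ρ) (y1 / (be ^ 2 * ρ)) a' =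
          (om (be ^ 2 * ρ) (y1 / (be ^ 2 * ρ)) a - sg (be ^ 2 * ρ) (y2 / (be ^ 2 * ρ)) b) -
          (om (be ^ 2 * ρ) (y1 / (be ^ 2 * ρ)) a' - sg (be ^ 2 * ρ) (y2 / (be ^ 2 * ρ)) b) := by
        ring
      rw [e]
      exact (abs_sub _ _).trans (by linarith)
    have h10 : |y0.1| / 2 * |a / al - a' / al| ≤ 12 * x0.1 ^ 2 * (4 * κ) := by
      calc |y0.1| / 2 * |a / al - a' / al| ≤
          |y1 / (al * be ^ 2 * ρ)| * |a / al - a' / al| := by gcongr
        _ ≤ _ := hlow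
        _ ≤ 12 * x0.1 ^ 2 * (4 * κ) := by gcongr
    have h11 : |a - a'| = al * |a / al - a' / al| := by
      have e : a - a' = al * (a / al - a' / al) := by field_simp
      conv_lhs => rw [e]
      rw [abs_mul, abs_of_pos hal]
    rw [h11]
    gcongr
    rw [le_div_iff₀ hy0]
    nlinarith

end Pool.Agent.SDT.N1F

end -- N1F.Vol
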