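import Pool.Agent.SDT.B05
import Pool.Agent.SDT.B08

set_option autoImplicit false

namespace Pool.Agent.SDT.MP_6cbfb8_an
end Pool.Agent.SDT.MP_6cbfb8_an
namespace Pool.Agent.SDT.MST
end Pool.Agent.SDT.MST
namespace Pool.Agent.SDT.N1
end Pool.Agent.SDT.N1

section -- MP_6cbfb8_an.Slice

/-!
Consequences of the slicing formula; the Stein-Tomas estimate in polar coordinates.
-/

namespace Pool.Agent.SDT.MP_6cbfb8_an

open MeasureTheory Set
open scoped ENNReal Real RealInnerProductSpace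

lemma measurable_join {n : ℕ} : Measurable fun q : E n × ℝ => join q.1 q.2 := by
  unfold join
  refine (WithLp.measurable_toLp 2 _).comp ?_
  refine measurable_pi_lambda _ fun i => ?_
  refine Fin.lastCases ?_ (fun i => ?_) i
  · simp only [Fin.snoc_last]
    fun_prop
  · simp only [Fin.snoc_castSucc]
    fun_prop

lemma measurable_pt {n : ℕ} : Measurable fun q : ℝ × E n => pt q.1 q.2 := by
  unfold pt
  exact measurable_join.comp (f := fun q : ℝ × E n => (Real.sin q.1 • q.2, Real.cos q.1))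
    (by fun_prop)

lemma join_castSucc {n : ℕ} (y : E n) (z : ℝ) (i : Fin n) : join y z (Fin.castSucc i) = y i := by
  simp [join]

lemma join_last {n : ℕ} (y : E n) (z : ℝ) : join y z (Fin.last n) = z := by
  simp [join]

lemma lintegral_slice (j : ℕ) (φ : E (j + 2) → ℝ≥0∞) (hφ : Measurable φ) :
    ∫⁻ x : S (j + 2), φ x ∂(sm (j + 2)) =
      ∫⁻ θ in Ioo 0 π, ENNReal.ofReal (Real.sin θ ^ j) *
        (∫⁻ ω : S (j + 1), φ (pt θ (ω : E (j + 1))) ∂(sm (j + 1))) := by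
  have h := (slicing j).lintegral_comp (f := fun x : S (j + 2) => φ (x : E (j + 2)))
    (hφ.comp measurable_subtype_coe)
  rw [← h]
  have hm : Measurable fun q : ℝ × S (j + 1) => φ (pt q.1 (q.2 : E (j + 1))) := by
    refine hφ.comp (measurable_pt.comp (f := fun q : ℝ × S (j + 1) => (q.1, (q.2 : E (j + 1)))) ?_)
    fun_prop
  rw [lintegral_prod _ hm.aemeasurable]
  rw [lintegral_withDensity_eq_lintegral_mul₀]
  · rfl
  · fun_prop
  · exact (hm.lintegral_prod_right' (ν := sm (j + 1))).aemeasurable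

/-- The function on the sphere of `R^(n+1)` with given values in polar coordinates. -/
noncomputable def uncyl {n : ℕ} (G : ℝ → E n → ℂ) (x : E (n + 1)) : ℂ :=
  G (Real.arccos (x (Fin.last n)))
    (‖(WithLp.toLp 2 fun i => x (Fin.castSucc i) : E n)‖⁻¹ •
      (WithLp.toLp 2 fun i => x (Fin.castSucc i) : E n))

lemma measurable_uncyl {n : ℕ} (G : ℝ → E n → ℂ) (hG : Measurable (Function.uncurry G)) :
    Measurable (uncyl G) := by
  unfold uncyl
  have h0 : Measurable fun x : E (n + 1) => (WithLp.toLp 2 fun i => x (Fin.castSucc i) : E n) := by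
    refine (WithLp.measurable_toLp 2 _).comp ?_
    fun_prop
  have h1 : Measurable fun x : E (n + 1) => (Real.arccos (x (Fin.last n)),
    ‖(WithLp.toLp 2 fun i => x (Fin.castSucc i) : E n)‖⁻¹ •
      (WithLp.toLp 2 fun i => x (Fin.castSucc i) : E n)) := by
    refine Measurable.prodMk ?_ ?_
    · exact Real.continuous_arccos.measurable.comp (by fun_prop)
    · exact (h0.norm.inv).smul h0
  exact hG.comp h1

lemma uncyl_pt {n : ℕ} (G : ℝ → E n → ℂ) {θ : ℝ} (hθ : θ ∈ Ioo 0 π) (ω : S n) :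
    uncyl G (pt θ (ω : E n)) = G θ ω := by
  unfold uncyl pt
  have h1 : (WithLp.toLp 2 fun i => (join (Real.sin θ • (ω : E n)) (Real.cos θ)) (Fin.castSucc i) : E n)
      = Real.sin θ • (ω : E n) := by
    ext i
    simp [join_castSucc]
  have hs : 0 < Real.sin θ := Real.sin_pos_of_mem_Ioo hθ
  have hω : ‖(ω : E n)‖ = 1 := by simp
  rw [h1, join_last, Real.arccos_cos hθ.1.le hθ.2.le, norm_smul, hω, mul_one, Real.norm_eq_abs,
    abs_of_pos hs, smul_smul, inv_mul_cancel₀ hs.ne', one_smul]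

lemma measurable_extn {n : ℕ} (g : E n → ℂ) (hg : Measurable g) : Measurable (extn g) := by
  unfold extn
  have h : Measurable fun q : E n × S n => g q.2 *
      Complex.exp (((-(2 * π * inner ℝ (q.2 : E n) q.1) : ℝ) : ℂ) * Complex.I) := by
    have h2 : Measurable fun q : E n × S n => (inner ℝ (q.2 : E n) q.1 : ℝ) := measurable_inner_coe
    have h1 : Measurable fun q : E n × S n => g (q.2 : E n) := by fun_prop
    fun_prop
  exact (h.stronglyMeasurable.integral_prod_right' (ν := sm n)).measurable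



end Pool.Agent.SDT.MP_6cbfb8_an

end -- MP_6cbfb8_an.Slice

section -- MP_6cbfb8_an.Super

/-!
Superpositions of modulated and rotated densities.
-/

namespace Pool.Agent.SDT.MP_6cbfb8_an

open MeasureTheory Set
open scoped ENNReal Real RealInnerProductSpace

section

variable {n : ℕ} {W : Type*} [MeasurableSpace W]

lemma measurable_extn_param (h : W → E n → ℂ) (hh : Measurable (Function.uncurry h)) :
    Measurable fun q : W × E n => extn (h q.1) q.2 := by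
  unfold extn
  have h1 : Measurable fun x : (W × E n) × S n => h x.1.1 (x.2 : E n) *
      Complex.exp (((-(2 * π * inner ℝ (x.2 : E n) x.1.2) : ℝ) : ℂ) * Complex.I) := by
    have h2 : Measurable fun x : (W × E n) × S n => h x.1.1 (x.2 : E n) :=
      hh.comp (f := fun x : (W × E n) × S n => (x.1.1, (x.2 : E n))) (by fun_prop)
    have h3 : Measurable fun x : (W × E n) × S n => (inner ℝ (x.2 : E n) x.1.2 : ℝ) := by
      have h4 : Measurable fun x : (W × E n) × S n => (x.2 : E n) := by fun_prop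
      have h5 : Measurable fun x : (W × E n) × S n => x.1.2 := by fun_prop
      exact h4.inner h5
    exact h2.mul (by fun_prop)
  exact (h1.stronglyMeasurable.integral_prod_right' (ν := sm n)).measurable

lemma extn_isometry (g : E n → ℂ) (R : E n ≃ₗᵢ[ℝ] E n) (ζ : E n) :
    ∫ x : S n, g (R x) * Complex.exp (((-(2 * π * inner ℝ (x : E n) ζ) : ℝ) : ℂ) * Complex.I) ∂(sm n)
      = extn g (R ζ) := by
  unfold extn
  have hme : MeasurableEmbedding (fun x : S n => (⟨R x, by simp⟩ : S n)) := by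
    have h1 : Continuous (fun x : S n => (⟨R x, by simp⟩ : S n)) :=
      (R.continuous.comp continuous_subtype_val).subtype_mk _
    refine h1.measurableEmbedding ?_
    intro a b hab
    have : R (a : E n) = R (b : E n) := congrArg Subtype.val hab
    exact Subtype.ext (R.injective this)
  have h := (measurePreserving_isometry R).integral_comp hme
    (fun x : S n => g x * Complex.exp (((-(2 * π * inner ℝ (x : E n) (R ζ)) : ℝ) : ℂ) * Complex.I))
  rw [← h]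
  refine integral_congr_ae (Filter.Eventually.of_forall fun x => ?_)
  simp only
  rw [R.inner_map_map]

lemma extn_mix (ν : Measure W) [IsFiniteMeasure ν] (R : W → (E n ≃ₗᵢ[ℝ] E n)) (η : W → E n)
    (h : W → E n → ℂ) (hR : Measurable fun q : W × E n => R q.1 q.2) (hη : Measurable η)
    (hh : Measurable (Function.uncurry h)) (hb : ∀ w x, ‖h w x‖ ≤ 1) (ξ : E n) :
    extn (mix ν R η h) ξ = ∫ w, extn (h w) (R w (ξ - η w)) ∂ν := by
  have hm : Measurable fun q : S n × W => h q.2 (R q.2 (q.1 : E n)) *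
      Complex.exp (((-(2 * π * inner ℝ (q.1 : E n) (ξ - η q.2)) : ℝ) : ℂ) * Complex.I) := by
    have h0 : Measurable fun q : S n × W => R q.2 (q.1 : E n) :=
      hR.comp (f := fun q : S n × W => (q.2, (q.1 : E n))) (by fun_prop)
    have h2 : Measurable fun q : S n × W => h q.2 (R q.2 (q.1 : E n)) :=
      hh.comp (f := fun q : S n × W => (q.2, R q.2 (q.1 : E n))) (measurable_snd.prodMk h0)
    have h3 : Measurable fun q : S n × W => (inner ℝ (q.1 : E n) (ξ - η q.2) : ℝ) := by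
      have h4 : Measurable fun q : S n × W => (q.1 : E n) := by fun_prop
      have h5 : Measurable fun q : S n × W => ξ - η q.2 := by fun_prop
      exact h4.inner h5
    exact h2.mul (by fun_prop)
  calc extn (mix ν R η h) ξ = ∫ x : S n, (∫ w, h w (R w (x : E n)) *
      Complex.exp (((-(2 * π * inner ℝ (x : E n) (ξ - η w)) : ℝ) : ℂ) * Complex.I) ∂ν) ∂(sm n) := by
        unfold extn mix
        refine integral_congr_ae (Filter.Eventually.of_forall fun x => ?_)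
        simp only
        rw [← integral_mul_const]
        refine integral_congr_ae (Filter.Eventually.of_forall fun w => ?_)
        simp only
        rw [mul_comm (Complex.exp _) (h w _), mul_assoc, ← Complex.exp_add]
        congr 2
        rw [inner_sub_right]
        push_cast
        ring
    _ = ∫ w, (∫ x : S n, h w (R w (x : E n)) *
      Complex.exp (((-(2 * π * inner ℝ (x : E n) (ξ - η w)) : ℝ) : ℂ) * Complex.I) ∂(sm n)) ∂ν := by
        refine integral_integral_swap ?_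
        refine Integrable.of_bound hm.aestronglyMeasurable 1 (Filter.Eventually.of_forall fun q => ?_)
        simp only [Function.uncurry]
        rw [norm_mul, norm_phase, mul_one]
        exact hb _ _
    _ = _ := by
        refine integral_congr_ae (Filter.Eventually.of_forall fun w => ?_)
        exact extn_isometry (h w) (R w) (ξ - η w)

theorem lintegral_mix_le {p : ℝ} (hp : 1 ≤ p) {C : ℝ≥0∞} (cls : (E n → ℂ) → Prop)
    (H : ∀ g, Measurable g → (∀ x, ‖g x‖ ≤ 1) → cls g → ∫⁻ ξ, ‖extn g ξ‖ₑ ^ p ≤ C)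
    (ν : Measure W) [IsFiniteMeasure ν] (R : W → (E n ≃ₗᵢ[ℝ] E n)) (η : W → E n)
    (h : W → E n → ℂ) (hR : Measurable fun q : W × E n => R q.1 q.2) (hη : Measurable η)
    (hh : Measurable (Function.uncurry h)) (hb : ∀ w x, ‖h w x‖ ≤ 1) (hc : ∀ w, cls (h w)) :
    ∫⁻ ξ, ‖extn (mix ν R η h) ξ‖ₑ ^ p ≤ C * ν univ ^ p := by
  have hp0 : 0 < p := by linarith
  have hF : Measurable fun q : W × E n => extn (h q.1) q.2 := measurable_extn_param h hh
  have hFR : Measurable fun q : E n × W => extn (h q.2) (R q.2 (q.1 - η q.2)) := by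
    have h1 : Measurable fun q : E n × W => R q.2 (q.1 - η q.2) :=
      hR.comp (f := fun q : E n × W => (q.2, q.1 - η q.2)) (by fun_prop)
    exact hF.comp (f := fun q : E n × W => (q.2, R q.2 (q.1 - η q.2))) (measurable_snd.prodMk h1)
  have hFRw : ∀ ξ, Measurable fun w => extn (h w) (R w (ξ - η w)) := fun ξ =>
    hFR.comp (f := fun w : W => (ξ, w)) (by fun_prop)
  calc ∫⁻ ξ, ‖extn (mix ν R η h) ξ‖ₑ ^ p
      ≤ ∫⁻ ξ, ν univ ^ (p - 1) * ∫⁻ w, ‖extn (h w) (R w (ξ - η w))‖ₑ ^ p ∂ν := by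
        refine lintegral_mono fun ξ => ?_
        simp only
        rw [extn_mix ν R η h hR hη hh hb ξ]
        calc ‖∫ w, extn (h w) (R w (ξ - η w)) ∂ν‖ₑ ^ p
            ≤ (∫⁻ w, 1 * ‖extn (h w) (R w (ξ - η w))‖ₑ ∂ν) ^ p := by
              refine ENNReal.rpow_le_rpow ?_ hp0.le
              simp only [one_mul]
              exact enorm_integral_le_lintegral_enorm _
          _ ≤ (∫⁻ _w, 1 ∂ν) ^ (p - 1) * ∫⁻ w, 1 * ‖extn (h w) (R w (ξ - η w))‖ₑ ^ p ∂ν :=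
              holder_weight ν (fun _ => 1) _ measurable_const (hFRw ξ).enorm hp
          _ = _ := by simp
    _ = ν univ ^ (p - 1) * ∫⁻ w, (∫⁻ ξ, ‖extn (h w) (R w (ξ - η w))‖ₑ ^ p) ∂ν := by
        have hm : Measurable fun q : E n × W => ‖extn (h q.2) (R q.2 (q.1 - η q.2))‖ₑ ^ p :=
          hFR.enorm.pow_const p
        rw [lintegral_const_mul _ hm.lintegral_prod_right']
        rw [lintegral_lintegral_swap
          (f := fun (ξ : E n) (w : W) => ‖extn (h w) (R w (ξ - η w))‖ₑ ^ p) hm.aemeasurable]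
    _ ≤ ν univ ^ (p - 1) * ∫⁻ _w, C ∂ν := by
        refine mul_le_mul' le_rfl (lintegral_mono fun w => ?_)
        have hm1 : Measurable fun ζ : E n => ‖extn (h w) ζ‖ₑ ^ p :=
          (hF.comp (f := fun ζ : E n => (w, ζ)) (by fun_prop)).enorm.pow_const p
        calc ∫⁻ ξ, ‖extn (h w) (R w (ξ - η w))‖ₑ ^ p = ∫⁻ ξ, ‖extn (h w) (R w ξ)‖ₑ ^ p :=
              lintegral_sub_right_eq_self (fun ξ => ‖extn (h w) (R w ξ)‖ₑ ^ p) (η w)
          _ = ∫⁻ ζ, ‖extn (h w) ζ‖ₑ ^ p := (R w).measurePreserving.lintegral_comp hm1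
          _ ≤ C := H (h w) (hh.comp (f := fun x : E n => (w, x)) (by fun_prop)) (hb w) (hc w)
    _ = C * (ν univ ^ (p - 1) * ν univ ^ (1:ℝ)) := by
        rw [lintegral_const, ENNReal.rpow_one]; ring
    _ = C * ν univ ^ p := by
        rw [← ENNReal.rpow_add_of_nonneg _ _ (by linarith) (by norm_num)]
        congr 2
        ring

end

end Pool.Agent.SDT.MP_6cbfb8_an

end -- MP_6cbfb8_an.Super

section -- N1.GF

/-!
N1, block G: nondegeneracy of the two limiting phases.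
-/

namespace Pool.Agent.SDT.N1

open MeasureTheory Set Metric Pool.Agent.SDT.MP_6cbfb8_an Pool.Agent.SDT.MST
open scoped ENNReal Real ContDiff Topology

/-! ### Case (N) -/

noncomputable def nX0 (a : V) : ℝ := (1 - a.2.1 ^ 2) / (a.1 * a.2.2)
noncomputable def nX1 (a : V) : ℝ := a.2.1 / a.2.2
noncomputable def nX2 (a : V) : ℝ := a.2.1 / a.1

lemma nX0_diff (a : V) (h1 : a.1 ≠ 0) (h3 : a.2.2 ≠ 0) : DifferentiableAt ℝ nX0 a := by
  unfold nX0
  fun_prop (disch := exact (mul_ne_zero h1 h3))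

lemma nX1_diff (a : V) (h3 : a.2.2 ≠ 0) : DifferentiableAt ℝ nX1 a := by
  unfold nX1
  fun_prop (disch := exact h3)

lemma nX2_diff (a : V) (h1 : a.1 ≠ 0) : DifferentiableAt ℝ nX2 a := by
  unfold nX2
  fun_prop (disch := exact h1)

lemma nX0_fd (a u : V) (h1 : a.1 ≠ 0) (h3 : a.2.2 ≠ 0) : fderiv ℝ nX0 a u =
    (-(2 * a.2.1 * u.2.1) * (a.1 * a.2.2) - (1 - a.2.1 ^ 2) * (u.1 * a.2.2 + a.1 * u.2.2)) /
      (a.1 * a.2.2) ^ 2 := by
  refine fd_of _ _ _ _ (nX0_diff a h1 h3) ?_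
  have h := (((g_lin a.2.1 u.2.1).fun_pow 2).const_sub 1).fun_div
    ((g_lin a.1 u.1).fun_mul (g_lin a.2.2 u.2.2)) (by simpa using ⟨h1, h3⟩)
  refine HasDerivAt.congr_deriv h ?_
  simp

lemma nX1_fd (a u : V) (h3 : a.2.2 ≠ 0) : fderiv ℝ nX1 a u =
    (u.2.1 * a.2.2 - a.2.1 * u.2.2) / a.2.2 ^ 2 := by
  refine fd_of _ _ _ _ (nX1_diff a h3) ?_
  have h := (g_lin a.2.1 u.2.1).fun_div (g_lin a.2.2 u.2.2) (by simpa using h3)
  refine HasDerivAt.congr_deriv h ?_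
  simp

lemma nX2_fd (a u : V) (h1 : a.1 ≠ 0) : fderiv ℝ nX2 a u =
    (u.2.1 * a.1 - a.2.1 * u.1) / a.1 ^ 2 := by
  refine fd_of _ _ _ _ (nX2_diff a h1) ?_
  have h := (g_lin a.2.1 u.2.1).fun_div (g_lin a.1 u.1) (by simpa using h1)
  refine HasDerivAt.congr_deriv h ?_
  simp

theorem nd_N (a b u : V) (d : ℝ) (ha1 : a.1 ≠ 0) (ha2 : a.2.1 ≠ 0) (ha3 : a.2.2 ≠ 0)
    (hb1 : b.1 ≠ 0) (hb2 : b.2.1 ≠ 0) (hb3 : b.2.2 ≠ 0)
    (h1 : fderiv ℝ nX0 a u + fderiv ℝ nX1 a u * nX2 b + fderiv ℝ nX2 a u * nX1 b = 0)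
    (h2 : ∀ e : V, fderiv ℝ nX1 a u * fderiv ℝ nX2 b e + fderiv ℝ nX2 a u * fderiv ℝ nX1 b e +
      d * (fderiv ℝ nX0 b e + nX1 a * fderiv ℝ nX2 b e + nX2 a * fderiv ℝ nX1 b e) = 0) :
    u = 0 ∧ d = 0 := by
  have hd : d = 0 := by
    have h := h2 b
    rw [nX2_fd b b hb1, nX1_fd b b hb3, nX0_fd b b hb1 hb3] at h
    have e1 : (b.2.1 * b.1 - b.2.1 * b.1) / b.1 ^ 2 = 0 := by rw [sub_self, zero_div]
    have e2 : (b.2.1 * b.2.2 - b.2.1 * b.2.2) / b.2.2 ^ 2 = 0 := by rw [sub_self, zero_div]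
    rw [e1, e2] at h
    have e3 : (-(2 * b.2.1 * b.2.1) * (b.1 * b.2.2) - (1 - b.2.1 ^ 2) * (b.1 * b.2.2 + b.1 * b.2.2)) /
      (b.1 * b.2.2) ^ 2 = -2 / (b.1 * b.2.2) := by
      field_simp
      ring
    rw [e3] at h
    simp only [mul_zero, add_zero, zero_add] at h
    rcases mul_eq_zero.1 h with h' | h'
    · exact h'
    · exfalso
      have : b.1 * b.2.2 ≠ 0 := mul_ne_zero hb1 hb3
      rw [div_eq_zero_iff] at h'
      rcases h' with h' | h'
      · norm_num at h'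
      · exact this h'
  subst hd
  have hX1 : fderiv ℝ nX1 a u = 0 := by
    have h := h2 (1, 0, 0)
    rw [nX2_fd b _ hb1, nX1_fd b _ hb3] at h
    simp only [zero_mul, mul_zero, sub_zero, zero_div, add_zero, mul_one, zero_sub] at h
    rcases mul_eq_zero.1 h with h' | h'
    · exact h'
    · exfalso
      rw [div_eq_zero_iff] at h'
      rcases h' with h' | h'
      · exact hb2 (neg_eq_zero.1 h')
      · exact (pow_ne_zero 2 hb1) h'
  have hX2 : fderiv ℝ nX2 a u = 0 := by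
    have h := h2 (0, 0, 1)
    rw [nX2_fd b _ hb1, nX1_fd b _ hb3] at h
    simp only [zero_mul, mul_zero, sub_zero, zero_div, add_zero, mul_one, zero_sub, zero_add] at h
    rcases mul_eq_zero.1 h with h' | h'
    · exact h'
    · exfalso
      rw [div_eq_zero_iff] at h'
      rcases h' with h' | h'
      · exact hb2 (neg_eq_zero.1 h')
      · exact (pow_ne_zero 2 hb3) h'
  have hX0 : fderiv ℝ nX0 a u = 0 := by
    rw [hX1, hX2] at h1
    simpa using h1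
  rw [nX0_fd a u ha1 ha3, div_eq_zero_iff] at hX0
  rw [nX1_fd a u ha3, div_eq_zero_iff] at hX1
  rw [nX2_fd a u ha1, div_eq_zero_iff] at hX2
  have k0 := hX0.resolve_right (pow_ne_zero 2 (mul_ne_zero ha1 ha3))
  have k1 := hX1.resolve_right (pow_ne_zero 2 ha3)
  have k2 := hX2.resolve_right (pow_ne_zero 2 ha1)
  have k3 : a.1 * a.2.2 * u.2.1 = 0 := by
    have : -(2 * a.2.1 * u.2.1) * (a.1 * a.2.2) * a.2.1 -
      (1 - a.2.1 ^ 2) * (a.2.1 * u.1 * a.2.2 + a.1 * (a.2.1 * u.2.2)) = 0 := by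
      linear_combination a.2.1 * k0
    have e1 : a.2.1 * u.1 = u.2.1 * a.1 := by linarith
    have e2 : a.2.1 * u.2.2 = u.2.1 * a.2.2 := by linarith
    rw [e1, e2] at this
    linear_combination (-1 / 2) * this
  have k4 : u.2.1 = 0 := (mul_eq_zero.1 k3).resolve_left (mul_ne_zero ha1 ha3)
  have k5 : u.1 = 0 := by
    have : a.2.1 * u.1 = 0 := by rw [k4] at k2; linarith
    exact (mul_eq_zero.1 this).resolve_left ha2
  have k6 : u.2.2 = 0 := by
    have : a.2.1 * u.2.2 = 0 := by rw [k4] at k1; linarith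
    exact (mul_eq_zero.1 this).resolve_left ha2
  exact ⟨Prod.ext k5 (Prod.ext k4 k6), rfl⟩

/-! ### Case (D) -/

noncomputable def dX1 (a : V) : ℝ := (1 - a.2.1 ^ 2) / (a.2.1 * a.2.2)
noncomputable def dX2 (a : V) : ℝ := a.1 / a.2.2
noncomputable def dY1 (b : V) : ℝ := 2 * b.1 * b.2.2 / (1 - b.2.1 ^ 2)
noncomputable def dY2 (b : V) : ℝ := 2 * b.2.1 * b.2.2 / (1 - b.2.1 ^ 2)

lemma dX1_diff (a : V) (h2 : a.2.1 ≠ 0) (h3 : a.2.2 ≠ 0) : DifferentiableAt ℝ dX1 a := by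
  unfold dX1
  fun_prop (disch := exact (mul_ne_zero h2 h3))

lemma dX2_diff (a : V) (h3 : a.2.2 ≠ 0) : DifferentiableAt ℝ dX2 a := by
  unfold dX2
  fun_prop (disch := exact h3)

lemma dY1_diff (b : V) (h : 1 - b.2.1 ^ 2 ≠ 0) : DifferentiableAt ℝ dY1 b := by
  unfold dY1
  fun_prop (disch := exact h)

lemma dY2_diff (b : V) (h : 1 - b.2.1 ^ 2 ≠ 0) : DifferentiableAt ℝ dY2 b := by
  unfold dY2
  fun_prop (disch := exact h)

lemma dX1_fd (a u : V) (h2 : a.2.1 ≠ 0) (h3 : a.2.2 ≠ 0) : fderiv ℝ dX1 a u =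
    (-(2 * a.2.1 * u.2.1) * (a.2.1 * a.2.2) -
      (1 - a.2.1 ^ 2) * (u.2.1 * a.2.2 + a.2.1 * u.2.2)) / (a.2.1 * a.2.2) ^ 2 := by
  refine fd_of _ _ _ _ (dX1_diff a h2 h3) ?_
  have h := (((g_lin a.2.1 u.2.1).fun_pow 2).const_sub 1).fun_div
    ((g_lin a.2.1 u.2.1).fun_mul (g_lin a.2.2 u.2.2)) (by simpa using ⟨h2, h3⟩)
  refine HasDerivAt.congr_deriv h ?_
  simp

lemma dX2_fd (a u : V) (h3 : a.2.2 ≠ 0) : fderiv ℝ dX2 a u =
    (u.1 * a.2.2 - a.1 * u.2.2) / a.2.2 ^ 2 := by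
  refine fd_of _ _ _ _ (dX2_diff a h3) ?_
  have h := (g_lin a.1 u.1).fun_div (g_lin a.2.2 u.2.2) (by simpa using h3)
  refine HasDerivAt.congr_deriv h ?_
  simp

lemma dY1_fd (b e : V) (h : 1 - b.2.1 ^ 2 ≠ 0) : fderiv ℝ dY1 b e =
    ((2 * e.1 * b.2.2 + 2 * b.1 * e.2.2) * (1 - b.2.1 ^ 2) +
      2 * b.1 * b.2.2 * (2 * b.2.1 * e.2.1)) / (1 - b.2.1 ^ 2) ^ 2 := by
  refine fd_of _ _ _ _ (dY1_diff b h) ?_
  have h := (((g_lin b.1 e.1).const_mul 2).fun_mul (g_lin b.2.2 e.2.2)).fun_div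
    (((g_lin b.2.1 e.2.1).fun_pow 2).const_sub 1) (by simpa using h)
  refine HasDerivAt.congr_deriv h ?_
  simp

lemma dY2_fd (b e : V) (h : 1 - b.2.1 ^ 2 ≠ 0) : fderiv ℝ dY2 b e =
    ((2 * e.2.1 * b.2.2 + 2 * b.2.1 * e.2.2) * (1 - b.2.1 ^ 2) +
      2 * b.2.1 * b.2.2 * (2 * b.2.1 * e.2.1)) / (1 - b.2.1 ^ 2) ^ 2 := by
  refine fd_of _ _ _ _ (dY2_diff b h) ?_
  have h := (((g_lin b.2.1 e.2.1).const_mul 2).fun_mul (g_lin b.2.2 e.2.2)).fun_div
    (((g_lin b.2.1 e.2.1).fun_pow 2).const_sub 1) (by simpa using h)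
  refine HasDerivAt.congr_deriv h ?_
  simp

lemma om0_diff (a : V) (h2 : a.2.1 ≠ 0) :
    DifferentiableAt ℝ (fun a : V => om 0 a.1 a.2.1) a := by
  unfold om
  fun_prop (disch := simpa using h2)

lemma om0_fd (a u : V) (h2 : a.2.1 ≠ 0) : fderiv ℝ (fun a : V => om 0 a.1 a.2.1) a u =
    2 * (a.2.1 * u.1 - a.1 * u.2.1) / a.2.1 ^ 2 := by
  refine fd_of _ _ _ _ (om0_diff a h2) ?_
  have h := ((g_lin a.1 u.1).fun_mul ((g_lin a.2.1 u.2.1).const_mul 2)).fun_div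
    ((g_lin a.2.1 u.2.1).fun_pow 2) (by simpa using h2)
  have e1 : (fun t : ℝ => om 0 (a.1 + t * u.1, a.2.1 + t * u.2.1, a.2.2 + t * u.2.2).1
      (a.1 + t * u.1, a.2.1 + t * u.2.1, a.2.2 + t * u.2.2).2.1) =
      fun t : ℝ => (a.1 + t * u.1) * (2 * (a.2.1 + t * u.2.1)) / (a.2.1 + t * u.2.1) ^ 2 := by
    funext t
    simp [om]
  rw [e1]
  refine HasDerivAt.congr_deriv h ?_
  simp
  field_simp
  ring

lemma sg0_diff (b : V) (h : 1 - b.2.1 ^ 2 ≠ 0) :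
    DifferentiableAt ℝ (fun b : V => sg 0 b.1 b.2.1) b := by
  unfold sg
  fun_prop (disch := simpa using h)

lemma sg0_fd (b e : V) (h : 1 - b.2.1 ^ 2 ≠ 0) : fderiv ℝ (fun b : V => sg 0 b.1 b.2.1) b e =
    -((2 * b.2.1 * (1 - b.2.1 ^ 2) * e.1 + 2 * b.1 * (1 + b.2.1 ^ 2) * e.2.1) /
      (1 - b.2.1 ^ 2) ^ 2) := by
  refine fd_of _ _ _ _ (sg0_diff b h) ?_
  have h := (((g_lin b.1 e.1).fun_mul ((g_lin b.2.1 e.2.1).const_mul 2)).fun_div
    (((g_lin b.2.1 e.2.1).fun_pow 2).const_sub 1) (by simpa using h)).fun_neg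
  have e1 : (fun t : ℝ => sg 0 (b.1 + t * e.1, b.2.1 + t * e.2.1, b.2.2 + t * e.2.2).1
      (b.1 + t * e.1, b.2.1 + t * e.2.1, b.2.2 + t * e.2.2).2.1) =
      fun t : ℝ => -((b.1 + t * e.1) * (2 * (b.2.1 + t * e.2.1)) /
        (1 - (b.2.1 + t * e.2.1) ^ 2)) := by
    funext t
    simp [sg]
  rw [e1]
  refine HasDerivAt.congr_deriv h ?_
  simp
  ring

theorem nd_D (a b u : V) (ha1 : a.1 ≠ 0) (ha2 : a.2.1 ≠ 0) (ha3 : a.2.2 ≠ 0)
    (hb1 : b.1 ≠ 0) (hb2 : b.2.1 ≠ 0) (hb3 : b.2.2 ≠ 0) (hb : 1 - b.2.1 ^ 2 ≠ 0)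
    (h1 : fderiv ℝ (fun a : V => om 0 a.1 a.2.1) a u = 0)
    (h2 : ∀ e : V, fderiv ℝ (fun b : V => sg 0 b.1 b.2.1) b e = 0 →
      fderiv ℝ dX1 a u * fderiv ℝ dY1 b e + fderiv ℝ dX2 a u * fderiv ℝ dY2 b e = 0) :
    u = 0 := by
  set P := fderiv ℝ dX1 a u with hP
  set Q := fderiv ℝ dX2 a u with hQ
  have i1 : b.1 * P + b.2.1 * Q = 0 := by
    have h := h2 (0, 0, 1) (by rw [sg0_fd b _ hb]; simp)
    rw [dY1_fd b _ hb, dY2_fd b _ hb] at h
    simp only [mul_zero, zero_mul, zero_add, add_zero, mul_one] at h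
    field_simp at h
    linear_combination (1 / 2) * h
  have i2 : -(b.1 * P) * (1 - b.2.1 ^ 2) + b.2.1 * (1 + b.2.1 ^ 2) * Q = 0 := by
    have h := h2 (-(b.1 * (1 + b.2.1 ^ 2)), b.2.1 * (1 - b.2.1 ^ 2), 0)
      (by rw [sg0_fd b _ hb]; simp only; ring)
    rw [dY1_fd b _ hb, dY2_fd b _ hb] at h
    simp only [mul_zero, add_zero] at h
    have e1 : (2 * -(b.1 * (1 + b.2.1 ^ 2)) * b.2.2 * (1 - b.2.1 ^ 2) +
      2 * b.1 * b.2.2 * (2 * b.2.1 * (b.2.1 * (1 - b.2.1 ^ 2)))) / (1 - b.2.1 ^ 2) ^ 2 =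
      -(2 * b.1 * b.2.2) := by
      field_simp
      ring
    have e2 : (2 * (b.2.1 * (1 - b.2.1 ^ 2)) * b.2.2 * (1 - b.2.1 ^ 2) +
      2 * b.2.1 * b.2.2 * (2 * b.2.1 * (b.2.1 * (1 - b.2.1 ^ 2)))) / (1 - b.2.1 ^ 2) ^ 2 =
      2 * b.2.1 * b.2.2 * (1 + b.2.1 ^ 2) / (1 - b.2.1 ^ 2) := by
      field_simp
      ring
    rw [e1, e2] at h
    have h3 : b.2.2 * (-(b.1 * P) * (1 - b.2.1 ^ 2) + b.2.1 * (1 + b.2.1 ^ 2) * Q) = 0 := by
      field_simp at h
      linear_combination (1 / 2) * h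
    exact (mul_eq_zero.1 h3).resolve_left hb3
  have hQ0 : Q = 0 := by
    have : b.2.1 * Q = 0 := by linear_combination (1 / 2) * i2 + (1 / 2) * (1 - b.2.1 ^ 2) * i1
    exact (mul_eq_zero.1 this).resolve_left hb2
  have hP0 : P = 0 := by
    rw [hQ0, mul_zero, add_zero] at i1
    exact (mul_eq_zero.1 i1).resolve_left hb1
  rw [hP, dX1_fd a u ha2 ha3, div_eq_zero_iff] at hP0
  rw [hQ, dX2_fd a u ha3, div_eq_zero_iff] at hQ0
  rw [om0_fd a u ha2, div_eq_zero_iff] at h1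
  have k0 := hP0.resolve_right (pow_ne_zero 2 (mul_ne_zero ha2 ha3))
  have k1 := hQ0.resolve_right (pow_ne_zero 2 ha3)
  have k2 := h1.resolve_right (pow_ne_zero 2 ha2)
  have e1 : a.1 * u.2.1 = a.2.1 * u.1 := by linarith
  have e2 : a.1 * u.2.2 = u.1 * a.2.2 := by linarith
  have k3 : (a.2.1 * a.2.2) * u.1 = 0 := by
    have : -(2 * a.2.1 * (a.1 * u.2.1)) * (a.2.1 * a.2.2) -
      (1 - a.2.1 ^ 2) * ((a.1 * u.2.1) * a.2.2 + a.2.1 * (a.1 * u.2.2)) = 0 := by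
      linear_combination a.1 * k0
    rw [e1, e2] at this
    linear_combination (-1 / 2) * this
  have k4 : u.1 = 0 := (mul_eq_zero.1 k3).resolve_left (mul_ne_zero ha2 ha3)
  rw [k4, mul_zero] at e1
  rw [k4, zero_mul] at e2
  have k5 := (mul_eq_zero.1 e1).resolve_left ha1
  have k6 := (mul_eq_zero.1 e2).resolve_left ha1
  exact Prod.ext k4 (Prod.ext k5 k6)

end Pool.Agent.SDT.N1

end -- N1.GF

section -- N1G.Aff

/-!
N1G: affine changes of variables in the positive form.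
-/

namespace Pool.Agent.SDT.N1G

open MeasureTheory Set Metric Pool.Agent.SDT.MP_6cbfb8_an Pool.Agent.SDT.MST Pool.Agent.SDT.N1
open scoped ENNReal Real ContDiff

/-- An affine map of the line as a measurable equivalence. -/
noncomputable def affE (l c : ℝ) (hl : l ≠ 0) : ℝ ≃ᵐ ℝ :=
  ((Homeomorph.mulLeft₀ l hl).trans (Homeomorph.addRight c)).toMeasurableEquiv

theorem affE_apply (l c : ℝ) (hl : l ≠ 0) (x : ℝ) : affE l c hl x = l * x + c := rfl

theorem map_aff (l c : ℝ) (hl : l ≠ 0) :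
    Measure.map (fun x : ℝ => l * x + c) volume = ENNReal.ofReal |l⁻¹| • (volume : Measure ℝ) := by
  have h1 : (fun x : ℝ => l * x + c) = (fun x => x + c) ∘ fun x => l * x := rfl
  rw [h1, ← Measure.map_map (by fun_prop) (by fun_prop), Real.map_volume_mul_left hl,
    Measure.map_smul, map_add_right_eq_self]

/-- Affine maps of the plane. -/
def af2 (l c x : ℝ × ℝ) : ℝ × ℝ := (l.1 * x.1 + c.1, l.2 * x.2 + c.2)

theorem map_af2 (l c : ℝ × ℝ) (h1 : 0 < l.1) (h2 : 0 < l.2) :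
    Measure.map (af2 l c) volume =
      ENNReal.ofReal ((l.1 * l.2)⁻¹) • (volume : Measure (ℝ × ℝ)) := by
  have e : af2 l c = Prod.map (fun x : ℝ => l.1 * x + c.1) (fun x : ℝ => l.2 * x + c.2) := rfl
  have hv : (volume : Measure (ℝ × ℝ)) = (volume : Measure ℝ).prod (volume : Measure ℝ) := rfl
  rw [e, hv, ← Measure.map_prod_map _ _ (by fun_prop) (by fun_prop), map_aff _ _ h1.ne',
    map_aff _ _ h2.ne', Measure.prod_smul_right, Measure.prod_smul_left, smul_smul]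
  congr 1
  rw [abs_of_pos (by positivity), abs_of_pos (by positivity), ← ENNReal.ofReal_mul (by positivity),
    mul_inv, mul_comm]

/-- Affine maps of the plane as measurable equivalences. -/
noncomputable def af2E (l c : ℝ × ℝ) (h1 : l.1 ≠ 0) (h2 : l.2 ≠ 0) : ℝ × ℝ ≃ᵐ ℝ × ℝ :=
  MeasurableEquiv.prodCongr (affE l.1 c.1 h1) (affE l.2 c.2 h2)

theorem af2E_coe (l c : ℝ × ℝ) (h1 : l.1 ≠ 0) (h2 : l.2 ≠ 0) :
    (⇑(af2E l c h1 h2) : ℝ × ℝ → ℝ × ℝ) = af2 l c := rfl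

theorem lint_aff (l c : ℝ) (hl : 0 < l) (f : ℝ → ℝ≥0∞) :
    ∫⁻ x, f x = ENNReal.ofReal l * ∫⁻ x, f (l * x + c) := by
  have h := lintegral_map_equiv (μ := (volume : Measure ℝ)) f (affE l c hl.ne')
  have e : (⇑(affE l c hl.ne') : ℝ → ℝ) = fun x => l * x + c := rfl
  rw [e, map_aff l c hl.ne', lintegral_smul_measure] at h
  rw [← h, smul_eq_mul, ← mul_assoc, ← ENNReal.ofReal_mul hl.le, abs_of_pos (by positivity),
    mul_inv_cancel₀ hl.ne', ENNReal.ofReal_one, one_mul]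

theorem lint_af2 (l c : ℝ × ℝ) (h1 : 0 < l.1) (h2 : 0 < l.2) (f : ℝ × ℝ → ℝ≥0∞) :
    ∫⁻ x, f x = ENNReal.ofReal (l.1 * l.2) * ∫⁻ x, f (af2 l c x) := by
  have h := lintegral_map_equiv (μ := (volume : Measure (ℝ × ℝ))) f (af2E l c h1.ne' h2.ne')
  rw [af2E_coe, map_af2 l c h1 h2, lintegral_smul_measure] at h
  rw [← h, smul_eq_mul, ← mul_assoc, ← ENNReal.ofReal_mul (by positivity),
    mul_inv_cancel₀ (by positivity), ENNReal.ofReal_one, one_mul]

theorem int_af2 (l c : ℝ × ℝ) (h1 : 0 < l.1) (h2 : 0 < l.2) (f : ℝ × ℝ → ℂ) :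
    ∫ x, f x = ((l.1 * l.2 : ℝ) : ℂ) * ∫ x, f (af2 l c x) := by
  have h := integral_map_equiv (μ := (volume : Measure (ℝ × ℝ))) (af2E l c h1.ne' h2.ne') f
  rw [af2E_coe, map_af2 l c h1 h2, integral_smul_measure] at h
  rw [← h, ENNReal.toReal_ofReal (by positivity), Complex.real_smul, ← mul_assoc,
    ← Complex.ofReal_mul, mul_inv_cancel₀ (by positivity), Complex.ofReal_one, one_mul]

/-- Affine changes of `y` and `x`. -/
def af4 (l c k d : ℝ × ℝ) (s : YX) : YX := (af2 l c s.1, af2 k d s.2)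

/-- **Change of variables in the positive form.** -/
theorem Thg_aff (φ w : YX → ℝ) (T κ : ℝ) (hκ : 0 < κ) (l c k d : ℝ × ℝ) (hl1 : 0 < l.1)
    (hl2 : 0 < l.2) (hk1 : 0 < k.1) (hk2 : 0 < k.2) (M : YX → ℂ) :
    Thg φ w T M = ENNReal.ofReal (l.1 * l.2 * (k.1 * k.2) ^ 2 / κ) *
      Thg (fun s => φ (af4 l c k d s) / κ) (fun s => w (af4 l c k d s)) (κ * T)
        (fun s => M (af4 l c k d s)) := by
  unfold Thg
  rw [lint_af2 l c hl1 hl2]
  have hH : ∀ y : ℝ × ℝ, ∀ t : ℝ, Hyg φ w M (af2 l c y) (κ⁻¹ * t) = ((k.1 * k.2 : ℝ) : ℂ) *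
      Hyg (fun s => φ (af4 l c k d s) / κ) (fun s => w (af4 l c k d s))
        (fun s => M (af4 l c k d s)) y t := by
    intro y t
    unfold Hyg
    rw [int_af2 k d hk1 hk2]
    congr 1
    refine integral_congr_ae (Filter.Eventually.of_forall fun x => ?_)
    simp only [af4]
    congr 2
    field_simp
  have hin : ∀ y : ℝ × ℝ, ∫⁻ t : ℝ, ENNReal.ofReal (chi (t / T)) *
      ‖Hyg φ w M (af2 l c y) t‖ₑ ^ 2 = ENNReal.ofReal ((k.1 * k.2) ^ 2 / κ) *
      ∫⁻ t : ℝ, ENNReal.ofReal (chi (t / (κ * T))) *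
      ‖Hyg (fun s => φ (af4 l c k d s) / κ) (fun s => w (af4 l c k d s))
        (fun s => M (af4 l c k d s)) y t‖ₑ ^ 2 := by
    intro y
    rw [lint_aff κ⁻¹ 0 (by positivity)]
    simp only [add_zero, hH]
    have e1 : ENNReal.ofReal ((k.1 * k.2) ^ 2 / κ) =
        ENNReal.ofReal κ⁻¹ * ENNReal.ofReal ((k.1 * k.2) ^ 2) := by
      rw [← ENNReal.ofReal_mul (by positivity)]
      congr 1
      field_simp
    rw [e1, mul_assoc]
    congr 1
    rw [← lintegral_const_mul' _ _ ENNReal.ofReal_ne_top]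
    refine lintegral_congr fun t => ?_
    have e2 : κ⁻¹ * t / T = t / (κ * T) := by
      field_simp
    have e3 : ‖((k.1 * k.2 : ℝ) : ℂ)‖ₑ ^ 2 = ENNReal.ofReal ((k.1 * k.2) ^ 2) := by
      rw [← ofReal_norm_eq_enorm, Complex.norm_real, ← ENNReal.ofReal_pow (norm_nonneg _),
        Real.norm_eq_abs, sq_abs]
    rw [e2, enorm_mul, mul_pow, e3]
    ring
  simp only [hin]
  rw [lintegral_const_mul' _ _ ENNReal.ofReal_ne_top, ← mul_assoc,
    ← ENNReal.ofReal_mul (by positivity)]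
  congr 2
  ring

end Pool.Agent.SDT.N1G

end -- N1G.Aff

section -- N1G.La1

/-!
N1G, block L2a: normal form of the divided phase, globally smooth functions.
-/

namespace Pool.Agent.SDT.N1G

open MeasureTheory Set Metric Pool.Agent.SDT.MP_6cbfb8_an Pool.Agent.SDT.MST Pool.Agent.SDT.N1
open scoped ENNReal Real ContDiff Topology

section nf

variable {P : Type*} [NormedAddCommGroup P] [NormedSpace ℝ P]

/-- Parameters `(p, γ, κ, η)`. -/
abbrev PP (P : Type*) : Type _ := P × ℝ × ℝ × ℝ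

/-- The points `(p, y, x)` on the first edge; `t = 1` gives `x`, `t = 0` gives `x - z₁`. -/
noncomputable def e1 (t : ℝ) (x : PP P × V × V) : P × YX :=
  (x.1.1, ((x.2.1.1, x.2.2.1),
    (x.2.1.2.1 - x.1.2.1 * x.2.1.2.2 / 2 + (t - 1 / 2) * (x.1.2.1 * x.2.1.2.2), x.2.2.2.1)))

/-- The points on the second edge; `t = 1` gives `x - z₁`, `t = 0` gives `x - z`. -/
noncomputable def e2 (t : ℝ) (x : PP P × V × V) : P × YX :=
  (x.1.1, ((x.2.1.1, x.2.2.1),
    (x.2.1.2.1 - x.1.2.1 * x.2.1.2.2,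
      x.2.2.2.1 - (1 - t) * (x.1.2.2.1 * x.1.2.1 * x.2.2.2.2))))

/-- Partial derivative in the first coordinate of the point. -/
noncomputable def da1 (ψ : P × YX → ℝ) (s : P × YX) : ℝ := fderiv ℝ ψ s (0, ((0, 0), (1, 0)))

/-- Partial derivative in the second coordinate of the point. -/
noncomputable def db1 (ψ : P × YX → ℝ) (s : P × YX) : ℝ := fderiv ℝ ψ s (0, ((0, 0), (0, 1)))

lemma da1_smooth {ψ : P × YX → ℝ} (h : ContDiff ℝ ∞ ψ) : ContDiff ℝ ∞ (da1 ψ) :=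
  (h.fderiv_right (m := ∞) (by simp)).clm_apply contDiff_const

lemma db1_smooth {ψ : P × YX → ℝ} (h : ContDiff ℝ ∞ ψ) : ContDiff ℝ ∞ (db1 ψ) :=
  (h.fderiv_right (m := ∞) (by simp)).clm_apply contDiff_const

lemma e1_smooth : ContDiff ℝ ∞ fun z : ℝ × (PP P × V × V) => e1 z.1 z.2 := by
  unfold e1
  fun_prop

lemma e2_smooth : ContDiff ℝ ∞ fun z : ℝ × (PP P × V × V) => e2 z.1 z.2 := by
  unfold e2
  fun_prop

/-- The mean of a function over the first edge. -/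
noncomputable def M1 (f : P × YX → ℝ) (x : PP P × V × V) : ℝ := ∫ t in (0 : ℝ)..1, f (e1 t x)

/-- The mean of a function over the second edge. -/
noncomputable def M2 (f : P × YX → ℝ) (x : PP P × V × V) : ℝ := ∫ t in (0 : ℝ)..1, f (e2 t x)

lemma M1_smooth [FiniteDimensional ℝ P] {f : P × YX → ℝ} (h : ContDiff ℝ ∞ f) : ContDiff ℝ ∞ (M1 f) :=
  smooth_integral (P := PP P × V × V) (fun z => f (e1 z.1 z.2)) (h.comp e1_smooth)

lemma M2_smooth [FiniteDimensional ℝ P] {f : P × YX → ℝ} (h : ContDiff ℝ ∞ f) : ContDiff ℝ ∞ (M2 f) :=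
  smooth_integral (P := PP P × V × V) (fun z => f (e2 z.1 z.2)) (h.comp e2_smooth)

/-- First edge. -/
lemma edge1 {ψ : P × YX → ℝ} (h : ContDiff ℝ ∞ ψ) (x : PP P × V × V) :
    ψ (e1 1 x) - ψ (e1 0 x) = x.1.2.1 * x.2.1.2.2 * M1 (da1 ψ) x := by
  have h1 : ∀ t ∈ uIcc (0 : ℝ) 1, HasDerivAt (fun t : ℝ => ψ (e1 t x))
      (x.1.2.1 * x.2.1.2.2 * da1 ψ (e1 t x)) t := by
    intro t _
    have h2 : HasFDerivAt ψ (fderiv ℝ ψ (e1 t x)) (e1 t x) :=
      (h.differentiable (by simp)).differentiableAt.hasFDerivAt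
    have h3 : HasDerivAt (fun t : ℝ => e1 t x)
        ((x.1.2.1 * x.2.1.2.2) • ((0, ((0, 0), (1, 0))) : P × YX)) t := by
      have h4 : HasDerivAt (fun t : ℝ => x.2.1.2.1 - x.1.2.1 * x.2.1.2.2 / 2 +
          (t - 1 / 2) * (x.1.2.1 * x.2.1.2.2)) (x.1.2.1 * x.2.1.2.2) t := by
        have := (((hasDerivAt_id t).sub_const (1 / 2)).mul_const
          (x.1.2.1 * x.2.1.2.2)).const_add (x.2.1.2.1 - x.1.2.1 * x.2.1.2.2 / 2)
        refine HasDerivAt.congr_deriv this ?_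
        ring
      have h5 := (hasDerivAt_const t x.1.1).prodMk ((hasDerivAt_const t
        ((x.2.1.1, x.2.2.1) : ℝ × ℝ)).prodMk (h4.prodMk (hasDerivAt_const t x.2.2.2.1)))
      have h6 : (x.1.2.1 * x.2.1.2.2) • ((0, ((0, 0), (1, 0))) : P × YX) =
          (0, (0, (x.1.2.1 * x.2.1.2.2, 0))) := by
        simp [Prod.smul_mk]
      rw [h6]
      exact h5
    have h5 := h2.comp_hasDerivAt t h3
    rw [map_smul, smul_eq_mul] at h5
    exact h5
  have h8 : Continuous (fun t : ℝ => x.1.2.1 * x.2.1.2.2 * da1 ψ (e1 t x)) := by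
    have h9 : Continuous (fun t : ℝ => e1 t x) := by
      unfold e1
      fun_prop
    exact continuous_const.mul ((da1_smooth h).continuous.comp h9)
  have h10 := intervalIntegral.integral_eq_sub_of_hasDerivAt h1 (h8.intervalIntegrable 0 1)
  rw [intervalIntegral.integral_const_mul] at h10
  exact h10.symm

/-- Second edge. -/
lemma edge2 {ψ : P × YX → ℝ} (h : ContDiff ℝ ∞ ψ) (x : PP P × V × V) :
    ψ (e2 1 x) - ψ (e2 0 x) = x.1.2.2.1 * x.1.2.1 * x.2.2.2.2 * M2 (db1 ψ) x := by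
  have h1 : ∀ t ∈ uIcc (0 : ℝ) 1, HasDerivAt (fun t : ℝ => ψ (e2 t x))
      (x.1.2.2.1 * x.1.2.1 * x.2.2.2.2 * db1 ψ (e2 t x)) t := by
    intro t _
    have h2 : HasFDerivAt ψ (fderiv ℝ ψ (e2 t x)) (e2 t x) :=
      (h.differentiable (by simp)).differentiableAt.hasFDerivAt
    have h3 : HasDerivAt (fun t : ℝ => e2 t x)
        ((x.1.2.2.1 * x.1.2.1 * x.2.2.2.2) • ((0, ((0, 0), (0, 1))) : P × YX)) t := by
      have h4 : HasDerivAt (fun t : ℝ => x.2.2.2.1 - (1 - t) *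
          (x.1.2.2.1 * x.1.2.1 * x.2.2.2.2)) (x.1.2.2.1 * x.1.2.1 * x.2.2.2.2) t := by
        have := (((hasDerivAt_id t).const_sub 1).mul_const
          (x.1.2.2.1 * x.1.2.1 * x.2.2.2.2)).const_sub x.2.2.2.1
        refine HasDerivAt.congr_deriv this ?_
        ring
      have h5 := (hasDerivAt_const t x.1.1).prodMk ((hasDerivAt_const t
        ((x.2.1.1, x.2.2.1) : ℝ × ℝ)).prodMk ((hasDerivAt_const t
          (x.2.1.2.1 - x.1.2.1 * x.2.1.2.2)).prodMk h4))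
      have h6 : (x.1.2.2.1 * x.1.2.1 * x.2.2.2.2) • ((0, ((0, 0), (0, 1))) : P × YX) =
          (0, (0, (0, x.1.2.2.1 * x.1.2.1 * x.2.2.2.2))) := by
        simp [Prod.smul_mk]
      rw [h6]
      exact h5
    have h5 := h2.comp_hasDerivAt t h3
    rw [map_smul, smul_eq_mul] at h5
    exact h5
  have h8 : Continuous (fun t : ℝ => x.1.2.2.1 * x.1.2.1 * x.2.2.2.2 * db1 ψ (e2 t x)) := by
    have h9 : Continuous (fun t : ℝ => e2 t x) := by
      unfold e2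
      fun_prop
    exact continuous_const.mul ((db1_smooth h).continuous.comp h9)
  have h10 := intervalIntegral.integral_eq_sub_of_hasDerivAt h1 (h8.intervalIntegrable 0 1)
  rw [intervalIntegral.integral_const_mul] at h10
  exact h10.symm

/-- The integrand of the part of the size `μ`; `z = (γ, (p, (y, (lam, b)), z₁))`. -/
noncomputable def f1 (l : P × YX → ℝ) (o1 : P × ℝ × ℝ → ℝ) (t : ℝ) (z : ℝ × (P × YX × ℝ)) : ℝ :=
  l (z.2.1, (z.2.2.1.1, (z.2.2.1.2.1 + (t - 1 / 2) * (z.1 * z.2.2.2), z.2.2.1.2.2))) *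
    (o1 (z.2.1, z.2.2.1.1.1, z.2.2.1.2.1 + (t - 1 / 2) * (z.1 * z.2.2.2)) -
      o1 (z.2.1, z.2.2.1.1.1, z.2.2.1.2.1))

lemma f1_smooth {l : P × YX → ℝ} {o1 : P × ℝ × ℝ → ℝ} (hl : ContDiff ℝ ∞ l)
    (ho : ContDiff ℝ ∞ o1) :
    ContDiff ℝ ∞ fun w : ℝ × (ℝ × (P × YX × ℝ)) => f1 l o1 w.1 w.2 := by
  unfold f1
  exact (hl.comp (by fun_prop)).mul ((ho.comp (by fun_prop)).sub (ho.comp (by fun_prop)))

/-- The mean of the part of size `μ` is `γ ^ 2` times a smooth function. -/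
lemma exists_k1 [FiniteDimensional ℝ P] {l : P × YX → ℝ} {o1 : P × ℝ × ℝ → ℝ}
    (hl : ContDiff ℝ ∞ l) (ho : ContDiff ℝ ∞ o1) :
    ∃ k : ℝ × (P × YX × ℝ) → ℝ, ContDiff ℝ ∞ k ∧ ∀ γ q,
      ∫ t in (0 : ℝ)..1, f1 l o1 t (γ, q) = γ ^ 2 * k (γ, q) := by
  have hs : ContDiff ℝ ∞ (fun z : ℝ × (P × YX × ℝ) => ∫ t in (0 : ℝ)..1, f1 l o1 t z) :=
    smooth_integral (P := ℝ × (P × YX × ℝ)) (fun w => f1 l o1 w.1 w.2) (f1_smooth hl ho)
  obtain ⟨k, hk, e⟩ := hadamard_even (Q := P × YX × ℝ)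
    (fun z : ℝ × (P × YX × ℝ) => ∫ t in (0 : ℝ)..1, f1 l o1 t z) hs (by
      intro ρ q
      have h1 := intervalIntegral.integral_comp_sub_left
        (fun t => f1 l o1 t (ρ, q)) (a := 0) (b := 1) 1
      simp only [sub_zero, sub_self] at h1
      rw [← h1]
      refine intervalIntegral.integral_congr fun t _ => ?_
      unfold f1
      simp only
      rw [show (t - 1 / 2) * (-ρ * q.2.2) = (1 - t - 1 / 2) * (ρ * q.2.2) by ring])
  refine ⟨k, hk, fun γ q => ?_⟩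
  have h2 := e γ q
  rw [h2]
  have h3 : ∫ t in (0 : ℝ)..1, f1 l o1 t (0, q) = 0 := by
    have : ∀ t : ℝ, f1 l o1 t (0, q) = 0 := by
      intro t
      unfold f1
      simp
    simp [this]
  rw [h3, zero_add]

/-- The data of the normal form, all functions globally smooth. -/
structure Dat (P : Type*) [NormedAddCommGroup P] [NormedSpace ℝ P] where
  ψ : P × YX → ℝ
  W : P × YX → ℝ
  l : P × YX → ℝ
  o0 : P × ℝ → ℝ
  o1 : P × ℝ × ℝ → ℝ
  s : P × ℝ × ℝ → ℝ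
  μ : P → ℝ
  k : ℝ × (P × YX × ℝ) → ℝ
  sψ : ContDiff ℝ ∞ ψ
  sW : ContDiff ℝ ∞ W
  sl : ContDiff ℝ ∞ l
  so0 : ContDiff ℝ ∞ o0
  so1 : ContDiff ℝ ∞ o1
  ss : ContDiff ℝ ∞ s
  sμ : ContDiff ℝ ∞ μ
  sk : ContDiff ℝ ∞ k
  ek : ∀ γ q, ∫ t in (0 : ℝ)..1, f1 l o1 t (γ, q) = γ ^ 2 * k (γ, q)

namespace Dat

variable (D : Dat P)

/-- The first separated function at the midpoint. -/
noncomputable def w (x : PP P × V) : ℝ :=
  D.o0 (x.1.1, x.2.1) + D.μ x.1.1 * D.o1 (x.1.1, x.2.1, x.2.2.1 - x.1.2.1 * x.2.2.2 / 2)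

/-- The second separated function. -/
noncomputable def σ (x : PP P × V) : ℝ := D.s (x.1.1, x.2.1, x.2.2.1)

/-- The mean of `l`. -/
noncomputable def L (x : PP P × V × V) : ℝ := M1 D.l x

/-- The mean of `∂_b ψ` over the second edge. -/
noncomputable def R (x : PP P × V × V) : ℝ := M2 (db1 D.ψ) x

/-- The argument of `k`. -/
noncomputable def ka (x : PP P × V × V) : ℝ × (P × YX × ℝ) :=
  (x.1.2.1, (x.1.1, ((x.2.1.1, x.2.2.1), (x.2.1.2.1 - x.1.2.1 * x.2.1.2.2 / 2, x.2.2.2.1)),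
    x.2.1.2.2))

/-- The factor `E = -z₁ L`. -/
noncomputable def E (x : PP P × V × V) : ℝ := -(x.2.1.2.2 * D.L x)

/-- The coupling. -/
noncomputable def g (x : PP P × V × V) : ℝ :=
  -(x.2.2.2.2 * D.R x / (x.2.1.2.2 * D.L x)) + x.1.2.2.2 * D.k (ka x) / D.L x

lemma w_smooth : ContDiff ℝ ∞ D.w := by
  unfold w
  exact (D.so0.comp (by fun_prop)).add ((D.sμ.comp (by fun_prop)).mul (D.so1.comp (by fun_prop)))

lemma σ_smooth : ContDiff ℝ ∞ D.σ := by
  unfold σ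
  exact D.ss.comp (by fun_prop)

lemma L_smooth [FiniteDimensional ℝ P] : ContDiff ℝ ∞ D.L := M1_smooth D.sl

lemma R_smooth [FiniteDimensional ℝ P] : ContDiff ℝ ∞ D.R := M2_smooth (db1_smooth D.sψ)

lemma ka_smooth : ContDiff ℝ ∞ (ka : PP P × V × V → _) := by
  unfold ka
  fun_prop

lemma E_smooth [FiniteDimensional ℝ P] : ContDiff ℝ ∞ D.E := by
  unfold E
  exact ((by fun_prop : ContDiff ℝ ∞ fun x : PP P × V × V => x.2.1.2.2).mul D.L_smooth).neg

lemma g_smooth [FiniteDimensional ℝ P] (x : PP P × V × V) (h1 : x.2.1.2.2 ≠ 0)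
    (h2 : D.L x ≠ 0) : ContDiffAt ℝ ∞ D.g x := by
  unfold g
  refine ContDiffAt.add (ContDiffAt.neg (ContDiffAt.div ?_ ?_ (mul_ne_zero h1 h2)))
    (ContDiffAt.div ?_ ?_ h2)
  · exact ((by fun_prop : ContDiff ℝ ∞ fun x : PP P × V × V => x.2.2.2.2).mul
      D.R_smooth).contDiffAt
  · exact ((by fun_prop : ContDiff ℝ ∞ fun x : PP P × V × V => x.2.1.2.2).mul
      D.L_smooth).contDiffAt
  · exact ((by fun_prop : ContDiff ℝ ∞ fun x : PP P × V × V => x.1.2.2.2).mul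
      (D.sk.comp ka_smooth)).contDiffAt
  · exact D.L_smooth.contDiffAt

/-- The normal form. -/
theorem nf (x : PP P × V × V) (h1 : x.2.1.2.2 ≠ 0) (h2 : D.L x ≠ 0)
    (hη : x.1.2.2.1 * x.1.2.2.2 = D.μ x.1.1 * x.1.2.1 ^ 2)
    (hd : ∀ t ∈ Icc (0 : ℝ) 1, da1 D.ψ (e1 t x) = -(D.l (e1 t x) *
      (D.o0 (x.1.1, x.2.1.1) + D.μ x.1.1 * D.o1 (x.1.1, x.2.1.1, (e1 t x).2.2.1) -
        D.s (x.1.1, x.2.2.1, x.2.2.2.1)))) :
    D.ψ (e1 1 x) - D.ψ (e2 0 x) = x.1.2.1 * (D.E x *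
      (D.w (x.1, x.2.1) - D.σ (x.1, x.2.2) + x.1.2.2.1 * D.g x)) := by
  have hj : e1 0 x = e2 1 x := by
    unfold e1 e2
    ext <;> simp
    ring
  have key : D.ψ (e1 1 x) - D.ψ (e2 0 x) = x.1.2.1 * x.2.1.2.2 * M1 (da1 D.ψ) x +
      x.1.2.2.1 * x.1.2.1 * x.2.2.2.2 * D.R x := by
    have a1 := edge1 D.sψ x
    have a2 := edge2 D.sψ x
    unfold R
    rw [hj] at a1
    linarith
  -- the first edge
  have hm : M1 (da1 D.ψ) x = -(D.L x * (D.w (x.1, x.2.1) - D.σ (x.1, x.2.2))) -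
      D.μ x.1.1 * (x.1.2.1 ^ 2 * D.k (ka x)) := by
    rw [ka, ← D.ek]
    unfold L M1
    have c1 : ∀ t ∈ uIcc (0 : ℝ) 1, da1 D.ψ (e1 t x) =
        -(D.l (e1 t x) * (D.w (x.1, x.2.1) - D.σ (x.1, x.2.2))) -
        D.μ x.1.1 * f1 D.l D.o1 t (ka x) := by
      intro t ht
      rw [uIcc_of_le zero_le_one] at ht
      rw [hd t ht]
      unfold w σ f1 ka e1
      simp only
      ring
    rw [intervalIntegral.integral_congr c1]
    have cl : Continuous fun t : ℝ => D.l (e1 t x) * (D.w (x.1, x.2.1) - D.σ (x.1, x.2.2)) := by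
      have : Continuous fun t : ℝ => e1 t x := by unfold e1; fun_prop
      exact (D.sl.continuous.comp this).mul continuous_const
    have cf : Continuous fun t : ℝ => D.μ x.1.1 * f1 D.l D.o1 t (ka x) := by
      have : Continuous fun t : ℝ => f1 D.l D.o1 t (ka x) :=
        (f1_smooth D.sl D.so1).continuous.comp
          (by fun_prop : Continuous fun t : ℝ => ((t, ka x) : ℝ × (ℝ × (P × YX × ℝ))))
      exact continuous_const.mul this
    have cl' : Continuous fun t : ℝ =>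
      -(D.l (e1 t x) * (D.w (x.1, x.2.1) - D.σ (x.1, x.2.2))) := cl.neg
    rw [intervalIntegral.integral_sub (cl'.intervalIntegrable 0 1) (cf.intervalIntegrable 0 1),
      intervalIntegral.integral_neg, intervalIntegral.integral_mul_const,
      intervalIntegral.integral_const_mul]
    rfl
  rw [key, hm]
  unfold E g
  field_simp
  linear_combination (x.1.2.1 * x.2.1.2.2 * D.k (ka x)) * hη

end Dat

end nf

end Pool.Agent.SDT.N1G

end -- N1G.La1

section -- N1G.La3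

/-!
N1G, block L2a: nondegeneracy of the coupling.
-/

namespace Pool.Agent.SDT.N1G

open MeasureTheory Set Metric Pool.Agent.SDT.MP_6cbfb8_an Pool.Agent.SDT.MST Pool.Agent.SDT.N1
open scoped ENNReal Real ContDiff Topology

abbrev R2 : Type := ℝ × ℝ

/-- Derivative in the first argument. -/
noncomputable def d1 (G : R2 × R2 → ℝ) (x : R2 × R2) (u : R2) : ℝ := fderiv ℝ G x (u, 0)

/-- Derivative in the second argument. -/
noncomputable def d2 (G : R2 × R2 → ℝ) (x : R2 × R2) (e : R2) : ℝ := fderiv ℝ G x (0, e)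

lemma d1_smooth {G : R2 × R2 → ℝ} (h : ContDiff ℝ ∞ G) (u : R2) :
    ContDiff ℝ ∞ fun x => d1 G x u :=
  (h.fderiv_right (m := ∞) (by simp)).clm_apply contDiff_const

lemma d2_smooth {G : R2 × R2 → ℝ} (h : ContDiff ℝ ∞ G) (u : R2) :
    ContDiff ℝ ∞ fun x => d2 G x u :=
  (h.fderiv_right (m := ∞) (by simp)).clm_apply contDiff_const

lemma d1_smul (G : R2 × R2 → ℝ) (x : R2 × R2) (α : ℝ) (u : R2) :
    d1 G x (α • u) = α * d1 G x u := by
  unfold d1
  rw [show ((α • u, (0 : R2)) : R2 × R2) = α • (u, 0) by simp [Prod.smul_mk], map_smul,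
    smul_eq_mul]

lemma d1_line {G : R2 × R2 → ℝ} (h : ContDiff ℝ ∞ G) (a v u : R2) (t : ℝ) :
    HasDerivAt (fun t : ℝ => G (a + t • u, v)) (d1 G (a + t • u, v) u) t := by
  have h2 : HasFDerivAt G (fderiv ℝ G (a + t • u, v)) (a + t • u, v) :=
    (h.differentiable (by simp)).differentiableAt.hasFDerivAt
  have h3 : HasDerivAt (fun t : ℝ => (a + t • u, v)) ((u, 0) : R2 × R2) t := by
    have h4 : HasDerivAt (fun t : ℝ => a + t • u) u t := by
      have h5 : HasDerivAt (fun t : ℝ => t • u) ((1 : ℝ) • u) t := (hasDerivAt_id t).smul_const u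
      rw [one_smul] at h5
      exact h5.const_add a
    exact h4.prodMk (hasDerivAt_const t v)
  exact h2.comp_hasDerivAt t h3

lemma d2_line {G : R2 × R2 → ℝ} (h : ContDiff ℝ ∞ G) (a v e : R2) (t : ℝ) :
    HasDerivAt (fun t : ℝ => G (a, v + t • e)) (d2 G (a, v + t • e) e) t := by
  have h2 : HasFDerivAt G (fderiv ℝ G (a, v + t • e)) (a, v + t • e) :=
    (h.differentiable (by simp)).differentiableAt.hasFDerivAt
  have h3 : HasDerivAt (fun t : ℝ => (a, v + t • e)) ((0, e) : R2 × R2) t := by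
    have h4 : HasDerivAt (fun t : ℝ => v + t • e) e t := by
      have h5 : HasDerivAt (fun t : ℝ => t • e) ((1 : ℝ) • e) t := (hasDerivAt_id t).smul_const e
      rw [one_smul] at h5
      exact h5.const_add v
    exact (hasDerivAt_const t a).prodMk h4
  exact h2.comp_hasDerivAt t h3

/-- The coupling as a function of two triples. -/
noncomputable def cpl (G : R2 × R2 → ℝ) (a b : V) : ℝ :=
  -(b.2.2 * G ((a.1, a.2.1), (b.1, b.2.1)) / a.2.2)

/-- Derivative of the coupling in the first argument. -/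
lemma cpl_1 {G : R2 × R2 → ℝ} (h : ContDiff ℝ ∞ G) (a b U : V) (ha : a.2.2 ≠ 0) :
    fderiv ℝ (fun a => cpl G a b) a U =
      -(b.2.2 * (d1 G ((a.1, a.2.1), (b.1, b.2.1)) (U.1, U.2.1) * a.2.2 -
        G ((a.1, a.2.1), (b.1, b.2.1)) * U.2.2) / a.2.2 ^ 2) := by
  have hd : DifferentiableAt ℝ (fun a => cpl G a b) a := by
    unfold cpl
    have h1 : DifferentiableAt ℝ (fun a : V => G ((a.1, a.2.1), (b.1, b.2.1))) a :=
      (h.comp (by fun_prop : ContDiff ℝ ∞ fun a : V =>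
        (((a.1, a.2.1), (b.1, b.2.1)) : R2 × R2))).contDiffAt.differentiableAt (by simp)
    have h2 : DifferentiableAt ℝ (fun a : V => b.2.2 * G ((a.1, a.2.1), (b.1, b.2.1))) a :=
      h1.const_mul b.2.2
    have h3 : DifferentiableAt ℝ (fun a : V => a.2.2⁻¹) a :=
      DifferentiableAt.fun_inv (by fun_prop) ha
    have h4 : DifferentiableAt ℝ (fun a : V =>
      b.2.2 * G ((a.1, a.2.1), (b.1, b.2.1)) * a.2.2⁻¹) a := h2.fun_mul h3
    simp only [div_eq_mul_inv]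
    exact h4.fun_neg
  refine fd_of _ _ _ _ hd ?_
  have h1 : HasDerivAt (fun t : ℝ => G ((a.1 + t * U.1, a.2.1 + t * U.2.1), (b.1, b.2.1)))
      (d1 G ((a.1, a.2.1), (b.1, b.2.1)) (U.1, U.2.1)) 0 := by
    have h2 := d1_line h (a.1, a.2.1) (b.1, b.2.1) (U.1, U.2.1) 0
    rw [zero_smul, add_zero] at h2
    exact h2
  have h2 := ((h1.const_mul b.2.2).fun_div (g_lin a.2.2 U.2.2) (by simpa using ha)).fun_neg
  unfold cpl
  refine HasDerivAt.congr_deriv h2 ?_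
  simp
  ring

/-- Mixed derivative of the coupling. -/
lemma cpl_2 {G : R2 × R2 → ℝ} (h : ContDiff ℝ ∞ G) (a b U E : V) (ha : a.2.2 ≠ 0) :
    fderiv ℝ (fun b => fderiv ℝ (fun a => cpl G a b) a U) b E =
      -((E.2.2 * (d1 G ((a.1, a.2.1), (b.1, b.2.1)) (U.1, U.2.1) * a.2.2 -
          G ((a.1, a.2.1), (b.1, b.2.1)) * U.2.2) +
        b.2.2 * (d2 (fun x => d1 G x (U.1, U.2.1)) ((a.1, a.2.1), (b.1, b.2.1)) (E.1, E.2.1) *
          a.2.2 - d2 G ((a.1, a.2.1), (b.1, b.2.1)) (E.1, E.2.1) * U.2.2)) / a.2.2 ^ 2) := by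
  have e0 : (fun b => fderiv ℝ (fun a => cpl G a b) a U) = fun b : V =>
      -(b.2.2 * (d1 G ((a.1, a.2.1), (b.1, b.2.1)) (U.1, U.2.1) * a.2.2 -
        G ((a.1, a.2.1), (b.1, b.2.1)) * U.2.2) / a.2.2 ^ 2) := by
    funext b
    exact cpl_1 h a b U ha
  rw [e0]
  have hd1 := d1_smooth h (U.1, U.2.1)
  have hd : DifferentiableAt ℝ (fun b : V =>
      -(b.2.2 * (d1 G ((a.1, a.2.1), (b.1, b.2.1)) (U.1, U.2.1) * a.2.2 -
        G ((a.1, a.2.1), (b.1, b.2.1)) * U.2.2) / a.2.2 ^ 2)) b := by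
    have h1 : DifferentiableAt ℝ (fun b : V => G ((a.1, a.2.1), (b.1, b.2.1))) b :=
      (h.comp (by fun_prop : ContDiff ℝ ∞ fun b : V =>
        (((a.1, a.2.1), (b.1, b.2.1)) : R2 × R2))).contDiffAt.differentiableAt (by simp)
    have h2 : DifferentiableAt ℝ (fun b : V =>
        d1 G ((a.1, a.2.1), (b.1, b.2.1)) (U.1, U.2.1)) b :=
      (hd1.comp (by fun_prop : ContDiff ℝ ∞ fun b : V =>
        (((a.1, a.2.1), (b.1, b.2.1)) : R2 × R2))).contDiffAt.differentiableAt (by simp)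
    have h3 : DifferentiableAt ℝ (fun b : V =>
        d1 G ((a.1, a.2.1), (b.1, b.2.1)) (U.1, U.2.1) * a.2.2 -
        G ((a.1, a.2.1), (b.1, b.2.1)) * U.2.2) b := (h2.mul_const _).fun_sub (h1.mul_const _)
    have h4 : DifferentiableAt ℝ (fun b : V => b.2.2 *
        (d1 G ((a.1, a.2.1), (b.1, b.2.1)) (U.1, U.2.1) * a.2.2 -
        G ((a.1, a.2.1), (b.1, b.2.1)) * U.2.2)) b :=
      (by fun_prop : DifferentiableAt ℝ (fun b : V => b.2.2) b).fun_mul h3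
    simp only [div_eq_mul_inv]
    exact (h4.mul_const _).fun_neg
  refine fd_of _ _ _ _ hd ?_
  have h1 : HasDerivAt (fun t : ℝ => G ((a.1, a.2.1), (b.1 + t * E.1, b.2.1 + t * E.2.1)))
      (d2 G ((a.1, a.2.1), (b.1, b.2.1)) (E.1, E.2.1)) 0 := by
    have h2 := d2_line h (a.1, a.2.1) (b.1, b.2.1) (E.1, E.2.1) 0
    rw [zero_smul, add_zero] at h2
    exact h2
  have h2 : HasDerivAt (fun t : ℝ =>
      d1 G ((a.1, a.2.1), (b.1 + t * E.1, b.2.1 + t * E.2.1)) (U.1, U.2.1))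
      (d2 (fun x => d1 G x (U.1, U.2.1)) ((a.1, a.2.1), (b.1, b.2.1)) (E.1, E.2.1)) 0 := by
    have h3 := d2_line hd1 (a.1, a.2.1) (b.1, b.2.1) (E.1, E.2.1) 0
    rw [zero_smul, add_zero] at h3
    exact h3
  have h3 := (((g_lin b.2.2 E.2.2).fun_mul ((h2.mul_const a.2.2).fun_sub
    (h1.mul_const U.2.2))).div_const (a.2.2 ^ 2)).fun_neg
  refine HasDerivAt.congr_deriv h3 ?_
  simp

/-- A kernel in dimension two. -/
lemma ker_dim2 (c1 c2 : ℝ) (hc : c1 ≠ 0) (u U : R2) (hu : c1 * u.1 + c2 * u.2 = 0)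
    (hU : c1 * U.1 + c2 * U.2 = 0) (hne : u ≠ 0) : ∃ α : ℝ, U = α • u := by
  have hu2 : u.2 ≠ 0 := by
    intro h
    rw [h, mul_zero, add_zero] at hu
    exact hne (Prod.ext ((mul_eq_zero.1 hu).resolve_left hc) h)
  refine ⟨U.2 / u.2, ?_⟩
  have h1 : c1 * (U.1 * u.2 - U.2 * u.1) = 0 := by linear_combination u.2 * hU - U.2 * hu
  have h2 : U.1 * u.2 - U.2 * u.1 = 0 := (mul_eq_zero.1 h1).resolve_left hc
  ext
  · simp only [Prod.smul_fst, smul_eq_mul]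
    field_simp
    linarith
  · simp only [Prod.smul_snd, smul_eq_mul]
    field_simp

/-- The algebraic core of the nondegeneracy. -/
theorem nd_core {G : R2 × R2 → ℝ} (h : ContDiff ℝ ∞ G) (a b U : V) (ha : a.2.2 ≠ 0)
    (hb : b.2.2 ≠ 0) (c1 c2 k1 k2 : ℝ) (hc : c1 ≠ 0) (u e : R2)
    (hu : c1 * u.1 + c2 * u.2 = 0) (he : k1 * e.1 + k2 * e.2 = 0)
    (hnd : G ((a.1, a.2.1), (b.1, b.2.1)) *
      d2 (fun x => d1 G x u) ((a.1, a.2.1), (b.1, b.2.1)) e ≠
      d1 G ((a.1, a.2.1), (b.1, b.2.1)) u * d2 G ((a.1, a.2.1), (b.1, b.2.1)) e)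
    (hU : c1 * U.1 + c2 * U.2.1 = 0)
    (hE : ∀ E : V, k1 * E.1 + k2 * E.2.1 = 0 →
      fderiv ℝ (fun b => fderiv ℝ (fun a => cpl G a b) a U) b E = 0) : U = 0 := by
  set x : R2 × R2 := ((a.1, a.2.1), (b.1, b.2.1)) with hx
  have hne : u ≠ 0 := by
    rintro rfl
    apply hnd
    have z1 : ∀ x, d1 G x 0 = 0 := by
      intro x
      unfold d1
      rw [show ((0 : R2), (0 : R2)) = 0 from rfl, map_zero]
    have z2 : d2 (fun x => d1 G x 0) x e = 0 := by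
      have : (fun x => d1 G x 0) = fun _ => (0 : ℝ) := funext z1
      rw [this]
      unfold d2
      simp
    rw [z2, z1, mul_zero, zero_mul]
  obtain ⟨α, hα⟩ := ker_dim2 c1 c2 hc u (U.1, U.2.1) hu hU hne
  have r1 := hE (0, 0, 1) (by simp)
  rw [cpl_2 h a b U _ ha] at r1
  have r2 := hE (e.1, e.2, 0) (by simpa using he)
  rw [cpl_2 h a b U _ ha] at r2
  have z0 : ∀ (K : R2 × R2 → ℝ), d2 K x (0, 0) = 0 := by
    intro K
    unfold d2
    rw [show ((0 : R2), ((0, 0) : R2)) = 0 from rfl, map_zero]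
  simp only [← hx] at r1 r2
  rw [hα] at r1 r2
  rw [z0, z0] at r1
  have s2 : d2 (fun x => d1 G x (α • u)) x e = α * d2 (fun x => d1 G x u) x e := by
    have e1 : (fun x => d1 G x (α • u)) = fun x => α * d1 G x u := by
      funext x
      exact d1_smul G x α u
    rw [e1]
    unfold d2
    rw [fderiv_const_mul ((d1_smooth h u).contDiffAt.differentiableAt (by simp))]
    simp
  have e' : ((e.1, e.2) : R2) = e := rfl
  rw [e', s2, d1_smul] at r2
  rw [d1_smul] at r1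
  have ha2 : a.2.2 ^ 2 ≠ 0 := pow_ne_zero 2 ha
  rw [neg_eq_zero, div_eq_zero_iff] at r1 r2
  have q1 := r1.resolve_right ha2
  have q2 := r2.resolve_right ha2
  have q3 : α * d1 G x u * a.2.2 = G x * U.2.2 := by linarith
  have q4 : b.2.2 * (α * d2 (fun x => d1 G x u) x e * a.2.2 - d2 G x e * U.2.2) = 0 := by
    linarith
  have q5 : α * d2 (fun x => d1 G x u) x e * a.2.2 = d2 G x e * U.2.2 := by
    have := (mul_eq_zero.1 q4).resolve_left hb
    linarith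
  have q6 : α * a.2.2 * (G x * d2 (fun x => d1 G x u) x e - d1 G x u * d2 G x e) = 0 := by
    linear_combination G x * q5 - d2 G x e * q3
  have q7 : α = 0 := by
    have h1 : G x * d2 (fun x => d1 G x u) x e - d1 G x u * d2 G x e ≠ 0 := sub_ne_zero.2 hnd
    have h2 := (mul_eq_zero.1 q6).resolve_right h1
    exact (mul_eq_zero.1 h2).resolve_right ha
  have q8 : U.2.2 = 0 := by
    by_contra h3
    rw [q7] at q3 q5
    have g1 : G x = 0 := by
      have : G x * U.2.2 = 0 := by linarith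
      exact (mul_eq_zero.1 this).resolve_right h3
    have g2 : d2 G x e = 0 := by
      have : d2 G x e * U.2.2 = 0 := by linarith
      exact (mul_eq_zero.1 this).resolve_right h3
    apply hnd
    rw [g1, g2, zero_mul, mul_zero]
  rw [q7, zero_smul] at hα
  have q9 : U.1 = 0 := congrArg Prod.fst hα
  have q10 : U.2.1 = 0 := congrArg Prod.snd hα
  exact Prod.ext q9 (Prod.ext q10 q8)

end Pool.Agent.SDT.N1G

end -- N1G.La3

section -- N1G.E1

/-!
N1G, block L2b: the basic facts about a family near the base point.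
-/

namespace Pool.Agent.SDT.N1G

open MeasureTheory Set Metric Pool.Agent.SDT.MP_6cbfb8_an Pool.Agent.SDT.MST Pool.Agent.SDT.N1
open scoped ENNReal Real ContDiff

set_option linter.unusedSectionVars false

variable {P : Type*} [NormedAddCommGroup P] [NormedSpace ℝ P]

theorem ball2 {E G : Type*} [PseudoMetricSpace E] [PseudoMetricSpace G] {e e0 : E} {g g0 : G}
    {δ : ℝ} : (e, g) ∈ ball (e0, g0) δ ↔ e ∈ ball e0 δ ∧ g ∈ ball g0 δ := by
  rw [← ball_prod_same]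
  rfl

theorem ballR {x x0 δ : ℝ} : x ∈ ball x0 δ ↔ |x - x0| < δ := by
  rw [mem_ball, Real.dist_eq]

theorem ballYX {p p0 : P} {x0 y0 : ℝ × ℝ} {δ : ℝ} {s : YX} :
    (p, s) ∈ ball (p0, ((y0, x0) : YX)) δ ↔ p ∈ ball p0 δ ∧ |s.1.1 - y0.1| < δ ∧
      |s.1.2 - y0.2| < δ ∧ |s.2.1 - x0.1| < δ ∧ |s.2.2 - x0.2| < δ := by
  obtain ⟨⟨y1, y2⟩, ⟨a, b⟩⟩ := s
  obtain ⟨x01, x02⟩ := x0
  obtain ⟨y01, y02⟩ := y0
  rw [ball2, ball2, ball2, ball2, ballR, ballR, ballR, ballR]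
  tauto

section
variable {F : Fam P} {p0 : P} {x0 y0 : ℝ × ℝ} {r : ℝ}

/-- continuity of `N` at the base point -/
theorem FamOk.N_near (hF : FamOk F p0 x0 y0 r) (ε : ℝ) (hε : 0 < ε) :
    ∃ δ : ℝ, 0 < δ ∧ ∀ p ∈ ball p0 δ, ∀ s : YX, Bx δ x0 y0 s → |F.N p s - F.N p0 (y0, x0)| ≤ ε := by
  have hr := hF.hr
  have c0 : ContinuousAt F.o0 (p0, y0.1) :=
    hF.so0.continuousOn.continuousAt (isOpen_ball.mem_nhds (mem_ball_self hr))
  have c1 : ContinuousAt F.o1 (p0, y0.1, x0.1) :=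
    hF.so1.continuousOn.continuousAt (isOpen_ball.mem_nhds (mem_ball_self hr))
  have c2 : ContinuousAt F.s (p0, y0.2, x0.2) :=
    hF.ss.continuousOn.continuousAt (isOpen_ball.mem_nhds (mem_ball_self hr))
  have c3 : ContinuousAt F.μ p0 :=
    hF.sμ.continuousOn.continuousAt (isOpen_ball.mem_nhds (mem_ball_self hr))
  have key : ContinuousAt (fun e : P × YX => F.N e.1 e.2) (p0, (y0, x0)) := by
    unfold Fam.N nn Fam.om Fam.sg
    refine ContinuousAt.sub (ContinuousAt.add ?_ (ContinuousAt.mul ?_ ?_)) ?_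
    · exact ContinuousAt.comp (g := F.o0) (f := fun e : P × YX => (e.1, e.2.1.1))
        (x := (p0, (y0, x0))) c0 (by fun_prop)
    · exact ContinuousAt.comp (g := F.μ) (f := fun e : P × YX => e.1)
        (x := (p0, (y0, x0))) c3 (by fun_prop)
    · exact ContinuousAt.comp (g := F.o1) (f := fun e : P × YX => (e.1, e.2.1.1, e.2.2.1))
        (x := (p0, (y0, x0))) c1 (by fun_prop)
    · exact ContinuousAt.comp (g := F.s) (f := fun e : P × YX => (e.1, e.2.1.2, e.2.2.2))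
        (x := (p0, (y0, x0))) c2 (by fun_prop)
  obtain ⟨δ, hδ, h⟩ := Metric.continuousAt_iff.1 key ε hε
  refine ⟨δ / 2, by positivity, fun p hp s hs => ?_⟩
  obtain ⟨s1, s2, s3, s4⟩ := hs
  have h1 : (p, s) ∈ ball (p0, ((y0, x0) : YX)) δ := by
    rw [ballYX]
    refine ⟨ball_subset_ball (by linarith) hp, ?_, ?_, ?_, ?_⟩ <;> linarith
  have h2 := h (mem_ball.1 h1)
  rw [Real.dist_eq] at h2
  exact h2.le

theorem FamOk.l_near (hF : FamOk F p0 x0 y0 r) (ε : ℝ) (hε : 0 < ε) :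
    ∃ δ : ℝ, 0 < δ ∧ ∀ p ∈ ball p0 δ, ∀ s : YX, Bx δ x0 y0 s →
      |F.l (p, s) - F.l (p0, (y0, x0))| ≤ ε := by
  have key : ContinuousAt F.l (p0, (y0, x0)) :=
    hF.sl.continuousOn.continuousAt (isOpen_ball.mem_nhds (mem_ball_self hF.hr))
  obtain ⟨δ, hδ, h⟩ := Metric.continuousAt_iff.1 key ε hε
  refine ⟨δ / 2, by positivity, fun p hp s hs => ?_⟩
  obtain ⟨s1, s2, s3, s4⟩ := hs
  have h1 : (p, s) ∈ ball (p0, ((y0, x0) : YX)) δ := by
    rw [ballYX]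
    refine ⟨ball_subset_ball (by linarith) hp, ?_, ?_, ?_, ?_⟩ <;> linarith
  have h2 := h (mem_ball.1 h1)
  rw [Real.dist_eq] at h2
  exact h2.le

/-- difference of `ψ` in the second variable -/
theorem FamOk.ψ_b (hF : FamOk F p0 x0 y0 r) (ε : ℝ) (hε : 0 < ε) :
    ∃ δ : ℝ, 0 < δ ∧ ∀ p ∈ ball p0 δ, ∀ (y : ℝ × ℝ) (a b b' : ℝ), Bx δ x0 y0 (y, (a, b)) →
      Bx δ x0 y0 (y, (a, b')) →
      ∃ M : ℝ, |M - F.ψb p0 (y0, x0)| ≤ ε ∧ F.ψ (p, (y, (a, b))) - F.ψ (p, (y, (a, b'))) =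
        M * (b - b') := by
  obtain ⟨δ, hδ, hδr, h⟩ := mvt_dir F.ψ (p0, ((y0, x0) : YX)) r hF.hr hF.sψ (0, (0, (0, 1))) ε hε
  refine ⟨δ / 2, by positivity, fun p hp y a b b' h1 h2 => ?_⟩
  obtain ⟨s1, s2, s3, s4⟩ := h1
  obtain ⟨t1, t2, t3, t4⟩ := h2
  dsimp only at s1 s2 s3 s4 t1 t2 t3 t4
  have hin : ∀ c : ℝ, |c - x0.2| ≤ δ / 2 → (p, ((y, (a, c)) : YX)) ∈ ball (p0, ((y0, x0) : YX)) δ := by
    intro c hc
    rw [ballYX]
    refine ⟨ball_subset_ball (by linarith) hp, ?_, ?_, ?_, ?_⟩ <;> dsimp only <;> linarith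
  have e1 : (p, ((y, (a, b')) : YX)) + (b - b') • ((0, (0, (0, 1))) : P × YX) =
      (p, ((y, (a, b)) : YX)) := by
    ext <;> simp
  obtain ⟨D, hD, hD'⟩ := h _ (hin b' t4) (b - b') (by rw [e1]; exact hin b s4)
  rw [e1] at hD'
  refine ⟨D, ?_, hD'⟩
  have e2 : F.ψb p0 (y0, x0) = fderiv ℝ F.ψ (p0, ((y0, x0) : YX)) (0, (0, (0, 1))) := by
    unfold Fam.ψb
    have hdf : DifferentiableAt ℝ F.ψ (p0, ((y0, x0) : YX)) :=
      (hF.sψ.contDiffAt (isOpen_ball.mem_nhds (mem_ball_self hF.hr))).differentiableAt (by norm_num)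
    have h4 : HasDerivAt (fun b : ℝ => ((p0, (y0, (x0.1, b))) : P × YX)) (0, (0, (0, 1))) x0.2 :=
      (hasDerivAt_const _ _).prodMk ((hasDerivAt_const _ _).prodMk
        ((hasDerivAt_const _ _).prodMk (hasDerivAt_id _)))
    exact (hdf.hasFDerivAt.comp_hasDerivAt x0.2 h4).deriv
  rw [e2]
  exact hD

/-- The formula for the phase of a rectangle. -/
theorem FamOk.key (hF : FamOk F p0 x0 y0 r) (ε : ℝ) (hε : 0 < ε) :
    ∃ δ : ℝ, 0 < δ ∧ ∀ p ∈ ball p0 δ, ∀ q : V × V, NbG δ x0 y0 q →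
      ∃ ξ ∈ uIcc q.1.2.1 (q.1.2.1 - q.1.2.2), ∃ L M : ℝ, |L - F.l (p0, (y0, x0))| ≤ ε ∧
        |M - F.ψb p0 (y0, x0)| ≤ ε ∧
        |F.N p ((q.1.1, q.2.1), (ξ, q.2.2.1)) - F.N p0 (y0, x0)| ≤ ε ∧
        F.ψ (p, px q) - F.ψ (p, pz q) =
          -(L * F.N p ((q.1.1, q.2.1), (ξ, q.2.2.1)) * q.1.2.2) + M * q.2.2.2 := by
  obtain ⟨δ1, d1, h1⟩ := hF.N_near ε hε
  obtain ⟨δ2, d2, h2⟩ := hF.l_near ε hε
  obtain ⟨δ3, d3, h3⟩ := hF.ψ_b ε hε
  refine ⟨min (min δ1 δ2) (min δ3 (r / 2)), lt_min (lt_min d1 d2) (lt_min d3 (by linarith [hF.hr])),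
    fun p hp q hq => ?_⟩
  have m1 : min (min δ1 δ2) (min δ3 (r / 2)) ≤ δ1 := (min_le_left _ _).trans (min_le_left _ _)
  have m2 : min (min δ1 δ2) (min δ3 (r / 2)) ≤ δ2 := (min_le_left _ _).trans (min_le_right _ _)
  have m3 : min (min δ1 δ2) (min δ3 (r / 2)) ≤ δ3 := (min_le_right _ _).trans (min_le_left _ _)
  have m4 : min (min δ1 δ2) (min δ3 (r / 2)) ≤ r / 2 :=
    (min_le_right _ _).trans (min_le_right _ _)
  set δ := min (min δ1 δ2) (min δ3 (r / 2)) with hδ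
  obtain ⟨⟨q1, q2, q3, q4⟩, ⟨q1', q2', q3', q4'⟩, -, -⟩ := hq
  simp only [px, pz] at q1 q2 q3 q4 q1' q2' q3' q4'
  have hr := hF.hr
  have hseg : ∀ x ∈ uIcc q.1.2.1 (q.1.2.1 - q.1.2.2), |x - x0.1| ≤ δ := by
    intro x hx
    rw [mem_uIcc] at hx
    rw [abs_le] at q3 q3' ⊢
    rcases hx with hx | hx <;> constructor <;> linarith [hx.1, hx.2]
  have hbx : ∀ x ∈ uIcc q.1.2.1 (q.1.2.1 - q.1.2.2), ∀ δ' : ℝ, δ ≤ δ' →
      Bx δ' x0 y0 ((q.1.1, q.2.1), (x, q.2.2.1)) := by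
    intro x hx δ' hδ'
    exact ⟨q1.trans hδ', q2.trans hδ', (hseg x hx).trans hδ', q4.trans hδ'⟩
  have hd : ∀ x ∈ uIcc q.1.2.1 (q.1.2.1 - q.1.2.2), HasDerivAt
      (fun a => F.ψ (p, ((q.1.1, q.2.1), (a, q.2.2.1))))
      (-(F.l (p, ((q.1.1, q.2.1), (x, q.2.2.1))) * F.N p ((q.1.1, q.2.1), (x, q.2.2.1)))) x := by
    intro x hx
    refine hF.dψ p ((q.1.1, q.2.1), (x, q.2.2.1)) ?_
    rw [ballYX]
    have h5 := hseg x hx
    refine ⟨ball_subset_ball (by linarith) hp, ?_, ?_, ?_, ?_⟩ <;> dsimp only <;> linarith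
  obtain ⟨ξ, hξ, h4⟩ := mvt_u _ _ _ _ hd
  obtain ⟨M, hM, h5⟩ := h3 p (ball_subset_ball m3 hp) (q.1.1, q.2.1) (q.1.2.1 - q.1.2.2) q.2.2.1
    (q.2.2.1 - q.2.2.2) ⟨q1.trans m3, q2.trans m3, q3'.trans m3, q4.trans m3⟩
    ⟨q1.trans m3, q2.trans m3, q3'.trans m3, q4'.trans m3⟩
  refine ⟨ξ, hξ, F.l (p, ((q.1.1, q.2.1), (ξ, q.2.2.1))), M,
    h2 p (ball_subset_ball m2 hp) _ (hbx ξ hξ _ m2), hM,
    h1 p (ball_subset_ball m1 hp) _ (hbx ξ hξ _ m1), ?_⟩
  have e1 : px q = ((q.1.1, q.2.1), (q.1.2.1, q.2.2.1)) := rfl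
  have e2 : pz q = ((q.1.1, q.2.1), (q.1.2.1 - q.1.2.2, q.2.2.1 - q.2.2.2)) := rfl
  rw [e1, e2]
  have e3 : q.1.2.1 - (q.1.2.1 - q.1.2.2) = q.1.2.2 := by ring
  have e4 : q.2.2.1 - (q.2.2.1 - q.2.2.2) = q.2.2.2 := by ring
  rw [e3] at h4
  rw [e4] at h5
  linarith

end

end Pool.Agent.SDT.N1G

end -- N1G.E1
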