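import Pool.Agent.SDT.B01
import Pool.Agent.SDT.B06
import Pool.Agent.SDT.B08

set_option autoImplicit false

namespace Pool.Agent.SDT.MP_6cbfb8_an
end Pool.Agent.SDT.MP_6cbfb8_an
namespace Pool.Agent.SDT.MST
end Pool.Agent.SDT.MST
namespace Pool.Agent.SDT.N1
end Pool.Agent.SDT.N1

section -- MST.O2

namespace Pool.Agent.SDT.MST

open MeasureTheory Set Pool.Agent.SDT.MP_6cbfb8_an
open scoped ENNReal Real

theorem continuous_mv {m : ℕ} : Continuous fun q : Mat m × E m => mv q.1 q.2 := by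
  unfold mv
  refine (PiLp.continuous_toLp 2 _).comp (continuous_pi fun i => ?_)
  refine continuous_finsetSum _ fun j _ => ?_
  refine Continuous.mul ?_ ?_
  · exact (continuous_apply j).comp ((continuous_apply i).comp continuous_fst)
  · exact (EuclideanSpace.proj (𝕜 := ℝ) j).continuous.comp continuous_snd

theorem ho2_vN_cont {m : ℕ} : Continuous fun q : Mat m × E m => vN q.1 q.2 := by
  unfold vN
  exact continuous_const.sub (continuous_mv.norm.pow 2)

theorem ho2_vN_meas {m : ℕ} (N : Mat m) : Measurable fun w : E m => vN N w :=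
  (ho2_vN_cont.comp (Continuous.prodMk_right N)).measurable

theorem ho2_bdd (c0 : ℝ) (a : ℝ → ℝ) (ha : Cut2 c0 a) : ∃ A : ℝ, 0 < A ∧ ∀ v ≤ 1, |a v| ≤ A := by
  obtain ⟨C, hC⟩ := (isCompact_Icc (a := c0) (b := 1)).exists_bound_of_continuousOn
    (f := a) (ha.1 0).continuous.continuousOn
  refine ⟨|C| + 1, by positivity, fun v hv => ?_⟩
  by_cases h1 : v ≤ c0
  · rw [ha.2 v h1, abs_zero]
    positivity
  · have h3 := hC v ⟨by linarith, hv⟩
    rw [Real.norm_eq_abs] at h3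
    have := le_abs_self C
    linarith

theorem ho2_ex (b : ℝ) : ‖ex b‖ = 1 := by
  unfold ex
  rw [Complex.norm_exp_ofReal_mul_I]

theorem ho2_vN_le {m : ℕ} (N : Mat m) (w : E m) : vN N w ≤ 1 := by
  unfold vN
  have : 0 ≤ ‖mv N w‖ ^ 2 := by positivity
  linarith

theorem ho2_norm {m : ℕ} (A : ℝ) (hA : 0 < A) (a : ℝ → ℝ) (hb : ∀ v ≤ 1, |a v| ≤ A) (R : ℝ)
    (N : Mat m) (hR : ∀ w : E m, a (vN N w) ≠ 0 → ‖w‖ ≤ R) (t : ℝ)
    (G : E m → ℂ) (hG : ∀ w, ‖G w‖ ≤ 1) (w : E m) :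
    ‖G w * amp2 a N t w‖ ≤ (Metric.closedBall (0 : E m) R).indicator (fun _ => A) w := by
  by_cases hw : a (vN N w) = 0
  · have h0 : G w * amp2 a N t w = 0 := by
      unfold amp2
      rw [hw]
      simp
    rw [h0, norm_zero]
    exact indicator_nonneg (fun _ _ => hA.le) w
  · have hm : w ∈ Metric.closedBall (0 : E m) R := by
      rw [mem_closedBall_zero_iff]
      exact hR w hw
    rw [indicator_of_mem hm, norm_mul]
    unfold amp2
    rw [norm_mul, ho2_ex, mul_one, Complex.norm_real, Real.norm_eq_abs]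
    calc ‖G w‖ * |a (vN N w)| ≤ 1 * A :=
          mul_le_mul (hG w) (hb _ (ho2_vN_le N w)) (abs_nonneg _) zero_le_one
      _ = A := one_mul A

theorem ho2_meas_amp {m : ℕ} (c0 : ℝ) (a : ℝ → ℝ) (ha : Cut2 c0 a) (N : Mat m) (t : ℝ) :
    Measurable fun w : E m => amp2 a N t w := by
  have hm := ho2_vN_meas N
  have hac : Measurable a := (ha.1 0).continuous.measurable
  unfold amp2 ex
  have h1 : Measurable fun w : E m => ((a (vN N w) : ℝ) : ℂ) :=
    Complex.measurable_ofReal.comp (hac.comp hm)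
  have h2 : Measurable fun w : E m => √(vN N w) := hm.sqrt
  fun_prop

theorem op2_bounds (m : ℕ) (c0 : ℝ) (hc : 0 < c0) (a : ℝ → ℝ) (ha : Cut2 c0 a) (R : ℝ) :
    ∃ C : ℝ, 0 < C ∧ ∀ N : Mat m, (∀ w : E m, a (vN N w) ≠ 0 → ‖w‖ ≤ R) → ∀ (t : ℝ)
      (G : E m → ℂ), Measurable G → (∀ w, ‖G w‖ ≤ 1) →
      (∀ x, ‖op2 a N t G x‖ ≤ C) ∧ ∫⁻ x, ‖op2 a N t G x‖ₑ ^ (2:ℝ) ≤ ENNReal.ofReal C := by
  obtain ⟨A, hA, hb⟩ := ho2_bdd c0 a ha
  have hBm : MeasurableSet (Metric.closedBall (0 : E m) R) := measurableSet_closedBall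
  have hfin : volume (Metric.closedBall (0 : E m) R) ≠ ∞ := measure_closedBall_lt_top.ne
  set V : ℝ := volume.real (Metric.closedBall (0 : E m) R) with hV
  have hV0 : 0 ≤ V := measureReal_nonneg
  refine ⟨A * V + A ^ 2 * V + 1, by positivity, fun N hR t G hGm hG => ?_⟩
  have hint : Integrable ((Metric.closedBall (0 : E m) R).indicator (fun _ => A)) :=
    (integrable_indicator_iff hBm).2 (integrableOn_const hfin)
  have hn := ho2_norm A hA a hb R N hR t G hG
  constructor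
  · intro x
    unfold op2
    refine (norm_integral_le_of_norm_le hint (Filter.Eventually.of_forall fun w => ?_)).trans ?_
    · rw [norm_mul, ho2_ex, mul_one]
      exact hn w
    · rw [integral_indicator hBm, setIntegral_const, smul_eq_mul]
      have : 0 ≤ A ^ 2 * V := by positivity
      rw [← hV]
      linarith [mul_comm A V]
  · have hF : Integrable (fun w : E m => G w * amp2 a N t w) :=
      hint.mono' ((hGm.mul (ho2_meas_amp c0 a ha N t)).aestronglyMeasurable)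
        (Filter.Eventually.of_forall fun w => hn w)
    have hB := bessel (volume : Measure (E m)) (fun w : E m => w) measurable_id 1
      ENNReal.one_ne_top (fun φ _ => by simp) (fun w : E m => G w * amp2 a N t w) hF
    rw [one_mul] at hB
    refine le_trans (le_of_eq ?_) (hB.trans ?_)
    · rfl
    · calc ∫⁻ w : E m, ‖G w * amp2 a N t w‖ₑ ^ (2:ℝ)
          ≤ ∫⁻ w : E m, (Metric.closedBall (0 : E m) R).indicator
              (fun _ => ENNReal.ofReal (A ^ 2)) w := by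
            refine lintegral_mono fun w => ?_
            have hnw := hn w
            by_cases hw : w ∈ Metric.closedBall (0 : E m) R
            · rw [indicator_of_mem hw] at hnw
              simp only [indicator_of_mem hw]
              rw [ENNReal.ofReal_pow hA.le, ← ENNReal.rpow_natCast]
              simp only [Nat.cast_ofNat]
              refine ENNReal.rpow_le_rpow ?_ (by norm_num)
              rw [← ofReal_norm]
              exact ENNReal.ofReal_le_ofReal hnw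
            · rw [indicator_of_notMem hw] at hnw
              simp only [indicator_of_notMem hw]
              have h0' : G w * amp2 a N t w = 0 := by
                rw [← norm_le_zero_iff]
                exact hnw
              rw [h0']
              simp
        _ = ENNReal.ofReal (A ^ 2) * volume (Metric.closedBall (0 : E m) R) := by
            rw [lintegral_indicator hBm, setLIntegral_const]
        _ = ENNReal.ofReal (A ^ 2 * V) := by
            rw [ENNReal.ofReal_mul (by positivity), hV, ofReal_measureReal hfin]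
        _ ≤ ENNReal.ofReal (A * V + A ^ 2 * V + 1) := by
            apply ENNReal.ofReal_le_ofReal
            have : 0 ≤ A * V := by positivity
            linarith

theorem ho2_vN_meas2 {m : ℕ} : Measurable fun q : Mat m × E m => vN q.1 q.2 :=
  ho2_vN_cont.measurable

theorem ho2_pair {m : ℕ} :
    Measurable fun p : (Mat m × ℝ × E m) × E m => (p.1.1, p.2) :=
  (measurable_fst.comp measurable_fst).prodMk measurable_snd

theorem ho2_vN_meas3 {m : ℕ} :
    Measurable fun p : (Mat m × ℝ × E m) × E m => vN p.1.1 p.2 := by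
  have h := Measurable.comp (g := fun q : Mat m × E m => vN q.1 q.2)
    (f := fun p : (Mat m × ℝ × E m) × E m => (p.1.1, p.2)) ho2_vN_meas2 ho2_pair
  exact h

theorem ho2_ex_meas : Measurable ex := by
  unfold ex
  fun_prop

theorem ho2_m1 {m : ℕ} (c0 : ℝ) (a : ℝ → ℝ) (ha : Cut2 c0 a) (G : E m → ℂ)
    (hG : Measurable G) :
    Measurable fun p : (Mat m × ℝ × E m) × E m =>
      G p.2 * amp2 a p.1.1 p.1.2.1 p.2 := by
  have hac : Measurable a := (ha.1 0).continuous.measurable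
  have hm : Measurable fun p : (Mat m × ℝ × E m) × E m => vN p.1.1 p.2 := ho2_vN_meas3
  have h1 : Measurable fun p : (Mat m × ℝ × E m) × E m => ((a (vN p.1.1 p.2) : ℝ) : ℂ) :=
    Complex.measurable_ofReal.comp (hac.comp hm)
  have h2 : Measurable fun p : (Mat m × ℝ × E m) × E m => √(vN p.1.1 p.2) := hm.sqrt
  have h4 : Measurable fun p : (Mat m × ℝ × E m) × E m => G p.2 := hG.comp measurable_snd
  have ht : Measurable fun p : (Mat m × ℝ × E m) × E m => p.1.2.1 :=
    measurable_fst.comp (measurable_snd.comp measurable_fst)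
  have h5 : Measurable fun p : (Mat m × ℝ × E m) × E m => p.1.2.1 * √(vN p.1.1 p.2) := ht.mul h2
  have h6 : Measurable fun p : (Mat m × ℝ × E m) × E m => ex (p.1.2.1 * √(vN p.1.1 p.2)) :=
    ho2_ex_meas.comp h5
  exact h4.mul (h1.mul h6)

theorem ho2_m2 {m : ℕ} :
    Measurable fun p : (Mat m × ℝ × E m) × E m => ex (inner ℝ p.2 p.1.2.2) := by
  have h3 : Measurable fun p : (Mat m × ℝ × E m) × E m => (inner ℝ p.2 p.1.2.2 : ℝ) :=
    measurable_snd.inner (measurable_snd.comp (measurable_snd.comp measurable_fst))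
  exact ho2_ex_meas.comp h3

theorem measurable_op2 {m : ℕ} (c0 : ℝ) (a : ℝ → ℝ) (ha : Cut2 c0 a) (G : E m → ℂ)
    (hG : Measurable G) :
    Measurable fun q : Mat m × ℝ × E m => op2 a q.1 q.2.1 G q.2.2 := by
  have h5 : Measurable fun p : (Mat m × ℝ × E m) × E m =>
      G p.2 * amp2 a p.1.1 p.1.2.1 p.2 * ex (inner ℝ p.2 p.1.2.2) :=
    (ho2_m1 c0 a ha G hG).mul ho2_m2
  have h6 := h5.stronglyMeasurable.integral_prod_right' (ν := (volume : Measure (E m)))
  exact h6.measurable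

end Pool.Agent.SDT.MST

end -- MST.O2

section -- N1.C1

/-!
N1, block C: cut-off functions, part 1.
-/

namespace Pool.Agent.SDT.N1

open MeasureTheory Set Metric Pool.Agent.SDT.MP_6cbfb8_an Pool.Agent.SDT.MST
open scoped ENNReal Real ContDiff FourierTransform SchwartzMap

theorem FT1_scale (B : ℝ) (m : ℝ → ℂ) (h : FT1 B m) (s : ℝ) (hs : s ≠ 0) :
    FT1 B (fun x => m (s * x)) := by
  obtain ⟨w, hw1, hw2, hw3⟩ := h
  refine ⟨fun η => ((|s⁻¹| : ℝ) : ℂ) * w (s⁻¹ * η), ?_, ?_, fun x => ?_⟩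
  · exact (hw1.comp_mul_left' (inv_ne_zero hs)).const_mul _
  · have h1 : (∫ η, ‖((|s⁻¹| : ℝ) : ℂ) * w (s⁻¹ * η)‖) = |s⁻¹| * ∫ η, ‖w (s⁻¹ * η)‖ := by
      rw [← integral_const_mul]
      refine integral_congr_ae (Filter.Eventually.of_forall fun η => ?_)
      simp [abs_abs]
    rw [h1, Measure.integral_comp_mul_left (fun η => ‖w η‖) s⁻¹, inv_inv, smul_eq_mul,
      ← mul_assoc, ← abs_mul, inv_mul_cancel₀ hs, abs_one, one_mul]
    exact hw2
  · show m (s * x) = _
    rw [hw3 (s * x)]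
    have h2 : (fun η => w η * ex (η * (s * x))) =
        fun η => (fun t => w (s⁻¹ * t) * ex (t * x)) (s * η) := by
      funext η
      simp only
      rw [← mul_assoc s⁻¹, inv_mul_cancel₀ hs, one_mul]
      ring_nf
    rw [h2, Measure.integral_comp_mul_left (fun t => w (s⁻¹ * t) * ex (t * x)) s,
      Complex.real_smul, ← integral_const_mul]
    refine integral_congr_ae (Filter.Eventually.of_forall fun η => ?_)
    simp only
    ring

theorem FT1_sub (B B' : ℝ) (m m' : ℝ → ℂ) (h : FT1 B m) (h' : FT1 B' m') :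
    FT1 (B + B') (fun x => m x - m' x) := by
  obtain ⟨w, hw1, hw2, hw3⟩ := h
  obtain ⟨w', hw1', hw2', hw3'⟩ := h'
  refine ⟨fun η => w η - w' η, hw1.sub hw1', ?_, fun x => ?_⟩
  · calc (∫ η, ‖w η - w' η‖) ≤ ∫ η, (‖w η‖ + ‖w' η‖) :=
          integral_mono (hw1.sub hw1').norm (hw1.norm.add hw1'.norm) fun η => norm_sub_le _ _
      _ = (∫ η, ‖w η‖) + ∫ η, ‖w' η‖ := integral_add hw1.norm hw1'.norm
      _ ≤ B + B' := add_le_add hw2 hw2'
  · have hint : ∀ v : ℝ → ℂ, Integrable v → Integrable fun η => v η * ex (η * x) := by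
      intro v hv
      have h1 : Continuous fun η : ℝ => ex (η * x) := by
        unfold ex
        fun_prop
      refine hv.mul_bdd (c := 1) h1.aestronglyMeasurable (Filter.Eventually.of_forall fun η => ?_)
      exact (hns_norm_ex _).le
    show m x - m' x = _
    rw [hw3 x, hw3' x, ← integral_sub (hint w hw1) (hint w' hw1')]
    refine integral_congr_ae (Filter.Eventually.of_forall fun η => ?_)
    simp only
    ring

/-- Smooth compactly supported functions are Fourier transforms of integrable functions. -/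
theorem FT1_smooth (f : ℝ → ℝ) (hf : ContDiff ℝ ∞ f) (hc : HasCompactSupport f) :
    ∃ B : ℝ, 0 ≤ B ∧ FT1 B (fun x => ((f x : ℝ) : ℂ)) := by
  have h1 : HasCompactSupport fun x : ℝ => ((f x : ℝ) : ℂ) :=
    hc.comp_left (g := fun y : ℝ => (y : ℂ)) Complex.ofReal_zero
  have h2 : ContDiff ℝ ∞ fun x : ℝ => ((f x : ℝ) : ℂ) := Complex.ofRealCLM.contDiff.comp hf
  set φ : 𝓢(ℝ, ℂ) := h1.toSchwartzMap h2 with hφ
  set w : 𝓢(ℝ, ℂ) := 𝓕⁻ φ with hw
  refine ⟨∫ η, ‖w η‖, integral_nonneg fun _ => norm_nonneg _, w, w.integrable, le_rfl,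
    fun x => ?_⟩
  have h3 : 𝓕 w = φ := FourierTransform.fourier_fourierInv_eq φ
  have h4 : (φ : ℝ → ℂ) x = ((f x : ℝ) : ℂ) := rfl
  show ((f x : ℝ) : ℂ) = _
  rw [← h4, ← h3, SchwartzMap.fourier_coe, Real.fourier_real_eq_integral_exp_smul]
  refine integral_congr_ae (Filter.Eventually.of_forall fun η => ?_)
  simp only [smul_eq_mul]
  rw [mul_comm]
  congr 1
  unfold ex
  congr 2
  push_cast
  ring

theorem th_contDiff : ContDiff ℝ ∞ th := by
  unfold th
  exact (Real.smoothTransition.contDiff.comp (contDiff_const.sub contDiff_id)).mul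
    (Real.smoothTransition.contDiff.comp (contDiff_const.add contDiff_id))

theorem th_zero (x : ℝ) (hx : 2 ≤ |x|) : th x = 0 := by
  unfold th
  rcases le_abs.1 hx with h | h
  · rw [Real.smoothTransition.zero_of_nonpos (by linarith), zero_mul]
  · rw [Real.smoothTransition.zero_of_nonpos (x := 2 + x) (by linarith), mul_zero]

theorem th_one (x : ℝ) (hx : |x| ≤ 1) : th x = 1 := by
  obtain ⟨h1, h2⟩ := abs_le.1 hx
  unfold th
  rw [Real.smoothTransition.one_of_one_le (by linarith),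
    Real.smoothTransition.one_of_one_le (by linarith), one_mul]

theorem th_nonneg (x : ℝ) : 0 ≤ th x :=
  mul_nonneg (Real.smoothTransition.nonneg _) (Real.smoothTransition.nonneg _)

theorem th_le_one (x : ℝ) : th x ≤ 1 :=
  mul_le_one₀ (Real.smoothTransition.le_one _) (Real.smoothTransition.nonneg _)
    (Real.smoothTransition.le_one _)

theorem th_neg (x : ℝ) : th (-x) = th x := by
  unfold th
  rw [mul_comm]
  ring_nf

theorem th_support (x : ℝ) (hx : th x ≠ 0) : |x| < 2 := by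
  by_contra h
  exact hx (th_zero x (not_lt.1 h))

theorem uj_abs_le (j : ℕ) (x : ℝ) : |uj j x| ≤ 1 := by
  unfold uj
  rw [abs_le]
  constructor
  · linarith [th_nonneg (2 ^ j * x), th_le_one (2 ^ (j + 1) * x)]
  · linarith [th_le_one (2 ^ j * x), th_nonneg (2 ^ (j + 1) * x)]

/-- Support of a dyadic piece. -/
theorem uj_support (j : ℕ) (x : ℝ) (hx : uj j x ≠ 0) :
    1 / 2 ^ (j + 1) < |x| ∧ |x| < 2 / 2 ^ j := by
  constructor
  · by_contra h
    rw [not_lt, le_div_iff₀ (by positivity), mul_comm] at h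
    apply hx
    unfold uj
    have h1 : |2 ^ (j + 1) * x| ≤ 1 := by
      rwa [abs_mul, abs_of_pos (by positivity : (0 : ℝ) < 2 ^ (j + 1))]
    have h2 : |2 ^ j * x| ≤ 1 := by
      refine le_trans ?_ h1
      rw [abs_mul, abs_mul, pow_succ, abs_mul, abs_of_pos (by positivity : (0 : ℝ) < 2 ^ j)]
      have := abs_nonneg x
      have h3 : (0 : ℝ) < 2 ^ j := by positivity
      rw [abs_of_pos (by norm_num : (0 : ℝ) < 2)]
      nlinarith [mul_nonneg h3.le this]
    rw [th_one _ h1, th_one _ h2, sub_self]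
  · by_contra h
    rw [not_lt, div_le_iff₀ (by positivity), mul_comm] at h
    apply hx
    unfold uj
    have h1 : 2 ≤ |2 ^ j * x| := by
      rwa [abs_mul, abs_of_pos (by positivity : (0 : ℝ) < 2 ^ j)]
    have h2 : 2 ≤ |2 ^ (j + 1) * x| := by
      refine h1.trans ?_
      rw [abs_mul, abs_mul, pow_succ, abs_mul, abs_of_pos (by positivity : (0 : ℝ) < 2 ^ j)]
      have := abs_nonneg x
      have h3 : (0 : ℝ) < 2 ^ j := by positivity
      rw [abs_of_pos (by norm_num : (0 : ℝ) < 2)]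
      nlinarith [mul_nonneg h3.le this]
    rw [th_zero _ h1, th_zero _ h2, sub_self]

theorem uj_zero_eq (x : ℝ) : uj 0 x = th x - th (2 * x) := by
  unfold uj
  norm_num

theorem uj_eq_zero_scale (j : ℕ) (x : ℝ) : uj j x = uj 0 (2 ^ j * x) := by
  unfold uj
  rw [pow_zero, one_mul, zero_add, pow_one, pow_succ]
  ring_nf

theorem measurable_th : Measurable th := th_contDiff.continuous.measurable

theorem measurable_uj (j : ℕ) : Measurable (uj j) := by
  unfold uj
  exact (measurable_th.comp (measurable_const.mul measurable_id)).sub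
    (measurable_th.comp (measurable_const.mul measurable_id))

theorem FT1_th : ∃ B : ℝ, 0 ≤ B ∧ FT1 B (fun x => ((th x : ℝ) : ℂ)) := by
  refine FT1_smooth th th_contDiff ?_
  refine HasCompactSupport.intro (isCompact_closedBall (0 : ℝ) 2) fun x hx => th_zero x ?_
  rw [mem_closedBall, dist_zero_right, Real.norm_eq_abs, not_le] at hx
  exact hx.le

/-- `th x - th (2 * x)` vanishes near the origin. -/
theorem uj_zero_small (x : ℝ) (hx : |x| ≤ 1 / 2) : th x - th (2 * x) = 0 := by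
  have h1 : |2 * x| ≤ 1 := by
    rw [abs_mul, abs_of_pos (by norm_num : (0 : ℝ) < 2)]
    linarith
  rw [th_one x (by linarith), th_one _ h1, sub_self]

theorem mpl_eq (x : ℝ) : mpl x = (th x - th (2 * x)) * Real.smoothTransition (2 * x) := by
  unfold mpl
  split_ifs with h
  · rcases le_total x (1 / 2) with h1 | h1
    · rw [uj_zero_small x (by rw [abs_of_pos h]; exact h1), zero_mul]
    · rw [Real.smoothTransition.one_of_one_le (by linarith), mul_one]
  · rw [Real.smoothTransition.zero_of_nonpos (by linarith), mul_zero]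

theorem mpl_contDiff : ContDiff ℝ ∞ mpl := by
  have h : mpl = fun x => (th x - th (2 * x)) * Real.smoothTransition (2 * x) := funext mpl_eq
  rw [h]
  exact (th_contDiff.sub (th_contDiff.comp (contDiff_const.mul contDiff_id))).mul
    (Real.smoothTransition.contDiff.comp (contDiff_const.mul contDiff_id))

theorem measurable_mpl : Measurable mpl := mpl_contDiff.continuous.measurable

/-- Support of the one-sided dyadic piece. -/
theorem mpl_support (x : ℝ) (hx : mpl x ≠ 0) : 1 / 2 < x ∧ x < 2 := by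
  unfold mpl at hx
  split_ifs at hx with h
  · constructor
    · by_contra h1
      exact hx (uj_zero_small x (by rw [abs_of_pos h]; exact not_lt.1 h1))
    · by_contra h1
      rw [not_lt] at h1
      apply hx
      rw [th_zero x (by rw [abs_of_pos h]; exact h1),
        th_zero (2 * x) (by rw [abs_of_pos (by linarith)]; linarith), sub_self]
  · exact absurd rfl hx

theorem mpl_abs_le (x : ℝ) : |mpl x| ≤ 1 := by
  unfold mpl
  split_ifs
  · rw [abs_le]
    constructor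
    · linarith [th_nonneg x, th_le_one (2 * x)]
    · linarith [th_le_one x, th_nonneg (2 * x)]
  · simp

theorem FT1_mpl : ∃ B : ℝ, 0 ≤ B ∧ FT1 B (fun x => ((mpl x : ℝ) : ℂ)) := by
  refine FT1_smooth mpl mpl_contDiff ?_
  refine HasCompactSupport.intro (isCompact_closedBall (0 : ℝ) 2) fun x hx => ?_
  by_contra h
  obtain ⟨h1, h2⟩ := mpl_support x h
  apply hx
  rw [mem_closedBall, dist_zero_right, Real.norm_eq_abs, abs_of_pos (by linarith)]
  exact h2.le

theorem uj_sum_from (a J : ℕ) (haJ : a ≤ J) (x : ℝ) :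
    ∑ j ∈ Finset.Ico a J, uj j x + th (2 ^ J * x) = th (2 ^ a * x) := by
  induction J, haJ using Nat.le_induction with
  | base => simp
  | succ n hn ih =>
    rw [Finset.sum_Ico_succ_top hn, ← ih]
    unfold uj
    ring

/-- Partition in one dyadic direction. -/
theorem th_sum (J : ℕ) (x : ℝ) (hx : |x| ≤ 1) :
    ∑ j ∈ Finset.range J, uj j x + th (2 ^ J * x) = 1 := by
  have h := uj_sum_from 0 J (Nat.zero_le J) x
  rw [← Finset.range_eq_Ico, pow_zero, one_mul, th_one x hx] at h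
  exact h

theorem mpl_add_neg (x : ℝ) : mpl x + mpl (-x) = th x - th (2 * x) := by
  unfold mpl
  rcases lt_trichotomy x 0 with h | h | h
  · rw [if_neg (by linarith), if_pos (by linarith), zero_add, th_neg,
      show 2 * -x = -(2 * x) by ring, th_neg]
  · subst h
    simp
  · rw [if_pos h, if_neg (by linarith), add_zero]

theorem mpl_sum (J : ℕ) (x : ℝ) (hx : |x| ≤ 1) :
    ∑ j ∈ Finset.range J, mpl (2 ^ j * x) + ∑ j ∈ Finset.range J, mpl (-(2 ^ j * x)) +
      th (2 ^ J * x) = 1 := by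
  rw [← Finset.sum_add_distrib, ← th_sum J x hx]
  congr 1
  refine Finset.sum_congr rfl fun j _ => ?_
  rw [mpl_add_neg]
  unfold uj
  rw [pow_succ]
  ring_nf

/-- Partition of unity in `y` (index `J` means the low part). -/
theorem part2 (k0 J : ℕ) (hk : 1 ≤ k0) (hJ : k0 ≤ J) :
    ∃ rest : ℝ × ℝ → ℝ, Measurable rest ∧ (∀ y, |rest y| ≤ 4 * (k0 : ℝ) + 4) ∧
    (∀ y, rest y ≠ 0 → (|y.1| ≤ 2 ^ (k0 + 2) / 2 ^ J ∧ |y.2| ≤ 2 ^ (k0 + 2) / 2 ^ J)) ∧
    ∀ y : ℝ × ℝ, |y.1| ≤ 1 → |y.2| ≤ 1 →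
      ∑ j ∈ Finset.range J, ∑ k ∈ Finset.range J,
        (if j < k + k0 ∧ k < j + k0 then uj j y.1 * uj k y.2 else 0) +
      ∑ j ∈ Finset.range (J - k0 + 1), uj j y.1 * th (2 ^ (j + k0) * y.2) +
      ∑ k ∈ Finset.range (J - k0 + 1), th (2 ^ (k + k0) * y.1) * uj k y.2 + rest y = 1 := by
  classical
  set a := J - k0 + 1 with ha
  have haJ : a ≤ J := by omega
  refine ⟨fun y => ∑ j ∈ Finset.Ico a J, uj j y.1 * th (2 ^ J * y.2) +
    ∑ k ∈ Finset.Ico a J, th (2 ^ J * y.1) * uj k y.2 + th (2 ^ J * y.1) * th (2 ^ J * y.2),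
    ?_, ?_, ?_, ?_⟩
  · refine ((Finset.measurable_sum _ fun j _ => ?_).add (Finset.measurable_sum _ fun j _ => ?_)).add
      ?_
    · exact ((measurable_uj j).comp measurable_fst).mul
        (measurable_th.comp (measurable_const.mul measurable_snd))
    · exact (measurable_th.comp (measurable_const.mul measurable_fst)).mul
        ((measurable_uj j).comp measurable_snd)
    · exact (measurable_th.comp (measurable_const.mul measurable_fst)).mul
        (measurable_th.comp (measurable_const.mul measurable_snd))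
  · intro y
    have hth : ∀ x, |th x| ≤ 1 := fun x => by
      rw [abs_of_nonneg (th_nonneg x)]
      exact th_le_one x
    have hcard : ((Finset.Ico a J).card : ℝ) ≤ k0 := by
      rw [Nat.card_Ico]
      exact_mod_cast (by omega : J - a ≤ k0)
    have h1 : |∑ j ∈ Finset.Ico a J, uj j y.1 * th (2 ^ J * y.2)| ≤ k0 := by
      refine (Finset.abs_sum_le_sum_abs _ _).trans ?_
      refine (Finset.sum_le_card_nsmul _ _ 1 fun j _ => ?_).trans ?_
      · rw [abs_mul]
        exact mul_le_one₀ (uj_abs_le _ _) (abs_nonneg _) (hth _)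
      · rw [nsmul_eq_mul, mul_one]
        exact hcard
    have h2 : |∑ k ∈ Finset.Ico a J, th (2 ^ J * y.1) * uj k y.2| ≤ k0 := by
      refine (Finset.abs_sum_le_sum_abs _ _).trans ?_
      refine (Finset.sum_le_card_nsmul _ _ 1 fun j _ => ?_).trans ?_
      · rw [abs_mul]
        exact mul_le_one₀ (hth _) (abs_nonneg _) (uj_abs_le _ _)
      · rw [nsmul_eq_mul, mul_one]
        exact hcard
    have h3 : |th (2 ^ J * y.1) * th (2 ^ J * y.2)| ≤ 1 := by
      rw [abs_mul]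
      exact mul_le_one₀ (hth _) (abs_nonneg _) (hth _)
    have h4 : (0 : ℝ) ≤ k0 := Nat.cast_nonneg _
    refine (abs_add_le _ _).trans ?_
    have h5 := abs_add_le (∑ j ∈ Finset.Ico a J, uj j y.1 * th (2 ^ J * y.2))
      (∑ k ∈ Finset.Ico a J, th (2 ^ J * y.1) * uj k y.2)
    linarith
  · intro y hy
    have hpow : (0 : ℝ) < 2 ^ J := by positivity
    have hk4 : (2 : ℝ) ≤ 2 ^ (k0 + 2) := by
      calc (2 : ℝ) = 2 ^ 1 := by norm_num
        _ ≤ 2 ^ (k0 + 2) := pow_le_pow_right₀ (by norm_num) (by omega)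
    have hT : ∀ x, th (2 ^ J * x) ≠ 0 → |x| ≤ 2 ^ (k0 + 2) / 2 ^ J := by
      intro x hx
      have h1 := th_support _ hx
      rw [abs_mul, abs_of_pos hpow] at h1
      rw [le_div_iff₀ hpow, mul_comm]
      linarith
    have hU : ∀ j ∈ Finset.Ico a J, ∀ x, uj j x ≠ 0 → |x| ≤ 2 ^ (k0 + 2) / 2 ^ J := by
      intro j hj x hx
      obtain ⟨_, h1⟩ := uj_support j x hx
      refine h1.le.trans ?_
      rw [div_le_div_iff₀ (by positivity) hpow]
      have h2 : J ≤ j + k0 := by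
        have := (Finset.mem_Ico.1 hj).1
        omega
      calc (2 : ℝ) * 2 ^ J ≤ 2 * 2 ^ (j + k0) :=
            mul_le_mul_of_nonneg_left (pow_le_pow_right₀ (by norm_num) h2) (by norm_num)
        _ = 2 ^ (k0 + 1) * 2 ^ j := by ring
        _ ≤ 2 ^ (k0 + 2) * 2 ^ j :=
            mul_le_mul_of_nonneg_right (pow_le_pow_right₀ (by norm_num) (by omega))
              (by positivity)
    by_contra hcon
    apply hy
    have e1 : ∑ j ∈ Finset.Ico a J, uj j y.1 * th (2 ^ J * y.2) = 0 := by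
      refine Finset.sum_eq_zero fun j hj => ?_
      by_contra h
      exact hcon ⟨hU j hj _ (left_ne_zero_of_mul h), hT _ (right_ne_zero_of_mul h)⟩
    have e2 : ∑ k ∈ Finset.Ico a J, th (2 ^ J * y.1) * uj k y.2 = 0 := by
      refine Finset.sum_eq_zero fun j hj => ?_
      by_contra h
      exact hcon ⟨hT _ (left_ne_zero_of_mul h), hU j hj _ (right_ne_zero_of_mul h)⟩
    have e3 : th (2 ^ J * y.1) * th (2 ^ J * y.2) = 0 := by
      by_contra h
      exact hcon ⟨hT _ (left_ne_zero_of_mul h), hT _ (right_ne_zero_of_mul h)⟩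
    simp only [e1, e2, e3, add_zero]
  · intro y hy1 hy2
    -- the two degenerate sums
    have key : ∀ (f : ℕ → ℝ) (x : ℝ), ∑ j ∈ Finset.range a, f j * th (2 ^ (j + k0) * x) =
        ∑ j ∈ Finset.range J, ∑ k ∈ Finset.range J, (if j + k0 ≤ k then f j * uj k x else 0) +
          ∑ j ∈ Finset.range a, f j * th (2 ^ J * x) := by
      intro f x
      have h1 : ∀ j ∈ Finset.range a, f j * th (2 ^ (j + k0) * x) =
          ∑ k ∈ Finset.range J, (if j + k0 ≤ k then f j * uj k x else 0) +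
            f j * th (2 ^ J * x) := by
        intro j hj
        have hj' : j + k0 ≤ J := by
          have := Finset.mem_range.1 hj
          omega
        rw [← uj_sum_from (j + k0) J hj' x, mul_add, Finset.mul_sum]
        congr 1
        rw [← Finset.sum_filter]
        refine Finset.sum_congr ?_ fun _ _ => rfl
        ext k
        simp only [Finset.mem_Ico, Finset.mem_filter, Finset.mem_range]
        omega
      rw [Finset.sum_congr rfl h1, Finset.sum_add_distrib]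
      congr 1
      refine Finset.sum_subset (Finset.range_subset_range.2 haJ) fun j _ hj2 => ?_
      refine Finset.sum_eq_zero fun k hk => ?_
      rw [if_neg]
      have h2 := Finset.mem_range.1 hk
      have h3 : ¬ j < a := fun h => hj2 (Finset.mem_range.2 h)
      omega
    have k1 := key (fun j => uj j y.1) y.2
    have k2 := key (fun j => uj j y.2) y.1
    have k3 : ∑ k ∈ Finset.range a, th (2 ^ (k + k0) * y.1) * uj k y.2 =
        ∑ j ∈ Finset.range a, uj j y.2 * th (2 ^ (j + k0) * y.1) :=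
      Finset.sum_congr rfl fun _ _ => mul_comm _ _
    have k4 : ∑ j ∈ Finset.range J, ∑ k ∈ Finset.range J,
        (if j + k0 ≤ k then uj j y.2 * uj k y.1 else 0) =
        ∑ j ∈ Finset.range J, ∑ k ∈ Finset.range J,
          (if k + k0 ≤ j then uj j y.1 * uj k y.2 else 0) := by
      rw [Finset.sum_comm]
      refine Finset.sum_congr rfl fun j _ => Finset.sum_congr rfl fun k _ => ?_
      split_ifs
      · ring
      · rfl
    have k5 : ∑ j ∈ Finset.range J, ∑ k ∈ Finset.range J,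
        (if j < k + k0 ∧ k < j + k0 then uj j y.1 * uj k y.2 else 0) +
        ∑ j ∈ Finset.range J, ∑ k ∈ Finset.range J,
          (if j + k0 ≤ k then uj j y.1 * uj k y.2 else 0) +
        ∑ j ∈ Finset.range J, ∑ k ∈ Finset.range J,
          (if k + k0 ≤ j then uj j y.1 * uj k y.2 else 0) =
        (∑ j ∈ Finset.range J, uj j y.1) * ∑ k ∈ Finset.range J, uj k y.2 := by
      rw [Finset.sum_mul_sum, ← Finset.sum_add_distrib, ← Finset.sum_add_distrib]
      refine Finset.sum_congr rfl fun j _ => ?_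
      rw [← Finset.sum_add_distrib, ← Finset.sum_add_distrib]
      refine Finset.sum_congr rfl fun k _ => ?_
      by_cases h1 : j + k0 ≤ k
      · rw [if_neg (by omega), if_pos h1, if_neg (by omega)]
        ring
      · by_cases h2 : k + k0 ≤ j
        · rw [if_neg (by omega), if_neg h1, if_pos h2]
          ring
        · rw [if_pos (by omega), if_neg h1, if_neg h2]
          ring
    have s1 : ∑ j ∈ Finset.range J, uj j y.1 =
        ∑ j ∈ Finset.range a, uj j y.1 + ∑ j ∈ Finset.Ico a J, uj j y.1 :=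
      (Finset.sum_range_add_sum_Ico _ haJ).symm
    have s2 : ∑ j ∈ Finset.range J, uj j y.2 =
        ∑ j ∈ Finset.range a, uj j y.2 + ∑ j ∈ Finset.Ico a J, uj j y.2 :=
      (Finset.sum_range_add_sum_Ico _ haJ).symm
    have t1 := th_sum J y.1 hy1
    have t2 := th_sum J y.2 hy2
    rw [k3, k1, k2, k4]
    beta_reduce
    rw [← Finset.sum_mul, ← Finset.sum_mul, ← Finset.sum_mul, ← Finset.mul_sum]
    have k6 : (∑ j ∈ Finset.range J, uj j y.1 + th (2 ^ J * y.1)) *
        (∑ j ∈ Finset.range J, uj j y.2 + th (2 ^ J * y.2)) = 1 := by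
      rw [t1, t2, one_mul]
    rw [add_mul, mul_add, mul_add, ← k5] at k6
    linear_combination k6 - s1 * th (2 ^ J * y.2) - s2 * th (2 ^ J * y.1)

end Pool.Agent.SDT.N1

end -- N1.C1

section -- N1.C2

/-!
N1, block C: cut-off functions, part 2: expansion of a cut-off.
-/

namespace Pool.Agent.SDT.N1

open MeasureTheory Set Metric Pool.Agent.SDT.MP_6cbfb8_an Pool.Agent.SDT.MST
open scoped ENNReal Real ContDiff

theorem measurable_ex : Measurable ex := by
  unfold ex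
  fun_prop

/-- Expansion of a cut-off, for an abstract integrable kernel. -/
theorem expand_abs {X : Type*} [MeasurableSpace X] (μ : Measure X) [SFinite μ] (B : ℝ) (m : ℝ → ℂ)
    (hm : FT1 B m) (g : X → ℂ) (hg : Integrable g μ) (h : X → ℝ) (hh : Measurable h) (K : ℝ)
    (hK : ∀ η : ℝ, ‖∫ q, ex (η * h q) * g q ∂μ‖ ≤ K) :
    ‖∫ q, m (h q) * g q ∂μ‖ ≤ B * K := by
  obtain ⟨w, hw1, hw2, hw3⟩ := hm
  have hK0 : 0 ≤ K := (norm_nonneg _).trans (hK 0)
  have e1 : (∫ q, m (h q) * g q ∂μ) = ∫ q, ∫ η, w η * (ex (η * h q) * g q) ∂volume ∂μ := by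
    refine integral_congr_ae (Filter.Eventually.of_forall fun q => ?_)
    simp only
    rw [hw3 (h q), ← integral_mul_const]
    refine integral_congr_ae (Filter.Eventually.of_forall fun η => ?_)
    simp only
    ring
  have hint : Integrable (Function.uncurry fun q η => w η * (ex (η * h q) * g q))
      (μ.prod volume) := by
    have h1 : Integrable (fun z : X × ℝ => g z.1 * w z.2) (μ.prod volume) := hg.mul_prod hw1
    have h2 : Measurable fun z : X × ℝ => ex (z.2 * h z.1) :=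
      measurable_ex.comp (measurable_snd.mul (hh.comp measurable_fst))
    have h3 := h1.bdd_mul (c := 1) h2.aestronglyMeasurable
      (Filter.Eventually.of_forall fun z => (hns_norm_ex _).le)
    refine h3.congr (Filter.Eventually.of_forall fun z => ?_)
    simp only [Function.uncurry]
    ring
  rw [e1, integral_integral_swap hint]
  calc ‖∫ η, ∫ q, w η * (ex (η * h q) * g q) ∂μ‖ ≤ ∫ η, ‖w η‖ * K := by
        refine norm_integral_le_of_norm_le (hw1.norm.mul_const K)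
          (Filter.Eventually.of_forall fun η => ?_)
        rw [integral_const_mul, norm_mul]
        exact mul_le_mul_of_nonneg_left (hK η) (norm_nonneg _)
    _ = (∫ η, ‖w η‖) * K := integral_mul_const _ _
    _ ≤ B * K := mul_le_mul_of_nonneg_right hw2 hK0

/-- Expansion of a cut-off, from integrability. -/
theorem expand_of (c T : ℝ) (B : ℝ) (m : ℝ → ℂ) (hm : FT1 B m)
    (M : V × V → ℂ)
    (hI : Integrable fun q : V × V => M q * ((Wr c q.1 q.2 : ℝ) : ℂ) * Kt T (Fr c q.1 q.2))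
    (h : V × V → ℝ) (hh : Measurable h) (K : ℝ)
    (hK : ∀ η : ℝ, ‖FF c T (fun q => ex (η * h q) * M q)‖ ≤ K) :
    ‖FF c T (fun q => m (h q) * M q)‖ ≤ B * K := by
  have h1 := expand_abs (volume : Measure (V × V)) B m hm
    (fun q : V × V => M q * ((Wr c q.1 q.2 : ℝ) : ℂ) * Kt T (Fr c q.1 q.2)) hI h hh K
    (fun η => by
      have h2 := hK η
      unfold FF at h2
      refine le_trans (le_of_eq ?_) h2
      congr 1
      refine integral_congr_ae (Filter.Eventually.of_forall fun q => ?_)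
      simp only
      ring)
  refine le_trans (le_of_eq ?_) h1
  unfold FF
  congr 1
  refine integral_congr_ae (Filter.Eventually.of_forall fun q => ?_)
  simp only
  ring

end Pool.Agent.SDT.N1

end -- N1.C2

section -- N1.MN0

/-!
N1, block M1: the dyadic decomposition in the inner difference `z` (used by `TH_N` and `TH_D`).
-/

namespace Pool.Agent.SDT.N1

open MeasureTheory Set Metric Pool.Agent.SDT.MP_6cbfb8_an Pool.Agent.SDT.MST
open scoped ENNReal Real ContDiff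

/-- The dyadic index of `t`: the largest `j ≤ K` with `|t| ≤ 2 ^ (-j)`. -/
noncomputable def zix (K : ℕ) (t : ℝ) : ℕ := by
  classical exact Nat.findGreatest (fun j => |t| ≤ (1 / 2) ^ j) K

theorem zix_le (K : ℕ) (t : ℝ) : zix K t ≤ K := by
  unfold zix
  exact Nat.findGreatest_le K

theorem zix_ub (K : ℕ) (t : ℝ) (ht : |t| ≤ 1) : |t| ≤ (1 / 2) ^ (zix K t) := by
  classical
  unfold zix
  exact Nat.findGreatest_spec (P := fun j => |t| ≤ (1 / 2) ^ j) (m := 0) (Nat.zero_le _)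
    (by simpa using ht)

theorem zix_lb (K : ℕ) (t : ℝ) (h : zix K t < K) : (1 / 2) ^ (zix K t + 1) < |t| := by
  classical
  by_contra hcon
  push Not at hcon
  have h1 : zix K t + 1 ≤ zix K t := by
    conv_rhs => rw [zix]
    exact Nat.le_findGreatest (P := fun j => |t| ≤ (1 / 2) ^ j) h hcon
  omega

theorem zix_meas (K : ℕ) : Measurable (zix K) := by
  classical
  unfold zix
  refine measurable_findGreatest (p := fun (t : ℝ) (j : ℕ) => |t| ≤ (1 / 2) ^ j) ?_
  intro k _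
  exact measurableSet_le (by fun_prop) measurable_const

/-- The part of `A` in one dyadic piece. -/
noncomputable def zc1 (K j : ℕ) (A : V → ℂ) (u : V) : ℂ := if zix K u.2.2 = j then A u else 0

theorem zc1_meas (K j : ℕ) (A : V → ℂ) (hA : Measurable A) : Measurable (zc1 K j A) := by
  unfold zc1
  refine Measurable.ite ?_ hA measurable_const
  exact ((zix_meas K).comp (by fun_prop : Measurable fun u : V => u.2.2))
    (measurableSet_singleton j)

theorem zc1_norm (K j : ℕ) (A : V → ℂ) (B : ℝ) (hB : 0 ≤ B) (hA : ∀ a, ‖A a‖ ≤ B) (u : V) :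
    ‖zc1 K j A u‖ ≤ B := by
  unfold zc1
  split_ifs
  · exact hA u
  · simpa using hB

theorem zc1_ne {K j : ℕ} {A : V → ℂ} {u : V} (h : zc1 K j A u ≠ 0) :
    zix K u.2.2 = j ∧ A u ≠ 0 := by
  unfold zc1 at h
  split_ifs at h with h1
  · exact ⟨h1, h⟩
  · exact absurd rfl h

/-- The part of `M` in one dyadic rectangle of the inner difference. -/
noncomputable def zc (K j k : ℕ) (M : V × V → ℂ) (q : V × V) : ℂ :=
  if zix K q.1.2.2 = j ∧ zix K q.2.2.2 = k then M q else 0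

theorem zc_tp (K j k : ℕ) (A B : V → ℂ) : zc K j k (tp A B) = tp (zc1 K j A) (zc1 K k B) := by
  funext q
  unfold zc tp zc1
  by_cases h1 : zix K q.1.2.2 = j <;> by_cases h2 : zix K q.2.2.2 = k <;> simp [h1, h2]

theorem zc_meas (K j k : ℕ) (M : V × V → ℂ) (hM : Measurable M) : Measurable (zc K j k M) := by
  unfold zc
  refine Measurable.ite ?_ hM measurable_const
  exact (((zix_meas K).comp (by fun_prop : Measurable fun q : V × V => q.1.2.2))
    (measurableSet_singleton j)).inter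
    (((zix_meas K).comp (by fun_prop : Measurable fun q : V × V => q.2.2.2))
    (measurableSet_singleton k))

theorem zc_norm (K j k : ℕ) (M : V × V → ℂ) (B : ℝ) (hB : 0 ≤ B) (hM : ∀ q, ‖M q‖ ≤ B)
    (q : V × V) : ‖zc K j k M q‖ ≤ B := by
  unfold zc
  split_ifs
  · exact hM q
  · simpa using hB

theorem zc_ne {K j k : ℕ} {M : V × V → ℂ} {q : V × V} (h : zc K j k M q ≠ 0) :
    zix K q.1.2.2 = j ∧ zix K q.2.2.2 = k ∧ M q ≠ 0 := by
  unfold zc at h
  split_ifs at h with h1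
  · exact ⟨h1.1, h1.2, h⟩
  · exact absurd rfl h

/-- What membership of a dyadic rectangle means. -/
theorem zc_rect {K j k : ℕ} {M : V × V → ℂ} {q : V × V} (h : zc K j k M q ≠ 0)
    (h1 : |q.1.2.2| ≤ 1) (h2 : |q.2.2.2| ≤ 1) :
    M q ≠ 0 ∧ |q.1.2.2| ≤ (1 / 2) ^ j ∧ |q.2.2.2| ≤ (1 / 2) ^ k ∧
      (j < K → (1 / 2) ^ (j + 1) < |q.1.2.2|) ∧ (k < K → (1 / 2) ^ (k + 1) < |q.2.2.2|) := by
  obtain ⟨ha, hb, hc⟩ := zc_ne h
  refine ⟨hc, ?_, ?_, ?_, ?_⟩
  · rw [← ha]; exact zix_ub K _ h1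
  · rw [← hb]; exact zix_ub K _ h2
  · intro hj
    rw [← ha] at hj ⊢
    exact zix_lb K _ hj
  · intro hk
    rw [← hb] at hk ⊢
    exact zix_lb K _ hk

theorem zc_sum (K : ℕ) (M : V × V → ℂ) (q : V × V) :
    ∑ i ∈ Finset.range (K + 1) ×ˢ Finset.range (K + 1), zc K i.1 i.2 M q = M q := by
  rw [Finset.sum_product]
  have h1 : ∀ j ∈ Finset.range (K + 1), ∑ k ∈ Finset.range (K + 1), zc K j k M q =
      if zix K q.1.2.2 = j then M q else 0 := by
    intro j _
    have h2 : ∀ k ∈ Finset.range (K + 1), zc K j k M q =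
        if zix K q.2.2.2 = k then (if zix K q.1.2.2 = j then M q else 0) else 0 := by
      intro k _
      unfold zc
      by_cases h1 : zix K q.1.2.2 = j <;> by_cases h2 : zix K q.2.2.2 = k <;> simp [h1, h2]
    rw [Finset.sum_congr rfl h2, Finset.sum_ite_eq, if_pos]
    exact Finset.mem_range.2 (Nat.lt_succ_of_le (zix_le K _))
  rw [Finset.sum_congr rfl h1, Finset.sum_ite_eq, if_pos]
  exact Finset.mem_range.2 (Nat.lt_succ_of_le (zix_le K _))

/-- The dyadic decomposition in the inner difference. -/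
theorem FF_dy (c : ℝ) (hc : 0 < c) (T : ℝ) (hT : 0 < T) (M : V × V → ℂ) (hM : Measurable M)
    (B : ℝ) (hB : ∀ q, ‖M q‖ ≤ B) (K : ℕ) (L : ℝ)
    (h : ∀ j ≤ K, ∀ k ≤ K, ‖FF c T (zc K j k M)‖ ≤ L) : ‖FF c T M‖ ≤ ((K : ℝ) + 1) ^ 2 * L := by
  have hB0 : 0 ≤ B := (norm_nonneg _).trans (hB ((0, 0, 0), (0, 0, 0)))
  have h1 := FF_sum c hc T hT (Finset.range (K + 1) ×ˢ Finset.range (K + 1))
    (fun i => zc K i.1 i.2 M) (fun i => zc_meas K i.1 i.2 M hM) B
    (fun i q => zc_norm K i.1 i.2 M B hB0 hB q)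
  have h2 : (fun q => ∑ i ∈ Finset.range (K + 1) ×ˢ Finset.range (K + 1), zc K i.1 i.2 M q) = M := by
    funext q
    exact zc_sum K M q
  rw [h2] at h1
  rw [h1]
  refine (norm_sum_le _ _).trans ?_
  have h3 : ∀ i ∈ Finset.range (K + 1) ×ˢ Finset.range (K + 1), ‖FF c T (zc K i.1 i.2 M)‖ ≤ L := by
    intro i hi
    rw [Finset.mem_product, Finset.mem_range, Finset.mem_range] at hi
    exact h i.1 (by omega) i.2 (by omega)
  refine (Finset.sum_le_sum h3).trans ?_
  rw [Finset.sum_const, Finset.card_product, Finset.card_range, nsmul_eq_mul]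
  push_cast
  exact le_of_eq (by ring)

/-- The number of dyadic scales. -/
theorem dy_num (T : ℝ) (hT : 1 ≤ T) : ∃ K : ℕ, (1 / 2 : ℝ) ^ K ≤ 1 / T ^ 2 ∧
    (K : ℝ) + 1 ≤ 5 * (1 + Real.log T) := by
  have hl : 0 ≤ Real.log T := Real.log_nonneg hT
  have hl2 : (1 / 2 : ℝ) ≤ Real.log 2 := by
    have := Real.log_two_gt_d9
    linarith
  refine ⟨⌈2 * Real.log T / Real.log 2⌉₊, ?_, ?_⟩
  · rw [one_div, one_div, inv_pow]
    apply inv_anti₀ (by positivity)
    rw [← Real.rpow_natCast (2 : ℝ), ← Real.rpow_natCast T]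
    have h1 : T ^ ((2 : ℕ) : ℝ) = 2 ^ (2 * Real.log T / Real.log 2) := by
      rw [Real.rpow_def_of_pos (by linarith), Real.rpow_def_of_pos (by norm_num)]
      congr 1
      have : Real.log 2 ≠ 0 := by linarith
      push_cast
      field_simp
    rw [h1]
    exact Real.rpow_le_rpow_of_exponent_le (by norm_num) (Nat.le_ceil _)
  · have h1 : (⌈2 * Real.log T / Real.log 2⌉₊ : ℝ) < 2 * Real.log T / Real.log 2 + 1 :=
      Nat.ceil_lt_add_one (by positivity)
    have h2 : 2 * Real.log T / Real.log 2 ≤ 4 * Real.log T := by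
      rw [div_le_iff₀ (by linarith)]
      nlinarith
    linarith

/-- Absolute estimate, `v0 ≤ D * f0 ^ 2`. -/
theorem FF_abs2 (c : ℝ) (hc : 0 < c) : ∃ C : ℝ, 0 ≤ C ∧ ∀ T : ℝ, 0 < T → ∀ (M : V × V → ℂ)
    (S : Set (V × V)) (f0 v0 D : ℝ), Measurable M → (∀ q, ‖M q‖ ≤ 1) →
    (∀ q, M q ≠ 0 → Wr c q.1 q.2 ≠ 0 → q ∈ S) → 0 ≤ v0 → volume S ≤ ENNReal.ofReal v0 → 0 ≤ f0 →
    (∀ q ∈ S, f0 ≤ |Fr c q.1 q.2|) → 0 ≤ D → v0 ≤ D * f0 ^ 2 → ‖FF c T M‖ ≤ C * D / T := by
  obtain ⟨C, hC, h⟩ := FF_abs c hc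
  refine ⟨C, hC, fun T hT M S f0 v0 D hM hM1 hS hv hSv hf hF hD hvD => ?_⟩
  refine (h T hT M S f0 v0 hM hM1 hS hv hSv hf hF).trans ?_
  have hs : 0 ≤ T * f0 := by positivity
  have hp : (0 : ℝ) < (1 + T * f0) ^ 3 := by positivity
  rw [div_le_div_iff₀ hp hT]
  have h1 : (T * f0) ^ 2 ≤ (1 + T * f0) ^ 3 := by
    nlinarith [pow_nonneg hs 3, pow_nonneg hs 2]
  calc C * T * v0 * T ≤ C * T * (D * f0 ^ 2) * T := by gcongr
    _ = C * D * (T * f0) ^ 2 := by ring
    _ ≤ C * D * (1 + T * f0) ^ 3 := by gcongr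

/-- Absolute estimate on a set of volume `≤ D / T ^ 2`. -/
theorem FF_abs0 (c : ℝ) (hc : 0 < c) : ∃ C : ℝ, 0 ≤ C ∧ ∀ T : ℝ, 0 < T → ∀ (M : V × V → ℂ)
    (S : Set (V × V)) (v0 D : ℝ), Measurable M → (∀ q, ‖M q‖ ≤ 1) →
    (∀ q, M q ≠ 0 → Wr c q.1 q.2 ≠ 0 → q ∈ S) → 0 ≤ v0 → volume S ≤ ENNReal.ofReal v0 →
    v0 ≤ D / T ^ 2 → ‖FF c T M‖ ≤ C * D / T := by
  obtain ⟨C, hC, h⟩ := FF_abs c hc
  refine ⟨C, hC, fun T hT M S v0 D hM hM1 hS hv hSv hvD => ?_⟩
  refine (h T hT M S 0 v0 hM hM1 hS hv hSv le_rfl (fun q _ => abs_nonneg _)).trans ?_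
  rw [mul_zero, add_zero, one_pow, div_one, le_div_iff₀ hT]
  rw [le_div_iff₀ (by positivity)] at hvD
  calc C * T * v0 * T = C * (v0 * T ^ 2) := by ring
    _ ≤ C * D := by gcongr

end Pool.Agent.SDT.N1

end -- N1.MN0

section -- N1F.Sc3

/-!
N1F, block A3: scaling with three factors, amplitude in scaled variables.
-/

namespace Pool.Agent.SDT.N1F

open MeasureTheory Set Metric Pool.Agent.SDT.MP_6cbfb8_an Pool.Agent.SDT.MST Pool.Agent.SDT.N1
open scoped ENNReal Real ContDiff Topology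

/-- Scaling of a triple, three factors. -/
noncomputable def Sc3 (s1 s2 s3 : ℝ) (u : V) : V := (s1 * u.1, s2 * u.2.1, s3 * u.2.2)

lemma Sc3_cont (s1 s2 s3 : ℝ) : Continuous (Sc3 s1 s2 s3) := by
  unfold Sc3
  fun_prop

lemma Sc3_eq (s1 s2 s3 : ℝ) : Sc3 s1 s2 s3 = Prod.map (fun x : ℝ => s1 * x)
    (Prod.map (fun x : ℝ => s2 * x) (fun x : ℝ => s3 * x)) := rfl

lemma map_Sc3 (s1 s2 s3 : ℝ) (h1 : 0 < s1) (h2 : 0 < s2) (h3 : 0 < s3) :
    Measure.map (Sc3 s1 s2 s3) (volume : Measure V) =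
      ENNReal.ofReal ((s1 * s2 * s3)⁻¹) • volume := by
  rw [Sc3_eq]
  have hv : (volume : Measure V) = (volume : Measure ℝ).prod
    ((volume : Measure ℝ).prod (volume : Measure ℝ)) := rfl
  rw [hv, ← Measure.map_prod_map _ _ (by fun_prop) (by fun_prop),
    ← Measure.map_prod_map _ _ (by fun_prop) (by fun_prop)]
  rw [Real.map_volume_mul_left h1.ne', Real.map_volume_mul_left h2.ne',
    Real.map_volume_mul_left h3.ne']
  rw [Measure.prod_smul_right, Measure.prod_smul_left, Measure.prod_smul_right,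
    Measure.prod_smul_left, smul_smul, Measure.prod_smul_right, smul_smul]
  congr 1
  rw [abs_of_pos (by positivity), abs_of_pos (by positivity), abs_of_pos (by positivity),
    ← ENNReal.ofReal_mul (by positivity), ← ENNReal.ofReal_mul (by positivity), mul_inv, mul_inv]
  congr 1
  ring

/-- Scaling as a measurable equivalence. -/
noncomputable def Sc3E (s1 s2 s3 : ℝ) (h1 : s1 ≠ 0) (h2 : s2 ≠ 0) (h3 : s3 ≠ 0) : V ≃ᵐ V :=
  ((Homeomorph.mulLeft₀ s1 h1).prodCongr ((Homeomorph.mulLeft₀ s2 h2).prodCongr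
    (Homeomorph.mulLeft₀ s3 h3))).toMeasurableEquiv

theorem integral_scale3 (f : V × V → ℂ) (s1 s2 s3 t1 t2 t3 : ℝ) (h1 : 0 < s1) (h2 : 0 < s2)
    (h3 : 0 < s3) (k1 : 0 < t1) (k2 : 0 < t2) (k3 : 0 < t3) :
    ∫ q : V × V, f q = (((s1 * s2 * s3) * (t1 * t2 * t3) : ℝ) : ℂ) *
      ∫ q : V × V, f (Sc3 s1 s2 s3 q.1, Sc3 t1 t2 t3 q.2) := by
  have h0 : Measure.map (fun q : V × V => (Sc3 s1 s2 s3 q.1, Sc3 t1 t2 t3 q.2)) volume =
      ENNReal.ofReal (((s1 * s2 * s3) * (t1 * t2 * t3))⁻¹) • (volume : Measure (V × V)) := by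
    have e1 : (volume : Measure (V × V)) = (volume : Measure V).prod (volume : Measure V) := rfl
    have e2 : (fun q : V × V => (Sc3 s1 s2 s3 q.1, Sc3 t1 t2 t3 q.2)) =
      Prod.map (Sc3 s1 s2 s3) (Sc3 t1 t2 t3) := rfl
    rw [e1, e2, ← Measure.map_prod_map _ _ (Sc3_cont s1 s2 s3).measurable
      (Sc3_cont t1 t2 t3).measurable, map_Sc3 s1 s2 s3 h1 h2 h3, map_Sc3 t1 t2 t3 k1 k2 k3,
      Measure.prod_smul_right, Measure.prod_smul_left, smul_smul]
    congr 1
    rw [← ENNReal.ofReal_mul (by positivity)]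
    congr 1
    rw [← mul_inv, mul_comm]
  have e3 := integral_map_equiv (μ := (volume : Measure (V × V)))
    (MeasurableEquiv.prodCongr (Sc3E s1 s2 s3 h1.ne' h2.ne' h3.ne')
      (Sc3E t1 t2 t3 k1.ne' k2.ne' k3.ne')) f
  have e4 : (⇑(MeasurableEquiv.prodCongr (Sc3E s1 s2 s3 h1.ne' h2.ne' h3.ne')
      (Sc3E t1 t2 t3 k1.ne' k2.ne' k3.ne'))) =
    fun q : V × V => (Sc3 s1 s2 s3 q.1, Sc3 t1 t2 t3 q.2) := rfl
  rw [e4, h0, integral_smul_measure] at e3
  rw [← e3, ENNReal.toReal_ofReal (by positivity), Complex.real_smul, ← mul_assoc,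
    ← Complex.ofReal_mul, mul_inv_cancel₀ (by positivity), Complex.ofReal_one, one_mul]

/-- Parameters `(A, B, ρ, γ, κ, η)`. -/
abbrev P6 : Type := ℝ × ℝ × ℝ × ℝ × ℝ × ℝ

/-- The amplitude in scaled variables; `A = al ^ 2`, `B = be ^ 2`,
`y = (al be² ρ y₁', be ρ y₂')`, `z = (al γ z₁', be al² κ γ z₂')`. -/
noncomputable def WF (c A B ρ γ κ : ℝ) (a b : V) : ℝ :=
  sma c (1 - A * a.2.1 ^ 2 - B * b.2.1 ^ 2) *
    sma c (1 - A * (a.2.1 - B * ρ * a.1) ^ 2 - B * (b.2.1 - ρ * b.1) ^ 2) *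
    sma c (1 - A * (a.2.1 - γ * a.2.2) ^ 2 - B * (b.2.1 - A * κ * γ * b.2.2) ^ 2) *
    sma c (1 - A * (a.2.1 - B * ρ * a.1 - γ * a.2.2) ^ 2 -
      B * (b.2.1 - ρ * b.1 - A * κ * γ * b.2.2) ^ 2)

lemma WF_eq (c al be ρ γ κ : ℝ) (a b : V) :
    Wr c (Sc3 (al * be ^ 2 * ρ) al (al * γ) a) (Sc3 (be * ρ) be (be * al ^ 2 * κ * γ) b) =
      WF c (al ^ 2) (be ^ 2) ρ γ κ a b := by
  unfold Wr WF wf Sc3
  simp only
  congr 1
  · congr 1
    · congr 1
      · congr 1
        ring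
      · congr 1
        ring
    · congr 1
      ring
  · congr 1
    ring

/-- The amplitude for `HLa`. -/
noncomputable def amF (c : ℝ) (Ef : P6 × V × V → ℝ) (x : ℝ × P6 × V × V) : ℝ :=
  WF c x.2.1.1 x.2.1.2.1 x.2.1.2.2.1 x.2.1.2.2.2.1 x.2.1.2.2.2.2.1 x.2.2.1 x.2.2.2 *
    (chi (x.1 / Ef x.2) / |Ef x.2|)

lemma amF_smooth (c : ℝ) (hc : 0 < c) (Ef : P6 × V × V → ℝ) (S : Set (P6 × V × V))
    (hE : ContDiffOn ℝ ∞ Ef S) (hE0 : ∀ x ∈ S, Ef x ≠ 0) :
    ContDiffOn ℝ ∞ (amF c Ef) (univ ×ˢ S) := by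
  have h1 : ContDiffOn ℝ ∞ (fun x : ℝ × P6 × V × V => Ef x.2) (univ ×ˢ S) :=
    hE.comp contDiff_snd.contDiffOn (fun x hx => hx.2)
  have hs := sma_smooth c hc
  have h2 : ContDiff ℝ ∞ (fun x : ℝ × P6 × V × V =>
      WF c x.2.1.1 x.2.1.2.1 x.2.1.2.2.1 x.2.1.2.2.2.1 x.2.1.2.2.2.2.1 x.2.2.1 x.2.2.2) := by
    unfold WF
    refine ContDiff.mul (ContDiff.mul (ContDiff.mul ?_ ?_) ?_) ?_
    · exact hs.comp (by fun_prop)
    · exact hs.comp (by fun_prop)
    · exact hs.comp (by fun_prop)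
    · exact hs.comp (by fun_prop)
  have h4 : ContDiffOn ℝ ∞ (fun x : ℝ × P6 × V × V => chi (x.1 / Ef x.2)) (univ ×ˢ S) :=
    chi_smooth.comp_contDiffOn (contDiff_fst.contDiffOn.div h1 (fun x hx => hE0 _ hx.2))
  have h5 : ContDiffOn ℝ ∞ (fun x : ℝ × P6 × V × V => |Ef x.2|) (univ ×ˢ S) := by
    intro x hx
    exact (contDiffAt_abs (hE0 _ hx.2)).comp_contDiffWithinAt x (h1 x hx)
  exact h2.contDiffOn.mul (h4.div h5 (fun x hx => abs_ne_zero.2 (hE0 _ hx.2)))

lemma amF_supp (c : ℝ) (Ef : P6 × V × V → ℝ) (e0 e1 s : ℝ) (q : P6 × V × V)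
    (he0 : 0 < e0) (h0 : e0 ≤ |Ef q|) (h1 : |Ef q| ≤ e1) (h : amF c Ef (s, q) ≠ 0) :
    e0 / 2 ≤ |s| ∧ |s| ≤ 3 * e1 := by
  have hchi : chi (s / Ef q) ≠ 0 := by
    intro h2
    apply h
    unfold amF
    simp only
    rw [h2, zero_div, mul_zero]
  obtain ⟨g1, g2⟩ := chi_zero _ hchi
  have hE : 0 < |Ef q| := lt_of_lt_of_le he0 h0
  have h3 : |s| = |s / Ef q| * |Ef q| := by
    rw [abs_div]
    field_simp
  have h4 : |s / Ef q| = s / Ef q := abs_of_nonneg (by linarith)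
  rw [h4] at h3
  rw [h3]
  constructor
  · nlinarith
  · nlinarith

end Pool.Agent.SDT.N1F

end -- N1F.Sc3

section -- N1F.BaseD

/-!
N1F, block A3: derivatives of the base functions.
-/

namespace Pool.Agent.SDT.N1F

open MeasureTheory Set Metric Pool.Agent.SDT.MP_6cbfb8_an Pool.Agent.SDT.MST Pool.Agent.SDT.N1
open scoped ENNReal Real ContDiff Topology

/-- Base value of the first separated function. -/
noncomputable def w0 (a : V) : ℝ := a.1 / a.2.1
noncomputable def l0 (A : ℝ) (a : V) : ℝ := (1 - A * a.2.1 ^ 2) / (a.2.1 * a.2.2)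
noncomputable def σ0 (B : ℝ) (b : V) : ℝ := -(b.1 * b.2.1 / (1 - B * b.2.1 ^ 2))
noncomputable def m0 (B : ℝ) (b : V) : ℝ := b.1 * b.2.2 / (1 - B * b.2.1 ^ 2)
noncomputable def gX (a : V) : ℝ := a.1 / a.2.2
noncomputable def gY (B : ℝ) (b : V) : ℝ := b.2.1 * b.2.2 / (1 - B * b.2.1 ^ 2)

lemma w0_diff (a : V) (h : a.2.1 ≠ 0) : DifferentiableAt ℝ w0 a := by
  unfold w0
  fun_prop (disch := exact h)

lemma l0_diff (A : ℝ) (a : V) (h2 : a.2.1 ≠ 0) (h3 : a.2.2 ≠ 0) :
    DifferentiableAt ℝ (l0 A) a := by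
  unfold l0
  fun_prop (disch := exact (mul_ne_zero h2 h3))

lemma σ0_diff (B : ℝ) (b : V) (h : 1 - B * b.2.1 ^ 2 ≠ 0) : DifferentiableAt ℝ (σ0 B) b := by
  unfold σ0
  fun_prop (disch := exact h)

lemma m0_diff (B : ℝ) (b : V) (h : 1 - B * b.2.1 ^ 2 ≠ 0) : DifferentiableAt ℝ (m0 B) b := by
  unfold m0
  fun_prop (disch := exact h)

lemma gX_diff (a : V) (h : a.2.2 ≠ 0) : DifferentiableAt ℝ gX a := by
  unfold gX
  fun_prop (disch := exact h)

lemma gY_diff (B : ℝ) (b : V) (h : 1 - B * b.2.1 ^ 2 ≠ 0) : DifferentiableAt ℝ (gY B) b := by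
  unfold gY
  fun_prop (disch := exact h)

lemma w0_fd (a u : V) (h : a.2.1 ≠ 0) : fderiv ℝ w0 a u =
    (u.1 * a.2.1 - a.1 * u.2.1) / a.2.1 ^ 2 := by
  refine fd_of _ _ _ _ (w0_diff a h) ?_
  have h' := (g_lin a.1 u.1).fun_div (g_lin a.2.1 u.2.1) (by simpa using h)
  refine HasDerivAt.congr_deriv h' ?_
  simp

lemma l0_fd (A : ℝ) (a u : V) (h2 : a.2.1 ≠ 0) (h3 : a.2.2 ≠ 0) : fderiv ℝ (l0 A) a u =
    (-(A * (2 * a.2.1 * u.2.1)) * (a.2.1 * a.2.2) -
      (1 - A * a.2.1 ^ 2) * (u.2.1 * a.2.2 + a.2.1 * u.2.2)) / (a.2.1 * a.2.2) ^ 2 := by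
  refine fd_of _ _ _ _ (l0_diff A a h2 h3) ?_
  have h' := ((((g_lin a.2.1 u.2.1).fun_pow 2).const_mul A).const_sub 1).fun_div
    ((g_lin a.2.1 u.2.1).fun_mul (g_lin a.2.2 u.2.2)) (by simpa using ⟨h2, h3⟩)
  refine HasDerivAt.congr_deriv h' ?_
  simp

lemma σ0_fd (B : ℝ) (b e : V) (h : 1 - B * b.2.1 ^ 2 ≠ 0) : fderiv ℝ (σ0 B) b e =
    -(((e.1 * b.2.1 + b.1 * e.2.1) * (1 - B * b.2.1 ^ 2) +
      b.1 * b.2.1 * (B * (2 * b.2.1 * e.2.1))) / (1 - B * b.2.1 ^ 2) ^ 2) := by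
  refine fd_of _ _ _ _ (σ0_diff B b h) ?_
  have h' := (((g_lin b.1 e.1).fun_mul (g_lin b.2.1 e.2.1)).fun_div
    ((((g_lin b.2.1 e.2.1).fun_pow 2).const_mul B).const_sub 1) (by simpa using h)).fun_neg
  refine HasDerivAt.congr_deriv h' ?_
  simp

lemma m0_fd (B : ℝ) (b e : V) (h : 1 - B * b.2.1 ^ 2 ≠ 0) : fderiv ℝ (m0 B) b e =
    ((e.1 * b.2.2 + b.1 * e.2.2) * (1 - B * b.2.1 ^ 2) +
      b.1 * b.2.2 * (B * (2 * b.2.1 * e.2.1))) / (1 - B * b.2.1 ^ 2) ^ 2 := by
  refine fd_of _ _ _ _ (m0_diff B b h) ?_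
  have h' := ((g_lin b.1 e.1).fun_mul (g_lin b.2.2 e.2.2)).fun_div
    ((((g_lin b.2.1 e.2.1).fun_pow 2).const_mul B).const_sub 1) (by simpa using h)
  refine HasDerivAt.congr_deriv h' ?_
  simp

lemma gX_fd (a u : V) (h : a.2.2 ≠ 0) : fderiv ℝ gX a u =
    (u.1 * a.2.2 - a.1 * u.2.2) / a.2.2 ^ 2 := by
  refine fd_of _ _ _ _ (gX_diff a h) ?_
  have h' := (g_lin a.1 u.1).fun_div (g_lin a.2.2 u.2.2) (by simpa using h)
  refine HasDerivAt.congr_deriv h' ?_
  simp

lemma gY_fd (B : ℝ) (b e : V) (h : 1 - B * b.2.1 ^ 2 ≠ 0) : fderiv ℝ (gY B) b e =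
    ((e.2.1 * b.2.2 + b.2.1 * e.2.2) * (1 - B * b.2.1 ^ 2) +
      b.2.1 * b.2.2 * (B * (2 * b.2.1 * e.2.1))) / (1 - B * b.2.1 ^ 2) ^ 2 := by
  refine fd_of _ _ _ _ (gY_diff B b h) ?_
  have h' := ((g_lin b.2.1 e.2.1).fun_mul (g_lin b.2.2 e.2.2)).fun_div
    ((((g_lin b.2.1 e.2.1).fun_pow 2).const_mul B).const_sub 1) (by simpa using h)
  refine HasDerivAt.congr_deriv h' ?_
  simp

/-- The direction killed by `w0` and `l0`. -/
noncomputable def dirA (A : ℝ) (a : V) : V :=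
  (a.1 * (1 - A * a.2.1 ^ 2), a.2.1 * (1 - A * a.2.1 ^ 2), -(a.2.2 * (1 + A * a.2.1 ^ 2)))

/-- The direction killed by `σ0` and `m0`. -/
noncomputable def dirB (B : ℝ) (b : V) : V :=
  (-(b.1 * (1 + B * b.2.1 ^ 2)), b.2.1 * (1 - B * b.2.1 ^ 2), b.2.2 * (1 - B * b.2.1 ^ 2))

lemma base_A (A : ℝ) (a : V) (h1 : a.1 ≠ 0) (h2 : a.2.1 ≠ 0) (h3 : a.2.2 ≠ 0)
    (h : 1 - A * a.2.1 ^ 2 ≠ 0) :
    fderiv ℝ w0 a (1, 0, 0) ≠ 0 ∧ fderiv ℝ w0 a (0, 0, 1) = 0 ∧
      fderiv ℝ (l0 A) a (0, 0, 1) ≠ 0 ∧ fderiv ℝ w0 a (dirA A a) = 0 ∧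
      fderiv ℝ (l0 A) a (dirA A a) = 0 ∧ fderiv ℝ gX a (dirA A a) ≠ 0 := by
  refine ⟨?_, ?_, ?_, ?_, ?_, ?_⟩
  · rw [w0_fd a _ h2]
    simp [h2]
  · rw [w0_fd a _ h2]
    simp
  · rw [l0_fd A a _ h2 h3]
    simp only [mul_zero, neg_zero, zero_mul, zero_sub, zero_add, mul_one]
    exact div_ne_zero (neg_ne_zero.2 (mul_ne_zero h h2)) (pow_ne_zero 2 (mul_ne_zero h2 h3))
  · rw [w0_fd a _ h2]
    unfold dirA
    simp only
    rw [div_eq_zero_iff]
    left
    ring
  · rw [l0_fd A a _ h2 h3]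
    unfold dirA
    simp only
    rw [div_eq_zero_iff]
    left
    ring
  · rw [gX_fd a _ h3]
    unfold dirA
    simp only
    have e1 : a.1 * (1 - A * a.2.1 ^ 2) * a.2.2 - a.1 * -(a.2.2 * (1 + A * a.2.1 ^ 2)) =
      2 * (a.1 * a.2.2) := by ring
    rw [e1]
    exact div_ne_zero (mul_ne_zero two_ne_zero (mul_ne_zero h1 h3)) (pow_ne_zero 2 h3)

lemma base_B (B : ℝ) (b : V) (h1 : b.1 ≠ 0) (h2 : b.2.1 ≠ 0) (h3 : b.2.2 ≠ 0)
    (h : 1 - B * b.2.1 ^ 2 ≠ 0) :
    fderiv ℝ (σ0 B) b (1, 0, 0) ≠ 0 ∧ fderiv ℝ (σ0 B) b (0, 0, 1) = 0 ∧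
      fderiv ℝ (m0 B) b (0, 0, 1) ≠ 0 ∧ fderiv ℝ (σ0 B) b (dirB B b) = 0 ∧
      fderiv ℝ (m0 B) b (dirB B b) = 0 ∧ fderiv ℝ (gY B) b (dirB B b) ≠ 0 := by
  refine ⟨?_, ?_, ?_, ?_, ?_, ?_⟩
  · rw [σ0_fd B b _ h]
    simp only [mul_zero, add_zero, one_mul]
    exact neg_ne_zero.2 (div_ne_zero (mul_ne_zero h2 h) (pow_ne_zero 2 h))
  · rw [σ0_fd B b _ h]
    simp
  · rw [m0_fd B b _ h]
    simp only [mul_zero, zero_mul, zero_add, add_zero, mul_one]
    exact div_ne_zero (mul_ne_zero h1 h) (pow_ne_zero 2 h)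
  · rw [σ0_fd B b _ h]
    unfold dirB
    simp only
    rw [neg_eq_zero, div_eq_zero_iff]
    left
    ring
  · rw [m0_fd B b _ h]
    unfold dirB
    simp only
    rw [div_eq_zero_iff]
    left
    ring
  · rw [gY_fd B b _ h]
    unfold dirB
    simp only
    have e1 : (b.2.1 * (1 - B * b.2.1 ^ 2) * b.2.2 + b.2.1 * (b.2.2 * (1 - B * b.2.1 ^ 2))) *
      (1 - B * b.2.1 ^ 2) + b.2.1 * b.2.2 * (B * (2 * b.2.1 * (b.2.1 * (1 - B * b.2.1 ^ 2)))) =
      2 * (b.2.1 * b.2.2) * (1 - B * b.2.1 ^ 2) := by ring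
    rw [e1]
    exact div_ne_zero (mul_ne_zero (mul_ne_zero two_ne_zero (mul_ne_zero h2 h3)) h)
      (pow_ne_zero 2 h)

/-- The mixed derivative at the base point. -/
lemma base_g (B : ℝ) (a b u e : V) (ha3 : a.2.2 ≠ 0) (h : 1 - B * b.2.1 ^ 2 ≠ 0)
    (F : V × V → ℝ) (hF : ∀ᶠ q in 𝓝 (a, b), F q = gX q.1 * gY B q.2) :
    fderiv ℝ (fun b' => fderiv ℝ (fun a' => F (a', b')) a u) b e =
      fderiv ℝ gX a u * fderiv ℝ (gY B) b e := by
  have hF' : ∀ᶠ q in 𝓝 (a, b), F q = (fun _ : V => (0:ℝ)) q.1 + (fun _ : V => (0:ℝ)) q.2 +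
      gX q.1 * gY B q.2 + (fun _ : V => (0:ℝ)) q.1 * (fun _ : V => (0:ℝ)) q.2 := by
    filter_upwards [hF] with q hq
    rw [hq]
    simp
  have n0 : DifferentiableAt ℝ (fun _ : V => (0:ℝ)) a := differentiableAt_const _
  have m0 : DifferentiableAt ℝ (fun _ : V => (0:ℝ)) b := differentiableAt_const _
  rw [sep_2 F (fun _ : V => (0:ℝ)) gX (fun _ : V => (0:ℝ)) (fun _ : V => (0:ℝ)) (gY B)
    (fun _ : V => (0:ℝ)) a b hF' n0 (gX_diff a ha3) n0 m0 (gY_diff B b h) m0 u e]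
  simp

end Pool.Agent.SDT.N1F

end -- N1F.BaseD

section -- N1G.Sca

/-!
N1G: scaling of the positive form (all four variables, and the phase).
-/

namespace Pool.Agent.SDT.N1G

open MeasureTheory Set Metric Pool.Agent.SDT.MP_6cbfb8_an Pool.Agent.SDT.MST Pool.Agent.SDT.N1
open scoped ENNReal Real ContDiff

/-- Scaling of a pair. -/
noncomputable def s2 (a b : ℝ) (y : ℝ × ℝ) : ℝ × ℝ := (a * y.1, b * y.2)

lemma s2_eq (a b : ℝ) : s2 a b = Prod.map (fun x : ℝ => a * x) (fun x : ℝ => b * x) := rfl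

lemma map_s2 (a b : ℝ) (ha : 0 < a) (hb : 0 < b) :
    Measure.map (s2 a b) (volume : Measure (ℝ × ℝ)) = ENNReal.ofReal ((a * b)⁻¹) • volume := by
  rw [s2_eq]
  have h1 : (volume : Measure (ℝ × ℝ)) = (volume : Measure ℝ).prod (volume : Measure ℝ) := rfl
  rw [h1, ← Measure.map_prod_map _ _ (by fun_prop) (by fun_prop)]
  rw [Real.map_volume_mul_left ha.ne', Real.map_volume_mul_left hb.ne']
  rw [Measure.prod_smul_right, Measure.prod_smul_left, smul_smul]
  congr 1
  rw [abs_of_pos (by positivity), abs_of_pos (by positivity),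
    ← ENNReal.ofReal_mul (by positivity), mul_inv, mul_comm]

/-- Scaling as a measurable equivalence. -/
noncomputable def s2E (a b : ℝ) (ha : a ≠ 0) (hb : b ≠ 0) : (ℝ × ℝ) ≃ᵐ (ℝ × ℝ) :=
  ((Homeomorph.mulLeft₀ a ha).prodCongr (Homeomorph.mulLeft₀ b hb)).toMeasurableEquiv

lemma s2E_coe (a b : ℝ) (ha : a ≠ 0) (hb : b ≠ 0) : ⇑(s2E a b ha hb) = s2 a b := rfl

lemma lint_s2 (f : ℝ × ℝ → ℝ≥0∞) (a b : ℝ) (ha : 0 < a) (hb : 0 < b) :
    ∫⁻ y : ℝ × ℝ, f y = ENNReal.ofReal (a * b) * ∫⁻ y : ℝ × ℝ, f (s2 a b y) := by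
  have h3 := lintegral_map_equiv (μ := (volume : Measure (ℝ × ℝ))) f (s2E a b ha.ne' hb.ne')
  rw [s2E_coe, map_s2 a b ha hb, lintegral_smul_measure, smul_eq_mul] at h3
  rw [← h3, ← mul_assoc, ← ENNReal.ofReal_mul (by positivity),
    mul_inv_cancel₀ (by positivity), ENNReal.ofReal_one, one_mul]

lemma int_s2 (f : ℝ × ℝ → ℂ) (a b : ℝ) (ha : 0 < a) (hb : 0 < b) :
    ∫ y : ℝ × ℝ, f y = ((a * b : ℝ) : ℂ) * ∫ y : ℝ × ℝ, f (s2 a b y) := by
  have h3 := integral_map_equiv (μ := (volume : Measure (ℝ × ℝ))) (s2E a b ha.ne' hb.ne') f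
  rw [s2E_coe, map_s2 a b ha hb, integral_smul_measure] at h3
  rw [← h3, ENNReal.toReal_ofReal (by positivity), Complex.real_smul, ← mul_assoc,
    ← Complex.ofReal_mul, mul_inv_cancel₀ (by positivity), Complex.ofReal_one, one_mul]

lemma lint_s1 (f : ℝ → ℝ≥0∞) (a : ℝ) (ha : 0 < a) :
    ∫⁻ t : ℝ, f t = ENNReal.ofReal a * ∫⁻ t : ℝ, f (a * t) := by
  have h3 := lintegral_map_equiv (μ := (volume : Measure ℝ)) f
    (Homeomorph.mulLeft₀ a ha.ne').toMeasurableEquiv
  have h4 : ⇑(Homeomorph.mulLeft₀ a ha.ne').toMeasurableEquiv = fun x => a * x := rfl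
  rw [h4, Real.map_volume_mul_left ha.ne', lintegral_smul_measure, smul_eq_mul,
    abs_of_pos (by positivity)] at h3
  rw [← h3, ← mul_assoc, ← ENNReal.ofReal_mul (by positivity),
    mul_inv_cancel₀ (by positivity), ENNReal.ofReal_one, one_mul]

/-- The scaling of a pair `(y, x)`. -/
noncomputable def s4 (a b c d : ℝ) (p : YX) : YX := (s2 a b p.1, s2 c d p.2)

/-- **Scaling of the positive form.** -/
theorem Thg_scale (φ w : YX → ℝ) (M : YX → ℂ) (T τ a b c d : ℝ) (hτ : 0 < τ) (ha : 0 < a)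
    (hb : 0 < b) (hc : 0 < c) (hd : 0 < d) :
    Thg φ w T M = ENNReal.ofReal (a * b * (c * d) ^ 2 / τ) *
      Thg (fun p => φ (s4 a b c d p) / τ) (fun p => w (s4 a b c d p)) (τ * T)
        (fun p => M (s4 a b c d p)) := by
  unfold Thg
  rw [lint_s2 _ a b ha hb]
  have key : ∀ y : ℝ × ℝ, ∫⁻ t : ℝ, ENNReal.ofReal (chi (t / T)) *
      ‖Hyg φ w M (s2 a b y) t‖ₑ ^ 2 = ENNReal.ofReal ((c * d) ^ 2 / τ) *
      ∫⁻ t : ℝ, ENNReal.ofReal (chi (t / (τ * T))) *
        ‖Hyg (fun p => φ (s4 a b c d p) / τ) (fun p => w (s4 a b c d p))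
          (fun p => M (s4 a b c d p)) y t‖ₑ ^ 2 := by
    intro y
    rw [lint_s1 _ τ⁻¹ (by positivity)]
    have h1 : ∀ t : ℝ, ENNReal.ofReal (chi (τ⁻¹ * t / T)) *
        ‖Hyg φ w M (s2 a b y) (τ⁻¹ * t)‖ₑ ^ 2 = ENNReal.ofReal ((c * d) ^ 2) *
        (ENNReal.ofReal (chi (t / (τ * T))) *
          ‖Hyg (fun p => φ (s4 a b c d p) / τ) (fun p => w (s4 a b c d p))
          (fun p => M (s4 a b c d p)) y t‖ₑ ^ 2) := by
      intro t
      have e1 : τ⁻¹ * t / T = t / (τ * T) := by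
        field_simp
      have e2 : Hyg φ w M (s2 a b y) (τ⁻¹ * t) = ((c * d : ℝ) : ℂ) *
          Hyg (fun p => φ (s4 a b c d p) / τ) (fun p => w (s4 a b c d p))
          (fun p => M (s4 a b c d p)) y t := by
        unfold Hyg
        rw [int_s2 _ c d hc hd]
        congr 1
        refine integral_congr_ae (Filter.Eventually.of_forall fun x => ?_)
        simp only [s4]
        congr 2
        rw [inv_mul_eq_div]
        ring
      rw [e1, e2, enorm_mul, mul_pow]
      have e3 : ‖((c * d : ℝ) : ℂ)‖ₑ ^ 2 = ENNReal.ofReal ((c * d) ^ 2) := by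
        rw [← ofReal_norm_eq_enorm, Complex.norm_real, Real.norm_eq_abs, abs_of_pos (by positivity),
          ENNReal.ofReal_pow (by positivity)]
      rw [e3]
      ring
    simp only [h1]
    rw [lintegral_const_mul' _ _ ENNReal.ofReal_ne_top, ← mul_assoc,
      ← ENNReal.ofReal_mul (by positivity)]
    congr 2
    rw [inv_mul_eq_div]
  simp only [key]
  rw [lintegral_const_mul' _ _ ENNReal.ofReal_ne_top, ← mul_assoc,
    ← ENNReal.ofReal_mul (by positivity)]
  congr 2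
  ring

end Pool.Agent.SDT.N1G

end -- N1G.Sca
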