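import Pool.Agent.SDT.B05
import Pool.Agent.SDT.B08

set_option autoImplicit false

namespace Pool.Agent.SDT.MP_6cbfb8_an
end Pool.Agent.SDT.MP_6cbfb8_an
namespace Pool.Agent.SDT.MST
end Pool.Agent.SDT.MST
namespace Pool.Agent.SDT.N1
end Pool.Agent.SDT.N1
namespace Pool.Agent.SDT.N1G
end Pool.Agent.SDT.N1G

section -- N1.F2

/-!
N1, block F2: the positive forms.
-/

namespace Pool.Agent.SDT.N1

open MeasureTheory Set Metric Pool.Agent.SDT.MP_6cbfb8_an Pool.Agent.SDT.MST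
open scoped ENNReal Real ContDiff

lemma f2_mp4 {α β γ δ : Type*} [MeasureSpace α] [MeasureSpace β] [MeasureSpace γ]
    [MeasureSpace δ] [SigmaFinite (volume : Measure α)] [SigmaFinite (volume : Measure β)]
    [SigmaFinite (volume : Measure γ)] [SigmaFinite (volume : Measure δ)] :
    MeasurePreserving (fun q : (α × β) × (γ × δ) => ((q.1.1, q.2.1), (q.1.2, q.2.2)))
      volume volume := by
  have h1 : MeasurePreserving (MeasurableEquiv.prodAssoc : (α × β) × (γ × δ) ≃ᵐ α × β × γ × δ)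
      volume volume := volume_preserving_prodAssoc
  have h2 : MeasurePreserving
      ((MeasurableEquiv.prodAssoc : (β × γ) × δ ≃ᵐ β × γ × δ).symm) volume volume :=
    volume_preserving_prodAssoc.symm
  have h3 : MeasurePreserving (Prod.swap : β × γ → γ × β) volume volume :=
    Measure.measurePreserving_swap
  have h4 : MeasurePreserving (MeasurableEquiv.prodAssoc : (γ × β) × δ ≃ᵐ γ × β × δ)
      volume volume := volume_preserving_prodAssoc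
  have h5 : MeasurePreserving
      ((MeasurableEquiv.prodAssoc : (α × γ) × (β × δ) ≃ᵐ α × γ × β × δ).symm) volume volume :=
    volume_preserving_prodAssoc.symm
  have h3' : MeasurePreserving (Prod.map (Prod.swap : β × γ → γ × β) (id : δ → δ))
      volume volume := h3.prod (MeasurePreserving.id volume)
  have h6 := (h4.comp h3').comp h2
  have h7 : MeasurePreserving (Prod.map (id : α → α)
      ((MeasurableEquiv.prodAssoc : (γ × β) × δ ≃ᵐ γ × β × δ) ∘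
        (Prod.map (Prod.swap : β × γ → γ × β) (id : δ → δ)) ∘
        (MeasurableEquiv.prodAssoc : (β × γ) × δ ≃ᵐ β × γ × δ).symm)) volume volume :=
    (MeasurePreserving.id volume).prod h6
  exact (h5.comp h7).comp h1

/-- coordinates `(y, (x, z))` -/
def f2_e (q : V × V) : (ℝ × ℝ) × ((ℝ × ℝ) × (ℝ × ℝ)) :=
  ((q.1.1, q.2.1), ((q.1.2.1, q.2.2.1), (q.1.2.2, q.2.2.2)))

lemma f2_e_mp : MeasurePreserving f2_e volume volume := by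
  have h1 : MeasurePreserving (fun q : V × V => ((q.1.1, q.2.1), (q.1.2, q.2.2)))
    volume volume := f2_mp4
  have h2 : MeasurePreserving (Prod.map (id : ℝ × ℝ → ℝ × ℝ)
      (fun q : (ℝ × ℝ) × (ℝ × ℝ) => ((q.1.1, q.2.1), (q.1.2, q.2.2)))) volume volume :=
    (MeasurePreserving.id volume).prod f2_mp4
  exact h2.comp h1

lemma f2_sma_bdd (c : ℝ) (hc : 0 < c) (v : ℝ) : |sma c v| ≤ 2 / c := by
  unfold sma
  rcases le_or_gt (√v) (c / 2) with h | h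
  · have : smb c √v = 0 := by
      unfold smb
      exact Real.smoothTransition.zero_of_nonpos (div_nonpos_of_nonpos_of_nonneg (by linarith) hc.le)
    rw [this, zero_div, abs_zero]; positivity
  · have h0 : 0 < √v := lt_of_le_of_lt (by positivity) h
    have h1 : |smb c √v| ≤ 1 := by
      unfold smb
      rw [abs_of_nonneg (Real.smoothTransition.nonneg _)]
      exact Real.smoothTransition.le_one _
    rw [abs_div, abs_of_pos h0, div_le_div_iff₀ h0 hc]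
    nlinarith [abs_nonneg (smb c √v)]

lemma f2_wf_bdd (c : ℝ) (hc : 0 < c) (a b : ℝ) : |wf c a b| ≤ 2 / c := f2_sma_bdd c hc _

lemma f2_wf_supp (c : ℝ) (hc : 0 < c) (a b : ℝ) (h : wf c a b ≠ 0) : |a| ≤ 1 ∧ |b| ≤ 1 := by
  have h1 := wf_ne c hc a b h
  have h2 : 0 < c ^ 2 / 4 := by positivity
  constructor <;> rw [abs_le_one_iff_mul_self_le_one] <;> nlinarith [sq_nonneg a, sq_nonneg b]

lemma f2_conj_ex (x : ℝ) : (starRingEnd ℂ) (ex x) = ex (-x) := by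
  unfold ex
  rw [← Complex.exp_conj]
  congr 1
  rw [map_mul, Complex.conj_ofReal, Complex.conj_I]
  push_cast
  ring

/-- integrand of `Hy` -/
noncomputable def gk (c : ℝ) (M : (ℝ × ℝ) × (ℝ × ℝ) → ℂ) (y : ℝ × ℝ) (t : ℝ) (x : ℝ × ℝ) : ℂ :=
  M (y, x) * ((wf c x.1 x.2 * wf c (x.1 - y.1) (x.2 - y.2) : ℝ) : ℂ) *
    ex (t * (qf c x.1 x.2 - qf c (x.1 - y.1) (x.2 - y.2)))

lemma f2_Hy_eq (c : ℝ) (M : (ℝ × ℝ) × (ℝ × ℝ) → ℂ) (y : ℝ × ℝ) (t : ℝ) :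
    Hy c M y t = ∫ x, gk c M y t x := rfl

lemma f2_gk_meas (c : ℝ) (hc : 0 < c) {M : (ℝ × ℝ) × (ℝ × ℝ) → ℂ} (hM : Measurable M) :
    Measurable fun p : (ℝ × ℝ) × ℝ × (ℝ × ℝ) => gk c M p.1 p.2.1 p.2.2 := by
  have hw : Measurable fun x : ℝ × ℝ => wf c x.1 x.2 := (wf_smooth c hc).continuous.measurable
  have hq : Measurable fun x : ℝ × ℝ => qf c x.1 x.2 := (qf_smooth c hc).continuous.measurable
  have e1 : Measurable fun p : (ℝ × ℝ) × ℝ × (ℝ × ℝ) => M (p.1, p.2.2) := hM.comp (by fun_prop)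
  have e2 : Measurable fun p : (ℝ × ℝ) × ℝ × (ℝ × ℝ) => wf c p.2.2.1 p.2.2.2 :=
    hw.comp (g := fun x : ℝ × ℝ => wf c x.1 x.2)
      (f := fun p : (ℝ × ℝ) × ℝ × (ℝ × ℝ) => p.2.2) (by fun_prop)
  have e3 : Measurable fun p : (ℝ × ℝ) × ℝ × (ℝ × ℝ) =>
      wf c (p.2.2.1 - p.1.1) (p.2.2.2 - p.1.2) :=
    hw.comp (g := fun x : ℝ × ℝ => wf c x.1 x.2)
      (f := fun p : (ℝ × ℝ) × ℝ × (ℝ × ℝ) => p.2.2 - p.1) (by fun_prop)
  have e4 : Measurable fun p : (ℝ × ℝ) × ℝ × (ℝ × ℝ) => qf c p.2.2.1 p.2.2.2 :=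
    hq.comp (g := fun x : ℝ × ℝ => qf c x.1 x.2)
      (f := fun p : (ℝ × ℝ) × ℝ × (ℝ × ℝ) => p.2.2) (by fun_prop)
  have e5 : Measurable fun p : (ℝ × ℝ) × ℝ × (ℝ × ℝ) =>
      qf c (p.2.2.1 - p.1.1) (p.2.2.2 - p.1.2) :=
    hq.comp (g := fun x : ℝ × ℝ => qf c x.1 x.2)
      (f := fun p : (ℝ × ℝ) × ℝ × (ℝ × ℝ) => p.2.2 - p.1) (by fun_prop)
  have e6 : Measurable fun p : (ℝ × ℝ) × ℝ × (ℝ × ℝ) => p.2.1 := by fun_prop
  exact (e1.mul (Complex.measurable_ofReal.comp (e2.mul e3))).mul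
    (hlf_measurable_ex.comp (e6.mul (e4.sub e5)))

lemma f2_gk_bdd (c : ℝ) (hc : 0 < c) {M : (ℝ × ℝ) × (ℝ × ℝ) → ℂ} {B : ℝ}
    (hB : ∀ p, ‖M p‖ ≤ B) (y : ℝ × ℝ) (t : ℝ) (x : ℝ × ℝ) :
    ‖gk c M y t x‖ ≤ B * (2 / c * (2 / c)) := by
  have hB0 : 0 ≤ B := (norm_nonneg _).trans (hB 0)
  unfold gk
  rw [norm_mul, norm_mul, hlf_norm_ex, mul_one, Complex.norm_real, norm_mul]
  have h1 := f2_wf_bdd c hc x.1 x.2
  have h2 := f2_wf_bdd c hc (x.1 - y.1) (x.2 - y.2)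
  rw [← Real.norm_eq_abs] at h1 h2
  have hc2 : 0 ≤ 2 / c := by positivity
  gcongr
  exact hB _

lemma f2_gk_supp (c : ℝ) (hc : 0 < c) (M : (ℝ × ℝ) × (ℝ × ℝ) → ℂ) (y : ℝ × ℝ) (t : ℝ)
    (x : ℝ × ℝ) (h : gk c M y t x ≠ 0) : ‖x‖ ≤ 1 ∧ ‖x - y‖ ≤ 1 := by
  unfold gk at h
  have h1 := left_ne_zero_of_mul h
  have h2 := right_ne_zero_of_mul h1
  have h3 : wf c x.1 x.2 * wf c (x.1 - y.1) (x.2 - y.2) ≠ 0 := fun h4 => h2 (by rw [h4]; simp)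
  have h5 := f2_wf_supp c hc _ _ (left_ne_zero_of_mul h3)
  have h6 := f2_wf_supp c hc _ _ (right_ne_zero_of_mul h3)
  refine ⟨?_, ?_⟩
  · rw [Prod.norm_def, max_le_iff]
    exact h5
  · rw [Prod.norm_def, max_le_iff]
    exact h6

lemma f2_chi_meas : Measurable chi := chi_smooth.continuous.measurable

lemma f2_chi_nonneg (s : ℝ) : 0 ≤ chi s := by
  unfold chi
  exact mul_nonneg (Real.smoothTransition.nonneg _) (Real.smoothTransition.nonneg _)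

lemma f2_chi_le (s : ℝ) : chi s ≤ 1 := by
  unfold chi
  exact mul_le_one₀ (Real.smoothTransition.le_one _) (Real.smoothTransition.nonneg _)
    (Real.smoothTransition.le_one _)

lemma f2_chi_one (s : ℝ) (h1 : 1 ≤ s) (h2 : s ≤ 2) : chi s = 1 := by
  unfold chi
  rw [Real.smoothTransition.one_of_one_le (by linarith),
    Real.smoothTransition.one_of_one_le (by linarith), one_mul]

lemma f2_chi_supp {T : ℝ} (hT : 0 < T) (t : ℝ) (h : chi (t / T) ≠ 0) : t ∈ Icc 0 (3 * T) := by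
  have h1 := chi_zero _ h
  rw [div_le_iff₀ hT, le_div_iff₀ hT] at h1
  constructor
  · nlinarith [h1.1]
  · exact h1.2

/-- the total integrand, coordinates `(y, (x, z), t)` -/
noncomputable def f2P (c T : ℝ) (M : (ℝ × ℝ) × (ℝ × ℝ) → ℂ) (y : ℝ × ℝ)
    (p : (ℝ × ℝ) × (ℝ × ℝ)) (t : ℝ) : ℂ :=
  ((chi (t / T) : ℝ) : ℂ) * (gk c M y t p.1 * (starRingEnd ℂ) (gk c M y t (p.1 - p.2)))

lemma f2P_meas (c : ℝ) (hc : 0 < c) (T : ℝ) {M : (ℝ × ℝ) × (ℝ × ℝ) → ℂ} (hM : Measurable M) :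
    Measurable fun s : (ℝ × ℝ) × (((ℝ × ℝ) × (ℝ × ℝ)) × ℝ) => f2P c T M s.1 s.2.1 s.2.2 := by
  have hg := f2_gk_meas c hc hM
  have e1 : Measurable fun s : (ℝ × ℝ) × (((ℝ × ℝ) × (ℝ × ℝ)) × ℝ) => chi (s.2.2 / T) :=
    f2_chi_meas.comp (by fun_prop)
  have e2 : Measurable fun s : (ℝ × ℝ) × (((ℝ × ℝ) × (ℝ × ℝ)) × ℝ) =>
      gk c M s.1 s.2.2 s.2.1.1 :=
    hg.comp (g := fun p : (ℝ × ℝ) × ℝ × (ℝ × ℝ) => gk c M p.1 p.2.1 p.2.2)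
      (f := fun s : (ℝ × ℝ) × (((ℝ × ℝ) × (ℝ × ℝ)) × ℝ) => (s.1, s.2.2, s.2.1.1)) (by fun_prop)
  have e3 : Measurable fun s : (ℝ × ℝ) × (((ℝ × ℝ) × (ℝ × ℝ)) × ℝ) =>
      gk c M s.1 s.2.2 (s.2.1.1 - s.2.1.2) :=
    hg.comp (g := fun p : (ℝ × ℝ) × ℝ × (ℝ × ℝ) => gk c M p.1 p.2.1 p.2.2)
      (f := fun s : (ℝ × ℝ) × (((ℝ × ℝ) × (ℝ × ℝ)) × ℝ) => (s.1, s.2.2, s.2.1.1 - s.2.1.2))
      (by fun_prop)
  exact (Complex.measurable_ofReal.comp e1).mul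
    (e2.mul (Complex.continuous_conj.measurable.comp e3))

lemma f2P_bdd (c : ℝ) (hc : 0 < c) (T : ℝ) {M : (ℝ × ℝ) × (ℝ × ℝ) → ℂ} {B : ℝ}
    (hB : ∀ p, ‖M p‖ ≤ B) (y : ℝ × ℝ) (p : (ℝ × ℝ) × (ℝ × ℝ)) (t : ℝ) :
    ‖f2P c T M y p t‖ ≤ (B * (2 / c * (2 / c))) * (B * (2 / c * (2 / c))) := by
  have hB0 : 0 ≤ B := (norm_nonneg _).trans (hB 0)
  unfold f2P
  rw [norm_mul, norm_mul, RCLike.norm_conj, Complex.norm_real, Real.norm_eq_abs,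
    abs_of_nonneg (f2_chi_nonneg _)]
  have h1 := f2_gk_bdd c hc hB y t p.1
  have h2 := f2_gk_bdd c hc hB y t (p.1 - p.2)
  have h3 := f2_chi_le (t / T)
  have h4 : 0 ≤ B * (2 / c * (2 / c)) := by positivity
  calc chi (t / T) * (‖gk c M y t p.1‖ * ‖gk c M y t (p.1 - p.2)‖)
      ≤ 1 * (‖gk c M y t p.1‖ * ‖gk c M y t (p.1 - p.2)‖) := by gcongr
    _ ≤ _ := by
        rw [one_mul]
        gcongr

lemma f2P_supp (c : ℝ) (hc : 0 < c) {T : ℝ} (hT : 0 < T) (M : (ℝ × ℝ) × (ℝ × ℝ) → ℂ)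
    (y : ℝ × ℝ) (p : (ℝ × ℝ) × (ℝ × ℝ)) (t : ℝ) (h : f2P c T M y p t ≠ 0) :
    y ∈ closedBall (0 : ℝ × ℝ) 2 ∧
      (p, t) ∈ (closedBall (0 : ℝ × ℝ) 2 ×ˢ closedBall (0 : ℝ × ℝ) 2) ×ˢ Icc 0 (3 * T) := by
  unfold f2P at h
  have h1 : chi (t / T) ≠ 0 := fun h4 => (left_ne_zero_of_mul h) (by rw [h4]; simp)
  have h2 := right_ne_zero_of_mul h
  have h3 := f2_gk_supp c hc M y t _ (left_ne_zero_of_mul h2)
  have h4 := f2_gk_supp c hc M y t (p.1 - p.2)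
    ((map_ne_zero (starRingEnd ℂ)).1 (right_ne_zero_of_mul h2))
  have h5 : ‖y‖ ≤ 2 := by
    have : y = p.1 - (p.1 - y) := by abel
    rw [this]
    refine (norm_sub_le _ _).trans ?_
    linarith [h3.1, h3.2]
  have h6 : ‖p.2‖ ≤ 2 := by
    have : p.2 = p.1 - (p.1 - p.2) := by abel
    rw [this]
    refine (norm_sub_le _ _).trans ?_
    linarith [h3.1, h4.1]
  refine ⟨by simpa using h5, ⟨⟨?_, ?_⟩, f2_chi_supp hT t h1⟩⟩
  · rw [mem_closedBall_zero_iff]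
    exact h3.1.trans (by norm_num)
  · rw [mem_closedBall_zero_iff]
    exact h6

lemma f2_fin (T : ℝ) : (volume : Measure (((ℝ × ℝ) × (ℝ × ℝ)) × ℝ))
    ((closedBall (0 : ℝ × ℝ) 2 ×ˢ closedBall (0 : ℝ × ℝ) 2) ×ˢ Icc 0 (3 * T)) < ⊤ :=
  (((isCompact_closedBall _ _).prod (isCompact_closedBall _ _)).prod isCompact_Icc).measure_lt_top

lemma f2_fin' (T : ℝ) : (volume : Measure ((ℝ × ℝ) × (((ℝ × ℝ) × (ℝ × ℝ)) × ℝ)))
    (closedBall (0 : ℝ × ℝ) 2 ×ˢ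
      ((closedBall (0 : ℝ × ℝ) 2 ×ˢ closedBall (0 : ℝ × ℝ) 2) ×ˢ Icc 0 (3 * T))) < ⊤ :=
  ((isCompact_closedBall _ _).prod (((isCompact_closedBall _ _).prod
    (isCompact_closedBall _ _)).prod isCompact_Icc)).measure_lt_top

lemma f2P_int (c : ℝ) (hc : 0 < c) {T : ℝ} (hT : 0 < T) {M : (ℝ × ℝ) × (ℝ × ℝ) → ℂ}
    (hM : Measurable M) {B : ℝ} (hB : ∀ p, ‖M p‖ ≤ B) :
    Integrable fun s : (ℝ × ℝ) × (((ℝ × ℝ) × (ℝ × ℝ)) × ℝ) => f2P c T M s.1 s.2.1 s.2.2 :=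
  hlp_int (f2_fin' T) _ (f2P_meas c hc T hM) _ (fun s => f2P_bdd c hc T hB _ _ _) fun s hs => by
    by_contra h
    exact hs (f2P_supp c hc hT M _ _ _ h)

lemma f2P_int_y (c : ℝ) (hc : 0 < c) {T : ℝ} (hT : 0 < T) {M : (ℝ × ℝ) × (ℝ × ℝ) → ℂ}
    (hM : Measurable M) {B : ℝ} (hB : ∀ p, ‖M p‖ ≤ B) (y : ℝ × ℝ) :
    Integrable fun s : ((ℝ × ℝ) × (ℝ × ℝ)) × ℝ => f2P c T M y s.1 s.2 := by
  have hm : Measurable fun s : ((ℝ × ℝ) × (ℝ × ℝ)) × ℝ => f2P c T M y s.1 s.2 :=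
    (f2P_meas c hc T hM).comp
      (g := fun s : (ℝ × ℝ) × (((ℝ × ℝ) × (ℝ × ℝ)) × ℝ) => f2P c T M s.1 s.2.1 s.2.2)
      (f := fun s : ((ℝ × ℝ) × (ℝ × ℝ)) × ℝ => (y, s)) (by fun_prop)
  refine hlp_int (f2_fin T) _ hm _ (fun s => f2P_bdd c hc T hB y s.1 s.2) fun s hs => ?_
  by_contra h
  exact hs (f2P_supp c hc hT M y s.1 s.2 h).2

lemma f2P_int_yt (c : ℝ) (hc : 0 < c) {T : ℝ} (hT : 0 < T) {M : (ℝ × ℝ) × (ℝ × ℝ) → ℂ}
    (hM : Measurable M) {B : ℝ} (hB : ∀ p, ‖M p‖ ≤ B) (y : ℝ × ℝ) (t : ℝ) :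
    Integrable fun p : (ℝ × ℝ) × (ℝ × ℝ) => f2P c T M y p t := by
  have hm : Measurable fun p : (ℝ × ℝ) × (ℝ × ℝ) => f2P c T M y p t :=
    (f2P_meas c hc T hM).comp
      (g := fun s : (ℝ × ℝ) × (((ℝ × ℝ) × (ℝ × ℝ)) × ℝ) => f2P c T M s.1 s.2.1 s.2.2)
      (f := fun p : (ℝ × ℝ) × (ℝ × ℝ) => (y, (p, t))) (by fun_prop)
  refine hlp_int (S := closedBall (0 : ℝ × ℝ) 2 ×ˢ closedBall (0 : ℝ × ℝ) 2)
    ((isCompact_closedBall _ _).prod (isCompact_closedBall _ _)).measure_lt_top _ hm _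
    (fun s => f2P_bdd c hc T hB y s t) fun s hs => ?_
  by_contra h
  exact hs (f2P_supp c hc hT M y s t h).2.1

/-- the inner part of the form -/
noncomputable def f2I (c T : ℝ) (M : (ℝ × ℝ) × (ℝ × ℝ) → ℂ) (y : ℝ × ℝ) : ℝ :=
  ∫ t : ℝ, chi (t / T) * ‖Hy c M y t‖ ^ 2

lemma f2_xz (c T : ℝ) (M : (ℝ × ℝ) × (ℝ × ℝ) → ℂ) (y : ℝ × ℝ) (t : ℝ)
    (hI : Integrable fun p : (ℝ × ℝ) × (ℝ × ℝ) => f2P c T M y p t) :
    ∫ p : (ℝ × ℝ) × (ℝ × ℝ), f2P c T M y p t = ((chi (t / T) * ‖Hy c M y t‖ ^ 2 : ℝ) : ℂ) := by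
  have h1 : ∫ p : (ℝ × ℝ) × (ℝ × ℝ), f2P c T M y p t =
      ∫ x : ℝ × ℝ, ∫ z : ℝ × ℝ, f2P c T M y (x, z) t :=
    integral_prod (fun p : (ℝ × ℝ) × (ℝ × ℝ) => f2P c T M y p t) hI
  rw [h1]
  have h2 : ∀ x : ℝ × ℝ, ∫ z : ℝ × ℝ, f2P c T M y (x, z) t =
      gk c M y t x * (((chi (t / T) : ℝ) : ℂ) * (starRingEnd ℂ) (Hy c M y t)) := by
    intro x
    have h3 : ∀ z : ℝ × ℝ, f2P c T M y (x, z) t =
        (((chi (t / T) : ℝ) : ℂ) * gk c M y t x) *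
          (starRingEnd ℂ) (gk c M y t (x - z)) := by
      intro z
      unfold f2P
      ring
    rw [integral_congr_ae (ae_of_all _ h3), integral_const_mul, integral_conj,
      integral_sub_left_eq_self (fun v => gk c M y t v) volume x, f2_Hy_eq]
    ring
  rw [integral_congr_ae (ae_of_all _ h2), integral_mul_const, ← f2_Hy_eq]
  rw [Complex.ofReal_mul, Complex.ofReal_pow, ← Complex.mul_conj']
  ring

lemma f2_tint (c : ℝ) (hc : 0 < c) {T : ℝ} (hT : 0 < T) {M : (ℝ × ℝ) × (ℝ × ℝ) → ℂ}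
    (hM : Measurable M) {B : ℝ} (hB : ∀ p, ‖M p‖ ≤ B) (y : ℝ × ℝ) :
    Integrable fun t : ℝ => chi (t / T) * ‖Hy c M y t‖ ^ 2 := by
  have h1 := (f2P_int_y c hc hT hM hB y).integral_prod_right
  have h2 : Integrable fun t : ℝ => ((chi (t / T) * ‖Hy c M y t‖ ^ 2 : ℝ) : ℂ) := by
    refine h1.congr (ae_of_all _ fun t => ?_)
    exact f2_xz c T M y t (f2P_int_yt c hc hT hM hB y t)
  exact h2.re.congr (ae_of_all _ fun t => Complex.ofReal_re _)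

lemma f2_yint (c : ℝ) (hc : 0 < c) {T : ℝ} (hT : 0 < T) {M : (ℝ × ℝ) × (ℝ × ℝ) → ℂ}
    (hM : Measurable M) {B : ℝ} (hB : ∀ p, ‖M p‖ ≤ B) (y : ℝ × ℝ) :
    ∫ s : ((ℝ × ℝ) × (ℝ × ℝ)) × ℝ, f2P c T M y s.1 s.2 = ((f2I c T M y : ℝ) : ℂ) := by
  have h1 : ∫ s : ((ℝ × ℝ) × (ℝ × ℝ)) × ℝ, f2P c T M y s.1 s.2 =
      ∫ t : ℝ, ∫ p : (ℝ × ℝ) × (ℝ × ℝ), f2P c T M y p t :=
    integral_prod_symm (fun s : ((ℝ × ℝ) × (ℝ × ℝ)) × ℝ => f2P c T M y s.1 s.2)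
      (f2P_int_y c hc hT hM hB y)
  rw [h1, integral_congr_ae (ae_of_all _ fun t =>
    f2_xz c T M y t (f2P_int_yt c hc hT hM hB y t)), integral_complex_ofReal]
  rfl

lemma f2_I_int (c : ℝ) (hc : 0 < c) {T : ℝ} (hT : 0 < T) {M : (ℝ × ℝ) × (ℝ × ℝ) → ℂ}
    (hM : Measurable M) {B : ℝ} (hB : ∀ p, ‖M p‖ ≤ B) : Integrable (f2I c T M) := by
  have h1 := (f2P_int c hc hT hM hB).integral_prod_left
  have h2 : Integrable fun y : ℝ × ℝ => ((f2I c T M y : ℝ) : ℂ) :=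
    h1.congr (ae_of_all _ fun y => f2_yint c hc hT hM hB y)
  exact h2.re.congr (ae_of_all _ fun t => Complex.ofReal_re _)

/-- the integrand of the four-linear form in the coordinates `(y, (x, z))` -/
lemma f2_q (c T : ℝ) (M : (ℝ × ℝ) × (ℝ × ℝ) → ℂ) (q : V × V) :
    sqM M q * ((Wr c q.1 q.2 : ℝ) : ℂ) * Kt T (Fr c q.1 q.2) =
      ∫ t : ℝ, f2P c T M (f2_e q).1 (f2_e q).2 t := by
  unfold Kt
  rw [← integral_const_mul]
  refine integral_congr_ae (ae_of_all _ fun t => ?_)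
  simp only [f2P, gk, f2_e, sqM, Fr, Wr, Prod.mk_sub_mk, map_mul,
    f2_conj_ex, Complex.conj_ofReal]
  rw [show q.1.2.1 - q.1.2.2 - q.1.1 = q.1.2.1 - q.1.1 - q.1.2.2 by ring,
    show q.2.2.1 - q.2.2.2 - q.2.1 = q.2.2.1 - q.2.1 - q.2.2.2 by ring]
  have h1 : ex (t * (qf c q.1.2.1 q.2.2.1 - qf c (q.1.2.1 - q.1.1) (q.2.2.1 - q.2.1) -
      qf c (q.1.2.1 - q.1.2.2) (q.2.2.1 - q.2.2.2) +
      qf c (q.1.2.1 - q.1.1 - q.1.2.2) (q.2.2.1 - q.2.1 - q.2.2.2))) =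
      ex (t * (qf c q.1.2.1 q.2.2.1 - qf c (q.1.2.1 - q.1.1) (q.2.2.1 - q.2.1))) *
      ex (-(t * (qf c (q.1.2.1 - q.1.2.2) (q.2.2.1 - q.2.2.2) -
        qf c (q.1.2.1 - q.1.1 - q.1.2.2) (q.2.2.1 - q.2.1 - q.2.2.2)))) := by
    rw [← hlf_ex_add]
    congr 1
    ring
  rw [h1]
  push_cast
  ring

lemma f2_key (c : ℝ) (hc : 0 < c) {T : ℝ} (hT : 0 < T) {M : (ℝ × ℝ) × (ℝ × ℝ) → ℂ}
    (hM : Measurable M) {B : ℝ} (hB : ∀ p, ‖M p‖ ≤ B) (ψ : ℝ × ℝ → ℂ) (hψ : Measurable ψ)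
    {B' : ℝ} (hψ1 : ∀ y, ‖ψ y‖ ≤ B') :
    FF c T (fun q => ψ (q.1.1, q.2.1) * sqM M q) = ∫ y, ψ y * ((f2I c T M y : ℝ) : ℂ) := by
  have hI := f2P_int c hc hT hM hB
  -- the function on the space of (y, (x, z))
  set G : (ℝ × ℝ) × ((ℝ × ℝ) × (ℝ × ℝ)) → ℂ := fun s =>
    ψ s.1 * ∫ t : ℝ, f2P c T M s.1 s.2 t with hG
  have hassoc := volume_preserving_prodAssoc (α₁ := ℝ × ℝ) (β₁ := (ℝ × ℝ) × (ℝ × ℝ)) (γ₁ := ℝ)
  have hI2 : Integrable (fun s : ((ℝ × ℝ) × ((ℝ × ℝ) × (ℝ × ℝ))) × ℝ =>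
      f2P c T M s.1.1 s.1.2 s.2) := hassoc.integrable_comp_of_integrable hI
  have hI3 : Integrable fun s : (ℝ × ℝ) × ((ℝ × ℝ) × (ℝ × ℝ)) =>
      ∫ t : ℝ, f2P c T M s.1 s.2 t := hI2.integral_prod_left
  have hGi : Integrable G := by
    refine Integrable.bdd_mul (c := B') hI3 ?_ (ae_of_all _ fun s => hψ1 _)
    exact (hψ.comp measurable_fst).aestronglyMeasurable
  have h1 : FF c T (fun q => ψ (q.1.1, q.2.1) * sqM M q) = ∫ q : V × V, G (f2_e q) := by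
    unfold FF
    refine integral_congr_ae (ae_of_all _ fun q => ?_)
    simp only [hG]
    rw [← f2_q, mul_assoc, mul_assoc, mul_assoc]
    rfl
  rw [h1]
  have h2 : ∫ q : V × V, G (f2_e q) = ∫ s, G s := by
    have h3 : ∫ s, G s ∂(Measure.map f2_e volume) = ∫ q : V × V, G (f2_e q) := by
      refine integral_map f2_e_mp.measurable.aemeasurable ?_
      rw [f2_e_mp.map_eq]
      exact hGi.aestronglyMeasurable
    rw [← h3, f2_e_mp.map_eq]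
  rw [h2]
  have h4 : ∫ s, G s = ∫ y : ℝ × ℝ, ∫ p : (ℝ × ℝ) × (ℝ × ℝ), G (y, p) := integral_prod G hGi
  rw [h4]
  refine integral_congr_ae (ae_of_all _ fun y => ?_)
  simp only [hG]
  rw [integral_const_mul, ← f2_yint c hc hT hM hB y]
  congr 1
  exact (integral_prod (fun s : ((ℝ × ℝ) × (ℝ × ℝ)) × ℝ => f2P c T M y s.1 s.2)
    (f2P_int_y c hc hT hM hB y)).symm

lemma f2_I_nonneg (c T : ℝ) (M : (ℝ × ℝ) × (ℝ × ℝ) → ℂ) (y : ℝ × ℝ) : 0 ≤ f2I c T M y :=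
  integral_nonneg fun t => mul_nonneg (f2_chi_nonneg _) (sq_nonneg _)

lemma f2_I_ofReal (c : ℝ) (hc : 0 < c) {T : ℝ} (hT : 0 < T) {M : (ℝ × ℝ) × (ℝ × ℝ) → ℂ}
    (hM : Measurable M) {B : ℝ} (hB : ∀ p, ‖M p‖ ≤ B) (y : ℝ × ℝ) :
    ENNReal.ofReal (f2I c T M y) =
      ∫⁻ t : ℝ, ENNReal.ofReal (chi (t / T)) * ‖Hy c M y t‖ₑ ^ 2 := by
  unfold f2I
  rw [ofReal_integral_eq_lintegral_ofReal (f2_tint c hc hT hM hB y)
    (ae_of_all _ fun t => mul_nonneg (f2_chi_nonneg _) (sq_nonneg _))]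
  refine lintegral_congr fun t => ?_
  rw [ENNReal.ofReal_mul (f2_chi_nonneg _), ENNReal.ofReal_pow (norm_nonneg _), ofReal_norm]

lemma f2_Th (c : ℝ) (hc : 0 < c) {T : ℝ} (hT : 0 < T) {M : (ℝ × ℝ) × (ℝ × ℝ) → ℂ}
    (hM : Measurable M) {B : ℝ} (hB : ∀ p, ‖M p‖ ≤ B) :
    Th c T M = ∫⁻ y, ENNReal.ofReal (f2I c T M y) := by
  unfold Th
  exact lintegral_congr fun y => (f2_I_ofReal c hc hT hM hB y).symm

theorem Th_eq (c : ℝ) (hc : 0 < c) (T : ℝ) (hT : 0 < T) (M : (ℝ × ℝ) × (ℝ × ℝ) → ℂ)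
    (hM : Measurable M) (hB : ∀ p, ‖M p‖ ≤ 1) : Th c T M = ‖FF c T (sqM M)‖ₑ := by
  have h1 := f2_key c hc hT hM hB (fun _ => 1) measurable_const (B' := 1) (fun y => by simp)
  simp only [one_mul] at h1
  have h2 : FF c T (sqM M) = ((∫ y, f2I c T M y : ℝ) : ℂ) := by
    rw [← integral_complex_ofReal]
    exact h1
  rw [h2, f2_Th c hc hT hM hB, ← ofReal_integral_eq_lintegral_ofReal (f2_I_int c hc hT hM hB)
    (ae_of_all _ fun y => f2_I_nonneg c T M y), ← ofReal_norm, Complex.norm_real,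
    Real.norm_eq_abs, abs_of_nonneg (integral_nonneg fun y => f2_I_nonneg c T M y)]

/-- A weight depending on `y` only. -/
theorem FF_weight (c : ℝ) (hc : 0 < c) (T : ℝ) (hT : 0 < T) (M : (ℝ × ℝ) × (ℝ × ℝ) → ℂ)
    (hM : Measurable M) (hB : ∀ p, ‖M p‖ ≤ 1) (ψ : ℝ × ℝ → ℂ) (hψ : Measurable ψ)
    (hψ1 : ∀ y, ‖ψ y‖ ≤ 1) :
    ‖FF c T (fun q => ψ (q.1.1, q.2.1) * sqM M q)‖ₑ ≤
      Th c T (fun p => if ψ p.1 = 0 then 0 else M p) := by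
  rw [f2_key c hc hT hM hB ψ hψ hψ1]
  refine (enorm_integral_le_lintegral_enorm _).trans ?_
  unfold Th
  refine lintegral_mono fun y => ?_
  by_cases h : ψ y = 0
  · rw [h, zero_mul, enorm_zero]
    exact zero_le
  · have h1 : ∀ t, Hy c (fun p => if ψ p.1 = 0 then 0 else M p) y t = Hy c M y t := by
      intro t
      unfold Hy
      simp only [if_neg h]
    simp only [h1]
    rw [← f2_I_ofReal c hc hT hM hB y, enorm_mul, ← ofReal_norm ((f2I c T M y : ℝ) : ℂ),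
      Complex.norm_real, Real.norm_eq_abs, abs_of_nonneg (f2_I_nonneg c T M y)]
    have h2 : ‖ψ y‖ₑ ≤ 1 := by
      rw [← ofReal_norm]
      exact ENNReal.ofReal_le_one.2 (hψ1 y)
    calc _ ≤ 1 * ENNReal.ofReal (f2I c T M y) := mul_le_mul_left h2 _
      _ = _ := one_mul _

lemma f2_gk_int (c : ℝ) (hc : 0 < c) {M : (ℝ × ℝ) × (ℝ × ℝ) → ℂ}
    (hM : Measurable M) {B : ℝ} (hB : ∀ p, ‖M p‖ ≤ B) (y : ℝ × ℝ) (t : ℝ) :
    Integrable fun x : ℝ × ℝ => gk c M y t x := by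
  have hm : Measurable fun x : ℝ × ℝ => gk c M y t x :=
    (f2_gk_meas c hc hM).comp
      (g := fun p : (ℝ × ℝ) × ℝ × (ℝ × ℝ) => gk c M p.1 p.2.1 p.2.2)
      (f := fun x : ℝ × ℝ => (y, t, x)) (by fun_prop)
  refine hlp_int (S := closedBall (0 : ℝ × ℝ) 1) (isCompact_closedBall _ _).measure_lt_top _ hm _
    (fun x => f2_gk_bdd c hc hB y t x) fun x hx => ?_
  by_contra h
  exact hx (by simpa using (f2_gk_supp c hc M y t x h).1)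

lemma f2_Hy_sum (c : ℝ) (hc : 0 < c) (n : ℕ)
    (M : Fin n → (ℝ × ℝ) × (ℝ × ℝ) → ℂ) (hM : ∀ i, Measurable (M i)) (B : ℝ)
    (hB : ∀ i p, ‖M i p‖ ≤ B) (y : ℝ × ℝ) (t : ℝ) :
    Hy c (fun p => ∑ i, M i p) y t = ∑ i, Hy c (M i) y t := by
  simp only [f2_Hy_eq]
  rw [← integral_finsetSum _ fun i _ => f2_gk_int c hc (hM i) (hB i) y t]
  refine integral_congr_ae (ae_of_all _ fun x => ?_)
  simp only [gk, Finset.sum_mul]

theorem Th_sum (c : ℝ) (hc : 0 < c) (T : ℝ) (hT : 0 < T) (n : ℕ)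
    (M : Fin n → (ℝ × ℝ) × (ℝ × ℝ) → ℂ) (hM : ∀ i, Measurable (M i)) (B : ℝ)
    (hB : ∀ i p, ‖M i p‖ ≤ B) :
    Th c T (fun p => ∑ i, M i p) ≤ n * ∑ i, Th c T (M i) := by
  have hMs : Measurable fun p => ∑ i, M i p := Finset.measurable_sum _ fun i _ => hM i
  have hBs : ∀ p, ‖∑ i, M i p‖ ≤ ∑ _i : Fin n, B := fun p =>
    (norm_sum_le _ _).trans (Finset.sum_le_sum fun i _ => hB i p)
  have h1 : ∀ y, f2I c T (fun p => ∑ i, M i p) y ≤ n * ∑ i, f2I c T (M i) y := by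
    intro y
    unfold f2I
    rw [← integral_finsetSum _ fun i _ => f2_tint c hc hT (hM i) (hB i) y, ← integral_const_mul]
    refine integral_mono (f2_tint c hc hT hMs hBs y)
      ((integrable_finsetSum _ fun i _ => f2_tint c hc hT (hM i) (hB i) y).const_mul _) ?_
    intro t
    simp only
    rw [f2_Hy_sum c hc n M hM B hB y t, ← Finset.mul_sum]
    have h2 : ‖∑ i, Hy c (M i) y t‖ ^ 2 ≤ n * ∑ i, ‖Hy c (M i) y t‖ ^ 2 := by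
      have h3 : ‖∑ i, Hy c (M i) y t‖ ≤ ∑ i, ‖Hy c (M i) y t‖ := norm_sum_le _ _
      have h4 := sq_sum_le_card_mul_sum_sq (s := (Finset.univ : Finset (Fin n)))
        (f := fun i => ‖Hy c (M i) y t‖)
      rw [Finset.card_univ, Fintype.card_fin] at h4
      exact (pow_le_pow_left₀ (norm_nonneg _) h3 2).trans h4
    calc chi (t / T) * ‖∑ i, Hy c (M i) y t‖ ^ 2
        ≤ chi (t / T) * (n * ∑ i, ‖Hy c (M i) y t‖ ^ 2) :=
          mul_le_mul_of_nonneg_left h2 (f2_chi_nonneg _)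
      _ = n * (chi (t / T) * ∑ i, ‖Hy c (M i) y t‖ ^ 2) := by ring
  have h2 : ∫ y, f2I c T (fun p => ∑ i, M i p) y ≤ n * ∑ i, ∫ y, f2I c T (M i) y := by
    rw [← integral_finsetSum _ fun i _ => f2_I_int c hc hT (hM i) (hB i), ← integral_const_mul]
    exact integral_mono (f2_I_int c hc hT hMs hBs)
      ((integrable_finsetSum _ fun i _ => f2_I_int c hc hT (hM i) (hB i)).const_mul _) h1
  have h3 : ∀ N : (ℝ × ℝ) × (ℝ × ℝ) → ℂ, Measurable N → (∃ B : ℝ, ∀ p, ‖N p‖ ≤ B) →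
      Th c T N = ENNReal.ofReal (∫ y, f2I c T N y) := by
    rintro N hN ⟨B, hB⟩
    rw [f2_Th c hc hT hN hB, ← ofReal_integral_eq_lintegral_ofReal (f2_I_int c hc hT hN hB)
      (ae_of_all _ fun y => f2_I_nonneg c T N y)]
  rw [h3 _ hMs ⟨_, hBs⟩]
  refine (ENNReal.ofReal_le_ofReal h2).trans (le_of_eq ?_)
  rw [ENNReal.ofReal_mul (Nat.cast_nonneg n), ENNReal.ofReal_natCast,
    ENNReal.ofReal_sum_of_nonneg fun i _ => integral_nonneg fun y => f2_I_nonneg c T (M i) y]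
  congr 1
  exact Finset.sum_congr rfl fun i _ => (h3 _ (hM i) ⟨B, hB i⟩).symm

/-! ### Transfer to the Euclidean plane -/

/-- the point `(a, b)` of the Euclidean plane -/
noncomputable def f2p (x : ℝ × ℝ) : E 2 := WithLp.toLp 2 ![x.1, x.2]

lemma f2p_0 (x : ℝ × ℝ) : f2p x 0 = x.1 := rfl

lemma f2p_1 (x : ℝ × ℝ) : f2p x 1 = x.2 := rfl

lemma f2p_sub (x y : ℝ × ℝ) : f2p (x - y) = f2p x - f2p y := by
  ext i
  fin_cases i <;> simp [f2p]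

lemma f2p_inner (x y : ℝ × ℝ) : inner ℝ (f2p x) (f2p y) = x.1 * y.1 + x.2 * y.2 := by
  rw [PiLp.inner_apply, Fin.sum_univ_two]
  simp [f2p, mul_comm]

lemma f2p_mp : MeasurePreserving f2p volume volume :=
  (PiLp.volume_preserving_toLp (Fin 2)).comp (volume_preserving_finTwoArrow ℝ).symm

lemma f2p_emb : MeasurableEmbedding f2p :=
  ((MeasurableEquiv.toLp 2 (Fin 2 → ℝ)).measurableEmbedding).comp
    (MeasurableEquiv.finTwoArrow (α := ℝ)).symm.measurableEmbedding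

lemma f2p_integral (F : E 2 → ℂ) : ∫ w, F w = ∫ x, F (f2p x) :=
  (f2p_mp.integral_comp f2p_emb F).symm

lemma f2p_integralR (F : E 2 → ℝ) : ∫ w, F w = ∫ x, F (f2p x) :=
  (f2p_mp.integral_comp f2p_emb F).symm

lemma f2p_lintegral (F : E 2 → ℝ≥0∞) : ∫⁻ w, F w = ∫⁻ x, F (f2p x) :=
  (f2p_mp.lintegral_comp_emb f2p_emb F).symm

/-- the density times the amplitude -/
noncomputable def f2f (c : ℝ) (G₁ G₂ : ℝ → ℂ) (t : ℝ) (w : E 2) : ℂ :=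
  G₁ (w 0) * G₂ (w 1) * ((wf c (w 0) (w 1) : ℝ) : ℂ) * ex (t * qf c (w 0) (w 1))

lemma f2f_meas (c : ℝ) (hc : 0 < c) {G₁ G₂ : ℝ → ℂ} (h1 : Measurable G₁) (h2 : Measurable G₂)
    (t : ℝ) : Measurable (f2f c G₁ G₂ t) := by
  have hw : Measurable fun x : ℝ × ℝ => wf c x.1 x.2 := (wf_smooth c hc).continuous.measurable
  have hq : Measurable fun x : ℝ × ℝ => qf c x.1 x.2 := (qf_smooth c hc).continuous.measurable
  have e0 : Measurable fun w : E 2 => w 0 := by fun_prop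
  have e1 : Measurable fun w : E 2 => w 1 := by fun_prop
  have e2 : Measurable fun w : E 2 => wf c (w 0) (w 1) :=
    hw.comp (g := fun x : ℝ × ℝ => wf c x.1 x.2) (f := fun w : E 2 => (w 0, w 1)) (e0.prodMk e1)
  have e3 : Measurable fun w : E 2 => qf c (w 0) (w 1) :=
    hq.comp (g := fun x : ℝ × ℝ => qf c x.1 x.2) (f := fun w : E 2 => (w 0, w 1)) (e0.prodMk e1)
  exact (((h1.comp e0).mul (h2.comp e1)).mul (Complex.measurable_ofReal.comp e2)).mul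
    (hlf_measurable_ex.comp (e3.const_mul t))

lemma f2f_bdd (c : ℝ) (hc : 0 < c) {G₁ G₂ : ℝ → ℂ} (b1 : ∀ a, ‖G₁ a‖ ≤ 1)
    (b2 : ∀ b, ‖G₂ b‖ ≤ 1) (t : ℝ) (w : E 2) : ‖f2f c G₁ G₂ t w‖ ≤ 2 / c := by
  unfold f2f
  rw [norm_mul, norm_mul, norm_mul, hlf_norm_ex, mul_one, Complex.norm_real]
  have h := f2_wf_bdd c hc (w 0) (w 1)
  rw [← Real.norm_eq_abs] at h
  calc ‖G₁ (w 0)‖ * ‖G₂ (w 1)‖ * ‖wf c (w 0) (w 1)‖ ≤ 1 * 1 * (2 / c) := by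
        gcongr
        · exact b1 _
        · exact b2 _
    _ = 2 / c := by ring

lemma f2f_supp (c : ℝ) (hc : 0 < c) (G₁ G₂ : ℝ → ℂ) (t : ℝ) (w : E 2) (hw : 2 < ‖w‖) :
    f2f c G₁ G₂ t w = 0 := by
  by_contra h
  unfold f2f at h
  have h1 : wf c (w 0) (w 1) ≠ 0 := fun h2 => by
    have := right_ne_zero_of_mul (left_ne_zero_of_mul h)
    exact this (by rw [h2]; simp)
  have h2 := f2_wf_supp c hc _ _ h1
  have h3 : ‖w‖ ^ 2 = (w 0) ^ 2 + (w 1) ^ 2 := by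
    rw [EuclideanSpace.norm_eq, Real.sq_sqrt (by positivity), Fin.sum_univ_two]
    simp
  have h4 := sq_le_one_iff_abs_le_one (w 0) |>.2 h2.1
  have h5 := sq_le_one_iff_abs_le_one (w 1) |>.2 h2.2
  nlinarith [norm_nonneg w]

lemma f2_Eo (c : ℝ) (G₁ G₂ : ℝ → ℂ) (t : ℝ) (ξ : ℝ × ℝ) :
    Eo c G₁ G₂ t ξ = ∫ w : E 2, f2f c G₁ G₂ t w * ex (inner ℝ w (f2p ξ)) := by
  rw [f2p_integral]
  unfold Eo
  refine integral_congr_ae (ae_of_all _ fun x => ?_)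
  simp only [f2p_inner]
  rfl

lemma f2_Hy (c : ℝ) (G₁ G₂ : ℝ → ℂ) (t : ℝ) (y : ℝ × ℝ) :
    Hy c (pd (da G₁) (da G₂)) y t =
      ∫ w : E 2, f2f c G₁ G₂ t w * (starRingEnd ℂ) (f2f c G₁ G₂ t (w - f2p y)) := by
  rw [f2p_integral, f2_Hy_eq]
  refine integral_congr_ae (ae_of_all _ fun x => ?_)
  have h1 : ex (t * (qf c x.1 x.2 - qf c (x.1 - y.1) (x.2 - y.2))) =
      ex (t * qf c x.1 x.2) * ex (-(t * qf c (x.1 - y.1) (x.2 - y.2))) := by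
    rw [← hlf_ex_add]
    congr 1
    ring
  simp only [gk, pd, da, ← f2p_sub, f2f, f2p_0, f2p_1, Prod.fst_sub, Prod.snd_sub, map_mul,
    f2_conj_ex, Complex.conj_ofReal]
  rw [h1]
  push_cast
  ring

lemma f2_Hy_meas (c : ℝ) (hc : 0 < c) {M : (ℝ × ℝ) × (ℝ × ℝ) → ℂ} (hM : Measurable M) :
    Measurable fun p : (ℝ × ℝ) × ℝ => Hy c M p.1 p.2 := by
  have h1 : Measurable fun p : ((ℝ × ℝ) × ℝ) × (ℝ × ℝ) => gk c M p.1.1 p.1.2 p.2 :=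
    (f2_gk_meas c hc hM).comp
      (g := fun p : (ℝ × ℝ) × ℝ × (ℝ × ℝ) => gk c M p.1 p.2.1 p.2.2)
      (f := fun p : ((ℝ × ℝ) × ℝ) × (ℝ × ℝ) => (p.1.1, p.1.2, p.2)) (by fun_prop)
  exact (h1.stronglyMeasurable.integral_prod_right').measurable

lemma f2_pl (c : ℝ) (hc : 0 < c) (G₁ G₂ : ℝ → ℂ) (h1 : Measurable G₁)
    (h2 : Measurable G₂) (b1 : ∀ a, ‖G₁ a‖ ≤ 1) (b2 : ∀ b, ‖G₂ b‖ ≤ 1) (t : ℝ) :
    ∫⁻ ξ : ℝ × ℝ, ‖Eo c G₁ G₂ t ξ‖ₑ ^ 4 ≤ ∫⁻ y : ℝ × ℝ, ‖Hy c (pd (da G₁) (da G₂)) y t‖ₑ ^ 2 := by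
  have k1 := four_linear (f2f c G₁ G₂ t) (f2f_meas c hc h1 h2 t) (2 / c) 2
    (f2f_bdd c hc b1 b2 t) (f2f_supp c hc G₁ G₂ t)
  have k2 := hlp_eq (f2f c G₁ G₂ t) (f2f_meas c hc h1 h2 t) (2 / c) 2
    (f2f_bdd c hc b1 b2 t) (f2f_supp c hc G₁ G₂ t)
  unfold hlp_F at k2
  rw [k2, integral_complex_ofReal, Complex.ofReal_re, f2p_lintegral, f2p_integralR] at k1
  simp only [← f2_Eo, ← f2_Hy] at k1
  have k3 : ∫⁻ ξ : ℝ × ℝ, ‖Eo c G₁ G₂ t ξ‖ₑ ^ 4 = ∫⁻ ξ : ℝ × ℝ, ‖Eo c G₁ G₂ t ξ‖ₑ ^ (4 : ℝ) := by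
    refine lintegral_congr fun ξ => ?_
    rw [← ENNReal.rpow_natCast]
    norm_num
  rw [k3]
  refine k1.trans ?_
  have hm : Measurable fun y : ℝ × ℝ => Hy c (pd (da G₁) (da G₂)) y t := by
    have e1 : Measurable (da G₁) := by
      unfold da
      exact (h1.comp measurable_snd).mul
        (Complex.continuous_conj.measurable.comp (h1.comp (by fun_prop)))
    have e2 : Measurable (da G₂) := by
      unfold da
      exact (h2.comp measurable_snd).mul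
        (Complex.continuous_conj.measurable.comp (h2.comp (by fun_prop)))
    have e3 : Measurable (pd (da G₁) (da G₂)) := by
      unfold pd
      exact (e1.comp (by fun_prop)).mul (e2.comp (by fun_prop))
    exact (f2_Hy_meas c hc e3).comp (g := fun p : (ℝ × ℝ) × ℝ => Hy c (pd (da G₁) (da G₂)) p.1 p.2)
      (f := fun y : ℝ × ℝ => (y, t)) (by fun_prop)
  rw [integral_eq_lintegral_of_nonneg_ae (ae_of_all _ fun y => sq_nonneg _)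
    (hm.norm.pow_const 2).aestronglyMeasurable]
  refine ENNReal.ofReal_toReal_le.trans (le_of_eq ?_)
  refine lintegral_congr fun y => ?_
  rw [ENNReal.ofReal_pow (norm_nonneg _), ofReal_norm]

theorem four (c : ℝ) (hc : 0 < c) (T : ℝ) (hT : 0 < T) (G₁ G₂ : ℝ → ℂ) (h1 : Measurable G₁)
    (h2 : Measurable G₂) (b1 : ∀ a, ‖G₁ a‖ ≤ 1) (b2 : ∀ b, ‖G₂ b‖ ≤ 1) :
    ∫⁻ t in Icc T (2 * T), ∫⁻ ξ : ℝ × ℝ, ‖Eo c G₁ G₂ t ξ‖ₑ ^ 4 ≤
      Th c T (pd (da G₁) (da G₂)) := by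
  have hM : Measurable (pd (da G₁) (da G₂)) := by
    have e1 : Measurable (da G₁) := by
      unfold da
      exact (h1.comp measurable_snd).mul
        (Complex.continuous_conj.measurable.comp (h1.comp (by fun_prop)))
    have e2 : Measurable (da G₂) := by
      unfold da
      exact (h2.comp measurable_snd).mul
        (Complex.continuous_conj.measurable.comp (h2.comp (by fun_prop)))
    unfold pd
    exact (e1.comp (by fun_prop)).mul (e2.comp (by fun_prop))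
  have hH := f2_Hy_meas c hc hM
  have h3 : ∫⁻ t in Icc T (2 * T), ∫⁻ ξ : ℝ × ℝ, ‖Eo c G₁ G₂ t ξ‖ₑ ^ 4 ≤
      ∫⁻ t in Icc T (2 * T), ∫⁻ y : ℝ × ℝ, ENNReal.ofReal (chi (t / T)) *
        ‖Hy c (pd (da G₁) (da G₂)) y t‖ₑ ^ 2 := by
    refine setLIntegral_mono' measurableSet_Icc fun t ht => ?_
    have h4 : chi (t / T) = 1 := f2_chi_one _ (by rw [le_div_iff₀ hT]; linarith [ht.1])
      (by rw [div_le_iff₀ hT]; exact ht.2)
    simp only [h4, ENNReal.ofReal_one, one_mul]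
    exact f2_pl c hc G₁ G₂ h1 h2 b1 b2 t
  refine h3.trans ((setLIntegral_le_lintegral _ _).trans (le_of_eq ?_))
  unfold Th
  rw [lintegral_lintegral_swap]
  have e1 : Measurable fun p : ℝ × (ℝ × ℝ) => Hy c (pd (da G₁) (da G₂)) p.2 p.1 :=
    hH.comp (g := fun p : (ℝ × ℝ) × ℝ => Hy c (pd (da G₁) (da G₂)) p.1 p.2)
      (f := fun p : ℝ × (ℝ × ℝ) => (p.2, p.1)) (by fun_prop)
  have e2 : Measurable fun p : ℝ × (ℝ × ℝ) => ENNReal.ofReal (chi (p.1 / T)) :=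
    ENNReal.measurable_ofReal.comp (f2_chi_meas.comp (by fun_prop))
  exact (e2.mul (e1.enorm.pow_const 2)).aemeasurable

end Pool.Agent.SDT.N1

end -- N1.F2

section -- N1G.Q1

/-!
N1G, the quadratic family: phase `√Q`, `Q` a quadratic polynomial without mixed term.
-/

namespace Pool.Agent.SDT.N1G.Qf

open MeasureTheory Set Metric Pool.Agent.SDT.MP_6cbfb8_an Pool.Agent.SDT.MST Pool.Agent.SDT.N1 Pool.Agent.SDT.N1G
open scoped ENNReal Real ContDiff Topology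

/-- Parameters `((B₁, B₂), (τ, P), (g₁, g₂), (s, ρ))`. -/
abbrev PP : Type := (ℝ × ℝ) × (ℝ × ℝ) × (ℝ × ℝ) × (ℝ × ℝ)

/-- The quadratic polynomial under the root. -/
def Qqq (p : PP) (x : ℝ × ℝ) : ℝ :=
  p.2.1.2 + 2 * p.2.2.1.1 * x.1 + 2 * p.2.2.1.2 * x.2 -
    p.2.1.1 * (p.1.1 * x.1 ^ 2 + p.1.2 * x.2 ^ 2)

/-- First component of the rescaled difference. -/
def e1 (p : PP) (Y : ℝ) : ℝ := -(p.2.2.2.1 * p.2.2.1.2) + p.2.1.1 * Y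

/-- Second component of the rescaled difference. -/
def e2 (p : PP) (Y : ℝ) : ℝ := p.2.2.2.1 * p.2.2.1.1 + p.2.1.1 * Y

/-- The second point, first component. -/
def m1 (p : PP) (y a : ℝ) : ℝ := a - p.2.2.2.2 * e1 p y

/-- The second point, second component. -/
def m2 (p : PP) (y b : ℝ) : ℝ := b - p.2.2.2.2 * e2 p y

/-- The second point. -/
def xm (p : PP) (s : YX) : ℝ × ℝ := (m1 p s.1.1 s.2.1, m2 p s.1.2 s.2.2)

/-- The numerator of the phase. -/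
def nu (z : PP × YX) : ℝ :=
  2 * (z.1.2.2.1.1 * z.2.1.1 + z.1.2.2.1.2 * z.2.1.2) -
    z.1.1.1 * (z.2.2.1 + m1 z.1 z.2.1.1 z.2.2.1) * e1 z.1 z.2.1.1 -
    z.1.1.2 * (z.2.2.2 + m2 z.1 z.2.1.2 z.2.2.2) * e2 z.1 z.2.1.2

/-- The phase. -/
noncomputable def psi (z : PP × YX) : ℝ :=
  nu z / (√(Qqq z.1 z.2.2) + √(Qqq z.1 (xm z.1 z.2)))

/-- Half of the first derivative of `Q`. -/
def G1 (p : PP) (a : ℝ) : ℝ := p.2.2.1.1 - p.2.1.1 * p.1.1 * a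

/-- The part of the discriminant which depends on the second coordinate. -/
def D1 (p : PP) (b : ℝ) : ℝ := p.2.2.1.1 ^ 2 +
  p.2.1.1 * p.1.1 * (p.2.1.2 + 2 * p.2.2.1.2 * b - p.2.1.1 * p.1.2 * b ^ 2)

/-- The positive factor. -/
noncomputable def ll (z : PP × YX) : ℝ :=
  G1 z.1 (m1 z.1 z.2.1.1 z.2.2.1) ^ 2 * D1 z.1 (m2 z.1 z.2.1.2 z.2.2.2) /
    (z.1.2.2.1.1 * (G1 z.1 z.2.2.1 * √(Qqq z.1 (xm z.1 z.2)) +
        G1 z.1 (m1 z.1 z.2.1.1 z.2.2.1) * √(Qqq z.1 z.2.2)) *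
      (√(Qqq z.1 z.2.2) * √(Qqq z.1 (xm z.1 z.2))))

/-- The dependence on `a` of the first separated function. -/
noncomputable def oo (z : PP × ℝ × ℝ) : ℝ :=
  e1 z.1 z.2.1 * (-(z.1.2.2.1.1 * (z.2.2 + m1 z.1 z.2.1 z.2.2)) +
    2 * m1 z.1 z.2.1 z.2.2 *
      (2 * z.1.2.2.1.1 - z.1.2.1.1 * z.1.1.1 * m1 z.1 z.2.1 z.2.2)) /
    G1 z.1 (m1 z.1 z.2.1 z.2.2) ^ 2

/-- The second separated function. -/
noncomputable def ss (z : PP × ℝ × ℝ) : ℝ :=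
  (-(2 * z.1.2.2.1.1 * z.1.2.2.1.2 * z.2.1) +
    z.1.1.2 * z.1.2.2.1.1 * e2 z.1 z.2.1 * (z.2.2 + m2 z.1 z.2.1 z.2.2) +
    2 * z.1.2.2.2.1 * z.1.2.2.1.2 * z.1.1.1 *
      (z.1.2.1.2 + 2 * z.1.2.2.1.2 * m2 z.1 z.2.1 z.2.2 -
        z.1.2.1.1 * z.1.1.2 * m2 z.1 z.2.1 z.2.2 ^ 2)) / D1 z.1 (m2 z.1 z.2.1 z.2.2)

/-- The quadratic family with amplitude `W`. -/
noncomputable def fam (W : PP × YX → ℝ) : Fam PP where
  ψ := psi
  W := W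
  l := ll
  o0 := fun z => 2 * z.2
  o1 := oo
  s := ss
  μ := fun p => p.1.1

/-- The algebraic identity behind the factorisation. -/
theorem cert1 (B1 B2 τ P g1 g2 s ρ Y1 Y2 X1 X2 η1 η2 x1 x2 G G' D Q Q' n : ℝ)
    (h1 : η1 = -(s * g2) + τ * Y1) (h2 : η2 = s * g1 + τ * Y2)
    (hx1 : x1 = X1 - ρ * η1) (hx2 : x2 = X2 - ρ * η2)
    (hG : G = g1 - τ * B1 * X1) (hG' : G' = g1 - τ * B1 * x1)
    (hD : D = g1 ^ 2 + τ * B1 * (P + 2 * g2 * x2 - τ * B2 * x2 ^ 2))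
    (hQ : Q = P + 2 * g1 * X1 + 2 * g2 * X2 - τ * (B1 * X1 ^ 2 + B2 * X2 ^ 2))
    (hQ' : Q' = P + 2 * g1 * x1 + 2 * g2 * x2 - τ * (B1 * x1 ^ 2 + B2 * x2 ^ 2))
    (hn : n = 2 * (g1 * Y1 + g2 * Y2) - B1 * (X1 + x1) * η1 - B2 * (X2 + x2) * η2) :
    D * (2 * Y1 * G' ^ 2 + B1 * (η1 * (-(g1 * (X1 + x1)) + 2 * x1 * (2 * g1 - τ * B1 * x1)))) -
      G' ^ 2 * (-(2 * g1 * g2 * Y2) + B2 * g1 * η2 * (X2 + x2) +
        2 * s * g2 * B1 * (P + 2 * g2 * x2 - τ * B2 * x2 ^ 2)) =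
      g1 * (B1 * η1 * (G * Q' + G' * Q) + G * G' * n) := by
  subst h1 h2 hx1 hx2 hG hG' hD hQ hQ' hn
  ring

theorem cert2 (b n G G' q q' k : ℝ) (hq : 0 < q) (hq' : 0 < q') (hE : G * q' + G' * q ≠ 0)
    (h1 : q ^ 2 - q' ^ 2 = k * n) (h2 : G' - G = k * b) :
    (-(2 * b) * (q + q') - n * (G / q + G' / q')) / (q + q') ^ 2 =
      -((b * (G * q' ^ 2 + G' * q ^ 2) + G * G' * n) / ((G * q' + G' * q) * (q * q'))) := by
  have hS : q + q' ≠ 0 := (add_pos hq hq').ne'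
  have e : (2 * b * (q * q') * (q + q') + n * (G * q' + G' * q)) * (G * q' + G' * q) =
      (b * (G * q' ^ 2 + G' * q ^ 2) + G * G' * n) * (q + q') ^ 2 := by
    have hk : b * (q ^ 2 - q' ^ 2) = n * (G' - G) := by rw [h1, h2]; ring
    linear_combination (G * q' ^ 2 - G' * q ^ 2) * hk
  have e' : (-(2 * b) * (q + q') - n * (G / q + G' / q')) / (q + q') ^ 2 =
      -((2 * b * (q * q') * (q + q') + n * (G * q' + G' * q)) / ((q * q') * (q + q') ^ 2)) := by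
    field_simp
    ring
  rw [e', neg_inj, div_eq_div_iff (by positivity) (mul_ne_zero hE (by positivity))]
  linear_combination (q * q') * e

theorem hd_Qa (p : PP) (a b : ℝ) :
    HasDerivAt (fun a => Qqq p (a, b)) (2 * G1 p a) a := by
  unfold Qqq G1
  have h := ((((hasDerivAt_id a).const_mul (2 * p.2.2.1.1)).const_add p.2.1.2).add_const
    (2 * p.2.2.1.2 * b)).sub (((((hasDerivAt_id a).fun_pow 2).const_mul p.1.1).add_const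
    (p.1.2 * b ^ 2)).const_mul p.2.1.1)
  refine HasDerivAt.congr_deriv h ?_
  simp
  ring

theorem hd_sQ (p : PP) (a b : ℝ) (h : 0 < Qqq p (a, b)) :
    HasDerivAt (fun a => √(Qqq p (a, b))) (G1 p a / √(Qqq p (a, b))) a := by
  have h1 := (hd_Qa p a b).sqrt h.ne'
  refine HasDerivAt.congr_deriv h1 ?_
  rw [mul_div_mul_left _ _ two_ne_zero]

theorem hd_sQ' (p : PP) (y : ℝ × ℝ) (a b : ℝ) (h : 0 < Qqq p (xm p (y, (a, b)))) :
    HasDerivAt (fun a => √(Qqq p (xm p (y, (a, b)))))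
      (G1 p (m1 p y.1 a) / √(Qqq p (xm p (y, (a, b))))) a := by
  have h1 := (hd_sQ p (m1 p y.1 a) (m2 p y.2 b) h).comp a
    ((hasDerivAt_id a).sub_const (p.2.2.2.2 * e1 p y.1))
  rw [mul_one] at h1
  exact h1

theorem hd_nu (p : PP) (y : ℝ × ℝ) (a b : ℝ) :
    HasDerivAt (fun a => nu (p, (y, (a, b)))) (-(2 * (p.1.1 * e1 p y.1))) a := by
  unfold nu
  have h := ((((hasDerivAt_id a).add ((hasDerivAt_id a).sub_const
    (p.2.2.2.2 * e1 p y.1))).const_mul p.1.1).mul_const (e1 p y.1)).const_sub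
    (2 * (p.2.2.1.1 * y.1 + p.2.2.1.2 * y.2))
  have h' := h.sub_const (p.1.2 * (b + m2 p y.2 b) * e2 p y.2)
  refine HasDerivAt.congr_deriv h' ?_
  ring

theorem sq_sub (p : PP) (s : YX) : Qqq p s.2 - Qqq p (xm p s) =
    p.2.1.1 * p.2.2.2.2 * nu (p, s) := by
  unfold Qqq xm nu m1 m2 e1 e2
  ring

theorem G_sub (p : PP) (y a : ℝ) : G1 p (m1 p y a) - G1 p a =
    p.2.1.1 * p.2.2.2.2 * (p.1.1 * e1 p y) := by
  unfold G1 m1
  ring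

/-- The factorisation of the first derivative. -/
theorem dpsi (W : PP × YX → ℝ) (p : PP) (s : YX) (hQ : 0 < Qqq p s.2) (hQ' : 0 < Qqq p (xm p s))
    (hg : p.2.2.1.1 ≠ 0)
    (hE : G1 p s.2.1 * √(Qqq p (xm p s)) + G1 p (m1 p s.1.1 s.2.1) * √(Qqq p s.2) ≠ 0)
    (hG : G1 p (m1 p s.1.1 s.2.1) ≠ 0) (hD : D1 p (m2 p s.1.2 s.2.2) ≠ 0) :
    HasDerivAt (fun a => psi (p, (s.1, (a, s.2.2)))) (-(ll (p, s) * (fam W).N p s)) s.2.1 := by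
  obtain ⟨y, a, b⟩ := s
  simp only at *
  have hq : 0 < √(Qqq p (a, b)) := Real.sqrt_pos.2 hQ
  have hq' : 0 < √(Qqq p (xm p (y, (a, b)))) := Real.sqrt_pos.2 hQ'
  have h := (hd_nu p y a b).div ((hd_sQ p a b hQ).add (hd_sQ' p y a b hQ'))
    (add_pos hq hq').ne'
  refine HasDerivAt.congr_deriv h ?_
  have c2 := cert2 (p.1.1 * e1 p y.1) (nu (p, (y, (a, b)))) (G1 p a) (G1 p (m1 p y.1 a))
    (√(Qqq p (a, b))) (√(Qqq p (xm p (y, (a, b))))) (p.2.1.1 * p.2.2.2.2) hq hq' hE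
    (by rw [Real.sq_sqrt hQ.le, Real.sq_sqrt hQ'.le]; exact sq_sub p (y, (a, b)))
    (G_sub p y.1 a)
  simp only [Pi.add_apply]
  rw [show (-(2 * (p.1.1 * e1 p y.1)) * (√(Qqq p (a, b)) + √(Qqq p (xm p (y, (a, b))))) -
      nu (p, (y, (a, b))) * (G1 p a / √(Qqq p (a, b)) +
        G1 p (m1 p y.1 a) / √(Qqq p (xm p (y, (a, b)))))) /
      (√(Qqq p (a, b)) + √(Qqq p (xm p (y, (a, b))))) ^ 2 = _ from c2, neg_inj,
    Real.sq_sqrt hQ.le, Real.sq_sqrt hQ'.le]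
  have c1 := cert1 p.1.1 p.1.2 p.2.1.1 p.2.1.2 p.2.2.1.1 p.2.2.1.2 p.2.2.2.1 p.2.2.2.2 y.1 y.2 a b
    (e1 p y.1) (e2 p y.2) (m1 p y.1 a) (m2 p y.2 b) (G1 p a) (G1 p (m1 p y.1 a))
    (D1 p (m2 p y.2 b)) (Qqq p (a, b)) (Qqq p (xm p (y, (a, b)))) (nu (p, (y, (a, b)))) rfl rfl rfl
    rfl rfl rfl rfl rfl rfl rfl
  have eN : (fam W).N p (y, (a, b)) * (G1 p (m1 p y.1 a) ^ 2 * D1 p (m2 p y.2 b)) =
      p.2.2.1.1 * (p.1.1 * e1 p y.1 * (G1 p a * Qqq p (xm p (y, (a, b))) +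
        G1 p (m1 p y.1 a) * Qqq p (a, b)) + G1 p a * G1 p (m1 p y.1 a) * nu (p, (y, (a, b)))) := by
    rw [← c1]
    simp only [Fam.N, nn, Fam.om, Fam.sg, fam, oo, ss]
    field_simp
  rw [ll]
  simp only
  rw [div_mul_eq_mul_div, mul_comm (G1 p (m1 p y.1 a) ^ 2 * D1 p (m2 p y.2 b)), eN, mul_assoc
    p.2.2.1.1 (G1 p a * _ + _) _]
  rw [mul_div_mul_left _ _ hg]

end Pool.Agent.SDT.N1G.Qf

end -- N1G.Q1
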