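import Pool.Agent.SDT.B08

set_option autoImplicit false

namespace Pool.Agent.SDT.MP_6cbfb8_an
end Pool.Agent.SDT.MP_6cbfb8_an
namespace Pool.Agent.SDT.MST
end Pool.Agent.SDT.MST
namespace Pool.Agent.SDT.N1
end Pool.Agent.SDT.N1
namespace Pool.Agent.SDT.N1F
end Pool.Agent.SDT.N1F
namespace Pool.Agent.SDT.N1G
end Pool.Agent.SDT.N1G

section -- N1.GA

/-!
N1, block G: the divided rectangle phase.
-/

namespace Pool.Agent.SDT.N1

open MeasureTheory Set Metric Pool.Agent.SDT.MP_6cbfb8_an Pool.Agent.SDT.MST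
open scoped ENNReal Real ContDiff Topology

/-- The coefficient `ℓ`. -/
noncomputable def el (c ρ y₁ a y₂ b : ℝ) : ℝ :=
  (a - ρ * y₁) ^ 2 * (1 - (b - ρ * y₂) ^ 2) / (qf c a b * qf c (a - ρ * y₁) (b - ρ * y₂) *
    (a * qf c (a - ρ * y₁) (b - ρ * y₂) + (a - ρ * y₁) * qf c a b))

/-- The scaled rectangle phase, with the midpoint in the `z` direction. -/
noncomputable def Ph (c ρ γ : ℝ) (a b : V) : ℝ :=
  Fr c (ρ * a.1, a.2.1 + γ * a.2.2 / 2, γ * a.2.2) (ρ * b.1, b.2.1 + γ * b.2.2 / 2, γ * b.2.2)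

lemma Ph_smooth (c : ℝ) (hc : 0 < c) :
    ContDiff ℝ ∞ fun p : ℝ × (ℝ × V × V) => Ph c p.1 p.2.1 p.2.2.1 p.2.2.2 := by
  have h := (Fr_smooth c hc).comp (f := fun p : ℝ × (ℝ × V × V) =>
    (((p.1 * p.2.2.1.1, p.2.2.1.2.1 + p.2.1 * p.2.2.1.2.2 / 2, p.2.1 * p.2.2.1.2.2) : V),
      ((p.1 * p.2.2.2.1, p.2.2.2.2.1 + p.2.1 * p.2.2.2.2.2 / 2, p.2.1 * p.2.2.2.2.2) : V)))
    (by fun_prop)
  exact h

lemma Ph_zero (c γ : ℝ) (a b : V) : Ph c 0 γ a b = 0 := by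
  unfold Ph Fr
  simp only [zero_mul, sub_zero]
  ring

lemma Ph_zero' (c ρ : ℝ) (a b : V) : Ph c ρ 0 a b = 0 := by
  unfold Ph Fr
  simp only [zero_mul, sub_zero, zero_div, add_zero]
  ring

lemma Ph_odd (c ρ γ : ℝ) (a b : V) : Ph c ρ (-γ) a b = -Ph c ρ γ a b := by
  unfold Ph Fr
  simp only
  rw [show a.2.1 + -γ * a.2.2 / 2 - -γ * a.2.2 = a.2.1 + γ * a.2.2 / 2 by ring,
    show b.2.1 + -γ * b.2.2 / 2 - -γ * b.2.2 = b.2.1 + γ * b.2.2 / 2 by ring,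
    show a.2.1 + γ * a.2.2 / 2 - γ * a.2.2 = a.2.1 + -γ * a.2.2 / 2 by ring,
    show b.2.1 + γ * b.2.2 / 2 - γ * b.2.2 = b.2.1 + -γ * b.2.2 / 2 by ring,
    show a.2.1 + -γ * a.2.2 / 2 - ρ * a.1 - -γ * a.2.2 = a.2.1 + γ * a.2.2 / 2 - ρ * a.1 by ring,
    show b.2.1 + -γ * b.2.2 / 2 - ρ * b.1 - -γ * b.2.2 = b.2.1 + γ * b.2.2 / 2 - ρ * b.1 by ring,
    show a.2.1 + γ * a.2.2 / 2 - ρ * a.1 - γ * a.2.2 = a.2.1 + -γ * a.2.2 / 2 - ρ * a.1 by ring,
    show b.2.1 + γ * b.2.2 / 2 - ρ * b.1 - γ * b.2.2 = b.2.1 + -γ * b.2.2 / 2 - ρ * b.1 by ring]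
  ring

/-- Two continuous functions of one real variable that agree away from `0` agree. -/
lemma g_ext {f g : ℝ → ℝ} (hf : ContinuousAt f 0) (hg : ContinuousAt g 0)
    (h : ∀ᶠ x in 𝓝[≠] (0 : ℝ), f x = g x) : f 0 = g 0 := by
  have h1 : Filter.Tendsto f (𝓝[≠] (0 : ℝ)) (𝓝 (f 0)) := hf.tendsto.mono_left nhdsWithin_le_nhds
  have h2 : Filter.Tendsto g (𝓝[≠] (0 : ℝ)) (𝓝 (g 0)) := hg.tendsto.mono_left nhdsWithin_le_nhds
  exact tendsto_nhds_unique (h1.congr' h) h2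

theorem Gfun (c : ℝ) (hc : 0 < c) : ∃ G k : ℝ × (ℝ × V × V) → ℝ, ContDiff ℝ ∞ G ∧
    ContDiff ℝ ∞ k ∧ (∀ γ ρ a b, Ph c ρ γ a b = ρ * γ * G (γ, (ρ, a, b))) ∧
    ∀ γ ρ a b, G (γ, (ρ, a, b)) = G (0, (ρ, a, b)) + γ ^ 2 * k (γ, (ρ, a, b)) := by
  obtain ⟨F1, hF1, h1⟩ := hadamard (fun p : ℝ × (ℝ × V × V) => Ph c p.1 p.2.1 p.2.2.1 p.2.2.2)
    (Ph_smooth c hc) (fun q => Ph_zero c _ _ _)
  simp only at h1
  have hF1' : ContDiff ℝ ∞ fun p : ℝ × (ℝ × V × V) => F1 (p.2.1, (p.1, p.2.2.1, p.2.2.2)) :=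
    hF1.comp (f := fun p : ℝ × (ℝ × V × V) => (p.2.1, (p.1, p.2.2.1, p.2.2.2))) (by fun_prop)
  obtain ⟨G, hG, h2⟩ := hadamard (fun p : ℝ × (ℝ × V × V) => F1 (p.2.1, (p.1, p.2.2.1, p.2.2.2)))
    hF1' (by
      rintro ⟨ρ, a, b⟩
      simp only
      by_cases hρ : ρ = 0
      · subst hρ
        refine g_ext (f := fun ρ => F1 (ρ, (0, a, b))) (g := fun _ => 0) ?_ continuousAt_const ?_
        · exact (hF1.continuous.comp (by fun_prop)).continuousAt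
        · filter_upwards [self_mem_nhdsWithin] with ρ hρ
          have h3 := h1 ρ (0, a, b)
          simp only [Ph_zero'] at h3
          rcases mul_eq_zero.1 h3.symm with h4 | h4
          · exact absurd h4 hρ
          · exact h4
      · have h3 := h1 ρ (0, a, b)
        simp only [Ph_zero'] at h3
        rcases mul_eq_zero.1 h3.symm with h4 | h4
        · exact absurd h4 hρ
        · exact h4)
  simp only at h2
  have key : ∀ γ ρ a b, Ph c ρ γ a b = ρ * γ * G (γ, (ρ, a, b)) := by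
    intro γ ρ a b
    have h3 := h1 ρ (γ, a, b)
    have h4 := h2 γ (ρ, a, b)
    simp only at h3 h4
    rw [h3, h4]
    ring
  obtain ⟨k, hk, h5⟩ := hadamard_even G hG (by
    rintro γ ⟨ρ, a, b⟩
    have h6 : ∀ ρ : ℝ, ρ ≠ 0 → G (-γ, (ρ, a, b)) = G (γ, (ρ, a, b)) := by
      intro ρ hρ
      by_cases hγ : γ = 0
      · rw [hγ, neg_zero]
      · have h7 := key γ ρ a b
        have h8 := key (-γ) ρ a b
        rw [Ph_odd, h7] at h8
        have h9 : ρ * γ ≠ 0 := mul_ne_zero hρ hγ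
        apply mul_left_cancel₀ h9
        linarith
    by_cases hρ : ρ = 0
    · subst hρ
      refine g_ext (f := fun ρ => G (-γ, (ρ, a, b))) (g := fun ρ => G (γ, (ρ, a, b))) ?_ ?_ ?_
      · exact (hG.continuous.comp (by fun_prop)).continuousAt
      · exact (hG.continuous.comp (by fun_prop)).continuousAt
      · filter_upwards [self_mem_nhdsWithin] with ρ hρ
        exact h6 ρ hρ
    · exact h6 ρ hρ)
  exact ⟨G, k, hG, hk, key, fun γ ρ a b => h5 γ (ρ, a, b)⟩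

end Pool.Agent.SDT.N1

end -- N1.GA

section -- N1F.P1a

/-!
N1F, Proposition I: the second differences of `√(1 - u - s)` in divided form.
-/

namespace Pool.Agent.SDT.N1F

open MeasureTheory Set Metric Pool.Agent.SDT.MP_6cbfb8_an Pool.Agent.SDT.MST Pool.Agent.SDT.N1
open scoped ENNReal Real ContDiff

/-- The height function in the squared coordinates. -/
noncomputable def Qs (c u s : ℝ) : ℝ := Sq c (1 - u - s)

/-- The pure second difference, divided. -/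
noncomputable def E1 (c A x1 x2 x3 x4 s : ℝ) : ℝ :=
  (A * (x1 + x2) * ((x1 + x3) / (Qs c (A * x1 ^ 2) s + Qs c (A * x3 ^ 2) s) +
      (x2 + x4) / (Qs c (A * x2 ^ 2) s + Qs c (A * x4 ^ 2) s)) +
    2 * (Qs c (A * x1 ^ 2) s + Qs c (A * x2 ^ 2) s)) /
  ((Qs c (A * x1 ^ 2) s + Qs c (A * x2 ^ 2) s) * (Qs c (A * x3 ^ 2) s + Qs c (A * x4 ^ 2) s))

/-- The mixed second difference, divided. -/
noncomputable def E3 (c A B x x' w w' : ℝ) : ℝ :=
  (x + x') * (w + w') * (1 / (Qs c (A * x ^ 2) (B * w ^ 2) + Qs c (A * x ^ 2) (B * w' ^ 2)) +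
    1 / (Qs c (A * x' ^ 2) (B * w ^ 2) + Qs c (A * x' ^ 2) (B * w' ^ 2))) /
  ((Qs c (A * x ^ 2) (B * w ^ 2) + Qs c (A * x' ^ 2) (B * w ^ 2)) *
    (Qs c (A * x ^ 2) (B * w' ^ 2) + Qs c (A * x' ^ 2) (B * w' ^ 2)))

lemma Qs_comm (c u s : ℝ) : Qs c u s = Qs c s u := by
  unfold Qs
  congr 1
  ring

lemma Qs_sq (c : ℝ) (hc : 0 < c) (u s : ℝ) (h : c ^ 2 / 8 ≤ 1 - u - s) :
    Qs c u s ^ 2 = 1 - u - s := by
  unfold Qs
  rw [Sq_eq c hc _ h, Real.sq_sqrt (le_trans (by positivity) h)]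

lemma Qs_pos (c : ℝ) (hc : 0 < c) (u s : ℝ) (h : c ^ 2 / 8 ≤ 1 - u - s) : 0 < Qs c u s := by
  unfold Qs
  rw [Sq_eq c hc _ h]
  exact Real.sqrt_pos.2 (lt_of_lt_of_le (by positivity) h)

lemma Qs_zero (c : ℝ) (hc : 0 < c) (hc2 : c ^ 2 / 8 ≤ 1) : Qs c 0 0 = 1 := by
  unfold Qs
  rw [sub_zero, sub_zero, Sq_eq c hc _ hc2, Real.sqrt_one]

lemma Qs_mul (c : ℝ) (hc : 0 < c) (u s : ℝ) (h : c ^ 2 / 8 ≤ 1 - u - s) :
    Qs c u s * Qs c u s = 1 - u - s := by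
  rw [← sq]
  exact Qs_sq c hc u s h

/-- The pure second difference. -/
lemma E1_id (c : ℝ) (hc : 0 < c) (A x1 r g s : ℝ)
    (h1 : c ^ 2 / 8 ≤ 1 - A * x1 ^ 2 - s) (h2 : c ^ 2 / 8 ≤ 1 - A * (x1 - r) ^ 2 - s)
    (h3 : c ^ 2 / 8 ≤ 1 - A * (x1 - g) ^ 2 - s) (h4 : c ^ 2 / 8 ≤ 1 - A * (x1 - r - g) ^ 2 - s) :
    Qs c (A * x1 ^ 2) s - Qs c (A * (x1 - r) ^ 2) s - Qs c (A * (x1 - g) ^ 2) s +
      Qs c (A * (x1 - r - g) ^ 2) s =
      -(A * r * g * E1 c A x1 (x1 - r) (x1 - g) (x1 - r - g) s) := by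
  unfold E1
  have p1 := Qs_pos c hc _ _ h1
  have p2 := Qs_pos c hc _ _ h2
  have p3 := Qs_pos c hc _ _ h3
  have p4 := Qs_pos c hc _ _ h4
  have q1 := Qs_sq c hc _ _ h1
  have q2 := Qs_sq c hc _ _ h2
  have q3 := Qs_sq c hc _ _ h3
  have q4 := Qs_sq c hc _ _ h4
  set Q1 := Qs c (A * x1 ^ 2) s
  set Q2 := Qs c (A * (x1 - r) ^ 2) s
  set Q3 := Qs c (A * (x1 - g) ^ 2) s
  set Q4 := Qs c (A * (x1 - r - g) ^ 2) s
  have e12 : (Q1 - Q2) * (Q1 + Q2) = -(A * r * (x1 + (x1 - r))) := by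
    linear_combination q1 - q2
  have e34 : (Q3 - Q4) * (Q3 + Q4) = -(A * r * ((x1 - g) + (x1 - r - g))) := by
    linear_combination q3 - q4
  have e31 : (Q3 - Q1) * (Q1 + Q3) = A * g * (x1 + (x1 - g)) := by
    linear_combination q3 - q1
  have e42 : (Q4 - Q2) * (Q2 + Q4) = A * g * ((x1 - r) + (x1 - r - g)) := by
    linear_combination q4 - q2
  have d12 : Q1 - Q2 = -(A * r * (x1 + (x1 - r))) / (Q1 + Q2) := by
    rw [eq_div_iff (by positivity)]; exact e12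
  have d34 : Q3 - Q4 = -(A * r * ((x1 - g) + (x1 - r - g))) / (Q3 + Q4) := by
    rw [eq_div_iff (by positivity)]; exact e34
  have d31 : A * g * ((x1 + (x1 - g)) / (Q1 + Q3)) = Q3 - Q1 := by
    rw [← mul_div_assoc, div_eq_iff (by positivity)]; exact e31.symm
  have d42 : A * g * (((x1 - r) + (x1 - r - g)) / (Q2 + Q4)) = Q4 - Q2 := by
    rw [← mul_div_assoc, div_eq_iff (by positivity)]; exact e42.symm
  have l1 : Q1 - Q2 - Q3 + Q4 = (Q1 - Q2) - (Q3 - Q4) := by ring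
  have l2 : A * r * g * ((A * (x1 + (x1 - r)) * ((x1 + (x1 - g)) / (Q1 + Q3) +
      (x1 - r + (x1 - r - g)) / (Q2 + Q4)) + 2 * (Q1 + Q2)) / ((Q1 + Q2) * (Q3 + Q4))) =
      A * r * ((x1 + (x1 - r)) * (A * g * ((x1 + (x1 - g)) / (Q1 + Q3)) +
        A * g * (((x1 - r) + (x1 - r - g)) / (Q2 + Q4))) + 2 * g * (Q1 + Q2)) /
        ((Q1 + Q2) * (Q3 + Q4)) := by
    ring
  rw [l1, d12, d34, l2, d31, d42]
  field_simp
  ring

/-- The mixed second difference. -/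
lemma E3_id (c : ℝ) (hc : 0 < c) (A B x r w g : ℝ)
    (h1 : c ^ 2 / 8 ≤ 1 - A * x ^ 2 - B * w ^ 2)
    (h2 : c ^ 2 / 8 ≤ 1 - A * (x - r) ^ 2 - B * w ^ 2)
    (h3 : c ^ 2 / 8 ≤ 1 - A * x ^ 2 - B * (w - g) ^ 2)
    (h4 : c ^ 2 / 8 ≤ 1 - A * (x - r) ^ 2 - B * (w - g) ^ 2) :
    Qs c (A * x ^ 2) (B * w ^ 2) - Qs c (A * (x - r) ^ 2) (B * w ^ 2) -
      Qs c (A * x ^ 2) (B * (w - g) ^ 2) + Qs c (A * (x - r) ^ 2) (B * (w - g) ^ 2) =
      -(A * B * r * g * E3 c A B x (x - r) w (w - g)) := by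
  unfold E3
  have p1 := Qs_pos c hc _ _ h1
  have p2 := Qs_pos c hc _ _ h2
  have p3 := Qs_pos c hc _ _ h3
  have p4 := Qs_pos c hc _ _ h4
  have q1 := Qs_sq c hc _ _ h1
  have q2 := Qs_sq c hc _ _ h2
  have q3 := Qs_sq c hc _ _ h3
  have q4 := Qs_sq c hc _ _ h4
  set Q1 := Qs c (A * x ^ 2) (B * w ^ 2)
  set Q2 := Qs c (A * (x - r) ^ 2) (B * w ^ 2)
  set Q3 := Qs c (A * x ^ 2) (B * (w - g) ^ 2)
  set Q4 := Qs c (A * (x - r) ^ 2) (B * (w - g) ^ 2)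
  have e12 : (Q1 - Q2) * (Q1 + Q2) = -(A * r * (x + (x - r))) := by
    linear_combination q1 - q2
  have e34 : (Q3 - Q4) * (Q3 + Q4) = -(A * r * (x + (x - r))) := by
    linear_combination q3 - q4
  have e31 : (Q3 - Q1) * (Q1 + Q3) = B * g * (w + (w - g)) := by
    linear_combination q3 - q1
  have e42 : (Q4 - Q2) * (Q2 + Q4) = B * g * (w + (w - g)) := by
    linear_combination q4 - q2
  have d12 : Q1 - Q2 = -(A * r * (x + (x - r))) / (Q1 + Q2) := by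
    rw [eq_div_iff (by positivity)]; exact e12
  have d34 : Q3 - Q4 = -(A * r * (x + (x - r))) / (Q3 + Q4) := by
    rw [eq_div_iff (by positivity)]; exact e34
  have d31 : B * g * (w + (w - g)) * (1 / (Q1 + Q3)) = Q3 - Q1 := by
    rw [mul_one_div, div_eq_iff (by positivity)]; exact e31.symm
  have d42 : B * g * (w + (w - g)) * (1 / (Q2 + Q4)) = Q4 - Q2 := by
    rw [mul_one_div, div_eq_iff (by positivity)]; exact e42.symm
  have l1 : Q1 - Q2 - Q3 + Q4 = (Q1 - Q2) - (Q3 - Q4) := by ring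
  have l2 : A * B * r * g * ((x + (x - r)) * (w + (w - g)) * (1 / (Q1 + Q3) + 1 / (Q2 + Q4)) /
      ((Q1 + Q2) * (Q3 + Q4))) =
      A * r * (x + (x - r)) * (B * g * (w + (w - g)) * (1 / (Q1 + Q3)) +
        B * g * (w + (w - g)) * (1 / (Q2 + Q4))) / ((Q1 + Q2) * (Q3 + Q4)) := by
    ring
  rw [l1, d12, d34, l2, d31, d42]
  field_simp
  ring

end Pool.Agent.SDT.N1F

end -- N1F.P1a

section -- N1M.Defs

/-!
N1M: the corner of the sphere near `e₂`, `x₁ = M a`, `x₂ = 1 - M² r`, `x₃ = M q`, `m = M ^ 2`,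
`q ^ 2 = h - a ^ 2`, `h = 2 r - m r ^ 2`. Definitions.
-/

namespace Pool.Agent.SDT.N1M

open MeasureTheory Set Metric Pool.Agent.SDT.MP_6cbfb8_an Pool.Agent.SDT.MST Pool.Agent.SDT.N1
open Pool.Agent.SDT.N1F Pool.Agent.SDT.N1G
open scoped ENNReal Real ContDiff

/-- `h = 2 r - m r²`. -/
noncomputable def hm (m r : ℝ) : ℝ := 2 * r - m * r ^ 2

/-- `β = 1 - m r`; `β ^ 2 = 1 - m h`. -/
noncomputable def bm (m r : ℝ) : ℝ := 1 - m * r

/-- The point phase; `x = (a, r)`. -/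
noncomputable def qm (c m : ℝ) (x : ℝ × ℝ) : ℝ := Sq c (hm m x.2 - x.1 ^ 2)

/-- The point amplitude (cut off at `r ≤ 8`, which is never felt). -/
noncomputable def wm (c m : ℝ) (x : ℝ × ℝ) : ℝ :=
  if 0 ≤ x.2 ∧ x.2 ≤ 8 then sma c (hm m x.2 - x.1 ^ 2) else 0

/-- The form. -/
noncomputable def FM (c m T : ℝ) (M : V × V → ℂ) : ℂ := FFg (dif (qm c m)) (dam (wm c m)) T M

/-- The positive form. -/
noncomputable def TM (c m T : ℝ) (M : YX → ℂ) : ℝ≥0∞ := Thg (dif (qm c m)) (dam (wm c m)) T M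

/-- The phase of a rectangle; first coordinate `a`, second `r`. -/
noncomputable def FrM (c m : ℝ) (q : V × V) : ℝ := Fg (dif (qm c m)) q

/-- Admissible values of `r`: `1 / 4 ≤ h`, `r ≤ 4`, `β ≥ 1 / 2`. -/
def Rg (m r : ℝ) : Prop := 0 < r ∧ r ≤ 4 ∧ 1 / 4 ≤ hm m r ∧ 1 / 2 ≤ bm m r

/-- Base points `x0 = (a, r)`. -/
def Bm (m0 : ℝ) (x0 : ℝ × ℝ) : Prop := 0 ≤ m0 ∧ m0 ≤ 1 ∧ 0 < x0.1 ∧ Rg m0 x0.2

/-- Sizes near the base point (`al → 0`, `m → m0`). -/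
def Sm (al m m0 δ : ℝ) : Prop := 0 < al ∧ al < δ ∧ 0 ≤ m ∧ m ≤ 1 ∧ |m - m0| < δ

/-- Support of a family `β (y, r)` in a cap. -/
def CapR (m r x s K : ℝ) (β : ℝ × ℝ → ℂ) : Prop :=
  ∀ p, β p ≠ 0 → Rg m p.2 ∧ Rg m (p.2 - p.1) ∧ |p.2 - x| ≤ r ∧ |p.2 - p.1 - x| ≤ r ∧
    1 / K ≤ |p.1 / s| ∧ |p.1 / s| ≤ K

/-- Support of `G (r)` in a cap. -/
def CapH (m r x : ℝ) (G : ℝ → ℂ) : Prop := ∀ a, G a ≠ 0 → Rg m a ∧ |a - x| ≤ r

/-- A block in the coordinate `r`: `v = (y, r, z)`. -/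
def GR (m sy sz K : ℝ) (v : V) : Prop :=
  (1 / K ≤ |v.1 / sy| ∧ |v.1 / sy| ≤ K) ∧ Rg m v.2.1 ∧ (1 / K ≤ |v.2.2 / sz| ∧ |v.2.2 / sz| ≤ K)

/-! ### Type N: first coordinate `a`, `y = (al ρ Y₁, ρ Y₂)`, `x = (al X₁, r)`, `z = (al Z₁, z₂)`. -/

/-- Normalised pair phase, type N. -/
noncomputable def phN (c m al ρ : ℝ) (p : YX) : ℝ :=
  dif (qm c m) ((al * ρ * p.1.1, ρ * p.1.2), (al * p.2.1, p.2.2)) / ρ

/-- Normalised pair amplitude, type N. -/
noncomputable def waN (c m al ρ : ℝ) (p : YX) : ℝ :=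
  dam (wm c m) ((al * ρ * p.1.1, ρ * p.1.2), (al * p.2.1, p.2.2))

/-- First separated function, type N: `(X² / (X - ρ Y)² - 1) / ρ`. -/
noncomputable def omN (ρ : ℝ) (u : ℝ × ℝ) : ℝ := u.1 * (2 * u.2 - ρ * u.1) / (u.2 - ρ * u.1) ^ 2

/-- Second separated function, type N: `(h (r) / h (r - ρ Y) - 1) / ρ`. -/
noncomputable def sgN (m ρ : ℝ) (v : ℝ × ℝ) : ℝ :=
  v.1 * (2 - m * (2 * v.2 - ρ * v.1)) / hm m (v.2 - ρ * v.1)

/-! ### Type N': first coordinate `r`, `y = (al² ρ Y₁, al ρ Y₂)`, `x = (r, al X₂)`,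
`z = (z₁, al Z₂)`. -/

/-- Normalised pair phase, type N'. -/
noncomputable def phP (c m al ρ : ℝ) (p : YX) : ℝ :=
  dif (qm c m) ((al * ρ * p.1.2, al ^ 2 * ρ * p.1.1), (al * p.2.2, p.2.1)) / (al ^ 2 * ρ)

/-- Normalised pair amplitude, type N'. -/
noncomputable def waP (c m al ρ : ℝ) (p : YX) : ℝ :=
  dam (wm c m) ((al * ρ * p.1.2, al ^ 2 * ρ * p.1.1), (al * p.2.2, p.2.1))

/-- First separated function, type N': `Y / β (r)`. -/
noncomputable def omP (m : ℝ) (u : ℝ × ℝ) : ℝ := u.1 / bm m u.2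

/-- `√(1 - m al² X²)`. -/
noncomputable def Sm2 (m al X : ℝ) : ℝ := √(1 - m * (al ^ 2 * X ^ 2))

/-- Second separated function, type N'. -/
noncomputable def sgP (m al ρ : ℝ) (v : ℝ × ℝ) : ℝ :=
  v.1 * (2 * v.2 - ρ * v.1) / (Sm2 m al v.2 * (Sm2 m al v.2 + Sm2 m al (v.2 - ρ * v.1)))

end Pool.Agent.SDT.N1M

end -- N1M.Defs

section -- N1G.C1j

/-!
N1G, block C1, part j: scaling of the positive form and the local theorem for the corner family.
-/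

namespace Pool.Agent.SDT.N1G

open MeasureTheory Set Metric Pool.Agent.SDT.MP_6cbfb8_an Pool.Agent.SDT.MST Pool.Agent.SDT.N1
open scoped ENNReal Real ContDiff

/-- change of variables on the line, without measurability -/
theorem c1_lint_mul (a : ℝ) (ha : 0 < a) (g : ℝ → ℝ≥0∞) :
    ∫⁻ t : ℝ, g t = ENNReal.ofReal a * ∫⁻ t : ℝ, g (a * t) := by
  have h1 := Real.smul_map_volume_mul_left ha.ne'
  have h2 : MeasurableEmbedding fun t : ℝ => a * t :=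
    (Homeomorph.mulLeft₀ a ha.ne').measurableEmbedding
  calc ∫⁻ t : ℝ, g t = ∫⁻ t : ℝ, g t ∂(ENNReal.ofReal |a| • Measure.map (a * ·) volume) := by
        rw [h1]
    _ = ENNReal.ofReal |a| * ∫⁻ t : ℝ, g t ∂(Measure.map (a * ·) volume) := by
        rw [lintegral_smul_measure, smul_eq_mul]
    _ = _ := by rw [h2.lintegral_map, abs_of_pos ha]

/-- change of variables in the plane, without measurability -/
theorem c1_lint_smul (a : ℝ) (ha : 0 < a) (g : ℝ × ℝ → ℝ≥0∞) :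
    ∫⁻ y : ℝ × ℝ, g y = ENNReal.ofReal (a ^ 2) * ∫⁻ y : ℝ × ℝ, g (a • y) := by
  have h1 := Measure.map_addHaar_smul (volume : Measure (ℝ × ℝ)) ha.ne'
  have h2 : MeasurableEmbedding fun y : ℝ × ℝ => a • y :=
    (Homeomorph.smulOfNeZero a ha.ne').measurableEmbedding
  have h3 : ∫⁻ y : ℝ × ℝ, g (a • y) = ENNReal.ofReal ((a ^ 2)⁻¹) * ∫⁻ y : ℝ × ℝ, g y := by
    rw [← h2.lintegral_map, h1, lintegral_smul_measure, smul_eq_mul]
    congr 2
    rw [abs_of_pos (by positivity)]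
    simp
  rw [h3, ← mul_assoc, ← ENNReal.ofReal_mul (by positivity)]
  rw [mul_inv_cancel₀ (by positivity)]
  simp

/-- Scaling of the positive form. -/
theorem c1_scale (φ w : YX → ℝ) (T ρ : ℝ) (hρ : 0 < ρ) (M : YX → ℂ) :
    Thg φ w T M = ENNReal.ofReal ρ * Thg (fun s => φ (ρ • s.1, s.2) / ρ)
      (fun s => w (ρ • s.1, s.2)) (T * ρ) (fun s => M (ρ • s.1, s.2)) := by
  unfold Thg
  rw [c1_lint_smul ρ hρ]
  have h1 : ∀ y : ℝ × ℝ, ∫⁻ t : ℝ, ENNReal.ofReal (chi (t / T)) * ‖Hyg φ w M (ρ • y) t‖ₑ ^ 2 =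
      ENNReal.ofReal ρ⁻¹ * ∫⁻ t : ℝ, ENNReal.ofReal (chi (t / (T * ρ))) *
        ‖Hyg (fun s => φ (ρ • s.1, s.2) / ρ)
      (fun s => w (ρ • s.1, s.2)) (fun s => M (ρ • s.1, s.2)) y t‖ₑ ^ 2 := by
    intro y
    rw [c1_lint_mul ρ⁻¹ (by positivity)]
    congr 1
    refine lintegral_congr fun t => ?_
    have h2 : ρ⁻¹ * t / T = t / (T * ρ) := by
      field_simp
    rw [h2]
    congr 3
    unfold Hyg
    congr 1
    funext x
    congr 2
    field_simp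
  simp only [h1]
  rw [lintegral_const_mul' _ _ (by simp), ← mul_assoc, ← ENNReal.ofReal_mul (by positivity)]
  congr 2
  field_simp

/-- The trivial estimate. -/
theorem c1_triv (B : ℝ) (hB : 0 ≤ B) (φ w : YX → ℝ) (hw : ∀ s, |w s| ≤ B) (T : ℝ) (hT : 0 < T)
    (x0 y0 : ℝ × ℝ) (α β : ℝ × ℝ → ℂ) (hα : ∀ p, ‖α p‖ ≤ 1) (hβ : ∀ p, ‖β p‖ ≤ 1)
    (sα : ∀ p, α p ≠ 0 → |p.1 - y0.1| ≤ 1 ∧ |p.2 - x0.1| ≤ 1)
    (sβ : ∀ p, β p ≠ 0 → |p.1 - y0.2| ≤ 1 ∧ |p.2 - x0.2| ≤ 1) :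
    Thg φ w T (pd α β) ≤ ENNReal.ofReal (200 * B ^ 2 * T) := by
  set Y : Set (ℝ × ℝ) := Icc (y0.1 - 1) (y0.1 + 1) ×ˢ Icc (y0.2 - 1) (y0.2 + 1) with hY
  set X : Set (ℝ × ℝ) := Icc (x0.1 - 1) (x0.1 + 1) ×ˢ Icc (x0.2 - 1) (x0.2 + 1) with hX
  have vol : ∀ z : ℝ × ℝ, volume (Icc (z.1 - 1) (z.1 + 1) ×ˢ Icc (z.2 - 1) (z.2 + 1)) =
      ENNReal.ofReal 4 := by
    intro z
    rw [Measure.volume_eq_prod, Measure.prod_prod, Real.volume_Icc, Real.volume_Icc,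
      ← ENNReal.ofReal_mul (by linarith)]
    congr 1
    ring
  have hH : ∀ y t, ‖Hyg φ w (pd α β) y t‖ₑ ≤ ENNReal.ofReal (4 * B) := by
    intro y t
    unfold Hyg
    refine (enorm_integral_le_lintegral_enorm _).trans ?_
    have h1 : ∀ x : ℝ × ℝ, ‖pd α β (y, x) * ((w (y, x) : ℝ) : ℂ) * ex (t * φ (y, x))‖ₑ ≤
        X.indicator (fun _ => ENNReal.ofReal B) x := by
      intro x
      by_cases hx : pd α β (y, x) = 0
      · rw [hx]
        simp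
      · unfold pd at hx
        simp only at hx
        have h3 := (sα _ (left_ne_zero_of_mul hx)).2
        have h4 := (sβ _ (right_ne_zero_of_mul hx)).2
        simp only at h3 h4
        rw [abs_le] at h3 h4
        have hxX : x ∈ X := ⟨⟨by linarith, by linarith⟩, by linarith, by linarith⟩
        rw [indicator_of_mem hxX, ← ofReal_norm]
        apply ENNReal.ofReal_le_ofReal
        have h5 : ‖pd α β (y, x)‖ ≤ 1 := by
          unfold pd
          rw [norm_mul]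
          exact mul_le_one₀ (hα _) (norm_nonneg _) (hβ _)
        have h6 : ‖ex (t * φ (y, x))‖ = 1 := hns_norm_ex _
        rw [norm_mul, norm_mul, h6, mul_one, Complex.norm_real, Real.norm_eq_abs]
        calc ‖pd α β (y, x)‖ * |w (y, x)| ≤ 1 * B := by
              gcongr
              exact hw _
          _ = B := one_mul B
    refine (lintegral_mono h1).trans ?_
    rw [lintegral_indicator (measurableSet_Icc.prod measurableSet_Icc), lintegral_const,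
      Measure.restrict_apply_univ, vol, ← ENNReal.ofReal_mul hB]
    apply ENNReal.ofReal_le_ofReal
    linarith
  have hz : ∀ y, y ∉ Y → ∀ t, Hyg φ w (pd α β) y t = 0 := by
    intro y hy t
    unfold Hyg
    have h1 : ∀ x : ℝ × ℝ, pd α β (y, x) * ((w (y, x) : ℝ) : ℂ) * ex (t * φ (y, x)) = 0 := by
      intro x
      have h2 : pd α β (y, x) = 0 := by
        by_contra hx
        unfold pd at hx
        simp only at hx
        have h3 := (sα _ (left_ne_zero_of_mul hx)).1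
        have h4 := (sβ _ (right_ne_zero_of_mul hx)).1
        simp only at h3 h4
        rw [abs_le] at h3 h4
        exact hy ⟨⟨by linarith, by linarith⟩, by linarith, by linarith⟩
      rw [h2]
      simp
    simp only [h1, integral_zero]
  have hchi : ∀ t : ℝ, ENNReal.ofReal (chi (t / T)) ≤
      (Icc 0 (3 * T)).indicator (fun _ => 1) t := by
    intro t
    by_cases h : chi (t / T) = 0
    · rw [h]
      simp
    · have h1 := chi_zero _ h
      rw [le_div_iff₀ hT, div_le_iff₀ hT] at h1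
      have h2 : t ∈ Icc 0 (3 * T) := ⟨by nlinarith, h1.2⟩
      rw [indicator_of_mem h2]
      rw [← ENNReal.ofReal_one]
      apply ENNReal.ofReal_le_ofReal
      unfold chi
      exact mul_le_one₀ (Real.smoothTransition.le_one _) (Real.smoothTransition.nonneg _)
        (Real.smoothTransition.le_one _)
  unfold Thg
  have h1 : ∀ y : ℝ × ℝ, ∫⁻ t : ℝ, ENNReal.ofReal (chi (t / T)) *
      ‖Hyg φ w (pd α β) y t‖ₑ ^ 2 ≤
      Y.indicator (fun _ => ENNReal.ofReal (3 * T * (4 * B) ^ 2)) y := by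
    intro y
    by_cases hy : y ∈ Y
    · rw [indicator_of_mem hy]
      calc ∫⁻ t : ℝ, ENNReal.ofReal (chi (t / T)) * ‖Hyg φ w (pd α β) y t‖ₑ ^ 2 ≤
          ∫⁻ t : ℝ, (Icc 0 (3 * T)).indicator (fun _ => (ENNReal.ofReal (4 * B)) ^ 2) t := by
            refine lintegral_mono fun t => ?_
            have h3 := hchi t
            by_cases ht : t ∈ Icc 0 (3 * T)
            · rw [indicator_of_mem ht] at h3 ⊢
              calc _ ≤ 1 * (ENNReal.ofReal (4 * B)) ^ 2 := by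
                    gcongr
                    exact hH y t
                _ = _ := one_mul _
            · rw [indicator_of_notMem ht] at h3 ⊢
              have h4 : ENNReal.ofReal (chi (t / T)) = 0 := le_antisymm h3 zero_le
              rw [h4, zero_mul]
        _ = _ := by
            rw [lintegral_indicator measurableSet_Icc, lintegral_const,
              Measure.restrict_apply_univ, Real.volume_Icc, ← ENNReal.ofReal_pow (by positivity),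
              ← ENNReal.ofReal_mul (by positivity)]
            congr 1
            ring
    · rw [indicator_of_notMem hy]
      simp [hz y hy]
  refine (lintegral_mono h1).trans ?_
  rw [lintegral_indicator (measurableSet_Icc.prod measurableSet_Icc), lintegral_const,
    Measure.restrict_apply_univ, vol, ← ENNReal.ofReal_mul (by positivity)]
  apply ENNReal.ofReal_le_ofReal
  nlinarith [mul_nonneg (mul_nonneg hB hB) hT.le]

end Pool.Agent.SDT.N1G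

end -- N1G.C1j

section -- N1G.QAa

/-!
N1G, strips, annular boxes, part a: second differences of the phase function.
-/

namespace Pool.Agent.SDT.N1G

open MeasureTheory Set Metric Filter Topology Pool.Agent.SDT.MP_6cbfb8_an Pool.Agent.SDT.MST Pool.Agent.SDT.N1
open scoped ENNReal Real ContDiff

/-! ### The function of one variable -/

/-- The smooth square root. -/
noncomputable def sqp : ℝ → ℝ := Sq 1

/-- Its derivative. -/
noncomputable def sqp1 : ℝ → ℝ := deriv sqp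

/-- Its second derivative. -/
noncomputable def sqp2 : ℝ → ℝ := deriv sqp1

lemma sqp_smooth : ContDiff ℝ ∞ sqp := Sq_smooth 1 one_pos

lemma sqp1_smooth : ContDiff ℝ ∞ sqp1 := (contDiff_infty_iff_deriv.1 sqp_smooth).2

lemma sqp2_smooth : ContDiff ℝ ∞ sqp2 := (contDiff_infty_iff_deriv.1 sqp1_smooth).2

lemma sqp_hasDeriv (v : ℝ) : HasDerivAt sqp (sqp1 v) v :=
  ((contDiff_infty_iff_deriv.1 sqp_smooth).1 v).hasDerivAt

lemma sqp1_hasDeriv (v : ℝ) : HasDerivAt sqp1 (sqp2 v) v :=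
  ((contDiff_infty_iff_deriv.1 sqp1_smooth).1 v).hasDerivAt

lemma sqp_eq (v : ℝ) (hv : 1 / 8 ≤ v) : sqp v = √v :=
  Sq_eq 1 one_pos v (by norm_num; linarith)

lemma sqp1_eq (v : ℝ) (hv : 1 / 8 < v) : sqp1 v = 1 / (2 * √v) := by
  have h1 : sqp =ᶠ[𝓝 v] fun v => √v := by
    filter_upwards [lt_mem_nhds hv] with u hu
    exact sqp_eq u hu.le
  unfold sqp1
  rw [h1.deriv_eq]
  exact (Real.hasDerivAt_sqrt (by linarith)).deriv

lemma sqp2_eq (v : ℝ) (hv : 1 / 8 < v) : sqp2 v = -(1 / (4 * (v * √v))) := by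
  have h1 : sqp1 =ᶠ[𝓝 v] fun v => 1 / (2 * √v) := by
    filter_upwards [lt_mem_nhds hv] with u hu
    exact sqp1_eq u hu
  have hv0 : 0 < v := by linarith
  have hs : 0 < √v := Real.sqrt_pos.2 hv0
  have h2 : HasDerivAt (fun v => 1 / (2 * √v)) (-(1 / (4 * (v * √v)))) v := by
    have h3 := ((Real.hasDerivAt_sqrt hv0.ne').const_mul 2).inv (by positivity)
    have h4 : (fun v : ℝ => 1 / (2 * √v)) = (fun v : ℝ => 2 * √v)⁻¹ := by
      funext u
      simp [one_div]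
    rw [h4]
    refine HasDerivAt.congr_deriv h3 ?_
    have h5 : √v ^ 2 = v := Real.sq_sqrt hv0.le
    field_simp
    rw [h5]
    ring
  unfold sqp2
  rw [h1.deriv_eq]
  exact h2.deriv

/-! ### Mean values -/

/-- The mean of the first derivative; `x = (A, d)`. -/
noncomputable def m2f (x : ℝ × ℝ) : ℝ := ∫ t in (0 : ℝ)..1, 2 * sqp1 (x.1 - 2 * t * x.2)

/-- The inner mean of the second derivative; `x = (s, (K, (u, v)))`. -/
noncomputable def m1i (x : ℝ × ℝ × ℝ × ℝ) : ℝ :=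
  ∫ t in (0 : ℝ)..1, -4 * sqp2 (x.2.1 - 2 * x.1 * x.2.2.1 - 2 * t * x.2.2.2)

/-- The mean of the second derivative; `x = (K, (u, v))`. -/
noncomputable def m1f (x : ℝ × ℝ × ℝ) : ℝ := ∫ s in (0 : ℝ)..1, m1i (s, x)

lemma m2f_smooth : ContDiff ℝ ∞ m2f :=
  smooth_integral (P := ℝ × ℝ) (fun z => 2 * sqp1 (z.2.1 - 2 * z.1 * z.2.2))
    (contDiff_const.mul (sqp1_smooth.comp (by fun_prop)))

lemma m1i_smooth : ContDiff ℝ ∞ m1i :=
  smooth_integral (P := ℝ × ℝ × ℝ × ℝ)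
    (fun z => -4 * sqp2 (z.2.2.1 - 2 * z.2.1 * z.2.2.2.1 - 2 * z.1 * z.2.2.2.2))
    (contDiff_const.mul (sqp2_smooth.comp (by fun_prop)))

lemma m1f_smooth : ContDiff ℝ ∞ m1f :=
  smooth_integral (P := ℝ × ℝ × ℝ) (fun z => m1i (z.1, z.2)) (m1i_smooth.comp (by fun_prop))

lemma m2f_zero (A : ℝ) : m2f (A, 0) = 2 * sqp1 A := by
  unfold m2f
  simp

lemma m1f_zero (K : ℝ) : m1f (K, 0, 0) = -4 * sqp2 K := by
  unfold m1f m1i
  simp

/-- First difference. -/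
lemma diff1 (A d : ℝ) : sqp (A - 2 * d) - sqp A = -(d * m2f (A, d)) := by
  have h1 : ∀ t ∈ uIcc (0 : ℝ) 1, HasDerivAt (fun t : ℝ => sqp (A - 2 * t * d))
      (-(d * (2 * sqp1 (A - 2 * t * d)))) t := by
    intro t _
    have h2 : HasDerivAt (fun t : ℝ => A - 2 * t * d) (-(2 * d)) t := by
      have := (((hasDerivAt_id t).const_mul 2).mul_const d).const_sub A
      refine HasDerivAt.congr_deriv this ?_
      ring
    refine HasDerivAt.congr_deriv ((sqp_hasDeriv _).comp t h2) ?_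
    ring
  have h3 : Continuous fun t : ℝ => -(d * (2 * sqp1 (A - 2 * t * d))) := by
    have := sqp1_smooth.continuous
    fun_prop
  have h4 := intervalIntegral.integral_eq_sub_of_hasDerivAt h1 (h3.intervalIntegrable 0 1)
  rw [intervalIntegral.integral_neg, intervalIntegral.integral_const_mul] at h4
  simp only [mul_one, mul_zero, zero_mul, sub_zero] at h4
  rw [← h4]
  rfl

/-- Difference of the first derivative. -/
lemma diff1' (s K u v : ℝ) : sqp1 (K - 2 * s * u) - sqp1 (K - 2 * s * u - 2 * v) =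
    -(v / 2 * m1i (s, (K, (u, v)))) := by
  have h1 : ∀ t ∈ uIcc (0 : ℝ) 1, HasDerivAt (fun t : ℝ => sqp1 (K - 2 * s * u - 2 * t * v))
      (v / 2 * (-4 * sqp2 (K - 2 * s * u - 2 * t * v))) t := by
    intro t _
    have h2 : HasDerivAt (fun t : ℝ => K - 2 * s * u - 2 * t * v) (-(2 * v)) t := by
      have := (((hasDerivAt_id t).const_mul 2).mul_const v).const_sub (K - 2 * s * u)
      refine HasDerivAt.congr_deriv this ?_
      ring
    refine HasDerivAt.congr_deriv ((sqp1_hasDeriv _).comp t h2) ?_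
    ring
  have h3 : Continuous fun t : ℝ => v / 2 * (-4 * sqp2 (K - 2 * s * u - 2 * t * v)) := by
    have := sqp2_smooth.continuous
    fun_prop
  have h4 := intervalIntegral.integral_eq_sub_of_hasDerivAt h1 (h3.intervalIntegrable 0 1)
  rw [intervalIntegral.integral_const_mul] at h4
  simp only [mul_one, mul_zero, zero_mul, sub_zero] at h4
  have h5 : m1i (s, (K, (u, v))) = ∫ t in (0 : ℝ)..1, -4 * sqp2 (K - 2 * s * u - 2 * t * v) :=
    rfl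
  rw [h5]
  linarith

/-- Second difference. -/
lemma diff2 (K u v : ℝ) : sqp K - sqp (K - 2 * u) - sqp (K - 2 * v) + sqp (K - 2 * u - 2 * v) =
    -(u * v * m1f (K, (u, v))) := by
  have h1 : ∀ s ∈ uIcc (0 : ℝ) 1, HasDerivAt
      (fun s : ℝ => sqp (K - 2 * s * u) - sqp (K - 2 * s * u - 2 * v))
      (u * v * m1i (s, (K, (u, v)))) s := by
    intro s _
    have h2 : HasDerivAt (fun s : ℝ => K - 2 * s * u) (-(2 * u)) s := by
      have := (((hasDerivAt_id s).const_mul 2).mul_const u).const_sub K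
      refine HasDerivAt.congr_deriv this ?_
      ring
    have h3 := ((sqp_hasDeriv _).comp s h2).sub ((sqp_hasDeriv _).comp s (h2.sub_const (2 * v)))
    refine HasDerivAt.congr_deriv h3 ?_
    have h4 := diff1' s K u v
    linear_combination (-(2 * u)) * h4
  have h3 : Continuous fun s : ℝ => u * v * m1i (s, (K, (u, v))) :=
    continuous_const.mul (m1i_smooth.continuous.comp (by fun_prop))
  have h4 := intervalIntegral.integral_eq_sub_of_hasDerivAt h1 (h3.intervalIntegrable 0 1)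
  rw [intervalIntegral.integral_const_mul] at h4
  simp only [mul_one, mul_zero, zero_mul, sub_zero] at h4
  have h5 : m1f (K, (u, v)) = ∫ s in (0 : ℝ)..1, m1i (s, (K, (u, v))) := rfl
  rw [h5]
  linarith

/-- Second difference with a twist. -/
lemma diff3 (K u v d : ℝ) :
    sqp K - sqp (K - 2 * u) - sqp (K - 2 * v) + sqp (K - 2 * u - 2 * v - 2 * d) =
    -(u * v * m1f (K, (u, v)) + d * m2f (K - 2 * u - 2 * v, d)) := by
  have h1 := diff2 K u v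
  have h2 := diff1 (K - 2 * u - 2 * v) d
  linarith

end Pool.Agent.SDT.N1G

end -- N1G.QAa

section -- N1G.QAb

/-!
N1G, strips, annular boxes, part b: the family and the normal form.
-/

namespace Pool.Agent.SDT.N1G

open MeasureTheory Set Metric Filter Topology Pool.Agent.SDT.MP_6cbfb8_an Pool.Agent.SDT.MST Pool.Agent.SDT.N1
open scoped ENNReal Real ContDiff

/-- Parameters `((b, g₁, g₂, P), (s, θ, κ, ρ))`. -/
abbrev QP : Type := (ℝ × ℝ × ℝ × ℝ) × (ℝ × ℝ × ℝ × ℝ)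

/-- The quadratic function. -/
def Kp (p : QP) (X : ℝ × ℝ) : ℝ :=
  p.1.2.2.2 + 2 * p.1.2.1 * X.1 + 2 * p.1.2.2.1 * X.2 -
    p.2.2.2.1 * p.2.2.1 * (X.1 ^ 2 + p.1.1 * X.2 ^ 2)

/-- The direction of the outer difference. -/
def hY (p : QP) (Y : ℝ × ℝ) : ℝ × ℝ :=
  (-(p.2.1 * p.1.2.2.1) + p.2.2.1 * Y.1, p.2.1 * p.1.2.1 + p.2.2.1 * Y.2)

/-- The outer difference. -/
def yY (p : QP) (Y : ℝ × ℝ) : ℝ × ℝ := (p.2.2.2.2 * (hY p Y).1, p.2.2.2.2 * (hY p Y).2)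

/-- The bilinear form. -/
def Bf (p : QP) (y z : ℝ × ℝ) : ℝ := y.1 * z.1 + p.1.1 * (y.2 * z.2)

/-- The linear form. -/
def Lf (p : QP) (y : ℝ × ℝ) : ℝ := p.1.2.1 * y.1 + p.1.2.2.1 * y.2

/-- The divided first difference in `y`. -/
noncomputable def Up (p : QP) (Y X : ℝ × ℝ) : ℝ :=
  Lf p Y - p.2.2.2.1 * Bf p X (hY p Y) + p.2.2.2.1 * p.2.2.2.2 * Bf p (hY p Y) (hY p Y) / 2

/-- The divided first difference in `z`. -/
noncomputable def Vp (p : QP) (γ : ℝ) (X Z : ℝ × ℝ) : ℝ :=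
  Lf p Z - p.2.2.2.1 * p.2.2.1 * Bf p X Z + p.2.2.2.1 * p.2.2.1 * γ * Bf p Z Z / 2

/-- The divided second difference. -/
def Dp (p : QP) (Y Z : ℝ × ℝ) : ℝ := Bf p (hY p Y) Z

lemma Kp_y (p : QP) (Y X : ℝ × ℝ) :
    Kp p (X - yY p Y) = Kp p X - 2 * (p.2.2.1 * p.2.2.2.2 * Up p Y X) := by
  unfold Kp yY hY Up Lf Bf hY
  simp only [Prod.fst_sub, Prod.snd_sub]
  ring

lemma Kp_z (p : QP) (γ : ℝ) (X Z : ℝ × ℝ) :
    Kp p (X.1 - γ * Z.1, X.2 - γ * Z.2) = Kp p X - 2 * (γ * Vp p γ X Z) := by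
  unfold Kp Vp Lf Bf
  simp only
  ring

lemma Kp_yz (p : QP) (γ : ℝ) (Y X Z : ℝ × ℝ) :
    Kp p ((X.1 - γ * Z.1, X.2 - γ * Z.2) - yY p Y) =
      Kp p X - 2 * (p.2.2.1 * p.2.2.2.2 * Up p Y X) - 2 * (γ * Vp p γ X Z) -
        2 * (p.2.2.2.1 * p.2.2.1 * p.2.2.2.2 * γ * Dp p Y Z) := by
  unfold Kp yY hY Up Vp Dp Lf Bf hY
  simp only [Prod.fst_sub, Prod.snd_sub]
  ring

/-- The point phase. -/
noncomputable def qA (p : QP) (X : ℝ × ℝ) : ℝ := sqp (Kp p X)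

/-- The amplitude function of one variable. -/
noncomputable def wone (v : ℝ) : ℝ := sma 1 v - sma 2 v

/-- The point amplitude. -/
noncomputable def wA (p : QP) (X : ℝ × ℝ) : ℝ := wone (Kp p X)

/-- The divided pair phase. -/
noncomputable def phA (p : QP) (s : YX) : ℝ :=
  (qA p s.2 - qA p (s.2 - yY p s.1)) / (p.2.2.1 * p.2.2.2.2)

/-- The pair amplitude. -/
noncomputable def amA (p : QP) (s : YX) : ℝ := wA p s.2 * wA p (s.2 - yY p s.1)

/-- The space of parameters and rectangles; `a = (z₁, x₁, y₁)`, `b = (z₂, x₂, y₂)`. -/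
abbrev QX : Type := (QP × ℝ) × V × V

/-- The coordinates `x`. -/
def xX (x : QX) : ℝ × ℝ := (x.2.1.2.1, x.2.2.2.1)
/-- The coordinates `y`. -/
def xY (x : QX) : ℝ × ℝ := (x.2.1.2.2, x.2.2.2.2)
/-- The coordinates `z`. -/
def xZ (x : QX) : ℝ × ℝ := (x.2.1.1, x.2.2.1)

/-- The value `K`. -/
noncomputable def xK (x : QX) : ℝ := Kp x.1.1 (xX x)
/-- The value `U`. -/
noncomputable def xU (x : QX) : ℝ := Up x.1.1 (xY x) (xX x)
/-- The value `V`. -/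
noncomputable def xV (x : QX) : ℝ := Vp x.1.1 x.1.2 (xX x) (xZ x)
/-- The value `D`. -/
noncomputable def xD (x : QX) : ℝ := Dp x.1.1 (xY x) (xZ x)

lemma xK_smooth : ContDiff ℝ ∞ xK := by
  unfold xK Kp xX
  fun_prop

lemma xU_smooth : ContDiff ℝ ∞ xU := by
  unfold xU Up Lf Bf hY xX xY
  fun_prop

lemma xV_smooth : ContDiff ℝ ∞ xV := by
  unfold xV Vp Lf Bf xX xZ
  fun_prop

lemma xD_smooth : ContDiff ℝ ∞ xD := by
  unfold xD Dp Bf hY xY xZ
  fun_prop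

/-- The mean of the second derivative. -/
noncomputable def xm1 (x : QX) : ℝ :=
  m1f (xK x, (x.1.1.2.2.1 * x.1.1.2.2.2.2 * xU x, x.1.2 * xV x))

/-- The mean of the first derivative. -/
noncomputable def xm2 (x : QX) : ℝ :=
  m2f (xK x - 2 * (x.1.1.2.2.1 * x.1.1.2.2.2.2 * xU x) - 2 * (x.1.2 * xV x),
    x.1.1.2.2.2.1 * x.1.1.2.2.1 * x.1.1.2.2.2.2 * x.1.2 * xD x)

lemma xm1_smooth : ContDiff ℝ ∞ xm1 := by
  have h1 := xK_smooth
  have h2 := xU_smooth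
  have h3 := xV_smooth
  have h4 : ContDiff ℝ ∞ fun x : QX =>
      ((xK x, (x.1.1.2.2.1 * x.1.1.2.2.2.2 * xU x, x.1.2 * xV x)) : ℝ × ℝ × ℝ) :=
    h1.prodMk (((by fun_prop : ContDiff ℝ ∞ fun x : QX => x.1.1.2.2.1 * x.1.1.2.2.2.2).mul
      h2).prodMk ((by fun_prop : ContDiff ℝ ∞ fun x : QX => x.1.2).mul h3))
  exact m1f_smooth.comp h4

lemma xm2_smooth : ContDiff ℝ ∞ xm2 := by
  have h1 := xK_smooth
  have h2 := xU_smooth
  have h3 := xV_smooth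
  have h3' := xD_smooth
  have e1 : ContDiff ℝ ∞ fun x : QX => x.1.1.2.2.1 * x.1.1.2.2.2.2 * xU x :=
    (by fun_prop : ContDiff ℝ ∞ fun x : QX => x.1.1.2.2.1 * x.1.1.2.2.2.2).mul h2
  have e2 : ContDiff ℝ ∞ fun x : QX => x.1.2 * xV x :=
    (by fun_prop : ContDiff ℝ ∞ fun x : QX => x.1.2).mul h3
  have e3 : ContDiff ℝ ∞ fun x : QX =>
      x.1.1.2.2.2.1 * x.1.1.2.2.1 * x.1.1.2.2.2.2 * x.1.2 * xD x :=
    (by fun_prop : ContDiff ℝ ∞ fun x : QX =>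
      x.1.1.2.2.2.1 * x.1.1.2.2.1 * x.1.1.2.2.2.2 * x.1.2).mul h3'
  exact m2f_smooth.comp (((h1.sub (contDiff_const.mul e1)).sub (contDiff_const.mul e2)).prodMk e3)

/-- The factor. -/
noncomputable def xE (x : QX) : ℝ := -(xm1 x * xU x)

lemma xE_smooth : ContDiff ℝ ∞ xE := (xm1_smooth.mul xU_smooth).neg

/-- The first separated function. -/
def xw (x : (QP × ℝ) × V) : ℝ := x.1.1.1.2.1 * x.2.1

/-- The second separated function. -/
def xs (x : (QP × ℝ) × V) : ℝ := -(x.1.1.1.2.2.1 * x.2.1)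

/-- The coupling. -/
noncomputable def xG (x : QX) : ℝ :=
  -(x.1.1.2.2.1 * Bf x.1.1 (xX x) (xZ x)) + x.1.1.2.2.1 * x.1.2 * Bf x.1.1 (xZ x) (xZ x) / 2 +
    xm2 x * xD x / (xm1 x * xU x)

lemma xw_smooth : ContDiff ℝ ∞ xw := by
  unfold xw
  fun_prop

lemma xs_smooth : ContDiff ℝ ∞ xs := by
  unfold xs
  fun_prop

lemma xG_smooth (x : QX) (h : xE x ≠ 0) : ContDiffAt ℝ ∞ xG x := by
  unfold xG
  refine ContDiffAt.add ?_ (ContDiffAt.div (xm2_smooth.mul xD_smooth).contDiffAt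
    (xm1_smooth.mul xU_smooth).contDiffAt ?_)
  · unfold Bf xX xZ
    fun_prop
  · unfold xE at h
    exact fun h1 => h (by rw [h1, neg_zero])

/-- The normal form. -/
lemma phA_nf (p : QP) (γ : ℝ) (a b : V) (hθρ : p.2.2.1 * p.2.2.2.2 ≠ 0)
    (hE : xE ((p, γ), a, b) ≠ 0) :
    Fg (phA p) (Sc 1 γ (f1_s a), Sc 1 γ (f1_s b)) =
      γ * (xE ((p, γ), a, b) * (xw ((p, γ), a) - xs ((p, γ), b) +
        p.2.2.2.1 * xG ((p, γ), a, b))) := by
  set x : QX := ((p, γ), a, b) with hx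
  have h1 : Fg (phA p) (Sc 1 γ (f1_s a), Sc 1 γ (f1_s b)) =
      (qA p (xX x) - qA p (xX x - yY p (xY x)) -
        qA p ((xX x).1 - γ * (xZ x).1, (xX x).2 - γ * (xZ x).2) +
        qA p (((xX x).1 - γ * (xZ x).1, (xX x).2 - γ * (xZ x).2) - yY p (xY x))) /
        (p.2.2.1 * p.2.2.2.2) := by
    unfold Fg phA px pz Sc f1_s
    simp only [MeasurableEquiv.coe_mk, Equiv.coe_fn_mk, one_mul]
    unfold xX xY xZ
    rw [hx]
    simp only
    ring
  rw [h1]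
  unfold qA
  rw [Kp_y, Kp_z, Kp_yz]
  have h2 := diff3 (xK x) (p.2.2.1 * p.2.2.2.2 * xU x) (γ * xV x)
    (p.2.2.2.1 * p.2.2.1 * p.2.2.2.2 * γ * xD x)
  have h3 : sqp (Kp p (xX x)) - sqp (Kp p (xX x) - 2 * (p.2.2.1 * p.2.2.2.2 *
      Up p (xY x) (xX x))) - sqp (Kp p (xX x) - 2 * (γ * Vp p γ (xX x) (xZ x))) +
      sqp (Kp p (xX x) - 2 * (p.2.2.1 * p.2.2.2.2 * Up p (xY x) (xX x)) -
        2 * (γ * Vp p γ (xX x) (xZ x)) -
        2 * (p.2.2.2.1 * p.2.2.1 * p.2.2.2.2 * γ * Dp p (xY x) (xZ x))) =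
      -(p.2.2.1 * p.2.2.2.2 * xU x * (γ * xV x) * xm1 x +
        p.2.2.2.1 * p.2.2.1 * p.2.2.2.2 * γ * xD x * xm2 x) := h2
  rw [h3]
  have h4 : xm1 x * xU x ≠ 0 := by
    unfold xE at hE
    exact fun h => hE (by rw [h, neg_zero])
  have hV : xV x = p.1.2.1 * a.1 + p.1.2.2.1 * b.1 - p.2.2.2.1 * p.2.2.1 * Bf p (xX x) (xZ x) +
      p.2.2.2.1 * p.2.2.1 * γ * Bf p (xZ x) (xZ x) / 2 := rfl
  have hG : xG x = -(p.2.2.1 * Bf p (xX x) (xZ x)) + p.2.2.1 * γ * Bf p (xZ x) (xZ x) / 2 +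
    xm2 x * xD x / (xm1 x * xU x) := rfl
  have hw : xw ((p, γ), a) = p.1.2.1 * a.1 := rfl
  have hs : xs ((p, γ), b) = -(p.1.2.2.1 * b.1) := rfl
  rw [hG, hw, hs, hV]
  unfold xE
  have h5 : xm1 x ≠ 0 := left_ne_zero_of_mul h4
  have h6 : xU x ≠ 0 := right_ne_zero_of_mul h4
  have t1 : p.2.2.1 ≠ 0 := left_ne_zero_of_mul hθρ
  have t2 : p.2.2.2.2 ≠ 0 := right_ne_zero_of_mul hθρ
  field_simp
  ring

end Pool.Agent.SDT.N1G

end -- N1G.QAb

section -- N1G.QAc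

/-!
N1G, strips, annular boxes, part c: the nondegeneracy of the coupling.
-/

namespace Pool.Agent.SDT.N1G

open MeasureTheory Set Metric Filter Topology Pool.Agent.SDT.MP_6cbfb8_an Pool.Agent.SDT.MST Pool.Agent.SDT.N1
open scoped ENNReal Real ContDiff

lemma fd_line {f : V → ℝ} {x u : V} (hf : DifferentiableAt ℝ f x) {d : ℝ}
    (h : HasDerivAt (fun t : ℝ => f (x + t • u)) d 0) : fderiv ℝ f x u = d := by
  have h1 : HasDerivAt (fun t : ℝ => x + t • u) ((1 : ℝ) • u) 0 :=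
    ((hasDerivAt_id (0 : ℝ)).smul_const u).const_add x
  have h2 : HasFDerivAt f (fderiv ℝ f x) (x + (0 : ℝ) • u) := by
    rw [zero_smul, add_zero]
    exact hf.hasFDerivAt
  have h3 := h2.comp_hasDerivAt (0 : ℝ) h1
  rw [one_smul] at h3
  exact h3.unique h

/-- The base parameter. -/
def pB (k : ℝ × ℝ × ℝ × ℝ) (s : ℝ) : QP × ℝ := ((k, (s, 0, 0, 0)), 0)

section base

variable (k : ℝ × ℝ × ℝ × ℝ) (s : ℝ)

lemma xK_base (a b : V) : xK (pB k s, a, b) =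
    k.2.2.2 + 2 * k.2.1 * a.2.1 + 2 * k.2.2.1 * b.2.1 := by
  unfold xK Kp xX pB
  simp

lemma xU_base (a b : V) : xU (pB k s, a, b) = k.2.1 * a.2.2 + k.2.2.1 * b.2.2 := by
  unfold xU Up Lf Bf hY xX xY pB
  simp

lemma xD_base (a b : V) : xD (pB k s, a, b) =
    -(s * k.2.2.1) * a.1 + k.1 * (s * k.2.1 * b.1) := by
  unfold xD Dp Bf hY xY xZ pB
  simp

lemma xm1_base (a b : V) : xm1 (pB k s, a, b) = -4 * sqp2 (xK (pB k s, a, b)) := by
  rw [← m1f_zero]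
  unfold xm1 pB
  simp

lemma xm2_base (a b : V) : xm2 (pB k s, a, b) = 2 * sqp1 (xK (pB k s, a, b)) := by
  rw [← m2f_zero]
  unfold xm2 pB
  simp

/-- The coupling at the base. -/
lemma xG_base (a b : V) (hK : 1 / 8 < xK (pB k s, a, b)) (hU : xU (pB k s, a, b) ≠ 0) :
    xG (pB k s, a, b) = (k.2.2.2 + 2 * k.2.1 * a.2.1 + 2 * k.2.2.1 * b.2.1) *
      (-(s * k.2.2.1) * a.1 + k.1 * (s * k.2.1 * b.1)) /
      (k.2.1 * a.2.2 + k.2.2.1 * b.2.2) := by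
  have h1 : xG (pB k s, a, b) = xm2 (pB k s, a, b) * xD (pB k s, a, b) /
      (xm1 (pB k s, a, b) * xU (pB k s, a, b)) := by
    unfold xG pB
    simp
  have hK0 : 0 < xK (pB k s, a, b) := by linarith
  have hs : √(xK (pB k s, a, b)) ≠ 0 := (Real.sqrt_pos.2 hK0).ne'
  rw [h1, xm1_base, xm2_base, sqp1_eq _ hK, sqp2_eq _ hK, ← xK_base k s a b, ← xU_base k s a b,
    ← xD_base k s a b]
  have hK1 := hK0.ne'
  field_simp

lemma xm1_pos (a b : V) (hK : 1 / 8 < xK (pB k s, a, b)) : 0 < xm1 (pB k s, a, b) := by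
  have hK0 : 0 < xK (pB k s, a, b) := by linarith
  have hs : 0 < √(xK (pB k s, a, b)) := Real.sqrt_pos.2 hK0
  rw [xm1_base, sqp2_eq _ hK]
  have : 0 < 1 / (4 * (xK (pB k s, a, b) * √(xK (pB k s, a, b)))) := by positivity
  linarith

end base

/-- The nondegeneracy condition of the lemma HLk at the base point. -/
lemma xG_nd (k : ℝ × ℝ × ℝ × ℝ) (s Y ζ₁ ζ₂ : ℝ) (hP : 1 / 8 < k.2.2.2) (hg1 : k.2.1 ≠ 0)
    (hg2 : k.2.2.1 ≠ 0) (hY : Y ≠ 0)
    (hD : -(s * k.2.2.1) * ζ₁ + k.1 * (s * k.2.1 * ζ₂) ≠ 0) (u : V) (hu : u.1 = 0)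
    (h : ∀ e : V, e.1 = 0 → fderiv ℝ (fun b => fderiv ℝ (fun a => xG (pB k s, a, b))
      ((ζ₁, 0, 0) : V) u) ((ζ₂, 0, Y) : V) e = 0) : u = 0 := by
  set a0 : V := (ζ₁, 0, 0) with ha0
  set b0 : V := (ζ₂, 0, Y) with hb0
  obtain ⟨u1, u2, u3⟩ := u
  simp only at hu
  subst hu
  -- the explicit derivative
  set ℓ : V → ℝ := fun b => 2 * k.2.1 * u2 * (-(s * k.2.2.1) * ζ₁ + k.1 * (s * k.2.1 * b.1)) /
      (k.2.2.1 * b.2.2) - (k.2.2.2 + 2 * k.2.2.1 * b.2.1) *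
      (-(s * k.2.2.1) * ζ₁ + k.1 * (s * k.2.1 * b.1)) * (k.2.1 * u3) / (k.2.2.1 * b.2.2) ^ 2
    with hℓ
  have hbase : 1 / 8 < xK (pB k s, a0, b0) ∧ xU (pB k s, a0, b0) ≠ 0 := by
    rw [xK_base, xU_base, ha0, hb0]
    simp only [mul_zero, add_zero, zero_add]
    exact ⟨hP, mul_ne_zero hg2 hY⟩
  have cK : Continuous fun q : V × V => xK (pB k s, q.1, q.2) :=
    xK_smooth.continuous.comp (by fun_prop)
  have cU : Continuous fun q : V × V => xU (pB k s, q.1, q.2) :=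
    xU_smooth.continuous.comp (by fun_prop)
  have ev : ∀ᶠ q in 𝓝 ((a0, b0) : V × V), 1 / 8 < xK (pB k s, q.1, q.2) ∧
      xU (pB k s, q.1, q.2) ≠ 0 :=
    (cK.continuousAt.eventually (lt_mem_nhds hbase.1)).and
      (cU.continuousAt.eventually_ne hbase.2)
  have ev2 : ∀ᶠ b in 𝓝 b0, ∀ᶠ a in 𝓝 a0, 1 / 8 < xK (pB k s, a, b) ∧
      xU (pB k s, a, b) ≠ 0 := by
    rw [nhds_prod_eq] at ev
    have h1 := (Filter.eventually_swap_iff.1 ev).curry
    exact h1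
  have evU : ∀ᶠ b in 𝓝 b0, k.2.2.1 * b.2.2 ≠ 0 := by
    have c : Continuous fun b : V => k.2.2.1 * b.2.2 := by fun_prop
    refine c.continuousAt.eventually_ne ?_
    rw [hb0]
    exact mul_ne_zero hg2 hY
  have hL : (fun b => fderiv ℝ (fun a => xG (pB k s, a, b)) a0 ((0, u2, u3) : V)) =ᶠ[𝓝 b0] ℓ := by
    filter_upwards [ev2, evU] with b hb hUb
    have e1 : (fun a => xG (pB k s, a, b)) =ᶠ[𝓝 a0] fun a =>
        (k.2.2.2 + 2 * k.2.1 * a.2.1 + 2 * k.2.2.1 * b.2.1) *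
        (-(s * k.2.2.1) * a.1 + k.1 * (s * k.2.1 * b.1)) /
        (k.2.1 * a.2.2 + k.2.2.1 * b.2.2) := by
      filter_upwards [hb] with a ha
      exact xG_base k s a b ha.1 ha.2
    rw [e1.fderiv_eq]
    have hne : k.2.1 * a0.2.2 + k.2.2.1 * b.2.2 ≠ 0 := by
      rw [ha0]
      simpa using hUb
    refine fd_line ?_ ?_
    · fun_prop (disch := exact hne)
    · have n1 : HasDerivAt (fun t : ℝ => k.2.2.2 + 2 * k.2.1 * (t * u2) + 2 * k.2.2.1 * b.2.1)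
          (2 * k.2.1 * u2) 0 := by
        have := ((((hasDerivAt_id (0 : ℝ)).mul_const u2).const_mul (2 * k.2.1)).const_add
          k.2.2.2).add_const (2 * k.2.2.1 * b.2.1)
        refine HasDerivAt.congr_deriv this ?_
        ring
      have n2 : HasDerivAt (fun t : ℝ => k.2.1 * (t * u3) + k.2.2.1 * b.2.2)
          (k.2.1 * u3) 0 := by
        have := (((hasDerivAt_id (0 : ℝ)).mul_const u3).const_mul k.2.1).add_const
          (k.2.2.1 * b.2.2)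
        refine HasDerivAt.congr_deriv this ?_
        ring
      have n3 := ((n1.mul_const (-(s * k.2.2.1) * ζ₁ + k.1 * (s * k.2.1 * b.1))).div n2
        (by simpa using hUb))
      have n4 : (fun t : ℝ => (k.2.2.2 + 2 * k.2.1 * (a0 + t • ((0, u2, u3) : V)).2.1 +
          2 * k.2.2.1 * b.2.1) * (-(s * k.2.2.1) * (a0 + t • ((0, u2, u3) : V)).1 +
          k.1 * (s * k.2.1 * b.1)) / (k.2.1 * (a0 + t • ((0, u2, u3) : V)).2.2 +
          k.2.2.1 * b.2.2)) = fun t : ℝ => (k.2.2.2 + 2 * k.2.1 * (t * u2) +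
          2 * k.2.2.1 * b.2.1) * (-(s * k.2.2.1) * ζ₁ + k.1 * (s * k.2.1 * b.1)) /
          (k.2.1 * (t * u3) + k.2.2.1 * b.2.2) := by
        funext t
        rw [ha0]
        simp
      rw [n4]
      refine HasDerivAt.congr_deriv n3 ?_
      rw [hℓ]
      simp only [zero_mul, mul_zero, add_zero, zero_add]
      have hg := left_ne_zero_of_mul hUb
      have hb2 := right_ne_zero_of_mul hUb
      field_simp
  have hdiff : DifferentiableAt ℝ ℓ b0 := by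
    have hne : k.2.2.1 * b0.2.2 ≠ 0 := mul_ne_zero hg2 hY
    have hne2 : (k.2.2.1 * b0.2.2) ^ 2 ≠ 0 := pow_ne_zero 2 hne
    rw [hℓ]
    refine DifferentiableAt.sub ?_ ?_
    · fun_prop (disch := exact hne)
    · fun_prop (disch := exact hne2)
  have key : ∀ e2 e3 : ℝ, fderiv ℝ ℓ b0 ((0, e2, e3) : V) =
      (-(s * k.2.2.1) * ζ₁ + k.1 * (s * k.2.1 * ζ₂)) * (-(2 * k.2.1 * u2 * (k.2.2.1 * e3)) /
      (k.2.2.1 * Y) ^ 2 - 2 * k.2.2.1 * e2 * (k.2.1 * u3) / (k.2.2.1 * Y) ^ 2 +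
      2 * k.2.2.2 * (k.2.1 * u3) * (k.2.2.1 * e3) / (k.2.2.1 * Y) ^ 3) := by
    intro e2 e3
    refine fd_line hdiff ?_
    set D0 := -(s * k.2.2.1) * ζ₁ + k.1 * (s * k.2.1 * ζ₂) with hD0
    have hne : k.2.2.1 * Y ≠ 0 := mul_ne_zero hg2 hY
    have n1 : HasDerivAt (fun t : ℝ => k.2.2.2 + 2 * k.2.2.1 * (t * e2)) (2 * k.2.2.1 * e2) 0 := by
      have := (((hasDerivAt_id (0 : ℝ)).mul_const e2).const_mul (2 * k.2.2.1)).const_add k.2.2.2
      refine HasDerivAt.congr_deriv this ?_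
      ring
    have n2 : HasDerivAt (fun t : ℝ => k.2.2.1 * (Y + t * e3)) (k.2.2.1 * e3) 0 := by
      have := (((hasDerivAt_id (0 : ℝ)).mul_const e3).const_add Y).const_mul k.2.2.1
      refine HasDerivAt.congr_deriv this ?_
      ring
    have hne0 : k.2.2.1 * (Y + 0 * e3) ≠ 0 := by simpa using hne
    have n3 := ((hasDerivAt_const (0 : ℝ) (2 * k.2.1 * u2 * D0)).div n2 hne0).sub
      (((n1.mul_const D0).mul_const (k.2.1 * u3)).div (n2.pow 2) (pow_ne_zero 2 hne0))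
    have n4 : (fun t : ℝ => ℓ (b0 + t • ((0, e2, e3) : V))) = fun t : ℝ =>
        2 * k.2.1 * u2 * D0 / (k.2.2.1 * (Y + t * e3)) -
        (k.2.2.2 + 2 * k.2.2.1 * (t * e2)) * D0 * (k.2.1 * u3) /
          (k.2.2.1 * (Y + t * e3)) ^ 2 := by
      funext t
      rw [hℓ, hb0, hD0]
      simp
    rw [n4]
    refine HasDerivAt.congr_deriv n3 ?_
    simp only [zero_mul, add_zero, mul_zero, Pi.pow_apply]
    have hg := left_ne_zero_of_mul hne
    field_simp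
    ring
  have hz : ∀ e2 e3 : ℝ, fderiv ℝ ℓ b0 ((0, e2, e3) : V) = 0 := by
    intro e2 e3
    rw [← hL.fderiv_eq]
    exact h (0, e2, e3) rfl
  have k1 := hz 1 0
  have k2 := hz 0 1
  rw [key] at k1 k2
  have hne : k.2.2.1 * Y ≠ 0 := mul_ne_zero hg2 hY
  have q1 := (mul_eq_zero.1 k1).resolve_left hD
  have q2 := (mul_eq_zero.1 k2).resolve_left hD
  have r3 : u3 = 0 := by
    simp only [mul_zero, neg_zero, zero_div, mul_one, add_zero, zero_sub, neg_eq_zero] at q1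
    rw [div_eq_zero_iff] at q1
    rcases q1 with q | q
    · rcases mul_eq_zero.1 q with q | q
      · exact absurd (by simpa using q) hg2
      · exact (mul_eq_zero.1 q).resolve_left hg1
    · exact absurd q (pow_ne_zero 2 hne)
  subst r3
  have r2 : u2 = 0 := by
    simp only [mul_zero, zero_mul, zero_div, mul_one, sub_zero, add_zero] at q2
    rw [div_eq_zero_iff] at q2
    rcases q2 with q | q
    · rw [neg_eq_zero] at q
      rcases mul_eq_zero.1 q with q | q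
      · rcases mul_eq_zero.1 q with q | q
        · exact absurd (by simpa using q) hg1
        · exact q
      · exact absurd q hg2
    · exact absurd q (pow_ne_zero 2 hne)
  subst r2
  rfl

end Pool.Agent.SDT.N1G

end -- N1G.QAc

section -- N1G.QAd

/-!
N1G, strips, annular boxes, part d: the local estimate at one direction.
-/

namespace Pool.Agent.SDT.N1G

open MeasureTheory Set Metric Filter Topology Pool.Agent.SDT.MP_6cbfb8_an Pool.Agent.SDT.MST Pool.Agent.SDT.N1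
open scoped ENNReal Real ContDiff

lemma wone_smooth : ContDiff ℝ ∞ wone :=
  (sma_smooth 1 one_pos).sub (sma_smooth 2 two_pos)

/-- The amplitude of a rectangle. -/
noncomputable def xW (x : QX) : ℝ :=
  wone (xK x) * wone (xK x - 2 * (x.1.1.2.2.1 * x.1.1.2.2.2.2 * xU x)) *
    (wone (xK x - 2 * (x.1.2 * xV x)) *
      wone (xK x - 2 * (x.1.1.2.2.1 * x.1.1.2.2.2.2 * xU x) - 2 * (x.1.2 * xV x) -
        2 * (x.1.1.2.2.2.1 * x.1.1.2.2.1 * x.1.1.2.2.2.2 * x.1.2 * xD x)))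

lemma xW_smooth : ContDiff ℝ ∞ xW := by
  have h1 := xK_smooth
  have e1 : ContDiff ℝ ∞ fun x : QX => 2 * (x.1.1.2.2.1 * x.1.1.2.2.2.2 * xU x) :=
    contDiff_const.mul ((by fun_prop : ContDiff ℝ ∞ fun x : QX =>
      x.1.1.2.2.1 * x.1.1.2.2.2.2).mul xU_smooth)
  have e2 : ContDiff ℝ ∞ fun x : QX => 2 * (x.1.2 * xV x) :=
    contDiff_const.mul ((by fun_prop : ContDiff ℝ ∞ fun x : QX => x.1.2).mul xV_smooth)
  have e3 : ContDiff ℝ ∞ fun x : QX =>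
      2 * (x.1.1.2.2.2.1 * x.1.1.2.2.1 * x.1.1.2.2.2.2 * x.1.2 * xD x) :=
    contDiff_const.mul ((by fun_prop : ContDiff ℝ ∞ fun x : QX =>
      x.1.1.2.2.2.1 * x.1.1.2.2.1 * x.1.1.2.2.2.2 * x.1.2).mul xD_smooth)
  exact ((wone_smooth.comp h1).mul (wone_smooth.comp (h1.sub e1))).mul
    ((wone_smooth.comp (h1.sub e2)).mul (wone_smooth.comp (((h1.sub e1).sub e2).sub e3)))

lemma amA_Wg (p : QP) (γ : ℝ) (a b : V) :
    Wg (amA p) (Sc 1 γ (f1_s a), Sc 1 γ (f1_s b)) = xW ((p, γ), a, b) := by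
  set x : QX := ((p, γ), a, b) with hx
  have h1 : Wg (amA p) (Sc 1 γ (f1_s a), Sc 1 γ (f1_s b)) =
      wA p (xX x) * wA p (xX x - yY p (xY x)) *
        (wA p ((xX x).1 - γ * (xZ x).1, (xX x).2 - γ * (xZ x).2) *
        wA p (((xX x).1 - γ * (xZ x).1, (xX x).2 - γ * (xZ x).2) - yY p (xY x))) := by
    unfold Wg amA px pz Sc f1_s
    simp only [MeasurableEquiv.coe_mk, Equiv.coe_fn_mk, one_mul]
    unfold xX xY xZ
    rw [hx]
  rw [h1]
  unfold wA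
  rw [Kp_y, Kp_z, Kp_yz]
  rfl

/-- The amplitude of the scaled form. -/
noncomputable def xc (x : ℝ × QX) : ℝ := xW x.2 * (chi (x.1 / xE x.2) / |xE x.2|)

lemma xc_smooth (S : Set QX) (hE0 : ∀ x ∈ S, xE x ≠ 0) :
    ContDiffOn ℝ ∞ xc (univ ×ˢ S) := by
  have h1 : ContDiff ℝ ∞ (fun x : ℝ × QX => xE x.2) := xE_smooth.comp contDiff_snd
  have h4 : ContDiffOn ℝ ∞ (fun x : ℝ × QX => chi (x.1 / xE x.2)) (univ ×ˢ S) :=
    chi_smooth.comp_contDiffOn (contDiff_fst.contDiffOn.div h1.contDiffOn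
      (fun x hx => hE0 _ hx.2))
  have h5 : ContDiffOn ℝ ∞ (fun x : ℝ × QX => |xE x.2|) (univ ×ˢ S) := by
    intro x hx
    exact (contDiffAt_abs (hE0 _ hx.2)).comp_contDiffWithinAt x h1.contDiffAt.contDiffWithinAt
  exact (xW_smooth.comp contDiff_snd).contDiffOn.mul
    (h4.div h5 (fun x hx => abs_ne_zero.2 (hE0 _ hx.2)))

lemma xc_supp (e0 e1' s : ℝ) (q : QX) (he0 : 0 < e0) (h0 : e0 ≤ |xE q|) (h1 : |xE q| ≤ e1')
    (h : xc (s, q) ≠ 0) : e0 / 2 ≤ |s| ∧ |s| ≤ 3 * e1' := by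
  have hchi : chi (s / xE q) ≠ 0 := by
    intro h2
    apply h
    unfold xc
    simp only
    rw [h2, zero_div, mul_zero]
  obtain ⟨g1, g2⟩ := chi_zero _ hchi
  have hE : 0 < |xE q| := lt_of_lt_of_le he0 h0
  have h3 : |s| = |s / xE q| * |xE q| := by
    rw [abs_div]
    field_simp
  have h4 : |s / xE q| = s / xE q := abs_of_nonneg (by linarith)
  rw [h4] at h3
  rw [h3]
  constructor
  · nlinarith
  · nlinarith

/-- The base data `((k, s), Y, ζ₁, ζ₂)`. -/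
abbrev BD : Type := ((ℝ × ℝ × ℝ × ℝ) × ℝ) × ℝ × ℝ × ℝ

/-- The local estimate. -/
def LocA (x : BD) (δ C : ℝ) : Prop :=
  ∀ p : QP, dist (p.1, p.2.1) x.1 ≤ δ → 0 < p.2.2.1 → p.2.2.1 ≤ δ → 0 < p.2.2.2.1 →
    p.2.2.2.1 ≤ δ → 0 < p.2.2.2.2 → p.2.2.2.2 ≤ δ → ∀ T γ : ℝ, 0 < T → 0 < γ → γ ≤ 2 * δ →
    ∀ A B : V → ℂ, Measurable A → Measurable B → (∀ a, ‖A a‖ ≤ 1) → (∀ b, ‖B b‖ ≤ 1) →
    (∀ u, A u ≠ 0 → |u.1| ≤ δ ∧ |u.2.1| ≤ δ ∧ |u.2.2 / γ - x.2.2.1| ≤ δ) →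
    (∀ v, B v ≠ 0 → |v.1 - x.2.1| ≤ δ ∧ |v.2.1| ≤ δ ∧ |v.2.2 / γ - x.2.2.2| ≤ δ) →
    ‖FFg (phA p) (amA p) T (tp A B)‖ ≤ C / (T * p.2.2.2.1)

/-- Reduction to the scaled integral. -/
lemma locA_of (x : BD) (δ1 C : ℝ) (hδ1 : 0 < δ1) (hC : 0 ≤ C)
    (hE : ∀ q ∈ ball ((pB x.1.1 x.1.2, ((x.2.2.1, 0, 0) : V), ((x.2.2.2, 0, x.2.1) : V)) : QX) δ1,
      xE q ≠ 0)
    (H : ∀ p ∈ ball (pB x.1.1 x.1.2) δ1, 0 < p.1.2.2.2.1 → ∀ lam : ℝ, 0 < lam →
      ∀ A B : V → ℂ, Measurable A → Measurable B → (∀ a, ‖A a‖ ≤ 1) → (∀ b, ‖B b‖ ≤ 1) →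
      (∀ a, A a ≠ 0 → a ∈ ball ((x.2.2.1, 0, 0) : V) δ1) →
      (∀ b, B b ≠ 0 → b ∈ ball ((x.2.2.2, 0, x.2.1) : V) δ1) →
      ‖∫ q : V × V, A q.1 * B q.2 * ∫ s : ℝ, ((xc (s, p, q.1, q.2) : ℝ) : ℂ) *
        ex (lam * (s * (xw (p, q.1) - xs (p, q.2) + p.1.2.2.2.1 * xG (p, q.1, q.2))))‖ ≤
        C / (lam ^ 2 * p.1.2.2.2.1)) :
    LocA x (δ1 / 3) C := by
  intro p hp hθ hθ1 hκ hκ1 hρ hρ1 T γ hT hγ hγδ A B hA hB hA1 hB1 hAs hBs
  set A' : V → ℂ := fun a => A (Sc 1 γ (f1_s a)) with hA'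
  set B' : V → ℂ := fun b => B (Sc 1 γ (f1_s b)) with hB'
  have hms : Measurable fun a : V => Sc 1 γ (f1_s a) :=
    (Sc_cont 1 γ).measurable.comp f1_s.measurable
  have hball : ∀ (u : V) (x y z : ℝ), |u.2.2 - x| ≤ δ1 / 3 ∧ |u.2.1 - y| ≤ δ1 / 3 ∧
      |u.1 - z| ≤ δ1 / 3 → u ∈ ball ((z, y, x) : V) δ1 := by
    intro u x y z h
    rw [mem_ball, Prod.dist_eq, Prod.dist_eq, Real.dist_eq, Real.dist_eq, Real.dist_eq]
    exact max_lt (by linarith [h.2.2]) (max_lt (by linarith [h.2.1]) (by linarith [h.1]))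
  have hAs' : ∀ a, A' a ≠ 0 → a ∈ ball ((x.2.2.1, 0, 0) : V) δ1 := by
    intro a ha
    have h := hAs _ ha
    unfold Sc f1_s at h
    simp only [MeasurableEquiv.coe_mk, Equiv.coe_fn_mk, one_mul] at h
    rw [mul_div_cancel_left₀ _ hγ.ne'] at h
    exact hball a _ _ _ ⟨by rw [sub_zero]; exact h.1, by rw [sub_zero]; exact h.2.1, h.2.2⟩
  have hBs' : ∀ b, B' b ≠ 0 → b ∈ ball ((x.2.2.2, 0, x.2.1) : V) δ1 := by
    intro b hb
    have h := hBs _ hb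
    unfold Sc f1_s at h
    simp only [MeasurableEquiv.coe_mk, Equiv.coe_fn_mk, one_mul] at h
    rw [mul_div_cancel_left₀ _ hγ.ne'] at h
    exact hball b _ _ _ ⟨h.1, by rw [sub_zero]; exact h.2.1, h.2.2⟩
  have hpb : ((p, γ) : QP × ℝ) ∈ ball (pB x.1.1 x.1.2) δ1 := by
    rw [Prod.dist_eq, max_le_iff] at hp
    obtain ⟨hp1, hp2⟩ := hp
    simp only at hp1 hp2
    have h3 : (0 : ℝ) < δ1 / 3 := by positivity
    rw [Real.dist_eq] at hp2
    have a2 : dist p.2 ((x.1.2, 0, 0, 0) : ℝ × ℝ × ℝ × ℝ) < δ1 := by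
      rw [Prod.dist_eq, Prod.dist_eq, Prod.dist_eq]
      simp only [Real.dist_eq, sub_zero]
      rw [abs_of_pos hθ, abs_of_pos hκ, abs_of_pos hρ]
      exact max_lt (by linarith) (max_lt (by linarith) (max_lt (by linarith) (by linarith)))
    have a1 : dist p ((x.1.1, (x.1.2, 0, 0, 0)) : QP) < δ1 := by
      rw [Prod.dist_eq]
      exact max_lt (by linarith) a2
    unfold pB
    rw [mem_ball, Prod.dist_eq]
    simp only [Real.dist_eq, sub_zero]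
    rw [abs_of_pos hγ]
    exact max_lt a1 (by linarith)
  have hmain := H (p, γ) hpb hκ (T * γ) (by positivity) A' B' (hA.comp hms) (hB.comp hms)
    (fun a => hA1 _) (fun b => hB1 _) hAs' hBs'
  have hid : FFg (phA p) (amA p) T (tp A B) =
      ((((1 * γ) * (1 * γ) : ℝ) : ℂ) * (T : ℂ)) *
      ∫ q : V × V, A' q.1 * B' q.2 * ∫ s : ℝ, ((xc (s, (p, γ), q.1, q.2) : ℝ) : ℂ) *
        ex (T * γ * (s * (xw ((p, γ), q.1) - xs ((p, γ), q.2) +
          p.2.2.2.1 * xG ((p, γ), q.1, q.2)))) := by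
    unfold FFg
    rw [integral_scale _ 1 γ γ one_pos hγ hγ,
      mul_assoc ((((1 * γ) * (1 * γ) : ℝ) : ℂ)) (T : ℂ), ← integral_const_mul (T : ℂ)]
    congr 1
    rw [← f1_sw_mp.integral_comp f1_sw.measurableEmbedding]
    refine integral_congr_ae (Filter.Eventually.of_forall fun q => ?_)
    have e1 : (f1_sw q).1 = f1_s q.1 := rfl
    have e2 : (f1_sw q).2 = f1_s q.2 := rfl
    simp only [tp, e1, e2]
    by_cases hq : A' q.1 = 0
    · have hq0 : A (Sc 1 γ (f1_s q.1)) = 0 := hq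
      rw [hq, hq0]; simp
    by_cases hq' : B' q.2 = 0
    · have hq0 : B (Sc 1 γ (f1_s q.2)) = 0 := hq'
      rw [hq', hq0]; simp
    have hin : (((p, γ), q.1, q.2) : QX) ∈ ball ((pB x.1.1 x.1.2, ((x.2.2.1, 0, 0) : V),
        ((x.2.2.2, 0, x.2.1) : V)) : QX) δ1 := by
      have g1 := hAs' _ hq
      have g2 := hBs' _ hq'
      rw [mem_ball] at g1 g2 hpb ⊢
      rw [Prod.dist_eq, Prod.dist_eq]
      exact max_lt hpb (max_lt g1 g2)
    have hE0 := hE _ hin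
    rw [Kt_scale T _ (xE ((p, γ), q.1, q.2)) (xw ((p, γ), q.1) - xs ((p, γ), q.2) +
          p.2.2.2.1 * xG ((p, γ), q.1, q.2)) hT hE0 γ
          (phA_nf p γ q.1 q.2 (mul_pos hθ hρ).ne' hE0), amA_Wg]
    have h5 : ∀ s : ℝ, ((xc (s, (p, γ), q.1, q.2) : ℝ) : ℂ) *
        ex (T * γ * (s * (xw ((p, γ), q.1) - xs ((p, γ), q.2) +
          p.2.2.2.1 * xG ((p, γ), q.1, q.2)))) =
        ((xW ((p, γ), q.1, q.2) : ℝ) : ℂ) *
        (((chi (s / xE ((p, γ), q.1, q.2)) / |xE ((p, γ), q.1, q.2)| : ℝ) : ℂ) *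
        ex (T * γ * (s * (xw ((p, γ), q.1) - xs ((p, γ), q.2) +
          p.2.2.2.1 * xG ((p, γ), q.1, q.2))))) := by
      intro s
      unfold xc
      simp only
      rw [Complex.ofReal_mul]
      ring
    simp only [h5]
    rw [integral_const_mul]
    have e3 : A (Sc 1 γ (f1_s q.1)) = A' q.1 := rfl
    have e4 : B (Sc 1 γ (f1_s q.2)) = B' q.2 := rfl
    rw [e3, e4]
    ring
  rw [hid, norm_mul, norm_mul, Complex.norm_real, Complex.norm_real, Real.norm_eq_abs,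
    Real.norm_eq_abs, abs_of_pos hT, abs_of_pos (by positivity)]
  calc 1 * γ * (1 * γ) * T * ‖_‖ ≤
      1 * γ * (1 * γ) * T * (C / ((T * γ) ^ 2 * p.2.2.2.1)) :=
        mul_le_mul_of_nonneg_left hmain (by positivity)
    _ = C / (T * p.2.2.2.1) := by
      field_simp

end Pool.Agent.SDT.N1G

end -- N1G.QAd
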