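import Pool.Agent.SDT.B06

set_option autoImplicit false

namespace Pool.Agent.SDT.MST
end Pool.Agent.SDT.MST

section -- N1.AN10

/-!
Row [N1-AN10]. Amplitudes: extension and uniform bounds.

Proof of `ext_amp`: `c̃ (s, q) = c (s, q) * β q` (`0` outside the ball) with a `ContDiffBump` `β` at `q0`, inner radius `r/2`,
outer radius `3r/4`: smooth near points of `univ ×ˢ ball q0 r` (product) and near the others it is locally `0`
(the closed ball of radius `3r/4`).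
Proof of `ampl`: `φ` = `ContDiffBump b₀` with `rIn = ρ/2`, `rOut = ρ` (equal to one on `closedBall b₀ (ρ/2)`,
support `ball b₀ ρ`, values in `[0,1]`). Bounds: `iter_bdd` (MST/IT.lean) for
(ds) `Ψ (τ, (p, a, b)) = c (τ, p, a, b)`: bounded for `|τ| ≤ R`, `‖(p,a,b)‖ ≤ R`; for `|s| > |s₁|` the function
`s ↦ c (s, p, a, b)` is locally zero, so its iterated derivatives vanish;
(db) `Ψ (τ, (s, s', p, a, a', b, e)) = c (s, p, a, b + τ e) * c (s', p, a', b + τ e) * φ (b + τ e)` at `τ = 0`, and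
`iteratedDeriv j (fun t => Ψ (t, (.., b, e))) t = iteratedDeriv j (fun τ => Ψ (τ, (.., b + t e, e))) 0`
(`iteratedDeriv_comp_add_const` or similar): with `b' = b + t e`: if `b' ∉ closedBall b₀ ρ`, or `|s| > |s₁|`, or
`|s'| > |s₁|`, the function vanishes near `0`, otherwise all parameters are in a fixed ball.
`R` is chosen larger than `|s₁|`, `‖p₀‖ + δ`, `‖a₀‖ + δ`, `‖b₀‖ + 3ρ`, `1`, and of the norms of the tuples (sup norm).
-/

namespace Pool.Agent.SDT.N1

open MeasureTheory Set Metric Pool.Agent.SDT.MST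
open scoped ContDiff

theorem ext_amp {Q : Type*} [NormedAddCommGroup Q] [NormedSpace ℝ Q] [FiniteDimensional ℝ Q]
    (c : ℝ × Q → ℝ) (q0 : Q) (r : ℝ) (hr : 0 < r) (hc : ContDiffOn ℝ ∞ c (univ ×ˢ ball q0 r)) :
    ∃ g : ℝ × Q → ℝ, ContDiff ℝ ∞ g ∧ (∀ s, ∀ q ∈ ball q0 (r / 2), g (s, q) = c (s, q)) ∧
      ∀ s q, g (s, q) ≠ 0 → q ∈ ball q0 r ∧ c (s, q) ≠ 0 := by
  let χ : ContDiffBump q0 := ⟨r / 2, 3 * r / 4, by linarith, by linarith⟩
  have h0 : ∀ q, q ∉ ball q0 (3 * r / 4) → χ q = 0 := by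
    intro q hq
    apply χ.zero_of_le_dist
    rw [mem_ball, not_lt] at hq
    exact hq
  refine ⟨fun z => χ z.2 * c z, ?_, ?_, ?_⟩
  · rw [contDiff_iff_contDiffAt]
    rintro ⟨s, x⟩
    by_cases hx : x ∈ ball q0 r
    · have h1 : ContDiffAt ℝ ∞ (fun z : ℝ × Q => χ z.2) (s, x) :=
        ((χ.contDiff (n := ⊤)).comp contDiff_snd).contDiffAt
      have ho : IsOpen ((univ : Set ℝ) ×ˢ ball q0 r) := isOpen_univ.prod isOpen_ball
      exact h1.mul (hc.contDiffAt (ho.mem_nhds ⟨mem_univ _, hx⟩))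
    · have h1 : ∀ᶠ y in nhds ((s, x) : ℝ × Q), χ y.2 * c y = 0 := by
        have ho : IsOpen ((univ : Set ℝ) ×ˢ (closedBall q0 (3 * r / 4))ᶜ) :=
          isOpen_univ.prod isClosed_closedBall.isOpen_compl
        have h2 : ((s, x) : ℝ × Q) ∈ (univ : Set ℝ) ×ˢ (closedBall q0 (3 * r / 4))ᶜ := by
          refine ⟨mem_univ _, ?_⟩
          simp only [mem_compl_iff, mem_closedBall, not_le]
          simp only [mem_ball, not_lt] at hx
          linarith
        filter_upwards [ho.mem_nhds h2] with y hy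
        have h3 : χ y.2 = 0 := by
          apply h0
          intro h4
          exact hy.2 (ball_subset_closedBall h4)
        rw [h3, zero_mul]
      exact (contDiffAt_const (c := (0 : ℝ))).congr_of_eventuallyEq h1
  · intro s q hq
    have h3 : χ q = 1 := χ.one_of_mem_closedBall (ball_subset_closedBall hq)
    show χ q * c (s, q) = c (s, q)
    rw [h3, one_mul]
  · intro s q hg
    have hg' : χ q * c (s, q) ≠ 0 := hg
    refine ⟨?_, right_ne_zero_of_mul hg'⟩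
    by_contra hq
    refine left_ne_zero_of_mul hg' (h0 q fun h4 => hq ?_)
    exact ball_subset_ball (by linarith) h4

theorem AN10_iter_zero (f : ℝ → ℝ) (t : ℝ) (j : ℕ) (h : ∀ᶠ x in nhds t, f x = 0) :
    iteratedDeriv j f t = 0 := by
  have h1 : f =ᶠ[nhds t] fun _ => (0 : ℝ) := h
  rw [h1.iteratedDeriv_eq j]
  rcases j with _ | j
  · simp
  · simp

theorem ampl {P : Type*} [NormedAddCommGroup P] [NormedSpace ℝ P] [FiniteDimensional ℝ P]
    (c : ℝ × P × V × V → ℝ) (hc : ContDiff ℝ ∞ c) (s₀ s₁ : ℝ)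
    (hs : ∀ s q, c (s, q) ≠ 0 → s₀ ≤ |s| ∧ |s| ≤ s₁) (p₀ : P) (a₀ b₀ : V) (δ ρ : ℝ)
    (hρ : 0 < ρ) : ∃ (φ : V → ℝ) (C₀ : ℝ), 0 ≤ C₀ ∧ ∀ p ∈ ball p₀ δ,
      Ampl (fun s a b => c (s, p, a, b)) φ (ball a₀ δ) b₀ ρ C₀ s₀ s₁ := by
  let χ : ContDiffBump b₀ := ⟨ρ / 2, ρ, by linarith, by linarith⟩
  have hχs : ContDiff ℝ ∞ (fun b : V => χ b) := χ.contDiff (n := ⊤)
  have hz : ∀ s q, |s₁| < |s| → c (s, q) = 0 := by
    intro s q h1
    by_contra h2
    have := (hs s q h2).2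
    linarith [le_abs_self s₁]
  set R : ℝ := |s₁| + ‖p₀‖ + |δ| + ‖a₀‖ + ‖b₀‖ + 3 * ρ + 1 with hR
  have n1 := norm_nonneg p₀
  have n2 := norm_nonneg a₀
  have n3 := norm_nonneg b₀
  have n4 := abs_nonneg s₁
  have n5 := abs_nonneg δ
  have hcn : ∀ n : ℕ, ContDiff ℝ n c := fun n => hc.of_le (by exact_mod_cast le_top)
  obtain ⟨C1, hC1, hb1⟩ := iter_bdd c hcn 8 R
  let Ψ : ℝ × (ℝ × ℝ × P × V × V × V × V) → ℝ := fun z =>
    c (z.2.1, z.2.2.2.1, z.2.2.2.2.1, z.2.2.2.2.2.2.1 + z.1 • z.2.2.2.2.2.2.2) *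
      c (z.2.2.1, z.2.2.2.1, z.2.2.2.2.2.1, z.2.2.2.2.2.2.1 + z.1 • z.2.2.2.2.2.2.2) *
      χ (z.2.2.2.2.2.2.1 + z.1 • z.2.2.2.2.2.2.2)
  have hΨ : ContDiff ℝ ∞ Ψ := by
    have e1 : ContDiff ℝ ∞ (fun z : ℝ × (ℝ × ℝ × P × V × V × V × V) =>
        z.2.2.2.2.2.2.1 + z.1 • z.2.2.2.2.2.2.2) := by fun_prop
    have e2 : ContDiff ℝ ∞ (fun z : ℝ × (ℝ × ℝ × P × V × V × V × V) =>
        ((z.2.1, z.2.2.2.1, z.2.2.2.2.1, z.2.2.2.2.2.2.1 + z.1 • z.2.2.2.2.2.2.2) :
          ℝ × P × V × V)) := by fun_prop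
    have e3 : ContDiff ℝ ∞ (fun z : ℝ × (ℝ × ℝ × P × V × V × V × V) =>
        ((z.2.2.1, z.2.2.2.1, z.2.2.2.2.2.1, z.2.2.2.2.2.2.1 + z.1 • z.2.2.2.2.2.2.2) :
          ℝ × P × V × V)) := by fun_prop
    exact ((hc.comp e2).mul (hc.comp e3)).mul (hχs.comp e1)
  have hΨn : ∀ n : ℕ, ContDiff ℝ n Ψ := fun n => hΨ.of_le (by exact_mod_cast le_top)
  obtain ⟨C2, hC2, hb2⟩ := iter_bdd Ψ hΨn 8 R
  refine ⟨fun b => χ b, C1 + C2, by positivity, fun p hp => ?_⟩
  have hpn : ‖p‖ ≤ R := by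
    rw [mem_ball, dist_eq_norm] at hp
    have h1 : ‖p‖ ≤ ‖p - p₀‖ + ‖p₀‖ := by
      calc ‖p‖ = ‖(p - p₀) + p₀‖ := by rw [sub_add_cancel]
        _ ≤ _ := norm_add_le _ _
    linarith [le_abs_self δ]
  have han : ∀ a ∈ ball a₀ δ, ‖a‖ ≤ R := by
    intro a ha
    rw [mem_ball, dist_eq_norm] at ha
    have h1 : ‖a‖ ≤ ‖a - a₀‖ + ‖a₀‖ := by
      calc ‖a‖ = ‖(a - a₀) + a₀‖ := by rw [sub_add_cancel]
        _ ≤ _ := norm_add_le _ _
    linarith [le_abs_self δ]
  have hbn : ∀ b ∈ closedBall b₀ (3 * ρ), ‖b‖ ≤ R := by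
    intro b hb
    rw [mem_closedBall, dist_eq_norm] at hb
    have h1 : ‖b‖ ≤ ‖b - b₀‖ + ‖b₀‖ := by
      calc ‖b‖ = ‖(b - b₀) + b₀‖ := by rw [sub_add_cancel]
        _ ≤ _ := norm_add_le _ _
    linarith
  have hzero : ∀ b, b ∉ ball b₀ ρ → χ b = 0 := by
    intro b hb
    apply χ.zero_of_le_dist
    rw [mem_ball, not_lt] at hb
    exact hb
  refine ⟨?_, hχs, fun s a b h => hs s (p, a, b) h, hzero, ?_, fun b => χ.nonneg,
    fun b => χ.le_one, ?_, ?_⟩
  · have e1 : ContDiff ℝ ∞ (fun x : ℝ × V × V => ((x.1, p, x.2.1, x.2.2) : ℝ × P × V × V)) := by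
      fun_prop
    exact hc.comp e1
  · intro b hb
    exact χ.one_of_mem_closedBall (ball_subset_closedBall hb)
  · intro a ha b hb s j hj
    by_cases hsR : |s| ≤ R
    · have hq : ‖((p, a, b) : P × V × V)‖ ≤ R := by
        rw [Prod.norm_def, Prod.norm_def]
        exact max_le hpn (max_le (han a ha) (hbn b hb))
      exact (hb1 (p, a, b) hq s hsR j hj).trans (by linarith)
    · have h1 : iteratedDeriv j (fun s => c (s, p, a, b)) s = 0 := by
        apply AN10_iter_zero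
        have ho : IsOpen {x : ℝ | |s₁| < |x|} := isOpen_lt continuous_const continuous_abs
        have hm : s ∈ {x : ℝ | |s₁| < |x|} := by
          show |s₁| < |s|
          push Not at hsR
          linarith
        filter_upwards [ho.mem_nhds hm] with x hx
        exact hz x _ hx
      rw [h1, abs_zero]
      positivity
  · intro a ha a' ha' s s' e he b t j hj
    set b' : V := b + t • e with hb'
    have hshift : iteratedDeriv j (fun t : ℝ => c (s, p, a, b + t • e) * c (s', p, a', b + t • e) *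
        χ (b + t • e)) t = iteratedDeriv j (fun τ : ℝ => Ψ (τ, (s, s', p, a, a', b', e))) 0 := by
      have h1 : (fun τ : ℝ => Ψ (τ, (s, s', p, a, a', b', e))) = fun τ : ℝ =>
          (fun t : ℝ => c (s, p, a, b + t • e) * c (s', p, a', b + t • e) *
            χ (b + t • e)) (τ + t) := by
        funext τ
        show c (s, p, a, b' + τ • e) * c (s', p, a', b' + τ • e) * χ (b' + τ • e) =
          c (s, p, a, b + (τ + t) • e) * c (s', p, a', b + (τ + t) • e) * χ (b + (τ + t) • e)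
        have h2 : b' + τ • e = b + (τ + t) • e := by
          rw [hb', add_smul]
          abel
        rw [h2]
      rw [h1]
      have h3 := congrFun (iteratedDeriv_comp_add_const j (fun t : ℝ =>
        c (s, p, a, b + t • e) * c (s', p, a', b + t • e) * χ (b + t • e)) t) 0
      rw [h3, zero_add]
    show |iteratedDeriv j (fun t : ℝ => c (s, p, a, b + t • e) * c (s', p, a', b + t • e) *
        χ (b + t • e)) t| ≤ C1 + C2
    rw [hshift]
    by_cases h1 : |s| ≤ R ∧ |s'| ≤ R ∧ b' ∈ closedBall b₀ ρ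
    · obtain ⟨h2, h3, h4⟩ := h1
      have hq : ‖((s, s', p, a, a', b', e) : ℝ × ℝ × P × V × V × V × V)‖ ≤ R := by
        simp only [Prod.norm_def]
        refine max_le ?_ (max_le ?_ (max_le hpn (max_le ?_ (max_le ?_ (max_le ?_ ?_)))))
        · rwa [Real.norm_eq_abs]
        · rwa [Real.norm_eq_abs]
        · exact han a ha
        · exact han a' ha'
        · exact hbn b' (closedBall_subset_closedBall (by linarith) h4)
        · have : ‖e‖ ≤ R := by linarith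
          exact this
      exact (hb2 _ hq 0 (by rw [abs_zero]; positivity) j hj).trans (by linarith)
    · have h5 : iteratedDeriv j (fun τ : ℝ => Ψ (τ, (s, s', p, a, a', b', e))) 0 = 0 := by
        apply AN10_iter_zero
        by_cases h2 : |s| ≤ R
        · by_cases h3 : |s'| ≤ R
          · have h4 : b' ∉ closedBall b₀ ρ := fun h4 => h1 ⟨h2, h3, h4⟩
            have hcont : Continuous (fun τ : ℝ => b' + τ • e) := by fun_prop
            have ho : IsOpen ((fun τ : ℝ => b' + τ • e) ⁻¹' (closedBall b₀ ρ)ᶜ) :=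
              isClosed_closedBall.isOpen_compl.preimage hcont
            have hm : (0 : ℝ) ∈ (fun τ : ℝ => b' + τ • e) ⁻¹' (closedBall b₀ ρ)ᶜ := by
              simpa using h4
            filter_upwards [ho.mem_nhds hm] with τ hτ
            have h6 : χ (b' + τ • e) = 0 := hzero _ fun h7 => hτ (ball_subset_closedBall h7)
            show _ * _ * χ (b' + τ • e) = 0
            rw [h6, mul_zero]
          · refine Filter.Eventually.of_forall fun τ => ?_
            show c (s, p, a, b' + τ • e) * c (s', p, a', b' + τ • e) * χ (b' + τ • e) = 0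
            rw [hz s' _ (by push Not at h3; linarith), mul_zero, zero_mul]
        · refine Filter.Eventually.of_forall fun τ => ?_
          show c (s, p, a, b' + τ • e) * c (s', p, a', b' + τ • e) * χ (b' + τ • e) = 0
          rw [hz s _ (by push Not at h2; linarith), zero_mul, zero_mul]
      rw [h5, abs_zero]
      positivity

end Pool.Agent.SDT.N1

end -- N1.AN10

section -- N1.AN11

/-!
Row [N1-AN11]. Continuity of the first and the mixed second derivative near a base point.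

Proof. `G : P × V × V → ℝ` smooth. (1) For fixed `b`, `p` the function
`a ↦ G (p, a, b) - (fderiv ℝ (fun a => G (p₀, a, b₀)) a₀) a` on the ball of radius `δ` has derivative
`fderiv (G(p, ·, b)) a - fderiv (G(p₀, ·, b₀)) a₀`, of norm `≤ ε` near the base point, because
`(p, a, b) ↦ fderiv ℝ (fun a => G (p, a, b)) a` is continuous (`ContDiff.fderiv` or: it is the restriction of
`fderiv ℝ G (p, a, b)` to `{0} × V × {0}`: `fderiv ℝ (fun a => G (p, a, b)) a u = fderiv ℝ G (p, a, b) (0, u, 0)`); mean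
value inequality on the convex ball (`Convex.norm_image_sub_le_of_norm_hasFDerivWithin_le`).
(2) `deriv (fun t => G (p, a, b + t • e)) 0 = fderiv ℝ G (p, a, b) (0, 0, e)`, continuous, uniformly in `‖e‖ ≤ 1`.
(3) `H (p, a, b, e) = fderiv ℝ G (p, a, b) (0, 0, e)` is smooth in all variables and linear in `e`; apply the argument of (1) to
the function `a ↦ H (p, a, b, e) - H' (a)`, `H' = ` the derivative of `a ↦ H (p₀, a, b₀, e)` at `a₀`, uniformly
for `‖e‖ ≤ 1`: use that `(p, a, b) ↦ (fderiv in a of the operator fderiv ℝ G (p, a, b) ∘ (0,0,·))` is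
continuous with values in `V →L[ℝ] V →L[ℝ] ℝ`. The iterated derivative in the statement is
`fderiv ℝ (fun b => fderiv ℝ (fun a => G (p₀, a, b)) a₀ u) b₀ e = fderiv ℝ (fderiv ℝ G) (p₀,a₀,b₀) (0,0,e) (0,u,0)`, symmetric
in the two directions (`ContDiffAt.isSymmSndFDerivAt` / `second_derivative_symmetric`).
-/

namespace Pool.Agent.SDT.N1

open MeasureTheory Set Metric Pool.Agent.SDT.MST
open scoped ContDiff

private lemma AN11_strict {P : Type*} [NormedAddCommGroup P] [NormedSpace ℝ P]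
    {F : Type*} [NormedAddCommGroup F] [NormedSpace ℝ F]
    (G : P × V × V → F) (hG : ContDiff ℝ 1 G) (p₀ : P) (a₀ b₀ : V) (ε : ℝ) (hε : 0 < ε) :
    ∃ δ : ℝ, 0 < δ ∧ ∀ p ∈ ball p₀ δ, ∀ a ∈ ball a₀ δ, ∀ a' ∈ ball a₀ δ, ∀ b ∈ ball b₀ δ,
      ‖G (p, a, b) - G (p, a', b) - fderiv ℝ G (p₀, a₀, b₀) (0, a - a', 0)‖
        ≤ ε * ‖a - a'‖ := by
  have h1 : HasStrictFDerivAt G (fderiv ℝ G (p₀, a₀, b₀)) (p₀, a₀, b₀) :=
    (hG.contDiffAt).hasStrictFDerivAt (by norm_num)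
  have h2 := (h1.isLittleO).def hε
  rw [Metric.eventually_nhds_iff_ball] at h2
  obtain ⟨δ, hδ, h3⟩ := h2
  refine ⟨δ, hδ, fun p hp a ha a' ha' b hb => ?_⟩
  have h4 : (((p, a, b), (p, a', b)) : (P × V × V) × (P × V × V)) ∈
      ball (((p₀, a₀, b₀), (p₀, a₀, b₀)) : (P × V × V) × (P × V × V)) δ := by
    rw [mem_ball] at *
    simp only [Prod.dist_eq, max_lt_iff] at *
    exact ⟨⟨hp, ha, hb⟩, ⟨hp, ha', hb⟩⟩
  have h5 := h3 _ h4
  have h6 : ((p, a, b) : P × V × V) - (p, a', b) = (0, a - a', 0) := by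
    ext <;> simp
  have h7 : ‖((0, a - a', 0) : P × V × V)‖ = ‖a - a'‖ := by
    simp [Prod.norm_def]
  simp only [h6, h7] at h5
  exact h5

private lemma AN11_ha {P : Type*} [NormedAddCommGroup P] [NormedSpace ℝ P]
    {F : Type*} [NormedAddCommGroup F] [NormedSpace ℝ F]
    (G : P × V × V → F) (hG : Differentiable ℝ G) (p : P) (a b : V) (u : V) :
    fderiv ℝ (fun a => G (p, a, b)) a u = fderiv ℝ G (p, a, b) (0, u, 0) := by
  have h1 : HasFDerivAt (fun a : V => ((p, a, b) : P × V × V))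
      ((ContinuousLinearMap.inr ℝ P (V × V)).comp (ContinuousLinearMap.inl ℝ V V)) a := by
    have h2 : HasFDerivAt (fun a : V => ((a, b) : V × V)) (ContinuousLinearMap.inl ℝ V V) a :=
      hasFDerivAt_prodMk_left a b
    exact (hasFDerivAt_prodMk_right p (a, b)).comp a h2
  have h3 := ((hG (p, a, b)).hasFDerivAt.comp a h1).fderiv
  have h4 : (G ∘ fun a : V => ((p, a, b) : P × V × V)) = fun a => G (p, a, b) := rfl
  rw [h4] at h3
  rw [h3]
  simp

private lemma AN11_hb {P : Type*} [NormedAddCommGroup P] [NormedSpace ℝ P]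
    {F : Type*} [NormedAddCommGroup F] [NormedSpace ℝ F]
    (G : P × V × V → F) (hG : Differentiable ℝ G) (p : P) (a b : V) (u : V) :
    fderiv ℝ (fun b => G (p, a, b)) b u = fderiv ℝ G (p, a, b) (0, 0, u) := by
  have h1 : HasFDerivAt (fun b : V => ((p, a, b) : P × V × V))
      ((ContinuousLinearMap.inr ℝ P (V × V)).comp (ContinuousLinearMap.inr ℝ V V)) b := by
    have h2 : HasFDerivAt (fun b : V => ((a, b) : V × V)) (ContinuousLinearMap.inr ℝ V V) b :=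
      hasFDerivAt_prodMk_right a b
    exact (hasFDerivAt_prodMk_right p (a, b)).comp b h2
  have h3 := ((hG (p, a, b)).hasFDerivAt.comp b h1).fderiv
  have h4 : (G ∘ fun b : V => ((p, a, b) : P × V × V)) = fun b => G (p, a, b) := rfl
  rw [h4] at h3
  rw [h3]
  simp

private lemma AN11_he {P : Type*} [NormedAddCommGroup P] [NormedSpace ℝ P]
    (G : P × V × V → ℝ) (hG : Differentiable ℝ G) (p : P) (a b e : V) :
    deriv (fun t : ℝ => G (p, a, b + t • e)) 0 = fderiv ℝ G (p, a, b) (0, 0, e) := by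
  have h1 : HasDerivAt (fun t : ℝ => ((p, a, b) : P × V × V) + t • ((0, 0, e) : P × V × V))
      ((0, 0, e) : P × V × V) 0 := by
    have h3 : HasDerivAt (fun τ : ℝ => τ • ((0, 0, e) : P × V × V))
        ((1 : ℝ) • ((0, 0, e) : P × V × V)) 0 := (hasDerivAt_id (0 : ℝ)).smul_const _
    rw [one_smul] at h3
    exact h3.const_add _
  have h2 : HasFDerivAt G (fderiv ℝ G (p, a, b))
      (((p, a, b) : P × V × V) + (0 : ℝ) • ((0, 0, e) : P × V × V)) := by
    rw [zero_smul, add_zero]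
    exact (hG (p, a, b)).hasFDerivAt
  have h3 := (h2.comp_hasDerivAt (0 : ℝ) h1).deriv
  have h4 : (G ∘ fun t : ℝ => ((p, a, b) : P × V × V) + t • ((0, 0, e) : P × V × V)) =
      fun t : ℝ => G (p, a, b + t • e) := by
    funext t
    simp
  rw [h4] at h3
  exact h3

theorem close1 {P : Type*} [NormedAddCommGroup P] [NormedSpace ℝ P] [FiniteDimensional ℝ P]
    (G : P × V × V → ℝ) (hG : ContDiff ℝ ∞ G) (p₀ : P) (a₀ b₀ : V) (ε : ℝ) (hε : 0 < ε) :
    ∃ δ : ℝ, 0 < δ ∧ ∀ p ∈ ball p₀ δ, ∀ a ∈ ball a₀ δ, ∀ a' ∈ ball a₀ δ, ∀ b ∈ ball b₀ δ,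
      |G (p, a, b) - G (p, a', b) - fderiv ℝ (fun a => G (p₀, a, b₀)) a₀ (a - a')|
        ≤ ε * ‖a - a'‖ := by
  obtain ⟨δ, hδ, h⟩ := AN11_strict G (hG.of_le (by exact_mod_cast le_top)) p₀ a₀ b₀ ε hε
  refine ⟨δ, hδ, fun p hp a ha a' ha' b hb => ?_⟩
  rw [AN11_ha G (hG.differentiable (by simp)) p₀ a₀ b₀ (a - a')]
  exact h p hp a ha a' ha' b hb

theorem close2 {P : Type*} [NormedAddCommGroup P] [NormedSpace ℝ P] [FiniteDimensional ℝ P]
    (G : P × V × V → ℝ) (hG : ContDiff ℝ ∞ G) (p₀ : P) (a₀ b₀ : V) (ε : ℝ) (hε : 0 < ε) :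
    ∃ δ : ℝ, 0 < δ ∧ ∀ p ∈ ball p₀ δ, ∀ a ∈ ball a₀ δ, ∀ b ∈ ball b₀ δ, ∀ e : V, ‖e‖ ≤ 1 →
      |deriv (fun t : ℝ => G (p, a, b + t • e)) 0 - fderiv ℝ (fun b => G (p₀, a₀, b)) b₀ e|
        ≤ ε := by
  have hd : Differentiable ℝ G := hG.differentiable (by simp)
  have hc : Continuous (fderiv ℝ G) := hG.continuous_fderiv (by simp)
  obtain ⟨δ, hδ, h⟩ := Metric.continuous_iff.mp hc (p₀, a₀, b₀) ε hε
  refine ⟨δ, hδ, fun p hp a ha b hb e he => ?_⟩
  rw [AN11_he G hd, AN11_hb G hd]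
  have h1 : dist (fderiv ℝ G (p, a, b)) (fderiv ℝ G (p₀, a₀, b₀)) < ε := by
    apply h
    rw [mem_ball] at *
    simp only [Prod.dist_eq, max_lt_iff] at *
    exact ⟨hp, ha, hb⟩
  rw [dist_eq_norm] at h1
  have h2 := (fderiv ℝ G (p, a, b) - fderiv ℝ G (p₀, a₀, b₀)).le_opNorm
    ((0, 0, e) : P × V × V)
  have h3 : ‖((0, 0, e) : P × V × V)‖ = ‖e‖ := by simp [Prod.norm_def]
  rw [h3, Real.norm_eq_abs] at h2
  have h4 : ‖fderiv ℝ G (p, a, b) - fderiv ℝ G (p₀, a₀, b₀)‖ * ‖e‖ ≤ ε * 1 :=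
    mul_le_mul h1.le he (norm_nonneg _) hε.le
  have h5 : (fderiv ℝ G (p, a, b) - fderiv ℝ G (p₀, a₀, b₀)) ((0, 0, e) : P × V × V) =
      fderiv ℝ G (p, a, b) (0, 0, e) - fderiv ℝ G (p₀, a₀, b₀) (0, 0, e) := rfl
  rw [h5] at h2
  linarith

theorem close3 {P : Type*} [NormedAddCommGroup P] [NormedSpace ℝ P] [FiniteDimensional ℝ P]
    (G : P × V × V → ℝ) (hG : ContDiff ℝ ∞ G) (p₀ : P) (a₀ b₀ : V) (ε : ℝ) (hε : 0 < ε) :
    ∃ δ : ℝ, 0 < δ ∧ ∀ p ∈ ball p₀ δ, ∀ a ∈ ball a₀ δ, ∀ a' ∈ ball a₀ δ, ∀ b ∈ ball b₀ δ,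
      ∀ e : V, ‖e‖ ≤ 1 →
      |deriv (fun t : ℝ => G (p, a, b + t • e)) 0 - deriv (fun t : ℝ => G (p, a', b + t • e)) 0
        - fderiv ℝ (fun b => fderiv ℝ (fun a => G (p₀, a, b)) a₀ (a - a')) b₀ e|
        ≤ ε * ‖a - a'‖ := by
  have hd : Differentiable ℝ G := hG.differentiable (by simp)
  have hG1 : ContDiff ℝ 1 (fderiv ℝ G) :=
    (contDiff_infty.mp hG 2).fderiv_right (by norm_num)
  have hd1 : Differentiable ℝ (fderiv ℝ G) := hG1.differentiable (by norm_num)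
  obtain ⟨δ, hδ, h⟩ := AN11_strict (fderiv ℝ G) hG1 p₀ a₀ b₀ ε hε
  refine ⟨δ, hδ, fun p hp a ha a' ha' b hb e he => ?_⟩
  rw [AN11_he G hd, AN11_he G hd]
  have h0 : (fun b => fderiv ℝ (fun a => G (p₀, a, b)) a₀ (a - a')) =
      fun b => fderiv ℝ G (p₀, a₀, b) (0, a - a', 0) := by
    funext b
    exact AN11_ha G hd p₀ a₀ b (a - a')
  rw [h0]
  have h1 : fderiv ℝ (fun b => fderiv ℝ G (p₀, a₀, b) (0, a - a', 0)) b₀ e =
      fderiv ℝ (fderiv ℝ G) (p₀, a₀, b₀) (0, 0, e) (0, a - a', 0) := by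
    have h2 := AN11_hb (fun q => fderiv ℝ G q ((0, a - a', 0) : P × V × V))
      (fun q => (hd1 q).clm_apply (differentiableAt_const _)) p₀ a₀ b₀ e
    rw [h2]
    have h3 : HasFDerivAt (fun q => fderiv ℝ G q ((0, a - a', 0) : P × V × V))
        ((fderiv ℝ (fderiv ℝ G) (p₀, a₀, b₀)).flip ((0, a - a', 0) : P × V × V)) (p₀, a₀, b₀) := by
      have h4 := (hd1 (p₀, a₀, b₀)).hasFDerivAt.clm_apply
        (hasFDerivAt_const ((0, a - a', 0) : P × V × V) (p₀, a₀, b₀))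
      simpa using h4
    rw [h3.fderiv]
    rfl
  have hsymm : fderiv ℝ (fderiv ℝ G) (p₀, a₀, b₀) (0, 0, e) (0, a - a', 0) =
      fderiv ℝ (fderiv ℝ G) (p₀, a₀, b₀) (0, a - a', 0) (0, 0, e) :=
    second_derivative_symmetric (fun y => (hd y).hasFDerivAt) (hd1 _).hasFDerivAt _ _
  rw [h1, hsymm]
  have h5 := h p hp a ha a' ha' b hb
  have h6 := (fderiv ℝ G (p, a, b) - fderiv ℝ G (p, a', b) -
    fderiv ℝ (fderiv ℝ G) (p₀, a₀, b₀) (0, a - a', 0)).le_opNorm ((0, 0, e) : P × V × V)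
  have h3 : ‖((0, 0, e) : P × V × V)‖ = ‖e‖ := by simp [Prod.norm_def]
  rw [h3, Real.norm_eq_abs] at h6
  have h7 : ‖fderiv ℝ G (p, a, b) - fderiv ℝ G (p, a', b) -
    fderiv ℝ (fderiv ℝ G) (p₀, a₀, b₀) (0, a - a', 0)‖ * ‖e‖ ≤ (ε * ‖a - a'‖) * 1 :=
    mul_le_mul h5 he (norm_nonneg _) (by positivity)
  have h8 : (fderiv ℝ G (p, a, b) - fderiv ℝ G (p, a', b) -
    fderiv ℝ (fderiv ℝ G) (p₀, a₀, b₀) (0, a - a', 0)) ((0, 0, e) : P × V × V) =
      fderiv ℝ G (p, a, b) (0, 0, e) - fderiv ℝ G (p, a', b) (0, 0, e) -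
      fderiv ℝ (fderiv ℝ G) (p₀, a₀, b₀) (0, a - a', 0) (0, 0, e) := rfl
  rw [h8] at h6
  linarith

/-- Iterated directional derivatives. -/
private noncomputable def AN11_hitD {Q : Type*} [NormedAddCommGroup Q] [NormedSpace ℝ Q] (v : Q)
    (Ψ : Q → ℝ) : ℕ → Q → ℝ
  | 0 => Ψ
  | j + 1 => fun q => fderiv ℝ (AN11_hitD v Ψ j) q v

private lemma AN11_hit_smooth {Q : Type*} [NormedAddCommGroup Q] [NormedSpace ℝ Q] (v : Q)
    (Ψ : Q → ℝ) (h : ∀ n : ℕ, ContDiff ℝ n Ψ) (j : ℕ) :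
    ∀ n : ℕ, ContDiff ℝ n (AN11_hitD v Ψ j) := by
  induction j with
  | zero => exact h
  | succ j ih =>
    intro n
    have h1 := ih (n + 1)
    have h2 : ContDiff ℝ n (fderiv ℝ (AN11_hitD v Ψ j)) :=
      h1.fderiv_right (by push_cast; exact le_rfl)
    exact h2.clm_apply contDiff_const

private lemma AN11_hit_formula {Q : Type*} [NormedAddCommGroup Q] [NormedSpace ℝ Q] (v : Q)
    (Ψ : Q → ℝ) (h : ∀ n : ℕ, ContDiff ℝ n Ψ) (j : ℕ) (q : Q) : ∀ τ : ℝ,
    iteratedDeriv j (fun τ : ℝ => Ψ (q + τ • v)) τ = AN11_hitD v Ψ j (q + τ • v) := by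
  induction j with
  | zero => intro τ; simp [AN11_hitD]
  | succ j ih =>
    intro τ
    rw [iteratedDeriv_succ, funext ih]
    have h1 : DifferentiableAt ℝ (AN11_hitD v Ψ j) (q + τ • v) :=
      ((AN11_hit_smooth v Ψ h j 1).differentiable (by norm_num)) _
    have h2 : HasDerivAt (fun τ : ℝ => q + τ • v) v τ := by
      have h3 : HasDerivAt (fun τ : ℝ => τ • v) ((1 : ℝ) • v) τ := (hasDerivAt_id τ).smul_const v
      rw [one_smul] at h3
      exact h3.const_add q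
    exact (h1.hasFDerivAt.comp_hasDerivAt τ h2).deriv

private lemma AN11_psi {P : Type*} [NormedAddCommGroup P] [NormedSpace ℝ P]
    (G : P × V × V → ℝ) (hG : ContDiff ℝ ∞ G) (n : ℕ) :
    ContDiff ℝ n (fun x : ℝ × (P × V × V × V) =>
      G (x.2.1, x.2.2.1, x.2.2.2.1 + x.1 • x.2.2.2.2)) := by
  have h1 : ContDiff ℝ n G := hG.of_le (by exact_mod_cast le_top)
  apply h1.comp
  fun_prop

/-- Uniform bounds for all derivatives of order `≤ 9` along lines in `b`. -/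
theorem line_bdd {P : Type*} [NormedAddCommGroup P] [NormedSpace ℝ P] [FiniteDimensional ℝ P]
    (G : P × V × V → ℝ) (hG : ContDiff ℝ ∞ G) (R : ℝ) : ∃ C : ℝ, 0 ≤ C ∧
    ∀ (p : P) (a b e : V), ‖p‖ ≤ R → ‖a‖ ≤ R → ‖b‖ ≤ R → ‖e‖ ≤ 1 → ∀ j ≤ 9,
      |iteratedDeriv j (fun t : ℝ => G (p, a, b + t • e)) 0| ≤ C := by
  obtain ⟨C, hC, h⟩ := iter_bdd (P := P × V × V × V)
    (fun x : ℝ × (P × V × V × V) => G (x.2.1, x.2.2.1, x.2.2.2.1 + x.1 • x.2.2.2.2))
    (AN11_psi G hG) 9 (max R 1)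
  refine ⟨C, hC, fun p a b e hp ha hb he j hj => ?_⟩
  refine h (p, a, b, e) ?_ 0 (by simp) j hj
  simp only [Prod.norm_mk]
  exact max_le (hp.trans (le_max_left _ _)) (max_le (ha.trans (le_max_left _ _))
    (max_le (hb.trans (le_max_left _ _)) (he.trans (le_max_right _ _))))

/-- The same for differences in `a` (apply the mean value inequality in `a` to the smooth function
`(p, a, b, e) ↦ iteratedDeriv j (fun t => G (p, a, b + t • e)) 0`, `hit_smooth`, `hit_formula` in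
MST/IT.lean with `Ψ (τ, p, a, b, e) = G (p, a, b + τ • e)` and the direction `(1, 0)`). -/
theorem line_lip {P : Type*} [NormedAddCommGroup P] [NormedSpace ℝ P] [FiniteDimensional ℝ P]
    (G : P × V × V → ℝ) (hG : ContDiff ℝ ∞ G) (R : ℝ) : ∃ C : ℝ, 0 ≤ C ∧
    ∀ (p : P) (a a' b e : V), ‖p‖ ≤ R → ‖a‖ ≤ R → ‖a'‖ ≤ R → ‖b‖ ≤ R → ‖e‖ ≤ 1 → ∀ j ≤ 9,
      |iteratedDeriv j (fun t : ℝ => G (p, a, b + t • e) - G (p, a', b + t • e)) 0|
        ≤ C * ‖a - a'‖ := by
  set Ψ : ℝ × (P × V × V × V) → ℝ :=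
    fun x => G (x.2.1, x.2.2.1, x.2.2.2.1 + x.1 • x.2.2.2.2) with hΨ
  have hs : ∀ n : ℕ, ContDiff ℝ n Ψ := AN11_psi G hG
  set v : ℝ × (P × V × V × V) := (1, 0) with hv
  have hb : ∀ j : ℕ, ∃ C : ℝ, ∀ q ∈ Metric.closedBall (0 : ℝ × (P × V × V × V)) (max R 1),
      ‖fderiv ℝ (AN11_hitD v Ψ j) q‖ ≤ C := by
    intro j
    have : ProperSpace (ℝ × (P × V × V × V)) :=
      FiniteDimensional.proper_real (ℝ × (P × V × V × V))
    exact (isCompact_closedBall (0 : ℝ × (P × V × V × V)) (max R 1)).exists_bound_of_continuousOn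
      (((AN11_hit_smooth v Ψ hs j 1).continuous_fderiv (by norm_num)).continuousOn)
  choose C hC using hb
  refine ⟨∑ j ∈ Finset.range (9 + 1), |C j|, Finset.sum_nonneg fun _ _ => abs_nonneg _, ?_⟩
  intro p a a' b e hp ha ha' hb he j hj
  have hf : ∀ a : V, iteratedDeriv j (fun t : ℝ => G (p, a, b + t • e)) 0 =
      AN11_hitD v Ψ j (0, (p, a, b, e)) := by
    intro a
    have h1 := AN11_hit_formula v Ψ hs j (0, (p, a, b, e)) 0
    have h2 : ∀ τ : ℝ, ((0, (p, a, b, e)) : ℝ × (P × V × V × V)) + τ • v =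
        (τ, (p, a, b, e)) := by
      intro τ
      rw [hv]
      ext <;> simp
    simp only [h2] at h1
    exact h1
  have hline : ∀ a : V, ContDiff ℝ j (fun t : ℝ => G (p, a, b + t • e)) := by
    intro a
    have h1 : ContDiff ℝ j G := hG.of_le (by exact_mod_cast le_top)
    apply h1.comp
    fun_prop
  have hsub : iteratedDeriv j (fun t : ℝ => G (p, a, b + t • e) - G (p, a', b + t • e)) 0 =
      iteratedDeriv j (fun t : ℝ => G (p, a, b + t • e)) 0 -
      iteratedDeriv j (fun t : ℝ => G (p, a', b + t • e)) 0 :=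
    iteratedDeriv_fun_sub (hline a).contDiffAt (hline a').contDiffAt
  rw [hsub, hf, hf]
  have hmem : ∀ a : V, ‖a‖ ≤ R → ((0, (p, a, b, e)) : ℝ × (P × V × V × V)) ∈
      Metric.closedBall (0 : ℝ × (P × V × V × V)) (max R 1) := by
    intro a ha
    rw [mem_closedBall_zero_iff]
    simp only [Prod.norm_mk]
    refine max_le (by simp) ?_
    exact max_le (hp.trans (le_max_left _ _)) (max_le (ha.trans (le_max_left _ _))
      (max_le (hb.trans (le_max_left _ _)) (he.trans (le_max_right _ _))))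
  have hm := (convex_closedBall (0 : ℝ × (P × V × V × V)) (max R 1)).norm_image_sub_le_of_norm_fderiv_le
    (𝕜 := ℝ) (f := AN11_hitD v Ψ j)
    (fun x _ => ((AN11_hit_smooth v Ψ hs j 1).differentiable (by norm_num)) x)
    (fun x hx => hC j x hx) (hmem a' ha') (hmem a ha)
  have h6 : ((0, (p, a, b, e)) : ℝ × (P × V × V × V)) - (0, (p, a', b, e)) =
      (0, (0, a - a', 0, 0)) := by
    ext <;> simp
  have h7 : ‖((0, (0, a - a', 0, 0)) : ℝ × (P × V × V × V))‖ = ‖a - a'‖ := by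
    simp [Prod.norm_def]
  rw [h6, h7, Real.norm_eq_abs] at hm
  refine hm.trans (mul_le_mul_of_nonneg_right ?_ (norm_nonneg _))
  refine (le_abs_self _).trans ?_
  exact Finset.single_le_sum (f := fun j => |C j|) (fun _ _ => abs_nonneg _)
    (Finset.mem_range.mpr (by omega))

end Pool.Agent.SDT.N1

end -- N1.AN11

section -- N1.HL1

/-!
Block AN, degenerate case: preliminaries for the geometry of the phase
`w (p, a) - σ (p, b) + κ g (p, a, b)`.
-/

namespace Pool.Agent.SDT.N1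

open MeasureTheory Set Metric Pool.Agent.SDT.MST
open scoped ContDiff

theorem hl_strict {X Y : Type*} [NormedAddCommGroup X] [NormedSpace ℝ X] [NormedAddCommGroup Y]
    [NormedSpace ℝ Y] (f : X → Y) (f' : X →L[ℝ] Y) (x0 : X) (hf : HasStrictFDerivAt f f' x0)
    (ε : ℝ) (hε : 0 < ε) : ∃ r : ℝ, 0 < r ∧ ∀ x ∈ ball x0 r, ∀ y ∈ ball x0 r,
      ‖f x - f y - f' (x - y)‖ ≤ ε * ‖x - y‖ := by
  have h := hf.isLittleO.def hε
  obtain ⟨r, hr, hb⟩ := Metric.eventually_nhds_iff_ball.mp h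
  refine ⟨r, hr, fun x hx y hy => hb (x, y) ?_⟩
  rw [← ball_prod_same]
  exact ⟨hx, hy⟩

theorem hl_cont {X Y : Type*} [SeminormedAddCommGroup X] [SeminormedAddCommGroup Y] (f : X → Y)
    (x0 : X) (hf : ContinuousAt f x0) (ε : ℝ) (hε : 0 < ε) :
    ∃ r : ℝ, 0 < r ∧ ∀ x ∈ ball x0 r, ‖f x - f x0‖ ≤ ε := by
  obtain ⟨r, hr, hb⟩ := Metric.continuousAt_iff.mp hf ε hε
  exact ⟨r, hr, fun x hx => by rw [← dist_eq_norm]; exact (hb hx).le⟩

theorem hl_alg (wl θ : V →L[ℝ] ℝ) (β : V →L[ℝ] V →L[ℝ] ℝ)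
    (h : ∀ u, wl u = 0 → (∀ e, θ e = 0 → β u e = 0) → u = 0) :
    ∃ η c : ℝ, 0 < η ∧ 0 < c ∧ ∀ v, |wl v| ≤ η * ‖v‖ →
      ∃ e, ‖e‖ ≤ 1 ∧ θ e = 0 ∧ c * ‖v‖ ≤ |β v e| := by
  let S : Submodule ℝ V := LinearMap.ker θ.toLinearMap
  let L : V →L[ℝ] ℝ × (S →L[ℝ] ℝ) := wl.prod ((ContinuousLinearMap.precomp ℝ S.subtypeL) ∘L β)
  have hL : ∀ v, L v = (wl v, (β v) ∘L S.subtypeL) := fun v => rfl
  have hker : LinearMap.ker L.toLinearMap = ⊥ := by
    rw [LinearMap.ker_eq_bot']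
    intro v hv
    have hv' : L v = 0 := hv
    rw [hL, Prod.mk_eq_zero] at hv'
    refine h v hv'.1 (fun e he => ?_)
    have h3 := congrArg (fun f : S →L[ℝ] ℝ => f ⟨e, he⟩) hv'.2
    simpa using h3
  obtain ⟨K, hK, hanti⟩ :=
    LinearMap.exists_antilipschitzWith (𝕜 := ℝ) (E := V) (F := ℝ × (S →L[ℝ] ℝ)) L.toLinearMap hker
  have hK' : (0 : ℝ) < K := hK
  have hb : ∀ v, ‖v‖ ≤ K * ‖L v‖ := by
    intro v
    have h0 := hanti.le_mul_dist v 0
    have h1 : dist (L.toLinearMap v) (L.toLinearMap 0) = ‖L v‖ := by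
      rw [map_zero]
      exact dist_zero_right (L v)
    rw [h1, dist_zero_right] at h0
    exact h0
  refine ⟨1 / (2 * K), 1 / (2 * K), by positivity, by positivity, fun v hv => ?_⟩
  by_cases hv0 : v = 0
  · exact ⟨0, by simp, by simp, by simp [hv0]⟩
  · have hvp : 0 < ‖v‖ := norm_pos_iff.mpr hv0
    have h1 := hb v
    rw [hL, Prod.norm_def] at h1
    have h2 : ‖v‖ / K ≤ max ‖wl v‖ ‖(β v) ∘L S.subtypeL‖ := by
      rw [div_le_iff₀ hK', mul_comm]
      exact h1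
    have h3 : ‖wl v‖ < ‖v‖ / K := by
      rw [Real.norm_eq_abs]
      refine hv.trans_lt ?_
      rw [div_mul_eq_mul_div, one_mul, div_lt_div_iff₀ (by positivity) hK']
      nlinarith
    have h4 : ‖v‖ / K ≤ ‖(β v) ∘L S.subtypeL‖ := by
      rcases le_max_iff.mp h2 with h5 | h5
      · exact absurd h5 (not_le.mpr h3)
      · exact h5
    have h5 : 1 / (2 * K) * ‖v‖ < ‖(β v) ∘L S.subtypeL‖ := by
      refine lt_of_lt_of_le ?_ h4
      rw [div_mul_eq_mul_div, one_mul, div_lt_div_iff₀ (by positivity) hK']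
      nlinarith
    obtain ⟨x, hx1, hx2⟩ := ContinuousLinearMap.exists_lt_apply_of_lt_opNorm _ h5
    refine ⟨(x : V), hx1.le, x.2, ?_⟩
    have h6 : ‖((β v) ∘L S.subtypeL) x‖ = |β v (x : V)| := by
      rw [Real.norm_eq_abs]
      rfl
    rw [← h6]
    exact hx2.le

theorem hl_dirH {P : Type*} [NormedAddCommGroup P] [NormedSpace ℝ P]
    (f : P × V × V → ℝ) (hf : ContDiff ℝ ∞ f) (j : ℕ) :
    ∃ H : V × P × V × V → ℝ, ContDiff ℝ ∞ H ∧ ∀ (e : V) (p : P) (a b : V),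
      iteratedDeriv j (fun t : ℝ => f (p, a, b + t • e)) 0 = H (e, p, a, b) := by
  let Ψ : ℝ × V × P × V × V → ℝ := fun z => f (z.2.2.1, z.2.2.2.1, z.2.2.2.2 + z.1 • z.2.1)
  have hΨ : ContDiff ℝ ∞ Ψ := hf.comp (by fun_prop)
  have hn : ∀ n : ℕ, ContDiff ℝ n Ψ := fun n => hΨ.of_le (by exact_mod_cast le_top)
  refine ⟨fun q => hitD ((1, 0) : ℝ × V × P × V × V) Ψ j (0, q), ?_, ?_⟩
  · have h1 : ContDiff ℝ ∞ (hitD ((1, 0) : ℝ × V × P × V × V) Ψ j) := by
      rw [contDiff_infty]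
      exact hit_smooth _ _ hn j
    exact h1.comp (contDiff_const.prodMk contDiff_id)
  · intro e p a b
    have h1 := hit_formula ((1, 0) : ℝ × V × P × V × V) Ψ hn j (0, (e, p, a, b)) 0
    have h2 : ∀ τ : ℝ, Ψ (((0, (e, p, a, b)) : ℝ × V × P × V × V) +
        τ • ((1, 0) : ℝ × V × P × V × V)) = f (p, a, b + τ • e) := by
      intro τ
      simp [Ψ]
    simp only [h2] at h1
    simpa using h1

theorem hl_bounds {P : Type*} [NormedAddCommGroup P] [NormedSpace ℝ P] [FiniteDimensional ℝ P]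
    (f : P × V × V → ℝ) (hf : ContDiff ℝ ∞ f) (p0 : P) (a0 b0 : V) (R : ℝ) :
    ∃ L : ℝ, 0 ≤ L ∧ ∀ j ≤ 9, ∀ e : V, ‖e‖ ≤ 1 → ∀ p ∈ closedBall p0 R, ∀ a ∈ closedBall a0 R,
      ∀ a' ∈ closedBall a0 R, ∀ b ∈ closedBall b0 R,
      |iteratedDeriv j (fun t : ℝ => f (p, a, b + t • e)) 0| ≤ L ∧
      |iteratedDeriv j (fun t : ℝ => f (p, a, b + t • e)) 0 -
        iteratedDeriv j (fun t : ℝ => f (p, a', b + t • e)) 0| ≤ L * ‖a - a'‖ := by
  have hP : ProperSpace P := FiniteDimensional.proper_real P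
  let K : Set (V × P × V × V) :=
    closedBall 0 1 ×ˢ (closedBall p0 R ×ˢ (closedBall a0 R ×ˢ closedBall b0 R))
  have hK : IsCompact K := (isCompact_closedBall _ _).prod ((isCompact_closedBall _ _).prod
    ((isCompact_closedBall _ _).prod (isCompact_closedBall _ _)))
  have hKc : Convex ℝ K := (convex_closedBall _ _).prod ((convex_closedBall _ _).prod
    ((convex_closedBall _ _).prod (convex_closedBall _ _)))
  choose H hH hHe using hl_dirH f hf
  have hb1 : ∀ j, ∃ C : ℝ, ∀ q ∈ K, ‖H j q‖ ≤ C := fun j =>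
    hK.exists_bound_of_continuousOn (hH j).continuous.continuousOn
  have hb2 : ∀ j, ∃ C : ℝ, ∀ q ∈ K, ‖fderiv ℝ (H j) q‖ ≤ C := fun j =>
    hK.exists_bound_of_continuousOn ((hH j).continuous_fderiv (by simp)).continuousOn
  choose C1 hC1 using hb1
  choose C2 hC2 using hb2
  refine ⟨∑ j ∈ Finset.range 10, (|C1 j| + |C2 j|), Finset.sum_nonneg fun _ _ => by positivity, ?_⟩
  intro j hj e he p hp a ha a' ha' b hb
  have hle : |C1 j| + |C2 j| ≤ ∑ j ∈ Finset.range 10, (|C1 j| + |C2 j|) :=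
    Finset.single_le_sum (f := fun j => |C1 j| + |C2 j|) (fun _ _ => by positivity)
      (Finset.mem_range.mpr (by omega))
  have he' : e ∈ closedBall (0 : V) 1 := by simpa using he
  have hq : (e, p, a, b) ∈ K := ⟨he', hp, ha, hb⟩
  have hq' : (e, p, a', b) ∈ K := ⟨he', hp, ha', hb⟩
  rw [hHe, hHe]
  constructor
  · have h1 := hC1 j _ hq
    rw [Real.norm_eq_abs] at h1
    have h2 := le_abs_self (C1 j)
    have h3 := abs_nonneg (C2 j)
    linarith
  · have h1 := hKc.norm_image_sub_le_of_norm_fderiv_le (𝕜 := ℝ) (f := H j) (C := C2 j)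
      (fun x _ => ((hH j).differentiable (by simp)) x) (fun x hx => hC2 j x hx) hq' hq
    rw [Real.norm_eq_abs] at h1
    have h2 : ((e, p, a, b) : V × P × V × V) - (e, p, a', b) = (0, 0, a - a', 0) := by
      simp
    have h3 : ‖((0, 0, a - a', 0) : V × P × V × V)‖ = ‖a - a'‖ := by
      simp [Prod.norm_def]
    rw [h2, h3] at h1
    refine h1.trans (mul_le_mul_of_nonneg_right ?_ (norm_nonneg _))
    have h4 := le_abs_self (C2 j)
    have h5 := abs_nonneg (C1 j)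
    linarith

theorem hl_iter (f1 f2 f3 : ℝ → ℝ) (h1 : ContDiff ℝ ∞ f1) (h2 : ContDiff ℝ ∞ f2)
    (h3 : ContDiff ℝ ∞ f3) (s s' W W' κ : ℝ) (j : ℕ) (hj : 1 ≤ j) :
    iteratedDeriv j (fun t => s * (W - f1 t + κ * f2 t) - s' * (W' - f1 t + κ * f3 t)) 0 =
      (s - s') * (-iteratedDeriv j f1 0 + κ * iteratedDeriv j f3 0) +
        s * κ * (iteratedDeriv j f2 0 - iteratedDeriv j f3 0) := by
  have g1 : ContDiffAt ℝ j f1 0 := (h1.of_le (by exact_mod_cast le_top)).contDiffAt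
  have g2 : ContDiffAt ℝ j f2 0 := (h2.of_le (by exact_mod_cast le_top)).contDiffAt
  have g3 : ContDiffAt ℝ j f3 0 := (h3.of_le (by exact_mod_cast le_top)).contDiffAt
  have e : (fun t => s * (W - f1 t + κ * f2 t) - s' * (W' - f1 t + κ * f3 t)) =
      fun t => (s * W - s' * W') + ((s - s') * (-f1 t + κ * f3 t) + s * κ * (f2 t - f3 t)) := by
    funext t
    ring
  have k1 : ContDiffAt ℝ j (fun t => -f1 t + κ * f3 t) 0 := g1.neg.add (contDiffAt_const.mul g3)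
  have k2 : ContDiffAt ℝ j (fun t => f2 t - f3 t) 0 := g2.sub g3
  rw [e, iteratedDeriv_const_add (by omega), iteratedDeriv_fun_add (contDiffAt_const.mul k1)
    (contDiffAt_const.mul k2), iteratedDeriv_const_mul_field, iteratedDeriv_const_mul_field,
    iteratedDeriv_fun_add g1.neg (contDiffAt_const.mul g3), iteratedDeriv_fun_neg,
    iteratedDeriv_const_mul_field, iteratedDeriv_fun_sub g2 g3]

theorem hl_dir1 {P : Type*} [NormedAddCommGroup P] [NormedSpace ℝ P]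
    (f : P × V × V → ℝ) (hf : ContDiff ℝ ∞ f) (p : P) (a b e : V) :
    iteratedDeriv 1 (fun t : ℝ => f (p, a, b + t • e)) 0 = fderiv ℝ f (p, a, b) (0, 0, e) := by
  rw [iteratedDeriv_one]
  have h1 : HasFDerivAt f (fderiv ℝ f (p, a, b)) (p, a, b + (0 : ℝ) • e) := by
    simp only [zero_smul, add_zero]
    exact ((hf.differentiable (by simp)) _).hasFDerivAt
  have h2 : HasDerivAt (fun t : ℝ => ((p, a, b + t • e) : P × V × V)) (0, 0, e) 0 := by
    have h3 : HasDerivAt (fun t : ℝ => b + t • e) e 0 := by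
      have h4 : HasDerivAt (fun t : ℝ => t • e) ((1 : ℝ) • e) 0 := (hasDerivAt_id 0).smul_const e
      rw [one_smul] at h4
      exact h4.const_add b
    exact (hasDerivAt_const _ _).prodMk ((hasDerivAt_const _ _).prodMk h3)
  exact (h1.comp_hasDerivAt (0 : ℝ) h2).deriv

theorem hl_dir2 {P : Type*} [NormedAddCommGroup P] [NormedSpace ℝ P]
    (f : P × V → ℝ) (hf : ContDiff ℝ ∞ f) (p : P) (b e : V) :
    iteratedDeriv 1 (fun t : ℝ => f (p, b + t • e)) 0 = fderiv ℝ f (p, b) (0, e) := by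
  rw [iteratedDeriv_one]
  have h1 : HasFDerivAt f (fderiv ℝ f (p, b)) (p, b + (0 : ℝ) • e) := by
    simp only [zero_smul, add_zero]
    exact ((hf.differentiable (by simp)) _).hasFDerivAt
  have h2 : HasDerivAt (fun t : ℝ => ((p, b + t • e) : P × V)) (0, e) 0 := by
    have h3 : HasDerivAt (fun t : ℝ => b + t • e) e 0 := by
      have h4 : HasDerivAt (fun t : ℝ => t • e) ((1 : ℝ) • e) 0 := (hasDerivAt_id 0).smul_const e
      rw [one_smul] at h4
      exact h4.const_add b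
    exact (hasDerivAt_const _ _).prodMk h3
  exact (h1.comp_hasDerivAt (0 : ℝ) h2).deriv

end Pool.Agent.SDT.N1

end -- N1.HL1
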