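import Pool.Agent.SDT.B08
import Pool.Agent.SDT.B10

set_option autoImplicit false

namespace Pool.Agent.SDT.MP_6cbfb8_an
end Pool.Agent.SDT.MP_6cbfb8_an
namespace Pool.Agent.SDT.MST
end Pool.Agent.SDT.MST
namespace Pool.Agent.SDT.N1E
end Pool.Agent.SDT.N1E

section -- N1E.E4

set_option autoImplicit false

namespace Pool.Agent.SDT.N1E

open MeasureTheory Set

theorem qf_hasDeriv {c a b z1 z2 u : ℝ} (hc : 0 < c) (h : Dom c (a - u * z1) (b - u * z2)) :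
    HasDerivAt (fun v : ℝ => qf (a - v * z1) (b - v * z2))
      (z1 * sf (a - u * z1) (b - u * z2) + z2 * rf (a - u * z1) (b - u * z2)) u := by
  obtain ⟨q1, -, q2⟩ := dom_q hc h
  have hq : 0 < qf (a - u * z1) (b - u * z2) := by linarith
  have h1 : HasDerivAt (fun v : ℝ => 1 - (a - v * z1) ^ 2 - (b - v * z2) ^ 2)
      (2 * (a - u * z1) * z1 + 2 * (b - u * z2) * z2) u := by
    have ha : HasDerivAt (fun v : ℝ => a - v * z1) (-z1) u := by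
      simpa using ((hasDerivAt_id u).mul_const z1).const_sub a
    have hb : HasDerivAt (fun v : ℝ => b - v * z2) (-z2) u := by
      simpa using ((hasDerivAt_id u).mul_const z2).const_sub b
    refine (((ha.pow 2).const_sub 1).sub (hb.pow 2)).congr_deriv ?_
    push_cast
    ring
  have h2 : 1 - (a - u * z1) ^ 2 - (b - u * z2) ^ 2 ≠ 0 := by
    rw [← q2]
    positivity
  refine HasDerivAt.congr_deriv (f := fun v : ℝ => qf (a - v * z1) (b - v * z2)) (h1.sqrt h2) ?_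
  have : √(1 - (a - u * z1) ^ 2 - (b - u * z2) ^ 2) = qf (a - u * z1) (b - u * z2) := rfl
  rw [this]
  unfold sf rf
  field_simp

/-- Mean value theorem. -/
theorem mvt {c : ℝ} (hc : 0 < c) {w : P6} (h : In4 c w) :
    ∃ u ∈ Icc (0:ℝ) 1, F6 w = -(w.1.2.2 * dS w u + w.2.2.2 * dR w u) := by
  have hd : ∀ u ∈ Icc (0:ℝ) 1, HasDerivAt (fun v : ℝ => ph w.1.1 w.2.1 (w.1.2.1 - v * w.1.2.2)
      (w.2.2.1 - v * w.2.2.2)) (w.1.2.2 * dS w u + w.2.2.2 * dR w u) u := by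
    intro u hu
    have h1 := qf_hasDeriv hc (seg1 h hu)
    have h2 : HasDerivAt (fun v : ℝ => qf (w.1.2.1 - v * w.1.2.2 - w.1.1)
        (w.2.2.1 - v * w.2.2.2 - w.2.1)) (w.1.2.2 * sf (w.1.2.1 - u * w.1.2.2 - w.1.1)
        (w.2.2.1 - u * w.2.2.2 - w.2.1) + w.2.2.2 * rf (w.1.2.1 - u * w.1.2.2 - w.1.1)
        (w.2.2.1 - u * w.2.2.2 - w.2.1)) u := by
      have h3 : Dom c (w.1.2.1 - w.1.1 - u * w.1.2.2) (w.2.2.1 - w.2.1 - u * w.2.2.2) := by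
        have := seg2 h hu
        convert this using 1 <;> ring
      have h4 := qf_hasDeriv hc h3
      have e1 : ∀ v : ℝ, w.1.2.1 - w.1.1 - v * w.1.2.2 = w.1.2.1 - v * w.1.2.2 - w.1.1 := by
        intro v
        ring
      have e2 : ∀ v : ℝ, w.2.2.1 - w.2.1 - v * w.2.2.2 = w.2.2.1 - v * w.2.2.2 - w.2.1 := by
        intro v
        ring
      simp only [e1, e2] at h4
      exact h4
    have h5 := h1.sub h2
    unfold dS dR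
    refine HasDerivAt.congr_deriv (f := fun v : ℝ => ph w.1.1 w.2.1 (w.1.2.1 - v * w.1.2.2)
      (w.2.2.1 - v * w.2.2.2)) h5 ?_
    ring
  have hcont : ContinuousOn (fun v : ℝ => ph w.1.1 w.2.1 (w.1.2.1 - v * w.1.2.2)
      (w.2.2.1 - v * w.2.2.2)) (Icc 0 1) := fun u hu => (hd u hu).continuousAt.continuousWithinAt
  obtain ⟨u, hu, he⟩ := exists_hasDerivAt_eq_slope _ _ zero_lt_one hcont
    (fun u hu => hd u (Ioo_subset_Icc_self hu))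
  refine ⟨u, Ioo_subset_Icc_self hu, ?_⟩
  rw [he]
  unfold F6
  simp only [one_mul, zero_mul, sub_zero, div_one]
  ring

theorem dS_NN {c : ℝ} (hc : 0 < c) {w : P6} (h : In4 c w) {u : ℝ} (hu : u ∈ Icc (0:ℝ) 1) :
    ∃ l : ℝ, c ^ 5 / 96 ≤ l ∧ l ≤ 81 / c ^ 5 ∧ dS w u = l * NNu w u :=
  sf_NN hc (seg1 h hu) (seg2 h hu)

theorem dS_le {c : ℝ} (hc : 0 < c) (hc1 : c ≤ 1) {w : P6} (h : In4 c w) {u : ℝ}
    (hu : u ∈ Icc (0:ℝ) 1) : |dS w u| ≤ 36 / c ^ 3 * (|w.1.1| + |w.2.1|) := by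
  have := sf_le hc hc1 (seg1 h hu) (seg2 h hu)
  simpa [dS] using this

theorem dR_le {c : ℝ} (hc : 0 < c) (hc1 : c ≤ 1) {w : P6} (h : In4 c w) {u : ℝ}
    (hu : u ∈ Icc (0:ℝ) 1) : |dR w u| ≤ 36 / c ^ 3 * (|w.1.1| + |w.2.1|) := by
  have := rf_le hc hc1 (seg1 h hu) (seg2 h hu)
  simpa [dR] using this

/-- lower bound if `dR` dominates -/
theorem low_R {c : ℝ} (hc : 0 < c) {w : P6} (h : In4 c w) {lR m : ℝ}
    (hR : ∀ u ∈ Icc (0:ℝ) 1, lR ≤ |dR w u|) (hN : ∀ u ∈ Icc (0:ℝ) 1, |NNu w u| ≤ m) :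
    lR * |w.2.2.2| - 81 / c ^ 5 * m * |w.1.2.2| ≤ |F6 w| := by
  obtain ⟨u, hu, he⟩ := mvt hc h
  obtain ⟨l, l1, l2, l3⟩ := dS_NN hc h hu
  have hl : 0 ≤ l := le_trans (by positivity) l1
  have e1 : |dS w u| ≤ 81 / c ^ 5 * m := by
    rw [l3, abs_mul, abs_of_nonneg hl]
    exact mul_le_mul l2 (hN u hu) (abs_nonneg _) (by positivity)
  rw [he, abs_neg, add_comm]
  refine le_trans ?_ (abs_sub_abs_le_abs_add _ _)
  rw [abs_mul, abs_mul]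
  have := hR u hu
  have h1 := abs_nonneg w.1.2.2
  have h2 := abs_nonneg w.2.2.2
  nlinarith

/-- lower bound if `dS` dominates, in terms of `NN` -/
theorem low_S {c : ℝ} (hc : 0 < c) (hc1 : c ≤ 1) {w : P6} (h : In4 c w) {m : ℝ} (hm : 0 ≤ m)
    (hN : ∀ u ∈ Icc (0:ℝ) 1, m ≤ |NNu w u|) :
    c ^ 5 / 96 * m * |w.1.2.2| - 36 / c ^ 3 * (|w.1.1| + |w.2.1|) * |w.2.2.2| ≤ |F6 w| := by
  obtain ⟨u, hu, he⟩ := mvt hc h
  obtain ⟨l, l1, l2, l3⟩ := dS_NN hc h hu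
  have hl : 0 ≤ l := le_trans (by positivity) l1
  have e1 : c ^ 5 / 96 * m ≤ |dS w u| := by
    rw [l3, abs_mul, abs_of_nonneg hl]
    exact mul_le_mul l1 (hN u hu) hm hl
  rw [he, abs_neg]
  refine le_trans ?_ (abs_sub_abs_le_abs_add _ _)
  rw [abs_mul, abs_mul]
  have := dR_le hc hc1 h hu
  have h1 := abs_nonneg w.1.2.2
  have h2 := abs_nonneg w.2.2.2
  nlinarith

/-- lower bounds if both are controlled -/
theorem low_both {c : ℝ} (hc : 0 < c) {w : P6} (h : In4 c w) {lS mS lR mR : ℝ}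
    (hS : ∀ u ∈ Icc (0:ℝ) 1, lS ≤ |dS w u|) (hS' : ∀ u ∈ Icc (0:ℝ) 1, |dS w u| ≤ mS)
    (hR : ∀ u ∈ Icc (0:ℝ) 1, lR ≤ |dR w u|) (hR' : ∀ u ∈ Icc (0:ℝ) 1, |dR w u| ≤ mR) :
    lS * |w.1.2.2| - mR * |w.2.2.2| ≤ |F6 w| ∧ lR * |w.2.2.2| - mS * |w.1.2.2| ≤ |F6 w| := by
  obtain ⟨u, hu, he⟩ := mvt hc h
  have h1 := abs_nonneg w.1.2.2
  have h2 := abs_nonneg w.2.2.2
  have e1 := hS u hu
  have e2 := hS' u hu
  have e3 := hR u hu
  have e4 := hR' u hu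
  rw [he, abs_neg]
  constructor
  · refine le_trans ?_ (abs_sub_abs_le_abs_add _ _)
    rw [abs_mul, abs_mul]
    nlinarith
  · rw [add_comm]
    refine le_trans ?_ (abs_sub_abs_le_abs_add _ _)
    rw [abs_mul, abs_mul]
    nlinarith

end Pool.Agent.SDT.N1E

end -- N1E.E4

section -- N1.Eb

/-!
N1, block E: the bridge between the definitions of N1 and the elementary library N1E.
-/

namespace Pool.Agent.SDT.N1

open MeasureTheory Set Metric Pool.Agent.SDT.MP_6cbfb8_an Pool.Agent.SDT.MST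
open Pool.Agent.SDT.N1E (Dom In4 F6 NN NNu dS dR P6)
open scoped ENNReal Real ContDiff

theorem e_Sq_eq {c v : ℝ} (hc : 0 < c) (hv : c ^ 2 / 8 ≤ v) : Sq c v = √v := by
  unfold Sq
  rw [Real.smoothTransition.one_of_one_le, mul_one]
  rw [le_div_iff₀ (by positivity)]
  linarith

theorem e_qf_eq {c a b : ℝ} (hc : 0 < c) (h : Dom c a b) : qf c a b = N1E.qf a b := by
  unfold qf N1E.qf
  exact e_Sq_eq hc (by linarith [h.2.2])

theorem e_Fr_eq {c : ℝ} (hc : 0 < c) {q : V × V} (h : In4 c q) : Fr c q.1 q.2 = F6 q := by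
  unfold Fr F6 N1E.ph
  have h4 : Dom c (q.1.2.1 - q.1.1 - q.1.2.2) (q.2.2.1 - q.2.1 - q.2.2.2) := by
    have := h.p4
    convert this using 1 <;> ring
  rw [e_qf_eq hc h.p1, e_qf_eq hc h.p2, e_qf_eq hc h.p3, e_qf_eq hc h4]
  have e1 : q.1.2.1 - q.1.1 - q.1.2.2 = q.1.2.1 - q.1.2.2 - q.1.1 := by ring
  have e2 : q.2.2.1 - q.2.1 - q.2.2.2 = q.2.2.1 - q.2.2.2 - q.2.1 := by ring
  rw [e1, e2]
  ring

theorem e_NN_eq {c ρ y1 y2 a b : ℝ} (hc : 0 < c) (h : Dom c (a - ρ * y1) (b - ρ * y2)) :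
    NN (ρ * y1) (ρ * y2) a b = ρ * Nf ρ (y1, y2) (a, b) := by
  obtain ⟨a1, -, -, -, -, b3, -, -⟩ := N1E.dom_ab hc h
  have p1 : a - ρ * y1 ≠ 0 := by
    intro h0
    rw [h0] at a1
    linarith
  have p2 : 1 - (b - ρ * y2) ^ 2 ≠ 0 := by
    intro h0
    rw [h0] at b3
    have : 0 < c ^ 2 / 4 := by positivity
    linarith
  unfold NN N1E.om N1E.sg Nf om sg
  dsimp only
  field_simp
  ring

theorem e_Kc {c : ℝ} (hc : 0 < c) {x0 : ℝ × ℝ} (hx : x0 ∈ Kc c) : c ≤ 1 := by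
  obtain ⟨h1, h2, h3⟩ := hx
  have h4 : c ^ 2 ≤ x0.1 ^ 2 := pow_le_pow_left₀ hc.le h1 2
  have h5 : c ^ 2 ≤ x0.2 ^ 2 := pow_le_pow_left₀ hc.le h2 2
  nlinarith

theorem e_Kc_swap {c : ℝ} {x0 : ℝ × ℝ} (hx : x0 ∈ Kc c) : x0.swap ∈ Kc c := by
  obtain ⟨h1, h2, h3⟩ := hx
  refine ⟨h2, h1, ?_⟩
  simp only [Prod.swap]
  linarith

theorem e_Nb_mono {δ δ' ρ : ℝ} (hδ : δ' ≤ δ) {x0 y0 : ℝ × ℝ} {q : V × V}
    (h : Nb δ' ρ x0 y0 q) : Nb δ ρ x0 y0 q := by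
  obtain ⟨h1, h2, h3, h4, h5, h6⟩ := h
  exact ⟨h1.trans hδ, h2.trans hδ, h3.trans hδ, h4.trans hδ, h5.trans hδ, h6.trans hδ⟩

theorem e_cont {c : ℝ} (hc : 0 < c) {x0 y0 : ℝ × ℝ} (hx : x0 ∈ Kc c) :
    ContinuousAt (fun p : ℝ × (ℝ × ℝ) × (ℝ × ℝ) => Nf p.1 p.2.1 p.2.2) (0, y0, x0) := by
  obtain ⟨h1, h2, h3⟩ := hx
  unfold Nf om sg
  have p1 : (x0.1 - 0 * y0.1) ^ 2 ≠ 0 := by
    rw [zero_mul, sub_zero]
    have : 0 < x0.1 := by linarith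
    positivity
  have p2 : 1 - (x0.2 - 0 * y0.2) ^ 2 ≠ 0 := by
    rw [zero_mul, sub_zero]
    have : 0 < x0.1 := by linarith
    have h4 : c ^ 2 ≤ x0.1 ^ 2 := pow_le_pow_left₀ hc.le h1 2
    have h5 : 0 < c ^ 2 := by positivity
    intro h0
    nlinarith
  refine ContinuousAt.sub ?_ ?_
  · refine ContinuousAt.div (by fun_prop) (by fun_prop) p1
  · refine ContinuousAt.neg ?_
    refine ContinuousAt.div (by fun_prop) (by fun_prop) p2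

theorem e_near {c : ℝ} (hc : 0 < c) {x0 y0 : ℝ × ℝ} (hx : x0 ∈ Kc c) {ε : ℝ} (hε : 0 < ε) :
    ∃ δ : ℝ, 0 < δ ∧ ∀ (ρ : ℝ) (y x : ℝ × ℝ), |ρ| ≤ δ → |y.1 - y0.1| ≤ δ → |y.2 - y0.2| ≤ δ →
      |x.1 - x0.1| ≤ 2 * δ → |x.2 - x0.2| ≤ 2 * δ → |Nf ρ y x - Nf 0 y0 x0| < ε := by
  obtain ⟨d, hd, h⟩ := Metric.continuousAt_iff.1 (e_cont hc (y0 := y0) hx) ε hε
  refine ⟨d / 3, by positivity, fun ρ y x h1 h2 h3 h4 h5 => ?_⟩
  have := @h (ρ, y, x) (by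
    rw [Prod.dist_eq, Prod.dist_eq, Prod.dist_eq, Prod.dist_eq]
    simp only [Real.dist_eq, sub_zero]
    refine max_lt (by linarith) (max_lt (max_lt (by linarith) (by linarith))
      (max_lt (by linarith) (by linarith))))
  simpa [Real.dist_eq] using this

/-- the basic facts in a small neighbourhood -/
theorem e_base {c : ℝ} (hc : 0 < c) {x0 y0 : ℝ × ℝ} (hx : x0 ∈ Kc c) {ε : ℝ} (hε : 0 < ε) :
    ∃ δ : ℝ, 0 < δ ∧ δ ≤ 1 ∧ ∀ ρ : ℝ, 0 < ρ → ρ < δ → ∀ q : V × V, Nb δ ρ x0 y0 q →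
      In4 c q ∧ |q.1.1| ≤ ρ * (|y0.1| + 1) ∧ |q.2.1| ≤ ρ * (|y0.2| + 1) ∧
      (∀ u ∈ Icc (0:ℝ) 1, |NNu q u - ρ * Nf 0 y0 x0| ≤ ρ * ε) ∧
      (NNu q 0 = ρ * Nx ρ q) ∧ (NNu q 1 = ρ * Nz ρ q) := by
  obtain ⟨δ1, h1, hn⟩ := e_near hc (y0 := y0) hx hε
  have hc1 := e_Kc hc hx
  obtain ⟨k1, k2, k3⟩ := hx
  have hY : (1:ℝ) ≤ |y0.1| + |y0.2| + 1 := by
    have := abs_nonneg y0.1
    have := abs_nonneg y0.2
    linarith
  refine ⟨min (min δ1 1) (c ^ 2 / (144 * (|y0.1| + |y0.2| + 1))), by positivity,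
    (min_le_left _ _).trans (min_le_right _ _), fun ρ hρ hρδ q hq => ?_⟩
  set δ := min (min δ1 1) (c ^ 2 / (144 * (|y0.1| + |y0.2| + 1))) with hδ
  have hδ0 : 0 < δ := by positivity
  have d1 : δ ≤ δ1 := (min_le_left _ _).trans (min_le_left _ _)
  have d2 : δ ≤ 1 := (min_le_left _ _).trans (min_le_right _ _)
  have d3 : δ * (|y0.1| + |y0.2| + 1) ≤ c ^ 2 / 144 := by
    have : δ ≤ c ^ 2 / (144 * (|y0.1| + |y0.2| + 1)) := min_le_right _ _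
    calc δ * (|y0.1| + |y0.2| + 1) ≤ c ^ 2 / (144 * (|y0.1| + |y0.2| + 1)) *
          (|y0.1| + |y0.2| + 1) := mul_le_mul_of_nonneg_right this (by linarith)
      _ = c ^ 2 / 144 := by
          field_simp
  obtain ⟨q1, q2, q3, q4, q5, q6⟩ := hq
  have y1 : |q.1.1| ≤ ρ * (|y0.1| + 1) := by
    have e1 : q.1.1 = ρ * (q.1.1 / ρ) := by field_simp
    have e2 : |q.1.1 / ρ| ≤ |y0.1| + 1 := by
      have := abs_sub_abs_le_abs_sub (q.1.1 / ρ) y0.1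
      linarith
    calc |q.1.1| = ρ * |q.1.1 / ρ| := by rw [abs_div, abs_of_pos hρ]; field_simp
      _ ≤ ρ * (|y0.1| + 1) := mul_le_mul_of_nonneg_left e2 hρ.le
  have y2 : |q.2.1| ≤ ρ * (|y0.2| + 1) := by
    have e2 : |q.2.1 / ρ| ≤ |y0.2| + 1 := by
      have := abs_sub_abs_le_abs_sub (q.2.1 / ρ) y0.2
      linarith
    calc |q.2.1| = ρ * |q.2.1 / ρ| := by rw [abs_div, abs_of_pos hρ]; field_simp
      _ ≤ ρ * (|y0.2| + 1) := mul_le_mul_of_nonneg_left e2 hρ.le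
  have hρ1 : ρ * (|y0.1| + |y0.2| + 1) ≤ c ^ 2 / 144 := by
    refine le_trans ?_ d3
    exact mul_le_mul_of_nonneg_right hρδ.le (by linarith)
  have y1' : |q.1.1| ≤ c ^ 2 / 144 := by
    refine y1.trans (le_trans ?_ hρ1)
    refine mul_le_mul_of_nonneg_left ?_ hρ.le
    have := abs_nonneg y0.2
    linarith
  have y2' : |q.2.1| ≤ c ^ 2 / 144 := by
    refine y2.trans (le_trans ?_ hρ1)
    refine mul_le_mul_of_nonneg_left ?_ hρ.le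
    have := abs_nonneg y0.1
    linarith
  have dδ : δ ≤ c ^ 2 / 144 := by
    refine le_trans ?_ d3
    nlinarith
  have key : ∀ a b : ℝ, |a - x0.1| ≤ c ^ 2 / 48 → |b - x0.2| ≤ c ^ 2 / 48 → Dom c a b := by
    intro a b ha hb
    have hcc : c ^ 2 ≤ c := by nlinarith
    obtain ⟨a1, a2⟩ := abs_le.1 ha
    obtain ⟨b1, b2⟩ := abs_le.1 hb
    have x1 : x0.1 ≤ 1 := by nlinarith [sq_nonneg x0.2]
    have x2 : x0.2 ≤ 1 := by nlinarith [sq_nonneg x0.1]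
    refine ⟨by linarith, by linarith, ?_⟩
    have e1 : a ^ 2 ≤ (x0.1 + c ^ 2 / 48) ^ 2 := by
      refine pow_le_pow_left₀ (by linarith) (by linarith) 2
    have e2 : b ^ 2 ≤ (x0.2 + c ^ 2 / 48) ^ 2 := by
      refine pow_le_pow_left₀ (by linarith) (by linarith) 2
    have e3 : c ^ 2 ≤ 1 := by nlinarith
    nlinarith [sq_nonneg (c ^ 2)]
  obtain ⟨q3a, q3b⟩ := abs_le.1 q3
  obtain ⟨q4a, q4b⟩ := abs_le.1 q4
  obtain ⟨q5a, q5b⟩ := abs_le.1 q5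
  obtain ⟨q6a, q6b⟩ := abs_le.1 q6
  obtain ⟨y1a, y1b⟩ := abs_le.1 y1'
  obtain ⟨y2a, y2b⟩ := abs_le.1 y2'
  have hin : In4 c q := by
    refine ⟨key _ _ ?_ ?_, key _ _ ?_ ?_, key _ _ ?_ ?_, key _ _ ?_ ?_⟩ <;>
      rw [abs_le] <;> constructor <;> linarith
  have hNN : ∀ u ∈ Icc (0:ℝ) 1, NNu q u = ρ * Nf ρ (q.1.1 / ρ, q.2.1 / ρ)
      (q.1.2.1 - u * q.1.2.2, q.2.2.1 - u * q.2.2.2) := by
    intro u hu
    have e1 : q.1.1 = ρ * (q.1.1 / ρ) := by field_simp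
    have e2 : q.2.1 = ρ * (q.2.1 / ρ) := by field_simp
    unfold NNu
    rw [← e_NN_eq (c := c) hc (by rw [← e1, ← e2]; exact N1E.seg2 hin hu), ← e1, ← e2]
  refine ⟨hin, y1, y2, fun u hu => ?_, ?_, ?_⟩
  · rw [hNN u hu, ← mul_sub, abs_mul, abs_of_pos hρ]
    refine mul_le_mul_of_nonneg_left (le_of_lt ?_) hρ.le
    have z1 : |u * q.1.2.2| ≤ δ := by
      rw [abs_mul, abs_of_nonneg hu.1]
      exact (mul_le_of_le_one_left (abs_nonneg _) hu.2).trans q5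
    have z2 : |u * q.2.2.2| ≤ δ := by
      rw [abs_mul, abs_of_nonneg hu.1]
      exact (mul_le_of_le_one_left (abs_nonneg _) hu.2).trans q6
    obtain ⟨z1a, z1b⟩ := abs_le.1 z1
    obtain ⟨z2a, z2b⟩ := abs_le.1 z2
    refine hn ρ _ _ ?_ ?_ ?_ ?_ ?_
    · rw [abs_of_pos hρ]
      linarith
    · exact q1.trans d1
    · exact q2.trans d1
    · dsimp only
      rw [abs_le]
      constructor <;> linarith
    · dsimp only
      rw [abs_le]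
      constructor <;> linarith
  · rw [hNN 0 ⟨le_rfl, zero_le_one⟩]
    simp [Nx]
  · rw [hNN 1 ⟨zero_le_one, le_rfl⟩]
    simp [Nz]

theorem e_In4_swap {c : ℝ} {q : V × V} (h : In4 c q) : In4 c q.swap :=
  ⟨N1E.dom_swap h.p1, N1E.dom_swap h.p2, N1E.dom_swap h.p3, N1E.dom_swap h.p4⟩

theorem e_Nb_swap {δ ρ : ℝ} {x0 y0 : ℝ × ℝ} {q : V × V} (h : Nb δ ρ x0 y0 q) :
    Nb δ ρ x0.swap y0.swap q.swap := by
  obtain ⟨h1, h2, h3, h4, h5, h6⟩ := h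
  exact ⟨h2, h1, h4, h3, h6, h5⟩

theorem e_dR_swap (q : V × V) (u : ℝ) : dR q u = dS q.swap u := by
  unfold dR dS
  rw [N1E.rf_eq, N1E.rf_eq]
  rfl

/-- lower bounds for the derivatives -/
theorem e_dS_ge {c : ℝ} (hc : 0 < c) {q : V × V} (h : In4 c q) {u m : ℝ} (hu : u ∈ Icc (0:ℝ) 1)
    (hm : 0 ≤ m) (hN : m ≤ |NNu q u|) : c ^ 5 / 96 * m ≤ |dS q u| := by
  obtain ⟨l, l1, l2, l3⟩ := N1E.dS_NN hc h hu
  have hl : 0 ≤ l := le_trans (by positivity) l1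
  rw [l3, abs_mul, abs_of_nonneg hl]
  exact mul_le_mul l1 hN hm hl

end Pool.Agent.SDT.N1

end -- N1.Eb
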