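import Pool.Agent.SDT.B07
import Pool.Agent.SDT.B08

set_option autoImplicit false

namespace Pool.Agent.SDT.MP_6cbfb8_an
end Pool.Agent.SDT.MP_6cbfb8_an
namespace Pool.Agent.SDT.MST
end Pool.Agent.SDT.MST
namespace Pool.Agent.SDT.N1
end Pool.Agent.SDT.N1

section -- N1F.E1

/-!
N1F, block A4. LEMMA E0: the phase of a rectangle is the sum of four terms of known sign and size.
-/

namespace Pool.Agent.SDT.N1F

open Pool.Agent.SDT.N1

/-- `x` is one of the four points `a, a - y, a - z, a - y - z`, where `u = (y, a, z)`. -/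
def Pt4 (u : V) (x : ℝ) : Prop :=
  x = u.2.1 ∨ x = u.2.1 - u.1 ∨ x = u.2.1 - u.2.2 ∨ x = u.2.1 - u.1 - u.2.2

/-- Exact four-term formula. -/
theorem Fr_four (c : ℝ) (hc : 0 < c) (u v : V)
    (h : ∀ x y, Pt4 u x → Pt4 v y → c ^ 2 / 8 ≤ 1 - x ^ 2 - y ^ 2) :
    Fr c u v = -(u.1 * u.2.2 * E1f (1 - (v.2.1 - v.2.2) ^ 2) u.2.1 u.1 u.2.2 +
      v.1 * v.2.2 * E1f (1 - (u.2.1 - u.1) ^ 2) v.2.1 v.1 v.2.2 +
      u.1 * v.2.2 * ((u.2.1 + (u.2.1 - u.1)) * (v.2.1 + (v.2.1 - v.2.2)) *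
        E3f (u.2.1 ^ 2) ((u.2.1 - u.1) ^ 2) (v.2.1 ^ 2) ((v.2.1 - v.2.2) ^ 2)) +
      v.1 * u.2.2 * (((u.2.1 - u.1) + (u.2.1 - u.1 - u.2.2)) *
        ((v.2.1 - v.2.2) + (v.2.1 - v.1 - v.2.2)) *
        E3f ((u.2.1 - u.1 - u.2.2) ^ 2) ((u.2.1 - u.1) ^ 2) ((v.2.1 - v.1 - v.2.2) ^ 2)
          ((v.2.1 - v.2.2) ^ 2))) := by
  have hm : 0 < c ^ 2 / 8 := by positivity
  obtain ⟨y1, a, z1⟩ := u
  obtain ⟨y2, b, z2⟩ := v
  simp only at h ⊢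
  have p1 : Pt4 (y1, a, z1) a := Or.inl rfl
  have p2 : Pt4 (y1, a, z1) (a - y1) := Or.inr (Or.inl rfl)
  have p3 : Pt4 (y1, a, z1) (a - z1) := Or.inr (Or.inr (Or.inl rfl))
  have p4 : Pt4 (y1, a, z1) (a - y1 - z1) := Or.inr (Or.inr (Or.inr rfl))
  have q1 : Pt4 (y2, b, z2) b := Or.inl rfl
  have q2 : Pt4 (y2, b, z2) (b - y2) := Or.inr (Or.inl rfl)
  have q3 : Pt4 (y2, b, z2) (b - z2) := Or.inr (Or.inr (Or.inl rfl))
  have q4 : Pt4 (y2, b, z2) (b - y2 - z2) := Or.inr (Or.inr (Or.inr rfl))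
  have pos : ∀ x y, Pt4 (y1, a, z1) x → Pt4 (y2, b, z2) y → 0 < 1 - x ^ 2 - y ^ 2 :=
    fun x y hx hy => lt_of_lt_of_le hm (h x y hx hy)
  have hF : Fr c (y1, a, z1) (y2, b, z2) = √(1 - a ^ 2 - b ^ 2) -
      √(1 - (a - y1) ^ 2 - (b - y2) ^ 2) - √(1 - (a - z1) ^ 2 - (b - z2) ^ 2) +
      √(1 - (a - y1 - z1) ^ 2 - (b - y2 - z2) ^ 2) := by
    unfold Fr
    simp only
    rw [qf_eq c hc _ _ (h _ _ p1 q1), qf_eq c hc _ _ (h _ _ p2 q2), qf_eq c hc _ _ (h _ _ p3 q3),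
      qf_eq c hc _ _ (h _ _ p4 q4)]
  have sw : ∀ x y : ℝ, 1 - x ^ 2 - y ^ 2 = 1 - y ^ 2 - x ^ 2 := fun x y => by ring
  have T1 := diff_one (1 - (b - z2) ^ 2) a y1 z1 (by rw [sw]; exact pos _ _ p1 q3)
    (by rw [sw]; exact pos _ _ p2 q3) (by rw [sw]; exact pos _ _ p3 q3)
    (by rw [sw]; exact pos _ _ p4 q3)
  have T2 := diff_one (1 - (a - y1) ^ 2) b y2 z2 (pos _ _ p2 q1) (pos _ _ p2 q2) (pos _ _ p2 q3)
    (pos _ _ p2 q4)
  have T3 := diff_mix (a ^ 2) ((a - y1) ^ 2) (b ^ 2) ((b - z2) ^ 2) (pos _ _ p1 q1) (pos _ _ p2 q1)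
    (pos _ _ p1 q3) (pos _ _ p2 q3)
  have T4 := diff_mix ((a - y1 - z1) ^ 2) ((a - y1) ^ 2) ((b - y2 - z2) ^ 2) ((b - z2) ^ 2)
    (pos _ _ p4 q4) (pos _ _ p2 q4) (pos _ _ p4 q3) (pos _ _ p2 q3)
  rw [sw a (b - z2)] at T3
  rw [sw (a - y1) (b - z2)] at T3 T4
  rw [sw (a - y1 - z1) (b - z2)] at T4
  rw [sw (b - z2) (a - y1)] at T3 T4
  rw [sw (b - z2) (a - y1)] at T1
  rw [hF]
  generalize E1f (1 - (b - z2) ^ 2) a y1 z1 = e1 at *
  generalize E1f (1 - (a - y1) ^ 2) b y2 z2 = e2 at *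
  generalize E3f (a ^ 2) ((a - y1) ^ 2) (b ^ 2) ((b - z2) ^ 2) = e3 at *
  generalize E3f ((a - y1 - z1) ^ 2) ((a - y1) ^ 2) ((b - y2 - z2) ^ 2) ((b - z2) ^ 2) = e4 at *
  rw [sw (b - z2) a, sw (b - z2) (a - z1), sw (b - z2) (a - y1 - z1)] at T1
  rw [sw (b - z2) a] at T3
  rw [sw (b - z2) (a - y1 - z1)] at T4
  linear_combination T1 + T2 + T3 + T4

/-- LEMMA E0. -/
theorem E_four (c : ℝ) (hc : 0 < c) : ∃ C0 : ℝ, 1 ≤ C0 ∧ ∀ (al be : ℝ) (u v : V),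
    0 < al → 0 < be → (∀ x, Pt4 u x → al / 2 ≤ x ∧ x ≤ 4 * al) →
    (∀ y, Pt4 v y → be / 2 ≤ y ∧ y ≤ 4 * be) →
    (∀ x y, Pt4 u x → Pt4 v y → c ^ 2 / 8 ≤ 1 - x ^ 2 - y ^ 2) →
    ∃ e1 e2 e3 e4 : ℝ, (1 / C0 ≤ e1 ∧ e1 ≤ C0) ∧ (1 / C0 ≤ e2 ∧ e2 ≤ C0) ∧
      (1 / C0 ≤ e3 ∧ e3 ≤ C0) ∧ (1 / C0 ≤ e4 ∧ e4 ≤ C0) ∧
      Fr c u v = -(u.1 * u.2.2 * e1 + v.1 * v.2.2 * e2 + al * be * (u.1 * v.2.2) * e3 +
        al * be * (v.1 * u.2.2) * e4) := by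
  set m : ℝ := c ^ 2 / 8 with hm
  have hm0 : 0 < m := by positivity
  refine ⟨16 / m ^ 3 + 4, by
    have : 0 < 16 / m ^ 3 := by positivity
    linarith, ?_⟩
  intro al be u v hal hbe hu hv h
  have hF := Fr_four c hc u v h
  obtain ⟨y1, a, z1⟩ := u
  obtain ⟨y2, b, z2⟩ := v
  simp only at hF ⊢
  have p1 : Pt4 (y1, a, z1) a := Or.inl rfl
  have p2 : Pt4 (y1, a, z1) (a - y1) := Or.inr (Or.inl rfl)
  have p3 : Pt4 (y1, a, z1) (a - z1) := Or.inr (Or.inr (Or.inl rfl))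
  have p4 : Pt4 (y1, a, z1) (a - y1 - z1) := Or.inr (Or.inr (Or.inr rfl))
  have q1 : Pt4 (y2, b, z2) b := Or.inl rfl
  have q2 : Pt4 (y2, b, z2) (b - y2) := Or.inr (Or.inl rfl)
  have q3 : Pt4 (y2, b, z2) (b - z2) := Or.inr (Or.inr (Or.inl rfl))
  have q4 : Pt4 (y2, b, z2) (b - y2 - z2) := Or.inr (Or.inr (Or.inr rfl))
  have px : ∀ x, Pt4 (y1, a, z1) x → 0 ≤ x := fun x hx => by linarith [(hu x hx).1]
  have py : ∀ y, Pt4 (y2, b, z2) y → 0 ≤ y := fun y hy => by linarith [(hv y hy).1]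
  have sw : ∀ x y : ℝ, 1 - x ^ 2 - y ^ 2 = 1 - y ^ 2 - x ^ 2 := fun x y => by ring
  have B1 := E1f_bd (1 - (b - z2) ^ 2) a y1 z1 m hm0 (by nlinarith [sq_nonneg (b - z2)])
    (by rw [sw]; exact h _ _ p1 q3) (by rw [sw]; exact h _ _ p2 q3) (by rw [sw]; exact h _ _ p3 q3)
    (by rw [sw]; exact h _ _ p4 q3) (px _ p1) (px _ p2) (px _ p3) (px _ p4)
  have B2 := E1f_bd (1 - (a - y1) ^ 2) b y2 z2 m hm0 (by nlinarith [sq_nonneg (a - y1)])
    (h _ _ p2 q1) (h _ _ p2 q2) (h _ _ p2 q3) (h _ _ p2 q4) (py _ q1) (py _ q2) (py _ q3)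
    (py _ q4)
  have B3 := E3f_bd (a ^ 2) ((a - y1) ^ 2) (b ^ 2) ((b - z2) ^ 2) m hm0 (sq_nonneg _) (sq_nonneg _)
    (sq_nonneg _) (sq_nonneg _) (h _ _ p1 q1) (h _ _ p2 q1) (h _ _ p1 q3) (h _ _ p2 q3)
  have B4 := E3f_bd ((a - y1 - z1) ^ 2) ((a - y1) ^ 2) ((b - y2 - z2) ^ 2) ((b - z2) ^ 2) m hm0
    (sq_nonneg _) (sq_nonneg _) (sq_nonneg _) (sq_nonneg _) (h _ _ p4 q4) (h _ _ p2 q4)
    (h _ _ p4 q3) (h _ _ p2 q3)
  have hC4 : (4 : ℝ) ≤ 16 / m ^ 3 + 4 := by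
    have : 0 < 16 / m ^ 3 := by positivity
    linarith
  have hC : ∀ e : ℝ, 1 / 4 ≤ e → 1 / (16 / m ^ 3 + 4) ≤ e := by
    intro e he
    refine le_trans ?_ he
    exact one_div_le_one_div_of_le (by norm_num) hC4
  have h2m : 2 / m ^ 3 ≤ 16 / m ^ 3 + 4 := by
    have : 2 / m ^ 3 ≤ 16 / m ^ 3 := by
      apply div_le_div_of_nonneg_right (by norm_num) (by positivity)
    linarith
  -- the mixed factors
  have mix : ∀ s t e : ℝ, al ≤ s → s ≤ 8 * al → be ≤ t → t ≤ 8 * be → 1 / 4 ≤ e →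
      e ≤ 1 / (4 * m ^ 3) →
      1 / (16 / m ^ 3 + 4) ≤ s * t * e / (al * be) ∧ s * t * e / (al * be) ≤ 16 / m ^ 3 + 4 := by
    intro s t e hs hs' ht ht' he he'
    have hab : 0 < al * be := mul_pos hal hbe
    constructor
    · apply hC
      rw [le_div_iff₀ hab]
      have h1 : al * be ≤ s * t := mul_le_mul hs ht hbe.le (by linarith)
      nlinarith
    · rw [div_le_iff₀ hab]
      have h1 : s * t ≤ 64 * (al * be) := by
        have := mul_le_mul hs' ht' (by linarith) (by positivity)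
        nlinarith
      have h0 : 0 ≤ s * t := by
        apply mul_nonneg <;> linarith
      calc s * t * e ≤ 64 * (al * be) * (1 / (4 * m ^ 3)) :=
            mul_le_mul h1 he' (by linarith) (by positivity)
        _ = 16 / m ^ 3 * (al * be) := by
            field_simp
            norm_num
        _ ≤ (16 / m ^ 3 + 4) * (al * be) := by nlinarith
  obtain ⟨ha1, ha1'⟩ := hu _ p1
  obtain ⟨ha2, ha2'⟩ := hu _ p2
  obtain ⟨ha4, ha4'⟩ := hu _ p4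
  obtain ⟨hb1, hb1'⟩ := hv _ q1
  obtain ⟨hb3, hb3'⟩ := hv _ q3
  obtain ⟨hb4, hb4'⟩ := hv _ q4
  have M3 := mix (a + (a - y1)) (b + (b - z2)) _ (by linarith) (by linarith) (by linarith)
    (by linarith) B3.1 B3.2
  have M4 := mix ((a - y1) + (a - y1 - z1)) ((b - z2) + (b - y2 - z2)) _ (by linarith)
    (by linarith) (by linarith) (by linarith) B4.1 B4.2
  refine ⟨_, _, _, _, ⟨hC _ (by linarith [B1.1]), le_trans B1.2 h2m⟩,
    ⟨hC _ (by linarith [B2.1]), le_trans B2.2 h2m⟩, M3, M4, ?_⟩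
  rw [hF]
  field_simp

/-- If one of the four terms dominates, it controls the phase. -/
theorem E_dom (c : ℝ) (hc : 0 < c) : ∃ K c1 : ℝ, 1 ≤ K ∧ 0 < c1 ∧ ∀ (al be : ℝ) (u v : V),
    0 < al → 0 < be → (∀ x, Pt4 u x → al / 2 ≤ x ∧ x ≤ 4 * al) →
    (∀ y, Pt4 v y → be / 2 ≤ y ∧ y ≤ 4 * be) →
    (∀ x y, Pt4 u x → Pt4 v y → c ^ 2 / 8 ≤ 1 - x ^ 2 - y ^ 2) →
    (K * |v.1 * v.2.2| ≤ |u.1 * u.2.2| → K * (al * be * |u.1 * v.2.2|) ≤ |u.1 * u.2.2| →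
      K * (al * be * |v.1 * u.2.2|) ≤ |u.1 * u.2.2| → c1 * |u.1 * u.2.2| ≤ |Fr c u v|) ∧
    (K * |u.1 * u.2.2| ≤ |v.1 * v.2.2| → K * (al * be * |u.1 * v.2.2|) ≤ |v.1 * v.2.2| →
      K * (al * be * |v.1 * u.2.2|) ≤ |v.1 * v.2.2| → c1 * |v.1 * v.2.2| ≤ |Fr c u v|) ∧
    (K * |u.1 * u.2.2| ≤ al * be * |u.1 * v.2.2| → K * |v.1 * v.2.2| ≤ al * be * |u.1 * v.2.2| →
      K * (al * be * |v.1 * u.2.2|) ≤ al * be * |u.1 * v.2.2| →
      c1 * (al * be * |u.1 * v.2.2|) ≤ |Fr c u v|) ∧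
    (K * |u.1 * u.2.2| ≤ al * be * |v.1 * u.2.2| → K * |v.1 * v.2.2| ≤ al * be * |v.1 * u.2.2| →
      K * (al * be * |u.1 * v.2.2|) ≤ al * be * |v.1 * u.2.2| →
      c1 * (al * be * |v.1 * u.2.2|) ≤ |Fr c u v|) := by
  obtain ⟨C0, hC0, H⟩ := E_four c hc
  have hC0' : 0 < C0 := by linarith
  refine ⟨6 * C0 ^ 2, 1 / (2 * C0), by nlinarith, by positivity, ?_⟩
  intro al be u v hal hbe hu hv h
  obtain ⟨e1, e2, e3, e4, ⟨l1, r1⟩, ⟨l2, r2⟩, ⟨l3, r3⟩, ⟨l4, r4⟩, hF⟩ := H al be u v hal hbe hu hv h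
  have hab : 0 < al * be := mul_pos hal hbe
  have pe : ∀ e : ℝ, 1 / C0 ≤ e → 0 < e := fun e he => lt_of_lt_of_le (by positivity) he
  -- general statement
  have gen : ∀ x1 x2 x3 x4 f1 f2 f3 f4 : ℝ, 1 / C0 ≤ f1 → 0 < f2 → f2 ≤ C0 → 0 < f3 →
      f3 ≤ C0 → 0 < f4 → f4 ≤ C0 → 6 * C0 ^ 2 * |x2| ≤ |x1| → 6 * C0 ^ 2 * |x3| ≤ |x1| →
      6 * C0 ^ 2 * |x4| ≤ |x1| →
      1 / (2 * C0) * |x1| ≤ |x1 * f1 + x2 * f2 + x3 * f3 + x4 * f4| := by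
    intro x1 x2 x3 x4 f1 f2 f3 f4 g1 g2 g2' g3 g3' g4 g4' k2 k3 k4
    have b : ∀ x f : ℝ, 0 < f → f ≤ C0 → 6 * C0 ^ 2 * |x| ≤ |x1| → |x * f| ≤ |x1| / (6 * C0) := by
      intro x f hf hf' hx
      rw [abs_mul, abs_of_pos hf, le_div_iff₀ (by positivity)]
      calc |x| * f * (6 * C0) ≤ |x| * C0 * (6 * C0) := by gcongr
        _ = 6 * C0 ^ 2 * |x| := by ring
        _ ≤ |x1| := hx
    have b2 := b x2 f2 g2 g2' k2
    have b3 := b x3 f3 g3 g3' k3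
    have b4 := b x4 f4 g4 g4' k4
    have b1 : |x1| / C0 ≤ |x1 * f1| := by
      rw [abs_mul, abs_of_pos (pe f1 g1), div_eq_mul_one_div]
      exact mul_le_mul_of_nonneg_left g1 (abs_nonneg _)
    have hsum : |x1 * f1| ≤ |x1 * f1 + x2 * f2 + x3 * f3 + x4 * f4| + |x2 * f2| + |x3 * f3| +
        |x4 * f4| := by
      have e : x1 * f1 = (x1 * f1 + x2 * f2 + x3 * f3 + x4 * f4) + (-(x2 * f2)) + (-(x3 * f3)) +
          (-(x4 * f4)) := by ring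
      calc |x1 * f1| = |(x1 * f1 + x2 * f2 + x3 * f3 + x4 * f4) + (-(x2 * f2)) + (-(x3 * f3)) +
          (-(x4 * f4))| := by rw [← e]
        _ ≤ |(x1 * f1 + x2 * f2 + x3 * f3 + x4 * f4) + (-(x2 * f2)) + (-(x3 * f3))| +
            |-(x4 * f4)| := abs_add_le _ _
        _ ≤ |(x1 * f1 + x2 * f2 + x3 * f3 + x4 * f4) + (-(x2 * f2))| + |-(x3 * f3)| +
            |-(x4 * f4)| := by gcongr; exact abs_add_le _ _
        _ ≤ |x1 * f1 + x2 * f2 + x3 * f3 + x4 * f4| + |-(x2 * f2)| + |-(x3 * f3)| +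
            |-(x4 * f4)| := by gcongr; exact abs_add_le _ _
        _ = _ := by simp only [abs_neg]
    have e1 : 1 / (2 * C0) * |x1| = |x1| / C0 - |x1| / (6 * C0) - |x1| / (6 * C0) -
        |x1| / (6 * C0) := by
      field_simp
      ring
    rw [e1]
    linarith
  have habs : |Fr c u v| = |u.1 * u.2.2 * e1 + v.1 * v.2.2 * e2 + al * be * (u.1 * v.2.2) * e3 +
        al * be * (v.1 * u.2.2) * e4| := by rw [hF, abs_neg]
  have m3 : |al * be * (u.1 * v.2.2)| = al * be * |u.1 * v.2.2| := by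
    rw [abs_mul, abs_of_pos hab]
  have m4 : |al * be * (v.1 * u.2.2)| = al * be * |v.1 * u.2.2| := by
    rw [abs_mul, abs_of_pos hab]
  refine ⟨fun k2 k3 k4 => ?_, fun k2 k3 k4 => ?_, fun k2 k3 k4 => ?_, fun k2 k3 k4 => ?_⟩
  · rw [habs]
    exact gen _ _ _ _ e1 e2 e3 e4 l1 (pe _ l2) r2 (pe _ l3) r3 (pe _ l4) r4 k2
      (by rw [m3]; exact k3) (by rw [m4]; exact k4)
  · have := gen (v.1 * v.2.2) (u.1 * u.2.2) (al * be * (u.1 * v.2.2)) (al * be * (v.1 * u.2.2))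
      e2 e1 e3 e4 l2 (pe _ l1) r1 (pe _ l3) r3 (pe _ l4) r4 k2 (by rw [m3]; exact k3)
      (by rw [m4]; exact k4)
    rw [habs]
    convert this using 2
    ring
  · have := gen (al * be * (u.1 * v.2.2)) (u.1 * u.2.2) (v.1 * v.2.2) (al * be * (v.1 * u.2.2))
      e3 e1 e2 e4 l3 (pe _ l1) r1 (pe _ l2) r2 (pe _ l4) r4 (by rw [m3]; exact k2)
      (by rw [m3]; exact k3) (by rw [m3, m4]; exact k4)
    rw [habs, ← m3]
    convert this using 2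
    ring
  · have := gen (al * be * (v.1 * u.2.2)) (u.1 * u.2.2) (v.1 * v.2.2) (al * be * (u.1 * v.2.2))
      e4 e1 e2 e3 l4 (pe _ l1) r1 (pe _ l2) r2 (pe _ l3) r3 (by rw [m4]; exact k2)
      (by rw [m4]; exact k3) (by rw [m3, m4]; exact k4)
    rw [habs, ← m4]
    convert this using 2
    ring

/-- The cross points are in the disc too. -/
theorem cross (c : ℝ) (hc : 0 < c) (u v : V) (hu : ∀ x, Pt4 u x → 0 ≤ x)
    (hv : ∀ y, Pt4 v y → 0 ≤ y) (hW : Wr c u v ≠ 0) (h1 : |u.1| + |u.2.2| ≤ c ^ 2 / 64)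
    (h2 : |v.1| + |v.2.2| ≤ c ^ 2 / 64) :
    ∀ x y, Pt4 u x → Pt4 v y → c ^ 2 / 8 ≤ 1 - x ^ 2 - y ^ 2 := by
  have hw : wf c u.2.1 v.2.1 ≠ 0 := by
    intro h0
    apply hW
    unfold Wr
    rw [h0]
    ring
  have hd := wf_ne c hc _ _ hw
  have g : ∀ (u : V) (x : ℝ), (∀ x, Pt4 u x → 0 ≤ x) → u.2.1 ≤ 1 → |u.1| + |u.2.2| ≤ c ^ 2 / 64 →
      c ≤ 2 → Pt4 u x → x ^ 2 ≤ u.2.1 ^ 2 + 3 * (c ^ 2 / 64) := by
    intro u x hu ha h1 hc2 hx
    have h0 : 0 ≤ u.2.1 := hu _ (Or.inl rfl)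
    have hx0 : 0 ≤ x := hu x hx
    have hx1 : x ≤ u.2.1 + c ^ 2 / 64 := by
      have k1 := neg_abs_le u.1
      have k2 := neg_abs_le u.2.2
      have k3 := abs_nonneg u.1
      have k4 := abs_nonneg u.2.2
      rcases hx with hx | hx | hx | hx <;> rw [hx] <;> linarith
    have hc4 : c ^ 2 / 64 ≤ 1 := by nlinarith
    nlinarith [mul_nonneg h0 (sub_nonneg.2 hc4), sq_nonneg c]
  have ha1 : u.2.1 ≤ 1 := by nlinarith [sq_nonneg v.2.1, sq_nonneg c]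
  have hb1 : v.2.1 ≤ 1 := by nlinarith [sq_nonneg u.2.1, sq_nonneg c]
  have hc2 : c ≤ 2 := by nlinarith [sq_nonneg u.2.1, sq_nonneg v.2.1]
  intro x y hx hy
  have k1 := g u x hu ha1 h1 hc2 hx
  have k2 := g v y hv hb1 h2 hc2 hy
  nlinarith

end Pool.Agent.SDT.N1F

end -- N1F.E1

section -- N1F.E2

/-!
N1F, block A4: E_DDF. If one of the four terms dominates, it controls the phase (unscaled form of
the interface).
-/

namespace Pool.Agent.SDT.N1F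

open MeasureTheory Set Metric Pool.Agent.SDT.MP_6cbfb8_an Pool.Agent.SDT.MST Pool.Agent.SDT.N1
open scoped ENNReal Real ContDiff

/-- The four points lie in `[al / 2, 4 al]`. -/
theorem Pt4_rng (al r : ℝ) (u : V) (hal : 0 < al) (hr : r ≤ 1 / 4) (hG : Ge al u)
    (h2 : u.2.1 ≤ 2 * al) (h3 : |u.1| ≤ r * al) (h4 : |u.2.2| ≤ r * al) :
    ∀ x, Pt4 u x → al / 2 ≤ x ∧ x ≤ 4 * al := by
  obtain ⟨g1, g2, g3, g4⟩ := hG
  have h3' : |u.1| ≤ 1 / 4 * al := h3.trans (by nlinarith)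
  have h4' : |u.2.2| ≤ 1 / 4 * al := h4.trans (by nlinarith)
  obtain ⟨a1, a2⟩ := abs_le.1 h3'
  obtain ⟨b1, b2⟩ := abs_le.1 h4'
  intro x hx
  rcases hx with hx | hx | hx | hx <;> rw [hx] <;> constructor <;> linarith

/-- Dominance: one of the four terms is much larger than the others. Four points in `[al, 2 al]`
resp. `[be, 2 be]`, small caps. -/
theorem E_DDF (c : ℝ) (hc : 0 < c) : ∃ K r c1 : ℝ, 1 ≤ K ∧ 0 < r ∧ 0 < c1 ∧ ∀ al be : ℝ,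
    0 < al → al ≤ 1 → 0 < be → be ≤ 1 → ∀ q : V × V,
    (Ge al q.1 ∧ q.1.2.1 ≤ 2 * al ∧ |q.1.1| ≤ r * al ∧ |q.1.2.2| ≤ r * al) →
    (Ge be q.2 ∧ q.2.2.1 ≤ 2 * be ∧ |q.2.1| ≤ r * be ∧ |q.2.2.2| ≤ r * be) →
    Wr c q.1 q.2 ≠ 0 →
    (K * (|q.2.1| * |q.2.2.2|) ≤ |q.1.1| * |q.1.2.2| →
      K * (al * be * (|q.1.1| * |q.2.2.2|)) ≤ |q.1.1| * |q.1.2.2| →
      K * (al * be * (|q.2.1| * |q.1.2.2|)) ≤ |q.1.1| * |q.1.2.2| →
      c1 * (|q.1.1| * |q.1.2.2|) ≤ |Fr c q.1 q.2|) ∧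
    (K * (|q.1.1| * |q.1.2.2|) ≤ |q.2.1| * |q.2.2.2| →
      K * (al * be * (|q.1.1| * |q.2.2.2|)) ≤ |q.2.1| * |q.2.2.2| →
      K * (al * be * (|q.2.1| * |q.1.2.2|)) ≤ |q.2.1| * |q.2.2.2| →
      c1 * (|q.2.1| * |q.2.2.2|) ≤ |Fr c q.1 q.2|) ∧
    (K * (|q.1.1| * |q.1.2.2|) ≤ al * be * (|q.1.1| * |q.2.2.2|) →
      K * (|q.2.1| * |q.2.2.2|) ≤ al * be * (|q.1.1| * |q.2.2.2|) →
      K * (|q.2.1| * |q.1.2.2|) ≤ |q.1.1| * |q.2.2.2| →
      c1 * (al * be * (|q.1.1| * |q.2.2.2|)) ≤ |Fr c q.1 q.2|) ∧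
    (K * (|q.1.1| * |q.1.2.2|) ≤ al * be * (|q.2.1| * |q.1.2.2|) →
      K * (|q.2.1| * |q.2.2.2|) ≤ al * be * (|q.2.1| * |q.1.2.2|) →
      K * (|q.1.1| * |q.2.2.2|) ≤ |q.2.1| * |q.1.2.2| →
      c1 * (al * be * (|q.2.1| * |q.1.2.2|)) ≤ |Fr c q.1 q.2|) := by
  obtain ⟨K, c1, hK, hc1, H⟩ := E_dom c hc
  refine ⟨K, min (1 / 4) (c ^ 2 / 128), c1, hK, by positivity, hc1, ?_⟩
  intro al be hal hal1 hbe hbe1 q hu hv hW
  obtain ⟨u1, u2, u3, u4⟩ := hu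
  obtain ⟨v1, v2, v3, v4⟩ := hv
  have hr1 : min (1 / 4 : ℝ) (c ^ 2 / 128) ≤ 1 / 4 := min_le_left _ _
  have hr2 : min (1 / 4 : ℝ) (c ^ 2 / 128) ≤ c ^ 2 / 128 := min_le_right _ _
  have hr0 : 0 ≤ min (1 / 4 : ℝ) (c ^ 2 / 128) := by positivity
  have hPu := Pt4_rng al _ q.1 hal hr1 u1 u2 u3 u4
  have hPv := Pt4_rng be _ q.2 hbe hr1 v1 v2 v3 v4
  have sm : ∀ x t : ℝ, 0 < x → x ≤ 1 → t ≤ min (1 / 4 : ℝ) (c ^ 2 / 128) * x →
      t ≤ c ^ 2 / 128 := by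
    intro x t hx hx1 ht
    have : min (1 / 4 : ℝ) (c ^ 2 / 128) * x ≤ min (1 / 4 : ℝ) (c ^ 2 / 128) * 1 :=
      mul_le_mul_of_nonneg_left hx1 hr0
    linarith
  have hcr := cross c hc q.1 q.2 (fun x hx => by linarith [(hPu x hx).1])
    (fun y hy => by linarith [(hPv y hy).1]) hW
    (by linarith [sm al _ hal hal1 u3, sm al _ hal hal1 u4])
    (by linarith [sm be _ hbe hbe1 v3, sm be _ hbe hbe1 v4])
  obtain ⟨k1, k2, k3, k4⟩ := H al be q.1 q.2 hal hbe hPu hPv hcr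
  have hab : 0 < al * be := mul_pos hal hbe
  simp only [abs_mul] at k1 k2 k3 k4
  refine ⟨k1, k2, fun h1 h2 h3 => k3 h1 h2 ?_, fun h1 h2 h3 => k4 h1 h2 ?_⟩
  · calc K * (al * be * (|q.2.1| * |q.1.2.2|)) = al * be * (K * (|q.2.1| * |q.1.2.2|)) := by ring
      _ ≤ _ := mul_le_mul_of_nonneg_left h3 hab.le
  · calc K * (al * be * (|q.1.1| * |q.2.2.2|)) = al * be * (K * (|q.1.1| * |q.2.2.2|)) := by ring
      _ ≤ _ := mul_le_mul_of_nonneg_left h3 hab.le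

end Pool.Agent.SDT.N1F

end -- N1F.E2

section -- N1G.C1a

/-!
N1G, block C1, part a: the corner family. Definitions and the derivatives of the phase.

The coordinates are `x = (a, r)`, `h = 2 r - M² r²`, `β = 1 - M² r`, `q = √(h - a²)`.
-/

namespace Pool.Agent.SDT.N1G

open MeasureTheory Set Metric Pool.Agent.SDT.MP_6cbfb8_an Pool.Agent.SDT.MST Pool.Agent.SDT.N1
open scoped ENNReal Real ContDiff

/-- `β`. -/
def c1be (M r : ℝ) : ℝ := 1 - M ^ 2 * r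

/-- `h`. -/
def c1h (M r : ℝ) : ℝ := 2 * r - M ^ 2 * r ^ 2

/-- `(a² - (a - ρ y)²) / ρ`. -/
def c1n (ρ y a : ℝ) : ℝ := y * (2 * a - ρ * y)

/-- `(h(r) - h(r - ρ y)) / ρ`. -/
def c1m (M ρ y r : ℝ) : ℝ := y * (2 * c1be M r + M ^ 2 * ρ * y)

/-- The point phase. -/
noncomputable def c1q (c M : ℝ) (x : ℝ × ℝ) : ℝ := Sq c (c1h M x.2 - x.1 ^ 2)

/-- The point amplitude. -/
noncomputable def c1w (c M : ℝ) (x : ℝ × ℝ) : ℝ := sma c (c1h M x.2 - x.1 ^ 2)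

/-- The second point `x - ρ y`. -/
def c1x (x : (ℝ × ℝ) × YX) : ℝ × ℝ := (x.2.2.1 - x.1.2 * x.2.1.1, x.2.2.2 - x.1.2 * x.2.1.2)

/-- The pair phase. -/
noncomputable def c1ψ (c : ℝ) (x : (ℝ × ℝ) × YX) : ℝ :=
  (c1m x.1.1 x.1.2 x.2.1.2 x.2.2.2 - c1n x.1.2 x.2.1.1 x.2.2.1) /
    (c1q c x.1.1 x.2.2 + c1q c x.1.1 (c1x x))

/-- The pair amplitude. -/
noncomputable def c1W (c : ℝ) (x : (ℝ × ℝ) × YX) : ℝ :=
  c1w c x.1.1 x.2.2 * c1w c x.1.1 (c1x x)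

/-- The positive factor of the derivative in `a`. -/
noncomputable def c1l (c : ℝ) (x : (ℝ × ℝ) × YX) : ℝ :=
  x.2.2.1 ^ 2 * c1h x.1.1 x.2.2.2 /
    (c1q c x.1.1 x.2.2 * c1q c x.1.1 (c1x x) *
      (x.2.2.1 * c1q c x.1.1 (c1x x) + (c1x x).1 * c1q c x.1.1 x.2.2))

/-- The positive factor of the derivative in `r`. -/
noncomputable def c1l' (c : ℝ) (x : (ℝ × ℝ) × YX) : ℝ :=
  c1be x.1.1 x.2.2.2 ^ 2 * (1 - x.1.1 ^ 2 * x.2.2.1 ^ 2) /
    (c1q c x.1.1 x.2.2 * c1q c x.1.1 (c1x x) *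
      (c1be x.1.1 x.2.2.2 * c1q c x.1.1 (c1x x) + c1be x.1.1 (c1x x).2 * c1q c x.1.1 x.2.2))

/-- The first separated difference. -/
noncomputable def c1N (x : (ℝ × ℝ) × YX) : ℝ :=
  c1n x.1.2 x.2.1.1 x.2.2.1 / x.2.2.1 ^ 2 -
    c1m x.1.1 x.1.2 x.2.1.2 x.2.2.2 / c1h x.1.1 x.2.2.2

/-- The second separated difference. -/
noncomputable def c1N' (x : (ℝ × ℝ) × YX) : ℝ :=
  c1m x.1.1 x.1.2 x.2.1.2 x.2.2.2 / c1be x.1.1 x.2.2.2 ^ 2 -
    c1n x.1.2 x.2.1.1 x.2.2.1 / (1 - x.1.1 ^ 2 * x.2.2.1 ^ 2)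

/-- The domain. -/
def c1U (c : ℝ) : Set ((ℝ × ℝ) × YX) :=
  {x | c ^ 2 / 8 < c1h x.1.1 x.2.2.2 - x.2.2.1 ^ 2 ∧
    c ^ 2 / 8 < c1h x.1.1 (c1x x).2 - (c1x x).1 ^ 2 ∧ 0 < x.2.2.1 ∧ 0 < (c1x x).1 ∧
    0 < c1be x.1.1 x.2.2.2 ∧ 0 < c1be x.1.1 (c1x x).2 ∧ 0 < 1 - x.1.1 ^ 2 * x.2.2.1 ^ 2}

theorem c1U_open (c : ℝ) : IsOpen (c1U c) := by
  unfold c1U c1h c1be c1x
  refine (isOpen_lt ?_ ?_).and <| (isOpen_lt ?_ ?_).and <| (isOpen_lt ?_ ?_).and <|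
    (isOpen_lt ?_ ?_).and <| (isOpen_lt ?_ ?_).and <| (isOpen_lt ?_ ?_).and (isOpen_lt ?_ ?_) <;>
    fun_prop

theorem c1q_pos {c M : ℝ} {x : ℝ × ℝ} (hc : 0 < c) (h : c ^ 2 / 8 < c1h M x.2 - x.1 ^ 2) :
    0 < c1q c M x := by
  unfold c1q
  rw [Sq_eq c hc _ h.le]
  exact Real.sqrt_pos.2 (lt_of_le_of_lt (by positivity) h)

theorem c1q_sq {c M : ℝ} {x : ℝ × ℝ} (hc : 0 < c) (h : c ^ 2 / 8 < c1h M x.2 - x.1 ^ 2) :
    c1q c M x ^ 2 = c1h M x.2 - x.1 ^ 2 := by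
  unfold c1q
  rw [Sq_eq c hc _ h.le, Real.sq_sqrt (le_of_lt (lt_of_le_of_lt (by positivity) h))]

/-- the derivative of `Sq` -/
theorem c1_dSq {c : ℝ} (hc : 0 < c) {v : ℝ} (h : c ^ 2 / 8 < v) :
    HasDerivAt (Sq c) (1 / (2 * Sq c v)) v := by
  have h1 : Sq c =ᶠ[nhds v] fun w => √w := by
    filter_upwards [Ioi_mem_nhds h] with w hw
    exact Sq_eq c hc w (mem_Ioi.1 hw).le
  rw [Sq_eq c hc v h.le]
  have hv : 0 < v := lt_of_le_of_lt (by positivity) h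
  have h2 := (Real.hasDerivAt_sqrt hv.ne').congr_of_eventuallyEq h1
  exact h2

/-- the algebra behind the derivative in `a` -/
theorem c1_alg {y a a' q q' d n h' : ℝ} (hq : 0 < q) (hq' : 0 < q') (ha : 0 < a) (ha' : 0 < a')
    (h5 : y * (q ^ 2 - q' ^ 2) = d * (a - a')) (hn : n = y * (a + a')) (hh : h' = q' ^ 2 + a' ^ 2) :
    (-2 * y * (q + q') - d * (-a / q + -a' / q')) / (q + q') ^ 2 =
      -((h' * n - a' ^ 2 * (d + n)) / (q * q' * (a * q' + a' * q))) := by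
  have h1 : 0 < q + q' := by positivity
  have h2 : 0 < a * q' + a' * q := by positivity
  subst hn hh
  field_simp
  linear_combination (-(q' * (a * q' + 2 * a' * q + a' * q'))) * h5

end Pool.Agent.SDT.N1G

end -- N1G.C1a

section -- N1G.C1b

/-!
N1G, block C1, part b: the derivatives of the phase.
-/

namespace Pool.Agent.SDT.N1G

open MeasureTheory Set Metric Pool.Agent.SDT.MP_6cbfb8_an Pool.Agent.SDT.MST Pool.Agent.SDT.N1
open scoped ENNReal Real ContDiff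

theorem c1_dqa {c M a r : ℝ} (hc : 0 < c) (h : c ^ 2 / 8 < c1h M r - a ^ 2) :
    HasDerivAt (fun a => c1q c M (a, r)) (-a / c1q c M (a, r)) a := by
  have h1 : HasDerivAt (fun a : ℝ => c1h M r - a ^ 2) (-(2 * a)) a := by
    have := ((hasDerivAt_id a).pow 2).const_sub (c1h M r)
    refine this.congr_deriv ?_
    simp
  have h2 := (c1_dSq hc h).comp a h1
  have h3 : 0 < Sq c (c1h M r - a ^ 2) := c1q_pos (x := (a, r)) hc h
  refine h2.congr_deriv ?_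
  show 1 / (2 * Sq c (c1h M r - a ^ 2)) * -(2 * a) = -a / Sq c (c1h M r - a ^ 2)
  field_simp

theorem c1_dqr {c M a r : ℝ} (hc : 0 < c) (h : c ^ 2 / 8 < c1h M r - a ^ 2) :
    HasDerivAt (fun r => c1q c M (a, r)) (c1be M r / c1q c M (a, r)) r := by
  have h1 : HasDerivAt (fun r : ℝ => c1h M r - a ^ 2) (2 * c1be M r) r := by
    unfold c1h c1be
    have := ((((hasDerivAt_id r).const_mul 2).sub (((hasDerivAt_id r).pow 2).const_mul (M ^ 2))).sub_const (a ^ 2))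
    refine this.congr_deriv ?_
    simp
    ring
  have h2 := (c1_dSq hc h).comp r h1
  have h3 : 0 < Sq c (c1h M r - a ^ 2) := c1q_pos (x := (a, r)) hc h
  refine h2.congr_deriv ?_
  show 1 / (2 * Sq c (c1h M r - a ^ 2)) * (2 * c1be M r) = c1be M r / Sq c (c1h M r - a ^ 2)
  field_simp

theorem c1_q_diff {c M ρ y1 y2 a r : ℝ} (hc : 0 < c) (h : ((M, ρ), ((y1, y2), (a, r))) ∈ c1U c) :
    c1q c M (a, r) ^ 2 - c1q c M (a - ρ * y1, r - ρ * y2) ^ 2 =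
      ρ * (c1m M ρ y2 r - c1n ρ y1 a) := by
  obtain ⟨h1, h2, -⟩ := h
  have e1 : c1q c M (a, r) ^ 2 = c1h M r - a ^ 2 := c1q_sq hc h1
  have e2 : c1q c M (a - ρ * y1, r - ρ * y2) ^ 2 = c1h M (r - ρ * y2) - (a - ρ * y1) ^ 2 :=
    c1q_sq hc h2
  rw [e1, e2]
  unfold c1h c1m c1n c1be
  ring

theorem c1_alg' {y m n d b b' q q' M2 S : ℝ} (hq : 0 < q) (hq' : 0 < q') (hb : 0 < b)
    (hb' : 0 < b') (hS : S = b ^ 2 + M2 * q ^ 2) (hm : m = y * (b + b')) (hd : d = m - n)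
    (h5 : M2 * y * (q ^ 2 - q' ^ 2) = d * (b' - b)) :
    (-2 * M2 * y * (q + q') - d * (b / q + b' / q')) / (q + q') ^ 2 =
      -((m * S - n * b ^ 2) / (q * q' * (b * q' + b' * q))) := by
  have h1 : 0 < q + q' := by positivity
  have h2 : 0 < b * q' + b' * q := by positivity
  have hn : n = y * (b + b') - d := by rw [hd, hm]; ring
  clear hd
  subst hS hm hn
  field_simp
  linear_combination (q * (b * q + 2 * b * q' + b' * q)) * h5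

theorem c1_da {c M ρ y1 y2 a r : ℝ} (hc : 0 < c) (h : ((M, ρ), ((y1, y2), (a, r))) ∈ c1U c) :
    HasDerivAt (fun a => c1ψ c ((M, ρ), ((y1, y2), (a, r))))
      (-(c1l c ((M, ρ), ((y1, y2), (a, r))) * c1N ((M, ρ), ((y1, y2), (a, r))))) a := by
  have hqq := c1_q_diff hc h
  obtain ⟨h1, h2, h3, h4, h5, h6, h7⟩ := h
  simp only [c1x] at h1 h2 h3 h4 h5 h6 h7
  set q := c1q c M (a, r) with hq
  set q' := c1q c M (a - ρ * y1, r - ρ * y2) with hq'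
  have hqp : 0 < q := c1q_pos hc h1
  have hqp' : 0 < q' := c1q_pos hc h2
  have hqs : q ^ 2 = c1h M r - a ^ 2 := c1q_sq hc h1
  have hqs' : q' ^ 2 = c1h M (r - ρ * y2) - (a - ρ * y1) ^ 2 := c1q_sq hc h2
  have e1 : HasDerivAt (fun a => c1m M ρ y2 r - c1n ρ y1 a) (-2 * y1) a := by
    unfold c1n
    have := ((((hasDerivAt_id a).const_mul 2).sub_const (ρ * y1)).const_mul y1).const_sub
      (c1m M ρ y2 r)
    refine this.congr_deriv ?_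
    simp
    ring
  have e2 : HasDerivAt (fun a => c1q c M (a, r)) (-a / q) a := c1_dqa hc h1
  have e3 : HasDerivAt (fun a => c1q c M (a - ρ * y1, r - ρ * y2)) (-(a - ρ * y1) / q') a := by
    have := HasDerivAt.comp a (c1_dqa hc h2) ((hasDerivAt_id a).sub_const (ρ * y1))
    rw [mul_one] at this
    exact this
  have e4 := e1.div (e2.add e3) (by show q + q' ≠ 0; positivity)
  refine e4.congr_deriv ?_
  show (-2 * y1 * (q + q') - (c1m M ρ y2 r - c1n ρ y1 a) *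
    (-a / q + -(a - ρ * y1) / q')) / (q + q') ^ 2 = _
  have hN : c1N ((M, ρ), ((y1, y2), (a, r))) =
      c1n ρ y1 a / a ^ 2 - c1m M ρ y2 r / c1h M r := rfl
  have hl : c1l c ((M, ρ), ((y1, y2), (a, r))) =
      a ^ 2 * c1h M r / (q * q' * (a * q' + (a - ρ * y1) * q)) := rfl
  have hh : 0 < c1h M r := by nlinarith [sq_nonneg c, sq_nonneg a]
  have key := c1_alg (y := y1) (a := a) (a' := a - ρ * y1) (q := q) (q' := q')
    (d := c1m M ρ y2 r - c1n ρ y1 a) (n := c1n ρ y1 a) (h' := c1h M (r - ρ * y2)) hqp hqp' h3 h4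
    (by rw [hqq]; ring) (by unfold c1n; ring) (by rw [hqs']; ring)
  rw [key, hN, hl]
  have e5 : c1h M (r - ρ * y2) * c1n ρ y1 a -
      (a - ρ * y1) ^ 2 * (c1m M ρ y2 r - c1n ρ y1 a + c1n ρ y1 a) =
      c1h M r * c1n ρ y1 a - a ^ 2 * c1m M ρ y2 r := by
    unfold c1h c1m c1n c1be
    ring
  rw [e5]
  have h8 : 0 < a * q' + (a - ρ * y1) * q := by positivity
  field_simp

theorem c1_dr {c M ρ y1 y2 a r : ℝ} (hc : 0 < c) (h : ((M, ρ), ((y1, y2), (a, r))) ∈ c1U c) :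
    HasDerivAt (fun r => c1ψ c ((M, ρ), ((y1, y2), (a, r))))
      (-(c1l' c ((M, ρ), ((y1, y2), (a, r))) * c1N' ((M, ρ), ((y1, y2), (a, r))))) r := by
  have hqq := c1_q_diff hc h
  obtain ⟨h1, h2, h3, h4, h5, h6, h7⟩ := h
  simp only [c1x] at h1 h2 h3 h4 h5 h6 h7
  set q := c1q c M (a, r) with hq
  set q' := c1q c M (a - ρ * y1, r - ρ * y2) with hq'
  have hqp : 0 < q := c1q_pos hc h1
  have hqp' : 0 < q' := c1q_pos hc h2
  have hqs : q ^ 2 = c1h M r - a ^ 2 := c1q_sq hc h1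
  have hqs' : q' ^ 2 = c1h M (r - ρ * y2) - (a - ρ * y1) ^ 2 := c1q_sq hc h2
  have e1 : HasDerivAt (fun r => c1m M ρ y2 r - c1n ρ y1 a) (-2 * M ^ 2 * y2) r := by
    unfold c1m c1be
    have := (((((((hasDerivAt_id r).const_mul (M ^ 2)).const_sub 1).const_mul 2).add_const
      (M ^ 2 * ρ * y2)).const_mul y2).sub_const (c1n ρ y1 a))
    refine this.congr_deriv ?_
    ring
  have e2 : HasDerivAt (fun r => c1q c M (a, r)) (c1be M r / q) r := c1_dqr hc h1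
  have e3 : HasDerivAt (fun r => c1q c M (a - ρ * y1, r - ρ * y2)) (c1be M (r - ρ * y2) / q') r := by
    have := HasDerivAt.comp r (c1_dqr hc h2) ((hasDerivAt_id r).sub_const (ρ * y2))
    rw [mul_one] at this
    exact this
  have e4 := e1.div (e2.add e3) (by show q + q' ≠ 0; positivity)
  refine e4.congr_deriv ?_
  show (-2 * M ^ 2 * y2 * (q + q') - (c1m M ρ y2 r - c1n ρ y1 a) *
    (c1be M r / q + c1be M (r - ρ * y2) / q')) / (q + q') ^ 2 = _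
  have hN : c1N' ((M, ρ), ((y1, y2), (a, r))) =
      c1m M ρ y2 r / c1be M r ^ 2 - c1n ρ y1 a / (1 - M ^ 2 * a ^ 2) := rfl
  have hl : c1l' c ((M, ρ), ((y1, y2), (a, r))) =
      c1be M r ^ 2 * (1 - M ^ 2 * a ^ 2) /
        (q * q' * (c1be M r * q' + c1be M (r - ρ * y2) * q)) := rfl
  have h8 : 0 < c1be M r * q' + c1be M (r - ρ * y2) * q := by positivity
  have h9 : 0 < q + q' := by positivity
  rw [hN, hl]
  have k1 : c1be M (r - ρ * y2) = c1be M r + M ^ 2 * ρ * y2 := by unfold c1be; ring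
  have k2 : c1m M ρ y2 r = y2 * (c1be M r + c1be M (r - ρ * y2)) := by
    rw [k1]; unfold c1m; ring
  have k3 : c1be M r ^ 2 + M ^ 2 * q ^ 2 = 1 - M ^ 2 * a ^ 2 := by
    rw [hqs]; unfold c1be c1h; ring
  have k4 : M ^ 2 * y2 * (q ^ 2 - q' ^ 2) =
      (c1m M ρ y2 r - c1n ρ y1 a) * (c1be M (r - ρ * y2) - c1be M r) := by
    rw [hqq, k1]; ring
  have key := c1_alg' (y := y2) (m := c1m M ρ y2 r) (n := c1n ρ y1 a)
    (d := c1m M ρ y2 r - c1n ρ y1 a) (b := c1be M r) (b' := c1be M (r - ρ * y2)) (q := q) (q' := q')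
    (M2 := M ^ 2) (S := 1 - M ^ 2 * a ^ 2) hqp hqp' h5 h6 k3.symm k2 rfl k4
  have e6 : -((c1m M ρ y2 r * (1 - M ^ 2 * a ^ 2) - c1n ρ y1 a * c1be M r ^ 2) /
      (q * q' * (c1be M r * q' + c1be M (r - ρ * y2) * q))) =
      -(c1be M r ^ 2 * (1 - M ^ 2 * a ^ 2) / (q * q' * (c1be M r * q' + c1be M (r - ρ * y2) * q)) *
        (c1m M ρ y2 r / c1be M r ^ 2 - c1n ρ y1 a / (1 - M ^ 2 * a ^ 2))) := by
    field_simp
  rw [← e6, ← key]

end Pool.Agent.SDT.N1G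

end -- N1G.C1b

section -- N1G.C1c

/-!
N1G, block C1, part c: the corner family as a smooth family of phases.
-/

namespace Pool.Agent.SDT.N1G

open MeasureTheory Set Metric Pool.Agent.SDT.MP_6cbfb8_an Pool.Agent.SDT.MST Pool.Agent.SDT.N1
open scoped ENNReal Real ContDiff

theorem c1_sq0 {c : ℝ} (hc : 0 < c) :
    ContDiff ℝ ∞ fun x : (ℝ × ℝ) × YX => c1q c x.1.1 x.2.2 := by
  unfold c1q c1h
  exact (Sq_smooth c hc).comp (by fun_prop)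

theorem c1_sq1 {c : ℝ} (hc : 0 < c) :
    ContDiff ℝ ∞ fun x : (ℝ × ℝ) × YX => c1q c x.1.1 (c1x x) := by
  unfold c1q c1h c1x
  exact (Sq_smooth c hc).comp (by fun_prop)

theorem c1_sw0 {c : ℝ} (hc : 0 < c) :
    ContDiff ℝ ∞ fun x : (ℝ × ℝ) × YX => c1w c x.1.1 x.2.2 := by
  unfold c1w c1h
  exact (sma_smooth c hc).comp (by fun_prop)

theorem c1_sw1 {c : ℝ} (hc : 0 < c) :
    ContDiff ℝ ∞ fun x : (ℝ × ℝ) × YX => c1w c x.1.1 (c1x x) := by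
  unfold c1w c1h c1x
  exact (sma_smooth c hc).comp (by fun_prop)

theorem c1_qpos {c : ℝ} (hc : 0 < c) {x : (ℝ × ℝ) × YX} (hx : x ∈ c1U c) :
    0 < c1q c x.1.1 x.2.2 ∧ 0 < c1q c x.1.1 (c1x x) := by
  obtain ⟨h1, h2, -⟩ := hx
  exact ⟨c1q_pos hc h1, c1q_pos hc h2⟩

theorem c1_sψ {c : ℝ} (hc : 0 < c) : ContDiffOn ℝ ∞ (c1ψ c) (c1U c) := by
  have h1 : ContDiff ℝ ∞ fun x : (ℝ × ℝ) × YX =>
      c1m x.1.1 x.1.2 x.2.1.2 x.2.2.2 - c1n x.1.2 x.2.1.1 x.2.2.1 := by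
    unfold c1m c1n c1be
    fun_prop
  refine h1.contDiffOn.div ((c1_sq0 hc).add (c1_sq1 hc)).contDiffOn ?_
  intro x hx
  obtain ⟨h2, h3⟩ := c1_qpos hc hx
  exact (add_pos h2 h3).ne'

theorem c1_sW {c : ℝ} (hc : 0 < c) : ContDiff ℝ ∞ (c1W c) := (c1_sw0 hc).mul (c1_sw1 hc)

theorem c1_sl {c : ℝ} (hc : 0 < c) : ContDiffOn ℝ ∞ (c1l c) (c1U c) := by
  have h1 : ContDiff ℝ ∞ fun x : (ℝ × ℝ) × YX => x.2.2.1 ^ 2 * c1h x.1.1 x.2.2.2 := by
    unfold c1h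
    fun_prop
  have h2 : ContDiff ℝ ∞ fun x : (ℝ × ℝ) × YX => (c1x x).1 := by
    unfold c1x
    fun_prop
  have h3 : ContDiff ℝ ∞ fun x : (ℝ × ℝ) × YX => x.2.2.1 := by fun_prop
  refine h1.contDiffOn.div (((c1_sq0 hc).mul (c1_sq1 hc)).mul
    ((h3.mul (c1_sq1 hc)).add (h2.mul (c1_sq0 hc)))).contDiffOn ?_
  intro x hx
  obtain ⟨h4, h5⟩ := c1_qpos hc hx
  obtain ⟨-, -, h6, h7, -⟩ := hx
  positivity

theorem c1_sl' {c : ℝ} (hc : 0 < c) : ContDiffOn ℝ ∞ (c1l' c) (c1U c) := by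
  have h1 : ContDiff ℝ ∞ fun x : (ℝ × ℝ) × YX =>
      c1be x.1.1 x.2.2.2 ^ 2 * (1 - x.1.1 ^ 2 * x.2.2.1 ^ 2) := by
    unfold c1be
    fun_prop
  have h2 : ContDiff ℝ ∞ fun x : (ℝ × ℝ) × YX => c1be x.1.1 (c1x x).2 := by
    unfold c1x c1be
    fun_prop
  have h3 : ContDiff ℝ ∞ fun x : (ℝ × ℝ) × YX => c1be x.1.1 x.2.2.2 := by
    unfold c1be
    fun_prop
  refine h1.contDiffOn.div (((c1_sq0 hc).mul (c1_sq1 hc)).mul
    ((h3.mul (c1_sq1 hc)).add (h2.mul (c1_sq0 hc)))).contDiffOn ?_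
  intro x hx
  obtain ⟨h4, h5⟩ := c1_qpos hc hx
  obtain ⟨-, -, -, -, h6, h7, -⟩ := hx
  positivity

theorem c1_hpos {c : ℝ} {x : (ℝ × ℝ) × YX} (hx : x ∈ c1U c) :
    0 < c1h x.1.1 x.2.2.2 := by
  obtain ⟨h1, -⟩ := hx
  nlinarith [sq_nonneg c, sq_nonneg x.2.2.1]

/-- The corner family, `a` first. -/
noncomputable def FA (c : ℝ) : Fam (ℝ × ℝ) where
  ψ := c1ψ c
  W := c1W c
  l := c1l c
  o0 := fun _ => 0
  o1 := fun u => c1n u.1.2 u.2.1 u.2.2 / u.2.2 ^ 2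
  s := fun v => c1m v.1.1 v.1.2 v.2.1 v.2.2 / c1h v.1.1 v.2.2
  μ := fun _ => 1

/-- The corner family, `r` first. -/
noncomputable def FB (c : ℝ) : Fam (ℝ × ℝ) where
  ψ := fun x => c1ψ c (x.1, cs x.2)
  W := fun x => c1W c (x.1, cs x.2)
  l := fun x => c1l' c (x.1, cs x.2)
  o0 := fun u => 2 * u.2
  o1 := fun u => (2 * u.2.1 * c1be u.1.1 u.2.2 * u.2.2 + u.1.2 * u.2.1 ^ 2) /
    c1be u.1.1 u.2.2 ^ 2
  s := fun v => c1n v.1.2 v.2.1 v.2.2 / (1 - v.1.1 ^ 2 * v.2.2 ^ 2)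
  μ := fun p => p.1 ^ 2

theorem FA_N (c : ℝ) (p : ℝ × ℝ) (s : YX) : (FA c).N p s = c1N (p, s) := by
  unfold Fam.N nn Fam.om Fam.sg FA c1N
  simp

theorem FB_N (c : ℝ) (p : ℝ × ℝ) (s : YX) (h : c1be p.1 s.2.1 ≠ 0) :
    (FB c).N p s = c1N' (p, cs s) := by
  unfold Fam.N nn Fam.om Fam.sg FB c1N' cs
  simp only [Prod.fst_swap, Prod.snd_swap]
  congr 1
  unfold c1m
  field_simp
  unfold c1be
  ring

/-- the base points -/
structure C1B (c M0 : ℝ) (x0 y0 : ℝ × ℝ) : Prop where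
  hM : M0 ∈ Icc (0 : ℝ) 1
  q : c ^ 2 / 4 ≤ c1h M0 x0.2 - x0.1 ^ 2
  a : 0 < x0.1
  b : 0 < c1be M0 x0.2
  y1 : y0.1 ≠ 0
  y2 : y0.2 ≠ 0

theorem c1_id (M a r : ℝ) : 1 - M ^ 2 * a ^ 2 = c1be M r ^ 2 + M ^ 2 * (c1h M r - a ^ 2) := by
  unfold c1be c1h
  ring

theorem C1B.mem {c M0 : ℝ} {x0 y0 : ℝ × ℝ} (hc : 0 < c) (h : C1B c M0 x0 y0) :
    ((M0, 0), (y0, x0)) ∈ c1U c := by
  have hc2 : 0 < c ^ 2 := by positivity
  have h1 := h.q
  have h2 : 0 < 1 - M0 ^ 2 * x0.1 ^ 2 := by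
    rw [c1_id M0 x0.1 x0.2]
    have h3 := h.b
    have h4 : 0 ≤ M0 ^ 2 * (c1h M0 x0.2 - x0.1 ^ 2) := mul_nonneg (sq_nonneg _) (by linarith)
    positivity
  unfold c1U c1x
  simp only [mem_ofPred_eq, zero_mul, sub_zero]
  exact ⟨by linarith, by linarith, h.a, h.a, h.b, h.b, h2⟩

end Pool.Agent.SDT.N1G

end -- N1G.C1c

section -- N1G.C1d

/-!
N1G, block C1, part d: the hypotheses `FamOk` for the corner family.
-/

namespace Pool.Agent.SDT.N1G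

open MeasureTheory Set Metric Pool.Agent.SDT.MP_6cbfb8_an Pool.Agent.SDT.MST Pool.Agent.SDT.N1
open scoped ENNReal Real ContDiff

theorem c1_da' {c : ℝ} (hc : 0 < c) (x : (ℝ × ℝ) × YX) (h : x ∈ c1U c) :
    HasDerivAt (fun a => c1ψ c (x.1, (x.2.1, (a, x.2.2.2)))) (-(c1l c x * c1N x)) x.2.2.1 :=
  c1_da (M := x.1.1) (ρ := x.1.2) (y1 := x.2.1.1) (y2 := x.2.1.2) (a := x.2.2.1)
    (r := x.2.2.2) hc h

theorem c1_dr' {c : ℝ} (hc : 0 < c) (x : (ℝ × ℝ) × YX) (h : x ∈ c1U c) :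
    HasDerivAt (fun r => c1ψ c (x.1, (x.2.1, (x.2.2.1, r)))) (-(c1l' c x * c1N' x)) x.2.2.2 :=
  c1_dr (M := x.1.1) (ρ := x.1.2) (y1 := x.2.1.1) (y2 := x.2.1.2) (a := x.2.2.1)
    (r := x.2.2.2) hc h

theorem c1l_pos {c : ℝ} (hc : 0 < c) {x : (ℝ × ℝ) × YX} (hx : x ∈ c1U c) : 0 < c1l c x := by
  obtain ⟨h4, h5⟩ := c1_qpos hc hx
  have h8 := c1_hpos hx
  obtain ⟨-, -, h6, h7, -⟩ := hx
  unfold c1l
  positivity

theorem c1l'_pos {c : ℝ} (hc : 0 < c) {x : (ℝ × ℝ) × YX} (hx : x ∈ c1U c) : 0 < c1l' c x := by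
  obtain ⟨h4, h5⟩ := c1_qpos hc hx
  obtain ⟨-, -, -, -, h6, h7, h8⟩ := hx
  unfold c1l'
  positivity

theorem FA_ψa {c : ℝ} (hc : 0 < c) (p : ℝ × ℝ) (s : YX) (h : (p, s) ∈ c1U c) :
    (FA c).ψa p s = -(c1l c (p, s) * c1N (p, s)) := (c1_da' hc (p, s) h).deriv

theorem FA_ψb {c : ℝ} (hc : 0 < c) (p : ℝ × ℝ) (s : YX) (h : (p, s) ∈ c1U c) :
    (FA c).ψb p s = -(c1l' c (p, s) * c1N' (p, s)) := (c1_dr' hc (p, s) h).deriv

theorem FB_ψa {c : ℝ} (hc : 0 < c) (p : ℝ × ℝ) (s : YX) (h : (p, cs s) ∈ c1U c) :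
    (FB c).ψa p s = -(c1l' c (p, cs s) * c1N' (p, cs s)) := (c1_dr' hc (p, cs s) h).deriv

theorem FB_ψb {c : ℝ} (hc : 0 < c) (p : ℝ × ℝ) (s : YX) (h : (p, cs s) ∈ c1U c) :
    (FB c).ψb p s = -(c1l c (p, cs s) * c1N (p, cs s)) := (c1_da' hc (p, cs s) h).deriv

theorem c1_ball {X : Type*} [PseudoMetricSpace X] {x : X} {U : Set X} (hU : IsOpen U)
    (hx : x ∈ U) : ∃ r : ℝ, 0 < r ∧ ∀ r' ≤ r, ball x r' ⊆ U := by
  obtain ⟨r, hr, h⟩ := Metric.isOpen_iff.1 hU x hx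
  exact ⟨r, hr, fun r' hr' => (ball_subset_ball hr').trans h⟩

theorem FA_ok {c M0 : ℝ} {x0 y0 : ℝ × ℝ} (hc : 0 < c) (h : C1B c M0 x0 y0)
    (hN : c1N' ((M0, 0), (y0, x0)) ≠ 0) : ∃ r, FamOk (FA c) (M0, 0) x0 y0 r := by
  have hmem := h.mem hc
  obtain ⟨r1, hr1, k1⟩ := c1_ball (c1U_open c) hmem
  have o2 : IsOpen {u : (ℝ × ℝ) × ℝ × ℝ | u.2.2 ≠ 0} :=
    isOpen_ne_fun (by fun_prop) (by fun_prop)
  obtain ⟨r2, hr2, k2⟩ := c1_ball (x := ((M0, (0 : ℝ)), y0.1, x0.1)) o2 h.a.ne'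
  have o3 : IsOpen {v : (ℝ × ℝ) × ℝ × ℝ | c1h v.1.1 v.2.2 ≠ 0} := by
    unfold c1h
    exact isOpen_ne_fun (by fun_prop) (by fun_prop)
  obtain ⟨r3, hr3, k3⟩ := c1_ball (x := ((M0, (0 : ℝ)), y0.2, x0.2)) o3 (c1_hpos hmem).ne'
  refine ⟨min r1 (min r2 r3), ?_⟩
  have l1 : min r1 (min r2 r3) ≤ r1 := min_le_left _ _
  have l2 : min r1 (min r2 r3) ≤ r2 := (min_le_right _ _).trans (min_le_left _ _)
  have l3 : min r1 (min r2 r3) ≤ r3 := (min_le_right _ _).trans (min_le_right _ _)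
  constructor
  · exact lt_min hr1 (lt_min hr2 hr3)
  · exact (c1_sψ hc).mono (k1 _ l1)
  · exact (c1_sW hc).contDiffOn
  · exact (c1_sl hc).mono (k1 _ l1)
  · exact contDiffOn_const
  · have h1 : ContDiffOn ℝ ∞ (fun u : (ℝ × ℝ) × ℝ × ℝ => c1n u.1.2 u.2.1 u.2.2 / u.2.2 ^ 2)
        {u : (ℝ × ℝ) × ℝ × ℝ | u.2.2 ≠ 0} := by
      refine ContDiffOn.div ?_ ?_ ?_
      · unfold c1n
        fun_prop
      · fun_prop
      · intro u hu
        exact pow_ne_zero 2 hu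
    exact h1.mono (k2 _ l2)
  · have h1 : ContDiffOn ℝ ∞ (fun v : (ℝ × ℝ) × ℝ × ℝ =>
        c1m v.1.1 v.1.2 v.2.1 v.2.2 / c1h v.1.1 v.2.2)
        {v : (ℝ × ℝ) × ℝ × ℝ | c1h v.1.1 v.2.2 ≠ 0} := by
      refine ContDiffOn.div ?_ ?_ ?_
      · unfold c1m c1be
        fun_prop
      · unfold c1h
        fun_prop
      · intro u hu
        exact hu
    exact h1.mono (k3 _ l3)
  · exact contDiffOn_const
  · intro p s hps
    rw [FA_N]
    exact c1_da' hc (p, s) (k1 _ l1 hps)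
  · exact c1l_pos hc hmem
  · rw [FA_ψb hc _ _ hmem]
    exact neg_ne_zero.2 (mul_ne_zero (c1l'_pos hc hmem).ne' hN)

theorem c1_cs_cs (s : YX) : cs (cs s) = s := by
  unfold cs
  simp

theorem c1_cs_smooth : ContDiff ℝ ∞ fun x : (ℝ × ℝ) × YX => (x.1, cs x.2) := by
  unfold cs
  have h1 : ContDiff ℝ ∞ (Prod.swap : ℝ × ℝ → ℝ × ℝ) := by
    have : (Prod.swap : ℝ × ℝ → ℝ × ℝ) = fun p => (p.2, p.1) := rfl
    rw [this]
    fun_prop
  have h2 : ContDiff ℝ ∞ fun x : (ℝ × ℝ) × YX => x.2.1.swap := h1.comp (by fun_prop)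
  have h3 : ContDiff ℝ ∞ fun x : (ℝ × ℝ) × YX => x.2.2.swap := h1.comp (by fun_prop)
  have h4 : ContDiff ℝ ∞ fun x : (ℝ × ℝ) × YX => x.1 := by fun_prop
  exact h4.prodMk (h2.prodMk h3)

theorem FB_ok {c M0 : ℝ} {x0 y0 : ℝ × ℝ} (hc : 0 < c) (h : C1B c M0 x0 y0)
    (hN : c1N ((M0, 0), (y0, x0)) ≠ 0) : ∃ r, FamOk (FB c) (M0, 0) x0.swap y0.swap r := by
  have hmem := h.mem hc
  have hcs : cs (y0.swap, x0.swap) = (y0, x0) := by
    unfold cs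
    simp
  have o1 : IsOpen ((fun x : (ℝ × ℝ) × YX => (x.1, cs x.2)) ⁻¹' c1U c) :=
    (c1U_open c).preimage c1_cs_smooth.continuous
  obtain ⟨r1, hr1, k1⟩ := c1_ball (x := ((M0, (0 : ℝ)), (y0.swap, x0.swap))) o1 (by
    show ((M0, (0 : ℝ)), cs (y0.swap, x0.swap)) ∈ c1U c
    rw [hcs]
    exact hmem)
  have o2 : IsOpen {u : (ℝ × ℝ) × ℝ × ℝ | c1be u.1.1 u.2.2 ≠ 0} := by
    unfold c1be
    exact isOpen_ne_fun (by fun_prop) (by fun_prop)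
  obtain ⟨r2, hr2, k2⟩ := c1_ball (x := ((M0, (0 : ℝ)), y0.swap.1, x0.swap.1)) o2 h.b.ne'
  have o3 : IsOpen {v : (ℝ × ℝ) × ℝ × ℝ | 1 - v.1.1 ^ 2 * v.2.2 ^ 2 ≠ 0} :=
    isOpen_ne_fun (by fun_prop) (by fun_prop)
  obtain ⟨r3, hr3, k3⟩ := c1_ball (x := ((M0, (0 : ℝ)), y0.swap.2, x0.swap.2)) o3
    (hmem.2.2.2.2.2.2.ne')
  refine ⟨min r1 (min r2 r3), ?_⟩
  have l1 : min r1 (min r2 r3) ≤ r1 := min_le_left _ _
  have l2 : min r1 (min r2 r3) ≤ r2 := (min_le_right _ _).trans (min_le_left _ _)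
  have l3 : min r1 (min r2 r3) ≤ r3 := (min_le_right _ _).trans (min_le_right _ _)
  have hmaps : MapsTo (fun x : (ℝ × ℝ) × YX => (x.1, cs x.2))
      (ball ((M0, (0 : ℝ)), (y0.swap, x0.swap)) (min r1 (min r2 r3))) (c1U c) :=
    fun x hx => k1 _ l1 hx
  constructor
  · exact lt_min hr1 (lt_min hr2 hr3)
  · exact (c1_sψ hc).comp c1_cs_smooth.contDiffOn hmaps
  · exact ((c1_sW hc).comp c1_cs_smooth).contDiffOn
  · exact (c1_sl' hc).comp c1_cs_smooth.contDiffOn hmaps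
  · show ContDiffOn ℝ ∞ (fun u : (ℝ × ℝ) × ℝ => 2 * u.2) _
    fun_prop
  · have h1 : ContDiffOn ℝ ∞ (fun u : (ℝ × ℝ) × ℝ × ℝ =>
        (2 * u.2.1 * c1be u.1.1 u.2.2 * u.2.2 + u.1.2 * u.2.1 ^ 2) / c1be u.1.1 u.2.2 ^ 2)
        {u : (ℝ × ℝ) × ℝ × ℝ | c1be u.1.1 u.2.2 ≠ 0} := by
      refine ContDiffOn.div ?_ ?_ ?_
      · unfold c1be
        fun_prop
      · unfold c1be
        fun_prop
      · intro u hu
        exact pow_ne_zero 2 hu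
    exact h1.mono (k2 _ l2)
  · have h1 : ContDiffOn ℝ ∞ (fun v : (ℝ × ℝ) × ℝ × ℝ =>
        c1n v.1.2 v.2.1 v.2.2 / (1 - v.1.1 ^ 2 * v.2.2 ^ 2))
        {v : (ℝ × ℝ) × ℝ × ℝ | 1 - v.1.1 ^ 2 * v.2.2 ^ 2 ≠ 0} := by
      refine ContDiffOn.div ?_ ?_ ?_
      · unfold c1n
        fun_prop
      · fun_prop
      · intro u hu
        exact hu
    exact h1.mono (k3 _ l3)
  · show ContDiffOn ℝ ∞ (fun p : ℝ × ℝ => p.1 ^ 2) _
    fun_prop
  · intro p s hps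
    have h1 : (p, cs s) ∈ c1U c := hmaps hps
    rw [FB_N c p s h1.2.2.2.2.1.ne']
    exact c1_dr' hc (p, cs s) h1
  · show 0 < c1l' c ((M0, 0), cs (y0.swap, x0.swap))
    rw [hcs]
    exact c1l'_pos hc hmem
  · rw [FB_ψb hc _ _ (by rw [hcs]; exact hmem), hcs]
    exact neg_ne_zero.2 (mul_ne_zero (c1l_pos hc hmem).ne' hN)

end Pool.Agent.SDT.N1G

end -- N1G.C1d

section -- N1G.C1e

/-!
N1G, block C1, part e: case (D) for the corner family, `a` first.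
-/

namespace Pool.Agent.SDT.N1G

open MeasureTheory Set Metric Pool.Agent.SDT.MP_6cbfb8_an Pool.Agent.SDT.MST Pool.Agent.SDT.N1
open scoped ENNReal Real ContDiff

/-- a linear function -/
theorem c1_lin (m k : ℝ) : HasDerivAt (fun t : ℝ => m + t * k) k 0 := by
  have := ((hasDerivAt_id (0 : ℝ)).mul_const k).const_add m
  rw [one_mul] at this
  exact this

/-- `Γ` for the family `FA` at `ρ = 0`. -/
noncomputable def c1g (M : ℝ) (u v : ℝ × ℝ) : ℝ :=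
  2 * (u.2 * c1be M v.2 * u.1 - (1 - M ^ 2 * u.2 ^ 2) * v.1) / (u.2 * c1h M v.2)

/-- `Γ` for the family `FB` at `ρ = 0`; `u = (y₂, r)`, `v = (y₁, a)`. -/
noncomputable def c1g' (M : ℝ) (u v : ℝ × ℝ) : ℝ :=
  2 * (v.2 * c1be M u.2 * u.1 - c1h M u.2 * v.1) / (c1be M u.2 * (1 - M ^ 2 * v.2 ^ 2))

theorem c1_l0 (c M : ℝ) (s : YX) :
    c1l c ((M, 0), s) = s.2.1 ^ 2 * c1h M s.2.2 / (c1q c M s.2 * c1q c M s.2 *
      (s.2.1 * c1q c M s.2 + s.2.1 * c1q c M s.2)) := by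
  unfold c1l c1x
  simp

theorem c1_l0' (c M : ℝ) (s : YX) :
    c1l' c ((M, 0), s) = c1be M s.2.2 ^ 2 * (1 - M ^ 2 * s.2.1 ^ 2) /
      (c1q c M s.2 * c1q c M s.2 *
      (c1be M s.2.2 * c1q c M s.2 + c1be M s.2.2 * c1q c M s.2)) := by
  unfold c1l' c1x
  simp

theorem FA_Γ {c M : ℝ} (hc : 0 < c) (u v : ℝ × ℝ)
    (h : ((M, 0), ((u.1, v.1), (u.2, v.2))) ∈ c1U c) : (FA c).Γ (M, 0) u v = c1g M u v := by
  unfold Fam.Γ
  rw [FA_ψb hc _ _ h]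
  have hl : (FA c).l ((M, 0), ((u.1, v.1), (u.2, v.2))) =
      c1l c ((M, 0), ((u.1, v.1), (u.2, v.2))) := rfl
  rw [hl, c1_l0, c1_l0']
  obtain ⟨h1, -⟩ := c1_qpos hc h
  have h2 := c1_hpos h
  obtain ⟨-, -, h3, -, h4, -, h5⟩ := h
  simp only at h1 h2 h3 h4 h5
  unfold c1N' c1g c1n c1m
  simp only [zero_mul, mul_zero, add_zero, sub_zero]
  generalize c1q c M (u.2, v.2) = q at *
  generalize c1be M v.2 = b at *
  generalize c1h M v.2 = hh at *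
  have h6 : (1 - M ^ 2 * u.2 ^ 2) ≠ 0 := h5.ne'
  field_simp
  ring

theorem FB_Γ {c M : ℝ} (hc : 0 < c) (u v : ℝ × ℝ)
    (h : ((M, 0), ((v.1, u.1), (v.2, u.2))) ∈ c1U c) : (FB c).Γ (M, 0) u v = c1g' M u v := by
  unfold Fam.Γ
  rw [FB_ψb hc _ _ h]
  have hl : (FB c).l ((M, 0), ((u.1, v.1), (u.2, v.2))) =
      c1l' c ((M, 0), ((v.1, u.1), (v.2, u.2))) := rfl
  have hc' : cs ((u.1, v.1), (u.2, v.2)) = ((v.1, u.1), (v.2, u.2)) := rfl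
  rw [hl, hc', c1_l0, c1_l0']
  obtain ⟨h1, -⟩ := c1_qpos hc h
  have h2 := c1_hpos h
  obtain ⟨-, -, h3, -, h4, -, h5⟩ := h
  simp only at h1 h2 h3 h4 h5
  unfold c1N c1g' c1n c1m
  simp only [zero_mul, mul_zero, add_zero, sub_zero]
  generalize c1q c M (v.2, u.2) = q at *
  generalize c1be M u.2 = b at *
  generalize c1h M u.2 = hh at *
  have h6 : (1 - M ^ 2 * v.2 ^ 2) ≠ 0 := h5.ne'
  field_simp
  ring

/-- The first derivative of `c1g` along the direction `(y₁, a)`. -/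
theorem c1g_u (M y1 a : ℝ) (v : ℝ × ℝ) (ha : 0 < a) (hh : c1h M v.2 ≠ 0) :
    HasDerivAt (fun t : ℝ => c1g M (y1 + t * y1, a + t * a) v)
      (2 * (a * c1be M v.2 * y1 + (1 + M ^ 2 * a ^ 2) * v.1) / (a * c1h M v.2)) 0 := by
  unfold c1g
  have h1 := c1_lin y1 y1
  have h2 := c1_lin a a
  have h3 := ((((h2.mul_const (c1be M v.2)).mul h1).sub
    ((((h2.pow 2).const_mul (M ^ 2)).const_sub 1).mul_const v.1)).const_mul 2).div
    (h2.mul_const (c1h M v.2)) (by simp [ha.ne', hh])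
  refine h3.congr_deriv ?_
  simp only [Pi.mul_apply, Pi.pow_apply, Pi.sub_apply]
  simp only [zero_mul, add_zero, Nat.cast_ofNat, Nat.add_one_sub_one, pow_one]
  field_simp
  ring

/-- The derivatives along a direction of the second side. -/
theorem c1g_e (M y1 a y2 r e1 e2 : ℝ) (ha : 0 < a) (hh : c1h M r ≠ 0) :
    HasDerivAt (fun t : ℝ => c1g M (y1, a) (y2 + t * e1, r + t * e2))
      (2 * (-(a * M ^ 2 * e2 * y1) - (1 - M ^ 2 * a ^ 2) * e1) / (a * c1h M r) -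
        2 * (a * c1be M r * y1 - (1 - M ^ 2 * a ^ 2) * y2) * (2 * c1be M r * e2) /
          (a * c1h M r ^ 2)) 0 := by
  unfold c1g
  have h1 := c1_lin y2 e1
  have h2 := c1_lin r e2
  have h4 : HasDerivAt (fun t : ℝ => c1be M (r + t * e2)) (-(M ^ 2 * e2)) 0 := by
    unfold c1be
    exact (h2.const_mul (M ^ 2)).const_sub 1
  have h5 : HasDerivAt (fun t : ℝ => c1h M (r + t * e2)) (2 * c1be M r * e2) 0 := by
    unfold c1h c1be
    refine ((h2.const_mul 2).sub ((h2.pow 2).const_mul (M ^ 2))).congr_deriv ?_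
    simp
    ring
  have h3 := ((((h4.const_mul a).mul_const y1).sub
    (h1.const_mul (1 - M ^ 2 * a ^ 2))).const_mul 2).div
    (h5.const_mul a) (by simp [ha.ne', hh])
  refine h3.congr_deriv ?_
  simp only [Pi.sub_apply]
  simp only [zero_mul, add_zero]
  field_simp

theorem c1g_ue (M y1 a y2 r e1 e2 : ℝ) (ha : 0 < a) (hh : c1h M r ≠ 0) :
    HasDerivAt (fun t : ℝ => 2 * (a * c1be M (r + t * e2) * y1 +
      (1 + M ^ 2 * a ^ 2) * (y2 + t * e1)) / (a * c1h M (r + t * e2)))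
      (2 * (-(a * M ^ 2 * e2 * y1) + (1 + M ^ 2 * a ^ 2) * e1) / (a * c1h M r) -
        2 * (a * c1be M r * y1 + (1 + M ^ 2 * a ^ 2) * y2) * (2 * c1be M r * e2) /
          (a * c1h M r ^ 2)) 0 := by
  have h1 := c1_lin y2 e1
  have h2 := c1_lin r e2
  have h4 : HasDerivAt (fun t : ℝ => c1be M (r + t * e2)) (-(M ^ 2 * e2)) 0 := by
    unfold c1be
    exact (h2.const_mul (M ^ 2)).const_sub 1
  have h5 : HasDerivAt (fun t : ℝ => c1h M (r + t * e2)) (2 * c1be M r * e2) 0 := by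
    unfold c1h c1be
    refine ((h2.const_mul 2).sub ((h2.pow 2).const_mul (M ^ 2))).congr_deriv ?_
    simp
    ring
  have h3 := ((((h4.const_mul a).mul_const y1).add
    (h1.const_mul (1 + M ^ 2 * a ^ 2))).const_mul 2).div
    (h5.const_mul a) (by simp [ha.ne', hh])
  refine h3.congr_deriv ?_
  simp only [Pi.add_apply]
  simp only [zero_mul, add_zero]
  field_simp

theorem c1_dbe (M r e2 : ℝ) : HasDerivAt (fun t : ℝ => c1be M (r + t * e2)) (-(M ^ 2 * e2)) 0 := by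
  unfold c1be
  exact ((c1_lin r e2).const_mul (M ^ 2)).const_sub 1

theorem c1_dh (M r e2 : ℝ) :
    HasDerivAt (fun t : ℝ => c1h M (r + t * e2)) (2 * c1be M r * e2) 0 := by
  unfold c1h c1be
  have h2 := c1_lin r e2
  refine ((h2.const_mul 2).sub ((h2.pow 2).const_mul (M ^ 2))).congr_deriv ?_
  simp
  ring

theorem c1_dS (M a e2 : ℝ) :
    HasDerivAt (fun t : ℝ => 1 - M ^ 2 * (a + t * e2) ^ 2) (-(2 * M ^ 2 * a * e2)) 0 := by
  have h2 := c1_lin a e2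
  refine (((h2.pow 2).const_mul (M ^ 2)).const_sub 1).congr_deriv ?_
  simp
  ring

theorem c1g'_u (M y2 r : ℝ) (v : ℝ × ℝ) (hb : c1be M r ≠ 0) (hS : 1 - M ^ 2 * v.2 ^ 2 ≠ 0) :
    HasDerivAt (fun t : ℝ => c1g' M (y2 + t * (-(M ^ 2 * y2)), r + t * c1be M r) v)
      (-(2 * (M ^ 2 * v.2 * c1be M r * y2 + (1 + c1be M r ^ 2) * v.1) /
        (c1be M r * (1 - M ^ 2 * v.2 ^ 2)))) 0 := by
  unfold c1g'
  have h1 := c1_lin y2 (-(M ^ 2 * y2))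
  have h4 := c1_dbe M r (c1be M r)
  have h5 := c1_dh M r (c1be M r)
  have h3 := ((((h4.const_mul v.2).mul h1).sub (h5.mul_const v.1)).const_mul 2).div
    (h4.mul_const (1 - M ^ 2 * v.2 ^ 2)) (by simp [hb, hS])
  refine h3.congr_deriv ?_
  simp only [Pi.mul_apply, Pi.sub_apply]
  simp only [zero_mul, add_zero]
  have k1 : c1h M r * M ^ 2 = 1 - c1be M r ^ 2 := by
    unfold c1h c1be
    ring
  have k2 : M ^ 2 * v.2 ^ 2 = 1 - (1 - M ^ 2 * v.2 ^ 2) := by ring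
  generalize 1 - M ^ 2 * v.2 ^ 2 = S at *
  field_simp
  linear_combination (-v.1) * k1

theorem c1g'_e (M y2 r y1 a e1 e2 : ℝ) (hb : c1be M r ≠ 0) (hS : 1 - M ^ 2 * a ^ 2 ≠ 0) :
    HasDerivAt (fun t : ℝ => c1g' M (y2, r) (y1 + t * e1, a + t * e2))
      (2 * (c1be M r * y2 * e2 - c1h M r * e1) / (c1be M r * (1 - M ^ 2 * a ^ 2)) +
        2 * (a * c1be M r * y2 - c1h M r * y1) * (2 * M ^ 2 * a * e2) /
          (c1be M r * (1 - M ^ 2 * a ^ 2) ^ 2)) 0 := by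
  unfold c1g'
  have h1 := c1_lin y1 e1
  have h2 := c1_lin a e2
  have h5 := c1_dS M a e2
  have h3 := ((((h2.mul_const (c1be M r)).mul_const y2).sub
    (h1.const_mul (c1h M r))).const_mul 2).div (h5.const_mul (c1be M r)) (by simp [hb, hS])
  refine h3.congr_deriv ?_
  simp only [Pi.sub_apply]
  simp only [zero_mul, add_zero]
  field_simp
  ring

theorem c1g'_ue (M y2 r y1 a e1 e2 : ℝ) (hb : c1be M r ≠ 0) (hS : 1 - M ^ 2 * a ^ 2 ≠ 0) :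
    HasDerivAt (fun t : ℝ => -(2 * (M ^ 2 * (a + t * e2) * c1be M r * y2 +
      (1 + c1be M r ^ 2) * (y1 + t * e1)) / (c1be M r * (1 - M ^ 2 * (a + t * e2) ^ 2))))
      (-(2 * (M ^ 2 * e2 * c1be M r * y2 + (1 + c1be M r ^ 2) * e1) /
        (c1be M r * (1 - M ^ 2 * a ^ 2))) -
        2 * (M ^ 2 * a * c1be M r * y2 + (1 + c1be M r ^ 2) * y1) * (2 * M ^ 2 * a * e2) /
          (c1be M r * (1 - M ^ 2 * a ^ 2) ^ 2)) 0 := by
  have h1 := c1_lin y1 e1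
  have h2 := c1_lin a e2
  have h5 := c1_dS M a e2
  have h3 := ((((((h2.const_mul (M ^ 2)).mul_const (c1be M r)).mul_const y2).add
    (h1.const_mul (1 + c1be M r ^ 2))).const_mul 2).div (h5.const_mul (c1be M r))
    (by simp [hb, hS])).neg
  refine h3.congr_deriv ?_
  simp only [Pi.add_apply]
  simp only [zero_mul, add_zero]
  field_simp
  ring

/-- the nondegeneracy, `a` first -/
theorem c1_ndA {M a r s y1 y2 e1 e2 : ℝ} (ha : a ≠ 0) (hh : c1h M r ≠ 0) (hb : c1be M r ≠ 0)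
    (h1 : y1 = s * a) (h2 : y2 = s * c1h M r / c1be M r) (he1 : e1 = y2 * (1 + c1be M r ^ 2))
    (he2 : e2 = c1be M r * c1h M r) :
    (2 * (a * c1be M r * y1 - (1 - M ^ 2 * a ^ 2) * y2) / (a * c1h M r)) *
      (2 * (-(a * M ^ 2 * e2 * y1) + (1 + M ^ 2 * a ^ 2) * e1) / (a * c1h M r) -
        2 * (a * c1be M r * y1 + (1 + M ^ 2 * a ^ 2) * y2) * (2 * c1be M r * e2) /
          (a * c1h M r ^ 2)) -
    (2 * (a * c1be M r * y1 + (1 + M ^ 2 * a ^ 2) * y2) / (a * c1h M r)) *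
      (2 * (-(a * M ^ 2 * e2 * y1) - (1 - M ^ 2 * a ^ 2) * e1) / (a * c1h M r) -
        2 * (a * c1be M r * y1 - (1 - M ^ 2 * a ^ 2) * y2) * (2 * c1be M r * e2) /
          (a * c1h M r ^ 2)) = 16 * s ^ 2 / c1h M r := by
  have k1 : c1be M r ^ 2 = 1 - M ^ 2 * c1h M r := by
    unfold c1h c1be
    ring
  subst h1 h2 he1 he2
  generalize c1be M r = b at *
  generalize c1h M r = h at *
  have k2 : M ^ 2 = (1 - b ^ 2) / h := by
    field_simp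
    linarith
  rw [k2]
  field_simp
  ring

/-- the nondegeneracy, `r` first -/
theorem c1_ndB {M a r s y1 y2 e1 e2 : ℝ} (ha : a ≠ 0) (hS : 1 - M ^ 2 * a ^ 2 ≠ 0)
    (hb : c1be M r ≠ 0) (h1 : y1 = s * (1 - M ^ 2 * a ^ 2) / a) (h2 : y2 = s * c1be M r)
    (he1 : e1 = -(y1 * (1 + M ^ 2 * a ^ 2))) (he2 : e2 = a * (1 - M ^ 2 * a ^ 2)) :
    (2 * (a * c1be M r * y2 - c1h M r * y1) / (c1be M r * (1 - M ^ 2 * a ^ 2))) *
      (-(2 * (M ^ 2 * e2 * c1be M r * y2 + (1 + c1be M r ^ 2) * e1) /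
        (c1be M r * (1 - M ^ 2 * a ^ 2))) -
        2 * (M ^ 2 * a * c1be M r * y2 + (1 + c1be M r ^ 2) * y1) * (2 * M ^ 2 * a * e2) /
          (c1be M r * (1 - M ^ 2 * a ^ 2) ^ 2)) -
    (-(2 * (M ^ 2 * a * c1be M r * y2 + (1 + c1be M r ^ 2) * y1) /
        (c1be M r * (1 - M ^ 2 * a ^ 2)))) *
      (2 * (c1be M r * y2 * e2 - c1h M r * e1) / (c1be M r * (1 - M ^ 2 * a ^ 2)) +
        2 * (a * c1be M r * y2 - c1h M r * y1) * (2 * M ^ 2 * a * e2) /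
          (c1be M r * (1 - M ^ 2 * a ^ 2) ^ 2)) = 16 * s ^ 2 / (1 - M ^ 2 * a ^ 2) := by
  have k1 : c1be M r ^ 2 = 1 - M ^ 2 * c1h M r := by
    unfold c1h c1be
    ring
  subst h1 h2 he1 he2
  generalize c1be M r = b at *
  generalize c1h M r = h at *
  generalize M ^ 2 = m at *
  obtain ⟨S, hS'⟩ : ∃ S, S = 1 - m * a ^ 2 := ⟨_, rfl⟩
  rw [← hS'] at hS ⊢
  field_simp
  subst hS'
  linear_combination (8 * a ^ 2 * b ^ 2 * s ^ 2 * (1 - m * a ^ 2)) * k1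

end Pool.Agent.SDT.N1G

end -- N1G.C1e

section -- N1G.C1f

/-!
N1G, block C1, part f: case (D) for the corner family.
-/

namespace Pool.Agent.SDT.N1G

open MeasureTheory Set Metric Pool.Agent.SDT.MP_6cbfb8_an Pool.Agent.SDT.MST Pool.Agent.SDT.N1
open scoped ENNReal Real ContDiff

theorem c1_N0 (M : ℝ) (s : YX) : c1N ((M, 0), s) =
    2 * s.1.1 * s.2.1 / s.2.1 ^ 2 - 2 * s.1.2 * c1be M s.2.2 / c1h M s.2.2 := by
  unfold c1N c1n c1m
  simp only [zero_mul, mul_zero, add_zero, sub_zero]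
  ring

theorem c1_N0' (M : ℝ) (s : YX) : c1N' ((M, 0), s) =
    2 * s.1.2 * c1be M s.2.2 / c1be M s.2.2 ^ 2 -
      2 * s.1.1 * s.2.1 / (1 - M ^ 2 * s.2.1 ^ 2) := by
  unfold c1N' c1n c1m
  simp only [zero_mul, mul_zero, add_zero, sub_zero]
  ring

/-- points near the base point, along two lines -/
theorem c1_near {c M : ℝ} {x0 y0 : ℝ × ℝ} (hmem : ((M, 0), (y0, x0)) ∈ c1U c) (u e : ℝ × ℝ) :
    ∀ᶠ t' in nhds (0 : ℝ), ∀ᶠ t in nhds (0 : ℝ),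
      ((M, (0 : ℝ)), ((y0.1 + t * u.1, y0.2 + t' * e.1), (x0.1 + t * u.2, x0.2 + t' * e.2))) ∈
        c1U c := by
  have h1 : Continuous fun z : ℝ × ℝ => ((M, (0 : ℝ)),
      ((y0.1 + z.2 * u.1, y0.2 + z.1 * e.1), (x0.1 + z.2 * u.2, x0.2 + z.1 * e.2))) := by
    fun_prop
  have h2 := ((c1U_open c).preimage h1).mem_nhds (x := ((0 : ℝ), (0 : ℝ))) (by
    simp only [mem_preimage, zero_mul, add_zero]
    exact hmem)
  have h3 : ∀ᶠ z : ℝ × ℝ in nhds ((0 : ℝ), (0 : ℝ)), ((M, (0 : ℝ)),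
      ((y0.1 + z.2 * u.1, y0.2 + z.1 * e.1), (x0.1 + z.2 * u.2, x0.2 + z.1 * e.2))) ∈ c1U c := h2
  exact h3.curry_nhds

/-- points near the base point, along two lines, the other order -/
theorem c1_near' {c M : ℝ} {x0 y0 : ℝ × ℝ} (hmem : ((M, 0), (y0, x0)) ∈ c1U c) (u e : ℝ × ℝ) :
    ∀ᶠ t' in nhds (0 : ℝ), ∀ᶠ t in nhds (0 : ℝ),
      ((M, (0 : ℝ)), ((y0.1 + t' * e.1, y0.2 + t * u.1), (x0.1 + t' * e.2, x0.2 + t * u.2))) ∈
        c1U c := by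
  have h1 : Continuous fun z : ℝ × ℝ => ((M, (0 : ℝ)),
      ((y0.1 + z.1 * e.1, y0.2 + z.2 * u.1), (x0.1 + z.1 * e.2, x0.2 + z.2 * u.2))) := by
    fun_prop
  have h2 := ((c1U_open c).preimage h1).mem_nhds (x := ((0 : ℝ), (0 : ℝ))) (by
    simp only [mem_preimage, zero_mul, add_zero]
    exact hmem)
  have h3 : ∀ᶠ z : ℝ × ℝ in nhds ((0 : ℝ), (0 : ℝ)), ((M, (0 : ℝ)),
      ((y0.1 + z.1 * e.1, y0.2 + z.2 * u.1), (x0.1 + z.1 * e.2, x0.2 + z.2 * u.2))) ∈ c1U c := h2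
  exact h3.curry_nhds

theorem FA_D {c M0 : ℝ} {x0 y0 : ℝ × ℝ} (hc : 0 < c) (h : C1B c M0 x0 y0)
    (hN : c1N ((M0, 0), (y0, x0)) = 0) : CaseD (FA c) (M0, 0) x0 y0 := by
  have hmem := h.mem hc
  have ha := h.a
  have hb := h.b
  have hh : 0 < c1h M0 x0.2 := c1_hpos hmem
  have hN2 := hN
  rw [c1_N0] at hN2
  simp only at hN2
  have hrel : y0.1 / x0.1 = y0.2 * c1be M0 x0.2 / c1h M0 x0.2 := by
    field_simp at hN2 ⊢
    linarith
  have hy1 : y0.1 = y0.1 / x0.1 * x0.1 := by field_simp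
  have hy2 : y0.2 = y0.1 / x0.1 * c1h M0 x0.2 / c1be M0 x0.2 := by
    rw [hrel]
    field_simp
  have hs : y0.1 / x0.1 ≠ 0 := div_ne_zero h.y1 ha.ne'
  constructor
  · rw [FA_N]
    exact hN
  · have h1 : HasDerivAt (fun a : ℝ => c1n 0 y0.1 a / a ^ 2) (-(2 * y0.1) / x0.1 ^ 2) x0.1 := by
      unfold c1n
      have h2 := hasDerivAt_id x0.1
      refine ((((h2.const_mul 2).sub_const (0 * y0.1)).const_mul y0.1).div (h2.pow 2)
        (by show x0.1 ^ 2 ≠ 0; positivity)).congr_deriv ?_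
      simp
      field_simp
      ring
    have h3 : deriv (fun a => (FA c).o1 ((M0, 0), y0.1, a)) x0.1 = -(2 * y0.1) / x0.1 ^ 2 := h1.deriv
    rw [h3]
    exact div_ne_zero (neg_ne_zero.2 (mul_ne_zero two_ne_zero h.y1)) (by positivity)
  · have h1 : HasDerivAt (fun y : ℝ => (0 : ℝ) + 1 * (c1n 0 y x0.1 / x0.1 ^ 2))
        (2 * x0.1 / x0.1 ^ 2) y0.1 := by
      unfold c1n
      have h2 := hasDerivAt_id y0.1
      refine ((((h2.mul ((h2.const_mul 0).const_sub (2 * x0.1))).div_const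
        (x0.1 ^ 2)).const_mul 1).const_add 0).congr_deriv ?_
      simp
    have h3 : deriv (fun y => (FA c).om (M0, 0) (y, x0.1)) y0.1 = 2 * x0.1 / x0.1 ^ 2 := h1.deriv
    rw [h3]
    positivity
  · have h1 : HasDerivAt (fun y : ℝ => c1m M0 0 y x0.2 / c1h M0 x0.2)
        (2 * c1be M0 x0.2 / c1h M0 x0.2) y0.2 := by
      unfold c1m
      have h2 := hasDerivAt_id y0.2
      refine ((h2.mul ((h2.const_mul (M0 ^ 2 * 0)).const_add (2 * c1be M0 x0.2))).div_const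
        (c1h M0 x0.2)).congr_deriv ?_
      simp
    have h3 : deriv (fun y => (FA c).sg (M0, 0) (y, x0.2)) y0.2 =
      2 * c1be M0 x0.2 / c1h M0 x0.2 := h1.deriv
    rw [h3]
    positivity
  · refine ⟨(y0.1, x0.1), (y0.2 * (1 + c1be M0 x0.2 ^ 2), c1be M0 x0.2 * c1h M0 x0.2), ?_, ?_, ?_⟩
    · have h1 : (fun t : ℝ => (FA c).om (M0, 0) (y0.1 + t * y0.1, x0.1 + t * x0.1)) =ᶠ[nhds 0]
          fun _ => 2 * y0.1 / x0.1 := by
        have h2 : ∀ᶠ t : ℝ in nhds 0, 0 < 1 + t := by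
          have : Continuous fun t : ℝ => 1 + t := by fun_prop
          exact (isOpen_lt continuous_const this).mem_nhds (by simp)
        filter_upwards [h2] with t ht
        show (0 : ℝ) + 1 * (c1n 0 (y0.1 + t * y0.1) (x0.1 + t * x0.1) / (x0.1 + t * x0.1) ^ 2) = _
        unfold c1n
        have h3 : x0.1 + t * x0.1 = (1 + t) * x0.1 := by ring
        rw [h3]
        field_simp
        ring
      have h2 := h1.deriv_eq
      simp only at h2 ⊢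
      rw [h2]
      simp
    · have h1 : HasDerivAt (fun t : ℝ => c1m M0 0 (y0.2 + t * (y0.2 * (1 + c1be M0 x0.2 ^ 2)))
          (x0.2 + t * (c1be M0 x0.2 * c1h M0 x0.2)) /
          c1h M0 (x0.2 + t * (c1be M0 x0.2 * c1h M0 x0.2))) 0 0 := by
        unfold c1m
        have k1 := c1_lin y0.2 (y0.2 * (1 + c1be M0 x0.2 ^ 2))
        have k2 := c1_dbe M0 x0.2 (c1be M0 x0.2 * c1h M0 x0.2)
        have k3 := c1_dh M0 x0.2 (c1be M0 x0.2 * c1h M0 x0.2)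
        refine ((k1.mul ((k2.const_mul 2).add (k1.const_mul (M0 ^ 2 * 0)))).div k3
          (by simp [hh.ne'])).congr_deriv ?_
        simp only [Pi.mul_apply, Pi.add_apply]
        simp only [zero_mul, add_zero, mul_zero]
        have k4 : c1h M0 x0.2 * M0 ^ 2 = 1 - c1be M0 x0.2 ^ 2 := by
          unfold c1h c1be
          ring
        rw [div_eq_zero_iff]
        left
        linear_combination (-2 * y0.2 * c1be M0 x0.2 * c1h M0 x0.2) * k4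
      exact h1.deriv
    · simp only
      have hnear := c1_near hmem (y0.1, x0.1)
        (y0.2 * (1 + c1be M0 x0.2 ^ 2), c1be M0 x0.2 * c1h M0 x0.2)
      simp only at hnear
      set e1 := y0.2 * (1 + c1be M0 x0.2 ^ 2) with he1
      set e2 := c1be M0 x0.2 * c1h M0 x0.2 with he2
      -- the first derivatives
      have g0 : (FA c).Γ (M0, 0) (y0.1, x0.1) (y0.2, x0.2) =
          c1g M0 (y0.1, x0.1) (y0.2, x0.2) := FA_Γ hc _ _ hmem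
      have gu : ∀ᶠ t' in nhds (0 : ℝ), deriv (fun t : ℝ => (FA c).Γ (M0, 0)
          (y0.1 + t * y0.1, x0.1 + t * x0.1) (y0.2 + t' * e1, x0.2 + t' * e2)) 0 =
          2 * (x0.1 * c1be M0 (x0.2 + t' * e2) * y0.1 + (1 + M0 ^ 2 * x0.1 ^ 2) *
            (y0.2 + t' * e1)) / (x0.1 * c1h M0 (x0.2 + t' * e2)) := by
        filter_upwards [hnear] with t' ht'
        have k1 : (fun t : ℝ => (FA c).Γ (M0, 0)
            (y0.1 + t * y0.1, x0.1 + t * x0.1) (y0.2 + t' * e1, x0.2 + t' * e2)) =ᶠ[nhds 0]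
            fun t => c1g M0 (y0.1 + t * y0.1, x0.1 + t * x0.1)
              (y0.2 + t' * e1, x0.2 + t' * e2) := by
          filter_upwards [ht'] with t ht
          exact FA_Γ hc _ _ ht
        rw [k1.deriv_eq]
        have k2 : c1h M0 (x0.2 + t' * e2) ≠ 0 := (c1_hpos ht'.self_of_nhds).ne'
        exact (c1g_u M0 y0.1 x0.1 (y0.2 + t' * e1, x0.2 + t' * e2) ha k2).deriv
      have gu0 := gu.self_of_nhds
      simp only [zero_mul, add_zero] at gu0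
      have ge : deriv (fun t' : ℝ => (FA c).Γ (M0, 0) (y0.1, x0.1)
          (y0.2 + t' * e1, x0.2 + t' * e2)) 0 =
          2 * (-(x0.1 * M0 ^ 2 * e2 * y0.1) - (1 - M0 ^ 2 * x0.1 ^ 2) * e1) /
            (x0.1 * c1h M0 x0.2) -
          2 * (x0.1 * c1be M0 x0.2 * y0.1 - (1 - M0 ^ 2 * x0.1 ^ 2) * y0.2) *
            (2 * c1be M0 x0.2 * e2) / (x0.1 * c1h M0 x0.2 ^ 2) := by
        have k1 : (fun t' : ℝ => (FA c).Γ (M0, 0) (y0.1, x0.1)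
            (y0.2 + t' * e1, x0.2 + t' * e2)) =ᶠ[nhds 0]
            fun t' => c1g M0 (y0.1, x0.1) (y0.2 + t' * e1, x0.2 + t' * e2) := by
          filter_upwards [hnear] with t' ht'
          have := ht'.self_of_nhds
          simp only [zero_mul, add_zero] at this
          exact FA_Γ hc _ _ this
        rw [k1.deriv_eq]
        exact (c1g_e M0 y0.1 x0.1 y0.2 x0.2 e1 e2 ha hh.ne').deriv
      have gue : deriv (fun t' : ℝ => deriv (fun t : ℝ => (FA c).Γ (M0, 0)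
          (y0.1 + t * y0.1, x0.1 + t * x0.1) (y0.2 + t' * e1, x0.2 + t' * e2)) 0) 0 =
          2 * (-(x0.1 * M0 ^ 2 * e2 * y0.1) + (1 + M0 ^ 2 * x0.1 ^ 2) * e1) /
            (x0.1 * c1h M0 x0.2) -
          2 * (x0.1 * c1be M0 x0.2 * y0.1 + (1 + M0 ^ 2 * x0.1 ^ 2) * y0.2) *
            (2 * c1be M0 x0.2 * e2) / (x0.1 * c1h M0 x0.2 ^ 2) :=
        (Filter.EventuallyEq.deriv_eq gu).trans
          (c1g_ue M0 y0.1 x0.1 y0.2 x0.2 e1 e2 ha hh.ne').deriv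
      rw [g0, gue, gu0, ge]
      have key := c1_ndA (M := M0) (a := x0.1) (r := x0.2) (s := y0.1 / x0.1) (y1 := y0.1)
        (y2 := y0.2) (e1 := e1) (e2 := e2) ha.ne' hh.ne' hb.ne' hy1 hy2 he1 he2
      intro heq
      have h5 : (16 : ℝ) * (y0.1 / x0.1) ^ 2 / c1h M0 x0.2 ≠ 0 := by positivity
      apply h5
      rw [← key]
      unfold c1g at heq
      simp only at heq
      linarith

theorem FB_D {c M0 : ℝ} {x0 y0 : ℝ × ℝ} (hc : 0 < c) (h : C1B c M0 x0 y0)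
    (hN : c1N' ((M0, 0), (y0, x0)) = 0) : CaseD (FB c) (M0, 0) x0.swap y0.swap := by
  have hmem := h.mem hc
  have ha := h.a
  have hb := h.b
  have hh : 0 < c1h M0 x0.2 := c1_hpos hmem
  have hS : 0 < 1 - M0 ^ 2 * x0.1 ^ 2 := hmem.2.2.2.2.2.2
  have hcs : cs (y0.swap, x0.swap) = (y0, x0) := by
    unfold cs
    simp
  have hN2 := hN
  rw [c1_N0'] at hN2
  simp only at hN2
  have hrel : y0.2 / c1be M0 x0.2 = y0.1 * x0.1 / (1 - M0 ^ 2 * x0.1 ^ 2) := by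
    have h1 : 2 * y0.2 * c1be M0 x0.2 / c1be M0 x0.2 ^ 2 = 2 * (y0.2 / c1be M0 x0.2) := by
      field_simp
    rw [h1] at hN2
    have h2 : 2 * y0.1 * x0.1 / (1 - M0 ^ 2 * x0.1 ^ 2) =
      2 * (y0.1 * x0.1 / (1 - M0 ^ 2 * x0.1 ^ 2)) := by ring
    rw [h2] at hN2
    linarith
  have hy2 : y0.2 = y0.2 / c1be M0 x0.2 * c1be M0 x0.2 := by field_simp
  have hy1 : y0.1 = y0.2 / c1be M0 x0.2 * (1 - M0 ^ 2 * x0.1 ^ 2) / x0.1 := by
    rw [hrel]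
    generalize 1 - M0 ^ 2 * x0.1 ^ 2 = S at *
    field_simp
  have hs : y0.2 / c1be M0 x0.2 ≠ 0 := div_ne_zero h.y2 hb.ne'
  constructor
  · rw [FB_N _ _ _ hb.ne', hcs]
    exact hN
  · have h1 : HasDerivAt (fun r : ℝ => (2 * y0.2 * c1be M0 r * r + 0 * y0.2 ^ 2) /
        c1be M0 r ^ 2) (2 * y0.2 / c1be M0 x0.2 ^ 2) x0.2 := by
      have h2 := hasDerivAt_id x0.2
      have h3 : HasDerivAt (fun r : ℝ => c1be M0 r) (-(M0 ^ 2)) x0.2 := by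
        unfold c1be
        have := (h2.const_mul (M0 ^ 2)).const_sub 1
        rw [mul_one] at this
        exact this
      refine ((((h3.const_mul (2 * y0.2)).mul h2).add_const (0 * y0.2 ^ 2)).div (h3.pow 2)
        (by show c1be M0 x0.2 ^ 2 ≠ 0; positivity)).congr_deriv ?_
      simp
      field_simp
      unfold c1be
      ring
    have h3 : deriv (fun a => (FB c).o1 ((M0, 0), y0.swap.1, a)) x0.swap.1 =
      2 * y0.2 / c1be M0 x0.2 ^ 2 := h1.deriv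
    rw [h3]
    exact div_ne_zero (mul_ne_zero two_ne_zero h.y2) (by positivity)
  · have h1 : HasDerivAt (fun y : ℝ => 2 * y + M0 ^ 2 *
        ((2 * y * c1be M0 x0.2 * x0.2 + 0 * y ^ 2) / c1be M0 x0.2 ^ 2))
        (2 / c1be M0 x0.2) y0.2 := by
      have h2 := hasDerivAt_id y0.2
      refine ((h2.const_mul 2).add ((((((h2.const_mul 2).mul_const (c1be M0 x0.2)).mul_const
        x0.2).add ((h2.pow 2).const_mul 0)).div_const
        (c1be M0 x0.2 ^ 2)).const_mul (M0 ^ 2))).congr_deriv ?_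
      simp
      field_simp
      unfold c1be
      ring
    have h3 : deriv (fun y => (FB c).om (M0, 0) (y, x0.swap.1)) y0.swap.1 =
      2 / c1be M0 x0.2 := h1.deriv
    rw [h3]
    positivity
  · have h1 : HasDerivAt (fun y : ℝ => c1n 0 y x0.1 / (1 - M0 ^ 2 * x0.1 ^ 2))
        (2 * x0.1 / (1 - M0 ^ 2 * x0.1 ^ 2)) y0.1 := by
      unfold c1n
      have h2 := hasDerivAt_id y0.1
      refine ((h2.mul ((h2.const_mul 0).const_sub (2 * x0.1))).div_const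
        (1 - M0 ^ 2 * x0.1 ^ 2)).congr_deriv ?_
      simp
    have h3 : deriv (fun y => (FB c).sg (M0, 0) (y, x0.swap.2)) y0.swap.2 =
      2 * x0.1 / (1 - M0 ^ 2 * x0.1 ^ 2) := h1.deriv
    rw [h3]
    positivity
  · refine ⟨(-(M0 ^ 2 * y0.2), c1be M0 x0.2), (-(y0.1 * (1 + M0 ^ 2 * x0.1 ^ 2)),
      x0.1 * (1 - M0 ^ 2 * x0.1 ^ 2)), ?_, ?_, ?_⟩
    · have h1 : HasDerivAt (fun t : ℝ => 2 * (y0.2 + t * (-(M0 ^ 2 * y0.2))) + M0 ^ 2 *
          ((2 * (y0.2 + t * (-(M0 ^ 2 * y0.2))) * c1be M0 (x0.2 + t * c1be M0 x0.2) *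
            (x0.2 + t * c1be M0 x0.2) + 0 * (y0.2 + t * (-(M0 ^ 2 * y0.2))) ^ 2) /
            c1be M0 (x0.2 + t * c1be M0 x0.2) ^ 2)) 0 0 := by
        have k1 := c1_lin y0.2 (-(M0 ^ 2 * y0.2))
        have k2 := c1_dbe M0 x0.2 (c1be M0 x0.2)
        have k3 := c1_lin x0.2 (c1be M0 x0.2)
        refine ((k1.const_mul 2).add ((((((k1.const_mul 2).mul k2).mul k3).add
          ((k1.pow 2).const_mul 0)).div (k2.pow 2) (by simp [hb.ne'])).const_mul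
          (M0 ^ 2))).congr_deriv ?_
        simp only [Pi.mul_apply, Pi.add_apply, Pi.pow_apply]
        simp only [zero_mul, add_zero, mul_zero]
        simp only [Nat.cast_ofNat, Nat.add_one_sub_one, pow_one]
        field_simp
        unfold c1be
        ring
      exact h1.deriv
    · have h1 : HasDerivAt (fun t : ℝ => c1n 0 (y0.1 + t * (-(y0.1 * (1 + M0 ^ 2 * x0.1 ^ 2))))
          (x0.1 + t * (x0.1 * (1 - M0 ^ 2 * x0.1 ^ 2))) /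
          (1 - M0 ^ 2 * (x0.1 + t * (x0.1 * (1 - M0 ^ 2 * x0.1 ^ 2))) ^ 2)) 0 0 := by
        unfold c1n
        have k1 := c1_lin y0.1 (-(y0.1 * (1 + M0 ^ 2 * x0.1 ^ 2)))
        have k2 := c1_lin x0.1 (x0.1 * (1 - M0 ^ 2 * x0.1 ^ 2))
        have k3 := c1_dS M0 x0.1 (x0.1 * (1 - M0 ^ 2 * x0.1 ^ 2))
        refine ((k1.mul ((k2.const_mul 2).sub (k1.const_mul 0))).div k3
          (by simp [hS.ne'])).congr_deriv ?_
        simp only [Pi.mul_apply, Pi.sub_apply]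
        simp only [zero_mul, add_zero, mul_zero]
        rw [div_eq_zero_iff]
        left
        ring
      exact h1.deriv
    · simp only
      have hnear := c1_near' hmem (-(M0 ^ 2 * y0.2), c1be M0 x0.2)
        (-(y0.1 * (1 + M0 ^ 2 * x0.1 ^ 2)), x0.1 * (1 - M0 ^ 2 * x0.1 ^ 2))
      simp only at hnear
      set e1 := -(y0.1 * (1 + M0 ^ 2 * x0.1 ^ 2)) with he1
      set e2 := x0.1 * (1 - M0 ^ 2 * x0.1 ^ 2) with he2
      -- the first derivatives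
      have g0 : (FB c).Γ (M0, 0) (y0.2, x0.2) (y0.1, x0.1) =
          c1g' M0 (y0.2, x0.2) (y0.1, x0.1) := FB_Γ hc _ _ hmem
      have gu : ∀ᶠ t' in nhds (0 : ℝ), deriv (fun t : ℝ => (FB c).Γ (M0, 0)
          (y0.2 + t * (-(M0 ^ 2 * y0.2)), x0.2 + t * c1be M0 x0.2)
          (y0.1 + t' * e1, x0.1 + t' * e2)) 0 =
          -(2 * (M0 ^ 2 * (x0.1 + t' * e2) * c1be M0 x0.2 * y0.2 + (1 + c1be M0 x0.2 ^ 2) *
            (y0.1 + t' * e1)) / (c1be M0 x0.2 * (1 - M0 ^ 2 * (x0.1 + t' * e2) ^ 2))) := by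
        filter_upwards [hnear] with t' ht'
        have k1 : (fun t : ℝ => (FB c).Γ (M0, 0)
            (y0.2 + t * (-(M0 ^ 2 * y0.2)), x0.2 + t * c1be M0 x0.2)
            (y0.1 + t' * e1, x0.1 + t' * e2)) =ᶠ[nhds 0]
            fun t => c1g' M0 (y0.2 + t * (-(M0 ^ 2 * y0.2)), x0.2 + t * c1be M0 x0.2)
              (y0.1 + t' * e1, x0.1 + t' * e2) := by
          filter_upwards [ht'] with t ht
          exact FB_Γ hc _ _ ht
        rw [k1.deriv_eq]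
        have k2 : (1 - M0 ^ 2 * (x0.1 + t' * e2) ^ 2) ≠ 0 :=
          (ht'.self_of_nhds).2.2.2.2.2.2.ne'
        exact (c1g'_u M0 y0.2 x0.2 (y0.1 + t' * e1, x0.1 + t' * e2) hb.ne' k2).deriv
      have gu0 := gu.self_of_nhds
      simp only [zero_mul, add_zero] at gu0
      have ge : deriv (fun t' : ℝ => (FB c).Γ (M0, 0) (y0.2, x0.2)
          (y0.1 + t' * e1, x0.1 + t' * e2)) 0 =
          2 * (c1be M0 x0.2 * y0.2 * e2 - c1h M0 x0.2 * e1) /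
            (c1be M0 x0.2 * (1 - M0 ^ 2 * x0.1 ^ 2)) +
          2 * (x0.1 * c1be M0 x0.2 * y0.2 - c1h M0 x0.2 * y0.1) * (2 * M0 ^ 2 * x0.1 * e2) /
            (c1be M0 x0.2 * (1 - M0 ^ 2 * x0.1 ^ 2) ^ 2) := by
        have k1 : (fun t' : ℝ => (FB c).Γ (M0, 0) (y0.2, x0.2)
            (y0.1 + t' * e1, x0.1 + t' * e2)) =ᶠ[nhds 0]
            fun t' => c1g' M0 (y0.2, x0.2) (y0.1 + t' * e1, x0.1 + t' * e2) := by
          filter_upwards [hnear] with t' ht'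
          have := ht'.self_of_nhds
          simp only [zero_mul, add_zero] at this
          exact FB_Γ hc _ _ this
        rw [k1.deriv_eq]
        exact (c1g'_e M0 y0.2 x0.2 y0.1 x0.1 e1 e2 hb.ne' hS.ne').deriv
      have gue : deriv (fun t' : ℝ => deriv (fun t : ℝ => (FB c).Γ (M0, 0)
          (y0.2 + t * (-(M0 ^ 2 * y0.2)), x0.2 + t * c1be M0 x0.2)
          (y0.1 + t' * e1, x0.1 + t' * e2)) 0) 0 =
          -(2 * (M0 ^ 2 * e2 * c1be M0 x0.2 * y0.2 + (1 + c1be M0 x0.2 ^ 2) * e1) /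
            (c1be M0 x0.2 * (1 - M0 ^ 2 * x0.1 ^ 2))) -
          2 * (M0 ^ 2 * x0.1 * c1be M0 x0.2 * y0.2 + (1 + c1be M0 x0.2 ^ 2) * y0.1) *
            (2 * M0 ^ 2 * x0.1 * e2) / (c1be M0 x0.2 * (1 - M0 ^ 2 * x0.1 ^ 2) ^ 2) :=
        (Filter.EventuallyEq.deriv_eq gu).trans
          (c1g'_ue M0 y0.2 x0.2 y0.1 x0.1 e1 e2 hb.ne' hS.ne').deriv
      show (FB c).Γ (M0, 0) (y0.2, x0.2) (y0.1, x0.1) * deriv (fun t' : ℝ =>
          deriv (fun t : ℝ => (FB c).Γ (M0, 0)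
          (y0.2 + t * (-(M0 ^ 2 * y0.2)), x0.2 + t * c1be M0 x0.2)
          (y0.1 + t' * e1, x0.1 + t' * e2)) 0) 0 ≠
          deriv (fun t : ℝ => (FB c).Γ (M0, 0)
          (y0.2 + t * (-(M0 ^ 2 * y0.2)), x0.2 + t * c1be M0 x0.2) (y0.1, x0.1)) 0 *
          deriv (fun t' : ℝ => (FB c).Γ (M0, 0) (y0.2, x0.2)
          (y0.1 + t' * e1, x0.1 + t' * e2)) 0
      rw [g0, gue, gu0, ge]
      have key := c1_ndB (M := M0) (a := x0.1) (r := x0.2) (s := y0.2 / c1be M0 x0.2) (y1 := y0.1)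
        (y2 := y0.2) (e1 := e1) (e2 := e2) ha.ne' hS.ne' hb.ne' hy1 hy2 he1 he2
      intro heq
      have h5 : (16 : ℝ) * (y0.2 / c1be M0 x0.2) ^ 2 / (1 - M0 ^ 2 * x0.1 ^ 2) ≠ 0 := by
        positivity
      apply h5
      rw [← key]
      unfold c1g' at heq
      simp only at heq
      linarith

end Pool.Agent.SDT.N1G

end -- N1G.C1f

section -- N1G.C1g

/-!
N1G, block C1, part g: case (N), preparations.
-/

namespace Pool.Agent.SDT.N1G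

open MeasureTheory Set Metric Pool.Agent.SDT.MP_6cbfb8_an Pool.Agent.SDT.MST Pool.Agent.SDT.N1
open scoped ENNReal Real ContDiff

/-- the derivative along a line -/
theorem c1_line {f : V → ℝ} {a u : V} (hf : DifferentiableAt ℝ f a) {v : ℝ}
    (h : HasDerivAt (fun t : ℝ => f (a.1 + t * u.1, a.2.1 + t * u.2.1, a.2.2 + t * u.2.2)) v 0) :
    fderiv ℝ f a u = v := by
  rw [← hf.lineDeriv_eq_fderiv]
  exact h.deriv

/-- The numerator of the limit phase. -/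
def c1K (M : ℝ) (u v : V) : ℝ :=
  -(u.2.2 * (c1h M v.2.1 * u.1 - u.2.1 * c1be M v.2.1 * v.1)) -
    v.2.2 * ((1 - M ^ 2 * u.2.1 ^ 2) * v.1 - u.2.1 * c1be M v.2.1 * u.1)

theorem c1K_smooth (M : ℝ) : ContDiff ℝ ∞ fun z : V × V => c1K M z.1 z.2 := by
  unfold c1K c1h c1be
  fun_prop

/-- the derivative of `c1K` in the first side -/
def c1Ku (M : ℝ) (a u b : V) : ℝ :=
  u.1 * (-(a.2.2 * c1h M b.2.1) + b.2.2 * a.2.1 * c1be M b.2.1) +
    u.2.1 * (a.2.2 * c1be M b.2.1 * b.1 + 2 * M ^ 2 * a.2.1 * b.2.2 * b.1 +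
      b.2.2 * c1be M b.2.1 * a.1) +
    u.2.2 * (-(c1h M b.2.1 * a.1) + a.2.1 * c1be M b.2.1 * b.1)

theorem c1K_u (M : ℝ) (a u b : V) : fderiv ℝ (fun a => c1K M a b) a u = c1Ku M a u b := by
  refine c1_line ?_ ?_
  · have h1 : ContDiff ℝ ∞ fun a : V => c1K M a b := by
      unfold c1K
      fun_prop
    exact h1.differentiable (by norm_num) a
  · unfold c1K
    have k1 := c1_lin a.1 u.1
    have k2 := c1_lin a.2.1 u.2.1
    have k3 := c1_lin a.2.2 u.2.2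
    refine ((k3.mul ((k1.const_mul (c1h M b.2.1)).sub
      ((k2.mul_const (c1be M b.2.1)).mul_const b.1))).neg.sub
      (((((k2.pow 2).const_mul (M ^ 2)).const_sub 1).mul_const b.1).sub
        ((k2.mul_const (c1be M b.2.1)).mul k1)|>.const_mul b.2.2)).congr_deriv ?_
    simp only [Pi.mul_apply, Pi.sub_apply, Pi.neg_apply, zero_mul, add_zero, Nat.cast_ofNat,
      Nat.add_one_sub_one, pow_one]
    unfold c1Ku
    ring

/-- the derivative of `c1Ku` in the second side -/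
theorem c1K_ue (M : ℝ) (a u b e : V) : fderiv ℝ (fun b => c1Ku M a u b) b e =
    e.1 * (u.2.1 * (a.2.2 * c1be M b.2.1 + 2 * M ^ 2 * a.2.1 * b.2.2) +
      u.2.2 * (a.2.1 * c1be M b.2.1)) +
    e.2.1 * (u.1 * (-(2 * c1be M b.2.1 * a.2.2) - M ^ 2 * a.2.1 * b.2.2) -
      u.2.1 * (M ^ 2 * (a.2.2 * b.1 + b.2.2 * a.1)) +
      u.2.2 * (-(2 * c1be M b.2.1 * a.1) - M ^ 2 * a.2.1 * b.1)) +
    e.2.2 * (u.1 * (a.2.1 * c1be M b.2.1) +
      u.2.1 * (2 * M ^ 2 * a.2.1 * b.1 + c1be M b.2.1 * a.1)) := by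
  refine c1_line ?_ ?_
  · have h1 : ContDiff ℝ ∞ fun b : V => c1Ku M a u b := by
      unfold c1Ku c1h c1be
      fun_prop
    exact h1.differentiable (by norm_num) b
  · unfold c1Ku
    have k1 := c1_lin b.1 e.1
    have k2 := c1_dbe M b.2.1 e.2.1
    have k4 := c1_dh M b.2.1 e.2.1
    have k3 := c1_lin b.2.2 e.2.2
    refine ((((k4.const_mul a.2.2).neg.add ((k3.mul_const a.2.1).mul k2)).const_mul u.1).add
      (((((k2.const_mul a.2.2).mul k1).add ((k3.const_mul (2 * M ^ 2 * a.2.1)).mul k1)).add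
        ((k3.mul k2).mul_const a.1)).const_mul u.2.1) |>.add
      (((k4.mul_const a.1).neg.add ((k2.const_mul a.2.1).mul k1)).const_mul u.2.2)).congr_deriv ?_
    simp only [Pi.mul_apply, zero_mul, add_zero]
    ring

theorem c1K_e (M : ℝ) (a b e : V) : fderiv ℝ (fun b => c1K M a b) b e =
    e.1 * (a.2.2 * a.2.1 * c1be M b.2.1 - b.2.2 * (1 - M ^ 2 * a.2.1 ^ 2)) +
    e.2.1 * (-(a.2.2 * (2 * c1be M b.2.1 * a.1 + a.2.1 * M ^ 2 * b.1)) -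
      b.2.2 * a.2.1 * M ^ 2 * a.1) +
    e.2.2 * (-((1 - M ^ 2 * a.2.1 ^ 2) * b.1) + a.2.1 * c1be M b.2.1 * a.1) := by
  refine c1_line ?_ ?_
  · have h1 : ContDiff ℝ ∞ fun b : V => c1K M a b := by
      unfold c1K c1h c1be
      fun_prop
    exact h1.differentiable (by norm_num) b
  · unfold c1K
    have k1 := c1_lin b.1 e.1
    have k2 := c1_dbe M b.2.1 e.2.1
    have k4 := c1_dh M b.2.1 e.2.1
    have k3 := c1_lin b.2.2 e.2.2
    refine ((((k4.mul_const a.1).sub ((k2.const_mul a.2.1).mul k1)).const_mul a.2.2).neg.sub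
      (k3.mul ((k1.const_mul (1 - M ^ 2 * a.2.1 ^ 2)).sub
        ((k2.const_mul a.2.1).mul_const a.1)))).congr_deriv ?_
    simp only [Pi.mul_apply, Pi.sub_apply, zero_mul, add_zero]
    ring

/-- The bordered determinant. -/
theorem c1_det (M a r y1 y2 z1 z2 : ℝ) :
    Matrix.det !![-(z1 * c1h M r) + z2 * a * c1be M r,
        z1 * c1be M r * y2 + 2 * M ^ 2 * a * z2 * y2 + z2 * c1be M r * y1,
        -(c1h M r * y1) + a * c1be M r * y2, 0;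
      0, z1 * c1be M r + 2 * M ^ 2 * a * z2, a * c1be M r,
        z1 * a * c1be M r - z2 * (1 - M ^ 2 * a ^ 2);
      -(2 * c1be M r * z1) - M ^ 2 * a * z2, -(M ^ 2 * (z1 * y2 + z2 * y1)),
        -(2 * c1be M r * y1) - M ^ 2 * a * y2,
        -(z1 * (2 * c1be M r * y1 + a * M ^ 2 * y2)) - z2 * a * M ^ 2 * y1;
      a * c1be M r, 2 * M ^ 2 * a * y2 + c1be M r * y1, 0,
        -((1 - M ^ 2 * a ^ 2) * y2) + a * c1be M r * y1] =
      4 * a * c1be M r * (y1 * y2 * z1 * z2 - c1K M (y1, a, z1) (y2, r, z2) *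
        ((c1be M r * y1 + M ^ 2 * a * y2) * (c1be M r * z1 + M ^ 2 * a * z2))) := by
  rw [Matrix.det_succ_row_zero]
  simp only [Fin.sum_univ_succ, Matrix.det_fin_three, Matrix.submatrix_apply, Fin.succAbove,
    Matrix.of_apply, Matrix.cons_val', Matrix.cons_val_zero, Matrix.cons_val_succ]
  simp
  unfold c1K c1h c1be
  ring

end Pool.Agent.SDT.N1G

end -- N1G.C1g

section -- N1G.C1h

/-!
N1G, block C1, part h: case (N).
-/

namespace Pool.Agent.SDT.N1G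

open MeasureTheory Set Metric Pool.Agent.SDT.MP_6cbfb8_an Pool.Agent.SDT.MST Pool.Agent.SDT.N1
open scoped ENNReal Real ContDiff

theorem c1_fd (f : V → V → ℝ) (a0 b0 u : V)
    (hf : ContDiffAt ℝ 2 (fun z : V × V => f z.1 z.2) (a0, b0)) :
    (∀ᶠ b in nhds b0, DifferentiableAt ℝ (fun a => f a b) a0) ∧
    DifferentiableAt ℝ (fun b => f a0 b) b0 ∧
    DifferentiableAt ℝ (fun b => fderiv ℝ (fun a => f a b) a0 u) b0 := by
  refine ⟨?_, ?_, ?_⟩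
  · have h1 := hf.eventually (by simp)
    have h2 : Filter.Tendsto (fun b : V => (a0, b)) (nhds b0) (nhds (a0, b0)) :=
      (Continuous.prodMk_right a0).tendsto b0
    filter_upwards [h2.eventually h1] with b hb
    have h3 : ContDiffAt ℝ 2 (fun a : V => (a, b)) a0 := by fun_prop
    exact (ContDiffAt.comp a0 hb h3).differentiableAt (by norm_num)
  · have h3 : ContDiffAt ℝ 2 (fun b : V => (a0, b)) b0 := by fun_prop
    exact (ContDiffAt.comp b0 hf h3).differentiableAt (by norm_num)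
  · have h4 : ContDiffAt ℝ 2 (Function.uncurry fun b a => f a b) (b0, a0) := by
      have h5 : ContDiffAt ℝ 2 (fun z : V × V => (z.2, z.1)) (b0, a0) := by fun_prop
      exact ContDiffAt.comp (b0, a0) (g := fun z : V × V => f z.1 z.2) hf h5
    have h6 : ContDiffAt ℝ 1 (fun b => fderiv ℝ (fun a => f a b) a0) b0 :=
      ContDiffAt.fderiv (f := fun b a => f a b) (g := fun _ => a0) h4 contDiffAt_const
        (by norm_num)
    have h7 : ContDiffAt ℝ 1 (fun b => fderiv ℝ (fun a => f a b) a0 u) b0 :=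
      h6.clm_apply contDiffAt_const
    exact h7.differentiableAt (by norm_num)

theorem c1_factor (H E K : V → V → ℝ) (a0 b0 u : V) (d : ℝ)
    (hH : ∀ᶠ b in nhds b0, (fun a => H a b) =ᶠ[nhds a0] fun a => E a b * K a b)
    (sE : ContDiffAt ℝ 2 (fun z : V × V => E z.1 z.2) (a0, b0))
    (sK : ContDiffAt ℝ 2 (fun z : V × V => K z.1 z.2) (a0, b0))
    (hE : E a0 b0 ≠ 0) (hK : K a0 b0 = 0)
    (h1 : fderiv ℝ (fun a => H a b0) a0 u = 0)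
    (h2 : ∀ e, fderiv ℝ (fun b => fderiv ℝ (fun a => H a b) a0 u) b0 e +
      d * fderiv ℝ (fun b => H a0 b) b0 e = 0)
    (hnd : ∀ d', fderiv ℝ (fun a => K a b0) a0 u = 0 →
      (∀ e, fderiv ℝ (fun b => fderiv ℝ (fun a => K a b) a0 u) b0 e +
        d' * fderiv ℝ (fun b => K a0 b) b0 e = 0) → u = 0 ∧ d' = 0) : u = 0 ∧ d = 0 := by
  obtain ⟨e1, e2, e3⟩ := c1_fd E a0 b0 u sE
  obtain ⟨k1, k2, k3⟩ := c1_fd K a0 b0 u sK
  have r1 : (fun b => fderiv ℝ (fun a => H a b) a0 u) =ᶠ[nhds b0] fun b =>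
      E a0 b * fderiv ℝ (fun a => K a b) a0 u + K a0 b * fderiv ℝ (fun a => E a b) a0 u := by
    filter_upwards [hH, e1, k1] with b hb hb1 hb2
    rw [hb.fderiv_eq, fderiv_fun_mul hb1 hb2]
    simp
  have r0 := r1.self_of_nhds
  simp only at r0
  rw [h1, hK, zero_mul, add_zero] at r0
  have r2 : fderiv ℝ (fun a => K a b0) a0 u = 0 := by
    rcases mul_eq_zero.1 r0.symm with h | h
    · exact absurd h hE
    · exact h
  have r3 : (fun b => H a0 b) =ᶠ[nhds b0] fun b => E a0 b * K a0 b := by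
    filter_upwards [hH] with b hb
    exact hb.self_of_nhds
  set D := fderiv ℝ (fun a => E a b0) a0 u with hD
  have r4 : ∀ e, fderiv ℝ (fun b => fderiv ℝ (fun a => K a b) a0 u) b0 e +
        (D / E a0 b0 + d) * fderiv ℝ (fun b => K a0 b) b0 e = 0 := by
    intro e
    have h3 := h2 e
    rw [r1.fderiv_eq, r3.fderiv_eq, fderiv_fun_add (e2.fun_mul k3) (k2.fun_mul e3),
      fderiv_fun_mul e2 k3, fderiv_fun_mul k2 e3, fderiv_fun_mul e2 k2] at h3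
    simp only [ContinuousLinearMap.add_apply, ContinuousLinearMap.smul_apply, smul_eq_mul,
      r2, hK, zero_mul, add_zero] at h3
    have h4 : E a0 b0 * (fderiv ℝ (fun b => fderiv ℝ (fun a => K a b) a0 u) b0 e +
        (D / E a0 b0 + d) * fderiv ℝ (fun b => K a0 b) b0 e) = 0 := by
      field_simp
      linarith
    rcases mul_eq_zero.1 h4 with h | h
    · exact absurd h hE
    · exact h
  obtain ⟨h5, h6⟩ := hnd _ r2 r4
  refine ⟨h5, ?_⟩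
  rw [hD, h5] at h6
  simpa using h6

/-- The nondegeneracy of the numerator. -/
theorem c1K_nd (M a r y1 y2 z1 z2 : ℝ) (ha : a ≠ 0) (hb : c1be M r ≠ 0) (hy1 : y1 ≠ 0)
    (hy2 : y2 ≠ 0) (hz1 : z1 ≠ 0) (hz2 : z2 ≠ 0) (hK : c1K M (y1, a, z1) (y2, r, z2) = 0)
    (u : V) (d : ℝ) (h1 : fderiv ℝ (fun a => c1K M a (y2, r, z2)) (y1, a, z1) u = 0)
    (h2 : ∀ e, fderiv ℝ (fun b => fderiv ℝ (fun a => c1K M a b) (y1, a, z1) u) (y2, r, z2) e +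
        d * fderiv ℝ (fun b => c1K M (y1, a, z1) b) (y2, r, z2) e = 0) : u = 0 ∧ d = 0 := by
  have hdet := c1_det M a r y1 y2 z1 z2
  rw [hK, zero_mul, sub_zero] at hdet
  have hne : 4 * a * c1be M r * (y1 * y2 * z1 * z2) ≠ 0 := by positivity
  rw [← hdet] at hne
  rw [c1K_u] at h1
  have h3 : (fun b => fderiv ℝ (fun a => c1K M a b) (y1, a, z1) u) =
      fun b => c1Ku M (y1, a, z1) u b := by
    funext b
    exact c1K_u M _ _ _
  rw [h3] at h2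
  simp only [c1K_ue, c1K_e] at h2
  have g1 := h2 (1, 0, 0)
  have g2 := h2 (0, 1, 0)
  have g3 := h2 (0, 0, 1)
  unfold c1Ku at h1
  simp only at h1 g1 g2 g3
  have key := Matrix.eq_zero_of_mulVec_eq_zero hne (v := ![u.1, u.2.1, u.2.2, d]) (by
    funext i
    fin_cases i
    · simp [Matrix.mulVec, dotProduct, Fin.sum_univ_succ]
      linarith
    · simp [Matrix.mulVec, dotProduct, Fin.sum_univ_succ]
      linarith
    · simp [Matrix.mulVec, dotProduct, Fin.sum_univ_succ]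
      linarith
    · simp [Matrix.mulVec, dotProduct, Fin.sum_univ_succ]
      linarith)
  have i0 := congrFun key 0
  have i1 := congrFun key 1
  have i2 := congrFun key 2
  have i3 := congrFun key 3
  simp at i0 i1 i2 i3
  refine ⟨?_, i3⟩
  ext <;> simp [i0, i1, i2]

end Pool.Agent.SDT.N1G

end -- N1G.C1h

section -- N1G.C1i

/-!
N1G, block C1, part i: case (N), conclusion.
-/

namespace Pool.Agent.SDT.N1G

open MeasureTheory Set Metric Pool.Agent.SDT.MP_6cbfb8_an Pool.Agent.SDT.MST Pool.Agent.SDT.N1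
open scoped ENNReal Real ContDiff

theorem FA_H {c M : ℝ} (hc : 0 < c) (u v : V)
    (h : ((M, 0), ((u.1, v.1), (u.2.1, v.2.1))) ∈ c1U c) :
    (FA c).H (M, 0) u v = (c1q c M (u.2.1, v.2.1) ^ 3)⁻¹ * c1K M u v := by
  unfold Fam.H
  rw [FA_ψa hc _ _ h, FA_ψb hc _ _ h, c1_l0, c1_l0', c1_N0, c1_N0']
  obtain ⟨h1, -⟩ := c1_qpos hc h
  have h2 := c1_hpos h
  obtain ⟨-, -, h3, -, h4, -, h5⟩ := h
  simp only at h1 h2 h3 h4 h5
  simp only
  unfold c1K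
  generalize c1q c M (u.2.1, v.2.1) = q at *
  generalize c1be M v.2.1 = b at *
  generalize c1h M v.2.1 = hh at *
  have h6 : (1 - M ^ 2 * u.2.1 ^ 2) ≠ 0 := h5.ne'
  generalize 1 - M ^ 2 * u.2.1 ^ 2 = S at *
  field_simp
  ring

theorem FA_N' {c M0 : ℝ} {x0 y0 : ℝ × ℝ} (hc : 0 < c) (h : C1B c M0 x0 y0)
    (hN : c1N ((M0, 0), (y0, x0)) ≠ 0) : CaseN (FA c) (M0, 0) x0 y0 := by
  have hmem := h.mem hc
  constructor
  · rw [FA_N]
    exact hN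
  · intro ζ₁ ζ₂ hz1 hz2 hH u d h1 h2
    have hq := (c1_qpos hc hmem).1
    have hH0 : (FA c).H (M0, 0) (y0.1, x0.1, ζ₁) (y0.2, x0.2, ζ₂) = 0 := hH
    rw [FA_H hc _ _ hmem] at hH0
    have hK : c1K M0 (y0.1, x0.1, ζ₁) (y0.2, x0.2, ζ₂) = 0 := by
      rcases mul_eq_zero.1 hH0 with h3 | h3
      · exact absurd h3 (inv_ne_zero (pow_ne_zero 3 hq.ne'))
      · exact h3
    refine c1_factor ((FA c).H (M0, 0)) (fun u v => (c1q c M0 (u.2.1, v.2.1) ^ 3)⁻¹) (c1K M0)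
      (y0.1, x0.1, ζ₁) (y0.2, x0.2, ζ₂) u d ?_ ?_ ?_ ?_ hK h1 h2 ?_
    · have g1 : Continuous fun z : V × V => ((M0, (0 : ℝ)), ((z.2.1, z.1.1), (z.2.2.1, z.1.2.1))) := by
        fun_prop
      have g2 := ((c1U_open c).preimage g1).mem_nhds
        (x := ((y0.2, x0.2, ζ₂), (y0.1, x0.1, ζ₁))) hmem
      have g3 : ∀ᶠ z : V × V in nhds ((y0.2, x0.2, ζ₂), (y0.1, x0.1, ζ₁)),
        ((M0, (0 : ℝ)), ((z.2.1, z.1.1), (z.2.2.1, z.1.2.1))) ∈ c1U c := g2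
      filter_upwards [g3.curry_nhds] with b hb
      filter_upwards [hb] with a ha
      exact FA_H hc a b ha
    · have g1 : ContDiff ℝ ∞ fun z : V × V => c1q c M0 (z.1.2.1, z.2.2.1) := by
        unfold c1q c1h
        exact (Sq_smooth c hc).comp (by fun_prop)
      have g2 : ContDiffAt ℝ 2 (fun z : V × V => c1q c M0 (z.1.2.1, z.2.2.1) ^ 3)
          ((y0.1, x0.1, ζ₁), (y0.2, x0.2, ζ₂)) := ((g1.of_le (by norm_cast)).pow 3).contDiffAt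
      exact g2.inv (pow_ne_zero 3 hq.ne')
    · exact ((c1K_smooth M0).of_le (by norm_cast)).contDiffAt
    · exact inv_ne_zero (pow_ne_zero 3 hq.ne')
    · intro d' k1 k2
      exact c1K_nd M0 x0.1 x0.2 y0.1 y0.2 ζ₁ ζ₂ h.a.ne' h.b.ne' h.y1 h.y2 hz1 hz2 hK u d' k1 k2

end Pool.Agent.SDT.N1G

end -- N1G.C1i
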