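import Pool.Agent.SDT.B12
import Pool.Agent.SDT.B16

set_option autoImplicit false

namespace Pool.Agent.SDT.MP_6cbfb8_an
end Pool.Agent.SDT.MP_6cbfb8_an
namespace Pool.Agent.SDT.MST
end Pool.Agent.SDT.MST
namespace Pool.Agent.SDT.N1
end Pool.Agent.SDT.N1

section -- MP_6cbfb8_an.Low4

/-!
Representation of the mollified extension along great circles through the last basis vector.
-/

namespace Pool.Agent.SDT.MP_6cbfb8_an

open MeasureTheory Set
open scoped ENNReal Real RealInnerProductSpace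

/-- The first coordinates of a point. -/
noncomputable def initE {n : ℕ} (y : E (n + 1)) : E n := WithLp.toLp 2 fun i => y (Fin.castSucc i)

lemma join_initE {n : ℕ} (y : E (n + 1)) : join (initE y) (y (Fin.last n)) = y := by
  unfold join initE
  ext i
  refine Fin.lastCases ?_ (fun i => ?_) i <;> simp

lemma continuous_initE {n : ℕ} : Continuous (initE : E (n + 1) → E n) := by
  unfold initE
  refine (PiLp.continuous_toLp 2 _).comp ?_
  fun_prop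

/-- The last basis vector. -/
noncomputable def eLast (n : ℕ) : E (n + 1) := join (0 : E n) 1

lemma norm_eLast (n : ℕ) : ‖eLast n‖ = 1 := by
  have h := norm_join_sq (0 : E n) 1
  unfold eLast
  rw [norm_zero] at h
  have h0 : 0 ≤ ‖join (0 : E n) 1‖ := norm_nonneg _
  nlinarith

lemma inner_eLast {n : ℕ} (x : E (n + 1)) : inner ℝ x (eLast n) = x (Fin.last n) := by
  conv_lhs => rw [← join_initE x]
  unfold eLast
  rw [inner_join]
  simp

lemma pt_last {n : ℕ} (u : ℝ) (ν : E n) : pt u ν (Fin.last n) = Real.cos u := by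
  unfold pt
  rw [join_last]

lemma inner_pt {n : ℕ} (u : ℝ) (ν : E n) (y : E (n + 1)) :
    inner ℝ (pt u ν) y = y (Fin.last n) * Real.cos u + inner ℝ ν (initE y) * Real.sin u := by
  conv_lhs => rw [← join_initE y]
  rw [inner_pt_join]
  ring

lemma coef_sq_le {n : ℕ} (ν : S n) (y : S (n + 1)) :
    (y : E (n + 1)) (Fin.last n) ^ 2 + (inner ℝ (ν : E n) (initE (y : E (n + 1))) : ℝ) ^ 2 ≤ 1 := by
  have h1 := norm_join_sq (initE (y : E (n + 1))) ((y : E (n + 1)) (Fin.last n))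
  rw [join_initE] at h1
  have hy : ‖(y : E (n + 1))‖ = 1 := by simp
  have hν : ‖(ν : E n)‖ = 1 := by simp
  have h2 := abs_real_inner_le_norm (ν : E n) (initE (y : E (n + 1)))
  rw [hν, one_mul] at h2
  have h3 : (inner ℝ (ν : E n) (initE (y : E (n + 1))) : ℝ) ^ 2 ≤ ‖initE (y : E (n + 1))‖ ^ 2 := by
    rw [← sq_abs]
    exact pow_le_pow_left₀ (abs_nonneg _) h2 2
  rw [hy] at h1
  linarith

lemma norm_pt_sub_sq {n : ℕ} (u : ℝ) (ν : S n) (y : S (n + 1)) :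
    ‖pt u (ν : E n) - (y : E (n + 1))‖ ^ 2 = 2 * (1 - ((y : E (n + 1)) (Fin.last n) * Real.cos u +
      inner ℝ (ν : E n) (initE (y : E (n + 1))) * Real.sin u)) := by
  rw [norm_sub_sq_real, norm_pt, inner_pt]
  have hy : ‖(y : E (n + 1))‖ = 1 := by simp
  rw [hy]
  ring



/-- Slicing for Bochner integrals. -/
lemma integral_slice (j : ℕ) (F : S (j + 2) → ℂ) (hF : Integrable F (sm (j + 2))) :
    ∫ x, F x ∂(sm (j + 2)) = ∫ ν : S (j + 1), (∫ u in Ioo 0 π, ((Real.sin u ^ j : ℝ) : ℂ) *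
      F ⟨pt u (ν : E (j + 1)), pt_mem u ν⟩) ∂(sm (j + 1)) := by
  set μ : Measure ℝ := ((volume : Measure ℝ).restrict (Ioo 0 π)).withDensity
        (fun θ => ENNReal.ofReal (Real.sin θ ^ j)) with hμ
  have hsl := slicing j
  have hμfin : IsFiniteMeasure μ := by
    refine ⟨?_⟩
    rw [hμ, withDensity_apply _ MeasurableSet.univ, Measure.restrict_univ]
    calc ∫⁻ θ in Ioo 0 π, ENNReal.ofReal (Real.sin θ ^ j) ≤ ∫⁻ θ in Ioo 0 π, 1 := by
          refine lintegral_mono fun θ => ?_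
          rw [← ENNReal.ofReal_one]
          refine ENNReal.ofReal_le_ofReal ?_
          refine (le_abs_self _).trans ?_
          rw [abs_pow]
          exact pow_le_one₀ (abs_nonneg _) (Real.abs_sin_le_one θ)
      _ < ∞ := by simp
  have hF' : Integrable (fun q : ℝ × S (j + 1) => F ⟨pt q.1 (q.2 : E (j + 1)), pt_mem q.1 q.2⟩)
      (μ.prod (sm (j + 1))) := hsl.integrable_comp_of_integrable hF
  have h1 : ∫ x, F x ∂(sm (j + 2)) =
      ∫ q : ℝ × S (j + 1), F ⟨pt q.1 (q.2 : E (j + 1)), pt_mem q.1 q.2⟩ ∂(μ.prod (sm (j + 1))) := by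
    conv_lhs => rw [← hsl.map_eq]
    rw [integral_map hsl.measurable.aemeasurable]
    rw [hsl.map_eq]
    exact hF.aestronglyMeasurable
  rw [h1, integral_prod_symm _ hF']
  refine integral_congr_ae (Filter.Eventually.of_forall fun ν => ?_)
  simp only
  rw [hμ, integral_withDensity_eq_integral_toReal_smul (by fun_prop) (by simp)]
  refine setIntegral_congr_fun measurableSet_Ioo ?_
  intro θ hθ
  have hs : 0 ≤ Real.sin θ ^ j := pow_nonneg (Real.sin_pos_of_mem_Ioo hθ).le _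
  simp only
  rw [ENNReal.toReal_ofReal hs, Complex.real_smul]

end Pool.Agent.SDT.MP_6cbfb8_an

end -- MP_6cbfb8_an.Low4

section -- N1F.HM1

/-!
The local oscillatory estimate with a general coupling: abstract form.

Phase `w a - σ b + G a b`; `N a a'` is a size function for the differences `G a · - G a' ·`.
-/

namespace Pool.Agent.SDT.N1F

open MeasureTheory Set Metric Pool.Agent.SDT.MST Pool.Agent.SDT.N1
open scoped ContDiff

theorem hm_iter (f1 f2 f3 : ℝ → ℝ) (h1 : ContDiff ℝ ∞ f1) (h2 : ContDiff ℝ ∞ f2)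
    (h3 : ContDiff ℝ ∞ f3) (s s' W W' : ℝ) (j : ℕ) (hj : 1 ≤ j) :
    iteratedDeriv j (fun t => s * (W - f1 t + f2 t) - s' * (W' - f1 t + f3 t)) 0 =
      (s - s') * (-iteratedDeriv j f1 0 + iteratedDeriv j f3 0) +
        s * (iteratedDeriv j f2 0 - iteratedDeriv j f3 0) := by
  have h := hl_iter f1 f2 f3 h1 h2 h3 s s' W W' 1 j hj
  simpa only [one_mul, mul_one] using h

theorem hm_num1 (d X Y Z s N S σ1 t t0 M W c : ℝ) (hN : 0 ≤ N) (hs : |s| ≤ S)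
    (hσ : 0 < σ1) (hX : σ1 ≤ |X|) (hY : |Y| ≤ σ1 / 4) (hZ : S * |Z| ≤ σ1 / 4 * (t * N))
    (ht0 : 0 < t0) (ht : t0 ≤ t) (hd : t * N ≤ |d|) (hW : |W| ≤ M * N) (hM : 0 < M)
    (hc : 0 < c) (hcM : c * (t0 + M + 1) ≤ σ1 / 2 * t0) :
    c * (|d| + (|W| + N)) ≤ |d * (-X + Y) + s * Z| := by
  have h1 : 3 * σ1 / 4 ≤ |-X + Y| := by
    have h3 := abs_sub_abs_le_abs_sub (-X) (-Y)
    rw [abs_neg, abs_neg, sub_neg_eq_add] at h3
    linarith
  have h4 : |s * Z| ≤ S * |Z| := by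
    rw [abs_mul]
    exact mul_le_mul_of_nonneg_right hs (abs_nonneg _)
  have h5 : σ1 / 4 * (t * N) ≤ σ1 / 4 * |d| := mul_le_mul_of_nonneg_left hd (by positivity)
  have h6 : |d| * (3 * σ1 / 4) ≤ |d * (-X + Y)| := by
    rw [abs_mul]
    exact mul_le_mul_of_nonneg_left h1 (abs_nonneg _)
  have h7 : |d * (-X + Y)| - |s * Z| ≤ |d * (-X + Y) + s * Z| := by
    have h3 := abs_sub_abs_le_abs_sub (d * (-X + Y)) (-(s * Z))
    rw [abs_neg, sub_neg_eq_add] at h3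
    exact h3
  have h8 : t0 * N ≤ |d| := (mul_le_mul_of_nonneg_right ht hN).trans hd
  have h9 : c * (|d| + (|W| + N)) * t0 ≤ c * (t0 + M + 1) * |d| := by
    have h10 : (|d| + (|W| + N)) * t0 ≤ (t0 + M + 1) * |d| := by
      have h11 : (M + 1) * (t0 * N) ≤ (M + 1) * |d| := mul_le_mul_of_nonneg_left h8 (by positivity)
      have h12 : |W| * t0 ≤ M * N * t0 := mul_le_mul_of_nonneg_right hW ht0.le
      nlinarith
    calc c * (|d| + (|W| + N)) * t0 = c * ((|d| + (|W| + N)) * t0) := by ring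
      _ ≤ c * ((t0 + M + 1) * |d|) := mul_le_mul_of_nonneg_left h10 hc.le
      _ = c * (t0 + M + 1) * |d| := by ring
  have h12 : c * (t0 + M + 1) * |d| ≤ σ1 / 2 * t0 * |d| :=
    mul_le_mul_of_nonneg_right hcM (abs_nonneg _)
  have h13 : c * (|d| + (|W| + N)) ≤ σ1 / 2 * |d| := by
    have h14 : c * (|d| + (|W| + N)) * t0 ≤ σ1 / 2 * |d| * t0 := by linarith
    exact le_of_mul_le_mul_right h14 ht0
  linarith

theorem hm_num2 (d X Y Z s N s0 c3 t t1 M W c : ℝ) (hN : 0 ≤ N) (hs : s0 ≤ |s|) (hs0 : 0 < s0)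
    (hXY : t * (|X| + |Y|) ≤ s0 * c3 / 2) (hZ : c3 * N ≤ |Z|) (ht1 : t ≤ t1)
    (hd : |d| ≤ t * N) (hW : |W| ≤ M * N) (hc : 0 < c) (hcM : c * (t1 + M + 1) ≤ s0 * c3 / 2) :
    c * (|d| + (|W| + N)) ≤ |d * (-X + Y) + s * Z| := by
  have h1 : |-X + Y| ≤ |X| + |Y| := by
    have h2 := abs_add_le (-X) Y
    rwa [abs_neg] at h2
  have h2 : |d * (-X + Y)| ≤ t * N * (|X| + |Y|) := by
    rw [abs_mul]
    exact mul_le_mul hd h1 (abs_nonneg _) ((abs_nonneg _).trans hd)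
  have h3 : t * N * (|X| + |Y|) ≤ s0 * c3 / 2 * N := by
    calc t * N * (|X| + |Y|) = t * (|X| + |Y|) * N := by ring
      _ ≤ s0 * c3 / 2 * N := mul_le_mul_of_nonneg_right hXY hN
  have h4 : s0 * (c3 * N) ≤ |s * Z| := by
    rw [abs_mul]
    calc s0 * (c3 * N) ≤ s0 * |Z| := mul_le_mul_of_nonneg_left hZ hs0.le
      _ ≤ |s| * |Z| := mul_le_mul_of_nonneg_right hs (abs_nonneg _)
  have h5 : |s * Z| - |d * (-X + Y)| ≤ |d * (-X + Y) + s * Z| := by
    have h6 := abs_sub_abs_le_abs_sub (s * Z) (-(d * (-X + Y)))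
    rw [abs_neg, sub_neg_eq_add, add_comm (s * Z)] at h6
    exact h6
  have h6 : c * (|d| + (|W| + N)) ≤ c * (t1 + M + 1) * N := by
    have h7 : |d| + (|W| + N) ≤ (t1 + M + 1) * N := by
      have h8 : t * N ≤ t1 * N := mul_le_mul_of_nonneg_right ht1 hN
      linarith
    calc c * (|d| + (|W| + N)) ≤ c * ((t1 + M + 1) * N) :=
          mul_le_mul_of_nonneg_left h7 hc.le
      _ = c * (t1 + M + 1) * N := by ring
  have h8 : c * (t1 + M + 1) * N ≤ s0 * c3 / 2 * N := mul_le_mul_of_nonneg_right hcM hN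
  linarith

/-- the hypotheses of the abstract lemma, for the phase `w a - σ b + G a b` and the size `N` -/
structure Cpl (w σ : V → ℝ) (G N : V → V → ℝ) (SA : Set V) (b₀ e1 : V)
    (ρ s0 S σ1 L c3 t0 t1 M : ℝ) : Prop where
  sw : ContDiff ℝ ∞ w
  sσ : ContDiff ℝ ∞ σ
  sG : ContDiff ℝ ∞ (fun x : V × V => G x.1 x.2)
  sN : Continuous (fun x : V × V => N x.1 x.2)
  nonneg : ∀ a a', 0 ≤ N a a'
  en : ‖e1‖ ≤ 1
  es : ∀ b ∈ closedBall b₀ (3 * ρ), σ1 ≤ |deriv (fun t : ℝ => σ (b + t • e1)) 0| ∧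
    ∀ a ∈ SA, |deriv (fun t : ℝ => G a (b + t • e1)) 0| ≤ σ1 / 4
  bσ : ∀ e : V, ‖e‖ ≤ 1 → ∀ b ∈ closedBall b₀ (3 * ρ), ∀ j : ℕ, 1 ≤ j → j ≤ 9 →
    |iteratedDeriv j (fun t : ℝ => σ (b + t • e)) 0| ≤ L
  bG : ∀ e : V, ‖e‖ ≤ 1 → ∀ a ∈ SA, ∀ b ∈ closedBall b₀ (3 * ρ), ∀ j : ℕ, 1 ≤ j → j ≤ 9 →
    |iteratedDeriv j (fun t : ℝ => G a (b + t • e)) 0| ≤ L
  bN : ∀ e : V, ‖e‖ ≤ 1 → ∀ a ∈ SA, ∀ a' ∈ SA, ∀ b ∈ closedBall b₀ (3 * ρ), ∀ j : ℕ, j ≤ 9 →
    |iteratedDeriv j (fun t : ℝ => G a (b + t • e)) 0 -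
      iteratedDeriv j (fun t : ℝ => G a' (b + t • e)) 0| ≤ L * N a a'
  key : ∀ a ∈ SA, ∀ a' ∈ SA, |w a - w a'| ≤ M * N a a' → ∃ (t c : ℝ) (e : V), t0 ≤ t ∧
    t ≤ t1 ∧ c3 ≤ c ∧ ‖e‖ ≤ 1 ∧ ∀ b ∈ closedBall b₀ (3 * ρ),
      S * |deriv (fun t : ℝ => G a (b + t • e1)) 0 - deriv (fun t : ℝ => G a' (b + t • e1)) 0| ≤
        σ1 / 4 * (t * N a a') ∧
      t * (|deriv (fun t : ℝ => σ (b + t • e)) 0| + |deriv (fun t : ℝ => G a' (b + t • e)) 0|) ≤
        s0 * c / 2 ∧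
      c * N a a' ≤ |deriv (fun t : ℝ => G a (b + t • e)) 0 -
        deriv (fun t : ℝ => G a' (b + t • e)) 0|

theorem HL_abs (s0 s1 σ1 L c3 t0 t1 : ℝ) (hs0 : 0 < s0) (hσ1 : 0 < σ1) (hL : 0 < L)
    (hc3 : 0 < c3) (ht0 : 0 < t0) (ht1 : 0 ≤ t1) :
    ∃ c0 C0 : ℝ, 0 < c0 ∧ 0 ≤ C0 ∧
      ∀ (w σ : V → ℝ) (G N : V → V → ℝ) (SA : Set V) (b₀ e1 : V) (ρ : ℝ),
        Cpl w σ G N SA b₀ e1 ρ s0 (|s1| + 1) σ1 L c3 t0 t1 (2 * L + 2) →
        Dich (fun a b => w a - σ b + G a b) (fun a a' => |w a - w a'| + N a a') SA b₀ ρ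
          c0 C0 s0 s1 := by
  set S : ℝ := |s1| + 1 with hS
  have hSp : 0 < S := by positivity
  set M : ℝ := 2 * L + 2 with hM
  have hMp : 0 < M := by positivity
  obtain ⟨c0, hc0, hc1, hc2, hc3', hc4⟩ : ∃ c : ℝ, 0 < c ∧ c ≤ 1 / 3 ∧
      c * (t0 + M + 1) ≤ σ1 / 2 * t0 ∧ c * (t1 + M + 1) ≤ s0 * c3 / 2 ∧ c ≤ σ1 / 2 := by
    refine ⟨min (1 / 3) (min (σ1 / 2 * t0 / (t0 + M + 1)) (min (s0 * c3 / 2 / (t1 + M + 1))
      (σ1 / 2))), ?_, ?_, ?_, ?_, ?_⟩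
    · refine lt_min (by norm_num) (lt_min (by positivity) (lt_min (by positivity) (by positivity)))
    · exact min_le_left _ _
    · rw [← le_div_iff₀ (by positivity)]
      exact (min_le_right _ _).trans (min_le_left _ _)
    · rw [← le_div_iff₀ (by positivity)]
      exact (min_le_right _ _).trans ((min_le_right _ _).trans (min_le_left _ _))
    · exact (min_le_right _ _).trans ((min_le_right _ _).trans (min_le_right _ _))
  refine ⟨c0, 2 * L + S * L, hc0, by positivity, ?_⟩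
  intro w σ G N SA b₀ e1 ρ H
  have sm1 : ∀ b e : V, ContDiff ℝ ∞ (fun t : ℝ => σ (b + t • e)) := fun b e =>
    H.sσ.comp (by fun_prop)
  have sm2 : ∀ a b e : V, ContDiff ℝ ∞ (fun t : ℝ => G a (b + t • e)) := fun a b e =>
    H.sG.comp (g := fun x : V × V => G x.1 x.2) (f := fun t : ℝ => (a, b + t • e)) (by fun_prop)
  have key1 : ∀ (s s' : ℝ) (a a' b e : V),
      deriv (fun t : ℝ => s * (w a - σ (b + t • e) + G a (b + t • e)) -
        s' * (w a' - σ (b + t • e) + G a' (b + t • e))) 0 =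
      (s - s') * (-(deriv (fun t : ℝ => σ (b + t • e)) 0) +
          deriv (fun t : ℝ => G a' (b + t • e)) 0) +
        s * (deriv (fun t : ℝ => G a (b + t • e)) 0 -
          deriv (fun t : ℝ => G a' (b + t • e)) 0) := by
    intro s s' a a' b e
    rw [← iteratedDeriv_one, hm_iter _ _ _ (sm1 b e) (sm2 a b e) (sm2 a' b e) s s' _ _ 1 le_rfl,
      iteratedDeriv_one, iteratedDeriv_one, iteratedDeriv_one]
  refine ⟨?_, ?_, ?_, ?_, ?_, ?_⟩
  · exact ((H.sw.comp (by fun_prop)).sub (H.sσ.comp (by fun_prop))).add H.sG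
  · have c1 : Continuous (fun x : V × V => w x.1) := H.sw.continuous.comp (by fun_prop)
    have c2 : Continuous (fun x : V × V => w x.2) := H.sw.continuous.comp (by fun_prop)
    exact (c1.sub c2).abs.add H.sN
  · intro a a'
    have := H.nonneg a a'
    positivity
  · refine ⟨e1, H.en, fun a ha b hb => ?_⟩
    have h3 := key1 1 0 a a b e1
    have h4 : (fun t : ℝ => 1 * (w a - σ (b + t • e1) + G a (b + t • e1)) -
        0 * (w a - σ (b + t • e1) + G a (b + t • e1))) =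
        fun t : ℝ => w a - σ (b + t • e1) + G a (b + t • e1) := by
      funext t
      ring
    rw [h4] at h3
    show c0 ≤ |deriv (fun t : ℝ => w a - σ (b + t • e1) + G a (b + t • e1)) 0|
    rw [h3]
    have h5 := (H.es b hb).1
    have h6 := (H.es b hb).2 a ha
    set X := deriv (fun t : ℝ => σ (b + t • e1)) 0
    set Y := deriv (fun t : ℝ => G a (b + t • e1)) 0
    have h7 : |X| - |Y| ≤ |-X + Y| := by
      have h8 := abs_sub_abs_le_abs_sub (-X) (-Y)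
      rw [abs_neg, abs_neg, sub_neg_eq_add] at h8
      exact h8
    have h9 : (1 - 0 : ℝ) * (-X + Y) + 1 * (Y - Y) = -X + Y := by ring
    rw [h9]
    linarith
  · intro a ha a' ha'
    have hN0 := H.nonneg a a'
    by_cases hW : |w a - w a'| ≤ M * N a a'
    · right
      intro s s' hs hs1 hs' hs1'
      have hsS : |s| ≤ S := by
        have := le_abs_self s1
        linarith
      obtain ⟨t, c, e, ht0', ht1', hcc, he, hke⟩ := H.key a ha a' ha' hW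
      by_cases hd : t * N a a' ≤ |s - s'|
      · refine ⟨e1, H.en, fun b hb => ?_⟩
        show c0 * (|s - s'| + (|w a - w a'| + N a a')) ≤
          |deriv (fun t : ℝ => s * (w a - σ (b + t • e1) + G a (b + t • e1)) -
            s' * (w a' - σ (b + t • e1) + G a' (b + t • e1))) 0|
        rw [key1]
        exact hm_num1 (s - s') _ _ _ s (N a a') S σ1 t t0 M (w a - w a') c0 hN0 hsS hσ1
          (H.es b hb).1 ((H.es b hb).2 a' ha') (hke b hb).1 ht0 ht0' hd hW hMp hc0 hc2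
      · have hd' : |s - s'| ≤ t * N a a' := (not_le.mp hd).le
        refine ⟨e, he, fun b hb => ?_⟩
        show c0 * (|s - s'| + (|w a - w a'| + N a a')) ≤
          |deriv (fun t : ℝ => s * (w a - σ (b + t • e) + G a (b + t • e)) -
            s' * (w a' - σ (b + t • e) + G a' (b + t • e))) 0|
        rw [key1]
        have hc3'' : s0 * c3 / 2 ≤ s0 * c / 2 := by
          have := mul_le_mul_of_nonneg_left hcc hs0.le
          linarith
        exact hm_num2 (s - s') _ _ _ s (N a a') s0 c t t1 M (w a - w a') c0 hN0 hs hs0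
          (hke b hb).2.1 (hke b hb).2.2 ht1' hd' hW hc0 (hc3'.trans hc3'')
    · left
      have hW' : M * N a a' ≤ |w a - w a'| := (not_le.mp hW).le
      intro b hb
      show c0 * (|w a - w a'| + N a a') ≤ |w a - σ b + G a b - (w a' - σ b + G a' b)|
      have h3 := H.bN 0 (by simp) a ha a' ha' b hb 0 (by norm_num)
      simp only [iteratedDeriv_zero, smul_zero, add_zero] at h3
      have h5 : w a - σ b + G a b - (w a' - σ b + G a' b) = (w a - w a') + (G a b - G a' b) := by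
        ring
      rw [h5]
      have h6 : |w a - w a'| - |G a b - G a' b| ≤ |(w a - w a') + (G a b - G a' b)| := by
        have h8 := abs_sub_abs_le_abs_sub (w a - w a') (-(G a b - G a' b))
        rw [abs_neg, sub_neg_eq_add] at h8
        exact h8
      have h7 : M * N a a' = 2 * (L * N a a') + 2 * N a a' := by rw [hM]; ring
      have h8 : 0 ≤ L * N a a' := by positivity
      have h9 : 0 ≤ |w a - w a'| := abs_nonneg _
      have h10 : c0 * (|w a - w a'| + N a a') ≤ 1 / 3 * (|w a - w a'| + N a a') :=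
        mul_le_mul_of_nonneg_right hc1 (by positivity)
      linarith
  · intro a ha a' ha' s s' hs hs' e he b hb j hj hj9
    show |iteratedDeriv j (fun t : ℝ => s * (w a - σ (b + t • e) + G a (b + t • e)) -
        s' * (w a' - σ (b + t • e) + G a' (b + t • e))) 0| ≤
      (2 * L + S * L) * (|s - s'| + (|w a - w a'| + N a a'))
    rw [hm_iter _ _ _ (sm1 b e) (sm2 a b e) (sm2 a' b e) s s' _ _ j hj]
    have h3 := H.bσ e he b hb j hj hj9
    have h4 := H.bG e he a' ha' b hb j hj hj9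
    have h5 := H.bN e he a ha a' ha' b hb j hj9
    have hN0 := H.nonneg a a'
    have hsS : |s| ≤ S := by
      have := le_abs_self s1
      linarith
    have h6 : |-iteratedDeriv j (fun t : ℝ => σ (b + t • e)) 0 +
        iteratedDeriv j (fun t : ℝ => G a' (b + t • e)) 0| ≤ 2 * L := by
      refine (abs_add_le _ _).trans ?_
      rw [abs_neg]
      linarith
    have h7 : |(s - s') * (-iteratedDeriv j (fun t : ℝ => σ (b + t • e)) 0 +
        iteratedDeriv j (fun t : ℝ => G a' (b + t • e)) 0)| ≤ |s - s'| * (2 * L) := by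
      rw [abs_mul]
      exact mul_le_mul_of_nonneg_left h6 (abs_nonneg _)
    have h8 : |s * (iteratedDeriv j (fun t : ℝ => G a (b + t • e)) 0 -
        iteratedDeriv j (fun t : ℝ => G a' (b + t • e)) 0)| ≤ S * (L * N a a') := by
      rw [abs_mul]
      exact mul_le_mul hsS h5 (abs_nonneg _) hSp.le
    refine ((abs_add_le _ _).trans (add_le_add h7 h8)).trans ?_
    have h9 : 0 ≤ |w a - w a'| := abs_nonneg _
    have h10 : 0 ≤ |s - s'| := abs_nonneg _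
    have h12 : 0 ≤ S * L * |s - s'| := by positivity
    have h13 : 0 ≤ L * N a a' := by positivity
    have h14 : 0 ≤ (2 * L + S * L) * |w a - w a'| := by positivity
    nlinarith

end Pool.Agent.SDT.N1F

end -- N1F.HM1

section -- N1F.EB

/-!
N1F, block A4: the key formula for the phase of a rectangle, outer difference of type N.
-/

namespace Pool.Agent.SDT.N1F

open MeasureTheory Set Metric Pool.Agent.SDT.MP_6cbfb8_an Pool.Agent.SDT.MST Pool.Agent.SDT.N1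
open scoped ENNReal Real ContDiff

/-- The function `n` at the point `x - u z`. -/
noncomputable def nU (be ρ : ℝ) (q : V × V) (u : ℝ) : ℝ :=
  Nf (be ^ 2 * ρ) (q.1.1 / (be ^ 2 * ρ), q.2.1 / (be ^ 2 * ρ))
    (q.1.2.1 - u * q.1.2.2, q.2.2.1 - u * q.2.2.2)

theorem nU_zero (be ρ : ℝ) (q : V × V) : nU be ρ q 0 = Nx (be ^ 2 * ρ) q := by
  simp [nU, Nx]

theorem nU_one (be ρ : ℝ) (q : V × V) : nU be ρ q 1 = Nz (be ^ 2 * ρ) q := by
  simp [nU, Nz]

/-- Parameters: `(A, B, ρ, y', x')`. -/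
abbrev PB : Type := ℝ × ℝ × ℝ × (ℝ × ℝ) × (ℝ × ℝ)

/-- `q²` at `x`. -/
noncomputable def bq1 (p : PB) : ℝ := 1 - p.1 * p.2.2.2.2.1 ^ 2 - p.2.1 * p.2.2.2.2.2 ^ 2

/-- `q²` at `x - y`. -/
noncomputable def bq2 (p : PB) : ℝ :=
  1 - p.1 * (p.2.2.2.2.1 - p.2.1 * p.2.2.1 * p.2.2.2.1.1) ^ 2 -
    p.2.1 * (p.2.2.2.2.2 - p.2.2.1 * p.2.2.2.1.2) ^ 2

/-- The factor in the first direction. -/
noncomputable def bL (p : PB) : ℝ :=
  (p.2.2.2.2.1 - p.2.1 * p.2.2.1 * p.2.2.2.1.1) ^ 2 *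
    (1 - p.2.1 * (p.2.2.2.2.2 - p.2.2.1 * p.2.2.2.1.2) ^ 2) /
    (√(bq1 p) * √(bq2 p) * (p.2.2.2.2.1 * √(bq2 p) +
      (p.2.2.2.2.1 - p.2.1 * p.2.2.1 * p.2.2.2.1.1) * √(bq1 p)))

/-- The function `n`. -/
noncomputable def bN (p : PB) : ℝ :=
  p.2.2.2.1.1 * (2 * p.2.2.2.2.1 - p.2.1 * p.2.2.1 * p.2.2.2.1.1) /
      (p.2.2.2.2.1 - p.2.1 * p.2.2.1 * p.2.2.2.1.1) ^ 2 +
    p.2.2.2.1.2 * (2 * p.2.2.2.2.2 - p.2.2.1 * p.2.2.2.1.2) /
      (1 - p.2.1 * (p.2.2.2.2.2 - p.2.2.1 * p.2.2.2.1.2) ^ 2)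

/-- The function `n'`. -/
noncomputable def bN' (p : PB) : ℝ :=
  p.2.2.2.1.2 * (2 * p.2.2.2.2.2 - p.2.2.1 * p.2.2.2.1.2) /
      (p.2.2.2.2.2 - p.2.2.1 * p.2.2.2.1.2) ^ 2 +
    p.1 * p.2.1 * p.2.2.2.1.1 * (2 * p.2.2.2.2.1 - p.2.1 * p.2.2.1 * p.2.2.2.1.1) /
      (1 - p.1 * (p.2.2.2.2.1 - p.2.1 * p.2.2.1 * p.2.2.2.1.1) ^ 2)

/-- The factor in the second direction. -/
noncomputable def bM (p : PB) : ℝ :=
  (p.2.2.2.2.2 - p.2.2.1 * p.2.2.2.1.2) ^ 2 *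
    (1 - p.1 * (p.2.2.2.2.1 - p.2.1 * p.2.2.1 * p.2.2.2.1.1) ^ 2) /
    (√(bq1 p) * √(bq2 p) * (p.2.2.2.2.2 * √(bq2 p) +
      (p.2.2.2.2.2 - p.2.2.1 * p.2.2.2.1.2) * √(bq1 p))) * bN' p

/-- The parameters of a configuration. -/
def pB (A B ρ y1 y2 a b : ℝ) : PB := (A, B, ρ, (y1, y2), (a, b))

theorem bq1_eq (A B ρ y1 y2 a b : ℝ) : bq1 (pB A B ρ y1 y2 a b) = 1 - A * a ^ 2 - B * b ^ 2 := rfl

theorem bq2_eq (A B ρ y1 y2 a b : ℝ) : bq2 (pB A B ρ y1 y2 a b) =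
    1 - A * (a - B * ρ * y1) ^ 2 - B * (b - ρ * y2) ^ 2 := rfl

theorem e_first (A B ρ y1 y2 a b : ℝ) (h1 : 0 < bq1 (pB A B ρ y1 y2 a b))
    (h2 : 0 < bq2 (pB A B ρ y1 y2 a b)) (ha : 0 < a) (ha2 : 0 < a - B * ρ * y1)
    (hA : 0 ≤ A) :
    a / √(bq1 (pB A B ρ y1 y2 a b)) - (a - B * ρ * y1) / √(bq2 (pB A B ρ y1 y2 a b)) =
      bL (pB A B ρ y1 y2 a b) * (B * ρ * bN (pB A B ρ y1 y2 a b)) := by
  have e1 := Real.sq_sqrt h1.le
  have e2 := Real.sq_sqrt h2.le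
  have k1 := Real.sqrt_pos.2 h1
  have k2 := Real.sqrt_pos.2 h2
  have hw : 0 < 1 - B * (b - ρ * y2) ^ 2 := by
    rw [bq2_eq] at h2
    have : 0 ≤ A * (a - B * ρ * y1) ^ 2 := by positivity
    linarith
  have key : B * ρ * bN (pB A B ρ y1 y2 a b) =
      a ^ 2 / (a - B * ρ * y1) ^ 2 - (1 - B * b ^ 2) / (1 - B * (b - ρ * y2) ^ 2) := by
    unfold bN pB
    simp only
    field_simp
    ring
  rw [key]
  unfold bL
  rw [bq1_eq, bq2_eq] at *
  simp only [pB]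
  set r1 := √(1 - A * a ^ 2 - B * b ^ 2)
  set r2 := √(1 - A * (a - B * ρ * y1) ^ 2 - B * (b - ρ * y2) ^ 2)
  set a2 := a - B * ρ * y1
  set b2 := b - ρ * y2
  have hs : 0 < a * r2 + a2 * r1 := by positivity
  have h3 : (a * r2 - a2 * r1) * (a * r2 + a2 * r1) =
      a ^ 2 * (1 - B * b2 ^ 2) - a2 ^ 2 * (1 - B * b ^ 2) := by
    calc (a * r2 - a2 * r1) * (a * r2 + a2 * r1) = a ^ 2 * r2 ^ 2 - a2 ^ 2 * r1 ^ 2 := by ring
      _ = _ := by rw [e1, e2]; ring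
  have h4 : a2 ^ 2 * (1 - B * b2 ^ 2) / (r1 * r2 * (a * r2 + a2 * r1)) *
      (a ^ 2 / a2 ^ 2 - (1 - B * b ^ 2) / (1 - B * b2 ^ 2)) =
      (a ^ 2 * (1 - B * b2 ^ 2) - a2 ^ 2 * (1 - B * b ^ 2)) / (r1 * r2 * (a * r2 + a2 * r1)) := by
    field_simp
  rw [h4, ← h3]
  field_simp

theorem e_second (A B ρ y1 y2 a b : ℝ) (h1 : 0 < bq1 (pB A B ρ y1 y2 a b))
    (h2 : 0 < bq2 (pB A B ρ y1 y2 a b)) (hb : 0 < b) (hb2 : 0 < b - ρ * y2)
    (hB : 0 ≤ B) :
    b / √(bq1 (pB A B ρ y1 y2 a b)) - (b - ρ * y2) / √(bq2 (pB A B ρ y1 y2 a b)) =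
      ρ * bM (pB A B ρ y1 y2 a b) := by
  have e1 := Real.sq_sqrt h1.le
  have e2 := Real.sq_sqrt h2.le
  have k1 := Real.sqrt_pos.2 h1
  have k2 := Real.sqrt_pos.2 h2
  have hw : 0 < 1 - A * (a - B * ρ * y1) ^ 2 := by
    rw [bq2_eq] at h2
    have : 0 ≤ B * (b - ρ * y2) ^ 2 := by positivity
    linarith
  have key : ρ * bN' (pB A B ρ y1 y2 a b) =
      b ^ 2 / (b - ρ * y2) ^ 2 - (1 - A * a ^ 2) / (1 - A * (a - B * ρ * y1) ^ 2) := by
    unfold bN' pB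
    simp only
    have g1 : ρ * (y2 * (2 * b - ρ * y2)) = b ^ 2 - (b - ρ * y2) ^ 2 := by ring
    have g2 : ρ * (A * B * y1 * (2 * a - B * ρ * y1)) =
      (1 - A * (a - B * ρ * y1) ^ 2) - (1 - A * a ^ 2) := by ring
    rw [mul_add, ← mul_div_assoc, ← mul_div_assoc, g1, g2, sub_div, sub_div,
      div_self (by positivity), div_self hw.ne']
    ring
  unfold bM
  rw [bq1_eq, bq2_eq] at *
  simp only [pB] at *
  set r1 := √(1 - A * a ^ 2 - B * b ^ 2)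
  set r2 := √(1 - A * (a - B * ρ * y1) ^ 2 - B * (b - ρ * y2) ^ 2)
  set a2 := a - B * ρ * y1
  set b2 := b - ρ * y2
  have hs : 0 < b * r2 + b2 * r1 := by positivity
  have h3 : (b * r2 - b2 * r1) * (b * r2 + b2 * r1) =
      b ^ 2 * (1 - A * a2 ^ 2) - b2 ^ 2 * (1 - A * a ^ 2) := by
    calc (b * r2 - b2 * r1) * (b * r2 + b2 * r1) = b ^ 2 * r2 ^ 2 - b2 ^ 2 * r1 ^ 2 := by ring
      _ = _ := by rw [e1, e2]; ring
  have h4 : b2 ^ 2 * (1 - A * a2 ^ 2) / (r1 * r2 * (b * r2 + b2 * r1)) *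
      (b ^ 2 / b2 ^ 2 - (1 - A * a ^ 2) / (1 - A * a2 ^ 2)) =
      (b ^ 2 * (1 - A * a2 ^ 2) - b2 ^ 2 * (1 - A * a ^ 2)) / (r1 * r2 * (b * r2 + b2 * r1)) := by
    field_simp
  have h5 : ρ * (b2 ^ 2 * (1 - A * a2 ^ 2) / (r1 * r2 * (b * r2 + b2 * r1)) *
      bN' (A, B, ρ, (y1, y2), (a, b))) = b2 ^ 2 * (1 - A * a2 ^ 2) / (r1 * r2 * (b * r2 + b2 * r1)) *
      (ρ * bN' (A, B, ρ, (y1, y2), (a, b))) := by ring
  rw [h5, key, h4, ← h3]
  field_simp

/-- Mean value theorem for the difference of two square roots. -/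
theorem e_mvt (a b y1 y2 z1 z2 : ℝ) (h1 : ∀ u ∈ Icc (0:ℝ) 1,
    0 < 1 - (a - u * z1) ^ 2 - (b - u * z2) ^ 2) (h2 : ∀ u ∈ Icc (0:ℝ) 1,
    0 < 1 - (a - y1 - u * z1) ^ 2 - (b - y2 - u * z2) ^ 2) :
    ∃ u ∈ Icc (0:ℝ) 1,
      √(1 - a ^ 2 - b ^ 2) - √(1 - (a - y1) ^ 2 - (b - y2) ^ 2) -
        √(1 - (a - z1) ^ 2 - (b - z2) ^ 2) + √(1 - (a - y1 - z1) ^ 2 - (b - y2 - z2) ^ 2) =
      -(z1 * ((a - u * z1) / √(1 - (a - u * z1) ^ 2 - (b - u * z2) ^ 2) -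
          (a - y1 - u * z1) / √(1 - (a - y1 - u * z1) ^ 2 - (b - y2 - u * z2) ^ 2)) +
        z2 * ((b - u * z2) / √(1 - (a - u * z1) ^ 2 - (b - u * z2) ^ 2) -
          (b - y2 - u * z2) / √(1 - (a - y1 - u * z1) ^ 2 - (b - y2 - u * z2) ^ 2))) := by
  have hd : ∀ (s t : ℝ) (u : ℝ), 0 < 1 - (s - u * z1) ^ 2 - (t - u * z2) ^ 2 →
      HasDerivAt (fun u : ℝ => √(1 - (s - u * z1) ^ 2 - (t - u * z2) ^ 2))
        (((s - u * z1) * z1 + (t - u * z2) * z2) / √(1 - (s - u * z1) ^ 2 - (t - u * z2) ^ 2))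
        u := by
    intro s t u hu
    have e1 : HasDerivAt (fun u : ℝ => s - u * z1) (-z1) u := by
      have := ((hasDerivAt_id u).mul_const z1).const_sub s
      simpa using this
    have e2 : HasDerivAt (fun u : ℝ => t - u * z2) (-z2) u := by
      have := ((hasDerivAt_id u).mul_const z2).const_sub t
      simpa using this
    have e3 : HasDerivAt (fun u : ℝ => 1 - (s - u * z1) ^ 2 - (t - u * z2) ^ 2)
        (-(2 * (s - u * z1) * (-z1)) - 2 * (t - u * z2) * (-z2)) u := by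
      have := ((e1.fun_pow 2).const_sub 1).fun_sub (e2.fun_pow 2)
      simpa using this
    have e4 := e3.sqrt hu.ne'
    have hs := Real.sqrt_pos.2 hu
    refine e4.congr_deriv ?_
    field_simp
    ring
  obtain ⟨u, hu, h⟩ := exists_hasDerivAt_eq_slope
    (fun u : ℝ => √(1 - (a - u * z1) ^ 2 - (b - u * z2) ^ 2) -
      √(1 - (a - y1 - u * z1) ^ 2 - (b - y2 - u * z2) ^ 2))
    (fun u => ((a - u * z1) * z1 + (b - u * z2) * z2) / √(1 - (a - u * z1) ^ 2 - (b - u * z2) ^ 2) -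
      ((a - y1 - u * z1) * z1 + (b - y2 - u * z2) * z2) /
        √(1 - (a - y1 - u * z1) ^ 2 - (b - y2 - u * z2) ^ 2)) (zero_lt_one)
    (fun u hu => ((hd a b u (h1 u hu)).sub (hd (a - y1) (b - y2) u (h2 u hu))).continuousAt.continuousWithinAt)
    (fun u hu => (hd a b u (h1 u ⟨hu.1.le, hu.2.le⟩)).sub
      (hd (a - y1) (b - y2) u (h2 u ⟨hu.1.le, hu.2.le⟩)))
  refine ⟨u, ⟨hu.1.le, hu.2.le⟩, ?_⟩
  simp only [one_mul, zero_mul, sub_zero, div_one] at h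
  have : ∀ s t r : ℝ, (s * z1 + t * z2) / r = z1 * (s / r) + z2 * (t / r) := by
    intro s t r
    ring
  rw [this, this] at h
  linarith

end Pool.Agent.SDT.N1F

end -- N1F.EB

section -- N1F.EC

/-!
N1F, block A4: the key lemma (one intermediate point).
-/

namespace Pool.Agent.SDT.N1F

open MeasureTheory Set Metric Pool.Agent.SDT.MP_6cbfb8_an Pool.Agent.SDT.MST Pool.Agent.SDT.N1
open scoped ENNReal Real ContDiff

/-- The base point. -/
def p0B (A0 B0 : ℝ) (x0 y0 : ℝ × ℝ) : PB := (A0, B0, 0, y0, x0)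

theorem near_PB (f : PB → ℝ) (p0 : PB) (hf : ContinuousAt f p0) {ε : ℝ} (hε : 0 < ε) :
    ∃ δ : ℝ, 0 < δ ∧ ∀ A B ρ y1 y2 a b : ℝ, |A - p0.1| ≤ 2 * δ → |B - p0.2.1| ≤ 2 * δ →
      |ρ - p0.2.2.1| ≤ 2 * δ → |y1 - p0.2.2.2.1.1| ≤ 2 * δ → |y2 - p0.2.2.2.1.2| ≤ 2 * δ →
      |a - p0.2.2.2.2.1| ≤ 2 * δ → |b - p0.2.2.2.2.2| ≤ 2 * δ →
      |f (pB A B ρ y1 y2 a b) - f p0| < ε := by
  obtain ⟨d, hd, h⟩ := Metric.continuousAt_iff.1 hf ε hε
  refine ⟨d / 3, by positivity, fun A B ρ y1 y2 a b h1 h2 h3 h4 h5 h6 h7 => ?_⟩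
  have := @h (pB A B ρ y1 y2 a b) (by
    unfold pB
    rw [Prod.dist_eq, Prod.dist_eq, Prod.dist_eq, Prod.dist_eq, Prod.dist_eq, Prod.dist_eq]
    simp only [Real.dist_eq]
    exact max_lt (by linarith) (max_lt (by linarith) (max_lt (by linarith)
      (max_lt (max_lt (by linarith) (by linarith)) (max_lt (by linarith) (by linarith))))))
  simpa [Real.dist_eq] using this

section

variable {c A0 B0 : ℝ} {x0 y0 : ℝ × ℝ}

theorem base_q1 : bq1 (p0B A0 B0 x0 y0) = 1 - A0 * x0.1 ^ 2 - B0 * x0.2 ^ 2 := rfl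

theorem base_q2 : bq2 (p0B A0 B0 x0 y0) = 1 - A0 * x0.1 ^ 2 - B0 * x0.2 ^ 2 := by
  unfold bq2 p0B
  simp

theorem base_pos (hc : 0 < c) (hb : Bs c A0 B0 x0) :
    c ^ 2 / 4 ≤ 1 - A0 * x0.1 ^ 2 - B0 * x0.2 ^ 2 := by
  obtain ⟨h1, h2, h3, h4, h5, h6⟩ := hb
  linarith

theorem cont_q1 (p : PB) : ContinuousAt bq1 p := by
  unfold bq1
  fun_prop

theorem cont_q2 (p : PB) : ContinuousAt bq2 p := by
  unfold bq2
  fun_prop

theorem base_N (hb : Bs c A0 B0 x0) : bN (p0B A0 B0 x0 y0) = nb B0 x0 y0 := by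
  obtain ⟨h1, h2, h3, h4, h5, h6⟩ := hb
  unfold bN p0B nb
  simp only [mul_zero, zero_mul, sub_zero]
  congr 1
  · field_simp
  · ring

theorem cont_N (hc : 0 < c) (hb : Bs c A0 B0 x0) : ContinuousAt bN (p0B A0 B0 x0 y0) := by
  have hq := base_pos hc hb
  obtain ⟨h1, h2, h3, h4, h5, h6⟩ := hb
  have hA : 0 ≤ A0 * x0.1 ^ 2 := by positivity
  have hc2 : 0 < c ^ 2 := by positivity
  unfold bN p0B
  refine ContinuousAt.add ?_ ?_
  · refine ContinuousAt.div (by fun_prop) (by fun_prop) ?_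
    simp only [mul_zero, zero_mul, sub_zero]
    positivity
  · refine ContinuousAt.div (by fun_prop) (by fun_prop) ?_
    simp only [zero_mul, sub_zero]
    intro h0
    linarith

theorem cont_L (hc : 0 < c) (hb : Bs c A0 B0 x0) : ContinuousAt bL (p0B A0 B0 x0 y0) := by
  have hq := base_pos hc hb
  have hc2 : 0 < c ^ 2 := by positivity
  have k1 : 0 < √(bq1 (p0B A0 B0 x0 y0)) := by
    rw [base_q1]
    apply Real.sqrt_pos.2
    linarith
  have k2 : 0 < √(bq2 (p0B A0 B0 x0 y0)) := by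
    rw [base_q2]
    apply Real.sqrt_pos.2
    linarith
  have s1 : ContinuousAt (fun p => √(bq1 p)) (p0B A0 B0 x0 y0) := (cont_q1 _).sqrt
  have s2 : ContinuousAt (fun p => √(bq2 p)) (p0B A0 B0 x0 y0) := (cont_q2 _).sqrt
  obtain ⟨h1, h2, h3, h4, h5, h6⟩ := hb
  unfold bL
  refine ContinuousAt.div (by fun_prop) ?_ ?_
  · exact (s1.mul s2).mul (((by fun_prop : ContinuousAt (fun p : PB => p.2.2.2.2.1) _).mul s2).add
      ((by fun_prop : ContinuousAt (fun p : PB => p.2.2.2.2.1 - p.2.1 * p.2.2.1 * p.2.2.2.1.1) _).mul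
        s1))
  · have : (p0B A0 B0 x0 y0).2.2.2.2.1 - (p0B A0 B0 x0 y0).2.1 * (p0B A0 B0 x0 y0).2.2.1 *
        (p0B A0 B0 x0 y0).2.2.2.1.1 = x0.1 := by
      simp [p0B]
    rw [this]
    have : (p0B A0 B0 x0 y0).2.2.2.2.1 = x0.1 := rfl
    rw [this]
    positivity

theorem base_L (hc : 0 < c) (hb : Bs c A0 B0 x0) : 0 < bL (p0B A0 B0 x0 y0) := by
  have hq := base_pos hc hb
  have hc2 : 0 < c ^ 2 := by positivity
  have k1 : 0 < √(bq1 (p0B A0 B0 x0 y0)) := by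
    rw [base_q1]
    apply Real.sqrt_pos.2
    linarith
  have k2 : 0 < √(bq2 (p0B A0 B0 x0 y0)) := by
    rw [base_q2]
    apply Real.sqrt_pos.2
    linarith
  obtain ⟨h1, h2, h3, h4, h5, h6⟩ := hb
  have hA : 0 ≤ A0 * x0.1 ^ 2 := by positivity
  unfold bL
  have e1 : (p0B A0 B0 x0 y0).2.2.2.2.1 - (p0B A0 B0 x0 y0).2.1 * (p0B A0 B0 x0 y0).2.2.1 *
      (p0B A0 B0 x0 y0).2.2.2.1.1 = x0.1 := by
    simp [p0B]
  have e2 : (p0B A0 B0 x0 y0).2.2.2.2.1 = x0.1 := rfl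
  have e3 : 1 - (p0B A0 B0 x0 y0).2.1 * ((p0B A0 B0 x0 y0).2.2.2.2.2 -
      (p0B A0 B0 x0 y0).2.2.1 * (p0B A0 B0 x0 y0).2.2.2.1.2) ^ 2 = 1 - B0 * x0.2 ^ 2 := by
    simp [p0B]
  rw [e1, e2, e3]
  have e4 : 0 < 1 - B0 * x0.2 ^ 2 := by linarith
  positivity

theorem base_N' (hb : Bs c A0 B0 x0) : bN' (p0B A0 B0 x0 y0) = 2 * y0.2 / x0.2 := by
  obtain ⟨h1, h2, h3, h4, h5, h6⟩ := hb
  unfold bN' p0B
  simp only [h3, mul_zero, zero_mul, sub_zero, zero_div, add_zero]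
  field_simp

theorem cont_M (hc : 0 < c) (hb : Bs c A0 B0 x0) : ContinuousAt bM (p0B A0 B0 x0 y0) := by
  have hq := base_pos hc hb
  have hc2 : 0 < c ^ 2 := by positivity
  have k1 : 0 < √(bq1 (p0B A0 B0 x0 y0)) := by
    rw [base_q1]
    apply Real.sqrt_pos.2
    linarith
  have k2 : 0 < √(bq2 (p0B A0 B0 x0 y0)) := by
    rw [base_q2]
    apply Real.sqrt_pos.2
    linarith
  have s1 : ContinuousAt (fun p => √(bq1 p)) (p0B A0 B0 x0 y0) := (cont_q1 _).sqrt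
  have s2 : ContinuousAt (fun p => √(bq2 p)) (p0B A0 B0 x0 y0) := (cont_q2 _).sqrt
  obtain ⟨h1, h2, h3, h4, h5, h6⟩ := hb
  have hB : 0 ≤ B0 * x0.2 ^ 2 := by positivity
  unfold bM
  refine ContinuousAt.mul ?_ ?_
  · refine ContinuousAt.div (by fun_prop) ?_ ?_
    · exact (s1.mul s2).mul (((by fun_prop : ContinuousAt (fun p : PB => p.2.2.2.2.2) _).mul s2).add
        ((by fun_prop : ContinuousAt (fun p : PB => p.2.2.2.2.2 - p.2.2.1 * p.2.2.2.1.2) _).mul s1))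
    · have : (p0B A0 B0 x0 y0).2.2.2.2.2 - (p0B A0 B0 x0 y0).2.2.1 *
          (p0B A0 B0 x0 y0).2.2.2.1.2 = x0.2 := by
        simp [p0B]
      rw [this]
      have : (p0B A0 B0 x0 y0).2.2.2.2.2 = x0.2 := rfl
      rw [this]
      positivity
  · unfold bN' p0B
    refine ContinuousAt.add ?_ ?_
    · refine ContinuousAt.div (by fun_prop) (by fun_prop) ?_
      simp only [zero_mul, sub_zero]
      positivity
    · refine ContinuousAt.div (by fun_prop) (by fun_prop) ?_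
      simp only [mul_zero, zero_mul, sub_zero]
      intro h0
      linarith

theorem base_M (hc : 0 < c) (hb : Bs c A0 B0 x0) (hy : y0.2 ≠ 0) :
    bM (p0B A0 B0 x0 y0) ≠ 0 := by
  have hq := base_pos hc hb
  have hN := base_N' (y0 := y0) hb
  have hc2 : 0 < c ^ 2 := by positivity
  have k1 : 0 < √(bq1 (p0B A0 B0 x0 y0)) := by
    rw [base_q1]
    apply Real.sqrt_pos.2
    linarith
  have k2 : 0 < √(bq2 (p0B A0 B0 x0 y0)) := by
    rw [base_q2]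
    apply Real.sqrt_pos.2
    linarith
  obtain ⟨h1, h2, h3, h4, h5, h6⟩ := hb
  have hB : 0 ≤ B0 * x0.2 ^ 2 := by positivity
  unfold bM
  have e1 : (p0B A0 B0 x0 y0).2.2.2.2.2 - (p0B A0 B0 x0 y0).2.2.1 *
      (p0B A0 B0 x0 y0).2.2.2.1.2 = x0.2 := by
    simp [p0B]
  have e2 : (p0B A0 B0 x0 y0).2.2.2.2.2 = x0.2 := rfl
  have e3 : 1 - (p0B A0 B0 x0 y0).1 * ((p0B A0 B0 x0 y0).2.2.2.2.1 - (p0B A0 B0 x0 y0).2.1 *
      (p0B A0 B0 x0 y0).2.2.1 * (p0B A0 B0 x0 y0).2.2.2.1.1) ^ 2 = 1 - A0 * x0.1 ^ 2 := by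
    simp [p0B]
  rw [e1, e2, e3, hN]
  have e4 : 0 < 1 - A0 * x0.1 ^ 2 := by linarith
  have e5 : 2 * y0.2 / x0.2 ≠ 0 := div_ne_zero (mul_ne_zero two_ne_zero hy) h5.ne'
  refine mul_ne_zero (by positivity) e5

end

end Pool.Agent.SDT.N1F

end -- N1F.EC
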