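import Pool.Agent.SDT.B11
import Pool.Agent.SDT.B12

set_option autoImplicit false


section -- MP_6cbfb8_an.LiftD

/-!
Uniform `L^p` bound, `p > 2`, on the hyperplane slices of the Fourier transform of a density on
a half sphere; derivative in the last variable.
-/

namespace Pool.Agent.SDT.MP_6cbfb8_an

open MeasureTheory Set
open scoped ENNReal Real RealInnerProductSpace

/-- The first coordinates. -/
noncomputable def liftD_pr {k : ℕ} (x : E (k + 1)) : E k :=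
  WithLp.toLp 2 fun i => x (Fin.castSucc i)

lemma liftD_inner {k : ℕ} (x : E (k + 1)) (y : E k) (v : ℝ) :
    inner ℝ x (join y v) = inner ℝ (liftD_pr x) y + x (Fin.last k) * v := by
  simp only [PiLp.inner_apply, Fin.sum_univ_castSucc, join, liftD_pr]
  simp
  ring

lemma liftD_abs_last {k : ℕ} (x : S (k + 1)) : |(x : E (k + 1)) (Fin.last k)| ≤ 1 := by
  have h := PiLp.norm_apply_le (x : E (k + 1)) (Fin.last k)
  have h1 : ‖(x : E (k + 1))‖ = 1 := by simp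
  rw [h1, Real.norm_eq_abs] at h
  exact h

lemma liftD_continuous_last {k : ℕ} : Continuous fun x : E (k + 1) => x (Fin.last k) :=
  (EuclideanSpace.proj (Fin.last k) : E (k + 1) →L[ℝ] ℝ).continuous

lemma liftD_continuous_pr {k : ℕ} : Continuous fun x : E (k + 1) => liftD_pr x := by
  unfold liftD_pr
  refine (PiLp.continuous_toLp 2 _).comp ?_
  refine continuous_pi fun i => ?_
  exact (EuclideanSpace.proj (Fin.castSucc i) : E (k + 1) →L[ℝ] ℝ).continuous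

lemma liftD_measurable_tpow {k : ℕ} (j : ℕ) (G : E (k + 1) → ℂ) (hG : Measurable G) :
    Measurable (tpow j G) := by
  unfold tpow
  have h := (liftD_continuous_last (k := k)).measurable
  refine Measurable.ite (measurableSet_lt measurable_const h) ?_ measurable_const
  exact hG.mul (Complex.measurable_ofReal.comp (h.pow_const j))

lemma liftD_norm_tpow {k : ℕ} (j : ℕ) (G : E (k + 1) → ℂ) (hb : ∀ x, ‖G x‖ ≤ 1)
    (x : S (k + 1)) : ‖tpow j G x‖ ≤ 1 := by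
  unfold tpow
  have h1 := liftD_abs_last x
  split_ifs with h
  · rw [norm_mul, Complex.norm_real, norm_pow, Real.norm_eq_abs]
    have h2 : |(x : E (k + 1)) (Fin.last k)| ^ j ≤ 1 := pow_le_one₀ (abs_nonneg _) h1
    calc ‖G x‖ * |(x : E (k + 1)) (Fin.last k)| ^ j ≤ 1 * 1 := by
          gcongr
          exact hb _
      _ = 1 := one_mul 1
  · simp

lemma liftD_tpow_succ {k : ℕ} (j : ℕ) (G : E (k + 1) → ℂ) (x : E (k + 1)) :
    tpow (j + 1) G x = tpow j G x * ((x (Fin.last k) : ℝ) : ℂ) := by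
  unfold tpow
  split_ifs with h
  · push_cast
    ring
  · simp

lemma liftD_measurable_integrand {k : ℕ} (g : E (k + 1) → ℂ) (hg : Measurable g) (ξ : E (k + 1)) :
    Measurable fun x : S (k + 1) => g x *
      Complex.exp (((-(2 * π * inner ℝ (x : E (k + 1)) ξ) : ℝ) : ℂ) * Complex.I) := by
  have h1 : Measurable fun x : S (k + 1) => g (x : E (k + 1)) := hg.comp (by fun_prop)
  have h2 : Continuous fun x : S (k + 1) => (inner ℝ (x : E (k + 1)) ξ : ℝ) := by fun_prop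
  have h3 := h2.measurable
  fun_prop

theorem hasDerivAt_tpow (κ j : ℕ) (G : E (κ + 2) → ℂ) (hG : Measurable G)
    (hb : ∀ x, ‖G x‖ ≤ 1) (y : E (κ + 1)) (v : ℝ) :
    HasDerivAt (fun v => extn (tpow j G) (join y v))
      (-(2 * π * Complex.I) * extn (tpow (j + 1) G) (join y v)) v := by
  have h := hasDerivAt_integral_of_dominated_loc_of_deriv_le (μ := sm (κ + 2)) (𝕜 := ℝ)
    (F := fun v (x : S (κ + 2)) => tpow j G x *
      Complex.exp (((-(2 * π * inner ℝ (x : E (κ + 2)) (join y v)) : ℝ) : ℂ) * Complex.I))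
    (F' := fun v (x : S (κ + 2)) => (-(2 * π * Complex.I)) * (tpow (j + 1) G x *
      Complex.exp (((-(2 * π * inner ℝ (x : E (κ + 2)) (join y v)) : ℝ) : ℂ) * Complex.I)))
    (x₀ := v) (s := univ) (bound := fun _ => 2 * π) Filter.univ_mem ?_ ?_ ?_ ?_ ?_ ?_
  · have h2 := h.2
    rw [integral_const_mul] at h2
    exact h2
  · exact Filter.Eventually.of_forall fun v =>
      (liftD_measurable_integrand _ (liftD_measurable_tpow j G hG) _).aestronglyMeasurable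
  · refine Integrable.of_bound (C := 1)
      (liftD_measurable_integrand _ (liftD_measurable_tpow j G hG) _).aestronglyMeasurable
      (Filter.Eventually.of_forall fun x => ?_)
    rw [norm_mul, Complex.norm_exp_ofReal_mul_I, mul_one]
    exact liftD_norm_tpow j G hb x
  · exact ((liftD_measurable_integrand _ (liftD_measurable_tpow (j + 1) G hG) _).const_mul
      _).aestronglyMeasurable
  · refine Filter.Eventually.of_forall fun x v _ => ?_
    rw [norm_mul, norm_mul, Complex.norm_exp_ofReal_mul_I, mul_one]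
    have h1 := liftD_norm_tpow (j + 1) G hb x
    have h2 : ‖-(2 * (π : ℂ) * Complex.I)‖ = 2 * π := by
      rw [norm_neg, norm_mul, norm_mul, Complex.norm_I, Complex.norm_real, Real.norm_eq_abs,
        abs_of_pos Real.pi_pos]
      simp
    rw [h2]
    have := Real.pi_pos
    nlinarith
  · exact integrable_const _
  · refine Filter.Eventually.of_forall fun x v _ => ?_
    simp only [liftD_inner]
    rw [liftD_tpow_succ]
    set t : ℝ := (x : E (κ + 2)) (Fin.last (κ + 1)) with ht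
    set a : ℝ := inner ℝ (liftD_pr (x : E (κ + 2))) y with ha
    have h1 : HasDerivAt (fun v : ℝ => ((-(2 * π * (a + t * v)) : ℝ) : ℂ) * Complex.I)
        (((-(2 * π * t) : ℝ) : ℂ) * Complex.I) v := by
      have h2 : HasDerivAt (fun v : ℝ => (-(2 * π * (a + t * v)) : ℝ)) (-(2 * π * t)) v := by
        have h3 : HasDerivAt (fun v : ℝ => a + t * v) t v := by
          simpa using ((hasDerivAt_id v).const_mul t).const_add a
        exact (h3.const_mul (2 * π)).neg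
      exact h2.ofReal_comp.mul_const Complex.I
    have h2 := (h1.cexp).const_mul (tpow j G (x : E (κ + 2)))
    refine h2.congr_deriv ?_
    push_cast
    ring

/-! ### The slab estimate -/

/-- The projection to the first coordinates maps `t dσ` on the upper half sphere to Lebesgue
measure. -/
lemma liftD_push (κ : ℕ) (φ : E (κ + 1) → ℝ≥0∞) (hφ : Measurable φ) :
    ∫⁻ x : S (κ + 2), φ (liftD_pr (x : E (κ + 2))) *
      ENNReal.ofReal ((x : E (κ + 2)) (Fin.last (κ + 1))) ∂(sm (κ + 2)) ≤ ∫⁻ x, φ x := by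
  have hs := slicing κ
  have m1 : Measurable fun x : S (κ + 2) => φ (liftD_pr (x : E (κ + 2))) *
      ENNReal.ofReal ((x : E (κ + 2)) (Fin.last (κ + 1))) := by
    have h1 : Continuous fun x : S (κ + 2) => liftD_pr (x : E (κ + 2)) :=
      (liftD_continuous_pr (k := κ + 1)).comp continuous_subtype_val
    have h2 : Continuous fun x : S (κ + 2) => (x : E (κ + 2)) (Fin.last (κ + 1)) :=
      (liftD_continuous_last (k := κ + 1)).comp continuous_subtype_val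
    exact (hφ.comp h1.measurable).mul (ENNReal.measurable_ofReal.comp h2.measurable)
  rw [← hs.lintegral_comp m1]
  have e1 : ∀ q : ℝ × S (κ + 1), φ (liftD_pr (pt q.1 (q.2 : E (κ + 1)))) *
      ENNReal.ofReal ((pt q.1 (q.2 : E (κ + 1))) (Fin.last (κ + 1))) =
      φ (Real.sin q.1 • (q.2 : E (κ + 1))) * ENNReal.ofReal (Real.cos q.1) := by
    intro q
    have e2 : liftD_pr (pt q.1 (q.2 : E (κ + 1))) = Real.sin q.1 • (q.2 : E (κ + 1)) := by
      unfold liftD_pr pt join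
      ext i
      simp
    have e3 : (pt q.1 (q.2 : E (κ + 1))) (Fin.last (κ + 1)) = Real.cos q.1 := by
      unfold pt join
      simp
    rw [e2, e3]
  simp only [e1]
  have m2 : Measurable fun q : ℝ × S (κ + 1) => φ (Real.sin q.1 • (q.2 : E (κ + 1))) *
      ENNReal.ofReal (Real.cos q.1) := by
    have h1 : Continuous fun q : ℝ × S (κ + 1) => Real.sin q.1 • (q.2 : E (κ + 1)) := by fun_prop
    have h2 : Measurable fun q : ℝ × S (κ + 1) => ENNReal.ofReal (Real.cos q.1) := by fun_prop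
    exact (hφ.comp h1.measurable).mul h2
  rw [lintegral_prod _ m2.aemeasurable]
  set ψ : ℝ → ℝ≥0∞ := fun ρ => ∫⁻ ω : S (κ + 1), φ (ρ • (ω : E (κ + 1))) ∂(sm (κ + 1)) with hψ
  have mψ0 : Measurable fun q : ℝ × S (κ + 1) => φ (q.1 • (q.2 : E (κ + 1))) := by
    have h1 : Continuous fun q : ℝ × S (κ + 1) => q.1 • (q.2 : E (κ + 1)) := by fun_prop
    exact hφ.comp h1.measurable
  have mψ : Measurable ψ := mψ0.lintegral_prod_right'
  have e2 : ∀ θ : ℝ, ∫⁻ ω : S (κ + 1), φ (Real.sin θ • (ω : E (κ + 1))) *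
      ENNReal.ofReal (Real.cos θ) ∂(sm (κ + 1)) = ψ (Real.sin θ) * ENNReal.ofReal (Real.cos θ) := by
    intro θ
    have h1 : Continuous fun ω : S (κ + 1) => Real.sin θ • (ω : E (κ + 1)) := by fun_prop
    have h2 : Measurable fun ω : S (κ + 1) => φ (Real.sin θ • (ω : E (κ + 1))) :=
      hφ.comp h1.measurable
    rw [lintegral_mul_const _ h2]
  simp only [e2]
  rw [lintegral_withDensity_eq_lintegral_mul _ (by fun_prop) (by fun_prop)]
  have h3 := lintegral_image_eq_lintegral_abs_deriv_mul (s := Ioo 0 (π / 2)) (f := Real.sin)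
    (f' := fun θ => Real.cos θ) measurableSet_Ioo
    (fun x _ => (Real.hasDerivAt_sin x).hasDerivWithinAt)
    (Real.injOn_sin.mono (fun x (hx : x ∈ Ioo 0 (π / 2)) =>
      show x ∈ Icc (-(π / 2)) (π / 2) from ⟨by linarith [hx.1, Real.pi_pos], hx.2.le⟩))
    (fun ρ => ψ ρ * ENNReal.ofReal (ρ ^ κ))
  calc ∫⁻ θ in Ioo 0 π, ((fun θ => ENNReal.ofReal (Real.sin θ ^ κ)) *
        fun θ => ψ (Real.sin θ) * ENNReal.ofReal (Real.cos θ)) θ
      ≤ ∫⁻ θ in Ioo 0 (π / 2), ENNReal.ofReal |Real.cos θ| *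
          (ψ (Real.sin θ) * ENNReal.ofReal (Real.sin θ ^ κ)) := by
        rw [← lintegral_indicator measurableSet_Ioo, ← lintegral_indicator measurableSet_Ioo]
        refine lintegral_mono_ae ?_
        have hne : ∀ᵐ θ : ℝ, θ ≠ π / 2 := by
          simp [ae_iff, measure_singleton]
        filter_upwards [hne] with θ hθ
        simp only [indicator_apply, mem_Ioo, Pi.mul_apply]
        split_ifs with h1 h2
        · have hc : 0 ≤ Real.cos θ := Real.cos_nonneg_of_neg_pi_div_two_le_of_le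
            (by linarith [h2.1, Real.pi_pos]) h2.2.le
          rw [abs_of_nonneg hc]
          apply le_of_eq
          ring
        · have h3 : π / 2 < θ := by
            rcases lt_trichotomy θ (π / 2) with h | h | h
            · exact absurd ⟨h1.1, h⟩ h2
            · exact absurd h hθ
            · exact h
          have hc : Real.cos θ ≤ 0 := Real.cos_nonpos_of_pi_div_two_le_of_le h3.le
            (by linarith [h1.2, Real.pi_pos])
          rw [ENNReal.ofReal_of_nonpos hc]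
          simp
        · simp
        · simp
    _ = ∫⁻ ρ in Real.sin '' Ioo 0 (π / 2), ψ ρ * ENNReal.ofReal (ρ ^ κ) := h3.symm
    _ ≤ ∫⁻ ρ in Ioi (0:ℝ), ψ ρ * ENNReal.ofReal (ρ ^ κ) := by
        refine lintegral_mono_set ?_
        rintro _ ⟨θ, hθ, rfl⟩
        exact Real.sin_pos_of_pos_of_lt_pi hθ.1 (by linarith [hθ.2, Real.pi_pos])
    _ = ∫⁻ x, φ x := by
        rw [lintegral_polar κ φ hφ]
        have m3 : Measurable fun q : S (κ + 1) × ℝ => φ (q.2 • (q.1 : E (κ + 1))) *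
            ENNReal.ofReal (q.2 ^ κ) := by
          have h1 : Continuous fun q : S (κ + 1) × ℝ => q.2 • (q.1 : E (κ + 1)) := by fun_prop
          have h2 : Measurable fun q : S (κ + 1) × ℝ => ENNReal.ofReal (q.2 ^ κ) := by fun_prop
          exact (hφ.comp h1.measurable).mul h2
        rw [lintegral_lintegral_swap m3.aemeasurable]
        refine lintegral_congr fun ρ => ?_
        have h1 : Continuous fun ω : S (κ + 1) => ρ • (ω : E (κ + 1)) := by fun_prop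
        have h2 : Measurable fun ω : S (κ + 1) => φ (ρ • (ω : E (κ + 1))) :=
          hφ.comp h1.measurable
        rw [lintegral_mul_const _ h2]

/-- The surface measure of the band `0 < t ≤ δ`. -/
lemma liftD_band (κ : ℕ) (δ : ℝ) :
    sm (κ + 2) {x : S (κ + 2) | 0 < (x : E (κ + 2)) (Fin.last (κ + 1)) ∧
      (x : E (κ + 2)) (Fin.last (κ + 1)) ≤ δ} ≤
      ENNReal.ofReal (π / 2 * δ) * sm (κ + 1) univ := by
  have hs := slicing κ
  have hc : Continuous fun x : S (κ + 2) => (x : E (κ + 2)) (Fin.last (κ + 1)) :=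
      (liftD_continuous_last (k := κ + 1)).comp continuous_subtype_val
  have hm : MeasurableSet {x : S (κ + 2) | 0 < (x : E (κ + 2)) (Fin.last (κ + 1)) ∧
      (x : E (κ + 2)) (Fin.last (κ + 1)) ≤ δ} :=
    (measurableSet_lt measurable_const hc.measurable).inter
      (measurableSet_le hc.measurable measurable_const)
  rw [← hs.measure_preimage hm.nullMeasurableSet]
  have e1 : (fun q : ℝ × S (κ + 1) => (⟨pt q.1 (q.2 : E (κ + 1)), pt_mem q.1 q.2⟩ : S (κ + 2))) ⁻¹'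
      {x : S (κ + 2) | 0 < (x : E (κ + 2)) (Fin.last (κ + 1)) ∧
      (x : E (κ + 2)) (Fin.last (κ + 1)) ≤ δ} =
      {θ : ℝ | 0 < Real.cos θ ∧ Real.cos θ ≤ δ} ×ˢ (univ : Set (S (κ + 1))) := by
    ext q
    have e3 : (pt q.1 (q.2 : E (κ + 1))) (Fin.last (κ + 1)) = Real.cos q.1 := by
      unfold pt join
      simp
    simp only [mem_preimage, mem_ofPred_eq, mem_prod, mem_univ, and_true, e3]
  rw [e1, Measure.prod_prod]
  gcongr
  have hm2 : MeasurableSet {θ : ℝ | 0 < Real.cos θ ∧ Real.cos θ ≤ δ} :=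
    (measurableSet_lt measurable_const Real.continuous_cos.measurable).inter
      (measurableSet_le Real.continuous_cos.measurable measurable_const)
  rw [withDensity_apply _ hm2, Measure.restrict_restrict hm2]
  calc ∫⁻ θ in {θ : ℝ | 0 < Real.cos θ ∧ Real.cos θ ≤ δ} ∩ Ioo 0 π,
        ENNReal.ofReal (Real.sin θ ^ κ)
      ≤ ∫⁻ θ in {θ : ℝ | 0 < Real.cos θ ∧ Real.cos θ ≤ δ} ∩ Ioo 0 π, 1 := by
        refine setLIntegral_mono' (hm2.inter measurableSet_Ioo) fun θ hθ => ?_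
        rw [← ENNReal.ofReal_one]
        refine ENNReal.ofReal_le_ofReal ?_
        exact pow_le_one₀ (Real.sin_nonneg_of_mem_Icc ⟨hθ.2.1.le, hθ.2.2.le⟩) (Real.sin_le_one θ)
    _ = volume ({θ : ℝ | 0 < Real.cos θ ∧ Real.cos θ ≤ δ} ∩ Ioo 0 π) := by
        rw [setLIntegral_const, one_mul]
    _ ≤ volume (Icc (π / 2 * (1 - δ)) (π / 2)) := by
        refine measure_mono ?_
        rintro θ ⟨⟨h1, h2⟩, h3, h4⟩
        have h5 : θ < π / 2 := by
          by_contra h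
          push Not at h
          have := Real.cos_nonpos_of_pi_div_two_le_of_le h (by linarith [Real.pi_pos])
          linarith
        have h6 := Real.mul_le_sin (x := π / 2 - θ) (by linarith) (by linarith)
        rw [Real.sin_pi_div_two_sub] at h6
        refine ⟨?_, h5.le⟩
        have hpi := Real.pi_pos
        have h7 : 2 / π * (π / 2 - θ) = 1 - 2 / π * θ := by field_simp
        have h8 : 1 - 2 / π * θ ≤ δ := by linarith
        have h9 : π / 2 * (2 / π * θ) = θ := by field_simp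
        nlinarith
    _ = ENNReal.ofReal (π / 2 * δ) := by
        rw [Real.volume_Icc]
        congr 1
        ring

/-- The dyadic pieces of the upper half sphere. -/
def liftD_A (κ m : ℕ) : Set (S (κ + 2)) :=
  {x : S (κ + 2) | (1 / 2 : ℝ) ^ (m + 1) < (x : E (κ + 2)) (Fin.last (κ + 1)) ∧
      (x : E (κ + 2)) (Fin.last (κ + 1)) ≤ (1 / 2 : ℝ) ^ m}

lemma liftD_continuous_last' (κ : ℕ) :
    Continuous fun x : S (κ + 2) => (x : E (κ + 2)) (Fin.last (κ + 1)) :=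
  (liftD_continuous_last (k := κ + 1)).comp continuous_subtype_val

lemma liftD_measurableSet_A (κ m : ℕ) : MeasurableSet (liftD_A κ m) :=
  (measurableSet_lt measurable_const (liftD_continuous_last' κ).measurable).inter
    (measurableSet_le (liftD_continuous_last' κ).measurable measurable_const)

/-- The Fourier transform of a piece. -/
noncomputable def liftD_F (κ m : ℕ) (H : S (κ + 2) → ℂ) (y : E (κ + 1)) : ℂ :=
  ∫ x in liftD_A κ m, H x *
    Complex.exp (((-(2 * π * inner ℝ (liftD_pr (x : E (κ + 2))) y) : ℝ) : ℂ) * Complex.I)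
      ∂(sm (κ + 2))

lemma liftD_measurable_phase (κ : ℕ) (H : S (κ + 2) → ℂ) (hH : Measurable H) :
    Measurable fun q : E (κ + 1) × S (κ + 2) => H q.2 *
      Complex.exp (((-(2 * π * inner ℝ (liftD_pr (q.2 : E (κ + 2))) q.1) : ℝ) : ℂ) * Complex.I) := by
  have h0 : Continuous fun q : E (κ + 1) × S (κ + 2) => liftD_pr (q.2 : E (κ + 2)) :=
    (liftD_continuous_pr (k := κ + 1)).comp (continuous_subtype_val.comp continuous_snd)
  have h1 : Continuous fun q : E (κ + 1) × S (κ + 2) =>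
      (inner ℝ (liftD_pr (q.2 : E (κ + 2))) q.1 : ℝ) := h0.inner continuous_fst
  have h2 := h1.measurable
  have h3 : Measurable fun q : E (κ + 1) × S (κ + 2) => H q.2 := hH.comp measurable_snd
  fun_prop

lemma liftD_measurable_F (κ m : ℕ) (H : S (κ + 2) → ℂ) (hH : Measurable H) :
    Measurable (liftD_F κ m H) := by
  unfold liftD_F
  exact ((liftD_measurable_phase κ H hH).stronglyMeasurable.integral_prod_right'
    (ν := (sm (κ + 2)).restrict (liftD_A κ m))).measurable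

lemma liftD_sm_A (κ m : ℕ) : sm (κ + 2) (liftD_A κ m) ≤
    ENNReal.ofReal (π / 2 * (1 / 2) ^ m) * sm (κ + 1) univ := by
  refine (measure_mono ?_).trans (liftD_band κ ((1 / 2) ^ m))
  intro x hx
  exact ⟨lt_of_le_of_lt (by positivity) hx.1, hx.2⟩

lemma liftD_F_sup (κ m : ℕ) (H : S (κ + 2) → ℂ) (hb : ∀ x, ‖H x‖ ≤ 1) (y : E (κ + 1)) :
    ‖liftD_F κ m H y‖ₑ ≤ ENNReal.ofReal (π / 2 * (1 / 2) ^ m) * sm (κ + 1) univ := by
  unfold liftD_F
  refine (enorm_integral_le_lintegral_enorm _).trans ?_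
  refine le_trans ?_ (liftD_sm_A κ m)
  calc ∫⁻ x in liftD_A κ m, ‖H x * Complex.exp (((-(2 * π *
        inner ℝ (liftD_pr (x : E (κ + 2))) y) : ℝ) : ℂ) * Complex.I)‖ₑ ∂(sm (κ + 2))
      ≤ ∫⁻ x in liftD_A κ m, 1 ∂(sm (κ + 2)) := by
        refine lintegral_mono fun x => ?_
        rw [enorm_mul, enorm_phase, mul_one, ← ofReal_norm, ← ENNReal.ofReal_one]
        exact ENNReal.ofReal_le_ofReal (hb x)
    _ = sm (κ + 2) (liftD_A κ m) := by rw [setLIntegral_const, one_mul]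

lemma liftD_F_two (κ m : ℕ) (H : S (κ + 2) → ℂ) (hH : Measurable H) (hb : ∀ x, ‖H x‖ ≤ 1) :
    ∫⁻ y, ‖liftD_F κ m H y‖ₑ ^ (2:ℝ) ≤ ENNReal.ofReal π * sm (κ + 1) univ := by
  have hpr : Measurable fun x : S (κ + 2) => liftD_pr (x : E (κ + 2)) :=
    ((liftD_continuous_pr (k := κ + 1)).comp continuous_subtype_val).measurable
  have hA : ∀ φ : E (κ + 1) → ℝ≥0∞, Measurable φ →
      ∫⁻ x, φ (liftD_pr (x : E (κ + 2))) ∂((sm (κ + 2)).restrict (liftD_A κ m)) ≤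
      ENNReal.ofReal (2 ^ (m + 1)) * ∫⁻ x, φ x := by
    intro φ hφ
    calc ∫⁻ x in liftD_A κ m, φ (liftD_pr (x : E (κ + 2))) ∂(sm (κ + 2))
        ≤ ∫⁻ x in liftD_A κ m, ENNReal.ofReal (2 ^ (m + 1)) * (φ (liftD_pr (x : E (κ + 2))) *
            ENNReal.ofReal ((x : E (κ + 2)) (Fin.last (κ + 1)))) ∂(sm (κ + 2)) := by
          refine setLIntegral_mono' (liftD_measurableSet_A κ m) fun x hx => ?_
          have h1 : (1 : ℝ≥0∞) ≤ ENNReal.ofReal (2 ^ (m + 1)) *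
              ENNReal.ofReal ((x : E (κ + 2)) (Fin.last (κ + 1))) := by
            rw [← ENNReal.ofReal_mul (by positivity), ← ENNReal.ofReal_one]
            refine ENNReal.ofReal_le_ofReal ?_
            have h2 := hx.1
            have h3 : (2:ℝ) ^ (m + 1) * (1 / 2) ^ (m + 1) = 1 := by
              rw [← mul_pow]; norm_num
            rw [← h3]
            gcongr
          calc φ (liftD_pr (x : E (κ + 2))) = φ (liftD_pr (x : E (κ + 2))) * 1 := (mul_one _).symm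
            _ ≤ φ (liftD_pr (x : E (κ + 2))) * (ENNReal.ofReal (2 ^ (m + 1)) *
              ENNReal.ofReal ((x : E (κ + 2)) (Fin.last (κ + 1)))) := by gcongr
            _ = _ := by ring
      _ ≤ ∫⁻ x, ENNReal.ofReal (2 ^ (m + 1)) * (φ (liftD_pr (x : E (κ + 2))) *
            ENNReal.ofReal ((x : E (κ + 2)) (Fin.last (κ + 1)))) ∂(sm (κ + 2)) :=
          setLIntegral_le_lintegral _ _
      _ = ENNReal.ofReal (2 ^ (m + 1)) * ∫⁻ x, (φ (liftD_pr (x : E (κ + 2))) *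
            ENNReal.ofReal ((x : E (κ + 2)) (Fin.last (κ + 1)))) ∂(sm (κ + 2)) := by
          rw [lintegral_const_mul' _ _ ENNReal.ofReal_ne_top]
      _ ≤ ENNReal.ofReal (2 ^ (m + 1)) * ∫⁻ x, φ x := by
          gcongr
          exact liftD_push κ φ hφ
  have hint : Integrable H ((sm (κ + 2)).restrict (liftD_A κ m)) :=
    Integrable.of_bound (C := 1) hH.aestronglyMeasurable (Filter.Eventually.of_forall hb)
  have h1 := bessel ((sm (κ + 2)).restrict (liftD_A κ m))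
    (fun x : S (κ + 2) => liftD_pr (x : E (κ + 2))) hpr (ENNReal.ofReal (2 ^ (m + 1)))
    ENNReal.ofReal_ne_top hA H hint
  refine h1.trans ?_
  calc ENNReal.ofReal (2 ^ (m + 1)) *
        ∫⁻ w, ‖H w‖ₑ ^ (2:ℝ) ∂((sm (κ + 2)).restrict (liftD_A κ m))
      ≤ ENNReal.ofReal (2 ^ (m + 1)) * ∫⁻ w in liftD_A κ m, 1 ∂(sm (κ + 2)) := by
        gcongr with x
        have h2 : ‖H x‖ₑ ≤ 1 := by
          rw [← ofReal_norm, ← ENNReal.ofReal_one]
          exact ENNReal.ofReal_le_ofReal (hb x)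
        calc ‖H x‖ₑ ^ (2:ℝ) ≤ 1 ^ (2:ℝ) := by gcongr
          _ = 1 := ENNReal.one_rpow _
    _ ≤ ENNReal.ofReal (2 ^ (m + 1)) * (ENNReal.ofReal (π / 2 * (1 / 2) ^ m) * sm (κ + 1) univ) := by
        rw [setLIntegral_const, one_mul]
        gcongr
        exact liftD_sm_A κ m
    _ = ENNReal.ofReal π * sm (κ + 1) univ := by
        rw [← mul_assoc, ← ENNReal.ofReal_mul (by positivity)]
        congr 2
        have h3 : (2:ℝ) ^ m * (1 / 2) ^ m = 1 := by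
          rw [← mul_pow]; norm_num
        calc (2:ℝ) ^ (m + 1) * (π / 2 * (1 / 2) ^ m) = π * (2 ^ m * (1 / 2) ^ m) := by ring
          _ = π := by rw [h3, mul_one]

lemma liftD_F_p (κ m : ℕ) (H : S (κ + 2) → ℂ) (hH : Measurable H) (hb : ∀ x, ‖H x‖ ≤ 1)
    {p : ℝ} (hp : 2 < p) :
    ∫⁻ y, ‖liftD_F κ m H y‖ₑ ^ p ≤ (((ENNReal.ofReal (π / 2) * sm (κ + 1) univ) ^ (p - 2)) *
      (ENNReal.ofReal π * sm (κ + 1) univ)) * (((2 : ℝ≥0∞)⁻¹) ^ m) ^ (p - 2) := by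
  have h1 := lintegral_rpow_le_sup (μ := (volume : Measure (E (κ + 1))))
    (fun y => ‖liftD_F κ m H y‖ₑ) (liftD_measurable_F κ m H hH).enorm (p := p) (p' := 2)
    (by norm_num) hp.le _ (liftD_F_sup κ m H hb)
  refine h1.trans ?_
  have h2 : ENNReal.ofReal (π / 2 * (1 / 2) ^ m) * sm (κ + 1) univ =
      (ENNReal.ofReal (π / 2) * sm (κ + 1) univ) * ((2 : ℝ≥0∞)⁻¹) ^ m := by
    rw [ENNReal.ofReal_mul (by positivity), ENNReal.ofReal_pow (by positivity)]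
    have : ENNReal.ofReal (1 / 2) = (2 : ℝ≥0∞)⁻¹ := by
      rw [one_div, ENNReal.ofReal_inv_of_pos (by norm_num)]
      simp
    rw [this]
    ring
  rw [h2, ENNReal.mul_rpow_of_nonneg _ _ (by linarith)]
  calc (ENNReal.ofReal (π / 2) * sm (κ + 1) univ) ^ (p - 2) * (((2 : ℝ≥0∞)⁻¹) ^ m) ^ (p - 2) *
        ∫⁻ y, ‖liftD_F κ m H y‖ₑ ^ (2:ℝ)
      ≤ (ENNReal.ofReal (π / 2) * sm (κ + 1) univ) ^ (p - 2) * (((2 : ℝ≥0∞)⁻¹) ^ m) ^ (p - 2) *
        (ENNReal.ofReal π * sm (κ + 1) univ) := by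
        gcongr
        exact liftD_F_two κ m H hH hb
    _ = _ := by ring

lemma liftD_geom (s : ℝ) (hs : 0 < s) : ∑' m : ℕ, (((2 : ℝ≥0∞)⁻¹) ^ m) ^ s ≠ ∞ := by
  have h1 : ∀ m : ℕ, (((2 : ℝ≥0∞)⁻¹) ^ m) ^ s = (((2 : ℝ≥0∞)⁻¹) ^ s) ^ m := by
    intro m
    rw [← ENNReal.rpow_natCast, ← ENNReal.rpow_natCast, ← ENNReal.rpow_mul, ← ENNReal.rpow_mul,
      mul_comm]
  simp only [h1]
  rw [ENNReal.tsum_geometric]
  have h2 : ((2 : ℝ≥0∞)⁻¹) ^ s < 1 := ENNReal.rpow_lt_one (by norm_num) hs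
  simp only [ne_eq, ENNReal.inv_eq_top, tsub_eq_zero_iff_le, not_le]
  exact h2

theorem slab (κ : ℕ) (p : ℝ) (hp : 2 < p) : ∃ C : ℝ≥0∞, C ≠ ∞ ∧ ∀ G : E (κ + 2) → ℂ,
    Measurable G → (∀ x, ‖G x‖ ≤ 1) → ∀ (j : ℕ) (v : ℝ),
    ∫⁻ y : E (κ + 1), ‖extn (tpow j G) (join y v)‖ₑ ^ p ≤ C := by
  set K : ℝ≥0∞ := ((ENNReal.ofReal (π / 2) * sm (κ + 1) univ) ^ (p - 2)) *
      (ENNReal.ofReal π * sm (κ + 1) univ) with hK
  have hKt : K ≠ ∞ := by
    rw [hK]
    refine ENNReal.mul_ne_top (ENNReal.rpow_ne_top_of_nonneg (by linarith) ?_)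
      (ENNReal.mul_ne_top ENNReal.ofReal_ne_top (sm_univ_ne_top _))
    exact ENNReal.mul_ne_top ENNReal.ofReal_ne_top (sm_univ_ne_top _)
  set θ : ℝ := (p - 2) / 2 with hθ
  have hθ0 : 0 < θ := by rw [hθ]; linarith
  set s : ℝ := θ / (p - 1) with hs
  have hs0 : 0 < s := div_pos hθ0 (by linarith)
  have hsp : s * (1 - p) = -θ := by
    rw [hs]
    have : p - 1 ≠ 0 := by linarith
    field_simp
    ring
  set a : ℕ → ℝ≥0∞ := fun m => ((2 : ℝ≥0∞)⁻¹) ^ m with ha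
  have ha0 : ∀ m, a m ≠ 0 := fun m => pow_ne_zero _ (by simp)
  have hat : ∀ m, a m ≠ ∞ := fun m => ENNReal.pow_ne_top (by simp)
  refine ⟨(∑' m, a m ^ s) ^ (p - 1) * (K * ∑' m, a m ^ θ), ?_, ?_⟩
  · refine ENNReal.mul_ne_top (ENNReal.rpow_ne_top_of_nonneg (by linarith) (liftD_geom s hs0))
      (ENNReal.mul_ne_top hKt (liftD_geom θ hθ0))
  intro G hG hb j v
  set H : S (κ + 2) → ℂ := fun x => tpow j G x *
    Complex.exp (((-(2 * π * ((x : E (κ + 2)) (Fin.last (κ + 1)) * v)) : ℝ) : ℂ) * Complex.I) with hHdef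
  have hH : Measurable H := by
    have h1 : Measurable fun x : S (κ + 2) => tpow j G (x : E (κ + 2)) :=
      (liftD_measurable_tpow j G hG).comp measurable_subtype_coe
    have h2 := (liftD_continuous_last' κ).measurable
    fun_prop
  have hHb : ∀ x, ‖H x‖ ≤ 1 := by
    intro x
    simp only [hHdef]
    rw [norm_mul, Complex.norm_exp_ofReal_mul_I, mul_one]
    exact liftD_norm_tpow j G hb x
  -- the decomposition
  have hdec : ∀ y : E (κ + 1), ‖extn (tpow j G) (join y v)‖ₑ ≤ ∑' m, ‖liftD_F κ m H y‖ₑ := by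
    intro y
    have e1 : extn (tpow j G) (join y v) = ∫ x : S (κ + 2), H x *
        Complex.exp (((-(2 * π * inner ℝ (liftD_pr (x : E (κ + 2))) y) : ℝ) : ℂ) * Complex.I)
        ∂(sm (κ + 2)) := by
      unfold extn
      refine integral_congr_ae (Filter.Eventually.of_forall fun x => ?_)
      simp only [hHdef]
      rw [mul_assoc (tpow j G (x : E (κ + 2))), ← Complex.exp_add, liftD_inner]
      congr 2
      push_cast
      ring
    have hdisj : Pairwise (Function.onFun Disjoint (liftD_A κ)) := by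
      have hlt : ∀ m m' : ℕ, m < m' → Disjoint (liftD_A κ m) (liftD_A κ m') := by
        intro m m' hmm
        rw [Set.disjoint_left]
        intro x hx hx'
        have h1 := hx.1
        have h2 := hx'.2
        have h3 : (1 / 2 : ℝ) ^ m' ≤ (1 / 2) ^ (m + 1) :=
          pow_le_pow_of_le_one (by norm_num) (by norm_num) hmm
        linarith
      intro m m' hmm
      rcases lt_or_gt_of_ne hmm with h | h
      · exact hlt m m' h
      · exact (hlt m' m h).symm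
    have hint : Integrable (fun x : S (κ + 2) => H x *
        Complex.exp (((-(2 * π * inner ℝ (liftD_pr (x : E (κ + 2))) y) : ℝ) : ℂ) * Complex.I))
        (sm (κ + 2)) := by
      refine Integrable.of_bound (C := 1) ?_ (Filter.Eventually.of_forall fun x => ?_)
      · exact ((liftD_measurable_phase κ H hH).comp
          (f := fun x : S (κ + 2) => (y, x)) (by fun_prop)).aestronglyMeasurable
      · rw [norm_mul, Complex.norm_exp_ofReal_mul_I, mul_one]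
        exact hHb x
    have e2 : ∫ x : S (κ + 2), H x *
        Complex.exp (((-(2 * π * inner ℝ (liftD_pr (x : E (κ + 2))) y) : ℝ) : ℂ) * Complex.I)
        ∂(sm (κ + 2)) = ∑' m, liftD_F κ m H y := by
      rw [← setIntegral_eq_integral_of_forall_compl_eq_zero (s := ⋃ m, liftD_A κ m)]
      · rw [integral_iUnion (liftD_measurableSet_A κ) hdisj hint.integrableOn]
        rfl
      · intro x hx
        have h1 : tpow j G (x : E (κ + 2)) = 0 := by
          unfold tpow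
          rw [if_neg]
          intro hpos
          apply hx
          have h2 := liftD_abs_last x
          obtain ⟨m, hm1, hm2⟩ := exists_nat_pow_near_of_lt_one hpos ((le_abs_self _).trans h2)
            (show (0:ℝ) < 1 / 2 by norm_num) (by norm_num)
          exact mem_iUnion.2 ⟨m, hm1, hm2⟩
        simp only [hHdef, h1, zero_mul]
    rw [e1, e2]
    exact enorm_tsum_le_tsum_enorm
  have hweight : ∀ y : E (κ + 1), (∑' m, ‖liftD_F κ m H y‖ₑ) ^ p ≤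
      (∑' m, a m ^ s) ^ (p - 1) * ∑' m, a m ^ (-θ) * ‖liftD_F κ m H y‖ₑ ^ p := by
    intro y
    have h1 := holder_weight (Measure.count : Measure ℕ) (fun m => a m ^ s)
      (fun m => a m ^ (-s) * ‖liftD_F κ m H y‖ₑ) (measurable_of_countable _)
      (measurable_of_countable _) (p := p) (by linarith)
    simp only [lintegral_count] at h1
    have h2 : ∀ m, a m ^ s * (a m ^ (-s) * ‖liftD_F κ m H y‖ₑ) = ‖liftD_F κ m H y‖ₑ := by
      intro m
      rw [← mul_assoc, ← ENNReal.rpow_add _ _ (ha0 m) (hat m)]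
      simp
    have h3 : ∀ m, a m ^ s * (a m ^ (-s) * ‖liftD_F κ m H y‖ₑ) ^ p =
        a m ^ (-θ) * ‖liftD_F κ m H y‖ₑ ^ p := by
      intro m
      rw [ENNReal.mul_rpow_of_nonneg _ _ (by linarith), ← mul_assoc, ← ENNReal.rpow_mul,
        ← ENNReal.rpow_add _ _ (ha0 m) (hat m), ← hsp]
      congr 2
      ring
    simp only [h2, h3] at h1
    exact h1
  calc ∫⁻ y : E (κ + 1), ‖extn (tpow j G) (join y v)‖ₑ ^ p
      ≤ ∫⁻ y : E (κ + 1), (∑' m, a m ^ s) ^ (p - 1) *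
          ∑' m, a m ^ (-θ) * ‖liftD_F κ m H y‖ₑ ^ p := by
        refine lintegral_mono fun y => ?_
        refine le_trans ?_ (hweight y)
        have := hdec y
        have hp0 : 0 ≤ p := by linarith
        gcongr
    _ = (∑' m, a m ^ s) ^ (p - 1) * ∫⁻ y : E (κ + 1),
          ∑' m, a m ^ (-θ) * ‖liftD_F κ m H y‖ₑ ^ p := by
        rw [lintegral_const_mul' _ _
          (ENNReal.rpow_ne_top_of_nonneg (by linarith) (liftD_geom s hs0))]
    _ = (∑' m, a m ^ s) ^ (p - 1) * ∑' m, ∫⁻ y : E (κ + 1),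
          a m ^ (-θ) * ‖liftD_F κ m H y‖ₑ ^ p := by
        congr 1
        rw [lintegral_tsum]
        intro m
        exact (((liftD_measurable_F κ m H hH).enorm.pow_const p).const_mul _).aemeasurable
    _ ≤ (∑' m, a m ^ s) ^ (p - 1) * ∑' m, K * a m ^ θ := by
        gcongr with m
        rw [lintegral_const_mul _ ((liftD_measurable_F κ m H hH).enorm.pow_const p)]
        have h1 := liftD_F_p κ m H hH hHb hp
        calc a m ^ (-θ) * ∫⁻ y, ‖liftD_F κ m H y‖ₑ ^ p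
            ≤ a m ^ (-θ) * (K * a m ^ (p - 2)) := by gcongr
          _ = K * (a m ^ (-θ) * a m ^ (p - 2)) := by ring
          _ = K * a m ^ θ := by
              rw [← ENNReal.rpow_add _ _ (ha0 m) (hat m)]
              congr 2
              rw [hθ]
              ring
    _ = (∑' m, a m ^ s) ^ (p - 1) * (K * ∑' m, a m ^ θ) := by
        rw [ENNReal.tsum_mul_left]

end Pool.Agent.SDT.MP_6cbfb8_an

end -- MP_6cbfb8_an.LiftD

section -- MP_6cbfb8_an.LiftE1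

/-!
Hoelder interpolation between the slab bound and the bound for the whole space.
-/

namespace Pool.Agent.SDT.MP_6cbfb8_an

open MeasureTheory Set
open scoped ENNReal Real RealInnerProductSpace

lemma liftE1_measurable_tpow {k : ℕ} (j : ℕ) {G : E (k + 1) → ℂ} (hG : Measurable G) :
    Measurable (tpow j G) := by
  unfold tpow
  have h1 : Measurable fun x : E (k + 1) => x (Fin.last k) := by fun_prop
  refine Measurable.ite (measurableSet_lt measurable_const h1) ?_ measurable_const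
  exact hG.mul (by fun_prop)

lemma liftE1_holder {α : Type*} [MeasurableSpace α] {μ : Measure α} (f : α → ℝ≥0∞)
    (hf : Measurable f) {p r q a : ℝ} (ha0 : 0 ≤ a) (ha1 : a ≤ 1) (hr : 0 ≤ r)
    (hq : 0 ≤ q) (hp : p = r * (1 - a) + q * a) :
    ∫⁻ x, f x ^ p ∂μ ≤ (∫⁻ x, f x ^ r ∂μ) ^ (1 - a) * (∫⁻ x, f x ^ q ∂μ) ^ a := by
  have h := ENNReal.lintegral_mul_norm_pow_le (μ := μ) (f := fun x => f x ^ r)
    (g := fun x => f x ^ q) (hf.pow_const _).aemeasurable (hf.pow_const _).aemeasurable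
    (p := 1 - a) (q := a) (by linarith) ha0 (by ring)
  refine le_trans (le_of_eq ?_) h
  refine lintegral_congr fun x => ?_
  rw [← ENNReal.rpow_mul, ← ENNReal.rpow_mul, hp,
    ENNReal.rpow_add_of_nonneg _ _ (mul_nonneg hr (by linarith)) (mul_nonneg hq ha0)]

theorem slab_vol (κ : ℕ) (q₁ : ℝ) (hq₁ : 2 < q₁) (cls : (E (κ + 2) → ℂ) → Prop)
    (H : ∀ (j : ℕ) (q : ℝ), q₁ < q → ∃ C : ℝ≥0∞, C ≠ ∞ ∧
      ∀ G : E (κ + 2) → ℂ, Measurable G → (∀ x, ‖G x‖ ≤ 1) → cls G →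
        ∫⁻ ξ, ‖extn (tpow j G) ξ‖ₑ ^ q ≤ C)
    (p : ℝ) (hp : 2 < p) (hp' : p < q₁)
    (ϑ₀ : ℝ) (hϑ₀ : ϑ₀ < (p - 2) / (q₁ - 2)) (J : ℕ) :
    ∃ ϑ : ℝ, ϑ₀ < ϑ ∧ 0 < ϑ ∧ ϑ < 1 ∧ ∃ C : ℝ≥0∞, C ≠ ∞ ∧ ∀ G : E (κ + 2) → ℂ, Measurable G →
      (∀ x, ‖G x‖ ≤ 1) → cls G → ∀ j : ℕ, j ≤ J → ∀ V : ℝ, 0 < V →
      ∫⁻ v in Icc (-V) V, ∫⁻ y : E (κ + 1), ‖extn (tpow j G) (join y v)‖ₑ ^ p ≤
        C * ENNReal.ofReal (V ^ (1 - ϑ)) := by
  have hd : 0 < q₁ - 2 := by linarith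
  -- choice of the parameters
  obtain ⟨eps, he0, he1, he2⟩ : ∃ eps : ℝ, 0 < eps ∧ eps < p - 2 ∧
      ϑ₀ < (p - 2 - eps) / (q₁ - 2) := by
    have h1 : ϑ₀ * (q₁ - 2) < p - 2 := by rwa [lt_div_iff₀ hd] at hϑ₀
    refine ⟨min ((p - 2) / 2) ((p - 2 - ϑ₀ * (q₁ - 2)) / 2), lt_min (by linarith) (by linarith),
      ?_, ?_⟩
    · exact (min_le_left _ _).trans_lt (by linarith)
    · rw [lt_div_iff₀ hd]
      have := min_le_right ((p - 2) / 2) ((p - 2 - ϑ₀ * (q₁ - 2)) / 2)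
      linarith
  have ha0 : 0 < (p - 2 - eps) / (q₁ - 2) := div_pos (by linarith) hd
  have ha1 : (p - 2 - eps) / (q₁ - 2) < 1 := by rw [div_lt_one hd]; linarith
  have hpe : p = (2 + eps) * (1 - (p - 2 - eps) / (q₁ - 2)) +
      (q₁ + eps) * ((p - 2 - eps) / (q₁ - 2)) := by
    have : (q₁ - 2) * ((p - 2 - eps) / (q₁ - 2)) = p - 2 - eps := by
      field_simp
    linear_combination this.symm
  set a := (p - 2 - eps) / (q₁ - 2) with ha
  obtain ⟨C1, hC1, h1⟩ := slab κ (2 + eps) (by linarith)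
  choose C2 hC2 h2 using fun j : ℕ => H j (q₁ + eps) (by linarith)
  refine ⟨a, he2, ha0, ha1, (2 * C1) ^ (1 - a) * (∑ j ∈ Finset.range (J + 1), C2 j) ^ a, ?_, ?_⟩
  · refine ENNReal.mul_ne_top (ENNReal.rpow_ne_top_of_nonneg (by linarith)
      (ENNReal.mul_ne_top (by simp) hC1)) (ENNReal.rpow_ne_top_of_nonneg ha0.le ?_)
    exact (ENNReal.sum_lt_top.2 fun j _ => (hC2 j).lt_top).ne
  intro G hG hb hcls j hj V hV
  set F : ℝ × E (κ + 1) → ℝ≥0∞ := fun x => ‖extn (tpow j G) (join x.2 x.1)‖ₑ with hF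
  have hm0 : Measurable (extn (tpow j G)) := measurable_extn _ (liftE1_measurable_tpow j hG)
  have hFm : Measurable F := by
    refine Measurable.enorm (hm0.comp ?_)
    exact (continuous_join.measurable).comp (measurable_snd.prodMk measurable_fst)
  have e1 : ∀ r : ℝ, ∫⁻ v in Icc (-V) V, ∫⁻ y : E (κ + 1),
      ‖extn (tpow j G) (join y v)‖ₑ ^ r =
      ∫⁻ x, F x ^ r ∂(((volume : Measure ℝ).restrict (Icc (-V) V)).prod
        (volume : Measure (E (κ + 1)))) := fun r => by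
    rw [lintegral_prod _ (hFm.pow_const r).aemeasurable]
  have b1 : ∫⁻ x, F x ^ (2 + eps) ∂(((volume : Measure ℝ).restrict (Icc (-V) V)).prod
      (volume : Measure (E (κ + 1)))) ≤ 2 * C1 * ENNReal.ofReal V := by
    rw [← e1]
    calc ∫⁻ v in Icc (-V) V, ∫⁻ y : E (κ + 1), ‖extn (tpow j G) (join y v)‖ₑ ^ (2 + eps)
        ≤ ∫⁻ _v in Icc (-V) V, C1 := lintegral_mono fun v => h1 G hG hb j v
      _ = C1 * ENNReal.ofReal (2 * V) := by
          rw [setLIntegral_const, Real.volume_Icc]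
          congr 2; ring
      _ = 2 * C1 * ENNReal.ofReal V := by
          rw [ENNReal.ofReal_mul (by norm_num)]
          simp only [ENNReal.ofReal_ofNat]
          ring
  have b2 : ∫⁻ x, F x ^ (q₁ + eps) ∂(((volume : Measure ℝ).restrict (Icc (-V) V)).prod
      (volume : Measure (E (κ + 1)))) ≤ ∑ j ∈ Finset.range (J + 1), C2 j := by
    rw [← e1]
    calc ∫⁻ v in Icc (-V) V, ∫⁻ y : E (κ + 1), ‖extn (tpow j G) (join y v)‖ₑ ^ (q₁ + eps)
        ≤ ∫⁻ v : ℝ, ∫⁻ y : E (κ + 1), ‖extn (tpow j G) (join y v)‖ₑ ^ (q₁ + eps) :=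
          setLIntegral_le_lintegral _ _
      _ = ∫⁻ y : E (κ + 1), ∫⁻ v : ℝ, ‖extn (tpow j G) (join y v)‖ₑ ^ (q₁ + eps) := by
          refine lintegral_lintegral_swap ?_
          exact (hFm.pow_const (q₁ + eps)).aemeasurable
      _ = ∫⁻ ξ, ‖extn (tpow j G) ξ‖ₑ ^ (q₁ + eps) :=
          (lintegral_join (κ + 1) _ (hm0.enorm.pow_const _)).symm
      _ ≤ C2 j := h2 j G hG hb hcls
      _ ≤ _ := Finset.single_le_sum (f := C2) (fun _ _ => zero_le) (by simpa using Nat.lt_succ_of_le hj)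
  rw [e1]
  refine (liftE1_holder F hFm ha0.le ha1.le (by linarith) (by linarith) hpe).trans ?_
  calc _ ≤ (2 * C1 * ENNReal.ofReal V) ^ (1 - a) * (∑ j ∈ Finset.range (J + 1), C2 j) ^ a := by
        gcongr
    _ = _ := by
        rw [ENNReal.mul_rpow_of_nonneg _ _ (by linarith), ENNReal.ofReal_rpow_of_pos hV]
        ring

end Pool.Agent.SDT.MP_6cbfb8_an

end -- MP_6cbfb8_an.LiftE1

section -- MP_6cbfb8_an.LiftE2

/-!
Lifting of the restriction estimate to higher dimensions: final assembly.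
-/

namespace Pool.Agent.SDT.MP_6cbfb8_an

open MeasureTheory Set
open scoped ENNReal Real RealInnerProductSpace

lemma liftE2_measurable_tpow {k : ℕ} (j : ℕ) (G : E (k + 1) → ℂ) (hG : Measurable G) :
    Measurable (tpow j G) := by
  unfold tpow
  have h1 : Measurable fun x : E (k + 1) => x (Fin.last k) := by fun_prop
  refine Measurable.ite (measurableSet_lt measurable_const h1) ?_ measurable_const
  refine hG.mul ?_
  fun_prop

lemma liftE2_norm_tpow_le {k : ℕ} (j : ℕ) (G : E (k + 1) → ℂ) (hb : ∀ x, ‖G x‖ ≤ 1) (x : S (k + 1)) :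
    ‖tpow j G x‖ ≤ 1 := by
  unfold tpow
  split_ifs with h
  · rw [norm_mul, Complex.norm_real, Real.norm_eq_abs, abs_pow]
    have h1 : |(x : E (k + 1)) (Fin.last k)| ≤ 1 := by
      have h2 := PiLp.norm_apply_le (x : E (k + 1)) (Fin.last k)
      rw [Real.norm_eq_abs, norm_eq_of_mem_sphere] at h2
      exact h2
    calc ‖G x‖ * |(x : E (k + 1)) (Fin.last k)| ^ j ≤ 1 * 1 := by
          gcongr
          · exact hb _
          · exact pow_le_one₀ (abs_nonneg _) h1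
      _ = 1 := by norm_num
  · simp

lemma liftE2_measurable_F {k : ℕ} (G : E (k + 2) → ℂ) (hG : Measurable G) :
    Measurable fun q : ℕ × (E (k + 1) × ℝ) => extn (tpow q.1 G) (join q.2.1 q.2.2) := by
  have h1 : Measurable (Function.uncurry fun (j : ℕ) (x : E (k + 2)) => tpow j G x) :=
    measurable_from_prod_countable_right fun j => liftE2_measurable_tpow j G hG
  have h2 := measurable_extn_param (fun (j : ℕ) => tpow j G) h1
  have h3 : Measurable fun q : ℕ × (E (k + 1) × ℝ) => ((q.1, join q.2.1 q.2.2) : ℕ × E (k + 2)) := by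
    have : Measurable fun q : E (k + 1) × ℝ => join q.1 q.2 := continuous_join.measurable
    exact measurable_fst.prodMk (this.comp measurable_snd)
  exact h2.comp h3

lemma liftE2_enorm_extn_le {n : ℕ} (g : E n → ℂ) (hb : ∀ x, ‖g x‖ ≤ 1) (ξ : E n) :
    ‖extn g ξ‖ₑ ≤ sm n univ := by
  unfold extn
  refine (enorm_integral_le_lintegral_enorm _).trans ?_
  calc ∫⁻ x : S n, ‖g x * Complex.exp (((-(2 * π * inner ℝ (x : E n) ξ) : ℝ) : ℂ) * Complex.I)‖ₑ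
        ∂(sm n) ≤ ∫⁻ _x : S n, 1 ∂(sm n) := by
        refine lintegral_mono fun x => ?_
        rw [enorm_mul, enorm_phase, mul_one, ← ofReal_norm]
        exact (ENNReal.ofReal_le_ofReal (hb _)).trans (by simp)
    _ = sm n univ := by simp

lemma liftE2_measurable_lift {k l : ℕ} (G : E (k + 1) → ℂ) (hG : Measurable G) :
    Measurable (lift G : E (k + l) → ℂ) := by
  unfold lift
  have h1 : Continuous fun x : E (k + l) => (fstE x : E k) := by
    unfold fstE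
    refine (PiLp.continuous_toLp 2 _).comp ?_
    fun_prop
  have h2 : Continuous fun x : E (k + l) => (sndE x : E l) := by
    unfold sndE
    refine (PiLp.continuous_toLp 2 _).comp ?_
    fun_prop
  have h3 : Continuous fun x : E (k + l) => join (fstE x : E k) ‖(sndE x : E l)‖ :=
    continuous_join.comp (h1.prodMk h2.norm)
  exact hG.comp h3.measurable

lemma liftE2_polar (i : ℕ) (Φ : ℝ → ℝ≥0∞) (hΦ : Measurable Φ) :
    ∫⁻ w : E (i + 2), Φ ‖w‖ =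
      sm (i + 2) univ * ∫⁻ ρ in Ioi (0:ℝ), Φ ρ * ENNReal.ofReal (ρ ^ (i + 1)) := by
  rw [lintegral_polar (i + 1) (fun w => Φ ‖w‖) (hΦ.comp measurable_norm)]
  have h : ∀ ω : S (i + 1 + 1), (∫⁻ ρ in Ioi (0:ℝ), Φ ‖ρ • (ω : E (i + 1 + 1))‖ *
      ENNReal.ofReal (ρ ^ (i + 1))) = ∫⁻ ρ in Ioi (0:ℝ), Φ ρ * ENNReal.ofReal (ρ ^ (i + 1)) := by
    intro ω
    refine setLIntegral_congr_fun measurableSet_Ioi fun ρ hρ => ?_
    rw [norm_smul, norm_eq_of_mem_sphere, mul_one, Real.norm_eq_abs, abs_of_pos hρ]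
  simp_rw [h]
  rw [lintegral_const, mul_comm]

lemma liftE2_Ioi (Φ : ℝ → ℝ≥0∞) :
    ∫⁻ z in Ioi (0:ℝ), Φ z ≤ (∫⁻ z in Ioc (0:ℝ) 1, Φ z) +
      ∑' m : ℕ, ∫⁻ z in Icc ((2:ℝ) ^ m) (2 * 2 ^ m), Φ z := by
  have hsub : Ioi (0:ℝ) ⊆ Ioc (0:ℝ) 1 ∪ ⋃ m : ℕ, Icc ((2:ℝ) ^ m) (2 * 2 ^ m) := by
    intro z hz
    by_cases h1 : z ≤ 1
    · exact Or.inl ⟨hz, h1⟩
    · right
      push Not at h1
      obtain ⟨m, hm1, hm2⟩ := exists_nat_pow_near h1.le (by norm_num : (1:ℝ) < 2)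
      refine mem_iUnion.2 ⟨m, hm1, ?_⟩
      rw [pow_succ] at hm2
      linarith
  calc ∫⁻ z in Ioi (0:ℝ), Φ z ≤ ∫⁻ z in Ioc (0:ℝ) 1 ∪ ⋃ m : ℕ, Icc ((2:ℝ) ^ m) (2 * 2 ^ m), Φ z :=
        lintegral_mono_set hsub
    _ ≤ (∫⁻ z in Ioc (0:ℝ) 1, Φ z) + ∫⁻ z in ⋃ m : ℕ, Icc ((2:ℝ) ^ m) (2 * 2 ^ m), Φ z :=
        lintegral_union_le (fun z => Φ z) (Ioc (0:ℝ) 1) (⋃ m : ℕ, Icc ((2:ℝ) ^ m) (2 * 2 ^ m))
    _ ≤ _ := by
        gcongr
        exact lintegral_iUnion_le _ _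

lemma liftE2_dilate (Ψ : ℝ → ℝ≥0∞) (hΨ : Measurable Ψ) {c Z : ℝ} (hc : c ≠ 0) (hZ : 0 < Z) :
    ∫⁻ z in Icc Z (2 * Z), Ψ (z * c) ≤
      ENNReal.ofReal |c|⁻¹ * ∫⁻ v in Icc (-(2 * Z * |c|)) (2 * Z * |c|), Ψ v := by
  set A : Set ℝ := Icc (-(2 * Z * |c|)) (2 * Z * |c|) with hA
  have hAm : MeasurableSet A := measurableSet_Icc
  calc ∫⁻ z in Icc Z (2 * Z), Ψ (z * c) ≤ ∫⁻ z in Icc Z (2 * Z), A.indicator Ψ (z * c) := by
        refine setLIntegral_mono' measurableSet_Icc fun z hz => ?_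
        have : z * c ∈ A := by
          have h1 : |z * c| ≤ 2 * Z * |c| := by
            rw [abs_mul]
            gcongr
            rw [abs_of_pos (hZ.trans_le hz.1)]
            exact hz.2
          exact ⟨by linarith [neg_abs_le (z * c)], (le_abs_self _).trans h1⟩
        rw [indicator_of_mem this]
    _ ≤ ∫⁻ z, A.indicator Ψ (z * c) := setLIntegral_le_lintegral _ _
    _ = ∫⁻ v, A.indicator Ψ v ∂(Measure.map (· * c) volume) := by
        rw [lintegral_map (hΨ.indicator hAm) (by fun_prop)]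
    _ = ENNReal.ofReal |c⁻¹| * ∫⁻ v, A.indicator Ψ v := by
        rw [Real.map_volume_mul_right hc, lintegral_smul_measure, smul_eq_mul]
    _ = _ := by
        rw [lintegral_indicator hAm, abs_inv]

/-- The contribution of one dyadic shell. -/
lemma liftE2_shell (κ i : ℕ) {p ϑ : ℝ} (hp : 2 < p) {C₁ C₂ : ℝ≥0∞}
    (F : ℕ → E (κ + 1) → ℝ → ℂ)
    (hF : Measurable fun q : ℕ × (E (κ + 1) × ℝ) => F q.1 q.2.1 q.2.2)
    (hd : ∀ j y v, HasDerivAt (F j y) (-(2 * π * Complex.I) * F (j + 1) y v) v)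
    (hV : ∀ j ≤ i + 1, ∀ V : ℝ, 0 < V →
      ∫⁻ v in Icc (-V) V, ∫⁻ y, ‖F j y v‖ₑ ^ p ≤ C₁ * ENNReal.ofReal (V ^ (1 - ϑ)))
    {Z : ℝ} (hZ : 1 ≤ Z) (K : Measure (ℕ × ℝ)) [IsFiniteMeasure K]
    (hK1 : ∫⁻ q, ENNReal.ofReal (1 + |q.2| ^ (-ϑ)) ∂K ≤
      C₂ * ENNReal.ofReal (Z ^ (-(((i : ℝ) + 1) / 2))))
    (hK2 : ∀ᵐ q ∂K, q.1 ≤ i + 1 ∧ q.2 ≠ 0 ∧ |q.2| ≤ 1)
    (hK3 : ∀ f : ℕ → ℝ → ℂ,
      (∀ j v, HasDerivAt (f j) (-(2 * π * Complex.I) * f (j + 1) v) v) →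
      ∀ z ∈ Icc Z (2 * Z),
        ‖∫ u in Ioo 0 π, ((Real.sin u ^ i : ℝ) : ℂ) * f (i + 1) (z * Real.cos u)‖ₑ ≤
          ∫⁻ q, ‖f q.1 (z * q.2)‖ₑ ∂K) :
    ∫⁻ z in Icc Z (2 * Z), (∫⁻ y, ‖∫ u in Ioo 0 π, ((Real.sin u ^ i : ℝ) : ℂ) *
        F (i + 1) y (z * Real.cos u)‖ₑ ^ p) * ENNReal.ofReal (z ^ (i + 1)) ≤
      C₁ * C₂ ^ p * ENNReal.ofReal
        (2 ^ ((i : ℝ) + 2 - ϑ) * Z ^ (1 - ((i : ℝ) + 1) * (p - 2) / 2 - ϑ)) := by
  have hZ0 : 0 < Z := by linarith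
  have hp0 : 0 < p := by linarith
  set a : ℝ := ((i : ℝ) + 1) / 2 with ha
  -- measurability
  have hM : Measurable fun x : (ℕ × ℝ) × (ℝ × E (κ + 1)) =>
      ‖F x.1.1 x.2.2 (x.2.1 * x.1.2)‖ₑ ^ p := by
    have h1 : Measurable fun x : (ℕ × ℝ) × (ℝ × E (κ + 1)) =>
        ((x.1.1, (x.2.2, x.2.1 * x.1.2)) : ℕ × (E (κ + 1) × ℝ)) := by fun_prop
    exact (hF.comp h1).enorm.pow_const p
  have hMz : ∀ z : ℝ, Measurable fun x : E (κ + 1) × (ℕ × ℝ) =>
      ‖F x.2.1 x.1 (z * x.2.2)‖ₑ ^ p := by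
    intro z
    exact hM.comp (f := fun x : E (κ + 1) × (ℕ × ℝ) => (x.2, (z, x.1))) (by fun_prop)
  have hMy : ∀ (z : ℝ) (y : E (κ + 1)), Measurable fun q : ℕ × ℝ => ‖F q.1 y (z * q.2)‖ₑ := by
    intro z y
    have h1 : Measurable fun q : ℕ × ℝ => ((q.1, (y, z * q.2)) : ℕ × (E (κ + 1) × ℝ)) := by
      fun_prop
    exact (hF.comp h1).enorm
  have hΨ : ∀ j : ℕ, Measurable fun v : ℝ => ∫⁻ y, ‖F j y v‖ₑ ^ p := by
    intro j
    have h1 : Measurable fun x : ℝ × E (κ + 1) => ‖F j x.2 x.1‖ₑ ^ p := by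
      have h2 : Measurable fun x : ℝ × E (κ + 1) => ((j, (x.2, x.1)) : ℕ × (E (κ + 1) × ℝ)) := by
        fun_prop
      exact (hF.comp h2).enorm.pow_const p
    exact h1.lintegral_prod_right'
  have hMq : Measurable fun x : ℝ × (ℕ × ℝ) => ∫⁻ y, ‖F x.2.1 y (x.1 * x.2.2)‖ₑ ^ p := by
    have h1 : Measurable fun x : (ℝ × (ℕ × ℝ)) × E (κ + 1) =>
        ‖F x.1.2.1 x.2 (x.1.1 * x.1.2.2)‖ₑ ^ p :=
      hM.comp (f := fun x : (ℝ × (ℕ × ℝ)) × E (κ + 1) => (x.1.2, (x.1.1, x.2))) (by fun_prop)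
    exact h1.lintegral_prod_right'
  -- mass of K
  have hKu : K univ ≤ C₂ * ENNReal.ofReal (Z ^ (-a)) := by
    refine le_trans ?_ hK1
    calc K univ = ∫⁻ _q, 1 ∂K := by simp
      _ ≤ _ := by
        refine lintegral_mono fun q => ?_
        rw [← ENNReal.ofReal_one]
        refine ENNReal.ofReal_le_ofReal ?_
        have : (0:ℝ) ≤ |q.2| ^ (-ϑ) := by positivity
        linarith
  -- the inner estimate
  have hA : ∀ z ∈ Icc Z (2 * Z), (∫⁻ y, ‖∫ u in Ioo 0 π, ((Real.sin u ^ i : ℝ) : ℂ) *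
      F (i + 1) y (z * Real.cos u)‖ₑ ^ p) ≤
      K univ ^ (p - 1) * ∫⁻ q, (∫⁻ y, ‖F q.1 y (z * q.2)‖ₑ ^ p) ∂K := by
    intro z hz
    calc (∫⁻ y, ‖∫ u in Ioo 0 π, ((Real.sin u ^ i : ℝ) : ℂ) *
          F (i + 1) y (z * Real.cos u)‖ₑ ^ p)
        ≤ ∫⁻ y, K univ ^ (p - 1) * ∫⁻ q, ‖F q.1 y (z * q.2)‖ₑ ^ p ∂K := by
          refine lintegral_mono fun y => ?_
          calc ‖∫ u in Ioo 0 π, ((Real.sin u ^ i : ℝ) : ℂ) *
                F (i + 1) y (z * Real.cos u)‖ₑ ^ p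
              ≤ (∫⁻ q, 1 * ‖F q.1 y (z * q.2)‖ₑ ∂K) ^ p := by
                refine ENNReal.rpow_le_rpow ?_ hp0.le
                simp only [one_mul]
                exact hK3 (fun j => F j y) (fun j v => hd j y v) z hz
            _ ≤ (∫⁻ _q, 1 ∂K) ^ (p - 1) * ∫⁻ q, 1 * ‖F q.1 y (z * q.2)‖ₑ ^ p ∂K :=
                holder_weight K (fun _ => 1) _ measurable_const (hMy z y) (by linarith)
            _ = _ := by simp
      _ = K univ ^ (p - 1) * ∫⁻ y, ∫⁻ q, ‖F q.1 y (z * q.2)‖ₑ ^ p ∂K := by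
          rw [lintegral_const_mul _ (hMz z).lintegral_prod_right']
      _ = _ := by
          rw [lintegral_lintegral_swap
            (f := fun (y : E (κ + 1)) (q : ℕ × ℝ) => ‖F q.1 y (z * q.2)‖ₑ ^ p) (hMz z).aemeasurable]
  -- dilation
  have hD : ∀ᵐ q ∂K, ∫⁻ z in Icc Z (2 * Z), (∫⁻ y, ‖F q.1 y (z * q.2)‖ₑ ^ p) ≤
      C₁ * ENNReal.ofReal ((2 * Z) ^ (1 - ϑ)) * ENNReal.ofReal (1 + |q.2| ^ (-ϑ)) := by
    filter_upwards [hK2] with q hq
    obtain ⟨hq1, hq2, -⟩ := hq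
    have hc : 0 < |q.2| := abs_pos.2 hq2
    have hVp : 0 < 2 * Z * |q.2| := by positivity
    calc ∫⁻ z in Icc Z (2 * Z), (∫⁻ y, ‖F q.1 y (z * q.2)‖ₑ ^ p)
        ≤ ENNReal.ofReal |q.2|⁻¹ * ∫⁻ v in Icc (-(2 * Z * |q.2|)) (2 * Z * |q.2|),
            ∫⁻ y, ‖F q.1 y v‖ₑ ^ p := liftE2_dilate _ (hΨ q.1) hq2 hZ0
      _ ≤ ENNReal.ofReal |q.2|⁻¹ * (C₁ * ENNReal.ofReal ((2 * Z * |q.2|) ^ (1 - ϑ))) := by
          gcongr
          exact hV q.1 hq1 _ hVp
      _ = C₁ * ENNReal.ofReal ((2 * Z) ^ (1 - ϑ) * |q.2| ^ (-ϑ)) := by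
          rw [mul_left_comm, ← ENNReal.ofReal_mul (by positivity)]
          congr 2
          rw [Real.mul_rpow (by positivity) hc.le, ← Real.rpow_neg_one |q.2|, mul_left_comm,
            ← Real.rpow_add hc]
          congr 2
          ring
      _ ≤ C₁ * ENNReal.ofReal ((2 * Z) ^ (1 - ϑ) * (1 + |q.2| ^ (-ϑ))) := by
          gcongr
          linarith
      _ = _ := by
          rw [ENNReal.ofReal_mul (by positivity), mul_assoc]
  have hmain : ∫⁻ z in Icc Z (2 * Z), (∫⁻ q, (∫⁻ y, ‖F q.1 y (z * q.2)‖ₑ ^ p) ∂K) ≤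
      C₁ * ENNReal.ofReal ((2 * Z) ^ (1 - ϑ)) * (C₂ * ENNReal.ofReal (Z ^ (-a))) := by
    calc ∫⁻ z in Icc Z (2 * Z), (∫⁻ q, (∫⁻ y, ‖F q.1 y (z * q.2)‖ₑ ^ p) ∂K)
        = ∫⁻ q, (∫⁻ z in Icc Z (2 * Z), (∫⁻ y, ‖F q.1 y (z * q.2)‖ₑ ^ p)) ∂K := by
          rw [lintegral_lintegral_swap
            (f := fun (z : ℝ) (q : ℕ × ℝ) => ∫⁻ y, ‖F q.1 y (z * q.2)‖ₑ ^ p) hMq.aemeasurable]
      _ ≤ ∫⁻ q, C₁ * ENNReal.ofReal ((2 * Z) ^ (1 - ϑ)) * ENNReal.ofReal (1 + |q.2| ^ (-ϑ)) ∂K :=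
          lintegral_mono_ae hD
      _ = C₁ * ENNReal.ofReal ((2 * Z) ^ (1 - ϑ)) *
            ∫⁻ q, ENNReal.ofReal (1 + |q.2| ^ (-ϑ)) ∂K := by
          rw [lintegral_const_mul]
          fun_prop
      _ ≤ _ := by gcongr
  calc ∫⁻ z in Icc Z (2 * Z), (∫⁻ y, ‖∫ u in Ioo 0 π, ((Real.sin u ^ i : ℝ) : ℂ) *
        F (i + 1) y (z * Real.cos u)‖ₑ ^ p) * ENNReal.ofReal (z ^ (i + 1))
      ≤ ∫⁻ z in Icc Z (2 * Z), (K univ ^ (p - 1) * ENNReal.ofReal ((2 * Z) ^ (i + 1))) *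
          ∫⁻ q, (∫⁻ y, ‖F q.1 y (z * q.2)‖ₑ ^ p) ∂K := by
        refine setLIntegral_mono' measurableSet_Icc fun z hz => ?_
        rw [mul_right_comm]
        refine mul_le_mul' (hA z hz) (ENNReal.ofReal_le_ofReal ?_)
        have h0 : 0 ≤ z := by linarith [hz.1]
        exact pow_le_pow_left₀ h0 hz.2 _
    _ = (K univ ^ (p - 1) * ENNReal.ofReal ((2 * Z) ^ (i + 1))) *
          ∫⁻ z in Icc Z (2 * Z), ∫⁻ q, (∫⁻ y, ‖F q.1 y (z * q.2)‖ₑ ^ p) ∂K := by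
        rw [lintegral_const_mul _ hMq.lintegral_prod_right']
    _ ≤ ((C₂ * ENNReal.ofReal (Z ^ (-a))) ^ (p - 1) * ENNReal.ofReal ((2 * Z) ^ (i + 1))) *
          (C₁ * ENNReal.ofReal ((2 * Z) ^ (1 - ϑ)) * (C₂ * ENNReal.ofReal (Z ^ (-a)))) := by
        refine mul_le_mul' (mul_le_mul' (ENNReal.rpow_le_rpow hKu (by linarith)) le_rfl) hmain
    _ = C₁ * ((C₂ * ENNReal.ofReal (Z ^ (-a))) ^ (p - 1) * (C₂ * ENNReal.ofReal (Z ^ (-a))) ^ (1:ℝ)) *
          (ENNReal.ofReal ((2 * Z) ^ (i + 1)) * ENNReal.ofReal ((2 * Z) ^ (1 - ϑ))) := by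
        rw [ENNReal.rpow_one]; ring
    _ = C₁ * C₂ ^ p * (ENNReal.ofReal (Z ^ (-a * p)) *
          (ENNReal.ofReal ((2 * Z) ^ (i + 1)) * ENNReal.ofReal ((2 * Z) ^ (1 - ϑ)))) := by
        rw [← ENNReal.rpow_add_of_nonneg _ _ (by linarith) (by norm_num), sub_add_cancel,
          ENNReal.mul_rpow_of_nonneg _ _ hp0.le, ENNReal.ofReal_rpow_of_pos (by positivity),
          ← Real.rpow_mul hZ0.le]
        ring
    _ = _ := by
        rw [← ENNReal.ofReal_mul (by positivity), ← ENNReal.ofReal_mul (by positivity)]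
        congr 2
        rw [← Real.rpow_natCast, Real.mul_rpow (by norm_num) hZ0.le,
          Real.mul_rpow (by norm_num) hZ0.le]
        have e1 : (2:ℝ) ^ ((i : ℝ) + 2 - ϑ) = 2 ^ ((i + 1 : ℕ) : ℝ) * 2 ^ (1 - ϑ) := by
          rw [← Real.rpow_add (by norm_num)]
          congr 1
          push_cast
          ring
        have e2 : Z ^ (1 - ((i : ℝ) + 1) * (p - 2) / 2 - ϑ) =
            Z ^ (-a * p) * (Z ^ ((i + 1 : ℕ) : ℝ) * Z ^ (1 - ϑ)) := by
          rw [← Real.rpow_add hZ0, ← Real.rpow_add hZ0]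
          congr 1
          rw [ha]
          push_cast
          ring
        rw [e1, e2]
        ring

lemma liftE2_trivial (κ i : ℕ) {p : ℝ} (hp : 2 < p) {C₀ : ℝ≥0∞}
    (F : E (κ + 1) → ℝ → ℂ) (hF : Measurable fun q : E (κ + 1) × ℝ => F q.1 q.2)
    (hs : ∀ v : ℝ, ∫⁻ y, ‖F y v‖ₑ ^ p ≤ C₀) (z : ℝ) :
    (∫⁻ y, ‖∫ u in Ioo 0 π, ((Real.sin u ^ i : ℝ) : ℂ) * F y (z * Real.cos u)‖ₑ ^ p) ≤
      ENNReal.ofReal π ^ (p - 1) * (C₀ * ENNReal.ofReal π) := by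
  have hp0 : 0 < p := by linarith
  have hvol : ∫⁻ _u in Ioo 0 π, (1 : ℝ≥0∞) = ENNReal.ofReal π := by
    rw [setLIntegral_one, Real.volume_Ioo, sub_zero]
  have hm : Measurable fun x : E (κ + 1) × ℝ => ‖F x.1 (z * Real.cos x.2)‖ₑ ^ p := by
    have h2 : Measurable fun x : E (κ + 1) × ℝ => ((x.1, z * Real.cos x.2) : E (κ + 1) × ℝ) := by
      fun_prop
    exact (hF.comp h2).enorm.pow_const p
  have hm1 : ∀ y : E (κ + 1), Measurable fun u : ℝ => ‖F y (z * Real.cos u)‖ₑ := by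
    intro y
    have h2 : Measurable fun u : ℝ => ((y, z * Real.cos u) : E (κ + 1) × ℝ) := by
      fun_prop
    exact (hF.comp h2).enorm
  calc (∫⁻ y, ‖∫ u in Ioo 0 π, ((Real.sin u ^ i : ℝ) : ℂ) * F y (z * Real.cos u)‖ₑ ^ p)
      ≤ ∫⁻ y, ENNReal.ofReal π ^ (p - 1) * ∫⁻ u in Ioo 0 π, ‖F y (z * Real.cos u)‖ₑ ^ p := by
        refine lintegral_mono fun y => ?_
        calc ‖∫ u in Ioo 0 π, ((Real.sin u ^ i : ℝ) : ℂ) * F y (z * Real.cos u)‖ₑ ^ p
            ≤ (∫⁻ u in Ioo 0 π, 1 * ‖F y (z * Real.cos u)‖ₑ) ^ p := by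
              refine ENNReal.rpow_le_rpow ?_ hp0.le
              refine (enorm_integral_le_lintegral_enorm _).trans ?_
              refine lintegral_mono fun u => ?_
              simp only
              rw [enorm_mul]
              refine mul_le_mul' ?_ le_rfl
              rw [← ofReal_norm, Complex.norm_real, Real.norm_eq_abs, abs_pow,
                ← ENNReal.ofReal_one]
              exact ENNReal.ofReal_le_ofReal (pow_le_one₀ (abs_nonneg _) (Real.abs_sin_le_one u))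
          _ ≤ (∫⁻ _u in Ioo 0 π, 1) ^ (p - 1) *
                ∫⁻ u in Ioo 0 π, 1 * ‖F y (z * Real.cos u)‖ₑ ^ p :=
              holder_weight _ (fun _ => 1) _ measurable_const (hm1 y) (by linarith)
          _ = _ := by rw [hvol]; simp
    _ = ENNReal.ofReal π ^ (p - 1) * ∫⁻ y, ∫⁻ u in Ioo 0 π, ‖F y (z * Real.cos u)‖ₑ ^ p := by
        rw [lintegral_const_mul _ hm.lintegral_prod_right']
    _ = ENNReal.ofReal π ^ (p - 1) * ∫⁻ u in Ioo 0 π, ∫⁻ y, ‖F y (z * Real.cos u)‖ₑ ^ p := by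
        rw [lintegral_lintegral_swap
          (f := fun (y : E (κ + 1)) (u : ℝ) => ‖F y (z * Real.cos u)‖ₑ ^ p) hm.aemeasurable]
    _ ≤ ENNReal.ofReal π ^ (p - 1) * ∫⁻ _u in Ioo 0 π, C₀ := by
        gcongr with u
        exact hs _
    _ = _ := by
        rw [lintegral_const, Measure.restrict_apply_univ, Real.volume_Ioo, sub_zero]

/-- The radial integral: all shells together, for an abstract family of functions. -/
lemma liftE2_radial (κ i : ℕ) {p ϑ : ℝ} (hp : 2 < p) {C₀ C₁ C₂ : ℝ≥0∞}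
    (hN : ∀ Z : ℝ, 1 ≤ Z → ∃ K : Measure (ℕ × ℝ), IsFiniteMeasure K ∧
      ∫⁻ q, ENNReal.ofReal (1 + |q.2| ^ (-ϑ)) ∂K ≤
        C₂ * ENNReal.ofReal (Z ^ (-(((i : ℝ) + 1) / 2))) ∧
      (∀ᵐ q ∂K, q.1 ≤ i + 1 ∧ q.2 ≠ 0 ∧ |q.2| ≤ 1) ∧
      ∀ f : ℕ → ℝ → ℂ,
        (∀ j v, HasDerivAt (f j) (-(2 * π * Complex.I) * f (j + 1) v) v) →
        ∀ z ∈ Icc Z (2 * Z),
          ‖∫ u in Ioo 0 π, ((Real.sin u ^ i : ℝ) : ℂ) * f (i + 1) (z * Real.cos u)‖ₑ ≤
            ∫⁻ q, ‖f q.1 (z * q.2)‖ₑ ∂K)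
    (F : ℕ → E (κ + 1) → ℝ → ℂ)
    (hF : Measurable fun q : ℕ × (E (κ + 1) × ℝ) => F q.1 q.2.1 q.2.2)
    (hd : ∀ j y v, HasDerivAt (F j y) (-(2 * π * Complex.I) * F (j + 1) y v) v)
    (hV : ∀ j ≤ i + 1, ∀ V : ℝ, 0 < V →
      ∫⁻ v in Icc (-V) V, ∫⁻ y, ‖F j y v‖ₑ ^ p ≤ C₁ * ENNReal.ofReal (V ^ (1 - ϑ)))
    (hs : ∀ v : ℝ, ∫⁻ y, ‖F (i + 1) y v‖ₑ ^ p ≤ C₀) :
    ∫⁻ z in Ioi (0:ℝ), (∫⁻ y, ‖∫ u in Ioo 0 π, ((Real.sin u ^ i : ℝ) : ℂ) *
        F (i + 1) y (z * Real.cos u)‖ₑ ^ p) * ENNReal.ofReal (z ^ (i + 1)) ≤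
      ENNReal.ofReal π ^ (p - 1) * (C₀ * ENNReal.ofReal π) +
        C₁ * C₂ ^ p * ENNReal.ofReal (2 ^ ((i : ℝ) + 2 - ϑ)) *
          (1 - ENNReal.ofReal (2 ^ (1 - ((i : ℝ) + 1) * (p - 2) / 2 - ϑ)))⁻¹ := by
  have hFm1 : Measurable fun q : E (κ + 1) × ℝ => F (i + 1) q.1 q.2 :=
    hF.comp (f := fun q : E (κ + 1) × ℝ => ((i + 1, q) : ℕ × (E (κ + 1) × ℝ))) (by fun_prop)
  refine (liftE2_Ioi _).trans (add_le_add ?_ ?_)
  · calc ∫⁻ z in Ioc (0:ℝ) 1, (∫⁻ y, ‖∫ u in Ioo 0 π, ((Real.sin u ^ i : ℝ) : ℂ) *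
          F (i + 1) y (z * Real.cos u)‖ₑ ^ p) * ENNReal.ofReal (z ^ (i + 1))
        ≤ ∫⁻ _z in Ioc (0:ℝ) 1, ENNReal.ofReal π ^ (p - 1) * (C₀ * ENNReal.ofReal π) := by
          refine setLIntegral_mono' measurableSet_Ioc fun z hz => ?_
          rw [← mul_one (ENNReal.ofReal π ^ (p - 1) * (C₀ * ENNReal.ofReal π))]
          refine mul_le_mul' (liftE2_trivial κ i hp (F (i + 1)) hFm1 hs z) ?_
          rw [← ENNReal.ofReal_one]
          exact ENNReal.ofReal_le_ofReal (pow_le_one₀ hz.1.le hz.2)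
      _ = _ := by
          rw [lintegral_const, Measure.restrict_apply_univ, Real.volume_Ioc]
          simp
  · rw [← ENNReal.tsum_geometric, ← ENNReal.tsum_mul_left]
    refine ENNReal.tsum_le_tsum fun m => ?_
    have hZ : (1:ℝ) ≤ 2 ^ m := one_le_pow₀ (by norm_num)
    obtain ⟨K, hKf, hK1, hK2, hK3⟩ := hN (2 ^ m) hZ
    refine (liftE2_shell κ i (p := p) (ϑ := ϑ) hp (C₁ := C₁) (C₂ := C₂) F hF hd
      hV hZ K hK1 hK2 hK3).trans (le_of_eq ?_)
    rw [ENNReal.ofReal_mul (by positivity), ← mul_assoc]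
    congr 1
    rw [← ENNReal.ofReal_pow (by positivity)]
    congr 1
    rw [← Real.rpow_natCast (2 ^ _), ← Real.rpow_natCast 2,
      ← Real.rpow_mul (by norm_num), ← Real.rpow_mul (by norm_num), mul_comm]

lemma liftE2_meas (κ i : ℕ) (p : ℝ) (F : E (κ + 1) → ℝ → ℂ)
    (hF : Measurable fun q : E (κ + 1) × ℝ => F q.1 q.2) :
    Measurable fun x : ℝ × E (κ + 1) => ‖∫ u in Ioo 0 π, ((Real.sin u ^ i : ℝ) : ℂ) *
      F x.2 (x.1 * Real.cos u)‖ₑ ^ p := by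
  have h4 : Measurable fun x : (ℝ × E (κ + 1)) × ℝ => F x.1.2 (x.1.1 * Real.cos x.2) := by
    have h5 : Measurable fun x : (ℝ × E (κ + 1)) × ℝ =>
        ((x.1.2, x.1.1 * Real.cos x.2) : E (κ + 1) × ℝ) := by fun_prop
    exact hF.comp h5
  have h6 : Measurable fun x : (ℝ × E (κ + 1)) × ℝ => ((Real.sin x.2 ^ i : ℝ) : ℂ) := by
    fun_prop
  have h7 : Measurable fun x : (ℝ × E (κ + 1)) × ℝ => ((Real.sin x.2 ^ i : ℝ) : ℂ) *
      F x.1.2 (x.1.1 * Real.cos x.2) := h6.mul h4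
  exact (h7.stronglyMeasurable.integral_prod_right'
    (ν := volume.restrict (Ioo 0 π))).measurable.enorm.pow_const p

/-- Reduction of the lifted estimate to the radial integral. -/
lemma liftE2_reduce (κ i : ℕ) {p : ℝ} (hp0 : 0 < p) (G : E (κ + 2) → ℂ) (hG : Measurable G)
    (hb : ∀ x, ‖G x‖ ≤ 1) :
    ∫⁻ ξ, ‖extn (lift G : E ((κ + 1) + (i + 2)) → ℂ) ξ‖ₑ ^ p =
      ‖(((sm (i + 1)).real univ : ℝ) : ℂ)‖ₑ ^ p * (sm (i + 2) univ *
        ∫⁻ z in Ioi (0:ℝ), (∫⁻ y, ‖∫ u in Ioo 0 π, ((Real.sin u ^ i : ℝ) : ℂ) *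
          extn (tpow (i + 1) G) (join y (z * Real.cos u))‖ₑ ^ p) *
            ENNReal.ofReal (z ^ (i + 1))) := by
  have hFm1 : Measurable fun q : E (κ + 1) × ℝ => extn (tpow (i + 1) G) (join q.1 q.2) :=
    (liftE2_measurable_F G hG).comp
      (f := fun q : E (κ + 1) × ℝ => ((i + 1, q) : ℕ × (E (κ + 1) × ℝ))) (by fun_prop)
  have hΞm := liftE2_meas κ i p (fun y v => extn (tpow (i + 1) G) (join y v)) hFm1
  beta_reduce at hΞm
  have hΦm : Measurable fun z : ℝ => ∫⁻ y : E (κ + 1), ‖∫ u in Ioo 0 π,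
      ((Real.sin u ^ i : ℝ) : ℂ) *
        extn (tpow (i + 1) G) (join y (z * Real.cos u))‖ₑ ^ p := hΞm.lintegral_prod_right'
  have hext : Measurable fun ξ => ‖extn (lift G : E ((κ + 1) + (i + 2)) → ℂ) ξ‖ₑ ^ p :=
    (measurable_extn _ (liftE2_measurable_lift G hG)).enorm.pow_const p
  have hbjm : Measurable fun x : E (κ + 1) × E (i + 2) =>
      ‖extn (lift G : E ((κ + 1) + (i + 2)) → ℂ) (bj x.1 x.2)‖ₑ ^ p :=
    hext.comp continuous_bj.measurable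
  rw [lintegral_bj (κ + 1) (i + 2) _ hext, lintegral_lintegral_swap
    (f := fun (y : E (κ + 1)) (w : E (i + 2)) =>
      ‖extn (lift G : E ((κ + 1) + (i + 2)) → ℂ) (bj y w)‖ₑ ^ p) hbjm.aemeasurable]
  have hw : ∀ w : E (i + 2), ∫⁻ y : E (κ + 1),
      ‖extn (lift G : E ((κ + 1) + (i + 2)) → ℂ) (bj y w)‖ₑ ^ p =
      ‖(((sm (i + 1)).real univ : ℝ) : ℂ)‖ₑ ^ p * ∫⁻ y : E (κ + 1), ‖∫ u in Ioo 0 π,
      ((Real.sin u ^ i : ℝ) : ℂ) *
        extn (tpow (i + 1) G) (join y (‖w‖ * Real.cos u))‖ₑ ^ p := by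
    intro w
    have h4 : Measurable fun y : E (κ + 1) => ‖∫ u in Ioo 0 π, ((Real.sin u ^ i : ℝ) : ℂ) *
        extn (tpow (i + 1) G) (join y (‖w‖ * Real.cos u))‖ₑ ^ p :=
      hΞm.comp (f := fun y : E (κ + 1) => (‖w‖, y)) (by fun_prop)
    rw [← lintegral_const_mul _ h4]
    refine lintegral_congr fun y => ?_
    rw [extn_lift κ i G hG hb y w, enorm_mul, ENNReal.mul_rpow_of_nonneg _ _ hp0.le]
  have hΦn : Measurable fun w : E (i + 2) => ∫⁻ y : E (κ + 1), ‖∫ u in Ioo 0 π,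
      ((Real.sin u ^ i : ℝ) : ℂ) *
        extn (tpow (i + 1) G) (join y (‖w‖ * Real.cos u))‖ₑ ^ p := hΦm.comp measurable_norm
  calc ∫⁻ w : E (i + 2), ∫⁻ y : E (κ + 1),
        ‖extn (lift G : E ((κ + 1) + (i + 2)) → ℂ) (bj y w)‖ₑ ^ p
      = ∫⁻ w : E (i + 2), ‖(((sm (i + 1)).real univ : ℝ) : ℂ)‖ₑ ^ p *
          ∫⁻ y : E (κ + 1), ‖∫ u in Ioo 0 π, ((Real.sin u ^ i : ℝ) : ℂ) *
            extn (tpow (i + 1) G) (join y (‖w‖ * Real.cos u))‖ₑ ^ p := lintegral_congr hw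
    _ = ‖(((sm (i + 1)).real univ : ℝ) : ℂ)‖ₑ ^ p * ∫⁻ w : E (i + 2),
          ∫⁻ y : E (κ + 1), ‖∫ u in Ioo 0 π, ((Real.sin u ^ i : ℝ) : ℂ) *
            extn (tpow (i + 1) G) (join y (‖w‖ * Real.cos u))‖ₑ ^ p :=
        lintegral_const_mul _ hΦn
    _ = _ := congrArg _ (liftE2_polar i _ hΦm)

/-- The estimate for exponents in the open range. -/
lemma liftE2_core (κ i : ℕ) (q₁ : ℝ) (hq₁ : 2 < q₁) (cls : (E (κ + 2) → ℂ) → Prop)
    (H : ∀ (j : ℕ) (q : ℝ), q₁ < q → ∃ C : ℝ≥0∞, C ≠ ∞ ∧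
      ∀ G : E (κ + 2) → ℂ, Measurable G → (∀ x, ‖G x‖ ≤ 1) → cls G →
        ∫⁻ ξ, ‖extn (tpow j G) ξ‖ₑ ^ q ≤ C)
    (p : ℝ) (hp2 : 2 < p) (hpq : 1 / (p - 2) < ((i : ℝ) + 1) / 2 + 1 / (q₁ - 2))
    (hp' : p < q₁) :
    ∃ C : ℝ≥0∞, C ≠ ∞ ∧ ∀ G : E (κ + 2) → ℂ, Measurable G → (∀ x, ‖G x‖ ≤ 1) → cls G →
      ∫⁻ ξ, ‖extn (lift G : E ((κ + 1) + (i + 2)) → ℂ) ξ‖ₑ ^ p ≤ C := by
  have hp0 : 0 < p := by linarith
  have hthr : 1 - ((i : ℝ) + 1) * (p - 2) / 2 < (p - 2) / (q₁ - 2) := by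
    have h1 : 0 < p - 2 := by linarith
    have h2 := mul_lt_mul_of_pos_right hpq h1
    rw [one_div_mul_cancel h1.ne', add_mul, one_div_mul_eq_div] at h2
    linarith
  obtain ⟨ϑ, h1, h2, h3, C₁, hC₁, hS⟩ := slab_vol κ q₁ hq₁ cls H p hp2 hp' _ hthr (i + 1)
  obtain ⟨C₂, hC₂, hN⟩ := near_far i ϑ h2.le h3
  obtain ⟨C₀, hC₀, hsl⟩ := slab κ p hp2
  refine ⟨‖(((sm (i + 1)).real univ : ℝ) : ℂ)‖ₑ ^ p * (sm (i + 2) univ *
      (ENNReal.ofReal π ^ (p - 1) * (C₀ * ENNReal.ofReal π) +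
        C₁ * C₂ ^ p * ENNReal.ofReal (2 ^ ((i : ℝ) + 2 - ϑ)) *
          (1 - ENNReal.ofReal (2 ^ (1 - ((i : ℝ) + 1) * (p - 2) / 2 - ϑ)))⁻¹)), ?_, ?_⟩
  · have hr1 : ENNReal.ofReal (2 ^ (1 - ((i : ℝ) + 1) * (p - 2) / 2 - ϑ)) < 1 := by
      rw [← ENNReal.ofReal_one]
      refine (ENNReal.ofReal_lt_ofReal_iff one_pos).2 ?_
      exact Real.rpow_lt_one_of_one_lt_of_neg (by norm_num) (by linarith)
    have t4 : (1 - ENNReal.ofReal (2 ^ (1 - ((i : ℝ) + 1) * (p - 2) / 2 - ϑ)))⁻¹ ≠ ∞ := by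
      rw [ENNReal.inv_ne_top]
      exact (tsub_pos_of_lt hr1).ne'
    refine ENNReal.mul_ne_top (ENNReal.rpow_ne_top_of_nonneg hp0.le enorm_ne_top)
      (ENNReal.mul_ne_top (sm_univ_ne_top _) (ENNReal.add_ne_top.2
        ⟨ENNReal.mul_ne_top (ENNReal.rpow_ne_top_of_nonneg (by linarith) ENNReal.ofReal_ne_top)
        (ENNReal.mul_ne_top hC₀ ENNReal.ofReal_ne_top), ENNReal.mul_ne_top (ENNReal.mul_ne_top
          (ENNReal.mul_ne_top hC₁ (ENNReal.rpow_ne_top_of_nonneg hp0.le hC₂))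
        ENNReal.ofReal_ne_top) t4⟩))
  intro G hG hb hc
  rw [liftE2_reduce κ i hp0 G hG hb]
  refine mul_le_mul' le_rfl (mul_le_mul' le_rfl ?_)
  exact liftE2_radial κ i hp2 hN (fun j y v => extn (tpow j G) (join y v))
    (liftE2_measurable_F G hG) (fun j y v => hasDerivAt_tpow κ j G hG hb y v)
    (fun j hj V hV => hS G hG hb hc j hj V hV) (fun v => hsl G hG hb (i + 1) v)

theorem lifting (κ i : ℕ) (q₁ : ℝ) (hq₁ : 2 < q₁) (cls : (E (κ + 2) → ℂ) → Prop)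
    (H : ∀ (j : ℕ) (q : ℝ), q₁ < q → ∃ C : ℝ≥0∞, C ≠ ∞ ∧
      ∀ G : E (κ + 2) → ℂ, Measurable G → (∀ x, ‖G x‖ ≤ 1) → cls G →
        ∫⁻ ξ, ‖extn (tpow j G) ξ‖ₑ ^ q ≤ C)
    (p : ℝ) (hp : 2 < p) (hpq : 1 / (p - 2) < ((i : ℝ) + 1) / 2 + 1 / (q₁ - 2)) :
    ∃ C : ℝ≥0∞, C ≠ ∞ ∧ ∀ G : E (κ + 2) → ℂ, Measurable G → (∀ x, ‖G x‖ ≤ 1) → cls G →
      ∫⁻ ξ, ‖extn (lift G : E ((κ + 1) + (i + 2)) → ℂ) ξ‖ₑ ^ p ≤ C := by
  by_cases hp' : p < q₁
  · exact liftE2_core κ i q₁ hq₁ cls H p hp hpq hp'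
  push Not at hp'
  have hq0 : 0 < q₁ - 2 := by linarith
  have hD : 0 < ((i : ℝ) + 1) / 2 + 1 / (q₁ - 2) := by positivity
  have hlt : 1 / (((i : ℝ) + 1) / 2 + 1 / (q₁ - 2)) < q₁ - 2 := by
    rw [div_lt_iff₀ hD, mul_add, mul_one_div_cancel hq0.ne']
    have : 0 < (q₁ - 2) * (((i : ℝ) + 1) / 2) := by positivity
    linarith
  obtain ⟨s, hs1, hs2⟩ := exists_between hlt
  have hs0 : 0 < s := lt_trans (by positivity) hs1
  have hs3 : 1 / ((2 + s) - 2) < ((i : ℝ) + 1) / 2 + 1 / (q₁ - 2) := by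
    rw [add_sub_cancel_left, div_lt_iff₀ hs0]
    rwa [div_lt_iff₀ hD, mul_comm] at hs1
  obtain ⟨C, hC, h⟩ := liftE2_core κ i q₁ hq₁ cls H (2 + s) (by linarith) hs3 (by linarith)
  refine ⟨sm ((κ + 1) + (i + 2)) univ ^ (p - (2 + s)) * C,
    ENNReal.mul_ne_top (ENNReal.rpow_ne_top_of_nonneg (by linarith) (sm_univ_ne_top _)) hC, ?_⟩
  intro G hG hb hc
  refine (lintegral_rpow_le_sup (p := p) (p' := 2 + s)
    (fun ξ => ‖extn (lift G : E ((κ + 1) + (i + 2)) → ℂ) ξ‖ₑ)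
    (measurable_extn _ (liftE2_measurable_lift G hG)).enorm
    (by linarith) (by linarith) _ (fun ξ => liftE2_enorm_extn_le _ (fun x => hb _) ξ)).trans ?_
  exact mul_le_mul' le_rfl (h G hG hb hc)

end Pool.Agent.SDT.MP_6cbfb8_an

end -- MP_6cbfb8_an.LiftE2
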