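import Pool.Agent.SDT.B06
import Pool.Agent.SDT.B12
import Pool.Agent.SDT.B15

set_option autoImplicit false

namespace Pool.Agent.SDT.MP_6cbfb8_an
end Pool.Agent.SDT.MP_6cbfb8_an
namespace Pool.Agent.SDT.MST
end Pool.Agent.SDT.MST
namespace Pool.Agent.SDT.N1
end Pool.Agent.SDT.N1
namespace Pool.Agent.SDT.N1F
end Pool.Agent.SDT.N1F
namespace Pool.Agent.SDT.N1G
end Pool.Agent.SDT.N1G
namespace Pool.Agent.SDT.N1M
end Pool.Agent.SDT.N1M

section -- MST.CH

namespace Pool.Agent.SDT.MST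

open MeasureTheory Set Pool.Agent.SDT.MP_6cbfb8_an
open scoped ENNReal Real

lemma hch_image_sin : Real.sin '' Ioo 0 (π / 2) = Ioo 0 1 := by
  ext y
  constructor
  · rintro ⟨θ, ⟨h0, h1⟩, rfl⟩
    refine ⟨Real.sin_pos_of_pos_of_lt_pi h0 (by linarith [Real.pi_pos]), ?_⟩
    have h2 := Real.sin_lt_sin_of_lt_of_le_pi_div_two (by linarith [Real.pi_pos]) le_rfl h1
    rwa [Real.sin_pi_div_two] at h2
  · rintro ⟨h0, h1⟩
    refine ⟨Real.arcsin y, ⟨Real.arcsin_pos.mpr h0, ?_⟩, Real.sin_arcsin (by linarith) h1.le⟩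
    rw [Real.arcsin_lt_pi_div_two]
    exact h1

lemma hch_measurable_graph (n : ℕ) :
    Measurable fun u : E (n + 1) => (join u √(1 - ‖u‖ ^ 2) : E (n + 2)) := by
  exact measurable_join.comp (f := fun u : E (n + 1) => (u, √(1 - ‖u‖ ^ 2))) (by fun_prop)

theorem chart_lintegral (n : ℕ) (φ : E (n + 2) → ℝ≥0∞) (hφ : Measurable φ) :
    ∫⁻ x : S (n + 2), (if 0 < (x : E (n + 2)) (Fin.last (n + 1)) then φ x else 0) ∂(sm (n + 2)) =
      ∫⁻ u in Metric.ball (0 : E (n + 1)) 1, φ (join u √(1 - ‖u‖ ^ 2)) *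
        ENNReal.ofReal (1 / √(1 - ‖u‖ ^ 2)) := by
  classical
  -- left side
  have hms : MeasurableSet {x : E (n + 2) | 0 < x (Fin.last (n + 1))} :=
    measurableSet_lt measurable_const (by fun_prop)
  have hΦ : Measurable fun x : E (n + 2) => if 0 < x (Fin.last (n + 1)) then φ x else 0 :=
    Measurable.ite hms hφ measurable_const
  have hL := lintegral_slice n (fun x : E (n + 2) => if 0 < x (Fin.last (n + 1)) then φ x else 0) hΦ
  rw [hL]
  have hpt : Measurable fun q : ℝ × S (n + 1) => φ (pt q.1 (q.2 : E (n + 1))) := by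
    refine hφ.comp (measurable_pt.comp (f := fun q : ℝ × S (n + 1) => (q.1, (q.2 : E (n + 1)))) ?_)
    fun_prop
  have hA : ∫⁻ θ in Ioo 0 π, ENNReal.ofReal (Real.sin θ ^ n) *
        (∫⁻ ω : S (n + 1), (if 0 < (pt θ (ω : E (n + 1))) (Fin.last (n + 1)) then
          φ (pt θ (ω : E (n + 1))) else 0) ∂(sm (n + 1))) =
      ∫⁻ θ in Ioo 0 (π / 2), ENNReal.ofReal (Real.sin θ ^ n) *
        (∫⁻ ω : S (n + 1), φ (pt θ (ω : E (n + 1))) ∂(sm (n + 1))) := by
    rw [← lintegral_indicator measurableSet_Ioo, ← lintegral_indicator measurableSet_Ioo]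
    refine lintegral_congr fun θ => ?_
    have hlast : ∀ ω : S (n + 1), (pt θ (ω : E (n + 1))) (Fin.last (n + 1)) = Real.cos θ := by
      intro ω
      unfold pt
      exact join_last _ _
    by_cases h1 : θ ∈ Ioo 0 (π / 2)
    · have h2 : θ ∈ Ioo 0 π := ⟨h1.1, by linarith [h1.2, Real.pi_pos]⟩
      have hc : 0 < Real.cos θ := Real.cos_pos_of_mem_Ioo ⟨by linarith [h1.1, Real.pi_pos], h1.2⟩
      rw [indicator_of_mem h2, indicator_of_mem h1]
      congr 1
      refine lintegral_congr fun ω => ?_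
      rw [hlast, if_pos hc]
    · rw [indicator_of_notMem h1]
      by_cases h2 : θ ∈ Ioo 0 π
      · rw [indicator_of_mem h2]
        have h3 : π / 2 ≤ θ := by
          by_contra hcon
          exact h1 ⟨h2.1, not_le.mp hcon⟩
        have hc : ¬ 0 < Real.cos θ :=
          not_lt.mpr (Real.cos_nonpos_of_pi_div_two_le_of_le h3 (by linarith [h2.2, Real.pi_pos]))
        have h4 : ∫⁻ ω : S (n + 1), (if 0 < (pt θ (ω : E (n + 1))) (Fin.last (n + 1)) then
          φ (pt θ (ω : E (n + 1))) else 0) ∂(sm (n + 1)) = 0 := by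
          refine (lintegral_congr fun ω => ?_).trans lintegral_zero
          rw [hlast, if_neg hc]
        rw [h4, mul_zero]
      · rw [indicator_of_notMem h2]
  refine Eq.trans hA ?_
  -- right side
  have hψ : Measurable fun u : E (n + 1) => φ (join u √(1 - ‖u‖ ^ 2)) *
      ENNReal.ofReal (1 / √(1 - ‖u‖ ^ 2)) :=
    (hφ.comp (hch_measurable_graph n)).mul (by fun_prop)
  rw [← lintegral_indicator Metric.isOpen_ball.measurableSet,
    lintegral_polar n _ (hψ.indicator Metric.isOpen_ball.measurableSet)]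
  have hB : ∀ ω : S (n + 1), ∫⁻ ρ in Ioi (0:ℝ),
      (Metric.ball (0 : E (n + 1)) 1).indicator (fun u : E (n + 1) => φ (join u √(1 - ‖u‖ ^ 2)) *
        ENNReal.ofReal (1 / √(1 - ‖u‖ ^ 2))) (ρ • (ω : E (n + 1))) * ENNReal.ofReal (ρ ^ n) =
      ∫⁻ θ in Ioo 0 (π / 2), ENNReal.ofReal (Real.sin θ ^ n) * φ (pt θ (ω : E (n + 1))) := by
    intro ω
    have hω : ‖(ω : E (n + 1))‖ = 1 := mem_sphere_zero_iff_norm.mp ω.2
    have h1 : ∫⁻ ρ in Ioi (0:ℝ),
      (Metric.ball (0 : E (n + 1)) 1).indicator (fun u : E (n + 1) => φ (join u √(1 - ‖u‖ ^ 2)) *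
        ENNReal.ofReal (1 / √(1 - ‖u‖ ^ 2))) (ρ • (ω : E (n + 1))) * ENNReal.ofReal (ρ ^ n) =
        ∫⁻ ρ in Ioo (0:ℝ) 1, φ (join (ρ • (ω : E (n + 1))) √(1 - ρ ^ 2)) *
          ENNReal.ofReal (1 / √(1 - ρ ^ 2)) * ENNReal.ofReal (ρ ^ n) := by
      rw [← lintegral_indicator measurableSet_Ioi, ← lintegral_indicator measurableSet_Ioo]
      refine lintegral_congr fun ρ => ?_
      by_cases h0 : 0 < ρ
      · have hn : ‖ρ • (ω : E (n + 1))‖ = ρ := by
          rw [norm_smul, hω, mul_one, Real.norm_of_nonneg h0.le]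
        rw [indicator_of_mem (show ρ ∈ Ioi (0:ℝ) from h0)]
        by_cases h2 : ρ < 1
        · rw [indicator_of_mem (show ρ ∈ Ioo (0:ℝ) 1 from ⟨h0, h2⟩), indicator_of_mem]
          · rw [hn]
          · rw [mem_ball_zero_iff, hn]; exact h2
        · rw [indicator_of_notMem (show ρ ∉ Ioo (0:ℝ) 1 from fun h => h2 h.2),
            indicator_of_notMem, zero_mul]
          rw [mem_ball_zero_iff, hn]; exact h2
      · rw [indicator_of_notMem (show ρ ∉ Ioi (0:ℝ) from h0),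
          indicator_of_notMem (show ρ ∉ Ioo (0:ℝ) 1 from fun h => h0 h.1)]
    rw [h1, ← hch_image_sin, lintegral_image_eq_lintegral_abs_deriv_mul measurableSet_Ioo
      (f := Real.sin) (f' := Real.cos) (fun x _ => (Real.hasDerivAt_sin x).hasDerivWithinAt)]
    · refine setLIntegral_congr_fun measurableSet_Ioo fun θ hθ => ?_
      have hc : 0 < Real.cos θ := Real.cos_pos_of_mem_Ioo ⟨by linarith [hθ.1, Real.pi_pos], hθ.2⟩
      have hs : √(1 - Real.sin θ ^ 2) = Real.cos θ := by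
        rw [← Real.cos_sq', Real.sqrt_sq hc.le]
      simp only [hs]
      rw [abs_of_pos hc]
      have h5 : ENNReal.ofReal (Real.cos θ) * ENNReal.ofReal (1 / Real.cos θ) = 1 := by
        rw [← ENNReal.ofReal_mul hc.le, mul_one_div_cancel hc.ne', ENNReal.ofReal_one]
      have h6 : (join (Real.sin θ • (ω : E (n + 1))) (Real.cos θ) : E (n + 2)) =
        pt θ (ω : E (n + 1)) := rfl
      rw [h6]
      calc ENNReal.ofReal (Real.cos θ) * (φ (pt θ (ω : E (n + 1))) *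
          ENNReal.ofReal (1 / Real.cos θ) * ENNReal.ofReal (Real.sin θ ^ n))
          = (ENNReal.ofReal (Real.cos θ) * ENNReal.ofReal (1 / Real.cos θ)) *
            (ENNReal.ofReal (Real.sin θ ^ n) * φ (pt θ (ω : E (n + 1)))) := by ring
        _ = _ := by rw [h5, one_mul]
    · intro x hx y hy hxy
      exact Real.injOn_sin ⟨by linarith [hx.1, Real.pi_pos], hx.2.le⟩
        ⟨by linarith [hy.1, Real.pi_pos], hy.2.le⟩ hxy
  have hptθ : ∀ θ : ℝ, Measurable fun ω : S (n + 1) => φ (pt θ (ω : E (n + 1))) := fun θ =>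
    hφ.comp (measurable_pt.comp (f := fun ω : S (n + 1) => (θ, (ω : E (n + 1)))) (by fun_prop))
  have hm2 : Measurable (Function.uncurry fun (θ : ℝ) (ω : S (n + 1)) =>
      ENNReal.ofReal (Real.sin θ ^ n) * φ (pt θ (ω : E (n + 1)))) := by
    refine Measurable.mul ?_ hpt
    fun_prop
  rw [lintegral_congr hB]
  calc ∫⁻ θ in Ioo 0 (π / 2), ENNReal.ofReal (Real.sin θ ^ n) *
        (∫⁻ ω : S (n + 1), φ (pt θ (ω : E (n + 1))) ∂(sm (n + 1)))
      = ∫⁻ θ in Ioo 0 (π / 2), (∫⁻ ω : S (n + 1), ENNReal.ofReal (Real.sin θ ^ n) *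
          φ (pt θ (ω : E (n + 1))) ∂(sm (n + 1))) := by
        refine lintegral_congr fun θ => ?_
        exact (lintegral_const_mul _ (hptθ θ)).symm
    _ = ∫⁻ ω : S (n + 1), (∫⁻ θ in Ioo 0 (π / 2), ENNReal.ofReal (Real.sin θ ^ n) *
          φ (pt θ (ω : E (n + 1)))) ∂(sm (n + 1)) :=
        lintegral_lintegral_swap hm2.aemeasurable

theorem integrable_height (n : ℕ) :
    IntegrableOn (fun u : E (n + 1) => 1 / √(1 - ‖u‖ ^ 2)) (Metric.ball 0 1) := by
  have h := chart_lintegral n (fun _ => 1) measurable_const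
  simp only [one_mul] at h
  have h1 : ∫⁻ u in Metric.ball (0 : E (n + 1)) 1, ENNReal.ofReal (1 / √(1 - ‖u‖ ^ 2)) < ∞ := by
    rw [← h]
    calc ∫⁻ x : S (n + 2), (if 0 < (x : E (n + 2)) (Fin.last (n + 1)) then (1 : ℝ≥0∞) else 0)
          ∂(sm (n + 2)) ≤ ∫⁻ _ : S (n + 2), 1 ∂(sm (n + 2)) := by
          refine lintegral_mono fun x => ?_
          split_ifs
          · exact le_rfl
          · exact bot_le
      _ < ∞ := by
        rw [lintegral_one]
        exact measure_lt_top _ _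
  refine ⟨?_, ?_⟩
  · have : Measurable fun u : E (n + 1) => 1 / √(1 - ‖u‖ ^ 2) := by fun_prop
    exact this.aestronglyMeasurable
  · rw [hasFiniteIntegral_iff_ofReal]
    · exact h1
    · exact Filter.Eventually.of_forall fun u => by positivity

theorem hch_measure_eq (n : ℕ) :
    ((sm (n + 2)).restrict {x : S (n + 2) | 0 < (x : E (n + 2)) (Fin.last (n + 1))}).map
      (fun x : S (n + 2) => (x : E (n + 2))) =
    (((volume : Measure (E (n + 1))).restrict (Metric.ball 0 1)).withDensity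
      (fun u => ENNReal.ofReal (1 / √(1 - ‖u‖ ^ 2)))).map
      (fun u : E (n + 1) => (join u √(1 - ‖u‖ ^ 2) : E (n + 2))) := by
  classical
  have hms : MeasurableSet {x : S (n + 2) | 0 < (x : E (n + 2)) (Fin.last (n + 1))} := by
    have : Measurable fun x : S (n + 2) => (x : E (n + 2)) (Fin.last (n + 1)) := by
      have h1 : Measurable fun x : E (n + 2) => x (Fin.last (n + 1)) := by fun_prop
      exact h1.comp measurable_subtype_coe
    exact measurableSet_lt measurable_const this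
  refine Measure.ext fun s hs => ?_
  have h := chart_lintegral n (s.indicator 1) (measurable_one.indicator hs)
  have h1 : ((sm (n + 2)).restrict {x : S (n + 2) | 0 < (x : E (n + 2)) (Fin.last (n + 1))}).map
      (fun x : S (n + 2) => (x : E (n + 2))) s = ∫⁻ x : S (n + 2),
        (if 0 < (x : E (n + 2)) (Fin.last (n + 1)) then (s.indicator 1 (x : E (n + 2))) else 0)
          ∂(sm (n + 2)) := by
    rw [← lintegral_indicator_one hs, lintegral_map (measurable_one.indicator hs)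
      measurable_subtype_coe, ← lintegral_indicator hms]
    refine lintegral_congr fun x => ?_
    by_cases hx : 0 < (x : E (n + 2)) (Fin.last (n + 1))
    · rw [if_pos hx, indicator_of_mem (show x ∈ {x : S (n + 2) | 0 < (x : E (n + 2)) (Fin.last (n + 1))} from hx)]
    · rw [if_neg hx, indicator_of_notMem (show x ∉ {x : S (n + 2) | 0 < (x : E (n + 2)) (Fin.last (n + 1))} from hx)]
  have hm : Measurable fun u : E (n + 1) => s.indicator (1 : E (n + 2) → ℝ≥0∞) (join u √(1 - ‖u‖ ^ 2)) :=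
    (measurable_one.indicator hs).comp (hch_measurable_graph n)
  rw [h1, h, ← lintegral_indicator_one hs, lintegral_map (measurable_one.indicator hs)
      (hch_measurable_graph n), lintegral_withDensity_eq_lintegral_mul _ (by fun_prop) hm]
  refine lintegral_congr fun u => ?_
  simp only [Pi.mul_apply]
  rw [mul_comm]

theorem chart (n : ℕ) (g : E (n + 2) → ℂ) (hg : Measurable g) (hb : ∀ x, ‖g x‖ ≤ 1)
    (X : E (n + 1)) (t : ℝ) :
    extn (fun x : E (n + 2) => if 0 < x (Fin.last (n + 1)) then g x else 0) (join X t) =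
      ∫ u in Metric.ball (0 : E (n + 1)) 1, g (join u √(1 - ‖u‖ ^ 2)) *
        ((1 / √(1 - ‖u‖ ^ 2) : ℝ) : ℂ) * ex (inner ℝ u X + √(1 - ‖u‖ ^ 2) * t) := by
  classical
  have hms : MeasurableSet {x : S (n + 2) | 0 < (x : E (n + 2)) (Fin.last (n + 1))} := by
    have : Measurable fun x : S (n + 2) => (x : E (n + 2)) (Fin.last (n + 1)) := by
      have h1 : Measurable fun x : E (n + 2) => x (Fin.last (n + 1)) := by fun_prop
      exact h1.comp measurable_subtype_coe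
    exact measurableSet_lt measurable_const this
  have hexm : Measurable ex := by
    unfold ex
    fun_prop
  have hf : Measurable fun z : E (n + 2) => g z * ex (inner ℝ z (join X t)) := by
    refine hg.mul (hexm.comp ?_)
    fun_prop
  have h1 : extn (fun x : E (n + 2) => if 0 < x (Fin.last (n + 1)) then g x else 0) (join X t) =
      ∫ x in {x : S (n + 2) | 0 < (x : E (n + 2)) (Fin.last (n + 1))},
        g (x : E (n + 2)) * ex (inner ℝ (x : E (n + 2)) (join X t)) ∂(sm (n + 2)) := by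
    unfold extn
    rw [← integral_indicator hms]
    refine integral_congr_ae (Filter.Eventually.of_forall fun x => ?_)
    by_cases hx : 0 < (x : E (n + 2)) (Fin.last (n + 1))
    · simp only [hx, if_true]
      rw [indicator_of_mem (show x ∈ {x : S (n + 2) | 0 < (x : E (n + 2)) (Fin.last (n + 1))} from hx)]
      rfl
    · simp only [hx, if_false, zero_mul]
      rw [indicator_of_notMem (show x ∉ {x : S (n + 2) | 0 < (x : E (n + 2)) (Fin.last (n + 1))} from hx)]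
  have h2 : ∫ x in {x : S (n + 2) | 0 < (x : E (n + 2)) (Fin.last (n + 1))},
        g (x : E (n + 2)) * ex (inner ℝ (x : E (n + 2)) (join X t)) ∂(sm (n + 2)) =
      ∫ z : E (n + 2), g z * ex (inner ℝ z (join X t))
        ∂(((sm (n + 2)).restrict {x : S (n + 2) | 0 < (x : E (n + 2)) (Fin.last (n + 1))}).map
      (fun x : S (n + 2) => (x : E (n + 2)))) := by
    rw [integral_map measurable_subtype_coe.aemeasurable hf.aestronglyMeasurable]
  rw [h1, h2, hch_measure_eq, integral_map (hch_measurable_graph n).aemeasurable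
    hf.aestronglyMeasurable, integral_withDensity_eq_integral_toReal_smul₀]
  · refine integral_congr_ae (Filter.Eventually.of_forall fun u => ?_)
    have h3 : 0 ≤ 1 / √(1 - ‖u‖ ^ 2) := by positivity
    simp only
    rw [ENNReal.toReal_ofReal h3, inner_join, Complex.real_smul]
    ring
  · fun_prop
  · exact Filter.Eventually.of_forall fun u => ENNReal.ofReal_lt_top

end Pool.Agent.SDT.MST

end -- MST.CH

section -- MST.CT

namespace Pool.Agent.SDT.MST

open MeasureTheory Set Pool.Agent.SDT.MP_6cbfb8_an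
open scoped ENNReal Real

theorem hct_mv_add {m : ℕ} (N : Mat m) (x y : E m) : mv N (x + y) = mv N x + mv N y := by
  ext i
  simp [mv, mul_add, Finset.sum_add_distrib]

theorem hct_mv_smul {m : ℕ} (N : Mat m) (c : ℝ) (x : E m) : mv N (c • x) = c • mv N x := by
  ext i
  simp only [mv, PiLp.smul_apply, smul_eq_mul, Finset.mul_sum]
  exact Finset.sum_congr rfl fun j _ => by ring

/-- the linear equivalence of an invertible matrix -/
noncomputable def hct_L {m : ℕ} (N M : Mat m) (h1 : ∀ w : E m, mv M (mv N w) = w)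
    (h2 : ∀ w : E m, mv N (mv M w) = w) : E m ≃ₗ[ℝ] E m where
  toFun := mv N
  map_add' := hct_mv_add N
  map_smul' := fun c x => hct_mv_smul N c x
  invFun := mv M
  left_inv := h1
  right_inv := h2

theorem hct_inner {m : ℕ} (N : Mat m) (w X : E m) :
    (inner ℝ (mv N w) X : ℝ) = inner ℝ w (mv (fun i j => N j i) X) := by
  rw [PiLp.inner_apply, PiLp.inner_apply]
  simp only [mv, RCLike.inner_apply, conj_trivial, Finset.mul_sum, Finset.sum_mul]
  rw [Finset.sum_comm]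
  exact Finset.sum_congr rfl fun j _ => Finset.sum_congr rfl fun i _ => by ring

theorem hct_trans {m : ℕ} (N M : Mat m) (h : ∀ w : E m, mv M (mv N w) = w) (w : E m) :
    mv (fun i j => N j i) (mv (fun i j => M j i) w) = w := by
  refine ext_inner_left ℝ fun v => ?_
  rw [← hct_inner, ← hct_inner, h]

/-- the measurable equivalence of a linear equivalence -/
noncomputable def hct_me {m : ℕ} (L : E m ≃ₗ[ℝ] E m) : E m ≃ᵐ E m :=
  L.toContinuousLinearEquiv.toHomeomorph.toMeasurableEquiv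

theorem hct_me_apply {m : ℕ} (L : E m ≃ₗ[ℝ] E m) (x : E m) : hct_me L x = L x := rfl

theorem hct_det {m : ℕ} (L : E m ≃ₗ[ℝ] E m) : LinearMap.det (L : E m →ₗ[ℝ] E m) ≠ 0 :=
  (LinearEquiv.isUnit_det' L).ne_zero

theorem hct_map {m : ℕ} (L : E m ≃ₗ[ℝ] E m) : Measure.map (hct_me L) (volume : Measure (E m)) =
    ENNReal.ofReal |(LinearMap.det (L : E m →ₗ[ℝ] E m))⁻¹| • volume :=
  Measure.map_linearMap_addHaar_eq_smul_addHaar volume (hct_det L)

theorem hct_lint {m : ℕ} (L : E m ≃ₗ[ℝ] E m) (φ : E m → ℝ≥0∞) :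
    ∫⁻ x, φ (L x) = ENNReal.ofReal |(LinearMap.det (L : E m →ₗ[ℝ] E m))⁻¹| * ∫⁻ x, φ x := by
  have h := lintegral_map_equiv (μ := (volume : Measure (E m))) φ (hct_me L)
  rw [hct_map, lintegral_smul_measure] at h
  exact h.symm

theorem hct_int {m : ℕ} (L : E m ≃ₗ[ℝ] E m) (F : E m → ℂ) :
    ∫ u, F u = ((|LinearMap.det (L : E m →ₗ[ℝ] E m)| : ℝ) : ℂ) * ∫ w, F (L w) := by
  have h := integral_map_equiv (μ := (volume : Measure (E m))) (hct_me L) F
  rw [hct_map, integral_smul_measure, ENNReal.toReal_ofReal (abs_nonneg _)] at h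
  have h' : ∫ w, F (L w) = |(LinearMap.det (L : E m →ₗ[ℝ] E m))⁻¹| • ∫ x, F x := h.symm
  rw [h', Complex.real_smul, ← mul_assoc, ← Complex.ofReal_mul, ← abs_mul, mul_inv_cancel₀ (hct_det L)]
  simp

theorem hct_ex_add (x y : ℝ) : ex (x + y) = ex x * ex y := by
  unfold ex
  rw [← Complex.exp_add]
  congr 1
  push_cast
  ring

theorem hct_fst_join {n : ℕ} (u : E n) (q : ℝ) : fstE (k := n) (l := 1) (join u q) = u := by
  ext i
  unfold fstE
  exact join_castSucc _ _ _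

theorem hct_chart (n : ℕ) (g : E (n + 2) → ℂ) (hg : Measurable g)
    (X : E (n + 1)) (t : ℝ) :
    extn (fun x : E (n + 2) => if 0 < x (Fin.last (n + 1)) then g x else 0) (join X t) =
      ∫ u in Metric.ball (0 : E (n + 1)) 1, g (join u √(1 - ‖u‖ ^ 2)) *
        ((1 / √(1 - ‖u‖ ^ 2) : ℝ) : ℂ) * ex (inner ℝ u X + √(1 - ‖u‖ ^ 2) * t) := by
  classical
  have hms : MeasurableSet {x : S (n + 2) | 0 < (x : E (n + 2)) (Fin.last (n + 1))} := by
    have : Measurable fun x : S (n + 2) => (x : E (n + 2)) (Fin.last (n + 1)) := by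
      have h1 : Measurable fun x : E (n + 2) => x (Fin.last (n + 1)) := by fun_prop
      exact h1.comp measurable_subtype_coe
    exact measurableSet_lt measurable_const this
  have hexm : Measurable ex := by
    unfold ex
    fun_prop
  have hf : Measurable fun z : E (n + 2) => g z * ex (inner ℝ z (join X t)) := by
    refine hg.mul (hexm.comp ?_)
    fun_prop
  have h1 : extn (fun x : E (n + 2) => if 0 < x (Fin.last (n + 1)) then g x else 0) (join X t) =
      ∫ x in {x : S (n + 2) | 0 < (x : E (n + 2)) (Fin.last (n + 1))},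
        g (x : E (n + 2)) * ex (inner ℝ (x : E (n + 2)) (join X t)) ∂(sm (n + 2)) := by
    unfold extn
    rw [← integral_indicator hms]
    refine integral_congr_ae (Filter.Eventually.of_forall fun x => ?_)
    by_cases hx : 0 < (x : E (n + 2)) (Fin.last (n + 1))
    · simp only [hx, if_true]
      rw [indicator_of_mem (show x ∈ {x : S (n + 2) | 0 < (x : E (n + 2)) (Fin.last (n + 1))} from hx)]
      rfl
    · simp only [hx, if_false, zero_mul]
      rw [indicator_of_notMem (show x ∉ {x : S (n + 2) | 0 < (x : E (n + 2)) (Fin.last (n + 1))} from hx)]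
  have h2 : ∫ x in {x : S (n + 2) | 0 < (x : E (n + 2)) (Fin.last (n + 1))},
        g (x : E (n + 2)) * ex (inner ℝ (x : E (n + 2)) (join X t)) ∂(sm (n + 2)) =
      ∫ z : E (n + 2), g z * ex (inner ℝ z (join X t))
        ∂(((sm (n + 2)).restrict {x : S (n + 2) | 0 < (x : E (n + 2)) (Fin.last (n + 1))}).map
      (fun x : S (n + 2) => (x : E (n + 2)))) := by
    rw [integral_map measurable_subtype_coe.aemeasurable hf.aestronglyMeasurable]
  rw [h1, h2, hch_measure_eq, integral_map (hch_measurable_graph n).aemeasurable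
    hf.aestronglyMeasurable, integral_withDensity_eq_integral_toReal_smul₀]
  · refine integral_congr_ae (Filter.Eventually.of_forall fun u => ?_)
    have h3 : 0 ≤ 1 / √(1 - ‖u‖ ^ 2) := by positivity
    simp only
    rw [ENNReal.toReal_ofReal h3, inner_join, Complex.real_smul]
    ring
  · fun_prop
  · exact Filter.Eventually.of_forall fun u => ENNReal.ofReal_lt_top

/-
ROW CT (1.2 h). Chart in linear coordinates. M and N are inverse to each other. Let D x = if 0 < x_last then G (mv M (fstE x)) * β x_last else 0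
(x : E (m+1), fstE with k = m, l = 1). By `chart` (n+1 = m) with g x = G (mv M (fstE x)) * β(x_last) (bounded by a constant B: β is bounded on [0,1];
scale to use the hypothesis ‖g‖ ≤ 1, or cut off β outside [-1,1])
extn D (join X t) = ∫ u in ball 0 1, G (mv M u) (β(q)/q) ex (inner u X + q t), q = √(1-‖u‖²); substitute u = mv N w (linear, |det|,
MeasureTheory.integral_comp / addHaar for linear maps: Measure.integral_comp... use
MeasureTheory.Measure.addHaar_preimage_linearMap or integral_map with the linear equivalence): = |det N| ∫ w, G w a(vN N w) ex (inner w (Nᵀ X)) ex(t √(vN N w))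
= |det N| op2 a N t G (Nᵀ X) since a v = β(√v)/√v for 0 < v and a v = 0 for v ≤ 0 (c0 > 0), and ‖u‖ < 1 iff vN > 0. Then lintegral_join and the
substitution x = Nᵀ X (invertible): ∫⁻ ‖extn D‖^p = |det N|^(p-1) ∫⁻ t ∫⁻ x ‖op2‖^p; only finiteness of the constant is claimed.
-/
theorem chart_two (m : ℕ) (hm : 1 ≤ m) (M N : Mat m) (h1 : ∀ w : E m, mv M (mv N w) = w)
    (h2 : ∀ w : E m, mv N (mv M w) = w) (c0 : ℝ) (hc : 0 < c0) (a β : ℝ → ℝ) (ha : Cut2 c0 a)
    (hβ : Measurable β) (hab : ∀ v, 0 < v → v ≤ 1 → a v = β √v / √v) (p : ℝ) (hp : 1 ≤ p) :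
    ∃ C : ℝ≥0∞, C ≠ ∞ ∧ ∀ G : E m → ℂ, Measurable G → (∀ w, ‖G w‖ ≤ 1) →
    ∫⁻ ξ : E (m + 1), ‖extn (fun x : E (m + 1) => if 0 < x (Fin.last m) then
        G (mv M (fstE (k := m) (l := 1) x)) * ((β (x (Fin.last m)) : ℝ) : ℂ) else 0) ξ‖ₑ ^ p ≤
      C * ∫⁻ t : ℝ, ∫⁻ x : E m, ‖op2 a N t G x‖ₑ ^ p := by
  obtain ⟨n, rfl⟩ : ∃ n, m = n + 1 := ⟨m - 1, by omega⟩
  set Nt : Mat (n + 1) := fun i j => N j i with hNt
  set Mt : Mat (n + 1) := fun i j => M j i with hMt
  have h3 : ∀ w, mv Mt (mv Nt w) = w := hct_trans M N h2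
  have h4 : ∀ w, mv Nt (mv Mt w) = w := hct_trans N M h1
  set L := hct_L N M h1 h2 with hL
  set Lt := hct_L Nt Mt h3 h4 with hLt
  refine ⟨ENNReal.ofReal |LinearMap.det (L : E (n + 1) →ₗ[ℝ] E (n + 1))| ^ p *
    ENNReal.ofReal |(LinearMap.det (Lt : E (n + 1) →ₗ[ℝ] E (n + 1)))⁻¹|,
    ENNReal.mul_ne_top (ENNReal.rpow_ne_top_of_nonneg (by linarith) ENNReal.ofReal_ne_top)
      ENNReal.ofReal_ne_top, ?_⟩
  intro G hG hGb
  have hmvm : ∀ K : Mat (n + 1), Measurable (mv K) := by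
    intro K
    unfold mv
    fun_prop
  have hfst : Measurable fun x : E (n + 1 + 1) => (fstE (k := n + 1) (l := 1) x : E (n + 1)) := by
    unfold fstE
    fun_prop
  set g : E (n + 2) → ℂ := fun x => G (mv M (fstE (k := n + 1) (l := 1) x)) *
    ((β (x (Fin.last (n + 1))) : ℝ) : ℂ) with hg
  have hgm : Measurable g := by
    refine Measurable.mul ?_ ?_
    · exact hG.comp ((hmvm M).comp hfst)
    · refine Complex.measurable_ofReal.comp (hβ.comp ?_)
      fun_prop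
  have hDm : Measurable fun x : E (n + 2) => if 0 < x (Fin.last (n + 1)) then g x else 0 :=
    Measurable.ite (measurableSet_lt measurable_const (by fun_prop)) hgm measurable_const
  have key : ∀ (X : E (n + 1)) (t : ℝ),
      extn (fun x : E (n + 2) => if 0 < x (Fin.last (n + 1)) then g x else 0) (join X t) =
      ((|LinearMap.det (L : E (n + 1) →ₗ[ℝ] E (n + 1))| : ℝ) : ℂ) * op2 a N t G (Lt X) := by
    intro X t
    rw [hct_chart n g hgm X t]
    have e1 : ∫ u in Metric.ball (0 : E (n + 1)) 1, g (join u √(1 - ‖u‖ ^ 2)) *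
        ((1 / √(1 - ‖u‖ ^ 2) : ℝ) : ℂ) * ex (inner ℝ u X + √(1 - ‖u‖ ^ 2) * t) =
        ∫ u : E (n + 1), G (mv M u) * ((a (1 - ‖u‖ ^ 2) : ℝ) : ℂ) * ex (inner ℝ u X + √(1 - ‖u‖ ^ 2) * t) := by
      rw [← setIntegral_eq_integral_of_forall_compl_eq_zero (s := Metric.ball (0 : E (n + 1)) 1)
        (f := fun u : E (n + 1) => G (mv M u) * ((a (1 - ‖u‖ ^ 2) : ℝ) : ℂ) * ex (inner ℝ u X + √(1 - ‖u‖ ^ 2) * t))]
      · refine setIntegral_congr_fun Metric.isOpen_ball.measurableSet fun u hu => ?_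
        rw [mem_ball_zero_iff] at hu
        have hv0 : 0 < 1 - ‖u‖ ^ 2 := by nlinarith [norm_nonneg u]
        have hv1 : 1 - ‖u‖ ^ 2 ≤ 1 := by nlinarith [norm_nonneg u]
        simp only [hg]
        rw [hct_fst_join, join_last, hab _ hv0 hv1]
        push_cast
        ring
      · intro u hu
        rw [mem_ball_zero_iff, not_lt] at hu
        have : 1 - ‖u‖ ^ 2 ≤ c0 := by nlinarith
        rw [ha.2 _ this]
        simp
    rw [e1, hct_int L]
    congr 1
    unfold op2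
    refine integral_congr_ae (Filter.Eventually.of_forall fun w => ?_)
    have e2 : L w = mv N w := rfl
    have e3 : Lt X = mv Nt X := rfl
    simp only
    rw [e2, e3, h1, hct_inner, hct_ex_add, mul_comm _ t]
    unfold amp2 vN
    ring
  change ∫⁻ ξ : E (n + 2), ‖extn (fun x : E (n + 2) => if 0 < x (Fin.last (n + 1)) then g x else 0) ξ‖ₑ ^ p ≤ _
  have hem : Measurable fun ξ : E (n + 2) =>
      ‖extn (fun x : E (n + 2) => if 0 < x (Fin.last (n + 1)) then g x else 0) ξ‖ₑ ^ p :=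
    (measurable_extn _ hDm).enorm.pow_const _
  rw [lintegral_join (n + 1) _ hem, lintegral_lintegral_swap]
  · have e5 : ∀ z : ℝ, ∫⁻ y : E (n + 1),
        ‖extn (fun x : E (n + 2) => if 0 < x (Fin.last (n + 1)) then g x else 0) (join y z)‖ₑ ^ p =
        ENNReal.ofReal |LinearMap.det (L : E (n + 1) →ₗ[ℝ] E (n + 1))| ^ p *
          ENNReal.ofReal |(LinearMap.det (Lt : E (n + 1) →ₗ[ℝ] E (n + 1)))⁻¹| *
          ∫⁻ x : E (n + 1), ‖op2 a N z G x‖ₑ ^ p := by
      intro z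
      have e6 : ∀ y : E (n + 1),
          ‖extn (fun x : E (n + 2) => if 0 < x (Fin.last (n + 1)) then g x else 0) (join y z)‖ₑ ^ p =
          ENNReal.ofReal |LinearMap.det (L : E (n + 1) →ₗ[ℝ] E (n + 1))| ^ p * ‖op2 a N z G (Lt y)‖ₑ ^ p := by
        intro y
        rw [key, enorm_mul, ENNReal.mul_rpow_of_nonneg _ _ (by linarith), ← ofReal_norm, Complex.norm_real,
          Real.norm_eq_abs, abs_abs]
      simp only [e6]
      rw [lintegral_const_mul' _ _ (ENNReal.rpow_ne_top_of_nonneg (by linarith) ENNReal.ofReal_ne_top),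
        hct_lint Lt (fun x => ‖op2 a N z G x‖ₑ ^ p), mul_assoc]
    simp only [e5]
    rw [lintegral_const_mul' _ _ (ENNReal.mul_ne_top (ENNReal.rpow_ne_top_of_nonneg (by linarith) ENNReal.ofReal_ne_top)
      ENNReal.ofReal_ne_top)]
  · exact (hem.comp measurable_join).aemeasurable

end Pool.Agent.SDT.MST

end -- MST.CT

section -- N1F.A3a

/-!
N1F, block A3: local versions of Hadamard's lemma.
-/

namespace Pool.Agent.SDT.N1F

open MeasureTheory Set Metric Pool.Agent.SDT.MP_6cbfb8_an Pool.Agent.SDT.MST Pool.Agent.SDT.N1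
open scoped ENNReal Real ContDiff Topology

lemma had_mem {E : Type*} [NormedAddCommGroup E] (t : ℝ) (e e0 : E) (r : ℝ)
    (h : (t, e) ∈ ball ((0 : ℝ), e0) r) : ((0 : ℝ), e) ∈ ball ((0 : ℝ), e0) r := by
  rw [mem_ball, Prod.dist_eq, max_lt_iff] at h ⊢
  simp only at h ⊢
  exact ⟨lt_of_le_of_lt (by rw [dist_self]; exact dist_nonneg) h.1, h.2⟩

lemma had_neg {E : Type*} [NormedAddCommGroup E] (t : ℝ) (e e0 : E) (r : ℝ)
    (h : (t, e) ∈ ball ((0 : ℝ), e0) r) : (-t, e) ∈ ball ((0 : ℝ), e0) r := by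
  rw [mem_ball, Prod.dist_eq, max_lt_iff] at h ⊢
  simp only [dist_zero_right, norm_neg] at h ⊢
  exact h

/-- Division by the first variable, local version with an arbitrary base value. -/
theorem had1 {E : Type*} [NormedAddCommGroup E] [NormedSpace ℝ E] [FiniteDimensional ℝ E]
    (D : ℝ × E → ℝ) (t0 : ℝ) (e0 : E) (r : ℝ) (hr : 0 < r)
    (hD : ContDiffOn ℝ ∞ D (ball (t0, e0) r))
    (h0 : ∀ e, ((0 : ℝ), e) ∈ ball (t0, e0) r → D (0, e) = 0) :
    ∃ r' : ℝ, 0 < r' ∧ r' ≤ r ∧ ∃ G : ℝ × E → ℝ, ContDiffOn ℝ ∞ G (ball (t0, e0) r') ∧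
      ∀ x ∈ ball (t0, e0) r', D x = x.1 * G x := by
  by_cases ht : t0 = 0
  · subst ht
    obtain ⟨g, hg, hgD⟩ := ext_smooth D (0, e0) r hr hD
    have h1 : ContDiff ℝ ∞ (fun z : ℝ × E => g z - g (0, z.2)) :=
      hg.sub (hg.comp (contDiff_const.prodMk contDiff_snd))
    obtain ⟨k, hk, e1⟩ := hadamard _ h1 (by intro q; simp)
    refine ⟨r / 2, by linarith, by linarith, k, hk.contDiffOn, ?_⟩
    rintro ⟨t, e⟩ hx
    have hx0 := had_mem t e e0 _ hx
    have h2 := e1 t e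
    simp only at h2
    rw [hgD _ hx, hgD _ hx0, h0 e (ball_subset_ball (by linarith) hx0), sub_zero] at h2
    exact h2
  · have ht' : 0 < |t0| := abs_pos.2 ht
    refine ⟨min r (|t0| / 2), lt_min hr (by linarith), min_le_left _ _, fun x => D x / x.1,
      ?_, ?_⟩
    · refine ContDiffOn.div (hD.mono (ball_subset_ball (min_le_left _ _))) contDiff_fst.contDiffOn ?_
      intro x hx h
      rw [mem_ball, Prod.dist_eq, max_lt_iff, Real.dist_eq, h, zero_sub, abs_neg] at hx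
      have := lt_of_lt_of_le hx.1 (min_le_right _ _)
      linarith
    · intro x hx
      have hx1 : x.1 ≠ 0 := by
        intro h
        rw [mem_ball, Prod.dist_eq, max_lt_iff, Real.dist_eq, h, zero_sub, abs_neg] at hx
        have := lt_of_lt_of_le hx.1 (min_le_right _ _)
        linarith
      simp only
      field_simp

/-- Even functions, local version. -/
theorem had_even {E : Type*} [NormedAddCommGroup E] [NormedSpace ℝ E] [FiniteDimensional ℝ E]
    (D : ℝ × E → ℝ) (e0 : E) (r : ℝ) (hr : 0 < r)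
    (hD : ContDiffOn ℝ ∞ D (ball ((0 : ℝ), e0) r))
    (h0 : ∀ t e, (t, e) ∈ ball ((0 : ℝ), e0) r → D (-t, e) = D (t, e)) :
    ∃ k : ℝ × E → ℝ, ContDiff ℝ ∞ k ∧
      ∀ t e, (t, e) ∈ ball ((0 : ℝ), e0) (r / 2) → D (t, e) = D (0, e) + t ^ 2 * k (t, e) := by
  obtain ⟨g, hg, hgD⟩ := ext_smooth D (0, e0) r hr hD
  have h1 : ContDiff ℝ ∞ (fun z : ℝ × E => (g z + g (-z.1, z.2)) / 2) :=
    (hg.add (hg.comp (contDiff_fst.neg.prodMk contDiff_snd))).div_const 2
  obtain ⟨k, hk, e1⟩ := hadamard_even _ h1 (by intro ρ q; simp only [neg_neg]; ring)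
  refine ⟨k, hk, ?_⟩
  intro t e hx
  have hx0 := had_mem t e e0 _ hx
  have hxn := had_neg t e e0 _ hx
  have h2 := e1 t e
  simp only [neg_zero] at h2
  rw [hgD _ hx, hgD _ hx0, hgD _ hxn, h0 t e (ball_subset_ball (by linarith) hx)] at h2
  linarith

/-- Density argument. -/
theorem dens {M : Type*} [NormedAddCommGroup M] [NormedSpace ℝ M] (f g : M → ℝ) (U : Set M)
    (hU : IsOpen U) (hf : ContinuousOn f U) (hg : ContinuousOn g U) (S : Set M) (d : M)
    (hS : ∀ x, ∀ᶠ t in 𝓝[≠] (0 : ℝ), x + t • d ∈ S)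
    (h : ∀ x ∈ U, x ∈ S → f x = g x) : ∀ x ∈ U, f x = g x := by
  intro x hx
  have hc : ContinuousAt (fun t : ℝ => x + t • d) 0 := by fun_prop
  have h0 : x + (0 : ℝ) • d = x := by simp
  have e1 : ∀ᶠ t in 𝓝 (0 : ℝ), x + t • d ∈ U := by
    apply hc.eventually
    simp only [zero_smul, add_zero]
    exact hU.mem_nhds hx
  have key := g_ext (f := fun t : ℝ => f (x + t • d)) (g := fun t : ℝ => g (x + t • d)) ?_ ?_ ?_
  · simpa using key
  · refine ContinuousAt.comp_of_eq (hf.continuousAt (hU.mem_nhds hx)) hc h0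
  · refine ContinuousAt.comp_of_eq (hg.continuousAt (hU.mem_nhds hx)) hc h0
  · filter_upwards [nhdsWithin_le_nhds e1, hS x] with t h1 h2
    exact h _ h1 h2

lemma ev_ne (x : ℝ) : ∀ᶠ t in 𝓝[≠] (0 : ℝ), x + t ≠ 0 := by
  by_cases hx : x = 0
  · subst hx
    filter_upwards [self_mem_nhdsWithin] with t ht
    simpa using ht
  · have hc : ContinuousAt (fun t : ℝ => x + t) 0 := by fun_prop
    have h1 : ∀ᶠ t in 𝓝 (0 : ℝ), x + t ≠ 0 := hc.eventually_ne (by simpa using hx)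
    exact nhdsWithin_le_nhds h1

end Pool.Agent.SDT.N1F

end -- N1F.A3a

section -- N1F.A3b

/-!
N1F, block A3: special values of the divided differences.
-/

namespace Pool.Agent.SDT.N1F

open MeasureTheory Set Metric Pool.Agent.SDT.MP_6cbfb8_an Pool.Agent.SDT.MST Pool.Agent.SDT.N1
open scoped ENNReal Real ContDiff Topology

/-- (1) -/
lemma E1_v1 (c : ℝ) (x1 x2 x3 x4 s : ℝ) (hq : 0 < Qs c 0 s) :
    E1 c 0 x1 x2 x3 x4 s = 1 / Qs c 0 s := by
  unfold E1
  simp only [zero_mul]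
  field_simp
  ring

/-- (2) -/
lemma E1_v2 (c : ℝ) (hc : 0 < c) (A x x' s : ℝ) (hx : 0 < x) (hx' : 0 < x')
    (h1 : c ^ 2 / 8 < 1 - A * x ^ 2 - s) (h2 : c ^ 2 / 8 < 1 - A * x' ^ 2 - s) :
    E1 c A x x' x x' s = (1 - s) * (x + x') / (Qs c (A * x ^ 2) s * Qs c (A * x' ^ 2) s *
      (x * Qs c (A * x' ^ 2) s + x' * Qs c (A * x ^ 2) s)) := by
  have p1 := Qs_pos c hc _ _ h1.le
  have p2 := Qs_pos c hc _ _ h2.le
  have q1 := Qs_sq c hc _ _ h1.le
  have q2 := Qs_sq c hc _ _ h2.le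
  unfold E1
  set r := Qs c (A * x ^ 2) s
  set t := Qs c (A * x' ^ 2) s
  rw [div_eq_div_iff (by positivity) (by positivity)]
  field_simp
  have h3 : A * x ^ 2 = 1 - s - r ^ 2 := by linarith
  have h4 : A * x' ^ 2 = 1 - s - t ^ 2 := by linarith
  linear_combination ((x + x') * t ^ 2 + 2 * x' * r * t) * h3 +
    ((x + x') * r ^ 2 + 2 * x * r * t) * h4

/-- (3) -/
lemma E1_v3 (c : ℝ) (A X X' s : ℝ) (h1 : 0 < Qs c (A * X ^ 2) s) (h2 : 0 < Qs c (A * X' ^ 2) s) :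
    E1 c A X X X' X' s = (A * X * (X + X') / (Qs c (A * X ^ 2) s + Qs c (A * X' ^ 2) s) +
      Qs c (A * X ^ 2) s) / (Qs c (A * X ^ 2) s * Qs c (A * X' ^ 2) s) := by
  unfold E1
  set r := Qs c (A * X ^ 2) s
  set t := Qs c (A * X' ^ 2) s
  field_simp
  ring

/-- (4) -/
lemma E3_v4 (c : ℝ) (B X X' w w' : ℝ) (h1 : 0 < Qs c 0 (B * w ^ 2))
    (h2 : 0 < Qs c 0 (B * w' ^ 2)) :
    E3 c 0 B X X' w w' = (X + X') * (w + w') / (2 * Qs c 0 (B * w ^ 2) * Qs c 0 (B * w' ^ 2) *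
      (Qs c 0 (B * w ^ 2) + Qs c 0 (B * w' ^ 2))) := by
  unfold E3
  simp only [zero_mul]
  set r := Qs c 0 (B * w ^ 2)
  set t := Qs c 0 (B * w' ^ 2)
  field_simp
  ring

/-- (5) -/
lemma E3_v5 (c : ℝ) (A X X' w w' : ℝ) (h1 : 0 < Qs c (A * X ^ 2) 0)
    (h2 : 0 < Qs c (A * X' ^ 2) 0) :
    E3 c A 0 X X' w w' = (X + X') * (w + w') / (2 * Qs c (A * X ^ 2) 0 * Qs c (A * X' ^ 2) 0 *
      (Qs c (A * X ^ 2) 0 + Qs c (A * X' ^ 2) 0)) := by
  unfold E3
  simp only [zero_mul]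
  set r := Qs c (A * X ^ 2) 0
  set t := Qs c (A * X' ^ 2) 0
  field_simp
  ring

/-- (6) -/
lemma E3_v6 (c : ℝ) (A B x w w' : ℝ) (h1 : 0 < Qs c (A * x ^ 2) (B * w ^ 2))
    (h2 : 0 < Qs c (A * x ^ 2) (B * w' ^ 2)) :
    E3 c A B x x w w' = x * (w + w') / (Qs c (A * x ^ 2) (B * w ^ 2) *
      Qs c (A * x ^ 2) (B * w' ^ 2) *
      (Qs c (A * x ^ 2) (B * w ^ 2) + Qs c (A * x ^ 2) (B * w' ^ 2))) := by
  unfold E3
  set r := Qs c (A * x ^ 2) (B * w ^ 2)
  set t := Qs c (A * x ^ 2) (B * w' ^ 2)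
  field_simp

end Pool.Agent.SDT.N1F

end -- N1F.A3b

section -- N1M.EM

/-!
N1M: the extension operator of the corner family.
-/

namespace Pool.Agent.SDT.N1M

open MeasureTheory Set Metric Pool.Agent.SDT.MP_6cbfb8_an Pool.Agent.SDT.MST Pool.Agent.SDT.N1
open Pool.Agent.SDT.N1F Pool.Agent.SDT.N1G
open scoped ENNReal Real ContDiff

/-- The extension operator of the corner family. -/
noncomputable def EM (c m : ℝ) (G₁ G₂ : ℝ → ℂ) (t : ℝ) (ξ : ℝ × ℝ) : ℂ :=
  ∫ x : ℝ × ℝ, G₁ x.1 * G₂ x.2 * ((wm c m x : ℝ) : ℂ) * ex (t * qm c m x) *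
    ex (x.1 * ξ.1 + x.2 * ξ.2)

end Pool.Agent.SDT.N1M

end -- N1M.EM

section -- N1Q.Defs

/-!
N1Q: the strips `q ~ ν` next to the equator (`q` of the corner family `N1M`), definitions.

In the cell with centre `c`, `x = c + ν² X`, the phase is `ν Sq 1 (K X)` and the amplitude is
`ν⁻¹ w1 (K X)`, `K X = P + 2 g₁ X₁ + 2 g₂ X₂ - ν² (X₁² + b X₂²)`, `g = (-a, β)`, `b = m = M²`.
-/

namespace Pool.Agent.SDT.N1Q

open MeasureTheory Set Metric Pool.Agent.SDT.MP_6cbfb8_an Pool.Agent.SDT.MST Pool.Agent.SDT.N1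
open Pool.Agent.SDT.N1F Pool.Agent.SDT.N1G Pool.Agent.SDT.N1M
open scoped ENNReal Real ContDiff

/-- The amplitude as a function of `K`; support in `[1 / 4, 4]`. -/
noncomputable def w1 (v : ℝ) : ℝ := sma 1 v - sma 2 v

/-- The quadratic polynomial. -/
def KE (b P g1 g2 τ : ℝ) (X : ℝ × ℝ) : ℝ :=
  P + 2 * g1 * X.1 + 2 * g2 * X.2 - τ * (X.1 ^ 2 + b * X.2 ^ 2)

/-- The phase of one point in a cell. -/
noncomputable def qE (b P g1 g2 η : ℝ) (X : ℝ × ℝ) : ℝ := Sq 1 (KE b P g1 g2 (η ^ 2) X)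

/-- The amplitude of one point in a cell (cut off at `|X| ≤ 1`, which is never felt). -/
noncomputable def wE (b P g1 g2 η : ℝ) (X : ℝ × ℝ) : ℝ :=
  if |X.1| ≤ 1 ∧ |X.2| ≤ 1 then w1 (KE b P g1 g2 (η ^ 2) X) else 0

/-- Range of the parameters. -/
def Par (b g1 g2 : ℝ) : Prop :=
  0 ≤ b ∧ b ≤ 1 ∧ -4 ≤ g1 ∧ g1 ≤ -(1 / 4) ∧ 1 / 4 ≤ g2 ∧ g2 ≤ 2

/-- The normal component of a difference. -/
def lnE (g1 g2 : ℝ) (y : ℝ × ℝ) : ℝ := g1 * y.1 + g2 * y.2

/-- The form of a cell. -/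
noncomputable def FE (b P g1 g2 η T : ℝ) (M : V × V → ℂ) : ℂ :=
  FFg (dif (qE b P g1 g2 η)) (dam (wE b P g1 g2 η)) T M

/-- The positive form of a cell. -/
noncomputable def TE (b P g1 g2 η T : ℝ) (M : YX → ℂ) : ℝ≥0∞ :=
  Thg (dif (qE b P g1 g2 η)) (dam (wE b P g1 g2 η)) T M

/-- Both points in the box of size `r`. -/
def SX (r : ℝ) (α : ℝ × ℝ → ℂ) : Prop := ∀ p, α p ≠ 0 → |p.2| ≤ r ∧ |p.2 - p.1| ≤ r

/-- A box of side `s` in the variable `y`. -/
def SY (c s : ℝ) (α : ℝ × ℝ → ℂ) : Prop := ∀ p, α p ≠ 0 → |p.1 - c| ≤ s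

/-- Restriction to tangential `y`. -/
noncomputable def tanM (g1 g2 A : ℝ) (M : YX → ℂ) (p : YX) : ℂ :=
  if |lnE g1 g2 p.1| ≤ A * |p.1.1| then M p else 0

/-- The amplitude of the strip `q ~ ν`. -/
noncomputable def wn (ν m : ℝ) (x : ℝ × ℝ) : ℝ :=
  if 0 ≤ x.2 ∧ x.2 ≤ 8 then sma ν (hm m x.2 - x.1 ^ 2) - sma (2 * ν) (hm m x.2 - x.1 ^ 2) else 0

/-- The positive form of the strip. -/
noncomputable def TN (ν m T : ℝ) (M : YX → ℂ) : ℝ≥0∞ := Thg (dif (qm ν m)) (dam (wn ν m)) T M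

/-- The extension operator of the strip. -/
noncomputable def EN (ν m : ℝ) (G₁ G₂ : ℝ → ℂ) (t : ℝ) (ξ : ℝ × ℝ) : ℂ :=
  ∫ x : ℝ × ℝ, G₁ x.1 * G₂ x.2 * ((wn ν m x : ℝ) : ℂ) * ex (t * qm ν m x) *
    ex (x.1 * ξ.1 + x.2 * ξ.2)

/-- Restriction of a function to a cell. -/
noncomputable def rs (c s : ℝ) (G : ℝ → ℂ) (a : ℝ) : ℂ := if c ≤ a ∧ a < c + s then G a else 0

end Pool.Agent.SDT.N1Q

end -- N1Q.Defs

section -- N1M.P3a

/-!
N1M, block M3 (type N'): algebra of the normal form; smoothness near a point.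
-/

namespace Pool.Agent.SDT.N1M

open MeasureTheory Set Metric Filter Pool.Agent.SDT.MP_6cbfb8_an Pool.Agent.SDT.MST Pool.Agent.SDT.N1
open Pool.Agent.SDT.N1F
open scoped ENNReal Real ContDiff Topology

/-! ### Smoothness near a point -/

section smn

variable {X Y : Type*} [NormedAddCommGroup X] [NormedSpace ℝ X]
  [NormedAddCommGroup Y] [NormedSpace ℝ Y]

/-- Smooth near the point `x0`. -/
def SmN (f : X → ℝ) (x0 : X) : Prop := ∀ᶠ x in 𝓝 x0, ContDiffAt ℝ ∞ f x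

lemma smN_of {f : X → ℝ} {x0 : X} (h : ContDiff ℝ ∞ f) : SmN f x0 :=
  Eventually.of_forall fun _ => h.contDiffAt

lemma SmN.cont {f : X → ℝ} {x0 : X} (h : SmN f x0) : ContinuousAt f x0 :=
  h.self_of_nhds.continuousAt

lemma SmN.add {f g : X → ℝ} {x0 : X} (hf : SmN f x0) (hg : SmN g x0) :
    SmN (fun x => f x + g x) x0 := by
  filter_upwards [hf, hg] with x h1 h2 using h1.add h2

lemma SmN.sub {f g : X → ℝ} {x0 : X} (hf : SmN f x0) (hg : SmN g x0) :
    SmN (fun x => f x - g x) x0 := by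
  filter_upwards [hf, hg] with x h1 h2 using h1.sub h2

lemma SmN.neg {f : X → ℝ} {x0 : X} (hf : SmN f x0) :
    SmN (fun x => - f x) x0 := by
  filter_upwards [hf] with x h1 using h1.neg

lemma SmN.mul {f g : X → ℝ} {x0 : X} (hf : SmN f x0) (hg : SmN g x0) :
    SmN (fun x => f x * g x) x0 := by
  filter_upwards [hf, hg] with x h1 h2 using h1.mul h2

lemma SmN.pow {f : X → ℝ} {x0 : X} (hf : SmN f x0) (n : ℕ) :
    SmN (fun x => f x ^ n) x0 := by
  filter_upwards [hf] with x h1 using h1.pow n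

lemma SmN.div {f g : X → ℝ} {x0 : X} (hf : SmN f x0) (hg : SmN g x0) (h0 : g x0 ≠ 0) :
    SmN (fun x => f x / g x) x0 := by
  filter_upwards [hf, hg, hg.cont.eventually_ne h0] with x h1 h2 h3 using h1.div h2 h3

lemma SmN.compS {f : X → ℝ} {x0 : X} {S : ℝ → ℝ} (hf : SmN f x0) (hS : ContDiff ℝ ∞ S) :
    SmN (fun x => S (f x)) x0 := by
  filter_upwards [hf] with x h1 using hS.contDiffAt.comp x h1

lemma SmN.comp_sm {f : Y → ℝ} {φ : X → Y} {x0 : X} {y0 : Y} (hf : SmN f y0)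
    (hφ : ContDiff ℝ ∞ φ) (h0 : φ x0 = y0) : SmN (fun x => f (φ x)) x0 := by
  subst h0
  have h1 := hφ.continuous.continuousAt.eventually hf
  filter_upwards [h1] with x h2 using h2.comp x hφ.contDiffAt

lemma SmN.ball {f : X → ℝ} {x0 : X} (hf : SmN f x0) :
    ∃ r : ℝ, 0 < r ∧ ContDiffOn ℝ ∞ f (Metric.ball x0 r) := by
  obtain ⟨r, hr, h⟩ := Metric.eventually_nhds_iff_ball.1 hf
  exact ⟨r, hr, fun x hx => (h x hx).contDiffWithinAt⟩

lemma smN_const (c : ℝ) (x0 : X) : SmN (fun _ : X => c) x0 := smN_of contDiff_const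

end smn

/-! ### Algebra -/

lemma hm_bm (m r : ℝ) : bm m r ^ 2 = 1 - m * hm m r := by
  unfold bm hm
  ring

/-- The level set equation. -/
lemma ls_id (m cc z s q1 q2 R : ℝ) (h1 : q1 ^ 2 = hm m (cc + z / 2) - s)
    (h2 : q2 ^ 2 = hm m (cc - z / 2) - s) (hq : q1 + q2 ≠ 0)
    (hR : R = 2 * bm m cc / (q1 + q2)) :
    q1 - q2 = z * R ∧ (m + R ^ 2) * (hm m cc - s - R ^ 2 * z ^ 2 / 4) = 1 - m * s := by
  have hRq : R * (q1 + q2) = 2 * bm m cc := by
    rw [hR]
    field_simp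
  unfold hm bm at *
  have h3 : q1 - q2 = z * R := by
    apply mul_right_cancel₀ hq
    linear_combination h1 - h2 - z * hRq
  refine ⟨h3, ?_⟩
  have h4 : R ^ 2 * (q1 + q2) ^ 2 = 4 * (1 - m * cc) ^ 2 := by
    linear_combination (R * (q1 + q2) + 2 * (1 - m * cc)) * hRq
  have h5 : (q1 - q2) ^ 2 = z ^ 2 * R ^ 2 := by
    rw [h3]
    ring
  linear_combination (1 / 4) * h4 - (R ^ 2 / 2) * h1 - (R ^ 2 / 2) * h2 + (R ^ 2 / 4) * h5

/-- The difference of two levels. -/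
lemma lev_id (m z s1 s2 h1 h2 Z1 Z2 : ℝ)
    (e1 : (m + Z1) * (h1 - s1 - Z1 * z ^ 2 / 4) = 1 - m * s1)
    (e2 : (m + Z2) * (h2 - s2 - Z2 * z ^ 2 / 4) = 1 - m * s2)
    (n1 : m + Z1 ≠ 0) (n2 : m + Z2 ≠ 0) (n3 : 1 - m * s1 ≠ 0) :
    (Z1 - Z2) * ((1 - m * s2) / ((m + Z1) * (m + Z2)) - z ^ 2 / 4) =
      h2 - h1 + (s1 - s2) * (1 - m * h1 + m * Z1 * z ^ 2 / 4) / (1 - m * s1) := by
  have g1 : h1 = s1 + (1 - m * s1) / (m + Z1) + Z1 * z ^ 2 / 4 := by
    rw [← e1]
    field_simp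
    ring
  have g2 : h2 = s2 + (1 - m * s2) / (m + Z2) + Z2 * z ^ 2 / 4 := by
    rw [← e2]
    field_simp
    ring
  rw [g1, g2]
  field_simp
  ring

/-- Dependence of the level on `s`. -/
lemma lev_s (m z s1 h Z1 Z0 : ℝ)
    (e1 : (m + Z1) * (h - s1 - Z1 * z ^ 2 / 4) = 1 - m * s1)
    (e0 : (m + Z0) * (h - 0 - Z0 * z ^ 2 / 4) = 1 - m * 0)
    (n : 1 - z ^ 2 * (m + Z0) * (m + Z1) / 4 ≠ 0) :
    Z1 - Z0 = s1 * (Z1 * (m + Z0) / (1 - z ^ 2 * (m + Z0) * (m + Z1) / 4)) := by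
  have h1 : (Z1 - Z0) * (1 - z ^ 2 * (m + Z0) * (m + Z1) / 4) = s1 * (Z1 * (m + Z0)) := by
    linear_combination (m + Z0) * e1 - (m + Z1) * e0
  rw [← mul_div_assoc, ← h1, mul_div_assoc, div_self n, mul_one]

/-- The part `z₂ = 0`. -/
lemma F1_id (B m ρ γ y b Y r Z q11 q31 q22 q42 q10 q30 c1 c2 R1 R2 R0 W0 N K sg om G2 : ℝ)
    (h11 : q11 ^ 2 = hm m r - B * b ^ 2) (h31 : q31 ^ 2 = hm m (r - γ * Z) - B * b ^ 2)
    (h22 : q22 ^ 2 = hm m (r - B * ρ * Y) - B * (b - ρ * y) ^ 2)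
    (h42 : q42 ^ 2 = hm m (r - B * ρ * Y - γ * Z) - B * (b - ρ * y) ^ 2)
    (h10 : q10 ^ 2 = hm m r) (h30 : q30 ^ 2 = hm m (r - γ * Z))
    (n1 : q11 + q31 ≠ 0) (n2 : q22 + q42 ≠ 0) (n3 : q10 + q30 ≠ 0)
    (hc1 : c1 = r - γ * Z / 2) (hc2 : c2 = c1 - B * ρ * Y)
    (hR1 : R1 = 2 * bm m c1 / (q11 + q31)) (hR2 : R2 = 2 * bm m c2 / (q22 + q42))
    (hR0 : R0 = 2 * bm m c1 / (q10 + q30))
    (hW0 : W0 = bm m c1 ^ 2 + m * R0 ^ 2 * (γ * Z) ^ 2 / 4)
    (hN : N = (1 - m * (B * (b - ρ * y) ^ 2)) / ((m + R1 ^ 2) * (m + R2 ^ 2)) - (γ * Z) ^ 2 / 4)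
    (hK : K = R1 ^ 2 * (m + R0 ^ 2) / (1 - (γ * Z) ^ 2 * (m + R0 ^ 2) * (m + R1 ^ 2) / 4))
    (hsg : sg = y * (2 * b - ρ * y) / (1 - m * (B * b ^ 2)))
    (hom : om = Y * (bm m c1 + bm m c2) / W0)
    (hG2 : G2 = Z ^ 2 * b ^ 2 * K * sg / (4 * W0))
    (m1 : m + R1 ^ 2 ≠ 0) (m2 : m + R2 ^ 2 ≠ 0) (m3 : 1 - m * (B * b ^ 2) ≠ 0)
    (m4 : 1 - (γ * Z) ^ 2 * (m + R0 ^ 2) * (m + R1 ^ 2) / 4 ≠ 0) (m5 : W0 ≠ 0) (m6 : N ≠ 0)
    (m7 : R1 + R2 ≠ 0) :
    q11 - q31 - (q22 - q42) =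
      B * ρ * γ * (Z * W0 / (N * (R1 + R2)) * (sg - om + B * (m * γ ^ 2) * G2)) := by
  have e1 := ls_id m c1 (γ * Z) (B * b ^ 2) q11 q31 R1 (by rw [h11, hc1]; ring_nf)
    (by rw [h31, hc1]; ring_nf) n1 hR1
  have e2 := ls_id m c2 (γ * Z) (B * (b - ρ * y) ^ 2) q22 q42 R2
    (by rw [h22, hc2, hc1]; ring_nf) (by rw [h42, hc2, hc1]; ring_nf) n2 hR2
  have e0 := ls_id m c1 (γ * Z) 0 q10 q30 R0 (by rw [h10, hc1]; ring_nf)
    (by rw [h30, hc1]; ring_nf) n3 hR0
  have k1 := lev_id m (γ * Z) (B * b ^ 2) (B * (b - ρ * y) ^ 2) (hm m c1) (hm m c2)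
    (R1 ^ 2) (R2 ^ 2) e1.2 e2.2 m1 m2 m3
  have k2 := lev_s m (γ * Z) (B * b ^ 2) (hm m c1) (R1 ^ 2) (R0 ^ 2) e1.2 e0.2 m4
  rw [← hN] at k1
  rw [← hK] at k2
  have k3 : hm m c2 - hm m c1 = -(B * ρ * (Y * (bm m c1 + bm m c2))) := by
    rw [hc2]
    unfold hm bm
    ring
  have k4 : (B * b ^ 2 - B * (b - ρ * y) ^ 2) = B * ρ * (y * (2 * b - ρ * y)) := by ring
  have k5 : 1 - m * hm m c1 + m * R1 ^ 2 * (γ * Z) ^ 2 / 4 =
      W0 + m * (B * b ^ 2 * K) * (γ * Z) ^ 2 / 4 := by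
    rw [hW0, hm_bm]
    linear_combination (m * (γ * Z) ^ 2 / 4) * k2
  have k6 : Y * (bm m c1 + bm m c2) = om * W0 := by rw [hom]; field_simp
  have k7 : y * (2 * b - ρ * y) = sg * (1 - m * (B * b ^ 2)) := by
    rw [hsg, div_mul_cancel₀ _ m3]
  have k8 : Z ^ 2 * b ^ 2 * K * sg = 4 * G2 * W0 := by rw [hG2]; field_simp
  have k9 : (R1 ^ 2 - R2 ^ 2) * N = B * ρ * (W0 * (sg - om + B * (m * γ ^ 2) * G2)) := by
    rw [k1, k3, k4, k5, k6, k7]
    generalize 1 - m * (B * b ^ 2) = u at m3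
    field_simp
    linear_combination (B * ρ * m * B * γ ^ 2) * k8
  rw [e1.1, e2.1]
  field_simp
  linear_combination (γ * Z) * k9

/-- The part `z₁ = 0`. -/
lemma F2_id (B m ρ γ κ y b z Y r Z q31 q33 q42 q44 S S' bs D1 D2 J : ℝ)
    (h31 : q31 ^ 2 = hm m (r - γ * Z) - B * b ^ 2)
    (h33 : q33 ^ 2 = hm m (r - γ * Z) - B * (b - κ * γ * z) ^ 2)
    (h42 : q42 ^ 2 = hm m (r - B * ρ * Y - γ * Z) - B * (b - ρ * y) ^ 2)
    (h44 : q44 ^ 2 = hm m (r - B * ρ * Y - γ * Z) - B * (b - ρ * y - κ * γ * z) ^ 2)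
    (n1 : D1 ≠ 0) (n2 : D2 ≠ 0) (n3 : q42 + q31 ≠ 0) (n4 : q44 + q33 ≠ 0)
    (hS : S = y * (2 * b - ρ * y)) (hS' : S' = y * (2 * b - 2 * (κ * γ * z) - ρ * y))
    (hbs : bs = bm m (r - γ * Z) + bm m (r - B * ρ * Y - γ * Z))
    (hD1 : D1 = q31 + q33) (hD2 : D2 = q42 + q44)
    (hJ : J = ((S - Y * bs) / (q42 + q31) + (S' - Y * bs) / (q44 + q33)) / (D1 * D2)) :
    q31 - q33 - (q42 - q44) =
      B * ρ * γ * (κ * (-(2 * (y * z)) / D1 - B * (z * (2 * (b - ρ * y) - κ * γ * z) * J))) := by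
  have a1 : q42 - q31 = B * ρ * ((S - Y * bs) / (q42 + q31)) := by
    have : (q42 - q31) * (q42 + q31) = B * ρ * (S - Y * bs) := by
      rw [hS, hbs]
      unfold hm bm at *
      linear_combination h42 - h31
    field_simp
    linear_combination this
  have a2 : q44 - q33 = B * ρ * ((S' - Y * bs) / (q44 + q33)) := by
    have : (q44 - q33) * (q44 + q33) = B * ρ * (S' - Y * bs) := by
      rw [hS', hbs]
      unfold hm bm at *
      linear_combination h44 - h33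
    field_simp
    linear_combination this
  have a3 : D2 - D1 = B * ρ * (J * (D1 * D2)) := by
    have : J * (D1 * D2) = (S - Y * bs) / (q42 + q31) + (S' - Y * bs) / (q44 + q33) := by
      rw [hJ, div_mul_cancel₀ _ (mul_ne_zero n1 n2)]
    rw [this, hD1, hD2]
    linear_combination a1 + a2
  have a4 : (q31 - q33) * D1 = -(B * κ * γ * z * (2 * b - κ * γ * z)) := by
    rw [hD1]
    linear_combination h31 - h33
  have a5 : (q42 - q44) * D2 = -(B * κ * γ * z * (2 * (b - ρ * y) - κ * γ * z)) := by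
    rw [hD2]
    linear_combination h42 - h44
  have a6 : q31 - q33 = -(B * κ * γ * z * (2 * b - κ * γ * z)) / D1 := by
    rw [← a4, mul_div_cancel_right₀ _ n1]
  have a7 : q42 - q44 = -(B * κ * γ * z * (2 * (b - ρ * y) - κ * γ * z)) / D2 := by
    rw [← a5, mul_div_cancel_right₀ _ n2]
  rw [a6, a7]
  clear hJ hD1 hD2
  field_simp
  linear_combination (-(B * κ * γ * z * (2 * (b - ρ * y) - κ * γ * z))) * a3

end Pool.Agent.SDT.N1M

end -- N1M.P3a
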