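import Pool.Agent.SDT.B07
import Pool.Agent.SDT.B12
import Pool.Agent.SDT.B13

set_option autoImplicit false

namespace Pool.Agent.SDT.MP_6cbfb8_an
end Pool.Agent.SDT.MP_6cbfb8_an
namespace Pool.Agent.SDT.MST
end Pool.Agent.SDT.MST
namespace Pool.Agent.SDT.N1
end Pool.Agent.SDT.N1
namespace Pool.Agent.SDT.N1F
end Pool.Agent.SDT.N1F
namespace Pool.Agent.SDT.N1G
end Pool.Agent.SDT.N1G

section -- MST.DE

namespace Pool.Agent.SDT.MST

open MeasureTheory Set Pool.Agent.SDT.MP_6cbfb8_an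
open scoped ENNReal Real

/-- reflection in the last coordinate. -/
noncomputable def hde_R : E 3 ≃ₗᵢ[ℝ] E 3 :=
  LinearIsometryEquiv.piLpCongrRight 2
    (fun i : Fin 3 => if i = Fin.last 2 then LinearIsometryEquiv.neg ℝ
      else LinearIsometryEquiv.refl ℝ ℝ)

lemma hde_R_last (x : E 3) : hde_R x (Fin.last 2) = - x (Fin.last 2) := by
  simp [hde_R]

lemma hde_R_fst (x : E 3) : (fstE (k := 2) (l := 1) (hde_R x) : E 2) = fstE (k := 2) (l := 1) x := by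
  ext i
  have h : Fin.castAdd 1 i ≠ Fin.last 2 := (Fin.castSucc_lt_last i).ne
  simp only [fstE, hde_R, LinearIsometryEquiv.piLpCongrRight_apply]
  rw [if_neg h]
  rfl

lemma hde_fst_meas : Measurable fun x : E 3 => (fstE (k := 2) (l := 1) x : E 2) := by
  unfold fstE
  refine (WithLp.measurable_toLp 2 _).comp ?_
  exact measurable_pi_lambda _ fun i => by fun_prop

lemma hde_up_meas (r : ℝ) (G : E 2 → ℂ) (hG : Measurable G) : Measurable (up r G) := by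
  unfold up
  refine Measurable.ite ?_ ?_ measurable_const
  · exact measurableSet_lt measurable_const (by fun_prop)
  · exact hG.comp (hde_fst_meas.const_smul r)

lemma hde_null : (sm 3) {x : S 3 | (x : E 3) (Fin.last 2) = 0} = 0 := by
  have hm : MeasurableSet {x : E 3 | x (Fin.last 2) = 0} :=
    measurableSet_eq_fun (by fun_prop) measurable_const
  have h := lintegral_slice 1 ({x : E 3 | x (Fin.last 2) = 0}.indicator 1)
    (measurable_const.indicator hm)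
  have h1 : ∫⁻ x : S 3, ({x : E 3 | x (Fin.last 2) = 0}.indicator (1 : E 3 → ℝ≥0∞)) x ∂(sm 3) =
      (sm 3) {x : S 3 | (x : E 3) (Fin.last 2) = 0} := by
    have hm' : MeasurableSet {x : S 3 | (x : E 3) (Fin.last 2) = 0} :=
      hm.preimage measurable_subtype_coe
    rw [← lintegral_indicator_one hm']
    rfl
  rw [← h1, h]
  rw [lintegral_eq_zero_iff']
  swap
  · refine Measurable.aemeasurable ?_
    refine Measurable.mul (by fun_prop) ?_
    have hm2 : Measurable fun q : ℝ × S 2 =>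
        ({x : E 3 | x (Fin.last 2) = 0}.indicator (1 : E 3 → ℝ≥0∞)) (pt q.1 (q.2 : E 2)) := by
      refine (measurable_const.indicator hm).comp
        (measurable_pt.comp (f := fun q : ℝ × S 2 => (q.1, (q.2 : E 2))) ?_)
      fun_prop
    exact hm2.lintegral_prod_right' (ν := sm 2)
  have h2 : ∀ᵐ θ : ℝ ∂(volume.restrict (Ioo 0 π)), θ ≠ π / 2 := by
    refine ae_restrict_of_ae ?_
    rw [ae_iff]
    simp
  filter_upwards [h2, ae_restrict_mem measurableSet_Ioo] with θ hθ hθ'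
  simp only [Pi.zero_apply]
  have h3 : ∀ ω : S 2, ({x : E 3 | x (Fin.last 2) = 0}.indicator (1 : E 3 → ℝ≥0∞))
      (pt θ (ω : E 2)) = 0 := by
    intro ω
    rw [indicator_of_notMem]
    simp only [mem_ofPred_eq]
    unfold pt
    rw [join_last]
    intro hc
    apply hθ
    exact (Real.injOn_cos.eq_iff ⟨hθ'.1.le, hθ'.2.le⟩ ⟨by positivity, by linarith [Real.pi_pos]⟩).mp
      (by rw [hc, Real.cos_pi_div_two])
  rw [lintegral_congr h3]
  simp

theorem dens_le (p : ℝ) (hp : 1 ≤ p) (r : ℝ) (G : E 2 → ℂ) (hG : Measurable G)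
    (hb : ∀ w, ‖G w‖ ≤ 1) :
    ∫⁻ ξ : E 3, ‖extn (dens r G) ξ‖ₑ ^ p ≤ 2 ^ (p + 1) * ∫⁻ ξ : E 3, ‖extn (up r G) ξ‖ₑ ^ p := by
  have hp0 : 0 ≤ p := by linarith
  have hum := hde_up_meas r G hG
  have hub : ∀ x, ‖up r G x‖ ≤ 1 := by
    intro x
    unfold up
    split_ifs
    · exact hb _
    · simp
  have key : ∀ ξ : E 3, extn (dens r G) ξ = extn (up r G) ξ + extn (up r G) (hde_R ξ) := by
    intro ξ
    have hiso := extn_isometry (up r G) hde_R ξ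
    rw [← hiso]
    unfold extn
    have hphase : ∀ x : S 3, ‖Complex.exp (((-(2 * π * inner ℝ (x : E 3) ξ) : ℝ) : ℂ) *
        Complex.I)‖ = 1 := fun x => Complex.norm_exp_ofReal_mul_I _
    have hem : Measurable fun x : S 3 =>
        Complex.exp (((-(2 * π * inner ℝ (x : E 3) ξ) : ℝ) : ℂ) * Complex.I) := by
      have : Measurable fun x : S 3 => (inner ℝ (x : E 3) ξ : ℝ) := by
        have h4 : Measurable fun x : S 3 => (x : E 3) := measurable_subtype_coe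
        exact h4.inner measurable_const
      fun_prop
    rw [← integral_add]
    · refine integral_congr_ae ?_
      have hnull : ∀ᵐ x : S 3 ∂(sm 3), (x : E 3) (Fin.last 2) ≠ 0 := by
        rw [ae_iff]
        simpa using hde_null
      filter_upwards [hnull] with x hx
      rw [← add_mul]
      congr 1
      unfold up dens
      rw [hde_R_last, hde_R_fst]
      rcases lt_or_gt_of_ne hx with h | h
      · rw [if_neg (by linarith), if_pos (by linarith), zero_add]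
      · rw [if_pos h, if_neg (by linarith), add_zero]
    · refine Integrable.of_bound
        ((hum.comp measurable_subtype_coe).mul hem).aestronglyMeasurable 1
        (Filter.Eventually.of_forall fun x => ?_)
      rw [norm_mul, hphase, mul_one]
      exact hub _
    · refine Integrable.of_bound
        (((hum.comp hde_R.continuous.measurable).comp measurable_subtype_coe).mul
          hem).aestronglyMeasurable 1 (Filter.Eventually.of_forall fun x => ?_)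
      rw [norm_mul, hphase, mul_one]
      exact hub _
  have hme : Measurable fun ξ : E 3 => ‖extn (up r G) ξ‖ₑ ^ p :=
    (measurable_extn _ hum).enorm.pow_const p
  have hRint : ∫⁻ ξ : E 3, ‖extn (up r G) (hde_R ξ)‖ₑ ^ p = ∫⁻ ξ : E 3, ‖extn (up r G) ξ‖ₑ ^ p :=
    hde_R.measurePreserving.lintegral_comp hme
  calc ∫⁻ ξ : E 3, ‖extn (dens r G) ξ‖ₑ ^ p
      ≤ ∫⁻ ξ : E 3, 2 ^ p * (‖extn (up r G) ξ‖ₑ ^ p + ‖extn (up r G) (hde_R ξ)‖ₑ ^ p) := by
        refine lintegral_mono fun ξ => ?_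
        simp only
        rw [key ξ]
        have h1 : ‖extn (up r G) ξ + extn (up r G) (hde_R ξ)‖ₑ ≤
            2 * max ‖extn (up r G) ξ‖ₑ ‖extn (up r G) (hde_R ξ)‖ₑ := by
          refine (enorm_add_le _ _).trans ?_
          rw [two_mul]
          exact add_le_add (le_max_left _ _) (le_max_right _ _)
        calc ‖extn (up r G) ξ + extn (up r G) (hde_R ξ)‖ₑ ^ p
            ≤ (2 * max ‖extn (up r G) ξ‖ₑ ‖extn (up r G) (hde_R ξ)‖ₑ) ^ p :=
              ENNReal.rpow_le_rpow h1 hp0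
          _ = 2 ^ p * (max ‖extn (up r G) ξ‖ₑ ‖extn (up r G) (hde_R ξ)‖ₑ) ^ p :=
              ENNReal.mul_rpow_of_nonneg _ _ hp0
          _ ≤ _ := by
              gcongr
              rcases le_total ‖extn (up r G) ξ‖ₑ ‖extn (up r G) (hde_R ξ)‖ₑ with h | h
              · rw [max_eq_right h]; exact le_add_self
              · rw [max_eq_left h]; exact le_self_add
    _ = 2 ^ p * ((∫⁻ ξ : E 3, ‖extn (up r G) ξ‖ₑ ^ p) +
        ∫⁻ ξ : E 3, ‖extn (up r G) (hde_R ξ)‖ₑ ^ p) := by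
        rw [lintegral_const_mul _ (by
          exact hme.add ((hme.comp hde_R.continuous.measurable))), lintegral_add_left hme]
    _ = 2 ^ (p + 1) * ∫⁻ ξ : E 3, ‖extn (up r G) ξ‖ₑ ^ p := by
        rw [hRint, ← two_mul, ← mul_assoc, ENNReal.rpow_add _ _ (by norm_num) (by norm_num),
          ENNReal.rpow_one]

end Pool.Agent.SDT.MST

end -- MST.DE

section -- N1G.E2

/-!
N1G, block L2b: elementary estimates for a smooth family.
-/

namespace Pool.Agent.SDT.N1G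

open MeasureTheory Set Metric Pool.Agent.SDT.MP_6cbfb8_an Pool.Agent.SDT.MST Pool.Agent.SDT.N1
open scoped ENNReal Real ContDiff

section
variable {P : Type*} [NormedAddCommGroup P] [NormedSpace ℝ P]
variable {F : Fam P} {p0 : P} {x0 y0 : ℝ × ℝ} {r : ℝ}

/-- difference of `o1` in the variable `a` -/
theorem FamOk.o1_a (hF : FamOk F p0 x0 y0 r) (ε : ℝ) (hε : 0 < ε) :
    ∃ δ : ℝ, 0 < δ ∧ ∀ p ∈ ball p0 δ, ∀ y a a' : ℝ, |y - y0.1| ≤ δ → |a - x0.1| ≤ δ →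
      |a' - x0.1| ≤ δ →
      ∃ D : ℝ, |D - deriv (fun a => F.o1 (p0, y0.1, a)) x0.1| ≤ ε ∧
        F.o1 (p, y, a) - F.o1 (p, y, a') = D * (a - a') := by
  obtain ⟨δ, hδ, hδr, h⟩ := mvt_dir F.o1 (p0, y0.1, x0.1) r hF.hr hF.so1 (0, 0, 1) ε hε
  refine ⟨δ / 2, by positivity, fun p hp y a a' h1 h2 h3 => ?_⟩
  have hin : ∀ c : ℝ, |c - x0.1| ≤ δ / 2 → (p, y, c) ∈ ball (p0, y0.1, x0.1) δ := by
    intro c hc
    rw [ball2, ball2, ballR, ballR]
    exact ⟨ball_subset_ball (by linarith) hp, by linarith, by linarith⟩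
  have e1 : (p, y, a') + (a - a') • ((0, 0, 1) : P × ℝ × ℝ) = (p, y, a) := by
    ext <;> simp
  obtain ⟨D, hD, hD'⟩ := h _ (hin a' h3) (a - a') (by rw [e1]; exact hin a h2)
  rw [e1] at hD'
  refine ⟨D, ?_, hD'⟩
  have e2 : deriv (fun a => F.o1 (p0, y0.1, a)) x0.1 =
      fderiv ℝ F.o1 (p0, y0.1, x0.1) (0, 0, 1) := by
    have hdf : DifferentiableAt ℝ F.o1 (p0, y0.1, x0.1) :=
      (hF.so1.contDiffAt (isOpen_ball.mem_nhds (mem_ball_self hF.hr))).differentiableAt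
        (by norm_num)
    have h4 : HasDerivAt (fun b : ℝ => ((p0, y0.1, b) : P × ℝ × ℝ)) (0, 0, 1) x0.1 :=
      (hasDerivAt_const _ _).prodMk ((hasDerivAt_const _ _).prodMk (hasDerivAt_id _))
    exact (hdf.hasFDerivAt.comp_hasDerivAt x0.1 h4).deriv
  rw [e2]
  exact hD

/-- difference of `s` in the variable `b` -/
theorem FamOk.s_b (hF : FamOk F p0 x0 y0 r) :
    ∃ δ C : ℝ, 0 < δ ∧ 0 < C ∧ ∀ p ∈ ball p0 δ, ∀ y b b' : ℝ, |y - y0.2| ≤ δ → |b - x0.2| ≤ δ →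
      |b' - x0.2| ≤ δ → |F.s (p, y, b) - F.s (p, y, b')| ≤ C * |b - b'| := by
  obtain ⟨δ, hδ, hδr, h⟩ := mvt_dir F.s (p0, y0.2, x0.2) r hF.hr hF.ss (0, 0, 1) 1 one_pos
  refine ⟨δ / 2, |fderiv ℝ F.s (p0, y0.2, x0.2) (0, 0, 1)| + 1, by positivity, by positivity,
    fun p hp y a a' h1 h2 h3 => ?_⟩
  have hin : ∀ c : ℝ, |c - x0.2| ≤ δ / 2 → (p, y, c) ∈ ball (p0, y0.2, x0.2) δ := by
    intro c hc
    rw [ball2, ball2, ballR, ballR]
    exact ⟨ball_subset_ball (by linarith) hp, by linarith, by linarith⟩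
  have e1 : (p, y, a') + (a - a') • ((0, 0, 1) : P × ℝ × ℝ) = (p, y, a) := by
    ext <;> simp
  obtain ⟨D, hD, hD'⟩ := h _ (hin a' h3) (a - a') (by rw [e1]; exact hin a h2)
  rw [e1] at hD'
  rw [hD', abs_mul]
  refine mul_le_mul_of_nonneg_right ?_ (abs_nonneg _)
  have := abs_sub_abs_le_abs_sub D (fderiv ℝ F.s (p0, y0.2, x0.2) (0, 0, 1))
  linarith

/-- signs -/
theorem sgn_same {X d : ℝ} (h : |X - d| ≤ |d| / 2) : (0 < d → 0 ≤ X) ∧ (d < 0 → X ≤ 0) := by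
  constructor
  · intro hd
    rw [abs_of_pos hd, abs_le] at h
    linarith [h.1]
  · intro hd
    rw [abs_of_neg hd, abs_le] at h
    linarith [h.2]

theorem sgn_between {X Y d a b ξ : ℝ} (hX : |X - d| ≤ |d| / 2) (hY : |Y - d| ≤ |d| / 2)
    (hd : d ≠ 0) (hξ : ξ ∈ uIcc a b) :
    (0 ≤ X * (ξ - a) ∨ 0 ≤ Y * (ξ - b)) ∧ (X * (ξ - a) ≤ 0 ∨ Y * (ξ - b) ≤ 0) := by
  obtain ⟨x1, x2⟩ := sgn_same hX
  obtain ⟨y1, y2⟩ := sgn_same hY
  rw [mem_uIcc] at hξ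
  rcases lt_or_gt_of_ne hd with k | k
  · have p1 := x2 k
    have p2 := y2 k
    rcases hξ with ⟨u1, u2⟩ | ⟨u1, u2⟩
    · exact ⟨Or.inr (mul_nonneg_of_nonpos_of_nonpos p2 (by linarith)),
        Or.inl (mul_nonpos_of_nonpos_of_nonneg p1 (by linarith))⟩
    · exact ⟨Or.inl (mul_nonneg_of_nonpos_of_nonpos p1 (by linarith)),
        Or.inr (mul_nonpos_of_nonpos_of_nonneg p2 (by linarith))⟩
  · have p1 := x1 k
    have p2 := y1 k
    rcases hξ with ⟨u1, u2⟩ | ⟨u1, u2⟩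
    · exact ⟨Or.inl (mul_nonneg p1 (by linarith)),
        Or.inr (mul_nonpos_of_nonneg_of_nonpos p2 (by linarith))⟩
    · exact ⟨Or.inr (mul_nonneg p2 (by linarith)),
        Or.inl (mul_nonpos_of_nonneg_of_nonpos p1 (by linarith))⟩

theorem abs_half {X d : ℝ} (h : |X - d| ≤ |d| / 2) : |d| / 2 ≤ |X| ∧ |X| ≤ 3 / 2 * |d| := by
  have a1 := abs_sub_abs_le_abs_sub X d
  have a2 := abs_sub_abs_le_abs_sub d X
  rw [abs_sub_comm d X] at a2
  constructor <;> linarith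

theorem e2_mu {A B S μ D z1 z2 d1 Cs : ℝ} (hμ : 0 ≤ μ) (hCs : 0 < Cs) (hd : 0 < |d1|)
    (r1 : A - B = μ * (D * z1) - S) (hs : |S| ≤ Cs * |z2|) (b1 : |d1| / 2 ≤ |D|) :
    μ * |z1| ≤ 2 / |d1| * (1 + Cs) * (|A| + |B| + |z2|) := by
  have f1 : |μ * (D * z1)| ≤ |A| + |B| + Cs * |z2| := by
    have : μ * (D * z1) = A - B + S := by linarith
    rw [this]
    calc |A - B + S| ≤ |A - B| + |S| := abs_add_le _ _
      _ ≤ |A| + |B| + Cs * |z2| := by
          have := abs_sub A B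
          linarith
  rw [abs_mul, abs_mul, abs_of_nonneg hμ] at f1
  have f2 : |d1| / 2 * (μ * |z1|) ≤ μ * (|D| * |z1|) := by
    have h1 : 0 ≤ μ * |z1| := mul_nonneg hμ (abs_nonneg _)
    have h2 := mul_le_mul_of_nonneg_right b1 h1
    linarith
  have f3 : |d1| / 2 * (μ * |z1|) ≤ (1 + Cs) * (|A| + |B| + |z2|) := by
    have a1 := abs_nonneg A
    have a2 := abs_nonneg B
    have a3 := abs_nonneg z2
    have a4 := mul_nonneg hCs.le a1
    have a5 := mul_nonneg hCs.le a2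
    linarith
  calc μ * |z1| = 2 / |d1| * (|d1| / 2 * (μ * |z1|)) := by
        field_simp
    _ ≤ 2 / |d1| * ((1 + Cs) * (|A| + |B| + |z2|)) :=
        mul_le_mul_of_nonneg_left f3 (by positivity)
    _ = _ := by ring

/-- The facts used in case (D): the value of `N` at the intermediate point. -/
theorem FamOk.keyD (hF : FamOk F p0 x0 y0 r) (hD : CaseD F p0 x0 y0) :
    ∃ l Λ C : ℝ, 0 < l ∧ 0 < Λ ∧ 1 ≤ C ∧ ∃ δ0 : ℝ, 0 < δ0 ∧ δ0 ≤ 1 ∧
      ∀ δ : ℝ, 0 < δ → δ ≤ δ0 → ∀ p ∈ ball p0 δ0, 0 ≤ F.μ p →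
      ∀ q : V × V, NbG δ x0 y0 q → ∃ n L M : ℝ, l ≤ L ∧ L ≤ Λ ∧ l ≤ |M| ∧ |M| ≤ Λ ∧
        F.ψ (p, px q) - F.ψ (p, pz q) = -(L * n * q.1.2.2) + M * q.2.2.2 ∧
        F.μ p * |q.1.2.2| ≤ C * (|F.N p (px q)| + |F.N p (pz q)| + |q.2.2.2|) ∧
        |n - F.N p (px q)| ≤ C * (|F.N p (px q)| + |F.N p (pz q)| + |q.2.2.2|) ∧
        (∀ m : ℝ, m ≤ F.N p (px q) → m ≤ F.N p (pz q) → m - C * |q.2.2.2| ≤ n) ∧
        (∀ m : ℝ, F.N p (px q) ≤ m → F.N p (pz q) ≤ m → n ≤ m + C * |q.2.2.2|) := by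
  obtain ⟨d1, hd1⟩ : ∃ d1 : ℝ, d1 = deriv (fun a => F.o1 (p0, y0.1, a)) x0.1 := ⟨_, rfl⟩
  have hd10 : d1 ≠ 0 := by rw [hd1]; exact hD.da
  have hd1p : 0 < |d1| := abs_pos.2 hd10
  have hl0 := hF.lpos
  obtain ⟨l0, hl0e⟩ : ∃ l0 : ℝ, l0 = F.l (p0, (y0, x0)) := ⟨_, rfl⟩
  obtain ⟨m0, hm0e⟩ : ∃ m0 : ℝ, m0 = F.ψb p0 (y0, x0) := ⟨_, rfl⟩
  have hm0 : m0 ≠ 0 := by rw [hm0e]; exact hF.bne
  have hm0p : 0 < |m0| := abs_pos.2 hm0
  rw [← hl0e] at hl0
  obtain ⟨δ1, e1, h1⟩ := hF.o1_a (|d1| / 2) (by positivity)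
  obtain ⟨δ2, Cs, e2, hCs, h2⟩ := hF.s_b
  obtain ⟨δ3, e3, h3⟩ := hF.key (min (l0 / 2) (|m0| / 2)) (by positivity)
  rw [← hd1] at h1
  refine ⟨min (l0 / 2) (|m0| / 2), 2 * (l0 + |m0|), 1 + 2 / |d1| * (1 + Cs) * (3 * |d1|) + Cs +
    2 / |d1| * (1 + Cs), by positivity, by positivity, ?_, min (min δ1 δ2) (min δ3 1),
    lt_min (lt_min e1 e2) (lt_min e3 one_pos), (min_le_right _ _).trans (min_le_right _ _),
    fun δ hδ hδ0 p hp hμ q hq => ?_⟩
  · have : 0 ≤ 2 / |d1| * (1 + Cs) * (3 * |d1|) + Cs + 2 / |d1| * (1 + Cs) := by positivity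
    linarith
  have m1 : min (min δ1 δ2) (min δ3 1) ≤ δ1 := (min_le_left _ _).trans (min_le_left _ _)
  have m2 : min (min δ1 δ2) (min δ3 1) ≤ δ2 := (min_le_left _ _).trans (min_le_right _ _)
  have m3 : min (min δ1 δ2) (min δ3 1) ≤ δ3 := (min_le_right _ _).trans (min_le_left _ _)
  obtain ⟨⟨q1, q2, q3, q4⟩, ⟨q1', q2', q3', q4'⟩, q5, q6⟩ := hq
  have hq3 : NbG δ3 x0 y0 q := by
    have g : δ ≤ δ3 := hδ0.trans m3
    exact ⟨⟨q1.trans g, q2.trans g, q3.trans g, q4.trans g⟩,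
      ⟨q1'.trans g, q2'.trans g, q3'.trans g, q4'.trans g⟩, q5.trans g, q6.trans g⟩
  simp only [px, pz] at q1 q2 q3 q4 q1' q2' q3' q4'
  obtain ⟨ξ, hξ, L, M, hL, hM, -, hK⟩ := h3 p (ball_subset_ball m3 hp) q hq3
  rw [← hl0e] at hL
  rw [← hm0e] at hM
  have hL' := abs_le.1 (hL.trans (min_le_left _ _))
  have hM' := hM.trans (min_le_right _ _)
  have hM1 := abs_sub_abs_le_abs_sub M m0
  have hM2 := abs_sub_abs_le_abs_sub m0 M
  rw [abs_sub_comm m0 M] at hM2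
  have g1 : δ ≤ δ1 := hδ0.trans m1
  have g2 : δ ≤ δ2 := hδ0.trans m2
  have hseg : |ξ - x0.1| ≤ δ1 := by
    rw [mem_uIcc] at hξ
    rw [abs_le] at q3 q3' ⊢
    rcases hξ with hx | hx <;> constructor <;> linarith [hx.1, hx.2]
  obtain ⟨D, hDD, hD1⟩ := h1 p (ball_subset_ball m1 hp) q.1.1 q.1.2.1 (q.1.2.1 - q.1.2.2)
    (q1.trans g1) (q3.trans g1) (q3'.trans g1)
  obtain ⟨D', hDD', hD2⟩ := h1 p (ball_subset_ball m1 hp) q.1.1 ξ q.1.2.1
    (q1.trans g1) hseg (q3.trans g1)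
  obtain ⟨D'', hDD'', hD3⟩ := h1 p (ball_subset_ball m1 hp) q.1.1 ξ (q.1.2.1 - q.1.2.2)
    (q1.trans g1) hseg (q3'.trans g1)
  have hs := h2 p (ball_subset_ball m2 hp) q.2.1 q.2.2.1 (q.2.2.1 - q.2.2.2) (q2.trans g2)
    (q4.trans g2) (q4'.trans g2)
  have ez1 : q.1.2.1 - (q.1.2.1 - q.1.2.2) = q.1.2.2 := by ring
  have ez2 : q.2.2.1 - (q.2.2.1 - q.2.2.2) = q.2.2.2 := by ring
  rw [ez1] at hD1
  rw [ez2] at hs
  obtain ⟨z1, hz1⟩ : ∃ z : ℝ, z = q.1.2.2 := ⟨_, rfl⟩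
  obtain ⟨z2, hz2⟩ : ∃ z : ℝ, z = q.2.2.2 := ⟨_, rfl⟩
  obtain ⟨S, hS⟩ : ∃ S : ℝ, S = F.s (p, q.2.1, q.2.2.1) - F.s (p, q.2.1, q.2.2.1 - q.2.2.2) :=
    ⟨_, rfl⟩
  obtain ⟨A, hA⟩ : ∃ A : ℝ, A = F.N p (px q) := ⟨_, rfl⟩
  obtain ⟨B, hB⟩ : ∃ B : ℝ, B = F.N p (pz q) := ⟨_, rfl⟩
  obtain ⟨n, hn⟩ : ∃ n : ℝ, n = F.N p ((q.1.1, q.2.1), (ξ, q.2.2.1)) := ⟨_, rfl⟩
  obtain ⟨μ, hμe⟩ : ∃ μ : ℝ, μ = F.μ p := ⟨_, rfl⟩
  -- the relations
  have r1 : A - B = μ * (D * z1) - S := by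
    rw [hA, hB, hS, hμe, hz1, ← hD1]
    simp only [Fam.N, nn, Fam.om, Fam.sg, px, pz]
    ring
  have r2 : n - A = μ * (D' * (ξ - q.1.2.1)) := by
    rw [hA, hn, hμe, ← hD2]
    simp only [Fam.N, nn, Fam.om, Fam.sg, px]
    ring
  have r3 : n - B = μ * (D'' * (ξ - (q.1.2.1 - q.1.2.2))) - S := by
    rw [hB, hn, hμe, hS, ← hD3]
    simp only [Fam.N, nn, Fam.om, Fam.sg, pz]
    ring
  rw [← hS, ← hz2] at hs
  rw [← hμe] at hμ
  have hSp := abs_le.1 hs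
  obtain ⟨b1, b1'⟩ := abs_half hDD
  obtain ⟨b2, b2'⟩ := abs_half hDD'
  have hxi : |ξ - q.1.2.1| ≤ |z1| := by
    rw [mem_uIcc] at hξ
    rw [hz1]
    rcases hξ with ⟨x1, x2⟩ | ⟨x1, x2⟩
    · rw [abs_of_nonneg (by linarith), abs_of_nonpos (by linarith)]
      linarith
    · rw [abs_of_nonpos (by linarith), abs_of_nonneg (by linarith)]
      linarith
  have c1 : μ * |z1| ≤ 2 / |d1| * (1 + Cs) * (|A| + |B| + |z2|) := e2_mu hμ hCs hd1p r1 hs b1
  have hsum : 0 ≤ |A| + |B| + |z2| := by positivity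
  have hx : 0 ≤ 2 / |d1| * (1 + Cs) := by positivity
  refine ⟨n, L, M, ?_, ?_, ?_, ?_, ?_, ?_, ?_, ?_, ?_⟩
  · refine (min_le_left _ _).trans ?_
    linarith [hL'.1]
  · linarith [hL'.2, abs_nonneg m0]
  · refine (min_le_right _ _).trans ?_
    linarith
  · linarith
  · rw [hK, hn]
  · rw [← hμe, ← hA, ← hB, ← hz1, ← hz2]
    refine c1.trans (mul_le_mul_of_nonneg_right ?_ hsum)
    have : 0 ≤ 2 / |d1| * (1 + Cs) * (3 * |d1|) := by positivity
    linarith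
  · rw [← hA, ← hB, ← hz2, r2, abs_mul, abs_mul, abs_of_nonneg hμ]
    have f1 : μ * (|D'| * |ξ - q.1.2.1|) ≤ 3 / 2 * |d1| * (μ * |z1|) := by
      have g3 : |D'| * |ξ - q.1.2.1| ≤ 3 / 2 * |d1| * |z1| :=
        mul_le_mul b2' hxi (abs_nonneg _) (by positivity)
      calc μ * (|D'| * |ξ - q.1.2.1|) ≤ μ * (3 / 2 * |d1| * |z1|) :=
            mul_le_mul_of_nonneg_left g3 hμ
        _ = _ := by ring
    calc μ * (|D'| * |ξ - q.1.2.1|) ≤ 3 / 2 * |d1| * (μ * |z1|) := f1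
      _ ≤ 3 / 2 * |d1| * (2 / |d1| * (1 + Cs) * (|A| + |B| + |z2|)) :=
          mul_le_mul_of_nonneg_left c1 (by positivity)
      _ = 2 / |d1| * (1 + Cs) * (3 / 2 * |d1|) * (|A| + |B| + |z2|) := by ring
      _ ≤ _ := by
          refine mul_le_mul_of_nonneg_right ?_ hsum
          have g4 : 2 / |d1| * (1 + Cs) * (3 / 2 * |d1|) ≤ 2 / |d1| * (1 + Cs) * (3 * |d1|) :=
            mul_le_mul_of_nonneg_left (by linarith) hx
          linarith
  · -- lower bound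
    intro m hmA hmB
    rw [← hA] at hmA
    rw [← hB] at hmB
    rw [← hz2]
    have hC : m - Cs * |z2| ≤ n := by
      have s1 := (sgn_between hDD' hDD'' hd10 hξ).1
      rcases s1 with s1 | s1
      · have := mul_nonneg hμ s1
        have := mul_nonneg hCs.le (abs_nonneg z2)
        linarith
      · have := mul_nonneg hμ s1
        linarith [hSp.1, hSp.2]
    have f : Cs * |z2| ≤ (1 + 2 / |d1| * (1 + Cs) * (3 * |d1|) + Cs + 2 / |d1| * (1 + Cs)) *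
        |z2| := by
      refine mul_le_mul_of_nonneg_right ?_ (abs_nonneg _)
      have : 0 ≤ 2 / |d1| * (1 + Cs) * (3 * |d1|) := by positivity
      linarith
    linarith
  · intro m hmA hmB
    rw [← hA] at hmA
    rw [← hB] at hmB
    rw [← hz2]
    have hC : n ≤ m + Cs * |z2| := by
      have s1 := (sgn_between hDD' hDD'' hd10 hξ).2
      rcases s1 with s1 | s1
      · have := mul_nonpos_of_nonneg_of_nonpos hμ s1
        have := mul_nonneg hCs.le (abs_nonneg z2)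
        linarith
      · have := mul_nonpos_of_nonneg_of_nonpos hμ s1
        linarith [hSp.1, hSp.2]
    have f : Cs * |z2| ≤ (1 + 2 / |d1| * (1 + Cs) * (3 * |d1|) + Cs + 2 / |d1| * (1 + Cs)) *
        |z2| := by
      refine mul_le_mul_of_nonneg_right ?_ (abs_nonneg _)
      have : 0 ≤ 2 / |d1| * (1 + Cs) * (3 * |d1|) := by positivity
      linarith
    linarith

end

end Pool.Agent.SDT.N1G

end -- N1G.E2

section -- N1G.E3

/-!
N1G, block L2b: elementary estimates for a smooth family.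
-/

namespace Pool.Agent.SDT.N1G

open MeasureTheory Set Metric Pool.Agent.SDT.MP_6cbfb8_an Pool.Agent.SDT.MST Pool.Agent.SDT.N1
open scoped ENNReal Real ContDiff

set_option linter.unusedSectionVars false

section
variable {P : Type*} [NormedAddCommGroup P] [NormedSpace ℝ P]

theorem e3_Fg {F : Fam P} {p : P} {x0 y0 : ℝ × ℝ} {δ : ℝ} {φ w : YX → ℝ}
    (h : Agr F p x0 y0 δ φ w) {q : V × V} (hq : NbG δ x0 y0 q) :
    Fg φ q = F.ψ (p, px q) - F.ψ (p, pz q) := by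
  unfold Fg
  rw [(h _ hq.1).1, (h _ hq.2.1).1]

/-- R2a -/
theorem e3_low1 {l Λ C κ n L M z1 z2 A B : ℝ} (hl : 0 < l) (hΛ : 0 < Λ) (hC : 1 ≤ C)
    (hκ : 0 < κ) (hL : l ≤ L) (hL' : L ≤ Λ) (hM : l ≤ |M|) (hA : |A| ≤ 2 * κ)
    (hB : |B| ≤ 2 * κ) (hn : |n - A| ≤ C * (|A| + |B| + |z2|))
    (hz1 : |z1| ≤ l / (4 * Λ * C)) (hz : 4 * Λ * (2 + 4 * C) / l * κ * |z1| ≤ |z2|) :
    l / 2 * |z2| ≤ |-(L * n * z1) + M * z2| := by
  have a1 := abs_nonneg z1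
  have a2 := abs_nonneg z2
  have h1 : |n| ≤ (2 + 4 * C) * κ + C * |z2| := by
    have h2 := abs_sub_abs_le_abs_sub n A
    have h3 : C * (|A| + |B| + |z2|) ≤ C * (4 * κ + |z2|) :=
      mul_le_mul_of_nonneg_left (by linarith) (by linarith)
    linarith
  have h2 : |L * n * z1| ≤ Λ * ((2 + 4 * C) * κ + C * |z2|) * |z1| := by
    rw [abs_mul, abs_mul, abs_of_pos (hl.trans_le hL)]
    exact mul_le_mul_of_nonneg_right (mul_le_mul hL' h1 (abs_nonneg _) hΛ.le) a1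
  have h3 : Λ * (2 + 4 * C) * κ * |z1| ≤ l / 4 * |z2| := by
    calc Λ * (2 + 4 * C) * κ * |z1| = l / 4 * (4 * Λ * (2 + 4 * C) / l * κ * |z1|) := by
          field_simp
      _ ≤ l / 4 * |z2| := mul_le_mul_of_nonneg_left hz (by positivity)
  have h4 : Λ * C * |z1| * |z2| ≤ l / 4 * |z2| := by
    refine mul_le_mul_of_nonneg_right ?_ a2
    calc Λ * C * |z1| ≤ Λ * C * (l / (4 * Λ * C)) := mul_le_mul_of_nonneg_left hz1 (by positivity)
      _ = l / 4 := by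
          field_simp
  have h5 : |L * n * z1| ≤ l / 2 * |z2| := by
    refine h2.trans ?_
    calc Λ * ((2 + 4 * C) * κ + C * |z2|) * |z1| =
        Λ * (2 + 4 * C) * κ * |z1| + Λ * C * |z1| * |z2| := by ring
      _ ≤ l / 2 * |z2| := by linarith
  have h6 : l * |z2| ≤ |M * z2| := by
    rw [abs_mul]
    exact mul_le_mul_of_nonneg_right hM a2
  have h7 : |M * z2| ≤ |-(L * n * z1) + M * z2| + |L * n * z1| := by
    have : M * z2 = (-(L * n * z1) + M * z2) + L * n * z1 := by ring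
    calc |M * z2| = |(-(L * n * z1) + M * z2) + L * n * z1| := by rw [← this]
      _ ≤ _ := abs_add_le _ _
  linarith

/-- R2b -/
theorem e3_low2 {l Λ κ n L M z1 z2 : ℝ} (hl : 0 < l) (hΛ : 0 < Λ)
    (hκ : 0 < κ) (hL : l ≤ L) (hM : |M| ≤ Λ) (hn : κ / 4 ≤ |n|)
    (hz : 8 * Λ / l * |z2| ≤ κ * |z1|) :
    l / 8 * (κ * |z1|) ≤ |-(L * n * z1) + M * z2| := by
  have a1 := abs_nonneg z1
  have a2 := abs_nonneg z2
  have h1 : l / 4 * (κ * |z1|) ≤ |L * n * z1| := by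
    rw [abs_mul, abs_mul, abs_of_pos (hl.trans_le hL)]
    calc l / 4 * (κ * |z1|) = l * (κ / 4) * |z1| := by ring
      _ ≤ _ := mul_le_mul_of_nonneg_right (mul_le_mul hL hn (by positivity)
          (hl.le.trans hL)) a1
  have h2 : |M * z2| ≤ l / 8 * (κ * |z1|) := by
    rw [abs_mul]
    calc |M| * |z2| ≤ Λ * |z2| := mul_le_mul_of_nonneg_right hM a2
      _ = l / 8 * (8 * Λ / l * |z2|) := by
          field_simp
      _ ≤ _ := mul_le_mul_of_nonneg_left hz (by positivity)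
  have h7 : |L * n * z1| ≤ |-(L * n * z1) + M * z2| + |M * z2| := by
    have : L * n * z1 = -(-(L * n * z1) + M * z2) + M * z2 := by ring
    calc |L * n * z1| = |-(-(L * n * z1) + M * z2) + M * z2| := by rw [← this]
      _ ≤ |-(-(L * n * z1) + M * z2)| + |M * z2| := abs_add_le _ _
      _ = _ := by rw [abs_neg]
  linarith

theorem famD_E4 (F : Fam P) (p0 : P) (x0 y0 : ℝ × ℝ) (r : ℝ) (h : FamOk F p0 x0 y0 r)
    (hD : CaseD F p0 x0 y0) :
    ∃ C0 C4 c1 δ0 : ℝ, 0 < C0 ∧ 1 ≤ C4 ∧ 0 < c1 ∧ 0 < δ0 ∧ δ0 ≤ 1 ∧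
    ∀ η : ℝ, 0 < η → ∃ δ1 : ℝ, 0 < δ1 ∧ ∀ δ : ℝ, 0 < δ → δ ≤ δ0 → ∀ p ∈ ball p0 (min δ0 δ1),
    0 ≤ F.μ p → ∀ φ w : YX → ℝ, Agr F p x0 y0 δ φ w →
    (δ ≤ δ1 → ∀ s, Bx δ x0 y0 s → |F.N p s| ≤ η) ∧
    (∀ q, NbG δ x0 y0 q → F.μ p * |q.1.2.2| ≤ C0 * (|F.N p (px q)| + |F.N p (pz q)| + |q.2.2.2|)) ∧
    (∀ κ q, 0 < κ → NbG δ x0 y0 q → |F.N p (px q)| ≤ 2 * κ →
      |F.N p (pz q)| ≤ 2 * κ → C4 * κ * |q.1.2.2| ≤ |q.2.2.2| → c1 * |q.2.2.2| ≤ |Fg φ q|) ∧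
    (∀ κ q, 0 < κ → NbG δ x0 y0 q →
      ((κ / 2 ≤ F.N p (px q) ∧ κ / 2 ≤ F.N p (pz q)) ∨
        (F.N p (px q) ≤ -(κ / 2) ∧ F.N p (pz q) ≤ -(κ / 2))) →
      C4 * |q.2.2.2| ≤ κ * |q.1.2.2| → c1 * (κ * |q.1.2.2|) ≤ |Fg φ q|) := by
  obtain ⟨l, Λ, C, hl, hΛ, hC, δ0, d0, d1, H⟩ := h.keyD hD
  have hC0 : 0 < C := by linarith
  have x1 : 0 ≤ 8 * Λ / l := by positivity
  have x2 : 0 ≤ 4 * Λ * (2 + 4 * C) / l := by positivity
  refine ⟨C, 1 + 4 * C + 8 * Λ / l + 4 * Λ * (2 + 4 * C) / l, l / 8,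
    min δ0 (l / (4 * Λ * C)), hC0, by linarith, by positivity, lt_min d0 (by positivity),
    (min_le_left _ _).trans d1, fun η hη => ?_⟩
  obtain ⟨δ1, e1, h1⟩ := h.N_near η hη
  refine ⟨δ1, e1, fun δ hδ hδ0 p hp hμ φ w hA => ⟨fun hδ1 s hs => ?_, fun q hq => ?_,
    fun κ q hκ hq h2 h3 h4 => ?_, fun κ q hκ hq h2 h3 => ?_⟩⟩
  · have hs' : Bx δ1 x0 y0 s :=
      ⟨hs.1.trans hδ1, hs.2.1.trans hδ1, hs.2.2.1.trans hδ1, hs.2.2.2.trans hδ1⟩
    have := h1 p (ball_subset_ball (min_le_right _ _) hp) s hs'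
    rwa [hD.n0, sub_zero] at this
  · obtain ⟨n, L, M, -, -, -, -, -, k, -⟩ := H δ hδ (hδ0.trans (min_le_left _ _)) p
      (ball_subset_ball ((min_le_left _ _).trans (min_le_left _ _)) hp) hμ q hq
    exact k
  · obtain ⟨n, L, M, g1, g2, g3, g4, g5, g6, g7, -⟩ := H δ hδ (hδ0.trans (min_le_left _ _)) p
      (ball_subset_ball ((min_le_left _ _).trans (min_le_left _ _)) hp) hμ q hq
    rw [e3_Fg hA hq, g5]
    have b1 : |q.1.2.2| ≤ l / (4 * Λ * C) := hq.2.2.1.trans (hδ0.trans (min_le_right _ _))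
    have b2 : 4 * Λ * (2 + 4 * C) / l * κ * |q.1.2.2| ≤ |q.2.2.2| := by
      refine le_trans ?_ h4
      refine mul_le_mul_of_nonneg_right (mul_le_mul_of_nonneg_right ?_ hκ.le) (abs_nonneg _)
      linarith
    have := e3_low1 hl hΛ hC hκ g1 g2 g3 h2 h3 g7 b1 b2
    have a2 := abs_nonneg q.2.2.2
    have : l / 8 * |q.2.2.2| ≤ l / 2 * |q.2.2.2| :=
      mul_le_mul_of_nonneg_right (by linarith) a2
    linarith
  · obtain ⟨n, L, M, g1, g2, g3, g4, g5, g6, g7, g8, g9⟩ := H δ hδ (hδ0.trans (min_le_left _ _)) p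
      (ball_subset_ball ((min_le_left _ _).trans (min_le_left _ _)) hp) hμ q hq
    rw [e3_Fg hA hq, g5]
    have a2 := abs_nonneg q.2.2.2
    have b2 : 8 * Λ / l * |q.2.2.2| ≤ κ * |q.1.2.2| := by
      refine le_trans ?_ h3
      refine mul_le_mul_of_nonneg_right ?_ a2
      linarith
    have b3 : C * |q.2.2.2| ≤ κ / 4 := by
      have c1 : 4 * C * |q.2.2.2| ≤ κ * |q.1.2.2| := by
        refine le_trans ?_ h3
        refine mul_le_mul_of_nonneg_right ?_ a2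
        linarith
      have c2 : |q.1.2.2| ≤ 1 :=
        hq.2.2.1.trans (hδ0.trans ((min_le_left _ _).trans d1))
      have c3 : κ * |q.1.2.2| ≤ κ := mul_le_of_le_one_right hκ.le c2
      linarith
    have hn : κ / 4 ≤ |n| := by
      rcases h2 with ⟨h5, h6⟩ | ⟨h5, h6⟩
      · have := g8 _ h5 h6
        refine le_trans ?_ (le_abs_self _)
        linarith
      · have := g9 _ h5 h6
        refine le_trans ?_ (neg_le_abs _)
        linarith
    exact e3_low2 hl hΛ hκ g1 g4 hn b2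

theorem famN_E (F : Fam P) (p0 : P) (x0 y0 : ℝ × ℝ) (r : ℝ) (h : FamOk F p0 x0 y0 r)
    (hN : F.N p0 (y0, x0) ≠ 0) :
    ∃ C4 c1 δ0 : ℝ, 1 ≤ C4 ∧ 0 < c1 ∧ 0 < δ0 ∧ δ0 ≤ 1 ∧
    ∀ δ : ℝ, 0 < δ → δ ≤ δ0 → ∀ p ∈ ball p0 δ0, ∀ φ w : YX → ℝ, Agr F p x0 y0 δ φ w →
    ∀ q, NbG δ x0 y0 q → (C4 * |q.1.2.2| ≤ |q.2.2.2| ∨ C4 * |q.2.2.2| ≤ |q.1.2.2|) →
      c1 * (|q.1.2.2| + |q.2.2.2|) ≤ |Fg φ q| := by
  obtain ⟨n0, hn0⟩ : ∃ n0 : ℝ, n0 = F.N p0 (y0, x0) := ⟨_, rfl⟩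
  obtain ⟨l0, hl0⟩ : ∃ l0 : ℝ, l0 = F.l (p0, (y0, x0)) := ⟨_, rfl⟩
  obtain ⟨m0, hm0⟩ : ∃ m0 : ℝ, m0 = F.ψb p0 (y0, x0) := ⟨_, rfl⟩
  have hn : 0 < |n0| := by rw [hn0]; exact abs_pos.2 hN
  have hl : 0 < l0 := by rw [hl0]; exact h.lpos
  have hm : 0 < |m0| := by rw [hm0]; exact abs_pos.2 h.bne
  obtain ⟨ε, hε⟩ : ∃ ε : ℝ, ε = min (min (l0 / 2) (|m0| / 2)) (|n0| / 2) := ⟨_, rfl⟩
  have hε0 : 0 < ε := by
    rw [hε]
    positivity
  have hεl : ε ≤ l0 / 2 := by rw [hε]; exact (min_le_left _ _).trans (min_le_left _ _)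
  have hεm : ε ≤ |m0| / 2 := by rw [hε]; exact (min_le_left _ _).trans (min_le_right _ _)
  have hεn : ε ≤ |n0| / 2 := by rw [hε]; exact min_le_right _ _
  obtain ⟨δ0, d0, H⟩ := h.key ε hε0
  -- `X = L n` is between `m` and `K`, `Y = |M|` too
  obtain ⟨m, hme⟩ : ∃ m : ℝ, m = min (l0 / 2 * (|n0| / 2)) (|m0| / 2) := ⟨_, rfl⟩
  have hm' : 0 < m := by
    rw [hme]
    positivity
  obtain ⟨K, hKe⟩ : ∃ K : ℝ, K = 2 * l0 * (2 * |n0|) + 2 * |m0| := ⟨_, rfl⟩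
  have hK : 0 < K := by
    rw [hKe]
    positivity
  refine ⟨1 + 2 * K / m, m / 4, min δ0 1, ?_, by positivity, lt_min d0 one_pos, min_le_right _ _,
    fun δ hδ hδ0 p hp φ w hA q hq hz => ?_⟩
  · have : 0 ≤ 2 * K / m := by positivity
    linarith
  have hq' : NbG δ0 x0 y0 q := by
    have g := hδ0.trans (min_le_left _ _)
    obtain ⟨⟨q1, q2, q3, q4⟩, ⟨q1', q2', q3', q4'⟩, q5, q6⟩ := hq
    exact ⟨⟨q1.trans g, q2.trans g, q3.trans g, q4.trans g⟩,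
      ⟨q1'.trans g, q2'.trans g, q3'.trans g, q4'.trans g⟩, q5.trans g, q6.trans g⟩
  obtain ⟨ξ, -, L, M, hL, hM, hN', hF⟩ := H p (ball_subset_ball (min_le_left _ _) hp) q hq'
  rw [e3_Fg hA hq, hF]
  obtain ⟨n, hne⟩ : ∃ n : ℝ, n = F.N p ((q.1.1, q.2.1), (ξ, q.2.2.1)) := ⟨_, rfl⟩
  rw [← hne] at hN' ⊢
  rw [← hn0] at hN'
  rw [← hl0] at hL
  rw [← hm0] at hM
  have hL' := abs_le.1 (hL.trans hεl)
  have k1 : l0 / 2 ≤ L := by linarith [hL'.1]
  have k2 : L ≤ 2 * l0 := by linarith [hL'.2]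
  have k3 := abs_sub_abs_le_abs_sub M m0
  have k4 := abs_sub_abs_le_abs_sub m0 M
  rw [abs_sub_comm m0 M] at k4
  have k5 := abs_sub_abs_le_abs_sub n n0
  have k6 := abs_sub_abs_le_abs_sub n0 n
  rw [abs_sub_comm n0 n] at k6
  have hLp : 0 < L := by linarith
  have u1 : m ≤ |L * n| := by
    rw [abs_mul, abs_of_pos hLp, hme]
    refine (min_le_left _ _).trans (mul_le_mul k1 (by linarith) (by positivity) hLp.le)
  have u2 : |L * n| ≤ K := by
    rw [abs_mul, abs_of_pos hLp, hKe]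
    have : L * |n| ≤ 2 * l0 * (2 * |n0|) :=
      mul_le_mul k2 (by linarith) (abs_nonneg _) (by linarith)
    linarith
  have u3 : m ≤ |M| := by
    rw [hme]
    exact (min_le_right _ _).trans (by linarith)
  have u4 : |M| ≤ K := by
    rw [hKe]
    have : 0 ≤ 2 * l0 * (2 * |n0|) := by positivity
    linarith
  have a1 := abs_nonneg q.1.2.2
  have a2 := abs_nonneg q.2.2.2
  have key : ∀ X Y s t : ℝ, m ≤ |X| → |Y| ≤ K → (1 + 2 * K / m) * |t| ≤ |s| →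
      m / 4 * (|s| + |t|) ≤ |X * s| - |Y * t| := by
    intro X Y s t v1 v2 v3
    have b1 := abs_nonneg s
    have b2 := abs_nonneg t
    have b3 : 0 ≤ 2 * K / m * |t| := by positivity
    have b4 : |t| ≤ |s| := by linarith
    have b5 : K * |t| ≤ m / 2 * |s| := by
      calc K * |t| = m / 2 * (2 * K / m * |t|) := by
            field_simp
        _ ≤ m / 2 * |s| := mul_le_mul_of_nonneg_left (by linarith) (by positivity)
    rw [abs_mul, abs_mul]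
    have b6 : m * |s| ≤ |X| * |s| := mul_le_mul_of_nonneg_right v1 b1
    have b7 : |Y| * |t| ≤ K * |t| := mul_le_mul_of_nonneg_right v2 b2
    have b8 : m / 4 * |t| ≤ m / 4 * |s| := mul_le_mul_of_nonneg_left b4 (by positivity)
    linarith
  rcases hz with hz | hz
  · have := key M (L * n) q.2.2.2 q.1.2.2 u3 u2 hz
    have h7 : |M * q.2.2.2| ≤ |-(L * n * q.1.2.2) + M * q.2.2.2| + |L * n * q.1.2.2| := by
      have : M * q.2.2.2 = (-(L * n * q.1.2.2) + M * q.2.2.2) + L * n * q.1.2.2 := by ring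
      calc |M * q.2.2.2| = |(-(L * n * q.1.2.2) + M * q.2.2.2) + L * n * q.1.2.2| := by
            rw [← this]
        _ ≤ _ := abs_add_le _ _
    linarith
  · have := key (L * n) M q.1.2.2 q.2.2.2 u1 u4 hz
    have h7 : |L * n * q.1.2.2| ≤ |-(L * n * q.1.2.2) + M * q.2.2.2| + |M * q.2.2.2| := by
      have : L * n * q.1.2.2 = -(-(L * n * q.1.2.2) + M * q.2.2.2) + M * q.2.2.2 := by ring
      calc |L * n * q.1.2.2| = |-(-(L * n * q.1.2.2) + M * q.2.2.2) + M * q.2.2.2| := by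
            rw [← this]
        _ ≤ |-(-(L * n * q.1.2.2) + M * q.2.2.2)| + |M * q.2.2.2| := abs_add_le _ _
        _ = _ := by rw [abs_neg]
    linarith

end

end Pool.Agent.SDT.N1G

end -- N1G.E3

section -- N1G.Vol

/-!
N1G, block L2b: the volume of a strip.
-/

namespace Pool.Agent.SDT.N1G

open MeasureTheory Set Metric Pool.Agent.SDT.MP_6cbfb8_an Pool.Agent.SDT.MST Pool.Agent.SDT.N1
open scoped ENNReal Real ContDiff

/-- Volume of a region whose sections in the first direction have diameter at most `k`. -/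
theorem vol_slice1 {I2 I3 J1 J2 J3 : Set ℝ} {k : ℝ} (R : Set (V × V)) (hR : MeasurableSet R)
    (h : ∀ w ∈ R, w.1.2.1 ∈ I2 ∧ w.1.2.2 ∈ I3 ∧ w.2.1 ∈ J1 ∧ w.2.2.1 ∈ J2 ∧ w.2.2.2 ∈ J3)
    (hs : ∀ y y' : ℝ, ∀ az : ℝ × ℝ, ∀ v : ℝ × ℝ × ℝ, ((y, az), v) ∈ R → ((y', az), v) ∈ R →
      |y - y'| ≤ k) :
    volume R ≤ ENNReal.ofReal k * (volume I2 * volume I3) *
      (volume J1 * (volume J2 * volume J3)) := by
  have hJ : volume (J1 ×ˢ (J2 ×ˢ J3)) ≤ volume J1 * (volume J2 * volume J3) := by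
    rw [Measure.volume_eq_prod, Measure.prod_prod, Measure.volume_eq_prod, Measure.prod_prod]
  have hI : volume (I2 ×ˢ I3) ≤ volume I2 * volume I3 := by
    rw [Measure.volume_eq_prod, Measure.prod_prod]
  refine le_trans ?_ (mul_le_mul_right hJ _)
  rw [Measure.volume_eq_prod]
  refine N1E.prod_le_symm _ _ hR (fun p hp => ?_) (fun v => ?_)
  · exact ⟨(h p hp).2.2.1, (h p hp).2.2.2.1, (h p hp).2.2.2.2⟩
  have hS : MeasurableSet ((fun u : ℝ × ℝ × ℝ => (u, v)) ⁻¹' R) :=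
    (measurable_id.prodMk measurable_const) hR
  refine le_trans ?_ (mul_le_mul_right hI _)
  rw [Measure.volume_eq_prod]
  refine N1E.prod_le_symm _ _ hS (fun p hp => ⟨(h _ hp).1, (h _ hp).2.1⟩) (fun az => ?_)
  refine (Real.volume_le_diam _).trans (Metric.ediam_le fun y hy y' hy' => ?_)
  rw [edist_dist, Real.dist_eq]
  exact ENNReal.ofReal_le_ofReal (hs y y' az v hy hy')

variable {P : Type*} [NormedAddCommGroup P] [NormedSpace ℝ P]
  {F : Fam P} {p0 : P} {x0 y0 : ℝ × ℝ} {r : ℝ}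

theorem ball3 {p : P} {y x y1 x1 δ : ℝ} : (p, y, x) ∈ ball (p0, y1, x1) δ ↔
    p ∈ ball p0 δ ∧ |y - y1| < δ ∧ |x - x1| < δ := by
  rw [ball2, ball2, ballR, ballR]

/-- `om` is smooth in all variables. -/
theorem FamOk.smooth_om (h : FamOk F p0 x0 y0 r) :
    ContDiffOn ℝ ∞ (fun e : P × ℝ × ℝ => F.om e.1 e.2) (ball (p0, y0.1, x0.1) r) := by
  have e1 : ContDiffOn ℝ ∞ (fun e : P × ℝ × ℝ => F.o0 (e.1, e.2.1))
      (ball (p0, y0.1, x0.1) r) := by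
    refine h.so0.comp (ContDiff.contDiffOn (by fun_prop)) fun e he => ?_
    obtain ⟨p, y, x⟩ := e
    rw [ball3] at he
    exact ball2.2 ⟨he.1, ballR.2 he.2.1⟩
  have e2 : ContDiffOn ℝ ∞ (fun e : P × ℝ × ℝ => F.μ e.1) (ball (p0, y0.1, x0.1) r) := by
    refine h.sμ.comp (ContDiff.contDiffOn (by fun_prop)) fun e he => ?_
    obtain ⟨p, y, x⟩ := e
    rw [ball3] at he
    exact he.1
  exact (e1.add (e2.mul h.so1)).congr fun _ _ => rfl

/-- `N` is continuous on the box. -/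
theorem FamOk.cont_N_box (h : FamOk F p0 x0 y0 r) {δ : ℝ} (hδ : δ < r) {p : P}
    (hp : p ∈ ball p0 r) : ContinuousOn (fun s : YX => F.N p s) {s | Bx δ x0 y0 s} := by
  have e1 : ContinuousOn (fun s : YX => F.om p (s.1.1, s.2.1)) {s | Bx δ x0 y0 s} := by
    refine ContinuousOn.comp (g := fun e : P × ℝ × ℝ => F.om e.1 e.2)
      (f := fun s : YX => (p, s.1.1, s.2.1)) h.smooth_om.continuousOn (by fun_prop) ?_
    rintro s ⟨s1, s2, s3, s4⟩
    exact ball3.2 ⟨hp, s1.trans_lt hδ, s3.trans_lt hδ⟩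
  have e2 : ContinuousOn (fun s : YX => F.sg p (s.1.2, s.2.2)) {s | Bx δ x0 y0 s} := by
    refine ContinuousOn.comp (g := F.s)
      (f := fun s : YX => (p, s.1.2, s.2.2)) h.ss.continuousOn (by fun_prop) ?_
    rintro s ⟨s1, s2, s3, s4⟩
    exact ball3.2 ⟨hp, s2.trans_lt hδ, s4.trans_lt hδ⟩
  exact e1.sub e2

theorem isClosed_NbG (δ : ℝ) (x0 y0 : ℝ × ℝ) : IsClosed {q : V × V | NbG δ x0 y0 q} := by
  have key : ∀ (f : V × V → ℝ) (c : ℝ), Continuous f → IsClosed {q : V × V | |f q| ≤ c} :=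
    fun f c hf => isClosed_le hf.abs continuous_const
  refine IsClosed.and ?_ (IsClosed.and ?_ (IsClosed.and ?_ ?_))
  · exact (key (fun q => q.1.1 - y0.1) δ (by fun_prop)).and
      ((key (fun q => q.2.1 - y0.2) δ (by fun_prop)).and
      ((key (fun q => q.1.2.1 - x0.1) δ (by fun_prop)).and
      (key (fun q => q.2.2.1 - x0.2) δ (by fun_prop))))
  · exact (key (fun q => q.1.1 - y0.1) δ (by fun_prop)).and
      ((key (fun q => q.2.1 - y0.2) δ (by fun_prop)).and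
      ((key (fun q => q.1.2.1 - q.1.2.2 - x0.1) δ (by fun_prop)).and
      (key (fun q => q.2.2.1 - q.2.2.2 - x0.2) δ (by fun_prop))))
  · exact key (fun q => q.1.2.2) δ (by fun_prop)
  · exact key (fun q => q.2.2.2) δ (by fun_prop)

/-- The volume of a strip. -/
theorem famD_vol (h : FamOk F p0 x0 y0 r) (hD : CaseD F p0 x0 y0) :
    ∃ C3 δ0 : ℝ, 0 ≤ C3 ∧ 0 < δ0 ∧ δ0 ≤ 1 ∧ ∀ δ : ℝ, 0 < δ → δ ≤ δ0 → ∀ p ∈ ball p0 δ0,
    ∀ κ γ d : ℝ, 0 < κ → 0 < γ → 0 < d → volume {q : V × V | NbG δ x0 y0 q ∧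
      |F.N p (px q)| ≤ 2 * κ ∧ |q.1.2.2| ≤ γ ∧ |q.2.2.2| ≤ d} ≤
      ENNReal.ofReal (C3 * κ * γ * d) := by
  obtain ⟨D0, hD0⟩ : ∃ D0 : ℝ, D0 = fderiv ℝ (fun e : P × ℝ × ℝ => F.om e.1 e.2)
    (p0, y0.1, x0.1) (0, 1, 0) := ⟨_, rfl⟩
  have hDne : D0 ≠ 0 := by
    have h1 : HasFDerivAt (fun e : P × ℝ × ℝ => F.om e.1 e.2)
        (fderiv ℝ (fun e : P × ℝ × ℝ => F.om e.1 e.2) (p0, y0.1, x0.1)) (p0, y0.1, x0.1) :=
      ((h.smooth_om.contDiffAt (isOpen_ball.mem_nhds (mem_ball_self h.hr))).differentiableAt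
        (by simp)).hasFDerivAt
    have h2 : HasDerivAt (fun y : ℝ => ((p0, y, x0.1) : P × ℝ × ℝ)) (0, 1, 0) y0.1 :=
      (hasDerivAt_const _ _).prodMk ((hasDerivAt_id _).prodMk (hasDerivAt_const _ _))
    have h3 := HasFDerivAt.comp_hasDerivAt (f := fun y : ℝ => ((p0, y, x0.1) : P × ℝ × ℝ)) y0.1
      h1 h2
    rw [hD0, ← h3.deriv]
    exact hD.dy
  have hDp : 0 < |D0| := abs_pos.2 hDne
  obtain ⟨δ1, hδ1, hδ1r, H⟩ := mvt_dir (fun e : P × ℝ × ℝ => F.om e.1 e.2) (p0, y0.1, x0.1) r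
    h.hr h.smooth_om (0, 1, 0) (|D0| / 2) (half_pos hDp)
  have key : ∀ p ∈ ball p0 δ1, ∀ y y' a : ℝ, |y - y0.1| < δ1 → |y' - y0.1| < δ1 →
      |a - x0.1| < δ1 → |D0| / 2 * |y - y'| ≤ |F.om p (y, a) - F.om p (y', a)| := by
    intro p hp y y' a hy hy' ha
    have e1 : ((p, y', a) : P × ℝ × ℝ) + (y - y') • ((0, 1, 0) : P × ℝ × ℝ) = (p, y, a) := by
      ext <;> simp
    obtain ⟨D, hD1, hD2⟩ := H (p, y', a) (ball3.2 ⟨hp, hy', ha⟩) (y - y') (by
      rw [e1]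
      exact ball3.2 ⟨hp, hy, ha⟩)
    rw [e1] at hD2
    simp only at hD2
    rw [hD2, abs_mul]
    refine mul_le_mul_of_nonneg_right ?_ (abs_nonneg _)
    rw [← hD0] at hD1
    have e2 := abs_sub_abs_le_abs_sub D0 D
    rw [abs_sub_comm] at e2
    linarith
  refine ⟨256 / |D0|, min 1 (δ1 / 2), by positivity, by positivity, min_le_left _ _, ?_⟩
  intro δ hδ hδ0 p hp κ γ d hκ hγ hd
  have hδ' : δ < δ1 := (hδ0.trans (min_le_right _ _)).trans_lt (half_lt_self hδ1)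
  have hδ1' : δ ≤ 1 := hδ0.trans (min_le_left _ _)
  have hp' : p ∈ ball p0 δ1 := ball_subset_ball ((min_le_right _ _).trans (half_le_self hδ1.le)) hp
  have hpr : p ∈ ball p0 r := ball_subset_ball hδ1r hp'
  -- measurability
  have hm : IsClosed {q : V × V | NbG δ x0 y0 q ∧ |F.N p (px q)| ≤ 2 * κ ∧ |q.1.2.2| ≤ γ ∧
      |q.2.2.2| ≤ d} := by
    have c1 : ContinuousOn (fun q : V × V => |F.N p (px q)|) {q : V × V | NbG δ x0 y0 q} := by
      refine ContinuousOn.abs ?_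
      refine ContinuousOn.comp (g := fun s : YX => F.N p s) (f := px)
        (h.cont_N_box (hδ'.trans_le hδ1r) hpr) ?_ fun q hq => hq.1
      unfold px
      fun_prop
    have c2 := c1.preimage_isClosed_of_isClosed (isClosed_NbG δ x0 y0) (isClosed_Iic (a := 2 * κ))
    have c3 : IsClosed {q : V × V | |q.1.2.2| ≤ γ ∧ |q.2.2.2| ≤ d} := by
      have c4 : Continuous fun q : V × V => |q.1.2.2| := by fun_prop
      have c5 : Continuous fun q : V × V => |q.2.2.2| := by fun_prop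
      exact (isClosed_le c4 continuous_const).and (isClosed_le c5 continuous_const)
    convert c2.inter c3 using 1
    ext q
    simp only [mem_ofPred_eq, mem_inter_iff, mem_preimage, mem_Iic]
    tauto
  have h0 := vol_slice1 (I2 := Icc (x0.1 - 1) (x0.1 + 1)) (I3 := Icc (-γ) γ)
    (J1 := Icc (y0.2 - 1) (y0.2 + 1)) (J2 := Icc (x0.2 - 1) (x0.2 + 1)) (J3 := Icc (-d) d)
    (k := 8 * κ / |D0|) _ hm.measurableSet ?_ ?_
  · refine h0.trans ?_
    simp only [Real.volume_Icc]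
    rw [← ENNReal.ofReal_mul (by linarith), ← ENNReal.ofReal_mul (by positivity),
      ← ENNReal.ofReal_mul (by linarith), ← ENNReal.ofReal_mul (by linarith),
      ← ENNReal.ofReal_mul (by
        refine mul_nonneg (by positivity) (mul_nonneg (by linarith) (by linarith)))]
    apply ENNReal.ofReal_le_ofReal
    apply le_of_eq
    field_simp
    ring
  · rintro ⟨⟨y1, a, z1⟩, ⟨y2, b, z2⟩⟩ ⟨⟨⟨h1, h2, h3, h4⟩, -, h5, h6⟩, -, h8, h9⟩
    simp only [px] at h1 h2 h3 h4 h5 h6 h8 h9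
    rw [abs_le] at h2 h3 h4 h8 h9
    exact ⟨⟨by linarith [h3.1], by linarith [h3.2]⟩, h8, ⟨by linarith [h2.1], by linarith [h2.2]⟩,
      ⟨by linarith [h4.1], by linarith [h4.2]⟩, h9⟩
  · rintro y y' ⟨a, z1⟩ ⟨y2, b, z2⟩ ⟨⟨⟨h1, h2, h3, h4⟩, -, -, -⟩, h7, -, -⟩
      ⟨⟨⟨h1', -, -, -⟩, -, -, -⟩, h7', -, -⟩
    simp only [px] at h1 h2 h3 h4 h1' h7 h7'
    have e1 := key p hp' y y' a (h1.trans_lt hδ') (h1'.trans_lt hδ') (h3.trans_lt hδ')
    have e2 : |F.om p (y, a) - F.om p (y', a)| ≤ 4 * κ := by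
      have e3 : F.om p (y, a) - F.om p (y', a) = F.N p ((y, y2), (a, b)) -
          F.N p ((y', y2), (a, b)) := by
        unfold Fam.N nn
        ring
      rw [e3]
      exact (abs_sub _ _).trans (by linarith)
    rw [le_div_iff₀ hDp]
    nlinarith

end Pool.Agent.SDT.N1G

end -- N1G.Vol

section -- N1M.K3

/-!
N1M, block K: scaling of the four-linear form, compactness in the inner variable.
-/

namespace Pool.Agent.SDT.N1M

open MeasureTheory Set Metric Pool.Agent.SDT.MP_6cbfb8_an Pool.Agent.SDT.MST Pool.Agent.SDT.N1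
open Pool.Agent.SDT.N1F Pool.Agent.SDT.N1G
open scoped ENNReal Real ContDiff

/-! ### Scaling of the kernel and of the form -/

theorem gk_Kt_scale (T τ x : ℝ) (hτ : 0 < τ) : Kt T (x / τ) = (τ : ℂ) * Kt (T / τ) x := by
  unfold Kt
  have h1 := Measure.integral_comp_mul_left (fun t : ℝ => ((chi (t / T) : ℝ) : ℂ) * ex (t * (x / τ))) τ
  have h2 : ∀ t : ℝ, ((chi (τ * t / T) : ℝ) : ℂ) * ex (τ * t * (x / τ)) =
      ((chi (t / (T / τ)) : ℝ) : ℂ) * ex (t * x) := by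
    intro t
    congr 2
    · congr 1
      rw [div_div_eq_mul_div, mul_comm]
    · field_simp
  simp only [h2] at h1
  rw [h1, abs_of_pos (by positivity), Complex.real_smul, ← mul_assoc, ← Complex.ofReal_mul,
    mul_inv_cancel₀ hτ.ne', Complex.ofReal_one, one_mul]

/-- Scaling of a triple. -/
noncomputable def s3 (a b c : ℝ) (u : V) : V := (a * u.1, b * u.2.1, c * u.2.2)

theorem s3_meas (a b c : ℝ) : Measurable (s3 a b c) := by
  unfold s3
  fun_prop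

/-- Scaling as a measurable equivalence. -/
noncomputable def s3E (a b c : ℝ) (ha : a ≠ 0) (hb : b ≠ 0) (hc : c ≠ 0) : V ≃ᵐ V :=
  ((Homeomorph.mulLeft₀ a ha).prodCongr ((Homeomorph.mulLeft₀ b hb).prodCongr
    (Homeomorph.mulLeft₀ c hc))).toMeasurableEquiv

lemma s3E_coe (a b c : ℝ) (ha : a ≠ 0) (hb : b ≠ 0) (hc : c ≠ 0) :
    ⇑(s3E a b c ha hb hc) = s3 a b c := rfl

lemma map_s3 (a b c : ℝ) (ha : 0 < a) (hb : 0 < b) (hc : 0 < c) :
    Measure.map (s3 a b c) (volume : Measure V) = ENNReal.ofReal ((a * (b * c))⁻¹) • volume := by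
  have h0 : s3 a b c = Prod.map (fun x : ℝ => a * x) (s2 b c) := rfl
  have h1 : (volume : Measure V) = (volume : Measure ℝ).prod (volume : Measure (ℝ × ℝ)) := rfl
  have h2 : Measurable (s2 b c) := by
    unfold s2
    fun_prop
  rw [h0, h1, ← Measure.map_prod_map _ _ (by fun_prop) h2, Real.map_volume_mul_left ha.ne',
    map_s2 b c hb hc, Measure.prod_smul_right, Measure.prod_smul_left, smul_smul]
  congr 1
  rw [abs_of_pos (by positivity), ← ENNReal.ofReal_mul (by positivity)]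
  congr 1
  field_simp

/-- Scaling of a rectangle: the two blocks are scaled independently. -/
theorem gk_int_scale (f : V × V → ℂ) (a b c a' b' c' : ℝ) (ha : 0 < a) (hb : 0 < b) (hc : 0 < c)
    (ha' : 0 < a') (hb' : 0 < b') (hc' : 0 < c') :
    ∫ q : V × V, f (s3 a b c q.1, s3 a' b' c' q.2) =
      (((a * (b * c) * (a' * (b' * c')))⁻¹ : ℝ) : ℂ) * ∫ q : V × V, f q := by
  have h3 := integral_map_equiv (μ := (volume : Measure (V × V)))
    ((s3E a b c ha.ne' hb.ne' hc.ne').prodCongr (s3E a' b' c' ha'.ne' hb'.ne' hc'.ne')) f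
  have h4 : ⇑((s3E a b c ha.ne' hb.ne' hc.ne').prodCongr
      (s3E a' b' c' ha'.ne' hb'.ne' hc'.ne')) = Prod.map (s3 a b c) (s3 a' b' c') := rfl
  have h5 : Measure.map (Prod.map (s3 a b c) (s3 a' b' c')) (volume : Measure (V × V)) =
      ENNReal.ofReal ((a * (b * c) * (a' * (b' * c')))⁻¹) • volume := by
    have h1 : (volume : Measure (V × V)) = (volume : Measure V).prod (volume : Measure V) := rfl
    rw [h1, ← Measure.map_prod_map _ _ (s3_meas a b c) (s3_meas a' b' c'),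
      map_s3 a b c ha hb hc, map_s3 a' b' c' ha' hb' hc', Measure.prod_smul_right,
      Measure.prod_smul_left, smul_smul]
    congr 1
    rw [← ENNReal.ofReal_mul (by positivity), mul_inv (a * (b * c)), mul_comm]
  rw [h4, h5, integral_smul_measure, ENNReal.toReal_ofReal (by positivity),
    Complex.real_smul] at h3
  rw [h3]
  rfl

/-- **Scaling of the four-linear form.** If the normalised phase and amplitude are obtained from
`φ`, `w` by the scaling `S = (s3 .. , s3 ..)` (possibly with exchange of the two coordinates, which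
is `FFg_comm`), the forms agree up to a constant. -/
theorem gk_FFg_scale (φ w φ' w' : YX → ℝ) (T τ : ℝ) (hτ : 0 < τ) (a b a' b' : ℝ) (ha : 0 < a)
    (hb : 0 < b) (ha' : 0 < a') (hb' : 0 < b')
    (hφ : ∀ p : YX, φ' p = φ ((a * p.1.1, a' * p.1.2), (b * p.2.1, b' * p.2.2)) / τ)
    (hw : ∀ p : YX, w' p = w ((a * p.1.1, a' * p.1.2), (b * p.2.1, b' * p.2.2)))
    (A B : V → ℂ) :
    FFg φ' w' T (tp A B) = ((τ * (a * (b * b) * (a' * (b' * b')))⁻¹ : ℝ) : ℂ) *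
      FFg φ w (T / τ) (tp (fun u => A (s3 a⁻¹ b⁻¹ b⁻¹ u)) (fun v => B (s3 a'⁻¹ b'⁻¹ b'⁻¹ v))) := by
  unfold FFg
  have h1 := gk_int_scale (fun q : V × V => tp (fun u => A (s3 a⁻¹ b⁻¹ b⁻¹ u))
    (fun v => B (s3 a'⁻¹ b'⁻¹ b'⁻¹ v)) q * ((Wg w q : ℝ) : ℂ) * Kt (T / τ) (Fg φ q))
    a b b a' b' b' ha hb hb ha' hb' hb'
  rw [Complex.ofReal_mul, mul_assoc, ← h1, ← integral_const_mul]
  refine integral_congr_ae (Filter.Eventually.of_forall fun q => ?_)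
  have e1 : ∀ u : V, s3 a⁻¹ b⁻¹ b⁻¹ (s3 a b b u) = u := by
    intro u
    unfold s3
    simp only
    rw [inv_mul_cancel_left₀ ha.ne', inv_mul_cancel_left₀ hb.ne', inv_mul_cancel_left₀ hb.ne']
  have e2 : ∀ u : V, s3 a'⁻¹ b'⁻¹ b'⁻¹ (s3 a' b' b' u) = u := by
    intro u
    unfold s3
    simp only
    rw [inv_mul_cancel_left₀ ha'.ne', inv_mul_cancel_left₀ hb'.ne', inv_mul_cancel_left₀ hb'.ne']
  have e3 : Wg w' q = Wg w (s3 a b b q.1, s3 a' b' b' q.2) := by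
    unfold Wg px pz s3
    rw [hw, hw]
    simp only [mul_sub]
  have e4 : Fg φ' q = Fg φ (s3 a b b q.1, s3 a' b' b' q.2) / τ := by
    unfold Fg px pz s3
    rw [hφ, hφ]
    simp only [mul_sub]
    ring
  simp only [tp]
  rw [e1, e2, e3, e4, gk_Kt_scale T τ _ hτ]
  ring

end Pool.Agent.SDT.N1M

end -- N1M.K3
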