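import Pool.Agent.SDT.B05
import Pool.Agent.SDT.B13

set_option autoImplicit false

namespace Pool.Agent.SDT.MP_6cbfb8_an
end Pool.Agent.SDT.MP_6cbfb8_an
namespace Pool.Agent.SDT.MST
end Pool.Agent.SDT.MST
namespace Pool.Agent.SDT.N1
end Pool.Agent.SDT.N1

section -- FN.S1

/-!
FN, soft part: one-dimensional `L⁴` estimates.
-/

namespace Pool.Agent.SDT.FN

open MeasureTheory Set Metric Pool.Agent.SDT.MP_6cbfb8_an Pool.Agent.SDT.MST Pool.Agent.SDT.N1
open scoped ENNReal Real

/-- The coordinate of the line. -/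
noncomputable def e1 : E 1 ≃ᵐ ℝ :=
  (MeasurableEquiv.toLp 2 (Fin 1 → ℝ)).symm.trans (MeasurableEquiv.funUnique (Fin 1) ℝ)

theorem e1_apply (w : E 1) : e1 w = w 0 := rfl

theorem e1_mp : MeasurePreserving e1 (volume : Measure (E 1)) (volume : Measure ℝ) :=
  (volume_preserving_funUnique (Fin 1) ℝ).comp
    (EuclideanSpace.volume_preserving_symm_measurableEquiv_toLp (Fin 1))

/-- Three coordinates. -/
noncomputable def e3 : E 1 × E 1 × E 1 ≃ᵐ ℝ × ℝ × ℝ := e1.prodCongr (e1.prodCongr e1)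

theorem e3_mp : MeasurePreserving e3 (volume : Measure (E 1 × E 1 × E 1))
    (volume : Measure (ℝ × ℝ × ℝ)) := e1_mp.prod (e1_mp.prod e1_mp)

theorem four1 {Λ : Type*} [MeasurableSpace Λ] (μ : Measure Λ) [IsFiniteMeasure μ]
    (A : Λ → ℝ → ℂ) (hA : Measurable (Function.uncurry A)) (B R : ℝ)
    (hB : ∀ l w, ‖A l w‖ ≤ B) (hR : ∀ l w, R < |w| → A l w = 0)
    (G : ℝ → ℂ) (hG : Measurable G) (hb : ∀ w, ‖G w‖ ≤ 1) :
    ∫⁻ l, (∫⁻ x : ℝ, ‖∫ w : ℝ, G w * A l w * ex (w * x)‖ₑ ^ (4:ℝ)) ∂μ ≤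
      ∫⁻ q : ℝ × ℝ × ℝ, ‖∫ l, A l q.1 * A l (q.1 - q.2.1 - q.2.2) *
        (starRingEnd ℂ) (A l (q.1 - q.2.1)) * (starRingEnd ℂ) (A l (q.1 - q.2.2)) ∂μ‖ₑ := by
  have h0 : Measurable fun w : E 1 => w 0 := by fun_prop
  have hn : ∀ w : E 1, ‖w‖ = |w 0| := by
    intro w
    rw [EuclideanSpace.norm_eq]
    simp [Real.sqrt_sq_eq_abs]
  have key := four_linear_param (m := 1) μ (fun l w => A l (w 0))
    (hA.comp (measurable_fst.prodMk (h0.comp measurable_snd))) B R (fun l w => hB l _)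
    (fun l w hw => hR l _ (by rw [← hn]; exact hw)) (fun w => G (w 0)) (hG.comp h0)
    (fun w => hb _)
  refine le_trans (le_of_eq ?_) (key.trans (le_of_eq ?_))
  · refine lintegral_congr fun l => ?_
    rw [← e1_mp.lintegral_comp_emb e1.measurableEmbedding
      (fun x : ℝ => ‖∫ w : ℝ, G w * A l w * ex (w * x)‖ₑ ^ (4:ℝ))]
    refine lintegral_congr fun x => ?_
    rw [← e1_mp.integral_comp e1.measurableEmbedding]
    congr 2
    refine integral_congr_ae (Filter.Eventually.of_forall fun w => ?_)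
    simp only [e1_apply]
    congr 2
    simp [PiLp.inner_apply]
    ring
  · rw [← e3_mp.lintegral_comp_emb e3.measurableEmbedding]
    refine lintegral_congr fun q => ?_
    rfl

theorem enorm4_le (a b c d : ℝ≥0∞) :
    a * b * c * d ≤ a ^ (4:ℝ) + b ^ (4:ℝ) + c ^ (4:ℝ) + d ^ (4:ℝ) := by
  have h4 : ∀ x : ℝ≥0∞, x ^ (4:ℝ) = x * x * x * x := by
    intro x
    have : (4:ℝ) = ((4:ℕ):ℝ) := by norm_num
    rw [this, ENNReal.rpow_natCast]
    ring
  have hm : ∀ m : ℝ≥0∞, a ≤ m → b ≤ m → c ≤ m → d ≤ m → a * b * c * d ≤ m ^ (4:ℝ) := by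
    intro m h1 h2 h3 h5
    rw [h4]
    gcongr
  rcases le_total a b with h1 | h1
  · rcases le_total c d with h2 | h2
    · rcases le_total b d with h3 | h3
      · refine (hm d (h1.trans h3) h3 h2 le_rfl).trans ?_
        exact le_add_self
      · refine (hm b h1 le_rfl (h2.trans h3) h3).trans ?_
        refine le_trans ?_ le_self_add
        refine le_trans ?_ le_self_add
        exact le_add_self
    · rcases le_total b c with h3 | h3
      · refine (hm c (h1.trans h3) h3 le_rfl h2).trans ?_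
        refine le_trans ?_ le_self_add
        exact le_add_self
      · refine (hm b h1 le_rfl h3 (h2.trans h3)).trans ?_
        refine le_trans ?_ le_self_add
        refine le_trans ?_ le_self_add
        exact le_add_self
  · rcases le_total c d with h2 | h2
    · rcases le_total a d with h3 | h3
      · refine (hm d h3 (h1.trans h3) h2 le_rfl).trans ?_
        exact le_add_self
      · refine (hm a le_rfl h1 (h2.trans h3) h3).trans ?_
        refine le_trans ?_ le_self_add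
        refine le_trans ?_ le_self_add
        exact le_self_add
    · rcases le_total a c with h3 | h3
      · refine (hm c h3 (h1.trans h3) le_rfl h2).trans ?_
        refine le_trans ?_ le_self_add
        exact le_add_self
      · refine (hm a le_rfl h1 h3 (h2.trans h3)).trans ?_
        refine le_trans ?_ le_self_add
        refine le_trans ?_ le_self_add
        exact le_self_add

/-- The one-dimensional `L⁴` estimate for functions with small support. -/
theorem l4a (f : ℝ → ℂ) (hf : Measurable f) (B : ℝ) (hB : ∀ w, ‖f w‖ ≤ B) (δ : ℝ) (hδ : 0 < δ)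
    (hs : ∀ w, δ < |w| → f w = 0) :
    ∫⁻ x : ℝ, ‖∫ w : ℝ, f w * ex (w * x)‖ₑ ^ (4:ℝ) ≤
      ENNReal.ofReal (64 * δ ^ 2) * ∫⁻ w : ℝ, ‖f w‖ₑ ^ (4:ℝ) := by
  have key := four1 (Measure.dirac ()) (fun _ w => f w) (hf.comp measurable_snd) B δ
    (fun _ w => hB w) (fun _ w hw => hs w hw) (fun _ => 1) measurable_const (fun _ => by simp)
  rw [lintegral_dirac] at key
  simp only [one_mul, integral_dirac] at key
  refine key.trans ?_
  set φ : ℝ → ℝ≥0∞ := fun w => ‖f w‖ₑ ^ (4:ℝ) with hφ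
  have hφm : Measurable φ := hf.enorm.pow_const _
  set I : ℝ → ℝ≥0∞ := (Icc (-(2 * δ)) (2 * δ)).indicator 1 with hI
  have hIm : Measurable I := measurable_one.indicator measurableSet_Icc
  have hI1 : ∀ y, |y| ≤ 2 * δ → I y = 1 := by
    intro y hy
    have hmem : y ∈ Icc (-(2 * δ)) (2 * δ) := abs_le.1 hy
    rw [hI, indicator_of_mem hmem, Pi.one_apply]
  have hle : ∀ w, f w ≠ 0 → |w| ≤ δ := by
    intro w hw
    by_contra h
    exact hw (hs w (not_le.1 h))
  have hpt : ∀ q : ℝ × ℝ × ℝ, ‖f q.1 * f (q.1 - q.2.1 - q.2.2) *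
        (starRingEnd ℂ) (f (q.1 - q.2.1)) * (starRingEnd ℂ) (f (q.1 - q.2.2))‖ₑ ≤
      I q.2.1 * I q.2.2 * (φ q.1 + φ (q.1 - q.2.1 - q.2.2) + φ (q.1 - q.2.1) +
        φ (q.1 - q.2.2)) := by
    intro q
    by_cases h : f q.1 = 0 ∨ f (q.1 - q.2.1) = 0 ∨ f (q.1 - q.2.2) = 0
    · have h0 : f q.1 * f (q.1 - q.2.1 - q.2.2) *
          (starRingEnd ℂ) (f (q.1 - q.2.1)) * (starRingEnd ℂ) (f (q.1 - q.2.2)) = 0 := by
        rcases h with h | h | h <;> rw [h] <;> simp
      rw [h0, enorm_zero]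
      exact zero_le
    · push Not at h
      obtain ⟨h1, h2, h3⟩ := h
      have a1 := abs_le.1 (hle _ h1)
      have a2 := abs_le.1 (hle _ h2)
      have a3 := abs_le.1 (hle _ h3)
      rw [hI1 q.2.1 (abs_le.2 ⟨by linarith, by linarith⟩),
        hI1 q.2.2 (abs_le.2 ⟨by linarith, by linarith⟩), one_mul, one_mul,
        enorm_mul, enorm_mul, enorm_mul]
      have e1 : ∀ z : ℂ, ‖(starRingEnd ℂ) z‖ₑ = ‖z‖ₑ := by
        intro z
        rw [← ofReal_norm, ← ofReal_norm, RCLike.norm_conj]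
      rw [e1, e1]
      exact enorm4_le _ _ _ _
  have hKm : Measurable fun q : ℝ × ℝ × ℝ => I q.2.1 * I q.2.2 * (φ q.1 +
      φ (q.1 - q.2.1 - q.2.2) + φ (q.1 - q.2.1) + φ (q.1 - q.2.2)) := by
    have m1 : Measurable fun q : ℝ × ℝ × ℝ => I q.2.1 := hIm.comp (by fun_prop)
    have m2 : Measurable fun q : ℝ × ℝ × ℝ => I q.2.2 := hIm.comp (by fun_prop)
    have m3 : Measurable fun q : ℝ × ℝ × ℝ => φ q.1 := hφm.comp (by fun_prop)
    have m4 : Measurable fun q : ℝ × ℝ × ℝ => φ (q.1 - q.2.1 - q.2.2) := hφm.comp (by fun_prop)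
    have m5 : Measurable fun q : ℝ × ℝ × ℝ => φ (q.1 - q.2.1) := hφm.comp (by fun_prop)
    have m6 : Measurable fun q : ℝ × ℝ × ℝ => φ (q.1 - q.2.2) := hφm.comp (by fun_prop)
    exact (m1.mul m2).mul (((m3.add m4).add m5).add m6)
  refine (lintegral_mono hpt).trans ?_
  rw [Measure.volume_eq_prod, lintegral_prod_symm _ hKm.aemeasurable]
  have hin : ∀ y : ℝ × ℝ, ∫⁻ w : ℝ, I y.1 * I y.2 * (φ w + φ (w - y.1 - y.2) + φ (w - y.1) +
      φ (w - y.2)) = I y.1 * I y.2 * (4 * ∫⁻ w, φ w) := by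
    intro y
    have mm : ∀ s : ℝ, Measurable fun w : ℝ => φ (w - s) := fun s => hφm.comp (by fun_prop)
    have mm2 : Measurable fun w : ℝ => φ (w - y.1 - y.2) := hφm.comp (by fun_prop)
    have ee : ∀ s : ℝ, ∫⁻ w : ℝ, φ (w - s) = ∫⁻ w, φ w := fun s =>
      lintegral_sub_right_eq_self (μ := (volume : Measure ℝ)) φ s
    have e2 : ∫⁻ w : ℝ, φ (w - y.1 - y.2) = ∫⁻ w, φ w := by
      rw [← ee (y.1 + y.2)]
      refine lintegral_congr fun w => ?_
      rw [sub_sub]
    have n1 : Measurable fun w : ℝ => φ w + φ (w - y.1 - y.2) := hφm.add mm2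
    have n2 : Measurable fun w : ℝ => φ w + φ (w - y.1 - y.2) + φ (w - y.1) := n1.add (mm _)
    have n3 : Measurable fun w : ℝ => φ w + φ (w - y.1 - y.2) + φ (w - y.1) + φ (w - y.2) :=
      n2.add (mm _)
    calc ∫⁻ w : ℝ, I y.1 * I y.2 * (φ w + φ (w - y.1 - y.2) + φ (w - y.1) + φ (w - y.2))
        = I y.1 * I y.2 * ∫⁻ w : ℝ, (φ w + φ (w - y.1 - y.2) + φ (w - y.1) + φ (w - y.2)) :=
          lintegral_const_mul _ n3
      _ = I y.1 * I y.2 * (((∫⁻ w : ℝ, φ w) + (∫⁻ w : ℝ, φ (w - y.1 - y.2)) +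
          ∫⁻ w : ℝ, φ (w - y.1)) + ∫⁻ w : ℝ, φ (w - y.2)) := by
          rw [lintegral_add_left n2, lintegral_add_left n1, lintegral_add_left hφm]
      _ = I y.1 * I y.2 * (4 * ∫⁻ w, φ w) := by
          rw [ee, ee, e2]
          ring
  have hII : Measurable fun y : ℝ × ℝ => I y.1 * I y.2 :=
    (hIm.comp measurable_fst).mul (hIm.comp measurable_snd)
  simp only
  rw [lintegral_congr hin, lintegral_mul_const _ hII, Measure.volume_eq_prod,
    lintegral_prod_mul hIm.aemeasurable hIm.aemeasurable]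
  have hI2 : ∫⁻ y, I y = ENNReal.ofReal (4 * δ) := by
    rw [hI, lintegral_indicator_one measurableSet_Icc, Real.volume_Icc]
    congr 1
    ring
  rw [hI2, ← mul_assoc, ← ENNReal.ofReal_mul (by positivity)]
  refine mul_le_mul_left ?_ _
  have h4 : (4 : ℝ≥0∞) = ENNReal.ofReal 4 := by simp
  rw [h4, ← ENNReal.ofReal_mul (by positivity)]
  apply ENNReal.ofReal_le_ofReal
  nlinarith

end Pool.Agent.SDT.FN

end -- FN.S1

section -- FN.S1b

/-!
FN, soft part: the planar `L⁴` estimate with a logarithm.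
-/

namespace Pool.Agent.SDT.FN

open MeasureTheory Set Metric Pool.Agent.SDT.MP_6cbfb8_an Pool.Agent.SDT.MST Pool.Agent.SDT.N1
open scoped ENNReal Real

/-- Four points and concavity. -/
theorem four_pt {S : Set ℝ} {g : ℝ → ℝ} (hg : ConcaveOn ℝ S g) {p r u v : ℝ} (hp : p ∈ S)
    (hr : r ∈ S) (hu : p ≤ u) (hu' : u ≤ r) (huv : u + v = p + r) :
    g p + g r ≤ g u + g v := by
  rcases eq_or_lt_of_le (hu.trans hu') with h | h
  · have h1 : u = p := le_antisymm (by rw [h]; exact hu') hu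
    have h2 : v = r := by linarith
    rw [h1, h2]
  · have hd : 0 < r - p := by linarith
    set l : ℝ := (r - u) / (r - p) with hl
    have hl0 : 0 ≤ l := div_nonneg (by linarith) hd.le
    have hl1 : l ≤ 1 := by rw [hl, div_le_one hd]; linarith
    have e1 : l * (r - p) = r - u := by rw [hl]; field_simp
    have h1 := hg.2 hp hr hl0 (sub_nonneg.2 hl1) (by ring)
    have h2 := hg.2 hp hr (sub_nonneg.2 hl1) hl0 (by ring)
    simp only [smul_eq_mul] at h1 h2
    have e2 : l * p + (1 - l) * r = u := by linarith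
    have e3 : (1 - l) * p + l * r = v := by linarith
    rw [e2] at h1
    rw [e3] at h2
    linarith

/-- `√(A - b²) + b² / 2` is concave for `A ≤ 1`. -/
theorem conc (A : ℝ) (hA : A ≤ 1) :
    ConcaveOn ℝ {b : ℝ | b ^ 2 < A} (fun b => √(A - b ^ 2) + b ^ 2 / 2) := by
  have key : ∀ x ∈ {b : ℝ | b ^ 2 < A}, ∀ y ∈ {b : ℝ | b ^ 2 < A}, ∀ l k : ℝ, 0 ≤ l → 0 ≤ k →
      l + k = 1 → (l * x + k * y) ^ 2 < A ∧ l * (√(A - x ^ 2) + x ^ 2 / 2) +
        k * (√(A - y ^ 2) + y ^ 2 / 2) ≤ √(A - (l * x + k * y) ^ 2) + (l * x + k * y) ^ 2 / 2 := by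
    intro x hx y hy l k hl hk hlk
    simp only [mem_ofPred_eq] at hx hy
    obtain ⟨r, hr⟩ : ∃ r, r = √(A - x ^ 2) := ⟨_, rfl⟩
    obtain ⟨s, hs⟩ : ∃ s, s = √(A - y ^ 2) := ⟨_, rfl⟩
    have hr0 : 0 ≤ r := hr ▸ Real.sqrt_nonneg _
    have hs0 : 0 ≤ s := hs ▸ Real.sqrt_nonneg _
    have hr2 : r ^ 2 = A - x ^ 2 := by rw [hr, Real.sq_sqrt (by linarith)]
    have hs2 : s ^ 2 = A - y ^ 2 := by rw [hs, Real.sq_sqrt (by linarith)]
    have hkl : k = 1 - l := by linarith
    have h1 : A - (l * x + k * y) ^ 2 =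
        (l * r + k * s) ^ 2 + l * k * ((r - s) ^ 2 + (x - y) ^ 2) := by
      rw [hkl]
      linear_combination (-l) * hr2 + (-(1 - l)) * hs2
    have hm0 : 0 ≤ l * r + k * s := by positivity
    have hlk0 : 0 ≤ l * k := by positivity
    have hpos : 0 ≤ l * k * ((r - s) ^ 2 + (x - y) ^ 2) := by positivity
    constructor
    · have hlt : l * x ^ 2 + k * y ^ 2 < A := by
        rcases hl.eq_or_lt with h | h
        · have : k = 1 := by linarith
          rw [← h, this]
          linarith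
        · have e1 : l * x ^ 2 < l * A := mul_lt_mul_of_pos_left hx h
          have e2 : k * y ^ 2 ≤ k * A := mul_le_mul_of_nonneg_left hy.le hk
          have e3 : l * A + k * A = A := by rw [← add_mul, hlk, one_mul]
          linarith
      have e4 : (l * x + k * y) ^ 2 = l * x ^ 2 + k * y ^ 2 - l * k * (x - y) ^ 2 := by
        rw [hkl]; ring
      have e5 : 0 ≤ l * k * (x - y) ^ 2 := by positivity
      linarith
    · rw [← hr, ← hs]
      have e4 : (l * x + k * y) ^ 2 = l * x ^ 2 + k * y ^ 2 - l * k * (x - y) ^ 2 := by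
        rw [hkl]; ring
      have hm1 : (l * r + k * s) ^ 2 + l * k * (x - y) ^ 2 ≤ 1 := by
        have : 0 ≤ l * k * (r - s) ^ 2 := by positivity
        nlinarith [sq_nonneg (l * x + k * y)]
      obtain ⟨m, hm⟩ : ∃ m, m = l * r + k * s := ⟨_, rfl⟩
      obtain ⟨D, hD⟩ : ∃ D, D = l * k * (x - y) ^ 2 := ⟨_, rfl⟩
      have hD0 : 0 ≤ D := by rw [hD]; positivity
      rw [← hm] at hm0 h1
      rw [← hm, ← hD] at hm1
      have hmle : m ≤ 1 := by nlinarith
      have hsq : m + D / 2 ≤ √(A - (l * x + k * y) ^ 2) := by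
        apply Real.le_sqrt_of_sq_le
        rw [h1]
        have e6 : 0 ≤ l * k * (r - s) ^ 2 := by positivity
        have e7 : D ≤ 2 * (1 - m) := by nlinarith
        have e8 : (m + D / 2) ^ 2 ≤ m ^ 2 + D := by nlinarith
        have e9 : l * k * ((r - s) ^ 2 + (x - y) ^ 2) = l * k * (r - s) ^ 2 + D := by
          rw [hD]; ring
        linarith
      rw [e4, ← hD] at hsq ⊢
      linarith
  constructor
  · intro x hx y hy l k hl hk hlk
    exact (key x hx y hy l k hl hk hlk).1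
  · intro x hx y hy l k hl hk hlk
    exact (key x hx y hy l k hl hk hlk).2

/-- The four-term difference of `√(A - b²)` is at least `|y z|`. -/
theorem four_diff (A : ℝ) (hA : A ≤ 1) (b y z : ℝ) (h1 : b ^ 2 < A) (h2 : (b - y) ^ 2 < A)
    (h3 : (b - z) ^ 2 < A) (h4 : (b - y - z) ^ 2 < A) :
    |y * z| ≤ |√(A - b ^ 2) + √(A - (b - y - z) ^ 2) - √(A - (b - y) ^ 2) -
      √(A - (b - z) ^ 2)| := by
  have hc := conc A hA
  rcases le_total 0 y with hy | hy
  · rcases le_total 0 z with hz | hz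
    · have := four_pt hc (p := b - y - z) (r := b) (u := b - y) (v := b - z) h4 h1 (by linarith)
        (by linarith) (by ring)
      have hyz : 0 ≤ y * z := mul_nonneg hy hz
      rw [abs_of_nonneg hyz]
      refine le_trans ?_ (neg_le_abs _)
      nlinarith
    · have := four_pt hc (p := b - y) (r := b - z) (u := b) (v := b - y - z) h2 h3 (by linarith)
        (by linarith) (by ring)
      have hyz : y * z ≤ 0 := mul_nonpos_of_nonneg_of_nonpos hy hz
      rw [abs_of_nonpos hyz]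
      refine le_trans ?_ (le_abs_self _)
      nlinarith
  · rcases le_total 0 z with hz | hz
    · have := four_pt hc (p := b - z) (r := b - y) (u := b) (v := b - y - z) h3 h2 (by linarith)
        (by linarith) (by ring)
      have hyz : y * z ≤ 0 := mul_nonpos_of_nonpos_of_nonneg hy hz
      rw [abs_of_nonpos hyz]
      refine le_trans ?_ (le_abs_self _)
      nlinarith
    · have := four_pt hc (p := b) (r := b - y - z) (u := b - y) (v := b - z) h1 h4 (by linarith)
        (by linarith) (by ring)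
      have hyz : 0 ≤ y * z := mul_nonneg_of_nonpos_of_nonpos hy hz
      rw [abs_of_nonneg hyz]
      refine le_trans ?_ (neg_le_abs _)
      nlinarith

theorem lint_abs (h : ℝ → ℝ≥0∞) (R : ℝ) :
    ∫⁻ z in Icc (-R) R, h |z| ≤ 2 * ∫⁻ z in Icc 0 R, h z := by
  have hsub : Icc (-R) R ⊆ Icc (-R) 0 ∪ Icc 0 R := by
    intro z hz
    rcases le_total z 0 with h | h
    · exact Or.inl ⟨hz.1, h⟩
    · exact Or.inr ⟨h, hz.2⟩
  have h1 : ∫⁻ z in Icc 0 R, h |z| = ∫⁻ z in Icc 0 R, h z :=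
    setLIntegral_congr_fun measurableSet_Icc fun z hz => by
      show h |z| = h z
      rw [abs_of_nonneg hz.1]
  have h2 : ∫⁻ z in Icc (-R) 0, h |z| = ∫⁻ z in Icc 0 R, h |z| := by
    have m1 : MeasurePreserving (fun t : ℝ => -t) volume volume :=
      Measure.measurePreserving_neg (volume : Measure ℝ)
    have m2 : MeasurableEmbedding (fun t : ℝ => -t) := (MeasurableEquiv.neg ℝ).measurableEmbedding
    have h3 := m1.setLIntegral_comp_preimage_emb m2 (fun t : ℝ => h |t|) (Icc (-R) 0)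
    rw [← h3]
    have h4 : (fun t : ℝ => -t) ⁻¹' Icc (-R) 0 = Icc 0 R := by
      ext t
      simp only [mem_preimage, mem_Icc]
      constructor
      · rintro ⟨a, b⟩
        constructor <;> linarith
      · rintro ⟨a, b⟩
        constructor <;> linarith
    rw [h4]
    refine lintegral_congr fun t => ?_
    rw [abs_neg]
  calc ∫⁻ z in Icc (-R) R, h |z| ≤ ∫⁻ z in Icc (-R) 0 ∪ Icc 0 R, h |z| := lintegral_mono_set hsub
    _ ≤ (∫⁻ z in Icc (-R) 0, h |z|) + ∫⁻ z in Icc 0 R, h |z| := lintegral_union_le _ _ _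
    _ = 2 * ∫⁻ z in Icc 0 R, h z := by rw [h2, h1, two_mul]

theorem lint_Icc (f : ℝ → ℝ) (R : ℝ) (hR : 0 ≤ R) (hc : ContinuousOn f (Icc 0 R))
    (h0 : ∀ z ∈ Icc 0 R, 0 ≤ f z) :
    ∫⁻ z in Icc 0 R, ENNReal.ofReal (f z) = ENNReal.ofReal (∫ z in (0:ℝ)..R, f z) := by
  rw [intervalIntegral.integral_of_le hR, ← integral_Icc_eq_integral_Ioc,
    ofReal_integral_eq_lintegral_ofReal]
  · exact hc.integrableOn_Icc
  · exact (ae_restrict_iff' measurableSet_Icc).2 (Filter.Eventually.of_forall h0)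

theorem kin (T s : ℝ) (hT : 0 < T) (hs : 0 ≤ s) :
    ∫⁻ z in Icc (0:ℝ) 2, ENNReal.ofReal (T / (1 + s * z) ^ 2) =
      ENNReal.ofReal (2 * T / (1 + 2 * s)) := by
  have hne : ∀ z ∈ Icc (0:ℝ) 2, 0 < 1 + s * z := fun z hz => by
    have := mul_nonneg hs hz.1
    linarith
  have hcont : ContinuousOn (fun z : ℝ => T / (1 + s * z) ^ 2) (Icc 0 2) := by
    refine ContinuousOn.div continuousOn_const (by fun_prop) fun z hz => ?_
    have := hne z hz
    positivity
  rw [lint_Icc _ 2 (by norm_num) hcont fun z hz => by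
    have := hne z hz
    positivity]
  congr 1
  rw [intervalIntegral.integral_eq_sub_of_hasDerivAt (f := fun z => T * z / (1 + s * z))]
  · field_simp
    ring
  · intro z hz
    rw [uIcc_of_le (by norm_num : (0:ℝ) ≤ 2)] at hz
    have h1 := hne z hz
    have h2 : HasDerivAt (fun z : ℝ => T * z) (T * 1) z := (hasDerivAt_id z).const_mul T
    have h3 : HasDerivAt (fun z : ℝ => 1 + s * z) (s * 1) z :=
      ((hasDerivAt_id z).const_mul s).const_add 1
    have h4 := h2.div h3 h1.ne'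
    refine h4.congr_deriv ?_
    have h1' := h1.ne'
    field_simp
    ring
  · rw [intervalIntegrable_iff_integrableOn_Icc_of_le (by norm_num)]
    exact hcont.integrableOn_Icc

theorem kout (T : ℝ) (hT : 0 < T) :
    ∫⁻ y in Icc (0:ℝ) 2, ENNReal.ofReal (2 * T / (1 + 2 * (T * y))) =
      ENNReal.ofReal (Real.log (1 + 4 * T)) := by
  have hne : ∀ z ∈ Icc (0:ℝ) 2, 0 < 1 + 2 * (T * z) := fun z hz => by
    have := mul_nonneg hT.le hz.1
    linarith
  have hcont : ContinuousOn (fun z : ℝ => 2 * T / (1 + 2 * (T * z))) (Icc 0 2) := by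
    refine ContinuousOn.div continuousOn_const (by fun_prop) fun z hz => ?_
    have := hne z hz
    positivity
  rw [lint_Icc _ 2 (by norm_num) hcont fun z hz => by
    have := hne z hz
    positivity]
  congr 1
  rw [intervalIntegral.integral_eq_sub_of_hasDerivAt
    (f := fun z => Real.log (1 + 2 * (T * z)))]
  · rw [mul_zero, mul_zero, add_zero, Real.log_one, sub_zero]
    congr 1
    ring
  · intro z hz
    rw [uIcc_of_le (by norm_num : (0:ℝ) ≤ 2)] at hz
    have h1 := hne z hz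
    have h3 : HasDerivAt (fun z : ℝ => 1 + 2 * (T * z)) (2 * (T * 1)) z :=
      (((hasDerivAt_id z).const_mul T).const_mul 2).const_add 1
    have h4 := h3.log h1.ne'
    refine h4.congr_deriv ?_
    rw [mul_one]
  · rw [intervalIntegrable_iff_integrableOn_Icc_of_le (by norm_num)]
    exact hcont.integrableOn_Icc

theorem kint (T : ℝ) (hT : 1 ≤ T) :
    ∫⁻ y in Icc (-2:ℝ) 2, ∫⁻ z in Icc (-2:ℝ) 2, ENNReal.ofReal (T / (1 + T * |y * z|) ^ 2) ≤
      ENNReal.ofReal (8 * (1 + Real.log T)) := by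
  have hT0 : 0 < T := by linarith
  have hlog := Real.log_nonneg hT
  have h1 : ∀ y : ℝ, ∫⁻ z in Icc (-2:ℝ) 2, ENNReal.ofReal (T / (1 + T * |y * z|) ^ 2) ≤
      2 * ENNReal.ofReal (2 * T / (1 + 2 * (T * |y|))) := by
    intro y
    have h2 := lint_abs (fun z => ENNReal.ofReal (T / (1 + T * |y| * z) ^ 2)) 2
    rw [kin T (T * |y|) hT0 (by positivity)] at h2
    refine le_trans (le_of_eq ?_) h2
    refine lintegral_congr fun z => ?_
    rw [abs_mul, mul_assoc]
  calc ∫⁻ y in Icc (-2:ℝ) 2, ∫⁻ z in Icc (-2:ℝ) 2, ENNReal.ofReal (T / (1 + T * |y * z|) ^ 2)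
      ≤ ∫⁻ y in Icc (-2:ℝ) 2, 2 * ENNReal.ofReal (2 * T / (1 + 2 * (T * |y|))) :=
        lintegral_mono fun y => h1 y
    _ ≤ 2 * ∫⁻ y in Icc (0:ℝ) 2, 2 * ENNReal.ofReal (2 * T / (1 + 2 * (T * y))) :=
        lint_abs (fun y => 2 * ENNReal.ofReal (2 * T / (1 + 2 * (T * y)))) 2
    _ = 4 * ENNReal.ofReal (Real.log (1 + 4 * T)) := by
        rw [lintegral_const_mul' _ _ (by norm_num), kout T hT0, ← mul_assoc]
        norm_num
    _ ≤ ENNReal.ofReal (8 * (1 + Real.log T)) := by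
        have h4 : (4 : ℝ≥0∞) = ENNReal.ofReal 4 := by simp
        rw [h4, ← ENNReal.ofReal_mul (by norm_num)]
        apply ENNReal.ofReal_le_ofReal
        have h5 : Real.log (1 + 4 * T) ≤ Real.log (5 * T) :=
          Real.log_le_log (by linarith) (by linarith)
        rw [Real.log_mul (by norm_num) hT0.ne'] at h5
        have h6 : Real.log 5 ≤ 2 := by
          have : (5:ℝ) ≤ Real.exp 2 := by
            have h7 := Real.exp_one_gt_d9
            have h8 : Real.exp 2 = Real.exp 1 * Real.exp 1 := by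
              rw [← Real.exp_add]; norm_num
            rw [h8]
            nlinarith
          rw [Real.log_le_iff_le_exp (by norm_num)]
          exact this
        linarith

end Pool.Agent.SDT.FN

end -- FN.S1b

section -- FN.S1c

/-!
FN, soft part: the planar `L⁴` estimate.
-/

namespace Pool.Agent.SDT.FN

open MeasureTheory Set Metric Pool.Agent.SDT.MP_6cbfb8_an Pool.Agent.SDT.MST Pool.Agent.SDT.N1
open scoped ENNReal Real

/-- The weight in the time variable. -/
noncomputable def muC (T : ℝ) : Measure ℝ :=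
  (volume : Measure ℝ).withDensity fun t => ENNReal.ofReal (chi (t / T))

theorem chi_meas : Measurable chi := (f1_chi_smooth 0).continuous.measurable

theorem chi_one (s : ℝ) (h1 : 1 ≤ s) (h2 : s ≤ 2) : chi s = 1 := by
  unfold chi
  rw [Real.smoothTransition.one_of_one_le (by linarith),
    Real.smoothTransition.one_of_one_le (by linarith), one_mul]

theorem muC_fin (T : ℝ) (hT : 0 < T) : IsFiniteMeasure (muC T) := by
  unfold muC
  apply isFiniteMeasure_withDensity_ofReal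
  exact (f1_chi_int.comp_div hT.ne').2

theorem le_muC (T : ℝ) (hT : 0 < T) (f : ℝ → ℝ≥0∞) (hf : Measurable f) :
    ∫⁻ t in Icc T (2 * T), f t ≤ ∫⁻ t, f t ∂(muC T) := by
  have hm : Measurable fun t : ℝ => ENNReal.ofReal (chi (t / T)) :=
    (chi_meas.comp (by fun_prop)).ennreal_ofReal
  unfold muC
  rw [lintegral_withDensity_eq_lintegral_mul _ hm hf, ← lintegral_indicator measurableSet_Icc]
  refine lintegral_mono fun t => ?_
  by_cases h : t ∈ Icc T (2 * T)
  · rw [indicator_of_mem h, Pi.mul_apply, chi_one (t / T)]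
    · simp
    · rw [le_div_iff₀ hT]; linarith [h.1]
    · rw [div_le_iff₀ hT]; linarith [h.2]
  · rw [indicator_of_notMem h]
    exact zero_le

theorem int_muC (T x : ℝ) (W : ℂ) :
    ∫ t, W * ex (t * x) ∂(muC T) = W * Kt T x := by
  have hm : Measurable fun t : ℝ => Real.toNNReal (chi (t / T)) :=
    (chi_meas.comp (by fun_prop)).real_toNNReal
  unfold muC Kt
  have h1 : (fun t : ℝ => ENNReal.ofReal (chi (t / T))) =
      fun t : ℝ => ((Real.toNNReal (chi (t / T)) : NNReal) : ℝ≥0∞) := rfl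
  rw [h1, integral_withDensity_eq_integral_smul hm, ← integral_const_mul]
  refine integral_congr_ae (Filter.Eventually.of_forall fun t => ?_)
  simp only
  rw [NNReal.smul_def, Real.coe_toNNReal _ (f1_chi_nonneg _), Complex.real_smul]
  ring

/-- The amplitude on a line. -/
noncomputable def Al (c a σ t b : ℝ) : ℂ :=
  ((wf c a b : ℝ) : ℂ) * ex (t * (σ * qf c a b))

theorem Al_meas (c : ℝ) (hc : 0 < c) (σ : ℝ) :
    Measurable fun q : ℝ × ℝ × ℝ => Al c q.1 σ q.2.1 q.2.2 := by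
  unfold Al
  have m1 : Measurable fun q : ℝ × ℝ × ℝ => wf c q.1 q.2.2 :=
    (f1_wf_cont c hc).measurable.comp (f := fun q : ℝ × ℝ × ℝ => (q.1, q.2.2)) (by fun_prop)
  have m2 : Measurable fun q : ℝ × ℝ × ℝ => qf c q.1 q.2.2 :=
    (f1_qf_cont c).measurable.comp (f := fun q : ℝ × ℝ × ℝ => (q.1, q.2.2)) (by fun_prop)
  have m3 : Measurable fun q : ℝ × ℝ × ℝ => ex (q.2.1 * (σ * qf c q.1 q.2.2)) :=
    f1_ex_cont.measurable.comp ((measurable_fst.comp measurable_snd).mul (m2.const_mul σ))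
  exact (Complex.measurable_ofReal.comp m1).mul m3

theorem Al_norm (c : ℝ) (hc : 0 < c) (a σ t b : ℝ) : ‖Al c a σ t b‖ ≤ 2 / c := by
  unfold Al
  rw [norm_mul, ho2_ex, mul_one, Complex.norm_real, Real.norm_eq_abs]
  exact f1_wf_le c hc a b

theorem wf_ne (c : ℝ) (hc : 0 < c) (a b : ℝ) (h : wf c a b ≠ 0) :
    b ^ 2 < 1 - a ^ 2 ∧ qf c a b = √(1 - a ^ 2 - b ^ 2) ∧ |a| ≤ 1 ∧ |b| ≤ 1 := by
  have h1 : ¬ (1 - a ^ 2 - b ^ 2 ≤ c ^ 2 / 4) := by
    intro h2
    exact h (f1_sma_zero c hc _ h2)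
  push Not at h1
  refine ⟨?_, ?_, f1_wf_supp c hc a b h⟩
  · nlinarith [sq_nonneg c]
  · unfold qf Sq
    rw [Real.smoothTransition.one_of_one_le, mul_one]
    rw [le_div_iff₀ (by positivity)]
    nlinarith

theorem ex_conj (a : ℝ) : (starRingEnd ℂ) (ex a) = ex (-a) := by
  unfold ex
  rw [← Complex.exp_conj, map_mul, Complex.conj_ofReal, Complex.conj_I]
  congr 1
  push_cast
  ring

/-- The planar `L⁴` estimate with a logarithm, on the circle of radius `√(1 - a²)`. -/
theorem planar4 (c : ℝ) (hc : 0 < c) : ∃ C : ℝ, 0 ≤ C ∧ ∀ T : ℝ, 1 ≤ T → ∀ σ : ℝ,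
    (σ = 1 ∨ σ = -1) → ∀ (a : ℝ) (G : ℝ → ℂ), Measurable G → (∀ b, ‖G b‖ ≤ 1) →
    ∫⁻ t in Icc T (2 * T), ∫⁻ x : ℝ, ‖∫ b : ℝ, G b * Al c a σ t b * ex (b * x)‖ₑ ^ (4:ℝ) ≤
      ENNReal.ofReal (C * (1 + Real.log T)) := by
  obtain ⟨K, hK, hKt⟩ := Kt_le
  refine ⟨(2 / c) ^ 4 * K * 16, by positivity, ?_⟩
  intro T hT σ hσ a G hG hb
  have hT0 : 0 < T := by linarith
  have hlog := Real.log_nonneg hT
  haveI := muC_fin T hT0
  have hAm : Measurable (Function.uncurry fun t b => Al c a σ t b) :=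
    (Al_meas c hc σ).comp (f := fun q : ℝ × ℝ => (a, q.1, q.2)) (by fun_prop)
  have hsupp : ∀ t b, 1 < |b| → Al c a σ t b = 0 := by
    intro t b hb1
    unfold Al
    by_cases h : wf c a b = 0
    · rw [h]; simp
    · exact absurd (wf_ne c hc a b h).2.2.2 (not_le.2 hb1)
  have key := four1 (muC T) (fun t b => Al c a σ t b) hAm (2 / c) 1
    (fun t b => Al_norm c hc a σ t b) hsupp G hG hb
  have hmeas : Measurable fun t : ℝ =>
      ∫⁻ x : ℝ, ‖∫ b : ℝ, G b * Al c a σ t b * ex (b * x)‖ₑ ^ (4:ℝ) := by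
    have m1 : Measurable fun q : (ℝ × ℝ) × ℝ => G q.2 * Al c a σ q.1.1 q.2 * ex (q.2 * q.1.2) := by
      have n1 : Measurable fun q : (ℝ × ℝ) × ℝ => Al c a σ q.1.1 q.2 :=
        (Al_meas c hc σ).comp (f := fun q : (ℝ × ℝ) × ℝ => (a, q.1.1, q.2)) (by fun_prop)
      exact ((hG.comp measurable_snd).mul n1).mul (f1_ex_cont.measurable.comp (by fun_prop))
    have m2 := (m1.stronglyMeasurable.integral_prod_right' (ν := (volume : Measure ℝ))).measurable
    exact (m2.enorm.pow_const 4).lintegral_prod_right'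
  refine (le_muC T hT0 _ hmeas).trans (key.trans ?_)
  set I1 : ℝ → ℝ≥0∞ := (Icc (-1:ℝ) 1).indicator 1 with hI1
  set I2 : ℝ → ℝ≥0∞ := (Icc (-2:ℝ) 2).indicator 1 with hI2
  have hI1m : Measurable I1 := measurable_one.indicator measurableSet_Icc
  have hI2m : Measurable I2 := measurable_one.indicator measurableSet_Icc
  have hpt : ∀ q : ℝ × ℝ × ℝ, ‖∫ t, Al c a σ t q.1 * Al c a σ t (q.1 - q.2.1 - q.2.2) *
        (starRingEnd ℂ) (Al c a σ t (q.1 - q.2.1)) *
        (starRingEnd ℂ) (Al c a σ t (q.1 - q.2.2)) ∂(muC T)‖ₑ ≤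
      I1 q.1 * (I2 q.2.1 * (I2 q.2.2 *
        ENNReal.ofReal ((2 / c) ^ 4 * K * (T / (1 + T * |q.2.1 * q.2.2|) ^ 2)))) := by
    rintro ⟨b, y, z⟩
    simp only
    set F : ℝ := qf c a b + qf c a (b - y - z) - qf c a (b - y) - qf c a (b - z) with hF
    set W : ℂ := (((wf c a b) * (wf c a (b - y - z)) * (wf c a (b - y)) * (wf c a (b - z)) : ℝ) : ℂ)
      with hW
    have h1 : ∀ t, Al c a σ t b * Al c a σ t (b - y - z) * (starRingEnd ℂ) (Al c a σ t (b - y)) *
        (starRingEnd ℂ) (Al c a σ t (b - z)) = W * ex (t * (σ * F)) := by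
      intro t
      unfold Al
      have h2 : ex (t * (σ * F)) = ex (t * (σ * qf c a b)) * ex (t * (σ * qf c a (b - y - z))) *
          ex (-(t * (σ * qf c a (b - y)))) * ex (-(t * (σ * qf c a (b - z)))) := by
        rw [← hlf_ex_add, ← hlf_ex_add, ← hlf_ex_add]
        congr 1
        rw [hF]
        ring
      rw [h2, map_mul, map_mul, ex_conj, ex_conj, Complex.conj_ofReal, Complex.conj_ofReal, hW]
      push_cast
      ring
    rw [integral_congr_ae (Filter.Eventually.of_forall h1), int_muC]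
    by_cases hw : wf c a b = 0 ∨ wf c a (b - y - z) = 0 ∨ wf c a (b - y) = 0 ∨
        wf c a (b - z) = 0
    · have hW0 : W = 0 := by
        rw [hW]
        rcases hw with h | h | h | h <;> rw [h] <;> simp
      rw [hW0, zero_mul, enorm_zero]
      exact zero_le
    · push Not at hw
      obtain ⟨w1, w2, w3, w4⟩ := hw
      obtain ⟨a1, b1, -, d1⟩ := wf_ne c hc a _ w1
      obtain ⟨a2, b2, -, d2⟩ := wf_ne c hc a _ w2
      obtain ⟨a3, b3, -, d3⟩ := wf_ne c hc a _ w3
      obtain ⟨a4, b4, -, d4⟩ := wf_ne c hc a _ w4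
      have e1 := abs_le.1 d1
      have e3 := abs_le.1 d3
      have e4 := abs_le.1 d4
      have i1 : I1 b = 1 := by
        have hmem : b ∈ Icc (-1:ℝ) 1 := e1
        rw [hI1, indicator_of_mem hmem, Pi.one_apply]
      have i2 : I2 y = 1 := by
        have hmem : y ∈ Icc (-2:ℝ) 2 := ⟨by linarith, by linarith⟩
        rw [hI2, indicator_of_mem hmem, Pi.one_apply]
      have i3 : I2 z = 1 := by
        have hmem : z ∈ Icc (-2:ℝ) 2 := ⟨by linarith, by linarith⟩
        rw [hI2, indicator_of_mem hmem, Pi.one_apply]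
      rw [i1, i2, i3, one_mul, one_mul, one_mul, ← ofReal_norm]
      apply ENNReal.ofReal_le_ofReal
      rw [norm_mul]
      have hWn : ‖W‖ ≤ (2 / c) ^ 4 := by
        rw [hW, Complex.norm_real, Real.norm_eq_abs, abs_mul, abs_mul, abs_mul]
        have g := f1_wf_le c hc a
        calc |wf c a b| * |wf c a (b - y - z)| * |wf c a (b - y)| * |wf c a (b - z)|
            ≤ (2 / c) * (2 / c) * (2 / c) * (2 / c) := by
              gcongr
              · exact g _
              · exact g _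
              · exact g _
              · exact g _
          _ = (2 / c) ^ 4 := by ring
      have hFl : |y * z| ≤ |σ * F| := by
        have h5 := four_diff (1 - a ^ 2) (by nlinarith [sq_nonneg a]) b y z a1 a3 a4 a2
        have h6 : |σ * F| = |F| := by
          rcases hσ with h | h <;> rw [h] <;> simp
        rw [h6, hF, b1, b2, b3, b4]
        exact h5
      have hKn : ‖Kt T (σ * F)‖ ≤ K * (T / (1 + T * |y * z|) ^ 2) := by
        refine (hKt T _ hT0).trans ?_
        rw [mul_div_assoc]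
        refine mul_le_mul_of_nonneg_left ?_ hK
        refine div_le_div_of_nonneg_left hT0.le (by positivity) ?_
        have h7 : 1 + T * |y * z| ≤ 1 + T * |σ * F| := by
          have := mul_le_mul_of_nonneg_left hFl hT0.le
          linarith
        have h8 : 1 ≤ 1 + T * |y * z| := by
          have : 0 ≤ T * |y * z| := by positivity
          linarith
        calc (1 + T * |y * z|) ^ 2 ≤ (1 + T * |y * z|) ^ 3 := pow_le_pow_right₀ h8 (by norm_num)
          _ ≤ (1 + T * |σ * F|) ^ 3 := pow_le_pow_left₀ (by positivity) h7 3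
      calc ‖W‖ * ‖Kt T (σ * F)‖ ≤ (2 / c) ^ 4 * (K * (T / (1 + T * |y * z|) ^ 2)) :=
            mul_le_mul hWn hKn (norm_nonneg _) (by positivity)
        _ = (2 / c) ^ 4 * K * (T / (1 + T * |y * z|) ^ 2) := by ring
  have hgm : Measurable fun p : ℝ × ℝ =>
      ENNReal.ofReal ((2 / c) ^ 4 * K * (T / (1 + T * |p.1 * p.2|) ^ 2)) := by
    refine Measurable.ennreal_ofReal ?_
    fun_prop
  refine (lintegral_mono hpt).trans ?_
  have hm2 : Measurable fun p : ℝ × ℝ => I2 p.1 * (I2 p.2 *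
      ENNReal.ofReal ((2 / c) ^ 4 * K * (T / (1 + T * |p.1 * p.2|) ^ 2))) :=
    (hI2m.comp measurable_fst).mul ((hI2m.comp measurable_snd).mul hgm)
  rw [Measure.volume_eq_prod, lintegral_prod_mul (f := I1)
    (g := fun p : ℝ × ℝ => I2 p.1 * (I2 p.2 *
      ENNReal.ofReal ((2 / c) ^ 4 * K * (T / (1 + T * |p.1 * p.2|) ^ 2))))
    hI1m.aemeasurable hm2.aemeasurable]
  have hJ1 : ∫⁻ y, I1 y = 2 := by
    rw [hI1, lintegral_indicator_one measurableSet_Icc, Real.volume_Icc]
    norm_num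
  have hJ2 : ∫⁻ p : ℝ × ℝ, I2 p.1 * (I2 p.2 *
      ENNReal.ofReal ((2 / c) ^ 4 * K * (T / (1 + T * |p.1 * p.2|) ^ 2))) ≤
      ENNReal.ofReal ((2 / c) ^ 4 * K * (8 * (1 + Real.log T))) := by
    rw [Measure.volume_eq_prod, lintegral_prod _ hm2.aemeasurable]
    have h9 : ∀ y : ℝ, ∫⁻ z : ℝ, I2 y * (I2 z *
        ENNReal.ofReal ((2 / c) ^ 4 * K * (T / (1 + T * |y * z|) ^ 2))) =
        (Icc (-2:ℝ) 2).indicator (fun y => ∫⁻ z in Icc (-2:ℝ) 2,
          ENNReal.ofReal ((2 / c) ^ 4 * K * (T / (1 + T * |y * z|) ^ 2))) y := by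
      intro y
      by_cases hy : y ∈ Icc (-2:ℝ) 2
      · rw [indicator_of_mem hy, hI2, indicator_of_mem hy, Pi.one_apply,
          ← lintegral_indicator measurableSet_Icc]
        refine lintegral_congr fun z => ?_
        by_cases hz : z ∈ Icc (-2:ℝ) 2
        · rw [indicator_of_mem hz, indicator_of_mem hz, Pi.one_apply, one_mul, one_mul]
        · rw [indicator_of_notMem hz, indicator_of_notMem hz, zero_mul, mul_zero]
      · rw [indicator_of_notMem hy, hI2, indicator_of_notMem hy]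
        simp
    rw [lintegral_congr h9, lintegral_indicator measurableSet_Icc]
    have h10 : ∀ y z : ℝ, ENNReal.ofReal ((2 / c) ^ 4 * K * (T / (1 + T * |y * z|) ^ 2)) =
        ENNReal.ofReal ((2 / c) ^ 4 * K) * ENNReal.ofReal (T / (1 + T * |y * z|) ^ 2) :=
      fun y z => ENNReal.ofReal_mul (by positivity)
    simp only [h10]
    have h11 : ∀ y : ℝ, ∫⁻ z in Icc (-2:ℝ) 2, ENNReal.ofReal ((2 / c) ^ 4 * K) *
        ENNReal.ofReal (T / (1 + T * |y * z|) ^ 2) = ENNReal.ofReal ((2 / c) ^ 4 * K) *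
        ∫⁻ z in Icc (-2:ℝ) 2, ENNReal.ofReal (T / (1 + T * |y * z|) ^ 2) :=
      fun y => lintegral_const_mul' _ _ ENNReal.ofReal_ne_top
    simp only [h11]
    rw [lintegral_const_mul' _ _ ENNReal.ofReal_ne_top, ENNReal.ofReal_mul (p := (2 / c) ^ 4 * K)
      (by positivity)]
    exact mul_le_mul_right (kint T hT) _
  rw [hJ1]
  refine (mul_le_mul_right hJ2 _).trans ?_
  have h2 : (2 : ℝ≥0∞) = ENNReal.ofReal 2 := by simp
  rw [h2, ← ENNReal.ofReal_mul (by norm_num)]
  apply ENNReal.ofReal_le_ofReal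
  have : 0 ≤ (2 / c) ^ 4 * K * (1 + Real.log T) := by positivity
  linarith

end Pool.Agent.SDT.FN

end -- FN.S1c
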