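import Pool.Agent.SDT.B13
import Pool.Agent.SDT.B14
import Pool.Agent.SDT.B15

set_option autoImplicit false

namespace Pool.Agent.SDT.MP_6cbfb8_an
end Pool.Agent.SDT.MP_6cbfb8_an
namespace Pool.Agent.SDT.MST
end Pool.Agent.SDT.MST
namespace Pool.Agent.SDT.N1
end Pool.Agent.SDT.N1
namespace Pool.Agent.SDT.N1G
end Pool.Agent.SDT.N1G

section -- N1.GB

/-!
N1, block G: the divided phase at `γ = 0`.
-/

namespace Pool.Agent.SDT.N1

open MeasureTheory Set Metric Pool.Agent.SDT.MP_6cbfb8_an Pool.Agent.SDT.MST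
open scoped ENNReal Real ContDiff Topology

/-- The good region: the endpoints lie well inside the quarter disc. -/
def Gd (c ρ : ℝ) (a b : V) : Prop :=
  0 < a.2.1 ∧ 0 < a.2.1 - ρ * a.1 ∧ 0 < b.2.1 ∧ 0 < b.2.1 - ρ * b.1 ∧
  c ^ 2 / 8 < 1 - a.2.1 ^ 2 - b.2.1 ^ 2 ∧
  c ^ 2 / 8 < 1 - (a.2.1 - ρ * a.1) ^ 2 - (b.2.1 - ρ * b.1) ^ 2

lemma qf_comm (c a b : ℝ) : qf c a b = qf c b a := by
  unfold qf
  congr 1
  ring

lemma el_id (c : ℝ) (hc : 0 < c) (ρ y₁ a y₂ b : ℝ) (ha : 0 < a) (ha' : 0 < a - ρ * y₁)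
    (hb : 0 < b) (hb' : 0 < b - ρ * y₂)
    (h1 : c ^ 2 / 8 < 1 - a ^ 2 - b ^ 2)
    (h2 : c ^ 2 / 8 < 1 - (a - ρ * y₁) ^ 2 - (b - ρ * y₂) ^ 2) :
    a / qf c a b - (a - ρ * y₁) / qf c (a - ρ * y₁) (b - ρ * y₂) =
      ρ * (el c ρ y₁ a y₂ b * (om ρ y₁ a - sg ρ y₂ b)) := by
  have q1 := qf_sq c hc a b h1.le
  have q2 := qf_sq c hc _ _ h2.le
  have p1 := qf_pos c hc a b h1.le
  have p2 := qf_pos c hc _ _ h2.le
  have hc8 : 0 < c ^ 2 / 8 := by positivity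
  have hb1 : 0 < 1 - (b - ρ * y₂) ^ 2 := by nlinarith [sq_nonneg (a - ρ * y₁)]
  unfold el om sg
  set Q := qf c a b with hQ
  set Q' := qf c (a - ρ * y₁) (b - ρ * y₂) with hQ'
  set a' := a - ρ * y₁ with hA
  set b' := b - ρ * y₂ with hB
  have e1 : y₁ * (2 * a - ρ * y₁) * ρ = a ^ 2 - a' ^ 2 := by rw [hA]; ring
  have e2 : y₂ * (2 * b - ρ * y₂) * ρ = b ^ 2 - b' ^ 2 := by rw [hB]; ring
  have hS : 0 < a * Q' + a' * Q := by positivity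
  have h3 : ρ * (a' ^ 2 * (1 - b' ^ 2) / (Q * Q' * (a * Q' + a' * Q)) *
      (y₁ * (2 * a - ρ * y₁) / a' ^ 2 - -(y₂ * (2 * b - ρ * y₂) / (1 - b' ^ 2)))) =
      ((1 - b' ^ 2) * (y₁ * (2 * a - ρ * y₁) * ρ) + a' ^ 2 * (y₂ * (2 * b - ρ * y₂) * ρ)) /
        (Q * Q' * (a * Q' + a' * Q)) := by
    field_simp
    ring
  rw [h3, e1, e2]
  have h4 : (1 - b' ^ 2) * (a ^ 2 - a' ^ 2) + a' ^ 2 * (b ^ 2 - b' ^ 2) =
      (a * Q' + a' * Q) * (a * Q' - a' * Q) := by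
    have : (a * Q' + a' * Q) * (a * Q' - a' * Q) = a ^ 2 * Q' ^ 2 - a' ^ 2 * Q ^ 2 := by ring
    rw [this, q1, q2]
    ring
  rw [h4]
  field_simp

/-- difference of `qf` at two points symmetric about `(m, n)` -/
lemma qf_diff (c : ℝ) (hc : 0 < c) (m n z w : ℝ) (h1 : c ^ 2 / 8 ≤ 1 - (m + z / 2) ^ 2 - (n + w / 2) ^ 2)
    (h2 : c ^ 2 / 8 ≤ 1 - (m - z / 2) ^ 2 - (n - w / 2) ^ 2) :
    qf c (m + z / 2) (n + w / 2) - qf c (m - z / 2) (n - w / 2) =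
      -(2 * (m * z + n * w)) / (qf c (m + z / 2) (n + w / 2) + qf c (m - z / 2) (n - w / 2)) := by
  have q1 := qf_sq c hc _ _ h1
  have q2 := qf_sq c hc _ _ h2
  have p1 := qf_pos c hc _ _ h1
  have p2 := qf_pos c hc _ _ h2
  rw [eq_div_iff (by positivity)]
  have : (qf c (m + z / 2) (n + w / 2) - qf c (m - z / 2) (n - w / 2)) *
    (qf c (m + z / 2) (n + w / 2) + qf c (m - z / 2) (n - w / 2)) =
    qf c (m + z / 2) (n + w / 2) ^ 2 - qf c (m - z / 2) (n - w / 2) ^ 2 := by ring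
  rw [this, q1, q2]
  ring

end Pool.Agent.SDT.N1

end -- N1.GB

section -- N1.GC

/-!
N1, block G: formula for the divided phase at `γ = 0`.
-/

namespace Pool.Agent.SDT.N1

open MeasureTheory Set Metric Pool.Agent.SDT.MP_6cbfb8_an Pool.Agent.SDT.MST
open scoped ENNReal Real ContDiff Topology

/-- The value of the divided phase at `γ = 0`. -/
noncomputable def G0 (c ρ : ℝ) (a b : V) : ℝ :=
  -(a.2.2 * (el c ρ a.1 a.2.1 b.1 b.2.1 * (om ρ a.1 a.2.1 - sg ρ b.1 b.2.1))) -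
    b.2.2 * (el c ρ b.1 b.2.1 a.1 a.2.1 * (om ρ b.1 b.2.1 - sg ρ a.1 a.2.1))

lemma Ph_eq (c ρ γ : ℝ) (a b : V) : Ph c ρ γ a b =
    (qf c (a.2.1 + γ * a.2.2 / 2) (b.2.1 + γ * b.2.2 / 2) -
      qf c (a.2.1 - γ * a.2.2 / 2) (b.2.1 - γ * b.2.2 / 2)) -
    (qf c (a.2.1 - ρ * a.1 + γ * a.2.2 / 2) (b.2.1 - ρ * b.1 + γ * b.2.2 / 2) -
      qf c (a.2.1 - ρ * a.1 - γ * a.2.2 / 2) (b.2.1 - ρ * b.1 - γ * b.2.2 / 2)) := by
  unfold Ph Fr
  simp only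
  rw [show a.2.1 + γ * a.2.2 / 2 - ρ * a.1 = a.2.1 - ρ * a.1 + γ * a.2.2 / 2 by ring,
    show b.2.1 + γ * b.2.2 / 2 - ρ * b.1 = b.2.1 - ρ * b.1 + γ * b.2.2 / 2 by ring,
    show a.2.1 + γ * a.2.2 / 2 - γ * a.2.2 = a.2.1 - γ * a.2.2 / 2 by ring,
    show b.2.1 + γ * b.2.2 / 2 - γ * b.2.2 = b.2.1 - γ * b.2.2 / 2 by ring,
    show a.2.1 - ρ * a.1 + γ * a.2.2 / 2 - γ * a.2.2 = a.2.1 - ρ * a.1 - γ * a.2.2 / 2 by ring,
    show b.2.1 - ρ * b.1 + γ * b.2.2 / 2 - γ * b.2.2 = b.2.1 - ρ * b.1 - γ * b.2.2 / 2 by ring]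
  ring

lemma G_lim (c : ℝ) (hc : 0 < c) (G : ℝ × (ℝ × V × V) → ℝ) (hG : ContDiff ℝ ∞ G)
    (key : ∀ γ ρ a b, Ph c ρ γ a b = ρ * γ * G (γ, (ρ, a, b))) (ρ : ℝ) (a b : V)
    (h1 : c ^ 2 / 8 < 1 - a.2.1 ^ 2 - b.2.1 ^ 2)
    (h2 : c ^ 2 / 8 < 1 - (a.2.1 - ρ * a.1) ^ 2 - (b.2.1 - ρ * b.1) ^ 2) :
    ρ * G (0, (ρ, a, b)) = -((a.2.1 * a.2.2 + b.2.1 * b.2.2) / qf c a.2.1 b.2.1) +
      ((a.2.1 - ρ * a.1) * a.2.2 + (b.2.1 - ρ * b.1) * b.2.2) /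
        qf c (a.2.1 - ρ * a.1) (b.2.1 - ρ * b.1) := by
  have hq : ∀ m n z w : ℝ, Continuous fun γ : ℝ => qf c (m + γ * z / 2) (n + γ * w / 2) :=
    fun m n z w => (qf_comp c hc (f := fun γ : ℝ => m + γ * z / 2)
      (g := fun γ : ℝ => n + γ * w / 2) (by fun_prop) (by fun_prop)).continuous
  have hq' : ∀ m n z w : ℝ, Continuous fun γ : ℝ => qf c (m - γ * z / 2) (n - γ * w / 2) :=
    fun m n z w => (qf_comp c hc (f := fun γ : ℝ => m - γ * z / 2)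
      (g := fun γ : ℝ => n - γ * w / 2) (by fun_prop) (by fun_prop)).continuous
  have gen : ∀ m n z w : ℝ, c ^ 2 / 8 < 1 - m ^ 2 - n ^ 2 →
      (∀ᶠ γ in 𝓝[≠] (0:ℝ), qf c (m + γ * z / 2) (n + γ * w / 2) -
        qf c (m - γ * z / 2) (n - γ * w / 2) = -(2 * (m * z + n * w)) * γ /
          (qf c (m + γ * z / 2) (n + γ * w / 2) + qf c (m - γ * z / 2) (n - γ * w / 2))) ∧
      ContinuousAt (fun γ : ℝ => -(2 * (m * z + n * w)) /
          (qf c (m + γ * z / 2) (n + γ * w / 2) + qf c (m - γ * z / 2) (n - γ * w / 2))) 0 := by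
    intro m n z w h
    constructor
    · have e1 : ∀ᶠ γ in 𝓝 (0:ℝ), c ^ 2 / 8 < 1 - (m + γ * z / 2) ^ 2 - (n + γ * w / 2) ^ 2 := by
        have : ContinuousAt (fun γ : ℝ => 1 - (m + γ * z / 2) ^ 2 - (n + γ * w / 2) ^ 2) 0 := by
          fun_prop
        refine this.eventually (lt_mem_nhds ?_)
        simpa using h
      have e2 : ∀ᶠ γ in 𝓝 (0:ℝ), c ^ 2 / 8 < 1 - (m - γ * z / 2) ^ 2 - (n - γ * w / 2) ^ 2 := by
        have : ContinuousAt (fun γ : ℝ => 1 - (m - γ * z / 2) ^ 2 - (n - γ * w / 2) ^ 2) 0 := by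
          fun_prop
        refine this.eventually (lt_mem_nhds ?_)
        simpa using h
      filter_upwards [nhdsWithin_le_nhds e1, nhdsWithin_le_nhds e2] with γ g1 g2
      rw [qf_diff c hc m n (γ * z) (γ * w) g1.le g2.le]
      congr 1
      ring
    · refine ContinuousAt.div continuousAt_const ?_ ?_
      · exact ((hq m n z w).add (hq' m n z w)).continuousAt
      · have := qf_pos c hc m n h.le
        simp only [zero_mul, zero_div, add_zero, sub_zero]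
        positivity
  obtain ⟨A1, A2⟩ := gen a.2.1 b.2.1 a.2.2 b.2.2 h1
  obtain ⟨B1, B2⟩ := gen (a.2.1 - ρ * a.1) (b.2.1 - ρ * b.1) a.2.2 b.2.2 h2
  have h3 := g_ext (f := fun γ => ρ * G (γ, (ρ, a, b))) (g := fun γ =>
    -(2 * (a.2.1 * a.2.2 + b.2.1 * b.2.2)) /
      (qf c (a.2.1 + γ * a.2.2 / 2) (b.2.1 + γ * b.2.2 / 2) +
        qf c (a.2.1 - γ * a.2.2 / 2) (b.2.1 - γ * b.2.2 / 2)) -
    -(2 * ((a.2.1 - ρ * a.1) * a.2.2 + (b.2.1 - ρ * b.1) * b.2.2)) /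
      (qf c (a.2.1 - ρ * a.1 + γ * a.2.2 / 2) (b.2.1 - ρ * b.1 + γ * b.2.2 / 2) +
        qf c (a.2.1 - ρ * a.1 - γ * a.2.2 / 2) (b.2.1 - ρ * b.1 - γ * b.2.2 / 2)))
    ((continuous_const.mul (hG.continuous.comp (by fun_prop))).continuousAt) (A2.sub B2) (by
      filter_upwards [A1, B1, self_mem_nhdsWithin] with γ g1 g2 g3
      have hγ : γ ≠ 0 := g3
      have h4 := key γ ρ a b
      rw [Ph_eq, g1, g2] at h4
      apply mul_left_cancel₀ hγ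
      calc γ * (ρ * G (γ, (ρ, a, b))) = ρ * γ * G (γ, (ρ, a, b)) := by ring
        _ = _ := by rw [← h4]; ring)
  simp only [zero_mul, zero_div, add_zero, sub_zero] at h3
  rw [h3]
  have p1 := qf_pos c hc _ _ h1.le
  have p2 := qf_pos c hc _ _ h2.le
  field_simp
  ring

lemma G_zero' (c : ℝ) (hc : 0 < c) (G : ℝ × (ℝ × V × V) → ℝ) (hG : ContDiff ℝ ∞ G)
    (key : ∀ γ ρ a b, Ph c ρ γ a b = ρ * γ * G (γ, (ρ, a, b))) (ρ : ℝ) (hρ : ρ ≠ 0) (a b : V)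
    (h : Gd c ρ a b) : G (0, (ρ, a, b)) = G0 c ρ a b := by
  obtain ⟨g1, g2, g3, g4, g5, g6⟩ := h
  have h1 := G_lim c hc G hG key ρ a b g5 g6
  have h2 := el_id c hc ρ a.1 a.2.1 b.1 b.2.1 g1 g2 g3 g4 g5 g6
  have h3 := el_id c hc ρ b.1 b.2.1 a.1 a.2.1 g3 g4 g1 g2 (by linarith) (by linarith)
  rw [qf_comm c b.2.1 a.2.1, qf_comm c (b.2.1 - ρ * b.1) (a.2.1 - ρ * a.1)] at h3
  apply mul_left_cancel₀ hρ
  rw [h1]
  unfold G0
  have h4 : ρ * (-(a.2.2 * (el c ρ a.1 a.2.1 b.1 b.2.1 * (om ρ a.1 a.2.1 - sg ρ b.1 b.2.1))) -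
    b.2.2 * (el c ρ b.1 b.2.1 a.1 a.2.1 * (om ρ b.1 b.2.1 - sg ρ a.1 a.2.1))) =
    -(a.2.2 * (ρ * (el c ρ a.1 a.2.1 b.1 b.2.1 * (om ρ a.1 a.2.1 - sg ρ b.1 b.2.1)))) -
    b.2.2 * (ρ * (el c ρ b.1 b.2.1 a.1 a.2.1 * (om ρ b.1 b.2.1 - sg ρ a.1 a.2.1))) := by ring
  rw [h4, ← h2, ← h3]
  ring

/-- Continuity of the coefficient in the parameter `ρ` at `0`. -/
lemma G0_cont (c : ℝ) (hc : 0 < c) (a b : V) (h : Gd c 0 a b) :
    ContinuousAt (fun ρ : ℝ => G0 c ρ a b) 0 := by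
  obtain ⟨g1, g2, g3, g4, g5, g6⟩ := h
  simp only [zero_mul, sub_zero] at g2 g4 g6
  have hc8 : 0 < c ^ 2 / 8 := by positivity
  have p1 := qf_pos c hc _ _ g5.le
  have hq : Continuous fun ρ : ℝ => qf c (a.2.1 - ρ * a.1) (b.2.1 - ρ * b.1) :=
    (qf_comp c hc (f := fun ρ : ℝ => a.2.1 - ρ * a.1) (g := fun ρ : ℝ => b.2.1 - ρ * b.1)
      (by fun_prop) (by fun_prop)).continuous
  have hq' : Continuous fun ρ : ℝ => qf c (b.2.1 - ρ * b.1) (a.2.1 - ρ * a.1) :=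
    (qf_comp c hc (f := fun ρ : ℝ => b.2.1 - ρ * b.1) (g := fun ρ : ℝ => a.2.1 - ρ * a.1)
      (by fun_prop) (by fun_prop)).continuous
  have p1' : 0 < qf c b.2.1 a.2.1 := by rw [qf_comm]; exact p1
  have n1 : 1 - b.2.1 ^ 2 ≠ 0 := by nlinarith [sq_nonneg a.2.1]
  have n2 : 1 - a.2.1 ^ 2 ≠ 0 := by nlinarith [sq_nonneg b.2.1]
  unfold G0 el om sg
  refine ContinuousAt.sub (ContinuousAt.neg (continuousAt_const.mul (ContinuousAt.mul
    (ContinuousAt.div (by fun_prop) ?_ ?_) (ContinuousAt.sub (ContinuousAt.div (by fun_prop)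
      (by fun_prop) ?_) (ContinuousAt.neg (ContinuousAt.div (by fun_prop) (by fun_prop) ?_))))))
    (continuousAt_const.mul (ContinuousAt.mul
    (ContinuousAt.div (by fun_prop) ?_ ?_) (ContinuousAt.sub (ContinuousAt.div (by fun_prop)
      (by fun_prop) ?_) (ContinuousAt.neg (ContinuousAt.div (by fun_prop) (by fun_prop) ?_)))))
  · exact ((continuous_const.mul hq).mul ((continuous_const.mul hq).add
      ((by fun_prop : Continuous fun ρ : ℝ => a.2.1 - ρ * a.1).mul continuous_const))).continuousAt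
  · simp only [zero_mul, sub_zero]; positivity
  · simp only [zero_mul, sub_zero]; positivity
  · simpa using n1
  · exact ((continuous_const.mul hq').mul ((continuous_const.mul hq').add
      ((by fun_prop : Continuous fun ρ : ℝ => b.2.1 - ρ * b.1).mul continuous_const))).continuousAt
  · simp only [zero_mul, sub_zero]; positivity
  · simp only [zero_mul, sub_zero]; positivity
  · simpa using n2

theorem G_zero (c : ℝ) (hc : 0 < c) (G : ℝ × (ℝ × V × V) → ℝ) (hG : ContDiff ℝ ∞ G)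
    (key : ∀ γ ρ a b, Ph c ρ γ a b = ρ * γ * G (γ, (ρ, a, b))) (ρ : ℝ) (a b : V)
    (h : Gd c ρ a b) : G (0, (ρ, a, b)) = G0 c ρ a b := by
  by_cases hρ : ρ = 0
  · subst hρ
    refine g_ext (f := fun ρ => G (0, (ρ, a, b))) (g := fun ρ => G0 c ρ a b) ?_
      (G0_cont c hc a b h) ?_
    · exact (hG.continuous.comp (by fun_prop)).continuousAt
    · have e : ∀ᶠ ρ in 𝓝 (0:ℝ), Gd c ρ a b := by
        unfold Gd at h ⊢
        obtain ⟨g1, g2, g3, g4, g5, g6⟩ := h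
        have c1 : ∀ᶠ ρ in 𝓝 (0:ℝ), 0 < a.2.1 - ρ * a.1 :=
          (by fun_prop : ContinuousAt (fun ρ : ℝ => a.2.1 - ρ * a.1) 0).eventually
            (lt_mem_nhds g2)
        have c2 : ∀ᶠ ρ in 𝓝 (0:ℝ), 0 < b.2.1 - ρ * b.1 :=
          (by fun_prop : ContinuousAt (fun ρ : ℝ => b.2.1 - ρ * b.1) 0).eventually
            (lt_mem_nhds g4)
        have c3 : ∀ᶠ ρ in 𝓝 (0:ℝ), c ^ 2 / 8 < 1 - (a.2.1 - ρ * a.1) ^ 2 -
            (b.2.1 - ρ * b.1) ^ 2 :=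
          (by fun_prop : ContinuousAt (fun ρ : ℝ => 1 - (a.2.1 - ρ * a.1) ^ 2 -
            (b.2.1 - ρ * b.1) ^ 2) 0).eventually (lt_mem_nhds g6)
        filter_upwards [c1, c2, c3] with ρ d1 d2 d3
        exact ⟨g1, d1, g3, d2, g5, d3⟩
      filter_upwards [nhdsWithin_le_nhds e, self_mem_nhdsWithin] with ρ h1 h2
      exact G_zero' c hc G hG key ρ h2 a b h1
  · exact G_zero' c hc G hG key ρ hρ a b h

end Pool.Agent.SDT.N1

end -- N1.GC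

section -- N1.C3

/-!
N1, block C: expansion of a cut-off.
-/

namespace Pool.Agent.SDT.N1

open MeasureTheory Set Metric Pool.Agent.SDT.MP_6cbfb8_an Pool.Agent.SDT.MST
open scoped ENNReal Real ContDiff

/-- Expansion of a cut-off. -/
theorem expand (c : ℝ) (hc : 0 < c) (T : ℝ) (hT : 0 < T) (B : ℝ) (m : ℝ → ℂ) (hm : FT1 B m)
    (M : V × V → ℂ) (hM : Measurable M) (B' : ℝ) (hB : ∀ q, ‖M q‖ ≤ B') (h : V × V → ℝ)
    (hh : Measurable h) (K : ℝ)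
    (hK : ∀ η : ℝ, ‖FF c T (fun q => ex (η * h q) * M q)‖ ≤ K) :
    ‖FF c T (fun q => m (h q) * M q)‖ ≤ B * K :=
  expand_of c T B m hm M (FF_int c hc T hT M hM B' hB) h hh K hK

end Pool.Agent.SDT.N1

end -- N1.C3

section -- N1.MD1

/-!
N1, block M1, case (D): preparations.
-/

namespace Pool.Agent.SDT.N1.MD

open MeasureTheory Set Metric Pool.Agent.SDT.MP_6cbfb8_an Pool.Agent.SDT.MST
open scoped ENNReal Real ContDiff

theorem measurable_om (ρ : ℝ) {X : Type*} [MeasurableSpace X] {f g : X → ℝ} (hf : Measurable f)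
    (hg : Measurable g) : Measurable fun x => om ρ (f x) (g x) := by
  unfold om
  fun_prop

theorem measurable_sg (ρ : ℝ) {X : Type*} [MeasurableSpace X] {f g : X → ℝ} (hf : Measurable f)
    (hg : Measurable g) : Measurable fun x => sg ρ (f x) (g x) := by
  unfold sg
  fun_prop

theorem measurable_Nf (ρ : ℝ) {X : Type*} [MeasurableSpace X] {f g : X → ℝ × ℝ}
    (hf : Measurable f) (hg : Measurable g) : Measurable fun x => Nf ρ (f x) (g x) := by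
  unfold Nf
  exact (measurable_om ρ hf.fst hg.fst).sub (measurable_sg ρ hf.snd hg.snd)

theorem measurable_Nx (ρ : ℝ) : Measurable (Nx ρ) := by
  unfold Nx
  apply measurable_Nf <;> fun_prop

theorem measurable_Nz (ρ : ℝ) : Measurable (Nz ρ) := by
  unfold Nz
  apply measurable_Nf <;> fun_prop

/-- Continuity of `N` at a base point. -/
theorem Nf_small (c : ℝ) (hc : 0 < c) (x0 y0 : ℝ × ℝ) (hx : x0 ∈ Kc c) (h1 : Nf 0 y0 x0 = 0)
    (η : ℝ) (hη : 0 < η) : ∃ δ : ℝ, 0 < δ ∧ ∀ ρ : ℝ, 0 < ρ → ρ < δ → ∀ y x : ℝ × ℝ,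
    |y.1 - y0.1| ≤ δ → |y.2 - y0.2| ≤ δ → |x.1 - x0.1| ≤ δ → |x.2 - x0.2| ≤ δ →
    |Nf ρ y x| ≤ η := by
  obtain ⟨hx1, hx2, hx3⟩ := hx
  have hden1 : (x0.1 - 0 * y0.1) ^ 2 ≠ 0 := by
    have : 0 < x0.1 := lt_of_lt_of_le hc hx1
    rw [zero_mul, sub_zero]
    positivity
  have hden2 : 1 - (x0.2 - 0 * y0.2) ^ 2 ≠ 0 := by
    have h2 : 0 < x0.1 := lt_of_lt_of_le hc hx1
    have h3 : 0 < x0.1 ^ 2 := by positivity
    have h4 : 0 < c ^ 2 := by positivity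
    rw [zero_mul, sub_zero]
    intro h5
    nlinarith
  have hcont : ContinuousAt (fun q : ℝ × (ℝ × ℝ) × (ℝ × ℝ) => Nf q.1 q.2.1 q.2.2)
      (0, y0, x0) := by
    unfold Nf om sg
    refine ContinuousAt.sub (ContinuousAt.div ?_ ?_ hden1) (ContinuousAt.neg
      (ContinuousAt.div ?_ ?_ hden2))
    all_goals fun_prop
  rw [Metric.continuousAt_iff] at hcont
  obtain ⟨δ, hδ, h⟩ := hcont η hη
  refine ⟨δ / 2, by positivity, fun ρ hρ hρδ y x e1 e2 e3 e4 => ?_⟩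
  have h5 := h (x := (ρ, y, x)) ?_
  · simp only [h1, dist_zero_right, Real.norm_eq_abs] at h5
    exact h5.le
  · rw [Prod.dist_eq, Prod.dist_eq, Prod.dist_eq, Prod.dist_eq]
    simp only [Real.dist_eq, sub_zero]
    rw [abs_of_pos hρ]
    simp only [max_lt_iff]
    refine ⟨by linarith, ⟨by linarith, by linarith⟩, by linarith, by linarith⟩

/-- Comparison of volume and size of the phase. -/
theorem abs_num (C A T v0 f0 : ℝ) (hC : 0 ≤ C) (hT : 0 < T) (hf : 0 ≤ f0)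
    (hA : 0 ≤ A) (h : v0 ≤ A * f0 ^ 2) : C * T * v0 / (1 + T * f0) ^ 3 ≤ C * A / T := by
  have hX : 0 ≤ T * f0 := by positivity
  have h1 : (0 : ℝ) < (1 + T * f0) ^ 3 := by positivity
  rw [div_le_div_iff₀ h1 hT]
  have h2 : (T * f0) ^ 2 ≤ (1 + T * f0) ^ 3 := by nlinarith [mul_nonneg hX hX]
  calc C * T * v0 * T ≤ C * T * (A * f0 ^ 2) * T := by gcongr
    _ = C * A * (T * f0) ^ 2 := by ring
    _ ≤ C * A * (1 + T * f0) ^ 3 := by gcongr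

/-- Trivial estimate. -/
theorem triv_num (C A T v0 : ℝ) (hC : 0 ≤ C) (hT : 0 < T) (h : v0 ≤ A / T ^ 2) :
    C * T * v0 / (1 + T * 0) ^ 3 ≤ C * A / T := by
  rw [mul_zero, add_zero, one_pow, div_one]
  calc C * T * v0 ≤ C * T * (A / T ^ 2) := by gcongr
    _ = C * A / T := by
      field_simp

/-- The first separated part of `exp (i η N(x))`. -/
theorem ex_Nx (ρ η : ℝ) (q : V × V) : ex (η * Nx ρ q) =
    ex (η * om ρ (q.1.1 / ρ) q.1.2.1) * ex (-(η * sg ρ (q.2.1 / ρ) q.2.2.1)) := by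
  unfold Nx Nf ex
  rw [← Complex.exp_add]
  congr 1
  push_cast
  ring

theorem ex_Nz (ρ η : ℝ) (q : V × V) : ex (η * Nz ρ q) =
    ex (η * om ρ (q.1.1 / ρ) (q.1.2.1 - q.1.2.2)) *
      ex (-(η * sg ρ (q.2.1 / ρ) (q.2.2.1 - q.2.2.2))) := by
  unfold Nz Nf ex
  rw [← Complex.exp_add]
  congr 1
  push_cast
  ring

/-- Two cut-offs in `N(x)`, `N(x - z)` in front of a product density. -/
theorem expand_twice (c : ℝ) (hc : 0 < c) (T : ℝ) (hT : 0 < T) (B : ℝ) (m : ℝ → ℂ)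
    (hm : FT1 B m) (hmm : Measurable m) (hm1 : ∀ x, ‖m x‖ ≤ 1) (ρ κ : ℝ) (A₁ A₂ : V → ℂ)
    (h1 : Measurable A₁)
    (h2 : Measurable A₂) (b1 : ∀ a, ‖A₁ a‖ ≤ 1) (b2 : ∀ b, ‖A₂ b‖ ≤ 1) (K : ℝ)
    (hK : ∀ A₁' A₂' : V → ℂ, Measurable A₁' → Measurable A₂' → (∀ a, ‖A₁' a‖ ≤ 1) →
      (∀ b, ‖A₂' b‖ ≤ 1) → (∀ a, A₁' a ≠ 0 → A₁ a ≠ 0) → (∀ b, A₂' b ≠ 0 → A₂ b ≠ 0) →
      ‖FF c T (tp A₁' A₂')‖ ≤ K) :
    ‖FF c T (fun q => m (Nx ρ q / κ) * (m (Nz ρ q / κ) * tp A₁ A₂ q))‖ ≤ B * (B * K) := by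
  have htp : Measurable (tp A₁ A₂) := by
    unfold tp
    exact (h1.comp measurable_fst).mul (h2.comp measurable_snd)
  have htb : ∀ q, ‖tp A₁ A₂ q‖ ≤ 1 := fun q => by
    unfold tp
    rw [norm_mul]
    exact mul_le_one₀ (b1 _) (norm_nonneg _) (b2 _)
  have hNx : Measurable fun q : V × V => Nx ρ q / κ := (measurable_Nx ρ).div_const κ
  have hNz : Measurable fun q : V × V => Nz ρ q / κ := (measurable_Nz ρ).div_const κ
  refine expand c hc T hT B m hm (fun q => m (Nz ρ q / κ) * tp A₁ A₂ q)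
    ((hmm.comp hNz).mul htp) 1 (fun q => ?_) (fun q => Nx ρ q / κ) hNx (B * K) (fun η => ?_)
  · rw [norm_mul]
    exact mul_le_one₀ (hm1 _) (norm_nonneg _) (htb _)
  · have e1 : (fun q : V × V => ex (η * (Nx ρ q / κ)) * (m (Nz ρ q / κ) * tp A₁ A₂ q)) =
        fun q => m (Nz ρ q / κ) * (ex (η * (Nx ρ q / κ)) * tp A₁ A₂ q) := by
      funext q
      ring
    rw [e1]
    have hex1 : Measurable fun q : V × V => ex (η * (Nx ρ q / κ)) :=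
      measurable_ex.comp (measurable_const.mul hNx)
    refine expand c hc T hT B m hm (fun q => ex (η * (Nx ρ q / κ)) * tp A₁ A₂ q)
      (hex1.mul htp) 1 (fun q => ?_) (fun q => Nz ρ q / κ) hNz K (fun η' => ?_)
    · rw [norm_mul, hns_norm_ex, one_mul]
      exact htb q
    · set A' : V → ℂ := fun u => ex (η' / κ * om ρ (u.1 / ρ) (u.2.1 - u.2.2)) *
        (ex (η / κ * om ρ (u.1 / ρ) u.2.1) * A₁ u) with hA'
      set B' : V → ℂ := fun v => ex (-(η' / κ * sg ρ (v.1 / ρ) (v.2.1 - v.2.2))) *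
        (ex (-(η / κ * sg ρ (v.1 / ρ) v.2.1)) * A₂ v) with hB'
      have e2 : (fun q : V × V => ex (η' * (Nz ρ q / κ)) *
          (ex (η * (Nx ρ q / κ)) * tp A₁ A₂ q)) = tp A' B' := by
        funext q
        have e3 : ex (η' * (Nz ρ q / κ)) = ex (η' / κ * Nz ρ q) := by ring_nf
        have e4 : ex (η * (Nx ρ q / κ)) = ex (η / κ * Nx ρ q) := by ring_nf
        rw [e3, e4, ex_Nx, ex_Nz]
        unfold tp
        rw [hA', hB']
        ring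
      rw [e2]
      refine hK A' B' ?_ ?_ ?_ ?_ ?_ ?_
      · refine (measurable_ex.comp (measurable_const.mul (measurable_om ρ ?_ ?_))).mul
          ((measurable_ex.comp (measurable_const.mul (measurable_om ρ ?_ ?_))).mul h1) <;> fun_prop
      · refine (measurable_ex.comp (measurable_const.mul (measurable_sg ρ ?_ ?_)).neg).mul
          ((measurable_ex.comp (measurable_const.mul (measurable_sg ρ ?_ ?_)).neg).mul h2) <;>
          fun_prop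
      · intro a
        rw [hA', norm_mul, norm_mul, hns_norm_ex, hns_norm_ex, one_mul, one_mul]
        exact b1 a
      · intro a
        rw [hB', norm_mul, norm_mul, hns_norm_ex, hns_norm_ex, one_mul, one_mul]
        exact b2 a
      · intro a ha
        exact right_ne_zero_of_mul (right_ne_zero_of_mul ha)
      · intro a ha
        exact right_ne_zero_of_mul (right_ne_zero_of_mul ha)

end Pool.Agent.SDT.N1.MD

end -- N1.MD1

section -- N1.M2d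

/-!
N1, block M2, part 4: the pieces of the dyadic decomposition.
-/

namespace Pool.Agent.SDT.N1

open MeasureTheory Set Metric Pool.Agent.SDT.MP_6cbfb8_an Pool.Agent.SDT.MST
open scoped ENNReal Real ContDiff

theorem m2_ex_add (x y : ℝ) : ex (x + y) = ex x * ex y := by
  unfold ex
  rw [← Complex.exp_add]
  congr 1
  push_cast
  ring

theorem m2_ex_conj (x : ℝ) : (starRingEnd ℂ) (ex x) = ex (-x) := by
  unfold ex
  rw [← Complex.exp_conj, map_mul, Complex.conj_I, Complex.conj_ofReal]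
  congr 1
  push_cast
  ring

theorem m2_ex_norm (x : ℝ) : ‖ex x‖ = 1 := hns_norm_ex x

/-- the density -/
noncomputable def m2_Q (G₁ G₂ : ℝ → ℂ) (q : V × V) : ℂ := sqM (pd (da G₁) (da G₂)) q

theorem m2_Q_swp (G₁ G₂ : ℝ → ℂ) (q : V × V) : m2_Q G₁ G₂ (swp q) = m2_Q G₁ G₂ q := by
  unfold m2_Q sqM pd da swp
  simp only [map_mul, Complex.conj_conj]
  rw [sub_right_comm q.1.2.1 q.1.1, sub_right_comm q.2.2.1 q.2.1]
  ring

/-- the modulated density -/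
noncomputable def m2_al (G : ℝ → ℂ) (η : ℝ) (p : ℝ × ℝ) : ℂ := da G p * ex (η * p.2)

theorem m2_sq_mod (G₁ G₂ : ℝ → ℂ) (η₁ η₂ : ℝ) (q : V × V) :
    sqM (pd (m2_al G₁ η₁) (m2_al G₂ η₂)) q =
      ex (η₁ * q.1.2.2) * ex (η₂ * q.2.2.2) * m2_Q G₁ G₂ q := by
  have h1 : ∀ η a z : ℝ, ex (η * a) * (starRingEnd ℂ) (ex (η * (a - z))) = ex (η * z) := by
    intro η a z
    rw [m2_ex_conj, ← m2_ex_add]
    congr 1
    ring
  rw [← h1 η₁ q.1.2.1 q.1.2.2, ← h1 η₂ q.2.2.1 q.2.2.2]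
  unfold m2_Q sqM pd m2_al
  simp only [map_mul]
  ring

theorem m2_da_meas {G : ℝ → ℂ} (hG : Measurable G) : Measurable (da G) := by
  unfold da
  exact (hG.comp measurable_snd).mul
    (Complex.continuous_conj.measurable.comp (hG.comp (measurable_snd.sub measurable_fst)))

theorem m2_al_meas {G : ℝ → ℂ} (hG : Measurable G) (η : ℝ) : Measurable (m2_al G η) := by
  unfold m2_al
  exact (m2_da_meas hG).mul (measurable_ex.comp (measurable_snd.const_mul η))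

theorem m2_da_norm {G : ℝ → ℂ} (hG : ∀ a, ‖G a‖ ≤ 1) (p : ℝ × ℝ) : ‖da G p‖ ≤ 1 := by
  unfold da
  rw [norm_mul, RCLike.norm_conj]
  exact mul_le_one₀ (hG _) (norm_nonneg _) (hG _)

theorem m2_al_norm {G : ℝ → ℂ} (hG : ∀ a, ‖G a‖ ≤ 1) (η : ℝ) (p : ℝ × ℝ) :
    ‖m2_al G η p‖ ≤ 1 := by
  unfold m2_al
  rw [norm_mul, m2_ex_norm, mul_one]
  exact m2_da_norm hG p

theorem m2_pd_meas {α β : ℝ × ℝ → ℂ} (hα : Measurable α) (hβ : Measurable β) :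
    Measurable (pd α β) := by
  unfold pd
  fun_prop

theorem m2_pd_norm {α β : ℝ × ℝ → ℂ} (hα : ∀ p, ‖α p‖ ≤ 1) (hβ : ∀ p, ‖β p‖ ≤ 1)
    (p : (ℝ × ℝ) × (ℝ × ℝ)) : ‖pd α β p‖ ≤ 1 := by
  unfold pd
  rw [norm_mul]
  exact mul_le_one₀ (hα _) (norm_nonneg _) (hβ _)

theorem m2_sqM_meas {M : (ℝ × ℝ) × (ℝ × ℝ) → ℂ} (hM : Measurable M) : Measurable (sqM M) := by
  unfold sqM
  refine (hM.comp ?_).mul (Complex.continuous_conj.measurable.comp (hM.comp ?_)) <;> fun_prop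

theorem m2_sqM_norm {M : (ℝ × ℝ) × (ℝ × ℝ) → ℂ} (hM : ∀ p, ‖M p‖ ≤ 1) (q : V × V) :
    ‖sqM M q‖ ≤ 1 := by
  unfold sqM
  rw [norm_mul, RCLike.norm_conj]
  exact mul_le_one₀ (hM _) (norm_nonneg _) (hM _)

theorem m2_Q_meas {G₁ G₂ : ℝ → ℂ} (h1 : Measurable G₁) (h2 : Measurable G₂) :
    Measurable (m2_Q G₁ G₂) :=
  m2_sqM_meas (m2_pd_meas (m2_da_meas h1) (m2_da_meas h2))

theorem m2_Q_norm {G₁ G₂ : ℝ → ℂ} (h1 : ∀ a, ‖G₁ a‖ ≤ 1) (h2 : ∀ a, ‖G₂ a‖ ≤ 1) (q : V × V) :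
    ‖m2_Q G₁ G₂ q‖ ≤ 1 :=
  m2_sqM_norm (m2_pd_norm (m2_da_norm h1) (m2_da_norm h2)) q

/-- the support condition of a cap -/
def m2_cap (c r x : ℝ) (G : ℝ → ℂ) : Prop := ∀ a, G a ≠ 0 → c ≤ a ∧ |a - x| ≤ r

theorem m2_da_ne {G : ℝ → ℂ} {p : ℝ × ℝ} (h : da G p ≠ 0) : G p.2 ≠ 0 ∧ G (p.2 - p.1) ≠ 0 := by
  unfold da at h
  refine ⟨left_ne_zero_of_mul h, ?_⟩
  have h1 := right_ne_zero_of_mul h
  intro h2
  rw [h2] at h1
  simp at h1

theorem m2_Q_ne {G₁ G₂ : ℝ → ℂ} {q : V × V} (h : m2_Q G₁ G₂ q ≠ 0) :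
    (G₁ q.1.2.1 ≠ 0 ∧ G₁ (q.1.2.1 - q.1.1) ≠ 0 ∧ G₁ (q.1.2.1 - q.1.2.2) ≠ 0 ∧
      G₁ (q.1.2.1 - q.1.1 - q.1.2.2) ≠ 0) ∧
    (G₂ q.2.2.1 ≠ 0 ∧ G₂ (q.2.2.1 - q.2.1) ≠ 0 ∧ G₂ (q.2.2.1 - q.2.2.2) ≠ 0 ∧
      G₂ (q.2.2.1 - q.2.1 - q.2.2.2) ≠ 0) := by
  unfold m2_Q sqM at h
  have h1 := left_ne_zero_of_mul h
  have h2 : pd (da G₁) (da G₂)
      ((q.1.1, q.2.1), (q.1.2.1 - q.1.2.2, q.2.2.1 - q.2.2.2)) ≠ 0 := by
    intro h3
    rw [h3] at h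
    simp at h
  unfold pd at h1 h2
  have h3 := m2_da_ne (left_ne_zero_of_mul h1)
  have h4 := m2_da_ne (right_ne_zero_of_mul h1)
  have h5 := m2_da_ne (left_ne_zero_of_mul h2)
  have h6 := m2_da_ne (right_ne_zero_of_mul h2)
  simp only at h3 h4 h5 h6
  rw [sub_right_comm] at h5 h6
  exact ⟨⟨h3.1, h3.2, h5.1, h5.2⟩, h4.1, h4.2, h6.1, h6.2⟩

theorem m2_Q_Ge {c r x1 x2 : ℝ} {G₁ G₂ : ℝ → ℂ} (h1 : m2_cap c r x1 G₁) (h2 : m2_cap c r x2 G₂)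
    {q : V × V} (h : m2_Q G₁ G₂ q ≠ 0) : Ge c q.1 ∧ Ge c q.2 := by
  obtain ⟨⟨a1, a2, a3, a4⟩, b1, b2, b3, b4⟩ := m2_Q_ne h
  exact ⟨⟨(h1 _ a1).1, (h1 _ a2).1, (h1 _ a3).1, (h1 _ a4).1⟩,
    (h2 _ b1).1, (h2 _ b2).1, (h2 _ b3).1, (h2 _ b4).1⟩

theorem m2_Q_le {c r x1 x2 : ℝ} {G₁ G₂ : ℝ → ℂ} (h1 : m2_cap c r x1 G₁) (h2 : m2_cap c r x2 G₂)
    (hr : r ≤ 1 / 2) {q : V × V} (h : m2_Q G₁ G₂ q ≠ 0) :
    |q.1.1| ≤ 1 ∧ |q.2.1| ≤ 1 ∧ |q.1.2.2| ≤ 1 ∧ |q.2.2.2| ≤ 1 := by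
  obtain ⟨⟨a1, a2, a3, a4⟩, b1, b2, b3, b4⟩ := m2_Q_ne h
  have key : ∀ (x a y : ℝ), |a - x| ≤ r → |a - y - x| ≤ r → |y| ≤ 1 := by
    intro x a y h3 h4
    rw [abs_le] at *
    constructor <;> linarith
  exact ⟨key x1 _ _ (h1 _ a1).2 (h1 _ a2).2, key x2 _ _ (h2 _ b1).2 (h2 _ b2).2,
    key x1 _ _ (h1 _ a1).2 (h1 _ a3).2, key x2 _ _ (h2 _ b1).2 (h2 _ b3).2⟩

theorem m2_enorm_le {z : ℂ} {K : ℝ} (hK : 0 ≤ K) (h : ‖z‖ₑ ≤ ENNReal.ofReal K) : ‖z‖ ≤ K := by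
  rw [← ofReal_norm] at h
  exact (ENNReal.ofReal_le_ofReal_iff hK).1 h


/-- a product of two dyadic pieces -/
noncomputable def m2_psi (j k : ℕ) (y : ℝ × ℝ) : ℂ := ((uj j y.1 * uj k y.2 : ℝ) : ℂ)

theorem m2_psi_meas (j k : ℕ) : Measurable (m2_psi j k) :=
  Complex.measurable_ofReal.comp (((measurable_uj j).comp measurable_fst).mul
      ((measurable_uj k).comp measurable_snd))

theorem m2_psi_norm (j k : ℕ) (y : ℝ × ℝ) : ‖m2_psi j k y‖ ≤ 1 := by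
  unfold m2_psi
  rw [Complex.norm_real, Real.norm_eq_abs, abs_mul]
  exact mul_le_one₀ (uj_abs_le _ _) (abs_nonneg _) (uj_abs_le _ _)

/-- a modulated density with a dyadic cut-off -/
noncomputable def m2_ac (j : ℕ) (G : ℝ → ℂ) (η : ℝ) (p : ℝ × ℝ) : ℂ :=
  if uj j p.1 = 0 then 0 else m2_al G η p

theorem m2_ac_ne {j : ℕ} {G : ℝ → ℂ} {η : ℝ} {p : ℝ × ℝ} (hp : m2_ac j G η p ≠ 0) :
    uj j p.1 ≠ 0 ∧ G p.2 ≠ 0 ∧ G (p.2 - p.1) ≠ 0 := by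
  unfold m2_ac at hp
  split_ifs at hp with h3
  · exact absurd rfl hp
  · unfold m2_al at hp
    exact ⟨h3, m2_da_ne (left_ne_zero_of_mul hp)⟩

theorem m2_ac_meas (j : ℕ) {G : ℝ → ℂ} (η : ℝ) (hG : Measurable G) :
    Measurable (m2_ac j G η) := by
  unfold m2_ac
  refine Measurable.ite ?_ measurable_const (m2_al_meas hG η)
  exact ((measurable_uj j).comp measurable_fst) (measurableSet_singleton 0)

theorem m2_ac_norm (j : ℕ) {G : ℝ → ℂ} (η : ℝ) (hG : ∀ a, ‖G a‖ ≤ 1) (p : ℝ × ℝ) :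
    ‖m2_ac j G η p‖ ≤ 1 := by
  unfold m2_ac
  split_ifs
  · simp
  · exact m2_al_norm hG η p

theorem m2_ac_pd (j k : ℕ) (G₁ G₂ : ℝ → ℂ) (η₁ η₂ : ℝ) :
    (fun p : (ℝ × ℝ) × (ℝ × ℝ) =>
      if m2_psi j k p.1 = 0 then 0 else pd (m2_al G₁ η₁) (m2_al G₂ η₂) p) =
      pd (m2_ac j G₁ η₁) (m2_ac k G₂ η₂) := by
  funext p
  unfold pd m2_ac m2_psi
  simp only [Complex.ofReal_eq_zero, mul_eq_zero]
  by_cases h3 : uj j p.1.1 = 0
  · simp [h3]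
  · by_cases h4 : uj k p.1.2 = 0
    · simp [h4]
    · simp [h3, h4]

/-- scaled form of the support of a dyadic piece -/
theorem m2_uj_scale {j k k0 : ℕ} (hjk : j < k + k0) (hkj : k < j + k0) {x : ℝ}
    (h : uj k x ≠ 0) : 1 / 2 ^ (k0 + 1) ≤ |x / (1 / 2 ^ j)| ∧ |x / (1 / 2 ^ j)| ≤ 2 ^ (k0 + 1) := by
  obtain ⟨h6, h7⟩ := uj_support k x h
  have hj : (0 : ℝ) < 2 ^ j := by positivity
  have h0 : x / (1 / 2 ^ j) = x * 2 ^ j := by
    rw [div_div_eq_mul_div, div_one]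
  rw [h0, abs_mul, abs_of_pos hj]
  rw [div_lt_iff₀ (by positivity)] at h6
  rw [lt_div_iff₀ (by positivity)] at h7
  constructor
  · rw [div_le_iff₀ (by positivity)]
    have h1 : (2 : ℝ) ^ (k + 1) ≤ 2 ^ j * 2 ^ (k0 + 1) := by
      rw [← pow_add]
      exact pow_le_pow_right₀ (by norm_num) (by omega)
    nlinarith [abs_nonneg x]
  · have h1 : (2 : ℝ) ^ j * 2 ≤ 2 ^ k * 2 ^ (k0 + 1) := by
      rw [← pow_add, ← pow_succ]
      exact pow_le_pow_right₀ (by norm_num) (by omega)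
    have hk : (0 : ℝ) < 2 ^ k := by positivity
    have h2 : |x| * 2 ^ j * 2 ^ k ≤ 2 * 2 ^ j := by nlinarith
    nlinarith

theorem m2_uj_scale1 {j : ℕ} {x : ℝ}
    (h : uj j x ≠ 0) : 1 / 2 ≤ |x / (1 / 2 ^ j)| ∧ |x / (1 / 2 ^ j)| ≤ 2 := by
  obtain ⟨h6, h7⟩ := uj_support j x h
  have hj : (0 : ℝ) < 2 ^ j := by positivity
  have h0 : x / (1 / 2 ^ j) = x * 2 ^ j := by
    rw [div_div_eq_mul_div, div_one]
  rw [h0, abs_mul, abs_of_pos hj]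
  rw [div_lt_iff₀ (by positivity), pow_succ] at h6
  rw [lt_div_iff₀ (by positivity)] at h7
  constructor
  · linarith
  · linarith

/-- The conclusion of TH, as a property of the constants. -/
def m2_TH (c : ℝ) (k0 : ℕ) (r C : ℝ) : Prop := ∀ T : ℝ, 1 ≤ T →
    ∀ ρ : ℝ, 0 < ρ → ∀ x0 : ℝ × ℝ, ∀ α β : ℝ × ℝ → ℂ, Measurable α → Measurable β →
      (∀ p, ‖α p‖ ≤ 1) → (∀ p, ‖β p‖ ≤ 1) →
      (∀ p, α p ≠ 0 → c ≤ p.2 ∧ c ≤ p.2 - p.1 ∧ |p.2 - x0.1| ≤ r ∧ |p.2 - p.1 - x0.1| ≤ r ∧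
        1 / 2 ≤ |p.1 / ρ| ∧ |p.1 / ρ| ≤ 2) →
      (∀ p, β p ≠ 0 → c ≤ p.2 ∧ c ≤ p.2 - p.1 ∧ |p.2 - x0.2| ≤ r ∧ |p.2 - p.1 - x0.2| ≤ r ∧
        1 / 2 ^ (k0 + 1) ≤ |p.1 / ρ| ∧ |p.1 / ρ| ≤ 2 ^ (k0 + 1)) →
      Th c T (pd α β) ≤ ENNReal.ofReal (C * (1 + Real.log T) ^ 5 / T)

theorem m2_N0 (c : ℝ) (k0 : ℕ) (r C : ℝ) (hTH : m2_TH c k0 r C)
    (T : ℝ) (hT : 1 ≤ T) (x1 x2 : ℝ) (G₁ G₂ : ℝ → ℂ) (h1 : Measurable G₁) (h2 : Measurable G₂)
    (b1 : ∀ a, ‖G₁ a‖ ≤ 1) (b2 : ∀ a, ‖G₂ a‖ ≤ 1) (hG1 : m2_cap c r x1 G₁)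
    (hG2 : m2_cap c r x2 G₂) (j k : ℕ) (hjk : j < k + k0) (hkj : k < j + k0) (η₁ η₂ : ℝ) :
    Th c T (pd (m2_ac j G₁ η₁) (m2_ac k G₂ η₂)) ≤
      ENNReal.ofReal (C * (1 + Real.log T) ^ 5 / T) := by
  refine hTH T hT (1 / 2 ^ j) (by positivity) (x1, x2) _ _ (m2_ac_meas j η₁ h1)
    (m2_ac_meas k η₂ h2) (m2_ac_norm j η₁ b1) (m2_ac_norm k η₂ b2) ?_ ?_
  · intro p hp
    obtain ⟨h3, h4, h5⟩ := m2_ac_ne hp
    obtain ⟨h6, h7⟩ := m2_uj_scale1 h3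
    exact ⟨(hG1 _ h4).1, (hG1 _ h5).1, (hG1 _ h4).2, (hG1 _ h5).2, h6, h7⟩
  · intro p hp
    obtain ⟨h3, h4, h5⟩ := m2_ac_ne hp
    obtain ⟨h6, h7⟩ := m2_uj_scale hjk hkj h3
    exact ⟨(hG2 _ h4).1, (hG2 _ h5).1, (hG2 _ h4).2, (hG2 _ h5).2, h6, h7⟩

/-- The nondegenerate pieces. -/
theorem m2_N (c : ℝ) (hc : 0 < c) (k0 : ℕ) (r C : ℝ) (hC : 0 ≤ C) (hTH : m2_TH c k0 r C)
    (T : ℝ) (hT : 1 ≤ T) (x1 x2 : ℝ) (G₁ G₂ : ℝ → ℂ) (h1 : Measurable G₁) (h2 : Measurable G₂)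
    (b1 : ∀ a, ‖G₁ a‖ ≤ 1) (b2 : ∀ a, ‖G₂ a‖ ≤ 1) (hG1 : m2_cap c r x1 G₁)
    (hG2 : m2_cap c r x2 G₂) (j k : ℕ) (hjk : j < k + k0) (hkj : k < j + k0) (η₁ η₂ : ℝ) :
    ‖FF c T (fun q => m2_psi j k (q.1.1, q.2.1) *
      (ex (η₁ * q.1.2.2) * ex (η₂ * q.2.2.2) * m2_Q G₁ G₂ q))‖ ≤
      C * (1 + Real.log T) ^ 5 / T := by
  have hT0 : 0 < T := by linarith
  have hL : 0 ≤ Real.log T := Real.log_nonneg hT
  refine m2_enorm_le (by positivity) ?_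
  have h3 := FF_weight c hc T hT0 (pd (m2_al G₁ η₁) (m2_al G₂ η₂))
    (m2_pd_meas (m2_al_meas h1 η₁) (m2_al_meas h2 η₂))
    (m2_pd_norm (m2_al_norm b1 η₁) (m2_al_norm b2 η₂)) (m2_psi j k) (m2_psi_meas j k)
    (m2_psi_norm j k)
  rw [m2_ac_pd] at h3
  simp only [m2_sq_mod] at h3
  exact h3.trans (m2_N0 c k0 r C hTH T hT x1 x2 G₁ G₂ h1 h2 b1 b2 hG1 hG2 j k hjk hkj η₁ η₂)

end Pool.Agent.SDT.N1

end -- N1.M2d

section -- N1F.P1b

/-!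
N1F, Proposition I: the functions of the normal form, smoothness.

Parameters `p : Fin 7 → ℝ`: `p 0 = A`, `p 1 = B`, `p 2 = ρ₁`, `p 3 = γ₁`, `p 4 = ρ₂`, `p 5 = γ₂`,
`p 6 = κ₁`.
-/

namespace Pool.Agent.SDT.N1F

open MeasureTheory Set Metric Pool.Agent.SDT.MP_6cbfb8_an Pool.Agent.SDT.MST Pool.Agent.SDT.N1
open scoped ENNReal Real ContDiff Topology

/-- Parameters. -/
abbrev P7 : Type := Fin 7 → ℝ

/-- Boolean to real. -/
def bt (e : Bool) : ℝ := if e then 1 else 0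

/-- The four points in the first coordinate (scaled). -/
noncomputable def Xi (e f : Bool) (x : P7 × V) : ℝ :=
  x.2.2.1 - bt e * (x.1 2 * x.2.1) - bt f * (x.1 3 * x.2.2.2)

/-- The four points in the second coordinate (scaled). -/
noncomputable def Wi (e f : Bool) (x : P7 × V) : ℝ :=
  x.2.2.1 - bt e * (x.1 4 * x.2.1) - bt f * (x.1 5 * x.2.2.2)

/-- The pair `(p, a)`. -/
def prA (x : P7 × V × V) : P7 × V := (x.1, x.2.1)

/-- The pair `(p, b)`. -/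
def prB (x : P7 × V × V) : P7 × V := (x.1, x.2.2)

/-- Good points, first coordinate. -/
def okA (c : ℝ) (x : P7 × V) : Prop := ∀ e f : Bool, c ^ 2 / 8 < 1 - x.1 0 * Xi e f x ^ 2 - 0

/-- Good points, second coordinate. -/
def okB (c : ℝ) (x : P7 × V) : Prop := ∀ e f : Bool, c ^ 2 / 8 < 1 - x.1 1 * Wi e f x ^ 2 - 0

/-- Good points. -/
def okI (c : ℝ) (x : P7 × V × V) : Prop :=
  okA c (prA x) ∧ okB c (prB x) ∧ ∀ e f e' f' : Bool,
    c ^ 2 / 8 < 1 - x.1 0 * Xi e f (prA x) ^ 2 - x.1 1 * Wi e' f' (prB x) ^ 2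

/-- `ω` -/
noncomputable def omI (c : ℝ) (x : P7 × V) : ℝ :=
  x.2.1 * x.2.2.2 * E1 c (x.1 0) (Xi false false x) (Xi true false x) (Xi false true x)
    (Xi true true x) 0 * Qs c (x.1 0 * Xi true false x ^ 2) 0

/-- `σ` -/
noncomputable def sgI (c : ℝ) (x : P7 × V) : ℝ :=
  -(x.2.1 * x.2.2.2 * E1 c (x.1 1) (Wi false false x) (Wi true false x) (Wi false true x)
    (Wi true true x) 0 * Qs c (x.1 1 * Wi false true x ^ 2) 0)

/-- `α₁` -/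
noncomputable def alI (c : ℝ) (x : P7 × V) : ℝ :=
  x.2.1 * (Xi false false x + Xi true false x) / (Qs c (x.1 0 * Xi false false x ^ 2) 0 *
    (Qs c (x.1 0 * Xi false false x ^ 2) 0 + Qs c (x.1 0 * Xi true false x ^ 2) 0))

/-- `β₁` -/
noncomputable def beI (c : ℝ) (x : P7 × V) : ℝ :=
  x.2.2.2 * (Wi false false x + Wi false true x) / (Qs c (x.1 1 * Wi false false x ^ 2) 0 *
    (Qs c (x.1 1 * Wi false false x ^ 2) 0 + Qs c (x.1 1 * Wi false true x ^ 2) 0))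

/-- The unit. -/
noncomputable def UI (c : ℝ) (x : P7 × V × V) : ℝ :=
  (1 - x.1 0 * Xi true false (prA x) ^ 2) * (1 - x.1 1 * Wi false true (prB x) ^ 2) /
    Qs c (x.1 0 * Xi true false (prA x) ^ 2) (x.1 1 * Wi false true (prB x) ^ 2) ^ 3

noncomputable def P11 (c : ℝ) (x : P7 × V × V) : ℝ :=
  -(x.2.1.1 * x.2.1.2.2 * E1 c (x.1 0) (Xi false false (prA x)) (Xi true false (prA x))
    (Xi false true (prA x)) (Xi true true (prA x)) (x.1 1 * Wi false true (prB x) ^ 2))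

noncomputable def P22 (c : ℝ) (x : P7 × V × V) : ℝ :=
  -(x.2.2.1 * x.2.2.2.2 * E1 c (x.1 1) (Wi false false (prB x)) (Wi true false (prB x))
    (Wi false true (prB x)) (Wi true true (prB x)) (x.1 0 * Xi true false (prA x) ^ 2))

noncomputable def P12 (c : ℝ) (x : P7 × V × V) : ℝ :=
  -(x.2.1.1 * x.2.2.2.2 * E3 c (x.1 0) (x.1 1) (Xi false false (prA x)) (Xi true false (prA x))
    (Wi false false (prB x)) (Wi false true (prB x)))

noncomputable def P21 (c : ℝ) (x : P7 × V × V) : ℝ :=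
  -(x.2.1.2.2 * x.2.2.1 * E3 c (x.1 0) (x.1 1) (Xi true false (prA x)) (Xi true true (prA x))
    (Wi false true (prB x)) (Wi true true (prB x)))

/-- The remainder that is divisible by `A B`. -/
noncomputable def RI (c : ℝ) (x : P7 × V × V) : ℝ :=
  P11 c x + P22 c x + x.1 6 * P12 c x +
    UI c x * (omI c (prA x) - sgI c (prB x) + x.1 6 * (alI c (prA x) * beI c (prB x)))

/-! ### smoothness -/

lemma Qs_cd {Q : Type*} [NormedAddCommGroup Q] [NormedSpace ℝ Q] (c : ℝ) (hc : 0 < c)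
    {f g : Q → ℝ} {x : Q} (hf : ContDiffAt ℝ ∞ f x) (hg : ContDiffAt ℝ ∞ g x) :
    ContDiffAt ℝ ∞ (fun y => Qs c (f y) (g y)) x := by
  unfold Qs
  have h1 : ContDiffAt ℝ ∞ (fun y => 1 - f y - g y) x := (contDiffAt_const.sub hf).sub hg
  exact (Sq_smooth c hc).contDiffAt.comp x h1

lemma E1_cd {Q : Type*} [NormedAddCommGroup Q] [NormedSpace ℝ Q] (c : ℝ) (hc : 0 < c)
    {A x1 x2 x3 x4 s : Q → ℝ} {x : Q} (hA : ContDiffAt ℝ ∞ A x) (h1 : ContDiffAt ℝ ∞ x1 x)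
    (h2 : ContDiffAt ℝ ∞ x2 x) (h3 : ContDiffAt ℝ ∞ x3 x) (h4 : ContDiffAt ℝ ∞ x4 x)
    (hs : ContDiffAt ℝ ∞ s x)
    (k1 : c ^ 2 / 8 < 1 - A x * x1 x ^ 2 - s x) (k2 : c ^ 2 / 8 < 1 - A x * x2 x ^ 2 - s x)
    (k3 : c ^ 2 / 8 < 1 - A x * x3 x ^ 2 - s x) (k4 : c ^ 2 / 8 < 1 - A x * x4 x ^ 2 - s x) :
    ContDiffAt ℝ ∞ (fun y => E1 c (A y) (x1 y) (x2 y) (x3 y) (x4 y) (s y)) x := by
  have q1 := Qs_cd c hc (hA.mul (h1.pow 2)) hs
  have q2 := Qs_cd c hc (hA.mul (h2.pow 2)) hs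
  have q3 := Qs_cd c hc (hA.mul (h3.pow 2)) hs
  have q4 := Qs_cd c hc (hA.mul (h4.pow 2)) hs
  have p1 := Qs_pos c hc _ _ k1.le
  have p2 := Qs_pos c hc _ _ k2.le
  have p3 := Qs_pos c hc _ _ k3.le
  have p4 := Qs_pos c hc _ _ k4.le
  unfold E1
  refine ContDiffAt.div (ContDiffAt.add (ContDiffAt.mul (hA.mul (h1.add h2))
    (ContDiffAt.add (ContDiffAt.div (h1.add h3) (q1.add q3) ?_)
      (ContDiffAt.div (h2.add h4) (q2.add q4) ?_))) (contDiffAt_const.mul (q1.add q2)))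
    ((q1.add q2).mul (q3.add q4)) ?_
  · exact (add_pos p1 p3).ne'
  · exact (add_pos p2 p4).ne'
  · exact (mul_pos (add_pos p1 p2) (add_pos p3 p4)).ne'

lemma E3_cd {Q : Type*} [NormedAddCommGroup Q] [NormedSpace ℝ Q] (c : ℝ) (hc : 0 < c)
    {A B x1 x2 w1 w2 : Q → ℝ} {x : Q} (hA : ContDiffAt ℝ ∞ A x) (hB : ContDiffAt ℝ ∞ B x)
    (h1 : ContDiffAt ℝ ∞ x1 x) (h2 : ContDiffAt ℝ ∞ x2 x) (h3 : ContDiffAt ℝ ∞ w1 x)
    (h4 : ContDiffAt ℝ ∞ w2 x)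
    (k1 : c ^ 2 / 8 < 1 - A x * x1 x ^ 2 - B x * w1 x ^ 2)
    (k2 : c ^ 2 / 8 < 1 - A x * x2 x ^ 2 - B x * w1 x ^ 2)
    (k3 : c ^ 2 / 8 < 1 - A x * x1 x ^ 2 - B x * w2 x ^ 2)
    (k4 : c ^ 2 / 8 < 1 - A x * x2 x ^ 2 - B x * w2 x ^ 2) :
    ContDiffAt ℝ ∞ (fun y => E3 c (A y) (B y) (x1 y) (x2 y) (w1 y) (w2 y)) x := by
  have q1 := Qs_cd c hc (hA.mul (h1.pow 2)) (hB.mul (h3.pow 2))
  have q2 := Qs_cd c hc (hA.mul (h2.pow 2)) (hB.mul (h3.pow 2))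
  have q3 := Qs_cd c hc (hA.mul (h1.pow 2)) (hB.mul (h4.pow 2))
  have q4 := Qs_cd c hc (hA.mul (h2.pow 2)) (hB.mul (h4.pow 2))
  have p1 := Qs_pos c hc _ _ k1.le
  have p2 := Qs_pos c hc _ _ k2.le
  have p3 := Qs_pos c hc _ _ k3.le
  have p4 := Qs_pos c hc _ _ k4.le
  unfold E3
  refine ContDiffAt.div (ContDiffAt.mul ((h1.add h2).mul (h3.add h4))
    (ContDiffAt.add (ContDiffAt.div contDiffAt_const (q1.add q3) ?_)
      (ContDiffAt.div contDiffAt_const (q2.add q4) ?_)))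
    ((q1.add q2).mul (q3.add q4)) ?_
  · exact (add_pos p1 p3).ne'
  · exact (add_pos p2 p4).ne'
  · exact (mul_pos (add_pos p1 p2) (add_pos p3 p4)).ne'

lemma Xi_cd (e f : Bool) : ContDiff ℝ ∞ (Xi e f) := by
  unfold Xi
  fun_prop

lemma Wi_cd (e f : Bool) : ContDiff ℝ ∞ (Wi e f) := by
  unfold Wi
  fun_prop

lemma prA_cd : ContDiff ℝ ∞ prA := by
  unfold prA
  fun_prop

lemma prB_cd : ContDiff ℝ ∞ prB := by
  unfold prB
  fun_prop

lemma XA_cd (e f : Bool) : ContDiff ℝ ∞ fun x : P7 × V × V => Xi e f (prA x) :=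
  (Xi_cd e f).comp prA_cd

lemma WB_cd (e f : Bool) : ContDiff ℝ ∞ fun x : P7 × V × V => Wi e f (prB x) :=
  (Wi_cd e f).comp prB_cd

lemma pi_cd {Q : Type*} [NormedAddCommGroup Q] [NormedSpace ℝ Q] (i : Fin 7) :
    ContDiff ℝ ∞ fun x : P7 × Q => x.1 i := by
  fun_prop

lemma omI_cd (c : ℝ) (hc : 0 < c) (x : P7 × V) (h : okA c x) : ContDiffAt ℝ ∞ (omI c) x := by
  have e := E1_cd c hc (pi_cd 0).contDiffAt (Xi_cd false false).contDiffAt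
    (Xi_cd true false).contDiffAt (Xi_cd false true).contDiffAt (Xi_cd true true).contDiffAt
    (contDiffAt_const (c := (0:ℝ))) (h _ _) (h _ _) (h _ _) (h _ _)
  have q := Qs_cd c hc (x := x) ((pi_cd 0).contDiffAt.mul ((Xi_cd true false).contDiffAt.pow 2))
    (contDiffAt_const (c := (0:ℝ)))
  exact ((by fun_prop : ContDiffAt ℝ ∞ (fun x : P7 × V => x.2.1 * x.2.2.2) x).mul e).mul q

lemma sgI_cd (c : ℝ) (hc : 0 < c) (x : P7 × V) (h : okB c x) : ContDiffAt ℝ ∞ (sgI c) x := by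
  have e := E1_cd c hc (pi_cd 1).contDiffAt (Wi_cd false false).contDiffAt
    (Wi_cd true false).contDiffAt (Wi_cd false true).contDiffAt (Wi_cd true true).contDiffAt
    (contDiffAt_const (c := (0:ℝ))) (h _ _) (h _ _) (h _ _) (h _ _)
  have q := Qs_cd c hc (x := x) ((pi_cd 1).contDiffAt.mul ((Wi_cd false true).contDiffAt.pow 2))
    (contDiffAt_const (c := (0:ℝ)))
  exact (((by fun_prop : ContDiffAt ℝ ∞ (fun x : P7 × V => x.2.1 * x.2.2.2) x).mul e).mul q).neg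

lemma alI_cd (c : ℝ) (hc : 0 < c) (x : P7 × V) (h : okA c x) : ContDiffAt ℝ ∞ (alI c) x := by
  have q1 := Qs_cd c hc (x := x) ((pi_cd 0).contDiffAt.mul ((Xi_cd false false).contDiffAt.pow 2))
    (contDiffAt_const (c := (0:ℝ)))
  have q2 := Qs_cd c hc (x := x) ((pi_cd 0).contDiffAt.mul ((Xi_cd true false).contDiffAt.pow 2))
    (contDiffAt_const (c := (0:ℝ)))
  have p1 := Qs_pos c hc _ _ (h false false).le
  have p2 := Qs_pos c hc _ _ (h true false).le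
  unfold alI
  refine ContDiffAt.div (ContDiffAt.mul (by fun_prop) ((Xi_cd false false).contDiffAt.add
    (Xi_cd true false).contDiffAt)) (q1.mul (q1.add q2)) ?_
  exact (mul_pos p1 (add_pos p1 p2)).ne'

lemma beI_cd (c : ℝ) (hc : 0 < c) (x : P7 × V) (h : okB c x) : ContDiffAt ℝ ∞ (beI c) x := by
  have q1 := Qs_cd c hc (x := x) ((pi_cd 1).contDiffAt.mul ((Wi_cd false false).contDiffAt.pow 2))
    (contDiffAt_const (c := (0:ℝ)))
  have q2 := Qs_cd c hc (x := x) ((pi_cd 1).contDiffAt.mul ((Wi_cd false true).contDiffAt.pow 2))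
    (contDiffAt_const (c := (0:ℝ)))
  have p1 := Qs_pos c hc _ _ (h false false).le
  have p2 := Qs_pos c hc _ _ (h false true).le
  unfold beI
  refine ContDiffAt.div (ContDiffAt.mul (by fun_prop) ((Wi_cd false false).contDiffAt.add
    (Wi_cd false true).contDiffAt)) (q1.mul (q1.add q2)) ?_
  exact (mul_pos p1 (add_pos p1 p2)).ne'

lemma UI_pos (c : ℝ) (hc : 0 < c) (x : P7 × V × V) (h : okI c x) : 0 < UI c x := by
  obtain ⟨h1, h2, h3⟩ := h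
  have hc8 : 0 < c ^ 2 / 8 := by positivity
  have k1 := h1 true false
  have k2 := h2 false true
  have k3 := Qs_pos c hc _ _ (h3 true false false true).le
  unfold UI
  simp only [prA, prB, sub_zero] at k1 k2 k3 ⊢
  exact div_pos (mul_pos (by linarith) (by linarith)) (pow_pos k3 3)

lemma UI_cd (c : ℝ) (hc : 0 < c) (x : P7 × V × V) (h : okI c x) : ContDiffAt ℝ ∞ (UI c) x := by
  obtain ⟨h1, h2, h3⟩ := h
  have q := Qs_cd c hc (x := x) ((pi_cd 0).contDiffAt.mul ((XA_cd true false).contDiffAt.pow 2))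
    ((pi_cd 1).contDiffAt.mul ((WB_cd false true).contDiffAt.pow 2))
  have k3 := Qs_pos c hc _ _ (h3 true false false true).le
  unfold UI
  refine ContDiffAt.div (ContDiffAt.mul
    (contDiffAt_const.sub ((pi_cd 0).contDiffAt.mul ((XA_cd true false).contDiffAt.pow 2)))
    (contDiffAt_const.sub ((pi_cd 1).contDiffAt.mul ((WB_cd false true).contDiffAt.pow 2))))
    (q.pow 3) (pow_pos k3 3).ne'

lemma P11_cd (c : ℝ) (hc : 0 < c) (x : P7 × V × V) (h : okI c x) : ContDiffAt ℝ ∞ (P11 c) x := by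
  obtain ⟨h1, h2, h3⟩ := h
  have e := E1_cd c hc (x := x) (pi_cd 0).contDiffAt (XA_cd false false).contDiffAt
    (XA_cd true false).contDiffAt (XA_cd false true).contDiffAt (XA_cd true true).contDiffAt
    ((pi_cd 1).contDiffAt.mul ((WB_cd false true).contDiffAt.pow 2))
    (h3 _ _ _ _) (h3 _ _ _ _) (h3 _ _ _ _) (h3 _ _ _ _)
  exact ((by fun_prop : ContDiffAt ℝ ∞ (fun x : P7 × V × V => x.2.1.1 * x.2.1.2.2) x).mul e).neg

lemma P22_cd (c : ℝ) (hc : 0 < c) (x : P7 × V × V) (h : okI c x) : ContDiffAt ℝ ∞ (P22 c) x := by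
  obtain ⟨h1, h2, h3⟩ := h
  have e := E1_cd c hc (x := x) (pi_cd 1).contDiffAt (WB_cd false false).contDiffAt
    (WB_cd true false).contDiffAt (WB_cd false true).contDiffAt (WB_cd true true).contDiffAt
    ((pi_cd 0).contDiffAt.mul ((XA_cd true false).contDiffAt.pow 2))
    (by have := h3 true false false false; linarith) (by have := h3 true false true false; linarith)
    (by have := h3 true false false true; linarith) (by have := h3 true false true true; linarith)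
  exact ((by fun_prop : ContDiffAt ℝ ∞ (fun x : P7 × V × V => x.2.2.1 * x.2.2.2.2) x).mul e).neg

lemma P12_cd (c : ℝ) (hc : 0 < c) (x : P7 × V × V) (h : okI c x) : ContDiffAt ℝ ∞ (P12 c) x := by
  obtain ⟨h1, h2, h3⟩ := h
  have e := E3_cd c hc (x := x) (pi_cd 0).contDiffAt (pi_cd 1).contDiffAt
    (XA_cd false false).contDiffAt (XA_cd true false).contDiffAt
    (WB_cd false false).contDiffAt (WB_cd false true).contDiffAt
    (h3 _ _ _ _) (h3 _ _ _ _) (h3 _ _ _ _) (h3 _ _ _ _)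
  exact ((by fun_prop : ContDiffAt ℝ ∞ (fun x : P7 × V × V => x.2.1.1 * x.2.2.2.2) x).mul e).neg

lemma P21_cd (c : ℝ) (hc : 0 < c) (x : P7 × V × V) (h : okI c x) : ContDiffAt ℝ ∞ (P21 c) x := by
  obtain ⟨h1, h2, h3⟩ := h
  have e := E3_cd c hc (x := x) (pi_cd 0).contDiffAt (pi_cd 1).contDiffAt
    (XA_cd true false).contDiffAt (XA_cd true true).contDiffAt
    (WB_cd false true).contDiffAt (WB_cd true true).contDiffAt
    (h3 _ _ _ _) (h3 _ _ _ _) (h3 _ _ _ _) (h3 _ _ _ _)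
  exact ((by fun_prop : ContDiffAt ℝ ∞ (fun x : P7 × V × V => x.2.1.2.2 * x.2.2.1) x).mul e).neg

lemma RI_cd (c : ℝ) (hc : 0 < c) (x : P7 × V × V) (h : okI c x) : ContDiffAt ℝ ∞ (RI c) x := by
  have a1 := (omI_cd c hc _ h.1).comp x prA_cd.contDiffAt
  have a2 := (sgI_cd c hc _ h.2.1).comp x prB_cd.contDiffAt
  have a3 := (alI_cd c hc _ h.1).comp x prA_cd.contDiffAt
  have a4 := (beI_cd c hc _ h.2.1).comp x prB_cd.contDiffAt
  exact (((P11_cd c hc x h).add (P22_cd c hc x h)).add ((pi_cd 6).contDiffAt.mul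
    (P12_cd c hc x h))).add ((UI_cd c hc x h).mul ((a1.sub a2).add ((pi_cd 6).contDiffAt.mul
      (a3.mul a4))))

/-! ### openness -/

lemma okA_ev (c : ℝ) (x : P7 × V) (h : okA c x) : ∀ᶠ y in 𝓝 x, okA c y := by
  unfold okA
  rw [Filter.eventually_all]
  intro e
  rw [Filter.eventually_all]
  intro f
  have h1 : ContinuousAt (fun y : P7 × V => 1 - y.1 0 * Xi e f y ^ 2 - 0) x :=
    ((contDiff_const.sub ((pi_cd 0).mul ((Xi_cd e f).pow 2))).sub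
      contDiff_const).continuous.continuousAt
  exact h1.eventually (lt_mem_nhds (h e f))

lemma okB_ev (c : ℝ) (x : P7 × V) (h : okB c x) : ∀ᶠ y in 𝓝 x, okB c y := by
  unfold okB
  rw [Filter.eventually_all]
  intro e
  rw [Filter.eventually_all]
  intro f
  have h1 : ContinuousAt (fun y : P7 × V => 1 - y.1 1 * Wi e f y ^ 2 - 0) x :=
    ((contDiff_const.sub ((pi_cd 1).mul ((Wi_cd e f).pow 2))).sub
      contDiff_const).continuous.continuousAt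
  exact h1.eventually (lt_mem_nhds (h e f))

lemma okI_ev (c : ℝ) (x : P7 × V × V) (h : okI c x) : ∀ᶠ y in 𝓝 x, okI c y := by
  obtain ⟨h1, h2, h3⟩ := h
  have a1 : ∀ᶠ y in 𝓝 x, okA c (prA y) := prA_cd.continuous.continuousAt.eventually
    (okA_ev c _ h1)
  have a2 : ∀ᶠ y in 𝓝 x, okB c (prB y) := prB_cd.continuous.continuousAt.eventually
    (okB_ev c _ h2)
  have a3 : ∀ᶠ y in 𝓝 x, ∀ e f e' f' : Bool,
      c ^ 2 / 8 < 1 - y.1 0 * Xi e f (prA y) ^ 2 - y.1 1 * Wi e' f' (prB y) ^ 2 := by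
    rw [Filter.eventually_all]
    intro e
    rw [Filter.eventually_all]
    intro f
    rw [Filter.eventually_all]
    intro e'
    rw [Filter.eventually_all]
    intro f'
    have k : ContinuousAt (fun y : P7 × V × V =>
        1 - y.1 0 * Xi e f (prA y) ^ 2 - y.1 1 * Wi e' f' (prB y) ^ 2) x :=
      ((contDiff_const.sub ((pi_cd 0).mul ((XA_cd e f).pow 2))).sub
        ((pi_cd 1).mul ((WB_cd e' f').pow 2))).continuous.continuousAt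
    exact k.eventually (lt_mem_nhds (h3 e f e' f'))
  filter_upwards [a1, a2, a3] with y b1 b2 b3
  exact ⟨b1, b2, b3⟩

end Pool.Agent.SDT.N1F

end -- N1F.P1b

section -- N1G.F1

/-!
N1G, block F, part 1: elementary properties of the generic forms.
-/

namespace Pool.Agent.SDT.N1G

open MeasureTheory Set Metric Pool.Agent.SDT.MP_6cbfb8_an Pool.Agent.SDT.MST Pool.Agent.SDT.N1
open scoped ENNReal Real ContDiff

theorem f1g_px_meas : Measurable px := by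
  unfold px
  fun_prop

theorem f1g_pz_meas : Measurable pz := by
  unfold pz
  fun_prop

theorem f1g_B (B R : ℝ) (φ w : YX → ℝ) (h : Adm B R φ w) : 0 ≤ B :=
  (abs_nonneg _).trans (h.bw 0)

theorem f1g_Wg_meas (B R : ℝ) (φ w : YX → ℝ) (h : Adm B R φ w) : Measurable (Wg w) :=
  (h.mw.comp f1g_px_meas).mul (h.mw.comp f1g_pz_meas)

theorem f1g_Fg_meas (B R : ℝ) (φ w : YX → ℝ) (h : Adm B R φ w) : Measurable (Fg φ) :=
  (h.mφ.comp f1g_px_meas).sub (h.mφ.comp f1g_pz_meas)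

theorem f1g_Wg_bdd (B R : ℝ) (φ w : YX → ℝ) (h : Adm B R φ w) (q : V × V) :
    |Wg w q| ≤ B * B := by
  unfold Wg
  rw [abs_mul]
  exact mul_le_mul (h.bw _) (h.bw _) (abs_nonneg _) (f1g_B B R φ w h)

theorem f1g_Wg_ne (w : YX → ℝ) (q : V × V) (hq : Wg w q ≠ 0) : w (px q) ≠ 0 ∧ w (pz q) ≠ 0 :=
  mul_ne_zero_iff.1 hq

theorem f1g_Wg_supp (B R : ℝ) (φ w : YX → ℝ) (h : Adm B R φ w) (q : V × V) (hq : Wg w q ≠ 0) :
    q ∈ closedBall (0 : V × V) (2 * R) := by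
  obtain ⟨h1, h2⟩ := f1g_Wg_ne w q hq
  have k1 := h.sw _ h1
  have k2 := h.sw _ h2
  unfold px at k1
  unfold pz at k2
  simp only [Prod.norm_def, Real.norm_eq_abs, max_le_iff] at k1 k2
  obtain ⟨⟨a1, a2⟩, a3, a4⟩ := k1
  obtain ⟨⟨b1, b2⟩, b3, b4⟩ := k2
  rw [abs_le] at a1 a2 a3 a4 b1 b2 b3 b4
  rw [mem_closedBall_zero_iff, Prod.norm_def, Prod.norm_def, Prod.norm_def, Prod.norm_def,
    Prod.norm_def]
  simp only [Real.norm_eq_abs]
  refine max_le (max_le ?_ (max_le ?_ ?_)) (max_le ?_ (max_le ?_ ?_)) <;> rw [abs_le] <;>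
    constructor <;> linarith [a1.1, a1.2, a2.1, a2.2, a3.1, a3.2, a4.1, a4.2, b1.1, b1.2,
      b2.1, b2.2, b3.1, b3.2, b4.1, b4.2]

theorem f1g_Wg_int (B R : ℝ) (φ w : YX → ℝ) (h : Adm B R φ w) :
    Integrable fun q : V × V => ((Wg w q : ℝ) : ℂ) := by
  refine hlp_int (S := closedBall (0 : V × V) (2 * R))
    (isCompact_closedBall _ _).measure_lt_top _
    (Complex.measurable_ofReal.comp (f1g_Wg_meas B R φ w h)) (B * B)
    (fun q => ?_) fun q hq => ?_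
  · rw [Complex.norm_real, Real.norm_eq_abs]
    exact f1g_Wg_bdd B R φ w h q
  · by_contra h1
    refine hq (f1g_Wg_supp B R φ w h q fun h2 => h1 ?_)
    rw [h2, Complex.ofReal_zero]

theorem FFg_int (B R : ℝ) (φ w : YX → ℝ) (h : Adm B R φ w) (T : ℝ) (hT : 0 < T) (M : V × V → ℂ)
    (hM : Measurable M) (D : ℝ) (hD : ∀ q, ‖M q‖ ≤ D) :
    Integrable fun q : V × V => M q * ((Wg w q : ℝ) : ℂ) * Kt T (Fg φ q) := by
  obtain ⟨C, hC, hK⟩ := Kt_le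
  have h1 : Integrable fun q : V × V => ((Wg w q : ℝ) : ℂ) := f1g_Wg_int B R φ w h
  have h2 : Integrable fun q : V × V => M q * ((Wg w q : ℝ) : ℂ) :=
    h1.bdd_mul (c := D) hM.aestronglyMeasurable (Filter.Eventually.of_forall hD)
  have h3 : Measurable fun q : V × V => Kt T (Fg φ q) :=
    (f1_Kt_meas T).comp (f1g_Fg_meas B R φ w h)
  refine h2.mul_bdd (c := C * T) h3.aestronglyMeasurable
    (Filter.Eventually.of_forall fun q => ?_)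
  refine (hK T _ hT).trans (div_le_self (by positivity) ?_)
  exact one_le_pow₀ (by nlinarith [abs_nonneg (Fg φ q)])

theorem FFg_sum (B R : ℝ) (φ w : YX → ℝ) (h : Adm B R φ w) (T : ℝ) (hT : 0 < T) {ι : Type*}
    (s : Finset ι) (M : ι → V × V → ℂ) (hM : ∀ i, Measurable (M i)) (D : ℝ)
    (hD : ∀ i q, ‖M i q‖ ≤ D) :
    FFg φ w T (fun q => ∑ i ∈ s, M i q) = ∑ i ∈ s, FFg φ w T (M i) := by
  unfold FFg
  rw [← integral_finsetSum s fun i _ => FFg_int B R φ w h T hT (M i) (hM i) D (hD i)]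
  refine integral_congr_ae (Filter.Eventually.of_forall fun q => ?_)
  simp only
  rw [Finset.sum_mul, Finset.sum_mul]

theorem FFg_abs (B : ℝ) (hB : 0 ≤ B) : ∃ C : ℝ, 0 ≤ C ∧ ∀ (R : ℝ) (φ w : YX → ℝ), Adm B R φ w →
    ∀ T : ℝ, 0 < T → ∀ (M : V × V → ℂ)
    (S : Set (V × V)) (f0 v0 : ℝ), Measurable M → (∀ q, ‖M q‖ ≤ 1) →
    (∀ q, M q ≠ 0 → Wg w q ≠ 0 → q ∈ S) → 0 ≤ v0 → volume S ≤ ENNReal.ofReal v0 → 0 ≤ f0 →
    (∀ q ∈ S, f0 ≤ |Fg φ q|) → ‖FFg φ w T M‖ ≤ C * T * v0 / (1 + T * f0) ^ 3 := by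
  obtain ⟨C2, hC2, hK⟩ := Kt_le
  refine ⟨B * B * C2, by positivity, fun R φ w hA T hT M S f0 v0 hM hM1 hS hv0 hvS hf0 hF => ?_⟩
  have hC1 : 0 ≤ B * B := by positivity
  set S' : Set (V × V) := {q | M q ≠ 0 ∧ Wg w q ≠ 0} with hS'
  have hS'm : MeasurableSet S' := by
    refine MeasurableSet.inter ?_ ?_
    · exact (hM (measurableSet_singleton (0 : ℂ))).compl
    · exact ((f1g_Wg_meas B R φ w hA) (measurableSet_singleton (0 : ℝ))).compl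
  have hS'S : S' ⊆ S := fun q hq => hS q hq.1 hq.2
  have hv : volume S' ≤ ENNReal.ofReal v0 := (measure_mono hS'S).trans hvS
  have h1 : FFg φ w T M = ∫ q in S', M q * ((Wg w q : ℝ) : ℂ) * Kt T (Fg φ q) := by
    unfold FFg
    symm
    refine setIntegral_eq_integral_of_forall_compl_eq_zero fun q hq => ?_
    by_cases hq1 : M q = 0
    · rw [hq1, zero_mul, zero_mul]
    · have hq2 : Wg w q = 0 := by
        by_contra h
        exact hq ⟨hq1, h⟩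
      rw [hq2]
      simp
  have h2 : ∀ q ∈ S', ‖M q * ((Wg w q : ℝ) : ℂ) * Kt T (Fg φ q)‖ ≤
      (B * B) * (C2 * T / (1 + T * f0) ^ 3) := by
    intro q hq
    rw [norm_mul, norm_mul, Complex.norm_real, Real.norm_eq_abs]
    have h3 : ‖M q‖ * |Wg w q| ≤ B * B := by
      calc ‖M q‖ * |Wg w q| ≤ 1 * (B * B) :=
            mul_le_mul (hM1 q) (f1g_Wg_bdd B R φ w hA q) (abs_nonneg _) zero_le_one
        _ = B * B := one_mul _
    have h4 : ‖Kt T (Fg φ q)‖ ≤ C2 * T / (1 + T * f0) ^ 3 := by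
      refine (hK T _ hT).trans ?_
      refine div_le_div_of_nonneg_left (by positivity) (by positivity) ?_
      refine pow_le_pow_left₀ (by positivity) ?_ 3
      have := mul_le_mul_of_nonneg_left (hF q (hS'S hq)) hT.le
      linarith
    exact mul_le_mul h3 h4 (norm_nonneg _) hC1
  rw [h1]
  have h5 := norm_setIntegral_le_of_norm_le_const (lt_of_le_of_lt hv ENNReal.ofReal_lt_top) h2
  refine h5.trans ?_
  have h6 : volume.real S' ≤ v0 := by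
    rw [Measure.real]
    exact ENNReal.toReal_le_of_le_ofReal hv0 hv
  calc B * B * (C2 * T / (1 + T * f0) ^ 3) * volume.real S' ≤
        B * B * (C2 * T / (1 + T * f0) ^ 3) * v0 := mul_le_mul_of_nonneg_left h6 (by positivity)
    _ = B * B * C2 * T * v0 / (1 + T * f0) ^ 3 := by ring

/-- Expansion of a cut-off. -/
theorem expandg (B R : ℝ) (φ w : YX → ℝ) (h : Adm B R φ w) (T : ℝ) (hT : 0 < T) (D : ℝ)
    (m : ℝ → ℂ) (hm : FT1 D m) (M : V × V → ℂ) (hM : Measurable M) (D' : ℝ)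
    (hD' : ∀ q, ‖M q‖ ≤ D') (L : V × V → ℝ) (hL : Measurable L) (K : ℝ)
    (hK : ∀ η : ℝ, ‖FFg φ w T (fun q => ex (η * L q) * M q)‖ ≤ K) :
    ‖FFg φ w T (fun q => m (L q) * M q)‖ ≤ D * K := by
  have h1 := expand_abs (volume : Measure (V × V)) D m hm
    (fun q : V × V => M q * ((Wg w q : ℝ) : ℂ) * Kt T (Fg φ q))
    (FFg_int B R φ w h T hT M hM D' hD') L hL K
    (fun η => by
      have h2 := hK η
      unfold FFg at h2
      refine le_trans (le_of_eq ?_) h2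
      congr 1
      refine integral_congr_ae (Filter.Eventually.of_forall fun q => ?_)
      simp only
      ring)
  refine le_trans (le_of_eq ?_) h1
  unfold FFg
  congr 1
  refine integral_congr_ae (Filter.Eventually.of_forall fun q => ?_)
  simp only
  ring

/-- Only the values on the support of the density matter. -/
theorem Thg_congr (φ w φ' w' : YX → ℝ) (T : ℝ) (M : YX → ℂ)
    (h : ∀ p, M p ≠ 0 → φ p = φ' p ∧ w p = w' p) : Thg φ w T M = Thg φ' w' T M := by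
  have h1 : ∀ y t, Hyg φ w M y t = Hyg φ' w' M y t := by
    intro y t
    unfold Hyg
    refine integral_congr_ae (Filter.Eventually.of_forall fun x => ?_)
    simp only
    by_cases hM : M (y, x) = 0
    · rw [hM]
      simp
    · obtain ⟨e1, e2⟩ := h _ hM
      rw [e1, e2]
  unfold Thg
  simp only [h1]

theorem FFg_congr (φ w φ' w' : YX → ℝ) (T : ℝ) (M : V × V → ℂ)
    (h : ∀ q, M q ≠ 0 → φ (px q) = φ' (px q) ∧ φ (pz q) = φ' (pz q) ∧ w (px q) = w' (px q) ∧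
      w (pz q) = w' (pz q)) : FFg φ w T M = FFg φ' w' T M := by
  unfold FFg
  refine integral_congr_ae (Filter.Eventually.of_forall fun q => ?_)
  simp only
  by_cases hM : M q = 0
  · rw [hM]
    simp
  · obtain ⟨e1, e2, e3, e4⟩ := h _ hM
    unfold Wg Fg
    rw [e1, e2, e3, e4]

/-- Exchange of the two coordinates. -/
theorem Thg_comm (φ w : YX → ℝ) (T : ℝ) (α β : ℝ × ℝ → ℂ) :
    Thg (fun p => φ (cs p)) (fun p => w (cs p)) T (pd β α) = Thg φ w T (pd α β) := by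
  have h1 : MeasurePreserving (MeasurableEquiv.prodComm : ℝ × ℝ ≃ᵐ ℝ × ℝ)
      (volume : Measure (ℝ × ℝ)) volume := Measure.measurePreserving_swap
  have e : ∀ x : ℝ × ℝ, (MeasurableEquiv.prodComm : ℝ × ℝ ≃ᵐ ℝ × ℝ) x = x.swap :=
    fun _ => rfl
  have h2 : ∀ (y : ℝ × ℝ) (t : ℝ), Hyg φ w (pd α β) y.swap t =
      Hyg (fun p => φ (cs p)) (fun p => w (cs p)) (pd β α) y t := by
    intro y t
    unfold Hyg
    rw [← h1.integral_comp MeasurableEquiv.prodComm.measurableEmbedding]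
    refine integral_congr_ae (Filter.Eventually.of_forall fun x => ?_)
    simp only [e, cs, pd, Prod.fst_swap, Prod.snd_swap]
    rw [mul_comm (α (y.2, x.2)) (β (y.1, x.1))]
  unfold Thg
  rw [← h1.lintegral_comp_emb MeasurableEquiv.prodComm.measurableEmbedding
    (fun y : ℝ × ℝ => ∫⁻ t : ℝ, ENNReal.ofReal (chi (t / T)) * ‖Hyg φ w (pd α β) y t‖ₑ ^ 2)]
  refine lintegral_congr fun y => ?_
  refine lintegral_congr fun t => ?_
  rw [e, h2]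

theorem FFg_comm (φ w : YX → ℝ) (T : ℝ) (M : V × V → ℂ) :
    FFg (fun p => φ (cs p)) (fun p => w (cs p)) T (fun q => M q.swap) = FFg φ w T M := by
  have h1 : MeasurePreserving (MeasurableEquiv.prodComm : V × V ≃ᵐ V × V)
      (volume : Measure (V × V)) volume := Measure.measurePreserving_swap
  have e : ∀ x : V × V, (MeasurableEquiv.prodComm : V × V ≃ᵐ V × V) x = x.swap :=
    fun _ => rfl
  unfold FFg
  rw [← h1.integral_comp MeasurableEquiv.prodComm.measurableEmbedding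
    (fun q : V × V => M q * ((Wg w q : ℝ) : ℂ) * Kt T (Fg φ q))]
  rfl

theorem f1g_Fg_swp (g : ℝ × ℝ → ℝ) (q : V × V) : Fg (dif g) (swp q) = Fg (dif g) q := by
  unfold Fg dif px pz swp
  simp only [Prod.mk_sub_mk]
  rw [sub_right_comm q.1.2.1 q.1.2.2 q.1.1, sub_right_comm q.2.2.1 q.2.2.2 q.2.1]
  ring

theorem f1g_Wg_swp (g : ℝ × ℝ → ℝ) (q : V × V) : Wg (dam g) (swp q) = Wg (dam g) q := by
  unfold Wg dam px pz swp
  simp only [Prod.mk_sub_mk]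
  rw [sub_right_comm q.1.2.1 q.1.2.2 q.1.1, sub_right_comm q.2.2.1 q.2.2.2 q.2.1]
  ring

/-- Exchange of the two sides of the rectangle, point phases. -/
theorem FFg_swp (q w : ℝ × ℝ → ℝ) (T : ℝ) (M : V × V → ℂ) :
    FFg (dif q) (dam w) T (fun u => M (swp u)) = FFg (dif q) (dam w) T M := by
  unfold FFg
  rw [← f1_sw_mp.integral_comp f1_sw.measurableEmbedding
    (fun u : V × V => M u * ((Wg (dam w) u : ℝ) : ℂ) * Kt T (Fg (dif q) u))]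
  refine integral_congr_ae (Filter.Eventually.of_forall fun u => ?_)
  simp only [f1_sw_eq]
  rw [f1g_Fg_swp, f1g_Wg_swp]

end Pool.Agent.SDT.N1G

end -- N1G.F1

section -- N1G.Cn3

/-!
N1G, case (N) for the quadratic family.
-/

namespace Pool.Agent.SDT.N1G.Qf.CN

open Set Metric Filter Topology Pool.Agent.SDT.N1 Pool.Agent.SDT.N1G
open scoped ContDiff

/-- half of the numerator of the phase for `ρ = 0` -/
def uu (p : PP) (s : YX) : ℝ :=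
  p.2.2.1.1 * s.1.1 + p.2.2.1.2 * s.1.2 - p.1.1 * s.2.1 * e1 p s.1.1 - p.1.2 * s.2.2 * e2 p s.1.2

/-- half of the second derivative of `Q` -/
def G2 (p : PP) (b : ℝ) : ℝ := p.2.2.1.2 - p.2.1.1 * p.1.2 * b

theorem psi0 (p : PP) (hp : p.2.2.2.2 = 0) (s : YX) : psi (p, s) = uu p s / √(Qqq p s.2) := by
  unfold psi nu xm m1 m2 uu
  simp only [hp, zero_mul, sub_zero]
  rw [show √(Qqq p s.2) + √(Qqq p (s.2.1, s.2.2)) = 2 * √(Qqq p s.2) by ring,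
    show 2 * (p.2.2.1.1 * s.1.1 + p.2.2.1.2 * s.1.2) - p.1.1 * (s.2.1 + s.2.1) * e1 p s.1.1 -
      p.1.2 * (s.2.2 + s.2.2) * e2 p s.1.2 = 2 * (p.2.2.1.1 * s.1.1 + p.2.2.1.2 * s.1.2 -
      p.1.1 * s.2.1 * e1 p s.1.1 - p.1.2 * s.2.2 * e2 p s.1.2) by ring]
  rw [mul_div_mul_left _ _ two_ne_zero]

theorem hd_Qb (p : PP) (a b : ℝ) :
    HasDerivAt (fun b => Qqq p (a, b)) (2 * G2 p b) b := by
  unfold Qqq G2
  have h := (((hasDerivAt_id b).const_mul (2 * p.2.2.1.2)).const_add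
    (p.2.1.2 + 2 * p.2.2.1.1 * a)).sub (((((hasDerivAt_id b).fun_pow 2).const_mul p.1.2).const_add
    (p.1.1 * a ^ 2)).const_mul p.2.1.1)
  refine HasDerivAt.congr_deriv h ?_
  simp
  ring

theorem hd_sQb (p : PP) (a b : ℝ) (h : 0 < Qqq p (a, b)) :
    HasDerivAt (fun b => √(Qqq p (a, b))) (G2 p b / √(Qqq p (a, b))) b := by
  have h1 := (hd_Qb p a b).sqrt h.ne'
  refine HasDerivAt.congr_deriv h1 ?_
  rw [mul_div_mul_left _ _ two_ne_zero]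

/-- `∂_a ψ` for `ρ = 0`. -/
theorem psia0 (W : PP × YX → ℝ) (p : PP) (hp : p.2.2.2.2 = 0) (s : YX) (hQ : 0 < Qqq p s.2) :
    (fam W).ψa p s = -((p.1.1 * e1 p s.1.1 * Qqq p s.2 + G1 p s.2.1 * uu p s) /
      (Qqq p s.2 * √(Qqq p s.2))) := by
  obtain ⟨y, a, b⟩ := s
  simp only at hQ ⊢
  have hq : 0 < √(Qqq p (a, b)) := Real.sqrt_pos.2 hQ
  have h1 : HasDerivAt (fun a => uu p (y, (a, b))) (-(p.1.1 * e1 p y.1)) a := by
    unfold uu
    have h := ((((hasDerivAt_id a).const_mul p.1.1).mul_const (e1 p y.1)).const_sub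
      (p.2.2.1.1 * y.1 + p.2.2.1.2 * y.2)).sub_const (p.1.2 * b * e2 p y.2)
    refine HasDerivAt.congr_deriv h ?_
    ring
  have h2 := h1.div (hd_sQ p a b hQ) hq.ne'
  have h3 : (fun a => (fam W).ψ (p, (y, (a, b)))) =
      fun a => uu p (y, (a, b)) / √(Qqq p (a, b)) := by
    funext a
    exact psi0 p hp _
  have h4 : (fam W).ψa p (y, (a, b)) = (-(p.1.1 * e1 p y.1) * √(Qqq p (a, b)) -
      uu p (y, (a, b)) * (G1 p a / √(Qqq p (a, b)))) / √(Qqq p (a, b)) ^ 2 := by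
    unfold Fam.ψa
    simp only
    rw [h3]
    exact h2.deriv
  rw [h4]
  have h5 : √(Qqq p (a, b)) ^ 2 = Qqq p (a, b) := Real.sq_sqrt hQ.le
  obtain ⟨q, hqd⟩ : ∃ q, q = √(Qqq p (a, b)) := ⟨_, rfl⟩
  rw [← hqd] at h5 hq ⊢
  rw [← h5]
  field_simp
  ring

/-- `∂_b ψ` for `ρ = 0`. -/
theorem psib0 (W : PP × YX → ℝ) (p : PP) (hp : p.2.2.2.2 = 0) (s : YX) (hQ : 0 < Qqq p s.2) :
    (fam W).ψb p s = -((p.1.2 * e2 p s.1.2 * Qqq p s.2 + G2 p s.2.2 * uu p s) /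
      (Qqq p s.2 * √(Qqq p s.2))) := by
  obtain ⟨y, a, b⟩ := s
  simp only at hQ ⊢
  have hq : 0 < √(Qqq p (a, b)) := Real.sqrt_pos.2 hQ
  have h1 : HasDerivAt (fun b => uu p (y, (a, b))) (-(p.1.2 * e2 p y.2)) b := by
    unfold uu
    have h := (((hasDerivAt_id b).const_mul p.1.2).mul_const (e2 p y.2)).const_sub
      (p.2.2.1.1 * y.1 + p.2.2.1.2 * y.2 - p.1.1 * a * e1 p y.1)
    refine HasDerivAt.congr_deriv h ?_
    ring
  have h2 := h1.div (hd_sQb p a b hQ) hq.ne'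
  have h3 : (fun b => (fam W).ψ (p, (y, (a, b)))) =
      fun b => uu p (y, (a, b)) / √(Qqq p (a, b)) := by
    funext b
    exact psi0 p hp _
  have h4 : (fam W).ψb p (y, (a, b)) = (-(p.1.2 * e2 p y.2) * √(Qqq p (a, b)) -
      uu p (y, (a, b)) * (G2 p b / √(Qqq p (a, b)))) / √(Qqq p (a, b)) ^ 2 := by
    unfold Fam.ψb
    simp only
    rw [h3]
    exact h2.deriv
  rw [h4]
  have h5 : √(Qqq p (a, b)) ^ 2 = Qqq p (a, b) := Real.sq_sqrt hQ.le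
  obtain ⟨q, hqd⟩ : ∃ q, q = √(Qqq p (a, b)) := ⟨_, rfl⟩
  rw [← hqd] at h5 hq ⊢
  rw [← h5]
  field_simp
  ring

/-- The polynomial factor of the limit phase. -/
def jN (p : PP) (u v : V) : ℝ :=
  u.2.2 * (p.1.1 * e1 p u.1 * Qqq p (u.2.1, v.2.1) +
    G1 p u.2.1 * uu p ((u.1, v.1), (u.2.1, v.2.1))) +
  v.2.2 * (p.1.2 * e2 p v.1 * Qqq p (u.2.1, v.2.1) +
    G2 p v.2.1 * uu p ((u.1, v.1), (u.2.1, v.2.1)))

/-- The other factor of the limit phase. -/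
noncomputable def kN (p : PP) (u v : V) : ℝ :=
  -(Qqq p (u.2.1, v.2.1) * √(Qqq p (u.2.1, v.2.1)))⁻¹

theorem H_eq (W : PP × YX → ℝ) (p : PP) (hp : p.2.2.2.2 = 0) (u v : V)
    (hQ : 0 < Qqq p (u.2.1, v.2.1)) : (fam W).H p u v = kN p u v * jN p u v := by
  unfold Fam.H
  rw [psia0 W p hp _ hQ, psib0 W p hp _ hQ]
  unfold kN jN
  ring

theorem cont_Q (p : PP) : ContDiff ℝ ∞ fun x : ℝ × ℝ => Qqq p x := by
  unfold Qqq
  fun_prop

theorem smooth_jN (p : PP) : ContDiff ℝ ∞ fun z : V × V => jN p z.1 z.2 := by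
  unfold jN G1 G2 uu e1 e2 Qqq
  fun_prop

theorem smooth_kN (p : PP) (u v : V) (hQ : 0 < Qqq p (u.2.1, v.2.1)) :
    ContDiffAt ℝ ∞ (fun z : V × V => kN p z.1 z.2) (u, v) := by
  unfold kN
  have h1 : ContDiffAt ℝ ∞ (fun z : V × V => Qqq p (z.1.2.1, z.2.2.1)) (u, v) := by
    unfold Qqq
    fun_prop
  have h2 : ContDiffAt ℝ ∞ (fun z : V × V => √(Qqq p (z.1.2.1, z.2.2.1))) (u, v) :=
    h1.sqrt hQ.ne'
  refine ((h1.mul h2).inv ?_).neg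
  exact (mul_pos hQ (Real.sqrt_pos.2 hQ)).ne'

/-- The derivative of `jN` on the first side, at a point with `a = 0`. -/
theorem jN_A (p : PP) (Y1 ζ1 u1 u2 u3 : ℝ) (v : V) :
    fderiv ℝ (fun a => jN p a v) (Y1, 0, ζ1) (u1, u2, u3) =
      u3 * (p.1.1 * e1 p Y1 * Qqq p (0, v.2.1) + G1 p 0 * uu p ((Y1, v.1), (0, v.2.1))) +
      ζ1 * (p.1.1 * p.2.1.1 * u1 * Qqq p (0, v.2.1) + p.1.1 * e1 p Y1 * (2 * G1 p 0 * u2) -
        p.2.1.1 * p.1.1 * u2 * uu p ((Y1, v.1), (0, v.2.1)) +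
        G1 p 0 * (p.2.2.1.1 * u1 - p.1.1 * e1 p Y1 * u2)) +
      v.2.2 * (p.1.2 * e2 p v.1 * (2 * G1 p 0 * u2) +
        G2 p v.2.1 * (p.2.2.1.1 * u1 - p.1.1 * e1 p Y1 * u2)) := by
  have h0 : DifferentiableAt ℝ (fun a => jN p a v) (Y1, 0, ζ1) := by
    unfold jN G1 G2 uu e1 e2 Qqq
    fun_prop
  have h1 : HasDerivAt (fun t : ℝ => ((Y1, 0, ζ1) : V) + t • ((u1, u2, u3) : V))
      (u1, u2, u3) 0 := by
    simpa using ((hasDerivAt_id (0:ℝ)).smul_const ((u1, u2, u3) : V)).const_add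
      ((Y1, 0, ζ1) : V)
  have h2 : HasDerivAt (fun t : ℝ => jN p (((Y1, 0, ζ1) : V) + t • ((u1, u2, u3) : V)) v)
      (fderiv ℝ (fun a => jN p a v) (Y1, 0, ζ1) (u1, u2, u3)) 0 := by
    have h3 : ((Y1, 0, ζ1) : V) + (0 : ℝ) • ((u1, u2, u3) : V) = (Y1, 0, ζ1) := by simp
    have h4 := h0.hasFDerivAt
    rw [← h3] at h4
    have h5 := HasFDerivAt.comp_hasDerivAt (f := fun t : ℝ => ((Y1, 0, ζ1) : V) +
      t • ((u1, u2, u3) : V)) 0 h4 h1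
    rw [h3] at h5
    exact h5
  have kζ : HasDerivAt (fun t : ℝ => ζ1 + t * u3) u3 0 := by
    simpa using ((hasDerivAt_id (0:ℝ)).mul_const u3).const_add ζ1
  have kη : HasDerivAt (fun t : ℝ => e1 p (Y1 + t * u1)) (p.2.1.1 * u1) 0 := by
    unfold e1
    simpa using ((((hasDerivAt_id (0:ℝ)).mul_const u1).const_add Y1).const_mul p.2.1.1).const_add
      (-(p.2.2.2.1 * p.2.2.1.2))
  have kx : HasDerivAt (fun t : ℝ => t * u2) u2 0 := by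
    simpa using (hasDerivAt_id (0:ℝ)).mul_const u2
  have kQ : HasDerivAt (fun t : ℝ => Qqq p (t * u2, v.2.1)) (2 * G1 p 0 * u2) 0 := by
    have h6 := hd_Qa p (0 * u2) v.2.1
    have h7 := HasDerivAt.comp (h := fun t : ℝ => t * u2) (0:ℝ) h6 kx
    rw [zero_mul] at h7
    exact h7
  have kG : HasDerivAt (fun t : ℝ => G1 p (t * u2)) (-(p.2.1.1 * p.1.1 * u2)) 0 := by
    unfold G1
    exact (kx.const_mul (p.2.1.1 * p.1.1)).const_sub p.2.2.1.1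
  have kU : HasDerivAt (fun t : ℝ => uu p ((Y1 + t * u1, v.1), (t * u2, v.2.1)))
      (p.2.2.1.1 * u1 - p.1.1 * e1 p Y1 * u2) 0 := by
    unfold uu
    have h6 : HasDerivAt (fun t : ℝ => p.2.2.1.1 * (Y1 + t * u1)) (p.2.2.1.1 * u1) 0 := by
      simpa using (((hasDerivAt_id (0:ℝ)).mul_const u1).const_add Y1).const_mul p.2.2.1.1
    have h7 := (((h6.add_const (p.2.2.1.2 * v.1)).sub ((kx.const_mul p.1.1).mul kη)).sub_const
      (p.1.2 * v.2.1 * e2 p v.1))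
    refine HasDerivAt.congr_deriv (f := fun t : ℝ => p.2.2.1.1 * (Y1 + t * u1) +
      p.2.2.1.2 * v.1 - p.1.1 * (t * u2) * e1 p (Y1 + t * u1) - p.1.2 * v.2.1 * e2 p v.1) h7 ?_
    simp
    ring
  have k1 := (kζ.mul (((kη.const_mul p.1.1).mul kQ).add (kG.mul kU))).add
    (((kQ.const_mul (p.1.2 * e2 p v.1)).add (kU.const_mul (G2 p v.2.1))).const_mul v.2.2)
  have k2 : (fun t : ℝ => jN p (((Y1, 0, ζ1) : V) + t • ((u1, u2, u3) : V)) v) =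
      fun t => (ζ1 + t * u3) * (p.1.1 * e1 p (Y1 + t * u1) * Qqq p (t * u2, v.2.1) +
        G1 p (t * u2) * uu p ((Y1 + t * u1, v.1), (t * u2, v.2.1))) +
        v.2.2 * (p.1.2 * e2 p v.1 * Qqq p (t * u2, v.2.1) +
          G2 p v.2.1 * uu p ((Y1 + t * u1, v.1), (t * u2, v.2.1))) := by
    funext t
    unfold jN
    simp
  rw [k2] at h2
  have k3 := h2.unique k1
  rw [k3]
  simp only [Pi.add_apply, Pi.mul_apply, zero_mul, add_zero]
  ring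

/-- line derivative -/
theorem line_fd {f : V → ℝ} {x e : V} (h0 : DifferentiableAt ℝ f x) :
    HasDerivAt (fun t : ℝ => f (x + t • e)) (fderiv ℝ f x e) 0 := by
  have h1 : HasDerivAt (fun t : ℝ => x + t • e) e 0 := by
    simpa using ((hasDerivAt_id (0:ℝ)).smul_const e).const_add x
  have h3 : x + (0 : ℝ) • e = x := by simp
  have h4 := h0.hasFDerivAt
  rw [← h3] at h4
  have h5 := HasFDerivAt.comp_hasDerivAt (f := fun t : ℝ => x + t • e) 0 h4 h1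
  rw [h3] at h5
  exact h5

/-- The derivative of `jN` on the second side, at a point with `a = b = 0`. -/
theorem jN_B (p : PP) (Y1 ζ1 Y2 ζ2 k1 k2 k3 : ℝ) :
    fderiv ℝ (fun v => jN p (Y1, 0, ζ1) v) (Y2, 0, ζ2) (k1, k2, k3) =
      k3 * (p.1.2 * e2 p Y2 * Qqq p (0, 0) + G2 p 0 * uu p ((Y1, Y2), (0, 0))) +
      ζ2 * (p.1.2 * p.2.1.1 * k1 * Qqq p (0, 0) + p.1.2 * e2 p Y2 * (2 * G2 p 0 * k2) -
        p.2.1.1 * p.1.2 * k2 * uu p ((Y1, Y2), (0, 0)) +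
        G2 p 0 * (p.2.2.1.2 * k1 - p.1.2 * e2 p Y2 * k2)) +
      ζ1 * (p.1.1 * e1 p Y1 * (2 * G2 p 0 * k2) +
        G1 p 0 * (p.2.2.1.2 * k1 - p.1.2 * e2 p Y2 * k2)) := by
  have h0 : DifferentiableAt ℝ (fun v => jN p (Y1, 0, ζ1) v) (Y2, 0, ζ2) := by
    unfold jN G1 G2 uu e1 e2 Qqq
    fun_prop
  have h2 := line_fd (e := (k1, k2, k3)) h0
  have kζ : HasDerivAt (fun t : ℝ => ζ2 + t * k3) k3 0 := by
    simpa using ((hasDerivAt_id (0:ℝ)).mul_const k3).const_add ζ2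
  have kη : HasDerivAt (fun t : ℝ => e2 p (Y2 + t * k1)) (p.2.1.1 * k1) 0 := by
    unfold e2
    simpa using ((((hasDerivAt_id (0:ℝ)).mul_const k1).const_add Y2).const_mul p.2.1.1).const_add
      (p.2.2.2.1 * p.2.2.1.1)
  have kx : HasDerivAt (fun t : ℝ => t * k2) k2 0 := by
    simpa using (hasDerivAt_id (0:ℝ)).mul_const k2
  have kQ : HasDerivAt (fun t : ℝ => Qqq p (0, t * k2)) (2 * G2 p 0 * k2) 0 := by
    have h6 := hd_Qb p 0 (0 * k2)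
    have h7 := HasDerivAt.comp (h := fun t : ℝ => t * k2) (0:ℝ) h6 kx
    rw [zero_mul] at h7
    exact h7
  have kG : HasDerivAt (fun t : ℝ => G2 p (t * k2)) (-(p.2.1.1 * p.1.2 * k2)) 0 := by
    unfold G2
    exact (kx.const_mul (p.2.1.1 * p.1.2)).const_sub p.2.2.1.2
  have kU : HasDerivAt (fun t : ℝ => uu p ((Y1, Y2 + t * k1), (0, t * k2)))
      (p.2.2.1.2 * k1 - p.1.2 * e2 p Y2 * k2) 0 := by
    unfold uu
    have h6 : HasDerivAt (fun t : ℝ => p.2.2.1.2 * (Y2 + t * k1)) (p.2.2.1.2 * k1) 0 := by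
      simpa using (((hasDerivAt_id (0:ℝ)).mul_const k1).const_add Y2).const_mul p.2.2.1.2
    have h7 := ((h6.const_add (p.2.2.1.1 * Y1)).sub_const (p.1.1 * 0 * e1 p Y1)).sub
      ((kx.const_mul p.1.2).mul kη)
    refine HasDerivAt.congr_deriv (f := fun t : ℝ => p.2.2.1.1 * Y1 +
      p.2.2.1.2 * (Y2 + t * k1) - p.1.1 * 0 * e1 p Y1 - p.1.2 * (t * k2) * e2 p (Y2 + t * k1))
      h7 ?_
    simp
    ring
  have k1' := (((kQ.const_mul (p.1.1 * e1 p Y1)).add (kU.const_mul (G1 p 0))).const_mul ζ1).add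
    (kζ.mul (((kη.const_mul p.1.2).mul kQ).add (kG.mul kU)))
  have k2' : (fun t : ℝ => jN p (Y1, 0, ζ1) (((Y2, 0, ζ2) : V) + t • ((k1, k2, k3) : V))) =
      fun t => ζ1 * (p.1.1 * e1 p Y1 * Qqq p (0, t * k2) +
        G1 p 0 * uu p ((Y1, Y2 + t * k1), (0, t * k2))) +
        (ζ2 + t * k3) * (p.1.2 * e2 p (Y2 + t * k1) * Qqq p (0, t * k2) +
          G2 p (t * k2) * uu p ((Y1, Y2 + t * k1), (0, t * k2))) := by
    funext t
    unfold jN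
    simp
  rw [k2'] at h2
  have k3' := h2.unique k1'
  rw [k3']
  simp only [Pi.add_apply, Pi.mul_apply, zero_mul, add_zero]
  ring

/-- The mixed derivative of `jN`, at a point with `a = b = 0`. -/
theorem jN_AB (p : PP) (Y1 ζ1 u1 u2 u3 Y2 ζ2 k1 k2 k3 : ℝ) :
    fderiv ℝ (fun v => fderiv ℝ (fun a => jN p a v) (Y1, 0, ζ1) (u1, u2, u3)) (Y2, 0, ζ2)
      (k1, k2, k3) =
      u3 * (p.1.1 * e1 p Y1 * (2 * G2 p 0 * k2) +
        G1 p 0 * (p.2.2.1.2 * k1 - p.1.2 * e2 p Y2 * k2)) +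
      ζ1 * (p.1.1 * p.2.1.1 * u1 * (2 * G2 p 0 * k2) -
        p.2.1.1 * p.1.1 * u2 * (p.2.2.1.2 * k1 - p.1.2 * e2 p Y2 * k2)) +
      k3 * (p.1.2 * e2 p Y2 * (2 * G1 p 0 * u2) +
        G2 p 0 * (p.2.2.1.1 * u1 - p.1.1 * e1 p Y1 * u2)) +
      ζ2 * (p.1.2 * p.2.1.1 * k1 * (2 * G1 p 0 * u2) -
        p.2.1.1 * p.1.2 * k2 * (p.2.2.1.1 * u1 - p.1.1 * e1 p Y1 * u2)) := by
  have hf : (fun v => fderiv ℝ (fun a => jN p a v) (Y1, 0, ζ1) (u1, u2, u3)) = fun v : V =>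
      u3 * (p.1.1 * e1 p Y1 * Qqq p (0, v.2.1) + G1 p 0 * uu p ((Y1, v.1), (0, v.2.1))) +
      ζ1 * (p.1.1 * p.2.1.1 * u1 * Qqq p (0, v.2.1) + p.1.1 * e1 p Y1 * (2 * G1 p 0 * u2) -
        p.2.1.1 * p.1.1 * u2 * uu p ((Y1, v.1), (0, v.2.1)) +
        G1 p 0 * (p.2.2.1.1 * u1 - p.1.1 * e1 p Y1 * u2)) +
      v.2.2 * (p.1.2 * e2 p v.1 * (2 * G1 p 0 * u2) +
        G2 p v.2.1 * (p.2.2.1.1 * u1 - p.1.1 * e1 p Y1 * u2)) := by
    funext v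
    exact jN_A p Y1 ζ1 u1 u2 u3 v
  rw [hf]
  have h0 : DifferentiableAt ℝ (fun v : V =>
      u3 * (p.1.1 * e1 p Y1 * Qqq p (0, v.2.1) + G1 p 0 * uu p ((Y1, v.1), (0, v.2.1))) +
      ζ1 * (p.1.1 * p.2.1.1 * u1 * Qqq p (0, v.2.1) + p.1.1 * e1 p Y1 * (2 * G1 p 0 * u2) -
        p.2.1.1 * p.1.1 * u2 * uu p ((Y1, v.1), (0, v.2.1)) +
        G1 p 0 * (p.2.2.1.1 * u1 - p.1.1 * e1 p Y1 * u2)) +
      v.2.2 * (p.1.2 * e2 p v.1 * (2 * G1 p 0 * u2) +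
        G2 p v.2.1 * (p.2.2.1.1 * u1 - p.1.1 * e1 p Y1 * u2))) (Y2, 0, ζ2) := by
    unfold G1 G2 uu e1 e2 Qqq
    fun_prop
  have h2 := line_fd (e := (k1, k2, k3)) h0
  have kζ : HasDerivAt (fun t : ℝ => ζ2 + t * k3) k3 0 := by
    simpa using ((hasDerivAt_id (0:ℝ)).mul_const k3).const_add ζ2
  have kη : HasDerivAt (fun t : ℝ => e2 p (Y2 + t * k1)) (p.2.1.1 * k1) 0 := by
    unfold e2
    simpa using ((((hasDerivAt_id (0:ℝ)).mul_const k1).const_add Y2).const_mul p.2.1.1).const_add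
      (p.2.2.2.1 * p.2.2.1.1)
  have kx : HasDerivAt (fun t : ℝ => t * k2) k2 0 := by
    simpa using (hasDerivAt_id (0:ℝ)).mul_const k2
  have kQ : HasDerivAt (fun t : ℝ => Qqq p (0, t * k2)) (2 * G2 p 0 * k2) 0 := by
    have h6 := hd_Qb p 0 (0 * k2)
    have h7 := HasDerivAt.comp (h := fun t : ℝ => t * k2) (0:ℝ) h6 kx
    rw [zero_mul] at h7
    exact h7
  have kG : HasDerivAt (fun t : ℝ => G2 p (t * k2)) (-(p.2.1.1 * p.1.2 * k2)) 0 := by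
    unfold G2
    exact (kx.const_mul (p.2.1.1 * p.1.2)).const_sub p.2.2.1.2
  have kU : HasDerivAt (fun t : ℝ => uu p ((Y1, Y2 + t * k1), (0, t * k2)))
      (p.2.2.1.2 * k1 - p.1.2 * e2 p Y2 * k2) 0 := by
    unfold uu
    have h6 : HasDerivAt (fun t : ℝ => p.2.2.1.2 * (Y2 + t * k1)) (p.2.2.1.2 * k1) 0 := by
      simpa using (((hasDerivAt_id (0:ℝ)).mul_const k1).const_add Y2).const_mul p.2.2.1.2
    have h7 := ((h6.const_add (p.2.2.1.1 * Y1)).sub_const (p.1.1 * 0 * e1 p Y1)).sub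
      ((kx.const_mul p.1.2).mul kη)
    refine HasDerivAt.congr_deriv (f := fun t : ℝ => p.2.2.1.1 * Y1 +
      p.2.2.1.2 * (Y2 + t * k1) - p.1.1 * 0 * e1 p Y1 - p.1.2 * (t * k2) * e2 p (Y2 + t * k1))
      h7 ?_
    simp
    ring
  have c1 := ((kQ.const_mul (p.1.1 * e1 p Y1)).add (kU.const_mul (G1 p 0))).const_mul u3
  have c2 := ((((kQ.const_mul (p.1.1 * p.2.1.1 * u1)).add_const
    (p.1.1 * e1 p Y1 * (2 * G1 p 0 * u2))).sub (kU.const_mul (p.2.1.1 * p.1.1 * u2))).add_const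
    (G1 p 0 * (p.2.2.1.1 * u1 - p.1.1 * e1 p Y1 * u2))).const_mul ζ1
  have c3 := kζ.mul ((((kη.const_mul p.1.2).mul_const (2 * G1 p 0 * u2))).add
    (kG.mul_const (p.2.2.1.1 * u1 - p.1.1 * e1 p Y1 * u2)))
  have k1' := (c1.add c2).add c3
  have k2' : (fun t : ℝ => (fun v : V =>
      u3 * (p.1.1 * e1 p Y1 * Qqq p (0, v.2.1) + G1 p 0 * uu p ((Y1, v.1), (0, v.2.1))) +
      ζ1 * (p.1.1 * p.2.1.1 * u1 * Qqq p (0, v.2.1) + p.1.1 * e1 p Y1 * (2 * G1 p 0 * u2) -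
        p.2.1.1 * p.1.1 * u2 * uu p ((Y1, v.1), (0, v.2.1)) +
        G1 p 0 * (p.2.2.1.1 * u1 - p.1.1 * e1 p Y1 * u2)) +
      v.2.2 * (p.1.2 * e2 p v.1 * (2 * G1 p 0 * u2) +
        G2 p v.2.1 * (p.2.2.1.1 * u1 - p.1.1 * e1 p Y1 * u2)))
        (((Y2, 0, ζ2) : V) + t • ((k1, k2, k3) : V))) =
      fun t => u3 * (p.1.1 * e1 p Y1 * Qqq p (0, t * k2) +
        G1 p 0 * uu p ((Y1, Y2 + t * k1), (0, t * k2))) +
      ζ1 * (p.1.1 * p.2.1.1 * u1 * Qqq p (0, t * k2) + p.1.1 * e1 p Y1 * (2 * G1 p 0 * u2) -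
        p.2.1.1 * p.1.1 * u2 * uu p ((Y1, Y2 + t * k1), (0, t * k2)) +
        G1 p 0 * (p.2.2.1.1 * u1 - p.1.1 * e1 p Y1 * u2)) +
      (ζ2 + t * k3) * (p.1.2 * e2 p (Y2 + t * k1) * (2 * G1 p 0 * u2) +
        G2 p (t * k2) * (p.2.2.1.1 * u1 - p.1.1 * e1 p Y1 * u2)) := by
    funext t
    simp
  rw [k2'] at h2
  have k3' := h2.unique k1'
  rw [k3']
  simp only [Pi.add_apply, Pi.mul_apply, zero_mul, add_zero]
  ring

end Pool.Agent.SDT.N1G.Qf.CN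

end -- N1G.Cn3

section -- N1G.Cn4

/-!
N1G, case (N) for the quadratic family, conclusion.
-/

namespace Pool.Agent.SDT.N1G.Qf.CN

open Set Metric Filter Topology Pool.Agent.SDT.N1 Pool.Agent.SDT.N1G
open scoped ContDiff

theorem two_le_infty : (2 : WithTop ℕ∞) ≤ ∞ := by
  exact ENat.LEInfty.out

/-- Case (N) holds. -/
theorem caseN_fam (W : PP × YX → ℝ) (B1 B2 τ P g1 g2 s : ℝ) (y0 : ℝ × ℝ) (hP : 0 < P)
    (hg1 : g1 ≠ 0) (hg2 : g2 ≠ 0) (h1 : -(s * g2) + τ * y0.1 ≠ 0) (h2 : s * g1 + τ * y0.2 ≠ 0)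
    (hΔ : B2 * g1 ^ 2 + B1 * g2 ^ 2 + τ * B1 * B2 * P ≠ 0) (hD : g1 ^ 2 + τ * B1 * P ≠ 0)
    (hn : B1 * (-(s * g2) + τ * y0.1) * P + g1 * (g1 * y0.1 + g2 * y0.2) ≠ 0) :
    CaseN (fam W) ((B1, B2), (τ, P), (g1, g2), (s, 0)) (0, 0) y0 := by
  obtain ⟨Y1, Y2⟩ := y0
  simp only at h1 h2 hn
  refine ⟨?_, ?_⟩
  · simp only [Fam.N, nn, Fam.om, Fam.sg, fam, oo, ss, m1, m2, e1, e2, G1, D1]
    simp only [zero_mul, mul_zero, sub_zero, add_zero, neg_zero, zero_div, ne_eq,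
      OfNat.ofNat_ne_zero, not_false_eq_true, zero_pow]
    intro h0
    apply hn
    rw [sub_eq_zero, eq_div_iff hD] at h0
    linarith
  · intro ζ1 ζ2 hζ1 hζ2 hJ u d hA hB
    obtain ⟨u1, u2, u3⟩ := u
    obtain ⟨p, hp⟩ : ∃ p : PP, p = ((B1, B2), (τ, P), (g1, g2), (s, 0)) := ⟨_, rfl⟩
    rw [← hp] at hJ hA hB
    have hp0 : p.2.2.2.2 = 0 := by rw [hp]
    have hQ0 : Qqq p (0, 0) = P := by
      rw [hp]
      unfold Qqq
      simp
    have hQ : 0 < Qqq p (0, 0) := by rw [hQ0]; exact hP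
    simp only at hA hB
    have hev : ∀ᶠ z in 𝓝 (((Y1, 0, ζ1), (Y2, 0, ζ2)) : V × V),
        (fam W).H p z.1 z.2 = kN p z.1 z.2 * jN p z.1 z.2 := by
      have c1 : Continuous fun z : V × V => Qqq p (z.1.2.1, z.2.2.1) := by
        have := (cont_Q p).continuous
        exact this.comp (by fun_prop)
      have c2 : ∀ᶠ z in 𝓝 (((Y1, 0, ζ1), (Y2, 0, ζ2)) : V × V), 0 < Qqq p (z.1.2.1, z.2.2.1) :=
        c1.continuousAt.eventually (lt_mem_nhds hQ)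
      filter_upwards [c2] with z hz
      exact H_eq W p hp0 z.1 z.2 hz
    have hK0 : kN p (Y1, 0, ζ1) (Y2, 0, ζ2) ≠ 0 := by
      unfold kN
      simp only
      exact neg_ne_zero.2 (inv_ne_zero (mul_pos hQ (Real.sqrt_pos.2 hQ)).ne')
    have hJ0 : jN p (Y1, 0, ζ1) (Y2, 0, ζ2) = 0 := by
      have e1 := H_eq W p hp0 (Y1, 0, ζ1) (Y2, 0, ζ2) hQ
      have e2 : (fam W).H p (Y1, 0, ζ1) (Y2, 0, ζ2) = 0 := hJ
      rw [e2] at e1
      exact (mul_eq_zero.1 e1.symm).resolve_left hK0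
    obtain ⟨hA', hB'⟩ := cn_mul (H := (fam W).H p) (K := kN p) (J := jN p)
      ((smooth_kN p _ _ hQ).of_le two_le_infty) (((smooth_jN p).contDiffAt).of_le two_le_infty)
      hev hK0 hJ0 (u1, u2, u3) d hA hB
    obtain ⟨d', hd'⟩ : ∃ d', d' = d + fderiv ℝ (fun a => kN p a (Y2, 0, ζ2)) (Y1, 0, ζ1)
      (u1, u2, u3) / kN p (Y1, 0, ζ1) (Y2, 0, ζ2) := ⟨_, rfl⟩
    rw [← hd'] at hB'
    have E1 := hB' (1, 0, 0)
    have E2 := hB' (0, 1, 0)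
    have E3 := hB' (0, 0, 1)
    rw [jN_AB, jN_B] at E1 E2 E3
    rw [jN_A] at hA'
    have f1 : Qf.e1 p Y1 = -(s * g2) + τ * Y1 := by
      rw [hp]
      rfl
    have f2 : Qf.e2 p Y2 = s * g1 + τ * Y2 := by
      rw [hp]
      rfl
    have f3 : G1 p 0 = g1 := by
      rw [hp]
      simp [G1]
    have f4 : G2 p 0 = g2 := by
      rw [hp]
      simp [G2]
    have f5 : uu p ((Y1, Y2), (0, 0)) = g1 * Y1 + g2 * Y2 := by
      rw [hp]
      simp [uu]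
    have f6 : p.1.1 = B1 := by rw [hp]
    have f7 : p.1.2 = B2 := by rw [hp]
    have f8 : p.2.1.1 = τ := by rw [hp]
    have f9 : p.2.2.1.1 = g1 := by rw [hp]
    have f10 : p.2.2.1.2 = g2 := by rw [hp]
    have hJ1 : ζ1 * (B1 * (-(s * g2) + τ * Y1) * P + g1 * (g1 * Y1 + g2 * Y2)) +
        ζ2 * (B2 * (s * g1 + τ * Y2) * P + g2 * (g1 * Y1 + g2 * Y2)) = 0 := by
      have e3 := hJ0
      unfold jN at e3
      simp only at e3
      rw [f1, f2, f3, f4, f5, f6, f7, hQ0] at e3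
      exact e3
    simp only [f1, f2, f3, f4, f5, f6, f7, f8, f9, f10, hQ0] at E1 E2 E3 hA'
    obtain ⟨η1, hη1⟩ : ∃ η1, η1 = -(s * g2) + τ * Y1 := ⟨_, rfl⟩
    obtain ⟨η2, hη2⟩ : ∃ η2, η2 = s * g1 + τ * Y2 := ⟨_, rfl⟩
    obtain ⟨U, hU⟩ : ∃ U, U = g1 * Y1 + g2 * Y2 := ⟨_, rfl⟩
    have hτU : τ * U = g1 * η1 + g2 * η2 := by
      rw [hU, hη1, hη2]
      ring
    rw [← hη1, ← hη2, ← hU] at E1 E2 E3 hA' hJ1
    rw [← hη1] at h1
    rw [← hη2] at h2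
    obtain ⟨r1, r2, r3, r4⟩ := cn_alg (B1 := B1) (B2 := B2) (τ := τ) (P := P) (g1 := g1)
      (g2 := g2) (η1 := η1) (η2 := η2) (U := U) (ζ1 := ζ1) (ζ2 := ζ2) (u1 := u1) (u2 := u2)
      (u3 := u3) (d := d') hτU (by linear_combination hJ1) hg1 hg2 hζ1 hζ2 h1 h2 hΔ
      (by linear_combination E1) (by linear_combination E3)
      (by linear_combination E2 + d' * ζ2 * B2 * hτU)
      (by linear_combination hA' + ζ1 * B1 * u2 * hτU)
    subst r1 r2 r3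
    refine ⟨rfl, ?_⟩
    rw [r4] at hd'
    have e4 : ((0, 0, 0) : V) = 0 := rfl
    rw [e4, map_zero, zero_div, add_zero] at hd'
    exact hd'.symm

end Pool.Agent.SDT.N1G.Qf.CN

end -- N1G.Cn4
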