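import Pool.Agent.SDT.B04
import Pool.Agent.SDT.B12
import Pool.Agent.SDT.B14

set_option autoImplicit false

namespace Pool.Agent.SDT.MP_6cbfb8_an
end Pool.Agent.SDT.MP_6cbfb8_an
namespace Pool.Agent.SDT.MST
end Pool.Agent.SDT.MST
namespace Pool.Agent.SDT.N1
end Pool.Agent.SDT.N1
namespace Pool.Agent.SDT.N1G
end Pool.Agent.SDT.N1G

section -- N1G.La2

/-!
N1G, block L2a: from a family to globally smooth data.
-/

namespace Pool.Agent.SDT.N1G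

open MeasureTheory Set Metric Pool.Agent.SDT.MP_6cbfb8_an Pool.Agent.SDT.MST Pool.Agent.SDT.N1
open scoped ENNReal Real ContDiff Topology

section fam

variable {P : Type*} [NormedAddCommGroup P] [NormedSpace ℝ P]

lemma line_a {ψ : P × YX → ℝ} (h : ContDiff ℝ ∞ ψ) (p : P) (s : YX) :
    HasDerivAt (fun a => ψ (p, (s.1, (a, s.2.2)))) (da1 ψ (p, s)) s.2.1 := by
  have h2 : HasFDerivAt ψ (fderiv ℝ ψ (p, (s.1, (s.2.1, s.2.2)))) (p, (s.1, (s.2.1, s.2.2))) :=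
    (h.differentiable (by simp)).differentiableAt.hasFDerivAt
  have h3 : HasDerivAt (fun a : ℝ => ((p, (s.1, (a, s.2.2))) : P × YX))
      ((0, ((0, 0), (1, 0))) : P × YX) s.2.1 :=
    (hasDerivAt_const _ p).prodMk ((hasDerivAt_const _ s.1).prodMk
      ((hasDerivAt_id s.2.1).prodMk (hasDerivAt_const _ s.2.2)))
  exact h2.comp_hasDerivAt s.2.1 h3

lemma line_b {ψ : P × YX → ℝ} (h : ContDiff ℝ ∞ ψ) (p : P) (s : YX) :
    HasDerivAt (fun b => ψ (p, (s.1, (s.2.1, b)))) (db1 ψ (p, s)) s.2.2 := by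
  have h2 : HasFDerivAt ψ (fderiv ℝ ψ (p, (s.1, (s.2.1, s.2.2)))) (p, (s.1, (s.2.1, s.2.2))) :=
    (h.differentiable (by simp)).differentiableAt.hasFDerivAt
  have h3 : HasDerivAt (fun b : ℝ => ((p, (s.1, (s.2.1, b))) : P × YX))
      ((0, ((0, 0), (0, 1))) : P × YX) s.2.2 :=
    (hasDerivAt_const _ p).prodMk ((hasDerivAt_const _ s.1).prodMk
      ((hasDerivAt_const _ s.2.1).prodMk (hasDerivAt_id s.2.2)))
  exact h2.comp_hasDerivAt s.2.2 h3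

/-- The data agree with the family on the ball of radius `ρ`. -/
structure DatOk (D : Dat P) (F : Fam P) (p0 : P) (x0 y0 : ℝ × ℝ) (ρ : ℝ) : Prop where
  hρ : 0 < ρ
  eψ : ∀ s ∈ ball (p0, (y0, x0)) ρ, D.ψ s = F.ψ s
  eW : ∀ s ∈ ball (p0, (y0, x0)) ρ, D.W s = F.W s
  el : ∀ s ∈ ball (p0, (y0, x0)) ρ, D.l s = F.l s
  eo0 : ∀ s ∈ ball (p0, y0.1) ρ, D.o0 s = F.o0 s
  eo1 : ∀ s ∈ ball (p0, y0.1, x0.1) ρ, D.o1 s = F.o1 s
  es : ∀ s ∈ ball (p0, y0.2, x0.2) ρ, D.s s = F.s s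
  eμ : ∀ p ∈ ball p0 ρ, D.μ p = F.μ p
  ea : ∀ (p : P) (s : YX), (p, s) ∈ ball (p0, (y0, x0)) ρ → da1 D.ψ (p, s) =
    -(D.l (p, s) * (D.o0 (p, s.1.1) + D.μ p * D.o1 (p, s.1.1, s.2.1) - D.s (p, s.1.2, s.2.2)))
  ea' : ∀ (p : P) (s : YX), (p, s) ∈ ball (p0, (y0, x0)) ρ → da1 D.ψ (p, s) = F.ψa p s
  eb : ∀ (p : P) (s : YX), (p, s) ∈ ball (p0, (y0, x0)) ρ → db1 D.ψ (p, s) = F.ψb p s

omit [NormedSpace ℝ P] in
lemma mem_ballYX {p0 p : P} {y0 x0 : ℝ × ℝ} {s : YX} {ρ : ℝ} :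
    (p, s) ∈ ball (p0, (y0, x0)) ρ ↔ dist p p0 < ρ ∧ (|s.1.1 - y0.1| < ρ ∧ |s.1.2 - y0.2| < ρ) ∧
      (|s.2.1 - x0.1| < ρ ∧ |s.2.2 - x0.2| < ρ) := by
  rw [mem_ball, Prod.dist_eq, Prod.dist_eq, Prod.dist_eq, Prod.dist_eq, max_lt_iff, max_lt_iff,
    max_lt_iff, max_lt_iff, Real.dist_eq, Real.dist_eq, Real.dist_eq, Real.dist_eq]

theorem exists_dat [FiniteDimensional ℝ P] (F : Fam P) (p0 : P) (x0 y0 : ℝ × ℝ) (r : ℝ)
    (h : FamOk F p0 x0 y0 r) : ∃ D : Dat P, DatOk D F p0 x0 y0 (r / 2) := by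
  obtain ⟨ψ, sψ, eψ⟩ := ext_smooth F.ψ (p0, (y0, x0)) r h.hr h.sψ
  obtain ⟨W, sW, eW⟩ := ext_smooth F.W (p0, (y0, x0)) r h.hr h.sW
  obtain ⟨l, sl, el⟩ := ext_smooth F.l (p0, (y0, x0)) r h.hr h.sl
  obtain ⟨o0, so0, eo0⟩ := ext_smooth F.o0 (p0, y0.1) r h.hr h.so0
  obtain ⟨o1, so1, eo1⟩ := ext_smooth F.o1 (p0, y0.1, x0.1) r h.hr h.so1
  obtain ⟨s, ss, es⟩ := ext_smooth F.s (p0, y0.2, x0.2) r h.hr h.ss
  obtain ⟨μ, sμ, eμ⟩ := ext_smooth F.μ p0 r h.hr h.sμ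
  obtain ⟨k, sk, ek⟩ := exists_k1 sl so1
  refine ⟨⟨ψ, W, l, o0, o1, s, μ, k, sψ, sW, sl, so0, so1, ss, sμ, sk, ek⟩, ?_⟩
  have hr2 : 0 < r / 2 := half_pos h.hr
  have hA : ∀ (p : P) (q : YX), (p, q) ∈ ball (p0, (y0, x0)) (r / 2) →
      ∀ᶠ a in 𝓝 q.2.1, (p, (q.1, (a, q.2.2))) ∈ ball (p0, (y0, x0)) (r / 2) := by
    intro p q hq
    have : ContinuousAt (fun a : ℝ => ((p, (q.1, (a, q.2.2))) : P × YX)) q.2.1 := by fun_prop
    exact this.eventually (isOpen_ball.mem_nhds hq)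
  have hB : ∀ (p : P) (q : YX), (p, q) ∈ ball (p0, (y0, x0)) (r / 2) →
      ∀ᶠ b in 𝓝 q.2.2, (p, (q.1, (q.2.1, b))) ∈ ball (p0, (y0, x0)) (r / 2) := by
    intro p q hq
    have : ContinuousAt (fun b : ℝ => ((p, (q.1, (q.2.1, b))) : P × YX)) q.2.2 := by fun_prop
    exact this.eventually (isOpen_ball.mem_nhds hq)
  refine ⟨hr2, eψ, eW, el, eo0, eo1, es, eμ, ?_, ?_, ?_⟩
  · intro p q hq
    have h1 := line_a sψ p q
    have h2 : (fun a => ψ (p, (q.1, (a, q.2.2)))) =ᶠ[𝓝 q.2.1]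
        fun a => F.ψ (p, (q.1, (a, q.2.2))) := by
      filter_upwards [hA p q hq] with a ha
      exact eψ _ ha
    have h3 := (h.dψ p q (ball_subset_ball (by linarith) hq)).congr_of_eventuallyEq h2
    rw [h1.unique h3]
    obtain ⟨m1, ⟨m2, m3⟩, m4, m5⟩ := mem_ballYX.1 hq
    unfold Fam.N nn Fam.om Fam.sg
    dsimp only
    rw [el _ hq, eo0 (p, q.1.1) (by
        rw [mem_ball, Prod.dist_eq, max_lt_iff, Real.dist_eq]; exact ⟨m1, m2⟩),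
      eo1 (p, q.1.1, q.2.1) (by
        rw [mem_ball, Prod.dist_eq, Prod.dist_eq, max_lt_iff, max_lt_iff, Real.dist_eq,
          Real.dist_eq]; exact ⟨m1, m2, m4⟩),
      es (p, q.1.2, q.2.2) (by
        rw [mem_ball, Prod.dist_eq, Prod.dist_eq, max_lt_iff, max_lt_iff, Real.dist_eq,
          Real.dist_eq]; exact ⟨m1, m3, m5⟩), eμ p m1]
  · intro p q hq
    have h1 := line_a sψ p q
    have h2 : (fun a => ψ (p, (q.1, (a, q.2.2)))) =ᶠ[𝓝 q.2.1]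
        fun a => F.ψ (p, (q.1, (a, q.2.2))) := by
      filter_upwards [hA p q hq] with a ha
      exact eψ _ ha
    unfold Fam.ψa
    rw [← h2.deriv_eq]
    exact h1.deriv.symm
  · intro p q hq
    have h1 := line_b sψ p q
    have h2 : (fun b => ψ (p, (q.1, (q.2.1, b)))) =ᶠ[𝓝 q.2.2]
        fun b => F.ψ (p, (q.1, (q.2.1, b))) := by
      filter_upwards [hB p q hq] with b hb
      exact eψ _ hb
    unfold Fam.ψb
    rw [← h2.deriv_eq]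
    exact h1.deriv.symm

end fam

end Pool.Agent.SDT.N1G

end -- N1G.La2

section -- N1G.MNa

/-!
N1G, block L2a, case (N), part a: the divided phase along the diagonal, the scaled form.
-/

namespace Pool.Agent.SDT.N1G

open MeasureTheory Set Metric Pool.Agent.SDT.MP_6cbfb8_an Pool.Agent.SDT.MST Pool.Agent.SDT.N1
open scoped ENNReal Real ContDiff Topology

section mna

variable {P : Type*} [NormedAddCommGroup P] [NormedSpace ℝ P]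

/-- The points `(p, y, x - (1 - t) γ ζ)`. -/
noncomputable def e3 (t : ℝ) (x : (P × ℝ) × V × V) : P × YX :=
  (x.1.1, ((x.2.1.1, x.2.2.1),
    (x.2.1.2.1 - (1 - t) * (x.1.2 * x.2.1.2.2), x.2.2.2.1 - (1 - t) * (x.1.2 * x.2.2.2.2))))

lemma e3_smooth : ContDiff ℝ ∞ fun z : ℝ × ((P × ℝ) × V × V) => e3 z.1 z.2 := by
  unfold e3
  fun_prop

lemma e3_smooth' (t : ℝ) : ContDiff ℝ ∞ fun z : (P × ℝ) × V × V => e3 t z := by
  unfold e3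
  fun_prop

/-- The integrand of the divided phase. -/
noncomputable def g3 (ψ : P × YX → ℝ) (z : ℝ × ((P × ℝ) × V × V)) : ℝ :=
  z.2.2.1.2.2 * da1 ψ (e3 z.1 z.2) + z.2.2.2.2.2 * db1 ψ (e3 z.1 z.2)

lemma g3_smooth {ψ : P × YX → ℝ} (h : ContDiff ℝ ∞ ψ) : ContDiff ℝ ∞ (g3 ψ) := by
  unfold g3
  exact ((by fun_prop : ContDiff ℝ ∞ fun z : ℝ × ((P × ℝ) × V × V) => z.2.2.1.2.2).mul
    ((da1_smooth h).comp e3_smooth)).add
    ((by fun_prop : ContDiff ℝ ∞ fun z : ℝ × ((P × ℝ) × V × V) => z.2.2.2.2.2).mul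
      ((db1_smooth h).comp e3_smooth))

/-- The divided phase. -/
noncomputable def G3 (ψ : P × YX → ℝ) (x : (P × ℝ) × V × V) : ℝ :=
  ∫ t in (0 : ℝ)..1, g3 ψ (t, x)

lemma G3_smooth [FiniteDimensional ℝ P] {ψ : P × YX → ℝ} (h : ContDiff ℝ ∞ ψ) :
    ContDiff ℝ ∞ (G3 ψ) :=
  smooth_integral (P := (P × ℝ) × V × V) (g3 ψ) (g3_smooth h)

/-- The diagonal edge. -/
lemma edge3 {ψ : P × YX → ℝ} (h : ContDiff ℝ ∞ ψ) (x : (P × ℝ) × V × V) :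
    ψ (e3 1 x) - ψ (e3 0 x) = x.1.2 * G3 ψ x := by
  have h1 : ∀ t ∈ uIcc (0 : ℝ) 1, HasDerivAt (fun t : ℝ => ψ (e3 t x))
      (x.1.2 * g3 ψ (t, x)) t := by
    intro t _
    have h2 : HasFDerivAt ψ (fderiv ℝ ψ (e3 t x)) (e3 t x) :=
      (h.differentiable (by simp)).differentiableAt.hasFDerivAt
    have h4 : ∀ c d : ℝ, HasDerivAt (fun t : ℝ => c - (1 - t) * d) d t := by
      intro c d
      have := (((hasDerivAt_id t).const_sub 1).mul_const d).const_sub c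
      refine HasDerivAt.congr_deriv this ?_
      ring
    have h5 := (hasDerivAt_const t x.1.1).prodMk ((hasDerivAt_const t
      ((x.2.1.1, x.2.2.1) : ℝ × ℝ)).prodMk ((h4 x.2.1.2.1 (x.1.2 * x.2.1.2.2)).prodMk
        (h4 x.2.2.2.1 (x.1.2 * x.2.2.2.2))))
    have h6 := h2.comp_hasDerivAt t h5
    refine HasDerivAt.congr_deriv h6 ?_
    have h7 : ((0, (0, (x.1.2 * x.2.1.2.2, x.1.2 * x.2.2.2.2))) : P × YX) =
        (x.1.2 * x.2.1.2.2) • ((0, ((0, 0), (1, 0))) : P × YX) +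
        (x.1.2 * x.2.2.2.2) • ((0, ((0, 0), (0, 1))) : P × YX) := by
      simp [Prod.smul_mk]
      rfl
    rw [h7, map_add, map_smul, map_smul, smul_eq_mul, smul_eq_mul]
    unfold g3 da1 db1
    simp only
    ring
  have h8 : Continuous (fun t : ℝ => x.1.2 * g3 ψ (t, x)) := by
    have h9 : Continuous (fun t : ℝ => ((t, x) : ℝ × ((P × ℝ) × V × V))) := by fun_prop
    exact continuous_const.mul ((g3_smooth h).continuous.comp h9)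
  have h10 := intervalIntegral.integral_eq_sub_of_hasDerivAt h1 (h8.intervalIntegrable 0 1)
  rw [intervalIntegral.integral_const_mul] at h10
  exact h10.symm

/-- The amplitude of the scaled form. -/
noncomputable def c3 (W : P × YX → ℝ) (x : ℝ × (P × ℝ) × V × V) : ℝ :=
  chi x.1 * (W (e3 1 x.2) * W (e3 0 x.2))

lemma c3_smooth {W : P × YX → ℝ} (h : ContDiff ℝ ∞ W) : ContDiff ℝ ∞ (c3 W) := by
  unfold c3
  refine (chi_smooth.comp contDiff_fst).mul (ContDiff.mul ?_ ?_)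
  · exact (h.comp (e3_smooth' 1)).comp contDiff_snd
  · exact (h.comp (e3_smooth' 0)).comp contDiff_snd

/-- The phase of a rectangle in scaled variables. -/
lemma Fg_scale {ψ : P × YX → ℝ} (h : ContDiff ℝ ∞ ψ) (p : P) (γ : ℝ) (a b : V) :
    Fg (fun s => ψ (p, s)) (Sc 1 γ a, Sc 1 γ b) = γ * G3 ψ ((p, γ), a, b) := by
  have h1 := edge3 h ((p, γ), a, b)
  rw [← h1]
  unfold Fg px pz Sc e3
  simp only [one_mul, sub_self, zero_mul, sub_zero]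

omit [NormedAddCommGroup P] [NormedSpace ℝ P] in
lemma Wg_scale (W : P × YX → ℝ) (p : P) (γ : ℝ) (a b : V) :
    Wg (fun s => W (p, s)) (Sc 1 γ a, Sc 1 γ b) =
      W (e3 1 ((p, γ), a, b)) * W (e3 0 ((p, γ), a, b)) := by
  unfold Wg px pz Sc e3
  simp only [one_mul, sub_self, zero_mul, sub_zero]

/-- The scaled form. -/
lemma FFg_scale {ψ W : P × YX → ℝ} (h : ContDiff ℝ ∞ ψ) (p : P) (T γ : ℝ) (hT : 0 < T)
    (hγ : 0 < γ) (A B : V → ℂ) :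
    FFg (fun s => ψ (p, s)) (fun s => W (p, s)) T (tp A B) =
      (((γ * γ : ℝ) : ℂ) * (T : ℂ)) * ∫ q : V × V, A (Sc 1 γ q.1) * B (Sc 1 γ q.2) *
        ∫ s : ℝ, ((c3 W (s, (p, γ), q.1, q.2) : ℝ) : ℂ) *
          ex (T * γ * (s * G3 ψ ((p, γ), q.1, q.2))) := by
  unfold FFg
  rw [integral_scale _ 1 γ γ one_pos hγ hγ, one_mul, mul_assoc ((((γ * γ : ℝ) : ℂ))) (T : ℂ),
    ← integral_const_mul (T : ℂ)]
  congr 1
  refine integral_congr_ae (Filter.Eventually.of_forall fun q => ?_)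
  simp only [tp]
  rw [Fg_scale h, Wg_scale, f1_Kt_scale T _ hT]
  have h5 : ∀ s : ℝ, ((c3 W (s, (p, γ), q.1, q.2) : ℝ) : ℂ) *
        ex (T * γ * (s * G3 ψ ((p, γ), q.1, q.2))) =
      (((W (e3 1 ((p, γ), q.1, q.2)) * W (e3 0 ((p, γ), q.1, q.2)) : ℝ)) : ℂ) *
        (((chi s : ℝ) : ℂ) * ex (T * (γ * G3 ψ ((p, γ), q.1, q.2)) * s)) := by
    intro s
    unfold c3
    simp only
    rw [show T * γ * (s * G3 ψ ((p, γ), q.1, q.2)) = T * (γ * G3 ψ ((p, γ), q.1, q.2)) * s by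
      ring]
    push_cast
    ring
  simp only [h5]
  rw [integral_const_mul]
  ring

/-- The limit phase. -/
lemma G3_zero (ψ : P × YX → ℝ) (p : P) (a b : V) :
    G3 ψ ((p, 0), a, b) = a.2.2 * da1 ψ (p, ((a.1, b.1), (a.2.1, b.2.1))) +
      b.2.2 * db1 ψ (p, ((a.1, b.1), (a.2.1, b.2.1))) := by
  unfold G3 g3 e3
  simp

end mna

end Pool.Agent.SDT.N1G

end -- N1G.MNa

section -- N1G.Q2

/-!
N1G, the quadratic family: smoothness.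
-/

namespace Pool.Agent.SDT.N1G.Qf

open MeasureTheory Set Metric Pool.Agent.SDT.MP_6cbfb8_an Pool.Agent.SDT.MST Pool.Agent.SDT.N1 Pool.Agent.SDT.N1G
open scoped ENNReal Real ContDiff Topology

theorem cd_Qq : ContDiff ℝ ∞ fun z : PP × ℝ × ℝ => Qqq z.1 z.2 := by
  unfold Qqq
  fun_prop

theorem cd_e1 : ContDiff ℝ ∞ fun z : PP × ℝ => e1 z.1 z.2 := by
  unfold e1
  fun_prop

theorem cd_e2 : ContDiff ℝ ∞ fun z : PP × ℝ => e2 z.1 z.2 := by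
  unfold e2
  fun_prop

theorem cd_m1 : ContDiff ℝ ∞ fun z : PP × ℝ × ℝ => m1 z.1 z.2.1 z.2.2 := by
  unfold m1 e1
  fun_prop

theorem cd_m2 : ContDiff ℝ ∞ fun z : PP × ℝ × ℝ => m2 z.1 z.2.1 z.2.2 := by
  unfold m2 e2
  fun_prop

theorem cd_xm : ContDiff ℝ ∞ fun z : PP × YX => xm z.1 z.2 := by
  unfold xm m1 m2 e1 e2
  fun_prop

theorem cd_nu : ContDiff ℝ ∞ nu := by
  unfold nu m1 m2 e1 e2
  fun_prop

theorem cd_G1 : ContDiff ℝ ∞ fun z : PP × ℝ => G1 z.1 z.2 := by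
  unfold G1
  fun_prop

theorem cd_D1 : ContDiff ℝ ∞ fun z : PP × ℝ => D1 z.1 z.2 := by
  unfold D1
  fun_prop

theorem cd_Q0 : ContDiff ℝ ∞ fun z : PP × YX => Qqq z.1 z.2.2 := by
  unfold Qqq
  fun_prop

theorem cd_Q0' : ContDiff ℝ ∞ fun z : PP × YX => Qqq z.1 (xm z.1 z.2) := by
  unfold Qqq xm m1 m2 e1 e2
  fun_prop

theorem cd_Ga : ContDiff ℝ ∞ fun z : PP × YX => G1 z.1 z.2.2.1 := by
  unfold G1
  fun_prop

theorem cd_Ga' : ContDiff ℝ ∞ fun z : PP × YX => G1 z.1 (m1 z.1 z.2.1.1 z.2.2.1) := by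
  unfold G1 m1 e1
  fun_prop

theorem cd_Da' : ContDiff ℝ ∞ fun z : PP × YX => D1 z.1 (m2 z.1 z.2.1.2 z.2.2.2) := by
  unfold D1 m2 e2
  fun_prop

/-- The conditions at a point. -/
structure Good (p : PP) (s : YX) : Prop where
  q : 0 < Qqq p s.2
  q' : 0 < Qqq p (xm p s)
  g : 0 < p.2.2.1.1 * G1 p s.2.1
  g' : 0 < p.2.2.1.1 * G1 p (m1 p s.1.1 s.2.1)
  d : 0 < D1 p (m2 p s.1.2 s.2.2)

theorem Good.g0 {p : PP} {s : YX} (h : Good p s) : p.2.2.1.1 ≠ 0 := left_ne_zero_of_mul h.g.ne'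

theorem Good.g0' {p : PP} {s : YX} (h : Good p s) : G1 p (m1 p s.1.1 s.2.1) ≠ 0 :=
  right_ne_zero_of_mul h.g'.ne'

theorem Good.E {p : PP} {s : YX} (h : Good p s) : 0 < p.2.2.1.1 *
    (G1 p s.2.1 * √(Qqq p (xm p s)) + G1 p (m1 p s.1.1 s.2.1) * √(Qqq p s.2)) := by
  have h1 := mul_pos h.g (Real.sqrt_pos.2 h.q')
  have h2 := mul_pos h.g' (Real.sqrt_pos.2 h.q)
  have e : p.2.2.1.1 * (G1 p s.2.1 * √(Qqq p (xm p s)) + G1 p (m1 p s.1.1 s.2.1) * √(Qqq p s.2)) =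
    p.2.2.1.1 * G1 p s.2.1 * √(Qqq p (xm p s)) +
      p.2.2.1.1 * G1 p (m1 p s.1.1 s.2.1) * √(Qqq p s.2) := by ring
  rw [e]
  exact add_pos h1 h2

theorem cd_psi (z : PP × YX) (h1 : 0 < Qqq z.1 z.2.2) (h2 : 0 < Qqq z.1 (xm z.1 z.2)) :
    ContDiffAt ℝ ∞ psi z := by
  unfold psi
  exact cd_nu.contDiffAt.div ((cd_Q0.contDiffAt.sqrt h1.ne').add (cd_Q0'.contDiffAt.sqrt h2.ne'))
    (add_pos (Real.sqrt_pos.2 h1) (Real.sqrt_pos.2 h2)).ne'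

theorem cd_ll (z : PP × YX) (h : Good z.1 z.2) : ContDiffAt ℝ ∞ ll z := by
  have s1 := cd_Q0.contDiffAt.sqrt (x := z) h.q.ne'
  have s2 := cd_Q0'.contDiffAt.sqrt (x := z) h.q'.ne'
  have g : ContDiffAt ℝ ∞ (fun z : PP × YX => z.1.2.2.1.1) z := by fun_prop
  unfold ll
  refine ((cd_Ga'.contDiffAt.pow 2).mul cd_Da'.contDiffAt).div
    ((g.mul ((cd_Ga.contDiffAt.mul s2).add (cd_Ga'.contDiffAt.mul s1))).mul (s1.mul s2)) ?_
  exact mul_ne_zero h.E.ne' (mul_pos (Real.sqrt_pos.2 h.q) (Real.sqrt_pos.2 h.q')).ne'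

theorem cd_oo (z : PP × ℝ × ℝ) (h : G1 z.1 (m1 z.1 z.2.1 z.2.2) ≠ 0) : ContDiffAt ℝ ∞ oo z := by
  have n1 : ContDiff ℝ ∞ fun z : PP × ℝ × ℝ =>
      e1 z.1 z.2.1 * (-(z.1.2.2.1.1 * (z.2.2 + m1 z.1 z.2.1 z.2.2)) +
    2 * m1 z.1 z.2.1 z.2.2 *
      (2 * z.1.2.2.1.1 - z.1.2.1.1 * z.1.1.1 * m1 z.1 z.2.1 z.2.2)) := by
    unfold m1 e1
    fun_prop
  have n2 : ContDiff ℝ ∞ fun z : PP × ℝ × ℝ => G1 z.1 (m1 z.1 z.2.1 z.2.2) ^ 2 := by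
    unfold G1 m1 e1
    fun_prop
  exact n1.contDiffAt.div n2.contDiffAt (pow_ne_zero 2 h)

theorem cd_ss (z : PP × ℝ × ℝ) (h : D1 z.1 (m2 z.1 z.2.1 z.2.2) ≠ 0) : ContDiffAt ℝ ∞ ss z := by
  have n1 : ContDiff ℝ ∞ fun z : PP × ℝ × ℝ =>
      (-(2 * z.1.2.2.1.1 * z.1.2.2.1.2 * z.2.1) +
    z.1.1.2 * z.1.2.2.1.1 * e2 z.1 z.2.1 * (z.2.2 + m2 z.1 z.2.1 z.2.2) +
    2 * z.1.2.2.2.1 * z.1.2.2.1.2 * z.1.1.1 *
      (z.1.2.1.2 + 2 * z.1.2.2.1.2 * m2 z.1 z.2.1 z.2.2 -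
        z.1.2.1.1 * z.1.1.2 * m2 z.1 z.2.1 z.2.2 ^ 2)) := by
    unfold m2 e2
    fun_prop
  have n2 : ContDiff ℝ ∞ fun z : PP × ℝ × ℝ => D1 z.1 (m2 z.1 z.2.1 z.2.2) := by
    unfold D1 m2 e2
    fun_prop
  exact n1.contDiffAt.div n2.contDiffAt h

theorem good_nhds (p0 : PP) (s0 : YX) (h : Good p0 s0) : ∀ᶠ z in 𝓝 (p0, s0), Good z.1 z.2 := by
  have K : ∀ f : PP × YX → ℝ, Continuous f → 0 < f (p0, s0) → ∀ᶠ z in 𝓝 (p0, s0), 0 < f z :=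
    fun f hf h0 => hf.continuousAt.eventually (lt_mem_nhds h0)
  have f1 := K _ cd_Q0.continuous h.q
  have f2 := K _ cd_Q0'.continuous h.q'
  have c3 : Continuous fun z : PP × YX => z.1.2.2.1.1 * G1 z.1 z.2.2.1 :=
    (by fun_prop : Continuous fun z : PP × YX => z.1.2.2.1.1).mul cd_Ga.continuous
  have f3 := K _ c3 h.g
  have c4 : Continuous fun z : PP × YX => z.1.2.2.1.1 * G1 z.1 (m1 z.1 z.2.1.1 z.2.2.1) :=
    (by fun_prop : Continuous fun z : PP × YX => z.1.2.2.1.1).mul cd_Ga'.continuous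
  have f4 := K _ c4 h.g'
  have f5 := K _ cd_Da'.continuous h.d
  filter_upwards [f1, f2, f3, f4, f5] with z h1 h2 h3 h4 h5
  exact ⟨h1, h2, h3, h4, h5⟩

/-- Smoothness and factorisation. -/
theorem famOk (W : PP × YX → ℝ) (p0 : PP) (x0 y0 : ℝ × ℝ) (h : Good p0 (y0, x0))
    (hb : (fam W).ψb p0 (y0, x0) ≠ 0) (rW : ℝ) (hrW : 0 < rW)
    (hW : ContDiffOn ℝ ∞ W (ball (p0, (y0, x0)) rW)) : ∃ r : ℝ, FamOk (fam W) p0 x0 y0 r := by
  obtain ⟨r1, hr1, h1⟩ := Metric.eventually_nhds_iff_ball.1 (good_nhds p0 (y0, x0) h)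
  have a1 : ∀ᶠ z : PP × ℝ × ℝ in 𝓝 (p0, y0.1, x0.1), G1 z.1 (m1 z.1 z.2.1 z.2.2) ≠ 0 := by
    have c : Continuous fun z : PP × ℝ × ℝ => G1 z.1 (m1 z.1 z.2.1 z.2.2) := by
      unfold G1 m1 e1
      fun_prop
    exact c.continuousAt.eventually_ne h.g0'
  obtain ⟨r2, hr2, h2⟩ := Metric.eventually_nhds_iff_ball.1 a1
  have a2 : ∀ᶠ z : PP × ℝ × ℝ in 𝓝 (p0, y0.2, x0.2), D1 z.1 (m2 z.1 z.2.1 z.2.2) ≠ 0 := by
    have c : Continuous fun z : PP × ℝ × ℝ => D1 z.1 (m2 z.1 z.2.1 z.2.2) := by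
      unfold D1 m2 e2
      fun_prop
    exact c.continuousAt.eventually_ne h.d.ne'
  obtain ⟨r3, hr3, h3⟩ := Metric.eventually_nhds_iff_ball.1 a2
  have hr : 0 < min (min r1 r2) (min r3 rW) := lt_min (lt_min hr1 hr2) (lt_min hr3 hrW)
  have k1 : min (min r1 r2) (min r3 rW) ≤ r1 := (min_le_left _ _).trans (min_le_left _ _)
  have k2 : min (min r1 r2) (min r3 rW) ≤ r2 := (min_le_left _ _).trans (min_le_right _ _)
  have k3 : min (min r1 r2) (min r3 rW) ≤ r3 := (min_le_right _ _).trans (min_le_left _ _)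
  have k4 : min (min r1 r2) (min r3 rW) ≤ rW := (min_le_right _ _).trans (min_le_right _ _)
  refine ⟨min (min r1 r2) (min r3 rW), hr, ?_, ?_, ?_, ?_, ?_, ?_, ?_, ?_, ?_, hb⟩
  · intro z hz
    have hz' := h1 z (ball_subset_ball k1 hz)
    exact (cd_psi z hz'.q hz'.q').contDiffWithinAt
  · exact hW.mono (ball_subset_ball k4)
  · intro z hz
    exact (cd_ll z (h1 z (ball_subset_ball k1 hz))).contDiffWithinAt
  · have : ContDiff ℝ ∞ fun z : PP × ℝ => 2 * z.2 := by fun_prop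
    exact this.contDiffOn
  · intro z hz
    exact (cd_oo z (h2 z (ball_subset_ball k2 hz))).contDiffWithinAt
  · intro z hz
    exact (cd_ss z (h3 z (ball_subset_ball k3 hz))).contDiffWithinAt
  · have : ContDiff ℝ ∞ fun p : PP => p.1.1 := by fun_prop
    exact this.contDiffOn
  · intro p s hz
    have hz' := h1 (p, s) (ball_subset_ball k1 hz)
    exact dpsi W p s hz'.q hz'.q' hz'.g0 (right_ne_zero_of_mul hz'.E.ne') hz'.g0' hz'.d.ne'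
  · show 0 < ll (p0, (y0, x0))
    unfold ll
    have h5 : G1 p0 (m1 p0 y0.1 x0.1) ≠ 0 := h.g0'
    have h6 : 0 < G1 p0 (m1 p0 y0.1 x0.1) ^ 2 := by positivity
    exact div_pos (mul_pos h6 h.d) (mul_pos h.E (mul_pos (Real.sqrt_pos.2 h.q)
      (Real.sqrt_pos.2 h.q')))

end Pool.Agent.SDT.N1G.Qf

end -- N1G.Q2

section -- N1G.Q3

/-!
N1G, the quadratic family: closed forms for `ρ = 0`.
-/

namespace Pool.Agent.SDT.N1G.Qf

open MeasureTheory Set Metric Pool.Agent.SDT.MP_6cbfb8_an Pool.Agent.SDT.MST Pool.Agent.SDT.N1 Pool.Agent.SDT.N1G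
open scoped ENNReal Real ContDiff Topology

/-- Half of the second derivative of `Q`. -/
def G2 (p : PP) (b : ℝ) : ℝ := p.2.2.1.2 - p.2.1.1 * p.1.2 * b

/-- The numerator of the phase for `ρ = 0`. -/
def UU (p : PP) (s : YX) : ℝ := p.2.2.1.1 * s.1.1 + p.2.2.1.2 * s.1.2 -
  p.1.1 * s.2.1 * e1 p s.1.1 - p.1.2 * s.2.2 * e2 p s.1.2

/-- `-qt³ ∂_a ψ` for `ρ = 0`. -/
def Na (p : PP) (s : YX) : ℝ := p.1.1 * e1 p s.1.1 * Qqq p s.2 + G1 p s.2.1 * UU p s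

/-- `-qt³ ∂_b ψ` for `ρ = 0`. -/
def Nb (p : PP) (s : YX) : ℝ := p.1.2 * e2 p s.1.2 * Qqq p s.2 + G2 p s.2.2 * UU p s

section

variable (p : PP) (hρ : p.2.2.2.2 = 0)

include hρ

theorem m1_0 (y a : ℝ) : m1 p y a = a := by unfold m1; rw [hρ]; ring

theorem m2_0 (y b : ℝ) : m2 p y b = b := by unfold m2; rw [hρ]; ring

theorem xm_0 (s : YX) : xm p s = s.2 := by
  unfold xm
  rw [m1_0 p hρ, m2_0 p hρ]

theorem nu_0 (s : YX) : nu (p, s) = 2 * UU p s := by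
  unfold nu UU
  simp only [m1_0 p hρ, m2_0 p hρ]
  ring

theorem psi_0 (s : YX) : psi (p, s) = UU p s / √(Qqq p s.2) := by
  unfold psi
  simp only [xm_0 p hρ, nu_0 p hρ]
  rw [← two_mul, mul_div_mul_left _ _ two_ne_zero]

theorem ll_0 (s : YX) (hQ : 0 < Qqq p s.2) (hG : G1 p s.2.1 ≠ 0) :
    ll (p, s) = G1 p s.2.1 * D1 p s.2.2 / (2 * p.2.2.1.1 * √(Qqq p s.2) ^ 3) := by
  have hq : √(Qqq p s.2) ≠ 0 := (Real.sqrt_pos.2 hQ).ne'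
  unfold ll
  simp only [xm_0 p hρ, m1_0 p hρ, m2_0 p hρ]
  by_cases hg : p.2.2.1.1 = 0
  · rw [hg]
    simp
  · field_simp
    ring

theorem dpsi_a (s : YX) (hQ : 0 < Qqq p s.2) :
    HasDerivAt (fun a => psi (p, (s.1, (a, s.2.2)))) (-(Na p s / √(Qqq p s.2) ^ 3)) s.2.1 := by
  obtain ⟨y, a, b⟩ := s
  simp only at *
  have hq : 0 < √(Qqq p (a, b)) := Real.sqrt_pos.2 hQ
  have h1 : HasDerivAt (fun a => UU p (y, (a, b))) (-(p.1.1 * e1 p y.1)) a := by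
    unfold UU
    have h := ((((hasDerivAt_id a).const_mul p.1.1).mul_const (e1 p y.1)).const_sub
      (p.2.2.1.1 * y.1 + p.2.2.1.2 * y.2)).sub_const (p.1.2 * b * e2 p y.2)
    refine HasDerivAt.congr_deriv h ?_
    ring
  have h := h1.div (hd_sQ p a b hQ) hq.ne'
  have e : (fun a => psi (p, (y, (a, b)))) = (fun a => UU p (y, (a, b))) / fun a =>
      √(Qqq p (a, b)) := by
    funext t
    rw [psi_0 p hρ]
    rfl
  rw [e]
  refine HasDerivAt.congr_deriv h ?_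
  unfold Na
  simp only
  have e2 : Qqq p (a, b) = √(Qqq p (a, b)) ^ 2 := (Real.sq_sqrt hQ.le).symm
  generalize √(Qqq p (a, b)) = q at *
  rw [e2]
  field_simp
  ring

theorem dpsi_b (s : YX) (hQ : 0 < Qqq p s.2) :
    HasDerivAt (fun b => psi (p, (s.1, (s.2.1, b)))) (-(Nb p s / √(Qqq p s.2) ^ 3)) s.2.2 := by
  obtain ⟨y, a, b⟩ := s
  simp only at *
  have hq : 0 < √(Qqq p (a, b)) := Real.sqrt_pos.2 hQ
  have h1 : HasDerivAt (fun b => UU p (y, (a, b))) (-(p.1.2 * e2 p y.2)) b := by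
    unfold UU
    have h := (((hasDerivAt_id b).const_mul p.1.2).mul_const (e2 p y.2)).const_sub
      (p.2.2.1.1 * y.1 + p.2.2.1.2 * y.2 - p.1.1 * a * e1 p y.1)
    refine HasDerivAt.congr_deriv h ?_
    ring
  have h2 : HasDerivAt (fun b => Qqq p (a, b)) (2 * G2 p b) b := by
    unfold Qqq G2
    have h := (((hasDerivAt_id b).const_mul (2 * p.2.2.1.2)).const_add
      (p.2.1.2 + 2 * p.2.2.1.1 * a)).sub (((((hasDerivAt_id b).fun_pow 2).const_mul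
      p.1.2).const_add (p.1.1 * a ^ 2)).const_mul p.2.1.1)
    refine HasDerivAt.congr_deriv h ?_
    simp
    ring
  have h3 := h2.sqrt hQ.ne'
  rw [mul_div_mul_left _ _ two_ne_zero] at h3
  have h := h1.div h3 hq.ne'
  have e : (fun b => psi (p, (y, (a, b)))) = (fun b => UU p (y, (a, b))) / fun b =>
      √(Qqq p (a, b)) := by
    funext t
    rw [psi_0 p hρ]
    rfl
  rw [e]
  refine HasDerivAt.congr_deriv h ?_
  unfold Nb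
  simp only
  have e2 : Qqq p (a, b) = √(Qqq p (a, b)) ^ 2 := (Real.sq_sqrt hQ.le).symm
  generalize √(Qqq p (a, b)) = q at *
  rw [e2]
  field_simp
  ring

theorem psa_0 (W : PP × YX → ℝ) (s : YX) (hQ : 0 < Qqq p s.2) :
    (fam W).ψa p s = -(Na p s / √(Qqq p s.2) ^ 3) := (dpsi_a p hρ s hQ).deriv

theorem psb_0 (W : PP × YX → ℝ) (s : YX) (hQ : 0 < Qqq p s.2) :
    (fam W).ψb p s = -(Nb p s / √(Qqq p s.2) ^ 3) := (dpsi_b p hρ s hQ).deriv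

/-- The limit phase in closed form. -/
theorem H_0 (W : PP × YX → ℝ) (u v : V) (hQ : 0 < Qqq p (u.2.1, v.2.1)) :
    (fam W).H p u v = -(1 / √(Qqq p (u.2.1, v.2.1)) ^ 3) *
      (u.2.2 * Na p ((u.1, v.1), (u.2.1, v.2.1)) + v.2.2 * Nb p ((u.1, v.1), (u.2.1, v.2.1))) := by
  unfold Fam.H
  rw [psa_0 p hρ W _ hQ, psb_0 p hρ W _ hQ]
  ring

/-- The ratio `Γ` in closed form. -/
theorem Ga_0 (W : PP × YX → ℝ) (u v : ℝ × ℝ) (hQ : 0 < Qqq p (u.2, v.2)) (hg : p.2.2.1.1 ≠ 0)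
    (hG : G1 p u.2 ≠ 0) :
    (fam W).Γ p u v = -(2 * p.2.2.1.1 * Nb p ((u.1, v.1), (u.2, v.2)) / (G1 p u.2 * D1 p v.2)) := by
  unfold Fam.Γ
  rw [psb_0 p hρ W _ hQ]
  show -(Nb p ((u.1, v.1), (u.2, v.2)) / √(Qqq p (u.2, v.2)) ^ 3) / ll (p, _) = _
  rw [ll_0 p hρ _ hQ hG]
  have hq : √(Qqq p (u.2, v.2)) ≠ 0 := (Real.sqrt_pos.2 hQ).ne'
  simp only
  by_cases hD : D1 p v.2 = 0
  · rw [hD]
    simp
  · field_simp

/-- The point is good if `Q`, `g₁ G₁`, `D₁` are positive. -/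
theorem good_0 (s : YX) (hQ : 0 < Qqq p s.2) (hG : 0 < p.2.2.1.1 * G1 p s.2.1)
    (hD : 0 < D1 p s.2.2) : Good p s := by
  refine ⟨hQ, ?_, hG, ?_, ?_⟩
  · rw [xm_0 p hρ]; exact hQ
  · rw [m1_0 p hρ]; exact hG
  · rw [m2_0 p hρ]; exact hD

omit hρ in
/-- `τ U = G · η`. -/
theorem tau_UU (s : YX) : p.2.1.1 * UU p s = G1 p s.2.1 * e1 p s.1.1 + G2 p s.2.2 * e2 p s.1.2 := by
  unfold UU G1 G2 e1 e2
  ring

/-- `oo` in closed form. -/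
theorem oo_0 (y a : ℝ) (hG : G1 p a ≠ 0) : oo (p, y, a) = 2 * e1 p y * a / G1 p a := by
  unfold oo
  simp only [m1_0 p hρ]
  have e : e1 p y * (-(p.2.2.1.1 * (a + a)) + 2 * a * (2 * p.2.2.1.1 - p.2.1.1 * p.1.1 * a)) =
      2 * e1 p y * a * G1 p a := by
    unfold G1
    ring
  rw [e]
  field_simp

/-- `ss` in closed form. -/
theorem ss_0 (y b : ℝ) : ss (p, y, b) = (-(2 * p.2.2.1.1 * p.2.2.1.2 * y) +
    2 * p.1.2 * p.2.2.1.1 * e2 p y * b + 2 * p.2.2.2.1 * p.2.2.1.2 * p.1.1 *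
      (p.2.1.2 + 2 * p.2.2.1.2 * b - p.2.1.1 * p.1.2 * b ^ 2)) / D1 p b := by
  unfold ss
  simp only [m2_0 p hρ]
  congr 1
  ring

end

/-- Exchange of the two coordinates. -/
def swP (p : PP) : PP :=
  ((p.1.2, p.1.1), (p.2.1.1, p.2.1.2), (p.2.2.1.2, p.2.2.1.1), (-p.2.2.2.1, p.2.2.2.2))

theorem swP_swP (p : PP) : swP (swP p) = p := by
  obtain ⟨⟨a, b⟩, ⟨c, d⟩, ⟨e, f⟩, ⟨g, h⟩⟩ := p
  simp [swP]

theorem e1_swP (p : PP) (Y : ℝ) : e1 (swP p) Y = e2 p Y := by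
  unfold swP e1 e2
  ring

theorem e2_swP (p : PP) (Y : ℝ) : e2 (swP p) Y = e1 p Y := by
  unfold swP e1 e2
  ring

theorem Qq_swP (p : PP) (x : ℝ × ℝ) : Qqq (swP p) x.swap = Qqq p x := by
  unfold swP Qqq
  simp only [Prod.fst_swap, Prod.snd_swap]
  ring

theorem xm_swP (p : PP) (s : YX) : xm (swP p) (cs s) = (xm p s).swap := by
  unfold xm cs m1 m2
  simp only [Prod.fst_swap, Prod.snd_swap, e1_swP, e2_swP, Prod.swap_prod_mk]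
  rfl

theorem nu_swP (p : PP) (s : YX) : nu (swP p, cs s) = nu (p, s) := by
  unfold nu cs m1 m2
  simp only [Prod.fst_swap, Prod.snd_swap, e1_swP, e2_swP]
  unfold swP
  ring

/-- The family is invariant under the exchange of the coordinates. -/
theorem psi_swP (p : PP) (s : YX) : psi (swP p, cs s) = psi (p, s) := by
  unfold psi
  simp only [xm_swP, nu_swP, Qq_swP]
  rw [show Qqq (swP p) (cs s).2 = Qqq p s.2 from Qq_swP p s.2]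

/-- The relation with the point phase: `ρ τ ψ = q(x) - q(x - ρ η)`. -/
theorem psi_dif (p : PP) (s : YX) (h : 0 < Qqq p s.2) (h' : 0 < Qqq p (xm p s)) :
    p.2.1.1 * p.2.2.2.2 * psi (p, s) = √(Qqq p s.2) - √(Qqq p (xm p s)) := by
  have h1 := sq_sub p s
  have hs : √(Qqq p s.2) + √(Qqq p (xm p s)) ≠ 0 :=
    (add_pos (Real.sqrt_pos.2 h) (Real.sqrt_pos.2 h')).ne'
  have h2 := Real.sq_sqrt h.le
  have h3 := Real.sq_sqrt h'.le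
  unfold psi
  rw [mul_div_assoc', div_eq_iff hs, ← h1]
  linear_combination -h2 + h3

end Pool.Agent.SDT.N1G.Qf

end -- N1G.Q3

section -- N1G.Qd

/-!
N1G: case (D) for the quadratic family.
-/

namespace Pool.Agent.SDT.N1G.Qf

open MeasureTheory Set Metric Filter
open scoped ENNReal Real ContDiff Topology

section
variable {W : PP × YX → ℝ} {p0 : PP}

theorem m1_zero (h : p0.2.2.2.2 = 0) (y a : ℝ) : m1 p0 y a = a := by
  unfold m1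
  rw [h, zero_mul, sub_zero]

theorem m2_zero (h : p0.2.2.2.2 = 0) (y b : ℝ) : m2 p0 y b = b := by
  unfold m2
  rw [h, zero_mul, sub_zero]

theorem om_zero (h : p0.2.2.2.2 = 0) (u : ℝ × ℝ) (hG : G1 p0 u.2 ≠ 0) :
    (fam W).om p0 u = qom p0.1.1 p0.2.1.1 p0.2.2.1.1 p0.2.2.1.2 p0.2.2.2.1 u := by
  simp only [Fam.om, fam, oo, m1_zero h, qom]
  have hG' : p0.2.2.1.1 - p0.2.1.1 * p0.1.1 * u.2 ≠ 0 := hG
  have e : e1 p0 u.1 = -(p0.2.2.2.1 * p0.2.2.1.2) + p0.2.1.1 * u.1 := rfl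
  have e' : G1 p0 u.2 = p0.2.2.1.1 - p0.2.1.1 * p0.1.1 * u.2 := rfl
  rw [e, e', eq_div_iff hG', add_mul, mul_div_assoc', div_mul_eq_mul_div, pow_two,
    mul_div_mul_right _ _ hG', add_div' _ _ _ hG', div_eq_iff hG']
  ring

theorem sg_zero (h : p0.2.2.2.2 = 0) (v : ℝ × ℝ) :
    (fam W).sg p0 v = qsg p0.1.1 p0.1.2 p0.2.1.1 p0.2.1.2 p0.2.2.1.1 p0.2.2.1.2 p0.2.2.2.1 v := by
  simp only [Fam.sg, fam, ss, m2_zero h, qsg]
  have e' : D1 p0 v.2 = qD1 p0.1.1 p0.1.2 p0.2.1.1 p0.2.1.2 p0.2.2.1.1 p0.2.2.1.2 v.2 := rfl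
  rw [e']
  congr 1
  unfold e2
  ring

theorem psi_zero (h : p0.2.2.2.2 = 0) (y : ℝ × ℝ) (a b : ℝ) :
    psi (p0, (y, (a, b))) = (2 * (p0.2.2.1.1 * y.1 + p0.2.2.1.2 * y.2) -
      p0.1.1 * (a + a) * e1 p0 y.1 - p0.1.2 * (b + b) * e2 p0 y.2) /
      (√(Qqq p0 (a, b)) + √(Qqq p0 (a, b))) := by
  simp only [psi, nu, xm, m1_zero h, m2_zero h]

theorem hd_psi_b (h : p0.2.2.2.2 = 0) (y : ℝ × ℝ) (a b : ℝ) (hQ : 0 < Qqq p0 (a, b)) :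
    HasDerivAt (fun b => psi (p0, (y, (a, b))))
      (-(qNn p0.1.1 p0.1.2 p0.2.1.1 p0.2.1.2 p0.2.2.1.1 p0.2.2.1.2 p0.2.2.2.1 (y.1, a) (y.2, b)) /
        (√(Qqq p0 (a, b)) ^ 3)) b := by
  have e : (fun b => psi (p0, (y, (a, b)))) = fun b => (2 * (p0.2.2.1.1 * y.1 +
      p0.2.2.1.2 * y.2) - p0.1.1 * (a + a) * e1 p0 y.1 - p0.1.2 * (b + b) * e2 p0 y.2) /
      (√(Qqq p0 (a, b)) + √(Qqq p0 (a, b))) := funext fun b => psi_zero h y a b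
  rw [e]
  have hq : 0 < √(Qqq p0 (a, b)) := Real.sqrt_pos.2 hQ
  have h1 : HasDerivAt (fun b => Qqq p0 (a, b))
      (2 * (p0.2.2.1.2 - p0.2.1.1 * p0.1.2 * b)) b := by
    have k1 : HasDerivAt (fun b : ℝ => p0.1.2 * b ^ 2) (p0.1.2 * (2 * b)) b := by
      simpa using (hasDerivAt_pow 2 b).const_mul p0.1.2
    have k2 : HasDerivAt (fun b : ℝ => 2 * p0.2.2.1.2 * b) (2 * p0.2.2.1.2) b := by
      simpa using (hasDerivAt_id b).const_mul (2 * p0.2.2.1.2)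
    have k3 := (k2.const_add (p0.2.1.2 + 2 * p0.2.2.1.1 * a)).sub
      ((k1.const_add (p0.1.1 * a ^ 2)).const_mul p0.2.1.1)
    refine HasDerivAt.congr_deriv k3 ?_
    ring
  have h2 := h1.sqrt hQ.ne'
  have h3 : HasDerivAt (fun b => 2 * (p0.2.2.1.1 * y.1 + p0.2.2.1.2 * y.2) -
      p0.1.1 * (a + a) * e1 p0 y.1 - p0.1.2 * (b + b) * e2 p0 y.2)
      (-(p0.1.2 * (1 + 1) * e2 p0 y.2)) b :=
    ((((hasDerivAt_id b).add (hasDerivAt_id b)).const_mul p0.1.2).mul_const (e2 p0 y.2)).const_sub _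
  have h4 := h3.fun_div (h2.fun_add h2) (by positivity)
  refine HasDerivAt.congr_deriv h4 ?_
  obtain ⟨q, hqe⟩ : ∃ q : ℝ, q = √(Qqq p0 (a, b)) := ⟨_, rfl⟩
  rw [← hqe] at hq ⊢
  have hQq : q ^ 2 = p0.2.1.2 + 2 * p0.2.2.1.1 * a + 2 * p0.2.2.1.2 * b -
      p0.2.1.1 * (p0.1.1 * a ^ 2 + p0.1.2 * b ^ 2) := by
    rw [hqe, Real.sq_sqrt hQ.le]
    rfl
  unfold qNn e1 e2
  simp only
  rw [← hQq]
  field_simp
  ring

theorem Γ_zero (h : p0.2.2.2.2 = 0) (u v : ℝ × ℝ) (hQ : 0 < Qqq p0 (u.2, v.2))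
    (hg : p0.2.2.1.1 ≠ 0) (hG : G1 p0 u.2 ≠ 0) (hD : D1 p0 v.2 ≠ 0) :
    (fam W).Γ p0 u v =
      qG p0.1.1 p0.1.2 p0.2.1.1 p0.2.1.2 p0.2.2.1.1 p0.2.2.1.2 p0.2.2.2.1 u v := by
  have h1 : (fam W).ψb p0 ((u.1, v.1), (u.2, v.2)) = _ :=
    (hd_psi_b h (u.1, v.1) u.2 v.2 hQ).deriv
  have h2 : (fam W).l (p0, ((u.1, v.1), (u.2, v.2))) = G1 p0 u.2 ^ 2 * D1 p0 v.2 /
      (p0.2.2.1.1 * (G1 p0 u.2 * √(Qqq p0 (u.2, v.2)) + G1 p0 u.2 * √(Qqq p0 (u.2, v.2))) *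
        (√(Qqq p0 (u.2, v.2)) * √(Qqq p0 (u.2, v.2)))) := by
    simp only [fam, ll, xm, m1_zero h, m2_zero h]
  rw [Fam.Γ, h1, h2]
  have hq : 0 < √(Qqq p0 (u.2, v.2)) := Real.sqrt_pos.2 hQ
  have e1' : p0.2.2.1.1 - p0.2.1.1 * p0.1.1 * u.2 = G1 p0 u.2 := rfl
  have e2' : qD1 p0.1.1 p0.1.2 p0.2.1.1 p0.2.1.2 p0.2.2.1.1 p0.2.2.1.2 v.2 = D1 p0 v.2 := rfl
  rw [qG, e1', e2']
  simp only
  field_simp
  ring

end

/-- Case (D) for the quadratic family. -/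
theorem caseD (W : PP × YX → ℝ) (p0 : PP) (x0 y0 : ℝ × ℝ) (h : p0.2.2.2.2 = 0)
    (hQ : 0 < Qqq p0 x0) (hg1 : p0.2.2.1.1 ≠ 0) (hG1 : G1 p0 x0.1 ≠ 0) (hG2 : G2 p0 x0.2 ≠ 0)
    (hD : D1 p0 x0.2 ≠ 0) (he1 : e1 p0 y0.1 ≠ 0) (he2 : e2 p0 y0.2 ≠ 0)
    (hΔ : p0.1.2 * D1 p0 x0.2 + p0.1.1 * G2 p0 x0.2 ^ 2 ≠ 0)
    (hN : (fam W).N p0 (y0, x0) = 0) : CaseD (fam W) p0 x0 y0 := by
  have cG : Continuous fun a : ℝ => G1 p0 a := by unfold G1; fun_prop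
  have cD : Continuous fun b : ℝ => D1 p0 b := by unfold D1; fun_prop
  have cQ : Continuous fun x : ℝ × ℝ => Qqq p0 x := by unfold Qqq; fun_prop
  -- a common neighbourhood
  obtain ⟨ε, hε, hgood⟩ : ∃ ε : ℝ, 0 < ε ∧ ∀ t t' : ℝ, |t| < ε → |t'| < ε →
      0 < Qqq p0 (x0.1 + t * 1, x0.2 + t' * 1) ∧ G1 p0 (x0.1 + t * 1) ≠ 0 ∧
      D1 p0 (x0.2 + t' * 1) ≠ 0 := by
    have a1 : ∀ᶠ z : ℝ × ℝ in 𝓝 (0, 0), 0 < Qqq p0 (x0.1 + z.1 * 1, x0.2 + z.2 * 1) :=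
      ContinuousAt.eventually_lt (f := fun _ => (0:ℝ)) (g := fun z : ℝ × ℝ =>
        Qqq p0 (x0.1 + z.1 * 1, x0.2 + z.2 * 1)) continuousAt_const
        (Continuous.continuousAt (by fun_prop)) (by simpa using hQ)
    have a2 : ∀ᶠ z : ℝ × ℝ in 𝓝 (0, 0), G1 p0 (x0.1 + z.1 * 1) ≠ 0 :=
      (Continuous.continuousAt (by fun_prop : Continuous fun z : ℝ × ℝ =>
        G1 p0 (x0.1 + z.1 * 1))).eventually_ne (by simpa using hG1)
    have a3 : ∀ᶠ z : ℝ × ℝ in 𝓝 (0, 0), D1 p0 (x0.2 + z.2 * 1) ≠ 0 :=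
      (Continuous.continuousAt (by fun_prop : Continuous fun z : ℝ × ℝ =>
        D1 p0 (x0.2 + z.2 * 1))).eventually_ne (by simpa using hD)
    obtain ⟨ε, hε, H⟩ := Metric.eventually_nhds_iff.1 (a1.and (a2.and a3))
    refine ⟨ε, hε, fun t t' h1 h2 => ?_⟩
    have := @H (t, t') (by
      rw [Prod.dist_eq, Real.dist_eq, Real.dist_eq, sub_zero, sub_zero]
      exact max_lt h1 h2)
    exact this
  have ev : ∀ᶠ t : ℝ in 𝓝 0, |t| < ε := by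
    have := Metric.ball_mem_nhds (0:ℝ) hε
    filter_upwards [this] with t ht
    rwa [mem_ball, Real.dist_eq, sub_zero] at ht
  have hN' : qom p0.1.1 p0.2.1.1 p0.2.2.1.1 p0.2.2.1.2 p0.2.2.2.1 (y0.1, x0.1) -
      qsg p0.1.1 p0.1.2 p0.2.1.1 p0.2.1.2 p0.2.2.1.1 p0.2.2.1.2 p0.2.2.2.1 (y0.2, x0.2) = 0 := by
    rw [← om_zero (W := W) h (y0.1, x0.1) hG1, ← sg_zero (W := W) h (y0.2, x0.2)]
    exact hN
  obtain ⟨u, e, Gu, Ge, Gue, k1, k2, k3, k4, k5, k6⟩ := qnd p0.1.1 p0.1.2 p0.2.1.1 p0.2.1.2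
    p0.2.2.1.1 p0.2.2.1.2 p0.2.2.2.1 y0.1 x0.1 y0.2 x0.2 hg1 hG1 hG2 hD he2 hΔ hN'
  have hΓ : ∀ t t' : ℝ, |t| < ε → |t'| < ε →
      (fam W).Γ p0 (y0.1 + t * u, x0.1 + t * 1) (y0.2 + t' * e, x0.2 + t' * 1) =
      qG p0.1.1 p0.1.2 p0.2.1.1 p0.2.1.2 p0.2.2.1.1 p0.2.2.1.2 p0.2.2.2.1
        (y0.1 + t * u, x0.1 + t * 1) (y0.2 + t' * e, x0.2 + t' * 1) := by
    intro t t' h1 h2
    obtain ⟨g1, g2, g3⟩ := hgood t t' h1 h2
    exact Γ_zero h _ _ g1 hg1 g2 g3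
  have e00 : |(0:ℝ)| < ε := by simpa using hε
  have z1 : ∀ x w : ℝ, x + 0 * w = x := fun x w => by ring
  refine ⟨hN, ?_, ?_, ?_, (u, 1), (e, 1), ?_, ?_, ?_⟩
  · -- da
    have h1 : ∀ᶠ a in 𝓝 x0.1, oo (p0, y0.1, a) = 2 * e1 p0 y0.1 * a / G1 p0 a := by
      filter_upwards [cG.continuousAt.eventually_ne hG1] with a ha
      simp only [oo, m1_zero h]
      have e' : p0.2.2.1.1 - p0.2.1.1 * p0.1.1 * a = G1 p0 a := rfl
      rw [div_eq_div_iff (pow_ne_zero 2 ha) ha, ← e']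
      ring
    have h2 : HasDerivAt (fun a => 2 * e1 p0 y0.1 * a / G1 p0 a)
        (2 * e1 p0 y0.1 * p0.2.2.1.1 / G1 p0 x0.1 ^ 2) x0.1 := by
      have a1 : HasDerivAt (fun a : ℝ => 2 * e1 p0 y0.1 * a) (2 * e1 p0 y0.1) x0.1 := by
        simpa using (hasDerivAt_id x0.1).const_mul (2 * e1 p0 y0.1)
      have a2 : HasDerivAt (fun a : ℝ => G1 p0 a) (-(p0.2.1.1 * p0.1.1)) x0.1 := by
        unfold G1
        simpa using ((hasDerivAt_id x0.1).const_mul (p0.2.1.1 * p0.1.1)).const_sub p0.2.2.1.1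
      refine HasDerivAt.congr_deriv (a1.fun_div a2 hG1) ?_
      congr 1
      unfold G1
      ring
    have h3 : deriv (fun a => (fam W).o1 (p0, y0.1, a)) x0.1 =
        2 * e1 p0 y0.1 * p0.2.2.1.1 / G1 p0 x0.1 ^ 2 := by
      rw [← h2.deriv]
      exact Filter.EventuallyEq.deriv_eq h1
    rw [h3]
    exact div_ne_zero (mul_ne_zero (mul_ne_zero two_ne_zero he1) hg1) (pow_ne_zero 2 hG1)
  · -- dy
    have h1 : (fun y => (fam W).om p0 (y, x0.1)) = fun y => qom p0.1.1 p0.2.1.1 p0.2.2.1.1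
        p0.2.2.1.2 p0.2.2.2.1 (y, x0.1) := funext fun y => om_zero h (y, x0.1) hG1
    have h2 : HasDerivAt (fun y => qom p0.1.1 p0.2.1.1 p0.2.2.1.1 p0.2.2.1.2 p0.2.2.2.1
        (y, x0.1)) (2 * p0.2.2.1.1 / G1 p0 x0.1) y0.1 := by
      unfold qom
      have := ((((hasDerivAt_id y0.1).const_mul p0.2.2.1.1).sub_const
        (p0.2.2.2.1 * p0.2.2.1.2 * p0.1.1 * x0.1)).const_mul 2).div_const
        (p0.2.2.1.1 - p0.2.1.1 * p0.1.1 * x0.1)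
      rw [mul_one] at this
      exact this
    rw [h1, h2.deriv]
    exact div_ne_zero (mul_ne_zero two_ne_zero hg1) hG1
  · -- dy'
    have h1 : (fun y => (fam W).sg p0 (y, x0.2)) = fun y => qsg p0.1.1 p0.1.2 p0.2.1.1 p0.2.1.2
        p0.2.2.1.1 p0.2.2.1.2 p0.2.2.2.1 (y, x0.2) := funext fun y => sg_zero h (y, x0.2)
    have h2 : HasDerivAt (fun y => qsg p0.1.1 p0.1.2 p0.2.1.1 p0.2.1.2
        p0.2.2.1.1 p0.2.2.1.2 p0.2.2.2.1 (y, x0.2))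
        (-(2 * (p0.2.2.1.1 * (p0.2.2.1.2 - p0.2.1.1 * p0.1.2 * x0.2))) /
          qD1 p0.1.1 p0.1.2 p0.2.1.1 p0.2.1.2 p0.2.2.1.1 p0.2.2.1.2 x0.2) y0.2 := by
      unfold qsg
      have := ((((((hasDerivAt_id y0.2).const_mul (p0.2.2.1.1 *
        (p0.2.2.1.2 - p0.2.1.1 * p0.1.2 * x0.2))).sub_const
        (p0.2.2.2.1 * p0.2.2.1.1 ^ 2 * p0.1.2 * x0.2)).sub_const
        (p0.2.2.2.1 * p0.2.2.1.2 * p0.1.1 * (p0.2.1.2 + 2 * p0.2.2.1.2 * x0.2 -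
          p0.2.1.1 * p0.1.2 * x0.2 ^ 2))).const_mul 2).fun_neg).div_const
        (qD1 p0.1.1 p0.1.2 p0.2.1.1 p0.2.1.2 p0.2.2.1.1 p0.2.2.1.2 x0.2)
      rw [mul_one] at this
      exact this
    rw [h1, h2.deriv]
    exact div_ne_zero (neg_ne_zero.2 (mul_ne_zero two_ne_zero (mul_ne_zero hg1 hG2))) hD
  · have h1 : (fun t : ℝ => (fam W).om p0 (y0.1 + t * (u, (1:ℝ)).1, x0.1 + t * (u, (1:ℝ)).2))
        =ᶠ[𝓝 0] fun t => qom p0.1.1 p0.2.1.1 p0.2.2.1.1 p0.2.2.1.2 p0.2.2.2.1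
        (y0.1 + t * u, x0.1 + t * 1) := by
      filter_upwards [ev] with t ht
      exact om_zero h _ (hgood t 0 ht e00).2.1
    rw [h1.deriv_eq]
    exact k1.deriv
  · have h1 : (fun t : ℝ => (fam W).sg p0 (y0.2 + t * (e, (1:ℝ)).1, x0.2 + t * (e, (1:ℝ)).2))
        = fun t => qsg p0.1.1 p0.1.2 p0.2.1.1 p0.2.1.2 p0.2.2.1.1 p0.2.2.1.2 p0.2.2.2.1
        (y0.2 + t * e, x0.2 + t * 1) := funext fun t => sg_zero h _
    rw [h1]
    exact k2.deriv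
  · simp only
    -- the inner derivative
    have hin : ∀ t' : ℝ, |t'| < ε → deriv (fun t : ℝ => (fam W).Γ p0
        (y0.1 + t * u, x0.1 + t * 1) (y0.2 + t' * e, x0.2 + t' * 1)) 0 = Gu t' := by
      intro t' ht'
      have h1 : (fun t : ℝ => (fam W).Γ p0
          (y0.1 + t * u, x0.1 + t * 1) (y0.2 + t' * e, x0.2 + t' * 1)) =ᶠ[𝓝 0]
          fun t => qG p0.1.1 p0.1.2 p0.2.1.1 p0.2.1.2 p0.2.2.1.1 p0.2.2.1.2 p0.2.2.2.1
          (y0.1 + t * u, x0.1 + t * 1) (y0.2 + t' * e, x0.2 + t' * 1) := by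
        filter_upwards [ev] with t ht
        exact hΓ t t' ht ht'
      rw [h1.deriv_eq]
      exact (k3 t' (hgood 0 t' e00 ht').2.2).deriv
    have r1 : deriv (fun t' : ℝ => deriv (fun t : ℝ => (fam W).Γ p0
        (y0.1 + t * u, x0.1 + t * 1) (y0.2 + t' * e, x0.2 + t' * 1)) 0) 0 = Gue := by
      have h1 : (fun t' : ℝ => deriv (fun t : ℝ => (fam W).Γ p0
          (y0.1 + t * u, x0.1 + t * 1) (y0.2 + t' * e, x0.2 + t' * 1)) 0) =ᶠ[𝓝 0] Gu := by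
        filter_upwards [ev] with t' ht'
        exact hin t' ht'
      rw [h1.deriv_eq]
      exact k5.deriv
    have r2 : deriv (fun t : ℝ => (fam W).Γ p0 (y0.1 + t * u, x0.1 + t * 1) (y0.2, x0.2)) 0 =
        Gu 0 := by
      have := hin 0 e00
      simpa only [z1] using this
    have r3 : deriv (fun t' : ℝ => (fam W).Γ p0 (y0.1, x0.1) (y0.2 + t' * e, x0.2 + t' * 1)) 0 =
        Ge := by
      have h1 : (fun t' : ℝ => (fam W).Γ p0 (y0.1, x0.1) (y0.2 + t' * e, x0.2 + t' * 1))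
          =ᶠ[𝓝 0] fun t' => qG p0.1.1 p0.1.2 p0.2.1.1 p0.2.1.2 p0.2.2.1.1 p0.2.2.1.2 p0.2.2.2.1
          (y0.1, x0.1) (y0.2 + t' * e, x0.2 + t' * 1) := by
        filter_upwards [ev] with t' ht'
        have := hΓ 0 t' e00 ht'
        simpa only [z1] using this
      rw [h1.deriv_eq]
      exact k4.deriv
    have r4 : (fam W).Γ p0 (y0.1, x0.1) (y0.2, x0.2) = qG p0.1.1 p0.1.2 p0.2.1.1 p0.2.1.2
        p0.2.2.1.1 p0.2.2.1.2 p0.2.2.2.1 (y0.1, x0.1) (y0.2, x0.2) := by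
      have := hΓ 0 0 e00 e00
      simpa only [z1] using this
    rw [r1, r2, r3, r4]
    exact k6

end Pool.Agent.SDT.N1G.Qf

end -- N1G.Qd
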