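import Pool.Agent.SDT.B15

set_option autoImplicit false

namespace Pool.Agent.SDT.MP_6cbfb8_an
end Pool.Agent.SDT.MP_6cbfb8_an
namespace Pool.Agent.SDT.MST
end Pool.Agent.SDT.MST
namespace Pool.Agent.SDT.N1
end Pool.Agent.SDT.N1
namespace Pool.Agent.SDT.N1F
end Pool.Agent.SDT.N1F
namespace Pool.Agent.SDT.N1G
end Pool.Agent.SDT.N1G

section -- N1M.E4

/-!
N1M, block M4: E_DD4 and E_strip4. The phase of a rectangle is a sum of four terms of known sign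
and size.
-/

namespace Pool.Agent.SDT.N1M

open MeasureTheory Set Metric Pool.Agent.SDT.MP_6cbfb8_an Pool.Agent.SDT.MST Pool.Agent.SDT.N1
open Pool.Agent.SDT.N1F Pool.Agent.SDT.N1G
open scoped ENNReal Real ContDiff

/-- The positive kernel of a second difference of square roots. -/
noncomputable def K4 (g1 g2 g3 g4 : ℝ) : ℝ :=
  (1 / (√g1 + √g3) + 1 / (√g2 + √g4)) / ((√g1 + √g2) * (√g3 + √g4))

/-- Second difference of square roots. -/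
theorem sq_four (g1 g2 g3 g4 : ℝ) (h1 : 0 < g1) (h2 : 0 < g2) (h3 : 0 < g3) (h4 : 0 < g4) :
    √g1 - √g2 - √g3 + √g4 = (g1 - g2 - g3 + g4) / (√g1 + √g2) +
      (g3 - g4) * ((g3 - g1) / (√g1 + √g3) + (g4 - g2) / (√g2 + √g4)) /
        ((√g1 + √g2) * (√g3 + √g4)) := by
  have e1 := Real.sq_sqrt h1.le
  have e2 := Real.sq_sqrt h2.le
  have e3 := Real.sq_sqrt h3.le
  have e4 := Real.sq_sqrt h4.le
  have p1 := Real.sqrt_pos.2 h1
  have p2 := Real.sqrt_pos.2 h2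
  have p3 := Real.sqrt_pos.2 h3
  have p4 := Real.sqrt_pos.2 h4
  set s1 := √g1
  set s2 := √g2
  set s3 := √g3
  set s4 := √g4
  rw [← e1, ← e2, ← e3, ← e4]
  field_simp
  ring

/-- If the second difference of `g` vanishes. -/
theorem sq_four_mix (g1 g2 g3 g4 : ℝ) (h1 : 0 < g1) (h2 : 0 < g2) (h3 : 0 < g3) (h4 : 0 < g4)
    (h : g3 - g1 = g4 - g2) :
    √g1 - √g2 - √g3 + √g4 = (g3 - g4) * (g3 - g1) * K4 g1 g2 g3 g4 := by
  rw [sq_four g1 g2 g3 g4 h1 h2 h3 h4, ← h]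
  have : g1 - g2 - g3 + g4 = 0 := by linarith
  rw [this]
  unfold K4
  have p1 := Real.sqrt_pos.2 h1
  have p2 := Real.sqrt_pos.2 h2
  have p3 := Real.sqrt_pos.2 h3
  have p4 := Real.sqrt_pos.2 h4
  field_simp
  ring

theorem sqrt_bd (c g : ℝ) (hc : 0 < c) (h1 : c ^ 2 / 8 ≤ g) (h2 : g ≤ 8) :
    c / 3 ≤ √g ∧ √g ≤ 3 := by
  constructor
  · apply Real.le_sqrt_of_sq_le
    nlinarith [sq_nonneg c]
  · rw [Real.sqrt_le_left (by norm_num)]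
    linarith

theorem inv_bd (c g g' : ℝ) (hc : 0 < c) (h1 : c ^ 2 / 8 ≤ g) (h2 : g ≤ 8)
    (h1' : c ^ 2 / 8 ≤ g') (h2' : g' ≤ 8) :
    0 < √g + √g' ∧ 1 / 6 ≤ 1 / (√g + √g') ∧ 1 / (√g + √g') ≤ 3 / (2 * c) := by
  obtain ⟨a1, a2⟩ := sqrt_bd c g hc h1 h2
  obtain ⟨b1, b2⟩ := sqrt_bd c g' hc h1' h2'
  have hp : 0 < √g + √g' := by linarith
  refine ⟨hp, ?_, ?_⟩
  · exact one_div_le_one_div_of_le hp (by linarith)
  · rw [div_le_div_iff₀ hp (by linarith)]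
    linarith

theorem K4_bd (c g1 g2 g3 g4 : ℝ) (hc : 0 < c) (h1 : c ^ 2 / 8 ≤ g1) (h2 : c ^ 2 / 8 ≤ g2)
    (h3 : c ^ 2 / 8 ≤ g3) (h4 : c ^ 2 / 8 ≤ g4) (k1 : g1 ≤ 8) (k2 : g2 ≤ 8) (k3 : g3 ≤ 8)
    (k4 : g4 ≤ 8) : 1 / 108 ≤ K4 g1 g2 g3 g4 ∧ K4 g1 g2 g3 g4 ≤ 27 / (4 * c ^ 3) := by
  obtain ⟨p13, l13, u13⟩ := inv_bd c g1 g3 hc h1 k1 h3 k3
  obtain ⟨p24, l24, u24⟩ := inv_bd c g2 g4 hc h2 k2 h4 k4
  obtain ⟨p12, l12, u12⟩ := inv_bd c g1 g2 hc h1 k1 h2 k2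
  obtain ⟨p34, l34, u34⟩ := inv_bd c g3 g4 hc h3 k3 h4 k4
  have e : K4 g1 g2 g3 g4 = (1 / (√g1 + √g3) + 1 / (√g2 + √g4)) *
      ((1 / (√g1 + √g2)) * (1 / (√g3 + √g4))) := by
    unfold K4
    field_simp
  rw [e]
  constructor
  · calc (1 : ℝ) / 108 = (1 / 6 + 1 / 6) * ((1 / 6) * (1 / 6)) := by norm_num
      _ ≤ _ := by gcongr
  · calc (1 / (√g1 + √g3) + 1 / (√g2 + √g4)) * ((1 / (√g1 + √g2)) * (1 / (√g3 + √g4)))
        ≤ (3 / (2 * c) + 3 / (2 * c)) * ((3 / (2 * c)) * (3 / (2 * c))) := by gcongr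
      _ = 27 / (4 * c ^ 3) := by field_simp; ring

/-- Dominance in a sum of four terms. -/
theorem dom4 (C0 : ℝ) (hC0 : 1 ≤ C0) (x1 x2 x3 x4 f1 f2 f3 f4 : ℝ) (g1 : 1 / C0 ≤ f1)
    (g2 : 0 < f2) (g2' : f2 ≤ C0) (g3 : 0 < f3) (g3' : f3 ≤ C0) (g4 : 0 < f4) (g4' : f4 ≤ C0)
    (k2 : 6 * C0 ^ 2 * |x2| ≤ |x1|) (k3 : 6 * C0 ^ 2 * |x3| ≤ |x1|)
    (k4 : 6 * C0 ^ 2 * |x4| ≤ |x1|) :
    1 / (2 * C0) * |x1| ≤ |x1 * f1 + x2 * f2 + x3 * f3 + x4 * f4| := by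
  have hC : 0 < C0 := by linarith
  have hf1 : 0 < f1 := lt_of_lt_of_le (by positivity) g1
  have b : ∀ x f : ℝ, 0 < f → f ≤ C0 → 6 * C0 ^ 2 * |x| ≤ |x1| → |x * f| ≤ |x1| / (6 * C0) := by
    intro x f hf hf' hx
    rw [abs_mul, abs_of_pos hf, le_div_iff₀ (by positivity)]
    calc |x| * f * (6 * C0) ≤ |x| * C0 * (6 * C0) := by gcongr
      _ = 6 * C0 ^ 2 * |x| := by ring
      _ ≤ |x1| := hx
  have b2 := b x2 f2 g2 g2' k2
  have b3 := b x3 f3 g3 g3' k3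
  have b4 := b x4 f4 g4 g4' k4
  have b1 : |x1| / C0 ≤ |x1 * f1| := by
    rw [abs_mul, abs_of_pos hf1, div_eq_mul_one_div]
    exact mul_le_mul_of_nonneg_left g1 (abs_nonneg _)
  have hsum : |x1 * f1| ≤ |x1 * f1 + x2 * f2 + x3 * f3 + x4 * f4| + |x2 * f2| + |x3 * f3| +
      |x4 * f4| := by
    have e : x1 * f1 = (x1 * f1 + x2 * f2 + x3 * f3 + x4 * f4) + (-(x2 * f2)) + (-(x3 * f3)) +
        (-(x4 * f4)) := by ring
    calc |x1 * f1| = |(x1 * f1 + x2 * f2 + x3 * f3 + x4 * f4) + (-(x2 * f2)) + (-(x3 * f3)) +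
        (-(x4 * f4))| := by rw [← e]
      _ ≤ |(x1 * f1 + x2 * f2 + x3 * f3 + x4 * f4) + (-(x2 * f2)) + (-(x3 * f3))| +
          |-(x4 * f4)| := abs_add_le _ _
      _ ≤ |(x1 * f1 + x2 * f2 + x3 * f3 + x4 * f4) + (-(x2 * f2))| + |-(x3 * f3)| +
          |-(x4 * f4)| := by gcongr; exact abs_add_le _ _
      _ ≤ |x1 * f1 + x2 * f2 + x3 * f3 + x4 * f4| + |-(x2 * f2)| + |-(x3 * f3)| +
          |-(x4 * f4)| := by gcongr; exact abs_add_le _ _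
      _ = _ := by simp only [abs_neg]
  have e1 : 1 / (2 * C0) * |x1| = |x1| / C0 - |x1| / (6 * C0) - |x1| / (6 * C0) -
      |x1| / (6 * C0) := by
    field_simp
    ring
  rw [e1]
  linarith

/-- Differences of `h`. -/
theorem hm_sub (m r r' : ℝ) : hm m r - hm m r' = (r - r') * (bm m r + bm m r') := by
  unfold hm bm
  ring

theorem Rg_bd (m r : ℝ) (hm0 : 0 ≤ m) (h : Rg m r) :
    1 / 4 ≤ hm m r ∧ hm m r ≤ 8 ∧ 1 / 2 ≤ bm m r ∧ bm m r ≤ 1 := by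
  obtain ⟨h1, h2, h3, h4⟩ := h
  refine ⟨h3, ?_, h4, ?_⟩
  · unfold hm
    nlinarith [mul_nonneg hm0 (sq_nonneg r)]
  · unfold bm
    nlinarith [mul_nonneg hm0 h1.le]

/-- The second difference in `r`. -/
theorem diff_r (c m u r y z : ℝ) (hc : 0 < c) (hm0 : 0 ≤ m) (hm1 : m ≤ 1) (hu : 0 ≤ u)
    (r1 : Rg m r) (r2 : Rg m (r - y)) (r3 : Rg m (r - z)) (r4 : Rg m (r - y - z))
    (h1 : c ^ 2 / 8 ≤ hm m r - u) (h2 : c ^ 2 / 8 ≤ hm m (r - y) - u)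
    (h3 : c ^ 2 / 8 ≤ hm m (r - z) - u) (h4 : c ^ 2 / 8 ≤ hm m (r - y - z) - u) :
    ∃ e : ℝ, 1 / 108 ≤ e ∧ e ≤ 3 / c + 27 / c ^ 3 ∧
      √(hm m r - u) - √(hm m (r - y) - u) - √(hm m (r - z) - u) + √(hm m (r - y - z) - u) =
        -(y * z) * e := by
  have hc2 : 0 < c ^ 2 / 8 := by positivity
  obtain ⟨-, u1, l1, k1⟩ := Rg_bd m r hm0 r1
  obtain ⟨-, u2, l2, k2⟩ := Rg_bd m _ hm0 r2
  obtain ⟨-, u3, l3, k3⟩ := Rg_bd m _ hm0 r3
  obtain ⟨-, u4, l4, k4⟩ := Rg_bd m _ hm0 r4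
  obtain ⟨p12, l12, b12⟩ := inv_bd c _ _ hc h1 (by linarith) h2 (by linarith)
  obtain ⟨p34, l34, b34⟩ := inv_bd c _ _ hc h3 (by linarith) h4 (by linarith)
  obtain ⟨p13, l13, b13⟩ := inv_bd c _ _ hc h1 (by linarith) h3 (by linarith)
  obtain ⟨p24, l24, b24⟩ := inv_bd c _ _ hc h2 (by linarith) h4 (by linarith)
  rw [sq_four _ _ _ _ (by linarith) (by linarith) (by linarith) (by linarith)]
  have d0 : (hm m r - u) - (hm m (r - y) - u) - (hm m (r - z) - u) + (hm m (r - y - z) - u) =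
      -(y * z) * (2 * m) := by
    unfold hm
    ring
  have d1 : (hm m (r - z) - u) - (hm m (r - y - z) - u) =
      y * (bm m (r - z) + bm m (r - y - z)) := by
    unfold hm bm
    ring
  have d2 : (hm m (r - z) - u) - (hm m r - u) = -z * (bm m r + bm m (r - z)) := by
    unfold hm bm
    ring
  have d3 : (hm m (r - y - z) - u) - (hm m (r - y) - u) =
      -z * (bm m (r - y) + bm m (r - y - z)) := by
    unfold hm bm
    ring
  rw [d0, d1, d2, d3]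
  set S12 := √(hm m r - u) + √(hm m (r - y) - u)
  set S34 := √(hm m (r - z) - u) + √(hm m (r - y - z) - u)
  set S13 := √(hm m r - u) + √(hm m (r - z) - u)
  set S24 := √(hm m (r - y) - u) + √(hm m (r - y - z) - u)
  refine ⟨2 * m * (1 / S12) + (bm m (r - z) + bm m (r - y - z)) *
    ((bm m r + bm m (r - z)) * (1 / S13) + (bm m (r - y) + bm m (r - y - z)) * (1 / S24)) *
      ((1 / S12) * (1 / S34)), ?_, ?_, ?_⟩
  · have q1 : 0 ≤ 2 * m * (1 / S12) := by positivity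
    have q2 : (1 : ℝ) / 108 ≤ (bm m (r - z) + bm m (r - y - z)) *
      ((bm m r + bm m (r - z)) * (1 / S13) + (bm m (r - y) + bm m (r - y - z)) * (1 / S24)) *
      ((1 / S12) * (1 / S34)) := by
      calc (1 : ℝ) / 108 = (1 / 2 + 1 / 2) * ((1 / 2 + 1 / 2) * (1 / 6) +
          (1 / 2 + 1 / 2) * (1 / 6)) * ((1 / 6) * (1 / 6)) := by norm_num
        _ ≤ _ := by gcongr
    linarith
  · have q1 : 2 * m * (1 / S12) ≤ 2 * 1 * (3 / (2 * c)) := by gcongr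
    have q2 : (bm m (r - z) + bm m (r - y - z)) *
      ((bm m r + bm m (r - z)) * (1 / S13) + (bm m (r - y) + bm m (r - y - z)) * (1 / S24)) *
      ((1 / S12) * (1 / S34)) ≤ (1 + 1) * ((1 + 1) * (3 / (2 * c)) + (1 + 1) * (3 / (2 * c))) *
        ((3 / (2 * c)) * (3 / (2 * c))) := by
      gcongr
    have q3 : (2 : ℝ) * 1 * (3 / (2 * c)) + (1 + 1) * ((1 + 1) * (3 / (2 * c)) +
        (1 + 1) * (3 / (2 * c))) * ((3 / (2 * c)) * (3 / (2 * c))) = 3 / c + 27 / c ^ 3 := by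
      field_simp
      ring
    linarith
  · field_simp
    ring

/-- The second difference in `a`. -/
theorem diff_a (c p a y z : ℝ) (hc : 0 < c) (hp : p ≤ 8)
    (a1 : 0 ≤ a) (a2 : 0 ≤ a - y) (a3 : 0 ≤ a - z) (a4 : 0 ≤ a - y - z)
    (b1 : a ≤ 4) (b2 : a - y ≤ 4) (b3 : a - z ≤ 4) (b4 : a - y - z ≤ 4)
    (h1 : c ^ 2 / 8 ≤ p - a ^ 2) (h2 : c ^ 2 / 8 ≤ p - (a - y) ^ 2)
    (h3 : c ^ 2 / 8 ≤ p - (a - z) ^ 2) (h4 : c ^ 2 / 8 ≤ p - (a - y - z) ^ 2) :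
    ∃ e : ℝ, 1 / 3 ≤ e ∧ e ≤ 3 / c + 432 / c ^ 3 ∧
      √(p - a ^ 2) - √(p - (a - y) ^ 2) - √(p - (a - z) ^ 2) + √(p - (a - y - z) ^ 2) =
        -(y * z) * e := by
  have hc2 : 0 < c ^ 2 / 8 := by positivity
  obtain ⟨p12, l12, b12⟩ := inv_bd c _ _ hc h1 (by nlinarith) h2 (by nlinarith)
  obtain ⟨p34, l34, b34⟩ := inv_bd c _ _ hc h3 (by nlinarith) h4 (by nlinarith)
  obtain ⟨p13, l13, b13⟩ := inv_bd c _ _ hc h1 (by nlinarith) h3 (by nlinarith)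
  obtain ⟨p24, l24, b24⟩ := inv_bd c _ _ hc h2 (by nlinarith) h4 (by nlinarith)
  rw [sq_four _ _ _ _ (by linarith) (by linarith) (by linarith) (by linarith)]
  have d0 : (p - a ^ 2) - (p - (a - y) ^ 2) - (p - (a - z) ^ 2) + (p - (a - y - z) ^ 2) =
      -(y * z) * 2 := by
    ring
  have d1 : (p - (a - z) ^ 2) - (p - (a - y - z) ^ 2) = -y * ((a - z) + (a - y - z)) := by
    ring
  have d2 : (p - (a - z) ^ 2) - (p - a ^ 2) = z * (a + (a - z)) := by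
    ring
  have d3 : (p - (a - y - z) ^ 2) - (p - (a - y) ^ 2) = z * ((a - y) + (a - y - z)) := by
    ring
  rw [d0, d1, d2, d3]
  set S12 := √(p - a ^ 2) + √(p - (a - y) ^ 2)
  set S34 := √(p - (a - z) ^ 2) + √(p - (a - y - z) ^ 2)
  set S13 := √(p - a ^ 2) + √(p - (a - z) ^ 2)
  set S24 := √(p - (a - y) ^ 2) + √(p - (a - y - z) ^ 2)
  refine ⟨2 * (1 / S12) + ((a - z) + (a - y - z)) *
    ((a + (a - z)) * (1 / S13) + ((a - y) + (a - y - z)) * (1 / S24)) *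
      ((1 / S12) * (1 / S34)), ?_, ?_, ?_⟩
  · have q2 : 0 ≤ ((a - z) + (a - y - z)) *
      ((a + (a - z)) * (1 / S13) + ((a - y) + (a - y - z)) * (1 / S24)) *
      ((1 / S12) * (1 / S34)) := by
      have := add_nonneg a3 a4
      have := add_nonneg a1 a3
      have := add_nonneg a2 a4
      positivity
    linarith
  · have q1 : 2 * (1 / S12) ≤ 2 * (3 / (2 * c)) := by gcongr
    have q2 : ((a - z) + (a - y - z)) *
      ((a + (a - z)) * (1 / S13) + ((a - y) + (a - y - z)) * (1 / S24)) *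
      ((1 / S12) * (1 / S34)) ≤ (4 + 4) * ((4 + 4) * (3 / (2 * c)) + (4 + 4) * (3 / (2 * c))) *
        ((3 / (2 * c)) * (3 / (2 * c))) := by
      have i1 := add_nonneg a3 a4
      have i2 := add_nonneg a1 a3
      have i3 := add_nonneg a2 a4
      gcongr
    have q3 : (2 : ℝ) * (3 / (2 * c)) + (4 + 4) * ((4 + 4) * (3 / (2 * c)) +
        (4 + 4) * (3 / (2 * c))) * ((3 / (2 * c)) * (3 / (2 * c))) = 3 / c + 432 / c ^ 3 := by
      field_simp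
      ring
    linarith
  · field_simp
    ring

end Pool.Agent.SDT.N1M

end -- N1M.E4
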