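import Pool.Agent.SDT.B13
import Pool.Agent.SDT.B19
import Pool.Agent.SDT.B20

set_option autoImplicit false

namespace Pool.Agent.SDT.MP_6cbfb8_an
end Pool.Agent.SDT.MP_6cbfb8_an
namespace Pool.Agent.SDT.MST
end Pool.Agent.SDT.MST

section -- MP_6cbfb8_an.LiftF

namespace Pool.Agent.SDT.MP_6cbfb8_an

open MeasureTheory Set
open scoped ENNReal Real RealInnerProductSpace


lemma measurable_hsn {n : ℕ} (c : ℝ) (v : E n) : Measurable (hsn c v) := by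
  unfold hsn
  refine Measurable.ite ?_ measurable_const measurable_const
  exact measurableSet_lt measurable_const (by fun_prop)

lemma norm_hsn_le {n : ℕ} (c : ℝ) (v x : E n) : ‖hsn c v x‖ ≤ 1 := by
  unfold hsn
  split_ifs <;> simp

lemma norm_prod_hsn_le {n N : ℕ} (c : Fin N → ℝ) (v : Fin N → E n) (x : E n) :
    ‖∏ i, hsn (c i) (v i) x‖ ≤ 1 := by
  rw [norm_prod]
  exact Finset.prod_le_one (fun i _ => norm_nonneg _) fun i _ => norm_hsn_le _ _ _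

lemma measurable_prod_hsn {n N : ℕ} (c : Fin N → ℝ) (v : Fin N → E n) :
    Measurable fun x : E n => ∏ i, hsn (c i) (v i) x :=
  Finset.measurable_prod _ fun i _ => measurable_hsn _ _

theorem multicut (n : ℕ) (hn : 3 ≤ n) (p0 : ℝ) (hp0 : 1 ≤ p0) (cls : (E n → ℂ) → Prop)
    (H : ∀ p, p0 < p → ∃ C : ℝ≥0∞, C ≠ ∞ ∧ ∀ g, Measurable g → (∀ x, ‖g x‖ ≤ 1) → cls g →
      ∫⁻ ξ, ‖extn g ξ‖ₑ ^ p ≤ C) (N : ℕ) : ∀ p, p0 < p →
    ∃ C : ℝ≥0∞, C ≠ ∞ ∧ ∀ g, Measurable g → (∀ x, ‖g x‖ ≤ 1) → cls g →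
      ∀ (v : Fin N → E n) (c : Fin N → ℝ),
      ∫⁻ ξ, ‖extn (fun x => g x * ∏ i, hsn (c i) (v i) x) ξ‖ₑ ^ p ≤ C := by
  obtain ⟨j, rfl⟩ : ∃ j, n = j + 3 := ⟨n - 3, by omega⟩
  induction N with
  | zero =>
    intro p hp
    obtain ⟨C, hC, h⟩ := H p hp
    refine ⟨C, hC, fun g hg hb hc v c => ?_⟩
    simpa using h g hg hb hc
  | succ N ih =>
    intro p hp
    obtain ⟨C, hC, h⟩ := cut_bound j p0 hp0 (fun g' => ∃ g, Measurable g ∧ (∀ x, ‖g x‖ ≤ 1) ∧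
      cls g ∧ ∃ (v : Fin N → E (j + 3)) (c : Fin N → ℝ),
        g' = fun x => g x * ∏ i, hsn (c i) (v i) x) (by
      intro p' hp'
      obtain ⟨C, hC, h⟩ := ih p' hp'
      refine ⟨C, hC, ?_⟩
      rintro g' _ _ ⟨g, hg, hb, hc, v, c, rfl⟩
      exact h g hg hb hc v c) p hp
    refine ⟨C, hC, fun g hg hb hc v c => ?_⟩
    have h1 := h (fun x => g x * ∏ i, hsn (c (Fin.castSucc i)) (v (Fin.castSucc i)) x)
      (hg.mul (measurable_prod_hsn _ _)) (fun x => by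
        rw [norm_mul]
        exact mul_le_one₀ (hb x) (norm_nonneg _) (norm_prod_hsn_le _ _ x))
      ⟨g, hg, hb, hc, _, _, rfl⟩ (v (Fin.last N)) (c (Fin.last N))
    refine le_trans (le_of_eq ?_) h1
    refine lintegral_congr fun ξ => ?_
    congr 3
    funext x
    rw [Fin.prod_univ_castSucc]
    unfold hsn
    split_ifs <;> simp

lemma extn_congr_sphere {n : ℕ} {g g' : E n → ℂ} (h : ∀ x, ‖x‖ = 1 → g x = g' x) :
    extn g = extn g' := by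
  funext ξ
  unfold extn
  refine integral_congr_ae (Filter.Eventually.of_forall fun x => ?_)
  simp only
  rw [h x (by simp)]

/-- Truncation to the unit sphere. -/
noncomputable def onS {n : ℕ} (g : E n → ℂ) (x : E n) : ℂ := if ‖x‖ = 1 then g x else 0

lemma onS_eq {n : ℕ} (g : E n → ℂ) {x : E n} (h : ‖x‖ = 1) : onS g x = g x := if_pos h

lemma measurable_onS {n : ℕ} {g : E n → ℂ} (hg : Measurable g) : Measurable (onS g) := by
  unfold onS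
  refine Measurable.ite ?_ hg measurable_const
  exact measurableSet_eq_fun (by fun_prop) (by fun_prop)

lemma extn_onS {n : ℕ} (g : E n → ℂ) : extn (onS g) = extn g :=
  extn_congr_sphere fun _ h => onS_eq g h

lemma norm_onS_le {n : ℕ} {g : E n → ℂ} {B : ℝ} (hB : 0 ≤ B) (h : ∀ x, ‖x‖ = 1 → ‖g x‖ ≤ B)
    (x : E n) : ‖onS g x‖ ≤ B := by
  unfold onS
  split_ifs with h1
  · exact h x h1
  · simpa using hB

lemma measurable_tpow {k : ℕ} (j : ℕ) {G : E (k + 1) → ℂ} (hG : Measurable G) :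
    Measurable (tpow j G) := by
  unfold tpow
  refine Measurable.ite ?_ ?_ measurable_const
  · exact measurableSet_lt measurable_const (by fun_prop)
  · have : Measurable fun x : E (k + 1) => (((x (Fin.last k)) ^ j : ℝ) : ℂ) := by fun_prop
    exact hG.mul this

lemma abs_last_le {k : ℕ} (x : E (k + 1)) : |x (Fin.last k)| ≤ ‖x‖ := by
  have := PiLp.norm_apply_le x (Fin.last k)
  simpa using this

lemma norm_tpow_le {k : ℕ} (j : ℕ) {G : E (k + 1) → ℂ} (hb : ∀ x, ‖G x‖ ≤ 1) (x : E (k + 1))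
    (hx : ‖x‖ = 1) : ‖tpow j G x‖ ≤ 1 := by
  unfold tpow
  split_ifs with h
  · rw [norm_mul, Complex.norm_real, Real.norm_eq_abs, abs_pow]
    refine mul_le_one₀ (hb x) (by positivity) (pow_le_one₀ (abs_nonneg _) ?_)
    rw [← hx]
    exact abs_last_le x
  · simp

lemma angEnergy_tpow_le {n : ℕ} (s : ℝ) (j : ℕ) (G : E (n + 1) → ℂ) :
    angEnergy s (onS (tpow j G)) ≤ angEnergy s G := by
  unfold angEnergy
  refine setLIntegral_mono' measurableSet_Ioo fun θ _ => ?_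
  gcongr with ω ω'
  rw [onS_eq _ (norm_pt θ ω), onS_eq _ (norm_pt θ ω')]
  unfold tpow
  rw [pt_last, pt_last]
  split_ifs with h
  · rw [← sub_mul, enorm_mul]
    have : ‖(((Real.cos θ) ^ j : ℝ) : ℂ)‖ₑ ≤ 1 := by
      rw [← ofReal_norm, Complex.norm_real, Real.norm_eq_abs, abs_pow]
      exact ENNReal.ofReal_le_one.2 (pow_le_one₀ (abs_nonneg _) (Real.abs_cos_le_one θ))
    calc ‖G (pt θ (ω : E n)) - G (pt θ (ω' : E n))‖ₑ * ‖(((Real.cos θ) ^ j : ℝ) : ℂ)‖ₑ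
        ≤ ‖G (pt θ (ω : E n)) - G (pt θ (ω' : E n))‖ₑ * 1 := by gcongr
      _ = _ := mul_one _
  · simp




lemma continuous_fstE {k l : ℕ} : Continuous (fstE : E (k + l) → E k) := by
  unfold fstE
  refine (PiLp.continuous_toLp 2 _).comp ?_
  fun_prop

lemma continuous_sndE {k l : ℕ} : Continuous (sndE : E (k + l) → E l) := by
  unfold sndE
  refine (PiLp.continuous_toLp 2 _).comp ?_
  fun_prop

lemma measurable_lift {k l : ℕ} {G : E (k + 1) → ℂ} (hG : Measurable G) :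
    Measurable (lift G : E (k + l) → ℂ) := by
  unfold lift
  refine hG.comp ?_
  exact (continuous_join.comp (continuous_fstE.prodMk continuous_sndE.norm)).measurable


/-- The class of block densities. -/
def blockCls (k l : ℕ) (s : ℝ) (g : E (k + l) → ℂ) : Prop :=
  ∃ G : E (k + 1) → ℂ, Measurable G ∧ (∀ x, ‖G x‖ ≤ 1) ∧ angEnergy s G ≤ 1 ∧ g = lift G


/-- The measure `m c^(m-1) dc` on `(0,1)`. -/
noncomputable def powν (j : ℕ) : Measure ℝ :=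
  (volume.restrict (Ioo (0:ℝ) 1)).withDensity fun c => ENNReal.ofReal (((j : ℝ) + 1) * c ^ j)

lemma powν_Iio (j : ℕ) {t : ℝ} (h0 : 0 < t) (h1 : t ≤ 1) :
    powν j (Iio t) = ENNReal.ofReal (t ^ (j + 1)) := by
  unfold powν
  rw [withDensity_apply _ measurableSet_Iio, Measure.restrict_restrict measurableSet_Iio]
  have e : Iio t ∩ Ioo (0:ℝ) 1 = Ioo 0 t := by
    ext x
    simp only [mem_inter_iff, mem_Iio, mem_Ioo]
    constructor
    · rintro ⟨h2, h3, h4⟩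
      exact ⟨h3, h2⟩
    · rintro ⟨h2, h3⟩
      exact ⟨h3, h2, lt_of_lt_of_le h3 h1⟩
  rw [e, ← ofReal_integral_eq_lintegral_ofReal]
  · congr 1
    rw [← integral_Ioc_eq_integral_Ioo, ← intervalIntegral.integral_of_le h0.le,
      intervalIntegral.integral_const_mul, integral_pow]
    have : (j:ℝ) + 1 ≠ 0 := by positivity
    field_simp
    simp
  · have hc : Continuous fun c : ℝ => ((j : ℝ) + 1) * c ^ j := by fun_prop
    exact (hc.integrableOn_Icc (a := 0) (b := t)).mono_set Ioo_subset_Icc_self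
  · refine (ae_restrict_iff' measurableSet_Ioo).2 (Filter.Eventually.of_forall fun x hx => ?_)
    have := hx.1
    simp only [Pi.zero_apply]
    positivity

lemma powν_Iio_neg (j : ℕ) {t : ℝ} (h0 : t ≤ 0) : powν j (Iio t) = 0 := by
  unfold powν
  rw [withDensity_apply _ measurableSet_Iio, Measure.restrict_restrict measurableSet_Iio]
  have e : Iio t ∩ Ioo (0:ℝ) 1 = ∅ := by
    ext x
    simp only [mem_inter_iff, mem_Iio, mem_Ioo, mem_empty_iff_false, iff_false]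
    rintro ⟨h2, h3, h4⟩
    linarith
  rw [e]
  simp

instance (j : ℕ) : IsFiniteMeasure (powν j) := by
  unfold powν
  refine isFiniteMeasure_withDensity_ofReal ?_
  have hc : Continuous fun c : ℝ => ((j : ℝ) + 1) * c ^ j := by fun_prop
  exact ((hc.integrableOn_Icc (a := 0) (b := 1)).mono_set Ioo_subset_Icc_self).2

lemma inner_eLast2 (x : E 3) : inner ℝ x (eLast 2) = x (Fin.last 2) := inner_eLast x


/-- The function on `R^(2+l)` whose value at `x` is `h` of the polar angle in `(-π, π]` of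
`(x_1, x_2)`. -/
noncomputable def longi {l : ℕ} (h : ℝ → ℂ) (x : E (2 + l)) : ℂ :=
  h (Complex.arg ⟨x (Fin.castAdd l 0), x (Fin.castAdd l 1)⟩)



lemma measurable_longi_angle {l : ℕ} : Measurable fun x : E (2 + l) =>
    Complex.arg ⟨x (Fin.castAdd l 0), x (Fin.castAdd l 1)⟩ := by
  have h1 : Measurable fun x : E (2 + l) => (⟨x (Fin.castAdd l 0), x (Fin.castAdd l 1)⟩ : ℂ) := by
    have : Measurable fun x : E (2 + l) => (x (Fin.castAdd l 0), x (Fin.castAdd l 1)) := by fun_prop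
    exact Complex.measurableEquivRealProd.symm.measurable.comp this
  exact Complex.measurable_arg.comp h1

lemma measurable_longi {l : ℕ} {h : ℝ → ℂ} (hm : Measurable h) :
    Measurable (longi h : E (2 + l) → ℂ) :=
  hm.comp measurable_longi_angle



end Pool.Agent.SDT.MP_6cbfb8_an

end -- MP_6cbfb8_an.LiftF

section -- MST.FT

namespace Pool.Agent.SDT.MST

open MeasureTheory Set Pool.Agent.SDT.MP_6cbfb8_an
open scoped ENNReal Real

/-- smooth cut-off function: `0` below `c / 2`, `1` above `c` -/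
noncomputable def hft_b (c x : ℝ) : ℝ := Real.smoothTransition ((2 * x - c) / c)

/-- the amplitude belonging to `hft_b` -/
noncomputable def hft_a (c v : ℝ) : ℝ := hft_b c √v / √v

lemma hft_b_smooth (c : ℝ) (n : ℕ) : ContDiff ℝ n (hft_b c) := by
  unfold hft_b
  exact Real.smoothTransition.contDiff.comp (by fun_prop)

lemma hft_b_zero {c x : ℝ} (hc : 0 < c) (hx : x ≤ c / 2) : hft_b c x = 0 := by
  unfold hft_b
  apply Real.smoothTransition.zero_of_nonpos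
  exact div_nonpos_of_nonpos_of_nonneg (by linarith) hc.le

lemma hft_b_one {c x : ℝ} (hc : 0 < c) (hx : c ≤ x) : hft_b c x = 1 := by
  unfold hft_b
  apply Real.smoothTransition.one_of_one_le
  rw [le_div_iff₀ hc]
  linarith

lemma hft_b_abs (c x : ℝ) : |hft_b c x| ≤ 1 := by
  unfold hft_b
  rw [abs_of_nonneg (Real.smoothTransition.nonneg _)]
  exact Real.smoothTransition.le_one _

lemma hft_cut {c : ℝ} (hc : 0 < c) : Cut2 (c ^ 2 / 4) (hft_a c) := by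
  have h0 : ∀ v, v ≤ c ^ 2 / 4 → hft_a c v = 0 := by
    intro v hv
    unfold hft_a
    rw [hft_b_zero hc, zero_div]
    rw [Real.sqrt_le_left (by positivity)]
    linarith
  refine ⟨fun n => ?_, h0⟩
  rw [contDiff_iff_contDiffAt]
  intro v
  rcases lt_or_ge v (c ^ 2 / 4) with h | h
  · have h1 : hft_a c =ᶠ[nhds v] fun _ => 0 := by
      filter_upwards [Iio_mem_nhds h] with w hw
      exact h0 w (le_of_lt hw)
    exact contDiffAt_const.congr_of_eventuallyEq h1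
  · have hv : 0 < v := lt_of_lt_of_le (by positivity) h
    have h1 : ContDiffAt ℝ n (fun v => √v) v := Real.contDiffAt_sqrt hv.ne'
    have h2 : ContDiffAt ℝ n (fun v => hft_b c √v) v := (hft_b_smooth c n).contDiffAt.comp v h1
    exact h2.div h1 (Real.sqrt_pos.2 hv).ne'

/-- the smoothly cut density -/
noncomputable def hft_D {m : ℕ} (c : ℝ) (G : E m → ℂ) (M : Mat m) (x : E (m + 1)) : ℂ :=
  if 0 < x (Fin.last m) then
    G (mv M (fstE (k := m) (l := 1) x)) * ((hft_b c (x (Fin.last m)) : ℝ) : ℂ) else 0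

lemma hft_D_meas {m : ℕ} (c : ℝ) (G : E m → ℂ) (hG : Measurable G) (M : Mat m) :
    Measurable (hft_D c G M) := by
  unfold hft_D
  refine Measurable.ite ?_ ?_ measurable_const
  · exact measurableSet_lt measurable_const (by fun_prop)
  · refine Measurable.mul (hG.comp ?_) ?_
    · exact (continuous_mv.comp (continuous_const.prodMk
        (continuous_fstE (k := m) (l := 1)))).measurable
    · refine Complex.measurable_ofReal.comp ?_
      exact (hft_b_smooth c 0).continuous.measurable.comp (by fun_prop)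

lemma hft_D_norm {m : ℕ} (c : ℝ) (G : E m → ℂ) (hb : ∀ w, ‖G w‖ ≤ 1) (M : Mat m)
    (x : E (m + 1)) : ‖hft_D c G M x‖ ≤ 1 := by
  unfold hft_D
  split_ifs
  · rw [norm_mul, Complex.norm_real, Real.norm_eq_abs]
    exact mul_le_one₀ (hb _) (abs_nonneg _) (hft_b_abs _ _)
  · simp

lemma hft_meas {m : ℕ} (c0 : ℝ) (a : ℝ → ℝ) (ha : Cut2 c0 a) (G : E m → ℂ)
    (hG : Measurable G) (p : ℝ) :
    Measurable fun N : Mat m => ∫⁻ t : ℝ, ∫⁻ x : E m, ‖op2 a N t G x‖ₑ ^ p := by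
  have h1 : Measurable fun q : Mat m × ℝ × E m => ‖op2 a q.1 q.2.1 G q.2.2‖ₑ ^ p :=
    (measurable_op2 c0 a ha G hG).enorm.pow_const p
  have h2 : Measurable fun q : (Mat m × ℝ) × E m => ‖op2 a q.1.1 q.1.2 G q.2‖ₑ ^ p :=
    h1.comp (f := fun q : (Mat m × ℝ) × E m => (q.1.1, q.1.2, q.2)) (by fun_prop)
  exact h2.lintegral_prod_right'.lintegral_prod_right'




/-
ROW FT (1.8 h). Final assembly for linear images. Fix G, ‖G‖ ≤ 1 wlog. For j ∈ ℕ let c = 1/(j+1), β_j smooth with β_j = 1 on [c, ∞) and 0 on (-∞, c/2]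
(Real.smoothTransition), |β_j| ≤ 1; a_j v = β_j(√v)/√v for v > c²/4 (zero below): Cut2 (c²/4) a_j (smooth for v > 0, zero for v ≤ c²/4; as β_j(√v) = 0 there).
Step 1: for each j and each p = p0 + 1/(i+1), p0 = 2+2/m: Lp_local and measurability (measurable_op2) give locally a.e. N: ∫⁻ t ∫⁻ x ‖op2 a_j N t G x‖^p < ∞;
ae_local: for a.e. N all of them (countably many) hold and mv N is injective. Step 2: ae_inv with
good M := ∀ j i, ∫⁻ ξ ‖extn (D_j M) ξ‖^(p_i) < ∞, D_j M the density of chart_two (M = N⁻¹, inverse_mv). So for a.e. M, all j, and all p > p0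
(lintegral_rpow_le_sup, ‖extn‖ₑ ≤ B·sm univ): ∫⁻ ‖extn (D_j M)‖^p < ∞. Step 3: given c > 0 choose j with 1/(j+1) ≤ c. `multicut` for n = m+1, p0, and the
class {D_j M} (single element; ‖D_j M‖ ≤ 1), K+1 cuts, the first one hsn c (eLast m): G(mv M (fstE x)) * hsn c e x ∏ hsn = D_j M x * hsn c e x ∏ hsn,
because hsn c e x ≠ 0 means x_last > c ≥ 1/(j+1), where β_j = 1. p0 = 2+2/m = 2(m+1)/m.
(General bounded G: divide by a constant.)
-/

end Pool.Agent.SDT.MST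

end -- MST.FT

section -- N1.W1

/-!
N1, block W: the operator `op2` of a product density in the coordinates of the plane.
-/

namespace Pool.Agent.SDT.N1

open MeasureTheory Set Metric Pool.Agent.SDT.MP_6cbfb8_an Pool.Agent.SDT.MST
open scoped ENNReal Real ContDiff

/-- The identity matrix. -/
def idM : Mat 2 := fun i j => if i = j then 1 else 0

theorem mv_idM (w : E 2) : mv idM w = w := by
  unfold mv idM
  ext i
  simp

/-- The coordinates of the plane. -/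
noncomputable def pe : E 2 ≃ᵐ ℝ × ℝ :=
  (MeasurableEquiv.toLp 2 (Fin 2 → ℝ)).symm.trans MeasurableEquiv.finTwoArrow

theorem pe_apply (w : E 2) : pe w = (w 0, w 1) := rfl

theorem pe_mp : MeasurePreserving pe (volume : Measure (E 2)) (volume : Measure (ℝ × ℝ)) := by
  unfold pe
  exact (volume_preserving_finTwoArrow ℝ).comp
    (EuclideanSpace.volume_preserving_symm_measurableEquiv_toLp (Fin 2))

theorem lint_pe (φ : ℝ × ℝ → ℝ≥0∞) : ∫⁻ x : E 2, φ (x 0, x 1) = ∫⁻ ξ : ℝ × ℝ, φ ξ :=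
  pe_mp.lintegral_comp_emb pe.measurableEmbedding φ

theorem int_pe (φ : ℝ × ℝ → ℂ) : ∫ x : E 2, φ (x 0, x 1) = ∫ ξ : ℝ × ℝ, φ ξ :=
  pe_mp.integral_comp pe.measurableEmbedding φ

theorem vN_idM (w : E 2) : vN idM w = 1 - w 0 ^ 2 - w 1 ^ 2 := by
  unfold vN
  rw [mv_idM, EuclideanSpace.norm_sq_eq]
  simp [Fin.sum_univ_two]
  ring

theorem sma_eq (c v : ℝ) : sma c v = hft_a c v := rfl

theorem amp_eq (c : ℝ) (hc : 0 < c) (t : ℝ) (w : E 2) : amp2 (sma c) idM t w =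
    ((wf c (w 0) (w 1) : ℝ) : ℂ) * ex (t * qf c (w 0) (w 1)) := by
  unfold amp2 wf qf Sq
  rw [vN_idM]
  set v := 1 - w 0 ^ 2 - w 1 ^ 2 with hv
  rcases le_or_gt v (c ^ 2 / 4) with h | h
  · have h0 : sma c v = 0 := (hft_cut hc).2 v h
    rw [h0]
    simp
  · have h1 : Real.smoothTransition ((16 * v - c ^ 2) / c ^ 2) = 1 := by
      apply Real.smoothTransition.one_of_one_le
      rw [le_div_iff₀ (by positivity)]
      nlinarith
    rw [h1, mul_one]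

theorem op2_eq (c : ℝ) (hc : 0 < c) (G₁ G₂ : ℝ → ℂ) (t : ℝ) (x : E 2) :
    op2 (sma c) idM t (fun w => G₁ (w 0) * G₂ (w 1)) x = Eo c G₁ G₂ t (x 0, x 1) := by
  unfold op2 Eo
  rw [← int_pe]
  congr 1
  funext w
  rw [amp_eq c hc]
  have h1 : (inner ℝ w x : ℝ) = w 0 * x 0 + w 1 * x 1 := by
    simp [PiLp.inner_apply, Fin.sum_univ_two]
    ring
  rw [h1]
  ring

/-- Complex conjugation and negative times. -/
theorem Eo_conj (c : ℝ) (G₁ G₂ : ℝ → ℂ) (t : ℝ) (ξ : ℝ × ℝ) :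
    Eo c (fun a => (starRingEnd ℂ) (G₁ a)) (fun b => (starRingEnd ℂ) (G₂ b)) t ξ =
      (starRingEnd ℂ) (Eo c G₁ G₂ (-t) (-ξ)) := by
  unfold Eo
  rw [← integral_conj]
  congr 1
  funext x
  have hex : ∀ a : ℝ, (starRingEnd ℂ) (ex a) = ex (-a) := by
    intro a
    unfold ex
    rw [← Complex.exp_conj, map_mul, Complex.conj_ofReal, Complex.conj_I]
    congr 1
    push_cast
    ring
  simp only [map_mul, hex, Complex.conj_ofReal, Prod.fst_neg, Prod.snd_neg]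
  congr 3
  · ring
  · ring

theorem Eo_refl1 (c : ℝ) (G₁ G₂ : ℝ → ℂ) (t : ℝ) (ξ : ℝ × ℝ) :
    Eo c (fun a => G₁ (-a)) G₂ t ξ = Eo c G₁ G₂ t (-ξ.1, ξ.2) := by
  unfold Eo
  have h1 : MeasurePreserving (fun x : ℝ × ℝ => (-x.1, x.2)) (volume : Measure (ℝ × ℝ)) volume :=
    (Measure.measurePreserving_neg (volume : Measure ℝ)).prod (MeasurePreserving.id volume)
  have h2 : MeasurableEmbedding (fun x : ℝ × ℝ => (-x.1, x.2)) :=
    ((MeasurableEquiv.neg ℝ).prodCongr (MeasurableEquiv.refl ℝ)).measurableEmbedding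
  rw [← h1.integral_comp h2]
  congr 1
  funext x
  have h3 : wf c (-x.1) x.2 = wf c x.1 x.2 := by
    unfold wf
    congr 1
    ring
  have h4 : qf c (-x.1) x.2 = qf c x.1 x.2 := by
    unfold qf
    congr 1
    ring
  have h5 : -x.1 * ξ.1 + x.2 * ξ.2 = x.1 * -ξ.1 + x.2 * ξ.2 := by ring
  simp only [neg_neg, h3, h4, h5]

theorem Eo_refl2 (c : ℝ) (G₁ G₂ : ℝ → ℂ) (t : ℝ) (ξ : ℝ × ℝ) :
    Eo c G₁ (fun b => G₂ (-b)) t ξ = Eo c G₁ G₂ t (ξ.1, -ξ.2) := by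
  unfold Eo
  have h1 : MeasurePreserving (fun x : ℝ × ℝ => (x.1, -x.2)) (volume : Measure (ℝ × ℝ)) volume :=
    (MeasurePreserving.id volume).prod (Measure.measurePreserving_neg (volume : Measure ℝ))
  have h2 : MeasurableEmbedding (fun x : ℝ × ℝ => (x.1, -x.2)) :=
    ((MeasurableEquiv.refl ℝ).prodCongr (MeasurableEquiv.neg ℝ)).measurableEmbedding
  rw [← h1.integral_comp h2]
  congr 1
  funext x
  have h3 : wf c x.1 (-x.2) = wf c x.1 x.2 := by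
    unfold wf
    congr 1
    ring
  have h4 : qf c x.1 (-x.2) = qf c x.1 x.2 := by
    unfold qf
    congr 1
    ring
  have h5 : x.1 * ξ.1 + -x.2 * ξ.2 = x.1 * ξ.1 + x.2 * -ξ.2 := by ring
  simp only [neg_neg, h3, h4, h5]

end Pool.Agent.SDT.N1

end -- N1.W1

section -- N1.W2

/-!
N1, block W: the dyadic `L⁴` estimate for both signs of the time and of the coordinates.
-/

namespace Pool.Agent.SDT.N1

open MeasureTheory Set Metric Pool.Agent.SDT.MP_6cbfb8_an Pool.Agent.SDT.MST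
open scoped ENNReal Real ContDiff

/-- The dyadic `L⁴` estimate as a hypothesis. -/
def L4H (c : ℝ) : Prop := ∃ C : ℝ, 0 ≤ C ∧ ∀ T : ℝ, 1 ≤ T → ∀ G₁ G₂ : ℝ → ℂ,
    Measurable G₁ → Measurable G₂ → (∀ a, ‖G₁ a‖ ≤ 1) → (∀ b, ‖G₂ b‖ ≤ 1) →
    (∀ a, G₁ a ≠ 0 → c ≤ a) → (∀ b, G₂ b ≠ 0 → c ≤ b) →
    ∫⁻ t in Icc T (2 * T), ∫⁻ ξ : ℝ × ℝ, ‖Eo c G₁ G₂ t ξ‖ₑ ^ 4 ≤
      ENNReal.ofReal (C * (1 + Real.log T) ^ 8 / T)

theorem ex_cont : Continuous ex := by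
  unfold ex
  fun_prop

theorem ex_norm (a : ℝ) : ‖ex a‖ = 1 := by
  unfold ex
  rw [Complex.norm_exp_ofReal_mul_I]

theorem wf_cont (c : ℝ) (hc : 0 < c) : Continuous fun x : ℝ × ℝ => wf c x.1 x.2 := by
  unfold wf
  have h1 : Continuous (sma c) := ((hft_cut hc).1 0).continuous
  exact h1.comp (by fun_prop)

theorem qf_cont (c : ℝ) : Continuous fun x : ℝ × ℝ => qf c x.1 x.2 := by
  unfold qf Sq
  have h1 : Continuous Real.smoothTransition := Real.smoothTransition.continuous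
  have h2 : Continuous fun x : ℝ × ℝ => √(1 - x.1 ^ 2 - x.2 ^ 2) := by fun_prop
  have h3 : Continuous fun x : ℝ × ℝ => (16 * (1 - x.1 ^ 2 - x.2 ^ 2) - c ^ 2) / c ^ 2 := by
    fun_prop
  exact h2.mul (h1.comp h3)

/-- The support of the amplitude. -/
theorem wf_supp (c : ℝ) (hc : 0 < c) (a b : ℝ) (h : wf c a b ≠ 0) : |a| ≤ 1 ∧ |b| ≤ 1 := by
  have h1 : ¬ (1 - a ^ 2 - b ^ 2 ≤ c ^ 2 / 4) := by
    intro h2
    exact h ((hft_cut hc).2 _ h2)
  push Not at h1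
  have h3 : a ^ 2 + b ^ 2 < 1 := by nlinarith [sq_nonneg c]
  constructor
  · rw [abs_le_one_iff_mul_self_le_one]; nlinarith
  · rw [abs_le_one_iff_mul_self_le_one]; nlinarith

theorem wf_int (c : ℝ) (hc : 0 < c) : Integrable fun x : ℝ × ℝ => wf c x.1 x.2 := by
  have h1 : HasCompactSupport fun x : ℝ × ℝ => wf c x.1 x.2 := by
    apply HasCompactSupport.intro (isCompact_closedBall (0 : ℝ × ℝ) 1)
    intro x hx
    by_contra h
    obtain ⟨h2, h3⟩ := wf_supp c hc x.1 x.2 h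
    apply hx
    rw [mem_closedBall_zero_iff, Prod.norm_def]
    exact max_le (by rwa [Real.norm_eq_abs]) (by rwa [Real.norm_eq_abs])
  exact (wf_cont c hc).integrable_of_hasCompactSupport h1

/-- The integrand of the extension operator. -/
noncomputable def Ei (c : ℝ) (G₁ G₂ : ℝ → ℂ) (t : ℝ) (ξ : ℝ × ℝ) (x : ℝ × ℝ) : ℂ :=
  G₁ x.1 * G₂ x.2 * ((wf c x.1 x.2 : ℝ) : ℂ) * ex (t * qf c x.1 x.2) *
    ex (x.1 * ξ.1 + x.2 * ξ.2)

theorem Ei_meas (c : ℝ) (hc : 0 < c) (G₁ G₂ : ℝ → ℂ) (h1 : Measurable G₁) (h2 : Measurable G₂) :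
    Measurable fun q : (ℝ × ℝ × ℝ) × (ℝ × ℝ) => Ei c G₁ G₂ q.1.1 q.1.2 q.2 := by
  unfold Ei
  have e1 : Measurable ex := ex_cont.measurable
  have e2 : Measurable fun x : ℝ × ℝ => wf c x.1 x.2 := (wf_cont c hc).measurable
  have e3 : Measurable fun x : ℝ × ℝ => qf c x.1 x.2 := (qf_cont c).measurable
  have a1 : Measurable fun q : (ℝ × ℝ × ℝ) × (ℝ × ℝ) => G₁ q.2.1 := h1.comp (by fun_prop)
  have a2 : Measurable fun q : (ℝ × ℝ × ℝ) × (ℝ × ℝ) => G₂ q.2.2 := h2.comp (by fun_prop)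
  have a3 : Measurable fun q : (ℝ × ℝ × ℝ) × (ℝ × ℝ) => ((wf c q.2.1 q.2.2 : ℝ) : ℂ) :=
    Complex.measurable_ofReal.comp (e2.comp measurable_snd)
  have a4 : Measurable fun q : (ℝ × ℝ × ℝ) × (ℝ × ℝ) => ex (q.1.1 * qf c q.2.1 q.2.2) := by
    refine e1.comp ?_
    have b1 : Measurable fun q : (ℝ × ℝ × ℝ) × (ℝ × ℝ) => qf c q.2.1 q.2.2 :=
      e3.comp measurable_snd
    have b2 : Measurable fun q : (ℝ × ℝ × ℝ) × (ℝ × ℝ) => q.1.1 := by fun_prop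
    exact b2.mul b1
  have a5 : Measurable fun q : (ℝ × ℝ × ℝ) × (ℝ × ℝ) =>
      ex (q.2.1 * q.1.2.1 + q.2.2 * q.1.2.2) := e1.comp (by fun_prop)
  exact (((a1.mul a2).mul a3).mul a4).mul a5

theorem Ei_norm (c : ℝ) (G₁ G₂ : ℝ → ℂ) (b1 : ∀ a, ‖G₁ a‖ ≤ 1) (b2 : ∀ b, ‖G₂ b‖ ≤ 1) (t : ℝ)
    (ξ x : ℝ × ℝ) : ‖Ei c G₁ G₂ t ξ x‖ ≤ ‖wf c x.1 x.2‖ := by
  unfold Ei
  rw [norm_mul, norm_mul, ex_norm, ex_norm, mul_one, mul_one, norm_mul, norm_mul,
    Complex.norm_real]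
  have h : ‖G₁ x.1‖ * ‖G₂ x.2‖ ≤ 1 := mul_le_one₀ (b1 _) (norm_nonneg _) (b2 _)
  exact mul_le_of_le_one_left (norm_nonneg _) h

theorem Ei_int (c : ℝ) (hc : 0 < c) (G₁ G₂ : ℝ → ℂ) (h1 : Measurable G₁) (h2 : Measurable G₂)
    (b1 : ∀ a, ‖G₁ a‖ ≤ 1) (b2 : ∀ b, ‖G₂ b‖ ≤ 1) (t : ℝ) (ξ : ℝ × ℝ) :
    Integrable (Ei c G₁ G₂ t ξ) := by
  refine (wf_int c hc).mono ?_ (Filter.Eventually.of_forall fun x => Ei_norm c G₁ G₂ b1 b2 t ξ x)
  have := (Ei_meas c hc G₁ G₂ h1 h2).comp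
    (f := fun x : ℝ × ℝ => (((t, ξ), x) : (ℝ × ℝ × ℝ) × (ℝ × ℝ))) (by fun_prop)
  exact this.aestronglyMeasurable

theorem Eo_meas (c : ℝ) (hc : 0 < c) (G₁ G₂ : ℝ → ℂ) (h1 : Measurable G₁) (h2 : Measurable G₂) :
    Measurable fun q : ℝ × ℝ × ℝ => Eo c G₁ G₂ q.1 q.2 := by
  have h3 := (Ei_meas c hc G₁ G₂ h1 h2).stronglyMeasurable
  have h4 := h3.integral_prod_right' (ν := (volume : Measure (ℝ × ℝ)))
  exact h4.measurable

/-- The `L⁴` norm over the plane and a time interval. -/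
noncomputable def S4 (c : ℝ) (G₁ G₂ : ℝ → ℂ) (T : ℝ) : ℝ≥0∞ :=
  ∫⁻ t in Icc T (2 * T), ∫⁻ ξ : ℝ × ℝ, ‖Eo c G₁ G₂ t ξ‖ₑ ^ 4

theorem S4_inner_meas (c : ℝ) (hc : 0 < c) (G₁ G₂ : ℝ → ℂ) (h1 : Measurable G₁)
    (h2 : Measurable G₂) : Measurable fun t : ℝ => ∫⁻ ξ : ℝ × ℝ, ‖Eo c G₁ G₂ t ξ‖ₑ ^ 4 :=
  ((Eo_meas c hc G₁ G₂ h1 h2).enorm.pow_const 4).lintegral_prod_right'

theorem S4_refl1 (c : ℝ) (G₁ G₂ : ℝ → ℂ) (T : ℝ) :
    S4 c (fun a => G₁ (-a)) G₂ T = S4 c G₁ G₂ T := by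
  unfold S4
  refine lintegral_congr fun t => ?_
  have h1 : MeasurePreserving (fun x : ℝ × ℝ => (-x.1, x.2)) (volume : Measure (ℝ × ℝ)) volume :=
    (Measure.measurePreserving_neg (volume : Measure ℝ)).prod (MeasurePreserving.id volume)
  have h2 : MeasurableEmbedding (fun x : ℝ × ℝ => (-x.1, x.2)) :=
    ((MeasurableEquiv.neg ℝ).prodCongr (MeasurableEquiv.refl ℝ)).measurableEmbedding
  rw [← h1.lintegral_comp_emb h2 (fun ξ : ℝ × ℝ => ‖Eo c G₁ G₂ t ξ‖ₑ ^ 4)]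
  refine lintegral_congr fun ξ => ?_
  rw [Eo_refl1]

theorem S4_refl2 (c : ℝ) (G₁ G₂ : ℝ → ℂ) (T : ℝ) :
    S4 c G₁ (fun b => G₂ (-b)) T = S4 c G₁ G₂ T := by
  unfold S4
  refine lintegral_congr fun t => ?_
  have h1 : MeasurePreserving (fun x : ℝ × ℝ => (x.1, -x.2)) (volume : Measure (ℝ × ℝ)) volume :=
    (MeasurePreserving.id volume).prod (Measure.measurePreserving_neg (volume : Measure ℝ))
  have h2 : MeasurableEmbedding (fun x : ℝ × ℝ => (x.1, -x.2)) :=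
    ((MeasurableEquiv.refl ℝ).prodCongr (MeasurableEquiv.neg ℝ)).measurableEmbedding
  rw [← h1.lintegral_comp_emb h2 (fun ξ : ℝ × ℝ => ‖Eo c G₁ G₂ t ξ‖ₑ ^ 4)]
  refine lintegral_congr fun ξ => ?_
  rw [Eo_refl2]

theorem enorm_add_four (x y : ℂ) : ‖x + y‖ₑ ^ 4 ≤ 8 * (‖x‖ₑ ^ 4 + ‖y‖ₑ ^ 4) := by
  have h1 : ‖x + y‖ ^ 4 ≤ 8 * (‖x‖ ^ 4 + ‖y‖ ^ 4) := by
    have h2 := norm_add_le x y
    have h3 : ‖x + y‖ ^ 4 ≤ (‖x‖ + ‖y‖) ^ 4 := pow_le_pow_left₀ (norm_nonneg _) h2 4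
    have hx := norm_nonneg x
    have hy := norm_nonneg y
    nlinarith [sq_nonneg (‖x‖ - ‖y‖), sq_nonneg (‖x‖ ^ 2 - ‖y‖ ^ 2), mul_nonneg hx hy,
      sq_nonneg (‖x‖ + ‖y‖), mul_nonneg (mul_nonneg hx hy) (sq_nonneg (‖x‖ - ‖y‖)),
      mul_nonneg (sq_nonneg (‖x‖ - ‖y‖)) (sq_nonneg (‖x‖ + ‖y‖))]
  have h4 : ∀ z : ℂ, ‖z‖ₑ ^ 4 = ENNReal.ofReal (‖z‖ ^ 4) := by
    intro z
    rw [ENNReal.ofReal_pow (norm_nonneg _), ofReal_norm]
  have h5 : (8 : ℝ≥0∞) = ENNReal.ofReal 8 := by norm_num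
  rw [h4, h4, h4, h5, ← ENNReal.ofReal_add (by positivity) (by positivity),
    ← ENNReal.ofReal_mul (by norm_num)]
  exact ENNReal.ofReal_le_ofReal h1

theorem S4_add (c : ℝ) (hc : 0 < c) (A₁ A₂ B₁ B₂ D₁ D₂ : ℝ → ℂ) (hA : Measurable A₁)
    (hA' : Measurable A₂) (hB : Measurable B₁) (hB' : Measurable B₂)
    (a1 : ∀ a, ‖A₁ a‖ ≤ 1) (a2 : ∀ a, ‖A₂ a‖ ≤ 1) (b1 : ∀ a, ‖B₁ a‖ ≤ 1) (b2 : ∀ a, ‖B₂ a‖ ≤ 1)
    (hD : ∀ x : ℝ × ℝ, D₁ x.1 * D₂ x.2 = A₁ x.1 * A₂ x.2 + B₁ x.1 * B₂ x.2) (T : ℝ) :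
    S4 c D₁ D₂ T ≤ 8 * (S4 c A₁ A₂ T + S4 c B₁ B₂ T) := by
  unfold S4
  rw [← lintegral_add_left (S4_inner_meas c hc A₁ A₂ hA hA'), ← lintegral_const_mul' _ _ (by simp)]
  refine lintegral_mono fun t => ?_
  have hm : Measurable fun ξ : ℝ × ℝ => ‖Eo c A₁ A₂ t ξ‖ₑ ^ 4 :=
    ((Eo_meas c hc A₁ A₂ hA hA').comp (f := fun ξ : ℝ × ℝ => (t, ξ)) (by fun_prop)).enorm.pow_const 4
  rw [← lintegral_add_left hm, ← lintegral_const_mul' _ _ (by simp)]
  refine lintegral_mono fun ξ => ?_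
  have h1 : Eo c D₁ D₂ t ξ = Eo c A₁ A₂ t ξ + Eo c B₁ B₂ t ξ := by
    have i1 := Ei_int c hc A₁ A₂ hA hA' a1 a2 t ξ
    have i2 := Ei_int c hc B₁ B₂ hB hB' b1 b2 t ξ
    have h2 := integral_add i1 i2
    have h3 : Eo c D₁ D₂ t ξ = ∫ x, (Ei c A₁ A₂ t ξ x + Ei c B₁ B₂ t ξ x) := by
      unfold Eo Ei
      congr 1
      funext x
      rw [hD x]
      ring
    rw [h3, h2]
    rfl
  show ‖Eo c D₁ D₂ t ξ‖ₑ ^ 4 ≤ _
  rw [h1]
  exact enorm_add_four _ _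

/-- Both signs of the coordinates. -/
theorem L4_signs (c : ℝ) (hc : 0 < c) (h : L4H c) : ∃ C : ℝ, 0 ≤ C ∧ ∀ T : ℝ, 1 ≤ T →
    ∀ G₁ G₂ : ℝ → ℂ, Measurable G₁ → Measurable G₂ → (∀ a, ‖G₁ a‖ ≤ 1) → (∀ b, ‖G₂ b‖ ≤ 1) →
    (∀ a, G₁ a ≠ 0 → c ≤ |a|) → (∀ b, G₂ b ≠ 0 → c ≤ |b|) →
    S4 c G₁ G₂ T ≤ ENNReal.ofReal (C * (1 + Real.log T) ^ 8 / T) := by
  obtain ⟨C, hC, H⟩ := h
  have H' : ∀ T : ℝ, 1 ≤ T → ∀ G₁ G₂ : ℝ → ℂ,
    Measurable G₁ → Measurable G₂ → (∀ a, ‖G₁ a‖ ≤ 1) → (∀ b, ‖G₂ b‖ ≤ 1) →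
    (∀ a, G₁ a ≠ 0 → c ≤ a) → (∀ b, G₂ b ≠ 0 → c ≤ b) →
    S4 c G₁ G₂ T ≤ ENNReal.ofReal (C * (1 + Real.log T) ^ 8 / T) := H
  refine ⟨256 * C, by positivity, ?_⟩
  intro T hT G₁ G₂ h1 h2 b1 b2 s1 s2
  set P : (ℝ → ℂ) → ℝ → ℂ := fun G a => if 0 ≤ a then G a else 0 with hP
  set M : (ℝ → ℂ) → ℝ → ℂ := fun G a => if 0 ≤ a then 0 else G a with hM
  have hsum : ∀ (G : ℝ → ℂ) a, G a = P G a + M G a := by
    intro G a
    simp only [hP, hM]
    split_ifs <;> simp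
  have mP : ∀ G : ℝ → ℂ, Measurable G → Measurable (P G) := by
    intro G hG
    exact Measurable.ite (measurableSet_Ici : MeasurableSet (Ici (0:ℝ))) hG measurable_const
  have mM : ∀ G : ℝ → ℂ, Measurable G → Measurable (M G) := by
    intro G hG
    exact Measurable.ite (measurableSet_Ici : MeasurableSet (Ici (0:ℝ))) measurable_const hG
  have nP : ∀ G : ℝ → ℂ, (∀ a, ‖G a‖ ≤ 1) → ∀ a, ‖P G a‖ ≤ 1 := by
    intro G hG a
    simp only [hP]
    split_ifs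
    · exact hG a
    · simp
  have nM : ∀ G : ℝ → ℂ, (∀ a, ‖G a‖ ≤ 1) → ∀ a, ‖M G a‖ ≤ 1 := by
    intro G hG a
    simp only [hM]
    split_ifs
    · simp
    · exact hG a
  have sP : ∀ G : ℝ → ℂ, (∀ a, G a ≠ 0 → c ≤ |a|) → ∀ a, P G a ≠ 0 → c ≤ a := by
    intro G hG a ha
    simp only [hP] at ha
    split_ifs at ha with h3
    · have := hG a ha
      rwa [abs_of_nonneg h3] at this
    · exact absurd rfl ha
  have sM : ∀ G : ℝ → ℂ, (∀ a, G a ≠ 0 → c ≤ |a|) → ∀ a, M G (-a) ≠ 0 → c ≤ a := by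
    intro G hG a ha
    simp only [hM] at ha
    split_ifs at ha with h3
    · exact absurd rfl ha
    · have := hG (-a) ha
      rw [abs_neg, abs_of_pos (by linarith)] at this
      exact this
  have mneg : ∀ G : ℝ → ℂ, Measurable G → Measurable (fun a => G (-a)) := by
    intro G hG
    exact hG.comp measurable_neg
  set R := ENNReal.ofReal (C * (1 + Real.log T) ^ 8 / T) with hR
  have e1 : S4 c (P G₁) (P G₂) T ≤ R :=
    H' T hT _ _ (mP _ h1) (mP _ h2) (nP _ b1) (nP _ b2) (sP _ s1) (sP _ s2)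
  have e2 : S4 c (M G₁) (P G₂) T ≤ R := by
    rw [← S4_refl1]
    exact H' T hT _ _ (mneg _ (mM _ h1)) (mP _ h2) (fun a => nM _ b1 _) (nP _ b2) (sM _ s1) (sP _ s2)
  have e3 : S4 c (P G₁) (M G₂) T ≤ R := by
    rw [← S4_refl2]
    exact H' T hT _ _ (mP _ h1) (mneg _ (mM _ h2)) (nP _ b1) (fun a => nM _ b2 _) (sP _ s1) (sM _ s2)
  have e4 : S4 c (M G₁) (M G₂) T ≤ R := by
    rw [← S4_refl2, ← S4_refl1]
    exact H' T hT _ _ (mneg _ (mM _ h1)) (mneg _ (mM _ h2)) (fun a => nM _ b1 _)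
      (fun a => nM _ b2 _) (sM _ s1) (sM _ s2)
  have f1 : S4 c G₁ (P G₂) T ≤ 8 * (S4 c (P G₁) (P G₂) T + S4 c (M G₁) (P G₂) T) :=
    S4_add c hc _ _ _ _ _ _ (mP _ h1) (mP _ h2) (mM _ h1) (mP _ h2) (nP _ b1) (nP _ b2) (nM _ b1)
      (nP _ b2) (fun x => by rw [hsum G₁ x.1]; ring) T
  have f2 : S4 c G₁ (M G₂) T ≤ 8 * (S4 c (P G₁) (M G₂) T + S4 c (M G₁) (M G₂) T) :=
    S4_add c hc _ _ _ _ _ _ (mP _ h1) (mM _ h2) (mM _ h1) (mM _ h2) (nP _ b1) (nM _ b2) (nM _ b1)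
      (nM _ b2) (fun x => by rw [hsum G₁ x.1]; ring) T
  have f3 : S4 c G₁ G₂ T ≤ 8 * (S4 c G₁ (P G₂) T + S4 c G₁ (M G₂) T) :=
    S4_add c hc _ _ _ _ _ _ h1 (mP _ h2) h1 (mM _ h2) b1 (nP _ b2) b1
      (nM _ b2) (fun x => by rw [hsum G₂ x.2]; ring) T
  calc S4 c G₁ G₂ T ≤ 8 * (8 * (R + R) + 8 * (R + R)) := by
        refine f3.trans ?_
        gcongr
        · exact f1.trans (by gcongr)
        · exact f2.trans (by gcongr)
    _ = ENNReal.ofReal (256 * C * (1 + Real.log T) ^ 8 / T) := by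
        have h5 : (256 : ℝ≥0∞) = ENNReal.ofReal 256 := by norm_num
        have h6 : 8 * (8 * (R + R) + 8 * (R + R)) = 256 * R := by ring
        rw [h6, h5, hR, ← ENNReal.ofReal_mul (by norm_num)]
        congr 1
        ring

end Pool.Agent.SDT.N1

end -- N1.W2
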