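import Pool.Agent.SDT.B22
import Pool.Agent.SDT.B25

set_option autoImplicit false

namespace Pool.Agent.SDT.MP_6cbfb8_an
end Pool.Agent.SDT.MP_6cbfb8_an
namespace Pool.Agent.SDT.MST
end Pool.Agent.SDT.MST
namespace Pool.Agent.SDT.N1
end Pool.Agent.SDT.N1
namespace Pool.Agent.SDT.N1F
end Pool.Agent.SDT.N1F
namespace Pool.Agent.SDT.N1G
end Pool.Agent.SDT.N1G
namespace Pool.Agent.SDT.N1M
end Pool.Agent.SDT.N1M

section -- N1.GN

/-!
N1, block G: Proposition N.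
-/

namespace Pool.Agent.SDT.N1

open MeasureTheory Set Metric Pool.Agent.SDT.MP_6cbfb8_an Pool.Agent.SDT.MST
open scoped ENNReal Real ContDiff Topology

/-- From a local property to a ball. -/
lemma g_ball {Q : Type*} [PseudoMetricSpace Q] {x : Q} {p : Q → Prop} (h : ∀ᶠ y in 𝓝 x, p y) :
    ∃ r : ℝ, 0 < r ∧ ∀ y ∈ ball x r, p y := by
  obtain ⟨r, hr, h1⟩ := Metric.eventually_nhds_iff_ball.1 h
  exact ⟨r, hr, h1⟩

/-- The amplitude in scaled variables. -/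
noncomputable def amN (c : ℝ) (Ef : (ℝ × ℝ) × V × V → ℝ) (x : ℝ × (ℝ × ℝ) × V × V) : ℝ :=
  Wr c (Sc x.2.1.1 x.2.1.2 x.2.2.1) (Sc x.2.1.1 x.2.1.2 x.2.2.2) *
    (chi (x.1 / Ef x.2) / |Ef x.2|)

lemma amN_smooth (c : ℝ) (hc : 0 < c) (Ef : (ℝ × ℝ) × V × V → ℝ) (S : Set ((ℝ × ℝ) × V × V))
    (hE : ContDiffOn ℝ ∞ Ef S) (hE0 : ∀ x ∈ S, Ef x ≠ 0) :
    ContDiffOn ℝ ∞ (amN c Ef) (univ ×ˢ S) := by
  have h1 : ContDiffOn ℝ ∞ (fun x : ℝ × (ℝ × ℝ) × V × V => Ef x.2) (univ ×ˢ S) :=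
    hE.comp contDiff_snd.contDiffOn (fun x hx => hx.2)
  have h2 : ContDiff ℝ ∞ (fun x : ℝ × (ℝ × ℝ) × V × V =>
      Wr c (Sc x.2.1.1 x.2.1.2 x.2.2.1) (Sc x.2.1.1 x.2.1.2 x.2.2.2)) := by
    have h3 := (Wr_smooth c hc).comp (f := fun x : ℝ × (ℝ × ℝ) × V × V =>
      (((x.2.1.1 * x.2.2.1.1, x.2.2.1.2.1, x.2.1.2 * x.2.2.1.2.2) : V),
        ((x.2.1.1 * x.2.2.2.1, x.2.2.2.2.1, x.2.1.2 * x.2.2.2.2.2) : V))) (by fun_prop)
    exact h3
  have h4 : ContDiffOn ℝ ∞ (fun x : ℝ × (ℝ × ℝ) × V × V => chi (x.1 / Ef x.2)) (univ ×ˢ S) :=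
    chi_smooth.comp_contDiffOn (contDiff_fst.contDiffOn.div h1 (fun x hx => hE0 _ hx.2))
  have h5 : ContDiffOn ℝ ∞ (fun x : ℝ × (ℝ × ℝ) × V × V => |Ef x.2|) (univ ×ˢ S) := by
    intro x hx
    exact (contDiffAt_abs (hE0 _ hx.2)).comp_contDiffWithinAt x (h1 x hx)
  exact h2.contDiffOn.mul (h4.div h5 (fun x hx => abs_ne_zero.2 (hE0 _ hx.2)))

lemma amN_supp (c : ℝ) (Ef : (ℝ × ℝ) × V × V → ℝ) (e0 e1 s : ℝ) (q : (ℝ × ℝ) × V × V)
    (he0 : 0 < e0) (h0 : e0 ≤ |Ef q|) (h1 : |Ef q| ≤ e1) (h : amN c Ef (s, q) ≠ 0) :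
    e0 / 2 ≤ |s| ∧ |s| ≤ 3 * e1 := by
  have hchi : chi (s / Ef q) ≠ 0 := by
    intro h2
    apply h
    unfold amN
    simp only
    rw [h2, zero_div, mul_zero]
  obtain ⟨g1, g2⟩ := chi_zero _ hchi
  have hE : 0 < |Ef q| := lt_of_lt_of_le he0 h0
  have h3 : |s| = |s / Ef q| * |Ef q| := by
    rw [abs_div]
    field_simp
  have h4 : |s / Ef q| = s / Ef q := abs_of_nonneg (by linarith)
  rw [h4] at h3
  rw [h3]
  constructor
  · nlinarith
  · nlinarith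

/-- The factor `E` of case (N). -/
noncomputable def EN (c : ℝ) (x : (ℝ × ℝ) × V × V) : ℝ :=
  -(x.2.1.1 * x.2.2.1 * (x.2.1.2.2 * x.2.2.2.2)) / qf c x.2.1.2.1 x.2.2.2.1 ^ 3

/-- The point at which the divided phase is evaluated. -/
noncomputable def ptN (x : (ℝ × ℝ) × V × V) : ℝ × (ℝ × V × V) :=
  (x.1.2, (x.1.1, ((x.2.1.1, x.2.1.2.1 - x.1.2 * x.2.1.2.2 / 2, x.2.1.2.2) : V),
    ((x.2.2.1, x.2.2.2.1 - x.1.2 * x.2.2.2.2 / 2, x.2.2.2.2) : V)))

lemma ptN_smooth : ContDiff ℝ ∞ ptN := by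
  unfold ptN
  fun_prop

lemma Fr_Sc (c : ℝ) (G : ℝ × (ℝ × V × V) → ℝ)
    (key : ∀ γ ρ a b, Ph c ρ γ a b = ρ * γ * G (γ, (ρ, a, b))) (ρ γ : ℝ) (a b : V) :
    Fr c (Sc ρ γ a) (Sc ρ γ b) = ρ * γ * G (ptN ((ρ, γ), a, b)) := by
  unfold ptN
  simp only
  rw [← key]
  unfold Ph Sc
  simp only
  rw [show a.2.1 - γ * a.2.2 / 2 + γ * a.2.2 / 2 = a.2.1 by ring,
    show b.2.1 - γ * b.2.2 / 2 + γ * b.2.2 / 2 = b.2.1 by ring]

/-- The limit of the divided phase in case (N). -/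
lemma G0_N (c : ℝ) (hc : 0 < c) (a b : V) (ha1 : a.1 ≠ 0) (ha2 : 0 < a.2.1) (ha3 : a.2.2 ≠ 0)
    (hb1 : b.1 ≠ 0) (hb2 : 0 < b.2.1) (hb3 : b.2.2 ≠ 0)
    (h : c ^ 2 / 8 < 1 - a.2.1 ^ 2 - b.2.1 ^ 2) :
    G0 c 0 a b / EN c ((0, 0), a, b) =
      nX0 a + nX0 b + nX1 a * nX2 b + nX2 a * nX1 b := by
  have p1 := qf_pos c hc _ _ h.le
  have q1 := qf_sq c hc _ _ h.le
  have hc8 : 0 < c ^ 2 / 8 := by positivity
  have n1 : 1 - b.2.1 ^ 2 ≠ 0 := by nlinarith [sq_nonneg a.2.1]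
  have n2 : 1 - a.2.1 ^ 2 ≠ 0 := by nlinarith [sq_nonneg b.2.1]
  have ha2' := ha2.ne'
  have hb2' := hb2.ne'
  unfold G0 EN el om sg nX0 nX1 nX2
  simp only [zero_mul, sub_zero]
  rw [qf_comm c b.2.1 a.2.1]
  set Q := qf c a.2.1 b.2.1 with hQ
  field_simp
  ring

end Pool.Agent.SDT.N1

end -- N1.GN

section -- N1F.P1d

/-!
N1F, Proposition I: local Hadamard lemma in two variables and the normal form.
-/

namespace Pool.Agent.SDT.N1F

open MeasureTheory Set Metric Pool.Agent.SDT.MP_6cbfb8_an Pool.Agent.SDT.MST Pool.Agent.SDT.N1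
open scoped ENNReal Real ContDiff Topology

/-- Replace the coordinate `i` of the parameter by `t`. -/
noncomputable def upd {Q : Type*} (i : Fin 7) (x : P7 × Q) (t : ℝ) : P7 × Q :=
  (x.1 + (t - x.1 i) • (Pi.single i (1 : ℝ) : P7), x.2)

lemma upd_same {Q : Type*} (i : Fin 7) (x : P7 × Q) (t : ℝ) : (upd i x t).1 i = t := by
  unfold upd
  simp

lemma upd_ne {Q : Type*} (i j : Fin 7) (h : j ≠ i) (x : P7 × Q) (t : ℝ) :
    (upd i x t).1 j = x.1 j := by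
  unfold upd
  simp [Pi.single_eq_of_ne h]

lemma upd_self {Q : Type*} (i : Fin 7) (x : P7 × Q) : upd i x (x.1 i) = x := by
  unfold upd
  simp

lemma upd_dist {Q : Type*} [PseudoMetricSpace Q] (i : Fin 7) (x x0 : P7 × Q) (h : x0.1 i = 0)
    (r : ℝ) (hx : x ∈ ball x0 r) : upd i x 0 ∈ ball x0 r := by
  have hr : 0 < r := pos_of_mem_ball hx
  rw [mem_ball, Prod.dist_eq, max_lt_iff, dist_pi_lt_iff hr] at hx ⊢
  refine ⟨fun j => ?_, hx.2⟩
  by_cases hj : j = i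
  · subst hj
    rw [upd_same, h, dist_self]
    exact hr
  · rw [upd_ne i j hj]
    exact hx.1 j

lemma had_glob {Q : Type*} [NormedAddCommGroup Q] [NormedSpace ℝ Q] [FiniteDimensional ℝ Q]
    (i : Fin 7) (f : P7 × Q → ℝ) (hf : ContDiff ℝ ∞ f) :
    ∃ k : P7 × Q → ℝ, ContDiff ℝ ∞ k ∧ ∀ x, f x - f (upd i x 0) = x.1 i * k x := by
  have hu : ContDiff ℝ ∞ fun y : ℝ × (P7 × Q) => upd i y.2 y.1 := by
    unfold upd
    fun_prop
  have hu0 : ContDiff ℝ ∞ fun y : ℝ × (P7 × Q) => upd i y.2 0 := by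
    unfold upd
    fun_prop
  obtain ⟨k, hk, h1⟩ := hadamard (fun y : ℝ × (P7 × Q) => f (upd i y.2 y.1) - f (upd i y.2 0))
    ((hf.comp hu).sub (hf.comp hu0)) (fun q => by simp)
  refine ⟨fun x => k (x.1 i, x), hk.comp (by fun_prop), fun x => ?_⟩
  have h2 := h1 (x.1 i) x
  simp only [upd_self] at h2
  exact h2

lemma had_loc {Q : Type*} [NormedAddCommGroup Q] [NormedSpace ℝ Q] [FiniteDimensional ℝ Q]
    (i : Fin 7) (f : P7 × Q → ℝ) (x0 : P7 × Q) (r : ℝ) (hr : 0 < r)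
    (hf : ContDiffOn ℝ ∞ f (ball x0 r)) (h0 : ∀ x ∈ ball x0 r, x.1 i = 0 → f x = 0) :
    ∃ r' : ℝ, 0 < r' ∧ r' ≤ r ∧ ∃ k : P7 × Q → ℝ, ContDiffOn ℝ ∞ k (ball x0 r') ∧
      ∀ x ∈ ball x0 r', f x = x.1 i * k x := by
  by_cases hi : x0.1 i = 0
  · obtain ⟨g, hg, hgf⟩ := ext_smooth f x0 r hr hf
    obtain ⟨k, hk, h1⟩ := had_glob i g hg
    refine ⟨r / 2, by positivity, by linarith, k, hk.contDiffOn, fun x hx => ?_⟩
    have h2 := h1 x
    have h3 := upd_dist i x x0 hi _ hx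
    rw [hgf _ hx, hgf _ h3, h0 _ (ball_subset_ball (by linarith) h3) (upd_same i x 0),
      sub_zero] at h2
    exact h2
  · have hi' : 0 < |x0.1 i| := abs_pos.2 hi
    refine ⟨min r |x0.1 i|, lt_min hr hi', min_le_left _ _, fun x => f x / x.1 i, ?_, ?_⟩
    · refine (hf.mono (ball_subset_ball (min_le_left _ _))).div (by fun_prop) ?_
      intro x hx h
      have hx2 := ball_subset_ball (min_le_right r |x0.1 i|) hx
      rw [mem_ball, Prod.dist_eq, max_lt_iff, dist_pi_lt_iff hi'] at hx2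
      have h4 := hx2.1 i
      rw [h, dist_comm, Real.dist_eq, sub_zero] at h4
      exact lt_irrefl _ h4
    · intro x hx
      have hx2 := ball_subset_ball (min_le_right r |x0.1 i|) hx
      rw [mem_ball, Prod.dist_eq, max_lt_iff, dist_pi_lt_iff hi'] at hx2
      have h4 := hx2.1 i
      have h5 : x.1 i ≠ 0 := by
        intro h
        rw [h, dist_comm, Real.dist_eq, sub_zero] at h4
        exact lt_irrefl _ h4
      field_simp

/-- A function which vanishes on punctured lines through `x`. -/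
lemma zero_lim {Q : Type*} [NormedAddCommGroup Q] [NormedSpace ℝ Q] (k : P7 × Q → ℝ)
    (x : P7 × Q) (v : P7) (hk : ContinuousAt k x)
    (h : ∀ᶠ t : ℝ in 𝓝[≠] (0 : ℝ), k (x.1 + t • v, x.2) = 0) : k x = 0 := by
  have h1 : Filter.Tendsto (fun t : ℝ => ((x.1 + t • v, x.2) : P7 × Q)) (𝓝[≠] (0 : ℝ)) (𝓝 x) := by
    have h2 : ContinuousAt (fun t : ℝ => ((x.1 + t • v, x.2) : P7 × Q)) 0 := by fun_prop
    have h3 : Filter.Tendsto (fun t : ℝ => ((x.1 + t • v, x.2) : P7 × Q)) (𝓝 (0 : ℝ)) (𝓝 x) := by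
      simpa [ContinuousAt] using h2
    exact h3.mono_left nhdsWithin_le_nhds
  have h4 : Filter.Tendsto (fun t : ℝ => k (x.1 + t • v, x.2)) (𝓝[≠] (0 : ℝ)) (𝓝 (k x)) :=
    hk.tendsto.comp h1
  have h5 : Filter.Tendsto (fun t : ℝ => k (x.1 + t • v, x.2)) (𝓝[≠] (0 : ℝ)) (𝓝 0) :=
    tendsto_const_nhds.congr' (h.mono fun t ht => ht.symm)
  exact tendsto_nhds_unique h4 h5

lemma line_ball {Q : Type*} [NormedAddCommGroup Q] [NormedSpace ℝ Q] (x x0 : P7 × Q) (v : P7)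
    (r : ℝ) (hx : x ∈ ball x0 r) :
    ∀ᶠ t : ℝ in 𝓝[≠] (0 : ℝ), ((x.1 + t • v, x.2) : P7 × Q) ∈ ball x0 r := by
  have h2 : ContinuousAt (fun t : ℝ => ((x.1 + t • v, x.2) : P7 × Q)) 0 := by fun_prop
  have h3 : ∀ᶠ t : ℝ in 𝓝 (0 : ℝ), ((x.1 + t • v, x.2) : P7 × Q) ∈ ball x0 r := by
    refine h2.eventually (isOpen_ball.mem_nhds ?_)
    simpa using hx
  exact nhdsWithin_le_nhds h3

/-- Division by the product of the first two parameters. -/
lemma had_two {Q : Type*} [NormedAddCommGroup Q] [NormedSpace ℝ Q] [FiniteDimensional ℝ Q]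
    (f : P7 × Q → ℝ) (x0 : P7 × Q) (r : ℝ) (hr : 0 < r)
    (hf : ContDiffOn ℝ ∞ f (ball x0 r)) (h0 : ∀ x ∈ ball x0 r, x.1 0 = 0 → f x = 0)
    (h1 : ∀ x ∈ ball x0 r, x.1 1 = 0 → f x = 0) :
    ∃ r' : ℝ, 0 < r' ∧ r' ≤ r ∧ ∃ k : P7 × Q → ℝ, ContDiffOn ℝ ∞ k (ball x0 r') ∧
      (∀ x ∈ ball x0 r', f x = x.1 0 * x.1 1 * k x) ∧
      ((∀ x ∈ ball x0 r, x.1 2 = 0 → x.1 3 = 0 → x.1 4 = 0 → x.1 5 = 0 → f x = 0) →
        ∀ x ∈ ball x0 r', x.1 2 = 0 → x.1 3 = 0 → x.1 4 = 0 → x.1 5 = 0 → k x = 0) := by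
  obtain ⟨r1, hr1, hr1', k1, hk1, e1⟩ := had_loc 0 f x0 r hr hf h0
  have hz : ∀ x ∈ ball x0 r1, x.1 1 = 0 → k1 x = 0 := by
    intro x hx hx1
    have hc : ContinuousAt k1 x := (hk1.continuousOn.continuousAt (isOpen_ball.mem_nhds hx))
    refine zero_lim k1 x (Pi.single 0 1) hc ?_
    have hne : ∀ᶠ t : ℝ in 𝓝[≠] (0 : ℝ), x.1 0 + t ≠ 0 := by
      by_cases h : x.1 0 = 0
      · filter_upwards [self_mem_nhdsWithin] with t ht
        rw [h, zero_add]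
        exact ht
      · have : ∀ᶠ t : ℝ in 𝓝 (0 : ℝ), x.1 0 + t ≠ 0 :=
          (by fun_prop : ContinuousAt (fun t : ℝ => x.1 0 + t) 0).eventually_ne (by simpa using h)
        exact nhdsWithin_le_nhds this
    filter_upwards [hne, line_ball x x0 (Pi.single 0 1) r1 hx] with t ht hb
    have h2 := e1 _ hb
    have h3 : (x.1 + t • (Pi.single 0 (1 : ℝ) : P7)) 1 = 0 := by
      simp [hx1]
    have h4 : (x.1 + t • (Pi.single 0 (1 : ℝ) : P7)) 0 = x.1 0 + t := by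
      simp
    rw [h1 _ (ball_subset_ball hr1' hb) h3] at h2
    simp only [h4] at h2
    rcases mul_eq_zero.1 h2.symm with h5 | h5
    · exact absurd h5 ht
    · exact h5
  obtain ⟨r2, hr2, hr2', k2, hk2, e2⟩ := had_loc 1 k1 x0 r1 hr1 hk1 hz
  refine ⟨r2, hr2, hr2'.trans hr1', k2, hk2, ?_, ?_⟩
  · intro x hx
    rw [e1 x (ball_subset_ball hr2' hx), e2 x hx]
    ring
  · intro hd x hx g2 g3 g4 g5
    have hc : ContinuousAt k2 x := (hk2.continuousOn.continuousAt (isOpen_ball.mem_nhds hx))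
    refine zero_lim k2 x (Pi.single 0 1 + Pi.single 1 1) hc ?_
    have hne : ∀ i : Fin 7, ∀ᶠ t : ℝ in 𝓝[≠] (0 : ℝ), x.1 i + t ≠ 0 := by
      intro i
      by_cases h : x.1 i = 0
      · filter_upwards [self_mem_nhdsWithin] with t ht
        rw [h, zero_add]
        exact ht
      · have : ∀ᶠ t : ℝ in 𝓝 (0 : ℝ), x.1 i + t ≠ 0 :=
          (by fun_prop : ContinuousAt (fun t : ℝ => x.1 i + t) 0).eventually_ne (by simpa using h)
        exact nhdsWithin_le_nhds this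
    filter_upwards [hne 0, hne 1, line_ball x x0 (Pi.single 0 1 + Pi.single 1 1) r2 hx]
      with t ht ht' hb
    have h4 : (x.1 + t • (Pi.single 0 (1 : ℝ) + Pi.single 1 1 : P7)) 0 = x.1 0 + t := by
      simp
    have h5 : (x.1 + t • (Pi.single 0 (1 : ℝ) + Pi.single 1 1 : P7)) 1 = x.1 1 + t := by
      simp
    have h6 : (x.1 + t • (Pi.single 0 (1 : ℝ) + Pi.single 1 1 : P7)) 2 = 0 := by
      simp [g2]
    have h7 : (x.1 + t • (Pi.single 0 (1 : ℝ) + Pi.single 1 1 : P7)) 3 = 0 := by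
      simp [g3]
    have h8 : (x.1 + t • (Pi.single 0 (1 : ℝ) + Pi.single 1 1 : P7)) 4 = 0 := by
      simp [g4]
    have h9 : (x.1 + t • (Pi.single 0 (1 : ℝ) + Pi.single 1 1 : P7)) 5 = 0 := by
      simp [g5]
    have h2 := hd _ (ball_subset_ball (hr2'.trans hr1') hb) h6 h7 h8 h9
    rw [e1 _ (ball_subset_ball hr2' hb), e2 _ hb] at h2
    simp only [h4, h5] at h2
    rcases mul_eq_zero.1 h2 with h10 | h10
    · exact absurd h10 ht
    · rcases mul_eq_zero.1 h10 with h11 | h11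
      · exact absurd h11 ht'
      · exact h11

end Pool.Agent.SDT.N1F

end -- N1F.P1d

section -- N1Q.Q2a

/-!
N1Q, block Q2: the smooth partition in tangential / non-tangential differences; generic lemmas.
-/

namespace Pool.Agent.SDT.N1Q

open MeasureTheory Set Metric Pool.Agent.SDT.MP_6cbfb8_an Pool.Agent.SDT.MST Pool.Agent.SDT.N1
open Pool.Agent.SDT.N1F Pool.Agent.SDT.N1G Pool.Agent.SDT.N1M
open scoped ENNReal Real ContDiff

lemma st_mono {x y : ℝ} (h : x ≤ y) : Real.smoothTransition x ≤ Real.smoothTransition y := by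
  unfold Real.smoothTransition
  have p1 := Real.smoothTransition.pos_denom x
  have p2 := Real.smoothTransition.pos_denom y
  have e1 : expNegInvGlue x ≤ expNegInvGlue y := by
    rcases le_or_gt x 0 with hx | hx
    · rw [expNegInvGlue.zero_of_nonpos hx]
      exact expNegInvGlue.nonneg _
    · have hy : 0 < y := lt_of_lt_of_le hx h
      unfold expNegInvGlue
      rw [if_neg (not_le.2 hx), if_neg (not_le.2 hy)]
      apply Real.exp_le_exp.2
      have := inv_anti₀ hx h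
      linarith
  have e2 : expNegInvGlue (1 - y) ≤ expNegInvGlue (1 - x) := by
    rcases le_or_gt (1 - y) 0 with hx | hx
    · rw [expNegInvGlue.zero_of_nonpos hx]
      exact expNegInvGlue.nonneg _
    · have hy : 0 < 1 - x := by linarith
      unfold expNegInvGlue
      rw [if_neg (not_le.2 hx), if_neg (not_le.2 hy)]
      apply Real.exp_le_exp.2
      have := inv_anti₀ hx (show 1 - y ≤ 1 - x by linarith)
      linarith
  rw [div_le_div_iff₀ p1 p2]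
  have n1 := expNegInvGlue.nonneg x
  have n2 := expNegInvGlue.nonneg (1 - x)
  have n3 := expNegInvGlue.nonneg y
  have n4 := expNegInvGlue.nonneg (1 - y)
  nlinarith [mul_le_mul e1 e2 n4 n3]

lemma th_abs (x : ℝ) : th x = Real.smoothTransition (2 - |x|) := by
  rcases le_total 0 x with h | h
  · rw [abs_of_nonneg h]
    unfold th
    rw [Real.smoothTransition.one_of_one_le (by linarith : 1 ≤ 2 + x), mul_one]
  · rw [abs_of_nonpos h]
    unfold th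
    rw [Real.smoothTransition.one_of_one_le (by linarith : 1 ≤ 2 - x), one_mul]
    congr 1
    ring

lemma th_anti {x y : ℝ} (h : |x| ≤ |y|) : th y ≤ th x := by
  rw [th_abs, th_abs]
  exact st_mono (by linarith)

lemma uj_nonneg (j : ℕ) (x : ℝ) : 0 ≤ uj j x := by
  unfold uj
  have : |2 ^ j * x| ≤ |2 ^ (j + 1) * x| := by
    rw [abs_mul, abs_mul, pow_succ, abs_mul, abs_of_pos (by norm_num : (0 : ℝ) < 2)]
    have : 0 ≤ |(2 : ℝ) ^ j| * |x| := by positivity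
    nlinarith
  have := th_anti this
  linarith

lemma sum_uj (J : ℕ) (x : ℝ) : ∑ j ∈ Finset.range J, uj j x = th x - th (2 ^ J * x) := by
  induction J with
  | zero => simp
  | succ n ih =>
    rw [Finset.sum_range_succ, ih]
    unfold uj
    ring

/-- The smooth cut-off function of the set of tangential differences. -/
noncomputable def ct (g1 g2 A : ℝ) (J : ℕ) (y : ℝ × ℝ) : ℝ :=
  ∑ j ∈ Finset.range J, uj j y.1 * th (2 ^ j / A * lnE g1 g2 y)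

lemma ct_nonneg (g1 g2 A : ℝ) (J : ℕ) (y : ℝ × ℝ) : 0 ≤ ct g1 g2 A J y :=
  Finset.sum_nonneg fun j _ => mul_nonneg (uj_nonneg _ _) (th_nonneg _)

lemma ct_le_one (g1 g2 A : ℝ) (J : ℕ) (y : ℝ × ℝ) : ct g1 g2 A J y ≤ 1 := by
  have h1 : ct g1 g2 A J y ≤ ∑ j ∈ Finset.range J, uj j y.1 :=
    Finset.sum_le_sum fun j _ => mul_le_of_le_one_right (uj_nonneg _ _) (th_le_one _)
  rw [sum_uj] at h1
  have h2 := th_nonneg (2 ^ J * y.1)
  have h3 := th_le_one y.1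
  linarith

lemma ct_supp (g1 g2 A : ℝ) (hA : 0 < A) (J : ℕ) (y : ℝ × ℝ) (h : ct g1 g2 A J y ≠ 0) :
    |lnE g1 g2 y| ≤ 4 * A * |y.1| := by
  obtain ⟨j, _, hj⟩ := Finset.exists_ne_zero_of_sum_ne_zero h
  have h1 := uj_support j _ (left_ne_zero_of_mul hj)
  have h2 := th_support _ (right_ne_zero_of_mul hj)
  rw [abs_mul, abs_of_pos (by positivity), div_mul_eq_mul_div, div_lt_iff₀ hA] at h2
  have h3 : (0 : ℝ) < 2 ^ j := by positivity
  have h4 : 1 < 2 * 2 ^ j * |y.1| := by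
    have := h1.1
    rw [pow_succ, div_lt_iff₀ (by positivity)] at this
    linarith
  have h5 : |lnE g1 g2 y| * 2 ^ j ≤ (4 * A * |y.1|) * 2 ^ j := by nlinarith
  exact le_of_mul_le_mul_right h5 h3

lemma ct_compl (g1 g2 A : ℝ) (hA : 0 < A) (J : ℕ) (y : ℝ × ℝ) (hy : |y.1| ≤ 1)
    (h : 1 - ct g1 g2 A J y ≠ 0) : |y.1| < 2 / 2 ^ J ∨ A / 2 * |y.1| ≤ |lnE g1 g2 y| := by
  by_contra hcon
  push Not at hcon
  obtain ⟨h1, h2⟩ := hcon
  apply h
  have e1 : th (2 ^ J * y.1) = 0 := by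
    apply th_zero
    rw [abs_mul, abs_of_pos (by positivity)]
    rw [div_le_iff₀ (by positivity)] at h1
    linarith
  have e2 : ct g1 g2 A J y = ∑ j ∈ Finset.range J, uj j y.1 := by
    unfold ct
    refine Finset.sum_congr rfl fun j _ => ?_
    by_cases hj : uj j y.1 = 0
    · rw [hj, zero_mul]
    · have h3 := (uj_support j _ hj).2
      rw [th_one, mul_one]
      rw [abs_mul, abs_of_pos (by positivity), div_mul_eq_mul_div, div_le_one hA]
      rw [lt_div_iff₀ (by positivity)] at h3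
      have h4 : (0 : ℝ) < 2 ^ j := by positivity
      nlinarith
  rw [e2, sum_uj, e1, th_one _ hy]
  ring

lemma measurable_lnE (g1 g2 : ℝ) : Measurable (lnE g1 g2) := by
  unfold lnE
  fun_prop

lemma ct_meas (g1 g2 A : ℝ) (J : ℕ) : Measurable (ct g1 g2 A J) := by
  unfold ct
  refine Finset.measurable_sum _ fun j _ => ?_
  exact ((measurable_uj j).comp measurable_fst).mul
    (measurable_th.comp ((measurable_lnE g1 g2).const_mul _))

/-- A positive form is monotone in the set of outer differences. -/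
lemma Thg_mono_y (φ w : YX → ℝ) (T : ℝ) (M M' : YX → ℂ)
    (h : ∀ y, (∀ x, M (y, x) = 0) ∨ ∀ x, M (y, x) = M' (y, x)) :
    Thg φ w T M ≤ Thg φ w T M' := by
  unfold Thg
  refine lintegral_mono fun y => lintegral_mono fun t => ?_
  rcases h y with h1 | h1
  · have : Hyg φ w M y t = 0 := by
      unfold Hyg
      simp [h1]
    rw [this]
    simp
  · have : Hyg φ w M y t = Hyg φ w M' y t := by
      unfold Hyg
      simp only [h1]
    rw [this]

lemma FFg_add (B R : ℝ) (φ w : YX → ℝ) (h : Adm B R φ w) (T : ℝ) (hT : 0 < T)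
    (M M' : V × V → ℂ) (hM : Measurable M) (hM' : Measurable M') (D : ℝ) (hD : ∀ q, ‖M q‖ ≤ D)
    (hD' : ∀ q, ‖M' q‖ ≤ D) :
    FFg φ w T (fun q => M q + M' q) = FFg φ w T M + FFg φ w T M' := by
  unfold FFg
  rw [← integral_add (FFg_int B R φ w h T hT M hM D hD) (FFg_int B R φ w h T hT M' hM' D hD')]
  refine integral_congr_ae (Filter.Eventually.of_forall fun q => ?_)
  simp only
  ring

lemma sqM_swp (G₁ G₂ : ℝ → ℂ) (q : V × V) :
    sqM (pd (da G₁) (da G₂)) (swp q) = sqM (pd (da G₁) (da G₂)) q := by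
  unfold sqM pd da swp
  simp only [map_mul, Complex.conj_conj]
  rw [show q.1.2.1 - q.1.2.2 - q.1.1 = q.1.2.1 - q.1.1 - q.1.2.2 by ring,
    show q.2.2.1 - q.2.2.2 - q.2.1 = q.2.2.1 - q.2.1 - q.2.2.2 by ring]
  ring

end Pool.Agent.SDT.N1Q

end -- N1Q.Q2a

section -- N1Q.Tan1

/-!
N1Q, block QT, part 1: masks in the outer difference, covering by cells.
-/

namespace Pool.Agent.SDT.N1Q

open MeasureTheory Set Metric Pool.Agent.SDT.MP_6cbfb8_an Pool.Agent.SDT.MST Pool.Agent.SDT.N1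
open Pool.Agent.SDT.N1F Pool.Agent.SDT.N1G Pool.Agent.SDT.N1M
open scoped ENNReal Real ContDiff

/-- The inner part of the positive form. -/
noncomputable def gT (φ w : YX → ℝ) (T : ℝ) (M : YX → ℂ) (y : ℝ × ℝ) : ℝ≥0∞ :=
  ∫⁻ t : ℝ, ENNReal.ofReal (chi (t / T)) * ‖Hyg φ w M y t‖ₑ ^ 2

theorem tn_mask (φ w : YX → ℝ) (T : ℝ) (M : YX → ℂ) (E : Set (ℝ × ℝ)) (hE : MeasurableSet E)
    (M' : YX → ℂ) (h1 : ∀ p, p.1 ∈ E → M' p = M p) (h2 : ∀ p, p.1 ∉ E → M' p = 0) :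
    Thg φ w T M' = ∫⁻ y in E, gT φ w T M y := by
  rw [← lintegral_indicator hE]
  unfold Thg
  refine lintegral_congr fun y => ?_
  by_cases hy : y ∈ E
  · rw [indicator_of_mem hy]
    unfold gT Hyg
    simp only [h1 (y, _) hy]
  · rw [indicator_of_notMem hy]
    have h3 : ∀ t, Hyg φ w M' y t = 0 := by
      intro t
      unfold Hyg
      simp only [h2 (y, _) hy, zero_mul, integral_zero]
    simp only [h3]
    simp

/-- Cells. -/
def ctn (s : ℝ) (i k : ℤ) : Set (ℝ × ℝ) := {y | ⌊y.1 / s⌋ = i ∧ ⌊y.2 / s⌋ = k}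

theorem ctn_meas (s : ℝ) (i k : ℤ) : MeasurableSet (ctn s i k) := by
  unfold ctn
  have h1 : Measurable fun y : ℝ × ℝ => ⌊y.1 / s⌋ := Int.measurable_floor.comp (by fun_prop)
  have h2 : Measurable fun y : ℝ × ℝ => ⌊y.2 / s⌋ := Int.measurable_floor.comp (by fun_prop)
  exact (measurableSet_eq_fun h1 measurable_const).inter (measurableSet_eq_fun h2 measurable_const)

/-- Restriction of a factor to a cell. -/
noncomputable def rtn (s : ℝ) (i : ℤ) (α : ℝ × ℝ → ℂ) (p : ℝ × ℝ) : ℂ :=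
  if ⌊p.1 / s⌋ = i then α p else 0

theorem rtn_meas (s : ℝ) (i : ℤ) {α : ℝ × ℝ → ℂ} (h : Measurable α) : Measurable (rtn s i α) := by
  unfold rtn
  have h1 : Measurable fun y : ℝ × ℝ => ⌊y.1 / s⌋ := Int.measurable_floor.comp (by fun_prop)
  exact Measurable.ite (measurableSet_eq_fun h1 measurable_const) h measurable_const

theorem rtn_norm (s : ℝ) (i : ℤ) {α : ℝ × ℝ → ℂ} (h : ∀ p, ‖α p‖ ≤ 1) (p : ℝ × ℝ) :
    ‖rtn s i α p‖ ≤ 1 := by
  unfold rtn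
  split_ifs
  · exact h p
  · simp

theorem rtn_SX {r s : ℝ} {i : ℤ} {α : ℝ × ℝ → ℂ} (h : SX r α) : SX r (rtn s i α) := by
  intro p hp
  refine h p ?_
  intro h1
  apply hp
  unfold rtn
  rw [h1]
  simp

theorem rtn_SY {s c : ℝ} (hs : 0 < s) {α : ℝ × ℝ → ℂ} : SY c s (rtn s ⌊c / s⌋ α) := by
  intro p hp
  have h1 : ⌊p.1 / s⌋ = ⌊c / s⌋ := by
    by_contra h2
    apply hp
    unfold rtn
    rw [if_neg h2]
  have h2 : |p.1 / s - c / s| < 1 := Int.abs_sub_lt_one_of_floor_eq_floor h1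
  rw [← sub_div, abs_div, abs_of_pos hs, div_lt_one hs] at h2
  exact h2.le

theorem tn_cell (φ w : YX → ℝ) (T s : ℝ) (i k : ℤ) (α β : ℝ × ℝ → ℂ) :
    ∫⁻ y in ctn s i k, gT φ w T (pd α β) y = Thg φ w T (pd (rtn s i α) (rtn s k β)) := by
  refine (tn_mask φ w T (pd α β) (ctn s i k) (ctn_meas s i k) _ ?_ ?_).symm
  · rintro p ⟨h1, h2⟩
    unfold pd rtn
    simp only
    rw [if_pos h1, if_pos h2]
  · intro p hp
    unfold pd rtn
    simp only
    by_cases h1 : ⌊p.1.1 / s⌋ = i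
    · rw [if_neg fun h2 => hp ⟨h1, h2⟩, mul_zero]
    · rw [if_neg h1, zero_mul]

theorem tn_union {ι : Type*} (F : Finset ι) (S : ι → Set (ℝ × ℝ)) (g : ℝ × ℝ → ℝ≥0∞) :
    ∫⁻ y in ⋃ i ∈ F, S i, g y ≤ ∑ i ∈ F, ∫⁻ y in S i, g y := by
  classical
  induction F using Finset.induction_on with
  | empty => simp
  | insert a F ha ih =>
    rw [Finset.sum_insert ha, Finset.set_biUnion_insert]
    refine (lintegral_union_le _ _ _).trans ?_
    gcongr

/-- Covering of a region close to a line by cells. -/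
theorem tn_cover (g : ℝ × ℝ → ℝ≥0∞) (g1 g2 ρ Θ s : ℝ) (hs : 0 < s) (h1 : -4 ≤ g1) (h1' : g1 ≤ 0)
    (h2 : 1 / 4 ≤ g2) (R : Set (ℝ × ℝ))
    (hR : ∀ y ∈ R, |y.1| ≤ ρ ∧ |lnE g1 g2 y| ≤ Θ * ρ) (K : ℝ≥0∞)
    (hK : ∀ yc ∈ R, ∫⁻ y in ctn s ⌊yc.1 / s⌋ ⌊yc.2 / s⌋, g y ≤ K) (N L : ℕ)
    (hN : ρ / s + 1 ≤ N) (hL : 4 * (Θ * ρ / s) + 17 ≤ L) :
    ∫⁻ y in R, g y ≤ (((2 * N + 1) * (2 * L + 1) : ℕ) : ℝ≥0∞) * K := by
  classical
  set ci : ℤ → ℤ := fun i => ⌊-(g1 / g2) * (i : ℝ)⌋ with hci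
  set F : Finset (ℤ × ℤ) := Finset.Icc (-(N : ℤ)) N ×ˢ Finset.Icc (-(L : ℤ)) L with hF
  have hsub : R ⊆ ⋃ p ∈ F, (ctn s p.1 (ci p.1 + p.2) ∩ R) := by
    intro y hy
    obtain ⟨a1, a2⟩ := hR y hy
    set i : ℤ := ⌊y.1 / s⌋ with hi
    set k : ℤ := ⌊y.2 / s⌋ with hk
    have hg2 : 0 < g2 := by linarith
    have i1 : (i : ℝ) ≤ y.1 / s := Int.floor_le _
    have i2 : y.1 / s < i + 1 := Int.lt_floor_add_one _
    have k1 : (k : ℝ) ≤ y.2 / s := Int.floor_le _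
    have k2 : y.2 / s < k + 1 := Int.lt_floor_add_one _
    have c1 : (ci i : ℝ) ≤ -(g1 / g2) * (i : ℝ) := Int.floor_le _
    have c2 : -(g1 / g2) * (i : ℝ) < ci i + 1 := Int.lt_floor_add_one _
    have b1 : |y.1 / s| ≤ ρ / s := by
      rw [abs_div, abs_of_pos hs]
      gcongr
    rw [abs_le] at b1
    -- the second coordinate
    have e1 : y.2 / s = -(g1 / g2) * (i : ℝ) + (-(g1 / g2) * (y.1 / s - i) +
        lnE g1 g2 y / s / g2) := by
      unfold lnE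
      field_simp
      ring
    have q1 : 0 ≤ -(g1 / g2) := by
      rw [neg_nonneg]
      exact div_nonpos_of_nonpos_of_nonneg h1' hg2.le
    have q2 : -(g1 / g2) ≤ 16 := by
      rw [neg_le, le_div_iff₀ hg2]
      linarith
    have f1 : 0 ≤ y.1 / s - i := by linarith
    have f2 : y.1 / s - i ≤ 1 := by linarith
    have f3 : 0 ≤ -(g1 / g2) * (y.1 / s - i) := mul_nonneg q1 f1
    have f4 : -(g1 / g2) * (y.1 / s - i) ≤ 16 := by
      calc -(g1 / g2) * (y.1 / s - i) ≤ 16 * 1 := by gcongr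
        _ = 16 := mul_one _
    have f5 : |lnE g1 g2 y / s / g2| ≤ 4 * (Θ * ρ / s) := by
      rw [abs_div, abs_div, abs_of_pos hs, abs_of_pos hg2, div_le_iff₀ hg2]
      have h3 : |lnE g1 g2 y| / s ≤ Θ * ρ / s := by gcongr
      have h4 : 0 ≤ Θ * ρ / s := (div_nonneg (abs_nonneg _) hs.le).trans h3
      nlinarith
    rw [abs_le] at f5
    have hi1 : -(N : ℤ) ≤ i := by
      have : (-(N : ℝ)) ≤ (i : ℝ) := by linarith [b1.1]
      exact_mod_cast this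
    have hi2 : i ≤ (N : ℤ) := by
      have : (i : ℝ) ≤ (N : ℝ) := by linarith [b1.2]
      exact_mod_cast this
    have hl1 : -(L : ℤ) ≤ k - ci i := by
      have : (-(L : ℝ)) ≤ ((k - ci i : ℤ) : ℝ) := by
        push_cast
        linarith [f5.1]
      exact_mod_cast this
    have hl2 : k - ci i ≤ (L : ℤ) := by
      have : ((k - ci i : ℤ) : ℝ) ≤ (L : ℝ) := by
        push_cast
        linarith [f5.2]
      exact_mod_cast this
    refine mem_iUnion₂.2 ⟨(i, k - ci i), ?_, ⟨hi.symm, ?_⟩, hy⟩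
    · rw [hF, Finset.mem_product, Finset.mem_Icc, Finset.mem_Icc]
      exact ⟨⟨hi1, hi2⟩, hl1, hl2⟩
    · simp only
      rw [← hk]
      ring
  have hcell : ∀ p ∈ F, ∫⁻ y in ctn s p.1 (ci p.1 + p.2) ∩ R, g y ≤ K := by
    intro p _
    rcases (ctn s p.1 (ci p.1 + p.2) ∩ R).eq_empty_or_nonempty with h3 | ⟨yc, h3, h4⟩
    · rw [h3]
      simp
    · have h5 := hK yc h4
      obtain ⟨h6, h7⟩ := h3
      rw [h6, h7] at h5
      exact (lintegral_mono_set inter_subset_left).trans h5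
  calc ∫⁻ y in R, g y ≤ ∫⁻ y in ⋃ p ∈ F, (ctn s p.1 (ci p.1 + p.2) ∩ R), g y :=
        lintegral_mono_set hsub
    _ ≤ ∑ p ∈ F, ∫⁻ y in ctn s p.1 (ci p.1 + p.2) ∩ R, g y := tn_union F _ g
    _ ≤ ∑ _p ∈ F, K := Finset.sum_le_sum hcell
    _ = (((2 * N + 1) * (2 * L + 1) : ℕ) : ℝ≥0∞) * K := by
        rw [Finset.sum_const, nsmul_eq_mul, hF, Finset.card_product, Int.card_Icc, Int.card_Icc]
        congr 3
        · omega
        · omega

end Pool.Agent.SDT.N1Q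

end -- N1Q.Tan1
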