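import Pool.Agent.SDT.B25

set_option autoImplicit false

namespace Pool.Agent.SDT.MP_6cbfb8_an
end Pool.Agent.SDT.MP_6cbfb8_an
namespace Pool.Agent.SDT.MST
end Pool.Agent.SDT.MST
namespace Pool.Agent.SDT.N1
end Pool.Agent.SDT.N1

section -- N1F.P1c

/-!
N1F, Proposition I: the remainder vanishes at `A = 0`, at `B = 0` and at `ρ = γ = 0`.
-/

namespace Pool.Agent.SDT.N1F

open MeasureTheory Set Metric Pool.Agent.SDT.MP_6cbfb8_an Pool.Agent.SDT.MST Pool.Agent.SDT.N1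
open scoped ENNReal Real ContDiff Topology

lemma E1_zero (c x1 x2 x3 x4 s : ℝ) (h : Qs c 0 s ≠ 0) :
    E1 c 0 x1 x2 x3 x4 s = 1 / Qs c 0 s := by
  unfold E1
  simp only [zero_mul, zero_add]
  field_simp
  ring

lemma E1_diag (c A x s : ℝ) (h : Qs c (A * x ^ 2) s ≠ 0) :
    E1 c A x x x x s = (A * x ^ 2 + Qs c (A * x ^ 2) s ^ 2) / Qs c (A * x ^ 2) s ^ 3 := by
  unfold E1
  field_simp
  ring

lemma E3_diag (c A B x w : ℝ) (h : Qs c (A * x ^ 2) (B * w ^ 2) ≠ 0) :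
    E3 c A B x x w w = x * w / Qs c (A * x ^ 2) (B * w ^ 2) ^ 3 := by
  unfold E3
  field_simp

lemma RI_A (c : ℝ) (hc : 0 < c) (x : P7 × V × V) (h : okI c x) (hA : x.1 0 = 0) :
    RI c x = 0 := by
  obtain ⟨h1, h2, h3⟩ := h
  have e1 := h2 false false
  have e3 := h2 false true
  have e0 := h1 false false
  simp only [prA, hA, zero_mul, sub_zero] at e0
  have z0 := Qs_zero c hc e0.le
  have p1 := Qs_pos c hc _ _ e1.le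
  have p3 := Qs_pos c hc _ _ e3.le
  have s3 := Qs_sq c hc _ _ e3.le
  simp only [prB] at p1 p3 s3
  have p3' : Qs c 0 (x.1 1 * Wi false true (x.1, x.2.2) ^ 2) ≠ 0 := by
    rw [Qs_comm]; exact p3.ne'
  unfold RI P11 P22 P12 UI omI sgI alI beI
  simp only [prA, prB, hA, zero_mul]
  rw [E1_zero c _ _ _ _ _ p3', E1_zero c _ _ _ _ _ (by rw [z0]; norm_num), z0]
  unfold E3
  simp only [zero_mul]
  rw [Qs_comm c 0 (x.1 1 * Wi false true (x.1, x.2.2) ^ 2),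
    Qs_comm c 0 (x.1 1 * Wi false false (x.1, x.2.2) ^ 2)]
  set q1 := Qs c (x.1 1 * Wi false false (x.1, x.2.2) ^ 2) 0
  set q3 := Qs c (x.1 1 * Wi false true (x.1, x.2.2) ^ 2) 0
  have s3' : 1 - x.1 1 * Wi false true (x.1, x.2.2) ^ 2 = q3 ^ 2 := by rw [s3]; ring
  rw [s3']
  field_simp
  ring

lemma RI_B (c : ℝ) (hc : 0 < c) (x : P7 × V × V) (h : okI c x) (hB : x.1 1 = 0) :
    RI c x = 0 := by
  obtain ⟨h1, h2, h3⟩ := h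
  have e1 := h1 false false
  have e2 := h1 true false
  have e0 := h2 false false
  simp only [prB, hB, zero_mul, sub_zero] at e0
  have z0 := Qs_zero c hc e0.le
  have p1 := Qs_pos c hc _ _ e1.le
  have p2 := Qs_pos c hc _ _ e2.le
  have s2 := Qs_sq c hc _ _ e2.le
  simp only [prA] at p1 p2 s2
  have p2' : Qs c 0 (x.1 0 * Xi true false (x.1, x.2.1) ^ 2) ≠ 0 := by
    rw [Qs_comm]; exact p2.ne'
  unfold RI P11 P22 P12 UI omI sgI alI beI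
  simp only [prA, prB, hB, zero_mul]
  rw [E1_zero c _ _ _ _ _ p2', E1_zero c _ _ _ _ _ (by rw [z0]; norm_num), z0]
  unfold E3
  simp only [zero_mul]
  rw [Qs_comm c 0 (x.1 0 * Xi true false (x.1, x.2.1) ^ 2)]
  set q1 := Qs c (x.1 0 * Xi false false (x.1, x.2.1) ^ 2) 0
  set q2 := Qs c (x.1 0 * Xi true false (x.1, x.2.1) ^ 2) 0
  have s2' : 1 - x.1 0 * Xi true false (x.1, x.2.1) ^ 2 = q2 ^ 2 := by rw [s2]; ring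
  rw [s2']
  field_simp
  ring

lemma Xi_diag (e f : Bool) (x : P7 × V) (h2 : x.1 2 = 0) (h3 : x.1 3 = 0) :
    Xi e f x = x.2.2.1 := by
  unfold Xi
  rw [h2, h3]
  ring

lemma Wi_diag (e f : Bool) (x : P7 × V) (h4 : x.1 4 = 0) (h5 : x.1 5 = 0) :
    Wi e f x = x.2.2.1 := by
  unfold Wi
  rw [h4, h5]
  ring

/-- Base functions. -/
noncomputable def f0 (A : ℝ) (a : V) : ℝ := a.1 * a.2.2 / (1 - A * a.2.1 ^ 2)
noncomputable def f1 (A : ℝ) (a : V) : ℝ := a.2.1 * a.1 / (1 - A * a.2.1 ^ 2)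
noncomputable def f2 (A : ℝ) (a : V) : ℝ := a.2.1 * a.2.2 / (1 - A * a.2.1 ^ 2)

lemma omI_base (c : ℝ) (hc : 0 < c) (x : P7 × V) (h : okA c x) (h2 : x.1 2 = 0) (h3 : x.1 3 = 0) :
    omI c x = f0 (x.1 0) x.2 := by
  have e := h false false
  rw [Xi_diag _ _ x h2 h3] at e
  have p := Qs_pos c hc _ _ e.le
  have s := Qs_sq c hc _ _ e.le
  have hc8 : 0 < c ^ 2 / 8 := by positivity
  have n : 1 - x.1 0 * x.2.2.1 ^ 2 ≠ 0 := by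
    rw [sub_zero] at e
    linarith
  unfold omI f0
  simp only [Xi_diag _ _ x h2 h3]
  rw [E1_diag c _ _ _ p.ne']
  set q := Qs c (x.1 0 * x.2.2.1 ^ 2) 0
  have s' : 1 - x.1 0 * x.2.2.1 ^ 2 = q ^ 2 := by rw [s]; ring
  have s'' : x.1 0 * x.2.2.1 ^ 2 + q ^ 2 = 1 := by rw [s]; ring
  rw [s', s'']
  field_simp

lemma sgI_base (c : ℝ) (hc : 0 < c) (x : P7 × V) (h : okB c x) (h2 : x.1 4 = 0) (h3 : x.1 5 = 0) :
    sgI c x = -f0 (x.1 1) x.2 := by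
  have e := h false false
  rw [Wi_diag _ _ x h2 h3] at e
  have p := Qs_pos c hc _ _ e.le
  have s := Qs_sq c hc _ _ e.le
  have hc8 : 0 < c ^ 2 / 8 := by positivity
  have n : 1 - x.1 1 * x.2.2.1 ^ 2 ≠ 0 := by
    rw [sub_zero] at e
    linarith
  unfold sgI f0
  simp only [Wi_diag _ _ x h2 h3]
  rw [E1_diag c _ _ _ p.ne']
  set q := Qs c (x.1 1 * x.2.2.1 ^ 2) 0
  have s' : 1 - x.1 1 * x.2.2.1 ^ 2 = q ^ 2 := by rw [s]; ring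
  have s'' : x.1 1 * x.2.2.1 ^ 2 + q ^ 2 = 1 := by rw [s]; ring
  rw [s', s'']
  field_simp

lemma alI_base (c : ℝ) (hc : 0 < c) (x : P7 × V) (h : okA c x) (h2 : x.1 2 = 0) (h3 : x.1 3 = 0) :
    alI c x = f1 (x.1 0) x.2 := by
  have e := h false false
  rw [Xi_diag _ _ x h2 h3] at e
  have p := Qs_pos c hc _ _ e.le
  have s := Qs_sq c hc _ _ e.le
  unfold alI f1
  simp only [Xi_diag _ _ x h2 h3]
  set q := Qs c (x.1 0 * x.2.2.1 ^ 2) 0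
  have s' : 1 - x.1 0 * x.2.2.1 ^ 2 = q ^ 2 := by rw [s]; ring
  rw [s']
  field_simp

lemma beI_base (c : ℝ) (hc : 0 < c) (x : P7 × V) (h : okB c x) (h2 : x.1 4 = 0) (h3 : x.1 5 = 0) :
    beI c x = f2 (x.1 1) x.2 := by
  have e := h false false
  rw [Wi_diag _ _ x h2 h3] at e
  have p := Qs_pos c hc _ _ e.le
  have s := Qs_sq c hc _ _ e.le
  unfold beI f2
  simp only [Wi_diag _ _ x h2 h3]
  set q := Qs c (x.1 1 * x.2.2.1 ^ 2) 0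
  have s' : 1 - x.1 1 * x.2.2.1 ^ 2 = q ^ 2 := by rw [s]; ring
  rw [s']
  field_simp

lemma base_nf (c : ℝ) (hc : 0 < c) (x : P7 × V × V) (h : okI c x) (h2 : x.1 2 = 0)
    (h3 : x.1 3 = 0) (h4 : x.1 4 = 0) (h5 : x.1 5 = 0) :
    RI c x = 0 ∧ P21 c x = -(UI c x * (f2 (x.1 0) x.2.1 * f1 (x.1 1) x.2.2)) := by
  obtain ⟨k1, k2, k3⟩ := h
  have b1 := omI_base c hc (prA x) k1 h2 h3
  have b2 := sgI_base c hc (prB x) k2 h4 h5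
  have b3 := alI_base c hc (prA x) k1 h2 h3
  have b4 := beI_base c hc (prB x) k2 h4 h5
  have e := k3 false false false false
  have ea := k1 false false
  have eb := k2 false false
  have hXd : ∀ e f, Xi e f (prA x) = x.2.1.2.1 := fun e f => Xi_diag e f (prA x) h2 h3
  have hWd : ∀ e f, Wi e f (prB x) = x.2.2.2.1 := fun e f => Wi_diag e f (prB x) h4 h5
  rw [hXd, hWd] at e
  rw [hXd] at ea
  rw [hWd] at eb
  have p := Qs_pos c hc _ _ e.le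
  have s := Qs_sq c hc _ _ e.le
  have hc8 : 0 < c ^ 2 / 8 := by positivity
  have na : 1 - x.1 0 * x.2.1.2.1 ^ 2 ≠ 0 := by
    simp only [prA, sub_zero] at ea
    linarith
  have nb : 1 - x.1 1 * x.2.2.2.1 ^ 2 ≠ 0 := by
    simp only [prB, sub_zero] at eb
    linarith
  have s1 : x.1 0 * x.2.1.2.1 ^ 2 + Qs c (x.1 0 * x.2.1.2.1 ^ 2) (x.1 1 * x.2.2.2.1 ^ 2) ^ 2 =
      1 - x.1 1 * x.2.2.2.1 ^ 2 := by rw [s]; ring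
  have s2 : x.1 1 * x.2.2.2.1 ^ 2 + Qs c (x.1 0 * x.2.1.2.1 ^ 2) (x.1 1 * x.2.2.2.1 ^ 2) ^ 2 =
      1 - x.1 0 * x.2.1.2.1 ^ 2 := by rw [s]; ring
  have c1 : P11 c x = -(x.2.1.1 * x.2.1.2.2 * ((1 - x.1 1 * x.2.2.2.1 ^ 2) /
      Qs c (x.1 0 * x.2.1.2.1 ^ 2) (x.1 1 * x.2.2.2.1 ^ 2) ^ 3)) := by
    unfold P11
    simp only [hXd, hWd]
    rw [E1_diag c _ _ _ p.ne', s1]
  have c2 : P22 c x = -(x.2.2.1 * x.2.2.2.2 * ((1 - x.1 0 * x.2.1.2.1 ^ 2) /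
      Qs c (x.1 0 * x.2.1.2.1 ^ 2) (x.1 1 * x.2.2.2.1 ^ 2) ^ 3)) := by
    unfold P22
    simp only [hXd, hWd]
    rw [E1_diag c _ _ _ (by rw [Qs_comm]; exact p.ne'),
      Qs_comm c (x.1 1 * x.2.2.2.1 ^ 2) (x.1 0 * x.2.1.2.1 ^ 2), s2]
  have c3 : P12 c x = -(x.2.1.1 * x.2.2.2.2 * (x.2.1.2.1 * x.2.2.2.1 /
      Qs c (x.1 0 * x.2.1.2.1 ^ 2) (x.1 1 * x.2.2.2.1 ^ 2) ^ 3)) := by
    unfold P12
    simp only [hXd, hWd]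
    rw [E3_diag c _ _ _ _ p.ne']
  have c4 : P21 c x = -(x.2.1.2.2 * x.2.2.1 * (x.2.1.2.1 * x.2.2.2.1 /
      Qs c (x.1 0 * x.2.1.2.1 ^ 2) (x.1 1 * x.2.2.2.1 ^ 2) ^ 3)) := by
    unfold P21
    simp only [hXd, hWd]
    rw [E3_diag c _ _ _ _ p.ne']
  have c5 : UI c x = (1 - x.1 0 * x.2.1.2.1 ^ 2) * (1 - x.1 1 * x.2.2.2.1 ^ 2) /
      Qs c (x.1 0 * x.2.1.2.1 ^ 2) (x.1 1 * x.2.2.2.1 ^ 2) ^ 3 := by
    unfold UI
    simp only [hXd, hWd]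
  constructor
  · unfold RI
    rw [b1, b2, b3, b4, c1, c2, c3, c5]
    unfold f0 f1 f2
    simp only [prA, prB]
    field_simp
    ring
  · rw [c4, c5]
    unfold f1 f2
    have pn := p.ne'
    set Q := Qs c (x.1 0 * x.2.1.2.1 ^ 2) (x.1 1 * x.2.2.2.1 ^ 2)
    set D1 := 1 - x.1 0 * x.2.1.2.1 ^ 2
    set D2 := 1 - x.1 1 * x.2.2.2.1 ^ 2
    field_simp

/-- The phase of a rectangle in scaled variables. -/
theorem Fr_nf (c : ℝ) (hc : 0 < c) (al be ρ₁ ρ₂ γ₁ γ₂ κ₁ : ℝ) (a b : V)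
    (h : okI c ((![al ^ 2, be ^ 2, ρ₁, γ₁, ρ₂, γ₂, κ₁] : P7), a, b)) :
    Fr c (al * ρ₁ * a.1, al * a.2.1, al * γ₁ * a.2.2) (be * ρ₂ * b.1, be * b.2.1, be * γ₂ * b.2.2) =
      al ^ 2 * ρ₁ * γ₁ * P11 c ((![al ^ 2, be ^ 2, ρ₁, γ₁, ρ₂, γ₂, κ₁] : P7), a, b) +
      be ^ 2 * ρ₂ * γ₂ * P22 c ((![al ^ 2, be ^ 2, ρ₁, γ₁, ρ₂, γ₂, κ₁] : P7), a, b) +
      al ^ 2 * be ^ 2 * ρ₁ * γ₂ * P12 c ((![al ^ 2, be ^ 2, ρ₁, γ₁, ρ₂, γ₂, κ₁] : P7), a, b) +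
      al ^ 2 * be ^ 2 * γ₁ * ρ₂ * P21 c ((![al ^ 2, be ^ 2, ρ₁, γ₁, ρ₂, γ₂, κ₁] : P7), a, b) := by
  obtain ⟨h1, h2, h3⟩ := h
  set p : P7 := ![al ^ 2, be ^ 2, ρ₁, γ₁, ρ₂, γ₂, κ₁] with hp
  have e0 : p 0 = al ^ 2 := rfl
  have e1 : p 1 = be ^ 2 := rfl
  have e2 : p 2 = ρ₁ := rfl
  have e3 : p 3 = γ₁ := rfl
  have e4 : p 4 = ρ₂ := rfl
  have e5 : p 5 = γ₂ := rfl
  have x1 : Xi false false (prA (p, a, b)) = a.2.1 := by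
    simp [Xi, prA, bt]
  have x2 : Xi true false (prA (p, a, b)) = a.2.1 - ρ₁ * a.1 := by
    simp [Xi, prA, bt, e2]
  have x3 : Xi false true (prA (p, a, b)) = a.2.1 - γ₁ * a.2.2 := by
    simp [Xi, prA, bt, e3]
  have x4 : Xi true true (prA (p, a, b)) = a.2.1 - ρ₁ * a.1 - γ₁ * a.2.2 := by
    simp [Xi, prA, bt, e2, e3]
  have w1 : Wi false false (prB (p, a, b)) = b.2.1 := by
    simp [Wi, prB, bt]
  have w2 : Wi true false (prB (p, a, b)) = b.2.1 - ρ₂ * b.1 := by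
    simp [Wi, prB, bt, e4]
  have w3 : Wi false true (prB (p, a, b)) = b.2.1 - γ₂ * b.2.2 := by
    simp [Wi, prB, bt, e5]
  have w4 : Wi true true (prB (p, a, b)) = b.2.1 - ρ₂ * b.1 - γ₂ * b.2.2 := by
    simp [Wi, prB, bt, e4, e5]
  have H : ∀ x ∈ ({a.2.1, a.2.1 - ρ₁ * a.1, a.2.1 - γ₁ * a.2.2, a.2.1 - ρ₁ * a.1 - γ₁ * a.2.2} :
      Set ℝ), ∀ w ∈ ({b.2.1, b.2.1 - ρ₂ * b.1, b.2.1 - γ₂ * b.2.2,
        b.2.1 - ρ₂ * b.1 - γ₂ * b.2.2} : Set ℝ),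
      c ^ 2 / 8 ≤ 1 - al ^ 2 * x ^ 2 - be ^ 2 * w ^ 2 := by
    have k := h3
    simp only [Bool.forall_bool, x1, x2, x3, x4, w1, w2, w3, w4, e0, e1] at k
    obtain ⟨⟨⟨⟨k1, k2⟩, k3, k4⟩, ⟨k5, k6⟩, k7, k8⟩, ⟨⟨k9, k10⟩, k11, k12⟩, ⟨k13, k14⟩,
      k15, k16⟩ := k
    rintro x (rfl | rfl | rfl | rfl) w (rfl | rfl | rfl | rfl) <;> linarith
  have T1 := E1_id c hc (al ^ 2) a.2.1 (ρ₁ * a.1) (γ₁ * a.2.2)
    (be ^ 2 * (b.2.1 - γ₂ * b.2.2) ^ 2) (H _ (by simp) _ (by simp)) (H _ (by simp) _ (by simp))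
    (H _ (by simp) _ (by simp)) (H _ (by simp) _ (by simp))
  have T2 := E1_id c hc (be ^ 2) b.2.1 (ρ₂ * b.1) (γ₂ * b.2.2)
    (al ^ 2 * (a.2.1 - ρ₁ * a.1) ^ 2)
    (by have := H (a.2.1 - ρ₁ * a.1) (by simp) b.2.1 (by simp); linarith)
    (by have := H (a.2.1 - ρ₁ * a.1) (by simp) (b.2.1 - ρ₂ * b.1) (by simp); linarith)
    (by have := H (a.2.1 - ρ₁ * a.1) (by simp) (b.2.1 - γ₂ * b.2.2) (by simp); linarith)
    (by have := H (a.2.1 - ρ₁ * a.1) (by simp) (b.2.1 - ρ₂ * b.1 - γ₂ * b.2.2) (by simp); linarith)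
  have T3 := E3_id c hc (al ^ 2) (be ^ 2) a.2.1 (ρ₁ * a.1) b.2.1 (γ₂ * b.2.2)
    (H _ (by simp) _ (by simp)) (H _ (by simp) _ (by simp)) (H _ (by simp) _ (by simp))
    (H _ (by simp) _ (by simp))
  have T4 := E3_id c hc (al ^ 2) (be ^ 2) (a.2.1 - ρ₁ * a.1) (γ₁ * a.2.2)
    (b.2.1 - γ₂ * b.2.2) (ρ₂ * b.1)
    (H _ (by simp) _ (by simp)) (H _ (by simp) _ (by simp))
    (by have := H (a.2.1 - ρ₁ * a.1) (by simp) (b.2.1 - ρ₂ * b.1 - γ₂ * b.2.2) (by simp)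
        rw [show b.2.1 - γ₂ * b.2.2 - ρ₂ * b.1 = b.2.1 - ρ₂ * b.1 - γ₂ * b.2.2 by ring]
        exact this)
    (by have := H (a.2.1 - ρ₁ * a.1 - γ₁ * a.2.2) (by simp)
          (b.2.1 - ρ₂ * b.1 - γ₂ * b.2.2) (by simp)
        rw [show b.2.1 - γ₂ * b.2.2 - ρ₂ * b.1 = b.2.1 - ρ₂ * b.1 - γ₂ * b.2.2 by ring]
        exact this)
  rw [show b.2.1 - γ₂ * b.2.2 - ρ₂ * b.1 = b.2.1 - ρ₂ * b.1 - γ₂ * b.2.2 by ring] at T4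
  unfold P11 P22 P12 P21
  rw [x1, x2, x3, x4, w1, w2, w3, w4]
  dsimp only
  rw [e0, e1]
  have hq : ∀ x w : ℝ, qf c (al * x) (be * w) = Qs c (al ^ 2 * x ^ 2) (be ^ 2 * w ^ 2) := by
    intro x w
    unfold qf Qs
    congr 1
    ring
  have hFr : Fr c (al * ρ₁ * a.1, al * a.2.1, al * γ₁ * a.2.2)
      (be * ρ₂ * b.1, be * b.2.1, be * γ₂ * b.2.2) =
      Qs c (al ^ 2 * a.2.1 ^ 2) (be ^ 2 * b.2.1 ^ 2) -
      Qs c (al ^ 2 * (a.2.1 - ρ₁ * a.1) ^ 2) (be ^ 2 * (b.2.1 - ρ₂ * b.1) ^ 2) -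
      Qs c (al ^ 2 * (a.2.1 - γ₁ * a.2.2) ^ 2) (be ^ 2 * (b.2.1 - γ₂ * b.2.2) ^ 2) +
      Qs c (al ^ 2 * (a.2.1 - ρ₁ * a.1 - γ₁ * a.2.2) ^ 2)
        (be ^ 2 * (b.2.1 - ρ₂ * b.1 - γ₂ * b.2.2) ^ 2) := by
    unfold Fr
    simp only
    rw [← hq, ← hq, ← hq, ← hq]
    rw [show al * a.2.1 - al * ρ₁ * a.1 = al * (a.2.1 - ρ₁ * a.1) by ring,
      show be * b.2.1 - be * ρ₂ * b.1 = be * (b.2.1 - ρ₂ * b.1) by ring,
      show al * a.2.1 - al * γ₁ * a.2.2 = al * (a.2.1 - γ₁ * a.2.2) by ring,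
      show be * b.2.1 - be * γ₂ * b.2.2 = be * (b.2.1 - γ₂ * b.2.2) by ring,
      show al * (a.2.1 - ρ₁ * a.1) - al * γ₁ * a.2.2 = al * (a.2.1 - ρ₁ * a.1 - γ₁ * a.2.2) by ring,
      show be * (b.2.1 - ρ₂ * b.1) - be * γ₂ * b.2.2 = be * (b.2.1 - ρ₂ * b.1 - γ₂ * b.2.2) by
        ring]
  rw [hFr]
  rw [Qs_comm c (be ^ 2 * b.2.1 ^ 2), Qs_comm c (be ^ 2 * (b.2.1 - ρ₂ * b.1) ^ 2),
    Qs_comm c (be ^ 2 * (b.2.1 - γ₂ * b.2.2) ^ 2),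
    Qs_comm c (be ^ 2 * (b.2.1 - ρ₂ * b.1 - γ₂ * b.2.2) ^ 2)] at T2
  linear_combination T1 + T2 + T3 + T4

end Pool.Agent.SDT.N1F

end -- N1F.P1c
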