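import Pool.Agent.SDT.B22
import Pool.Agent.SDT.B25

set_option autoImplicit false

namespace Pool.Agent.SDT.MP_6cbfb8_an
end Pool.Agent.SDT.MP_6cbfb8_an
namespace Pool.Agent.SDT.MST
end Pool.Agent.SDT.MST
namespace Pool.Agent.SDT.N1
end Pool.Agent.SDT.N1
namespace Pool.Agent.SDT.N1F
end Pool.Agent.SDT.N1F
namespace Pool.Agent.SDT.N1G
end Pool.Agent.SDT.N1G
namespace Pool.Agent.SDT.N1M
end Pool.Agent.SDT.N1M

section -- N1F.A2s

/-!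
N1F, block A2: the four-linear form in scaled variables, amplitude.
-/

namespace Pool.Agent.SDT.N1F

open MeasureTheory Set Metric Pool.Agent.SDT.MP_6cbfb8_an Pool.Agent.SDT.MST Pool.Agent.SDT.N1
open scoped ENNReal Real ContDiff Topology

/-- The four-linear form in scaled variables. -/
theorem FF_nf (c T : ℝ) (hT : 0 < T) (s1 s2 s3 t1 t2 t3 : ℝ) (hs1 : 0 < s1) (hs2 : 0 < s2)
    (hs3 : 0 < s3) (ht1 : 0 < t1) (ht2 : 0 < t2) (ht3 : 0 < t3) (A B : V → ℂ) (m : ℝ)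
    (Ef Ff Wf : V × V → ℝ)
    (h : ∀ a b, A (Sc3 s1 s2 s3 a) ≠ 0 → B (Sc3 t1 t2 t3 b) ≠ 0 → Ef (a, b) ≠ 0 ∧
      Fr c (Sc3 s1 s2 s3 a) (Sc3 t1 t2 t3 b) = m * (Ef (a, b) * Ff (a, b)) ∧
      Wr c (Sc3 s1 s2 s3 a) (Sc3 t1 t2 t3 b) = Wf (a, b)) :
    FF c T (tp A B) = (((s1 * s2 * s3) * (t1 * t2 * t3) * T : ℝ) : ℂ) *
      ∫ q : V × V, A (Sc3 s1 s2 s3 q.1) * B (Sc3 t1 t2 t3 q.2) * ∫ s : ℝ,
        ((Wf q * (chi (s / Ef q) / |Ef q|) : ℝ) : ℂ) * ex (T * m * (s * Ff q)) := by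
  unfold FF
  rw [integral_scale3 _ s1 s2 s3 t1 t2 t3 hs1 hs2 hs3 ht1 ht2 ht3, Complex.ofReal_mul _ T,
    mul_assoc _ ((T : ℝ) : ℂ), ← integral_const_mul ((T : ℝ) : ℂ)]
  congr 1
  refine integral_congr_ae (Filter.Eventually.of_forall fun q => ?_)
  simp only [tp]
  by_cases hq : A (Sc3 s1 s2 s3 q.1) = 0
  · rw [hq]; simp
  by_cases hq' : B (Sc3 t1 t2 t3 q.2) = 0
  · rw [hq']; simp
  obtain ⟨h1, h2, h3⟩ := h q.1 q.2 hq hq'
  rw [Kt_scale T _ (Ef q) (Ff q) hT h1 m h2, h3]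
  have h5 : ∀ s : ℝ, ((Wf q * (chi (s / Ef q) / |Ef q|) : ℝ) : ℂ) *
      ex (T * m * (s * Ff q)) = ((Wf q : ℝ) : ℂ) * (((chi (s / Ef q) / |Ef q| : ℝ) : ℂ) *
        ex (T * m * (s * Ff q))) := by
    intro s
    rw [Complex.ofReal_mul]
    ring
  simp only [h5]
  rw [integral_const_mul]
  ring

/-- The amplitude in scaled variables. -/
noncomputable def WI (c : ℝ) (x : P7 × V × V) : ℝ :=
  sma c (1 - x.1 0 * Xi false false (prA x) ^ 2 - x.1 1 * Wi false false (prB x) ^ 2) *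
    sma c (1 - x.1 0 * Xi true false (prA x) ^ 2 - x.1 1 * Wi true false (prB x) ^ 2) *
    sma c (1 - x.1 0 * Xi false true (prA x) ^ 2 - x.1 1 * Wi false true (prB x) ^ 2) *
    sma c (1 - x.1 0 * Xi true true (prA x) ^ 2 - x.1 1 * Wi true true (prB x) ^ 2)

/-- The parameters. -/
def pI (A B r1 g1 r2 g2 k : ℝ) : P7 := ![A, B, r1, g1, r2, g2, k]

lemma WI_eq (c al be r1 g1 r2 g2 k : ℝ) (a b : V) :
    Wr c (Sc3 (al * r1) al (al * g1) a) (Sc3 (be * r2) be (be * g2) b) =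
      WI c (pI (al ^ 2) (be ^ 2) r1 g1 r2 g2 k, a, b) := by
  unfold Wr WI wf Sc3 Xi Wi prA prB pI bt
  simp only [Matrix.cons_val_zero, Matrix.cons_val_one, Matrix.cons_val, if_true, if_false,
    Bool.false_eq_true, one_mul, zero_mul, sub_zero]
  congr 1
  · congr 1
    · congr 1
      · congr 1
        ring
      · congr 1
        ring
    · congr 1
      ring
  · congr 1
    ring

/-- The amplitude. -/
noncomputable def amI (c : ℝ) (Ef : P7 × V × V → ℝ) (x : ℝ × P7 × V × V) : ℝ :=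
  WI c x.2 * (chi (x.1 / Ef x.2) / |Ef x.2|)

lemma amI_smooth (c : ℝ) (hc : 0 < c) (Ef : P7 × V × V → ℝ) (S : Set (P7 × V × V))
    (hE : ContDiffOn ℝ ∞ Ef S) (hE0 : ∀ x ∈ S, Ef x ≠ 0) :
    ContDiffOn ℝ ∞ (amI c Ef) (univ ×ˢ S) := by
  have h1 : ContDiffOn ℝ ∞ (fun x : ℝ × P7 × V × V => Ef x.2) (univ ×ˢ S) :=
    hE.comp contDiff_snd.contDiffOn (fun x hx => hx.2)
  have hs := sma_smooth c hc
  have hk : ∀ e f : Bool, ContDiff ℝ ∞ fun x : P7 × V × V =>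
      sma c (1 - x.1 0 * Xi e f (prA x) ^ 2 - x.1 1 * Wi e f (prB x) ^ 2) := fun e f =>
    hs.comp ((contDiff_const.sub ((pi_cd 0).mul ((XA_cd e f).pow 2))).sub
      ((pi_cd 1).mul ((WB_cd e f).pow 2)))
  have h2 : ContDiff ℝ ∞ (fun x : ℝ × P7 × V × V => WI c x.2) := by
    have : ContDiff ℝ ∞ (WI c) := ((((hk _ _).mul (hk _ _)).mul (hk _ _)).mul (hk _ _))
    exact this.comp contDiff_snd
  have h4 : ContDiffOn ℝ ∞ (fun x : ℝ × P7 × V × V => chi (x.1 / Ef x.2)) (univ ×ˢ S) :=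
    chi_smooth.comp_contDiffOn (contDiff_fst.contDiffOn.div h1 (fun x hx => hE0 _ hx.2))
  have h5 : ContDiffOn ℝ ∞ (fun x : ℝ × P7 × V × V => |Ef x.2|) (univ ×ˢ S) := by
    intro x hx
    exact (contDiffAt_abs (hE0 _ hx.2)).comp_contDiffWithinAt x (h1 x hx)
  exact h2.contDiffOn.mul (h4.div h5 (fun x hx => abs_ne_zero.2 (hE0 _ hx.2)))

lemma amI_supp (c : ℝ) (Ef : P7 × V × V → ℝ) (e0 e1 s : ℝ) (q : P7 × V × V)
    (he0 : 0 < e0) (h0 : e0 ≤ |Ef q|) (h1 : |Ef q| ≤ e1) (h : amI c Ef (s, q) ≠ 0) :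
    e0 / 2 ≤ |s| ∧ |s| ≤ 3 * e1 := by
  have hchi : chi (s / Ef q) ≠ 0 := by
    intro h2
    apply h
    unfold amI
    simp only
    rw [h2, zero_div, mul_zero]
  obtain ⟨g1, g2⟩ := chi_zero _ hchi
  have hE : 0 < |Ef q| := lt_of_lt_of_le he0 h0
  have h3 : |s| = |s / Ef q| * |Ef q| := by
    rw [abs_div]
    field_simp
  have h4 : |s / Ef q| = s / Ef q := abs_of_nonneg (by linarith)
  rw [h4] at h3
  rw [h3]
  constructor
  · nlinarith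
  · nlinarith

end Pool.Agent.SDT.N1F

end -- N1F.A2s

section -- N1M.M2a

/-!
N1M, block M2: exact algebra of the normal form, type N. Everything is in terms of real numbers.
-/

namespace Pool.Agent.SDT.N1M

/-- The level set of the midpoint quotient. -/
lemma lev (A c w h u v : ℝ) (hu : 0 < u) (hv : 0 < v) (eu : u ^ 2 = h - A * (c + w / 2) ^ 2)
    (ev : v ^ 2 = h - A * (c - w / 2) ^ 2) :
    (c ^ 2 + A * (2 * c / (u + v)) ^ 2 * w ^ 2 / 4) * (1 + A * (2 * c / (u + v)) ^ 2) =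
      (2 * c / (u + v)) ^ 2 * h := by
  have hS : 0 < u + v := by linarith
  have e1 : (u + v) * (u - v) = -(2 * A * c * w) := by
    have : (u + v) * (u - v) = u ^ 2 - v ^ 2 := by ring
    rw [this, eu, ev]; ring
  have e2 : (u + v) ^ 2 * (u - v) ^ 2 = 4 * A ^ 2 * c ^ 2 * w ^ 2 := by
    have : (u + v) ^ 2 * (u - v) ^ 2 = ((u + v) * (u - v)) ^ 2 := by ring
    rw [this, e1]; ring
  have e3 : (u + v) ^ 2 + (u - v) ^ 2 = 4 * h - 4 * A * c ^ 2 - A * w ^ 2 := by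
    have : (u + v) ^ 2 + (u - v) ^ 2 = 2 * u ^ 2 + 2 * v ^ 2 := by ring
    rw [this, eu, ev]; ring
  have key : ((u + v) ^ 2 + A * w ^ 2) * ((u + v) ^ 2 + 4 * A * c ^ 2) = 4 * h * (u + v) ^ 2 := by
    have : ((u + v) ^ 2 + A * w ^ 2) * ((u + v) ^ 2 + 4 * A * c ^ 2) =
      (u + v) ^ 2 * ((u + v) ^ 2 + (u - v) ^ 2 + 4 * A * c ^ 2 + A * w ^ 2) +
        (4 * A ^ 2 * c ^ 2 * w ^ 2 - (u + v) ^ 2 * (u - v) ^ 2) := by ring
    rw [this, e2, e3]; ring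
  have l1 : c ^ 2 + A * (2 * c / (u + v)) ^ 2 * w ^ 2 / 4 =
      c ^ 2 * ((u + v) ^ 2 + A * w ^ 2) / (u + v) ^ 2 := by
    field_simp
    ring
  have l2 : 1 + A * (2 * c / (u + v)) ^ 2 = ((u + v) ^ 2 + 4 * A * c ^ 2) / (u + v) ^ 2 := by
    field_simp
    ring
  rw [l1, l2, div_mul_div_comm, mul_assoc, key]
  field_simp
  ring

/-- Difference of two level equations. -/
lemma lev2 (A c d w h1 h2 z1 z2 : ℝ) (k1 : 1 + A * z1 ≠ 0) (k2 : 1 + A * z2 ≠ 0) (hh : h1 ≠ 0)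
    (e1 : (c ^ 2 + A * z1 * w ^ 2 / 4) * (1 + A * z1) = z1 * h1)
    (e2 : (d ^ 2 + A * z2 * w ^ 2 / 4) * (1 + A * z2) = z2 * h2) :
    (z1 - z2) * (A * w ^ 2 / 4 - h2 / ((1 + A * z1) * (1 + A * z2))) * h1 =
      d ^ 2 * h1 - c ^ 2 * h2 + A * z1 * w ^ 2 * (h1 - h2) / 4 := by
  have f1 : z1 / (1 + A * z1) = (c ^ 2 + A * z1 * w ^ 2 / 4) / h1 := by
    rw [div_eq_div_iff k1 hh]
    linarith
  have f2 : z2 * h2 / (1 + A * z2) = d ^ 2 + A * z2 * w ^ 2 / 4 := by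
    rw [div_eq_iff k2]
    linarith
  have f3 : (z1 - z2) / ((1 + A * z1) * (1 + A * z2)) = z1 / (1 + A * z1) - z2 / (1 + A * z2) := by
    rw [div_sub_div _ _ k1 k2]
    congr 1
    ring
  have f4 : (z1 - z2) * (A * w ^ 2 / 4 - h2 / ((1 + A * z1) * (1 + A * z2))) =
      (z1 - z2) * (A * w ^ 2 / 4) - h2 * ((z1 - z2) / ((1 + A * z1) * (1 + A * z2))) := by
    ring
  have f5 : h2 * (z2 / (1 + A * z2)) = d ^ 2 + A * z2 * w ^ 2 / 4 := by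
    rw [← f2]; ring
  rw [f4, f3, mul_sub h2, f1, f5]
  field_simp
  ring

/-- The first part of the phase. -/
lemma partN1 (A m ρ γ Y X Z y r q11 q31 q22 q42 s1 s2 : ℝ)
    (p11 : 0 < q11) (p31 : 0 < q31) (p22 : 0 < q22) (p42 : 0 < q42) (ps1 : 0 < s1) (ps2 : 0 < s2)
    (hh1 : s1 ^ 2 = hm m r) (hh2 : s2 ^ 2 = hm m (r - ρ * y))
    (e11 : q11 ^ 2 = hm m r - A * X ^ 2) (e31 : q31 ^ 2 = hm m r - A * (X - γ * Z) ^ 2)
    (e22 : q22 ^ 2 = hm m (r - ρ * y) - A * (X - ρ * Y) ^ 2)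
    (e42 : q42 ^ 2 = hm m (r - ρ * y) - A * (X - ρ * Y - γ * Z) ^ 2)
    (c d : ℝ) (hc : c = X - γ * Z / 2) (hd : d = X - γ * Z / 2 - ρ * Y) (pc : 0 < c) (pd : 0 < d)
    (R1 R2 : ℝ) (hR1 : R1 = 2 * c / (q11 + q31)) (hR2 : R2 = 2 * d / (q22 + q42))
    (k1 : 1 + A * R1 ^ 2 ≠ 0) (k2 : 1 + A * R2 ^ 2 ≠ 0)
    (D : ℝ) (hD : D = A * (γ * Z) ^ 2 / 4 - s2 ^ 2 / ((1 + A * R1 ^ 2) * (1 + A * R2 ^ 2)))
    (hD0 : D ≠ 0) (sg : ℝ) (hsg : sg = y * (2 - m * (2 * r - ρ * y)) / (s2 * (s1 + s2))) :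
    q11 - q31 - q22 + q42 = A * ρ * γ * ((Z * s2 * d * (c * s2 + d * s1) /
      (s1 ^ 2 * D * (R1 + R2))) * (Y / d - sg -
        A * γ ^ 2 * (Z ^ 2 * R1 ^ 2 * sg * (s1 + s2) / (4 * d * (c * s2 + d * s1))))) := by
  have hS1 : 0 < q11 + q31 := by linarith
  have hS2 : 0 < q22 + q42 := by linarith
  have pR1 : 0 < R1 := by rw [hR1]; positivity
  have pR2 : 0 < R2 := by rw [hR2]; positivity
  have pcs : 0 < c * s2 + d * s1 := by positivity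
  have a1 : q11 - q31 = -(A * (γ * Z) * R1) := by
    have h1 : (q11 - q31) * (q11 + q31) = -(A * (γ * Z) * (2 * c)) := by
      have : (q11 - q31) * (q11 + q31) = q11 ^ 2 - q31 ^ 2 := by ring
      rw [this, e11, e31, hc]; ring
    rw [hR1]
    field_simp
    linarith
  have a2 : q22 - q42 = -(A * (γ * Z) * R2) := by
    have h1 : (q22 - q42) * (q22 + q42) = -(A * (γ * Z) * (2 * d)) := by
      have : (q22 - q42) * (q22 + q42) = q22 ^ 2 - q42 ^ 2 := by ring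
      rw [this, e22, e42, hd]; ring
    rw [hR2]
    field_simp
    linarith
  have l1 := lev A c (γ * Z) (hm m r) q11 q31 p11 p31 (by rw [e11, hc]; ring)
    (by rw [e31, hc]; ring)
  have l2 := lev A d (γ * Z) (hm m (r - ρ * y)) q22 q42 p22 p42 (by rw [e22, hd]; ring)
    (by rw [e42, hd]; ring)
  rw [← hR1] at l1
  rw [← hR2] at l2
  have l3 := lev2 A c d (γ * Z) (hm m r) (hm m (r - ρ * y)) (R1 ^ 2) (R2 ^ 2) k1 k2
    (by rw [← hh1]; positivity) l1 l2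
  rw [← hh1, ← hh2, ← hD] at l3
  have hsg1 : ρ * s2 * (s1 + s2) * sg = s1 ^ 2 - s2 ^ 2 := by
    rw [hsg, hh1, hh2]
    unfold hm
    field_simp
    ring
  have hsg2 : ρ * s2 * sg = s1 - s2 := by
    have h3 : (ρ * s2 * sg) * (s1 + s2) = (s1 - s2) * (s1 + s2) := by
      linarith
    exact mul_right_cancel₀ (by positivity) h3
  have hcd : c - d = ρ * Y := by rw [hc, hd]; ring
  have key : -((R1 ^ 2 - R2 ^ 2) * D * s1 ^ 2) = ρ * s2 * d * (c * s2 + d * s1) * (Y / d - sg -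
        A * γ ^ 2 * (Z ^ 2 * R1 ^ 2 * sg * (s1 + s2) / (4 * d * (c * s2 + d * s1)))) := by
    have g1 : ρ * s2 * d * (c * s2 + d * s1) * (Y / d - sg -
        A * γ ^ 2 * (Z ^ 2 * R1 ^ 2 * sg * (s1 + s2) / (4 * d * (c * s2 + d * s1)))) =
        (s2 * (ρ * Y) - d * (ρ * s2 * sg)) * (c * s2 + d * s1) -
          A * γ ^ 2 * Z ^ 2 * R1 ^ 2 * (ρ * s2 * (s1 + s2) * sg) / 4 := by
      field_simp
    rw [g1, ← hcd, hsg2, hsg1, l3]
    ring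
  have e5 : q11 - q31 - q22 + q42 = -(A * (γ * Z) * (R1 - R2)) := by linarith
  rw [e5]
  have e6 : R1 - R2 = (R1 ^ 2 - R2 ^ 2) / (R1 + R2) := by field_simp; ring
  have e7 : A * ρ * γ * ((Z * s2 * d * (c * s2 + d * s1) /
      (s1 ^ 2 * D * (R1 + R2))) * (Y / d - sg -
        A * γ ^ 2 * (Z ^ 2 * R1 ^ 2 * sg * (s1 + s2) / (4 * d * (c * s2 + d * s1))))) =
      A * (γ * Z) * (ρ * s2 * d * (c * s2 + d * s1) * (Y / d - sg -
        A * γ ^ 2 * (Z ^ 2 * R1 ^ 2 * sg * (s1 + s2) / (4 * d * (c * s2 + d * s1))))) /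
      (s1 ^ 2 * D * (R1 + R2)) := by
    ring
  rw [e7, ← key, e6]
  field_simp

/-- The second part of the phase. -/
lemma partN2 (A m ρ δ Y X y r r3 q31 q33 q42 q44 : ℝ)
    (p31 : 0 < q31) (p33 : 0 < q33) (p42 : 0 < q42) (p44 : 0 < q44) (hr3 : r3 = r - δ)
    (e31 : q31 ^ 2 = hm m r - A * X ^ 2) (e33 : q33 ^ 2 = hm m r3 - A * X ^ 2)
    (e42 : q42 ^ 2 = hm m (r - ρ * y) - A * (X - ρ * Y) ^ 2)
    (e44 : q44 ^ 2 = hm m (r3 - ρ * y) - A * (X - ρ * Y) ^ 2) :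
    q31 - q33 - q42 + q44 = δ * ρ * ((2 - m * (2 * r - δ)) *
      ((-(y * (2 - m * (2 * r - ρ * y))) + A * Y * (2 * X - ρ * Y)) / (q42 + q31) +
        (-(y * (2 - m * (2 * r3 - ρ * y))) + A * Y * (2 * X - ρ * Y)) / (q44 + q33)) /
          ((q31 + q33) * (q42 + q44)) - 2 * m * y / (q42 + q44)) := by
  have a1 : q31 - q33 = δ * (2 - m * (2 * r - δ)) / (q31 + q33) := by
    have h1 : (q31 - q33) * (q31 + q33) = δ * (2 - m * (2 * r - δ)) := by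
      have : (q31 - q33) * (q31 + q33) = q31 ^ 2 - q33 ^ 2 := by ring
      rw [this, e31, e33, hr3]; unfold hm; ring
    rw [← h1]; field_simp
  have a2 : q42 - q44 = δ * (2 - m * (2 * (r - ρ * y) - δ)) / (q42 + q44) := by
    have h1 : (q42 - q44) * (q42 + q44) = δ * (2 - m * (2 * (r - ρ * y) - δ)) := by
      have : (q42 - q44) * (q42 + q44) = q42 ^ 2 - q44 ^ 2 := by ring
      rw [this, e42, e44, hr3]; unfold hm; ring
    rw [← h1]; field_simp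
  have a3 : q42 - q31 = ρ * (-(y * (2 - m * (2 * r - ρ * y))) + A * Y * (2 * X - ρ * Y)) /
      (q42 + q31) := by
    have h1 : (q42 - q31) * (q42 + q31) =
        ρ * (-(y * (2 - m * (2 * r - ρ * y))) + A * Y * (2 * X - ρ * Y)) := by
      have : (q42 - q31) * (q42 + q31) = q42 ^ 2 - q31 ^ 2 := by ring
      rw [this, e42, e31]; unfold hm; ring
    rw [← h1]; field_simp
  have a4 : q44 - q33 = ρ * (-(y * (2 - m * (2 * r3 - ρ * y))) + A * Y * (2 * X - ρ * Y)) /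
      (q44 + q33) := by
    have h1 : (q44 - q33) * (q44 + q33) =
        ρ * (-(y * (2 - m * (2 * r3 - ρ * y))) + A * Y * (2 * X - ρ * Y)) := by
      have : (q44 - q33) * (q44 + q33) = q44 ^ 2 - q33 ^ 2 := by ring
      rw [this, e44, e33]; unfold hm; ring
    rw [← h1]; field_simp
  have e1 : q31 - q33 - q42 + q44 = (q31 - q33) - (q42 - q44) := by ring
  rw [e1, a1, a2]
  have e2 : δ * ρ * ((2 - m * (2 * r - δ)) *
      ((-(y * (2 - m * (2 * r - ρ * y))) + A * Y * (2 * X - ρ * Y)) / (q42 + q31) +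
        (-(y * (2 - m * (2 * r3 - ρ * y))) + A * Y * (2 * X - ρ * Y)) / (q44 + q33)) /
          ((q31 + q33) * (q42 + q44)) - 2 * m * y / (q42 + q44)) =
      δ * (2 - m * (2 * r - δ)) *
      (ρ * (-(y * (2 - m * (2 * r - ρ * y))) + A * Y * (2 * X - ρ * Y)) / (q42 + q31) +
        ρ * (-(y * (2 - m * (2 * r3 - ρ * y))) + A * Y * (2 * X - ρ * Y)) / (q44 + q33)) /
          ((q31 + q33) * (q42 + q44)) - δ * (2 * m * ρ * y) / (q42 + q44) := by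
    ring
  rw [e2, ← a3, ← a4]
  field_simp
  ring

end Pool.Agent.SDT.N1M

end -- N1M.M2a

section -- N1M.M2b

/-!
N1M, block M2: the normal form, type N, with smooth functions.
-/

namespace Pool.Agent.SDT.N1M

open MeasureTheory Set Metric Pool.Agent.SDT.MP_6cbfb8_an Pool.Agent.SDT.MST Pool.Agent.SDT.N1
open Pool.Agent.SDT.N1F
open scoped ENNReal Real ContDiff Topology

/-- Division by the first parameter. -/
theorem had1P {E F : Type*} [NormedAddCommGroup E] [NormedSpace ℝ E] [FiniteDimensional ℝ E]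
    [NormedAddCommGroup F] [NormedSpace ℝ F] [FiniteDimensional ℝ F]
    (D : (ℝ × E) × F → ℝ) (t0 : ℝ) (e0 : E) (f0 : F) (r : ℝ) (hr : 0 < r)
    (hD : ContDiffOn ℝ ∞ D (ball ((t0, e0), f0) r))
    (h0 : ∀ x ∈ ball ((t0, e0), f0) r, x.1.1 = 0 → D x = 0) :
    ∃ r' : ℝ, 0 < r' ∧ r' ≤ r ∧ ∃ G : (ℝ × E) × F → ℝ,
      ContDiffOn ℝ ∞ G (ball ((t0, e0), f0) r') ∧
      ∀ x ∈ ball ((t0, e0), f0) r', D x = x.1.1 * G x := by
  have hb : ∀ (x : (ℝ × E) × F) (R : ℝ), x ∈ ball ((t0, e0), f0) R ↔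
      (x.1.1, (x.1.2, x.2)) ∈ ball (t0, (e0, f0)) R := by
    intro x R
    rw [mem_ball, mem_ball, Prod.dist_eq, Prod.dist_eq, Prod.dist_eq, Prod.dist_eq, max_lt_iff,
      max_lt_iff, max_lt_iff, max_lt_iff]
    simp only
    tauto
  have h1 : ContDiffOn ℝ ∞ (fun y : ℝ × (E × F) => D ((y.1, y.2.1), y.2.2))
      (ball (t0, (e0, f0)) r) := by
    refine hD.comp (f := fun y : ℝ × (E × F) => (((y.1, y.2.1), y.2.2) : (ℝ × E) × F))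
      (by fun_prop) ?_
    intro y hy
    exact (hb _ _).2 hy
  obtain ⟨r', hr', hrr, G, hG, hGD⟩ := had1 _ t0 (e0, f0) r hr h1 (by
    intro e he
    exact h0 ((0, e.1), e.2) ((hb _ _).2 he) rfl)
  refine ⟨r', hr', hrr, fun x => G (x.1.1, (x.1.2, x.2)), ?_, ?_⟩
  · refine hG.comp (f := fun x : (ℝ × E) × F => ((x.1.1, (x.1.2, x.2)) : ℝ × (E × F)))
      (by fun_prop) ?_
    intro x hx
    exact (hb _ _).1 hx
  · intro x hx
    have := hGD _ ((hb _ _).1 hx)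
    simpa using this

noncomputable def nR (u v d : ℝ) : ℝ := 2 * d / (u + v)
noncomputable def nD (A w s2 R1 R2 : ℝ) : ℝ :=
  A * w ^ 2 / 4 - s2 ^ 2 / ((1 + A * R1 ^ 2) * (1 + A * R2 ^ 2))
noncomputable def nE (Z s1 s2 c d D R1 R2 : ℝ) : ℝ :=
  Z * s2 * d * (c * s2 + d * s1) / (s1 ^ 2 * D * (R1 + R2))
noncomputable def nS (m ρ y r s1 s2 : ℝ) : ℝ := y * (2 - m * (2 * r - ρ * y)) / (s2 * (s1 + s2))
noncomputable def nM (m ρ y r z s1 s2 : ℝ) : ℝ :=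
  s1 * z * y * (bm m r * (2 - m * (2 * r - ρ * y)) / ((s1 + s2) * s1 * s2) + m / s2)
noncomputable def nL (m A X' Z d : ℝ) : ℝ := (1 - m * A * X' ^ 2) / (Z * d)
noncomputable def nG (A m ρ δ Y X y r r3 q31 q33 q42 q44 : ℝ) : ℝ :=
  (2 - m * (2 * r - δ)) *
      ((-(y * (2 - m * (2 * r - ρ * y))) + A * Y * (2 * X - ρ * Y)) / (q42 + q31) +
        (-(y * (2 - m * (2 * r3 - ρ * y))) + A * Y * (2 * X - ρ * Y)) / (q44 + q33)) /
          ((q31 + q33) * (q42 + q44)) - 2 * m * y / (q42 + q44)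
noncomputable def nK (Z R1 sg s1 s2 c d : ℝ) : ℝ :=
  Z ^ 2 * R1 ^ 2 * sg * (s1 + s2) / (4 * d * (c * s2 + d * s1))

/-- The phase, type N, exact identity. -/
lemma phaseN (A m ρ γ κ η Y X Z y r z q11 q31 q22 q42 q33 q44 s1 s2 c d R1 R2 D E S : ℝ)
    (p11 : 0 < q11) (p31 : 0 < q31) (p22 : 0 < q22) (p42 : 0 < q42) (p33 : 0 < q33)
    (p44 : 0 < q44) (ps1 : 0 < s1) (ps2 : 0 < s2)
    (hh1 : s1 ^ 2 = hm m r) (hh2 : s2 ^ 2 = hm m (r - ρ * y))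
    (e11 : q11 ^ 2 = hm m r - A * X ^ 2) (e31 : q31 ^ 2 = hm m r - A * (X - γ * Z) ^ 2)
    (e22 : q22 ^ 2 = hm m (r - ρ * y) - A * (X - ρ * Y) ^ 2)
    (e42 : q42 ^ 2 = hm m (r - ρ * y) - A * (X - ρ * Y - γ * Z) ^ 2)
    (e33 : q33 ^ 2 = hm m (r - A * κ * γ * z) - A * (X - γ * Z) ^ 2)
    (e44 : q44 ^ 2 = hm m (r - A * κ * γ * z - ρ * y) - A * (X - ρ * Y - γ * Z) ^ 2)
    (hc : c = X - γ * Z / 2) (hd : d = X - γ * Z / 2 - ρ * Y) (pc : 0 < c) (pd : 0 < d)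
    (hR1 : R1 = nR q11 q31 c) (hR2 : R2 = nR q22 q42 d)
    (k1 : 1 + A * R1 ^ 2 ≠ 0) (k2 : 1 + A * R2 ^ 2 ≠ 0)
    (hD : D = nD A (γ * Z) s2 R1 R2) (hD0 : D ≠ 0) (hE : E = nE Z s1 s2 c d D R1 R2) (hE0 : E ≠ 0)
    (hS : S = nS m ρ y r s1 s2) (hη : κ * η = γ ^ 2) (k : ℝ)
    (hk : z * nG A m ρ (A * κ * γ * z) Y (X - γ * Z) y r (r - A * κ * γ * z) q31 q33 q42 q44 -
      E * nL m A (X - γ * Z) Z d * nM m ρ y r z s1 s2 = A * k) :
    q11 - q33 - q22 + q44 = (A * ρ * γ) * (E * (Y / d - S + κ * (nL m A (X - γ * Z) Z d *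
      nM m ρ y r z s1 s2 + A * (k / E - η * nK Z R1 S s1 s2 c d)))) := by
  have h1 := partN1 A m ρ γ Y X Z y r q11 q31 q22 q42 s1 s2 p11 p31 p22 p42 ps1 ps2 hh1 hh2 e11
    e31 e22 e42 c d hc hd pc pd R1 R2 hR1 hR2 k1 k2 D hD hD0 S hS
  have h2 := partN2 A m ρ (A * κ * γ * z) Y (X - γ * Z) y r (r - A * κ * γ * z) q31 q33 q42 q44
    p31 p33 p42 p44 rfl e31 e33 (by rw [e42]; ring) (by rw [e44]; ring)
  change _ = A * ρ * γ * (nE Z s1 s2 c d D R1 R2 * (Y / d - S -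
    A * γ ^ 2 * nK Z R1 S s1 s2 c d)) at h1
  change _ = (A * κ * γ * z) * ρ * nG A m ρ (A * κ * γ * z) Y (X - γ * Z) y r
    (r - A * κ * γ * z) q31 q33 q42 q44 at h2
  rw [← hE] at h1
  have h3 : E * (k / E) = k := by field_simp
  have e : q11 - q33 - q22 + q44 = (q11 - q31 - q22 + q42) + (q31 - q33 - q42 + q44) := by ring
  rw [e, h1, h2, ← hη]
  have h4 : (A * κ * γ * z) * ρ * nG A m ρ (A * κ * γ * z) Y (X - γ * Z) y r
    (r - A * κ * γ * z) q31 q33 q42 q44 = A * κ * γ * ρ * (E * nL m A (X - γ * Z) Z d *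
      nM m ρ y r z s1 s2 + A * k) := by
    rw [← hk]; ring
  rw [h4]
  linear_combination (-(A * ρ * γ * κ * A)) * h3

/-- The difference vanishes at `A = 0`. -/
lemma zeroN (m ρ γ κ Y X Z y r z s1 s2 c d R1 R2 D E : ℝ)
    (ps1 : 0 < s1) (ps2 : 0 < s2)
    (pc : 0 < c) (pd : 0 < d) (hZ : Z ≠ 0)
    (hR1 : R1 = nR s1 s1 c) (hR2 : R2 = nR s2 s2 d)
    (hD : D = nD 0 (γ * Z) s2 R1 R2) (hE : E = nE Z s1 s2 c d D R1 R2) :
    z * nG 0 m ρ (0 * κ * γ * z) Y (X - γ * Z) y r (r - 0 * κ * γ * z) s1 s1 s2 s2 -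
      E * nL m 0 (X - γ * Z) Z d * nM m ρ y r z s1 s2 = 0 := by
  have hD' : D = -s2 ^ 2 := by
    rw [hD]; unfold nD; simp
  have hR1' : R1 = c / s1 := by rw [hR1]; unfold nR; field_simp; ring
  have hR2' : R2 = d / s2 := by rw [hR2]; unfold nR; field_simp; ring
  have hE' : E = -(Z * d) / s1 := by
    rw [hE, hD', hR1', hR2']; unfold nE
    have h3 : 0 < c * s2 + d * s1 := by positivity
    have h4 : c / s1 + d / s2 = (c * s2 + d * s1) / (s1 * s2) := by field_simp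
    rw [h4]
    field_simp
  have hL : E * nL m 0 (X - γ * Z) Z d = -1 / s1 := by
    rw [hE']; unfold nL
    field_simp
    ring
  rw [hL]
  unfold nG nM bm
  simp only [zero_mul, sub_zero, add_zero]
  field_simp
  ring

/-- The value at `ρ = γ = 0`. -/
lemma baseN (A m Y X Z y r z q s R D E : ℝ) (pq : 0 < q) (ps : 0 < s) (pX : 0 < X) (hZ : Z ≠ 0)
    (hs : s ^ 2 = hm m r) (hq : q ^ 2 = hm m r - A * X ^ 2) (hR : R = nR q q X)
    (hD : D = nD A 0 s R R) (hE : E = nE Z s s X X D R R) :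
    z * nG A m 0 0 Y X y r r q q q q - E * nL m A X Z X * nM m 0 y r z s s =
      A * (z * X * Y * bm m r / q ^ 3) := by
  have hR' : R = X / q := by rw [hR]; unfold nR; field_simp; ring
  have hq2 : A * X ^ 2 = s ^ 2 - q ^ 2 := by rw [hs, hq]; ring
  have hK : 1 + A * R ^ 2 = s ^ 2 / q ^ 2 := by
    rw [hR']
    have : 1 + A * (X / q) ^ 2 = (q ^ 2 + A * X ^ 2) / q ^ 2 := by field_simp
    rw [this, hq2]
    congr 1
    ring
  have hD' : D = -(q ^ 4 / s ^ 2) := by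
    rw [hD]; unfold nD; rw [hK]
    field_simp
    ring
  have hE' : E = -(Z * X * s ^ 2) / q ^ 3 := by
    rw [hE, hD', hR']; unfold nE
    field_simp
  have hL : E * nL m A X Z X = -(s ^ 2 * (1 - m * (A * X ^ 2))) / q ^ 3 := by
    rw [hE']; unfold nL
    field_simp
  have hb : bm m r ^ 2 = 1 - m * s ^ 2 := by
    rw [hs]; unfold bm hm; ring
  have hM : nM m 0 y r z s s = z * y / s ^ 2 := by
    unfold nM
    have : 2 - m * (2 * r - 0 * y) = 2 * bm m r := by unfold bm; ring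
    rw [this]
    have h5 : s * z * y * (bm m r * (2 * bm m r) / ((s + s) * s * s) + m / s) =
      z * y * (bm m r ^ 2 + m * s ^ 2) / s ^ 2 := by
      field_simp
      ring
    rw [h5, hb]
    congr 1
    ring
  have hG : nG A m 0 0 Y X y r r q q q q = (-(y * bm m r ^ 2) + A * Y * X * bm m r) / q ^ 3 -
      m * y / q := by
    unfold nG
    have h1 : 2 - m * (2 * r - 0) = 2 * bm m r := by unfold bm; ring
    have h2 : 2 - m * (2 * r - 0 * y) = 2 * bm m r := by unfold bm; ring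
    rw [h1, h2]
    field_simp
    ring
  rw [hG, hL, hM, hb]
  have e1 : A * (z * X * Y * bm m r / q ^ 3) = z * (A * Y * X * bm m r) / q ^ 3 := by ring
  rw [e1, hq2]
  field_simp
  ring

end Pool.Agent.SDT.N1M

end -- N1M.M2b

section -- N1M.M2c

/-!
N1M, block M2: the normal form, type N; smooth functions.
-/

namespace Pool.Agent.SDT.N1M

open MeasureTheory Set Metric Pool.Agent.SDT.MP_6cbfb8_an Pool.Agent.SDT.MST Pool.Agent.SDT.N1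
open Pool.Agent.SDT.N1F
open scoped ENNReal Real ContDiff Topology

section gen

variable {E : Type*} [NormedAddCommGroup E] [NormedSpace ℝ E] (S : Set E)

lemma nR_s (u v d : E → ℝ) (h1 : ContDiffOn ℝ ∞ u S) (h2 : ContDiffOn ℝ ∞ v S)
    (h3 : ContDiffOn ℝ ∞ d S) (h : ∀ x ∈ S, u x + v x ≠ 0) :
    ContDiffOn ℝ ∞ (fun x => nR (u x) (v x) (d x)) S := by
  unfold nR
  fun_prop (disch := exact h)

lemma nD_s (A w s2 R1 R2 : E → ℝ) (h1 : ContDiffOn ℝ ∞ A S) (h2 : ContDiffOn ℝ ∞ w S)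
    (h3 : ContDiffOn ℝ ∞ s2 S) (h4 : ContDiffOn ℝ ∞ R1 S) (h5 : ContDiffOn ℝ ∞ R2 S)
    (h : ∀ x ∈ S, (1 + A x * R1 x ^ 2) * (1 + A x * R2 x ^ 2) ≠ 0) :
    ContDiffOn ℝ ∞ (fun x => nD (A x) (w x) (s2 x) (R1 x) (R2 x)) S := by
  unfold nD
  fun_prop (disch := exact h)

lemma nE_s (Z s1 s2 c d D R1 R2 : E → ℝ) (h1 : ContDiffOn ℝ ∞ Z S) (h2 : ContDiffOn ℝ ∞ s1 S)
    (h3 : ContDiffOn ℝ ∞ s2 S) (h4 : ContDiffOn ℝ ∞ c S) (h5 : ContDiffOn ℝ ∞ d S)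
    (h6 : ContDiffOn ℝ ∞ D S) (h7 : ContDiffOn ℝ ∞ R1 S) (h8 : ContDiffOn ℝ ∞ R2 S)
    (h : ∀ x ∈ S, s1 x ^ 2 * D x * (R1 x + R2 x) ≠ 0) :
    ContDiffOn ℝ ∞ (fun x => nE (Z x) (s1 x) (s2 x) (c x) (d x) (D x) (R1 x) (R2 x)) S := by
  unfold nE
  fun_prop (disch := exact h)

lemma nS_s (m ρ y r s1 s2 : E → ℝ) (h1 : ContDiffOn ℝ ∞ m S) (h2 : ContDiffOn ℝ ∞ ρ S)
    (h3 : ContDiffOn ℝ ∞ y S) (h4 : ContDiffOn ℝ ∞ r S) (h5 : ContDiffOn ℝ ∞ s1 S)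
    (h6 : ContDiffOn ℝ ∞ s2 S) (h : ∀ x ∈ S, s2 x * (s1 x + s2 x) ≠ 0) :
    ContDiffOn ℝ ∞ (fun x => nS (m x) (ρ x) (y x) (r x) (s1 x) (s2 x)) S := by
  unfold nS
  fun_prop (disch := exact h)

lemma nM_s (m ρ y r z s1 s2 : E → ℝ) (h1 : ContDiffOn ℝ ∞ m S) (h2 : ContDiffOn ℝ ∞ ρ S)
    (h3 : ContDiffOn ℝ ∞ y S) (h4 : ContDiffOn ℝ ∞ r S) (h5 : ContDiffOn ℝ ∞ z S)
    (h6 : ContDiffOn ℝ ∞ s1 S) (h7 : ContDiffOn ℝ ∞ s2 S)
    (h : ∀ x ∈ S, (s1 x + s2 x) * s1 x * s2 x ≠ 0) (h' : ∀ x ∈ S, s2 x ≠ 0) :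
    ContDiffOn ℝ ∞ (fun x => nM (m x) (ρ x) (y x) (r x) (z x) (s1 x) (s2 x)) S := by
  unfold nM bm
  fun_prop (disch := first | exact h | exact h')

lemma nL_s (m A X Z d : E → ℝ) (h1 : ContDiffOn ℝ ∞ m S) (h2 : ContDiffOn ℝ ∞ A S)
    (h3 : ContDiffOn ℝ ∞ X S) (h4 : ContDiffOn ℝ ∞ Z S) (h5 : ContDiffOn ℝ ∞ d S)
    (h : ∀ x ∈ S, Z x * d x ≠ 0) :
    ContDiffOn ℝ ∞ (fun x => nL (m x) (A x) (X x) (Z x) (d x)) S := by
  unfold nL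
  fun_prop (disch := exact h)

lemma nG_s (A m ρ δ Y X y r r3 q31 q33 q42 q44 : E → ℝ) (h1 : ContDiffOn ℝ ∞ A S)
    (h2 : ContDiffOn ℝ ∞ m S) (h3 : ContDiffOn ℝ ∞ ρ S) (h4 : ContDiffOn ℝ ∞ δ S)
    (h5 : ContDiffOn ℝ ∞ Y S) (h6 : ContDiffOn ℝ ∞ X S) (h7 : ContDiffOn ℝ ∞ y S)
    (h8 : ContDiffOn ℝ ∞ r S) (h9 : ContDiffOn ℝ ∞ r3 S) (g1 : ContDiffOn ℝ ∞ q31 S)
    (g2 : ContDiffOn ℝ ∞ q33 S) (g3 : ContDiffOn ℝ ∞ q42 S) (g4 : ContDiffOn ℝ ∞ q44 S)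
    (k1 : ∀ x ∈ S, q42 x + q31 x ≠ 0) (k2 : ∀ x ∈ S, q44 x + q33 x ≠ 0)
    (k3 : ∀ x ∈ S, (q31 x + q33 x) * (q42 x + q44 x) ≠ 0) (k4 : ∀ x ∈ S, q42 x + q44 x ≠ 0) :
    ContDiffOn ℝ ∞ (fun x => nG (A x) (m x) (ρ x) (δ x) (Y x) (X x) (y x) (r x) (r3 x) (q31 x)
      (q33 x) (q42 x) (q44 x)) S := by
  unfold nG
  fun_prop (disch := first | exact k1 | exact k2 | exact k3 | exact k4)

lemma nK_s (Z R1 sg s1 s2 c d : E → ℝ) (h1 : ContDiffOn ℝ ∞ Z S) (h2 : ContDiffOn ℝ ∞ R1 S)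
    (h3 : ContDiffOn ℝ ∞ sg S) (h4 : ContDiffOn ℝ ∞ s1 S) (h5 : ContDiffOn ℝ ∞ s2 S)
    (h6 : ContDiffOn ℝ ∞ c S) (h7 : ContDiffOn ℝ ∞ d S)
    (h : ∀ x ∈ S, 4 * d x * (c x * s2 x + d x * s1 x) ≠ 0) :
    ContDiffOn ℝ ∞ (fun x => nK (Z x) (R1 x) (sg x) (s1 x) (s2 x) (c x) (d x)) S := by
  unfold nK
  fun_prop (disch := exact h)

end gen

/-! ### The functions of `x = (p, a, b)`, `p = (A, m, ρ, γ, κ, η)`, `a = (Y, X, Z)`, `b = (y, r, z)` -/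

/-- `h - A X²` at a vertex. -/
noncomputable def yV (u v e : ℝ) (x : P6 × V × V) : ℝ :=
  hm x.1.2.1 (x.2.2.2.1 - e * (x.1.1 * x.1.2.2.2.2.1 * x.1.2.2.2.1 * x.2.2.2.2) -
    u * (x.1.2.2.1 * x.2.2.1)) -
    x.1.1 * (x.2.1.2.1 - u * (x.1.2.2.1 * x.2.1.1) - v * (x.1.2.2.2.1 * x.2.1.2.2)) ^ 2

/-- `q` at a vertex. -/
noncomputable def yq (c u v e : ℝ) (x : P6 × V × V) : ℝ := Sq c (yV u v e x)

/-- `h` at a vertex; `x = (p, b)`. -/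
noncomputable def yH (u : ℝ) (x : P6 × V) : ℝ := hm x.1.2.1 (x.2.2.1 - u * (x.1.2.2.1 * x.2.1))

/-- `√h` at a vertex. -/
noncomputable def ys (c u : ℝ) (x : P6 × V) : ℝ := Sq c (yH u x)

/-- Midpoints; `x = (p, a)`. -/
noncomputable def yc (x : P6 × V) : ℝ := x.2.2.1 - x.1.2.2.2.1 * x.2.2.2 / 2
noncomputable def yd (x : P6 × V) : ℝ := x.2.2.1 - x.1.2.2.2.1 * x.2.2.2 / 2 - x.1.2.2.1 * x.2.1

noncomputable def yW (x : P6 × V) : ℝ := x.2.1 / yd x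
noncomputable def yL (x : P6 × V) : ℝ :=
  nL x.1.2.1 x.1.1 (x.2.2.1 - x.1.2.2.2.1 * x.2.2.2) x.2.2.2 (yd x)
noncomputable def yS (c : ℝ) (x : P6 × V) : ℝ :=
  nS x.1.2.1 x.1.2.2.1 x.2.1 x.2.2.1 (ys c 0 x) (ys c 1 x)
noncomputable def yM (c : ℝ) (x : P6 × V) : ℝ :=
  nM x.1.2.1 x.1.2.2.1 x.2.1 x.2.2.1 x.2.2.2 (ys c 0 x) (ys c 1 x)

noncomputable def yR1 (c : ℝ) (x : P6 × V × V) : ℝ :=
  nR (yq c 0 0 0 x) (yq c 0 1 0 x) (yc (x.1, x.2.1))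
noncomputable def yR2 (c : ℝ) (x : P6 × V × V) : ℝ :=
  nR (yq c 1 0 0 x) (yq c 1 1 0 x) (yd (x.1, x.2.1))
noncomputable def yD (c : ℝ) (x : P6 × V × V) : ℝ :=
  nD x.1.1 (x.1.2.2.2.1 * x.2.1.2.2) (ys c 1 (x.1, x.2.2)) (yR1 c x) (yR2 c x)
noncomputable def yE (c : ℝ) (x : P6 × V × V) : ℝ :=
  nE x.2.1.2.2 (ys c 0 (x.1, x.2.2)) (ys c 1 (x.1, x.2.2)) (yc (x.1, x.2.1)) (yd (x.1, x.2.1))
    (yD c x) (yR1 c x) (yR2 c x)
noncomputable def yG (c : ℝ) (x : P6 × V × V) : ℝ :=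
  nG x.1.1 x.1.2.1 x.1.2.2.1 (x.1.1 * x.1.2.2.2.2.1 * x.1.2.2.2.1 * x.2.2.2.2) x.2.1.1
    (x.2.1.2.1 - x.1.2.2.2.1 * x.2.1.2.2) x.2.2.1 x.2.2.2.1
    (x.2.2.2.1 - x.1.1 * x.1.2.2.2.2.1 * x.1.2.2.2.1 * x.2.2.2.2)
    (yq c 0 1 0 x) (yq c 0 1 1 x) (yq c 1 1 0 x) (yq c 1 1 1 x)
noncomputable def yf (c : ℝ) (x : P6 × V × V) : ℝ :=
  x.2.2.2.2 * yG c x - yE c x * yL (x.1, x.2.1) * yM c (x.1, x.2.2)
noncomputable def yK (c : ℝ) (x : P6 × V × V) : ℝ :=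
  nK x.2.1.2.2 (yR1 c x) (yS c (x.1, x.2.2)) (ys c 0 (x.1, x.2.2)) (ys c 1 (x.1, x.2.2))
    (yc (x.1, x.2.1)) (yd (x.1, x.2.1))

/-- Open conditions on `(p, a)`. -/
def GdA (x : P6 × V) : Prop := 0 < yc x ∧ 0 < yd x ∧ x.2.2.2 ≠ 0

/-- Open conditions on `(p, b)`. -/
def GdB (c : ℝ) (x : P6 × V) : Prop := c ^ 2 / 8 < yH 0 x ∧ c ^ 2 / 8 < yH 1 x

/-- Open conditions near the base point. -/
def GdN4 (c : ℝ) (x : P6 × V × V) : Prop :=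
  GdA (x.1, x.2.1) ∧ GdB c (x.1, x.2.2) ∧
  (c ^ 2 / 8 < yV 0 0 0 x ∧ c ^ 2 / 8 < yV 0 1 0 x ∧ c ^ 2 / 8 < yV 1 0 0 x ∧
    c ^ 2 / 8 < yV 1 1 0 x ∧ c ^ 2 / 8 < yV 0 1 1 x ∧ c ^ 2 / 8 < yV 1 1 1 x)

/-- All open conditions. -/
def GdF (c : ℝ) (x : P6 × V × V) : Prop :=
  GdN4 c x ∧ 1 + x.1.1 * yR1 c x ^ 2 ≠ 0 ∧ 1 + x.1.1 * yR2 c x ^ 2 ≠ 0 ∧ yD c x ≠ 0

lemma Sq_pos (c : ℝ) (hc : 0 < c) (v : ℝ) (hv : c ^ 2 / 8 < v) : 0 < Sq c v ∧ Sq c v ^ 2 = v := by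
  have hv0 : 0 < v := lt_trans (by positivity) hv
  rw [Sq_eq c hc v hv.le]
  exact ⟨Real.sqrt_pos.2 hv0, Real.sq_sqrt hv0.le⟩

lemma yq_s (c : ℝ) (hc : 0 < c) (u v e : ℝ) : ContDiff ℝ ∞ (yq c u v e) := by
  unfold yq
  refine (Sq_smooth c hc).comp ?_
  unfold yV hm
  fun_prop

lemma ys_s (c : ℝ) (hc : 0 < c) (u : ℝ) : ContDiff ℝ ∞ (ys c u) := by
  unfold ys
  refine (Sq_smooth c hc).comp ?_
  unfold yH hm
  fun_prop

lemma yc_s : ContDiff ℝ ∞ yc := by unfold yc; fun_prop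
lemma yd_s : ContDiff ℝ ∞ yd := by unfold yd; fun_prop

lemma yW_s (S : Set (P6 × V)) (h : ∀ x ∈ S, GdA x) : ContDiffOn ℝ ∞ yW S := by
  have h1 := yd_s.contDiffOn (s := S)
  have h2 : ∀ x ∈ S, yd x ≠ 0 := fun x hx => (h x hx).2.1.ne'
  unfold yW
  fun_prop (disch := exact h2)

lemma yL_s (S : Set (P6 × V)) (h : ∀ x ∈ S, GdA x) : ContDiffOn ℝ ∞ yL S := by
  unfold yL
  exact nL_s S _ _ _ _ _ (by fun_prop) (by fun_prop) (by fun_prop) (by fun_prop)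
    (yd_s.contDiffOn (s := S)) (fun x hx => mul_ne_zero (h x hx).2.2 (h x hx).2.1.ne')

lemma ys_pos (c : ℝ) (hc : 0 < c) (x : P6 × V) (h : GdB c x) :
    (0 < ys c 0 x ∧ ys c 0 x ^ 2 = yH 0 x) ∧ (0 < ys c 1 x ∧ ys c 1 x ^ 2 = yH 1 x) :=
  ⟨Sq_pos c hc _ h.1, Sq_pos c hc _ h.2⟩

lemma yS_s (c : ℝ) (hc : 0 < c) (S : Set (P6 × V)) (h : ∀ x ∈ S, GdB c x) :
    ContDiffOn ℝ ∞ (yS c) S := by
  unfold yS
  refine nS_s S _ _ _ _ _ _ (by fun_prop) (by fun_prop) (by fun_prop) (by fun_prop)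
    ((ys_s c hc 0).contDiffOn) ((ys_s c hc 1).contDiffOn) ?_
  intro x hx
  obtain ⟨⟨h1, _⟩, h2, _⟩ := ys_pos c hc x (h x hx)
  positivity

lemma yM_s (c : ℝ) (hc : 0 < c) (S : Set (P6 × V)) (h : ∀ x ∈ S, GdB c x) :
    ContDiffOn ℝ ∞ (yM c) S := by
  unfold yM
  refine nM_s S _ _ _ _ _ _ _ (by fun_prop) (by fun_prop) (by fun_prop) (by fun_prop)
    (by fun_prop) ((ys_s c hc 0).contDiffOn) ((ys_s c hc 1).contDiffOn) ?_ ?_
  · intro x hx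
    obtain ⟨⟨h1, _⟩, h2, _⟩ := ys_pos c hc x (h x hx)
    positivity
  · intro x hx
    exact (ys_pos c hc x (h x hx)).2.1.ne'

lemma prA2 {S : Set (P6 × V × V)} {f : P6 × V → ℝ} (h : ContDiff ℝ ∞ f) :
    ContDiffOn ℝ ∞ (fun x : P6 × V × V => f (x.1, x.2.1)) S :=
  (h.comp (by fun_prop : ContDiff ℝ ∞ fun x : P6 × V × V => (x.1, x.2.1))).contDiffOn

lemma prB2 {S : Set (P6 × V × V)} {f : P6 × V → ℝ} (h : ContDiff ℝ ∞ f) :
    ContDiffOn ℝ ∞ (fun x : P6 × V × V => f (x.1, x.2.2)) S :=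
  (h.comp (by fun_prop : ContDiff ℝ ∞ fun x : P6 × V × V => (x.1, x.2.2))).contDiffOn

lemma yq_pos (c : ℝ) (hc : 0 < c) (x : P6 × V × V) (h : GdN4 c x) :
    (0 < yq c 0 0 0 x ∧ 0 < yq c 0 1 0 x ∧ 0 < yq c 1 0 0 x ∧ 0 < yq c 1 1 0 x ∧
      0 < yq c 0 1 1 x ∧ 0 < yq c 1 1 1 x) := by
  obtain ⟨_, _, h1, h2, h3, h4, h5, h6⟩ := h
  exact ⟨(Sq_pos c hc _ h1).1, (Sq_pos c hc _ h2).1, (Sq_pos c hc _ h3).1, (Sq_pos c hc _ h4).1,
    (Sq_pos c hc _ h5).1, (Sq_pos c hc _ h6).1⟩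

lemma yR1_s (c : ℝ) (hc : 0 < c) (S : Set (P6 × V × V)) (h : ∀ x ∈ S, GdN4 c x) :
    ContDiffOn ℝ ∞ (yR1 c) S := by
  unfold yR1
  refine nR_s S _ _ _ ((yq_s c hc _ _ _).contDiffOn) ((yq_s c hc _ _ _).contDiffOn) (prA2 yc_s) ?_
  intro x hx
  obtain ⟨h1, h2, h3, h4, h5, h6⟩ := yq_pos c hc x (h x hx)
  positivity

lemma yR2_s (c : ℝ) (hc : 0 < c) (S : Set (P6 × V × V)) (h : ∀ x ∈ S, GdN4 c x) :
    ContDiffOn ℝ ∞ (yR2 c) S := by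
  unfold yR2
  refine nR_s S _ _ _ ((yq_s c hc _ _ _).contDiffOn) ((yq_s c hc _ _ _).contDiffOn) (prA2 yd_s) ?_
  intro x hx
  obtain ⟨h1, h2, h3, h4, h5, h6⟩ := yq_pos c hc x (h x hx)
  positivity

lemma yR_pos (c : ℝ) (hc : 0 < c) (x : P6 × V × V) (h : GdN4 c x) :
    0 < yR1 c x ∧ 0 < yR2 c x := by
  obtain ⟨h1, h2, h3, h4, h5, h6⟩ := yq_pos c hc x h
  obtain ⟨⟨g1, g2, g3⟩, _⟩ := h
  unfold yR1 yR2 nR
  constructor <;> positivity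

lemma yD_s (c : ℝ) (hc : 0 < c) (S : Set (P6 × V × V)) (h : ∀ x ∈ S, GdN4 c x ∧
    1 + x.1.1 * yR1 c x ^ 2 ≠ 0 ∧ 1 + x.1.1 * yR2 c x ^ 2 ≠ 0) :
    ContDiffOn ℝ ∞ (yD c) S := by
  unfold yD
  exact nD_s S _ _ _ _ _ (by fun_prop) (by fun_prop) (prB2 (ys_s c hc 1))
    (yR1_s c hc S (fun x hx => (h x hx).1)) (yR2_s c hc S (fun x hx => (h x hx).1))
    (fun x hx => mul_ne_zero (h x hx).2.1 (h x hx).2.2)

lemma yE_s (c : ℝ) (hc : 0 < c) (S : Set (P6 × V × V)) (h : ∀ x ∈ S, GdF c x) :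
    ContDiffOn ℝ ∞ (yE c) S := by
  unfold yE
  refine nE_s S _ _ _ _ _ _ _ _ (by fun_prop) (prB2 (ys_s c hc 0)) (prB2 (ys_s c hc 1)) (prA2 yc_s)
    (prA2 yd_s) (yD_s c hc S (fun x hx => ⟨(h x hx).1, (h x hx).2.1, (h x hx).2.2.1⟩))
    (yR1_s c hc S (fun x hx => (h x hx).1)) (yR2_s c hc S (fun x hx => (h x hx).1)) ?_
  intro x hx
  obtain ⟨g1, g2⟩ := yR_pos c hc x (h x hx).1
  obtain ⟨⟨k1, _⟩, k2, _⟩ := ys_pos c hc _ (h x hx).1.2.1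
  exact mul_ne_zero (mul_ne_zero (by positivity) (h x hx).2.2.2) (by positivity)

lemma yE_ne (c : ℝ) (hc : 0 < c) (x : P6 × V × V) (h : GdF c x) : yE c x ≠ 0 := by
  obtain ⟨g1, g2⟩ := yR_pos c hc x h.1
  obtain ⟨⟨k1, _⟩, k2, _⟩ := ys_pos c hc _ h.1.2.1
  obtain ⟨⟨l1, l2, l3⟩, _⟩ := h.1
  unfold yE nE
  refine div_ne_zero (mul_ne_zero (mul_ne_zero (mul_ne_zero l3 k2.ne') l2.ne') ?_)
    (mul_ne_zero (mul_ne_zero (by positivity) h.2.2.2) (by positivity))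
  positivity

lemma yf_s (c : ℝ) (hc : 0 < c) (S : Set (P6 × V × V)) (h : ∀ x ∈ S, GdF c x) :
    ContDiffOn ℝ ∞ (yf c) S := by
  have hG : ContDiffOn ℝ ∞ (yG c) S := by
    unfold yG
    refine nG_s S _ _ _ _ _ _ _ _ _ _ _ _ _ (by fun_prop) (by fun_prop) (by fun_prop)
      (by fun_prop) (by fun_prop) (by fun_prop) (by fun_prop) (by fun_prop) (by fun_prop)
      ((yq_s c hc _ _ _).contDiffOn) ((yq_s c hc _ _ _).contDiffOn)
      ((yq_s c hc _ _ _).contDiffOn) ((yq_s c hc _ _ _).contDiffOn) ?_ ?_ ?_ ?_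
    all_goals
      intro x hx
      obtain ⟨h1, h2, h3, h4, h5, h6⟩ := yq_pos c hc x (h x hx).1
      positivity
  have hL : ContDiffOn ℝ ∞ (fun x : P6 × V × V => yL (x.1, x.2.1)) S :=
    (yL_s {x | GdA x} (fun x hx => hx)).comp
      (by fun_prop : ContDiffOn ℝ ∞ (fun x : P6 × V × V => (x.1, x.2.1)) S)
      (fun x hx => (h x hx).1.1)
  have hM : ContDiffOn ℝ ∞ (fun x : P6 × V × V => yM c (x.1, x.2.2)) S :=
    (yM_s c hc {x | GdB c x} (fun x hx => hx)).comp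
      (by fun_prop : ContDiffOn ℝ ∞ (fun x : P6 × V × V => (x.1, x.2.2)) S)
      (fun x hx => (h x hx).1.2.1)
  have hE := yE_s c hc S h
  unfold yf
  fun_prop

lemma yK_s (c : ℝ) (hc : 0 < c) (S : Set (P6 × V × V)) (h : ∀ x ∈ S, GdF c x) :
    ContDiffOn ℝ ∞ (yK c) S := by
  have hS : ContDiffOn ℝ ∞ (fun x : P6 × V × V => yS c (x.1, x.2.2)) S :=
    (yS_s c hc {x | GdB c x} (fun x hx => hx)).comp
      (by fun_prop : ContDiffOn ℝ ∞ (fun x : P6 × V × V => (x.1, x.2.2)) S)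
      (fun x hx => (h x hx).1.2.1)
  unfold yK
  refine nK_s S _ _ _ _ _ _ _ (by fun_prop) (yR1_s c hc S (fun x hx => (h x hx).1)) hS
    (prB2 (ys_s c hc 0)) (prB2 (ys_s c hc 1)) (prA2 yc_s) (prA2 yd_s) ?_
  intro x hx
  obtain ⟨⟨k1, _⟩, k2, _⟩ := ys_pos c hc _ (h x hx).1.2.1
  obtain ⟨⟨l1, l2, l3⟩, _⟩ := (h x hx).1
  positivity

end Pool.Agent.SDT.N1M

end -- N1M.M2c

section -- N1M.P3d

/-!
N1M, block M3 (type N'): the derivatives at the base point.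
-/

namespace Pool.Agent.SDT.N1M

open MeasureTheory Set Metric Filter Pool.Agent.SDT.MP_6cbfb8_an Pool.Agent.SDT.MST Pool.Agent.SDT.N1
open Pool.Agent.SDT.N1F
open scoped ENNReal Real ContDiff Topology

noncomputable def wP (a : V) : ℝ := 2 * (a.1 * a.2.1)
noncomputable def lP (a : V) : ℝ := a.1 * a.2.2
noncomputable def oP (m : ℝ) (b : V) : ℝ := 2 * (b.1 / bm m b.2.1)
noncomputable def mP (m : ℝ) (b : V) : ℝ := -2 * (hm m b.2.1 / (b.2.2 * bm m b.2.1))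
noncomputable def xP (a : V) : ℝ := 2 * (a.2.1 * a.2.2)
noncomputable def yP (b : V) : ℝ := b.1 / b.2.2

lemma wP_fd (a u : V) : fderiv ℝ wP a u = 2 * (u.1 * a.2.1 + a.1 * u.2.1) := by
  refine fd_of _ _ _ _ (by unfold wP; fun_prop) ?_
  have h' := (((g_lin a.1 u.1).fun_mul (g_lin a.2.1 u.2.1))).const_mul 2
  refine HasDerivAt.congr_deriv h' ?_
  simp

lemma lP_fd (a u : V) : fderiv ℝ lP a u = u.1 * a.2.2 + a.1 * u.2.2 := by
  refine fd_of _ _ _ _ (by unfold lP; fun_prop) ?_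
  have h' := (g_lin a.1 u.1).fun_mul (g_lin a.2.2 u.2.2)
  refine HasDerivAt.congr_deriv h' ?_
  simp

lemma xP_fd (a u : V) : fderiv ℝ xP a u = 2 * (u.2.1 * a.2.2 + a.2.1 * u.2.2) := by
  refine fd_of _ _ _ _ (by unfold xP; fun_prop) ?_
  have h' := (((g_lin a.2.1 u.2.1).fun_mul (g_lin a.2.2 u.2.2))).const_mul 2
  refine HasDerivAt.congr_deriv h' ?_
  simp

lemma oP_diff (m : ℝ) (b : V) (h : bm m b.2.1 ≠ 0) : DifferentiableAt ℝ (oP m) b := by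
  unfold oP bm at *
  fun_prop (disch := exact h)

lemma mP_diff (m : ℝ) (b : V) (h : bm m b.2.1 ≠ 0) (h2 : b.2.2 ≠ 0) :
    DifferentiableAt ℝ (mP m) b := by
  unfold mP hm bm at *
  fun_prop (disch := exact (mul_ne_zero h2 h))

lemma yP_diff (b : V) (h2 : b.2.2 ≠ 0) : DifferentiableAt ℝ yP b := by
  unfold yP
  fun_prop (disch := exact h2)

lemma oP_fd (m : ℝ) (b e : V) (h : bm m b.2.1 ≠ 0) : fderiv ℝ (oP m) b e =
    2 * ((e.1 * bm m b.2.1 + b.1 * (m * e.2.1)) / bm m b.2.1 ^ 2) := by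
  refine fd_of _ _ _ _ (oP_diff m b h) ?_
  have h' := ((g_lin b.1 e.1).fun_div (((g_lin b.2.1 e.2.1).const_mul m).const_sub 1)
    (by unfold bm at h; simpa using h)).const_mul 2
  refine HasDerivAt.congr_deriv h' ?_
  unfold bm
  simp

lemma mP_fd (m : ℝ) (b e : V) (h : bm m b.2.1 ≠ 0) (h2 : b.2.2 ≠ 0) : fderiv ℝ (mP m) b e =
    -2 * (((2 * bm m b.2.1 * e.2.1) * (b.2.2 * bm m b.2.1) -
      hm m b.2.1 * (e.2.2 * bm m b.2.1 - b.2.2 * (m * e.2.1))) /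
        (b.2.2 * bm m b.2.1) ^ 2) := by
  refine fd_of _ _ _ _ (mP_diff m b h h2) ?_
  have h' := ((((g_lin b.2.1 e.2.1).const_mul 2).fun_sub
    (((g_lin b.2.1 e.2.1).fun_pow 2).const_mul m)).fun_div
    ((g_lin b.2.2 e.2.2).fun_mul (((g_lin b.2.1 e.2.1).const_mul m).const_sub 1))
    (by unfold bm at h; simpa using ⟨h2, h⟩)).const_mul (-2)
  refine HasDerivAt.congr_deriv h' ?_
  unfold bm hm
  simp
  ring

lemma yP_fd (b e : V) (h2 : b.2.2 ≠ 0) : fderiv ℝ yP b e =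
    (e.1 * b.2.2 - b.1 * e.2.2) / b.2.2 ^ 2 := by
  refine fd_of _ _ _ _ (yP_diff b h2) ?_
  have h' := (g_lin b.1 e.1).fun_div (g_lin b.2.2 e.2.2) (by simpa using h2)
  refine HasDerivAt.congr_deriv h' ?_
  simp

/-- The direction killed by `wP`, `lP`. -/
noncomputable def dirP (a : V) : V := (a.1, -a.2.1, -a.2.2)

/-- The direction killed by `oP`, `mP`. -/
noncomputable def dirP' (m : ℝ) (b : V) : V :=
  (-(m * b.1) * hm m b.2.1, bm m b.2.1 * hm m b.2.1,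
    b.2.2 * (2 * bm m b.2.1 ^ 2 + m * hm m b.2.1))

lemma base_PA (a : V) (h1 : a.1 ≠ 0) (h2 : a.2.1 ≠ 0) (h3 : a.2.2 ≠ 0) :
    fderiv ℝ wP a (1, 0, 0) ≠ 0 ∧ fderiv ℝ wP a (0, 0, 1) = 0 ∧
      fderiv ℝ lP a (0, 0, 1) ≠ 0 ∧ fderiv ℝ wP a (dirP a) = 0 ∧
      fderiv ℝ lP a (dirP a) = 0 ∧ fderiv ℝ xP a (dirP a) ≠ 0 := by
  refine ⟨?_, ?_, ?_, ?_, ?_, ?_⟩
  · rw [wP_fd]
    simpa using h2
  · rw [wP_fd]
    simp
  · rw [lP_fd]
    simpa using h1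
  · rw [wP_fd]
    unfold dirP
    simp
  · rw [lP_fd]
    unfold dirP
    simp
  · rw [xP_fd]
    unfold dirP
    have : 2 * (-a.2.1 * a.2.2 + a.2.1 * -a.2.2) = -4 * (a.2.1 * a.2.2) := by ring
    simp only
    rw [this]
    exact mul_ne_zero (by norm_num) (mul_ne_zero h2 h3)

lemma base_PB (m : ℝ) (b : V) (h1 : b.1 ≠ 0) (h2 : bm m b.2.1 ≠ 0) (h3 : b.2.2 ≠ 0)
    (h4 : hm m b.2.1 ≠ 0) :
    fderiv ℝ (oP m) b (1, 0, 0) ≠ 0 ∧ fderiv ℝ (oP m) b (0, 0, 1) = 0 ∧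
      fderiv ℝ (mP m) b (0, 0, 1) ≠ 0 ∧ fderiv ℝ (oP m) b (dirP' m b) = 0 ∧
      fderiv ℝ (mP m) b (dirP' m b) = 0 ∧ fderiv ℝ yP b (dirP' m b) ≠ 0 := by
  refine ⟨?_, ?_, ?_, ?_, ?_, ?_⟩
  · rw [oP_fd m b _ h2]
    simpa using h2
  · rw [oP_fd m b _ h2]
    simp
  · rw [mP_fd m b _ h2 h3]
    simp only [mul_zero, zero_mul, one_mul, sub_zero, zero_sub]
    exact mul_ne_zero (by norm_num) (div_ne_zero (neg_ne_zero.2 (mul_ne_zero h4 h2))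
      (pow_ne_zero 2 (mul_ne_zero h3 h2)))
  · rw [oP_fd m b _ h2]
    unfold dirP'
    simp only
    rw [show -(m * b.1) * hm m b.2.1 * bm m b.2.1 + b.1 * (m * (bm m b.2.1 * hm m b.2.1)) = 0 by
      ring]
    simp
  · rw [mP_fd m b _ h2 h3]
    unfold dirP'
    simp only
    rw [show 2 * bm m b.2.1 * (bm m b.2.1 * hm m b.2.1) * (b.2.2 * bm m b.2.1) -
      hm m b.2.1 * (b.2.2 * (2 * bm m b.2.1 ^ 2 + m * hm m b.2.1) * bm m b.2.1 -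
        b.2.2 * (m * (bm m b.2.1 * hm m b.2.1))) = 0 by ring]
    simp
  · rw [yP_fd b _ h3]
    unfold dirP'
    simp only
    have h5 := hm_bm m b.2.1
    rw [show -(m * b.1) * hm m b.2.1 * b.2.2 -
      b.1 * (b.2.2 * (2 * bm m b.2.1 ^ 2 + m * hm m b.2.1)) = -2 * (b.1 * b.2.2) by
        linear_combination (-(2 * b.1 * b.2.2)) * h5]
    exact div_ne_zero (mul_ne_zero (by norm_num) (mul_ne_zero h1 h3)) (pow_ne_zero 2 h3)

/-- The mixed derivative at the base point. -/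
lemma base_Pg (a b u e : V) (hb : b.2.2 ≠ 0)
    (F : V × V → ℝ) (hF : ∀ᶠ q in 𝓝 (a, b), F q = xP q.1 * yP q.2) :
    fderiv ℝ (fun b' => fderiv ℝ (fun a' => F (a', b')) a u) b e =
      fderiv ℝ xP a u * fderiv ℝ yP b e := by
  have hF' : ∀ᶠ q in 𝓝 (a, b), F q = (fun _ : V => (0:ℝ)) q.1 + (fun _ : V => (0:ℝ)) q.2 +
      xP q.1 * yP q.2 + (fun _ : V => (0:ℝ)) q.1 * (fun _ : V => (0:ℝ)) q.2 := by
    filter_upwards [hF] with q hq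
    rw [hq]
    simp
  have n0 : DifferentiableAt ℝ (fun _ : V => (0:ℝ)) a := differentiableAt_const _
  have m0 : DifferentiableAt ℝ (fun _ : V => (0:ℝ)) b := differentiableAt_const _
  rw [sep_2 F (fun _ : V => (0:ℝ)) xP (fun _ : V => (0:ℝ)) (fun _ : V => (0:ℝ)) yP
    (fun _ : V => (0:ℝ)) a b hF' n0 (by unfold xP; fun_prop) n0 m0 (yP_diff b hb) m0 u e]
  simp

end Pool.Agent.SDT.N1M

end -- N1M.P3d

section -- N1Q.AbD

/-!
N1Q, block absE: integrals over the space of rectangles.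
-/

namespace Pool.Agent.SDT.N1Q

open MeasureTheory Set Metric Pool.Agent.SDT.MP_6cbfb8_an Pool.Agent.SDT.MST Pool.Agent.SDT.N1
open Pool.Agent.SDT.N1F Pool.Agent.SDT.N1G Pool.Agent.SDT.N1M
open scoped ENNReal Real ContDiff

/-- The integrand; `p = (y₁, z₁)`, `w = (u, v)` the normal components. -/
noncomputable def f4E (η T : ℝ) (p w : ℝ × ℝ) : ℝ≥0∞ :=
  if (2000 * η * |p.1| ≤ |w.1| ∧ 2000 * η * |p.2| ≤ |w.2|) ∧ (|w.1| ≤ 3 ∧ |w.2| ≤ 3) then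
    ENNReal.ofReal (T / (1 + T * (|w.1| * |w.2| / 1000)) ^ 3) else 0

theorem f4E_meas (η T : ℝ) : Measurable fun s : (ℝ × ℝ) × (ℝ × ℝ) => f4E η T s.1 s.2 := by
  unfold f4E
  refine Measurable.ite ?_ ?_ measurable_const
  · have h1 : MeasurableSet {s : (ℝ × ℝ) × (ℝ × ℝ) | 2000 * η * |s.1.1| ≤ |s.2.1|} :=
      measurableSet_le (by fun_prop) (by fun_prop)
    have h2 : MeasurableSet {s : (ℝ × ℝ) × (ℝ × ℝ) | 2000 * η * |s.1.2| ≤ |s.2.2|} :=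
      measurableSet_le (by fun_prop) (by fun_prop)
    have h3 : MeasurableSet {s : (ℝ × ℝ) × (ℝ × ℝ) | |s.2.1| ≤ 3} :=
      measurableSet_le (by fun_prop) (by fun_prop)
    have h4 : MeasurableSet {s : (ℝ × ℝ) × (ℝ × ℝ) | |s.2.2| ≤ 3} :=
      measurableSet_le (by fun_prop) (by fun_prop)
    exact (h1.inter h2).inter (h3.inter h4)
  · fun_prop

theorem f4E_p (η T : ℝ) (hη : 0 < η) (hT : 0 < T) (w : ℝ × ℝ) :
    ∫⁻ p : ℝ × ℝ, f4E η T p w ≤ ENNReal.ofReal (1 / (1000 * η ^ 2)) * hhE T w.1 w.2 := by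
  unfold f4E hhE
  by_cases hw : |w.1| ≤ 3 ∧ |w.2| ≤ 3
  · rw [if_pos hw]
    simp only [hw, and_true]
    obtain ⟨A, hA⟩ : ∃ A, A = |w.1| / (2000 * η) := ⟨_, rfl⟩
    obtain ⟨B, hB⟩ : ∃ B, B = |w.2| / (2000 * η) := ⟨_, rfl⟩
    have hA0 : 0 ≤ A := by
      rw [hA]
      positivity
    have hB0 : 0 ≤ B := by
      rw [hB]
      positivity
    have hle : ∀ p : ℝ × ℝ, (if 2000 * η * |p.1| ≤ |w.1| ∧ 2000 * η * |p.2| ≤ |w.2| then
        ENNReal.ofReal (T / (1 + T * (|w.1| * |w.2| / 1000)) ^ 3) else 0) ≤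
        (Icc (-A) A ×ˢ Icc (-B) B).indicator
          (fun _ => ENNReal.ofReal (T / (1 + T * (|w.1| * |w.2| / 1000)) ^ 3)) p := by
      intro p
      split_ifs with h
      · have h1 : |p.1| ≤ A := by
          rw [hA, le_div_iff₀ (by positivity)]
          linarith [h.1]
        have h2 : |p.2| ≤ B := by
          rw [hB, le_div_iff₀ (by positivity)]
          linarith [h.2]
        rw [indicator_of_mem (show p ∈ Icc (-A) A ×ˢ Icc (-B) B from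
          ⟨abs_le.1 h1, abs_le.1 h2⟩)]
      · exact zero_le
    refine (lintegral_mono hle).trans ?_
    rw [lintegral_indicator (measurableSet_Icc.prod measurableSet_Icc), setLIntegral_const,
      Measure.volume_eq_prod, Measure.prod_prod, Real.volume_Icc, Real.volume_Icc,
      ← ENNReal.ofReal_mul (by linarith), ← ENNReal.ofReal_mul (by positivity),
      ← ENNReal.ofReal_mul (by positivity)]
    apply ENNReal.ofReal_le_ofReal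
    obtain ⟨s, hs⟩ : ∃ s, s = |w.1| * |w.2| / 1000 := ⟨_, rfl⟩
    have hs0 : 0 ≤ s := by
      rw [hs]
      positivity
    have hAB : (A - -A) * (B - -B) = s * (1 / (1000 * η ^ 2)) := by
      rw [hA, hB, hs]
      field_simp
      ring
    rw [hAB, ← hs]
    have hpos : 0 < 1 + T * s := by positivity
    have e1 : T / (1 + T * s) ^ 3 * (s * (1 / (1000 * η ^ 2))) =
        1 / (1000 * η ^ 2) * (T * s / (1 + T * s) ^ 3) := by ring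
    rw [e1]
    apply mul_le_mul_of_nonneg_left _ (by positivity)
    rw [div_le_div_iff₀ (by positivity) (by positivity)]
    have : T * s ≤ 1 + T * s := by linarith
    calc T * s * (1 + T * s) ^ 2 ≤ (1 + T * s) * (1 + T * s) ^ 2 :=
          mul_le_mul_of_nonneg_right this (by positivity)
      _ = 1 * (1 + T * s) ^ 3 := by ring
  · rw [if_neg hw]
    simp only [hw, and_false, if_false, lintegral_zero]
    exact zero_le

theorem f4E_int (η T : ℝ) (hη : 0 < η) (hT : 1 ≤ T) :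
    ∫⁻ p : ℝ × ℝ, ∫⁻ w : ℝ × ℝ, f4E η T p w ≤
      ENNReal.ofReal (20 * (1 + Real.log T) / (η ^ 2 * T)) := by
  have hT0 : 0 < T := by linarith
  rw [lintegral_lintegral_swap (f4E_meas η T).aemeasurable]
  refine (lintegral_mono fun w => f4E_p η T hη hT0 w).trans ?_
  rw [lintegral_const_mul _ (hhE_meas T)]
  refine (mul_le_mul_right (hhE_int T hT) _).trans ?_
  rw [← ENNReal.ofReal_mul (by positivity)]
  apply ENNReal.ofReal_le_ofReal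
  apply le_of_eq
  field_simp
  ring

theorem lint_V (f : V → ℝ≥0∞) (hf : Measurable f) :
    ∫⁻ v, f v = ∫⁻ y : ℝ, ∫⁻ a : ℝ, ∫⁻ z : ℝ, f (y, a, z) := by
  rw [Measure.volume_eq_prod, lintegral_prod _ hf.aemeasurable]
  refine lintegral_congr fun y => ?_
  have hm : Measurable fun s : ℝ × ℝ => f (y, s) := hf.comp measurable_prodMk_left
  rw [Measure.volume_eq_prod, lintegral_prod _ hm.aemeasurable]

/-- The integrand on the space of rectangles. -/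
noncomputable def G3E (g1 g2 η T : ℝ) (q : V × V) : ℝ≥0∞ :=
  (Icc (-1 / 4 : ℝ) (1 / 4)).indicator (fun _ => (1 : ℝ≥0∞)) q.1.2.1 *
    ((Icc (-1 / 4 : ℝ) (1 / 4)).indicator (fun _ => (1 : ℝ≥0∞)) q.2.2.1 *
      f4E η T (q.1.1, q.1.2.2) (lnE g1 g2 (q.1.1, q.2.1), lnE g1 g2 (q.1.2.2, q.2.2.2)))

theorem G3E_meas (g1 g2 η T : ℝ) : Measurable (G3E g1 g2 η T) := by
  have h1 : Measurable fun a : ℝ => (Icc (-1 / 4 : ℝ) (1 / 4)).indicator (fun _ => (1 : ℝ≥0∞)) a :=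
    Measurable.indicator measurable_const measurableSet_Icc
  have h2 : Measurable fun q : V × V => (((q.1.1, q.1.2.2),
      (lnE g1 g2 (q.1.1, q.2.1), lnE g1 g2 (q.1.2.2, q.2.2.2))) : (ℝ × ℝ) × (ℝ × ℝ)) := by
    unfold lnE
    fun_prop
  unfold G3E
  exact (h1.comp (by fun_prop : Measurable fun q : V × V => q.1.2.1)).mul
    ((h1.comp (by fun_prop : Measurable fun q : V × V => q.2.2.1)).mul
      ((f4E_meas η T).comp h2))

theorem G3E_int (g1 g2 η T : ℝ) (hg : 1 / 4 ≤ g2) (hη : 0 < η) (hT : 1 ≤ T) :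
    ∫⁻ q, G3E g1 g2 η T q ≤ ENNReal.ofReal (80 * (1 + Real.log T) / (η ^ 2 * T)) := by
  have hg0 : 0 < g2 := by linarith
  have hgn : g2 ≠ 0 := hg0.ne'
  have hI : ∫⁻ a : ℝ, (Icc (-1 / 4 : ℝ) (1 / 4)).indicator (fun _ => (1 : ℝ≥0∞)) a =
      ENNReal.ofReal (1 / 2) := by
    rw [lintegral_indicator measurableSet_Icc, setLIntegral_one, Real.volume_Icc]
    norm_num
  have mI : Measurable fun a : ℝ => (Icc (-1 / 4 : ℝ) (1 / 4)).indicator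
      (fun _ => (1 : ℝ≥0∞)) a := Measurable.indicator measurable_const measurableSet_Icc
  -- measurability of sections
  have m2 : ∀ p : ℝ × ℝ, Measurable fun w : ℝ × ℝ => f4E η T p w := fun p =>
    (f4E_meas η T).comp measurable_prodMk_left
  have m3 : ∀ (p : ℝ × ℝ) (u : ℝ), Measurable fun v : ℝ => f4E η T p (u, v) := fun p u =>
    (m2 p).comp measurable_prodMk_left
  have m4 : ∀ p : ℝ × ℝ, Measurable fun u : ℝ => ∫⁻ v : ℝ, f4E η T p (u, v) := fun p =>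
    (m2 p).lintegral_prod_right'
  -- the inner integral
  have inner : ∀ p : V, ∫⁻ s : V, G3E g1 g2 η T (p, s) =
      (Icc (-1 / 4 : ℝ) (1 / 4)).indicator (fun _ => (1 : ℝ≥0∞)) p.2.1 *
        (ENNReal.ofReal |g2⁻¹| * (ENNReal.ofReal |g2⁻¹| * (ENNReal.ofReal (1 / 2) *
          ∫⁻ w : ℝ × ℝ, f4E η T (p.1, p.2.2) w))) := by
    intro p
    have hm : Measurable fun s : V => G3E g1 g2 η T (p, s) :=
      (G3E_meas g1 g2 η T).comp measurable_prodMk_left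
    rw [lint_V _ hm]
    unfold G3E lnE
    simp only
    have s1 : ∀ (y b : ℝ), ∫⁻ z : ℝ, (Icc (-1 / 4 : ℝ) (1 / 4)).indicator
        (fun _ => (1 : ℝ≥0∞)) p.2.1 * ((Icc (-1 / 4 : ℝ) (1 / 4)).indicator
        (fun _ => (1 : ℝ≥0∞)) b * f4E η T (p.1, p.2.2) (g1 * p.1 + g2 * y,
          g1 * p.2.2 + g2 * z)) =
        (Icc (-1 / 4 : ℝ) (1 / 4)).indicator (fun _ => (1 : ℝ≥0∞)) p.2.1 *
        ((Icc (-1 / 4 : ℝ) (1 / 4)).indicator (fun _ => (1 : ℝ≥0∞)) b *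
          (ENNReal.ofReal |g2⁻¹| * ∫⁻ v : ℝ, f4E η T (p.1, p.2.2) (g1 * p.1 + g2 * y, v))) := by
      intro y b
      have hc : Measurable fun z : ℝ => f4E η T (p.1, p.2.2) (g1 * p.1 + g2 * y,
          g1 * p.2.2 + g2 * z) := (m3 _ _).comp (by fun_prop)
      rw [lintegral_const_mul _ (hc.const_mul _), lintegral_const_mul _ hc,
        lint_aff g2 (g1 * p.2.2) hgn _ (m3 (p.1, p.2.2) (g1 * p.1 + g2 * y))]
    simp only [s1]
    have s2 : ∀ y : ℝ, ∫⁻ b : ℝ, (Icc (-1 / 4 : ℝ) (1 / 4)).indicator (fun _ => (1 : ℝ≥0∞)) p.2.1 *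
        ((Icc (-1 / 4 : ℝ) (1 / 4)).indicator (fun _ => (1 : ℝ≥0∞)) b *
          (ENNReal.ofReal |g2⁻¹| * ∫⁻ v : ℝ, f4E η T (p.1, p.2.2) (g1 * p.1 + g2 * y, v))) =
        (Icc (-1 / 4 : ℝ) (1 / 4)).indicator (fun _ => (1 : ℝ≥0∞)) p.2.1 *
        (ENNReal.ofReal (1 / 2) *
          (ENNReal.ofReal |g2⁻¹| * ∫⁻ v : ℝ, f4E η T (p.1, p.2.2) (g1 * p.1 + g2 * y, v))) := by
      intro y
      rw [lintegral_const_mul _ (mI.mul_const _), lintegral_mul_const _ mI, hI]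
    simp only [s2]
    have hc : Measurable fun y : ℝ => ∫⁻ v : ℝ, f4E η T (p.1, p.2.2) (g1 * p.1 + g2 * y, v) :=
      (m4 _).comp (by fun_prop)
    rw [lintegral_const_mul _ ((hc.const_mul _).const_mul _),
      lintegral_const_mul _ (hc.const_mul _), lintegral_const_mul _ hc,
      lint_aff g2 (g1 * p.1) hgn _ (m4 (p.1, p.2.2))]
    rw [Measure.volume_eq_prod, lintegral_prod _ (m2 (p.1, p.2.2)).aemeasurable]
    ring
  have mΦ : Measurable fun p : ℝ × ℝ => ∫⁻ w : ℝ × ℝ, f4E η T p w :=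
    (f4E_meas η T).lintegral_prod_right'
  rw [Measure.volume_eq_prod, lintegral_prod _ (G3E_meas g1 g2 η T).aemeasurable]
  simp only [inner]
  have hm : Measurable fun x : V => (Icc (-1 / 4 : ℝ) (1 / 4)).indicator
      (fun _ => (1 : ℝ≥0∞)) x.2.1 * (ENNReal.ofReal |g2⁻¹| * (ENNReal.ofReal |g2⁻¹| *
        (ENNReal.ofReal (1 / 2) * ∫⁻ w : ℝ × ℝ, f4E η T (x.1, x.2.2) w))) :=
    (mI.comp (by fun_prop : Measurable fun x : V => x.2.1)).mul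
      (measurable_const.mul (measurable_const.mul (measurable_const.mul
        (mΦ.comp (by fun_prop : Measurable fun x : V => (x.1, x.2.2))))))
  rw [lint_V _ hm]
  have t1 : ∀ y a : ℝ, ∫⁻ z : ℝ, (Icc (-1 / 4 : ℝ) (1 / 4)).indicator (fun _ => (1 : ℝ≥0∞)) a *
        (ENNReal.ofReal |g2⁻¹| * (ENNReal.ofReal |g2⁻¹| * (ENNReal.ofReal (1 / 2) *
          ∫⁻ w : ℝ × ℝ, f4E η T (y, z) w))) =
      (Icc (-1 / 4 : ℝ) (1 / 4)).indicator (fun _ => (1 : ℝ≥0∞)) a *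
        (ENNReal.ofReal |g2⁻¹| * (ENNReal.ofReal |g2⁻¹| * (ENNReal.ofReal (1 / 2) *
          ∫⁻ z : ℝ, ∫⁻ w : ℝ × ℝ, f4E η T (y, z) w))) := by
    intro y a
    have hc : Measurable fun z : ℝ => ∫⁻ w : ℝ × ℝ, f4E η T (y, z) w :=
      mΦ.comp measurable_prodMk_left
    rw [lintegral_const_mul _ (((hc.const_mul _).const_mul _).const_mul _),
      lintegral_const_mul _ ((hc.const_mul _).const_mul _),
      lintegral_const_mul _ (hc.const_mul _), lintegral_const_mul _ hc]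
  simp only [t1]
  have t2 : ∀ y : ℝ, ∫⁻ a : ℝ, (Icc (-1 / 4 : ℝ) (1 / 4)).indicator (fun _ => (1 : ℝ≥0∞)) a *
        (ENNReal.ofReal |g2⁻¹| * (ENNReal.ofReal |g2⁻¹| * (ENNReal.ofReal (1 / 2) *
          ∫⁻ z : ℝ, ∫⁻ w : ℝ × ℝ, f4E η T (y, z) w))) =
      ENNReal.ofReal (1 / 2) * (ENNReal.ofReal |g2⁻¹| * (ENNReal.ofReal |g2⁻¹| *
        (ENNReal.ofReal (1 / 2) * ∫⁻ z : ℝ, ∫⁻ w : ℝ × ℝ, f4E η T (y, z) w))) := by
    intro y
    rw [lintegral_mul_const _ mI, hI]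
  simp only [t2]
  have hc : Measurable fun y : ℝ => ∫⁻ z : ℝ, ∫⁻ w : ℝ × ℝ, f4E η T (y, z) w :=
    mΦ.lintegral_prod_right'
  rw [lintegral_const_mul _ (((hc.const_mul _).const_mul _).const_mul _),
      lintegral_const_mul _ ((hc.const_mul _).const_mul _),
      lintegral_const_mul _ (hc.const_mul _), lintegral_const_mul _ hc]
  have e0 : ∫⁻ y : ℝ, ∫⁻ z : ℝ, ∫⁻ w : ℝ × ℝ, f4E η T (y, z) w =
      ∫⁻ p : ℝ × ℝ, ∫⁻ w : ℝ × ℝ, f4E η T p w :=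
    (lintegral_prod (μ := volume) (ν := volume) (fun p : ℝ × ℝ => ∫⁻ w : ℝ × ℝ, f4E η T p w)
      mΦ.aemeasurable).symm
  rw [e0]
  have hgi : ENNReal.ofReal |g2⁻¹| ≤ ENNReal.ofReal 4 := by
    apply ENNReal.ofReal_le_ofReal
    rw [abs_of_pos (by positivity), inv_le_comm₀ hg0 (by norm_num)]
    linarith
  calc ENNReal.ofReal (1 / 2) * (ENNReal.ofReal |g2⁻¹| * (ENNReal.ofReal |g2⁻¹| *
        (ENNReal.ofReal (1 / 2) * ∫⁻ p : ℝ × ℝ, ∫⁻ w : ℝ × ℝ, f4E η T p w))) ≤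
      ENNReal.ofReal (1 / 2) * (ENNReal.ofReal 4 * (ENNReal.ofReal 4 *
        (ENNReal.ofReal (1 / 2) * ENNReal.ofReal (20 * (1 + Real.log T) / (η ^ 2 * T))))) := by
        gcongr
        exact f4E_int η T hη hT
    _ = _ := by
        have hlog0 : 0 ≤ Real.log T := Real.log_nonneg hT
        rw [← ENNReal.ofReal_mul (by norm_num), ← ENNReal.ofReal_mul (by norm_num),
          ← ENNReal.ofReal_mul (by norm_num), ← ENNReal.ofReal_mul (by norm_num)]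
        congr 1
        ring

end Pool.Agent.SDT.N1Q

end -- N1Q.AbD
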