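import Pool.Agent.SDT.B19
import Pool.Agent.SDT.B27

set_option autoImplicit false

namespace Pool.Agent.SDT.MST
end Pool.Agent.SDT.MST
namespace Pool.Agent.SDT.N1
end Pool.Agent.SDT.N1

section -- N1F.HM5

/-!
The geometry for the anisotropic estimate: the main statement.
-/

namespace Pool.Agent.SDT.N1F

open MeasureTheory Set Metric Pool.Agent.SDT.MST Pool.Agent.SDT.N1
open scoped ContDiff

theorem HLa_geo {P : Type*} [NormedAddCommGroup P] [NormedSpace ℝ P] [FiniteDimensional ℝ P]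
    (w α : P × V → ℝ) (σ β : P × V → ℝ) (g : P × V × V → ℝ) (p0 : P) (a0 b0 : V) (s0 s1 : ℝ)
    (hs0 : 0 < s0) (hw : ContDiff ℝ ∞ w) (hα : ContDiff ℝ ∞ α) (hσ : ContDiff ℝ ∞ σ)
    (hβ : ContDiff ℝ ∞ β) (hg : ContDiff ℝ ∞ g) (f1 f2 f3 : V)
    (n1 : ‖f1‖ ≤ 1) (n2 : ‖f2‖ ≤ 1) (n3 : ‖f3‖ ≤ 1)
    (h11 : fderiv ℝ σ (p0, b0) (0, f1) ≠ 0) (h12 : fderiv ℝ β (p0, b0) (0, f1) = 0)
    (h22 : fderiv ℝ β (p0, b0) (0, f2) ≠ 0)
    (h31 : fderiv ℝ σ (p0, b0) (0, f3) = 0) (h32 : fderiv ℝ β (p0, b0) (0, f3) = 0)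
    (hnd : ∀ v : V, fderiv ℝ w (p0, a0) (0, v) = 0 → fderiv ℝ α (p0, a0) (0, v) = 0 →
      fderiv ℝ (fderiv ℝ g) (p0, a0, b0) (0, v, 0) (0, 0, f3) = 0 → v = 0) :
    ∃ δ0 c0 C0 : ℝ, 0 < δ0 ∧ 0 < c0 ∧ 0 ≤ C0 ∧ ∀ p ∈ ball p0 δ0, ∀ κ ε : ℝ, 0 < κ → κ ≤ 1 →
      0 < ε → ε < δ0 → ∀ δ ρ : ℝ, δ ≤ δ0 → ρ ≤ δ0 →
        Dich (fun a b => w (p, a) - σ (p, b) + κ * (α (p, a) * β (p, b) + ε * g (p, a, b)))
          (fun a a' => |w (p, a) - w (p, a')| +
            (κ * |α (p, a) - α (p, a')| + κ * ε * ‖a - a'‖)) (ball a0 δ) b0 ρ c0 C0 s0 s1 := by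
  have hVn : ∀ e : V, ‖((0, e) : P × V)‖ = ‖e‖ := fun e => by simp [Prod.norm_def]
  have hVVa : ∀ e : V, ‖((0, e, 0) : P × V × V)‖ = ‖e‖ := fun e => by simp [Prod.norm_def]
  have hVVb : ∀ e : V, ‖((0, 0, e) : P × V × V)‖ = ‖e‖ := fun e => by simp [Prod.norm_def]
  set m1 : ℝ := |fderiv ℝ σ (p0, b0) (0, f1)| with hm1
  set m2 : ℝ := |fderiv ℝ β (p0, b0) (0, f2)| with hm2
  have hm1p : 0 < m1 := abs_pos.mpr h11
  have hm2p : 0 < m2 := abs_pos.mpr h22
  -- linear algebra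
  let iA : V →L[ℝ] P × V × V := (ContinuousLinearMap.inr ℝ P (V × V)) ∘L
    (ContinuousLinearMap.inl ℝ V V)
  obtain ⟨η, c4, hη, hc4, halg⟩ := hm_alg
    ((fderiv ℝ w (p0, a0)) ∘L (ContinuousLinearMap.inr ℝ P V))
    ((fderiv ℝ α (p0, a0)) ∘L (ContinuousLinearMap.inr ℝ P V))
    ((ContinuousLinearMap.apply ℝ ℝ ((0, 0, f3) : P × V × V)) ∘L
      (fderiv ℝ (fderiv ℝ g) (p0, a0, b0) ∘L iA))
    (fun u hu hu2 hu3 => hnd u hu hu2 hu3)
  have halg' : ∀ v : V, |fderiv ℝ w (p0, a0) (0, v)| ≤ η * ‖v‖ →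
      |fderiv ℝ α (p0, a0) (0, v)| ≤ η * ‖v‖ →
      c4 * ‖v‖ ≤ |fderiv ℝ (fderiv ℝ g) (p0, a0, b0) (0, v, 0) (0, 0, f3)| :=
    fun v hv hv2 => halg v hv hv2
  -- bounds
  have hσ' : ContDiff ℝ ∞ (fun q : P × V × V => σ (q.1, q.2.2)) := hσ.comp (by fun_prop)
  have hβ' : ContDiff ℝ ∞ (fun q : P × V × V => β (q.1, q.2.2)) := hβ.comp (by fun_prop)
  have hα' : ContDiff ℝ ∞ (fun q : P × V × V => α (q.1, q.2.1)) := hα.comp (by fun_prop)
  obtain ⟨Ls, hLs, hbs⟩ := hl_bounds (fun q : P × V × V => σ (q.1, q.2.2)) hσ' p0 a0 b0 1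
  obtain ⟨Lb, hLb, hbb⟩ := hl_bounds (fun q : P × V × V => β (q.1, q.2.2)) hβ' p0 a0 b0 1
  obtain ⟨La, hLa, hba⟩ := hl_bounds (fun q : P × V × V => α (q.1, q.2.1)) hα' p0 a0 b0 1
  obtain ⟨Lg, hLg, hbg⟩ := hl_bounds g hg p0 a0 b0 1
  set L : ℝ := Ls + La * Lb + La + Lb + Lg + 1 with hL
  have hLab : 0 ≤ La * Lb := mul_nonneg hLa hLb
  have hLp : 0 < L := by linarith
  set σ1 : ℝ := m1 / 2 with hσ1
  have hσ1p : 0 < σ1 := by positivity
  set S : ℝ := |s1| + 1 with hS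
  have hSp : 0 < S := by positivity
  set M : ℝ := 2 * L + 2 with hM
  have hMp : 0 < M := by positivity
  set tB : ℝ := s0 * (m2 / 8) / (4 * L) with htB
  have htBp : 0 < tB := by positivity
  set tC : ℝ := 4 * S * L / σ1 with htC
  have htCp : 0 < tC := by positivity
  set K : ℝ := 8 * S * L / (σ1 * tB) + 4 * L / m2 + 1 with hK
  have hK1 : 1 ≤ K := by
    have : 0 ≤ 8 * S * L / (σ1 * tB) + 4 * L / m2 := by positivity
    linarith
  have hKp : 0 < K := by linarith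
  have hKL1 : L ≤ K * (m2 / 4) := by
    have h3 : 4 * L / m2 * (m2 / 4) = L := by field_simp
    have h4 : 4 * L / m2 ≤ K := by
      have : 0 ≤ 8 * S * L / (σ1 * tB) := by positivity
      linarith
    calc L = 4 * L / m2 * (m2 / 4) := h3.symm
      _ ≤ K * (m2 / 4) := mul_le_mul_of_nonneg_right h4 (by positivity)
  have hKL2 : S * L ≤ K * (σ1 * tB / 8) := by
    have h3 : 8 * S * L / (σ1 * tB) * (σ1 * tB / 8) = S * L := by field_simp
    have h4 : 8 * S * L / (σ1 * tB) ≤ K := by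
      have : 0 ≤ 4 * L / m2 := by positivity
      linarith
    calc S * L = 8 * S * L / (σ1 * tB) * (σ1 * tB / 8) := h3.symm
      _ ≤ K * (σ1 * tB / 8) := mul_le_mul_of_nonneg_right h4 (by positivity)
  set c3 : ℝ := min (m2 / 8) (c4 / (2 * (1 + K))) with hc3
  have hc3p : 0 < c3 := lt_min (by positivity) (by positivity)
  have hc3a : c3 ≤ m2 / 8 := min_le_left _ _
  have hc3b : c3 * (2 * (1 + K)) ≤ c4 := by
    calc c3 * (2 * (1 + K)) ≤ c4 / (2 * (1 + K)) * (2 * (1 + K)) :=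
          mul_le_mul_of_nonneg_right (min_le_right _ _) (by positivity)
      _ = c4 := by field_simp
  obtain ⟨c0, C0, hc0, hC0, habs⟩ := HL_abs s0 s1 σ1 L c3 (min tB tC) (max tB tC) hs0 hσ1p hLp
    hc3p (lt_min htBp htCp) (htBp.le.trans (le_max_left _ _))
  obtain ⟨x, hx, hx1, hxm1, hxm2, hxL, hxS, hxC, hxK, hxη, hxM, hxKη, hxCL⟩ :=
    hm_pick m1 m2 σ1 L S tB tC s0 c3 K c4 η M hm1p hm2p hσ1p hLp hSp htBp htCp hs0 hc3p hKp hc4
      hη hMp
  -- neighbourhoods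
  obtain ⟨r1, hr1, hN1⟩ := hl_strict w _ (p0, a0) (hw.hasStrictFDerivAt (by simp)) x hx
  obtain ⟨r2, hr2, hN2⟩ := hl_strict α _ (p0, a0) (hα.hasStrictFDerivAt (by simp)) x hx
  obtain ⟨r3, hr3, hN3⟩ := hl_cont (fderiv ℝ σ) (p0, b0)
    (hσ.continuous_fderiv (by simp)).continuousAt x hx
  obtain ⟨r4, hr4, hN4⟩ := hl_cont (fderiv ℝ β) (p0, b0)
    (hβ.continuous_fderiv (by simp)).continuousAt x hx
  have hDg : ContDiff ℝ ∞ (fderiv ℝ g) := hg.fderiv_right (by simp)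
  obtain ⟨r5, hr5, hN5⟩ := hl_strict (fderiv ℝ g) _ (p0, a0, b0)
    (hDg.hasStrictFDerivAt (by simp)) x hx
  set δ0 : ℝ := min (x / 4) (min (r1 / 4) (min (r2 / 4) (min (r3 / 4) (min (r4 / 4) (r5 / 4)))))
    with hδ0
  have hδ0p : 0 < δ0 := lt_min (by positivity) (lt_min (by positivity) (lt_min (by positivity)
    (lt_min (by positivity) (lt_min (by positivity) (by positivity)))))
  have hdx : 4 * δ0 ≤ x := by
    have : δ0 ≤ x / 4 := min_le_left _ _
    linarith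
  have hdr1 : 4 * δ0 ≤ r1 := by
    have : δ0 ≤ r1 / 4 := (min_le_right _ _).trans (min_le_left _ _)
    linarith
  have hdr2 : 4 * δ0 ≤ r2 := by
    have : δ0 ≤ r2 / 4 := (min_le_right _ _).trans ((min_le_right _ _).trans (min_le_left _ _))
    linarith
  have hdr3 : 4 * δ0 ≤ r3 := by
    have : δ0 ≤ r3 / 4 := (min_le_right _ _).trans ((min_le_right _ _).trans
      ((min_le_right _ _).trans (min_le_left _ _)))
    linarith
  have hdr4 : 4 * δ0 ≤ r4 := by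
    have : δ0 ≤ r4 / 4 := (min_le_right _ _).trans ((min_le_right _ _).trans
      ((min_le_right _ _).trans ((min_le_right _ _).trans (min_le_left _ _))))
    linarith
  have hdr5 : 4 * δ0 ≤ r5 := by
    have : δ0 ≤ r5 / 4 := (min_le_right _ _).trans ((min_le_right _ _).trans
      ((min_le_right _ _).trans ((min_le_right _ _).trans (min_le_right _ _))))
    linarith
  refine ⟨δ0, c0, C0, hδ0p, hc0, hC0, ?_⟩
  intro p hp κ ε hκ hκ1 hε hεδ δ ρ hδ hρ
  have hεx : ε ≤ x := by linarith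
  have hsub : ∀ a ∈ ball a0 δ, a ∈ ball a0 δ0 := fun a ha => ball_subset_ball hδ ha
  have hpc : p ∈ closedBall p0 1 := ball_subset_closedBall (ball_subset_ball (by linarith) hp)
  have hac : ∀ a ∈ ball a0 δ, a ∈ closedBall a0 1 := fun a ha =>
    ball_subset_closedBall (ball_subset_ball (by linarith) (hsub a ha))
  have hbc : ∀ b ∈ closedBall b0 (3 * ρ), b ∈ closedBall b0 1 := fun b hb =>
    closedBall_subset_closedBall (by linarith) hb
  have smβ : ∀ b e : V, ContDiff ℝ ∞ (fun t : ℝ => β (p, b + t • e)) := fun b e =>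
    hβ.comp (by fun_prop)
  have smg : ∀ a b e : V, ContDiff ℝ ∞ (fun t : ℝ => g (p, a, b + t • e)) := fun a b e =>
    hg.comp (by fun_prop)
  -- the derivatives of the coupling
  have hG : ∀ (a b e : V) (j : ℕ), iteratedDeriv j
      (fun t : ℝ => κ * (α (p, a) * β (p, b + t • e) + ε * g (p, a, b + t • e))) 0 =
      κ * (α (p, a) * iteratedDeriv j (fun t : ℝ => β (p, b + t • e)) 0 +
        ε * iteratedDeriv j (fun t : ℝ => g (p, a, b + t • e)) 0) := fun a b e j =>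
    hm_iterG _ _ (smβ b e) (smg a b e) κ ε (α (p, a)) j
  have hG1 : ∀ (a b e : V), deriv
      (fun t : ℝ => κ * (α (p, a) * β (p, b + t • e) + ε * g (p, a, b + t • e))) 0 =
      κ * (α (p, a) * fderiv ℝ β (p, b) (0, e) + ε * fderiv ℝ g (p, a, b) (0, 0, e)) := by
    intro a b e
    rw [← iteratedDeriv_one, hG, hl_dir1 g hg, hl_dir2 β hβ]
  have hσd : ∀ b e : V, deriv (fun t : ℝ => σ (p, b + t • e)) 0 = fderiv ℝ σ (p, b) (0, e) := by
    intro b e
    rw [← iteratedDeriv_one, hl_dir2 σ hσ]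
  have bdα : ∀ a ∈ ball a0 δ, |α (p, a)| ≤ La := by
    intro a ha
    have h3 := (hba 0 (by norm_num) 0 (by simp) p hpc a (hac a ha) a (hac a ha) b0
      (mem_closedBall_self (by norm_num))).1
    simpa only [iteratedDeriv_zero] using h3
  have bdβ : ∀ b ∈ closedBall b0 (3 * ρ), ∀ e : V, ‖e‖ ≤ 1 → ∀ j ≤ 9,
      |iteratedDeriv j (fun t : ℝ => β (p, b + t • e)) 0| ≤ Lb := by
    intro b hb e he j hj
    exact (hbb j hj e he p hpc a0 (mem_closedBall_self (by norm_num)) a0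
      (mem_closedBall_self (by norm_num)) b (hbc b hb)).1
  have bdg : ∀ a ∈ ball a0 δ, ∀ b ∈ closedBall b0 (3 * ρ), ∀ e : V, ‖e‖ ≤ 1 → ∀ j ≤ 9,
      |iteratedDeriv j (fun t : ℝ => g (p, a, b + t • e)) 0| ≤ Lg := fun a ha b hb e he j hj =>
    (hbg j hj e he p hpc a (hac a ha) a (hac a ha) b (hbc b hb)).1
  have bdgD : ∀ a ∈ ball a0 δ, ∀ a' ∈ ball a0 δ, ∀ b ∈ closedBall b0 (3 * ρ), ∀ e : V,
      ‖e‖ ≤ 1 → ∀ j ≤ 9, |iteratedDeriv j (fun t : ℝ => g (p, a, b + t • e)) 0 -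
        iteratedDeriv j (fun t : ℝ => g (p, a', b + t • e)) 0| ≤ Lg * ‖a - a'‖ :=
    fun a ha a' ha' b hb e he j hj =>
      (hbg j hj e he p hpc a (hac a ha) a' (hac a' ha') b (hbc b hb)).2
  have bdgD1 : ∀ a ∈ ball a0 δ, ∀ a' ∈ ball a0 δ, ∀ b ∈ closedBall b0 (3 * ρ), ∀ e : V,
      ‖e‖ ≤ 1 → |fderiv ℝ g (p, a, b) (0, 0, e) - fderiv ℝ g (p, a', b) (0, 0, e)| ≤
        Lg * ‖a - a'‖ := by
    intro a ha a' ha' b hb e he
    have h3 := bdgD a ha a' ha' b hb e he 1 (by norm_num)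
    rwa [hl_dir1 g hg, hl_dir1 g hg] at h3
  have nearσ : ∀ b ∈ closedBall b0 (3 * ρ), ∀ e : V, ‖e‖ ≤ 1 →
      |fderiv ℝ σ (p, b) (0, e) - fderiv ℝ σ (p0, b0) (0, e)| ≤ x := by
    intro b hb e he
    have h3 := hN3 (p, b) (hl_inB p p0 b b0 r3 δ0 ρ hδ0p hp hb hρ hdr3)
    have h8 := (fderiv ℝ σ (p, b) - fderiv ℝ σ (p0, b0)).le_opNorm (0, e)
    rw [hVn, sub_apply, Real.norm_eq_abs] at h8
    refine h8.trans ?_
    calc _ ≤ x * 1 := mul_le_mul h3 he (norm_nonneg _) hx.le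
      _ = x := by ring
  have nearβ : ∀ b ∈ closedBall b0 (3 * ρ), ∀ e : V, ‖e‖ ≤ 1 →
      |fderiv ℝ β (p, b) (0, e) - fderiv ℝ β (p0, b0) (0, e)| ≤ x := by
    intro b hb e he
    have h3 := hN4 (p, b) (hl_inB p p0 b b0 r4 δ0 ρ hδ0p hp hb hρ hdr4)
    have h8 := (fderiv ℝ β (p, b) - fderiv ℝ β (p0, b0)).le_opNorm (0, e)
    rw [hVn, sub_apply, Real.norm_eq_abs] at h8
    refine h8.trans ?_
    calc _ ≤ x * 1 := mul_le_mul h3 he (norm_nonneg _) hx.le
      _ = x := by ring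
  have hβ1 : ∀ b ∈ closedBall b0 (3 * ρ), |fderiv ℝ β (p, b) (0, f1)| ≤ x := by
    intro b hb
    have h3 := nearβ b hb f1 n1
    rwa [h12, sub_zero] at h3
  have hβ3 : ∀ b ∈ closedBall b0 (3 * ρ), |fderiv ℝ β (p, b) (0, f3)| ≤ x := by
    intro b hb
    have h3 := nearβ b hb f3 n3
    rwa [h32, sub_zero] at h3
  have hσ3 : ∀ b ∈ closedBall b0 (3 * ρ), |fderiv ℝ σ (p, b) (0, f3)| ≤ x := by
    intro b hb
    have h3 := nearσ b hb f3 n3
    rwa [h31, sub_zero] at h3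
  have hσ1' : ∀ b ∈ closedBall b0 (3 * ρ), σ1 ≤ |fderiv ℝ σ (p, b) (0, f1)| := by
    intro b hb
    have h3 := nearσ b hb f1 n1
    have h4 := abs_sub_abs_le_abs_sub (fderiv ℝ σ (p0, b0) (0, f1)) (fderiv ℝ σ (p, b) (0, f1))
    rw [abs_sub_comm] at h4
    linarith
  have hβ2' : ∀ b ∈ closedBall b0 (3 * ρ), m2 / 2 ≤ |fderiv ℝ β (p, b) (0, f2)| := by
    intro b hb
    have h3 := nearβ b hb f2 n2
    have h4 := abs_sub_abs_le_abs_sub (fderiv ℝ β (p0, b0) (0, f2)) (fderiv ℝ β (p, b) (0, f2))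
    rw [abs_sub_comm] at h4
    linarith
  have bdg1 : ∀ a ∈ ball a0 δ, ∀ b ∈ closedBall b0 (3 * ρ), ∀ e : V, ‖e‖ ≤ 1 →
      |fderiv ℝ g (p, a, b) (0, 0, e)| ≤ Lg := by
    intro a ha b hb e he
    have h3 := bdg a ha b hb e he 1 (by norm_num)
    rwa [hl_dir1 g hg] at h3
  have bdβ1 : ∀ b ∈ closedBall b0 (3 * ρ), ∀ e : V, ‖e‖ ≤ 1 →
      |fderiv ℝ β (p, b) (0, e)| ≤ Lb := by
    intro b hb e he
    have h3 := bdβ b hb e he 1 (by norm_num)
    rwa [hl_dir2 β hβ] at h3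
  have bdσ1 : ∀ b ∈ closedBall b0 (3 * ρ), ∀ e : V, ‖e‖ ≤ 1 →
      |fderiv ℝ σ (p, b) (0, e)| ≤ Ls := by
    intro b hb e he
    have h3 := (hbs 1 (by norm_num) e he p hpc a0 (mem_closedBall_self (by norm_num)) a0
      (mem_closedBall_self (by norm_num)) b (hbc b hb)).1
    rwa [hl_dir2 σ hσ] at h3
  refine habs (fun a => w (p, a)) (fun b => σ (p, b))
    (fun a b => κ * (α (p, a) * β (p, b) + ε * g (p, a, b)))
    (fun a a' => κ * |α (p, a) - α (p, a')| + κ * ε * ‖a - a'‖) (ball a0 δ) b0 f1 ρ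
    ⟨?_, ?_, ?_, ?_, ?_, n1, ?_, ?_, ?_, ?_, ?_⟩
  · exact hw.comp (by fun_prop)
  · exact hσ.comp (by fun_prop)
  · have k1 : ContDiff ℝ ∞ (fun y : V × V => α (p, y.1)) := hα.comp (by fun_prop)
    have k2 : ContDiff ℝ ∞ (fun y : V × V => β (p, y.2)) := hβ.comp (by fun_prop)
    have k3 : ContDiff ℝ ∞ (fun y : V × V => g (p, y.1, y.2)) := hg.comp (by fun_prop)
    exact contDiff_const.mul ((k1.mul k2).add (contDiff_const.mul k3))
  · have k1 : Continuous (fun y : V × V => α (p, y.1)) := hα.continuous.comp (by fun_prop)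
    have k2 : Continuous (fun y : V × V => α (p, y.2)) := hα.continuous.comp (by fun_prop)
    exact (continuous_const.mul (k1.sub k2).abs).add
      (continuous_const.mul (continuous_fst.sub continuous_snd).norm)
  · intro a a'
    positivity
  · -- es
    intro b hb
    refine ⟨?_, fun a ha => ?_⟩
    · show σ1 ≤ |deriv (fun t : ℝ => σ (p, b + t • f1)) 0|
      rw [hσd]
      exact hσ1' b hb
    · show |deriv (fun t : ℝ => κ * (α (p, a) * β (p, b + t • f1) +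
        ε * g (p, a, b + t • f1))) 0| ≤ σ1 / 4
      rw [hG1]
      refine (hm_up κ ε _ _ _ La Lg x x hκ hκ1 hε hεx (bdα a ha) (hβ1 b hb)
        (bdg1 a ha b hb f1 n1)).trans ?_
      have h3 : La * x ≤ L * x := mul_le_mul_of_nonneg_right (by linarith) hx.le
      have h4 : x * Lg ≤ L * x := by
        rw [mul_comm]
        exact mul_le_mul_of_nonneg_right (by linarith) hx.le
      linarith
  · -- bσ
    intro e he b hb j _ hj
    have h3 := (hbs j hj e he p hpc a0 (mem_closedBall_self (by norm_num)) a0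
      (mem_closedBall_self (by norm_num)) b (hbc b hb)).1
    simp only at h3
    linarith
  · -- bG
    intro e he a ha b hb j _ hj
    show |iteratedDeriv j (fun t : ℝ => κ * (α (p, a) * β (p, b + t • e) +
        ε * g (p, a, b + t • e))) 0| ≤ L
    rw [hG]
    refine (hm_up κ ε _ _ _ La Lg 1 Lb hκ hκ1 hε (hεx.trans hx1) (bdα a ha) (bdβ b hb e he j hj)
      (bdg a ha b hb e he j hj)).trans ?_
    linarith
  · -- bN
    intro e he a ha a' ha' b hb j hj
    show |iteratedDeriv j (fun t : ℝ => κ * (α (p, a) * β (p, b + t • e) +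
        ε * g (p, a, b + t • e))) 0 - iteratedDeriv j (fun t : ℝ => κ * (α (p, a') *
        β (p, b + t • e) + ε * g (p, a', b + t • e))) 0| ≤
      L * (κ * |α (p, a) - α (p, a')| + κ * ε * ‖a - a'‖)
    rw [hG, hG]
    have e1 : ∀ A A' B G G' : ℝ, κ * (A * B + ε * G) - κ * (A' * B + ε * G') =
        κ * ((A - A') * B + ε * (G - G')) := fun A A' B G G' => by ring
    rw [e1]
    exact hm_upD κ ε _ _ _ ‖a - a'‖ Lb Lg L hκ hε (norm_nonneg _) (bdβ b hb e he j hj)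
      (bdgD a ha a' ha' b hb e he j hj) (by linarith) (by linarith)
  · -- key
    intro a ha a' ha' hW
    have hW' : |w (p, a) - w (p, a')| ≤ M * (κ * |α (p, a) - α (p, a')| + κ * ε * ‖a - a'‖) := hW
    have e1 : ∀ A A' B G G' : ℝ, κ * (A * B + ε * G) - κ * (A' * B + ε * G') =
        κ * ((A - A') * B + ε * (G - G')) := fun A A' B G G' => by ring
    by_cases hreg : K * (ε * ‖a - a'‖) ≤ |α (p, a) - α (p, a')|
    · refine ⟨tB, m2 / 8, f2, min_le_left _ _, le_max_left _ _, hc3a, n2, fun b hb => ?_⟩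
      refine ⟨?_, ?_, ?_⟩
      · show S * |deriv (fun t : ℝ => κ * (α (p, a) * β (p, b + t • f1) +
          ε * g (p, a, b + t • f1))) 0 - deriv (fun t : ℝ => κ * (α (p, a') *
          β (p, b + t • f1) + ε * g (p, a', b + t • f1))) 0| ≤
          σ1 / 4 * (tB * (κ * |α (p, a) - α (p, a')| + κ * ε * ‖a - a'‖))
        rw [hG1, hG1, e1]
        exact hm_B1 κ ε _ ‖a - a'‖ _ _ K L S σ1 tB x hκ hε (norm_nonneg _) hSp hσ1p htBp hreg
          (hβ1 b hb) ((bdgD1 a ha a' ha' b hb f1 n1).trans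
            (mul_le_mul_of_nonneg_right (by linarith) (norm_nonneg _))) hxS hKL2
      · show tB * (|deriv (fun t : ℝ => σ (p, b + t • f2)) 0| + |deriv (fun t : ℝ => κ *
          (α (p, a') * β (p, b + t • f2) + ε * g (p, a', b + t • f2))) 0|) ≤ s0 * (m2 / 8) / 2
        rw [hG1, hσd]
        have h3 := hm_up κ ε _ _ _ La Lg 1 Lb hκ hκ1 hε (hεx.trans hx1) (bdα a' ha')
          (bdβ1 b hb f2 n2) (bdg1 a' ha' b hb f2 n2)
        have h4 := bdσ1 b hb f2 n2
        have h5 : |fderiv ℝ σ (p, b) (0, f2)| + |κ * (α (p, a') * fderiv ℝ β (p, b) (0, f2) +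
            ε * fderiv ℝ g (p, a', b) (0, 0, f2))| ≤ 2 * L := by linarith
        have h6 : tB * (2 * L) = s0 * (m2 / 8) / 2 := by
          rw [htB]
          field_simp
          ring
        rw [← h6]
        exact mul_le_mul_of_nonneg_left h5 htBp.le
      · show m2 / 8 * (κ * |α (p, a) - α (p, a')| + κ * ε * ‖a - a'‖) ≤
          |deriv (fun t : ℝ => κ * (α (p, a) * β (p, b + t • f2) +
          ε * g (p, a, b + t • f2))) 0 - deriv (fun t : ℝ => κ * (α (p, a') *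
          β (p, b + t • f2) + ε * g (p, a', b + t • f2))) 0|
        rw [hG1, hG1, e1]
        exact hm_B3 κ ε _ ‖a - a'‖ _ _ K L m2 hκ hε (norm_nonneg _) hLp hK1 hm2p hreg
          (hβ2' b hb) ((bdgD1 a ha a' ha' b hb f2 n2).trans
            (mul_le_mul_of_nonneg_right (by linarith) (norm_nonneg _))) hKL1
    · have hreg' : |α (p, a) - α (p, a')| ≤ K * (ε * ‖a - a'‖) := (not_le.mp hreg).le
      have hu : 0 ≤ ‖a - a'‖ := norm_nonneg _
      refine ⟨tC, c3, f3, min_le_right _ _, le_max_right _ _, le_rfl, n3, fun b hb => ?_⟩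
      refine ⟨?_, ?_, ?_⟩
      · show S * |deriv (fun t : ℝ => κ * (α (p, a) * β (p, b + t • f1) +
          ε * g (p, a, b + t • f1))) 0 - deriv (fun t : ℝ => κ * (α (p, a') *
          β (p, b + t • f1) + ε * g (p, a', b + t • f1))) 0| ≤
          σ1 / 4 * (tC * (κ * |α (p, a) - α (p, a')| + κ * ε * ‖a - a'‖))
        rw [hG1, hG1, e1]
        have h3 := hm_upD κ ε (α (p, a) - α (p, a')) (fderiv ℝ β (p, b) (0, f1))
          (fderiv ℝ g (p, a, b) (0, 0, f1) - fderiv ℝ g (p, a', b) (0, 0, f1)) ‖a - a'‖ Lb Lg L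
          hκ hε hu (bdβ1 b hb f1 n1) (bdgD1 a ha a' ha' b hb f1 n1) (by linarith) (by linarith)
        have h4 : σ1 / 4 * (tC * (κ * |α (p, a) - α (p, a')| + κ * ε * ‖a - a'‖)) =
            S * (L * (κ * |α (p, a) - α (p, a')| + κ * ε * ‖a - a'‖)) := by
          rw [htC]
          field_simp
        rw [h4]
        exact mul_le_mul_of_nonneg_left h3 hSp.le
      · show tC * (|deriv (fun t : ℝ => σ (p, b + t • f3)) 0| + |deriv (fun t : ℝ => κ *
          (α (p, a') * β (p, b + t • f3) + ε * g (p, a', b + t • f3))) 0|) ≤ s0 * c3 / 2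
        rw [hG1, hσd]
        have h3 := hm_up κ ε _ _ _ La Lg x x hκ hκ1 hε hεx (bdα a' ha') (hβ3 b hb)
          (bdg1 a' ha' b hb f3 n3)
        have h4 := hσ3 b hb
        have h5 : La * x ≤ L * x := mul_le_mul_of_nonneg_right (by linarith) hx.le
        have h6 : x * Lg ≤ L * x := by
          rw [mul_comm]
          exact mul_le_mul_of_nonneg_right (by linarith) hx.le
        have h7 : |fderiv ℝ σ (p, b) (0, f3)| + |κ * (α (p, a') * fderiv ℝ β (p, b) (0, f3) +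
            ε * fderiv ℝ g (p, a', b) (0, 0, f3))| ≤ (1 + L) * x + L * x := by linarith
        calc _ ≤ tC * ((1 + L) * x + L * x) := mul_le_mul_of_nonneg_left h7 htCp.le
          _ = tC * ((1 + L) * x) + tC * (L * x) := by ring
          _ ≤ s0 * c3 / 2 := by linarith
      · show c3 * (κ * |α (p, a) - α (p, a')| + κ * ε * ‖a - a'‖) ≤
          |deriv (fun t : ℝ => κ * (α (p, a) * β (p, b + t • f3) +
          ε * g (p, a, b + t • f3))) 0 - deriv (fun t : ℝ => κ * (α (p, a') *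
          β (p, b + t • f3) + ε * g (p, a', b + t • f3))) 0|
        rw [hG1, hG1, e1]
        have hN : κ * |α (p, a) - α (p, a')| + κ * ε * ‖a - a'‖ ≤ (1 + K) * (x * ‖a - a'‖) := by
          have h3 : κ * |α (p, a) - α (p, a')| ≤ 1 * (K * (ε * ‖a - a'‖)) :=
            mul_le_mul hκ1 hreg' (abs_nonneg _) (by norm_num)
          have h4 : κ * ε * ‖a - a'‖ ≤ 1 * (ε * ‖a - a'‖) := by
            rw [mul_assoc]
            exact mul_le_mul_of_nonneg_right hκ1 (by positivity)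
          have h5 : (1 + K) * (ε * ‖a - a'‖) ≤ (1 + K) * (x * ‖a - a'‖) :=
            mul_le_mul_of_nonneg_left (mul_le_mul_of_nonneg_right hεx hu) (by positivity)
          linarith
        have hv1 : ((p, a) : P × V) - (p, a') = (0, a - a') := by simp
        have hw3 : |fderiv ℝ w (p0, a0) (0, a - a')| ≤ η * ‖a - a'‖ := by
          have h4 := hN1 (p, a) (hl_inA p p0 a a0 r1 δ0 hp (hsub a ha) (by linarith)) (p, a')
            (hl_inA p p0 a' a0 r1 δ0 hp (hsub a' ha') (by linarith))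
          rw [hv1, hVn, Real.norm_eq_abs] at h4
          have h6 := abs_sub_abs_le_abs_sub (fderiv ℝ w (p0, a0) (0, a - a'))
            (w (p, a) - w (p, a'))
          rw [abs_sub_comm (fderiv ℝ w (p0, a0) (0, a - a'))] at h6
          have h7 : M * (κ * |α (p, a) - α (p, a')| + κ * ε * ‖a - a'‖) ≤ η / 2 * ‖a - a'‖ := by
            calc _ ≤ M * ((1 + K) * (x * ‖a - a'‖)) := mul_le_mul_of_nonneg_left hN hMp.le
              _ = M * ((1 + K) * x) * ‖a - a'‖ := by ring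
              _ ≤ η / 2 * ‖a - a'‖ := mul_le_mul_of_nonneg_right hxM hu
          have h8 : x * ‖a - a'‖ ≤ η / 2 * ‖a - a'‖ := mul_le_mul_of_nonneg_right hxη hu
          linarith
        have hα3 : |fderiv ℝ α (p0, a0) (0, a - a')| ≤ η * ‖a - a'‖ := by
          have h4 := hN2 (p, a) (hl_inA p p0 a a0 r2 δ0 hp (hsub a ha) (by linarith)) (p, a')
            (hl_inA p p0 a' a0 r2 δ0 hp (hsub a' ha') (by linarith))
          rw [hv1, hVn, Real.norm_eq_abs] at h4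
          have h6 := abs_sub_abs_le_abs_sub (fderiv ℝ α (p0, a0) (0, a - a'))
            (α (p, a) - α (p, a'))
          rw [abs_sub_comm (fderiv ℝ α (p0, a0) (0, a - a'))] at h6
          have h7 : K * (ε * ‖a - a'‖) ≤ η / 2 * ‖a - a'‖ := by
            calc K * (ε * ‖a - a'‖) ≤ K * (x * ‖a - a'‖) :=
                  mul_le_mul_of_nonneg_left (mul_le_mul_of_nonneg_right hεx hu) hKp.le
              _ = K * x * ‖a - a'‖ := by ring
              _ ≤ η / 2 * ‖a - a'‖ := mul_le_mul_of_nonneg_right hxKη hu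
          have h8 : x * ‖a - a'‖ ≤ η / 2 * ‖a - a'‖ := mul_le_mul_of_nonneg_right hxη hu
          linarith
        have hB := halg' (a - a') hw3 hα3
        have h5 : |fderiv ℝ g (p, a, b) (0, 0, f3) - fderiv ℝ g (p, a', b) (0, 0, f3) -
            fderiv ℝ (fderiv ℝ g) (p0, a0, b0) (0, a - a', 0) (0, 0, f3)| ≤ x * ‖a - a'‖ := by
          have h6 := hN5 (p, a, b) (hl_inC p p0 a a0 b b0 r5 δ0 ρ hδ0p hp (hsub a ha) hb hρ hdr5)
            (p, a', b) (hl_inC p p0 a' a0 b b0 r5 δ0 ρ hδ0p hp (hsub a' ha') hb hρ hdr5)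
          have h7 : ((p, a, b) : P × V × V) - (p, a', b) = (0, a - a', 0) := by simp
          rw [h7, hVVa] at h6
          have h8 := (fderiv ℝ g (p, a, b) - fderiv ℝ g (p, a', b) -
            fderiv ℝ (fderiv ℝ g) (p0, a0, b0) (0, a - a', 0)).le_opNorm (0, 0, f3)
          rw [hVVb, sub_apply, sub_apply, Real.norm_eq_abs] at h8
          refine h8.trans ?_
          calc _ ≤ (x * ‖a - a'‖) * 1 := mul_le_mul h6 n3 (norm_nonneg _) (by positivity)
            _ = x * ‖a - a'‖ := by ring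
        exact hm_C3 κ ε _ ‖a - a'‖ _ _ _ K c4 c3 x hκ hε hu hK1 hc3p hx hreg' (hβ3 b hb) h5 hB
          hxK hc3b

end Pool.Agent.SDT.N1F

end -- N1F.HM5
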