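import Pool.Agent.SDT.B17
import Pool.Agent.SDT.B19

set_option autoImplicit false

namespace Pool.Agent.SDT.MP_6cbfb8_an
end Pool.Agent.SDT.MP_6cbfb8_an
namespace Pool.Agent.SDT.MST
end Pool.Agent.SDT.MST
namespace Pool.Agent.SDT.N1
end Pool.Agent.SDT.N1

section -- N1F.ED

/-!
N1F, block A4: the key lemma (one intermediate point).
-/

namespace Pool.Agent.SDT.N1F

open MeasureTheory Set Metric Pool.Agent.SDT.MP_6cbfb8_an Pool.Agent.SDT.MST Pool.Agent.SDT.N1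
open scoped ENNReal Real ContDiff

/-- The scaled parameters at the point `x - u z`. -/
noncomputable def pQ (al be ρ : ℝ) (q : V × V) (u : ℝ) : PB :=
  pB (al ^ 2) (be ^ 2) ρ (q.1.1 / (al * be ^ 2 * ρ)) (q.2.1 / (be * ρ))
    (q.1.2.1 / al - u * (q.1.2.2 / al)) (q.2.2.1 / be - u * (q.2.2.2 / be))

theorem pQ_q1 {al be ρ : ℝ} (hal : 0 < al) (hbe : 0 < be) (q : V × V) (u : ℝ) :
    bq1 (pQ al be ρ q u) =
      1 - (q.1.2.1 - u * q.1.2.2) ^ 2 - (q.2.2.1 - u * q.2.2.2) ^ 2 := by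
  unfold pQ
  rw [bq1_eq]
  field_simp

theorem pQ_q2 {al be ρ : ℝ} (hal : 0 < al) (hbe : 0 < be) (hρ : 0 < ρ) (q : V × V) (u : ℝ) :
    bq2 (pQ al be ρ q u) = 1 - (q.1.2.1 - q.1.1 - u * q.1.2.2) ^ 2 -
      (q.2.2.1 - q.2.1 - u * q.2.2.2) ^ 2 := by
  unfold pQ
  rw [bq2_eq]
  have e1 : q.1.2.1 / al - u * (q.1.2.2 / al) - be ^ 2 * ρ * (q.1.1 / (al * be ^ 2 * ρ)) =
      (q.1.2.1 - q.1.1 - u * q.1.2.2) / al := by
    field_simp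
    ring
  have e2 : q.2.2.1 / be - u * (q.2.2.2 / be) - ρ * (q.2.1 / (be * ρ)) =
      (q.2.2.1 - q.2.1 - u * q.2.2.2) / be := by
    field_simp
    ring
  rw [e1, e2]
  field_simp

theorem pQ_N {al be ρ : ℝ} (hal : 0 < al) (hbe : 0 < be) (hρ : 0 < ρ) (q : V × V) (u : ℝ)
    (h1 : 0 < q.1.2.1 - u * q.1.2.2 - q.1.1)
    (h2 : 0 < 1 - (q.2.2.1 - u * q.2.2.2 - q.2.1) ^ 2) :
    nU be ρ q u = bN (pQ al be ρ q u) := by
  have g1 : q.1.2.1 / al - u * (q.1.2.2 / al) - be ^ 2 * ρ * (q.1.1 / (al * be ^ 2 * ρ)) =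
      (q.1.2.1 - u * q.1.2.2 - q.1.1) / al := by
    field_simp
  have g2 : q.2.2.1 / be - u * (q.2.2.2 / be) - ρ * (q.2.1 / (be * ρ)) =
      (q.2.2.1 - u * q.2.2.2 - q.2.1) / be := by
    field_simp
  have g3 : 2 * (q.1.2.1 / al - u * (q.1.2.2 / al)) - be ^ 2 * ρ * (q.1.1 / (al * be ^ 2 * ρ)) =
      (2 * (q.1.2.1 - u * q.1.2.2) - q.1.1) / al := by
    field_simp
  have g4 : 2 * (q.2.2.1 / be - u * (q.2.2.2 / be)) - ρ * (q.2.1 / (be * ρ)) =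
      (2 * (q.2.2.1 - u * q.2.2.2) - q.2.1) / be := by
    field_simp
  have g5 : be ^ 2 * ((q.2.2.1 - u * q.2.2.2 - q.2.1) / be) ^ 2 =
      (q.2.2.1 - u * q.2.2.2 - q.2.1) ^ 2 := by
    field_simp
  have g6 : be ^ 2 * ρ * (q.1.1 / (be ^ 2 * ρ)) = q.1.1 := by
    field_simp
  have g7 : be ^ 2 * ρ * (q.2.1 / (be ^ 2 * ρ)) = q.2.1 := by
    field_simp
  unfold nU Nf om sg bN pQ pB
  dsimp only
  rw [g1, g2, g3, g4, g5, g6, g7, sub_neg_eq_add]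
  congr 1
  · field_simp
  · field_simp

theorem eF_keyA {c A0 B0 : ℝ} {x0 y0 : ℝ × ℝ} (hc : 0 < c) (hb : Bs c A0 B0 x0)
    (hy : y0.2 ≠ 0) : ∃ l Λ : ℝ, 0 < l ∧ l ≤ Λ ∧ ∀ ε : ℝ, 0 < ε → ∃ δ : ℝ, 0 < δ ∧ δ ≤ 1 ∧
    ∀ al be : ℝ, Sz al be A0 B0 δ → ∀ ρ : ℝ, 0 < ρ → ρ < δ → ∀ q : V × V,
    NbF al be δ ρ x0 y0 q →
    (∀ u ∈ Icc (0:ℝ) 1, |nU be ρ q u - nb B0 x0 y0| ≤ ε) ∧
    ∃ u ∈ Icc (0:ℝ) 1, ∃ L M : ℝ, l ≤ L ∧ L ≤ Λ ∧ l ≤ |M| ∧ |M| ≤ Λ ∧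
      Fr c q.1 q.2 = -(ρ * (L * nU be ρ q u * (al * be ^ 2 * q.1.2.2) + M * (be * q.2.2.2))) := by
  have L0 := base_L (y0 := y0) hc hb
  have M0 := base_M hc hb hy
  have M0' : 0 < |bM (p0B A0 B0 x0 y0)| := abs_pos.2 M0
  have hq := base_pos hc hb
  have hc2 : 0 < c ^ 2 := by positivity
  obtain ⟨dL, dL0, HL⟩ := near_PB bL _ (cont_L (y0 := y0) hc hb) (half_pos L0)
  obtain ⟨dM, dM0, HM⟩ := near_PB bM _ (cont_M (y0 := y0) hc hb) (half_pos M0')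
  obtain ⟨d1, d10, H1⟩ := near_PB bq1 _ (cont_q1 (p0B A0 B0 x0 y0))
    (show 0 < c ^ 2 / 8 by positivity)
  obtain ⟨d2, d20, H2⟩ := near_PB bq2 _ (cont_q2 (p0B A0 B0 x0 y0))
    (show 0 < c ^ 2 / 8 by positivity)
  have hx1 := hb.2.2.2.1
  have hx2 := hb.2.2.2.2.1
  obtain ⟨d3, d30, H3⟩ := near_PB (fun p => p.2.2.2.2.1 - p.2.1 * p.2.2.1 * p.2.2.2.1.1)
    (p0B A0 B0 x0 y0) (by fun_prop) (half_pos hx1)
  obtain ⟨d4, d40, H4⟩ := near_PB (fun p => p.2.2.2.2.2 - p.2.2.1 * p.2.2.2.1.2)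
    (p0B A0 B0 x0 y0) (by fun_prop) (half_pos hx2)
  refine ⟨min (bL (p0B A0 B0 x0 y0) / 2) (|bM (p0B A0 B0 x0 y0)| / 2),
    2 * bL (p0B A0 B0 x0 y0) + 2 * |bM (p0B A0 B0 x0 y0)|, by positivity, ?_, ?_⟩
  · refine (min_le_left _ _).trans ?_
    linarith
  intro ε hε
  obtain ⟨dN, dN0, HN⟩ := near_PB bN _ (cont_N (y0 := y0) hc hb) hε
  obtain ⟨δ, hδ⟩ : ∃ δ : ℝ, δ = min (min (min (min (min dL dM) (min d1 d2)) (min d3 d4)) dN)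
      (min 1 (min (x0.1 / 4) (x0.2 / 4))) := ⟨_, rfl⟩
  have hδ0 : 0 < δ := by
    rw [hδ]
    positivity
  have m1 : δ ≤ dL ∧ δ ≤ dM ∧ δ ≤ d1 ∧ δ ≤ d2 ∧ δ ≤ d3 ∧ δ ≤ d4 ∧ δ ≤ dN ∧ δ ≤ 1 ∧
      δ ≤ x0.1 / 4 ∧ δ ≤ x0.2 / 4 := by
    rw [hδ]
    simp only [min_le_iff, le_refl, true_or, or_true, and_self]
  obtain ⟨mL, mM, m1, m2, m3, m4, mN, m5, m6, m7⟩ := m1
  refine ⟨δ, hδ0, m5, fun al be hs ρ hρ hρδ q hq => ?_⟩
  obtain ⟨s1, s2, s3, s4, s5, s6⟩ := hs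
  obtain ⟨n1, n2, n3, n4, n5, n6⟩ := hq
  -- all parameter points are near the base point
  have near : ∀ (f : PB → ℝ) (ε : ℝ) (d : ℝ), δ ≤ d → (∀ A B ρ y1 y2 a b : ℝ,
      |A - (p0B A0 B0 x0 y0).1| ≤ 2 * d → |B - (p0B A0 B0 x0 y0).2.1| ≤ 2 * d →
      |ρ - (p0B A0 B0 x0 y0).2.2.1| ≤ 2 * d → |y1 - (p0B A0 B0 x0 y0).2.2.2.1.1| ≤ 2 * d →
      |y2 - (p0B A0 B0 x0 y0).2.2.2.1.2| ≤ 2 * d → |a - (p0B A0 B0 x0 y0).2.2.2.2.1| ≤ 2 * d →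
      |b - (p0B A0 B0 x0 y0).2.2.2.2.2| ≤ 2 * d →
      |f (pB A B ρ y1 y2 a b) - f (p0B A0 B0 x0 y0)| < ε) → ∀ u ∈ Icc (0:ℝ) 1,
      |f (pQ al be ρ q u) - f (p0B A0 B0 x0 y0)| < ε := by
    intro f ε d hd h u hu
    unfold pQ
    have z1 : |u * (q.1.2.2 / al)| ≤ δ := by
      rw [abs_mul, abs_of_nonneg hu.1]
      exact (mul_le_of_le_one_left (abs_nonneg _) hu.2).trans n5
    have z2 : |u * (q.2.2.2 / be)| ≤ δ := by
      rw [abs_mul, abs_of_nonneg hu.1]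
      exact (mul_le_of_le_one_left (abs_nonneg _) hu.2).trans n6
    obtain ⟨z1a, z1b⟩ := abs_le.1 z1
    obtain ⟨z2a, z2b⟩ := abs_le.1 z2
    obtain ⟨n3a, n3b⟩ := abs_le.1 n3
    obtain ⟨n4a, n4b⟩ := abs_le.1 n4
    apply h
    · exact s5.le.trans (by linarith)
    · exact s6.le.trans (by linarith)
    · change |ρ - 0| ≤ 2 * d
      rw [sub_zero, abs_of_pos hρ]
      linarith
    · exact n1.trans (by linarith)
    · exact n2.trans (by linarith)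
    · change |q.1.2.1 / al - u * (q.1.2.2 / al) - x0.1| ≤ 2 * d
      rw [abs_le]
      constructor <;> linarith
    · change |q.2.2.1 / be - u * (q.2.2.2 / be) - x0.2| ≤ 2 * d
      rw [abs_le]
      constructor <;> linarith
  have N1 := near bq1 _ d1 m1 H1
  have N2 := near bq2 _ d2 m2 H2
  have N3 := near (fun p => p.2.2.2.2.1 - p.2.1 * p.2.2.1 * p.2.2.2.1.1) _ d3 m3 H3
  have N4 := near (fun p => p.2.2.2.2.2 - p.2.2.1 * p.2.2.2.1.2) _ d4 m4 H4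
  have NL := near bL _ dL mL HL
  have NM := near bM _ dM mM HM
  have NN := near bN _ dN mN HN
  have P1 : ∀ u ∈ Icc (0:ℝ) 1, c ^ 2 / 8 ≤
      1 - (q.1.2.1 - u * q.1.2.2) ^ 2 - (q.2.2.1 - u * q.2.2.2) ^ 2 := by
    intro u hu
    have := (abs_lt.1 (N1 u hu)).1
    rw [pQ_q1 s1 s3, base_q1] at this
    linarith
  have P2 : ∀ u ∈ Icc (0:ℝ) 1, c ^ 2 / 8 ≤ 1 - (q.1.2.1 - q.1.1 - u * q.1.2.2) ^ 2 -
      (q.2.2.1 - q.2.1 - u * q.2.2.2) ^ 2 := by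
    intro u hu
    have := (abs_lt.1 (N2 u hu)).1
    rw [pQ_q2 s1 s3 hρ, base_q2] at this
    linarith
  have P3 : ∀ u ∈ Icc (0:ℝ) 1, 0 < q.1.2.1 / al - u * (q.1.2.2 / al) -
      be ^ 2 * ρ * (q.1.1 / (al * be ^ 2 * ρ)) := by
    intro u hu
    have := (abs_lt.1 (N3 u hu)).1
    have e : (p0B A0 B0 x0 y0).2.2.2.2.1 - (p0B A0 B0 x0 y0).2.1 * (p0B A0 B0 x0 y0).2.2.1 *
        (p0B A0 B0 x0 y0).2.2.2.1.1 = x0.1 := by simp [p0B]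
    rw [e] at this
    change -(x0.1 / 2) < q.1.2.1 / al - u * (q.1.2.2 / al) -
      be ^ 2 * ρ * (q.1.1 / (al * be ^ 2 * ρ)) - x0.1 at this
    linarith
  have P4 : ∀ u ∈ Icc (0:ℝ) 1, 0 < q.2.2.1 / be - u * (q.2.2.2 / be) -
      ρ * (q.2.1 / (be * ρ)) := by
    intro u hu
    have := (abs_lt.1 (N4 u hu)).1
    have e : (p0B A0 B0 x0 y0).2.2.2.2.2 - (p0B A0 B0 x0 y0).2.2.1 *
        (p0B A0 B0 x0 y0).2.2.2.1.2 = x0.2 := by simp [p0B]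
    rw [e] at this
    change -(x0.2 / 2) < q.2.2.1 / be - u * (q.2.2.2 / be) -
      ρ * (q.2.1 / (be * ρ)) - x0.2 at this
    linarith
  have P5 : ∀ u ∈ Icc (0:ℝ) 1, 0 < q.1.2.1 / al - u * (q.1.2.2 / al) := by
    intro u hu
    have z1 : |u * (q.1.2.2 / al)| ≤ δ := by
      rw [abs_mul, abs_of_nonneg hu.1]
      exact (mul_le_of_le_one_left (abs_nonneg _) hu.2).trans n5
    have := (abs_le.1 z1).2
    have := (abs_le.1 n3).1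
    linarith
  have P6 : ∀ u ∈ Icc (0:ℝ) 1, 0 < q.2.2.1 / be - u * (q.2.2.2 / be) := by
    intro u hu
    have z1 : |u * (q.2.2.2 / be)| ≤ δ := by
      rw [abs_mul, abs_of_nonneg hu.1]
      exact (mul_le_of_le_one_left (abs_nonneg _) hu.2).trans n6
    have := (abs_le.1 z1).2
    have := (abs_le.1 n4).1
    linarith
  have P3' : ∀ u ∈ Icc (0:ℝ) 1, 0 < q.1.2.1 - u * q.1.2.2 - q.1.1 := by
    intro u hu
    have e : q.1.2.1 / al - u * (q.1.2.2 / al) - be ^ 2 * ρ * (q.1.1 / (al * be ^ 2 * ρ)) =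
        (q.1.2.1 - u * q.1.2.2 - q.1.1) / al := by
      field_simp
    have := P3 u hu
    rw [e] at this
    exact (div_pos_iff_of_pos_right s1).1 this
  have hN : ∀ u ∈ Icc (0:ℝ) 1, nU be ρ q u = bN (pQ al be ρ q u) := by
    intro u hu
    refine pQ_N s1 s3 hρ q u (P3' u hu) ?_
    have := P2 u hu
    have e : q.2.2.1 - u * q.2.2.2 - q.2.1 = q.2.2.1 - q.2.1 - u * q.2.2.2 := by ring
    rw [e]
    have h3 := sq_nonneg (q.1.2.1 - q.1.1 - u * q.1.2.2)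
    have : 0 < c ^ 2 / 8 := by positivity
    linarith
  refine ⟨fun u hu => ?_, ?_⟩
  · rw [hN u hu, ← base_N (c := c) (A0 := A0) hb]
    exact (NN u hu).le
  · have hc8 : 0 < c ^ 2 / 8 := by positivity
    obtain ⟨u, hu, hF⟩ := e_mvt q.1.2.1 q.2.2.1 q.1.1 q.2.1 q.1.2.2 q.2.2.2
      (fun u hu => hc8.trans_le (P1 u hu)) (fun u hu => hc8.trans_le (P2 u hu))
    have i0 : (0:ℝ) ∈ Icc (0:ℝ) 1 := ⟨le_rfl, zero_le_one⟩
    have i1 : (1:ℝ) ∈ Icc (0:ℝ) 1 := ⟨zero_le_one, le_rfl⟩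
    have a1 := P1 0 i0
    have a2 := P2 0 i0
    have a3 := P1 1 i1
    have a4 := P2 1 i1
    simp only [zero_mul, one_mul, sub_zero] at a1 a2 a3 a4
    have hFr : Fr c q.1 q.2 = √(1 - q.1.2.1 ^ 2 - q.2.2.1 ^ 2) -
        √(1 - (q.1.2.1 - q.1.1) ^ 2 - (q.2.2.1 - q.2.1) ^ 2) -
        √(1 - (q.1.2.1 - q.1.2.2) ^ 2 - (q.2.2.1 - q.2.2.2) ^ 2) +
        √(1 - (q.1.2.1 - q.1.1 - q.1.2.2) ^ 2 - (q.2.2.1 - q.2.1 - q.2.2.2) ^ 2) := by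
      unfold Fr qf
      rw [e_Sq_eq hc a1, e_Sq_eq hc a2, e_Sq_eq hc a3, e_Sq_eq hc a4]
    refine ⟨u, hu, bL (pQ al be ρ q u), bM (pQ al be ρ q u), ?_, ?_, ?_, ?_, ?_⟩
    · have := (abs_lt.1 (NL u hu)).1
      refine (min_le_left _ _).trans ?_
      linarith
    · have := (abs_lt.1 (NL u hu)).2
      linarith
    · have h1 := NM u hu
      have h2 := abs_sub_abs_le_abs_sub (bM (p0B A0 B0 x0 y0)) (bM (pQ al be ρ q u))
      rw [abs_sub_comm] at h2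
      refine (min_le_right _ _).trans ?_
      linarith
    · have h1 := NM u hu
      have h2 := abs_sub_abs_le_abs_sub (bM (pQ al be ρ q u)) (bM (p0B A0 B0 x0 y0))
      linarith
    · have b1 : 0 < bq1 (pQ al be ρ q u) := by
        rw [pQ_q1 s1 s3]
        exact hc8.trans_le (P1 u hu)
      have b2 : 0 < bq2 (pQ al be ρ q u) := by
        rw [pQ_q2 s1 s3 hρ]
        exact hc8.trans_le (P2 u hu)
      have E1 := e_first (al ^ 2) (be ^ 2) ρ (q.1.1 / (al * be ^ 2 * ρ)) (q.2.1 / (be * ρ))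
        (q.1.2.1 / al - u * (q.1.2.2 / al)) (q.2.2.1 / be - u * (q.2.2.2 / be)) b1 b2 (P5 u hu)
        (P3 u hu) (by positivity)
      have E2 := e_second (al ^ 2) (be ^ 2) ρ (q.1.1 / (al * be ^ 2 * ρ)) (q.2.1 / (be * ρ))
        (q.1.2.1 / al - u * (q.1.2.2 / al)) (q.2.2.1 / be - u * (q.2.2.2 / be)) b1 b2 (P6 u hu)
        (P4 u hu) (by positivity)
      change _ = bL (pQ al be ρ q u) * (be ^ 2 * ρ * bN (pQ al be ρ q u)) at E1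
      change _ = ρ * bM (pQ al be ρ q u) at E2
      change _ / √(bq1 (pQ al be ρ q u)) - _ / √(bq2 (pQ al be ρ q u)) = _ at E1
      change _ / √(bq1 (pQ al be ρ q u)) - _ / √(bq2 (pQ al be ρ q u)) = _ at E2
      rw [pQ_q1 s1 s3, pQ_q2 s1 s3 hρ] at E1 E2
      have g1 : q.1.2.1 / al - u * (q.1.2.2 / al) - be ^ 2 * ρ * (q.1.1 / (al * be ^ 2 * ρ)) =
          (q.1.2.1 - q.1.1 - u * q.1.2.2) / al := by
        field_simp
        ring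
      have g2 : q.2.2.1 / be - u * (q.2.2.2 / be) - ρ * (q.2.1 / (be * ρ)) =
          (q.2.2.1 - q.2.1 - u * q.2.2.2) / be := by
        field_simp
        ring
      have g3 : q.1.2.1 / al - u * (q.1.2.2 / al) = (q.1.2.1 - u * q.1.2.2) / al := by
        field_simp
      have g4 : q.2.2.1 / be - u * (q.2.2.2 / be) = (q.2.2.1 - u * q.2.2.2) / be := by
        field_simp
      rw [g1, g3] at E1
      rw [g2, g4] at E2
      rw [hFr, hF, hN u hu]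
      have E1' : (q.1.2.1 - u * q.1.2.2) /
          √(1 - (q.1.2.1 - u * q.1.2.2) ^ 2 - (q.2.2.1 - u * q.2.2.2) ^ 2) -
          (q.1.2.1 - q.1.1 - u * q.1.2.2) /
          √(1 - (q.1.2.1 - q.1.1 - u * q.1.2.2) ^ 2 - (q.2.2.1 - q.2.1 - u * q.2.2.2) ^ 2) =
          al * (bL (pQ al be ρ q u) * (be ^ 2 * ρ * bN (pQ al be ρ q u))) := by
        rw [← E1]
        field_simp
      have E2' : (q.2.2.1 - u * q.2.2.2) /
          √(1 - (q.1.2.1 - u * q.1.2.2) ^ 2 - (q.2.2.1 - u * q.2.2.2) ^ 2) -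
          (q.2.2.1 - q.2.1 - u * q.2.2.2) /
          √(1 - (q.1.2.1 - q.1.1 - u * q.1.2.2) ^ 2 - (q.2.2.1 - q.2.1 - u * q.2.2.2) ^ 2) =
          be * (ρ * bM (pQ al be ρ q u)) := by
        rw [← E2]
        field_simp
      rw [E1', E2']
      ring

end Pool.Agent.SDT.N1F

end -- N1F.ED

section -- N1F.EE

/-!
N1F, block A4: E_NF, E_D1F, E_D0F, Nx_smallF.
-/

namespace Pool.Agent.SDT.N1F

open MeasureTheory Set Metric Pool.Agent.SDT.MP_6cbfb8_an Pool.Agent.SDT.MST Pool.Agent.SDT.N1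
open scoped ENNReal Real ContDiff

theorem Sz_mono {al be A0 B0 δ δ' : ℝ} (h : δ ≤ δ') (hs : Sz al be A0 B0 δ) :
    Sz al be A0 B0 δ' := by
  obtain ⟨s1, s2, s3, s4, s5, s6⟩ := hs
  exact ⟨s1, s2, s3, s4, s5.trans_le h, s6.trans_le h⟩

theorem NbF_mono {al be δ δ' ρ : ℝ} {x0 y0 : ℝ × ℝ} {q : V × V} (h : δ ≤ δ')
    (hq : NbF al be δ ρ x0 y0 q) : NbF al be δ' ρ x0 y0 q := by
  obtain ⟨h1, h2, h3, h4, h5, h6⟩ := hq
  exact ⟨h1.trans h, h2.trans h, h3.trans h, h4.trans h, h5.trans h, h6.trans h⟩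

theorem near_Q (A0 B0 : ℝ) (x0 y0 : ℝ × ℝ) (f : PB → ℝ)
    (hf : ContinuousAt f (p0B A0 B0 x0 y0)) {ε : ℝ} (hε : 0 < ε) :
    ∃ δ : ℝ, 0 < δ ∧ ∀ al be : ℝ, Sz al be A0 B0 δ → ∀ ρ : ℝ, 0 < ρ → ρ < δ → ∀ q : V × V,
      NbF al be δ ρ x0 y0 q → ∀ u ∈ Icc (0:ℝ) 1,
      |f (pQ al be ρ q u) - f (p0B A0 B0 x0 y0)| < ε := by
  obtain ⟨d, hd, h⟩ := near_PB f _ hf hε
  refine ⟨d, hd, fun al be hs ρ hρ hρδ q hq u hu => ?_⟩
  obtain ⟨s1, s2, s3, s4, s5, s6⟩ := hs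
  obtain ⟨n1, n2, n3, n4, n5, n6⟩ := hq
  unfold pQ
  have z1 : |u * (q.1.2.2 / al)| ≤ d := by
    rw [abs_mul, abs_of_nonneg hu.1]
    exact (mul_le_of_le_one_left (abs_nonneg _) hu.2).trans n5
  have z2 : |u * (q.2.2.2 / be)| ≤ d := by
    rw [abs_mul, abs_of_nonneg hu.1]
    exact (mul_le_of_le_one_left (abs_nonneg _) hu.2).trans n6
  obtain ⟨z1a, z1b⟩ := abs_le.1 z1
  obtain ⟨z2a, z2b⟩ := abs_le.1 z2
  obtain ⟨n3a, n3b⟩ := abs_le.1 n3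
  obtain ⟨n4a, n4b⟩ := abs_le.1 n4
  apply h
  · exact s5.le.trans (by linarith)
  · exact s6.le.trans (by linarith)
  · change |ρ - 0| ≤ 2 * d
    rw [sub_zero, abs_of_pos hρ]
    linarith
  · exact n1.trans (by linarith)
  · exact n2.trans (by linarith)
  · change |q.1.2.1 / al - u * (q.1.2.2 / al) - x0.1| ≤ 2 * d
    rw [abs_le]
    constructor <;> linarith
  · change |q.2.2.1 / be - u * (q.2.2.2 / be) - x0.2| ≤ 2 * d
    rw [abs_le]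
    constructor <;> linarith

/-- Basic facts in a neighbourhood of a base point. -/
theorem eF_base {c A0 B0 : ℝ} {x0 y0 : ℝ × ℝ} (hc : 0 < c) (hb : Bs c A0 B0 x0) {ε : ℝ}
    (hε : 0 < ε) : ∃ δ : ℝ, 0 < δ ∧ δ ≤ 1 ∧
    ∀ al be : ℝ, Sz al be A0 B0 δ → ∀ ρ : ℝ, 0 < ρ → ρ < δ → ∀ q : V × V,
    NbF al be δ ρ x0 y0 q → ∀ u ∈ Icc (0:ℝ) 1,
    |nU be ρ q u - nb B0 x0 y0| ≤ ε ∧
    |(q.1.2.1 - u * q.1.2.2) / al - x0.1| ≤ x0.1 / 4 ∧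
    |(q.1.2.1 - u * q.1.2.2 - q.1.1) / al - x0.1| ≤ x0.1 / 4 ∧
    |(q.2.2.1 - u * q.2.2.2) / be - x0.2| ≤ x0.2 / 4 ∧
    |(q.2.2.1 - u * q.2.2.2 - q.2.1) / be - x0.2| ≤ x0.2 / 4 ∧
    c ^ 2 / 8 ≤ 1 - (q.1.2.1 - u * q.1.2.2) ^ 2 - (q.2.2.1 - u * q.2.2.2) ^ 2 ∧
    c ^ 2 / 8 ≤ 1 - (q.1.2.1 - u * q.1.2.2 - q.1.1) ^ 2 - (q.2.2.1 - u * q.2.2.2 - q.2.1) ^ 2 := by
  have hq := base_pos hc hb
  have hc2 : 0 < c ^ 2 := by positivity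
  have hx1 := hb.2.2.2.1
  have hx2 := hb.2.2.2.2.1
  obtain ⟨d1, d10, H1⟩ := near_Q A0 B0 x0 y0 bq1 (cont_q1 _) (show 0 < c ^ 2 / 8 by positivity)
  obtain ⟨d2, d20, H2⟩ := near_Q A0 B0 x0 y0 bq2 (cont_q2 _) (show 0 < c ^ 2 / 8 by positivity)
  obtain ⟨d3, d30, H3⟩ := near_Q A0 B0 x0 y0
    (fun p => p.2.2.2.2.1 - p.2.1 * p.2.2.1 * p.2.2.2.1.1) (by fun_prop)
    (show 0 < x0.1 / 4 by positivity)
  obtain ⟨d4, d40, H4⟩ := near_Q A0 B0 x0 y0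
    (fun p => p.2.2.2.2.2 - p.2.2.1 * p.2.2.2.1.2) (by fun_prop)
    (show 0 < x0.2 / 4 by positivity)
  obtain ⟨d5, d50, H5⟩ := near_Q A0 B0 x0 y0 (fun p => p.2.2.2.2.1) (by fun_prop)
    (show 0 < x0.1 / 4 by positivity)
  obtain ⟨d6, d60, H6⟩ := near_Q A0 B0 x0 y0 (fun p => p.2.2.2.2.2) (by fun_prop)
    (show 0 < x0.2 / 4 by positivity)
  obtain ⟨dN, dN0, HN⟩ := near_Q A0 B0 x0 y0 bN (cont_N (y0 := y0) hc hb) hε
  obtain ⟨δ, hδ⟩ : ∃ δ : ℝ, δ = min (min (min (min d1 d2) (min d3 d4)) (min (min d5 d6) dN)) 1 :=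
    ⟨_, rfl⟩
  have hδ0 : 0 < δ := by
    rw [hδ]
    positivity
  have m1 : δ ≤ d1 ∧ δ ≤ d2 ∧ δ ≤ d3 ∧ δ ≤ d4 ∧ δ ≤ d5 ∧ δ ≤ d6 ∧ δ ≤ dN ∧ δ ≤ 1 := by
    rw [hδ]
    simp only [min_le_iff, le_refl, true_or, or_true, and_self]
  obtain ⟨m1, m2, m3, m4, m5, m6, mN, m7⟩ := m1
  refine ⟨δ, hδ0, m7, fun al be hs ρ hρ hρδ q hq u hu => ?_⟩
  have s1 := hs.1
  have s3 := hs.2.2.1
  have K1 := H1 al be (Sz_mono m1 hs) ρ hρ (hρδ.trans_le m1) q (NbF_mono m1 hq) u hu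
  have K2 := H2 al be (Sz_mono m2 hs) ρ hρ (hρδ.trans_le m2) q (NbF_mono m2 hq) u hu
  have K3 := H3 al be (Sz_mono m3 hs) ρ hρ (hρδ.trans_le m3) q (NbF_mono m3 hq) u hu
  have K4 := H4 al be (Sz_mono m4 hs) ρ hρ (hρδ.trans_le m4) q (NbF_mono m4 hq) u hu
  have K5 := H5 al be (Sz_mono m5 hs) ρ hρ (hρδ.trans_le m5) q (NbF_mono m5 hq) u hu
  have K6 := H6 al be (Sz_mono m6 hs) ρ hρ (hρδ.trans_le m6) q (NbF_mono m6 hq) u hu
  have KN := HN al be (Sz_mono mN hs) ρ hρ (hρδ.trans_le mN) q (NbF_mono mN hq) u hu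
  have g1 : q.1.2.1 / al - u * (q.1.2.2 / al) - be ^ 2 * ρ * (q.1.1 / (al * be ^ 2 * ρ)) =
      (q.1.2.1 - u * q.1.2.2 - q.1.1) / al := by
    field_simp
  have g2 : q.2.2.1 / be - u * (q.2.2.2 / be) - ρ * (q.2.1 / (be * ρ)) =
      (q.2.2.1 - u * q.2.2.2 - q.2.1) / be := by
    field_simp
  have g3 : q.1.2.1 / al - u * (q.1.2.2 / al) = (q.1.2.1 - u * q.1.2.2) / al := by
    field_simp
  have g4 : q.2.2.1 / be - u * (q.2.2.2 / be) = (q.2.2.1 - u * q.2.2.2) / be := by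
    field_simp
  have e3 : (p0B A0 B0 x0 y0).2.2.2.2.1 - (p0B A0 B0 x0 y0).2.1 * (p0B A0 B0 x0 y0).2.2.1 *
      (p0B A0 B0 x0 y0).2.2.2.1.1 = x0.1 := by simp [p0B]
  have e4 : (p0B A0 B0 x0 y0).2.2.2.2.2 - (p0B A0 B0 x0 y0).2.2.1 *
      (p0B A0 B0 x0 y0).2.2.2.1.2 = x0.2 := by simp [p0B]
  simp only [e3, e4] at K3 K4
  change |q.1.2.1 / al - u * (q.1.2.2 / al) - be ^ 2 * ρ * (q.1.1 / (al * be ^ 2 * ρ)) - x0.1| <
    x0.1 / 4 at K3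
  change |q.2.2.1 / be - u * (q.2.2.2 / be) - ρ * (q.2.1 / (be * ρ)) - x0.2| < x0.2 / 4 at K4
  change |q.1.2.1 / al - u * (q.1.2.2 / al) - x0.1| < x0.1 / 4 at K5
  change |q.2.2.1 / be - u * (q.2.2.2 / be) - x0.2| < x0.2 / 4 at K6
  rw [g1] at K3
  rw [g2] at K4
  rw [g3] at K5
  rw [g4] at K6
  have hc8 : 0 < c ^ 2 / 8 := by positivity
  have P1 : c ^ 2 / 8 ≤ 1 - (q.1.2.1 - u * q.1.2.2) ^ 2 - (q.2.2.1 - u * q.2.2.2) ^ 2 := by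
    have := (abs_lt.1 K1).1
    rw [pQ_q1 s1 s3, base_q1] at this
    linarith
  have P2 : c ^ 2 / 8 ≤ 1 - (q.1.2.1 - u * q.1.2.2 - q.1.1) ^ 2 -
      (q.2.2.1 - u * q.2.2.2 - q.2.1) ^ 2 := by
    have := (abs_lt.1 K2).1
    rw [pQ_q2 s1 s3 hρ, base_q2] at this
    have r1 : q.1.2.1 - u * q.1.2.2 - q.1.1 = q.1.2.1 - q.1.1 - u * q.1.2.2 := by ring
    have r2 : q.2.2.1 - u * q.2.2.2 - q.2.1 = q.2.2.1 - q.2.1 - u * q.2.2.2 := by ring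
    rw [r1, r2]
    linarith
  refine ⟨?_, K5.le, K3.le, K6.le, K4.le, P1, P2⟩
  have hpos : 0 < q.1.2.1 - u * q.1.2.2 - q.1.1 := by
    have := (abs_lt.1 K3).1
    have h3 : 0 < (q.1.2.1 - u * q.1.2.2 - q.1.1) / al := by linarith
    exact (div_pos_iff_of_pos_right s1).1 h3
  rw [pQ_N s1 s3 hρ q u hpos (by
    have := sq_nonneg (q.1.2.1 - u * q.1.2.2 - q.1.1)
    linarith), ← base_N (c := c) (A0 := A0) hb]
  exact KN.le

theorem Nx_smallF (c : ℝ) (hc : 0 < c) (A0 B0 : ℝ) (x0 y0 : ℝ × ℝ) (hb : Bs c A0 B0 x0)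
    (h1 : nb B0 x0 y0 = 0) (η : ℝ) (hη : 0 < η) :
    ∃ δ : ℝ, 0 < δ ∧ ∀ al be : ℝ, Sz al be A0 B0 δ → ∀ ρ : ℝ, 0 < ρ → ρ < δ → ∀ y x : ℝ × ℝ,
    |y.1 / (al * be ^ 2 * ρ) - y0.1| ≤ δ → |y.2 / (be * ρ) - y0.2| ≤ δ → |x.1 / al - x0.1| ≤ δ →
    |x.2 / be - x0.2| ≤ δ →
    |Nf (be ^ 2 * ρ) (y.1 / (be ^ 2 * ρ), y.2 / (be ^ 2 * ρ)) x| ≤ η := by
  obtain ⟨δ, hδ, -, H⟩ := eF_base (y0 := y0) hc hb hη
  refine ⟨δ, hδ, fun al be hs ρ hρ hρδ y x g1 g2 g3 g4 => ?_⟩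
  have := (H al be hs ρ hρ hρδ ((y.1, x.1, 0), (y.2, x.2, 0))
    ⟨g1, g2, g3, g4, by simpa using hδ.le, by simpa using hδ.le⟩ 0 ⟨le_rfl, zero_le_one⟩).1
  rw [h1, sub_zero, nU_zero] at this
  exact this

theorem abs_comb_le {ρ L N M s t : ℝ} (hρ : 0 ≤ ρ) (hL : 0 ≤ L) :
    ρ * (|M| * |t| - L * |N| * |s|) ≤ |-(ρ * (L * N * s + M * t))| ∧
    ρ * (L * |N| * |s| - |M| * |t|) ≤ |-(ρ * (L * N * s + M * t))| := by
  rw [abs_neg, abs_mul, abs_of_nonneg hρ]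
  have e1 : |L * N * s| = L * |N| * |s| := by rw [abs_mul, abs_mul, abs_of_nonneg hL]
  have e2 : |M * t| = |M| * |t| := abs_mul _ _
  rw [← e1, ← e2]
  constructor
  · refine mul_le_mul_of_nonneg_left ?_ hρ
    have := abs_sub_abs_le_abs_sub (M * t) (-(L * N * s))
    rw [abs_neg, sub_neg_eq_add, add_comm (M * t)] at this
    exact this
  · refine mul_le_mul_of_nonneg_left ?_ hρ
    have := abs_sub_abs_le_abs_sub (L * N * s) (-(M * t))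
    rw [abs_neg, sub_neg_eq_add] at this
    exact this

/-- Case `n ≠ 0`. -/
theorem E_NF (c : ℝ) (hc : 0 < c) (A0 B0 : ℝ) (x0 y0 : ℝ × ℝ) (hb : Bs c A0 B0 x0)
    (hy2 : y0.2 ≠ 0) (h1 : nb B0 x0 y0 ≠ 0) :
    ∃ δ c1 C7 : ℝ, 0 < δ ∧ 0 < c1 ∧ 1 ≤ C7 ∧ ∀ al be : ℝ, Sz al be A0 B0 δ → ∀ ρ : ℝ, 0 < ρ →
    ρ < δ → ∀ q : V × V, NbF al be δ ρ x0 y0 q →
    (C7 * (be * |q.2.2.2|) ≤ al * be ^ 2 * |q.1.2.2| →
      c1 * ρ * (al * be ^ 2 * |q.1.2.2|) ≤ |Fr c q.1 q.2|) ∧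
    (C7 * (al * be ^ 2 * |q.1.2.2|) ≤ be * |q.2.2.2| →
      c1 * ρ * (be * |q.2.2.2|) ≤ |Fr c q.1 q.2|) := by
  obtain ⟨l, Λ, hl, hΛ, H⟩ := eF_keyA (y0 := y0) hc hb hy2
  have hn : 0 < |nb B0 x0 y0| := abs_pos.2 h1
  obtain ⟨δ, hδ, -, H⟩ := H (|nb B0 x0 y0| / 2) (half_pos hn)
  obtain ⟨m, hm⟩ : ∃ m : ℝ, m = |nb B0 x0 y0| := ⟨_, rfl⟩
  rw [← hm] at hn H
  have hΛ0 : 0 < Λ := hl.trans_le hΛ
  refine ⟨δ, min (l * m / 4) (l / 2), 1 + 4 * Λ / (l * m) + 3 * Λ * m / l, hδ, by positivity,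
    by
      have : 0 ≤ 4 * Λ / (l * m) + 3 * Λ * m / l := by positivity
      linarith, fun al be hs ρ hρ hρδ q hq => ?_⟩
  obtain ⟨g1, u, hu, L, M, g2, g3, g4, g5, g6⟩ := H al be hs ρ hρ hρδ q hq
  have s1 := hs.1
  have s3 := hs.2.2.1
  have gN := g1 u hu
  have k1 : m / 2 ≤ |nU be ρ q u| := by
    have := abs_sub_abs_le_abs_sub (nb B0 x0 y0) (nU be ρ q u)
    rw [abs_sub_comm, ← hm] at this
    linarith
  have k2 : |nU be ρ q u| ≤ 3 * m / 2 := by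
    have := abs_sub_abs_le_abs_sub (nU be ρ q u) (nb B0 x0 y0)
    rw [← hm] at this
    linarith
  have f1 : |al * be ^ 2 * q.1.2.2| = al * be ^ 2 * |q.1.2.2| := by
    rw [abs_mul, abs_of_pos (by positivity)]
  have f2 : |be * q.2.2.2| = be * |q.2.2.2| := by
    rw [abs_mul, abs_of_pos s3]
  have L0 : 0 ≤ L := hl.le.trans g2
  obtain ⟨F1, F2⟩ := abs_comb_le (ρ := ρ) (L := L) (N := nU be ρ q u) (M := M)
    (s := al * be ^ 2 * q.1.2.2) (t := be * q.2.2.2) hρ.le L0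
  rw [← g6, f1, f2] at F1 F2
  set a1 := al * be ^ 2 * |q.1.2.2|
  set a2 := be * |q.2.2.2|
  have ha1 : 0 ≤ a1 := by positivity
  have ha2 : 0 ≤ a2 := by positivity
  constructor
  · intro h
    refine le_trans ?_ F2
    have e1 : 4 * Λ / (l * m) * a2 ≤ a1 := by
      refine le_trans ?_ h
      have : 0 ≤ 3 * Λ * m / l * a2 := by positivity
      nlinarith
    have e2 : Λ * a2 ≤ l * m / 4 * a1 := by
      calc Λ * a2 = l * m / 4 * (4 * Λ / (l * m) * a2) := by field_simp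
        _ ≤ _ := mul_le_mul_of_nonneg_left e1 (by positivity)
    have e3 : |M| * a2 ≤ Λ * a2 := mul_le_mul_of_nonneg_right g5 ha2
    have e4 : l * (m / 2) * a1 ≤ L * |nU be ρ q u| * a1 := by
      refine mul_le_mul_of_nonneg_right ?_ ha1
      exact mul_le_mul g2 k1 (by positivity) L0
    calc min (l * m / 4) (l / 2) * ρ * a1 ≤ l * m / 4 * ρ * a1 := by
          gcongr
          exact min_le_left _ _
      _ = ρ * (l * (m / 2) * a1 - l * m / 4 * a1) := by ring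
      _ ≤ _ := mul_le_mul_of_nonneg_left (by linarith) hρ.le
  · intro h
    refine le_trans ?_ F1
    have e1 : 3 * Λ * m / l * a1 ≤ a2 := by
      refine le_trans ?_ h
      have : 0 ≤ 4 * Λ / (l * m) * a1 := by positivity
      nlinarith
    have e2 : Λ * (3 * m / 2) * a1 ≤ l / 2 * a2 := by
      calc Λ * (3 * m / 2) * a1 = l / 2 * (3 * Λ * m / l * a1) := by field_simp
        _ ≤ _ := mul_le_mul_of_nonneg_left e1 (by positivity)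
    have e3 : l * a2 ≤ |M| * a2 := mul_le_mul_of_nonneg_right g4 ha2
    have e4 : L * |nU be ρ q u| * a1 ≤ Λ * (3 * m / 2) * a1 := by
      refine mul_le_mul_of_nonneg_right ?_ ha1
      exact mul_le_mul g3 k2 (abs_nonneg _) hΛ0.le
    calc min (l * m / 4) (l / 2) * ρ * a2 ≤ l / 2 * ρ * a2 := by
          gcongr
          exact min_le_right _ _
      _ = ρ * (l * a2 - l / 2 * a2) := by ring
      _ ≤ _ := mul_le_mul_of_nonneg_left (by linarith) hρ.le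

/-- R1. -/
theorem E_D1F (c : ℝ) (hc : 0 < c) (A0 B0 : ℝ) (x0 y0 : ℝ × ℝ) (hb : Bs c A0 B0 x0)
    (hy2 : y0.2 ≠ 0) (h1 : nb B0 x0 y0 = 0) (θ : ℝ) (hθ : 0 < θ) :
    ∃ δ c1 : ℝ, 0 < δ ∧ 0 < c1 ∧ ∀ al be : ℝ, Sz al be A0 B0 δ → ∀ ρ : ℝ, 0 < ρ →
    ρ < δ → ∀ q : V × V, NbF al be δ ρ x0 y0 q →
    θ * (al * be ^ 2 * |q.1.2.2|) ≤ be * |q.2.2.2| →
    c1 * ρ * (be * |q.2.2.2|) ≤ |Fr c q.1 q.2| := by
  obtain ⟨l, Λ, hl, hΛ, H⟩ := eF_keyA (y0 := y0) hc hb hy2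
  have hΛ0 : 0 < Λ := hl.trans_le hΛ
  obtain ⟨δ, hδ, -, H⟩ := H (l * θ / (2 * Λ)) (by positivity)
  refine ⟨δ, l / 2, hδ, by positivity, fun al be hs ρ hρ hρδ q hq h => ?_⟩
  obtain ⟨g1, u, hu, L, M, g2, g3, g4, g5, g6⟩ := H al be hs ρ hρ hρδ q hq
  have s1 := hs.1
  have s3 := hs.2.2.1
  have gN := g1 u hu
  rw [h1, sub_zero] at gN
  have f1 : |al * be ^ 2 * q.1.2.2| = al * be ^ 2 * |q.1.2.2| := by
    rw [abs_mul, abs_of_pos (by positivity)]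
  have f2 : |be * q.2.2.2| = be * |q.2.2.2| := by
    rw [abs_mul, abs_of_pos s3]
  have L0 : 0 ≤ L := hl.le.trans g2
  obtain ⟨F1, F2⟩ := abs_comb_le (ρ := ρ) (L := L) (N := nU be ρ q u) (M := M)
    (s := al * be ^ 2 * q.1.2.2) (t := be * q.2.2.2) hρ.le L0
  rw [← g6, f1, f2] at F1 F2
  set a1 := al * be ^ 2 * |q.1.2.2|
  set a2 := be * |q.2.2.2|
  have ha1 : 0 ≤ a1 := by positivity
  have ha2 : 0 ≤ a2 := by positivity
  refine le_trans ?_ F1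
  have e3 : l * a2 ≤ |M| * a2 := mul_le_mul_of_nonneg_right g4 ha2
  have e4 : L * |nU be ρ q u| * a1 ≤ Λ * (l * θ / (2 * Λ)) * a1 := by
    refine mul_le_mul_of_nonneg_right ?_ ha1
    exact mul_le_mul g3 gN (abs_nonneg _) hΛ0.le
  have e5 : Λ * (l * θ / (2 * Λ)) * a1 = l / 2 * (θ * a1) := by
    field_simp
  have e6 : l / 2 * (θ * a1) ≤ l / 2 * a2 := mul_le_mul_of_nonneg_left h (by positivity)
  calc l / 2 * ρ * a2 = ρ * (l * a2 - l / 2 * a2) := by ring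
    _ ≤ _ := mul_le_mul_of_nonneg_left (by linarith) hρ.le

end Pool.Agent.SDT.N1F

end -- N1F.EE

section -- N1F.EF

/-!
N1F, block A4: variation of `n` along a segment; E_D0F, E_D2aF, E_D2bF.
-/

namespace Pool.Agent.SDT.N1F

open MeasureTheory Set Metric Pool.Agent.SDT.MP_6cbfb8_an Pool.Agent.SDT.MST Pool.Agent.SDT.N1
open scoped ENNReal Real ContDiff

theorem om_diff (r y a a' : ℝ) (h1 : a - r * y ≠ 0) (h2 : a' - r * y ≠ 0) :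
    om r y a - om r y a' =
      -(y * (a - a') * (a / (a - r * y) + a' / (a' - r * y)) /
        ((a - r * y) * (a' - r * y))) := by
  obtain ⟨d, hd⟩ : ∃ d : ℝ, d = a - r * y := ⟨_, rfl⟩
  obtain ⟨d', hd'⟩ : ∃ d : ℝ, d = a' - r * y := ⟨_, rfl⟩
  have e1 : a = d + r * y := by rw [hd]; ring
  have e2 : a' = d' + r * y := by rw [hd']; ring
  unfold om
  rw [← hd] at h1
  rw [← hd'] at h2
  rw [← hd, ← hd', e1, e2]
  field_simp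
  ring

theorem sg_diff (r y b b' : ℝ) (h1 : 1 - (b - r * y) ^ 2 ≠ 0) (h2 : 1 - (b' - r * y) ^ 2 ≠ 0) :
    sg r y b - sg r y b' =
      -(y * (b - b') * (2 + 2 * b * b' - r * y * (b + b')) /
        ((1 - (b - r * y) ^ 2) * (1 - (b' - r * y) ^ 2))) := by
  unfold sg
  rw [neg_sub_neg, div_sub_div _ _ h2 h1, ← neg_div,
    div_eq_div_iff (mul_ne_zero h2 h1) (mul_ne_zero h1 h2)]
  ring

theorem P_bounds {x y0 y s X X' Z Z' : ℝ} (hx : 0 < x) (hy : 0 < |y0|) (hs : s = 1 ∨ s = -1)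
    (hs2 : s * y0 = |y0|) (Y1 : |y - y0| ≤ |y0| / 2) (a1 : |X - x| ≤ x / 4) (a2 : |Z - x| ≤ x / 4)
    (a3 : |X' - x| ≤ x / 4) (a4 : |Z' - x| ≤ x / 4) :
    |y0| / (4 * x ^ 2) ≤ s * (y * (X / Z + X' / Z') / (Z * Z')) ∧
      s * (y * (X / Z + X' / Z') / (Z * Z')) ≤ |y0| * 9 / x ^ 2 := by
  have hsa : |s| = 1 := by rcases hs with h | h <;> rw [h] <;> simp
  obtain ⟨a1a, a1b⟩ := abs_le.1 a1
  obtain ⟨a2a, a2b⟩ := abs_le.1 a2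
  obtain ⟨a3a, a3b⟩ := abs_le.1 a3
  obtain ⟨a4a, a4b⟩ := abs_le.1 a4
  have Zp : 0 < Z := by linarith
  have Zp' : 0 < Z' := by linarith
  have e : s * y = |y0| + s * (y - y0) := by rw [mul_sub, hs2]; ring
  have e' : |s * (y - y0)| ≤ |y0| / 2 := by rw [abs_mul, hsa, one_mul]; exact Y1
  obtain ⟨e1, e2⟩ := abs_le.1 e'
  have q5 : s * (y * (X / Z + X' / Z') / (Z * Z')) = s * y * (X / Z + X' / Z') / (Z * Z') := by
    ring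
  rw [q5]
  have q1 : |y0| / 2 ≤ s * y := by linarith
  have q1' : s * y ≤ 3 / 2 * |y0| := by linarith
  have q2 : 3 / 5 ≤ X / Z := by
    rw [le_div_iff₀ Zp]
    linarith
  have q3 : 3 / 5 ≤ X' / Z' := by
    rw [le_div_iff₀ Zp']
    linarith
  have q2' : X / Z ≤ 5 / 3 := by
    rw [div_le_iff₀ Zp]
    linarith
  have q3' : X' / Z' ≤ 5 / 3 := by
    rw [div_le_iff₀ Zp']
    linarith
  generalize s * y = t at *
  generalize X / Z = r at *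
  generalize X' / Z' = r' at *
  have q4 : Z * Z' ≤ 25 / 16 * x ^ 2 := by
    have := mul_le_mul (show Z ≤ 5 / 4 * x by linarith) (show Z' ≤ 5 / 4 * x by linarith)
      Zp'.le (by positivity)
    linarith [show 5 / 4 * x * (5 / 4 * x) = 25 / 16 * x ^ 2 by ring]
  have q4' : 9 / 16 * x ^ 2 ≤ Z * Z' := by
    have := mul_le_mul (show 3 / 4 * x ≤ Z by linarith) (show 3 / 4 * x ≤ Z' by linarith)
      (by positivity) Zp.le
    linarith [show 3 / 4 * x * (3 / 4 * x) = 9 / 16 * x ^ 2 by ring]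
  have hyx : 0 < |y0| * x ^ 2 := by positivity
  have hZZ : 0 < Z * Z' := mul_pos Zp Zp'
  constructor
  · rw [div_le_div_iff₀ (by positivity) hZZ]
    have q6 : |y0| / 2 * (6 / 5) ≤ t * (r + r') :=
      mul_le_mul q1 (by linarith) (by norm_num) (by linarith)
    have q7 := mul_le_mul_of_nonneg_left q4 hy.le
    have q8 := mul_le_mul_of_nonneg_right q6 (show 0 ≤ 4 * x ^ 2 by positivity)
    linarith [show |y0| * (25 / 16 * x ^ 2) = 25 / 16 * (|y0| * x ^ 2) by ring,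
      show |y0| / 2 * (6 / 5) * (4 * x ^ 2) = 12 / 5 * (|y0| * x ^ 2) by ring]
  · rw [div_le_div_iff₀ hZZ (by positivity)]
    have q6 : t * (r + r') ≤ 3 / 2 * |y0| * (5 / 3 + 5 / 3) :=
      mul_le_mul q1' (by linarith) (by linarith) (by positivity)
    have q7 := mul_le_mul_of_nonneg_left q4' hy.le
    have q8 := mul_le_mul_of_nonneg_right q6 (show 0 ≤ x ^ 2 by positivity)
    linarith [show |y0| * (9 / 16 * x ^ 2) = 9 / 16 * (|y0| * x ^ 2) by ring,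
      show 3 / 2 * |y0| * (5 / 3 + 5 / 3) * x ^ 2 = 5 * (|y0| * x ^ 2) by ring,
      show |y0| * 9 * (Z * Z') = 9 * (|y0| * (Z * Z')) by ring]

theorem R_bound {c t T y b b' : ℝ} (hc : 0 < c) (ht : |t| ≤ T) (w2 : |b| ≤ 1) (w2' : |b'| ≤ 1)
    (w3 : |b - y| ≤ 1) (w1 : c ^ 2 / 8 ≤ 1 - (b - y) ^ 2) (w1' : c ^ 2 / 8 ≤ 1 - (b' - y) ^ 2) :
    |t * (2 + 2 * b * b' - y * (b + b')) / ((1 - (b - y) ^ 2) * (1 - (b' - y) ^ 2))| ≤
      512 * T / c ^ 4 := by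
  have hT : 0 ≤ T := (abs_nonneg _).trans ht
  have hc8 : 0 < c ^ 2 / 8 := by positivity
  have t2 : |2 + 2 * b * b' - y * (b + b')| ≤ 8 := by
    obtain ⟨u1, u2⟩ := abs_le.1 w2
    obtain ⟨u3, u4⟩ := abs_le.1 w2'
    obtain ⟨u5, u6⟩ := abs_le.1 w3
    have k1 : |b * b'| ≤ 1 := by
      rw [abs_mul]
      exact mul_le_one₀ w2 (abs_nonneg _) w2'
    have k2 : |y * (b + b')| ≤ 4 := by
      rw [abs_mul]
      have e1 : |y| ≤ 2 := by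
        rw [abs_le]
        constructor <;> linarith
      have e2 : |b + b'| ≤ 2 := by
        rw [abs_le]
        constructor <;> linarith
      calc |y| * |b + b'| ≤ 2 * 2 := mul_le_mul e1 e2 (abs_nonneg _) (by norm_num)
        _ = 4 := by norm_num
    obtain ⟨v1, v2⟩ := abs_le.1 k1
    obtain ⟨v3, v4⟩ := abs_le.1 k2
    have e : 2 + 2 * b * b' - y * (b + b') = 2 + 2 * (b * b') - y * (b + b') := by ring
    rw [e, abs_le]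
    constructor <;> linarith
  have W1 : 0 < 1 - (b - y) ^ 2 := by linarith
  have W2 : 0 < 1 - (b' - y) ^ 2 := by linarith
  have t3 : (c ^ 2 / 8) * (c ^ 2 / 8) ≤ (1 - (b - y) ^ 2) * (1 - (b' - y) ^ 2) :=
    mul_le_mul w1 w1' hc8.le W1.le
  rw [abs_div, abs_mul, abs_of_pos (mul_pos W1 W2), div_le_div_iff₀ (mul_pos W1 W2)
    (by positivity)]
  have t4 : |t| * |2 + 2 * b * b' - y * (b + b')| ≤ T * 8 :=
    mul_le_mul ht t2 (abs_nonneg _) hT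
  have t5 := mul_le_mul_of_nonneg_right t4 (show 0 ≤ c ^ 4 by positivity)
  have t6 := mul_le_mul_of_nonneg_left t3 (show 0 ≤ 512 * T by positivity)
  linarith [show 512 * T * (c ^ 2 / 8 * (c ^ 2 / 8)) = T * 8 * c ^ 4 by ring]

theorem eF_diffA {c A0 B0 : ℝ} {x0 y0 : ℝ × ℝ} (hc : 0 < c) (hb : Bs c A0 B0 x0)
    (hy1 : y0.1 ≠ 0) : ∃ m C s : ℝ, 0 < m ∧ m ≤ C ∧ (s = 1 ∨ s = -1) ∧ s * y0.1 = |y0.1| ∧
    ∃ δ : ℝ, 0 < δ ∧ δ ≤ 1 ∧ ∀ al be : ℝ, Sz al be A0 B0 δ → ∀ ρ : ℝ, 0 < ρ → ρ < δ →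
    ∀ q : V × V, NbF al be δ ρ x0 y0 q → ∀ u ∈ Icc (0:ℝ) 1, ∀ v ∈ Icc (0:ℝ) 1,
    ∃ P R : ℝ, m ≤ s * P ∧ s * P ≤ C ∧ |R| ≤ C ∧
      nU be ρ q u - nU be ρ q v =
        (v - u) * (-(P * (q.1.2.2 / al)) + R * (q.2.2.2 / be)) := by
  have hx1 := hb.2.2.2.1
  have hx2 := hb.2.2.2.2.1
  have hy : 0 < |y0.1| := abs_pos.2 hy1
  obtain ⟨d, hd, hd1, H⟩ := eF_base (y0 := y0) hc hb zero_lt_one
  obtain ⟨s, hs1, hs2⟩ : ∃ s : ℝ, (s = 1 ∨ s = -1) ∧ s * y0.1 = |y0.1| := by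
    rcases le_or_gt 0 y0.1 with h | h
    · exact ⟨1, Or.inl rfl, by rw [abs_of_nonneg h, one_mul]⟩
    · exact ⟨-1, Or.inr rfl, by rw [abs_of_neg h]; ring⟩
  have hsa : |s| = 1 := by rcases hs1 with h | h <;> rw [h] <;> simp
  refine ⟨|y0.1| / (4 * x0.1 ^ 2), |y0.1| * 9 / x0.1 ^ 2 + 512 * (|y0.2| + 1) / c ^ 4, s,
    by positivity, ?_, hs1, hs2, min d (|y0.1| / 2), by positivity, (min_le_left _ _).trans hd1,
    fun al be hs ρ hρ hρδ q hq u hu v hv => ?_⟩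
  · have e1 : |y0.1| / (4 * x0.1 ^ 2) ≤ |y0.1| * 9 / x0.1 ^ 2 := by
      rw [div_le_div_iff₀ (by positivity) (by positivity)]
      nlinarith [mul_pos hy (pow_pos hx1 2)]
    have e2 : 0 ≤ 512 * (|y0.2| + 1) / c ^ 4 := by positivity
    linarith
  have m1 : min d (|y0.1| / 2) ≤ d := min_le_left _ _
  have m2 : min d (|y0.1| / 2) ≤ |y0.1| / 2 := min_le_right _ _
  have K := H al be (Sz_mono m1 hs) ρ hρ (hρδ.trans_le m1) q (NbF_mono m1 hq)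
  obtain ⟨-, a1, a2, b1, b2, p1, p2⟩ := K u hu
  obtain ⟨-, a1', a2', b1', b2', p1', p2'⟩ := K v hv
  have s1 := hs.1
  have s3 := hs.2.2.1
  obtain ⟨r, hr⟩ : ∃ r : ℝ, r = be ^ 2 * ρ := ⟨_, rfl⟩
  have hr0 : 0 < r := by
    rw [hr]
    positivity
  have Y1 : |q.1.1 / (al * r) - y0.1| ≤ |y0.1| / 2 := by
    have := hq.1.trans m2
    rwa [mul_assoc, ← hr] at this
  have Y2 : |q.2.1 / (be * ρ) - y0.2| ≤ 1 := (hq.2.1.trans m1).trans hd1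
  have er : r * (q.1.1 / r) = q.1.1 := by field_simp
  have er' : r * (q.2.1 / r) = q.2.1 := by field_simp
  have hc8 : 0 < c ^ 2 / 8 := by positivity
  -- scaled quantities
  obtain ⟨X, hX⟩ : ∃ X : ℝ, X = (q.1.2.1 - u * q.1.2.2) / al := ⟨_, rfl⟩
  obtain ⟨X', hX'⟩ : ∃ X : ℝ, X = (q.1.2.1 - v * q.1.2.2) / al := ⟨_, rfl⟩
  obtain ⟨Z, hZ⟩ : ∃ X : ℝ, X = (q.1.2.1 - u * q.1.2.2 - q.1.1) / al := ⟨_, rfl⟩
  obtain ⟨Z', hZ'⟩ : ∃ X : ℝ, X = (q.1.2.1 - v * q.1.2.2 - q.1.1) / al := ⟨_, rfl⟩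
  rw [← hX] at a1
  rw [← hZ] at a2
  rw [← hX'] at a1'
  rw [← hZ'] at a2'
  obtain ⟨a1a, a1b⟩ := abs_le.1 a1
  obtain ⟨a2a, a2b⟩ := abs_le.1 a2
  obtain ⟨a1'a, a1'b⟩ := abs_le.1 a1'
  obtain ⟨a2'a, a2'b⟩ := abs_le.1 a2'
  have Zp : 0 < Z := by linarith
  have Zp' : 0 < Z' := by linarith
  have eX : q.1.2.1 - u * q.1.2.2 = al * X := by rw [hX]; field_simp
  have eX' : q.1.2.1 - v * q.1.2.2 = al * X' := by rw [hX']; field_simp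
  have eZ : q.1.2.1 - u * q.1.2.2 - q.1.1 = al * Z := by rw [hZ]; field_simp
  have eZ' : q.1.2.1 - v * q.1.2.2 - q.1.1 = al * Z' := by rw [hZ']; field_simp
  obtain ⟨b, hbb⟩ : ∃ b : ℝ, b = q.2.2.1 - u * q.2.2.2 := ⟨_, rfl⟩
  obtain ⟨b', hbb'⟩ : ∃ b : ℝ, b = q.2.2.1 - v * q.2.2.2 := ⟨_, rfl⟩
  rw [← hbb] at p1 p2
  rw [← hbb'] at p1' p2'
  have w1 : c ^ 2 / 8 ≤ 1 - (b - q.2.1) ^ 2 := by
    linarith [sq_nonneg (q.1.2.1 - u * q.1.2.2 - q.1.1)]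
  have w1' : c ^ 2 / 8 ≤ 1 - (b' - q.2.1) ^ 2 := by
    linarith [sq_nonneg (q.1.2.1 - v * q.1.2.2 - q.1.1)]
  have w2 : |b| ≤ 1 := by
    rw [← sq_le_one_iff_abs_le_one]
    linarith [sq_nonneg (q.1.2.1 - u * q.1.2.2)]
  have w2' : |b'| ≤ 1 := by
    rw [← sq_le_one_iff_abs_le_one]
    linarith [sq_nonneg (q.1.2.1 - v * q.1.2.2)]
  have w3 : |b - q.2.1| ≤ 1 := by
    rw [← sq_le_one_iff_abs_le_one]
    linarith
  have D1 := om_diff r (q.1.1 / r) (q.1.2.1 - u * q.1.2.2) (q.1.2.1 - v * q.1.2.2)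
    (by rw [er, eZ]; positivity) (by rw [er, eZ']; positivity)
  have D2 := sg_diff r (q.2.1 / r) b b' (by rw [er']; linarith) (by rw [er']; linarith)
  rw [er, eZ, eZ', eX, eX'] at D1
  rw [er'] at D2
  have hdz : al * X - al * X' = (v - u) * q.1.2.2 := by
    rw [← eX, ← eX']
    ring
  have hdb : b - b' = (v - u) * q.2.2.2 := by
    rw [hbb, hbb']
    ring
  obtain ⟨y, hyy⟩ : ∃ y : ℝ, y = q.1.1 / (al * r) := ⟨_, rfl⟩
  rw [← hyy] at Y1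
  have ey : q.1.1 / r = al * y := by
    rw [hyy]
    field_simp
  obtain ⟨t, htt⟩ : ∃ t : ℝ, t = q.2.1 / (be * ρ) := ⟨_, rfl⟩
  rw [← htt] at Y2
  have et : q.2.1 / r = t / be := by
    rw [htt, hr]
    field_simp
  refine ⟨y * (X / Z + X' / Z') / (Z * Z'),
    t * (2 + 2 * b * b' - q.2.1 * (b + b')) / ((1 - (b - q.2.1) ^ 2) * (1 - (b' - q.2.1) ^ 2)),
    ?_, ?_, ?_, ?_⟩
  · have := (P_bounds hx1 hy hs1 hs2 Y1 a1 a2 a1' a2').1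
    exact this
  · have := (P_bounds hx1 hy hs1 hs2 Y1 a1 a2 a1' a2').2
    have : 0 ≤ 512 * (|y0.2| + 1) / c ^ 4 := by positivity
    linarith
  · have t1 : |t| ≤ |y0.2| + 1 := by
      have := abs_sub_abs_le_abs_sub t y0.2
      linarith
    have := R_bound hc t1 w2 w2' w3 w1 w1'
    have : 0 ≤ |y0.1| * 9 / x0.1 ^ 2 := by positivity
    linarith
  · have hn : nU be ρ q u - nU be ρ q v =
        (om r (q.1.1 / r) (al * X) - om r (q.1.1 / r) (al * X')) -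
          (sg r (q.2.1 / r) b - sg r (q.2.1 / r) b') := by
      unfold nU Nf
      dsimp only
      rw [← hr, eX, eX', ← hbb, ← hbb']
      ring
    rw [hn, D1, D2, hdz, hdb, ey, et]
    have Zn := Zp.ne'
    have Zn' := Zp'.ne'
    have c1 : al * X / (al * Z) = X / Z := by field_simp
    have c2 : al * X' / (al * Z') = X' / Z' := by field_simp
    rw [c1, c2]
    field_simp
    ring

end Pool.Agent.SDT.N1F

end -- N1F.EF
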