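import Pool.Agent.SDT.B19
import Pool.Agent.SDT.B22
import Pool.Agent.SDT.B25

set_option autoImplicit false

namespace Pool.Agent.SDT.MP_6cbfb8_an
end Pool.Agent.SDT.MP_6cbfb8_an
namespace Pool.Agent.SDT.MST
end Pool.Agent.SDT.MST
namespace Pool.Agent.SDT.N1
end Pool.Agent.SDT.N1
namespace Pool.Agent.SDT.N1F
end Pool.Agent.SDT.N1F
namespace Pool.Agent.SDT.N1G
end Pool.Agent.SDT.N1G
namespace Pool.Agent.SDT.N1M
end Pool.Agent.SDT.N1M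

section -- N1G.F2

/-!
N1G, block F, part 2: the generic positive forms.
-/

namespace Pool.Agent.SDT.N1G

open MeasureTheory Set Metric Pool.Agent.SDT.MP_6cbfb8_an Pool.Agent.SDT.MST Pool.Agent.SDT.N1
open scoped ENNReal Real ContDiff

/-- integrand of `Hyg` -/
noncomputable def gkg (φ w : YX → ℝ) (M : YX → ℂ) (y : ℝ × ℝ) (t : ℝ) (x : ℝ × ℝ) : ℂ :=
  M (y, x) * ((w (y, x) : ℝ) : ℂ) * ex (t * φ (y, x))

lemma f2g_Hyg_eq (φ w : YX → ℝ) (M : YX → ℂ) (y : ℝ × ℝ) (t : ℝ) :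
    Hyg φ w M y t = ∫ x, gkg φ w M y t x := rfl

lemma f2g_gk_meas {B R : ℝ} {φ w : YX → ℝ} (h : Adm B R φ w) {M : YX → ℂ} (hM : Measurable M) :
    Measurable fun p : (ℝ × ℝ) × ℝ × (ℝ × ℝ) => gkg φ w M p.1 p.2.1 p.2.2 := by
  have e1 : Measurable fun p : (ℝ × ℝ) × ℝ × (ℝ × ℝ) => M (p.1, p.2.2) := hM.comp (by fun_prop)
  have e2 : Measurable fun p : (ℝ × ℝ) × ℝ × (ℝ × ℝ) => w (p.1, p.2.2) :=
    h.mw.comp (by fun_prop)
  have e3 : Measurable fun p : (ℝ × ℝ) × ℝ × (ℝ × ℝ) => φ (p.1, p.2.2) :=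
    h.mφ.comp (by fun_prop)
  have e6 : Measurable fun p : (ℝ × ℝ) × ℝ × (ℝ × ℝ) => p.2.1 := by fun_prop
  exact (e1.mul (Complex.measurable_ofReal.comp e2)).mul (hlf_measurable_ex.comp (e6.mul e3))

lemma f2g_gk_bdd {B R : ℝ} {φ w : YX → ℝ} (h : Adm B R φ w) {M : YX → ℂ} {D : ℝ}
    (hD : ∀ p, ‖M p‖ ≤ D) (y : ℝ × ℝ) (t : ℝ) (x : ℝ × ℝ) : ‖gkg φ w M y t x‖ ≤ D * B := by
  have hD0 : 0 ≤ D := (norm_nonneg _).trans (hD 0)
  unfold gkg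
  rw [norm_mul, norm_mul, hlf_norm_ex, mul_one, Complex.norm_real, Real.norm_eq_abs]
  exact mul_le_mul (hD _) (h.bw _) (abs_nonneg _) hD0

lemma f2g_gk_supp {B R : ℝ} {φ w : YX → ℝ} (h : Adm B R φ w) (M : YX → ℂ) (y : ℝ × ℝ) (t : ℝ)
    (x : ℝ × ℝ) (h0 : gkg φ w M y t x ≠ 0) : ‖y‖ ≤ R ∧ ‖x‖ ≤ R := by
  unfold gkg at h0
  have h1 := left_ne_zero_of_mul h0
  have h2 := right_ne_zero_of_mul h1
  have h3 : w (y, x) ≠ 0 := fun h4 => h2 (by rw [h4]; simp)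
  have h4 := h.sw _ h3
  rw [Prod.norm_def, max_le_iff] at h4
  exact h4

/-- the total integrand, coordinates `(y, (x, z), t)` -/
noncomputable def f2gP (φ w : YX → ℝ) (T : ℝ) (M : YX → ℂ) (y : ℝ × ℝ)
    (p : (ℝ × ℝ) × (ℝ × ℝ)) (t : ℝ) : ℂ :=
  ((chi (t / T) : ℝ) : ℂ) * (gkg φ w M y t p.1 * (starRingEnd ℂ) (gkg φ w M y t (p.1 - p.2)))

lemma f2gP_meas {B R : ℝ} {φ w : YX → ℝ} (h : Adm B R φ w) (T : ℝ) {M : YX → ℂ}
    (hM : Measurable M) :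
    Measurable fun s : (ℝ × ℝ) × (((ℝ × ℝ) × (ℝ × ℝ)) × ℝ) => f2gP φ w T M s.1 s.2.1 s.2.2 := by
  have hg := f2g_gk_meas h hM
  have e1 : Measurable fun s : (ℝ × ℝ) × (((ℝ × ℝ) × (ℝ × ℝ)) × ℝ) => chi (s.2.2 / T) :=
    f2_chi_meas.comp (by fun_prop)
  have e2 : Measurable fun s : (ℝ × ℝ) × (((ℝ × ℝ) × (ℝ × ℝ)) × ℝ) =>
      gkg φ w M s.1 s.2.2 s.2.1.1 :=
    hg.comp (g := fun p : (ℝ × ℝ) × ℝ × (ℝ × ℝ) => gkg φ w M p.1 p.2.1 p.2.2)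
      (f := fun s : (ℝ × ℝ) × (((ℝ × ℝ) × (ℝ × ℝ)) × ℝ) => (s.1, s.2.2, s.2.1.1)) (by fun_prop)
  have e3 : Measurable fun s : (ℝ × ℝ) × (((ℝ × ℝ) × (ℝ × ℝ)) × ℝ) =>
      gkg φ w M s.1 s.2.2 (s.2.1.1 - s.2.1.2) :=
    hg.comp (g := fun p : (ℝ × ℝ) × ℝ × (ℝ × ℝ) => gkg φ w M p.1 p.2.1 p.2.2)
      (f := fun s : (ℝ × ℝ) × (((ℝ × ℝ) × (ℝ × ℝ)) × ℝ) => (s.1, s.2.2, s.2.1.1 - s.2.1.2))
      (by fun_prop)
  exact (Complex.measurable_ofReal.comp e1).mul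
    (e2.mul (Complex.continuous_conj.measurable.comp e3))

lemma f2gP_bdd {B R : ℝ} {φ w : YX → ℝ} (h : Adm B R φ w) (T : ℝ) {M : YX → ℂ} {D : ℝ}
    (hD : ∀ p, ‖M p‖ ≤ D) (y : ℝ × ℝ) (p : (ℝ × ℝ) × (ℝ × ℝ)) (t : ℝ) :
    ‖f2gP φ w T M y p t‖ ≤ (D * B) * (D * B) := by
  unfold f2gP
  rw [norm_mul, norm_mul, RCLike.norm_conj, Complex.norm_real, Real.norm_eq_abs,
    abs_of_nonneg (f2_chi_nonneg _)]
  have h1 := f2g_gk_bdd h hD y t p.1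
  have h2 := f2g_gk_bdd h hD y t (p.1 - p.2)
  have h3 := f2_chi_le (t / T)
  have h4 : 0 ≤ D * B := (norm_nonneg _).trans h1
  calc chi (t / T) * (‖gkg φ w M y t p.1‖ * ‖gkg φ w M y t (p.1 - p.2)‖)
      ≤ 1 * (‖gkg φ w M y t p.1‖ * ‖gkg φ w M y t (p.1 - p.2)‖) := by gcongr
    _ ≤ _ := by
        rw [one_mul]
        gcongr

lemma f2gP_supp {B R : ℝ} {φ w : YX → ℝ} (h : Adm B R φ w) {T : ℝ} (hT : 0 < T) (M : YX → ℂ)
    (y : ℝ × ℝ) (p : (ℝ × ℝ) × (ℝ × ℝ)) (t : ℝ) (h0 : f2gP φ w T M y p t ≠ 0) :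
    y ∈ closedBall (0 : ℝ × ℝ) (2 * R) ∧
      (p, t) ∈ (closedBall (0 : ℝ × ℝ) (2 * R) ×ˢ closedBall (0 : ℝ × ℝ) (2 * R)) ×ˢ
        Icc 0 (3 * T) := by
  unfold f2gP at h0
  have h1 : chi (t / T) ≠ 0 := fun h4 => (left_ne_zero_of_mul h0) (by rw [h4]; simp)
  have h2 := right_ne_zero_of_mul h0
  have h3 := f2g_gk_supp h M y t _ (left_ne_zero_of_mul h2)
  have h4 := f2g_gk_supp h M y t (p.1 - p.2)
    ((map_ne_zero (starRingEnd ℂ)).1 (right_ne_zero_of_mul h2))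
  have hR : 0 ≤ R := (norm_nonneg _).trans h3.1
  have h6 : ‖p.2‖ ≤ 2 * R := by
    have : p.2 = p.1 - (p.1 - p.2) := by abel
    rw [this]
    refine (norm_sub_le _ _).trans ?_
    linarith [h3.2, h4.2]
  refine ⟨?_, ⟨⟨?_, ?_⟩, f2_chi_supp hT t h1⟩⟩
  · rw [mem_closedBall_zero_iff]
    linarith [h3.1]
  · rw [mem_closedBall_zero_iff]
    linarith [h3.2]
  · rw [mem_closedBall_zero_iff]
    exact h6

lemma f2g_fin (R T : ℝ) : (volume : Measure (((ℝ × ℝ) × (ℝ × ℝ)) × ℝ))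
    ((closedBall (0 : ℝ × ℝ) (2 * R) ×ˢ closedBall (0 : ℝ × ℝ) (2 * R)) ×ˢ
      Icc 0 (3 * T)) < ⊤ :=
  (((isCompact_closedBall _ _).prod (isCompact_closedBall _ _)).prod isCompact_Icc).measure_lt_top

lemma f2g_fin' (R T : ℝ) : (volume : Measure ((ℝ × ℝ) × (((ℝ × ℝ) × (ℝ × ℝ)) × ℝ)))
    (closedBall (0 : ℝ × ℝ) (2 * R) ×ˢ
      ((closedBall (0 : ℝ × ℝ) (2 * R) ×ˢ closedBall (0 : ℝ × ℝ) (2 * R)) ×ˢ
        Icc 0 (3 * T))) < ⊤ :=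
  ((isCompact_closedBall _ _).prod (((isCompact_closedBall _ _).prod
    (isCompact_closedBall _ _)).prod isCompact_Icc)).measure_lt_top

lemma f2gP_int {B R : ℝ} {φ w : YX → ℝ} (h : Adm B R φ w) {T : ℝ} (hT : 0 < T) {M : YX → ℂ}
    (hM : Measurable M) {D : ℝ} (hD : ∀ p, ‖M p‖ ≤ D) :
    Integrable fun s : (ℝ × ℝ) × (((ℝ × ℝ) × (ℝ × ℝ)) × ℝ) => f2gP φ w T M s.1 s.2.1 s.2.2 :=
  hlp_int (f2g_fin' R T) _ (f2gP_meas h T hM) _ (fun s => f2gP_bdd h T hD _ _ _) fun s hs => by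
    by_contra h0
    exact hs (f2gP_supp h hT M _ _ _ h0)

lemma f2gP_int_y {B R : ℝ} {φ w : YX → ℝ} (h : Adm B R φ w) {T : ℝ} (hT : 0 < T) {M : YX → ℂ}
    (hM : Measurable M) {D : ℝ} (hD : ∀ p, ‖M p‖ ≤ D) (y : ℝ × ℝ) :
    Integrable fun s : ((ℝ × ℝ) × (ℝ × ℝ)) × ℝ => f2gP φ w T M y s.1 s.2 := by
  have hm : Measurable fun s : ((ℝ × ℝ) × (ℝ × ℝ)) × ℝ => f2gP φ w T M y s.1 s.2 :=
    (f2gP_meas h T hM).comp
      (g := fun s : (ℝ × ℝ) × (((ℝ × ℝ) × (ℝ × ℝ)) × ℝ) => f2gP φ w T M s.1 s.2.1 s.2.2)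
      (f := fun s : ((ℝ × ℝ) × (ℝ × ℝ)) × ℝ => (y, s)) (by fun_prop)
  refine hlp_int (f2g_fin R T) _ hm _ (fun s => f2gP_bdd h T hD y s.1 s.2) fun s hs => ?_
  by_contra h0
  exact hs (f2gP_supp h hT M y s.1 s.2 h0).2

lemma f2gP_int_yt {B R : ℝ} {φ w : YX → ℝ} (h : Adm B R φ w) {T : ℝ} (hT : 0 < T) {M : YX → ℂ}
    (hM : Measurable M) {D : ℝ} (hD : ∀ p, ‖M p‖ ≤ D) (y : ℝ × ℝ) (t : ℝ) :
    Integrable fun p : (ℝ × ℝ) × (ℝ × ℝ) => f2gP φ w T M y p t := by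
  have hm : Measurable fun p : (ℝ × ℝ) × (ℝ × ℝ) => f2gP φ w T M y p t :=
    (f2gP_meas h T hM).comp
      (g := fun s : (ℝ × ℝ) × (((ℝ × ℝ) × (ℝ × ℝ)) × ℝ) => f2gP φ w T M s.1 s.2.1 s.2.2)
      (f := fun p : (ℝ × ℝ) × (ℝ × ℝ) => (y, (p, t))) (by fun_prop)
  refine hlp_int (S := closedBall (0 : ℝ × ℝ) (2 * R) ×ˢ closedBall (0 : ℝ × ℝ) (2 * R))
    ((isCompact_closedBall _ _).prod (isCompact_closedBall _ _)).measure_lt_top _ hm _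
    (fun s => f2gP_bdd h T hD y s t) fun s hs => ?_
  by_contra h0
  exact hs (f2gP_supp h hT M y s t h0).2.1

/-- the inner part of the form -/
noncomputable def f2gI (φ w : YX → ℝ) (T : ℝ) (M : YX → ℂ) (y : ℝ × ℝ) : ℝ :=
  ∫ t : ℝ, chi (t / T) * ‖Hyg φ w M y t‖ ^ 2

lemma f2g_xz (φ w : YX → ℝ) (T : ℝ) (M : YX → ℂ) (y : ℝ × ℝ) (t : ℝ)
    (hI : Integrable fun p : (ℝ × ℝ) × (ℝ × ℝ) => f2gP φ w T M y p t) :
    ∫ p : (ℝ × ℝ) × (ℝ × ℝ), f2gP φ w T M y p t =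
      ((chi (t / T) * ‖Hyg φ w M y t‖ ^ 2 : ℝ) : ℂ) := by
  have h1 : ∫ p : (ℝ × ℝ) × (ℝ × ℝ), f2gP φ w T M y p t =
      ∫ x : ℝ × ℝ, ∫ z : ℝ × ℝ, f2gP φ w T M y (x, z) t :=
    integral_prod (fun p : (ℝ × ℝ) × (ℝ × ℝ) => f2gP φ w T M y p t) hI
  rw [h1]
  have h2 : ∀ x : ℝ × ℝ, ∫ z : ℝ × ℝ, f2gP φ w T M y (x, z) t =
      gkg φ w M y t x * (((chi (t / T) : ℝ) : ℂ) * (starRingEnd ℂ) (Hyg φ w M y t)) := by
    intro x
    have h3 : ∀ z : ℝ × ℝ, f2gP φ w T M y (x, z) t =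
        (((chi (t / T) : ℝ) : ℂ) * gkg φ w M y t x) *
          (starRingEnd ℂ) (gkg φ w M y t (x - z)) := by
      intro z
      unfold f2gP
      ring
    rw [integral_congr_ae (ae_of_all _ h3), integral_const_mul, integral_conj,
      integral_sub_left_eq_self (fun v => gkg φ w M y t v) volume x, f2g_Hyg_eq]
    ring
  rw [integral_congr_ae (ae_of_all _ h2), integral_mul_const, ← f2g_Hyg_eq]
  rw [Complex.ofReal_mul, Complex.ofReal_pow, ← Complex.mul_conj']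
  ring

lemma f2g_tint {B R : ℝ} {φ w : YX → ℝ} (h : Adm B R φ w) {T : ℝ} (hT : 0 < T) {M : YX → ℂ}
    (hM : Measurable M) {D : ℝ} (hD : ∀ p, ‖M p‖ ≤ D) (y : ℝ × ℝ) :
    Integrable fun t : ℝ => chi (t / T) * ‖Hyg φ w M y t‖ ^ 2 := by
  have h1 := (f2gP_int_y h hT hM hD y).integral_prod_right
  have h2 : Integrable fun t : ℝ => ((chi (t / T) * ‖Hyg φ w M y t‖ ^ 2 : ℝ) : ℂ) := by
    refine h1.congr (ae_of_all _ fun t => ?_)
    exact f2g_xz φ w T M y t (f2gP_int_yt h hT hM hD y t)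
  exact h2.re.congr (ae_of_all _ fun t => Complex.ofReal_re _)

lemma f2g_yint {B R : ℝ} {φ w : YX → ℝ} (h : Adm B R φ w) {T : ℝ} (hT : 0 < T) {M : YX → ℂ}
    (hM : Measurable M) {D : ℝ} (hD : ∀ p, ‖M p‖ ≤ D) (y : ℝ × ℝ) :
    ∫ s : ((ℝ × ℝ) × (ℝ × ℝ)) × ℝ, f2gP φ w T M y s.1 s.2 = ((f2gI φ w T M y : ℝ) : ℂ) := by
  have h1 : ∫ s : ((ℝ × ℝ) × (ℝ × ℝ)) × ℝ, f2gP φ w T M y s.1 s.2 =
      ∫ t : ℝ, ∫ p : (ℝ × ℝ) × (ℝ × ℝ), f2gP φ w T M y p t :=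
    integral_prod_symm (fun s : ((ℝ × ℝ) × (ℝ × ℝ)) × ℝ => f2gP φ w T M y s.1 s.2)
      (f2gP_int_y h hT hM hD y)
  rw [h1, integral_congr_ae (ae_of_all _ fun t =>
    f2g_xz φ w T M y t (f2gP_int_yt h hT hM hD y t)), integral_complex_ofReal]
  rfl

lemma f2g_I_int {B R : ℝ} {φ w : YX → ℝ} (h : Adm B R φ w) {T : ℝ} (hT : 0 < T) {M : YX → ℂ}
    (hM : Measurable M) {D : ℝ} (hD : ∀ p, ‖M p‖ ≤ D) : Integrable (f2gI φ w T M) := by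
  have h1 := (f2gP_int h hT hM hD).integral_prod_left
  have h2 : Integrable fun y : ℝ × ℝ => ((f2gI φ w T M y : ℝ) : ℂ) :=
    h1.congr (ae_of_all _ fun y => f2g_yint h hT hM hD y)
  exact h2.re.congr (ae_of_all _ fun t => Complex.ofReal_re _)

/-- the integrand of the four-linear form in the coordinates `(y, (x, z))` -/
lemma f2g_q (φ w : YX → ℝ) (T : ℝ) (M : YX → ℂ) (q : V × V) :
    sqM M q * ((Wg w q : ℝ) : ℂ) * Kt T (Fg φ q) =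
      ∫ t : ℝ, f2gP φ w T M (f2_e q).1 (f2_e q).2 t := by
  unfold Kt
  rw [← integral_const_mul]
  refine integral_congr_ae (ae_of_all _ fun t => ?_)
  simp only [f2gP, gkg, f2_e, sqM, Fg, Wg, px, pz, Prod.mk_sub_mk, map_mul,
    f2_conj_ex, Complex.conj_ofReal]
  have h1 : ex (t * (φ ((q.1.1, q.2.1), q.1.2.1, q.2.2.1) -
      φ ((q.1.1, q.2.1), q.1.2.1 - q.1.2.2, q.2.2.1 - q.2.2.2))) =
      ex (t * φ ((q.1.1, q.2.1), q.1.2.1, q.2.2.1)) *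
      ex (-(t * φ ((q.1.1, q.2.1), q.1.2.1 - q.1.2.2, q.2.2.1 - q.2.2.2))) := by
    rw [← hlf_ex_add]
    congr 1
    ring
  rw [h1]
  push_cast
  ring

lemma f2g_key {B R : ℝ} {φ w : YX → ℝ} (h : Adm B R φ w) {T : ℝ} (hT : 0 < T) {M : YX → ℂ}
    (hM : Measurable M) {D : ℝ} (hD : ∀ p, ‖M p‖ ≤ D) (ψ : ℝ × ℝ → ℂ) (hψ : Measurable ψ)
    {B' : ℝ} (hψ1 : ∀ y, ‖ψ y‖ ≤ B') :
    FFg φ w T (fun q => ψ (q.1.1, q.2.1) * sqM M q) =
      ∫ y, ψ y * ((f2gI φ w T M y : ℝ) : ℂ) := by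
  have hI := f2gP_int h hT hM hD
  -- the function on the space of (y, (x, z))
  set G : (ℝ × ℝ) × ((ℝ × ℝ) × (ℝ × ℝ)) → ℂ := fun s =>
    ψ s.1 * ∫ t : ℝ, f2gP φ w T M s.1 s.2 t with hG
  have hassoc := volume_preserving_prodAssoc (α₁ := ℝ × ℝ) (β₁ := (ℝ × ℝ) × (ℝ × ℝ)) (γ₁ := ℝ)
  have hI2 : Integrable (fun s : ((ℝ × ℝ) × ((ℝ × ℝ) × (ℝ × ℝ))) × ℝ =>
      f2gP φ w T M s.1.1 s.1.2 s.2) := hassoc.integrable_comp_of_integrable hI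
  have hI3 : Integrable fun s : (ℝ × ℝ) × ((ℝ × ℝ) × (ℝ × ℝ)) =>
      ∫ t : ℝ, f2gP φ w T M s.1 s.2 t := hI2.integral_prod_left
  have hGi : Integrable G := by
    refine Integrable.bdd_mul (c := B') hI3 ?_ (ae_of_all _ fun s => hψ1 _)
    exact (hψ.comp measurable_fst).aestronglyMeasurable
  have h1 : FFg φ w T (fun q => ψ (q.1.1, q.2.1) * sqM M q) = ∫ q : V × V, G (f2_e q) := by
    unfold FFg
    refine integral_congr_ae (ae_of_all _ fun q => ?_)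
    simp only [hG]
    rw [← f2g_q, mul_assoc, mul_assoc, mul_assoc]
    rfl
  rw [h1]
  have h2 : ∫ q : V × V, G (f2_e q) = ∫ s, G s := by
    have h3 : ∫ s, G s ∂(Measure.map f2_e volume) = ∫ q : V × V, G (f2_e q) := by
      refine integral_map f2_e_mp.measurable.aemeasurable ?_
      rw [f2_e_mp.map_eq]
      exact hGi.aestronglyMeasurable
    rw [← h3, f2_e_mp.map_eq]
  rw [h2]
  have h4 : ∫ s, G s = ∫ y : ℝ × ℝ, ∫ p : (ℝ × ℝ) × (ℝ × ℝ), G (y, p) := integral_prod G hGi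
  rw [h4]
  refine integral_congr_ae (ae_of_all _ fun y => ?_)
  simp only [hG]
  rw [integral_const_mul, ← f2g_yint h hT hM hD y]
  congr 1
  exact (integral_prod (fun s : ((ℝ × ℝ) × (ℝ × ℝ)) × ℝ => f2gP φ w T M y s.1 s.2)
    (f2gP_int_y h hT hM hD y)).symm

lemma f2g_I_nonneg (φ w : YX → ℝ) (T : ℝ) (M : YX → ℂ) (y : ℝ × ℝ) : 0 ≤ f2gI φ w T M y :=
  integral_nonneg fun t => mul_nonneg (f2_chi_nonneg _) (sq_nonneg _)

lemma f2g_I_ofReal {B R : ℝ} {φ w : YX → ℝ} (h : Adm B R φ w) {T : ℝ} (hT : 0 < T) {M : YX → ℂ}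
    (hM : Measurable M) {D : ℝ} (hD : ∀ p, ‖M p‖ ≤ D) (y : ℝ × ℝ) :
    ENNReal.ofReal (f2gI φ w T M y) =
      ∫⁻ t : ℝ, ENNReal.ofReal (chi (t / T)) * ‖Hyg φ w M y t‖ₑ ^ 2 := by
  unfold f2gI
  rw [ofReal_integral_eq_lintegral_ofReal (f2g_tint h hT hM hD y)
    (ae_of_all _ fun t => mul_nonneg (f2_chi_nonneg _) (sq_nonneg _))]
  refine lintegral_congr fun t => ?_
  rw [ENNReal.ofReal_mul (f2_chi_nonneg _), ENNReal.ofReal_pow (norm_nonneg _), ofReal_norm]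

lemma f2g_Thg {B R : ℝ} {φ w : YX → ℝ} (h : Adm B R φ w) {T : ℝ} (hT : 0 < T) {M : YX → ℂ}
    (hM : Measurable M) {D : ℝ} (hD : ∀ p, ‖M p‖ ≤ D) :
    Thg φ w T M = ∫⁻ y, ENNReal.ofReal (f2gI φ w T M y) := by
  unfold Thg
  exact lintegral_congr fun y => (f2g_I_ofReal h hT hM hD y).symm

theorem Thg_eq (B R : ℝ) (φ w : YX → ℝ) (h : Adm B R φ w) (T : ℝ) (hT : 0 < T) (M : YX → ℂ)
    (hM : Measurable M) (hB : ∀ p, ‖M p‖ ≤ 1) : Thg φ w T M = ‖FFg φ w T (sqM M)‖ₑ := by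
  have h1 := f2g_key h hT hM hB (fun _ => 1) measurable_const (B' := 1) (fun y => by simp)
  simp only [one_mul] at h1
  have h2 : FFg φ w T (sqM M) = ((∫ y, f2gI φ w T M y : ℝ) : ℂ) := by
    rw [← integral_complex_ofReal]
    exact h1
  rw [h2, f2g_Thg h hT hM hB, ← ofReal_integral_eq_lintegral_ofReal (f2g_I_int h hT hM hB)
    (ae_of_all _ fun y => f2g_I_nonneg φ w T M y), ← ofReal_norm, Complex.norm_real,
    Real.norm_eq_abs, abs_of_nonneg (integral_nonneg fun y => f2g_I_nonneg φ w T M y)]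

/-- A weight depending on `y` only. -/
theorem FFg_weight (B R : ℝ) (φ w : YX → ℝ) (h : Adm B R φ w) (T : ℝ) (hT : 0 < T) (M : YX → ℂ)
    (hM : Measurable M) (hB : ∀ p, ‖M p‖ ≤ 1) (ψ : ℝ × ℝ → ℂ) (hψ : Measurable ψ)
    (hψ1 : ∀ y, ‖ψ y‖ ≤ 1) :
    ‖FFg φ w T (fun q => ψ (q.1.1, q.2.1) * sqM M q)‖ₑ ≤
      Thg φ w T (fun p => if ψ p.1 = 0 then 0 else M p) := by
  rw [f2g_key h hT hM hB ψ hψ hψ1]
  refine (enorm_integral_le_lintegral_enorm _).trans ?_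
  unfold Thg
  refine lintegral_mono fun y => ?_
  by_cases h0 : ψ y = 0
  · rw [h0, zero_mul, enorm_zero]
    exact zero_le
  · have h1 : ∀ t, Hyg φ w (fun p => if ψ p.1 = 0 then 0 else M p) y t = Hyg φ w M y t := by
      intro t
      unfold Hyg
      simp only [if_neg h0]
    simp only [h1]
    rw [← f2g_I_ofReal h hT hM hB y, enorm_mul, ← ofReal_norm ((f2gI φ w T M y : ℝ) : ℂ),
      Complex.norm_real, Real.norm_eq_abs, abs_of_nonneg (f2g_I_nonneg φ w T M y)]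
    have h2 : ‖ψ y‖ₑ ≤ 1 := by
      rw [← ofReal_norm]
      exact ENNReal.ofReal_le_one.2 (hψ1 y)
    calc _ ≤ 1 * ENNReal.ofReal (f2gI φ w T M y) := mul_le_mul_left h2 _
      _ = _ := one_mul _

lemma f2g_gk_int {B R : ℝ} {φ w : YX → ℝ} (h : Adm B R φ w) {M : YX → ℂ}
    (hM : Measurable M) {D : ℝ} (hD : ∀ p, ‖M p‖ ≤ D) (y : ℝ × ℝ) (t : ℝ) :
    Integrable fun x : ℝ × ℝ => gkg φ w M y t x := by
  have hm : Measurable fun x : ℝ × ℝ => gkg φ w M y t x :=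
    (f2g_gk_meas h hM).comp
      (g := fun p : (ℝ × ℝ) × ℝ × (ℝ × ℝ) => gkg φ w M p.1 p.2.1 p.2.2)
      (f := fun x : ℝ × ℝ => (y, t, x)) (by fun_prop)
  refine hlp_int (S := closedBall (0 : ℝ × ℝ) R) (isCompact_closedBall _ _).measure_lt_top _ hm _
    (fun x => f2g_gk_bdd h hD y t x) fun x hx => ?_
  by_contra h0
  exact hx (by simpa using (f2g_gk_supp h M y t x h0).2)

lemma f2g_Hyg_sum {B R : ℝ} {φ w : YX → ℝ} (h : Adm B R φ w) (n : ℕ)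
    (M : Fin n → YX → ℂ) (hM : ∀ i, Measurable (M i)) (D : ℝ)
    (hD : ∀ i p, ‖M i p‖ ≤ D) (y : ℝ × ℝ) (t : ℝ) :
    Hyg φ w (fun p => ∑ i, M i p) y t = ∑ i, Hyg φ w (M i) y t := by
  simp only [f2g_Hyg_eq]
  rw [← integral_finsetSum _ fun i _ => f2g_gk_int h (hM i) (hD i) y t]
  refine integral_congr_ae (ae_of_all _ fun x => ?_)
  simp only [gkg, Finset.sum_mul]

theorem Thg_sum (B R : ℝ) (φ w : YX → ℝ) (h : Adm B R φ w) (T : ℝ) (hT : 0 < T) (n : ℕ)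
    (M : Fin n → YX → ℂ) (hM : ∀ i, Measurable (M i)) (D : ℝ) (hD : ∀ i p, ‖M i p‖ ≤ D) :
    Thg φ w T (fun p => ∑ i, M i p) ≤ n * ∑ i, Thg φ w T (M i) := by
  have hMs : Measurable fun p => ∑ i, M i p := Finset.measurable_sum _ fun i _ => hM i
  have hBs : ∀ p, ‖∑ i, M i p‖ ≤ ∑ _i : Fin n, D := fun p =>
    (norm_sum_le _ _).trans (Finset.sum_le_sum fun i _ => hD i p)
  have h1 : ∀ y, f2gI φ w T (fun p => ∑ i, M i p) y ≤ n * ∑ i, f2gI φ w T (M i) y := by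
    intro y
    unfold f2gI
    rw [← integral_finsetSum _ fun i _ => f2g_tint h hT (hM i) (hD i) y, ← integral_const_mul]
    refine integral_mono (f2g_tint h hT hMs hBs y)
      ((integrable_finsetSum _ fun i _ => f2g_tint h hT (hM i) (hD i) y).const_mul _) ?_
    intro t
    simp only
    rw [f2g_Hyg_sum h n M hM D hD y t, ← Finset.mul_sum]
    have h2 : ‖∑ i, Hyg φ w (M i) y t‖ ^ 2 ≤ n * ∑ i, ‖Hyg φ w (M i) y t‖ ^ 2 := by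
      have h3 : ‖∑ i, Hyg φ w (M i) y t‖ ≤ ∑ i, ‖Hyg φ w (M i) y t‖ := norm_sum_le _ _
      have h4 := sq_sum_le_card_mul_sum_sq (s := (Finset.univ : Finset (Fin n)))
        (f := fun i => ‖Hyg φ w (M i) y t‖)
      rw [Finset.card_univ, Fintype.card_fin] at h4
      exact (pow_le_pow_left₀ (norm_nonneg _) h3 2).trans h4
    calc chi (t / T) * ‖∑ i, Hyg φ w (M i) y t‖ ^ 2
        ≤ chi (t / T) * (n * ∑ i, ‖Hyg φ w (M i) y t‖ ^ 2) :=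
          mul_le_mul_of_nonneg_left h2 (f2_chi_nonneg _)
      _ = n * (chi (t / T) * ∑ i, ‖Hyg φ w (M i) y t‖ ^ 2) := by ring
  have h2 : ∫ y, f2gI φ w T (fun p => ∑ i, M i p) y ≤ n * ∑ i, ∫ y, f2gI φ w T (M i) y := by
    rw [← integral_finsetSum _ fun i _ => f2g_I_int h hT (hM i) (hD i), ← integral_const_mul]
    exact integral_mono (f2g_I_int h hT hMs hBs)
      ((integrable_finsetSum _ fun i _ => f2g_I_int h hT (hM i) (hD i)).const_mul _) h1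
  have h3 : ∀ N : YX → ℂ, Measurable N → (∃ B : ℝ, ∀ p, ‖N p‖ ≤ B) →
      Thg φ w T N = ENNReal.ofReal (∫ y, f2gI φ w T N y) := by
    rintro N hN ⟨B, hB⟩
    rw [f2g_Thg h hT hN hB, ← ofReal_integral_eq_lintegral_ofReal (f2g_I_int h hT hN hB)
      (ae_of_all _ fun y => f2g_I_nonneg φ w T N y)]
  rw [h3 _ hMs ⟨_, hBs⟩]
  refine (ENNReal.ofReal_le_ofReal h2).trans (le_of_eq ?_)
  rw [ENNReal.ofReal_mul (Nat.cast_nonneg n), ENNReal.ofReal_natCast,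
    ENNReal.ofReal_sum_of_nonneg fun i _ => integral_nonneg fun y => f2g_I_nonneg φ w T (M i) y]
  congr 1
  exact Finset.sum_congr rfl fun i _ => (h3 _ (hM i) ⟨D, hD i⟩).symm

end Pool.Agent.SDT.N1G

end -- N1G.F2

section -- N1G.F3

/-!
N1G, block F, part 3: the fourth power norm of the extension operator of a point phase.
-/

namespace Pool.Agent.SDT.N1G

open MeasureTheory Set Metric Pool.Agent.SDT.MP_6cbfb8_an Pool.Agent.SDT.MST Pool.Agent.SDT.N1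
open scoped ENNReal Real ContDiff

/-- The extension operator of a point phase. -/
noncomputable def Eg (q w : ℝ × ℝ → ℝ) (G : ℝ × ℝ → ℂ) (t : ℝ) (ξ : ℝ × ℝ) : ℂ :=
  ∫ x : ℝ × ℝ, G x * ((w x : ℝ) : ℂ) * ex (t * q x) * ex (x.1 * ξ.1 + x.2 * ξ.2)

theorem f3g_adm (B R : ℝ) (q w : ℝ × ℝ → ℝ) (hq : Measurable q) (hw : Measurable w)
    (hB : ∀ x, |w x| ≤ B) (hR : ∀ x, w x ≠ 0 → ‖x‖ ≤ R) :
    Adm (B * B) (2 * R) (dif q) (dam w) where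
  mφ := by
    unfold dif
    exact (hq.comp measurable_snd).sub (hq.comp (measurable_snd.sub measurable_fst))
  mw := by
    unfold dam
    exact (hw.comp measurable_snd).mul (hw.comp (measurable_snd.sub measurable_fst))
  bw := fun p => by
    unfold dam
    rw [abs_mul]
    exact mul_le_mul (hB _) (hB _) (abs_nonneg _) ((abs_nonneg _).trans (hB 0))
  sw := fun p hp => by
    unfold dam at hp
    obtain ⟨h1, h2⟩ := mul_ne_zero_iff.1 hp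
    have k1 := hR _ h1
    have k2 := hR _ h2
    have hR0 : 0 ≤ R := (norm_nonneg _).trans k1
    have k3 : ‖p.1‖ ≤ 2 * R := by
      have e : p.1 = p.2 - (p.2 - p.1) := by abel
      rw [e]
      refine (norm_sub_le _ _).trans ?_
      linarith
    rw [Prod.norm_def, max_le_iff]
    exact ⟨k3, by linarith⟩

/-- the density times the amplitude -/
noncomputable def f3f (q w : ℝ × ℝ → ℝ) (G₁ G₂ : ℝ → ℂ) (t : ℝ) (v : E 2) : ℂ :=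
  G₁ (v 0) * G₂ (v 1) * ((w (v 0, v 1) : ℝ) : ℂ) * ex (t * q (v 0, v 1))

lemma f3f_meas {q w : ℝ × ℝ → ℝ} (hq : Measurable q) (hw : Measurable w) {G₁ G₂ : ℝ → ℂ}
    (h1 : Measurable G₁) (h2 : Measurable G₂) (t : ℝ) : Measurable (f3f q w G₁ G₂ t) := by
  have e0 : Measurable fun v : E 2 => v 0 := by fun_prop
  have e1 : Measurable fun v : E 2 => v 1 := by fun_prop
  have e2 : Measurable fun v : E 2 => w (v 0, v 1) := hw.comp (e0.prodMk e1)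
  have e3 : Measurable fun v : E 2 => q (v 0, v 1) := hq.comp (e0.prodMk e1)
  exact (((h1.comp e0).mul (h2.comp e1)).mul (Complex.measurable_ofReal.comp e2)).mul
    (hlf_measurable_ex.comp (e3.const_mul t))

lemma f3f_bdd {q w : ℝ × ℝ → ℝ} {B : ℝ} (hB : ∀ x, |w x| ≤ B) {G₁ G₂ : ℝ → ℂ}
    (b1 : ∀ a, ‖G₁ a‖ ≤ 1) (b2 : ∀ b, ‖G₂ b‖ ≤ 1) (t : ℝ) (v : E 2) :
    ‖f3f q w G₁ G₂ t v‖ ≤ B := by
  unfold f3f
  rw [norm_mul, norm_mul, norm_mul, hlf_norm_ex, mul_one, Complex.norm_real, Real.norm_eq_abs]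
  calc ‖G₁ (v 0)‖ * ‖G₂ (v 1)‖ * |w (v 0, v 1)| ≤ 1 * 1 * B := by
        gcongr
        · exact b1 _
        · exact b2 _
        · exact hB _
    _ = B := by ring

lemma f3f_supp {q w : ℝ × ℝ → ℝ} {R : ℝ} (hR : ∀ x, w x ≠ 0 → ‖x‖ ≤ R) (G₁ G₂ : ℝ → ℂ) (t : ℝ)
    (v : E 2) (hv : 2 * R < ‖v‖) : f3f q w G₁ G₂ t v = 0 := by
  by_contra h
  unfold f3f at h
  have h1 : w (v 0, v 1) ≠ 0 := fun h2 => by
    have := right_ne_zero_of_mul (left_ne_zero_of_mul h)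
    exact this (by rw [h2]; simp)
  have h2 := hR _ h1
  rw [Prod.norm_def, max_le_iff] at h2
  simp only [Real.norm_eq_abs] at h2
  have hR0 : 0 ≤ R := (abs_nonneg _).trans h2.1
  have h3 : ‖v‖ ^ 2 = (v 0) ^ 2 + (v 1) ^ 2 := by
    rw [EuclideanSpace.norm_eq, Real.sq_sqrt (by positivity), Fin.sum_univ_two]
    simp
  have h4 : (v 0) ^ 2 ≤ R ^ 2 := sq_le_sq.2 (by rw [abs_of_nonneg hR0]; exact h2.1)
  have h5 : (v 1) ^ 2 ≤ R ^ 2 := sq_le_sq.2 (by rw [abs_of_nonneg hR0]; exact h2.2)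
  nlinarith [norm_nonneg v]

lemma f3_Eo (q w : ℝ × ℝ → ℝ) (G₁ G₂ : ℝ → ℂ) (t : ℝ) (ξ : ℝ × ℝ) :
    Eg q w (fun x => G₁ x.1 * G₂ x.2) t ξ =
      ∫ v : E 2, f3f q w G₁ G₂ t v * ex (inner ℝ v (f2p ξ)) := by
  rw [f2p_integral]
  unfold Eg
  refine integral_congr_ae (ae_of_all _ fun x => ?_)
  simp only [f2p_inner]
  rfl

lemma f3_Hy (q w : ℝ × ℝ → ℝ) (G₁ G₂ : ℝ → ℂ) (t : ℝ) (y : ℝ × ℝ) :
    Hyg (dif q) (dam w) (pd (da G₁) (da G₂)) y t =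
      ∫ v : E 2, f3f q w G₁ G₂ t v * (starRingEnd ℂ) (f3f q w G₁ G₂ t (v - f2p y)) := by
  rw [f2p_integral, f2g_Hyg_eq]
  refine integral_congr_ae (ae_of_all _ fun x => ?_)
  have h1 : ex (t * (q x - q (x - y))) = ex (t * q x) * ex (-(t * q (x - y))) := by
    rw [← hlf_ex_add]
    congr 1
    ring
  simp only [gkg, pd, da, dif, dam, ← f2p_sub, f3f, f2p_0, f2p_1, map_mul,
    f2_conj_ex, Complex.conj_ofReal]
  rw [h1]
  simp only [Prod.fst_sub, Prod.snd_sub]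
  push_cast
  have e1 : ((x.1, x.2) : ℝ × ℝ) = x := rfl
  have e2 : ((x.1 - y.1, x.2 - y.2) : ℝ × ℝ) = x - y := rfl
  rw [e1, e2]
  ring

lemma f3_Hyg_meas {B R : ℝ} {φ w : YX → ℝ} (h : Adm B R φ w) {M : YX → ℂ} (hM : Measurable M) :
    Measurable fun p : (ℝ × ℝ) × ℝ => Hyg φ w M p.1 p.2 := by
  have h1 : Measurable fun p : ((ℝ × ℝ) × ℝ) × (ℝ × ℝ) => gkg φ w M p.1.1 p.1.2 p.2 :=
    (f2g_gk_meas h hM).comp
      (g := fun p : (ℝ × ℝ) × ℝ × (ℝ × ℝ) => gkg φ w M p.1 p.2.1 p.2.2)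
      (f := fun p : ((ℝ × ℝ) × ℝ) × (ℝ × ℝ) => (p.1.1, p.1.2, p.2)) (by fun_prop)
  exact (h1.stronglyMeasurable.integral_prod_right').measurable

lemma f3_M {G₁ G₂ : ℝ → ℂ} (h1 : Measurable G₁) (h2 : Measurable G₂) :
    Measurable (pd (da G₁) (da G₂)) := by
  have e1 : Measurable (da G₁) := by
    unfold da
    exact (h1.comp measurable_snd).mul
      (Complex.continuous_conj.measurable.comp (h1.comp (by fun_prop)))
  have e2 : Measurable (da G₂) := by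
    unfold da
    exact (h2.comp measurable_snd).mul
      (Complex.continuous_conj.measurable.comp (h2.comp (by fun_prop)))
  unfold pd
  exact (e1.comp (by fun_prop)).mul (e2.comp (by fun_prop))

lemma f3_pl (B R : ℝ) (q w : ℝ × ℝ → ℝ) (hq : Measurable q) (hw : Measurable w)
    (hB : ∀ x, |w x| ≤ B) (hR : ∀ x, w x ≠ 0 → ‖x‖ ≤ R) (G₁ G₂ : ℝ → ℂ)
    (h1 : Measurable G₁) (h2 : Measurable G₂) (b1 : ∀ a, ‖G₁ a‖ ≤ 1) (b2 : ∀ a, ‖G₂ a‖ ≤ 1)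
    (t : ℝ) :
    ∫⁻ ξ : ℝ × ℝ, ‖Eg q w (fun x => G₁ x.1 * G₂ x.2) t ξ‖ₑ ^ (4 : ℝ) ≤
      ∫⁻ y : ℝ × ℝ, ‖Hyg (dif q) (dam w) (pd (da G₁) (da G₂)) y t‖ₑ ^ 2 := by
  have k1 := four_linear (f3f q w G₁ G₂ t) (f3f_meas hq hw h1 h2 t) B (2 * R)
    (f3f_bdd hB b1 b2 t) (f3f_supp hR G₁ G₂ t)
  have k2 := hlp_eq (f3f q w G₁ G₂ t) (f3f_meas hq hw h1 h2 t) B (2 * R)
    (f3f_bdd hB b1 b2 t) (f3f_supp hR G₁ G₂ t)
  unfold hlp_F at k2
  rw [k2, integral_complex_ofReal, Complex.ofReal_re, f2p_lintegral, f2p_integralR] at k1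
  simp only [← f3_Eo, ← f3_Hy] at k1
  refine k1.trans ?_
  have hm : Measurable fun y : ℝ × ℝ => Hyg (dif q) (dam w) (pd (da G₁) (da G₂)) y t :=
    (f3_Hyg_meas (f3g_adm B R q w hq hw hB hR) (f3_M h1 h2)).comp
      (g := fun p : (ℝ × ℝ) × ℝ => Hyg (dif q) (dam w) (pd (da G₁) (da G₂)) p.1 p.2)
      (f := fun y : ℝ × ℝ => (y, t)) (by fun_prop)
  rw [integral_eq_lintegral_of_nonneg_ae (ae_of_all _ fun y => sq_nonneg _)
    (hm.norm.pow_const 2).aestronglyMeasurable]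
  refine ENNReal.ofReal_toReal_le.trans (le_of_eq ?_)
  refine lintegral_congr fun y => ?_
  rw [ENNReal.ofReal_pow (norm_nonneg _), ofReal_norm]

theorem fourg (B R : ℝ) (q w : ℝ × ℝ → ℝ) (hq : Measurable q) (hw : Measurable w)
    (hB : ∀ x, |w x| ≤ B) (hR : ∀ x, w x ≠ 0 → ‖x‖ ≤ R) (T : ℝ) (hT : 0 < T) (G₁ G₂ : ℝ → ℂ)
    (h1 : Measurable G₁) (h2 : Measurable G₂) (b1 : ∀ a, ‖G₁ a‖ ≤ 1) (b2 : ∀ a, ‖G₂ a‖ ≤ 1) :
    ∫⁻ t in Icc T (2 * T), ∫⁻ ξ : ℝ × ℝ, ‖Eg q w (fun x => G₁ x.1 * G₂ x.2) t ξ‖ₑ ^ (4 : ℝ) ≤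
      ‖FFg (dif q) (dam w) T (sqM fun p => da G₁ (p.1.1, p.2.1) * da G₂ (p.1.2, p.2.2))‖ₑ := by
  have hA := f3g_adm B R q w hq hw hB hR
  have hM := f3_M h1 h2
  have hda : ∀ (G : ℝ → ℂ), (∀ a, ‖G a‖ ≤ 1) → ∀ p, ‖da G p‖ ≤ 1 := by
    intro G hG p
    unfold da
    rw [norm_mul, RCLike.norm_conj]
    exact mul_le_one₀ (hG _) (norm_nonneg _) (hG _)
  have hM1 : ∀ p, ‖pd (da G₁) (da G₂) p‖ ≤ 1 := by
    intro p
    unfold pd
    rw [norm_mul]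
    exact mul_le_one₀ (hda G₁ b1 _) (norm_nonneg _) (hda G₂ b2 _)
  have e0 : (fun p : YX => da G₁ (p.1.1, p.2.1) * da G₂ (p.1.2, p.2.2)) =
      pd (da G₁) (da G₂) := rfl
  rw [e0, ← Thg_eq (B * B) (2 * R) (dif q) (dam w) hA T hT _ hM hM1]
  have hH := f3_Hyg_meas hA hM
  have h3 : ∫⁻ t in Icc T (2 * T), ∫⁻ ξ : ℝ × ℝ,
      ‖Eg q w (fun x => G₁ x.1 * G₂ x.2) t ξ‖ₑ ^ (4 : ℝ) ≤
      ∫⁻ t in Icc T (2 * T), ∫⁻ y : ℝ × ℝ, ENNReal.ofReal (chi (t / T)) *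
        ‖Hyg (dif q) (dam w) (pd (da G₁) (da G₂)) y t‖ₑ ^ 2 := by
    refine setLIntegral_mono' measurableSet_Icc fun t ht => ?_
    have h4 : chi (t / T) = 1 := f2_chi_one _ (by rw [le_div_iff₀ hT]; linarith [ht.1])
      (by rw [div_le_iff₀ hT]; exact ht.2)
    simp only [h4, ENNReal.ofReal_one, one_mul]
    exact f3_pl B R q w hq hw hB hR G₁ G₂ h1 h2 b1 b2 t
  refine h3.trans ((setLIntegral_le_lintegral _ _).trans (le_of_eq ?_))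
  unfold Thg
  rw [lintegral_lintegral_swap]
  have e1 : Measurable fun p : ℝ × (ℝ × ℝ) =>
      Hyg (dif q) (dam w) (pd (da G₁) (da G₂)) p.2 p.1 :=
    hH.comp (g := fun p : (ℝ × ℝ) × ℝ => Hyg (dif q) (dam w) (pd (da G₁) (da G₂)) p.1 p.2)
      (f := fun p : ℝ × (ℝ × ℝ) => (p.2, p.1)) (by fun_prop)
  have e2 : Measurable fun p : ℝ × (ℝ × ℝ) => ENNReal.ofReal (chi (p.1 / T)) :=
    ENNReal.measurable_ofReal.comp (f2_chi_meas.comp (by fun_prop))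
  exact (e2.mul (e1.enorm.pow_const 2)).aemeasurable

end Pool.Agent.SDT.N1G

end -- N1G.F3

section -- N1M.PA

/-!
N1M, block M4, type N': exact formulas for the derivatives of the pair phase.
Parameters `(B, m, ρ, (Y₁, Y₂), (r, X))`, `B = al²`.
-/

namespace Pool.Agent.SDT.N1M

open MeasureTheory Set Metric Pool.Agent.SDT.MP_6cbfb8_an Pool.Agent.SDT.MST Pool.Agent.SDT.N1
open Pool.Agent.SDT.N1F Pool.Agent.SDT.N1G
open scoped ENNReal Real ContDiff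

/-- `q²` at `x`. -/
noncomputable def cq1 (p : PB) : ℝ := hm p.2.1 p.2.2.2.2.1 - p.1 * p.2.2.2.2.2 ^ 2

/-- `q²` at `x - y`. -/
noncomputable def cq2 (p : PB) : ℝ :=
  hm p.2.1 (p.2.2.2.2.1 - p.1 * p.2.2.1 * p.2.2.2.1.1) -
    p.1 * (p.2.2.2.2.2 - p.2.2.1 * p.2.2.2.1.2) ^ 2

/-- `S` at `x`. -/
noncomputable def cS1 (p : PB) : ℝ := √(1 - p.2.1 * (p.1 * p.2.2.2.2.2 ^ 2))

/-- `S` at `x - y`. -/
noncomputable def cS2 (p : PB) : ℝ :=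
  √(1 - p.2.1 * (p.1 * (p.2.2.2.2.2 - p.2.2.1 * p.2.2.2.1.2) ^ 2))

/-- `β` at `x`. -/
noncomputable def cb1 (p : PB) : ℝ := bm p.2.1 p.2.2.2.2.1

/-- `β` at `x - y`. -/
noncomputable def cb2 (p : PB) : ℝ := bm p.2.1 (p.2.2.2.2.1 - p.1 * p.2.2.1 * p.2.2.2.1.1)

/-- The function `n`. -/
noncomputable def cN (p : PB) : ℝ :=
  p.2.2.2.1.1 / cb1 p -
    p.2.2.2.1.2 * (2 * p.2.2.2.2.2 - p.2.2.1 * p.2.2.2.1.2) / (cS1 p * (cS1 p + cS2 p))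

/-- The factor in the direction `r`. -/
noncomputable def cL (p : PB) : ℝ :=
  cb1 p ^ 2 * cS1 p ^ 2 * (cb2 p / cb1 p + cS2 p / cS1 p) /
    (√(cq1 p) * √(cq2 p) * (cb1 p * √(cq2 p) + cb2 p * √(cq1 p)))

/-- The factor in the direction `a`. -/
noncomputable def cM (p : PB) : ℝ :=
  (p.2.2.2.1.2 * (2 * p.2.2.2.2.2 - p.2.2.1 * p.2.2.2.1.2) *
      hm p.2.1 (p.2.2.2.2.1 - p.1 * p.2.2.1 * p.2.2.2.1.1) -
    p.1 * (p.2.2.2.2.2 - p.2.2.1 * p.2.2.2.1.2) ^ 2 * p.2.2.2.1.1 * (cb1 p + cb2 p)) /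
    (√(cq1 p) * √(cq2 p) * (p.2.2.2.2.2 * √(cq2 p) +
      (p.2.2.2.2.2 - p.2.2.1 * p.2.2.2.1.2) * √(cq1 p)))

theorem c_first (B m ρ y1 y2 r x : ℝ) (h1 : 0 < cq1 (pB B m ρ y1 y2 r x))
    (h2 : 0 < cq2 (pB B m ρ y1 y2 r x)) (hS1 : 0 < 1 - m * (B * x ^ 2))
    (hS2 : 0 < 1 - m * (B * (x - ρ * y2) ^ 2)) (hb1 : 0 < bm m r)
    (hb2 : 0 < bm m (r - B * ρ * y1)) :
    bm m r / √(cq1 (pB B m ρ y1 y2 r x)) -
        bm m (r - B * ρ * y1) / √(cq2 (pB B m ρ y1 y2 r x)) =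
      -(B * ρ * (cL (pB B m ρ y1 y2 r x) * cN (pB B m ρ y1 y2 r x))) := by
  have e1 := Real.sq_sqrt h1.le
  have e2 := Real.sq_sqrt h2.le
  have k1 := Real.sqrt_pos.2 h1
  have k2 := Real.sqrt_pos.2 h2
  have f1 := Real.sq_sqrt hS1.le
  have f2 := Real.sq_sqrt hS2.le
  have g1 := Real.sqrt_pos.2 hS1
  have g2 := Real.sqrt_pos.2 hS2
  unfold cL cN
  have d1 : cb1 (pB B m ρ y1 y2 r x) = bm m r := rfl
  have d2 : cb2 (pB B m ρ y1 y2 r x) = bm m (r - B * ρ * y1) := rfl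
  have d3 : cS1 (pB B m ρ y1 y2 r x) = √(1 - m * (B * x ^ 2)) := rfl
  have d4 : cS2 (pB B m ρ y1 y2 r x) = √(1 - m * (B * (x - ρ * y2) ^ 2)) := rfl
  have d5 : cq1 (pB B m ρ y1 y2 r x) = hm m r - B * x ^ 2 := rfl
  have d6 : cq2 (pB B m ρ y1 y2 r x) = hm m (r - B * ρ * y1) - B * (x - ρ * y2) ^ 2 := rfl
  rw [d1, d2, d3, d4]
  rw [d5] at e1 k1
  rw [d6] at e2 k2
  rw [d5, d6]
  have d7 : (pB B m ρ y1 y2 r x).2.2.2.1.1 = y1 := rfl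
  have d8 : (pB B m ρ y1 y2 r x).2.2.2.1.2 = y2 := rfl
  have d9 : (pB B m ρ y1 y2 r x).2.2.2.2.2 = x := rfl
  have d10 : (pB B m ρ y1 y2 r x).2.2.1 = ρ := rfl
  rw [d7, d8, d9, d10]
  have hbb : bm m (r - B * ρ * y1) = bm m r + m * (B * ρ * y1) := by
    unfold bm
    ring
  have hhh : hm m r - hm m (r - B * ρ * y1) =
      B * ρ * y1 * (bm m r + bm m (r - B * ρ * y1)) := by
    unfold bm hm
    ring
  have hbh : bm m r ^ 2 = 1 - m * hm m r := by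
    unfold bm hm
    ring
  have hbh2 : bm m (r - B * ρ * y1) ^ 2 = 1 - m * hm m (r - B * ρ * y1) := by
    unfold bm hm
    ring
  generalize √(1 - m * (B * x ^ 2)) = S1 at *
  generalize √(1 - m * (B * (x - ρ * y2) ^ 2)) = S2 at *
  generalize √(hm m r - B * x ^ 2) = q1 at *
  generalize √(hm m (r - B * ρ * y1) - B * (x - ρ * y2) ^ 2) = q2 at *
  generalize bm m r = b1 at *
  generalize bm m (r - B * ρ * y1) = b2 at *
  generalize hm m r = h1 at *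
  generalize hm m (r - B * ρ * y1) = h2 at *
  have hs : 0 < b1 * q2 + b2 * q1 := by positivity
  have hSS : 0 < S1 + S2 := by positivity
  -- the numerator
  have num : (b1 * q2 - b2 * q1) * (b1 * q2 + b2 * q1) = b1 ^ 2 * (B * x ^ 2 - B * (x - ρ * y2) ^ 2) -
      (h1 - h2) * S1 ^ 2 := by
    calc (b1 * q2 - b2 * q1) * (b1 * q2 + b2 * q1) = b1 ^ 2 * q2 ^ 2 - b2 ^ 2 * q1 ^ 2 := by ring
      _ = _ := by
          rw [e1, e2, f1, hbh2, hbh]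
          ring
  have hSd : S2 ^ 2 - S1 ^ 2 = m * (B * x ^ 2 - B * (x - ρ * y2) ^ 2) := by
    rw [f1, f2]
    ring
  -- `ω = y1 / b1`, `σ`
  obtain ⟨t, ht⟩ : ∃ t : ℝ, t = y2 * (2 * x - ρ * y2) / (S1 * (S1 + S2)) := ⟨_, rfl⟩
  have ht' : y2 * (2 * x - ρ * y2) = t * (S1 * (S1 + S2)) := by
    rw [ht]
    field_simp
  have hS2' : S2 = S1 * (1 + m * (B * ρ) * t) := by
    have h3 : (S2 - S1) * (S1 + S2) = m * (B * ρ) * (t * (S1 * (S1 + S2))) := by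
      rw [← ht']
      linear_combination hSd
    have h4 : (S2 - S1) * (S1 + S2) = (m * (B * ρ) * t * S1) * (S1 + S2) := by
      rw [h3]
      ring
    have h5 := mul_right_cancel₀ hSS.ne' h4
    linear_combination h5
  obtain ⟨s, hs'⟩ : ∃ s : ℝ, s = y1 / b1 := ⟨_, rfl⟩
  have hy1 : y1 = s * b1 := by
    rw [hs']
    field_simp
  have hb2' : b2 = b1 * (1 + m * (B * ρ) * s) := by
    rw [hbb, hy1]
    ring
  rw [← ht, ← hs']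
  have num2 : (b1 * q2 - b2 * q1) * (b1 * q2 + b2 * q1) =
      -(B * ρ * (b1 ^ 2 * S1 ^ 2 * (b2 / b1 + S2 / S1) * (s - t))) := by
    rw [num, hhh]
    have h6 : B * x ^ 2 - B * (x - ρ * y2) ^ 2 = B * ρ * (t * (S1 * (S1 + S2))) := by
      rw [← ht']
      ring
    have h7 : b2 / b1 = 1 + m * (B * ρ) * s := by
      rw [hb2']
      field_simp
    have h8 : S2 / S1 = 1 + m * (B * ρ) * t := by
      rw [hS2']
      field_simp
    rw [h6, h7, h8, hy1, hb2', hS2']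
    ring
  have fin : b1 / q1 - b2 / q2 =
      ((b1 * q2 - b2 * q1) * (b1 * q2 + b2 * q1)) / (q1 * q2 * (b1 * q2 + b2 * q1)) := by
    field_simp
  rw [fin, num2]
  ring

theorem c_second (B m ρ y1 y2 r x : ℝ) (h1 : 0 < cq1 (pB B m ρ y1 y2 r x))
    (h2 : 0 < cq2 (pB B m ρ y1 y2 r x)) (hx1 : 0 < x) (hx2 : 0 < x - ρ * y2) :
    x / √(cq1 (pB B m ρ y1 y2 r x)) - (x - ρ * y2) / √(cq2 (pB B m ρ y1 y2 r x)) =
      ρ * cM (pB B m ρ y1 y2 r x) := by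
  have e1 := Real.sq_sqrt h1.le
  have e2 := Real.sq_sqrt h2.le
  have k1 := Real.sqrt_pos.2 h1
  have k2 := Real.sqrt_pos.2 h2
  unfold cM
  have d1 : cb1 (pB B m ρ y1 y2 r x) = bm m r := rfl
  have d2 : cb2 (pB B m ρ y1 y2 r x) = bm m (r - B * ρ * y1) := rfl
  have d5 : cq1 (pB B m ρ y1 y2 r x) = hm m r - B * x ^ 2 := rfl
  have d6 : cq2 (pB B m ρ y1 y2 r x) = hm m (r - B * ρ * y1) - B * (x - ρ * y2) ^ 2 := rfl
  rw [d1, d2]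
  rw [d5] at e1 k1
  rw [d6] at e2 k2
  rw [d5, d6]
  have d7 : (pB B m ρ y1 y2 r x).2.2.2.1.1 = y1 := rfl
  have d8 : (pB B m ρ y1 y2 r x).2.2.2.1.2 = y2 := rfl
  have d9 : (pB B m ρ y1 y2 r x).2.2.2.2.2 = x := rfl
  have d10 : (pB B m ρ y1 y2 r x).2.2.1 = ρ := rfl
  have d11 : (pB B m ρ y1 y2 r x).2.2.2.2.1 = r := rfl
  have d12 : (pB B m ρ y1 y2 r x).2.1 = m := rfl
  have d13 : (pB B m ρ y1 y2 r x).1 = B := rfl
  rw [d7, d8, d9, d10, d11, d12, d13]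
  have hhh : hm m r - hm m (r - B * ρ * y1) =
      B * ρ * y1 * (bm m r + bm m (r - B * ρ * y1)) := by
    unfold bm hm
    ring
  generalize √(hm m r - B * x ^ 2) = q1 at *
  generalize √(hm m (r - B * ρ * y1) - B * (x - ρ * y2) ^ 2) = q2 at *
  generalize bm m r = b1 at *
  generalize bm m (r - B * ρ * y1) = b2 at *
  generalize hm m r = h1 at *
  generalize hm m (r - B * ρ * y1) = h2 at *
  generalize hx : x - ρ * y2 = x' at *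
  have hs : 0 < x * q2 + x' * q1 := by positivity
  have num : (x * q2 - x' * q1) * (x * q2 + x' * q1) = ρ * (y2 * (2 * x - ρ * y2) * h2 -
      B * x' ^ 2 * y1 * (b1 + b2)) := by
    calc (x * q2 - x' * q1) * (x * q2 + x' * q1) = x ^ 2 * q2 ^ 2 - x' ^ 2 * q1 ^ 2 := by ring
      _ = x ^ 2 * (h2 - B * x' ^ 2) - x' ^ 2 * (h1 - B * x ^ 2) := by rw [e1, e2]
      _ = (x ^ 2 - x' ^ 2) * h2 - x' ^ 2 * (h1 - h2) := by ring
      _ = _ := by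
          rw [hhh, ← hx]
          ring
  have fin : x / q1 - x' / q2 =
      ((x * q2 - x' * q1) * (x * q2 + x' * q1)) / (q1 * q2 * (x * q2 + x' * q1)) := by
    field_simp
  rw [fin, num]
  ring

/-- Mean value theorem for the difference of two square roots. -/
theorem c_mvt (m a r ya yr za zr : ℝ) (h1 : ∀ u ∈ Icc (0:ℝ) 1,
    0 < hm m (r - u * zr) - (a - u * za) ^ 2) (h2 : ∀ u ∈ Icc (0:ℝ) 1,
    0 < hm m (r - yr - u * zr) - (a - ya - u * za) ^ 2) :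
    ∃ u ∈ Icc (0:ℝ) 1,
      √(hm m r - a ^ 2) - √(hm m (r - yr) - (a - ya) ^ 2) -
        √(hm m (r - zr) - (a - za) ^ 2) + √(hm m (r - yr - zr) - (a - ya - za) ^ 2) =
      zr * (bm m (r - u * zr) / √(hm m (r - u * zr) - (a - u * za) ^ 2) -
          bm m (r - yr - u * zr) / √(hm m (r - yr - u * zr) - (a - ya - u * za) ^ 2)) -
        za * ((a - u * za) / √(hm m (r - u * zr) - (a - u * za) ^ 2) -
          (a - ya - u * za) / √(hm m (r - yr - u * zr) - (a - ya - u * za) ^ 2)) := by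
  have hd : ∀ (s t : ℝ) (u : ℝ), 0 < hm m (t - u * zr) - (s - u * za) ^ 2 →
      HasDerivAt (fun u : ℝ => √(hm m (t - u * zr) - (s - u * za) ^ 2))
        (((s - u * za) * za - bm m (t - u * zr) * zr) /
          √(hm m (t - u * zr) - (s - u * za) ^ 2)) u := by
    intro s t u hu
    have e1 : HasDerivAt (fun u : ℝ => s - u * za) (-za) u := by
      have := ((hasDerivAt_id u).mul_const za).const_sub s
      simpa using this
    have e2 : HasDerivAt (fun u : ℝ => t - u * zr) (-zr) u := by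
      have := ((hasDerivAt_id u).mul_const zr).const_sub t
      simpa using this
    have e3 : HasDerivAt (fun u : ℝ => hm m (t - u * zr) - (s - u * za) ^ 2)
        ((2 * (-zr) - m * (2 * (t - u * zr) * (-zr))) - 2 * (s - u * za) * (-za)) u := by
      have := ((e2.const_mul 2).fun_sub ((e2.fun_pow 2).const_mul m)).fun_sub (e1.fun_pow 2)
      unfold hm
      simpa using this
    have e4 := e3.sqrt hu.ne'
    have hs := Real.sqrt_pos.2 hu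
    refine e4.congr_deriv ?_
    unfold bm
    field_simp
    ring
  obtain ⟨u, hu, h⟩ := exists_hasDerivAt_eq_slope
    (fun u : ℝ => √(hm m (r - u * zr) - (a - u * za) ^ 2) -
      √(hm m (r - yr - u * zr) - (a - ya - u * za) ^ 2))
    (fun u => ((a - u * za) * za - bm m (r - u * zr) * zr) /
        √(hm m (r - u * zr) - (a - u * za) ^ 2) -
      ((a - ya - u * za) * za - bm m (r - yr - u * zr) * zr) /
        √(hm m (r - yr - u * zr) - (a - ya - u * za) ^ 2)) (zero_lt_one)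
    (fun u hu => ((hd a r u (h1 u hu)).sub (hd (a - ya) (r - yr) u
      (h2 u hu))).continuousAt.continuousWithinAt)
    (fun u hu => (hd a r u (h1 u ⟨hu.1.le, hu.2.le⟩)).sub
      (hd (a - ya) (r - yr) u (h2 u ⟨hu.1.le, hu.2.le⟩)))
  refine ⟨u, ⟨hu.1.le, hu.2.le⟩, ?_⟩
  simp only [one_mul, zero_mul, sub_zero, div_one] at h
  have : ∀ s t q : ℝ, (s * za - t * zr) / q = za * (s / q) - zr * (t / q) := by
    intro s t q
    ring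
  rw [this, this] at h
  linarith

end Pool.Agent.SDT.N1M

end -- N1M.PA

section -- N1M.PB

/-!
N1M, block M4, type N': the key lemma.
-/

namespace Pool.Agent.SDT.N1M

open MeasureTheory Set Metric Pool.Agent.SDT.MP_6cbfb8_an Pool.Agent.SDT.MST Pool.Agent.SDT.N1
open Pool.Agent.SDT.N1F Pool.Agent.SDT.N1G
open scoped ENNReal Real ContDiff

/-- The base point. -/
def p0C (m0 : ℝ) (x0 y0 : ℝ × ℝ) : PB := (0, m0, 0, y0.swap, x0.swap)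

/-- The parameters of a pair. -/
def pS (m al ρ : ℝ) (s : YX) : PB := pB (al ^ 2) m ρ s.1.1 s.1.2 s.2.1 s.2.2

/-- The pair at the point `x - u z`. -/
def sU (q : V × V) (u : ℝ) : YX :=
  ((q.1.1, q.2.1), (q.1.2.1 - u * q.1.2.2, q.2.2.1 - u * q.2.2.2))

theorem sU_zero (q : V × V) : sU q 0 = px q := by
  simp [sU, px]

theorem sU_one (q : V × V) : sU q 1 = pz q := by
  simp [sU, pz]

theorem cN_pS (m al ρ : ℝ) (s : YX) : cN (pS m al ρ s) = nn (omP m) (sgP m al ρ) s := rfl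

theorem Sm_mono {al m m0 δ δ' : ℝ} (h : δ ≤ δ') (hs : Sm al m m0 δ) : Sm al m m0 δ' := by
  obtain ⟨s1, s2, s3, s4, s5⟩ := hs
  exact ⟨s1, s2.trans_le h, s3, s4, s5.trans_le h⟩

theorem Bx_mono' {δ δ' : ℝ} {x0 y0 : ℝ × ℝ} {s : YX} (h : δ ≤ δ') (hs : Bx δ x0 y0 s) :
    Bx δ' x0 y0 s := by
  obtain ⟨s1, s2, s3, s4⟩ := hs
  exact ⟨s1.trans h, s2.trans h, s3.trans h, s4.trans h⟩

theorem NbG_mono' {δ δ' : ℝ} {x0 y0 : ℝ × ℝ} {q : V × V} (h : δ ≤ δ') (hq : NbG δ x0 y0 q) :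
    NbG δ' x0 y0 q := by
  obtain ⟨s1, s2, s3, s4⟩ := hq
  exact ⟨Bx_mono' h s1, Bx_mono' h s2, s3.trans h, s4.trans h⟩

theorem NbG_seg {δ : ℝ} {x0 y0 : ℝ × ℝ} {q : V × V} (hq : NbG δ x0 y0 q) {u : ℝ}
    (hu : u ∈ Icc (0:ℝ) 1) : Bx δ x0 y0 (sU q u) := by
  obtain ⟨⟨a1, a2, a3, a4⟩, ⟨b1, b2, b3, b4⟩, -, -⟩ := hq
  have key : ∀ s z x : ℝ, |s - x| ≤ δ → |s - z - x| ≤ δ → |s - u * z - x| ≤ δ := by
    intro s z x h1 h2
    obtain ⟨h1a, h1b⟩ := abs_le.1 h1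
    obtain ⟨h2a, h2b⟩ := abs_le.1 h2
    have e : s - u * z - x = (1 - u) * (s - x) + u * (s - z - x) := by ring
    rw [e, abs_le]
    have hu1 : 0 ≤ 1 - u := by linarith [hu.2]
    have hu0 := hu.1
    constructor
    · nlinarith [mul_le_mul_of_nonneg_left h1a hu1, mul_le_mul_of_nonneg_left h2a hu0]
    · nlinarith [mul_le_mul_of_nonneg_left h1b hu1, mul_le_mul_of_nonneg_left h2b hu0]
  exact ⟨a1, a2, key _ _ _ a3 b3, key _ _ _ a4 b4⟩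

theorem near_B (m0 : ℝ) (x0 y0 : ℝ × ℝ) (f : PB → ℝ) (hf : ContinuousAt f (p0C m0 x0 y0))
    {ε : ℝ} (hε : 0 < ε) : ∃ δ : ℝ, 0 < δ ∧ δ ≤ 1 ∧ ∀ al m ρ : ℝ, Sm al m m0 δ → 0 < ρ → ρ < δ →
      ∀ s, Bx δ x0.swap y0.swap s → |f (pS m al ρ s) - f (p0C m0 x0 y0)| < ε := by
  obtain ⟨d, hd, h⟩ := near_PB f _ hf hε
  refine ⟨min d 1, by positivity, min_le_right _ _, fun al m ρ hs hρ hρδ s hq => ?_⟩
  obtain ⟨s1, s2, s3, s4, s5⟩ := hs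
  obtain ⟨n1, n2, n3, n4⟩ := hq
  have hd1 := min_le_left d 1
  have hd2 := min_le_right d 1
  have hal : al ^ 2 ≤ d := by
    have : al ^ 2 ≤ al := by nlinarith
    linarith
  unfold pS
  apply h
  · change |al ^ 2 - 0| ≤ 2 * d
    rw [sub_zero, abs_of_nonneg (sq_nonneg al)]
    linarith
  · exact s5.le.trans (by linarith)
  · change |ρ - 0| ≤ 2 * d
    rw [sub_zero, abs_of_pos hρ]
    linarith
  · exact n1.trans (by linarith)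
  · exact n2.trans (by linarith)
  · exact n3.trans (by linarith)
  · exact n4.trans (by linarith)

theorem cont_cq1 (p : PB) : ContinuousAt cq1 p := by
  unfold cq1 hm
  fun_prop

theorem cont_cq2 (p : PB) : ContinuousAt cq2 p := by
  unfold cq2 hm
  fun_prop

theorem cont_cb1 (p : PB) : ContinuousAt cb1 p := by
  unfold cb1 bm
  fun_prop

theorem cont_cb2 (p : PB) : ContinuousAt cb2 p := by
  unfold cb2 bm
  fun_prop

theorem cont_cS1 (p : PB) : ContinuousAt cS1 p := by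
  unfold cS1
  fun_prop

theorem cont_cS2 (p : PB) : ContinuousAt cS2 p := by
  unfold cS2
  fun_prop

section

variable {m0 : ℝ} {x0 y0 : ℝ × ℝ}

theorem base_cq1 : cq1 (p0C m0 x0 y0) = hm m0 x0.2 := by
  unfold cq1 p0C
  simp

theorem base_cq2 : cq2 (p0C m0 x0 y0) = hm m0 x0.2 := by
  unfold cq2 p0C
  simp

theorem base_cb1 : cb1 (p0C m0 x0 y0) = bm m0 x0.2 := rfl

theorem base_cb2 : cb2 (p0C m0 x0 y0) = bm m0 x0.2 := by
  unfold cb2 p0C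
  simp

theorem base_cS1 : cS1 (p0C m0 x0 y0) = 1 := by
  unfold cS1 p0C
  simp

theorem base_cS2 : cS2 (p0C m0 x0 y0) = 1 := by
  unfold cS2 p0C
  simp

theorem base_cN : cN (p0C m0 x0 y0) = nn (omP m0) (sgP m0 0 0) (y0.swap, x0.swap) := by
  unfold cN nn omP sgP
  rw [base_cS1, base_cS2, base_cb1]
  have h : ∀ X : ℝ, Sm2 m0 0 X = 1 := by
    intro X
    unfold Sm2
    simp
  rw [h, h]
  rfl

theorem cont_cN (hb : Bm m0 x0) : ContinuousAt cN (p0C m0 x0 y0) := by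
  obtain ⟨h1, h2, h3, h4, h5, h6, h7⟩ := hb
  unfold cN
  refine ContinuousAt.sub ?_ ?_
  · refine ContinuousAt.div (by fun_prop) (cont_cb1 _) ?_
    rw [base_cb1]
    linarith
  · refine ContinuousAt.div (by fun_prop) ((cont_cS1 _).mul ((cont_cS1 _).add (cont_cS2 _))) ?_
    rw [base_cS1, base_cS2]
    norm_num

theorem cont_cL (hb : Bm m0 x0) : ContinuousAt cL (p0C m0 x0 y0) := by
  obtain ⟨h1, h2, h3, h4, h5, h6, h7⟩ := hb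
  have hs : 0 < √(hm m0 x0.2) := Real.sqrt_pos.2 (by linarith)
  have s1 : ContinuousAt (fun p => √(cq1 p)) (p0C m0 x0 y0) := (cont_cq1 _).sqrt
  have s2 : ContinuousAt (fun p => √(cq2 p)) (p0C m0 x0 y0) := (cont_cq2 _).sqrt
  unfold cL
  refine ContinuousAt.div (((((cont_cb1 _).pow 2).mul ((cont_cS1 _).pow 2))).mul
    (((cont_cb2 _).div (cont_cb1 _) ?_).add ((cont_cS2 _).div (cont_cS1 _) ?_)))
    ((s1.mul s2).mul (((cont_cb1 _).mul s2).add ((cont_cb2 _).mul s1))) ?_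
  · rw [base_cb1]
    linarith
  · rw [base_cS1]
    norm_num
  · rw [base_cb1, base_cb2, base_cq1, base_cq2]
    have : 0 < bm m0 x0.2 := by linarith
    positivity

theorem base_cL (hb : Bm m0 x0) : 0 < cL (p0C m0 x0 y0) := by
  obtain ⟨h1, h2, h3, h4, h5, h6, h7⟩ := hb
  have hs : 0 < √(hm m0 x0.2) := Real.sqrt_pos.2 (by linarith)
  have : 0 < bm m0 x0.2 := by linarith
  unfold cL
  rw [base_cb1, base_cb2, base_cq1, base_cq2, base_cS1, base_cS2]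
  positivity

theorem cont_cM (hb : Bm m0 x0) : ContinuousAt cM (p0C m0 x0 y0) := by
  obtain ⟨h1, h2, h3, h4, h5, h6, h7⟩ := hb
  have hs : 0 < √(hm m0 x0.2) := Real.sqrt_pos.2 (by linarith)
  have s1 : ContinuousAt (fun p => √(cq1 p)) (p0C m0 x0 y0) := (cont_cq1 _).sqrt
  have s2 : ContinuousAt (fun p => √(cq2 p)) (p0C m0 x0 y0) := (cont_cq2 _).sqrt
  have t1 : ContinuousAt (fun p : PB => p.2.2.2.1.2 * (2 * p.2.2.2.2.2 - p.2.2.1 * p.2.2.2.1.2) *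
      hm p.2.1 (p.2.2.2.2.1 - p.1 * p.2.2.1 * p.2.2.2.1.1)) (p0C m0 x0 y0) := by
    unfold hm
    fun_prop
  have t2 : ContinuousAt (fun p : PB => p.1 * (p.2.2.2.2.2 - p.2.2.1 * p.2.2.2.1.2) ^ 2 *
      p.2.2.2.1.1) (p0C m0 x0 y0) := by
    fun_prop
  have t3 : ContinuousAt (fun p : PB => p.2.2.2.2.2) (p0C m0 x0 y0) := by fun_prop
  have t4 : ContinuousAt (fun p : PB => p.2.2.2.2.2 - p.2.2.1 * p.2.2.2.1.2) (p0C m0 x0 y0) := by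
    fun_prop
  unfold cM
  refine ContinuousAt.div (t1.sub (t2.mul ((cont_cb1 _).add (cont_cb2 _))))
    ((s1.mul s2).mul ((t3.mul s2).add (t4.mul s1))) ?_
  rw [base_cq1, base_cq2]
  have e1 : (p0C m0 x0 y0).2.2.2.2.2 = x0.1 := rfl
  have e2 : (p0C m0 x0 y0).2.2.1 = 0 := rfl
  rw [e1, e2]
  have : x0.1 * √(hm m0 x0.2) + (x0.1 - 0 * (p0C m0 x0 y0).2.2.2.1.2) * √(hm m0 x0.2) =
      2 * (x0.1 * √(hm m0 x0.2)) := by ring
  rw [this]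
  positivity

theorem base_cM (hb : Bm m0 x0) (hy : y0.1 ≠ 0) : cM (p0C m0 x0 y0) ≠ 0 := by
  obtain ⟨h1, h2, h3, h4, h5, h6, h7⟩ := hb
  have hh : 0 < hm m0 x0.2 := by linarith
  have hs : 0 < √(hm m0 x0.2) := Real.sqrt_pos.2 hh
  unfold cM
  rw [base_cb1, base_cb2, base_cq1, base_cq2]
  have e1 : (p0C m0 x0 y0).2.2.2.2.2 = x0.1 := rfl
  have e2 : (p0C m0 x0 y0).2.2.1 = 0 := rfl
  have e3 : (p0C m0 x0 y0).1 = 0 := rfl
  have e4 : (p0C m0 x0 y0).2.1 = m0 := rfl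
  have e5 : (p0C m0 x0 y0).2.2.2.1.2 = y0.1 := rfl
  have e6 : (p0C m0 x0 y0).2.2.2.2.1 = x0.2 := rfl
  rw [e1, e2, e3, e4, e5, e6]
  simp only [mul_zero, zero_mul, sub_zero]
  positivity

end

end Pool.Agent.SDT.N1M

end -- N1M.PB

section -- N1Q.Aff

/-!
N1Q, block QS: affine change of variables; rescaling of a cell.
-/

namespace Pool.Agent.SDT.N1Q

open MeasureTheory Set Metric Pool.Agent.SDT.MP_6cbfb8_an Pool.Agent.SDT.MST Pool.Agent.SDT.N1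
open Pool.Agent.SDT.N1F Pool.Agent.SDT.N1G Pool.Agent.SDT.N1M
open scoped ENNReal Real ContDiff

lemma qs_lint (f : ℝ × ℝ → ℝ≥0∞) (y0 : ℝ × ℝ) (a b : ℝ) (ha : 0 < a) (hb : 0 < b) :
    ∫⁻ y : ℝ × ℝ, f y = ENNReal.ofReal (a * b) *
      ∫⁻ y : ℝ × ℝ, f (y0.1 + a * y.1, y0.2 + b * y.2) := by
  rw [← lintegral_add_left_eq_self f y0, lint_s2 (fun y => f (y0 + y)) a b ha hb]
  rfl

lemma qs_int (f : ℝ × ℝ → ℂ) (y0 : ℝ × ℝ) (a b : ℝ) (ha : 0 < a) (hb : 0 < b) :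
    ∫ y : ℝ × ℝ, f y = ((a * b : ℝ) : ℂ) *
      ∫ y : ℝ × ℝ, f (y0.1 + a * y.1, y0.2 + b * y.2) := by
  rw [← integral_add_left_eq_self f y0, int_s2 (fun y => f (y0 + y)) a b ha hb]
  rfl

/-- Affine change of variables and change of the time scale in a positive form. -/
theorem Thg_aff (φ w : YX → ℝ) (T : ℝ) (M : YX → ℂ) (r1 r2 s1 s2 lam k : ℝ) (y0 x0 : ℝ × ℝ)
    (hr1 : 0 < r1) (hr2 : 0 < r2) (hs1 : 0 < s1) (hs2 : 0 < s2) (hl : 0 < lam) (hk : 0 < k) :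
    Thg φ w T M = ENNReal.ofReal (r1 * r2 * (s1 * s2) ^ 2 * k ^ 2 / lam) *
      Thg (fun p => φ ((y0.1 + r1 * p.1.1, y0.2 + r2 * p.1.2),
        (x0.1 + s1 * p.2.1, x0.2 + s2 * p.2.2)) / lam)
      (fun p => w ((y0.1 + r1 * p.1.1, y0.2 + r2 * p.1.2),
        (x0.1 + s1 * p.2.1, x0.2 + s2 * p.2.2)) / k) (lam * T)
      (fun p => M ((y0.1 + r1 * p.1.1, y0.2 + r2 * p.1.2),
        (x0.1 + s1 * p.2.1, x0.2 + s2 * p.2.2))) := by
  unfold Thg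
  rw [qs_lint _ y0 r1 r2 hr1 hr2]
  have key : ∀ y : ℝ × ℝ, ∫⁻ t : ℝ, ENNReal.ofReal (chi (t / T)) *
      ‖Hyg φ w M (y0.1 + r1 * y.1, y0.2 + r2 * y.2) t‖ₑ ^ 2 =
      ENNReal.ofReal ((s1 * s2) ^ 2 * k ^ 2 / lam) *
      ∫⁻ t : ℝ, ENNReal.ofReal (chi (t / (lam * T))) *
        ‖Hyg (fun p => φ ((y0.1 + r1 * p.1.1, y0.2 + r2 * p.1.2),
            (x0.1 + s1 * p.2.1, x0.2 + s2 * p.2.2)) / lam)
          (fun p => w ((y0.1 + r1 * p.1.1, y0.2 + r2 * p.1.2),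
            (x0.1 + s1 * p.2.1, x0.2 + s2 * p.2.2)) / k)
          (fun p => M ((y0.1 + r1 * p.1.1, y0.2 + r2 * p.1.2),
            (x0.1 + s1 * p.2.1, x0.2 + s2 * p.2.2))) y t‖ₑ ^ 2 := by
    intro y
    rw [lint_s1 _ lam⁻¹ (by positivity)]
    have h1 : ∀ t : ℝ, ENNReal.ofReal (chi (lam⁻¹ * t / T)) *
        ‖Hyg φ w M (y0.1 + r1 * y.1, y0.2 + r2 * y.2) (lam⁻¹ * t)‖ₑ ^ 2 =
        ENNReal.ofReal ((s1 * s2) ^ 2 * k ^ 2) *
        (ENNReal.ofReal (chi (t / (lam * T))) *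
          ‖Hyg (fun p => φ ((y0.1 + r1 * p.1.1, y0.2 + r2 * p.1.2),
            (x0.1 + s1 * p.2.1, x0.2 + s2 * p.2.2)) / lam)
          (fun p => w ((y0.1 + r1 * p.1.1, y0.2 + r2 * p.1.2),
            (x0.1 + s1 * p.2.1, x0.2 + s2 * p.2.2)) / k)
          (fun p => M ((y0.1 + r1 * p.1.1, y0.2 + r2 * p.1.2),
            (x0.1 + s1 * p.2.1, x0.2 + s2 * p.2.2))) y t‖ₑ ^ 2) := by
      intro t
      have e1 : lam⁻¹ * t / T = t / (lam * T) := by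
        field_simp
      have e2 : Hyg φ w M (y0.1 + r1 * y.1, y0.2 + r2 * y.2) (lam⁻¹ * t) =
          ((s1 * s2 * k : ℝ) : ℂ) *
          Hyg (fun p => φ ((y0.1 + r1 * p.1.1, y0.2 + r2 * p.1.2),
            (x0.1 + s1 * p.2.1, x0.2 + s2 * p.2.2)) / lam)
          (fun p => w ((y0.1 + r1 * p.1.1, y0.2 + r2 * p.1.2),
            (x0.1 + s1 * p.2.1, x0.2 + s2 * p.2.2)) / k)
          (fun p => M ((y0.1 + r1 * p.1.1, y0.2 + r2 * p.1.2),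
            (x0.1 + s1 * p.2.1, x0.2 + s2 * p.2.2))) y t := by
        unfold Hyg
        rw [qs_int _ x0 s1 s2 hs1 hs2]
        have hk' : ((k : ℝ) : ℂ) ≠ 0 := by exact_mod_cast hk.ne'
        rw [show ((s1 * s2 * k : ℝ) : ℂ) = ((s1 * s2 : ℝ) : ℂ) * ((k : ℝ) : ℂ) by push_cast; ring,
          mul_assoc, ← integral_const_mul ((k : ℝ) : ℂ)]
        congr 1
        refine integral_congr_ae (Filter.Eventually.of_forall fun x => ?_)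
        simp only
        have e3 : lam⁻¹ * t * φ ((y0.1 + r1 * y.1, y0.2 + r2 * y.2),
            (x0.1 + s1 * x.1, x0.2 + s2 * x.2)) = t * (φ ((y0.1 + r1 * y.1, y0.2 + r2 * y.2),
            (x0.1 + s1 * x.1, x0.2 + s2 * x.2)) / lam) := by
          rw [inv_mul_eq_div]
          ring
        rw [e3, Complex.ofReal_div]
        field_simp
      rw [e1, e2, enorm_mul, mul_pow]
      have e3 : ‖((s1 * s2 * k : ℝ) : ℂ)‖ₑ ^ 2 = ENNReal.ofReal ((s1 * s2) ^ 2 * k ^ 2) := by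
        rw [← ofReal_norm, Complex.norm_real, Real.norm_eq_abs, abs_of_pos (by positivity),
          ← ENNReal.ofReal_pow (by positivity)]
        congr 1
        ring
      rw [e3]
      ring
    simp only [h1]
    rw [lintegral_const_mul' _ _ ENNReal.ofReal_ne_top, ← mul_assoc,
      ← ENNReal.ofReal_mul (by positivity)]
    congr 2
    rw [inv_mul_eq_div]
  simp only [key]
  rw [lintegral_const_mul' _ _ ENNReal.ofReal_ne_top, ← mul_assoc,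
    ← ENNReal.ofReal_mul (by positivity)]
  congr 2
  ring

/-! ### The cells -/

lemma qs_K (ν m : ℝ) (hν : 0 < ν) (c X : ℝ × ℝ) :
    hm m (c.2 + ν ^ 2 * X.2) - (c.1 + ν ^ 2 * X.1) ^ 2 =
      ν ^ 2 * KE m ((hm m c.2 - c.1 ^ 2) / ν ^ 2) (-c.1) (bm m c.2) (ν ^ 2) X := by
  unfold KE hm bm
  field_simp
  ring

lemma qs_Sq (ν K : ℝ) (hν : 0 < ν) : Sq ν (ν ^ 2 * K) = ν * Sq 1 K := by
  unfold Sq
  have h1 : √(ν ^ 2 * K) = ν * √K := by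
    rw [Real.sqrt_mul (by positivity), Real.sqrt_sq hν.le]
  have h2 : (16 * (ν ^ 2 * K) - ν ^ 2) / ν ^ 2 = (16 * K - 1 ^ 2) / 1 ^ 2 := by
    field_simp
  rw [h1, h2]
  ring

lemma qs_sma (ν K : ℝ) (hν : 0 < ν) :
    sma ν (ν ^ 2 * K) - sma (2 * ν) (ν ^ 2 * K) = w1 K / ν := by
  unfold w1 sma smb
  have h1 : √(ν ^ 2 * K) = ν * √K := by
    rw [Real.sqrt_mul (by positivity), Real.sqrt_sq hν.le]
  have h2 : (2 * (ν * √K) - ν) / ν = (2 * √K - 1) / 1 := by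
    field_simp
  have h3 : (2 * (ν * √K) - 2 * ν) / (2 * ν) = (2 * √K - 2) / 2 := by
    field_simp
  rw [h1, h2, h3, ← sub_div, ← sub_div, div_div, mul_comm (√K) ν]

lemma qs_phase (ν m : ℝ) (hν : 0 < ν) (c X : ℝ × ℝ) :
    qm ν m (c.1 + ν ^ 2 * X.1, c.2 + ν ^ 2 * X.2) =
      ν * qE m ((hm m c.2 - c.1 ^ 2) / ν ^ 2) (-c.1) (bm m c.2) ν X := by
  unfold qm qE
  simp only
  rw [qs_K ν m hν c X, qs_Sq _ _ hν]

lemma qs_amp (ν m : ℝ) (hν : 0 < ν) (c X : ℝ × ℝ) (h1 : |X.1| ≤ 1) (h2 : |X.2| ≤ 1)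
    (h3 : 0 ≤ c.2 + ν ^ 2 * X.2 ∧ c.2 + ν ^ 2 * X.2 ≤ 8) :
    wn ν m (c.1 + ν ^ 2 * X.1, c.2 + ν ^ 2 * X.2) =
      wE m ((hm m c.2 - c.1 ^ 2) / ν ^ 2) (-c.1) (bm m c.2) ν X / ν := by
  unfold wn wE
  simp only
  rw [if_pos h3, if_pos ⟨h1, h2⟩, qs_K ν m hν c X, qs_sma _ _ hν]

theorem cell_scale (ν m T : ℝ) (hν : 0 < ν) (hν1 : ν ≤ 1 / 4) (hm0 : 0 ≤ m) (hm1 : m ≤ 1) (hT : 0 < T)
    (c : ℝ × ℝ) (hc1 : 0 ≤ c.1) (hc2 : Rg m c.2) (G₁ G₂ : ℝ → ℂ)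
    (h1 : ∀ a, G₁ a ≠ 0 → |a - c.1| ≤ ν ^ 2) (h2 : ∀ b, G₂ b ≠ 0 → |b - c.2| ≤ ν ^ 2 ∧ Rg m b) :
    TN ν m T (pd (da G₁) (da G₂)) ≤ ENNReal.ofReal (ν ^ 7) *
      TE m ((hm m c.2 - c.1 ^ 2) / ν ^ 2) (-c.1) (bm m c.2) ν (ν * T)
        (pd (da fun X => G₁ (c.1 + ν ^ 2 * X)) (da fun X => G₂ (c.2 + ν ^ 2 * X))) := by
  have hν2 : 0 < ν ^ 2 := by positivity
  unfold TN TE
  rw [Thg_aff (dif (qm ν m)) (dam (wn ν m)) T (pd (da G₁) (da G₂)) (ν ^ 2) (ν ^ 2) (ν ^ 2) (ν ^ 2)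
    ν ((1 / ν) ^ 2) 0 c hν2 hν2 hν2 hν2 hν (by positivity)]
  have e1 : ν ^ 2 * ν ^ 2 * (ν ^ 2 * ν ^ 2) ^ 2 * ((1 / ν) ^ 2) ^ 2 / ν = ν ^ 7 := by
    field_simp
  rw [e1]
  refine le_of_eq ?_
  congr 1
  -- the densities
  have e2 : (fun p : YX => pd (da G₁) (da G₂) (((0 : ℝ × ℝ).1 + ν ^ 2 * p.1.1,
      (0 : ℝ × ℝ).2 + ν ^ 2 * p.1.2), (c.1 + ν ^ 2 * p.2.1, c.2 + ν ^ 2 * p.2.2))) =
      pd (da fun X => G₁ (c.1 + ν ^ 2 * X)) (da fun X => G₂ (c.2 + ν ^ 2 * X)) := by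
    funext p
    unfold pd da
    simp only [Prod.fst_zero, Prod.snd_zero, zero_add]
    rw [show c.1 + ν ^ 2 * p.2.1 - ν ^ 2 * p.1.1 = c.1 + ν ^ 2 * (p.2.1 - p.1.1) by ring,
      show c.2 + ν ^ 2 * p.2.2 - ν ^ 2 * p.1.2 = c.2 + ν ^ 2 * (p.2.2 - p.1.2) by ring]
  rw [e2]
  refine Thg_congr _ _ _ _ _ _ ?_
  intro p hp
  unfold pd da at hp
  obtain ⟨g1, g2⟩ := mul_ne_zero_iff.1 hp
  obtain ⟨a1, a2⟩ := mul_ne_zero_iff.1 g1
  obtain ⟨b1, b2⟩ := mul_ne_zero_iff.1 g2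
  have a2' : G₁ (c.1 + ν ^ 2 * (p.2.1 - p.1.1)) ≠ 0 := fun h => a2 (by simp only [h, map_zero])
  have b2' : G₂ (c.2 + ν ^ 2 * (p.2.2 - p.1.2)) ≠ 0 := fun h => b2 (by simp only [h, map_zero])
  have small : ∀ {x t : ℝ}, |x + ν ^ 2 * t - x| ≤ ν ^ 2 → |t| ≤ 1 := by
    intro x t h
    rw [add_sub_cancel_left, abs_mul, abs_of_pos hν2] at h
    exact le_of_mul_le_mul_left (by linarith) hν2
  have A1 := small (h1 _ a1)
  have A2 := small (h1 _ a2')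
  obtain ⟨B1, B1'⟩ := h2 _ b1
  obtain ⟨B2, B2'⟩ := h2 _ b2'
  have B1 := small B1
  have B2 := small B2
  have r1 : 0 ≤ c.2 + ν ^ 2 * p.2.2 ∧ c.2 + ν ^ 2 * p.2.2 ≤ 8 :=
    ⟨B1'.1.le, by linarith [B1'.2.1]⟩
  have r2 : 0 ≤ c.2 + ν ^ 2 * (p.2.2 - p.1.2) ∧ c.2 + ν ^ 2 * (p.2.2 - p.1.2) ≤ 8 :=
    ⟨B2'.1.le, by linarith [B2'.2.1]⟩
  have e3 : ((c.1 + ν ^ 2 * p.2.1, c.2 + ν ^ 2 * p.2.2) : ℝ × ℝ) -
      ((0 : ℝ × ℝ).1 + ν ^ 2 * p.1.1, (0 : ℝ × ℝ).2 + ν ^ 2 * p.1.2) =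
      (c.1 + ν ^ 2 * (p.2 - p.1).1, c.2 + ν ^ 2 * (p.2 - p.1).2) := by
    simp only [Prod.fst_zero, Prod.snd_zero, zero_add, Prod.mk_sub_mk, Prod.fst_sub, Prod.snd_sub,
      Prod.mk.injEq]
    constructor <;> ring
  constructor
  · unfold dif
    simp only
    rw [e3, qs_phase ν m hν c p.2, qs_phase ν m hν c (p.2 - p.1), ← mul_sub,
      mul_div_cancel_left₀ _ hν.ne']
  · unfold dam
    simp only
    rw [e3, qs_amp ν m hν c p.2 A1 B1 r1, qs_amp ν m hν c (p.2 - p.1) A2 B2 r2]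
    field_simp

end Pool.Agent.SDT.N1Q

end -- N1Q.Aff
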