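import Pool.Agent.SDT.B17
import Pool.Agent.SDT.B22

set_option autoImplicit false

namespace Pool.Agent.SDT.MP_6cbfb8_an
end Pool.Agent.SDT.MP_6cbfb8_an
namespace Pool.Agent.SDT.MST
end Pool.Agent.SDT.MST
namespace Pool.Agent.SDT.N1
end Pool.Agent.SDT.N1
namespace Pool.Agent.SDT.N1F
end Pool.Agent.SDT.N1F
namespace Pool.Agent.SDT.N1G
end Pool.Agent.SDT.N1G
namespace Pool.Agent.SDT.N1M
end Pool.Agent.SDT.N1M

section -- N1M.S3b

/-!
N1M, S3, part 2: the elementary estimate for directions near the axes, uniform in `m`.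
-/

namespace Pool.Agent.SDT.N1M

open MeasureTheory Set Metric Pool.Agent.SDT.MP_6cbfb8_an Pool.Agent.SDT.MST Pool.Agent.SDT.N1
open Pool.Agent.SDT.N1F Pool.Agent.SDT.N1G
open scoped ENNReal Real ContDiff

/-- The region of the corner. -/
def DM (c c' m a r : ℝ) : Prop :=
  c' ≤ a ∧ 0 < r ∧ r ≤ 4 ∧ 1 / 4 ≤ hm m r ∧ 1 / 2 ≤ bm m r ∧ c ^ 2 / 4 ≤ hm m r - a ^ 2

theorem DM_seg {c c' m a r a' r' u : ℝ} (hm0 : 0 ≤ m) (hu0 : 0 ≤ u) (hu1 : u ≤ 1)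
    (h : DM c c' m a r) (h' : DM c c' m a' r') :
    DM c c' m ((1 - u) * a + u * a') ((1 - u) * r + u * r') := by
  obtain ⟨h1, h2, h3, h4, h5, h6⟩ := h
  obtain ⟨k1, k2, k3, k4, k5, k6⟩ := h'
  have hv : 0 ≤ 1 - u := by linarith
  have e1 : hm m ((1 - u) * r + u * r') = (1 - u) * hm m r + u * hm m r' +
      m * (u * (1 - u) * (r - r') ^ 2) := by
    unfold hm
    ring
  have e2 : bm m ((1 - u) * r + u * r') = (1 - u) * bm m r + u * bm m r' := by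
    unfold bm
    ring
  have e3 : ((1 - u) * a + u * a') ^ 2 = (1 - u) * a ^ 2 + u * a' ^ 2 -
      u * (1 - u) * (a - a') ^ 2 := by ring
  have p1 : 0 ≤ m * (u * (1 - u) * (r - r') ^ 2) := by positivity
  have p2 : 0 ≤ u * (1 - u) * (a - a') ^ 2 := by positivity
  refine ⟨?_, ?_, ?_, ?_, ?_, ?_⟩
  · nlinarith
  · rcases hu0.lt_or_eq with h0 | h0
    · have : 0 ≤ (1 - u) * r := mul_nonneg hv h2.le
      have : 0 < u * r' := mul_pos h0 k2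
      linarith
    · rw [← h0]
      linarith
  · nlinarith
  · rw [e1]
    nlinarith
  · rw [e2]
    nlinarith
  · rw [e1, e3]
    nlinarith

/-- Four corners in the region. -/
def C4 (c c' m : ℝ) (q : V × V) : Prop :=
  DM c c' m q.1.2.1 q.2.2.1 ∧ DM c c' m (q.1.2.1 - q.1.1) (q.2.2.1 - q.2.1) ∧
    DM c c' m (q.1.2.1 - q.1.2.2) (q.2.2.1 - q.2.2.2) ∧
    DM c c' m (q.1.2.1 - q.1.1 - q.1.2.2) (q.2.2.1 - q.2.1 - q.2.2.2)

theorem C4_mem {c c' m : ℝ} {q : V × V} (hm0 : 0 ≤ m) (h : C4 c c' m q) {s t : ℝ} (hs0 : 0 ≤ s)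
    (hs1 : s ≤ 1) (ht0 : 0 ≤ t) (ht1 : t ≤ 1) :
    DM c c' m (q.1.2.1 - s * q.1.1 - t * q.1.2.2) (q.2.2.1 - s * q.2.1 - t * q.2.2.2) := by
  obtain ⟨h1, h2, h3, h4⟩ := h
  have k1 := DM_seg hm0 hs0 hs1 h1 h2
  have k2 := DM_seg hm0 hs0 hs1 h3 h4
  have k3 := DM_seg hm0 ht0 ht1 k1 k2
  convert k3 using 1 <;> ring

/-- The coefficient form of the second derivative. -/
def bil (A E B : ℝ) (q : V × V) : ℝ :=
  -(A * (q.1.1 * q.1.2.2)) + E * (q.1.1 * q.2.2.2 + q.2.1 * q.1.2.2) - B * (q.2.1 * q.2.2.2)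

/-- The mixed mean value theorem for the phase of a rectangle. -/
theorem s3_mvt {c c' m : ℝ} (hc : 0 < c) (hm0 : 0 ≤ m) {q : V × V} (h : C4 c c' m q) :
    ∃ a r : ℝ, DM c c' m a r ∧ FrM c m q =
      bil (hm m r) (a * bm m r) (1 - m * a ^ 2) q / √(hm m r - a ^ 2) ^ 3 := by
  set y1 := q.1.1 with hy1
  set a := q.1.2.1 with ha
  set z1 := q.1.2.2 with hz1
  set y2 := q.2.1 with hy2
  set r := q.2.2.1 with hr
  set z2 := q.2.2.2 with hz2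
  have hc2 : 0 < c ^ 2 := by positivity
  -- the functions
  set A : ℝ → ℝ → ℝ := fun s t => a - s * y1 - t * z1 with hA
  set Rr : ℝ → ℝ → ℝ := fun s t => r - s * y2 - t * z2 with hRr
  set P : ℝ → ℝ → ℝ := fun s t => hm m (Rr s t) - A s t ^ 2 with hP
  have hD : ∀ s t : ℝ, 0 ≤ s → s ≤ 1 → 0 ≤ t → t ≤ 1 → DM c c' m (A s t) (Rr s t) :=
    fun s t h1 h2 h3 h4 => C4_mem hm0 h h1 h2 h3 h4
  have hP0 : ∀ s t : ℝ, 0 ≤ s → s ≤ 1 → 0 ≤ t → t ≤ 1 → 0 < P s t := by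
    intro s t h1 h2 h3 h4
    have := (hD s t h1 h2 h3 h4).2.2.2.2.2
    show 0 < hm m (Rr s t) - A s t ^ 2
    linarith
  -- derivatives
  have dAt : ∀ s t : ℝ, HasDerivAt (fun t => A s t) (-z1) t := by
    intro s t
    have h := ((hasDerivAt_id t).mul_const z1).const_sub (a - s * y1)
    exact h.congr_deriv (by ring)
  have dAs : ∀ s t : ℝ, HasDerivAt (fun s => A s t) (-y1) s := by
    intro s t
    have h := (((hasDerivAt_id s).mul_const y1).const_sub a).sub_const (t * z1)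
    exact h.congr_deriv (by ring)
  have dRt : ∀ s t : ℝ, HasDerivAt (fun t => Rr s t) (-z2) t := by
    intro s t
    have h := ((hasDerivAt_id t).mul_const z2).const_sub (r - s * y2)
    exact h.congr_deriv (by ring)
  have dRs : ∀ s t : ℝ, HasDerivAt (fun s => Rr s t) (-y2) s := by
    intro s t
    have h := (((hasDerivAt_id s).mul_const y2).const_sub r).sub_const (t * z2)
    exact h.congr_deriv (by ring)
  have dPt : ∀ s t : ℝ, HasDerivAt (fun t => P s t)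
      (2 * (z1 * A s t - z2 * bm m (Rr s t))) t := by
    intro s t
    have h1 := (((dRt s t).const_mul 2).sub (((dRt s t).pow 2).const_mul m)).sub
      ((dAt s t).pow 2)
    refine h1.congr_deriv ?_
    unfold bm
    simp only [Nat.cast_ofNat, Nat.add_one_sub_one, pow_one]
    ring
  have dPs : ∀ s t : ℝ, HasDerivAt (fun s => P s t)
      (2 * (y1 * A s t - y2 * bm m (Rr s t))) s := by
    intro s t
    have h1 := (((dRs s t).const_mul 2).sub (((dRs s t).pow 2).const_mul m)).sub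
      ((dAs s t).pow 2)
    refine h1.congr_deriv ?_
    unfold bm
    simp only [Nat.cast_ofNat, Nat.add_one_sub_one, pow_one]
    ring
  have dSt : ∀ s t : ℝ, 0 < P s t → HasDerivAt (fun t => √(P s t))
      ((z1 * A s t - z2 * bm m (Rr s t)) / √(P s t)) t := by
    intro s t hp
    have h1 := (dPt s t).sqrt hp.ne'
    refine h1.congr_deriv ?_
    have : √(P s t) ≠ 0 := (Real.sqrt_pos.2 hp).ne'
    field_simp
  have dSs : ∀ s t : ℝ, 0 < P s t → HasDerivAt (fun s => √(P s t))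
      ((y1 * A s t - y2 * bm m (Rr s t)) / √(P s t)) s := by
    intro s t hp
    have h1 := (dPs s t).sqrt hp.ne'
    refine h1.congr_deriv ?_
    have : √(P s t) ≠ 0 := (Real.sqrt_pos.2 hp).ne'
    field_simp
  -- the outer mean value theorem
  set g : ℝ → ℝ := fun t => √(P 0 t) - √(P 1 t) with hg
  set g' : ℝ → ℝ := fun t => (z1 * A 0 t - z2 * bm m (Rr 0 t)) / √(P 0 t) -
    (z1 * A 1 t - z2 * bm m (Rr 1 t)) / √(P 1 t) with hg'
  have dg : ∀ t : ℝ, 0 ≤ t → t ≤ 1 → HasDerivAt g (g' t) t := fun t h1 h2 =>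
    (dSt 0 t (hP0 0 t le_rfl zero_le_one h1 h2)).sub (dSt 1 t (hP0 1 t zero_le_one le_rfl h1 h2))
  obtain ⟨t, ht, htt⟩ := exists_hasDerivAt_eq_slope g g' zero_lt_one
    (fun t ht => (dg t ht.1 ht.2).continuousAt.continuousWithinAt)
    (fun t ht => dg t ht.1.le ht.2.le)
  -- the inner mean value theorem
  set k : ℝ → ℝ := fun s => (z1 * A s t - z2 * bm m (Rr s t)) / √(P s t) with hk
  set k' : ℝ → ℝ := fun s => ((-(z1 * y1) - z2 * (m * y2)) * √(P s t) -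
    (z1 * A s t - z2 * bm m (Rr s t)) * ((y1 * A s t - y2 * bm m (Rr s t)) / √(P s t))) /
      √(P s t) ^ 2 with hk'
  have dk : ∀ s : ℝ, 0 ≤ s → s ≤ 1 → HasDerivAt k (k' s) s := by
    intro s h1 h2
    have hp := hP0 s t h1 h2 ht.1.le ht.2.le
    have h3 : HasDerivAt (fun s => z1 * A s t - z2 * bm m (Rr s t))
        (-(z1 * y1) - z2 * (m * y2)) s := by
      have h4 := ((dAs s t).const_mul z1).sub
        ((((dRs s t).const_mul m).const_sub 1).const_mul z2)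
      refine h4.congr_deriv ?_
      ring
    exact h3.div (dSs s t hp) (Real.sqrt_pos.2 hp).ne'
  obtain ⟨s, hs, hss⟩ := exists_hasDerivAt_eq_slope k k' zero_lt_one
    (fun s hs => (dk s hs.1 hs.2).continuousAt.continuousWithinAt)
    (fun s hs => dk s hs.1.le hs.2.le)
  refine ⟨A s t, Rr s t, hD s t hs.1.le hs.2.le ht.1.le ht.2.le, ?_⟩
  have hp : 0 < P s t := hP0 s t hs.1.le hs.2.le ht.1.le ht.2.le
  have e1 : g' t = -(k 1 - k 0) := by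
    rw [hg', hk]
    ring
  have e2 : k 1 - k 0 = k' s := by
    rw [hss]
    ring
  have e3 : g 1 - g 0 = g' t := by
    rw [htt]
    ring
  have e4 : FrM c m q = g 0 - g 1 := by
    have hq : ∀ s t : ℝ, 0 ≤ s → s ≤ 1 → 0 ≤ t → t ≤ 1 →
        Sq c (hm m (Rr s t) - A s t ^ 2) = √(P s t) := by
      intro s t h1 h2 h3 h4
      refine e_Sq_eq hc ?_
      have := (hD s t h1 h2 h3 h4).2.2.2.2.2
      linarith
    have q1 := hq 0 0 le_rfl zero_le_one le_rfl zero_le_one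
    have q2 := hq 1 0 zero_le_one le_rfl le_rfl zero_le_one
    have q3 := hq 0 1 le_rfl zero_le_one zero_le_one le_rfl
    have q4 := hq 1 1 zero_le_one le_rfl zero_le_one le_rfl
    rw [hg]
    simp only
    rw [← q1, ← q2, ← q3, ← q4]
    unfold FrM Fg dif px pz qm
    simp only [Prod.fst_sub, Prod.snd_sub]
    rw [hA, hRr]
    simp only [zero_mul, one_mul, sub_zero]
    rw [show q.1.2.1 - q.1.2.2 - q.1.1 = a - y1 - z1 by ring,
      show q.2.2.1 - q.2.2.2 - q.2.1 = r - y2 - z2 by ring]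
  have e5 : FrM c m q = k' s := by
    rw [e4]
    linarith
  rw [e5, hk']
  simp only
  have hw : √(P s t) ≠ 0 := (Real.sqrt_pos.2 hp).ne'
  have hw2 : √(P s t) ^ 2 = P s t := Real.sq_sqrt hp.le
  have e6 : hm m (Rr s t) - A s t ^ 2 = P s t := rfl
  rw [e6]
  rw [div_eq_div_iff (by positivity) (by positivity)]
  have e7 : hm m (Rr s t) = √(P s t) ^ 2 + A s t ^ 2 := by
    rw [hw2]
    show hm m (Rr s t) = hm m (Rr s t) - A s t ^ 2 + A s t ^ 2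
    ring
  have e8 : 1 - m * A s t ^ 2 = m * √(P s t) ^ 2 + bm m (Rr s t) ^ 2 := by
    rw [hw2]
    show 1 - m * A s t ^ 2 = m * (hm m (Rr s t) - A s t ^ 2) + bm m (Rr s t) ^ 2
    unfold hm bm
    ring
  unfold bil
  rw [e8]
  have e9 : hm m (Rr s t) * (q.1.1 * q.1.2.2) = (√(P s t) ^ 2 + A s t ^ 2) * (y1 * z1) := by
    rw [e7]
  rw [e9]
  field_simp
  ring

end Pool.Agent.SDT.N1M

end -- N1M.S3b

section -- N1Q.AbB

/-!
N1Q, block absE: lower bound of the phase of a rectangle with non-tangential sides.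
-/

namespace Pool.Agent.SDT.N1Q

open MeasureTheory Set Metric Pool.Agent.SDT.MP_6cbfb8_an Pool.Agent.SDT.MST Pool.Agent.SDT.N1
open Pool.Agent.SDT.N1F Pool.Agent.SDT.N1G Pool.Agent.SDT.N1M
open scoped ENNReal Real ContDiff

theorem w1_ne {v : ℝ} (h : w1 v ≠ 0) : 1 / 4 ≤ v := by
  by_contra h1
  push Not at h1
  apply h
  unfold w1
  rw [f1_sma_zero 1 one_pos v (by linarith), f1_sma_zero 2 two_pos v (by linarith), sub_zero]

theorem w1_le (v : ℝ) : |w1 v| ≤ 3 := by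
  unfold w1
  have h1 := f1_sma_le 1 one_pos v
  have h2 := f1_sma_le 2 two_pos v
  have := abs_sub (sma 1 v) (sma 2 v)
  linarith

theorem wE_ne {b P g1 g2 η : ℝ} {X : ℝ × ℝ} (h : wE b P g1 g2 η X ≠ 0) :
    |X.1| ≤ 1 ∧ |X.2| ≤ 1 ∧ 1 / 4 ≤ KE b P g1 g2 (η ^ 2) X := by
  unfold wE at h
  split_ifs at h with h1
  · exact ⟨h1.1, h1.2, w1_ne h⟩
  · exact absurd rfl h

theorem wE_le (b P g1 g2 η : ℝ) (X : ℝ × ℝ) : |wE b P g1 g2 η X| ≤ 3 := by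
  unfold wE
  split_ifs with h1
  · exact w1_le _
  · norm_num

theorem KE_le {b P g1 g2 τ : ℝ} (hp : Par b g1 g2) (hP : P ≤ 8) (hτ : 0 ≤ τ) {X : ℝ × ℝ}
    (h1 : |X.1| ≤ 1) (h2 : |X.2| ≤ 1) : KE b P g1 g2 τ X ≤ 25 := by
  obtain ⟨p1, p2, p3, p4, p5, p6⟩ := hp
  unfold KE
  have a1 : 2 * g1 * X.1 ≤ 8 := by
    have := abs_le.1 h1
    nlinarith [abs_le.1 h1]
  have a2 : 2 * g2 * X.2 ≤ 4 := by
    nlinarith [abs_le.1 h2]
  have a3 : 0 ≤ τ * (X.1 ^ 2 + b * X.2 ^ 2) := by positivity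
  linarith

theorem absE_low {b P g1 g2 η : ℝ} (hp : Par b g1 g2) (hP8 : P ≤ 8) (hη : 0 < η)
    (hη0 : η ≤ 1 / 2000) (q : V × V)
    (hx1 : |q.1.2.1| ≤ 1 / 4) (hx1y : |q.1.2.1 - q.1.1| ≤ 1 / 4)
    (hx1z : |q.1.2.1 - q.1.2.2| ≤ 1 / 4)
    (hx2 : |q.2.2.1| ≤ 1 / 4) (hx2y : |q.2.2.1 - q.2.1| ≤ 1 / 4)
    (hx2z : |q.2.2.1 - q.2.2.2| ≤ 1 / 4)
    (hw : Wg (dam (wE b P g1 g2 η)) q ≠ 0)
    (hy : 2000 * η * |q.1.1| ≤ |lnE g1 g2 (q.1.1, q.2.1)|)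
    (hz : 2000 * η * |q.1.2.2| ≤ |lnE g1 g2 (q.1.2.2, q.2.2.2)|) :
    |lnE g1 g2 (q.1.1, q.2.1)| * |lnE g1 g2 (q.1.2.2, q.2.2.2)| / 1000 ≤
      |Fg (dif (qE b P g1 g2 η)) q| := by
  unfold Wg dam px pz at hw
  simp only [ne_eq, mul_eq_zero, not_or] at hw
  obtain ⟨⟨w0, w1'⟩, w2, w3⟩ := hw
  obtain ⟨a0, b0, c0⟩ := wE_ne w0
  obtain ⟨a1, b1, c1⟩ := wE_ne w1'
  obtain ⟨a2, b2, c2⟩ := wE_ne w2
  obtain ⟨a3, b3, c3⟩ := wE_ne w3
  have hτ : 0 ≤ η ^ 2 := sq_nonneg η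
  have d0 := KE_le hp hP8 hτ a0 b0
  have d1 := KE_le hp hP8 hτ a1 b1
  have d2 := KE_le hp hP8 hτ a2 b2
  have d3 := KE_le hp hP8 hτ a3 b3
  have hF : Fg (dif (qE b P g1 g2 η)) q =
      √(KE b P g1 g2 (η ^ 2) (q.1.2.1, q.2.2.1)) -
      √(KE b P g1 g2 (η ^ 2) ((q.1.2.1, q.2.2.1) - (q.1.1, q.2.1))) -
      √(KE b P g1 g2 (η ^ 2) (q.1.2.1 - q.1.2.2, q.2.2.1 - q.2.2.2)) +
      √(KE b P g1 g2 (η ^ 2) ((q.1.2.1 - q.1.2.2, q.2.2.1 - q.2.2.2) - (q.1.1, q.2.1))) := by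
    unfold Fg dif px pz qE
    simp only
    rw [e_Sq_eq one_pos (by linarith), e_Sq_eq one_pos (by linarith),
      e_Sq_eq one_pos (by linarith), e_Sq_eq one_pos (by linarith)]
    ring
  have lo : ∀ v : ℝ, 1 / 4 ≤ v → 1 / 2 ≤ √v := by
    intro v hv
    rw [show (1:ℝ) / 2 = √(1 / 4) by
      rw [show (1:ℝ) / 4 = (1 / 2) ^ 2 by norm_num, Real.sqrt_sq (by norm_num)]]
    exact Real.sqrt_le_sqrt hv
  have up : ∀ v : ℝ, v ≤ 25 → √v ≤ 5 := by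
    intro v hv
    rw [show (5:ℝ) = √25 by
      rw [show (25:ℝ) = 5 ^ 2 by norm_num, Real.sqrt_sq (by norm_num)]]
    exact Real.sqrt_le_sqrt hv
  rw [hF]
  obtain ⟨Y, hY⟩ : ∃ Y, Y = lnE g1 g2 (q.1.1, q.2.1) := ⟨_, rfl⟩
  obtain ⟨Z, hZ⟩ : ∃ Z, Z = lnE g1 g2 (q.1.2.2, q.2.2.2) := ⟨_, rfl⟩
  rw [← hY, ← hZ]
  rw [← hY] at hy
  rw [← hZ] at hz
  obtain ⟨p1, p2, p3, p4, p5, p6⟩ := hp
  -- sizes
  have size : ∀ s t L : ℝ, L = g1 * s + g2 * t → 2000 * η * |s| ≤ |L| →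
      |s| ≤ |L| / (2000 * η) ∧ |t| ≤ 20 * (|L| / (2000 * η)) := by
    intro s t L hL h
    have h1 : |s| ≤ |L| / (2000 * η) := by
      rw [le_div_iff₀ (by positivity)]
      linarith
    refine ⟨h1, ?_⟩
    have h2 : |L| ≤ |L| / (2000 * η) := by
      rw [le_div_iff₀ (by positivity)]
      exact mul_le_of_le_one_right (abs_nonneg _) (by linarith)
    have h3 : g2 * t = L - g1 * s := by linarith
    have h4 : |g2 * t| ≤ |L| + 4 * |s| := by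
      rw [h3]
      refine (abs_sub _ _).trans ?_
      rw [abs_mul]
      have : |g1| ≤ 4 := by
        rw [abs_le]
        constructor <;> linarith
      have := mul_le_mul_of_nonneg_right this (abs_nonneg s)
      linarith
    rw [abs_mul, abs_of_pos (by linarith : 0 < g2)] at h4
    have h5 : 1 / 4 * |t| ≤ g2 * |t| := mul_le_mul_of_nonneg_right p5 (abs_nonneg t)
    linarith
  obtain ⟨sy1, sy2⟩ := size q.1.1 q.2.1 Y (by rw [hY]; rfl) hy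
  obtain ⟨sz1, sz2⟩ := size q.1.2.2 q.2.2.2 Z (by rw [hZ]; rfl) hz
  obtain ⟨Y', hY'⟩ : ∃ Y', Y' = |Y| / (2000 * η) := ⟨_, rfl⟩
  obtain ⟨Z', hZ'⟩ : ∃ Z', Z' = |Z| / (2000 * η) := ⟨_, rfl⟩
  rw [← hY'] at sy1 sy2
  rw [← hZ'] at sz1 sz2
  have hYY : |Y| = 2000 * η * Y' := by
    rw [hY']
    field_simp
  have hZZ : |Z| = 2000 * η * Z' := by
    rw [hZ']
    field_simp
  have hY'0 : 0 ≤ Y' := (abs_nonneg _).trans sy1
  have hZ'0 : 0 ≤ Z' := (abs_nonneg _).trans sz1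
  -- `U` and `V`
  have hUb : ∀ (x1 x2 s t L L' : ℝ), |x1| ≤ 1 / 4 → |x1 - s| ≤ 1 / 4 → |x2| ≤ 1 / 4 →
      |x2 - t| ≤ 1 / 4 → |s| ≤ L' → |t| ≤ 20 * L' → |L| = 2000 * η * L' →
      |L| / 2 ≤ |L - η ^ 2 / 2 * (s * (2 * x1 - s) + b * (t * (2 * x2 - t)))| := by
    intro x1 x2 s t L L' i1 i2 i3 i4 i5 i6 i7
    have hL' : 0 ≤ L' := (abs_nonneg _).trans i5
    have j1 : |s * (2 * x1 - s)| ≤ L' * (1 / 2) := by
      rw [abs_mul]
      refine mul_le_mul i5 ?_ (abs_nonneg _) hL'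
      have : 2 * x1 - s = x1 + (x1 - s) := by ring
      rw [this]
      exact (abs_add_le _ _).trans (by linarith)
    have j2 : |b * (t * (2 * x2 - t))| ≤ 1 * (20 * L' * (1 / 2)) := by
      rw [abs_mul, abs_of_nonneg p1, abs_mul]
      refine mul_le_mul p2 (mul_le_mul i6 ?_ (abs_nonneg _) (by positivity)) (by positivity)
        zero_le_one
      have : 2 * x2 - t = x2 + (x2 - t) := by ring
      rw [this]
      exact (abs_add_le _ _).trans (by linarith)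
    have j3 : |η ^ 2 / 2 * (s * (2 * x1 - s) + b * (t * (2 * x2 - t)))| ≤
        η ^ 2 / 2 * (L' * (1 / 2) + 1 * (20 * L' * (1 / 2))) := by
      rw [abs_mul, abs_of_nonneg (by positivity)]
      exact mul_le_mul_of_nonneg_left ((abs_add_le _ _).trans (add_le_add j1 j2)) (by positivity)
    have j4 := abs_sub_abs_le_abs_sub L (η ^ 2 / 2 * (s * (2 * x1 - s) + b * (t * (2 * x2 - t))))
    have j5 : η ^ 2 / 2 * (L' * (1 / 2) + 1 * (20 * L' * (1 / 2))) ≤ 1000 * η * L' := by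
      have : η ^ 2 / 2 * (L' * (1 / 2) + 1 * (20 * L' * (1 / 2))) = η * L' * (21 / 4 * η) := by ring
      rw [this]
      have h6 : 0 ≤ η * L' := by positivity
      nlinarith
    linarith
  have hU := hUb q.1.2.1 q.2.2.1 q.1.1 q.2.1 Y Y' hx1 hx1y hx2 hx2y sy1 sy2 hYY
  have hV := hUb q.1.2.1 q.2.2.1 q.1.2.2 q.2.2.2 Z Z' hx1 hx1z hx2 hx2z sz1 sz2 hZZ
  obtain ⟨U, hUd⟩ : ∃ U, U = Y - η ^ 2 / 2 * (q.1.1 * (2 * q.1.2.1 - q.1.1) +
    b * (q.2.1 * (2 * q.2.2.1 - q.2.1))) := ⟨_, rfl⟩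
  obtain ⟨W, hWd⟩ : ∃ W, W = Z - η ^ 2 / 2 * (q.1.2.2 * (2 * q.1.2.1 - q.1.2.2) +
    b * (q.2.2.2 * (2 * q.2.2.1 - q.2.2.2))) := ⟨_, rfl⟩
  rw [← hUd] at hU
  rw [← hWd] at hV
  have hUV : |Y| * |Z| / 4 ≤ |U * W| := by
    rw [abs_mul]
    calc |Y| * |Z| / 4 = (|Y| / 2) * (|Z| / 2) := by ring
      _ ≤ _ := mul_le_mul hU hV (by positivity) (abs_nonneg _)
  have hD : |-(η ^ 2) * (q.1.1 * q.1.2.2 + b * (q.2.1 * q.2.2.2))| ≤ |U * W| / 1000 := by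
    rw [abs_mul, abs_neg, abs_of_nonneg hτ]
    have l1 : |q.1.1 * q.1.2.2| ≤ Y' * Z' := by
      rw [abs_mul]
      exact mul_le_mul sy1 sz1 (abs_nonneg _) hY'0
    have l2 : |b * (q.2.1 * q.2.2.2)| ≤ 1 * (20 * Y' * (20 * Z')) := by
      rw [abs_mul, abs_of_nonneg p1, abs_mul]
      exact mul_le_mul p2 (mul_le_mul sy2 sz2 (abs_nonneg _) (by positivity)) (by positivity)
        zero_le_one
    have l3 : η ^ 2 * |q.1.1 * q.1.2.2 + b * (q.2.1 * q.2.2.2)| ≤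
        η ^ 2 * (Y' * Z' + 1 * (20 * Y' * (20 * Z'))) :=
      mul_le_mul_of_nonneg_left ((abs_add_le _ _).trans (add_le_add l1 l2)) hτ
    have l4 : |Y| * |Z| / 4 = 1000000 * (η ^ 2 * (Y' * Z')) := by
      rw [hYY, hZZ]
      ring
    have l5 : 0 ≤ η ^ 2 * (Y' * Z') := by positivity
    have l6 : η ^ 2 * (Y' * Z' + 1 * (20 * Y' * (20 * Z'))) = 401 * (η ^ 2 * (Y' * Z')) := by ring
    linarith
  have s0 := Real.sq_sqrt (show 0 ≤ KE b P g1 g2 (η ^ 2) (q.1.2.1, q.2.2.1) by linarith)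
  have s1 := Real.sq_sqrt (show 0 ≤ KE b P g1 g2 (η ^ 2)
    ((q.1.2.1, q.2.2.1) - (q.1.1, q.2.1)) by linarith)
  have s2 := Real.sq_sqrt (show 0 ≤ KE b P g1 g2 (η ^ 2)
    (q.1.2.1 - q.1.2.2, q.2.2.1 - q.2.2.2) by linarith)
  have s3 := Real.sq_sqrt (show 0 ≤ KE b P g1 g2 (η ^ 2)
    ((q.1.2.1 - q.1.2.2, q.2.2.1 - q.2.2.2) - (q.1.1, q.2.1)) by linarith)
  have fin := absE_core _ _ _ _ U W (-(η ^ 2) * (q.1.1 * q.1.2.2 + b * (q.2.1 * q.2.2.2)))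
    (lo _ c0) (lo _ c1) (lo _ c2) (lo _ c3) (up _ d0) (up _ d1) (up _ d2) (up _ d3)
    (by
      rw [s0, s1, hUd, hY]
      unfold KE lnE
      simp only [Prod.mk_sub_mk]
      ring)
    (by
      rw [s0, s2, hWd, hZ]
      unfold KE lnE
      simp only
      ring)
    (by
      rw [s3, s0, hUd, hWd, hY, hZ]
      unfold KE lnE
      simp only [Prod.mk_sub_mk]
      ring) hD
  have hYZ : 0 ≤ |Y| * |Z| := by positivity
  linarith

end Pool.Agent.SDT.N1Q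

end -- N1Q.AbB
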