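import Pool.Agent.SDT.B22
import Pool.Agent.SDT.B25
import Pool.Agent.SDT.B28

set_option autoImplicit false

namespace Pool.Agent.SDT.MP_6cbfb8_an
end Pool.Agent.SDT.MP_6cbfb8_an
namespace Pool.Agent.SDT.MST
end Pool.Agent.SDT.MST
namespace Pool.Agent.SDT.N1
end Pool.Agent.SDT.N1
namespace Pool.Agent.SDT.N1F
end Pool.Agent.SDT.N1F
namespace Pool.Agent.SDT.N1G
end Pool.Agent.SDT.N1G

section -- N1G.La4

/-!
N1G, block L2a: the hypotheses of `HLk` at the base point.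
-/

namespace Pool.Agent.SDT.N1G

open MeasureTheory Set Metric Pool.Agent.SDT.MP_6cbfb8_an Pool.Agent.SDT.MST Pool.Agent.SDT.N1
open scoped ENNReal Real ContDiff Topology

lemma mixed_congr {F1 F2 : V → V → ℝ} {a0 b0 : V}
    (h : ∀ᶠ q in 𝓝 (a0, b0), F1 q.1 q.2 = F2 q.1 q.2) (U E : V) :
    fderiv ℝ (fun b => fderiv ℝ (fun a => F1 a b) a0 U) b0 E =
      fderiv ℝ (fun b => fderiv ℝ (fun a => F2 a b) a0 U) b0 E := by
  have h0 : ∀ᶠ q in 𝓝 (b0, a0), F1 q.2 q.1 = F2 q.2 q.1 := by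
    have h2 : Filter.Tendsto (fun q : V × V => (q.2, q.1)) (𝓝 (b0, a0)) (𝓝 (a0, b0)) :=
      (by fun_prop : Continuous fun q : V × V => (q.2, q.1)).tendsto (b0, a0)
    exact h2.eventually h
  have h1 : (fun b => fderiv ℝ (fun a => F1 a b) a0 U) =ᶠ[𝓝 b0] fun b =>
      fderiv ℝ (fun a => F2 a b) a0 U := by
    filter_upwards [h0.curry_nhds] with b hb
    have h3 : (fun a => F1 a b) =ᶠ[𝓝 a0] fun a => F2 a b := hb
    rw [h3.fderiv_eq]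
  rw [h1.fderiv_eq]

/-- Derivative of a function of the first two coordinates. -/
lemma fd_two {f : R2 → ℝ} (h : ContDiff ℝ ∞ f) (a U : V) :
    fderiv ℝ (fun a : V => f (a.1, a.2.1)) a U =
      fderiv ℝ f (a.1, a.2.1) (1, 0) * U.1 + fderiv ℝ f (a.1, a.2.1) (0, 1) * U.2.1 := by
  have hd : DifferentiableAt ℝ (fun a : V => f (a.1, a.2.1)) a :=
    (h.comp (by fun_prop : ContDiff ℝ ∞ fun a : V => ((a.1, a.2.1) : R2))).contDiffAt.differentiableAt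
      (by simp)
  refine fd_of _ _ _ _ hd ?_
  have h2 : HasFDerivAt f (fderiv ℝ f (a.1 + 0 * U.1, a.2.1 + 0 * U.2.1))
      (a.1 + 0 * U.1, a.2.1 + 0 * U.2.1) :=
    (h.differentiable (by simp)).differentiableAt.hasFDerivAt
  have h3 : HasDerivAt (fun t : ℝ => ((a.1 + t * U.1, a.2.1 + t * U.2.1) : R2))
      ((U.1, U.2.1) : R2) 0 := (g_lin a.1 U.1).prodMk (g_lin a.2.1 U.2.1)
  have h4 := h2.comp_hasDerivAt (0 : ℝ) h3
  refine HasDerivAt.congr_deriv h4 ?_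
  have e1 : ((U.1, U.2.1) : R2) = U.1 • ((1, 0) : R2) + U.2.1 • ((0, 1) : R2) := by
    ext <;> simp
  rw [e1, map_add, map_smul, map_smul]
  simp
  ring

/-- Line derivative of a function of two variables. -/
lemma line_two {f : R2 → ℝ} (h : ContDiff ℝ ∞ f) (a U : R2) :
    HasDerivAt (fun t : ℝ => f (a.1 + t * U.1, a.2 + t * U.2))
      (fderiv ℝ f a (1, 0) * U.1 + fderiv ℝ f a (0, 1) * U.2) 0 := by
  have h2 : HasFDerivAt f (fderiv ℝ f (a.1 + 0 * U.1, a.2 + 0 * U.2))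
      (a.1 + 0 * U.1, a.2 + 0 * U.2) :=
    (h.differentiable (by simp)).differentiableAt.hasFDerivAt
  have h3 : HasDerivAt (fun t : ℝ => ((a.1 + t * U.1, a.2 + t * U.2) : R2))
      ((U.1, U.2) : R2) 0 := (g_lin a.1 U.1).prodMk (g_lin a.2 U.2)
  have h4 := h2.comp_hasDerivAt (0 : ℝ) h3
  refine HasDerivAt.congr_deriv h4 ?_
  have e1 : ((U.1, U.2) : R2) = U.1 • ((1, 0) : R2) + U.2 • ((0, 1) : R2) := by
    ext <;> simp
  rw [e1, map_add, map_smul, map_smul]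
  simp
  ring

section fam

variable {P : Type*} [NormedAddCommGroup P] [NormedSpace ℝ P]

/-- The point `(p, y, x)` with `u = (y₁, a)`, `v = (y₂, b)`. -/
def Q0 (p : P) (x : R2 × R2) : P × YX := (p, ((x.1.1, x.2.1), (x.1.2, x.2.2)))

lemma Q0_smooth (p : P) : ContDiff ℝ ∞ (Q0 p) := by
  unfold Q0
  fun_prop

/-- The first separated function at a fixed parameter. -/
noncomputable def omD (D : Dat P) (p : P) (u : R2) : ℝ := D.o0 (p, u.1) + D.μ p * D.o1 (p, u.1, u.2)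

/-- The second separated function at a fixed parameter. -/
noncomputable def sgD (D : Dat P) (p : P) (v : R2) : ℝ := D.s (p, v.1, v.2)

lemma omD_smooth (D : Dat P) (p : P) : ContDiff ℝ ∞ (omD D p) := by
  unfold omD
  exact (D.so0.comp (by fun_prop)).add (contDiff_const.mul (D.so1.comp (by fun_prop)))

lemma sgD_smooth (D : Dat P) (p : P) : ContDiff ℝ ∞ (sgD D p) := by
  unfold sgD
  exact D.ss.comp (by fun_prop)

lemma w_base (D : Dat P) (p : P) : (fun a : V => D.w (((p, 0, 0, 0) : PP P), a)) =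
    fun a : V => omD D p (a.1, a.2.1) := by
  funext a
  unfold Dat.w omD
  simp

lemma σ_base (D : Dat P) (p : P) : (fun b : V => D.σ (((p, 0, 0, 0) : PP P), b)) =
    fun b : V => sgD D p (b.1, b.2.1) := by
  funext b
  unfold Dat.σ sgD
  simp

lemma L_base (D : Dat P) (p : P) (a b : V) : D.L (((p, 0, 0, 0) : PP P), a, b) =
    D.l (Q0 p ((a.1, a.2.1), (b.1, b.2.1))) := by
  unfold Dat.L M1 e1 Q0
  simp

lemma R_base (D : Dat P) (p : P) (a b : V) : D.R (((p, 0, 0, 0) : PP P), a, b) =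
    db1 D.ψ (Q0 p ((a.1, a.2.1), (b.1, b.2.1))) := by
  unfold Dat.R M2 e2 Q0
  simp

lemma g_base (D : Dat P) (p : P) (a b : V) : D.g (((p, 0, 0, 0) : PP P), a, b) =
    -(b.2.2 * (db1 D.ψ (Q0 p ((a.1, a.2.1), (b.1, b.2.1))) /
      D.l (Q0 p ((a.1, a.2.1), (b.1, b.2.1)))) / a.2.2) := by
  unfold Dat.g
  rw [L_base, R_base]
  simp only [zero_mul, zero_div, add_zero]
  rw [mul_comm a.2.2, ← div_div, mul_div_assoc]

/-- A globally smooth function equal to `Γ` near the base point. -/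
lemma exists_G (F : Fam P) (p0 : P) (x0 y0 : ℝ × ℝ) (r ρ : ℝ) (h : FamOk F p0 x0 y0 r)
    (D : Dat P) (hDk : DatOk D F p0 x0 y0 ρ) :
    ∃ G : R2 × R2 → ℝ, ContDiff ℝ ∞ G ∧
      (∀ᶠ x in 𝓝 (((y0.1, x0.1) : R2), ((y0.2, x0.2) : R2)), G x =
        db1 D.ψ (Q0 p0 x) / D.l (Q0 p0 x) ∧ G x = F.Γ p0 x.1 x.2) := by
  have hbase : Q0 p0 (((y0.1, x0.1) : R2), ((y0.2, x0.2) : R2)) = (p0, (y0, x0)) := rfl
  have hl0 : D.l (Q0 p0 (((y0.1, x0.1) : R2), ((y0.2, x0.2) : R2))) ≠ 0 := by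
    rw [hbase, hDk.el _ (mem_ball_self hDk.hρ)]
    exact h.lpos.ne'
  have hc : ContinuousAt (fun x => D.l (Q0 p0 x)) (((y0.1, x0.1) : R2), ((y0.2, x0.2) : R2)) :=
    (D.sl.comp (Q0_smooth p0)).continuous.continuousAt
  have hq : ContinuousAt (Q0 p0) (((y0.1, x0.1) : R2), ((y0.2, x0.2) : R2)) :=
    (Q0_smooth p0).continuous.continuousAt
  have ev : ∀ᶠ x in 𝓝 (((y0.1, x0.1) : R2), ((y0.2, x0.2) : R2)), D.l (Q0 p0 x) ≠ 0 ∧
      Q0 p0 x ∈ ball (p0, (y0, x0)) ρ := by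
    filter_upwards [hc.eventually_ne hl0, hq.eventually (by
      rw [hbase]; exact ball_mem_nhds _ hDk.hρ)] with x h1 h2
    exact ⟨h1, h2⟩
  obtain ⟨δ, hδ, hb⟩ := Metric.eventually_nhds_iff_ball.1 ev
  have hs : ContDiffOn ℝ ∞ (fun x => db1 D.ψ (Q0 p0 x) / D.l (Q0 p0 x))
      (ball (((y0.1, x0.1) : R2), ((y0.2, x0.2) : R2)) δ) :=
    ((db1_smooth D.sψ).comp (Q0_smooth p0)).contDiffOn.div
      (D.sl.comp (Q0_smooth p0)).contDiffOn (fun x hx => (hb x hx).1)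
  obtain ⟨G, hG, eG⟩ := ext_smooth _ _ δ hδ hs
  refine ⟨G, hG, ?_⟩
  filter_upwards [ball_mem_nhds _ (half_pos hδ)] with x hx
  have h1 := eG x hx
  have h2 := (hb x (ball_subset_ball (by linarith) hx)).2
  refine ⟨h1, ?_⟩
  rw [h1]
  unfold Fam.Γ
  have e1 : db1 D.ψ (Q0 p0 x) = F.ψb p0 ((x.1.1, x.2.1), (x.1.2, x.2.2)) := hDk.eb p0 _ h2
  have e2 : D.l (Q0 p0 x) = F.l (p0, ((x.1.1, x.2.1), (x.1.2, x.2.2))) := hDk.el _ h2
  rw [e1, e2]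

/-- The hypotheses of `HLk` in case (D). -/
theorem nd_D' (F : Fam P) (p0 : P) (x0 y0 : ℝ × ℝ) (r ρ : ℝ) (h : FamOk F p0 x0 y0 r)
    (hD : CaseD F p0 x0 y0) (D : Dat P) (hDk : DatOk D F p0 x0 y0 ρ) (z1 z2 : ℝ) (hz1 : z1 ≠ 0)
    (hz2 : z2 ≠ 0) :
    fderiv ℝ (fun a => D.w (((p0, 0, 0, 0) : PP P), a)) (y0.1, x0.1, z1) (1, 0, 0) ≠ 0 ∧
    fderiv ℝ (fun b => D.σ (((p0, 0, 0, 0) : PP P), b)) (y0.2, x0.2, z2) (1, 0, 0) ≠ 0 ∧
    ∀ U : V, fderiv ℝ (fun a => D.w (((p0, 0, 0, 0) : PP P), a)) (y0.1, x0.1, z1) U = 0 →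
      (∀ E : V, fderiv ℝ (fun b => D.σ (((p0, 0, 0, 0) : PP P), b)) (y0.2, x0.2, z2) E = 0 →
        fderiv ℝ (fun b => fderiv ℝ (fun a => D.g (((p0, 0, 0, 0) : PP P), a, b))
          (y0.1, x0.1, z1) U) (y0.2, x0.2, z2) E = 0) → U = 0 := by
  obtain ⟨G, hG, eG⟩ := exists_G F p0 x0 y0 r ρ h D hDk
  obtain ⟨u, e, hu, he, hnd⟩ := hD.nd
  -- the separated functions
  have eom : ∀ᶠ v in 𝓝 ((y0.1, x0.1) : R2), omD D p0 v = F.om p0 v := by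
    filter_upwards [ball_mem_nhds _ hDk.hρ] with v hv
    rw [mem_ball, Prod.dist_eq, max_lt_iff] at hv
    unfold omD Fam.om
    rw [hDk.eo0 (p0, v.1) (by rw [mem_ball, Prod.dist_eq, dist_self, max_lt_iff]
                              exact ⟨hDk.hρ, hv.1⟩),
      hDk.eo1 (p0, v.1, v.2) (by
        rw [mem_ball, Prod.dist_eq, Prod.dist_eq, dist_self, max_lt_iff, max_lt_iff]
        exact ⟨hDk.hρ, hv.1, hv.2⟩), hDk.eμ p0 (mem_ball_self hDk.hρ)]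
  have esg : ∀ᶠ v in 𝓝 ((y0.2, x0.2) : R2), sgD D p0 v = F.sg p0 v := by
    filter_upwards [ball_mem_nhds _ hDk.hρ] with v hv
    rw [mem_ball, Prod.dist_eq, max_lt_iff] at hv
    unfold sgD Fam.sg
    rw [hDk.es (p0, v.1, v.2) (by
        rw [mem_ball, Prod.dist_eq, Prod.dist_eq, dist_self, max_lt_iff, max_lt_iff]
        exact ⟨hDk.hρ, hv.1, hv.2⟩)]
  have lin : ∀ (f g : R2 → ℝ) (a : R2) (U : R2), (∀ᶠ v in 𝓝 a, f v = g v) →
      ∀ᶠ t in 𝓝 (0:ℝ), f (a.1 + t * U.1, a.2 + t * U.2) = g (a.1 + t * U.1, a.2 + t * U.2) := by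
    intro f g a U hfg
    have hc : ContinuousAt (fun t : ℝ => ((a.1 + t * U.1, a.2 + t * U.2) : R2)) 0 := by fun_prop
    have : (fun t : ℝ => ((a.1 + t * U.1, a.2 + t * U.2) : R2)) 0 = a := by simp
    exact hc.eventually (by rw [this]; exact hfg)
  have som := omD_smooth D p0
  have ssg := sgD_smooth D p0
  have cu : fderiv ℝ (omD D p0) (y0.1, x0.1) (1, 0) * u.1 +
      fderiv ℝ (omD D p0) (y0.1, x0.1) (0, 1) * u.2 = 0 := by
    have h1 := (line_two som ((y0.1, x0.1) : R2) u).deriv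
    have h2 : (fun t : ℝ => omD D p0 (y0.1 + t * u.1, x0.1 + t * u.2)) =ᶠ[𝓝 0]
      fun t : ℝ => F.om p0 (y0.1 + t * u.1, x0.1 + t * u.2) := lin _ _ _ u eom
    rw [← h1]
    exact h2.deriv_eq.trans hu
  have ce : fderiv ℝ (sgD D p0) (y0.2, x0.2) (1, 0) * e.1 +
      fderiv ℝ (sgD D p0) (y0.2, x0.2) (0, 1) * e.2 = 0 := by
    have h1 := (line_two ssg ((y0.2, x0.2) : R2) e).deriv
    have h2 : (fun t : ℝ => sgD D p0 (y0.2 + t * e.1, x0.2 + t * e.2)) =ᶠ[𝓝 0]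
      fun t : ℝ => F.sg p0 (y0.2 + t * e.1, x0.2 + t * e.2) := lin _ _ _ e esg
    rw [← h1]
    exact h2.deriv_eq.trans he
  have cy : fderiv ℝ (omD D p0) (y0.1, x0.1) (1, 0) ≠ 0 := by
    have h1 := (line_two som ((y0.1, x0.1) : R2) (1, 0)).deriv
    have h2 : (fun t : ℝ => omD D p0 (y0.1 + t * 1, x0.1 + t * 0)) =ᶠ[𝓝 0]
      fun t : ℝ => F.om p0 (y0.1 + t * 1, x0.1 + t * 0) := lin _ _ _ (1, 0) eom
    have h3 := h2.deriv_eq
    simp only [mul_one, mul_zero, add_zero] at h1 h3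
    rw [h3] at h1
    have h4 := hD.dy
    have h5 : deriv (fun t : ℝ => F.om p0 (y0.1 + t, x0.1)) 0 =
        deriv (fun y => F.om p0 (y, x0.1)) y0.1 := by
      have := deriv_comp_const_add (f := fun y => F.om p0 (y, x0.1)) y0.1 0
      rw [add_zero] at this
      exact this
    rw [← h1, h5]
    exact h4
  have cy' : fderiv ℝ (sgD D p0) (y0.2, x0.2) (1, 0) ≠ 0 := by
    have h1 := (line_two ssg ((y0.2, x0.2) : R2) (1, 0)).deriv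
    have h2 : (fun t : ℝ => sgD D p0 (y0.2 + t * 1, x0.2 + t * 0)) =ᶠ[𝓝 0]
      fun t : ℝ => F.sg p0 (y0.2 + t * 1, x0.2 + t * 0) := lin _ _ _ (1, 0) esg
    have h3 := h2.deriv_eq
    simp only [mul_one, mul_zero, add_zero] at h1 h3
    rw [h3] at h1
    have h4 := hD.dy'
    have h5 : deriv (fun t : ℝ => F.sg p0 (y0.2 + t, x0.2)) 0 =
        deriv (fun y => F.sg p0 (y, x0.2)) y0.2 := by
      have := deriv_comp_const_add (f := fun y => F.sg p0 (y, x0.2)) y0.2 0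
      rw [add_zero] at this
      exact this
    rw [← h1, h5]
    exact h4
  -- the coupling
  have eG' : ∀ᶠ x in 𝓝 (((y0.1, x0.1) : R2), ((y0.2, x0.2) : R2)), G x = F.Γ p0 x.1 x.2 :=
    eG.mono fun x hx => hx.2
  have g0 : F.Γ p0 (y0.1, x0.1) (y0.2, x0.2) = G ((y0.1, x0.1), (y0.2, x0.2)) :=
    (eG'.self_of_nhds).symm
  have line1 : ∀ v : R2, (∀ᶠ x in 𝓝 (((y0.1, x0.1) : R2), v), G x = F.Γ p0 x.1 x.2) →
      deriv (fun t : ℝ => F.Γ p0 (y0.1 + t * u.1, x0.1 + t * u.2) v) 0 =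
        d1 G ((y0.1, x0.1), v) u := by
    intro v hv
    have h1 := d1_line hG ((y0.1, x0.1) : R2) v u 0
    rw [zero_smul, add_zero] at h1
    rw [← h1.deriv]
    refine Filter.EventuallyEq.deriv_eq ?_
    have hc : ContinuousAt (fun t : ℝ =>
        ((((y0.1, x0.1) : R2) + t • u, v) : R2 × R2)) 0 := by fun_prop
    have h2 : (fun t : ℝ => ((((y0.1, x0.1) : R2) + t • u, v) : R2 × R2)) 0 =
        ((y0.1, x0.1), v) := by simp
    have h3 := hc.eventually (by rw [h2]; exact hv)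
    filter_upwards [h3] with t ht
    exact ht.symm
  have g1 : deriv (fun t : ℝ => F.Γ p0 (y0.1 + t * u.1, x0.1 + t * u.2) (y0.2, x0.2)) 0 =
      d1 G ((y0.1, x0.1), (y0.2, x0.2)) u := line1 _ eG'
  have cont2 : ContinuousAt (fun t : ℝ =>
      ((((y0.1, x0.1) : R2), ((y0.2, x0.2) : R2) + t • e) : R2 × R2)) 0 := by fun_prop
  have cont2' : (fun t : ℝ =>
      ((((y0.1, x0.1) : R2), ((y0.2, x0.2) : R2) + t • e) : R2 × R2)) 0 =
        ((y0.1, x0.1), (y0.2, x0.2)) := by simp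
  have g2 : deriv (fun t' : ℝ => F.Γ p0 (y0.1, x0.1) (y0.2 + t' * e.1, x0.2 + t' * e.2)) 0 =
      d2 G ((y0.1, x0.1), (y0.2, x0.2)) e := by
    have h1 := d2_line hG ((y0.1, x0.1) : R2) ((y0.2, x0.2) : R2) e 0
    rw [zero_smul, add_zero] at h1
    rw [← h1.deriv]
    refine Filter.EventuallyEq.deriv_eq ?_
    have h3 := cont2.eventually (by rw [cont2']; exact eG')
    filter_upwards [h3] with t ht
    exact ht.symm
  have g3 : deriv (fun t' : ℝ => deriv (fun t : ℝ => F.Γ p0 (y0.1 + t * u.1, x0.1 + t * u.2)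
        (y0.2 + t' * e.1, x0.2 + t' * e.2)) 0) 0 =
      d2 (fun x => d1 G x u) ((y0.1, x0.1), (y0.2, x0.2)) e := by
    have h1 := d2_line (d1_smooth hG u) ((y0.1, x0.1) : R2) ((y0.2, x0.2) : R2) e 0
    rw [zero_smul, add_zero] at h1
    rw [← h1.deriv]
    refine Filter.EventuallyEq.deriv_eq ?_
    have h3 := cont2.eventually (by rw [cont2']; exact eG'.eventually_nhds)
    filter_upwards [h3] with t ht
    exact line1 _ ht
  rw [g0, g1, g2, g3] at hnd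
  refine ⟨?_, ?_, ?_⟩
  · rw [w_base, fd_two som]
    simpa using cy
  · rw [σ_base, fd_two ssg]
    simpa using cy'
  · intro U hU hE
    rw [w_base, fd_two som] at hU
    refine nd_core hG (y0.1, x0.1, z1) (y0.2, x0.2, z2) U hz1 hz2 _ _
      (fderiv ℝ (sgD D p0) (y0.2, x0.2) (1, 0)) (fderiv ℝ (sgD D p0) (y0.2, x0.2) (0, 1))
      cy u e cu ce hnd hU ?_
    intro E hE'
    have h1 := hE E (by rw [σ_base, fd_two ssg]; exact hE')
    rw [← h1]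
    refine mixed_congr ?_ U E
    have hcq : ContinuousAt (fun q : V × V => (((q.1.1, q.1.2.1) : R2), ((q.2.1, q.2.2.1) : R2)))
      ((y0.1, x0.1, z1), (y0.2, x0.2, z2)) := by fun_prop
    have h3 := hcq.eventually eG
    filter_upwards [h3] with q hq
    rw [g_base, ← hq.1]
    rfl

end fam

end Pool.Agent.SDT.N1G

end -- N1G.La4

section -- N1M.I1

/-!
N1M, Proposition I: the second differences of `√(h (r) - u)` in divided form.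
-/

namespace Pool.Agent.SDT.N1M

open MeasureTheory Set Metric Pool.Agent.SDT.MP_6cbfb8_an Pool.Agent.SDT.MST Pool.Agent.SDT.N1
open Pool.Agent.SDT.N1F Pool.Agent.SDT.N1G
open scoped ENNReal Real ContDiff Topology

/-- The second coordinate as a defect: `1 - h (r)`. -/
noncomputable def sM (m r : ℝ) : ℝ := 1 - hm m r

/-- The pure second difference in `r`, divided. -/
noncomputable def G1 (c m u w1 w2 w3 w4 : ℝ) : ℝ :=
  ((bm m w1 + bm m w2) * ((bm m w1 + bm m w3) / (Qs c u (sM m w1) + Qs c u (sM m w3)) +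
      (bm m w2 + bm m w4) / (Qs c u (sM m w2) + Qs c u (sM m w4))) +
    2 * m * (Qs c u (sM m w1) + Qs c u (sM m w2))) /
  ((Qs c u (sM m w1) + Qs c u (sM m w2)) * (Qs c u (sM m w3) + Qs c u (sM m w4)))

/-- The mixed second difference, divided. -/
noncomputable def G3 (c m A x x' w w' : ℝ) : ℝ :=
  -((x + x') * (bm m w + bm m w') *
    (1 / (Qs c (A * x ^ 2) (sM m w) + Qs c (A * x ^ 2) (sM m w')) +
      1 / (Qs c (A * x' ^ 2) (sM m w) + Qs c (A * x' ^ 2) (sM m w'))) /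
    ((Qs c (A * x ^ 2) (sM m w) + Qs c (A * x' ^ 2) (sM m w)) *
      (Qs c (A * x ^ 2) (sM m w') + Qs c (A * x' ^ 2) (sM m w'))))

lemma hm_bmI (m w : ℝ) : bm m w ^ 2 + m * hm m w = 1 := by
  unfold bm hm
  ring

/-- The pure second difference. -/
lemma G1_id (c : ℝ) (hc : 0 < c) (m u w r g : ℝ)
    (h1 : c ^ 2 / 8 ≤ 1 - u - sM m w) (h2 : c ^ 2 / 8 ≤ 1 - u - sM m (w - r))
    (h3 : c ^ 2 / 8 ≤ 1 - u - sM m (w - g)) (h4 : c ^ 2 / 8 ≤ 1 - u - sM m (w - r - g)) :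
    Qs c u (sM m w) - Qs c u (sM m (w - r)) - Qs c u (sM m (w - g)) +
      Qs c u (sM m (w - r - g)) = -(r * g * G1 c m u w (w - r) (w - g) (w - r - g)) := by
  unfold G1
  have p1 := Qs_pos c hc _ _ h1
  have p2 := Qs_pos c hc _ _ h2
  have p3 := Qs_pos c hc _ _ h3
  have p4 := Qs_pos c hc _ _ h4
  have q1 := Qs_sq c hc _ _ h1
  have q2 := Qs_sq c hc _ _ h2
  have q3 := Qs_sq c hc _ _ h3
  have q4 := Qs_sq c hc _ _ h4
  set Q1 := Qs c u (sM m w)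
  set Q2 := Qs c u (sM m (w - r))
  set Q3 := Qs c u (sM m (w - g))
  set Q4 := Qs c u (sM m (w - r - g))
  unfold sM hm at q1 q2 q3 q4
  set b1 := bm m w with hb1
  set b2 := bm m (w - r) with hb2
  set b3 := bm m (w - g) with hb3
  set b4 := bm m (w - r - g) with hb4
  unfold bm at hb1 hb2 hb3 hb4
  have e12 : (Q1 - Q2) * (Q1 + Q2) = r * (b1 + b2) := by
    rw [hb1, hb2]
    linear_combination q1 - q2
  have e34 : (Q3 - Q4) * (Q3 + Q4) = r * (b3 + b4) := by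
    rw [hb3, hb4]
    linear_combination q3 - q4
  have e31 : (Q1 - Q3) * (Q1 + Q3) = g * (b1 + b3) := by
    rw [hb1, hb3]
    linear_combination q1 - q3
  have e42 : (Q2 - Q4) * (Q2 + Q4) = g * (b2 + b4) := by
    rw [hb2, hb4]
    linear_combination q2 - q4
  have d12 : Q1 - Q2 = r * (b1 + b2) / (Q1 + Q2) := by
    rw [eq_div_iff (by positivity)]; exact e12
  have d34 : Q3 - Q4 = r * (b3 + b4) / (Q3 + Q4) := by
    rw [eq_div_iff (by positivity)]; exact e34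
  have d31 : g * ((b1 + b3) / (Q1 + Q3)) = Q1 - Q3 := by
    rw [← mul_div_assoc, div_eq_iff (by positivity)]; exact e31.symm
  have d42 : g * ((b2 + b4) / (Q2 + Q4)) = Q2 - Q4 := by
    rw [← mul_div_assoc, div_eq_iff (by positivity)]; exact e42.symm
  have hbb : b3 + b4 = b1 + b2 + 2 * m * g := by
    rw [hb1, hb2, hb3, hb4]
    ring
  have l1 : Q1 - Q2 - Q3 + Q4 = (Q1 - Q2) - (Q3 - Q4) := by ring
  have l2 : r * g * (((b1 + b2) * ((b1 + b3) / (Q1 + Q3) + (b2 + b4) / (Q2 + Q4)) +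
      2 * m * (Q1 + Q2)) / ((Q1 + Q2) * (Q3 + Q4))) =
      r * ((b1 + b2) * (g * ((b1 + b3) / (Q1 + Q3)) + g * ((b2 + b4) / (Q2 + Q4))) +
        2 * m * g * (Q1 + Q2)) / ((Q1 + Q2) * (Q3 + Q4)) := by
    ring
  rw [l1, l2, d31, d42, d12, d34, hbb]
  field_simp
  ring

/-- The mixed second difference. -/
lemma G3_id (c : ℝ) (hc : 0 < c) (m A x r w g : ℝ)
    (h1 : c ^ 2 / 8 ≤ 1 - A * x ^ 2 - sM m w)
    (h2 : c ^ 2 / 8 ≤ 1 - A * (x - r) ^ 2 - sM m w)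
    (h3 : c ^ 2 / 8 ≤ 1 - A * x ^ 2 - sM m (w - g))
    (h4 : c ^ 2 / 8 ≤ 1 - A * (x - r) ^ 2 - sM m (w - g)) :
    Qs c (A * x ^ 2) (sM m w) - Qs c (A * (x - r) ^ 2) (sM m w) -
      Qs c (A * x ^ 2) (sM m (w - g)) + Qs c (A * (x - r) ^ 2) (sM m (w - g)) =
      -(A * r * g * G3 c m A x (x - r) w (w - g)) := by
  unfold G3
  have p1 := Qs_pos c hc _ _ h1
  have p2 := Qs_pos c hc _ _ h2
  have p3 := Qs_pos c hc _ _ h3
  have p4 := Qs_pos c hc _ _ h4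
  have q1 := Qs_sq c hc _ _ h1
  have q2 := Qs_sq c hc _ _ h2
  have q3 := Qs_sq c hc _ _ h3
  have q4 := Qs_sq c hc _ _ h4
  set Q1 := Qs c (A * x ^ 2) (sM m w)
  set Q2 := Qs c (A * (x - r) ^ 2) (sM m w)
  set Q3 := Qs c (A * x ^ 2) (sM m (w - g))
  set Q4 := Qs c (A * (x - r) ^ 2) (sM m (w - g))
  unfold sM hm at q1 q2 q3 q4
  set b1 := bm m w with hb1
  set b3 := bm m (w - g) with hb3
  unfold bm at hb1 hb3
  have e12 : (Q1 - Q2) * (Q1 + Q2) = -(A * r * (x + (x - r))) := by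
    linear_combination q1 - q2
  have e34 : (Q3 - Q4) * (Q3 + Q4) = -(A * r * (x + (x - r))) := by
    linear_combination q3 - q4
  have e31 : (Q1 - Q3) * (Q1 + Q3) = g * (b1 + b3) := by
    rw [hb1, hb3]
    linear_combination q1 - q3
  have e42 : (Q2 - Q4) * (Q2 + Q4) = g * (b1 + b3) := by
    rw [hb1, hb3]
    linear_combination q2 - q4
  have d12 : Q1 - Q2 = -(A * r * (x + (x - r))) / (Q1 + Q2) := by
    rw [eq_div_iff (by positivity)]; exact e12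
  have d34 : Q3 - Q4 = -(A * r * (x + (x - r))) / (Q3 + Q4) := by
    rw [eq_div_iff (by positivity)]; exact e34
  have d31 : g * (b1 + b3) * (1 / (Q1 + Q3)) = Q1 - Q3 := by
    rw [mul_one_div, div_eq_iff (by positivity)]; exact e31.symm
  have d42 : g * (b1 + b3) * (1 / (Q2 + Q4)) = Q2 - Q4 := by
    rw [mul_one_div, div_eq_iff (by positivity)]; exact e42.symm
  have l1 : Q1 - Q2 - Q3 + Q4 = (Q1 - Q2) - (Q3 - Q4) := by ring
  have l2 : A * r * g * -((x + (x - r)) * (b1 + b3) * (1 / (Q1 + Q3) + 1 / (Q2 + Q4)) /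
      ((Q1 + Q2) * (Q3 + Q4))) =
      -(A * r * (x + (x - r)) * (g * (b1 + b3) * (1 / (Q1 + Q3)) +
        g * (b1 + b3) * (1 / (Q2 + Q4))) / ((Q1 + Q2) * (Q3 + Q4))) := by
    ring
  rw [l1, l2, d31, d42, d12, d34]
  field_simp
  ring

lemma G1_diag (c m u w : ℝ) (h : Qs c u (sM m w) ≠ 0) :
    G1 c m u w w w w = (bm m w ^ 2 + m * Qs c u (sM m w) ^ 2) / Qs c u (sM m w) ^ 3 := by
  unfold G1
  field_simp
  ring

lemma G3_diag (c m A x w : ℝ) (h : Qs c (A * x ^ 2) (sM m w) ≠ 0) :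
    G3 c m A x x w w = -(x * bm m w) / Qs c (A * x ^ 2) (sM m w) ^ 3 := by
  unfold G3
  field_simp

/-! ### the functions of the normal form -/

/-- Good points, first coordinate. -/
def okA4 (x : P7 × V) : Prop := 0 < 1 - x.1 1 * (x.1 0 * Xi true false x ^ 2)

/-- Good points, second coordinate. -/
def okB4 (c : ℝ) (x : P7 × V) : Prop :=
  ∀ e f : Bool, c ^ 2 / 8 < 1 - 0 - sM (x.1 1) (Wi e f x)

/-- Good points. -/
def okI4 (c : ℝ) (x : P7 × V × V) : Prop :=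
  okA4 (prA x) ∧ okB4 c (prB x) ∧ ∀ e f e' f' : Bool,
    c ^ 2 / 8 < 1 - x.1 0 * Xi e f (prA x) ^ 2 - sM (x.1 1) (Wi e' f' (prB x))

/-- `ω` -/
noncomputable def omM (x : P7 × V) : ℝ :=
  x.2.1 * x.2.2.2 / (1 - x.1 1 * (x.1 0 * Xi true false x ^ 2))

/-- `σ` -/
noncomputable def sgM (c : ℝ) (x : P7 × V) : ℝ :=
  -(x.2.1 * x.2.2.2 * G1 c (x.1 1) 0 (Wi false false x) (Wi true false x) (Wi false true x)
    (Wi true true x) * Qs c 0 (sM (x.1 1) (Wi false true x)))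

/-- `α₁` -/
noncomputable def alM (x : P7 × V) : ℝ :=
  x.2.1 * (Xi false false x + Xi true false x) / (1 - x.1 1 * (x.1 0 * Xi true false x ^ 2))

/-- `β₁` -/
noncomputable def beM (c : ℝ) (x : P7 × V) : ℝ :=
  -(x.2.2.2 * (bm (x.1 1) (Wi false false x) + bm (x.1 1) (Wi false true x)) /
    (2 * Qs c 0 (sM (x.1 1) (Wi false false x)) *
      (Qs c 0 (sM (x.1 1) (Wi false false x)) + Qs c 0 (sM (x.1 1) (Wi false true x)))))

/-- The unit. -/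
noncomputable def UM (c : ℝ) (x : P7 × V × V) : ℝ :=
  (1 - x.1 1 * (x.1 0 * Xi true false (prA x) ^ 2)) * hm (x.1 1) (Wi false true (prB x)) /
    Qs c (x.1 0 * Xi true false (prA x) ^ 2) (sM (x.1 1) (Wi false true (prB x))) ^ 3

noncomputable def M11 (c : ℝ) (x : P7 × V × V) : ℝ :=
  -(x.2.1.1 * x.2.1.2.2 * E1 c (x.1 0) (Xi false false (prA x)) (Xi true false (prA x))
    (Xi false true (prA x)) (Xi true true (prA x)) (sM (x.1 1) (Wi false true (prB x))))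

noncomputable def M22 (c : ℝ) (x : P7 × V × V) : ℝ :=
  -(x.2.2.1 * x.2.2.2.2 * G1 c (x.1 1) (x.1 0 * Xi true false (prA x) ^ 2)
    (Wi false false (prB x)) (Wi true false (prB x))
    (Wi false true (prB x)) (Wi true true (prB x)))

noncomputable def M12 (c : ℝ) (x : P7 × V × V) : ℝ :=
  -(x.2.1.1 * x.2.2.2.2 * G3 c (x.1 1) (x.1 0) (Xi false false (prA x)) (Xi true false (prA x))
    (Wi false false (prB x)) (Wi false true (prB x)))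

noncomputable def M21 (c : ℝ) (x : P7 × V × V) : ℝ :=
  -(x.2.1.2.2 * x.2.2.1 * G3 c (x.1 1) (x.1 0) (Xi true false (prA x)) (Xi true true (prA x))
    (Wi false true (prB x)) (Wi true true (prB x)))

/-- The remainder that is divisible by `A`. -/
noncomputable def RM (c : ℝ) (x : P7 × V × V) : ℝ :=
  M11 c x + M22 c x + x.1 6 * M12 c x +
    UM c x * (omM (prA x) - sgM c (prB x) + x.1 6 * (alM (prA x) * beM c (prB x)))

/-! ### smoothness -/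

lemma bm_cd {Q : Type*} [NormedAddCommGroup Q] [NormedSpace ℝ Q] {m w : Q → ℝ} {x : Q}
    (hm' : ContDiffAt ℝ ∞ m x) (hw : ContDiffAt ℝ ∞ w x) :
    ContDiffAt ℝ ∞ (fun y => bm (m y) (w y)) x := by
  unfold bm
  exact contDiffAt_const.sub (hm'.mul hw)

lemma hm_cd {Q : Type*} [NormedAddCommGroup Q] [NormedSpace ℝ Q] {m w : Q → ℝ} {x : Q}
    (hm' : ContDiffAt ℝ ∞ m x) (hw : ContDiffAt ℝ ∞ w x) :
    ContDiffAt ℝ ∞ (fun y => hm (m y) (w y)) x := by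
  unfold hm
  exact (contDiffAt_const.mul hw).sub (hm'.mul (hw.pow 2))

lemma sM_cd {Q : Type*} [NormedAddCommGroup Q] [NormedSpace ℝ Q] {m w : Q → ℝ} {x : Q}
    (hm' : ContDiffAt ℝ ∞ m x) (hw : ContDiffAt ℝ ∞ w x) :
    ContDiffAt ℝ ∞ (fun y => sM (m y) (w y)) x := by
  unfold sM
  exact contDiffAt_const.sub (hm_cd hm' hw)

lemma G1_cd {Q : Type*} [NormedAddCommGroup Q] [NormedSpace ℝ Q] (c : ℝ) (hc : 0 < c)
    {m u w1 w2 w3 w4 : Q → ℝ} {x : Q} (hm' : ContDiffAt ℝ ∞ m x) (hu : ContDiffAt ℝ ∞ u x)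
    (h1 : ContDiffAt ℝ ∞ w1 x) (h2 : ContDiffAt ℝ ∞ w2 x) (h3 : ContDiffAt ℝ ∞ w3 x)
    (h4 : ContDiffAt ℝ ∞ w4 x)
    (k1 : c ^ 2 / 8 < 1 - u x - sM (m x) (w1 x)) (k2 : c ^ 2 / 8 < 1 - u x - sM (m x) (w2 x))
    (k3 : c ^ 2 / 8 < 1 - u x - sM (m x) (w3 x)) (k4 : c ^ 2 / 8 < 1 - u x - sM (m x) (w4 x)) :
    ContDiffAt ℝ ∞ (fun y => G1 c (m y) (u y) (w1 y) (w2 y) (w3 y) (w4 y)) x := by
  have q1 := Qs_cd c hc hu (sM_cd hm' h1)
  have q2 := Qs_cd c hc hu (sM_cd hm' h2)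
  have q3 := Qs_cd c hc hu (sM_cd hm' h3)
  have q4 := Qs_cd c hc hu (sM_cd hm' h4)
  have p1 := Qs_pos c hc _ _ k1.le
  have p2 := Qs_pos c hc _ _ k2.le
  have p3 := Qs_pos c hc _ _ k3.le
  have p4 := Qs_pos c hc _ _ k4.le
  unfold G1
  refine ContDiffAt.div (ContDiffAt.add (ContDiffAt.mul ((bm_cd hm' h1).add (bm_cd hm' h2))
    (ContDiffAt.add (ContDiffAt.div ((bm_cd hm' h1).add (bm_cd hm' h3)) (q1.add q3) ?_)
      (ContDiffAt.div ((bm_cd hm' h2).add (bm_cd hm' h4)) (q2.add q4) ?_)))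
    ((contDiffAt_const.mul hm').mul (q1.add q2)))
    ((q1.add q2).mul (q3.add q4)) ?_
  · exact (add_pos p1 p3).ne'
  · exact (add_pos p2 p4).ne'
  · exact (mul_pos (add_pos p1 p2) (add_pos p3 p4)).ne'

lemma G3_cd {Q : Type*} [NormedAddCommGroup Q] [NormedSpace ℝ Q] (c : ℝ) (hc : 0 < c)
    {m A x1 x2 w1 w2 : Q → ℝ} {x : Q} (hm' : ContDiffAt ℝ ∞ m x) (hA : ContDiffAt ℝ ∞ A x)
    (h1 : ContDiffAt ℝ ∞ x1 x) (h2 : ContDiffAt ℝ ∞ x2 x) (h3 : ContDiffAt ℝ ∞ w1 x)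
    (h4 : ContDiffAt ℝ ∞ w2 x)
    (k1 : c ^ 2 / 8 < 1 - A x * x1 x ^ 2 - sM (m x) (w1 x))
    (k2 : c ^ 2 / 8 < 1 - A x * x2 x ^ 2 - sM (m x) (w1 x))
    (k3 : c ^ 2 / 8 < 1 - A x * x1 x ^ 2 - sM (m x) (w2 x))
    (k4 : c ^ 2 / 8 < 1 - A x * x2 x ^ 2 - sM (m x) (w2 x)) :
    ContDiffAt ℝ ∞ (fun y => G3 c (m y) (A y) (x1 y) (x2 y) (w1 y) (w2 y)) x := by
  have q1 := Qs_cd c hc (hA.mul (h1.pow 2)) (sM_cd hm' h3)
  have q2 := Qs_cd c hc (hA.mul (h2.pow 2)) (sM_cd hm' h3)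
  have q3 := Qs_cd c hc (hA.mul (h1.pow 2)) (sM_cd hm' h4)
  have q4 := Qs_cd c hc (hA.mul (h2.pow 2)) (sM_cd hm' h4)
  have p1 := Qs_pos c hc _ _ k1.le
  have p2 := Qs_pos c hc _ _ k2.le
  have p3 := Qs_pos c hc _ _ k3.le
  have p4 := Qs_pos c hc _ _ k4.le
  unfold G3
  refine ContDiffAt.neg (ContDiffAt.div (ContDiffAt.mul ((h1.add h2).mul
    ((bm_cd hm' h3).add (bm_cd hm' h4)))
    (ContDiffAt.add (ContDiffAt.div contDiffAt_const (q1.add q3) ?_)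
      (ContDiffAt.div contDiffAt_const (q2.add q4) ?_)))
    ((q1.add q2).mul (q3.add q4)) ?_)
  · exact (add_pos p1 p3).ne'
  · exact (add_pos p2 p4).ne'
  · exact (mul_pos (add_pos p1 p2) (add_pos p3 p4)).ne'

lemma hm_pos (c : ℝ) (hc : 0 < c) (m w : ℝ) (h : c ^ 2 / 8 < 1 - 0 - sM m w) : 0 < hm m w := by
  have hc8 : 0 < c ^ 2 / 8 := by positivity
  unfold sM at h
  linarith

lemma omM_cd (x : P7 × V) (h : okA4 x) : ContDiffAt ℝ ∞ omM x := by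
  unfold omM
  refine ContDiffAt.div (by fun_prop) (contDiffAt_const.sub ((pi_cd 1).contDiffAt.mul
    ((pi_cd 0).contDiffAt.mul ((Xi_cd true false).contDiffAt.pow 2)))) ?_
  exact ne_of_gt h

lemma alM_cd (x : P7 × V) (h : okA4 x) : ContDiffAt ℝ ∞ alM x := by
  unfold alM
  refine ContDiffAt.div (ContDiffAt.mul (by fun_prop) ((Xi_cd false false).contDiffAt.add
    (Xi_cd true false).contDiffAt)) (contDiffAt_const.sub ((pi_cd 1).contDiffAt.mul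
    ((pi_cd 0).contDiffAt.mul ((Xi_cd true false).contDiffAt.pow 2)))) ?_
  exact ne_of_gt h

lemma sgM_cd (c : ℝ) (hc : 0 < c) (x : P7 × V) (h : okB4 c x) : ContDiffAt ℝ ∞ (sgM c) x := by
  have e := G1_cd c hc (pi_cd 1).contDiffAt (contDiffAt_const (c := (0:ℝ)))
    (Wi_cd false false).contDiffAt
    (Wi_cd true false).contDiffAt (Wi_cd false true).contDiffAt (Wi_cd true true).contDiffAt
    (h _ _) (h _ _) (h _ _) (h _ _)
  have q := Qs_cd c hc (x := x) (contDiffAt_const (c := (0:ℝ)))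
    (sM_cd (pi_cd 1).contDiffAt (Wi_cd false true).contDiffAt)
  exact (((by fun_prop : ContDiffAt ℝ ∞ (fun x : P7 × V => x.2.1 * x.2.2.2) x).mul e).mul q).neg

lemma beM_cd (c : ℝ) (hc : 0 < c) (x : P7 × V) (h : okB4 c x) : ContDiffAt ℝ ∞ (beM c) x := by
  have q1 := Qs_cd c hc (x := x) (contDiffAt_const (c := (0:ℝ)))
    (sM_cd (pi_cd 1).contDiffAt (Wi_cd false false).contDiffAt)
  have q2 := Qs_cd c hc (x := x) (contDiffAt_const (c := (0:ℝ)))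
    (sM_cd (pi_cd 1).contDiffAt (Wi_cd false true).contDiffAt)
  have p1 := Qs_pos c hc _ _ (h false false).le
  have p2 := Qs_pos c hc _ _ (h false true).le
  unfold beM
  refine ContDiffAt.neg (ContDiffAt.div (ContDiffAt.mul (by fun_prop)
    ((bm_cd (pi_cd 1).contDiffAt (Wi_cd false false).contDiffAt).add
    (bm_cd (pi_cd 1).contDiffAt (Wi_cd false true).contDiffAt)))
    ((contDiffAt_const.mul q1).mul (q1.add q2)) ?_)
  exact (mul_pos (mul_pos two_pos p1) (add_pos p1 p2)).ne'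

lemma UM_pos (c : ℝ) (hc : 0 < c) (x : P7 × V × V) (h : okI4 c x) : 0 < UM c x := by
  obtain ⟨h1, h2, h3⟩ := h
  have k3 := Qs_pos c hc _ _ (h3 true false false true).le
  exact div_pos (mul_pos h1 (hm_pos c hc _ _ (h2 false true))) (pow_pos k3 3)

lemma UM_cd (c : ℝ) (hc : 0 < c) (x : P7 × V × V) (h : okI4 c x) : ContDiffAt ℝ ∞ (UM c) x := by
  obtain ⟨h1, h2, h3⟩ := h
  have q := Qs_cd c hc (x := x) ((pi_cd 0).contDiffAt.mul ((XA_cd true false).contDiffAt.pow 2))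
    (sM_cd (pi_cd 1).contDiffAt (WB_cd false true).contDiffAt)
  have k3 := Qs_pos c hc _ _ (h3 true false false true).le
  unfold UM
  refine ContDiffAt.div (ContDiffAt.mul
    (contDiffAt_const.sub ((pi_cd 1).contDiffAt.mul
      ((pi_cd 0).contDiffAt.mul ((XA_cd true false).contDiffAt.pow 2))))
    (hm_cd (pi_cd 1).contDiffAt (WB_cd false true).contDiffAt))
    (q.pow 3) (pow_pos k3 3).ne'

lemma M11_cd (c : ℝ) (hc : 0 < c) (x : P7 × V × V) (h : okI4 c x) : ContDiffAt ℝ ∞ (M11 c) x := by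
  obtain ⟨h1, h2, h3⟩ := h
  have e := E1_cd c hc (x := x) (pi_cd 0).contDiffAt (XA_cd false false).contDiffAt
    (XA_cd true false).contDiffAt (XA_cd false true).contDiffAt (XA_cd true true).contDiffAt
    (sM_cd (pi_cd 1).contDiffAt (WB_cd false true).contDiffAt)
    (h3 _ _ _ _) (h3 _ _ _ _) (h3 _ _ _ _) (h3 _ _ _ _)
  exact ((by fun_prop : ContDiffAt ℝ ∞ (fun x : P7 × V × V => x.2.1.1 * x.2.1.2.2) x).mul e).neg

lemma M22_cd (c : ℝ) (hc : 0 < c) (x : P7 × V × V) (h : okI4 c x) : ContDiffAt ℝ ∞ (M22 c) x := by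
  obtain ⟨h1, h2, h3⟩ := h
  have e := G1_cd c hc (x := x) (pi_cd 1).contDiffAt
    ((pi_cd 0).contDiffAt.mul ((XA_cd true false).contDiffAt.pow 2))
    (WB_cd false false).contDiffAt
    (WB_cd true false).contDiffAt (WB_cd false true).contDiffAt (WB_cd true true).contDiffAt
    (h3 _ _ _ _) (h3 _ _ _ _) (h3 _ _ _ _) (h3 _ _ _ _)
  exact ((by fun_prop : ContDiffAt ℝ ∞ (fun x : P7 × V × V => x.2.2.1 * x.2.2.2.2) x).mul e).neg

lemma M12_cd (c : ℝ) (hc : 0 < c) (x : P7 × V × V) (h : okI4 c x) : ContDiffAt ℝ ∞ (M12 c) x := by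
  obtain ⟨h1, h2, h3⟩ := h
  have e := G3_cd c hc (x := x) (pi_cd 1).contDiffAt (pi_cd 0).contDiffAt
    (XA_cd false false).contDiffAt (XA_cd true false).contDiffAt
    (WB_cd false false).contDiffAt (WB_cd false true).contDiffAt
    (h3 _ _ _ _) (h3 _ _ _ _) (h3 _ _ _ _) (h3 _ _ _ _)
  exact ((by fun_prop : ContDiffAt ℝ ∞ (fun x : P7 × V × V => x.2.1.1 * x.2.2.2.2) x).mul e).neg

lemma M21_cd (c : ℝ) (hc : 0 < c) (x : P7 × V × V) (h : okI4 c x) : ContDiffAt ℝ ∞ (M21 c) x := by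
  obtain ⟨h1, h2, h3⟩ := h
  have e := G3_cd c hc (x := x) (pi_cd 1).contDiffAt (pi_cd 0).contDiffAt
    (XA_cd true false).contDiffAt (XA_cd true true).contDiffAt
    (WB_cd false true).contDiffAt (WB_cd true true).contDiffAt
    (h3 _ _ _ _) (h3 _ _ _ _) (h3 _ _ _ _) (h3 _ _ _ _)
  exact ((by fun_prop : ContDiffAt ℝ ∞ (fun x : P7 × V × V => x.2.1.2.2 * x.2.2.1) x).mul e).neg

lemma RM_cd (c : ℝ) (hc : 0 < c) (x : P7 × V × V) (h : okI4 c x) : ContDiffAt ℝ ∞ (RM c) x := by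
  have a1 := (omM_cd _ h.1).comp x prA_cd.contDiffAt
  have a2 := (sgM_cd c hc _ h.2.1).comp x prB_cd.contDiffAt
  have a3 := (alM_cd _ h.1).comp x prA_cd.contDiffAt
  have a4 := (beM_cd c hc _ h.2.1).comp x prB_cd.contDiffAt
  exact (((M11_cd c hc x h).add (M22_cd c hc x h)).add ((pi_cd 6).contDiffAt.mul
    (M12_cd c hc x h))).add ((UM_cd c hc x h).mul ((a1.sub a2).add ((pi_cd 6).contDiffAt.mul
      (a3.mul a4))))

/-! ### openness -/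

lemma okA4_ev (x : P7 × V) (h : okA4 x) : ∀ᶠ y in 𝓝 x, okA4 y := by
  have h1 : ContinuousAt (fun y : P7 × V => 1 - y.1 1 * (y.1 0 * Xi true false y ^ 2)) x :=
    (contDiff_const.sub ((pi_cd 1).mul ((pi_cd 0).mul
      ((Xi_cd true false).pow 2)))).continuous.continuousAt
  exact h1.eventually (lt_mem_nhds h)

lemma okB4_ev (c : ℝ) (x : P7 × V) (h : okB4 c x) : ∀ᶠ y in 𝓝 x, okB4 c y := by
  unfold okB4
  rw [Filter.eventually_all]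
  intro e
  rw [Filter.eventually_all]
  intro f
  have h1 : ContinuousAt (fun y : P7 × V => 1 - 0 - sM (y.1 1) (Wi e f y)) x :=
    (contDiffAt_const.sub (sM_cd (pi_cd 1).contDiffAt (Wi_cd e f).contDiffAt)).continuousAt
  exact h1.eventually (lt_mem_nhds (h e f))

lemma okI4_ev (c : ℝ) (x : P7 × V × V) (h : okI4 c x) : ∀ᶠ y in 𝓝 x, okI4 c y := by
  obtain ⟨h1, h2, h3⟩ := h
  have a1 : ∀ᶠ y in 𝓝 x, okA4 (prA y) := prA_cd.continuous.continuousAt.eventually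
    (okA4_ev _ h1)
  have a2 : ∀ᶠ y in 𝓝 x, okB4 c (prB y) := prB_cd.continuous.continuousAt.eventually
    (okB4_ev c _ h2)
  have a3 : ∀ᶠ y in 𝓝 x, ∀ e f e' f' : Bool,
      c ^ 2 / 8 < 1 - y.1 0 * Xi e f (prA y) ^ 2 - sM (y.1 1) (Wi e' f' (prB y)) := by
    rw [Filter.eventually_all]
    intro e
    rw [Filter.eventually_all]
    intro f
    rw [Filter.eventually_all]
    intro e'
    rw [Filter.eventually_all]
    intro f'
    have k : ContinuousAt (fun y : P7 × V × V =>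
        1 - y.1 0 * Xi e f (prA y) ^ 2 - sM (y.1 1) (Wi e' f' (prB y))) x :=
      ((contDiffAt_const.sub ((pi_cd 0).contDiffAt.mul ((XA_cd e f).contDiffAt.pow 2))).sub
        (sM_cd (pi_cd 1).contDiffAt (WB_cd e' f').contDiffAt)).continuousAt
    exact k.eventually (lt_mem_nhds (h3 e f e' f'))
  filter_upwards [a1, a2, a3] with y b1 b2 b3
  exact ⟨b1, b2, b3⟩

end Pool.Agent.SDT.N1M

end -- N1M.I1

section -- N1M.P3b

/-!
N1M, block M3 (type N'): the functions of the normal form and their smoothness.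
-/

namespace Pool.Agent.SDT.N1M

open MeasureTheory Set Metric Filter Pool.Agent.SDT.MP_6cbfb8_an Pool.Agent.SDT.MST Pool.Agent.SDT.N1
open Pool.Agent.SDT.N1F
open scoped ENNReal Real ContDiff Topology

/-- Root. -/
noncomputable def qB (c m B r b : ℝ) : ℝ := Sq c (hm m r - B * b ^ 2)

/-- Level. -/
noncomputable def RB (c m B γ r Z b : ℝ) : ℝ :=
  2 * bm m (r - γ * Z / 2) / (qB c m B r b + qB c m B (r - γ * Z) b)

noncomputable def WB (c m γ r Z : ℝ) : ℝ :=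
  bm m (r - γ * Z / 2) ^ 2 + m * RB c m 0 γ r Z 0 ^ 2 * (γ * Z) ^ 2 / 4

noncomputable def NB (c m B ρ γ y b Y r Z : ℝ) : ℝ :=
  (1 - m * (B * (b - ρ * y) ^ 2)) / ((m + RB c m B γ r Z b ^ 2) *
    (m + RB c m B γ (r - B * ρ * Y) Z (b - ρ * y) ^ 2)) - (γ * Z) ^ 2 / 4

noncomputable def EB (c m B ρ γ y b Y r Z : ℝ) : ℝ :=
  Z * WB c m γ r Z / (NB c m B ρ γ y b Y r Z *
    (RB c m B γ r Z b + RB c m B γ (r - B * ρ * Y) Z (b - ρ * y)))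

noncomputable def KB (c m B γ b r Z : ℝ) : ℝ :=
  RB c m B γ r Z b ^ 2 * (m + RB c m 0 γ r Z 0 ^ 2) /
    (1 - (γ * Z) ^ 2 * (m + RB c m 0 γ r Z 0 ^ 2) * (m + RB c m B γ r Z b ^ 2) / 4)

noncomputable def sB (m B ρ y b : ℝ) : ℝ := y * (2 * b - ρ * y) / (1 - m * (B * b ^ 2))

noncomputable def lB (m B y b z : ℝ) : ℝ := y * z / (1 - m * (B * b ^ 2))

noncomputable def oB (c m B ρ γ Y r Z : ℝ) : ℝ :=
  Y * (bm m (r - γ * Z / 2) + bm m (r - γ * Z / 2 - B * ρ * Y)) / WB c m γ r Z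

noncomputable def GB3 (c m B ρ γ y b r Z : ℝ) : ℝ :=
  Z ^ 2 * b ^ 2 * KB c m B γ b r Z * sB m B ρ y b / (4 * WB c m γ r Z)

noncomputable def D1B (c m B γ κ b z r Z : ℝ) : ℝ :=
  qB c m B (r - γ * Z) b + qB c m B (r - γ * Z) (b - κ * γ * z)

noncomputable def D2B (c m B ρ γ κ y b z Y r Z : ℝ) : ℝ :=
  qB c m B (r - B * ρ * Y - γ * Z) (b - ρ * y) +
    qB c m B (r - B * ρ * Y - γ * Z) (b - ρ * y - κ * γ * z)

noncomputable def D3B (c m B ρ γ y b Y r Z : ℝ) : ℝ :=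
  qB c m B (r - B * ρ * Y - γ * Z) (b - ρ * y) + qB c m B (r - γ * Z) b

noncomputable def D4B (c m B ρ γ κ y b z Y r Z : ℝ) : ℝ :=
  qB c m B (r - B * ρ * Y - γ * Z) (b - ρ * y - κ * γ * z) +
    qB c m B (r - γ * Z) (b - κ * γ * z)

noncomputable def JB (c m B ρ γ κ y b z Y r Z : ℝ) : ℝ :=
  ((y * (2 * b - ρ * y) - Y * (bm m (r - γ * Z) + bm m (r - B * ρ * Y - γ * Z))) /
      D3B c m B ρ γ y b Y r Z +
    (y * (2 * b - 2 * (κ * γ * z) - ρ * y) -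
      Y * (bm m (r - γ * Z) + bm m (r - B * ρ * Y - γ * Z))) /
      D4B c m B ρ γ κ y b z Y r Z) /
    (D1B c m B γ κ b z r Z * D2B c m B ρ γ κ y b z Y r Z)

/-- `E` at `B = 0`. -/
noncomputable def EB0 (c m γ r Z : ℝ) : ℝ :=
  Z * WB c m γ r Z / ((1 / ((m + RB c m 0 γ r Z 0 ^ 2) * (m + RB c m 0 γ r Z 0 ^ 2)) -
    (γ * Z) ^ 2 / 4) * (RB c m 0 γ r Z 0 + RB c m 0 γ r Z 0))

noncomputable def mB (c m γ r Z : ℝ) : ℝ :=
  -1 / (qB c m 0 (r - γ * Z) 0 * EB0 c m γ r Z)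

noncomputable def PsB (c m B ρ γ κ y b z Y r Z : ℝ) : ℝ :=
  -2 / (D1B c m B γ κ b z r Z * EB c m B ρ γ y b Y r Z) -
    mB c m γ r Z / (1 - m * (B * b ^ 2))

section smooth

variable {X : Type*} [NormedAddCommGroup X] [NormedSpace ℝ X] {x0 : X} {c : ℝ}
  {m B ρ γ κ y b z Y r Z : X → ℝ}

lemma smN_hm (h1 : SmN m x0) (h2 : SmN r x0) : SmN (fun x => hm (m x) (r x)) x0 := by
  unfold hm
  exact ((smN_const 2 x0).mul h2).sub (h1.mul (h2.pow 2))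

lemma smN_bm (h1 : SmN m x0) (h2 : SmN r x0) : SmN (fun x => bm (m x) (r x)) x0 := by
  unfold bm
  exact (smN_const 1 x0).sub (h1.mul h2)

lemma smN_qB (hc : 0 < c) (h1 : SmN m x0) (h2 : SmN B x0) (h3 : SmN r x0) (h4 : SmN b x0) :
    SmN (fun x => qB c (m x) (B x) (r x) (b x)) x0 := by
  unfold qB
  exact ((smN_hm h1 h3).sub (h2.mul (h4.pow 2))).compS (Sq_smooth c hc)

lemma smN_RB (hc : 0 < c) (h1 : SmN m x0) (h2 : SmN B x0) (h3 : SmN γ x0) (h4 : SmN r x0)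
    (h5 : SmN Z x0) (h6 : SmN b x0)
    (h0 : qB c (m x0) (B x0) (r x0) (b x0) + qB c (m x0) (B x0) (r x0 - γ x0 * Z x0) (b x0) ≠ 0) :
    SmN (fun x => RB c (m x) (B x) (γ x) (r x) (Z x) (b x)) x0 := by
  unfold RB
  refine SmN.div ?_ ((smN_qB hc h1 h2 h4 h6).add (smN_qB hc h1 h2 (h4.sub (h3.mul h5)) h6)) h0
  exact (smN_const 2 x0).mul (smN_bm h1 (h4.sub ((h3.mul h5).div (smN_const 2 x0) two_ne_zero)))

lemma smN_WB (hc : 0 < c) (h1 : SmN m x0) (h3 : SmN γ x0) (h4 : SmN r x0) (h5 : SmN Z x0)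
    (h0 : qB c (m x0) 0 (r x0) 0 + qB c (m x0) 0 (r x0 - γ x0 * Z x0) 0 ≠ 0) :
    SmN (fun x => WB c (m x) (γ x) (r x) (Z x)) x0 := by
  unfold WB
  refine SmN.add ?_ (SmN.div ?_ (smN_const 4 x0) (by norm_num))
  · exact (smN_bm h1 (h4.sub ((h3.mul h5).div (smN_const 2 x0) two_ne_zero))).pow 2
  · exact (h1.mul ((smN_RB hc h1 (smN_const 0 x0) h3 h4 h5 (smN_const 0 x0) h0).pow 2)).mul
      ((h3.mul h5).pow 2)

lemma smN_sB (h1 : SmN m x0) (h2 : SmN B x0) (h3 : SmN ρ x0) (h4 : SmN y x0) (h5 : SmN b x0)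
    (h0 : 1 - m x0 * (B x0 * b x0 ^ 2) ≠ 0) :
    SmN (fun x => sB (m x) (B x) (ρ x) (y x) (b x)) x0 := by
  unfold sB
  exact (h4.mul (((smN_const 2 x0).mul h5).sub (h3.mul h4))).div
    ((smN_const 1 x0).sub (h1.mul (h2.mul (h5.pow 2)))) h0

lemma smN_lB (h1 : SmN m x0) (h2 : SmN B x0) (h4 : SmN y x0) (h5 : SmN b x0) (h6 : SmN z x0)
    (h0 : 1 - m x0 * (B x0 * b x0 ^ 2) ≠ 0) :
    SmN (fun x => lB (m x) (B x) (y x) (b x) (z x)) x0 := by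
  unfold lB
  exact (h4.mul h6).div ((smN_const 1 x0).sub (h1.mul (h2.mul (h5.pow 2)))) h0

lemma smN_oB (hc : 0 < c) (h1 : SmN m x0) (h2 : SmN B x0) (h3 : SmN ρ x0) (h4 : SmN γ x0)
    (h5 : SmN Y x0) (h6 : SmN r x0) (h7 : SmN Z x0)
    (h0 : qB c (m x0) 0 (r x0) 0 + qB c (m x0) 0 (r x0 - γ x0 * Z x0) 0 ≠ 0)
    (h0' : WB c (m x0) (γ x0) (r x0) (Z x0) ≠ 0) :
    SmN (fun x => oB c (m x) (B x) (ρ x) (γ x) (Y x) (r x) (Z x)) x0 := by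
  unfold oB
  have hc1 : SmN (fun x => r x - γ x * Z x / 2) x0 :=
    h6.sub ((h4.mul h7).div (smN_const 2 x0) two_ne_zero)
  exact (h5.mul ((smN_bm h1 hc1).add (smN_bm h1 (hc1.sub ((h2.mul h3).mul h5))))).div
    (smN_WB hc h1 h4 h6 h7 h0) h0'

lemma smN_R2 (hc : 0 < c) (h1 : SmN m x0) (h2 : SmN B x0) (h3 : SmN ρ x0) (h4 : SmN γ x0)
    (h5 : SmN y x0) (h6 : SmN b x0) (h7 : SmN Y x0) (h8 : SmN r x0) (h9 : SmN Z x0)
    (h0 : qB c (m x0) (B x0) (r x0 - B x0 * ρ x0 * Y x0) (b x0 - ρ x0 * y x0) +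
      qB c (m x0) (B x0) (r x0 - B x0 * ρ x0 * Y x0 - γ x0 * Z x0) (b x0 - ρ x0 * y x0) ≠ 0) :
    SmN (fun x => RB c (m x) (B x) (γ x) (r x - B x * ρ x * Y x) (Z x) (b x - ρ x * y x)) x0 :=
  smN_RB hc h1 h2 h4 (h8.sub ((h2.mul h3).mul h7)) h9 (h6.sub (h3.mul h5)) h0

lemma smN_NB (h1 : SmN m x0) (h2 : SmN B x0) (h3 : SmN ρ x0) (h4 : SmN γ x0)
    (h5 : SmN y x0) (h6 : SmN b x0) (h9 : SmN Z x0)
    (hR1 : SmN (fun x => RB c (m x) (B x) (γ x) (r x) (Z x) (b x)) x0)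
    (hR2 : SmN (fun x => RB c (m x) (B x) (γ x) (r x - B x * ρ x * Y x) (Z x)
      (b x - ρ x * y x)) x0)
    (h0 : (m x0 + RB c (m x0) (B x0) (γ x0) (r x0) (Z x0) (b x0) ^ 2) * (m x0 +
      RB c (m x0) (B x0) (γ x0) (r x0 - B x0 * ρ x0 * Y x0) (Z x0) (b x0 - ρ x0 * y x0) ^ 2) ≠ 0) :
    SmN (fun x => NB c (m x) (B x) (ρ x) (γ x) (y x) (b x) (Y x) (r x) (Z x)) x0 := by
  unfold NB
  refine SmN.sub (SmN.div ?_ ?_ h0) (((h4.mul h9).pow 2).div (smN_const 4 x0) (by norm_num))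
  · exact (smN_const 1 x0).sub (h1.mul (h2.mul ((h6.sub (h3.mul h5)).pow 2)))
  · exact (h1.add (hR1.pow 2)).mul (h1.add (hR2.pow 2))

lemma smN_EB (h9 : SmN Z x0)
    (hW : SmN (fun x => WB c (m x) (γ x) (r x) (Z x)) x0)
    (hN : SmN (fun x => NB c (m x) (B x) (ρ x) (γ x) (y x) (b x) (Y x) (r x) (Z x)) x0)
    (hR1 : SmN (fun x => RB c (m x) (B x) (γ x) (r x) (Z x) (b x)) x0)
    (hR2 : SmN (fun x => RB c (m x) (B x) (γ x) (r x - B x * ρ x * Y x) (Z x)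
      (b x - ρ x * y x)) x0)
    (h0 : NB c (m x0) (B x0) (ρ x0) (γ x0) (y x0) (b x0) (Y x0) (r x0) (Z x0) *
      (RB c (m x0) (B x0) (γ x0) (r x0) (Z x0) (b x0) +
      RB c (m x0) (B x0) (γ x0) (r x0 - B x0 * ρ x0 * Y x0) (Z x0) (b x0 - ρ x0 * y x0)) ≠ 0) :
    SmN (fun x => EB c (m x) (B x) (ρ x) (γ x) (y x) (b x) (Y x) (r x) (Z x)) x0 := by
  unfold EB
  exact (h9.mul hW).div (hN.mul (hR1.add hR2)) h0

lemma smN_KB (h1 : SmN m x0) (h4 : SmN γ x0) (h9 : SmN Z x0)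
    (hR1 : SmN (fun x => RB c (m x) (B x) (γ x) (r x) (Z x) (b x)) x0)
    (hR0 : SmN (fun x => RB c (m x) 0 (γ x) (r x) (Z x) 0) x0)
    (h0 : 1 - (γ x0 * Z x0) ^ 2 * (m x0 + RB c (m x0) 0 (γ x0) (r x0) (Z x0) 0 ^ 2) *
      (m x0 + RB c (m x0) (B x0) (γ x0) (r x0) (Z x0) (b x0) ^ 2) / 4 ≠ 0) :
    SmN (fun x => KB c (m x) (B x) (γ x) (b x) (r x) (Z x)) x0 := by
  unfold KB
  refine SmN.div ((hR1.pow 2).mul (h1.add (hR0.pow 2))) ?_ h0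
  exact (smN_const 1 x0).sub ((((h4.mul h9).pow 2).mul (h1.add (hR0.pow 2)) |>.mul
    (h1.add (hR1.pow 2))).div (smN_const 4 x0) (by norm_num))

lemma smN_GB (h6 : SmN b x0) (h9 : SmN Z x0)
    (hK : SmN (fun x => KB c (m x) (B x) (γ x) (b x) (r x) (Z x)) x0)
    (hs : SmN (fun x => sB (m x) (B x) (ρ x) (y x) (b x)) x0)
    (hW : SmN (fun x => WB c (m x) (γ x) (r x) (Z x)) x0)
    (h0 : WB c (m x0) (γ x0) (r x0) (Z x0) ≠ 0) :
    SmN (fun x => GB3 c (m x) (B x) (ρ x) (γ x) (y x) (b x) (r x) (Z x)) x0 := by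
  unfold GB3
  exact ((((h9.pow 2).mul (h6.pow 2)).mul hK).mul hs).div ((smN_const 4 x0).mul hW)
    (mul_ne_zero (by norm_num) h0)

lemma smN_JB (hc : 0 < c) (h1 : SmN m x0) (h2 : SmN B x0) (h3 : SmN ρ x0) (h4 : SmN γ x0)
    (hκ : SmN κ x0) (h5 : SmN y x0) (h6 : SmN b x0) (hz : SmN z x0) (h7 : SmN Y x0)
    (h8 : SmN r x0) (h9 : SmN Z x0)
    (d1 : D1B c (m x0) (B x0) (γ x0) (κ x0) (b x0) (z x0) (r x0) (Z x0) ≠ 0)
    (d2 : D2B c (m x0) (B x0) (ρ x0) (γ x0) (κ x0) (y x0) (b x0) (z x0) (Y x0) (r x0) (Z x0) ≠ 0)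
    (d3 : D3B c (m x0) (B x0) (ρ x0) (γ x0) (y x0) (b x0) (Y x0) (r x0) (Z x0) ≠ 0)
    (d4 : D4B c (m x0) (B x0) (ρ x0) (γ x0) (κ x0) (y x0) (b x0) (z x0) (Y x0) (r x0) (Z x0) ≠ 0) :
    SmN (fun x => D1B c (m x) (B x) (γ x) (κ x) (b x) (z x) (r x) (Z x)) x0 ∧
    SmN (fun x => JB c (m x) (B x) (ρ x) (γ x) (κ x) (y x) (b x) (z x) (Y x) (r x) (Z x)) x0 := by
  have r3 : SmN (fun x => r x - γ x * Z x) x0 := h8.sub (h4.mul h9)
  have r4 : SmN (fun x => r x - B x * ρ x * Y x - γ x * Z x) x0 :=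
    (h8.sub ((h2.mul h3).mul h7)).sub (h4.mul h9)
  have b2 : SmN (fun x => b x - ρ x * y x) x0 := h6.sub (h3.mul h5)
  have kz : SmN (fun x => κ x * γ x * z x) x0 := (hκ.mul h4).mul hz
  have b3 : SmN (fun x => b x - κ x * γ x * z x) x0 := h6.sub kz
  have b4 : SmN (fun x => b x - ρ x * y x - κ x * γ x * z x) x0 := b2.sub kz
  have q31 := smN_qB hc h1 h2 r3 h6
  have q33 := smN_qB hc h1 h2 r3 b3
  have q42 := smN_qB hc h1 h2 r4 b2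
  have q44 := smN_qB hc h1 h2 r4 b4
  have bs : SmN (fun x => bm (m x) (r x - γ x * Z x) +
      bm (m x) (r x - B x * ρ x * Y x - γ x * Z x)) x0 := (smN_bm h1 r3).add (smN_bm h1 r4)
  have e1 : SmN (fun x => D1B c (m x) (B x) (γ x) (κ x) (b x) (z x) (r x) (Z x)) x0 := by
    unfold D1B
    exact q31.add q33
  have e2 : SmN (fun x => D2B c (m x) (B x) (ρ x) (γ x) (κ x) (y x) (b x) (z x) (Y x) (r x)
      (Z x)) x0 := by
    unfold D2B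
    exact q42.add q44
  have e3 : SmN (fun x => D3B c (m x) (B x) (ρ x) (γ x) (y x) (b x) (Y x) (r x) (Z x)) x0 := by
    unfold D3B
    exact q42.add q31
  have e4 : SmN (fun x => D4B c (m x) (B x) (ρ x) (γ x) (κ x) (y x) (b x) (z x) (Y x) (r x)
      (Z x)) x0 := by
    unfold D4B
    exact q44.add q33
  refine ⟨e1, ?_⟩
  unfold JB
  refine SmN.div (SmN.add (SmN.div ?_ e3 d3) (SmN.div ?_ e4 d4)) (e1.mul e2) (mul_ne_zero d1 d2)
  · exact (h5.mul (((smN_const 2 x0).mul h6).sub (h3.mul h5))).sub (h7.mul bs)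
  · exact (h5.mul ((((smN_const 2 x0).mul h6).sub ((smN_const 2 x0).mul kz)).sub
      (h3.mul h5))).sub (h7.mul bs)

lemma smN_EB0 (h1 : SmN m x0) (h4 : SmN γ x0) (h9 : SmN Z x0)
    (hW : SmN (fun x => WB c (m x) (γ x) (r x) (Z x)) x0)
    (hR0 : SmN (fun x => RB c (m x) 0 (γ x) (r x) (Z x) 0) x0)
    (h0 : (m x0 + RB c (m x0) 0 (γ x0) (r x0) (Z x0) 0 ^ 2) *
      (m x0 + RB c (m x0) 0 (γ x0) (r x0) (Z x0) 0 ^ 2) ≠ 0)
    (h0' : (1 / ((m x0 + RB c (m x0) 0 (γ x0) (r x0) (Z x0) 0 ^ 2) *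
      (m x0 + RB c (m x0) 0 (γ x0) (r x0) (Z x0) 0 ^ 2)) - (γ x0 * Z x0) ^ 2 / 4) *
      (RB c (m x0) 0 (γ x0) (r x0) (Z x0) 0 + RB c (m x0) 0 (γ x0) (r x0) (Z x0) 0) ≠ 0) :
    SmN (fun x => EB0 c (m x) (γ x) (r x) (Z x)) x0 := by
  unfold EB0
  refine (h9.mul hW).div (SmN.mul (SmN.sub ?_ ?_) (hR0.add hR0)) h0'
  · exact (smN_const 1 x0).div ((h1.add (hR0.pow 2)).mul (h1.add (hR0.pow 2))) h0
  · exact ((h4.mul h9).pow 2).div (smN_const 4 x0) (by norm_num)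

lemma smN_mB (hc : 0 < c) (h1 : SmN m x0) (h4 : SmN γ x0) (h8 : SmN r x0) (h9 : SmN Z x0)
    (hE : SmN (fun x => EB0 c (m x) (γ x) (r x) (Z x)) x0)
    (h0 : qB c (m x0) 0 (r x0 - γ x0 * Z x0) 0 * EB0 c (m x0) (γ x0) (r x0) (Z x0) ≠ 0) :
    SmN (fun x => mB c (m x) (γ x) (r x) (Z x)) x0 := by
  unfold mB
  exact (smN_const (-1) x0).div ((smN_qB hc h1 (smN_const 0 x0) (h8.sub (h4.mul h9))
    (smN_const 0 x0)).mul hE) h0

lemma smN_PsB (h1 : SmN m x0) (h2 : SmN B x0) (h6 : SmN b x0)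
    (hD : SmN (fun x => D1B c (m x) (B x) (γ x) (κ x) (b x) (z x) (r x) (Z x)) x0)
    (hE : SmN (fun x => EB c (m x) (B x) (ρ x) (γ x) (y x) (b x) (Y x) (r x) (Z x)) x0)
    (hm : SmN (fun x => mB c (m x) (γ x) (r x) (Z x)) x0)
    (h0 : D1B c (m x0) (B x0) (γ x0) (κ x0) (b x0) (z x0) (r x0) (Z x0) *
      EB c (m x0) (B x0) (ρ x0) (γ x0) (y x0) (b x0) (Y x0) (r x0) (Z x0) ≠ 0)
    (h0' : 1 - m x0 * (B x0 * b x0 ^ 2) ≠ 0) :
    SmN (fun x => PsB c (m x) (B x) (ρ x) (γ x) (κ x) (y x) (b x) (z x) (Y x) (r x) (Z x)) x0 := by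
  unfold PsB
  exact ((smN_const (-2) x0).div (hD.mul hE) h0).sub
    (hm.div ((smN_const 1 x0).sub (h1.mul (h2.mul (h6.pow 2)))) h0')

end smooth

end Pool.Agent.SDT.N1M

end -- N1M.P3b

section -- N1M.P3c

/-!
N1M, block M3 (type N'): base values; the normal form near the base point.
-/

namespace Pool.Agent.SDT.N1M

open MeasureTheory Set Metric Filter Pool.Agent.SDT.MP_6cbfb8_an Pool.Agent.SDT.MST Pool.Agent.SDT.N1
open Pool.Agent.SDT.N1F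
open scoped ENNReal Real ContDiff Topology

section base

variable (c : ℝ) (hc : 0 < c) (m0 k0 r0 : ℝ)
  (hh : c ^ 2 / 8 ≤ hm m0 r0) (hb : bm m0 r0 ≠ 0)

include hc hh in
lemma Sq_base : Sq c (hm m0 r0) = √(hm m0 r0) ∧ 0 < √(hm m0 r0) ∧
    √(hm m0 r0) ^ 2 = hm m0 r0 := by
  have h0 : 0 < hm m0 r0 := lt_of_lt_of_le (by positivity) hh
  exact ⟨Sq_eq c hc _ hh, Real.sqrt_pos.2 h0, Real.sq_sqrt h0.le⟩

include hc hh in
lemma qB_base (b : ℝ) : qB c m0 0 r0 b = √(hm m0 r0) := by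
  unfold qB
  rw [zero_mul, sub_zero]
  exact (Sq_base c hc m0 r0 hh).1

include hc hh in
lemma RB_base (Z b : ℝ) : RB c m0 0 0 r0 Z b = bm m0 r0 / √(hm m0 r0) := by
  unfold RB
  simp only [zero_mul, zero_div, sub_zero]
  rw [qB_base c hc m0 r0 hh]
  have := (Sq_base c hc m0 r0 hh).2.1
  field_simp
  ring

include hc hh in
lemma mR_base (Z b : ℝ) : m0 + RB c m0 0 0 r0 Z b ^ 2 = 1 / √(hm m0 r0) ^ 2 := by
  rw [RB_base c hc m0 r0 hh]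
  obtain ⟨-, h1, h2⟩ := Sq_base c hc m0 r0 hh
  have h3 := hm_bm m0 r0
  rw [div_pow, h3, h2]
  rw [h2.symm] at h3 ⊢
  field_simp
  ring

lemma WB_base (Z : ℝ) : WB c m0 0 r0 Z = bm m0 r0 ^ 2 := by
  unfold WB
  simp

include hc hh in
lemma NB_base (y b Y Z : ℝ) : NB c m0 0 0 0 y b Y r0 Z = √(hm m0 r0) ^ 4 := by
  unfold NB
  simp only [zero_mul, mul_zero, sub_zero]
  rw [mR_base c hc m0 r0 hh]
  have := (Sq_base c hc m0 r0 hh).2.1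
  simp
  ring

include hc hh hb in
lemma EB_base (y b Y Z : ℝ) : EB c m0 0 0 0 y b Y r0 Z =
    Z * bm m0 r0 / (2 * √(hm m0 r0) ^ 3) := by
  unfold EB
  rw [NB_base c hc m0 r0 hh, WB_base]
  simp only [zero_mul, sub_zero]
  rw [RB_base c hc m0 r0 hh]
  have := (Sq_base c hc m0 r0 hh).2.1
  field_simp
  ring

include hc hh hb in
lemma EB0_base (Z : ℝ) : EB0 c m0 0 r0 Z = Z * bm m0 r0 / (2 * √(hm m0 r0) ^ 3) := by
  unfold EB0
  rw [WB_base, mR_base c hc m0 r0 hh, RB_base c hc m0 r0 hh]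
  have := (Sq_base c hc m0 r0 hh).2.1
  simp only [zero_mul]
  field_simp
  ring

include hc hh in
lemma D1B_base (κ b z Z : ℝ) : D1B c m0 0 0 κ b z r0 Z = 2 * √(hm m0 r0) := by
  unfold D1B
  simp only [zero_mul, sub_zero, mul_zero]
  rw [qB_base c hc m0 r0 hh]
  ring

include hc hh in
lemma D2B_base (κ y b z Y Z : ℝ) : D2B c m0 0 0 0 κ y b z Y r0 Z = 2 * √(hm m0 r0) := by
  unfold D2B
  simp only [zero_mul, sub_zero, mul_zero]
  rw [qB_base c hc m0 r0 hh]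
  ring

include hc hh in
lemma D3B_base (y b Y Z : ℝ) : D3B c m0 0 0 0 y b Y r0 Z = 2 * √(hm m0 r0) := by
  unfold D3B
  simp only [zero_mul, sub_zero]
  rw [qB_base c hc m0 r0 hh]
  ring

include hc hh in
lemma D4B_base (κ y b z Y Z : ℝ) : D4B c m0 0 0 0 κ y b z Y r0 Z = 2 * √(hm m0 r0) := by
  unfold D4B
  simp only [zero_mul, sub_zero, mul_zero]
  rw [qB_base c hc m0 r0 hh]
  ring

end base

/-! ### The functions on the parameter space -/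

noncomputable def sgQ (x : P6 × V) : ℝ := sB x.1.2.1 x.1.1 x.1.2.2.1 x.2.1 x.2.2.1

noncomputable def lQ (x : P6 × V) : ℝ := lB x.1.2.1 x.1.1 x.2.1 x.2.2.1 x.2.2.2

noncomputable def omQ (c : ℝ) (x : P6 × V) : ℝ :=
  oB c x.1.2.1 x.1.1 x.1.2.2.1 x.1.2.2.2.1 x.2.1 x.2.2.1 x.2.2.2

noncomputable def mQ (c : ℝ) (x : P6 × V) : ℝ := mB c x.1.2.1 x.1.2.2.2.1 x.2.2.1 x.2.2.2

noncomputable def EQ (c : ℝ) (x : P6 × V × V) : ℝ :=
  EB c x.1.2.1 x.1.1 x.1.2.2.1 x.1.2.2.2.1 x.2.1.1 x.2.1.2.1 x.2.2.1 x.2.2.2.1 x.2.2.2.2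

noncomputable def JQ (c : ℝ) (x : P6 × V × V) : ℝ :=
  JB c x.1.2.1 x.1.1 x.1.2.2.1 x.1.2.2.2.1 x.1.2.2.2.2.1 x.2.1.1 x.2.1.2.1 x.2.1.2.2 x.2.2.1
    x.2.2.2.1 x.2.2.2.2

noncomputable def GQ2 (c : ℝ) (x : P6 × V × V) : ℝ :=
  GB3 c x.1.2.1 x.1.1 x.1.2.2.1 x.1.2.2.2.1 x.2.1.1 x.2.1.2.1 x.2.2.2.1 x.2.2.2.2

noncomputable def PsQ (c : ℝ) (x : P6 × V × V) : ℝ :=
  PsB c x.1.2.1 x.1.1 x.1.2.2.1 x.1.2.2.2.1 x.1.2.2.2.2.1 x.2.1.1 x.2.1.2.1 x.2.1.2.2 x.2.2.1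
    x.2.2.2.1 x.2.2.2.2

/-- The phase in scaled variables. -/
noncomputable def FQ (c B m ρ γ κ : ℝ) (a b : V) : ℝ :=
  qB c m B b.2.1 a.2.1 - qB c m B (b.2.1 - B * ρ * b.1) (a.2.1 - ρ * a.1) -
    qB c m B (b.2.1 - γ * b.2.2) (a.2.1 - κ * γ * a.2.2) +
    qB c m B (b.2.1 - B * ρ * b.1 - γ * b.2.2) (a.2.1 - ρ * a.1 - κ * γ * a.2.2)

/-- Good points. -/
def okQ (c B m ρ γ κ : ℝ) (a b : V) : Prop :=
  (c ^ 2 / 8 ≤ hm m b.2.1 - B * a.2.1 ^ 2 ∧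
  c ^ 2 / 8 ≤ hm m (b.2.1 - B * ρ * b.1) - B * (a.2.1 - ρ * a.1) ^ 2 ∧
  c ^ 2 / 8 ≤ hm m (b.2.1 - γ * b.2.2) - B * (a.2.1 - κ * γ * a.2.2) ^ 2 ∧
  c ^ 2 / 8 ≤ hm m (b.2.1 - B * ρ * b.1 - γ * b.2.2) -
    B * (a.2.1 - ρ * a.1 - κ * γ * a.2.2) ^ 2) ∧
  (c ^ 2 / 8 ≤ hm m (b.2.1 - γ * b.2.2) - B * a.2.1 ^ 2 ∧
  c ^ 2 / 8 ≤ hm m (b.2.1 - B * ρ * b.1 - γ * b.2.2) - B * (a.2.1 - ρ * a.1) ^ 2 ∧
  c ^ 2 / 8 ≤ hm m b.2.1 - 0 * (0 : ℝ) ^ 2 ∧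
  c ^ 2 / 8 ≤ hm m (b.2.1 - γ * b.2.2) - 0 * (0 : ℝ) ^ 2) ∧
  m + RB c m B γ b.2.1 b.2.2 a.2.1 ^ 2 ≠ 0 ∧
  m + RB c m B γ (b.2.1 - B * ρ * b.1) b.2.2 (a.2.1 - ρ * a.1) ^ 2 ≠ 0 ∧
  1 - m * (B * a.2.1 ^ 2) ≠ 0 ∧
  1 - (γ * b.2.2) ^ 2 * (m + RB c m 0 γ b.2.1 b.2.2 0 ^ 2) *
    (m + RB c m B γ b.2.1 b.2.2 a.2.1 ^ 2) / 4 ≠ 0 ∧
  WB c m γ b.2.1 b.2.2 ≠ 0 ∧
  NB c m B ρ γ a.1 a.2.1 b.1 b.2.1 b.2.2 ≠ 0 ∧
  RB c m B γ b.2.1 b.2.2 a.2.1 + RB c m B γ (b.2.1 - B * ρ * b.1) b.2.2 (a.2.1 - ρ * a.1) ≠ 0 ∧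
  EB c m B ρ γ a.1 a.2.1 b.1 b.2.1 b.2.2 ≠ 0

lemma qB_sq (c : ℝ) (hc : 0 < c) (m B r b : ℝ) (h : c ^ 2 / 8 ≤ hm m r - B * b ^ 2) :
    0 < qB c m B r b ∧ qB c m B r b ^ 2 = hm m r - B * b ^ 2 := by
  have h0 : 0 < hm m r - B * b ^ 2 := lt_of_lt_of_le (by positivity) h
  unfold qB
  rw [Sq_eq c hc _ h]
  exact ⟨Real.sqrt_pos.2 h0, Real.sq_sqrt h0.le⟩

/-- The normal form. -/
lemma nfQ (c : ℝ) (hc : 0 < c) (B m ρ γ κ η : ℝ) (a b : V) (hok : okQ c B m ρ γ κ a b)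
    (hη : κ * η = m * γ ^ 2) (G1 : ℝ)
    (hG : PsB c m B ρ γ κ a.1 a.2.1 a.2.2 b.1 b.2.1 b.2.2 = B * G1) :
    FQ c B m ρ γ κ a b = B * ρ * γ * (EB c m B ρ γ a.1 a.2.1 b.1 b.2.1 b.2.2 *
      (sB m B ρ a.1 a.2.1 - oB c m B ρ γ b.1 b.2.1 b.2.2 +
        κ * (lB m B a.1 a.2.1 a.2.2 * mB c m γ b.2.1 b.2.2 +
          B * (-(a.2.2 * (2 * (a.2.1 - ρ * a.1) - κ * γ * a.2.2) *
            JB c m B ρ γ κ a.1 a.2.1 a.2.2 b.1 b.2.1 b.2.2 /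
              EB c m B ρ γ a.1 a.2.1 b.1 b.2.1 b.2.2) +
            a.1 * a.2.2 * G1 + η * GB3 c m B ρ γ a.1 a.2.1 b.2.1 b.2.2)))) := by
  obtain ⟨y, b', z⟩ := a
  obtain ⟨Y, r, Z⟩ := b
  obtain ⟨⟨v1, v2, v3, v4⟩, ⟨w1, w2, w3, w4⟩, m1, m2, m3, m4, m5, m6, m7, m8⟩ := hok
  simp only at v1 v2 v3 v4 w1 w2 w3 w4 m1 m2 m3 m4 m5 m6 m7 m8 hG ⊢
  obtain ⟨p11, s11⟩ := qB_sq c hc _ _ _ _ v1
  obtain ⟨p22, s22⟩ := qB_sq c hc _ _ _ _ v2
  obtain ⟨p33, s33⟩ := qB_sq c hc _ _ _ _ v3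
  obtain ⟨p44, s44⟩ := qB_sq c hc _ _ _ _ v4
  obtain ⟨p31, s31⟩ := qB_sq c hc _ _ _ _ w1
  obtain ⟨p42, s42⟩ := qB_sq c hc _ _ _ _ w2
  obtain ⟨p10, s10⟩ := qB_sq c hc _ _ _ _ w3
  obtain ⟨p30, s30⟩ := qB_sq c hc _ _ _ _ w4
  have k1 := F1_id B m ρ γ y b' Y r Z _ _ _ _ _ _ (r - γ * Z / 2) (r - γ * Z / 2 - B * ρ * Y)
    (RB c m B γ r Z b') (RB c m B γ (r - B * ρ * Y) Z (b' - ρ * y)) (RB c m 0 γ r Z 0)
    (WB c m γ r Z) (NB c m B ρ γ y b' Y r Z) (KB c m B γ b' r Z) (sB m B ρ y b')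
    (oB c m B ρ γ Y r Z) (GB3 c m B ρ γ y b' r Z) s11 s31 s22 s42 (by rw [s10]; ring)
    (by rw [s30]; ring) (by positivity) (by positivity) (by positivity) rfl rfl rfl
    (by unfold RB; ring_nf) rfl rfl rfl rfl rfl rfl rfl m1 m2 m3 m4 m5 m6 m7
  have k2 := F2_id B m ρ γ κ y b' z Y r Z _ _ _ _ (y * (2 * b' - ρ * y))
    (y * (2 * b' - 2 * (κ * γ * z) - ρ * y))
    (bm m (r - γ * Z) + bm m (r - B * ρ * Y - γ * Z)) (D1B c m B γ κ b' z r Z)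
    (D2B c m B ρ γ κ y b' z Y r Z) (JB c m B ρ γ κ y b' z Y r Z) s31 s33 s42 s44
    (by unfold D1B; positivity) (by unfold D2B; positivity) (by positivity) (by positivity)
    rfl rfl rfl rfl rfl rfl
  have hE : EB c m B ρ γ y b' Y r Z = Z * WB c m γ r Z / (NB c m B ρ γ y b' Y r Z *
    (RB c m B γ r Z b' + RB c m B γ (r - B * ρ * Y) Z (b' - ρ * y))) := rfl
  rw [← hE] at k1
  have hD : 0 < D1B c m B γ κ b' z r Z := by unfold D1B; positivity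
  unfold PsB at hG
  have hF : FQ c B m ρ γ κ (y, b', z) (Y, r, Z) =
      (qB c m B r b' - qB c m B (r - γ * Z) b' - (qB c m B (r - B * ρ * Y) (b' - ρ * y) -
        qB c m B (r - B * ρ * Y - γ * Z) (b' - ρ * y))) +
      (qB c m B (r - γ * Z) b' - qB c m B (r - γ * Z) (b' - κ * γ * z) -
        (qB c m B (r - B * ρ * Y - γ * Z) (b' - ρ * y) -
          qB c m B (r - B * ρ * Y - γ * Z) (b' - ρ * y - κ * γ * z))) := by
    unfold FQ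
    ring
  rw [hF, k1, k2]
  have hl : lB m B y b' z = y * z / (1 - m * (B * b' ^ 2)) := rfl
  rw [hl]
  generalize EB c m B ρ γ y b' Y r Z = E at *
  generalize D1B c m B γ κ b' z r Z = D1 at *
  generalize JB c m B ρ γ κ y b' z Y r Z = J at *
  generalize mB c m γ r Z = M at *
  generalize sB m B ρ y b' = sg at *
  generalize oB c m B ρ γ Y r Z = om at *
  generalize GB3 c m B ρ γ y b' r Z = G2 at *
  generalize 1 - m * (B * b' ^ 2) = u at *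
  have hG' : -2 / D1 = E * (M / u + B * G1) := by
    rw [← hG]
    field_simp
    ring
  have h1 : -(2 * (y * z)) / D1 = y * z * (E * (M / u + B * G1)) := by
    rw [← hG']
    ring
  have h2 : E * (z * (2 * (b' - ρ * y) - κ * γ * z) * J / E) =
      z * (2 * (b' - ρ * y) - κ * γ * z) * J := by
    field_simp
  rw [h1]
  linear_combination (B * ρ * γ * κ * B) * h2 - (B * ρ * γ * E * B * G2) * hη

end Pool.Agent.SDT.N1M

end -- N1M.P3c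

section -- N1M.P3e

/-!
N1M, block M3 (type N'): smoothness and the normal form near the base point.
-/

namespace Pool.Agent.SDT.N1M

open MeasureTheory Set Metric Filter Pool.Agent.SDT.MP_6cbfb8_an Pool.Agent.SDT.MST Pool.Agent.SDT.N1
open Pool.Agent.SDT.N1F
open scoped ENNReal Real ContDiff Topology

/-- Base parameters. -/
def bp (m0 k0 : ℝ) : P6 := (0, m0, 0, 0, k0, 0)

section base

variable (c : ℝ) (hc : 0 < c) (hc1 : c ≤ 1) (m0 k0 : ℝ) (a0 b0 : V)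
  (hh : 1 / 4 ≤ hm m0 b0.2.1) (hb : 1 / 2 ≤ bm m0 b0.2.1) (hZ : b0.2.2 ≠ 0)

include hc hc1 hh hb hZ in
lemma smQ : SmN (EQ c) (bp m0 k0, a0, b0) ∧ SmN (JQ c) (bp m0 k0, a0, b0) ∧
    SmN (GQ2 c) (bp m0 k0, a0, b0) ∧ SmN (PsQ c) (bp m0 k0, a0, b0) ∧
    EQ c (bp m0 k0, a0, b0) ≠ 0 ∧ ∀ᶠ x in 𝓝 (bp m0 k0, a0, b0),
      okQ c x.1.1 x.1.2.1 x.1.2.2.1 x.1.2.2.2.1 x.1.2.2.2.2.1 x.2.1 x.2.2 := by
  have hh8 : c ^ 2 / 8 ≤ hm m0 b0.2.1 := by nlinarith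
  have hq := (Sq_base c hc m0 b0.2.1 hh8).2.1
  have hb' : 0 < bm m0 b0.2.1 := by linarith
  have hm' : SmN (fun x : P6 × V × V => x.1.2.1) (bp m0 k0, a0, b0) := smN_of (by fun_prop)
  have hB' : SmN (fun x : P6 × V × V => x.1.1) (bp m0 k0, a0, b0) := smN_of (by fun_prop)
  have hρ' : SmN (fun x : P6 × V × V => x.1.2.2.1) (bp m0 k0, a0, b0) := smN_of (by fun_prop)
  have hγ' : SmN (fun x : P6 × V × V => x.1.2.2.2.1) (bp m0 k0, a0, b0) := smN_of (by fun_prop)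
  have hκ' : SmN (fun x : P6 × V × V => x.1.2.2.2.2.1) (bp m0 k0, a0, b0) :=
    smN_of (by fun_prop)
  have hy' : SmN (fun x : P6 × V × V => x.2.1.1) (bp m0 k0, a0, b0) := smN_of (by fun_prop)
  have hb1 : SmN (fun x : P6 × V × V => x.2.1.2.1) (bp m0 k0, a0, b0) := smN_of (by fun_prop)
  have hz' : SmN (fun x : P6 × V × V => x.2.1.2.2) (bp m0 k0, a0, b0) := smN_of (by fun_prop)
  have hY' : SmN (fun x : P6 × V × V => x.2.2.1) (bp m0 k0, a0, b0) := smN_of (by fun_prop)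
  have hr' : SmN (fun x : P6 × V × V => x.2.2.2.1) (bp m0 k0, a0, b0) := smN_of (by fun_prop)
  have hZ' : SmN (fun x : P6 × V × V => x.2.2.2.2) (bp m0 k0, a0, b0) := smN_of (by fun_prop)
  have hqq : ∀ b : ℝ, qB c m0 0 b0.2.1 b + qB c m0 0 (b0.2.1 - 0 * b0.2.2) b ≠ 0 := by
    intro b
    rw [zero_mul, sub_zero, qB_base c hc m0 _ hh8]
    positivity
  have hqq' : ∀ b : ℝ, qB c m0 0 (b0.2.1 - 0 * 0 * b0.1) b +
      qB c m0 0 (b0.2.1 - 0 * 0 * b0.1 - 0 * b0.2.2) b ≠ 0 := by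
    intro b
    simp only [zero_mul, sub_zero]
    rw [qB_base c hc m0 _ hh8]
    positivity
  have R1 := smN_RB hc hm' hB' hγ' hr' hZ' hb1 (hqq _)
  have R0 := smN_RB hc hm' (smN_const 0 _) hγ' hr' hZ' (smN_const 0 _) (hqq _)
  have R2 := smN_R2 hc hm' hB' hρ' hγ' hy' hb1 hY' hr' hZ' (hqq' _)
  have W := smN_WB hc hm' hγ' hr' hZ' (hqq _)
  have hW0 : WB c m0 0 b0.2.1 b0.2.2 ≠ 0 := by
    rw [WB_base]
    positivity
  have n1 : (m0 + RB c m0 0 0 b0.2.1 b0.2.2 a0.2.1 ^ 2) *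
      (m0 + RB c m0 0 0 (b0.2.1 - 0 * 0 * b0.1) b0.2.2 (a0.2.1 - 0 * a0.1) ^ 2) ≠ 0 := by
    simp only [zero_mul, sub_zero]
    rw [mR_base c hc m0 _ hh8]
    positivity
  have N := smN_NB hm' hB' hρ' hγ' hy' hb1 hZ' R1 R2 n1
  have n2 : NB c m0 0 0 0 a0.1 a0.2.1 b0.1 b0.2.1 b0.2.2 *
      (RB c m0 0 0 b0.2.1 b0.2.2 a0.2.1 +
      RB c m0 0 0 (b0.2.1 - 0 * 0 * b0.1) b0.2.2 (a0.2.1 - 0 * a0.1)) ≠ 0 := by
    simp only [zero_mul, sub_zero]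
    rw [NB_base c hc m0 _ hh8, RB_base c hc m0 _ hh8]
    positivity
  have E := smN_EB hZ' W N R1 R2 n2
  have n3 : 1 - (0 * b0.2.2) ^ 2 * (m0 + RB c m0 0 0 b0.2.1 b0.2.2 0 ^ 2) *
      (m0 + RB c m0 0 0 b0.2.1 b0.2.2 a0.2.1 ^ 2) / 4 ≠ 0 := by
    simp
  have K := smN_KB hm' hγ' hZ' R1 R0 n3
  have n4 : 1 - m0 * (0 * a0.2.1 ^ 2) ≠ 0 := by simp
  have S := smN_sB hm' hB' hρ' hy' hb1 n4
  have G := smN_GB hb1 hZ' K S W hW0
  have J := smN_JB (m := fun x : P6 × V × V => x.1.2.1) (B := fun x : P6 × V × V => x.1.1)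
    (ρ := fun x : P6 × V × V => x.1.2.2.1)
    (γ := fun x : P6 × V × V => x.1.2.2.2.1) (κ := fun x : P6 × V × V => x.1.2.2.2.2.1)
    (y := fun x : P6 × V × V => x.2.1.1) (b := fun x : P6 × V × V => x.2.1.2.1)
    (z := fun x : P6 × V × V => x.2.1.2.2) (Y := fun x : P6 × V × V => x.2.2.1)
    (r := fun x : P6 × V × V => x.2.2.2.1) (Z := fun x : P6 × V × V => x.2.2.2.2)
    hc hm' hB' hρ' hγ' hκ' hy' hb1 hz' hY' hr' hZ'
    (by
      show D1B c m0 0 0 k0 a0.2.1 a0.2.2 b0.2.1 b0.2.2 ≠ 0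
      rw [D1B_base c hc m0 _ hh8]; positivity)
    (by
      show D2B c m0 0 0 0 k0 a0.1 a0.2.1 a0.2.2 b0.1 b0.2.1 b0.2.2 ≠ 0
      rw [D2B_base c hc m0 _ hh8]; positivity)
    (by
      show D3B c m0 0 0 0 a0.1 a0.2.1 b0.1 b0.2.1 b0.2.2 ≠ 0
      rw [D3B_base c hc m0 _ hh8]; positivity)
    (by
      show D4B c m0 0 0 0 k0 a0.1 a0.2.1 a0.2.2 b0.1 b0.2.1 b0.2.2 ≠ 0
      rw [D4B_base c hc m0 _ hh8]; positivity)
  have n5 : (m0 + RB c m0 0 0 b0.2.1 b0.2.2 0 ^ 2) *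
      (m0 + RB c m0 0 0 b0.2.1 b0.2.2 0 ^ 2) ≠ 0 := by
    rw [mR_base c hc m0 _ hh8]
    positivity
  have n6 : (1 / ((m0 + RB c m0 0 0 b0.2.1 b0.2.2 0 ^ 2) *
      (m0 + RB c m0 0 0 b0.2.1 b0.2.2 0 ^ 2)) - (0 * b0.2.2) ^ 2 / 4) *
      (RB c m0 0 0 b0.2.1 b0.2.2 0 + RB c m0 0 0 b0.2.1 b0.2.2 0) ≠ 0 := by
    rw [mR_base c hc m0 _ hh8, RB_base c hc m0 _ hh8]
    simp only [zero_mul]
    have : (1 / (1 / √(hm m0 b0.2.1) ^ 2 * (1 / √(hm m0 b0.2.1) ^ 2)) - (0:ℝ) ^ 2 / 4) =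
      √(hm m0 b0.2.1) ^ 4 := by
      field_simp
      ring
    rw [this]
    positivity
  have E0 := smN_EB0 hm' hγ' hZ' W R0 n5 n6
  have hE0 : EB c m0 0 0 0 a0.1 a0.2.1 b0.1 b0.2.1 b0.2.2 ≠ 0 := by
    rw [EB_base c hc m0 _ hh8 hb'.ne']
    exact div_ne_zero (mul_ne_zero hZ hb'.ne') (by positivity)
  have n7 : qB c m0 0 (b0.2.1 - 0 * b0.2.2) 0 * EB0 c m0 0 b0.2.1 b0.2.2 ≠ 0 := by
    rw [EB0_base c hc m0 _ hh8 hb'.ne', zero_mul, sub_zero, qB_base c hc m0 _ hh8]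
    exact mul_ne_zero hq.ne' (div_ne_zero (mul_ne_zero hZ hb'.ne') (by positivity))
  have M := smN_mB hc hm' hγ' hr' hZ' E0 n7
  have Ps := smN_PsB hm' hB' hb1 J.1 E M
    (by
      show D1B c m0 0 0 k0 a0.2.1 a0.2.2 b0.2.1 b0.2.2 *
        EB c m0 0 0 0 a0.1 a0.2.1 b0.1 b0.2.1 b0.2.2 ≠ 0
      rw [D1B_base c hc m0 _ hh8]
      exact mul_ne_zero (by positivity) hE0) n4
  refine ⟨E, J.2, G, Ps, hE0, ?_⟩
  have hv : ∀ v : P6 × V × V → ℝ, Continuous v → v (bp m0 k0, a0, b0) = hm m0 b0.2.1 →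
      ∀ᶠ x in 𝓝 (bp m0 k0, a0, b0), c ^ 2 / 8 ≤ v x := by
    intro v hv h0
    have h1 : c ^ 2 / 8 < v (bp m0 k0, a0, b0) := by
      rw [h0]
      nlinarith
    filter_upwards [hv.continuousAt.eventually (lt_mem_nhds h1)] with x hx using hx.le
  have v1 := hv (fun x => hm x.1.2.1 x.2.2.2.1 - x.1.1 * x.2.1.2.1 ^ 2)
    (by unfold hm; fun_prop) (by simp [bp])
  have v2 := hv (fun x => hm x.1.2.1 (x.2.2.2.1 - x.1.1 * x.1.2.2.1 * x.2.2.1) -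
    x.1.1 * (x.2.1.2.1 - x.1.2.2.1 * x.2.1.1) ^ 2) (by unfold hm; fun_prop) (by simp [bp])
  have v3 := hv (fun x => hm x.1.2.1 (x.2.2.2.1 - x.1.2.2.2.1 * x.2.2.2.2) -
    x.1.1 * (x.2.1.2.1 - x.1.2.2.2.2.1 * x.1.2.2.2.1 * x.2.1.2.2) ^ 2)
    (by unfold hm; fun_prop) (by simp [bp])
  have v4 := hv (fun x => hm x.1.2.1 (x.2.2.2.1 - x.1.1 * x.1.2.2.1 * x.2.2.1 -
    x.1.2.2.2.1 * x.2.2.2.2) - x.1.1 * (x.2.1.2.1 - x.1.2.2.1 * x.2.1.1 -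
      x.1.2.2.2.2.1 * x.1.2.2.2.1 * x.2.1.2.2) ^ 2) (by unfold hm; fun_prop) (by simp [bp])
  have w1 := hv (fun x => hm x.1.2.1 (x.2.2.2.1 - x.1.2.2.2.1 * x.2.2.2.2) -
    x.1.1 * x.2.1.2.1 ^ 2) (by unfold hm; fun_prop) (by simp [bp])
  have w2 := hv (fun x => hm x.1.2.1 (x.2.2.2.1 - x.1.1 * x.1.2.2.1 * x.2.2.1 -
    x.1.2.2.2.1 * x.2.2.2.2) - x.1.1 * (x.2.1.2.1 - x.1.2.2.1 * x.2.1.1) ^ 2)
    (by unfold hm; fun_prop) (by simp [bp])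
  have w3 := hv (fun x => hm x.1.2.1 x.2.2.2.1 - 0 * (0 : ℝ) ^ 2)
    (by unfold hm; fun_prop) (by simp [bp])
  have w4 := hv (fun x => hm x.1.2.1 (x.2.2.2.1 - x.1.2.2.2.1 * x.2.2.2.2) - 0 * (0 : ℝ) ^ 2)
    (by unfold hm; fun_prop) (by simp [bp])
  have c1 := (hm'.add (R1.pow 2)).cont.eventually_ne
    (by show m0 + RB c m0 0 0 b0.2.1 b0.2.2 a0.2.1 ^ 2 ≠ 0
        exact left_ne_zero_of_mul n1)
  have c2 := (hm'.add (R2.pow 2)).cont.eventually_ne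
    (by show m0 + RB c m0 0 0 (b0.2.1 - 0 * 0 * b0.1) b0.2.2 (a0.2.1 - 0 * a0.1) ^ 2 ≠ 0
        exact right_ne_zero_of_mul n1)
  have c3 := ((smN_const 1 _).sub (hm'.mul (hB'.mul (hb1.pow 2)))).cont.eventually_ne n4
  have c4 := ((smN_const 1 _).sub ((((hγ'.mul hZ').pow 2).mul (hm'.add (R0.pow 2)) |>.mul
    (hm'.add (R1.pow 2))).div (smN_const 4 _) (by norm_num))).cont.eventually_ne n3
  have c5 := W.cont.eventually_ne hW0
  have c6 := N.cont.eventually_ne (left_ne_zero_of_mul n2)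
  have c7 := (R1.add R2).cont.eventually_ne (right_ne_zero_of_mul n2)
  have c8 := E.cont.eventually_ne hE0
  filter_upwards [v1, v2, v3, v4, w1, w2, w3, w4, c1, c2, c3, c4, c5, c6, c7, c8] with x
    g1 g2 g3 g4 g5 g6 g7 g8 g9 g10 g11 g12 g13 g14 g15 g16
  exact ⟨⟨g1, g2, g3, g4⟩, ⟨g5, g6, g7, g8⟩, g9, g10, g11, g12, g13, g14, g15, g16⟩

end base

end Pool.Agent.SDT.N1M

end -- N1M.P3e
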