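import Pool.Agent.SDT.B17
import Pool.Agent.SDT.B29

set_option autoImplicit false

namespace Pool.Agent.SDT.MP_6cbfb8_an
end Pool.Agent.SDT.MP_6cbfb8_an
namespace Pool.Agent.SDT.MST
end Pool.Agent.SDT.MST
namespace Pool.Agent.SDT.N1
end Pool.Agent.SDT.N1
namespace Pool.Agent.SDT.N1F
end Pool.Agent.SDT.N1F
namespace Pool.Agent.SDT.N1G
end Pool.Agent.SDT.N1G

section -- N1M.E5

/-!
N1M, block M4: E_DD4 and E_strip4.
-/

namespace Pool.Agent.SDT.N1M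

open MeasureTheory Set Metric Pool.Agent.SDT.MP_6cbfb8_an Pool.Agent.SDT.MST Pool.Agent.SDT.N1
open Pool.Agent.SDT.N1F Pool.Agent.SDT.N1G
open scoped ENNReal Real ContDiff

/-- The phase of a rectangle in terms of square roots. -/
theorem FrM_sqrt (c m : ℝ) (hc : 0 < c) (q : V × V)
    (h1 : c ^ 2 / 8 ≤ hm m q.2.2.1 - q.1.2.1 ^ 2)
    (h2 : c ^ 2 / 8 ≤ hm m (q.2.2.1 - q.2.1) - (q.1.2.1 - q.1.1) ^ 2)
    (h3 : c ^ 2 / 8 ≤ hm m (q.2.2.1 - q.2.2.2) - (q.1.2.1 - q.1.2.2) ^ 2)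
    (h4 : c ^ 2 / 8 ≤ hm m (q.2.2.1 - q.2.1 - q.2.2.2) - (q.1.2.1 - q.1.1 - q.1.2.2) ^ 2) :
    FrM c m q = √(hm m q.2.2.1 - q.1.2.1 ^ 2) -
      √(hm m (q.2.2.1 - q.2.1) - (q.1.2.1 - q.1.1) ^ 2) -
      √(hm m (q.2.2.1 - q.2.2.2) - (q.1.2.1 - q.1.2.2) ^ 2) +
      √(hm m (q.2.2.1 - q.2.1 - q.2.2.2) - (q.1.2.1 - q.1.1 - q.1.2.2) ^ 2) := by
  have e1 : FrM c m q = (Sq c (hm m q.2.2.1 - q.1.2.1 ^ 2) -
      Sq c (hm m (q.2.2.1 - q.2.1) - (q.1.2.1 - q.1.1) ^ 2)) -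
      (Sq c (hm m (q.2.2.1 - q.2.2.2) - (q.1.2.1 - q.1.2.2) ^ 2) -
      Sq c (hm m (q.2.2.1 - q.2.2.2 - q.2.1) - (q.1.2.1 - q.1.2.2 - q.1.1) ^ 2)) := rfl
  have e2 : q.2.2.1 - q.2.2.2 - q.2.1 = q.2.2.1 - q.2.1 - q.2.2.2 := by ring
  have e3 : q.1.2.1 - q.1.2.2 - q.1.1 = q.1.2.1 - q.1.1 - q.1.2.2 := by ring
  rw [e1, e2, e3, e_Sq_eq hc h1, e_Sq_eq hc h2, e_Sq_eq hc h3, e_Sq_eq hc h4]
  ring

/-- On the support of the amplitude. -/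
theorem Wg_supp (c m : ℝ) (hc : 0 < c) (q : V × V) (hW : Wg (dam (wm c m)) q ≠ 0) :
    c ^ 2 / 4 < hm m q.2.2.1 - q.1.2.1 ^ 2 ∧
    c ^ 2 / 4 < hm m (q.2.2.1 - q.2.1) - (q.1.2.1 - q.1.1) ^ 2 ∧
    c ^ 2 / 4 < hm m (q.2.2.1 - q.2.2.2) - (q.1.2.1 - q.1.2.2) ^ 2 ∧
    c ^ 2 / 4 < hm m (q.2.2.1 - q.2.1 - q.2.2.2) - (q.1.2.1 - q.1.1 - q.1.2.2) ^ 2 := by
  have key : ∀ x : ℝ × ℝ, wm c m x ≠ 0 → c ^ 2 / 4 < hm m x.2 - x.1 ^ 2 := by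
    intro x hx
    by_contra hle
    apply hx
    unfold wm
    rw [f1_sma_zero c hc _ (not_lt.1 hle), ite_self]
  have e : Wg (dam (wm c m)) q = (wm c m (q.1.2.1, q.2.2.1) *
      wm c m (q.1.2.1 - q.1.1, q.2.2.1 - q.2.1)) *
      (wm c m (q.1.2.1 - q.1.2.2, q.2.2.1 - q.2.2.2) *
      wm c m (q.1.2.1 - q.1.2.2 - q.1.1, q.2.2.1 - q.2.2.2 - q.2.1)) := rfl
  rw [e] at hW
  have hW1 := left_ne_zero_of_mul hW
  have hW2 := right_ne_zero_of_mul hW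
  have k1 := key _ (left_ne_zero_of_mul hW1)
  have k2 := key _ (right_ne_zero_of_mul hW1)
  have k3 := key _ (left_ne_zero_of_mul hW2)
  have k4 := key _ (right_ne_zero_of_mul hW2)
  have e2 : q.2.2.1 - q.2.2.2 - q.2.1 = q.2.2.1 - q.2.1 - q.2.2.2 := by ring
  have e3 : q.1.2.1 - q.1.2.2 - q.1.1 = q.1.2.1 - q.1.1 - q.1.2.2 := by ring
  simp only [e2, e3] at k4
  exact ⟨k1, k2, k3, k4⟩

/-- Strips `|a| ≤ w` (any signs). -/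
theorem E_strip4 (c : ℝ) (hc : 0 < c) (hc1 : c ≤ 1) : ∃ c1 C r : ℝ, 0 < c1 ∧ 0 ≤ C ∧ 0 < r ∧ ∀ w m : ℝ, 0 ≤ w →
    w ≤ 1 → 0 ≤ m → m ≤ 1 → ∀ q : V × V, |q.1.2.1| ≤ w → |q.1.2.1 - q.1.1| ≤ w →
    |q.1.2.1 - q.1.2.2| ≤ w → |q.1.2.1 - q.1.1 - q.1.2.2| ≤ w →
    Rg m q.2.2.1 → Rg m (q.2.2.1 - q.2.1) → Rg m (q.2.2.1 - q.2.2.2) →
    Rg m (q.2.2.1 - q.2.1 - q.2.2.2) → |q.2.1| ≤ r → |q.2.2.2| ≤ r → Wg (dam (wm c m)) q ≠ 0 →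
    c1 * (|q.2.1| * |q.2.2.2|) ≤ |FrM c m q| + C * w ^ 2 := by
  refine ⟨1 / 108, 8, 1, by norm_num, by norm_num, one_pos, ?_⟩
  intro w m hw0 hw1 hm0 hm1 q a1 a2 a3 a4 r1 r2 r3 r4 hy2 hz2 hW
  obtain ⟨g1, g2, g3, g4⟩ := Wg_supp c m hc q hW
  have hc2 : c ^ 2 / 8 ≤ c ^ 2 / 4 := by nlinarith [sq_nonneg c]
  have hc4 : c ^ 2 / 8 ≤ 1 / 4 := by nlinarith
  rw [FrM_sqrt c m hc q (by linarith) (by linarith) (by linarith) (by linarith)]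
  obtain ⟨i1, -, -, -⟩ := Rg_bd m _ hm0 r1
  obtain ⟨i2, -, -, -⟩ := Rg_bd m _ hm0 r2
  obtain ⟨i3, -, -, -⟩ := Rg_bd m _ hm0 r3
  obtain ⟨i4, -, -, -⟩ := Rg_bd m _ hm0 r4
  obtain ⟨e, he1, -, he⟩ := diff_r c m 0 q.2.2.1 q.2.1 q.2.2.2 hc hm0 hm1 le_rfl r1 r2 r3 r4
    (by linarith) (by linarith) (by linarith) (by linarith)
  have app : ∀ p x : ℝ, 1 / 4 ≤ p → c ^ 2 / 4 < p - x ^ 2 → |x| ≤ w →
      |√(p - x ^ 2) - √(p - 0)| ≤ 2 * w ^ 2 := by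
    intro p x hp hg hx
    have s1 : 1 / 2 ≤ √(p - 0) := by
      apply Real.le_sqrt_of_sq_le
      norm_num
      linarith
    have hg0 : 0 ≤ p - x ^ 2 := by nlinarith [sq_nonneg c]
    have s2 : 0 ≤ √(p - x ^ 2) := Real.sqrt_nonneg _
    have q1 := Real.sq_sqrt hg0
    have q2 := Real.sq_sqrt (show (0 : ℝ) ≤ p - 0 by linarith)
    have hmono : √(p - x ^ 2) ≤ √(p - 0) := Real.sqrt_le_sqrt (by nlinarith [sq_nonneg x])
    have hx2 : x ^ 2 ≤ w ^ 2 := by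
      rw [← sq_abs x]
      exact pow_le_pow_left₀ (abs_nonneg x) hx 2
    rw [abs_le]
    constructor
    · have : (√(p - 0) - √(p - x ^ 2)) * (√(p - 0) + √(p - x ^ 2)) = x ^ 2 := by
        nlinarith
      nlinarith
    · nlinarith [sq_nonneg w]
  have b1 := app _ _ i1 g1 a1
  have b2 := app _ _ i2 g2 a2
  have b3 := app _ _ i3 g3 a3
  have b4 := app _ _ i4 g4 a4
  set F := √(hm m q.2.2.1 - q.1.2.1 ^ 2) -
      √(hm m (q.2.2.1 - q.2.1) - (q.1.2.1 - q.1.1) ^ 2) -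
      √(hm m (q.2.2.1 - q.2.2.2) - (q.1.2.1 - q.1.2.2) ^ 2) +
      √(hm m (q.2.2.1 - q.2.1 - q.2.2.2) - (q.1.2.1 - q.1.1 - q.1.2.2) ^ 2) with hF
  have hd : |-(q.2.1 * q.2.2.2) * e - F| ≤ 8 * w ^ 2 := by
    rw [← he, hF]
    rw [abs_le] at b1 b2 b3 b4 ⊢
    constructor <;> linarith [b1.1, b1.2, b2.1, b2.2, b3.1, b3.2, b4.1, b4.2]
  have hl : |q.2.1| * |q.2.2.2| * (1 / 108) ≤ |-(q.2.1 * q.2.2.2) * e| := by
    rw [abs_mul, abs_neg, abs_mul, abs_of_pos (lt_of_lt_of_le (by norm_num) he1)]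
    gcongr
  have ht : |-(q.2.1 * q.2.2.2) * e| ≤ |-(q.2.1 * q.2.2.2) * e - F| + |F| := by
    calc |-(q.2.1 * q.2.2.2) * e| = |(-(q.2.1 * q.2.2.2) * e - F) + F| := by ring_nf
      _ ≤ _ := abs_add_le _ _
  linarith

/-- The cross points stay in the region. -/
theorem cross4 (c m : ℝ) (hm0 : 0 ≤ m) (al a a' r r' : ℝ) (hal : 0 < al) (hal1 : al ≤ 1)
    (h : c ^ 2 / 4 < hm m r - a ^ 2) (ha : 0 ≤ a) (ha' : 0 ≤ a') (ha2 : a ≤ 4 * al)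
    (ha2' : a' ≤ 4 * al) (r1 : Rg m r) (r2 : Rg m r') (hd : |a' - a| ≤ c ^ 2 / 128)
    (hd' : |r' - r| ≤ c ^ 2 / 64) : c ^ 2 / 8 ≤ hm m r' - a' ^ 2 := by
  obtain ⟨-, -, b1, b2⟩ := Rg_bd m r hm0 r1
  obtain ⟨-, -, b3, b4⟩ := Rg_bd m r' hm0 r2
  have h1 := hm_sub m r r'
  have h2 : |(r - r') * (bm m r + bm m r')| ≤ c ^ 2 / 64 * 2 := by
    rw [abs_mul, abs_sub_comm]
    have : |bm m r + bm m r'| ≤ 2 := by
      rw [abs_le]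
      constructor <;> linarith
    exact mul_le_mul hd' this (abs_nonneg _) (by positivity)
  have h3 : |(a' - a) * (a' + a)| ≤ c ^ 2 / 128 * 8 := by
    rw [abs_mul]
    have : |a' + a| ≤ 8 := by
      rw [abs_le]
      constructor <;> linarith
    exact mul_le_mul hd this (abs_nonneg _) (by positivity)
  have h4 := (abs_le.1 h2).2
  have h5 := (abs_le.1 h3).2
  have e : (a' - a) * (a' + a) = a' ^ 2 - a ^ 2 := by ring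
  rw [e] at h5
  rw [← h1] at h4
  linarith [sq_nonneg c]

/-- The exact four-term formula. -/
theorem E_four4 (c : ℝ) (hc : 0 < c) (hc1 : c ≤ 1) (al m : ℝ) (hal : 0 < al) (hal1 : al ≤ 1)
    (hm0 : 0 ≤ m) (hm1 : m ≤ 1) (q : V × V)
    (hu : Ge al q.1 ∧ q.1.2.1 ≤ 2 * al ∧ |q.1.1| ≤ c ^ 2 / 256 * al ∧
      |q.1.2.2| ≤ c ^ 2 / 256 * al)
    (hv : Rg m q.2.2.1 ∧ Rg m (q.2.2.1 - q.2.1) ∧ Rg m (q.2.2.1 - q.2.2.2) ∧
      Rg m (q.2.2.1 - q.2.1 - q.2.2.2) ∧ |q.2.1| ≤ c ^ 2 / 256 ∧ |q.2.2.2| ≤ c ^ 2 / 256)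
    (hW : Wg (dam (wm c m)) q ≠ 0) :
    ∃ e1 e2 e3 e4 : ℝ, (1 / 3 ≤ e1 ∧ e1 ≤ 3 / c + 432 / c ^ 3) ∧
      (1 / 108 ≤ e2 ∧ e2 ≤ 3 / c + 27 / c ^ 3) ∧ (1 / 54 ≤ e3 ∧ e3 ≤ 108 / c ^ 3) ∧
      (1 / 54 ≤ e4 ∧ e4 ≤ 108 / c ^ 3) ∧
      FrM c m q = -(q.1.1 * q.1.2.2) * e1 + -(q.2.1 * q.2.2.2) * e2 +
        al * (q.1.1 * q.2.2.2) * e3 + al * (q.2.1 * q.1.2.2) * e4 := by
  obtain ⟨⟨a1, a2, a3, a4⟩, ha2, hy1, hz1⟩ := hu
  obtain ⟨r1, r2, r3, r4, hy2, hz2⟩ := hv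
  obtain ⟨g1, g2, g3, g4⟩ := Wg_supp c m hc q hW
  set y := q.1.1 with hy
  set a := q.1.2.1 with ha
  set z := q.1.2.2 with hz
  set y' := q.2.1 with hy'
  set r := q.2.2.1 with hr
  set z' := q.2.2.2 with hz'
  have hc2 : 0 < c ^ 2 / 256 := by positivity
  have hc3 : c ^ 2 / 256 ≤ 1 / 256 := by nlinarith
  have hc4 : c ^ 2 / 256 * al ≤ 1 / 256 * al := mul_le_mul_of_nonneg_right hc3 hal.le
  have hc5 : c ^ 2 / 256 * al ≤ c ^ 2 / 256 := by nlinarith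
  obtain ⟨y1, y2⟩ := abs_le.1 hy1
  obtain ⟨z1, z2⟩ := abs_le.1 hz1
  obtain ⟨y1', y2'⟩ := abs_le.1 hy2
  obtain ⟨z1', z2'⟩ := abs_le.1 hz2
  have ub1 : a ≤ 4 * al := by linarith
  have ub2 : a - y ≤ 4 * al := by linarith
  have ub3 : a - z ≤ 4 * al := by linarith
  have ub4 : a - y - z ≤ 4 * al := by linarith
  -- the cross points
  have cr : ∀ a' r' : ℝ, 0 ≤ a' → a' ≤ 4 * al → Rg m r' → |a' - a| ≤ c ^ 2 / 128 →
      |r' - r| ≤ c ^ 2 / 64 → c ^ 2 / 8 ≤ hm m r' - a' ^ 2 := fun a' r' h0 h1 h2 h3 h4 =>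
    cross4 c m hm0 al a a' r r' hal hal1 g1 (by linarith) h0 ub1 h1 r1 h2 h3 h4
  have d1 : |a - a| ≤ c ^ 2 / 128 := by rw [sub_self, abs_zero]; positivity
  have d2 : |a - y - a| ≤ c ^ 2 / 128 := by rw [abs_le]; constructor <;> linarith
  have d3 : |a - z - a| ≤ c ^ 2 / 128 := by rw [abs_le]; constructor <;> linarith
  have d4 : |a - y - z - a| ≤ c ^ 2 / 128 := by rw [abs_le]; constructor <;> linarith
  have f1 : |r - r| ≤ c ^ 2 / 64 := by rw [sub_self, abs_zero]; positivity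
  have f2 : |r - y' - r| ≤ c ^ 2 / 64 := by rw [abs_le]; constructor <;> linarith
  have f3 : |r - z' - r| ≤ c ^ 2 / 64 := by rw [abs_le]; constructor <;> linarith
  have f4 : |r - y' - z' - r| ≤ c ^ 2 / 64 := by rw [abs_le]; constructor <;> linarith
  have ups : ∀ a' r' : ℝ, Rg m r' → hm m r' - a' ^ 2 ≤ 8 := by
    intro a' r' h
    have := (Rg_bd m r' hm0 h).2.1
    nlinarith [sq_nonneg a']
  have pos : ∀ x : ℝ, c ^ 2 / 8 ≤ x → 0 < x := fun x hx =>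
    lt_of_lt_of_le (by positivity) hx
  -- the four terms
  obtain ⟨e1, l1, u1, E1⟩ := diff_a c (hm m (r - z')) a y z hc (Rg_bd m _ hm0 r3).2.1
    (by linarith) (by linarith) (by linarith) (by linarith) (by linarith) (by linarith)
    (by linarith) (by linarith) (cr a (r - z') (by linarith) ub1 r3 d1 f3)
    (cr (a - y) (r - z') (by linarith) ub2 r3 d2 f3)
    (cr (a - z) (r - z') (by linarith) ub3 r3 d3 f3)
    (cr (a - y - z) (r - z') (by linarith) ub4 r3 d4 f3)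
  obtain ⟨e2, l2, u2, E2⟩ := diff_r c m ((a - y) ^ 2) r y' z' hc hm0 hm1 (sq_nonneg _) r1 r2 r3 r4
    (cr (a - y) r (by linarith) ub2 r1 d2 f1)
    (cr (a - y) (r - y') (by linarith) ub2 r2 d2 f2)
    (cr (a - y) (r - z') (by linarith) ub2 r3 d2 f3)
    (cr (a - y) (r - y' - z') (by linarith) ub2 r4 d2 f4)
  -- mixed terms
  have c11 := cr a r (by linarith) ub1 r1 d1 f1
  have c21 := cr (a - y) r (by linarith) ub2 r1 d2 f1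
  have c13 := cr a (r - z') (by linarith) ub1 r3 d1 f3
  have c23 := cr (a - y) (r - z') (by linarith) ub2 r3 d2 f3
  have c44 := cr (a - y - z) (r - y' - z') (by linarith) ub4 r4 d4 f4
  have c43 := cr (a - y - z) (r - z') (by linarith) ub4 r3 d4 f3
  have c24 := cr (a - y) (r - y' - z') (by linarith) ub2 r4 d2 f4
  have E3 := sq_four_mix (hm m r - a ^ 2) (hm m r - (a - y) ^ 2) (hm m (r - z') - a ^ 2)
    (hm m (r - z') - (a - y) ^ 2) (pos _ c11) (pos _ c21) (pos _ c13) (pos _ c23) (by ring)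
  have E4 := sq_four_mix (hm m (r - y' - z') - (a - y - z) ^ 2) (hm m (r - z') - (a - y - z) ^ 2)
    (hm m (r - y' - z') - (a - y) ^ 2) (hm m (r - z') - (a - y) ^ 2) (pos _ c44) (pos _ c43)
    (pos _ c24) (pos _ c23) (by ring)
  obtain ⟨K3l, K3u⟩ := K4_bd c _ _ _ _ hc c11 c21 c13 c23 (ups _ _ r1) (ups _ _ r1)
    (ups _ _ r3) (ups _ _ r3)
  obtain ⟨K4l, K4u⟩ := K4_bd c _ _ _ _ hc c44 c43 c24 c23 (ups _ _ r4) (ups _ _ r3)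
    (ups _ _ r4) (ups _ _ r3)
  have s1 : (hm m (r - z') - a ^ 2) - (hm m (r - z') - (a - y) ^ 2) = -y * (a + (a - y)) := by
    ring
  have s2 : (hm m (r - z') - a ^ 2) - (hm m r - a ^ 2) = -z' * (bm m r + bm m (r - z')) := by
    unfold hm bm
    ring
  have s3 : (hm m (r - y' - z') - (a - y) ^ 2) - (hm m (r - z') - (a - y) ^ 2) =
      -y' * (bm m (r - z') + bm m (r - y' - z')) := by
    unfold hm bm
    ring
  have s4 : (hm m (r - y' - z') - (a - y) ^ 2) - (hm m (r - y' - z') - (a - y - z) ^ 2) =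
      -z * ((a - y) + (a - y - z)) := by
    ring
  rw [s1, s2] at E3
  rw [s3, s4] at E4
  obtain ⟨-, -, bl1, bu1⟩ := Rg_bd m r hm0 r1
  obtain ⟨-, -, bl3, bu3⟩ := Rg_bd m _ hm0 r3
  obtain ⟨-, -, bl4, bu4⟩ := Rg_bd m _ hm0 r4
  -- bounds of a product
  have pb : ∀ A B K : ℝ, 2 * al ≤ A → A ≤ 8 * al → 1 ≤ B → B ≤ 2 → 1 / 108 ≤ K →
      K ≤ 27 / (4 * c ^ 3) → 1 / 54 ≤ A / al * B * K ∧ A / al * B * K ≤ 108 / c ^ 3 := by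
    intro A B K hA hA' hB hB' hK hK'
    have i1 : 2 ≤ A / al := by rw [le_div_iff₀ hal]; exact hA
    have i2 : A / al ≤ 8 := by rw [div_le_iff₀ hal]; exact hA'
    constructor
    · calc (1 : ℝ) / 54 = 2 * 1 * (1 / 108) := by norm_num
        _ ≤ _ := by gcongr
    · calc A / al * B * K ≤ 8 * 2 * (27 / (4 * c ^ 3)) := by gcongr
        _ = 108 / c ^ 3 := by field_simp; ring
  refine ⟨e1, e2, (a + (a - y)) / al * (bm m r + bm m (r - z')) *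
    K4 (hm m r - a ^ 2) (hm m r - (a - y) ^ 2) (hm m (r - z') - a ^ 2)
      (hm m (r - z') - (a - y) ^ 2),
    ((a - y) + (a - y - z)) / al * (bm m (r - z') + bm m (r - y' - z')) *
    K4 (hm m (r - y' - z') - (a - y - z) ^ 2) (hm m (r - z') - (a - y - z) ^ 2)
      (hm m (r - y' - z') - (a - y) ^ 2) (hm m (r - z') - (a - y) ^ 2), ⟨l1, u1⟩, ⟨l2, u2⟩,
    pb _ _ _ (by linarith) (by linarith) (by linarith) (by linarith) K3l K3u,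
    pb _ _ _ (by linarith) (by linarith) (by linarith) (by linarith) K4l K4u, ?_⟩
  rw [FrM_sqrt c m hc q (by linarith [sq_nonneg c]) (by linarith [sq_nonneg c])
    (by linarith [sq_nonneg c]) (by linarith [sq_nonneg c])]
  rw [← E1, ← E2]
  have E3' : al * (y * z') * ((a + (a - y)) / al * (bm m r + bm m (r - z')) *
    K4 (hm m r - a ^ 2) (hm m r - (a - y) ^ 2) (hm m (r - z') - a ^ 2)
      (hm m (r - z') - (a - y) ^ 2)) = √(hm m r - a ^ 2) - √(hm m r - (a - y) ^ 2) -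
      √(hm m (r - z') - a ^ 2) + √(hm m (r - z') - (a - y) ^ 2) := by
    rw [E3]
    field_simp
  have E4' : al * (y' * z) * (((a - y) + (a - y - z)) / al *
      (bm m (r - z') + bm m (r - y' - z')) *
    K4 (hm m (r - y' - z') - (a - y - z) ^ 2) (hm m (r - z') - (a - y - z) ^ 2)
      (hm m (r - y' - z') - (a - y) ^ 2) (hm m (r - z') - (a - y) ^ 2)) =
      √(hm m (r - y' - z') - (a - y - z) ^ 2) - √(hm m (r - z') - (a - y - z) ^ 2) -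
      √(hm m (r - y' - z') - (a - y) ^ 2) + √(hm m (r - z') - (a - y) ^ 2) := by
    rw [E4]
    field_simp
  rw [E3', E4']
  ring

/-- Dominance: one of the four terms is much larger than the others. -/
theorem E_DD4 (c : ℝ) (hc : 0 < c) (hc1 : c ≤ 1) : ∃ K r c1 : ℝ, 1 ≤ K ∧ 0 < r ∧ 0 < c1 ∧ ∀ al m : ℝ,
    0 < al → al ≤ r → 0 ≤ m → m ≤ 1 → ∀ q : V × V,
    (Ge al q.1 ∧ q.1.2.1 ≤ 2 * al ∧ |q.1.1| ≤ r * al ∧ |q.1.2.2| ≤ r * al) →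
    (Rg m q.2.2.1 ∧ Rg m (q.2.2.1 - q.2.1) ∧ Rg m (q.2.2.1 - q.2.2.2) ∧
      Rg m (q.2.2.1 - q.2.1 - q.2.2.2) ∧ |q.2.1| ≤ r ∧ |q.2.2.2| ≤ r) →
    Wg (dam (wm c m)) q ≠ 0 →
    (K * (|q.2.1| * |q.2.2.2|) ≤ |q.1.1| * |q.1.2.2| →
      K * (al * (|q.1.1| * |q.2.2.2|)) ≤ |q.1.1| * |q.1.2.2| →
      K * (al * (|q.2.1| * |q.1.2.2|)) ≤ |q.1.1| * |q.1.2.2| →
      c1 * (|q.1.1| * |q.1.2.2|) ≤ |FrM c m q|) ∧
    (K * (|q.1.1| * |q.1.2.2|) ≤ |q.2.1| * |q.2.2.2| →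
      K * (al * (|q.1.1| * |q.2.2.2|)) ≤ |q.2.1| * |q.2.2.2| →
      K * (al * (|q.2.1| * |q.1.2.2|)) ≤ |q.2.1| * |q.2.2.2| →
      c1 * (|q.2.1| * |q.2.2.2|) ≤ |FrM c m q|) ∧
    (K * (|q.1.1| * |q.1.2.2|) ≤ al * (|q.1.1| * |q.2.2.2|) →
      K * (|q.2.1| * |q.2.2.2|) ≤ al * (|q.1.1| * |q.2.2.2|) →
      K * (|q.2.1| * |q.1.2.2|) ≤ |q.1.1| * |q.2.2.2| →
      c1 * (al * (|q.1.1| * |q.2.2.2|)) ≤ |FrM c m q|) ∧
    (K * (|q.1.1| * |q.1.2.2|) ≤ al * (|q.2.1| * |q.1.2.2|) →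
      K * (|q.2.1| * |q.2.2.2|) ≤ al * (|q.2.1| * |q.1.2.2|) →
      K * (|q.1.1| * |q.2.2.2|) ≤ |q.2.1| * |q.1.2.2| →
      c1 * (al * (|q.2.1| * |q.1.2.2|)) ≤ |FrM c m q|) := by
  set C0 : ℝ := 3 / c + 432 / c ^ 3 + 108 with hC0
  have hp1 : 0 < 3 / c := by positivity
  have hp2 : 0 < 432 / c ^ 3 := by positivity
  have hC1 : 1 ≤ C0 := by rw [hC0]; linarith
  have hCp : 0 < C0 := by linarith
  have hlow : ∀ e : ℝ, 1 / 108 ≤ e → 1 / C0 ≤ e := by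
    intro e he
    refine le_trans ?_ he
    exact one_div_le_one_div_of_le (by norm_num) (by rw [hC0]; linarith)
  have hup1 : 3 / c + 27 / c ^ 3 ≤ C0 := by
    rw [hC0]
    have : 27 / c ^ 3 ≤ 432 / c ^ 3 := by gcongr; norm_num
    linarith
  have hup2 : 108 / c ^ 3 ≤ C0 := by
    rw [hC0]
    have : 108 / c ^ 3 ≤ 432 / c ^ 3 := by gcongr; norm_num
    linarith
  have hup3 : 3 / c + 432 / c ^ 3 ≤ C0 := by rw [hC0]; linarith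
  refine ⟨6 * C0 ^ 2, c ^ 2 / 256, 1 / (2 * C0), by nlinarith, by positivity, by positivity, ?_⟩
  intro al m hal har hm0 hm1 q hu hv hW
  have hal1 : al ≤ 1 := by nlinarith
  obtain ⟨e1, e2, e3, e4, ⟨l1, u1⟩, ⟨l2, u2⟩, ⟨l3, u3⟩, ⟨l4, u4⟩, hF⟩ :=
    E_four4 c hc hc1 al m hal hal1 hm0 hm1 q hu hv hW
  have L1 := hlow e1 (by linarith)
  have L2 := hlow e2 l2
  have L3 := hlow e3 (by linarith)
  have L4 := hlow e4 (by linarith)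
  have pe : ∀ e : ℝ, 1 / C0 ≤ e → 0 < e := fun e he => lt_of_lt_of_le (by positivity) he
  have U1 : e1 ≤ C0 := u1.trans hup3
  have U2 : e2 ≤ C0 := u2.trans hup1
  have U3 : e3 ≤ C0 := u3.trans hup2
  have U4 : e4 ≤ C0 := u4.trans hup2
  have m1 : |-(q.1.1 * q.1.2.2)| = |q.1.1| * |q.1.2.2| := by rw [abs_neg, abs_mul]
  have m2 : |-(q.2.1 * q.2.2.2)| = |q.2.1| * |q.2.2.2| := by rw [abs_neg, abs_mul]
  have m3 : |al * (q.1.1 * q.2.2.2)| = al * (|q.1.1| * |q.2.2.2|) := by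
    rw [abs_mul, abs_mul, abs_of_pos hal]
  have m4 : |al * (q.2.1 * q.1.2.2)| = al * (|q.2.1| * |q.1.2.2|) := by
    rw [abs_mul, abs_mul, abs_of_pos hal]
  rw [hF]
  refine ⟨fun k2 k3 k4 => ?_, fun k2 k3 k4 => ?_, fun k2 k3 k4 => ?_, fun k2 k3 k4 => ?_⟩
  · have := dom4 C0 hC1 (-(q.1.1 * q.1.2.2)) (-(q.2.1 * q.2.2.2)) (al * (q.1.1 * q.2.2.2))
      (al * (q.2.1 * q.1.2.2)) e1 e2 e3 e4 L1 (pe _ L2) U2 (pe _ L3) U3 (pe _ L4) U4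
      (by rw [m1, m2]; exact k2) (by rw [m1, m3]; exact k3) (by rw [m1, m4]; exact k4)
    rw [m1] at this
    exact this
  · have := dom4 C0 hC1 (-(q.2.1 * q.2.2.2)) (-(q.1.1 * q.1.2.2)) (al * (q.1.1 * q.2.2.2))
      (al * (q.2.1 * q.1.2.2)) e2 e1 e3 e4 L2 (pe _ L1) U1 (pe _ L3) U3 (pe _ L4) U4
      (by rw [m1, m2]; exact k2) (by rw [m2, m3]; exact k3) (by rw [m2, m4]; exact k4)
    rw [m2] at this
    refine this.trans (le_of_eq ?_)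
    congr 1
    ring
  · have := dom4 C0 hC1 (al * (q.1.1 * q.2.2.2)) (-(q.1.1 * q.1.2.2)) (-(q.2.1 * q.2.2.2))
      (al * (q.2.1 * q.1.2.2)) e3 e1 e2 e4 L3 (pe _ L1) U1 (pe _ L2) U2 (pe _ L4) U4
      (by rw [m1, m3]; exact k2) (by rw [m2, m3]; exact k3)
      (by rw [m3, m4]
          calc 6 * C0 ^ 2 * (al * (|q.2.1| * |q.1.2.2|))
              = al * (6 * C0 ^ 2 * (|q.2.1| * |q.1.2.2|)) := by ring
            _ ≤ _ := mul_le_mul_of_nonneg_left k4 hal.le)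
    rw [m3] at this
    refine this.trans (le_of_eq ?_)
    congr 1
    ring
  · have := dom4 C0 hC1 (al * (q.2.1 * q.1.2.2)) (-(q.1.1 * q.1.2.2)) (-(q.2.1 * q.2.2.2))
      (al * (q.1.1 * q.2.2.2)) e4 e1 e2 e3 L4 (pe _ L1) U1 (pe _ L2) U2 (pe _ L3) U3
      (by rw [m1, m4]; exact k2) (by rw [m2, m4]; exact k3)
      (by rw [m3, m4]
          calc 6 * C0 ^ 2 * (al * (|q.1.1| * |q.2.2.2|))
              = al * (6 * C0 ^ 2 * (|q.1.1| * |q.2.2.2|)) := by ring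
            _ ≤ _ := mul_le_mul_of_nonneg_left k4 hal.le)
    rw [m4] at this
    refine this.trans (le_of_eq ?_)
    congr 1
    ring

end Pool.Agent.SDT.N1M

end -- N1M.E5
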