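import Pool.Agent.SDT.B01
import Pool.Agent.SDT.B17
import Pool.Agent.SDT.B29

set_option autoImplicit false

namespace Pool.Agent.SDT.MP_6cbfb8_an
end Pool.Agent.SDT.MP_6cbfb8_an
namespace Pool.Agent.SDT.MST
end Pool.Agent.SDT.MST
namespace Pool.Agent.SDT.N1
end Pool.Agent.SDT.N1
namespace Pool.Agent.SDT.N1F
end Pool.Agent.SDT.N1F
namespace Pool.Agent.SDT.N1G
end Pool.Agent.SDT.N1G

section -- N1M.E6

/-!
N1M, block M4: type N. Derivatives of the normalised phase.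
-/

namespace Pool.Agent.SDT.N1M

open MeasureTheory Set Metric Pool.Agent.SDT.MP_6cbfb8_an Pool.Agent.SDT.MST Pool.Agent.SDT.N1
open Pool.Agent.SDT.N1F Pool.Agent.SDT.N1G
open scoped ENNReal Real ContDiff Topology

/-- The derivative of `Sq c` where it is the square root. -/
theorem Sq_hasDerivAt (c v : ℝ) (hc : 0 < c) (hv : c ^ 2 / 8 < v) :
    HasDerivAt (Sq c) (1 / (2 * √v)) v := by
  have hv0 : 0 < v := lt_of_le_of_lt (by positivity) hv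
  have h1 : HasDerivAt (fun x : ℝ => √x) (1 / (2 * √v)) v := Real.hasDerivAt_sqrt hv0.ne'
  refine h1.congr_of_eventuallyEq ?_
  filter_upwards [lt_mem_nhds hv] with x hx
  exact e_Sq_eq hc hx.le

/-- The conditions on a point near the base point, type N. -/
structure GdN (x1 y1 y2 al m ρ : ℝ) (s : YX) : Prop where
  a1 : x1 / 2 ≤ s.2.1
  a2 : s.2.1 ≤ 2 * x1
  a3 : x1 / 2 ≤ s.2.1 - ρ * s.1.1
  a4 : s.2.1 - ρ * s.1.1 ≤ 2 * x1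
  h1 : 3 / 16 ≤ hm m s.2.2
  h2 : hm m s.2.2 ≤ 9
  h3 : 3 / 16 ≤ hm m (s.2.2 - ρ * s.1.2)
  h4 : hm m (s.2.2 - ρ * s.1.2) ≤ 9
  q1 : 1 / 8 < hm m s.2.2 - (al * s.2.1) ^ 2
  q2 : 1 / 8 < hm m (s.2.2 - ρ * s.1.2) - (al * (s.2.1 - ρ * s.1.1)) ^ 2
  b1 : 1 / 4 ≤ bm m s.2.2
  b2 : bm m s.2.2 ≤ 2
  b3 : 1 / 4 ≤ bm m (s.2.2 - ρ * s.1.2)
  b4 : bm m (s.2.2 - ρ * s.1.2) ≤ 2
  c1 : |y2| / 2 ≤ |-(s.1.2 * (bm m s.2.2 + bm m (s.2.2 - ρ * s.1.2))) *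
    (1 - m * (al * s.2.1) ^ 2) +
    al ^ 2 * s.1.1 * (s.2.1 + (s.2.1 - ρ * s.1.1)) * bm m s.2.2 ^ 2|
  c2 : |-(s.1.2 * (bm m s.2.2 + bm m (s.2.2 - ρ * s.1.2))) *
    (1 - m * (al * s.2.1) ^ 2) +
    al ^ 2 * s.1.1 * (s.2.1 + (s.2.1 - ρ * s.1.1)) * bm m s.2.2 ^ 2| ≤ 3 * |y2|
  w1 : |y1| / 2 ≤ |s.1.1|
  w2 : |s.1.1| ≤ 2 * |y1|
  w3 : |s.1.2| ≤ 2 * |y2|

/-- The factor in the first derivative. -/
noncomputable def LN (m al ρ : ℝ) (s : YX) : ℝ :=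
  (s.2.1 - ρ * s.1.1) ^ 2 * hm m (s.2.2 - ρ * s.1.2) /
    (√(hm m s.2.2 - (al * s.2.1) ^ 2) *
      √(hm m (s.2.2 - ρ * s.1.2) - (al * (s.2.1 - ρ * s.1.1)) ^ 2) *
      (s.2.1 * √(hm m (s.2.2 - ρ * s.1.2) - (al * (s.2.1 - ρ * s.1.1)) ^ 2) +
        (s.2.1 - ρ * s.1.1) * √(hm m s.2.2 - (al * s.2.1) ^ 2)))

/-- The second derivative. -/
noncomputable def MN (m al ρ : ℝ) (s : YX) : ℝ :=
  (-(s.1.2 * (bm m s.2.2 + bm m (s.2.2 - ρ * s.1.2))) * (1 - m * (al * s.2.1) ^ 2) +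
    al ^ 2 * s.1.1 * (s.2.1 + (s.2.1 - ρ * s.1.1)) * bm m s.2.2 ^ 2) /
    (√(hm m s.2.2 - (al * s.2.1) ^ 2) *
      √(hm m (s.2.2 - ρ * s.1.2) - (al * (s.2.1 - ρ * s.1.1)) ^ 2) *
      (bm m s.2.2 * √(hm m (s.2.2 - ρ * s.1.2) - (al * (s.2.1 - ρ * s.1.1)) ^ 2) +
        bm m (s.2.2 - ρ * s.1.2) * √(hm m s.2.2 - (al * s.2.1) ^ 2)))

/-- Unfolding. -/
theorem phN_eq (c m al ρ : ℝ) (s : YX) : phN c m al ρ s =
    (Sq c (hm m s.2.2 - (al * s.2.1) ^ 2) -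
      Sq c (hm m (s.2.2 - ρ * s.1.2) - (al * (s.2.1 - ρ * s.1.1)) ^ 2)) / ρ := by
  have e : al * s.2.1 - al * ρ * s.1.1 = al * (s.2.1 - ρ * s.1.1) := by ring
  rw [← e]
  rfl

theorem sqrt_q (v : ℝ) (h1 : 1 / 8 < v) (h2 : v ≤ 9) : 1 / 3 ≤ √v ∧ √v ≤ 3 := by
  constructor
  · apply Real.le_sqrt_of_sq_le
    linarith
  · rw [Real.sqrt_le_left (by norm_num)]
    linarith

theorem GdN.sq {x1 y1 y2 al m ρ : ℝ} {s : YX} (h : GdN x1 y1 y2 al m ρ s) :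
    (1 / 3 ≤ √(hm m s.2.2 - (al * s.2.1) ^ 2) ∧ √(hm m s.2.2 - (al * s.2.1) ^ 2) ≤ 3) ∧
    (1 / 3 ≤ √(hm m (s.2.2 - ρ * s.1.2) - (al * (s.2.1 - ρ * s.1.1)) ^ 2) ∧
      √(hm m (s.2.2 - ρ * s.1.2) - (al * (s.2.1 - ρ * s.1.1)) ^ 2) ≤ 3) :=
  ⟨sqrt_q _ h.q1 (by linarith [h.h2, sq_nonneg (al * s.2.1)]),
    sqrt_q _ h.q2 (by linarith [h.h4, sq_nonneg (al * (s.2.1 - ρ * s.1.1))])⟩

/-- The algebra of the first derivative. -/
theorem LN_alg (m al ρ : ℝ) (s : YX) (x1 y1 y2 : ℝ) (hx1 : 0 < x1) (hρ : 0 < ρ)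
    (h : GdN x1 y1 y2 al m ρ s) :
    (-(al ^ 2 * s.2.1) / √(hm m s.2.2 - (al * s.2.1) ^ 2) +
      al ^ 2 * (s.2.1 - ρ * s.1.1) /
        √(hm m (s.2.2 - ρ * s.1.2) - (al * (s.2.1 - ρ * s.1.1)) ^ 2)) / ρ =
      -(al ^ 2 * (LN m al ρ s * nn (omN ρ) (sgN m ρ) s)) := by
  obtain ⟨⟨l1, u1⟩, ⟨l2, u2⟩⟩ := h.sq
  have e1 : √(hm m s.2.2 - (al * s.2.1) ^ 2) ^ 2 = hm m s.2.2 - (al * s.2.1) ^ 2 :=
    Real.sq_sqrt (by linarith [h.q1])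
  have e2 : √(hm m (s.2.2 - ρ * s.1.2) - (al * (s.2.1 - ρ * s.1.1)) ^ 2) ^ 2 =
      hm m (s.2.2 - ρ * s.1.2) - (al * (s.2.1 - ρ * s.1.1)) ^ 2 :=
    Real.sq_sqrt (by linarith [h.q2])
  unfold LN nn omN sgN
  set q := √(hm m s.2.2 - (al * s.2.1) ^ 2)
  set q' := √(hm m (s.2.2 - ρ * s.1.2) - (al * (s.2.1 - ρ * s.1.1)) ^ 2)
  have a1 := h.a1
  have a3 := h.a3
  have h3 := h.h3
  have hX : 0 < s.2.1 := by linarith
  have hX' : 0 < s.2.1 - ρ * s.1.1 := by linarith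
  have hh' : 0 < hm m (s.2.2 - ρ * s.1.2) := by linarith
  have hq : 0 < q := by linarith
  have hq' : 0 < q' := by linarith
  have ehh : hm m s.2.2 - hm m (s.2.2 - ρ * s.1.2) =
      ρ * (s.1.2 * (2 - m * (2 * s.2.2 - ρ * s.1.2))) := by
    unfold hm
    ring
  set h' := hm m (s.2.2 - ρ * s.1.2)
  set X := s.2.1
  set X' := s.2.1 - ρ * s.1.1 with hXd
  have eY : s.1.1 = (X - X') / ρ := by
    rw [hXd]
    field_simp
    ring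
  have eY2 : s.1.2 * (2 - m * (2 * s.2.2 - ρ * s.1.2)) = (hm m s.2.2 - h') / ρ := by
    rw [ehh]
    field_simp
  have e1' : hm m s.2.2 = q ^ 2 + (al * X) ^ 2 := by linarith
  have e2' : h' = q' ^ 2 + (al * X') ^ 2 := by linarith
  have e3 : ρ * ((X - X') / ρ) = X - X' := by field_simp
  have key : s.1.1 * (2 * X - ρ * s.1.1) / X' ^ 2 -
      s.1.2 * (2 - m * (2 * s.2.2 - ρ * s.1.2)) / h' =
      (X ^ 2 * h' - X' ^ 2 * hm m s.2.2) / (ρ * X' ^ 2 * h') := by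
    rw [eY2, eY, e3]
    field_simp
    ring
  rw [key, e1', e2']
  have hd : 0 < X * q' + X' * q := by positivity
  have hh2 : 0 < q' ^ 2 + (al * X') ^ 2 := by positivity
  field_simp
  ring

/-- The algebra of the second derivative. -/
theorem MN_alg (m al ρ : ℝ) (s : YX) (x1 y1 y2 : ℝ) (hρ : 0 < ρ)
    (h : GdN x1 y1 y2 al m ρ s) :
    (bm m s.2.2 / √(hm m s.2.2 - (al * s.2.1) ^ 2) -
      bm m (s.2.2 - ρ * s.1.2) /
        √(hm m (s.2.2 - ρ * s.1.2) - (al * (s.2.1 - ρ * s.1.1)) ^ 2)) / ρ = MN m al ρ s := by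
  obtain ⟨⟨l1, u1⟩, ⟨l2, u2⟩⟩ := h.sq
  have e1 : √(hm m s.2.2 - (al * s.2.1) ^ 2) ^ 2 = hm m s.2.2 - (al * s.2.1) ^ 2 :=
    Real.sq_sqrt (by linarith [h.q1])
  have e2 : √(hm m (s.2.2 - ρ * s.1.2) - (al * (s.2.1 - ρ * s.1.1)) ^ 2) ^ 2 =
      hm m (s.2.2 - ρ * s.1.2) - (al * (s.2.1 - ρ * s.1.1)) ^ 2 :=
    Real.sq_sqrt (by linarith [h.q2])
  have e3 : bm m s.2.2 ^ 2 * (hm m (s.2.2 - ρ * s.1.2) - (al * (s.2.1 - ρ * s.1.1)) ^ 2) -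
      bm m (s.2.2 - ρ * s.1.2) ^ 2 * (hm m s.2.2 - (al * s.2.1) ^ 2) =
      ρ * (-(s.1.2 * (bm m s.2.2 + bm m (s.2.2 - ρ * s.1.2))) * (1 - m * (al * s.2.1) ^ 2) +
        al ^ 2 * s.1.1 * (s.2.1 + (s.2.1 - ρ * s.1.1)) * bm m s.2.2 ^ 2) := by
    unfold bm hm
    ring
  rw [← e1, ← e2] at e3
  unfold MN
  have b1 := h.b1
  have b3 := h.b3
  set q := √(hm m s.2.2 - (al * s.2.1) ^ 2)
  set q' := √(hm m (s.2.2 - ρ * s.1.2) - (al * (s.2.1 - ρ * s.1.1)) ^ 2)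
  set B := (-(s.1.2 * (bm m s.2.2 + bm m (s.2.2 - ρ * s.1.2))) * (1 - m * (al * s.2.1) ^ 2) +
        al ^ 2 * s.1.1 * (s.2.1 + (s.2.1 - ρ * s.1.1)) * bm m s.2.2 ^ 2)
  set β := bm m s.2.2
  set β' := bm m (s.2.2 - ρ * s.1.2)
  have hq : 0 < q := by linarith
  have hq' : 0 < q' := by linarith
  have hβ : 0 < β := by linarith
  have hβ' : 0 < β' := by linarith
  have hB : B = (β ^ 2 * q' ^ 2 - β' ^ 2 * q ^ 2) / ρ := by
    rw [e3]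
    field_simp
  rw [hB]
  have hd : 0 < β * q' + β' * q := by positivity
  field_simp
  ring

/-- The first derivative. -/
theorem phN_dX (c m al ρ : ℝ) (hc : 0 < c) (hc1 : c ≤ 1) (hρ : 0 < ρ) (Y1 Y2 X r x1 y1 y2 : ℝ)
    (hx1 : 0 < x1) (h : GdN x1 y1 y2 al m ρ ((Y1, Y2), (X, r))) :
    HasDerivAt (fun X => phN c m al ρ ((Y1, Y2), (X, r)))
      (-(al ^ 2 * (LN m al ρ ((Y1, Y2), (X, r)) * nn (omN ρ) (sgN m ρ) ((Y1, Y2), (X, r))))) X := by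
  rw [← LN_alg m al ρ _ x1 y1 y2 hx1 hρ h]
  simp only [phN_eq]
  have hc8 : c ^ 2 / 8 ≤ 1 / 8 := by nlinarith
  have q1 := h.q1
  have q2 := h.q2
  simp only at q1 q2
  have i1 : HasDerivAt (fun X : ℝ => hm m r - (al * X) ^ 2) (-(2 * al ^ 2 * X)) X := by
    have t : HasDerivAt (fun X : ℝ => al * X) al X := by
      simpa using (hasDerivAt_id' X).const_mul al
    have t2 : HasDerivAt (fun X : ℝ => (al * X) ^ 2) (2 * (al * X) * al) X := by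
      simpa using t.fun_pow 2
    exact (t2.const_sub (hm m r)).congr_deriv (by ring)
  have i2 : HasDerivAt (fun X : ℝ => hm m (r - ρ * Y2) - (al * (X - ρ * Y1)) ^ 2)
      (-(2 * al ^ 2 * (X - ρ * Y1))) X := by
    have t : HasDerivAt (fun X : ℝ => al * (X - ρ * Y1)) al X := by
      simpa using ((hasDerivAt_id' X).sub_const (ρ * Y1)).const_mul al
    have t2 : HasDerivAt (fun X : ℝ => (al * (X - ρ * Y1)) ^ 2) (2 * (al * (X - ρ * Y1)) * al) X := by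
      simpa using t.fun_pow 2
    exact (t2.const_sub (hm m (r - ρ * Y2))).congr_deriv (by ring)
  have j1 := (Sq_hasDerivAt c _ hc (lt_of_le_of_lt hc8 q1)).comp X i1
  have j2 := (Sq_hasDerivAt c _ hc (lt_of_le_of_lt hc8 q2)).comp X i2
  have := (j1.sub j2).div_const ρ
  refine this.congr_deriv ?_
  congr 1
  ring

/-- The second derivative. -/
theorem phN_dr (c m al ρ : ℝ) (hc : 0 < c) (hc1 : c ≤ 1) (hρ : 0 < ρ) (Y1 Y2 X r x1 y1 y2 : ℝ)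
    (h : GdN x1 y1 y2 al m ρ ((Y1, Y2), (X, r))) :
    HasDerivAt (fun r => phN c m al ρ ((Y1, Y2), (X, r))) (MN m al ρ ((Y1, Y2), (X, r))) r := by
  rw [← MN_alg m al ρ _ x1 y1 y2 hρ h]
  simp only [phN_eq]
  have hc8 : c ^ 2 / 8 ≤ 1 / 8 := by nlinarith
  have q1 := h.q1
  have q2 := h.q2
  simp only at q1 q2
  have i1 : HasDerivAt (fun r : ℝ => hm m r - (al * X) ^ 2) (2 * bm m r) r := by
    have t : HasDerivAt (fun r : ℝ => 2 * r) 2 r := by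
      simpa using (hasDerivAt_id' r).const_mul (2 : ℝ)
    have t2 : HasDerivAt (fun r : ℝ => m * r ^ 2) (m * (2 * r)) r := by
      simpa using ((hasDerivAt_id' r).fun_pow 2).const_mul m
    have h1 : HasDerivAt (fun r : ℝ => 2 * r - m * r ^ 2) (2 * bm m r) r :=
      (t.fun_sub t2).congr_deriv (by unfold bm; ring)
    exact h1.sub_const _
  have i2 : HasDerivAt (fun r : ℝ => hm m (r - ρ * Y2) - (al * (X - ρ * Y1)) ^ 2)
      (2 * bm m (r - ρ * Y2)) r := by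
    have t0 : HasDerivAt (fun r : ℝ => r - ρ * Y2) 1 r := (hasDerivAt_id' r).sub_const _
    have t : HasDerivAt (fun r : ℝ => 2 * (r - ρ * Y2)) 2 r := by
      simpa using t0.const_mul (2 : ℝ)
    have t2 : HasDerivAt (fun r : ℝ => m * (r - ρ * Y2) ^ 2) (m * (2 * (r - ρ * Y2))) r := by
      simpa using (t0.fun_pow 2).const_mul m
    have h1 : HasDerivAt (fun r : ℝ => 2 * (r - ρ * Y2) - m * (r - ρ * Y2) ^ 2)
        (2 * bm m (r - ρ * Y2)) r :=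
      (t.fun_sub t2).congr_deriv (by unfold bm; ring)
    exact h1.sub_const _
  have j1 := (Sq_hasDerivAt c _ hc (lt_of_le_of_lt hc8 q1)).comp r i1
  have j2 := (Sq_hasDerivAt c _ hc (lt_of_le_of_lt hc8 q2)).comp r i2
  have := (j1.sub j2).div_const ρ
  refine this.congr_deriv ?_
  congr 1
  ring

end Pool.Agent.SDT.N1M

end -- N1M.E6

section -- N1M.E7

/-!
N1M, block M4: type N. The point conditions hold near the base point; bounds.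
-/

namespace Pool.Agent.SDT.N1M

open MeasureTheory Set Metric Filter Pool.Agent.SDT.MP_6cbfb8_an Pool.Agent.SDT.MST Pool.Agent.SDT.N1
open Pool.Agent.SDT.N1F Pool.Agent.SDT.N1G
open scoped ENNReal Real ContDiff Topology

/-- From eventual statements to boxes. -/
theorem box_of_ev (m0 : ℝ) (x0 y0 : ℝ × ℝ) (Pr : ℝ × ℝ × ℝ × YX → Prop)
    (h : ∀ᶠ e in 𝓝 ((0, m0, 0, (y0, x0)) : ℝ × ℝ × ℝ × YX), Pr e) :
    ∃ δ0 : ℝ, 0 < δ0 ∧ δ0 ≤ 1 ∧ ∀ al m ρ : ℝ, Sm al m m0 δ0 → 0 < ρ → ρ < δ0 →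
      ∀ s : YX, Bx δ0 x0 y0 s → Pr (al, m, ρ, s) := by
  obtain ⟨ε, hε, H⟩ := Metric.eventually_nhds_iff.1 h
  refine ⟨min (ε / 2) 1, lt_min (half_pos hε) one_pos, min_le_right _ _, ?_⟩
  intro al m ρ hS hρ hρ' s hs
  apply H
  obtain ⟨s1, s2, s3, s4⟩ := hs
  obtain ⟨t1, t2, t3, t4, t5⟩ := hS
  have l := min_le_left (ε / 2) 1
  have e2 : ε / 2 < ε := half_lt_self hε
  have b : ∀ x y : ℝ, |x - y| ≤ min (ε / 2) 1 → dist x y < ε := by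
    intro x y hxy
    rw [Real.dist_eq]
    linarith
  have d1 : dist al 0 < ε := b _ _ (by rw [sub_zero, abs_of_pos t1]; exact t2.le)
  have d2 : dist m m0 < ε := b _ _ t5.le
  have d3 : dist ρ 0 < ε := b _ _ (by rw [sub_zero, abs_of_pos hρ]; exact hρ'.le)
  simp only [Prod.dist_eq, max_lt_iff]
  exact ⟨d1, d2, d3, ⟨b _ _ s1, b _ _ s2⟩, b _ _ s3, b _ _ s4⟩

theorem ev_lt {X : Type*} [TopologicalSpace X] {f g : X → ℝ} {e0 : X} (hf : Continuous f)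
    (hg : Continuous g) (h : f e0 < g e0) : ∀ᶠ e in 𝓝 e0, f e ≤ g e :=
  (hf.continuousAt.eventually_lt hg.continuousAt h).mono fun _ h => h.le

theorem ev_lt' {X : Type*} [TopologicalSpace X] {f g : X → ℝ} {e0 : X} (hf : Continuous f)
    (hg : Continuous g) (h : f e0 < g e0) : ∀ᶠ e in 𝓝 e0, f e < g e :=
  hf.continuousAt.eventually_lt hg.continuousAt h

/-- The point conditions hold near the base point. -/
theorem GdN_ev (m0 : ℝ) (x0 y0 : ℝ × ℝ) (hb : Bm m0 x0) (hy1 : y0.1 ≠ 0) (hy2 : y0.2 ≠ 0) :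
    ∀ᶠ e in 𝓝 ((0, m0, 0, (y0, x0)) : ℝ × ℝ × ℝ × YX),
      GdN x0.1 y0.1 y0.2 e.1 e.2.1 e.2.2.1 e.2.2.2 := by
  obtain ⟨hm0, hm1, hx1, hR⟩ := hb
  obtain ⟨h1, h2, b1, b2⟩ := Rg_bd m0 x0.2 hm0 hR
  have p1 : 0 < |y0.1| := abs_pos.2 hy1
  have p2 : 0 < |y0.2| := abs_pos.2 hy2
  have hh : Continuous fun e : ℝ × ℝ × ℝ × YX => hm e.2.1 e.2.2.2.2.2 := by
    unfold hm; fun_prop
  have hh' : Continuous fun e : ℝ × ℝ × ℝ × YX => hm e.2.1 (e.2.2.2.2.2 - e.2.2.1 * e.2.2.2.1.2) := by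
    unfold hm; fun_prop
  have hβ : Continuous fun e : ℝ × ℝ × ℝ × YX => bm e.2.1 e.2.2.2.2.2 := by
    unfold bm; fun_prop
  have hβ' : Continuous fun e : ℝ × ℝ × ℝ × YX => bm e.2.1 (e.2.2.2.2.2 - e.2.2.1 * e.2.2.2.1.2) := by
    unfold bm; fun_prop
  have hX : Continuous fun e : ℝ × ℝ × ℝ × YX => e.2.2.2.2.1 := by fun_prop
  have hX' : Continuous fun e : ℝ × ℝ × ℝ × YX => e.2.2.2.2.1 - e.2.2.1 * e.2.2.2.1.1 := by fun_prop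
  have hY1 : Continuous fun e : ℝ × ℝ × ℝ × YX => |e.2.2.2.1.1| := by fun_prop
  have hY2 : Continuous fun e : ℝ × ℝ × ℝ × YX => |e.2.2.2.1.2| := by fun_prop
  have hq : Continuous fun e : ℝ × ℝ × ℝ × YX => hm e.2.1 e.2.2.2.2.2 - (e.1 * e.2.2.2.2.1) ^ 2 := by
    unfold hm; fun_prop
  have hq' : Continuous fun e : ℝ × ℝ × ℝ × YX => hm e.2.1 (e.2.2.2.2.2 - e.2.2.1 * e.2.2.2.1.2) -
      (e.1 * (e.2.2.2.2.1 - e.2.2.1 * e.2.2.2.1.1)) ^ 2 := by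
    unfold hm; fun_prop
  have hB : Continuous fun e : ℝ × ℝ × ℝ × YX =>
      |-(e.2.2.2.1.2 * (bm e.2.1 e.2.2.2.2.2 + bm e.2.1 (e.2.2.2.2.2 - e.2.2.1 * e.2.2.2.1.2))) *
      (1 - e.2.1 * (e.1 * e.2.2.2.2.1) ^ 2) +
      e.1 ^ 2 * e.2.2.2.1.1 * (e.2.2.2.2.1 + (e.2.2.2.2.1 - e.2.2.1 * e.2.2.2.1.1)) *
        bm e.2.1 e.2.2.2.2.2 ^ 2| := by
    unfold bm; fun_prop
  have cc : ∀ a : ℝ, Continuous fun _ : ℝ × ℝ × ℝ × YX => a := fun a => continuous_const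
  have vB : |-(y0.2 * (bm m0 x0.2 + bm m0 (x0.2 - 0 * y0.2))) * (1 - m0 * (0 * x0.1) ^ 2) +
      0 ^ 2 * y0.1 * (x0.1 + (x0.1 - 0 * y0.1)) * bm m0 x0.2 ^ 2| = 2 * bm m0 x0.2 * |y0.2| := by
    have : -(y0.2 * (bm m0 x0.2 + bm m0 (x0.2 - 0 * y0.2))) * (1 - m0 * (0 * x0.1) ^ 2) +
      0 ^ 2 * y0.1 * (x0.1 + (x0.1 - 0 * y0.1)) * bm m0 x0.2 ^ 2 = -(2 * bm m0 x0.2 * y0.2) := by
      rw [zero_mul, sub_zero]
      ring
    rw [this, abs_neg, abs_mul, abs_of_pos (by linarith)]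
  filter_upwards [ev_lt (cc (x0.1 / 2)) hX (by simp only; linarith),
    ev_lt hX (cc (2 * x0.1)) (by simp only; linarith),
    ev_lt (cc (x0.1 / 2)) hX' (by simp only; linarith),
    ev_lt hX' (cc (2 * x0.1)) (by simp only; linarith),
    ev_lt (cc (3 / 16)) hh (by simp only; linarith),
    ev_lt hh (cc 9) (by simp only; linarith),
    ev_lt (cc (3 / 16)) hh' (by simp only [zero_mul, sub_zero]; linarith),
    ev_lt hh' (cc 9) (by simp only [zero_mul, sub_zero]; linarith),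
    ev_lt' (cc (1 / 8)) hq (by simp only [zero_mul]; norm_num; linarith),
    ev_lt' (cc (1 / 8)) hq' (by simp only [zero_mul, sub_zero]; norm_num; linarith),
    ev_lt (cc (1 / 4)) hβ (by simp only; linarith),
    ev_lt hβ (cc 2) (by simp only; linarith),
    ev_lt (cc (1 / 4)) hβ' (by simp only [zero_mul, sub_zero]; linarith),
    ev_lt hβ' (cc 2) (by simp only [zero_mul, sub_zero]; linarith),
    ev_lt (cc (|y0.2| / 2)) hB (by simp only; rw [vB]; nlinarith),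
    ev_lt hB (cc (3 * |y0.2|)) (by simp only; rw [vB]; nlinarith),
    ev_lt (cc (|y0.1| / 2)) hY1 (by simp only; linarith),
    ev_lt hY1 (cc (2 * |y0.1|)) (by simp only; linarith),
    ev_lt hY2 (cc (2 * |y0.2|)) (by simp only; linarith)] with e e1 e2 e3 e4 e5 e6 e7 e8 e9 e10
    e11 e12 e13 e14 e15 e16 e17 e18 e19
  exact ⟨e1, e2, e3, e4, e5, e6, e7, e8, e9, e10, e11, e12, e13, e14, e15, e16, e17, e18, e19⟩

/-- Continuity of `n` at the base point. -/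
theorem nN_ev (m0 : ℝ) (x0 y0 : ℝ × ℝ) (hb : Bm m0 x0) (η : ℝ) (hη : 0 < η) :
    ∀ᶠ e in 𝓝 ((0, m0, 0, (y0, x0)) : ℝ × ℝ × ℝ × YX),
      |nn (omN e.2.2.1) (sgN e.2.1 e.2.2.1) e.2.2.2 - nn (omN 0) (sgN m0 0) (y0, x0)| ≤ η := by
  obtain ⟨hm0, hm1, hx1, hR⟩ := hb
  obtain ⟨h1, h2, b1, b2⟩ := Rg_bd m0 x0.2 hm0 hR
  have hc : ContinuousAt (fun e : ℝ × ℝ × ℝ × YX =>
      nn (omN e.2.2.1) (sgN e.2.1 e.2.2.1) e.2.2.2) (0, m0, 0, (y0, x0)) := by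
    unfold nn omN sgN hm
    refine ContinuousAt.sub (ContinuousAt.div (by fun_prop) (by fun_prop) ?_)
      (ContinuousAt.div (by fun_prop) (by fun_prop) ?_)
    · simp only [zero_mul, sub_zero]
      positivity
    · simp only [zero_mul, sub_zero]
      unfold hm at h1
      linarith
  have := Metric.continuousAt_iff'.1 hc η hη
  filter_upwards [this] with e he
  rw [Real.dist_eq] at he
  exact he.le

/-- Bounds of the factor. -/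
theorem LN_bd (m al ρ : ℝ) (s : YX) (x1 y1 y2 : ℝ) (hx1 : 0 < x1)
    (h : GdN x1 y1 y2 al m ρ s) : x1 / 2304 ≤ LN m al ρ s ∧ LN m al ρ s ≤ 972 * x1 := by
  obtain ⟨⟨l1, u1⟩, ⟨l2, u2⟩⟩ := h.sq
  unfold LN
  have a1 := h.a1
  have a2 := h.a2
  have a3 := h.a3
  have a4 := h.a4
  have h3 := h.h3
  have h4 := h.h4
  set q := √(hm m s.2.2 - (al * s.2.1) ^ 2)
  set q' := √(hm m (s.2.2 - ρ * s.1.2) - (al * (s.2.1 - ρ * s.1.1)) ^ 2)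
  set X' := s.2.1 - ρ * s.1.1
  set X := s.2.1
  set h' := hm m (s.2.2 - ρ * s.1.2)
  have hX : 0 < X := by linarith
  have hX' : 0 < X' := by linarith
  have hq : 0 < q := by linarith
  have hq' : 0 < q' := by linarith
  have hh' : 0 < h' := by linarith
  have n1 : (x1 / 2) ^ 2 * (3 / 16) ≤ X' ^ 2 * h' := by gcongr
  have n2 : X' ^ 2 * h' ≤ (2 * x1) ^ 2 * 9 := by gcongr
  have d1 : 1 / 3 * (1 / 3) * (x1 / 2 * (1 / 3) + x1 / 2 * (1 / 3)) ≤ q * q' * (X * q' + X' * q) := by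
    gcongr
  have d2 : q * q' * (X * q' + X' * q) ≤ 3 * 3 * (2 * x1 * 3 + 2 * x1 * 3) := by
    gcongr
  have dp : 0 < q * q' * (X * q' + X' * q) := by positivity
  constructor
  · rw [le_div_iff₀ dp]
    calc x1 / 2304 * (q * q' * (X * q' + X' * q)) ≤ x1 / 2304 * (3 * 3 * (2 * x1 * 3 + 2 * x1 * 3)) :=
          mul_le_mul_of_nonneg_left d2 (by positivity)
      _ = (x1 / 2) ^ 2 * (3 / 16) := by ring
      _ ≤ _ := n1
  · rw [div_le_iff₀ dp]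
    calc X' ^ 2 * h' ≤ (2 * x1) ^ 2 * 9 := n2
      _ = 972 * x1 * (1 / 3 * (1 / 3) * (x1 / 2 * (1 / 3) + x1 / 2 * (1 / 3))) := by ring
      _ ≤ _ := mul_le_mul_of_nonneg_left d1 (by positivity)

theorem MN_bd (m al ρ : ℝ) (s : YX) (x1 y1 y2 : ℝ)
    (h : GdN x1 y1 y2 al m ρ s) : |y2| / 216 ≤ |MN m al ρ s| ∧ |MN m al ρ s| ≤ 162 * |y2| := by
  obtain ⟨⟨l1, u1⟩, ⟨l2, u2⟩⟩ := h.sq
  unfold MN
  have b1 := h.b1
  have b2 := h.b2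
  have b3 := h.b3
  have b4 := h.b4
  have c1 := h.c1
  have c2 := h.c2
  rw [abs_div]
  set q := √(hm m s.2.2 - (al * s.2.1) ^ 2)
  set q' := √(hm m (s.2.2 - ρ * s.1.2) - (al * (s.2.1 - ρ * s.1.1)) ^ 2)
  set B := |-(s.1.2 * (bm m s.2.2 + bm m (s.2.2 - ρ * s.1.2))) *
    (1 - m * (al * s.2.1) ^ 2) +
    al ^ 2 * s.1.1 * (s.2.1 + (s.2.1 - ρ * s.1.1)) * bm m s.2.2 ^ 2|
  set β := bm m s.2.2
  set β' := bm m (s.2.2 - ρ * s.1.2)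
  have hq : 0 < q := by linarith
  have hq' : 0 < q' := by linarith
  have hβ : 0 < β := by linarith
  have hβ' : 0 < β' := by linarith
  have hy := abs_nonneg y2
  have d1 : 1 / 3 * (1 / 3) * (1 / 4 * (1 / 3) + 1 / 4 * (1 / 3)) ≤ q * q' * (β * q' + β' * q) := by
    gcongr
  have d2 : q * q' * (β * q' + β' * q) ≤ 3 * 3 * (2 * 3 + 2 * 3) := by
    gcongr
  have dp : 0 < q * q' * (β * q' + β' * q) := by positivity
  rw [abs_of_pos dp]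
  constructor
  · rw [le_div_iff₀ dp]
    calc |y2| / 216 * (q * q' * (β * q' + β' * q)) ≤ |y2| / 216 * (3 * 3 * (2 * 3 + 2 * 3)) :=
          mul_le_mul_of_nonneg_left d2 (by positivity)
      _ = |y2| / 2 := by ring
      _ ≤ _ := c1
  · rw [div_le_iff₀ dp]
    calc B ≤ 3 * |y2| := c2
      _ = 162 * |y2| * (1 / 3 * (1 / 3) * (1 / 4 * (1 / 3) + 1 / 4 * (1 / 3))) := by ring
      _ ≤ _ := mul_le_mul_of_nonneg_left d1 (by positivity)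

/-- The difference of `om` in `X`. -/
theorem omN_dX (ρ Y a b : ℝ) (hρ : 0 < ρ) (ha : 0 < a - ρ * Y) (hb : 0 < b - ρ * Y) :
    omN ρ (Y, a) - omN ρ (Y, b) =
      -(Y * ((a * (b - ρ * Y) + (a - ρ * Y) * b) / ((a - ρ * Y) * (b - ρ * Y)) ^ 2) * (a - b)) := by
  unfold omN
  simp only
  obtain ⟨A, hA⟩ : ∃ A : ℝ, A = a - ρ * Y := ⟨_, rfl⟩
  obtain ⟨B, hB⟩ : ∃ B : ℝ, B = b - ρ * Y := ⟨_, rfl⟩
  have ea : a = A + ρ * Y := by linarith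
  have eb : b = B + ρ * Y := by linarith
  rw [← hA, ← hB]
  rw [← hA] at ha
  rw [← hB] at hb
  rw [ea, eb]
  field_simp
  ring

theorem W_bd (x1 a b a' b' : ℝ) (hx1 : 0 < x1) (a1 : x1 / 2 ≤ a) (a2 : a ≤ 2 * x1)
    (b1 : x1 / 2 ≤ b) (b2 : b ≤ 2 * x1) (a1' : x1 / 2 ≤ a') (a2' : a' ≤ 2 * x1)
    (b1' : x1 / 2 ≤ b') (b2' : b' ≤ 2 * x1) :
    1 / (32 * x1 ^ 2) ≤ (a * b' + a' * b) / (a' * b') ^ 2 ∧
      (a * b' + a' * b) / (a' * b') ^ 2 ≤ 128 / x1 ^ 2 := by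
  have ha : 0 < a := by linarith
  have hb : 0 < b := by linarith
  have ha' : 0 < a' := by linarith
  have hb' : 0 < b' := by linarith
  have n1 : x1 / 2 * (x1 / 2) + x1 / 2 * (x1 / 2) ≤ a * b' + a' * b := by gcongr
  have n2 : a * b' + a' * b ≤ 2 * x1 * (2 * x1) + 2 * x1 * (2 * x1) := by gcongr
  have d1 : (x1 / 2 * (x1 / 2)) ^ 2 ≤ (a' * b') ^ 2 := by gcongr
  have d2 : (a' * b') ^ 2 ≤ (2 * x1 * (2 * x1)) ^ 2 := by gcongr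
  have dp : 0 < (a' * b') ^ 2 := by positivity
  constructor
  · rw [le_div_iff₀ dp]
    calc 1 / (32 * x1 ^ 2) * (a' * b') ^ 2 ≤ 1 / (32 * x1 ^ 2) * (2 * x1 * (2 * x1)) ^ 2 :=
          mul_le_mul_of_nonneg_left d2 (by positivity)
      _ = x1 / 2 * (x1 / 2) + x1 / 2 * (x1 / 2) := by field_simp; ring
      _ ≤ _ := n1
  · rw [div_le_iff₀ dp]
    calc a * b' + a' * b ≤ 2 * x1 * (2 * x1) + 2 * x1 * (2 * x1) := n2
      _ = 128 / x1 ^ 2 * (x1 / 2 * (x1 / 2)) ^ 2 := by field_simp; ring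
      _ ≤ _ := mul_le_mul_of_nonneg_left d1 (by positivity)

/-- The difference of `om` in `Y`. -/
theorem omN_dY (ρ Y Y' X : ℝ) (hρ : 0 < ρ) (ha : 0 < X - ρ * Y) (hb : 0 < X - ρ * Y') :
    omN ρ (Y, X) - omN ρ (Y', X) =
      X ^ 2 * ((X - ρ * Y) + (X - ρ * Y')) / ((X - ρ * Y) * (X - ρ * Y')) ^ 2 * (Y - Y') := by
  unfold omN
  simp only
  obtain ⟨A, hA⟩ : ∃ A : ℝ, A = X - ρ * Y := ⟨_, rfl⟩
  obtain ⟨B, hB⟩ : ∃ B : ℝ, B = X - ρ * Y' := ⟨_, rfl⟩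
  have ea : Y = (X - A) / ρ := by rw [hA]; field_simp; ring
  have eb : Y' = (X - B) / ρ := by rw [hB]; field_simp; ring
  rw [← hA, ← hB]
  rw [← hA] at ha
  rw [← hB] at hb
  rw [ea, eb]
  field_simp
  ring

/-- The second separated function is Lipschitz in `r`. -/
theorem sgN_lip (m ρ Y r r1 y2 : ℝ) (hm0 : 0 ≤ m) (hm1 : m ≤ 1) (hY : |Y| ≤ 2 * |y2|)
    (h1 : 3 / 16 ≤ hm m (r - ρ * Y)) (h2 : 3 / 16 ≤ hm m (r1 - ρ * Y)) (h2' : hm m (r1 - ρ * Y) ≤ 9)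
    (b1 : 0 ≤ bm m (r - ρ * Y)) (b1' : bm m (r - ρ * Y) ≤ 2) (b2 : 0 ≤ bm m (r1 - ρ * Y))
    (b2' : bm m (r1 - ρ * Y) ≤ 2) (b3 : 0 ≤ bm m r1) (b3' : bm m r1 ≤ 2) :
    |sgN m ρ (Y, r) - sgN m ρ (Y, r1)| ≤ 2000 * |y2| * |r - r1| := by
  have e0 : sgN m ρ (Y, r) - sgN m ρ (Y, r1) = Y * (r - r1) *
      (-(2 * m * hm m (r1 - ρ * Y)) - (bm m r1 + bm m (r1 - ρ * Y)) *
        (bm m (r - ρ * Y) + bm m (r1 - ρ * Y))) / (hm m (r - ρ * Y) * hm m (r1 - ρ * Y)) := by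
    have k1 : sgN m ρ (Y, r) = Y * (bm m r + bm m (r - ρ * Y)) / hm m (r - ρ * Y) := by
      unfold sgN bm
      congr 1
      simp only
      ring
    have k2 : sgN m ρ (Y, r1) = Y * (bm m r1 + bm m (r1 - ρ * Y)) / hm m (r1 - ρ * Y) := by
      unfold sgN bm
      congr 1
      simp only
      ring
    have k3 : bm m r + bm m (r - ρ * Y) = bm m r1 + bm m (r1 - ρ * Y) - 2 * m * (r - r1) := by
      unfold bm
      ring
    have k4 : hm m (r - ρ * Y) = hm m (r1 - ρ * Y) +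
        (r - r1) * (bm m (r - ρ * Y) + bm m (r1 - ρ * Y)) := by
      unfold hm bm
      ring
    have g1 : hm m (r - ρ * Y) ≠ 0 := by linarith
    have g2 : hm m (r1 - ρ * Y) ≠ 0 := by linarith
    rw [k1, k2, k3, div_sub_div _ _ g1 g2]
    congr 1
    rw [k4]
    ring
  rw [e0, abs_div, abs_mul, abs_mul]
  have hd : (3 / 16 : ℝ) * (3 / 16) ≤ hm m (r - ρ * Y) * hm m (r1 - ρ * Y) := by gcongr
  have hdp : 0 < hm m (r - ρ * Y) * hm m (r1 - ρ * Y) := by linarith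
  rw [abs_of_pos hdp, div_le_iff₀ hdp]
  have hn : |-(2 * m * hm m (r1 - ρ * Y)) - (bm m r1 + bm m (r1 - ρ * Y)) *
        (bm m (r - ρ * Y) + bm m (r1 - ρ * Y))| ≤ 34 := by
    have i1 : 0 ≤ 2 * m * hm m (r1 - ρ * Y) := by
      have : 0 ≤ hm m (r1 - ρ * Y) := by linarith
      positivity
    have i2 : 2 * m * hm m (r1 - ρ * Y) ≤ 2 * 1 * 9 := by
      have : 0 ≤ hm m (r1 - ρ * Y) := by linarith
      gcongr
    have i3 : 0 ≤ (bm m r1 + bm m (r1 - ρ * Y)) * (bm m (r - ρ * Y) + bm m (r1 - ρ * Y)) := by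
      positivity
    have i4 : (bm m r1 + bm m (r1 - ρ * Y)) * (bm m (r - ρ * Y) + bm m (r1 - ρ * Y)) ≤
        (2 + 2) * (2 + 2) := by gcongr
    rw [abs_le]
    constructor <;> linarith
  have hy := abs_nonneg y2
  calc |Y| * |r - r1| * |-(2 * m * hm m (r1 - ρ * Y)) - (bm m r1 + bm m (r1 - ρ * Y)) *
        (bm m (r - ρ * Y) + bm m (r1 - ρ * Y))| ≤ 2 * |y2| * |r - r1| * 34 := by gcongr
    _ ≤ 2000 * |y2| * |r - r1| * (3 / 16 * (3 / 16)) := by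
        have : 0 ≤ |y2| * |r - r1| := by positivity
        nlinarith
    _ ≤ _ := mul_le_mul_of_nonneg_left hd (by positivity)

end Pool.Agent.SDT.N1M

end -- N1M.E7

section -- N1M.E8

/-!
N1M, block M4: type N. The key decomposition of the phase of a rectangle.
-/

namespace Pool.Agent.SDT.N1M

open MeasureTheory Set Metric Filter Pool.Agent.SDT.MP_6cbfb8_an Pool.Agent.SDT.MST Pool.Agent.SDT.N1
open Pool.Agent.SDT.N1F Pool.Agent.SDT.N1G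
open scoped ENNReal Real ContDiff Topology

/-- Monotonicity at an intermediate point: `f ξ - f a = -(Y W₁ (ξ - a))` etc. -/
theorem between {Y W W' a b ξ fa fb fx : ℝ} (hW : 0 ≤ W) (hW' : 0 ≤ W') (hξ : ξ ∈ uIcc a b)
    (h1 : fx - fa = -(Y * W * (ξ - a))) (h2 : fx - fb = -(Y * W' * (ξ - b))) :
    (fa ≤ fx ∨ fb ≤ fx) ∧ (fx ≤ fa ∨ fx ≤ fb) := by
  rw [mem_uIcc] at hξ
  rcases le_total 0 Y with hY | hY
  · have p1 : 0 ≤ Y * W := mul_nonneg hY hW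
    have p2 : 0 ≤ Y * W' := mul_nonneg hY hW'
    rcases hξ with ⟨u1, u2⟩ | ⟨u1, u2⟩
    · have q1 := mul_nonneg p1 (sub_nonneg.2 u1)
      have q2 := mul_nonneg p2 (sub_nonneg.2 u2)
      exact ⟨Or.inr (by linarith), Or.inl (by linarith)⟩
    · have q1 := mul_nonneg p1 (sub_nonneg.2 u2)
      have q2 := mul_nonneg p2 (sub_nonneg.2 u1)
      exact ⟨Or.inl (by linarith), Or.inr (by linarith)⟩
  · have p1 : Y * W ≤ 0 := mul_nonpos_of_nonpos_of_nonneg hY hW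
    have p2 : Y * W' ≤ 0 := mul_nonpos_of_nonpos_of_nonneg hY hW'
    rcases hξ with ⟨u1, u2⟩ | ⟨u1, u2⟩
    · have q1 := mul_nonpos_of_nonpos_of_nonneg p1 (sub_nonneg.2 u1)
      have q2 := mul_nonpos_of_nonpos_of_nonneg p2 (sub_nonneg.2 u2)
      exact ⟨Or.inl (by linarith), Or.inr (by linarith)⟩
    · have q1 := mul_nonpos_of_nonpos_of_nonneg p1 (sub_nonneg.2 u2)
      have q2 := mul_nonpos_of_nonpos_of_nonneg p2 (sub_nonneg.2 u1)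
      exact ⟨Or.inr (by linarith), Or.inl (by linarith)⟩

/-- The facts used in both cases. -/
theorem keyN (c : ℝ) (hc : 0 < c) (hc1 : c ≤ 1) (m0 : ℝ) (x0 y0 : ℝ × ℝ) (hb : Bm m0 x0)
    (hy1 : y0.1 ≠ 0) (hy2 : y0.2 ≠ 0) :
    ∃ l Λ C δ0 : ℝ, 0 < l ∧ 0 < Λ ∧ 1 ≤ C ∧ 0 < δ0 ∧ δ0 ≤ 1 ∧
      ∀ al m ρ : ℝ, Sm al m m0 δ0 → 0 < ρ → ρ < δ0 → ∀ δ : ℝ, δ ≤ δ0 →
      ∀ q : V × V, NbG δ x0 y0 q → ∃ n L M : ℝ, l ≤ L ∧ L ≤ Λ ∧ l ≤ |M| ∧ |M| ≤ Λ ∧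
        Fg (phN c m al ρ) q = -(L * n * (al ^ 2 * q.1.2.2)) + M * q.2.2.2 ∧
        |q.1.2.2| ≤ C * (|nn (omN ρ) (sgN m ρ) (px q)| + |nn (omN ρ) (sgN m ρ) (pz q)| +
          |q.2.2.2|) ∧
        |n - nn (omN ρ) (sgN m ρ) (px q)| ≤ C * (|nn (omN ρ) (sgN m ρ) (px q)| +
          |nn (omN ρ) (sgN m ρ) (pz q)| + |q.2.2.2|) ∧
        (∀ k : ℝ, k ≤ nn (omN ρ) (sgN m ρ) (px q) → k ≤ nn (omN ρ) (sgN m ρ) (pz q) →
          k - C * |q.2.2.2| ≤ n) ∧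
        (∀ k : ℝ, nn (omN ρ) (sgN m ρ) (px q) ≤ k → nn (omN ρ) (sgN m ρ) (pz q) ≤ k →
          n ≤ k + C * |q.2.2.2|) ∧
        (∃ s, Bx δ x0 y0 s ∧ n = nn (omN ρ) (sgN m ρ) s) := by
  obtain ⟨δ0, d0, d1, H⟩ := box_of_ev m0 x0 y0 _ (GdN_ev m0 x0 y0 hb hy1 hy2)
  obtain ⟨hm0, hm1, hx1, hR⟩ := hb
  have p1 : 0 < |y0.1| := abs_pos.2 hy1
  have p2 : 0 < |y0.2| := abs_pos.2 hy2
  set x1 := x0.1 with hx1d
  set Cs : ℝ := 2000 * |y0.2| with hCs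
  have hCs0 : 0 < Cs := by positivity
  set W0 : ℝ := 1 / (32 * x1 ^ 2) with hW0
  set W1 : ℝ := 128 / x1 ^ 2 with hW1
  have hW0p : 0 < W0 := by positivity
  have hW1p : 0 < W1 := by positivity
  -- C1 = constant in `|z1| ≤ C1 (..)`
  set C1 : ℝ := (1 + Cs) / (|y0.1| / 2 * W0) with hC1
  have hC1p : 0 < C1 := by positivity
  set C : ℝ := 1 + C1 + 2 * |y0.1| * W1 * C1 + Cs with hC
  refine ⟨min (x1 / 2304) (|y0.2| / 216), 972 * x1 + 162 * |y0.2|, C, δ0, by positivity,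
    by positivity, ?_, d0, d1, ?_⟩
  · have : 0 ≤ C1 + 2 * |y0.1| * W1 * C1 + Cs := by positivity
    linarith
  intro al m ρ hS hρ hρ' δ hδ q hq
  have G : ∀ s : YX, Bx δ x0 y0 s → GdN x1 y0.1 y0.2 al m ρ s := fun s hs =>
    H al m ρ hS hρ hρ' s ⟨hs.1.trans hδ, hs.2.1.trans hδ, hs.2.2.1.trans hδ, hs.2.2.2.trans hδ⟩
  have hmm0 : 0 ≤ m := hS.2.2.1
  have hmm1 : m ≤ 1 := hS.2.2.2.1
  obtain ⟨⟨q1, q2, q3, q4⟩, ⟨q1', q2', q3', q4'⟩, q5, q6⟩ := hq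
  obtain ⟨⟨Y1, X, z1⟩, ⟨Y2, r, z2⟩⟩ := q
  simp only [px, pz] at q1 q2 q3 q4 q1' q2' q3' q4' q5 q6 ⊢
  have seg : ∀ a b t e0 : ℝ, |a - e0| ≤ δ → |b - e0| ≤ δ → t ∈ uIcc a b → |t - e0| ≤ δ := by
    intro a b t e0 ha hb ht
    rw [mem_uIcc] at ht
    rw [abs_le] at ha hb ⊢
    rcases ht with hx | hx <;> constructor <;> linarith [hx.1, hx.2, ha.1, ha.2, hb.1, hb.2]
  -- first step
  obtain ⟨ξ, hξ, hF1⟩ := mvt_u (fun X => phN c m al ρ ((Y1, Y2), (X, r)))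
    (fun X => -(al ^ 2 * (LN m al ρ ((Y1, Y2), (X, r)) *
      nn (omN ρ) (sgN m ρ) ((Y1, Y2), (X, r))))) X (X - z1)
    (fun t ht => phN_dX c m al ρ hc hc1 hρ Y1 Y2 t r x1 y0.1 y0.2 hx1
      (G _ ⟨q1, q2, seg _ _ _ _ q3 q3' ht, q4⟩))
  obtain ⟨ζ, hζ, hF2⟩ := mvt_u (fun r => phN c m al ρ ((Y1, Y2), (X - z1, r)))
    (fun r => MN m al ρ ((Y1, Y2), (X - z1, r))) r (r - z2)
    (fun t ht => phN_dr c m al ρ hc hc1 hρ Y1 Y2 (X - z1) t x1 y0.1 y0.2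
      (G _ ⟨q1, q2, q3', seg _ _ _ _ q4 q4' ht⟩))
  have hξ' := seg _ _ _ _ q3 q3' hξ
  have hζ' := seg _ _ _ _ q4 q4' hζ
  have Gξ := G ((Y1, Y2), (ξ, r)) ⟨q1, q2, hξ', q4⟩
  have Gζ := G ((Y1, Y2), (X - z1, ζ)) ⟨q1, q2, q3', hζ'⟩
  have Gx := G ((Y1, Y2), (X, r)) ⟨q1, q2, q3, q4⟩
  have Gz := G ((Y1, Y2), (X - z1, r - z2)) ⟨q1, q2, q3', q4'⟩
  have Gzx := G ((Y1, Y2), (X - z1, r)) ⟨q1, q2, q3', q4⟩
  have Lb := LN_bd m al ρ _ x1 y0.1 y0.2 hx1 Gξ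
  have Mb := MN_bd m al ρ _ x1 y0.1 y0.2 Gζ
  -- differences of `om`
  have a1ξ := Gξ.a1
  have a2ξ := Gξ.a2
  have a3ξ := Gξ.a3
  have a4ξ := Gξ.a4
  have a1x := Gx.a1
  have a2x := Gx.a2
  have a3x := Gx.a3
  have a4x := Gx.a4
  have a1z := Gzx.a1
  have a2z := Gzx.a2
  have a3z := Gzx.a3
  have a4z := Gzx.a4
  simp only at a1ξ a2ξ a3ξ a4ξ a1x a2x a3x a4x a1z a2z a3z a4z
  have o1 := omN_dX ρ Y1 X (X - z1) hρ (by linarith) (by linarith)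
  have o2 := omN_dX ρ Y1 ξ X hρ (by linarith) (by linarith)
  have o3 := omN_dX ρ Y1 ξ (X - z1) hρ (by linarith) (by linarith)
  obtain ⟨w1, w1'⟩ := W_bd x1 X (X - z1) (X - ρ * Y1) (X - z1 - ρ * Y1) hx1 a1x a2x a1z a2z a3x a4x
    a3z a4z
  obtain ⟨w2, w2'⟩ := W_bd x1 ξ X (ξ - ρ * Y1) (X - ρ * Y1) hx1 a1ξ a2ξ a1x a2x a3ξ a4ξ
    a3x a4x
  obtain ⟨w3, w3'⟩ := W_bd x1 ξ (X - z1) (ξ - ρ * Y1) (X - z1 - ρ * Y1) hx1 a1ξ a2ξ a1z a2z a3ξ a4ξ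
    a3z a4z
  have hs := sgN_lip m ρ Y2 r (r - z2) y0.2 hmm0 hmm1 Gx.w3 Gx.h3 Gz.h3 Gz.h4
    (by linarith [Gx.b3]) Gx.b4 (by linarith [Gz.b3]) Gz.b4 (by linarith [Gz.b1]) Gz.b2
  have ez1 : X - (X - z1) = z1 := by ring
  have ez2 : r - (r - z2) = z2 := by ring
  rw [ez1] at o1 hF1
  rw [ez2] at hs hF2
  rw [← hCs] at hs
  rw [← hW0] at w1 w2 w3
  rw [← hW1] at w1' w2' w3'
  set WA := (X * (X - z1 - ρ * Y1) + (X - ρ * Y1) * (X - z1)) /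
    ((X - ρ * Y1) * (X - z1 - ρ * Y1)) ^ 2
  set WB := (ξ * (X - ρ * Y1) + (ξ - ρ * Y1) * X) / ((ξ - ρ * Y1) * (X - ρ * Y1)) ^ 2
  set WC := (ξ * (X - z1 - ρ * Y1) + (ξ - ρ * Y1) * (X - z1)) /
    ((ξ - ρ * Y1) * (X - z1 - ρ * Y1)) ^ 2
  set S := sgN m ρ (Y2, r) - sgN m ρ (Y2, r - z2) with hSd
  have y1l := Gx.w1
  have y1u := Gx.w2
  simp only at y1l y1u
  set A := nn (omN ρ) (sgN m ρ) ((Y1, Y2), (X, r)) with hA
  set B := nn (omN ρ) (sgN m ρ) ((Y1, Y2), (X - z1, r - z2)) with hB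
  set n := nn (omN ρ) (sgN m ρ) ((Y1, Y2), (ξ, r)) with hn
  have r1 : A - B = -(Y1 * WA * z1) - S := by
    rw [hA, hB, hSd, ← o1]
    simp only [nn]
    ring
  have r2 : n - A = -(Y1 * WB * (ξ - X)) := by
    rw [hA, hn, ← o2]
    simp only [nn]
    ring
  have r3 : n - (B - S) = -(Y1 * WC * (ξ - (X - z1))) := by
    rw [hB, hn, hSd, ← o3]
    simp only [nn]
    ring
  have hSp := abs_le.1 hs
  have hsum : 0 ≤ |A| + |B| + |z2| := by positivity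
  have hz1 : |z1| ≤ C1 * (|A| + |B| + |z2|) := by
    have f1 : |Y1 * WA * z1| ≤ (1 + Cs) * (|A| + |B| + |z2|) := by
      have : Y1 * WA * z1 = -(A - B + S) := by linarith
      rw [this, abs_neg]
      calc |A - B + S| ≤ |A - B| + |S| := abs_add_le _ _
        _ ≤ (|A| + |B|) + Cs * |z2| := add_le_add (abs_sub _ _) hs
        _ ≤ _ := by nlinarith [abs_nonneg A, abs_nonneg B, abs_nonneg z2]
    rw [abs_mul, abs_mul, abs_of_pos (lt_of_lt_of_le hW0p w1)] at f1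
    have f2 : |y0.1| / 2 * W0 * |z1| ≤ |Y1| * WA * |z1| := by gcongr
    rw [hC1, div_mul_eq_mul_div, le_div_iff₀ (by positivity)]
    linarith
  have hxi : |ξ - X| ≤ |z1| := by
    rw [mem_uIcc] at hξ
    rcases hξ with ⟨x1, x2⟩ | ⟨x1, x2⟩
    · rw [abs_of_nonneg (by linarith), abs_of_nonpos (by linarith)]
      linarith
    · rw [abs_of_nonpos (by linarith), abs_of_nonneg (by linarith)]
      linarith
  have hbt := between (lt_of_lt_of_le hW0p w2).le (lt_of_lt_of_le hW0p w3).le hξ r2 r3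
  refine ⟨n, LN m al ρ ((Y1, Y2), (ξ, r)), MN m al ρ ((Y1, Y2), (X - z1, ζ)), ?_, ?_, ?_, ?_, ?_,
    ?_, ?_, ?_, ?_, ⟨_, ⟨q1, q2, hξ', q4⟩, hn⟩⟩
  · exact (min_le_left _ _).trans Lb.1
  · linarith [Lb.2]
  · exact (min_le_right _ _).trans Mb.1
  · linarith [Mb.2]
  · have e : Fg (phN c m al ρ) ((Y1, X, z1), (Y2, r, z2)) =
        (phN c m al ρ ((Y1, Y2), (X, r)) - phN c m al ρ ((Y1, Y2), (X - z1, r))) +
        (phN c m al ρ ((Y1, Y2), (X - z1, r)) -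
          phN c m al ρ ((Y1, Y2), (X - z1, r - z2))) := by
      unfold Fg
      simp only [px, pz]
      ring
    rw [e, hF1, hF2]
    ring
  · refine hz1.trans (mul_le_mul_of_nonneg_right ?_ hsum)
    have : 0 ≤ 2 * |y0.1| * W1 * C1 := by positivity
    linarith
  · rw [r2, abs_neg, abs_mul, abs_mul, abs_of_pos (lt_of_lt_of_le hW0p w2)]
    calc |Y1| * WB * |ξ - X| ≤ 2 * |y0.1| * W1 * (C1 * (|A| + |B| + |z2|)) :=
          mul_le_mul (mul_le_mul y1u w2' (hW0p.le.trans w2) (by positivity)) (hxi.trans hz1)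
            (abs_nonneg _) (by positivity)
      _ = 2 * |y0.1| * W1 * C1 * (|A| + |B| + |z2|) := by ring
      _ ≤ _ := by
          refine mul_le_mul_of_nonneg_right ?_ hsum
          linarith
  · intro k hk1 hk2
    have hcs : Cs * |z2| ≤ C * |z2| := by
      refine mul_le_mul_of_nonneg_right ?_ (abs_nonneg _)
      have : 0 ≤ 2 * |y0.1| * W1 * C1 := by positivity
      linarith
    have := mul_nonneg hCs0.le (abs_nonneg z2)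
    rcases hbt.1 with h | h
    · linarith
    · linarith [hSp.2]
  · intro k hk1 hk2
    have hcs : Cs * |z2| ≤ C * |z2| := by
      refine mul_le_mul_of_nonneg_right ?_ (abs_nonneg _)
      have : 0 ≤ 2 * |y0.1| * W1 * C1 := by positivity
      linarith
    have := mul_nonneg hCs0.le (abs_nonneg z2)
    rcases hbt.2 with h | h
    · linarith
    · linarith [hSp.1]

end Pool.Agent.SDT.N1M

end -- N1M.E8
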