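import Pool.Agent.SDT.B11
import Pool.Agent.SDT.B17
import Pool.Agent.SDT.B30
import Pool.Agent.SDT.B31
import Pool.Agent.SDT.B32

set_option autoImplicit false

namespace Pool.Agent.SDT.MP_6cbfb8_an
end Pool.Agent.SDT.MP_6cbfb8_an
namespace Pool.Agent.SDT.MST
end Pool.Agent.SDT.MST
namespace Pool.Agent.SDT.N1
end Pool.Agent.SDT.N1
namespace Pool.Agent.SDT.N1E
end Pool.Agent.SDT.N1E

section -- N1.W3

/-!
N1, block W: the `L^p` estimate in the chart.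
-/

namespace Pool.Agent.SDT.N1

open MeasureTheory Set Metric Pool.Agent.SDT.MP_6cbfb8_an Pool.Agent.SDT.MST
open scoped ENNReal Real

/-- The product density in the plane. -/
noncomputable def pw (G₁ G₂ : ℝ → ℂ) (w : E 2) : ℂ := G₁ (w 0) * G₂ (w 1)

theorem pw_meas (G₁ G₂ : ℝ → ℂ) (h1 : Measurable G₁) (h2 : Measurable G₂) :
    Measurable (pw G₁ G₂) := by
  unfold pw
  have a1 : Measurable fun w : E 2 => w 0 := by fun_prop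
  have a2 : Measurable fun w : E 2 => w 1 := by fun_prop
  exact (h1.comp a1).mul (h2.comp a2)

theorem pw_norm (G₁ G₂ : ℝ → ℂ) (b1 : ∀ a, ‖G₁ a‖ ≤ 1) (b2 : ∀ b, ‖G₂ b‖ ≤ 1) (w : E 2) :
    ‖pw G₁ G₂ w‖ ≤ 1 := by
  unfold pw
  rw [norm_mul]
  exact mul_le_one₀ (b1 _) (norm_nonneg _) (b2 _)

theorem op2_pw (c : ℝ) (hc : 0 < c) (G₁ G₂ : ℝ → ℂ) (t : ℝ) (x : E 2) :
    op2 (hft_a c) idM t (pw G₁ G₂) x = Eo c G₁ G₂ t (x 0, x 1) := op2_eq c hc G₁ G₂ t x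

theorem S4_neg (c : ℝ) (G₁ G₂ : ℝ → ℂ) (T : ℝ) :
    ∫⁻ t in Icc (-(2 * T)) (-T), ∫⁻ ξ : ℝ × ℝ, ‖Eo c G₁ G₂ t ξ‖ₑ ^ 4 =
      S4 c (fun a => (starRingEnd ℂ) (G₁ a)) (fun b => (starRingEnd ℂ) (G₂ b)) T := by
  unfold S4
  have h1 : MeasurePreserving (fun t : ℝ => -t) volume volume :=
    Measure.measurePreserving_neg (volume : Measure ℝ)
  have h2 : MeasurableEmbedding (fun t : ℝ => -t) := (MeasurableEquiv.neg ℝ).measurableEmbedding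
  have h3 := h1.setLIntegral_comp_preimage_emb h2
    (fun t : ℝ => ∫⁻ ξ : ℝ × ℝ, ‖Eo c G₁ G₂ t ξ‖ₑ ^ 4) (Icc (-(2 * T)) (-T))
  rw [← h3]
  have h4 : (fun t : ℝ => -t) ⁻¹' Icc (-(2 * T)) (-T) = Icc T (2 * T) := by
    ext t
    simp only [mem_preimage, mem_Icc, neg_le_neg_iff]
    tauto
  rw [h4]
  refine lintegral_congr fun t => ?_
  have k1 : MeasurePreserving (fun x : ℝ × ℝ => -x) (volume : Measure (ℝ × ℝ)) volume :=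
    Measure.measurePreserving_neg _
  have k2 : MeasurableEmbedding (fun x : ℝ × ℝ => -x) :=
    (MeasurableEquiv.neg (ℝ × ℝ)).measurableEmbedding
  rw [← k1.lintegral_comp_emb k2 (fun ξ : ℝ × ℝ => ‖Eo c G₁ G₂ (-t) ξ‖ₑ ^ 4)]
  refine lintegral_congr fun ξ => ?_
  rw [Eo_conj]
  congr 1
  rw [← ofReal_norm, ← ofReal_norm, RCLike.norm_conj]

theorem L4_times (c : ℝ) (hc : 0 < c) (h : L4H c) : ∃ C : ℝ, 0 ≤ C ∧ ∀ T : ℝ, 1 ≤ T →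
    ∀ G₁ G₂ : ℝ → ℂ, Measurable G₁ → Measurable G₂ → (∀ a, ‖G₁ a‖ ≤ 1) → (∀ b, ‖G₂ b‖ ≤ 1) →
    (∀ a, G₁ a ≠ 0 → c ≤ |a|) → (∀ b, G₂ b ≠ 0 → c ≤ |b|) →
    ∫⁻ t in {t : ℝ | T ≤ |t| ∧ |t| ≤ 2 * T}, ∫⁻ x : E 2,
      ‖op2 (hft_a c) idM t (pw G₁ G₂) x‖ₑ ^ (4:ℝ) ≤
      ENNReal.ofReal (C * (1 + Real.log T) ^ 8 / T) := by
  obtain ⟨C, hC, H⟩ := L4_signs c hc h
  refine ⟨2 * C, by positivity, ?_⟩
  intro T hT G₁ G₂ h1 h2 b1 b2 s1 s2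
  have hsub : {t : ℝ | T ≤ |t| ∧ |t| ≤ 2 * T} ⊆ Icc T (2 * T) ∪ Icc (-(2 * T)) (-T) := by
    intro t ht
    obtain ⟨ht1, ht2⟩ := ht
    rcases le_total 0 t with h0 | h0
    · rw [abs_of_nonneg h0] at ht1 ht2
      exact Or.inl ⟨ht1, ht2⟩
    · rw [abs_of_nonpos h0] at ht1 ht2
      exact Or.inr ⟨by linarith, by linarith⟩
  have hin : ∀ t : ℝ, ∫⁻ x : E 2, ‖op2 (hft_a c) idM t (pw G₁ G₂) x‖ₑ ^ (4:ℝ) =
      ∫⁻ ξ : ℝ × ℝ, ‖Eo c G₁ G₂ t ξ‖ₑ ^ 4 := by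
    intro t
    rw [← lint_pe]
    refine lintegral_congr fun x => ?_
    rw [op2_pw c hc]
    exact_mod_cast ENNReal.rpow_natCast _ 4
  have hcm : ∀ G : ℝ → ℂ, Measurable G → Measurable fun a => (starRingEnd ℂ) (G a) := by
    intro G hG
    exact Complex.continuous_conj.measurable.comp hG
  calc ∫⁻ t in {t : ℝ | T ≤ |t| ∧ |t| ≤ 2 * T}, ∫⁻ x : E 2,
        ‖op2 (hft_a c) idM t (pw G₁ G₂) x‖ₑ ^ (4:ℝ)
      = ∫⁻ t in {t : ℝ | T ≤ |t| ∧ |t| ≤ 2 * T}, ∫⁻ ξ : ℝ × ℝ, ‖Eo c G₁ G₂ t ξ‖ₑ ^ 4 :=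
        lintegral_congr fun t => hin t
    _ ≤ ∫⁻ t in Icc T (2 * T) ∪ Icc (-(2 * T)) (-T), ∫⁻ ξ : ℝ × ℝ, ‖Eo c G₁ G₂ t ξ‖ₑ ^ 4 :=
        lintegral_mono_set hsub
    _ ≤ S4 c G₁ G₂ T + S4 c (fun a => (starRingEnd ℂ) (G₁ a)) (fun b => (starRingEnd ℂ) (G₂ b)) T := by
        refine (lintegral_union_le _ _ _).trans ?_
        rw [S4_neg]
        exact le_rfl
    _ ≤ ENNReal.ofReal (C * (1 + Real.log T) ^ 8 / T) +
          ENNReal.ofReal (C * (1 + Real.log T) ^ 8 / T) := by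
        refine add_le_add (H T hT G₁ G₂ h1 h2 b1 b2 s1 s2) (H T hT _ _ (hcm _ h1) (hcm _ h2) ?_ ?_ ?_ ?_)
        · intro a
          rw [RCLike.norm_conj]
          exact b1 a
        · intro a
          rw [RCLike.norm_conj]
          exact b2 a
        · intro a ha
          exact s1 a fun h0 => ha (by rw [h0]; simp)
        · intro a ha
          exact s2 a fun h0 => ha (by rw [h0]; simp)
    _ = ENNReal.ofReal (2 * C * (1 + Real.log T) ^ 8 / T) := by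
        have hlog := Real.log_nonneg hT
        rw [← ENNReal.ofReal_add (by positivity) (by positivity)]
        congr 1
        ring

theorem log_pow_le (β : ℝ) (hβ : β < 1) : ∃ K : ℝ, 0 ≤ K ∧ ∀ T : ℝ, 1 ≤ T →
    (1 + Real.log T) ^ 8 / T ≤ K * T ^ (-β) := by
  set ε : ℝ := (1 - β) / 8 with hε
  have hε0 : 0 < ε := by rw [hε]; linarith
  refine ⟨(1 + 1 / ε) ^ 8, by positivity, fun T hT => ?_⟩
  have hT0 : 0 < T := by linarith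
  have h1 : Real.log T ≤ T ^ ε / ε := Real.log_le_rpow_div hT0.le hε0
  have h2 : 1 ≤ T ^ ε := Real.one_le_rpow hT hε0.le
  have h3 : 1 + Real.log T ≤ (1 + 1 / ε) * T ^ ε := by
    have : (1 + 1 / ε) * T ^ ε = T ^ ε + T ^ ε / ε := by ring
    rw [this]
    linarith
  have h4 : 0 ≤ 1 + Real.log T := by linarith [Real.log_nonneg hT]
  have h5 : (1 + Real.log T) ^ 8 ≤ ((1 + 1 / ε) * T ^ ε) ^ 8 := pow_le_pow_left₀ h4 h3 8
  have h6 : ((1 + 1 / ε) * T ^ ε) ^ 8 = (1 + 1 / ε) ^ 8 * T ^ (1 - β) := by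
    rw [mul_pow]
    congr 1
    rw [← Real.rpow_natCast (T ^ ε) 8, ← Real.rpow_mul hT0.le]
    congr 1
    rw [hε]
    push_cast
    ring
  rw [div_le_iff₀ hT0]
  calc (1 + Real.log T) ^ 8 ≤ (1 + 1 / ε) ^ 8 * T ^ (1 - β) := by rw [← h6]; exact h5
    _ = (1 + 1 / ε) ^ 8 * T ^ (-β) * T := by
        rw [mul_assoc]
        congr 1
        rw [← Real.rpow_add_one hT0.ne']
        congr 1
        ring

theorem op2_Lp_lt (c : ℝ) (hc : 0 < c) (h : L4H c) (p : ℝ) (hp : 3 < p) (hp4 : p < 4) :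
    ∃ C : ℝ≥0∞, C ≠ ∞ ∧ ∀ G₁ G₂ : ℝ → ℂ, Measurable G₁ → Measurable G₂ → (∀ a, ‖G₁ a‖ ≤ 1) →
    (∀ b, ‖G₂ b‖ ≤ 1) → (∀ a, G₁ a ≠ 0 → c ≤ |a|) → (∀ b, G₂ b ≠ 0 → c ≤ |b|) →
    ∫⁻ t : ℝ, ∫⁻ x : E 2, ‖op2 (hft_a c) idM t (pw G₁ G₂) x‖ₑ ^ p ≤ C := by
  obtain ⟨C, hC, H⟩ := L4_times c hc h
  set β : ℝ := ((4 - p) / (p - 2) + 1) / 2 with hβ
  have hp2 : 0 < p - 2 := by linarith
  have hq : (4 - p) / (p - 2) < 1 := by rw [div_lt_one hp2]; linarith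
  have hβ1 : β < 1 := by rw [hβ]; linarith
  have hβ2 : 4 - p < β * (p - 2) := by
    have : (4 - p) / (p - 2) < β := by rw [hβ]; linarith
    rwa [div_lt_iff₀ hp2] at this
  obtain ⟨K, hK, hKT⟩ := log_pow_le β hβ1
  obtain ⟨Cs, hCs, hsum⟩ := time_sum (Measure.dirac ()) (volume : Measure (E 2)) p β (by linarith)
    hp4 hβ2
  obtain ⟨C0, hC0, hb0⟩ := op2_bounds 2 (c ^ 2 / 4) (by positivity) (hft_a c) (hft_cut hc) 1
  have hR : ∀ w : E 2, hft_a c (vN idM w) ≠ 0 → ‖w‖ ≤ 1 := by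
    intro w hw
    have h1 : ¬ (vN idM w ≤ c ^ 2 / 4) := fun h2 => hw ((hft_cut hc).2 _ h2)
    push Not at h1
    unfold vN at h1
    rw [mv_idM] at h1
    have h2 : ‖w‖ ^ 2 < 1 := by nlinarith [sq_nonneg c]
    nlinarith [norm_nonneg w]
  refine ⟨Cs * (ENNReal.ofReal C0 ^ (p - 2) * ENNReal.ofReal C0 +
    ENNReal.ofReal C0 ^ ((4 - p) / 2) * ENNReal.ofReal (C * K) ^ ((p - 2) / 2)), ?_, ?_⟩
  · refine ENNReal.mul_ne_top hCs (ENNReal.add_ne_top.2 ⟨ENNReal.mul_ne_top ?_ ENNReal.ofReal_ne_top,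
      ENNReal.mul_ne_top ?_ ?_⟩)
    · exact ENNReal.rpow_ne_top_of_nonneg (by linarith) ENNReal.ofReal_ne_top
    · exact ENNReal.rpow_ne_top_of_nonneg (by linarith) ENNReal.ofReal_ne_top
    · exact ENNReal.rpow_ne_top_of_nonneg (by linarith) ENNReal.ofReal_ne_top
  intro G₁ G₂ h1 h2 b1 b2 s1 s2
  have hbd := fun t : ℝ => hb0 idM hR t (pw G₁ G₂) (pw_meas G₁ G₂ h1 h2) (pw_norm G₁ G₂ b1 b2)
  have hm : Measurable fun q : Unit × ℝ × E 2 => op2 (hft_a c) idM q.2.1 (pw G₁ G₂) q.2.2 :=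
    (measurable_op2 _ _ (hft_cut hc) (pw G₁ G₂) (pw_meas G₁ G₂ h1 h2)).comp
      (f := fun q : Unit × ℝ × E 2 => ((idM, q.2.1, q.2.2) : Mat 2 × ℝ × E 2)) (by fun_prop)
  have key := hsum (fun _ t x => op2 (hft_a c) idM t (pw G₁ G₂) x) hm
    (ENNReal.ofReal C0) (ENNReal.ofReal C0) (ENNReal.ofReal (C * K))
    (fun _ t => (hbd t).2) (fun _ t x => by
      rw [← ofReal_norm]
      exact ENNReal.ofReal_le_ofReal ((hbd t).1 x)) (fun T hT => by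
      rw [lintegral_dirac]
      refine (H T hT G₁ G₂ h1 h2 b1 b2 s1 s2).trans ?_
      rw [← ENNReal.ofReal_mul (by positivity)]
      apply ENNReal.ofReal_le_ofReal
      calc C * (1 + Real.log T) ^ 8 / T = C * ((1 + Real.log T) ^ 8 / T) := by ring
        _ ≤ C * (K * T ^ (-β)) := mul_le_mul_of_nonneg_left (hKT T hT) hC
        _ = C * K * T ^ (-β) := by ring)
  rw [lintegral_dirac] at key
  exact key

theorem op2_Lp (c : ℝ) (hc : 0 < c) (h : L4H c) (p : ℝ) (hp : 3 < p) :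
    ∃ C : ℝ≥0∞, C ≠ ∞ ∧ ∀ G₁ G₂ : ℝ → ℂ, Measurable G₁ → Measurable G₂ → (∀ a, ‖G₁ a‖ ≤ 1) →
    (∀ b, ‖G₂ b‖ ≤ 1) → (∀ a, G₁ a ≠ 0 → c ≤ |a|) → (∀ b, G₂ b ≠ 0 → c ≤ |b|) →
    ∫⁻ t : ℝ, ∫⁻ x : E 2, ‖op2 (hft_a c) idM t (pw G₁ G₂) x‖ₑ ^ p ≤ C := by
  rcases lt_or_ge p 4 with hp4 | hp4
  · exact op2_Lp_lt c hc h p hp hp4
  · obtain ⟨C, hC, H⟩ := op2_Lp_lt c hc h (7 / 2) (by norm_num) (by norm_num)
    obtain ⟨C0, hC0, hb0⟩ := op2_bounds 2 (c ^ 2 / 4) (by positivity) (hft_a c) (hft_cut hc) 1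
    have hR : ∀ w : E 2, hft_a c (vN idM w) ≠ 0 → ‖w‖ ≤ 1 := by
      intro w hw
      have h1 : ¬ (vN idM w ≤ c ^ 2 / 4) := fun h2 => hw ((hft_cut hc).2 _ h2)
      push Not at h1
      unfold vN at h1
      rw [mv_idM] at h1
      have h2 : ‖w‖ ^ 2 < 1 := by nlinarith [sq_nonneg c]
      nlinarith [norm_nonneg w]
    have hK : ENNReal.ofReal C0 ^ (p - 7 / 2) ≠ ∞ :=
      ENNReal.rpow_ne_top_of_nonneg (by linarith) ENNReal.ofReal_ne_top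
    refine ⟨ENNReal.ofReal C0 ^ (p - 7 / 2) * C, ENNReal.mul_ne_top hK hC, ?_⟩
    intro G₁ G₂ h1 h2 b1 b2 s1 s2
    have hbd := fun t : ℝ => hb0 idM hR t (pw G₁ G₂) (pw_meas G₁ G₂ h1 h2) (pw_norm G₁ G₂ b1 b2)
    calc ∫⁻ t : ℝ, ∫⁻ x : E 2, ‖op2 (hft_a c) idM t (pw G₁ G₂) x‖ₑ ^ p
        ≤ ∫⁻ t : ℝ, ENNReal.ofReal C0 ^ (p - 7 / 2) *
            ∫⁻ x : E 2, ‖op2 (hft_a c) idM t (pw G₁ G₂) x‖ₑ ^ (7 / 2 : ℝ) := by
          refine lintegral_mono fun t => ?_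
          rw [← lintegral_const_mul' _ _ hK]
          refine lintegral_mono fun x => ?_
          have h3 : ‖op2 (hft_a c) idM t (pw G₁ G₂) x‖ₑ ≤ ENNReal.ofReal C0 := by
            rw [← ofReal_norm]
            exact ENNReal.ofReal_le_ofReal ((hbd t).1 x)
          have h4 : p = (p - 7 / 2) + 7 / 2 := by ring
          show ‖op2 (hft_a c) idM t (pw G₁ G₂) x‖ₑ ^ p ≤ _
          conv_lhs => rw [h4]
          rw [ENNReal.rpow_add_of_nonneg _ _ (by linarith) (by norm_num)]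
          gcongr
          linarith
      _ = ENNReal.ofReal C0 ^ (p - 7 / 2) * ∫⁻ t : ℝ,
            ∫⁻ x : E 2, ‖op2 (hft_a c) idM t (pw G₁ G₂) x‖ₑ ^ (7 / 2 : ℝ) :=
          lintegral_const_mul' _ _ hK
      _ ≤ ENNReal.ofReal C0 ^ (p - 7 / 2) * C := by
          gcongr
          exact H G₁ G₂ h1 h2 b1 b2 s1 s2

end Pool.Agent.SDT.N1

end -- N1.W3

section -- N1.Ea

/-!
N1, block E: elementary estimates.
-/

namespace Pool.Agent.SDT.N1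

open MeasureTheory Set Metric Pool.Agent.SDT.MP_6cbfb8_an Pool.Agent.SDT.MST
open Pool.Agent.SDT.N1E (Dom In4 F6 NN NNu dS dR P6)
open scoped ENNReal Real ContDiff

/-- `N` and `N'` do not vanish together. -/
theorem Nf_ne (c : ℝ) (hc : 0 < c) (x0 y0 : ℝ × ℝ) (hx : x0 ∈ Kc c) (hy1 : y0.1 ≠ 0)
    (h : Nf 0 y0 x0 = 0) : Nf 0 y0.swap x0.swap ≠ 0 := by
  obtain ⟨h1, h2, h3⟩ := hx
  intro h'
  have a0 : 0 < x0.1 := by linarith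
  have b0 : 0 < x0.2 := by linarith
  have hc2 : 0 < c ^ 2 := by positivity
  have p1 : 0 < 1 - x0.1 ^ 2 := by nlinarith [sq_nonneg x0.2]
  have p2 : 0 < 1 - x0.2 ^ 2 := by nlinarith [sq_nonneg x0.1]
  have e1 : y0.1 * (1 - x0.2 ^ 2) + y0.2 * (x0.1 * x0.2) = 0 := by
    have : Nf 0 y0 x0 = 2 * (y0.1 * (1 - x0.2 ^ 2) + y0.2 * (x0.1 * x0.2)) /
        (x0.1 * (1 - x0.2 ^ 2)) := by
      unfold Nf om sg
      simp only [zero_mul, sub_zero]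
      field_simp
      ring
    rw [this, div_eq_zero_iff] at h
    rcases h with h | h
    · linarith
    · exact absurd h (by positivity)
  have e2 : y0.2 * (1 - x0.1 ^ 2) + y0.1 * (x0.1 * x0.2) = 0 := by
    have : Nf 0 y0.swap x0.swap = 2 * (y0.2 * (1 - x0.1 ^ 2) + y0.1 * (x0.1 * x0.2)) /
        (x0.2 * (1 - x0.1 ^ 2)) := by
      unfold Nf om sg
      simp only [zero_mul, sub_zero, Prod.fst_swap, Prod.snd_swap]
      field_simp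
      ring
    rw [this, div_eq_zero_iff] at h'
    rcases h' with h' | h'
    · linarith
    · exact absurd h' (by positivity)
  have e3 : y0.1 * (1 - x0.1 ^ 2 - x0.2 ^ 2) = 0 := by
    linear_combination (1 - x0.1 ^ 2) * e1 - (x0.1 * x0.2) * e2
  rcases mul_eq_zero.1 e3 with h4 | h4
  · exact hy1 h4
  · nlinarith

theorem E_N (c : ℝ) (hc : 0 < c) (x0 y0 : ℝ × ℝ) (hx : x0 ∈ Kc c) (h1 : Nf 0 y0 x0 ≠ 0)
    (h2 : Nf 0 y0.swap x0.swap ≠ 0) : ∃ δ c1 C7 : ℝ, 0 < δ ∧ 0 < c1 ∧ 1 ≤ C7 ∧ ∀ ρ : ℝ, 0 < ρ →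
    ρ < δ → ∀ q : V × V, Nb δ ρ x0 y0 q →
    (C7 * |q.2.2.2| ≤ |q.1.2.2| → c1 * ρ * |q.1.2.2| ≤ |Fr c q.1 q.2|) ∧
    (C7 * |q.1.2.2| ≤ |q.2.2.2| → c1 * ρ * |q.2.2.2| ≤ |Fr c q.1 q.2|) := by
  have hc1 := e_Kc hc hx
  obtain ⟨m, hm, hm1, hm2⟩ : ∃ m : ℝ, 0 < m ∧ m ≤ |Nf 0 y0 x0| / 2 ∧
      m ≤ |Nf 0 y0.swap x0.swap| / 2 :=
    ⟨min (|Nf 0 y0 x0| / 2) (|Nf 0 y0.swap x0.swap| / 2), by positivity, min_le_left _ _,
      min_le_right _ _⟩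
  obtain ⟨δ1, d1, d1', H1⟩ := e_base hc (y0 := y0) hx hm
  obtain ⟨δ2, d2, d2', H2⟩ := e_base hc (y0 := y0.swap) (e_Kc_swap hx) hm
  obtain ⟨Y, hY⟩ : ∃ Y : ℝ, Y = |y0.1| + |y0.2| + 2 := ⟨_, rfl⟩
  have hY2 : 2 ≤ Y := by
    have := abs_nonneg y0.1
    have := abs_nonneg y0.2
    linarith
  refine ⟨min δ1 δ2, c ^ 5 / 192 * m, 1 + 6912 * Y / (c ^ 8 * m), lt_min d1 d2, by positivity,
    by simp; positivity, fun ρ hρ hρδ q hq => ?_⟩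
  obtain ⟨g1, g2, g3, g4, -, -⟩ := H1 ρ hρ (hρδ.trans_le (min_le_left _ _)) q
    (e_Nb_mono (min_le_left _ _) hq)
  obtain ⟨-, -, -, g4', -, -⟩ := H2 ρ hρ (hρδ.trans_le (min_le_right _ _)) q.swap
    (e_Nb_swap (e_Nb_mono (min_le_right _ _) hq))
  have hS : ∀ u ∈ Icc (0:ℝ) 1, c ^ 5 / 96 * (ρ * m) ≤ |dS q u| := by
    intro u hu
    refine e_dS_ge hc g1 hu (by positivity) ?_
    have e1 := g4 u hu
    have e2 := abs_sub_abs_le_abs_sub (ρ * Nf 0 y0 x0) (NNu q u)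
    rw [abs_sub_comm (ρ * Nf 0 y0 x0), abs_mul, abs_of_pos hρ] at e2
    nlinarith
  have hR : ∀ u ∈ Icc (0:ℝ) 1, c ^ 5 / 96 * (ρ * m) ≤ |dR q u| := by
    intro u hu
    rw [e_dR_swap]
    refine e_dS_ge hc (e_In4_swap g1) hu (by positivity) ?_
    have e1 := g4' u hu
    have e2 := abs_sub_abs_le_abs_sub (ρ * Nf 0 y0.swap x0.swap) (NNu q.swap u)
    rw [abs_sub_comm (ρ * Nf 0 y0.swap x0.swap), abs_mul, abs_of_pos hρ] at e2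
    nlinarith
  have hyy : |q.1.1| + |q.2.1| ≤ ρ * Y := by
    rw [hY]
    linarith
  have hS' : ∀ u ∈ Icc (0:ℝ) 1, |dS q u| ≤ 36 / c ^ 3 * (ρ * Y) := by
    intro u hu
    refine (N1E.dS_le hc hc1 g1 hu).trans ?_
    gcongr
  have hR' : ∀ u ∈ Icc (0:ℝ) 1, |dR q u| ≤ 36 / c ^ 3 * (ρ * Y) := by
    intro u hu
    refine (N1E.dR_le hc hc1 g1 hu).trans ?_
    gcongr
  obtain ⟨k1, k2⟩ := N1E.low_both hc g1 hS hS' hR hR'
  rw [e_Fr_eq hc g1]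
  have key : ∀ s t : ℝ, 0 ≤ s → 0 ≤ t → (1 + 6912 * Y / (c ^ 8 * m)) * s ≤ t →
      36 / c ^ 3 * (ρ * Y) * s ≤ c ^ 5 / 192 * m * ρ * t := by
    intro s t hs ht hst
    have e1 : 6912 * Y / (c ^ 8 * m) * s ≤ t := by nlinarith
    calc 36 / c ^ 3 * (ρ * Y) * s = c ^ 5 / 192 * m * ρ * (6912 * Y / (c ^ 8 * m) * s) := by
          field_simp
          ring
      _ ≤ c ^ 5 / 192 * m * ρ * t := mul_le_mul_of_nonneg_left e1 (by positivity)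
  constructor
  · intro h3
    have e1 := key _ _ (abs_nonneg _) (abs_nonneg _) h3
    refine le_trans ?_ k1
    calc c ^ 5 / 192 * m * ρ * |q.1.2.2| = c ^ 5 / 96 * (ρ * m) * |q.1.2.2| -
          c ^ 5 / 192 * m * ρ * |q.1.2.2| := by ring
      _ ≤ _ := by linarith
  · intro h3
    have e1 := key _ _ (abs_nonneg _) (abs_nonneg _) h3
    refine le_trans ?_ k2
    calc c ^ 5 / 192 * m * ρ * |q.2.2.2| = c ^ 5 / 96 * (ρ * m) * |q.2.2.2| -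
          c ^ 5 / 192 * m * ρ * |q.2.2.2| := by ring
      _ ≤ _ := by linarith

/-- basic facts in case (D) -/
theorem e_baseD {c : ℝ} (hc : 0 < c) {x0 y0 : ℝ × ℝ} (hx : x0 ∈ Kc c) (hy1 : y0.1 ≠ 0)
    (h1 : Nf 0 y0 x0 = 0) : ∃ l : ℝ, 0 < l ∧ ∀ ε : ℝ, 0 < ε →
    ∃ δ : ℝ, 0 < δ ∧ δ ≤ 1 ∧ ∀ ρ : ℝ, 0 < ρ → ρ < δ → ∀ q : V × V, Nb δ ρ x0 y0 q →
      In4 c q ∧ |q.1.1| ≤ ρ * (|y0.1| + 1) ∧ |q.2.1| ≤ ρ * (|y0.2| + 1) ∧
      ρ * (|y0.1| / 2) ≤ |q.1.1| ∧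
      (∀ u ∈ Icc (0:ℝ) 1, |NNu q u| ≤ ρ * ε) ∧ (∀ u ∈ Icc (0:ℝ) 1, ρ * l ≤ |dR q u|) ∧
      (NNu q 0 = ρ * Nx ρ q) ∧ (NNu q 1 = ρ * Nz ρ q) := by
  have h2 := Nf_ne c hc x0 y0 hx hy1 h1
  have hy : 0 < |y0.1| := abs_pos.2 hy1
  obtain ⟨m, hm⟩ : ∃ m : ℝ, m = |Nf 0 y0.swap x0.swap| / 2 := ⟨_, rfl⟩
  have hm0 : 0 < m := by
    rw [hm]
    positivity
  refine ⟨c ^ 5 / 96 * m, by positivity, fun ε hε => ?_⟩
  obtain ⟨δ1, d1, d1', H1⟩ := e_base hc (y0 := y0) hx hε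
  obtain ⟨δ2, d2, d2', H2⟩ := e_base hc (y0 := y0.swap) (e_Kc_swap hx) hm0
  refine ⟨min (min δ1 δ2) (|y0.1| / 2), by positivity,
    ((min_le_left _ _).trans (min_le_left _ _)).trans d1', fun ρ hρ hρδ q hq => ?_⟩
  have m1 : min (min δ1 δ2) (|y0.1| / 2) ≤ δ1 := (min_le_left _ _).trans (min_le_left _ _)
  have m2 : min (min δ1 δ2) (|y0.1| / 2) ≤ δ2 := (min_le_left _ _).trans (min_le_right _ _)
  obtain ⟨g1, g2, g3, g4, g5, g6⟩ := H1 ρ hρ (hρδ.trans_le m1) q (e_Nb_mono m1 hq)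
  obtain ⟨-, -, -, g4', -, -⟩ := H2 ρ hρ (hρδ.trans_le m2) q.swap
    (e_Nb_swap (e_Nb_mono m2 hq))
  refine ⟨g1, g2, g3, ?_, fun u hu => ?_, fun u hu => ?_, g5, g6⟩
  · have e1 : |q.1.1 / ρ - y0.1| ≤ |y0.1| / 2 := hq.1.trans (min_le_right _ _)
    have e2 := abs_sub_abs_le_abs_sub y0.1 (q.1.1 / ρ)
    rw [abs_sub_comm y0.1] at e2
    have e3 : |q.1.1 / ρ| = |q.1.1| / ρ := by rw [abs_div, abs_of_pos hρ]
    have e4 : |y0.1| / 2 ≤ |q.1.1| / ρ := by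
      rw [← e3]
      linarith
    rw [le_div_iff₀ hρ] at e4
    linarith
  · have := g4 u hu
    rwa [h1, mul_zero, sub_zero] at this
  · rw [e_dR_swap]
    have e0 : ρ * (c ^ 5 / 96 * m) = c ^ 5 / 96 * (ρ * m) := by ring
    rw [e0]
    refine e_dS_ge hc (e_In4_swap g1) hu (by positivity) ?_
    have e1 := g4' u hu
    have e2 := abs_sub_abs_le_abs_sub (ρ * Nf 0 y0.swap x0.swap) (NNu q.swap u)
    rw [abs_sub_comm (ρ * Nf 0 y0.swap x0.swap), abs_mul, abs_of_pos hρ] at e2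
    nlinarith

/-- R1. -/
theorem E_D1 (c : ℝ) (hc : 0 < c) (x0 y0 : ℝ × ℝ) (hx : x0 ∈ Kc c) (hy1 : y0.1 ≠ 0)
    (hy2 : y0.2 ≠ 0) (h1 : Nf 0 y0 x0 = 0) (θ : ℝ) (hθ : 0 < θ) :
    ∃ δ c1 : ℝ, 0 < δ ∧ 0 < c1 ∧ ∀ ρ : ℝ, 0 < ρ → ρ < δ → ∀ q : V × V, Nb δ ρ x0 y0 q →
    θ * |q.1.2.2| ≤ |q.2.2.2| → c1 * ρ * |q.2.2.2| ≤ |Fr c q.1 q.2| := by
  obtain ⟨l, hl, H⟩ := e_baseD hc hx hy1 h1
  obtain ⟨δ, d1, -, H⟩ := H (l * θ * c ^ 5 / 162) (by positivity)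
  refine ⟨δ, l / 2, d1, by positivity, fun ρ hρ hρδ q hq h2 => ?_⟩
  obtain ⟨g1, -, -, -, g5, g6, -, -⟩ := H ρ hρ hρδ q hq
  have k := N1E.low_R hc g1 g6 g5
  rw [e_Fr_eq hc g1]
  refine le_trans ?_ k
  have e1 : 81 / c ^ 5 * (ρ * (l * θ * c ^ 5 / 162)) * |q.1.2.2| = l / 2 * ρ * (θ * |q.1.2.2|) := by
    field_simp
    ring
  rw [e1]
  have e2 : l / 2 * ρ * (θ * |q.1.2.2|) ≤ l / 2 * ρ * |q.2.2.2| :=
    mul_le_mul_of_nonneg_left h2 (by positivity)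
  calc l / 2 * ρ * |q.2.2.2| = ρ * l * |q.2.2.2| - l / 2 * ρ * |q.2.2.2| := by ring
    _ ≤ _ := by linarith

/-- R0. -/
theorem E_D0 (c : ℝ) (hc : 0 < c) (x0 y0 : ℝ × ℝ) (hx : x0 ∈ Kc c) (hy1 : y0.1 ≠ 0)
    (hy2 : y0.2 ≠ 0) (h1 : Nf 0 y0 x0 = 0) :
    ∃ δ θ C5 : ℝ, 0 < δ ∧ 0 < θ ∧ 0 < C5 ∧ ∀ ρ : ℝ, 0 < ρ → ρ < δ → ∀ κ : ℝ, 0 < κ →
    ∀ q : V × V, Nb δ ρ x0 y0 q → |q.2.2.2| ≤ θ * |q.1.2.2| → |Nx ρ q| ≤ 2 * κ →
    |Nz ρ q| ≤ 2 * κ → |q.1.2.2| ≤ C5 * κ := by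
  obtain ⟨l, hl, H⟩ := e_baseD hc hx hy1 h1
  obtain ⟨δ, d1, -, H⟩ := H 1 zero_lt_one
  have hy : 0 < |y0.1| := abs_pos.2 hy1
  have hy' : 0 < |y0.2| + 1 := by positivity
  refine ⟨δ, c ^ 5 * |y0.1| / (256 * (|y0.2| + 1)), 16 / (c * |y0.1|), d1, by positivity,
    by positivity, fun ρ hρ hρδ κ hκ q hq h2 h3 h4 => ?_⟩
  obtain ⟨g1, g2, g3, g4, -, -, g7, g8⟩ := H ρ hρ hρδ q hq
  have hA : c / 4 * |y0.1| * ρ * |q.1.2.2| + 64 / c ^ 4 * (|q.2.1| * |q.2.2.2|) ≤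
      c * (|q.1.1| * |q.1.2.2|) := by
    have e1 : |q.2.1| * |q.2.2.2| ≤ ρ * (|y0.2| + 1) *
        (c ^ 5 * |y0.1| / (256 * (|y0.2| + 1)) * |q.1.2.2|) :=
      mul_le_mul g3 h2 (abs_nonneg _) (by positivity)
    have e2 : 64 / c ^ 4 * (|q.2.1| * |q.2.2.2|) ≤ c / 4 * |y0.1| * ρ * |q.1.2.2| := by
      calc _ ≤ 64 / c ^ 4 * (ρ * (|y0.2| + 1) *
          (c ^ 5 * |y0.1| / (256 * (|y0.2| + 1)) * |q.1.2.2|)) :=
            mul_le_mul_of_nonneg_left e1 (by positivity)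
        _ = _ := by
            field_simp
            ring
    have e3 : ρ * (|y0.1| / 2) * |q.1.2.2| ≤ |q.1.1| * |q.1.2.2| :=
      mul_le_mul_of_nonneg_right g4 (abs_nonneg _)
    nlinarith
  obtain ⟨s, hs, hmono⟩ := N1E.NN_mono hc g1 hA
  have e4 := hmono 0 ⟨le_rfl, zero_le_one⟩ 1 ⟨zero_le_one, le_rfl⟩ zero_le_one
  rw [g7, g8, sub_zero, mul_one] at e4
  have e5 : s * (ρ * Nz ρ q - ρ * Nx ρ q) ≤ 4 * κ * ρ := by
    obtain ⟨x1, x2⟩ := abs_le.1 h3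
    obtain ⟨x3, x4⟩ := abs_le.1 h4
    rcases hs with rfl | rfl <;> nlinarith
  have e6 : c / 4 * |y0.1| * |q.1.2.2| ≤ 4 * κ := by
    have : c / 4 * |y0.1| * |q.1.2.2| * ρ ≤ 4 * κ * ρ := by
      calc _ = c / 4 * |y0.1| * ρ * |q.1.2.2| := by ring
        _ ≤ _ := e4.trans e5
    exact le_of_mul_le_mul_right this hρ
  rw [div_mul_eq_mul_div, le_div_iff₀ (by positivity)]
  linarith

/-- R2a. -/
theorem E_D2a (c : ℝ) (hc : 0 < c) (x0 y0 : ℝ × ℝ) (hx : x0 ∈ Kc c) (hy1 : y0.1 ≠ 0)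
    (hy2 : y0.2 ≠ 0) (h1 : Nf 0 y0 x0 = 0) (C5 : ℝ) :
    ∃ δ c1 C4 : ℝ, 0 < δ ∧ 0 < c1 ∧ 0 < C4 ∧ ∀ ρ : ℝ, 0 < ρ → ρ < δ → ∀ κ : ℝ, 0 < κ → κ < δ →
    ∀ q : V × V, Nb δ ρ x0 y0 q → |Nx ρ q| ≤ 2 * κ → |q.1.2.2| ≤ C5 * κ →
    |q.2.2.2| ≤ |q.1.2.2| → C4 * κ * |q.1.2.2| ≤ |q.2.2.2| →
    c1 * ρ * |q.2.2.2| ≤ |Fr c q.1 q.2| := by
  obtain ⟨l, hl, H⟩ := e_baseD hc hx hy1 h1
  obtain ⟨δ, d1, -, H⟩ := H 1 zero_lt_one
  obtain ⟨M, hM⟩ : ∃ M : ℝ, M = 2 + (16 / c ^ 3 * (|y0.1| + 1) + 64 / c ^ 4 * (|y0.2| + 1)) *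
    |C5| := ⟨_, rfl⟩
  have hM0 : 0 < M := by
    rw [hM]
    positivity
  refine ⟨δ, l / 2, 162 * M / (c ^ 5 * l), d1, by positivity, by positivity,
    fun ρ hρ hρδ κ hκ _ q hq h2 h3 h4 h5 => ?_⟩
  obtain ⟨g1, g2, g3, g4, -, g6, g7, g8⟩ := H ρ hρ hρδ q hq
  have h3' : |q.1.2.2| ≤ |C5| * κ :=
    h3.trans (mul_le_mul_of_nonneg_right (le_abs_self _) hκ.le)
  have hN : ∀ u ∈ Icc (0:ℝ) 1, |NNu q u| ≤ ρ * κ * M := by
    intro u hu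
    have e1 := N1E.NN_lip hc g1 hu
    have e2 : |NNu q 0| ≤ ρ * (2 * κ) := by
      rw [g7, abs_mul, abs_of_pos hρ]
      exact mul_le_mul_of_nonneg_left h2 hρ.le
    have e3 : |q.1.1| * |q.1.2.2| ≤ ρ * (|y0.1| + 1) * (|C5| * κ) :=
      mul_le_mul g2 h3' (abs_nonneg _) (by positivity)
    have e4 : |q.2.1| * |q.2.2.2| ≤ ρ * (|y0.2| + 1) * (|C5| * κ) :=
      mul_le_mul g3 (h4.trans h3') (abs_nonneg _) (by positivity)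
    have e5 := abs_sub_abs_le_abs_sub (NNu q u) (NNu q 0)
    have e6 : 16 / c ^ 3 * (|q.1.1| * |q.1.2.2|) ≤ 16 / c ^ 3 * (ρ * (|y0.1| + 1) * (|C5| * κ)) :=
      mul_le_mul_of_nonneg_left e3 (by positivity)
    have e7 : 64 / c ^ 4 * (|q.2.1| * |q.2.2.2|) ≤ 64 / c ^ 4 * (ρ * (|y0.2| + 1) * (|C5| * κ)) :=
      mul_le_mul_of_nonneg_left e4 (by positivity)
    calc |NNu q u| ≤ ρ * (2 * κ) + (16 / c ^ 3 * (ρ * (|y0.1| + 1) * (|C5| * κ)) +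
          64 / c ^ 4 * (ρ * (|y0.2| + 1) * (|C5| * κ))) := by linarith
      _ = ρ * κ * M := by
          rw [hM]
          ring
  have k := N1E.low_R hc g1 g6 hN
  rw [e_Fr_eq hc g1]
  refine le_trans ?_ k
  have e1 : 81 / c ^ 5 * (ρ * κ * M) * |q.1.2.2| =
      l / 2 * ρ * (162 * M / (c ^ 5 * l) * κ * |q.1.2.2|) := by
    field_simp
    ring
  rw [e1]
  have e2 : l / 2 * ρ * (162 * M / (c ^ 5 * l) * κ * |q.1.2.2|) ≤ l / 2 * ρ * |q.2.2.2| :=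
    mul_le_mul_of_nonneg_left h5 (by positivity)
  calc l / 2 * ρ * |q.2.2.2| = ρ * l * |q.2.2.2| - l / 2 * ρ * |q.2.2.2| := by ring
    _ ≤ _ := by linarith

/-- R2b. -/
theorem E_D2b (c : ℝ) (hc : 0 < c) (x0 y0 : ℝ × ℝ) (hx : x0 ∈ Kc c) (hy1 : y0.1 ≠ 0)
    (hy2 : y0.2 ≠ 0) (h1 : Nf 0 y0 x0 = 0) :
    ∃ δ c1 C4 : ℝ, 0 < δ ∧ 0 < c1 ∧ 0 < C4 ∧ ∀ ρ : ℝ, 0 < ρ → ρ < δ → ∀ κ : ℝ, 0 < κ → κ < δ →
    ∀ q : V × V, Nb δ ρ x0 y0 q →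
    ((κ / 2 ≤ Nx ρ q ∧ κ / 2 ≤ Nz ρ q) ∨ (Nx ρ q ≤ -(κ / 2) ∧ Nz ρ q ≤ -(κ / 2))) →
    C4 * |q.2.2.2| ≤ κ * |q.1.2.2| → c1 * ρ * κ * |q.1.2.2| ≤ |Fr c q.1 q.2| := by
  have hc1 := e_Kc hc hx
  obtain ⟨l, hl, H⟩ := e_baseD hc hx hy1 h1
  obtain ⟨δ, d1, -, H⟩ := H 1 zero_lt_one
  have hy : 0 < |y0.1| := abs_pos.2 hy1
  have hy' : 0 < |y0.2| + 1 := by positivity
  obtain ⟨Y, hY⟩ : ∃ Y : ℝ, Y = |y0.1| + |y0.2| + 2 := ⟨_, rfl⟩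
  have hY2 : 2 ≤ Y := by
    have := abs_nonneg y0.2
    linarith
  obtain ⟨θ, hθ⟩ : ∃ θ : ℝ, θ = c ^ 5 * |y0.1| / (128 * (|y0.2| + 1)) := ⟨_, rfl⟩
  have hθ0 : 0 < θ := by
    rw [hθ]
    positivity
  refine ⟨min δ θ, c ^ 5 / 384, 1 + 13824 * Y / c ^ 8, lt_min d1 hθ0, by positivity,
    by positivity, fun ρ hρ hρδ κ hκ hκδ q hq h2 h3 => ?_⟩
  obtain ⟨g1, g2, g3, g4, -, g6, g7, g8⟩ := H ρ hρ (hρδ.trans_le (min_le_left _ _)) q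
    (e_Nb_mono (min_le_left _ _) hq)
  have a1 := abs_nonneg q.1.2.2
  have a2 := abs_nonneg q.2.2.2
  have h4 : |q.2.2.2| ≤ θ * |q.1.2.2| := by
    have e1 : |q.2.2.2| ≤ κ * |q.1.2.2| := by
      refine le_trans ?_ h3
      have : 0 ≤ 13824 * Y / c ^ 8 := by positivity
      nlinarith
    refine e1.trans (mul_le_mul_of_nonneg_right ?_ a1)
    exact hκδ.le.trans (min_le_right _ _)
  have hA : 0 + 64 / c ^ 4 * (|q.2.1| * |q.2.2.2|) ≤ c * (|q.1.1| * |q.1.2.2|) := by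
    have e1 : |q.2.1| * |q.2.2.2| ≤ ρ * (|y0.2| + 1) * (θ * |q.1.2.2|) :=
      mul_le_mul g3 h4 (abs_nonneg _) (by positivity)
    have e2 : 64 / c ^ 4 * (|q.2.1| * |q.2.2.2|) ≤ c / 2 * |y0.1| * ρ * |q.1.2.2| := by
      calc _ ≤ 64 / c ^ 4 * (ρ * (|y0.2| + 1) * (θ * |q.1.2.2|)) :=
            mul_le_mul_of_nonneg_left e1 (by positivity)
        _ = _ := by
            rw [hθ]
            field_simp
            ring
    have e3 : ρ * (|y0.1| / 2) * |q.1.2.2| ≤ |q.1.1| * |q.1.2.2| :=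
      mul_le_mul_of_nonneg_right g4 (abs_nonneg _)
    nlinarith
  obtain ⟨s, hs, hmono⟩ := N1E.NN_mono hc g1 hA
  have i0 : (0:ℝ) ∈ Icc (0:ℝ) 1 := ⟨le_rfl, zero_le_one⟩
  have i1 : (1:ℝ) ∈ Icc (0:ℝ) 1 := ⟨zero_le_one, le_rfl⟩
  have hN : ∀ u ∈ Icc (0:ℝ) 1, ρ * (κ / 2) ≤ |NNu q u| := by
    intro u hu
    have e1 := hmono 0 i0 u hu hu.1
    have e2 := hmono u hu 1 i1 hu.2
    rw [g7, zero_mul] at e1
    rw [g8, zero_mul] at e2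
    rcases h2 with ⟨h5, h6⟩ | ⟨h5, h6⟩
    · have h5' := mul_le_mul_of_nonneg_left h5 hρ.le
      have h6' := mul_le_mul_of_nonneg_left h6 hρ.le
      refine le_trans ?_ (le_abs_self _)
      rcases hs with rfl | rfl <;> linarith
    · have h5' := mul_le_mul_of_nonneg_left h5 hρ.le
      have h6' := mul_le_mul_of_nonneg_left h6 hρ.le
      refine le_trans ?_ (neg_le_abs _)
      rcases hs with rfl | rfl <;> linarith
  have k := N1E.low_S hc hc1 g1 (by positivity) hN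
  rw [e_Fr_eq hc g1]
  refine le_trans ?_ k
  have e1 : |q.1.1| + |q.2.1| ≤ ρ * Y := by
    rw [hY]
    linarith
  have e2 : 36 / c ^ 3 * (|q.1.1| + |q.2.1|) * |q.2.2.2| ≤ 36 / c ^ 3 * (ρ * Y) * |q.2.2.2| := by
    gcongr
  have e3 : 13824 * Y / c ^ 8 * |q.2.2.2| ≤ κ * |q.1.2.2| := by nlinarith
  have e4 : 36 / c ^ 3 * (ρ * Y) * |q.2.2.2| ≤ c ^ 5 / 384 * ρ * (κ * |q.1.2.2|) := by
    calc 36 / c ^ 3 * (ρ * Y) * |q.2.2.2| =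
        c ^ 5 / 384 * ρ * (13824 * Y / c ^ 8 * |q.2.2.2|) := by
          field_simp
          ring
      _ ≤ _ := mul_le_mul_of_nonneg_left e3 (by positivity)
  calc c ^ 5 / 384 * ρ * κ * |q.1.2.2| = c ^ 5 / 96 * (ρ * (κ / 2)) * |q.1.2.2| -
        c ^ 5 / 384 * ρ * (κ * |q.1.2.2|) := by ring
    _ ≤ _ := by linarith

end Pool.Agent.SDT.N1

end -- N1.Ea

section -- N1.MD0

/-!
N1, block M1: the dyadic decomposition in `z`, second form.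
-/

namespace Pool.Agent.SDT.N1.MD

open MeasureTheory Set Metric Pool.Agent.SDT.MP_6cbfb8_an Pool.Agent.SDT.MST
open scoped ENNReal Real ContDiff

/-- Restriction to a dyadic rectangle of inner differences. -/
noncomputable def rec (γ d : ℝ) (M : V × V → ℂ) (q : V × V) : ℂ :=
  if γ / 2 < |q.1.2.2| ∧ |q.1.2.2| ≤ γ ∧ d / 2 < |q.2.2.2| ∧ |q.2.2.2| ≤ d then M q else 0

theorem zix_eq (K j : ℕ) (hj : j ≤ K) (t : ℝ) (h1 : |t| ≤ (1 / 2) ^ j)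
    (h2 : (1 / 2) ^ (j + 1) < |t|) : zix K t = j := by
  classical
  unfold zix
  rw [Nat.findGreatest_eq_iff]
  refine ⟨hj, fun _ => h1, fun n hn _ h3 => ?_⟩
  have h4 : ((1 : ℝ) / 2) ^ n ≤ (1 / 2) ^ (j + 1) :=
    pow_le_pow_of_le_one (by norm_num) (by norm_num) hn
  linarith

theorem zc_eq_rec (K j k : ℕ) (hj : j < K) (hk : k < K) (M : V × V → ℂ)
    (hM : ∀ q, M q ≠ 0 → |q.1.2.2| ≤ 1 ∧ |q.2.2.2| ≤ 1) :
    zc K j k M = rec ((1 / 2) ^ j) ((1 / 2) ^ k) M := by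
  funext q
  by_cases hq : M q = 0
  · unfold zc rec
    rw [hq]
    split_ifs <;> rfl
  · have hhalf : ∀ n : ℕ, ((1 : ℝ) / 2) ^ n / 2 = (1 / 2) ^ (n + 1) := fun n => by
      rw [pow_succ]
      ring
    obtain ⟨h1, h2⟩ := hM q hq
    by_cases hz : zix K q.1.2.2 = j ∧ zix K q.2.2.2 = k
    · have h3 : zc K j k M q = M q := by
        unfold zc
        rw [if_pos hz]
      obtain ⟨_, e1, e2, e3, e4⟩ := zc_rect (K := K) (j := j) (k := k) (M := M) (q := q)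
        (by rw [h3]; exact hq) h1 h2
      rw [h3]
      unfold rec
      rw [if_pos]
      rw [hhalf, hhalf]
      exact ⟨e3 hj, e1, e4 hk, e2⟩
    · unfold zc rec
      rw [if_neg hz, if_neg]
      rintro ⟨e1, e2, e3, e4⟩
      rw [hhalf] at e1 e3
      exact hz ⟨zix_eq K j hj.le _ e2 e1, zix_eq K k hk.le _ e4 e3⟩

theorem z_split (c : ℝ) (hc : 0 < c) : ∃ C : ℝ, 0 ≤ C ∧ ∀ T : ℝ, 1 ≤ T → ∀ ρ : ℝ, 0 < ρ →
    ρ ≤ 1 → ∀ (x0 y0 : ℝ × ℝ) (M : V × V → ℂ), Measurable M → (∀ q, ‖M q‖ ≤ 1) →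
    (∀ q, M q ≠ 0 → Nb 1 ρ x0 y0 q) → ∀ Q : ℝ, 0 ≤ Q →
    (∀ γ d : ℝ, 0 < γ → γ ≤ 1 → 0 < d → d ≤ 1 → ‖FF c T (rec γ d M)‖ ≤ Q) →
    ‖FF c T M‖ ≤ C * (1 + Real.log T) ^ 2 * (Q + 1 / T) := by
  obtain ⟨C0, hC0, h0⟩ := FF_abs0 c hc
  refine ⟨25 * (1 + C0 * 64), by positivity,
    fun T hT ρ hρ hρ1 x0 y0 M hM hM1 hMs Q hQ hr => ?_⟩
  have hT0 : 0 < T := by linarith
  obtain ⟨K, hK1, hK2⟩ := dy_num T hT
  have hz : ∀ q, M q ≠ 0 → |q.1.2.2| ≤ 1 ∧ |q.2.2.2| ≤ 1 := fun q hq => by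
    obtain ⟨_, _, _, _, e5, e6⟩ := hMs q hq
    exact ⟨e5, e6⟩
  have hlog : 0 ≤ Real.log T := Real.log_nonneg hT
  have key : ∀ j ≤ K, ∀ k ≤ K, ‖FF c T (zc K j k M)‖ ≤ (1 + C0 * 64) * (Q + 1 / T) := by
    intro j hj k hk
    have hTinv : 0 ≤ 1 / T := by positivity
    have hbig : C0 * 64 / T ≤ (1 + C0 * 64) * (Q + 1 / T) := by
      have e1 : C0 * 64 / T = C0 * 64 * (1 / T) := by ring
      rw [e1]
      have e2 : 0 ≤ C0 * 64 * Q := by positivity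
      nlinarith
    rcases lt_or_ge j K with hj' | hj'
    · rcases lt_or_ge k K with hk' | hk'
      · rw [zc_eq_rec K j k hj' hk' M hz]
        refine (hr _ _ (by positivity) (pow_le_one₀ (by norm_num) (by norm_num)) (by positivity)
          (pow_le_one₀ (by norm_num) (by norm_num))).trans ?_
        have e2 : 0 ≤ C0 * 64 * Q := by positivity
        have e3 : 0 ≤ C0 * 64 * (1 / T) := by positivity
        nlinarith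
      · refine le_trans ?_ hbig
        refine h0 T hT0 (zc K j k M) {q | Nb 1 ρ x0 y0 q ∧ |q.1.2.2| ≤ 1 ∧
          |q.2.2.2| ≤ (1 / 2) ^ K} (64 * ρ ^ 2 * 1 * (1 / 2) ^ K) 64 (zc_meas K j k M hM)
          (fun q => zc_norm K j k M 1 zero_le_one hM1 q) (fun q hq _ => ?_) (by positivity)
          (vol_box x0 y0 1 ρ 1 _ zero_le_one le_rfl hρ zero_le_one (by positivity)) ?_
        · have e1 := (zc_ne hq).2.2
          obtain ⟨_, e2, e3, _, _⟩ := zc_rect hq (hz q e1).1 (hz q e1).2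
          have : k = K := le_antisymm hk hk'
          subst this
          exact ⟨hMs q e1, (hz q e1).1, e3⟩
        · rw [mul_one]
          calc 64 * ρ ^ 2 * (1 / 2) ^ K ≤ 64 * 1 ^ 2 * (1 / T ^ 2) := by gcongr
            _ = 64 / T ^ 2 := by ring
    · refine le_trans ?_ hbig
      refine h0 T hT0 (zc K j k M) {q | Nb 1 ρ x0 y0 q ∧ |q.1.2.2| ≤ (1 / 2) ^ K ∧
        |q.2.2.2| ≤ 1} (64 * ρ ^ 2 * (1 / 2) ^ K * 1) 64 (zc_meas K j k M hM)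
        (fun q => zc_norm K j k M 1 zero_le_one hM1 q) (fun q hq _ => ?_) (by positivity)
        (vol_box x0 y0 1 ρ _ 1 zero_le_one le_rfl hρ (by positivity) zero_le_one) ?_
      · have e1 := (zc_ne hq).2.2
        obtain ⟨_, e2, e3, _, _⟩ := zc_rect hq (hz q e1).1 (hz q e1).2
        have : j = K := le_antisymm hj hj'
        subst this
        exact ⟨hMs q e1, e2, (hz q e1).2⟩
      · rw [mul_one]
        calc 64 * ρ ^ 2 * (1 / 2) ^ K ≤ 64 * 1 ^ 2 * (1 / T ^ 2) := by gcongr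
          _ = 64 / T ^ 2 := by ring
  have h1 := FF_dy c hc T hT0 M hM 1 hM1 K _ key
  refine h1.trans ?_
  have h2 : ((K : ℝ) + 1) ^ 2 ≤ (5 * (1 + Real.log T)) ^ 2 := by gcongr
  calc ((K : ℝ) + 1) ^ 2 * ((1 + C0 * 64) * (Q + 1 / T)) ≤
        (5 * (1 + Real.log T)) ^ 2 * ((1 + C0 * 64) * (Q + 1 / T)) := by gcongr
    _ = 25 * (1 + C0 * 64) * (1 + Real.log T) ^ 2 * (Q + 1 / T) := by ring

end Pool.Agent.SDT.N1.MD

end -- N1.MD0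

section -- N1F.P1e

/-!
N1F, Proposition I: the normal form and the derivatives at the base points.
-/

namespace Pool.Agent.SDT.N1F

open MeasureTheory Set Metric Pool.Agent.SDT.MP_6cbfb8_an Pool.Agent.SDT.MST Pool.Agent.SDT.N1
open scoped ENNReal Real ContDiff Topology

theorem nfI (c : ℝ) (hc : 0 < c) (p0 : P7) (a0 b0 : V) (hok : okI c (p0, a0, b0)) :
    ∃ r : ℝ, 0 < r ∧ ∃ g : P7 × V × V → ℝ, ContDiffOn ℝ ∞ g (ball (p0, a0, b0) r) ∧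
      (∀ x ∈ ball (p0, a0, b0) r, okI c x) ∧
      (∀ x ∈ ball (p0, a0, b0) r, ∀ κ₂ : ℝ, x.1 0 * x.1 1 = x.1 6 * κ₂ →
        P11 c x + P22 c x + x.1 6 * P12 c x + κ₂ * P21 c x =
          -(UI c x * (omI c (prA x) - sgI c (prB x) + x.1 6 * (alI c (prA x) * beI c (prB x)) +
            κ₂ * g x))) ∧
      (∀ x ∈ ball (p0, a0, b0) r, x.1 2 = 0 → x.1 3 = 0 → x.1 4 = 0 → x.1 5 = 0 →
        g x = f2 (x.1 0) x.2.1 * f1 (x.1 1) x.2.2) := by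
  obtain ⟨r0, hr0, hball⟩ := Metric.eventually_nhds_iff_ball.1 (okI_ev c _ hok)
  obtain ⟨r, hr, hrr, k, hk, hRk, hz⟩ := had_two (RI c) (p0, a0, b0) r0 hr0
    (fun x hx => (RI_cd c hc x (hball x hx)).contDiffWithinAt)
    (fun x hx h => RI_A c hc x (hball x hx) h) (fun x hx h => RI_B c hc x (hball x hx) h)
  have hb : ∀ x ∈ ball (p0, a0, b0) r, okI c x := fun x hx => hball x (ball_subset_ball hrr hx)
  refine ⟨r, hr, fun x => -(P21 c x + x.1 6 * k x) / UI c x, ?_, hb, ?_, ?_⟩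
  · intro x hx
    have h1 := UI_pos c hc x (hb x hx)
    exact (((P21_cd c hc x (hb x hx)).contDiffWithinAt.add
      ((pi_cd 6).contDiffAt.contDiffWithinAt.mul (hk x hx))).neg).div
      (UI_cd c hc x (hb x hx)).contDiffWithinAt h1.ne'
  · intro x hx κ₂ hκ
    have h1 := UI_pos c hc x (hb x hx)
    have h2 := hRk x hx
    have h1' := h1.ne'
    unfold RI at h2
    have h3 : UI c x * (κ₂ * (-(P21 c x + x.1 6 * k x) / UI c x)) =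
        -(κ₂ * P21 c x + x.1 6 * κ₂ * k x) := by
      field_simp
    rw [mul_add, h3, ← hκ]
    linarith
  · intro x hx g2 g3 g4 g5
    have h1 := (UI_pos c hc x (hb x hx)).ne'
    have h2 := hz (fun y hy e2 e3 e4 e5 => (base_nf c hc y (hball y hy) e2 e3 e4 e5).1) x hx
      g2 g3 g4 g5
    have h3 := (base_nf c hc x (hb x hx) g2 g3 g4 g5).2
    simp only
    rw [h2, h3, mul_zero, add_zero, neg_neg]
    field_simp

/-! ### derivatives of the base functions -/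

lemma f0_diff (A : ℝ) (a : V) (h : 1 - A * a.2.1 ^ 2 ≠ 0) : DifferentiableAt ℝ (f0 A) a := by
  unfold f0
  fun_prop (disch := exact h)

lemma f1_diff (A : ℝ) (a : V) (h : 1 - A * a.2.1 ^ 2 ≠ 0) : DifferentiableAt ℝ (f1 A) a := by
  unfold f1
  fun_prop (disch := exact h)

lemma f2_diff (A : ℝ) (a : V) (h : 1 - A * a.2.1 ^ 2 ≠ 0) : DifferentiableAt ℝ (f2 A) a := by
  unfold f2
  fun_prop (disch := exact h)

lemma f0_fd (A : ℝ) (a u : V) (h : 1 - A * a.2.1 ^ 2 ≠ 0) : fderiv ℝ (f0 A) a u =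
    ((u.1 * a.2.2 + a.1 * u.2.2) * (1 - A * a.2.1 ^ 2) + a.1 * a.2.2 * (2 * A * a.2.1 * u.2.1)) /
      (1 - A * a.2.1 ^ 2) ^ 2 := by
  refine fd_of _ _ _ _ (f0_diff A a h) ?_
  have h := ((g_lin a.1 u.1).fun_mul (g_lin a.2.2 u.2.2)).fun_div
    ((((g_lin a.2.1 u.2.1).fun_pow 2).const_mul A).const_sub 1) (by simpa using h)
  refine HasDerivAt.congr_deriv h ?_
  simp
  ring

lemma f1_fd (A : ℝ) (a u : V) (h : 1 - A * a.2.1 ^ 2 ≠ 0) : fderiv ℝ (f1 A) a u =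
    ((u.2.1 * a.1 + a.2.1 * u.1) * (1 - A * a.2.1 ^ 2) + a.2.1 * a.1 * (2 * A * a.2.1 * u.2.1)) /
      (1 - A * a.2.1 ^ 2) ^ 2 := by
  refine fd_of _ _ _ _ (f1_diff A a h) ?_
  have h := ((g_lin a.2.1 u.2.1).fun_mul (g_lin a.1 u.1)).fun_div
    ((((g_lin a.2.1 u.2.1).fun_pow 2).const_mul A).const_sub 1) (by simpa using h)
  refine HasDerivAt.congr_deriv h ?_
  simp
  ring

lemma f2_fd (A : ℝ) (a u : V) (h : 1 - A * a.2.1 ^ 2 ≠ 0) : fderiv ℝ (f2 A) a u =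
    ((u.2.1 * a.2.2 + a.2.1 * u.2.2) * (1 - A * a.2.1 ^ 2) +
      a.2.1 * a.2.2 * (2 * A * a.2.1 * u.2.1)) / (1 - A * a.2.1 ^ 2) ^ 2 := by
  refine fd_of _ _ _ _ (f2_diff A a h) ?_
  have h := ((g_lin a.2.1 u.2.1).fun_mul (g_lin a.2.2 u.2.2)).fun_div
    ((((g_lin a.2.1 u.2.1).fun_pow 2).const_mul A).const_sub 1) (by simpa using h)
  refine HasDerivAt.congr_deriv h ?_
  simp
  ring

/-- Directions. -/
noncomputable def dU2 (a : V) : V := (a.1, 0, -a.2.2)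
/-- kernel of `f0`, `f1` -/
noncomputable def dU3 (A : ℝ) (a : V) : V :=
  (-(a.1 * (1 + A * a.2.1 ^ 2)), a.2.1 * (1 - A * a.2.1 ^ 2), a.2.2 * (1 - A * a.2.1 ^ 2))
/-- kernel of `f0`, `f2` -/
noncomputable def dE3 (A : ℝ) (a : V) : V :=
  (a.1 * (1 - A * a.2.1 ^ 2), a.2.1 * (1 - A * a.2.1 ^ 2), -(a.2.2 * (1 + A * a.2.1 ^ 2)))

section dirs

variable (A : ℝ) (a : V) (h : 1 - A * a.2.1 ^ 2 ≠ 0)
include h

lemma f0_e1 : fderiv ℝ (f0 A) a (1, 0, 0) = a.2.2 / (1 - A * a.2.1 ^ 2) := by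
  rw [f0_fd A a _ h]
  simp only [one_mul, mul_zero, add_zero]
  field_simp

lemma f0_U2 : fderiv ℝ (f0 A) a (dU2 a) = 0 := by
  rw [f0_fd A a _ h]
  unfold dU2
  simp only [mul_zero, add_zero]
  rw [div_eq_zero_iff]
  left
  ring

lemma f1_U2 : fderiv ℝ (f1 A) a (dU2 a) = a.2.1 * a.1 / (1 - A * a.2.1 ^ 2) := by
  rw [f1_fd A a _ h]
  unfold dU2
  simp only [zero_mul, mul_zero, add_zero, zero_add]
  field_simp

lemma f2_U2 : fderiv ℝ (f2 A) a (dU2 a) = -(a.2.1 * a.2.2 / (1 - A * a.2.1 ^ 2)) := by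
  rw [f2_fd A a _ h]
  unfold dU2
  simp only [zero_mul, mul_zero, add_zero, zero_add]
  field_simp

lemma f0_U3 : fderiv ℝ (f0 A) a (dU3 A a) = 0 := by
  rw [f0_fd A a _ h]
  unfold dU3
  simp only
  rw [div_eq_zero_iff]
  left
  ring

lemma f1_U3 : fderiv ℝ (f1 A) a (dU3 A a) = 0 := by
  rw [f1_fd A a _ h]
  unfold dU3
  simp only
  rw [div_eq_zero_iff]
  left
  ring

lemma f2_U3 : fderiv ℝ (f2 A) a (dU3 A a) = 2 * (a.2.1 * a.2.2) / (1 - A * a.2.1 ^ 2) := by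
  rw [f2_fd A a _ h]
  unfold dU3
  simp only
  rw [div_eq_div_iff (pow_ne_zero 2 h) h]
  ring

lemma f0_E3 : fderiv ℝ (f0 A) a (dE3 A a) = 0 := by
  rw [f0_fd A a _ h]
  unfold dE3
  simp only
  rw [div_eq_zero_iff]
  left
  ring

lemma f2_E3 : fderiv ℝ (f2 A) a (dE3 A a) = 0 := by
  rw [f2_fd A a _ h]
  unfold dE3
  simp only
  rw [div_eq_zero_iff]
  left
  ring

lemma f1_E3 : fderiv ℝ (f1 A) a (dE3 A a) = 2 * (a.2.1 * a.1) / (1 - A * a.2.1 ^ 2) := by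
  rw [f1_fd A a _ h]
  unfold dE3
  simp only
  rw [div_eq_div_iff (pow_ne_zero 2 h) h]
  ring

end dirs

/-- The three gradients are independent. -/
lemma f_indep (A : ℝ) (a u : V) (h : 1 - A * a.2.1 ^ 2 ≠ 0)
    (h1 : a.1 ≠ 0) (h2 : a.2.1 ≠ 0) (h3 : a.2.2 ≠ 0)
    (k0 : fderiv ℝ (f0 A) a u = 0) (k1 : fderiv ℝ (f1 A) a u = 0) (k2 : fderiv ℝ (f2 A) a u = 0) :
    u = 0 := by
  rw [f0_fd A a u h, div_eq_zero_iff] at k0
  rw [f1_fd A a u h, div_eq_zero_iff] at k1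
  rw [f2_fd A a u h, div_eq_zero_iff] at k2
  have e0 := k0.resolve_right (pow_ne_zero 2 h)
  have e1 := k1.resolve_right (pow_ne_zero 2 h)
  have e2 := k2.resolve_right (pow_ne_zero 2 h)
  -- in log coordinates v_i = u_i / a_i : v1 + v3 + e v2 = 0, v1 + (1 + e) v2 = 0, (1 + e) v2 + v3 = 0
  have k3 : a.1 * a.2.2 * u.2.1 * 2 = 0 := by
    linear_combination a.2.2 * e1 + a.1 * e2 - a.2.1 * e0
  have k4 : u.2.1 = 0 := by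
    have h5 : a.1 * a.2.2 ≠ 0 := mul_ne_zero h1 h3
    rcases mul_eq_zero.1 k3 with k | k
    · exact (mul_eq_zero.1 k).resolve_left h5
    · norm_num at k
  rw [k4] at e1 e2
  have k5 : u.1 = 0 := by
    have : a.2.1 * (1 - A * a.2.1 ^ 2) * u.1 = 0 := by linear_combination e1
    exact (mul_eq_zero.1 this).resolve_left (mul_ne_zero h2 h)
  have k6 : u.2.2 = 0 := by
    have : a.2.1 * (1 - A * a.2.1 ^ 2) * u.2.2 = 0 := by linear_combination e2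
    exact (mul_eq_zero.1 this).resolve_left (mul_ne_zero h2 h)
  exact Prod.ext k5 (Prod.ext k4 k6)

end Pool.Agent.SDT.N1F

end -- N1F.P1e
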