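import Pool.Agent.SDT.B24
import Pool.Agent.SDT.B30
import Pool.Agent.SDT.B31
import Pool.Agent.SDT.B32
import Pool.Agent.SDT.B33
import Pool.Agent.SDT.B38

set_option autoImplicit false

namespace Pool.Agent.SDT.MP_6cbfb8_an
end Pool.Agent.SDT.MP_6cbfb8_an
namespace Pool.Agent.SDT.MST
end Pool.Agent.SDT.MST
namespace Pool.Agent.SDT.N1
end Pool.Agent.SDT.N1
namespace Pool.Agent.SDT.N1F
end Pool.Agent.SDT.N1F
namespace Pool.Agent.SDT.N1G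
end Pool.Agent.SDT.N1G

section -- FN.S2

/-!
FN, soft part: the `L⁴` estimate on strips.
-/

namespace Pool.Agent.SDT.FN

open MeasureTheory Set Metric Pool.Agent.SDT.MP_6cbfb8_an Pool.Agent.SDT.MST Pool.Agent.SDT.N1
open scoped ENNReal Real

/-- The planar integral. -/
noncomputable def Pl (c : ℝ) (G : ℝ → ℂ) (a t y : ℝ) : ℂ :=
  ∫ b : ℝ, G b * Al c a 1 t b * ex (b * y)

theorem Pl_meas (c : ℝ) (hc : 0 < c) (G : ℝ → ℂ) (hG : Measurable G) :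
    Measurable fun q : ℝ × ℝ × ℝ => Pl c G q.1 q.2.1 q.2.2 := by
  have m1 : Measurable fun q : (ℝ × ℝ × ℝ) × ℝ =>
      G q.2 * Al c q.1.1 1 q.1.2.1 q.2 * ex (q.2 * q.1.2.2) := by
    have n1 : Measurable fun q : (ℝ × ℝ × ℝ) × ℝ => Al c q.1.1 1 q.1.2.1 q.2 :=
      (Al_meas c hc 1).comp (f := fun q : (ℝ × ℝ × ℝ) × ℝ => (q.1.1, q.1.2.1, q.2)) (by fun_prop)
    exact ((hG.comp measurable_snd).mul n1).mul (f1_ex_cont.measurable.comp (by fun_prop))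
  exact (m1.stronglyMeasurable.integral_prod_right' (ν := (volume : Measure ℝ))).measurable

theorem Pl_norm (c : ℝ) (hc : 0 < c) (G : ℝ → ℂ) (hb : ∀ b, ‖G b‖ ≤ 1) (a t y : ℝ) :
    ‖Pl c G a t y‖ ≤ 4 / c := by
  have hint : Integrable ((Icc (-1:ℝ) 1).indicator (fun _ => 2 / c)) :=
    (integrable_indicator_iff measurableSet_Icc).2
      (integrableOn_const (by rw [Real.volume_Icc]; exact ENNReal.ofReal_ne_top))
  unfold Pl
  refine (norm_integral_le_of_norm_le hint (Filter.Eventually.of_forall fun b => ?_)).trans ?_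
  · rw [norm_mul, norm_mul, ho2_ex, mul_one]
    by_cases h : wf c a b = 0
    · have : Al c a 1 t b = 0 := by unfold Al; rw [h]; simp
      rw [this, norm_zero, mul_zero]
      exact indicator_nonneg (fun _ _ => by positivity) b
    · have hmem : b ∈ Icc (-1:ℝ) 1 := abs_le.1 (wf_ne c hc a b h).2.2.2
      rw [indicator_of_mem hmem]
      calc ‖G b‖ * ‖Al c a 1 t b‖ ≤ 1 * (2 / c) :=
            mul_le_mul (hb b) (Al_norm c hc a 1 t b) (norm_nonneg _) zero_le_one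
        _ = 2 / c := one_mul _
  · rw [integral_indicator measurableSet_Icc, setIntegral_const, smul_eq_mul, Measure.real,
      Real.volume_Icc, ENNReal.toReal_ofReal (by norm_num)]
    apply le_of_eq
    ring

theorem Eo_iter (c : ℝ) (hc : 0 < c) (G₁ G₂ : ℝ → ℂ) (h1 : Measurable G₁) (h2 : Measurable G₂)
    (b1 : ∀ a, ‖G₁ a‖ ≤ 1) (b2 : ∀ a, ‖G₂ a‖ ≤ 1) (t : ℝ) (ξ : ℝ × ℝ) :
    Eo c G₁ G₂ t ξ = ∫ a : ℝ, (G₁ a * Pl c G₂ a t ξ.2) * ex (a * ξ.1) := by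
  have hi := Ei_int c hc G₁ G₂ h1 h2 b1 b2 t ξ
  have h3 : Eo c G₁ G₂ t ξ = ∫ x : ℝ × ℝ, Ei c G₁ G₂ t ξ x := rfl
  rw [h3, Measure.volume_eq_prod, integral_prod _ hi]
  refine integral_congr_ae (Filter.Eventually.of_forall fun a => ?_)
  unfold Pl Ei Al
  simp only
  rw [← integral_const_mul, ← integral_mul_const]
  refine integral_congr_ae (Filter.Eventually.of_forall fun b => ?_)
  simp only
  rw [hlf_ex_add, one_mul]
  ring

theorem strip_L4 (c : ℝ) (hc : 0 < c) : ∃ C : ℝ, 0 ≤ C ∧ ∀ T : ℝ, 1 ≤ T → ∀ δ : ℝ, 0 < δ →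
    ∀ G₁ G₂ : ℝ → ℂ, Measurable G₁ → Measurable G₂ → (∀ a, ‖G₁ a‖ ≤ 1) → (∀ b, ‖G₂ b‖ ≤ 1) →
    (∀ a, G₁ a ≠ 0 → |a| ≤ δ) → S4 c G₁ G₂ T ≤ ENNReal.ofReal (C * (1 + Real.log T) * δ ^ 3) := by
  obtain ⟨C, hC, H⟩ := planar4 c hc
  refine ⟨128 * C, by positivity, ?_⟩
  intro T hT δ hδ G₁ G₂ h1 h2 b1 b2 s1
  have hlog := Real.log_nonneg hT
  have hPm := Pl_meas c hc G₂ h2
  have hh : Measurable fun q : ℝ × ℝ × ℝ => ‖Pl c G₂ q.1 q.2.1 q.2.2‖ₑ ^ (4:ℝ) :=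
    hPm.enorm.pow_const _
  have hfix : ∀ t y : ℝ, Measurable fun a : ℝ => G₁ a * Pl c G₂ a t y := fun t y =>
    h1.mul (hPm.comp (f := fun a : ℝ => (a, t, y)) (by fun_prop))
  have hin : ∀ t : ℝ, ∫⁻ ξ : ℝ × ℝ, ‖Eo c G₁ G₂ t ξ‖ₑ ^ 4 ≤
      ENNReal.ofReal (64 * δ ^ 2) * ∫⁻ y : ℝ, ∫⁻ a in Icc (-δ) δ, ‖Pl c G₂ a t y‖ₑ ^ (4:ℝ) := by
    intro t
    have hm : Measurable fun ξ : ℝ × ℝ => ‖Eo c G₁ G₂ t ξ‖ₑ ^ 4 :=
      ((Eo_meas c hc G₁ G₂ h1 h2).comp (f := fun ξ : ℝ × ℝ => (t, ξ)) (by fun_prop)).enorm.pow_const 4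
    rw [Measure.volume_eq_prod, lintegral_prod_symm _ hm.aemeasurable,
      ← lintegral_const_mul' _ _ ENNReal.ofReal_ne_top]
    refine lintegral_mono fun y => ?_
    have key := l4a (fun a => G₁ a * Pl c G₂ a t y) (hfix t y) (4 / c) (fun a => by
      rw [norm_mul]
      calc ‖G₁ a‖ * ‖Pl c G₂ a t y‖ ≤ 1 * (4 / c) :=
            mul_le_mul (b1 a) (Pl_norm c hc G₂ b2 a t y) (norm_nonneg _) zero_le_one
        _ = 4 / c := one_mul _) δ hδ (fun a ha => by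
      have : G₁ a = 0 := by
        by_contra h
        exact absurd (s1 a h) (not_le.2 ha)
      rw [this, zero_mul])
    have h4 : ∀ x : ℝ, ‖Eo c G₁ G₂ t (x, y)‖ₑ ^ 4 =
        ‖∫ a : ℝ, (G₁ a * Pl c G₂ a t y) * ex (a * x)‖ₑ ^ (4:ℝ) := by
      intro x
      rw [Eo_iter c hc G₁ G₂ h1 h2 b1 b2]
      have : (4:ℝ) = ((4:ℕ):ℝ) := by norm_num
      rw [this, ENNReal.rpow_natCast]
    rw [lintegral_congr h4]
    refine key.trans ?_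
    refine mul_le_mul_right ?_ _
    rw [← lintegral_indicator measurableSet_Icc]
    refine lintegral_mono fun a => ?_
    by_cases ha : G₁ a = 0
    · rw [ha, zero_mul, enorm_zero, ENNReal.zero_rpow_of_pos (by norm_num)]
      exact zero_le
    · have hmem : a ∈ Icc (-δ) δ := abs_le.1 (s1 a ha)
      rw [indicator_of_mem hmem]
      refine ENNReal.rpow_le_rpow ?_ (by norm_num)
      rw [enorm_mul]
      have : ‖G₁ a‖ₑ ≤ 1 := by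
        rw [← ofReal_norm]
        exact ENNReal.ofReal_le_one.2 (b1 a)
      calc ‖G₁ a‖ₑ * ‖Pl c G₂ a t y‖ₑ ≤ 1 * ‖Pl c G₂ a t y‖ₑ := mul_le_mul_left this _
        _ = ‖Pl c G₂ a t y‖ₑ := one_mul _
  unfold S4
  calc ∫⁻ t in Icc T (2 * T), ∫⁻ ξ : ℝ × ℝ, ‖Eo c G₁ G₂ t ξ‖ₑ ^ 4
      ≤ ∫⁻ t in Icc T (2 * T), ENNReal.ofReal (64 * δ ^ 2) *
          ∫⁻ y : ℝ, ∫⁻ a in Icc (-δ) δ, ‖Pl c G₂ a t y‖ₑ ^ (4:ℝ) := lintegral_mono fun t => hin t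
    _ = ENNReal.ofReal (64 * δ ^ 2) * ∫⁻ t in Icc T (2 * T),
          ∫⁻ y : ℝ, ∫⁻ a in Icc (-δ) δ, ‖Pl c G₂ a t y‖ₑ ^ (4:ℝ) :=
        lintegral_const_mul' _ _ ENNReal.ofReal_ne_top
    _ = ENNReal.ofReal (64 * δ ^ 2) * ∫⁻ a in Icc (-δ) δ, ∫⁻ t in Icc T (2 * T),
          ∫⁻ y : ℝ, ‖Pl c G₂ a t y‖ₑ ^ (4:ℝ) := by
        congr 1
        have e1 : ∀ t : ℝ, ∫⁻ y : ℝ, ∫⁻ a in Icc (-δ) δ, ‖Pl c G₂ a t y‖ₑ ^ (4:ℝ) =
            ∫⁻ a in Icc (-δ) δ, ∫⁻ y : ℝ, ‖Pl c G₂ a t y‖ₑ ^ (4:ℝ) := by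
          intro t
          refine lintegral_lintegral_swap ?_
          exact (hh.comp (f := fun q : ℝ × ℝ => (q.2, t, q.1)) (by fun_prop)).aemeasurable
        rw [lintegral_congr e1]
        refine lintegral_lintegral_swap ?_
        have e2 : Measurable fun q : ℝ × ℝ => ∫⁻ y : ℝ, ‖Pl c G₂ q.2 q.1 y‖ₑ ^ (4:ℝ) := by
          have e3 : Measurable fun q : (ℝ × ℝ) × ℝ => ‖Pl c G₂ q.1.2 q.1.1 q.2‖ₑ ^ (4:ℝ) :=
            hh.comp (f := fun q : (ℝ × ℝ) × ℝ => (q.1.2, q.1.1, q.2)) (by fun_prop)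
          exact e3.lintegral_prod_right'
        exact e2.aemeasurable
    _ ≤ ENNReal.ofReal (64 * δ ^ 2) * ∫⁻ _a in Icc (-δ) δ,
          ENNReal.ofReal (C * (1 + Real.log T)) := by
        refine mul_le_mul_right ?_ _
        exact lintegral_mono fun a => H T hT 1 (Or.inl rfl) a G₂ h2 b2
    _ = ENNReal.ofReal (128 * C * (1 + Real.log T) * δ ^ 3) := by
        rw [setLIntegral_const, Real.volume_Icc, ← ENNReal.ofReal_mul (by positivity),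
          ← ENNReal.ofReal_mul (by positivity)]
        congr 1
        ring

theorem Eo_swap (c : ℝ) (G₁ G₂ : ℝ → ℂ) (t : ℝ) (ξ : ℝ × ℝ) :
    Eo c G₂ G₁ t ξ = Eo c G₁ G₂ t ξ.swap := by
  unfold Eo
  have h1 : MeasurePreserving (Prod.swap : ℝ × ℝ → ℝ × ℝ) volume volume :=
    Measure.measurePreserving_swap
  rw [← h1.integral_comp MeasurableEquiv.prodComm.measurableEmbedding]
  refine integral_congr_ae (Filter.Eventually.of_forall fun x => ?_)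
  simp only [Prod.fst_swap, Prod.snd_swap]
  rw [f1_wf_comm c x.2 x.1, f1_qf_comm c x.2 x.1]
  rw [add_comm (x.2 * ξ.1) (x.1 * ξ.2)]
  ring

theorem S4_swap (c : ℝ) (G₁ G₂ : ℝ → ℂ) (T : ℝ) : S4 c G₂ G₁ T = S4 c G₁ G₂ T := by
  unfold S4
  refine lintegral_congr fun t => ?_
  have h1 : MeasurePreserving (Prod.swap : ℝ × ℝ → ℝ × ℝ) volume volume :=
    Measure.measurePreserving_swap
  rw [← h1.lintegral_comp_emb MeasurableEquiv.prodComm.measurableEmbedding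
    (fun ξ : ℝ × ℝ => ‖Eo c G₁ G₂ t ξ‖ₑ ^ 4)]
  refine lintegral_congr fun ξ => ?_
  rw [Eo_swap]

end Pool.Agent.SDT.FN

end -- FN.S2

section -- FN.S3

/-!
FN, soft part: from dyadic pieces to all product densities.
-/

namespace Pool.Agent.SDT.FN

open MeasureTheory Set Metric Pool.Agent.SDT.MP_6cbfb8_an Pool.Agent.SDT.MST Pool.Agent.SDT.N1
open scoped ENNReal Real

/-- The dyadic `L⁴` estimate for dyadic pieces. -/
def L4P (c : ℝ) : Prop := ∃ C : ℝ, 0 ≤ C ∧ ∃ k : ℕ, ∀ T : ℝ, 1 ≤ T → ∀ m n : ℝ,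
    T ^ (-(1 / 2) : ℝ) ≤ m → m ≤ 1 → T ^ (-(1 / 2) : ℝ) ≤ n → n ≤ 1 → ∀ G₁ G₂ : ℝ → ℂ,
    Measurable G₁ → Measurable G₂ → (∀ a, ‖G₁ a‖ ≤ 1) → (∀ b, ‖G₂ b‖ ≤ 1) →
    (∀ a, G₁ a ≠ 0 → m ≤ a ∧ a ≤ 2 * m) → (∀ b, G₂ b ≠ 0 → n ≤ b ∧ b ≤ 2 * n) →
    ∫⁻ t in Icc T (2 * T), ∫⁻ ξ : ℝ × ℝ, ‖Eo c G₁ G₂ t ξ‖ₑ ^ 4 ≤
      ENNReal.ofReal (C * (1 + Real.log T) ^ k / T)

theorem pow4_sum {ι : Type*} (s : Finset ι) (f : ι → ℝ≥0∞) :
    (∑ i ∈ s, f i) ^ 4 ≤ (s.card : ℝ≥0∞) ^ 3 * ∑ i ∈ s, f i ^ 4 := by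
  have h := ENNReal.rpow_sum_le_const_mul_sum_rpow s f (p := 4) (by norm_num)
  have e1 : ∀ x : ℝ≥0∞, x ^ (4:ℝ) = x ^ 4 := fun x => by
    have : (4:ℝ) = ((4:ℕ):ℝ) := by norm_num
    rw [this, ENNReal.rpow_natCast]
  have e2 : ∀ x : ℝ≥0∞, x ^ ((4:ℝ) - 1) = x ^ 3 := fun x => by
    have : ((4:ℝ) - 1) = ((3:ℕ):ℝ) := by norm_num
    rw [this, ENNReal.rpow_natCast]
  simp only [e1, e2] at h
  exact h

/-- Finite decompositions of a product density. -/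
theorem S4_sum (c : ℝ) (hc : 0 < c) {ι : Type*} (s : Finset ι) (A B : ι → ℝ → ℂ)
    (D₁ D₂ : ℝ → ℂ) (hA : ∀ i, Measurable (A i)) (hB : ∀ i, Measurable (B i))
    (nA : ∀ i a, ‖A i a‖ ≤ 1) (nB : ∀ i b, ‖B i b‖ ≤ 1)
    (hD : ∀ x : ℝ × ℝ, wf c x.1 x.2 ≠ 0 → D₁ x.1 * D₂ x.2 = ∑ i ∈ s, A i x.1 * B i x.2) (T : ℝ) :
    S4 c D₁ D₂ T ≤ (s.card : ℝ≥0∞) ^ 3 * ∑ i ∈ s, S4 c (A i) (B i) T := by
  have hE : ∀ t ξ, Eo c D₁ D₂ t ξ = ∑ i ∈ s, Eo c (A i) (B i) t ξ := by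
    intro t ξ
    have h1 : ∀ i ∈ s, Integrable (Ei c (A i) (B i) t ξ) := fun i _ =>
      Ei_int c hc _ _ (hA i) (hB i) (nA i) (nB i) t ξ
    have h2 := integral_finsetSum s h1
    have h3 : Eo c D₁ D₂ t ξ = ∫ x, ∑ i ∈ s, Ei c (A i) (B i) t ξ x := by
      unfold Eo Ei
      refine integral_congr_ae (Filter.Eventually.of_forall fun x => ?_)
      simp only
      by_cases hw : wf c x.1 x.2 = 0
      · rw [hw]
        simp
      · rw [hD x hw, Finset.sum_mul, Finset.sum_mul, Finset.sum_mul]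
    rw [h3, h2]
    rfl
  have hpt : ∀ t ξ, ‖Eo c D₁ D₂ t ξ‖ₑ ^ 4 ≤
      (s.card : ℝ≥0∞) ^ 3 * ∑ i ∈ s, ‖Eo c (A i) (B i) t ξ‖ₑ ^ 4 := by
    intro t ξ
    rw [hE]
    refine le_trans ?_ (pow4_sum s fun i => ‖Eo c (A i) (B i) t ξ‖ₑ)
    gcongr
    exact enorm_sum_le _ _
  have hm : ∀ i t, Measurable fun ξ : ℝ × ℝ => ‖Eo c (A i) (B i) t ξ‖ₑ ^ 4 := fun i t =>
    ((Eo_meas c hc _ _ (hA i) (hB i)).comp (f := fun ξ : ℝ × ℝ => (t, ξ))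
      (by fun_prop)).enorm.pow_const 4
  have hcard : (s.card : ℝ≥0∞) ^ 3 ≠ ∞ := ENNReal.pow_ne_top (ENNReal.natCast_ne_top _)
  unfold S4
  calc ∫⁻ t in Icc T (2 * T), ∫⁻ ξ : ℝ × ℝ, ‖Eo c D₁ D₂ t ξ‖ₑ ^ 4
      ≤ ∫⁻ t in Icc T (2 * T), ∫⁻ ξ : ℝ × ℝ,
          (s.card : ℝ≥0∞) ^ 3 * ∑ i ∈ s, ‖Eo c (A i) (B i) t ξ‖ₑ ^ 4 :=
        lintegral_mono fun t => lintegral_mono fun ξ => hpt t ξ
    _ = ∫⁻ t in Icc T (2 * T), (s.card : ℝ≥0∞) ^ 3 *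
          ∑ i ∈ s, ∫⁻ ξ : ℝ × ℝ, ‖Eo c (A i) (B i) t ξ‖ₑ ^ 4 := by
        refine lintegral_congr fun t => ?_
        rw [lintegral_const_mul' _ _ hcard, lintegral_finsetSum _ fun i _ => hm i t]
    _ = (s.card : ℝ≥0∞) ^ 3 * ∑ i ∈ s,
          ∫⁻ t in Icc T (2 * T), ∫⁻ ξ : ℝ × ℝ, ‖Eo c (A i) (B i) t ξ‖ₑ ^ 4 := by
        rw [lintegral_const_mul' _ _ hcard,
          lintegral_finsetSum _ fun i _ => S4_inner_meas c hc _ _ (hA i) (hB i)]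

/-- Restriction to `a ≤ 2⁻ⁱ`. -/
noncomputable def ct (i : ℕ) (G : ℝ → ℂ) (a : ℝ) : ℂ := if a ≤ (1 / 2) ^ i then G a else 0

theorem ct_meas (i : ℕ) (G : ℝ → ℂ) (h : Measurable G) : Measurable (ct i G) := by
  unfold ct
  exact Measurable.ite (measurableSet_Iic : MeasurableSet (Iic ((1 / 2 : ℝ) ^ i))) h
    measurable_const

theorem ct_norm (i : ℕ) (G : ℝ → ℂ) (h : ∀ a, ‖G a‖ ≤ 1) (a : ℝ) : ‖ct i G a‖ ≤ 1 := by
  unfold ct
  split_ifs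
  · exact h a
  · simp

theorem cd_norm (i j : ℕ) (hij : i ≤ j) (G : ℝ → ℂ) (h : ∀ a, ‖G a‖ ≤ 1) (a : ℝ) :
    ‖ct i G a - ct j G a‖ ≤ 1 := by
  unfold ct
  have h1 : ((1:ℝ) / 2) ^ j ≤ (1 / 2) ^ i :=
    pow_le_pow_of_le_one (by norm_num) (by norm_num) hij
  split_ifs with h2 h3 h3
  · simp
  · rw [sub_zero]; exact h a
  · exact absurd (h3.trans h1) h2
  · simp

theorem cd_supp (i : ℕ) (G : ℝ → ℂ) (a : ℝ) (h : ct i G a - ct (i + 1) G a ≠ 0) :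
    (1 / 2 : ℝ) ^ (i + 1) ≤ a ∧ a ≤ 2 * (1 / 2 : ℝ) ^ (i + 1) := by
  unfold ct at h
  have h1 : ((1:ℝ) / 2) ^ (i + 1) = (1 / 2) ^ i / 2 := by rw [pow_succ]; ring
  by_cases h2 : a ≤ (1 / 2) ^ i
  · by_cases h3 : a ≤ (1 / 2) ^ (i + 1)
    · rw [if_pos h2, if_pos h3, sub_self] at h
      exact absurd rfl h
    · refine ⟨(not_le.1 h3).le, ?_⟩
      rw [h1]
      linarith
  · have h3 : ¬ a ≤ (1 / 2) ^ (i + 1) := by
      intro h3
      apply h2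
      have : (0:ℝ) < (1 / 2) ^ i := by positivity
      rw [h1] at h3
      linarith
    rw [if_neg h2, if_neg h3, sub_self] at h
    exact absurd rfl h

/-- The number of scales. -/
theorem scales (T : ℝ) (hT : 1 ≤ T) : ∃ J : ℕ, T ^ (-(1 / 2) : ℝ) ≤ (1 / 2) ^ J ∧
    (1 / 2 : ℝ) ^ J ≤ 2 * T ^ (-(1 / 2) : ℝ) ∧ (J : ℝ) ≤ 1 + Real.log T := by
  have hT0 : 0 < T := by linarith
  have hx : 1 ≤ √T := by rw [Real.one_le_sqrt]; exact hT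
  obtain ⟨J, h1, h2⟩ := exists_nat_pow_near hx (by norm_num : (1:ℝ) < 2)
  have hs : T ^ (-(1 / 2) : ℝ) = (√T)⁻¹ := by
    rw [Real.rpow_neg hT0.le, Real.sqrt_eq_rpow]
  have hs0 : 0 < √T := by linarith
  refine ⟨J, ?_, ?_, ?_⟩
  · rw [hs, one_div, inv_pow]
    exact inv_anti₀ (by positivity) h1
  · rw [hs, one_div, inv_pow]
    rw [pow_succ] at h2
    have : (2:ℝ) * (√T)⁻¹ = (√T / 2)⁻¹ := by rw [inv_div]; ring
    rw [this]
    exact inv_anti₀ (by positivity) (by linarith)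
  · have h3 : (J : ℝ) * Real.log 2 ≤ Real.log √T := by
      rw [← Real.log_pow]
      exact Real.log_le_log (by positivity) h1
    rw [Real.log_sqrt hT0.le] at h3
    have h4 := Real.log_two_gt_d9
    have h5 := Real.log_nonneg hT
    have h6 : (0:ℝ) ≤ J := Nat.cast_nonneg J
    nlinarith

/-- All product densities with support in the first quadrant. -/
theorem L4_pos (c : ℝ) (hc : 0 < c) (h : L4P c) : ∃ C : ℝ, 0 ≤ C ∧ ∃ k : ℕ, ∀ T : ℝ, 1 ≤ T →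
    ∀ G₁ G₂ : ℝ → ℂ, Measurable G₁ → Measurable G₂ → (∀ a, ‖G₁ a‖ ≤ 1) → (∀ b, ‖G₂ b‖ ≤ 1) →
    (∀ a, G₁ a ≠ 0 → 0 ≤ a) → (∀ b, G₂ b ≠ 0 → 0 ≤ b) →
    S4 c G₁ G₂ T ≤ ENNReal.ofReal (C * (1 + Real.log T) ^ k / T) := by
  obtain ⟨C1, hC1, k, H⟩ := h
  obtain ⟨C2, hC2, HS⟩ := strip_L4 c hc
  refine ⟨27 * (16 * C2) + 27 * C1, by positivity, k + 8, ?_⟩
  intro T hT G₁ G₂ h1 h2 b1 b2 s1 s2
  have hT0 : 0 < T := by linarith
  have hlog := Real.log_nonneg hT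
  set L : ℝ := 1 + Real.log T with hL
  have hL1 : 1 ≤ L := by rw [hL]; linarith
  obtain ⟨J, hJ1, hJ2, hJ3⟩ := scales T hT
  rw [← hL] at hJ3
  set δ : ℝ := (1 / 2 : ℝ) ^ J with hδ
  have hδ0 : 0 < δ := by positivity
  have hδ3 : δ ^ 3 ≤ 8 / T := by
    have e1 : T ^ (-(1 / 2) : ℝ) = (√T)⁻¹ := by
      rw [Real.rpow_neg hT0.le, Real.sqrt_eq_rpow]
    rw [e1] at hJ2
    have e2 : 1 ≤ √T := by rw [Real.one_le_sqrt]; exact hT
    have e3 : (√T)⁻¹ ≤ 1 := inv_le_one_of_one_le₀ e2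
    have e4 : ((√T)⁻¹) ^ 2 = T⁻¹ := by rw [inv_pow, Real.sq_sqrt hT0.le]
    have e5 : 0 ≤ (√T)⁻¹ := by positivity
    calc δ ^ 3 ≤ (2 * (√T)⁻¹) ^ 3 := pow_le_pow_left₀ hδ0.le hJ2 3
      _ = 8 * (((√T)⁻¹) ^ 2 * (√T)⁻¹) := by ring
      _ ≤ 8 * (((√T)⁻¹) ^ 2 * 1) := by gcongr
      _ = 8 / T := by rw [e4]; ring
  -- the cut-off functions
  set r₁ := ct J G₁ with hr₁
  set r₂ := ct J G₂ with hr₂
  set q₁ : ℝ → ℂ := fun a => ct 0 G₁ a - ct J G₁ a with hq₁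
  set q₂ : ℝ → ℂ := fun b => ct 0 G₂ b - ct J G₂ b with hq₂
  have mq₁ : Measurable q₁ := (ct_meas 0 G₁ h1).sub (ct_meas J G₁ h1)
  have mq₂ : Measurable q₂ := (ct_meas 0 G₂ h2).sub (ct_meas J G₂ h2)
  have nq₁ : ∀ a, ‖q₁ a‖ ≤ 1 := cd_norm 0 J (Nat.zero_le _) G₁ b1
  have nq₂ : ∀ a, ‖q₂ a‖ ≤ 1 := cd_norm 0 J (Nat.zero_le _) G₂ b2
  have supr : ∀ G : ℝ → ℂ, (∀ a, G a ≠ 0 → 0 ≤ a) → ∀ a, ct J G a ≠ 0 → |a| ≤ δ := by
    intro G hG a ha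
    unfold ct at ha
    split_ifs at ha with h3
    · rw [abs_of_nonneg (hG a ha)]
      exact h3
    · exact absurd rfl ha
  have hone : ∀ (G : ℝ → ℂ) a, |a| ≤ 1 → G a = ct 0 G a := by
    intro G a ha
    unfold ct
    rw [if_pos]
    rw [pow_zero]
    exact (le_abs_self a).trans ha
  have key : S4 c G₁ G₂ T ≤ 27 * (S4 c r₁ G₂ T + (S4 c q₁ r₂ T + S4 c q₁ q₂ T)) := by
    have := S4_sum c hc (Finset.univ : Finset (Fin 3)) ![r₁, q₁, q₁] ![G₂, r₂, q₂] G₁ G₂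
      (by
        intro i
        fin_cases i
        · exact ct_meas J G₁ h1
        · exact mq₁
        · exact mq₁) (by
        intro i
        fin_cases i
        · exact h2
        · exact ct_meas J G₂ h2
        · exact mq₂) (by
        intro i
        fin_cases i
        · exact ct_norm J G₁ b1
        · exact nq₁
        · exact nq₁) (by
        intro i
        fin_cases i
        · exact b2
        · exact ct_norm J G₂ b2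
        · exact nq₂) (by
        intro x hx
        obtain ⟨-, -, a1, a2⟩ := wf_ne c hc _ _ hx
        simp only [Fin.sum_univ_three, Matrix.cons_val_zero, Matrix.cons_val_one,
          Matrix.cons_val_two, Matrix.head_cons, Matrix.tail_cons]
        simp only [hq₁, hq₂, hr₁, hr₂]
        rw [hone G₁ _ a1]
        have e2 := hone G₂ _ a2
        rw [← e2]
        ring) T
    refine this.trans (le_of_eq ?_)
    simp only [Fin.sum_univ_three, Finset.card_univ, Fintype.card_fin, Matrix.cons_val_zero,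
      Matrix.cons_val_one, Matrix.cons_val]
    norm_num
    ring
  have k1 : S4 c r₁ G₂ T ≤ ENNReal.ofReal (8 * C2 * L ^ (k + 8) / T) := by
    refine (HS T hT δ hδ0 _ _ (ct_meas J G₁ h1) h2 (ct_norm J G₁ b1) b2 (supr G₁ s1)).trans ?_
    apply ENNReal.ofReal_le_ofReal
    rw [← hL]
    have e1 : L ≤ L ^ (k + 8) := le_self_pow₀ hL1 (by omega)
    calc C2 * L * δ ^ 3 ≤ C2 * L ^ (k + 8) * (8 / T) := by gcongr
      _ = 8 * C2 * L ^ (k + 8) / T := by ring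
  have k2 : S4 c q₁ r₂ T ≤ ENNReal.ofReal (8 * C2 * L ^ (k + 8) / T) := by
    rw [S4_swap c r₂ q₁ T]
    refine (HS T hT δ hδ0 _ _ (ct_meas J G₂ h2) mq₁ (ct_norm J G₂ b2) nq₁ (supr G₂ s2)).trans ?_
    apply ENNReal.ofReal_le_ofReal
    rw [← hL]
    have e1 : L ≤ L ^ (k + 8) := le_self_pow₀ hL1 (by omega)
    calc C2 * L * δ ^ 3 ≤ C2 * L ^ (k + 8) * (8 / T) := by gcongr
      _ = 8 * C2 * L ^ (k + 8) / T := by ring
  have k3 : S4 c q₁ q₂ T ≤ ENNReal.ofReal (C1 * L ^ (k + 8) / T) := by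
    have e0 := S4_sum c hc (Finset.range J ×ˢ Finset.range J)
      (fun (i : ℕ × ℕ) a => ct i.1 G₁ a - ct (i.1 + 1) G₁ a)
      (fun (i : ℕ × ℕ) b => ct i.2 G₂ b - ct (i.2 + 1) G₂ b) q₁ q₂
      (fun i => (ct_meas _ G₁ h1).sub (ct_meas _ G₁ h1))
      (fun i => (ct_meas _ G₂ h2).sub (ct_meas _ G₂ h2))
      (fun i => cd_norm _ _ (Nat.le_succ _) G₁ b1) (fun i => cd_norm _ _ (Nat.le_succ _) G₂ b2)
      (by
        intro x _
        have g1 : q₁ x.1 = ∑ i ∈ Finset.range J, (ct i G₁ x.1 - ct (i + 1) G₁ x.1) :=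
          (Finset.sum_range_sub' (fun i => ct i G₁ x.1) J).symm
        have g2 : q₂ x.2 = ∑ i ∈ Finset.range J, (ct i G₂ x.2 - ct (i + 1) G₂ x.2) :=
          (Finset.sum_range_sub' (fun i => ct i G₂ x.2) J).symm
        rw [Finset.sum_product, g1, g2, Finset.sum_mul_sum]) T
    refine e0.trans ?_
    have e1 : ∀ i ∈ Finset.range J ×ˢ Finset.range J,
        S4 c (fun a => ct i.1 G₁ a - ct (i.1 + 1) G₁ a)
          (fun b => ct i.2 G₂ b - ct (i.2 + 1) G₂ b) T ≤ ENNReal.ofReal (C1 * L ^ k / T) := by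
      intro i hi
      obtain ⟨hi1, hi2⟩ := Finset.mem_product.1 hi
      rw [Finset.mem_range] at hi1 hi2
      have f1 : ∀ j : ℕ, j < J → T ^ (-(1 / 2) : ℝ) ≤ (1 / 2 : ℝ) ^ (j + 1) := fun j hj =>
        hJ1.trans (pow_le_pow_of_le_one (by norm_num) (by norm_num) hj)
      have f2 : ∀ j : ℕ, (1 / 2 : ℝ) ^ j ≤ 1 := fun j =>
        pow_le_one₀ (by norm_num) (by norm_num)
      exact H T hT _ _ (f1 _ hi1) (f2 _) (f1 _ hi2) (f2 _) _ _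
        ((ct_meas _ G₁ h1).sub (ct_meas _ G₁ h1)) ((ct_meas _ G₂ h2).sub (ct_meas _ G₂ h2))
        (cd_norm _ _ (Nat.le_succ _) G₁ b1) (cd_norm _ _ (Nat.le_succ _) G₂ b2)
        (cd_supp _ G₁) (cd_supp _ G₂)
    have e2 := Finset.sum_le_sum e1
    rw [Finset.sum_const, nsmul_eq_mul] at e2
    have e3 : (Finset.range J ×ˢ Finset.range J).card = J * J := by
      rw [Finset.card_product, Finset.card_range]
    rw [e3] at e2 ⊢
    refine (mul_le_mul_right e2 _).trans ?_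
    have e4 : ((J * J : ℕ) : ℝ≥0∞) = ENNReal.ofReal ((J:ℝ) * J) := by
      rw [← Nat.cast_mul, ENNReal.ofReal_natCast]
    rw [e4, ← ENNReal.ofReal_pow (by positivity), ← ENNReal.ofReal_mul (by positivity),
      ← ENNReal.ofReal_mul (by positivity)]
    apply ENNReal.ofReal_le_ofReal
    have e5 : (0:ℝ) ≤ J := Nat.cast_nonneg J
    calc ((J:ℝ) * J) ^ 3 * ((J:ℝ) * J * (C1 * L ^ k / T)) = (J:ℝ) ^ 8 * (C1 * L ^ k / T) := by ring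
      _ ≤ L ^ 8 * (C1 * L ^ k / T) := by gcongr
      _ = C1 * L ^ (k + 8) / T := by rw [pow_add]; ring
  refine key.trans ?_
  refine (mul_le_mul_right (add_le_add k1 (add_le_add k2 k3)) _).trans ?_
  have h27 : (27 : ℝ≥0∞) = ENNReal.ofReal 27 := by simp
  rw [h27, ← ENNReal.ofReal_add (by positivity) (by positivity),
    ← ENNReal.ofReal_add (by positivity) (by positivity), ← ENNReal.ofReal_mul (by positivity)]
  apply ENNReal.ofReal_le_ofReal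
  apply le_of_eq
  ring

end Pool.Agent.SDT.FN

end -- FN.S3

section -- N1M.I2

/-!
N1M, Proposition I: the normal form.
-/

namespace Pool.Agent.SDT.N1M

open MeasureTheory Set Metric Pool.Agent.SDT.MP_6cbfb8_an Pool.Agent.SDT.MST Pool.Agent.SDT.N1
open Pool.Agent.SDT.N1F Pool.Agent.SDT.N1G
open scoped ENNReal Real ContDiff Topology

lemma RM_A (c : ℝ) (hc : 0 < c) (hc1 : c ≤ 1) (x : P7 × V × V) (h : okI4 c x) (hA : x.1 0 = 0) :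
    RM c x = 0 := by
  obtain ⟨h1, h2, h3⟩ := h
  have e1 := h2 false false
  have e3 := h2 false true
  have z0 : Qs c 0 0 = 1 := Qs_zero c hc (by nlinarith)
  have p1 := Qs_pos c hc _ _ e1.le
  have p3 := Qs_pos c hc _ _ e3.le
  have s3 := Qs_sq c hc _ _ e3.le
  simp only [prB] at p1 p3 s3
  unfold RM M11 M22 M12 UM omM sgM alM beM
  simp only [prA, prB, hA, zero_mul, mul_zero, sub_zero]
  rw [E1_zero c _ _ _ _ _ p3.ne']
  unfold G3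
  simp only [zero_mul]
  have s3' : hm (x.1 1) (Wi false true (x.1, x.2.2)) =
      Qs c 0 (sM (x.1 1) (Wi false true (x.1, x.2.2))) ^ 2 := by
    rw [s3]
    unfold sM
    ring
  rw [s3']
  set q1 := Qs c 0 (sM (x.1 1) (Wi false false (x.1, x.2.2)))
  set q3 := Qs c 0 (sM (x.1 1) (Wi false true (x.1, x.2.2)))
  field_simp
  ring

/-- Base functions. -/
noncomputable def F0 (m : ℝ) (b : V) : ℝ := b.1 * b.2.2 / hm m b.2.1
noncomputable def F1 (m : ℝ) (b : V) : ℝ := bm m b.2.1 * b.1 / hm m b.2.1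
noncomputable def F2 (m : ℝ) (b : V) : ℝ := bm m b.2.1 * b.2.2 / hm m b.2.1

lemma sgM_base (c : ℝ) (hc : 0 < c) (x : P7 × V) (h : okB4 c x) (h2 : x.1 4 = 0)
    (h3 : x.1 5 = 0) : sgM c x = -F0 (x.1 1) x.2 := by
  have e := h false false
  rw [Wi_diag _ _ x h2 h3] at e
  have p := Qs_pos c hc _ _ e.le
  have s := Qs_sq c hc _ _ e.le
  have n := hm_pos c hc _ _ e
  unfold sgM F0
  simp only [Wi_diag _ _ x h2 h3]
  rw [G1_diag c _ _ _ p.ne']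
  have hh := hm_bmI (x.1 1) x.2.2.1
  have s' : hm (x.1 1) x.2.2.1 = Qs c 0 (sM (x.1 1) x.2.2.1) ^ 2 := by
    rw [s]
    unfold sM
    ring
  have s'' : bm (x.1 1) x.2.2.1 ^ 2 + x.1 1 * Qs c 0 (sM (x.1 1) x.2.2.1) ^ 2 = 1 := by
    rw [← s', hh]
  rw [s'', s']
  set q := Qs c 0 (sM (x.1 1) x.2.2.1)
  field_simp

lemma beM_base (c : ℝ) (hc : 0 < c) (x : P7 × V) (h : okB4 c x) (h2 : x.1 4 = 0)
    (h3 : x.1 5 = 0) : beM c x = -(1 / 2 * F2 (x.1 1) x.2) := by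
  have e := h false false
  rw [Wi_diag _ _ x h2 h3] at e
  have p := Qs_pos c hc _ _ e.le
  have s := Qs_sq c hc _ _ e.le
  unfold beM F2
  simp only [Wi_diag _ _ x h2 h3]
  have s' : hm (x.1 1) x.2.2.1 = Qs c 0 (sM (x.1 1) x.2.2.1) ^ 2 := by
    rw [s]
    unfold sM
    ring
  rw [s']
  set q := Qs c 0 (sM (x.1 1) x.2.2.1)
  field_simp

lemma baseM_nf (c : ℝ) (hc : 0 < c) (x : P7 × V × V) (h : okI4 c x) (h2 : x.1 2 = 0)
    (h3 : x.1 3 = 0) (h4 : x.1 4 = 0) (h5 : x.1 5 = 0) :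
    RM c x = 0 ∧ M21 c x = UM c x * (x.2.1.2.1 * x.2.1.2.2 /
      (1 - x.1 1 * (x.1 0 * x.2.1.2.1 ^ 2)) * F1 (x.1 1) x.2.2) := by
  obtain ⟨k1, k2, k3⟩ := h
  have b2 := sgM_base c hc (prB x) k2 h4 h5
  have b4 := beM_base c hc (prB x) k2 h4 h5
  have e := k3 false false false false
  have eb := k2 false false
  have hXd : ∀ e f, Xi e f (prA x) = x.2.1.2.1 := fun e f => Xi_diag e f (prA x) h2 h3
  have hWd : ∀ e f, Wi e f (prB x) = x.2.2.2.1 := fun e f => Wi_diag e f (prB x) h4 h5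
  have ka : 0 < 1 - x.1 1 * (x.1 0 * x.2.1.2.1 ^ 2) := by
    have := k1
    unfold okA4 at this
    rw [hXd] at this
    exact this
  rw [hXd, hWd] at e
  rw [hWd] at eb
  have p := Qs_pos c hc _ _ e.le
  have s := Qs_sq c hc _ _ e.le
  have nb : 0 < hm (x.1 1) x.2.2.2.1 := hm_pos c hc _ _ eb
  have hh := hm_bmI (x.1 1) x.2.2.2.1
  have s1 : x.1 0 * x.2.1.2.1 ^ 2 + Qs c (x.1 0 * x.2.1.2.1 ^ 2) (sM (x.1 1) x.2.2.2.1) ^ 2 =
      hm (x.1 1) x.2.2.2.1 := by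
    rw [s]
    unfold sM
    ring
  have s2 : bm (x.1 1) x.2.2.2.1 ^ 2 + x.1 1 *
      Qs c (x.1 0 * x.2.1.2.1 ^ 2) (sM (x.1 1) x.2.2.2.1) ^ 2 =
      1 - x.1 1 * (x.1 0 * x.2.1.2.1 ^ 2) := by
    rw [s]
    unfold sM
    linear_combination hh
  have c1 : M11 c x = -(x.2.1.1 * x.2.1.2.2 * (hm (x.1 1) x.2.2.2.1 /
      Qs c (x.1 0 * x.2.1.2.1 ^ 2) (sM (x.1 1) x.2.2.2.1) ^ 3)) := by
    unfold M11
    simp only [hXd, hWd]
    rw [E1_diag c _ _ _ p.ne', s1]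
  have c2 : M22 c x = -(x.2.2.1 * x.2.2.2.2 * ((1 - x.1 1 * (x.1 0 * x.2.1.2.1 ^ 2)) /
      Qs c (x.1 0 * x.2.1.2.1 ^ 2) (sM (x.1 1) x.2.2.2.1) ^ 3)) := by
    unfold M22
    simp only [hXd, hWd]
    rw [G1_diag c _ _ _ p.ne', s2]
  have c3 : M12 c x = -(x.2.1.1 * x.2.2.2.2 * (-(x.2.1.2.1 * bm (x.1 1) x.2.2.2.1) /
      Qs c (x.1 0 * x.2.1.2.1 ^ 2) (sM (x.1 1) x.2.2.2.1) ^ 3)) := by
    unfold M12
    simp only [hXd, hWd]
    rw [G3_diag c _ _ _ _ p.ne']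
  have c4 : M21 c x = -(x.2.1.2.2 * x.2.2.1 * (-(x.2.1.2.1 * bm (x.1 1) x.2.2.2.1) /
      Qs c (x.1 0 * x.2.1.2.1 ^ 2) (sM (x.1 1) x.2.2.2.1) ^ 3)) := by
    unfold M21
    simp only [hXd, hWd]
    rw [G3_diag c _ _ _ _ p.ne']
  have c5 : UM c x = (1 - x.1 1 * (x.1 0 * x.2.1.2.1 ^ 2)) * hm (x.1 1) x.2.2.2.1 /
      Qs c (x.1 0 * x.2.1.2.1 ^ 2) (sM (x.1 1) x.2.2.2.1) ^ 3 := by
    unfold UM
    simp only [hXd, hWd]
  have c6 : omM (prA x) = x.2.1.1 * x.2.1.2.2 / (1 - x.1 1 * (x.1 0 * x.2.1.2.1 ^ 2)) := by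
    unfold omM
    rw [hXd]
    rfl
  have c7 : alM (prA x) = x.2.1.1 * (x.2.1.2.1 + x.2.1.2.1) /
      (1 - x.1 1 * (x.1 0 * x.2.1.2.1 ^ 2)) := by
    unfold alM
    rw [hXd, hXd]
    rfl
  have pn := p.ne'
  have kn := ka.ne'
  constructor
  · unfold RM
    rw [b2, b4, c1, c2, c3, c5, c6, c7]
    unfold F0 F2
    simp only [prB]
    set Q := Qs c (x.1 0 * x.2.1.2.1 ^ 2) (sM (x.1 1) x.2.2.2.1)
    set D1 := 1 - x.1 1 * (x.1 0 * x.2.1.2.1 ^ 2)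
    set H := hm (x.1 1) x.2.2.2.1
    field_simp
    ring
  · rw [c4, c5]
    unfold F1
    set Q := Qs c (x.1 0 * x.2.1.2.1 ^ 2) (sM (x.1 1) x.2.2.2.1)
    set D1 := 1 - x.1 1 * (x.1 0 * x.2.1.2.1 ^ 2)
    set H := hm (x.1 1) x.2.2.2.1
    field_simp

/-- Division by the first parameter. -/
lemma had_one {Q : Type*} [NormedAddCommGroup Q] [NormedSpace ℝ Q] [FiniteDimensional ℝ Q]
    (f : P7 × Q → ℝ) (x0 : P7 × Q) (r : ℝ) (hr : 0 < r)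
    (hf : ContDiffOn ℝ ∞ f (ball x0 r)) (h0 : ∀ x ∈ ball x0 r, x.1 0 = 0 → f x = 0)
    (hd : ∀ x ∈ ball x0 r, x.1 2 = 0 → x.1 3 = 0 → x.1 4 = 0 → x.1 5 = 0 → f x = 0) :
    ∃ r' : ℝ, 0 < r' ∧ r' ≤ r ∧ ∃ k : P7 × Q → ℝ, ContDiffOn ℝ ∞ k (ball x0 r') ∧
      (∀ x ∈ ball x0 r', f x = x.1 0 * k x) ∧
      (∀ x ∈ ball x0 r', x.1 2 = 0 → x.1 3 = 0 → x.1 4 = 0 → x.1 5 = 0 → k x = 0) := by
  obtain ⟨r1, hr1, hr1', k1, hk1, e1⟩ := had_loc 0 f x0 r hr hf h0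
  refine ⟨r1, hr1, hr1', k1, hk1, e1, ?_⟩
  intro x hx g2 g3 g4 g5
  have hc : ContinuousAt k1 x := (hk1.continuousOn.continuousAt (isOpen_ball.mem_nhds hx))
  refine zero_lim k1 x (Pi.single 0 1) hc ?_
  have hne : ∀ᶠ t : ℝ in 𝓝[≠] (0 : ℝ), x.1 0 + t ≠ 0 := by
    by_cases h : x.1 0 = 0
    · filter_upwards [self_mem_nhdsWithin] with t ht
      rw [h, zero_add]
      exact ht
    · have : ∀ᶠ t : ℝ in 𝓝 (0 : ℝ), x.1 0 + t ≠ 0 :=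
        (by fun_prop : ContinuousAt (fun t : ℝ => x.1 0 + t) 0).eventually_ne (by simpa using h)
      exact nhdsWithin_le_nhds this
  filter_upwards [hne, line_ball x x0 (Pi.single 0 1) r1 hx] with t ht hb
  have h4 : (x.1 + t • (Pi.single 0 (1 : ℝ) : P7)) 0 = x.1 0 + t := by
    simp
  have h6 : (x.1 + t • (Pi.single 0 (1 : ℝ) : P7)) 2 = 0 := by
    simp [g2]
  have h7 : (x.1 + t • (Pi.single 0 (1 : ℝ) : P7)) 3 = 0 := by
    simp [g3]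
  have h8 : (x.1 + t • (Pi.single 0 (1 : ℝ) : P7)) 4 = 0 := by
    simp [g4]
  have h9 : (x.1 + t • (Pi.single 0 (1 : ℝ) : P7)) 5 = 0 := by
    simp [g5]
  have h2 := hd _ (ball_subset_ball hr1' hb) h6 h7 h8 h9
  rw [e1 _ hb] at h2
  simp only [h4] at h2
  rcases mul_eq_zero.1 h2 with h10 | h10
  · exact absurd h10 ht
  · exact h10

theorem nfM (c : ℝ) (hc : 0 < c) (hc1 : c ≤ 1) (p0 : P7) (a0 b0 : V) (hok : okI4 c (p0, a0, b0)) :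
    ∃ r : ℝ, 0 < r ∧ ∃ g : P7 × V × V → ℝ, ContDiffOn ℝ ∞ g (ball (p0, a0, b0) r) ∧
      (∀ x ∈ ball (p0, a0, b0) r, okI4 c x) ∧
      (∀ x ∈ ball (p0, a0, b0) r, ∀ κ₂ : ℝ, x.1 0 = x.1 6 * κ₂ →
        M11 c x + M22 c x + x.1 6 * M12 c x + κ₂ * M21 c x =
          -(UM c x * (omM (prA x) - sgM c (prB x) + x.1 6 * (alM (prA x) * beM c (prB x)) +
            κ₂ * g x))) ∧
      (∀ x ∈ ball (p0, a0, b0) r, x.1 2 = 0 → x.1 3 = 0 → x.1 4 = 0 → x.1 5 = 0 →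
        g x = x.2.1.2.1 * x.2.1.2.2 / (1 - x.1 1 * (x.1 0 * x.2.1.2.1 ^ 2)) *
          -F1 (x.1 1) x.2.2) := by
  obtain ⟨r0, hr0, hball⟩ := Metric.eventually_nhds_iff_ball.1 (okI4_ev c _ hok)
  obtain ⟨r, hr, hrr, k, hk, hRk, hz⟩ := had_one (RM c) (p0, a0, b0) r0 hr0
    (fun x hx => (RM_cd c hc x (hball x hx)).contDiffWithinAt)
    (fun x hx h => RM_A c hc hc1 x (hball x hx) h)
    (fun y hy e2 e3 e4 e5 => (baseM_nf c hc y (hball y hy) e2 e3 e4 e5).1)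
  have hb : ∀ x ∈ ball (p0, a0, b0) r, okI4 c x := fun x hx => hball x (ball_subset_ball hrr hx)
  refine ⟨r, hr, fun x => -(M21 c x + x.1 6 * k x) / UM c x, ?_, hb, ?_, ?_⟩
  · intro x hx
    have h1 := UM_pos c hc x (hb x hx)
    exact (((M21_cd c hc x (hb x hx)).contDiffWithinAt.add
      ((pi_cd 6).contDiffAt.contDiffWithinAt.mul (hk x hx))).neg).div
      (UM_cd c hc x (hb x hx)).contDiffWithinAt h1.ne'
  · intro x hx κ₂ hκ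
    have h1 := UM_pos c hc x (hb x hx)
    have h2 := hRk x hx
    have h1' := h1.ne'
    unfold RM at h2
    have h3 : UM c x * (κ₂ * (-(M21 c x + x.1 6 * k x) / UM c x)) =
        -(κ₂ * M21 c x + x.1 6 * κ₂ * k x) := by
      field_simp
    rw [mul_add, h3, ← hκ]
    linarith
  · intro x hx g2 g3 g4 g5
    have h1 := (UM_pos c hc x (hb x hx)).ne'
    have h2 := hz x hx g2 g3 g4 g5
    have h3 := (baseM_nf c hc x (hb x hx) g2 g3 g4 g5).2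
    simp only
    rw [h2, h3, mul_zero, add_zero]
    field_simp

/-! ### derivatives of the base functions -/

lemma F0_diff (m : ℝ) (b : V) (h : hm m b.2.1 ≠ 0) : DifferentiableAt ℝ (F0 m) b := by
  unfold F0
  unfold hm at h ⊢
  fun_prop (disch := exact h)

lemma F1_diff (m : ℝ) (b : V) (h : hm m b.2.1 ≠ 0) : DifferentiableAt ℝ (F1 m) b := by
  unfold F1
  unfold hm at h
  unfold hm bm
  fun_prop (disch := exact h)

lemma F2_diff (m : ℝ) (b : V) (h : hm m b.2.1 ≠ 0) : DifferentiableAt ℝ (F2 m) b := by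
  unfold F2
  unfold hm at h
  unfold hm bm
  fun_prop (disch := exact h)

lemma F0_fd (m : ℝ) (b u : V) (h : hm m b.2.1 ≠ 0) : fderiv ℝ (F0 m) b u =
    ((u.1 * b.2.2 + b.1 * u.2.2) * hm m b.2.1 - b.1 * b.2.2 * (2 * bm m b.2.1 * u.2.1)) /
      hm m b.2.1 ^ 2 := by
  refine fd_of _ _ _ _ (F0_diff m b h) ?_
  have h' : 2 * (b.2.1 + 0 * u.2.1) - m * (b.2.1 + 0 * u.2.1) ^ 2 ≠ 0 := by
    simpa [hm] using h
  have h2 := ((g_lin b.1 u.1).fun_mul (g_lin b.2.2 u.2.2)).fun_div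
    (((g_lin b.2.1 u.2.1).const_mul 2).fun_sub (((g_lin b.2.1 u.2.1).fun_pow 2).const_mul m)) h'
  refine HasDerivAt.congr_deriv h2 ?_
  unfold hm bm
  simp
  ring

lemma F1_fd (m : ℝ) (b u : V) (h : hm m b.2.1 ≠ 0) : fderiv ℝ (F1 m) b u =
    ((-(m * u.2.1 * b.1) + bm m b.2.1 * u.1) * hm m b.2.1 -
      bm m b.2.1 * b.1 * (2 * bm m b.2.1 * u.2.1)) / hm m b.2.1 ^ 2 := by
  refine fd_of _ _ _ _ (F1_diff m b h) ?_
  have h' : 2 * (b.2.1 + 0 * u.2.1) - m * (b.2.1 + 0 * u.2.1) ^ 2 ≠ 0 := by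
    simpa [hm] using h
  have h2 := ((((g_lin b.2.1 u.2.1).const_mul m).const_sub 1).fun_mul (g_lin b.1 u.1)).fun_div
    (((g_lin b.2.1 u.2.1).const_mul 2).fun_sub (((g_lin b.2.1 u.2.1).fun_pow 2).const_mul m)) h'
  refine HasDerivAt.congr_deriv h2 ?_
  unfold hm bm
  simp
  ring

lemma F2_fd (m : ℝ) (b u : V) (h : hm m b.2.1 ≠ 0) : fderiv ℝ (F2 m) b u =
    ((-(m * u.2.1 * b.2.2) + bm m b.2.1 * u.2.2) * hm m b.2.1 -
      bm m b.2.1 * b.2.2 * (2 * bm m b.2.1 * u.2.1)) / hm m b.2.1 ^ 2 := by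
  refine fd_of _ _ _ _ (F2_diff m b h) ?_
  have h' : 2 * (b.2.1 + 0 * u.2.1) - m * (b.2.1 + 0 * u.2.1) ^ 2 ≠ 0 := by
    simpa [hm] using h
  have h2 := ((((g_lin b.2.1 u.2.1).const_mul m).const_sub 1).fun_mul (g_lin b.2.2 u.2.2)).fun_div
    (((g_lin b.2.1 u.2.1).const_mul 2).fun_sub (((g_lin b.2.1 u.2.1).fun_pow 2).const_mul m)) h'
  refine HasDerivAt.congr_deriv h2 ?_
  unfold hm bm
  simp
  ring

/-- The three gradients are independent. -/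
lemma F_indep (m : ℝ) (b u : V) (h : hm m b.2.1 ≠ 0) (h1 : b.1 ≠ 0) (h2 : bm m b.2.1 ≠ 0)
    (h3 : b.2.2 ≠ 0) (k0 : fderiv ℝ (F0 m) b u = 0) (k1 : fderiv ℝ (F1 m) b u = 0)
    (k2 : fderiv ℝ (F2 m) b u = 0) : u = 0 := by
  rw [F0_fd m b u h, div_eq_zero_iff] at k0
  rw [F1_fd m b u h, div_eq_zero_iff] at k1
  rw [F2_fd m b u h, div_eq_zero_iff] at k2
  have e0 := k0.resolve_right (pow_ne_zero 2 h)
  have e1 := k1.resolve_right (pow_ne_zero 2 h)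
  have e2 := k2.resolve_right (pow_ne_zero 2 h)
  have hh := hm_bmI m b.2.1
  have k3 : b.1 * b.2.2 * u.2.1 * 2 = 0 := by
    linear_combination bm m b.2.1 * e0 - b.2.2 * e1 - b.1 * e2 - b.1 * b.2.2 * u.2.1 * 2 * hh
  have k4 : u.2.1 = 0 := by
    have h5 : b.1 * b.2.2 ≠ 0 := mul_ne_zero h1 h3
    rcases mul_eq_zero.1 k3 with k | k
    · exact (mul_eq_zero.1 k).resolve_left h5
    · norm_num at k
  rw [k4] at e1 e2
  have k5 : u.1 = 0 := by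
    have : bm m b.2.1 * hm m b.2.1 * u.1 = 0 := by linear_combination e1
    exact (mul_eq_zero.1 this).resolve_left (mul_ne_zero h2 h)
  have k6 : u.2.2 = 0 := by
    have : bm m b.2.1 * hm m b.2.1 * u.2.2 = 0 := by linear_combination e2
    exact (mul_eq_zero.1 this).resolve_left (mul_ne_zero h2 h)
  exact Prod.ext k5 (Prod.ext k4 k6)

end Pool.Agent.SDT.N1M

end -- N1M.I2

section -- N1M.P3g

/-!
N1M, block M3 (type N'): values of the functions at the base parameters.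
-/

namespace Pool.Agent.SDT.N1M

open MeasureTheory Set Metric Filter Pool.Agent.SDT.MP_6cbfb8_an Pool.Agent.SDT.MST Pool.Agent.SDT.N1
open Pool.Agent.SDT.N1F
open scoped ENNReal Real ContDiff Topology

lemma sgQ_bp (m0 k0 : ℝ) (a : V) : sgQ (bp m0 k0, a) = wP a := by
  unfold sgQ sB bp wP
  simp
  ring

lemma lQ_bp (m0 k0 : ℝ) (a : V) : lQ (bp m0 k0, a) = lP a := by
  unfold lQ lB bp lP
  simp

lemma omQ_bp (c m0 k0 : ℝ) (b : V) (hb : bm m0 b.2.1 ≠ 0) : omQ c (bp m0 k0, b) = oP m0 b := by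
  have : omQ c (bp m0 k0, b) = oB c m0 0 0 0 b.1 b.2.1 b.2.2 := rfl
  rw [this]
  unfold oB oP
  rw [WB_base]
  simp only [zero_mul, zero_div, sub_zero]
  field_simp
  ring

lemma mQ_bp (c : ℝ) (hc : 0 < c) (m0 k0 : ℝ) (b : V) (hb : bm m0 b.2.1 ≠ 0)
    (hh : c ^ 2 / 8 ≤ hm m0 b.2.1) (hZ : b.2.2 ≠ 0) : mQ c (bp m0 k0, b) = mP m0 b := by
  have : mQ c (bp m0 k0, b) = mB c m0 0 b.2.1 b.2.2 := rfl
  rw [this]
  unfold mB mP
  obtain ⟨-, h1, h2⟩ := Sq_base c hc m0 b.2.1 hh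
  rw [EB0_base c hc m0 _ hh hb, zero_mul, sub_zero, qB_base c hc m0 _ hh]
  nth_rewrite 3 [← h2]
  field_simp

/-- `ρ = γ = 0`. -/
lemma PsB_rg (c : ℝ) (hc : 0 < c) (m B κ y b z Y r Z : ℝ) (h : c ^ 2 / 8 ≤ hm m r - B * b ^ 2)
    (h' : c ^ 2 / 8 ≤ hm m r) (hb : bm m r ≠ 0) (hZ : Z ≠ 0) (hu : 1 - m * (B * b ^ 2) ≠ 0) :
    PsB c m B 0 0 κ y b z Y r Z =
      B * (2 * b ^ 2 / (Z * bm m r * (1 - m * (B * b ^ 2)))) := by
  obtain ⟨p1, s1⟩ := qB_sq c hc m B r b h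
  obtain ⟨-, p2, s2⟩ := Sq_base c hc m r h'
  have hR : RB c m B 0 r Z b = bm m r / qB c m B r b := by
    unfold RB
    simp only [zero_mul, zero_div, sub_zero]
    field_simp
    ring
  have hmR : m + RB c m B 0 r Z b ^ 2 = (1 - m * (B * b ^ 2)) / qB c m B r b ^ 2 := by
    rw [hR, div_pow, hm_bm, s1]
    have : hm m r - B * b ^ 2 ≠ 0 := by rw [← s1]; positivity
    field_simp
    ring
  have hN : NB c m B 0 0 y b Y r Z = qB c m B r b ^ 4 / (1 - m * (B * b ^ 2)) := by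
    unfold NB
    simp only [zero_mul, mul_zero, sub_zero]
    rw [hmR]
    generalize 1 - m * (B * b ^ 2) = u at *
    field_simp
    ring
  have hE : EB c m B 0 0 y b Y r Z =
      Z * bm m r * (1 - m * (B * b ^ 2)) / (2 * qB c m B r b ^ 3) := by
    unfold EB
    rw [hN, WB_base]
    simp only [zero_mul, mul_zero, sub_zero]
    rw [hR]
    generalize 1 - m * (B * b ^ 2) = u at *
    field_simp
    ring
  have hD : D1B c m B 0 κ b z r Z = 2 * qB c m B r b := by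
    unfold D1B
    simp only [zero_mul, mul_zero, sub_zero]
    ring
  have hM : mB c m 0 r Z = -2 * (hm m r / (Z * bm m r)) := by
    unfold mB
    rw [EB0_base c hc m _ h' hb, zero_mul, sub_zero, qB_base c hc m _ h']
    nth_rewrite 3 [← s2]
    field_simp
  unfold PsB
  rw [hE, hD, hM]
  have e1 : -2 / (2 * qB c m B r b * (Z * bm m r * (1 - m * (B * b ^ 2)) /
      (2 * qB c m B r b ^ 3))) = -2 * qB c m B r b ^ 2 / (Z * bm m r * (1 - m * (B * b ^ 2))) := by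
    generalize 1 - m * (B * b ^ 2) = u at *
    field_simp
  rw [e1, s1]
  generalize 1 - m * (B * b ^ 2) = u at *
  field_simp
  ring

section base

variable (c : ℝ) (hc : 0 < c) (hc1 : c ≤ 1) (m0 k0 : ℝ) (a0 b0 : V)
  (hh : 1 / 4 ≤ hm m0 b0.2.1) (hb : 1 / 2 ≤ bm m0 b0.2.1) (hZ : b0.2.2 ≠ 0)

include hc hc1 hh hb hZ in
lemma near_b : ∀ᶠ b in 𝓝 b0, c ^ 2 / 8 < hm m0 b.2.1 ∧ bm m0 b.2.1 ≠ 0 ∧ b.2.2 ≠ 0 := by
  have h1 : ContinuousAt (fun b : V => hm m0 b.2.1) b0 := by unfold hm; fun_prop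
  have h2 : ContinuousAt (fun b : V => bm m0 b.2.1) b0 := by unfold bm; fun_prop
  have h3 : ContinuousAt (fun b : V => b.2.2) b0 := by fun_prop
  have h4 : c ^ 2 / 8 < hm m0 b0.2.1 := by nlinarith
  have h5 : bm m0 b0.2.1 ≠ 0 := by linarith
  filter_upwards [h1.eventually (lt_mem_nhds h4), h2.eventually_ne h5, h3.eventually_ne hZ]
    with b g1 g2 g3
  exact ⟨g1, g2, g3⟩

include hc hc1 hh hb hZ in
lemma G1_bp (G1 : P6 × V × V → ℝ) (hG : SmN G1 (bp m0 k0, a0, b0))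
    (hE : ∀ᶠ x in 𝓝 (bp m0 k0, a0, b0), PsQ c x = x.1.1 * G1 x) :
    ∀ᶠ q : V × V in 𝓝 (a0, b0), G1 (bp m0 k0, q.1, q.2) =
      2 * q.1.2.1 ^ 2 / (q.2.2.2 * bm m0 q.2.2.1) := by
  have hc0 : ContinuousAt (fun q : V × V => (bp m0 k0, q.1, q.2)) (a0, b0) := by fun_prop
  have e1 := hc0.eventually hE.eventually_nhds
  have e2 := hc0.eventually hG
  have e3 : ∀ᶠ q : V × V in 𝓝 (a0, b0), c ^ 2 / 8 < hm m0 q.2.2.1 ∧ bm m0 q.2.2.1 ≠ 0 ∧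
      q.2.2.2 ≠ 0 :=
    (continuous_snd.continuousAt (x := (a0, b0))).eventually
      (near_b c hc hc1 m0 b0 hh hb hZ)
  filter_upwards [e1, e2, e3] with q h1 h2 h3
  obtain ⟨h3, h4, h5⟩ := h3
  have hl : ContinuousAt (fun t : ℝ => (((t, m0, (0:ℝ), (0:ℝ), k0, (0:ℝ)) : P6), q.1, q.2)) 0 := by
    fun_prop
  have key := g_ext (f := fun t : ℝ => G1 ((t, m0, 0, 0, k0, 0), q.1, q.2))
    (g := fun t : ℝ => 2 * q.1.2.1 ^ 2 / (q.2.2.2 * bm m0 q.2.2.1 *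
      (1 - m0 * (t * q.1.2.1 ^ 2)))) ?_ ?_ ?_
  · simp only [zero_mul, mul_zero, sub_zero, mul_one] at key
    exact key
  · exact ContinuousAt.comp_of_eq h2.continuousAt hl rfl
  · refine ContinuousAt.div (by fun_prop) (by fun_prop) ?_
    simp only [zero_mul, mul_zero, sub_zero, mul_one]
    exact mul_ne_zero h5 h4
  · have e4 : ∀ᶠ t : ℝ in 𝓝 0, PsQ c ((t, m0, 0, 0, k0, 0), q.1, q.2) =
        t * G1 ((t, m0, 0, 0, k0, 0), q.1, q.2) := hl.eventually h1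
    have e5 : ∀ᶠ t : ℝ in 𝓝 0, c ^ 2 / 8 < hm m0 q.2.2.1 - t * q.1.2.1 ^ 2 := by
      have : ContinuousAt (fun t : ℝ => hm m0 q.2.2.1 - t * q.1.2.1 ^ 2) 0 := by fun_prop
      exact this.eventually (lt_mem_nhds (by simpa using h3))
    have e6 : ∀ᶠ t : ℝ in 𝓝 0, 1 - m0 * (t * q.1.2.1 ^ 2) ≠ 0 := by
      have : ContinuousAt (fun t : ℝ => 1 - m0 * (t * q.1.2.1 ^ 2)) 0 := by fun_prop
      exact this.eventually_ne (by simp)
    filter_upwards [nhdsWithin_le_nhds e4, nhdsWithin_le_nhds e5, nhdsWithin_le_nhds e6,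
      self_mem_nhdsWithin] with t g1 g2 g3 g4
    have g5 : PsQ c ((t, m0, 0, 0, k0, 0), q.1, q.2) =
      t * (2 * q.1.2.1 ^ 2 / (q.2.2.2 * bm m0 q.2.2.1 * (1 - m0 * (t * q.1.2.1 ^ 2)))) :=
      PsB_rg c hc m0 t k0 q.1.1 q.1.2.1 q.1.2.2 q.2.1 q.2.2.1 q.2.2.2 g2.le h3.le h4 h5 g3
    rw [g5] at g1
    have g6 : t ≠ 0 := g4
    exact (mul_left_cancel₀ g6 g1).symm

/-- The function `g`. -/
noncomputable def gQ (c : ℝ) (G1 : P6 × V × V → ℝ) (x : P6 × V × V) : ℝ :=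
  -(x.2.1.2.2 * (2 * (x.2.1.2.1 - x.1.2.2.1 * x.2.1.1) - x.1.2.2.2.2.1 * x.1.2.2.2.1 *
    x.2.1.2.2) * JQ c x / EQ c x) + x.2.1.1 * x.2.1.2.2 * G1 x + x.1.2.2.2.2.2 * GQ2 c x

include hc hc1 hh hb hZ in
lemma gQ_bp (G1 : P6 × V × V → ℝ) (hG : SmN G1 (bp m0 k0, a0, b0))
    (hE : ∀ᶠ x in 𝓝 (bp m0 k0, a0, b0), PsQ c x = x.1.1 * G1 x) :
    ∀ᶠ q : V × V in 𝓝 (a0, b0), gQ c G1 (bp m0 k0, q.1, q.2) = xP q.1 * yP q.2 := by
  have e3 : ∀ᶠ q : V × V in 𝓝 (a0, b0), c ^ 2 / 8 < hm m0 q.2.2.1 ∧ bm m0 q.2.2.1 ≠ 0 ∧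
      q.2.2.2 ≠ 0 :=
    (continuous_snd.continuousAt (x := (a0, b0))).eventually
      (near_b c hc hc1 m0 b0 hh hb hZ)
  filter_upwards [G1_bp c hc hc1 m0 k0 a0 b0 hh hb hZ G1 hG hE, e3] with q h1 h2
  obtain ⟨h3, h4, h5⟩ := h2
  obtain ⟨-, p2, s2⟩ := Sq_base c hc m0 q.2.2.1 h3.le
  unfold gQ
  rw [h1]
  have hE' : EQ c (bp m0 k0, q.1, q.2) = q.2.2.2 * bm m0 q.2.2.1 /
      (2 * √(hm m0 q.2.2.1) ^ 3) := EB_base c hc m0 _ h3.le h4 _ _ _ _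
  have hJ' : JQ c (bp m0 k0, q.1, q.2) = (q.1.1 * q.1.2.1 - q.2.1 * bm m0 q.2.2.1) /
      (2 * √(hm m0 q.2.2.1) ^ 3) := by
    have : JQ c (bp m0 k0, q.1, q.2) = JB c m0 0 0 0 k0 q.1.1 q.1.2.1 q.1.2.2 q.2.1 q.2.2.1
      q.2.2.2 := rfl
    rw [this]
    unfold JB
    rw [D1B_base c hc m0 _ h3.le, D2B_base c hc m0 _ h3.le, D3B_base c hc m0 _ h3.le,
      D4B_base c hc m0 _ h3.le]
    simp only [zero_mul, mul_zero, sub_zero]
    field_simp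
    ring
  rw [hE', hJ']
  unfold bp xP yP
  simp only [zero_mul, mul_zero, sub_zero, add_zero]
  field_simp
  ring

end base

end Pool.Agent.SDT.N1M

end -- N1M.P3g
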