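import Pool.Agent.SDT.B23
import Pool.Agent.SDT.B31
import Pool.Agent.SDT.B36

set_option autoImplicit false

namespace Pool.Agent.SDT.MP_6cbfb8_an
end Pool.Agent.SDT.MP_6cbfb8_an
namespace Pool.Agent.SDT.MST
end Pool.Agent.SDT.MST
namespace Pool.Agent.SDT.N1
end Pool.Agent.SDT.N1
namespace Pool.Agent.SDT.N1F
end Pool.Agent.SDT.N1F
namespace Pool.Agent.SDT.N1G
end Pool.Agent.SDT.N1G
namespace Pool.Agent.SDT.N1M
end Pool.Agent.SDT.N1M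

section -- N1.GP

/-!
N1, block G: Proposition D, definitions and smoothness.
-/

namespace Pool.Agent.SDT.N1

open MeasureTheory Set Metric Pool.Agent.SDT.MP_6cbfb8_an Pool.Agent.SDT.MST
open scoped ENNReal Real ContDiff Topology

/-- Parameters `(ρ, γ, κ, ε)`. -/
abbrev P4 : Type := ℝ × ℝ × ℝ × ℝ

noncomputable def aD (p : P4) (a : V) : V := (a.1, a.2.1 - p.2.1 * a.2.2 / 2, a.2.2)
noncomputable def bD (p : P4) (b : V) : V :=
  (b.1, b.2.1 - p.2.1 * (p.2.2.1 * b.2.2) / 2, p.2.2.1 * b.2.2)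

/-- The point at which the divided phase is evaluated. -/
noncomputable def ptD (x : P4 × V × V) : ℝ × (ℝ × V × V) :=
  (x.1.2.1, (x.1.1, (aD x.1 x.2.1, bD x.1 x.2.2)))

noncomputable def el1 (c : ℝ) (x : P4 × V × V) : ℝ :=
  el c x.1.1 (aD x.1 x.2.1).1 (aD x.1 x.2.1).2.1 (bD x.1 x.2.2).1 (bD x.1 x.2.2).2.1

noncomputable def el2 (c : ℝ) (x : P4 × V × V) : ℝ :=
  el c x.1.1 (bD x.1 x.2.2).1 (bD x.1 x.2.2).2.1 (aD x.1 x.2.1).1 (aD x.1 x.2.1).2.1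

noncomputable def wD (x : P4 × V) : ℝ := om x.1.1 (aD x.1 x.2).1 (aD x.1 x.2).2.1
noncomputable def sD (x : P4 × V) : ℝ := sg x.1.1 (bD x.1 x.2).1 (bD x.1 x.2).2.1

/-- The function `N'`. -/
noncomputable def Nd (x : P4 × V × V) : ℝ :=
  om x.1.1 (bD x.1 x.2.2).1 (bD x.1 x.2.2).2.1 - sg x.1.1 (aD x.1 x.2.1).1 (aD x.1 x.2.1).2.1

noncomputable def ED (c : ℝ) (x : P4 × V × V) : ℝ := -(x.2.1.2.2 * el1 c x)

noncomputable def gD (c : ℝ) (k : ℝ × (ℝ × V × V) → ℝ) (x : P4 × V × V) : ℝ :=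
  x.2.2.2.2 * (el2 c x * Nd x) / (x.2.1.2.2 * el1 c x) -
    x.1.2.2.2 * k (ptD x) / (x.2.1.2.2 * el1 c x)

/-- Good points in case (D). -/
def okD (c : ℝ) (x : P4 × V × V) : Prop :=
  Gd c x.1.1 (aD x.1 x.2.1) (bD x.1 x.2.2) ∧ x.2.1.2.2 ≠ 0

lemma okD_ev (c : ℝ) (x : P4 × V × V) (h : okD c x) : ∀ᶠ y in 𝓝 x, okD c y := by
  obtain ⟨⟨h1, h2, h3, h4, h5, h6⟩, h7⟩ := h
  simp only [aD, bD] at h1 h2 h3 h4 h5 h6
  have e1 : ∀ᶠ y : P4 × V × V in 𝓝 x, 0 < y.2.1.2.1 - y.1.2.1 * y.2.1.2.2 / 2 :=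
    (by fun_prop : ContinuousAt (fun y : P4 × V × V => y.2.1.2.1 - y.1.2.1 * y.2.1.2.2 / 2)
      x).eventually (lt_mem_nhds h1)
  have e2 : ∀ᶠ y : P4 × V × V in 𝓝 x, 0 < y.2.1.2.1 - y.1.2.1 * y.2.1.2.2 / 2 -
      y.1.1 * y.2.1.1 :=
    (by fun_prop : ContinuousAt (fun y : P4 × V × V => y.2.1.2.1 - y.1.2.1 * y.2.1.2.2 / 2 -
      y.1.1 * y.2.1.1) x).eventually (lt_mem_nhds h2)
  have e3 : ∀ᶠ y : P4 × V × V in 𝓝 x, 0 < y.2.2.2.1 - y.1.2.1 * (y.1.2.2.1 * y.2.2.2.2) / 2 :=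
    (by fun_prop : ContinuousAt (fun y : P4 × V × V => y.2.2.2.1 -
      y.1.2.1 * (y.1.2.2.1 * y.2.2.2.2) / 2) x).eventually (lt_mem_nhds h3)
  have e4 : ∀ᶠ y : P4 × V × V in 𝓝 x, 0 < y.2.2.2.1 - y.1.2.1 * (y.1.2.2.1 * y.2.2.2.2) / 2 -
      y.1.1 * y.2.2.1 :=
    (by fun_prop : ContinuousAt (fun y : P4 × V × V => y.2.2.2.1 -
      y.1.2.1 * (y.1.2.2.1 * y.2.2.2.2) / 2 - y.1.1 * y.2.2.1) x).eventually (lt_mem_nhds h4)
  have e5 : ∀ᶠ y : P4 × V × V in 𝓝 x, c ^ 2 / 8 <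
      1 - (y.2.1.2.1 - y.1.2.1 * y.2.1.2.2 / 2) ^ 2 -
        (y.2.2.2.1 - y.1.2.1 * (y.1.2.2.1 * y.2.2.2.2) / 2) ^ 2 :=
    (by fun_prop : ContinuousAt (fun y : P4 × V × V =>
      1 - (y.2.1.2.1 - y.1.2.1 * y.2.1.2.2 / 2) ^ 2 -
        (y.2.2.2.1 - y.1.2.1 * (y.1.2.2.1 * y.2.2.2.2) / 2) ^ 2) x).eventually (lt_mem_nhds h5)
  have e6 : ∀ᶠ y : P4 × V × V in 𝓝 x, c ^ 2 / 8 <
      1 - (y.2.1.2.1 - y.1.2.1 * y.2.1.2.2 / 2 - y.1.1 * y.2.1.1) ^ 2 -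
        (y.2.2.2.1 - y.1.2.1 * (y.1.2.2.1 * y.2.2.2.2) / 2 - y.1.1 * y.2.2.1) ^ 2 :=
    (by fun_prop : ContinuousAt (fun y : P4 × V × V =>
      1 - (y.2.1.2.1 - y.1.2.1 * y.2.1.2.2 / 2 - y.1.1 * y.2.1.1) ^ 2 -
        (y.2.2.2.1 - y.1.2.1 * (y.1.2.2.1 * y.2.2.2.2) / 2 - y.1.1 * y.2.2.1) ^ 2)
      x).eventually (lt_mem_nhds h6)
  have e7 : ∀ᶠ y : P4 × V × V in 𝓝 x, y.2.1.2.2 ≠ 0 :=
    (by fun_prop : ContinuousAt (fun y : P4 × V × V => y.2.1.2.2) x).eventually_ne h7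
  filter_upwards [e1, e2, e3, e4, e5, e6, e7] with y d1 d2 d3 d4 d5 d6 d7
  exact ⟨⟨d1, d2, d3, d4, d5, d6⟩, d7⟩

/-- Smoothness of the coefficient `ℓ`, in any variables. -/
lemma el_smooth {Q : Type*} [NormedAddCommGroup Q] [NormedSpace ℝ Q] (c : ℝ) (hc : 0 < c)
    {f1 f2 f3 f4 f5 : Q → ℝ} (h1 : ContDiff ℝ ∞ f1) (h2 : ContDiff ℝ ∞ f2) (h3 : ContDiff ℝ ∞ f3)
    (h4 : ContDiff ℝ ∞ f4) (h5 : ContDiff ℝ ∞ f5) (x : Q) (g1 : 0 < f3 x)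
    (g2 : 0 < f3 x - f1 x * f2 x) (g5 : c ^ 2 / 8 < 1 - f3 x ^ 2 - f5 x ^ 2)
    (g6 : c ^ 2 / 8 < 1 - (f3 x - f1 x * f2 x) ^ 2 - (f5 x - f1 x * f4 x) ^ 2) :
    ContDiffAt ℝ ∞ (fun x => el c (f1 x) (f2 x) (f3 x) (f4 x) (f5 x)) x ∧
      el c (f1 x) (f2 x) (f3 x) (f4 x) (f5 x) ≠ 0 := by
  have p1 := qf_pos c hc _ _ g5.le
  have p2 := qf_pos c hc _ _ g6.le
  have hc8 : 0 < c ^ 2 / 8 := by positivity
  have hb1 : 0 < 1 - (f5 x - f1 x * f4 x) ^ 2 := by nlinarith [sq_nonneg (f3 x - f1 x * f2 x)]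
  have s1 := qf_comp c hc h3 h5
  have s2 := qf_comp c hc (h3.sub (h1.mul h2)) (h5.sub (h1.mul h4))
  constructor
  · unfold el
    have hn : ContDiffAt ℝ ∞ (fun x => (f3 x - f1 x * f2 x) ^ 2 *
        (1 - (f5 x - f1 x * f4 x) ^ 2)) x := by fun_prop
    have hd : ContDiff ℝ ∞ (fun x => qf c (f3 x) (f5 x) *
        qf c (f3 x - f1 x * f2 x) (f5 x - f1 x * f4 x) *
        (f3 x * qf c (f3 x - f1 x * f2 x) (f5 x - f1 x * f4 x) +
          (f3 x - f1 x * f2 x) * qf c (f3 x) (f5 x))) :=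
      (s1.mul s2).mul ((h3.mul s2).add ((h3.sub (h1.mul h2)).mul s1))
    refine hn.div hd.contDiffAt ?_
    positivity
  · unfold el
    positivity

lemma om_smooth {Q : Type*} [NormedAddCommGroup Q] [NormedSpace ℝ Q]
    {f1 f2 f3 : Q → ℝ} (h1 : ContDiff ℝ ∞ f1) (h2 : ContDiff ℝ ∞ f2) (h3 : ContDiff ℝ ∞ f3)
    (x : Q) (g2 : 0 < f3 x - f1 x * f2 x) :
    ContDiffAt ℝ ∞ (fun x => om (f1 x) (f2 x) (f3 x)) x := by
  have hn : ContDiffAt ℝ ∞ (fun x => f2 x * (2 * f3 x - f1 x * f2 x)) x := by fun_prop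
  have hd : ContDiffAt ℝ ∞ (fun x => (f3 x - f1 x * f2 x) ^ 2) x := by fun_prop
  exact hn.div hd (pow_pos g2 2).ne'

lemma sg_smooth {Q : Type*} [NormedAddCommGroup Q] [NormedSpace ℝ Q]
    {f1 f2 f3 : Q → ℝ} (h1 : ContDiff ℝ ∞ f1) (h2 : ContDiff ℝ ∞ f2) (h3 : ContDiff ℝ ∞ f3)
    (x : Q) (g2 : 0 < 1 - (f3 x - f1 x * f2 x) ^ 2) :
    ContDiffAt ℝ ∞ (fun x => sg (f1 x) (f2 x) (f3 x)) x := by
  have hn : ContDiffAt ℝ ∞ (fun x => f2 x * (2 * f3 x - f1 x * f2 x)) x := by fun_prop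
  have hd : ContDiffAt ℝ ∞ (fun x => 1 - (f3 x - f1 x * f2 x) ^ 2) x := by fun_prop
  exact (hn.div hd g2.ne').neg

lemma el1_smooth (c : ℝ) (hc : 0 < c) (x : P4 × V × V) (h : okD c x) :
    ContDiffAt ℝ ∞ (el1 c) x ∧ el1 c x ≠ 0 := by
  obtain ⟨⟨h1, h2, h3, h4, h5, h6⟩, h7⟩ := h
  exact el_smooth c hc (f1 := fun x : P4 × V × V => x.1.1)
    (f2 := fun x : P4 × V × V => (aD x.1 x.2.1).1) (f3 := fun x : P4 × V × V => (aD x.1 x.2.1).2.1)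
    (f4 := fun x : P4 × V × V => (bD x.1 x.2.2).1) (f5 := fun x : P4 × V × V => (bD x.1 x.2.2).2.1)
    (by fun_prop) (by unfold aD; fun_prop) (by unfold aD; fun_prop) (by unfold bD; fun_prop)
    (by unfold bD; fun_prop) x h1 h2 h5 h6

lemma el2_smooth (c : ℝ) (hc : 0 < c) (x : P4 × V × V) (h : okD c x) :
    ContDiffAt ℝ ∞ (el2 c) x := by
  obtain ⟨⟨h1, h2, h3, h4, h5, h6⟩, h7⟩ := h
  exact (el_smooth c hc (f1 := fun x : P4 × V × V => x.1.1)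
    (f2 := fun x : P4 × V × V => (bD x.1 x.2.2).1) (f3 := fun x : P4 × V × V => (bD x.1 x.2.2).2.1)
    (f4 := fun x : P4 × V × V => (aD x.1 x.2.1).1) (f5 := fun x : P4 × V × V => (aD x.1 x.2.1).2.1)
    (by fun_prop) (by unfold bD; fun_prop) (by unfold bD; fun_prop) (by unfold aD; fun_prop)
    (by unfold aD; fun_prop) x h3 h4 (by linarith) (by linarith)).1

lemma okD_pos (c : ℝ) (hc : 0 < c) (x : P4 × V × V) (h : okD c x) :
    0 < 1 - ((bD x.1 x.2.2).2.1 - x.1.1 * (bD x.1 x.2.2).1) ^ 2 ∧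
      0 < 1 - ((aD x.1 x.2.1).2.1 - x.1.1 * (aD x.1 x.2.1).1) ^ 2 := by
  obtain ⟨⟨h1, h2, h3, h4, h5, h6⟩, h7⟩ := h
  have hc8 : 0 < c ^ 2 / 8 := by positivity
  constructor
  · nlinarith [sq_nonneg ((aD x.1 x.2.1).2.1 - x.1.1 * (aD x.1 x.2.1).1)]
  · nlinarith [sq_nonneg ((bD x.1 x.2.2).2.1 - x.1.1 * (bD x.1 x.2.2).1)]

lemma Nd_smooth (c : ℝ) (hc : 0 < c) (x : P4 × V × V) (h : okD c x) :
    ContDiffAt ℝ ∞ Nd x := by
  have hp := okD_pos c hc x h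
  obtain ⟨⟨h1, h2, h3, h4, h5, h6⟩, h7⟩ := h
  unfold Nd
  exact (om_smooth (f1 := fun x : P4 × V × V => x.1.1)
    (f2 := fun x : P4 × V × V => (bD x.1 x.2.2).1) (f3 := fun x : P4 × V × V => (bD x.1 x.2.2).2.1)
    (by fun_prop) (by unfold bD; fun_prop) (by unfold bD; fun_prop) x h4).sub
    (sg_smooth (f1 := fun x : P4 × V × V => x.1.1)
    (f2 := fun x : P4 × V × V => (aD x.1 x.2.1).1) (f3 := fun x : P4 × V × V => (aD x.1 x.2.1).2.1)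
    (by fun_prop) (by unfold aD; fun_prop) (by unfold aD; fun_prop) x hp.2)

lemma ptD_smooth : ContDiff ℝ ∞ ptD := by
  unfold ptD aD bD
  fun_prop

lemma ED_smooth (c : ℝ) (hc : 0 < c) (x : P4 × V × V) (h : okD c x) :
    ContDiffAt ℝ ∞ (ED c) x ∧ ED c x ≠ 0 := by
  have h1 := el1_smooth c hc x h
  unfold ED
  exact ⟨((by fun_prop : ContDiffAt ℝ ∞ (fun x : P4 × V × V => x.2.1.2.2) x).mul h1.1).neg,
    neg_ne_zero.2 (mul_ne_zero h.2 h1.2)⟩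

lemma gD_smooth (c : ℝ) (hc : 0 < c) (k : ℝ × (ℝ × V × V) → ℝ) (hk : ContDiff ℝ ∞ k)
    (x : P4 × V × V) (h : okD c x) : ContDiffAt ℝ ∞ (gD c k) x := by
  have h1 := el1_smooth c hc x h
  have h2 := el2_smooth c hc x h
  have h3 := Nd_smooth c hc x h
  have h4 : ContDiffAt ℝ ∞ (fun x : P4 × V × V => x.2.1.2.2 * el1 c x) x :=
    (by fun_prop : ContDiffAt ℝ ∞ (fun x : P4 × V × V => x.2.1.2.2) x).mul h1.1
  have h5 : x.2.1.2.2 * el1 c x ≠ 0 := mul_ne_zero h.2 h1.2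
  unfold gD
  refine ContDiffAt.sub (ContDiffAt.div ?_ h4 h5) (ContDiffAt.div ?_ h4 h5)
  · exact (by fun_prop : ContDiffAt ℝ ∞ (fun x : P4 × V × V => x.2.2.2.2) x).mul (h2.mul h3)
  · exact (by fun_prop : ContDiffAt ℝ ∞ (fun x : P4 × V × V => x.1.2.2.2) x).mul
      (hk.comp ptD_smooth).contDiffAt

/-- The factorisation of the divided phase. -/
lemma G_fac (c : ℝ) (hc : 0 < c) (G k : ℝ × (ℝ × V × V) → ℝ) (hG : ContDiff ℝ ∞ G)
    (key : ∀ γ ρ a b, Ph c ρ γ a b = ρ * γ * G (γ, (ρ, a, b)))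
    (hk : ∀ γ ρ a b, G (γ, (ρ, a, b)) = G (0, (ρ, a, b)) + γ ^ 2 * k (γ, (ρ, a, b)))
    (x : P4 × V × V) (h : okD c x) (hp : x.1.2.2.1 * x.1.2.2.2 = x.1.2.1 ^ 2) :
    G (ptD x) = ED c x * (wD (x.1, x.2.1) - sD (x.1, x.2.2) + x.1.2.2.1 * gD c k x) := by
  have h1 := el1_smooth c hc x h
  have h2 := h.2
  unfold ptD
  rw [hk, G_zero c hc G hG key x.1.1 _ _ h.1]
  have e1 := h1.2
  unfold gD ED G0 wD sD Nd ptD
  unfold el1 at e1
  unfold el1 el2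
  set L1 := el c x.1.1 (aD x.1 x.2.1).1 (aD x.1 x.2.1).2.1 (bD x.1 x.2.2).1 (bD x.1 x.2.2).2.1
  set L2 := el c x.1.1 (bD x.1 x.2.2).1 (bD x.1 x.2.2).2.1 (aD x.1 x.2.1).1 (aD x.1 x.2.1).2.1
  set K := k (x.1.2.1, x.1.1, aD x.1 x.2.1, bD x.1 x.2.2)
  rw [← hp]
  have e2 : (aD x.1 x.2.1).2.2 = x.2.1.2.2 := rfl
  have e3 : (bD x.1 x.2.2).2.2 = x.1.2.2.1 * x.2.2.2.2 := rfl
  rw [e2, e3]
  field_simp
  ring

lemma Fr_ScD (c : ℝ) (G : ℝ × (ℝ × V × V) → ℝ)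
    (key : ∀ γ ρ a b, Ph c ρ γ a b = ρ * γ * G (γ, (ρ, a, b))) (ρ γ κ ε : ℝ) (a b : V) :
    Fr c (Sc ρ γ a) (Sc ρ (κ * γ) b) = ρ * γ * G (ptD ((ρ, γ, κ, ε), a, b)) := by
  unfold ptD
  simp only
  rw [← key]
  unfold Ph Sc aD bD
  simp only
  rw [show a.2.1 - γ * a.2.2 / 2 + γ * a.2.2 / 2 = a.2.1 by ring,
    show b.2.1 - γ * (κ * b.2.2) / 2 + γ * (κ * b.2.2) / 2 = b.2.1 by ring,
    show γ * (κ * b.2.2) = κ * γ * b.2.2 by ring]

/-- The limit of `g`. -/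
lemma gD_zero (c : ℝ) (hc : 0 < c) (k : ℝ × (ℝ × V × V) → ℝ) (a b : V) (ha2 : 0 < a.2.1)
    (ha3 : a.2.2 ≠ 0) (hb2 : 0 < b.2.1) (h : c ^ 2 / 8 < 1 - a.2.1 ^ 2 - b.2.1 ^ 2) :
    gD c k (((0, 0, 0, 0) : P4), a, b) = (0 + 0 + dX1 a * dY1 b + dX2 a * dY2 b) := by
  have p1 := qf_pos c hc _ _ h.le
  have hc8 : 0 < c ^ 2 / 8 := by positivity
  have n1 : 1 - b.2.1 ^ 2 ≠ 0 := by nlinarith [sq_nonneg a.2.1]
  have n2 : 1 - a.2.1 ^ 2 ≠ 0 := by nlinarith [sq_nonneg b.2.1]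
  have ha2' := ha2.ne'
  have hb2' := hb2.ne'
  unfold gD el1 el2 Nd el om sg dX1 dX2 dY1 dY2 aD bD
  simp only [zero_mul, sub_zero, zero_div, zero_add, mul_zero]
  rw [qf_comm c b.2.1 a.2.1]
  set Q := qf c a.2.1 b.2.1 with hQ
  field_simp
  ring

end Pool.Agent.SDT.N1

end -- N1.GP

section -- N1G.Ca1

/-!
N1G, block C1, assembly, part 1: tools for the forms of a point phase.
-/

namespace Pool.Agent.SDT.N1G

open MeasureTheory Set Metric Pool.Agent.SDT.MP_6cbfb8_an Pool.Agent.SDT.MST Pool.Agent.SDT.N1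
open scoped ENNReal Real ContDiff

/-- Point phases and amplitudes. -/
structure PD (B R : ℝ) (q w : ℝ × ℝ → ℝ) : Prop where
  mq : Measurable q
  mw : Measurable w
  bw : ∀ x, |w x| ≤ B
  sw : ∀ x, w x ≠ 0 → ‖x‖ ≤ R

theorem PD.adm {B R : ℝ} {q w : ℝ × ℝ → ℝ} (h : PD B R q w) :
    Adm (B * B) (2 * R) (dif q) (dam w) := f3g_adm B R q w h.mq h.mw h.bw h.sw

theorem ca_smul (φ w : YX → ℝ) (T : ℝ) (z : ℂ) (M : V × V → ℂ) :
    FFg φ w T (fun q => z * M q) = z * FFg φ w T M := by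
  unfold FFg
  rw [← integral_const_mul]
  simp only [mul_assoc]

theorem ca_Wg_ne {w : ℝ × ℝ → ℝ} {q : V × V} (h : Wg (dam w) q ≠ 0) :
    w (q.1.2.1, q.2.2.1) ≠ 0 ∧ w (q.1.2.1 - q.1.1, q.2.2.1 - q.2.1) ≠ 0 ∧
      w (q.1.2.1 - q.1.2.2, q.2.2.1 - q.2.2.2) ≠ 0 ∧
      w (q.1.2.1 - q.1.2.2 - q.1.1, q.2.2.1 - q.2.2.2 - q.2.1) ≠ 0 := by
  unfold Wg dam px pz at h
  simp only [Prod.mk_sub_mk] at h
  have h1 := left_ne_zero_of_mul h
  have h2 := right_ne_zero_of_mul h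
  exact ⟨left_ne_zero_of_mul h1, right_ne_zero_of_mul h1, left_ne_zero_of_mul h2,
    right_ne_zero_of_mul h2⟩

/-- absolute estimate on a box -/
theorem ca_abs (B R : ℝ) (hR : 0 ≤ R) : ∃ C : ℝ, 0 ≤ C ∧ ∀ g w : ℝ × ℝ → ℝ,
    PD B R g w → ∀ T : ℝ, 0 < T → ∀ (M : V × V → ℂ)
    (e d f0 : ℝ), Measurable M → (∀ q, ‖M q‖ ≤ 1) → 0 ≤ e → 0 ≤ d → 0 ≤ f0 →
    (∀ q, M q ≠ 0 → Wg (dam w) q ≠ 0 → |q.1.1| ≤ e ∧ |q.2.1| ≤ e ∧ |q.1.2.2| ≤ d ∧
      |q.2.2.2| ≤ d ∧ f0 ≤ |Fg (dif g) q|) →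
    ‖FFg (dif g) (dam w) T M‖ ≤ C * T * (e ^ 2 * d ^ 2) / (1 + T * f0) ^ 3 := by
  obtain ⟨C, hC, h⟩ := FFg_abs (B * B) (mul_self_nonneg B)
  refine ⟨64 * R ^ 2 * C, by positivity, ?_⟩
  intro g w hpd T hT M e d f0 hM hM1 he hd hf0 hs
  have h1 := h (2 * R) (dif g) (dam w) hpd.adm T hT M
    {q : V × V | |q.1.1| ≤ e ∧ |q.2.1| ≤ e ∧ |q.1.2.2| ≤ d ∧ |q.2.2.2| ≤ d ∧
    |q.1.2.1| ≤ R ∧ |q.2.2.1| ≤ R ∧ f0 ≤ |Fg (dif g) q|} f0 (64 * R ^ 2 * (e ^ 2 * d ^ 2)) hM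
    hM1 ?_ (by positivity) ?_ hf0 ?_
  · refine h1.trans (le_of_eq ?_)
    ring
  · intro q hq hW
    obtain ⟨h2, h3, h4, h5, h6⟩ := hs q hq hW
    have h7 := hpd.sw _ (ca_Wg_ne hW).1
    rw [Prod.norm_def, max_le_iff, Real.norm_eq_abs, Real.norm_eq_abs] at h7
    exact ⟨h2, h3, h4, h5, h7.1, h7.2, h6⟩
  · have h2 : {q : V × V | |q.1.1| ≤ e ∧ |q.2.1| ≤ e ∧ |q.1.2.2| ≤ d ∧ |q.2.2.2| ≤ d ∧
        |q.1.2.1| ≤ R ∧ |q.2.2.1| ≤ R ∧ f0 ≤ |Fg (dif g) q|} ⊆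
        (Icc (-e) e ×ˢ Icc (-R) R ×ˢ Icc (-d) d) ×ˢ
          (Icc (-e) e ×ˢ Icc (-R) R ×ˢ Icc (-d) d) := by
      rintro q ⟨h2, h3, h4, h5, h6, h7, -⟩
      exact ⟨⟨abs_le.1 h2, abs_le.1 h6, abs_le.1 h4⟩, abs_le.1 h3, abs_le.1 h7, abs_le.1 h5⟩
    refine (measure_mono h2).trans (le_of_eq ?_)
    have hRd : 0 ≤ (R - -R) * (d - -d) := by
      have : (R - -R) * (d - -d) = 4 * (R * d) := by ring
      rw [this]
      positivity
    rw [Measure.volume_eq_prod, Measure.prod_prod, Measure.volume_eq_prod, Measure.prod_prod,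
      Measure.volume_eq_prod, Measure.prod_prod, Real.volume_Icc, Real.volume_Icc,
      Real.volume_Icc, ← ENNReal.ofReal_mul (by linarith), ← ENNReal.ofReal_mul (by linarith),
      ← ENNReal.ofReal_mul (mul_nonneg (by linarith) hRd)]
    congr 1
    ring
  · rintro q ⟨-, -, -, -, -, -, h2⟩
    exact h2

/-- Splitting by the partition of unity in a pair of coordinates. -/
theorem ca_part {B R : ℝ} {φ w : YX → ℝ} (hA : Adm B R φ w) (T : ℝ) (hT : 0 < T) (k0 J : ℕ) (hk : 1 ≤ k0) (hJ : k0 ≤ J)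
    (Y : V × V → ℝ × ℝ) (hY : Measurable Y) (M : V × V → ℂ) (hM : Measurable M)
    (hM1 : ∀ q, ‖M q‖ ≤ 1) (hMs : ∀ q, M q ≠ 0 → |(Y q).1| ≤ 1 ∧ |(Y q).2| ≤ 1)
    (K1 K2 K3 : ℝ) (hK1 : 0 ≤ K1) (hK2 : 0 ≤ K2)
    (h1 : ∀ j k : ℕ, j < k + k0 → k < j + k0 →
      ‖FFg φ w T (fun q => ((uj j (Y q).1 * uj k (Y q).2 : ℝ) : ℂ) * M q)‖ ≤ K1)
    (h2 : ∀ j : ℕ, ‖FFg φ w T (fun q =>
      ((uj j (Y q).1 * th (2 ^ (j + k0) * (Y q).2) : ℝ) : ℂ) * M q)‖ ≤ K2)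
    (h3 : ∀ k : ℕ, ‖FFg φ w T (fun q =>
      ((th (2 ^ (k + k0) * (Y q).1) * uj k (Y q).2 : ℝ) : ℂ) * M q)‖ ≤ K2)
    (h4 : ∀ rest : ℝ × ℝ → ℝ, Measurable rest → (∀ y, |rest y| ≤ 4 * (k0 : ℝ) + 4) →
      (∀ y, rest y ≠ 0 → (|y.1| ≤ 2 ^ (k0 + 2) / 2 ^ J ∧ |y.2| ≤ 2 ^ (k0 + 2) / 2 ^ J)) →
      ‖FFg φ w T (fun q => ((rest (Y q) : ℝ) : ℂ) * M q)‖ ≤ K3) :
    ‖FFg φ w T M‖ ≤ (J : ℝ) ^ 2 * K1 + 2 * J * K2 + K3 := by
  classical
  obtain ⟨rest, hr1, hr2, hr3, hr4⟩ := part2 k0 J hk hJ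
  set a := J - k0 + 1 with ha
  have haJ : a ≤ J := by omega
  let F : (ℕ × ℕ) ⊕ (ℕ ⊕ (ℕ ⊕ Unit)) → V × V → ℂ :=
    Sum.elim (fun p q => if p.1 < p.2 + k0 ∧ p.2 < p.1 + k0 then
        ((uj p.1 (Y q).1 * uj p.2 (Y q).2 : ℝ) : ℂ) * M q else 0)
      (Sum.elim (fun j q => ((uj j (Y q).1 * th (2 ^ (j + k0) * (Y q).2) : ℝ) : ℂ) * M q)
        (Sum.elim (fun k q => ((th (2 ^ (k + k0) * (Y q).1) * uj k (Y q).2 : ℝ) : ℂ) * M q)
          (fun _ q => ((rest (Y q) : ℝ) : ℂ) * M q)))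
  let s : Finset ((ℕ × ℕ) ⊕ (ℕ ⊕ (ℕ ⊕ Unit))) :=
    (Finset.range J ×ˢ Finset.range J).disjSum
      ((Finset.range a).disjSum ((Finset.range a).disjSum {()}))
  have hY1 : Measurable fun q => (Y q).1 := measurable_fst.comp hY
  have hY2 : Measurable fun q => (Y q).2 := measurable_snd.comp hY
  have hsum : (fun q => ∑ i ∈ s, F i q) = M := by
    funext q
    by_cases hq : M q = 0
    · rw [hq]
      refine Finset.sum_eq_zero ?_
      rintro (p | j | k | u) - <;> simp [F, hq]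
    · have h5 := hr4 (Y q) (hMs q hq).1 (hMs q hq).2
      simp only [s, Finset.sum_disjSum, Finset.sum_singleton, F, Sum.elim_inl, Sum.elim_inr,
        Finset.sum_product]
      have h6 : (1 : ℂ) * M q = M q := one_mul _
      rw [← Complex.ofReal_one, ← h5] at h6
      refine Eq.trans ?_ h6
      push_cast
      rw [add_mul, add_mul, add_mul, Finset.sum_mul, Finset.sum_mul, Finset.sum_mul]
      simp only [Finset.sum_mul]
      rw [← add_assoc, ← add_assoc]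
      congr 3
      refine Finset.sum_congr rfl fun j _ => Finset.sum_congr rfl fun k _ => ?_
      split_ifs <;> push_cast <;> ring
  have hth : ∀ x, |th x| ≤ 1 := fun x => by
    rw [abs_of_nonneg (th_nonneg x)]
    exact th_le_one x
  have hF : ∀ i, Measurable (F i) := by
    rintro (p | j | k | u)
    · show Measurable fun q => if p.1 < p.2 + k0 ∧ p.2 < p.1 + k0 then
        ((uj p.1 (Y q).1 * uj p.2 (Y q).2 : ℝ) : ℂ) * M q else 0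
      split_ifs
      · exact (Complex.measurable_ofReal.comp (((measurable_uj _).comp hY1).mul
          ((measurable_uj _).comp hY2))).mul hM
      · exact measurable_const
    · exact (Complex.measurable_ofReal.comp (((measurable_uj _).comp hY1).mul
          (measurable_th.comp (hY2.const_mul _)))).mul hM
    · exact (Complex.measurable_ofReal.comp ((measurable_th.comp (hY1.const_mul _)).mul
          ((measurable_uj _).comp hY2))).mul hM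
    · exact (Complex.measurable_ofReal.comp (hr1.comp hY)).mul hM
  have hB1 : (1 : ℝ) ≤ 4 * (k0 : ℝ) + 4 := by
    have : (0 : ℝ) ≤ k0 := by positivity
    linarith
  have hB : ∀ i q, ‖F i q‖ ≤ 4 * (k0 : ℝ) + 4 := by
    have hb : ∀ (x y : ℝ) (z : ℂ), |x| ≤ 1 → |y| ≤ 1 → ‖z‖ ≤ 1 →
        ‖((x * y : ℝ) : ℂ) * z‖ ≤ 4 * (k0 : ℝ) + 4 := by
      intro x y z hx hy hz
      refine le_trans ?_ hB1
      rw [norm_mul, Complex.norm_real, Real.norm_eq_abs, abs_mul]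
      exact mul_le_one₀ (mul_le_one₀ hx (abs_nonneg _) hy) (norm_nonneg _) hz
    rintro (p | j | k | u) q
    · show ‖if p.1 < p.2 + k0 ∧ p.2 < p.1 + k0 then
        ((uj p.1 (Y q).1 * uj p.2 (Y q).2 : ℝ) : ℂ) * M q else 0‖ ≤ _
      split_ifs
      · exact hb _ _ _ (uj_abs_le _ _) (uj_abs_le _ _) (hM1 q)
      · rw [norm_zero]
        linarith
    · exact hb _ _ _ (uj_abs_le _ _) (hth _) (hM1 q)
    · exact hb _ _ _ (hth _) (uj_abs_le _ _) (hM1 q)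
    · show ‖((rest (Y q) : ℝ) : ℂ) * M q‖ ≤ _
      rw [norm_mul, Complex.norm_real, Real.norm_eq_abs]
      calc |rest (Y q)| * ‖M q‖ ≤ (4 * (k0 : ℝ) + 4) * 1 :=
            mul_le_mul (hr2 _) (hM1 q) (norm_nonneg _) (by linarith)
        _ = _ := mul_one _
  have h5 := FFg_sum B R φ w hA T hT s F hF _ hB
  rw [hsum] at h5
  rw [h5]
  refine (norm_sum_le _ _).trans ?_
  simp only [s, Finset.sum_disjSum, Finset.sum_singleton, F, Sum.elim_inl, Sum.elim_inr]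
  have h6 : ∑ x ∈ Finset.range J ×ˢ Finset.range J,
      ‖FFg φ w T fun q => if x.1 < x.2 + k0 ∧ x.2 < x.1 + k0 then
        ((uj x.1 (Y q).1 * uj x.2 (Y q).2 : ℝ) : ℂ) * M q else 0‖ ≤ (J : ℝ) ^ 2 * K1 := by
    refine (Finset.sum_le_card_nsmul _ _ K1 ?_).trans (le_of_eq ?_)
    · rintro ⟨j, k⟩ -
      simp only
      by_cases h7 : j < k + k0 ∧ k < j + k0
      · simp only [h7, and_self, if_true]
        exact h1 j k h7.1 h7.2
      · simp only [h7, if_false]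
        have h8 : FFg φ w T (fun _ => 0) = 0 := by
          unfold FFg
          simp
        rw [h8, norm_zero]
        exact hK1
    · rw [Finset.card_product, Finset.card_range, nsmul_eq_mul]
      push_cast
      ring
  have haJ' : (a : ℝ) ≤ J := by exact_mod_cast haJ
  have h7 : ∑ j ∈ Finset.range a, ‖FFg φ w T fun q =>
      ((uj j (Y q).1 * th (2 ^ (j + k0) * (Y q).2) : ℝ) : ℂ) * M q‖ ≤ J * K2 := by
    refine (Finset.sum_le_card_nsmul _ _ K2 fun j _ => h2 j).trans ?_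
    rw [Finset.card_range, nsmul_eq_mul]
    gcongr
  have h8 : ∑ k ∈ Finset.range a, ‖FFg φ w T fun q =>
      ((th (2 ^ (k + k0) * (Y q).1) * uj k (Y q).2 : ℝ) : ℂ) * M q‖ ≤ J * K2 := by
    refine (Finset.sum_le_card_nsmul _ _ K2 fun j _ => h3 j).trans ?_
    rw [Finset.card_range, nsmul_eq_mul]
    gcongr
  have h9 := h4 rest hr1 hr2 hr3
  linarith

end Pool.Agent.SDT.N1G

end -- N1G.Ca1

section -- N1G.E4

/-!
N1G, block L2b: elementary estimates for a smooth family, assembly.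
-/

namespace Pool.Agent.SDT.N1G

open MeasureTheory Set Metric Pool.Agent.SDT.MP_6cbfb8_an Pool.Agent.SDT.MST Pool.Agent.SDT.N1
open scoped ENNReal Real ContDiff

theorem famD_E {P : Type*} [NormedAddCommGroup P] [NormedSpace ℝ P]
    (F : Fam P) (p0 : P) (x0 y0 : ℝ × ℝ) (r : ℝ) (h : FamOk F p0 x0 y0 r)
    (hD : CaseD F p0 x0 y0) :
    ∃ C0 C3 C4 c1 δ0 : ℝ, 0 < C0 ∧ 0 ≤ C3 ∧ 1 ≤ C4 ∧ 0 < c1 ∧ 0 < δ0 ∧ δ0 ≤ 1 ∧
    ∀ η : ℝ, 0 < η → ∃ δ1 : ℝ, 0 < δ1 ∧ ∀ δ : ℝ, 0 < δ → δ ≤ δ0 → ∀ p ∈ ball p0 (min δ0 δ1),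
    0 ≤ F.μ p → ∀ φ w : YX → ℝ, Agr F p x0 y0 δ φ w →
    (δ ≤ δ1 → ∀ s, Bx δ x0 y0 s → |F.N p s| ≤ η) ∧
    (∀ q, NbG δ x0 y0 q → F.μ p * |q.1.2.2| ≤ C0 * (|F.N p (px q)| + |F.N p (pz q)| + |q.2.2.2|)) ∧
    (∀ κ q, 0 < κ → NbG δ x0 y0 q → |F.N p (px q)| ≤ 2 * κ →
      |F.N p (pz q)| ≤ 2 * κ → C4 * κ * |q.1.2.2| ≤ |q.2.2.2| → c1 * |q.2.2.2| ≤ |Fg φ q|) ∧
    (∀ κ q, 0 < κ → NbG δ x0 y0 q →
      ((κ / 2 ≤ F.N p (px q) ∧ κ / 2 ≤ F.N p (pz q)) ∨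
        (F.N p (px q) ≤ -(κ / 2) ∧ F.N p (pz q) ≤ -(κ / 2))) →
      C4 * |q.2.2.2| ≤ κ * |q.1.2.2| → c1 * (κ * |q.1.2.2|) ≤ |Fg φ q|) ∧
    (∀ κ γ d : ℝ, 0 < κ → 0 < γ → 0 < d → volume {q : V × V | NbG δ x0 y0 q ∧
      |F.N p (px q)| ≤ 2 * κ ∧ |q.1.2.2| ≤ γ ∧ |q.2.2.2| ≤ d} ≤
      ENNReal.ofReal (C3 * κ * γ * d)) := by
  obtain ⟨C0, C4, c1, δ0, h1, h2, h3, h4, h5, H⟩ := famD_E4 F p0 x0 y0 r h hD
  obtain ⟨C3, d0, g1, g2, g3, G⟩ := famD_vol h hD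
  refine ⟨C0, C3, C4, c1, min δ0 d0, h1, g1, h2, h3, lt_min h4 g2, (min_le_left _ _).trans h5,
    fun η hη => ?_⟩
  obtain ⟨δ1, e1, H1⟩ := H η hη
  refine ⟨δ1, e1, fun δ hδ hδ0 p hp hμ φ w hA => ?_⟩
  have hp1 : p ∈ ball p0 (min δ0 δ1) :=
    ball_subset_ball (min_le_min (min_le_left _ _) le_rfl) hp
  obtain ⟨k1, k2, k3, k4⟩ := H1 δ hδ (hδ0.trans (min_le_left _ _)) p hp1 hμ φ w hA
  exact ⟨k1, k2, k3, k4, G δ hδ (hδ0.trans (min_le_right _ _)) p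
    (ball_subset_ball ((min_le_left _ _).trans (min_le_right _ _)) hp)⟩

end Pool.Agent.SDT.N1G

end -- N1G.E4

section -- N1Q.Q2b

/-!
N1Q, block Q2: the partition argument for a general point phase.
-/

namespace Pool.Agent.SDT.N1Q

open MeasureTheory Set Metric Pool.Agent.SDT.MP_6cbfb8_an Pool.Agent.SDT.MST Pool.Agent.SDT.N1
open Pool.Agent.SDT.N1F Pool.Agent.SDT.N1G Pool.Agent.SDT.N1M
open scoped ENNReal Real ContDiff

lemma FFg_neg (φ w : YX → ℝ) (T : ℝ) (M : V × V → ℂ) :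
    FFg φ w T (fun q => -M q) = -FFg φ w T M := by
  unfold FFg
  rw [← integral_neg]
  refine integral_congr_ae (Filter.Eventually.of_forall fun q => ?_)
  simp only
  ring

lemma le_of_enorm {z : ℂ} {K : ℝ} (hK : 0 ≤ K) (h : ‖z‖ₑ ≤ ENNReal.ofReal K) : ‖z‖ ≤ K := by
  rw [← ofReal_norm] at h
  exact (ENNReal.ofReal_le_ofReal_iff hK).1 h

lemma da_norm (G : ℝ → ℂ) (hG : ∀ a, ‖G a‖ ≤ 1) (p : ℝ × ℝ) : ‖da G p‖ ≤ 1 := by
  unfold da
  rw [norm_mul, RCLike.norm_conj]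
  exact mul_le_one₀ (hG _) (norm_nonneg _) (hG _)

lemma da_meas (G : ℝ → ℂ) (h1 : Measurable G) : Measurable (da G) := by
  unfold da
  exact (h1.comp measurable_snd).mul
    (Complex.continuous_conj.measurable.comp (h1.comp (by fun_prop)))

lemma pd_norm' (α β : ℝ × ℝ → ℂ) (hα : ∀ p, ‖α p‖ ≤ 1) (hβ : ∀ p, ‖β p‖ ≤ 1) (p : YX) :
    ‖pd α β p‖ ≤ 1 := by
  unfold pd
  rw [norm_mul]
  exact mul_le_one₀ (hα _) (norm_nonneg _) (hβ _)

lemma pd_meas' (α β : ℝ × ℝ → ℂ) (hα : Measurable α) (hβ : Measurable β) :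
    Measurable (pd α β) := by
  unfold pd
  exact (hα.comp (by fun_prop)).mul (hβ.comp (by fun_prop))

lemma ex_meas : Measurable ex := by
  unfold ex
  fun_prop

lemma ex_norm (x : ℝ) : ‖ex x‖ = 1 := hlf_norm_ex x

lemma sqM_meas (M : YX → ℂ) (hM : Measurable M) : Measurable (sqM M) := by
  unfold sqM
  exact (hM.comp (by fun_prop)).mul
    (Complex.continuous_conj.measurable.comp (hM.comp (by fun_prop)))

lemma sqM_norm (M : YX → ℂ) (hM : ∀ p, ‖M p‖ ≤ 1) (q : V × V) : ‖sqM M q‖ ≤ 1 := by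
  unfold sqM
  rw [norm_mul, RCLike.norm_conj]
  exact mul_le_one₀ (hM _) (norm_nonneg _) (hM _)

theorem part_gen : ∃ B0 : ℝ, 0 ≤ B0 ∧ ∀ (B R : ℝ) (q w : ℝ × ℝ → ℝ), Measurable q →
    Measurable w → (∀ x, |w x| ≤ B) → (∀ x, w x ≠ 0 → ‖x‖ ≤ R) → ∀ T : ℝ, 0 < T →
    ∀ G₁ G₂ : ℝ → ℂ, Measurable G₁ → Measurable G₂ → (∀ a, ‖G₁ a‖ ≤ 1) → (∀ a, ‖G₂ a‖ ≤ 1) →
    ∀ (g1 g2 A : ℝ) (J : ℕ), 0 < A → ∀ Kt Ka : ℝ, 0 ≤ Kt → 0 ≤ Ka →
    (∀ α β : ℝ × ℝ → ℂ, Measurable α → Measurable β → (∀ p, ‖α p‖ ≤ 1) → (∀ p, ‖β p‖ ≤ 1) →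
      (∀ p, α p ≠ 0 → da G₁ p ≠ 0) → (∀ p, β p ≠ 0 → da G₂ p ≠ 0) →
      Thg (dif q) (dam w) T (tanM g1 g2 (4 * A) (pd α β)) ≤ ENNReal.ofReal Kt) →
    (∀ M : V × V → ℂ, Measurable M → (∀ q, ‖M q‖ ≤ 1) →
      (∀ u, M u ≠ 0 → sqM (pd (da G₁) (da G₂)) u ≠ 0 ∧ 1 - ct g1 g2 A J (u.1.1, u.2.1) ≠ 0 ∧
        1 - ct g1 g2 A J (u.1.2.2, u.2.2.2) ≠ 0) → ‖FFg (dif q) (dam w) T M‖ ≤ Ka) →
    Thg (dif q) (dam w) T (pd (da G₁) (da G₂)) ≤ ENNReal.ofReal ((2 + J * B0) * Kt + Ka) := by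
  obtain ⟨B, hB, hth⟩ := FT1_th
  refine ⟨(B + B) * B, by positivity, ?_⟩
  intro B' R q w hq hw hB' hR T hT G₁ G₂ m1 m2 b1 b2 g1 g2 A J hA Kt Ka hKt hKa ht ha
  have hAdm := f3g_adm B' R q w hq hw hB' hR
  set M : YX → ℂ := pd (da G₁) (da G₂) with hMdef
  have hM : Measurable M := pd_meas' _ _ (da_meas _ m1) (da_meas _ m2)
  have hM1 : ∀ p, ‖M p‖ ≤ 1 := pd_norm' _ _ (da_norm _ b1) (da_norm _ b2)
  rw [Thg_eq (B' * B') (2 * R) _ _ hAdm T hT M hM hM1, ← ofReal_norm]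
  apply ENNReal.ofReal_le_ofReal
  -- cut-off functions
  set cy : V × V → ℂ := fun u => ((ct g1 g2 A J (u.1.1, u.2.1) : ℝ) : ℂ) with hcy
  set cz : V × V → ℂ := fun u => ((ct g1 g2 A J (u.1.2.2, u.2.2.2) : ℝ) : ℂ) with hcz
  have mcy : Measurable cy :=
    Complex.measurable_ofReal.comp ((ct_meas g1 g2 A J).comp (by fun_prop))
  have mcz : Measurable cz :=
    Complex.measurable_ofReal.comp ((ct_meas g1 g2 A J).comp (by fun_prop))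
  have nc : ∀ y, ‖((ct g1 g2 A J y : ℝ) : ℂ)‖ ≤ 1 := by
    intro y
    rw [Complex.norm_real, Real.norm_eq_abs, abs_of_nonneg (ct_nonneg _ _ _ _ _)]
    exact ct_le_one _ _ _ _ _
  have nc' : ∀ y, ‖1 - ((ct g1 g2 A J y : ℝ) : ℂ)‖ ≤ 1 := by
    intro y
    rw [← Complex.ofReal_one, ← Complex.ofReal_sub, Complex.norm_real, Real.norm_eq_abs,
      abs_of_nonneg (by linarith [ct_le_one g1 g2 A J y])]
    linarith [ct_nonneg g1 g2 A J y]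
  have hS : Measurable (sqM M) := sqM_meas M hM
  have hS1 : ∀ u, ‖sqM M u‖ ≤ 1 := sqM_norm M hM1
  set M1 : V × V → ℂ := fun u => cy u * sqM M u with hM1d
  set M2 : V × V → ℂ := fun u => cz u * sqM M u with hM2d
  set M3 : V × V → ℂ := fun u => cz u * (cy u * sqM M u) with hM3d
  set M4 : V × V → ℂ := fun u => (1 - cy u) * (1 - cz u) * sqM M u with hM4d
  have mM1 : Measurable M1 := mcy.mul hS
  have mM2 : Measurable M2 := mcz.mul hS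
  have mM3 : Measurable M3 := mcz.mul (mcy.mul hS)
  have mM4 : Measurable M4 :=
    ((measurable_const.sub mcy).mul (measurable_const.sub mcz)).mul hS
  have nM1 : ∀ u, ‖M1 u‖ ≤ 1 := by
    intro u
    rw [hM1d, norm_mul]
    exact mul_le_one₀ (nc _) (norm_nonneg _) (hS1 u)
  have nM2 : ∀ u, ‖M2 u‖ ≤ 1 := by
    intro u
    rw [hM2d, norm_mul]
    exact mul_le_one₀ (nc _) (norm_nonneg _) (hS1 u)
  have nM3 : ∀ u, ‖M3 u‖ ≤ 1 := by
    intro u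
    rw [hM3d, norm_mul]
    exact mul_le_one₀ (nc _) (norm_nonneg _) (nM1 u)
  have nM4 : ∀ u, ‖M4 u‖ ≤ 1 := by
    intro u
    rw [hM4d, norm_mul, norm_mul]
    exact mul_le_one₀ (mul_le_one₀ (nc' _) (norm_nonneg _) (nc' _)) (norm_nonneg _) (hS1 u)
  have hsplit : FFg (dif q) (dam w) T (sqM M) = FFg (dif q) (dam w) T M1 +
      FFg (dif q) (dam w) T M2 + (FFg (dif q) (dam w) T M4 + -FFg (dif q) (dam w) T M3) := by
    rw [← FFg_neg, ← FFg_add (B' * B') (2 * R) _ _ hAdm T hT M1 M2 mM1 mM2 1 nM1 nM2,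
      ← FFg_add (B' * B') (2 * R) _ _ hAdm T hT M4 (fun u => -M3 u) mM4 mM3.neg 1 nM4
        (fun u => by rw [norm_neg]; exact nM3 u),
      ← FFg_add (B' * B') (2 * R) _ _ hAdm T hT (fun u => M1 u + M2 u) (fun u => M4 u + -M3 u)
        (mM1.add mM2) (mM4.add mM3.neg) 2
        (fun u => (norm_add_le _ _).trans (by linarith [nM1 u, nM2 u]))
        (fun u => (norm_add_le _ _).trans (by rw [norm_neg]; linarith [nM4 u, nM3 u]))]
    congr 1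
    funext u
    simp only [hM1d, hM2d, hM3d, hM4d]
    ring
  -- weights in the outer variable
  have hw1 : ∀ α β : ℝ × ℝ → ℂ, Measurable α → Measurable β → (∀ p, ‖α p‖ ≤ 1) →
      (∀ p, ‖β p‖ ≤ 1) → (∀ p, α p ≠ 0 → da G₁ p ≠ 0) → (∀ p, β p ≠ 0 → da G₂ p ≠ 0) →
      ‖FFg (dif q) (dam w) T (fun u => cy u * sqM (pd α β) u)‖ ≤ Kt := by
    intro α β mα mβ nα nβ sα sβ
    apply le_of_enorm hKt
    refine (FFg_weight (B' * B') (2 * R) _ _ hAdm T hT (pd α β) (pd_meas' _ _ mα mβ)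
      (pd_norm' _ _ nα nβ) (fun y => ((ct g1 g2 A J y : ℝ) : ℂ))
      (Complex.measurable_ofReal.comp (ct_meas g1 g2 A J)) nc).trans ?_
    refine (Thg_mono_y _ _ T _ _ fun y => ?_).trans (ht α β mα mβ nα nβ sα sβ)
    by_cases h0 : ct g1 g2 A J y = 0
    · left
      intro x
      simp [h0]
    · right
      intro x
      simp only [tanM]
      rw [if_neg (by rwa [Complex.ofReal_eq_zero]), if_pos (ct_supp g1 g2 A hA J y h0)]
  have e1 : ‖FFg (dif q) (dam w) T M1‖ ≤ Kt :=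
    hw1 (da G₁) (da G₂) (da_meas _ m1) (da_meas _ m2) (da_norm _ b1) (da_norm _ b2)
      (fun p h => h) (fun p h => h)
  have e2 : ‖FFg (dif q) (dam w) T M2‖ ≤ Kt := by
    have h1 := FFg_swp q w T M1
    have h2 : (fun u => M1 (swp u)) = M2 := by
      funext u
      show cy (swp u) * sqM M (swp u) = cz u * sqM M u
      rw [hMdef, sqM_swp]
      rfl
    rw [h2] at h1
    rw [h1]
    exact e1
  have e4 : ‖FFg (dif q) (dam w) T M4‖ ≤ Ka := by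
    refine ha M4 mM4 nM4 fun u hu => ?_
    have h1 := left_ne_zero_of_mul hu
    refine ⟨right_ne_zero_of_mul hu, ?_, ?_⟩
    · have := left_ne_zero_of_mul h1
      intro h
      apply this
      rw [hcy]
      simp only
      rw [← Complex.ofReal_one, ← Complex.ofReal_sub, h, Complex.ofReal_zero]
    · have := right_ne_zero_of_mul h1
      intro h
      apply this
      rw [hcz]
      simp only
      rw [← Complex.ofReal_one, ← Complex.ofReal_sub, h, Complex.ofReal_zero]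
  have e3 : ‖FFg (dif q) (dam w) T M3‖ ≤ J * ((B + B) * B * Kt) := by
    have h1 : FFg (dif q) (dam w) T M3 = ∑ j ∈ Finset.range J, FFg (dif q) (dam w) T
        (fun u => ((uj j u.1.2.2 : ℝ) : ℂ) *
          (((th (2 ^ j / A * lnE g1 g2 (u.1.2.2, u.2.2.2)) : ℝ) : ℂ) * M1 u)) := by
      rw [← FFg_sum (B' * B') (2 * R) _ _ hAdm T hT (Finset.range J) _ (fun j => ?_) 1
        (fun j u => ?_)]
      · congr 1
        funext u
        simp only [hM3d, hcz, hM1d, ct, Complex.ofReal_sum, Complex.ofReal_mul, Finset.sum_mul]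
        refine Finset.sum_congr rfl fun j _ => ?_
        ring
      · refine (Complex.measurable_ofReal.comp ((measurable_uj j).comp (by fun_prop))).mul
          ((Complex.measurable_ofReal.comp (measurable_th.comp
            (((measurable_lnE g1 g2).comp (by fun_prop)).const_mul _))).mul mM1)
      · rw [norm_mul, norm_mul, Complex.norm_real, Complex.norm_real, Real.norm_eq_abs,
          Real.norm_eq_abs]
        refine mul_le_one₀ (uj_abs_le _ _) (by positivity) (mul_le_one₀ ?_ (norm_nonneg _) (nM1 u))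
        rw [abs_of_nonneg (th_nonneg _)]
        exact th_le_one _
    rw [h1]
    refine (norm_sum_le _ _).trans ?_
    refine (Finset.sum_le_card_nsmul _ _ ((B + B) * B * Kt) fun j _ => ?_).trans (by
      rw [Finset.card_range, nsmul_eq_mul])
    -- one term
    have f1 : FT1 (B + B) (fun x => ((uj j x : ℝ) : ℂ)) := by
      have h2 := FT1_sub B B _ _ hth (FT1_scale B _ hth 2 (by norm_num))
      have h3 := FT1_scale (B + B) _ h2 (2 ^ j) (by positivity)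
      refine cast ?_ h3
      congr 1
      funext x
      rw [uj_eq_zero_scale, uj_zero_eq]
      push_cast
      rfl
    have f2 : FT1 B (fun x => ((th (2 ^ j / A * x) : ℝ) : ℂ)) :=
      FT1_scale B _ hth (2 ^ j / A) (by positivity)
    rw [mul_assoc]
    refine expandg (B' * B') (2 * R) _ _ hAdm T hT (B + B) _ f1
      (fun u => ((th (2 ^ j / A * lnE g1 g2 (u.1.2.2, u.2.2.2)) : ℝ) : ℂ) * M1 u)
      ((Complex.measurable_ofReal.comp (measurable_th.comp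
            (((measurable_lnE g1 g2).comp (by fun_prop)).const_mul _))).mul mM1) 1
      (fun u => ?_) (fun u => u.1.2.2) (by fun_prop) (B * Kt) (fun η => ?_)
    · rw [norm_mul, Complex.norm_real, Real.norm_eq_abs, abs_of_nonneg (th_nonneg _)]
      exact mul_le_one₀ (th_le_one _) (norm_nonneg _) (nM1 u)
    · have h3 := expandg (B' * B') (2 * R) _ _ hAdm T hT B _ f2
        (fun u => ex (η * u.1.2.2) * M1 u) ((ex_meas.comp (by fun_prop)).mul mM1) 1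
        (fun u => by
          rw [norm_mul, ex_norm, one_mul]
          exact nM1 u)
        (fun u => lnE g1 g2 (u.1.2.2, u.2.2.2)) ((measurable_lnE g1 g2).comp (by fun_prop)) Kt
        (fun η' => ?_)
      · refine le_trans (le_of_eq ?_) h3
        congr 2
        funext u
        ring
      · -- exponentials are absorbed
        have h4 := hw1 (fun p => da G₁ p * ex ((η + η' * g1) * p.2))
          (fun p => da G₂ p * ex (η' * g2 * p.2))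
          ((da_meas _ m1).mul (ex_meas.comp (by fun_prop)))
          ((da_meas _ m2).mul (ex_meas.comp (by fun_prop)))
          (fun p => by rw [norm_mul, ex_norm, mul_one]; exact da_norm _ b1 p)
          (fun p => by rw [norm_mul, ex_norm, mul_one]; exact da_norm _ b2 p)
          (fun p h => left_ne_zero_of_mul h) (fun p h => left_ne_zero_of_mul h)
        refine le_trans (le_of_eq ?_) h4
        congr 2
        funext u
        have e5 : ∀ x z g : ℝ, ex (g * x) * (starRingEnd ℂ) (ex (g * (x - z))) = ex (g * z) := by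
          intro x z g
          rw [f2_conj_ex, ← hlf_ex_add]
          congr 1
          ring
        have e6 : ex (η' * lnE g1 g2 (u.1.2.2, u.2.2.2)) * ex (η * u.1.2.2) =
            ex ((η + η' * g1) * u.1.2.2) * ex (η' * g2 * u.2.2.2) := by
          rw [← hlf_ex_add, ← hlf_ex_add]
          congr 1
          unfold lnE
          ring
        simp only [hM1d, sqM, pd, hMdef, map_mul]
        rw [← mul_assoc, e6, ← e5 u.1.2.1 u.1.2.2 (η + η' * g1), ← e5 u.2.2.1 u.2.2.2 (η' * g2)]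
        ring
  rw [hsplit]
  have h5 := norm_add_le (FFg (dif q) (dam w) T M1 + FFg (dif q) (dam w) T M2)
    (FFg (dif q) (dam w) T M4 + -FFg (dif q) (dam w) T M3)
  have h6 := norm_add_le (FFg (dif q) (dam w) T M1) (FFg (dif q) (dam w) T M2)
  have h7 := norm_add_le (FFg (dif q) (dam w) T M4) (-FFg (dif q) (dam w) T M3)
  rw [norm_neg] at h7
  have h8 : (2 + (J : ℝ) * ((B + B) * B)) * Kt + Ka = Kt + Kt + (Ka + J * ((B + B) * B * Kt)) := by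
    ring
  rw [h8]
  linarith

end Pool.Agent.SDT.N1Q

end -- N1Q.Q2b
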