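import Pool.Agent.SDT.B22
import Pool.Agent.SDT.B25
import Pool.Agent.SDT.B30

set_option autoImplicit false

namespace Pool.Agent.SDT.MP_6cbfb8_an
end Pool.Agent.SDT.MP_6cbfb8_an
namespace Pool.Agent.SDT.MST
end Pool.Agent.SDT.MST
namespace Pool.Agent.SDT.N1
end Pool.Agent.SDT.N1

section -- N1F.A3c

/-!
N1F, block A3: the normal form, definitions and special values.
-/

namespace Pool.Agent.SDT.N1F

open MeasureTheory Set Metric Pool.Agent.SDT.MP_6cbfb8_an Pool.Agent.SDT.MST Pool.Agent.SDT.N1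
open scoped ENNReal Real ContDiff Topology

/-- The variables `(A, B, ρ, γ, κ, a, b)`; `a`, `b` in midpoint form. -/
abbrev MM : Type := ℝ × ℝ × ℝ × ℝ × ℝ × V × V

/-- Points in the first coordinate. -/
noncomputable def px : Fin 7 → MM → ℝ :=
  ![fun x => x.2.2.2.2.2.1.2.1 + x.2.2.2.1 * x.2.2.2.2.2.1.2.2 / 2,
    fun x => x.2.2.2.2.2.1.2.1 + x.2.2.2.1 * x.2.2.2.2.2.1.2.2 / 2 -
      x.2.1 * x.2.2.1 * x.2.2.2.2.2.1.1,
    fun x => x.2.2.2.2.2.1.2.1 - x.2.2.2.1 * x.2.2.2.2.2.1.2.2 / 2,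
    fun x => x.2.2.2.2.2.1.2.1 - x.2.2.2.1 * x.2.2.2.2.2.1.2.2 / 2 -
      x.2.1 * x.2.2.1 * x.2.2.2.2.2.1.1,
    fun x => x.2.2.2.2.2.1.2.1,
    fun x => x.2.2.2.2.2.1.2.1 - x.2.1 * x.2.2.1 * x.2.2.2.2.2.1.1,
    fun _ => 0]

/-- Points in the second coordinate. -/
noncomputable def pw : Fin 7 → MM → ℝ :=
  ![fun x => x.2.2.2.2.2.2.2.1 + x.1 * x.2.2.2.2.1 * x.2.2.2.1 * x.2.2.2.2.2.2.2.2 / 2,
    fun x => x.2.2.2.2.2.2.2.1 + x.1 * x.2.2.2.2.1 * x.2.2.2.1 * x.2.2.2.2.2.2.2.2 / 2 -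
      x.2.2.1 * x.2.2.2.2.2.2.1,
    fun x => x.2.2.2.2.2.2.2.1 - x.1 * x.2.2.2.2.1 * x.2.2.2.1 * x.2.2.2.2.2.2.2.2 / 2,
    fun x => x.2.2.2.2.2.2.2.1 - x.1 * x.2.2.2.2.1 * x.2.2.2.1 * x.2.2.2.2.2.2.2.2 / 2 -
      x.2.2.1 * x.2.2.2.2.2.2.1,
    fun x => x.2.2.2.2.2.2.2.1,
    fun x => x.2.2.2.2.2.2.2.1 - x.2.2.1 * x.2.2.2.2.2.2.1,
    fun _ => 0]

/-- Good points. -/
def gd (c : ℝ) (x : MM) : Prop :=
  (∀ i j : Fin 7, c ^ 2 / 8 < 1 - x.1 * px i x ^ 2 - x.2.1 * pw j x ^ 2) ∧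
  (∀ i : Fin 7, i ≠ 6 → 0 < px i x) ∧ (∀ j : Fin 7, j ≠ 6 → 0 < pw j x) ∧
  x.2.2.2.2.2.1.2.2 ≠ 0

/-- `√(1 - A X_i² - B W_j²)` -/
noncomputable def qq (c : ℝ) (i j : Fin 7) (x : MM) : ℝ :=
  Qs c (x.1 * px i x ^ 2) (x.2.1 * pw j x ^ 2)

/-- The divided phase. -/
noncomputable def Fh (c : ℝ) (x : MM) : ℝ :=
  -(x.2.2.2.2.2.1.1 * x.2.2.2.2.2.1.2.2 *
      E1 c x.1 (px 0 x) (px 1 x) (px 2 x) (px 3 x) (x.2.1 * pw 2 x ^ 2) +
    x.2.2.2.2.1 * (x.2.2.2.2.2.2.1 * x.2.2.2.2.2.2.2.2 *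
      E1 c x.2.1 (pw 0 x) (pw 1 x) (pw 2 x) (pw 3 x) (x.1 * px 1 x ^ 2)) +
    x.1 * x.2.1 * x.2.2.2.2.1 * (x.2.2.2.2.2.1.1 * x.2.2.2.2.2.2.2.2 *
      E3 c x.1 x.2.1 (px 0 x) (px 1 x) (pw 0 x) (pw 2 x)) +
    x.2.2.2.2.2.1.2.2 * x.2.2.2.2.2.2.1 *
      E3 c x.1 x.2.1 (px 1 x) (px 3 x) (pw 2 x) (pw 3 x))

/-- `w` -/
noncomputable def kA (c : ℝ) (x : MM) : ℝ :=
  x.2.2.2.2.2.1.1 * (qq c 0 6 x + qq c 2 6 x) / (px 0 x * qq c 2 6 x + px 2 x * qq c 0 6 x)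

/-- `l` -/
noncomputable def hA (c : ℝ) (x : MM) : ℝ :=
  (qq c 0 6 x + qq c 2 6 x) ^ 2 / (4 * px 4 x * x.2.2.2.2.2.1.2.2)

/-- `-σ` -/
noncomputable def sB (c : ℝ) (x : MM) : ℝ :=
  x.2.2.2.2.2.2.1 * (pw 4 x + pw 5 x) / (qq c 6 4 x * (qq c 6 5 x + qq c 6 4 x))

/-- `m` -/
noncomputable def fB (c : ℝ) (x : MM) : ℝ :=
  x.2.2.2.2.2.2.2.2 * (x.2.2.2.2.2.2.1 * (pw 4 x + pw 5 x)) /
    (qq c 6 4 x * (pw 4 x * qq c 6 5 x + pw 5 x * qq c 6 4 x))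

/-- The unit. -/
noncomputable def vV (c : ℝ) (x : MM) : ℝ :=
  qq c 6 4 x * (px 4 x * qq c 6 5 x + px 5 x * qq c 6 4 x) * qq c 4 6 x ^ 3 *
      (2 * px 4 x * x.2.2.2.2.2.1.2.2) /
    (qq c 4 4 x * qq c 5 5 x * (px 4 x * qq c 5 5 x + px 5 x * qq c 4 4 x) *
      (qq c 0 6 x * qq c 2 6 x * (qq c 0 6 x + qq c 2 6 x)))

/-- The remainder. -/
noncomputable def Dd (c : ℝ) (x : MM) : ℝ :=
  Fh c x / (-vV c x) - (kA c x + sB c x + x.2.2.2.2.1 * (hA c x * fB c x))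

lemma px_cd (i : Fin 7) : ContDiff ℝ ∞ (px i) := by
  unfold px
  fin_cases i <;> simp only [Fin.zero_eta, Fin.mk_one, Fin.reduceFinMk, Matrix.cons_val] <;>
    fun_prop

lemma pw_cd (i : Fin 7) : ContDiff ℝ ∞ (pw i) := by
  unfold pw
  fin_cases i <;> simp only [Fin.zero_eta, Fin.mk_one, Fin.reduceFinMk, Matrix.cons_val] <;>
    fun_prop

lemma qq_pos (c : ℝ) (hc : 0 < c) (x : MM) (h : gd c x) (i j : Fin 7) : 0 < qq c i j x :=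
  Qs_pos c hc _ _ (h.1 i j).le

lemma qq_sq (c : ℝ) (hc : 0 < c) (x : MM) (h : gd c x) (i j : Fin 7) :
    qq c i j x ^ 2 = 1 - x.1 * px i x ^ 2 - x.2.1 * pw j x ^ 2 :=
  Qs_sq c hc _ _ (h.1 i j).le

lemma vV_pos (c : ℝ) (hc : 0 < c) (x : MM) (h : gd c x) : vV c x ≠ 0 := by
  have q := qq_pos c hc x h
  have p4 := h.2.1 4 (by decide)
  have p5 := h.2.1 5 (by decide)
  have hz := h.2.2.2
  unfold vV
  have h1 := q 6 4
  have h2 := q 6 5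
  have h3 := q 4 6
  have h4 := q 4 4
  have h5 := q 5 5
  have h6 := q 0 6
  have h7 := q 2 6
  apply div_ne_zero
  · refine mul_ne_zero (by positivity) (mul_ne_zero (by positivity) hz)
  · positivity

lemma qq_cd (c : ℝ) (hc : 0 < c) (i j : Fin 7) : ContDiff ℝ ∞ (qq c i j) := by
  rw [contDiff_iff_contDiffAt]
  intro x
  exact Qs_cd c hc (contDiffAt_fst.mul ((px_cd i).contDiffAt.pow 2))
    ((by fun_prop : ContDiffAt ℝ ∞ (fun x : MM => x.2.1) x).mul ((pw_cd j).contDiffAt.pow 2))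

lemma Fh_cd (c : ℝ) (hc : 0 < c) (x : MM) (h : gd c x) : ContDiffAt ℝ ∞ (Fh c) x := by
  have hA : ContDiffAt ℝ ∞ (fun x : MM => x.1) x := by fun_prop
  have hB : ContDiffAt ℝ ∞ (fun x : MM => x.2.1) x := by fun_prop
  have hX : ∀ i, ContDiffAt ℝ ∞ (px i) x := fun i => (px_cd i).contDiffAt
  have hW : ∀ i, ContDiffAt ℝ ∞ (pw i) x := fun i => (pw_cd i).contDiffAt
  have h1 := h.1
  have e1 := E1_cd c hc hA (hX 0) (hX 1) (hX 2) (hX 3) (hB.mul ((hW 2).pow 2)) (h1 0 2) (h1 1 2)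
    (h1 2 2) (h1 3 2)
  have k : ∀ i j : Fin 7, c ^ 2 / 8 < 1 - x.2.1 * pw j x ^ 2 - x.1 * px i x ^ 2 := by
    intro i j
    have := h1 i j
    linarith
  have e2 := E1_cd c hc hB (hW 0) (hW 1) (hW 2) (hW 3) (hA.mul ((hX 1).pow 2)) (k 1 0) (k 1 1)
    (k 1 2) (k 1 3)
  have e3 := E3_cd c hc hA hB (hX 0) (hX 1) (hW 0) (hW 2) (h1 0 0) (h1 1 0) (h1 0 2) (h1 1 2)
  have e4 := E3_cd c hc hA hB (hX 1) (hX 3) (hW 2) (hW 3) (h1 1 2) (h1 3 2) (h1 1 3) (h1 3 3)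
  exact (((((by fun_prop : ContDiffAt ℝ ∞ (fun x : MM => x.2.2.2.2.2.1.1 *
    x.2.2.2.2.2.1.2.2) x).mul e1).add
    ((by fun_prop : ContDiffAt ℝ ∞ (fun x : MM => x.2.2.2.2.1) x).mul
      ((by fun_prop : ContDiffAt ℝ ∞ (fun x : MM => x.2.2.2.2.2.2.1 *
    x.2.2.2.2.2.2.2.2) x).mul e2))).add
    ((by fun_prop : ContDiffAt ℝ ∞ (fun x : MM => x.1 * x.2.1 * x.2.2.2.2.1) x).mul
      ((by fun_prop : ContDiffAt ℝ ∞ (fun x : MM => x.2.2.2.2.2.1.1 *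
    x.2.2.2.2.2.2.2.2) x).mul e3))).add
    ((by fun_prop : ContDiffAt ℝ ∞ (fun x : MM => x.2.2.2.2.2.1.2.2 *
    x.2.2.2.2.2.2.1) x).mul e4)).neg

lemma kA_cd (c : ℝ) (hc : 0 < c) (x : MM) (h : gd c x) : ContDiffAt ℝ ∞ (kA c) x := by
  have hX : ∀ i, ContDiffAt ℝ ∞ (px i) x := fun i => (px_cd i).contDiffAt
  have hq : ∀ i j, ContDiffAt ℝ ∞ (qq c i j) x := fun i j => (qq_cd c hc i j).contDiffAt
  have q := qq_pos c hc x h
  have p0 := h.2.1 0 (by decide)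
  have p2 := h.2.1 2 (by decide)
  have q1 := q 0 6
  have q2 := q 2 6
  exact ContDiffAt.div ((by fun_prop : ContDiffAt ℝ ∞ (fun x : MM => x.2.2.2.2.2.1.1) x).mul
    ((hq 0 6).add (hq 2 6))) (((hX 0).mul (hq 2 6)).add ((hX 2).mul (hq 0 6))) (by positivity)

lemma hA_cd (c : ℝ) (hc : 0 < c) (x : MM) (h : gd c x) : ContDiffAt ℝ ∞ (hA c) x := by
  have hX : ∀ i, ContDiffAt ℝ ∞ (px i) x := fun i => (px_cd i).contDiffAt
  have hq : ∀ i j, ContDiffAt ℝ ∞ (qq c i j) x := fun i j => (qq_cd c hc i j).contDiffAt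
  have p4 := h.2.1 4 (by decide)
  have hz := h.2.2.2
  exact ContDiffAt.div (((hq 0 6).add (hq 2 6)).pow 2) ((contDiffAt_const.mul (hX 4)).mul
    (by fun_prop : ContDiffAt ℝ ∞ (fun x : MM => x.2.2.2.2.2.1.2.2) x))
    (mul_ne_zero (by positivity) hz)

lemma sB_cd (c : ℝ) (hc : 0 < c) (x : MM) (h : gd c x) : ContDiffAt ℝ ∞ (sB c) x := by
  have hW : ∀ i, ContDiffAt ℝ ∞ (pw i) x := fun i => (pw_cd i).contDiffAt
  have hq : ∀ i j, ContDiffAt ℝ ∞ (qq c i j) x := fun i j => (qq_cd c hc i j).contDiffAt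
  have q := qq_pos c hc x h
  have q1 := q 6 4
  have q2 := q 6 5
  exact ContDiffAt.div ((by fun_prop : ContDiffAt ℝ ∞ (fun x : MM => x.2.2.2.2.2.2.1) x).mul
    ((hW 4).add (hW 5))) ((hq 6 4).mul ((hq 6 5).add (hq 6 4))) (by positivity)

lemma fB_cd (c : ℝ) (hc : 0 < c) (x : MM) (h : gd c x) : ContDiffAt ℝ ∞ (fB c) x := by
  have hW : ∀ i, ContDiffAt ℝ ∞ (pw i) x := fun i => (pw_cd i).contDiffAt
  have hq : ∀ i j, ContDiffAt ℝ ∞ (qq c i j) x := fun i j => (qq_cd c hc i j).contDiffAt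
  have q := qq_pos c hc x h
  have q1 := q 6 4
  have q2 := q 6 5
  have p4 := h.2.2.1 4 (by decide)
  have p5 := h.2.2.1 5 (by decide)
  exact ContDiffAt.div ((by fun_prop : ContDiffAt ℝ ∞ (fun x : MM => x.2.2.2.2.2.2.2.2) x).mul
    ((by fun_prop : ContDiffAt ℝ ∞ (fun x : MM => x.2.2.2.2.2.2.1) x).mul
    ((hW 4).add (hW 5)))) ((hq 6 4).mul (((hW 4).mul (hq 6 5)).add ((hW 5).mul (hq 6 4))))
    (by positivity)

lemma vV_cd (c : ℝ) (hc : 0 < c) (x : MM) (h : gd c x) : ContDiffAt ℝ ∞ (vV c) x := by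
  have hX : ∀ i, ContDiffAt ℝ ∞ (px i) x := fun i => (px_cd i).contDiffAt
  have hq : ∀ i j, ContDiffAt ℝ ∞ (qq c i j) x := fun i j => (qq_cd c hc i j).contDiffAt
  have q := qq_pos c hc x h
  have p4 := h.2.1 4 (by decide)
  have p5 := h.2.1 5 (by decide)
  have h4 := q 4 4
  have h5 := q 5 5
  have h6 := q 0 6
  have h7 := q 2 6
  exact ContDiffAt.div ((((hq 6 4).mul (((hX 4).mul (hq 6 5)).add ((hX 5).mul (hq 6 4)))).mul
    ((hq 4 6).pow 3)).mul ((contDiffAt_const.mul (hX 4)).mul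
    (by fun_prop : ContDiffAt ℝ ∞ (fun x : MM => x.2.2.2.2.2.1.2.2) x)))
    ((((hq 4 4).mul (hq 5 5)).mul (((hX 4).mul (hq 5 5)).add ((hX 5).mul (hq 4 4)))).mul
      (((hq 0 6).mul (hq 2 6)).mul ((hq 0 6).add (hq 2 6)))) (by positivity)

lemma Dd_cd (c : ℝ) (hc : 0 < c) (x : MM) (h : gd c x) : ContDiffAt ℝ ∞ (Dd c) x :=
  (ContDiffAt.div (Fh_cd c hc x h) (vV_cd c hc x h).neg
    (neg_ne_zero.2 (vV_pos c hc x h))).sub
    (((kA_cd c hc x h).add (sB_cd c hc x h)).add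
      ((by fun_prop : ContDiffAt ℝ ∞ (fun x : MM => x.2.2.2.2.1) x).mul
        ((hA_cd c hc x h).mul (fB_cd c hc x h))))

end Pool.Agent.SDT.N1F

end -- N1F.A3c

section -- N1F.A3d

/-!
N1F, block A3: the remainder vanishes at `A = 0`, at `B = 0`, and at `κ = γ = 0`.
-/

namespace Pool.Agent.SDT.N1F

open MeasureTheory Set Metric Pool.Agent.SDT.MP_6cbfb8_an Pool.Agent.SDT.MST Pool.Agent.SDT.N1
open scoped ENNReal Real ContDiff Topology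

lemma gd_c8 (c : ℝ) (x : MM) (h : gd c x) : c ^ 2 / 8 ≤ 1 := by
  have := h.1 6 6
  have h6 : px 6 x = 0 := rfl
  have h7 : pw 6 x = 0 := rfl
  rw [h6, h7] at this
  linarith

lemma Dd_A0 (c : ℝ) (hc : 0 < c) (x : MM) (h : gd c x) (hA : x.1 = 0) : Dd c x = 0 := by
  obtain ⟨A, B, ρ, γ, κ, ⟨y1, a, z1⟩, ⟨y2, b, z2⟩⟩ := x
  simp only at hA
  subst hA
  have c8 := gd_c8 c _ h
  have r1 := qq_pos c hc _ h 6 4
  have r2 := qq_pos c hc _ h 6 5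
  have s1 := qq_sq c hc _ h 6 4
  have s2 := qq_sq c hc _ h 6 5
  have g1 := h.1 6 4
  have g2 := h.1 6 5
  have xa := h.2.1 4 (by decide)
  have xm := h.2.1 5 (by decide)
  have wa := h.2.2.1 4 (by decide)
  have wm := h.2.2.1 5 (by decide)
  have hz : z1 ≠ 0 := h.2.2.2
  unfold Dd Fh kA hA sB fB vV
  unfold qq at *
  set x : MM := (0, B, ρ, γ, κ, (y1, a, z1), (y2, b, z2)) with hx
  have W0 : pw 0 x = b := by show b + 0 * κ * γ * z2 / 2 = b; ring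
  have W2 : pw 2 x = b := by show b - 0 * κ * γ * z2 / 2 = b; ring
  have W4 : pw 4 x = b := rfl
  have W1 : pw 1 x = pw 5 x := by
    show b + 0 * κ * γ * z2 / 2 - ρ * y2 = b - ρ * y2; ring
  have W3 : pw 3 x = pw 5 x := by
    show b - 0 * κ * γ * z2 / 2 - ρ * y2 = b - ρ * y2; ring
  have W5 : pw 5 x = b - ρ * y2 := rfl
  have W6 : pw 6 x = 0 := rfl
  have X13 : px 1 x + px 3 x = 2 * px 5 x := by
    show a + γ * z1 / 2 - B * ρ * y1 + (a - γ * z1 / 2 - B * ρ * y1) = 2 * (a - B * ρ * y1)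
    ring
  have X4 : px 4 x = a := rfl
  have X02 : px 0 x + px 2 x = 2 * a := by
    show a + γ * z1 / 2 + (a - γ * z1 / 2) = 2 * a
    ring
  have X5 : px 5 x = a - B * ρ * y1 := rfl
  rw [W4] at r1 s1 g1 wa
  have hx1 : x.1 = 0 := rfl
  have hx2 : x.2.1 = B := rfl
  have hx3 : x.2.2.2.2.2.1 = (y1, a, z1) := rfl
  have hx4 : x.2.2.2.2.2.2 = (y2, b, z2) := rfl
  have hx5 : x.2.2.2.2.1 = κ := rfl
  rw [hx1, hx2, hx3, hx4, hx5, W0, W1, W2, W3, W4]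
  rw [hx1, hx2] at r1 r2 s1 s2 g1 g2
  rw [W6]
  simp only [zero_mul, mul_zero, ne_eq, OfNat.ofNat_ne_zero, not_false_eq_true, zero_pow] at *
  rw [E1_v1 c _ _ _ _ _ r1, Qs_zero c hc c8]
  have g1' : c ^ 2 / 8 < 1 - B * b ^ 2 - 0 := by linarith
  have g2' : c ^ 2 / 8 < 1 - B * pw 5 x ^ 2 - 0 := by linarith
  rw [E1_v2 c hc B b (pw 5 x) 0 wa wm g1' g2', E3_v4 c B _ _ _ _ r1 r2, X13]
  rw [Qs_comm c (B * b ^ 2) 0, Qs_comm c (B * pw 5 x ^ 2) 0]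
  set r := Qs c 0 (B * b ^ 2)
  set t := Qs c 0 (B * pw 5 x ^ 2)
  have hrt : t ^ 2 - r ^ 2 = B * ρ * y2 * (b + pw 5 x) := by
    rw [s1, s2, W5]; ring
  have xs : px 0 x * 1 + px 2 x * 1 = 2 * a := by rw [mul_one, mul_one]; exact X02
  rw [xs, X4]
  rw [X4] at xa
  have hyy : B * ρ * y1 = a - px 5 x := by rw [X5]; ring
  have d1 : a * t + px 5 x * r ≠ 0 := by positivity
  have d2 : b * t + pw 5 x * r ≠ 0 := by positivity
  field_simp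
  linear_combination (8 * (t + r) * z1 * (b * t + r * pw 5 x) * y1) * hrt +
    (8 * (t + r) * z1 * (b * t + r * pw 5 x) * y2 * (b + pw 5 x)) * hyy

lemma Dd_B0 (c : ℝ) (hc : 0 < c) (x : MM) (h : gd c x) (hB : x.2.1 = 0) : Dd c x = 0 := by
  obtain ⟨A, B, ρ, γ, κ, ⟨y1, a, z1⟩, ⟨y2, b, z2⟩⟩ := x
  simp only at hB
  subst hB
  have c8 := gd_c8 c _ h
  have r1 := qq_pos c hc _ h 0 6
  have r2 := qq_pos c hc _ h 2 6
  have r3 := qq_pos c hc _ h 4 6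
  have s1 := qq_sq c hc _ h 0 6
  have s2 := qq_sq c hc _ h 2 6
  have s3 := qq_sq c hc _ h 4 6
  have x0 := h.2.1 0 (by decide)
  have x2 := h.2.1 2 (by decide)
  have xa := h.2.1 4 (by decide)
  have wa := h.2.2.1 4 (by decide)
  have wm := h.2.2.1 5 (by decide)
  have hz : z1 ≠ 0 := h.2.2.2
  unfold Dd Fh kA hA sB fB vV
  unfold qq at *
  set x : MM := (A, 0, ρ, γ, κ, (y1, a, z1), (y2, b, z2)) with hx
  have X1 : px 1 x = px 0 x := by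
    show a + γ * z1 / 2 - 0 * ρ * y1 = a + γ * z1 / 2; ring
  have X3 : px 3 x = px 2 x := by
    show a - γ * z1 / 2 - 0 * ρ * y1 = a - γ * z1 / 2; ring
  have X5 : px 5 x = px 4 x := by
    show a - 0 * ρ * y1 = a; ring
  have X4 : px 4 x = a := rfl
  have X6 : px 6 x = 0 := rfl
  have X0 : px 0 x = a + γ * z1 / 2 := rfl
  have X2 : px 2 x = a - γ * z1 / 2 := rfl
  have W6 : pw 6 x = 0 := rfl
  have W23 : pw 2 x + pw 3 x = 2 * b - ρ * y2 - A * κ * γ * z2 := by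
    show b - A * κ * γ * z2 / 2 + (b - A * κ * γ * z2 / 2 - ρ * y2) = _
    ring
  have W45 : pw 4 x + pw 5 x = 2 * b - ρ * y2 := by
    show b + (b - ρ * y2) = _
    ring
  have hx1 : x.1 = A := rfl
  have hx2 : x.2.1 = 0 := rfl
  have hx3 : x.2.2.2.2.2.1 = (y1, a, z1) := rfl
  have hx4 : x.2.2.2.2.2.2 = (y2, b, z2) := rfl
  have hx5 : x.2.2.2.2.1 = κ := rfl
  rw [hx1, hx2, hx3, hx4, hx5, X1, X3, X5]
  rw [hx1, hx2, W6] at r1 r2 r3 s1 s2 s3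
  rw [X6]
  simp only [zero_mul, mul_zero, ne_eq, OfNat.ofNat_ne_zero, not_false_eq_true, zero_pow] at *
  rw [E1_v3 c A _ _ _ r1 r2, E1_v1 c _ _ _ _ _ (by
    rw [Qs_comm]; exact r1), Qs_comm c 0 (A * px 0 x ^ 2), E3_v5 c A _ _ _ _ r1 r2, Qs_zero c hc c8,
    W23]
  set r := Qs c (A * px 0 x ^ 2) 0
  set t := Qs c (A * px 2 x ^ 2) 0
  set p := Qs c (A * px 4 x ^ 2) 0
  have f1 : pw 4 x * 1 + pw 5 x * 1 = 2 * b - ρ * y2 := by rw [mul_one, mul_one]; exact W45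
  have f2 : 0 < 2 * b - ρ * y2 := by rw [← W45]; positivity
  rw [f1, W45]
  have hrt : t ^ 2 - r ^ 2 = 2 * A * γ * z1 * a := by
    rw [s1, s2, X0, X2]; ring
  rw [X4]
  rw [X4] at xa
  have d1 : px 0 x * t + px 2 x * r ≠ 0 := by positivity
  have X02 : px 0 x + px 2 x = 2 * a := by rw [X0, X2]; ring
  set S := 2 * b - ρ * y2 with hS
  rw [X02]
  field_simp
  linear_combination (8 * y1 * z1 * (px 0 x * t + r * px 2 x + px 2 x * t)) * s1 +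
    (8 * y1 * z1 * px 0 x * r) * s2 -
    8 * y1 * z1 * ((px 0 x * t + r * px 2 x) * A * px 0 x - (r + t)) * X02 +
    (4 * y2 * z2 * κ * (px 0 x * t + r * px 2 x)) * hrt

end Pool.Agent.SDT.N1F

end -- N1F.A3d

section -- N1F.A3e

/-!
N1F, block A3: the remainder at `κ = γ = 0` and at `ρ = γ = 0`.
-/

namespace Pool.Agent.SDT.N1F

open MeasureTheory Set Metric Pool.Agent.SDT.MP_6cbfb8_an Pool.Agent.SDT.MST Pool.Agent.SDT.N1
open scoped ENNReal Real ContDiff Topology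

lemma Dd_g0 (c : ℝ) (hc : 0 < c) (x : MM) (h : gd c x) (hγ : x.2.2.2.1 = 0)
    (hκ : x.2.2.2.2.1 = 0) (hB : x.2.1 ≠ 0) (hρ : x.2.2.1 ≠ 0) : Dd c x = 0 := by
  obtain ⟨A, B, ρ, γ, κ, ⟨y1, a, z1⟩, ⟨y2, b, z2⟩⟩ := x
  simp only at hκ hγ hB hρ
  subst hκ
  subst hγ
  have r1 := qq_pos c hc _ h 6 4
  have r2 := qq_pos c hc _ h 6 5
  have r3 := qq_pos c hc _ h 4 6
  have q1 := qq_pos c hc _ h 4 4
  have q2 := qq_pos c hc _ h 5 4
  have q3 := qq_pos c hc _ h 5 5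
  have s1 := qq_sq c hc _ h 6 4
  have s2 := qq_sq c hc _ h 6 5
  have t1 := qq_sq c hc _ h 4 4
  have t2 := qq_sq c hc _ h 5 4
  have t3 := qq_sq c hc _ h 5 5
  have g1 := h.1 4 4
  have g2 := h.1 5 4
  have g3 := h.1 5 5
  have xa := h.2.1 4 (by decide)
  have xm := h.2.1 5 (by decide)
  have wa := h.2.2.1 4 (by decide)
  have wm := h.2.2.1 5 (by decide)
  have hz : z1 ≠ 0 := h.2.2.2
  unfold Dd Fh kA hA sB fB vV
  unfold qq at *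
  set x : MM := (A, B, ρ, 0, 0, (y1, a, z1), (y2, b, z2)) with hx
  have X0 : px 0 x = a := by show a + 0 * z1 / 2 = a; ring
  have X2 : px 2 x = a := by show a - 0 * z1 / 2 = a; ring
  have X1 : px 1 x = px 5 x := by show a + 0 * z1 / 2 - B * ρ * y1 = a - B * ρ * y1; ring
  have X3 : px 3 x = px 5 x := by show a - 0 * z1 / 2 - B * ρ * y1 = a - B * ρ * y1; ring
  have X5 : px 5 x = a - B * ρ * y1 := rfl
  have X4 : px 4 x = a := rfl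
  have X6 : px 6 x = 0 := rfl
  have W0 : pw 0 x = b := by show b + A * 0 * 0 * z2 / 2 = b; ring
  have W2 : pw 2 x = b := by show b - A * 0 * 0 * z2 / 2 = b; ring
  have W1 : pw 1 x = pw 5 x := by show b + A * 0 * 0 * z2 / 2 - ρ * y2 = b - ρ * y2; ring
  have W3 : pw 3 x = pw 5 x := by show b - A * 0 * 0 * z2 / 2 - ρ * y2 = b - ρ * y2; ring
  have W5 : pw 5 x = b - ρ * y2 := rfl
  have W4 : pw 4 x = b := rfl
  have W6 : pw 6 x = 0 := rfl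
  have hx1 : x.1 = A := rfl
  have hx2 : x.2.1 = B := rfl
  have hx3 : x.2.2.2.2.2.1 = (y1, a, z1) := rfl
  have hx4 : x.2.2.2.2.2.2 = (y2, b, z2) := rfl
  have hx5 : x.2.2.2.2.1 = 0 := rfl
  rw [hx1, hx2, hx3, hx4, hx5, X0, X1, X2, X3, X4, W0, W1, W2, W3, W4]
  rw [X6, W6]
  simp only [hx1, hx2, X4, W4, X6, W6, ne_eq, OfNat.ofNat_ne_zero, not_false_eq_true, zero_pow,
    mul_zero] at r1 r2 r3 q1 q2 q3 s1 s2 t1 t2 t3 g1 g2 g3 xa wa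
  simp only [ne_eq, OfNat.ofNat_ne_zero, not_false_eq_true, zero_pow, mul_zero]
  rw [E1_v2 c hc A a (px 5 x) (B * b ^ 2) xa xm g1 g2, E3_v6 c A B _ _ _ q2 q3]
  set Rp := Qs c 0 (B * b ^ 2)
  set Rm := Qs c 0 (B * pw 5 x ^ 2)
  set P := Qs c (A * a ^ 2) 0
  set Q := Qs c (A * a ^ 2) (B * b ^ 2)
  set Q1 := Qs c (A * px 5 x ^ 2) (B * b ^ 2)
  set Q2 := Qs c (A * px 5 x ^ 2) (B * pw 5 x ^ 2)
  have hBρ : B * ρ ≠ 0 := mul_ne_zero hB hρ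
  set x5 := px 5 x
  set w5 := pw 5 x
  have hy1 : B * ρ * y1 = a - x5 := by rw [X5]; ring
  have hy2 : B * ρ * y2 * (b + w5) = B * (b ^ 2 - w5 ^ 2) := by rw [W5]; ring
  have L1 : B * ρ * (y1 * ((1 - B * b ^ 2) * (a + x5) / (Q * Q1 * (a * Q1 + x5 * Q)))) =
      a / Q - x5 / Q1 := by
    have e : B * ρ * (y1 * ((1 - B * b ^ 2) * (a + x5) / (Q * Q1 * (a * Q1 + x5 * Q)))) =
      (B * ρ * y1) * ((1 - B * b ^ 2) * (a + x5)) / (Q * Q1 * (a * Q1 + x5 * Q)) := by ring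
    rw [e, hy1, div_sub_div _ _ q1.ne' q2.ne', div_eq_div_iff (by positivity) (by positivity)]
    linear_combination (-(Q * Q1) * a ^ 2) * t2 + (Q * Q1 * x5 ^ 2) * t1
  have L2 : B * ρ * (y2 * (x5 * (b + w5) / (Q1 * Q2 * (Q1 + Q2)))) = x5 / Q1 - x5 / Q2 := by
    have e : B * ρ * (y2 * (x5 * (b + w5) / (Q1 * Q2 * (Q1 + Q2)))) =
      (B * ρ * y2 * (b + w5)) * x5 / (Q1 * Q2 * (Q1 + Q2)) := by ring
    rw [e, hy2, div_sub_div _ _ q2.ne' q3.ne', div_eq_div_iff (by positivity) (by positivity)]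
    linear_combination (Q1 * Q2 * x5) * t2 - (Q1 * Q2 * x5) * t3
  have L3 : B * ρ * (y1 / a + y2 * (b + w5) / (Rp * (Rm + Rp))) =
      (a * Rm - x5 * Rp) / (a * Rp) := by
    have e : B * ρ * (y1 / a + y2 * (b + w5) / (Rp * (Rm + Rp))) =
      (B * ρ * y1) / a + (B * ρ * y2 * (b + w5)) / (Rp * (Rm + Rp)) := by ring
    rw [e, hy1, hy2]
    have e2 : B * (b ^ 2 - w5 ^ 2) = (Rm - Rp) * (Rm + Rp) := by
      linear_combination s1 - s2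
    rw [e2]
    field_simp
    ring
  have L4 : Rp * (a * Rm + x5 * Rp) * a / (Q * Q2 * (a * Q2 + x5 * Q)) *
      ((a * Rm - x5 * Rp) / (a * Rp)) = a / Q - x5 / Q2 := by
    rw [div_mul_div_comm, div_sub_div _ _ q1.ne' q3.ne', div_eq_div_iff (by positivity)
      (by positivity)]
    have e3 : a ^ 2 * Rm ^ 2 - x5 ^ 2 * Rp ^ 2 = a ^ 2 * Q2 ^ 2 - x5 ^ 2 * Q ^ 2 := by
      rw [s1, s2, t1, t3]; ring
    linear_combination (Rp * a * Q * Q2) * e3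
  have hV : Rp * (a * Rm + x5 * Rp) * P ^ 3 * (2 * a * z1) /
      (Q * Q2 * (a * Q2 + x5 * Q) * (P * P * (P + P))) =
      z1 * (Rp * (a * Rm + x5 * Rp) * a / (Q * Q2 * (a * Q2 + x5 * Q))) := by
    field_simp
    ring
  have hk : y1 * (P + P) / (a * P + a * P) = y1 / a := by
    field_simp
  have hVne : z1 * (Rp * (a * Rm + x5 * Rp) * a / (Q * Q2 * (a * Q2 + x5 * Q))) ≠ 0 :=
    mul_ne_zero hz (by positivity)
  rw [hV, hk]
  set V1 := Rp * (a * Rm + x5 * Rp) * a / (Q * Q2 * (a * Q2 + x5 * Q)) with hV1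
  set F1 := (1 - B * b ^ 2) * (a + x5) / (Q * Q1 * (a * Q1 + x5 * Q))
  set F2 := x5 * (b + w5) / (Q1 * Q2 * (Q1 + Q2))
  set S2 := y2 * (b + w5) / (Rp * (Rm + Rp))
  have key : y1 * F1 + y2 * F2 = V1 * (y1 / a + S2) := by
    apply mul_left_cancel₀ hBρ
    have : B * ρ * (V1 * (y1 / a + S2)) = V1 * (B * ρ * (y1 / a + S2)) := by ring
    rw [this, L3, L4]
    linear_combination L1 + L2
  have hV1ne : V1 ≠ 0 := right_ne_zero_of_mul hVne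
  simp only [zero_mul, add_zero]
  rw [sub_eq_zero, div_eq_iff (neg_ne_zero.2 hVne)]
  linear_combination (-z1) * key

lemma Dd_base (c : ℝ) (hc : 0 < c) (x : MM) (h : gd c x) (hρ : x.2.2.1 = 0)
    (hγ : x.2.2.2.1 = 0) : Dd c x = x.1 * x.2.1 * (x.2.2.2.2.1 *
      (x.2.2.2.2.2.1.1 / x.2.2.2.2.2.1.2.2 * (x.2.2.2.2.2.2.2.1 * x.2.2.2.2.2.2.2.2 /
        (1 - x.2.1 * x.2.2.2.2.2.2.2.1 ^ 2)))) := by
  obtain ⟨A, B, ρ, γ, κ, ⟨y1, a, z1⟩, ⟨y2, b, z2⟩⟩ := x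
  simp only at hρ hγ
  subst hρ
  subst hγ
  have r1 := qq_pos c hc _ h 6 4
  have r3 := qq_pos c hc _ h 4 6
  have q1 := qq_pos c hc _ h 4 4
  have s1 := qq_sq c hc _ h 6 4
  have s3 := qq_sq c hc _ h 4 6
  have t1 := qq_sq c hc _ h 4 4
  have g1 := h.1 4 4
  have xa := h.2.1 4 (by decide)
  have wa := h.2.2.1 4 (by decide)
  have hz : z1 ≠ 0 := h.2.2.2
  unfold Dd Fh kA hA sB fB vV
  unfold qq at *
  set x : MM := (A, B, 0, 0, κ, (y1, a, z1), (y2, b, z2)) with hx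
  have X0 : px 0 x = a := by show a + 0 * z1 / 2 = a; ring
  have X2 : px 2 x = a := by show a - 0 * z1 / 2 = a; ring
  have X1 : px 1 x = a := by show a + 0 * z1 / 2 - B * 0 * y1 = a; ring
  have X3 : px 3 x = a := by show a - 0 * z1 / 2 - B * 0 * y1 = a; ring
  have X5 : px 5 x = a := by show a - B * 0 * y1 = a; ring
  have X4 : px 4 x = a := rfl
  have X6 : px 6 x = 0 := rfl
  have W0 : pw 0 x = b := by show b + A * κ * 0 * z2 / 2 = b; ring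
  have W2 : pw 2 x = b := by show b - A * κ * 0 * z2 / 2 = b; ring
  have W1 : pw 1 x = b := by show b + A * κ * 0 * z2 / 2 - 0 * y2 = b; ring
  have W3 : pw 3 x = b := by show b - A * κ * 0 * z2 / 2 - 0 * y2 = b; ring
  have W5 : pw 5 x = b := by show b - 0 * y2 = b; ring
  have W4 : pw 4 x = b := rfl
  have W6 : pw 6 x = 0 := rfl
  have hx1 : x.1 = A := rfl
  have hx2 : x.2.1 = B := rfl
  have hx3 : x.2.2.2.2.2.1 = (y1, a, z1) := rfl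
  have hx4 : x.2.2.2.2.2.2 = (y2, b, z2) := rfl
  have hx5 : x.2.2.2.2.1 = κ := rfl
  rw [hx1, hx2, hx3, hx4, hx5, X0, X1, X2, X3, X4, X5, W0, W1, W2, W3, W4, W5]
  rw [X6, W6]
  simp only [hx1, hx2, X4, W4, X6, W6, ne_eq, OfNat.ofNat_ne_zero, not_false_eq_true, zero_pow,
    mul_zero] at r1 r3 q1 s1 s3 t1 g1 xa wa
  simp only [ne_eq, OfNat.ofNat_ne_zero, not_false_eq_true, zero_pow, mul_zero]
  have g1' : c ^ 2 / 8 < 1 - B * b ^ 2 - A * a ^ 2 := by linarith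
  rw [E1_v2 c hc A a a (B * b ^ 2) xa xa g1 g1, E1_v2 c hc B b b (A * a ^ 2) wa wa g1' g1',
    E3_v6 c A B _ _ _ q1 q1, Qs_comm c (B * b ^ 2) (A * a ^ 2)]
  set R := Qs c 0 (B * b ^ 2)
  set P := Qs c (A * a ^ 2) 0
  set Q := Qs c (A * a ^ 2) (B * b ^ 2)
  have hR : 1 - B * b ^ 2 = R ^ 2 := by linarith
  have hP : 1 - A * a ^ 2 = P ^ 2 := by linarith
  rw [hR, hP]
  field_simp
  ring

end Pool.Agent.SDT.N1F

end -- N1F.A3e

section -- N1F.A3f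

/-!
N1F, block A3: the exact identity and the symmetry in `γ`.
-/

namespace Pool.Agent.SDT.N1F

open MeasureTheory Set Metric Pool.Agent.SDT.MP_6cbfb8_an Pool.Agent.SDT.MST Pool.Agent.SDT.N1
open scoped ENNReal Real ContDiff Topology

lemma Fh_id (c : ℝ) (hc : 0 < c) (x : MM) (h : gd c x) :
    x.1 * x.2.1 * x.2.2.1 * x.2.2.2.1 * Fh c x =
      qq c 0 0 x - qq c 1 1 x - qq c 2 2 x + qq c 3 3 x := by
  obtain ⟨A, B, ρ, γ, κ, ⟨y1, a, z1⟩, ⟨y2, b, z2⟩⟩ := x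
  have g := h.1
  unfold Fh
  unfold qq
  set x : MM := (A, B, ρ, γ, κ, (y1, a, z1), (y2, b, z2)) with hx
  have hx1 : x.1 = A := rfl
  have hx2 : x.2.1 = B := rfl
  have hx6 : x.2.2.1 = ρ := rfl
  have hx7 : x.2.2.2.1 = γ := rfl
  have hx3 : x.2.2.2.2.2.1 = (y1, a, z1) := rfl
  have hx4 : x.2.2.2.2.2.2 = (y2, b, z2) := rfl
  have hx5 : x.2.2.2.2.1 = κ := rfl
  rw [hx1, hx2, hx3, hx4, hx5, hx6, hx7]
  simp only
  have X1 : px 0 x - B * ρ * y1 = px 1 x := rfl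
  have X2 : px 0 x - γ * z1 = px 2 x := by
    show a + γ * z1 / 2 - γ * z1 = a - γ * z1 / 2
    ring
  have X3 : px 0 x - B * ρ * y1 - γ * z1 = px 3 x := by
    show a + γ * z1 / 2 - B * ρ * y1 - γ * z1 = a - γ * z1 / 2 - B * ρ * y1
    ring
  have X3' : px 1 x - γ * z1 = px 3 x := X3
  have W1 : pw 0 x - ρ * y2 = pw 1 x := rfl
  have W2 : pw 0 x - A * κ * γ * z2 = pw 2 x := by
    show b + A * κ * γ * z2 / 2 - A * κ * γ * z2 = b - A * κ * γ * z2 / 2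
    ring
  have W3 : pw 0 x - ρ * y2 - A * κ * γ * z2 = pw 3 x := by
    show b + A * κ * γ * z2 / 2 - ρ * y2 - A * κ * γ * z2 = b - A * κ * γ * z2 / 2 - ρ * y2
    ring
  have W3' : pw 2 x - ρ * y2 = pw 3 x := rfl
  have W3'' : pw 1 x - A * κ * γ * z2 = pw 3 x := W3
  have gg : ∀ i j : Fin 7, c ^ 2 / 8 ≤ 1 - A * px i x ^ 2 - B * pw j x ^ 2 := fun i j => (g i j).le
  have gg' : ∀ i j : Fin 7, c ^ 2 / 8 ≤ 1 - B * pw j x ^ 2 - A * px i x ^ 2 := by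
    intro i j
    have := gg i j
    linarith
  have e1 := E1_id c hc A (px 0 x) (B * ρ * y1) (γ * z1) (B * pw 2 x ^ 2)
    (gg 0 2) (by rw [X1]; exact gg 1 2) (by rw [X2]; exact gg 2 2) (by rw [X3]; exact gg 3 2)
  have e2 := E1_id c hc B (pw 0 x) (ρ * y2) (A * κ * γ * z2) (A * px 1 x ^ 2)
    (gg' 1 0) (by rw [W1]; exact gg' 1 1) (by rw [W2]; exact gg' 1 2) (by rw [W3]; exact gg' 1 3)
  have e3 := E3_id c hc A B (px 0 x) (B * ρ * y1) (pw 0 x) (A * κ * γ * z2)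
    (gg 0 0) (by rw [X1]; exact gg 1 0) (by rw [W2]; exact gg 0 2) (by rw [X1, W2]; exact gg 1 2)
  have e4 := E3_id c hc A B (px 1 x) (γ * z1) (pw 2 x) (ρ * y2)
    (gg 1 2) (by rw [X3']; exact gg 3 2) (by rw [W3']; exact gg 1 3) (by rw [X3', W3']; exact gg 3 3)
  rw [X1, X2, X3'] at e1
  rw [W1, W2, W3''] at e2
  rw [X1, W2] at e3
  rw [X3', W3'] at e4
  rw [Qs_comm c (B * pw 0 x ^ 2), Qs_comm c (B * pw 1 x ^ 2), Qs_comm c (B * pw 2 x ^ 2),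
    Qs_comm c (B * pw 3 x ^ 2)] at e2
  linear_combination (-1) * e1 - e2 - e3 - e4

/-- Reflection of `γ`. -/
def rfg (x : MM) : MM := (x.1, x.2.1, x.2.2.1, -x.2.2.2.1, x.2.2.2.2)

lemma px_r0 (x : MM) : px 0 (rfg x) = px 2 x := by
  show x.2.2.2.2.2.1.2.1 + -x.2.2.2.1 * x.2.2.2.2.2.1.2.2 / 2 =
    x.2.2.2.2.2.1.2.1 - x.2.2.2.1 * x.2.2.2.2.2.1.2.2 / 2
  ring

lemma px_r2 (x : MM) : px 2 (rfg x) = px 0 x := by
  show x.2.2.2.2.2.1.2.1 - -x.2.2.2.1 * x.2.2.2.2.2.1.2.2 / 2 =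
    x.2.2.2.2.2.1.2.1 + x.2.2.2.1 * x.2.2.2.2.2.1.2.2 / 2
  ring

lemma px_r1 (x : MM) : px 1 (rfg x) = px 3 x := by
  show x.2.2.2.2.2.1.2.1 + -x.2.2.2.1 * x.2.2.2.2.2.1.2.2 / 2 - x.2.1 * x.2.2.1 *
      x.2.2.2.2.2.1.1 =
    x.2.2.2.2.2.1.2.1 - x.2.2.2.1 * x.2.2.2.2.2.1.2.2 / 2 - x.2.1 * x.2.2.1 * x.2.2.2.2.2.1.1
  ring

lemma px_r3 (x : MM) : px 3 (rfg x) = px 1 x := by
  show x.2.2.2.2.2.1.2.1 - -x.2.2.2.1 * x.2.2.2.2.2.1.2.2 / 2 - x.2.1 * x.2.2.1 *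
      x.2.2.2.2.2.1.1 =
    x.2.2.2.2.2.1.2.1 + x.2.2.2.1 * x.2.2.2.2.2.1.2.2 / 2 - x.2.1 * x.2.2.1 * x.2.2.2.2.2.1.1
  ring

lemma pw_r0 (x : MM) : pw 0 (rfg x) = pw 2 x := by
  show x.2.2.2.2.2.2.2.1 + x.1 * x.2.2.2.2.1 * -x.2.2.2.1 * x.2.2.2.2.2.2.2.2 / 2 =
    x.2.2.2.2.2.2.2.1 - x.1 * x.2.2.2.2.1 * x.2.2.2.1 * x.2.2.2.2.2.2.2.2 / 2
  ring

lemma pw_r2 (x : MM) : pw 2 (rfg x) = pw 0 x := by
  show x.2.2.2.2.2.2.2.1 - x.1 * x.2.2.2.2.1 * -x.2.2.2.1 * x.2.2.2.2.2.2.2.2 / 2 =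
    x.2.2.2.2.2.2.2.1 + x.1 * x.2.2.2.2.1 * x.2.2.2.1 * x.2.2.2.2.2.2.2.2 / 2
  ring

lemma pw_r1 (x : MM) : pw 1 (rfg x) = pw 3 x := by
  show x.2.2.2.2.2.2.2.1 + x.1 * x.2.2.2.2.1 * -x.2.2.2.1 * x.2.2.2.2.2.2.2.2 / 2 -
      x.2.2.1 * x.2.2.2.2.2.2.1 =
    x.2.2.2.2.2.2.2.1 - x.1 * x.2.2.2.2.1 * x.2.2.2.1 * x.2.2.2.2.2.2.2.2 / 2 -
      x.2.2.1 * x.2.2.2.2.2.2.1
  ring

lemma pw_r3 (x : MM) : pw 3 (rfg x) = pw 1 x := by
  show x.2.2.2.2.2.2.2.1 - x.1 * x.2.2.2.2.1 * -x.2.2.2.1 * x.2.2.2.2.2.2.2.2 / 2 -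
      x.2.2.1 * x.2.2.2.2.2.2.1 =
    x.2.2.2.2.2.2.2.1 + x.1 * x.2.2.2.2.1 * x.2.2.2.1 * x.2.2.2.2.2.2.2.2 / 2 -
      x.2.2.1 * x.2.2.2.2.2.2.1
  ring

lemma px_r4 (x : MM) : px 4 (rfg x) = px 4 x := rfl
lemma px_r5 (x : MM) : px 5 (rfg x) = px 5 x := rfl
lemma px_r6 (x : MM) : px 6 (rfg x) = px 6 x := rfl
lemma pw_r4 (x : MM) : pw 4 (rfg x) = pw 4 x := rfl
lemma pw_r5 (x : MM) : pw 5 (rfg x) = pw 5 x := rfl
lemma pw_r6 (x : MM) : pw 6 (rfg x) = pw 6 x := rfl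

lemma Dd_even (c : ℝ) (hc : 0 < c) (x : MM) (h : gd c x) (h' : gd c (rfg x)) (hA0 : x.1 ≠ 0)
    (hB : x.2.1 ≠ 0) (hρ : x.2.2.1 ≠ 0) (hγ : x.2.2.2.1 ≠ 0) : Dd c (rfg x) = Dd c x := by
  have h1 := Fh_id c hc x h
  have h2 := Fh_id c hc _ h'
  have r1 : (rfg x).1 = x.1 := rfl
  have r2 : (rfg x).2.1 = x.2.1 := rfl
  have r3 : (rfg x).2.2.1 = x.2.2.1 := rfl
  have r4 : (rfg x).2.2.2.1 = -x.2.2.2.1 := rfl
  have r5 : (rfg x).2.2.2.2 = x.2.2.2.2 := rfl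
  have q : ∀ i j i' j' : Fin 7, px i (rfg x) = px i' x → pw j (rfg x) = pw j' x →
      qq c i j (rfg x) = qq c i' j' x := by
    intro i j i' j' k1 k2
    unfold qq
    rw [k1, k2, r1, r2]
  have hF : Fh c (rfg x) = Fh c x := by
    rw [q 0 0 2 2 (px_r0 x) (pw_r0 x), q 1 1 3 3 (px_r1 x) (pw_r1 x),
      q 2 2 0 0 (px_r2 x) (pw_r2 x), q 3 3 1 1 (px_r3 x) (pw_r3 x), r1, r2, r3, r4] at h2
    have hne : x.1 * x.2.1 * x.2.2.1 * x.2.2.2.1 ≠ 0 :=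
      mul_ne_zero (mul_ne_zero (mul_ne_zero hA0 hB) hρ) hγ
    apply mul_left_cancel₀ hne
    linarith
  have q06 := q 0 6 2 6 (px_r0 x) (pw_r6 x)
  have q26 := q 2 6 0 6 (px_r2 x) (pw_r6 x)
  have q64 := q 6 4 6 4 (px_r6 x) (pw_r4 x)
  have q65 := q 6 5 6 5 (px_r6 x) (pw_r5 x)
  have q46 := q 4 6 4 6 (px_r4 x) (pw_r6 x)
  have q44 := q 4 4 4 4 (px_r4 x) (pw_r4 x)
  have q55 := q 5 5 5 5 (px_r5 x) (pw_r5 x)
  have e1 : kA c (rfg x) = kA c x := by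
    unfold kA
    rw [q06, q26, px_r0, px_r2, r5]
    congr 1 <;> ring
  have e2 : hA c (rfg x) = hA c x := by
    unfold hA
    rw [q06, q26, px_r4, r5]
    ring
  have e3 : sB c (rfg x) = sB c x := by
    unfold sB
    rw [q64, q65, pw_r4, pw_r5, r5]
  have e4 : fB c (rfg x) = fB c x := by
    unfold fB
    rw [q64, q65, pw_r4, pw_r5, r5]
  have e5 : vV c (rfg x) = vV c x := by
    unfold vV
    rw [q64, q65, q46, q44, q55, q06, q26, px_r4, px_r5, r5]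
    ring
  unfold Dd
  rw [hF, e1, e2, e3, e4, e5, r5]

end Pool.Agent.SDT.N1F

end -- N1F.A3f

section -- N1F.A3g

/-!
N1F, block A3: divisions in two variables.
-/

namespace Pool.Agent.SDT.N1F

open MeasureTheory Set Metric Pool.Agent.SDT.MP_6cbfb8_an Pool.Agent.SDT.MST Pool.Agent.SDT.N1
open scoped ENNReal Real ContDiff Topology

lemma mem_sw {E : Type*} [NormedAddCommGroup E] (A B A0 B0 : ℝ) (e e0 : E) (r : ℝ) :
    (A, B, e) ∈ ball (A0, B0, e0) r ↔ (B, A, e) ∈ ball (B0, A0, e0) r := by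
  simp only [mem_ball, Prod.dist_eq, max_lt_iff]
  tauto

lemma mem_parts {E : Type*} [NormedAddCommGroup E] (A B A0 B0 : ℝ) (e e0 : E) (r : ℝ) :
    (A, B, e) ∈ ball (A0, B0, e0) r ↔ |A - A0| < r ∧ |B - B0| < r ∧ e ∈ ball e0 r := by
  simp only [mem_ball, Prod.dist_eq, max_lt_iff, Real.dist_eq]

theorem had2 {E : Type*} [NormedAddCommGroup E] [NormedSpace ℝ E] [FiniteDimensional ℝ E]
    (D : ℝ × ℝ × E → ℝ) (A0 B0 : ℝ) (e0 : E) (r : ℝ) (hr : 0 < r)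
    (hD : ContDiffOn ℝ ∞ D (ball (A0, B0, e0) r))
    (hA : ∀ B e, ((0 : ℝ), B, e) ∈ ball (A0, B0, e0) r → D (0, B, e) = 0)
    (hB : ∀ A e, (A, (0 : ℝ), e) ∈ ball (A0, B0, e0) r → D (A, 0, e) = 0) :
    ∃ r' : ℝ, 0 < r' ∧ r' ≤ r ∧ ∃ K : ℝ × ℝ × E → ℝ, ContDiffOn ℝ ∞ K (ball (A0, B0, e0) r') ∧
      ∀ x ∈ ball (A0, B0, e0) r', D x = x.1 * (x.2.1 * K x) := by
  obtain ⟨r1, hr1, hr1r, G, hG, hDG⟩ := had1 D A0 (B0, e0) r hr hD (fun e he => hA e.1 e.2 he)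
  have hG0 : ∀ A e, (A, (0 : ℝ), e) ∈ ball (A0, B0, e0) r1 → G (A, 0, e) = 0 := by
    intro A e hx
    have hcont : Continuous fun z : ℝ × E => (z.1, (0 : ℝ), z.2) := by fun_prop
    have hU : IsOpen {z : ℝ × E | (z.1, (0 : ℝ), z.2) ∈ ball (A0, B0, e0) r1} :=
      isOpen_ball.preimage hcont
    have := dens (fun z : ℝ × E => G (z.1, 0, z.2)) (fun _ => 0) _ hU
      (hG.continuousOn.comp hcont.continuousOn (fun z hz => hz)) continuousOn_const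
      {z | z.1 ≠ 0} ((1 : ℝ), (0 : E)) (by
        intro z
        filter_upwards [ev_ne z.1] with t ht
        simpa using ht) (by
        intro z hz hz1
        have h1 := hDG _ hz
        rw [hB _ _ (ball_subset_ball hr1r hz)] at h1
        rcases mul_eq_zero.1 h1.symm with h2 | h2
        · exact absurd h2 hz1
        · exact h2) (A, e) hx
    exact this
  have hG' : ContDiffOn ℝ ∞ (fun z : ℝ × ℝ × E => G (z.2.1, z.1, z.2.2)) (ball (B0, A0, e0) r1) := by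
    have hs : ContDiff ℝ ∞ fun z : ℝ × ℝ × E => (z.2.1, z.1, z.2.2) := by fun_prop
    exact hG.comp hs.contDiffOn (fun z hz => (mem_sw z.2.1 z.1 A0 B0 z.2.2 e0 r1).2 hz)
  obtain ⟨r2, hr2, hr2r, K, hK, hGK⟩ := had1 (fun z : ℝ × ℝ × E => G (z.2.1, z.1, z.2.2)) B0
    (A0, e0) r1 hr1 hG' (fun e he => hG0 e.1 e.2 ((mem_sw e.1 0 A0 B0 e.2 e0 r1).2 he))
  refine ⟨r2, hr2, hr2r.trans hr1r, fun z => K (z.2.1, z.1, z.2.2), ?_, ?_⟩
  · have hs : ContDiff ℝ ∞ fun z : ℝ × ℝ × E => (z.2.1, z.1, z.2.2) := by fun_prop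
    exact hK.comp hs.contDiffOn (fun z hz => (mem_sw z.1 z.2.1 A0 B0 z.2.2 e0 r2).1 hz)
  · rintro ⟨A, B, e⟩ hx
    have h1 := hDG _ (ball_subset_ball hr2r hx)
    have h2 := hGK (B, A, e) ((mem_sw A B A0 B0 e e0 r2).1 hx)
    simp only at h1 h2 ⊢
    rw [h1, h2]

theorem had3 {E : Type*} [NormedAddCommGroup E] [NormedSpace ℝ E] [FiniteDimensional ℝ E]
    (K : ℝ × ℝ × E → ℝ) (κ0 : ℝ) (e0 : E) (r : ℝ) (hr : 0 < r)
    (hK : ContDiffOn ℝ ∞ K (ball (κ0, 0, e0) r))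
    (he : ∀ κ γ e, (κ, γ, e) ∈ ball (κ0, (0 : ℝ), e0) r → K (κ, -γ, e) = K (κ, γ, e))
    (hz : ∀ e, ((0 : ℝ), (0 : ℝ), e) ∈ ball (κ0, (0 : ℝ), e0) r → K (0, 0, e) = 0) :
    ∃ r' : ℝ, 0 < r' ∧ r' ≤ r ∧ ∃ g1 g2 : ℝ × ℝ × E → ℝ,
      ContDiffOn ℝ ∞ g1 (ball (κ0, 0, e0) r') ∧ ContDiffOn ℝ ∞ g2 (ball (κ0, 0, e0) r') ∧
      ∀ x ∈ ball (κ0, (0 : ℝ), e0) r', K x = x.1 * g1 x + x.2.1 ^ 2 * g2 x := by
  by_cases hκ : κ0 = 0
  · subst hκ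
    obtain ⟨r1, hr1, hr1r, G, hG, hKG⟩ := had1 (fun x : ℝ × ℝ × E => K x - K (0, x.2)) 0 (0, e0) r
      hr (hK.sub (hK.comp (contDiff_const.prodMk contDiff_snd).contDiffOn
        (fun z hz => had_mem z.1 z.2 _ _ hz))) (fun e _ => by simp)
    have hN : ContDiffOn ℝ ∞ (fun z : ℝ × E => K (0, z)) (ball (0, e0) r) := by
      refine hK.comp (contDiff_const.prodMk contDiff_id).contDiffOn (fun z hz => ?_)
      rw [mem_ball, Prod.dist_eq, max_lt_iff]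
      exact ⟨by simpa using hr, hz⟩
    have hmem : ∀ z : ℝ × E, z ∈ ball ((0 : ℝ), e0) r → ((0 : ℝ), z) ∈
        ball ((0 : ℝ), (0 : ℝ), e0) r := by
      intro z hz
      rw [mem_ball, Prod.dist_eq, max_lt_iff]
      exact ⟨by simpa using hr, hz⟩
    obtain ⟨k, hk, hNk⟩ := had_even (fun z : ℝ × E => K (0, z)) e0 r hr hN (fun t e hte =>
      he 0 t e (hmem _ hte))
    refine ⟨min r1 (r / 2), lt_min hr1 (by linarith), (min_le_left _ _).trans hr1r, G,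
      fun x => k x.2, hG.mono (ball_subset_ball (min_le_left _ _)),
      (hk.comp contDiff_snd).contDiffOn, ?_⟩
    rintro ⟨κ, γ, e⟩ hx
    have h1 := hKG _ (ball_subset_ball (min_le_left _ _) hx)
    have hx2 : (κ, γ, e) ∈ ball ((0 : ℝ), (0 : ℝ), e0) (r / 2) :=
      ball_subset_ball (min_le_right _ _) hx
    have hx3 : (γ, e) ∈ ball ((0 : ℝ), e0) (r / 2) := by
      rw [mem_ball, Prod.dist_eq, max_lt_iff] at hx2
      exact hx2.2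
    have h2 := hNk γ e hx3
    have h3 := hz e (hmem _ (had_mem γ e e0 r (ball_subset_ball (by linarith) hx3)))
    simp only at h1 h2 h3 ⊢
    rw [h3] at h2
    linarith
  · have hκ' : 0 < |κ0| := abs_pos.2 hκ
    have hne : ∀ x ∈ ball (κ0, (0 : ℝ), e0) (min r (|κ0| / 2)), x.1 ≠ 0 := by
      intro x hx h
      rw [mem_ball, Prod.dist_eq, max_lt_iff, Real.dist_eq, h, zero_sub, abs_neg] at hx
      have := lt_of_lt_of_le hx.1 (min_le_right _ _)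
      linarith
    refine ⟨min r (|κ0| / 2), lt_min hr (by linarith), min_le_left _ _, fun x => K x / x.1,
      fun _ => 0, ?_, contDiffOn_const, ?_⟩
    · exact ContDiffOn.div (hK.mono (ball_subset_ball (min_le_left _ _)))
        contDiff_fst.contDiffOn hne
    · intro x hx
      have := hne x hx
      simp only [mul_zero, add_zero]
      field_simp

end Pool.Agent.SDT.N1F

end -- N1F.A3g

section -- N1F.A3h

/-!
N1F, block A3: the remainder is `A B (κ g₁ + γ² g₂)`.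
-/

namespace Pool.Agent.SDT.N1F

open MeasureTheory Set Metric Pool.Agent.SDT.MP_6cbfb8_an Pool.Agent.SDT.MST Pool.Agent.SDT.N1
open scoped ENNReal Real ContDiff Topology

lemma gd_nhds (c : ℝ) (x0 : MM) (h : gd c x0) : ∀ᶠ x in 𝓝 x0, gd c x := by
  unfold gd at h ⊢
  obtain ⟨h1, h2, h3, h4⟩ := h
  have e1 : ∀ᶠ x in 𝓝 x0, ∀ i j : Fin 7,
      c ^ 2 / 8 < 1 - x.1 * px i x ^ 2 - x.2.1 * pw j x ^ 2 := by
    rw [Filter.eventually_all]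
    intro i
    rw [Filter.eventually_all]
    intro j
    have hX := (px_cd i).continuous
    have hW := (pw_cd j).continuous
    have : Continuous fun x : MM => 1 - x.1 * px i x ^ 2 - x.2.1 * pw j x ^ 2 := by fun_prop
    exact this.continuousAt.eventually (lt_mem_nhds (h1 i j))
  have e2 : ∀ᶠ x in 𝓝 x0, ∀ i : Fin 7, i ≠ 6 → 0 < px i x := by
    rw [Filter.eventually_all]
    intro i
    by_cases hi : i = 6
    · exact Filter.Eventually.of_forall fun _ hi' => absurd hi hi'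
    · filter_upwards [(px_cd i).continuous.continuousAt.eventually (lt_mem_nhds (h2 i hi))]
        with x hx _
      exact hx
  have e3 : ∀ᶠ x in 𝓝 x0, ∀ i : Fin 7, i ≠ 6 → 0 < pw i x := by
    rw [Filter.eventually_all]
    intro i
    by_cases hi : i = 6
    · exact Filter.Eventually.of_forall fun _ hi' => absurd hi hi'
    · filter_upwards [(pw_cd i).continuous.continuousAt.eventually (lt_mem_nhds (h3 i hi))]
        with x hx _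
      exact hx
  have e4 : ∀ᶠ x in 𝓝 x0, x.2.2.2.2.2.1.2.2 ≠ 0 :=
    (by fun_prop : ContinuousAt (fun x : MM => x.2.2.2.2.2.1.2.2) x0).eventually_ne h4
  filter_upwards [e1, e2, e3, e4] with x k1 k2 k3 k4
  exact ⟨k1, k2, k3, k4⟩

lemma mem_MM (A B ρ γ κ A0 B0 k0 r : ℝ) (a b a0 b0 : V) :
    (A, B, ρ, γ, κ, a, b) ∈ ball ((A0, B0, 0, 0, k0, a0, b0) : MM) r ↔
      (κ, γ, A, B, ρ, a, b) ∈ ball ((k0, 0, A0, B0, 0, a0, b0) : MM) r := by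
  simp only [mem_ball, Prod.dist_eq, max_lt_iff]
  tauto

/-- The value of `g₁` at `ρ = γ = 0`. -/
noncomputable def g0M (x : MM) : ℝ :=
  x.2.2.2.2.2.1.1 / x.2.2.2.2.2.1.2.2 * (x.2.2.2.2.2.2.2.1 * x.2.2.2.2.2.2.2.2 /
    (1 - x.2.1 * x.2.2.2.2.2.2.2.1 ^ 2))

theorem gN (c : ℝ) (hc : 0 < c) (A0 B0 k0 : ℝ) (a0 b0 : V)
    (h0 : gd c (A0, B0, 0, 0, k0, a0, b0)) :
    ∃ r : ℝ, 0 < r ∧ ∃ g1 g2 : MM → ℝ,
      ContDiffOn ℝ ∞ g1 (ball (A0, B0, 0, 0, k0, a0, b0) r) ∧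
      ContDiffOn ℝ ∞ g2 (ball (A0, B0, 0, 0, k0, a0, b0) r) ∧
      (∀ x ∈ ball ((A0, B0, 0, 0, k0, a0, b0) : MM) r, gd c x) ∧
      (∀ x ∈ ball ((A0, B0, 0, 0, k0, a0, b0) : MM) r,
        Dd c x = x.1 * (x.2.1 * (x.2.2.2.2.1 * g1 x + x.2.2.2.1 ^ 2 * g2 x))) ∧
      ∀ x ∈ ball ((A0, B0, 0, 0, k0, a0, b0) : MM) r, x.2.2.1 = 0 → x.2.2.2.1 = 0 →
        g1 x = g0M x := by
  obtain ⟨r0, hr0, hgd⟩ := Metric.eventually_nhds_iff_ball.1 (gd_nhds c _ h0)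
  obtain ⟨r1, hr1, hr10, K, hK, hDK⟩ := had2 (Dd c) A0 B0 ((0, 0, k0, a0, b0) :
    ℝ × ℝ × ℝ × V × V) r0 hr0 (fun x hx => (Dd_cd c hc x (hgd x hx)).contDiffWithinAt)
    (fun B e hx => Dd_A0 c hc _ (hgd _ hx) rfl) (fun A e hx => Dd_B0 c hc _ (hgd _ hx) rfl)
  -- evenness
  have hrf : ∀ x ∈ ball ((A0, B0, 0, 0, k0, a0, b0) : MM) r1,
      rfg x ∈ ball ((A0, B0, 0, 0, k0, a0, b0) : MM) r1 := by
    intro x hx
    unfold rfg
    simp only [mem_ball, Prod.dist_eq, max_lt_iff, dist_zero_right, norm_neg] at hx ⊢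
    tauto
  have hrc : Continuous rfg := by
    unfold rfg
    fun_prop
  have hev : ∀ x ∈ ball ((A0, B0, 0, 0, k0, a0, b0) : MM) r1, K (rfg x) = K x := by
    refine dens (fun x => K (rfg x)) K _ isOpen_ball
      (hK.continuousOn.comp hrc.continuousOn hrf) hK.continuousOn
      {x | x.1 ≠ 0 ∧ x.2.1 ≠ 0 ∧ x.2.2.1 ≠ 0 ∧ x.2.2.2.1 ≠ 0}
      ((1, 1, 1, 1, 0, 0, 0) : MM) ?_ ?_
    · intro x
      filter_upwards [ev_ne x.1, ev_ne x.2.1, ev_ne x.2.2.1, ev_ne x.2.2.2.1] with t t1 t2 t3 t4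
      refine ⟨?_, ?_, ?_, ?_⟩ <;> simpa
    · rintro x hx ⟨s1, s2, s3, s4⟩
      have e1 := hDK x hx
      have e2 := hDK _ (hrf x hx)
      have e3 := Dd_even c hc x (hgd _ (ball_subset_ball hr10 hx))
        (hgd _ (ball_subset_ball hr10 (hrf x hx))) s1 s2 s3 s4
      rw [e3, e1] at e2
      have r1 : (rfg x).1 = x.1 := rfl
      have r2 : (rfg x).2.1 = x.2.1 := rfl
      rw [r1, r2] at e2
      exact (mul_left_cancel₀ s2 (mul_left_cancel₀ s1 e2)).symm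
  -- the value at `κ = γ = 0`
  have hz : ∀ (A B ρ : ℝ) (a b : V), ((A, B, ρ, 0, 0, a, b) : MM) ∈
      ball ((A0, B0, 0, 0, k0, a0, b0) : MM) r1 → K (A, B, ρ, 0, 0, a, b) = 0 := by
    intro A B ρ a b hx
    have hcont : Continuous fun z : ℝ × ℝ × ℝ × V × V =>
        ((z.1, z.2.1, z.2.2.1, 0, 0, z.2.2.2.1, z.2.2.2.2) : MM) := by fun_prop
    have := dens (fun z : ℝ × ℝ × ℝ × V × V =>
      K (z.1, z.2.1, z.2.2.1, 0, 0, z.2.2.2.1, z.2.2.2.2)) (fun _ => 0)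
      {z : ℝ × ℝ × ℝ × V × V | ((z.1, z.2.1, z.2.2.1, 0, 0, z.2.2.2.1, z.2.2.2.2) : MM) ∈
        ball ((A0, B0, 0, 0, k0, a0, b0) : MM) r1} (isOpen_ball.preimage hcont)
      (hK.continuousOn.comp hcont.continuousOn (fun z hz => hz)) continuousOn_const
      {z | z.1 ≠ 0 ∧ z.2.1 ≠ 0 ∧ z.2.2.1 ≠ 0} ((1 : ℝ), (1 : ℝ), (1 : ℝ), (0 : V), (0 : V)) (by
        intro x
        filter_upwards [ev_ne x.1, ev_ne x.2.1, ev_ne x.2.2.1] with t t1 t2 t3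
        refine ⟨?_, ?_, ?_⟩ <;> simpa) (by
        rintro z hz ⟨s1, s2, s3⟩
        have e1 := hDK _ hz
        rw [Dd_g0 c hc _ (hgd _ (ball_subset_ball hr10 hz)) rfl rfl s2 s3] at e1
        rcases mul_eq_zero.1 e1.symm with h2 | h2
        · exact absurd h2 s1
        · rcases mul_eq_zero.1 h2 with h3 | h3
          · exact absurd h3 s2
          · exact h3) (A, B, ρ, a, b) hx
    exact this
  obtain ⟨r2, hr2, hr21, G1, G2, hG1, hG2, hKG⟩ := had3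
    (fun z : ℝ × ℝ × (ℝ × ℝ × ℝ × V × V) => K (z.2.2.1, z.2.2.2.1, z.2.2.2.2.1, z.2.1, z.1,
      z.2.2.2.2.2.1, z.2.2.2.2.2.2)) k0 ((A0, B0, 0, a0, b0) : ℝ × ℝ × ℝ × V × V) r1 hr1
    (by
      have hs : ContDiff ℝ ∞ fun z : ℝ × ℝ × (ℝ × ℝ × ℝ × V × V) =>
        ((z.2.2.1, z.2.2.2.1, z.2.2.2.2.1, z.2.1, z.1, z.2.2.2.2.2.1, z.2.2.2.2.2.2) : MM) := by
        fun_prop
      exact hK.comp hs.contDiffOn (fun z hz => (mem_MM _ _ _ _ _ _ _ _ _ _ _ _ _).2 hz))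
    (by
      rintro κ γ ⟨A, B, ρ, a, b⟩ hx
      exact hev (A, B, ρ, γ, κ, a, b) ((mem_MM _ _ _ _ _ _ _ _ _ _ _ _ _).2 hx))
    (by
      rintro ⟨A, B, ρ, a, b⟩ hx
      exact hz A B ρ a b ((mem_MM _ _ _ _ _ _ _ _ _ _ _ _ _).2 hx))
  have hs : ContDiff ℝ ∞ fun x : MM =>
      ((x.2.2.2.2.1, x.2.2.2.1, x.1, x.2.1, x.2.2.1, x.2.2.2.2.2.1, x.2.2.2.2.2.2) :
        ℝ × ℝ × (ℝ × ℝ × ℝ × V × V)) := by fun_prop
  have hm : ∀ x ∈ ball ((A0, B0, 0, 0, k0, a0, b0) : MM) r2,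
      ((x.2.2.2.2.1, x.2.2.2.1, x.1, x.2.1, x.2.2.1, x.2.2.2.2.2.1, x.2.2.2.2.2.2) : MM) ∈
        ball ((k0, 0, A0, B0, 0, a0, b0) : MM) r2 := fun x hx =>
      (mem_MM _ _ _ _ _ _ _ _ _ _ _ _ _).1 hx
  have hg1 : ContDiffOn ℝ ∞ (fun x : MM => G1 (x.2.2.2.2.1, x.2.2.2.1, x.1, x.2.1, x.2.2.1,
      x.2.2.2.2.2.1, x.2.2.2.2.2.2)) (ball (A0, B0, 0, 0, k0, a0, b0) r2) :=
    hG1.comp hs.contDiffOn hm
  have hD : ∀ x ∈ ball ((A0, B0, 0, 0, k0, a0, b0) : MM) r2,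
      Dd c x = x.1 * (x.2.1 * (x.2.2.2.2.1 * G1 (x.2.2.2.2.1, x.2.2.2.1, x.1, x.2.1, x.2.2.1,
      x.2.2.2.2.2.1, x.2.2.2.2.2.2) + x.2.2.2.1 ^ 2 * G2 (x.2.2.2.2.1, x.2.2.2.1, x.1, x.2.1,
        x.2.2.1, x.2.2.2.2.2.1, x.2.2.2.2.2.2))) := by
    intro x hx
    have e1 := hDK x (ball_subset_ball hr21 hx)
    have e2 := hKG _ (hm x hx)
    simp only at e2
    rw [e1, ← e2]
  refine ⟨r2, hr2, _, _, hg1, hG2.comp hs.contDiffOn hm,
    fun x hx => hgd x (ball_subset_ball (hr21.trans hr10) hx), hD, ?_⟩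
  rintro ⟨A, B, ρ, γ, κ, a, b⟩ hx hρ hγ
  simp only at hρ hγ
  subst hρ
  subst hγ
  have hcont : Continuous fun z : ℝ × ℝ × ℝ × V × V =>
      ((z.1, z.2.1, 0, 0, z.2.2.1, z.2.2.2.1, z.2.2.2.2) : MM) := by fun_prop
  have := dens (fun z : ℝ × ℝ × ℝ × V × V => G1 (z.2.2.1, 0, z.1, z.2.1, 0, z.2.2.2.1, z.2.2.2.2))
    (fun z => g0M (z.1, z.2.1, 0, 0, z.2.2.1, z.2.2.2.1, z.2.2.2.2))
    {z : ℝ × ℝ × ℝ × V × V | ((z.1, z.2.1, 0, 0, z.2.2.1, z.2.2.2.1, z.2.2.2.2) : MM) ∈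
      ball ((A0, B0, 0, 0, k0, a0, b0) : MM) r2} (isOpen_ball.preimage hcont)
    (hg1.continuousOn.comp hcont.continuousOn (fun z hz => hz)) (by
      unfold g0M
      intro z hz
      have hg := hgd _ (ball_subset_ball (hr21.trans hr10) hz)
      have hz1 : z.2.2.2.1.2.2 ≠ 0 := hg.2.2.2
      have hz2 : (1 - z.2.1 * z.2.2.2.2.2.1 ^ 2) ≠ 0 := by
        have := hg.1 6 4
        have k1 : px 6 ((z.1, z.2.1, 0, 0, z.2.2.1, z.2.2.2.1, z.2.2.2.2) : MM) = 0 := rfl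
        have k2 : pw 4 ((z.1, z.2.1, 0, 0, z.2.2.1, z.2.2.2.1, z.2.2.2.2) : MM) =
          z.2.2.2.2.2.1 := rfl
        rw [k1, k2] at this
        have h8 : 0 < c ^ 2 / 8 := by positivity
        simp only at this
        nlinarith
      apply ContinuousAt.continuousWithinAt
      simp only
      refine ContinuousAt.mul (ContinuousAt.div (by fun_prop) (by fun_prop) hz1)
        (ContinuousAt.div (by fun_prop) (by fun_prop) hz2))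
    {z | z.1 ≠ 0 ∧ z.2.1 ≠ 0 ∧ z.2.2.1 ≠ 0} ((1 : ℝ), (1 : ℝ), (1 : ℝ), (0 : V), (0 : V)) (by
      intro x
      filter_upwards [ev_ne x.1, ev_ne x.2.1, ev_ne x.2.2.1] with t t1 t2 t3
      refine ⟨?_, ?_, ?_⟩ <;> simpa) (by
      rintro z hz ⟨s1, s2, s3⟩
      have e1 := hD _ hz
      have e2 := Dd_base c hc _ (hgd _ (ball_subset_ball (hr21.trans hr10) hz)) rfl rfl
      rw [e2] at e1
      simp only [ne_eq, OfNat.ofNat_ne_zero, not_false_eq_true, zero_pow, zero_mul, add_zero] at e1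
      rw [mul_assoc] at e1
      have e3 := mul_left_cancel₀ s3 (mul_left_cancel₀ s2 (mul_left_cancel₀ s1 e1))
      exact e3.symm) (A, B, κ, a, b) hx
  exact this

end Pool.Agent.SDT.N1F

end -- N1F.A3h

section -- N1F.A3i

/-!
N1F, block A3: the normal form of the phase (outer difference of type N).
-/

namespace Pool.Agent.SDT.N1F

open MeasureTheory Set Metric Pool.Agent.SDT.MP_6cbfb8_an Pool.Agent.SDT.MST Pool.Agent.SDT.N1
open scoped ENNReal Real ContDiff Topology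

/-- The base point is good. -/
lemma gd_base (c : ℝ) (hc : 0 < c) (A0 B0 k0 : ℝ) (x0 y0 z0 : ℝ × ℝ) (hb : Bs c A0 B0 x0)
    (hz1 : z0.1 ≠ 0) :
    gd c (A0, B0, 0, 0, k0, (y0.1, x0.1, z0.1), (y0.2, x0.2, z0.2)) := by
  obtain ⟨hA, hB, -, h1, h2, h3⟩ := hb
  have hc8 : 0 < c ^ 2 := by positivity
  have hX : ∀ i : Fin 7, px i (A0, B0, 0, 0, k0, (y0.1, x0.1, z0.1), (y0.2, x0.2, z0.2)) =
      if i = 6 then 0 else x0.1 := by
    intro i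
    unfold px
    fin_cases i <;> simp [Matrix.cons_val]
  have hW : ∀ i : Fin 7, pw i (A0, B0, 0, 0, k0, (y0.1, x0.1, z0.1), (y0.2, x0.2, z0.2)) =
      if i = 6 then 0 else x0.2 := by
    intro i
    unfold pw
    fin_cases i <;> simp [Matrix.cons_val]
  have hA1 : 0 ≤ A0 * x0.1 ^ 2 := by positivity
  have hB1 : 0 ≤ B0 * x0.2 ^ 2 := by positivity
  refine ⟨?_, ?_, ?_, hz1⟩
  · intro i j
    rw [hX, hW]
    split_ifs <;> simp only [ne_eq, OfNat.ofNat_ne_zero, not_false_eq_true, zero_pow, mul_zero,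
      sub_zero] <;> linarith
  · intro i hi
    rw [hX, if_neg hi]
    exact h1
  · intro i hi
    rw [hW, if_neg hi]
    exact h2

lemma kA_0 (c : ℝ) (hc : 0 < c) (x : MM) (h : gd c x) (hγ : x.2.2.2.1 = 0) :
    kA c x = x.2.2.2.2.2.1.1 / px 4 x := by
  have X0 : px 0 x = px 4 x := by
    show x.2.2.2.2.2.1.2.1 + x.2.2.2.1 * x.2.2.2.2.2.1.2.2 / 2 = x.2.2.2.2.2.1.2.1
    rw [hγ]; ring
  have X2 : px 2 x = px 4 x := by
    show x.2.2.2.2.2.1.2.1 - x.2.2.2.1 * x.2.2.2.2.2.1.2.2 / 2 = x.2.2.2.2.2.1.2.1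
    rw [hγ]; ring
  have q0 : qq c 0 6 x = qq c 4 6 x := by unfold qq; rw [X0]
  have q2 : qq c 2 6 x = qq c 4 6 x := by unfold qq; rw [X2]
  have q := qq_pos c hc x h 4 6
  have p := h.2.1 4 (by decide)
  unfold kA
  rw [q0, q2, X0, X2]
  field_simp
  
lemma hA_0 (c : ℝ) (hc : 0 < c) (x : MM) (h : gd c x) (hγ : x.2.2.2.1 = 0) :
    hA c x = (1 - x.1 * px 4 x ^ 2) / (px 4 x * x.2.2.2.2.2.1.2.2) := by
  have X0 : px 0 x = px 4 x := by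
    show x.2.2.2.2.2.1.2.1 + x.2.2.2.1 * x.2.2.2.2.2.1.2.2 / 2 = x.2.2.2.2.2.1.2.1
    rw [hγ]; ring
  have X2 : px 2 x = px 4 x := by
    show x.2.2.2.2.2.1.2.1 - x.2.2.2.1 * x.2.2.2.2.2.1.2.2 / 2 = x.2.2.2.2.2.1.2.1
    rw [hγ]; ring
  have q0 : qq c 0 6 x = qq c 4 6 x := by unfold qq; rw [X0]
  have q2 : qq c 2 6 x = qq c 4 6 x := by unfold qq; rw [X2]
  have q := qq_pos c hc x h 4 6
  have qs := qq_sq c hc x h 4 6
  have w6 : pw 6 x = 0 := rfl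
  rw [w6] at qs
  have p := h.2.1 4 (by decide)
  have hz := h.2.2.2
  unfold hA
  rw [q0, q2]
  have : 1 - x.1 * px 4 x ^ 2 = qq c 4 6 x ^ 2 := by rw [qs]; ring
  rw [this]
  field_simp
  ring

lemma sB_0 (c : ℝ) (hc : 0 < c) (x : MM) (h : gd c x) (hρ : x.2.2.1 = 0) :
    sB c x = x.2.2.2.2.2.2.1 * pw 4 x / (1 - x.2.1 * pw 4 x ^ 2) := by
  have W5 : pw 5 x = pw 4 x := by
    show x.2.2.2.2.2.2.2.1 - x.2.2.1 * x.2.2.2.2.2.2.1 = x.2.2.2.2.2.2.2.1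
    rw [hρ]; ring
  have q5 : qq c 6 5 x = qq c 6 4 x := by unfold qq; rw [W5]
  have q := qq_pos c hc x h 6 4
  have qs := qq_sq c hc x h 6 4
  have x6 : px 6 x = 0 := rfl
  rw [x6] at qs
  unfold sB
  rw [q5, W5]
  have : 1 - x.2.1 * pw 4 x ^ 2 = qq c 6 4 x ^ 2 := by rw [qs]; ring
  rw [this]
  field_simp

lemma fB_0 (c : ℝ) (hc : 0 < c) (x : MM) (h : gd c x) (hρ : x.2.2.1 = 0) :
    fB c x = x.2.2.2.2.2.2.1 * x.2.2.2.2.2.2.2.2 / (1 - x.2.1 * pw 4 x ^ 2) := by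
  have W5 : pw 5 x = pw 4 x := by
    show x.2.2.2.2.2.2.2.1 - x.2.2.1 * x.2.2.2.2.2.2.1 = x.2.2.2.2.2.2.2.1
    rw [hρ]; ring
  have q5 : qq c 6 5 x = qq c 6 4 x := by unfold qq; rw [W5]
  have q := qq_pos c hc x h 6 4
  have qs := qq_sq c hc x h 6 4
  have x6 : px 6 x = 0 := rfl
  rw [x6] at qs
  have p := h.2.2.1 4 (by decide)
  unfold fB
  rw [q5, W5]
  have : 1 - x.2.1 * pw 4 x ^ 2 = qq c 6 4 x ^ 2 := by rw [qs]; ring
  rw [this]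
  field_simp

/-- Parameters with midpoint variables. -/
noncomputable def mmx (p : P6) (a b : V) : MM :=
  (p.1, p.2.1, p.2.2.1, p.2.2.2.1, p.2.2.2.2.1, (a.1, a.2.1 - p.2.2.2.1 * a.2.2 / 2, a.2.2),
    (b.1, b.2.1 - p.1 * p.2.2.2.2.1 * p.2.2.2.1 * b.2.2 / 2, b.2.2))

lemma kA_b (c : ℝ) (p : P6) (a b b' : V) : kA c (mmx p a b) = kA c (mmx p a b') := rfl
lemma hA_b (c : ℝ) (p : P6) (a b b' : V) : hA c (mmx p a b) = hA c (mmx p a b') := rfl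
lemma sB_a (c : ℝ) (p : P6) (a a' b : V) : sB c (mmx p a b) = sB c (mmx p a' b) := rfl
lemma fB_a (c : ℝ) (p : P6) (a a' b : V) : fB c (mmx p a b) = fB c (mmx p a' b) := rfl

set_option linter.unusedVariables false in
theorem nfF (c : ℝ) (hc : 0 < c) (A0 B0 : ℝ) (x0 y0 z0 : ℝ × ℝ) (hb : Bs c A0 B0 x0)
    (hy1 : y0.1 ≠ 0) (hy2 : y0.2 ≠ 0) (hz1 : z0.1 ≠ 0) (hz2 : z0.2 ≠ 0) (k0 : ℝ) (hk : 0 ≤ k0)
    (hk' : k0 ≤ 1) :
    ∃ (w l σ m : P6 × V → ℝ) (g Ef : P6 × V × V → ℝ) (r : ℝ), 0 < r ∧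
      ContDiffOn ℝ ∞ w (ball (((A0, B0, 0, 0, k0, 0) : P6), ((y0.1, x0.1, z0.1) : V)) r) ∧
      ContDiffOn ℝ ∞ l (ball (((A0, B0, 0, 0, k0, 0) : P6), ((y0.1, x0.1, z0.1) : V)) r) ∧
      ContDiffOn ℝ ∞ σ (ball (((A0, B0, 0, 0, k0, 0) : P6), ((y0.2, x0.2, z0.2) : V)) r) ∧
      ContDiffOn ℝ ∞ m (ball (((A0, B0, 0, 0, k0, 0) : P6), ((y0.2, x0.2, z0.2) : V)) r) ∧
      ContDiffOn ℝ ∞ g (ball (((A0, B0, 0, 0, k0, 0) : P6), ((y0.1, x0.1, z0.1) : V),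
        ((y0.2, x0.2, z0.2) : V)) r) ∧
      ContDiffOn ℝ ∞ Ef (ball (((A0, B0, 0, 0, k0, 0) : P6), ((y0.1, x0.1, z0.1) : V),
        ((y0.2, x0.2, z0.2) : V)) r) ∧
      (∀ x ∈ ball (((A0, B0, 0, 0, k0, 0) : P6), ((y0.1, x0.1, z0.1) : V),
        ((y0.2, x0.2, z0.2) : V)) r, Ef x ≠ 0) ∧
      (∀ a ∈ ball ((y0.1, x0.1, z0.1) : V) r,
        w (((A0, B0, 0, 0, k0, 0) : P6), a) = w0 a ∧
        l (((A0, B0, 0, 0, k0, 0) : P6), a) = l0 A0 a) ∧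
      (∀ b ∈ ball ((y0.2, x0.2, z0.2) : V) r,
        σ (((A0, B0, 0, 0, k0, 0) : P6), b) = σ0 B0 b ∧
        m (((A0, B0, 0, 0, k0, 0) : P6), b) = m0 B0 b) ∧
      (∀ a ∈ ball ((y0.1, x0.1, z0.1) : V) r, ∀ b ∈ ball ((y0.2, x0.2, z0.2) : V) r,
        g (((A0, B0, 0, 0, k0, 0) : P6), a, b) = gX a * gY B0 b) ∧
      ∀ al be ρ γ κ η : ℝ, 0 < al → al ≤ 1 → 0 < be → be ≤ 1 → 0 < ρ → 0 < γ → 0 < κ →
        κ * η = γ ^ 2 →
        ((al ^ 2, be ^ 2, ρ, γ, κ, η) : P6) ∈ ball ((A0, B0, 0, 0, k0, 0) : P6) r →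
        ∀ a ∈ ball ((y0.1, x0.1, z0.1) : V) r, ∀ b ∈ ball ((y0.2, x0.2, z0.2) : V) r,
          Fr c (Sc3 (al * be ^ 2 * ρ) al (al * γ) a) (Sc3 (be * ρ) be (be * al ^ 2 * κ * γ) b) =
            al ^ 2 * be ^ 2 * ρ * γ * (Ef ((al ^ 2, be ^ 2, ρ, γ, κ, η), a, b) *
              (w ((al ^ 2, be ^ 2, ρ, γ, κ, η), a) - σ ((al ^ 2, be ^ 2, ρ, γ, κ, η), b) +
                κ * (l ((al ^ 2, be ^ 2, ρ, γ, κ, η), a) * m ((al ^ 2, be ^ 2, ρ, γ, κ, η), b) +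
                  al ^ 2 * be ^ 2 * g ((al ^ 2, be ^ 2, ρ, γ, κ, η), a, b)))) := by
  set a0 : V := (y0.1, x0.1, z0.1) with ha0
  set b0 : V := (y0.2, x0.2, z0.2) with hb0
  set p0 : P6 := (A0, B0, 0, 0, k0, 0) with hp0
  have hbase : gd c (A0, B0, 0, 0, k0, a0, b0) := gd_base c hc A0 B0 k0 x0 y0 z0 hb hz1
  obtain ⟨r1, hr1, g1, g2, hg1, hg2, hgd, hD, hg0⟩ := gN c hc A0 B0 k0 a0 b0 hbase
  -- the map `mmx`
  have hmc : ContDiff ℝ ∞ fun x : P6 × V × V => mmx x.1 x.2.1 x.2.2 := by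
    unfold mmx
    fun_prop
  have hm0 : mmx p0 a0 b0 = (A0, B0, 0, 0, k0, a0, b0) := by
    simp [mmx, hp0, ha0, hb0]
  have hma : ContDiff ℝ ∞ fun x : P6 × V => mmx x.1 x.2 b0 := by
    unfold mmx
    fun_prop
  have hmb : ContDiff ℝ ∞ fun x : P6 × V => mmx x.1 a0 x.2 := by
    unfold mmx
    fun_prop
  have o1 : ∀ᶠ x in 𝓝 (p0, a0, b0), mmx x.1 x.2.1 x.2.2 ∈
      ball ((A0, B0, 0, 0, k0, a0, b0) : MM) r1 := by
    apply hmc.continuous.continuousAt.eventually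
    simp only [hm0]
    exact isOpen_ball.mem_nhds (mem_ball_self hr1)
  have o2 : ∀ᶠ x in 𝓝 (p0, a0), mmx x.1 x.2 b0 ∈
      ball ((A0, B0, 0, 0, k0, a0, b0) : MM) r1 := by
    apply hma.continuous.continuousAt.eventually
    simp only [hm0]
    exact isOpen_ball.mem_nhds (mem_ball_self hr1)
  have o3 : ∀ᶠ x in 𝓝 (p0, b0), mmx x.1 a0 x.2 ∈
      ball ((A0, B0, 0, 0, k0, a0, b0) : MM) r1 := by
    apply hmb.continuous.continuousAt.eventually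
    simp only [hm0]
    exact isOpen_ball.mem_nhds (mem_ball_self hr1)
  obtain ⟨s1, hs1, k1⟩ := Metric.eventually_nhds_iff_ball.1 o1
  obtain ⟨s2, hs2, k2⟩ := Metric.eventually_nhds_iff_ball.1 o2
  obtain ⟨s3, hs3, k3⟩ := Metric.eventually_nhds_iff_ball.1 o3
  set r := min s1 (min s2 s3) with hr
  have hrs1 : r ≤ s1 := min_le_left _ _
  have hrs2 : r ≤ s2 := (min_le_right _ _).trans (min_le_left _ _)
  have hrs3 : r ≤ s3 := (min_le_right _ _).trans (min_le_right _ _)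
  have hr0 : 0 < r := lt_min hs1 (lt_min hs2 hs3)
  have K1 : ∀ x ∈ ball (p0, a0, b0) r, mmx x.1 x.2.1 x.2.2 ∈
    ball ((A0, B0, 0, 0, k0, a0, b0) : MM) r1 := fun x hx => k1 x (ball_subset_ball hrs1 hx)
  have K2 : ∀ x ∈ ball (p0, a0) r, mmx x.1 x.2 b0 ∈
    ball ((A0, B0, 0, 0, k0, a0, b0) : MM) r1 := fun x hx => k2 x (ball_subset_ball hrs2 hx)
  have K3 : ∀ x ∈ ball (p0, b0) r, mmx x.1 a0 x.2 ∈
    ball ((A0, B0, 0, 0, k0, a0, b0) : MM) r1 := fun x hx => k3 x (ball_subset_ball hrs3 hx)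
  have mpa : ∀ a ∈ ball a0 r, (p0, a) ∈ ball (p0, a0) r := by
    intro a ha
    rw [mem_ball, Prod.dist_eq, max_lt_iff]
    exact ⟨by simpa using hr0, ha⟩
  have mpb : ∀ b ∈ ball b0 r, (p0, b) ∈ ball (p0, b0) r := by
    intro b hb
    rw [mem_ball, Prod.dist_eq, max_lt_iff]
    exact ⟨by simpa using hr0, hb⟩
  refine ⟨fun x => kA c (mmx x.1 x.2 b0), fun x => hA c (mmx x.1 x.2 b0),
    fun x => -sB c (mmx x.1 a0 x.2), fun x => fB c (mmx x.1 a0 x.2),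
    fun x => g1 (mmx x.1 x.2.1 x.2.2) + x.1.2.2.2.2.2 * g2 (mmx x.1 x.2.1 x.2.2),
    fun x => -vV c (mmx x.1 x.2.1 x.2.2), r, hr0, ?_, ?_, ?_, ?_, ?_, ?_, ?_, ?_, ?_, ?_, ?_⟩
  · intro x hx
    exact (ContDiffAt.comp x (kA_cd c hc _ (hgd _ (K2 x hx))) hma.contDiffAt).contDiffWithinAt
  · intro x hx
    exact (ContDiffAt.comp x (hA_cd c hc _ (hgd _ (K2 x hx))) hma.contDiffAt).contDiffWithinAt
  · intro x hx
    exact (ContDiffAt.comp x (sB_cd c hc _ (hgd _ (K3 x hx))) hmb.contDiffAt).neg.contDiffWithinAt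
  · intro x hx
    exact (ContDiffAt.comp x (fB_cd c hc _ (hgd _ (K3 x hx))) hmb.contDiffAt).contDiffWithinAt
  · exact (hg1.comp hmc.contDiffOn K1).add
      ((by fun_prop : ContDiff ℝ ∞ fun x : P6 × V × V => x.1.2.2.2.2.2).contDiffOn.mul
        (hg2.comp hmc.contDiffOn K1))
  · intro x hx
    exact (ContDiffAt.comp x (vV_cd c hc _ (hgd _ (K1 x hx))) hmc.contDiffAt).neg.contDiffWithinAt
  · intro x hx
    exact neg_ne_zero.2 (vV_pos c hc _ (hgd _ (K1 x hx)))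
  · intro a ha
    have hg := hgd _ (K2 _ (mpa a ha))
    have e1 := kA_0 c hc _ hg rfl
    have e2 := hA_0 c hc _ hg rfl
    have e3 : px 4 (mmx p0 a b0) = a.2.1 := by
      show a.2.1 - 0 * a.2.2 / 2 = a.2.1
      ring
    simp only at e1 e2 ⊢
    rw [e1, e2, e3]
    exact ⟨rfl, rfl⟩
  · intro b hb
    have hg := hgd _ (K3 _ (mpb b hb))
    have e1 := sB_0 c hc _ hg rfl
    have e2 := fB_0 c hc _ hg rfl
    have e3 : pw 4 (mmx p0 a0 b) = b.2.1 := by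
      show b.2.1 - A0 * k0 * 0 * b.2.2 / 2 = b.2.1
      ring
    simp only at e1 e2 ⊢
    rw [e1, e2, e3]
    exact ⟨rfl, rfl⟩
  · intro a ha b hb
    have hx : (p0, a, b) ∈ ball (p0, a0, b0) r := by
      rw [mem_ball, Prod.dist_eq, max_lt_iff]
      refine ⟨by simpa using hr0, ?_⟩
      show dist (a, b) (a0, b0) < r
      rw [Prod.dist_eq, max_lt_iff]
      exact ⟨ha, hb⟩
    have e1 := hg0 _ (K1 _ hx) rfl rfl
    simp only at e1 ⊢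
    rw [e1]
    show g0M (mmx p0 a b) + 0 * _ = _
    rw [zero_mul, add_zero]
    show a.1 / a.2.2 * ((b.2.1 - A0 * k0 * 0 * b.2.2 / 2) * b.2.2 /
      (1 - B0 * (b.2.1 - A0 * k0 * 0 * b.2.2 / 2) ^ 2)) = a.1 / a.2.2 * (b.2.1 * b.2.2 /
        (1 - B0 * b.2.1 ^ 2))
    have : b.2.1 - A0 * k0 * 0 * b.2.2 / 2 = b.2.1 := by ring
    rw [this]
  · intro al be ρ γ κ η hal hal1 hbe hbe1 hρ hγ hκ hη hp a ha b hb
    set p : P6 := (al ^ 2, be ^ 2, ρ, γ, κ, η) with hpdef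
    have hx : (p, a, b) ∈ ball (p0, a0, b0) r := by
      rw [mem_ball, Prod.dist_eq, max_lt_iff]
      refine ⟨hp, ?_⟩
      show dist (a, b) (a0, b0) < r
      rw [Prod.dist_eq, max_lt_iff]
      exact ⟨ha, hb⟩
    have hin := K1 _ hx
    have hg := hgd _ hin
    have eF := Fh_id c hc _ hg
    have eD := hD _ hin
    have hv := vV_pos c hc _ hg
    simp only at eF eD hv ⊢
    rw [kA_b c p a b0 b, hA_b c p a b0 b, sB_a c p a0 a b, fB_a c p a0 a b]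
    have m1 : (mmx p a b).1 = al ^ 2 := rfl
    have m2 : (mmx p a b).2.1 = be ^ 2 := rfl
    have m3 : (mmx p a b).2.2.1 = ρ := rfl
    have m4 : (mmx p a b).2.2.2.1 = γ := rfl
    have m5 : (mmx p a b).2.2.2.2.1 = κ := rfl
    have m6 : p.2.2.2.2.2 = η := rfl
    rw [m1, m2, m3, m4] at eF
    rw [m1, m2, m4, m5] at eD
    rw [m6]
    have X0 : px 0 (mmx p a b) = a.2.1 := by
      show a.2.1 - γ * a.2.2 / 2 + γ * a.2.2 / 2 = a.2.1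
      ring
    have X1 : px 1 (mmx p a b) = a.2.1 - be ^ 2 * ρ * a.1 := by
      show a.2.1 - γ * a.2.2 / 2 + γ * a.2.2 / 2 - be ^ 2 * ρ * a.1 = _
      ring
    have X2 : px 2 (mmx p a b) = a.2.1 - γ * a.2.2 := by
      show a.2.1 - γ * a.2.2 / 2 - γ * a.2.2 / 2 = _
      ring
    have X3 : px 3 (mmx p a b) = a.2.1 - be ^ 2 * ρ * a.1 - γ * a.2.2 := by
      show a.2.1 - γ * a.2.2 / 2 - γ * a.2.2 / 2 - be ^ 2 * ρ * a.1 = _
      ring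
    have W0 : pw 0 (mmx p a b) = b.2.1 := by
      show b.2.1 - al ^ 2 * κ * γ * b.2.2 / 2 + al ^ 2 * κ * γ * b.2.2 / 2 = b.2.1
      ring
    have W1 : pw 1 (mmx p a b) = b.2.1 - ρ * b.1 := by
      show b.2.1 - al ^ 2 * κ * γ * b.2.2 / 2 + al ^ 2 * κ * γ * b.2.2 / 2 - ρ * b.1 = _
      ring
    have W2 : pw 2 (mmx p a b) = b.2.1 - al ^ 2 * κ * γ * b.2.2 := by
      show b.2.1 - al ^ 2 * κ * γ * b.2.2 / 2 - al ^ 2 * κ * γ * b.2.2 / 2 = _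
      ring
    have W3 : pw 3 (mmx p a b) = b.2.1 - ρ * b.1 - al ^ 2 * κ * γ * b.2.2 := by
      show b.2.1 - al ^ 2 * κ * γ * b.2.2 / 2 - al ^ 2 * κ * γ * b.2.2 / 2 - ρ * b.1 = _
      ring
    have eFr : Fr c (Sc3 (al * be ^ 2 * ρ) al (al * γ) a)
        (Sc3 (be * ρ) be (be * al ^ 2 * κ * γ) b) =
        qq c 0 0 (mmx p a b) - qq c 1 1 (mmx p a b) - qq c 2 2 (mmx p a b) +
          qq c 3 3 (mmx p a b) := by
      unfold Fr Sc3 qq qf Qs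
      rw [m1, m2, X0, X1, X2, X3, W0, W1, W2, W3]
      simp only
      congr 1
      · congr 1
        · congr 1
          · congr 1; ring
          · congr 1; ring
        · congr 1; ring
      · congr 1; ring
    rw [eFr, ← eF]
    congr 1
    unfold Dd at eD
    rw [m5] at eD
    have hF : Fh c (mmx p a b) = -vV c (mmx p a b) * (al ^ 2 * (be ^ 2 *
        (κ * g1 (mmx p a b) + γ ^ 2 * g2 (mmx p a b))) + (kA c (mmx p a b) + sB c (mmx p a b) +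
          κ * (hA c (mmx p a b) * fB c (mmx p a b)))) := by
      rw [← eD]
      have hv' : -vV c (mmx p a b) ≠ 0 := neg_ne_zero.2 hv
      field_simp
      ring
    rw [hF, ← hη]
    ring

end Pool.Agent.SDT.N1F

end -- N1F.A3i

section -- N1.Y2

/-!
N1, block Y: the dyadic `L⁴` estimate for densities approximated by combinations of products.
-/

namespace Pool.Agent.SDT.N1

open MeasureTheory Set Metric Pool.Agent.SDT.MP_6cbfb8_an Pool.Agent.SDT.MST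
open scoped ENNReal Real

/-- The square `|w 0| ≤ 1`, `|w 1| ≤ 1`. -/
def Qsq : Set (E 2) := {w | w 0 ∈ Icc (-1:ℝ) 1 ∧ w 1 ∈ Icc (-1:ℝ) 1}

theorem Qsq_meas : MeasurableSet Qsq := by
  have h0 : Measurable fun w : E 2 => w 0 := by fun_prop
  have h1 : Measurable fun w : E 2 => w 1 := by fun_prop
  exact (h0 measurableSet_Icc).inter (h1 measurableSet_Icc)

theorem lint_Qsq (φ : ℝ × ℝ → ℝ≥0∞) : ∫⁻ w in Qsq, φ (w 0, w 1) =
    ∫⁻ x in Icc (-1:ℝ) 1 ×ˢ Icc (-1:ℝ) 1, φ x := by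
  rw [← lintegral_indicator Qsq_meas, ← lintegral_indicator
    (measurableSet_Icc.prod measurableSet_Icc), ← lint_pe]
  refine lintegral_congr fun w => ?_
  by_cases hw : w ∈ Qsq
  · rw [indicator_of_mem hw, indicator_of_mem (show (w 0, w 1) ∈ Icc (-1:ℝ) 1 ×ˢ Icc (-1:ℝ) 1
      from hw)]
  · rw [indicator_of_notMem hw, indicator_of_notMem
      (show (w 0, w 1) ∉ Icc (-1:ℝ) 1 ×ˢ Icc (-1:ℝ) 1 from hw)]

theorem am_meas (c : ℝ) (hc : 0 < c) (t : ℝ) : Measurable fun w : E 2 => amp2 (hft_a c) idM t w :=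
  ho2_meas_amp _ _ (hft_cut hc) idM t

theorem am_bdd (c : ℝ) (hc : 0 < c) : ∃ A : ℝ, 0 < A ∧ ∀ (t : ℝ) (w : E 2),
    ‖amp2 (hft_a c) idM t w‖ ≤ Qsq.indicator (fun _ => A) w := by
  obtain ⟨A, hA, hb⟩ := ho2_bdd _ _ (hft_cut hc)
  refine ⟨A, hA, fun t w => ?_⟩
  have h1 : amp2 (hft_a c) idM t w = ((hft_a c (vN idM w) : ℝ) : ℂ) * ex (t * √(vN idM w)) := rfl
  by_cases hw : w ∈ Qsq
  · rw [indicator_of_mem hw, h1, norm_mul, ho2_ex, mul_one, Complex.norm_real, Real.norm_eq_abs]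
    exact hb _ (ho2_vN_le idM w)
  · rw [indicator_of_notMem hw, h1]
    have h2 : hft_a c (vN idM w) = 0 := by
      by_contra h3
      apply hw
      have h4 : ¬ (vN idM w ≤ c ^ 2 / 4) := fun h5 => h3 ((hft_cut hc).2 _ h5)
      push Not at h4
      rw [vN_idM] at h4
      have h5 : w 0 ^ 2 + w 1 ^ 2 < 1 := by nlinarith [sq_nonneg c]
      refine ⟨abs_le.1 ?_, abs_le.1 ?_⟩
      · rw [abs_le_one_iff_mul_self_le_one]; nlinarith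
      · rw [abs_le_one_iff_mul_self_le_one]; nlinarith
    rw [h2]
    simp

theorem Qsq_fin : volume Qsq ≠ ∞ := by
  have h1 := lint_Qsq fun _ => 1
  rw [setLIntegral_one, setLIntegral_one] at h1
  rw [h1, Measure.volume_eq_prod, Measure.prod_prod, Real.volume_Icc]
  exact ENNReal.mul_ne_top ENNReal.ofReal_ne_top ENNReal.ofReal_ne_top

theorem op_int (c : ℝ) (hc : 0 < c) (g : E 2 → ℂ) (hg : Measurable g) (B : ℝ)
    (hB : ∀ w, ‖g w‖ ≤ B) (t : ℝ) : Integrable fun w : E 2 => g w * amp2 (hft_a c) idM t w := by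
  obtain ⟨A, hA, hA2⟩ := am_bdd c hc
  have hB0 : 0 ≤ B := (norm_nonneg _).trans (hB 0)
  have hint : Integrable (Qsq.indicator fun _ => B * A) :=
    (integrable_indicator_iff Qsq_meas).2 (integrableOn_const Qsq_fin)
  refine hint.mono' (hg.mul (am_meas c hc t)).aestronglyMeasurable
    (Filter.Eventually.of_forall fun w => ?_)
  rw [norm_mul]
  have h1 := hA2 t w
  by_cases hw : w ∈ Qsq
  · rw [indicator_of_mem hw] at h1 ⊢
    exact mul_le_mul (hB w) h1 (norm_nonneg _) hB0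
  · rw [indicator_of_notMem hw] at h1 ⊢
    have : ‖amp2 (hft_a c) idM t w‖ = 0 := le_antisymm h1 (norm_nonneg _)
    rw [this, mul_zero]

theorem op_int2 (c : ℝ) (hc : 0 < c) (g : E 2 → ℂ) (hg : Measurable g) (B : ℝ)
    (hB : ∀ w, ‖g w‖ ≤ B) (t : ℝ) (x : E 2) :
    Integrable fun w : E 2 => g w * amp2 (hft_a c) idM t w * ex (inner ℝ w x) := by
  have h1 := op_int c hc g hg B hB t
  refine h1.mul_bdd (c := 1) ?_ ?_
  · have : Measurable fun w : E 2 => ex (inner ℝ w x) :=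
      ho2_ex_meas.comp (measurable_id.inner measurable_const)
    exact this.aestronglyMeasurable
  · exact Filter.Eventually.of_forall fun w => (ho2_ex _).le

/-- Linearity. -/
theorem op_lin (c : ℝ) (hc : 0 < c) {ι : Type} [Fintype ι] (b : ι → ℂ) (g : ι → E 2 → ℂ)
    (e : E 2 → ℂ) (hg : ∀ i, Measurable (g i)) (he : Measurable e) (B : ℝ)
    (hB : ∀ i w, ‖g i w‖ ≤ B) (B' : ℝ) (hB' : ∀ w, ‖e w‖ ≤ B') (t : ℝ) (x : E 2) :
    op2 (hft_a c) idM t (fun w => ∑ i, b i * g i w + e w) x =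
      ∑ i, b i * op2 (hft_a c) idM t (g i) x + op2 (hft_a c) idM t e x := by
  unfold op2
  have h1 : ∀ i, Integrable fun w : E 2 =>
      b i * (g i w * amp2 (hft_a c) idM t w * ex (inner ℝ w x)) := fun i =>
    (op_int2 c hc (g i) (hg i) B (hB i) t x).const_mul _
  have h2 := op_int2 c hc e he B' hB' t x
  have h3 : (fun w : E 2 => (∑ i, b i * g i w + e w) * amp2 (hft_a c) idM t w *
      ex (inner ℝ w x)) = fun w => (∑ i, b i * (g i w * amp2 (hft_a c) idM t w *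
      ex (inner ℝ w x))) + e w * amp2 (hft_a c) idM t w * ex (inner ℝ w x) := by
    funext w
    rw [add_mul, add_mul, Finset.sum_mul, Finset.sum_mul]
    congr 1
    refine Finset.sum_congr rfl fun i _ => ?_
    ring
  rw [h3, integral_add (integrable_finsetSum _ fun i _ => h1 i) h2,
    integral_finsetSum _ fun i _ => h1 i]
  congr 1
  refine Finset.sum_congr rfl fun i _ => ?_
  rw [integral_const_mul]

/-- Bounds by the mean of the density. -/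
theorem op_small (c : ℝ) (hc : 0 < c) : ∃ C : ℝ, 0 ≤ C ∧ ∀ (t : ℝ) (g : E 2 → ℂ), Measurable g →
    ∀ B : ℝ, (∀ w, ‖g w‖ ≤ B) →
    (∀ x, ‖op2 (hft_a c) idM t g x‖ₑ ≤ ENNReal.ofReal C * ∫⁻ w in Qsq, ‖g w‖ₑ) ∧
    ∫⁻ x, ‖op2 (hft_a c) idM t g x‖ₑ ^ (2:ℝ) ≤
      ENNReal.ofReal C * (ENNReal.ofReal B * ∫⁻ w in Qsq, ‖g w‖ₑ) := by
  obtain ⟨A, hA, hA2⟩ := am_bdd c hc
  refine ⟨A + A ^ 2, by positivity, fun t g hg B hB => ?_⟩
  have hB0 : 0 ≤ B := (norm_nonneg _).trans (hB 0)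
  have hpt : ∀ w, ‖g w * amp2 (hft_a c) idM t w‖ₑ ≤
      Qsq.indicator (fun w => ENNReal.ofReal A * ‖g w‖ₑ) w := by
    intro w
    have h1 := hA2 t w
    by_cases hw : w ∈ Qsq
    · rw [indicator_of_mem hw] at h1 ⊢
      rw [enorm_mul, mul_comm]
      refine mul_le_mul_left ?_ _
      rw [← ofReal_norm]
      exact ENNReal.ofReal_le_ofReal h1
    · rw [indicator_of_notMem hw] at h1 ⊢
      have : amp2 (hft_a c) idM t w = 0 := by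
        rw [← norm_le_zero_iff]
        exact h1
      rw [this]
      simp
  constructor
  · intro x
    unfold op2
    calc ‖∫ w : E 2, g w * amp2 (hft_a c) idM t w * ex (inner ℝ w x)‖ₑ
        ≤ ∫⁻ w : E 2, ‖g w * amp2 (hft_a c) idM t w * ex (inner ℝ w x)‖ₑ :=
          enorm_integral_le_lintegral_enorm _
      _ = ∫⁻ w : E 2, ‖g w * amp2 (hft_a c) idM t w‖ₑ := by
          refine lintegral_congr fun w => ?_
          rw [enorm_mul, ← ofReal_norm (ex _), ho2_ex, ENNReal.ofReal_one, mul_one]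
      _ ≤ ∫⁻ w : E 2, Qsq.indicator (fun w => ENNReal.ofReal A * ‖g w‖ₑ) w :=
          lintegral_mono hpt
      _ = ENNReal.ofReal A * ∫⁻ w in Qsq, ‖g w‖ₑ := by
          rw [lintegral_indicator Qsq_meas, lintegral_const_mul _ hg.enorm]
      _ ≤ ENNReal.ofReal (A + A ^ 2) * ∫⁻ w in Qsq, ‖g w‖ₑ := by
          gcongr
          nlinarith [sq_nonneg A]
  · have hF := op_int c hc g hg B hB t
    have hBe := bessel (volume : Measure (E 2)) (fun w : E 2 => w) measurable_id 1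
      ENNReal.one_ne_top (fun φ _ => by simp) (fun w : E 2 => g w * amp2 (hft_a c) idM t w) hF
    rw [one_mul] at hBe
    refine le_trans (le_of_eq ?_) (hBe.trans ?_)
    · rfl
    · calc ∫⁻ w : E 2, ‖g w * amp2 (hft_a c) idM t w‖ₑ ^ (2:ℝ)
          ≤ ∫⁻ w : E 2, Qsq.indicator
              (fun w => ENNReal.ofReal (A ^ 2) * (ENNReal.ofReal B * ‖g w‖ₑ)) w := by
            refine lintegral_mono fun w => ?_
            have h1 := hpt w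
            by_cases hw : w ∈ Qsq
            · rw [indicator_of_mem hw] at h1 ⊢
              have h2 : ‖g w‖ₑ ≤ ENNReal.ofReal B := by
                rw [← ofReal_norm]
                exact ENNReal.ofReal_le_ofReal (hB w)
              calc ‖g w * amp2 (hft_a c) idM t w‖ₑ ^ (2:ℝ)
                  ≤ (ENNReal.ofReal A * ‖g w‖ₑ) ^ (2:ℝ) := ENNReal.rpow_le_rpow h1 (by norm_num)
                _ = (ENNReal.ofReal A * ‖g w‖ₑ) ^ 2 := by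
                    exact_mod_cast ENNReal.rpow_natCast _ 2
                _ = ENNReal.ofReal (A ^ 2) * (‖g w‖ₑ * ‖g w‖ₑ) := by
                    rw [ENNReal.ofReal_pow hA.le]
                    ring
                _ ≤ ENNReal.ofReal (A ^ 2) * (ENNReal.ofReal B * ‖g w‖ₑ) := by
                    gcongr
            · rw [indicator_of_notMem hw] at h1 ⊢
              have h2 : ‖g w * amp2 (hft_a c) idM t w‖ₑ = 0 := le_antisymm h1 zero_le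
              rw [h2, ENNReal.zero_rpow_of_pos (by norm_num)]
        _ = ENNReal.ofReal (A ^ 2) * (ENNReal.ofReal B * ∫⁻ w in Qsq, ‖g w‖ₑ) := by
            rw [lintegral_indicator Qsq_meas, lintegral_const_mul _ (hg.enorm.const_mul _),
              lintegral_const_mul _ hg.enorm]
        _ ≤ ENNReal.ofReal (A + A ^ 2) * (ENNReal.ofReal B * ∫⁻ w in Qsq, ‖g w‖ₑ) := by
            gcongr
            linarith

theorem four_conv {ι : Type} [Fintype ι] (b z : ι → ℂ) :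
    ‖∑ i, b i * z i‖ ^ 4 ≤ (∑ i, ‖b i‖) ^ 3 * ∑ i, ‖b i‖ * ‖z i‖ ^ 4 := by
  have h1 : ‖∑ i, b i * z i‖ ≤ ∑ i, ‖b i‖ * ‖z i‖ := by
    refine (norm_sum_le _ _).trans (le_of_eq ?_)
    refine Finset.sum_congr rfl fun i _ => ?_
    rw [norm_mul]
  have h2 : (∑ i, ‖b i‖ * ‖z i‖) ^ 2 ≤ (∑ i, ‖b i‖) * ∑ i, ‖b i‖ * ‖z i‖ ^ 2 :=
    Finset.sum_sq_le_sum_mul_sum_of_sq_le_mul _ (fun _ _ => norm_nonneg _)
      (fun _ _ => by positivity) (fun i _ => by ring_nf; rfl)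
  have h3 : (∑ i, ‖b i‖ * ‖z i‖ ^ 2) ^ 2 ≤ (∑ i, ‖b i‖) * ∑ i, ‖b i‖ * ‖z i‖ ^ 4 :=
    Finset.sum_sq_le_sum_mul_sum_of_sq_le_mul _ (fun _ _ => norm_nonneg _)
      (fun _ _ => by positivity) (fun i _ => by ring_nf; rfl)
  set s : ℝ := ∑ i, ‖b i‖ with hs
  have hs0 : 0 ≤ s := Finset.sum_nonneg fun _ _ => norm_nonneg _
  have h4 : 0 ≤ ∑ i, ‖b i‖ * ‖z i‖ ^ 2 := Finset.sum_nonneg fun _ _ => by positivity
  calc ‖∑ i, b i * z i‖ ^ 4 ≤ (∑ i, ‖b i‖ * ‖z i‖) ^ 4 := pow_le_pow_left₀ (norm_nonneg _) h1 4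
    _ = ((∑ i, ‖b i‖ * ‖z i‖) ^ 2) ^ 2 := by ring
    _ ≤ (s * ∑ i, ‖b i‖ * ‖z i‖ ^ 2) ^ 2 := pow_le_pow_left₀ (sq_nonneg _) h2 2
    _ = s ^ 2 * (∑ i, ‖b i‖ * ‖z i‖ ^ 2) ^ 2 := by ring
    _ ≤ s ^ 2 * (s * ∑ i, ‖b i‖ * ‖z i‖ ^ 4) := mul_le_mul_of_nonneg_left h3 (sq_nonneg _)
    _ = _ := by ring

theorem four_conv_e {ι : Type} [Fintype ι] (b z : ι → ℂ) :
    ‖∑ i, b i * z i‖ₑ ^ (4:ℝ) ≤
      ENNReal.ofReal ((∑ i, ‖b i‖) ^ 3) * ∑ i, ENNReal.ofReal ‖b i‖ * ‖z i‖ₑ ^ (4:ℝ) := by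
  have h4 : ∀ z : ℂ, ‖z‖ₑ ^ (4:ℝ) = ENNReal.ofReal (‖z‖ ^ 4) := by
    intro z
    rw [ENNReal.ofReal_pow (norm_nonneg _), ofReal_norm]
    exact_mod_cast ENNReal.rpow_natCast _ 4
  simp only [h4]
  have h5 : ∀ i, ENNReal.ofReal ‖b i‖ * ENNReal.ofReal (‖z i‖ ^ 4) =
      ENNReal.ofReal (‖b i‖ * ‖z i‖ ^ 4) := fun i => (ENNReal.ofReal_mul (norm_nonneg _)).symm
  simp only [h5]
  rw [← ENNReal.ofReal_sum_of_nonneg fun _ _ => by positivity, ← ENNReal.ofReal_mul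
    (pow_nonneg (Finset.sum_nonneg fun _ _ => norm_nonneg _) 3)]
  exact ENNReal.ofReal_le_ofReal (four_conv b z)

theorem enorm_add_four' (x y : ℂ) :
    ‖x + y‖ₑ ^ (4:ℝ) ≤ 8 * (‖x‖ₑ ^ (4:ℝ) + ‖y‖ₑ ^ (4:ℝ)) := by
  have h1 := enorm_add_four x y
  have h2 : ∀ z : ℂ, ‖z‖ₑ ^ (4:ℝ) = ‖z‖ₑ ^ 4 := by
    intro z
    exact_mod_cast ENNReal.rpow_natCast _ 4
  rw [h2, h2, h2]
  exact h1

/-- The density in the plane, cut to `c < |w 0|`, `c < |w 1|`. -/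
noncomputable def cw (c : ℝ) (G : ℝ × ℝ → ℂ) (w : E 2) : ℂ :=
  if c < |w 0| ∧ c < |w 1| then G (w 0, w 1) else 0

theorem cw_set (c : ℝ) : MeasurableSet {w : E 2 | c < |w 0| ∧ c < |w 1|} := by
  have m1 : MeasurableSet {w : E 2 | c < |w 0|} :=
    measurableSet_lt measurable_const (by fun_prop)
  have m2 : MeasurableSet {w : E 2 | c < |w 1|} :=
    measurableSet_lt measurable_const (by fun_prop)
  exact m1.inter m2

theorem cw_meas (c : ℝ) (G : ℝ × ℝ → ℂ) (hG : Measurable G) : Measurable (cw c G) := by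
  unfold cw
  refine Measurable.ite (cw_set c) ?_ measurable_const
  exact hG.comp (f := fun w : E 2 => (w 0, w 1)) (by fun_prop)

theorem cw_norm (c : ℝ) (G : ℝ × ℝ → ℂ) (B : ℝ) (hB0 : 0 ≤ B) (hB : ∀ x, ‖G x‖ ≤ B) (w : E 2) :
    ‖cw c G w‖ ≤ B := by
  unfold cw
  split_ifs
  · exact hB _
  · simpa using hB0

theorem cw_le (c : ℝ) (G : ℝ × ℝ → ℂ) (w : E 2) : ‖cw c G w‖ₑ ≤ ‖G (w 0, w 1)‖ₑ := by
  unfold cw
  split_ifs
  · exact le_rfl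
  · simp

end Pool.Agent.SDT.N1

end -- N1.Y2
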