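import Pool.Agent.SDT.B26
import Pool.Agent.SDT.B33
import Pool.Agent.SDT.B37
import Pool.Agent.SDT.B38

set_option autoImplicit false

namespace Pool.Agent.SDT.MP_6cbfb8_an
end Pool.Agent.SDT.MP_6cbfb8_an
namespace Pool.Agent.SDT.MST
end Pool.Agent.SDT.MST
namespace Pool.Agent.SDT.N1
end Pool.Agent.SDT.N1
namespace Pool.Agent.SDT.N1F
end Pool.Agent.SDT.N1F
namespace Pool.Agent.SDT.N1G
end Pool.Agent.SDT.N1G
namespace Pool.Agent.SDT.N1M
end Pool.Agent.SDT.N1M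

section -- N1G.MNb

/-!
N1G, block L2a, case (N), part b: the local estimate at one direction.
-/

namespace Pool.Agent.SDT.N1G

open MeasureTheory Set Metric Pool.Agent.SDT.MP_6cbfb8_an Pool.Agent.SDT.MST Pool.Agent.SDT.N1
open scoped ENNReal Real ContDiff Topology

section mnb

variable {P : Type*} [NormedAddCommGroup P] [NormedSpace ℝ P]

/-- The local estimate at the direction `ζ`. -/
def LocN (D : Dat P) (p0 : P) (x0 y0 : ℝ × ℝ) (ζ : ℝ × ℝ) (δ C : ℝ) : Prop :=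
  ∀ p ∈ ball p0 δ, ∀ T γ : ℝ, 0 < T → 0 < γ → γ ≤ 2 * δ → ∀ A B : V → ℂ, Measurable A →
    Measurable B → (∀ a, ‖A a‖ ≤ 1) → (∀ b, ‖B b‖ ≤ 1) →
    (∀ u, A u ≠ 0 → |u.1 - y0.1| ≤ δ ∧ |u.2.1 - x0.1| ≤ δ ∧ |u.2.2 / γ - ζ.1| ≤ δ) →
    (∀ v, B v ≠ 0 → |v.1 - y0.2| ≤ δ ∧ |v.2.1 - x0.2| ≤ δ ∧ |v.2.2 / γ - ζ.2| ≤ δ) →
    ‖FFg (fun s => D.ψ (p, s)) (fun s => D.W (p, s)) T (tp A B)‖ ≤ C / T

/-- From an estimate of the scaled integral to the local estimate. -/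
lemma locN_of (D : Dat P) (p0 : P) (x0 y0 ζ : ℝ × ℝ) (δ1 C : ℝ) (hδ1 : 0 < δ1)
    (H : ∀ p ∈ ball ((p0, 0) : P × ℝ) δ1, ∀ lam : ℝ, 0 < lam →
      ∀ A B : V → ℂ, Measurable A → Measurable B → (∀ a, ‖A a‖ ≤ 1) → (∀ b, ‖B b‖ ≤ 1) →
      (∀ a, A a ≠ 0 → a ∈ ball ((y0.1, x0.1, ζ.1) : V) δ1) →
      (∀ b, B b ≠ 0 → b ∈ ball ((y0.2, x0.2, ζ.2) : V) δ1) →
      ‖∫ q : V × V, A q.1 * B q.2 * ∫ s : ℝ, ((c3 D.W (s, p, q.1, q.2) : ℝ) : ℂ) *
        ex (lam * (s * G3 D.ψ (p, q.1, q.2)))‖ ≤ C / lam ^ 2) :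
    LocN D p0 x0 y0 ζ (δ1 / 3) C := by
  intro p hp T γ hT hγ hγδ A B hA hB hA1 hB1 hAs hBs
  have hball : ∀ (u : V) (x y z : ℝ), |u.1 - x| ≤ δ1 / 3 ∧ |u.2.1 - y| ≤ δ1 / 3 ∧
      |u.2.2 - z| ≤ δ1 / 3 → u ∈ ball ((x, y, z) : V) δ1 := by
    intro u x y z h
    rw [mem_ball, Prod.dist_eq, Prod.dist_eq, Real.dist_eq, Real.dist_eq, Real.dist_eq]
    exact max_lt (by linarith [h.1]) (max_lt (by linarith [h.2.1]) (by linarith [h.2.2]))
  have hAs' : ∀ u, A (Sc 1 γ u) ≠ 0 → u ∈ ball ((y0.1, x0.1, ζ.1) : V) δ1 := by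
    intro u hu
    have h := hAs _ hu
    unfold Sc at h
    simp only at h
    rw [one_mul, mul_div_cancel_left₀ _ hγ.ne'] at h
    exact hball u _ _ _ h
  have hBs' : ∀ u, B (Sc 1 γ u) ≠ 0 → u ∈ ball ((y0.2, x0.2, ζ.2) : V) δ1 := by
    intro u hu
    have h := hBs _ hu
    unfold Sc at h
    simp only at h
    rw [one_mul, mul_div_cancel_left₀ _ hγ.ne'] at h
    exact hball u _ _ _ h
  have hpb : ((p, γ) : P × ℝ) ∈ ball ((p0, 0) : P × ℝ) δ1 := by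
    rw [mem_ball] at hp
    rw [mem_ball, Prod.dist_eq, Real.dist_eq, sub_zero, abs_of_pos hγ]
    exact max_lt (by linarith) (by linarith)
  have hmain := H (p, γ) hpb (T * γ) (by positivity) (fun u => A (Sc 1 γ u))
    (fun u => B (Sc 1 γ u)) (hA.comp (Sc_cont 1 γ).measurable)
    (hB.comp (Sc_cont 1 γ).measurable) (fun a => hA1 _) (fun b => hB1 _) hAs' hBs'
  rw [FFg_scale D.sψ p T γ hT hγ A B, norm_mul, norm_mul, Complex.norm_real, Complex.norm_real,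
    Real.norm_eq_abs, Real.norm_eq_abs, abs_of_pos hT, abs_of_pos (by positivity)]
  calc γ * γ * T * ‖_‖ ≤ γ * γ * T * (C / (T * γ) ^ 2) :=
        mul_le_mul_of_nonneg_left hmain (by positivity)
    _ = C / T := by
      field_simp

/-- The case of a zero of the limit phase. -/
lemma locN_zero [FiniteDimensional ℝ P] (F : Fam P) (D : Dat P) (p0 : P) (x0 y0 : ℝ × ℝ) (ρ : ℝ)
    (hD : DatOk D F p0 x0 y0 ρ) (hN : CaseN F p0 x0 y0) (ζ : ℝ × ℝ) (h1 : ζ.1 ≠ 0)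
    (h2 : ζ.2 ≠ 0) (h0 : ζ.1 * F.ψa p0 (y0, x0) + ζ.2 * F.ψb p0 (y0, x0) = 0) :
    ∃ δ : ℝ, 0 < δ ∧ ∃ C : ℝ, 0 ≤ C ∧ LocN D p0 x0 y0 ζ δ C := by
  set a0 : V := (y0.1, x0.1, ζ.1) with ha0
  set b0 : V := (y0.2, x0.2, ζ.2) with hb0
  have hρ := hD.hρ
  have eF : ∀ a ∈ ball a0 ρ, ∀ b ∈ ball b0 ρ, G3 D.ψ ((p0, 0), a, b) = F.H p0 a b := by
    intro a ha b hb
    rw [mem_ball, Prod.dist_eq, Prod.dist_eq, Real.dist_eq, Real.dist_eq, max_lt_iff,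
      max_lt_iff] at ha hb
    have hm : ((p0, ((a.1, b.1), (a.2.1, b.2.1))) : P × YX) ∈ ball (p0, (y0, x0)) ρ := by
      rw [mem_ballYX, dist_self]
      exact ⟨hρ, ⟨ha.1, hb.1⟩, ha.2.1, hb.2.1⟩
    rw [G3_zero, hD.ea' _ _ hm, hD.eb _ _ hm]
    rfl
  have e1 : ∀ b ∈ ball b0 ρ, fderiv ℝ (fun a => G3 D.ψ ((p0, 0), a, b)) a0
      = fderiv ℝ (fun a => F.H p0 a b) a0 := by
    intro b hb
    apply Filter.EventuallyEq.fderiv_eq
    filter_upwards [ball_mem_nhds a0 hρ] with a ha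
    exact eF a ha b hb
  have e2 : fderiv ℝ (fun b => G3 D.ψ ((p0, 0), a0, b)) b0 =
      fderiv ℝ (fun b => F.H p0 a0 b) b0 := by
    apply Filter.EventuallyEq.fderiv_eq
    filter_upwards [ball_mem_nhds b0 hρ] with b hb
    exact eF a0 (mem_ball_self hρ) b hb
  have e3 : ∀ u : V, fderiv ℝ (fun b => fderiv ℝ (fun a => G3 D.ψ ((p0, 0), a, b)) a0 u) b0
      = fderiv ℝ (fun b => fderiv ℝ (fun a => F.H p0 a b) a0 u) b0 := by
    intro u
    apply Filter.EventuallyEq.fderiv_eq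
    filter_upwards [ball_mem_nhds b0 hρ] with b hb
    rw [e1 b hb]
  have hnd : ∀ (u : V) (d : ℝ), fderiv ℝ (fun a => G3 D.ψ ((p0, 0), a, b0)) a0 u = 0 →
      (∀ e : V, fderiv ℝ (fun b => fderiv ℝ (fun a => G3 D.ψ ((p0, 0), a, b)) a0 u) b0 e +
        d * fderiv ℝ (fun b => G3 D.ψ ((p0, 0), a0, b)) b0 e = 0) → u = 0 ∧ d = 0 := by
    intro u d k1 k2
    refine hN.nd ζ.1 ζ.2 h1 h2 h0 u d ?_ ?_
    · rw [← e1 b0 (mem_ball_self hρ)]
      exact k1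
    · intro e
      have k3 := k2 e
      rw [e3 u, e2] at k3
      exact k3
  obtain ⟨δ1, hδ1, C, hC, H⟩ := RC (G3 D.ψ) (c3 D.W) (p0, 0) a0 b0 1 (1 / 2) 3 one_pos
    (by norm_num) (G3_smooth D.sψ).contDiffOn (c3_smooth D.sW).contDiffOn
    (by
      intro s q _ h
      have hchi : chi s ≠ 0 := by
        intro h3
        apply h
        unfold c3
        simp only
        rw [h3, zero_mul]
      obtain ⟨g1, g2⟩ := chi_zero _ hchi
      have hs : 0 ≤ s := by linarith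
      rw [abs_of_nonneg hs]
      exact ⟨g1, g2⟩) hnd
  exact ⟨δ1 / 3, by positivity, C, hC, locN_of D p0 x0 y0 ζ δ1 C hδ1 H⟩

/-- The case where the limit phase does not vanish. -/
lemma locN_ne [FiniteDimensional ℝ P] (F : Fam P) (D : Dat P) (p0 : P) (x0 y0 : ℝ × ℝ) (ρ : ℝ)
    (hD : DatOk D F p0 x0 y0 ρ) (ζ : ℝ × ℝ)
    (h0 : ζ.1 * F.ψa p0 (y0, x0) + ζ.2 * F.ψb p0 (y0, x0) ≠ 0) :
    ∃ δ : ℝ, 0 < δ ∧ ∃ C : ℝ, 0 ≤ C ∧ LocN D p0 x0 y0 ζ δ C := by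
  obtain ⟨CK, hCK, hK⟩ := Kt_le
  set a0 : V := (y0.1, x0.1, ζ.1) with ha0
  set b0 : V := (y0.2, x0.2, ζ.2) with hb0
  set xx : (P × ℝ) × V × V := ((p0, 0), a0, b0) with hxx
  have hρ := hD.hρ
  have hm : ((p0, (y0, x0)) : P × YX) ∈ ball (p0, (y0, x0)) ρ := mem_ball_self hρ
  have hG0 : G3 D.ψ xx ≠ 0 := by
    have e : G3 D.ψ xx = ζ.1 * F.ψa p0 (y0, x0) + ζ.2 * F.ψb p0 (y0, x0) := by
      rw [hxx, G3_zero]
      have hm' : ((p0, ((a0.1, b0.1), (a0.2.1, b0.2.1))) : P × YX) ∈ ball (p0, (y0, x0)) ρ := hm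
      rw [hD.ea' _ _ hm', hD.eb _ _ hm']
    rw [e]
    exact h0
  set h := |G3 D.ψ xx| with hh
  have hh0 : 0 < h := abs_pos.2 hG0
  set ww : (P × ℝ) × V × V → ℝ := fun x => |D.W (e3 1 x) * D.W (e3 0 x)| with hww
  have cw : Continuous ww := by
    refine ((D.sW.continuous.comp (e3_smooth' 1).continuous).mul
      (D.sW.continuous.comp (e3_smooth' 0).continuous)).abs
  have cG : Continuous fun x => |G3 D.ψ x| := (G3_smooth D.sψ).continuous.abs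
  have ev : ∀ᶠ x in 𝓝 xx, h / 2 ≤ |G3 D.ψ x| ∧ ww x ≤ ww xx + 1 := by
    filter_upwards [cG.continuousAt.eventually (lt_mem_nhds (show h / 2 < |G3 D.ψ xx| by
        rw [← hh]; linarith)),
      cw.continuousAt.eventually (gt_mem_nhds (show ww xx < ww xx + 1 by linarith))]
      with x d1 d2
    exact ⟨d1.le, d2.le⟩
  obtain ⟨δ1, hδ1, hb⟩ := Metric.eventually_nhds_iff_ball.1 ev
  have hw0 : 0 ≤ ww xx := abs_nonneg _
  set V0 : ℝ := (volume : Measure (V × V)).real (ball (a0, b0) δ1) with hV0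
  have hV0n : 0 ≤ V0 := measureReal_nonneg
  refine ⟨δ1 / 3, by positivity, (ww xx + 1) * (CK * 4 / h ^ 2) * V0, by positivity,
    locN_of D p0 x0 y0 ζ δ1 _ hδ1 ?_⟩
  intro p hp lam hlam A B hA hB hA1 hB1 hAs hBs
  have hin : ∀ q : V × V, q.1 ∈ ball a0 δ1 → q.2 ∈ ball b0 δ1 →
      ((p, q.1, q.2) : (P × ℝ) × V × V) ∈ ball xx δ1 := by
    intro q q1 q2
    rw [mem_ball] at hp q1 q2 ⊢
    rw [hxx, Prod.dist_eq, Prod.dist_eq]
    exact max_lt hp (max_lt q1 q2)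
  have hset : ∫ q : V × V, A q.1 * B q.2 * ∫ s : ℝ, ((c3 D.W (s, p, q.1, q.2) : ℝ) : ℂ) *
        ex (lam * (s * G3 D.ψ (p, q.1, q.2))) =
      ∫ q in ball (a0, b0) δ1, A q.1 * B q.2 * ∫ s : ℝ, ((c3 D.W (s, p, q.1, q.2) : ℝ) : ℂ) *
        ex (lam * (s * G3 D.ψ (p, q.1, q.2))) := by
    symm
    refine setIntegral_eq_integral_of_forall_compl_eq_zero fun q hq => ?_
    by_cases hq1 : A q.1 = 0
    · rw [hq1, zero_mul, zero_mul]
    · by_cases hq2 : B q.2 = 0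
      · rw [hq2, mul_zero, zero_mul]
      · exfalso
        apply hq
        have g1 := hAs _ hq1
        have g2 := hBs _ hq2
        rw [mem_ball] at g1 g2 ⊢
        rw [Prod.dist_eq]
        exact max_lt g1 g2
  have hbd : ∀ q ∈ ball ((a0, b0) : V × V) δ1, ‖A q.1 * B q.2 * ∫ s : ℝ,
      ((c3 D.W (s, p, q.1, q.2) : ℝ) : ℂ) * ex (lam * (s * G3 D.ψ (p, q.1, q.2)))‖ ≤
      (ww xx + 1) * (CK * 4 / h ^ 2) / lam ^ 2 := by
    intro q hq
    rw [mem_ball, Prod.dist_eq, max_lt_iff] at hq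
    obtain ⟨d1, d2⟩ := hb _ (hin q (mem_ball.2 hq.1) (mem_ball.2 hq.2))
    set G := G3 D.ψ (p, q.1, q.2) with hG
    have e5 : ∫ s : ℝ, ((c3 D.W (s, p, q.1, q.2) : ℝ) : ℂ) * ex (lam * (s * G)) =
        ((D.W (e3 1 (p, q.1, q.2)) * D.W (e3 0 (p, q.1, q.2)) : ℝ) : ℂ) * Kt 1 (lam * G) := by
      rw [f1_Kt_scale 1 _ one_pos, Complex.ofReal_one, one_mul, ← integral_const_mul]
      refine integral_congr_ae (Filter.Eventually.of_forall fun s => ?_)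
      unfold c3
      simp only
      rw [show 1 * (lam * G) * s = lam * (s * G) by ring]
      push_cast
      ring
    rw [e5, norm_mul, norm_mul, norm_mul, Complex.norm_real, Real.norm_eq_abs]
    have e6 : ‖A q.1‖ * ‖B q.2‖ ≤ 1 := mul_le_one₀ (hA1 _) (norm_nonneg _) (hB1 _)
    have e7 : ‖Kt 1 (lam * G)‖ ≤ CK * 4 / h ^ 2 / lam ^ 2 := by
      refine (hK 1 _ one_pos).trans ?_
      rw [mul_one, one_mul, abs_mul, abs_of_pos hlam, div_div,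
        div_le_div_iff₀ (by positivity) (by positivity)]
      have e8 : lam * (h / 2) ≤ lam * |G| := mul_le_mul_of_nonneg_left d1 hlam.le
      have e9 : (lam * (h / 2)) ^ 2 ≤ (1 + lam * |G|) ^ 3 := by
        have e10 : 0 ≤ lam * |G| := by positivity
        have e11 : (lam * (h / 2)) ^ 2 ≤ (lam * |G|) ^ 2 :=
          pow_le_pow_left₀ (by positivity) e8 2
        nlinarith [pow_nonneg e10 3, pow_nonneg e10 2]
      calc CK * (h ^ 2 * lam ^ 2) = CK * 4 * (lam * (h / 2)) ^ 2 := by ring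
        _ ≤ CK * 4 * (1 + lam * |G|) ^ 3 := by gcongr
    calc ‖A q.1‖ * ‖B q.2‖ * (|D.W (e3 1 (p, q.1, q.2)) * D.W (e3 0 (p, q.1, q.2))| *
          ‖Kt 1 (lam * G)‖) ≤ 1 * ((ww xx + 1) * (CK * 4 / h ^ 2 / lam ^ 2)) := by
          refine mul_le_mul e6 (mul_le_mul d2 e7 (norm_nonneg _) (by positivity))
            (by positivity) zero_le_one
      _ = (ww xx + 1) * (CK * 4 / h ^ 2) / lam ^ 2 := by ring
  rw [hset]
  refine (norm_setIntegral_le_of_norm_le_const measure_ball_lt_top hbd).trans (le_of_eq ?_)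
  rw [← hV0]
  ring

lemma locN [FiniteDimensional ℝ P] (F : Fam P) (D : Dat P) (p0 : P) (x0 y0 : ℝ × ℝ) (ρ : ℝ)
    (hD : DatOk D F p0 x0 y0 ρ) (hN : CaseN F p0 x0 y0) (ζ : ℝ × ℝ) (h1 : ζ.1 ≠ 0)
    (h2 : ζ.2 ≠ 0) : ∃ δ : ℝ, 0 < δ ∧ ∃ C : ℝ, 0 ≤ C ∧ LocN D p0 x0 y0 ζ δ C := by
  by_cases h0 : ζ.1 * F.ψa p0 (y0, x0) + ζ.2 * F.ψb p0 (y0, x0) = 0
  · exact locN_zero F D p0 x0 y0 ρ hD hN ζ h1 h2 h0
  · exact locN_ne F D p0 x0 y0 ρ hD ζ h0

end mnb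

end Pool.Agent.SDT.N1G

end -- N1G.MNb

section -- N1G.MNc

/-!
N1G, block L2a, case (N), part c: `mainN`.
-/

namespace Pool.Agent.SDT.N1G

open MeasureTheory Set Metric Pool.Agent.SDT.MP_6cbfb8_an Pool.Agent.SDT.MST Pool.Agent.SDT.N1
open scoped ENNReal Real ContDiff Topology

/-- Integrability for continuous phases and amplitudes and a density with bounded support. -/
lemma FFc_int (φ w : YX → ℝ) (hφ : Continuous φ) (hw : Continuous w) (T : ℝ) (hT : 0 < T)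
    (M : V × V → ℂ) (hM : Measurable M) (hM1 : ∀ q, ‖M q‖ ≤ 1) (R : ℝ)
    (hMs : ∀ q, M q ≠ 0 → q ∈ closedBall (0 : V × V) R) :
    Integrable fun q : V × V => M q * ((Wg w q : ℝ) : ℂ) * Kt T (Fg φ q) := by
  obtain ⟨C, hC, hK⟩ := Kt_le
  have cx : Continuous px := by
    unfold px
    fun_prop
  have cz : Continuous pz := by
    unfold pz
    fun_prop
  have cW : Continuous (Wg w) := (hw.comp cx).mul (hw.comp cz)
  have cF : Continuous (Fg φ) := (hφ.comp cx).sub (hφ.comp cz)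
  obtain ⟨C1, hC1⟩ := (isCompact_closedBall (0 : V × V) R).exists_bound_of_continuousOn
    cW.continuousOn
  have hm : Measurable fun q : V × V => M q * ((Wg w q : ℝ) : ℂ) * Kt T (Fg φ q) :=
    (hM.mul (Complex.measurable_ofReal.comp cW.measurable)).mul
      ((f1_Kt_meas T).comp cF.measurable)
  have h0 : ∀ q, q ∉ closedBall (0 : V × V) R →
      M q * ((Wg w q : ℝ) : ℂ) * Kt T (Fg φ q) = 0 := by
    intro q hq
    have : M q = 0 := by
      by_contra h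
      exact hq (hMs q h)
    rw [this, zero_mul, zero_mul]
  refine hlp_int (S := closedBall (0 : V × V) R) (isCompact_closedBall _ _).measure_lt_top _ hm
    (1 * |C1| * (C * T)) (fun q => ?_) h0
  by_cases hq : q ∈ closedBall (0 : V × V) R
  · rw [norm_mul, norm_mul, Complex.norm_real]
    have e1 : ‖Kt T (Fg φ q)‖ ≤ C * T := by
      refine (hK T _ hT).trans (div_le_self (by positivity) ?_)
      exact one_le_pow₀ (by nlinarith [abs_nonneg (Fg φ q)])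
    have e2 : ‖Wg w q‖ ≤ |C1| := (hC1 q hq).trans (le_abs_self _)
    gcongr
    exact hM1 q
  · rw [h0 q hq, norm_zero]
    positivity

section mnc

variable {P : Type*} [NormedAddCommGroup P] [NormedSpace ℝ P]

lemma LocN_mono (D : Dat P) (p0 : P) (x0 y0 ζ : ℝ × ℝ) (δ δ' C C' : ℝ) (_ : 0 < δ')
    (h1 : δ' ≤ δ) (h2 : C ≤ C') (h : LocN D p0 x0 y0 ζ δ C) : LocN D p0 x0 y0 ζ δ' C' := by
  intro p hp T γ hT hγ hγδ A B hA hB hA1 hB1 hAs hBs
  refine (h p (ball_subset_ball h1 hp) T γ hT hγ (by linarith) A B hA hB hA1 hB1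
    (fun u hu => ?_) (fun v hv => ?_)).trans (by gcongr)
  · obtain ⟨k1, k2, k3⟩ := hAs u hu
    exact ⟨k1.trans h1, k2.trans h1, k3.trans h1⟩
  · obtain ⟨k1, k2, k3⟩ := hBs v hv
    exact ⟨k1.trans h1, k2.trans h1, k3.trans h1⟩

lemma LocN_shift (D : Dat P) (p0 : P) (x0 y0 ζ ζ' : ℝ × ℝ) (δ C : ℝ) (hδ : 0 < δ)
    (h1 : dist ζ' ζ ≤ δ / 2) (h : LocN D p0 x0 y0 ζ δ C) : LocN D p0 x0 y0 ζ' (δ / 2) C := by
  rw [Prod.dist_eq, max_le_iff, Real.dist_eq, Real.dist_eq, abs_le, abs_le] at h1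
  obtain ⟨⟨a1, a2⟩, b1, b2⟩ := h1
  intro p hp T γ hT hγ hγδ A B hA hB hA1 hB1 hAs hBs
  refine h p (ball_subset_ball (by linarith) hp) T γ hT hγ (by linarith) A B hA hB hA1 hB1
    (fun u hu => ?_) (fun v hv => ?_)
  · obtain ⟨k1, k2, k3⟩ := hAs u hu
    refine ⟨by linarith, by linarith, ?_⟩
    rw [abs_le] at k3 ⊢
    constructor <;> linarith [k3.1, k3.2]
  · obtain ⟨k1, k2, k3⟩ := hBs v hv
    refine ⟨by linarith, by linarith, ?_⟩
    rw [abs_le] at k3 ⊢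
    constructor <;> linarith [k3.1, k3.2]

/-- The compact set of directions. -/
def KN (C7 : ℝ) : Set (ℝ × ℝ) :=
  {ζ | 1 / 2 ≤ |ζ.1| ∧ |ζ.1| ≤ C7 ∧ 1 / (2 * C7) ≤ |ζ.2| ∧ |ζ.2| ≤ C7}

lemma KN_compact (C7 : ℝ) : IsCompact (KN C7) := by
  refine Metric.isCompact_of_isClosed_isBounded ?_ ?_
  · have e : KN C7 = {ζ : ℝ × ℝ | 1 / 2 ≤ |ζ.1|} ∩ ({ζ : ℝ × ℝ | |ζ.1| ≤ C7} ∩
        ({ζ : ℝ × ℝ | 1 / (2 * C7) ≤ |ζ.2|} ∩ {ζ : ℝ × ℝ | |ζ.2| ≤ C7})) := rfl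
    have c1 : Continuous fun ζ : ℝ × ℝ => |ζ.1| := by fun_prop
    have c2 : Continuous fun ζ : ℝ × ℝ => |ζ.2| := by fun_prop
    rw [e]
    exact (isClosed_le continuous_const c1).inter ((isClosed_le c1 continuous_const).inter
      ((isClosed_le continuous_const c2).inter (isClosed_le c2 continuous_const)))
  · refine (isBounded_closedBall (x := (0 : ℝ × ℝ)) (r := C7)).subset fun ζ hζ => ?_
    rw [mem_closedBall_zero_iff, Prod.norm_def, max_le_iff]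
    exact ⟨hζ.2.1, hζ.2.2.2⟩

lemma FFg_zero_b (φ w : YX → ℝ) (T : ℝ) (M : V × V → ℂ) (h : ∀ q, M q = 0) :
    FFg φ w T M = 0 := by
  unfold FFg
  simp [h]

theorem mainN [FiniteDimensional ℝ P] (F : Fam P) (p0 : P) (x0 y0 : ℝ × ℝ) (r : ℝ)
    (h : FamOk F p0 x0 y0 r) (hN : CaseN F p0 x0 y0) (C7 : ℝ) (hC7 : 1 ≤ C7) :
    ∃ δ : ℝ, 0 < δ ∧ ∃ C : ℝ, 0 ≤ C ∧ ∀ p ∈ ball p0 δ, ∀ φ w : YX → ℝ,
    Agr F p x0 y0 δ φ w → ∀ T γ d : ℝ, 0 < T → 0 < γ → γ ≤ 2 * δ → 0 < d →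
    γ ≤ C7 * d → d ≤ C7 * γ → ∀ A₁ A₂ : V → ℂ, Measurable A₁ →
      Measurable A₂ → (∀ u, ‖A₁ u‖ ≤ 1) → (∀ u, ‖A₂ u‖ ≤ 1) → Sp δ y0.1 x0.1 γ A₁ →
      Sp δ y0.2 x0.2 d A₂ → ‖FFg φ w T (tp A₁ A₂)‖ ≤ C / T := by
  obtain ⟨D, hD⟩ := exists_dat F p0 x0 y0 r h
  have hρ := hD.hρ
  have hC70 : 0 < C7 := by linarith
  obtain ⟨δ1, hδ1, C, hC, H⟩ := g2_unif (KN_compact C7)
    (fun ζ δ C => LocN D p0 x0 y0 ζ δ C)
    (fun ζ δ δ' C C' k1 k2 k3 k4 => LocN_mono D p0 x0 y0 ζ δ δ' C C' k1 k2 k3 k4)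
    (fun ζ hζ => locN F D p0 x0 y0 (r / 2) hD hN ζ
      (by
        intro e
        have := hζ.1
        rw [e, abs_zero] at this
        linarith)
      (by
        intro e
        have := hζ.2.2.1
        rw [e, abs_zero] at this
        have : 0 < 1 / (2 * C7) := by positivity
        linarith))
    (fun ζ ζ' δ C k1 k2 k3 => LocN_shift D p0 x0 y0 ζ ζ' δ C k1 k2 k3)
  set δ := min δ1 (r / 2 / 2) with hδd
  have hδ : 0 < δ := lt_min hδ1 (by positivity)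
  have hδ_1 : δ ≤ δ1 := min_le_left _ _
  have hδ_2 : δ < r / 2 := lt_of_le_of_lt (min_le_right _ _) (by linarith)
  set N : ℕ := ⌊2 * C7 / δ1⌋₊ + 1 with hNd
  refine ⟨δ, hδ, (N : ℝ) ^ 2 * C, by positivity, ?_⟩
  intro p hp φ w hA T γ d hT hγ hγδ hd hγd hdγ A₁ A₂ m1 m2 n1 n2 s1 s2
  -- replace the phase and the amplitude
  have hcongr : FFg φ w T (tp A₁ A₂) =
      FFg (fun s => D.ψ (p, s)) (fun s => D.W (p, s)) T (tp A₁ A₂) := by
    refine FFg_congr _ _ _ _ _ _ fun q hq => ?_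
    unfold tp at hq
    obtain ⟨q1, q2⟩ := mul_ne_zero_iff.1 hq
    obtain ⟨a1, a2, a3, -, -⟩ := s1 _ q1
    obtain ⟨b1, b2, b3, -, -⟩ := s2 _ q2
    have kx : Bx δ x0 y0 (px q) := ⟨a1, b1, a2, b2⟩
    have kz : Bx δ x0 y0 (pz q) := ⟨a1, b1, a3, b3⟩
    have hin : ∀ s : YX, Bx δ x0 y0 s → ((p, s) : P × YX) ∈ ball (p0, (y0, x0)) (r / 2) := by
      intro s hs
      rw [mem_ballYX]
      rw [mem_ball] at hp
      obtain ⟨c1, c2, c3, c4⟩ := hs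
      exact ⟨by linarith, ⟨by linarith, by linarith⟩, by linarith, by linarith⟩
    have ax := hA _ kx
    have az := hA _ kz
    refine ⟨?_, ?_, ?_, ?_⟩
    · rw [ax.1, hD.eψ _ (hin _ kx)]
    · rw [az.1, hD.eψ _ (hin _ kz)]
    · rw [ax.2, hD.eW _ (hin _ kx)]
    · rw [az.2, hD.eW _ (hin _ kz)]
  rw [hcongr]
  -- directions
  have z1 : ∀ u, A₁ u ≠ 0 → 1 / 2 ≤ |u.2.2 / γ| ∧ |u.2.2 / γ| ≤ C7 := by
    intro u hu
    obtain ⟨-, -, -, k1, k2⟩ := s1 u hu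
    rw [abs_div, abs_of_pos hγ, le_div_iff₀ hγ, div_le_iff₀ hγ]
    constructor
    · linarith
    · nlinarith
  have z2 : ∀ u, A₂ u ≠ 0 → 1 / (2 * C7) ≤ |u.2.2 / γ| ∧ |u.2.2 / γ| ≤ C7 := by
    intro u hu
    obtain ⟨-, -, -, k1, k2⟩ := s2 u hu
    rw [abs_div, abs_of_pos hγ, le_div_iff₀ hγ, div_le_iff₀ hγ]
    constructor
    · rw [div_mul_eq_mul_div, div_le_iff₀ (by positivity)]
      nlinarith
    · linarith
  set f1' : V → ℝ := fun u => u.2.2 / γ with hf1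
  have mf : Measurable f1' := by
    rw [hf1]
    fun_prop
  set cA : ℕ → V → ℂ := fun i => g2_cut f1' C7 δ1 A₁ i with hcA
  set cB : ℕ → V → ℂ := fun i => g2_cut f1' C7 δ1 A₂ i with hcB
  have sA : ∀ u, ∑ i ∈ Finset.range N, cA i u = A₁ u :=
    g2_cut_sum f1' C7 δ1 hδ1 A₁ (fun u hu => (z1 u hu).2)
  have sB : ∀ u, ∑ i ∈ Finset.range N, cB i u = A₂ u :=
    g2_cut_sum f1' C7 δ1 hδ1 A₂ (fun u hu => (z2 u hu).2)
  -- the sum over the cells
  have hsum : FFg (fun s => D.ψ (p, s)) (fun s => D.W (p, s)) T (tp A₁ A₂) =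
      ∑ ij ∈ Finset.range N ×ˢ Finset.range N,
        FFg (fun s => D.ψ (p, s)) (fun s => D.W (p, s)) T (tp (cA ij.1) (cB ij.2)) := by
    have hi : ∀ ij ∈ Finset.range N ×ˢ Finset.range N, Integrable fun q : V × V =>
        tp (cA ij.1) (cB ij.2) q * ((Wg (fun s => D.W (p, s)) q : ℝ) : ℂ) *
          Kt T (Fg (fun s => D.ψ (p, s)) q) := by
      intro ij _
      refine FFc_int _ _ (D.sψ.continuous.comp (by fun_prop)) (D.sW.continuous.comp (by fun_prop))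
        T hT _ ?_ ?_ (δ + ‖x0‖ + ‖y0‖ + γ + d) ?_
      · unfold tp
        exact ((g2_cut_meas mf C7 δ1 m1 ij.1).comp measurable_fst).mul
          ((g2_cut_meas mf C7 δ1 m2 ij.2).comp measurable_snd)
      · intro q
        unfold tp
        rw [norm_mul]
        exact mul_le_one₀ (g2_cut_norm _ _ _ n1 _ _) (norm_nonneg _) (g2_cut_norm _ _ _ n2 _ _)
      · intro q hq
        unfold tp at hq
        obtain ⟨q1, q2⟩ := mul_ne_zero_iff.1 hq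
        obtain ⟨a1, a2, -, -, a5⟩ := s1 _ (g2_cut_ne q1).2
        obtain ⟨b1, b2, -, -, b5⟩ := s2 _ (g2_cut_ne q2).2
        have ex1 : |x0.1| ≤ ‖x0‖ := norm_fst_le x0
        have ex2 : |x0.2| ≤ ‖x0‖ := norm_snd_le x0
        have ey1 : |y0.1| ≤ ‖y0‖ := norm_fst_le y0
        have ey2 : |y0.2| ≤ ‖y0‖ := norm_snd_le y0
        have nx := norm_nonneg x0
        have ny := norm_nonneg y0
        rw [abs_le] at a1 a2 b1 b2 ex1 ex2 ey1 ey2 a5 b5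
        rw [mem_closedBall_zero_iff, Prod.norm_def, Prod.norm_def, Prod.norm_def, Prod.norm_def,
          Prod.norm_def]
        simp only [Real.norm_eq_abs]
        refine max_le (max_le ?_ (max_le ?_ ?_)) (max_le ?_ (max_le ?_ ?_)) <;> rw [abs_le] <;>
          constructor <;> linarith [a1.1, a1.2, a2.1, a2.2, b1.1, b1.2, b2.1, b2.2, ex1.1, ex1.2,
            ex2.1, ex2.2, ey1.1, ey1.2, ey2.1, ey2.2, a5.1, a5.2, b5.1, b5.2]
    unfold FFg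
    rw [← integral_finsetSum _ hi]
    refine integral_congr_ae (Filter.Eventually.of_forall fun q => ?_)
    simp only
    rw [← Finset.sum_mul, ← Finset.sum_mul]
    congr 2
    unfold tp
    rw [Finset.sum_product]
    simp only
    rw [← Finset.sum_mul_sum, sA, sB]
  rw [hsum]
  -- one cell
  have hcell : ∀ ij ∈ Finset.range N ×ˢ Finset.range N,
      ‖FFg (fun s => D.ψ (p, s)) (fun s => D.W (p, s)) T (tp (cA ij.1) (cB ij.2))‖ ≤ C / T := by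
    intro ij _
    by_cases hz : (∃ u, cA ij.1 u ≠ 0) ∧ ∃ v, cB ij.2 v ≠ 0
    · obtain ⟨⟨u0, hu0⟩, v0, hv0⟩ := hz
      obtain ⟨i1, i2⟩ := g2_cut_ne hu0
      obtain ⟨j1, j2⟩ := g2_cut_ne hv0
      have hζ : ((u0.2.2 / γ, v0.2.2 / γ) : ℝ × ℝ) ∈ KN C7 :=
        ⟨(z1 _ i2).1, (z1 _ i2).2, (z2 _ j2).1, (z2 _ j2).2⟩
      refine H _ hζ p (ball_subset_ball hδ_1 hp) T γ hT hγ (by linarith) _ _
        (g2_cut_meas mf C7 δ1 m1 ij.1) (g2_cut_meas mf C7 δ1 m2 ij.2)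
        (fun a => g2_cut_norm _ _ _ n1 _ _) (fun a => g2_cut_norm _ _ _ n2 _ _) ?_ ?_
      · intro u hu
        obtain ⟨k1, k2⟩ := g2_cut_ne hu
        obtain ⟨a1, a2, -, -, -⟩ := s1 _ k2
        exact ⟨a1.trans hδ_1, a2.trans hδ_1,
          g2_ix_near hδ1 (z1 _ k2).2 (z1 _ i2).2 (k1.trans i1.symm)⟩
      · intro v hv
        obtain ⟨k1, k2⟩ := g2_cut_ne hv
        obtain ⟨a1, a2, -, -, -⟩ := s2 _ k2
        exact ⟨a1.trans hδ_1, a2.trans hδ_1,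
          g2_ix_near hδ1 (z2 _ k2).2 (z2 _ j2).2 (k1.trans j1.symm)⟩
    · rw [FFg_zero_b, norm_zero]
      · positivity
      · intro q
        unfold tp
        by_cases hu : ∃ u, cA ij.1 u ≠ 0
        · have hv : ∀ v, cB ij.2 v = 0 := by
            intro v
            by_contra hv
            exact hz ⟨hu, v, hv⟩
          rw [hv, mul_zero]
        · push Not at hu
          rw [hu, zero_mul]
  refine (norm_sum_le _ _).trans ((Finset.sum_le_sum hcell).trans (le_of_eq ?_))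
  rw [Finset.sum_const, Finset.card_product, Finset.card_range, nsmul_eq_mul]
  push_cast
  ring

end mnc

end Pool.Agent.SDT.N1G

end -- N1G.MNc

section -- N1M.P3f

/-!
N1M, block M3 (type N'): division by `B`, values at the base parameters.
-/

namespace Pool.Agent.SDT.N1M

open MeasureTheory Set Metric Filter Pool.Agent.SDT.MP_6cbfb8_an Pool.Agent.SDT.MST Pool.Agent.SDT.N1
open Pool.Agent.SDT.N1F
open scoped ENNReal Real ContDiff Topology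

section base

variable (c : ℝ) (hc : 0 < c) (hc1 : c ≤ 1) (m0 k0 : ℝ) (a0 b0 : V)
  (hh : 1 / 4 ≤ hm m0 b0.2.1) (hb : 1 / 2 ≤ bm m0 b0.2.1) (hZ : b0.2.2 ≠ 0)

include hc hc1 hh hb hZ in
lemma smQ' : SmN sgQ (bp m0 k0, a0) ∧ SmN lQ (bp m0 k0, a0) ∧
    SmN (omQ c) (bp m0 k0, b0) ∧ SmN (mQ c) (bp m0 k0, b0) := by
  have hh8 : c ^ 2 / 8 ≤ hm m0 b0.2.1 := by nlinarith
  have hq := (Sq_base c hc m0 b0.2.1 hh8).2.1
  have hb' : 0 < bm m0 b0.2.1 := by linarith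
  have hm' : ∀ d : V, SmN (fun x : P6 × V => x.1.2.1) (bp m0 k0, d) :=
    fun d => smN_of (by fun_prop)
  have hB' : ∀ d : V, SmN (fun x : P6 × V => x.1.1) (bp m0 k0, d) :=
    fun d => smN_of (by fun_prop)
  have hρ' : ∀ d : V, SmN (fun x : P6 × V => x.1.2.2.1) (bp m0 k0, d) :=
    fun d => smN_of (by fun_prop)
  have hγ' : ∀ d : V, SmN (fun x : P6 × V => x.1.2.2.2.1) (bp m0 k0, d) :=
    fun d => smN_of (by fun_prop)
  have hy' : ∀ d : V, SmN (fun x : P6 × V => x.2.1) (bp m0 k0, d) := fun d =>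
    smN_of (by fun_prop)
  have hb1 : ∀ d : V, SmN (fun x : P6 × V => x.2.2.1) (bp m0 k0, d) := fun d =>
    smN_of (by fun_prop)
  have hz' : ∀ d : V, SmN (fun x : P6 × V => x.2.2.2) (bp m0 k0, d) := fun d =>
    smN_of (by fun_prop)
  have n4 : 1 - m0 * (0 * a0.2.1 ^ 2) ≠ 0 := by simp
  have hqq : ∀ b : ℝ, qB c m0 0 b0.2.1 b + qB c m0 0 (b0.2.1 - 0 * b0.2.2) b ≠ 0 := by
    intro b
    rw [zero_mul, sub_zero, qB_base c hc m0 _ hh8]
    positivity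
  have hW0 : WB c m0 0 b0.2.1 b0.2.2 ≠ 0 := by
    rw [WB_base]
    positivity
  have R0 := smN_RB hc (hm' b0) (smN_const 0 _) (hγ' b0) (hb1 b0) (hz' b0) (smN_const 0 _)
    (hqq _)
  have W := smN_WB hc (hm' b0) (hγ' b0) (hb1 b0) (hz' b0) (hqq _)
  have n5 : (m0 + RB c m0 0 0 b0.2.1 b0.2.2 0 ^ 2) *
      (m0 + RB c m0 0 0 b0.2.1 b0.2.2 0 ^ 2) ≠ 0 := by
    rw [mR_base c hc m0 _ hh8]
    positivity
  have n6 : (1 / ((m0 + RB c m0 0 0 b0.2.1 b0.2.2 0 ^ 2) *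
      (m0 + RB c m0 0 0 b0.2.1 b0.2.2 0 ^ 2)) - (0 * b0.2.2) ^ 2 / 4) *
      (RB c m0 0 0 b0.2.1 b0.2.2 0 + RB c m0 0 0 b0.2.1 b0.2.2 0) ≠ 0 := by
    rw [mR_base c hc m0 _ hh8, RB_base c hc m0 _ hh8]
    simp only [zero_mul]
    have : (1 / (1 / √(hm m0 b0.2.1) ^ 2 * (1 / √(hm m0 b0.2.1) ^ 2)) - (0:ℝ) ^ 2 / 4) =
      √(hm m0 b0.2.1) ^ 4 := by
      field_simp
      ring
    rw [this]
    positivity
  have E0 := smN_EB0 (hm' b0) (hγ' b0) (hz' b0) W R0 n5 n6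
  have n7 : qB c m0 0 (b0.2.1 - 0 * b0.2.2) 0 * EB0 c m0 0 b0.2.1 b0.2.2 ≠ 0 := by
    rw [EB0_base c hc m0 _ hh8 hb'.ne', zero_mul, sub_zero, qB_base c hc m0 _ hh8]
    exact mul_ne_zero hq.ne' (div_ne_zero (mul_ne_zero hZ hb'.ne') (by positivity))
  exact ⟨smN_sB (hm' a0) (hB' a0) (hρ' a0) (hy' a0) (hb1 a0) n4,
    smN_lB (hm' a0) (hB' a0) (hy' a0) (hb1 a0) (hz' a0) n4,
    smN_oB hc (hm' b0) (hB' b0) (hρ' b0) (hγ' b0) (hy' b0) (hb1 b0) (hz' b0) (hqq _) hW0,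
    smN_mB hc (hm' b0) (hγ' b0) (hb1 b0) (hz' b0) E0 n7⟩

/-- At `B = 0`. -/
lemma PsB_zero (c m ρ γ κ y b z Y r Z : ℝ) : PsB c m 0 ρ γ κ y b z Y r Z = 0 := by
  unfold PsB mB D1B EB EB0 NB
  simp only [mul_zero, zero_mul, sub_zero, div_one]
  have e1 : RB c m 0 γ r Z b = RB c m 0 γ r Z 0 := by
    unfold RB qB
    simp
  have e2 : RB c m 0 γ r Z (b - ρ * y) = RB c m 0 γ r Z 0 := by
    unfold RB qB
    simp
  have e3 : qB c m 0 (r - γ * Z) b = qB c m 0 (r - γ * Z) 0 := by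
    unfold qB
    simp
  have e4 : qB c m 0 (r - γ * Z) (b - κ * γ * z) = qB c m 0 (r - γ * Z) 0 := by
    unfold qB
    simp
  rw [e1, e2, e3, e4]
  generalize Z * WB c m γ r Z / ((1 / ((m + RB c m 0 γ r Z 0 ^ 2) * (m + RB c m 0 γ r Z 0 ^ 2)) -
    (γ * Z) ^ 2 / 4) * (RB c m 0 γ r Z 0 + RB c m 0 γ r Z 0)) = E
  generalize qB c m 0 (r - γ * Z) 0 = q
  rw [← two_mul, mul_assoc, show (-2 : ℝ) = 2 * (-1) by ring, mul_div_mul_left _ _ two_ne_zero,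
    sub_self]

end base

/-- Regrouping of the variables. -/
def rgA (u : ℝ × ((ℝ × ℝ × ℝ × ℝ × ℝ) × V × V)) : P6 × V × V := ((u.1, u.2.1), u.2.2)

/-- Regrouping of the variables. -/
def rgB (x : P6 × V × V) : ℝ × ((ℝ × ℝ × ℝ × ℝ × ℝ) × V × V) := (x.1.1, (x.1.2, x.2))

lemma rgA_smooth : ContDiff ℝ ∞ rgA := by
  unfold rgA
  fun_prop

lemma rgB_smooth : ContDiff ℝ ∞ rgB := by
  unfold rgB
  fun_prop

lemma rgB_bp (m0 k0 : ℝ) (a0 b0 : V) : rgB (bp m0 k0, a0, b0) =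
    ((0 : ℝ), ((m0, (0:ℝ), (0:ℝ), k0, (0:ℝ)), a0, b0)) := rfl

lemma rgA_bp (m0 k0 : ℝ) (a0 b0 : V) : rgA ((0 : ℝ), ((m0, (0:ℝ), (0:ℝ), k0, (0:ℝ)), a0, b0)) =
    (bp m0 k0, a0, b0) := rfl

lemma rgAB (x : P6 × V × V) : rgA (rgB x) = x := rfl

lemma had_gen (F : P6 × V × V → ℝ) (m0 k0 : ℝ) (a0 b0 : V) (h0 : SmN F (bp m0 k0, a0, b0))
    (hz : ∀ p a b, F ((0, p), a, b) = 0) : ∃ G1 : P6 × V × V → ℝ, SmN G1 (bp m0 k0, a0, b0) ∧
    ∀ᶠ x in 𝓝 (bp m0 k0, a0, b0), F x = x.1.1 * G1 x := by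
  have h1 : SmN (fun u => F (rgA u)) ((0 : ℝ), ((m0, (0:ℝ), (0:ℝ), k0, (0:ℝ)), a0, b0)) :=
    SmN.comp_sm (f := F) (φ := rgA) (y0 := (bp m0 k0, a0, b0)) h0 rgA_smooth
      (rgA_bp m0 k0 a0 b0)
  obtain ⟨r, hr, h2⟩ := h1.ball
  obtain ⟨r', hr', -, G, hG, hGe⟩ := had1 (fun u => F (rgA u)) 0
    ((m0, (0:ℝ), (0:ℝ), k0, (0:ℝ)), a0, b0) r hr h2 (fun e _ => hz _ _ _)
  refine ⟨fun x => G (rgB x), ?_, ?_⟩
  · refine SmN.comp_sm (f := G) (φ := rgB)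
      (y0 := ((0 : ℝ), ((m0, (0:ℝ), (0:ℝ), k0, (0:ℝ)), a0, b0))) ?_ rgB_smooth
      (rgB_bp m0 k0 a0 b0)
    filter_upwards [isOpen_ball.mem_nhds (mem_ball_self hr')] with x hx
    exact (hG x hx).contDiffAt (isOpen_ball.mem_nhds hx)
  · have h3 : ∀ᶠ x in 𝓝 (bp m0 k0, a0, b0),
        rgB x ∈ ball ((0 : ℝ), ((m0, (0:ℝ), (0:ℝ), k0, (0:ℝ)), a0, b0)) r' := by
      apply rgB_smooth.continuous.continuousAt.eventually
      rw [rgB_bp]
      exact isOpen_ball.mem_nhds (mem_ball_self hr')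
    filter_upwards [h3] with x hx
    have h4 := hGe _ hx
    rw [rgAB] at h4
    exact h4

section base

variable (c : ℝ) (hc : 0 < c) (hc1 : c ≤ 1) (m0 k0 : ℝ) (a0 b0 : V)
  (hh : 1 / 4 ≤ hm m0 b0.2.1) (hb : 1 / 2 ≤ bm m0 b0.2.1) (hZ : b0.2.2 ≠ 0)

include hc hc1 hh hb hZ in
/-- Division of `Ps` by `B`. -/
lemma had_Ps : ∃ G1 : P6 × V × V → ℝ, SmN G1 (bp m0 k0, a0, b0) ∧
    ∀ᶠ x in 𝓝 (bp m0 k0, a0, b0), PsQ c x = x.1.1 * G1 x :=
  had_gen (PsQ c) m0 k0 a0 b0 (smQ c hc hc1 m0 k0 a0 b0 hh hb hZ).2.2.2.1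
    (fun _ _ _ => PsB_zero _ _ _ _ _ _ _ _ _ _ _)

end base

end Pool.Agent.SDT.N1M

end -- N1M.P3f

section -- N1Q.AbE

/-!
N1Q, block absE: both sides non-tangential, absolute estimate.
-/

namespace Pool.Agent.SDT.N1Q

open MeasureTheory Set Metric Pool.Agent.SDT.MP_6cbfb8_an Pool.Agent.SDT.MST Pool.Agent.SDT.N1
open Pool.Agent.SDT.N1F Pool.Agent.SDT.N1G Pool.Agent.SDT.N1M
open scoped ENNReal Real ContDiff

/-- The two boxes. -/
def S1E (d e : ℝ) : Set (V × V) :=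
  (Icc (-d) d ×ˢ Icc (-1 / 4 : ℝ) (1 / 4) ×ˢ Icc (-e) e) ×ˢ
    (Icc (-1 / 2 : ℝ) (1 / 2) ×ˢ Icc (-1 / 4 : ℝ) (1 / 4) ×ˢ Icc (-1 / 2 : ℝ) (1 / 2))

theorem S1E_meas (d e : ℝ) : MeasurableSet (S1E d e) :=
  (measurableSet_Icc.prod (measurableSet_Icc.prod measurableSet_Icc)).prod
    (measurableSet_Icc.prod (measurableSet_Icc.prod measurableSet_Icc))

theorem S1E_vol (d e : ℝ) (hd : 0 ≤ d) (he : 0 ≤ e) :
    volume (S1E d e) = ENNReal.ofReal (d * e) := by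
  unfold S1E
  rw [Measure.volume_eq_prod, Measure.prod_prod, Measure.volume_eq_prod, Measure.prod_prod,
    Measure.volume_eq_prod, Measure.prod_prod, Measure.prod_prod, Measure.prod_prod,
    Real.volume_Icc, Real.volume_Icc, Real.volume_Icc, Real.volume_Icc,
    ← ENNReal.ofReal_mul (by norm_num), ← ENNReal.ofReal_mul (by linarith),
    ← ENNReal.ofReal_mul (by norm_num), ← ENNReal.ofReal_mul (by norm_num),
    ← ENNReal.ofReal_mul]
  · congr 1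
    ring
  · have : 0 ≤ d - -d := by linarith
    have : 0 ≤ e - -e := by linarith
    positivity

theorem wE_meas (b P g1 g2 η : ℝ) : Measurable (wE b P g1 g2 η) := by
  unfold wE
  refine Measurable.ite ?_ ?_ measurable_const
  · have h1 : MeasurableSet {X : ℝ × ℝ | |X.1| ≤ 1} := measurableSet_le (by fun_prop) (by fun_prop)
    have h2 : MeasurableSet {X : ℝ × ℝ | |X.2| ≤ 1} := measurableSet_le (by fun_prop) (by fun_prop)
    exact h1.inter h2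
  · have h1 : Continuous w1 := by
      unfold w1
      exact (f1_sma_cont 1 one_pos).sub (f1_sma_cont 2 two_pos)
    have h2 : Measurable (KE b P g1 g2 (η ^ 2)) := by
      unfold KE
      fun_prop
    exact h1.measurable.comp h2

theorem qE_meas (b P g1 g2 η : ℝ) : Measurable (qE b P g1 g2 η) := by
  have h1 : Measurable (Sq 1) := by
    unfold Sq
    have : Measurable Real.smoothTransition := Real.smoothTransition.continuous.measurable
    fun_prop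
  have h2 : Measurable (KE b P g1 g2 (η ^ 2)) := by
    unfold KE
    fun_prop
  exact h1.comp h2

theorem admE (b P g1 g2 η : ℝ) : Adm 9 2 (dif (qE b P g1 g2 η)) (dam (wE b P g1 g2 η)) where
  mφ := by
    unfold dif
    exact ((qE_meas b P g1 g2 η).comp measurable_snd).sub
      ((qE_meas b P g1 g2 η).comp (measurable_snd.sub measurable_fst))
  mw := by
    unfold dam
    exact ((wE_meas b P g1 g2 η).comp measurable_snd).mul
      ((wE_meas b P g1 g2 η).comp (measurable_snd.sub measurable_fst))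
  bw := by
    intro p
    unfold dam
    rw [abs_mul]
    calc |wE b P g1 g2 η p.2| * |wE b P g1 g2 η (p.2 - p.1)| ≤ 3 * 3 :=
          mul_le_mul (wE_le _ _ _ _ _ _) (wE_le _ _ _ _ _ _) (abs_nonneg _) (by norm_num)
      _ = 9 := by norm_num
  sw := by
    intro p hp
    unfold dam at hp
    obtain ⟨h1, h2⟩ := mul_ne_zero_iff.1 hp
    obtain ⟨a1, a2, -⟩ := wE_ne h1
    obtain ⟨b1, b2, -⟩ := wE_ne h2
    obtain ⟨⟨y1, y2⟩, ⟨x1, x2⟩⟩ := p
    simp only [Prod.mk_sub_mk] at a1 a2 b1 b2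
    have k1 : |y1| ≤ 2 := by
      have : y1 = x1 - (x1 - y1) := by ring
      rw [this]
      exact (abs_sub _ _).trans (by linarith)
    have k2 : |y2| ≤ 2 := by
      have : y2 = x2 - (x2 - y2) := by ring
      rw [this]
      exact (abs_sub _ _).trans (by linarith)
    simp only [Prod.norm_def, Real.norm_eq_abs, max_le_iff]
    exact ⟨⟨k1, k2⟩, by linarith, by linarith⟩

theorem absE : ∃ C1 r0 η0 C : ℝ, 0 < C1 ∧ 0 < r0 ∧ r0 ≤ 1 / 4 ∧ 0 < η0 ∧ 0 ≤ C ∧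
    ∀ b P g1 g2 η T : ℝ, Par b g1 g2 → 1 / 8 ≤ P → P ≤ 8 → 0 < η → η ≤ η0 → 1 ≤ T →
    ∀ M : V × V → ℂ, Measurable M → (∀ q, ‖M q‖ ≤ 1) →
    (∀ q, M q ≠ 0 → |q.1.2.1| ≤ r0 ∧ |q.1.2.1 - q.1.1| ≤ r0 ∧ |q.1.2.1 - q.1.2.2| ≤ r0 ∧
      |q.2.2.1| ≤ r0 ∧ |q.2.2.1 - q.2.1| ≤ r0 ∧ |q.2.2.1 - q.2.2.2| ≤ r0 ∧
      (|q.1.1| ≤ 1 / T ^ 2 ∨ C1 * η * |q.1.1| ≤ |lnE g1 g2 (q.1.1, q.2.1)|) ∧
      (|q.1.2.2| ≤ 1 / T ^ 2 ∨ C1 * η * |q.1.2.2| ≤ |lnE g1 g2 (q.1.2.2, q.2.2.2)|)) →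
    ‖FE b P g1 g2 η T M‖ ≤ C * (1 + Real.log T) / (η ^ 2 * T) := by
  obtain ⟨K0, hK0, hK⟩ := Kt_le
  refine ⟨2000, 1 / 4, 1 / 2000, 81 * K0 * 81, by norm_num, by norm_num, le_rfl, by norm_num,
    by positivity, ?_⟩
  intro b P g1 g2 η T hp hP hP8 hη hη0 hT M hM hM1 hS
  have hT0 : 0 < T := by linarith
  have hlog0 : 0 ≤ Real.log T := Real.log_nonneg hT
  have hA := admE b P g1 g2 η
  have hg2 : 1 / 4 ≤ g2 := hp.2.2.2.2.1
  -- pointwise bound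
  have hpt : ∀ q : V × V, ‖M q * ((Wg (dam (wE b P g1 g2 η)) q : ℝ) : ℂ) *
      Kt T (Fg (dif (qE b P g1 g2 η)) q)‖ₑ ≤ ENNReal.ofReal (81 * K0) *
      ((S1E (1 / T ^ 2) (1 / 2)).indicator (fun _ => ENNReal.ofReal T) q +
        ((S1E (1 / 2) (1 / T ^ 2)).indicator (fun _ => ENNReal.ofReal T) q +
          G3E g1 g2 η T q)) := by
    intro q
    by_cases hMq : M q = 0
    · rw [hMq]
      simp
    by_cases hWq : Wg (dam (wE b P g1 g2 η)) q = 0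
    · rw [hWq]
      simp
    obtain ⟨c1, c2, c3, c4, c5, c6, c7, c8⟩ := hS q hMq
    have hnorm : ∀ R : ℝ, 0 ≤ R → ‖Kt T (Fg (dif (qE b P g1 g2 η)) q)‖ ≤ K0 * R →
        ‖M q * ((Wg (dam (wE b P g1 g2 η)) q : ℝ) : ℂ) *
      Kt T (Fg (dif (qE b P g1 g2 η)) q)‖ₑ ≤ ENNReal.ofReal (81 * K0) * ENNReal.ofReal R := by
      intro R hR h
      rw [← ENNReal.ofReal_mul (by positivity), ← ofReal_norm]
      apply ENNReal.ofReal_le_ofReal
      rw [norm_mul, norm_mul, Complex.norm_real, Real.norm_eq_abs]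
      have hW := f1g_Wg_bdd 9 2 _ _ hA q
      calc ‖M q‖ * |Wg (dam (wE b P g1 g2 η)) q| * ‖Kt T (Fg (dif (qE b P g1 g2 η)) q)‖ ≤
          1 * (9 * 9) * (K0 * R) :=
            mul_le_mul (mul_le_mul (hM1 q) hW (abs_nonneg _) zero_le_one) h (norm_nonneg _)
              (by norm_num)
        _ = 81 * K0 * R := by ring
    have hy1 : |q.1.1| ≤ 1 / 2 := by
      have : q.1.1 = q.1.2.1 - (q.1.2.1 - q.1.1) := by ring
      rw [this]
      exact (abs_sub _ _).trans (by linarith)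
    have hy2 : |q.2.1| ≤ 1 / 2 := by
      have : q.2.1 = q.2.2.1 - (q.2.2.1 - q.2.1) := by ring
      rw [this]
      exact (abs_sub _ _).trans (by linarith)
    have hz1 : |q.1.2.2| ≤ 1 / 2 := by
      have : q.1.2.2 = q.1.2.1 - (q.1.2.1 - q.1.2.2) := by ring
      rw [this]
      exact (abs_sub _ _).trans (by linarith)
    have hz2 : |q.2.2.2| ≤ 1 / 2 := by
      have : q.2.2.2 = q.2.2.1 - (q.2.2.1 - q.2.2.2) := by ring
      rw [this]
      exact (abs_sub _ _).trans (by linarith)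
    have mem : ∀ (x r : ℝ), |x| ≤ r → x ∈ Icc (-r) r := fun x r h => abs_le.1 h
    have mem4 : ∀ x : ℝ, |x| ≤ 1 / 4 → x ∈ Icc (-1 / 4 : ℝ) (1 / 4) := fun x h => by
      have := abs_le.1 h
      exact ⟨by linarith [this.1], this.2⟩
    have mem2 : ∀ x : ℝ, |x| ≤ 1 / 2 → x ∈ Icc (-1 / 2 : ℝ) (1 / 2) := fun x h => by
      have := abs_le.1 h
      exact ⟨by linarith [this.1], this.2⟩
    have hKT : ‖Kt T (Fg (dif (qE b P g1 g2 η)) q)‖ ≤ K0 * T := by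
      refine (hK T _ hT0).trans ?_
      apply div_le_self (by positivity)
      apply one_le_pow₀
      have : 0 ≤ T * |Fg (dif (qE b P g1 g2 η)) q| := by positivity
      linarith
    by_cases d1 : |q.1.1| ≤ 1 / T ^ 2
    · refine (hnorm T hT0.le hKT).trans (mul_le_mul_right (le_trans ?_ le_self_add) _)
      rw [indicator_of_mem]
      exact ⟨⟨mem _ _ d1, mem4 _ c1, mem _ _ hz1⟩, mem2 _ hy2, mem4 _ c4, mem2 _ hz2⟩
    by_cases d2 : |q.1.2.2| ≤ 1 / T ^ 2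
    · refine (hnorm T hT0.le hKT).trans (mul_le_mul_right (le_trans ?_ (le_trans le_self_add
        le_add_self)) _)
      rw [indicator_of_mem]
      exact ⟨⟨mem _ _ hy1, mem4 _ c1, mem _ _ d2⟩, mem2 _ hy2, mem4 _ c4, mem2 _ hz2⟩
    have e7 := c7.resolve_left d1
    have e8 := c8.resolve_left d2
    have low := absE_low hp hP8 hη hη0 q c1 c2 c3 c4 c5 c6 hWq e7 e8
    have hln : ∀ s t : ℝ, |s| ≤ 1 / 2 → |t| ≤ 1 / 2 → |lnE g1 g2 (s, t)| ≤ 3 := by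
      intro s t hs ht
      unfold lnE
      obtain ⟨p1, p2, p3, p4, p5, p6⟩ := hp
      refine (abs_add_le _ _).trans ?_
      rw [abs_mul, abs_mul]
      have i1 : |g1| ≤ 4 := by
        rw [abs_le]
        constructor <;> linarith
      have i2 : |g2| ≤ 2 := by
        rw [abs_le]
        constructor <;> linarith
      have j1 := mul_le_mul i1 hs (abs_nonneg _) (by norm_num)
      have j2 := mul_le_mul i2 ht (abs_nonneg _) (by norm_num)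
      linarith
    refine (hnorm (T / (1 + T * (|lnE g1 g2 (q.1.1, q.2.1)| *
      |lnE g1 g2 (q.1.2.2, q.2.2.2)| / 1000)) ^ 3) (by positivity) ?_).trans
      (mul_le_mul_right (le_trans ?_ (le_trans le_add_self le_add_self)) _)
    · refine (hK T _ hT0).trans ?_
      rw [mul_div_assoc]
      apply mul_le_mul_of_nonneg_left _ hK0
      apply div_le_div_of_nonneg_left hT0.le (by positivity)
      apply pow_le_pow_left₀ (by positivity)
      have := mul_le_mul_of_nonneg_left low hT0.le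
      linarith
    · unfold G3E f4E
      rw [indicator_of_mem (mem4 _ c1), indicator_of_mem (mem4 _ c4), one_mul, one_mul, if_pos]
      exact ⟨⟨e7, e8⟩, hln _ _ hy1 hy2, hln _ _ hz1 hz2⟩
  -- integration
  have m1 : Measurable ((S1E (1 / T ^ 2) (1 / 2)).indicator (fun _ => ENNReal.ofReal T)) :=
    Measurable.indicator measurable_const (S1E_meas _ _)
  have m2 : Measurable ((S1E (1 / 2) (1 / T ^ 2)).indicator (fun _ => ENNReal.ofReal T)) :=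
    Measurable.indicator measurable_const (S1E_meas _ _)
  have hI : ‖FE b P g1 g2 η T M‖ₑ ≤ ENNReal.ofReal (81 * K0 * 81 * (1 + Real.log T) /
      (η ^ 2 * T)) := by
    unfold FE FFg
    refine (enorm_integral_le_lintegral_enorm _).trans ((lintegral_mono hpt).trans ?_)
    rw [lintegral_const_mul' _ _ ENNReal.ofReal_ne_top, lintegral_add_left m1,
      lintegral_add_left m2, lintegral_indicator (S1E_meas _ _),
      lintegral_indicator (S1E_meas _ _), setLIntegral_const, setLIntegral_const,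
      S1E_vol _ _ (by positivity) (by norm_num), S1E_vol _ _ (by norm_num) (by positivity),
      ← ENNReal.ofReal_mul hT0.le, ← ENNReal.ofReal_mul hT0.le]
    refine (mul_le_mul_right (add_le_add le_rfl (add_le_add le_rfl
      (G3E_int g1 g2 η T hg2 hη hT))) _).trans ?_
    rw [← ENNReal.ofReal_add (by positivity) (by positivity),
      ← ENNReal.ofReal_add (by positivity) (by positivity), ← ENNReal.ofReal_mul (by positivity)]
    apply ENNReal.ofReal_le_ofReal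
    have e1 : T * (1 / T ^ 2 * (1 / 2)) + (T * (1 / 2 * (1 / T ^ 2)) +
        80 * (1 + Real.log T) / (η ^ 2 * T)) = 1 / T + 80 * (1 + Real.log T) / (η ^ 2 * T) := by
      field_simp
      ring
    rw [e1]
    have hη2 : η ^ 2 ≤ 1 := by nlinarith
    have e2 : 1 / T ≤ (1 + Real.log T) / (η ^ 2 * T) := by
      rw [div_le_div_iff₀ hT0 (by positivity)]
      have : η ^ 2 * T ≤ T := by nlinarith
      nlinarith
    calc 81 * K0 * (1 / T + 80 * (1 + Real.log T) / (η ^ 2 * T)) ≤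
        81 * K0 * ((1 + Real.log T) / (η ^ 2 * T) + 80 * (1 + Real.log T) / (η ^ 2 * T)) := by
          apply mul_le_mul_of_nonneg_left _ (by positivity)
          linarith
      _ = _ := by ring
  rw [← ofReal_norm] at hI
  exact (ENNReal.ofReal_le_ofReal_iff (by positivity)).1 hI

end Pool.Agent.SDT.N1Q

end -- N1Q.AbE
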