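import Pool.Agent.SDT.B04
import Pool.Agent.SDT.B36

set_option autoImplicit false

namespace Pool.Agent.SDT.MP_6cbfb8_an
end Pool.Agent.SDT.MP_6cbfb8_an
namespace Pool.Agent.SDT.MST
end Pool.Agent.SDT.MST
namespace Pool.Agent.SDT.N1
end Pool.Agent.SDT.N1
namespace Pool.Agent.SDT.N1F
end Pool.Agent.SDT.N1F
namespace Pool.Agent.SDT.N1G
end Pool.Agent.SDT.N1G
namespace Pool.Agent.SDT.N1M
end Pool.Agent.SDT.N1M

section -- N1Q.Bd1

/-!
N1Q, block Q1, part 1: Cauchy–Schwarz for the forms, two different cells.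
-/

namespace Pool.Agent.SDT.N1Q

open MeasureTheory Set Metric Pool.Agent.SDT.MP_6cbfb8_an Pool.Agent.SDT.MST Pool.Agent.SDT.N1
open Pool.Agent.SDT.N1G
open scoped ENNReal Real ContDiff

theorem FFg_smul (φ w : YX → ℝ) (T : ℝ) (c : ℂ) (M : V × V → ℂ) :
    FFg φ w T (fun q => c * M q) = c * FFg φ w T M := by
  unfold FFg
  rw [← integral_const_mul]
  refine integral_congr_ae (ae_of_all _ fun q => ?_)
  simp only
  ring

theorem Hyg_smul (φ w : YX → ℝ) (c : ℂ) (M : YX → ℂ) (y : ℝ × ℝ) (t : ℝ) :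
    Hyg φ w (fun p => c * M p) y t = c * Hyg φ w M y t := by
  unfold Hyg
  rw [← integral_const_mul]
  refine integral_congr_ae (ae_of_all _ fun q => ?_)
  simp only
  ring

theorem Thg_smul (φ w : YX → ℝ) (T : ℝ) (c : ℂ) (M : YX → ℂ) :
    Thg φ w T (fun p => c * M p) = ‖c‖ₑ ^ 2 * Thg φ w T M := by
  unfold Thg
  have h : ‖c‖ₑ ^ 2 ≠ ⊤ := ENNReal.pow_ne_top enorm_ne_top
  rw [← lintegral_const_mul' _ _ h]
  refine lintegral_congr fun y => ?_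
  rw [← lintegral_const_mul' _ _ h]
  refine lintegral_congr fun t => ?_
  rw [Hyg_smul, enorm_mul, mul_pow]
  ring

/-- The fourth roots of unity. -/
noncomputable def om4 : Fin 4 → ℂ := ![1, Complex.I, -1, -Complex.I]

theorem om4_norm (k : Fin 4) : ‖om4 k‖ = 1 := by
  fin_cases k <;> simp [om4]

theorem om4_polar (a b c d : ℂ) :
    ∑ k : Fin 4, om4 k * ((a + om4 k * b) / 2 * ((c + (starRingEnd ℂ) (om4 k) * d) / 2)) =
      a * d := by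
  simp only [Fin.sum_univ_four, om4, Matrix.cons_val_zero, Matrix.cons_val_one, Matrix.cons_val,
    map_one, map_neg, Complex.conj_I]
  ring_nf
  simp only [Complex.I_sq]
  ring

/-- Cauchy–Schwarz for the form: `A (y, x) conj B (y, x - z)`. -/
theorem FFg_cs (B R : ℝ) (φ w : YX → ℝ) (h : Adm B R φ w) (T : ℝ) (hT : 0 < T)
    (M N : YX → ℂ) (hM : Measurable M) (hN : Measurable N) (hM1 : ∀ p, ‖M p‖ ≤ 1)
    (hN1 : ∀ p, ‖N p‖ ≤ 1) :
    ‖FFg φ w T (fun q => M (px q) * (starRingEnd ℂ) (N (pz q)))‖ₑ ≤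
      2 * (Thg φ w T M + Thg φ w T N) := by
  set K : Fin 4 → YX → ℂ := fun k p => (M p + om4 k * N p) / 2 with hK
  have hKm : ∀ k, Measurable (K k) := fun k => (hM.add (hN.const_mul _)).div_const 2
  have hK1 : ∀ k p, ‖K k p‖ ≤ 1 := by
    intro k p
    simp only [hK]
    rw [norm_div, Complex.norm_ofNat]
    have h1 : ‖M p + om4 k * N p‖ ≤ 2 := by
      calc ‖M p + om4 k * N p‖ ≤ ‖M p‖ + ‖om4 k * N p‖ := norm_add_le _ _
        _ = ‖M p‖ + ‖N p‖ := by rw [norm_mul, om4_norm, one_mul]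
        _ ≤ 2 := by linarith [hM1 p, hN1 p]
    linarith
  have e1 : (fun q : V × V => M (px q) * (starRingEnd ℂ) (N (pz q))) =
      fun q => ∑ k : Fin 4, om4 k * sqM (K k) q := by
    funext q
    have h1 := om4_polar (M (px q)) (N (px q)) ((starRingEnd ℂ) (M (pz q)))
      ((starRingEnd ℂ) (N (pz q)))
    rw [← h1]
    refine Finset.sum_congr rfl fun k _ => ?_
    simp only [sqM, hK, map_div₀, map_add, map_mul, Complex.conj_ofNat]
    rfl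
  have hsm : ∀ k, Measurable (sqM (K k)) := by
    intro k
    have a1 : Measurable fun q : V × V => K k (px q) := (hKm k).comp f1g_px_meas
    have a2 : Measurable fun q : V × V => K k (pz q) := (hKm k).comp f1g_pz_meas
    exact a1.mul (Complex.continuous_conj.measurable.comp a2)
  have hsb : ∀ k q, ‖om4 k * sqM (K k) q‖ ≤ 1 := by
    intro k q
    rw [norm_mul, om4_norm, one_mul]
    simp only [sqM, norm_mul, RCLike.norm_conj]
    exact mul_le_one₀ (hK1 k _) (norm_nonneg _) (hK1 k _)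
  rw [e1, FFg_sum B R φ w h T hT Finset.univ (fun k q => om4 k * sqM (K k) q)
    (fun k => (hsm k).const_mul _) 1 hsb]
  refine (enorm_sum_le _ _).trans ?_
  have h2 : ∀ k : Fin 4, ‖FFg φ w T fun q => om4 k * sqM (K k) q‖ₑ ≤
      (1 / 2 : ℝ≥0∞) * (Thg φ w T M + Thg φ w T N) := by
    intro k
    have e2 : ‖om4 k‖ₑ = 1 := by
      rw [← ofReal_norm, om4_norm, ENNReal.ofReal_one]
    rw [FFg_smul, enorm_mul, e2, one_mul, ← Thg_eq B R φ w h T hT (K k) (hKm k) (hK1 k)]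
    have h3 := Thg_sum B R φ w h T hT 2 (fun i : Fin 2 => (if i = 0 then fun p => (1 / 2 : ℂ) * M p
      else fun p => (om4 k / 2) * N p)) (fun i => by
        split_ifs
        · exact hM.const_mul _
        · exact hN.const_mul _) 1 (fun i p => by
        split_ifs
        · rw [norm_mul]
          have : ‖(1 / 2 : ℂ)‖ = 1 / 2 := by norm_num
          rw [this]
          linarith [hM1 p]
        · rw [norm_mul, norm_div, om4_norm, Complex.norm_ofNat]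
          linarith [hN1 p])
    simp only [Fin.sum_univ_two, Fin.isValue, ↓reduceIte, one_ne_zero] at h3
    rw [Thg_smul, Thg_smul] at h3
    have e3 : (fun p : YX => (1 / 2 : ℂ) * M p + om4 k / 2 * N p) = K k := by
      funext p
      simp only [hK]
      ring
    rw [e3] at h3
    have e4 : ‖(1 / 2 : ℂ)‖ₑ ^ 2 = 1 / 4 := by
      have : ‖(1 / 2 : ℂ)‖ = 1 / 2 := by norm_num
      rw [← ofReal_norm, this, ← ENNReal.ofReal_pow (by norm_num)]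
      rw [show ((1 / 2 : ℝ) ^ 2) = 1 / 4 by norm_num, ENNReal.ofReal_div_of_pos (by norm_num)]
      simp
    have e5 : ‖om4 k / 2‖ₑ ^ 2 = 1 / 4 := by
      have : ‖om4 k / 2‖ = 1 / 2 := by rw [norm_div, om4_norm, Complex.norm_ofNat]
      rw [← ofReal_norm, this, ← ENNReal.ofReal_pow (by norm_num)]
      rw [show ((1 / 2 : ℝ) ^ 2) = 1 / 4 by norm_num, ENNReal.ofReal_div_of_pos (by norm_num)]
      simp
    rw [e4, e5, ← mul_add] at h3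
    refine h3.trans (le_of_eq ?_)
    rw [← mul_assoc]
    congr 1
    have : ((2 : ℕ) : ℝ≥0∞) * (1 / 4) = 1 / 2 := by
      rw [← ENNReal.toReal_eq_toReal_iff' (by
        exact ENNReal.mul_ne_top (by simp) (by simp)) (by simp)]
      rw [ENNReal.toReal_mul, ENNReal.toReal_div, ENNReal.toReal_div]
      simp
      norm_num
    exact this
  refine (Finset.sum_le_sum fun k _ => h2 k).trans (le_of_eq ?_)
  rw [Finset.sum_const, Finset.card_univ, Fintype.card_fin, nsmul_eq_mul, ← mul_assoc]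
  congr 1
  rw [← ENNReal.toReal_eq_toReal_iff' (ENNReal.mul_ne_top (by simp) (by simp)) (by simp)]
  rw [ENNReal.toReal_mul, ENNReal.toReal_div]
  simp
  norm_num

/-- The correlation of two functions. -/
noncomputable def cor (f g : ℝ × ℝ → ℂ) (p : YX) : ℂ := f p.2 * (starRingEnd ℂ) (g (p.2 - p.1))

theorem cor_meas {f g : ℝ × ℝ → ℂ} (hf : Measurable f) (hg : Measurable g) :
    Measurable (cor f g) :=
  (hf.comp measurable_snd).mul
    (Complex.continuous_conj.measurable.comp (hg.comp (by fun_prop)))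

theorem cor_le {f g : ℝ × ℝ → ℂ} (h1 : ∀ x, ‖f x‖ ≤ 1) (h2 : ∀ x, ‖g x‖ ≤ 1) (p : YX) :
    ‖cor f g p‖ ≤ 1 := by
  unfold cor
  rw [norm_mul, RCLike.norm_conj]
  exact mul_le_one₀ (h1 _) (norm_nonneg _) (h2 _)

theorem cor_swp (f g : ℝ × ℝ → ℂ) (u : V × V) : sqM (cor f g) (swp u) =
    cor f f (px u) * (starRingEnd ℂ) (cor g g (pz u)) := by
  obtain ⟨⟨y1, a, z1⟩, ⟨y2, b, z2⟩⟩ := u
  simp only [sqM, swp, px, pz, cor, map_mul, Complex.conj_conj, Prod.mk_sub_mk]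
  have e3 : a - y1 - z1 = a - z1 - y1 := by ring
  have e4 : b - y2 - z2 = b - z2 - y2 := by ring
  rw [e3, e4]
  ring

theorem two_cor (B R : ℝ) (q w : ℝ × ℝ → ℝ) (hq : Measurable q) (hw : Measurable w)
    (hB : ∀ x, |w x| ≤ B) (hR : ∀ x, w x ≠ 0 → ‖x‖ ≤ R) (T : ℝ) (hT : 0 < T)
    (f g : ℝ × ℝ → ℂ) (hf : Measurable f) (hg : Measurable g) (hf1 : ∀ x, ‖f x‖ ≤ 1)
    (hg1 : ∀ x, ‖g x‖ ≤ 1) :
    Thg (dif q) (dam w) T (cor f g) ≤
      2 * (Thg (dif q) (dam w) T (cor f f) + Thg (dif q) (dam w) T (cor g g)) := by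
  have hA := f3g_adm B R q w hq hw hB hR
  have h1 := Thg_eq _ _ _ _ hA T hT _ (cor_meas hf hg) (cor_le hf1 hg1)
  have h2 : FFg (dif q) (dam w) T (sqM (cor f g)) = FFg (dif q) (dam w) T
      (fun u => cor f f (px u) * (starRingEnd ℂ) (cor g g (pz u))) := by
    rw [← FFg_swp q w T (sqM (cor f g))]
    congr 1
    funext u
    exact cor_swp f g u
  rw [h1, h2]
  exact FFg_cs _ _ _ _ hA T hT _ _ (cor_meas hf hf) (cor_meas hg hg) (cor_le hf1 hf1)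
    (cor_le hg1 hg1)

/-- Two different cells. -/
theorem two_cells (B R : ℝ) (q w : ℝ × ℝ → ℝ) (hq : Measurable q) (hw : Measurable w)
    (hB : ∀ x, |w x| ≤ B) (hR : ∀ x, w x ≠ 0 → ‖x‖ ≤ R) (T : ℝ) (hT : 0 < T)
    (f g : ℝ × ℝ → ℂ) (hf : Measurable f) (hg : Measurable g) (hf1 : ∀ x, ‖f x‖ ≤ 1)
    (hg1 : ∀ x, ‖g x‖ ≤ 1) :
    Thg (dif q) (dam w) T (fun p => f p.2 * (starRingEnd ℂ) (g (p.2 - p.1))) ≤
      2 * (Thg (dif q) (dam w) T (fun p => f p.2 * (starRingEnd ℂ) (f (p.2 - p.1))) +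
        Thg (dif q) (dam w) T (fun p => g p.2 * (starRingEnd ℂ) (g (p.2 - p.1)))) :=
  two_cor B R q w hq hw hB hR T hT f g hf hg hf1 hg1

end Pool.Agent.SDT.N1Q

end -- N1Q.Bd1

section -- N1Q.Bd3

/-!
N1Q, block Q1, part 3: from the set with the band conditions to cells.
-/

namespace Pool.Agent.SDT.N1Q

open MeasureTheory Set Metric Pool.Agent.SDT.MP_6cbfb8_an Pool.Agent.SDT.MST Pool.Agent.SDT.N1
open Pool.Agent.SDT.N1G
open scoped ENNReal Real ContDiff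

/-- Restriction to a cell. -/
noncomputable def fce (h : ℝ) (f : ℝ × ℝ → ℂ) (J : ℤ × ℤ) (x : ℝ × ℝ) : ℂ :=
  if cel h x = J then f x else 0

theorem cel_meas (h : ℝ) : Measurable (cel h) := by
  unfold cel
  exact (Int.measurable_floor.comp (measurable_fst.div_const h)).prodMk
    (Int.measurable_floor.comp (measurable_snd.div_const h))

theorem fce_meas (h : ℝ) {f : ℝ × ℝ → ℂ} (hf : Measurable f) (J : ℤ × ℤ) :
    Measurable (fce h f J) :=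
  Measurable.ite (cel_meas h (measurableSet_singleton J)) hf measurable_const

theorem fce_le (h : ℝ) {f : ℝ × ℝ → ℂ} (hf : ∀ x, ‖f x‖ ≤ 1) (J : ℤ × ℤ) (x : ℝ × ℝ) :
    ‖fce h f J x‖ ≤ 1 := by
  unfold fce
  split_ifs
  · exact hf x
  · simp

/-- The cells which meet `S` are finite in number. -/
theorem cells_fin {C1 h : ℝ} {S : Set (ℝ × ℝ)} (hh : 0 < h) (hB : Band C1 h S) :
    {J : ℤ × ℤ | ∃ x ∈ S, cel h x = J}.Finite := by
  rcases S.eq_empty_or_nonempty with h0 | ⟨x0, hx0⟩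
  · rw [h0]
    simp
  obtain ⟨K, hK⟩ : ∃ K : ℝ, K = C1 * (2 * C1 + h) + |x0.2| := ⟨_, rfl⟩
  have hC : 0 ≤ C1 := (abs_nonneg _).trans (hB.H0 x0 hx0)
  refine ((Set.finite_Icc (⌊-C1 / h⌋) (⌊C1 / h⌋)).prod
    (Set.finite_Icc (⌊-K / h⌋) (⌊K / h⌋))).subset ?_
  rintro J ⟨x, hx, rfl⟩
  have h1 := hB.H0 x hx
  have h2 : |x.2| ≤ K := by
    have a1 := hB.H1 x hx x0 hx0
    have a2 : |x.1 - x0.1| ≤ 2 * C1 := (abs_sub _ _).trans (by linarith [hB.H0 x0 hx0])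
    have a3 : C1 * (|x.1 - x0.1| + h) ≤ C1 * (2 * C1 + h) :=
      mul_le_mul_of_nonneg_left (by linarith) hC
    have a4 : |x.2| ≤ |x.2 - x0.2| + |x0.2| := by
      have := abs_add_le (x.2 - x0.2) x0.2
      simpa using this
    rw [hK]
    linarith
  rw [abs_le] at h1 h2
  refine ⟨⟨Int.floor_mono ?_, Int.floor_mono ?_⟩, Int.floor_mono ?_, Int.floor_mono ?_⟩
  · exact div_le_div_of_nonneg_right h1.1 hh.le
  · exact div_le_div_of_nonneg_right h1.2 hh.le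
  · exact div_le_div_of_nonneg_right h2.1 hh.le
  · exact div_le_div_of_nonneg_right h2.2 hh.le

/-- Sum of positive forms from a pointwise bound. -/
theorem Thg_of_pt {B R : ℝ} {φ w : YX → ℝ} (hA : Adm B R φ w) (T : ℝ) {ι : Type*}
    (s : Finset ι) (c : ι → ℝ≥0∞) (M : YX → ℂ) (N : ι → YX → ℂ) (hN : ∀ i, Measurable (N i))
    (hpt : ∀ y t, ‖Hyg φ w M y t‖ₑ ^ 2 ≤ ∑ i ∈ s, c i * ‖Hyg φ w (N i) y t‖ₑ ^ 2) :
    Thg φ w T M ≤ ∑ i ∈ s, c i * Thg φ w T (N i) := by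
  have hm2 : ∀ i, Measurable fun z : (ℝ × ℝ) × ℝ =>
      ENNReal.ofReal (chi (z.2 / T)) * ‖Hyg φ w (N i) z.1 z.2‖ₑ ^ 2 := by
    intro p
    have e1 := f3_Hyg_meas hA (hN p)
    have e2 : Measurable fun z : (ℝ × ℝ) × ℝ => ENNReal.ofReal (chi (z.2 / T)) :=
      ENNReal.measurable_ofReal.comp (f2_chi_meas.comp (by fun_prop))
    exact e2.mul (e1.enorm.pow_const 2)
  obtain ⟨Φ, hΦ⟩ : ∃ Φ : ι → (ℝ × ℝ) × ℝ → ℝ≥0∞, Φ = fun i z =>
      ENNReal.ofReal (chi (z.2 / T)) * ‖Hyg φ w (N i) z.1 z.2‖ₑ ^ 2 := ⟨_, rfl⟩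
  have hΦm : ∀ i, Measurable (Φ i) := by
    intro i
    rw [hΦ]
    exact hm2 i
  have h1 : Thg φ w T M ≤ ∫⁻ y : ℝ × ℝ, ∫⁻ t : ℝ, ∑ i ∈ s, c i * Φ i (y, t) := by
    unfold Thg
    refine lintegral_mono fun y => lintegral_mono fun t => ?_
    refine (mul_le_mul_right (hpt y t) _).trans (le_of_eq ?_)
    rw [Finset.mul_sum, hΦ]
    refine Finset.sum_congr rfl fun p _ => ?_
    ring
  have h2 : ∀ i, Thg φ w T (N i) = ∫⁻ y : ℝ × ℝ, ∫⁻ t : ℝ, Φ i (y, t) := by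
    intro i
    rw [hΦ]
    rfl
  refine h1.trans (le_of_eq ?_)
  have e1 : ∀ y : ℝ × ℝ, ∫⁻ t : ℝ, ∑ i ∈ s, c i * Φ i (y, t) =
      ∑ i ∈ s, c i * ∫⁻ t : ℝ, Φ i (y, t) := by
    intro y
    have m1 : ∀ i, Measurable fun t : ℝ => Φ i (y, t) := fun i =>
      (hΦm i).comp (by fun_prop)
    rw [lintegral_finsetSum _ fun p _ => (m1 p).const_mul _]
    exact Finset.sum_congr rfl fun p _ => lintegral_const_mul _ (m1 p)
  simp only [e1]
  have m2 : ∀ i, Measurable fun y : ℝ × ℝ => ∫⁻ t : ℝ, Φ i (y, t) := fun i =>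
    (hΦm i).lintegral_prod_right'
  rw [lintegral_finsetSum _ fun p _ => (m2 p).const_mul _]
  refine Finset.sum_congr rfl fun p _ => ?_
  rw [lintegral_const_mul _ (m2 p), h2]

/-- Decomposition of the inner integral. -/
theorem Hyg_cells {B R : ℝ} {q w : ℝ × ℝ → ℝ} (hA : Adm B R (dif q) (dam w)) (h : ℝ)
    (S : Set (ℝ × ℝ)) (f : ℝ × ℝ → ℂ) (hf : Measurable f) (hf1 : ∀ x, ‖f x‖ ≤ 1)
    (hS : ∀ x, f x ≠ 0 → w x ≠ 0 → x ∈ S) (y : ℝ × ℝ) (t : ℝ)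
    (P : Finset ((ℤ × ℤ) × (ℤ × ℤ)))
    (hP : ∀ x, x ∈ S → x - y ∈ S → (cel h x, cel h (x - y)) ∈ P) :
    Hyg (dif q) (dam w) (cor f f) y t =
      ∑ p ∈ P, Hyg (dif q) (dam w) (cor (fce h f p.1) (fce h f p.2)) y t := by
  simp only [f2g_Hyg_eq]
  rw [← integral_finsetSum _ fun p _ => f2g_gk_int hA
    (cor_meas (fce_meas h hf p.1) (fce_meas h hf p.2))
    (cor_le (fce_le h hf1 p.1) (fce_le h hf1 p.2)) y t]
  refine integral_congr_ae (ae_of_all _ fun x => ?_)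
  simp only [gkg, cor, dam]
  by_cases h0 : f x = 0 ∨ f (x - y) = 0 ∨ w x = 0 ∨ w (x - y) = 0
  · have e1 : ∀ p : (ℤ × ℤ) × (ℤ × ℤ), fce h f p.1 x * (starRingEnd ℂ) (fce h f p.2 (x - y)) *
        ((w x * w (x - y) : ℝ) : ℂ) = 0 := by
      intro p
      rcases h0 with h0 | h0 | h0 | h0
      · simp [fce, h0]
      · simp [fce, h0]
      · simp [h0]
      · simp [h0]
    have e2 : f x * (starRingEnd ℂ) (f (x - y)) * ((w x * w (x - y) : ℝ) : ℂ) = 0 := by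
      rcases h0 with h0 | h0 | h0 | h0
      · simp [h0]
      · simp [h0]
      · simp [h0]
      · simp [h0]
    rw [e2, zero_mul]
    symm
    refine Finset.sum_eq_zero fun p _ => ?_
    rw [e1, zero_mul]
  · simp only [not_or] at h0
    obtain ⟨h1, h2, h3, h4⟩ := h0
    have hx := hS x h1 h3
    have hy := hS _ h2 h4
    symm
    rw [Finset.sum_eq_single_of_mem _ (hP x hx hy) ?_]
    · simp [fce]
    · intro p _ hp
      have : fce h f p.1 x * (starRingEnd ℂ) (fce h f p.2 (x - y)) = 0 := by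
        by_cases g1 : cel h x = p.1
        · have g2 : ¬ cel h (x - y) = p.2 := fun g2 => hp (Prod.ext g1.symm g2.symm)
          simp [fce, g2]
        · simp [fce, g1]
      rw [this, zero_mul, zero_mul]

theorem enorm_sum_sq {ι : Type*} (s : Finset ι) (z : ι → ℂ) :
    ‖∑ i ∈ s, z i‖ₑ ^ 2 ≤ ∑ i ∈ s, (s.card : ℝ≥0∞) * ‖z i‖ₑ ^ 2 := by
  have h3 : ‖∑ i ∈ s, z i‖ ≤ ∑ i ∈ s, ‖z i‖ := norm_sum_le _ _
  have h4 := sq_sum_le_card_mul_sum_sq (s := s) (f := fun i => ‖z i‖)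
  have h5 : ‖∑ i ∈ s, z i‖ ^ 2 ≤ ∑ i ∈ s, (s.card : ℝ) * ‖z i‖ ^ 2 := by
    rw [← Finset.mul_sum]
    exact (pow_le_pow_left₀ (norm_nonneg _) h3 2).trans h4
  have h6 := ENNReal.ofReal_le_ofReal h5
  rw [ENNReal.ofReal_pow (norm_nonneg _), ofReal_norm,
    ENNReal.ofReal_sum_of_nonneg fun i _ => by positivity] at h6
  refine h6.trans (le_of_eq ?_)
  refine Finset.sum_congr rfl fun i _ => ?_
  rw [ENNReal.ofReal_mul (Nat.cast_nonneg _), ENNReal.ofReal_natCast,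
    ENNReal.ofReal_pow (norm_nonneg _), ofReal_norm]

theorem band_abs (C1 : ℝ) (hC : 1 ≤ C1) : ∃ K : ℝ, 0 ≤ K ∧
    ∀ (B R : ℝ) (q w : ℝ × ℝ → ℝ), Measurable q → Measurable w →
    (∀ x, |w x| ≤ B) → (∀ x, w x ≠ 0 → ‖x‖ ≤ R) → ∀ T : ℝ, 0 < T →
    ∀ (h : ℝ) (S : Set (ℝ × ℝ)), 0 < h → h ≤ 1 → Band C1 h S →
    ∀ f : ℝ × ℝ → ℂ, Measurable f → (∀ x, ‖f x‖ ≤ 1) → (∀ x, f x ≠ 0 → w x ≠ 0 → x ∈ S) →
    ∀ Q : ℝ≥0∞, (∀ J, Thg (dif q) (dam w) T (cor (fce h f J) (fce h f J)) ≤ Q) →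
    Thg (dif q) (dam w) T (cor f f) ≤
      ENNReal.ofReal (K * ((1 + Real.log (1 / h)) / h ^ 2)) * Q := by
  classical
  obtain ⟨m, hm⟩ := exists_nat_ge (2 * C1 + 1)
  obtain ⟨K1, hK1⟩ : ∃ K1 : ℝ, K1 = (2 * m + 1) ^ 3 * (14 * C1 + 6) := ⟨_, rfl⟩
  obtain ⟨K2, hK2⟩ : ∃ K2 : ℝ, K2 = (2 * m + 1) ^ 2 * (2 * (2 * C1 + 4) *
    (1 + Real.log (2 * C1 + 4))) := ⟨_, rfl⟩
  have hl1 : 0 ≤ Real.log (2 * C1 + 4) := Real.log_nonneg (by linarith)
  have hK10 : 0 ≤ K1 := by rw [hK1]; positivity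
  have hK20 : 0 ≤ K2 := by rw [hK2]; positivity
  refine ⟨4 * K1 * K2, by positivity, ?_⟩
  intro B R q w hq hw hB hR T hT h S hh hh1 hS f hf hf1 hfS Q hQ
  have hA := f3g_adm B R q w hq hw hB hR
  have hfin := cells_fin hh hS
  obtain ⟨A, hAdef⟩ : ∃ A : Finset (ℤ × ℤ), A = hfin.toFinset := ⟨_, rfl⟩
  have hAm : ∀ J, J ∈ A ↔ ∃ x ∈ S, cel h x = J := by
    intro J
    rw [hAdef, Set.Finite.mem_toFinset]
    rfl
  -- pointwise bound
  have hcoef : ∀ p : (ℤ × ℤ) × (ℤ × ℤ), 0 < h * (1 + |((p.1.1 - p.2.1 : ℤ) : ℝ)|) :=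
    fun p => by positivity
  have hpt : ∀ y t, ‖Hyg (dif q) (dam w) (cor f f) y t‖ₑ ^ 2 ≤
      ∑ p ∈ A ×ˢ A, ENNReal.ofReal (K1 / (h * (1 + |((p.1.1 - p.2.1 : ℤ) : ℝ)|))) *
        ‖Hyg (dif q) (dam w) (cor (fce h f p.1) (fce h f p.2)) y t‖ₑ ^ 2 := by
    intro y t
    obtain ⟨P, hPd⟩ : ∃ P : Finset ((ℤ × ℤ) × (ℤ × ℤ)),
      P = (A ×ˢ A).filter (Occ h S y) := ⟨_, rfl⟩
    have hP1 : ∀ p ∈ P, Occ h S y p := by
      intro p hp
      rw [hPd, Finset.mem_filter] at hp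
      exact hp.2
    have hP2 : P ⊆ A ×ˢ A := by
      rw [hPd]
      exact Finset.filter_subset _ _
    have hP3 : ∀ x, x ∈ S → x - y ∈ S → (cel h x, cel h (x - y)) ∈ P := by
      intro x h1 h2
      rw [hPd, Finset.mem_filter, Finset.mem_product]
      exact ⟨⟨(hAm _).2 ⟨x, h1, rfl⟩, (hAm _).2 ⟨x - y, h2, rfl⟩⟩, x, h1, h2, rfl, rfl⟩
    rw [Hyg_cells hA h S f hf hf1 hfS y t P hP3]
    refine (enorm_sum_sq P _).trans ?_
    obtain ⟨a, ha⟩ : ∃ a : (ℤ × ℤ) × (ℤ × ℤ) → ℝ≥0∞, a = fun p =>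
      ‖Hyg (dif q) (dam w) (cor (fce h f p.1) (fce h f p.2)) y t‖ₑ ^ 2 := ⟨_, rfl⟩
    obtain ⟨c, hc⟩ : ∃ c : (ℤ × ℤ) × (ℤ × ℤ) → ℝ≥0∞, c = fun p =>
      ENNReal.ofReal (K1 / (h * (1 + |((p.1.1 - p.2.1 : ℤ) : ℝ)|))) := ⟨_, rfl⟩
    have hs1 : ∑ p ∈ P, (P.card : ℝ≥0∞) * a p ≤ ∑ p ∈ P, c p * a p := by
      refine Finset.sum_le_sum fun p hp => mul_le_mul_left ?_ _
      rw [hc, ← ENNReal.ofReal_natCast]
      refine ENNReal.ofReal_le_ofReal ?_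
      rw [le_div_iff₀ (hcoef p), hK1]
      exact count_P hC hh hh1 hS y P hP1 m hm p hp
    have hs2 : ∑ p ∈ P, c p * a p ≤ ∑ p ∈ A ×ˢ A, c p * a p :=
      Finset.sum_le_sum_of_subset hP2
    have hs3 := hs1.trans hs2
    rw [ha, hc] at hs3
    exact hs3
  have hfirst := Thg_of_pt hA T (A ×ˢ A)
    (fun p => ENNReal.ofReal (K1 / (h * (1 + |((p.1.1 - p.2.1 : ℤ) : ℝ)|)))) (cor f f)
    (fun p => cor (fce h f p.1) (fce h f p.2))
    (fun p => cor_meas (fce_meas h hf p.1) (fce_meas h hf p.2)) hpt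
  refine hfirst.trans ?_
  calc ∑ p ∈ A ×ˢ A, ENNReal.ofReal (K1 / (h * (1 + |((p.1.1 - p.2.1 : ℤ) : ℝ)|))) *
        Thg (dif q) (dam w) T (cor (fce h f p.1) (fce h f p.2))
      ≤ ∑ p ∈ A ×ˢ A, ENNReal.ofReal (K1 / (h * (1 + |((p.1.1 - p.2.1 : ℤ) : ℝ)|))) *
        (4 * Q) := by
        refine Finset.sum_le_sum fun p _ => mul_le_mul_right ?_ _
        refine (two_cor B R q w hq hw hB hR T hT _ _ (fce_meas h hf p.1) (fce_meas h hf p.2)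
          (fce_le h hf1 p.1) (fce_le h hf1 p.2)).trans ?_
        calc 2 * (Thg (dif q) (dam w) T (cor (fce h f p.1) (fce h f p.1)) +
              Thg (dif q) (dam w) T (cor (fce h f p.2) (fce h f p.2))) ≤ 2 * (Q + Q) :=
              mul_le_mul_right (add_le_add (hQ _) (hQ _)) _
          _ = 4 * Q := by ring
    _ = ENNReal.ofReal (∑ p ∈ A ×ˢ A, K1 / (h * (1 + |((p.1.1 - p.2.1 : ℤ) : ℝ)|))) *
        (4 * Q) := by
        rw [← Finset.sum_mul, ENNReal.ofReal_sum_of_nonneg]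
        intro p _
        exact div_nonneg hK10 (hcoef p).le
    _ ≤ ENNReal.ofReal (K1 * K2 * ((1 + Real.log (1 / h)) / h ^ 2)) * (4 * Q) := by
        refine mul_le_mul_left (ENNReal.ofReal_le_ofReal ?_) _
        have e1 := sum_AA hC hh hh1 hS A (fun J hJ => (hAm J).1 hJ) m hm
        rw [← hK2] at e1
        have e2 : ∀ p ∈ A ×ˢ A, K1 / (h * (1 + |((p.1.1 - p.2.1 : ℤ) : ℝ)|)) =
            K1 / h * (1 / (1 + |((p.1.1 - p.2.1 : ℤ) : ℝ)|)) := by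
          intro p _
          rw [div_mul_div_comm, mul_one]
        rw [Finset.sum_congr rfl e2, ← Finset.mul_sum]
        refine (mul_le_mul_of_nonneg_left e1 (by positivity)).trans (le_of_eq ?_)
        field_simp
    _ = ENNReal.ofReal (4 * K1 * K2 * ((1 + Real.log (1 / h)) / h ^ 2)) * Q := by
        rw [show 4 * K1 * K2 * ((1 + Real.log (1 / h)) / h ^ 2) =
          4 * (K1 * K2 * ((1 + Real.log (1 / h)) / h ^ 2)) by ring,
          ENNReal.ofReal_mul (by norm_num : (0:ℝ) ≤ 4), ENNReal.ofReal_ofNat]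
        ring

end Pool.Agent.SDT.N1Q

end -- N1Q.Bd3

section -- N1Q.Bd4

/-!
N1Q, block Q1, part 4: the strip next to the equator is a band.
-/

namespace Pool.Agent.SDT.N1Q

open MeasureTheory Set Metric Pool.Agent.SDT.MP_6cbfb8_an Pool.Agent.SDT.MST Pool.Agent.SDT.N1
open Pool.Agent.SDT.N1F Pool.Agent.SDT.N1G Pool.Agent.SDT.N1M
open scoped ENNReal Real ContDiff

theorem bd_meas_hm (m : ℝ) : Measurable fun x : ℝ × ℝ => hm m x.2 - x.1 ^ 2 := by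
  unfold hm
  fun_prop

theorem bd_qm_meas (c m : ℝ) : Measurable (qm c m) := by
  unfold qm Sq
  have h1 : Continuous fun v : ℝ => Real.smoothTransition ((16 * v - c ^ 2) / c ^ 2) :=
    Real.smoothTransition.continuous.comp (by fun_prop)
  exact (Real.continuous_sqrt.mul h1).measurable.comp (bd_meas_hm m)

theorem bd_wn_meas (ν m : ℝ) (hν : 0 < ν) : Measurable (wn ν m) := by
  unfold wn
  refine Measurable.ite ?_ (((f1_sma_cont ν hν).measurable.comp (bd_meas_hm m)).sub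
    ((f1_sma_cont (2 * ν) (by linarith)).measurable.comp (bd_meas_hm m))) measurable_const
  have h1 : MeasurableSet {x : ℝ × ℝ | 0 ≤ x.2} := measurableSet_le measurable_const measurable_snd
  have h2 : MeasurableSet {x : ℝ × ℝ | x.2 ≤ 8} := measurableSet_le measurable_snd measurable_const
  exact h1.inter h2

theorem bd_wn_le (ν m : ℝ) (hν : 0 < ν) (x : ℝ × ℝ) : |wn ν m x| ≤ 3 / ν := by
  unfold wn
  split_ifs
  · refine (abs_sub _ _).trans ?_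
    have h1 := f1_sma_le ν hν (hm m x.2 - x.1 ^ 2)
    have h2 := f1_sma_le (2 * ν) (by linarith) (hm m x.2 - x.1 ^ 2)
    have h3 : 2 / ν + 2 / (2 * ν) = 3 / ν := by
      field_simp
      norm_num
    linarith
  · rw [abs_zero]
    positivity

theorem bd_diff_zero {ν v : ℝ} (hν : 0 < ν) (hv : 4 * ν ^ 2 ≤ v) : sma ν v - sma (2 * ν) v = 0 := by
  have h1 : 2 * ν ≤ √v := by
    rw [show 2 * ν = √((2 * ν) ^ 2) from (Real.sqrt_sq (by linarith)).symm]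
    exact Real.sqrt_le_sqrt (by nlinarith)
  unfold sma smb
  rw [Real.smoothTransition.one_of_one_le, Real.smoothTransition.one_of_one_le, sub_self]
  · rw [le_div_iff₀ (by linarith)]
    linarith
  · rw [le_div_iff₀ hν]
    linarith

theorem bd_wn_ne {ν m : ℝ} (hν : 0 < ν) {x : ℝ × ℝ} (h : wn ν m x ≠ 0) :
    0 ≤ x.2 ∧ x.2 ≤ 8 ∧ ν ^ 2 / 4 ≤ hm m x.2 - x.1 ^ 2 ∧ hm m x.2 - x.1 ^ 2 ≤ 4 * ν ^ 2 := by
  unfold wn at h
  split_ifs at h with h1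
  · refine ⟨h1.1, h1.2, ?_, ?_⟩
    · by_contra h2
      push Not at h2
      apply h
      rw [f1_sma_zero ν hν _ h2.le, f1_sma_zero (2 * ν) (by linarith) _ (by nlinarith), sub_zero]
    · by_contra h2
      push Not at h2
      exact h (bd_diff_zero hν h2.le)
  · exact absurd rfl h

theorem bd_wn_supp {ν m : ℝ} (hν : 0 < ν) (hm0 : 0 ≤ m) (x : ℝ × ℝ) (h : wn ν m x ≠ 0) :
    ‖x‖ ≤ 8 := by
  obtain ⟨h2, h3, h4, _⟩ := bd_wn_ne hν h
  unfold hm at h4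
  have h5 : 0 ≤ m * x.2 ^ 2 := by positivity
  have h6 : x.1 ^ 2 ≤ 8 ^ 2 := by nlinarith [sq_nonneg ν]
  have h7 : |x.1| ≤ 8 := abs_le_of_sq_le_sq h6 (by norm_num)
  rw [Prod.norm_def, max_le_iff, Real.norm_eq_abs, Real.norm_eq_abs]
  exact ⟨h7, abs_le.2 ⟨by linarith, h3⟩⟩

/-- The strip. -/
def bdS (ν m : ℝ) : Set (ℝ × ℝ) := {x | 0 ≤ x.1 ∧ Rg m x.2 ∧ ν ^ 2 / 4 ≤ hm m x.2 - x.1 ^ 2 ∧
  hm m x.2 - x.1 ^ 2 ≤ 4 * ν ^ 2}

theorem bd_a {ν m : ℝ} (hm0 : 0 ≤ m) {x : ℝ × ℝ} (hx : x ∈ bdS ν m) : 0 ≤ x.1 ∧ x.1 ≤ 3 := by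
  obtain ⟨h1, h2, h3, _⟩ := hx
  refine ⟨h1, ?_⟩
  obtain ⟨k1, k2, _, _⟩ := h2
  unfold hm at h3
  have h5 : 0 ≤ m * x.2 ^ 2 := by positivity
  nlinarith [sq_nonneg ν]

/-- The difference of two points of the strip. -/
theorem bd_diff {ν m : ℝ} (hm0 : 0 ≤ m) {x x' : ℝ × ℝ} (hx : x ∈ bdS ν m)
    (hx' : x' ∈ bdS ν m) : ∃ B D : ℝ, 1 ≤ B ∧ B ≤ 2 ∧ |D| ≤ 4 * ν ^ 2 ∧
      B = bm m x.2 + bm m x'.2 ∧ D = (hm m x.2 - x.1 ^ 2) - (hm m x'.2 - x'.1 ^ 2) ∧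
      (x.2 - x'.2) * B = (x.1 - x'.1) * (x.1 + x'.1) + D := by
  obtain ⟨h1, ⟨k1, k2, k3, k4⟩, h3, h4⟩ := hx
  obtain ⟨h1', ⟨k1', k2', k3', k4'⟩, h3', h4'⟩ := hx'
  refine ⟨_, _, ?_, ?_, ?_, rfl, rfl, ?_⟩
  · linarith
  · unfold bm
    nlinarith [mul_nonneg hm0 k1.le, mul_nonneg hm0 k1'.le]
  · rw [abs_le]
    constructor <;> nlinarith [sq_nonneg ν]
  · unfold bm hm
    ring

theorem bd_H2 {ν m : ℝ} (hν : 0 < ν) (hν1 : ν ≤ 1 / 2) (hm0 : 0 ≤ m) (hm1 : m ≤ 1)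
    {x x' y : ℝ × ℝ} (hx : x ∈ bdS ν m) (hxy : x - y ∈ bdS ν m) (hx' : x' ∈ bdS ν m)
    (hxy' : x' - y ∈ bdS ν m) : |x.1 - x'.1| * |y.1| ≤ 164 * ν ^ 2 := by
  obtain ⟨a1, a2⟩ := bd_a hm0 hx
  obtain ⟨a3, a4⟩ := bd_a hm0 hxy
  obtain ⟨a5, a6⟩ := bd_a hm0 hx'
  obtain ⟨B1, D1, b1, b2, b3, b4, b5, b6⟩ := bd_diff hm0 hx hxy
  obtain ⟨B2, D2, c1, c2, c3, c4, c5, c6⟩ := bd_diff hm0 hx hx'
  obtain ⟨B3, D3, d1, d2, d3, d4, d5, d6⟩ := bd_diff hm0 hx' hxy'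
  simp only [Prod.fst_sub, Prod.snd_sub] at a3 a4 b4 b5 b6 d4 d5 d6
  obtain ⟨u, hu⟩ : ∃ u, u = y.1 := ⟨_, rfl⟩
  obtain ⟨s, hs⟩ : ∃ s, s = x.1 - x'.1 := ⟨_, rfl⟩
  obtain ⟨L, hL⟩ : ∃ L, L = x.1 + (x.1 - y.1) := ⟨_, rfl⟩
  obtain ⟨L', hL'⟩ : ∃ L', L' = x.1 + x'.1 := ⟨_, rfl⟩
  obtain ⟨y2, hy2⟩ : ∃ y2, y2 = y.2 := ⟨_, rfl⟩
  obtain ⟨r, hr⟩ : ∃ r, r = x.2 - x'.2 := ⟨_, rfl⟩
  rw [← hs, ← hu]
  have e1 : y2 * B1 = u * L + D1 := by
    rw [hy2, hu, hL]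
    have : x.2 - (x.2 - y.2) = y.2 := by ring
    rw [this] at b6
    rw [b6]
    ring
  have e2 : r * B2 = s * L' + D2 := by
    rw [hr, hs, hL']
    exact c6
  have e3 : 2 * (u * s + m * y2 * r) = D3 - D1 := by
    rw [b5, d5, hu, hs, hy2, hr]
    unfold hm
    ring
  have L0 : 0 ≤ L := by rw [hL]; linarith
  have L6 : L ≤ 6 := by rw [hL]; linarith
  have L0' : 0 ≤ L' := by rw [hL']; linarith
  have L6' : L' ≤ 6 := by rw [hL']; linarith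
  have hu3 : |u| ≤ 3 := by
    rw [hu, abs_le]
    constructor <;> linarith
  have hs3 : |s| ≤ 3 := by
    rw [hs, abs_le]
    constructor <;> linarith
  have key : u * s * (B1 * B2 + m * (L * L')) =
      (D3 - D1) / 2 * (B1 * B2) - m * (u * L * D2 + D1 * (s * L') + D1 * D2) := by
    have e4 : m * (y2 * B1) * (r * B2) = m * (u * L + D1) * (s * L' + D2) := by rw [e1, e2]
    have e5 : (u * s + m * y2 * r) * (B1 * B2) = (D3 - D1) / 2 * (B1 * B2) := by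
      rw [← e3]
      ring
    linear_combination e5 - e4
  have hν2 : 4 * ν ^ 2 ≤ 1 := by nlinarith
  have hν0 : 0 ≤ ν ^ 2 := sq_nonneg ν
  have g1 : |u * s * (B1 * B2 + m * (L * L'))| ≤ 164 * ν ^ 2 := by
    rw [key]
    have f1 : |(D3 - D1) / 2 * (B1 * B2)| ≤ 4 * ν ^ 2 * 4 := by
      rw [abs_mul, abs_div, abs_of_pos (by norm_num : (0:ℝ) < 2)]
      have g1 : |D3 - D1| ≤ 4 * ν ^ 2 * 2 := (abs_sub _ _).trans (by linarith)
      have g2 : |B1 * B2| ≤ 4 := by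
        rw [abs_mul, abs_of_pos (by linarith), abs_of_pos (by linarith)]
        nlinarith
      exact mul_le_mul (by linarith) g2 (abs_nonneg _) (by positivity)
    have f2 : |u * L * D2| ≤ 3 * 6 * (4 * ν ^ 2) := by
      rw [abs_mul, abs_mul, abs_of_nonneg L0]
      gcongr
    have f3 : |D1 * (s * L')| ≤ 4 * ν ^ 2 * (3 * 6) := by
      rw [abs_mul, abs_mul, abs_of_nonneg L0']
      gcongr
    have f4 : |D1 * D2| ≤ 4 * ν ^ 2 * 1 := by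
      rw [abs_mul]
      exact mul_le_mul b3 (c3.trans hν2) (abs_nonneg _) (by positivity)
    have f5 : |u * L * D2 + D1 * (s * L') + D1 * D2| ≤ 148 * ν ^ 2 := by
      refine (abs_add_le _ _).trans ?_
      have := abs_add_le (u * L * D2) (D1 * (s * L'))
      linarith
    have f6 : |m * (u * L * D2 + D1 * (s * L') + D1 * D2)| ≤ 148 * ν ^ 2 := by
      rw [abs_mul, abs_of_nonneg hm0]
      calc m * |u * L * D2 + D1 * (s * L') + D1 * D2| ≤ 1 * (148 * ν ^ 2) :=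
            mul_le_mul hm1 f5 (abs_nonneg _) (by norm_num)
        _ = 148 * ν ^ 2 := one_mul _
    refine (abs_sub _ _).trans ?_
    linarith
  rw [abs_mul, abs_mul] at g1
  have g2 : 1 ≤ |B1 * B2 + m * (L * L')| := by
    have : 0 ≤ m * (L * L') := by positivity
    rw [abs_of_nonneg (by nlinarith)]
    nlinarith
  have g3 : 0 ≤ |u| * |s| := by positivity
  nlinarith

/-- The strip satisfies the band conditions. -/
theorem bd_band {σ ν m : ℝ} (hσ : 0 < σ) (hσ1 : σ ≤ 1) (hν : 0 < ν) (hν1 : ν ≤ 1 / 2)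
    (hm0 : 0 ≤ m) (hm1 : m ≤ 1) : Band (164 / σ) (σ * ν ^ 2) (bdS ν m) where
  H0 := fun x hx => by
    obtain ⟨a1, a2⟩ := bd_a hm0 hx
    rw [abs_of_nonneg a1, le_div_iff₀ hσ]
    nlinarith
  H1 := fun x hx x' hx' => by
    obtain ⟨a1, a2⟩ := bd_a hm0 hx
    obtain ⟨a5, a6⟩ := bd_a hm0 hx'
    obtain ⟨B, D, b1, b2, b3, b4, b5, b6⟩ := bd_diff hm0 hx hx'
    have h1 : |x.2 - x'.2| ≤ |x.2 - x'.2| * B := by
      nlinarith [abs_nonneg (x.2 - x'.2)]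
    have h2 : |x.2 - x'.2| * B = |(x.1 - x'.1) * (x.1 + x'.1) + D| := by
      rw [← b6, abs_mul, abs_of_pos (by linarith : 0 < B)]
    have h3 : |(x.1 - x'.1) * (x.1 + x'.1) + D| ≤ |x.1 - x'.1| * 6 + 4 * ν ^ 2 := by
      refine (abs_add_le _ _).trans (add_le_add ?_ b3)
      rw [abs_mul]
      refine mul_le_mul_of_nonneg_left ?_ (abs_nonneg _)
      rw [abs_of_nonneg (by linarith)]
      linarith
    have h4 : 164 / σ * (|x.1 - x'.1| + σ * ν ^ 2) = 164 / σ * |x.1 - x'.1| + 164 * ν ^ 2 := by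
      field_simp
    have h5 : 164 ≤ 164 / σ := by
      rw [le_div_iff₀ hσ]
      linarith
    rw [h4]
    nlinarith [abs_nonneg (x.1 - x'.1), sq_nonneg ν]
  H2 := fun x x' y hx hxy hx' hxy' => by
    refine (bd_H2 hν hν1 hm0 hm1 hx hxy hx' hxy').trans (le_of_eq ?_)
    field_simp

theorem fce_eq (h : ℝ) (hh : 0 < h) (G₁ G₂ : ℝ → ℂ) (J : ℤ × ℤ) (x : ℝ × ℝ) :
    fce h (fun x => G₁ x.1 * G₂ x.2) J x = rs (J.1 * h) h G₁ x.1 * rs (J.2 * h) h G₂ x.2 := by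
  have e : ∀ (a : ℝ) (i : ℤ), ⌊a / h⌋ = i ↔ (i * h ≤ a ∧ a < i * h + h) := by
    intro a i
    rw [Int.floor_eq_iff, le_div_iff₀ hh, div_lt_iff₀ hh, add_mul, one_mul]
  unfold fce cel rs
  by_cases h1 : ⌊x.1 / h⌋ = J.1
  · by_cases h2 : ⌊x.2 / h⌋ = J.2
    · rw [if_pos (Prod.ext h1 h2), if_pos ((e _ _).1 h1), if_pos ((e _ _).1 h2)]
    · rw [if_neg (fun h3 => h2 (congrArg Prod.snd h3)), if_neg (fun h3 => h2 ((e _ _).2 h3)),
        mul_zero]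
  · rw [if_neg (fun h3 => h1 (congrArg Prod.fst h3)), if_neg (fun h3 => h1 ((e _ _).2 h3)),
      zero_mul]

theorem cor_pd (G₁ G₂ : ℝ → ℂ) :
    cor (fun x => G₁ x.1 * G₂ x.2) (fun x => G₁ x.1 * G₂ x.2) = pd (da G₁) (da G₂) := by
  funext p
  simp only [cor, pd, da, map_mul, Prod.fst_sub, Prod.snd_sub]
  ring

/-- The strip is decomposed in square cells of side `s = σ ν²`; `≤ C / s ^ 2 · ν² ...` quadruples. -/
theorem bandE (σ : ℝ) (hσ : 0 < σ) (hσ1 : σ ≤ 1) : ∃ ν0 C : ℝ, 0 < ν0 ∧ ν0 ≤ 1 / 2 ∧ 0 ≤ C ∧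
    ∀ ν m T : ℝ, 0 < ν → ν ≤ ν0 → 0 ≤ m → m ≤ 1 → 0 < T →
    ∀ G₁ G₂ : ℝ → ℂ, Measurable G₁ → Measurable G₂ → (∀ a, ‖G₁ a‖ ≤ 1) → (∀ a, ‖G₂ a‖ ≤ 1) →
    (∀ a, G₁ a ≠ 0 → 0 ≤ a) → (∀ b, G₂ b ≠ 0 → Rg m b) → ∀ Q : ℝ, 0 ≤ Q →
    (∀ c1 c2 : ℝ, TN ν m T (pd (da (rs c1 (σ * ν ^ 2) G₁)) (da (rs c2 (σ * ν ^ 2) G₂))) ≤
      ENNReal.ofReal Q) →
    TN ν m T (pd (da G₁) (da G₂)) ≤ ENNReal.ofReal (C * (1 + Real.log (1 / ν)) / ν ^ 4 * Q) := by
  have hC1 : (1:ℝ) ≤ 164 / σ := by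
    rw [le_div_iff₀ hσ]
    linarith
  obtain ⟨K, hK0, hK⟩ := band_abs (164 / σ) hC1
  have hlσ : 0 ≤ Real.log (1 / σ) := Real.log_nonneg (by rw [le_div_iff₀ hσ]; linarith)
  refine ⟨1 / 2, K * (2 + Real.log (1 / σ)) / σ ^ 2, by norm_num, le_rfl, by positivity, ?_⟩
  intro ν m T hν hν1 hm0 hm1 hT G₁ G₂ hG₁ hG₂ b1 b2 s1 s2 Q hQ0 hQ
  have hh : 0 < σ * ν ^ 2 := by positivity
  have hν2 : ν ^ 2 ≤ 1 := by nlinarith
  have hh1 : σ * ν ^ 2 ≤ 1 := by nlinarith [sq_nonneg ν]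
  have h1 := hK (3 / ν) 8 (qm ν m) (wn ν m) (bd_qm_meas ν m) (bd_wn_meas ν m hν)
    (bd_wn_le ν m hν) (bd_wn_supp hν hm0) T hT (σ * ν ^ 2) (bdS ν m) hh hh1
    (bd_band hσ hσ1 hν hν1 hm0 hm1) (fun x => G₁ x.1 * G₂ x.2)
    ((hG₁.comp measurable_fst).mul (hG₂.comp measurable_snd))
    (fun x => by
      rw [norm_mul]
      exact mul_le_one₀ (b1 _) (norm_nonneg _) (b2 _))
    (fun x hf hw => by
      obtain ⟨_, _, w3, w4⟩ := bd_wn_ne hν hw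
      exact ⟨s1 _ (left_ne_zero_of_mul hf), s2 _ (right_ne_zero_of_mul hf), w3, w4⟩)
    (ENNReal.ofReal Q)
    (fun J => by
      have e1 : fce (σ * ν ^ 2) (fun x => G₁ x.1 * G₂ x.2) J = fun x =>
          rs (J.1 * (σ * ν ^ 2)) (σ * ν ^ 2) G₁ x.1 * rs (J.2 * (σ * ν ^ 2)) (σ * ν ^ 2) G₂ x.2 := by
        funext x
        exact fce_eq _ hh G₁ G₂ J x
      rw [e1, cor_pd]
      exact hQ _ _)
  rw [cor_pd] at h1
  unfold TN
  refine h1.trans ?_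
  rw [← ENNReal.ofReal_mul]
  · refine ENNReal.ofReal_le_ofReal ?_
    refine mul_le_mul_of_nonneg_right ?_ hQ0
    have hlν : 0 ≤ Real.log (1 / ν) := Real.log_nonneg (by rw [le_div_iff₀ hν]; linarith)
    have e2 : Real.log (1 / (σ * ν ^ 2)) = Real.log (1 / σ) + 2 * Real.log (1 / ν) := by
      rw [one_div, one_div, one_div, Real.log_inv, Real.log_inv, Real.log_inv,
        Real.log_mul hσ.ne' (by positivity), Real.log_pow]
      push_cast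
      ring
    have e3 : 1 + Real.log (1 / (σ * ν ^ 2)) ≤
        (2 + Real.log (1 / σ)) * (1 + Real.log (1 / ν)) := by
      rw [e2]
      nlinarith [mul_nonneg hlσ hlν]
    calc K * ((1 + Real.log (1 / (σ * ν ^ 2))) / (σ * ν ^ 2) ^ 2)
        ≤ K * (((2 + Real.log (1 / σ)) * (1 + Real.log (1 / ν))) / (σ * ν ^ 2) ^ 2) := by
          gcongr
      _ = K * (2 + Real.log (1 / σ)) / σ ^ 2 * (1 + Real.log (1 / ν)) / ν ^ 4 := by
          field_simp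
  · have : 0 ≤ Real.log (1 / (σ * ν ^ 2)) :=
      Real.log_nonneg (by rw [le_div_iff₀ hh]; linarith)
    positivity

end Pool.Agent.SDT.N1Q

end -- N1Q.Bd4
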