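import Pool.Agent.SDT.B21
import Pool.Agent.SDT.B23
import Pool.Agent.SDT.B41
import Pool.Agent.SDT.B44

set_option autoImplicit false

namespace Pool.Agent.SDT.MP_6cbfb8_an
end Pool.Agent.SDT.MP_6cbfb8_an
namespace Pool.Agent.SDT.MST
end Pool.Agent.SDT.MST
namespace Pool.Agent.SDT.N1
end Pool.Agent.SDT.N1

section -- MST.TR

namespace Pool.Agent.SDT.MST

open MeasureTheory Set Pool.Agent.SDT.MP_6cbfb8_an
open scoped ENNReal Real

lemma htr_meas {G : E 2 → ℂ} (hG : Measurable G) {l : ℕ} :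
    Measurable fun x : E (2 + l) => G (fstE (k := 2) (l := l) x) :=
  hG.comp continuous_fstE.measurable

/-- one cut in dimension three -/
theorem htr_cut (cls : (E 2 → ℂ) → Prop)
    (H : ∀ p : ℝ, 3 < p → ∃ C : ℝ≥0∞, C ≠ ∞ ∧ ∀ G : E 2 → ℂ, Measurable G → (∀ w, ‖G w‖ ≤ 1) →
      cls G → ∫⁻ ξ : E 3, ‖extn (fun x : E 3 => G (fstE (k := 2) (l := 1) x)) ξ‖ₑ ^ p ≤ C)
    (q : ℝ) (hq : 3 < q) : ∃ C : ℝ≥0∞, C ≠ ∞ ∧ ∀ G : E 2 → ℂ, Measurable G →
      (∀ w, ‖G w‖ ≤ 1) → cls G → ∀ (v : Fin 1 → E 3) (c : Fin 1 → ℝ),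
      ∫⁻ ξ, ‖extn (fun x : E 3 => G (fstE (k := 2) (l := 1) x) * ∏ i, hsn (c i) (v i) x) ξ‖ₑ ^ q ≤
        C := by
  obtain ⟨C, hC, h⟩ := multicut 3 le_rfl 3 (by norm_num) (fun g => ∃ G : E 2 → ℂ, Measurable G ∧
    (∀ w, ‖G w‖ ≤ 1) ∧ cls G ∧ g = fun x : E 3 => G (fstE (k := 2) (l := 1) x)) (by
    intro p' hp'
    obtain ⟨C, hC, h⟩ := H p' hp'
    refine ⟨C, hC, ?_⟩
    rintro g _ _ ⟨G, hG, hb, hc, rfl⟩
    exact h G hG hb hc) 1 q hq
  refine ⟨C, hC, fun G hG hb hc v c => ?_⟩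
  exact h (fun x : E 3 => G (fstE (k := 2) (l := 1) x)) (htr_meas (l := 1) hG) (fun x => hb _)
    ⟨G, hG, hb, hc, rfl⟩ v c

/-- the base estimate -/
theorem htr_base (cls : (E 2 → ℂ) → Prop)
    (H : ∀ p : ℝ, 3 < p → ∃ C : ℝ≥0∞, C ≠ ∞ ∧ ∀ G : E 2 → ℂ, Measurable G → (∀ w, ‖G w‖ ≤ 1) →
      cls G → ∫⁻ ξ : E 3, ‖extn (fun x : E 3 => G (fstE (k := 2) (l := 1) x)) ξ‖ₑ ^ p ≤ C)
    (j : ℕ) (q : ℝ) (hq : 3 < q) : ∃ C : ℝ≥0∞, C ≠ ∞ ∧ ∀ G : E 2 → ℂ, Measurable G →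
      (∀ w, ‖G w‖ ≤ 1) → cls G →
      ∫⁻ ξ, ‖extn (tpow j (fun x : E 3 => G (fstE (k := 2) (l := 1) x)) : E 3 → ℂ) ξ‖ₑ ^ q ≤ C := by
  obtain ⟨C, hC, H⟩ := htr_cut cls H q hq
  rcases j with _ | j
  · refine ⟨C, hC, fun G hG hb hc => ?_⟩
    refine le_trans (le_of_eq ?_) (H G hG hb hc (fun _ => eLast 2) (fun _ => 0))
    refine lintegral_congr fun ξ => ?_
    congr 3
    funext x
    rw [Fin.prod_univ_one]
    unfold tpow hsn
    rw [inner_eLast2]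
    split_ifs <;> simp
  · refine ⟨C * powν j univ ^ q, ENNReal.mul_ne_top hC
      (ENNReal.rpow_ne_top_of_nonneg (by linarith) (measure_ne_top _ _)), fun G hG hb hc => ?_⟩
    have key := lintegral_mix_le (p := q) (C := C) (by linarith)
      (fun g : E 3 → ℂ => ∃ c : ℝ, g = fun x => G (fstE (k := 2) (l := 1) x) *
        ∏ _i : Fin 1, hsn c (eLast 2) x)
      (by
        rintro g _ _ ⟨c, rfl⟩
        exact H G hG hb hc (fun _ => eLast 2) (fun _ => c))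
      (powν j) (fun _ => LinearIsometryEquiv.refl ℝ (E 3)) (fun _ => 0)
      (fun c x => G (fstE (k := 2) (l := 1) x) * ∏ _i : Fin 1, hsn c (eLast 2) x)
      measurable_snd measurable_const (by
        have h1 : Measurable fun q : ℝ × E 3 => G (fstE (k := 2) (l := 1) q.2) :=
          (htr_meas (l := 1) hG).comp measurable_snd
        refine h1.mul ?_
        simp only [Fin.prod_univ_one]
        unfold hsn
        refine Measurable.ite ?_ measurable_const measurable_const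
        exact measurableSet_lt measurable_fst (by fun_prop))
      (fun c x => by
        rw [norm_mul, Fin.prod_univ_one]
        exact mul_le_one₀ (hb _) (norm_nonneg _) (norm_hsn_le _ _ _))
      (fun c => ⟨c, rfl⟩)
    refine le_trans (le_of_eq ?_) key
    have : extn (tpow (j + 1) (fun x : E 3 => G (fstE (k := 2) (l := 1) x)) : E 3 → ℂ) =
        extn (mix (powν j) (fun _ => LinearIsometryEquiv.refl ℝ (E 3)) (fun _ => 0)
          (fun c x => G (fstE (k := 2) (l := 1) x) * ∏ _i : Fin 1, hsn c (eLast 2) x)) := by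
      refine extn_congr_sphere fun x hx => ?_
      unfold mix
      simp only [Fin.prod_univ_one, inner_zero_right, mul_zero, Complex.ofReal_zero, zero_mul,
        Complex.exp_zero, one_mul, LinearIsometryEquiv.coe_refl, id]
      rw [integral_const_mul]
      have e1 : (fun c : ℝ => hsn c (eLast 2) x) =
          (Iio (x (Fin.last 2))).indicator fun _ => (1:ℂ) := by
        funext c
        unfold hsn
        rw [inner_eLast2]
        by_cases h : c < x (Fin.last 2)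
        · rw [if_pos h, indicator_of_mem (mem_Iio.2 h)]
        · rw [if_neg h, indicator_of_notMem]
          exact h
      rw [e1, integral_indicator_const _ measurableSet_Iio]
      unfold tpow Measure.real
      split_ifs with h
      · rw [powν_Iio j h ((le_abs_self _).trans ((abs_last_le x).trans hx.le)),
          ENNReal.toReal_ofReal (by positivity)]
        simp
      · rw [powν_Iio_neg j (not_lt.1 h)]
        simp
    rw [this]

lemma htr_fst_join (u : E 2) (t : ℝ) :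
    (fstE (k := 2) (l := 1) (join u t : E 3) : E 2) = u := by
  ext i
  have hi : ¬ (1 : ℕ) < (i : ℕ) := by omega
  simp [fstE, join, Fin.snoc]
  intro h
  exact absurd h hi

/-- the estimate without cuts -/
theorem htr_longi (cls : (E 2 → ℂ) → Prop)
    (H : ∀ p : ℝ, 3 < p → ∃ C : ℝ≥0∞, C ≠ ∞ ∧ ∀ G : E 2 → ℂ, Measurable G → (∀ w, ‖G w‖ ≤ 1) →
      cls G → ∫⁻ ξ : E 3, ‖extn (fun x : E 3 => G (fstE (k := 2) (l := 1) x)) ξ‖ₑ ^ p ≤ C)
    (l : ℕ) (hl : 1 ≤ l) (p : ℝ) (hp : 2 * ((l : ℝ) + 2) / (l + 1) < p) :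
    ∃ C : ℝ≥0∞, C ≠ ∞ ∧ ∀ G : E 2 → ℂ, Measurable G → (∀ w, ‖G w‖ ≤ 1) → cls G →
      ∫⁻ ξ, ‖extn (fun x : E (2 + l) => G (fstE x)) ξ‖ₑ ^ p ≤ C := by
  obtain rfl | hl2 : l = 1 ∨ 2 ≤ l := by omega
  · obtain ⟨C, hC, h⟩ := H p (by norm_num at hp; exact hp)
    exact ⟨C, hC, h⟩
  · obtain ⟨i, rfl⟩ : ∃ i, l = i + 2 := ⟨l - 2, by omega⟩
    have hi0 : (0:ℝ) ≤ i := Nat.cast_nonneg i
    push_cast at hp
    have hp2 : 2 < p := by
      refine lt_trans ?_ hp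
      rw [lt_div_iff₀ (by positivity)]
      linarith
    obtain ⟨C, hC, H⟩ := lifting 1 i 3 (by norm_num) (fun g => ∃ G : E 2 → ℂ, Measurable G ∧
      (∀ w, ‖G w‖ ≤ 1) ∧ cls G ∧ g = fun x : E 3 => G (fstE (k := 2) (l := 1) x)) (by
        intro j q hq
        obtain ⟨C, hC, H⟩ := htr_base cls H j q hq
        refine ⟨C, hC, ?_⟩
        rintro g _ _ ⟨G, hG, hb, hc, rfl⟩
        exact H G hG hb hc) p hp2 (by
        have h1 : 2 * ((i : ℝ) + 2 + 2) / (i + 2 + 1) = 2 + 2 / (i + 3) := by field_simp; ring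
        have h2 : 2 / ((i:ℝ) + 3) < p - 2 := by linarith
        have h3 := one_div_lt_one_div_of_lt (by positivity) h2
        rw [one_div_div] at h3
        refine h3.trans_le (le_of_eq ?_)
        norm_num
        ring)
    refine ⟨C, hC, fun G hG hb hc => ?_⟩
    have := H (fun x : E 3 => G (fstE (k := 2) (l := 1) x)) (htr_meas (l := 1) hG)
      (fun x => hb _) ⟨G, hG, hb, hc, rfl⟩
    refine le_trans (le_of_eq ?_) this
    refine lintegral_congr fun ξ => ?_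
    congr 3
    funext x
    unfold lift
    exact congrArg G (htr_fst_join (fstE x) _).symm

/-
ROW TR (1.2 h). From the sphere of R^3 to all dimensions, with half-space cuts. A port of
base_lon, longi_base, longi_bound (LiftF.lean) with `lon h` replaced by `fun x : E 3 => G (fstE x)` and the class
{G : cls G} (always together with Measurable G and ‖G‖ ≤ 1).
Step 1: `multicut` for n = 3, p0 = 3, the class {fun x => G (fstE x) | cls G}, N = 1: bound for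
G (fstE x) * hsn c v x, uniform in c, v. Step 2 (base): for every j and q > 3 a bound for tpow j (fun x => G (fstE x)):
as in base_lon (j = 0: cut by x_3 > 0; j+1: superposition over c ∈ (0,1) with powν j of the cuts x_3 > c, lintegral_mix_le).
Step 3: `lifting` with κ = 1, q₁ = 3, i = l-2 for l ≥ 2, as in longi_base; lift (k := 2) (fun x => G (fstE x)) = fun x => G (fstE x)
as fstE (join u h) = u. For l = 1 use H itself. Step 4: `multicut` for n = 2 + l, as in longi_bound.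
-/
theorem transfer (cls : (E 2 → ℂ) → Prop)
    (H : ∀ p : ℝ, 3 < p → ∃ C : ℝ≥0∞, C ≠ ∞ ∧ ∀ G : E 2 → ℂ, Measurable G → (∀ w, ‖G w‖ ≤ 1) →
      cls G → ∫⁻ ξ : E 3, ‖extn (fun x : E 3 => G (fstE (k := 2) (l := 1) x)) ξ‖ₑ ^ p ≤ C)
    (l : ℕ) (hl : 1 ≤ l) (N : ℕ) (p : ℝ) (hp : 2 * ((l : ℝ) + 2) / (l + 1) < p) :
    ∃ C : ℝ≥0∞, C ≠ ∞ ∧ ∀ G : E 2 → ℂ, Measurable G → (∀ w, ‖G w‖ ≤ 1) → cls G →
      ∀ (v : Fin N → E (2 + l)) (c : Fin N → ℝ),
      ∫⁻ ξ, ‖extn (fun x : E (2 + l) => G (fstE x) * ∏ i, hsn (c i) (v i) x) ξ‖ₑ ^ p ≤ C := by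
  obtain ⟨C, hC, h⟩ := multicut (2 + l) (by omega) (2 * ((l : ℝ) + 2) / (l + 1)) (by
    rw [le_div_iff₀ (by positivity)]
    have : (0:ℝ) ≤ l := Nat.cast_nonneg l
    linarith) (fun g => ∃ G : E 2 → ℂ, Measurable G ∧ (∀ w, ‖G w‖ ≤ 1) ∧ cls G ∧
      g = fun x : E (2 + l) => G (fstE x)) (by
    intro p' hp'
    obtain ⟨C, hC, h⟩ := htr_longi cls H l hl p' hp'
    refine ⟨C, hC, ?_⟩
    rintro g _ _ ⟨G, hG, hb, hc, rfl⟩
    exact h G hG hb hc) N p hp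
  refine ⟨C, hC, fun G hG hb hc v c => ?_⟩
  exact h (fun x : E (2 + l) => G (fstE x)) (htr_meas hG) (fun x => hb _)
    ⟨G, hG, hb, hc, rfl⟩ v c

end Pool.Agent.SDT.MST

end -- MST.TR

section -- N1.Y4

/-!
N1, block Y: from the dyadic estimate to the spheres of all dimensions, for a class of densities.
-/

namespace Pool.Agent.SDT.N1

open MeasureTheory Set Metric Pool.Agent.SDT.MP_6cbfb8_an Pool.Agent.SDT.MST
open scoped ENNReal Real

theorem log_pow_le' (M : ℕ) (β : ℝ) (hβ : β < 1) : ∃ K : ℝ, 0 ≤ K ∧ ∀ T : ℝ, 1 ≤ T →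
    (1 + Real.log T) ^ M / T ≤ K * T ^ (-β) := by
  have hM : (0:ℝ) < M + 1 := by positivity
  obtain ⟨ε, hε⟩ : ∃ ε, ε = (1 - β) / (M + 1) := ⟨_, rfl⟩
  have hε0 : 0 < ε := by rw [hε]; exact div_pos (by linarith) hM
  refine ⟨(1 + 1 / ε) ^ M, by positivity, fun T hT => ?_⟩
  have hT0 : 0 < T := by linarith
  have h1 : Real.log T ≤ T ^ ε / ε := Real.log_le_rpow_div hT0.le hε0
  have h2 : 1 ≤ T ^ ε := Real.one_le_rpow hT hε0.le
  have h3 : 1 + Real.log T ≤ (1 + 1 / ε) * T ^ ε := by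
    have : (1 + 1 / ε) * T ^ ε = T ^ ε + T ^ ε / ε := by ring
    rw [this]
    linarith
  have h4 : 0 ≤ 1 + Real.log T := by linarith [Real.log_nonneg hT]
  have h5 : (1 + Real.log T) ^ M ≤ ((1 + 1 / ε) * T ^ ε) ^ M := pow_le_pow_left₀ h4 h3 M
  have h6 : ((1 + 1 / ε) * T ^ ε) ^ M ≤ (1 + 1 / ε) ^ M * T ^ (1 - β) := by
    rw [mul_pow]
    gcongr
    rw [← Real.rpow_natCast (T ^ ε) M, ← Real.rpow_mul hT0.le]
    apply Real.rpow_le_rpow_of_exponent_le hT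
    rw [hε, div_mul_eq_mul_div, div_le_iff₀ hM]
    have : 0 < 1 - β := by linarith
    nlinarith
  rw [div_le_iff₀ hT0]
  calc (1 + Real.log T) ^ M ≤ (1 + 1 / ε) ^ M * T ^ (1 - β) := h5.trans h6
    _ = (1 + 1 / ε) ^ M * T ^ (-β) * T := by
        rw [mul_assoc]
        congr 1
        rw [← Real.rpow_add_one hT0.ne']
        congr 1
        ring

theorem hft_R (c : ℝ) (hc : 0 < c) (w : E 2) (hw : hft_a c (vN idM w) ≠ 0) : ‖w‖ ≤ 1 := by
  have h1 : ¬ (vN idM w ≤ c ^ 2 / 4) := fun h2 => hw ((hft_cut hc).2 _ h2)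
  push Not at h1
  unfold vN at h1
  rw [mv_idM] at h1
  have h2 : ‖w‖ ^ 2 < 1 := by nlinarith [sq_nonneg c]
  nlinarith [norm_nonneg w]

/-- The dyadic `L⁴` estimates of all orders less than `1` hold for the class `P`. -/
def L4P (b0 c : ℝ) (P : (ℝ × ℝ → ℂ) → Prop) : Prop :=
  ∀ β : ℝ, β < 1 → ∃ C : ℝ, 0 ≤ C ∧ ∀ T : ℝ, 1 ≤ T → ∀ G : ℝ × ℝ → ℂ, Measurable G →
    (∀ x, ‖G x‖ ≤ 1) → P G → ∫⁻ t in {t : ℝ | T ≤ |t| ∧ |t| ≤ 2 * T}, ∫⁻ x : E 2,
      ‖op2 (hft_a c) idM t (cw b0 G) x‖ₑ ^ (4:ℝ) ≤ ENNReal.ofReal (C * T ^ (-β))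

theorem op2_Lp_lt' (b0 c : ℝ) (hc : 0 < c) (P : (ℝ × ℝ → ℂ) → Prop) (h : L4P b0 c P) (p : ℝ)
    (hp : 3 < p) (hp4 : p < 4) :
    ∃ C : ℝ≥0∞, C ≠ ∞ ∧ ∀ G : ℝ × ℝ → ℂ, Measurable G → (∀ x, ‖G x‖ ≤ 1) → P G →
    ∫⁻ t : ℝ, ∫⁻ x : E 2, ‖op2 (hft_a c) idM t (cw b0 G) x‖ₑ ^ p ≤ C := by
  set β : ℝ := ((4 - p) / (p - 2) + 1) / 2 with hβ
  have hp2 : 0 < p - 2 := by linarith
  have hq : (4 - p) / (p - 2) < 1 := by rw [div_lt_one hp2]; linarith
  have hβ1 : β < 1 := by rw [hβ]; linarith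
  have hβ2 : 4 - p < β * (p - 2) := by
    have : (4 - p) / (p - 2) < β := by rw [hβ]; linarith
    rwa [div_lt_iff₀ hp2] at this
  obtain ⟨C, hC, H⟩ := h β hβ1
  obtain ⟨Cs, hCs, hsum⟩ := time_sum (Measure.dirac ()) (volume : Measure (E 2)) p β (by linarith)
    hp4 hβ2
  obtain ⟨C0, hC0, hb0⟩ := op2_bounds 2 (c ^ 2 / 4) (by positivity) (hft_a c) (hft_cut hc) 1
  refine ⟨Cs * (ENNReal.ofReal C0 ^ (p - 2) * ENNReal.ofReal C0 +
    ENNReal.ofReal C0 ^ ((4 - p) / 2) * ENNReal.ofReal C ^ ((p - 2) / 2)), ?_, ?_⟩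
  · refine ENNReal.mul_ne_top hCs (ENNReal.add_ne_top.2 ⟨ENNReal.mul_ne_top ?_ ENNReal.ofReal_ne_top,
      ENNReal.mul_ne_top ?_ ?_⟩)
    · exact ENNReal.rpow_ne_top_of_nonneg (by linarith) ENNReal.ofReal_ne_top
    · exact ENNReal.rpow_ne_top_of_nonneg (by linarith) ENNReal.ofReal_ne_top
    · exact ENNReal.rpow_ne_top_of_nonneg (by linarith) ENNReal.ofReal_ne_top
  intro G hG hb hcls
  have mG := cw_meas b0 G hG
  have nG := cw_norm b0 G 1 zero_le_one hb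
  have hbd := fun t : ℝ => hb0 idM (hft_R c hc) t (cw b0 G) mG nG
  have hm : Measurable fun q : Unit × ℝ × E 2 => op2 (hft_a c) idM q.2.1 (cw b0 G) q.2.2 :=
    (measurable_op2 _ _ (hft_cut hc) (cw b0 G) mG).comp
      (f := fun q : Unit × ℝ × E 2 => ((idM, q.2.1, q.2.2) : Mat 2 × ℝ × E 2)) (by fun_prop)
  have key := hsum (fun _ t x => op2 (hft_a c) idM t (cw b0 G) x) hm
    (ENNReal.ofReal C0) (ENNReal.ofReal C0) (ENNReal.ofReal C)
    (fun _ t => (hbd t).2) (fun _ t x => by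
      rw [← ofReal_norm]
      exact ENNReal.ofReal_le_ofReal ((hbd t).1 x)) (fun T hT => by
      rw [lintegral_dirac]
      refine (H T hT G hG hb hcls).trans (le_of_eq ?_)
      rw [← ENNReal.ofReal_mul (by positivity)])
  rw [lintegral_dirac] at key
  exact key

theorem op2_Lp' (b0 c : ℝ) (hc : 0 < c) (P : (ℝ × ℝ → ℂ) → Prop) (h : L4P b0 c P) (p : ℝ)
    (hp : 3 < p) : ∃ C : ℝ≥0∞, C ≠ ∞ ∧ ∀ G : ℝ × ℝ → ℂ, Measurable G → (∀ x, ‖G x‖ ≤ 1) →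
    P G → ∫⁻ t : ℝ, ∫⁻ x : E 2, ‖op2 (hft_a c) idM t (cw b0 G) x‖ₑ ^ p ≤ C := by
  rcases lt_or_ge p 4 with hp4 | hp4
  · exact op2_Lp_lt' b0 c hc P h p hp hp4
  · obtain ⟨C, hC, H⟩ := op2_Lp_lt' b0 c hc P h (7 / 2) (by norm_num) (by norm_num)
    obtain ⟨C0, hC0, hb0⟩ := op2_bounds 2 (c ^ 2 / 4) (by positivity) (hft_a c) (hft_cut hc) 1
    have hK : ENNReal.ofReal C0 ^ (p - 7 / 2) ≠ ∞ :=
      ENNReal.rpow_ne_top_of_nonneg (by linarith) ENNReal.ofReal_ne_top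
    refine ⟨ENNReal.ofReal C0 ^ (p - 7 / 2) * C, ENNReal.mul_ne_top hK hC, ?_⟩
    intro G hG hb hcls
    have hbd := fun t : ℝ => hb0 idM (hft_R c hc) t (cw b0 G) (cw_meas b0 G hG)
      (cw_norm b0 G 1 zero_le_one hb)
    calc ∫⁻ t : ℝ, ∫⁻ x : E 2, ‖op2 (hft_a c) idM t (cw b0 G) x‖ₑ ^ p
        ≤ ∫⁻ t : ℝ, ENNReal.ofReal C0 ^ (p - 7 / 2) *
            ∫⁻ x : E 2, ‖op2 (hft_a c) idM t (cw b0 G) x‖ₑ ^ (7 / 2 : ℝ) := by
          refine lintegral_mono fun t => ?_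
          rw [← lintegral_const_mul' _ _ hK]
          refine lintegral_mono fun x => ?_
          have h3 : ‖op2 (hft_a c) idM t (cw b0 G) x‖ₑ ≤ ENNReal.ofReal C0 := by
            rw [← ofReal_norm]
            exact ENNReal.ofReal_le_ofReal ((hbd t).1 x)
          have h4 : p = (p - 7 / 2) + 7 / 2 := by ring
          show ‖op2 (hft_a c) idM t (cw b0 G) x‖ₑ ^ p ≤ _
          conv_lhs => rw [h4]
          rw [ENNReal.rpow_add_of_nonneg _ _ (by linarith) (by norm_num)]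
          gcongr
          linarith
      _ = ENNReal.ofReal C0 ^ (p - 7 / 2) * ∫⁻ t : ℝ,
            ∫⁻ x : E 2, ‖op2 (hft_a c) idM t (cw b0 G) x‖ₑ ^ (7 / 2 : ℝ) :=
          lintegral_const_mul' _ _ hK
      _ ≤ ENNReal.ofReal C0 ^ (p - 7 / 2) * C := by
          gcongr
          exact H G hG hb hcls

theorem base3' (b0 c : ℝ) (hc : 0 < c) (P : (ℝ × ℝ → ℂ) → Prop) (h : L4P b0 c P) (p : ℝ)
    (hp : 3 < p) : ∃ C : ℝ≥0∞, C ≠ ∞ ∧ ∀ G : ℝ × ℝ → ℂ, Measurable G → (∀ x, ‖G x‖ ≤ 1) →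
    P G → ∫⁻ ξ : E 3, ‖extn (hft_D (m := 2) c (cw b0 G) idM) ξ‖ₑ ^ p ≤ C := by
  obtain ⟨C, hC, H⟩ := op2_Lp' b0 c hc P h p hp
  obtain ⟨C', hC', H'⟩ := chart_two 2 (by norm_num) idM idM (fun w => by rw [mv_idM, mv_idM])
    (fun w => by rw [mv_idM, mv_idM]) (c ^ 2 / 4) (by positivity) (hft_a c) (hft_b c) (hft_cut hc)
    (hft_b_smooth _ 0).continuous.measurable (fun v _ _ => rfl) p (by linarith)
  refine ⟨C' * C, ENNReal.mul_ne_top hC' hC, ?_⟩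
  intro G hG hb hcls
  refine (H' (cw b0 G) (cw_meas b0 G hG) (cw_norm b0 G 1 zero_le_one hb)).trans ?_
  gcongr
  exact H G hG hb hcls

theorem cdn_set (b0 c : ℝ) :
    MeasurableSet {w : E 2 | b0 < |w 0| ∧ b0 < |w 1| ∧ w 0 ^ 2 + w 1 ^ 2 < 1 - c ^ 2} := by
  have m1 : MeasurableSet {w : E 2 | b0 < |w 0|} :=
    measurableSet_lt measurable_const (by fun_prop)
  have m2 : MeasurableSet {w : E 2 | b0 < |w 1|} :=
    measurableSet_lt measurable_const (by fun_prop)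
  have m3 : MeasurableSet {w : E 2 | w 0 ^ 2 + w 1 ^ 2 < 1 - c ^ 2} :=
    measurableSet_lt (by fun_prop) measurable_const
  exact m1.inter (m2.inter m3)

theorem cdn_meas (b0 c : ℝ) (G : ℝ × ℝ → ℂ) (hG : Measurable G) : Measurable (cdn b0 c G) := by
  unfold cdn
  refine Measurable.ite (cdn_set b0 c) ?_ measurable_const
  exact hG.comp (f := fun w : E 2 => (w 0, w 1)) (by fun_prop)

theorem cdn_norm (b0 c : ℝ) (G : ℝ × ℝ → ℂ) (hb : ∀ x, ‖G x‖ ≤ 1) (w : E 2) : ‖cdn b0 c G w‖ ≤ 1 := by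
  unfold cdn
  split_ifs
  · exact hb _
  · simp

theorem up_eq' (b0 c : ℝ) (hc : 0 < c) (G : ℝ × ℝ → ℂ) (ξ : E 3) :
    extn (up 1 (cdn b0 c G)) ξ = extn (fun x : E 3 =>
      hft_D (m := 2) c (cw b0 G) idM x * ∏ _i : Fin 1, hsn c (eLast 2) x) ξ := by
  unfold extn
  congr 1
  funext x
  congr 1
  have hx : ‖(x : E 3)‖ = 1 := by
    exact mem_sphere_zero_iff_norm.1 x.2
  have hx2 : (x : E 3) 0 ^ 2 + (x : E 3) 1 ^ 2 + (x : E 3) 2 ^ 2 = 1 := by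
    have h1 := EuclideanSpace.norm_sq_eq (x : E 3)
    rw [hx] at h1
    simp only [Fin.sum_univ_three, Real.norm_eq_abs, sq_abs] at h1
    linarith
  have hlast : (x : E 3) (Fin.last 2) = (x : E 3) 2 := rfl
  show up 1 (cdn b0 c G) (x : E 3) =
    hft_D (m := 2) c (cw b0 G) idM (x : E 3) * ∏ _i : Fin 1, hsn c (eLast 2) (x : E 3)
  rw [Fin.prod_univ_one]
  unfold up cdn hft_D hsn cw
  rw [inner_eLast, mv_idM, one_smul, hlast]
  have f0 : (fstE (k := 2) (l := 1) (x : E 3) : E 2) 0 = (x : E 3) 0 := rfl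
  have f1 : (fstE (k := 2) (l := 1) (x : E 3) : E 2) 1 = (x : E 3) 1 := rfl
  rw [f0, f1]
  by_cases h2 : c < (x : E 3) 2
  · rw [if_pos (hc.trans h2), if_pos (hc.trans h2), if_pos h2, hft_b_one hc h2.le]
    have h3 : (x : E 3) 0 ^ 2 + (x : E 3) 1 ^ 2 < 1 - c ^ 2 := by nlinarith
    by_cases h4 : b0 < |(x : E 3) 0|
    · by_cases h5 : b0 < |(x : E 3) 1|
      · rw [if_pos ⟨h4, h5, h3⟩, if_pos ⟨h4, h5⟩]
        simp
      · rw [if_neg (by tauto), if_neg (by tauto)]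
        simp
    · rw [if_neg (by tauto), if_neg (by tauto)]
      simp
  · rw [if_neg h2, mul_zero]
    by_cases h3 : 0 < (x : E 3) 2
    · rw [if_pos h3, if_neg]
      rintro ⟨-, -, h4⟩
      nlinarith
    · rw [if_neg h3]

theorem up3' (b0 c : ℝ) (hc : 0 < c) (P : (ℝ × ℝ → ℂ) → Prop) (h : L4P b0 c P) (p : ℝ)
    (hp : 3 < p) : ∃ C : ℝ≥0∞, C ≠ ∞ ∧ ∀ G : ℝ × ℝ → ℂ, Measurable G → (∀ x, ‖G x‖ ≤ 1) →
    P G → ∫⁻ ξ : E 3, ‖extn (up 1 (cdn b0 c G)) ξ‖ₑ ^ p ≤ C := by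
  obtain ⟨C, hC, H⟩ := multicut 3 le_rfl 3 (by norm_num)
    (fun g => ∃ G : ℝ × ℝ → ℂ, Measurable G ∧ (∀ x, ‖G x‖ ≤ 1) ∧ P G ∧
      g = hft_D (m := 2) c (cw b0 G) idM) (by
      intro p' hp'
      obtain ⟨C, hC, H⟩ := base3' b0 c hc P h p' hp'
      refine ⟨C, hC, ?_⟩
      rintro g - - ⟨G, hG, hb, hcls, rfl⟩
      exact H G hG hb hcls) 1 p hp
  refine ⟨C, hC, ?_⟩
  intro G hG hb hcls
  have key := H (hft_D (m := 2) c (cw b0 G) idM)
    (hft_D_meas c _ (cw_meas b0 G hG) idM) (hft_D_norm c _ (cw_norm b0 G 1 zero_le_one hb) idM)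
    ⟨G, hG, hb, hcls, rfl⟩ (fun _ => eLast 2) (fun _ => c)
  refine le_trans (le_of_eq ?_) key
  refine lintegral_congr fun ξ => ?_
  rw [up_eq' b0 c hc]

theorem sph3' (b0 c : ℝ) (hc : 0 < c) (P : (ℝ × ℝ → ℂ) → Prop) (h : L4P b0 c P) (p : ℝ)
    (hp : 3 < p) : ∃ C : ℝ≥0∞, C ≠ ∞ ∧ ∀ g : E 2 → ℂ, Measurable g → (∀ w, ‖g w‖ ≤ 1) →
      (∃ G : ℝ × ℝ → ℂ, Measurable G ∧ (∀ x, ‖G x‖ ≤ 1) ∧ P G ∧ g = cdn b0 c G) →
      ∫⁻ ξ : E 3, ‖extn (fun x : E 3 => g (fstE (k := 2) (l := 1) x)) ξ‖ₑ ^ p ≤ C := by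
  obtain ⟨C, hC, H⟩ := up3' b0 c hc P h p hp
  refine ⟨2 ^ (p + 1) * C, ENNReal.mul_ne_top (ENNReal.rpow_ne_top_of_nonneg (by linarith)
    ENNReal.ofNat_ne_top) hC, ?_⟩
  rintro g hg hgb ⟨G, hG, hb, hcls, rfl⟩
  have h3 := dens_le p (by linarith) 1 (cdn b0 c G) hg hgb
  have h4 : dens 1 (cdn b0 c G) = fun x : E 3 => cdn b0 c G (fstE (k := 2) (l := 1) x) := by
    funext x
    unfold dens
    rw [one_smul]
  rw [h4] at h3
  refine h3.trans ?_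
  gcongr
  exact H G hG hb hcls

theorem cdn_meas2 {W : Type*} [MeasurableSpace W] (l : ℕ) (b0 c : ℝ) (G : W → ℝ × ℝ → ℂ)
    (hG : Measurable fun q : W × ℝ × ℝ => G q.1 q.2) :
    Measurable fun q : W × E (2 + l) => cdn b0 c (G q.1) (fstE q.2) := by
  have a1 : Measurable fun q : W × E (2 + l) => (fstE q.2 : E 2) 0 := by
    unfold fstE
    fun_prop
  have a2 : Measurable fun q : W × E (2 + l) => (fstE q.2 : E 2) 1 := by
    unfold fstE
    fun_prop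
  have a3 : Measurable fun q : W × E (2 + l) => (fstE q.2 : E 2) := by
    unfold fstE
    fun_prop
  have b1 : Measurable fun q : W × E (2 + l) =>
      G q.1 ((fstE q.2 : E 2) 0, (fstE q.2 : E 2) 1) :=
    hG.comp (measurable_fst.prodMk (a1.prodMk a2))
  unfold cdn
  exact Measurable.ite (a3 (cdn_set b0 c)) b1 measurable_const

/-- The theorem for the class. -/
theorem main_P (l : ℕ) (hl : 1 ≤ l) (N : ℕ) (b0 c p : ℝ) (hc : 0 < c)
    (P : (ℝ × ℝ → ℂ) → Prop) (h : L4P b0 c P) (hp : 2 * ((l : ℝ) + 2) / (l + 1) < p) :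
    ∃ C : ℝ≥0∞, C ≠ ⊤ ∧ ∀ (W : Type) (_ : MeasurableSpace W) (ν : Measure W)
      (_ : IsFiniteMeasure ν) (R : W → (E (2 + l) ≃ₗᵢ[ℝ] E (2 + l))) (η : W → E (2 + l))
      (G : W → ℝ × ℝ → ℂ) (v : W → Fin N → E (2 + l)) (e : W → Fin N → ℝ),
      (Measurable fun q : W × E (2 + l) => R q.1 q.2) → Measurable η →
      (Measurable fun q : W × ℝ × ℝ => G q.1 q.2) → Measurable v → Measurable e →
      (∀ w x, ‖G w x‖ ≤ 1) → (∀ w, P (G w)) →
      ∫⁻ ξ, ‖extn (mix ν R η fun w x =>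
        cdn b0 c (G w) (fstE x) * ∏ i, hsn (e w i) (v w i) x) ξ‖ₑ ^ p ≤ C * ν univ ^ p := by
  obtain ⟨C, hC, H⟩ := transfer (fun g => ∃ G : ℝ × ℝ → ℂ, Measurable G ∧ (∀ x, ‖G x‖ ≤ 1) ∧
    P G ∧ g = cdn b0 c G) (fun p hp => sph3' b0 c hc P h p hp) l hl N p hp
  refine ⟨C, hC, ?_⟩
  intro W _ ν _ R η G v e hR hη hG hv he hb hcls
  have hp1 : 1 ≤ p := by
    have hl1 : (1:ℝ) ≤ l := by exact_mod_cast hl
    refine le_trans ?_ hp.le
    rw [le_div_iff₀ (by linarith)]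
    linarith
  refine lintegral_mix_le hp1 (fun g => ∃ (G : ℝ × ℝ → ℂ) (v' : Fin N → E (2 + l))
    (e' : Fin N → ℝ), Measurable G ∧ (∀ x, ‖G x‖ ≤ 1) ∧ P G ∧
    g = fun x => cdn b0 c G (fstE x) * ∏ i, hsn (e' i) (v' i) x) ?_ ν R η _ hR hη ?_ ?_ ?_
  · rintro g - - ⟨G', v', e', m1, n1, hc1, rfl⟩
    exact H (cdn b0 c G') (cdn_meas b0 c _ m1) (cdn_norm b0 c _ n1) ⟨G', m1, n1, hc1, rfl⟩ v' e'
  · have k1 := cdn_meas2 l b0 c G hG
    have k2 : Measurable fun q : W × E (2 + l) => ∏ i, hsn (e q.1 i) (v q.1 i) q.2 := by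
      refine Finset.measurable_prod _ fun i _ => ?_
      unfold hsn
      refine Measurable.ite ?_ measurable_const measurable_const
      have h3 : Measurable fun q : W × E (2 + l) => e q.1 i :=
        (measurable_pi_iff.1 he i).comp measurable_fst
      have h4 : Measurable fun q : W × E (2 + l) => v q.1 i :=
        (measurable_pi_iff.1 hv i).comp measurable_fst
      exact measurableSet_lt h3 (measurable_snd.inner h4)
    exact k1.mul k2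
  · intro w x
    rw [norm_mul]
    exact mul_le_one₀ (cdn_norm b0 c _ (hb w) _) (norm_nonneg _) (norm_prod_hsn_le _ _ _)
  · intro w
    exact ⟨G w, v w, e w, hG.comp (f := fun z : ℝ × ℝ => (w, z)) (by fun_prop), hb w, hcls w, rfl⟩

end Pool.Agent.SDT.N1

end -- N1.Y4

section -- N1.Y7

/-!
N1, block Y: the class of near Schur multipliers.
-/

namespace Pool.Agent.SDT.N1

open MeasureTheory Set Metric Pool.Agent.SDT.MP_6cbfb8_an Pool.Agent.SDT.MST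
open scoped ENNReal Real

/-- Approximation by combinations of products with coefficients growing slowly. -/
def LB (A : ℝ → ℝ) (G : ℝ × ℝ → ℂ) : Prop :=
  ∀ δ : ℝ, 0 < δ → ∀ N : ℕ, 1 ≤ N → AT (A δ * (N : ℝ) ^ δ) N G

theorem log_pow_le2 (M : ℕ) (δ : ℝ) (hδ : 0 < δ) : ∃ K : ℝ, 0 ≤ K ∧ ∀ T : ℝ, 1 ≤ T →
    (1 + Real.log T) ^ M ≤ K * T ^ δ := by
  obtain ⟨K, hK, H⟩ := log_pow_le' M (1 - δ) (by linarith)
  refine ⟨K, hK, fun T hT => ?_⟩
  have hT0 : 0 < T := by linarith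
  have h1 := H T hT
  rw [div_le_iff₀ hT0] at h1
  refine h1.trans (le_of_eq ?_)
  rw [mul_assoc, ← Real.rpow_add_one hT0.ne']
  congr 2
  ring

theorem one_le_rpowN (N : ℕ) (hN : 1 ≤ N) (δ : ℝ) (hδ : 0 ≤ δ) : 1 ≤ (N : ℝ) ^ δ :=
  Real.one_le_rpow (by exact_mod_cast hN) hδ

/-- Near Schur multipliers are approximated by combinations of products. -/
theorem NS_LB (A : ℝ → ℝ) : ∃ A' : ℝ → ℝ, ∀ G, NearSchur A G → LB A' G := by
  have hex : ∀ δ : ℝ, ∃ K : ℝ, 0 < δ → 0 ≤ K ∧ ∀ T : ℝ, 1 ≤ T →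
      (1 + Real.log T) ^ 2 ≤ K * T ^ (δ / 2) := by
    intro δ
    by_cases h : 0 < δ
    · obtain ⟨K, hK⟩ := log_pow_le2 2 (δ / 2) (by linarith)
      exact ⟨K, fun _ => hK⟩
    · exact ⟨0, fun h' => absurd h' h⟩
  choose K hK using hex
  refine ⟨fun δ => max 1 (A (δ / 4)) ^ 2 * (8 * Real.exp 32 + 2) * K δ, ?_⟩
  intro G hG δ hδ N hN
  obtain ⟨hK0, hK1⟩ := hK δ hδ
  have hN0 : (0:ℝ) < N := by exact_mod_cast hN
  have hN1 : (1:ℝ) ≤ N := by exact_mod_cast hN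
  obtain ⟨d, u, v, mu, mv, bu, bv, he⟩ := hG (δ / 4) (by linarith) N hN
  obtain ⟨m, hm⟩ : ∃ m : ℝ, m = max 1 (A (δ / 4)) := ⟨_, rfl⟩
  have hm1 : 1 ≤ m := by rw [hm]; exact le_max_left _ _
  have hmA : A (δ / 4) ≤ m := by rw [hm]; exact le_max_right _ _
  obtain ⟨B, hB⟩ : ∃ B : ℝ, B = m * (N : ℝ) ^ (δ / 4) := ⟨_, rfl⟩
  have hNp : 1 ≤ (N : ℝ) ^ (δ / 4) := one_le_rpowN N hN _ (by linarith)
  have hB1 : 1 ≤ B := by
    rw [hB]
    nlinarith
  have hAB : A (δ / 4) * (N : ℝ) ^ (δ / 4) ≤ B := by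
    rw [hB]
    exact mul_le_mul_of_nonneg_right hmA (by positivity)
  have hsq : ∀ (w : ℝ → EuclideanSpace ℂ (Fin d)), (∀ a, ‖w a‖ ≤ A (δ / 4) * (N : ℝ) ^ (δ / 4)) →
      ∀ a, ∑ i, ‖w a i‖ ^ 2 ≤ B ^ 2 := by
    intro w hw a
    rw [← EuclideanSpace.norm_sq_eq]
    exact pow_le_pow_left₀ (norm_nonneg _) ((hw a).trans hAB) 2
  have key := AT_schur (fun i a => (starRingEnd ℂ) (u a i)) (fun i b => v b i) ?_ ?_ B
    (by linarith) ?_ ?_ N hN G B (by linarith) ?_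
  · refine AT_mono ?_ key
    have h1 := hK1 N hN1
    have hl : 1 ≤ (1 + Real.log N) ^ 2 := one_le_pow₀ (by linarith [Real.log_nonneg hN1])
    have hBB : B ^ 2 = m ^ 2 * (N : ℝ) ^ (δ / 2) := by
      rw [hB, mul_pow, ← Real.rpow_natCast ((N:ℝ) ^ (δ / 4)) 2, ← Real.rpow_mul hN0.le]
      congr 2
      push_cast
      ring
    have hNN : (N : ℝ) ^ (δ / 2) * (N : ℝ) ^ (δ / 2) = (N : ℝ) ^ δ := by
      rw [← Real.rpow_add hN0]
      congr 1
      ring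
    have hB2 : B ≤ B ^ 2 * (1 + Real.log N) ^ 2 := by
      have : B ≤ B ^ 2 := by nlinarith
      exact this.trans (le_mul_of_one_le_right (by positivity) hl)
    calc B + (8 * Real.exp 32 + 1) * B ^ 2 * (1 + Real.log N) ^ 2
        ≤ B ^ 2 * (1 + Real.log N) ^ 2 + (8 * Real.exp 32 + 1) * B ^ 2 * (1 + Real.log N) ^ 2 := by
          linarith
      _ = (8 * Real.exp 32 + 2) * B ^ 2 * (1 + Real.log N) ^ 2 := by ring
      _ ≤ (8 * Real.exp 32 + 2) * B ^ 2 * (K δ * (N : ℝ) ^ (δ / 2)) :=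
          mul_le_mul_of_nonneg_left h1 (by positivity)
      _ = m ^ 2 * (8 * Real.exp 32 + 2) * K δ * ((N : ℝ) ^ (δ / 2) * (N : ℝ) ^ (δ / 2)) := by
          rw [hBB]
          ring
      _ = m ^ 2 * (8 * Real.exp 32 + 2) * K δ * (N : ℝ) ^ δ := by rw [hNN]
      _ = _ := by rw [hm]
  · intro i
    have h1 : Measurable fun a : ℝ => u a i :=
      (measurable_pi_iff.1 ((PiLp.continuous_ofLp 2 _).measurable.comp mu)) i
    exact (continuous_star (R := ℂ)).measurable.comp h1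
  · intro i
    exact (measurable_pi_iff.1 ((PiLp.continuous_ofLp 2 _).measurable.comp mv)) i
  · intro a
    simp only [RCLike.norm_conj]
    exact hsq u bu a
  · intro b
    exact hsq v bv b
  · refine le_trans (le_of_eq ?_) (he.trans ?_)
    · refine lintegral_congr fun x => ?_
      congr 2
      rw [PiLp.inner_apply]
      refine Finset.sum_congr rfl fun i _ => ?_
      rw [RCLike.inner_apply]
      ring
    · apply ENNReal.ofReal_le_ofReal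
      exact div_le_div_of_nonneg_right hAB hN0.le

/-- The converse. -/
theorem LB_NS (A : ℝ → ℝ) (G : ℝ × ℝ → ℂ) (h : LB A G) :
    NearSchur (fun δ => max 1 (A δ)) G := by
  intro δ hδ N hN
  have hN0 : (0:ℝ) < N := by exact_mod_cast hN
  obtain ⟨Q, hQ⟩ : ∃ Q : ℝ, Q = max 1 (A δ) * (N : ℝ) ^ δ := ⟨_, rfl⟩
  have hNp : 1 ≤ (N : ℝ) ^ δ := one_le_rpowN N hN _ hδ.le
  have hm1 : 1 ≤ max 1 (A δ) := le_max_left _ _
  have hQ1 : 1 ≤ Q := by
    rw [hQ]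
    nlinarith
  have hAQ : A δ * (N : ℝ) ^ δ ≤ Q := by
    rw [hQ]
    exact mul_le_mul_of_nonneg_right (le_max_right _ _) (by positivity)
  obtain ⟨ι, inst, c, α, β, m1, m2, b1, b2, hc, he⟩ := AT_mono hAQ (h δ hδ N hN)
  simp only
  rw [← hQ]
  set eq := Fintype.equivFin ι with heq
  have hsq : ∀ i : ι, (√‖c i‖) ^ 2 = ‖c i‖ := fun i => Real.sq_sqrt (norm_nonneg _)
  have hsum : ∀ (w : ι → ℝ), (∀ i, w i ^ 2 ≤ ‖c i‖) →
      ∑ k : Fin (Fintype.card ι), w (eq.symm k) ^ 2 ≤ Q := by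
    intro w hw
    calc ∑ k : Fin (Fintype.card ι), w (eq.symm k) ^ 2
        = ∑ i : ι, w i ^ 2 := Equiv.sum_comp eq.symm (fun i => w i ^ 2)
      _ ≤ ∑ i, ‖c i‖ := Finset.sum_le_sum fun i _ => hw i
      _ ≤ Q := hc
  have hle : ∀ z : EuclideanSpace ℂ (Fin (Fintype.card ι)), ‖z‖ ^ 2 ≤ Q → ‖z‖ ≤ Q := by
    intro z hz
    by_contra hcon
    push Not at hcon
    nlinarith
  refine ⟨Fintype.card ι,
    fun a => WithLp.toLp 2 fun k => (starRingEnd ℂ) (c (eq.symm k) / (√‖c (eq.symm k)‖ : ℝ) *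
      α (eq.symm k) a),
    fun b => WithLp.toLp 2 fun k => ((√‖c (eq.symm k)‖ : ℝ) : ℂ) * β (eq.symm k) b,
    ?_, ?_, ?_, ?_, ?_⟩
  · refine (PiLp.continuous_toLp 2 _).measurable.comp (measurable_pi_iff.2 fun k => ?_)
    exact (continuous_star (R := ℂ)).measurable.comp (measurable_const.mul (m1 _))
  · refine (PiLp.continuous_toLp 2 _).measurable.comp (measurable_pi_iff.2 fun k => ?_)
    exact measurable_const.mul (m2 _)
  · intro a
    apply hle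
    rw [EuclideanSpace.norm_sq_eq]
    refine le_trans (Finset.sum_le_sum fun k _ => ?_) (hsum (fun i => √‖c i‖) fun i => (hsq i).le)
    simp only [RCLike.norm_conj]
    apply pow_le_pow_left₀ (norm_nonneg _)
    rw [norm_mul, norm_div, Complex.norm_real, Real.norm_eq_abs,
      abs_of_nonneg (Real.sqrt_nonneg _), Real.div_sqrt]
    exact mul_le_of_le_one_right (Real.sqrt_nonneg _) (b1 _ _)
  · intro b
    apply hle
    rw [EuclideanSpace.norm_sq_eq]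
    refine le_trans (Finset.sum_le_sum fun k _ => ?_) (hsum (fun i => √‖c i‖) fun i => (hsq i).le)
    simp only
    apply pow_le_pow_left₀ (norm_nonneg _)
    rw [norm_mul, Complex.norm_real, Real.norm_eq_abs, abs_of_nonneg (Real.sqrt_nonneg _)]
    exact mul_le_of_le_one_right (Real.sqrt_nonneg _) (b2 _ _)
  · refine le_trans (le_of_eq ?_) he
    refine lintegral_congr fun x => ?_
    congr 2
    rw [PiLp.inner_apply, ← Equiv.sum_comp eq.symm (fun i => c i * (α i x.1 * β i x.2))]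
    refine Finset.sum_congr rfl fun k _ => ?_
    rw [RCLike.inner_apply]
    simp only [Complex.conj_conj]
    by_cases h0 : c (eq.symm k) = 0
    · rw [h0]
      simp
    · have h1 : ((√‖c (eq.symm k)‖ : ℝ) : ℂ) ≠ 0 := by
        have : 0 < √‖c (eq.symm k)‖ := Real.sqrt_pos.2 (norm_pos_iff.2 h0)
        exact_mod_cast this.ne'
      field_simp

/-- Products. -/
theorem LB_mul (A A' : ℝ → ℝ) : ∃ A'' : ℝ → ℝ, ∀ G G' : ℝ × ℝ → ℂ, LB A G → LB A' G' →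
    Measurable G → Measurable G' → (∀ x, ‖G x‖ ≤ 1) → LB A'' fun x => G x * G' x := by
  refine ⟨fun δ => |A (δ / 2)| * |A' (δ / 2)| + |A' (δ / 2)|, ?_⟩
  intro G G' h h' mG mG' hG δ hδ N hN
  have hN0 : (0:ℝ) < N := by exact_mod_cast hN
  have h1 := h (δ / 2) (by linarith) N hN
  have h1' := h' (δ / 2) (by linarith) N hN
  have hp : 0 ≤ (N:ℝ) ^ (δ / 2) := by positivity
  have h2 : A (δ / 2) * (N:ℝ) ^ (δ / 2) ≤ |A (δ / 2)| * (N:ℝ) ^ (δ / 2) :=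
    mul_le_mul_of_nonneg_right (le_abs_self _) hp
  have h2' : A' (δ / 2) * (N:ℝ) ^ (δ / 2) ≤ |A' (δ / 2)| * (N:ℝ) ^ (δ / 2) :=
    mul_le_mul_of_nonneg_right (le_abs_self _) hp
  have h3 := AT_mul (by positivity) (by positivity) (AT_mono h2 h1) (AT_mono h2' h1') mG mG' hG
  refine AT_mono ?_ h3
  have hNN : (N : ℝ) ^ (δ / 2) * (N : ℝ) ^ (δ / 2) = (N : ℝ) ^ δ := by
    rw [← Real.rpow_add hN0]
    congr 1
    ring
  have hle : (N : ℝ) ^ (δ / 2) ≤ (N : ℝ) ^ δ := by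
    apply Real.rpow_le_rpow_of_exponent_le (by exact_mod_cast hN)
    linarith
  calc |A (δ / 2)| * (N:ℝ) ^ (δ / 2) * (|A' (δ / 2)| * (N:ℝ) ^ (δ / 2)) +
        |A' (δ / 2)| * (N:ℝ) ^ (δ / 2)
      = |A (δ / 2)| * |A' (δ / 2)| * ((N : ℝ) ^ (δ / 2) * (N : ℝ) ^ (δ / 2)) +
        |A' (δ / 2)| * (N:ℝ) ^ (δ / 2) := by ring
    _ = |A (δ / 2)| * |A' (δ / 2)| * (N : ℝ) ^ δ + |A' (δ / 2)| * (N:ℝ) ^ (δ / 2) := by rw [hNN]
    _ ≤ |A (δ / 2)| * |A' (δ / 2)| * (N : ℝ) ^ δ + |A' (δ / 2)| * (N:ℝ) ^ δ := by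
        gcongr
    _ = (|A (δ / 2)| * |A' (δ / 2)| + |A' (δ / 2)|) * (N : ℝ) ^ δ := by ring

theorem LB_swap (A : ℝ → ℝ) (G : ℝ × ℝ → ℂ) (h : LB A G) : LB A fun x => G x.swap :=
  fun δ hδ N hN => AT_swap (h δ hδ N hN)

theorem LB_one : LB (fun _ => 1) fun _ => 1 := by
  intro δ hδ N hN
  refine AT_mono ?_ (AT_one N)
  rw [one_mul]
  exact one_le_rpowN N hN _ hδ.le


end Pool.Agent.SDT.N1

end -- N1.Y7

section -- N1S.S1

/-!
N1S: the whole sphere. Part 1: the amplitudes of the strips and elementary bounds.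
-/

namespace Pool.Agent.SDT.N1S

open MeasureTheory Set Metric Pool.Agent.SDT.MP_6cbfb8_an Pool.Agent.SDT.MST Pool.Agent.SDT.N1
open scoped ENNReal Real

/-- The size of the strip of index `j`. -/
noncomputable def cj (c0 : ℝ) (j : ℕ) : ℝ := c0 / 2 ^ j

/-- The cut-off of the strip of index `j`, as a function of the height. -/
noncomputable def bj (c0 : ℝ) : ℕ → ℝ → ℝ
  | 0, x => hft_b c0 x
  | j + 1, x => hft_b (cj c0 (j + 1)) x - hft_b (cj c0 j) x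

/-- The amplitude of the strip of index `j`. -/
noncomputable def aj (c0 : ℝ) (j : ℕ) (v : ℝ) : ℝ := bj c0 j √v / √v

theorem cj_pos {c0 : ℝ} (hc : 0 < c0) (j : ℕ) : 0 < cj c0 j := by
  unfold cj
  positivity

theorem cj_succ (c0 : ℝ) (j : ℕ) : cj c0 j = 2 * cj c0 (j + 1) := by
  unfold cj
  rw [pow_succ]
  field_simp

theorem cj_zero (c0 : ℝ) : cj c0 0 = c0 := by
  unfold cj
  simp

theorem bj_meas (c0 : ℝ) (j : ℕ) : Measurable (bj c0 j) := by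
  cases j with
  | zero => exact (hft_b_smooth c0 0).continuous.measurable
  | succ j =>
    exact (hft_b_smooth _ 0).continuous.measurable.sub (hft_b_smooth _ 0).continuous.measurable

theorem bj_abs (c0 : ℝ) (hc : 0 < c0) (j : ℕ) (x : ℝ) : |bj c0 j x| ≤ 1 := by
  cases j with
  | zero => exact hft_b_abs _ _
  | succ j =>
    have h1 : ∀ c x : ℝ, 0 ≤ hft_b c x ∧ hft_b c x ≤ 1 := by
      intro c x
      exact ⟨Real.smoothTransition.nonneg _, Real.smoothTransition.le_one _⟩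
    show |hft_b (cj c0 (j + 1)) x - hft_b (cj c0 j) x| ≤ 1
    rw [abs_le]
    constructor
    · linarith [(h1 (cj c0 (j + 1)) x).1, (h1 (cj c0 j) x).2]
    · linarith [(h1 (cj c0 (j + 1)) x).2, (h1 (cj c0 j) x).1]

/-- The support of the cut-off. -/
theorem bj_supp (c0 : ℝ) (hc : 0 < c0) (j : ℕ) (x : ℝ) (h : bj c0 j x ≠ 0) :
    cj c0 j / 2 < x ∧ (j ≠ 0 → x < 2 * cj c0 j) := by
  cases j with
  | zero =>
    refine ⟨?_, fun h0 => absurd rfl h0⟩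
    by_contra h1
    push Not at h1
    rw [cj_zero] at h1
    exact h (hft_b_zero hc h1)
  | succ j =>
    have h2 := cj_succ c0 j
    have h3 := cj_pos hc (j + 1)
    refine ⟨?_, fun _ => ?_⟩
    · by_contra h1
      push Not at h1
      apply h
      show hft_b (cj c0 (j + 1)) x - hft_b (cj c0 j) x = 0
      rw [hft_b_zero h3 h1, hft_b_zero (cj_pos hc j) (by linarith), sub_zero]
    · by_contra h1
      push Not at h1
      apply h
      show hft_b (cj c0 (j + 1)) x - hft_b (cj c0 j) x = 0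
      rw [hft_b_one h3 (by linarith), hft_b_one (cj_pos hc j) (by linarith), sub_self]

theorem aj_meas (c0 : ℝ) (j : ℕ) : Measurable (aj c0 j) := by
  unfold aj
  exact ((bj_meas c0 j).comp (Real.continuous_sqrt.measurable)).div Real.continuous_sqrt.measurable

theorem aj_supp (c0 : ℝ) (hc : 0 < c0) (j : ℕ) (v : ℝ) (h : aj c0 j v ≠ 0) :
    cj c0 j ^ 2 / 4 < v ∧ (j ≠ 0 → v < 4 * cj c0 j ^ 2) := by
  have h3 := cj_pos hc j
  have h0 : bj c0 j √v ≠ 0 := by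
    intro h1
    apply h
    unfold aj
    rw [h1, zero_div]
  obtain ⟨h1, h2⟩ := bj_supp c0 hc j _ h0
  constructor
  · have h4 : (cj c0 j / 2) ^ 2 < √v ^ 2 := by
      apply pow_lt_pow_left₀ h1 (by positivity) (by norm_num)
    have h5 : 0 < v := by
      by_contra h6
      push Not at h6
      rw [Real.sqrt_eq_zero_of_nonpos h6] at h1
      linarith
    rw [Real.sq_sqrt h5.le] at h4
    linarith
  · intro hj
    have h4 := h2 hj
    rw [Real.sqrt_lt' (by positivity)] at h4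
    linarith

theorem aj_abs (c0 : ℝ) (hc : 0 < c0) (j : ℕ) (v : ℝ) : |aj c0 j v| ≤ 2 / cj c0 j := by
  have h3 := cj_pos hc j
  by_cases h : bj c0 j √v = 0
  · unfold aj
    rw [h, zero_div, abs_zero]
    positivity
  · obtain ⟨h1, -⟩ := bj_supp c0 hc j _ h
    have h4 : 0 < √v := by linarith
    unfold aj
    rw [abs_div, abs_of_pos h4]
    calc |bj c0 j √v| / √v ≤ 1 / √v := div_le_div_of_nonneg_right (bj_abs c0 hc j _) h4.le
      _ ≤ 1 / (cj c0 j / 2) := one_div_le_one_div_of_le (by positivity) h1.le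
      _ = 2 / cj c0 j := by rw [one_div_div]

/-- The support of the strip in the plane. -/
def Sj (c0 : ℝ) (j : ℕ) : Set (E 2) := {w | aj c0 j (vN idM w) ≠ 0}

theorem vN_cont : Continuous fun w : E 2 => vN idM w := by
  have h : (fun w : E 2 => vN idM w) = fun w => 1 - w 0 ^ 2 - w 1 ^ 2 := by
    funext w
    exact vN_idM w
  rw [h]
  fun_prop

theorem Sj_meas (c0 : ℝ) (j : ℕ) : MeasurableSet (Sj c0 j) := by
  have h1 : Measurable fun w : E 2 => aj c0 j (vN idM w) := (aj_meas c0 j).comp vN_cont.measurable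
  exact (h1 (measurableSet_singleton (0:ℝ))).compl

theorem Sj_sub (c0 : ℝ) (hc : 0 < c0) (j : ℕ) : Sj c0 j ⊆ Qsq := by
  intro w hw
  have h1 := (aj_supp c0 hc j _ hw).1
  rw [vN_idM] at h1
  have h2 : 0 < cj c0 j ^ 2 / 4 := by
    have := cj_pos hc j
    positivity
  have h5 : w 0 ^ 2 + w 1 ^ 2 < 1 := by linarith
  refine ⟨abs_le.1 ?_, abs_le.1 ?_⟩
  · rw [abs_le_one_iff_mul_self_le_one]
    nlinarith [sq_nonneg (w 1)]
  · rw [abs_le_one_iff_mul_self_le_one]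
    nlinarith [sq_nonneg (w 0)]

/-- The area of the strip. -/
theorem Sj_vol (c0 : ℝ) (hc : 0 < c0) (hc1 : c0 ≤ 1) (j : ℕ) :
    volume (Sj c0 j) ≤ ENNReal.ofReal (16 / 4 ^ j) := by
  have hc3 := cj_pos hc j
  have hpi := Real.pi_lt_four
  have hpi0 := Real.pi_pos
  have hb : ∀ r : ℝ, 0 ≤ r → volume (ball (0 : E 2) r) = ENNReal.ofReal (π * r ^ 2) := by
    intro r hr
    rw [EuclideanSpace.volume_ball_fin_two, ← ENNReal.ofReal_pow hr,
      ← ENNReal.ofReal_mul (by positivity), mul_comm]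
  have hn : ∀ w : E 2, vN idM w = 1 - ‖w‖ ^ 2 := by
    intro w
    unfold vN
    rw [mv_idM]
  by_cases hj : j = 0
  · subst hj
    have h1 : Sj c0 0 ⊆ ball 0 1 := by
      intro w hw
      have h2 := (aj_supp c0 hc 0 _ hw).1
      rw [hn] at h2
      rw [mem_ball_zero_iff]
      have h3 : 0 < cj c0 0 ^ 2 / 4 := by positivity
      have h4 : ‖w‖ ^ 2 < 1 := by linarith
      nlinarith [norm_nonneg w]
    refine (measure_mono h1).trans ?_
    rw [hb 1 zero_le_one]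
    apply ENNReal.ofReal_le_ofReal
    norm_num
    linarith
  · obtain ⟨c, hcc⟩ : ∃ c, c = cj c0 j := ⟨_, rfl⟩
    have hc4 : c ≤ 1 / 2 ^ j := by
      rw [hcc]
      unfold cj
      gcongr
    have hc5 : 0 < c := by rw [hcc]; exact hc3
    obtain ⟨r1, hr1⟩ : ∃ r1, r1 = √(1 - c ^ 2 / 4) := ⟨_, rfl⟩
    obtain ⟨r2, hr2⟩ : ∃ r2, r2 = √(1 - 4 * c ^ 2) := ⟨_, rfl⟩
    have hr1' : r1 ^ 2 ≤ 1 := by
      rw [hr1]
      rcases le_total 0 (1 - c ^ 2 / 4) with h | h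
      · rw [Real.sq_sqrt h]
        nlinarith [sq_nonneg c]
      · rw [Real.sqrt_eq_zero_of_nonpos h]
        norm_num
    have hr2' : 1 - 4 * c ^ 2 ≤ r2 ^ 2 := by
      rw [hr2]
      rcases le_total 0 (1 - 4 * c ^ 2) with h | h
      · rw [Real.sq_sqrt h]
      · nlinarith [sq_nonneg (√(1 - 4 * c ^ 2))]
    have hr12 : r2 ≤ r1 := by
      rw [hr1, hr2]
      apply Real.sqrt_le_sqrt
      nlinarith [sq_nonneg c]
    have hr20 : 0 ≤ r2 := by rw [hr2]; exact Real.sqrt_nonneg _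
    have hr10 : 0 ≤ r1 := by rw [hr1]; exact Real.sqrt_nonneg _
    have h1 : Sj c0 j ⊆ ball 0 r1 \ ball 0 r2 := by
      intro w hw
      obtain ⟨h2, h3⟩ := aj_supp c0 hc j _ hw
      have h3 := h3 hj
      rw [hn, ← hcc] at h2 h3
      constructor
      · rw [mem_ball_zero_iff, hr1]
        apply Real.lt_sqrt_of_sq_lt
        linarith
      · rw [mem_ball_zero_iff, not_lt, hr2]
        rw [Real.sqrt_le_left (norm_nonneg _)]
        linarith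
    refine (measure_mono h1).trans ?_
    rw [measure_sdiff (ball_subset_ball hr12) measurableSet_ball.nullMeasurableSet
      measure_ball_lt_top.ne, hb r1 hr10, hb r2 hr20, ← ENNReal.ofReal_sub _ (by positivity)]
    apply ENNReal.ofReal_le_ofReal
    have h5 : c ^ 2 ≤ 1 / 4 ^ j := by
      have h6 : c ^ 2 ≤ (1 / 2 ^ j) ^ 2 := pow_le_pow_left₀ hc5.le hc4 2
      refine h6.trans (le_of_eq ?_)
      rw [div_pow, one_pow, ← pow_mul, mul_comm j 2, pow_mul]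
      norm_num
    calc π * r1 ^ 2 - π * r2 ^ 2 ≤ π * (4 * c ^ 2) := by nlinarith
      _ ≤ 4 * (4 * c ^ 2) := by
          apply mul_le_mul_of_nonneg_right hpi.le (by positivity)
      _ ≤ 16 / 4 ^ j := by
          have : 4 * (4 * c ^ 2) = 16 * c ^ 2 := by ring
          rw [this]
          calc 16 * c ^ 2 ≤ 16 * (1 / 4 ^ j) := by gcongr
            _ = 16 / 4 ^ j := by ring

end Pool.Agent.SDT.N1S

end -- N1S.S1

section -- N1S.S2

/-!
N1S, part 2: elementary bounds for the extension operator of a strip.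
-/

namespace Pool.Agent.SDT.N1S

open MeasureTheory Set Metric Pool.Agent.SDT.MP_6cbfb8_an Pool.Agent.SDT.MST Pool.Agent.SDT.N1
open scoped ENNReal Real

variable (c0 : ℝ) (j : ℕ)

theorem amj_meas2 : Measurable fun q : ℝ × E 2 => amp2 (aj c0 j) idM q.1 q.2 := by
  unfold amp2
  have h1 : Measurable fun q : ℝ × E 2 => vN idM q.2 := vN_cont.measurable.comp measurable_snd
  have h2 : Measurable fun q : ℝ × E 2 => aj c0 j (vN idM q.2) := (aj_meas c0 j).comp h1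
  have h3 : Measurable fun q : ℝ × E 2 => q.1 * √(vN idM q.2) :=
    measurable_fst.mul (Real.continuous_sqrt.measurable.comp h1)
  exact (Complex.measurable_ofReal.comp h2).mul (ho2_ex_meas.comp h3)

theorem amj_meas (t : ℝ) : Measurable fun w : E 2 => amp2 (aj c0 j) idM t w :=
  (amj_meas2 c0 j).comp (f := fun w : E 2 => (t, w)) (by fun_prop)

theorem amj_bdd (hc : 0 < c0) (t : ℝ) (w : E 2) :
    ‖amp2 (aj c0 j) idM t w‖ ≤ (Sj c0 j).indicator (fun _ => 2 / cj c0 j) w := by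
  have h1 : amp2 (aj c0 j) idM t w =
      ((aj c0 j (vN idM w) : ℝ) : ℂ) * ex (t * √(vN idM w)) := rfl
  by_cases hw : w ∈ Sj c0 j
  · rw [indicator_of_mem hw, h1, norm_mul, ho2_ex, mul_one, Complex.norm_real, Real.norm_eq_abs]
    exact aj_abs c0 hc j _
  · rw [indicator_of_notMem hw, h1]
    have h2 : aj c0 j (vN idM w) = 0 := by
      by_contra h3
      exact hw h3
    rw [h2]
    simp

theorem Sj_fin (hc : 0 < c0) : volume (Sj c0 j) ≠ ∞ :=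
  ((measure_mono (Sj_sub c0 hc j)).trans_lt Qsq_fin.lt_top).ne

theorem opj_int (hc : 0 < c0) (g : E 2 → ℂ) (hg : Measurable g) (B : ℝ)
    (hB : ∀ w, ‖g w‖ ≤ B) (t : ℝ) : Integrable fun w : E 2 => g w * amp2 (aj c0 j) idM t w := by
  have hB0 : 0 ≤ B := (norm_nonneg _).trans (hB 0)
  have hint : Integrable ((Sj c0 j).indicator fun _ => B * (2 / cj c0 j)) :=
    (integrable_indicator_iff (Sj_meas c0 j)).2 (integrableOn_const (Sj_fin c0 j hc))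
  refine hint.mono' (hg.mul (amj_meas c0 j t)).aestronglyMeasurable
    (Filter.Eventually.of_forall fun w => ?_)
  rw [norm_mul]
  have h1 := amj_bdd c0 j hc t w
  by_cases hw : w ∈ Sj c0 j
  · rw [indicator_of_mem hw] at h1 ⊢
    exact mul_le_mul (hB w) h1 (norm_nonneg _) hB0
  · rw [indicator_of_notMem hw] at h1 ⊢
    have : ‖amp2 (aj c0 j) idM t w‖ = 0 := le_antisymm h1 (norm_nonneg _)
    rw [this, mul_zero]

theorem opj_int2 (hc : 0 < c0) (g : E 2 → ℂ) (hg : Measurable g) (B : ℝ)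
    (hB : ∀ w, ‖g w‖ ≤ B) (t : ℝ) (x : E 2) :
    Integrable fun w : E 2 => g w * amp2 (aj c0 j) idM t w * ex (inner ℝ w x) := by
  have h1 := opj_int c0 j hc g hg B hB t
  refine h1.mul_bdd (c := 1) ?_ ?_
  · have : Measurable fun w : E 2 => ex (inner ℝ w x) :=
      ho2_ex_meas.comp (measurable_id.inner measurable_const)
    exact this.aestronglyMeasurable
  · exact Filter.Eventually.of_forall fun w => (ho2_ex _).le

/-- Linearity. -/
theorem opj_lin (hc : 0 < c0) {ι : Type} [Fintype ι] (b : ι → ℂ) (g : ι → E 2 → ℂ)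
    (e : E 2 → ℂ) (hg : ∀ i, Measurable (g i)) (he : Measurable e) (B : ℝ)
    (hB : ∀ i w, ‖g i w‖ ≤ B) (B' : ℝ) (hB' : ∀ w, ‖e w‖ ≤ B') (t : ℝ) (x : E 2) :
    op2 (aj c0 j) idM t (fun w => ∑ i, b i * g i w + e w) x =
      ∑ i, b i * op2 (aj c0 j) idM t (g i) x + op2 (aj c0 j) idM t e x := by
  unfold op2
  have h1 : ∀ i, Integrable fun w : E 2 =>
      b i * (g i w * amp2 (aj c0 j) idM t w * ex (inner ℝ w x)) := fun i =>
    (opj_int2 c0 j hc (g i) (hg i) B (hB i) t x).const_mul _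
  have h2 := opj_int2 c0 j hc e he B' hB' t x
  have h3 : (fun w : E 2 => (∑ i, b i * g i w + e w) * amp2 (aj c0 j) idM t w *
      ex (inner ℝ w x)) = fun w => (∑ i, b i * (g i w * amp2 (aj c0 j) idM t w *
      ex (inner ℝ w x))) + e w * amp2 (aj c0 j) idM t w * ex (inner ℝ w x) := by
    funext w
    rw [add_mul, add_mul, Finset.sum_mul, Finset.sum_mul]
    congr 1
    refine Finset.sum_congr rfl fun i _ => ?_
    ring
  rw [h3, integral_add (integrable_finsetSum _ fun i _ => h1 i) h2,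
    integral_finsetSum _ fun i _ => h1 i]
  congr 1
  refine Finset.sum_congr rfl fun i _ => ?_
  rw [integral_const_mul]

/-- Bounds by the mean of the density. -/
theorem opj_small (hc : 0 < c0) (t : ℝ) (g : E 2 → ℂ) (hg : Measurable g)
    (B : ℝ) (hB : ∀ w, ‖g w‖ ≤ B) :
    (∀ x, ‖op2 (aj c0 j) idM t g x‖ₑ ≤
      ENNReal.ofReal (2 / cj c0 j) * ∫⁻ w in Sj c0 j, ‖g w‖ₑ) ∧
    ∫⁻ x, ‖op2 (aj c0 j) idM t g x‖ₑ ^ (2:ℝ) ≤
      ENNReal.ofReal ((2 / cj c0 j) ^ 2) * (ENNReal.ofReal B * ∫⁻ w in Sj c0 j, ‖g w‖ₑ) := by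
  have hc3 := cj_pos hc j
  obtain ⟨A, hA⟩ : ∃ A : ℝ, A = 2 / cj c0 j := ⟨_, rfl⟩
  have hA0 : 0 < A := by rw [hA]; positivity
  rw [← hA]
  have hpt : ∀ w, ‖g w * amp2 (aj c0 j) idM t w‖ₑ ≤
      (Sj c0 j).indicator (fun w => ENNReal.ofReal A * ‖g w‖ₑ) w := by
    intro w
    have h1 := amj_bdd c0 j hc t w
    rw [← hA] at h1
    by_cases hw : w ∈ Sj c0 j
    · rw [indicator_of_mem hw] at h1 ⊢
      rw [enorm_mul, mul_comm]
      refine mul_le_mul_left ?_ _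
      rw [← ofReal_norm]
      exact ENNReal.ofReal_le_ofReal h1
    · rw [indicator_of_notMem hw] at h1 ⊢
      have : amp2 (aj c0 j) idM t w = 0 := by
        rw [← norm_le_zero_iff]
        exact h1
      rw [this]
      simp
  constructor
  · intro x
    unfold op2
    calc ‖∫ w : E 2, g w * amp2 (aj c0 j) idM t w * ex (inner ℝ w x)‖ₑ
        ≤ ∫⁻ w : E 2, ‖g w * amp2 (aj c0 j) idM t w * ex (inner ℝ w x)‖ₑ :=
          enorm_integral_le_lintegral_enorm _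
      _ = ∫⁻ w : E 2, ‖g w * amp2 (aj c0 j) idM t w‖ₑ := by
          refine lintegral_congr fun w => ?_
          rw [enorm_mul, ← ofReal_norm (ex _), ho2_ex, ENNReal.ofReal_one, mul_one]
      _ ≤ ∫⁻ w : E 2, (Sj c0 j).indicator (fun w => ENNReal.ofReal A * ‖g w‖ₑ) w :=
          lintegral_mono hpt
      _ = ENNReal.ofReal A * ∫⁻ w in Sj c0 j, ‖g w‖ₑ := by
          rw [lintegral_indicator (Sj_meas c0 j), lintegral_const_mul _ hg.enorm]
  · have hF := opj_int c0 j hc g hg B hB t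
    have hBe := bessel (volume : Measure (E 2)) (fun w : E 2 => w) measurable_id 1
      ENNReal.one_ne_top (fun φ _ => by simp) (fun w : E 2 => g w * amp2 (aj c0 j) idM t w) hF
    rw [one_mul] at hBe
    refine le_trans (le_of_eq ?_) (hBe.trans ?_)
    · rfl
    · calc ∫⁻ w : E 2, ‖g w * amp2 (aj c0 j) idM t w‖ₑ ^ (2:ℝ)
          ≤ ∫⁻ w : E 2, (Sj c0 j).indicator
              (fun w => ENNReal.ofReal (A ^ 2) * (ENNReal.ofReal B * ‖g w‖ₑ)) w := by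
            refine lintegral_mono fun w => ?_
            have h1 := hpt w
            by_cases hw : w ∈ Sj c0 j
            · rw [indicator_of_mem hw] at h1 ⊢
              have h2 : ‖g w‖ₑ ≤ ENNReal.ofReal B := by
                rw [← ofReal_norm]
                exact ENNReal.ofReal_le_ofReal (hB w)
              calc ‖g w * amp2 (aj c0 j) idM t w‖ₑ ^ (2:ℝ)
                  ≤ (ENNReal.ofReal A * ‖g w‖ₑ) ^ (2:ℝ) := ENNReal.rpow_le_rpow h1 (by norm_num)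
                _ = (ENNReal.ofReal A * ‖g w‖ₑ) ^ 2 := by
                    exact_mod_cast ENNReal.rpow_natCast _ 2
                _ = ENNReal.ofReal (A ^ 2) * (‖g w‖ₑ * ‖g w‖ₑ) := by
                    rw [ENNReal.ofReal_pow hA0.le]
                    ring
                _ ≤ ENNReal.ofReal (A ^ 2) * (ENNReal.ofReal B * ‖g w‖ₑ) := by
                    gcongr
            · rw [indicator_of_notMem hw] at h1 ⊢
              have h2 : ‖g w * amp2 (aj c0 j) idM t w‖ₑ = 0 := le_antisymm h1 zero_le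
              rw [h2, ENNReal.zero_rpow_of_pos (by norm_num)]
        _ = ENNReal.ofReal (A ^ 2) * (ENNReal.ofReal B * ∫⁻ w in Sj c0 j, ‖g w‖ₑ) := by
            rw [lintegral_indicator (Sj_meas c0 j), lintegral_const_mul _ (hg.enorm.const_mul _),
              lintegral_const_mul _ hg.enorm]

/-- Bounds for densities bounded by `1`. -/
theorem opj_one (hc : 0 < c0) (hc1 : c0 ≤ 1) (t : ℝ) (g : E 2 → ℂ) (hg : Measurable g)
    (hB : ∀ w, ‖g w‖ ≤ 1) :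
    (∀ x, ‖op2 (aj c0 j) idM t g x‖ₑ ≤ ENNReal.ofReal (32 / c0 / 2 ^ j)) ∧
    ∫⁻ x, ‖op2 (aj c0 j) idM t g x‖ₑ ^ (2:ℝ) ≤ ENNReal.ofReal (64 / c0 ^ 2) := by
  have hc3 := cj_pos hc j
  obtain ⟨h1, h2⟩ := opj_small c0 j hc t g hg 1 hB
  have h3 : ∫⁻ w in Sj c0 j, ‖g w‖ₑ ≤ ENNReal.ofReal (16 / 4 ^ j) := by
    calc ∫⁻ w in Sj c0 j, ‖g w‖ₑ ≤ ∫⁻ _w in Sj c0 j, 1 := by
          refine lintegral_mono fun w => ?_
          rw [← ofReal_norm]
          exact ENNReal.ofReal_le_one.2 (hB w)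
      _ = volume (Sj c0 j) := by rw [setLIntegral_one]
      _ ≤ _ := Sj_vol c0 hc hc1 j
  have h4 : (4:ℝ) ^ j = 2 ^ j * 2 ^ j := by
    rw [← mul_pow]
    norm_num
  constructor
  · intro x
    refine (h1 x).trans ?_
    calc ENNReal.ofReal (2 / cj c0 j) * ∫⁻ w in Sj c0 j, ‖g w‖ₑ
        ≤ ENNReal.ofReal (2 / cj c0 j) * ENNReal.ofReal (16 / 4 ^ j) := by gcongr
      _ = ENNReal.ofReal (32 / c0 / 2 ^ j) := by
          rw [← ENNReal.ofReal_mul (by positivity)]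
          congr 1
          unfold cj
          rw [h4]
          field_simp
          norm_num
  · refine h2.trans ?_
    calc ENNReal.ofReal ((2 / cj c0 j) ^ 2) * (ENNReal.ofReal 1 * ∫⁻ w in Sj c0 j, ‖g w‖ₑ)
        ≤ ENNReal.ofReal ((2 / cj c0 j) ^ 2) * (ENNReal.ofReal 1 *
            ENNReal.ofReal (16 / 4 ^ j)) := by gcongr
      _ = ENNReal.ofReal (64 / c0 ^ 2) := by
          rw [← ENNReal.ofReal_mul (by positivity), ← ENNReal.ofReal_mul (by positivity)]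
          congr 1
          unfold cj
          rw [h4]
          field_simp
          norm_num

theorem opj_meas (g : E 2 → ℂ) (hg : Measurable g) :
    Measurable fun q : ℝ × E 2 => op2 (aj c0 j) idM q.1 g q.2 := by
  unfold op2
  have h1 : Measurable fun q : (ℝ × E 2) × E 2 =>
      g q.2 * amp2 (aj c0 j) idM q.1.1 q.2 * ex (inner ℝ q.2 q.1.2) := by
    have e1 : Measurable fun q : (ℝ × E 2) × E 2 => g q.2 := hg.comp measurable_snd
    have e2 : Measurable fun q : (ℝ × E 2) × E 2 => amp2 (aj c0 j) idM q.1.1 q.2 :=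
      (amj_meas2 c0 j).comp (f := fun q : (ℝ × E 2) × E 2 => (q.1.1, q.2))
        (measurable_fst.fst.prodMk measurable_snd)
    have e3 : Measurable fun q : (ℝ × E 2) × E 2 => ex (inner ℝ q.2 q.1.2) :=
      ho2_ex_meas.comp (measurable_snd.inner measurable_fst.snd)
    exact (e1.mul e2).mul e3
  exact (h1.stronglyMeasurable.integral_prod_right').measurable

end Pool.Agent.SDT.N1S

end -- N1S.S2

section -- N1S.S3

/-!
N1S, part 3: the `L⁴` estimates of the strips for densities approximated by combinations of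
products.
-/

namespace Pool.Agent.SDT.N1S

open MeasureTheory Set Metric Pool.Agent.SDT.MP_6cbfb8_an Pool.Agent.SDT.MST Pool.Agent.SDT.N1
open scoped ENNReal Real

/-- The density in the plane. -/
noncomputable def pl (G : ℝ × ℝ → ℂ) (w : E 2) : ℂ := G (w 0, w 1)

theorem pl_meas (G : ℝ × ℝ → ℂ) (hG : Measurable G) : Measurable (pl G) := by
  unfold pl
  exact hG.comp (f := fun w : E 2 => (w 0, w 1)) (by fun_prop)

theorem pl_norm (G : ℝ × ℝ → ℂ) (B : ℝ) (hB : ∀ x, ‖G x‖ ≤ B) (w : E 2) : ‖pl G w‖ ≤ B := hB _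

/-- The dyadic `L⁴` estimates for product densities in the strips, for times `T ≥ 1 / cj`. -/
def L4E (c0 : ℝ) (K : ℕ) : Prop := ∃ C : ℝ, 0 ≤ C ∧ ∀ (j : ℕ) (T : ℝ), 2 ^ j ≤ c0 * T →
    ∀ G₁ G₂ : ℝ → ℂ, Measurable G₁ → Measurable G₂ → (∀ a, ‖G₁ a‖ ≤ 1) → (∀ a, ‖G₂ a‖ ≤ 1) →
    ∫⁻ t in {t : ℝ | T ≤ |t| ∧ |t| ≤ 2 * T}, ∫⁻ x : E 2,
      ‖op2 (aj c0 j) idM t (pw G₁ G₂) x‖ₑ ^ (4:ℝ) ≤
      ENNReal.ofReal (C * (1 + Real.log T) ^ K / T)

variable (c0 : ℝ) (j : ℕ)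

theorem opj4_meas (g : E 2 → ℂ) (hg : Measurable g) :
    Measurable fun q : ℝ × E 2 => ‖op2 (aj c0 j) idM q.1 g q.2‖ₑ ^ (4:ℝ) :=
  ((opj_meas c0 j g hg).enorm).pow_const _

theorem opj4_meas1 (g : E 2 → ℂ) (hg : Measurable g) :
    Measurable fun t : ℝ => ∫⁻ x : E 2, ‖op2 (aj c0 j) idM t g x‖ₑ ^ (4:ℝ) :=
  (opj4_meas c0 j g hg).lintegral_prod_right'

theorem opj4_meas2 (g : E 2 → ℂ) (hg : Measurable g) (t : ℝ) :
    Measurable fun x : E 2 => ‖op2 (aj c0 j) idM t g x‖ₑ ^ (4:ℝ) :=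
  (opj4_meas c0 j g hg).comp (f := fun x : E 2 => (t, x)) (by fun_prop)

/-- From the bound of the supremum and of the `L²` norm. -/
theorem four_of (F : E 2 → ℂ) (S V : ℝ≥0∞) (hS : S ≠ ∞) (h1 : ∀ x, ‖F x‖ₑ ≤ S)
    (h2 : ∫⁻ x, ‖F x‖ₑ ^ (2:ℝ) ≤ V) : ∫⁻ x, ‖F x‖ₑ ^ (4:ℝ) ≤ S ^ 2 * V := by
  calc ∫⁻ x, ‖F x‖ₑ ^ (4:ℝ) ≤ ∫⁻ x, S ^ 2 * ‖F x‖ₑ ^ (2:ℝ) := by
        refine lintegral_mono fun x => ?_
        have e1 : ‖F x‖ₑ ^ (4:ℝ) = ‖F x‖ₑ ^ 2 * ‖F x‖ₑ ^ (2:ℝ) := by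
          have e2 : ‖F x‖ₑ ^ (4:ℝ) = ‖F x‖ₑ ^ 4 := by exact_mod_cast ENNReal.rpow_natCast _ 4
          have e3 : ‖F x‖ₑ ^ (2:ℝ) = ‖F x‖ₑ ^ 2 := by exact_mod_cast ENNReal.rpow_natCast _ 2
          rw [e2, e3, ← pow_add]
        rw [e1]
        have := h1 x
        gcongr
    _ = S ^ 2 * ∫⁻ x, ‖F x‖ₑ ^ (2:ℝ) := lintegral_const_mul' _ _ (ENNReal.pow_ne_top hS)
    _ ≤ S ^ 2 * V := by gcongr

/-- Integration in time of a uniform bound. -/
theorem time_of (F : ℝ → ℝ≥0∞) (T R : ℝ) (hT : 0 ≤ T) (hR : 0 ≤ R)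
    (h : ∀ t, F t ≤ ENNReal.ofReal R) :
    ∫⁻ t in {t : ℝ | T ≤ |t| ∧ |t| ≤ 2 * T}, F t ≤ ENNReal.ofReal (2 * T * R) := by
  calc ∫⁻ t in {t : ℝ | T ≤ |t| ∧ |t| ≤ 2 * T}, F t
      ≤ ∫⁻ _t in {t : ℝ | T ≤ |t| ∧ |t| ≤ 2 * T}, ENNReal.ofReal R :=
        lintegral_mono fun t => h t
    _ = ENNReal.ofReal R * volume {t : ℝ | T ≤ |t| ∧ |t| ≤ 2 * T} := by rw [setLIntegral_const]
    _ ≤ ENNReal.ofReal R * ENNReal.ofReal (2 * T) := by
        gcongr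
        exact hts_vol T hT
    _ = ENNReal.ofReal (2 * T * R) := by
        rw [← ENNReal.ofReal_mul hR]
        congr 1
        ring

/-- The error term. -/
theorem errj (hc : 0 < c0) (T : ℝ) (hT : 0 ≤ T) (g : E 2 → ℂ) (hg : Measurable g) (B J : ℝ)
    (hB : ∀ w, ‖g w‖ ≤ B) (hJ : 0 ≤ J) (hgJ : ∫⁻ w in Qsq, ‖g w‖ₑ ≤ ENNReal.ofReal J) :
    ∫⁻ t in {t : ℝ | T ≤ |t| ∧ |t| ≤ 2 * T}, ∫⁻ x : E 2,
      ‖op2 (aj c0 j) idM t g x‖ₑ ^ (4:ℝ) ≤
      ENNReal.ofReal (32 / c0 ^ 4 * 16 ^ j * (T * B * J ^ 3)) := by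
  have hB0 : 0 ≤ B := (norm_nonneg _).trans (hB 0)
  have hc3 := cj_pos hc j
  have hJ' : ∫⁻ w in Sj c0 j, ‖g w‖ₑ ≤ ENNReal.ofReal J :=
    (lintegral_mono_set (Sj_sub c0 hc j)).trans hgJ
  obtain ⟨A, hA⟩ : ∃ A : ℝ, A = 2 / cj c0 j := ⟨_, rfl⟩
  have hA0 : 0 < A := by rw [hA]; positivity
  have hA4 : A ^ 4 = 16 / c0 ^ 4 * 16 ^ j := by
    rw [hA]
    unfold cj
    have h1 : (16:ℝ) ^ j = (2 ^ j) ^ 4 := by
      rw [← pow_mul, mul_comm, pow_mul]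
      norm_num
    rw [h1]
    field_simp
    norm_num
  have h1 : ∀ t : ℝ, ∫⁻ x : E 2, ‖op2 (aj c0 j) idM t g x‖ₑ ^ (4:ℝ) ≤
      ENNReal.ofReal (A ^ 4 * (B * J ^ 3)) := by
    intro t
    obtain ⟨h2, h3⟩ := opj_small c0 j hc t g hg B hB
    rw [← hA] at h2 h3
    have h4 : ∀ x, ‖op2 (aj c0 j) idM t g x‖ₑ ≤ ENNReal.ofReal (A * J) := by
      intro x
      refine (h2 x).trans ?_
      rw [ENNReal.ofReal_mul hA0.le]
      gcongr
    have h5 : ∫⁻ x, ‖op2 (aj c0 j) idM t g x‖ₑ ^ (2:ℝ) ≤ ENNReal.ofReal (A ^ 2 * (B * J)) := by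
      refine h3.trans ?_
      rw [ENNReal.ofReal_mul (by positivity), ENNReal.ofReal_mul hB0]
      gcongr
    refine (four_of _ _ _ ENNReal.ofReal_ne_top h4 h5).trans (le_of_eq ?_)
    rw [← ENNReal.ofReal_pow (by positivity), ← ENNReal.ofReal_mul (by positivity)]
    congr 1
    ring
  refine (time_of _ T _ hT (by positivity) h1).trans (le_of_eq ?_)
  rw [hA4]
  congr 1
  ring

/-- The main term. -/
theorem mainj (R : ℝ≥0∞) (T : ℝ) {ι : Type} [Fintype ι] (b : ι → ℂ)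
    (α β : ι → ℝ → ℂ) (m1 : ∀ i, Measurable (α i)) (m2 : ∀ i, Measurable (β i))
    (H : ∀ i, ∫⁻ t in {t : ℝ | T ≤ |t| ∧ |t| ≤ 2 * T}, ∫⁻ x : E 2,
      ‖op2 (aj c0 j) idM t (pw (α i) (β i)) x‖ₑ ^ (4:ℝ) ≤ R) :
    ∫⁻ t in {t : ℝ | T ≤ |t| ∧ |t| ≤ 2 * T}, ∫⁻ x : E 2,
      ‖∑ i, b i * op2 (aj c0 j) idM t (pw (α i) (β i)) x‖ₑ ^ (4:ℝ) ≤
      ENNReal.ofReal ((∑ i, ‖b i‖) ^ 4) * R := by
  have hs0 : 0 ≤ ∑ i, ‖b i‖ := Finset.sum_nonneg fun _ _ => norm_nonneg _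
  have hm : ∀ i, Measurable (pw (α i) (β i)) := fun i => pw_meas _ _ (m1 i) (m2 i)
  calc ∫⁻ t in {t : ℝ | T ≤ |t| ∧ |t| ≤ 2 * T}, ∫⁻ x : E 2,
        ‖∑ i, b i * op2 (aj c0 j) idM t (pw (α i) (β i)) x‖ₑ ^ (4:ℝ)
      ≤ ∫⁻ t in {t : ℝ | T ≤ |t| ∧ |t| ≤ 2 * T}, ∫⁻ x : E 2,
          ENNReal.ofReal ((∑ i, ‖b i‖) ^ 3) * ∑ i, ENNReal.ofReal ‖b i‖ *
            ‖op2 (aj c0 j) idM t (pw (α i) (β i)) x‖ₑ ^ (4:ℝ) :=
        lintegral_mono fun t => lintegral_mono fun x => four_conv_e b _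
    _ = ENNReal.ofReal ((∑ i, ‖b i‖) ^ 3) * ∑ i, ENNReal.ofReal ‖b i‖ *
          ∫⁻ t in {t : ℝ | T ≤ |t| ∧ |t| ≤ 2 * T}, ∫⁻ x : E 2,
            ‖op2 (aj c0 j) idM t (pw (α i) (β i)) x‖ₑ ^ (4:ℝ) := by
        have e1 : ∀ t : ℝ, ∫⁻ x : E 2,
            ENNReal.ofReal ((∑ i, ‖b i‖) ^ 3) * ∑ i, ENNReal.ofReal ‖b i‖ *
              ‖op2 (aj c0 j) idM t (pw (α i) (β i)) x‖ₑ ^ (4:ℝ) =
            ENNReal.ofReal ((∑ i, ‖b i‖) ^ 3) * ∑ i, ENNReal.ofReal ‖b i‖ *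
              ∫⁻ x : E 2, ‖op2 (aj c0 j) idM t (pw (α i) (β i)) x‖ₑ ^ (4:ℝ) := by
          intro t
          rw [lintegral_const_mul' _ _ ENNReal.ofReal_ne_top, lintegral_finsetSum _ fun i _ =>
            (opj4_meas2 c0 j _ (hm i) t).const_mul _]
          congr 1
          refine Finset.sum_congr rfl fun i _ => ?_
          rw [lintegral_const_mul' _ _ ENNReal.ofReal_ne_top]
        simp only [e1]
        rw [lintegral_const_mul' _ _ ENNReal.ofReal_ne_top, lintegral_finsetSum _ fun i _ =>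
          (opj4_meas1 c0 j _ (hm i)).const_mul _]
        congr 1
        refine Finset.sum_congr rfl fun i _ => ?_
        rw [lintegral_const_mul' _ _ ENNReal.ofReal_ne_top]
    _ ≤ ENNReal.ofReal ((∑ i, ‖b i‖) ^ 3) * ∑ i, ENNReal.ofReal ‖b i‖ * R := by
        gcongr with i
        exact H i
    _ = ENNReal.ofReal ((∑ i, ‖b i‖) ^ 4) * R := by
        rw [← Finset.sum_mul, ← ENNReal.ofReal_sum_of_nonneg fun _ _ => norm_nonneg _,
          ← mul_assoc, ← ENNReal.ofReal_mul (by positivity)]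
        congr 2

/-- The dyadic `L⁴` estimate for large times. -/
theorem L4j_Q (hc : 0 < c0) (hc1 : c0 ≤ 1) (K : ℕ) (h : L4E c0 K) :
    ∃ C : ℝ, 0 ≤ C ∧ ∀ (j : ℕ) (T : ℝ), 2 ^ j ≤ c0 * T → ∀ Q : ℝ, 1 ≤ Q → ∀ G : ℝ × ℝ → ℂ,
      Measurable G → (∀ x, ‖G x‖ ≤ 1) → AT Q (⌈T⌉₊ ^ 2) G →
      ∫⁻ t in {t : ℝ | T ≤ |t| ∧ |t| ≤ 2 * T}, ∫⁻ x : E 2,
        ‖op2 (aj c0 j) idM t (pl G) x‖ₑ ^ (4:ℝ) ≤
        ENNReal.ofReal (C * Q ^ 4 * (1 + Real.log T) ^ K / T) := by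
  obtain ⟨C1, hC1, H1⟩ := h
  obtain ⟨C2, hC2⟩ : ∃ C2 : ℝ, C2 = 32 / c0 ^ 4 := ⟨_, rfl⟩
  have hC20 : 0 ≤ C2 := by rw [hC2]; positivity
  refine ⟨8 * (C1 + C2 * 2), by positivity, ?_⟩
  intro j T hjT' Q hQ1 G hG hb hcls
  have h2j : (1:ℝ) ≤ 2 ^ j := one_le_pow₀ one_le_two
  have hTT : 0 ≤ T := by
    by_contra hneg
    push Not at hneg
    nlinarith
  have hjT : 2 ^ j ≤ T := hjT'.trans (by nlinarith)
  have hT : 1 ≤ T := h2j.trans hjT
  have hQ0 : 0 ≤ Q := by linarith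
  have hT0 : 0 < T := by linarith
  obtain ⟨N, hN⟩ : ∃ N, N = ⌈T⌉₊ := ⟨_, rfl⟩
  rw [← hN] at hcls
  have hTN : T ≤ N := by rw [hN]; exact Nat.le_ceil T
  have hN0 : (0:ℝ) < N := by linarith
  obtain ⟨u, hu⟩ : ∃ u, u = 1 + Real.log T := ⟨_, rfl⟩
  have hu1 : 1 ≤ u := by rw [hu]; linarith [Real.log_nonneg hT]
  obtain ⟨ι, inst, b, α, β, m1, m2, b1, b2, hs, he⟩ := hcls
  -- the approximating function and the error
  set S : ℝ × ℝ → ℂ := fun x => ∑ i, b i * (α i x.1 * β i x.2) with hS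
  have mS : Measurable S := spr_meas b α β m1 m2
  have bS : ∀ x, ‖S x‖ ≤ Q := fun x => (norm_spr_le b α β b1 b2 x).trans hs
  set D : ℝ × ℝ → ℂ := fun x => G x - S x with hD
  have mD : Measurable D := hG.sub mS
  have bD : ∀ x, ‖D x‖ ≤ 2 * Q := by
    intro x
    refine (norm_sub_le _ _).trans ?_
    linarith [hb x, bS x]
  have hdec : ∀ (t : ℝ) (x : E 2), op2 (aj c0 j) idM t (pl G) x =
      ∑ i, b i * op2 (aj c0 j) idM t (pw (α i) (β i)) x + op2 (aj c0 j) idM t (pl D) x := by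
    intro t x
    rw [← opj_lin c0 j hc b (fun i => pw (α i) (β i)) (pl D)
      (fun i => pw_meas _ _ (m1 i) (m2 i)) (pl_meas D mD) 1
      (fun i w => pw_norm _ _ (b1 i) (b2 i) w) (2 * Q)
      (fun w => pl_norm D _ bD w) t x]
    congr 1
    funext w
    unfold pl pw
    simp only [hD, hS]
    ring
  have hmain := mainj c0 j (ENNReal.ofReal (C1 * (1 + Real.log T) ^ K / T)) T b α β m1 m2
    (fun i => H1 j T hjT' _ _ (m1 i) (m2 i) (b1 i) (b2 i))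
  have hJ : ∫⁻ w in Qsq, ‖pl D w‖ₑ ≤ ENNReal.ofReal (Q / T ^ 2) := by
    calc ∫⁻ w in Qsq, ‖pl D w‖ₑ
        = ∫⁻ x in Icc (-1:ℝ) 1 ×ˢ Icc (-1:ℝ) 1, ‖D x‖ₑ := lint_Qsq fun x => ‖D x‖ₑ
      _ ≤ ENNReal.ofReal (Q / (N ^ 2 : ℕ)) := he
      _ ≤ ENNReal.ofReal (Q / T ^ 2) := by
          apply ENNReal.ofReal_le_ofReal
          push_cast
          exact div_le_div₀ hQ0 le_rfl (by positivity) (pow_le_pow_left₀ hT0.le hTN 2)
  have herr := errj c0 j hc T hT0.le (pl D) (pl_meas D mD) (2 * Q) (Q / T ^ 2)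
    (fun w => pl_norm D _ bD w) (by positivity) hJ
  rw [← hC2] at herr
  have hmS : Measurable fun q : ℝ × E 2 =>
      ∑ i, b i * op2 (aj c0 j) idM q.1 (pw (α i) (β i)) q.2 := by
    refine Finset.measurable_sum _ fun i _ => measurable_const.mul ?_
    exact opj_meas c0 j _ (pw_meas _ _ (m1 i) (m2 i))
  have hmS4 : Measurable fun q : ℝ × E 2 =>
      ‖∑ i, b i * op2 (aj c0 j) idM q.1 (pw (α i) (β i)) q.2‖ₑ ^ (4:ℝ) :=
    hmS.enorm.pow_const _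
  calc ∫⁻ t in {t : ℝ | T ≤ |t| ∧ |t| ≤ 2 * T}, ∫⁻ x : E 2,
        ‖op2 (aj c0 j) idM t (pl G) x‖ₑ ^ (4:ℝ)
      ≤ ∫⁻ t in {t : ℝ | T ≤ |t| ∧ |t| ≤ 2 * T}, ∫⁻ x : E 2, 8 *
          (‖∑ i, b i * op2 (aj c0 j) idM t (pw (α i) (β i)) x‖ₑ ^ (4:ℝ) +
            ‖op2 (aj c0 j) idM t (pl D) x‖ₑ ^ (4:ℝ)) := by
        refine lintegral_mono fun t => lintegral_mono fun x => ?_
        simp only
        rw [hdec]
        exact enorm_add_four' _ _
    _ = 8 * ((∫⁻ t in {t : ℝ | T ≤ |t| ∧ |t| ≤ 2 * T}, ∫⁻ x : E 2,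
          ‖∑ i, b i * op2 (aj c0 j) idM t (pw (α i) (β i)) x‖ₑ ^ (4:ℝ)) +
          ∫⁻ t in {t : ℝ | T ≤ |t| ∧ |t| ≤ 2 * T}, ∫⁻ x : E 2,
            ‖op2 (aj c0 j) idM t (pl D) x‖ₑ ^ (4:ℝ)) := by
        have e1 : ∀ t : ℝ, ∫⁻ x : E 2, 8 *
            (‖∑ i, b i * op2 (aj c0 j) idM t (pw (α i) (β i)) x‖ₑ ^ (4:ℝ) +
              ‖op2 (aj c0 j) idM t (pl D) x‖ₑ ^ (4:ℝ)) =
            8 * ((∫⁻ x : E 2,
              ‖∑ i, b i * op2 (aj c0 j) idM t (pw (α i) (β i)) x‖ₑ ^ (4:ℝ)) +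
              ∫⁻ x : E 2, ‖op2 (aj c0 j) idM t (pl D) x‖ₑ ^ (4:ℝ)) := by
          intro t
          have e2 : Measurable fun x : E 2 =>
              ‖∑ i, b i * op2 (aj c0 j) idM t (pw (α i) (β i)) x‖ₑ ^ (4:ℝ) :=
            hmS4.comp (f := fun x : E 2 => (t, x)) (by fun_prop)
          rw [lintegral_const_mul' _ _ (by simp), lintegral_add_left e2]
        simp only [e1]
        rw [lintegral_const_mul' _ _ (by simp), lintegral_add_left hmS4.lintegral_prod_right']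
    _ ≤ 8 * (ENNReal.ofReal ((∑ i, ‖b i‖) ^ 4) *
          ENNReal.ofReal (C1 * (1 + Real.log T) ^ K / T) +
          ENNReal.ofReal (C2 * 16 ^ j * (T * (2 * Q) * (Q / T ^ 2) ^ 3))) := by
        gcongr
    _ ≤ 8 * (ENNReal.ofReal (Q ^ 4) * ENNReal.ofReal (C1 * u ^ K / T) +
          ENNReal.ofReal (C2 * T ^ 4 * (T * (2 * Q) * (Q / T ^ 2) ^ 3))) := by
        rw [← hu]
        have e16 : (16:ℝ) ^ j ≤ T ^ 4 := by
          have h1 : (16:ℝ) ^ j = (2 ^ j) ^ 4 := by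
            rw [← pow_mul, mul_comm, pow_mul]
            norm_num
          rw [h1]
          exact pow_le_pow_left₀ (by positivity) hjT 4
        gcongr
    _ = ENNReal.ofReal (8 * (Q ^ 4 * (C1 * u ^ K / T) +
          C2 * T ^ 4 * (T * (2 * Q) * (Q / T ^ 2) ^ 3))) := by
        have h5 : (8 : ℝ≥0∞) = ENNReal.ofReal 8 := by norm_num
        rw [← ENNReal.ofReal_mul (by positivity), ← ENNReal.ofReal_add (by positivity)
          (by positivity), h5, ← ENNReal.ofReal_mul (by norm_num)]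
    _ ≤ ENNReal.ofReal (8 * (C1 + C2 * 2) * Q ^ 4 * (1 + Real.log T) ^ K / T) := by
        apply ENNReal.ofReal_le_ofReal
        rw [← hu]
        have e1 : 8 * (Q ^ 4 * (C1 * u ^ K / T) + C2 * T ^ 4 * (T * (2 * Q) * (Q / T ^ 2) ^ 3)) =
            8 * (C1 * u ^ K + C2 * 2) * Q ^ 4 / T := by
          field_simp
        rw [e1]
        apply div_le_div_of_nonneg_right _ hT0.le
        have e4 : 1 ≤ u ^ K := one_le_pow₀ hu1
        have e5 : C2 * 2 ≤ C2 * 2 * u ^ K := le_mul_of_one_le_right (by positivity) e4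
        have e6 : 8 * (C1 * u ^ K + C2 * 2) ≤ 8 * (C1 + C2 * 2) * u ^ K := by
          linarith
        calc 8 * (C1 * u ^ K + C2 * 2) * Q ^ 4
            ≤ 8 * (C1 + C2 * 2) * u ^ K * Q ^ 4 :=
              mul_le_mul_of_nonneg_right e6 (by positivity)
          _ = 8 * (C1 + C2 * 2) * Q ^ 4 * u ^ K := by ring

end Pool.Agent.SDT.N1S

end -- N1S.S3

section -- N1S.S4

/-!
N1S, part 4: estimates decaying geometrically in the index of the strip.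
-/

namespace Pool.Agent.SDT.N1S

open MeasureTheory Set Metric Pool.Agent.SDT.MP_6cbfb8_an Pool.Agent.SDT.MST Pool.Agent.SDT.N1
open scoped ENNReal Real

/-- The `L⁴` estimates for large times. -/
theorem L4j_big (c0 : ℝ) (hc : 0 < c0) (hc1 : c0 ≤ 1) (K : ℕ) (h : L4E c0 K) (A : ℝ → ℝ) (β : ℝ)
    (hβ : β < 1) : ∃ C : ℝ, 0 ≤ C ∧ ∀ (j : ℕ) (T : ℝ), 2 ^ j ≤ c0 * T → ∀ G : ℝ × ℝ → ℂ,
      Measurable G → (∀ x, ‖G x‖ ≤ 1) → LB A G →
      ∫⁻ t in {t : ℝ | T ≤ |t| ∧ |t| ≤ 2 * T}, ∫⁻ x : E 2,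
        ‖op2 (aj c0 j) idM t (pl G) x‖ₑ ^ (4:ℝ) ≤ ENNReal.ofReal (C * T ^ (-β)) := by
  obtain ⟨C, hC, H⟩ := L4j_Q c0 hc hc1 K h
  obtain ⟨δ, hδ⟩ : ∃ δ, δ = (1 - β) / 16 := ⟨_, rfl⟩
  have hδ0 : 0 < δ := by rw [hδ]; linarith
  obtain ⟨K', hK, HK⟩ := log_pow_le' K (β + 8 * δ) (by rw [hδ]; linarith)
  obtain ⟨m, hm⟩ : ∃ m : ℝ, m = max 1 (A δ) := ⟨_, rfl⟩
  have hm1 : 1 ≤ m := by rw [hm]; exact le_max_left _ _
  have hmA : A δ ≤ m := by rw [hm]; exact le_max_right _ _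
  refine ⟨C * (m * 4 ^ δ) ^ 4 * K', by positivity, ?_⟩
  intro j T hjT' G hG hb hcls
  have h2j : (1:ℝ) ≤ 2 ^ j := one_le_pow₀ one_le_two
  have hTT : 0 ≤ T := by
    by_contra hneg
    push Not at hneg
    nlinarith
  have hjT : 2 ^ j ≤ T := hjT'.trans (by nlinarith)
  have hT : 1 ≤ T := h2j.trans hjT
  have hT0 : 0 < T := by linarith
  have hTN : T ≤ ⌈T⌉₊ := Nat.le_ceil T
  have hN1' : (1:ℝ) ≤ ⌈T⌉₊ := hT.trans hTN
  have hN1 : 1 ≤ ⌈T⌉₊ ^ 2 := Nat.one_le_pow _ _ (by exact_mod_cast hN1')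
  have hNT : (⌈T⌉₊:ℝ) ≤ 2 * T := by
    have := Nat.ceil_lt_add_one hT0.le
    linarith
  have hNT2 : ((⌈T⌉₊ ^ 2 : ℕ) : ℝ) ≤ 4 * T ^ 2 := by
    push_cast
    nlinarith
  have hT2 : (T ^ 2) ^ δ = T ^ (2 * δ) := by
    rw [← Real.rpow_natCast T 2, ← Real.rpow_mul hT0.le]
    norm_num
  have hQ : A δ * ((⌈T⌉₊ ^ 2 : ℕ) : ℝ) ^ δ ≤ m * 4 ^ δ * T ^ (2 * δ) := by
    rw [← hT2, mul_assoc, ← Real.mul_rpow (by norm_num) (by positivity)]
    refine mul_le_mul hmA ?_ (by positivity) (by linarith)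
    exact Real.rpow_le_rpow (by positivity) hNT2 hδ0.le
  have hQ1 : 1 ≤ m * 4 ^ δ * T ^ (2 * δ) := by
    have e1 : 1 ≤ (4:ℝ) ^ δ := Real.one_le_rpow (by norm_num) hδ0.le
    have e2 : 1 ≤ T ^ (2 * δ) := Real.one_le_rpow hT (by linarith)
    exact one_le_mul_of_one_le_of_one_le (one_le_mul_of_one_le_of_one_le hm1 e1) e2
  have key := H j T hjT' (m * 4 ^ δ * T ^ (2 * δ)) hQ1 G hG hb (AT_mono hQ (hcls δ hδ0 _ hN1))
  refine key.trans ?_
  apply ENNReal.ofReal_le_ofReal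
  have h1 := HK T hT
  have h2 : (T ^ (2 * δ)) ^ 4 * T ^ (-(β + 8 * δ)) = T ^ (-β) := by
    rw [← Real.rpow_natCast (T ^ (2 * δ)) 4, ← Real.rpow_mul hT0.le, ← Real.rpow_add hT0]
    congr 1
    push_cast
    ring
  calc C * (m * 4 ^ δ * T ^ (2 * δ)) ^ 4 * (1 + Real.log T) ^ K / T
      = C * (m * 4 ^ δ) ^ 4 * (T ^ (2 * δ)) ^ 4 * ((1 + Real.log T) ^ K / T) := by ring
    _ ≤ C * (m * 4 ^ δ) ^ 4 * (T ^ (2 * δ)) ^ 4 * (K' * T ^ (-(β + 8 * δ))) :=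
        mul_le_mul_of_nonneg_left h1 (by positivity)
    _ = C * (m * 4 ^ δ) ^ 4 * K' * ((T ^ (2 * δ)) ^ 4 * T ^ (-(β + 8 * δ))) := by ring
    _ = C * (m * 4 ^ δ) ^ 4 * K' * T ^ (-β) := by rw [h2]

/-- The `L⁴` estimates for small times. -/
theorem L4j_small (c0 : ℝ) (hc : 0 < c0) (hc1 : c0 ≤ 1) (j : ℕ) (T : ℝ) (hT : 0 ≤ T)
    (g : E 2 → ℂ) (hg : Measurable g) (hB : ∀ w, ‖g w‖ ≤ 1) :
    ∫⁻ t in {t : ℝ | T ≤ |t| ∧ |t| ≤ 2 * T}, ∫⁻ x : E 2,
      ‖op2 (aj c0 j) idM t g x‖ₑ ^ (4:ℝ) ≤ ENNReal.ofReal (131072 / c0 ^ 4 * (T / 4 ^ j)) := by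
  have h1 : ∀ t : ℝ, ∫⁻ x : E 2, ‖op2 (aj c0 j) idM t g x‖ₑ ^ (4:ℝ) ≤
      ENNReal.ofReal (65536 / c0 ^ 4 / 4 ^ j) := by
    intro t
    obtain ⟨h2, h3⟩ := opj_one c0 j hc hc1 t g hg hB
    refine (four_of _ _ _ ENNReal.ofReal_ne_top h2 h3).trans (le_of_eq ?_)
    rw [← ENNReal.ofReal_pow (by positivity), ← ENNReal.ofReal_mul (by positivity)]
    congr 1
    have h4 : (4:ℝ) ^ j = (2 ^ j) ^ 2 := by
      rw [← pow_mul, mul_comm, pow_mul]
      norm_num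
    rw [h4]
    field_simp
    norm_num
  refine (time_of _ T _ hT (by positivity) h1).trans (le_of_eq ?_)
  congr 1
  ring

/-- Geometric decay in the index of the strip. -/
theorem L4j_all (c0 : ℝ) (hc : 0 < c0) (hc1 : c0 ≤ 1) (K : ℕ) (h : L4E c0 K) (A : ℝ → ℝ) (β : ℝ)
    (hβ0 : 0 ≤ β) (hβ : β < 1) : ∃ C r : ℝ, 0 ≤ C ∧ 0 < r ∧ r < 1 ∧ ∀ (j : ℕ) (T : ℝ), 1 ≤ T →
      ∀ G : ℝ × ℝ → ℂ, Measurable G → (∀ x, ‖G x‖ ≤ 1) → LB A G →
      ∫⁻ t in {t : ℝ | T ≤ |t| ∧ |t| ≤ 2 * T}, ∫⁻ x : E 2,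
        ‖op2 (aj c0 j) idM t (pl G) x‖ₑ ^ (4:ℝ) ≤ ENNReal.ofReal (C * r ^ j * T ^ (-β)) := by
  obtain ⟨θ, hθ⟩ : ∃ θ, θ = (1 - β) / 2 := ⟨_, rfl⟩
  have hθ0 : 0 < θ := by rw [hθ]; linarith
  obtain ⟨C, hC, H⟩ := L4j_big c0 hc hc1 K h A (β + θ) (by rw [hθ]; linarith)
  refine ⟨C + 131072 / c0 ^ 6, 2 ^ (-θ), by positivity, by positivity,
    Real.rpow_lt_one_of_one_lt_of_neg one_lt_two (by linarith), ?_⟩
  intro j T hT G hG hb hcls
  have hT0 : 0 < T := by linarith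
  have h2j : (1:ℝ) ≤ 2 ^ j := one_le_pow₀ one_le_two
  have hrj : ((2:ℝ) ^ (-θ)) ^ j = (2 ^ j) ^ (-θ) := by
    rw [← Real.rpow_natCast (2 ^ (-θ)) j, ← Real.rpow_mul (by norm_num), mul_comm,
      Real.rpow_mul (by norm_num), Real.rpow_natCast]
  rcases le_or_gt (2 ^ j) (c0 * T) with hjT' | hjT
  · have hjT : 2 ^ j ≤ T := hjT'.trans (by nlinarith)
    refine (H j T hjT' G hG hb hcls).trans (ENNReal.ofReal_le_ofReal ?_)
    have h1 : T ^ (-(β + θ)) ≤ ((2:ℝ) ^ (-θ)) ^ j * T ^ (-β) := by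
      rw [hrj]
      have h2 : T ^ (-(β + θ)) = T ^ (-θ) * T ^ (-β) := by
        rw [← Real.rpow_add hT0]
        congr 1
        ring
      rw [h2]
      apply mul_le_mul_of_nonneg_right _ (by positivity)
      exact Real.rpow_le_rpow_of_nonpos (by linarith) hjT (by linarith)
    have h3 : 0 ≤ ((2:ℝ) ^ (-θ)) ^ j * T ^ (-β) := by positivity
    calc C * T ^ (-(β + θ)) ≤ C * (((2:ℝ) ^ (-θ)) ^ j * T ^ (-β)) :=
          mul_le_mul_of_nonneg_left h1 hC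
      _ ≤ (C + 131072 / c0 ^ 6) * (((2:ℝ) ^ (-θ)) ^ j * T ^ (-β)) := by
          apply mul_le_mul_of_nonneg_right _ h3
          have : 0 ≤ 131072 / c0 ^ 6 := by positivity
          linarith
      _ = _ := by ring
  · refine (L4j_small c0 hc hc1 j T hT0.le (pl G) (pl_meas G hG) (pl_norm G 1 hb)).trans
      (ENNReal.ofReal_le_ofReal ?_)
    have h1 : T / 4 ^ j ≤ 1 / c0 ^ 2 * (((2:ℝ) ^ (-θ)) ^ j * T ^ (-β)) := by
      rw [hrj, div_le_iff₀ (by positivity)]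
      have h4 : (4:ℝ) ^ j = (2 ^ j) ^ (2:ℝ) := by
        rw [Real.rpow_ofNat, ← pow_mul, mul_comm, pow_mul]
        norm_num
      have h5 : (0:ℝ) < 2 ^ j := by positivity
      have h6 : T = T ^ (1 + β) * T ^ (-β) := by
        rw [← Real.rpow_add hT0]
        conv_lhs => rw [← Real.rpow_one T]
        congr 1
        ring
      have h7 : T ^ (1 + β) ≤ 1 / c0 ^ 2 * (2 ^ j) ^ (2 - θ) := by
        have h8 : T ≤ 1 / c0 * 2 ^ j := by
          rw [one_div, inv_mul_eq_div, le_div_iff₀ hc]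
          linarith
        have h9 : 1 ≤ 1 / c0 := by rw [le_div_iff₀ hc]; linarith
        calc T ^ (1 + β) ≤ (1 / c0 * 2 ^ j) ^ (1 + β) := Real.rpow_le_rpow hT0.le h8 (by linarith)
          _ = (1 / c0) ^ (1 + β) * (2 ^ j) ^ (1 + β) := Real.mul_rpow (by positivity) (by positivity)
          _ ≤ (1 / c0) ^ (2:ℝ) * (2 ^ j) ^ (2 - θ) := by
              apply mul_le_mul _ _ (by positivity) (by positivity)
              · exact Real.rpow_le_rpow_of_exponent_le h9 (by linarith)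
              · exact Real.rpow_le_rpow_of_exponent_le h2j (by rw [hθ]; linarith)
          _ = 1 / c0 ^ 2 * (2 ^ j) ^ (2 - θ) := by
              rw [Real.rpow_ofNat, div_pow, one_pow]
      calc T = T ^ (1 + β) * T ^ (-β) := h6
        _ ≤ 1 / c0 ^ 2 * (2 ^ j) ^ (2 - θ) * T ^ (-β) := by gcongr
        _ = 1 / c0 ^ 2 * ((2 ^ j) ^ (-θ) * T ^ (-β)) * 4 ^ j := by
            have h10 : ((2:ℝ) ^ j) ^ (2 - θ) = (2 ^ j) ^ (-θ) * 4 ^ j := by
              rw [h4, ← Real.rpow_add h5]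
              congr 1
              ring
            rw [h10]
            ring
    have h3 : 0 ≤ ((2:ℝ) ^ (-θ)) ^ j * T ^ (-β) := by positivity
    calc 131072 / c0 ^ 4 * (T / 4 ^ j)
        ≤ 131072 / c0 ^ 4 * (1 / c0 ^ 2 * (((2:ℝ) ^ (-θ)) ^ j * T ^ (-β))) :=
          mul_le_mul_of_nonneg_left h1 (by positivity)
      _ = 131072 / c0 ^ 6 * (((2:ℝ) ^ (-θ)) ^ j * T ^ (-β)) := by
          field_simp
      _ ≤ (C + 131072 / c0 ^ 6) * (((2:ℝ) ^ (-θ)) ^ j * T ^ (-β)) := by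
          apply mul_le_mul_of_nonneg_right _ h3
          linarith
      _ = _ := by ring

end Pool.Agent.SDT.N1S

end -- N1S.S4

section -- N1S.S5

/-!
N1S, part 5: the `L^p` estimates of the strips, and the whole sphere of dimension two.
-/

namespace Pool.Agent.SDT.N1S

open MeasureTheory Set Metric Pool.Agent.SDT.MP_6cbfb8_an Pool.Agent.SDT.MST Pool.Agent.SDT.N1
open scoped ENNReal Real

/-- The `L^p` estimate of a strip in the chart. -/
theorem opj_Lp (c0 : ℝ) (hc : 0 < c0) (hc1 : c0 ≤ 1) (K : ℕ) (h : L4E c0 K) (A : ℝ → ℝ) (p : ℝ)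
    (hp : 3 < p) (hp4 : p < 4) :
    ∃ (C : ℝ≥0∞) (r : ℝ), C ≠ ∞ ∧ 0 < r ∧ r < 1 ∧ ∀ (j : ℕ) (G : ℝ × ℝ → ℂ), Measurable G →
      (∀ x, ‖G x‖ ≤ 1) → LB A G →
      ∫⁻ t : ℝ, ∫⁻ x : E 2, ‖op2 (aj c0 j) idM t (pl G) x‖ₑ ^ p ≤ C * ENNReal.ofReal (r ^ j) := by
  set β : ℝ := ((4 - p) / (p - 2) + 1) / 2 with hβ
  have hp2 : 0 < p - 2 := by linarith
  have hq : (4 - p) / (p - 2) < 1 := by rw [div_lt_one hp2]; linarith
  have hq0 : 0 < (4 - p) / (p - 2) := div_pos (by linarith) hp2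
  have hβ0 : 0 ≤ β := by rw [hβ]; linarith
  have hβ1 : β < 1 := by rw [hβ]; linarith
  have hβ2 : 4 - p < β * (p - 2) := by
    have : (4 - p) / (p - 2) < β := by rw [hβ]; linarith
    rwa [div_lt_iff₀ hp2] at this
  obtain ⟨C, r, hC, hr0, hr1, H⟩ := L4j_all c0 hc hc1 K h A β hβ0 hβ1
  obtain ⟨Cs, hCs, hsum⟩ := time_sum (Measure.dirac ()) (volume : Measure (E 2)) p β (by linarith)
    hp4 hβ2
  obtain ⟨r1, hr1'⟩ : ∃ r1 : ℝ, r1 = 2 ^ (-(p - 2)) := ⟨_, rfl⟩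
  obtain ⟨r2, hr2'⟩ : ∃ r2 : ℝ, r2 = r ^ ((p - 2) / 2) := ⟨_, rfl⟩
  have hr1p : 0 < r1 := by rw [hr1']; positivity
  have hr2p : 0 < r2 := by rw [hr2']; positivity
  have hr11 : r1 < 1 := by
    rw [hr1']
    exact Real.rpow_lt_one_of_one_lt_of_neg one_lt_two (by linarith)
  have hr21 : r2 < 1 := by
    rw [hr2']
    exact Real.rpow_lt_one hr0.le hr1 (by linarith)
  refine ⟨Cs * (ENNReal.ofReal ((32 / c0) ^ (p - 2)) * ENNReal.ofReal (64 / c0 ^ 2) +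
    ENNReal.ofReal (64 / c0 ^ 2) ^ ((4 - p) / 2) * ENNReal.ofReal (C ^ ((p - 2) / 2))),
    max r1 r2, ?_, lt_max_of_lt_left hr1p, max_lt hr11 hr21, ?_⟩
  · refine ENNReal.mul_ne_top hCs (ENNReal.add_ne_top.2 ⟨ENNReal.mul_ne_top ENNReal.ofReal_ne_top
      ENNReal.ofReal_ne_top, ENNReal.mul_ne_top ?_ ENNReal.ofReal_ne_top⟩)
    exact ENNReal.rpow_ne_top_of_nonneg (by linarith) ENNReal.ofReal_ne_top
  intro j G hG hb hcls
  have mG := pl_meas G hG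
  have nG := pl_norm G 1 hb
  have hbd := fun t : ℝ => opj_one c0 j hc hc1 t (pl G) mG nG
  have hm : Measurable fun q : Unit × ℝ × E 2 => op2 (aj c0 j) idM q.2.1 (pl G) q.2.2 :=
    (opj_meas c0 j (pl G) mG).comp (f := fun q : Unit × ℝ × E 2 => (q.2.1, q.2.2)) (by fun_prop)
  have key := hsum (fun _ t x => op2 (aj c0 j) idM t (pl G) x) hm
    (ENNReal.ofReal (64 / c0 ^ 2)) (ENNReal.ofReal (32 / c0 / 2 ^ j)) (ENNReal.ofReal (C * r ^ j))
    (fun _ t => (hbd t).2) (fun _ t x => (hbd t).1 x) (fun T hT => by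
      rw [lintegral_dirac]
      refine (H j T hT G hG hb hcls).trans (le_of_eq ?_)
      rw [← ENNReal.ofReal_mul (by positivity)])
  rw [lintegral_dirac] at key
  refine key.trans ?_
  have h1 : ENNReal.ofReal (32 / c0 / 2 ^ j) ^ (p - 2) =
      ENNReal.ofReal ((32 / c0) ^ (p - 2)) * ENNReal.ofReal (r1 ^ j) := by
    rw [ENNReal.ofReal_rpow_of_nonneg (by positivity) hp2.le, ← ENNReal.ofReal_mul (by positivity)]
    congr 1
    rw [div_eq_mul_inv (32 / c0) (2 ^ j), Real.mul_rpow (by positivity) (by positivity)]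
    congr 1
    rw [hr1', ← Real.rpow_natCast 2 j, ← Real.rpow_neg (by norm_num), ← Real.rpow_mul (by norm_num),
      ← Real.rpow_natCast (2 ^ (-(p - 2))) j, ← Real.rpow_mul (by norm_num)]
    congr 1
    ring
  have h2 : ENNReal.ofReal (C * r ^ j) ^ ((p - 2) / 2) =
      ENNReal.ofReal (C ^ ((p - 2) / 2)) * ENNReal.ofReal (r2 ^ j) := by
    rw [ENNReal.ofReal_rpow_of_nonneg (by positivity) (by linarith),
      ← ENNReal.ofReal_mul (by positivity)]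
    congr 1
    rw [Real.mul_rpow (by positivity) (by positivity)]
    congr 1
    rw [hr2', ← Real.rpow_natCast r j, ← Real.rpow_mul hr0.le,
      ← Real.rpow_natCast (r ^ ((p - 2) / 2)) j, ← Real.rpow_mul hr0.le]
    congr 1
    ring
  have h3 : r1 ^ j ≤ max r1 r2 ^ j := pow_le_pow_left₀ hr1p.le (le_max_left _ _) j
  have h4 : r2 ^ j ≤ max r1 r2 ^ j := pow_le_pow_left₀ hr2p.le (le_max_right _ _) j
  rw [h1, h2, mul_assoc Cs]
  refine mul_le_mul_right ?_ _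
  rw [add_mul]
  refine add_le_add ?_ ?_
  · rw [mul_right_comm]
    gcongr
  · rw [← mul_assoc]
    gcongr

/-- The density of the strip of index `j` on the upper half of the sphere. -/
noncomputable def Dj (c0 : ℝ) (j : ℕ) (G : E 2 → ℂ) (x : E 3) : ℂ :=
  if 0 < x (Fin.last 2) then G (fstE (k := 2) (l := 1) x) *
    ((bj c0 j (x (Fin.last 2)) : ℝ) : ℂ) else 0

theorem Dj_meas (c0 : ℝ) (j : ℕ) (G : E 2 → ℂ) (hG : Measurable G) : Measurable (Dj c0 j G) := by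
  unfold Dj
  refine Measurable.ite (measurableSet_lt measurable_const (by fun_prop)) ?_ measurable_const
  refine Measurable.mul (hG.comp ?_) (Complex.measurable_ofReal.comp ((bj_meas c0 j).comp ?_))
  · unfold fstE
    fun_prop
  · fun_prop

theorem Dj_norm (c0 : ℝ) (hc : 0 < c0) (j : ℕ) (G : E 2 → ℂ) (hb : ∀ w, ‖G w‖ ≤ 1) (x : E 3) :
    ‖Dj c0 j G x‖ ≤ 1 := by
  unfold Dj
  split_ifs
  · rw [norm_mul, Complex.norm_real, Real.norm_eq_abs]
    exact mul_le_one₀ (hb _) (abs_nonneg _) (bj_abs c0 hc j _)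
  · simp

/-- The chart. -/
theorem chartj (c0 : ℝ) (hc : 0 < c0) (j : ℕ) (G : E 2 → ℂ) (hG : Measurable G) (X : E 2) (t : ℝ) :
    extn (Dj c0 j G) (join X t) = op2 (aj c0 j) idM t G X := by
  have hgm : Measurable fun x : E (1 + 2) => G (fstE (k := 2) (l := 1) x) *
      ((bj c0 j (x (Fin.last (1 + 1))) : ℝ) : ℂ) := by
    refine Measurable.mul (hG.comp ?_) (Complex.measurable_ofReal.comp ((bj_meas c0 j).comp ?_))
    · unfold fstE
      fun_prop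
    · fun_prop
  have h1 := hct_chart 1 _ hgm X t
  have h2 : extn (Dj c0 j G) (join X t) = extn (fun x : E (1 + 2) =>
      if 0 < x (Fin.last (1 + 1)) then G (fstE (k := 2) (l := 1) x) *
      ((bj c0 j (x (Fin.last (1 + 1))) : ℝ) : ℂ) else 0) (join X t) := rfl
  rw [h2, h1]
  unfold op2
  rw [← setIntegral_eq_integral_of_forall_compl_eq_zero (s := Metric.ball (0 : E (1 + 1)) 1)
    (f := fun w : E 2 => G w * amp2 (aj c0 j) idM t w * ex (inner ℝ w X))]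
  · refine setIntegral_congr_fun Metric.isOpen_ball.measurableSet fun u hu => ?_
    simp only
    rw [hct_fst_join, join_last, hct_ex_add, mul_comm _ t]
    unfold amp2 vN aj
    rw [mv_idM]
    push_cast
    ring
  · intro u hu
    rw [mem_ball_zero_iff, not_lt] at hu
    have h3 : vN idM u ≤ 0 := by
      unfold vN
      rw [mv_idM]
      nlinarith
    have h4 : aj c0 j (vN idM u) = 0 := by
      by_contra h5
      have h6 := (aj_supp c0 hc j _ h5).1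
      have : 0 < cj c0 j ^ 2 / 4 := by
        have := cj_pos hc j
        positivity
      linarith
    unfold amp2
    rw [h4]
    simp

theorem Dj_Lp (c0 : ℝ) (hc : 0 < c0) (j : ℕ) (G : E 2 → ℂ) (hG : Measurable G) (p : ℝ) :
    ∫⁻ ξ : E 3, ‖extn (Dj c0 j G) ξ‖ₑ ^ p =
      ∫⁻ t : ℝ, ∫⁻ x : E 2, ‖op2 (aj c0 j) idM t G x‖ₑ ^ p := by
  have hem : Measurable fun ξ : E (2 + 1) => ‖extn (Dj c0 j G) ξ‖ₑ ^ p :=
    (measurable_extn _ (Dj_meas c0 j G hG)).enorm.pow_const _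
  have h1 := lintegral_join 2 _ hem
  rw [lintegral_lintegral_swap] at h1
  · refine Eq.trans h1 ?_
    refine lintegral_congr fun t => lintegral_congr fun x => ?_
    rw [chartj c0 hc j G hG]
  · exact (hem.comp measurable_join).aemeasurable

end Pool.Agent.SDT.N1S

end -- N1S.S5
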