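import Pool.Agent.SDT.B26
import Pool.Agent.SDT.B27
import Pool.Agent.SDT.B43

set_option autoImplicit false

namespace Pool.Agent.SDT.MP_6cbfb8_an
end Pool.Agent.SDT.MP_6cbfb8_an
namespace Pool.Agent.SDT.MST
end Pool.Agent.SDT.MST

section -- N1.HL4

/-!
The local oscillatory estimate, degenerate case (interface statement `HLk`).
-/

namespace Pool.Agent.SDT.N1

open MeasureTheory Set Metric Pool.Agent.SDT.MP_6cbfb8_an Pool.Agent.SDT.MST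
open scoped ENNReal Real ContDiff

theorem hl_fd1 {P : Type*} [NormedAddCommGroup P] [NormedSpace ℝ P]
    (f : P × V → ℝ) (hf : ContDiff ℝ ∞ f) (p : P) (a u : V) :
    fderiv ℝ (fun a => f (p, a)) a u = fderiv ℝ f (p, a) (0, u) := by
  have h1 : HasFDerivAt f (fderiv ℝ f (p, a)) (p, a) :=
    ((hf.differentiable (by simp)) _).hasFDerivAt
  have h2 : HasFDerivAt (fun a : V => ((p, a) : P × V))
      ((0 : V →L[ℝ] P).prod (ContinuousLinearMap.id ℝ V)) a :=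
    (hasFDerivAt_const p a).prodMk (hasFDerivAt_id a)
  have h3 := (h1.comp a h2).fderiv
  have h4 : fderiv ℝ (fun a => f (p, a)) a =
      (fderiv ℝ f (p, a)).comp ((0 : V →L[ℝ] P).prod (ContinuousLinearMap.id ℝ V)) := h3
  rw [h4]
  rfl

theorem hl_fd2 {P : Type*} [NormedAddCommGroup P] [NormedSpace ℝ P]
    (f : P × V × V → ℝ) (hf : ContDiff ℝ ∞ f) (p : P) (a b u : V) :
    fderiv ℝ (fun a => f (p, a, b)) a u = fderiv ℝ f (p, a, b) (0, u, 0) := by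
  have h1 : HasFDerivAt f (fderiv ℝ f (p, a, b)) (p, a, b) :=
    ((hf.differentiable (by simp)) _).hasFDerivAt
  have h2 : HasFDerivAt (fun a : V => ((p, a, b) : P × V × V))
      ((0 : V →L[ℝ] P).prod ((ContinuousLinearMap.id ℝ V).prod (0 : V →L[ℝ] V))) a :=
    (hasFDerivAt_const p a).prodMk ((hasFDerivAt_id a).prodMk (hasFDerivAt_const b a))
  have h3 := (h1.comp a h2).fderiv
  have h4 : fderiv ℝ (fun a => f (p, a, b)) a = (fderiv ℝ f (p, a, b)).comp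
      ((0 : V →L[ℝ] P).prod ((ContinuousLinearMap.id ℝ V).prod (0 : V →L[ℝ] V))) := h3
  rw [h4]
  rfl

theorem hl_fd3 {P : Type*} [NormedAddCommGroup P] [NormedSpace ℝ P]
    (f : P × V × V → ℝ) (hf : ContDiff ℝ ∞ f) (p : P) (a b u e : V) :
    fderiv ℝ (fun b => fderiv ℝ f (p, a, b) (0, u, 0)) b e =
      fderiv ℝ (fderiv ℝ f) (p, a, b) (0, u, 0) (0, 0, e) := by
  have hDf : ContDiff ℝ ∞ (fderiv ℝ f) := hf.fderiv_right (by simp)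
  have h1 : HasFDerivAt (fderiv ℝ f) (fderiv ℝ (fderiv ℝ f) (p, a, b)) (p, a, b) :=
    ((hDf.differentiable (by simp)) _).hasFDerivAt
  have h2 : HasFDerivAt (fun b : V => ((p, a, b) : P × V × V))
      ((0 : V →L[ℝ] P).prod ((0 : V →L[ℝ] V).prod (ContinuousLinearMap.id ℝ V))) b :=
    (hasFDerivAt_const p b).prodMk ((hasFDerivAt_const a b).prodMk (hasFDerivAt_id b))
  have h3 := h1.comp b h2
  have h4 : HasFDerivAt (fun b : V => fderiv ℝ f (p, a, b) (0, u, 0))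
      ((ContinuousLinearMap.apply ℝ ℝ ((0, u, 0) : P × V × V)).comp
        ((fderiv ℝ (fderiv ℝ f) (p, a, b)).comp
          ((0 : V →L[ℝ] P).prod ((0 : V →L[ℝ] V).prod (ContinuousLinearMap.id ℝ V))))) b :=
    (ContinuousLinearMap.apply ℝ ℝ ((0, u, 0) : P × V × V)).hasFDerivAt.comp b h3
  rw [h4.fderiv]
  have h5 : IsSymmSndFDerivAt ℝ f (p, a, b) := hf.contDiffAt.isSymmSndFDerivAt
    (by rw [minSmoothness_of_isRCLikeNormedField]; exact WithTop.coe_le_coe.mpr le_top)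
  exact h5.eq (0, 0, e) (0, u, 0)

theorem hl_mem2 {P : Type*} [NormedAddCommGroup P] {p p0 : P} {a a0 : V} {r : ℝ} :
    ((p, a) : P × V) ∈ ball ((p0, a0) : P × V) r ↔ p ∈ ball p0 r ∧ a ∈ ball a0 r := by
  simp only [mem_ball, Prod.dist_eq, max_lt_iff]

theorem HLk {P : Type*} [NormedAddCommGroup P] [NormedSpace ℝ P] [FiniteDimensional ℝ P]
    (w : P × V → ℝ) (σ : P × V → ℝ) (g : P × V × V → ℝ)
    (c : ℝ × P × V × V → ℝ) (p0 : P) (a0 b0 : V) (r s0 s1 : ℝ)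
    (hr : 0 < r) (hs0 : 0 < s0)
    (hw : ContDiffOn ℝ ∞ w (ball (p0, a0) r)) (hσ : ContDiffOn ℝ ∞ σ (ball (p0, b0) r))
    (hg : ContDiffOn ℝ ∞ g (ball (p0, a0, b0) r))
    (hc : ContDiffOn ℝ ∞ c (univ ×ˢ ball (p0, a0, b0) r))
    (hcs : ∀ s, ∀ q ∈ ball (p0, a0, b0) r, c (s, q) ≠ 0 → s0 ≤ |s| ∧ |s| ≤ s1)
    (h1 : fderiv ℝ (fun a => w (p0, a)) a0 (1, 0, 0) ≠ 0)
    (h2 : fderiv ℝ (fun b => σ (p0, b)) b0 (1, 0, 0) ≠ 0)
    (hnd : ∀ u : V, fderiv ℝ (fun a => w (p0, a)) a0 u = 0 →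
      (∀ e : V, fderiv ℝ (fun b => σ (p0, b)) b0 e = 0 →
        fderiv ℝ (fun b => fderiv ℝ (fun a => g (p0, a, b)) a0 u) b0 e = 0) → u = 0) :
    ∃ δ : ℝ, 0 < δ ∧ ∃ C : ℝ, 0 ≤ C ∧ ∀ p ∈ ball p0 δ, ∀ κ lam : ℝ, 0 < κ → κ < δ → 0 < lam →
      ∀ A B : V → ℂ, Measurable A → Measurable B → (∀ a, ‖A a‖ ≤ 1) → (∀ b, ‖B b‖ ≤ 1) →
      (∀ a, A a ≠ 0 → a ∈ ball a0 δ) → (∀ b, B b ≠ 0 → b ∈ ball b0 δ) →
      ‖∫ q : V × V, A q.1 * B q.2 * ∫ s : ℝ, ((c (s, p, q.1, q.2) : ℝ) : ℂ) *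
        ex (lam * (s * (w (p, q.1) - σ (p, q.2) + κ * g (p, q.1, q.2))))‖ ≤ C / (lam ^ 2 * κ) := by
  obtain ⟨wt, hwt, ewt⟩ := ext_smooth w (p0, a0) r hr hw
  obtain ⟨σt, hσt, eσt⟩ := ext_smooth σ (p0, b0) r hr hσ
  obtain ⟨gt, hgt, egt⟩ := ext_smooth g (p0, a0, b0) r hr hg
  obtain ⟨ct, hct, ect, sct⟩ := ext_amp c (p0, a0, b0) r hr hc
  have hs : ∀ s q, ct (s, q) ≠ 0 → s0 ≤ |s| ∧ |s| ≤ s1 :=
    fun s q h => hcs s q (sct s q h).1 (sct s q h).2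
  have hr2 : 0 < r / 2 := by positivity
  have e1 : fderiv ℝ (fun a => wt (p0, a)) a0 = fderiv ℝ (fun a => w (p0, a)) a0 := by
    apply Filter.EventuallyEq.fderiv_eq
    filter_upwards [ball_mem_nhds a0 hr2] with a ha
    exact ewt _ (hl_mem2.2 ⟨mem_ball_self hr2, ha⟩)
  have e2 : fderiv ℝ (fun b => σt (p0, b)) b0 = fderiv ℝ (fun b => σ (p0, b)) b0 := by
    apply Filter.EventuallyEq.fderiv_eq
    filter_upwards [ball_mem_nhds b0 hr2] with b hb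
    exact eσt _ (hl_mem2.2 ⟨mem_ball_self hr2, hb⟩)
  have e3' : ∀ b ∈ ball b0 (r / 2), fderiv ℝ (fun a => gt (p0, a, b)) a0
      = fderiv ℝ (fun a => g (p0, a, b)) a0 := by
    intro b hb
    apply Filter.EventuallyEq.fderiv_eq
    filter_upwards [ball_mem_nhds a0 hr2] with a ha
    exact egt _ (mem_ball3.2 ⟨mem_ball_self hr2, ha, hb⟩)
  have e3 : ∀ u : V, fderiv ℝ (fun b => fderiv ℝ (fun a => gt (p0, a, b)) a0 u) b0
      = fderiv ℝ (fun b => fderiv ℝ (fun a => g (p0, a, b)) a0 u) b0 := by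
    intro u
    apply Filter.EventuallyEq.fderiv_eq
    filter_upwards [ball_mem_nhds b0 hr2] with b hb
    rw [e3' b hb]
  have e4 : ∀ u e : V, fderiv ℝ (fderiv ℝ gt) (p0, a0, b0) (0, u, 0) (0, 0, e) =
      fderiv ℝ (fun b => fderiv ℝ (fun a => g (p0, a, b)) a0 u) b0 e := by
    intro u e
    rw [← e3 u, ← hl_fd3 gt hgt]
    have h5 : (fun b => fderiv ℝ (fun a => gt (p0, a, b)) a0 u) =
        fun b => fderiv ℝ gt (p0, a0, b) (0, u, 0) := by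
      funext b
      exact hl_fd2 gt hgt p0 a0 b u
    rw [h5]
  obtain ⟨δ₀, c₀, C₁, hδ₀, hc₀, hC₁, hD⟩ := HL_geo wt σt gt p0 a0 b0 s0 s1 hs0 hwt hσt hgt
    (by rw [← hl_fd1 wt hwt, e1]; exact h1) (by rw [← hl_fd1 σt hσt, e2]; exact h2)
    (by
      intro u hu hu2
      refine hnd u ?_ (fun e he => ?_)
      · rw [← e1, hl_fd1 wt hwt]
        exact hu
      · rw [← e4]
        refine hu2 e ?_
        rw [← hl_fd1 σt hσt, e2]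
        exact he)
  set δ₁ := min δ₀ (r / 2) with hδ₁
  have hδ₁0 : 0 < δ₁ := lt_min hδ₀ hr2
  have hδ₁δ : δ₁ ≤ δ₀ := min_le_left _ _
  obtain ⟨φ, C₂, hC₂, hA⟩ := ampl ct hct s0 s1 hs p0 a0 b0 δ₁ δ₁ hδ₁0
  obtain ⟨Cb, hCb, hb⟩ := bil c₀ (max C₁ C₂) δ₁ s0 s1 hc₀ hδ₁0
  obtain ⟨Cv, hCv, hv⟩ := vol_HL a0 δ₁ c₀ hc₀
  refine ⟨δ₁ / 2, by positivity, Real.sqrt (Cb * Cv), Real.sqrt_nonneg _, ?_⟩
  intro p hp κ lam hκ hκδ hlam A B mA mB bA bB sA sB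
  have hp1 : p ∈ ball p0 δ₁ := ball_subset_ball (by linarith) hp
  have hp0 : p ∈ ball p0 δ₀ := ball_subset_ball hδ₁δ hp1
  obtain ⟨hDich, hmono⟩ := hD p hp0 κ hκ (by linarith)
  have key := hb (fun a b => wt (p, a) - σt (p, b) + κ * gt (p, a, b))
    (fun a a' => |wt (p, a) - wt (p, a')| + κ * ‖a - a'‖) a0 b0 δ₁
    (fun s a b => ct (s, p, a, b)) φ ((hDich δ₁ δ₁ hδ₁δ hδ₁δ).mono (le_max_left _ _))
    ((hA p hp1).mono (le_max_right _ _)) lam hlam A B mA mB bA bB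
    (fun a ha => ball_subset_ball (by linarith) (sA a ha)) sB
  have hle : δ₁ / 2 ≤ r / 2 := by
    have := min_le_right δ₀ (r / 2)
    linarith
  have heq : ∫ q : V × V, A q.1 * B q.2 * ∫ s : ℝ, ((c (s, p, q.1, q.2) : ℝ) : ℂ) *
        ex (lam * (s * (w (p, q.1) - σ (p, q.2) + κ * g (p, q.1, q.2))))
      = ∫ q : V × V, A q.1 * B q.2 * kk lam (fun s a b => ct (s, p, a, b))
        (fun a b => wt (p, a) - σt (p, b) + κ * gt (p, a, b)) q.1 q.2 := by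
    apply integral_congr_ae
    filter_upwards with q
    by_cases h1 : A q.1 = 0
    · simp [h1]
    by_cases h2 : B q.2 = 0
    · simp [h2]
    have hpr : p ∈ ball p0 (r / 2) := ball_subset_ball hle hp
    have har : q.1 ∈ ball a0 (r / 2) := ball_subset_ball hle (sA _ h1)
    have hbr : q.2 ∈ ball b0 (r / 2) := ball_subset_ball hle (sB _ h2)
    have hq : ((p, q.1, q.2) : P × V × V) ∈ ball ((p0, a0, b0) : P × V × V) (r / 2) :=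
      mem_ball3.2 ⟨hpr, har, hbr⟩
    unfold kk
    congr 1
    apply integral_congr_ae
    filter_upwards with s
    rw [ect s _ hq, egt _ hq, ewt _ (hl_mem2.2 ⟨hpr, har⟩), eσt _ (hl_mem2.2 ⟨hpr, hbr⟩)]
  rw [heq]
  have hwp : ContDiff ℝ ∞ (fun a : V => wt (p, a)) := hwt.comp (by fun_prop)
  have hv' := hv (fun a => wt (p, a)) lam κ hwp hlam hκ
    (fun a ha => hmono a (closedBall_subset_closedBall hδ₁δ ha))
  have h3 : ‖∫ q : V × V, A q.1 * B q.2 * kk lam (fun s a b => ct (s, p, a, b))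
        (fun a b => wt (p, a) - σt (p, b) + κ * gt (p, a, b)) q.1 q.2‖ ^ 2 ≤
        (Cb * Cv) / (lam ^ 2 * κ) ^ 2 := by
    refine key.trans ?_
    calc Cb / lam * ∫ a in ball a0 δ₁, ∫ a' in ball a0 δ₁,
          1 / (1 + lam * (|wt (p, a) - wt (p, a')| + κ * ‖a - a'‖)) ^ 6
        ≤ Cb / lam * (Cv / (lam ^ 3 * κ ^ 2)) := mul_le_mul_of_nonneg_left hv' (by positivity)
      _ = (Cb * Cv) / (lam ^ 2 * κ) ^ 2 := by
        field_simp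
  have h4 := Real.abs_le_sqrt h3
  rw [abs_of_nonneg (norm_nonneg _), Real.sqrt_div' _ (by positivity),
    Real.sqrt_sq (by positivity)] at h4
  exact h4

end Pool.Agent.SDT.N1

end -- N1.HL4

section -- N1.GN2

/-!
N1, block G: Proposition N, proof.
-/

namespace Pool.Agent.SDT.N1

open MeasureTheory Set Metric Pool.Agent.SDT.MP_6cbfb8_an Pool.Agent.SDT.MST
open scoped ENNReal Real ContDiff Topology

/-- Good points in case (N). -/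
def okN (c : ℝ) (x : (ℝ × ℝ) × V × V) : Prop :=
  x.2.1.1 ≠ 0 ∧ 0 < x.2.1.2.1 ∧ x.2.1.2.2 ≠ 0 ∧ x.2.2.1 ≠ 0 ∧ 0 < x.2.2.2.1 ∧ x.2.2.2.2 ≠ 0 ∧
    c ^ 2 / 8 < 1 - x.2.1.2.1 ^ 2 - x.2.2.2.1 ^ 2

lemma okN_ev (c : ℝ) (x : (ℝ × ℝ) × V × V) (h : okN c x) : ∀ᶠ y in 𝓝 x, okN c y := by
  obtain ⟨h1, h2, h3, h4, h5, h6, h7⟩ := h
  have e1 : ∀ᶠ y : (ℝ × ℝ) × V × V in 𝓝 x, y.2.1.1 ≠ 0 :=
    (by fun_prop : ContinuousAt (fun y : (ℝ × ℝ) × V × V => y.2.1.1) x).eventually_ne h1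
  have e2 : ∀ᶠ y : (ℝ × ℝ) × V × V in 𝓝 x, 0 < y.2.1.2.1 :=
    (by fun_prop : ContinuousAt (fun y : (ℝ × ℝ) × V × V => y.2.1.2.1) x).eventually
      (lt_mem_nhds h2)
  have e3 : ∀ᶠ y : (ℝ × ℝ) × V × V in 𝓝 x, y.2.1.2.2 ≠ 0 :=
    (by fun_prop : ContinuousAt (fun y : (ℝ × ℝ) × V × V => y.2.1.2.2) x).eventually_ne h3
  have e4 : ∀ᶠ y : (ℝ × ℝ) × V × V in 𝓝 x, y.2.2.1 ≠ 0 :=
    (by fun_prop : ContinuousAt (fun y : (ℝ × ℝ) × V × V => y.2.2.1) x).eventually_ne h4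
  have e5 : ∀ᶠ y : (ℝ × ℝ) × V × V in 𝓝 x, 0 < y.2.2.2.1 :=
    (by fun_prop : ContinuousAt (fun y : (ℝ × ℝ) × V × V => y.2.2.2.1) x).eventually
      (lt_mem_nhds h5)
  have e6 : ∀ᶠ y : (ℝ × ℝ) × V × V in 𝓝 x, y.2.2.2.2 ≠ 0 :=
    (by fun_prop : ContinuousAt (fun y : (ℝ × ℝ) × V × V => y.2.2.2.2) x).eventually_ne h6
  have e7 : ∀ᶠ y : (ℝ × ℝ) × V × V in 𝓝 x, c ^ 2 / 8 < 1 - y.2.1.2.1 ^ 2 - y.2.2.2.1 ^ 2 :=
    (by fun_prop : ContinuousAt (fun y : (ℝ × ℝ) × V × V =>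
      1 - y.2.1.2.1 ^ 2 - y.2.2.2.1 ^ 2) x).eventually (lt_mem_nhds h7)
  filter_upwards [e1, e2, e3, e4, e5, e6, e7] with y d1 d2 d3 d4 d5 d6 d7
  exact ⟨d1, d2, d3, d4, d5, d6, d7⟩

lemma qfx_smooth (c : ℝ) (hc : 0 < c) :
    ContDiff ℝ ∞ fun x : (ℝ × ℝ) × V × V => qf c x.2.1.2.1 x.2.2.2.1 :=
  qf_comp c hc (f := fun x : (ℝ × ℝ) × V × V => x.2.1.2.1)
    (g := fun x : (ℝ × ℝ) × V × V => x.2.2.2.1) (by fun_prop) (by fun_prop)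

lemma EN_smooth (c : ℝ) (hc : 0 < c) (x : (ℝ × ℝ) × V × V) (h : okN c x) :
    ContDiffAt ℝ ∞ (EN c) x := by
  unfold EN
  refine ContDiffAt.div (by fun_prop) ((qfx_smooth c hc).contDiffAt.pow 3) ?_
  exact (pow_pos (qf_pos c hc _ _ h.2.2.2.2.2.2.le) 3).ne'

lemma EN_ne (c : ℝ) (hc : 0 < c) (x : (ℝ × ℝ) × V × V) (h : okN c x) : EN c x ≠ 0 := by
  unfold EN
  obtain ⟨h1, h2, h3, h4, h5, h6, h7⟩ := h
  exact div_ne_zero (neg_ne_zero.2 (mul_ne_zero (mul_ne_zero h1 h4) (mul_ne_zero h3 h6)))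
    (pow_pos (qf_pos c hc _ _ h7.le) 3).ne'

theorem propN (c : ℝ) (hc : 0 < c) (x0 y0 z0 : ℝ × ℝ) (hx : x0 ∈ Kc c) (hy1 : y0.1 ≠ 0)
    (hy2 : y0.2 ≠ 0) (hz1 : z0.1 ≠ 0) (hz2 : z0.2 ≠ 0) :
    ∃ δ : ℝ, 0 < δ ∧ ∃ C : ℝ, 0 ≤ C ∧ ∀ T ρ γ : ℝ, 0 < T → 0 < ρ → ρ < δ → 0 < γ → γ < δ →
      ∀ A B : V → ℂ, Measurable A → Measurable B → (∀ a, ‖A a‖ ≤ 1) → (∀ b, ‖B b‖ ≤ 1) →
      (∀ u, A u ≠ 0 → |u.1 / ρ - y0.1| ≤ δ ∧ |u.2.1 - x0.1| ≤ δ ∧ |u.2.2 / γ - z0.1| ≤ δ) →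
      (∀ v, B v ≠ 0 → |v.1 / ρ - y0.2| ≤ δ ∧ |v.2.1 - x0.2| ≤ δ ∧ |v.2.2 / γ - z0.2| ≤ δ) →
      ‖FF c T (tp A B)‖ ≤ C / T := by
  obtain ⟨G, k, hG, hk, key, -⟩ := Gfun c hc
  set a0 : V := (y0.1, x0.1, z0.1) with ha0
  set b0 : V := (y0.2, x0.2, z0.2) with hb0
  set p0 : ℝ × ℝ := (0, 0) with hp0
  have hc8 : 0 < c ^ 2 / 8 := by positivity
  have hok : okN c (p0, a0, b0) := by
    obtain ⟨k1, k2, k3⟩ := hx
    refine ⟨hy1, lt_of_lt_of_le hc k1, hz1, hy2, lt_of_lt_of_le hc k2, hz2, ?_⟩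
    show c ^ 2 / 8 < 1 - x0.1 ^ 2 - x0.2 ^ 2
    nlinarith
  -- the factor E near the base point
  have hE0 : 0 < |EN c (p0, a0, b0)| := abs_pos.2 (EN_ne c hc _ hok)
  set e := |EN c (p0, a0, b0)| with he
  have hEc : ContinuousAt (fun x => |EN c x|) (p0, a0, b0) :=
    (EN_smooth c hc _ hok).continuousAt.abs
  have ev : ∀ᶠ x in 𝓝 (p0, a0, b0), okN c x ∧ e / 2 ≤ |EN c x| ∧ |EN c x| ≤ 2 * e := by
    filter_upwards [okN_ev c _ hok, hEc.eventually (lt_mem_nhds (show e / 2 < e by linarith)),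
      hEc.eventually (gt_mem_nhds (show e < 2 * e by linarith))] with x d1 d2 d3
    exact ⟨d1, d2.le, d3.le⟩
  obtain ⟨r, hr, hball⟩ := g_ball ev
  -- apply RC
  have hF : ContDiffOn ℝ ∞ (fun x => G (ptN x) / EN c x) (ball (p0, a0, b0) r) := by
    intro x hx
    have h1 := (hball x hx).1
    exact ((hG.comp ptN_smooth).contDiffAt.div (EN_smooth c hc x h1)
      (EN_ne c hc x h1)).contDiffWithinAt
  have hcc : ContDiffOn ℝ ∞ (amN c (EN c)) (univ ×ˢ ball (p0, a0, b0) r) :=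
    amN_smooth c hc _ _ (fun x hx => (EN_smooth c hc x (hball x hx).1).contDiffWithinAt)
      (fun x hx => EN_ne c hc x (hball x hx).1)
  have hcs : ∀ s, ∀ q ∈ ball (p0, a0, b0) r, amN c (EN c) (s, q) ≠ 0 →
      e / 2 / 2 ≤ |s| ∧ |s| ≤ 3 * (2 * e) := fun s q hq h =>
    amN_supp c (EN c) (e / 2) (2 * e) s q (by linarith) (hball q hq).2.1 (hball q hq).2.2 h
  have hsep : ∀ᶠ q in 𝓝 (a0, b0), (fun q : V × V => G (ptN (p0, q.1, q.2)) /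
      EN c (p0, q.1, q.2)) q = nX0 q.1 + nX0 q.2 + nX1 q.1 * nX2 q.2 + nX2 q.1 * nX1 q.2 := by
    have h2 : Filter.Tendsto (fun q : V × V => (p0, q.1, q.2)) (𝓝 (a0, b0)) (𝓝 (p0, a0, b0)) :=
      (by fun_prop : Continuous fun q : V × V => (p0, q.1, q.2)).tendsto (a0, b0)
    filter_upwards [h2.eventually (okN_ev c _ hok)] with q hq
    obtain ⟨g1, g2, g3, g4, g5, g6, g7⟩ := hq
    simp only at g1 g2 g3 g4 g5 g6 g7
    have h3 : ptN (p0, q.1, q.2) = (0, (0, q.1, q.2)) := by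
      unfold ptN
      simp [hp0]
    show G (ptN (p0, q.1, q.2)) / EN c (p0, q.1, q.2) = _
    rw [h3, G_zero c hc G hG key 0 q.1 q.2 ⟨g2, by simpa using g2, g5, by simpa using g5, g7,
      by simpa using g7⟩]
    exact G0_N c hc q.1 q.2 g1 g2 g3 g4 g5 g6 g7
  have n0 := nX0_diff a0 hy1 hz1
  have n1 := nX1_diff a0 hz1
  have n2 := nX2_diff a0 hy1
  have m0 := nX0_diff b0 hy2 hz2
  have m1 := nX1_diff b0 hz2
  have m2 := nX2_diff b0 hy2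
  have hnd : ∀ (u : V) (d : ℝ), fderiv ℝ (fun a => G (ptN (p0, a, b0)) / EN c (p0, a, b0)) a0 u = 0 →
      (∀ e : V, fderiv ℝ (fun b => fderiv ℝ (fun a => G (ptN (p0, a, b)) / EN c (p0, a, b)) a0 u)
        b0 e + d * fderiv ℝ (fun b => G (ptN (p0, a0, b)) / EN c (p0, a0, b)) b0 e = 0) →
        u = 0 ∧ d = 0 := by
    intro u d h1 h2
    refine nd_N a0 b0 u d hy1 (lt_of_lt_of_le hc hx.1).ne' hz1 hy2
      (lt_of_lt_of_le hc hx.2.1).ne' hz2 ?_ ?_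
    · rw [← sep_1 _ nX0 nX1 nX2 nX0 nX2 nX1 a0 b0 hsep n0 n1 n2 u]
      exact h1
    · intro e'
      rw [← sep_2 _ nX0 nX1 nX2 nX0 nX2 nX1 a0 b0 hsep n0 n1 n2 m0 m2 m1 u e',
        ← sep_3 _ nX0 nX1 nX2 nX0 nX2 nX1 a0 b0 hsep n0 n1 n2 m0 m2 m1 e']
      exact h2 e'
  obtain ⟨δ, hδ, C, hC, hRC⟩ := RC (fun x => G (ptN x) / EN c x) (amN c (EN c)) p0 a0 b0 r
    (e / 2 / 2) (3 * (2 * e)) hr (by positivity) hF hcc hcs hnd
  set δ' := min δ r / 2 with hδ'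
  have hδp : 0 < min δ r := lt_min hδ hr
  have hδ1 : δ' < δ := by
    have := min_le_left δ r
    rw [hδ']; linarith
  have hδ2 : δ' < r := by
    have := min_le_right δ r
    rw [hδ']; linarith
  refine ⟨δ', by positivity, C, hC, ?_⟩
  intro T ρ γ hT hρ hρδ hγ hγδ A B hA hB hA1 hB1 hAs hBs
  have hball' : ∀ (u : V) (x y z : ℝ), |u.1 - x| ≤ δ' ∧ |u.2.1 - y| ≤ δ' ∧ |u.2.2 - z| ≤ δ' →
      ∀ R, δ' < R → u ∈ ball ((x, y, z) : V) R := by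
    intro u x y z h R hR
    rw [mem_ball, Prod.dist_eq, Prod.dist_eq, Real.dist_eq, Real.dist_eq, Real.dist_eq]
    exact max_lt (lt_of_le_of_lt h.1 hR) (max_lt (lt_of_le_of_lt h.2.1 hR)
      (lt_of_le_of_lt h.2.2 hR))
  have hAs' : ∀ u, A (Sc ρ γ u) ≠ 0 →
      |u.1 - y0.1| ≤ δ' ∧ |u.2.1 - x0.1| ≤ δ' ∧ |u.2.2 - z0.1| ≤ δ' := by
    intro u hu
    have h := hAs _ hu
    unfold Sc at h
    simp only at h
    rwa [mul_div_cancel_left₀ _ hρ.ne', mul_div_cancel_left₀ _ hγ.ne'] at h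
  have hBs' : ∀ u, B (Sc ρ γ u) ≠ 0 →
      |u.1 - y0.2| ≤ δ' ∧ |u.2.1 - x0.2| ≤ δ' ∧ |u.2.2 - z0.2| ≤ δ' := by
    intro u hu
    have h := hBs _ hu
    unfold Sc at h
    simp only at h
    rwa [mul_div_cancel_left₀ _ hρ.ne', mul_div_cancel_left₀ _ hγ.ne'] at h
  have hpR : ∀ R, δ' < R → ((ρ, γ) : ℝ × ℝ) ∈ ball p0 R := by
    intro R hR
    rw [mem_ball, Prod.dist_eq, Real.dist_eq, Real.dist_eq]
    simp only [hp0, sub_zero, abs_of_pos hρ, abs_of_pos hγ]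
    exact max_lt (hρδ.trans hR) (hγδ.trans hR)
  have hmain := hRC (ρ, γ) (hpR δ hδ1) (T * (ρ * γ)) (by positivity)
    (fun u => A (Sc ρ γ u)) (fun u => B (Sc ρ γ u)) (hA.comp (Sc_cont ρ γ).measurable)
    (hB.comp (Sc_cont ρ γ).measurable) (fun a => hA1 _) (fun b => hB1 _)
    (fun a ha => hball' a _ _ _ (hAs' a ha) δ hδ1) (fun b hb => hball' b _ _ _ (hBs' b hb) δ hδ1)
  have hid : FF c T (tp A B) = ((((ρ * γ) * (ρ * γ) : ℝ) : ℂ) * (T : ℂ)) *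
      ∫ q : V × V, A (Sc ρ γ q.1) * B (Sc ρ γ q.2) * ∫ s : ℝ,
        ((amN c (EN c) (s, (ρ, γ), q.1, q.2) : ℝ) : ℂ) *
        ex (T * (ρ * γ) * (s * (G (ptN ((ρ, γ), q.1, q.2)) / EN c ((ρ, γ), q.1, q.2)))) := by
    unfold FF
    rw [integral_scale _ ρ γ γ hρ hγ hγ, mul_assoc ((((ρ * γ) * (ρ * γ) : ℝ) : ℂ)) (T : ℂ),
      ← integral_const_mul (T : ℂ)]
    congr 1
    refine integral_congr_ae (Filter.Eventually.of_forall fun q => ?_)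
    simp only [tp]
    by_cases hq : A (Sc ρ γ q.1) = 0
    · rw [hq]; simp
    by_cases hq' : B (Sc ρ γ q.2) = 0
    · rw [hq']; simp
    have hin : (((ρ, γ), q.1, q.2) : (ℝ × ℝ) × V × V) ∈ ball (p0, a0, b0) r := by
      rw [mem_ball, Prod.dist_eq, Prod.dist_eq]
      exact max_lt (hpR r hδ2) (max_lt (hball' _ _ _ _ (hAs' _ hq) r hδ2)
        (hball' _ _ _ _ (hBs' _ hq') r hδ2))
    have hEne := EN_ne c hc _ (hball _ hin).1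
    rw [Fr_Sc c G key ρ γ q.1 q.2, Kt_scale T _ (EN c ((ρ, γ), q.1, q.2))
      (G (ptN ((ρ, γ), q.1, q.2)) / EN c ((ρ, γ), q.1, q.2)) hT hEne (ρ * γ)
      (by field_simp)]
    have h5 : ∀ s : ℝ, ((amN c (EN c) (s, (ρ, γ), q.1, q.2) : ℝ) : ℂ) *
        ex (T * (ρ * γ) * (s * (G (ptN ((ρ, γ), q.1, q.2)) / EN c ((ρ, γ), q.1, q.2)))) =
        ((Wr c (Sc ρ γ q.1) (Sc ρ γ q.2) : ℝ) : ℂ) *
        (((chi (s / EN c ((ρ, γ), q.1, q.2)) / |EN c ((ρ, γ), q.1, q.2)| : ℝ) : ℂ) *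
        ex (T * (ρ * γ) * (s * (G (ptN ((ρ, γ), q.1, q.2)) / EN c ((ρ, γ), q.1, q.2))))) := by
      intro s
      unfold amN
      simp only
      rw [Complex.ofReal_mul]
      ring
    simp only [h5]
    rw [integral_const_mul]
    ring
  rw [hid, norm_mul, norm_mul, Complex.norm_real, Complex.norm_real, Real.norm_eq_abs,
    Real.norm_eq_abs, abs_of_pos hT, abs_of_pos (by positivity)]
  calc ρ * γ * (ρ * γ) * T * ‖_‖ ≤ ρ * γ * (ρ * γ) * T * (C / (T * (ρ * γ)) ^ 2) :=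
        mul_le_mul_of_nonneg_left hmain (by positivity)
    _ = C / T := by
      field_simp

end Pool.Agent.SDT.N1

end -- N1.GN2

section -- N1.GQ

/-!
N1, block G: Proposition D, proof.
-/

namespace Pool.Agent.SDT.N1

open MeasureTheory Set Metric Pool.Agent.SDT.MP_6cbfb8_an Pool.Agent.SDT.MST
open scoped ENNReal Real ContDiff Topology

/-- The amplitude in scaled variables. -/
noncomputable def amD (c : ℝ) (Ef : P4 × V × V → ℝ) (x : ℝ × P4 × V × V) : ℝ :=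
  Wr c (Sc x.2.1.1 x.2.1.2.1 x.2.2.1) (Sc x.2.1.1 (x.2.1.2.2.1 * x.2.1.2.1) x.2.2.2) *
    (chi (x.1 / Ef x.2) / |Ef x.2|)

lemma amD_smooth (c : ℝ) (hc : 0 < c) (Ef : P4 × V × V → ℝ) (S : Set (P4 × V × V))
    (hE : ContDiffOn ℝ ∞ Ef S) (hE0 : ∀ x ∈ S, Ef x ≠ 0) :
    ContDiffOn ℝ ∞ (amD c Ef) (univ ×ˢ S) := by
  have h1 : ContDiffOn ℝ ∞ (fun x : ℝ × P4 × V × V => Ef x.2) (univ ×ˢ S) :=
    hE.comp contDiff_snd.contDiffOn (fun x hx => hx.2)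
  have h2 : ContDiff ℝ ∞ (fun x : ℝ × P4 × V × V =>
      Wr c (Sc x.2.1.1 x.2.1.2.1 x.2.2.1) (Sc x.2.1.1 (x.2.1.2.2.1 * x.2.1.2.1) x.2.2.2)) := by
    have h3 := (Wr_smooth c hc).comp (f := fun x : ℝ × P4 × V × V =>
      (((x.2.1.1 * x.2.2.1.1, x.2.2.1.2.1, x.2.1.2.1 * x.2.2.1.2.2) : V),
        ((x.2.1.1 * x.2.2.2.1, x.2.2.2.2.1, x.2.1.2.2.1 * x.2.1.2.1 * x.2.2.2.2.2) : V)))
        (by fun_prop)
    exact h3
  have h4 : ContDiffOn ℝ ∞ (fun x : ℝ × P4 × V × V => chi (x.1 / Ef x.2)) (univ ×ˢ S) :=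
    chi_smooth.comp_contDiffOn (contDiff_fst.contDiffOn.div h1 (fun x hx => hE0 _ hx.2))
  have h5 : ContDiffOn ℝ ∞ (fun x : ℝ × P4 × V × V => |Ef x.2|) (univ ×ˢ S) := by
    intro x hx
    exact (contDiffAt_abs (hE0 _ hx.2)).comp_contDiffWithinAt x (h1 x hx)
  exact h2.contDiffOn.mul (h4.div h5 (fun x hx => abs_ne_zero.2 (hE0 _ hx.2)))

lemma amD_supp (c : ℝ) (Ef : P4 × V × V → ℝ) (e0 e1 s : ℝ) (q : P4 × V × V)
    (he0 : 0 < e0) (h0 : e0 ≤ |Ef q|) (h1 : |Ef q| ≤ e1) (h : amD c Ef (s, q) ≠ 0) :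
    e0 / 2 ≤ |s| ∧ |s| ≤ 3 * e1 := by
  have hchi : chi (s / Ef q) ≠ 0 := by
    intro h2
    apply h
    unfold amD
    simp only
    rw [h2, zero_div, mul_zero]
  obtain ⟨g1, g2⟩ := chi_zero _ hchi
  have hE : 0 < |Ef q| := lt_of_lt_of_le he0 h0
  have h3 : |s| = |s / Ef q| * |Ef q| := by
    rw [abs_div]
    field_simp
  have h4 : |s / Ef q| = s / Ef q := abs_of_nonneg (by linarith)
  rw [h4] at h3
  rw [h3]
  constructor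
  · nlinarith
  · nlinarith

lemma wD_ev (c : ℝ) (x : P4 × V) (h2 : 0 < (aD x.1 x.2).2.1 - x.1.1 * (aD x.1 x.2).1) :
    ∀ᶠ y in 𝓝 x, 0 < (aD y.1 y.2).2.1 - y.1.1 * (aD y.1 y.2).1 := by
  unfold aD at *
  simp only at *
  exact (by fun_prop : ContinuousAt (fun y : P4 × V => y.2.2.1 - y.1.2.1 * y.2.2.2 / 2 -
      y.1.1 * y.2.1) x).eventually (lt_mem_nhds h2)

lemma sD_ev (x : P4 × V) (h2 : 0 < 1 - ((bD x.1 x.2).2.1 - x.1.1 * (bD x.1 x.2).1) ^ 2) :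
    ∀ᶠ y in 𝓝 x, 0 < 1 - ((bD y.1 y.2).2.1 - y.1.1 * (bD y.1 y.2).1) ^ 2 := by
  unfold bD at *
  simp only at *
  exact (by fun_prop : ContinuousAt (fun y : P4 × V => 1 - (y.2.2.1 -
    y.1.2.1 * (y.1.2.2.1 * y.2.2.2) / 2 - y.1.1 * y.2.1) ^ 2) x).eventually (lt_mem_nhds h2)

lemma wD_smooth (x : P4 × V) (h2 : 0 < (aD x.1 x.2).2.1 - x.1.1 * (aD x.1 x.2).1) :
    ContDiffAt ℝ ∞ wD x := by
  exact om_smooth (f1 := fun x : P4 × V => x.1.1) (f2 := fun x : P4 × V => (aD x.1 x.2).1)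
    (f3 := fun x : P4 × V => (aD x.1 x.2).2.1) (by fun_prop) (by unfold aD; fun_prop)
    (by unfold aD; fun_prop) x h2

lemma sD_smooth (x : P4 × V) (h2 : 0 < 1 - ((bD x.1 x.2).2.1 - x.1.1 * (bD x.1 x.2).1) ^ 2) :
    ContDiffAt ℝ ∞ sD x := by
  exact sg_smooth (f1 := fun x : P4 × V => x.1.1) (f2 := fun x : P4 × V => (bD x.1 x.2).1)
    (f3 := fun x : P4 × V => (bD x.1 x.2).2.1) (by fun_prop) (by unfold bD; fun_prop)
    (by unfold bD; fun_prop) x h2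

theorem propD (c : ℝ) (hc : 0 < c) (x0 y0 z0 : ℝ × ℝ) (hx : x0 ∈ Kc c) (hy1 : y0.1 ≠ 0)
    (hy2 : y0.2 ≠ 0) (_hN : Nf 0 y0 x0 = 0) (hz1 : z0.1 ≠ 0) (hz2 : z0.2 ≠ 0) (C5 : ℝ) :
    ∃ δ : ℝ, 0 < δ ∧ ∃ C : ℝ, 0 ≤ C ∧ ∀ T ρ γ κ : ℝ, 0 < T → 0 < ρ → ρ < δ → 0 < γ → γ < δ →
      0 < κ → κ < δ → γ ≤ C5 * κ →
      ∀ A B : V → ℂ, Measurable A → Measurable B → (∀ a, ‖A a‖ ≤ 1) → (∀ b, ‖B b‖ ≤ 1) →
      (∀ u, A u ≠ 0 → |u.1 / ρ - y0.1| ≤ δ ∧ |u.2.1 - x0.1| ≤ δ ∧ |u.2.2 / γ - z0.1| ≤ δ) →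
      (∀ v, B v ≠ 0 → |v.1 / ρ - y0.2| ≤ δ ∧ |v.2.1 - x0.2| ≤ δ ∧
        |v.2.2 / (κ * γ) - z0.2| ≤ δ) →
      ‖FF c T (tp A B)‖ ≤ C / T := by
  obtain ⟨G, k, hG, hk, key, hGk⟩ := Gfun c hc
  set a0 : V := (y0.1, x0.1, z0.1) with ha0
  set b0 : V := (y0.2, x0.2, z0.2) with hb0
  set p0 : P4 := (0, 0, 0, 0) with hp0
  have hc8 : 0 < c ^ 2 / 8 := by positivity
  have hx1 : 0 < x0.1 := lt_of_lt_of_le hc hx.1
  have hx2 : 0 < x0.2 := lt_of_lt_of_le hc hx.2.1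
  have hx3 : c ^ 2 / 8 < 1 - x0.1 ^ 2 - x0.2 ^ 2 := by
    obtain ⟨k1, k2, k3⟩ := hx
    nlinarith
  have hb1 : 0 < 1 - x0.2 ^ 2 := by nlinarith [sq_nonneg x0.1]
  have hok : okD c (p0, a0, b0) := by
    refine ⟨⟨?_, ?_, ?_, ?_, ?_, ?_⟩, hz1⟩ <;> simp only [aD, bD, hp0, ha0, hb0, zero_mul,
      sub_zero, zero_div, mul_zero]
    · exact hx1
    · exact hx1
    · exact hx2
    · exact hx2
    · exact hx3
    · exact hx3
  -- the factor E near the base point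
  have hE0 : 0 < |ED c (p0, a0, b0)| := abs_pos.2 (ED_smooth c hc _ hok).2
  set e := |ED c (p0, a0, b0)| with he
  have hEc : ContinuousAt (fun x => |ED c x|) (p0, a0, b0) :=
    (ED_smooth c hc _ hok).1.continuousAt.abs
  have ev : ∀ᶠ x in 𝓝 (p0, a0, b0), okD c x ∧ e / 2 ≤ |ED c x| ∧ |ED c x| ≤ 2 * e := by
    filter_upwards [okD_ev c _ hok, hEc.eventually (lt_mem_nhds (show e / 2 < e by linarith)),
      hEc.eventually (gt_mem_nhds (show e < 2 * e by linarith))] with x d1 d2 d3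
    exact ⟨d1, d2.le, d3.le⟩
  obtain ⟨r1, hr1, hball1⟩ := g_ball ev
  have hw0 : 0 < (aD p0 a0).2.1 - p0.1 * (aD p0 a0).1 := by
    simp only [aD, hp0, ha0, zero_mul, sub_zero, zero_div]
    exact hx1
  have hs0 : 0 < 1 - ((bD p0 b0).2.1 - p0.1 * (bD p0 b0).1) ^ 2 := by
    simp only [bD, hp0, hb0, zero_mul, sub_zero, zero_div]
    exact hb1
  obtain ⟨r2, hr2, hball2⟩ := g_ball (wD_ev c (p0, a0) hw0)
  obtain ⟨r3, hr3, hball3⟩ := g_ball (sD_ev (p0, b0) hs0)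
  set r := min r1 (min r2 r3) with hrdef
  have hr : 0 < r := lt_min hr1 (lt_min hr2 hr3)
  have hball : ∀ y ∈ ball (p0, a0, b0) r, okD c y ∧ e / 2 ≤ |ED c y| ∧ |ED c y| ≤ 2 * e :=
    fun y hy => hball1 y (ball_subset_ball (min_le_left _ _) hy)
  -- apply HLk
  have hw : ContDiffOn ℝ ∞ wD (ball (p0, a0) r) := fun x hx =>
    (wD_smooth x (hball2 x (ball_subset_ball ((min_le_right _ _).trans (min_le_left _ _))
      hx))).contDiffWithinAt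
  have hs : ContDiffOn ℝ ∞ sD (ball (p0, b0) r) := fun x hx =>
    (sD_smooth x (hball3 x (ball_subset_ball ((min_le_right _ _).trans (min_le_right _ _))
      hx))).contDiffWithinAt
  have hg : ContDiffOn ℝ ∞ (gD c k) (ball (p0, a0, b0) r) := fun x hx =>
    (gD_smooth c hc k hk x (hball x hx).1).contDiffWithinAt
  have hcc : ContDiffOn ℝ ∞ (amD c (ED c)) (univ ×ˢ ball (p0, a0, b0) r) :=
    amD_smooth c hc _ _ (fun x hx => (ED_smooth c hc x (hball x hx).1).1.contDiffWithinAt)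
      (fun x hx => (ED_smooth c hc x (hball x hx).1).2)
  have hcs : ∀ s, ∀ q ∈ ball (p0, a0, b0) r, amD c (ED c) (s, q) ≠ 0 →
      e / 2 / 2 ≤ |s| ∧ |s| ≤ 3 * (2 * e) := fun s q hq h =>
    amD_supp c (ED c) (e / 2) (2 * e) s q (by linarith) (hball q hq).2.1 (hball q hq).2.2 h
  have hweq : (fun a : V => wD (p0, a)) = fun a : V => om 0 a.1 a.2.1 := by
    funext a
    simp [wD, aD, hp0]
  have hseq : (fun b : V => sD (p0, b)) = fun b : V => sg 0 b.1 b.2.1 := by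
    funext b
    simp [sD, bD, hp0]
  have hb1' : 1 - b0.2.1 ^ 2 ≠ 0 := hb1.ne'
  have hsep : ∀ᶠ q in 𝓝 (a0, b0), (fun q : V × V => gD c k (p0, q.1, q.2)) q =
      (fun _ : V => (0:ℝ)) q.1 + (fun _ : V => (0:ℝ)) q.2 + dX1 q.1 * dY1 q.2 +
        dX2 q.1 * dY2 q.2 := by
    have h2 : Filter.Tendsto (fun q : V × V => (p0, q.1, q.2)) (𝓝 (a0, b0)) (𝓝 (p0, a0, b0)) :=
      (by fun_prop : Continuous fun q : V × V => (p0, q.1, q.2)).tendsto (a0, b0)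
    filter_upwards [h2.eventually (okD_ev c _ hok)] with q hq
    obtain ⟨⟨g1, g2, g3, g4, g5, g6⟩, g7⟩ := hq
    simp only [aD, bD, hp0, zero_mul, sub_zero, zero_div] at g1 g3 g5 g7
    exact gD_zero c hc k q.1 q.2 g1 g7 g3 g5
  have n0 : DifferentiableAt ℝ (fun _ : V => (0:ℝ)) a0 := differentiableAt_const _
  have m0 : DifferentiableAt ℝ (fun _ : V => (0:ℝ)) b0 := differentiableAt_const _
  have n1 := dX1_diff a0 hx1.ne' hz1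
  have n2 := dX2_diff a0 hz1
  have m1 := dY1_diff b0 hb1'
  have m2 := dY2_diff b0 hb1'
  have hnd : ∀ u : V, fderiv ℝ (fun a => wD (p0, a)) a0 u = 0 →
      (∀ e : V, fderiv ℝ (fun b => sD (p0, b)) b0 e = 0 →
        fderiv ℝ (fun b => fderiv ℝ (fun a => gD c k (p0, a, b)) a0 u) b0 e = 0) → u = 0 := by
    intro u h1 h2
    rw [hweq] at h1
    refine nd_D a0 b0 u hy1 hx1.ne' hz1 hy2 hx2.ne' hz2 hb1' h1 ?_
    intro e' he'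
    rw [← sep_2 _ (fun _ : V => (0:ℝ)) dX1 dX2 (fun _ : V => (0:ℝ)) dY1 dY2 a0 b0 hsep n0 n1 n2
      m0 m1 m2 u e']
    refine h2 e' ?_
    rw [hseq]
    exact he'
  have h1 : fderiv ℝ (fun a => wD (p0, a)) a0 (1, 0, 0) ≠ 0 := by
    rw [hweq, om0_fd a0 _ hx1.ne']
    simp only [mul_one, mul_zero, sub_zero]
    have := hx1.ne'
    exact div_ne_zero (mul_ne_zero two_ne_zero this) (pow_ne_zero 2 this)
  have h2 : fderiv ℝ (fun b => sD (p0, b)) b0 (1, 0, 0) ≠ 0 := by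
    rw [hseq, sg0_fd b0 _ hb1']
    simp only [mul_one, mul_zero, add_zero]
    have := hx2.ne'
    exact neg_ne_zero.2 (div_ne_zero (mul_ne_zero (mul_ne_zero two_ne_zero this) hb1')
      (pow_ne_zero 2 hb1'))
  obtain ⟨δ, hδ, C, hC, hRC⟩ := HLk wD sD (gD c k) (amD c (ED c)) p0 a0 b0 r
    (e / 2 / 2) (3 * (2 * e)) hr (by positivity) hw hs hg hcc hcs h1 h2 hnd
  set M := 1 + |C5| with hM
  have hM1 : 1 ≤ M := by rw [hM]; linarith [abs_nonneg C5]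
  set δ' := min δ r / (2 * M) with hδ'
  have hδp : 0 < min δ r := lt_min hδ hr
  have hδM : M * δ' = min δ r / 2 := by rw [hδ']; field_simp
  have hδ'p : 0 < δ' := by rw [hδ']; positivity
  have hδ1 : M * δ' < δ := by
    have := min_le_left δ r
    rw [hδM]; linarith
  have hδ2 : M * δ' < r := by
    have := min_le_right δ r
    rw [hδM]; linarith
  have hδle : δ' ≤ M * δ' := by nlinarith
  refine ⟨δ', hδ'p, C, hC, ?_⟩
  intro T ρ γ κ hT hρ hρδ hγ hγδ hκ hκδ hγκ A B hA hB hA1 hB1 hAs hBs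
  have hball' : ∀ (u : V) (x y z : ℝ), |u.1 - x| ≤ δ' ∧ |u.2.1 - y| ≤ δ' ∧ |u.2.2 - z| ≤ δ' →
      ∀ R, M * δ' < R → u ∈ ball ((x, y, z) : V) R := by
    intro u x y z h R hR
    rw [mem_ball, Prod.dist_eq, Prod.dist_eq, Real.dist_eq, Real.dist_eq, Real.dist_eq]
    exact max_lt (lt_of_le_of_lt (h.1.trans hδle) hR) (max_lt (lt_of_le_of_lt
      (h.2.1.trans hδle) hR) (lt_of_le_of_lt (h.2.2.trans hδle) hR))
  have hAs' : ∀ u, A (Sc ρ γ u) ≠ 0 →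
      |u.1 - y0.1| ≤ δ' ∧ |u.2.1 - x0.1| ≤ δ' ∧ |u.2.2 - z0.1| ≤ δ' := by
    intro u hu
    have h := hAs _ hu
    unfold Sc at h
    simp only at h
    rwa [mul_div_cancel_left₀ _ hρ.ne', mul_div_cancel_left₀ _ hγ.ne'] at h
  have hBs' : ∀ u, B (Sc ρ (κ * γ) u) ≠ 0 →
      |u.1 - y0.2| ≤ δ' ∧ |u.2.1 - x0.2| ≤ δ' ∧ |u.2.2 - z0.2| ≤ δ' := by
    intro u hu
    have h := hBs _ hu
    unfold Sc at h
    simp only at h
    rwa [mul_div_cancel_left₀ _ hρ.ne', mul_div_cancel_left₀ _ (mul_pos hκ hγ).ne'] at h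
  set ε := γ ^ 2 / κ with hε
  have hε0 : 0 ≤ ε := by rw [hε]; positivity
  have hεle : ε ≤ M * δ' := by
    rw [hε, div_le_iff₀ hκ]
    have h3 : γ ≤ |C5| * κ := hγκ.trans (mul_le_mul_of_nonneg_right (le_abs_self _) hκ.le)
    calc γ ^ 2 = γ * γ := by ring
      _ ≤ (|C5| * κ) * δ' := mul_le_mul h3 hγδ.le hγ.le (by positivity)
      _ ≤ M * δ' * κ := by
        rw [hM]
        nlinarith [mul_pos hδ'p hκ]
  have hpR : ∀ R, M * δ' < R → ((ρ, γ, κ, ε) : P4) ∈ ball p0 R := by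
    intro R hR
    rw [mem_ball, Prod.dist_eq, Prod.dist_eq, Prod.dist_eq, Real.dist_eq, Real.dist_eq,
      Real.dist_eq, Real.dist_eq]
    simp only [hp0, sub_zero, abs_of_pos hρ, abs_of_pos hγ, abs_of_pos hκ, abs_of_nonneg hε0]
    exact max_lt (lt_of_lt_of_le hρδ (hδle.trans hR.le)) (max_lt (lt_of_lt_of_le hγδ
      (hδle.trans hR.le)) (max_lt (lt_of_lt_of_le hκδ (hδle.trans hR.le))
      (lt_of_le_of_lt hεle hR)))
  have hmain := hRC (ρ, γ, κ, ε) (hpR δ hδ1) κ (T * (ρ * γ)) hκ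
    (lt_of_lt_of_le hκδ (hδle.trans hδ1.le)) (by positivity)
    (fun u => A (Sc ρ γ u)) (fun u => B (Sc ρ (κ * γ) u)) (hA.comp (Sc_cont ρ γ).measurable)
    (hB.comp (Sc_cont ρ (κ * γ)).measurable) (fun a => hA1 _) (fun b => hB1 _)
    (fun a ha => hball' a _ _ _ (hAs' a ha) δ hδ1) (fun b hb => hball' b _ _ _ (hBs' b hb) δ hδ1)
  have hid : FF c T (tp A B) = ((((ρ * γ) * (ρ * (κ * γ)) : ℝ) : ℂ) * (T : ℂ)) *
      ∫ q : V × V, A (Sc ρ γ q.1) * B (Sc ρ (κ * γ) q.2) * ∫ s : ℝ,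
        ((amD c (ED c) (s, (ρ, γ, κ, ε), q.1, q.2) : ℝ) : ℂ) *
        ex (T * (ρ * γ) * (s * (wD ((ρ, γ, κ, ε), q.1) - sD ((ρ, γ, κ, ε), q.2) +
          κ * gD c k ((ρ, γ, κ, ε), q.1, q.2)))) := by
    unfold FF
    rw [integral_scale _ ρ γ (κ * γ) hρ hγ (mul_pos hκ hγ),
      mul_assoc ((((ρ * γ) * (ρ * (κ * γ)) : ℝ) : ℂ)) (T : ℂ), ← integral_const_mul (T : ℂ)]
    congr 1
    refine integral_congr_ae (Filter.Eventually.of_forall fun q => ?_)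
    simp only [tp]
    by_cases hq : A (Sc ρ γ q.1) = 0
    · rw [hq]; simp
    by_cases hq' : B (Sc ρ (κ * γ) q.2) = 0
    · rw [hq']; simp
    have hin : (((ρ, γ, κ, ε), q.1, q.2) : P4 × V × V) ∈ ball (p0, a0, b0) r := by
      rw [mem_ball, Prod.dist_eq, Prod.dist_eq]
      exact max_lt (hpR r hδ2) (max_lt (hball' _ _ _ _ (hAs' _ hq) r hδ2)
        (hball' _ _ _ _ (hBs' _ hq') r hδ2))
    have hEne := (ED_smooth c hc _ (hball _ hin).1).2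
    have hfac := G_fac c hc G k hG key hGk _ (hball _ hin).1
      (by simp only [hε]; field_simp)
    simp only at hfac
    rw [Fr_ScD c G key ρ γ κ ε q.1 q.2, Kt_scale T _ (ED c ((ρ, γ, κ, ε), q.1, q.2))
      (wD ((ρ, γ, κ, ε), q.1) - sD ((ρ, γ, κ, ε), q.2) +
          κ * gD c k ((ρ, γ, κ, ε), q.1, q.2)) hT hEne (ρ * γ) (by rw [hfac])]
    have h5 : ∀ s : ℝ, ((amD c (ED c) (s, (ρ, γ, κ, ε), q.1, q.2) : ℝ) : ℂ) *
        ex (T * (ρ * γ) * (s * (wD ((ρ, γ, κ, ε), q.1) - sD ((ρ, γ, κ, ε), q.2) +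
          κ * gD c k ((ρ, γ, κ, ε), q.1, q.2)))) =
        ((Wr c (Sc ρ γ q.1) (Sc ρ (κ * γ) q.2) : ℝ) : ℂ) *
        (((chi (s / ED c ((ρ, γ, κ, ε), q.1, q.2)) / |ED c ((ρ, γ, κ, ε), q.1, q.2)| : ℝ) : ℂ) *
        ex (T * (ρ * γ) * (s * (wD ((ρ, γ, κ, ε), q.1) - sD ((ρ, γ, κ, ε), q.2) +
          κ * gD c k ((ρ, γ, κ, ε), q.1, q.2))))) := by
      intro s
      unfold amD
      simp only
      rw [Complex.ofReal_mul]
      ring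
    simp only [h5]
    rw [integral_const_mul]
    ring
  rw [hid, norm_mul, norm_mul, Complex.norm_real, Complex.norm_real, Real.norm_eq_abs,
    Real.norm_eq_abs, abs_of_pos hT, abs_of_pos (by positivity)]
  calc ρ * γ * (ρ * (κ * γ)) * T * ‖_‖ ≤
      ρ * γ * (ρ * (κ * γ)) * T * (C / ((T * (ρ * γ)) ^ 2 * κ)) :=
        mul_le_mul_of_nonneg_left hmain (by positivity)
    _ = C / T := by
      field_simp

end Pool.Agent.SDT.N1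

end -- N1.GQ

section -- N1.G2

namespace Pool.Agent.SDT.N1

open MeasureTheory Set Metric Pool.Agent.SDT.MP_6cbfb8_an Pool.Agent.SDT.MST
open scoped ENNReal Real ContDiff

/-- Splitting a four-linear form with product density in cells. -/
theorem g2_split (c : ℝ) (hc : 0 < c) (T : ℝ) (hT : 0 < T) (A B : V → ℂ) (hA : Measurable A)
    (hB : Measurable B) (hA1 : ∀ a, ‖A a‖ ≤ 1) (hB1 : ∀ b, ‖B b‖ ≤ 1) (φ ψ : V → ℝ)
    (hφ : Measurable φ) (hψ : Measurable ψ) (R δ K : ℝ) (hδ : 0 < δ) (hK : 0 ≤ K)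
    (hAs : ∀ u, A u ≠ 0 → |φ u| ≤ R) (hBs : ∀ v, B v ≠ 0 → |ψ v| ≤ R)
    (hloc : ∀ A' B' : V → ℂ, Measurable A' → Measurable B' → (∀ a, ‖A' a‖ ≤ 1) →
      (∀ b, ‖B' b‖ ≤ 1) → ∀ u0 v0, A u0 ≠ 0 → B v0 ≠ 0 →
      (∀ u, A' u ≠ 0 → A u ≠ 0 ∧ |φ u - φ u0| ≤ δ) →
      (∀ v, B' v ≠ 0 → B v ≠ 0 ∧ |ψ v - ψ v0| ≤ δ) → ‖FF c T (tp A' B')‖ ≤ K) :
    ‖FF c T (tp A B)‖ ≤ ((⌊2 * R / δ⌋₊ + 1 : ℕ) : ℝ) ^ 2 * K := by
  set N : ℕ := ⌊2 * R / δ⌋₊ + 1 with hN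
  have h1 : tp A B = fun q => ∑ p ∈ Finset.range N ×ˢ Finset.range N,
      tp (g2_cut φ R δ A p.1) (g2_cut ψ R δ B p.2) q := by
    funext q
    rw [Finset.sum_product]
    unfold tp
    simp only
    rw [← Finset.sum_mul_sum, g2_cut_sum φ R δ hδ A hAs, g2_cut_sum ψ R δ hδ B hBs]
  rw [h1, FF_sum c hc T hT _ _ (fun p => ?_) 1 (fun p q => ?_)]
  · refine (norm_sum_le _ _).trans ?_
    have h2 : ∀ p ∈ Finset.range N ×ˢ Finset.range N,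
        ‖FF c T (tp (g2_cut φ R δ A p.1) (g2_cut ψ R δ B p.2))‖ ≤ K := by
      intro p _
      by_cases hu : ∃ u0, g2_cut φ R δ A p.1 u0 ≠ 0
      · by_cases hv : ∃ v0, g2_cut ψ R δ B p.2 v0 ≠ 0
        · obtain ⟨u0, hu0⟩ := hu
          obtain ⟨v0, hv0⟩ := hv
          have a0 := g2_cut_ne hu0
          have b0 := g2_cut_ne hv0
          refine hloc _ _ (g2_cut_meas hφ R δ hA _) (g2_cut_meas hψ R δ hB _)
            (g2_cut_norm φ R δ hA1 _) (g2_cut_norm ψ R δ hB1 _) u0 v0 a0.2 b0.2 ?_ ?_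
          · intro u hu
            have a1 := g2_cut_ne hu
            exact ⟨a1.2, g2_ix_near hδ (hAs u a1.2) (hAs u0 a0.2) (a1.1.trans a0.1.symm)⟩
          · intro v hv
            have b1 := g2_cut_ne hv
            exact ⟨b1.2, g2_ix_near hδ (hBs v b1.2) (hBs v0 b0.2) (b1.1.trans b0.1.symm)⟩
        · push Not at hv
          have h3 : tp (g2_cut φ R δ A p.1) (g2_cut ψ R δ B p.2) = fun _ => 0 := by
            funext q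
            unfold tp
            rw [hv, mul_zero]
          rw [h3]
          unfold FF
          simpa using hK
      · push Not at hu
        have h3 : tp (g2_cut φ R δ A p.1) (g2_cut ψ R δ B p.2) = fun _ => 0 := by
          funext q
          unfold tp
          rw [hu, zero_mul]
        rw [h3]
        unfold FF
        simpa using hK
    refine (Finset.sum_le_sum h2).trans (le_of_eq ?_)
    rw [Finset.sum_const, Finset.card_product, Finset.card_range, nsmul_eq_mul]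
    push_cast
    ring
  · exact ((g2_cut_meas hφ R δ hA _).comp measurable_fst).mul
      ((g2_cut_meas hψ R δ hB _).comp measurable_snd)
  · unfold tp
    rw [norm_mul]
    exact mul_le_one₀ (g2_cut_norm φ R δ hA1 _ _) (norm_nonneg _) (g2_cut_norm ψ R δ hB1 _ _)

/-- The set of scaled inner directions. -/
def g2_Z (C7 : ℝ) : Set (ℝ × ℝ) :=
  {z | (1 / C7 ≤ |z.1| ∧ |z.1| ≤ C7) ∧ (1 / C7 ≤ |z.2| ∧ |z.2| ≤ C7)}

theorem g2_Z_compact (C7 : ℝ) : IsCompact (g2_Z C7) := by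
  have h1 : g2_Z C7 ⊆ Icc (-C7) C7 ×ˢ Icc (-C7) C7 := by
    rintro z ⟨⟨-, h2⟩, -, h4⟩
    exact ⟨abs_le.1 h2, abs_le.1 h4⟩
  refine (isCompact_Icc.prod isCompact_Icc).of_isClosed_subset ?_ h1
  unfold g2_Z
  refine IsClosed.inter (IsClosed.inter ?_ ?_) (IsClosed.inter ?_ ?_)
  · exact isClosed_le continuous_const (continuous_abs.comp continuous_fst)
  · exact isClosed_le (continuous_abs.comp continuous_fst) continuous_const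
  · exact isClosed_le continuous_const (continuous_abs.comp continuous_snd)
  · exact isClosed_le (continuous_abs.comp continuous_snd) continuous_const

theorem propN2 (c : ℝ) (hc : 0 < c) (x0 y0 : ℝ × ℝ) (hx : x0 ∈ Kc c) (hy1 : y0.1 ≠ 0)
    (hy2 : y0.2 ≠ 0) (C7 : ℝ) (hC7 : 1 ≤ C7) :
    ∃ δ : ℝ, 0 < δ ∧ ∃ C : ℝ, 0 ≤ C ∧ ∀ T ρ γ : ℝ, 0 < T → 0 < ρ → ρ < δ → 0 < γ → γ < δ →
      ∀ A B : V → ℂ, Measurable A → Measurable B → (∀ a, ‖A a‖ ≤ 1) → (∀ b, ‖B b‖ ≤ 1) →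
      (∀ u, A u ≠ 0 → |u.1 / ρ - y0.1| ≤ δ ∧ |u.2.1 - x0.1| ≤ δ ∧ 1 / C7 ≤ |u.2.2 / γ| ∧
        |u.2.2 / γ| ≤ C7) →
      (∀ v, B v ≠ 0 → |v.1 / ρ - y0.2| ≤ δ ∧ |v.2.1 - x0.2| ≤ δ ∧ 1 / C7 ≤ |v.2.2 / γ| ∧
        |v.2.2 / γ| ≤ C7) →
      ‖FF c T (tp A B)‖ ≤ C / T := by
  have hC7' : 0 < C7 := by linarith
  have key : ∃ δ : ℝ, 0 < δ ∧ ∃ C : ℝ, 0 ≤ C ∧ ∀ z0 ∈ g2_Z C7, ∀ T ρ γ : ℝ, 0 < T →
      0 < ρ → ρ < δ → 0 < γ → γ < δ →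
      ∀ A B : V → ℂ, Measurable A → Measurable B → (∀ a, ‖A a‖ ≤ 1) → (∀ b, ‖B b‖ ≤ 1) →
      (∀ u, A u ≠ 0 → |u.1 / ρ - y0.1| ≤ δ ∧ |u.2.1 - x0.1| ≤ δ ∧ |u.2.2 / γ - z0.1| ≤ δ) →
      (∀ v, B v ≠ 0 → |v.1 / ρ - y0.2| ≤ δ ∧ |v.2.1 - x0.2| ≤ δ ∧ |v.2.2 / γ - z0.2| ≤ δ) →
      ‖FF c T (tp A B)‖ ≤ C / T := by
    refine g2_unif (g2_Z_compact C7) (fun z0 δ C => ∀ T ρ γ : ℝ, 0 < T →
      0 < ρ → ρ < δ → 0 < γ → γ < δ →
      ∀ A B : V → ℂ, Measurable A → Measurable B → (∀ a, ‖A a‖ ≤ 1) → (∀ b, ‖B b‖ ≤ 1) →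
      (∀ u, A u ≠ 0 → |u.1 / ρ - y0.1| ≤ δ ∧ |u.2.1 - x0.1| ≤ δ ∧ |u.2.2 / γ - z0.1| ≤ δ) →
      (∀ v, B v ≠ 0 → |v.1 / ρ - y0.2| ≤ δ ∧ |v.2.1 - x0.2| ≤ δ ∧ |v.2.2 / γ - z0.2| ≤ δ) →
      ‖FF c T (tp A B)‖ ≤ C / T) ?_ ?_ ?_
    · intro z0 δ δ' C C' hδ' hδδ hCC h T ρ γ hT hρ hρδ hγ hγδ A B hA hB hA1 hB1 hAs hBs
      refine (h T ρ γ hT hρ (hρδ.trans_le hδδ) hγ (hγδ.trans_le hδδ) A B hA hB hA1 hB1 ?_ ?_).trans ?_
      · intro u hu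
        have h2 := hAs u hu
        exact ⟨h2.1.trans hδδ, h2.2.1.trans hδδ, h2.2.2.trans hδδ⟩
      · intro v hv
        have h2 := hBs v hv
        exact ⟨h2.1.trans hδδ, h2.2.1.trans hδδ, h2.2.2.trans hδδ⟩
      · gcongr
    · rintro z0 ⟨⟨h1, -⟩, h2, -⟩
      have h3 : 0 < 1 / C7 := by positivity
      exact propN c hc x0 y0 z0 hx hy1 hy2 (abs_pos.1 (h3.trans_le h1)) (abs_pos.1 (h3.trans_le h2))
    · intro z0 z0' δ C hδ hd h T ρ γ hT hρ hρδ hγ hγδ A B hA hB hA1 hB1 hAs hBs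
      rw [Prod.dist_eq, max_le_iff, Real.dist_eq, Real.dist_eq] at hd
      refine h T ρ γ hT hρ (by linarith) hγ (by linarith) A B hA hB hA1 hB1 ?_ ?_
      · intro u hu
        have h2 := hAs u hu
        refine ⟨by linarith, by linarith, ?_⟩
        have h4 := abs_sub_le (u.2.2 / γ) z0'.1 z0.1
        linarith
      · intro v hv
        have h2 := hBs v hv
        refine ⟨by linarith, by linarith, ?_⟩
        have h4 := abs_sub_le (v.2.2 / γ) z0'.2 z0.2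
        linarith
  obtain ⟨δ, hδ, C, hC, h⟩ := key
  refine ⟨δ, hδ, ((⌊2 * C7 / δ⌋₊ + 1 : ℕ) : ℝ) ^ 2 * C, by positivity, ?_⟩
  intro T ρ γ hT hρ hρδ hγ hγδ A B hA hB hA1 hB1 hAs hBs
  rw [mul_div_assoc]
  refine g2_split c hc T hT A B hA hB hA1 hB1 (fun u => u.2.2 / γ) (fun v => v.2.2 / γ)
    (by fun_prop) (by fun_prop) C7 δ (C / T) hδ (by positivity) (fun u hu => (hAs u hu).2.2.2)
    (fun v hv => (hBs v hv).2.2.2) ?_
  intro A' B' hA' hB' hA1' hB1' u0 v0 hu0 hv0 hAs' hBs'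
  refine h (u0.2.2 / γ, v0.2.2 / γ) ⟨(hAs u0 hu0).2.2, (hBs v0 hv0).2.2⟩ T ρ γ hT hρ hρδ hγ hγδ
    A' B' hA' hB' hA1' hB1' ?_ ?_
  · intro u hu
    have h1 := hAs' u hu
    have h2 := hAs u h1.1
    exact ⟨h2.1, h2.2.1, h1.2⟩
  · intro v hv
    have h1 := hBs' v hv
    have h2 := hBs v h1.1
    exact ⟨h2.1, h2.2.1, h1.2⟩

theorem propD2 (c : ℝ) (hc : 0 < c) (x0 y0 : ℝ × ℝ) (hx : x0 ∈ Kc c) (hy1 : y0.1 ≠ 0)
    (hy2 : y0.2 ≠ 0) (hN : Nf 0 y0 x0 = 0) (C5 C7 : ℝ) (hC7 : 1 ≤ C7) :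
    ∃ δ : ℝ, 0 < δ ∧ ∃ C : ℝ, 0 ≤ C ∧ ∀ T ρ γ κ : ℝ, 0 < T → 0 < ρ → ρ < δ → 0 < γ → γ < δ →
      0 < κ → κ < δ → γ ≤ C5 * κ →
      ∀ A B : V → ℂ, Measurable A → Measurable B → (∀ a, ‖A a‖ ≤ 1) → (∀ b, ‖B b‖ ≤ 1) →
      (∀ u, A u ≠ 0 → |u.1 / ρ - y0.1| ≤ δ ∧ |u.2.1 - x0.1| ≤ δ ∧ 1 / C7 ≤ |u.2.2 / γ| ∧
        |u.2.2 / γ| ≤ C7) →
      (∀ v, B v ≠ 0 → |v.1 / ρ - y0.2| ≤ δ ∧ |v.2.1 - x0.2| ≤ δ ∧
        1 / C7 ≤ |v.2.2 / (κ * γ)| ∧ |v.2.2 / (κ * γ)| ≤ C7) →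
      ‖FF c T (tp A B)‖ ≤ C / T := by
  have hC7' : 0 < C7 := by linarith
  have key : ∃ δ : ℝ, 0 < δ ∧ ∃ C : ℝ, 0 ≤ C ∧ ∀ z0 ∈ g2_Z C7, ∀ T ρ γ κ : ℝ, 0 < T →
      0 < ρ → ρ < δ → 0 < γ → γ < δ → 0 < κ → κ < δ → γ ≤ C5 * κ →
      ∀ A B : V → ℂ, Measurable A → Measurable B → (∀ a, ‖A a‖ ≤ 1) → (∀ b, ‖B b‖ ≤ 1) →
      (∀ u, A u ≠ 0 → |u.1 / ρ - y0.1| ≤ δ ∧ |u.2.1 - x0.1| ≤ δ ∧ |u.2.2 / γ - z0.1| ≤ δ) →
      (∀ v, B v ≠ 0 → |v.1 / ρ - y0.2| ≤ δ ∧ |v.2.1 - x0.2| ≤ δ ∧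
        |v.2.2 / (κ * γ) - z0.2| ≤ δ) →
      ‖FF c T (tp A B)‖ ≤ C / T := by
    refine g2_unif (g2_Z_compact C7) (fun z0 δ C => ∀ T ρ γ κ : ℝ, 0 < T →
      0 < ρ → ρ < δ → 0 < γ → γ < δ → 0 < κ → κ < δ → γ ≤ C5 * κ →
      ∀ A B : V → ℂ, Measurable A → Measurable B → (∀ a, ‖A a‖ ≤ 1) → (∀ b, ‖B b‖ ≤ 1) →
      (∀ u, A u ≠ 0 → |u.1 / ρ - y0.1| ≤ δ ∧ |u.2.1 - x0.1| ≤ δ ∧ |u.2.2 / γ - z0.1| ≤ δ) →
      (∀ v, B v ≠ 0 → |v.1 / ρ - y0.2| ≤ δ ∧ |v.2.1 - x0.2| ≤ δ ∧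
        |v.2.2 / (κ * γ) - z0.2| ≤ δ) →
      ‖FF c T (tp A B)‖ ≤ C / T) ?_ ?_ ?_
    · intro z0 δ δ' C C' hδ' hδδ hCC h T ρ γ κ hT hρ hρδ hγ hγδ hκ hκδ hγκ A B hA hB hA1 hB1 hAs hBs
      refine (h T ρ γ κ hT hρ (hρδ.trans_le hδδ) hγ (hγδ.trans_le hδδ) hκ (hκδ.trans_le hδδ) hγκ
        A B hA hB hA1 hB1 ?_ ?_).trans ?_
      · intro u hu
        have h2 := hAs u hu
        exact ⟨h2.1.trans hδδ, h2.2.1.trans hδδ, h2.2.2.trans hδδ⟩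
      · intro v hv
        have h2 := hBs v hv
        exact ⟨h2.1.trans hδδ, h2.2.1.trans hδδ, h2.2.2.trans hδδ⟩
      · gcongr
    · rintro z0 ⟨⟨h1, -⟩, h2, -⟩
      have h3 : 0 < 1 / C7 := by positivity
      exact propD c hc x0 y0 z0 hx hy1 hy2 hN (abs_pos.1 (h3.trans_le h1))
        (abs_pos.1 (h3.trans_le h2)) C5
    · intro z0 z0' δ C hδ hd h T ρ γ κ hT hρ hρδ hγ hγδ hκ hκδ hγκ A B hA hB hA1 hB1 hAs hBs
      rw [Prod.dist_eq, max_le_iff, Real.dist_eq, Real.dist_eq] at hd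
      refine h T ρ γ κ hT hρ (by linarith) hγ (by linarith) hκ (by linarith) hγκ A B hA hB hA1 hB1
        ?_ ?_
      · intro u hu
        have h2 := hAs u hu
        refine ⟨by linarith, by linarith, ?_⟩
        have h4 := abs_sub_le (u.2.2 / γ) z0'.1 z0.1
        linarith
      · intro v hv
        have h2 := hBs v hv
        refine ⟨by linarith, by linarith, ?_⟩
        have h4 := abs_sub_le (v.2.2 / (κ * γ)) z0'.2 z0.2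
        linarith
  obtain ⟨δ, hδ, C, hC, h⟩ := key
  refine ⟨δ, hδ, ((⌊2 * C7 / δ⌋₊ + 1 : ℕ) : ℝ) ^ 2 * C, by positivity, ?_⟩
  intro T ρ γ κ hT hρ hρδ hγ hγδ hκ hκδ hγκ A B hA hB hA1 hB1 hAs hBs
  rw [mul_div_assoc]
  refine g2_split c hc T hT A B hA hB hA1 hB1 (fun u => u.2.2 / γ) (fun v => v.2.2 / (κ * γ))
    (by fun_prop) (by fun_prop) C7 δ (C / T) hδ (by positivity) (fun u hu => (hAs u hu).2.2.2)
    (fun v hv => (hBs v hv).2.2.2) ?_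
  intro A' B' hA' hB' hA1' hB1' u0 v0 hu0 hv0 hAs' hBs'
  refine h (u0.2.2 / γ, v0.2.2 / (κ * γ)) ⟨(hAs u0 hu0).2.2, (hBs v0 hv0).2.2⟩ T ρ γ κ hT hρ hρδ
    hγ hγδ hκ hκδ hγκ A' B' hA' hB' hA1' hB1' ?_ ?_
  · intro u hu
    have h1 := hAs' u hu
    have h2 := hAs u h1.1
    exact ⟨h2.1, h2.2.1, h1.2⟩
  · intro v hv
    have h1 := hBs' v hv
    have h2 := hBs v h1.1
    exact ⟨h2.1, h2.2.1, h1.2⟩

end Pool.Agent.SDT.N1

end -- N1.G2
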