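import Pool.Agent.SDT.B17
import Pool.Agent.SDT.B24
import Pool.Agent.SDT.B43

set_option autoImplicit false

namespace Pool.Agent.SDT.MP_6cbfb8_an
end Pool.Agent.SDT.MP_6cbfb8_an
namespace Pool.Agent.SDT.MST
end Pool.Agent.SDT.MST
namespace Pool.Agent.SDT.N1
end Pool.Agent.SDT.N1
namespace Pool.Agent.SDT.N1F
end Pool.Agent.SDT.N1F
namespace Pool.Agent.SDT.N1G
end Pool.Agent.SDT.N1G

section -- N1G.St1

/-!
N1G: strips, part 1: the planar `L⁴` estimate with a logarithm for a family of curves.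
-/

namespace Pool.Agent.SDT.N1G

open MeasureTheory Set Metric Pool.Agent.SDT.MP_6cbfb8_an Pool.Agent.SDT.MST Pool.Agent.SDT.N1
open scoped ENNReal Real ContDiff

theorem st_kin (T s R : ℝ) (hT : 0 < T) (hs : 0 ≤ s) (hR : 0 ≤ R) :
    ∫⁻ z in Icc (0:ℝ) R, ENNReal.ofReal (T / (1 + s * z) ^ 2) =
      ENNReal.ofReal (R * T / (1 + R * s)) := by
  have hne : ∀ z ∈ Icc (0:ℝ) R, 0 < 1 + s * z := fun z hz => by
    have := mul_nonneg hs hz.1
    linarith
  have hcont : ContinuousOn (fun z : ℝ => T / (1 + s * z) ^ 2) (Icc 0 R) := by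
    refine ContinuousOn.div continuousOn_const (by fun_prop) fun z hz => ?_
    have := hne z hz
    positivity
  rw [FN.lint_Icc _ R hR hcont fun z hz => by
    have := hne z hz
    positivity]
  congr 1
  rw [intervalIntegral.integral_eq_sub_of_hasDerivAt (f := fun z => T * z / (1 + s * z))]
  · have : 0 < 1 + R * s := by positivity
    have h2 : 1 + s * R = 1 + R * s := by ring
    rw [h2]
    field_simp
    ring
  · intro z hz
    rw [uIcc_of_le hR] at hz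
    have h1 := hne z hz
    have h2 : HasDerivAt (fun z : ℝ => T * z) (T * 1) z := (hasDerivAt_id z).const_mul T
    have h3 : HasDerivAt (fun z : ℝ => 1 + s * z) (s * 1) z :=
      ((hasDerivAt_id z).const_mul s).const_add 1
    have h4 := h2.div h3 h1.ne'
    refine h4.congr_deriv ?_
    have h1' := h1.ne'
    field_simp
    ring
  · rw [intervalIntegrable_iff_integrableOn_Icc_of_le hR]
    exact hcont.integrableOn_Icc

theorem st_kout (T R : ℝ) (hT : 0 < T) (hR : 0 ≤ R) :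
    ∫⁻ y in Icc (0:ℝ) R, ENNReal.ofReal (R * T / (1 + R * (T * y))) =
      ENNReal.ofReal (Real.log (1 + R ^ 2 * T)) := by
  have hne : ∀ z ∈ Icc (0:ℝ) R, 0 < 1 + R * (T * z) := fun z hz => by
    have := mul_nonneg hR (mul_nonneg hT.le hz.1)
    linarith
  have hcont : ContinuousOn (fun z : ℝ => R * T / (1 + R * (T * z))) (Icc 0 R) := by
    refine ContinuousOn.div continuousOn_const (by fun_prop) fun z hz => ?_
    have := hne z hz
    positivity
  rw [FN.lint_Icc _ R hR hcont fun z hz => by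
    have := hne z hz
    positivity]
  congr 1
  rw [intervalIntegral.integral_eq_sub_of_hasDerivAt
    (f := fun z => Real.log (1 + R * (T * z)))]
  · rw [mul_zero, mul_zero, add_zero, Real.log_one, sub_zero]
    congr 1
    ring
  · intro z hz
    rw [uIcc_of_le hR] at hz
    have h1 := hne z hz
    have h3 : HasDerivAt (fun z : ℝ => 1 + R * (T * z)) (R * (T * 1)) z :=
      (((hasDerivAt_id z).const_mul T).const_mul R).const_add 1
    have h4 := h3.log h1.ne'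
    refine h4.congr_deriv ?_
    rw [mul_one]
  · rw [intervalIntegrable_iff_integrableOn_Icc_of_le hR]
    exact hcont.integrableOn_Icc

theorem st_kint (R : ℝ) (hR : 0 ≤ R) : ∃ C : ℝ, 0 ≤ C ∧ ∀ T : ℝ, 1 ≤ T →
    ∫⁻ y in Icc (-R) R, ∫⁻ z in Icc (-R) R, ENNReal.ofReal (T / (1 + T * |y * z|) ^ 2) ≤
      ENNReal.ofReal (C * (1 + Real.log T)) := by
  refine ⟨4 * (1 + Real.log (1 + R ^ 2)), by
    have := Real.log_nonneg (show (1:ℝ) ≤ 1 + R ^ 2 by nlinarith [sq_nonneg R])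
    positivity, ?_⟩
  intro T hT
  have hT0 : 0 < T := by linarith
  have hlog := Real.log_nonneg hT
  have h1 : ∀ y : ℝ, ∫⁻ z in Icc (-R) R, ENNReal.ofReal (T / (1 + T * |y * z|) ^ 2) ≤
      2 * ENNReal.ofReal (R * T / (1 + R * (T * |y|))) := by
    intro y
    have h2 := FN.lint_abs (fun z => ENNReal.ofReal (T / (1 + T * |y| * z) ^ 2)) R
    rw [st_kin T (T * |y|) R hT0 (by positivity) hR] at h2
    refine le_trans (le_of_eq ?_) h2
    refine lintegral_congr fun z => ?_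
    rw [abs_mul, mul_assoc]
  calc ∫⁻ y in Icc (-R) R, ∫⁻ z in Icc (-R) R, ENNReal.ofReal (T / (1 + T * |y * z|) ^ 2)
      ≤ ∫⁻ y in Icc (-R) R, 2 * ENNReal.ofReal (R * T / (1 + R * (T * |y|))) :=
        lintegral_mono fun y => h1 y
    _ ≤ 2 * ∫⁻ y in Icc (0:ℝ) R, 2 * ENNReal.ofReal (R * T / (1 + R * (T * y))) :=
        FN.lint_abs (fun y => 2 * ENNReal.ofReal (R * T / (1 + R * (T * y)))) R
    _ = 4 * ENNReal.ofReal (Real.log (1 + R ^ 2 * T)) := by
        rw [lintegral_const_mul' _ _ (by norm_num), st_kout T R hT0 hR, ← mul_assoc]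
        norm_num
    _ ≤ ENNReal.ofReal (4 * (1 + Real.log (1 + R ^ 2)) * (1 + Real.log T)) := by
        have h4 : (4 : ℝ≥0∞) = ENNReal.ofReal 4 := by simp
        rw [h4, ← ENNReal.ofReal_mul (by norm_num)]
        apply ENNReal.ofReal_le_ofReal
        have h5 : Real.log (1 + R ^ 2 * T) ≤ Real.log ((1 + R ^ 2) * T) := by
          refine Real.log_le_log (by positivity) ?_
          nlinarith [sq_nonneg R]
        rw [Real.log_mul (by positivity) hT0.ne'] at h5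
        have h6 := Real.log_nonneg (show (1:ℝ) ≤ 1 + R ^ 2 by nlinarith [sq_nonneg R])
        nlinarith [mul_nonneg h6 hlog]

/-- The curvature condition for the curves `a = const`. -/
def CV (g w : ℝ × ℝ → ℝ) (κ : ℝ) : Prop := ∀ a b y z : ℝ, w (a, b) ≠ 0 → w (a, b - y) ≠ 0 →
  w (a, b - z) ≠ 0 → w (a, b - y - z) ≠ 0 →
  κ * |y * z| ≤ |g (a, b) + g (a, b - y - z) - g (a, b - y) - g (a, b - z)|

/-- The planar amplitude. -/
noncomputable def st_Al (g w : ℝ × ℝ → ℝ) (a t b : ℝ) : ℂ :=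
  ((w (a, b) : ℝ) : ℂ) * ex (t * g (a, b))

theorem st_Al_meas {B R : ℝ} {g w : ℝ × ℝ → ℝ} (h : PD B R g w) :
    Measurable fun q : ℝ × ℝ × ℝ => st_Al g w q.1 q.2.1 q.2.2 := by
  unfold st_Al
  have m1 : Measurable fun q : ℝ × ℝ × ℝ => w (q.1, q.2.2) := h.mw.comp (by fun_prop)
  have m2 : Measurable fun q : ℝ × ℝ × ℝ => g (q.1, q.2.2) := h.mq.comp (by fun_prop)
  have m3 : Measurable fun q : ℝ × ℝ × ℝ => ex (q.2.1 * g (q.1, q.2.2)) :=
    measurable_ex.comp ((measurable_fst.comp measurable_snd).mul m2)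
  exact (Complex.measurable_ofReal.comp m1).mul m3

theorem st_Al_norm {B R : ℝ} {g w : ℝ × ℝ → ℝ} (h : PD B R g w) (a t b : ℝ) :
    ‖st_Al g w a t b‖ ≤ B := by
  unfold st_Al
  rw [norm_mul, m2_ex_norm, mul_one, Complex.norm_real, Real.norm_eq_abs]
  exact h.bw _

theorem st_w_ne {B R : ℝ} {g w : ℝ × ℝ → ℝ} (h : PD B R g w) {a b : ℝ} (hw : w (a, b) ≠ 0) :
    |a| ≤ R ∧ |b| ≤ R := by
  have h1 := h.sw _ hw
  rw [Prod.norm_def, max_le_iff, Real.norm_eq_abs, Real.norm_eq_abs] at h1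
  exact h1

/-- The planar `L⁴` estimate with a logarithm. -/
theorem st_planar (B R κ : ℝ) (hB : 0 ≤ B) (hR : 0 ≤ R) (hκ : 0 < κ) : ∃ C : ℝ, 0 ≤ C ∧
    ∀ g w : ℝ × ℝ → ℝ, PD B R g w → CV g w κ → ∀ T : ℝ, 1 ≤ T →
    ∀ (a : ℝ) (G : ℝ → ℂ), Measurable G → (∀ b, ‖G b‖ ≤ 1) →
    ∫⁻ t in Icc T (2 * T), ∫⁻ x : ℝ, ‖∫ b : ℝ, G b * st_Al g w a t b * ex (b * x)‖ₑ ^ (4:ℝ) ≤
      ENNReal.ofReal (C * (1 + Real.log T)) := by
  obtain ⟨K, hK, hKt⟩ := Kt_le
  obtain ⟨C1, hC1, hki⟩ := st_kint (2 * R) (by positivity)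
  set k1 : ℝ := min κ 1 with hk1
  have hk10 : 0 < k1 := lt_min hκ one_pos
  have hk11 : k1 ≤ 1 := min_le_right _ _
  have hk12 : k1 ≤ κ := min_le_left _ _
  refine ⟨B ^ 4 * (K / k1 ^ 2) * C1 * (2 * R), by positivity, ?_⟩
  intro g w hpd hcv T hT a G hG hb
  have hT0 : 0 < T := by linarith
  have hlog := Real.log_nonneg hT
  have := FN.muC_fin T hT0
  have hAm : Measurable (Function.uncurry fun t b => st_Al g w a t b) :=
    (st_Al_meas hpd).comp (f := fun q : ℝ × ℝ => (a, q.1, q.2)) (by fun_prop)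
  have hsupp : ∀ t b, R < |b| → st_Al g w a t b = 0 := by
    intro t b hb1
    unfold st_Al
    by_cases h : w (a, b) = 0
    · rw [h]; simp
    · exact absurd (st_w_ne hpd h).2 (not_le.2 hb1)
  have key := FN.four1 (FN.muC T) (fun t b => st_Al g w a t b) hAm B R
    (fun t b => st_Al_norm hpd a t b) hsupp G hG hb
  have hmeas : Measurable fun t : ℝ =>
      ∫⁻ x : ℝ, ‖∫ b : ℝ, G b * st_Al g w a t b * ex (b * x)‖ₑ ^ (4:ℝ) := by
    have m1 : Measurable fun q : (ℝ × ℝ) × ℝ =>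
        G q.2 * st_Al g w a q.1.1 q.2 * ex (q.2 * q.1.2) := by
      have n1 : Measurable fun q : (ℝ × ℝ) × ℝ => st_Al g w a q.1.1 q.2 :=
        (st_Al_meas hpd).comp (f := fun q : (ℝ × ℝ) × ℝ => (a, q.1.1, q.2)) (by fun_prop)
      exact ((hG.comp measurable_snd).mul n1).mul (measurable_ex.comp (by fun_prop))
    have m2 := (m1.stronglyMeasurable.integral_prod_right' (ν := (volume : Measure ℝ))).measurable
    exact (m2.enorm.pow_const 4).lintegral_prod_right'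
  refine (FN.le_muC T hT0 _ hmeas).trans (key.trans ?_)
  set I1 : ℝ → ℝ≥0∞ := (Icc (-R) R).indicator 1 with hI1
  set I2 : ℝ → ℝ≥0∞ := (Icc (-(2 * R)) (2 * R)).indicator 1 with hI2
  have hI1m : Measurable I1 := measurable_one.indicator measurableSet_Icc
  have hI2m : Measurable I2 := measurable_one.indicator measurableSet_Icc
  set D : ℝ := B ^ 4 * (K / k1 ^ 2) with hD
  have hD0 : 0 ≤ D := by positivity
  have hpt : ∀ q : ℝ × ℝ × ℝ, ‖∫ t, st_Al g w a t q.1 * st_Al g w a t (q.1 - q.2.1 - q.2.2) *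
        (starRingEnd ℂ) (st_Al g w a t (q.1 - q.2.1)) *
        (starRingEnd ℂ) (st_Al g w a t (q.1 - q.2.2)) ∂(FN.muC T)‖ₑ ≤
      I1 q.1 * (I2 q.2.1 * (I2 q.2.2 *
        ENNReal.ofReal (D * (T / (1 + T * |q.2.1 * q.2.2|) ^ 2)))) := by
    rintro ⟨b, y, z⟩
    simp only
    set F : ℝ := g (a, b) + g (a, b - y - z) - g (a, b - y) - g (a, b - z) with hF
    set W : ℂ := (((w (a, b)) * (w (a, b - y - z)) * (w (a, b - y)) * (w (a, b - z)) : ℝ) : ℂ)
      with hW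
    have h1 : ∀ t, st_Al g w a t b * st_Al g w a t (b - y - z) *
        (starRingEnd ℂ) (st_Al g w a t (b - y)) *
        (starRingEnd ℂ) (st_Al g w a t (b - z)) = W * ex (t * F) := by
      intro t
      unfold st_Al
      have h2 : ex (t * F) = ex (t * g (a, b)) * ex (t * g (a, b - y - z)) *
          ex (-(t * g (a, b - y))) * ex (-(t * g (a, b - z))) := by
        rw [← m2_ex_add, ← m2_ex_add, ← m2_ex_add]
        congr 1
        rw [hF]
        ring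
      rw [h2, map_mul, map_mul, FN.ex_conj, FN.ex_conj, Complex.conj_ofReal, Complex.conj_ofReal,
        hW]
      push_cast
      ring
    rw [integral_congr_ae (Filter.Eventually.of_forall h1), FN.int_muC]
    by_cases hw : w (a, b) = 0 ∨ w (a, b - y - z) = 0 ∨ w (a, b - y) = 0 ∨ w (a, b - z) = 0
    · have hW0 : W = 0 := by
        rw [hW]
        rcases hw with h | h | h | h <;> rw [h] <;> simp
      rw [hW0, zero_mul, enorm_zero]
      exact zero_le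
    · push Not at hw
      obtain ⟨w1, w2, w3, w4⟩ := hw
      have e1 := abs_le.1 (st_w_ne hpd w1).2
      have e3 := abs_le.1 (st_w_ne hpd w3).2
      have e4 := abs_le.1 (st_w_ne hpd w4).2
      have i1 : I1 b = 1 := by
        have hmem : b ∈ Icc (-R) R := e1
        rw [hI1, indicator_of_mem hmem, Pi.one_apply]
      have i2 : I2 y = 1 := by
        have hmem : y ∈ Icc (-(2 * R)) (2 * R) := ⟨by linarith, by linarith⟩
        rw [hI2, indicator_of_mem hmem, Pi.one_apply]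
      have i3 : I2 z = 1 := by
        have hmem : z ∈ Icc (-(2 * R)) (2 * R) := ⟨by linarith, by linarith⟩
        rw [hI2, indicator_of_mem hmem, Pi.one_apply]
      rw [i1, i2, i3, one_mul, one_mul, one_mul, ← ofReal_norm]
      apply ENNReal.ofReal_le_ofReal
      rw [norm_mul]
      have hWn : ‖W‖ ≤ B ^ 4 := by
        rw [hW, Complex.norm_real, Real.norm_eq_abs, abs_mul, abs_mul, abs_mul]
        have g := hpd.bw
        calc |w (a, b)| * |w (a, b - y - z)| * |w (a, b - y)| * |w (a, b - z)|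
            ≤ B * B * B * B := by
              gcongr
              · exact g _
              · exact g _
              · exact g _
              · exact g _
          _ = B ^ 4 := by ring
      have hFl : k1 * |y * z| ≤ |F| := by
        have h5 := hcv a b y z w1 w3 w4 w2
        have h6 : k1 * |y * z| ≤ κ * |y * z| := mul_le_mul_of_nonneg_right hk12 (abs_nonneg _)
        exact h6.trans h5
      have hKn : ‖Kt T F‖ ≤ K / k1 ^ 2 * (T / (1 + T * |y * z|) ^ 2) := by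
        refine (hKt T _ hT0).trans ?_
        have h7 : k1 * (1 + T * |y * z|) ≤ 1 + T * |F| := by
          have := mul_le_mul_of_nonneg_left hFl hT0.le
          nlinarith
        have h8 : 1 ≤ 1 + T * |F| := by
          have : 0 ≤ T * |F| := by positivity
          linarith
        have h9 : (k1 * (1 + T * |y * z|)) ^ 2 ≤ (1 + T * |F|) ^ 3 := by
          calc (k1 * (1 + T * |y * z|)) ^ 2 ≤ (1 + T * |F|) ^ 2 :=
                pow_le_pow_left₀ (by positivity) h7 2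
            _ ≤ (1 + T * |F|) ^ 3 := pow_le_pow_right₀ h8 (by norm_num)
        have h10 : K / k1 ^ 2 * (T / (1 + T * |y * z|) ^ 2) =
            K * T / (k1 * (1 + T * |y * z|)) ^ 2 := by
          rw [mul_pow, div_mul_div_comm]
        rw [h10]
        exact div_le_div_of_nonneg_left (by positivity) (by positivity) h9
      calc ‖W‖ * ‖Kt T F‖ ≤ B ^ 4 * (K / k1 ^ 2 * (T / (1 + T * |y * z|) ^ 2)) :=
            mul_le_mul hWn hKn (norm_nonneg _) (by positivity)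
        _ = D * (T / (1 + T * |y * z|) ^ 2) := by rw [hD]; ring
  have hgm : Measurable fun p : ℝ × ℝ =>
      ENNReal.ofReal (D * (T / (1 + T * |p.1 * p.2|) ^ 2)) := by
    refine Measurable.ennreal_ofReal ?_
    fun_prop
  refine (lintegral_mono hpt).trans ?_
  have hm2 : Measurable fun p : ℝ × ℝ => I2 p.1 * (I2 p.2 *
      ENNReal.ofReal (D * (T / (1 + T * |p.1 * p.2|) ^ 2))) :=
    (hI2m.comp measurable_fst).mul ((hI2m.comp measurable_snd).mul hgm)
  rw [Measure.volume_eq_prod, lintegral_prod_mul (f := I1)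
    (g := fun p : ℝ × ℝ => I2 p.1 * (I2 p.2 *
      ENNReal.ofReal (D * (T / (1 + T * |p.1 * p.2|) ^ 2))))
    hI1m.aemeasurable hm2.aemeasurable]
  have hJ1 : ∫⁻ y, I1 y = ENNReal.ofReal (2 * R) := by
    rw [hI1, lintegral_indicator_one measurableSet_Icc, Real.volume_Icc]
    congr 1
    ring
  have hJ2 : ∫⁻ p : ℝ × ℝ, I2 p.1 * (I2 p.2 *
      ENNReal.ofReal (D * (T / (1 + T * |p.1 * p.2|) ^ 2))) ≤
      ENNReal.ofReal (D * (C1 * (1 + Real.log T))) := by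
    rw [Measure.volume_eq_prod, lintegral_prod _ hm2.aemeasurable]
    have h9 : ∀ y : ℝ, ∫⁻ z : ℝ, I2 y * (I2 z *
        ENNReal.ofReal (D * (T / (1 + T * |y * z|) ^ 2))) =
        (Icc (-(2 * R)) (2 * R)).indicator (fun y => ∫⁻ z in Icc (-(2 * R)) (2 * R),
          ENNReal.ofReal (D * (T / (1 + T * |y * z|) ^ 2))) y := by
      intro y
      by_cases hy : y ∈ Icc (-(2 * R)) (2 * R)
      · rw [indicator_of_mem hy, hI2, indicator_of_mem hy, Pi.one_apply,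
          ← lintegral_indicator measurableSet_Icc]
        refine lintegral_congr fun z => ?_
        by_cases hz : z ∈ Icc (-(2 * R)) (2 * R)
        · rw [indicator_of_mem hz, indicator_of_mem hz, Pi.one_apply, one_mul, one_mul]
        · rw [indicator_of_notMem hz, indicator_of_notMem hz, zero_mul, mul_zero]
      · rw [indicator_of_notMem hy, hI2, indicator_of_notMem hy]
        simp
    rw [lintegral_congr h9, lintegral_indicator measurableSet_Icc]
    have h10 : ∀ y z : ℝ, ENNReal.ofReal (D * (T / (1 + T * |y * z|) ^ 2)) =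
        ENNReal.ofReal D * ENNReal.ofReal (T / (1 + T * |y * z|) ^ 2) :=
      fun y z => ENNReal.ofReal_mul hD0
    simp only [h10]
    have h11 : ∀ y : ℝ, ∫⁻ z in Icc (-(2 * R)) (2 * R), ENNReal.ofReal D *
        ENNReal.ofReal (T / (1 + T * |y * z|) ^ 2) = ENNReal.ofReal D *
        ∫⁻ z in Icc (-(2 * R)) (2 * R), ENNReal.ofReal (T / (1 + T * |y * z|) ^ 2) :=
      fun y => lintegral_const_mul' _ _ ENNReal.ofReal_ne_top
    simp only [h11]
    rw [lintegral_const_mul' _ _ ENNReal.ofReal_ne_top, ENNReal.ofReal_mul (p := D) hD0]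
    exact mul_le_mul_right (hki T hT) _
  rw [hJ1]
  refine (mul_le_mul_right hJ2 _).trans (le_of_eq ?_)
  rw [← ENNReal.ofReal_mul (by positivity)]
  congr 1
  rw [hD]
  ring

end Pool.Agent.SDT.N1G

end -- N1G.St1

section -- N1M.PC

/-!
N1M, block M4, type N': the key lemma.
-/

namespace Pool.Agent.SDT.N1M

open MeasureTheory Set Metric Pool.Agent.SDT.MP_6cbfb8_an Pool.Agent.SDT.MST Pool.Agent.SDT.N1
open Pool.Agent.SDT.N1F Pool.Agent.SDT.N1G
open scoped ENNReal Real ContDiff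

theorem c_key {c : ℝ} (hc : 0 < c) (hc1 : c ≤ 1) {m0 : ℝ} {x0 y0 : ℝ × ℝ} (hb : Bm m0 x0)
    (hy : y0.1 ≠ 0) : ∃ l Λ δ0 : ℝ, 0 < l ∧ l ≤ Λ ∧ 0 < δ0 ∧ δ0 ≤ 1 ∧
    ∀ al m ρ : ℝ, Sm al m m0 δ0 → 0 < ρ → ρ < δ0 → ∀ q : V × V, NbG δ0 x0.swap y0.swap q →
    ∃ u ∈ Icc (0:ℝ) 1, ∃ L M : ℝ, l ≤ L ∧ L ≤ Λ ∧ l ≤ |M| ∧ |M| ≤ Λ ∧
      Fg (phP c m al ρ) q = -(L * nn (omP m) (sgP m al ρ) (sU q u) * q.1.2.2 + M * q.2.2.2) := by
  have L0 := base_cL (y0 := y0) hb
  have M0 := base_cM hb hy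
  have M0' : 0 < |cM (p0C m0 x0 y0)| := abs_pos.2 M0
  obtain ⟨dL, dL0, dL1, HL⟩ := near_B m0 x0 y0 cL (cont_cL (y0 := y0) hb) (half_pos L0)
  obtain ⟨dM, dM0, dM1, HM⟩ := near_B m0 x0 y0 cM (cont_cM (y0 := y0) hb) (half_pos M0')
  obtain ⟨d1, d10, d11, H1⟩ := near_B m0 x0 y0 cq1 (cont_cq1 _) (show (0:ℝ) < 1 / 8 by norm_num)
  obtain ⟨d2, d20, d21, H2⟩ := near_B m0 x0 y0 cq2 (cont_cq2 _) (show (0:ℝ) < 1 / 8 by norm_num)
  obtain ⟨d3, d30, d31, H3⟩ := near_B m0 x0 y0 cb1 (cont_cb1 _) (show (0:ℝ) < 1 / 4 by norm_num)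
  obtain ⟨d4, d40, d41, H4⟩ := near_B m0 x0 y0 cb2 (cont_cb2 _) (show (0:ℝ) < 1 / 4 by norm_num)
  obtain ⟨d5, d50, d51, H5⟩ := near_B m0 x0 y0 (fun p => p.2.1 * (p.1 * p.2.2.2.2.2 ^ 2))
    (by fun_prop) (show (0:ℝ) < 1 / 4 by norm_num)
  obtain ⟨d6, d60, d61, H6⟩ := near_B m0 x0 y0
    (fun p => p.2.1 * (p.1 * (p.2.2.2.2.2 - p.2.2.1 * p.2.2.2.1.2) ^ 2))
    (by fun_prop) (show (0:ℝ) < 1 / 4 by norm_num)
  obtain ⟨h1, h2, h3, h4, h5, h6, h7⟩ := hb
  obtain ⟨d7, d70, d71, H7⟩ := near_B m0 x0 y0 (fun p => p.2.2.2.2.2) (by fun_prop) (half_pos h3)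
  obtain ⟨d8, d80, d81, H8⟩ := near_B m0 x0 y0 (fun p => p.2.2.2.2.2 - p.2.2.1 * p.2.2.2.1.2)
    (by fun_prop) (half_pos h3)
  obtain ⟨δ, hδ⟩ : ∃ δ : ℝ, δ = min (min (min dL dM) (min d1 d2))
      (min (min d3 d4) (min (min d5 d6) (min d7 d8))) := ⟨_, rfl⟩
  have hδ0 : 0 < δ := by
    rw [hδ]
    positivity
  have mm : δ ≤ dL ∧ δ ≤ dM ∧ δ ≤ d1 ∧ δ ≤ d2 ∧ δ ≤ d3 ∧ δ ≤ d4 ∧ δ ≤ d5 ∧ δ ≤ d6 ∧ δ ≤ d7 ∧
      δ ≤ d8 := by
    rw [hδ]
    simp only [min_le_iff, le_refl, true_or, or_true, and_self]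
  obtain ⟨mL, mM, m1, m2, m3, m4, m5, m6, m7, m8⟩ := mm
  refine ⟨min (cL (p0C m0 x0 y0) / 2) (|cM (p0C m0 x0 y0)| / 2),
    2 * cL (p0C m0 x0 y0) + 2 * |cM (p0C m0 x0 y0)|, δ, by positivity, ?_, hδ0, mL.trans dL1, ?_⟩
  · refine (min_le_left _ _).trans ?_
    linarith
  intro al m ρ hs hρ hρδ q hq
  have hal := hs.1
  -- facts at every intermediate point
  have fact : ∀ u ∈ Icc (0:ℝ) 1, 1 / 8 ≤ cq1 (pS m al ρ (sU q u)) ∧
      1 / 8 ≤ cq2 (pS m al ρ (sU q u)) := by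
    intro u hu
    have hB := NbG_seg hq hu
    have k1 := H1 al m ρ (Sm_mono m1 hs) hρ (hρδ.trans_le m1) _ (Bx_mono' m1 hB)
    have k2 := H2 al m ρ (Sm_mono m2 hs) hρ (hρδ.trans_le m2) _ (Bx_mono' m2 hB)
    rw [base_cq1] at k1
    rw [base_cq2] at k2
    constructor
    · linarith [(abs_lt.1 k1).1]
    · linarith [(abs_lt.1 k2).1]
  have e1 : ∀ u, cq1 (pS m al ρ (sU q u)) =
      hm m (q.1.2.1 - u * q.1.2.2) - (al * q.2.2.1 - u * (al * q.2.2.2)) ^ 2 := by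
    intro u
    unfold cq1 pS sU N1F.pB
    ring
  have e2 : ∀ u, cq2 (pS m al ρ (sU q u)) =
      hm m (q.1.2.1 - al ^ 2 * ρ * q.1.1 - u * q.1.2.2) -
        (al * q.2.2.1 - al * ρ * q.2.1 - u * (al * q.2.2.2)) ^ 2 := by
    intro u
    unfold cq2 pS sU N1F.pB hm
    ring
  obtain ⟨u, hu, hF⟩ := c_mvt m (al * q.2.2.1) q.1.2.1 (al * ρ * q.2.1) (al ^ 2 * ρ * q.1.1)
    (al * q.2.2.2) q.1.2.2
    (fun u hu => by
      have := (fact u hu).1
      rw [e1] at this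
      linarith)
    (fun u hu => by
      have := (fact u hu).2
      rw [e2] at this
      linarith)
  have hB := NbG_seg hq hu
  have kL := HL al m ρ (Sm_mono mL hs) hρ (hρδ.trans_le mL) _ (Bx_mono' mL hB)
  have kM := HM al m ρ (Sm_mono mM hs) hρ (hρδ.trans_le mM) _ (Bx_mono' mM hB)
  have k3 := H3 al m ρ (Sm_mono m3 hs) hρ (hρδ.trans_le m3) _ (Bx_mono' m3 hB)
  have k4 := H4 al m ρ (Sm_mono m4 hs) hρ (hρδ.trans_le m4) _ (Bx_mono' m4 hB)
  have k5 := H5 al m ρ (Sm_mono m5 hs) hρ (hρδ.trans_le m5) _ (Bx_mono' m5 hB)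
  have k6 := H6 al m ρ (Sm_mono m6 hs) hρ (hρδ.trans_le m6) _ (Bx_mono' m6 hB)
  have k7 := H7 al m ρ (Sm_mono m7 hs) hρ (hρδ.trans_le m7) _ (Bx_mono' m7 hB)
  have k8 := H8 al m ρ (Sm_mono m8 hs) hρ (hρδ.trans_le m8) _ (Bx_mono' m8 hB)
  obtain ⟨f1, f2⟩ := fact u hu
  rw [base_cb1] at k3
  rw [base_cb2] at k4
  have b5 : (p0C m0 x0 y0).2.1 * ((p0C m0 x0 y0).1 * (p0C m0 x0 y0).2.2.2.2.2 ^ 2) = 0 := by
    simp [p0C]
  have b6 : (p0C m0 x0 y0).2.1 * ((p0C m0 x0 y0).1 * ((p0C m0 x0 y0).2.2.2.2.2 -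
      (p0C m0 x0 y0).2.2.1 * (p0C m0 x0 y0).2.2.2.1.2) ^ 2) = 0 := by
    simp [p0C]
  have b8 : (p0C m0 x0 y0).2.2.2.2.2 - (p0C m0 x0 y0).2.2.1 * (p0C m0 x0 y0).2.2.2.1.2 = x0.1 := by
    simp [p0C]
  simp only [b5, sub_zero] at k5
  simp only [b6, sub_zero] at k6
  simp only [b8] at k8
  have b7 : (p0C m0 x0 y0).2.2.2.2.2 = x0.1 := rfl
  simp only [b7] at k7
  refine ⟨u, hu, cL (pS m al ρ (sU q u)), cM (pS m al ρ (sU q u)), ?_, ?_, ?_, ?_, ?_⟩
  · refine (min_le_left _ _).trans ?_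
    linarith [(abs_lt.1 kL).1]
  · linarith [(abs_lt.1 kL).2]
  · refine (min_le_right _ _).trans ?_
    have := abs_sub_abs_le_abs_sub (cM (p0C m0 x0 y0)) (cM (pS m al ρ (sU q u)))
    rw [abs_sub_comm] at this
    linarith
  · have := abs_sub_abs_le_abs_sub (cM (pS m al ρ (sU q u))) (cM (p0C m0 x0 y0))
    linarith
  · -- the identity
    have c1 := c_first (al ^ 2) m ρ q.1.1 q.2.1 (q.1.2.1 - u * q.1.2.2) (q.2.2.1 - u * q.2.2.2)
      (show 0 < cq1 (pS m al ρ (sU q u)) by linarith)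
      (show 0 < cq2 (pS m al ρ (sU q u)) by linarith)
      (by
        change |m * (al ^ 2 * (q.2.2.1 - u * q.2.2.2) ^ 2)| < 1 / 4 at k5
        linarith [(abs_lt.1 k5).2])
      (by
        change |m * (al ^ 2 * (q.2.2.1 - u * q.2.2.2 - ρ * q.2.1) ^ 2)| < 1 / 4 at k6
        linarith [(abs_lt.1 k6).2])
      (by
        change |bm m (q.1.2.1 - u * q.1.2.2) - bm m0 x0.2| < 1 / 4 at k3
        linarith [(abs_lt.1 k3).1])
      (by
        change |bm m (q.1.2.1 - u * q.1.2.2 - al ^ 2 * ρ * q.1.1) - bm m0 x0.2| < 1 / 4 at k4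
        linarith [(abs_lt.1 k4).1])
    have c2 := c_second (al ^ 2) m ρ q.1.1 q.2.1 (q.1.2.1 - u * q.1.2.2)
      (q.2.2.1 - u * q.2.2.2)
      (show 0 < cq1 (pS m al ρ (sU q u)) by linarith)
      (show 0 < cq2 (pS m al ρ (sU q u)) by linarith)
      (by
        change |q.2.2.1 - u * q.2.2.2 - x0.1| < x0.1 / 2 at k7
        linarith [(abs_lt.1 k7).1])
      (by
        change |q.2.2.1 - u * q.2.2.2 - ρ * q.2.1 - x0.1| < x0.1 / 2 at k8
        linarith [(abs_lt.1 k8).1])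
    change bm m (q.1.2.1 - u * q.1.2.2) / √(cq1 (pS m al ρ (sU q u))) -
      bm m (q.1.2.1 - u * q.1.2.2 - al ^ 2 * ρ * q.1.1) / √(cq2 (pS m al ρ (sU q u))) =
      -(al ^ 2 * ρ * (cL (pS m al ρ (sU q u)) * cN (pS m al ρ (sU q u)))) at c1
    change (q.2.2.1 - u * q.2.2.2) / √(cq1 (pS m al ρ (sU q u))) -
      (q.2.2.1 - u * q.2.2.2 - ρ * q.2.1) / √(cq2 (pS m al ρ (sU q u))) =
      ρ * cM (pS m al ρ (sU q u)) at c2
    rw [cN_pS, e1, e2] at c1
    rw [e1, e2] at c2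
    -- the four corners
    have hc8 : c ^ 2 / 8 ≤ 1 / 8 := by nlinarith
    have g0 := fact 0 ⟨le_rfl, zero_le_one⟩
    have g1 := fact 1 ⟨zero_le_one, le_rfl⟩
    rw [e1, e2] at g0 g1
    simp only [zero_mul, sub_zero, one_mul] at g0 g1
    have E : Fg (phP c m al ρ) q = (√(hm m q.1.2.1 - (al * q.2.2.1) ^ 2) -
        √(hm m (q.1.2.1 - al ^ 2 * ρ * q.1.1) - (al * q.2.2.1 - al * ρ * q.2.1) ^ 2) -
        √(hm m (q.1.2.1 - q.1.2.2) - (al * q.2.2.1 - al * q.2.2.2) ^ 2) +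
        √(hm m (q.1.2.1 - al ^ 2 * ρ * q.1.1 - q.1.2.2) -
          (al * q.2.2.1 - al * ρ * q.2.1 - al * q.2.2.2) ^ 2)) / (al ^ 2 * ρ) := by
      unfold Fg phP dif qm px pz
      simp only [Prod.fst_sub, Prod.snd_sub]
      rw [e_Sq_eq hc (by linarith [g0.1]), e_Sq_eq hc (by linarith [g0.2]),
        e_Sq_eq hc (by
          have := g1.1
          rw [← mul_sub] at this
          linarith),
        e_Sq_eq hc (by
          have := g1.2
          have h1 : q.1.2.1 - q.1.2.2 - al ^ 2 * ρ * q.1.1 =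
            q.1.2.1 - al ^ 2 * ρ * q.1.1 - q.1.2.2 := by ring
          have h2 : al * (q.2.2.1 - q.2.2.2) - al * ρ * q.2.1 =
            al * q.2.2.1 - al * ρ * q.2.1 - al * q.2.2.2 := by ring
          rw [h1, h2]
          linarith)]
      have h1 : q.1.2.1 - q.1.2.2 - al ^ 2 * ρ * q.1.1 =
        q.1.2.1 - al ^ 2 * ρ * q.1.1 - q.1.2.2 := by ring
      have h2 : al * (q.2.2.1 - q.2.2.2) - al * ρ * q.2.1 =
        al * q.2.2.1 - al * ρ * q.2.1 - al * q.2.2.2 := by ring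
      rw [h1, h2, ← mul_sub]
      ring
    rw [E, hF]
    have h3 : al * q.2.2.1 - u * (al * q.2.2.2) = al * (q.2.2.1 - u * q.2.2.2) := by ring
    have h4 : al * q.2.2.1 - al * ρ * q.2.1 - u * (al * q.2.2.2) =
      al * (q.2.2.1 - u * q.2.2.2 - ρ * q.2.1) := by ring
    have h5 : q.1.2.1 - al ^ 2 * ρ * q.1.1 - u * q.1.2.2 =
      q.1.2.1 - u * q.1.2.2 - al ^ 2 * ρ * q.1.1 := by ring
    rw [h3, h4, h5] at c1 c2 ⊢
    rw [mul_div_assoc, mul_div_assoc, ← mul_sub, c1, c2]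
    field_simp
    ring

/-- The values of `n` near the base point. -/
theorem c_near {m0 : ℝ} {x0 y0 : ℝ × ℝ} (hb : Bm m0 x0) {ε : ℝ} (hε : 0 < ε) :
    ∃ δ : ℝ, 0 < δ ∧ δ ≤ 1 ∧ ∀ al m ρ : ℝ, Sm al m m0 δ → 0 < ρ → ρ < δ →
      ∀ s, Bx δ x0.swap y0.swap s →
      |nn (omP m) (sgP m al ρ) s - nn (omP m0) (sgP m0 0 0) (y0.swap, x0.swap)| < ε := by
  obtain ⟨δ, h1, h2, h3⟩ := near_B m0 x0 y0 cN (cont_cN (y0 := y0) hb) hε
  refine ⟨δ, h1, h2, fun al m ρ hs hρ hρδ s h => ?_⟩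
  have := h3 al m ρ hs hρ hρδ s h
  rwa [cN_pS, base_cN] at this

end Pool.Agent.SDT.N1M

end -- N1M.PC
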