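import Pool.Agent.SDT.B33
import Pool.Agent.SDT.B41
import Pool.Agent.SDT.B44

set_option autoImplicit false

namespace Pool.Agent.SDT.MP_6cbfb8_an
end Pool.Agent.SDT.MP_6cbfb8_an
namespace Pool.Agent.SDT.MST
end Pool.Agent.SDT.MST
namespace Pool.Agent.SDT.N1
end Pool.Agent.SDT.N1
namespace Pool.Agent.SDT.N1F
end Pool.Agent.SDT.N1F

section -- N1.Y3

/-!
N1, block Y: the dyadic `L⁴` estimate for densities approximated by combinations of products.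
-/

namespace Pool.Agent.SDT.N1

open MeasureTheory Set Metric Pool.Agent.SDT.MP_6cbfb8_an Pool.Agent.SDT.MST
open scoped ENNReal Real

theorem op4_meas (c : ℝ) (hc : 0 < c) (g : E 2 → ℂ) (hg : Measurable g) :
    Measurable fun q : ℝ × E 2 => ‖op2 (hft_a c) idM q.1 g q.2‖ₑ ^ (4:ℝ) :=
  (((measurable_op2 _ _ (hft_cut hc) g hg).comp
    (f := fun q : ℝ × E 2 => ((idM, q.1, q.2) : Mat 2 × ℝ × E 2)) (by fun_prop)).enorm).pow_const _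

theorem op4_meas1 (c : ℝ) (hc : 0 < c) (g : E 2 → ℂ) (hg : Measurable g) :
    Measurable fun t : ℝ => ∫⁻ x : E 2, ‖op2 (hft_a c) idM t g x‖ₑ ^ (4:ℝ) :=
  (op4_meas c hc g hg).lintegral_prod_right'

theorem op4_meas2 (c : ℝ) (hc : 0 < c) (g : E 2 → ℂ) (hg : Measurable g) (t : ℝ) :
    Measurable fun x : E 2 => ‖op2 (hft_a c) idM t g x‖ₑ ^ (4:ℝ) :=
  (op4_meas c hc g hg).comp (f := fun x : E 2 => (t, x)) (by fun_prop)

/-- The error term. -/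
theorem err4 (c : ℝ) (hc : 0 < c) : ∃ C : ℝ, 0 ≤ C ∧ ∀ T : ℝ, 0 ≤ T → ∀ (g : E 2 → ℂ),
    Measurable g → ∀ B J : ℝ, (∀ w, ‖g w‖ ≤ B) → 0 ≤ J →
    ∫⁻ w in Qsq, ‖g w‖ₑ ≤ ENNReal.ofReal J →
    ∫⁻ t in {t : ℝ | T ≤ |t| ∧ |t| ≤ 2 * T}, ∫⁻ x : E 2, ‖op2 (hft_a c) idM t g x‖ₑ ^ (4:ℝ) ≤
      ENNReal.ofReal (C * (T * B * J ^ 3)) := by
  obtain ⟨C, hC, H⟩ := op_small c hc
  refine ⟨2 * C ^ 3, by positivity, ?_⟩
  intro T hT g hg B J hB hJ hgJ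
  have hB0 : 0 ≤ B := (norm_nonneg _).trans (hB 0)
  have hfin : ENNReal.ofReal (C * J) ^ 2 ≠ ∞ := ENNReal.pow_ne_top ENNReal.ofReal_ne_top
  have h1 : ∀ t : ℝ, ∫⁻ x : E 2, ‖op2 (hft_a c) idM t g x‖ₑ ^ (4:ℝ) ≤
      ENNReal.ofReal (C ^ 3 * (B * J ^ 3)) := by
    intro t
    obtain ⟨h2, h3⟩ := H t g hg B hB
    calc ∫⁻ x : E 2, ‖op2 (hft_a c) idM t g x‖ₑ ^ (4:ℝ)
        ≤ ∫⁻ x : E 2, ENNReal.ofReal (C * J) ^ 2 * ‖op2 (hft_a c) idM t g x‖ₑ ^ (2:ℝ) := by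
          refine lintegral_mono fun x => ?_
          have h4 : ‖op2 (hft_a c) idM t g x‖ₑ ≤ ENNReal.ofReal (C * J) := by
            refine (h2 x).trans ?_
            rw [ENNReal.ofReal_mul hC]
            gcongr
          have e1 : ‖op2 (hft_a c) idM t g x‖ₑ ^ (4:ℝ) =
              ‖op2 (hft_a c) idM t g x‖ₑ ^ 2 * ‖op2 (hft_a c) idM t g x‖ₑ ^ (2:ℝ) := by
            have e2 : ‖op2 (hft_a c) idM t g x‖ₑ ^ (4:ℝ) = ‖op2 (hft_a c) idM t g x‖ₑ ^ 4 := by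
              exact_mod_cast ENNReal.rpow_natCast _ 4
            have e3 : ‖op2 (hft_a c) idM t g x‖ₑ ^ (2:ℝ) = ‖op2 (hft_a c) idM t g x‖ₑ ^ 2 := by
              exact_mod_cast ENNReal.rpow_natCast _ 2
            rw [e2, e3, ← pow_add]
          rw [e1]
          gcongr
      _ = ENNReal.ofReal (C * J) ^ 2 * ∫⁻ x : E 2, ‖op2 (hft_a c) idM t g x‖ₑ ^ (2:ℝ) :=
          lintegral_const_mul' _ _ hfin
      _ ≤ ENNReal.ofReal (C * J) ^ 2 * (ENNReal.ofReal C * (ENNReal.ofReal B *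
            ENNReal.ofReal J)) := by
          gcongr
          exact h3.trans (by gcongr)
      _ = ENNReal.ofReal (C ^ 3 * (B * J ^ 3)) := by
          rw [← ENNReal.ofReal_pow (by positivity), ← ENNReal.ofReal_mul hB0,
            ← ENNReal.ofReal_mul hC, ← ENNReal.ofReal_mul (by positivity)]
          congr 1
          ring
  calc ∫⁻ t in {t : ℝ | T ≤ |t| ∧ |t| ≤ 2 * T}, ∫⁻ x : E 2, ‖op2 (hft_a c) idM t g x‖ₑ ^ (4:ℝ)
      ≤ ∫⁻ _t in {t : ℝ | T ≤ |t| ∧ |t| ≤ 2 * T}, ENNReal.ofReal (C ^ 3 * (B * J ^ 3)) :=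
        lintegral_mono fun t => h1 t
    _ = ENNReal.ofReal (C ^ 3 * (B * J ^ 3)) * volume {t : ℝ | T ≤ |t| ∧ |t| ≤ 2 * T} := by
        rw [setLIntegral_const]
    _ ≤ ENNReal.ofReal (C ^ 3 * (B * J ^ 3)) * ENNReal.ofReal (2 * T) := by
        gcongr
        exact hts_vol T hT
    _ = ENNReal.ofReal (2 * C ^ 3 * (T * B * J ^ 3)) := by
        rw [← ENNReal.ofReal_mul (by positivity)]
        congr 1
        ring

/-- The main term. -/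
theorem main4 (c : ℝ) (hc : 0 < c) (R : ℝ≥0∞) (T : ℝ) {ι : Type} [Fintype ι] (b : ι → ℂ)
    (α β : ι → ℝ → ℂ) (m1 : ∀ i, Measurable (α i)) (m2 : ∀ i, Measurable (β i))
    (H : ∀ i, ∫⁻ t in {t : ℝ | T ≤ |t| ∧ |t| ≤ 2 * T}, ∫⁻ x : E 2,
      ‖op2 (hft_a c) idM t (pw (α i) (β i)) x‖ₑ ^ (4:ℝ) ≤ R) :
    ∫⁻ t in {t : ℝ | T ≤ |t| ∧ |t| ≤ 2 * T}, ∫⁻ x : E 2,
      ‖∑ i, b i * op2 (hft_a c) idM t (pw (α i) (β i)) x‖ₑ ^ (4:ℝ) ≤
      ENNReal.ofReal ((∑ i, ‖b i‖) ^ 4) * R := by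
  have hs0 : 0 ≤ ∑ i, ‖b i‖ := Finset.sum_nonneg fun _ _ => norm_nonneg _
  have hm : ∀ i, Measurable (pw (α i) (β i)) := fun i => pw_meas _ _ (m1 i) (m2 i)
  calc ∫⁻ t in {t : ℝ | T ≤ |t| ∧ |t| ≤ 2 * T}, ∫⁻ x : E 2,
        ‖∑ i, b i * op2 (hft_a c) idM t (pw (α i) (β i)) x‖ₑ ^ (4:ℝ)
      ≤ ∫⁻ t in {t : ℝ | T ≤ |t| ∧ |t| ≤ 2 * T}, ∫⁻ x : E 2,
          ENNReal.ofReal ((∑ i, ‖b i‖) ^ 3) * ∑ i, ENNReal.ofReal ‖b i‖ *
            ‖op2 (hft_a c) idM t (pw (α i) (β i)) x‖ₑ ^ (4:ℝ) :=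
        lintegral_mono fun t => lintegral_mono fun x => four_conv_e b _
    _ = ENNReal.ofReal ((∑ i, ‖b i‖) ^ 3) * ∑ i, ENNReal.ofReal ‖b i‖ *
          ∫⁻ t in {t : ℝ | T ≤ |t| ∧ |t| ≤ 2 * T}, ∫⁻ x : E 2,
            ‖op2 (hft_a c) idM t (pw (α i) (β i)) x‖ₑ ^ (4:ℝ) := by
        have e1 : ∀ t : ℝ, ∫⁻ x : E 2,
            ENNReal.ofReal ((∑ i, ‖b i‖) ^ 3) * ∑ i, ENNReal.ofReal ‖b i‖ *
              ‖op2 (hft_a c) idM t (pw (α i) (β i)) x‖ₑ ^ (4:ℝ) =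
            ENNReal.ofReal ((∑ i, ‖b i‖) ^ 3) * ∑ i, ENNReal.ofReal ‖b i‖ *
              ∫⁻ x : E 2, ‖op2 (hft_a c) idM t (pw (α i) (β i)) x‖ₑ ^ (4:ℝ) := by
          intro t
          rw [lintegral_const_mul' _ _ ENNReal.ofReal_ne_top, lintegral_finsetSum _ fun i _ =>
            (op4_meas2 c hc _ (hm i) t).const_mul _]
          congr 1
          refine Finset.sum_congr rfl fun i _ => ?_
          rw [lintegral_const_mul' _ _ ENNReal.ofReal_ne_top]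
        simp only [e1]
        rw [lintegral_const_mul' _ _ ENNReal.ofReal_ne_top, lintegral_finsetSum _ fun i _ =>
          (op4_meas1 c hc _ (hm i)).const_mul _]
        congr 1
        refine Finset.sum_congr rfl fun i _ => ?_
        rw [lintegral_const_mul' _ _ ENNReal.ofReal_ne_top]
    _ ≤ ENNReal.ofReal ((∑ i, ‖b i‖) ^ 3) * ∑ i, ENNReal.ofReal ‖b i‖ * R := by
        gcongr with i
        exact H i
    _ = ENNReal.ofReal ((∑ i, ‖b i‖) ^ 4) * R := by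
        rw [← Finset.sum_mul, ← ENNReal.ofReal_sum_of_nonneg fun _ _ => norm_nonneg _,
          ← mul_assoc, ← ENNReal.ofReal_mul (by positivity)]
        congr 2

/-- The dyadic `L⁴` estimate for product densities supported in `|a| ≥ b`, `|a'| ≥ b`, in the
chart, the cut-off near the equator being of size `c`. -/
def L4D (b c : ℝ) (k : ℕ) : Prop := ∃ C : ℝ, 0 ≤ C ∧ ∀ T : ℝ, 1 ≤ T →
    ∀ G₁ G₂ : ℝ → ℂ, Measurable G₁ → Measurable G₂ → (∀ a, ‖G₁ a‖ ≤ 1) → (∀ a, ‖G₂ a‖ ≤ 1) →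
    (∀ a, G₁ a ≠ 0 → b ≤ |a|) → (∀ a, G₂ a ≠ 0 → b ≤ |a|) →
    ∫⁻ t in {t : ℝ | T ≤ |t| ∧ |t| ≤ 2 * T}, ∫⁻ x : E 2,
      ‖op2 (hft_a c) idM t (pw G₁ G₂) x‖ₑ ^ (4:ℝ) ≤
      ENNReal.ofReal (C * (1 + Real.log T) ^ k / T)


end Pool.Agent.SDT.N1

end -- N1.Y3

section -- N1.Y11

/-!
N1, block Y: versions without cut-offs at the axes.
-/

namespace Pool.Agent.SDT.N1

open MeasureTheory Set Metric Pool.Agent.SDT.MP_6cbfb8_an Pool.Agent.SDT.MST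
open scoped ENNReal Real

/-- The dyadic `L⁴` estimate for product densities supported in the quarter plane
`a ≥ b0`, `b ≥ b0`, for positive times. -/
def L4K (b0 c : ℝ) (K : ℕ) : Prop := ∃ C : ℝ, 0 ≤ C ∧ ∀ T : ℝ, 1 ≤ T → ∀ G₁ G₂ : ℝ → ℂ,
    Measurable G₁ → Measurable G₂ → (∀ a, ‖G₁ a‖ ≤ 1) → (∀ b, ‖G₂ b‖ ≤ 1) →
    (∀ a, G₁ a ≠ 0 → b0 ≤ a) → (∀ b, G₂ b ≠ 0 → b0 ≤ b) →
    ∫⁻ t in Icc T (2 * T), ∫⁻ ξ : ℝ × ℝ, ‖Eo c G₁ G₂ t ξ‖ₑ ^ 4 ≤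
      ENNReal.ofReal (C * (1 + Real.log T) ^ K / T)

/-- Both signs of the coordinates. -/
theorem L4K_signs (b0 c : ℝ) (hc : 0 < c) (K : ℕ) (h : L4K b0 c K) : ∃ C : ℝ, 0 ≤ C ∧ ∀ T : ℝ, 1 ≤ T →
    ∀ G₁ G₂ : ℝ → ℂ, Measurable G₁ → Measurable G₂ → (∀ a, ‖G₁ a‖ ≤ 1) → (∀ b, ‖G₂ b‖ ≤ 1) →
    (∀ a, G₁ a ≠ 0 → b0 ≤ |a|) → (∀ b, G₂ b ≠ 0 → b0 ≤ |b|) →
    S4 c G₁ G₂ T ≤ ENNReal.ofReal (C * (1 + Real.log T) ^ K / T) := by
  obtain ⟨C, hC, H⟩ := h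
  have H' : ∀ T : ℝ, 1 ≤ T → ∀ G₁ G₂ : ℝ → ℂ,
    Measurable G₁ → Measurable G₂ → (∀ a, ‖G₁ a‖ ≤ 1) → (∀ b, ‖G₂ b‖ ≤ 1) →
    (∀ a, G₁ a ≠ 0 → b0 ≤ a) → (∀ b, G₂ b ≠ 0 → b0 ≤ b) →
    S4 c G₁ G₂ T ≤ ENNReal.ofReal (C * (1 + Real.log T) ^ K / T) := H
  refine ⟨256 * C, by positivity, ?_⟩
  intro T hT G₁ G₂ h1 h2 b1 b2 s1 s2
  set P : (ℝ → ℂ) → ℝ → ℂ := fun G a => if 0 ≤ a then G a else 0 with hP
  set M : (ℝ → ℂ) → ℝ → ℂ := fun G a => if 0 ≤ a then 0 else G a with hM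
  have hsum : ∀ (G : ℝ → ℂ) a, G a = P G a + M G a := by
    intro G a
    simp only [hP, hM]
    split_ifs <;> simp
  have mP : ∀ G : ℝ → ℂ, Measurable G → Measurable (P G) := by
    intro G hG
    exact Measurable.ite (measurableSet_Ici : MeasurableSet (Ici (0:ℝ))) hG measurable_const
  have mM : ∀ G : ℝ → ℂ, Measurable G → Measurable (M G) := by
    intro G hG
    exact Measurable.ite (measurableSet_Ici : MeasurableSet (Ici (0:ℝ))) measurable_const hG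
  have nP : ∀ G : ℝ → ℂ, (∀ a, ‖G a‖ ≤ 1) → ∀ a, ‖P G a‖ ≤ 1 := by
    intro G hG a
    simp only [hP]
    split_ifs
    · exact hG a
    · simp
  have nM : ∀ G : ℝ → ℂ, (∀ a, ‖G a‖ ≤ 1) → ∀ a, ‖M G a‖ ≤ 1 := by
    intro G hG a
    simp only [hM]
    split_ifs
    · simp
    · exact hG a
  have sP : ∀ G : ℝ → ℂ, (∀ a, G a ≠ 0 → b0 ≤ |a|) → ∀ a, P G a ≠ 0 → b0 ≤ a := by
    intro G hG a ha
    simp only [hP] at ha
    split_ifs at ha with h3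
    · have := hG a ha
      rwa [abs_of_nonneg h3] at this
    · exact absurd rfl ha
  have sM : ∀ G : ℝ → ℂ, (∀ a, G a ≠ 0 → b0 ≤ |a|) → ∀ a, M G (-a) ≠ 0 → b0 ≤ a := by
    intro G hG a ha
    simp only [hM] at ha
    split_ifs at ha with h3
    · exact absurd rfl ha
    · have := hG (-a) ha
      rw [abs_neg, abs_of_pos (by linarith)] at this
      exact this
  have mneg : ∀ G : ℝ → ℂ, Measurable G → Measurable (fun a => G (-a)) := by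
    intro G hG
    exact hG.comp measurable_neg
  set R := ENNReal.ofReal (C * (1 + Real.log T) ^ K / T) with hR
  have e1 : S4 c (P G₁) (P G₂) T ≤ R :=
    H' T hT _ _ (mP _ h1) (mP _ h2) (nP _ b1) (nP _ b2) (sP _ s1) (sP _ s2)
  have e2 : S4 c (M G₁) (P G₂) T ≤ R := by
    rw [← S4_refl1]
    exact H' T hT _ _ (mneg _ (mM _ h1)) (mP _ h2) (fun a => nM _ b1 _) (nP _ b2) (sM _ s1) (sP _ s2)
  have e3 : S4 c (P G₁) (M G₂) T ≤ R := by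
    rw [← S4_refl2]
    exact H' T hT _ _ (mP _ h1) (mneg _ (mM _ h2)) (nP _ b1) (fun a => nM _ b2 _) (sP _ s1) (sM _ s2)
  have e4 : S4 c (M G₁) (M G₂) T ≤ R := by
    rw [← S4_refl2, ← S4_refl1]
    exact H' T hT _ _ (mneg _ (mM _ h1)) (mneg _ (mM _ h2)) (fun a => nM _ b1 _)
      (fun a => nM _ b2 _) (sM _ s1) (sM _ s2)
  have f1 : S4 c G₁ (P G₂) T ≤ 8 * (S4 c (P G₁) (P G₂) T + S4 c (M G₁) (P G₂) T) :=
    S4_add c hc _ _ _ _ _ _ (mP _ h1) (mP _ h2) (mM _ h1) (mP _ h2) (nP _ b1) (nP _ b2) (nM _ b1)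
      (nP _ b2) (fun x => by rw [hsum G₁ x.1]; ring) T
  have f2 : S4 c G₁ (M G₂) T ≤ 8 * (S4 c (P G₁) (M G₂) T + S4 c (M G₁) (M G₂) T) :=
    S4_add c hc _ _ _ _ _ _ (mP _ h1) (mM _ h2) (mM _ h1) (mM _ h2) (nP _ b1) (nM _ b2) (nM _ b1)
      (nM _ b2) (fun x => by rw [hsum G₁ x.1]; ring) T
  have f3 : S4 c G₁ G₂ T ≤ 8 * (S4 c G₁ (P G₂) T + S4 c G₁ (M G₂) T) :=
    S4_add c hc _ _ _ _ _ _ h1 (mP _ h2) h1 (mM _ h2) b1 (nP _ b2) b1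
      (nM _ b2) (fun x => by rw [hsum G₂ x.2]; ring) T
  calc S4 c G₁ G₂ T ≤ 8 * (8 * (R + R) + 8 * (R + R)) := by
        refine f3.trans ?_
        gcongr
        · exact f1.trans (by gcongr)
        · exact f2.trans (by gcongr)
    _ = ENNReal.ofReal (256 * C * (1 + Real.log T) ^ K / T) := by
        have h5 : (256 : ℝ≥0∞) = ENNReal.ofReal 256 := by norm_num
        have h6 : 8 * (8 * (R + R) + 8 * (R + R)) = 256 * R := by ring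
        rw [h6, h5, hR, ← ENNReal.ofReal_mul (by norm_num)]
        congr 1
        ring

/-- Both signs of the time. -/
theorem L4K_D (b0 c : ℝ) (hc : 0 < c) (K : ℕ) (h : L4K b0 c K) :
    L4D b0 c K := by
  obtain ⟨C, hC, H⟩ := L4K_signs b0 c hc K h
  refine ⟨2 * C, by positivity, ?_⟩
  intro T hT G₁ G₂ h1 h2 b1 b2 s1 s2
  have hsub : {t : ℝ | T ≤ |t| ∧ |t| ≤ 2 * T} ⊆ Icc T (2 * T) ∪ Icc (-(2 * T)) (-T) := by
    intro t ht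
    obtain ⟨ht1, ht2⟩ := ht
    rcases le_total 0 t with h0 | h0
    · rw [abs_of_nonneg h0] at ht1 ht2
      exact Or.inl ⟨ht1, ht2⟩
    · rw [abs_of_nonpos h0] at ht1 ht2
      exact Or.inr ⟨by linarith, by linarith⟩
  have hin : ∀ t : ℝ, ∫⁻ x : E 2, ‖op2 (hft_a c) idM t (pw G₁ G₂) x‖ₑ ^ (4:ℝ) =
      ∫⁻ ξ : ℝ × ℝ, ‖Eo c G₁ G₂ t ξ‖ₑ ^ 4 := by
    intro t
    rw [← lint_pe]
    refine lintegral_congr fun x => ?_
    rw [op2_pw c hc]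
    exact_mod_cast ENNReal.rpow_natCast _ 4
  have hcm : ∀ G : ℝ → ℂ, Measurable G → Measurable fun a => (starRingEnd ℂ) (G a) := by
    intro G hG
    exact Complex.continuous_conj.measurable.comp hG
  calc ∫⁻ t in {t : ℝ | T ≤ |t| ∧ |t| ≤ 2 * T}, ∫⁻ x : E 2,
        ‖op2 (hft_a c) idM t (pw G₁ G₂) x‖ₑ ^ (4:ℝ)
      = ∫⁻ t in {t : ℝ | T ≤ |t| ∧ |t| ≤ 2 * T}, ∫⁻ ξ : ℝ × ℝ, ‖Eo c G₁ G₂ t ξ‖ₑ ^ 4 :=
        lintegral_congr fun t => hin t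
    _ ≤ ∫⁻ t in Icc T (2 * T) ∪ Icc (-(2 * T)) (-T), ∫⁻ ξ : ℝ × ℝ, ‖Eo c G₁ G₂ t ξ‖ₑ ^ 4 :=
        lintegral_mono_set hsub
    _ ≤ S4 c G₁ G₂ T + S4 c (fun a => (starRingEnd ℂ) (G₁ a)) (fun b => (starRingEnd ℂ) (G₂ b)) T := by
        refine (lintegral_union_le _ _ _).trans ?_
        rw [S4_neg]
        exact le_rfl
    _ ≤ ENNReal.ofReal (C * (1 + Real.log T) ^ K / T) +
          ENNReal.ofReal (C * (1 + Real.log T) ^ K / T) := by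
        refine add_le_add (H T hT G₁ G₂ h1 h2 b1 b2 s1 s2) (H T hT _ _ (hcm _ h1) (hcm _ h2) ?_ ?_ ?_ ?_)
        · intro a
          rw [RCLike.norm_conj]
          exact b1 a
        · intro a
          rw [RCLike.norm_conj]
          exact b2 a
        · intro a ha
          exact s1 a fun h0 => ha (by rw [h0]; simp)
        · intro a ha
          exact s2 a fun h0 => ha (by rw [h0]; simp)
    _ = ENNReal.ofReal (2 * C * (1 + Real.log T) ^ K / T) := by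
        have hlog := Real.log_nonneg hT
        rw [← ENNReal.ofReal_add (by positivity) (by positivity)]
        congr 1
        ring


/-- The function `G(x₀, x₁)` on the disc `x₀² + x₁² < 1 - c²`, and `0` elsewhere. -/
noncomputable def dsc (c : ℝ) (G : ℝ × ℝ → ℂ) (x : E 2) : ℂ :=
  if x 0 ^ 2 + x 1 ^ 2 < 1 - c ^ 2 then G (x 0, x 1) else 0

theorem cdn_dsc (c : ℝ) (G : ℝ × ℝ → ℂ) (x : E 2) : cdn (-1) c G x = dsc c G x := by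
  unfold cdn dsc
  have h0 : -1 < |x 0| := by linarith [abs_nonneg (x 0)]
  have h1 : -1 < |x 1| := by linarith [abs_nonneg (x 1)]
  simp only [h0, h1, true_and]

theorem L4D_neg (c : ℝ) (m : ℕ) (h : L4D 0 c m) : L4D (-1) c m := by
  obtain ⟨C, hC, H⟩ := h
  exact ⟨C, hC, fun T hT G₁ G₂ m1 m2 b1 b2 _ _ => H T hT G₁ G₂ m1 m2 b1 b2
    (fun a _ => abs_nonneg a) (fun a _ => abs_nonneg a)⟩


end Pool.Agent.SDT.N1

end -- N1.Y11

section -- N1M.M2d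

/-!
N1M, block M2: the normal form, type N; base point.
-/

namespace Pool.Agent.SDT.N1M

open MeasureTheory Set Metric Pool.Agent.SDT.MP_6cbfb8_an Pool.Agent.SDT.MST Pool.Agent.SDT.N1
open Pool.Agent.SDT.N1F
open scoped ENNReal Real ContDiff Topology

/-- The exact identity. -/
lemma idN (c : ℝ) (hc : 0 < c) (x : P6 × V × V) (h : GdF c x)
    (hη : x.1.2.2.2.2.1 * x.1.2.2.2.2.2 = x.1.2.2.2.1 ^ 2) (k : ℝ) (hk : yf c x = x.1.1 * k) :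
    yq c 0 0 0 x - yq c 0 1 1 x - yq c 1 0 0 x + yq c 1 1 1 x =
      (x.1.1 * x.1.2.2.1 * x.1.2.2.2.1) * (yE c x * (yW (x.1, x.2.1) - yS c (x.1, x.2.2) +
        x.1.2.2.2.2.1 * (yL (x.1, x.2.1) * yM c (x.1, x.2.2) +
          x.1.1 * (k / yE c x - x.1.2.2.2.2.2 * yK c x)))) := by
  have hE := yE_ne c hc x h
  obtain ⟨⟨⟨g1, g2, g3⟩, hB, v1, v2, v3, v4, v5, v6⟩, hk1, hk2, hD⟩ := h
  obtain ⟨⟨a1, a2⟩, a3, a4⟩ := ys_pos c hc _ hB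
  obtain ⟨b1, c1⟩ := Sq_pos c hc _ v1
  obtain ⟨b2, c2⟩ := Sq_pos c hc _ v2
  obtain ⟨b3, c3⟩ := Sq_pos c hc _ v3
  obtain ⟨b4, c4⟩ := Sq_pos c hc _ v4
  obtain ⟨b5, c5⟩ := Sq_pos c hc _ v5
  obtain ⟨b6, c6⟩ := Sq_pos c hc _ v6
  refine phaseN x.1.1 x.1.2.1 x.1.2.2.1 x.1.2.2.2.1 x.1.2.2.2.2.1 x.1.2.2.2.2.2 x.2.1.1 x.2.1.2.1
    x.2.1.2.2 x.2.2.1 x.2.2.2.1 x.2.2.2.2 (yq c 0 0 0 x) (yq c 0 1 0 x) (yq c 1 0 0 x)
    (yq c 1 1 0 x) (yq c 0 1 1 x) (yq c 1 1 1 x) (ys c 0 (x.1, x.2.2)) (ys c 1 (x.1, x.2.2))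
    (yc (x.1, x.2.1)) (yd (x.1, x.2.1)) (yR1 c x) (yR2 c x) (yD c x) (yE c x)
    (yS c (x.1, x.2.2)) b1 b2 b3 b4 b5 b6 a1 a3 ?_ ?_ ?_ ?_ ?_ ?_ ?_ ?_ rfl rfl g1 g2 rfl rfl
    hk1 hk2 rfl hD rfl hE rfl hη k hk
  · rw [a2]; unfold yH; congr 1; ring
  · rw [a4]; unfold yH; congr 1; ring
  · unfold yq; rw [c1]; unfold yV; congr 1 <;> ring_nf
  · unfold yq; rw [c2]; unfold yV; congr 1 <;> ring_nf
  · unfold yq; rw [c3]; unfold yV; congr 1 <;> ring_nf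
  · unfold yq; rw [c4]; unfold yV; congr 1 <;> ring_nf
  · unfold yq; rw [c5]; unfold yV; congr 1 <;> ring_nf
  · unfold yq; rw [c6]; unfold yV; congr 1 <;> ring_nf

lemma yq_A0 (c u v e : ℝ) (x : P6 × V × V) (h : x.1.1 = 0) :
    yq c u v e x = ys c u (x.1, x.2.2) := by
  unfold yq ys yV yH
  simp only [h]
  congr 1
  simp

lemma yf_zero (c : ℝ) (hc : 0 < c) (x : P6 × V × V) (h : GdF c x) (h0 : x.1.1 = 0) :
    yf c x = 0 := by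
  obtain ⟨⟨⟨g1, g2, g3⟩, hB, v1, v2, v3, v4, v5, v6⟩, hk1, hk2, hD⟩ := h
  obtain ⟨⟨a1, a2⟩, a3, a4⟩ := ys_pos c hc _ hB
  have key := zeroN x.1.2.1 x.1.2.2.1 x.1.2.2.2.1 x.1.2.2.2.2.1 x.2.1.1 x.2.1.2.1
    x.2.1.2.2 x.2.2.1 x.2.2.2.1 x.2.2.2.2 (ys c 0 (x.1, x.2.2)) (ys c 1 (x.1, x.2.2))
    (yc (x.1, x.2.1)) (yd (x.1, x.2.1)) (yR1 c x) (yR2 c x) (yD c x) (yE c x) a1 a3 g1 g2 g3
    (by unfold yR1; rw [yq_A0 c 0 0 0 x h0, yq_A0 c 0 1 0 x h0])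
    (by unfold yR2; rw [yq_A0 c 1 0 0 x h0, yq_A0 c 1 1 0 x h0])
    (by unfold yD; rw [h0]) rfl
  unfold yf yG yL yM
  rw [yq_A0 c 0 1 0 x h0, yq_A0 c 0 1 1 x h0, yq_A0 c 1 1 0 x h0, yq_A0 c 1 1 1 x h0, h0]
  exact key

lemma yf_base (c : ℝ) (hc : 0 < c) (t m0 k0 : ℝ) (a b : V)
    (h : GdF c (((t, m0, 0, 0, k0, 0) : P6), a, b)) :
    yf c (((t, m0, 0, 0, k0, 0) : P6), a, b) = t * (b.2.2 * a.2.1 * a.1 * bm m0 b.2.1 /
      Sq c (hm m0 b.2.1 - t * a.2.1 ^ 2) ^ 3) := by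
  obtain ⟨⟨⟨g1, g2, g3⟩, hB, v1, v2, v3, v4, v5, v6⟩, hk1, hk2, hD⟩ := h
  obtain ⟨⟨a1, a2⟩, a3, a4⟩ := ys_pos c hc _ hB
  obtain ⟨b1, c1⟩ := Sq_pos c hc _ v1
  have eV : ∀ u v e : ℝ, yV u v e (((t, m0, 0, 0, k0, 0) : P6), a, b) =
      hm m0 b.2.1 - t * a.2.1 ^ 2 := by
    intro u v e
    unfold yV
    simp
  have eH : ∀ u : ℝ, yH u (((t, m0, 0, 0, k0, 0) : P6), b) = hm m0 b.2.1 := by
    intro u
    unfold yH
    simp
  have ec : yc (((t, m0, 0, 0, k0, 0) : P6), a) = a.2.1 := by unfold yc; simp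
  have ed : yd (((t, m0, 0, 0, k0, 0) : P6), a) = a.2.1 := by unfold yd; simp
  rw [eV] at b1 c1
  simp only at a1 a2 g1 g3
  rw [eH] at a2
  rw [ec] at g1
  set q := Sq c (hm m0 b.2.1 - t * a.2.1 ^ 2) with hq
  set s := ys c 0 (((t, m0, 0, 0, k0, 0) : P6), b) with hs
  have eq : ∀ u v e : ℝ, yq c u v e (((t, m0, 0, 0, k0, 0) : P6), a, b) = q := by
    intro u v e
    unfold yq
    rw [eV]
  have es : ∀ u : ℝ, ys c u (((t, m0, 0, 0, k0, 0) : P6), b) = s := by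
    intro u
    rw [hs]
    unfold ys
    rw [eH, eH]
  have key := baseN t m0 a.1 a.2.1 a.2.2 b.1 b.2.1 b.2.2 q s (nR q q a.2.1)
    (nD t 0 s (nR q q a.2.1) (nR q q a.2.1))
    (nE a.2.2 s s a.2.1 a.2.1 (nD t 0 s (nR q q a.2.1) (nR q q a.2.1)) (nR q q a.2.1)
      (nR q q a.2.1)) b1 a1 g1 g3 a2 c1 rfl rfl rfl
  rw [← key]
  unfold yf yG yL yM yE yD yR1 yR2
  simp only [eq, es, ec, ed, mul_zero, zero_mul, sub_zero]

/-- The open conditions hold near the base point. -/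
lemma GdF_ev (c : ℝ) (hc : 0 < c) (hc1 : c ≤ 1) (m0 k0 : ℝ) (a0 b0 : V)
    (hX : 0 < a0.2.1) (hZ : a0.2.2 ≠ 0) (hr : 1 / 4 ≤ hm m0 b0.2.1) :
    ∀ᶠ x in 𝓝 ((((0, m0, 0, 0, k0, 0) : P6), a0, b0) : P6 × V × V), GdF c x := by
  set X0 : P6 × V × V := (((0, m0, 0, 0, k0, 0) : P6), a0, b0) with hX0
  have eV : ∀ u v e : ℝ, yV u v e X0 = hm m0 b0.2.1 := by
    intro u v e
    rw [hX0]
    unfold yV
    simp
  have eH : ∀ u : ℝ, yH u (X0.1, X0.2.2) = hm m0 b0.2.1 := by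
    intro u
    rw [hX0]
    unfold yH
    simp
  have ec : yc (X0.1, X0.2.1) = a0.2.1 := by rw [hX0]; unfold yc; simp
  have ed : yd (X0.1, X0.2.1) = a0.2.1 := by rw [hX0]; unfold yd; simp
  have hc8 : c ^ 2 / 8 < hm m0 b0.2.1 := by nlinarith
  have cV : ∀ u v e : ℝ, ∀ᶠ x in 𝓝 X0, c ^ 2 / 8 < yV u v e x := by
    intro u v e
    have h1 : Continuous (yV u v e) := by unfold yV hm; fun_prop
    exact h1.continuousAt.eventually (lt_mem_nhds (by rw [eV]; exact hc8))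
  have cH : ∀ u : ℝ, ∀ᶠ x : P6 × V × V in 𝓝 X0, c ^ 2 / 8 < yH u (x.1, x.2.2) := by
    intro u
    have h1 : Continuous (fun x : P6 × V × V => yH u (x.1, x.2.2)) := by unfold yH hm; fun_prop
    exact h1.continuousAt.eventually (lt_mem_nhds (by
      change c ^ 2 / 8 < yH u (X0.1, X0.2.2); rw [eH]; exact hc8))
  have cc : ∀ᶠ x : P6 × V × V in 𝓝 X0, 0 < yc (x.1, x.2.1) := by
    have h1 : Continuous (fun x : P6 × V × V => yc (x.1, x.2.1)) := by unfold yc; fun_prop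
    exact h1.continuousAt.eventually (lt_mem_nhds (by
      change 0 < yc (X0.1, X0.2.1); rw [ec]; exact hX))
  have cd : ∀ᶠ x : P6 × V × V in 𝓝 X0, 0 < yd (x.1, x.2.1) := by
    have h1 : Continuous (fun x : P6 × V × V => yd (x.1, x.2.1)) := by unfold yd; fun_prop
    exact h1.continuousAt.eventually (lt_mem_nhds (by
      change 0 < yd (X0.1, X0.2.1); rw [ed]; exact hX))
  have cZ : ∀ᶠ x : P6 × V × V in 𝓝 X0, x.2.1.2.2 ≠ 0 := by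
    have h1 : Continuous (fun x : P6 × V × V => x.2.1.2.2) := by fun_prop
    exact h1.continuousAt.eventually_ne hZ
  have e1 : ∀ᶠ x in 𝓝 X0, GdN4 c x := by
    filter_upwards [cV 0 0 0, cV 0 1 0, cV 1 0 0, cV 1 1 0, cV 0 1 1, cV 1 1 1, cH 0, cH 1, cc,
      cd, cZ] with x h1 h2 h3 h4 h5 h6 h7 h8 h9 h10 h11
    exact ⟨⟨h9, h10, h11⟩, ⟨h7, h8⟩, h1, h2, h3, h4, h5, h6⟩
  obtain ⟨r1, hr1, hb1⟩ := g_ball e1
  have c1 : ContinuousAt (yR1 c) X0 :=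
    ((yR1_s c hc _ hb1).continuousOn).continuousAt (ball_mem_nhds _ hr1)
  have c2 : ContinuousAt (yR2 c) X0 :=
    ((yR2_s c hc _ hb1).continuousOn).continuousAt (ball_mem_nhds _ hr1)
  have k1 : ∀ᶠ x in 𝓝 X0, 1 + x.1.1 * yR1 c x ^ 2 ≠ 0 := by
    have h1 : ContinuousAt (fun x : P6 × V × V => 1 + x.1.1 * yR1 c x ^ 2) X0 := by fun_prop
    refine h1.eventually_ne ?_
    rw [hX0]
    simp
  have k2 : ∀ᶠ x in 𝓝 X0, 1 + x.1.1 * yR2 c x ^ 2 ≠ 0 := by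
    have h1 : ContinuousAt (fun x : P6 × V × V => 1 + x.1.1 * yR2 c x ^ 2) X0 := by fun_prop
    refine h1.eventually_ne ?_
    rw [hX0]
    simp
  obtain ⟨r2, hr2, hb2⟩ := g_ball (e1.and (k1.and k2))
  have c3 : ContinuousAt (yD c) X0 :=
    ((yD_s c hc _ hb2).continuousOn).continuousAt (ball_mem_nhds _ hr2)
  have k3 : ∀ᶠ x in 𝓝 X0, yD c x ≠ 0 := by
    refine c3.eventually_ne ?_
    have h0 : X0.1.1 = 0 := rfl
    unfold yD nD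
    rw [h0]
    simp only [zero_mul, add_zero, mul_one, div_one, zero_div, zero_sub, neg_ne_zero]
    have := (ys_pos c hc _ (e1.self_of_nhds).2.1).2.1
    positivity
  filter_upwards [e1, k1, k2, k3] with x h1 h2 h3 h4
  exact ⟨h1, h2, h3, h4⟩

end Pool.Agent.SDT.N1M

end -- N1M.M2d

section -- N1M.M2e

/-!
N1M, block M2: base values and their derivatives, type N.
-/

namespace Pool.Agent.SDT.N1M

open MeasureTheory Set Metric Pool.Agent.SDT.MP_6cbfb8_an Pool.Agent.SDT.MST Pool.Agent.SDT.N1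
open Pool.Agent.SDT.N1F
open scoped ENNReal Real ContDiff Topology

/-- Base values on the `r` side. -/
noncomputable def σN (m : ℝ) (b : V) : ℝ := b.1 * bm m b.2.1 / hm m b.2.1
noncomputable def mN (m : ℝ) (b : V) : ℝ := b.1 * b.2.2 / hm m b.2.1
noncomputable def gN (m : ℝ) (b : V) : ℝ := -(bm m b.2.1 * b.2.2 / hm m b.2.1)

/-- The direction killed by `σN` and `mN`. -/
noncomputable def dirN (m : ℝ) (b : V) : V :=
  (b.1 * (1 + bm m b.2.1 ^ 2), bm m b.2.1 * hm m b.2.1, -(b.2.2 * (m * hm m b.2.1)))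

lemma hm_lin (m x u : ℝ) : HasDerivAt (fun t : ℝ => hm m (x + t * u)) (2 * bm m x * u) 0 := by
  have h := ((g_lin x u).const_mul 2).fun_sub (((g_lin x u).fun_pow 2).const_mul m)
  unfold hm bm
  refine HasDerivAt.congr_deriv h ?_
  simp
  ring

lemma bm_lin (m x u : ℝ) : HasDerivAt (fun t : ℝ => bm m (x + t * u)) (-(m * u)) 0 := by
  have h := ((g_lin x u).const_mul m).const_sub 1
  unfold bm
  exact h

lemma σN_diff (m : ℝ) (b : V) (h : hm m b.2.1 ≠ 0) : DifferentiableAt ℝ (σN m) b := by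
  unfold σN bm
  unfold hm at h ⊢
  fun_prop (disch := exact h)

lemma mN_diff (m : ℝ) (b : V) (h : hm m b.2.1 ≠ 0) : DifferentiableAt ℝ (mN m) b := by
  unfold mN
  unfold hm at h ⊢
  fun_prop (disch := exact h)

lemma gN_diff (m : ℝ) (b : V) (h : hm m b.2.1 ≠ 0) : DifferentiableAt ℝ (gN m) b := by
  unfold gN bm
  unfold hm at h ⊢
  fun_prop (disch := exact h)

lemma σN_fd (m : ℝ) (b e : V) (h : hm m b.2.1 ≠ 0) : fderiv ℝ (σN m) b e =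
    ((e.1 * bm m b.2.1 + b.1 * -(m * e.2.1)) * hm m b.2.1 -
      b.1 * bm m b.2.1 * (2 * bm m b.2.1 * e.2.1)) / hm m b.2.1 ^ 2 := by
  refine fd_of _ _ _ _ (σN_diff m b h) ?_
  have h' := ((g_lin b.1 e.1).fun_mul (bm_lin m b.2.1 e.2.1)).fun_div
    (hm_lin m b.2.1 e.2.1) (by simpa using h)
  refine HasDerivAt.congr_deriv h' ?_
  simp

lemma mN_fd (m : ℝ) (b e : V) (h : hm m b.2.1 ≠ 0) : fderiv ℝ (mN m) b e =
    ((e.1 * b.2.2 + b.1 * e.2.2) * hm m b.2.1 -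
      b.1 * b.2.2 * (2 * bm m b.2.1 * e.2.1)) / hm m b.2.1 ^ 2 := by
  refine fd_of _ _ _ _ (mN_diff m b h) ?_
  have h' := ((g_lin b.1 e.1).fun_mul (g_lin b.2.2 e.2.2)).fun_div
    (hm_lin m b.2.1 e.2.1) (by simpa using h)
  refine HasDerivAt.congr_deriv h' ?_
  simp

lemma gN_fd (m : ℝ) (b e : V) (h : hm m b.2.1 ≠ 0) : fderiv ℝ (gN m) b e =
    -(((-(m * e.2.1) * b.2.2 + bm m b.2.1 * e.2.2) * hm m b.2.1 -
      bm m b.2.1 * b.2.2 * (2 * bm m b.2.1 * e.2.1)) / hm m b.2.1 ^ 2) := by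
  refine fd_of _ _ _ _ (gN_diff m b h) ?_
  have h' := (((bm_lin m b.2.1 e.2.1).fun_mul (g_lin b.2.2 e.2.2)).fun_div
    (hm_lin m b.2.1 e.2.1) (by simpa using h)).fun_neg
  refine HasDerivAt.congr_deriv h' ?_
  simp

lemma base_N (m : ℝ) (b : V) (h1 : b.1 ≠ 0) (h3 : b.2.2 ≠ 0) (hb : bm m b.2.1 ≠ 0)
    (h : hm m b.2.1 ≠ 0) :
    fderiv ℝ (σN m) b (1, 0, 0) ≠ 0 ∧ fderiv ℝ (σN m) b (0, 0, 1) = 0 ∧
      fderiv ℝ (mN m) b (0, 0, 1) ≠ 0 ∧ fderiv ℝ (σN m) b (dirN m b) = 0 ∧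
      fderiv ℝ (mN m) b (dirN m b) = 0 ∧ fderiv ℝ (gN m) b (dirN m b) ≠ 0 := by
  refine ⟨?_, ?_, ?_, ?_, ?_, ?_⟩
  · rw [σN_fd m b _ h]
    simp only [mul_zero, neg_zero, add_zero, one_mul, sub_zero]
    exact div_ne_zero (mul_ne_zero hb h) (pow_ne_zero 2 h)
  · rw [σN_fd m b _ h]
    simp
  · rw [mN_fd m b _ h]
    simp only [mul_zero, zero_mul, zero_add, sub_zero, mul_one]
    exact div_ne_zero (mul_ne_zero h1 h) (pow_ne_zero 2 h)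
  · rw [σN_fd m b _ h]
    unfold dirN
    simp only
    rw [div_eq_zero_iff]
    left
    unfold hm bm
    ring
  · rw [mN_fd m b _ h]
    unfold dirN
    simp only
    rw [div_eq_zero_iff]
    left
    unfold hm bm
    ring
  · rw [gN_fd m b _ h]
    unfold dirN
    simp only
    have e1 : (-(m * (bm m b.2.1 * hm m b.2.1)) * b.2.2 +
      bm m b.2.1 * -(b.2.2 * (m * hm m b.2.1))) * hm m b.2.1 -
      bm m b.2.1 * b.2.2 * (2 * bm m b.2.1 * (bm m b.2.1 * hm m b.2.1)) =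
      -(2 * bm m b.2.1 * b.2.2 * hm m b.2.1) := by
      unfold hm bm
      ring
    rw [e1]
    refine neg_ne_zero.2 (div_ne_zero (neg_ne_zero.2 ?_) (pow_ne_zero 2 h))
    exact mul_ne_zero (mul_ne_zero (mul_ne_zero two_ne_zero hb) h3) h

/-- The mixed derivative at the base point. -/
lemma base_gN (m : ℝ) (a b u e : V) (ha3 : a.2.2 ≠ 0) (h : hm m b.2.1 ≠ 0)
    (F : V × V → ℝ) (hF : ∀ᶠ q in 𝓝 (a, b), F q = gX q.1 * gN m q.2) :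
    fderiv ℝ (fun b' => fderiv ℝ (fun a' => F (a', b')) a u) b e =
      fderiv ℝ gX a u * fderiv ℝ (gN m) b e := by
  have hF' : ∀ᶠ q in 𝓝 (a, b), F q = (fun _ : V => (0:ℝ)) q.1 + (fun _ : V => (0:ℝ)) q.2 +
      gX q.1 * gN m q.2 + (fun _ : V => (0:ℝ)) q.1 * (fun _ : V => (0:ℝ)) q.2 := by
    filter_upwards [hF] with q hq
    rw [hq]
    simp
  have n0 : DifferentiableAt ℝ (fun _ : V => (0:ℝ)) a := differentiableAt_const _
  have m0 : DifferentiableAt ℝ (fun _ : V => (0:ℝ)) b := differentiableAt_const _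
  rw [sep_2 F (fun _ : V => (0:ℝ)) gX (fun _ : V => (0:ℝ)) (fun _ : V => (0:ℝ)) (gN m)
    (fun _ : V => (0:ℝ)) a b hF' n0 (gX_diff a ha3) n0 m0 (gN_diff m b h) m0 u e]
  simp

lemma yE_base (c : ℝ) (hc : 0 < c) (m0 k0 : ℝ) (a b : V)
    (h : GdF c (((0, m0, 0, 0, k0, 0) : P6), a, b)) :
    yE c (((0, m0, 0, 0, k0, 0) : P6), a, b) = -(a.2.2 * a.2.1) / Sq c (hm m0 b.2.1) := by
  obtain ⟨⟨⟨g1, g2, g3⟩, hB, v1, v2, v3, v4, v5, v6⟩, hk1, hk2, hD⟩ := h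
  obtain ⟨⟨a1, a2⟩, a3, a4⟩ := ys_pos c hc _ hB
  have eV : ∀ u v e : ℝ, yV u v e (((0, m0, 0, 0, k0, 0) : P6), a, b) = hm m0 b.2.1 := by
    intro u v e
    unfold yV
    simp
  have eH : ∀ u : ℝ, yH u (((0, m0, 0, 0, k0, 0) : P6), b) = hm m0 b.2.1 := by
    intro u
    unfold yH
    simp
  have ec : yc (((0, m0, 0, 0, k0, 0) : P6), a) = a.2.1 := by unfold yc; simp
  have ed : yd (((0, m0, 0, 0, k0, 0) : P6), a) = a.2.1 := by unfold yd; simp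
  simp only at a1 a2 g1 g3
  rw [ec] at g1
  have es : ∀ u : ℝ, ys c u (((0, m0, 0, 0, k0, 0) : P6), b) = Sq c (hm m0 b.2.1) := by
    intro u
    unfold ys
    rw [eH]
  have eq : ∀ u v e : ℝ, yq c u v e (((0, m0, 0, 0, k0, 0) : P6), a, b) =
      Sq c (hm m0 b.2.1) := by
    intro u v e
    unfold yq
    rw [eV]
  rw [es] at a1
  set s := Sq c (hm m0 b.2.1) with hs
  unfold yE yD yR1 yR2
  simp only [eq, es, ec, ed]
  have hR : nR s s a.2.1 = a.2.1 / s := by unfold nR; field_simp; ring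
  have hD' : nD 0 (0 * a.2.2) s (nR s s a.2.1) (nR s s a.2.1) = -s ^ 2 := by
    unfold nD; simp
  rw [hD', hR]
  unfold nE
  field_simp

lemma base_wl (m0 k0 : ℝ) (a : V) : yW (((0, m0, 0, 0, k0, 0) : P6), a) = w0 a ∧
    yL (((0, m0, 0, 0, k0, 0) : P6), a) = l0 0 a := by
  constructor
  · unfold yW yd w0
    simp
  · unfold yL nL yd l0
    simp
    ring

lemma base_σm (c : ℝ) (hc : 0 < c) (m0 k0 : ℝ) (b : V)
    (h : GdB c (((0, m0, 0, 0, k0, 0) : P6), b)) :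
    yS c (((0, m0, 0, 0, k0, 0) : P6), b) = σN m0 b ∧
    yM c (((0, m0, 0, 0, k0, 0) : P6), b) = mN m0 b := by
  obtain ⟨⟨a1, a2⟩, a3, a4⟩ := ys_pos c hc _ h
  have eH : ∀ u : ℝ, yH u (((0, m0, 0, 0, k0, 0) : P6), b) = hm m0 b.2.1 := by
    intro u
    unfold yH
    simp
  have es : ∀ u : ℝ, ys c u (((0, m0, 0, 0, k0, 0) : P6), b) = Sq c (hm m0 b.2.1) := by
    intro u
    unfold ys
    rw [eH]
  rw [es] at a1 a2
  rw [eH] at a2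
  have hb : bm m0 b.2.1 ^ 2 = 1 - m0 * Sq c (hm m0 b.2.1) ^ 2 := by
    rw [a2]; unfold bm hm; ring
  generalize Sq c (hm m0 b.2.1) = s at a1 a2 es hb
  constructor
  · unfold yS nS σN
    simp only [es, zero_mul, sub_zero]
    rw [← a2]
    unfold bm
    field_simp
    ring
  · unfold yM nM mN
    simp only [es, zero_mul, sub_zero]
    have h2 : 2 - m0 * (2 * b.2.1) = 2 * bm m0 b.2.1 := by unfold bm; ring
    rw [h2]
    rw [← a2]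
    have h5 : s * b.2.2 * b.1 * (bm m0 b.2.1 * (2 * bm m0 b.2.1) / ((s + s) * s * s) + m0 / s) =
      b.2.2 * b.1 * (bm m0 b.2.1 ^ 2 + m0 * s ^ 2) / s ^ 2 := by
      field_simp
      ring
    rw [h5, hb]
    congr 1
    ring

end Pool.Agent.SDT.N1M

end -- N1M.M2e
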