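import Pool.Agent.SDT.B20
import Pool.Agent.SDT.B34
import Pool.Agent.SDT.B35
import Pool.Agent.SDT.B48

set_option autoImplicit false

namespace Pool.Agent.SDT.MP_6cbfb8_an
end Pool.Agent.SDT.MP_6cbfb8_an
namespace Pool.Agent.SDT.MST
end Pool.Agent.SDT.MST
namespace Pool.Agent.SDT.N1
end Pool.Agent.SDT.N1

section -- N1F.HLa

/-!
The anisotropic local oscillatory estimate (interface statement `HLa`).
-/

namespace Pool.Agent.SDT.N1F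

open MeasureTheory Set Metric Pool.Agent.SDT.MP_6cbfb8_an Pool.Agent.SDT.MST Pool.Agent.SDT.N1
open scoped ENNReal Real ContDiff

theorem hla_tri (wl αl γ : V →L[ℝ] ℝ) (u1 u2 u3 : V) (h11 : wl u1 ≠ 0) (h12 : wl u2 = 0)
    (h22 : αl u2 ≠ 0) (h13 : wl u3 = 0) (h23 : αl u3 = 0) (h33 : γ u3 ≠ 0) (v : V)
    (hv1 : wl v = 0) (hv2 : αl v = 0) (hv3 : γ v = 0) : v = 0 := by
  let L : V →ₗ[ℝ] V := (wl.prod (αl.prod γ)).toLinearMap
  have hL : ∀ v, L v = (wl v, αl v, γ v) := fun v => rfl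
  have hsurj : Function.Surjective L := by
    rintro ⟨x, y, z⟩
    refine ⟨(x / wl u1) • u1 + (((y - x / wl u1 * αl u1) / αl u2) • u2 +
      ((z - x / wl u1 * γ u1 - (y - x / wl u1 * αl u1) / αl u2 * γ u2) / γ u3) • u3), ?_⟩
    rw [hL]
    simp only [map_add, map_smul, smul_eq_mul, h12, h13, h23]
    refine Prod.ext ?_ (Prod.ext ?_ ?_)
    · show x / wl u1 * wl u1 + (_ * 0 + _ * 0) = x
      field_simp
      ring
    · show x / wl u1 * αl u1 + ((y - x / wl u1 * αl u1) / αl u2 * αl u2 + _ * 0) = y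
      rw [div_mul_cancel₀ _ h22]
      ring
    · show x / wl u1 * γ u1 + ((y - x / wl u1 * αl u1) / αl u2 * γ u2 +
        (z - x / wl u1 * γ u1 - (y - x / wl u1 * αl u1) / αl u2 * γ u2) / γ u3 * γ u3) = z
      rw [div_mul_cancel₀ _ h33]
      ring
  have hinj : Function.Injective L := LinearMap.injective_iff_surjective.2 hsurj
  apply hinj
  rw [hL, map_zero, hv1, hv2, hv3]
  rfl

theorem hla_norm (v : V) : ‖(1 / (‖v‖ + 1)) • v‖ ≤ 1 := by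
  have h := norm_nonneg v
  rw [norm_smul, Real.norm_of_nonneg (by positivity), div_mul_eq_mul_div, one_mul,
    div_le_one (by positivity)]
  linarith

theorem HLa {P : Type*} [NormedAddCommGroup P] [NormedSpace ℝ P] [FiniteDimensional ℝ P]
    (w l : P × V → ℝ) (σ m : P × V → ℝ) (g : P × V × V → ℝ)
    (c : ℝ × P × V × V → ℝ) (p0 : P) (a0 b0 : V) (r s0 s1 : ℝ)
    (hr : 0 < r) (hs0 : 0 < s0)
    (hw : ContDiffOn ℝ ∞ w (ball (p0, a0) r)) (hl : ContDiffOn ℝ ∞ l (ball (p0, a0) r))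
    (hσ : ContDiffOn ℝ ∞ σ (ball (p0, b0) r)) (hm : ContDiffOn ℝ ∞ m (ball (p0, b0) r))
    (hg : ContDiffOn ℝ ∞ g (ball (p0, a0, b0) r))
    (hc : ContDiffOn ℝ ∞ c (univ ×ˢ ball (p0, a0, b0) r))
    (hcs : ∀ s, ∀ q ∈ ball (p0, a0, b0) r, c (s, q) ≠ 0 → s0 ≤ |s| ∧ |s| ≤ s1)
    (u1 u2 u3 e1 e2 e3 : V)
    (h11 : fderiv ℝ (fun a => w (p0, a)) a0 u1 ≠ 0)
    (h12 : fderiv ℝ (fun a => w (p0, a)) a0 u2 = 0) (h22 : fderiv ℝ (fun a => l (p0, a)) a0 u2 ≠ 0)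
    (h13 : fderiv ℝ (fun a => w (p0, a)) a0 u3 = 0) (h23 : fderiv ℝ (fun a => l (p0, a)) a0 u3 = 0)
    (k11 : fderiv ℝ (fun b => σ (p0, b)) b0 e1 ≠ 0)
    (k12 : fderiv ℝ (fun b => σ (p0, b)) b0 e2 = 0) (k22 : fderiv ℝ (fun b => m (p0, b)) b0 e2 ≠ 0)
    (k13 : fderiv ℝ (fun b => σ (p0, b)) b0 e3 = 0) (k23 : fderiv ℝ (fun b => m (p0, b)) b0 e3 = 0)
    (hnd : fderiv ℝ (fun b => fderiv ℝ (fun a => g (p0, a, b)) a0 u3) b0 e3 ≠ 0) :
    ∃ δ : ℝ, 0 < δ ∧ ∃ C : ℝ, 0 ≤ C ∧ ∀ p ∈ ball p0 δ, ∀ κ ε lam : ℝ, 0 < κ → κ ≤ 1 → 0 < ε →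
      ε < δ → 0 < lam →
      ∀ A B : V → ℂ, Measurable A → Measurable B → (∀ a, ‖A a‖ ≤ 1) → (∀ b, ‖B b‖ ≤ 1) →
      (∀ a, A a ≠ 0 → a ∈ ball a0 δ) → (∀ b, B b ≠ 0 → b ∈ ball b0 δ) →
      ‖∫ q : V × V, A q.1 * B q.2 * ∫ s : ℝ, ((c (s, p, q.1, q.2) : ℝ) : ℂ) *
        ex (lam * (s * (w (p, q.1) - σ (p, q.2) + κ * (l (p, q.1) * m (p, q.2) +
          ε * g (p, q.1, q.2)))))‖ ≤ C / (lam ^ 2 * κ * √ε) := by
  obtain ⟨wt, hwt, ewt⟩ := ext_smooth w (p0, a0) r hr hw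
  obtain ⟨lt, hlt, elt⟩ := ext_smooth l (p0, a0) r hr hl
  obtain ⟨σt, hσt, eσt⟩ := ext_smooth σ (p0, b0) r hr hσ
  obtain ⟨mt, hmt, emt⟩ := ext_smooth m (p0, b0) r hr hm
  obtain ⟨gt, hgt, egt⟩ := ext_smooth g (p0, a0, b0) r hr hg
  obtain ⟨ct, hct, ect, sct⟩ := ext_amp c (p0, a0, b0) r hr hc
  have hs : ∀ s q, ct (s, q) ≠ 0 → s0 ≤ |s| ∧ |s| ≤ s1 :=
    fun s q h => hcs s q (sct s q h).1 (sct s q h).2
  have hr2 : 0 < r / 2 := by positivity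
  have dA : ∀ (f ft : P × V → ℝ), (∀ q ∈ ball (p0, a0) (r / 2), ft q = f q) →
      ContDiff ℝ ∞ ft → ∀ v, fderiv ℝ ft (p0, a0) (0, v) = fderiv ℝ (fun a => f (p0, a)) a0 v := by
    intro f ft he hft v
    rw [← hl_fd1 ft hft]
    have ee1 : fderiv ℝ (fun a => ft (p0, a)) a0 = fderiv ℝ (fun a => f (p0, a)) a0 := by
      apply Filter.EventuallyEq.fderiv_eq
      filter_upwards [ball_mem_nhds a0 hr2] with a ha
      exact he _ (hl_mem2.2 ⟨mem_ball_self hr2, ha⟩)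
    rw [ee1]
  have dB : ∀ (f ft : P × V → ℝ), (∀ q ∈ ball (p0, b0) (r / 2), ft q = f q) →
      ContDiff ℝ ∞ ft → ∀ v, fderiv ℝ ft (p0, b0) (0, v) = fderiv ℝ (fun a => f (p0, a)) b0 v := by
    intro f ft he hft v
    rw [← hl_fd1 ft hft]
    have ee1 : fderiv ℝ (fun a => ft (p0, a)) b0 = fderiv ℝ (fun a => f (p0, a)) b0 := by
      apply Filter.EventuallyEq.fderiv_eq
      filter_upwards [ball_mem_nhds b0 hr2] with a ha
      exact he _ (hl_mem2.2 ⟨mem_ball_self hr2, ha⟩)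
    rw [ee1]
  have e3' : ∀ b ∈ ball b0 (r / 2), fderiv ℝ (fun a => gt (p0, a, b)) a0
      = fderiv ℝ (fun a => g (p0, a, b)) a0 := by
    intro b hb
    apply Filter.EventuallyEq.fderiv_eq
    filter_upwards [ball_mem_nhds a0 hr2] with a ha
    exact egt _ (mem_ball3.2 ⟨mem_ball_self hr2, ha, hb⟩)
  have ee3 : ∀ u : V, fderiv ℝ (fun b => fderiv ℝ (fun a => gt (p0, a, b)) a0 u) b0
      = fderiv ℝ (fun b => fderiv ℝ (fun a => g (p0, a, b)) a0 u) b0 := by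
    intro u
    apply Filter.EventuallyEq.fderiv_eq
    filter_upwards [ball_mem_nhds b0 hr2] with b hb
    rw [e3' b hb]
  have e4 : ∀ u e : V, fderiv ℝ (fderiv ℝ gt) (p0, a0, b0) (0, u, 0) (0, 0, e) =
      fderiv ℝ (fun b => fderiv ℝ (fun a => g (p0, a, b)) a0 u) b0 e := by
    intro u e
    rw [← ee3 u, ← hl_fd3 gt hgt]
    have h5 : (fun b => fderiv ℝ (fun a => gt (p0, a, b)) a0 u) =
        fun b => fderiv ℝ gt (p0, a0, b) (0, u, 0) := by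
      funext b
      exact hl_fd2 gt hgt p0 a0 b u
    rw [h5]
  -- the directions on the `b` side
  have smB : ∀ (T : P × V →L[ℝ] ℝ) (x : ℝ) (v : V), T (0, x • v) = x * T (0, v) := by
    intro T x v
    have h1 : ((0, x • v) : P × V) = x • (0, v) := by simp
    rw [h1, map_smul, smul_eq_mul]
  have adB : ∀ (T : P × V →L[ℝ] ℝ) (v v' : V), T (0, v - v') = T (0, v) - T (0, v') := by
    intro T v v'
    have h1 : ((0, v - v') : P × V) = (0, v) - (0, v') := by simp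
    rw [h1, map_sub]
  set q : ℝ := fderiv ℝ (fun b => m (p0, b)) b0 e1 / fderiv ℝ (fun b => m (p0, b)) b0 e2 with hq
  set d1 : V := e1 - q • e2 with hd1
  have hd1σ : fderiv ℝ σt (p0, b0) (0, d1) = fderiv ℝ (fun b => σ (p0, b)) b0 e1 := by
    rw [hd1, adB, smB, dB σ σt eσt hσt, dB σ σt eσt hσt, k12, mul_zero, sub_zero]
  have hd1m : fderiv ℝ mt (p0, b0) (0, d1) = 0 := by
    rw [hd1, adB, smB, dB m mt emt hmt, dB m mt emt hmt, hq, div_mul_cancel₀ _ k22, sub_self]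
  have sc : ∀ v : V, (1 / (‖v‖ + 1) : ℝ) ≠ 0 := fun v => by
    have := norm_nonneg v
    positivity
  set f1 : V := (1 / (‖d1‖ + 1)) • d1 with hf1
  set f2 : V := (1 / (‖e2‖ + 1)) • e2 with hf2
  set f3 : V := (1 / (‖e3‖ + 1)) • e3 with hf3
  let iA : V →L[ℝ] P × V × V := (ContinuousLinearMap.inr ℝ P (V × V)) ∘L
    (ContinuousLinearMap.inl ℝ V V)
  let γ : V →L[ℝ] ℝ := (ContinuousLinearMap.apply ℝ ℝ ((0, 0, f3) : P × V × V)) ∘L
      (fderiv ℝ (fderiv ℝ gt) (p0, a0, b0) ∘L iA)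
  have hγ : ∀ v, γ v = fderiv ℝ (fderiv ℝ gt) (p0, a0, b0) (0, v, 0) (0, 0, f3) := fun v => rfl
  have hγ3 : γ u3 ≠ 0 := by
    rw [hγ]
    have h1 : ((0, 0, f3) : P × V × V) = (1 / (‖e3‖ + 1)) • (0, 0, e3) := by
      rw [hf3]
      simp
    rw [h1, map_smul, smul_eq_mul, e4]
    exact mul_ne_zero (sc e3) hnd
  have hnd' : ∀ v : V, fderiv ℝ wt (p0, a0) (0, v) = 0 → fderiv ℝ lt (p0, a0) (0, v) = 0 →
      fderiv ℝ (fderiv ℝ gt) (p0, a0, b0) (0, v, 0) (0, 0, f3) = 0 → v = 0 := by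
    intro v hv1 hv2 hv3
    refine hla_tri ((fderiv ℝ wt (p0, a0)) ∘L (ContinuousLinearMap.inr ℝ P V))
      ((fderiv ℝ lt (p0, a0)) ∘L (ContinuousLinearMap.inr ℝ P V)) γ u1 u2 u3
      ?_ ?_ ?_ ?_ ?_ hγ3 v hv1 hv2 hv3
    · show fderiv ℝ wt (p0, a0) (0, u1) ≠ 0
      rw [dA w wt ewt hwt]
      exact h11
    · show fderiv ℝ wt (p0, a0) (0, u2) = 0
      rw [dA w wt ewt hwt]
      exact h12
    · show fderiv ℝ lt (p0, a0) (0, u2) ≠ 0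
      rw [dA l lt elt hlt]
      exact h22
    · show fderiv ℝ wt (p0, a0) (0, u3) = 0
      rw [dA w wt ewt hwt]
      exact h13
    · show fderiv ℝ lt (p0, a0) (0, u3) = 0
      rw [dA l lt elt hlt]
      exact h23
  obtain ⟨δ₀, c₀, C₁, hδ₀, hc₀, hC₁, hD⟩ := HLa_geo wt lt σt mt gt p0 a0 b0 s0 s1 hs0 hwt hlt
    hσt hmt hgt f1 f2 f3 (hla_norm d1) (hla_norm e2) (hla_norm e3)
    (by rw [hf1, smB, hd1σ]; exact mul_ne_zero (sc d1) k11)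
    (by rw [hf1, smB, hd1m, mul_zero])
    (by rw [hf2, smB, dB m mt emt hmt]; exact mul_ne_zero (sc e2) k22)
    (by rw [hf3, smB, dB σ σt eσt hσt, k13, mul_zero])
    (by rw [hf3, smB, dB m mt emt hmt, k23, mul_zero]) hnd'
  obtain ⟨δv, Cv, hδv, hCv, hv⟩ := vol_HLa wt lt hwt hlt p0 a0 γ
    (fun v h1 h2 h3 => hnd' v h1 h2 h3)
  set δ₁ := min (min δ₀ δv) (r / 2) with hδ₁
  have hδ₁0 : 0 < δ₁ := lt_min (lt_min hδ₀ hδv) hr2
  have hδ₁δ : δ₁ ≤ δ₀ := (min_le_left _ _).trans (min_le_left _ _)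
  have hδ₁v : δ₁ ≤ δv := (min_le_left _ _).trans (min_le_right _ _)
  obtain ⟨φ, C₂, hC₂, hA⟩ := ampl ct hct s0 s1 hs p0 a0 b0 δ₁ δ₁ hδ₁0
  obtain ⟨Cb, hCb, hb⟩ := bil c₀ (max C₁ C₂) δ₁ s0 s1 hc₀ hδ₁0
  refine ⟨δ₁ / 2, by positivity, Real.sqrt (Cb * Cv), Real.sqrt_nonneg _, ?_⟩
  intro p hp κ ε lam hκ hκ1 hε hεδ hlam A B mA mB bA bB sA sB
  have hp1 : p ∈ ball p0 δ₁ := ball_subset_ball (by linarith) hp
  have hDich := hD p (ball_subset_ball hδ₁δ hp1) κ ε hκ hκ1 hε (by linarith) δ₁ δ₁ hδ₁δ hδ₁δ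
  have key := hb (fun a b => wt (p, a) - σt (p, b) + κ * (lt (p, a) * mt (p, b) +
      ε * gt (p, a, b)))
    (fun a a' => |wt (p, a) - wt (p, a')| +
            (κ * |lt (p, a) - lt (p, a')| + κ * ε * ‖a - a'‖)) a0 b0 δ₁
    (fun s a b => ct (s, p, a, b)) φ (hDich.mono (le_max_left _ _))
    ((hA p hp1).mono (le_max_right _ _)) lam hlam A B mA mB bA bB
    (fun a ha => ball_subset_ball (by linarith) (sA a ha)) sB
  have hle : δ₁ / 2 ≤ r / 2 := by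
    have : δ₁ ≤ r / 2 := min_le_right _ _
    linarith
  have heq : ∫ q : V × V, A q.1 * B q.2 * ∫ s : ℝ, ((c (s, p, q.1, q.2) : ℝ) : ℂ) *
        ex (lam * (s * (w (p, q.1) - σ (p, q.2) + κ * (l (p, q.1) * m (p, q.2) +
          ε * g (p, q.1, q.2)))))
      = ∫ q : V × V, A q.1 * B q.2 * kk lam (fun s a b => ct (s, p, a, b))
        (fun a b => wt (p, a) - σt (p, b) + κ * (lt (p, a) * mt (p, b) +
          ε * gt (p, a, b))) q.1 q.2 := by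
    apply integral_congr_ae
    filter_upwards with q
    by_cases h1 : A q.1 = 0
    · simp [h1]
    by_cases h2 : B q.2 = 0
    · simp [h2]
    have hpr : p ∈ ball p0 (r / 2) := ball_subset_ball hle hp
    have har : q.1 ∈ ball a0 (r / 2) := ball_subset_ball hle (sA _ h1)
    have hbr : q.2 ∈ ball b0 (r / 2) := ball_subset_ball hle (sB _ h2)
    have hq : ((p, q.1, q.2) : P × V × V) ∈ ball ((p0, a0, b0) : P × V × V) (r / 2) :=
      mem_ball3.2 ⟨hpr, har, hbr⟩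
    unfold kk
    congr 1
    apply integral_congr_ae
    filter_upwards with s
    rw [ect s _ hq, egt _ hq, ewt _ (hl_mem2.2 ⟨hpr, har⟩), elt _ (hl_mem2.2 ⟨hpr, har⟩),
      eσt _ (hl_mem2.2 ⟨hpr, hbr⟩), emt _ (hl_mem2.2 ⟨hpr, hbr⟩)]
  rw [heq]
  have hv' := hv p (ball_subset_ball hδ₁v hp1) δ₁ hδ₁v lam κ (κ * ε) hlam hκ (by positivity)
  have h3 : ‖∫ q : V × V, A q.1 * B q.2 * kk lam (fun s a b => ct (s, p, a, b))
        (fun a b => wt (p, a) - σt (p, b) + κ * (lt (p, a) * mt (p, b) +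
          ε * gt (p, a, b))) q.1 q.2‖ ^ 2 ≤
        (Cb * Cv) / (lam ^ 2 * κ * √ε) ^ 2 := by
    refine key.trans ?_
    calc Cb / lam * ∫ a in ball a0 δ₁, ∫ a' in ball a0 δ₁,
          1 / (1 + lam * (|wt (p, a) - wt (p, a')| +
            (κ * |lt (p, a) - lt (p, a')| + κ * ε * ‖a - a'‖))) ^ 6
        ≤ Cb / lam * (Cv / (lam ^ 3 * (κ * (κ * ε)))) :=
          mul_le_mul_of_nonneg_left hv' (by positivity)
      _ = (Cb * Cv) / (lam ^ 2 * κ * √ε) ^ 2 := by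
        have h4 : √ε ^ 2 = ε := Real.sq_sqrt hε.le
        rw [mul_pow, mul_pow, h4]
        field_simp
  have h4 := Real.abs_le_sqrt h3
  rw [abs_of_nonneg (norm_nonneg _), Real.sqrt_div' _ (by positivity),
    Real.sqrt_sq (by positivity)] at h4
  exact h4

end Pool.Agent.SDT.N1F

end -- N1F.HLa

section -- N1F.A2h

/-!
N1F, block A2: the oscillatory estimate with two couplings, all ratios.
-/

namespace Pool.Agent.SDT.N1F

open MeasureTheory Set Metric Pool.Agent.SDT.MP_6cbfb8_an Pool.Agent.SDT.MST Pool.Agent.SDT.N1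
open scoped ENNReal Real ContDiff Topology

/-- A triangular basis for three independent functionals. -/
lemma tri_basis (f1 f2 f3 : V →L[ℝ] ℝ) (h : ∀ u, f1 u = 0 → f2 u = 0 → f3 u = 0 → u = 0) :
    ∃ u1 u2 u3 : V, f1 u1 = 1 ∧ (f1 u2 = 0 ∧ f2 u2 = 1) ∧ (f1 u3 = 0 ∧ f2 u3 = 0 ∧ f3 u3 = 1) := by
  set L : V →ₗ[ℝ] V := (f1.toLinearMap.prod (f2.toLinearMap.prod f3.toLinearMap)) with hL
  have hinj : Function.Injective L := by
    rw [← LinearMap.ker_eq_bot, LinearMap.ker_eq_bot']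
    intro u hu
    have h1 : L u = (f1 u, f2 u, f3 u) := rfl
    rw [h1, Prod.mk_eq_zero, Prod.mk_eq_zero] at hu
    exact h u hu.1 hu.2.1 hu.2.2
  have hs : Function.Surjective L := LinearMap.injective_iff_surjective.1 hinj
  obtain ⟨u1, h1⟩ := hs (1, 0, 0)
  obtain ⟨u2, h2⟩ := hs (0, 1, 0)
  obtain ⟨u3, h3⟩ := hs (0, 0, 1)
  have e : ∀ u, L u = (f1 u, f2 u, f3 u) := fun u => rfl
  rw [e, Prod.mk.injEq, Prod.mk.injEq] at h1 h2 h3
  exact ⟨u1, u2, u3, h1.1, ⟨h2.1, h2.2.1⟩, h3.1, h3.2.1, h3.2.2⟩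

/-- Mixed derivative of a sum of two products. -/
lemma der2 (l1 l2 m1 m2 : V → ℝ) (a0 b0 : V) (ε : ℝ) (G : V × V → ℝ)
    (hG : ∀ᶠ q in 𝓝 (a0, b0), G q = l1 q.1 * m1 q.2 + ε * (l2 q.1 * m2 q.2))
    (h1 : DifferentiableAt ℝ l1 a0) (h2 : DifferentiableAt ℝ l2 a0)
    (k1 : DifferentiableAt ℝ m1 b0) (k2 : DifferentiableAt ℝ m2 b0) (u e : V) :
    fderiv ℝ (fun b => fderiv ℝ (fun a => G (a, b)) a0 u) b0 e =
      fderiv ℝ l1 a0 u * fderiv ℝ m1 b0 e + ε * (fderiv ℝ l2 a0 u * fderiv ℝ m2 b0 e) := by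
  have h3 := sep_2 G (fun _ => 0) l1 (fun a => ε * l2 a) (fun _ => 0) m1 m2 a0 b0
    (by filter_upwards [hG] with q hq; rw [hq]; ring)
    (differentiableAt_const _) h1 (h2.const_mul ε) (differentiableAt_const _) k1 k2 u e
  rw [h3, fderiv_const_mul h2]
  simp only [smul_apply, smul_eq_mul]
  ring

theorem HLI {P : Type*} [NormedAddCommGroup P] [NormedSpace ℝ P] [FiniteDimensional ℝ P]
    (w l : P × V → ℝ) (σ m : P × V → ℝ) (g : P × V × V → ℝ) (l2 m2 : V → ℝ)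
    (c : ℝ × P × V × V → ℝ) (p0 : P) (a0 b0 : V) (r s0 s1 : ℝ)
    (hr : 0 < r) (hs0 : 0 < s0)
    (hw : ContDiffOn ℝ ∞ w (ball (p0, a0) r)) (hl : ContDiffOn ℝ ∞ l (ball (p0, a0) r))
    (hσ : ContDiffOn ℝ ∞ σ (ball (p0, b0) r)) (hm : ContDiffOn ℝ ∞ m (ball (p0, b0) r))
    (hg : ContDiffOn ℝ ∞ g (ball (p0, a0, b0) r))
    (hc : ContDiffOn ℝ ∞ c (univ ×ˢ ball (p0, a0, b0) r))
    (hcs : ∀ s, ∀ q ∈ ball (p0, a0, b0) r, c (s, q) ≠ 0 → s0 ≤ |s| ∧ |s| ≤ s1)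
    (hl2 : DifferentiableAt ℝ l2 a0) (hm2 : DifferentiableAt ℝ m2 b0)
    (hg0 : ∀ᶠ q in 𝓝 (a0, b0), g (p0, q.1, q.2) = l2 q.1 * m2 q.2)
    (ha : ∀ u, fderiv ℝ (fun a => w (p0, a)) a0 u = 0 → fderiv ℝ (fun a => l (p0, a)) a0 u = 0 →
      fderiv ℝ l2 a0 u = 0 → u = 0)
    (hb : ∀ u, fderiv ℝ (fun b => σ (p0, b)) b0 u = 0 → fderiv ℝ (fun b => m (p0, b)) b0 u = 0 →
      fderiv ℝ m2 b0 u = 0 → u = 0)
    (h1 : fderiv ℝ (fun a => w (p0, a)) a0 (1, 0, 0) ≠ 0)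
    (h2 : fderiv ℝ (fun b => σ (p0, b)) b0 (1, 0, 0) ≠ 0) :
    ∃ δ : ℝ, 0 < δ ∧ ∃ C : ℝ, 0 ≤ C ∧ ∀ p ∈ ball p0 δ, ∀ κ ε lam : ℝ, 0 < κ → κ ≤ 1 → 0 < ε →
      ε ≤ 1 → (ε < δ ∨ κ < δ) → 0 < lam →
      ∀ A B : V → ℂ, Measurable A → Measurable B → (∀ a, ‖A a‖ ≤ 1) → (∀ b, ‖B b‖ ≤ 1) →
      (∀ a, A a ≠ 0 → a ∈ ball a0 δ) → (∀ b, B b ≠ 0 → b ∈ ball b0 δ) →
      ‖∫ q : V × V, A q.1 * B q.2 * ∫ s : ℝ, ((c (s, p, q.1, q.2) : ℝ) : ℂ) *
        ex (lam * (s * (w (p, q.1) - σ (p, q.2) + κ * (l (p, q.1) * m (p, q.2) +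
          ε * g (p, q.1, q.2)))))‖ ≤ C / (lam ^ 2 * κ * √ε) := by
  -- differentiability at the base point
  have hl' : DifferentiableAt ℝ (fun a => l (p0, a)) a0 := by
    have h3 : ContDiffAt ℝ ∞ l (p0, a0) := hl.contDiffAt (ball_mem_nhds _ hr)
    have h4 : ContDiffAt ℝ ∞ (fun a => l (p0, a)) a0 :=
      h3.comp a0 (contDiffAt_const.prodMk contDiffAt_id)
    exact h4.differentiableAt (by simp)
  have hm' : DifferentiableAt ℝ (fun b => m (p0, b)) b0 := by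
    have h3 : ContDiffAt ℝ ∞ m (p0, b0) := hm.contDiffAt (ball_mem_nhds _ hr)
    have h4 : ContDiffAt ℝ ∞ (fun b => m (p0, b)) b0 :=
      h3.comp b0 (contDiffAt_const.prodMk contDiffAt_id)
    exact h4.differentiableAt (by simp)
  obtain ⟨u1, u2, u3, hu1, ⟨hu21, hu22⟩, hu31, hu32, hu33⟩ := tri_basis _ _ _ ha
  obtain ⟨e1, e2, e3, he1, ⟨he21, he22⟩, he31, he32, he33⟩ := tri_basis _ _ _ hb
  have hnd : fderiv ℝ (fun b => fderiv ℝ (fun a => g (p0, a, b)) a0 u3) b0 e3 ≠ 0 := by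
    have h3 := der2 (fun _ => 0) l2 (fun _ => 0) m2 a0 b0 1 (fun q => g (p0, q.1, q.2))
      (by filter_upwards [hg0] with q hq; rw [hq]; ring)
      (differentiableAt_const _) hl2 (differentiableAt_const _) hm2 u3 e3
    simp only at h3
    rw [h3, hu33, he33]
    simp
  obtain ⟨δa, hδa, Ca, hCa, hA⟩ := HLa w l σ m g c p0 a0 b0 r s0 s1 hr hs0 hw hl hσ hm hg hc hcs
    u1 u2 u3 e1 e2 e3 (by rw [hu1]; exact one_ne_zero) hu21 (by rw [hu22]; exact one_ne_zero)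
    hu31 hu32 (by rw [he1]; exact one_ne_zero) he21 (by rw [he22]; exact one_ne_zero) he31 he32 hnd
  -- compactness for the other ratios
  have hk : ∃ δ : ℝ, 0 < δ ∧ ∃ C : ℝ, 0 ≤ C ∧ ∀ ε0 ∈ Icc δa 1, ∀ p ∈ ball p0 δ, ∀ κ ε lam : ℝ,
      0 < κ → κ < δ → |ε - ε0| < δ → 0 < lam →
      ∀ A B : V → ℂ, Measurable A → Measurable B → (∀ a, ‖A a‖ ≤ 1) → (∀ b, ‖B b‖ ≤ 1) →
      (∀ a, A a ≠ 0 → a ∈ ball a0 δ) → (∀ b, B b ≠ 0 → b ∈ ball b0 δ) →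
      ‖∫ q : V × V, A q.1 * B q.2 * ∫ s : ℝ, ((c (s, p, q.1, q.2) : ℝ) : ℂ) *
        ex (lam * (s * (w (p, q.1) - σ (p, q.2) + κ * (l (p, q.1) * m (p, q.2) +
          ε * g (p, q.1, q.2)))))‖ ≤ C / (lam ^ 2 * κ) := by
    refine g2_unif isCompact_Icc (fun ε0 δ C => ∀ p ∈ ball p0 δ, ∀ κ ε lam : ℝ,
      0 < κ → κ < δ → |ε - ε0| < δ → 0 < lam →
      ∀ A B : V → ℂ, Measurable A → Measurable B → (∀ a, ‖A a‖ ≤ 1) → (∀ b, ‖B b‖ ≤ 1) →
      (∀ a, A a ≠ 0 → a ∈ ball a0 δ) → (∀ b, B b ≠ 0 → b ∈ ball b0 δ) →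
      ‖∫ q : V × V, A q.1 * B q.2 * ∫ s : ℝ, ((c (s, p, q.1, q.2) : ℝ) : ℂ) *
        ex (lam * (s * (w (p, q.1) - σ (p, q.2) + κ * (l (p, q.1) * m (p, q.2) +
          ε * g (p, q.1, q.2)))))‖ ≤ C / (lam ^ 2 * κ)) ?_ ?_ ?_
    · intro ε0 δ δ' C C' hδ' hδδ hCC h p hp κ ε lam hκ hκδ hε hlam A B hA' hB' hA1 hB1 hAs hBs
      refine (h p (ball_subset_ball hδδ hp) κ ε lam hκ (hκδ.trans_le hδδ) (hε.trans_le hδδ) hlam
        A B hA' hB' hA1 hB1 (fun a ha => ball_subset_ball hδδ (hAs a ha))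
        (fun b hb => ball_subset_ball hδδ (hBs b hb))).trans ?_
      gcongr
    · intro ε0 hε0
      have hp1 : ∀ q : (P × ℝ) × V, q ∈ ball ((p0, ε0), a0) r → ((q.1.1, q.2) : P × V) ∈
          ball (p0, a0) r := by
        intro q hq
        rw [mem_ball, Prod.dist_eq, max_lt_iff, Prod.dist_eq, max_lt_iff] at hq
        rw [mem_ball, Prod.dist_eq, max_lt_iff]
        exact ⟨hq.1.1, hq.2⟩
      have hp1' : ∀ q : (P × ℝ) × V, q ∈ ball ((p0, ε0), b0) r → ((q.1.1, q.2) : P × V) ∈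
          ball (p0, b0) r := by
        intro q hq
        rw [mem_ball, Prod.dist_eq, max_lt_iff, Prod.dist_eq, max_lt_iff] at hq
        rw [mem_ball, Prod.dist_eq, max_lt_iff]
        exact ⟨hq.1.1, hq.2⟩
      have hp2 : ∀ q : (P × ℝ) × V × V, q ∈ ball ((p0, ε0), a0, b0) r →
          ((q.1.1, q.2.1, q.2.2) : P × V × V) ∈ ball (p0, a0, b0) r := by
        intro q hq
        rw [mem_ball, Prod.dist_eq, max_lt_iff, Prod.dist_eq, max_lt_iff] at hq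
        rw [mem_ball, Prod.dist_eq, max_lt_iff]
        exact ⟨hq.1.1, hq.2⟩
      have hp3 : ∀ q : (P × ℝ) × V × V, q ∈ ball ((p0, ε0), a0, b0) r →
          ((q.1.1, q.2.1) : P × V) ∈ ball (p0, a0) r ∧ ((q.1.1, q.2.2) : P × V) ∈
            ball (p0, b0) r := by
        intro q hq
        rw [mem_ball, Prod.dist_eq, max_lt_iff, Prod.dist_eq, max_lt_iff, Prod.dist_eq,
          max_lt_iff] at hq
        constructor
        · rw [mem_ball, Prod.dist_eq]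
          exact max_lt hq.1.1 hq.2.1
        · rw [mem_ball, Prod.dist_eq]
          exact max_lt hq.1.1 hq.2.2
      obtain ⟨δ, hδ, C, hC, h3⟩ := HLk (P := P × ℝ) (fun x => w (x.1.1, x.2))
        (fun x => σ (x.1.1, x.2))
        (fun x => l (x.1.1, x.2.1) * m (x.1.1, x.2.2) + x.1.2 * g (x.1.1, x.2.1, x.2.2))
        (fun x => c (x.1, x.2.1.1, x.2.2.1, x.2.2.2)) (p0, ε0) a0 b0 r s0 s1 hr hs0
        (hw.comp (by fun_prop) hp1) (hσ.comp (by fun_prop) hp1')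
        (((hl.comp (f := fun x : (P × ℝ) × V × V => (x.1.1, x.2.1)) (by fun_prop)
            (fun q hq => (hp3 q hq).1)).mul
          (hm.comp (f := fun x : (P × ℝ) × V × V => (x.1.1, x.2.2)) (by fun_prop)
            (fun q hq => (hp3 q hq).2))).add
          ((by fun_prop : ContDiffOn ℝ ∞ (fun x : (P × ℝ) × V × V => x.1.2) _).mul
            (hg.comp (f := fun x : (P × ℝ) × V × V => (x.1.1, x.2.1, x.2.2)) (by fun_prop) hp2)))
        (hc.comp (f := fun x : ℝ × (P × ℝ) × V × V => (x.1, x.2.1.1, x.2.2.1, x.2.2.2))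
          (by fun_prop) (fun q hq => ⟨mem_univ _, hp2 _ hq.2⟩))
        (fun s q hq h => hcs s _ (hp2 q hq) h) h1 h2 (by
          intro u hu1' hu2'
          have h4 : ∀ e : V, fderiv ℝ (fun b => fderiv ℝ (fun a => l (p0, a) * m (p0, b) +
              ε0 * g (p0, a, b)) a0 u) b0 e = fderiv ℝ (fun a => l (p0, a)) a0 u *
              fderiv ℝ (fun b => m (p0, b)) b0 e + ε0 * (fderiv ℝ l2 a0 u * fderiv ℝ m2 b0 e) :=
            fun e => der2 (fun a => l (p0, a)) l2 (fun b => m (p0, b)) m2 a0 b0 ε0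
              (fun q => l (p0, q.1) * m (p0, q.2) + ε0 * g (p0, q.1, q.2))
              (by filter_upwards [hg0] with q hq; rw [hq]) hl' hl2 hm' hm2 u e
          have h5 := hu2' e3 he31
          have h6 := hu2' e2 he21
          simp only at h5 h6
          rw [h4, he32, he33] at h5
          rw [h4, he22] at h6
          have hε0' : ε0 ≠ 0 := (hδa.trans_le hε0.1).ne'
          have h7 : fderiv ℝ l2 a0 u = 0 := by
            have : ε0 * fderiv ℝ l2 a0 u = 0 := by linarith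
            exact (mul_eq_zero.1 this).resolve_left hε0'
          rw [h7] at h6
          exact ha u hu1' (by linarith) h7)
      refine ⟨δ, hδ, C, hC, ?_⟩
      intro p hp κ ε lam hκ hκδ hε hlam A B hA' hB' hA1 hB1 hAs hBs
      exact h3 (p, ε) (by
        rw [mem_ball, Prod.dist_eq, max_lt_iff]
        exact ⟨hp, hε⟩) κ lam hκ hκδ hlam A B hA' hB' hA1 hB1 hAs hBs
    · intro ε0 ε0' δ C hδ hd h p hp κ ε lam hκ hκδ hε hlam A B hA' hB' hA1 hB1 hAs hBs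
      have hδ2 : δ / 2 ≤ δ := by linarith
      refine h p (ball_subset_ball hδ2 hp) κ ε lam hκ (hκδ.trans_le hδ2) ?_ hlam
        A B hA' hB' hA1 hB1 (fun a ha => ball_subset_ball hδ2 (hAs a ha))
        (fun b hb => ball_subset_ball hδ2 (hBs b hb))
      rw [Real.dist_eq] at hd
      have h4 := abs_sub_le ε ε0' ε0
      linarith
  obtain ⟨δk, hδk, Ck, hCk, hK⟩ := hk
  refine ⟨min δa δk, lt_min hδa hδk, max Ca Ck, le_max_of_le_left hCa, ?_⟩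
  intro p hp κ ε lam hκ hκ1 hε hε1 hor hlam A B hA' hB' hA1 hB1 hAs hBs
  have hsq : 0 < √ε := Real.sqrt_pos.2 hε
  by_cases hc1 : ε < δa
  · refine (hA p (ball_subset_ball (min_le_left _ _) hp) κ ε lam hκ hκ1 hε hc1 hlam A B hA' hB'
      hA1 hB1 (fun a ha => ball_subset_ball (min_le_left _ _) (hAs a ha))
      (fun b hb => ball_subset_ball (min_le_left _ _) (hBs b hb))).trans ?_
    gcongr
    exact le_max_left _ _
  · push Not at hc1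
    have hκδ : κ < δk := by
      rcases hor with h | h
      · exact absurd (h.trans_le (min_le_left _ _)) (not_lt.2 hc1)
      · exact h.trans_le (min_le_right _ _)
    refine (hK ε ⟨hc1, hε1⟩ p (ball_subset_ball (min_le_right _ _) hp) κ ε lam hκ hκδ
      (by rw [sub_self, abs_zero]; exact hδk) hlam A B hA' hB'
      hA1 hB1 (fun a ha => ball_subset_ball (min_le_right _ _) (hAs a ha))
      (fun b hb => ball_subset_ball (min_le_right _ _) (hBs b hb))).trans ?_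
    have h5 : √ε ≤ 1 := Real.sqrt_le_one.2 hε1
    have h6 : lam ^ 2 * κ * √ε ≤ lam ^ 2 * κ := by
      have : 0 < lam ^ 2 * κ := by positivity
      nlinarith
    exact div_le_div₀ (le_max_of_le_left hCa) (le_max_right _ _) (by positivity) h6

end Pool.Agent.SDT.N1F

end -- N1F.A2h

section -- N1F.EG

/-!
N1F, block A4: E_D0F.
-/

namespace Pool.Agent.SDT.N1F

open MeasureTheory Set Metric Pool.Agent.SDT.MP_6cbfb8_an Pool.Agent.SDT.MST Pool.Agent.SDT.N1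
open scoped ENNReal Real ContDiff

/-- In case (D) the first component of the base direction does not vanish. -/
theorem nb_y1 {c A0 B0 : ℝ} {x0 y0 : ℝ × ℝ} (hc : 0 < c) (hb : Bs c A0 B0 x0)
    (hy2 : y0.2 ≠ 0) (h1 : nb B0 x0 y0 = 0) : y0.1 ≠ 0 := by
  intro h
  have hq := base_pos hc hb
  obtain ⟨k1, k2, k3, k4, k5, k6⟩ := hb
  have hA : 0 ≤ A0 * x0.1 ^ 2 := by positivity
  have hc2 : 0 < c ^ 2 := by positivity
  have hw : 0 < 1 - B0 * x0.2 ^ 2 := by linarith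
  unfold nb at h1
  rw [h, mul_zero, zero_div, zero_add] at h1
  have : 2 * y0.2 * x0.2 / (1 - B0 * x0.2 ^ 2) ≠ 0 :=
    div_ne_zero (mul_ne_zero (mul_ne_zero two_ne_zero hy2) k5.ne') hw.ne'
  exact this h1

/-- R0. -/
theorem E_D0F (c : ℝ) (hc : 0 < c) (A0 B0 : ℝ) (x0 y0 : ℝ × ℝ) (hb : Bs c A0 B0 x0)
    (hy2 : y0.2 ≠ 0) (h1 : nb B0 x0 y0 = 0) :
    ∃ δ θ C5 : ℝ, 0 < δ ∧ 0 < θ ∧ 0 < C5 ∧ ∀ al be : ℝ, Sz al be A0 B0 δ → ∀ ρ : ℝ, 0 < ρ →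
    ρ < δ → ∀ κ : ℝ, 0 < κ → ∀ q : V × V, NbF al be δ ρ x0 y0 q →
    be * |q.2.2.2| ≤ θ * (al * be ^ 2 * |q.1.2.2|) → |Nx (be ^ 2 * ρ) q| ≤ 2 * κ →
    |Nz (be ^ 2 * ρ) q| ≤ 2 * κ → |q.1.2.2| ≤ C5 * κ * al := by
  obtain ⟨m, C, s, hm, hmC, hs, -, δ, hδ, -, H⟩ := eF_diffA (y0 := y0) hc hb (nb_y1 hc hb hy2 h1)
  have hC : 0 < C := hm.trans_le hmC
  refine ⟨δ, m / (2 * C), 8 / m, hδ, by positivity, by positivity,
    fun al be hsz ρ hρ hρδ κ hκ q hq h2 h3 h4 => ?_⟩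
  obtain ⟨P, R, g1, g2, g3, g4⟩ := H al be hsz ρ hρ hρδ q hq 0 ⟨le_rfl, zero_le_one⟩ 1
    ⟨zero_le_one, le_rfl⟩
  have s1 := hsz.1
  have s2 := hsz.2.1
  have s3 := hsz.2.2.1
  rw [nU_zero, nU_one, sub_zero, one_mul] at g4
  have hP : m ≤ |P| := by
    have hsa : |s| = 1 := by rcases hs with h | h <;> rw [h] <;> simp
    calc m ≤ s * P := g1
      _ ≤ |s * P| := le_abs_self _
      _ = |P| := by rw [abs_mul, hsa, one_mul]
  obtain ⟨z, hz⟩ : ∃ z : ℝ, z = |q.1.2.2| / al := ⟨_, rfl⟩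
  have hz0 : 0 ≤ z := by
    rw [hz]
    positivity
  have hz1 : |q.1.2.2 / al| = z := by rw [hz, abs_div, abs_of_pos s1]
  have hw : |q.2.2.2 / be| ≤ m / (2 * C) * z := by
    rw [abs_div, abs_of_pos s3, div_le_iff₀ s3]
    have e1 : be * |q.2.2.2| ≤ be * (m / (2 * C) * (al * be * |q.1.2.2|)) := by
      calc _ ≤ _ := h2
        _ = _ := by ring
    have e2 := le_of_mul_le_mul_left e1 s3
    refine e2.trans ?_
    have e3 : al * |q.1.2.2| ≤ z := by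
      rw [hz, le_div_iff₀ s1]
      have e4 : al * al ≤ 1 := mul_le_one₀ s2 s1.le s2
      calc al * |q.1.2.2| * al = al * al * |q.1.2.2| := by ring
        _ ≤ 1 * |q.1.2.2| := mul_le_mul_of_nonneg_right e4 (abs_nonneg _)
        _ = |q.1.2.2| := one_mul _
    calc m / (2 * C) * (al * be * |q.1.2.2|) = m / (2 * C) * (al * |q.1.2.2|) * be := by ring
      _ ≤ m / (2 * C) * z * be := by
          refine mul_le_mul_of_nonneg_right ?_ s3.le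
          exact mul_le_mul_of_nonneg_left e3 (by positivity)
  have k1 : |P * (q.1.2.2 / al)| ≤ 4 * κ + |R * (q.2.2.2 / be)| := by
    have e1 : P * (q.1.2.2 / al) = R * (q.2.2.2 / be) -
        (Nx (be ^ 2 * ρ) q - Nz (be ^ 2 * ρ) q) := by
      rw [g4]
      ring
    rw [e1]
    have e2 := abs_sub (R * (q.2.2.2 / be)) (Nx (be ^ 2 * ρ) q - Nz (be ^ 2 * ρ) q)
    have e3 := abs_sub (Nx (be ^ 2 * ρ) q) (Nz (be ^ 2 * ρ) q)
    linarith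
  have k2 : |R * (q.2.2.2 / be)| ≤ m / 2 * z := by
    rw [abs_mul]
    calc |R| * |q.2.2.2 / be| ≤ C * (m / (2 * C) * z) :=
          mul_le_mul g3 hw (abs_nonneg _) hC.le
      _ = m / 2 * z := by field_simp
  have k3 : m * z ≤ |P * (q.1.2.2 / al)| := by
    rw [abs_mul, hz1]
    exact mul_le_mul_of_nonneg_right hP hz0
  have k4 : m / 2 * z ≤ 4 * κ := by linarith
  have k5 : z ≤ 8 / m * κ := by
    rw [div_mul_eq_mul_div, le_div_iff₀ hm]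
    linarith
  rw [hz, div_le_iff₀ s1] at k5
  exact k5

end Pool.Agent.SDT.N1F

end -- N1F.EG

section -- N1F.EH

/-!
N1F, block A4: the two key lemmas in the form used for E_D2aF, E_D2bF.
-/

namespace Pool.Agent.SDT.N1F

open MeasureTheory Set Metric Pool.Agent.SDT.MP_6cbfb8_an Pool.Agent.SDT.MST Pool.Agent.SDT.N1

theorem eF_key (c : ℝ) (hc : 0 < c) (A0 B0 : ℝ) (x0 y0 : ℝ × ℝ) (hb : Bs c A0 B0 x0)
    (hy2 : y0.2 ≠ 0) : ∃ l Λ : ℝ, 0 < l ∧ l ≤ Λ ∧ ∀ ε : ℝ, 0 < ε → ∃ δ : ℝ, 0 < δ ∧ δ ≤ 1 ∧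
    ∀ al be : ℝ, Sz al be A0 B0 δ → ∀ ρ : ℝ, 0 < ρ → ρ < δ → ∀ q : V × V,
    NbF al be δ ρ x0 y0 q → ∃ u ∈ Icc (0:ℝ) 1, ∃ L M : ℝ, l ≤ L ∧ L ≤ Λ ∧ l ≤ |M| ∧ |M| ≤ Λ ∧
      |nU be ρ q u - nb B0 x0 y0| ≤ ε ∧
      Fr c q.1 q.2 = -(ρ * (L * nU be ρ q u * (al * be ^ 2 * q.1.2.2) + M * (be * q.2.2.2))) := by
  obtain ⟨l, Λ, h1, h2, H⟩ := eF_keyA hc hb hy2
  refine ⟨l, Λ, h1, h2, fun ε hε => ?_⟩
  obtain ⟨δ, h3, h4, H⟩ := H ε hε
  refine ⟨δ, h3, h4, fun al be hs ρ hρ hρδ q hq => ?_⟩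
  obtain ⟨g1, u, hu, L, M, g2, g3, g4, g5, g6⟩ := H al be hs ρ hρ hρδ q hq
  exact ⟨u, hu, L, M, g2, g3, g4, g5, g1 u hu, g6⟩

theorem eF_diff (c : ℝ) (hc : 0 < c) (A0 B0 : ℝ) (x0 y0 : ℝ × ℝ) (hb : Bs c A0 B0 x0)
    (hy1 : y0.1 ≠ 0) : ∃ m C : ℝ, 0 < m ∧ m ≤ C ∧ ∃ δ : ℝ, 0 < δ ∧ δ ≤ 1 ∧
    ∀ al be : ℝ, Sz al be A0 B0 δ → ∀ ρ : ℝ, 0 < ρ → ρ < δ → ∀ q : V × V,
    NbF al be δ ρ x0 y0 q → ∀ u ∈ Icc (0:ℝ) 1, ∀ v ∈ Icc (0:ℝ) 1, ∃ P R : ℝ,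
      m ≤ SignType.sign y0.1 * P ∧ SignType.sign y0.1 * P ≤ C ∧ |R| ≤ C ∧
      nU be ρ q u - nU be ρ q v = (v - u) * (-(P * (q.1.2.2 / al)) + R * (q.2.2.2 / be)) := by
  obtain ⟨m, C, s, h1, h2, -, hs, δ, h3, h4, H⟩ := eF_diffA hc hb hy1
  have hs' : ((SignType.sign y0.1 : SignType) : ℝ) = s := by
    have h5 : ((SignType.sign y0.1 : SignType) : ℝ) * y0.1 = s * y0.1 := by
      rw [hs]
      exact sign_mul_self y0.1
    exact mul_right_cancel₀ hy1 h5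
  refine ⟨m, C, h1, h2, δ, h3, h4, fun al be hsz ρ hρ hρδ q hq u hu v hv => ?_⟩
  rw [hs']
  exact H al be hsz ρ hρ hρδ q hq u hu v hv

end Pool.Agent.SDT.N1F

end -- N1F.EH
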