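import Pool.Agent.SDT.B38
import Pool.Agent.SDT.B48

set_option autoImplicit false

namespace Pool.Agent.SDT.MP_6cbfb8_an
end Pool.Agent.SDT.MP_6cbfb8_an
namespace Pool.Agent.SDT.MST
end Pool.Agent.SDT.MST
namespace Pool.Agent.SDT.N1
end Pool.Agent.SDT.N1

section -- N1G.La5

/-!
N1G, block L2a: one cell in case (D).
-/

namespace Pool.Agent.SDT.N1G

open MeasureTheory Set Metric Pool.Agent.SDT.MP_6cbfb8_an Pool.Agent.SDT.MST Pool.Agent.SDT.N1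
open scoped ENNReal Real ContDiff Topology

section fam

variable {P : Type*} [NormedAddCommGroup P] [NormedSpace ℝ P]

/-- Good points. -/
def okG (D : Dat P) (p0 : P) (x0 y0 : ℝ × ℝ) (ρ : ℝ) (x : PP P × V × V) : Prop :=
  (dist x.1.1 p0 < ρ ∧ |x.2.1.1 - y0.1| < ρ ∧ |x.2.2.1 - y0.2| < ρ) ∧
    (|x.2.1.2.1 - x0.1| < ρ ∧ |x.2.1.2.1 - x.1.2.1 * x.2.1.2.2 - x0.1| < ρ) ∧
    (|x.2.2.2.1 - x0.2| < ρ ∧
      |x.2.2.2.1 - x.1.2.2.1 * x.1.2.1 * x.2.2.2.2 - x0.2| < ρ) ∧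
    x.2.1.2.2 ≠ 0 ∧ D.L x ≠ 0

lemma okG_ev [FiniteDimensional ℝ P] (D : Dat P) (p0 : P) (x0 y0 : ℝ × ℝ) (ρ : ℝ)
    (x : PP P × V × V) (h : okG D p0 x0 y0 ρ x) : ∀ᶠ y in 𝓝 x, okG D p0 x0 y0 ρ y := by
  obtain ⟨⟨h1, h2, h3⟩, ⟨h4, h5⟩, ⟨h6, h7⟩, h8, h9⟩ := h
  have c1 : ContinuousAt (fun y : PP P × V × V => dist y.1.1 p0) x := by fun_prop
  have c2 : ContinuousAt (fun y : PP P × V × V => |y.2.1.1 - y0.1|) x := by fun_prop
  have c3 : ContinuousAt (fun y : PP P × V × V => |y.2.2.1 - y0.2|) x := by fun_prop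
  have c4 : ContinuousAt (fun y : PP P × V × V => |y.2.1.2.1 - x0.1|) x := by fun_prop
  have c5 : ContinuousAt (fun y : PP P × V × V =>
    |y.2.1.2.1 - y.1.2.1 * y.2.1.2.2 - x0.1|) x := by fun_prop
  have c6 : ContinuousAt (fun y : PP P × V × V => |y.2.2.2.1 - x0.2|) x := by fun_prop
  have c7 : ContinuousAt (fun y : PP P × V × V =>
    |y.2.2.2.1 - y.1.2.2.1 * y.1.2.1 * y.2.2.2.2 - x0.2|) x := by fun_prop
  have c8 : ContinuousAt (fun y : PP P × V × V => y.2.1.2.2) x := by fun_prop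
  have c9 : ContinuousAt D.L x := D.L_smooth.continuous.continuousAt
  filter_upwards [c1.eventually (gt_mem_nhds h1), c2.eventually (gt_mem_nhds h2),
    c3.eventually (gt_mem_nhds h3), c4.eventually (gt_mem_nhds h4),
    c5.eventually (gt_mem_nhds h5), c6.eventually (gt_mem_nhds h6),
    c7.eventually (gt_mem_nhds h7), c8.eventually_ne h8, c9.eventually_ne h9]
    with y d1 d2 d3 d4 d5 d6 d7 d8 d9
  exact ⟨⟨d1, d2, d3⟩, ⟨d4, d5⟩, ⟨d6, d7⟩, d8, d9⟩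

lemma okG_e1 {D : Dat P} {p0 : P} {x0 y0 : ℝ × ℝ} {ρ : ℝ} {x : PP P × V × V}
    (h : okG D p0 x0 y0 ρ x) (t : ℝ) (ht : t ∈ Icc (0 : ℝ) 1) :
    e1 t x ∈ ball (p0, (y0, x0)) ρ := by
  obtain ⟨⟨h1, h2, h3⟩, ⟨h4, h5⟩, ⟨h6, h7⟩, h8, h9⟩ := h
  unfold e1
  rw [mem_ballYX]
  refine ⟨h1, ⟨h2, h3⟩, ?_, h6⟩
  simp only
  rw [show x.2.1.2.1 - x.1.2.1 * x.2.1.2.2 / 2 + (t - 1 / 2) * (x.1.2.1 * x.2.1.2.2) - x0.1 =
    t * (x.2.1.2.1 - x0.1) + (1 - t) * (x.2.1.2.1 - x.1.2.1 * x.2.1.2.2 - x0.1) by ring]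
  rw [abs_lt] at h4 h5 ⊢
  obtain ⟨t0, t1⟩ := ht
  constructor
  · rcases eq_or_lt_of_le t0 with h | h
    · rw [← h]; linarith [h5.1]
    · nlinarith [mul_lt_mul_of_pos_left h4.1 h, mul_le_mul_of_nonneg_left h5.1.le
        (by linarith : (0:ℝ) ≤ 1 - t)]
  · rcases eq_or_lt_of_le t0 with h | h
    · rw [← h]; linarith [h5.2]
    · nlinarith [mul_lt_mul_of_pos_left h4.2 h, mul_le_mul_of_nonneg_left h5.2.le
        (by linarith : (0:ℝ) ≤ 1 - t)]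

lemma okG_e2 {D : Dat P} {p0 : P} {x0 y0 : ℝ × ℝ} {ρ : ℝ} {x : PP P × V × V}
    (h : okG D p0 x0 y0 ρ x) : e2 0 x ∈ ball (p0, (y0, x0)) ρ := by
  obtain ⟨⟨h1, h2, h3⟩, ⟨h4, h5⟩, ⟨h6, h7⟩, h8, h9⟩ := h
  unfold e2
  rw [mem_ballYX]
  refine ⟨h1, ⟨h2, h3⟩, h5, ?_⟩
  simp only
  rw [sub_zero, one_mul]
  exact h7

lemma okG_nf {D : Dat P} {F : Fam P} {p0 : P} {x0 y0 : ℝ × ℝ} {ρ : ℝ}
    (hDk : DatOk D F p0 x0 y0 ρ) {x : PP P × V × V} (h : okG D p0 x0 y0 ρ x)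
    (hη : x.1.2.2.1 * x.1.2.2.2 = D.μ x.1.1 * x.1.2.1 ^ 2) :
    D.ψ (e1 1 x) - D.ψ (e2 0 x) = x.1.2.1 * (D.E x *
      (D.w (x.1, x.2.1) - D.σ (x.1, x.2.2) + x.1.2.2.1 * D.g x)) := by
  refine D.nf x h.2.2.2.1 h.2.2.2.2 hη fun t ht => ?_
  have h1 := hDk.ea x.1.1 (e1 t x).2 (okG_e1 h t ht)
  exact h1

omit [NormedAddCommGroup P] [NormedSpace ℝ P] in
lemma e1_one (p : P) (γ κ η : ℝ) (a b : V) :
    e1 1 (((p, γ, κ, η) : PP P), a, b) = (p, px (Sc 1 γ a, Sc 1 (κ * γ) b)) := by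
  unfold e1 px Sc
  simp only [one_mul]
  rw [show a.2.1 - γ * a.2.2 / 2 + (1 - 1 / 2) * (γ * a.2.2) = a.2.1 by ring]

omit [NormedAddCommGroup P] [NormedSpace ℝ P] in
lemma e2_zero (p : P) (γ κ η : ℝ) (a b : V) :
    e2 0 (((p, γ, κ, η) : PP P), a, b) = (p, pz (Sc 1 γ a, Sc 1 (κ * γ) b)) := by
  unfold e2 pz Sc
  simp only [one_mul, sub_zero]

/-- The amplitude. -/
noncomputable def amG (D : Dat P) (Ef : PP P × V × V → ℝ) (x : ℝ × PP P × V × V) : ℝ :=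
  D.W (e1 1 x.2) * D.W (e2 0 x.2) * (chi (x.1 / Ef x.2) / |Ef x.2|)

lemma amG_smooth (D : Dat P) (Ef : PP P × V × V → ℝ) (S : Set (PP P × V × V))
    (hE : ContDiffOn ℝ ∞ Ef S) (hE0 : ∀ x ∈ S, Ef x ≠ 0) :
    ContDiffOn ℝ ∞ (amG D Ef) (univ ×ˢ S) := by
  have h1 : ContDiffOn ℝ ∞ (fun x : ℝ × PP P × V × V => Ef x.2) (univ ×ˢ S) :=
    hE.comp contDiff_snd.contDiffOn (fun x hx => hx.2)
  have h2 : ContDiff ℝ ∞ (fun x : ℝ × PP P × V × V => D.W (e1 1 x.2) * D.W (e2 0 x.2)) := by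
    unfold e1 e2
    exact (D.sW.comp (by fun_prop)).mul (D.sW.comp (by fun_prop))
  have h4 : ContDiffOn ℝ ∞ (fun x : ℝ × PP P × V × V => chi (x.1 / Ef x.2)) (univ ×ˢ S) :=
    chi_smooth.comp_contDiffOn (contDiff_fst.contDiffOn.div h1 (fun x hx => hE0 _ hx.2))
  have h5 : ContDiffOn ℝ ∞ (fun x : ℝ × PP P × V × V => |Ef x.2|) (univ ×ˢ S) := by
    intro x hx
    exact (contDiffAt_abs (hE0 _ hx.2)).comp_contDiffWithinAt x (h1 x hx)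
  exact h2.contDiffOn.mul (h4.div h5 (fun x hx => abs_ne_zero.2 (hE0 _ hx.2)))

lemma amG_supp (D : Dat P) (Ef : PP P × V × V → ℝ) (e0 e1' s : ℝ) (q : PP P × V × V)
    (he0 : 0 < e0) (h0 : e0 ≤ |Ef q|) (h1 : |Ef q| ≤ e1') (h : amG D Ef (s, q) ≠ 0) :
    e0 / 2 ≤ |s| ∧ |s| ≤ 3 * e1' := by
  have hchi : chi (s / Ef q) ≠ 0 := by
    intro h2
    apply h
    unfold amG
    simp only
    rw [h2, zero_div, mul_zero]
  obtain ⟨g1, g2⟩ := chi_zero _ hchi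
  have hE : 0 < |Ef q| := lt_of_lt_of_le he0 h0
  have h3 : |s| = |s / Ef q| * |Ef q| := by
    rw [abs_div]
    field_simp
  have h4 : |s / Ef q| = s / Ef q := abs_of_nonneg (by linarith)
  rw [h4] at h3
  rw [h3]
  constructor
  · nlinarith
  · nlinarith

/-- One cell, case (D). -/
theorem cellD [FiniteDimensional ℝ P] (F : Fam P) (p0 : P) (x0 y0 : ℝ × ℝ) (r : ℝ)
    (h : FamOk F p0 x0 y0 r) (hD : CaseD F p0 x0 y0) (C5 z1 z2 : ℝ) (hz1 : z1 ≠ 0)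
    (hz2 : z2 ≠ 0) :
    ∃ δ : ℝ, 0 < δ ∧ ∃ C : ℝ, 0 ≤ C ∧ ∀ p ∈ ball p0 δ, 0 ≤ F.μ p → ∀ T γ κ : ℝ, 0 < T →
      0 < γ → γ < δ → 0 < κ → κ < δ → F.μ p * γ ≤ C5 * κ →
      ∀ A B : V → ℂ, Measurable A → Measurable B → (∀ a, ‖A a‖ ≤ 1) → (∀ b, ‖B b‖ ≤ 1) →
      (∀ u, A u ≠ 0 → |u.1 - y0.1| ≤ δ ∧ |u.2.1 - x0.1| ≤ δ ∧ |u.2.2 / γ - z1| ≤ δ) →
      (∀ v, B v ≠ 0 → |v.1 - y0.2| ≤ δ ∧ |v.2.1 - x0.2| ≤ δ ∧ |v.2.2 / (κ * γ) - z2| ≤ δ) →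
      ‖FFg (fun s => F.ψ (p, s)) (fun s => F.W (p, s)) T (tp A B)‖ ≤ C / T := by
  obtain ⟨D, hDk⟩ := exists_dat F p0 x0 y0 r h
  set ρ := r / 2 with hρdef
  have hρ : 0 < ρ := hDk.hρ
  obtain ⟨k1, k2, k3⟩ := nd_D' F p0 x0 y0 r ρ h hD D hDk z1 z2 hz1 hz2
  set a0 : V := (y0.1, x0.1, z1) with ha0
  set b0 : V := (y0.2, x0.2, z2) with hb0
  set q0 : PP P := (p0, 0, 0, 0) with hq0
  have hL0 : D.L (q0, a0, b0) ≠ 0 := by
    rw [hq0, L_base]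
    have : Q0 p0 ((a0.1, a0.2.1), (b0.1, b0.2.1)) = (p0, (y0, x0)) := rfl
    rw [this, hDk.el _ (mem_ball_self hρ)]
    exact h.lpos.ne'
  have hok : okG D p0 x0 y0 ρ (q0, a0, b0) := by
    refine ⟨⟨?_, ?_, ?_⟩, ⟨?_, ?_⟩, ⟨?_, ?_⟩, hz1, hL0⟩ <;>
      simp [hq0, ha0, hb0, hρ]
  have hEne : D.E (q0, a0, b0) ≠ 0 := by
    unfold Dat.E
    exact neg_ne_zero.2 (mul_ne_zero hz1 hL0)
  have hE0 : 0 < |D.E (q0, a0, b0)| := abs_pos.2 hEne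
  set e := |D.E (q0, a0, b0)| with he
  have hEc : ContinuousAt (fun x => |D.E x|) (q0, a0, b0) :=
    D.E_smooth.continuous.continuousAt.abs
  have ev : ∀ᶠ x in 𝓝 (q0, a0, b0), okG D p0 x0 y0 ρ x ∧ e / 2 ≤ |D.E x| ∧ |D.E x| ≤ 2 * e := by
    filter_upwards [okG_ev D p0 x0 y0 ρ _ hok,
      hEc.eventually (lt_mem_nhds (show e / 2 < e by linarith)),
      hEc.eventually (gt_mem_nhds (show e < 2 * e by linarith))] with x d1 d2 d3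
    exact ⟨d1, d2.le, d3.le⟩
  obtain ⟨R, hR, hball⟩ := g_ball ev
  have hg : ContDiffOn ℝ ∞ D.g (ball (q0, a0, b0) R) := fun x hx =>
    (D.g_smooth x (hball x hx).1.2.2.2.1 (hball x hx).1.2.2.2.2).contDiffWithinAt
  have hEne' : ∀ x ∈ ball (q0, a0, b0) R, D.E x ≠ 0 := fun x hx =>
    abs_pos.1 (lt_of_lt_of_le (by positivity) (hball x hx).2.1)
  have hcc : ContDiffOn ℝ ∞ (amG D D.E) (univ ×ˢ ball (q0, a0, b0) R) :=
    amG_smooth D _ _ D.E_smooth.contDiffOn hEne'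
  have hcs : ∀ s, ∀ q ∈ ball (q0, a0, b0) R, amG D D.E (s, q) ≠ 0 →
      e / 2 / 2 ≤ |s| ∧ |s| ≤ 3 * (2 * e) := fun s q hq h =>
    amG_supp D D.E (e / 2) (2 * e) s q (by linarith) (hball q hq).2.1 (hball q hq).2.2 h
  obtain ⟨δ, hδ, C, hC, hRC⟩ := HLk D.w D.σ D.g (amG D D.E) q0 a0 b0 R
    (e / 2 / 2) (3 * (2 * e)) hR (by positivity) D.w_smooth.contDiffOn D.σ_smooth.contDiffOn
    hg hcc hcs k1 k2 k3
  set M := 1 + |C5| with hM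
  have hM1 : 1 ≤ M := by rw [hM]; linarith [abs_nonneg C5]
  set m := min (min δ R) ρ with hm
  have hmp : 0 < m := lt_min (lt_min hδ hR) hρ
  set δ' := m / (2 * M) with hδ'
  have hδM : M * δ' = m / 2 := by rw [hδ']; field_simp
  have hδ'p : 0 < δ' := by rw [hδ']; positivity
  have hmδ : m ≤ δ := (min_le_left _ _).trans (min_le_left _ _)
  have hmR : m ≤ R := (min_le_left _ _).trans (min_le_right _ _)
  have hδ1 : M * δ' < δ := by rw [hδM]; linarith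
  have hδ2 : M * δ' < R := by rw [hδM]; linarith
  have hδle : δ' ≤ M * δ' := by nlinarith
  refine ⟨δ', hδ'p, C, hC, ?_⟩
  intro p hp hμ T γ κ hT hγ hγδ hκ hκδ hγκ A B hA hB hA1 hB1 hAs hBs
  rw [mem_ball] at hp
  have hball' : ∀ (u : V) (x y z : ℝ), |u.1 - x| ≤ δ' ∧ |u.2.1 - y| ≤ δ' ∧ |u.2.2 - z| ≤ δ' →
      ∀ S, M * δ' < S → u ∈ ball ((x, y, z) : V) S := by
    intro u x y z h S hS
    rw [mem_ball, Prod.dist_eq, Prod.dist_eq, Real.dist_eq, Real.dist_eq, Real.dist_eq]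
    exact max_lt (lt_of_le_of_lt (h.1.trans hδle) hS) (max_lt (lt_of_le_of_lt
      (h.2.1.trans hδle) hS) (lt_of_le_of_lt (h.2.2.trans hδle) hS))
  have hAs' : ∀ u, A (Sc 1 γ u) ≠ 0 →
      |u.1 - y0.1| ≤ δ' ∧ |u.2.1 - x0.1| ≤ δ' ∧ |u.2.2 - z1| ≤ δ' := by
    intro u hu
    have h := hAs _ hu
    unfold Sc at h
    simp only [one_mul] at h
    rwa [mul_div_cancel_left₀ _ hγ.ne'] at h
  have hBs' : ∀ u, B (Sc 1 (κ * γ) u) ≠ 0 →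
      |u.1 - y0.2| ≤ δ' ∧ |u.2.1 - x0.2| ≤ δ' ∧ |u.2.2 - z2| ≤ δ' := by
    intro u hu
    have h := hBs _ hu
    unfold Sc at h
    simp only [one_mul] at h
    rwa [mul_div_cancel_left₀ _ (mul_pos hκ hγ).ne'] at h
  have hμD : D.μ p = F.μ p := hDk.eμ p (by
    rw [mem_ball]
    have : M * δ' < ρ := by rw [hδM]; linarith [min_le_right (min δ R) ρ]
    linarith)
  set η := F.μ p * γ ^ 2 / κ with hη
  have hη0 : 0 ≤ η := by rw [hη]; positivity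
  have hηle : η ≤ M * δ' := by
    rw [hη, div_le_iff₀ hκ]
    have h3 : F.μ p * γ ≤ |C5| * κ := hγκ.trans (mul_le_mul_of_nonneg_right (le_abs_self _) hκ.le)
    calc F.μ p * γ ^ 2 = (F.μ p * γ) * γ := by ring
      _ ≤ (|C5| * κ) * δ' := mul_le_mul h3 hγδ.le hγ.le (by positivity)
      _ ≤ M * δ' * κ := by
        rw [hM]
        nlinarith [mul_pos hδ'p hκ]
  have hκη : κ * η = D.μ p * γ ^ 2 := by rw [hη, hμD]; field_simp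
  have hpR : ∀ S, M * δ' < S → ((p, γ, κ, η) : PP P) ∈ ball q0 S := by
    intro S hS
    rw [mem_ball, Prod.dist_eq, Prod.dist_eq, Prod.dist_eq, Real.dist_eq, Real.dist_eq,
      Real.dist_eq]
    simp only [hq0, sub_zero, abs_of_pos hγ, abs_of_pos hκ, abs_of_nonneg hη0]
    exact max_lt (lt_of_lt_of_le hp (hδle.trans hS.le)) (max_lt (lt_of_lt_of_le hγδ
      (hδle.trans hS.le)) (max_lt (lt_of_lt_of_le hκδ (hδle.trans hS.le))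
      (lt_of_le_of_lt hηle hS)))
  have hmain := hRC (p, γ, κ, η) (hpR δ hδ1) κ (T * γ) hκ
    (lt_of_lt_of_le hκδ (hδle.trans hδ1.le)) (by positivity)
    (fun u => A (Sc 1 γ u)) (fun u => B (Sc 1 (κ * γ) u)) (hA.comp (Sc_cont 1 γ).measurable)
    (hB.comp (Sc_cont 1 (κ * γ)).measurable) (fun a => hA1 _) (fun b => hB1 _)
    (fun a ha => hball' a _ _ _ (hAs' a ha) δ hδ1) (fun b hb => hball' b _ _ _ (hBs' b hb) δ hδ1)
  have hid : FFg (fun s => F.ψ (p, s)) (fun s => F.W (p, s)) T (tp A B) =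
      ((((1 * γ) * (1 * (κ * γ)) : ℝ) : ℂ) * (T : ℂ)) *
      ∫ q : V × V, A (Sc 1 γ q.1) * B (Sc 1 (κ * γ) q.2) * ∫ s : ℝ,
        ((amG D D.E (s, (p, γ, κ, η), q.1, q.2) : ℝ) : ℂ) *
        ex (T * γ * (s * (D.w ((p, γ, κ, η), q.1) - D.σ ((p, γ, κ, η), q.2) +
          κ * D.g ((p, γ, κ, η), q.1, q.2)))) := by
    unfold FFg
    rw [integral_scale _ 1 γ (κ * γ) one_pos hγ (mul_pos hκ hγ),
      mul_assoc ((((1 * γ) * (1 * (κ * γ)) : ℝ) : ℂ)) (T : ℂ), ← integral_const_mul (T : ℂ)]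
    congr 1
    refine integral_congr_ae (Filter.Eventually.of_forall fun q => ?_)
    simp only [tp]
    by_cases hq : A (Sc 1 γ q.1) = 0
    · rw [hq]; simp
    by_cases hq' : B (Sc 1 (κ * γ) q.2) = 0
    · rw [hq']; simp
    have hin : (((p, γ, κ, η), q.1, q.2) : PP P × V × V) ∈ ball (q0, a0, b0) R := by
      rw [mem_ball, Prod.dist_eq, Prod.dist_eq]
      exact max_lt (hpR R hδ2) (max_lt (hball' _ _ _ _ (hAs' _ hq) R hδ2)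
        (hball' _ _ _ _ (hBs' _ hq') R hδ2))
    have hk := (hball _ hin).1
    have hfac := okG_nf hDk hk hκη
    have m1 := okG_e1 hk 1 ⟨zero_le_one, le_rfl⟩
    have m2 := okG_e2 hk
    have hFg : Fg (fun s => F.ψ (p, s)) (Sc 1 γ q.1, Sc 1 (κ * γ) q.2) =
        γ * (D.E ((p, γ, κ, η), q.1, q.2) * (D.w ((p, γ, κ, η), q.1) -
          D.σ ((p, γ, κ, η), q.2) + κ * D.g ((p, γ, κ, η), q.1, q.2))) := by
      unfold Fg
      beta_reduce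
      rw [← e1_one p γ κ η q.1 q.2, ← e2_zero p γ κ η q.1 q.2, ← hDk.eψ _ m1, ← hDk.eψ _ m2]
      exact hfac
    have hWg : Wg (fun s => F.W (p, s)) (Sc 1 γ q.1, Sc 1 (κ * γ) q.2) =
        D.W (e1 1 (((p, γ, κ, η) : PP P), q.1, q.2)) *
          D.W (e2 0 (((p, γ, κ, η) : PP P), q.1, q.2)) := by
      unfold Wg
      beta_reduce
      rw [hDk.eW _ m1, hDk.eW _ m2, e1_one p γ κ η q.1 q.2, e2_zero p γ κ η q.1 q.2]
    rw [Kt_scale T _ (D.E ((p, γ, κ, η), q.1, q.2))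
      (D.w ((p, γ, κ, η), q.1) - D.σ ((p, γ, κ, η), q.2) +
          κ * D.g ((p, γ, κ, η), q.1, q.2)) hT (hEne' _ hin) γ hFg, hWg]
    have h5 : ∀ s : ℝ, ((amG D D.E (s, (p, γ, κ, η), q.1, q.2) : ℝ) : ℂ) *
        ex (T * γ * (s * (D.w ((p, γ, κ, η), q.1) - D.σ ((p, γ, κ, η), q.2) +
          κ * D.g ((p, γ, κ, η), q.1, q.2)))) =
        ((D.W (e1 1 (((p, γ, κ, η) : PP P), q.1, q.2)) *
          D.W (e2 0 (((p, γ, κ, η) : PP P), q.1, q.2)) : ℝ) : ℂ) *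
        (((chi (s / D.E ((p, γ, κ, η), q.1, q.2)) / |D.E ((p, γ, κ, η), q.1, q.2)| : ℝ) : ℂ) *
        ex (T * γ * (s * (D.w ((p, γ, κ, η), q.1) - D.σ ((p, γ, κ, η), q.2) +
          κ * D.g ((p, γ, κ, η), q.1, q.2))))) := by
      intro s
      unfold amG
      simp only
      rw [Complex.ofReal_mul]
      ring
    simp only [h5]
    rw [integral_const_mul]
    ring
  rw [hid, norm_mul, norm_mul, Complex.norm_real, Complex.norm_real, Real.norm_eq_abs,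
    Real.norm_eq_abs, abs_of_pos hT, abs_of_pos (by positivity)]
  calc 1 * γ * (1 * (κ * γ)) * T * ‖_‖ ≤
      1 * γ * (1 * (κ * γ)) * T * (C / ((T * γ) ^ 2 * κ)) :=
        mul_le_mul_of_nonneg_left hmain (by positivity)
    _ = C / T := by
      field_simp

end fam

end Pool.Agent.SDT.N1G

end -- N1G.La5

section -- N1G.La6

/-!
N1G, L2a: the estimate `mainD`.
-/

namespace Pool.Agent.SDT.N1G

open MeasureTheory Set Metric Filter Topology Pool.Agent.SDT.MP_6cbfb8_an Pool.Agent.SDT.MST Pool.Agent.SDT.N1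
open scoped ENNReal Real ContDiff

/-- Splitting a four-linear form with product density in cells. -/
theorem g_split (B' R' : ℝ) (f w : YX → ℝ) (hadm : Adm B' R' f w) (T : ℝ) (hT : 0 < T)
    (A B : V → ℂ) (hA : Measurable A)
    (hB : Measurable B) (hA1 : ∀ a, ‖A a‖ ≤ 1) (hB1 : ∀ b, ‖B b‖ ≤ 1) (φ ψ : V → ℝ)
    (hφ : Measurable φ) (hψ : Measurable ψ) (R δ K : ℝ) (hδ : 0 < δ) (hK : 0 ≤ K)
    (hAs : ∀ u, A u ≠ 0 → |φ u| ≤ R) (hBs : ∀ v, B v ≠ 0 → |ψ v| ≤ R)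
    (hloc : ∀ A' B' : V → ℂ, Measurable A' → Measurable B' → (∀ a, ‖A' a‖ ≤ 1) →
      (∀ b, ‖B' b‖ ≤ 1) → ∀ u0 v0, A u0 ≠ 0 → B v0 ≠ 0 →
      (∀ u, A' u ≠ 0 → A u ≠ 0 ∧ |φ u - φ u0| ≤ δ) →
      (∀ v, B' v ≠ 0 → B v ≠ 0 ∧ |ψ v - ψ v0| ≤ δ) → ‖FFg f w T (tp A' B')‖ ≤ K) :
    ‖FFg f w T (tp A B)‖ ≤ ((⌊2 * R / δ⌋₊ + 1 : ℕ) : ℝ) ^ 2 * K := by
  set N : ℕ := ⌊2 * R / δ⌋₊ + 1 with hN
  have h1 : tp A B = fun q => ∑ p ∈ Finset.range N ×ˢ Finset.range N,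
      tp (g2_cut φ R δ A p.1) (g2_cut ψ R δ B p.2) q := by
    funext q
    rw [Finset.sum_product]
    unfold tp
    simp only
    rw [← Finset.sum_mul_sum, g2_cut_sum φ R δ hδ A hAs, g2_cut_sum ψ R δ hδ B hBs]
  rw [h1, FFg_sum B' R' f w hadm T hT _ _ (fun p => ?_) 1 (fun p q => ?_)]
  · refine (norm_sum_le _ _).trans ?_
    have h2 : ∀ p ∈ Finset.range N ×ˢ Finset.range N,
        ‖FFg f w T (tp (g2_cut φ R δ A p.1) (g2_cut ψ R δ B p.2))‖ ≤ K := by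
      intro p _
      by_cases hu : ∃ u0, g2_cut φ R δ A p.1 u0 ≠ 0
      · by_cases hv : ∃ v0, g2_cut ψ R δ B p.2 v0 ≠ 0
        · obtain ⟨u0, hu0⟩ := hu
          obtain ⟨v0, hv0⟩ := hv
          have a0 := g2_cut_ne hu0
          have b0 := g2_cut_ne hv0
          refine hloc _ _ (g2_cut_meas hφ R δ hA _) (g2_cut_meas hψ R δ hB _)
            (g2_cut_norm φ R δ hA1 _) (g2_cut_norm ψ R δ hB1 _) u0 v0 a0.2 b0.2 ?_ ?_
          · intro u hu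
            have a1 := g2_cut_ne hu
            exact ⟨a1.2, g2_ix_near hδ (hAs u a1.2) (hAs u0 a0.2) (a1.1.trans a0.1.symm)⟩
          · intro v hv
            have b1 := g2_cut_ne hv
            exact ⟨b1.2, g2_ix_near hδ (hBs v b1.2) (hBs v0 b0.2) (b1.1.trans b0.1.symm)⟩
        · push Not at hv
          have h3 : tp (g2_cut φ R δ A p.1) (g2_cut ψ R δ B p.2) = fun _ => 0 := by
            funext q
            unfold tp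
            rw [hv, mul_zero]
          rw [h3]
          unfold FFg
          simpa using hK
      · push Not at hu
        have h3 : tp (g2_cut φ R δ A p.1) (g2_cut ψ R δ B p.2) = fun _ => 0 := by
          funext q
          unfold tp
          rw [hu, zero_mul]
        rw [h3]
        unfold FFg
        simpa using hK
    refine (Finset.sum_le_sum h2).trans (le_of_eq ?_)
    rw [Finset.sum_const, Finset.card_product, Finset.card_range, nsmul_eq_mul]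
    push_cast
    ring
  · exact ((g2_cut_meas hφ R δ hA _).comp measurable_fst).mul
      ((g2_cut_meas hψ R δ hB _).comp measurable_snd)
  · unfold tp
    rw [norm_mul]
    exact mul_le_one₀ (g2_cut_norm φ R δ hA1 _ _) (norm_nonneg _) (g2_cut_norm ψ R δ hB1 _ _)

/-- The set of points of a box. -/
def BxS (δ : ℝ) (x0 y0 : ℝ × ℝ) : Set YX := {s | Bx δ x0 y0 s}

lemma BxS_eq (δ : ℝ) (x0 y0 : ℝ × ℝ) :
    BxS δ x0 y0 = closedBall ((y0, x0) : YX) δ := by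
  ext s
  rw [mem_closedBall, Prod.dist_eq, Prod.dist_eq, Prod.dist_eq, Real.dist_eq, Real.dist_eq,
    Real.dist_eq, Real.dist_eq, max_le_iff, max_le_iff, max_le_iff]
  unfold BxS Bx
  simp only [mem_ofPred_eq]
  tauto

lemma BxS_compact (δ : ℝ) (x0 y0 : ℝ × ℝ) : IsCompact (BxS δ x0 y0) := by
  rw [BxS_eq]
  exact isCompact_closedBall _ _

open Classical in
/-- Restriction to the box. -/
noncomputable def cutB (δ : ℝ) (x0 y0 : ℝ × ℝ) (f : YX → ℝ) (s : YX) : ℝ :=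
  (BxS δ x0 y0).piecewise f (fun _ => 0) s

lemma cutB_eq (δ : ℝ) (x0 y0 : ℝ × ℝ) (f : YX → ℝ) (s : YX) (h : Bx δ x0 y0 s) :
    cutB δ x0 y0 f s = f s := by
  classical
  unfold cutB
  exact piecewise_eq_of_mem _ _ _ h

lemma cutB_ne (δ : ℝ) (x0 y0 : ℝ × ℝ) (f : YX → ℝ) (s : YX) (h : cutB δ x0 y0 f s ≠ 0) :
    s ∈ BxS δ x0 y0 := by
  classical
  by_contra h1
  apply h
  unfold cutB
  exact piecewise_eq_of_notMem _ _ _ h1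

lemma cutB_meas (δ : ℝ) (x0 y0 : ℝ × ℝ) (f : YX → ℝ) (hf : ContinuousOn f (BxS δ x0 y0)) :
    Measurable (cutB δ x0 y0 f) := by
  classical
  unfold cutB
  exact ContinuousOn.measurable_piecewise hf continuousOn_const
    (BxS_compact δ x0 y0).isClosed.measurableSet

lemma cutB_adm (δ : ℝ) (x0 y0 : ℝ × ℝ) (f w : YX → ℝ) (hf : ContinuousOn f (BxS δ x0 y0))
    (hw : ContinuousOn w (BxS δ x0 y0)) :
    ∃ B R : ℝ, Adm B R (cutB δ x0 y0 f) (cutB δ x0 y0 w) := by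
  obtain ⟨B, hB⟩ := (BxS_compact δ x0 y0).exists_bound_of_continuousOn hw
  obtain ⟨R, hR⟩ := (BxS_compact δ x0 y0).exists_bound_of_continuousOn
    (f := fun s : YX => s) continuousOn_id
  refine ⟨max B 0, R, cutB_meas _ _ _ _ hf, cutB_meas _ _ _ _ hw, ?_, ?_⟩
  · intro s
    by_cases hs : cutB δ x0 y0 w s = 0
    · rw [hs, abs_zero]
      exact le_max_right _ _
    · have h1 := cutB_ne _ _ _ _ _ hs
      rw [cutB_eq _ _ _ _ _ h1]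
      exact (hB s h1).trans (le_max_left _ _)
  · intro s hs
    exact hR s (cutB_ne _ _ _ _ _ hs)

lemma tp_ne {A B : V → ℂ} {q : V × V} (h : tp A B q ≠ 0) : A q.1 ≠ 0 ∧ B q.2 ≠ 0 := by
  unfold tp at h
  exact mul_ne_zero_iff.1 h

/-- The two corners lie in the box. -/
lemma Sp_bx (δ γ d : ℝ) (x0 y0 : ℝ × ℝ) (A B : V → ℂ) (hA : Sp δ y0.1 x0.1 γ A)
    (hB : Sp δ y0.2 x0.2 d B) (q : V × V) (h1 : A q.1 ≠ 0) (h2 : B q.2 ≠ 0) :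
    Bx δ x0 y0 (px q) ∧ Bx δ x0 y0 (pz q) := by
  have a := hA _ h1
  have b := hB _ h2
  exact ⟨⟨a.1, b.1, a.2.1, b.2.1⟩, ⟨a.1, b.1, a.2.2.1, b.2.2.1⟩⟩

section fam

variable {P : Type*} [NormedAddCommGroup P] [NormedSpace ℝ P] [FiniteDimensional ℝ P]
  (F : Fam P) (p0 : P) (x0 y0 : ℝ × ℝ) (r : ℝ)

omit [FiniteDimensional ℝ P] in
lemma fam_cont (h : FamOk F p0 x0 y0 r) (δ : ℝ) (hδ : δ < r) (p : P) (hp : p ∈ ball p0 r) :
    ContinuousOn (fun s => F.ψ (p, s)) (BxS δ x0 y0) ∧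
    ContinuousOn (fun s => F.W (p, s)) (BxS δ x0 y0) := by
  have h1 : MapsTo (fun s : YX => ((p, s) : P × YX)) (BxS δ x0 y0) (ball (p0, (y0, x0)) r) := by
    intro s hs
    rw [BxS_eq, mem_closedBall] at hs
    rw [mem_ball] at hp
    rw [mem_ball, Prod.dist_eq]
    exact max_lt hp (lt_of_le_of_lt hs hδ)
  exact ⟨h.sψ.continuousOn.comp (by fun_prop) h1, h.sW.continuousOn.comp (by fun_prop) h1⟩

theorem mainD (h : FamOk F p0 x0 y0 r) (hD : CaseD F p0 x0 y0) (C5 C7 : ℝ) (hC7 : 1 ≤ C7) :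
    ∃ δ : ℝ, 0 < δ ∧ ∃ C : ℝ, 0 ≤ C ∧ ∀ p ∈ ball p0 δ, 0 ≤ F.μ p → ∀ φ w : YX → ℝ,
    Agr F p x0 y0 δ φ w → ∀ T κ γ d : ℝ, 0 < T → 0 < κ → κ ≤ δ → 0 < γ → γ ≤ 2 * δ → 0 < d →
    F.μ p * γ ≤ C5 * κ → κ * γ ≤ C7 * d → d ≤ C7 * (κ * γ) → ∀ A₁ A₂ : V → ℂ, Measurable A₁ →
      Measurable A₂ → (∀ u, ‖A₁ u‖ ≤ 1) → (∀ u, ‖A₂ u‖ ≤ 1) → Sp δ y0.1 x0.1 γ A₁ →
      Sp δ y0.2 x0.2 d A₂ → ‖FFg φ w T (tp A₁ A₂)‖ ≤ C / T := by
  have hC0 : 0 < C7 := by linarith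
  have key : ∃ δ : ℝ, 0 < δ ∧ ∃ C : ℝ, 0 ≤ C ∧ ∀ z0 ∈ g2_Z (2 * C7),
      ∀ p ∈ ball p0 δ, 0 ≤ F.μ p → ∀ T γ κ : ℝ, 0 < T →
      0 < γ → γ < δ → 0 < κ → κ < δ → F.μ p * γ ≤ C5 * κ →
      ∀ A B : V → ℂ, Measurable A → Measurable B → (∀ a, ‖A a‖ ≤ 1) → (∀ b, ‖B b‖ ≤ 1) →
      (∀ u, A u ≠ 0 → |u.1 - y0.1| ≤ δ ∧ |u.2.1 - x0.1| ≤ δ ∧ |u.2.2 / γ - z0.1| ≤ δ) →
      (∀ v, B v ≠ 0 → |v.1 - y0.2| ≤ δ ∧ |v.2.1 - x0.2| ≤ δ ∧ |v.2.2 / (κ * γ) - z0.2| ≤ δ) →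
      ‖FFg (fun s => F.ψ (p, s)) (fun s => F.W (p, s)) T (tp A B)‖ ≤ C / T := by
    refine g2_unif (g2_Z_compact (2 * C7)) (fun z0 δ C =>
      ∀ p ∈ ball p0 δ, 0 ≤ F.μ p → ∀ T γ κ : ℝ, 0 < T →
      0 < γ → γ < δ → 0 < κ → κ < δ → F.μ p * γ ≤ C5 * κ →
      ∀ A B : V → ℂ, Measurable A → Measurable B → (∀ a, ‖A a‖ ≤ 1) → (∀ b, ‖B b‖ ≤ 1) →
      (∀ u, A u ≠ 0 → |u.1 - y0.1| ≤ δ ∧ |u.2.1 - x0.1| ≤ δ ∧ |u.2.2 / γ - z0.1| ≤ δ) →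
      (∀ v, B v ≠ 0 → |v.1 - y0.2| ≤ δ ∧ |v.2.1 - x0.2| ≤ δ ∧ |v.2.2 / (κ * γ) - z0.2| ≤ δ) →
      ‖FFg (fun s => F.ψ (p, s)) (fun s => F.W (p, s)) T (tp A B)‖ ≤ C / T) ?_ ?_ ?_
    · intro z0 δ δ' C C' hδ' hδδ hCC h p hp hμ T γ κ hT hγ hγδ hκ hκδ hγκ A B hA hB hA1 hB1 hAs hBs
      refine (h p (ball_subset_ball hδδ hp) hμ T γ κ hT hγ (hγδ.trans_le hδδ) hκ
        (hκδ.trans_le hδδ) hγκ A B hA hB hA1 hB1 ?_ ?_).trans ?_
      · intro u hu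
        have h2 := hAs u hu
        exact ⟨h2.1.trans hδδ, h2.2.1.trans hδδ, h2.2.2.trans hδδ⟩
      · intro v hv
        have h2 := hBs v hv
        exact ⟨h2.1.trans hδδ, h2.2.1.trans hδδ, h2.2.2.trans hδδ⟩
      · gcongr
    · rintro z0 ⟨⟨h1, -⟩, h2, -⟩
      have h3 : 0 < 1 / (2 * C7) := by positivity
      exact cellD F p0 x0 y0 r h hD C5 z0.1 z0.2 (abs_pos.1 (h3.trans_le h1))
        (abs_pos.1 (h3.trans_le h2))
    · intro z0 z0' δ C hδ hd h p hp hμ T γ κ hT hγ hγδ hκ hκδ hγκ A B hA hB hA1 hB1 hAs hBs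
      rw [Prod.dist_eq, max_le_iff, Real.dist_eq, Real.dist_eq] at hd
      refine h p (ball_subset_ball (by linarith) hp) hμ T γ κ hT hγ (by linarith) hκ
        (by linarith) hγκ A B hA hB hA1 hB1 ?_ ?_
      · intro u hu
        have h2 := hAs u hu
        refine ⟨by linarith, by linarith, ?_⟩
        have h4 := abs_sub_le (u.2.2 / γ) z0'.1 z0.1
        linarith
      · intro v hv
        have h2 := hBs v hv
        refine ⟨by linarith, by linarith, ?_⟩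
        have h4 := abs_sub_le (v.2.2 / (κ * γ)) z0'.2 z0.2
        linarith
  obtain ⟨δ, hδ, C, hC, hk⟩ := key
  have hr := h.hr
  set δ' := min (δ / 4) (r / 2) with hδ'
  have hδ'p : 0 < δ' := lt_min (by linarith) (by linarith)
  have hδ1 : δ' ≤ δ / 4 := min_le_left _ _
  have hδ2 : δ' ≤ r / 2 := min_le_right _ _
  refine ⟨δ', hδ'p, ((⌊2 * (2 * C7) / δ⌋₊ + 1 : ℕ) : ℝ) ^ 2 * C, by positivity, ?_⟩
  intro p hp hμ φ w hagr T κ γ d hT hκ hκδ hγ hγδ hd hμγ hd1 hd2 A₁ A₂ hA₁ hA₂ hb1 hb2 hs1 hs2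
  have hcont := fam_cont F p0 x0 y0 r h δ' (by linarith) p
    (ball_subset_ball (by linarith) hp)
  obtain ⟨B, R, hadm⟩ := cutB_adm δ' x0 y0 _ _ hcont.1 hcont.2
  have hκγ : 0 < κ * γ := mul_pos hκ hγ
  rw [FFg_congr φ w (cutB δ' x0 y0 (fun s => F.ψ (p, s))) (cutB δ' x0 y0 (fun s => F.W (p, s)))
    T (tp A₁ A₂) (fun q hq => by
      obtain ⟨h1, h2⟩ := tp_ne hq
      obtain ⟨g1, g2⟩ := Sp_bx δ' γ d x0 y0 A₁ A₂ hs1 hs2 q h1 h2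
      rw [cutB_eq _ _ _ _ _ g1, cutB_eq _ _ _ _ _ g2, cutB_eq _ _ _ _ _ g1,
        cutB_eq _ _ _ _ _ g2]
      exact ⟨(hagr _ g1).1, (hagr _ g2).1, (hagr _ g1).2, (hagr _ g2).2⟩)]
  have hz1 : ∀ u, A₁ u ≠ 0 → 1 / (2 * C7) ≤ |u.2.2 / γ| ∧ |u.2.2 / γ| ≤ 2 * C7 := by
    intro u hu
    have h1 := hs1 u hu
    rw [abs_div, abs_of_pos hγ, le_div_iff₀ hγ, div_le_iff₀ hγ]
    constructor
    · refine le_trans ?_ h1.2.2.2.1.le
      rw [div_mul_eq_mul_div, div_le_iff₀ (by positivity)]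
      nlinarith
    · refine h1.2.2.2.2.trans ?_
      nlinarith
  have hz2 : ∀ v, A₂ v ≠ 0 → 1 / (2 * C7) ≤ |v.2.2 / (κ * γ)| ∧
      |v.2.2 / (κ * γ)| ≤ 2 * C7 := by
    intro v hv
    have h1 := hs2 v hv
    rw [abs_div, abs_of_pos hκγ, le_div_iff₀ hκγ, div_le_iff₀ hκγ]
    constructor
    · refine le_trans ?_ h1.2.2.2.1.le
      rw [div_mul_eq_mul_div, div_le_iff₀ (by positivity)]
      nlinarith
    · refine h1.2.2.2.2.trans (hd2.trans ?_)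
      nlinarith
  rw [mul_div_assoc]
  refine g_split B R _ _ hadm T hT A₁ A₂ hA₁ hA₂ hb1 hb2 (fun u => u.2.2 / γ)
    (fun v => v.2.2 / (κ * γ))
    (by fun_prop) (by fun_prop) (2 * C7) δ (C / T) hδ (by positivity) (fun u hu => (hz1 u hu).2)
    (fun v hv => (hz2 v hv).2) ?_
  intro A' B' hA' hB' hA1' hB1' u0 v0 hu0 hv0 hAs' hBs'
  rw [← FFg_congr (fun s => F.ψ (p, s)) (fun s => F.W (p, s))
    (cutB δ' x0 y0 (fun s => F.ψ (p, s))) (cutB δ' x0 y0 (fun s => F.W (p, s)))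
    T (tp A' B') (fun q hq => by
      obtain ⟨h1, h2⟩ := tp_ne hq
      obtain ⟨g1, g2⟩ := Sp_bx δ' γ d x0 y0 A₁ A₂ hs1 hs2 q (hAs' _ h1).1 (hBs' _ h2).1
      rw [cutB_eq _ _ _ _ _ g1, cutB_eq _ _ _ _ _ g2, cutB_eq _ _ _ _ _ g1,
        cutB_eq _ _ _ _ _ g2]
      exact ⟨rfl, rfl, rfl, rfl⟩)]
  refine hk (u0.2.2 / γ, v0.2.2 / (κ * γ)) ⟨hz1 u0 hu0, hz2 v0 hv0⟩ p
    (ball_subset_ball (by linarith) hp) hμ T γ κ hT hγ (by linarith) hκ (by linarith) hμγ A' B'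
    hA' hB' hA1' hB1' ?_ ?_
  · intro u hu
    have h1 := hAs' u hu
    have h2 := hs1 u h1.1
    exact ⟨by linarith [h2.1], by linarith [h2.2.1], h1.2⟩
  · intro v hv
    have h1 := hBs' v hv
    have h2 := hs2 v h1.1
    exact ⟨by linarith [h2.1], by linarith [h2.2.1], h1.2⟩

end fam

end Pool.Agent.SDT.N1G

end -- N1G.La6
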