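import Pool.Agent.SDT.B49

set_option autoImplicit false

namespace Pool.Agent.SDT.MP_6cbfb8_an
end Pool.Agent.SDT.MP_6cbfb8_an
namespace Pool.Agent.SDT.MST
end Pool.Agent.SDT.MST
namespace Pool.Agent.SDT.N1
end Pool.Agent.SDT.N1
namespace Pool.Agent.SDT.N1F
end Pool.Agent.SDT.N1F
namespace Pool.Agent.SDT.N1G
end Pool.Agent.SDT.N1G

section -- N1M.PE

/-!
N1M, block M4, type N': E4PD.
-/

namespace Pool.Agent.SDT.N1M

open MeasureTheory Set Metric Pool.Agent.SDT.MP_6cbfb8_an Pool.Agent.SDT.MST Pool.Agent.SDT.N1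
open Pool.Agent.SDT.N1F Pool.Agent.SDT.N1G
open scoped ENNReal Real ContDiff

/-- The second separated function as a function of all parameters. -/
noncomputable def cG (p : PB) : ℝ :=
  p.2.2.2.1.2 * (2 * p.2.2.2.2.2 - p.2.2.1 * p.2.2.2.1.2) / (cS1 p * (cS1 p + cS2 p))

theorem cG_pS (m al ρ : ℝ) (s : YX) : cG (pS m al ρ s) = sgP m al ρ (s.1.2, s.2.2) := rfl

theorem cG_smooth (m0 : ℝ) (x0 y0 : ℝ × ℝ) : ContDiffAt ℝ 1 cG (p0C m0 x0 y0) := by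
  have h1 : ContDiffAt ℝ 1 cS1 (p0C m0 x0 y0) := by
    unfold cS1
    refine ContDiffAt.sqrt (by fun_prop) ?_
    simp [p0C]
  have h2 : ContDiffAt ℝ 1 cS2 (p0C m0 x0 y0) := by
    unfold cS2
    refine ContDiffAt.sqrt (by fun_prop) ?_
    simp [p0C]
  unfold cG
  refine ContDiffAt.div (by fun_prop) (h1.mul (h1.add h2)) ?_
  rw [base_cS1, base_cS2]
  norm_num

/-- `sg` is Lipschitz in the coordinate `a`. -/
theorem c_lip (m0 : ℝ) (x0 y0 : ℝ × ℝ) : ∃ K δ : ℝ, 0 ≤ K ∧ 0 < δ ∧ δ ≤ 1 ∧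
    ∀ al m ρ : ℝ, Sm al m m0 δ → 0 < ρ → ρ < δ → ∀ s s' : YX, Bx δ x0.swap y0.swap s →
      Bx δ x0.swap y0.swap s' → s.1 = s'.1 →
      |sgP m al ρ (s.1.2, s.2.2) - sgP m al ρ (s'.1.2, s'.2.2)| ≤ K * |s.2.2 - s'.2.2| := by
  obtain ⟨K, t, ht, hK⟩ := (cG_smooth m0 x0 y0).exists_lipschitzOnWith
  obtain ⟨d, hd, hball⟩ := Metric.mem_nhds_iff.1 ht
  refine ⟨K, min (d / 3) 1, K.2, by positivity, min_le_right _ _, ?_⟩
  intro al m ρ hs hρ hρδ s s' hq hq' hss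
  obtain ⟨s1, s2, s3, s4, s5⟩ := hs
  have hd1 := min_le_left (d / 3) 1
  have hd2 := min_le_right (d / 3) 1
  have hal : al ^ 2 ≤ d / 3 := by
    have : al ^ 2 ≤ al := by nlinarith
    linarith
  have key : ∀ s : YX, Bx (min (d / 3) 1) x0.swap y0.swap s → pS m al ρ s ∈ t := by
    intro s hq
    obtain ⟨n1, n2, n3, n4⟩ := hq
    apply hball
    rw [mem_ball]
    unfold pS N1F.pB p0C
    rw [Prod.dist_eq, Prod.dist_eq, Prod.dist_eq, Prod.dist_eq, Prod.dist_eq, Prod.dist_eq]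
    simp only [Real.dist_eq]
    refine max_lt ?_ (max_lt ?_ (max_lt ?_ (max_lt (max_lt ?_ ?_) (max_lt ?_ ?_))))
    · rw [sub_zero, abs_of_nonneg (sq_nonneg al)]
      linarith
    · linarith
    · rw [sub_zero, abs_of_pos hρ]
      linarith
    · linarith
    · linarith
    · linarith
    · linarith
  -- move the first coordinate of the point
  obtain ⟨s'', hs''⟩ : ∃ s'' : YX, s'' = (s.1, (s.2.1, s'.2.2)) := ⟨_, rfl⟩
  have hq'' : Bx (min (d / 3) 1) x0.swap y0.swap s'' := by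
    rw [hs'']
    obtain ⟨n1, n2, n3, n4⟩ := hq
    obtain ⟨m1, m2, m3, m4⟩ := hq'
    exact ⟨n1, n2, n3, m4⟩
  have h1 := hK.dist_le_mul _ (key s hq) _ (key s'' hq'')
  have e1 : dist (pS m al ρ s) (pS m al ρ s'') = |s.2.2 - s'.2.2| := by
    rw [hs'']
    unfold pS N1F.pB
    rw [Prod.dist_eq, Prod.dist_eq, Prod.dist_eq, Prod.dist_eq, Prod.dist_eq, Prod.dist_eq]
    simp only [dist_self, Real.dist_eq]
    simp
  rw [e1, Real.dist_eq, cG_pS, cG_pS] at h1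
  rw [hs''] at h1
  rw [← hss]
  exact h1

/-- `β` between `1 / 4` and `5 / 4`. -/
theorem c_beta {m0 : ℝ} {x0 y0 : ℝ × ℝ} (hb : Bm m0 x0) : ∃ δ : ℝ, 0 < δ ∧ δ ≤ 1 ∧
    ∀ al m ρ : ℝ, Sm al m m0 δ → 0 < ρ → ρ < δ → ∀ s, Bx δ x0.swap y0.swap s →
      1 / 4 ≤ bm m s.2.1 ∧ bm m s.2.1 ≤ 5 / 4 := by
  obtain ⟨δ, h1, h2, h3⟩ := near_B m0 x0 y0 cb1 (cont_cb1 _) (show (0:ℝ) < 1 / 4 by norm_num)
  refine ⟨δ, h1, h2, fun al m ρ hs hρ hρδ s h => ?_⟩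
  have h4 := abs_lt.1 (h3 al m ρ hs hρ hρδ s h)
  rw [base_cb1] at h4
  change -(1 / 4) < bm m s.2.1 - bm m0 x0.2 ∧ bm m s.2.1 - bm m0 x0.2 < 1 / 4 at h4
  obtain ⟨k1, k2, k3, k4, k5, k6, k7⟩ := hb
  have h5 : bm m0 x0.2 ≤ 1 := by
    unfold bm
    have : 0 ≤ m0 * x0.2 := by positivity
    linarith
  constructor <;> linarith [h4.1, h4.2]

theorem E4PD (c : ℝ) (hc : 0 < c) (hc1 : c ≤ 1) (m0 : ℝ) (x0 y0 : ℝ × ℝ) (hb : Bm m0 x0)
    (hy1 : y0.1 ≠ 0) (hy2 : y0.2 ≠ 0) (n0 : nn (omP m0) (sgP m0 0 0) (y0.swap, x0.swap) = 0) :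
    ∃ C0 C3 C4 c1 δ0 : ℝ, 0 < C0 ∧ 0 ≤ C3 ∧ 1 ≤ C4 ∧ 0 < c1 ∧ 0 < δ0 ∧ δ0 ≤ 1 ∧
    ∀ η : ℝ, 0 < η → ∃ δ1 : ℝ, 0 < δ1 ∧ ∀ δ : ℝ, 0 < δ → δ ≤ δ0 → ∀ al m ρ : ℝ,
    Sm al m m0 (min δ0 δ1) → 0 < ρ → ρ < min δ0 δ1 →
    (δ ≤ δ1 → ∀ s, Bx δ x0.swap y0.swap s → |nn (omP m) (sgP m al ρ) s| ≤ η) ∧
    (∀ q, NbG δ x0.swap y0.swap q → m * |q.1.2.2| ≤
      C0 * (|nn (omP m) (sgP m al ρ) (px q)| + |nn (omP m) (sgP m al ρ) (pz q)| + |q.2.2.2|)) ∧
    (∀ κ q, 0 < κ → NbG δ x0.swap y0.swap q → |nn (omP m) (sgP m al ρ) (px q)| ≤ 2 * κ →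
      |nn (omP m) (sgP m al ρ) (pz q)| ≤ 2 * κ → C4 * κ * |q.1.2.2| ≤ |q.2.2.2| →
      c1 * |q.2.2.2| ≤ |Fg (phP c m al ρ) q|) ∧
    (∀ κ q, 0 < κ → NbG δ x0.swap y0.swap q →
      ((κ / 2 ≤ nn (omP m) (sgP m al ρ) (px q) ∧ κ / 2 ≤ nn (omP m) (sgP m al ρ) (pz q)) ∨
        (nn (omP m) (sgP m al ρ) (px q) ≤ -(κ / 2) ∧
          nn (omP m) (sgP m al ρ) (pz q) ≤ -(κ / 2))) →
      C4 * |q.2.2.2| ≤ κ * |q.1.2.2| →
      c1 * (κ * |q.1.2.2|) ≤ |Fg (phP c m al ρ) q|) ∧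
    (∀ κ γ d : ℝ, 0 < κ → 0 < γ → 0 < d → volume {q : V × V | NbG δ x0.swap y0.swap q ∧
      |nn (omP m) (sgP m al ρ) (px q)| ≤ 2 * κ ∧ |q.1.2.2| ≤ γ ∧ |q.2.2.2| ≤ d} ≤
      ENNReal.ofReal (C3 * κ * γ * d)) := by
  obtain ⟨l, Λ, δk, hl, hlΛ, hδk, hδk1, key⟩ := c_key hc hc1 hb hy1
  obtain ⟨K, δl, hK, hδl, hδl1, lip⟩ := c_lip m0 x0 y0
  obtain ⟨δb, hδb, hδb1, beta⟩ := c_beta (y0 := y0) hb
  have hΛ : 0 < Λ := hl.trans_le hlΛ
  have hy0 : 0 < |y0.2| := abs_pos.2 hy2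
  obtain ⟨C0, hC0⟩ : ∃ C0 : ℝ, C0 = 4 * (1 + K) / |y0.2| := ⟨_, rfl⟩
  have hC0p : 0 < C0 := by
    rw [hC0]
    positivity
  -- constant of the bound `|n (u)| ≤ C2 (κ + |z₂|)`
  obtain ⟨C2, hC2⟩ : ∃ C2 : ℝ, C2 = 2 + 4 * (32 * (1 + |y0.2|) * C0) + K := ⟨_, rfl⟩
  have hC2p : 0 < C2 := by
    rw [hC2]
    positivity
  obtain ⟨δ0, hδ0⟩ : ∃ δ0 : ℝ, δ0 = min (min δk (min δl δb))
      (min (|y0.2| / 2) (min 1 (l / (4 * (Λ * C2))))) := ⟨_, rfl⟩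
  have hδ0p : 0 < δ0 := by
    rw [hδ0]
    positivity
  have mm : δ0 ≤ δk ∧ δ0 ≤ δl ∧ δ0 ≤ δb ∧ δ0 ≤ |y0.2| / 2 ∧ δ0 ≤ 1 ∧
      δ0 ≤ l / (4 * (Λ * C2)) := by
    rw [hδ0]
    simp only [min_le_iff, le_refl, true_or, or_true, and_self]
  obtain ⟨mk, ml, mb, my, m1, mc⟩ := mm
  refine ⟨C0, 640, 1 + 4 * Λ * C2 / l + 4 * K + 8 * Λ / l, min (l / 2) (l / 8), δ0, hC0p,
    by norm_num, ?_, by positivity, hδ0p, m1, ?_⟩
  · have : 0 ≤ 4 * Λ * C2 / l + 4 * K + 8 * Λ / l := by positivity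
    linarith
  intro η hη
  obtain ⟨δ1, hδ1, hδ11, near⟩ := c_near (y0 := y0) hb hη
  refine ⟨δ1, hδ1, fun δ hδ hδδ0 al m ρ hs hρ hρδ => ?_⟩
  have hm0 : 0 ≤ m := hs.2.2.1
  have hm1 : m ≤ 1 := hs.2.2.2.1
  have hs0 : Sm al m m0 δ0 := Sm_mono (min_le_left _ _) hs
  have hρ0 : ρ < δ0 := hρδ.trans_le (min_le_left _ _)
  -- facts on the box
  have BB : ∀ s, Bx δ x0.swap y0.swap s → 1 / 4 ≤ bm m s.2.1 ∧ bm m s.2.1 ≤ 5 / 4 := fun s h =>
    beta al m ρ (Sm_mono mb hs0) hρ (hρ0.trans_le mb) s (Bx_mono' (hδδ0.trans mb) h)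
  have LL : ∀ s s' : YX, Bx δ x0.swap y0.swap s → Bx δ x0.swap y0.swap s' → s.1 = s'.1 →
      |sgP m al ρ (s.1.2, s.2.2) - sgP m al ρ (s'.1.2, s'.2.2)| ≤ K * |s.2.2 - s'.2.2| :=
    fun s s' h h' e => lip al m ρ (Sm_mono ml hs0) hρ (hρ0.trans_le ml) s s'
      (Bx_mono' (hδδ0.trans ml) h) (Bx_mono' (hδδ0.trans ml) h') e
  have YY : ∀ s, Bx δ x0.swap y0.swap s → |y0.2| / 2 ≤ |s.1.1| ∧ |s.1.1| ≤ 2 * |y0.2| := by
    intro s h
    have h1 : |s.1.1 - y0.2| ≤ δ := h.1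
    have h2 := abs_sub_abs_le_abs_sub s.1.1 y0.2
    have h3 := abs_sub_abs_le_abs_sub y0.2 s.1.1
    rw [abs_sub_comm] at h3
    constructor <;> linarith
  -- `n` at the intermediate points
  have nU : ∀ (q : V × V) (u : ℝ), nn (omP m) (sgP m al ρ) (sU q u) =
      q.1.1 / bm m (q.1.2.1 - u * q.1.2.2) - sgP m al ρ (q.2.1, q.2.2.1 - u * q.2.2.2) :=
    fun q u => rfl
  have nX : ∀ (q : V × V), nn (omP m) (sgP m al ρ) (px q) =
      q.1.1 / bm m q.1.2.1 - sgP m al ρ (q.2.1, q.2.2.1) := fun q => rfl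
  have nZ : ∀ (q : V × V), nn (omP m) (sgP m al ρ) (pz q) =
      q.1.1 / bm m (q.1.2.1 - q.1.2.2) - sgP m al ρ (q.2.1, q.2.2.1 - q.2.2.2) := fun q => rfl
  -- second conclusion
  have two : ∀ q, NbG δ x0.swap y0.swap q → m * |q.1.2.2| ≤
      C0 * (|nn (omP m) (sgP m al ρ) (px q)| + |nn (omP m) (sgP m al ρ) (pz q)| +
        |q.2.2.2|) := by
    intro q hq
    have b1 := BB _ hq.1
    have b2 := BB _ hq.2.1
    have l1 := LL _ _ hq.1 hq.2.1 rfl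
    have y1 := (YY _ hq.1).1
    change 1 / 4 ≤ bm m q.1.2.1 ∧ bm m q.1.2.1 ≤ 5 / 4 at b1
    change 1 / 4 ≤ bm m (q.1.2.1 - q.1.2.2) ∧ bm m (q.1.2.1 - q.1.2.2) ≤ 5 / 4 at b2
    change |sgP m al ρ (q.2.1, q.2.2.1) - sgP m al ρ (q.2.1, q.2.2.1 - q.2.2.2)| ≤
      K * |q.2.2.1 - (q.2.2.1 - q.2.2.2)| at l1
    change |y0.2| / 2 ≤ |q.1.1| at y1
    rw [sub_sub_cancel] at l1
    rw [nX, nZ]
    have hbb : bm m (q.1.2.1 - q.1.2.2) = bm m q.1.2.1 + m * q.1.2.2 := by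
      unfold bm
      ring
    have p1 : 0 < bm m q.1.2.1 := by linarith [b1.1]
    have p2 : 0 < bm m (q.1.2.1 - q.1.2.2) := by linarith [b2.1]
    have hdiff : q.1.1 * (m * q.1.2.2) = (bm m q.1.2.1 * bm m (q.1.2.1 - q.1.2.2)) *
        (q.1.1 / bm m q.1.2.1 - q.1.1 / bm m (q.1.2.1 - q.1.2.2)) := by
      field_simp
      rw [hbb]
      ring
    generalize q.1.1 / bm m q.1.2.1 = A1 at *
    generalize q.1.1 / bm m (q.1.2.1 - q.1.2.2) = A2 at *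
    generalize sgP m al ρ (q.2.1, q.2.2.1) = G1 at *
    generalize sgP m al ρ (q.2.1, q.2.2.1 - q.2.2.2) = G2 at *
    have h1 : |A1 - A2| ≤ |A1 - G1| + |A2 - G2| + K * |q.2.2.2| := by
      have e : A1 - A2 = (A1 - G1) + (G1 - G2) - (A2 - G2) := by ring
      rw [e]
      refine (abs_sub _ _).trans ?_
      have := abs_add_le (A1 - G1) (G1 - G2)
      linarith
    have h2 : |q.1.1| * (m * |q.1.2.2|) ≤ 2 * |A1 - A2| := by
      have e : |q.1.1| * (m * |q.1.2.2|) = |q.1.1 * (m * q.1.2.2)| := by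
        rw [abs_mul, abs_mul, abs_of_nonneg hm0]
      rw [e, hdiff, abs_mul]
      refine mul_le_mul_of_nonneg_right ?_ (abs_nonneg _)
      rw [abs_of_pos (mul_pos p1 p2)]
      nlinarith [b1.1, b1.2, b2.1, b2.2]
    have h3 : |y0.2| / 2 * (m * |q.1.2.2|) ≤ 2 * |A1 - A2| :=
      (mul_le_mul_of_nonneg_right y1 (by positivity)).trans h2
    have h4 : m * |q.1.2.2| ≤ 4 / |y0.2| * |A1 - A2| := by
      rw [div_mul_eq_mul_div, le_div_iff₀ hy0]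
      linarith
    refine h4.trans ?_
    rw [hC0]
    have h5 : |A1 - A2| ≤ (1 + K) * (|A1 - G1| + |A2 - G2| + |q.2.2.2|) := by
      have i1 := abs_nonneg (A1 - G1)
      have i2 := abs_nonneg (A2 - G2)
      have i3 := abs_nonneg q.2.2.2
      nlinarith [mul_nonneg hK i1, mul_nonneg hK i2]
    calc 4 / |y0.2| * |A1 - A2| ≤ 4 / |y0.2| *
          ((1 + K) * (|A1 - G1| + |A2 - G2| + |q.2.2.2|)) :=
          mul_le_mul_of_nonneg_left h5 (by positivity)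
      _ = _ := by ring
  refine ⟨?_, two, ?_, ?_, ?_⟩
  · -- first
    intro hδ1' s hsB
    have := near al m ρ (Sm_mono (min_le_right _ _) hs) hρ (hρδ.trans_le (min_le_right _ _)) s
      (Bx_mono' hδ1' hsB)
    rw [n0, sub_zero] at this
    exact this.le
  · -- third
    intro κ q hκ hq hn1 hn2 hC
    obtain ⟨u, hu, L, M, hL1, hL2, hM1, hM2, hF⟩ := key al m ρ (Sm_mono mk hs0) hρ
      (hρ0.trans_le mk) q (NbG_mono' (hδδ0.trans mk) hq)
    have hz1 : |q.1.2.2| ≤ δ0 := hq.2.2.1.trans hδδ0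
    have hz2 : |q.2.2.2| ≤ δ0 := hq.2.2.2.trans hδδ0
    have b1 := BB _ hq.1
    have b2 := BB _ (NbG_seg hq hu)
    have l1 := LL _ _ (NbG_seg hq hu) hq.1 rfl
    have y1 := (YY _ hq.1).2
    have t2 := two q hq
    change 1 / 4 ≤ bm m q.1.2.1 ∧ bm m q.1.2.1 ≤ 5 / 4 at b1
    change 1 / 4 ≤ bm m (q.1.2.1 - u * q.1.2.2) ∧ bm m (q.1.2.1 - u * q.1.2.2) ≤ 5 / 4 at b2
    change |sgP m al ρ (q.2.1, q.2.2.1 - u * q.2.2.2) - sgP m al ρ (q.2.1, q.2.2.1)| ≤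
      K * |q.2.2.1 - u * q.2.2.2 - q.2.2.1| at l1
    change |q.1.1| ≤ 2 * |y0.2| at y1
    have hbb : bm m (q.1.2.1 - u * q.1.2.2) = bm m q.1.2.1 + m * (u * q.1.2.2) := by
      unfold bm
      ring
    have p1 : 0 < bm m q.1.2.1 := by linarith [b1.1]
    have p2 : 0 < bm m (q.1.2.1 - u * q.1.2.2) := by linarith [b2.1]
    have hdiff : q.1.1 / bm m q.1.2.1 - q.1.1 / bm m (q.1.2.1 - u * q.1.2.2) =
        q.1.1 * (m * (u * q.1.2.2)) / (bm m q.1.2.1 * bm m (q.1.2.1 - u * q.1.2.2)) := by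
      field_simp
      rw [hbb]
      ring
    have hd2 : |q.1.1 / bm m q.1.2.1 - q.1.1 / bm m (q.1.2.1 - u * q.1.2.2)| ≤
        32 * |y0.2| * (m * |q.1.2.2|) := by
      rw [hdiff, abs_div, abs_of_pos (mul_pos p1 p2), div_le_iff₀ (mul_pos p1 p2)]
      have e1 : |q.1.1 * (m * (u * q.1.2.2))| ≤ 2 * |y0.2| * (m * |q.1.2.2|) := by
        rw [abs_mul, abs_mul, abs_mul, abs_of_nonneg hm0, abs_of_nonneg hu.1]
        refine mul_le_mul y1 ?_ (by have := hu.1; positivity) (by positivity)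
        exact mul_le_mul_of_nonneg_left (mul_le_of_le_one_left (abs_nonneg _) hu.2) hm0
      have e2 : 1 / 16 ≤ bm m q.1.2.1 * bm m (q.1.2.1 - u * q.1.2.2) := by
        nlinarith [b1.1, b2.1]
      have e3 : 0 ≤ 2 * |y0.2| * (m * |q.1.2.2|) := by positivity
      calc |q.1.1 * (m * (u * q.1.2.2))| ≤ 2 * |y0.2| * (m * |q.1.2.2|) := e1
        _ = 32 * |y0.2| * (m * |q.1.2.2|) * (1 / 16) := by ring
        _ ≤ _ := mul_le_mul_of_nonneg_left e2 (by positivity)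
    have hz2u : |q.2.2.1 - u * q.2.2.2 - q.2.2.1| ≤ |q.2.2.2| := by
      have : q.2.2.1 - u * q.2.2.2 - q.2.2.1 = -(u * q.2.2.2) := by ring
      rw [this, abs_neg, abs_mul, abs_of_nonneg hu.1]
      exact mul_le_of_le_one_left (abs_nonneg _) hu.2
    have hnU : |nn (omP m) (sgP m al ρ) (sU q u)| ≤ C2 * (κ + |q.2.2.2|) := by
      have i2 : m * |q.1.2.2| ≤ C0 * (4 * κ + |q.2.2.2|) :=
        t2.trans (mul_le_mul_of_nonneg_left (by linarith) hC0p.le)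
      clear t2
      rw [nU]
      rw [nX] at hn1
      generalize q.1.1 / bm m q.1.2.1 = A1 at *
      generalize q.1.1 / bm m (q.1.2.1 - u * q.1.2.2) = A2 at *
      generalize sgP m al ρ (q.2.1, q.2.2.1) = G1 at *
      generalize sgP m al ρ (q.2.1, q.2.2.1 - u * q.2.2.2) = G2 at *
      have i1 : |A2 - G2| ≤ |A1 - G1| + |A1 - A2| + |G2 - G1| := by
        have e : A2 - G2 = (A1 - G1) - (A1 - A2) - (G2 - G1) := by ring
        rw [e]
        refine (abs_sub _ _).trans ?_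
        have := abs_sub (A1 - G1) (A1 - A2)
        linarith
      have i3 : |G2 - G1| ≤ K * |q.2.2.2| := l1.trans (mul_le_mul_of_nonneg_left hz2u hK)
      have i4 : 32 * |y0.2| * (m * |q.1.2.2|) ≤ 32 * (1 + |y0.2|) * (C0 * (4 * κ + |q.2.2.2|)) := by
        have : 32 * |y0.2| ≤ 32 * (1 + |y0.2|) := by linarith
        exact mul_le_mul this i2 (by positivity) (by positivity)
      have i5 : 0 ≤ 32 * (1 + |y0.2|) * C0 := by positivity
      have i6 := abs_nonneg q.2.2.2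
      rw [hC2]
      have i7 : 32 * (1 + |y0.2|) * (C0 * (4 * κ + |q.2.2.2|)) =
          4 * (32 * (1 + |y0.2|) * C0) * κ + (32 * (1 + |y0.2|) * C0) * |q.2.2.2| := by ring
      have i8 : (2 + 4 * (32 * (1 + |y0.2|) * C0) + K) * (κ + |q.2.2.2|) =
          2 * κ + 2 * |q.2.2.2| + 4 * (32 * (1 + |y0.2|) * C0) * κ +
            4 * ((32 * (1 + |y0.2|) * C0) * |q.2.2.2|) + K * κ + K * |q.2.2.2| := by ring
      have i9 : 0 ≤ (32 * (1 + |y0.2|) * C0) * |q.2.2.2| := by positivity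
      have i10 : 0 ≤ K * κ := by positivity
      linarith
    rw [hF, abs_neg]
    generalize nn (omP m) (sgP m al ρ) (sU q u) = n at hnU ⊢
    have z10 := abs_nonneg q.1.2.2
    have z20 := abs_nonneg q.2.2.2
    have a1 : l * |q.2.2.2| ≤ |M * q.2.2.2| := by
      rw [abs_mul]
      exact mul_le_mul_of_nonneg_right hM1 z20
    have a2 : |L * n * q.1.2.2| ≤ Λ * (C2 * (κ + |q.2.2.2|)) * |q.1.2.2| := by
      rw [abs_mul, abs_mul, abs_of_pos (hl.trans_le hL1)]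
      exact mul_le_mul_of_nonneg_right (mul_le_mul hL2 hnU (abs_nonneg _) hΛ.le) z10
    have a3 : Λ * (C2 * |q.2.2.2|) * |q.1.2.2| ≤ l / 4 * |q.2.2.2| := by
      have h1 : |q.1.2.2| ≤ l / (4 * (Λ * C2)) := hz1.trans mc
      rw [le_div_iff₀ (by positivity)] at h1
      nlinarith
    have a4 : Λ * (C2 * κ) * |q.1.2.2| ≤ l / 4 * |q.2.2.2| := by
      have h1 : 4 * Λ * C2 / l * (κ * |q.1.2.2|) ≤ |q.2.2.2| := by
        refine le_trans ?_ hC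
        rw [mul_assoc (1 + 4 * Λ * C2 / l + 4 * K + 8 * Λ / l)]
        refine mul_le_mul_of_nonneg_right ?_ (by positivity)
        have : 0 ≤ 8 * Λ / l := by positivity
        linarith
      have h2 : 4 * Λ * C2 / l * (κ * |q.1.2.2|) = (4 * (Λ * (C2 * κ) * |q.1.2.2|)) / l := by
        field_simp
      rw [h2, div_le_iff₀ hl] at h1
      linarith
    have a5 : Λ * (C2 * (κ + |q.2.2.2|)) * |q.1.2.2| =
        Λ * (C2 * κ) * |q.1.2.2| + Λ * (C2 * |q.2.2.2|) * |q.1.2.2| := by ring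
    have a6 := abs_sub_abs_le_abs_sub (M * q.2.2.2) (-(L * n * q.1.2.2))
    rw [abs_neg, sub_neg_eq_add, add_comm (M * q.2.2.2)] at a6
    calc min (l / 2) (l / 8) * |q.2.2.2| ≤ l / 2 * |q.2.2.2| :=
          mul_le_mul_of_nonneg_right (min_le_left _ _) z20
      _ ≤ |M * q.2.2.2| - |L * n * q.1.2.2| := by linarith
      _ ≤ _ := a6
  · -- fourth
    intro κ q hκ hq hor hC
    obtain ⟨u, hu, L, M, hL1, hL2, hM1, hM2, hF⟩ := key al m ρ (Sm_mono mk hs0) hρ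
      (hρ0.trans_le mk) q (NbG_mono' (hδδ0.trans mk) hq)
    have hz1 : |q.1.2.2| ≤ 1 := (hq.2.2.1.trans hδδ0).trans m1
    have b1 := BB _ hq.1
    have b2 := BB _ hq.2.1
    have bu := BB _ (NbG_seg hq hu)
    have l1 := LL _ _ (NbG_seg hq hu) hq.1 rfl
    have l2 := LL _ _ (NbG_seg hq hu) hq.2.1 rfl
    change 1 / 4 ≤ bm m q.1.2.1 ∧ bm m q.1.2.1 ≤ 5 / 4 at b1
    change 1 / 4 ≤ bm m (q.1.2.1 - q.1.2.2) ∧ bm m (q.1.2.1 - q.1.2.2) ≤ 5 / 4 at b2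
    change 1 / 4 ≤ bm m (q.1.2.1 - u * q.1.2.2) ∧ bm m (q.1.2.1 - u * q.1.2.2) ≤ 5 / 4 at bu
    change |sgP m al ρ (q.2.1, q.2.2.1 - u * q.2.2.2) - sgP m al ρ (q.2.1, q.2.2.1)| ≤
      K * |q.2.2.1 - u * q.2.2.2 - q.2.2.1| at l1
    change |sgP m al ρ (q.2.1, q.2.2.1 - u * q.2.2.2) - sgP m al ρ (q.2.1, q.2.2.1 - q.2.2.2)| ≤
      K * |q.2.2.1 - u * q.2.2.2 - (q.2.2.1 - q.2.2.2)| at l2
    have hbu : bm m (q.1.2.1 - u * q.1.2.2) =
        (1 - u) * bm m q.1.2.1 + u * bm m (q.1.2.1 - q.1.2.2) := by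
      unfold bm
      ring
    have p1 : 0 < bm m q.1.2.1 := by linarith [b1.1]
    have p2 : 0 < bm m (q.1.2.1 - q.1.2.2) := by linarith [b2.1]
    have pu : 0 < bm m (q.1.2.1 - u * q.1.2.2) := by linarith [bu.1]
    have hu0 := hu.1
    have hu1 : 0 ≤ 1 - u := by linarith [hu.2]
    have z10 := abs_nonneg q.1.2.2
    have z20 := abs_nonneg q.2.2.2
    have hz2u : |q.2.2.1 - u * q.2.2.2 - q.2.2.1| ≤ |q.2.2.2| := by
      have : q.2.2.1 - u * q.2.2.2 - q.2.2.1 = -(u * q.2.2.2) := by ring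
      rw [this, abs_neg, abs_mul, abs_of_nonneg hu.1]
      exact mul_le_of_le_one_left (abs_nonneg _) hu.2
    have hz2v : |q.2.2.1 - u * q.2.2.2 - (q.2.2.1 - q.2.2.2)| ≤ |q.2.2.2| := by
      have : q.2.2.1 - u * q.2.2.2 - (q.2.2.1 - q.2.2.2) = (1 - u) * q.2.2.2 := by ring
      rw [this, abs_mul, abs_of_nonneg hu1]
      exact mul_le_of_le_one_left (abs_nonneg _) (by linarith)
    have hKz : K * |q.2.2.2| ≤ κ / 4 := by
      have h1 : 4 * K * |q.2.2.2| ≤ κ * |q.1.2.2| := by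
        refine le_trans (mul_le_mul_of_nonneg_right ?_ z20) hC
        have h2 : 0 ≤ 4 * Λ * C2 / l := by positivity
        have h3 : 0 ≤ 8 * Λ / l := by positivity
        linarith
      have h4 : κ * |q.1.2.2| ≤ κ := mul_le_of_le_one_right hκ.le hz1
      linarith
    have j1 := (l1.trans (mul_le_mul_of_nonneg_left hz2u hK)).trans hKz
    have j2 := (l2.trans (mul_le_mul_of_nonneg_left hz2v hK)).trans hKz
    have hnU : κ / 4 ≤ |nn (omP m) (sgP m al ρ) (sU q u)| := by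
      rw [nU]
      rw [nX, nZ] at hor
      generalize sgP m al ρ (q.2.1, q.2.2.1) = G1 at *
      generalize sgP m al ρ (q.2.1, q.2.2.1 - q.2.2.2) = G3 at *
      generalize sgP m al ρ (q.2.1, q.2.2.1 - u * q.2.2.2) = G2 at *
      obtain ⟨j1a, j1b⟩ := abs_le.1 j1
      obtain ⟨j2a, j2b⟩ := abs_le.1 j2
      rcases hor with ⟨h1, h2⟩ | ⟨h1, h2⟩
      · refine le_trans ?_ (le_abs_self _)
        have k1 : κ / 4 + G2 ≤ q.1.1 / bm m q.1.2.1 := by linarith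
        have k2 : κ / 4 + G2 ≤ q.1.1 / bm m (q.1.2.1 - q.1.2.2) := by linarith
        rw [le_div_iff₀ p1] at k1
        rw [le_div_iff₀ p2] at k2
        have k3 : κ / 4 + G2 ≤ q.1.1 / bm m (q.1.2.1 - u * q.1.2.2) := by
          rw [le_div_iff₀ pu, hbu]
          nlinarith [mul_le_mul_of_nonneg_left k1 hu1, mul_le_mul_of_nonneg_left k2 hu0]
        linarith
      · refine le_trans ?_ (neg_le_abs _)
        have k1 : q.1.1 / bm m q.1.2.1 ≤ -(κ / 4) + G2 := by linarith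
        have k2 : q.1.1 / bm m (q.1.2.1 - q.1.2.2) ≤ -(κ / 4) + G2 := by linarith
        rw [div_le_iff₀ p1] at k1
        rw [div_le_iff₀ p2] at k2
        have k3 : q.1.1 / bm m (q.1.2.1 - u * q.1.2.2) ≤ -(κ / 4) + G2 := by
          rw [div_le_iff₀ pu, hbu]
          nlinarith [mul_le_mul_of_nonneg_left k1 hu1, mul_le_mul_of_nonneg_left k2 hu0]
        linarith
    rw [hF, abs_neg]
    generalize nn (omP m) (sgP m al ρ) (sU q u) = n at hnU ⊢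
    have a1 : l * (κ / 4) * |q.1.2.2| ≤ |L * n * q.1.2.2| := by
      rw [abs_mul, abs_mul, abs_of_pos (hl.trans_le hL1)]
      exact mul_le_mul_of_nonneg_right (mul_le_mul hL1 hnU (by positivity)
        (hl.le.trans hL1)) z10
    have a2 : |M * q.2.2.2| ≤ Λ * |q.2.2.2| := by
      rw [abs_mul]
      exact mul_le_mul_of_nonneg_right hM2 z20
    have a3 : Λ * |q.2.2.2| ≤ l / 8 * (κ * |q.1.2.2|) := by
      have h1 : 8 * Λ / l * |q.2.2.2| ≤ κ * |q.1.2.2| := by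
        refine le_trans (mul_le_mul_of_nonneg_right ?_ z20) hC
        have h2 : 0 ≤ 4 * Λ * C2 / l := by positivity
        linarith
      rw [div_mul_eq_mul_div, div_le_iff₀ hl] at h1
      linarith
    have a6 := abs_sub_abs_le_abs_sub (L * n * q.1.2.2) (-(M * q.2.2.2))
    rw [abs_neg, sub_neg_eq_add] at a6
    have a7 : 0 ≤ κ * |q.1.2.2| := by positivity
    calc min (l / 2) (l / 8) * (κ * |q.1.2.2|) ≤ l / 8 * (κ * |q.1.2.2|) :=
          mul_le_mul_of_nonneg_right (min_le_right _ _) a7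
      _ ≤ |L * n * q.1.2.2| - |M * q.2.2.2| := by linarith
      _ ≤ _ := a6
  · -- fifth
    intro κ γ d hκ hγ hd
    have hδ1' : δ ≤ 1 := hδδ0.trans m1
    have hmeas : MeasurableSet {q : V × V | NbG δ x0.swap y0.swap q ∧
        |nn (omP m) (sgP m al ρ) (px q)| ≤ 2 * κ ∧ |q.1.2.2| ≤ γ ∧ |q.2.2.2| ≤ d} := by
      have c1 : Measurable fun q : V × V => |nn (omP m) (sgP m al ρ) (px q)| := by
        unfold nn omP sgP Sm2 bm px
        fun_prop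
      have c2 : MeasurableSet {q : V × V | NbG δ x0.swap y0.swap q} :=
        (isClosed_NbG δ x0.swap y0.swap).measurableSet
      have c3 : MeasurableSet {q : V × V | |nn (omP m) (sgP m al ρ) (px q)| ≤ 2 * κ} :=
        measurableSet_le c1 measurable_const
      have c4 : MeasurableSet {q : V × V | |q.1.2.2| ≤ γ} :=
        measurableSet_le (by fun_prop) measurable_const
      have c5 : MeasurableSet {q : V × V | |q.2.2.2| ≤ d} :=
        measurableSet_le (by fun_prop) measurable_const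
      exact c2.inter (c3.inter (c4.inter c5))
    refine (vol_slice1 (I2 := Icc (x0.2 - δ) (x0.2 + δ)) (I3 := Icc (-γ) γ)
      (J1 := Icc (y0.1 - δ) (y0.1 + δ)) (J2 := Icc (x0.1 - δ) (x0.1 + δ)) (J3 := Icc (-d) d)
      (k := 5 * κ) _ hmeas ?_ ?_).trans ?_
    · rintro w ⟨⟨⟨h1, h2, h3, h4⟩, -, -, -⟩, -, h5, h6⟩
      change |w.2.1 - y0.1| ≤ δ at h2
      change |w.1.2.1 - x0.2| ≤ δ at h3
      change |w.2.2.1 - x0.1| ≤ δ at h4
      rw [abs_le] at h2 h3 h4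
      exact ⟨⟨by linarith [h3.1], by linarith [h3.2]⟩, abs_le.1 h5,
        ⟨by linarith [h2.1], by linarith [h2.2]⟩, ⟨by linarith [h4.1], by linarith [h4.2]⟩,
        abs_le.1 h6⟩
    · intro y y' az v h h'
      have b1 := BB _ h.1.1
      change 1 / 4 ≤ bm m az.1 ∧ bm m az.1 ≤ 5 / 4 at b1
      have p1 : 0 < bm m az.1 := by linarith [b1.1]
      have h1 := h.2.1
      have h2 := h'.2.1
      change |y / bm m az.1 - sgP m al ρ (v.1, v.2.1)| ≤ 2 * κ at h1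
      change |y' / bm m az.1 - sgP m al ρ (v.1, v.2.1)| ≤ 2 * κ at h2
      have h3 : |y / bm m az.1 - y' / bm m az.1| ≤ 4 * κ := by
        have e : y / bm m az.1 - y' / bm m az.1 = (y / bm m az.1 - sgP m al ρ (v.1, v.2.1)) -
          (y' / bm m az.1 - sgP m al ρ (v.1, v.2.1)) := by ring
        rw [e]
        exact (abs_sub _ _).trans (by linarith)
      rw [← sub_div, abs_div, abs_of_pos p1, div_le_iff₀ p1] at h3
      nlinarith [b1.2]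
    · rw [Real.volume_Icc, Real.volume_Icc, Real.volume_Icc, Real.volume_Icc, Real.volume_Icc]
      have e1 : ∀ x : ℝ, x + δ - (x - δ) = 2 * δ := fun x => by ring
      have e2 : ∀ x : ℝ, x - -x = 2 * x := fun x => by ring
      rw [e1, e1, e1, e2, e2, ← ENNReal.ofReal_mul (by positivity),
        ← ENNReal.ofReal_mul (by positivity), ← ENNReal.ofReal_mul (by positivity),
        ← ENNReal.ofReal_mul (by positivity), ← ENNReal.ofReal_mul (by positivity)]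
      apply ENNReal.ofReal_le_ofReal
      have e3 : 5 * κ * (2 * δ * (2 * γ)) * (2 * δ * (2 * δ * (2 * d))) =
          160 * δ ^ 3 * (κ * γ * d) := by ring
      have e4 : δ ^ 3 ≤ 1 := pow_le_one₀ hδ.le hδ1'
      rw [e3]
      have e5 : 0 ≤ κ * γ * d := by positivity
      nlinarith [mul_le_mul_of_nonneg_right e4 e5]

end Pool.Agent.SDT.N1M

end -- N1M.PE
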