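import Pool.Agent.SDT.B51

set_option autoImplicit false

namespace Pool.Agent.SDT.MP_6cbfb8_an
end Pool.Agent.SDT.MP_6cbfb8_an
namespace Pool.Agent.SDT.MST
end Pool.Agent.SDT.MST
namespace Pool.Agent.SDT.N1.MD
end Pool.Agent.SDT.N1.MD

section -- N1.MD2

/-!
N1, block M1, case (D): one dyadic rectangle.
-/

namespace Pool.Agent.SDT.N1.MD

open MeasureTheory Set Metric Pool.Agent.SDT.MP_6cbfb8_an Pool.Agent.SDT.MST
open scoped ENNReal Real ContDiff

theorem measurable_rec (γ d : ℝ) (M : V × V → ℂ) (hM : Measurable M) :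
    Measurable (rec γ d M) := by
  unfold rec
  refine Measurable.ite ?_ hM measurable_const
  have h1 : Measurable fun q : V × V => |q.1.2.2| := by fun_prop
  have h2 : Measurable fun q : V × V => |q.2.2.2| := by fun_prop
  exact (measurableSet_lt measurable_const h1).inter ((measurableSet_le h1 measurable_const).inter
    ((measurableSet_lt measurable_const h2).inter (measurableSet_le h2 measurable_const)))

theorem rec_le_one (γ d : ℝ) (M : V × V → ℂ) (hM : ∀ q, ‖M q‖ ≤ 1) (q : V × V) :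
    ‖rec γ d M q‖ ≤ 1 := by
  unfold rec
  split_ifs
  · exact hM q
  · simp

theorem rec_ne_zero (γ d : ℝ) (M : V × V → ℂ) (q : V × V) (h : rec γ d M q ≠ 0) :
    M q ≠ 0 ∧ γ / 2 < |q.1.2.2| ∧ |q.1.2.2| ≤ γ ∧ d / 2 < |q.2.2.2| ∧ |q.2.2.2| ≤ d := by
  unfold rec at h
  split_ifs at h with h1
  · exact ⟨h, h1⟩
  · exact absurd rfl h

/-- The rectangles which can be treated with absolute values. -/
theorem rect_abs (c : ℝ) (hc : 0 < c) (x0 y0 : ℝ × ℝ) (hx : x0 ∈ Kc c) (hy1 : y0.1 ≠ 0)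
    (hy2 : y0.2 ≠ 0) (h1 : Nf 0 y0 x0 = 0) :
    ∃ δ C5 C4 C : ℝ, 0 < δ ∧ 0 < C5 ∧ 0 < C4 ∧ 0 ≤ C ∧ ∀ T : ℝ, 0 < T → ∀ ρ : ℝ, 0 < ρ → ρ < δ →
    ∀ κ : ℝ, 0 < κ → κ < δ → ∀ M : V × V → ℂ, Measurable M → (∀ q, ‖M q‖ ≤ 1) →
    (∀ q, M q ≠ 0 → Nb δ ρ x0 y0 q ∧ |Nx ρ q| ≤ 2 * κ ∧ |Nz ρ q| ≤ 2 * κ) →
    ∀ γ d : ℝ, 0 < γ → 0 < d →
    (‖FF c T (rec γ d M)‖ ≤ C / T ∨ (γ ≤ C5 * κ ∧ d ≤ C4 * κ * γ)) := by
  obtain ⟨δ0, θ0, C5, hδ0, hθ0, hC5, hE0⟩ := E_D0 c hc x0 y0 hx hy1 hy2 h1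
  set θ : ℝ := min θ0 1 / 4 with hθdef
  have hθ : 0 < θ := by positivity
  have hθ0' : 4 * θ ≤ θ0 := by
    have := min_le_left θ0 1
    rw [hθdef]
    linarith
  have hθ1' : 4 * θ ≤ 1 := by
    have := min_le_right θ0 1
    rw [hθdef]
    linarith
  obtain ⟨δ1, c1, hδ1, hc1, hE1⟩ := E_D1 c hc x0 y0 hx hy1 hy2 h1 θ hθ
  obtain ⟨δ2, c2, C4, hδ2, hc2, hC4, hE2⟩ := E_D2a c hc x0 y0 hx hy1 hy2 h1 (2 * C5)
  obtain ⟨δ3, C3, hδ3, hC3, hV⟩ := vol_strip c hc x0 y0 hx hy1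
  obtain ⟨CF, hCF, hF⟩ := FF_abs c hc
  set δ : ℝ := min (min (min δ0 δ1) (min δ2 δ3)) 1 with hδdef
  have hδ : 0 < δ := by positivity
  have g0 : δ ≤ δ0 := (min_le_left _ _).trans ((min_le_left _ _).trans (min_le_left _ _))
  have g1 : δ ≤ δ1 := (min_le_left _ _).trans ((min_le_left _ _).trans (min_le_right _ _))
  have g2 : δ ≤ δ2 := (min_le_left _ _).trans ((min_le_right _ _).trans (min_le_left _ _))
  have g3 : δ ≤ δ3 := (min_le_left _ _).trans ((min_le_right _ _).trans (min_le_right _ _))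
  have g4 : δ ≤ 1 := min_le_right _ _
  set A1 : ℝ := 32 / θ * (4 / c1 ^ 2) with hA1
  set A2 : ℝ := C3 / (2 * C4) * (4 / c2 ^ 2) with hA2
  have hA1p : 0 ≤ A1 := by positivity
  have hA2p : 0 ≤ A2 := by positivity
  refine ⟨δ, 2 * C5, 2 * C4, CF * A1 + CF * A2, hδ, by positivity, by positivity, by positivity,
    fun T hT ρ hρ hρδ κ hκ hκδ M hM hM1 hMs γ d hγ hd => ?_⟩
  have hadd1 : CF * A1 / T ≤ (CF * A1 + CF * A2) / T := by
    gcongr
    linarith [mul_nonneg hCF hA2p]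
  have hadd2 : CF * A2 / T ≤ (CF * A1 + CF * A2) / T := by
    gcongr
    linarith [mul_nonneg hCF hA1p]
  rcases le_or_gt (2 * θ * γ) d with hR1 | hR1
  · -- R1
    left
    refine le_trans ?_ hadd1
    have hS := hF T hT (rec γ d M)
      {q | (Nb δ ρ x0 y0 q ∧ |q.1.2.2| ≤ γ ∧ |q.2.2.2| ≤ d) ∧ d / 2 < |q.2.2.2|}
      (c1 * ρ * (d / 2)) (64 * ρ ^ 2 * γ * d) (measurable_rec γ d M hM) (rec_le_one γ d M hM1)
      (fun q hq _ => by
        obtain ⟨e1, e2, e3, e4, e5⟩ := rec_ne_zero γ d M q hq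
        exact ⟨⟨(hMs q e1).1, e3, e5⟩, e4⟩) (by positivity)
      ((measure_mono fun q hq => hq.1).trans (vol_box x0 y0 δ ρ γ d hδ.le g4 hρ hγ.le hd.le))
      (by positivity)
      (fun q hq => by
        obtain ⟨⟨e1, e2, e3⟩, e4⟩ := hq
        have e5 := hE1 ρ hρ (hρδ.trans_le g1) q (Nb_mono g1 e1)
          (by nlinarith [mul_le_mul_of_nonneg_left e2 hθ.le])
        refine le_trans ?_ e5
        gcongr)
    refine hS.trans (abs_num CF A1 T _ _ hCF hT (by positivity) hA1p ?_)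
    have e1 : A1 * (c1 * ρ * (d / 2)) ^ 2 = 32 / θ * ρ ^ 2 * d ^ 2 := by
      rw [hA1]
      field_simp
      norm_num
    rw [e1]
    have e2 : γ ≤ d / (2 * θ) := by
      rw [le_div_iff₀ (by positivity)]
      linarith
    calc 64 * ρ ^ 2 * γ * d ≤ 64 * ρ ^ 2 * (d / (2 * θ)) * d := by gcongr
      _ = 32 / θ * ρ ^ 2 * d ^ 2 := by
        field_simp
        ring
  · -- now `|z₂| ≤ θ₀ |z₁|`
    have hz : ∀ q : V × V, γ / 2 < |q.1.2.2| → |q.2.2.2| ≤ d → |q.2.2.2| ≤ θ0 * |q.1.2.2| := by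
      intro q e1 e2
      have e3 : θ * γ ≤ θ * (2 * |q.1.2.2|) := mul_le_mul_of_nonneg_left (by linarith) hθ.le
      have e4 : 4 * θ * |q.1.2.2| ≤ θ0 * |q.1.2.2| :=
        mul_le_mul_of_nonneg_right hθ0' (abs_nonneg _)
      linarith
    have hz1 : ∀ q : V × V, γ / 2 < |q.1.2.2| → |q.2.2.2| ≤ d → |q.2.2.2| ≤ |q.1.2.2| := by
      intro q e1 e2
      have e3 : θ * γ ≤ θ * (2 * |q.1.2.2|) := mul_le_mul_of_nonneg_left (by linarith) hθ.le
      have e4 : 4 * θ * |q.1.2.2| ≤ 1 * |q.1.2.2| :=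
        mul_le_mul_of_nonneg_right hθ1' (abs_nonneg _)
      linarith
    rcases le_or_gt γ (2 * C5 * κ) with hR0 | hR0
    · rcases le_or_gt d (2 * C4 * κ * γ) with hR2 | hR2
      · exact Or.inr ⟨hR0, hR2⟩
      · -- R2a
        left
        refine le_trans ?_ hadd2
        have hS := hF T hT (rec γ d M)
          {q | (Nb δ ρ x0 y0 q ∧ |Nx ρ q| ≤ 2 * κ ∧ |q.1.2.2| ≤ γ ∧ |q.2.2.2| ≤ d) ∧
            d / 2 < |q.2.2.2| ∧ γ / 2 < |q.1.2.2|}
          (c2 * ρ * (d / 2)) (C3 * ρ ^ 2 * κ * γ * d) (measurable_rec γ d M hM)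
          (rec_le_one γ d M hM1)
          (fun q hq _ => by
            obtain ⟨e1, e2, e3, e4, e5⟩ := rec_ne_zero γ d M q hq
            exact ⟨⟨(hMs q e1).1, (hMs q e1).2.1, e3, e5⟩, e4, e2⟩) (by positivity)
          ((measure_mono fun q hq => ?_).trans
            (hV ρ hρ (hρδ.trans_le g3) κ γ d hκ.le hγ.le hd.le))
          (by positivity)
          (fun q hq => by
            obtain ⟨⟨e1, e2, e3, e4⟩, e5, e6⟩ := hq
            have e7 := hE2 ρ hρ (hρδ.trans_le g2) κ hκ (hκδ.trans_le g2) q (Nb_mono g2 e1) e2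
              (e3.trans hR0) (hz1 q e6 e4)
              (by nlinarith [mul_le_mul_of_nonneg_left e3 (mul_pos hC4 hκ).le])
            refine le_trans ?_ e7
            gcongr)
        · refine hS.trans (abs_num CF A2 T _ _ hCF hT (by positivity) hA2p ?_)
          have e1 : A2 * (c2 * ρ * (d / 2)) ^ 2 = C3 / (2 * C4) * ρ ^ 2 * d ^ 2 := by
            rw [hA2]
            field_simp
            norm_num
          rw [e1]
          have e2 : κ * γ ≤ d / (2 * C4) := by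
            rw [le_div_iff₀ (by positivity)]
            linarith
          calc C3 * ρ ^ 2 * κ * γ * d = C3 * ρ ^ 2 * (κ * γ) * d := by ring
            _ ≤ C3 * ρ ^ 2 * (d / (2 * C4)) * d := by gcongr
            _ = C3 / (2 * C4) * ρ ^ 2 * d ^ 2 := by
              field_simp
        · exact ⟨Nb_mono g3 hq.1.1, hq.1.2.1, hq.1.2.2.1, hq.1.2.2.2⟩
    · -- R0: the density vanishes
      left
      have e0 : rec γ d M = fun _ => 0 := by
        funext q
        by_contra hq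
        obtain ⟨e1, e2, e3, e4, e5⟩ := rec_ne_zero γ d M q hq
        obtain ⟨f1, f2, f3⟩ := hMs q e1
        have e6 := hE0 ρ hρ (hρδ.trans_le g0) κ hκ q (Nb_mono g0 f1) (hz q e2 e5) f2 f3
        linarith
      rw [e0]
      unfold FF
      simp only [zero_mul, integral_zero, norm_zero]
      positivity

end Pool.Agent.SDT.N1.MD

end -- N1.MD2

section -- N1.MD3

/-!
N1, block M1, case (D): the pieces.
-/

namespace Pool.Agent.SDT.N1.MD

open MeasureTheory Set Metric Pool.Agent.SDT.MP_6cbfb8_an Pool.Agent.SDT.MST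
open scoped ENNReal Real ContDiff

/-- The one-sided cut-offs. -/
noncomputable def mp (s x : ℝ) : ℂ := ((mpl (s * x) : ℝ) : ℂ)

theorem mp_norm (s x : ℝ) : ‖mp s x‖ ≤ 1 := by
  unfold mp
  rw [Complex.norm_real, Real.norm_eq_abs]
  exact mpl_abs_le _

theorem measurable_mp (s : ℝ) : Measurable (mp s) := by
  unfold mp
  exact Complex.measurable_ofReal.comp (measurable_mpl.comp (measurable_const.mul measurable_id))

theorem FT1_mp (s : ℝ) (hs : s ≠ 0) : ∃ B : ℝ, 0 ≤ B ∧ FT1 B (mp s) := by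
  obtain ⟨B, hB, h⟩ := FT1_mpl
  exact ⟨B, hB, FT1_scale B _ h s hs⟩

/-- On the support of a one-sided cut-off. -/
theorem mp_ne_zero (s x κ : ℝ) (hs : s = 1 ∨ s = -1) (hκ : 0 < κ) (h : mp s (x / κ) ≠ 0) :
    |x| ≤ 2 * κ ∧ ((s = 1 ∧ κ / 2 ≤ x) ∨ (s = -1 ∧ x ≤ -(κ / 2))) := by
  unfold mp at h
  have h1 : mpl (s * (x / κ)) ≠ 0 := fun h2 => h (by rw [h2, Complex.ofReal_zero])
  obtain ⟨h2, h3⟩ := mpl_support _ h1
  rcases hs with rfl | rfl
  · rw [one_mul] at h2 h3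
    rw [lt_div_iff₀ hκ] at h2
    rw [div_lt_iff₀ hκ] at h3
    exact ⟨abs_le.2 ⟨by linarith, by linarith⟩, Or.inl ⟨rfl, by linarith⟩⟩
  · have e : -1 * (x / κ) = -x / κ := by ring
    rw [e, lt_div_iff₀ hκ] at h2
    rw [e, div_lt_iff₀ hκ] at h3
    exact ⟨abs_le.2 ⟨by linarith, by linarith⟩, Or.inr ⟨rfl, by linarith⟩⟩

/-- Restriction of a function of one side to dyadic inner differences. -/
noncomputable def rc (γ : ℝ) (A : V → ℂ) (u : V) : ℂ :=
  if γ / 2 < |u.2.2| ∧ |u.2.2| ≤ γ then A u else 0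

theorem measurable_rc (γ : ℝ) (A : V → ℂ) (h : Measurable A) : Measurable (rc γ A) := by
  unfold rc
  refine Measurable.ite ?_ h measurable_const
  have h1 : Measurable fun q : V => |q.2.2| := by fun_prop
  exact (measurableSet_lt measurable_const h1).inter (measurableSet_le h1 measurable_const)

theorem rc_le_one (γ : ℝ) (A : V → ℂ) (h : ∀ u, ‖A u‖ ≤ 1) (u : V) : ‖rc γ A u‖ ≤ 1 := by
  unfold rc
  split_ifs
  · exact h u
  · simp

theorem rc_ne_zero (γ : ℝ) (A : V → ℂ) (u : V) (h : rc γ A u ≠ 0) :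
    A u ≠ 0 ∧ γ / 2 < |u.2.2| ∧ |u.2.2| ≤ γ := by
  unfold rc at h
  split_ifs at h with h1
  · exact ⟨h, h1⟩
  · exact absurd rfl h

theorem rec_eq_rc (γ d : ℝ) (m₁ m₂ : V × V → ℂ) (A₁ A₂ : V → ℂ) :
    rec γ d (fun q => m₁ q * (m₂ q * tp A₁ A₂ q)) =
      fun q => m₁ q * (m₂ q * tp (rc γ A₁) (rc d A₂) q) := by
  funext q
  unfold rec tp rc
  by_cases h1 : γ / 2 < |q.1.2.2| ∧ |q.1.2.2| ≤ γ
  · by_cases h2 : d / 2 < |q.2.2.2| ∧ |q.2.2.2| ≤ d
    · rw [if_pos ⟨h1.1, h1.2, h2.1, h2.2⟩, if_pos h1, if_pos h2]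
    · rw [if_neg (fun h => h2 ⟨h.2.2.1, h.2.2.2⟩), if_neg h2]
      simp
  · rw [if_neg (fun h => h1 ⟨h.1, h.2.1⟩), if_neg h1]
    simp

/-- One dyadic rectangle of a one-sided piece. -/
theorem rect_mpl (c : ℝ) (hc : 0 < c) (x0 y0 : ℝ × ℝ) (hx : x0 ∈ Kc c) (hy1 : y0.1 ≠ 0)
    (hy2 : y0.2 ≠ 0) (h1 : Nf 0 y0 x0 = 0) :
    ∃ δ C : ℝ, 0 < δ ∧ 0 ≤ C ∧ ∀ T : ℝ, 0 < T → ∀ ρ : ℝ, 0 < ρ → ρ < δ →
    ∀ κ : ℝ, 0 < κ → κ < δ → ∀ s : ℝ, s = 1 ∨ s = -1 → ∀ A₁ A₂ : V → ℂ,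
    Measurable A₁ → Measurable A₂ → (∀ a, ‖A₁ a‖ ≤ 1) → (∀ b, ‖A₂ b‖ ≤ 1) →
    (∀ u, A₁ u ≠ 0 → |u.1 / ρ - y0.1| ≤ δ ∧ |u.2.1 - x0.1| ≤ δ ∧ |u.2.2| ≤ δ) →
    (∀ v, A₂ v ≠ 0 → |v.1 / ρ - y0.2| ≤ δ ∧ |v.2.1 - x0.2| ≤ δ ∧ |v.2.2| ≤ δ) →
    ∀ γ d : ℝ, 0 < γ → 0 < d →
    ‖FF c T (rec γ d (fun q => mp s (Nx ρ q / κ) * (mp s (Nz ρ q / κ) * tp A₁ A₂ q)))‖ ≤
      C / T := by
  obtain ⟨δa, C5, C4, Ca, hδa, hC5, hC4, hCa, habs⟩ := rect_abs c hc x0 y0 hx hy1 hy2 h1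
  obtain ⟨δb, cb, C4b, hδb, hcb, hC4b, hE⟩ := E_D2b c hc x0 y0 hx hy1 hy2 h1
  obtain ⟨δv, Cv, hδv, hCv, hV⟩ := vol_strip c hc x0 y0 hx hy1
  obtain ⟨CF, hCF, hF⟩ := FF_abs c hc
  set C7 : ℝ := 2 + C4 + 4 * C4b with hC7
  obtain ⟨δp, hδp, Cp, hCp, hP⟩ := propD2 c hc x0 y0 hx hy1 hy2 h1 C5 C7 (by linarith)
  obtain ⟨B1, hB1, hft1⟩ := FT1_mp 1 one_ne_zero
  obtain ⟨B2, hB2, hft2⟩ := FT1_mp (-1) (by norm_num)
  set δ : ℝ := min (min δa δb) (min δv δp) / 4 with hδdef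
  have hδ : 0 < δ := by positivity
  have m1 : min (min δa δb) (min δv δp) ≤ δa := (min_le_left _ _).trans (min_le_left _ _)
  have m2 : min (min δa δb) (min δv δp) ≤ δb := (min_le_left _ _).trans (min_le_right _ _)
  have m3 : min (min δa δb) (min δv δp) ≤ δv := (min_le_right _ _).trans (min_le_left _ _)
  have m4 : min (min δa δb) (min δv δp) ≤ δp := (min_le_right _ _).trans (min_le_right _ _)
  have ga : 4 * δ ≤ δa := by rw [hδdef]; linarith
  have gb : 4 * δ ≤ δb := by rw [hδdef]; linarith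
  have gv : 4 * δ ≤ δv := by rw [hδdef]; linarith
  have gp : 4 * δ ≤ δp := by rw [hδdef]; linarith
  set A : ℝ := Cv / C4b * (2 / cb ^ 2) with hA
  have hAp : 0 ≤ A := by positivity
  have k1 : 0 ≤ CF * A := mul_nonneg hCF hAp
  have k2 : 0 ≤ B1 * (B1 * Cp) := by positivity
  have k3 : 0 ≤ B2 * (B2 * Cp) := by positivity
  refine ⟨δ, Ca + CF * A + B1 * (B1 * Cp) + B2 * (B2 * Cp), hδ, by positivity,
    fun T hT ρ hρ hρδ κ hκ hκδ s hs A₁ A₂ hA1 hA2 b1 b2 s1 s2 γ d hγ hd => ?_⟩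
  set M : V × V → ℂ := fun q => mp s (Nx ρ q / κ) * (mp s (Nz ρ q / κ) * tp A₁ A₂ q) with hM
  have htp : Measurable (tp A₁ A₂) := by
    unfold tp
    exact (hA1.comp measurable_fst).mul (hA2.comp measurable_snd)
  have hMm : Measurable M := by
    refine ((measurable_mp s).comp ((measurable_Nx ρ).div_const κ)).mul
      (((measurable_mp s).comp ((measurable_Nz ρ).div_const κ)).mul htp)
  have hM1 : ∀ q, ‖M q‖ ≤ 1 := fun q => by
    rw [hM, norm_mul, norm_mul]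
    unfold tp
    rw [norm_mul]
    exact mul_le_one₀ (mp_norm _ _) (by positivity) (mul_le_one₀ (mp_norm _ _) (by positivity)
      (mul_le_one₀ (b1 _) (norm_nonneg _) (b2 _)))
  have hMs : ∀ q, M q ≠ 0 → Nb δ ρ x0 y0 q ∧ mp s (Nx ρ q / κ) ≠ 0 ∧ mp s (Nz ρ q / κ) ≠ 0 := by
    intro q hq
    have e1 := left_ne_zero_of_mul hq
    have e2 := left_ne_zero_of_mul (right_ne_zero_of_mul hq)
    have e3 : tp A₁ A₂ q ≠ 0 := right_ne_zero_of_mul (right_ne_zero_of_mul hq)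
    obtain ⟨f1, f2, f3⟩ := s1 q.1 (left_ne_zero_of_mul e3)
    obtain ⟨f4, f5, f6⟩ := s2 q.2 (right_ne_zero_of_mul e3)
    exact ⟨⟨f1, f4, f2, f5, f3, f6⟩, e1, e2⟩
  have fin : ∀ D : ℝ, D ≤ Ca + CF * A + B1 * (B1 * Cp) + B2 * (B2 * Cp) →
      ‖FF c T (rec γ d M)‖ ≤ D / T →
      ‖FF c T (rec γ d M)‖ ≤ (Ca + CF * A + B1 * (B1 * Cp) + B2 * (B2 * Cp)) / T := by
    intro D hD h
    refine h.trans ?_
    gcongr
  rcases habs T hT ρ hρ (by linarith) κ hκ (by linarith) M hMm hM1 (fun q hq => by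
    obtain ⟨e1, e2, e3⟩ := hMs q hq
    exact ⟨Nb_mono (by linarith) e1, (mp_ne_zero s _ κ hs hκ e2).1,
      (mp_ne_zero s _ κ hs hκ e3).1⟩) γ d hγ hd with h2 | ⟨h2, h3⟩
  · exact fin Ca (by linarith) h2
  · rcases le_or_gt (2 * C4b * d) (κ * γ) with h4 | h4
    · -- R2b
      refine fin (CF * A) (by linarith) ?_
      have hS := hF T hT (rec γ d M)
        {q | (Nb δ ρ x0 y0 q ∧ |Nx ρ q| ≤ 2 * κ ∧ |q.1.2.2| ≤ γ ∧ |q.2.2.2| ≤ d) ∧
          γ / 2 < |q.1.2.2| ∧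
          ((κ / 2 ≤ Nx ρ q ∧ κ / 2 ≤ Nz ρ q) ∨ (Nx ρ q ≤ -(κ / 2) ∧ Nz ρ q ≤ -(κ / 2)))}
        (cb * ρ * κ * (γ / 2)) (Cv * ρ ^ 2 * κ * γ * d) (measurable_rec γ d M hMm)
        (rec_le_one γ d M hM1)
        (fun q hq _ => by
          obtain ⟨e1, e2, e3, e4, e5⟩ := rec_ne_zero γ d M q hq
          obtain ⟨f1, f2, f3⟩ := hMs q e1
          obtain ⟨g1, g2⟩ := mp_ne_zero s _ κ hs hκ f2
          obtain ⟨g3, g4⟩ := mp_ne_zero s _ κ hs hκ f3
          refine ⟨⟨f1, g1, e3, e5⟩, e2, ?_⟩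
          rcases hs with rfl | rfl
          · rcases g2 with g2 | g2
            · rcases g4 with g4 | g4
              · exact Or.inl ⟨g2.2, g4.2⟩
              · norm_num at g4
            · norm_num at g2
          · rcases g2 with g2 | g2
            · norm_num at g2
            · rcases g4 with g4 | g4
              · norm_num at g4
              · exact Or.inr ⟨g2.2, g4.2⟩) (by positivity)
        ((measure_mono fun q hq => ?_).trans
          (hV ρ hρ (by linarith) κ γ d hκ.le hγ.le hd.le))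
        (by positivity)
        (fun q hq => by
          obtain ⟨⟨e1, e2, e3, e4⟩, e5, e6⟩ := hq
          have e7 := hE ρ hρ (by linarith) κ hκ (by linarith) q (Nb_mono (by linarith) e1) e6
            (by
              have i1 := mul_le_mul_of_nonneg_left e4 hC4b.le
              have i2 := mul_le_mul_of_nonneg_left e5.le hκ.le
              linarith)
          refine le_trans ?_ e7
          gcongr)
      · refine hS.trans (abs_num CF A T _ _ hCF hT (by positivity) hAp ?_)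
        have e1 : A * (cb * ρ * κ * (γ / 2)) ^ 2 = Cv / (2 * C4b) * ρ ^ 2 * (κ * γ) ^ 2 := by
          rw [hA]
          field_simp
        rw [e1]
        have e2 : d ≤ κ * γ / (2 * C4b) := by
          rw [le_div_iff₀ (by positivity)]
          linarith
        calc Cv * ρ ^ 2 * κ * γ * d ≤ Cv * ρ ^ 2 * κ * γ * (κ * γ / (2 * C4b)) := by gcongr
          _ = Cv / (2 * C4b) * ρ ^ 2 * (κ * γ) ^ 2 := by
            field_simp
      · exact ⟨Nb_mono (by linarith) hq.1.1, hq.1.2.1, hq.1.2.2.1, hq.1.2.2.2⟩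
    · -- MAIN
      rcases le_or_gt γ (2 * δ) with h5 | h5
      · have key : ∀ B : ℝ, 0 ≤ B → FT1 B (mp s) → ‖FF c T (rec γ d M)‖ ≤ B * (B * Cp) / T := by
          intro B hB hft
          rw [hM, rec_eq_rc]
          have h6 := expand_twice c hc T hT B (mp s) hft (measurable_mp s) (mp_norm s) ρ κ
            (rc γ A₁) (rc d A₂) (measurable_rc γ _ hA1) (measurable_rc d _ hA2)
            (rc_le_one γ _ b1) (rc_le_one d _ b2) (Cp / T)
            (fun A₁' A₂' c1 c2 c3 c4 c5 c6 => by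
              refine hP T ρ γ κ hT hρ (by linarith) hγ (by linarith) hκ (by linarith) h2 A₁' A₂'
                c1 c2 c3 c4 (fun u hu => ?_) (fun v hv => ?_)
              · obtain ⟨e1, e2, e3⟩ := rc_ne_zero γ A₁ u (c5 u hu)
                obtain ⟨f1, f2, _⟩ := s1 u e1
                refine ⟨by linarith, by linarith, ?_, ?_⟩
                · rw [abs_div, abs_of_pos hγ, div_le_div_iff₀ (by linarith) hγ, one_mul]
                  have i1 : |u.2.2| * 2 ≤ |u.2.2| * C7 :=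
                    mul_le_mul_of_nonneg_left (by linarith) (abs_nonneg _)
                  linarith
                · rw [abs_div, abs_of_pos hγ, div_le_iff₀ hγ]
                  have i1 : 1 * γ ≤ C7 * γ := mul_le_mul_of_nonneg_right (by linarith) hγ.le
                  linarith
              · obtain ⟨e1, e2, e3⟩ := rc_ne_zero d A₂ v (c6 v hv)
                obtain ⟨f1, f2, _⟩ := s2 v e1
                have hκγ : 0 < κ * γ := mul_pos hκ hγ
                refine ⟨by linarith, by linarith, ?_, ?_⟩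
                · rw [abs_div, abs_of_pos hκγ, div_le_div_iff₀ (by linarith) hκγ, one_mul]
                  have i1 : 2 * C4b * d ≤ 2 * C4b * (2 * |v.2.2|) :=
                    mul_le_mul_of_nonneg_left (by linarith) (by linarith)
                  have i2 : |v.2.2| * (4 * C4b) ≤ |v.2.2| * C7 :=
                    mul_le_mul_of_nonneg_left (by linarith) (abs_nonneg _)
                  linarith
                · rw [abs_div, abs_of_pos hκγ, div_le_iff₀ hκγ]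
                  have i1 : C4 * (κ * γ) ≤ C7 * (κ * γ) :=
                    mul_le_mul_of_nonneg_right (by linarith) hκγ.le
                  linarith)
          refine h6.trans (le_of_eq ?_)
          ring
        rcases hs with rfl | rfl
        · exact fin _ (by linarith) (key B1 hB1 hft1)
        · exact fin _ (by linarith) (key B2 hB2 hft2)
      · have e0 : rec γ d M = fun _ => 0 := by
          funext q
          by_contra hq
          obtain ⟨e1, e2, e3, e4, e5⟩ := rec_ne_zero γ d M q hq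
          obtain ⟨⟨_, _, _, _, f5, _⟩, _, _⟩ := hMs q e1
          linarith
        rw [e0]
        unfold FF
        simp only [zero_mul, integral_zero, norm_zero]
        positivity

end Pool.Agent.SDT.N1.MD

end -- N1.MD3

section -- N1.MD4

/-!
N1, block M1, case (D): assembly.
-/

namespace Pool.Agent.SDT.N1.MD

open MeasureTheory Set Metric Pool.Agent.SDT.MP_6cbfb8_an Pool.Agent.SDT.MST
open scoped ENNReal Real ContDiff

/-- A multiplier in `N`. -/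
noncomputable def mM (ρ : ℝ) (m : ℝ → ℂ) (α β : ℝ × ℝ → ℂ) (p : (ℝ × ℝ) × (ℝ × ℝ)) : ℂ :=
  m (Nf ρ (p.1.1 / ρ, p.1.2 / ρ) p.2) * pd α β p

theorem sqM_mM (ρ : ℝ) (m : ℝ → ℂ) (hm : ∀ x, (starRingEnd ℂ) (m x) = m x) (α β : ℝ × ℝ → ℂ) :
    sqM (mM ρ m α β) = fun q => m (Nx ρ q) * (m (Nz ρ q) * tp (dd α) (dd β) q) := by
  rw [← sqM_pd]
  funext q
  unfold sqM mM Nx Nz
  simp only [map_mul, hm]
  ring

theorem measurable_pd (α β : ℝ × ℝ → ℂ) (hα : Measurable α) (hβ : Measurable β) :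
    Measurable (pd α β) := by
  unfold pd
  have e1 : Measurable fun p : (ℝ × ℝ) × (ℝ × ℝ) => (p.1.1, p.2.1) := by fun_prop
  have e2 : Measurable fun p : (ℝ × ℝ) × (ℝ × ℝ) => (p.1.2, p.2.2) := by fun_prop
  exact (hα.comp e1).mul (hβ.comp e2)

theorem pd_norm (α β : ℝ × ℝ → ℂ) (hα : ∀ p, ‖α p‖ ≤ 1) (hβ : ∀ p, ‖β p‖ ≤ 1)
    (p : (ℝ × ℝ) × (ℝ × ℝ)) : ‖pd α β p‖ ≤ 1 := by
  unfold pd
  rw [norm_mul]
  exact mul_le_one₀ (hα _) (norm_nonneg _) (hβ _)

theorem measurable_mM (ρ : ℝ) (m : ℝ → ℂ) (hm : Measurable m) (α β : ℝ × ℝ → ℂ)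
    (hα : Measurable α) (hβ : Measurable β) : Measurable (mM ρ m α β) := by
  unfold mM
  refine (hm.comp (measurable_Nf ρ ?_ ?_)).mul (measurable_pd α β hα hβ) <;> fun_prop

theorem mM_norm (ρ : ℝ) (m : ℝ → ℂ) (hm : ∀ x, ‖m x‖ ≤ 1) (α β : ℝ × ℝ → ℂ)
    (hα : ∀ p, ‖α p‖ ≤ 1) (hβ : ∀ p, ‖β p‖ ≤ 1) (p : (ℝ × ℝ) × (ℝ × ℝ)) :
    ‖mM ρ m α β p‖ ≤ 1 := by
  unfold mM
  rw [norm_mul]
  exact mul_le_one₀ (hm _) (norm_nonneg _) (pd_norm α β hα hβ p)

/-- From the form to the positive form. -/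
theorem Th_of_FF (c : ℝ) (hc : 0 < c) (T : ℝ) (hT : 0 < T) (ρ : ℝ) (m : ℝ → ℂ)
    (hmm : Measurable m) (hm1 : ∀ x, ‖m x‖ ≤ 1) (hm : ∀ x, (starRingEnd ℂ) (m x) = m x)
    (α β : ℝ × ℝ → ℂ) (hα : Measurable α) (hβ : Measurable β) (hα1 : ∀ p, ‖α p‖ ≤ 1)
    (hβ1 : ∀ p, ‖β p‖ ≤ 1) (Q : ℝ)
    (h : ‖FF c T (fun q => m (Nx ρ q) * (m (Nz ρ q) * tp (dd α) (dd β) q))‖ ≤ Q) :
    Th c T (mM ρ m α β) ≤ ENNReal.ofReal Q := by
  rw [Th_eq c hc T hT _ (measurable_mM ρ m hmm α β hα hβ) (mM_norm ρ m hm1 α β hα1 hβ1),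
    sqM_mM ρ m hm α β, ← ofReal_norm_eq_enorm]
  exact ENNReal.ofReal_le_ofReal h

/-- The low cut-off. -/
noncomputable def tq (x : ℝ) : ℂ := ((th x : ℝ) : ℂ)

theorem tq_norm (x : ℝ) : ‖tq x‖ ≤ 1 := by
  unfold tq
  rw [Complex.norm_real, Real.norm_eq_abs, abs_of_nonneg (th_nonneg x)]
  exact th_le_one x

theorem measurable_tq : Measurable tq := Complex.measurable_ofReal.comp measurable_th

theorem tq_ne_zero (x κ : ℝ) (hκ : 0 < κ) (h : tq (x / κ) ≠ 0) : |x| ≤ 2 * κ := by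
  unfold tq at h
  have h1 : th (x / κ) ≠ 0 := fun h2 => h (by rw [h2, Complex.ofReal_zero])
  have h2 := th_support _ h1
  rw [abs_div, abs_of_pos hκ, div_lt_iff₀ hκ] at h2
  exact h2.le

/-- The last piece: one dyadic rectangle. -/
theorem rect_th (c : ℝ) (hc : 0 < c) (x0 y0 : ℝ × ℝ) (hx : x0 ∈ Kc c) (hy1 : y0.1 ≠ 0)
    (hy2 : y0.2 ≠ 0) (h1 : Nf 0 y0 x0 = 0) :
    ∃ δ C : ℝ, 0 < δ ∧ 0 ≤ C ∧ ∀ T : ℝ, 1 ≤ T → ∀ ρ : ℝ, 0 < ρ → ρ < δ →
    ∀ κ : ℝ, 0 < κ → κ < δ → κ ≤ 1 / T ^ 2 → ∀ M : V × V → ℂ, Measurable M → (∀ q, ‖M q‖ ≤ 1) →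
    (∀ q, M q ≠ 0 → Nb δ ρ x0 y0 q ∧ |Nx ρ q| ≤ 2 * κ ∧ |Nz ρ q| ≤ 2 * κ) →
    ∀ γ d : ℝ, 0 < γ → 0 < d → ‖FF c T (rec γ d M)‖ ≤ C / T := by
  obtain ⟨δa, C5, C4, Ca, hδa, hC5, hC4, hCa, habs⟩ := rect_abs c hc x0 y0 hx hy1 hy2 h1
  obtain ⟨δv, Cv, hδv, hCv, hV⟩ := vol_strip c hc x0 y0 hx hy1
  obtain ⟨CF, hCF, hF⟩ := FF_abs0 c hc
  set δ : ℝ := min (min δa δv) 1 with hδdef
  have hδ : 0 < δ := by positivity
  have ga : δ ≤ δa := (min_le_left _ _).trans (min_le_left _ _)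
  have gv : δ ≤ δv := (min_le_left _ _).trans (min_le_right _ _)
  have g1 : δ ≤ 1 := min_le_right _ _
  refine ⟨δ, Ca + CF * (Cv * C5 * (C4 * C5)), hδ, by positivity,
    fun T hT ρ hρ hρδ κ hκ hκδ hκT M hM hM1 hMs γ d hγ hd => ?_⟩
  have hT0 : 0 < T := by linarith
  rcases habs T hT0 ρ hρ (by linarith) κ hκ (by linarith) M hM hM1 (fun q hq => by
    obtain ⟨e1, e2, e3⟩ := hMs q hq
    exact ⟨Nb_mono ga e1, e2, e3⟩) γ d hγ hd with h2 | ⟨h2, h3⟩
  · refine h2.trans ?_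
    gcongr
    have : 0 ≤ CF * (Cv * C5 * (C4 * C5)) := by positivity
    linarith
  · have h4 := hF T hT0 (rec γ d M)
      {q | Nb δ ρ x0 y0 q ∧ |Nx ρ q| ≤ 2 * κ ∧ |q.1.2.2| ≤ γ ∧ |q.2.2.2| ≤ d}
      (Cv * ρ ^ 2 * κ * γ * d) (Cv * C5 * (C4 * C5)) (measurable_rec γ d M hM)
      (rec_le_one γ d M hM1)
      (fun q hq _ => by
        obtain ⟨e1, e2, e3, e4, e5⟩ := rec_ne_zero γ d M q hq
        exact ⟨(hMs q e1).1, (hMs q e1).2.1, e3, e5⟩) (by positivity)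
      ((measure_mono fun q hq => ?_).trans (hV ρ hρ (by linarith) κ γ d hκ.le hγ.le hd.le)) ?_
    · refine h4.trans ?_
      gcongr
      linarith
    · exact ⟨Nb_mono gv hq.1, hq.2.1, hq.2.2.1, hq.2.2.2⟩
    · have hκ1 : κ ≤ 1 := by linarith
      have e1 : d ≤ C4 * κ * (C5 * κ) := h3.trans (by gcongr)
      have e2 : κ ^ 4 ≤ κ := by
        calc κ ^ 4 = κ * κ ^ 3 := by ring
          _ ≤ κ * 1 := by
            gcongr
            exact pow_le_one₀ hκ.le hκ1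
          _ = κ := mul_one κ
      calc Cv * ρ ^ 2 * κ * γ * d ≤ Cv * 1 ^ 2 * κ * (C5 * κ) * (C4 * κ * (C5 * κ)) := by
            gcongr
            linarith
        _ = Cv * C5 * (C4 * C5) * κ ^ 4 := by ring
        _ ≤ Cv * C5 * (C4 * C5) * (1 / T ^ 2) := by
            gcongr
            exact e2.trans hκT
        _ = Cv * C5 * (C4 * C5) / T ^ 2 := by ring

end Pool.Agent.SDT.N1.MD

namespace Pool.Agent.SDT.N1

open MeasureTheory Set Metric Pool.Agent.SDT.MP_6cbfb8_an Pool.Agent.SDT.MST Pool.Agent.SDT.N1.MD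
open scoped ENNReal Real ContDiff

/-- Case (D). -/
theorem TH_D (c : ℝ) (hc : 0 < c) (x0 y0 : ℝ × ℝ) (hx : x0 ∈ Kc c) (hy1 : y0.1 ≠ 0)
    (hy2 : y0.2 ≠ 0) (h1 : Nf 0 y0 x0 = 0) :
    ∃ δ : ℝ, 0 < δ ∧ ∃ C : ℝ, 0 ≤ C ∧ ∀ T : ℝ, 1 ≤ T → ∀ ρ : ℝ, 0 < ρ → ρ < δ →
      ∀ α β : ℝ × ℝ → ℂ, Measurable α → Measurable β → (∀ p, ‖α p‖ ≤ 1) → (∀ p, ‖β p‖ ≤ 1) →
      (∀ p, α p ≠ 0 → |p.1 / ρ - y0.1| ≤ δ ∧ |p.2 - x0.1| ≤ δ) →
      (∀ p, β p ≠ 0 → |p.1 / ρ - y0.2| ≤ δ ∧ |p.2 - x0.2| ≤ δ) →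
      Th c T (pd α β) ≤ ENNReal.ofReal (C * (1 + Real.log T) ^ 5 / T) := by
  classical
  obtain ⟨δm, Cm, hδm, hCm, hmpl⟩ := rect_mpl c hc x0 y0 hx hy1 hy2 h1
  obtain ⟨δt, Ct, hδt, hCt, hth⟩ := rect_th c hc x0 y0 hx hy1 hy2 h1
  obtain ⟨CZ, hCZ, hz⟩ := z_split c hc
  set D : ℝ := min (min δm δt) 1 with hD
  have hDpos : 0 < D := by positivity
  have dm : D ≤ δm := (min_le_left _ _).trans (min_le_left _ _)
  have dt : D ≤ δt := (min_le_left _ _).trans (min_le_right _ _)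
  have d1 : D ≤ 1 := min_le_right _ _
  set η : ℝ := D / 2 with hη
  have hηpos : 0 < η := by positivity
  obtain ⟨δn, hδn, hN⟩ := Nf_small c hc x0 y0 hx h1 η hηpos
  set δ : ℝ := min δn D / 4 with hδdef
  have hδ : 0 < δ := by positivity
  have gn : 4 * δ ≤ δn := by
    have := min_le_left δn D
    rw [hδdef]
    linarith
  have gD : 4 * δ ≤ D := by
    have := min_le_right δn D
    rw [hδdef]
    linarith
  refine ⟨δ, hδ, 100 * (CZ * (Cm + Ct + 1)), by positivity,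
    fun T hT ρ hρ hρδ α β hα hβ hα1 hβ1 hαs hβs => ?_⟩
  have hT0 : 0 < T := by linarith
  have hlog : 0 ≤ Real.log T := Real.log_nonneg hT
  obtain ⟨J, hJ1, hJ2⟩ := dy_num T hT
  set Q : ℝ := CZ * (1 + Real.log T) ^ 2 * ((Cm + Ct + 1) / T) with hQ
  have hQ0 : 0 ≤ Q := by positivity
  -- the supports
  have hNb : ∀ q : V × V, tp (dd α) (dd β) q ≠ 0 → Nb (2 * δ) ρ x0 y0 q := by
    intro q hq
    unfold tp at hq
    obtain ⟨a1, a2, _, a4⟩ := dd_supp hαs q.1 (left_ne_zero_of_mul hq)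
    obtain ⟨b1, b2, _, b4⟩ := dd_supp hβs q.2 (right_ne_zero_of_mul hq)
    exact ⟨by linarith, by linarith, by linarith, by linarith, a4, b4⟩
  have hddm := dd_meas α hα
  have hddm' := dd_meas β hβ
  have hdd1 := dd_norm α hα1
  have hdd1' := dd_norm β hβ1
  have htpm : Measurable (tp (dd α) (dd β)) := by
    unfold tp
    exact (hddm.comp measurable_fst).mul (hddm'.comp measurable_snd)
  have htp1 : ∀ q, ‖tp (dd α) (dd β) q‖ ≤ 1 := fun q => by
    unfold tp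
    rw [norm_mul]
    exact mul_le_one₀ (hdd1 _) (norm_nonneg _) (hdd1' _)
  have hMm : ∀ m : ℝ → ℂ, Measurable m →
      Measurable fun q => m (Nx ρ q) * (m (Nz ρ q) * tp (dd α) (dd β) q) := fun m hm =>
    (hm.comp (measurable_Nx ρ)).mul ((hm.comp (measurable_Nz ρ)).mul htpm)
  have hMn : ∀ m : ℝ → ℂ, (∀ x, ‖m x‖ ≤ 1) →
      ∀ q, ‖m (Nx ρ q) * (m (Nz ρ q) * tp (dd α) (dd β) q)‖ ≤ 1 := fun m hm q => by
    rw [norm_mul, norm_mul]
    exact mul_le_one₀ (hm _) (by positivity) (mul_le_one₀ (hm _) (norm_nonneg _) (htp1 _))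
  have hQm : CZ * (1 + Real.log T) ^ 2 * (Cm / T + 1 / T) ≤ Q := by
    rw [hQ, ← add_div]
    gcongr
    linarith
  have hQt : CZ * (1 + Real.log T) ^ 2 * (Ct / T + 1 / T) ≤ Q := by
    rw [hQ, ← add_div]
    gcongr
    linarith
  -- one-sided pieces
  have hP1 : ∀ s : ℝ, s = 1 ∨ s = -1 → ∀ κ : ℝ, 0 < κ → κ ≤ η →
      Th c T (mM ρ (fun x => mp s (x / κ)) α β) ≤ ENNReal.ofReal Q := by
    intro s hs κ hκ hκη
    have hm1 : Measurable fun x : ℝ => mp s (x / κ) :=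
      (measurable_mp s).comp (measurable_id.div_const κ)
    refine Th_of_FF c hc T hT0 ρ _ hm1 (fun x => mp_norm s _) (fun x => ?_) α β hα hβ hα1 hβ1 Q ?_
    · unfold mp
      exact Complex.conj_ofReal _
    · refine (hz T hT ρ hρ (by linarith) x0 y0
        (fun q => mp s (Nx ρ q / κ) * (mp s (Nz ρ q / κ) * tp (dd α) (dd β) q))
        (hMm (fun x => mp s (x / κ)) hm1) (hMn (fun x => mp s (x / κ)) fun x => mp_norm s _)
        (fun q hq => ?_) (Cm / T) (by positivity) (fun γ d hγ _ hd _ => ?_)).trans hQm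
      · exact Nb_mono (by linarith) (hNb q (right_ne_zero_of_mul (right_ne_zero_of_mul hq)))
      · refine hmpl T hT0 ρ hρ (by linarith) κ hκ (by linarith) s hs (dd α) (dd β) hddm hddm' hdd1
          hdd1' (fun u hu => ?_) (fun v hv => ?_) γ d hγ hd
        · obtain ⟨a1, a2, _, a4⟩ := dd_supp hαs u hu
          exact ⟨by linarith, by linarith, by linarith⟩
        · obtain ⟨a1, a2, _, a4⟩ := dd_supp hβs v hv
          exact ⟨by linarith, by linarith, by linarith⟩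
  -- the last piece
  have hP2 : Th c T (mM ρ (fun x => tq (x / (η / 2 ^ J))) α β) ≤ ENNReal.ofReal Q := by
    set κ : ℝ := η / 2 ^ J with hκdef
    have hκ : 0 < κ := by positivity
    have h2J : (1 : ℝ) ≤ 2 ^ J := one_le_pow₀ (by norm_num)
    have hκη : κ ≤ η := div_le_self hηpos.le h2J
    have hκT : κ ≤ 1 / T ^ 2 := by
      calc κ = η * (1 / 2) ^ J := by rw [hκdef, one_div, inv_pow]; rfl
        _ ≤ 1 * (1 / T ^ 2) := by
          gcongr
          linarith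
        _ = 1 / T ^ 2 := one_mul _
    have hm1 : Measurable fun x : ℝ => tq (x / κ) :=
      measurable_tq.comp (measurable_id.div_const κ)
    refine Th_of_FF c hc T hT0 ρ _ hm1 (fun x => tq_norm _) (fun x => ?_) α β hα hβ hα1 hβ1 Q ?_
    · unfold tq
      exact Complex.conj_ofReal _
    · refine (hz T hT ρ hρ (by linarith) x0 y0
        (fun q => tq (Nx ρ q / κ) * (tq (Nz ρ q / κ) * tp (dd α) (dd β) q))
        (hMm (fun x => tq (x / κ)) hm1) (hMn (fun x => tq (x / κ)) fun x => tq_norm _)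
        (fun q hq => ?_) (Ct / T) (by positivity) (fun γ d hγ _ hd _ => ?_)).trans hQt
      · exact Nb_mono (by linarith) (hNb q (right_ne_zero_of_mul (right_ne_zero_of_mul hq)))
      · refine hth T hT ρ hρ (by linarith) κ hκ (by linarith) hκT
          (fun q => tq (Nx ρ q / κ) * (tq (Nz ρ q / κ) * tp (dd α) (dd β) q))
          (hMm (fun x => tq (x / κ)) hm1) (hMn (fun x => tq (x / κ)) fun x => tq_norm _)
          (fun q hq => ?_) γ d hγ hd
        refine ⟨Nb_mono (by linarith) (hNb q (right_ne_zero_of_mul (right_ne_zero_of_mul hq))),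
          tq_ne_zero _ κ hκ (left_ne_zero_of_mul hq),
          tq_ne_zero _ κ hκ (left_ne_zero_of_mul (right_ne_zero_of_mul hq))⟩
  -- the decomposition
  set mul : ℕ → ℝ → ℂ := fun i x => if i < J then mp 1 (x / (η / 2 ^ i)) else
    if i < J + J then mp (-1) (x / (η / 2 ^ (i - J))) else tq (x / (η / 2 ^ J)) with hmul
  have hκi : ∀ i : ℕ, 0 < η / 2 ^ i ∧ η / 2 ^ i ≤ η := fun i =>
    ⟨by positivity, div_le_self hηpos.le (one_le_pow₀ (by norm_num))⟩
  have hpiece : ∀ i : ℕ, Th c T (mM ρ (mul i) α β) ≤ ENNReal.ofReal Q := by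
    intro i
    by_cases hi : i < J
    · have e1 : mul i = fun x => mp 1 (x / (η / 2 ^ i)) := by
        funext x
        rw [hmul]
        simp only [if_pos hi]
      rw [e1]
      exact hP1 1 (Or.inl rfl) _ (hκi i).1 (hκi i).2
    · by_cases hi2 : i < J + J
      · have e1 : mul i = fun x => mp (-1) (x / (η / 2 ^ (i - J))) := by
          funext x
          rw [hmul]
          simp only [if_neg hi, if_pos hi2]
        rw [e1]
        exact hP1 (-1) (Or.inr rfl) _ (hκi _).1 (hκi _).2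
      · have e1 : mul i = fun x => tq (x / (η / 2 ^ J)) := by
          funext x
          rw [hmul]
          simp only [if_neg hi, if_neg hi2]
        rw [e1]
        exact hP2
  have hmulm : ∀ i, Measurable (mul i) := by
    intro i
    rw [hmul]
    simp only
    split_ifs
    · exact (measurable_mp 1).comp (measurable_id.div_const _)
    · exact (measurable_mp (-1)).comp (measurable_id.div_const _)
    · exact measurable_tq.comp (measurable_id.div_const _)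
  have hmuln : ∀ i x, ‖mul i x‖ ≤ 1 := by
    intro i x
    rw [hmul]
    simp only
    split_ifs
    · exact mp_norm _ _
    · exact mp_norm _ _
    · exact tq_norm _
  have hsum : pd α β = fun p => ∑ i : Fin (J + J + 1), mM ρ (mul i) α β p := by
    funext p
    by_cases hp : pd α β p = 0
    · rw [hp]
      refine (Finset.sum_eq_zero fun i _ => ?_).symm
      unfold mM
      rw [hp, mul_zero]
    · unfold mM
      rw [← Finset.sum_mul]
      have hp' : α (p.1.1, p.2.1) * β (p.1.2, p.2.2) ≠ 0 := hp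
      obtain ⟨a1, a2⟩ := hαs _ (left_ne_zero_of_mul hp')
      obtain ⟨b1, b2⟩ := hβs _ (right_ne_zero_of_mul hp')
      simp only at a1 a2 b1 b2
      set x : ℝ := Nf ρ (p.1.1 / ρ, p.1.2 / ρ) p.2 with hxdef
      have hxη : |x| ≤ η := hN ρ hρ (by linarith) _ _ (by simp only; linarith)
        (by simp only; linarith) (by linarith) (by linarith)
      have hxη' : |x / η| ≤ 1 := by
        rw [abs_div, abs_of_pos hηpos, div_le_one hηpos]
        exact hxη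
      have hs := mpl_sum J (x / η) hxη'
      have hdiv : ∀ j : ℕ, x / (η / 2 ^ j) = 2 ^ j * (x / η) := fun j => by
        field_simp
      have e2 : (∑ i : Fin (J + J + 1), mul i x) = 1 := by
        rw [Fin.sum_univ_eq_sum_range (fun i => mul i x) (J + J + 1), Finset.sum_range_succ,
          Finset.sum_range_add]
        have f1 : ∀ i ∈ Finset.range J, mul i x = ((mpl (2 ^ i * (x / η)) : ℝ) : ℂ) := by
          intro i hi
          rw [hmul]
          simp only [if_pos (Finset.mem_range.1 hi)]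
          unfold mp
          rw [one_mul, hdiv]
        have f2 : ∀ i ∈ Finset.range J,
            mul (J + i) x = ((mpl (-(2 ^ i * (x / η))) : ℝ) : ℂ) := by
          intro i hi
          have g1 : ¬ J + i < J := by omega
          have g2 : J + i < J + J := by
            have := Finset.mem_range.1 hi
            omega
          rw [hmul]
          simp only [if_neg g1, if_pos g2]
          unfold mp
          rw [Nat.add_sub_cancel_left, hdiv, neg_one_mul]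
        have f3 : mul (J + J) x = ((th (2 ^ J * (x / η)) : ℝ) : ℂ) := by
          have g1 : ¬ J + J < J := by omega
          have g2 : ¬ J + J < J + J := by omega
          rw [hmul]
          simp only [if_neg g1, if_neg g2]
          unfold tq
          rw [hdiv]
        rw [Finset.sum_congr rfl f1, Finset.sum_congr rfl f2, f3]
        exact_mod_cast hs
      rw [e2, one_mul]
  rw [hsum]
  refine (Th_sum c hc T hT0 (J + J + 1) (fun i : Fin (J + J + 1) => mM ρ (mul i) α β)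
    (fun i => measurable_mM ρ _ (hmulm i) α β hα hβ) 1
    (fun i => mM_norm ρ _ (hmuln i) α β hα1 hβ1)).trans ?_
  have h5 : (∑ i : Fin (J + J + 1), Th c T (mM ρ (mul i) α β)) ≤
      ((J + J + 1 : ℕ) : ℝ≥0∞) * ENNReal.ofReal Q := by
    refine (Finset.sum_le_card_nsmul (Finset.univ : Finset (Fin (J + J + 1)))
      (fun i : Fin (J + J + 1) => Th c T (mM ρ (mul i) α β)) (ENNReal.ofReal Q)
      fun i _ => hpiece i).trans ?_
    rw [Finset.card_univ, Fintype.card_fin, nsmul_eq_mul]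
  have h6 : ∀ (n : ℕ) (x : ℝ), (n : ℝ≥0∞) * ((n : ℝ≥0∞) * ENNReal.ofReal x) =
      ENNReal.ofReal ((n : ℝ) * ((n : ℝ) * x)) := by
    intro n x
    rw [ENNReal.ofReal_mul (Nat.cast_nonneg n), ENNReal.ofReal_mul (Nat.cast_nonneg n),
      ENNReal.ofReal_natCast]
  refine (mul_le_mul_right h5 _).trans ?_
  rw [h6]
  apply ENNReal.ofReal_le_ofReal
  have hJ3 : ((J + J + 1 : ℕ) : ℝ) ≤ 10 * (1 + Real.log T) := by
    push_cast
    linarith
  have hL1 : 1 ≤ 1 + Real.log T := by linarith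
  calc ((J + J + 1 : ℕ) : ℝ) * (((J + J + 1 : ℕ) : ℝ) * Q) ≤
        (10 * (1 + Real.log T)) * ((10 * (1 + Real.log T)) * Q) := by gcongr
    _ = 100 * (CZ * (Cm + Ct + 1)) * (1 + Real.log T) ^ 4 / T := by
        rw [hQ]
        ring
    _ ≤ 100 * (CZ * (Cm + Ct + 1)) * (1 + Real.log T) ^ 5 / T := by
        have h7 : (1 + Real.log T) ^ 4 ≤ (1 + Real.log T) ^ 5 :=
          pow_le_pow_right₀ hL1 (by norm_num)
        gcongr

end Pool.Agent.SDT.N1

end -- N1.MD4
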