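import Pool.Agent.SDT.B44
import Pool.Agent.SDT.B48
import Pool.Agent.SDT.B52

set_option autoImplicit false

namespace Pool.Agent.SDT.MP_6cbfb8_an
end Pool.Agent.SDT.MP_6cbfb8_an
namespace Pool.Agent.SDT.MST
end Pool.Agent.SDT.MST
namespace Pool.Agent.SDT.N1
end Pool.Agent.SDT.N1

section -- N1F.G2a

/-!
N1F, block G2: from points to compact sets in the inner scaled variable (outer difference of
type N).
-/

namespace Pool.Agent.SDT.N1F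

open MeasureTheory Set Metric Pool.Agent.SDT.MP_6cbfb8_an Pool.Agent.SDT.MST Pool.Agent.SDT.N1
open scoped ENNReal Real ContDiff

lemma g2f_Sz_mono {al be A0 B0 δ δ' : ℝ} (h : δ ≤ δ') (hs : Sz al be A0 B0 δ) :
    Sz al be A0 B0 δ' :=
  ⟨hs.1, hs.2.1, hs.2.2.1, hs.2.2.2.1, hs.2.2.2.2.1.trans_le h, hs.2.2.2.2.2.trans_le h⟩

lemma g2f_LB_mono {sy sx sz y x z δ δ' : ℝ} {u : V} (h : δ ≤ δ') (hs : LB sy sx sz y x z δ u) :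
    LB sy sx sz y x z δ' u :=
  ⟨hs.1.trans h, hs.2.1.trans h, hs.2.2.trans h⟩

lemma g2f_LB_shift {sy sx sz y x z z' δ : ℝ} {u : V} (hδ : 0 < δ) (hz : |z' - z| ≤ δ / 2)
    (hs : LB sy sx sz y x z' (δ / 2) u) : LB sy sx sz y x z δ u := by
  refine ⟨hs.1.trans (by linarith), hs.2.1.trans (by linarith), ?_⟩
  have h4 := abs_sub_le (u.2.2 / sz) z' z
  have h5 := hs.2.2
  linarith

/-- The general form: `sz₁`, `sz₂` are the scales of the inner variables; `Adm δ p` are the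
conditions on the parameters `p`. -/
theorem g2f_compact (c : ℝ) (hc : 0 < c) {P : Type*} (Adm : ℝ → P → Prop)
    (hAdm : ∀ δ δ' p, δ' ≤ δ → Adm δ' p → Adm δ p) (sy₁ sx₁ sz₁ sy₂ sx₂ sz₂ : P → ℝ)
    (x0 y0 : ℝ × ℝ) (C7 : ℝ) (hC7 : 1 ≤ C7)
    (hloc : ∀ z0 : ℝ × ℝ, z0.1 ≠ 0 → z0.2 ≠ 0 →
      ∃ δ : ℝ, 0 < δ ∧ ∃ C : ℝ, 0 ≤ C ∧ ∀ (T : ℝ) (p : P), 0 < T → Adm δ p →
      ∀ A B : V → ℂ, Measurable A → Measurable B → (∀ a, ‖A a‖ ≤ 1) → (∀ b, ‖B b‖ ≤ 1) →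
      (∀ u, A u ≠ 0 → LB (sy₁ p) (sx₁ p) (sz₁ p) y0.1 x0.1 z0.1 δ u) →
      (∀ v, B v ≠ 0 → LB (sy₂ p) (sx₂ p) (sz₂ p) y0.2 x0.2 z0.2 δ v) →
      ‖FF c T (tp A B)‖ ≤ C / T) :
    ∃ δ : ℝ, 0 < δ ∧ ∃ C : ℝ, 0 ≤ C ∧ ∀ (T : ℝ) (p : P), 0 < T → Adm δ p →
      ∀ A B : V → ℂ, Measurable A → Measurable B → (∀ a, ‖A a‖ ≤ 1) → (∀ b, ‖B b‖ ≤ 1) →
      (∀ u, A u ≠ 0 → |u.1 / sy₁ p - y0.1| ≤ δ ∧ |u.2.1 / sx₁ p - x0.1| ≤ δ ∧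
        1 / C7 ≤ |u.2.2 / sz₁ p| ∧ |u.2.2 / sz₁ p| ≤ C7) →
      (∀ v, B v ≠ 0 → |v.1 / sy₂ p - y0.2| ≤ δ ∧ |v.2.1 / sx₂ p - x0.2| ≤ δ ∧
        1 / C7 ≤ |v.2.2 / sz₂ p| ∧ |v.2.2 / sz₂ p| ≤ C7) →
      ‖FF c T (tp A B)‖ ≤ C / T := by
  have hC7' : 0 < C7 := by linarith
  have key : ∃ δ : ℝ, 0 < δ ∧ ∃ C : ℝ, 0 ≤ C ∧ ∀ z0 ∈ g2_Z C7, ∀ (T : ℝ) (p : P), 0 < T →
      Adm δ p →
      ∀ A B : V → ℂ, Measurable A → Measurable B → (∀ a, ‖A a‖ ≤ 1) → (∀ b, ‖B b‖ ≤ 1) →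
      (∀ u, A u ≠ 0 → LB (sy₁ p) (sx₁ p) (sz₁ p) y0.1 x0.1 z0.1 δ u) →
      (∀ v, B v ≠ 0 → LB (sy₂ p) (sx₂ p) (sz₂ p) y0.2 x0.2 z0.2 δ v) →
      ‖FF c T (tp A B)‖ ≤ C / T := by
    refine g2_unif (g2_Z_compact C7) (fun z0 δ C => ∀ (T : ℝ) (p : P), 0 < T → Adm δ p →
      ∀ A B : V → ℂ, Measurable A → Measurable B → (∀ a, ‖A a‖ ≤ 1) → (∀ b, ‖B b‖ ≤ 1) →
      (∀ u, A u ≠ 0 → LB (sy₁ p) (sx₁ p) (sz₁ p) y0.1 x0.1 z0.1 δ u) →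
      (∀ v, B v ≠ 0 → LB (sy₂ p) (sx₂ p) (sz₂ p) y0.2 x0.2 z0.2 δ v) →
      ‖FF c T (tp A B)‖ ≤ C / T) ?_ ?_ ?_
    · intro z0 δ δ' C C' hδ' hδδ hCC h T p hT hp A B hA hB hA1 hB1 hAs hBs
      refine (h T p hT (hAdm _ _ p hδδ hp) A B hA hB hA1 hB1
        (fun u hu => g2f_LB_mono hδδ (hAs u hu)) (fun v hv => g2f_LB_mono hδδ (hBs v hv))).trans ?_
      gcongr
    · rintro z0 ⟨⟨h1, -⟩, h2, -⟩
      have h3 : 0 < 1 / C7 := by positivity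
      exact hloc z0 (abs_pos.1 (h3.trans_le h1)) (abs_pos.1 (h3.trans_le h2))
    · intro z0 z0' δ C hδ hd h T p hT hp A B hA hB hA1 hB1 hAs hBs
      rw [Prod.dist_eq, max_le_iff, Real.dist_eq, Real.dist_eq] at hd
      exact h T p hT (hAdm _ _ p (by linarith) hp) A B hA hB hA1 hB1
        (fun u hu => g2f_LB_shift hδ hd.1 (hAs u hu)) (fun v hv => g2f_LB_shift hδ hd.2 (hBs v hv))
  obtain ⟨δ, hδ, C, hC, h⟩ := key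
  refine ⟨δ, hδ, ((⌊2 * C7 / δ⌋₊ + 1 : ℕ) : ℝ) ^ 2 * C, by positivity, ?_⟩
  intro T p hT hp A B hA hB hA1 hB1 hAs hBs
  rw [mul_div_assoc]
  refine g2_split c hc T hT A B hA hB hA1 hB1 (fun u => u.2.2 / sz₁ p) (fun v => v.2.2 / sz₂ p)
    (by fun_prop) (by fun_prop) C7 δ (C / T) hδ (by positivity) (fun u hu => (hAs u hu).2.2.2)
    (fun v hv => (hBs v hv).2.2.2) ?_
  intro A' B' hA' hB' hA1' hB1' u0 v0 hu0 hv0 hAs' hBs'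
  refine h (u0.2.2 / sz₁ p, v0.2.2 / sz₂ p) ⟨(hAs u0 hu0).2.2, (hBs v0 hv0).2.2⟩ T p hT hp
    A' B' hA' hB' hA1' hB1' ?_ ?_
  · intro u hu
    have h1 := hAs' u hu
    have h2 := hAs u h1.1
    exact ⟨h2.1, h2.2.1, h1.2⟩
  · intro v hv
    have h1 := hBs' v hv
    have h2 := hBs v h1.1
    exact ⟨h2.1, h2.2.1, h1.2⟩

/-- `propNF2` from `propNF`. -/
theorem propNF2_of (c : ℝ) (hc : 0 < c) (A0 B0 : ℝ) (x0 y0 : ℝ × ℝ) (C7 : ℝ) (hC7 : 1 ≤ C7)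
    (hloc : ∀ z0 : ℝ × ℝ, z0.1 ≠ 0 → z0.2 ≠ 0 →
      ∃ δ : ℝ, 0 < δ ∧ ∃ C : ℝ, 0 ≤ C ∧ ∀ T al be ρ γ : ℝ, 0 < T → Sz al be A0 B0 δ →
      0 < ρ → ρ < δ → 0 < γ → γ < δ →
      ∀ A B : V → ℂ, Measurable A → Measurable B → (∀ a, ‖A a‖ ≤ 1) → (∀ b, ‖B b‖ ≤ 1) →
      (∀ u, A u ≠ 0 → LB (al * be ^ 2 * ρ) al (al * γ) y0.1 x0.1 z0.1 δ u) →
      (∀ v, B v ≠ 0 → LB (be * ρ) be (be * al ^ 2 * γ) y0.2 x0.2 z0.2 δ v) →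
      ‖FF c T (tp A B)‖ ≤ C / T) :
    ∃ δ : ℝ, 0 < δ ∧ ∃ C : ℝ, 0 ≤ C ∧ ∀ T al be ρ γ : ℝ, 0 < T → Sz al be A0 B0 δ →
      0 < ρ → ρ < δ → 0 < γ → γ < δ →
      ∀ A B : V → ℂ, Measurable A → Measurable B → (∀ a, ‖A a‖ ≤ 1) → (∀ b, ‖B b‖ ≤ 1) →
      (∀ u, A u ≠ 0 → |u.1 / (al * be ^ 2 * ρ) - y0.1| ≤ δ ∧ |u.2.1 / al - x0.1| ≤ δ ∧
        1 / C7 ≤ |u.2.2 / (al * γ)| ∧ |u.2.2 / (al * γ)| ≤ C7) →
      (∀ v, B v ≠ 0 → |v.1 / (be * ρ) - y0.2| ≤ δ ∧ |v.2.1 / be - x0.2| ≤ δ ∧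
        1 / C7 ≤ |v.2.2 / (be * al ^ 2 * γ)| ∧ |v.2.2 / (be * al ^ 2 * γ)| ≤ C7) →
      ‖FF c T (tp A B)‖ ≤ C / T := by
  obtain ⟨δ, hδ, C, hC, h⟩ := g2f_compact c hc (P := ℝ × ℝ × ℝ × ℝ)
    (fun δ p => Sz p.1 p.2.1 A0 B0 δ ∧ (0 < p.2.2.1 ∧ p.2.2.1 < δ) ∧ (0 < p.2.2.2 ∧ p.2.2.2 < δ))
    (fun δ δ' p hδ h => ⟨g2f_Sz_mono hδ h.1, ⟨h.2.1.1, h.2.1.2.trans_le hδ⟩,
      ⟨h.2.2.1, h.2.2.2.trans_le hδ⟩⟩)
    (fun p => p.1 * p.2.1 ^ 2 * p.2.2.1) (fun p => p.1) (fun p => p.1 * p.2.2.2)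
    (fun p => p.2.1 * p.2.2.1) (fun p => p.2.1) (fun p => p.2.1 * p.1 ^ 2 * p.2.2.2)
    x0 y0 C7 hC7 (by
      intro z0 hz1 hz2
      obtain ⟨δ, hδ, C, hC, h⟩ := hloc z0 hz1 hz2
      refine ⟨δ, hδ, C, hC, ?_⟩
      rintro T ⟨al, be, ρ, γ⟩ hT ⟨hS, ⟨hρ, hρδ⟩, hγ, hγδ⟩ A B hA hB hA1 hB1 hAs hBs
      exact h T al be ρ γ hT hS hρ hρδ hγ hγδ A B hA hB hA1 hB1 hAs hBs)
  refine ⟨δ, hδ, C, hC, ?_⟩
  intro T al be ρ γ hT hS hρ hρδ hγ hγδ A B hA hB hA1 hB1 hAs hBs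
  exact h T (al, be, ρ, γ) hT ⟨hS, ⟨hρ, hρδ⟩, hγ, hγδ⟩ A B hA hB hA1 hB1 hAs hBs

/-- `propDF2` from `propDF`. -/
theorem propDF2_of (c : ℝ) (hc : 0 < c) (A0 B0 : ℝ) (x0 y0 : ℝ × ℝ) (C5 C7 : ℝ) (hC7 : 1 ≤ C7)
    (hloc : ∀ z0 : ℝ × ℝ, z0.1 ≠ 0 → z0.2 ≠ 0 →
      ∃ δ : ℝ, 0 < δ ∧ ∃ C : ℝ, 0 ≤ C ∧ ∀ T al be ρ γ κ : ℝ, 0 < T → Sz al be A0 B0 δ →
      0 < ρ → ρ < δ → 0 < γ → γ < δ → 0 < κ → κ < δ → γ ≤ C5 * κ →
      ∀ A B : V → ℂ, Measurable A → Measurable B → (∀ a, ‖A a‖ ≤ 1) → (∀ b, ‖B b‖ ≤ 1) →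
      (∀ u, A u ≠ 0 → LB (al * be ^ 2 * ρ) al (al * γ) y0.1 x0.1 z0.1 δ u) →
      (∀ v, B v ≠ 0 → LB (be * ρ) be (be * al ^ 2 * κ * γ) y0.2 x0.2 z0.2 δ v) →
      ‖FF c T (tp A B)‖ ≤ C / T) :
    ∃ δ : ℝ, 0 < δ ∧ ∃ C : ℝ, 0 ≤ C ∧ ∀ T al be ρ γ κ : ℝ, 0 < T → Sz al be A0 B0 δ →
      0 < ρ → ρ < δ → 0 < γ → γ < δ → 0 < κ → κ < δ → γ ≤ C5 * κ →
      ∀ A B : V → ℂ, Measurable A → Measurable B → (∀ a, ‖A a‖ ≤ 1) → (∀ b, ‖B b‖ ≤ 1) →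
      (∀ u, A u ≠ 0 → |u.1 / (al * be ^ 2 * ρ) - y0.1| ≤ δ ∧ |u.2.1 / al - x0.1| ≤ δ ∧
        1 / C7 ≤ |u.2.2 / (al * γ)| ∧ |u.2.2 / (al * γ)| ≤ C7) →
      (∀ v, B v ≠ 0 → |v.1 / (be * ρ) - y0.2| ≤ δ ∧ |v.2.1 / be - x0.2| ≤ δ ∧
        1 / C7 ≤ |v.2.2 / (be * al ^ 2 * κ * γ)| ∧ |v.2.2 / (be * al ^ 2 * κ * γ)| ≤ C7) →
      ‖FF c T (tp A B)‖ ≤ C / T := by
  obtain ⟨δ, hδ, C, hC, h⟩ := g2f_compact c hc (P := ℝ × ℝ × ℝ × ℝ × ℝ)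
    (fun δ p => Sz p.1 p.2.1 A0 B0 δ ∧ (0 < p.2.2.1 ∧ p.2.2.1 < δ) ∧
      (0 < p.2.2.2.1 ∧ p.2.2.2.1 < δ) ∧ (0 < p.2.2.2.2 ∧ p.2.2.2.2 < δ) ∧
      p.2.2.2.1 ≤ C5 * p.2.2.2.2)
    (fun δ δ' p hδ h => ⟨g2f_Sz_mono hδ h.1, ⟨h.2.1.1, h.2.1.2.trans_le hδ⟩,
      ⟨h.2.2.1.1, h.2.2.1.2.trans_le hδ⟩, ⟨h.2.2.2.1.1, h.2.2.2.1.2.trans_le hδ⟩, h.2.2.2.2⟩)
    (fun p => p.1 * p.2.1 ^ 2 * p.2.2.1) (fun p => p.1) (fun p => p.1 * p.2.2.2.1)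
    (fun p => p.2.1 * p.2.2.1) (fun p => p.2.1)
    (fun p => p.2.1 * p.1 ^ 2 * p.2.2.2.2 * p.2.2.2.1)
    x0 y0 C7 hC7 (by
      intro z0 hz1 hz2
      obtain ⟨δ, hδ, C, hC, h⟩ := hloc z0 hz1 hz2
      refine ⟨δ, hδ, C, hC, ?_⟩
      rintro T ⟨al, be, ρ, γ, κ⟩ hT ⟨hS, ⟨hρ, hρδ⟩, ⟨hγ, hγδ⟩, ⟨hκ, hκδ⟩, hγκ⟩ A B hA hB hA1 hB1
        hAs hBs
      exact h T al be ρ γ κ hT hS hρ hρδ hγ hγδ hκ hκδ hγκ A B hA hB hA1 hB1 hAs hBs)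
  refine ⟨δ, hδ, C, hC, ?_⟩
  intro T al be ρ γ κ hT hS hρ hρδ hγ hγδ hκ hκδ hγκ A B hA hB hA1 hB1 hAs hBs
  exact h T (al, be, ρ, γ, κ) hT ⟨hS, ⟨hρ, hρδ⟩, ⟨hγ, hγδ⟩, ⟨hκ, hκδ⟩, hγκ⟩ A B hA hB hA1 hB1
    hAs hBs

end Pool.Agent.SDT.N1F

end -- N1F.G2a

section -- N1F.G2b

/-!
N1F, block G2: both differences of type O, from points to the global statement.
-/

namespace Pool.Agent.SDT.N1F

open MeasureTheory Set Metric Pool.Agent.SDT.MP_6cbfb8_an Pool.Agent.SDT.MST Pool.Agent.SDT.N1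
open scoped ENNReal Real ContDiff

/-- Restriction to a cell for three functions. -/
noncomputable def g2f_cut3 (φ₁ φ₂ φ₃ : V → ℝ) (R δ : ℝ) (A : V → ℂ) (i : ℕ × ℕ × ℕ) : V → ℂ :=
  g2_cut φ₁ R δ (g2_cut φ₂ R δ (g2_cut φ₃ R δ A i.2.2) i.2.1) i.1

lemma g2f_cut3_meas {φ₁ φ₂ φ₃ : V → ℝ} (h1 : Measurable φ₁) (h2 : Measurable φ₂)
    (h3 : Measurable φ₃) (R δ : ℝ) {A : V → ℂ} (hA : Measurable A) (i : ℕ × ℕ × ℕ) :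
    Measurable (g2f_cut3 φ₁ φ₂ φ₃ R δ A i) :=
  g2_cut_meas h1 R δ (g2_cut_meas h2 R δ (g2_cut_meas h3 R δ hA _) _) _

lemma g2f_cut3_norm (φ₁ φ₂ φ₃ : V → ℝ) (R δ : ℝ) {A : V → ℂ} (hA : ∀ a, ‖A a‖ ≤ 1)
    (i : ℕ × ℕ × ℕ) (u : V) : ‖g2f_cut3 φ₁ φ₂ φ₃ R δ A i u‖ ≤ 1 :=
  g2_cut_norm φ₁ R δ (g2_cut_norm φ₂ R δ (g2_cut_norm φ₃ R δ hA _) _) _ u

lemma g2f_cut3_ne {φ₁ φ₂ φ₃ : V → ℝ} {R δ : ℝ} {A : V → ℂ} {i : ℕ × ℕ × ℕ} {u : V}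
    (h : g2f_cut3 φ₁ φ₂ φ₃ R δ A i u ≠ 0) : (g2_ix R δ (φ₁ u) = i.1 ∧ g2_ix R δ (φ₂ u) = i.2.1 ∧
      g2_ix R δ (φ₃ u) = i.2.2) ∧ A u ≠ 0 := by
  have h1 := g2_cut_ne h
  have h2 := g2_cut_ne h1.2
  have h3 := g2_cut_ne h2.2
  exact ⟨⟨h1.1, h2.1, h3.1⟩, h3.2⟩

lemma g2f_cut3_sum (φ₁ φ₂ φ₃ : V → ℝ) (R δ : ℝ) (hδ : 0 < δ) (A : V → ℂ)
    (hAs : ∀ u, A u ≠ 0 → |φ₁ u| ≤ R ∧ |φ₂ u| ≤ R ∧ |φ₃ u| ≤ R) (u : V) :
    ∑ i ∈ Finset.range (⌊2 * R / δ⌋₊ + 1) ×ˢ (Finset.range (⌊2 * R / δ⌋₊ + 1) ×ˢ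
      Finset.range (⌊2 * R / δ⌋₊ + 1)), g2f_cut3 φ₁ φ₂ φ₃ R δ A i u = A u := by
  rw [Finset.sum_product_right]
  have h1 : ∀ y ∈ Finset.range (⌊2 * R / δ⌋₊ + 1) ×ˢ Finset.range (⌊2 * R / δ⌋₊ + 1),
      ∑ x ∈ Finset.range (⌊2 * R / δ⌋₊ + 1), g2f_cut3 φ₁ φ₂ φ₃ R δ A (x, y) u =
        g2_cut φ₂ R δ (g2_cut φ₃ R δ A y.2) y.1 u := by
    intro y _
    refine g2_cut_sum φ₁ R δ hδ (g2_cut φ₂ R δ (g2_cut φ₃ R δ A y.2) y.1) (fun v hv => ?_) u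
    exact (hAs v (g2_cut_ne (g2_cut_ne hv).2).2).1
  rw [Finset.sum_congr rfl h1, Finset.sum_product_right]
  have h2 : ∀ y ∈ Finset.range (⌊2 * R / δ⌋₊ + 1),
      ∑ x ∈ Finset.range (⌊2 * R / δ⌋₊ + 1), g2_cut φ₂ R δ (g2_cut φ₃ R δ A y) x u =
        g2_cut φ₃ R δ A y u := by
    intro y _
    refine g2_cut_sum φ₂ R δ hδ (g2_cut φ₃ R δ A y) (fun v hv => ?_) u
    exact (hAs v (g2_cut_ne hv).2).2.1
  rw [Finset.sum_congr rfl h2]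
  exact g2_cut_sum φ₃ R δ hδ A (fun v hv => (hAs v hv).2.2) u

/-- Splitting in cells in all six variables. -/
theorem g2f_split3 (c : ℝ) (hc : 0 < c) (T : ℝ) (hT : 0 < T) (A B : V → ℂ) (hA : Measurable A)
    (hB : Measurable B) (hA1 : ∀ a, ‖A a‖ ≤ 1) (hB1 : ∀ b, ‖B b‖ ≤ 1)
    (φ₁ φ₂ φ₃ ψ₁ ψ₂ ψ₃ : V → ℝ)
    (m1 : Measurable φ₁) (m2 : Measurable φ₂) (m3 : Measurable φ₃)
    (n1 : Measurable ψ₁) (n2 : Measurable ψ₂) (n3 : Measurable ψ₃)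
    (R δ K : ℝ) (hδ : 0 < δ) (hK : 0 ≤ K)
    (hAs : ∀ u, A u ≠ 0 → |φ₁ u| ≤ R ∧ |φ₂ u| ≤ R ∧ |φ₃ u| ≤ R)
    (hBs : ∀ v, B v ≠ 0 → |ψ₁ v| ≤ R ∧ |ψ₂ v| ≤ R ∧ |ψ₃ v| ≤ R)
    (hloc : ∀ A' B' : V → ℂ, Measurable A' → Measurable B' → (∀ a, ‖A' a‖ ≤ 1) →
      (∀ b, ‖B' b‖ ≤ 1) → ∀ u0 v0, A u0 ≠ 0 → B v0 ≠ 0 → Wr c u0 v0 ≠ 0 →
      (∀ u, A' u ≠ 0 → A u ≠ 0 ∧ |φ₁ u - φ₁ u0| ≤ δ ∧ |φ₂ u - φ₂ u0| ≤ δ ∧
        |φ₃ u - φ₃ u0| ≤ δ) →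
      (∀ v, B' v ≠ 0 → B v ≠ 0 ∧ |ψ₁ v - ψ₁ v0| ≤ δ ∧ |ψ₂ v - ψ₂ v0| ≤ δ ∧
        |ψ₃ v - ψ₃ v0| ≤ δ) → ‖FF c T (tp A' B')‖ ≤ K) :
    ‖FF c T (tp A B)‖ ≤ ((⌊2 * R / δ⌋₊ + 1 : ℕ) : ℝ) ^ 6 * K := by
  set N : ℕ := ⌊2 * R / δ⌋₊ + 1 with hN
  set S : Finset (ℕ × ℕ × ℕ) := Finset.range N ×ˢ (Finset.range N ×ˢ Finset.range N) with hS
  have h1 : tp A B = fun q => ∑ p ∈ S ×ˢ S,
      tp (g2f_cut3 φ₁ φ₂ φ₃ R δ A p.1) (g2f_cut3 ψ₁ ψ₂ ψ₃ R δ B p.2) q := by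
    funext q
    rw [Finset.sum_product]
    unfold tp
    simp only
    rw [← Finset.sum_mul_sum, hS, hN, g2f_cut3_sum φ₁ φ₂ φ₃ R δ hδ A hAs,
      g2f_cut3_sum ψ₁ ψ₂ ψ₃ R δ hδ B hBs]
  rw [h1, FF_sum c hc T hT _ _ (fun p => ?_) 1 (fun p q => ?_)]
  · refine (norm_sum_le _ _).trans ?_
    have h2 : ∀ p ∈ S ×ˢ S,
        ‖FF c T (tp (g2f_cut3 φ₁ φ₂ φ₃ R δ A p.1) (g2f_cut3 ψ₁ ψ₂ ψ₃ R δ B p.2))‖ ≤ K := by
      intro p _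
      by_cases hu : ∃ u0 v0, g2f_cut3 φ₁ φ₂ φ₃ R δ A p.1 u0 ≠ 0 ∧
          g2f_cut3 ψ₁ ψ₂ ψ₃ R δ B p.2 v0 ≠ 0 ∧ Wr c u0 v0 ≠ 0
      · obtain ⟨u0, v0, hu0, hv0, hW⟩ := hu
        have a0 := g2f_cut3_ne hu0
        have b0 := g2f_cut3_ne hv0
        have a0' := hAs u0 a0.2
        have b0' := hBs v0 b0.2
        refine hloc _ _ (g2f_cut3_meas m1 m2 m3 R δ hA _) (g2f_cut3_meas n1 n2 n3 R δ hB _)
          (g2f_cut3_norm φ₁ φ₂ φ₃ R δ hA1 _) (g2f_cut3_norm ψ₁ ψ₂ ψ₃ R δ hB1 _) u0 v0 a0.2 b0.2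
          hW ?_ ?_
        · intro u hu
          have a1 := g2f_cut3_ne hu
          have a1' := hAs u a1.2
          exact ⟨a1.2, g2_ix_near hδ a1'.1 a0'.1 (a1.1.1.trans a0.1.1.symm),
            g2_ix_near hδ a1'.2.1 a0'.2.1 (a1.1.2.1.trans a0.1.2.1.symm),
            g2_ix_near hδ a1'.2.2 a0'.2.2 (a1.1.2.2.trans a0.1.2.2.symm)⟩
        · intro v hv
          have b1 := g2f_cut3_ne hv
          have b1' := hBs v b1.2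
          exact ⟨b1.2, g2_ix_near hδ b1'.1 b0'.1 (b1.1.1.trans b0.1.1.symm),
            g2_ix_near hδ b1'.2.1 b0'.2.1 (b1.1.2.1.trans b0.1.2.1.symm),
            g2_ix_near hδ b1'.2.2 b0'.2.2 (b1.1.2.2.trans b0.1.2.2.symm)⟩
      · push Not at hu
        have h3 : FF c T (tp (g2f_cut3 φ₁ φ₂ φ₃ R δ A p.1) (g2f_cut3 ψ₁ ψ₂ ψ₃ R δ B p.2)) = 0 := by
          unfold FF tp
          have h4 : (fun q : V × V => g2f_cut3 φ₁ φ₂ φ₃ R δ A p.1 q.1 *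
              g2f_cut3 ψ₁ ψ₂ ψ₃ R δ B p.2 q.2 * ((Wr c q.1 q.2 : ℝ) : ℂ) * Kt T (Fr c q.1 q.2)) =
              fun _ => 0 := by
            funext q
            by_cases h5 : g2f_cut3 φ₁ φ₂ φ₃ R δ A p.1 q.1 = 0
            · rw [h5]; simp
            · by_cases h6 : g2f_cut3 ψ₁ ψ₂ ψ₃ R δ B p.2 q.2 = 0
              · rw [h6]; simp
              · rw [hu q.1 q.2 h5 h6]; simp
          rw [h4]
          simp
        rw [h3]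
        simpa using hK
    refine (Finset.sum_le_sum h2).trans (le_of_eq ?_)
    rw [Finset.sum_const, Finset.card_product, hS, Finset.card_product, Finset.card_product,
      Finset.card_range, nsmul_eq_mul]
    push_cast
    ring
  · exact ((g2f_cut3_meas m1 m2 m3 R δ hA _).comp measurable_fst).mul
      ((g2f_cut3_meas n1 n2 n3 R δ hB _).comp measurable_snd)
  · unfold tp
    rw [norm_mul]
    exact mul_le_one₀ (g2f_cut3_norm φ₁ φ₂ φ₃ R δ hA1 _ _) (norm_nonneg _)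
      (g2f_cut3_norm ψ₁ ψ₂ ψ₃ R δ hB1 _ _)

/-- The space of base points `(A0, B0, x0, y0, z0, k1)`. -/
abbrev XI : Type := ℝ × ℝ × (ℝ × ℝ) × (ℝ × ℝ) × (ℝ × ℝ) × ℝ

/-- The local statement. -/
def PI (c : ℝ) (x : XI) (δ C : ℝ) : Prop :=
  ∀ T al be ρ₁ ρ₂ γ₁ γ₂ : ℝ, 0 < T → Sz al be x.1 x.2.1 δ →
      0 < ρ₁ → ρ₁ < δ → 0 < ρ₂ → ρ₂ < δ → 0 < γ₁ → γ₁ < δ → 0 < γ₂ → γ₂ < δ →
      al ^ 2 * ρ₁ * γ₁ = be ^ 2 * ρ₂ * γ₂ → |be ^ 2 * γ₂ / γ₁ - x.2.2.2.2.2| < δ →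
      be ^ 2 * ρ₂ / ρ₁ ≤ be ^ 2 * γ₂ / γ₁ →
      ∀ A B : V → ℂ, Measurable A → Measurable B → (∀ a, ‖A a‖ ≤ 1) → (∀ b, ‖B b‖ ≤ 1) →
      (∀ u, A u ≠ 0 → LB (al * ρ₁) al (al * γ₁) x.2.2.2.1.1 x.2.2.1.1 x.2.2.2.2.1.1 δ u) →
      (∀ v, B v ≠ 0 → LB (be * ρ₂) be (be * γ₂) x.2.2.2.1.2 x.2.2.1.2 x.2.2.2.2.1.2 δ v) →
      ‖FF c T (tp A B)‖ ≤ C / T

/-- The compact set of base points. -/
def KI (c K : ℝ) : Set XI :=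
  (Icc 0 1 ×ˢ Icc 0 1 ×ˢ (Icc (1 / K) K ×ˢ Icc (1 / K) K) ×ˢ g2_Z K ×ˢ g2_Z K ×ˢ Icc 0 K) ∩
    ({x | x.1 * x.2.1 = 0} ∩
      {x | x.1 * x.2.2.1.1 ^ 2 + x.2.1 * x.2.2.1.2 ^ 2 ≤ 1 - c ^ 2 / 4})

theorem KI_compact (c K : ℝ) : IsCompact (KI c K) := by
  refine IsCompact.inter_right ?_ (IsClosed.inter ?_ ?_)
  · exact isCompact_Icc.prod (isCompact_Icc.prod ((isCompact_Icc.prod isCompact_Icc).prod
      ((g2_Z_compact K).prod ((g2_Z_compact K).prod isCompact_Icc))))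
  · exact isClosed_eq (by fun_prop) continuous_const
  · exact isClosed_le (by fun_prop) continuous_const

lemma g2f_LB_shift3 {sy sx sz y x z y' x' z' δ : ℝ} {u : V} (hy : |y' - y| ≤ δ / 2)
    (hx : |x' - x| ≤ δ / 2) (hz : |z' - z| ≤ δ / 2)
    (hs : LB sy sx sz y' x' z' (δ / 2) u) : LB sy sx sz y x z δ u := by
  obtain ⟨h1, h2, h3⟩ := hs
  refine ⟨?_, ?_, ?_⟩
  · have h4 := abs_sub_le (u.1 / sy) y' y
    linarith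
  · have h4 := abs_sub_le (u.2.1 / sx) x' x
    linarith
  · have h4 := abs_sub_le (u.2.2 / sz) z' z
    linarith

lemma g2f_dist {x x' : XI} {d : ℝ} (h : dist x' x ≤ d) :
    |x'.1 - x.1| ≤ d ∧ |x'.2.1 - x.2.1| ≤ d ∧
      (|x'.2.2.1.1 - x.2.2.1.1| ≤ d ∧ |x'.2.2.1.2 - x.2.2.1.2| ≤ d) ∧
      (|x'.2.2.2.1.1 - x.2.2.2.1.1| ≤ d ∧ |x'.2.2.2.1.2 - x.2.2.2.1.2| ≤ d) ∧
      (|x'.2.2.2.2.1.1 - x.2.2.2.2.1.1| ≤ d ∧ |x'.2.2.2.2.1.2 - x.2.2.2.2.1.2| ≤ d) ∧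
      |x'.2.2.2.2.2 - x.2.2.2.2.2| ≤ d := by
  simpa only [Prod.dist_eq, max_le_iff, Real.dist_eq] using h

/-- Uniform version of the local statement. -/
theorem PI_unif (c : ℝ) (K : ℝ) (hK : 1 ≤ K)
    (hI : ∀ (A0 B0 : ℝ) (x0 y0 z0 : ℝ × ℝ) (k1 : ℝ), Bs c A0 B0 x0 → y0.1 ≠ 0 → y0.2 ≠ 0 →
      z0.1 ≠ 0 → z0.2 ≠ 0 → 0 ≤ k1 → ∃ δ : ℝ, 0 < δ ∧ ∃ C : ℝ, 0 ≤ C ∧
        PI c (A0, B0, x0, y0, z0, k1) δ C) :
    ∃ δ : ℝ, 0 < δ ∧ ∃ C : ℝ, 0 ≤ C ∧ ∀ x ∈ KI c K, PI c x δ C := by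
  refine g2_unif (KI_compact c K) (PI c) ?_ ?_ ?_
  · intro x δ δ' C C' hδ' hδδ hCC h T al be ρ₁ ρ₂ γ₁ γ₂ hT hS r1 r1' r2 r2' g1 g1' g2 g2' hbal hk
      hle A B hA hB hA1 hB1 hAs hBs
    refine (h T al be ρ₁ ρ₂ γ₁ γ₂ hT (g2f_Sz_mono hδδ hS) r1 (r1'.trans_le hδδ) r2
      (r2'.trans_le hδδ) g1 (g1'.trans_le hδδ) g2 (g2'.trans_le hδδ) hbal (hk.trans_le hδδ) hle
      A B hA hB hA1 hB1 (fun u hu => g2f_LB_mono hδδ (hAs u hu))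
      (fun v hv => g2f_LB_mono hδδ (hBs v hv))).trans ?_
    gcongr
  · rintro ⟨A0, B0, x0, y0, z0, k1⟩ ⟨⟨hA0, hB0, ⟨hx1, hx2⟩, hy, hz, hk⟩, hAB, hx⟩
    simp only [mem_ofPred_eq] at hAB hx hA0 hB0 hx1 hx2 hk
    have h3 : 0 < 1 / K := by positivity
    refine hI A0 B0 x0 y0 z0 k1 ⟨hA0.1, hB0.1, hAB, h3.trans_le hx1.1, h3.trans_le hx2.1, hx⟩
      (abs_pos.1 (h3.trans_le hy.1.1)) (abs_pos.1 (h3.trans_le hy.2.1))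
      (abs_pos.1 (h3.trans_le hz.1.1)) (abs_pos.1 (h3.trans_le hz.2.1)) hk.1
  · intro x x' δ C hδ hd h T al be ρ₁ ρ₂ γ₁ γ₂ hT hS r1 r1' r2 r2' g1 g1' g2 g2' hbal hk
      hle A B hA hB hA1 hB1 hAs hBs
    obtain ⟨d1, d2, ⟨d3, d3'⟩, ⟨d4, d4'⟩, ⟨d5, d5'⟩, d6⟩ := g2f_dist hd
    refine h T al be ρ₁ ρ₂ γ₁ γ₂ hT ?_ r1 (by linarith) r2
      (by linarith) g1 (by linarith) g2 (by linarith) hbal ?_ hle
      A B hA hB hA1 hB1 (fun u hu => g2f_LB_shift3 d4 d3 d5 (hAs u hu))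
      (fun v hv => g2f_LB_shift3 d4' d3' d5' (hBs v hv))
    · obtain ⟨s1, s2, s3, s4, s5, s6⟩ := hS
      refine ⟨s1, s2, s3, s4, ?_, ?_⟩
      · have h4 := abs_sub_le (al ^ 2) x'.1 x.1
        linarith
      · have h4 := abs_sub_le (be ^ 2) x'.2.1 x.2.1
        linarith
    · have h4 := abs_sub_le (be ^ 2 * γ₂ / γ₁) x'.2.2.2.2.2 x.2.2.2.2.2
      linarith

/-- The global statement with exact balance and one order. -/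
theorem propI3_of (c : ℝ) (hc : 0 < c) (K : ℝ) (hK : 1 ≤ K)
    (hI : ∀ (A0 B0 : ℝ) (x0 y0 z0 : ℝ × ℝ) (k1 : ℝ), Bs c A0 B0 x0 → y0.1 ≠ 0 → y0.2 ≠ 0 →
      z0.1 ≠ 0 → z0.2 ≠ 0 → 0 ≤ k1 → ∃ δ : ℝ, 0 < δ ∧ ∃ C : ℝ, 0 ≤ C ∧
        PI c (A0, B0, x0, y0, z0, k1) δ C) :
    ∃ δ : ℝ, 0 < δ ∧ ∃ C : ℝ, 0 ≤ C ∧ ∀ T al be ρ₁ ρ₂ γ₁ γ₂ : ℝ, 0 < T →
      0 < al → al ≤ 1 → 0 < be → be ≤ 1 → al * be < δ →
      0 < ρ₁ → ρ₁ < δ → 0 < ρ₂ → ρ₂ < δ → 0 < γ₁ → γ₁ < δ → 0 < γ₂ → γ₂ < δ →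
      al ^ 2 * ρ₁ * γ₁ = be ^ 2 * ρ₂ * γ₂ → be ^ 2 * γ₂ ≤ K * γ₁ →
      be ^ 2 * ρ₂ / ρ₁ ≤ be ^ 2 * γ₂ / γ₁ →
      ∀ A B : V → ℂ, Measurable A → Measurable B → (∀ a, ‖A a‖ ≤ 1) → (∀ b, ‖B b‖ ≤ 1) →
      (∀ u, A u ≠ 0 → GB (al * ρ₁) al (al * γ₁) K u) →
      (∀ v, B v ≠ 0 → GB (be * ρ₂) be (be * γ₂) K v) →
      ‖FF c T (tp A B)‖ ≤ C / T := by
  obtain ⟨δ, hδ, C, hC, h⟩ := PI_unif c K hK hI
  have hK0 : 0 < K := by linarith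
  refine ⟨δ, hδ, ((⌊2 * K / δ⌋₊ + 1 : ℕ) : ℝ) ^ 6 * C, by positivity, ?_⟩
  intro T al be ρ₁ ρ₂ γ₁ γ₂ hT hal hal1 hbe hbe1 hab r1 r1' r2 r2' g1 g1' g2 g2' hbal hk
      hle A B hA hB hA1 hB1 hAs hBs
  rw [mul_div_assoc]
  have pos_le : ∀ t : ℝ, 1 / K ≤ t → t ≤ K → |t| ≤ K := by
    intro t h1 h2
    rw [abs_of_pos (lt_of_lt_of_le (by positivity) h1)]
    exact h2
  refine g2f_split3 c hc T hT A B hA hB hA1 hB1 (fun u => u.1 / (al * ρ₁)) (fun u => u.2.1 / al)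
    (fun u => u.2.2 / (al * γ₁)) (fun v => v.1 / (be * ρ₂)) (fun v => v.2.1 / be)
    (fun v => v.2.2 / (be * γ₂)) (by fun_prop) (by fun_prop) (by fun_prop) (by fun_prop)
    (by fun_prop) (by fun_prop) K δ (C / T) hδ (by positivity)
    (fun u hu => ⟨(hAs u hu).1.2, pos_le _ (hAs u hu).2.1.1 (hAs u hu).2.1.2, (hAs u hu).2.2.2⟩)
    (fun v hv => ⟨(hBs v hv).1.2, pos_le _ (hBs v hv).2.1.1 (hBs v hv).2.1.2, (hBs v hv).2.2.2⟩) ?_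
  intro A' B' hA' hB' hA1' hB1' u0 v0 hu0 hv0 hW hAs' hBs'
  have hu := hAs u0 hu0
  have hv := hBs v0 hv0
  -- the support condition
  have hwf := wf_ne c hc _ _ (f1_Wr_ne c u0 v0 hW).1
  have hx : al ^ 2 * (u0.2.1 / al) ^ 2 + be ^ 2 * (v0.2.1 / be) ^ 2 < 1 - c ^ 2 / 4 := by
    have e1 : al ^ 2 * (u0.2.1 / al) ^ 2 = u0.2.1 ^ 2 := by field_simp
    have e2 : be ^ 2 * (v0.2.1 / be) ^ 2 = v0.2.1 ^ 2 := by field_simp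
    rw [e1, e2]
    linarith
  have hk0 : 0 ≤ be ^ 2 * γ₂ / γ₁ := by positivity
  have hkK : be ^ 2 * γ₂ / γ₁ ≤ K := by rwa [div_le_iff₀ g1]
  have hal2 : al ^ 2 ≤ 1 := pow_le_one₀ hal.le hal1
  have hbe2 : be ^ 2 ≤ 1 := pow_le_one₀ hbe.le hbe1
  rcases le_total al be with hle' | hle'
  · refine h (0, be ^ 2, (u0.2.1 / al, v0.2.1 / be), (u0.1 / (al * ρ₁), v0.1 / (be * ρ₂)),
      (u0.2.2 / (al * γ₁), v0.2.2 / (be * γ₂)), be ^ 2 * γ₂ / γ₁) ?_ T al be ρ₁ ρ₂ γ₁ γ₂ hT ?_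
      r1 r1' r2 r2' g1 g1' g2 g2' hbal ?_ hle A' B' hA' hB' hA1' hB1' ?_ ?_
    · refine ⟨⟨⟨le_rfl, zero_le_one⟩, ⟨by positivity, hbe2⟩, ⟨⟨hu.2.1.1, hu.2.1.2⟩,
        ⟨hv.2.1.1, hv.2.1.2⟩⟩, ⟨hu.1, hv.1⟩, ⟨hu.2.2, hv.2.2⟩, ⟨hk0, hkK⟩⟩, ?_, ?_⟩
      · simp
      · simp only [mem_ofPred_eq, zero_mul, zero_add]
        have : 0 ≤ al ^ 2 * (u0.2.1 / al) ^ 2 := by positivity
        linarith
    · refine ⟨hal, hal1, hbe, hbe1, ?_, ?_⟩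
      · simp only [sub_zero]
        rw [abs_of_nonneg (by positivity)]
        calc al ^ 2 = al * al := by ring
          _ ≤ al * be := by gcongr
          _ < δ := hab
      · simpa using hδ
    · simpa using hδ
    · intro u hu'
      have h1 := hAs' u hu'
      exact ⟨h1.2.1, h1.2.2.1, h1.2.2.2⟩
    · intro v hv'
      have h1 := hBs' v hv'
      exact ⟨h1.2.1, h1.2.2.1, h1.2.2.2⟩
  · refine h (al ^ 2, 0, (u0.2.1 / al, v0.2.1 / be), (u0.1 / (al * ρ₁), v0.1 / (be * ρ₂)),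
      (u0.2.2 / (al * γ₁), v0.2.2 / (be * γ₂)), be ^ 2 * γ₂ / γ₁) ?_ T al be ρ₁ ρ₂ γ₁ γ₂ hT ?_
      r1 r1' r2 r2' g1 g1' g2 g2' hbal ?_ hle A' B' hA' hB' hA1' hB1' ?_ ?_
    · refine ⟨⟨⟨by positivity, hal2⟩, ⟨le_rfl, zero_le_one⟩, ⟨⟨hu.2.1.1, hu.2.1.2⟩,
        ⟨hv.2.1.1, hv.2.1.2⟩⟩, ⟨hu.1, hv.1⟩, ⟨hu.2.2, hv.2.2⟩, ⟨hk0, hkK⟩⟩, ?_, ?_⟩
      · simp
      · simp only [mem_ofPred_eq, zero_mul, add_zero]
        have : 0 ≤ be ^ 2 * (v0.2.1 / be) ^ 2 := by positivity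
        linarith
    · refine ⟨hal, hal1, hbe, hbe1, ?_, ?_⟩
      · simpa using hδ
      · simp only [sub_zero]
        rw [abs_of_nonneg (by positivity)]
        calc be ^ 2 = be * be := by ring
          _ ≤ al * be := by gcongr
          _ < δ := hab
    · simpa using hδ
    · intro u hu'
      have h1 := hAs' u hu'
      exact ⟨h1.2.1, h1.2.2.1, h1.2.2.2⟩
    · intro v hv'
      have h1 := hBs' v hv'
      exact ⟨h1.2.1, h1.2.2.1, h1.2.2.2⟩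

end Pool.Agent.SDT.N1F

end -- N1F.G2b

section -- N1F.G2c

/-!
N1F, block G2: both differences of type O, the final global statement.
-/

namespace Pool.Agent.SDT.N1F

open MeasureTheory Set Metric Pool.Agent.SDT.MP_6cbfb8_an Pool.Agent.SDT.MST Pool.Agent.SDT.N1
open scoped ENNReal Real ContDiff

lemma g2f_GB_mono {sy sx sz K K' : ℝ} {u : V} (hK : 1 ≤ K) (h : K ≤ K') (hu : GB sy sx sz K u) :
    GB sy sx sz K' u := by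
  have h1 : 1 / K' ≤ 1 / K := one_div_le_one_div_of_le (by linarith) h
  obtain ⟨⟨a1, a2⟩, ⟨b1, b2⟩, ⟨c1, c2⟩⟩ := hu
  exact ⟨⟨h1.trans a1, a2.trans h⟩, ⟨h1.trans b1, b2.trans h⟩, ⟨h1.trans c1, c2.trans h⟩⟩

lemma g2f_GB_swap {sy sx sz K : ℝ} {u : V} (hu : GB sy sx sz K (u.2.2, u.2.1, u.1)) :
    GB sz sx sy K u := ⟨hu.2.2, hu.2.1, hu.1⟩

lemma g2f_GB_scale {s τ sx sz K : ℝ} {u : V} (hK : 1 ≤ K) (hτ1 : 1 / K ≤ τ) (hτ2 : τ ≤ K)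
    (hu : GB s sx sz K u) : GB (s * τ) sx sz (K ^ 2) u := by
  have hK2 : K ≤ K ^ 2 := by nlinarith
  have hK0 : 0 < K := by linarith
  have hτ : 0 < τ := lt_of_lt_of_le (by positivity) hτ1
  refine ⟨?_, (g2f_GB_mono hK hK2 hu).2⟩
  have h1 := hu.1
  have e1 : |u.1 / (s * τ)| = |u.1 / s| / τ := by
    rw [← div_div, abs_div (u.1 / s) τ, abs_of_pos hτ]
  rw [e1]
  constructor
  · rw [le_div_iff₀ hτ]
    calc 1 / K ^ 2 * τ ≤ 1 / K ^ 2 * K := by gcongr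
      _ = 1 / K := by field_simp
      _ ≤ _ := h1.1
  · rw [div_le_iff₀ hτ]
    calc |u.1 / s| ≤ K := h1.2
      _ = K ^ 2 * (1 / K) := by field_simp
      _ ≤ K ^ 2 * τ := by gcongr

theorem propI2_of (c : ℝ) (hc : 0 < c) (K : ℝ) (hK : 1 ≤ K)
    (hI : ∀ (A0 B0 : ℝ) (x0 y0 z0 : ℝ × ℝ), Bs c A0 B0 x0 → y0.1 ≠ 0 → y0.2 ≠ 0 →
      z0.1 ≠ 0 → z0.2 ≠ 0 → ∀ k1 : ℝ, 0 ≤ k1 → ∃ δ : ℝ, 0 < δ ∧ ∃ C : ℝ, 0 ≤ C ∧
      ∀ T al be ρ₁ ρ₂ γ₁ γ₂ : ℝ, 0 < T → Sz al be A0 B0 δ →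
      0 < ρ₁ → ρ₁ < δ → 0 < ρ₂ → ρ₂ < δ → 0 < γ₁ → γ₁ < δ → 0 < γ₂ → γ₂ < δ →
      al ^ 2 * ρ₁ * γ₁ = be ^ 2 * ρ₂ * γ₂ → |be ^ 2 * γ₂ / γ₁ - k1| < δ →
      be ^ 2 * ρ₂ / ρ₁ ≤ be ^ 2 * γ₂ / γ₁ →
      ∀ A B : V → ℂ, Measurable A → Measurable B → (∀ a, ‖A a‖ ≤ 1) → (∀ b, ‖B b‖ ≤ 1) →
      (∀ u, A u ≠ 0 → LB (al * ρ₁) al (al * γ₁) y0.1 x0.1 z0.1 δ u) →
      (∀ v, B v ≠ 0 → LB (be * ρ₂) be (be * γ₂) y0.2 x0.2 z0.2 δ v) →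
      ‖FF c T (tp A B)‖ ≤ C / T) :
    ∃ δ : ℝ, 0 < δ ∧ ∃ C : ℝ, 0 ≤ C ∧ ∀ T al be ρ₁ ρ₂ γ₁ γ₂ : ℝ, 0 < T →
      0 < al → al ≤ 1 → 0 < be → be ≤ 1 → al * be ≤ δ →
      0 < ρ₁ → ρ₁ < δ → 0 < ρ₂ → ρ₂ < δ → 0 < γ₁ → γ₁ < δ → 0 < γ₂ → γ₂ < δ →
      al ^ 2 * ρ₁ * γ₁ ≤ K * (be ^ 2 * ρ₂ * γ₂) → be ^ 2 * ρ₂ * γ₂ ≤ K * (al ^ 2 * ρ₁ * γ₁) →
      be ^ 2 * γ₂ ≤ K * γ₁ → be ^ 2 * ρ₂ ≤ K * ρ₁ →
      ∀ A B : V → ℂ, Measurable A → Measurable B → (∀ a, ‖A a‖ ≤ 1) → (∀ b, ‖B b‖ ≤ 1) →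
      (∀ u, A u ≠ 0 → GB (al * ρ₁) al (al * γ₁) K u) →
      (∀ v, B v ≠ 0 → GB (be * ρ₂) be (be * γ₂) K v) →
      ‖FF c T (tp A B)‖ ≤ C / T := by
  have hK2 : K ≤ K ^ 2 := by nlinarith
  have hK0 : 0 < K := by linarith
  obtain ⟨δ, hδ, C, hC, h⟩ := propI3_of c hc (K ^ 2) (hK.trans hK2)
    (fun A0 B0 x0 y0 z0 k1 hb hy1 hy2 hz1 hz2 hk => hI A0 B0 x0 y0 z0 hb hy1 hy2 hz1 hz2 k1 hk)
  have hδK : δ / (2 * K) < δ := by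
    rw [div_lt_iff₀ (by positivity)]
    nlinarith
  refine ⟨δ / (2 * K), by positivity, C, hC, ?_⟩
  intro T al be ρ₁ ρ₂ γ₁ γ₂ hT hal hal1 hbe hbe1 hab r1 r1' r2 r2' g1 g1' g2 g2' hb1 hb2 hk1 hk2
    A B hA hB hA1 hB1 hAs hBs
  have hden : 0 < be ^ 2 * ρ₂ * γ₂ := by positivity
  set τ : ℝ := al ^ 2 * ρ₁ * γ₁ / (be ^ 2 * ρ₂ * γ₂) with hτdef
  have hτ2 : τ ≤ K := by rwa [hτdef, div_le_iff₀ hden]
  have hτ1 : 1 / K ≤ τ := by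
    rw [hτdef, div_le_div_iff₀ hK0 hden]
    linarith
  have hτ : 0 < τ := lt_of_lt_of_le (by positivity) hτ1
  have r3 : 0 < ρ₂ * τ := by positivity
  have r3' : ρ₂ * τ < δ := by
    calc ρ₂ * τ ≤ ρ₂ * K := by gcongr
      _ < δ / (2 * K) * K := by gcongr
      _ = δ / 2 := by field_simp
      _ < δ := by linarith
  have hbal : al ^ 2 * ρ₁ * γ₁ = be ^ 2 * (ρ₂ * τ) * γ₂ := by
    rw [hτdef]
    field_simp
  have hA2 : ∀ u, A u ≠ 0 → GB (al * ρ₁) al (al * γ₁) (K ^ 2) u :=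
    fun u hu => g2f_GB_mono hK hK2 (hAs u hu)
  have hB2 : ∀ v, B v ≠ 0 → GB (be * (ρ₂ * τ)) be (be * γ₂) (K ^ 2) v := by
    intro v hv
    have h1 := g2f_GB_scale hK hτ1 hτ2 (hBs v hv)
    rwa [mul_assoc] at h1
  rcases le_total (be ^ 2 * (ρ₂ * τ) / ρ₁) (be ^ 2 * γ₂ / γ₁) with hle | hle
  · refine h T al be ρ₁ (ρ₂ * τ) γ₁ γ₂ hT hal hal1 hbe hbe1 (hab.trans_lt hδK) r1
      (r1'.trans hδK) r3 r3' g1 (g1'.trans hδK) g2 (g2'.trans hδK) hbal ?_ hle A B hA hB hA1 hB1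
      hA2 hB2
    exact hk1.trans (by gcongr)
  · have hsw : FF c T (tp A B) = FF c T (tp (fun u : V => A (u.2.2, u.2.1, u.1))
        (fun v : V => B (v.2.2, v.2.1, v.1))) := (FF_swp c T (tp A B)).symm
    rw [hsw]
    refine h T al be γ₁ γ₂ ρ₁ (ρ₂ * τ) hT hal hal1 hbe hbe1 (hab.trans_lt hδK) g1
      (g1'.trans hδK) g2 (g2'.trans hδK) r1 (r1'.trans hδK) r3 r3' ?_ ?_ hle _ _
      (hA.comp (by fun_prop)) (hB.comp (by fun_prop)) (fun u => hA1 _) (fun v => hB1 _)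
      (fun u hu => g2f_GB_swap (hA2 _ hu)) (fun v hv => g2f_GB_swap (hB2 _ hv))
    · linarith [hbal, mul_comm ρ₁ γ₁, mul_comm (ρ₂ * τ) γ₂]
    · calc be ^ 2 * (ρ₂ * τ) = (be ^ 2 * ρ₂) * τ := by ring
        _ ≤ (K * ρ₁) * K := by gcongr
        _ = K ^ 2 * ρ₁ := by ring

end Pool.Agent.SDT.N1F

end -- N1F.G2c

section -- N1S.S8

/-!
N1S, part 8: from one shell to all product densities in a strip.
-/

namespace Pool.Agent.SDT.N1S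

open MeasureTheory Set Metric Pool.Agent.SDT.MP_6cbfb8_an Pool.Agent.SDT.MST Pool.Agent.SDT.N1
open scoped ENNReal Real

/-- The dyadic `L⁴` estimates of the strips in one shell: `M = 2 ^ (-m)`, `ν = 2 ^ (-i)`,
`c = M ν`. -/
def OneShell (K : ℕ) : Prop := ∃ C : ℝ, 0 ≤ C ∧ ∀ (i m : ℕ) (T : ℝ), 2 ^ (i + m) ≤ T →
    ∀ G₁ G₂ : ℝ → ℂ, Measurable G₁ → Measurable G₂ → (∀ a, ‖G₁ a‖ ≤ 1) → (∀ b, ‖G₂ b‖ ≤ 1) →
    (∀ a, G₁ a ≠ 0 → 0 ≤ a) →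
    (∀ b, G₂ b ≠ 0 → 1 / 2 ≤ b ∧ (1 / 4) ^ m / 4 ≤ 1 - b ^ 2 ∧ 1 - b ^ 2 < (1 / 4) ^ m) →
    ∫⁻ t in Icc T (2 * T), ∫⁻ ξ : ℝ × ℝ,
      ‖Eo (1 / 2 ^ (i + m)) G₁ G₂ t ξ - Eo (2 * (1 / 2 ^ (i + m))) G₁ G₂ t ξ‖ₑ ^ 4 ≤
      ENNReal.ofReal (C * (1 + Real.log T) ^ K / T)

/-- The amplitude of a strip. -/
noncomputable def ws (c : ℝ) (x : ℝ × ℝ) : ℝ := wf c x.1 x.2 - wf (2 * c) x.1 x.2

/-- The extension operator of a strip, for general densities. -/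
noncomputable def EG (c : ℝ) (g : ℝ × ℝ → ℂ) (t : ℝ) (ξ : ℝ × ℝ) : ℂ :=
  ∫ x : ℝ × ℝ, g x * ((ws c x : ℝ) : ℂ) * ex (t * qf c x.1 x.2) * ex (x.1 * ξ.1 + x.2 * ξ.2)

/-- The product density on the plane. -/
noncomputable def pr (G₁ G₂ : ℝ → ℂ) (x : ℝ × ℝ) : ℂ := G₁ x.1 * G₂ x.2

theorem pr_meas (G₁ G₂ : ℝ → ℂ) (h1 : Measurable G₁) (h2 : Measurable G₂) :
    Measurable (pr G₁ G₂) := by
  unfold pr
  exact (h1.comp measurable_fst).mul (h2.comp measurable_snd)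

theorem pr_norm (G₁ G₂ : ℝ → ℂ) (b1 : ∀ a, ‖G₁ a‖ ≤ 1) (b2 : ∀ b, ‖G₂ b‖ ≤ 1) (x : ℝ × ℝ) :
    ‖pr G₁ G₂ x‖ ≤ 1 := by
  unfold pr
  rw [norm_mul]
  exact mul_le_one₀ (b1 _) (norm_nonneg _) (b2 _)

theorem EG_eq (c : ℝ) (hc : 0 < c) (G₁ G₂ : ℝ → ℂ) (h1 : Measurable G₁) (h2 : Measurable G₂)
    (b1 : ∀ a, ‖G₁ a‖ ≤ 1) (b2 : ∀ b, ‖G₂ b‖ ≤ 1) (t : ℝ) (ξ : ℝ × ℝ) :
    Eo c G₁ G₂ t ξ - Eo (2 * c) G₁ G₂ t ξ = EG c (pr G₁ G₂) t ξ := by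
  have hc2 : 0 < 2 * c := by linarith
  have i1 := Ei_int c hc G₁ G₂ h1 h2 b1 b2 t ξ
  have i2 := Ei_int (2 * c) hc2 G₁ G₂ h1 h2 b1 b2 t ξ
  have h3 := integral_sub i1 i2
  unfold Eo EG pr
  refine Eq.trans h3.symm ?_
  refine integral_congr_ae (Filter.Eventually.of_forall fun x => ?_)
  simp only
  unfold Ei ws
  by_cases hw : wf (2 * c) x.1 x.2 = 0
  · rw [hw]
    push_cast
    ring
  · rw [FN.qf_change (2 * c) c hc2 hc (by linarith) x.1 x.2 hw]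
    push_cast
    ring

theorem ws_cont (c : ℝ) (hc : 0 < c) : Continuous (ws c) := by
  unfold ws
  exact (wf_cont c hc).sub (wf_cont (2 * c) (by linarith))

theorem ws_int (c : ℝ) (hc : 0 < c) : Integrable (ws c) := by
  unfold ws
  exact (wf_int c hc).sub (wf_int (2 * c) (by linarith))

/-- The support of the strip. -/
theorem ws_supp (c : ℝ) (hc : 0 < c) (x : ℝ × ℝ) (h : ws c x ≠ 0) :
    c ^ 2 / 4 < 1 - x.1 ^ 2 - x.2 ^ 2 ∧ 1 - x.1 ^ 2 - x.2 ^ 2 < 4 * c ^ 2 := by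
  have hc2 : 0 < 2 * c := by linarith
  obtain ⟨v, hv⟩ : ∃ v, v = 1 - x.1 ^ 2 - x.2 ^ 2 := ⟨_, rfl⟩
  unfold ws wf at h
  rw [← hv] at h ⊢
  constructor
  · by_contra h1
    push Not at h1
    apply h
    have e1 : sma c v = 0 := (hft_cut hc).2 _ h1
    have e2 : sma (2 * c) v = 0 := (hft_cut hc2).2 _ (by nlinarith)
    rw [e1, e2, sub_zero]
  · by_contra h1
    push Not at h1
    apply h
    have h2 : 2 * c ≤ √v := Real.le_sqrt_of_sq_le (by nlinarith)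
    unfold sma smb
    rw [Real.smoothTransition.one_of_one_le, Real.smoothTransition.one_of_one_le, sub_self]
    · rw [le_div_iff₀ hc2]
      linarith
    · rw [le_div_iff₀ hc]
      linarith

/-- The integrand. -/
noncomputable def EGi (c : ℝ) (g : ℝ × ℝ → ℂ) (t : ℝ) (ξ x : ℝ × ℝ) : ℂ :=
  g x * ((ws c x : ℝ) : ℂ) * ex (t * qf c x.1 x.2) * ex (x.1 * ξ.1 + x.2 * ξ.2)

theorem EGi_int (c : ℝ) (hc : 0 < c) (g : ℝ × ℝ → ℂ) (hg : Measurable g) (hb : ∀ x, ‖g x‖ ≤ 1)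
    (t : ℝ) (ξ : ℝ × ℝ) : Integrable (EGi c g t ξ) := by
  refine (ws_int c hc).mono ?_ (Filter.Eventually.of_forall fun x => ?_)
  · unfold EGi
    have e1 : Measurable ex := ex_cont.measurable
    have e3 : Measurable fun x : ℝ × ℝ => qf c x.1 x.2 := (qf_cont c).measurable
    have a3 : Measurable fun x : ℝ × ℝ => ((ws c x : ℝ) : ℂ) :=
      Complex.measurable_ofReal.comp (ws_cont c hc).measurable
    have a4 : Measurable fun x : ℝ × ℝ => ex (t * qf c x.1 x.2) := e1.comp (e3.const_mul t)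
    have a5 : Measurable fun x : ℝ × ℝ => ex (x.1 * ξ.1 + x.2 * ξ.2) := e1.comp (by fun_prop)
    exact (((hg.mul a3).mul a4).mul a5).aestronglyMeasurable
  · unfold EGi
    rw [norm_mul, norm_mul, ex_norm, ex_norm, mul_one, mul_one, norm_mul, Complex.norm_real]
    exact mul_le_of_le_one_left (norm_nonneg _) (hb x)

theorem EG_meas (c : ℝ) (hc : 0 < c) (g : ℝ × ℝ → ℂ) (hg : Measurable g) :
    Measurable fun q : ℝ × ℝ × ℝ => EG c g q.1 q.2 := by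
  have h3 : Measurable fun q : (ℝ × ℝ × ℝ) × (ℝ × ℝ) => EGi c g q.1.1 q.1.2 q.2 := by
    unfold EGi
    have e1 : Measurable ex := ex_cont.measurable
    have e3 : Measurable fun x : ℝ × ℝ => qf c x.1 x.2 := (qf_cont c).measurable
    have a1 : Measurable fun q : (ℝ × ℝ × ℝ) × (ℝ × ℝ) => g q.2 := hg.comp measurable_snd
    have a3 : Measurable fun q : (ℝ × ℝ × ℝ) × (ℝ × ℝ) => ((ws c q.2 : ℝ) : ℂ) :=
      Complex.measurable_ofReal.comp ((ws_cont c hc).measurable.comp measurable_snd)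
    have a4 : Measurable fun q : (ℝ × ℝ × ℝ) × (ℝ × ℝ) => ex (q.1.1 * qf c q.2.1 q.2.2) := by
      refine e1.comp ?_
      have b1 : Measurable fun q : (ℝ × ℝ × ℝ) × (ℝ × ℝ) => qf c q.2.1 q.2.2 :=
        e3.comp measurable_snd
      have b2 : Measurable fun q : (ℝ × ℝ × ℝ) × (ℝ × ℝ) => q.1.1 := by fun_prop
      exact b2.mul b1
    have a5 : Measurable fun q : (ℝ × ℝ × ℝ) × (ℝ × ℝ) =>
        ex (q.2.1 * q.1.2.1 + q.2.2 * q.1.2.2) := e1.comp (by fun_prop)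
    exact ((a1.mul a3).mul a4).mul a5
  exact (h3.stronglyMeasurable.integral_prod_right' (ν := (volume : Measure (ℝ × ℝ)))).measurable

/-- The operator depends only on the density on the strip. -/
theorem EG_congr (c : ℝ) (g g' : ℝ × ℝ → ℂ) (h : ∀ x, ws c x ≠ 0 → g x = g' x) (t : ℝ)
    (ξ : ℝ × ℝ) : EG c g t ξ = EG c g' t ξ := by
  unfold EG
  refine integral_congr_ae (Filter.Eventually.of_forall fun x => ?_)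
  simp only
  by_cases hw : ws c x = 0
  · rw [hw]
    simp
  · rw [h x hw]

/-- Finite sums. -/
theorem EG_sum (c : ℝ) (hc : 0 < c) (n : ℕ) (g : ℝ × ℝ → ℂ) (f : Fin n → ℝ × ℝ → ℂ)
    (hf : ∀ i, Measurable (f i)) (hb : ∀ i x, ‖f i x‖ ≤ 1)
    (h : ∀ x, ws c x ≠ 0 → g x = ∑ i, f i x) (t : ℝ) (ξ : ℝ × ℝ) :
    EG c g t ξ = ∑ i, EG c (f i) t ξ := by
  rw [EG_congr c g (fun x => ∑ i, f i x) h]
  have h1 : ∑ i, EG c (f i) t ξ = ∫ x, ∑ i, EGi c (f i) t ξ x :=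
    (integral_finsetSum _ fun i _ => EGi_int c hc (f i) (hf i) (hb i) t ξ).symm
  rw [h1]
  unfold EG EGi
  refine integral_congr_ae (Filter.Eventually.of_forall fun x => ?_)
  simp only
  rw [Finset.sum_mul, Finset.sum_mul, Finset.sum_mul]

/-- The `L⁴` norm over the plane and a time interval. -/
noncomputable def SE (c : ℝ) (g : ℝ × ℝ → ℂ) (T : ℝ) : ℝ≥0∞ :=
  ∫⁻ t in Icc T (2 * T), ∫⁻ ξ : ℝ × ℝ, ‖EG c g t ξ‖ₑ ^ 4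

theorem SE_congr (c : ℝ) (g g' : ℝ × ℝ → ℂ) (h : ∀ x, ws c x ≠ 0 → g x = g' x) (T : ℝ) :
    SE c g T = SE c g' T := by
  unfold SE
  simp only [EG_congr c g g' h]

theorem four_n (n : ℕ) (z : Fin n → ℂ) : ‖∑ i, z i‖ₑ ^ 4 ≤ (n : ℝ≥0∞) ^ 3 * ∑ i, ‖z i‖ₑ ^ 4 := by
  have h4 : ∀ z : ℂ, ‖z‖ₑ ^ (4:ℝ) = ‖z‖ₑ ^ 4 := by
    intro z
    exact_mod_cast ENNReal.rpow_natCast _ 4
  have h1 := four_conv_e (fun _ : Fin n => (1:ℂ)) z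
  simp only [one_mul, h4, norm_one, ENNReal.ofReal_one, Finset.sum_const, Finset.card_univ,
    Fintype.card_fin, nsmul_eq_mul, mul_one] at h1
  refine h1.trans (le_of_eq ?_)
  congr 1
  rw [ENNReal.ofReal_pow (Nat.cast_nonneg _), ENNReal.ofReal_natCast]

/-- Finite sums. -/
theorem SE_sum (c : ℝ) (hc : 0 < c) (n : ℕ) (g : ℝ × ℝ → ℂ) (f : Fin n → ℝ × ℝ → ℂ)
    (hf : ∀ i, Measurable (f i)) (hb : ∀ i x, ‖f i x‖ ≤ 1)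
    (h : ∀ x, ws c x ≠ 0 → g x = ∑ i, f i x) (T : ℝ) (R : ℝ≥0∞)
    (H : ∀ i, SE c (f i) T ≤ R) : SE c g T ≤ (n : ℝ≥0∞) ^ 4 * R := by
  have hn3 : (n : ℝ≥0∞) ^ 3 ≠ ∞ := ENNReal.pow_ne_top (ENNReal.natCast_ne_top n)
  have m1 : ∀ i, Measurable fun q : ℝ × ℝ × ℝ => ‖EG c (f i) q.1 q.2‖ₑ ^ 4 := fun i =>
    (EG_meas c hc (f i) (hf i)).enorm.pow_const 4
  unfold SE at H ⊢
  calc ∫⁻ t in Icc T (2 * T), ∫⁻ ξ : ℝ × ℝ, ‖EG c g t ξ‖ₑ ^ 4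
      ≤ ∫⁻ t in Icc T (2 * T), ∫⁻ ξ : ℝ × ℝ, (n : ℝ≥0∞) ^ 3 * ∑ i, ‖EG c (f i) t ξ‖ₑ ^ 4 := by
        refine lintegral_mono fun t => lintegral_mono fun ξ => ?_
        simp only
        rw [EG_sum c hc n g f hf hb h]
        exact four_n n _
    _ = (n : ℝ≥0∞) ^ 3 * ∑ i, ∫⁻ t in Icc T (2 * T), ∫⁻ ξ : ℝ × ℝ, ‖EG c (f i) t ξ‖ₑ ^ 4 := by
        have e1 : ∀ t : ℝ, ∫⁻ ξ : ℝ × ℝ, (n : ℝ≥0∞) ^ 3 * ∑ i, ‖EG c (f i) t ξ‖ₑ ^ 4 =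
            (n : ℝ≥0∞) ^ 3 * ∑ i, ∫⁻ ξ : ℝ × ℝ, ‖EG c (f i) t ξ‖ₑ ^ 4 := by
          intro t
          have m2 : ∀ i, Measurable fun ξ : ℝ × ℝ => ‖EG c (f i) t ξ‖ₑ ^ 4 := fun i =>
            (m1 i).comp (f := fun ξ : ℝ × ℝ => (t, ξ)) (by fun_prop)
          rw [lintegral_const_mul' _ _ hn3, lintegral_finsetSum _ fun i _ => m2 i]
        simp only [e1]
        rw [lintegral_const_mul' _ _ hn3, lintegral_finsetSum _ fun i _ =>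
          (m1 i).lintegral_prod_right']
    _ ≤ (n : ℝ≥0∞) ^ 3 * ∑ _i : Fin n, R := by
        gcongr with i
        exact H i
    _ = (n : ℝ≥0∞) ^ 4 * R := by
        rw [Finset.sum_const, Finset.card_univ, Fintype.card_fin, nsmul_eq_mul]
        ring

theorem SE_add (c : ℝ) (hc : 0 < c) (g f1 f2 : ℝ × ℝ → ℂ) (m1 : Measurable f1)
    (m2 : Measurable f2) (b1 : ∀ x, ‖f1 x‖ ≤ 1) (b2 : ∀ x, ‖f2 x‖ ≤ 1)
    (h : ∀ x, ws c x ≠ 0 → g x = f1 x + f2 x) (T : ℝ) (R : ℝ≥0∞) (H1 : SE c f1 T ≤ R)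
    (H2 : SE c f2 T ≤ R) : SE c g T ≤ 16 * R := by
  have key := SE_sum c hc 2 g ![f1, f2] (by
    intro i
    fin_cases i
    · exact m1
    · exact m2) (by
    intro i x
    fin_cases i
    · exact b1 x
    · exact b2 x) (by
    intro x hx
    rw [Fin.sum_univ_two]
    exact h x hx) T R (by
    intro i
    fin_cases i
    · exact H1
    · exact H2)
  refine key.trans (le_of_eq ?_)
  norm_num

/-- Reflections. -/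
theorem SE_refl1 (c : ℝ) (g : ℝ × ℝ → ℂ) (T : ℝ) :
    SE c (fun x => g (-x.1, x.2)) T = SE c g T := by
  unfold SE
  refine lintegral_congr fun t => ?_
  have h1 : MeasurePreserving (fun x : ℝ × ℝ => (-x.1, x.2)) (volume : Measure (ℝ × ℝ)) volume :=
    (Measure.measurePreserving_neg (volume : Measure ℝ)).prod (MeasurePreserving.id volume)
  have h2 : MeasurableEmbedding (fun x : ℝ × ℝ => (-x.1, x.2)) :=
    ((MeasurableEquiv.neg ℝ).prodCongr (MeasurableEquiv.refl ℝ)).measurableEmbedding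
  rw [← h1.lintegral_comp_emb h2 (fun ξ : ℝ × ℝ => ‖EG c g t ξ‖ₑ ^ 4)]
  refine lintegral_congr fun ξ => ?_
  congr 2
  unfold EG
  rw [← h1.integral_comp h2]
  refine integral_congr_ae (Filter.Eventually.of_forall fun x => ?_)
  simp only [ws, wf, qf]
  rw [neg_sq, neg_neg]
  congr 2
  ring

theorem SE_refl2 (c : ℝ) (g : ℝ × ℝ → ℂ) (T : ℝ) :
    SE c (fun x => g (x.1, -x.2)) T = SE c g T := by
  unfold SE
  refine lintegral_congr fun t => ?_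
  have h1 : MeasurePreserving (fun x : ℝ × ℝ => (x.1, -x.2)) (volume : Measure (ℝ × ℝ)) volume :=
    (MeasurePreserving.id volume).prod (Measure.measurePreserving_neg (volume : Measure ℝ))
  have h2 : MeasurableEmbedding (fun x : ℝ × ℝ => (x.1, -x.2)) :=
    ((MeasurableEquiv.refl ℝ).prodCongr (MeasurableEquiv.neg ℝ)).measurableEmbedding
  rw [← h1.lintegral_comp_emb h2 (fun ξ : ℝ × ℝ => ‖EG c g t ξ‖ₑ ^ 4)]
  refine lintegral_congr fun ξ => ?_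
  congr 2
  unfold EG
  rw [← h1.integral_comp h2]
  refine integral_congr_ae (Filter.Eventually.of_forall fun x => ?_)
  simp only [ws, wf, qf]
  rw [neg_sq, neg_neg]
  congr 2
  ring

/-- Exchange of the coordinates. -/
theorem SE_swap (c : ℝ) (g : ℝ × ℝ → ℂ) (T : ℝ) :
    SE c (fun x => g (x.2, x.1)) T = SE c g T := by
  unfold SE
  refine lintegral_congr fun t => ?_
  have h1 : MeasurePreserving (Prod.swap : ℝ × ℝ → ℝ × ℝ) (volume : Measure (ℝ × ℝ)) volume :=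
    Measure.measurePreserving_swap
  have h2 : MeasurableEmbedding (Prod.swap : ℝ × ℝ → ℝ × ℝ) :=
    (MeasurableEquiv.prodComm (α := ℝ) (β := ℝ)).measurableEmbedding
  rw [← h1.lintegral_comp_emb h2 (fun ξ : ℝ × ℝ => ‖EG c g t ξ‖ₑ ^ 4)]
  refine lintegral_congr fun ξ => ?_
  congr 2
  unfold EG
  rw [← h1.integral_comp h2]
  refine integral_congr_ae (Filter.Eventually.of_forall fun x => ?_)
  simp only [ws, wf, qf, Prod.fst_swap, Prod.snd_swap]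
  rw [sub_right_comm 1 (x.2 ^ 2) (x.1 ^ 2), add_comm (x.2 * ξ.1) (x.1 * ξ.2)]

/-- Complex conjugation. -/
theorem SE_neg (c : ℝ) (g : ℝ × ℝ → ℂ) (T : ℝ) :
    ∫⁻ t in Icc (-(2 * T)) (-T), ∫⁻ ξ : ℝ × ℝ, ‖EG c g t ξ‖ₑ ^ 4 =
      SE c (fun x => (starRingEnd ℂ) (g x)) T := by
  unfold SE
  have h1 : MeasurePreserving (fun t : ℝ => -t) volume volume :=
    Measure.measurePreserving_neg (volume : Measure ℝ)
  have h2 : MeasurableEmbedding (fun t : ℝ => -t) := (MeasurableEquiv.neg ℝ).measurableEmbedding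
  have h3 := h1.setLIntegral_comp_preimage_emb h2
    (fun t : ℝ => ∫⁻ ξ : ℝ × ℝ, ‖EG c g t ξ‖ₑ ^ 4) (Icc (-(2 * T)) (-T))
  rw [← h3]
  have h4 : (fun t : ℝ => -t) ⁻¹' Icc (-(2 * T)) (-T) = Icc T (2 * T) := by
    ext t
    simp only [mem_preimage, mem_Icc, neg_le_neg_iff]
    tauto
  rw [h4]
  refine lintegral_congr fun t => ?_
  have k1 : MeasurePreserving (fun x : ℝ × ℝ => -x) (volume : Measure (ℝ × ℝ)) volume :=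
    Measure.measurePreserving_neg _
  have k2 : MeasurableEmbedding (fun x : ℝ × ℝ => -x) :=
    (MeasurableEquiv.neg (ℝ × ℝ)).measurableEmbedding
  rw [← k1.lintegral_comp_emb k2 (fun ξ : ℝ × ℝ => ‖EG c g (-t) ξ‖ₑ ^ 4)]
  refine lintegral_congr fun ξ => ?_
  have h5 : EG c (fun x => (starRingEnd ℂ) (g x)) t ξ = (starRingEnd ℂ) (EG c g (-t) (-ξ)) := by
    unfold EG
    rw [← integral_conj]
    congr 1
    funext x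
    have hex : ∀ a : ℝ, (starRingEnd ℂ) (ex a) = ex (-a) := by
      intro a
      unfold ex
      rw [← Complex.exp_conj, map_mul, Complex.conj_ofReal, Complex.conj_I]
      congr 1
      push_cast
      ring
    simp only [map_mul, hex, Complex.conj_ofReal, Prod.fst_neg, Prod.snd_neg]
    congr 3
    · ring
    · ring
  rw [h5]
  congr 1
  rw [← ofReal_norm, ← ofReal_norm, RCLike.norm_conj]

end Pool.Agent.SDT.N1S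

end -- N1S.S8

section -- N1G.QAe

/-!
N1G, strips, annular boxes, part e: the local estimates.
-/

namespace Pool.Agent.SDT.N1G

open MeasureTheory Set Metric Filter Topology Pool.Agent.SDT.MP_6cbfb8_an Pool.Agent.SDT.MST Pool.Agent.SDT.N1
open scoped ENNReal Real ContDiff

/-- The base point. -/
def bQ (x : BD) : QX := (pB x.1.1 x.1.2, ((x.2.2.1, 0, 0) : V), ((x.2.2.2, 0, x.2.1) : V))

lemma bQ_K (x : BD) : xK (bQ x) = x.1.1.2.2.2 := by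
  unfold bQ
  rw [xK_base]
  simp

lemma bQ_U (x : BD) : xU (bQ x) = x.1.1.2.2.1 * x.2.1 := by
  unfold bQ
  rw [xU_base]
  simp

lemma bQ_m1 (x : BD) (hP : 1 / 8 < x.1.1.2.2.2) : 0 < xm1 (bQ x) := by
  have h := bQ_K x
  unfold bQ at h ⊢
  exact xm1_pos _ _ _ _ (by rw [h]; exact hP)

lemma bQ_E (x : BD) (hP : 1 / 8 < x.1.1.2.2.2) (hg2 : x.1.1.2.2.1 ≠ 0) (hY : x.2.1 ≠ 0) :
    xE (bQ x) ≠ 0 := by
  unfold xE
  rw [bQ_U, neg_ne_zero]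
  exact mul_ne_zero (bQ_m1 x hP).ne' (mul_ne_zero hg2 hY)

lemma fd_xw (p : QP × ℝ) (a u : V) : fderiv ℝ (fun a => xw (p, a)) a u = p.1.1.2.1 * u.1 := by
  refine fd_line ?_ ?_
  · unfold xw
    fun_prop
  · unfold xw
    simp only [Prod.fst_add, Prod.smul_fst, smul_eq_mul]
    have := (((hasDerivAt_id (0 : ℝ)).mul_const u.1).const_add a.1).const_mul p.1.1.2.1
    refine HasDerivAt.congr_deriv this ?_
    ring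

lemma fd_xs (p : QP × ℝ) (b u : V) :
    fderiv ℝ (fun b => xs (p, b)) b u = -(p.1.1.2.2.1 * u.1) := by
  refine fd_line ?_ ?_
  · unfold xs
    fun_prop
  · unfold xs
    simp only [Prod.fst_add, Prod.smul_fst, smul_eq_mul]
    have := ((((hasDerivAt_id (0 : ℝ)).mul_const u.1).const_add b.1).const_mul p.1.1.2.2.1).neg
    refine HasDerivAt.congr_deriv this ?_
    ring

/-- The case of a tangential direction. -/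
lemma locA_zero (x : BD) (hb : 0 ≤ x.1.1.1) (hP : 1 / 8 < x.1.1.2.2.2) (hg1 : x.1.1.2.1 ≠ 0)
    (hg2 : x.1.1.2.2.1 ≠ 0) (hs : x.1.2 ≠ 0) (hY : x.2.1 ≠ 0) (hζ : x.2.2.1 ≠ 0)
    (h0 : x.1.1.2.1 * x.2.2.1 + x.1.1.2.2.1 * x.2.2.2 = 0) :
    ∃ δ : ℝ, 0 < δ ∧ ∃ C : ℝ, 0 ≤ C ∧ LocA x δ C := by
  have hE := bQ_E x hP hg2 hY
  have hE' : 0 < |xE (bQ x)| := abs_pos.2 hE
  have cE : Continuous fun y => |xE y| := xE_smooth.continuous.abs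
  obtain ⟨r, hr, hb1⟩ := g_ball ((cE.continuousAt.eventually (lt_mem_nhds
    (show |xE (bQ x)| / 2 < |xE (bQ x)| by linarith))).and
    (cE.continuousAt.eventually (gt_mem_nhds
    (show |xE (bQ x)| < 2 * |xE (bQ x)| by linarith))))
  have hne : ∀ y ∈ ball (bQ x) r, xE y ≠ 0 := by
    intro y hy h
    have := (hb1 y hy).1
    rw [h, abs_zero] at this
    linarith
  have hD : -(x.1.2 * x.1.1.2.2.1) * x.2.2.1 + x.1.1.1 * (x.1.2 * x.1.1.2.1 * x.2.2.2) ≠ 0 := by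
    intro h
    have h1 : x.1.2 * x.2.2.1 * (x.1.1.2.2.1 ^ 2 + x.1.1.1 * x.1.1.2.1 ^ 2) = 0 := by
      have : x.1.1.2.2.1 * (-(x.1.2 * x.1.1.2.2.1) * x.2.2.1 +
          x.1.1.1 * (x.1.2 * x.1.1.2.1 * x.2.2.2)) = 0 := by rw [h, mul_zero]
      linear_combination -this + x.1.1.1 * x.1.2 * x.1.1.2.1 * h0
    have h2 : 0 < x.1.1.2.2.1 ^ 2 := by positivity
    have h3 : 0 ≤ x.1.1.1 * x.1.1.2.1 ^ 2 := by positivity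
    rcases mul_eq_zero.1 h1 with h4 | h4
    · rcases mul_eq_zero.1 h4 with h5 | h5
      · exact hs h5
      · exact hζ h5
    · linarith
  obtain ⟨δ, hδ, C, hC, H⟩ := HLk xw xs xG xc (pB x.1.1 x.1.2) ((x.2.2.1, 0, 0) : V)
    ((x.2.2.2, 0, x.2.1) : V) r (|xE (bQ x)| / 2 / 2) (3 * (2 * |xE (bQ x)|)) hr (by positivity)
    xw_smooth.contDiffOn xs_smooth.contDiffOn
    (fun y hy => (xG_smooth y (hne y hy)).contDiffWithinAt)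
    (xc_smooth _ (fun y hy => hne y hy))
    (fun s q hq h => xc_supp (|xE (bQ x)| / 2) (2 * |xE (bQ x)|) s q (by positivity)
      (hb1 q hq).1.le (hb1 q hq).2.le h)
    (by
      rw [fd_xw, mul_one]
      exact hg1)
    (by
      rw [fd_xs, mul_one, neg_ne_zero]
      exact hg2)
    (by
      intro u h1 h2
      rw [fd_xw] at h1
      have hu : u.1 = 0 := (mul_eq_zero.1 h1).resolve_left hg1
      refine xG_nd x.1.1 x.1.2 x.2.1 x.2.2.1 x.2.2.2 hP hg1 hg2 hY hD u hu fun e he => ?_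
      refine h2 e ?_
      rw [fd_xs, he, mul_zero, neg_zero])
  refine ⟨min δ r / 3, by positivity, C, hC, locA_of x (min δ r) C (by positivity) hC
    (fun q hq => hne q (ball_subset_ball (min_le_right _ _) hq)) ?_⟩
  intro p hp hκ lam hlam A B hA hB hA1 hB1 hAs hBs
  have hsub := ball_subset_ball (x := pB x.1.1 x.1.2) (min_le_left δ r)
  have hp' := hsub hp
  refine H p hp' p.1.2.2.2.1 lam hκ ?_ hlam A B hA hB hA1 hB1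
    (fun a ha => ball_subset_ball (min_le_left _ _) (hAs a ha))
    (fun b hb => ball_subset_ball (min_le_left _ _) (hBs b hb))
  rw [mem_ball, Prod.dist_eq, max_lt_iff] at hp'
  have h1 := hp'.1
  rw [Prod.dist_eq, max_lt_iff] at h1
  have h2 := h1.2
  rw [Prod.dist_eq, max_lt_iff] at h2
  have h3 := h2.2
  rw [Prod.dist_eq, max_lt_iff] at h3
  have h4 := h3.2
  rw [Prod.dist_eq, max_lt_iff] at h4
  have h5 := h4.1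
  unfold pB at h5
  rw [Real.dist_eq] at h5
  simp only [sub_zero] at h5
  exact (le_abs_self _).trans_lt h5

/-- The function whose size controls the phase. -/
noncomputable def xh (y : QX) : ℝ :=
  xw (y.1, y.2.1) - xs (y.1, y.2.2) + y.1.1.2.2.2.1 * xG y

/-- The case of another direction. -/
lemma locA_ne (x : BD) (hP : 1 / 8 < x.1.1.2.2.2) (hg2 : x.1.1.2.2.1 ≠ 0) (hY : x.2.1 ≠ 0)
    (h0 : x.1.1.2.1 * x.2.2.1 + x.1.1.2.2.1 * x.2.2.2 ≠ 0) :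
    ∃ δ : ℝ, 0 < δ ∧ ∃ C : ℝ, 0 ≤ C ∧ LocA x δ C := by
  obtain ⟨CK, hCK, hK⟩ := Kt_le
  have hE := bQ_E x hP hg2 hY
  have hE' : 0 < |xE (bQ x)| := abs_pos.2 hE
  have cE : Continuous fun y => |xE y| := xE_smooth.continuous.abs
  have cW : Continuous fun y => |xW y| := xW_smooth.continuous.abs
  have eh : xh (bQ x) = x.1.1.2.1 * x.2.2.1 + x.1.1.2.2.1 * x.2.2.2 := by
    unfold xh bQ pB xw xs
    simp only
    ring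
  have ch : ContinuousAt (fun y => |xh y|) (bQ x) := by
    have c1 : ContinuousAt xG (bQ x) := (xG_smooth _ hE).continuousAt
    have c2 : ContinuousAt (fun y : QX => xw (y.1, y.2.1) - xs (y.1, y.2.2)) (bQ x) := by
      have d1 := xw_smooth.continuous
      have d2 := xs_smooth.continuous
      exact ((d1.comp (by fun_prop : Continuous fun y : QX => (y.1, y.2.1))).sub
        (d2.comp (by fun_prop : Continuous fun y : QX => (y.1, y.2.2)))).continuousAt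
    have c3 : ContinuousAt (fun y : QX => y.1.1.2.2.2.1) (bQ x) :=
      (by fun_prop : Continuous fun y : QX => y.1.1.2.2.2.1).continuousAt
    exact (c2.add (c3.mul c1)).abs
  have hh : 0 < |xh (bQ x)| := by
    rw [eh]
    exact abs_pos.2 h0
  set e0 := |xE (bQ x)| / 2 with he0
  set h1 := |xh (bQ x)| / 2 with hh1
  set w1 := |xW (bQ x)| + 1 with hw1
  have he0' : 0 < e0 := by positivity
  have hh1' : 0 < h1 := by positivity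
  have hw1' : 0 < w1 := by positivity
  obtain ⟨r, hr, hb1⟩ := g_ball (((cE.continuousAt.eventually (lt_mem_nhds
    (show e0 < |xE (bQ x)| by rw [he0]; linarith))).and
    (ch.eventually (lt_mem_nhds (show h1 < |xh (bQ x)| by rw [hh1]; linarith)))).and
    (cW.continuousAt.eventually (gt_mem_nhds
    (show |xW (bQ x)| < w1 by rw [hw1]; linarith))))
  set δ1 := min r 1 with hδ1
  have hδ1' : 0 < δ1 := by positivity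
  have hb2 : ∀ y ∈ ball (bQ x) δ1, e0 < |xE y| ∧ h1 < |xh y| ∧ |xW y| < w1 := by
    intro y hy
    have := hb1 y (ball_subset_ball (min_le_left _ _) hy)
    exact ⟨this.1.1, this.1.2, this.2⟩
  have hne : ∀ y ∈ ball (bQ x) δ1, xE y ≠ 0 := by
    intro y hy h
    have := (hb2 y hy).1
    rw [h, abs_zero] at this
    linarith
  set a0 : V := (x.2.2.1, 0, 0) with ha0
  set b0 : V := (x.2.2.2, 0, x.2.1) with hb0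
  set V0 : ℝ := (volume : Measure (V × V)).real (ball (a0, b0) δ1) with hV0
  have hV0n : 0 ≤ V0 := measureReal_nonneg
  set C0 : ℝ := w1 * (CK / (e0 * h1) ^ 2) with hC0
  have hC0n : 0 ≤ C0 := by positivity
  refine ⟨δ1 / 3, by positivity, C0 * V0, by positivity,
    locA_of x δ1 _ hδ1' (by positivity) hne ?_⟩
  intro p hp hκ lam hlam A B hA hB hA1 hB1 hAs hBs
  have hκ1 : p.1.2.2.2.1 ≤ 1 := by
    rw [mem_ball, Prod.dist_eq, max_lt_iff] at hp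
    have h1 := hp.1
    rw [Prod.dist_eq, max_lt_iff] at h1
    have h2 := h1.2
    rw [Prod.dist_eq, max_lt_iff] at h2
    have h3 := h2.2
    rw [Prod.dist_eq, max_lt_iff] at h3
    have h4 := h3.2
    rw [Prod.dist_eq, max_lt_iff] at h4
    have h5 := h4.1
    unfold pB at h5
    rw [Real.dist_eq] at h5
    simp only [sub_zero] at h5
    exact ((le_abs_self _).trans h5.le).trans (min_le_right _ _)
  have hin : ∀ q : V × V, q.1 ∈ ball a0 δ1 → q.2 ∈ ball b0 δ1 →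
      ((p, q.1, q.2) : QX) ∈ ball (bQ x) δ1 := by
    intro q q1 q2
    rw [mem_ball] at hp q1 q2 ⊢
    unfold bQ
    rw [Prod.dist_eq, Prod.dist_eq]
    exact max_lt hp (max_lt q1 q2)
  set fI : V × V → ℂ := fun q => A q.1 * B q.2 * ∫ s : ℝ, ((xc (s, p, q.1, q.2) : ℝ) : ℂ) *
        ex (lam * (s * (xw (p, q.1) - xs (p, q.2) + p.1.2.2.2.1 * xG (p, q.1, q.2)))) with hfI
  have hset : ∫ q : V × V, fI q = ∫ q in ball (a0, b0) δ1, fI q := by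
    symm
    refine setIntegral_eq_integral_of_forall_compl_eq_zero fun q hq => ?_
    rw [hfI]
    simp only
    by_cases hq1 : A q.1 = 0
    · rw [hq1, zero_mul, zero_mul]
    · by_cases hq2 : B q.2 = 0
      · rw [hq2, mul_zero, zero_mul]
      · exfalso
        apply hq
        have g1 := hAs _ hq1
        have g2 := hBs _ hq2
        rw [mem_ball] at g1 g2 ⊢
        rw [Prod.dist_eq]
        exact max_lt g1 g2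
  have hbd : ∀ q ∈ ball ((a0, b0) : V × V) δ1, ‖fI q‖ ≤ C0 / lam ^ 2 := by
    intro q hq
    rw [mem_ball, Prod.dist_eq, max_lt_iff] at hq
    set y : QX := (p, q.1, q.2) with hy
    obtain ⟨d1, d2, d3⟩ := hb2 y (hin q (mem_ball.2 hq.1) (mem_ball.2 hq.2))
    have hEy := hne y (hin q (mem_ball.2 hq.1) (mem_ball.2 hq.2))
    have e5 : ∫ s : ℝ, ((xc (s, p, q.1, q.2) : ℝ) : ℂ) *
        ex (lam * (s * (xw (p, q.1) - xs (p, q.2) + p.1.2.2.2.1 * xG (p, q.1, q.2)))) =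
        ((xW y : ℝ) : ℂ) * Kt 1 (lam * (xE y * xh y)) := by
      rw [Kt_scale 1 _ (xE y) (xh y) one_pos hEy lam rfl, Complex.ofReal_one, one_mul,
        ← integral_const_mul]
      refine integral_congr_ae (Filter.Eventually.of_forall fun s => ?_)
      unfold xc
      simp only
      rw [one_mul, Complex.ofReal_mul, mul_assoc]
      rfl
    have e6 : ‖A q.1‖ * ‖B q.2‖ ≤ 1 := mul_le_one₀ (hA1 _) (norm_nonneg _) (hB1 _)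
    have e7 : ‖Kt 1 (lam * (xE y * xh y))‖ ≤ CK / (e0 * h1) ^ 2 / lam ^ 2 := by
      refine (hK 1 _ one_pos).trans ?_
      rw [mul_one, one_mul, abs_mul, abs_mul, abs_of_pos hlam, div_div]
      refine div_le_div_of_nonneg_left hCK (by positivity) ?_
      have e8 : e0 * h1 * lam ≤ lam * (|xE y| * |xh y|) := by
        have : e0 * h1 ≤ |xE y| * |xh y| := mul_le_mul d1.le d2.le hh1'.le (abs_nonneg _)
        nlinarith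
      have e10 : 0 ≤ lam * (|xE y| * |xh y|) := by positivity
      have e11 : (e0 * h1 * lam) ^ 2 ≤ (lam * (|xE y| * |xh y|)) ^ 2 :=
        pow_le_pow_left₀ (by positivity) e8 2
      calc (e0 * h1) ^ 2 * lam ^ 2 = (e0 * h1 * lam) ^ 2 := by ring
        _ ≤ (lam * (|xE y| * |xh y|)) ^ 2 := e11
        _ ≤ (1 + lam * (|xE y| * |xh y|)) ^ 3 := by
          nlinarith [pow_nonneg e10 3, pow_nonneg e10 2]
    rw [hfI]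
    simp only
    rw [e5, norm_mul, norm_mul, norm_mul, Complex.norm_real, Real.norm_eq_abs]
    calc ‖A q.1‖ * ‖B q.2‖ * (|xW y| * ‖Kt 1 (lam * (xE y * xh y))‖) ≤
          1 * (w1 * (CK / (e0 * h1) ^ 2 / lam ^ 2)) := by
          refine mul_le_mul e6 (mul_le_mul d3.le e7 (norm_nonneg _) (by positivity))
            (by positivity) zero_le_one
      _ = C0 / lam ^ 2 := by
        rw [hC0]
        ring
  rw [hset]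
  have h6 := norm_setIntegral_le_of_norm_le_const (μ := (volume : Measure (V × V)))
    (s := ball ((a0, b0) : V × V) δ1) measure_ball_lt_top hbd
  rw [← hV0] at h6
  refine h6.trans ?_
  have h7 : C0 / lam ^ 2 * V0 = C0 * V0 / lam ^ 2 := by ring
  rw [h7, ← div_div]
  have h8 : 0 ≤ C0 * V0 / lam ^ 2 := by positivity
  rw [le_div_iff₀ hκ]
  nlinarith

lemma locA (x : BD) (hb : 0 ≤ x.1.1.1) (hP : 1 / 8 < x.1.1.2.2.2) (hg1 : x.1.1.2.1 ≠ 0)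
    (hg2 : x.1.1.2.2.1 ≠ 0) (hs : x.1.2 ≠ 0) (hY : x.2.1 ≠ 0) (hζ : x.2.2.1 ≠ 0) :
    ∃ δ : ℝ, 0 < δ ∧ ∃ C : ℝ, 0 ≤ C ∧ LocA x δ C := by
  by_cases h0 : x.1.1.2.1 * x.2.2.1 + x.1.1.2.2.1 * x.2.2.2 = 0
  · exact locA_zero x hb hP hg1 hg2 hs hY hζ h0
  · exact locA_ne x hP hg2 hY h0

end Pool.Agent.SDT.N1G

end -- N1G.QAe
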