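import Pool.Agent.SDT.B33
import Pool.Agent.SDT.B41
import Pool.Agent.SDT.B44
import Pool.Agent.SDT.B53

set_option autoImplicit false

namespace Pool.Agent.SDT.MP_6cbfb8_an
end Pool.Agent.SDT.MP_6cbfb8_an
namespace Pool.Agent.SDT.MST
end Pool.Agent.SDT.MST
namespace Pool.Agent.SDT.N1
end Pool.Agent.SDT.N1

section -- N1F.A2

/-!
N1F, block A2: Proposition I.
-/

namespace Pool.Agent.SDT.N1F

open MeasureTheory Set Metric Pool.Agent.SDT.MP_6cbfb8_an Pool.Agent.SDT.MST Pool.Agent.SDT.N1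
open scoped ENNReal Real ContDiff Topology

lemma pI_dist (A B r1 g1 r2 g2 k A' B' r1' g1' r2' g2' k' R : ℝ) (hR : 0 < R)
    (h0 : |A - A'| < R) (h1 : |B - B'| < R) (h2 : |r1 - r1'| < R) (h3 : |g1 - g1'| < R)
    (h4 : |r2 - r2'| < R) (h5 : |g2 - g2'| < R) (h6 : |k - k'| < R) :
    pI A B r1 g1 r2 g2 k ∈ ball (pI A' B' r1' g1' r2' g2' k') R := by
  rw [mem_ball, dist_pi_lt_iff hR]
  intro i
  rw [Real.dist_eq]
  fin_cases i
  · exact h0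
  · exact h1
  · exact h2
  · exact h3
  · exact h4
  · exact h5
  · exact h6

lemma base_ok (c : ℝ) (hc : 0 < c) (A0 B0 k : ℝ) (x0 y0 z0 : ℝ × ℝ) (hb : Bs c A0 B0 x0) :
    okI c (pI A0 B0 0 0 0 0 k, ((y0.1, x0.1, z0.1) : V), ((y0.2, x0.2, z0.2) : V)) := by
  obtain ⟨h1, h2, h3, h4, h5, h6⟩ := hb
  have hc2 : 0 < c ^ 2 := by positivity
  have e1 : 0 ≤ A0 * x0.1 ^ 2 := by positivity
  have e2 : 0 ≤ B0 * x0.2 ^ 2 := by positivity
  refine ⟨?_, ?_, ?_⟩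
  · intro e f
    simp only [prA, Xi, pI, Matrix.cons_val_zero, Matrix.cons_val, zero_mul, mul_zero, sub_zero]
    linarith
  · intro e f
    simp only [prB, Wi, pI, Matrix.cons_val_one, Matrix.cons_val, zero_mul, mul_zero, sub_zero]
    linarith
  · intro e f e' f'
    simp only [prA, prB, Xi, Wi, pI, Matrix.cons_val_zero, Matrix.cons_val_one, Matrix.cons_val,
      zero_mul, mul_zero, sub_zero]
    linarith

/-- The oscillatory estimate near a base point. -/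
theorem A2_loc (c : ℝ) (hc : 0 < c) (A0 B0 : ℝ) (x0 y0 z0 : ℝ × ℝ) (hb : Bs c A0 B0 x0)
    (hy1 : y0.1 ≠ 0) (hy2 : y0.2 ≠ 0) (hz1 : z0.1 ≠ 0) (hz2 : z0.2 ≠ 0) (k1 : ℝ) (hk1 : 0 ≤ k1) :
    ∃ r : ℝ, 0 < r ∧ ∃ g : P7 × V × V → ℝ,
    (∀ x ∈ ball ((pI A0 B0 0 0 0 0 k1, (y0.1, x0.1, z0.1), (y0.2, x0.2, z0.2)) : P7 × V × V) r,
      okI c x) ∧
    (∀ x ∈ ball ((pI A0 B0 0 0 0 0 k1, (y0.1, x0.1, z0.1), (y0.2, x0.2, z0.2)) : P7 × V × V) r,
      ∀ κ₂ : ℝ, x.1 0 * x.1 1 = x.1 6 * κ₂ →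
        P11 c x + P22 c x + x.1 6 * P12 c x + κ₂ * P21 c x =
          -(UI c x * (omI c (prA x) - sgI c (prB x) + x.1 6 * (alI c (prA x) * beI c (prB x)) +
            κ₂ * g x))) ∧
    ∃ δ : ℝ, 0 < δ ∧ ∃ C : ℝ, 0 ≤ C ∧ ∀ p ∈ ball (pI A0 B0 0 0 0 0 k1) δ, ∀ κ ε lam : ℝ,
      0 < κ → κ ≤ 1 → 0 < ε → ε ≤ 1 → (ε < δ ∨ κ < δ) → 0 < lam →
      ∀ A B : V → ℂ, Measurable A → Measurable B → (∀ a, ‖A a‖ ≤ 1) → (∀ b, ‖B b‖ ≤ 1) →
      (∀ a, A a ≠ 0 → a ∈ ball ((y0.1, x0.1, z0.1) : V) δ) →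
      (∀ b, B b ≠ 0 → b ∈ ball ((y0.2, x0.2, z0.2) : V) δ) →
      ‖∫ q : V × V, A q.1 * B q.2 * ∫ s : ℝ,
        ((amI c (fun x => -UI c x) (s, p, q.1, q.2) : ℝ) : ℂ) *
        ex (lam * (s * (omI c (p, q.1) - sgI c (p, q.2) + κ * ((k1 + 1) * alI c (p, q.1) *
          beI c (p, q.2) + ε * ((k1 + 1) * g (p, q.1, q.2))))))‖ ≤ C / (lam ^ 2 * κ * √ε) := by
  have hok := base_ok c hc A0 B0 k1 x0 y0 z0 hb
  obtain ⟨hA0, hB0, hAB0, hx1, hx2, hxx⟩ := hb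
  set a0 : V := (y0.1, x0.1, z0.1) with ha0
  set b0 : V := (y0.2, x0.2, z0.2) with hb0
  set p0 : P7 := pI A0 B0 0 0 0 0 k1 with hp0
  have q0 : p0 0 = A0 := rfl
  have q1 : p0 1 = B0 := rfl
  have q2 : p0 2 = 0 := rfl
  have q3 : p0 3 = 0 := rfl
  have q4 : p0 4 = 0 := rfl
  have q5 : p0 5 = 0 := rfl
  obtain ⟨r0, hr0, g, hg, hgok, hgid, hgb⟩ := nfI c hc p0 a0 b0 hok
  -- the unit near the base point
  set Ef : P7 × V × V → ℝ := fun x => -UI c x with hEf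
  set e : ℝ := UI c (p0, a0, b0) with he
  have he0 : 0 < e := UI_pos c hc _ hok
  have hEc : ContinuousAt (UI c) (p0, a0, b0) := (UI_cd c hc _ hok).continuousAt
  have ev : ∀ᶠ x in 𝓝 (p0, a0, b0), e / 2 ≤ UI c x ∧ UI c x ≤ 2 * e := by
    filter_upwards [hEc.eventually (lt_mem_nhds (show e / 2 < e by linarith)),
      hEc.eventually (gt_mem_nhds (show e < 2 * e by linarith))] with x d2 d3
    exact ⟨d2.le, d3.le⟩
  obtain ⟨r', hr', hball⟩ := g_ball ev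
  set r : ℝ := min r0 r' with hr
  have hrp : 0 < r := lt_min hr0 hr'
  have B1 : ∀ x ∈ ball (p0, a0, b0) r, okI c x := fun x hx =>
    hgok x (ball_subset_ball (min_le_left _ _) hx)
  have B2 : ∀ x ∈ ball (p0, a0, b0) r, e / 2 ≤ UI c x ∧ UI c x ≤ 2 * e := fun x hx =>
    hball x (ball_subset_ball (min_le_right _ _) hx)
  have BA : ∀ x : P7 × V, x ∈ ball (p0, a0) r → okA c x := by
    intro x hx
    have h1 : ((x.1, x.2, b0) : P7 × V × V) ∈ ball (p0, a0, b0) r := by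
      rw [mem_ball, Prod.dist_eq, max_lt_iff] at hx
      rw [mem_ball, Prod.dist_eq, Prod.dist_eq]
      exact max_lt hx.1 (max_lt hx.2 (by rw [dist_self]; exact hrp))
    exact (B1 _ h1).1
  have BB : ∀ x : P7 × V, x ∈ ball (p0, b0) r → okB c x := by
    intro x hx
    have h1 : ((x.1, a0, x.2) : P7 × V × V) ∈ ball (p0, a0, b0) r := by
      rw [mem_ball, Prod.dist_eq, max_lt_iff] at hx
      rw [mem_ball, Prod.dist_eq, Prod.dist_eq]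
      exact max_lt hx.1 (max_lt (by rw [dist_self]; exact hrp) hx.2)
    exact (B1 _ h1).2.1
  have hc2 : 0 < c ^ 2 := by positivity
  have hD0 : 0 < 1 - A0 * a0.2.1 ^ 2 := by
    have : 0 ≤ B0 * x0.2 ^ 2 := by positivity
    show 0 < 1 - A0 * x0.1 ^ 2
    linarith
  have hD1 : 0 < 1 - B0 * b0.2.1 ^ 2 := by
    have : 0 ≤ A0 * x0.1 ^ 2 := by positivity
    show 0 < 1 - B0 * x0.2 ^ 2
    linarith
  have evA : ∀ᶠ a in 𝓝 a0, okA c (p0, a) := by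
    have h2 : Filter.Tendsto (fun a : V => (p0, a)) (𝓝 a0) (𝓝 (p0, a0)) :=
      (by fun_prop : Continuous fun a : V => (p0, a)).tendsto a0
    exact h2.eventually (okA_ev c _ hok.1)
  have evB : ∀ᶠ b in 𝓝 b0, okB c (p0, b) := by
    have h2 : Filter.Tendsto (fun b : V => (p0, b)) (𝓝 b0) (𝓝 (p0, b0)) :=
      (by fun_prop : Continuous fun b : V => (p0, b)).tendsto b0
    exact h2.eventually (okB_ev c _ hok.2.1)
  have ew : (fun a => omI c (p0, a)) =ᶠ[𝓝 a0] f0 A0 := by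
    filter_upwards [evA] with a h
    exact omI_base c hc (p0, a) h q2 q3
  have el : (fun a => (k1 + 1) * alI c (p0, a)) =ᶠ[𝓝 a0] fun a => (k1 + 1) * f1 A0 a := by
    filter_upwards [evA] with a h
    have h3 : alI c (p0, a) = f1 A0 a := alI_base c hc (p0, a) h q2 q3
    rw [h3]
  have es : (fun b => sgI c (p0, b)) =ᶠ[𝓝 b0] fun b => -f0 B0 b := by
    filter_upwards [evB] with b h
    exact sgI_base c hc (p0, b) h q4 q5
  have em : (fun b => beI c (p0, b)) =ᶠ[𝓝 b0] f2 B0 := by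
    filter_upwards [evB] with b h
    exact beI_base c hc (p0, b) h q4 q5
  have hk1' : k1 + 1 ≠ 0 := by positivity
  have hne : ∀ x ∈ ball (p0, a0, b0) r, Ef x ≠ 0 := by
    intro x hx
    have := (B2 x hx).1
    have h2 : 0 < UI c x := by linarith
    exact neg_ne_zero.2 h2.ne'
  have hcs : ∀ s, ∀ q ∈ ball (p0, a0, b0) r, amI c Ef (s, q) ≠ 0 → e / 2 / 2 ≤ |s| ∧
      |s| ≤ 3 * (2 * e) := by
    intro s q hq h
    have h1 := B2 q hq
    have h2 : |Ef q| = UI c q := by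
      show |-UI c q| = UI c q
      rw [abs_neg, abs_of_pos (by linarith)]
    exact amI_supp c Ef (e / 2) (2 * e) s q (by linarith) (by rw [h2]; exact h1.1)
      (by rw [h2]; exact h1.2) h
  have hg0 : ∀ᶠ q in 𝓝 (a0, b0), (k1 + 1) * g (p0, q.1, q.2) =
      ((k1 + 1) * f2 A0 q.1) * f1 B0 q.2 := by
    have h2 : Filter.Tendsto (fun q : V × V => ((p0, q.1, q.2) : P7 × V × V)) (𝓝 (a0, b0))
        (𝓝 (p0, a0, b0)) :=
      (by fun_prop : Continuous fun q : V × V => ((p0, q.1, q.2) : P7 × V × V)).tendsto (a0, b0)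
    filter_upwards [h2.eventually (ball_mem_nhds _ hr0)] with q hq
    rw [hgb _ hq q2 q3 q4 q5]
    show (k1 + 1) * (f2 A0 q.1 * f1 B0 q.2) = _
    ring
  have d1 : DifferentiableAt ℝ (f1 A0) a0 := f1_diff A0 a0 hD0.ne'
  have d2 : DifferentiableAt ℝ (f2 A0) a0 := f2_diff A0 a0 hD0.ne'
  have ha : ∀ u, fderiv ℝ (fun a => omI c (p0, a)) a0 u = 0 →
      fderiv ℝ (fun a => (k1 + 1) * alI c (p0, a)) a0 u = 0 →
      fderiv ℝ (fun a => (k1 + 1) * f2 A0 a) a0 u = 0 → u = 0 := by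
    intro u h1 h2 h3
    rw [ew.fderiv_eq] at h1
    rw [el.fderiv_eq, fderiv_const_mul d1] at h2
    rw [fderiv_const_mul d2] at h3
    rw [smul_apply, smul_eq_mul] at h2 h3
    exact f_indep A0 a0 u hD0.ne' hy1 hx1.ne' hz1 h1 ((mul_eq_zero.1 h2).resolve_left hk1')
      ((mul_eq_zero.1 h3).resolve_left hk1')
  have hb' : ∀ u, fderiv ℝ (fun b => sgI c (p0, b)) b0 u = 0 →
      fderiv ℝ (fun b => beI c (p0, b)) b0 u = 0 →
      fderiv ℝ (f1 B0) b0 u = 0 → u = 0 := by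
    intro u h1 h2 h3
    rw [es.fderiv_eq, fderiv_fun_neg, neg_apply, neg_eq_zero] at h1
    rw [em.fderiv_eq] at h2
    exact f_indep B0 b0 u hD1.ne' hy2 hx2.ne' hz2 h1 h3 h2
  have h1 : fderiv ℝ (fun a => omI c (p0, a)) a0 (1, 0, 0) ≠ 0 := by
    rw [ew.fderiv_eq, f0_fd A0 a0 _ hD0.ne']
    refine div_ne_zero ?_ (pow_ne_zero 2 hD0.ne')
    have : z0.1 * (1 - A0 * a0.2.1 ^ 2) ≠ 0 := mul_ne_zero hz1 hD0.ne'
    intro h
    apply this
    show a0.2.2 * (1 - A0 * a0.2.1 ^ 2) = 0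
    simp only at h
    linear_combination h
  have h2 : fderiv ℝ (fun b => sgI c (p0, b)) b0 (1, 0, 0) ≠ 0 := by
    rw [es.fderiv_eq, fderiv_fun_neg, neg_apply, f0_fd B0 b0 _ hD1.ne',
      neg_ne_zero]
    refine div_ne_zero ?_ (pow_ne_zero 2 hD1.ne')
    have : z0.2 * (1 - B0 * b0.2.1 ^ 2) ≠ 0 := mul_ne_zero hz2 hD1.ne'
    intro h
    apply this
    show b0.2.2 * (1 - B0 * b0.2.1 ^ 2) = 0
    simp only at h
    linear_combination h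
  refine ⟨r, hrp, g, B1, fun x hx => hgid x (ball_subset_ball (min_le_left _ _) hx), ?_⟩
  have hamI : ContDiffOn ℝ ∞ (amI c Ef) (univ ×ˢ ball (p0, a0, b0) r) :=
    amI_smooth c hc _ _ (fun x hx => ((UI_cd c hc x (B1 x hx)).neg).contDiffWithinAt) hne
  have hwd : ContDiffOn ℝ ∞ (omI c) (ball (p0, a0) r) :=
    fun x hx => (omI_cd c hc x (BA x hx)).contDiffWithinAt
  have hld : ContDiffOn ℝ ∞ (fun x => (k1 + 1) * alI c x) (ball (p0, a0) r) :=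
    fun x hx => (contDiffAt_const.mul (alI_cd c hc x (BA x hx))).contDiffWithinAt
  have hsd : ContDiffOn ℝ ∞ (sgI c) (ball (p0, b0) r) :=
    fun x hx => (sgI_cd c hc x (BB x hx)).contDiffWithinAt
  have hmd : ContDiffOn ℝ ∞ (beI c) (ball (p0, b0) r) :=
    fun x hx => (beI_cd c hc x (BB x hx)).contDiffWithinAt
  have hgd : ContDiffOn ℝ ∞ (fun x => (k1 + 1) * g x) (ball (p0, a0, b0) r) :=
    contDiffOn_const.mul (hg.mono (ball_subset_ball (min_le_left _ _)))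
  exact HLI (omI c) (fun x => (k1 + 1) * alI c x) (sgI c) (beI c)
    (fun x => (k1 + 1) * g x) (fun a => (k1 + 1) * f2 A0 a) (f1 B0) (amI c Ef) p0 a0 b0 r
    (e / 2 / 2) (3 * (2 * e)) hrp (by positivity) hwd hld hsd hmd hgd hamI hcs
    (d2.const_mul _) (f1_diff B0 b0 hD1.ne') hg0 ha hb' h1 h2

end Pool.Agent.SDT.N1F

end -- N1F.A2

section -- N1F.A2c

/-!
N1F, block A2: Proposition I, end of the proof.
-/

namespace Pool.Agent.SDT.N1F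

open MeasureTheory Set Metric Pool.Agent.SDT.MP_6cbfb8_an Pool.Agent.SDT.MST Pool.Agent.SDT.N1
open scoped ENNReal Real ContDiff Topology

lemma sc_ball (s1 s2 s3 y x z δ R : ℝ) (hs1 : 0 < s1) (hs2 : 0 < s2) (hs3 : 0 < s3)
    (hδ : δ < R) (a : V) (h : LB s1 s2 s3 y x z δ (Sc3 s1 s2 s3 a)) :
    a ∈ ball ((y, x, z) : V) R := by
  obtain ⟨h1, h2, h3⟩ := h
  have e1 : (Sc3 s1 s2 s3 a).1 / s1 = a.1 := by
    show s1 * a.1 / s1 = a.1
    field_simp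
  have e2 : (Sc3 s1 s2 s3 a).2.1 / s2 = a.2.1 := by
    show s2 * a.2.1 / s2 = a.2.1
    field_simp
  have e3 : (Sc3 s1 s2 s3 a).2.2 / s3 = a.2.2 := by
    show s3 * a.2.2 / s3 = a.2.2
    field_simp
  rw [e1] at h1
  rw [e2] at h2
  rw [e3] at h3
  rw [mem_ball, Prod.dist_eq, Prod.dist_eq, max_lt_iff, max_lt_iff, Real.dist_eq, Real.dist_eq,
    Real.dist_eq]
  exact ⟨by linarith, by linarith, by linarith⟩

lemma AB_small (A B A0 B0 δ : ℝ) (hA : 0 ≤ A) (hA1 : A ≤ 1) (hB : 0 ≤ B) (hB1 : B ≤ 1)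
    (h : A0 * B0 = 0) (h1 : |A - A0| < δ) (h2 : |B - B0| < δ) : A * B < δ := by
  rcases mul_eq_zero.1 h with k | k
  · rw [k, sub_zero, abs_of_nonneg hA] at h1
    nlinarith
  · rw [k, sub_zero, abs_of_nonneg hB] at h2
    nlinarith

theorem propI (c : ℝ) (hc : 0 < c) (A0 B0 : ℝ) (x0 y0 z0 : ℝ × ℝ) (hb : Bs c A0 B0 x0)
    (hy1 : y0.1 ≠ 0) (hy2 : y0.2 ≠ 0) (hz1 : z0.1 ≠ 0) (hz2 : z0.2 ≠ 0) (k1 : ℝ) (hk1 : 0 ≤ k1) :
    ∃ δ : ℝ, 0 < δ ∧ ∃ C : ℝ, 0 ≤ C ∧ ∀ T al be ρ₁ ρ₂ γ₁ γ₂ : ℝ, 0 < T → Sz al be A0 B0 δ →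
      0 < ρ₁ → ρ₁ < δ → 0 < ρ₂ → ρ₂ < δ → 0 < γ₁ → γ₁ < δ → 0 < γ₂ → γ₂ < δ →
      al ^ 2 * ρ₁ * γ₁ = be ^ 2 * ρ₂ * γ₂ → |be ^ 2 * γ₂ / γ₁ - k1| < δ →
      be ^ 2 * ρ₂ / ρ₁ ≤ be ^ 2 * γ₂ / γ₁ →
      ∀ A B : V → ℂ, Measurable A → Measurable B → (∀ a, ‖A a‖ ≤ 1) → (∀ b, ‖B b‖ ≤ 1) →
      (∀ u, A u ≠ 0 → LB (al * ρ₁) al (al * γ₁) y0.1 x0.1 z0.1 δ u) →
      (∀ v, B v ≠ 0 → LB (be * ρ₂) be (be * γ₂) y0.2 x0.2 z0.2 δ v) →
      ‖FF c T (tp A B)‖ ≤ C / T := by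
  obtain ⟨r, hrp, g, B1, hgid, δh, hδh, Ch, hCh, H⟩ := A2_loc c hc A0 B0 x0 y0 z0 hb hy1 hy2 hz1
    hz2 k1 hk1
  have hAB0 : A0 * B0 = 0 := hb.2.2.1
  set R : ℝ := min r δh with hR
  have hRp : 0 < R := lt_min hrp hδh
  set δ2 : ℝ := if 0 < k1 then min (k1 / 2) (δh * k1 ^ 2 / 8) else 1 with hδ2
  have hδ2p : 0 < δ2 := by
    rw [hδ2]
    split_ifs with h
    · exact lt_min (by positivity) (by positivity)
    · exact one_pos
  refine ⟨min (min (R / 2) 1) δ2, lt_min (lt_min (by positivity) one_pos) hδ2p, Ch * (k1 + 1),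
    by positivity, ?_⟩
  intro T al be ρ₁ ρ₂ γ₁ γ₂ hT hSz hρ₁ hρ₁' hρ₂ hρ₂' hγ₁ hγ₁' hγ₂ hγ₂' heq hk hle A B hA hB hA1
    hB1 hAs hBs
  set δ : ℝ := min (min (R / 2) 1) δ2 with hδ
  have hδR : δ ≤ R / 2 := (min_le_left _ _).trans (min_le_left _ _)
  have hδ1 : δ ≤ 1 := (min_le_left _ _).trans (min_le_right _ _)
  have hδδ2 : δ ≤ δ2 := min_le_right _ _
  have hRr : R ≤ r := min_le_left _ _
  have hRh : R ≤ δh := min_le_right _ _
  obtain ⟨hal, hal1, hbe, hbe1, hA0, hB0⟩ := hSz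
  set k : ℝ := be ^ 2 * γ₂ / γ₁ with hkdef
  set kk : ℝ := be ^ 2 * ρ₂ / ρ₁ with hkkdef
  have hkp : 0 < k := by positivity
  have hkkp : 0 < kk := by positivity
  have hprod : k * kk = al ^ 2 * be ^ 2 := by
    rw [hkdef, hkkdef]
    field_simp
    linear_combination -heq
  have hABs : al ^ 2 * be ^ 2 < δ := AB_small (al ^ 2) (be ^ 2) A0 B0 δ (by positivity)
    (by nlinarith) (by positivity) (by nlinarith) hAB0 hA0 hB0
  set κ : ℝ := k / (k1 + 1) with hκ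
  set ε : ℝ := kk / k with hε
  have hκp : 0 < κ := by positivity
  have hεp : 0 < ε := by positivity
  have hk1p : 0 < k1 + 1 := by positivity
  have hκ1 : κ ≤ 1 := by
    rw [hκ, div_le_one hk1p]
    have := (abs_lt.1 hk).2
    linarith
  have hε1 : ε ≤ 1 := by
    rw [hε, div_le_one hkp]
    exact hle
  have hor : ε < δh ∨ κ < δh := by
    by_cases h0 : 0 < k1
    · left
      rw [hδ2, if_pos h0] at hδδ2
      have e1 : δ ≤ k1 / 2 := hδδ2.trans (min_le_left _ _)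
      have e2 : δ ≤ δh * k1 ^ 2 / 8 := hδδ2.trans (min_le_right _ _)
      have e3 : k1 / 2 ≤ k := by
        have := (abs_lt.1 hk).1
        linarith
      have e4 : ε * k ^ 2 = al ^ 2 * be ^ 2 := by
        rw [hε, ← hprod]
        field_simp
      by_contra h5
      push Not at h5
      have e5 : δh * (k1 / 2) ^ 2 ≤ ε * k ^ 2 := by
        apply mul_le_mul h5 _ (by positivity) hεp.le
        exact pow_le_pow_left₀ (by positivity) e3 2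
      nlinarith [mul_pos hδh (pow_pos h0 2)]
    · right
      have h1 : k1 = 0 := le_antisymm (not_lt.1 h0) hk1
      rw [hκ, h1, zero_add, div_one]
      rw [h1, sub_zero, abs_of_pos hkp] at hk
      linarith
  have hsq : √ε = al * be / k := by
    have : ε = (al * be / k) ^ 2 := by
      rw [hε, div_pow, mul_pow, ← hprod]
      field_simp
    rw [this]
    exact Real.sqrt_sq (by positivity)
  set p : P7 := pI (al ^ 2) (be ^ 2) ρ₁ γ₁ ρ₂ γ₂ k with hp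
  have hpR : p ∈ ball (pI A0 B0 0 0 0 0 k1) R := by
    apply pI_dist
    · exact hRp
    · linarith
    · linarith
    · rw [sub_zero, abs_of_pos hρ₁]; linarith
    · rw [sub_zero, abs_of_pos hγ₁]; linarith
    · rw [sub_zero, abs_of_pos hρ₂]; linarith
    · rw [sub_zero, abs_of_pos hγ₂]; linarith
    · linarith
  have hAb : ∀ a, A (Sc3 (al * ρ₁) al (al * γ₁) a) ≠ 0 → a ∈ ball ((y0.1, x0.1, z0.1) : V) R :=
    fun a ha => sc_ball _ _ _ _ _ _ δ R (by positivity) hal (by positivity) (by linarith) a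
      (hAs _ ha)
  have hBb : ∀ b, B (Sc3 (be * ρ₂) be (be * γ₂) b) ≠ 0 → b ∈ ball ((y0.2, x0.2, z0.2) : V) R :=
    fun b hb => sc_ball _ _ _ _ _ _ δ R (by positivity) hbe (by positivity) (by linarith) b
      (hBs _ hb)
  have hm : 0 < al ^ 2 * ρ₁ * γ₁ := by positivity
  rw [FF_nf c T hT (al * ρ₁) al (al * γ₁) (be * ρ₂) be (be * γ₂) (by positivity) hal
    (by positivity) (by positivity) hbe (by positivity) A B (al ^ 2 * ρ₁ * γ₁)
    (fun q => -UI c (p, q.1, q.2))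
    (fun q => omI c (p, q.1) - sgI c (p, q.2) + κ * ((k1 + 1) * alI c (p, q.1) *
          beI c (p, q.2) + ε * ((k1 + 1) * g (p, q.1, q.2))))
    (fun q => WI c (p, q.1, q.2)) ?_]
  · have h1 := H p (ball_subset_ball hRh hpR) κ ε (T * (al ^ 2 * ρ₁ * γ₁)) hκp hκ1 hεp hε1 hor
      (by positivity) (fun a => A (Sc3 (al * ρ₁) al (al * γ₁) a))
      (fun b => B (Sc3 (be * ρ₂) be (be * γ₂) b))
      (hA.comp (by unfold Sc3; fun_prop)) (hB.comp (by unfold Sc3; fun_prop))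
      (fun a => hA1 _) (fun b => hB1 _)
      (fun a ha => ball_subset_ball hRh (hAb a ha)) (fun b hb => ball_subset_ball hRh (hBb b hb))
    rw [norm_mul, Complex.norm_real, Real.norm_eq_abs, abs_of_pos (by positivity)]
    refine (mul_le_mul_of_nonneg_left h1 (by positivity)).trans (le_of_eq ?_)
    rw [hsq, hκ]
    have hkne := hkp.ne'
    have e1 : (T * (al ^ 2 * ρ₁ * γ₁)) ^ 2 * (k / (k1 + 1)) * (al * be / k) =
        T ^ 2 * (al ^ 2 * ρ₁ * γ₁) * (be ^ 2 * ρ₂ * γ₂) * (al * be) / (k1 + 1) := by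
      rw [← heq]
      field_simp
    rw [e1]
    field_simp
  · intro a b ha hb
    have hx : ((p, a, b) : P7 × V × V) ∈ ball ((pI A0 B0 0 0 0 0 k1, (y0.1, x0.1, z0.1),
        (y0.2, x0.2, z0.2)) : P7 × V × V) r := by
      rw [mem_ball, Prod.dist_eq, Prod.dist_eq]
      exact max_lt ((mem_ball.1 hpR).trans_le hRr) (max_lt ((mem_ball.1 (hAb a ha)).trans_le hRr)
        ((mem_ball.1 (hBb b hb)).trans_le hRr))
    have hok := B1 _ hx
    have hU := UI_pos c hc _ hok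
    refine ⟨neg_ne_zero.2 hU.ne', ?_, ?_⟩
    · have h1 := Fr_nf c hc al be ρ₁ ρ₂ γ₁ γ₂ k a b hok
      have h2 := hgid _ hx kk (by
        show al ^ 2 * be ^ 2 = k * kk
        exact hprod.symm)
      have e6 : p 6 = k := rfl
      have h3 : Fr c (Sc3 (al * ρ₁) al (al * γ₁) a) (Sc3 (be * ρ₂) be (be * γ₂) b) =
          al ^ 2 * ρ₁ * γ₁ * P11 c (p, a, b) + be ^ 2 * ρ₂ * γ₂ * P22 c (p, a, b) +
          al ^ 2 * be ^ 2 * ρ₁ * γ₂ * P12 c (p, a, b) +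
          al ^ 2 * be ^ 2 * γ₁ * ρ₂ * P21 c (p, a, b) := h1
      rw [h3]
      have h4 : P11 c (p, a, b) + P22 c (p, a, b) + k * P12 c (p, a, b) + kk * P21 c (p, a, b) =
        -(UI c (p, a, b) * (omI c (p, a) - sgI c (p, b) + k * (alI c (p, a) * beI c (p, b)) +
            kk * g (p, a, b))) := h2
      have e1 : al ^ 2 * be ^ 2 * ρ₁ * γ₂ = al ^ 2 * ρ₁ * γ₁ * k := by
        rw [hkdef]
        field_simp
      have e2 : al ^ 2 * be ^ 2 * γ₁ * ρ₂ = al ^ 2 * ρ₁ * γ₁ * kk := by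
        rw [hkkdef]
        field_simp
      have e3 : κ * (k1 + 1) = k := by
        rw [hκ]
        field_simp
      have e4 : κ * (k1 + 1) * ε = kk := by
        rw [e3, hε]
        field_simp
      rw [e1, e2, ← heq]
      show _ = al ^ 2 * ρ₁ * γ₁ * (-UI c (p, a, b) * (omI c (p, a) - sgI c (p, b) +
        κ * ((k1 + 1) * alI c (p, a) * beI c (p, b) + ε * ((k1 + 1) * g (p, a, b)))))
      linear_combination (al ^ 2 * ρ₁ * γ₁) * h4 + (al ^ 2 * ρ₁ * γ₁) * UI c (p, a, b) *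
        (alI c (p, a) * beI c (p, b)) * e3 + (al ^ 2 * ρ₁ * γ₁) * UI c (p, a, b) *
        g (p, a, b) * e4
    · exact WI_eq c al be ρ₁ γ₁ ρ₂ γ₂ k a b

end Pool.Agent.SDT.N1F

end -- N1F.A2c

section -- N1F.PropF

/-!
N1F, block A3: the oscillatory estimate for one cell, outer difference of type N.
-/

namespace Pool.Agent.SDT.N1F

open MeasureTheory Set Metric Pool.Agent.SDT.MP_6cbfb8_an Pool.Agent.SDT.MST Pool.Agent.SDT.N1
open scoped ENNReal Real ContDiff Topology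

theorem propF (c : ℝ) (hc : 0 < c) (A0 B0 : ℝ) (x0 y0 z0 : ℝ × ℝ) (hb : Bs c A0 B0 x0)
    (hy1 : y0.1 ≠ 0) (hy2 : y0.2 ≠ 0) (hz1 : z0.1 ≠ 0) (hz2 : z0.2 ≠ 0) (k0 : ℝ) (hk : 0 ≤ k0)
    (hk' : k0 ≤ 1) (C5 : ℝ) :
    ∃ δ : ℝ, 0 < δ ∧ ∃ C : ℝ, 0 ≤ C ∧ ∀ T al be ρ γ κ : ℝ, 0 < T → Sz al be A0 B0 δ →
      0 < ρ → ρ < δ → 0 < γ → γ < δ → 0 < κ → κ ≤ 1 → |κ - k0| < δ → γ ≤ C5 * κ →
      ∀ A B : V → ℂ, Measurable A → Measurable B → (∀ a, ‖A a‖ ≤ 1) → (∀ b, ‖B b‖ ≤ 1) →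
      (∀ u, A u ≠ 0 → LB (al * be ^ 2 * ρ) al (al * γ) y0.1 x0.1 z0.1 δ u) →
      (∀ v, B v ≠ 0 → LB (be * ρ) be (be * al ^ 2 * κ * γ) y0.2 x0.2 z0.2 δ v) →
      ‖FF c T (tp A B)‖ ≤ C / T := by
  obtain ⟨w, l, σ, m, g, Ef, r1, hr1, hw, hl, hσ, hm, hg, hE, hE0, hbw, hbσ, hbg, hnf⟩ :=
    nfF c hc A0 B0 x0 y0 z0 hb hy1 hy2 hz1 hz2 k0 hk hk'
  set a0 : V := (y0.1, x0.1, z0.1) with ha0
  set b0 : V := (y0.2, x0.2, z0.2) with hb0
  set p0 : P6 := (A0, B0, 0, 0, k0, 0) with hp0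
  obtain ⟨hA0, hB0, hAB, hx1, hx2, hx3⟩ := hb
  have hc8 : 0 < c ^ 2 / 4 := by positivity
  have n1 : 1 - A0 * a0.2.1 ^ 2 ≠ 0 := by
    have : 0 ≤ B0 * x0.2 ^ 2 := by positivity
    simp only [ha0]
    linarith
  have n2 : 1 - B0 * b0.2.1 ^ 2 ≠ 0 := by
    have : 0 ≤ A0 * x0.1 ^ 2 := by positivity
    simp only [hb0]
    linarith
  -- the factor E near the base point
  have hmem : (p0, a0, b0) ∈ ball (p0, a0, b0) r1 := mem_ball_self hr1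
  have hEc : ContinuousAt (fun x => |Ef x|) (p0, a0, b0) :=
    ((hE.continuousOn).continuousAt (ball_mem_nhds _ hr1)).abs
  have he : 0 < |Ef (p0, a0, b0)| := abs_pos.2 (hE0 _ hmem)
  set e := |Ef (p0, a0, b0)| with hedef
  have ev : ∀ᶠ x in 𝓝 (p0, a0, b0), e / 2 ≤ |Ef x| ∧ |Ef x| ≤ 2 * e := by
    filter_upwards [hEc.eventually (lt_mem_nhds (show e / 2 < e by linarith)),
      hEc.eventually (gt_mem_nhds (show e < 2 * e by linarith))] with x d2 d3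
    exact ⟨d2.le, d3.le⟩
  obtain ⟨r2, hr2, hball2⟩ := g_ball ev
  set r := min r1 r2 with hrdef
  have hr : 0 < r := lt_min hr1 hr2
  have hrr1 : r ≤ r1 := min_le_left _ _
  have hball : ∀ y ∈ ball (p0, a0, b0) r, e / 2 ≤ |Ef y| ∧ |Ef y| ≤ 2 * e :=
    fun y hy => hball2 y (ball_subset_ball (min_le_right _ _) hy)
  -- apply HLa
  have hcc : ContDiffOn ℝ ∞ (amF c Ef) (univ ×ˢ ball (p0, a0, b0) r) :=
    amF_smooth c hc _ _ (hE.mono (ball_subset_ball hrr1))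
      (fun x hx => hE0 x (ball_subset_ball hrr1 hx))
  have hcs : ∀ s, ∀ q ∈ ball (p0, a0, b0) r, amF c Ef (s, q) ≠ 0 →
      e / 2 / 2 ≤ |s| ∧ |s| ≤ 3 * (2 * e) := fun s q hq h =>
    amF_supp c Ef (e / 2) (2 * e) s q (by linarith) (hball q hq).1 (hball q hq).2 h
  have ew : (fun a : V => w (p0, a)) =ᶠ[𝓝 a0] w0 := by
    filter_upwards [ball_mem_nhds a0 hr1] with a ha
    exact (hbw a ha).1
  have el : (fun a : V => l (p0, a)) =ᶠ[𝓝 a0] l0 A0 := by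
    filter_upwards [ball_mem_nhds a0 hr1] with a ha
    exact (hbw a ha).2
  have eσ : (fun b : V => σ (p0, b)) =ᶠ[𝓝 b0] σ0 B0 := by
    filter_upwards [ball_mem_nhds b0 hr1] with b hb
    exact (hbσ b hb).1
  have em : (fun b : V => m (p0, b)) =ᶠ[𝓝 b0] m0 B0 := by
    filter_upwards [ball_mem_nhds b0 hr1] with b hb
    exact (hbσ b hb).2
  have eg : ∀ᶠ q in 𝓝 (a0, b0), (fun q : V × V => g (p0, q.1, q.2)) q = gX q.1 * gY B0 q.2 := by
    filter_upwards [ball_mem_nhds (a0, b0) hr1] with q hq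
    rw [mem_ball, Prod.dist_eq, max_lt_iff] at hq
    exact hbg q.1 hq.1 q.2 hq.2
  obtain ⟨a11, a12, a22, a13, a23, a33⟩ := base_A A0 a0 hy1 hx1.ne' hz1 n1
  obtain ⟨b11, b12, b22, b13, b23, b33⟩ := base_B B0 b0 hy2 hx2.ne' hz2 n2
  have hnd : fderiv ℝ (fun b => fderiv ℝ (fun a => g (p0, a, b)) a0 (dirA A0 a0)) b0
      (dirB B0 b0) ≠ 0 := by
    rw [base_g B0 a0 b0 (dirA A0 a0) (dirB B0 b0) hz1 n2 (fun q : V × V => g (p0, q.1, q.2)) eg]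
    exact mul_ne_zero a33 b33
  obtain ⟨δ, hδ, C, hC, hHL⟩ := HLa w l σ m g (amF c Ef) p0 a0 b0 r
    (e / 2 / 2) (3 * (2 * e)) hr (by positivity) (hw.mono (ball_subset_ball hrr1))
    (hl.mono (ball_subset_ball hrr1)) (hσ.mono (ball_subset_ball hrr1))
    (hm.mono (ball_subset_ball hrr1)) (hg.mono (ball_subset_ball hrr1)) hcc hcs
    (1, 0, 0) (0, 0, 1) (dirA A0 a0) (1, 0, 0) (0, 0, 1) (dirB B0 b0)
    (by rw [ew.fderiv_eq]; exact a11) (by rw [ew.fderiv_eq]; exact a12)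
    (by rw [el.fderiv_eq]; exact a22) (by rw [ew.fderiv_eq]; exact a13)
    (by rw [el.fderiv_eq]; exact a23) (by rw [eσ.fderiv_eq]; exact b11)
    (by rw [eσ.fderiv_eq]; exact b12) (by rw [em.fderiv_eq]; exact b22)
    (by rw [eσ.fderiv_eq]; exact b13) (by rw [em.fderiv_eq]; exact b23) hnd
  -- the small constant
  set M := 1 + |C5| with hM
  have hM1 : 1 ≤ M := by rw [hM]; linarith [abs_nonneg C5]
  set δ' := min δ r / (2 * M) with hδ'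
  have hδp : 0 < min δ r := lt_min hδ hr
  have hδM : M * δ' = min δ r / 2 := by rw [hδ']; field_simp
  have hδ'p : 0 < δ' := by rw [hδ']; positivity
  have hδ1 : M * δ' < δ := by
    have := min_le_left δ r
    rw [hδM]; linarith
  have hδ2 : M * δ' < r := by
    have := min_le_right δ r
    rw [hδM]; linarith
  have hδle : δ' ≤ M * δ' := by nlinarith
  refine ⟨δ', hδ'p, C, hC, ?_⟩
  intro T al be ρ γ κ hT hSz hρ hρδ hγ hγδ hκ hκ1 hκδ hγκ A B hA hB hA1 hB1 hAs hBs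
  obtain ⟨hal, hal1, hbe, hbe1, hsA, hsB⟩ := hSz
  have hball' : ∀ (u : V) (x y z : ℝ), |u.1 - x| ≤ δ' ∧ |u.2.1 - y| ≤ δ' ∧ |u.2.2 - z| ≤ δ' →
      ∀ R, M * δ' < R → u ∈ ball ((x, y, z) : V) R := by
    intro u x y z h R hR
    rw [mem_ball, Prod.dist_eq, Prod.dist_eq, Real.dist_eq, Real.dist_eq, Real.dist_eq]
    exact max_lt (lt_of_le_of_lt (h.1.trans hδle) hR) (max_lt (lt_of_le_of_lt
      (h.2.1.trans hδle) hR) (lt_of_le_of_lt (h.2.2.trans hδle) hR))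
  set s1 := al * be ^ 2 * ρ with hs1
  set s3 := al * γ with hs3
  set t1 := be * ρ with ht1
  set t3 := be * al ^ 2 * κ * γ with ht3
  have hs1p : 0 < s1 := by rw [hs1]; positivity
  have hs3p : 0 < s3 := by rw [hs3]; positivity
  have ht1p : 0 < t1 := by rw [ht1]; positivity
  have ht3p : 0 < t3 := by rw [ht3]; positivity
  have hAs' : ∀ u, A (Sc3 s1 al s3 u) ≠ 0 →
      |u.1 - y0.1| ≤ δ' ∧ |u.2.1 - x0.1| ≤ δ' ∧ |u.2.2 - z0.1| ≤ δ' := by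
    intro u hu
    have h := hAs _ hu
    unfold LB Sc3 at h
    simp only at h
    rwa [mul_div_cancel_left₀ _ hs1p.ne', mul_div_cancel_left₀ _ hal.ne',
      mul_div_cancel_left₀ _ hs3p.ne'] at h
  have hBs' : ∀ u, B (Sc3 t1 be t3 u) ≠ 0 →
      |u.1 - y0.2| ≤ δ' ∧ |u.2.1 - x0.2| ≤ δ' ∧ |u.2.2 - z0.2| ≤ δ' := by
    intro u hu
    have h := hBs _ hu
    unfold LB Sc3 at h
    simp only at h
    rwa [mul_div_cancel_left₀ _ ht1p.ne', mul_div_cancel_left₀ _ hbe.ne',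
      mul_div_cancel_left₀ _ ht3p.ne'] at h
  set η := γ ^ 2 / κ with hη
  have hη0 : 0 ≤ η := by rw [hη]; positivity
  have hηle : η ≤ M * δ' := by
    rw [hη, div_le_iff₀ hκ]
    have h3 : γ ≤ |C5| * κ := hγκ.trans (mul_le_mul_of_nonneg_right (le_abs_self _) hκ.le)
    calc γ ^ 2 = γ * γ := by ring
      _ ≤ (|C5| * κ) * δ' := mul_le_mul h3 hγδ.le hγ.le (by positivity)
      _ ≤ M * δ' * κ := by
        rw [hM]
        nlinarith [mul_pos hδ'p hκ]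
  have hκη : κ * η = γ ^ 2 := by rw [hη]; field_simp
  set p : P6 := (al ^ 2, be ^ 2, ρ, γ, κ, η) with hp
  have hpR : ∀ R, M * δ' < R → p ∈ ball p0 R := by
    intro R hR
    have hle := hδle.trans hR.le
    rw [hp, hp0, mem_ball]
    simp only [Prod.dist_eq, Real.dist_eq, sub_zero, abs_of_pos hρ, abs_of_pos hγ,
      abs_of_nonneg hη0]
    exact max_lt (lt_of_lt_of_le hsA hle) (max_lt (lt_of_lt_of_le hsB hle)
      (max_lt (lt_of_lt_of_le hρδ hle) (max_lt (lt_of_lt_of_le hγδ hle)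
      (max_lt (lt_of_lt_of_le hκδ hle) (lt_of_le_of_lt hηle hR)))))
  set ε := al ^ 2 * be ^ 2 with hε
  have hε0 : 0 < ε := by rw [hε]; positivity
  have hεδ : ε < δ := by
    have q1 : al ^ 2 ≤ 1 := pow_le_one₀ hal.le hal1
    have q2 : be ^ 2 ≤ 1 := pow_le_one₀ hbe.le hbe1
    have q3 : δ' < δ := lt_of_le_of_lt hδle hδ1
    rcases mul_eq_zero.1 hAB with h | h
    · rw [h, sub_zero, abs_of_pos (by positivity)] at hsA
      calc ε ≤ al ^ 2 * 1 := mul_le_mul_of_nonneg_left q2 (by positivity)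
        _ < δ := by rw [mul_one]; exact hsA.trans q3
    · rw [h, sub_zero, abs_of_pos (by positivity)] at hsB
      calc ε ≤ 1 * be ^ 2 := mul_le_mul_of_nonneg_right q1 (by positivity)
        _ < δ := by rw [one_mul]; exact hsB.trans q3
  have hsε : √ε = al * be := by
    rw [hε, ← mul_pow, Real.sqrt_sq (by positivity)]
  set lam := T * (al ^ 2 * be ^ 2 * ρ * γ) with hlam
  have hlam0 : 0 < lam := by rw [hlam]; positivity
  have hmain := hHL p (hpR δ hδ1) κ ε lam hκ hκ1 hε0 hεδ hlam0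
    (fun u => A (Sc3 s1 al s3 u)) (fun u => B (Sc3 t1 be t3 u))
    (hA.comp (Sc3_cont s1 al s3).measurable) (hB.comp (Sc3_cont t1 be t3).measurable)
    (fun a => hA1 _) (fun b => hB1 _)
    (fun a ha => hball' a _ _ _ (hAs' a ha) δ hδ1) (fun b hb => hball' b _ _ _ (hBs' b hb) δ hδ1)
  have hid : FF c T (tp A B) = ((((s1 * al * s3) * (t1 * be * t3) : ℝ) : ℂ) * (T : ℂ)) *
      ∫ q : V × V, A (Sc3 s1 al s3 q.1) * B (Sc3 t1 be t3 q.2) * ∫ s : ℝ,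
        ((amF c Ef (s, p, q.1, q.2) : ℝ) : ℂ) *
        ex (lam * (s * (w (p, q.1) - σ (p, q.2) + κ * (l (p, q.1) * m (p, q.2) +
          ε * g (p, q.1, q.2))))) := by
    unfold FF
    rw [integral_scale3 _ s1 al s3 t1 be t3 hs1p hal hs3p ht1p hbe ht3p,
      mul_assoc ((((s1 * al * s3) * (t1 * be * t3) : ℝ) : ℂ)) (T : ℂ),
      ← integral_const_mul (T : ℂ)]
    congr 1
    refine integral_congr_ae (Filter.Eventually.of_forall fun q => ?_)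
    simp only [tp]
    by_cases hq : A (Sc3 s1 al s3 q.1) = 0
    · rw [hq]; simp
    by_cases hq' : B (Sc3 t1 be t3 q.2) = 0
    · rw [hq']; simp
    have hqa : q.1 ∈ ball a0 r := hball' _ _ _ _ (hAs' _ hq) r hδ2
    have hqb : q.2 ∈ ball b0 r := hball' _ _ _ _ (hBs' _ hq') r hδ2
    have hin : ((p, q.1, q.2) : P6 × V × V) ∈ ball (p0, a0, b0) r := by
      rw [mem_ball, Prod.dist_eq, Prod.dist_eq]
      exact max_lt (hpR r hδ2) (max_lt hqa hqb)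
    have hEne := hE0 _ (ball_subset_ball hrr1 hin)
    have hfac := hnf al be ρ γ κ η hal hal1 hbe hbe1 hρ hγ hκ hκη
      (ball_subset_ball hrr1 (hpR r hδ2)) q.1 (ball_subset_ball hrr1 hqa) q.2
      (ball_subset_ball hrr1 hqb)
    rw [Kt_scale T _ (Ef (p, q.1, q.2)) (w (p, q.1) - σ (p, q.2) + κ * (l (p, q.1) * m (p, q.2) +
          ε * g (p, q.1, q.2))) hT hEne (al ^ 2 * be ^ 2 * ρ * γ) hfac, WF_eq]
    have h5 : ∀ s : ℝ, ((amF c Ef (s, p, q.1, q.2) : ℝ) : ℂ) *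
        ex (lam * (s * (w (p, q.1) - σ (p, q.2) + κ * (l (p, q.1) * m (p, q.2) +
          ε * g (p, q.1, q.2))))) =
        ((WF c (al ^ 2) (be ^ 2) ρ γ κ q.1 q.2 : ℝ) : ℂ) *
        (((chi (s / Ef (p, q.1, q.2)) / |Ef (p, q.1, q.2)| : ℝ) : ℂ) *
        ex (T * (al ^ 2 * be ^ 2 * ρ * γ) * (s * (w (p, q.1) - σ (p, q.2) +
          κ * (l (p, q.1) * m (p, q.2) + ε * g (p, q.1, q.2)))))) := by
      intro s
      unfold amF
      simp only [hp]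
      rw [Complex.ofReal_mul]
      ring
    simp only [h5]
    rw [integral_const_mul]
    ring
  rw [hid, norm_mul, norm_mul, Complex.norm_real, Complex.norm_real, Real.norm_eq_abs,
    Real.norm_eq_abs, abs_of_pos hT, abs_of_pos (by positivity)]
  calc s1 * al * s3 * (t1 * be * t3) * T * ‖_‖ ≤
      s1 * al * s3 * (t1 * be * t3) * T * (C / (lam ^ 2 * κ * √ε)) :=
        mul_le_mul_of_nonneg_left hmain (by positivity)
    _ = C / T := by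
      rw [hsε, hlam, hs1, hs3, ht1, ht3]
      field_simp

end Pool.Agent.SDT.N1F

end -- N1F.PropF

section -- N1F.PropF2

/-!
N1F, block A3: `propNF` and `propDF`.
-/

namespace Pool.Agent.SDT.N1F

open MeasureTheory Set Metric Pool.Agent.SDT.MP_6cbfb8_an Pool.Agent.SDT.MST Pool.Agent.SDT.N1
open scoped ENNReal Real ContDiff Topology

lemma pf_Sz_mono {al be A0 B0 δ δ' : ℝ} (h : δ ≤ δ') (hs : Sz al be A0 B0 δ) :
    Sz al be A0 B0 δ' :=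
  ⟨hs.1, hs.2.1, hs.2.2.1, hs.2.2.2.1, hs.2.2.2.2.1.trans_le h, hs.2.2.2.2.2.trans_le h⟩

lemma pf_LB_mono {sy sx sz y x z δ δ' : ℝ} {u : V} (h : δ ≤ δ') (hs : LB sy sx sz y x z δ u) :
    LB sy sx sz y x z δ' u :=
  ⟨hs.1.trans h, hs.2.1.trans h, hs.2.2.trans h⟩

theorem propNF (c : ℝ) (hc : 0 < c) (A0 B0 : ℝ) (x0 y0 z0 : ℝ × ℝ) (hb : Bs c A0 B0 x0)
    (hy1 : y0.1 ≠ 0) (hy2 : y0.2 ≠ 0) (hz1 : z0.1 ≠ 0) (hz2 : z0.2 ≠ 0) :
    ∃ δ : ℝ, 0 < δ ∧ ∃ C : ℝ, 0 ≤ C ∧ ∀ T al be ρ γ : ℝ, 0 < T → Sz al be A0 B0 δ →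
      0 < ρ → ρ < δ → 0 < γ → γ < δ →
      ∀ A B : V → ℂ, Measurable A → Measurable B → (∀ a, ‖A a‖ ≤ 1) → (∀ b, ‖B b‖ ≤ 1) →
      (∀ u, A u ≠ 0 → LB (al * be ^ 2 * ρ) al (al * γ) y0.1 x0.1 z0.1 δ u) →
      (∀ v, B v ≠ 0 → LB (be * ρ) be (be * al ^ 2 * γ) y0.2 x0.2 z0.2 δ v) →
      ‖FF c T (tp A B)‖ ≤ C / T := by
  obtain ⟨δ, hδ, C, hC, h⟩ := propF c hc A0 B0 x0 y0 z0 hb hy1 hy2 hz1 hz2 1 zero_le_one le_rfl 1
  refine ⟨min δ 1, lt_min hδ one_pos, C, hC, ?_⟩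
  intro T al be ρ γ hT hSz hρ hρδ hγ hγδ A B hA hB hA1 hB1 hAs hBs
  have hle : min δ 1 ≤ δ := min_le_left _ _
  refine h T al be ρ γ 1 hT (pf_Sz_mono hle hSz) hρ (hρδ.trans_le hle) hγ (hγδ.trans_le hle)
    one_pos le_rfl (by simpa using hδ) ?_ A B hA hB hA1 hB1 (fun u hu => pf_LB_mono hle (hAs u hu))
    (fun v hv => pf_LB_mono hle ?_)
  · rw [mul_one]
    exact (hγδ.trans_le (min_le_right _ _)).le
  · rw [mul_one]
    exact hBs v hv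

theorem propDF (c : ℝ) (hc : 0 < c) (A0 B0 : ℝ) (x0 y0 z0 : ℝ × ℝ) (hb : Bs c A0 B0 x0)
    (hy1 : y0.1 ≠ 0) (hy2 : y0.2 ≠ 0) (hz1 : z0.1 ≠ 0) (hz2 : z0.2 ≠ 0) (C5 : ℝ) :
    ∃ δ : ℝ, 0 < δ ∧ ∃ C : ℝ, 0 ≤ C ∧ ∀ T al be ρ γ κ : ℝ, 0 < T → Sz al be A0 B0 δ →
      0 < ρ → ρ < δ → 0 < γ → γ < δ → 0 < κ → κ < δ → γ ≤ C5 * κ →
      ∀ A B : V → ℂ, Measurable A → Measurable B → (∀ a, ‖A a‖ ≤ 1) → (∀ b, ‖B b‖ ≤ 1) →
      (∀ u, A u ≠ 0 → LB (al * be ^ 2 * ρ) al (al * γ) y0.1 x0.1 z0.1 δ u) →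
      (∀ v, B v ≠ 0 → LB (be * ρ) be (be * al ^ 2 * κ * γ) y0.2 x0.2 z0.2 δ v) →
      ‖FF c T (tp A B)‖ ≤ C / T := by
  obtain ⟨δ, hδ, C, hC, h⟩ := propF c hc A0 B0 x0 y0 z0 hb hy1 hy2 hz1 hz2 0 le_rfl zero_le_one C5
  refine ⟨min δ 1, lt_min hδ one_pos, C, hC, ?_⟩
  intro T al be ρ γ κ hT hSz hρ hρδ hγ hγδ hκ hκδ hγκ A B hA hB hA1 hB1 hAs hBs
  have hle : min δ 1 ≤ δ := min_le_left _ _
  exact h T al be ρ γ κ hT (pf_Sz_mono hle hSz) hρ (hρδ.trans_le hle) hγ (hγδ.trans_le hle)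
    hκ (hκδ.trans_le (min_le_right _ _)).le
    (by rw [sub_zero, abs_of_pos hκ]; exact hκδ.trans_le hle) hγκ A B hA hB hA1 hB1
    (fun u hu => pf_LB_mono hle (hAs u hu)) (fun v hv => pf_LB_mono hle (hBs v hv))

end Pool.Agent.SDT.N1F

end -- N1F.PropF2
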