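import Pool.Agent.SDT.B53

set_option autoImplicit false

namespace Pool.Agent.SDT.MP_6cbfb8_an
end Pool.Agent.SDT.MP_6cbfb8_an
namespace Pool.Agent.SDT.MST
end Pool.Agent.SDT.MST
namespace Pool.Agent.SDT.N1
end Pool.Agent.SDT.N1

section -- N1F.D2F

/-!
N1F, block A4: the estimates R2a and R2b.
-/

namespace Pool.Agent.SDT.N1F

open MeasureTheory Set Metric Pool.Agent.SDT.MP_6cbfb8_an Pool.Agent.SDT.MST Pool.Agent.SDT.N1
open scoped ENNReal Real ContDiff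

theorem d2_Sz_mono {al be A0 B0 δ δ' : ℝ} (h : δ ≤ δ') (hs : Sz al be A0 B0 δ) :
    Sz al be A0 B0 δ' :=
  ⟨hs.1, hs.2.1, hs.2.2.1, hs.2.2.2.1, hs.2.2.2.2.1.trans_le h, hs.2.2.2.2.2.trans_le h⟩

theorem d2_Nb_mono {al be δ δ' ρ : ℝ} {x0 y0 : ℝ × ℝ} {q : V × V} (h : δ ≤ δ')
    (hq : NbF al be δ ρ x0 y0 q) : NbF al be δ' ρ x0 y0 q :=
  ⟨hq.1.trans h, hq.2.1.trans h, hq.2.2.1.trans h, hq.2.2.2.1.trans h, hq.2.2.2.2.1.trans h,
    hq.2.2.2.2.2.trans h⟩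

theorem d2_nU0 (be ρ : ℝ) (q : V × V) : nU be ρ q 0 = Nx (be ^ 2 * ρ) q := by
  simp only [nU, Nx, zero_mul, sub_zero]

theorem d2_nU1 (be ρ : ℝ) (q : V × V) : nU be ρ q 1 = Nz (be ^ 2 * ρ) q := by
  simp only [nU, Nz, one_mul]

theorem d2_y1 {c A0 B0 : ℝ} (hc : 0 < c) {x0 y0 : ℝ × ℝ} (hb : Bs c A0 B0 x0) (hy2 : y0.2 ≠ 0)
    (h1 : nb B0 x0 y0 = 0) : y0.1 ≠ 0 := by
  obtain ⟨hA, hB, -, hx1, hx2, hd⟩ := hb
  intro h0
  have h2 : 0 < 1 - B0 * x0.2 ^ 2 := by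
    have e1 : 0 ≤ A0 * x0.1 ^ 2 := by positivity
    have e2 : 0 < c ^ 2 := by positivity
    linarith
  unfold nb at h1
  rw [h0, mul_zero, zero_div, zero_add, div_eq_zero_iff] at h1
  rcases h1 with h1 | h1
  · have : y0.2 * x0.2 = 0 := by linarith
    rcases mul_eq_zero.1 this with h | h
    · exact hy2 h
    · exact hx2.ne' h
  · exact h2.ne' h1

theorem d2_sg {y : ℝ} (hy : y ≠ 0) (P : ℝ) (m C : ℝ) (h1 : m ≤ SignType.sign y * P)
    (h2 : SignType.sign y * P ≤ C) :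
    (0 < y ∧ m ≤ P ∧ P ≤ C) ∨ (y < 0 ∧ m ≤ -P ∧ -P ≤ C) := by
  rcases lt_or_gt_of_ne hy with h | h
  · right
    rw [sign_neg h] at h1 h2
    simp only [SignType.coe_neg, SignType.coe_one, neg_mul, one_mul] at h1 h2
    exact ⟨h, h1, h2⟩
  · left
    rw [sign_pos h] at h1 h2
    simp only [SignType.coe_one, one_mul] at h1 h2
    exact ⟨h, h1, h2⟩

/-- The variation of `n` along the segment is bounded. -/
theorem d2_var (c : ℝ) (hc : 0 < c) (A0 B0 : ℝ) (x0 y0 : ℝ × ℝ) (hb : Bs c A0 B0 x0)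
    (hy1 : y0.1 ≠ 0) : ∃ m C : ℝ, 0 < m ∧ m ≤ C ∧ ∃ δ : ℝ, 0 < δ ∧ δ ≤ 1 ∧
    ∀ al be : ℝ, Sz al be A0 B0 δ → ∀ ρ : ℝ, 0 < ρ → ρ < δ → ∀ q : V × V,
    NbF al be δ ρ x0 y0 q → ∀ u ∈ Icc (0:ℝ) 1,
      |nU be ρ q u - nU be ρ q 0| ≤ C * (|q.1.2.2| / al) + C * (|q.2.2.2| / be) ∧
      (C * (|q.2.2.2| / be) ≤ m * (|q.1.2.2| / al) →
        (nU be ρ q 0 ≤ nU be ρ q u ∧ nU be ρ q u ≤ nU be ρ q 1) ∨
        (nU be ρ q 1 ≤ nU be ρ q u ∧ nU be ρ q u ≤ nU be ρ q 0)) := by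
  obtain ⟨m, C, hm, hmC, δ, hδ, hδ1, H⟩ := eF_diff c hc A0 B0 x0 y0 hb hy1
  refine ⟨m, C, hm, hmC, δ, hδ, hδ1, fun al be hs ρ hρ hρδ q hq u hu => ?_⟩
  have hal : 0 < al := hs.1
  have hbe : 0 < be := hs.2.2.1
  have hC : 0 < C := hm.trans_le hmC
  have z0 : (0:ℝ) ∈ Icc (0:ℝ) 1 := ⟨le_refl _, zero_le_one⟩
  have z1 : (1:ℝ) ∈ Icc (0:ℝ) 1 := ⟨zero_le_one, le_refl _⟩
  obtain ⟨P, R, p1, p2, p3, p4⟩ := H al be hs ρ hρ hρδ q hq u hu 0 z0
  obtain ⟨P', R', p1', p2', p3', p4'⟩ := H al be hs ρ hρ hρδ q hq 1 z1 u hu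
  obtain ⟨X, hX⟩ : ∃ X : ℝ, X = q.1.2.2 / al := ⟨_, rfl⟩
  obtain ⟨Z, hZ⟩ : ∃ Z : ℝ, Z = q.2.2.2 / be := ⟨_, rfl⟩
  have hX' : |q.1.2.2| / al = |X| := by rw [hX, abs_div, abs_of_pos hal]
  have hZ' : |q.2.2.2| / be = |Z| := by rw [hZ, abs_div, abs_of_pos hbe]
  rw [← hX, ← hZ] at p4 p4'
  rw [hX', hZ']
  have hP := d2_sg hy1 P m C p1 p2
  have hP' := d2_sg hy1 P' m C p1' p2'
  have aP : |P| ≤ C := by
    rw [abs_le]
    rcases hP with ⟨-, h1, h2⟩ | ⟨-, h1, h2⟩ <;> constructor <;> linarith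
  refine ⟨?_, fun hdom => ?_⟩
  · rw [p4, zero_sub, abs_mul, abs_neg, abs_of_nonneg hu.1]
    have e1 : |-(P * X) + R * Z| ≤ C * |X| + C * |Z| := by
      refine (abs_add_le _ _).trans ?_
      rw [abs_neg, abs_mul, abs_mul]
      gcongr
    calc u * |-(P * X) + R * Z| ≤ 1 * |-(P * X) + R * Z| :=
          mul_le_mul_of_nonneg_right hu.2 (abs_nonneg _)
      _ = |-(P * X) + R * Z| := one_mul _
      _ ≤ _ := e1
  · have r1 : |R * Z| ≤ m * |X| := by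
      rw [abs_mul]
      exact (mul_le_mul_of_nonneg_right p3 (abs_nonneg _)).trans hdom
    have r2 : |R' * Z| ≤ m * |X| := by
      rw [abs_mul]
      exact (mul_le_mul_of_nonneg_right p3' (abs_nonneg _)).trans hdom
    rw [abs_le] at r1 r2
    have u0 := hu.1
    have u1 := hu.2
    rcases hP with ⟨hy, a1, a2⟩ | ⟨hy, a1, a2⟩
    · rcases hP' with ⟨hy', b1, b2⟩ | ⟨hy', b1, b2⟩
      · rcases le_total 0 X with hx | hx
        · rw [abs_of_nonneg hx] at r1 r2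
          left
          have e1 : -(P * X) + R * Z ≤ 0 := by nlinarith
          have e2 : -(P' * X) + R' * Z ≤ 0 := by nlinarith
          constructor <;> nlinarith
        · rw [abs_of_nonpos hx] at r1 r2
          right
          have e1 : 0 ≤ -(P * X) + R * Z := by nlinarith
          have e2 : 0 ≤ -(P' * X) + R' * Z := by nlinarith
          constructor <;> nlinarith
      · exact absurd hy (by linarith)
    · rcases hP' with ⟨hy', b1, b2⟩ | ⟨hy', b1, b2⟩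
      · exact absurd hy (by linarith)
      · rcases le_total 0 X with hx | hx
        · rw [abs_of_nonneg hx] at r1 r2
          right
          have e1 : 0 ≤ -(P * X) + R * Z := by nlinarith
          have e2 : 0 ≤ -(P' * X) + R' * Z := by nlinarith
          constructor <;> nlinarith
        · rw [abs_of_nonpos hx] at r1 r2
          left
          have e1 : -(P * X) + R * Z ≤ 0 := by nlinarith
          have e2 : -(P' * X) + R' * Z ≤ 0 := by nlinarith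
          constructor <;> nlinarith

/-- R2a. -/
theorem E_D2aF (c : ℝ) (hc : 0 < c) (A0 B0 : ℝ) (x0 y0 : ℝ × ℝ) (hb : Bs c A0 B0 x0)
    (hy2 : y0.2 ≠ 0) (h1 : nb B0 x0 y0 = 0) (C5 : ℝ) :
    ∃ δ c1 C4 : ℝ, 0 < δ ∧ 0 < c1 ∧ 0 < C4 ∧ ∀ al be : ℝ, Sz al be A0 B0 δ → ∀ ρ : ℝ, 0 < ρ →
    ρ < δ → ∀ κ : ℝ, 0 < κ → κ < δ → ∀ q : V × V, NbF al be δ ρ x0 y0 q →
    |Nx (be ^ 2 * ρ) q| ≤ 2 * κ → |q.1.2.2| ≤ C5 * κ * al →
    be * |q.2.2.2| ≤ al * be ^ 2 * |q.1.2.2| → C4 * κ * (al * be ^ 2 * |q.1.2.2|) ≤ be * |q.2.2.2| →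
    c1 * ρ * (be * |q.2.2.2|) ≤ |Fr c q.1 q.2| := by
  have hy1 := d2_y1 hc hb hy2 h1
  obtain ⟨m, C, hm, hmC, δ1, hδ1, hδ1', H1⟩ := d2_var c hc A0 B0 x0 y0 hb hy1
  obtain ⟨l, Λ, hl, hlΛ, H2⟩ := eF_key c hc A0 B0 x0 y0 hb hy2
  obtain ⟨δ2, hδ2, hδ2', H3⟩ := H2 1 one_pos
  have hC : 0 < C := hm.trans_le hmC
  have hΛ : 0 < Λ := hl.trans_le hlΛ
  obtain ⟨D, hD⟩ : ∃ D : ℝ, D = 2 + 2 * C * |C5| := ⟨_, rfl⟩
  have hD0 : 0 < D := by rw [hD]; positivity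
  refine ⟨min δ1 δ2, l / 2, 2 * Λ * D / l, lt_min hδ1 hδ2, by positivity, by positivity,
    fun al be hs ρ hρ hρδ κ hκ hκδ q hq g1 g2 g3 g4 => ?_⟩
  have hal : 0 < al := hs.1
  have hal1 : al ≤ 1 := hs.2.1
  have hbe : 0 < be := hs.2.2.1
  have hbe1 : be ≤ 1 := hs.2.2.2.1
  obtain ⟨u, hu, L, M, k1, k2, k3, k4, -, k6⟩ := H3 al be (d2_Sz_mono (min_le_right _ _) hs) ρ hρ
    (hρδ.trans_le (min_le_right _ _)) q (d2_Nb_mono (min_le_right _ _) hq)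
  obtain ⟨v1, -⟩ := H1 al be (d2_Sz_mono (min_le_left _ _) hs) ρ hρ
    (hρδ.trans_le (min_le_left _ _)) q (d2_Nb_mono (min_le_left _ _) hq) u hu
  rw [d2_nU0] at v1
  have t1 : |q.1.2.2| / al ≤ |C5| * κ := by
    rw [div_le_iff₀ hal]
    refine g2.trans ?_
    gcongr
    exact le_abs_self _
  have t2 : |q.2.2.2| / be ≤ |C5| * κ := by
    rw [div_le_iff₀ hbe]
    have e1 : |q.2.2.2| ≤ al * be * |q.1.2.2| := by
      have : be * |q.2.2.2| ≤ be * (al * be * |q.1.2.2|) := by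
        calc be * |q.2.2.2| ≤ al * be ^ 2 * |q.1.2.2| := g3
          _ = _ := by ring
      exact le_of_mul_le_mul_left this hbe
    have e2 : |q.1.2.2| ≤ |C5| * κ := by
      refine g2.trans ?_
      calc C5 * κ * al ≤ |C5| * κ * 1 := by
            gcongr
            exact le_abs_self _
        _ = _ := mul_one _
    calc |q.2.2.2| ≤ al * be * |q.1.2.2| := e1
      _ ≤ 1 * be * (|C5| * κ) := by gcongr
      _ = _ := by ring
  have t3 : |nU be ρ q u| ≤ D * κ := by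
    have e1 : |nU be ρ q u| ≤ |nU be ρ q u - Nx (be ^ 2 * ρ) q| + |Nx (be ^ 2 * ρ) q| := by
      have := abs_add_le (nU be ρ q u - Nx (be ^ 2 * ρ) q) (Nx (be ^ 2 * ρ) q)
      rwa [sub_add_cancel] at this
    have e2 : C * (|q.1.2.2| / al) + C * (|q.2.2.2| / be) ≤ C * (|C5| * κ) + C * (|C5| * κ) := by
      gcongr
    rw [hD]
    linarith
  obtain ⟨W, hW⟩ : ∃ W : ℝ, W = al * be ^ 2 * |q.1.2.2| := ⟨_, rfl⟩
  have hW0 : 0 ≤ W := by rw [hW]; positivity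
  obtain ⟨U, hU⟩ : ∃ U : ℝ, U = be * |q.2.2.2| := ⟨_, rfl⟩
  have hU0 : 0 ≤ U := by rw [hU]; positivity
  rw [← hW, ← hU] at g4
  have s1 : |L * nU be ρ q u * (al * be ^ 2 * q.1.2.2)| ≤ l / 2 * U := by
    rw [abs_mul, abs_mul, abs_mul (al * be ^ 2), abs_of_pos (hl.trans_le k1),
      abs_of_pos (show 0 < al * be ^ 2 by positivity), ← hW]
    calc L * |nU be ρ q u| * W ≤ Λ * (D * κ) * W := by gcongr
      _ = l / 2 * (2 * Λ * D / l * κ * W) := by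
          field_simp
      _ ≤ l / 2 * U := by gcongr
  have s2 : l * U ≤ |M * (be * q.2.2.2)| := by
    rw [abs_mul, abs_mul, abs_of_pos hbe, ← hU]
    gcongr
  rw [k6, abs_neg, abs_mul, abs_of_pos hρ, ← hU]
  have s3 : l / 2 * U ≤ |L * nU be ρ q u * (al * be ^ 2 * q.1.2.2) + M * (be * q.2.2.2)| := by
    have := abs_sub_abs_le_abs_sub (M * (be * q.2.2.2))
      (-(L * nU be ρ q u * (al * be ^ 2 * q.1.2.2)))
    rw [abs_neg, sub_neg_eq_add, add_comm (M * (be * q.2.2.2))] at this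
    linarith
  calc l / 2 * ρ * U = ρ * (l / 2 * U) := by ring
    _ ≤ _ := mul_le_mul_of_nonneg_left s3 hρ.le

/-- R2b. -/
theorem E_D2bF (c : ℝ) (hc : 0 < c) (A0 B0 : ℝ) (x0 y0 : ℝ × ℝ) (hb : Bs c A0 B0 x0)
    (hy2 : y0.2 ≠ 0) (h1 : nb B0 x0 y0 = 0) :
    ∃ δ c1 C4 : ℝ, 0 < δ ∧ 0 < c1 ∧ 0 < C4 ∧ ∀ al be : ℝ, Sz al be A0 B0 δ → ∀ ρ : ℝ, 0 < ρ →
    ρ < δ → ∀ κ : ℝ, 0 < κ → κ < δ → ∀ q : V × V, NbF al be δ ρ x0 y0 q →
    ((κ / 2 ≤ Nx (be ^ 2 * ρ) q ∧ κ / 2 ≤ Nz (be ^ 2 * ρ) q) ∨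
      (Nx (be ^ 2 * ρ) q ≤ -(κ / 2) ∧ Nz (be ^ 2 * ρ) q ≤ -(κ / 2))) →
    C4 * (be * |q.2.2.2|) ≤ κ * (al * be ^ 2 * |q.1.2.2|) →
    c1 * ρ * κ * (al * be ^ 2 * |q.1.2.2|) ≤ |Fr c q.1 q.2| := by
  have hy1 := d2_y1 hc hb hy2 h1
  obtain ⟨m, C, hm, hmC, δ1, hδ1, hδ1', H1⟩ := d2_var c hc A0 B0 x0 y0 hb hy1
  obtain ⟨l, Λ, hl, hlΛ, H2⟩ := eF_key c hc A0 B0 x0 y0 hb hy2
  obtain ⟨δ2, hδ2, hδ2', H3⟩ := H2 1 one_pos
  have hC : 0 < C := hm.trans_le hmC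
  have hΛ : 0 < Λ := hl.trans_le hlΛ
  obtain ⟨D, hD⟩ : ∃ D : ℝ, D = 4 * (C * (C / m) + C) + 8 * Λ / l := ⟨_, rfl⟩
  have hD0 : 0 < D := by rw [hD]; positivity
  refine ⟨min δ1 δ2, l / 8, D, lt_min hδ1 hδ2, by positivity, hD0,
    fun al be hs ρ hρ hρδ κ hκ hκδ q hq g1 g2 => ?_⟩
  have hal : 0 < al := hs.1
  have hal1 : al ≤ 1 := hs.2.1
  have hbe : 0 < be := hs.2.2.1
  have hbe1 : be ≤ 1 := hs.2.2.2.1
  obtain ⟨u, hu, L, M, k1, k2, k3, k4, -, k6⟩ := H3 al be (d2_Sz_mono (min_le_right _ _) hs) ρ hρ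
    (hρδ.trans_le (min_le_right _ _)) q (d2_Nb_mono (min_le_right _ _) hq)
  obtain ⟨v1, v2⟩ := H1 al be (d2_Sz_mono (min_le_left _ _) hs) ρ hρ
    (hρδ.trans_le (min_le_left _ _)) q (d2_Nb_mono (min_le_left _ _) hq) u hu
  rw [d2_nU0, d2_nU1] at v2
  rw [d2_nU0] at v1
  have hz1 : |q.1.2.2| ≤ al := by
    have e1 := hq.2.2.2.2.1
    rw [abs_div, abs_of_pos hal, div_le_iff₀ hal] at e1
    refine e1.trans ?_
    calc min δ1 δ2 * al ≤ 1 * al := by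
          gcongr
          exact (min_le_left _ _).trans hδ1'
      _ = al := one_mul _
  have t2 : D * (|q.2.2.2| / be) ≤ κ := by
    have e1 : D * |q.2.2.2| ≤ κ * (al * be * |q.1.2.2|) := by
      have : be * (D * |q.2.2.2|) ≤ be * (κ * (al * be * |q.1.2.2|)) := by
        calc be * (D * |q.2.2.2|) = D * (be * |q.2.2.2|) := by ring
          _ ≤ κ * (al * be ^ 2 * |q.1.2.2|) := g2
          _ = _ := by ring
      exact le_of_mul_le_mul_left this hbe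
    rw [← mul_div_assoc, div_le_iff₀ hbe]
    calc D * |q.2.2.2| ≤ κ * (al * be * |q.1.2.2|) := e1
      _ ≤ κ * (1 * be * 1) := by
          gcongr
          exact hz1.trans hal1
      _ = κ * be := by ring
  have t3 : κ / 4 ≤ |nU be ρ q u| := by
    rcases le_total (C * (|q.2.2.2| / be)) (m * (|q.1.2.2| / al)) with h | h
    · rcases v2 h with ⟨w1, w2⟩ | ⟨w1, w2⟩
      · rcases g1 with ⟨g3, g4⟩ | ⟨g3, g4⟩
        · exact le_trans (by linarith) (le_abs_self _)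
        · exact le_trans (by linarith) (neg_le_abs _)
      · rcases g1 with ⟨g3, g4⟩ | ⟨g3, g4⟩
        · exact le_trans (by linarith) (le_abs_self _)
        · exact le_trans (by linarith) (neg_le_abs _)
    · have e1 : |q.1.2.2| / al ≤ C / m * (|q.2.2.2| / be) := by
        rw [div_mul_eq_mul_div, le_div_iff₀ hm]
        linarith
      have e2 : |nU be ρ q u - Nx (be ^ 2 * ρ) q| ≤ κ / 4 := by
        refine v1.trans ?_
        have e3 : C * (|q.1.2.2| / al) ≤ C * (C / m * (|q.2.2.2| / be)) := by gcongr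
        have e4 : (C * (C / m) + C) * (|q.2.2.2| / be) * 4 ≤ D * (|q.2.2.2| / be) := by
          have e5 : 4 * (C * (C / m) + C) ≤ D := by
            rw [hD]
            have : 0 < 8 * Λ / l := by positivity
            linarith
          have e6 := mul_le_mul_of_nonneg_right e5 (show 0 ≤ |q.2.2.2| / be by positivity)
          linarith
        nlinarith
      rw [abs_le] at e2
      rcases g1 with ⟨g3, -⟩ | ⟨g3, -⟩
      · exact le_trans (by linarith) (le_abs_self _)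
      · exact le_trans (by linarith) (neg_le_abs _)
  obtain ⟨W, hW⟩ : ∃ W : ℝ, W = al * be ^ 2 * |q.1.2.2| := ⟨_, rfl⟩
  have hW0 : 0 ≤ W := by rw [hW]; positivity
  obtain ⟨U, hU⟩ : ∃ U : ℝ, U = be * |q.2.2.2| := ⟨_, rfl⟩
  have hU0 : 0 ≤ U := by rw [hU]; positivity
  rw [← hW, ← hU] at g2
  have s1 : l * (κ / 4) * W ≤ |L * nU be ρ q u * (al * be ^ 2 * q.1.2.2)| := by
    have hL0 : 0 ≤ L := (hl.trans_le k1).le
    rw [abs_mul, abs_mul, abs_mul (al * be ^ 2), abs_of_pos (hl.trans_le k1),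
      abs_of_pos (show 0 < al * be ^ 2 by positivity), ← hW]
    gcongr
  have s2 : |M * (be * q.2.2.2)| ≤ l / 8 * (κ * W) := by
    rw [abs_mul, abs_mul, abs_of_pos hbe, ← hU]
    have e1 : 8 * Λ / l * U ≤ κ * W := by
      refine le_trans ?_ g2
      gcongr
      rw [hD]
      have : 0 < 4 * (C * (C / m) + C) := by positivity
      linarith
    calc |M| * U ≤ Λ * U := by gcongr
      _ = l / 8 * (8 * Λ / l * U) := by
          field_simp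
      _ ≤ _ := by gcongr
  rw [k6, abs_neg, abs_mul, abs_of_pos hρ, ← hW]
  have s3 : l / 8 * (κ * W) ≤
      |L * nU be ρ q u * (al * be ^ 2 * q.1.2.2) + M * (be * q.2.2.2)| := by
    have := abs_sub_abs_le_abs_sub (L * nU be ρ q u * (al * be ^ 2 * q.1.2.2))
      (-(M * (be * q.2.2.2)))
    rw [abs_neg, sub_neg_eq_add] at this
    nlinarith
  calc l / 8 * ρ * κ * W = ρ * (l / 8 * (κ * W)) := by ring
    _ ≤ _ := mul_le_mul_of_nonneg_left s3 hρ.le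

end Pool.Agent.SDT.N1F

end -- N1F.D2F
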