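import Pool.Agent.SDT.B40
import Pool.Agent.SDT.B53

set_option autoImplicit false

namespace Pool.Agent.SDT.MP_6cbfb8_an
end Pool.Agent.SDT.MP_6cbfb8_an
namespace Pool.Agent.SDT.MST
end Pool.Agent.SDT.MST
namespace Pool.Agent.SDT.N1
end Pool.Agent.SDT.N1
namespace Pool.Agent.SDT.N1F
end Pool.Agent.SDT.N1F
namespace Pool.Agent.SDT.N1G
end Pool.Agent.SDT.N1G

section -- N1M.M0

/-!
N1M, block M0: from a normal form to the oscillatory estimate for one cell.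
-/

namespace Pool.Agent.SDT.N1M

open MeasureTheory Set Metric Pool.Agent.SDT.MP_6cbfb8_an Pool.Agent.SDT.MST Pool.Agent.SDT.N1
open Pool.Agent.SDT.N1F
open scoped ENNReal Real ContDiff Topology

section abs

variable {P : Type*} [NormedAddCommGroup P] [NormedSpace ℝ P] [FiniteDimensional ℝ P]

/-- The amplitude for `HLa`. -/
noncomputable def amM (Wf Ef : P × V × V → ℝ) (x : ℝ × P × V × V) : ℝ :=
  Wf x.2 * (chi (x.1 / Ef x.2) / |Ef x.2|)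

lemma amM_smooth (Wf Ef : P × V × V → ℝ) (S : Set (P × V × V)) (hW : ContDiffOn ℝ ∞ Wf S)
    (hE : ContDiffOn ℝ ∞ Ef S) (hE0 : ∀ x ∈ S, Ef x ≠ 0) :
    ContDiffOn ℝ ∞ (amM Wf Ef) (univ ×ˢ S) := by
  have h1 : ContDiffOn ℝ ∞ (fun x : ℝ × P × V × V => Ef x.2) (univ ×ˢ S) :=
    hE.comp contDiff_snd.contDiffOn (fun x hx => hx.2)
  have h2 : ContDiffOn ℝ ∞ (fun x : ℝ × P × V × V => Wf x.2) (univ ×ˢ S) :=
    hW.comp contDiff_snd.contDiffOn (fun x hx => hx.2)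
  have h4 : ContDiffOn ℝ ∞ (fun x : ℝ × P × V × V => chi (x.1 / Ef x.2)) (univ ×ˢ S) :=
    chi_smooth.comp_contDiffOn (contDiff_fst.contDiffOn.div h1 (fun x hx => hE0 _ hx.2))
  have h5 : ContDiffOn ℝ ∞ (fun x : ℝ × P × V × V => |Ef x.2|) (univ ×ˢ S) := by
    intro x hx
    exact (contDiffAt_abs (hE0 _ hx.2)).comp_contDiffWithinAt x (h1 x hx)
  exact h2.mul (h4.div h5 (fun x hx => abs_ne_zero.2 (hE0 _ hx.2)))

lemma amM_supp (Wf Ef : P × V × V → ℝ) (e0 e1 s : ℝ) (q : P × V × V)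
    (he0 : 0 < e0) (h0 : e0 ≤ |Ef q|) (h1 : |Ef q| ≤ e1) (h : amM Wf Ef (s, q) ≠ 0) :
    e0 / 2 ≤ |s| ∧ |s| ≤ 3 * e1 := by
  have hchi : chi (s / Ef q) ≠ 0 := by
    intro h2
    apply h
    unfold amM
    simp only
    rw [h2, zero_div, mul_zero]
  obtain ⟨g1, g2⟩ := chi_zero _ hchi
  have hE : 0 < |Ef q| := lt_of_lt_of_le he0 h0
  have h3 : |s| = |s / Ef q| * |Ef q| := by
    rw [abs_div]
    field_simp
  have h4 : |s / Ef q| = s / Ef q := abs_of_nonneg (by linarith)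
  rw [h4] at h3
  rw [h3]
  constructor
  · nlinarith
  · nlinarith

theorem absProp (w l : P × V → ℝ) (σ m : P × V → ℝ) (g Ef Wf : P × V × V → ℝ) (p0 : P) (a0 b0 : V)
    (r : ℝ) (hr : 0 < r)
    (hw : ContDiffOn ℝ ∞ w (ball (p0, a0) r)) (hl : ContDiffOn ℝ ∞ l (ball (p0, a0) r))
    (hσ : ContDiffOn ℝ ∞ σ (ball (p0, b0) r)) (hm : ContDiffOn ℝ ∞ m (ball (p0, b0) r))
    (hg : ContDiffOn ℝ ∞ g (ball (p0, a0, b0) r)) (hE : ContDiffOn ℝ ∞ Ef (ball (p0, a0, b0) r))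
    (hW : ContDiffOn ℝ ∞ Wf (ball (p0, a0, b0) r)) (hE0 : Ef (p0, a0, b0) ≠ 0)
    (u1 u2 u3 e1 e2 e3 : V)
    (h11 : fderiv ℝ (fun a => w (p0, a)) a0 u1 ≠ 0)
    (h12 : fderiv ℝ (fun a => w (p0, a)) a0 u2 = 0) (h22 : fderiv ℝ (fun a => l (p0, a)) a0 u2 ≠ 0)
    (h13 : fderiv ℝ (fun a => w (p0, a)) a0 u3 = 0) (h23 : fderiv ℝ (fun a => l (p0, a)) a0 u3 = 0)
    (k11 : fderiv ℝ (fun b => σ (p0, b)) b0 e1 ≠ 0)
    (k12 : fderiv ℝ (fun b => σ (p0, b)) b0 e2 = 0) (k22 : fderiv ℝ (fun b => m (p0, b)) b0 e2 ≠ 0)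
    (k13 : fderiv ℝ (fun b => σ (p0, b)) b0 e3 = 0) (k23 : fderiv ℝ (fun b => m (p0, b)) b0 e3 = 0)
    (hnd : fderiv ℝ (fun b => fderiv ℝ (fun a => g (p0, a, b)) a0 u3) b0 e3 ≠ 0) :
    ∃ δ : ℝ, 0 < δ ∧ ∃ C : ℝ, 0 ≤ C ∧ ∀ p ∈ ball p0 δ, ∀ κ ε T τ : ℝ, 0 < κ → κ ≤ 1 → 0 < ε →
      ε < δ → 0 < T → 0 < τ → ∀ s1 s2 s3 t1 t2 t3 : ℝ, 0 < s1 → 0 < s2 → 0 < s3 → 0 < t1 →
      0 < t2 → 0 < t3 → ∀ Ph Wa : V × V → ℝ,
      (∀ a ∈ ball a0 r, ∀ b ∈ ball b0 r,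
        Ph (Sc3 s1 s2 s3 a, Sc3 t1 t2 t3 b) = τ * (Ef (p, a, b) * (w (p, a) - σ (p, b) +
          κ * (l (p, a) * m (p, b) + ε * g (p, a, b)))) ∧
        Wa (Sc3 s1 s2 s3 a, Sc3 t1 t2 t3 b) = Wf (p, a, b)) →
      ∀ A B : V → ℂ, Measurable A → Measurable B → (∀ a, ‖A a‖ ≤ 1) → (∀ b, ‖B b‖ ≤ 1) →
      (∀ u, A u ≠ 0 → LB s1 s2 s3 a0.1 a0.2.1 a0.2.2 δ u) →
      (∀ v, B v ≠ 0 → LB t1 t2 t3 b0.1 b0.2.1 b0.2.2 δ v) →
      ‖∫ q : V × V, tp A B q * ((Wa q : ℝ) : ℂ) * Kt T (Ph q)‖ ≤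
        (s1 * s2 * s3) * (t1 * t2 * t3) * T * (C / ((T * τ) ^ 2 * κ * √ε)) := by
  -- the factor E near the base point
  have hEc : ContinuousAt (fun x => |Ef x|) (p0, a0, b0) :=
    ((hE.continuousOn).continuousAt (ball_mem_nhds _ hr)).abs
  have he : 0 < |Ef (p0, a0, b0)| := abs_pos.2 hE0
  set e := |Ef (p0, a0, b0)| with hedef
  have ev : ∀ᶠ x in 𝓝 (p0, a0, b0), e / 2 ≤ |Ef x| ∧ |Ef x| ≤ 2 * e := by
    filter_upwards [hEc.eventually (lt_mem_nhds (show e / 2 < e by linarith)),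
      hEc.eventually (gt_mem_nhds (show e < 2 * e by linarith))] with x d2 d3
    exact ⟨d2.le, d3.le⟩
  obtain ⟨r2, hr2, hball2⟩ := g_ball ev
  set r' := min r r2 with hrdef
  have hr' : 0 < r' := lt_min hr hr2
  have hrr : r' ≤ r := min_le_left _ _
  have hball : ∀ y ∈ ball (p0, a0, b0) r', e / 2 ≤ |Ef y| ∧ |Ef y| ≤ 2 * e :=
    fun y hy => hball2 y (ball_subset_ball (min_le_right _ _) hy)
  have hE0' : ∀ x ∈ ball (p0, a0, b0) r', Ef x ≠ 0 := by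
    intro x hx h0
    have := (hball x hx).1
    rw [h0, abs_zero] at this
    linarith
  have hcc : ContDiffOn ℝ ∞ (amM Wf Ef) (univ ×ˢ ball (p0, a0, b0) r') :=
    amM_smooth _ _ _ (hW.mono (ball_subset_ball hrr)) (hE.mono (ball_subset_ball hrr)) hE0'
  have hcs : ∀ s, ∀ q ∈ ball (p0, a0, b0) r', amM Wf Ef (s, q) ≠ 0 →
      e / 2 / 2 ≤ |s| ∧ |s| ≤ 3 * (2 * e) := fun s q hq h =>
    amM_supp Wf Ef (e / 2) (2 * e) s q (by linarith) (hball q hq).1 (hball q hq).2 h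
  obtain ⟨δ, hδ, C, hC, hHL⟩ := HLa w l σ m g (amM Wf Ef) p0 a0 b0 r'
    (e / 2 / 2) (3 * (2 * e)) hr' (by positivity) (hw.mono (ball_subset_ball hrr))
    (hl.mono (ball_subset_ball hrr)) (hσ.mono (ball_subset_ball hrr))
    (hm.mono (ball_subset_ball hrr)) (hg.mono (ball_subset_ball hrr)) hcc hcs
    u1 u2 u3 e1 e2 e3 h11 h12 h22 h13 h23 k11 k12 k22 k13 k23 hnd
  set δ' := min δ r' / 2 with hδ'
  have hδp : 0 < min δ r' := lt_min hδ hr'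
  have hδ'p : 0 < δ' := by rw [hδ']; positivity
  have hδ1 : δ' < δ := by
    have := min_le_left δ r'
    rw [hδ']; linarith
  have hδ2 : δ' < r' := by
    have := min_le_right δ r'
    rw [hδ']; linarith
  refine ⟨δ', hδ'p, C, hC, ?_⟩
  intro p hp κ ε T τ hκ hκ1 hε hεδ hT hτ s1 s2 s3 t1 t2 t3 hs1 hs2 hs3 ht1 ht2 ht3 Ph Wa hid'
    A B hA hB hA1 hB1 hAs hBs
  have hball' : ∀ (u : V) (x : V), |u.1 - x.1| ≤ δ' ∧ |u.2.1 - x.2.1| ≤ δ' ∧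
      |u.2.2 - x.2.2| ≤ δ' → ∀ R, δ' < R → u ∈ ball x R := by
    intro u x h R hR
    rw [mem_ball, Prod.dist_eq, Prod.dist_eq, Real.dist_eq, Real.dist_eq, Real.dist_eq]
    exact max_lt (lt_of_le_of_lt h.1 hR) (max_lt (lt_of_le_of_lt h.2.1 hR)
      (lt_of_le_of_lt h.2.2 hR))
  have hAs' : ∀ u, A (Sc3 s1 s2 s3 u) ≠ 0 →
      |u.1 - a0.1| ≤ δ' ∧ |u.2.1 - a0.2.1| ≤ δ' ∧ |u.2.2 - a0.2.2| ≤ δ' := by
    intro u hu
    have h := hAs _ hu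
    unfold LB Sc3 at h
    simp only at h
    rwa [mul_div_cancel_left₀ _ hs1.ne', mul_div_cancel_left₀ _ hs2.ne',
      mul_div_cancel_left₀ _ hs3.ne'] at h
  have hBs' : ∀ u, B (Sc3 t1 t2 t3 u) ≠ 0 →
      |u.1 - b0.1| ≤ δ' ∧ |u.2.1 - b0.2.1| ≤ δ' ∧ |u.2.2 - b0.2.2| ≤ δ' := by
    intro u hu
    have h := hBs _ hu
    unfold LB Sc3 at h
    simp only at h
    rwa [mul_div_cancel_left₀ _ ht1.ne', mul_div_cancel_left₀ _ ht2.ne',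
      mul_div_cancel_left₀ _ ht3.ne'] at h
  have hpR : ∀ R, δ' < R → p ∈ ball p0 R := fun R hR => ball_subset_ball hR.le hp
  set lam := T * τ with hlam
  have hlam0 : 0 < lam := by rw [hlam]; positivity
  have hmain := hHL p (hpR δ hδ1) κ ε lam hκ hκ1 hε (hεδ.trans hδ1) hlam0
    (fun u => A (Sc3 s1 s2 s3 u)) (fun u => B (Sc3 t1 t2 t3 u))
    (hA.comp (Sc3_cont s1 s2 s3).measurable) (hB.comp (Sc3_cont t1 t2 t3).measurable)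
    (fun a => hA1 _) (fun b => hB1 _)
    (fun a ha => hball' a _ (hAs' a ha) δ hδ1) (fun b hb => hball' b _ (hBs' b hb) δ hδ1)
  have hid : (∫ q : V × V, tp A B q * ((Wa q : ℝ) : ℂ) * Kt T (Ph q)) =
      ((((s1 * s2 * s3) * (t1 * t2 * t3) : ℝ) : ℂ) * (T : ℂ)) *
      ∫ q : V × V, A (Sc3 s1 s2 s3 q.1) * B (Sc3 t1 t2 t3 q.2) * ∫ s : ℝ,
        ((amM Wf Ef (s, p, q.1, q.2) : ℝ) : ℂ) *
        ex (lam * (s * (w (p, q.1) - σ (p, q.2) + κ * (l (p, q.1) * m (p, q.2) +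
          ε * g (p, q.1, q.2))))) := by
    rw [integral_scale3 _ s1 s2 s3 t1 t2 t3 hs1 hs2 hs3 ht1 ht2 ht3,
      mul_assoc ((((s1 * s2 * s3) * (t1 * t2 * t3) : ℝ) : ℂ)) (T : ℂ),
      ← integral_const_mul (T : ℂ)]
    congr 1
    refine integral_congr_ae (Filter.Eventually.of_forall fun q => ?_)
    simp only [tp]
    by_cases hq : A (Sc3 s1 s2 s3 q.1) = 0
    · rw [hq]; simp
    by_cases hq' : B (Sc3 t1 t2 t3 q.2) = 0
    · rw [hq']; simp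
    have hqa : q.1 ∈ ball a0 r' := hball' _ _ (hAs' _ hq) r' hδ2
    have hqb : q.2 ∈ ball b0 r' := hball' _ _ (hBs' _ hq') r' hδ2
    have hin : ((p, q.1, q.2) : P × V × V) ∈ ball (p0, a0, b0) r' := by
      rw [mem_ball, Prod.dist_eq, Prod.dist_eq]
      exact max_lt (hpR r' hδ2) (max_lt hqa hqb)
    have hEne := hE0' _ hin
    obtain ⟨hfac, hamp⟩ := hid' q.1 (ball_subset_ball hrr hqa) q.2 (ball_subset_ball hrr hqb)
    rw [Kt_scale T _ (Ef (p, q.1, q.2)) (w (p, q.1) - σ (p, q.2) + κ * (l (p, q.1) * m (p, q.2) +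
          ε * g (p, q.1, q.2))) hT hEne τ hfac, hamp]
    have h5 : ∀ s : ℝ, ((amM Wf Ef (s, p, q.1, q.2) : ℝ) : ℂ) *
        ex (lam * (s * (w (p, q.1) - σ (p, q.2) + κ * (l (p, q.1) * m (p, q.2) +
          ε * g (p, q.1, q.2))))) =
        ((Wf (p, q.1, q.2) : ℝ) : ℂ) *
        (((chi (s / Ef (p, q.1, q.2)) / |Ef (p, q.1, q.2)| : ℝ) : ℂ) *
        ex (T * τ * (s * (w (p, q.1) - σ (p, q.2) +
          κ * (l (p, q.1) * m (p, q.2) + ε * g (p, q.1, q.2)))))) := by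
      intro s
      unfold amM
      simp only
      rw [Complex.ofReal_mul]
      ring
    simp only [h5]
    rw [integral_const_mul]
    ring
  rw [hid, norm_mul, norm_mul, Complex.norm_real, Complex.norm_real, Real.norm_eq_abs,
    Real.norm_eq_abs, abs_of_pos hT, abs_of_pos (by positivity)]
  exact mul_le_mul_of_nonneg_left hmain (by positivity)

end abs

end Pool.Agent.SDT.N1M

end -- N1M.M0

section -- N1M.E9

/-!
N1M, block M4: type N, E4ND and E4NN.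
-/

namespace Pool.Agent.SDT.N1M

open MeasureTheory Set Metric Filter Pool.Agent.SDT.MP_6cbfb8_an Pool.Agent.SDT.MST Pool.Agent.SDT.N1
open Pool.Agent.SDT.N1F Pool.Agent.SDT.N1G
open scoped ENNReal Real ContDiff Topology

theorem NbG_mE {δ δ' : ℝ} {x0 y0 : ℝ × ℝ} {q : V × V} (h : NbG δ x0 y0 q) (g : δ ≤ δ') :
    NbG δ' x0 y0 q := by
  obtain ⟨⟨q1, q2, q3, q4⟩, ⟨q1', q2', q3', q4'⟩, q5, q6⟩ := h
  exact ⟨⟨q1.trans g, q2.trans g, q3.trans g, q4.trans g⟩,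
    ⟨q1'.trans g, q2'.trans g, q3'.trans g, q4'.trans g⟩, q5.trans g, q6.trans g⟩

theorem Bx_mE {δ δ' : ℝ} {x0 y0 : ℝ × ℝ} {s : YX} (h : Bx δ x0 y0 s) (g : δ ≤ δ') :
    Bx δ' x0 y0 s :=
  ⟨h.1.trans g, h.2.1.trans g, h.2.2.1.trans g, h.2.2.2.trans g⟩

theorem Sm_mono' {al m m0 δ δ' : ℝ} (h : Sm al m m0 δ) (g : δ ≤ δ') : Sm al m m0 δ' :=
  ⟨h.1, h.2.1.trans_le g, h.2.2.1, h.2.2.2.1, h.2.2.2.2.trans_le g⟩

theorem meas_nN (m ρ : ℝ) : Measurable fun q : V × V => nn (omN ρ) (sgN m ρ) (px q) := by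
  unfold nn omN sgN hm px
  fun_prop

/-- The volume of a strip, type N. -/
theorem volN (m0 : ℝ) (x0 y0 : ℝ × ℝ) (hb : Bm m0 x0) (hy1 : y0.1 ≠ 0) (hy2 : y0.2 ≠ 0) :
    ∃ C3 δ0 : ℝ, 0 ≤ C3 ∧ 0 < δ0 ∧ δ0 ≤ 1 ∧ ∀ δ : ℝ, 0 < δ → δ ≤ δ0 → ∀ al m ρ : ℝ,
      Sm al m m0 δ0 → 0 < ρ → ρ < δ0 → ∀ κ γ d : ℝ, 0 < κ → 0 < γ → 0 < d →
      volume {q : V × V | NbG δ x0 y0 q ∧
      |nn (omN ρ) (sgN m ρ) (px q)| ≤ 2 * κ ∧ |q.1.2.2| ≤ γ ∧ |q.2.2.2| ≤ d} ≤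
      ENNReal.ofReal (C3 * κ * γ * d) := by
  obtain ⟨δ0, d0, d1, H⟩ := box_of_ev m0 x0 y0 _ (GdN_ev m0 x0 y0 hb hy1 hy2)
  obtain ⟨hm0, hm1, hx1, hR⟩ := hb
  refine ⟨16384 * x0.1, δ0, by positivity, d0, d1, ?_⟩
  intro δ hδ hδ0 al m ρ hS hρ hρ' κ γ d hκ hγ hd
  have hδ1 : δ ≤ 1 := hδ0.trans d1
  have hmeas : MeasurableSet {q : V × V | NbG δ x0 y0 q ∧
      |nn (omN ρ) (sgN m ρ) (px q)| ≤ 2 * κ ∧ |q.1.2.2| ≤ γ ∧ |q.2.2.2| ≤ d} := by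
    have c1 := (isClosed_NbG δ x0 y0).measurableSet
    have c2 : MeasurableSet {q : V × V | |nn (omN ρ) (sgN m ρ) (px q)| ≤ 2 * κ} :=
      measurableSet_le ((meas_nN m ρ).norm) measurable_const
    have c3 : MeasurableSet {q : V × V | |q.1.2.2| ≤ γ} :=
      measurableSet_le (by fun_prop) measurable_const
    have c4 : MeasurableSet {q : V × V | |q.2.2.2| ≤ d} :=
      measurableSet_le (by fun_prop) measurable_const
    exact c1.inter (c2.inter (c3.inter c4))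
  have h0 := vol_slice1 (I2 := Icc (x0.1 - 1) (x0.1 + 1)) (I3 := Icc (-γ) γ)
    (J1 := Icc (y0.2 - 1) (y0.2 + 1)) (J2 := Icc (x0.2 - 1) (x0.2 + 1)) (J3 := Icc (-d) d)
    (k := 512 * x0.1 * κ) _ hmeas ?_ ?_
  · refine h0.trans ?_
    simp only [Real.volume_Icc]
    rw [← ENNReal.ofReal_mul (by linarith), ← ENNReal.ofReal_mul (by positivity),
      ← ENNReal.ofReal_mul (by linarith), ← ENNReal.ofReal_mul (by linarith),
      ← ENNReal.ofReal_mul (by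
        refine mul_nonneg (by positivity) (mul_nonneg (by linarith) (by linarith)))]
    apply ENNReal.ofReal_le_ofReal
    apply le_of_eq
    ring
  · rintro ⟨⟨y1, a, z1⟩, ⟨y2, b, z2⟩⟩ ⟨⟨⟨h1, h2, h3, h4⟩, -, h5, h6⟩, -, h8, h9⟩
    simp only [px] at h1 h2 h3 h4 h5 h6 h8 h9
    rw [abs_le] at h2 h3 h4 h8 h9
    exact ⟨⟨by linarith [h3.1], by linarith [h3.2]⟩, h8, ⟨by linarith [h2.1], by linarith [h2.2]⟩,
      ⟨by linarith [h4.1], by linarith [h4.2]⟩, h9⟩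
  · rintro y y' ⟨a, z1⟩ ⟨y2, b, z2⟩ ⟨⟨⟨h1, h2, h3, h4⟩, -, -, -⟩, h7, -, -⟩
      ⟨⟨⟨h1', -, -, -⟩, -, -, -⟩, h7', -, -⟩
    simp only [px] at h1 h2 h3 h4 h1' h7 h7'
    have g1 := H al m ρ hS hρ hρ' ((y, y2), (a, b)) ⟨h1.trans hδ0, h2.trans hδ0, h3.trans hδ0,
      h4.trans hδ0⟩
    have g2 := H al m ρ hS hρ hρ' ((y', y2), (a, b)) ⟨h1'.trans hδ0, h2.trans hδ0, h3.trans hδ0,
      h4.trans hδ0⟩
    have a1 := g1.a1
    have a2 := g1.a2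
    have a3 := g1.a3
    have a4 := g1.a4
    have b3 := g2.a3
    have b4 := g2.a4
    simp only at a1 a2 a3 a4 b3 b4
    have e1 := omN_dY ρ y y' a hρ (by linarith) (by linarith)
    have e2 : |omN ρ (y, a) - omN ρ (y', a)| ≤ 4 * κ := by
      have e3 : omN ρ (y, a) - omN ρ (y', a) = nn (omN ρ) (sgN m ρ) ((y, y2), (a, b)) -
          nn (omN ρ) (sgN m ρ) ((y', y2), (a, b)) := by
        unfold nn
        ring
      rw [e3]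
      exact (abs_sub _ _).trans (by linarith)
    have hA : 0 < a - ρ * y := by linarith
    have hB : 0 < a - ρ * y' := by linarith
    have ha : 0 < a := by linarith
    rw [e1, abs_mul] at e2
    have e4 : 1 / (64 * x0.1) ≤ |a ^ 2 * (a - ρ * y + (a - ρ * y')) /
        ((a - ρ * y) * (a - ρ * y')) ^ 2| := by
      rw [abs_of_pos (by positivity)]
      have n1 : (x0.1 / 2) ^ 2 * (x0.1 / 2 + x0.1 / 2) ≤ a ^ 2 * (a - ρ * y + (a - ρ * y')) := by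
        gcongr
      have n2 : ((a - ρ * y) * (a - ρ * y')) ^ 2 ≤ (2 * x0.1 * (2 * x0.1)) ^ 2 := by
        gcongr
      rw [le_div_iff₀ (by positivity)]
      calc 1 / (64 * x0.1) * ((a - ρ * y) * (a - ρ * y')) ^ 2 ≤
          1 / (64 * x0.1) * (2 * x0.1 * (2 * x0.1)) ^ 2 :=
            mul_le_mul_of_nonneg_left n2 (by positivity)
        _ = (x0.1 / 2) ^ 2 * (x0.1 / 2 + x0.1 / 2) := by
            field_simp
            ring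
        _ ≤ _ := n1
    have e5 : 1 / (64 * x0.1) * |y - y'| ≤ 4 * κ :=
      (mul_le_mul_of_nonneg_right e4 (abs_nonneg _)).trans e2
    have e6 : |y - y'| = 64 * x0.1 * (1 / (64 * x0.1) * |y - y'|) := by
      field_simp
    rw [e6]
    calc 64 * x0.1 * (1 / (64 * x0.1) * |y - y'|) ≤ 64 * x0.1 * (4 * κ) :=
          mul_le_mul_of_nonneg_left e5 (by positivity)
      _ ≤ 512 * x0.1 * κ := by nlinarith [mul_pos hx1 hκ]

/-- Type N, dangerous case: the hypotheses of `coreD` with `ν = al²`, `μ = 1`. -/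
theorem E4ND (c : ℝ) (hc : 0 < c) (hc1 : c ≤ 1) (m0 : ℝ) (x0 y0 : ℝ × ℝ) (hb : Bm m0 x0)
    (hy1 : y0.1 ≠ 0) (hy2 : y0.2 ≠ 0) (n0 : nn (omN 0) (sgN m0 0) (y0, x0) = 0) :
    ∃ C0 C3 C4 c1 δ0 : ℝ, 0 < C0 ∧ 0 ≤ C3 ∧ 1 ≤ C4 ∧ 0 < c1 ∧ 0 < δ0 ∧ δ0 ≤ 1 ∧
    ∀ η : ℝ, 0 < η → ∃ δ1 : ℝ, 0 < δ1 ∧ ∀ δ : ℝ, 0 < δ → δ ≤ δ0 → ∀ al m ρ : ℝ,
    Sm al m m0 (min δ0 δ1) → 0 < ρ → ρ < min δ0 δ1 →
    (δ ≤ δ1 → ∀ s, Bx δ x0 y0 s → |nn (omN ρ) (sgN m ρ) s| ≤ η) ∧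
    (∀ q, NbG δ x0 y0 q → |q.1.2.2| ≤
      C0 * (|nn (omN ρ) (sgN m ρ) (px q)| + |nn (omN ρ) (sgN m ρ) (pz q)| + |q.2.2.2|)) ∧
    (∀ κ q, 0 < κ → NbG δ x0 y0 q → |nn (omN ρ) (sgN m ρ) (px q)| ≤ 2 * κ →
      |nn (omN ρ) (sgN m ρ) (pz q)| ≤ 2 * κ → C4 * κ * (al ^ 2 * |q.1.2.2|) ≤ |q.2.2.2| →
      c1 * |q.2.2.2| ≤ |Fg (phN c m al ρ) q|) ∧
    (∀ κ q, 0 < κ → NbG δ x0 y0 q →
      ((κ / 2 ≤ nn (omN ρ) (sgN m ρ) (px q) ∧ κ / 2 ≤ nn (omN ρ) (sgN m ρ) (pz q)) ∨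
        (nn (omN ρ) (sgN m ρ) (px q) ≤ -(κ / 2) ∧ nn (omN ρ) (sgN m ρ) (pz q) ≤ -(κ / 2))) →
      C4 * |q.2.2.2| ≤ κ * (al ^ 2 * |q.1.2.2|) →
      c1 * (κ * (al ^ 2 * |q.1.2.2|)) ≤ |Fg (phN c m al ρ) q|) ∧
    (∀ κ γ d : ℝ, 0 < κ → 0 < γ → 0 < d → volume {q : V × V | NbG δ x0 y0 q ∧
      |nn (omN ρ) (sgN m ρ) (px q)| ≤ 2 * κ ∧ |q.1.2.2| ≤ γ ∧ |q.2.2.2| ≤ d} ≤
      ENNReal.ofReal (C3 * κ * γ * d)) := by
  obtain ⟨l, Λ, C, δ0, hl, hΛ, hC, d0, d1, H⟩ := keyN c hc hc1 m0 x0 y0 hb hy1 hy2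
  obtain ⟨C3, δv, hC3, dv0, dv1, Hv⟩ := volN m0 x0 y0 hb hy1 hy2
  have hC0 : 0 < C := by linarith
  have x1 : 0 ≤ 8 * Λ / l := by positivity
  have x2 : 0 ≤ 4 * Λ * (2 + 4 * C) / l := by positivity
  refine ⟨C, C3, 1 + 4 * C + 8 * Λ / l + 4 * Λ * (2 + 4 * C) / l, l / 8,
    min (min δ0 δv) (l / (4 * Λ * C)), hC0, hC3, by linarith, by positivity,
    lt_min (lt_min d0 dv0) (by positivity), ((min_le_left _ _).trans (min_le_left _ _)).trans d1,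
    fun η hη => ?_⟩
  obtain ⟨δ1, e1, e1', h1⟩ := box_of_ev m0 x0 y0 _ (nN_ev m0 x0 y0 hb η hη)
  refine ⟨δ1, e1, fun δ hδ hδ0 al m ρ hS hρ hρ' => ?_⟩
  have g0 : min (min (min δ0 δv) (l / (4 * Λ * C))) δ1 ≤ δ0 :=
    ((min_le_left _ _).trans (min_le_left _ _)).trans (min_le_left _ _)
  have gv : min (min (min δ0 δv) (l / (4 * Λ * C))) δ1 ≤ δv :=
    ((min_le_left _ _).trans (min_le_left _ _)).trans (min_le_right _ _)
  have hδ00 : δ ≤ δ0 := hδ0.trans ((min_le_left _ _).trans (min_le_left _ _))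
  have hδv : δ ≤ δv := hδ0.trans ((min_le_left _ _).trans (min_le_right _ _))
  have hδl : δ ≤ l / (4 * Λ * C) := hδ0.trans (min_le_right _ _)
  have hal1 : al ^ 2 ≤ 1 := by
    have h2 : al < 1 := (hS.2.1.trans_le g0).trans_le d1
    nlinarith [hS.1]
  have hal0 : 0 ≤ al ^ 2 := sq_nonneg al
  have habs : ∀ z : ℝ, |al ^ 2 * z| = al ^ 2 * |z| := fun z => by
    rw [abs_mul, abs_of_nonneg hal0]
  have K := H al m ρ (Sm_mono' hS g0) hρ (hρ'.trans_le g0)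
  refine ⟨fun hδ1 s hs => ?_, fun q hq => ?_, fun κ q hκ hq h2 h3 h4 => ?_,
    fun κ q hκ hq h2 h3 => ?_, Hv δ hδ hδv al m ρ (Sm_mono' hS gv) hρ (hρ'.trans_le gv)⟩
  · have := h1 al m ρ (Sm_mono' hS (min_le_right _ _)) hρ (hρ'.trans_le (min_le_right _ _)) s
      (Bx_mE hs hδ1)
    simp only [n0, sub_zero] at this
    exact this
  · obtain ⟨n, L, M, -, -, -, -, -, k, -⟩ := K δ hδ00 q hq
    exact k
  · obtain ⟨n, L, M, g1, g2, g3, g4, g5, g6, g7, -⟩ := K δ hδ00 q hq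
    rw [g5]
    have b1 : |al ^ 2 * q.1.2.2| ≤ l / (4 * Λ * C) := by
      rw [habs]
      have := hq.2.2.1
      nlinarith [abs_nonneg q.1.2.2]
    have b2 : 4 * Λ * (2 + 4 * C) / l * κ * |al ^ 2 * q.1.2.2| ≤ |q.2.2.2| := by
      rw [habs]
      refine le_trans ?_ h4
      refine mul_le_mul_of_nonneg_right (mul_le_mul_of_nonneg_right ?_ hκ.le) (by positivity)
      linarith
    have := e3_low1 hl hΛ hC hκ g1 g2 g3 h2 h3 g7 b1 b2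
    have a2 := abs_nonneg q.2.2.2
    have : l / 8 * |q.2.2.2| ≤ l / 2 * |q.2.2.2| :=
      mul_le_mul_of_nonneg_right (by linarith) a2
    linarith
  · obtain ⟨n, L, M, g1, g2, g3, g4, g5, g6, g7, g8, g9, -⟩ := K δ hδ00 q hq
    rw [g5, ← habs]
    have a2 := abs_nonneg q.2.2.2
    rw [← habs] at h3
    have b2 : 8 * Λ / l * |q.2.2.2| ≤ κ * |al ^ 2 * q.1.2.2| := by
      refine le_trans ?_ h3
      refine mul_le_mul_of_nonneg_right ?_ a2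
      linarith
    have b3 : C * |q.2.2.2| ≤ κ / 4 := by
      have c1 : 4 * C * |q.2.2.2| ≤ κ * |al ^ 2 * q.1.2.2| := by
        refine le_trans ?_ h3
        refine mul_le_mul_of_nonneg_right ?_ a2
        linarith
      have c2 : |al ^ 2 * q.1.2.2| ≤ 1 := by
        rw [habs]
        have := hq.2.2.1.trans (hδ00.trans d1)
        nlinarith [abs_nonneg q.1.2.2]
      have c3 : κ * |al ^ 2 * q.1.2.2| ≤ κ := mul_le_of_le_one_right hκ.le c2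
      linarith
    have hn : κ / 4 ≤ |n| := by
      rcases h2 with ⟨h5, h6⟩ | ⟨h5, h6⟩
      · have := g8 _ h5 h6
        refine le_trans ?_ (le_abs_self _)
        linarith
      · have := g9 _ h5 h6
        refine le_trans ?_ (neg_le_abs _)
        linarith
    exact e3_low2 hl hΛ hκ g1 g4 hn b2

/-- Type N, `n ≠ 0`: the hypotheses of `coreN` with `ν = al²`. -/
theorem E4NN (c : ℝ) (hc : 0 < c) (hc1 : c ≤ 1) (m0 : ℝ) (x0 y0 : ℝ × ℝ) (hb : Bm m0 x0)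
    (hy1 : y0.1 ≠ 0) (hy2 : y0.2 ≠ 0) (n0 : nn (omN 0) (sgN m0 0) (y0, x0) ≠ 0) :
    ∃ C4 c1 δ0 : ℝ, 1 ≤ C4 ∧ 0 < c1 ∧ 0 < δ0 ∧ δ0 ≤ 1 ∧
    ∀ δ : ℝ, 0 < δ → δ ≤ δ0 → ∀ al m ρ : ℝ, Sm al m m0 δ0 → 0 < ρ → ρ < δ0 →
    ∀ q, NbG δ x0 y0 q →
      (C4 * (al ^ 2 * |q.1.2.2|) ≤ |q.2.2.2| ∨ C4 * |q.2.2.2| ≤ al ^ 2 * |q.1.2.2|) →
      c1 * (al ^ 2 * |q.1.2.2| + |q.2.2.2|) ≤ |Fg (phN c m al ρ) q| := by
  obtain ⟨l, Λ, C, δ0, hl, hΛ, hC, d0, d1, H⟩ := keyN c hc hc1 m0 x0 y0 hb hy1 hy2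
  have hn : 0 < |nn (omN 0) (sgN m0 0) (y0, x0)| := abs_pos.2 n0
  obtain ⟨δ1, e1, e1', h1⟩ := box_of_ev m0 x0 y0 _
    (nN_ev m0 x0 y0 hb (|nn (omN 0) (sgN m0 0) (y0, x0)| / 2) (half_pos hn))
  set N0 := nn (omN 0) (sgN m0 0) (y0, x0) with hN0
  obtain ⟨k0, hk0⟩ : ∃ k0 : ℝ, k0 = min (l * (|N0| / 2)) l := ⟨_, rfl⟩
  have hk : 0 < k0 := by
    rw [hk0]
    positivity
  obtain ⟨K, hKe⟩ : ∃ K : ℝ, K = Λ * (2 * |N0|) + Λ := ⟨_, rfl⟩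
  have hK : 0 < K := by
    rw [hKe]
    positivity
  refine ⟨1 + 2 * K / k0, k0 / 4, min δ0 δ1, ?_, by positivity, lt_min d0 e1,
    (min_le_left _ _).trans d1, fun δ hδ hδ0 al m ρ hS hρ hρ' q hq hz => ?_⟩
  · have : 0 ≤ 2 * K / k0 := by positivity
    linarith
  have hδ0' := hδ0.trans (min_le_left _ _)
  have hal0 : 0 ≤ al ^ 2 := sq_nonneg al
  obtain ⟨n, L, M, k1, k2, k3, k4, k5, -, -, -, -, s, hs, hns⟩ := H al m ρ
    (Sm_mono' hS (min_le_left _ _)) hρ (hρ'.trans_le (min_le_left _ _)) δ hδ0' q hq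
  have hN' := h1 al m ρ (Sm_mono' hS (min_le_right _ _)) hρ (hρ'.trans_le (min_le_right _ _)) s
    (Bx_mE hs (hδ0.trans (min_le_right _ _)))
  simp only [← hN0] at hN'
  rw [← hns] at hN'
  rw [k5]
  have j5 := abs_sub_abs_le_abs_sub n N0
  have j6 := abs_sub_abs_le_abs_sub N0 n
  rw [abs_sub_comm N0 n] at j6
  have hLp : 0 < L := by linarith
  have u1 : k0 ≤ |L * n| := by
    rw [abs_mul, abs_of_pos hLp, hk0]
    exact (min_le_left _ _).trans (mul_le_mul k1 (by linarith) (by positivity) hLp.le)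
  have u2 : |L * n| ≤ K := by
    rw [abs_mul, abs_of_pos hLp, hKe]
    have : L * |n| ≤ Λ * (2 * |N0|) :=
      mul_le_mul k2 (by linarith) (abs_nonneg _) (by linarith)
    linarith
  have u3 : k0 ≤ |M| := by
    rw [hk0]
    exact (min_le_right _ _).trans k3
  have u4 : |M| ≤ K := by
    rw [hKe]
    have : 0 ≤ Λ * (2 * |N0|) := by positivity
    linarith
  have habs : |al ^ 2 * q.1.2.2| = al ^ 2 * |q.1.2.2| := by
    rw [abs_mul, abs_of_nonneg hal0]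
  rw [← habs] at hz ⊢
  set z1 := al ^ 2 * q.1.2.2
  set z2 := q.2.2.2
  have key : ∀ X Y s t : ℝ, k0 ≤ |X| → |Y| ≤ K → (1 + 2 * K / k0) * |t| ≤ |s| →
      k0 / 4 * (|s| + |t|) ≤ |X * s| - |Y * t| := by
    intro X Y s t v1 v2 v3
    have b1 := abs_nonneg s
    have b2 := abs_nonneg t
    have b3 : 0 ≤ 2 * K / k0 * |t| := by positivity
    have b4 : |t| ≤ |s| := by linarith
    have b5 : K * |t| ≤ k0 / 2 * |s| := by
      calc K * |t| = k0 / 2 * (2 * K / k0 * |t|) := by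
            field_simp
        _ ≤ k0 / 2 * |s| := mul_le_mul_of_nonneg_left (by linarith) (by positivity)
    rw [abs_mul, abs_mul]
    have b6 : k0 * |s| ≤ |X| * |s| := mul_le_mul_of_nonneg_right v1 b1
    have b7 : |Y| * |t| ≤ K * |t| := mul_le_mul_of_nonneg_right v2 b2
    have b8 : k0 / 4 * |t| ≤ k0 / 4 * |s| := mul_le_mul_of_nonneg_left b4 (by positivity)
    linarith
  rcases hz with hz | hz
  · have := key M (L * n) z2 z1 u3 u2 hz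
    have h7 : |M * z2| ≤ |-(L * n * z1) + M * z2| + |L * n * z1| := by
      have : M * z2 = (-(L * n * z1) + M * z2) + L * n * z1 := by ring
      calc |M * z2| = |(-(L * n * z1) + M * z2) + L * n * z1| := by rw [← this]
        _ ≤ _ := abs_add_le _ _
    linarith
  · have := key (L * n) M z1 z2 u1 u4 hz
    have h7 : |L * n * z1| ≤ |-(L * n * z1) + M * z2| + |M * z2| := by
      have : L * n * z1 = -(-(L * n * z1) + M * z2) + M * z2 := by ring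
      calc |L * n * z1| = |-(-(L * n * z1) + M * z2) + M * z2| := by rw [← this]
        _ ≤ |-(-(L * n * z1) + M * z2)| + |M * z2| := abs_add_le _ _
        _ = _ := by rw [abs_neg]
    linarith

end Pool.Agent.SDT.N1M

end -- N1M.E9
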