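import Pool.Agent.SDT.B52
import Pool.Agent.SDT.B56

set_option autoImplicit false

namespace Pool.Agent.SDT.MP_6cbfb8_an
end Pool.Agent.SDT.MP_6cbfb8_an
namespace Pool.Agent.SDT.MST
end Pool.Agent.SDT.MST

section -- N1.M2a

/-!
N1, block M2, part 1: the global estimate for nondegenerate outer directions.
-/

namespace Pool.Agent.SDT.N1

open MeasureTheory Set Metric Pool.Agent.SDT.MP_6cbfb8_an Pool.Agent.SDT.MST
open scoped ENNReal Real ContDiff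

/-- The local estimate at the base point `P = (x0, y0)`. -/
def m2_P (c : ℝ) (P : (ℝ × ℝ) × (ℝ × ℝ)) (δ C : ℝ) : Prop :=
  ∀ T : ℝ, 1 ≤ T → ∀ ρ : ℝ, 0 < ρ → ρ < δ →
      ∀ α β : ℝ × ℝ → ℂ, Measurable α → Measurable β → (∀ p, ‖α p‖ ≤ 1) → (∀ p, ‖β p‖ ≤ 1) →
      (∀ p, α p ≠ 0 → |p.1 / ρ - P.2.1| ≤ δ ∧ |p.2 - P.1.1| ≤ δ) →
      (∀ p, β p ≠ 0 → |p.1 / ρ - P.2.2| ≤ δ ∧ |p.2 - P.1.2| ≤ δ) →
      Th c T (pd α β) ≤ ENNReal.ofReal (C * (1 + Real.log T) ^ 5 / T)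

theorem m2_P_mono (c : ℝ) (x : (ℝ × ℝ) × (ℝ × ℝ)) (δ δ' C C' : ℝ) (hδδ : δ' ≤ δ)
    (hCC : C ≤ C') (h : m2_P c x δ C) : m2_P c x δ' C' := by
  intro T hT ρ hρ hρδ α β hα hβ hα1 hβ1 hαs hβs
  refine (h T hT ρ hρ (hρδ.trans_le hδδ) α β hα hβ hα1 hβ1 ?_ ?_).trans ?_
  · intro p hp
    have h2 := hαs p hp
    exact ⟨h2.1.trans hδδ, h2.2.trans hδδ⟩
  · intro p hp
    have h2 := hβs p hp
    exact ⟨h2.1.trans hδδ, h2.2.trans hδδ⟩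
  · have h3 : 0 ≤ Real.log T := Real.log_nonneg hT
    have h4 : 0 < T := by linarith
    apply ENNReal.ofReal_le_ofReal
    gcongr

theorem m2_P_shift (c : ℝ) (x x' : (ℝ × ℝ) × (ℝ × ℝ)) (δ C : ℝ) (_hδ : 0 < δ)
    (hd : dist x' x ≤ δ / 2) (h : m2_P c x δ C) : m2_P c x' (δ / 2) C := by
  rw [Prod.dist_eq, Prod.dist_eq, Prod.dist_eq, max_le_iff, max_le_iff, max_le_iff, Real.dist_eq,
    Real.dist_eq, Real.dist_eq, Real.dist_eq] at hd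
  intro T hT ρ hρ hρδ α β hα hβ hα1 hβ1 hαs hβs
  refine h T hT ρ hρ (by linarith) α β hα hβ hα1 hβ1 ?_ ?_
  · intro p hp
    have h2 := hαs p hp
    have h3 := abs_sub_le (p.1 / ρ) x'.2.1 x.2.1
    have h4 := abs_sub_le p.2 x'.1.1 x.1.1
    constructor <;> linarith [hd.1.1, hd.2.1]
  · intro p hp
    have h2 := hβs p hp
    have h3 := abs_sub_le (p.1 / ρ) x'.2.2 x.2.2
    have h4 := abs_sub_le p.2 x'.1.2 x.1.2
    constructor <;> linarith [hd.1.2, hd.2.2]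

theorem m2_Kc_swap {c : ℝ} {x : ℝ × ℝ} (hx : x ∈ Kc c) : x.swap ∈ Kc c := by
  obtain ⟨h1, h2, h3⟩ := hx
  refine ⟨h2, h1, ?_⟩
  simp only [Prod.fst_swap, Prod.snd_swap]
  linarith

theorem m2_Kc_compact {c : ℝ} (hc : 0 < c) : IsCompact (Kc c) := by
  have h1 : Kc c ⊆ Icc c 1 ×ˢ Icc c 1 := by
    rintro x ⟨h1, h2, h3⟩
    have h4 : 0 ≤ c ^ 2 / 4 := by positivity
    refine ⟨⟨h1, ?_⟩, h2, ?_⟩ <;> nlinarith
  refine (isCompact_Icc.prod isCompact_Icc).of_isClosed_subset ?_ h1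
  have h2 : Kc c = {x | c ≤ x.1} ∩ ({x | c ≤ x.2} ∩ {x | x.1 ^ 2 + x.2 ^ 2 ≤ 1 - c ^ 2 / 4}) := by
    ext x
    rfl
  rw [h2]
  refine IsClosed.inter ?_ (IsClosed.inter ?_ ?_)
  · exact isClosed_le continuous_const continuous_fst
  · exact isClosed_le continuous_const continuous_snd
  · exact isClosed_le ((continuous_fst.pow 2).add (continuous_snd.pow 2)) continuous_const

/-- The set of scaled outer directions. -/
def m2_Y (k0 : ℕ) : Set (ℝ × ℝ) :=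
  {z | (1 / 2 ≤ |z.1| ∧ |z.1| ≤ 2) ∧ (1 / 2 ^ (k0 + 1) ≤ |z.2| ∧ |z.2| ≤ 2 ^ (k0 + 1))}

theorem m2_Y_compact (k0 : ℕ) : IsCompact (m2_Y k0) := by
  have h1 : m2_Y k0 ⊆ Icc (-2) 2 ×ˢ Icc (-(2 ^ (k0 + 1))) (2 ^ (k0 + 1)) := by
    rintro z ⟨⟨-, h2⟩, -, h4⟩
    exact ⟨abs_le.1 h2, abs_le.1 h4⟩
  refine (isCompact_Icc.prod isCompact_Icc).of_isClosed_subset ?_ h1
  unfold m2_Y
  refine IsClosed.inter (IsClosed.inter ?_ ?_) (IsClosed.inter ?_ ?_)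
  · exact isClosed_le continuous_const (continuous_abs.comp continuous_fst)
  · exact isClosed_le (continuous_abs.comp continuous_fst) continuous_const
  · exact isClosed_le continuous_const (continuous_abs.comp continuous_snd)
  · exact isClosed_le (continuous_abs.comp continuous_snd) continuous_const

theorem m2_loc (c : ℝ) (hc : 0 < c) (k0 : ℕ) : ∃ δ : ℝ, 0 < δ ∧ ∃ C : ℝ, 0 ≤ C ∧
    ∀ P ∈ Kc c ×ˢ m2_Y k0, m2_P c P δ C := by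
  refine g2_unif ((m2_Kc_compact hc).prod (m2_Y_compact k0)) (m2_P c) ?_ ?_ ?_
  · intro x δ δ' C C' _ hδδ hCC h
    exact m2_P_mono c x δ δ' C C' hδδ hCC h
  · rintro ⟨x0, y0⟩ ⟨hx, ⟨h1, -⟩, h2, -⟩
    have hx : x0 ∈ Kc c := hx
    have hy1 : y0.1 ≠ 0 := by
      have h3 : (0 : ℝ) < 1 / 2 := by norm_num
      exact abs_pos.1 (h3.trans_le h1)
    have hy2 : y0.2 ≠ 0 := by
      have h3 : (0 : ℝ) < 1 / 2 ^ (k0 + 1) := by positivity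
      exact abs_pos.1 (h3.trans_le h2)
    by_cases hN : Nf 0 y0 x0 = 0
    · exact TH_D c hc x0 y0 hx hy1 hy2 hN
    · by_cases hN' : Nf 0 y0.swap x0.swap = 0
      · obtain ⟨δ, hδ, C, hC, h⟩ := TH_D c hc x0.swap y0.swap (m2_Kc_swap hx) hy2 hy1 hN'
        refine ⟨δ, hδ, C, hC, ?_⟩
        intro T hT ρ hρ hρδ α β hα hβ hα1 hβ1 hαs hβs
        rw [Th_comm]
        exact h T hT ρ hρ hρδ β α hβ hα hβ1 hα1 hβs hαs
      · exact TH_N c hc x0 y0 hx hy1 hy2 hN hN'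
  · intro x x' δ C hδ hd h
    exact m2_P_shift c x x' δ C hδ hd h

end Pool.Agent.SDT.N1

end -- N1.M2a

section -- N1.M2b

/-!
N1, block M2, part 2: the theorem TH.
-/

namespace Pool.Agent.SDT.N1

open MeasureTheory Set Metric Pool.Agent.SDT.MP_6cbfb8_an Pool.Agent.SDT.MST
open scoped ENNReal Real ContDiff

theorem m2_Th_zero (c T : ℝ) (M : (ℝ × ℝ) × (ℝ × ℝ) → ℂ)
    (h : ∀ y x : ℝ × ℝ, M (y, x) ≠ 0 → wf c x.1 x.2 * wf c (x.1 - y.1) (x.2 - y.2) = 0) :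
    Th c T M = 0 := by
  have h1 : ∀ y t, Hy c M y t = 0 := by
    intro y t
    unfold Hy
    have h2 : ∀ x : ℝ × ℝ, M (y, x) * ((wf c x.1 x.2 * wf c (x.1 - y.1) (x.2 - y.2) : ℝ) : ℂ) *
        ex (t * (qf c x.1 x.2 - qf c (x.1 - y.1) (x.2 - y.2))) = 0 := by
      intro x
      by_cases h3 : M (y, x) = 0
      · rw [h3]
        simp
      · rw [h y x h3]
        simp
    simp only [h2, integral_zero]
  unfold Th
  simp [h1]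

theorem m2_wf_ne {c a b : ℝ} (hc : 0 < c) (h : wf c a b ≠ 0) : a ^ 2 + b ^ 2 ≤ 1 - c ^ 2 / 4 := by
  unfold wf sma smb at h
  have h1 : Real.smoothTransition ((2 * √(1 - a ^ 2 - b ^ 2) - c) / c) ≠ 0 := by
    intro h2
    rw [h2] at h
    simp at h
  have h2 : 0 < (2 * √(1 - a ^ 2 - b ^ 2) - c) / c := by
    by_contra h3
    push Not at h3
    exact h1 (Real.smoothTransition.zero_of_nonpos h3)
  have h3 : 0 < 2 * √(1 - a ^ 2 - b ^ 2) - c := by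
    by_contra h4
    push Not at h4
    have h5 := div_nonpos_of_nonpos_of_nonneg h4 hc.le
    linarith
  have h4 : c / 2 < √(1 - a ^ 2 - b ^ 2) := by linarith
  have h5 := (Real.lt_sqrt (by positivity)).1 h4
  nlinarith

/-- the splitting of a positive form in the first factor -/
theorem m2_Th_split (c : ℝ) (hc : 0 < c) (T : ℝ) (hT : 0 < T) (n : ℕ) (α : Fin n → ℝ × ℝ → ℂ)
    (β : ℝ × ℝ → ℂ) (hα : ∀ i, Measurable (α i)) (hβ : Measurable β) (hα1 : ∀ i p, ‖α i p‖ ≤ 1)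
    (hβ1 : ∀ p, ‖β p‖ ≤ 1) (K : ℝ≥0∞) (hK : ∀ i, Th c T (pd (α i) β) ≤ K) :
    Th c T (pd (fun p => ∑ i, α i p) β) ≤ n * (n * K) := by
  have h1 : pd (fun p => ∑ i, α i p) β = fun p => ∑ i, pd (α i) β p := by
    funext p
    unfold pd
    rw [Finset.sum_mul]
  rw [h1]
  refine (Th_sum c hc T hT n (fun i => pd (α i) β) ?_ 1 ?_).trans ?_
  · intro i
    unfold pd
    have h2 := hα i
    fun_prop
  · intro i p
    unfold pd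
    rw [norm_mul]
    exact mul_le_one₀ (hα1 i _) (norm_nonneg _) (hβ1 _)
  · gcongr
    refine (Finset.sum_le_sum fun i _ => hK i).trans ?_
    simp

theorem m2_cell (c : ℝ) (hc : 0 < c) (k0 : ℕ) (δ C : ℝ) (_hδ : 0 < δ)
    (hP : ∀ P ∈ Kc c ×ˢ m2_Y k0, m2_P c P δ C) (T : ℝ) (hT : 1 ≤ T) (ρ : ℝ) (hρ : 0 < ρ)
    (x0 : ℝ × ℝ) (α β : ℝ × ℝ → ℂ) (hα : Measurable α) (hβ : Measurable β)
    (hα1 : ∀ p, ‖α p‖ ≤ 1) (hβ1 : ∀ p, ‖β p‖ ≤ 1)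
    (hαs : ∀ p, α p ≠ 0 → c ≤ p.2 ∧ c ≤ p.2 - p.1 ∧ |p.2 - x0.1| ≤ δ / 8 ∧
      |p.2 - p.1 - x0.1| ≤ δ / 8 ∧ 1 / 2 ≤ |p.1 / ρ| ∧ |p.1 / ρ| ≤ 2)
    (hβs : ∀ p, β p ≠ 0 → c ≤ p.2 ∧ c ≤ p.2 - p.1 ∧ |p.2 - x0.2| ≤ δ / 8 ∧
      |p.2 - p.1 - x0.2| ≤ δ / 8 ∧ 1 / 2 ^ (k0 + 1) ≤ |p.1 / ρ| ∧ |p.1 / ρ| ≤ 2 ^ (k0 + 1))
    (hαd : ∀ p p', α p ≠ 0 → α p' ≠ 0 → |p.1 / ρ - p'.1 / ρ| ≤ δ)
    (hβd : ∀ p p', β p ≠ 0 → β p' ≠ 0 → |p.1 / ρ - p'.1 / ρ| ≤ δ) :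
    Th c T (pd α β) ≤ ENNReal.ofReal (C * (1 + Real.log T) ^ 5 / T) := by
  by_cases hne : ∀ y x : ℝ × ℝ, pd α β (y, x) ≠ 0 →
      wf c x.1 x.2 * wf c (x.1 - y.1) (x.2 - y.2) = 0
  · rw [m2_Th_zero c T _ hne]
    exact zero_le
  push Not at hne
  obtain ⟨y, x, h1, h2⟩ := hne
  unfold pd at h1
  simp only at h1
  have h3 := left_ne_zero_of_mul h1
  have h4 := right_ne_zero_of_mul h1
  have h5 := hαs _ h3
  have h6 := hβs _ h4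
  simp only at h5 h6
  have h7 := m2_wf_ne hc (left_ne_zero_of_mul h2)
  have hx : x ∈ Kc c := ⟨h5.1, h6.1, h7⟩
  have hy : (y.1 / ρ, y.2 / ρ) ∈ m2_Y k0 := ⟨h5.2.2.2.2, h6.2.2.2.2⟩
  have hρδ : ρ < δ := by
    have h8 : |y.1| ≤ δ / 4 := by
      have h9 := abs_sub_le x.1 x0.1 (x.1 - y.1)
      have h10 : x.1 - (x.1 - y.1) = y.1 := by ring
      rw [h10, abs_sub_comm x0.1] at h9
      linarith [h5.2.2.1, h5.2.2.2.1]
    have h9 := h5.2.2.2.2.1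
    rw [abs_div, abs_of_pos hρ, le_div_iff₀ hρ] at h9
    linarith
  refine hP (x, (y.1 / ρ, y.2 / ρ)) ⟨hx, hy⟩ T hT ρ hρ hρδ α β hα hβ hα1 hβ1 ?_ ?_
  · intro p hp
    refine ⟨hαd p (y.1, x.1) hp h3, ?_⟩
    have h9 := abs_sub_le p.2 x0.1 x.1
    rw [abs_sub_comm x0.1] at h9
    simp only
    linarith [(hαs p hp).2.2.1, h5.2.2.1]
  · intro p hp
    refine ⟨hβd p (y.2, x.2) hp h4, ?_⟩
    have h9 := abs_sub_le p.2 x0.2 x.2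
    rw [abs_sub_comm x0.2] at h9
    simp only
    linarith [(hβs p hp).2.2.1, h6.2.2.1]

theorem m2_cut_fin {φ : ℝ × ℝ → ℝ} {R δ : ℝ} (hδ : 0 < δ) {A : ℝ × ℝ → ℂ}
    (hAs : ∀ u, A u ≠ 0 → |φ u| ≤ R) :
    (fun p => ∑ i : Fin (⌊2 * R / δ⌋₊ + 1), g2_cut φ R δ A i p) = A := by
  funext p
  rw [Fin.sum_univ_eq_sum_range (fun i => g2_cut φ R δ A i p)]
  exact g2_cut_sum φ R δ hδ A hAs p

/-- The global estimate for nondegenerate outer directions. -/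
theorem TH (c : ℝ) (hc : 0 < c) (k0 : ℕ) : ∃ r : ℝ, 0 < r ∧ ∃ C : ℝ, 0 ≤ C ∧ ∀ T : ℝ, 1 ≤ T →
    ∀ ρ : ℝ, 0 < ρ → ∀ x0 : ℝ × ℝ, ∀ α β : ℝ × ℝ → ℂ, Measurable α → Measurable β →
      (∀ p, ‖α p‖ ≤ 1) → (∀ p, ‖β p‖ ≤ 1) →
      (∀ p, α p ≠ 0 → c ≤ p.2 ∧ c ≤ p.2 - p.1 ∧ |p.2 - x0.1| ≤ r ∧ |p.2 - p.1 - x0.1| ≤ r ∧
        1 / 2 ≤ |p.1 / ρ| ∧ |p.1 / ρ| ≤ 2) →
      (∀ p, β p ≠ 0 → c ≤ p.2 ∧ c ≤ p.2 - p.1 ∧ |p.2 - x0.2| ≤ r ∧ |p.2 - p.1 - x0.2| ≤ r ∧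
        1 / 2 ^ (k0 + 1) ≤ |p.1 / ρ| ∧ |p.1 / ρ| ≤ 2 ^ (k0 + 1)) →
      Th c T (pd α β) ≤ ENNReal.ofReal (C * (1 + Real.log T) ^ 5 / T) := by
  obtain ⟨δ, hδ, C, hC, hP⟩ := m2_loc c hc k0
  set n1 : ℕ := ⌊2 * 2 / δ⌋₊ + 1 with hn1
  set n2 : ℕ := ⌊2 * (2 ^ (k0 + 1)) / δ⌋₊ + 1 with hn2
  refine ⟨δ / 8, by positivity, (n1 : ℝ) ^ 2 * n2 ^ 2 * C, by positivity, ?_⟩
  intro T hT ρ hρ x0 α β hα hβ hα1 hβ1 hαs hβs
  have hT0 : 0 < T := by linarith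
  have hφ : Measurable fun p : ℝ × ℝ => p.1 / ρ := by fun_prop
  have hc1 := m2_cut_fin (φ := fun p : ℝ × ℝ => p.1 / ρ) (R := 2) hδ (A := α)
    (fun u hu => (hαs u hu).2.2.2.2.2)
  have hc2 := m2_cut_fin (φ := fun p : ℝ × ℝ => p.1 / ρ) (R := 2 ^ (k0 + 1)) hδ (A := β)
    (fun u hu => (hβs u hu).2.2.2.2.2)
  set K : ℝ≥0∞ := ENNReal.ofReal (C * (1 + Real.log T) ^ 5 / T) with hK
  have key : ∀ (i : ℕ) (k : ℕ), Th c T (pd (g2_cut (fun p : ℝ × ℝ => p.1 / ρ) 2 δ α i)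
      (g2_cut (fun p : ℝ × ℝ => p.1 / ρ) (2 ^ (k0 + 1)) δ β k)) ≤ K := by
    intro i k
    refine m2_cell c hc k0 δ C hδ hP T hT ρ hρ x0 _ _ (g2_cut_meas hφ _ _ hα _)
      (g2_cut_meas hφ _ _ hβ _) (g2_cut_norm _ _ _ hα1 _) (g2_cut_norm _ _ _ hβ1 _) ?_ ?_ ?_ ?_
    · intro p hp
      exact hαs p (g2_cut_ne hp).2
    · intro p hp
      exact hβs p (g2_cut_ne hp).2
    · intro p p' hp hp'
      have h1 := g2_cut_ne hp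
      have h2 := g2_cut_ne hp'
      exact g2_ix_near hδ (hαs p h1.2).2.2.2.2.2 (hαs p' h2.2).2.2.2.2.2 (h1.1.trans h2.1.symm)
    · intro p p' hp hp'
      have h1 := g2_cut_ne hp
      have h2 := g2_cut_ne hp'
      exact g2_ix_near hδ (hβs p h1.2).2.2.2.2.2 (hβs p' h2.2).2.2.2.2.2 (h1.1.trans h2.1.symm)
  have key2 : ∀ i : ℕ, Th c T (pd (g2_cut (fun p : ℝ × ℝ => p.1 / ρ) 2 δ α i) β) ≤
      n2 * (n2 * K) := by
    intro i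
    rw [Th_comm]
    rw [← hc2]
    refine m2_Th_split c hc T hT0 n2 _ _ (fun k => g2_cut_meas hφ _ _ hβ _)
      (g2_cut_meas hφ _ _ hα _) (fun k => g2_cut_norm _ _ _ hβ1 _) (g2_cut_norm _ _ _ hα1 _) K ?_
    intro k
    rw [Th_comm]
    exact key i k
  have key3 : Th c T (pd α β) ≤ n1 * (n1 * (n2 * (n2 * K))) := by
    rw [← hc1]
    exact m2_Th_split c hc T hT0 n1 _ _ (fun i => g2_cut_meas hφ _ _ hα _) hβ
      (fun i => g2_cut_norm _ _ _ hα1 _) hβ1 _ (fun i => key2 i)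
  refine key3.trans (le_of_eq ?_)
  rw [hK]
  rw [show (n1 : ℝ) ^ 2 * n2 ^ 2 * C * (1 + Real.log T) ^ 5 / T =
    n1 * (n1 * (n2 * (n2 * (C * (1 + Real.log T) ^ 5 / T)))) by ring]
  rw [ENNReal.ofReal_mul (by positivity), ENNReal.ofReal_mul (by positivity),
    ENNReal.ofReal_mul (by positivity), ENNReal.ofReal_mul (by positivity),
    ENNReal.ofReal_natCast, ENNReal.ofReal_natCast]

end Pool.Agent.SDT.N1

end -- N1.M2b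

section -- N1.M2c

/-!
N1, block M2, part 3: tools for the forms.
-/

namespace Pool.Agent.SDT.N1

open MeasureTheory Set Metric Pool.Agent.SDT.MP_6cbfb8_an Pool.Agent.SDT.MST
open scoped ENNReal Real ContDiff

theorem m2_FF_smul (c T : ℝ) (z : ℂ) (M : V × V → ℂ) :
    FF c T (fun q => z * M q) = z * FF c T M := by
  unfold FF
  rw [← integral_const_mul]
  simp only [mul_assoc]

/-- absolute estimate on a box -/
theorem m2_abs (c : ℝ) (hc : 0 < c) : ∃ C : ℝ, 0 ≤ C ∧ ∀ T : ℝ, 0 < T → ∀ (M : V × V → ℂ)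
    (e d f0 : ℝ), Measurable M → (∀ q, ‖M q‖ ≤ 1) → 0 ≤ e → 0 ≤ d → 0 ≤ f0 →
    (∀ q, M q ≠ 0 → Wr c q.1 q.2 ≠ 0 → |q.1.1| ≤ e ∧ |q.2.1| ≤ e ∧ |q.1.2.2| ≤ d ∧
      |q.2.2.2| ≤ d ∧ f0 ≤ |Fr c q.1 q.2|) →
    ‖FF c T M‖ ≤ C * T * (e ^ 2 * d ^ 2) / (1 + T * f0) ^ 3 := by
  obtain ⟨C, hC, h⟩ := FF_abs c hc
  refine ⟨64 * C, by positivity, ?_⟩
  intro T hT M e d f0 hM hM1 he hd hf0 hs
  have h1 := h T hT M {q : V × V | |q.1.1| ≤ e ∧ |q.2.1| ≤ e ∧ |q.1.2.2| ≤ d ∧ |q.2.2.2| ≤ d ∧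
    |q.1.2.1| ≤ 1 ∧ |q.2.2.1| ≤ 1 ∧ f0 ≤ |Fr c q.1 q.2|} f0 (64 * (e ^ 2 * d ^ 2)) hM hM1 ?_
    (by positivity) ?_ hf0 ?_
  · refine h1.trans (le_of_eq ?_)
    ring
  · intro q hq hW
    obtain ⟨h2, h3, h4, h5, h6⟩ := hs q hq hW
    have h7 : wf c q.1.2.1 q.2.2.1 ≠ 0 := by
      intro h8
      apply hW
      unfold Wr
      rw [h8]
      simp
    have h8 := m2_wf_ne hc h7
    have h9 : 0 ≤ c ^ 2 / 4 := by positivity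
    refine ⟨h2, h3, h4, h5, ?_, ?_, h6⟩
    · rw [← sq_le_one_iff_abs_le_one]
      nlinarith [sq_nonneg q.2.2.1]
    · rw [← sq_le_one_iff_abs_le_one]
      nlinarith [sq_nonneg q.1.2.1]
  · have h2 : {q : V × V | |q.1.1| ≤ e ∧ |q.2.1| ≤ e ∧ |q.1.2.2| ≤ d ∧ |q.2.2.2| ≤ d ∧
        |q.1.2.1| ≤ 1 ∧ |q.2.2.1| ≤ 1 ∧ f0 ≤ |Fr c q.1 q.2|} ⊆
        (Icc (-e) e ×ˢ Icc (-1) 1 ×ˢ Icc (-d) d) ×ˢ
          (Icc (-e) e ×ˢ Icc (-1) 1 ×ˢ Icc (-d) d) := by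
      rintro q ⟨h2, h3, h4, h5, h6, h7, -⟩
      exact ⟨⟨abs_le.1 h2, abs_le.1 h6, abs_le.1 h4⟩, abs_le.1 h3, abs_le.1 h7, abs_le.1 h5⟩
    refine (measure_mono h2).trans (le_of_eq ?_)
    rw [Measure.volume_eq_prod, Measure.prod_prod, Measure.volume_eq_prod, Measure.prod_prod,
      Measure.volume_eq_prod, Measure.prod_prod, Real.volume_Icc, Real.volume_Icc,
      Real.volume_Icc, ← ENNReal.ofReal_mul (by linarith), ← ENNReal.ofReal_mul (by linarith),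
      ← ENNReal.ofReal_mul (by nlinarith [mul_nonneg he hd])]
    congr 1
    ring
  · rintro q ⟨-, -, -, -, -, -, h2⟩
    exact h2

/-- Splitting by the partition of unity in a pair of coordinates. -/
theorem m2_part (c : ℝ) (hc : 0 < c) (T : ℝ) (hT : 0 < T) (k0 J : ℕ) (hk : 1 ≤ k0) (hJ : k0 ≤ J)
    (Y : V × V → ℝ × ℝ) (hY : Measurable Y) (M : V × V → ℂ) (hM : Measurable M)
    (hM1 : ∀ q, ‖M q‖ ≤ 1) (hMs : ∀ q, M q ≠ 0 → |(Y q).1| ≤ 1 ∧ |(Y q).2| ≤ 1)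
    (K1 K2 K3 : ℝ) (hK1 : 0 ≤ K1) (hK2 : 0 ≤ K2)
    (h1 : ∀ j k : ℕ, j < k + k0 → k < j + k0 →
      ‖FF c T (fun q => ((uj j (Y q).1 * uj k (Y q).2 : ℝ) : ℂ) * M q)‖ ≤ K1)
    (h2 : ∀ j : ℕ, ‖FF c T (fun q =>
      ((uj j (Y q).1 * th (2 ^ (j + k0) * (Y q).2) : ℝ) : ℂ) * M q)‖ ≤ K2)
    (h3 : ∀ k : ℕ, ‖FF c T (fun q =>
      ((th (2 ^ (k + k0) * (Y q).1) * uj k (Y q).2 : ℝ) : ℂ) * M q)‖ ≤ K2)
    (h4 : ∀ rest : ℝ × ℝ → ℝ, Measurable rest → (∀ y, |rest y| ≤ 4 * (k0 : ℝ) + 4) →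
      (∀ y, rest y ≠ 0 → (|y.1| ≤ 2 ^ (k0 + 2) / 2 ^ J ∧ |y.2| ≤ 2 ^ (k0 + 2) / 2 ^ J)) →
      ‖FF c T (fun q => ((rest (Y q) : ℝ) : ℂ) * M q)‖ ≤ K3) :
    ‖FF c T M‖ ≤ (J : ℝ) ^ 2 * K1 + 2 * J * K2 + K3 := by
  classical
  obtain ⟨rest, hr1, hr2, hr3, hr4⟩ := part2 k0 J hk hJ
  set a := J - k0 + 1 with ha
  have haJ : a ≤ J := by omega
  let F : (ℕ × ℕ) ⊕ (ℕ ⊕ (ℕ ⊕ Unit)) → V × V → ℂ :=
    Sum.elim (fun p q => if p.1 < p.2 + k0 ∧ p.2 < p.1 + k0 then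
        ((uj p.1 (Y q).1 * uj p.2 (Y q).2 : ℝ) : ℂ) * M q else 0)
      (Sum.elim (fun j q => ((uj j (Y q).1 * th (2 ^ (j + k0) * (Y q).2) : ℝ) : ℂ) * M q)
        (Sum.elim (fun k q => ((th (2 ^ (k + k0) * (Y q).1) * uj k (Y q).2 : ℝ) : ℂ) * M q)
          (fun _ q => ((rest (Y q) : ℝ) : ℂ) * M q)))
  let s : Finset ((ℕ × ℕ) ⊕ (ℕ ⊕ (ℕ ⊕ Unit))) :=
    (Finset.range J ×ˢ Finset.range J).disjSum
      ((Finset.range a).disjSum ((Finset.range a).disjSum {()}))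
  have hY1 : Measurable fun q => (Y q).1 := measurable_fst.comp hY
  have hY2 : Measurable fun q => (Y q).2 := measurable_snd.comp hY
  have hsum : (fun q => ∑ i ∈ s, F i q) = M := by
    funext q
    by_cases hq : M q = 0
    · rw [hq]
      refine Finset.sum_eq_zero ?_
      rintro (p | j | k | u) - <;> simp [F, hq]
    · have h5 := hr4 (Y q) (hMs q hq).1 (hMs q hq).2
      simp only [s, Finset.sum_disjSum, Finset.sum_singleton, F, Sum.elim_inl, Sum.elim_inr,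
        Finset.sum_product]
      have h6 : (1 : ℂ) * M q = M q := one_mul _
      rw [← Complex.ofReal_one, ← h5] at h6
      refine Eq.trans ?_ h6
      push_cast
      rw [add_mul, add_mul, add_mul, Finset.sum_mul, Finset.sum_mul, Finset.sum_mul]
      simp only [Finset.sum_mul]
      rw [← add_assoc, ← add_assoc]
      congr 3
      refine Finset.sum_congr rfl fun j _ => Finset.sum_congr rfl fun k _ => ?_
      split_ifs <;> push_cast <;> ring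
  have hth : ∀ x, |th x| ≤ 1 := fun x => by
    rw [abs_of_nonneg (th_nonneg x)]
    exact th_le_one x
  have hF : ∀ i, Measurable (F i) := by
    rintro (p | j | k | u)
    · show Measurable fun q => if p.1 < p.2 + k0 ∧ p.2 < p.1 + k0 then
        ((uj p.1 (Y q).1 * uj p.2 (Y q).2 : ℝ) : ℂ) * M q else 0
      split_ifs
      · exact (Complex.measurable_ofReal.comp (((measurable_uj _).comp hY1).mul
          ((measurable_uj _).comp hY2))).mul hM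
      · exact measurable_const
    · exact (Complex.measurable_ofReal.comp (((measurable_uj _).comp hY1).mul
          (measurable_th.comp (hY2.const_mul _)))).mul hM
    · exact (Complex.measurable_ofReal.comp ((measurable_th.comp (hY1.const_mul _)).mul
          ((measurable_uj _).comp hY2))).mul hM
    · exact (Complex.measurable_ofReal.comp (hr1.comp hY)).mul hM
  have hB1 : (1 : ℝ) ≤ 4 * (k0 : ℝ) + 4 := by
    have : (0 : ℝ) ≤ k0 := by positivity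
    linarith
  have hB : ∀ i q, ‖F i q‖ ≤ 4 * (k0 : ℝ) + 4 := by
    have hb : ∀ (x y : ℝ) (z : ℂ), |x| ≤ 1 → |y| ≤ 1 → ‖z‖ ≤ 1 →
        ‖((x * y : ℝ) : ℂ) * z‖ ≤ 4 * (k0 : ℝ) + 4 := by
      intro x y z hx hy hz
      refine le_trans ?_ hB1
      rw [norm_mul, Complex.norm_real, Real.norm_eq_abs, abs_mul]
      exact mul_le_one₀ (mul_le_one₀ hx (abs_nonneg _) hy) (norm_nonneg _) hz
    rintro (p | j | k | u) q
    · show ‖if p.1 < p.2 + k0 ∧ p.2 < p.1 + k0 then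
        ((uj p.1 (Y q).1 * uj p.2 (Y q).2 : ℝ) : ℂ) * M q else 0‖ ≤ _
      split_ifs
      · exact hb _ _ _ (uj_abs_le _ _) (uj_abs_le _ _) (hM1 q)
      · rw [norm_zero]
        linarith
    · exact hb _ _ _ (uj_abs_le _ _) (hth _) (hM1 q)
    · exact hb _ _ _ (hth _) (uj_abs_le _ _) (hM1 q)
    · show ‖((rest (Y q) : ℝ) : ℂ) * M q‖ ≤ _
      rw [norm_mul, Complex.norm_real, Real.norm_eq_abs]
      calc |rest (Y q)| * ‖M q‖ ≤ (4 * (k0 : ℝ) + 4) * 1 :=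
            mul_le_mul (hr2 _) (hM1 q) (norm_nonneg _) (by linarith)
        _ = _ := mul_one _
  have h5 := FF_sum c hc T hT s F hF _ hB
  rw [hsum] at h5
  rw [h5]
  refine (norm_sum_le _ _).trans ?_
  simp only [s, Finset.sum_disjSum, Finset.sum_singleton, F, Sum.elim_inl, Sum.elim_inr]
  have h6 : ∑ x ∈ Finset.range J ×ˢ Finset.range J,
      ‖FF c T fun q => if x.1 < x.2 + k0 ∧ x.2 < x.1 + k0 then
        ((uj x.1 (Y q).1 * uj x.2 (Y q).2 : ℝ) : ℂ) * M q else 0‖ ≤ (J : ℝ) ^ 2 * K1 := by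
    refine (Finset.sum_le_card_nsmul _ _ K1 ?_).trans (le_of_eq ?_)
    · rintro ⟨j, k⟩ -
      simp only
      by_cases h7 : j < k + k0 ∧ k < j + k0
      · simp only [h7, and_self, if_true]
        exact h1 j k h7.1 h7.2
      · simp only [h7, if_false]
        have h8 : FF c T (fun _ => 0) = 0 := by
          unfold FF
          simp
        rw [h8, norm_zero]
        exact hK1
    · rw [Finset.card_product, Finset.card_range, nsmul_eq_mul]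
      push_cast
      ring
  have haJ' : (a : ℝ) ≤ J := by exact_mod_cast haJ
  have h7 : ∑ j ∈ Finset.range a, ‖FF c T fun q =>
      ((uj j (Y q).1 * th (2 ^ (j + k0) * (Y q).2) : ℝ) : ℂ) * M q‖ ≤ J * K2 := by
    refine (Finset.sum_le_card_nsmul _ _ K2 fun j _ => h2 j).trans ?_
    rw [Finset.card_range, nsmul_eq_mul]
    gcongr
  have h8 : ∑ k ∈ Finset.range a, ‖FF c T fun q =>
      ((th (2 ^ (k + k0) * (Y q).1) * uj k (Y q).2 : ℝ) : ℂ) * M q‖ ≤ J * K2 := by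
    refine (Finset.sum_le_card_nsmul _ _ K2 fun j _ => h3 j).trans ?_
    rw [Finset.card_range, nsmul_eq_mul]
    gcongr
  have h9 := h4 rest hr1 hr2 hr3
  linarith

end Pool.Agent.SDT.N1

end -- N1.M2c

section -- N1.M2e

/-!
N1, block M2, part 5: the estimate for one cap.
-/

namespace Pool.Agent.SDT.N1

open MeasureTheory Set Metric Pool.Agent.SDT.MP_6cbfb8_an Pool.Agent.SDT.MST
open scoped ENNReal Real ContDiff

/-- Outer direction near an axis, inner direction nondegenerate. -/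
theorem m2_DN (c : ℝ) (hc : 0 < c) (k0 : ℕ) (r C : ℝ) (hC : 0 ≤ C) (hTH : m2_TH c k0 r C)
    (T : ℝ) (hT : 1 ≤ T) (x1 x2 : ℝ) (G₁ G₂ : ℝ → ℂ) (h1 : Measurable G₁) (h2 : Measurable G₂)
    (b1 : ∀ a, ‖G₁ a‖ ≤ 1) (b2 : ∀ a, ‖G₂ a‖ ≤ 1) (hG1 : m2_cap c r x1 G₁)
    (hG2 : m2_cap c r x2 G₂) (j k : ℕ) (hjk : j < k + k0) (hkj : k < j + k0)
    (B : ℝ) (m1 m2 : ℝ → ℂ) (hm1 : FT1 B m1) (hm2 : FT1 B m2) (m2m : Measurable m2)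
    (m2b : ∀ x, ‖m2 x‖ ≤ 1) :
    ‖FF c T (fun q => m2_psi j k (q.1.2.2, q.2.2.2) *
      (m1 q.1.1 * m2 q.2.1 * m2_Q G₁ G₂ q))‖ ≤
      B * (B * (C * (1 + Real.log T) ^ 5 / T)) := by
  have hT0 : 0 < T := by linarith
  have hQm := m2_Q_meas h1 h2
  have hQn := m2_Q_norm b1 b2
  have hpm : Measurable fun q : V × V => m2_psi j k (q.1.2.2, q.2.2.2) :=
    (m2_psi_meas j k).comp (by fun_prop)
  -- the innermost estimate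
  have k1 : ∀ η₁ η₂ : ℝ, ‖FF c T (fun q => ex (η₂ * q.2.1) * (ex (η₁ * q.1.1) *
      (m2_psi j k (q.1.2.2, q.2.2.2) * m2_Q G₁ G₂ q)))‖ ≤ C * (1 + Real.log T) ^ 5 / T := by
    intro η₁ η₂
    have h3 := m2_N c hc k0 r C hC hTH T hT x1 x2 G₁ G₂ h1 h2 b1 b2 hG1 hG2 j k hjk hkj η₁ η₂
    rw [← FF_swp] at h3
    have h4 : (fun q : V × V => m2_psi j k ((swp q).1.1, (swp q).2.1) *
        (ex (η₁ * (swp q).1.2.2) * ex (η₂ * (swp q).2.2.2) * m2_Q G₁ G₂ (swp q))) =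
        fun q => ex (η₂ * q.2.1) * (ex (η₁ * q.1.1) *
          (m2_psi j k (q.1.2.2, q.2.2.2) * m2_Q G₁ G₂ q)) := by
      funext q
      rw [m2_Q_swp]
      unfold swp
      simp only
      ring
    rw [h4] at h3
    exact h3
  have k2 : ∀ η₁ : ℝ, ‖FF c T (fun q => ex (η₁ * q.1.1) * (m2 q.2.1 *
      (m2_psi j k (q.1.2.2, q.2.2.2) * m2_Q G₁ G₂ q)))‖ ≤
      B * (C * (1 + Real.log T) ^ 5 / T) := by
    intro η₁
    have h3 := expand c hc T hT0 B m2 hm2 (fun q => ex (η₁ * q.1.1) *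
      (m2_psi j k (q.1.2.2, q.2.2.2) * m2_Q G₁ G₂ q)) ?_ 1 ?_ (fun q => q.2.1) (by fun_prop)
      (C * (1 + Real.log T) ^ 5 / T) (k1 η₁)
    · have h4 : (fun q : V × V => ex (η₁ * q.1.1) * (m2 q.2.1 *
          (m2_psi j k (q.1.2.2, q.2.2.2) * m2_Q G₁ G₂ q))) =
          fun q : V × V => m2 q.2.1 * (ex (η₁ * q.1.1) *
          (m2_psi j k (q.1.2.2, q.2.2.2) * m2_Q G₁ G₂ q)) := by
        funext q
        ring
      rw [h4]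
      exact h3
    · exact (measurable_ex.comp (by fun_prop)).mul (hpm.mul hQm)
    · intro q
      rw [norm_mul, norm_mul, m2_ex_norm, one_mul]
      exact mul_le_one₀ (m2_psi_norm _ _ _) (norm_nonneg _) (hQn _)
  have h3 := expand c hc T hT0 B m1 hm1 (fun q => m2 q.2.1 *
      (m2_psi j k (q.1.2.2, q.2.2.2) * m2_Q G₁ G₂ q)) ?_ 1 ?_ (fun q => q.1.1) (by fun_prop)
      (B * (C * (1 + Real.log T) ^ 5 / T)) k2
  · have h4 : (fun q : V × V => m2_psi j k (q.1.2.2, q.2.2.2) *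
        (m1 q.1.1 * m2 q.2.1 * m2_Q G₁ G₂ q)) =
        fun q : V × V => m1 q.1.1 * (m2 q.2.1 *
          (m2_psi j k (q.1.2.2, q.2.2.2) * m2_Q G₁ G₂ q)) := by
      funext q
      ring
    rw [h4]
    exact h3
  · exact (m2m.comp (by fun_prop)).mul (hpm.mul hQm)
  · intro q
    rw [norm_mul, norm_mul]
    exact mul_le_one₀ (m2b _) (by positivity)
      (mul_le_one₀ (m2_psi_norm _ _ _) (norm_nonneg _) (hQn _))

/-- directions near one of the axes -/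
def m2_Dg (k0 : ℕ) (s : ℝ) (y : ℝ × ℝ) : Prop :=
  |y.1| ≤ 2 * s ∧ |y.2| ≤ 2 * s ∧ ((s / 2 ≤ |y.1| ∧ |y.2| ≤ 4 / 2 ^ k0 * |y.1|) ∨
    (s / 2 ≤ |y.2| ∧ |y.1| ≤ 4 / 2 ^ k0 * |y.2|))

theorem m2_Dg_uj {j k0 : ℕ} {x y : ℝ} (h : uj j x * th (2 ^ (j + k0) * y) ≠ 0) :
    |x| ≤ 2 * (1 / 2 ^ j) ∧ |y| ≤ 2 * (1 / 2 ^ j) ∧
      (1 / 2 ^ j) / 2 ≤ |x| ∧ |y| ≤ 4 / 2 ^ k0 * |x| := by
  obtain ⟨h1, h2⟩ := uj_support j x (left_ne_zero_of_mul h)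
  have h3 := th_support _ (right_ne_zero_of_mul h)
  have hj : (0 : ℝ) < 2 ^ j := by positivity
  have hk : (0 : ℝ) < 2 ^ k0 := by positivity
  have hk1 : (1 : ℝ) ≤ 2 ^ k0 := one_le_pow₀ (by norm_num)
  rw [abs_mul, abs_of_pos (by positivity), pow_add] at h3
  have h4 : |y| ≤ 2 / 2 ^ k0 * (1 / 2 ^ j) := by
    rw [div_mul_div_comm, le_div_iff₀ (by positivity)]
    nlinarith
  have h5 : (1 / 2 ^ j) / 2 ≤ |x| := by
    rw [pow_succ] at h1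
    have : (1 : ℝ) / (2 ^ j * 2) = 1 / 2 ^ j / 2 := by ring
    rw [← this]
    exact h1.le
  refine ⟨?_, ?_, h5, ?_⟩
  · have : (2 : ℝ) / 2 ^ j = 2 * (1 / 2 ^ j) := by ring
    rw [← this]
    exact h2.le
  · refine h4.trans ?_
    have h6 : 2 / (2 : ℝ) ^ k0 ≤ 2 := div_le_self (by norm_num) hk1
    gcongr
  · refine h4.trans ?_
    have h6 : 4 / (2 : ℝ) ^ k0 * (1 / 2 ^ j / 2) ≤ 4 / 2 ^ k0 * |x| := by gcongr
    refine le_trans (le_of_eq ?_) h6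
    ring

/-- Both directions near an axis. -/
theorem m2_DD (c : ℝ) (hc : 0 < c) : ∃ k0 : ℕ, 1 ≤ k0 ∧ ∃ C : ℝ, 0 ≤ C ∧ ∀ T : ℝ, 0 < T →
    ∀ (M : V × V → ℂ) (s s' : ℝ), Measurable M → (∀ q, ‖M q‖ ≤ 1) → 0 < s → 0 < s' →
    (∀ q, M q ≠ 0 → Ge c q.1 ∧ Ge c q.2 ∧ m2_Dg k0 s (q.1.1, q.2.1) ∧
      m2_Dg k0 s' (q.1.2.2, q.2.2.2)) →
    ‖FF c T M‖ ≤ C / T := by
  obtain ⟨k0, c1, hk0, hc1, hE⟩ := E_DD c hc
  obtain ⟨C, hC, hA⟩ := m2_abs c hc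
  refine ⟨k0, hk0, 256 * C / c1 ^ 2, by positivity, ?_⟩
  intro T hT M s s' hM hM1 hs hs' hsup
  have h1 := hA T hT M (2 * s) (2 * s') (c1 * (s / 2) * (s' / 2)) hM hM1 (by positivity)
    (by positivity) (by positivity) ?_
  · refine h1.trans ?_
    set X : ℝ := T * (c1 * (s / 2) * (s' / 2)) with hX
    have hX0 : 0 ≤ X := by positivity
    have h2 : C * T * ((2 * s) ^ 2 * (2 * s') ^ 2) = 256 * C / c1 ^ 2 / T * X ^ 2 := by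
      rw [hX]
      field_simp
      ring
    rw [h2, div_le_iff₀ (by positivity)]
    have h3 : X ^ 2 ≤ (1 + X) ^ 3 := by nlinarith [pow_nonneg hX0 3, pow_nonneg hX0 2]
    have h4 : 0 ≤ 256 * C / c1 ^ 2 / T := by positivity
    gcongr
  · intro q hq hW
    obtain ⟨hG1, hG2, ⟨a1, a2, a3⟩, d1, d2, d3⟩ := hsup q hq
    simp only at a1 a2 a3 d1 d2 d3
    obtain ⟨e1, e2, e3, e4⟩ := hE q hG1 hG2 hW
    refine ⟨a1, a2, d1, d2, ?_⟩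
    have key : ∀ u v w : ℝ, s / 2 ≤ u → s' / 2 ≤ v → c1 * u * v ≤ w →
        c1 * (s / 2) * (s' / 2) ≤ w := by
      intro u v w hu hv hw
      have hu0 : 0 ≤ u := le_trans (by positivity) hu
      refine le_trans ?_ hw
      gcongr
    rcases a3 with ⟨a3, a4⟩ | ⟨a3, a4⟩
    · rcases d3 with ⟨d3, d4⟩ | ⟨d3, d4⟩
      · exact key _ _ _ a3 d3 (e1 a4 d4)
      · exact key _ _ _ a3 d3 (e2 a4 d4)
    · rcases d3 with ⟨d3, d4⟩ | ⟨d3, d4⟩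
      · exact key _ _ _ a3 d3 (e3 a4 d4)
      · exact key _ _ _ a3 d3 (e4 a4 d4)

/-- The low part of a partition. -/
theorem m2_rest (c : ℝ) (hc : 0 < c) (k0 : ℕ) : ∃ C : ℝ, 0 ≤ C ∧ ∀ T : ℝ, 1 ≤ T → ∀ J : ℕ,
    T ≤ 2 ^ J → ∀ (M : V × V → ℂ) (rest : ℝ × ℝ → ℝ) (Y : V × V → ℝ × ℝ), Measurable M →
    (∀ q, ‖M q‖ ≤ 1) → Measurable Y → Measurable rest → (∀ y, |rest y| ≤ 4 * (k0 : ℝ) + 4) →
    (∀ y, rest y ≠ 0 → (|y.1| ≤ 2 ^ (k0 + 2) / 2 ^ J ∧ |y.2| ≤ 2 ^ (k0 + 2) / 2 ^ J)) →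
    (∀ q, M q ≠ 0 → |q.1.1| ≤ 1 ∧ |q.2.1| ≤ 1 ∧ |q.1.2.2| ≤ 1 ∧ |q.2.2.2| ≤ 1) →
    ((∀ q, Y q = (q.1.1, q.2.1)) ∨ (∀ q, Y q = (q.1.2.2, q.2.2.2))) →
    ‖FF c T (fun q => ((rest (Y q) : ℝ) : ℂ) * M q)‖ ≤ C / T := by
  obtain ⟨C, hC, hA⟩ := m2_abs c hc
  refine ⟨(4 * (k0 : ℝ) + 4) * (C * (2 ^ (k0 + 2)) ^ 2), by positivity, ?_⟩
  intro T hT J hJ M rest Y hM hM1 hY hr hr1 hr2 hMs hYc
  have hT0 : 0 < T := by linarith
  have hk : (0 : ℝ) < 4 * (k0 : ℝ) + 4 := by positivity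
  have e1 : (fun q => ((rest (Y q) : ℝ) : ℂ) * M q) =
      fun q => ((4 * (k0 : ℝ) + 4 : ℝ) : ℂ) *
        (((rest (Y q) / (4 * (k0 : ℝ) + 4) : ℝ) : ℂ) * M q) := by
    funext q
    rw [← mul_assoc, ← Complex.ofReal_mul]
    congr 3
    field_simp
  rw [e1, m2_FF_smul, norm_mul, Complex.norm_real, Real.norm_eq_abs, abs_of_pos hk]
  set e : ℝ := 2 ^ (k0 + 2) / 2 ^ J with he
  have he0 : 0 ≤ e := by positivity
  have hbound : C * T * e ^ 2 ≤ C * (2 ^ (k0 + 2)) ^ 2 / T := by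
    rw [he, div_pow, le_div_iff₀ hT0]
    have h3 : T ^ 2 ≤ (2 ^ J) ^ 2 := by gcongr
    have h4 : (0 : ℝ) < (2 ^ J) ^ 2 := by positivity
    have h5 : C * T * ((2 ^ (k0 + 2)) ^ 2 / (2 ^ J) ^ 2) * T =
        C * (2 ^ (k0 + 2)) ^ 2 * (T ^ 2 / (2 ^ J) ^ 2) := by ring
    rw [h5]
    have h6 : T ^ 2 / (2 ^ J) ^ 2 ≤ 1 := (div_le_one h4).2 h3
    calc C * (2 ^ (k0 + 2)) ^ 2 * (T ^ 2 / (2 ^ J) ^ 2) ≤ C * (2 ^ (k0 + 2)) ^ 2 * 1 := by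
          gcongr
      _ = _ := mul_one _
  have hm : Measurable fun q => ((rest (Y q) / (4 * (k0 : ℝ) + 4) : ℝ) : ℂ) * M q :=
    (Complex.measurable_ofReal.comp ((hr.comp hY).div_const _)).mul hM
  have hn : ∀ q, ‖((rest (Y q) / (4 * (k0 : ℝ) + 4) : ℝ) : ℂ) * M q‖ ≤ 1 := by
    intro q
    rw [norm_mul, Complex.norm_real, Real.norm_eq_abs, abs_div, abs_of_pos hk]
    exact mul_le_one₀ ((div_le_one hk).2 (hr1 _)) (norm_nonneg _) (hM1 _)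
  have hne : ∀ q, ((rest (Y q) / (4 * (k0 : ℝ) + 4) : ℝ) : ℂ) * M q ≠ 0 →
      rest (Y q) ≠ 0 ∧ M q ≠ 0 := by
    intro q hq
    refine ⟨?_, right_ne_zero_of_mul hq⟩
    intro h3
    rw [h3] at hq
    simp at hq
  have hfin : ‖FF c T fun q => ((rest (Y q) / (4 * (k0 : ℝ) + 4) : ℝ) : ℂ) * M q‖ ≤
      C * (2 ^ (k0 + 2)) ^ 2 / T := by
    refine le_trans ?_ hbound
    rcases hYc with hYc | hYc
    · have h3 := hA T hT0 _ e 1 0 hm hn he0 zero_le_one le_rfl ?_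
      · refine h3.trans (le_of_eq ?_)
        ring
      · intro q hq _
        obtain ⟨h4, h5⟩ := hne q hq
        have h6 := hr2 _ h4
        rw [hYc] at h6
        have h7 := hMs q h5
        exact ⟨h6.1, h6.2, h7.2.2.1, h7.2.2.2, abs_nonneg _⟩
    · have h3 := hA T hT0 _ 1 e 0 hm hn zero_le_one he0 le_rfl ?_
      · refine h3.trans (le_of_eq ?_)
        ring
      · intro q hq _
        obtain ⟨h4, h5⟩ := hne q hq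
        have h6 := hr2 _ h4
        rw [hYc] at h6
        have h7 := hMs q h5
        exact ⟨h7.1, h7.2.1, h6.1, h6.2, abs_nonneg _⟩
  calc (4 * (k0 : ℝ) + 4) * ‖FF c T fun q =>
        ((rest (Y q) / (4 * (k0 : ℝ) + 4) : ℝ) : ℂ) * M q‖ ≤
        (4 * (k0 : ℝ) + 4) * (C * (2 ^ (k0 + 2)) ^ 2 / T) := by gcongr
    _ = _ := by ring

end Pool.Agent.SDT.N1

end -- N1.M2e

section -- N1.M2f

/-!
N1, block M2, part 6: the estimate for one cap, assembly.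
-/

namespace Pool.Agent.SDT.N1

open MeasureTheory Set Metric Pool.Agent.SDT.MP_6cbfb8_an Pool.Agent.SDT.MST
open scoped ENNReal Real ContDiff

/-- The conclusion of `m2_DD`. -/
def m2_DDp (c : ℝ) (k0 : ℕ) (C : ℝ) : Prop := ∀ T : ℝ, 0 < T →
    ∀ (M : V × V → ℂ) (s s' : ℝ), Measurable M → (∀ q, ‖M q‖ ≤ 1) → 0 < s → 0 < s' →
    (∀ q, M q ≠ 0 → Ge c q.1 ∧ Ge c q.2 ∧ m2_Dg k0 s (q.1.1, q.2.1) ∧
      m2_Dg k0 s' (q.1.2.2, q.2.2.2)) →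
    ‖FF c T M‖ ≤ C / T

/-- The conclusion of `m2_rest`. -/
def m2_Rp (c : ℝ) (k0 : ℕ) (C : ℝ) : Prop := ∀ T : ℝ, 1 ≤ T → ∀ J : ℕ,
    T ≤ 2 ^ J → ∀ (M : V × V → ℂ) (rest : ℝ × ℝ → ℝ) (Y : V × V → ℝ × ℝ), Measurable M →
    (∀ q, ‖M q‖ ≤ 1) → Measurable Y → Measurable rest → (∀ y, |rest y| ≤ 4 * (k0 : ℝ) + 4) →
    (∀ y, rest y ≠ 0 → (|y.1| ≤ 2 ^ (k0 + 2) / 2 ^ J ∧ |y.2| ≤ 2 ^ (k0 + 2) / 2 ^ J)) →
    (∀ q, M q ≠ 0 → |q.1.1| ≤ 1 ∧ |q.2.1| ≤ 1 ∧ |q.1.2.2| ≤ 1 ∧ |q.2.2.2| ≤ 1) →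
    ((∀ q, Y q = (q.1.1, q.2.1)) ∨ (∀ q, Y q = (q.1.2.2, q.2.2.2))) →
    ‖FF c T (fun q => ((rest (Y q) : ℝ) : ℂ) * M q)‖ ≤ C / T

theorem m2_abs_th (x : ℝ) : |th x| ≤ 1 := by
  rw [abs_of_nonneg (th_nonneg x)]
  exact th_le_one x

theorem m2_mul_norm {x y : ℝ} {z : ℂ} (hx : |x| ≤ 1) (hy : |y| ≤ 1) (hz : ‖z‖ ≤ 1) :
    ‖((x * y : ℝ) : ℂ) * z‖ ≤ 1 := by
  rw [norm_mul, Complex.norm_real, Real.norm_eq_abs, abs_mul]
  exact mul_le_one₀ (mul_le_one₀ hx (abs_nonneg _) hy) (norm_nonneg _) hz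

theorem m2_mul_ne {x y : ℝ} {z : ℂ} (h : ((x * y : ℝ) : ℂ) * z ≠ 0) : x * y ≠ 0 ∧ z ≠ 0 := by
  refine ⟨?_, right_ne_zero_of_mul h⟩
  intro h1
  rw [h1] at h
  simp at h

/-- Outer direction near an axis. -/
theorem m2_D (c : ℝ) (hc : 0 < c) (k0 : ℕ) (hk0 : 1 ≤ k0) (r C CD CR : ℝ) (hC : 0 ≤ C)
    (hCD : 0 ≤ CD) (hr : r ≤ 1 / 2) (hTH : m2_TH c k0 r C) (hDD : m2_DDp c k0 CD)
    (hRR : m2_Rp c k0 CR) (T : ℝ) (hT : 1 ≤ T) (J : ℕ) (hJ : k0 ≤ J) (hTJ : T ≤ 2 ^ J)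
    (x1 x2 : ℝ) (G₁ G₂ : ℝ → ℂ) (h1 : Measurable G₁) (h2 : Measurable G₂)
    (b1 : ∀ a, ‖G₁ a‖ ≤ 1) (b2 : ∀ a, ‖G₂ a‖ ≤ 1) (hG1 : m2_cap c r x1 G₁)
    (hG2 : m2_cap c r x2 G₂) (B : ℝ) (hB : 0 ≤ B) (m1 m2 : ℝ → ℝ)
    (hm1 : FT1 B fun x => ((m1 x : ℝ) : ℂ)) (hm2 : FT1 B fun x => ((m2 x : ℝ) : ℂ))
    (m1m : Measurable m1) (m2m : Measurable m2) (m1b : ∀ x, |m1 x| ≤ 1) (m2b : ∀ x, |m2 x| ≤ 1)
    (s : ℝ) (hs : 0 < s) (hm : ∀ x y, m1 x * m2 y ≠ 0 → m2_Dg k0 s (x, y)) :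
    ‖FF c T (fun q => ((m1 q.1.1 * m2 q.2.1 : ℝ) : ℂ) * m2_Q G₁ G₂ q)‖ ≤
      (J : ℝ) ^ 2 * (B * (B * (C * (1 + Real.log T) ^ 5 / T))) + 2 * J * (CD / T) + CR / T := by
  have hT0 : 0 < T := by linarith
  have hL : 0 ≤ Real.log T := Real.log_nonneg hT
  have hQm := m2_Q_meas h1 h2
  have hQn := m2_Q_norm b1 b2
  have hYm : Measurable fun q : V × V => (q.1.2.2, q.2.2.2) := by fun_prop
  have hMm : Measurable fun q : V × V => ((m1 q.1.1 * m2 q.2.1 : ℝ) : ℂ) * m2_Q G₁ G₂ q :=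
    (Complex.measurable_ofReal.comp ((m1m.comp (by fun_prop)).mul (m2m.comp (by fun_prop)))).mul
      hQm
  have hMn : ∀ q : V × V, ‖((m1 q.1.1 * m2 q.2.1 : ℝ) : ℂ) * m2_Q G₁ G₂ q‖ ≤ 1 :=
    fun q => m2_mul_norm (m1b _) (m2b _) (hQn q)
  have hMs : ∀ q : V × V, ((m1 q.1.1 * m2 q.2.1 : ℝ) : ℂ) * m2_Q G₁ G₂ q ≠ 0 →
      m2_Dg k0 s (q.1.1, q.2.1) ∧ m2_Q G₁ G₂ q ≠ 0 := by
    intro q hq
    obtain ⟨h3, h4⟩ := m2_mul_ne hq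
    exact ⟨hm _ _ h3, h4⟩
  refine m2_part c hc T hT0 k0 J hk0 hJ (fun q => (q.1.2.2, q.2.2.2)) hYm
    (fun q => ((m1 q.1.1 * m2 q.2.1 : ℝ) : ℂ) * m2_Q G₁ G₂ q) hMm hMn ?_ _ _ _ (by positivity)
    (by positivity) ?_ ?_ ?_ ?_
  · intro q hq
    have h3 := m2_Q_le hG1 hG2 hr (hMs q hq).2
    exact ⟨h3.2.2.1, h3.2.2.2⟩
  · intro j k hjk hkj
    have h3 := m2_DN c hc k0 r C hC hTH T hT x1 x2 G₁ G₂ h1 h2 b1 b2 hG1 hG2 j k hjk hkj B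
      (fun x => ((m1 x : ℝ) : ℂ)) (fun x => ((m2 x : ℝ) : ℂ)) hm1 hm2
      (Complex.measurable_ofReal.comp m2m) (fun x => by
        rw [Complex.norm_real, Real.norm_eq_abs]
        exact m2b x)
    have e1 : (fun q : V × V => m2_psi j k (q.1.2.2, q.2.2.2) *
        (((m1 q.1.1 : ℝ) : ℂ) * ((m2 q.2.1 : ℝ) : ℂ) * m2_Q G₁ G₂ q)) =
        fun q : V × V => ((uj j q.1.2.2 * uj k q.2.2.2 : ℝ) : ℂ) *
          (((m1 q.1.1 * m2 q.2.1 : ℝ) : ℂ) * m2_Q G₁ G₂ q) := by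
      funext q
      unfold m2_psi
      push_cast
      ring
    rw [e1] at h3
    exact h3
  · intro j
    refine hDD T hT0 _ s (1 / 2 ^ j) ?_ ?_ hs (by positivity) ?_
    · exact (Complex.measurable_ofReal.comp (((measurable_uj j).comp (by fun_prop)).mul
        (measurable_th.comp (by fun_prop)))).mul hMm
    · intro q
      exact m2_mul_norm (uj_abs_le _ _) (m2_abs_th _) (hMn q)
    · intro q hq
      obtain ⟨h3, h4⟩ := m2_mul_ne hq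
      obtain ⟨h5, h6⟩ := hMs q h4
      have h7 := m2_Q_Ge hG1 hG2 h6
      obtain ⟨d1, d2, d3, d4⟩ := m2_Dg_uj h3
      exact ⟨h7.1, h7.2, h5, d1, d2, Or.inl ⟨d3, d4⟩⟩
  · intro j
    refine hDD T hT0 _ s (1 / 2 ^ j) ?_ ?_ hs (by positivity) ?_
    · exact (Complex.measurable_ofReal.comp ((measurable_th.comp (by fun_prop)).mul
        ((measurable_uj j).comp (by fun_prop)))).mul hMm
    · intro q
      exact m2_mul_norm (m2_abs_th _) (uj_abs_le _ _) (hMn q)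
    · intro q hq
      obtain ⟨h3, h4⟩ := m2_mul_ne hq
      obtain ⟨h5, h6⟩ := hMs q h4
      have h7 := m2_Q_Ge hG1 hG2 h6
      rw [mul_comm] at h3
      obtain ⟨d1, d2, d3, d4⟩ := m2_Dg_uj h3
      exact ⟨h7.1, h7.2, h5, d2, d1, Or.inr ⟨d3, d4⟩⟩
  · intro rest hr1 hr2 hr3
    refine hRR T hT J hTJ _ rest _ hMm hMn hYm hr1 hr2 hr3 ?_ (Or.inr fun q => rfl)
    intro q hq
    exact m2_Q_le hG1 hG2 hr (hMs q hq).2

/-- The form of one cap. -/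
theorem m2_cap_FF (c : ℝ) (hc : 0 < c) (k0 : ℕ) (hk0 : 1 ≤ k0) (r C CD CR : ℝ) (hC : 0 ≤ C)
    (hCD : 0 ≤ CD) (hCR : 0 ≤ CR) (hr : r ≤ 1 / 2) (hTH : m2_TH c k0 r C)
    (hDD : m2_DDp c k0 CD)
    (hRR : m2_Rp c k0 CR) (T : ℝ) (hT : 1 ≤ T) (J : ℕ) (hJ : k0 ≤ J) (hTJ : T ≤ 2 ^ J)
    (x1 x2 : ℝ) (G₁ G₂ : ℝ → ℂ) (h1 : Measurable G₁) (h2 : Measurable G₂)
    (b1 : ∀ a, ‖G₁ a‖ ≤ 1) (b2 : ∀ a, ‖G₂ a‖ ≤ 1) (hG1 : m2_cap c r x1 G₁)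
    (hG2 : m2_cap c r x2 G₂) (B : ℝ) (hB : 0 ≤ B) (hth : FT1 B fun x => ((th x : ℝ) : ℂ)) :
    ‖FF c T (m2_Q G₁ G₂)‖ ≤
      (J : ℝ) ^ 2 * (C * (1 + Real.log T) ^ 5 / T) + 2 * J *
      ((J : ℝ) ^ 2 * ((B + B) * ((B + B) * (C * (1 + Real.log T) ^ 5 / T))) +
        2 * J * (CD / T) + CR / T) + CR / T := by
  have hT0 : 0 < T := by linarith
  have hL : 0 ≤ Real.log T := Real.log_nonneg hT
  have hQm := m2_Q_meas h1 h2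
  have hQn := m2_Q_norm b1 b2
  have hYm : Measurable fun q : V × V => (q.1.1, q.2.1) := by fun_prop
  have f1 : ∀ n : ℕ, FT1 B fun x => ((th (2 ^ n * x) : ℝ) : ℂ) := fun n =>
    FT1_scale B _ hth (2 ^ n) (by positivity)
  have f2 : ∀ n : ℕ, FT1 (B + B) fun x => ((uj n x : ℝ) : ℂ) := by
    intro n
    have h3 := FT1_sub B B _ _ (f1 n) (f1 (n + 1))
    have e1 : (fun x => ((uj n x : ℝ) : ℂ)) =
        fun x => ((th (2 ^ n * x) : ℝ) : ℂ) - ((th (2 ^ (n + 1) * x) : ℝ) : ℂ) := by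
      funext x
      unfold uj
      push_cast
      rfl
    rw [e1]
    exact h3
  have f3 : ∀ n : ℕ, FT1 (B + B) fun x => ((th (2 ^ n * x) : ℝ) : ℂ) := by
    intro n
    obtain ⟨w, hw1, hw2, hw3⟩ := f1 n
    exact ⟨w, hw1, by linarith, hw3⟩
  have mth : ∀ n : ℕ, Measurable fun x : ℝ => th (2 ^ n * x) := fun n =>
    measurable_th.comp (by fun_prop)
  refine m2_part c hc T hT0 k0 J hk0 hJ (fun q => (q.1.1, q.2.1)) hYm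
    (m2_Q G₁ G₂) hQm hQn ?_ _ _ _ (by positivity) (by positivity) ?_ ?_ ?_ ?_
  · intro q hq
    have h3 := m2_Q_le hG1 hG2 hr hq
    exact ⟨h3.1, h3.2.1⟩
  · intro j k hjk hkj
    have h3 := m2_N c hc k0 r C hC hTH T hT x1 x2 G₁ G₂ h1 h2 b1 b2 hG1 hG2 j k hjk hkj 0 0
    have h0 : ex 0 = 1 := by
      unfold ex
      simp
    simp only [zero_mul, h0, one_mul] at h3
    exact h3
  · intro j
    exact m2_D c hc k0 hk0 r C CD CR hC hCD hr hTH hDD hRR T hT J hJ hTJ x1 x2 G₁ G₂ h1 h2 b1 b2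
      hG1 hG2 (B + B) (by positivity) (uj j) (fun x => th (2 ^ (j + k0) * x)) (f2 j)
      (f3 (j + k0)) (measurable_uj j) (mth _) (uj_abs_le j) (fun x => m2_abs_th _) (1 / 2 ^ j)
      (by positivity) (fun x y h => by
        obtain ⟨d1, d2, d3, d4⟩ := m2_Dg_uj h
        exact ⟨d1, d2, Or.inl ⟨d3, d4⟩⟩)
  · intro j
    exact m2_D c hc k0 hk0 r C CD CR hC hCD hr hTH hDD hRR T hT J hJ hTJ x1 x2 G₁ G₂ h1 h2 b1 b2
      hG1 hG2 (B + B) (by positivity) (fun x => th (2 ^ (j + k0) * x)) (uj j)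
      (f3 (j + k0)) (f2 j) (mth _) (measurable_uj j) (fun x => m2_abs_th _) (uj_abs_le j)
      (1 / 2 ^ j) (by positivity) (fun x y h => by
        rw [mul_comm] at h
        obtain ⟨d1, d2, d3, d4⟩ := m2_Dg_uj h
        exact ⟨d2, d1, Or.inr ⟨d3, d4⟩⟩)
  · intro rest hr1 hr2 hr3
    refine hRR T hT J hTJ _ rest _ hQm hQn hYm hr1 hr2 hr3 ?_ (Or.inl fun q => rfl)
    intro q hq
    exact m2_Q_le hG1 hG2 hr hq

/-- The number of dyadic scales. -/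
theorem m2_scales (k0 : ℕ) (T : ℝ) (hT : 1 ≤ T) : ∃ J : ℕ, k0 ≤ J ∧ T ≤ 2 ^ J ∧
    (J : ℝ) ≤ ((k0 : ℝ) + 2) * (1 + Real.log T) := by
  have hT0 : 0 < T := by linarith
  have hL : 0 ≤ Real.log T := Real.log_nonneg hT
  refine ⟨k0 + ⌈Real.logb 2 T⌉₊, Nat.le_add_right _ _, ?_, ?_⟩
  · calc T = (2 : ℝ) ^ Real.logb 2 T := (Real.rpow_logb (by norm_num) (by norm_num) hT0).symm
      _ ≤ (2 : ℝ) ^ ((k0 + ⌈Real.logb 2 T⌉₊ : ℕ) : ℝ) := by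
          apply Real.rpow_le_rpow_of_exponent_le (by norm_num)
          push_cast
          have h1 := Nat.le_ceil (Real.logb 2 T)
          have h2 : (0 : ℝ) ≤ k0 := Nat.cast_nonneg _
          linarith
      _ = _ := Real.rpow_natCast _ _
  · have h1 : 0 ≤ Real.logb 2 T := Real.logb_nonneg (by norm_num) hT
    have h2 := Nat.ceil_lt_add_one h1
    have h3 : Real.logb 2 T ≤ 2 * Real.log T := by
      unfold Real.logb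
      rw [div_le_iff₀ (Real.log_pos (by norm_num))]
      have h4 := Real.log_two_gt_d9
      nlinarith
    have h4 : (0 : ℝ) ≤ k0 := Nat.cast_nonneg _
    push_cast
    nlinarith

/-- The estimate for one cap. -/
theorem m2_capest (c : ℝ) (hc : 0 < c) : ∃ r : ℝ, 0 < r ∧ ∃ C : ℝ, 0 ≤ C ∧ ∀ T : ℝ, 1 ≤ T →
    ∀ (x1 x2 : ℝ) (G₁ G₂ : ℝ → ℂ), Measurable G₁ → Measurable G₂ →
    (∀ a, ‖G₁ a‖ ≤ 1) → (∀ a, ‖G₂ a‖ ≤ 1) → m2_cap c r x1 G₁ → m2_cap c r x2 G₂ →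
    ∫⁻ t in Icc T (2 * T), ∫⁻ ξ : ℝ × ℝ, ‖Eo c G₁ G₂ t ξ‖ₑ ^ 4 ≤
      ENNReal.ofReal (C * (1 + Real.log T) ^ 8 / T) := by
  obtain ⟨k0, hk0, CD, hCD, hDD⟩ := m2_DD c hc
  obtain ⟨r', hr', C, hC, hTH⟩ := TH c hc k0
  obtain ⟨CR, hCR, hRR⟩ := m2_rest c hc k0
  obtain ⟨B, hB, hth⟩ := FT1_th
  have hTH1 : m2_TH c k0 (min r' (1 / 2)) C := by
    intro T hT ρ hρ x0 α β hα hβ hα1 hβ1 hαs hβs
    refine hTH T hT ρ hρ x0 α β hα hβ hα1 hβ1 ?_ ?_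
    · intro p hp
      obtain ⟨h1, h2, h3, h4, h5⟩ := hαs p hp
      exact ⟨h1, h2, h3.trans (min_le_left _ _), h4.trans (min_le_left _ _), h5⟩
    · intro p hp
      obtain ⟨h1, h2, h3, h4, h5⟩ := hβs p hp
      exact ⟨h1, h2, h3.trans (min_le_left _ _), h4.trans (min_le_left _ _), h5⟩
  set A : ℝ := (k0 : ℝ) + 2 with hA
  have hA0 : 0 ≤ A := by positivity
  refine ⟨min r' (1 / 2), lt_min hr' (by norm_num),
    A ^ 2 * C + 2 * A ^ 3 * (2 * B) ^ 2 * C + 4 * A ^ 2 * CD + 2 * A * CR + CR, by positivity, ?_⟩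
  intro T hT x1 x2 G₁ G₂ h1 h2 b1 b2 hG1 hG2
  have hT0 : 0 < T := by linarith
  have hL : 0 ≤ Real.log T := Real.log_nonneg hT
  obtain ⟨J, hJ, hTJ, hJA⟩ := m2_scales k0 T hT
  refine (four c hc T hT0 G₁ G₂ h1 h2 b1 b2).trans ?_
  rw [Th_eq c hc T hT0 _ (m2_pd_meas (m2_da_meas h1) (m2_da_meas h2))
    (m2_pd_norm (m2_da_norm b1) (m2_da_norm b2))]
  have h3 := m2_cap_FF c hc k0 hk0 (min r' (1 / 2)) C CD CR hC hCD hCR (min_le_right _ _) hTH1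
    hDD hRR T hT J hJ hTJ x1 x2 G₁ G₂ h1 h2 b1 b2 hG1 hG2 B hB hth
  have h4 : FF c T (sqM (pd (da G₁) (da G₂))) = FF c T (m2_Q G₁ G₂) := rfl
  rw [h4, ← ofReal_norm]
  apply ENNReal.ofReal_le_ofReal
  refine h3.trans ?_
  set L : ℝ := 1 + Real.log T with hLdef
  have hL1 : 1 ≤ L := by linarith
  have hJ0 : (0 : ℝ) ≤ J := Nat.cast_nonneg _
  have j1 : (J : ℝ) ≤ A * L := hJA
  have j2 : (J : ℝ) ^ 2 ≤ A ^ 2 * L ^ 2 := by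
    rw [← mul_pow]
    gcongr
  have j3 : (J : ℝ) ^ 3 ≤ A ^ 3 * L ^ 3 := by
    rw [← mul_pow]
    gcongr
  have l8 : ∀ n : ℕ, n ≤ 8 → L ^ n ≤ L ^ 8 := fun n hn => pow_le_pow_right₀ hL1 hn
  rw [le_div_iff₀ hT0]
  have e1 : ((J : ℝ) ^ 2 * (C * L ^ 5 / T) + 2 * J *
      ((J : ℝ) ^ 2 * ((B + B) * ((B + B) * (C * L ^ 5 / T))) +
        2 * J * (CD / T) + CR / T) + CR / T) * T =
      (J : ℝ) ^ 2 * (C * L ^ 5) + 2 * (2 * B) ^ 2 * C * ((J : ℝ) ^ 3 * L ^ 5) +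
        4 * CD * (J : ℝ) ^ 2 + 2 * CR * J + CR := by
    field_simp
    ring
  rw [e1]
  have t1 : (J : ℝ) ^ 2 * (C * L ^ 5) ≤ A ^ 2 * C * L ^ 8 := by
    calc (J : ℝ) ^ 2 * (C * L ^ 5) ≤ (A ^ 2 * L ^ 2) * (C * L ^ 5) := by gcongr
      _ = A ^ 2 * C * L ^ 7 := by ring
      _ ≤ A ^ 2 * C * L ^ 8 := by
          have := l8 7 (by norm_num)
          gcongr
  have t2 : 2 * (2 * B) ^ 2 * C * ((J : ℝ) ^ 3 * L ^ 5) ≤ 2 * A ^ 3 * (2 * B) ^ 2 * C * L ^ 8 := by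
    calc 2 * (2 * B) ^ 2 * C * ((J : ℝ) ^ 3 * L ^ 5) ≤
        2 * (2 * B) ^ 2 * C * ((A ^ 3 * L ^ 3) * L ^ 5) := by gcongr
      _ = _ := by ring
  have t3 : 4 * CD * (J : ℝ) ^ 2 ≤ 4 * A ^ 2 * CD * L ^ 8 := by
    calc 4 * CD * (J : ℝ) ^ 2 ≤ 4 * CD * (A ^ 2 * L ^ 2) := by gcongr
      _ = 4 * A ^ 2 * CD * L ^ 2 := by ring
      _ ≤ _ := by
          have := l8 2 (by norm_num)
          gcongr
  have t4 : 2 * CR * (J : ℝ) ≤ 2 * A * CR * L ^ 8 := by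
    calc 2 * CR * (J : ℝ) ≤ 2 * CR * (A * L) := by gcongr
      _ = 2 * A * CR * L ^ 1 := by ring
      _ ≤ _ := by
          have := l8 1 (by norm_num)
          gcongr
  have t5 : CR ≤ CR * L ^ 8 := by
    have := l8 0 (by norm_num)
    rw [pow_zero] at this
    nlinarith
  calc _ ≤ A ^ 2 * C * L ^ 8 + 2 * A ^ 3 * (2 * B) ^ 2 * C * L ^ 8 + 4 * A ^ 2 * CD * L ^ 8 +
        2 * A * CR * L ^ 8 + CR * L ^ 8 := by linarith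
    _ = _ := by ring

end Pool.Agent.SDT.N1

end -- N1.M2f
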