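import Pool.Agent.SDT.B54
import Pool.Agent.SDT.B57
import Pool.Agent.SDT.B58

set_option autoImplicit false

namespace Pool.Agent.SDT.MP_6cbfb8_an
end Pool.Agent.SDT.MP_6cbfb8_an
namespace Pool.Agent.SDT.MST
end Pool.Agent.SDT.MST
namespace Pool.Agent.SDT.N1
end Pool.Agent.SDT.N1

section -- N1F.G2w

/-!
N1F, block G2: the final statements.
-/

namespace Pool.Agent.SDT.N1F

open MeasureTheory Set Metric Pool.Agent.SDT.MP_6cbfb8_an Pool.Agent.SDT.MST Pool.Agent.SDT.N1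
open scoped ENNReal Real ContDiff

theorem propI2 (c : ℝ) (hc : 0 < c) (K : ℝ) (hK : 1 ≤ K) :
    ∃ δ : ℝ, 0 < δ ∧ ∃ C : ℝ, 0 ≤ C ∧ ∀ T al be ρ₁ ρ₂ γ₁ γ₂ : ℝ, 0 < T →
      0 < al → al ≤ 1 → 0 < be → be ≤ 1 → al * be ≤ δ →
      0 < ρ₁ → ρ₁ < δ → 0 < ρ₂ → ρ₂ < δ → 0 < γ₁ → γ₁ < δ → 0 < γ₂ → γ₂ < δ →
      al ^ 2 * ρ₁ * γ₁ ≤ K * (be ^ 2 * ρ₂ * γ₂) → be ^ 2 * ρ₂ * γ₂ ≤ K * (al ^ 2 * ρ₁ * γ₁) →
      be ^ 2 * γ₂ ≤ K * γ₁ → be ^ 2 * ρ₂ ≤ K * ρ₁ →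
      ∀ A B : V → ℂ, Measurable A → Measurable B → (∀ a, ‖A a‖ ≤ 1) → (∀ b, ‖B b‖ ≤ 1) →
      (∀ u, A u ≠ 0 → GB (al * ρ₁) al (al * γ₁) K u) →
      (∀ v, B v ≠ 0 → GB (be * ρ₂) be (be * γ₂) K v) →
      ‖FF c T (tp A B)‖ ≤ C / T :=
  propI2_of c hc K hK (fun A0 B0 x0 y0 z0 hb hy1 hy2 hz1 hz2 k1 hk1 =>
    propI c hc A0 B0 x0 y0 z0 hb hy1 hy2 hz1 hz2 k1 hk1)

theorem propNF2 (c : ℝ) (hc : 0 < c) (A0 B0 : ℝ) (x0 y0 : ℝ × ℝ) (hb : Bs c A0 B0 x0)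
    (hy1 : y0.1 ≠ 0) (hy2 : y0.2 ≠ 0) (C7 : ℝ) (hC7 : 1 ≤ C7) :
    ∃ δ : ℝ, 0 < δ ∧ ∃ C : ℝ, 0 ≤ C ∧ ∀ T al be ρ γ : ℝ, 0 < T → Sz al be A0 B0 δ →
      0 < ρ → ρ < δ → 0 < γ → γ < δ →
      ∀ A B : V → ℂ, Measurable A → Measurable B → (∀ a, ‖A a‖ ≤ 1) → (∀ b, ‖B b‖ ≤ 1) →
      (∀ u, A u ≠ 0 → |u.1 / (al * be ^ 2 * ρ) - y0.1| ≤ δ ∧ |u.2.1 / al - x0.1| ≤ δ ∧
        1 / C7 ≤ |u.2.2 / (al * γ)| ∧ |u.2.2 / (al * γ)| ≤ C7) →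
      (∀ v, B v ≠ 0 → |v.1 / (be * ρ) - y0.2| ≤ δ ∧ |v.2.1 / be - x0.2| ≤ δ ∧
        1 / C7 ≤ |v.2.2 / (be * al ^ 2 * γ)| ∧ |v.2.2 / (be * al ^ 2 * γ)| ≤ C7) →
      ‖FF c T (tp A B)‖ ≤ C / T :=
  propNF2_of c hc A0 B0 x0 y0 C7 hC7 (fun z0 hz1 hz2 =>
    propNF c hc A0 B0 x0 y0 z0 hb hy1 hy2 hz1 hz2)

theorem propDF2 (c : ℝ) (hc : 0 < c) (A0 B0 : ℝ) (x0 y0 : ℝ × ℝ) (hb : Bs c A0 B0 x0)
    (hy1 : y0.1 ≠ 0) (hy2 : y0.2 ≠ 0) (C5 C7 : ℝ) (hC7 : 1 ≤ C7) :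
    ∃ δ : ℝ, 0 < δ ∧ ∃ C : ℝ, 0 ≤ C ∧ ∀ T al be ρ γ κ : ℝ, 0 < T → Sz al be A0 B0 δ →
      0 < ρ → ρ < δ → 0 < γ → γ < δ → 0 < κ → κ < δ → γ ≤ C5 * κ →
      ∀ A B : V → ℂ, Measurable A → Measurable B → (∀ a, ‖A a‖ ≤ 1) → (∀ b, ‖B b‖ ≤ 1) →
      (∀ u, A u ≠ 0 → |u.1 / (al * be ^ 2 * ρ) - y0.1| ≤ δ ∧ |u.2.1 / al - x0.1| ≤ δ ∧
        1 / C7 ≤ |u.2.2 / (al * γ)| ∧ |u.2.2 / (al * γ)| ≤ C7) →
      (∀ v, B v ≠ 0 → |v.1 / (be * ρ) - y0.2| ≤ δ ∧ |v.2.1 / be - x0.2| ≤ δ ∧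
        1 / C7 ≤ |v.2.2 / (be * al ^ 2 * κ * γ)| ∧ |v.2.2 / (be * al ^ 2 * κ * γ)| ≤ C7) →
      ‖FF c T (tp A B)‖ ≤ C / T :=
  propDF2_of c hc A0 B0 x0 y0 C5 C7 hC7 (fun z0 hz1 hz2 =>
    propDF c hc A0 B0 x0 y0 z0 hb hy1 hy2 hz1 hz2 C5)

end Pool.Agent.SDT.N1F

end -- N1F.G2w

section -- N1G.QAf

/-!
N1G, strips, annular boxes, part f: uniformity and the sum over cells.
-/

namespace Pool.Agent.SDT.N1G

open MeasureTheory Set Metric Filter Topology Pool.Agent.SDT.MP_6cbfb8_an Pool.Agent.SDT.MST Pool.Agent.SDT.N1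
open scoped ENNReal Real ContDiff

lemma LocA_mono (x : BD) (δ δ' C C' : ℝ) (_ : 0 < δ') (h1 : δ' ≤ δ) (h2 : C ≤ C')
    (h : LocA x δ C) : LocA x δ' C' := by
  intro p hp hθ hθ1 hκ hκ1 hρ hρ1 T γ hT hγ hγδ A B hA hB hA1 hB1 hAs hBs
  refine (h p (hp.trans h1) hθ (hθ1.trans h1) hκ (hκ1.trans h1) hρ (hρ1.trans h1) T γ hT hγ
    (by linarith) A B hA hB hA1 hB1 (fun u hu => ?_) (fun v hv => ?_)).trans (by gcongr)
  · obtain ⟨k1, k2, k3⟩ := hAs u hu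
    exact ⟨k1.trans h1, k2.trans h1, k3.trans h1⟩
  · obtain ⟨k1, k2, k3⟩ := hBs v hv
    exact ⟨k1.trans h1, k2.trans h1, k3.trans h1⟩

lemma LocA_shift (x x' : BD) (δ C : ℝ) (hδ : 0 < δ) (h1 : dist x' x ≤ δ / 2)
    (h : LocA x δ C) : LocA x' (δ / 2) C := by
  rw [Prod.dist_eq, max_le_iff] at h1
  obtain ⟨hd, h1⟩ := h1
  rw [Prod.dist_eq, max_le_iff] at h1
  obtain ⟨hY, h1⟩ := h1
  rw [Prod.dist_eq, max_le_iff] at h1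
  obtain ⟨hz1, hz2⟩ := h1
  rw [Real.dist_eq, abs_le] at hY hz1 hz2
  intro p hp hθ hθ1 hκ hκ1 hρ hρ1 T γ hT hγ hγδ A B hA hB hA1 hB1 hAs hBs
  refine h p ((dist_triangle _ _ _).trans (by linarith)) hθ (by linarith) hκ (by linarith) hρ
    (by linarith) T γ hT hγ (by linarith) A B hA hB hA1 hB1 (fun u hu => ?_) (fun v hv => ?_)
  · obtain ⟨k1, k2, k3⟩ := hAs u hu
    rw [abs_le] at k3
    exact ⟨by linarith, by linarith, abs_le.2 ⟨by linarith, by linarith⟩⟩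
  · obtain ⟨k1, k2, k3⟩ := hBs v hv
    rw [abs_le] at k3 k1
    exact ⟨abs_le.2 ⟨by linarith, by linarith⟩, by linarith, abs_le.2 ⟨by linarith, by linarith⟩⟩

/-- A closed annulus. -/
def An (a b : ℝ) : Set ℝ := {t | a ≤ |t| ∧ |t| ≤ b}

lemma An_compact (a b : ℝ) : IsCompact (An a b) := by
  refine Metric.isCompact_of_isClosed_isBounded ?_ ?_
  · have e : An a b = {t : ℝ | a ≤ |t|} ∩ {t : ℝ | |t| ≤ b} := rfl
    rw [e]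
    exact (isClosed_le continuous_const continuous_abs).inter
      (isClosed_le continuous_abs continuous_const)
  · refine (isBounded_closedBall (x := (0 : ℝ)) (r := b)).subset fun t ht => ?_
    rw [mem_closedBall_zero_iff, Real.norm_eq_abs]
    exact ht.2

/-- The compact set of base parameters. -/
def KB : Set ((ℝ × ℝ × ℝ × ℝ) × ℝ) :=
  (Icc 0 1 ×ˢ (Icc (-4) (-(1 / 4)) ×ˢ (Icc (1 / 4) 2 ×ˢ Icc (1 / 5) 8))) ×ˢ An (1 / 4) 4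

lemma KB_compact : IsCompact KB :=
  (isCompact_Icc.prod (isCompact_Icc.prod (isCompact_Icc.prod isCompact_Icc))).prod
    (An_compact _ _)

lemma mem_KB (x : (ℝ × ℝ × ℝ × ℝ) × ℝ) : x ∈ KB ↔ ((0 ≤ x.1.1 ∧ x.1.1 ≤ 1) ∧
    (-4 ≤ x.1.2.1 ∧ x.1.2.1 ≤ -(1 / 4)) ∧ (1 / 4 ≤ x.1.2.2.1 ∧ x.1.2.2.1 ≤ 2) ∧
    (1 / 5 ≤ x.1.2.2.2 ∧ x.1.2.2.2 ≤ 8)) ∧ (1 / 4 ≤ |x.2| ∧ |x.2| ≤ 4) := Iff.rfl

/-- The compact set of base data. -/
def KA : Set BD := KB ×ˢ (An (1 / 4) 4 ×ˢ (An (1 / 2) 1 ×ˢ An 0 64))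

lemma KA_compact : IsCompact KA :=
  KB_compact.prod ((An_compact _ _).prod ((An_compact _ _).prod (An_compact _ _)))

lemma An_ne {a b t : ℝ} (ha : 0 < a) (h : t ∈ An a b) : t ≠ 0 := by
  intro h0
  have := h.1
  rw [h0, abs_zero] at this
  linarith

lemma unifA : ∃ δ : ℝ, 0 < δ ∧ ∃ C : ℝ, 0 ≤ C ∧ ∀ x ∈ KA, LocA x δ C := by
  refine g2_unif KA_compact LocA
    (fun x δ δ' C C' k1 k2 k3 k4 => LocA_mono x δ δ' C C' k1 k2 k3 k4) ?_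
    (fun x x' δ C k1 k2 k3 => LocA_shift x x' δ C k1 k2 k3)
  rintro x ⟨h1, h2, h3, -⟩
  obtain ⟨⟨⟨b1, -⟩, ⟨-, g1⟩, ⟨g2, -⟩, ⟨p1, -⟩⟩, hs⟩ := (mem_KB _).1 h1
  refine locA x b1 (by linarith) (by intro h; linarith) (by intro h; linarith)
    (An_ne (by norm_num) (show x.1.2 ∈ An (1 / 4) 4 from hs)) (An_ne (by norm_num) h2)
    (An_ne (by norm_num) h3)

/-- The oscillatory estimate in the hypothesis of `coreN`. -/
theorem mainA : ∃ δ0 : ℝ, 0 < δ0 ∧ ∃ C : ℝ, 0 ≤ C ∧ ∀ p : QP, (p.1, p.2.1) ∈ KB →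
    ∀ Y ∈ An (1 / 4) 4, ∀ δ : ℝ, 0 < δ → δ ≤ δ0 →
    0 < p.2.2.1 → p.2.2.1 ≤ δ0 → 0 < p.2.2.2.1 → p.2.2.2.1 ≤ δ0 → 0 < p.2.2.2.2 →
    p.2.2.2.2 ≤ δ0 → ∀ (B R : ℝ) (φ w : YX → ℝ), Adm B R φ w →
    (∀ s, Bx δ (0, 0) (0, Y) s → φ s = phA p s ∧ w s = amA p s) →
    ∀ T γ d : ℝ, 0 < T → 0 < γ → γ ≤ 2 * δ → 0 < d → γ ≤ 64 * d → d ≤ 64 * γ →
    ∀ A₁ A₂ : V → ℂ, Measurable A₁ → Measurable A₂ → (∀ u, ‖A₁ u‖ ≤ 1) → (∀ u, ‖A₂ u‖ ≤ 1) →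
    Sp δ 0 0 γ A₁ → Sp δ Y 0 d A₂ → ‖FFg φ w T (tp A₁ A₂)‖ ≤ C / (T * p.2.2.2.1) := by
  obtain ⟨δ0, hδ0, C, hC, H⟩ := unifA
  refine ⟨δ0, hδ0, ((⌊2 * 64 / δ0⌋₊ + 1 : ℕ) : ℝ) ^ 2 * C, by positivity, ?_⟩
  intro p hp Y hY δ hδ hδδ hθ hθ1 hκ hκ1 hρ hρ1 B R φ w hadm hagr T γ d hT hγ hγδ hd hd1 hd2 A₁ A₂
    hA₁ hA₂ hb1 hb2 hs1 hs2
  have hz1 : ∀ u, A₁ u ≠ 0 → 1 / 2 ≤ |u.2.2 / γ| ∧ |u.2.2 / γ| ≤ 1 := by
    intro u hu
    have h1 := hs1 u hu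
    rw [abs_div, abs_of_pos hγ, le_div_iff₀ hγ, div_le_iff₀ hγ]
    exact ⟨by linarith [h1.2.2.2.1], by linarith [h1.2.2.2.2]⟩
  have hz2 : ∀ v, A₂ v ≠ 0 → 0 ≤ |v.2.2 / γ| ∧ |v.2.2 / γ| ≤ 64 := by
    intro v hv
    have h1 := hs2 v hv
    refine ⟨abs_nonneg _, ?_⟩
    rw [abs_div, abs_of_pos hγ, div_le_iff₀ hγ]
    linarith [h1.2.2.2.2]
  rw [mul_div_assoc]
  refine g_split B R _ _ hadm T hT A₁ A₂ hA₁ hA₂ hb1 hb2 (fun u => u.2.2 / γ)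
    (fun v => v.2.2 / γ)
    (by fun_prop) (by fun_prop) 64 δ0 (C / (T * p.2.2.2.1)) hδ0 (by positivity)
    (fun u hu => (hz1 u hu).2.trans (by norm_num)) (fun v hv => (hz2 v hv).2) ?_
  intro A' B' hA' hB' hA1' hB1' u0 v0 hu0 hv0 hAs' hBs'
  rw [FFg_congr φ w (phA p) (amA p) T (tp A' B') (fun q hq => by
      obtain ⟨h1, h2⟩ := tp_ne hq
      obtain ⟨g1, g2⟩ := Sp_bx δ γ d (0, 0) (0, Y) A₁ A₂ hs1 hs2 q (hAs' _ h1).1 (hBs' _ h2).1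
      exact ⟨(hagr _ g1).1, (hagr _ g2).1, (hagr _ g1).2, (hagr _ g2).2⟩)]
  refine H ((p.1, p.2.1), Y, u0.2.2 / γ, v0.2.2 / γ) ⟨hp, hY, hz1 u0 hu0, hz2 v0 hv0⟩ p
    (by rw [dist_self]; exact hδ0.le) hθ hθ1 hκ hκ1 hρ hρ1 T γ hT hγ (by linarith) A' B'
    hA' hB' hA1' hB1' ?_ ?_
  · intro u hu
    have h1 := hAs' u hu
    have h2 := hs1 u h1.1
    have h3 := h2.1
    have h4 := h2.2.1
    rw [sub_zero] at h3 h4
    exact ⟨by linarith, by linarith, h1.2⟩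
  · intro v hv
    have h1 := hBs' v hv
    have h2 := hs2 v h1.1
    have h4 := h2.2.1
    rw [sub_zero] at h4
    exact ⟨by linarith [h2.1], by linarith, h1.2⟩

end Pool.Agent.SDT.N1G

end -- N1G.QAf

section -- N1G.QAg

/-!
N1G, strips, annular boxes, part g: the elliptic estimate.
-/

namespace Pool.Agent.SDT.N1G

open MeasureTheory Set Metric Filter Topology Pool.Agent.SDT.MP_6cbfb8_an Pool.Agent.SDT.MST Pool.Agent.SDT.N1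
open scoped ENNReal Real ContDiff

/-- The base point for the elliptic estimate. -/
def bE (x : ((ℝ × ℝ × ℝ × ℝ) × ℝ) × ℝ) : QX :=
  (((x.1.1, (x.1.2, 0, 0, 0)), 1), ((0, 0, 0) : V), ((0, 0, x.2) : V))

lemma bE_dist (x x' : ((ℝ × ℝ × ℝ × ℝ) × ℝ) × ℝ) : dist (bE x') (bE x) ≤ dist x' x := by
  have h1 : dist x'.1.1 x.1.1 ≤ dist x' x := by
    rw [Prod.dist_eq, Prod.dist_eq]
    exact (le_max_left _ _).trans (le_max_left _ _)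
  have h2 : dist x'.1.2 x.1.2 ≤ dist x' x := by
    rw [Prod.dist_eq, Prod.dist_eq]
    exact (le_max_right _ _).trans (le_max_left _ _)
  have h3 : dist x'.2 x.2 ≤ dist x' x := by
    rw [Prod.dist_eq]
    exact le_max_right _ _
  have h0 : (0 : ℝ) ≤ dist x' x := dist_nonneg
  unfold bE
  rw [Prod.dist_eq]
  simp only
  refine max_le ?_ ?_
  · rw [Prod.dist_eq]
    simp only [dist_self]
    refine max_le ?_ h0
    rw [Prod.dist_eq]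
    simp only
    refine max_le h1 ?_
    rw [Prod.dist_eq]
    simp only [dist_self]
    exact max_le h2 h0
  · rw [Prod.dist_eq]
    simp only [dist_self]
    refine max_le h0 ?_
    rw [Prod.dist_eq]
    simp only [dist_self]
    refine max_le h0 ?_
    rw [Prod.dist_eq]
    simp only [dist_self]
    exact max_le h0 h3

lemma bE_E (x : ((ℝ × ℝ × ℝ × ℝ) × ℝ) × ℝ) (hP : 1 / 8 < x.1.1.2.2.2)
    (hg2 : x.1.1.2.2.1 ≠ 0) (hYn : x.2 ≠ 0) : xE (bE x) ≠ 0 := by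
  have hK : xK (bE x) = x.1.1.2.2.2 := by
    unfold xK Kp xX bE
    simp
  have hU : xU (bE x) = x.1.1.2.2.1 * x.2 := by
    unfold xU Up Lf Bf hY xX xY bE
    simp
  have hV : xV (bE x) = 0 := by
    unfold xV Vp Lf Bf xX xZ bE
    simp
  have hm : xm1 (bE x) = -4 * sqp2 (x.1.1.2.2.2) := by
    rw [← m1f_zero]
    unfold xm1
    rw [hK, hV, mul_zero]
    unfold bE
    simp
  have hK0 : 0 < x.1.1.2.2.2 := by linarith
  have hs : 0 < √(x.1.1.2.2.2) := Real.sqrt_pos.2 hK0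
  unfold xE
  rw [hU, hm, sqp2_eq _ hP, neg_ne_zero]
  have : 0 < 1 / (4 * (x.1.1.2.2.2 * √(x.1.1.2.2.2))) := by positivity
  exact mul_ne_zero (by linarith) (mul_ne_zero hg2 hYn)

lemma unifE : ∃ δ : ℝ, 0 < δ ∧ ∃ C : ℝ, 0 ≤ C ∧ ∀ x ∈ KB ×ˢ An (1 / 4) 4,
    ∀ y ∈ ball (bE x) δ, 1 ≤ C * |xE y| ∧ |xm2 y| ≤ C := by
  refine g2_unif (KB_compact.prod (An_compact _ _))
    (fun x δ C => ∀ y ∈ ball (bE x) δ, 1 ≤ C * |xE y| ∧ |xm2 y| ≤ C) ?_ ?_ ?_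
  · intro x δ δ' C C' _ h2 h3 h y hy
    obtain ⟨k1, k2⟩ := h y (ball_subset_ball h2 hy)
    exact ⟨k1.trans (mul_le_mul_of_nonneg_right h3 (abs_nonneg _)), k2.trans h3⟩
  · rintro x ⟨h1, h2⟩
    obtain ⟨⟨⟨b1, -⟩, ⟨-, g1⟩, ⟨g2, -⟩, ⟨p1, -⟩⟩, hs⟩ := (mem_KB _).1 h1
    have hE := bE_E x (by linarith) (by intro h; linarith) (An_ne (by norm_num) h2)
    have hE' : 0 < |xE (bE x)| := abs_pos.2 hE
    have cE : Continuous fun y => |xE y| := xE_smooth.continuous.abs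
    have cm : Continuous fun y => |xm2 y| := xm2_smooth.continuous.abs
    obtain ⟨r, hr, hb1⟩ := g_ball ((cE.continuousAt.eventually (lt_mem_nhds
      (show |xE (bE x)| / 2 < |xE (bE x)| by linarith))).and
      (cm.continuousAt.eventually (gt_mem_nhds
      (show |xm2 (bE x)| < |xm2 (bE x)| + 1 by linarith))))
    refine ⟨r, hr, 2 / |xE (bE x)| + (|xm2 (bE x)| + 1), by positivity, fun y hy => ?_⟩
    obtain ⟨k1, k2⟩ := hb1 y hy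
    have k3 : 0 ≤ |xm2 (bE x)| := abs_nonneg _
    have k4 : 0 ≤ 2 / |xE (bE x)| := by positivity
    refine ⟨?_, by linarith⟩
    have k5 : 1 ≤ 2 / |xE (bE x)| * |xE y| := by
      rw [div_mul_eq_mul_div, le_div_iff₀ hE']
      linarith
    nlinarith [abs_nonneg (xE y)]
  · intro x x' δ C _ h2 h y hy
    refine h y ?_
    rw [mem_ball] at hy ⊢
    have := bE_dist x x'
    have := dist_triangle y (bE x') (bE x)
    linarith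

/-- The elliptic estimate. -/
theorem ellA : ∃ δ0 : ℝ, 0 < δ0 ∧ ∃ c1 : ℝ, 0 < c1 ∧ ∀ p : QP, (p.1, p.2.1) ∈ KB →
    ∀ Y ∈ An (1 / 4) 4, ∀ δ : ℝ, δ ≤ δ0 →
    0 < p.2.2.1 → p.2.2.1 ≤ δ0 → 0 < p.2.2.2.1 → p.2.2.2.1 ≤ δ0 → 0 < p.2.2.2.2 →
    p.2.2.2.2 ≤ δ0 → ∀ q : V × V, NbG δ (0, 0) (0, Y) q →
    (32 * (1 * |q.1.2.2|) ≤ |q.2.2.2| ∨ 32 * |q.2.2.2| ≤ 1 * |q.1.2.2|) →
    c1 * (1 * |q.1.2.2| + |q.2.2.2|) ≤ |Fg (phA p) q| := by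
  obtain ⟨δ1, hδ1, C', hC', H⟩ := unifE
  set C := max C' 1 with hC
  have hC1 : 1 ≤ C := le_max_right _ _
  set δ0 := min (δ1 / 2) (1 / (20 * (2 + 21 * C ^ 2))) with hδ0
  have hδ0' : 0 < δ0 := lt_min (by positivity) (by positivity)
  have hδ01 : δ0 ≤ 1 := by
    refine (min_le_right _ _).trans ?_
    rw [div_le_one (by positivity)]
    nlinarith
  refine ⟨δ0, hδ0', 1 / (20 * C), by positivity, ?_⟩
  intro p hp Y hY δ hδ hθ hθ1 hκ hκ1 hρ hρ1 q hq hnc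
  obtain ⟨⟨a1, a2, a3, a4⟩, ⟨-, -, -, -⟩, a5, a6⟩ := hq
  unfold px at a1 a2 a3 a4
  simp only [sub_zero] at a1 a2 a3 a4
  obtain ⟨⟨⟨b0, b1⟩, ⟨g1, g1'⟩, ⟨g2, g2'⟩, ⟨P0, P1⟩⟩, ⟨s0, s1⟩⟩ := (mem_KB _).1 hp
  simp only at b0 b1 g1 g1' g2 g2' P0 P1 s0 s1
  obtain ⟨Y0, Y1⟩ := hY
  set z1 := q.1.2.2 with hz1
  set z2 := q.2.2.2 with hz2
  set x1 := q.1.2.1 with hx1
  set x2 := q.2.2.1 with hx2
  set y1 := q.1.1 with hy1
  set y2 := q.2.1 with hy2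
  set y : QX := ((p, 1), ((z1, x1, y1) : V), ((z2, x2, y2) : V)) with hy
  have hin : y ∈ ball (bE ((p.1, p.2.1), Y)) δ1 := by
    have h0 : (0 : ℝ) < δ1 := hδ1
    have hd : δ0 < δ1 := lt_of_le_of_lt (min_le_left _ _) (by linarith)
    rw [mem_ball]
    unfold bE
    rw [hy, Prod.dist_eq]
    simp only
    refine max_lt ?_ ?_
    · rw [Prod.dist_eq]
      simp only [dist_self]
      refine max_lt ?_ h0
      rw [Prod.dist_eq]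
      simp only [dist_self]
      refine max_lt h0 ?_
      rw [Prod.dist_eq]
      simp only [dist_self]
      refine max_lt h0 ?_
      rw [Prod.dist_eq, Prod.dist_eq]
      simp only [Real.dist_eq, sub_zero]
      rw [abs_of_pos hθ, abs_of_pos hκ, abs_of_pos hρ]
      exact max_lt (by linarith) (max_lt (by linarith) (by linarith))
    · rw [Prod.dist_eq]
      simp only
      refine max_lt ?_ ?_
      · rw [Prod.dist_eq, Prod.dist_eq]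
        simp only [Real.dist_eq, sub_zero]
        exact max_lt (by linarith) (max_lt (by linarith) (by linarith))
      · rw [Prod.dist_eq, Prod.dist_eq]
        simp only [Real.dist_eq, sub_zero]
        exact max_lt (by linarith) (max_lt (by linarith) (by linarith))
  obtain ⟨k1', k2'⟩ := H ((p.1, p.2.1), Y) ⟨hp, Y0, Y1⟩ y hin
  have hCC : C' ≤ C := le_max_left _ _
  have k1 : 1 ≤ C * |xE y| := k1'.trans (mul_le_mul_of_nonneg_right hCC (abs_nonneg _))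
  have k2 : |xm2 y| ≤ C := k2'.trans hCC
  have hE : xE y ≠ 0 := by
    intro h
    rw [h, abs_zero, mul_zero] at k1
    linarith
  have hE' : 0 < |xE y| := abs_pos.2 hE
  have e1 : Fg (phA p) q = xE y * xh y := by
    have h1 := phA_nf p 1 ((z1, x1, y1) : V) ((z2, x2, y2) : V) (mul_pos hθ hρ).ne' hE
    have h2 : (Sc 1 1 (f1_s ((z1, x1, y1) : V)), Sc 1 1 (f1_s ((z2, x2, y2) : V))) = q := by
      unfold Sc f1_s
      simp only [MeasurableEquiv.coe_mk, Equiv.coe_fn_mk, one_mul]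
      rfl
    rw [h2, one_mul] at h1
    rw [h1]
    rfl
  -- the coupling
  have hS : 0 ≤ |z1| + |z2| := by positivity
  have n1 : |z1| ≤ 1 := by linarith
  have n2 : |z2| ≤ 1 := by linarith
  have n3 : |x1| ≤ 1 := by linarith
  have n4 : |x2| ≤ 1 := by linarith
  have n5 : |y1| ≤ 1 := by linarith
  have n6 : |y2| ≤ 5 := by
    have := abs_sub_abs_le_abs_sub y2 Y
    linarith
  have nθ : |p.2.2.1| ≤ 1 := by
    rw [abs_of_pos hθ]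
    linarith
  have nb : |p.1.1| ≤ 1 := by
    rw [abs_of_nonneg b0]
    exact b1
  have ng1 : |p.1.2.1| ≤ 4 := by
    rw [abs_le]
    constructor <;> linarith
  have ng2 : |p.1.2.2.1| ≤ 2 := by
    rw [abs_le]
    constructor <;> linarith
  have t1 : |Bf p (xX y) (xZ y)| ≤ |z1| + |z2| := by
    have : Bf p (xX y) (xZ y) = x1 * z1 + p.1.1 * (x2 * z2) := rfl
    rw [this]
    refine (abs_add_le _ _).trans ?_
    rw [abs_mul, abs_mul, abs_mul]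
    have h1 : |x1| * |z1| ≤ 1 * |z1| := by gcongr
    have h2 : |p.1.1| * (|x2| * |z2|) ≤ 1 * (1 * |z2|) := by gcongr
    linarith
  have t2 : |Bf p (xZ y) (xZ y)| ≤ |z1| + |z2| := by
    have : Bf p (xZ y) (xZ y) = z1 * z1 + p.1.1 * (z2 * z2) := rfl
    rw [this]
    refine (abs_add_le _ _).trans ?_
    rw [abs_mul, abs_mul, abs_mul]
    have h1 : |z1| * |z1| ≤ 1 * |z1| := by gcongr
    have h2 : |p.1.1| * (|z2| * |z2|) ≤ 1 * (1 * |z2|) := by gcongr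
    linarith
  have t3 : |xD y| ≤ 21 * (|z1| + |z2|) := by
    have : xD y = (-(p.2.1 * p.1.2.2.1) + p.2.2.1 * y1) * z1 +
        p.1.1 * ((p.2.1 * p.1.2.1 + p.2.2.1 * y2) * z2) := rfl
    rw [this]
    refine (abs_add_le _ _).trans ?_
    rw [abs_mul, abs_mul, abs_mul]
    have h1 : |-(p.2.1 * p.1.2.2.1) + p.2.2.1 * y1| ≤ 21 := by
      refine (abs_add_le _ _).trans ?_
      rw [abs_neg, abs_mul, abs_mul]
      have h3 : |p.2.1| * |p.1.2.2.1| ≤ 4 * 2 := by gcongr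
      have h4 : |p.2.2.1| * |y1| ≤ 1 * 1 := by gcongr
      linarith
    have h2 : |p.2.1 * p.1.2.1 + p.2.2.1 * y2| ≤ 21 := by
      refine (abs_add_le _ _).trans ?_
      rw [abs_mul, abs_mul]
      have h3 : |p.2.1| * |p.1.2.1| ≤ 4 * 4 := by gcongr
      have h4 : |p.2.2.1| * |y2| ≤ 1 * 5 := by gcongr
      linarith
    have h5 : |-(p.2.1 * p.1.2.2.1) + p.2.2.1 * y1| * |z1| ≤ 21 * |z1| := by gcongr
    have h6 : |p.1.1| * (|p.2.1 * p.1.2.1 + p.2.2.1 * y2| * |z2|) ≤ 1 * (21 * |z2|) := by gcongr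
    linarith
  have t4 : |xm2 y * xD y / (xm1 y * xU y)| ≤ C ^ 2 * (21 * (|z1| + |z2|)) := by
    have h1 : |xm1 y * xU y| = |xE y| := by
      unfold xE
      rw [abs_neg]
    rw [abs_div, h1, div_le_iff₀ hE', abs_mul]
    have h2 : |xm2 y| * |xD y| ≤ C * (21 * (|z1| + |z2|)) := by gcongr
    have h3 : C * (21 * (|z1| + |z2|)) * 1 ≤ C * (21 * (|z1| + |z2|)) * (C * |xE y|) := by
      gcongr
    calc |xm2 y| * |xD y| ≤ C * (21 * (|z1| + |z2|)) * 1 := by linarith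
      _ ≤ C * (21 * (|z1| + |z2|)) * (C * |xE y|) := h3
      _ = C ^ 2 * (21 * (|z1| + |z2|)) * |xE y| := by ring
  have t5 : |xG y| ≤ (2 + 21 * C ^ 2) * (|z1| + |z2|) := by
    have e : xG y = -(p.2.2.1 * Bf p (xX y) (xZ y)) + p.2.2.1 * 1 * Bf p (xZ y) (xZ y) / 2 +
        xm2 y * xD y / (xm1 y * xU y) := rfl
    rw [e]
    refine (abs_add_le _ _).trans ?_
    have h1 : |-(p.2.2.1 * Bf p (xX y) (xZ y)) + p.2.2.1 * 1 * Bf p (xZ y) (xZ y) / 2| ≤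
        2 * (|z1| + |z2|) := by
      refine (abs_add_le _ _).trans ?_
      rw [abs_neg, abs_mul, abs_div, abs_mul, mul_one, abs_two]
      have h3 : |p.2.2.1| * |Bf p (xX y) (xZ y)| ≤ 1 * (|z1| + |z2|) := by gcongr
      have h4 : |p.2.2.1| * |Bf p (xZ y) (xZ y)| ≤ 1 * (|z1| + |z2|) := by gcongr
      linarith
    linarith
  have t6 : |p.2.2.2.1 * xG y| ≤ 1 / 20 * (|z1| + |z2|) := by
    rw [abs_mul, abs_of_pos hκ]
    have h1 : p.2.2.2.1 ≤ 1 / (20 * (2 + 21 * C ^ 2)) := hκ1.trans (min_le_right _ _)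
    calc p.2.2.2.1 * |xG y| ≤ 1 / (20 * (2 + 21 * C ^ 2)) *
          ((2 + 21 * C ^ 2) * (|z1| + |z2|)) := by gcongr
      _ = 1 / 20 * (|z1| + |z2|) := by
        field_simp
  have t7 : 1 / 10 * (|z1| + |z2|) ≤ |p.1.2.1 * z1 - -(p.1.2.2.1 * z2)| := by
    have e : p.1.2.1 * z1 - -(p.1.2.2.1 * z2) = p.1.2.1 * z1 + p.1.2.2.1 * z2 := by ring
    rw [e]
    have lg1 : 1 / 4 ≤ |p.1.2.1| := by
      rw [abs_of_neg (by linarith)]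
      linarith
    have lg2 : 1 / 4 ≤ |p.1.2.2.1| := by
      rw [abs_of_pos (by linarith)]
      exact g2
    have u1 : 1 / 4 * |z1| ≤ |p.1.2.1 * z1| := by
      rw [abs_mul]
      gcongr
    have u2 : |p.1.2.1 * z1| ≤ 4 * |z1| := by
      rw [abs_mul]
      gcongr
    have u3 : 1 / 4 * |z2| ≤ |p.1.2.2.1 * z2| := by
      rw [abs_mul]
      gcongr
    have u4 : |p.1.2.2.1 * z2| ≤ 2 * |z2| := by
      rw [abs_mul]
      gcongr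
    have v1 : |p.1.2.1 * z1| - |p.1.2.2.1 * z2| ≤ |p.1.2.1 * z1 + p.1.2.2.1 * z2| := by
      have := abs_sub_abs_le_abs_sub (p.1.2.1 * z1) (-(p.1.2.2.1 * z2))
      rw [abs_neg, sub_neg_eq_add] at this
      exact this
    have v2 : |p.1.2.2.1 * z2| - |p.1.2.1 * z1| ≤ |p.1.2.1 * z1 + p.1.2.2.1 * z2| := by
      have := abs_sub_abs_le_abs_sub (p.1.2.2.1 * z2) (-(p.1.2.1 * z1))
      rw [abs_neg, sub_neg_eq_add, add_comm (p.1.2.2.1 * z2)] at this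
      exact this
    rcases hnc with h | h
    · linarith
    · linarith
  have t8 : 1 / 20 * (|z1| + |z2|) ≤ |xh y| := by
    have e : xh y = (p.1.2.1 * z1 - -(p.1.2.2.1 * z2)) + p.2.2.2.1 * xG y := rfl
    rw [e]
    have := abs_sub_abs_le_abs_sub (p.1.2.1 * z1 - -(p.1.2.2.1 * z2)) (-(p.2.2.2.1 * xG y))
    rw [abs_neg, sub_neg_eq_add _ (p.2.2.2.1 * xG y)] at this
    linarith
  rw [e1, abs_mul, one_mul]
  have h9 : 1 / C ≤ |xE y| := by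
    rw [div_le_iff₀ (by linarith)]
    linarith
  calc 1 / (20 * C) * (|z1| + |z2|) = 1 / C * (1 / 20 * (|z1| + |z2|)) := by
        field_simp
    _ ≤ |xE y| * |xh y| := by gcongr

end Pool.Agent.SDT.N1G

end -- N1G.QAg
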