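import Pool.Agent.SDT.B50
import Pool.Agent.SDT.B51
import Pool.Agent.SDT.B60

set_option autoImplicit false

namespace Pool.Agent.SDT.MP_6cbfb8_an
end Pool.Agent.SDT.MP_6cbfb8_an
namespace Pool.Agent.SDT.MST
end Pool.Agent.SDT.MST
namespace Pool.Agent.SDT.N1
end Pool.Agent.SDT.N1
namespace Pool.Agent.SDT.N1.MD
end Pool.Agent.SDT.N1.MD
namespace Pool.Agent.SDT.N1F
end Pool.Agent.SDT.N1F
namespace Pool.Agent.SDT.N1G
end Pool.Agent.SDT.N1G

section -- N1F.DF1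

/-!
N1F, block A5, case n = 0, part 1: preparations.
-/

namespace Pool.Agent.SDT.N1F.DF

open MeasureTheory Set Metric Pool.Agent.SDT.MP_6cbfb8_an Pool.Agent.SDT.MST Pool.Agent.SDT.N1
open Pool.Agent.SDT.N1.MD
open scoped ENNReal Real ContDiff

theorem NbF_mono {al be δ δ' ρ : ℝ} {x0 y0 : ℝ × ℝ} {q : V × V} (h : δ ≤ δ')
    (hq : NbF al be δ ρ x0 y0 q) : NbF al be δ' ρ x0 y0 q := by
  obtain ⟨a1, a2, a3, a4, a5, a6⟩ := hq
  exact ⟨a1.trans h, a2.trans h, a3.trans h, a4.trans h, a5.trans h, a6.trans h⟩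

theorem Sz_mono {al be A0 B0 δ δ' : ℝ} (h : δ ≤ δ') (hs : Sz al be A0 B0 δ) :
    Sz al be A0 B0 δ' := by
  obtain ⟨a1, a2, a3, a4, a5, a6⟩ := hs
  exact ⟨a1, a2, a3, a4, a5.trans_le h, a6.trans_le h⟩

theorem dd_suppF {α : ℝ × ℝ → ℂ} {sy sx y x δ : ℝ}
    (h : ∀ p, α p ≠ 0 → |p.1 / sy - y| ≤ δ ∧ |p.2 / sx - x| ≤ δ) (u : V) (hu : dd α u ≠ 0) :
    |u.1 / sy - y| ≤ δ ∧ |u.2.1 / sx - x| ≤ δ ∧ |u.2.2 / sx| ≤ 2 * δ := by
  unfold dd at hu
  have h1 : α (u.1, u.2.1) ≠ 0 := left_ne_zero_of_mul hu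
  have h2 : α (u.1, u.2.1 - u.2.2) ≠ 0 := by
    intro h3
    apply right_ne_zero_of_mul hu
    rw [h3, map_zero]
  obtain ⟨a1, a2⟩ := h _ h1
  obtain ⟨_, b2⟩ := h _ h2
  simp only at a1 a2 b2
  refine ⟨a1, a2, ?_⟩
  rw [sub_div] at b2
  rw [abs_le] at a2 b2 ⊢
  constructor <;> linarith [a2.1, a2.2, b2.1, b2.2]

/-- a support condition in the box gives absolute bounds for the inner difference -/
theorem NbF_z {al be δ ρ : ℝ} (hal : 0 < al) (hbe : 0 < be) {x0 y0 : ℝ × ℝ} {q : V × V}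
    (hq : NbF al be δ ρ x0 y0 q) : |q.1.2.2| ≤ δ * al ∧ |q.2.2.2| ≤ δ * be := by
  obtain ⟨_, _, _, _, a5, a6⟩ := hq
  rw [abs_div, abs_of_pos hal, div_le_iff₀ hal] at a5
  rw [abs_div, abs_of_pos hbe, div_le_iff₀ hbe] at a6
  exact ⟨a5, a6⟩

theorem z_splitF (c : ℝ) (hc : 0 < c) : ∃ C : ℝ, 0 ≤ C ∧ ∀ T : ℝ, 1 ≤ T → ∀ al be : ℝ, 0 < al →
    al ≤ 1 → 0 < be → be ≤ 1 → ∀ ρ : ℝ, 0 < ρ →
    ρ ≤ 1 → ∀ (x0 y0 : ℝ × ℝ) (M : V × V → ℂ), Measurable M → (∀ q, ‖M q‖ ≤ 1) →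
    (∀ q, M q ≠ 0 → NbF al be 1 ρ x0 y0 q) → ∀ Q : ℝ, 0 ≤ Q →
    (∀ γ d : ℝ, 0 < γ → γ ≤ 1 → 0 < d → d ≤ 1 → ‖FF c T (rec γ d M)‖ ≤ Q) →
    ‖FF c T M‖ ≤ C * (1 + Real.log T) ^ 2 * (Q + 1 / T) := by
  obtain ⟨C0, hC0, h0⟩ := FF_abs0 c hc
  refine ⟨25 * (1 + C0 * 64), by positivity,
    fun T hT al be hal hal1 hbe hbe1 ρ hρ hρ1 x0 y0 M hM hM1 hMs Q hQ hr => ?_⟩
  have hT0 : 0 < T := by linarith
  obtain ⟨K, hK1, hK2⟩ := dy_num T hT
  have hz : ∀ q, M q ≠ 0 → |q.1.2.2| ≤ 1 ∧ |q.2.2.2| ≤ 1 := fun q hq => by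
    obtain ⟨e5, e6⟩ := NbF_z hal hbe (hMs q hq)
    exact ⟨by linarith, by linarith⟩
  have hvol : ∀ g d : ℝ, 0 ≤ g → 0 ≤ d →
      volume {q : V × V | NbF al be 1 ρ x0 y0 q ∧ |q.1.2.2| ≤ g ∧ |q.2.2.2| ≤ d} ≤
        ENNReal.ofReal (64 * g * d) := by
    intro g d hg hd
    refine (vol_boxF al be x0 y0 1 ρ g d hal hbe zero_le_one le_rfl hρ hg hd).trans ?_
    apply ENNReal.ofReal_le_ofReal
    have h1 : al ^ 2 * be ^ 4 ≤ 1 :=
      mul_le_one₀ (pow_le_one₀ hal.le hal1) (by positivity) (pow_le_one₀ hbe.le hbe1)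
    have h2 : ρ ^ 2 ≤ 1 := pow_le_one₀ hρ.le hρ1
    calc 64 * (al ^ 2 * be ^ 4) * ρ ^ 2 * g * d ≤ 64 * 1 * 1 * g * d := by gcongr
      _ = 64 * g * d := by ring
  have hlog : 0 ≤ Real.log T := Real.log_nonneg hT
  have key : ∀ j ≤ K, ∀ k ≤ K, ‖FF c T (zc K j k M)‖ ≤ (1 + C0 * 64) * (Q + 1 / T) := by
    intro j hj k hk
    have hTinv : 0 ≤ 1 / T := by positivity
    have hbig : C0 * 64 / T ≤ (1 + C0 * 64) * (Q + 1 / T) := by
      have e1 : C0 * 64 / T = C0 * 64 * (1 / T) := by ring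
      rw [e1]
      have e2 : 0 ≤ C0 * 64 * Q := by positivity
      nlinarith
    rcases lt_or_ge j K with hj' | hj'
    · rcases lt_or_ge k K with hk' | hk'
      · rw [zc_eq_rec K j k hj' hk' M hz]
        refine (hr _ _ (by positivity) (pow_le_one₀ (by norm_num) (by norm_num)) (by positivity)
          (pow_le_one₀ (by norm_num) (by norm_num))).trans ?_
        have e2 : 0 ≤ C0 * 64 * Q := by positivity
        have e3 : 0 ≤ C0 * 64 * (1 / T) := by positivity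
        nlinarith
      · refine le_trans ?_ hbig
        refine h0 T hT0 (zc K j k M) {q | NbF al be 1 ρ x0 y0 q ∧ |q.1.2.2| ≤ 1 ∧
          |q.2.2.2| ≤ (1 / 2) ^ K} (64 * 1 * (1 / 2) ^ K) 64 (zc_meas K j k M hM)
          (fun q => zc_norm K j k M 1 zero_le_one hM1 q) (fun q hq _ => ?_) (by positivity)
          (hvol 1 _ zero_le_one (by positivity)) ?_
        · have e1 := (zc_ne hq).2.2
          obtain ⟨_, e2, e3, _, _⟩ := zc_rect hq (hz q e1).1 (hz q e1).2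
          have : k = K := le_antisymm hk hk'
          subst this
          exact ⟨hMs q e1, (hz q e1).1, e3⟩
        · calc 64 * 1 * (1 / 2) ^ K ≤ 64 * 1 * (1 / T ^ 2) := by gcongr
            _ = 64 / T ^ 2 := by ring
    · refine le_trans ?_ hbig
      refine h0 T hT0 (zc K j k M) {q | NbF al be 1 ρ x0 y0 q ∧ |q.1.2.2| ≤ (1 / 2) ^ K ∧
        |q.2.2.2| ≤ 1} (64 * (1 / 2) ^ K * 1) 64 (zc_meas K j k M hM)
        (fun q => zc_norm K j k M 1 zero_le_one hM1 q) (fun q hq _ => ?_) (by positivity)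
        (hvol _ 1 (by positivity) zero_le_one) ?_
      · have e1 := (zc_ne hq).2.2
        obtain ⟨_, e2, e3, _, _⟩ := zc_rect hq (hz q e1).1 (hz q e1).2
        have : j = K := le_antisymm hj hj'
        subst this
        exact ⟨hMs q e1, e2, (hz q e1).2⟩
      · rw [mul_one]
        calc 64 * (1 / 2) ^ K ≤ 64 * (1 / T ^ 2) := by gcongr
          _ = 64 / T ^ 2 := by ring
  have h1 := FF_dy c hc T hT0 M hM 1 hM1 K _ key
  refine h1.trans ?_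
  have h2 : ((K : ℝ) + 1) ^ 2 ≤ (5 * (1 + Real.log T)) ^ 2 := by gcongr
  calc ((K : ℝ) + 1) ^ 2 * ((1 + C0 * 64) * (Q + 1 / T)) ≤
        (5 * (1 + Real.log T)) ^ 2 * ((1 + C0 * 64) * (Q + 1 / T)) := by gcongr
    _ = 25 * (1 + C0 * 64) * (1 + Real.log T) ^ 2 * (Q + 1 / T) := by ring

end Pool.Agent.SDT.N1F.DF

end -- N1F.DF1

section -- N1M.M2f

/-!
N1M, block M2: the oscillatory estimate for one cell, outer difference of type N.
-/

namespace Pool.Agent.SDT.N1M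

open MeasureTheory Set Metric Pool.Agent.SDT.MP_6cbfb8_an Pool.Agent.SDT.MST Pool.Agent.SDT.N1
open Pool.Agent.SDT.N1F Pool.Agent.SDT.N1G
open scoped ENNReal Real ContDiff Topology

/-- The four values of `r`. -/
noncomputable def yr (u e : ℝ) (x : P6 × V × V) : ℝ :=
  x.2.2.2.1 - e * (x.1.1 * x.1.2.2.2.2.1 * x.1.2.2.2.1 * x.2.2.2.2) - u * (x.1.2.2.1 * x.2.2.1)

/-- The cut-off in `r` is not felt. -/
def GdR (x : P6 × V × V) : Prop :=
  (0 < yr 0 0 x ∧ yr 0 0 x < 8) ∧ (0 < yr 1 0 x ∧ yr 1 0 x < 8) ∧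
    (0 < yr 0 1 x ∧ yr 0 1 x < 8) ∧ (0 < yr 1 1 x ∧ yr 1 1 x < 8)

theorem nf4N (c : ℝ) (hc : 0 < c) (hc1 : c ≤ 1) (m0 k0 : ℝ) (a0 b0 : V)
    (hX : 0 < a0.2.1) (hZ : a0.2.2 ≠ 0) (hr : Rg m0 b0.2.1) :
    ∃ (g : P6 × V × V → ℝ) (r : ℝ), 0 < r ∧
      (∀ x ∈ ball ((((0, m0, 0, 0, k0, 0) : P6), a0, b0) : P6 × V × V) r, GdF c x ∧ GdR x) ∧
      ContDiffOn ℝ ∞ g (ball ((((0, m0, 0, 0, k0, 0) : P6), a0, b0) : P6 × V × V) r) ∧
      (∀ x ∈ ball ((((0, m0, 0, 0, k0, 0) : P6), a0, b0) : P6 × V × V) r,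
        x.1.2.2.2.2.1 * x.1.2.2.2.2.2 = x.1.2.2.2.1 ^ 2 →
        yq c 0 0 0 x - yq c 0 1 1 x - yq c 1 0 0 x + yq c 1 1 1 x =
        (x.1.1 * x.1.2.2.1 * x.1.2.2.2.1) * (yE c x * (yW (x.1, x.2.1) - yS c (x.1, x.2.2) +
          x.1.2.2.2.2.1 * (yL (x.1, x.2.1) * yM c (x.1, x.2.2) + x.1.1 * g x)))) ∧
      (∀ q ∈ ball ((a0, b0) : V × V) r, g (((0, m0, 0, 0, k0, 0) : P6), q.1, q.2) =
        gX q.1 * gN m0 q.2) := by
  set X0 : P6 × V × V := (((0, m0, 0, 0, k0, 0) : P6), a0, b0) with hX0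
  obtain ⟨r0, r4, hr1, hbm⟩ := hr
  have cR : ∀ u e : ℝ, ∀ᶠ x in 𝓝 X0, 0 < yr u e x ∧ yr u e x < 8 := by
    intro u e
    have h1 : Continuous (yr u e) := by unfold yr; fun_prop
    have h2 : yr u e X0 = b0.2.1 := by rw [hX0]; unfold yr; simp
    filter_upwards [h1.continuousAt.eventually (lt_mem_nhds (show 0 < yr u e X0 by
      rw [h2]; exact r0)), h1.continuousAt.eventually (gt_mem_nhds (show yr u e X0 < 8 by
      rw [h2]; linarith))] with x g1 g2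
    exact ⟨g1, g2⟩
  have ev : ∀ᶠ x in 𝓝 X0, GdF c x ∧ GdR x := by
    filter_upwards [GdF_ev c hc hc1 m0 k0 a0 b0 hX hZ hr1, cR 0 0, cR 1 0, cR 0 1, cR 1 1]
      with x h1 h2 h3 h4 h5
    exact ⟨h1, h2, h3, h4, h5⟩
  obtain ⟨r1, hr1p, hb1⟩ := g_ball ev
  obtain ⟨r2, hr2, hrr, k, hk, hkD⟩ := had1P (E := ℝ × ℝ × ℝ × ℝ × ℝ) (F := V × V) (yf c) 0
    (m0, 0, 0, k0, 0) (a0, b0) r1 hr1p (yf_s c hc _ (fun x hx => (hb1 x hx).1))
    (fun x hx h => yf_zero c hc x (hb1 x hx).1 h)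
  have hb2 : ∀ x ∈ ball X0 r2, GdF c x ∧ GdR x := fun x hx => hb1 x (ball_subset_ball hrr hx)
  refine ⟨fun x => k x / yE c x - x.1.2.2.2.2.2 * yK c x, r2, hr2, hb2, ?_, ?_, ?_⟩
  · have h1 := yE_s c hc (ball X0 r2) (fun x hx => (hb2 x hx).1)
    have h2 := yK_s c hc (ball X0 r2) (fun x hx => (hb2 x hx).1)
    have h3 : ContDiffOn ℝ ∞ k (ball X0 r2) := hk
    have h4 : ∀ x ∈ ball X0 r2, yE c x ≠ 0 := fun x hx => yE_ne c hc x (hb2 x hx).1
    fun_prop (disch := exact h4)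
  · intro x hx hη
    exact idN c hc x (hb2 x hx).1 hη (k x) (hkD x hx)
  · intro q hq
    have hqX : ((((0, m0, 0, 0, k0, 0) : P6), q.1, q.2) : P6 × V × V) ∈ ball X0 r2 := by
      rw [mem_ball, Prod.dist_eq, dist_self]
      exact max_lt hr2 (mem_ball.1 hq)
    have hG := (hb2 _ hqX).1
    set a := q.1 with ha
    set b := q.2 with hb
    obtain ⟨⟨⟨g1, g2, g3⟩, hB, v1, v2, v3, v4, v5, v6⟩, hk1, hk2, hD⟩ := hG
    have eV : ∀ u v e : ℝ, yV u v e (((0, m0, 0, 0, k0, 0) : P6), a, b) = hm m0 b.2.1 := by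
      intro u v e
      unfold yV
      simp
    have ec : yc (((0, m0, 0, 0, k0, 0) : P6), a) = a.2.1 := by unfold yc; simp
    rw [eV] at v1
    simp only at g1 g3
    rw [ec] at g1
    obtain ⟨s1, s2⟩ := Sq_pos c hc _ v1
    -- the value of `k`
    have hline : Continuous (fun t : ℝ => ((((t, m0, 0, 0, k0, 0) : P6), a, b) : P6 × V × V)) := by
      fun_prop
    have hkc : ContinuousAt (fun t : ℝ => k (((t, m0, 0, 0, k0, 0) : P6), a, b)) 0 := by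
      have h1 : ContinuousAt k (((0, m0, 0, 0, k0, 0) : P6), a, b) :=
        hk.continuousOn.continuousAt (isOpen_ball.mem_nhds hqX)
      exact ContinuousAt.comp_of_eq (f := fun t : ℝ =>
        ((((t, m0, 0, 0, k0, 0) : P6), a, b) : P6 × V × V)) h1 hline.continuousAt rfl
    have hin : ∀ᶠ t : ℝ in 𝓝 0, ((((t, m0, 0, 0, k0, 0) : P6), a, b) : P6 × V × V) ∈
        ball X0 r2 :=
      hline.continuousAt.eventually (isOpen_ball.mem_nhds hqX)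
    have hval := g_ext (f := fun t : ℝ => k (((t, m0, 0, 0, k0, 0) : P6), a, b))
      (g := fun t : ℝ => b.2.2 * a.2.1 * a.1 * bm m0 b.2.1 /
        Sq c (hm m0 b.2.1 - t * a.2.1 ^ 2) ^ 3) hkc (by
        have h1 : Continuous (Sq c) := (Sq_smooth c hc).continuous
        have h2 : ContinuousAt (fun t : ℝ => Sq c (hm m0 b.2.1 - t * a.2.1 ^ 2)) 0 :=
          (h1.comp (by fun_prop : Continuous fun t : ℝ => hm m0 b.2.1 - t * a.2.1 ^ 2)).continuousAt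
        refine ContinuousAt.div continuousAt_const (h2.pow 3) ?_
        simp only [zero_mul, sub_zero]
        positivity) (by
        filter_upwards [nhdsWithin_le_nhds hin, self_mem_nhdsWithin] with t ht1 ht0
        have h1 := yf_base c hc t m0 k0 a b (hb2 _ ht1).1
        have h2 := hkD _ ht1
        rw [h2] at h1
        simp only at h1
        exact mul_left_cancel₀ ht0 h1)
    simp only [zero_mul, sub_zero] at hval
    simp only
    rw [yE_base c hc m0 k0 a b (hb2 _ hqX).1, hval, zero_mul, sub_zero]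
    unfold gX gN
    have hh : hm m0 b.2.1 = Sq c (hm m0 b.2.1) ^ 2 := s2.symm
    generalize Sq c (hm m0 b.2.1) = s at s1 hh
    rw [hh]
    field_simp

/-- The amplitude. -/
noncomputable def yWa (c : ℝ) (x : P6 × V × V) : ℝ :=
  sma c (yV 0 0 0 x) * sma c (yV 1 0 0 x) * (sma c (yV 0 1 1 x) * sma c (yV 1 1 1 x))

lemma yWa_s (c : ℝ) (hc : 0 < c) : ContDiff ℝ ∞ (yWa c) := by
  have h1 : ∀ u v e : ℝ, ContDiff ℝ ∞ (fun x : P6 × V × V => sma c (yV u v e x)) := by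
    intro u v e
    refine (sma_smooth c hc).comp ?_
    unfold yV hm
    fun_prop
  unfold yWa
  exact ((h1 0 0 0).mul (h1 1 0 0)).mul ((h1 0 1 1).mul (h1 1 1 1))

lemma phN_cell (c al m ρ γ κ η : ℝ) (a b : V) :
    Fg (dif (qm c m)) (Sc3 (al * ρ) al (al * γ) a, Sc3 ρ 1 (al ^ 2 * κ * γ) b) =
      yq c 0 0 0 (((al ^ 2, m, ρ, γ, κ, η) : P6), a, b) -
      yq c 0 1 1 (((al ^ 2, m, ρ, γ, κ, η) : P6), a, b) -
      yq c 1 0 0 (((al ^ 2, m, ρ, γ, κ, η) : P6), a, b) +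
      yq c 1 1 1 (((al ^ 2, m, ρ, γ, κ, η) : P6), a, b) := by
  unfold Fg dif qm N1G.px pz Sc3 yq yV
  simp only [Prod.fst_sub, Prod.snd_sub]
  ring_nf

lemma waN_eq (c al m ρ γ κ η : ℝ) (a b : V) (h : GdR (((al ^ 2, m, ρ, γ, κ, η) : P6), a, b)) :
    Wg (dam (wm c m)) (Sc3 (al * ρ) al (al * γ) a, Sc3 ρ 1 (al ^ 2 * κ * γ) b) =
      yWa c (((al ^ 2, m, ρ, γ, κ, η) : P6), a, b) := by
  obtain ⟨⟨h1, h1'⟩, ⟨h2, h2'⟩, ⟨h3, h3'⟩, h4, h4'⟩ := h
  unfold yr at h1 h1' h2 h2' h3 h3' h4 h4'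
  simp only [zero_mul, one_mul, sub_zero] at h1 h1' h2 h2' h3 h3' h4 h4'
  have w : ∀ a r : ℝ, 0 < r → r < 8 → wm c m (a, r) = sma c (hm m r - a ^ 2) := by
    intro a r g1 g2
    unfold wm
    rw [if_pos ⟨g1.le, g2.le⟩]
  unfold Wg dam N1G.px pz Sc3 yWa yV
  simp only [Prod.mk_sub_mk]
  rw [w _ _ (by linarith) (by linarith), w _ _ (by linarith) (by linarith),
    w _ _ (by linarith) (by linarith), w _ _ (by linarith) (by linarith)]
  congr 1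
  · congr 1 <;> congr 1 <;> ring_nf
  · congr 1 <;> congr 1 <;> ring_nf

theorem propF4N (c : ℝ) (hc : 0 < c) (hc1 : c ≤ 1) (m0 : ℝ) (x0 y0 z0 : ℝ × ℝ) (hb : Bm m0 x0)
    (hy1 : y0.1 ≠ 0) (hy2 : y0.2 ≠ 0) (hz1 : z0.1 ≠ 0) (hz2 : z0.2 ≠ 0) (k0 : ℝ) (_hk : 0 ≤ k0)
    (_hk' : k0 ≤ 1) (C5 : ℝ) :
    ∃ δ : ℝ, 0 < δ ∧ ∃ C : ℝ, 0 ≤ C ∧ ∀ T al m ρ γ κ : ℝ, 0 < T → Sm al m m0 δ →
      0 < ρ → ρ < δ → 0 < γ → γ < δ → 0 < κ → κ ≤ 1 → |κ - k0| < δ → γ ≤ C5 * κ →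
      ∀ A B : V → ℂ, Measurable A → Measurable B → (∀ a, ‖A a‖ ≤ 1) → (∀ b, ‖B b‖ ≤ 1) →
      (∀ u, A u ≠ 0 → LB (al * ρ) al (al * γ) y0.1 x0.1 z0.1 δ u) →
      (∀ v, B v ≠ 0 → LB ρ 1 (al ^ 2 * κ * γ) y0.2 x0.2 z0.2 δ v) →
      ‖FM c m T (tp A B)‖ ≤ C / T := by
  obtain ⟨_, _, hx1, hRg⟩ := hb
  set a0 : V := (y0.1, x0.1, z0.1) with ha0
  set b0 : V := (y0.2, x0.2, z0.2) with hb0
  set p0 : P6 := (0, m0, 0, 0, k0, 0) with hp0
  obtain ⟨g, r, hr, hG, hg, hid, hbase⟩ := nf4N c hc hc1 m0 k0 a0 b0 hx1 hz1 hRg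
  have hrG := hRg
  obtain ⟨r0, r4, hr1, hbm⟩ := hrG
  have hh0 : hm m0 b0.2.1 ≠ 0 := by
    have : (1:ℝ) / 4 ≤ hm m0 b0.2.1 := hr1
    intro h
    rw [h] at this
    linarith
  have hb0' : bm m0 b0.2.1 ≠ 0 := by
    have : (1:ℝ) / 2 ≤ bm m0 b0.2.1 := hbm
    intro h
    rw [h] at this
    linarith
  have hGA : ∀ x ∈ ball (p0, a0) r, GdA x := by
    intro x hx
    have : ((x.1, x.2, b0) : P6 × V × V) ∈ ball (p0, a0, b0) r := by
      rw [mem_ball, Prod.dist_eq] at hx ⊢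
      rw [Prod.dist_eq]
      exact max_lt (lt_of_le_of_lt (le_max_left _ _) hx) (max_lt (lt_of_le_of_lt
        (le_max_right _ _) hx) (by simpa using hr))
    exact (hG _ this).1.1.1
  have hGB : ∀ x ∈ ball (p0, b0) r, GdB c x := by
    intro x hx
    have : ((x.1, a0, x.2) : P6 × V × V) ∈ ball (p0, a0, b0) r := by
      rw [mem_ball, Prod.dist_eq] at hx ⊢
      rw [Prod.dist_eq]
      exact max_lt (lt_of_le_of_lt (le_max_left _ _) hx) (max_lt (by simpa using hr)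
        (lt_of_le_of_lt (le_max_right _ _) hx))
    exact (hG _ this).1.1.2.1
  have eW : (fun a : V => yW (p0, a)) = w0 := funext fun a => (base_wl m0 k0 a).1
  have eL : (fun a : V => yL (p0, a)) = l0 0 := funext fun a => (base_wl m0 k0 a).2
  have inB : ∀ b ∈ ball b0 r, ((p0, b) : P6 × V) ∈ ball (p0, b0) r := by
    intro b hb
    rw [mem_ball, Prod.dist_eq, dist_self]
    exact max_lt hr (mem_ball.1 hb)
  have eS : (fun b : V => yS c (p0, b)) =ᶠ[𝓝 b0] σN m0 := by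
    filter_upwards [ball_mem_nhds b0 hr] with b hb
    exact (base_σm c hc m0 k0 b (hGB _ (inB b hb))).1
  have eM : (fun b : V => yM c (p0, b)) =ᶠ[𝓝 b0] mN m0 := by
    filter_upwards [ball_mem_nhds b0 hr] with b hb
    exact (base_σm c hc m0 k0 b (hGB _ (inB b hb))).2
  have eg : ∀ᶠ q in 𝓝 (a0, b0), (fun q : V × V => g (p0, q.1, q.2)) q = gX q.1 * gN m0 q.2 := by
    filter_upwards [ball_mem_nhds (a0, b0) hr] with q hq
    exact hbase q hq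
  obtain ⟨a11, a12, a22, a13, a23, a33⟩ := base_A 0 a0 hy1 hx1.ne' hz1 (by simp)
  obtain ⟨b11, b12, b22, b13, b23, b33⟩ := base_N m0 b0 hy2 hz2 hb0' hh0
  have hnd : fderiv ℝ (fun b => fderiv ℝ (fun a => g (p0, a, b)) a0 (dirA 0 a0)) b0
      (dirN m0 b0) ≠ 0 := by
    rw [base_gN m0 a0 b0 (dirA 0 a0) (dirN m0 b0) hz1 hh0 (fun q : V × V => g (p0, q.1, q.2)) eg]
    exact mul_ne_zero a33 b33
  obtain ⟨δ, hδ, C, hC, hHL⟩ := absProp yW yL (yS c) (yM c) g (yE c) (yWa c) p0 a0 b0 r hr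
    (yW_s _ hGA) (yL_s _ hGA) (yS_s c hc _ hGB) (yM_s c hc _ hGB) hg
    (yE_s c hc _ (fun x hx => (hG x hx).1)) ((yWa_s c hc).contDiffOn)
    (yE_ne c hc _ (hG _ (mem_ball_self hr)).1) (1, 0, 0) (0, 0, 1) (dirA 0 a0) (1, 0, 0) (0, 0, 1)
    (dirN m0 b0) (by rw [eW]; exact a11) (by rw [eW]; exact a12) (by rw [eL]; exact a22)
    (by rw [eW]; exact a13) (by rw [eL]; exact a23) (by rw [eS.fderiv_eq]; exact b11)
    (by rw [eS.fderiv_eq]; exact b12) (by rw [eM.fderiv_eq]; exact b22)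
    (by rw [eS.fderiv_eq]; exact b13) (by rw [eM.fderiv_eq]; exact b23) hnd
  set M := 1 + |C5| with hM
  have hM1 : 1 ≤ M := by rw [hM]; linarith [abs_nonneg C5]
  set δ' := min (min δ r) 1 / (2 * M) with hδ'
  have hδp : 0 < min (min δ r) 1 := lt_min (lt_min hδ hr) one_pos
  have hδM : M * δ' = min (min δ r) 1 / 2 := by rw [hδ']; field_simp
  have hδ'p : 0 < δ' := by rw [hδ']; positivity
  have hδ1 : M * δ' < δ := by
    have := (min_le_left (min δ r) 1).trans (min_le_left δ r)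
    rw [hδM]; linarith
  have hδ2 : M * δ' < r := by
    have := (min_le_left (min δ r) 1).trans (min_le_right δ r)
    rw [hδM]; linarith
  have hδ3 : M * δ' < 1 := by
    have := min_le_right (min δ r) 1
    rw [hδM]; linarith
  have hδle : δ' ≤ M * δ' := by nlinarith
  refine ⟨δ', hδ'p, C, hC, ?_⟩
  intro T al m ρ γ κ hT hSm hρ hρδ hγ hγδ hκ hκ1 hκδ hγκ A B hA hB hA1 hB1 hAs hBs
  obtain ⟨hal, hal1, hm0, hm1, hmd⟩ := hSm
  set η := γ ^ 2 / κ with hη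
  have hη0 : 0 ≤ η := by rw [hη]; positivity
  have hηle : η ≤ M * δ' := by
    rw [hη, div_le_iff₀ hκ]
    have h3 : γ ≤ |C5| * κ := hγκ.trans (mul_le_mul_of_nonneg_right (le_abs_self _) hκ.le)
    calc γ ^ 2 = γ * γ := by ring
      _ ≤ (|C5| * κ) * δ' := mul_le_mul h3 hγδ.le hγ.le (by positivity)
      _ ≤ M * δ' * κ := by
        rw [hM]
        nlinarith [mul_pos hδ'p hκ]
  have hκη : κ * η = γ ^ 2 := by rw [hη]; field_simp
  have hA2 : al ^ 2 < δ' := by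
    have : al < 1 := by linarith
    nlinarith
  set p : P6 := (al ^ 2, m, ρ, γ, κ, η) with hp
  have hpR : ∀ R, M * δ' < R → p ∈ ball p0 R := by
    intro R hR
    rw [hp, hp0, mem_ball, Prod.dist_eq, Prod.dist_eq, Prod.dist_eq, Prod.dist_eq, Prod.dist_eq,
      Real.dist_eq, Real.dist_eq, Real.dist_eq, Real.dist_eq, Real.dist_eq, Real.dist_eq]
    simp only [sub_zero]
    rw [abs_of_pos hρ, abs_of_pos hγ, abs_of_nonneg hη0, abs_of_pos (by positivity)]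
    exact max_lt (by linarith) (max_lt (by linarith) (max_lt (by linarith) (max_lt (by linarith)
      (max_lt (by linarith) (by linarith)))))
  have hmain := hHL p (hpR δ hδ1) κ (al ^ 2) T (al ^ 2 * ρ * γ) hκ hκ1 (by positivity)
    (by linarith) hT (by positivity) (al * ρ) al (al * γ) ρ 1 (al ^ 2 * κ * γ) (by positivity)
    hal (by positivity) hρ one_pos (by positivity) (Fg (dif (qm c m))) (Wg (dam (wm c m)))
    (by
      intro a ha b hb'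
      have hin : ((p, a, b) : P6 × V × V) ∈ ball (p0, a0, b0) r := by
        rw [mem_ball, Prod.dist_eq, Prod.dist_eq]
        exact max_lt (hpR r hδ2) (max_lt ha hb')
      refine ⟨?_, waN_eq c al m ρ γ κ η a b (hG _ hin).2⟩
      rw [phN_cell c al m ρ γ κ η a b]
      exact hid _ hin hκη)
    A B hA hB hA1 hB1
    (fun u hu => by
      have h := hAs u hu
      unfold LB at h ⊢
      exact ⟨h.1.trans (by linarith), h.2.1.trans (by linarith), h.2.2.trans (by linarith)⟩)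
    (fun u hu => by
      have h := hBs u hu
      unfold LB at h ⊢
      exact ⟨h.1.trans (by linarith), h.2.1.trans (by linarith), h.2.2.trans (by linarith)⟩)
  unfold FM FFg
  refine hmain.trans (le_of_eq ?_)
  rw [Real.sqrt_sq hal.le]
  field_simp

end Pool.Agent.SDT.N1M

end -- N1M.M2f
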