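import Pool.Agent.SDT.B45
import Pool.Agent.SDT.B56

set_option autoImplicit false

namespace Pool.Agent.SDT.MP_6cbfb8_an
end Pool.Agent.SDT.MP_6cbfb8_an
namespace Pool.Agent.SDT.MST
end Pool.Agent.SDT.MST
namespace Pool.Agent.SDT.N1
end Pool.Agent.SDT.N1

section -- N1G.L1a

/-!
N1G, block L1, part 1: absolute estimates and the dyadic decomposition in `z`.
-/

namespace Pool.Agent.SDT.N1G

open MeasureTheory Set Metric Pool.Agent.SDT.MP_6cbfb8_an Pool.Agent.SDT.MST Pool.Agent.SDT.N1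
  Pool.Agent.SDT.N1.MD
open scoped ENNReal Real ContDiff

theorem FFg_zero (φ w : YX → ℝ) (T : ℝ) (M : V × V → ℂ) (h : ∀ q, M q = 0) :
    FFg φ w T M = 0 := by
  unfold FFg
  simp [h]

/-- Absolute estimate, `v0 ≤ D * f0 ^ 2`. -/
theorem FFg_abs2 (B : ℝ) (hB : 0 ≤ B) : ∃ C : ℝ, 0 ≤ C ∧ ∀ (R : ℝ) (φ w : YX → ℝ),
    Adm B R φ w → ∀ T : ℝ, 0 < T → ∀ (M : V × V → ℂ)
    (S : Set (V × V)) (f0 v0 D : ℝ), Measurable M → (∀ q, ‖M q‖ ≤ 1) →
    (∀ q, M q ≠ 0 → q ∈ S) → 0 ≤ v0 → volume S ≤ ENNReal.ofReal v0 → 0 ≤ f0 →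
    (∀ q ∈ S, f0 ≤ |Fg φ q|) → 0 ≤ D → v0 ≤ D * f0 ^ 2 → ‖FFg φ w T M‖ ≤ C * D / T := by
  obtain ⟨C, hC, h⟩ := FFg_abs B hB
  refine ⟨C, hC, fun R φ w hw T hT M S f0 v0 D hM hM1 hS hv hSv hf hF hD hvD => ?_⟩
  refine (h R φ w hw T hT M S f0 v0 hM hM1 (fun q hq _ => hS q hq) hv hSv hf hF).trans ?_
  have hs : 0 ≤ T * f0 := by positivity
  have hp : (0 : ℝ) < (1 + T * f0) ^ 3 := by positivity
  rw [div_le_div_iff₀ hp hT]
  have h1 : (T * f0) ^ 2 ≤ (1 + T * f0) ^ 3 := by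
    nlinarith [pow_nonneg hs 3, pow_nonneg hs 2]
  calc C * T * v0 * T ≤ C * T * (D * f0 ^ 2) * T := by gcongr
    _ = C * D * (T * f0) ^ 2 := by ring
    _ ≤ C * D * (1 + T * f0) ^ 3 := by gcongr

/-- Absolute estimate on a set of volume `≤ D / T ^ 2`. -/
theorem FFg_abs0 (B : ℝ) (hB : 0 ≤ B) : ∃ C : ℝ, 0 ≤ C ∧ ∀ (R : ℝ) (φ w : YX → ℝ),
    Adm B R φ w → ∀ T : ℝ, 0 < T → ∀ (M : V × V → ℂ)
    (S : Set (V × V)) (v0 D : ℝ), Measurable M → (∀ q, ‖M q‖ ≤ 1) →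
    (∀ q, M q ≠ 0 → q ∈ S) → 0 ≤ v0 → volume S ≤ ENNReal.ofReal v0 →
    v0 ≤ D / T ^ 2 → ‖FFg φ w T M‖ ≤ C * D / T := by
  obtain ⟨C, hC, h⟩ := FFg_abs B hB
  refine ⟨C, hC, fun R φ w hw T hT M S v0 D hM hM1 hS hv hSv hvD => ?_⟩
  refine (h R φ w hw T hT M S 0 v0 hM hM1 (fun q hq _ => hS q hq) hv hSv le_rfl
    (fun q _ => abs_nonneg _)).trans ?_
  rw [mul_zero, add_zero, one_pow, div_one, le_div_iff₀ hT]
  rw [le_div_iff₀ (by positivity)] at hvD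
  calc C * T * v0 * T = C * (v0 * T ^ 2) := by ring
    _ ≤ C * D := by gcongr

theorem NbG_Nb {δ : ℝ} {x0 y0 : ℝ × ℝ} {q : V × V} (h : NbG δ x0 y0 q) : Nb δ 1 x0 y0 q := by
  obtain ⟨⟨a1, a2, a3, a4⟩, _, a5, a6⟩ := h
  unfold px at a1 a2 a3 a4
  simp only at a1 a2 a3 a4
  unfold Nb
  rw [div_one, div_one]
  exact ⟨a1, a2, a3, a4, a5, a6⟩

theorem vol_boxG (x0 y0 : ℝ × ℝ) (δ g d : ℝ) (hδ : 0 ≤ δ) (hδ1 : δ ≤ 1)
    (hg : 0 ≤ g) (hd : 0 ≤ d) :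
    volume {q : V × V | NbG δ x0 y0 q ∧ |q.1.2.2| ≤ g ∧ |q.2.2.2| ≤ d} ≤
      ENNReal.ofReal (64 * g * d) := by
  have h := vol_box x0 y0 δ 1 g d hδ hδ1 one_pos hg hd
  rw [one_pow, mul_one] at h
  refine (measure_mono ?_).trans h
  intro q hq
  exact ⟨NbG_Nb hq.1, hq.2⟩

/-- The dyadic decomposition in the inner difference. -/
theorem FFg_dy (B R : ℝ) (φ w : YX → ℝ) (hw : Adm B R φ w) (T : ℝ) (hT : 0 < T) (M : V × V → ℂ)
    (hM : Measurable M) (D : ℝ) (hD : ∀ q, ‖M q‖ ≤ D) (K : ℕ) (L : ℝ)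
    (h : ∀ j ≤ K, ∀ k ≤ K, ‖FFg φ w T (zc K j k M)‖ ≤ L) :
    ‖FFg φ w T M‖ ≤ ((K : ℝ) + 1) ^ 2 * L := by
  have hB0 : 0 ≤ D := (norm_nonneg _).trans (hD ((0, 0, 0), (0, 0, 0)))
  have h1 := FFg_sum B R φ w hw T hT (Finset.range (K + 1) ×ˢ Finset.range (K + 1))
    (fun i => zc K i.1 i.2 M) (fun i => zc_meas K i.1 i.2 M hM) D
    (fun i q => zc_norm K i.1 i.2 M D hB0 hD q)
  have h2 : (fun q => ∑ i ∈ Finset.range (K + 1) ×ˢ Finset.range (K + 1), zc K i.1 i.2 M q) = M := by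
    funext q
    exact zc_sum K M q
  rw [h2] at h1
  rw [h1]
  refine (norm_sum_le _ _).trans ?_
  have h3 : ∀ i ∈ Finset.range (K + 1) ×ˢ Finset.range (K + 1),
      ‖FFg φ w T (zc K i.1 i.2 M)‖ ≤ L := by
    intro i hi
    rw [Finset.mem_product, Finset.mem_range, Finset.mem_range] at hi
    exact h i.1 (by omega) i.2 (by omega)
  refine (Finset.sum_le_sum h3).trans ?_
  rw [Finset.sum_const, Finset.card_product, Finset.card_range, nsmul_eq_mul]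
  push_cast
  exact le_of_eq (by ring)

theorem z_splitG (B : ℝ) (hB : 0 ≤ B) : ∃ C : ℝ, 0 ≤ C ∧ ∀ (R : ℝ) (φ w : YX → ℝ),
    Adm B R φ w → ∀ T : ℝ, 1 ≤ T → ∀ (x0 y0 : ℝ × ℝ) (δ : ℝ), 0 ≤ δ → δ ≤ 1 →
    ∀ M : V × V → ℂ, Measurable M → (∀ q, ‖M q‖ ≤ 1) →
    (∀ q, M q ≠ 0 → NbG δ x0 y0 q) → ∀ Q : ℝ, 0 ≤ Q →
    (∀ γ d : ℝ, 0 < γ → γ ≤ 1 → 0 < d → d ≤ 1 → ‖FFg φ w T (rec γ d M)‖ ≤ Q) →
    ‖FFg φ w T M‖ ≤ C * (1 + Real.log T) ^ 2 * (Q + 1 / T) := by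
  obtain ⟨C0, hC0, h0⟩ := FFg_abs0 B hB
  refine ⟨25 * (1 + C0 * 64), by positivity,
    fun R φ w hw T hT x0 y0 δ hδ hδ1 M hM hM1 hMs Q hQ hr => ?_⟩
  have hT0 : 0 < T := by linarith
  obtain ⟨K, hK1, hK2⟩ := dy_num T hT
  have hz : ∀ q, M q ≠ 0 → |q.1.2.2| ≤ 1 ∧ |q.2.2.2| ≤ 1 := fun q hq => by
    obtain ⟨_, _, e5, e6⟩ := hMs q hq
    exact ⟨by linarith, by linarith⟩
  have hlog : 0 ≤ Real.log T := Real.log_nonneg hT
  have key : ∀ j ≤ K, ∀ k ≤ K, ‖FFg φ w T (zc K j k M)‖ ≤ (1 + C0 * 64) * (Q + 1 / T) := by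
    intro j hj k hk
    have hTinv : 0 ≤ 1 / T := by positivity
    have hbig : C0 * 64 / T ≤ (1 + C0 * 64) * (Q + 1 / T) := by
      have e1 : C0 * 64 / T = C0 * 64 * (1 / T) := by ring
      rw [e1]
      have e2 : 0 ≤ C0 * 64 * Q := by positivity
      nlinarith
    rcases lt_or_ge j K with hj' | hj'
    · rcases lt_or_ge k K with hk' | hk'
      · rw [zc_eq_rec K j k hj' hk' M hz]
        refine (hr _ _ (by positivity) (pow_le_one₀ (by norm_num) (by norm_num)) (by positivity)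
          (pow_le_one₀ (by norm_num) (by norm_num))).trans ?_
        have e2 : 0 ≤ C0 * 64 * Q := by positivity
        have e3 : 0 ≤ C0 * 64 * (1 / T) := by positivity
        nlinarith
      · refine le_trans ?_ hbig
        refine h0 R φ w hw T hT0 (zc K j k M) {q | NbG δ x0 y0 q ∧ |q.1.2.2| ≤ 1 ∧
          |q.2.2.2| ≤ (1 / 2) ^ K} (64 * 1 * (1 / 2) ^ K) 64 (zc_meas K j k M hM)
          (fun q => zc_norm K j k M 1 zero_le_one hM1 q) (fun q hq => ?_) (by positivity)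
          (vol_boxG x0 y0 δ 1 _ hδ hδ1 zero_le_one (by positivity)) ?_
        · have e1 := (zc_ne hq).2.2
          obtain ⟨_, e2, e3, _, _⟩ := zc_rect hq (hz q e1).1 (hz q e1).2
          have : k = K := le_antisymm hk hk'
          subst this
          exact ⟨hMs q e1, (hz q e1).1, e3⟩
        · calc 64 * 1 * (1 / 2 : ℝ) ^ K ≤ 64 * 1 * (1 / T ^ 2) := by gcongr
            _ = 64 / T ^ 2 := by ring
    · refine le_trans ?_ hbig
      refine h0 R φ w hw T hT0 (zc K j k M) {q | NbG δ x0 y0 q ∧ |q.1.2.2| ≤ (1 / 2) ^ K ∧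
        |q.2.2.2| ≤ 1} (64 * (1 / 2) ^ K * 1) 64 (zc_meas K j k M hM)
        (fun q => zc_norm K j k M 1 zero_le_one hM1 q) (fun q hq => ?_) (by positivity)
        (vol_boxG x0 y0 δ _ 1 hδ hδ1 (by positivity) zero_le_one) ?_
      · have e1 := (zc_ne hq).2.2
        obtain ⟨_, e2, e3, _, _⟩ := zc_rect hq (hz q e1).1 (hz q e1).2
        have : j = K := le_antisymm hj hj'
        subst this
        exact ⟨hMs q e1, e2, (hz q e1).2⟩
      · calc 64 * (1 / 2 : ℝ) ^ K * 1 ≤ 64 * (1 / T ^ 2) * 1 := by gcongr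
          _ = 64 / T ^ 2 := by ring
  have h1 := FFg_dy B R φ w hw T hT0 M hM 1 hM1 K _ key
  refine h1.trans ?_
  have h2 : ((K : ℝ) + 1) ^ 2 ≤ (5 * (1 + Real.log T)) ^ 2 := by gcongr
  calc ((K : ℝ) + 1) ^ 2 * ((1 + C0 * 64) * (Q + 1 / T)) ≤
        (5 * (1 + Real.log T)) ^ 2 * ((1 + C0 * 64) * (Q + 1 / T)) := by gcongr
    _ = 25 * (1 + C0 * 64) * (1 + Real.log T) ^ 2 * (Q + 1 / T) := by ring

/-! ### Multipliers in `N` -/

section mult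

variable (om sg : ℝ × ℝ → ℝ)

theorem px_meas : Measurable px := by
  unfold px
  fun_prop

theorem pz_meas : Measurable pz := by
  unfold pz
  fun_prop

theorem nn_meas (ho : Measurable om) (hs : Measurable sg) : Measurable (nn om sg) := by
  unfold nn
  have e1 : Measurable fun p : YX => (p.1.1, p.2.1) := by fun_prop
  have e2 : Measurable fun p : YX => (p.1.2, p.2.2) := by fun_prop
  exact (ho.comp e1).sub (hs.comp e2)

/-- The separated parts of `exp (i η N(x))`. -/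
theorem ex_nx (η : ℝ) (q : V × V) : ex (η * nn om sg (px q)) =
    ex (η * om (q.1.1, q.1.2.1)) * ex (-(η * sg (q.2.1, q.2.2.1))) := by
  unfold nn px ex
  rw [← Complex.exp_add]
  congr 1
  push_cast
  ring

theorem ex_nz (η : ℝ) (q : V × V) : ex (η * nn om sg (pz q)) =
    ex (η * om (q.1.1, q.1.2.1 - q.1.2.2)) * ex (-(η * sg (q.2.1, q.2.2.1 - q.2.2.2))) := by
  unfold nn pz ex
  rw [← Complex.exp_add]
  congr 1
  push_cast
  ring

/-- Two cut-offs in `N(x)`, `N(x - z)` in front of a product density. -/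
theorem expand_twiceG (B R : ℝ) (φ w : YX → ℝ) (hw : Adm B R φ w) (ho : Measurable om)
    (hs : Measurable sg) (T : ℝ) (hT : 0 < T) (D : ℝ) (m : ℝ → ℂ)
    (hm : FT1 D m) (hmm : Measurable m) (hm1 : ∀ x, ‖m x‖ ≤ 1) (κ : ℝ) (A₁ A₂ : V → ℂ)
    (h1 : Measurable A₁)
    (h2 : Measurable A₂) (b1 : ∀ a, ‖A₁ a‖ ≤ 1) (b2 : ∀ b, ‖A₂ b‖ ≤ 1) (K : ℝ)
    (hK : ∀ A₁' A₂' : V → ℂ, Measurable A₁' → Measurable A₂' → (∀ a, ‖A₁' a‖ ≤ 1) →
      (∀ b, ‖A₂' b‖ ≤ 1) → (∀ a, A₁' a ≠ 0 → A₁ a ≠ 0) → (∀ b, A₂' b ≠ 0 → A₂ b ≠ 0) →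
      ‖FFg φ w T (tp A₁' A₂')‖ ≤ K) :
    ‖FFg φ w T (fun q => m (nn om sg (px q) / κ) * (m (nn om sg (pz q) / κ) * tp A₁ A₂ q))‖ ≤
      D * (D * K) := by
  have htp : Measurable (tp A₁ A₂) := by
    unfold tp
    exact (h1.comp measurable_fst).mul (h2.comp measurable_snd)
  have htb : ∀ q, ‖tp A₁ A₂ q‖ ≤ 1 := fun q => by
    unfold tp
    rw [norm_mul]
    exact mul_le_one₀ (b1 _) (norm_nonneg _) (b2 _)
  have hn := nn_meas om sg ho hs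
  have hNx : Measurable fun q : V × V => nn om sg (px q) / κ := (hn.comp px_meas).div_const κ
  have hNz : Measurable fun q : V × V => nn om sg (pz q) / κ := (hn.comp pz_meas).div_const κ
  refine expandg B R φ w hw T hT D m hm (fun q => m (nn om sg (pz q) / κ) * tp A₁ A₂ q)
    ((hmm.comp hNz).mul htp) 1 (fun q => ?_) (fun q => nn om sg (px q) / κ) hNx (D * K)
    (fun η => ?_)
  · rw [norm_mul]
    exact mul_le_one₀ (hm1 _) (norm_nonneg _) (htb _)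
  · have e1 : (fun q : V × V => ex (η * (nn om sg (px q) / κ)) *
        (m (nn om sg (pz q) / κ) * tp A₁ A₂ q)) =
        fun q => m (nn om sg (pz q) / κ) * (ex (η * (nn om sg (px q) / κ)) * tp A₁ A₂ q) := by
      funext q
      ring
    rw [e1]
    have hex1 : Measurable fun q : V × V => ex (η * (nn om sg (px q) / κ)) :=
      measurable_ex.comp (measurable_const.mul hNx)
    refine expandg B R φ w hw T hT D m hm (fun q => ex (η * (nn om sg (px q) / κ)) * tp A₁ A₂ q)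
      (hex1.mul htp) 1 (fun q => ?_) (fun q => nn om sg (pz q) / κ) hNz K (fun η' => ?_)
    · rw [norm_mul, hns_norm_ex, one_mul]
      exact htb q
    · set A' : V → ℂ := fun u => ex (η' / κ * om (u.1, u.2.1 - u.2.2)) *
        (ex (η / κ * om (u.1, u.2.1)) * A₁ u) with hA'
      set B' : V → ℂ := fun v => ex (-(η' / κ * sg (v.1, v.2.1 - v.2.2))) *
        (ex (-(η / κ * sg (v.1, v.2.1))) * A₂ v) with hB'
      have e2 : (fun q : V × V => ex (η' * (nn om sg (pz q) / κ)) *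
          (ex (η * (nn om sg (px q) / κ)) * tp A₁ A₂ q)) = tp A' B' := by
        funext q
        have e3 : ex (η' * (nn om sg (pz q) / κ)) = ex (η' / κ * nn om sg (pz q)) := by ring_nf
        have e4 : ex (η * (nn om sg (px q) / κ)) = ex (η / κ * nn om sg (px q)) := by ring_nf
        rw [e3, e4, ex_nx, ex_nz]
        unfold tp
        rw [hA', hB']
        ring
      rw [e2]
      have m1 : Measurable fun u : V => (u.1, u.2.1) := by fun_prop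
      have m2 : Measurable fun u : V => (u.1, u.2.1 - u.2.2) := by fun_prop
      refine hK A' B' ?_ ?_ ?_ ?_ ?_ ?_
      · exact (measurable_ex.comp (measurable_const.mul (ho.comp m2))).mul
          ((measurable_ex.comp (measurable_const.mul (ho.comp m1))).mul h1)
      · exact (measurable_ex.comp (measurable_const.mul (hs.comp m2)).neg).mul
          ((measurable_ex.comp (measurable_const.mul (hs.comp m1)).neg).mul h2)
      · intro a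
        rw [hA', norm_mul, norm_mul, hns_norm_ex, hns_norm_ex, one_mul, one_mul]
        exact b1 a
      · intro a
        rw [hB', norm_mul, norm_mul, hns_norm_ex, hns_norm_ex, one_mul, one_mul]
        exact b2 a
      · intro a ha
        exact right_ne_zero_of_mul (right_ne_zero_of_mul ha)
      · intro a ha
        exact right_ne_zero_of_mul (right_ne_zero_of_mul ha)

/-- A multiplier in `N`. -/
noncomputable def mMg (m : ℝ → ℂ) (α β : ℝ × ℝ → ℂ) (p : YX) : ℂ := m (nn om sg p) * pd α β p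

theorem sqM_mMg (m : ℝ → ℂ) (hm : ∀ x, (starRingEnd ℂ) (m x) = m x) (α β : ℝ × ℝ → ℂ) :
    sqM (mMg om sg m α β) =
      fun q => m (nn om sg (px q)) * (m (nn om sg (pz q)) * tp (dd α) (dd β) q) := by
  rw [← sqM_pd]
  funext q
  unfold sqM mMg px pz
  simp only [map_mul, hm]
  ring

theorem measurable_mMg (ho : Measurable om) (hs : Measurable sg) (m : ℝ → ℂ) (hm : Measurable m)
    (α β : ℝ × ℝ → ℂ) (hα : Measurable α) (hβ : Measurable β) :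
    Measurable (mMg om sg m α β) := by
  unfold mMg
  exact (hm.comp (nn_meas om sg ho hs)).mul (measurable_pd α β hα hβ)

theorem mMg_norm (m : ℝ → ℂ) (hm : ∀ x, ‖m x‖ ≤ 1) (α β : ℝ × ℝ → ℂ)
    (hα : ∀ p, ‖α p‖ ≤ 1) (hβ : ∀ p, ‖β p‖ ≤ 1) (p : YX) : ‖mMg om sg m α β p‖ ≤ 1 := by
  unfold mMg
  rw [norm_mul]
  exact mul_le_one₀ (hm _) (norm_nonneg _) (pd_norm α β hα hβ p)

/-- From the form to the positive form. -/
theorem Thg_of_FFg (B R : ℝ) (φ w : YX → ℝ) (hw : Adm B R φ w) (ho : Measurable om)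
    (hs : Measurable sg) (T : ℝ) (hT : 0 < T) (m : ℝ → ℂ)
    (hmm : Measurable m) (hm1 : ∀ x, ‖m x‖ ≤ 1) (hm : ∀ x, (starRingEnd ℂ) (m x) = m x)
    (α β : ℝ × ℝ → ℂ) (hα : Measurable α) (hβ : Measurable β) (hα1 : ∀ p, ‖α p‖ ≤ 1)
    (hβ1 : ∀ p, ‖β p‖ ≤ 1) (Q : ℝ)
    (h : ‖FFg φ w T (fun q => m (nn om sg (px q)) *
      (m (nn om sg (pz q)) * tp (dd α) (dd β) q))‖ ≤ Q) :
    Thg φ w T (mMg om sg m α β) ≤ ENNReal.ofReal Q := by
  rw [Thg_eq B R φ w hw T hT _ (measurable_mMg om sg ho hs m hmm α β hα hβ)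
    (mMg_norm om sg m hm1 α β hα1 hβ1),
    sqM_mMg om sg m hm α β, ← ofReal_norm]
  exact ENNReal.ofReal_le_ofReal h

end mult

end Pool.Agent.SDT.N1G

end -- N1G.L1a

section -- N1G.L1b

/-!
N1G, block L1, part 2: the combinatorial core, case (D).
-/

namespace Pool.Agent.SDT.N1G

open MeasureTheory Set Metric Pool.Agent.SDT.MP_6cbfb8_an Pool.Agent.SDT.MST Pool.Agent.SDT.N1
  Pool.Agent.SDT.N1.MD
open scoped ENNReal Real ContDiff

/-- Rectangles with `d ≥ 2 C₄ κ ν γ`. -/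
theorem rect_a (B C3 C4 c1 : ℝ) (hB : 0 ≤ B) (hC3 : 0 ≤ C3) (hC4 : 1 ≤ C4) (hc1 : 0 < c1) :
    ∃ C : ℝ, 0 ≤ C ∧ ∀ (R : ℝ) (φ w : YX → ℝ), Adm B R φ w →
    ∀ (om sg : ℝ × ℝ → ℝ) (x0 y0 : ℝ × ℝ) (δ η ν T κ : ℝ), 0 < T → 0 < κ → κ ≤ η → 0 < ν →
    (∀ q, NbG δ x0 y0 q → |nn om sg (px q)| ≤ 2 * κ →
      |nn om sg (pz q)| ≤ 2 * κ → C4 * κ * (ν * |q.1.2.2|) ≤ |q.2.2.2| →
      c1 * |q.2.2.2| ≤ |Fg φ q|) →
    (∀ κ γ d : ℝ, 0 < κ → κ ≤ η → 0 < γ → 0 < d → volume {q : V × V | NbG δ x0 y0 q ∧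
      |nn om sg (px q)| ≤ 2 * κ ∧ |q.1.2.2| ≤ γ ∧ |q.2.2.2| ≤ d} ≤
      ENNReal.ofReal (C3 * κ * γ * d)) →
    ∀ M : V × V → ℂ, Measurable M → (∀ q, ‖M q‖ ≤ 1) →
    (∀ q, M q ≠ 0 → NbG δ x0 y0 q ∧ |nn om sg (px q)| ≤ 2 * κ ∧ |nn om sg (pz q)| ≤ 2 * κ) →
    ∀ γ d : ℝ, 0 < γ → 0 < d → 2 * C4 * (κ * (ν * γ)) ≤ d →
      ‖FFg φ w T (rec γ d M)‖ ≤ C / ν / T := by
  obtain ⟨C, hC, hF⟩ := FFg_abs2 B hB
  refine ⟨C * (2 * C3 / c1 ^ 2), by positivity,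
    fun R φ w hw om sg x0 y0 δ η ν T κ hT hκ hκη hν hE hV M hM hM1 hMs γ d hγ hd hd2 => ?_⟩
  have e0 : C * (2 * C3 / c1 ^ 2) / ν / T = C * (2 * C3 / c1 ^ 2 / ν) / T := by ring
  rw [e0]
  refine hF R φ w hw T hT (rec γ d M)
    {q | (NbG δ x0 y0 q ∧ |nn om sg (px q)| ≤ 2 * κ ∧ |q.1.2.2| ≤ γ ∧ |q.2.2.2| ≤ d) ∧
      |nn om sg (pz q)| ≤ 2 * κ ∧ d / 2 < |q.2.2.2|}
    (c1 * (d / 2)) (C3 * κ * γ * d) (2 * C3 / c1 ^ 2 / ν) (measurable_rec γ d M hM)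
    (rec_le_one γ d M hM1) (fun q hq => ?_) (by positivity) ?_ (by positivity)
    (fun q hq => ?_) (by positivity) ?_
  · obtain ⟨e1, e2, e3, e4, e5⟩ := rec_ne_zero γ d M q hq
    obtain ⟨f1, f2, f3⟩ := hMs q e1
    exact ⟨⟨f1, f2, e3, e5⟩, f3, e4⟩
  · exact (measure_mono fun q hq => hq.1).trans (hV κ γ d hκ hκη hγ hd)
  · obtain ⟨⟨e1, e2, e3, e4⟩, e5, e6⟩ := hq
    refine le_trans ?_ (hE q e1 e2 e5 ?_)
    · exact mul_le_mul_of_nonneg_left e6.le hc1.le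
    · have i1 : C4 * κ * (ν * |q.1.2.2|) ≤ C4 * κ * (ν * γ) := by gcongr
      linarith
  · have e1 : 2 * C3 / c1 ^ 2 / ν * (c1 * (d / 2)) ^ 2 = C3 / (2 * ν) * d ^ 2 := by
      field_simp
    rw [e1]
    have e2 : κ * (ν * γ) ≤ d / 2 := by
      have : 1 * (κ * (ν * γ)) ≤ C4 * (κ * (ν * γ)) := mul_le_mul_of_nonneg_right hC4 (by positivity)
      linarith
    calc C3 * κ * γ * d = C3 / ν * (κ * (ν * γ)) * d := by field_simp
      _ ≤ C3 / ν * (d / 2) * d := by gcongr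
      _ = C3 / (2 * ν) * d ^ 2 := by field_simp

/-- Rectangles with `2 C₄ d ≤ κ ν γ`, one-sided pieces. -/
theorem rect_b (B C3 C4 c1 : ℝ) (hB : 0 ≤ B) (hC3 : 0 ≤ C3) (hC4 : 1 ≤ C4) (hc1 : 0 < c1) :
    ∃ C : ℝ, 0 ≤ C ∧ ∀ (R : ℝ) (φ w : YX → ℝ), Adm B R φ w →
    ∀ (om sg : ℝ × ℝ → ℝ) (x0 y0 : ℝ × ℝ) (δ η ν T κ : ℝ), 0 < T → 0 < κ → κ ≤ η → 0 < ν →
    (∀ q, NbG δ x0 y0 q →
      ((κ / 2 ≤ nn om sg (px q) ∧ κ / 2 ≤ nn om sg (pz q)) ∨
        (nn om sg (px q) ≤ -(κ / 2) ∧ nn om sg (pz q) ≤ -(κ / 2))) →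
      C4 * |q.2.2.2| ≤ κ * (ν * |q.1.2.2|) → c1 * (κ * (ν * |q.1.2.2|)) ≤ |Fg φ q|) →
    (∀ κ γ d : ℝ, 0 < κ → κ ≤ η → 0 < γ → 0 < d → volume {q : V × V | NbG δ x0 y0 q ∧
      |nn om sg (px q)| ≤ 2 * κ ∧ |q.1.2.2| ≤ γ ∧ |q.2.2.2| ≤ d} ≤
      ENNReal.ofReal (C3 * κ * γ * d)) →
    ∀ M : V × V → ℂ, Measurable M → (∀ q, ‖M q‖ ≤ 1) →
    (∀ q, M q ≠ 0 → NbG δ x0 y0 q ∧ |nn om sg (px q)| ≤ 2 * κ ∧
      ((κ / 2 ≤ nn om sg (px q) ∧ κ / 2 ≤ nn om sg (pz q)) ∨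
        (nn om sg (px q) ≤ -(κ / 2) ∧ nn om sg (pz q) ≤ -(κ / 2)))) →
    ∀ γ d : ℝ, 0 < γ → 0 < d → 2 * C4 * d ≤ κ * (ν * γ) →
      ‖FFg φ w T (rec γ d M)‖ ≤ C / ν / T := by
  obtain ⟨C, hC, hF⟩ := FFg_abs2 B hB
  refine ⟨C * (2 * C3 / c1 ^ 2), by positivity,
    fun R φ w hw om sg x0 y0 δ η ν T κ hT hκ hκη hν hE hV M hM hM1 hMs γ d hγ hd hd2 => ?_⟩
  have e0 : C * (2 * C3 / c1 ^ 2) / ν / T = C * (2 * C3 / c1 ^ 2 / ν) / T := by ring
  rw [e0]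
  refine hF R φ w hw T hT (rec γ d M)
    {q | (NbG δ x0 y0 q ∧ |nn om sg (px q)| ≤ 2 * κ ∧ |q.1.2.2| ≤ γ ∧ |q.2.2.2| ≤ d) ∧
      ((κ / 2 ≤ nn om sg (px q) ∧ κ / 2 ≤ nn om sg (pz q)) ∨
        (nn om sg (px q) ≤ -(κ / 2) ∧ nn om sg (pz q) ≤ -(κ / 2))) ∧ γ / 2 < |q.1.2.2|}
    (c1 * (κ * (ν * (γ / 2)))) (C3 * κ * γ * d) (2 * C3 / c1 ^ 2 / ν) (measurable_rec γ d M hM)
    (rec_le_one γ d M hM1) (fun q hq => ?_) (by positivity) ?_ (by positivity)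
    (fun q hq => ?_) (by positivity) ?_
  · obtain ⟨e1, e2, e3, e4, e5⟩ := rec_ne_zero γ d M q hq
    obtain ⟨f1, f2, f3⟩ := hMs q e1
    exact ⟨⟨f1, f2, e3, e5⟩, f3, e2⟩
  · exact (measure_mono fun q hq => hq.1).trans (hV κ γ d hκ hκη hγ hd)
  · obtain ⟨⟨e1, e2, e3, e4⟩, e5, e6⟩ := hq
    refine le_trans ?_ (hE q e1 e5 ?_)
    · gcongr
    · have i1 : C4 * |q.2.2.2| ≤ C4 * d := mul_le_mul_of_nonneg_left e4 (by linarith)
      have i2 : κ * (ν * (γ / 2)) ≤ κ * (ν * |q.1.2.2|) := by gcongr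
      linarith
  · have e1 : 2 * C3 / c1 ^ 2 / ν * (c1 * (κ * (ν * (γ / 2)))) ^ 2 =
        C3 / 2 * (κ * γ) * (κ * (ν * γ)) := by
      field_simp
    rw [e1]
    have e2 : d ≤ κ * (ν * γ) / 2 := by
      have : 1 * d ≤ C4 * d := mul_le_mul_of_nonneg_right hC4 hd.le
      linarith
    calc C3 * κ * γ * d ≤ C3 * κ * γ * (κ * (ν * γ) / 2) := by gcongr
      _ = C3 / 2 * (κ * γ) * (κ * (ν * γ)) := by ring

/-- One dyadic rectangle of the last piece. -/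
theorem rect_l (B C3 C4 : ℝ) (hB : 0 ≤ B) (hC3 : 0 ≤ C3) (hC4 : 1 ≤ C4) :
    ∃ C : ℝ, 0 ≤ C ∧ ∀ (R : ℝ) (φ w : YX → ℝ), Adm B R φ w →
    ∀ (om sg : ℝ × ℝ → ℝ) (x0 y0 : ℝ × ℝ) (δ η ν T κ : ℝ), 0 < T → 0 < κ → κ ≤ η → κ ≤ 1 / T →
    0 < ν → ν ≤ 1 →
    (∀ κ γ d : ℝ, 0 < κ → κ ≤ η → 0 < γ → 0 < d → volume {q : V × V | NbG δ x0 y0 q ∧
      |nn om sg (px q)| ≤ 2 * κ ∧ |q.1.2.2| ≤ γ ∧ |q.2.2.2| ≤ d} ≤
      ENNReal.ofReal (C3 * κ * γ * d)) →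
    ∀ M : V × V → ℂ, Measurable M → (∀ q, ‖M q‖ ≤ 1) →
    (∀ q, M q ≠ 0 → NbG δ x0 y0 q ∧ |nn om sg (px q)| ≤ 2 * κ) →
    ∀ γ d : ℝ, 0 < γ → γ ≤ 1 → 0 < d → d ≤ 2 * C4 * (κ * (ν * γ)) →
      ‖FFg φ w T (rec γ d M)‖ ≤ C / T := by
  obtain ⟨C, hC, hF⟩ := FFg_abs0 B hB
  refine ⟨C * (2 * C3 * C4), by positivity, fun R φ w hw om sg x0 y0 δ η ν T κ hT hκ hκη hκT
    hν hν1 hV M hM hM1 hMs γ d hγ hγ1 hd hd2' => ?_⟩
  have hd2 : d ≤ 2 * C4 * (κ * γ) := by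
    refine hd2'.trans ?_
    have i1 : ν * γ ≤ 1 * γ := mul_le_mul_of_nonneg_right hν1 hγ.le
    have i2 : κ * (ν * γ) ≤ κ * (1 * γ) := mul_le_mul_of_nonneg_left i1 hκ.le
    rw [one_mul] at i2
    exact mul_le_mul_of_nonneg_left i2 (by linarith)
  refine hF R φ w hw T hT (rec γ d M)
    {q | NbG δ x0 y0 q ∧ |nn om sg (px q)| ≤ 2 * κ ∧ |q.1.2.2| ≤ γ ∧ |q.2.2.2| ≤ d}
    (C3 * κ * γ * d) (2 * C3 * C4) (measurable_rec γ d M hM)
    (rec_le_one γ d M hM1) (fun q hq => ?_) (by positivity) (hV κ γ d hκ hκη hγ hd) ?_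
  · obtain ⟨e1, e2, e3, e4, e5⟩ := rec_ne_zero γ d M q hq
    obtain ⟨f1, f2⟩ := hMs q e1
    exact ⟨f1, f2, e3, e5⟩
  · have e1 : κ * κ ≤ 1 / T * (1 / T) := mul_le_mul hκT hκT hκ.le (by positivity)
    calc C3 * κ * γ * d ≤ C3 * κ * γ * (2 * C4 * (κ * γ)) := by gcongr
      _ = 2 * C3 * C4 * (κ * κ) * (γ * γ) := by ring
      _ ≤ 2 * C3 * C4 * (1 / T * (1 / T)) * (1 * 1) := by gcongr
      _ = 2 * C3 * C4 / T ^ 2 := by
        field_simp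

/-- One dyadic rectangle of a one-sided piece. -/
theorem rect_m (B C0 C3 C4 c1 : ℝ) (hB : 0 ≤ B) (hC0 : 0 < C0) (hC3 : 0 ≤ C3) (hC4 : 1 ≤ C4)
    (hc1 : 0 < c1) : ∃ C : ℝ, 0 ≤ C ∧ ∀ (R : ℝ) (φ w : YX → ℝ), Adm B R φ w →
    ∀ om sg : ℝ × ℝ → ℝ, Measurable om → Measurable sg →
    ∀ (x0 y0 : ℝ × ℝ) (δ η μ ν Cm T κ : ℝ),
    0 < δ → δ ≤ 1 → 0 < T → 0 < κ → κ ≤ η → 0 ≤ μ → 0 < ν → ν ≤ 1 → 1 / ν ≤ Cm →
    (∀ q, NbG δ x0 y0 q →
      μ * |q.1.2.2| ≤ C0 * (|nn om sg (px q)| + |nn om sg (pz q)| + |q.2.2.2|)) →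
    (∀ κ q, 0 < κ → κ ≤ η → NbG δ x0 y0 q → |nn om sg (px q)| ≤ 2 * κ →
      |nn om sg (pz q)| ≤ 2 * κ → C4 * κ * (ν * |q.1.2.2|) ≤ |q.2.2.2| →
      c1 * |q.2.2.2| ≤ |Fg φ q|) →
    (∀ κ q, 0 < κ → κ ≤ η → NbG δ x0 y0 q →
      ((κ / 2 ≤ nn om sg (px q) ∧ κ / 2 ≤ nn om sg (pz q)) ∨
        (nn om sg (px q) ≤ -(κ / 2) ∧ nn om sg (pz q) ≤ -(κ / 2))) →
      C4 * |q.2.2.2| ≤ κ * (ν * |q.1.2.2|) → c1 * (κ * (ν * |q.1.2.2|)) ≤ |Fg φ q|) →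
    (∀ κ γ d : ℝ, 0 < κ → κ ≤ η → 0 < γ → 0 < d → volume {q : V × V | NbG δ x0 y0 q ∧
      |nn om sg (px q)| ≤ 2 * κ ∧ |q.1.2.2| ≤ γ ∧ |q.2.2.2| ≤ d} ≤
      ENNReal.ofReal (C3 * κ * γ * d)) →
    (∀ κ γ d : ℝ, 0 < κ → κ ≤ η → 0 < γ → γ ≤ 2 * δ → 0 < d → μ * γ ≤ C0 * (8 + 8 * C4) * κ →
      κ * (ν * γ) ≤ 2 * C4 * d → d ≤ 2 * C4 * (κ * (ν * γ)) → ∀ A₁ A₂ : V → ℂ, Measurable A₁ →
      Measurable A₂ → (∀ u, ‖A₁ u‖ ≤ 1) → (∀ u, ‖A₂ u‖ ≤ 1) → Sp δ y0.1 x0.1 γ A₁ →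
      Sp δ y0.2 x0.2 d A₂ → ‖FFg φ w T (tp A₁ A₂)‖ ≤ Cm / T) →
    ∀ s : ℝ, s = 1 ∨ s = -1 → ∀ A₁ A₂ : V → ℂ,
    Measurable A₁ → Measurable A₂ → (∀ a, ‖A₁ a‖ ≤ 1) → (∀ b, ‖A₂ b‖ ≤ 1) →
    (∀ u, A₁ u ≠ 0 → |u.1 - y0.1| ≤ δ ∧ |u.2.1 - x0.1| ≤ δ ∧ |u.2.1 - u.2.2 - x0.1| ≤ δ ∧
      |u.2.2| ≤ δ) →
    (∀ v, A₂ v ≠ 0 → |v.1 - y0.2| ≤ δ ∧ |v.2.1 - x0.2| ≤ δ ∧ |v.2.1 - v.2.2 - x0.2| ≤ δ ∧
      |v.2.2| ≤ δ) →
    ∀ γ d : ℝ, 0 < γ → γ ≤ 1 → 0 < d →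
    ‖FFg φ w T (rec γ d (fun q => mp s (nn om sg (px q) / κ) *
      (mp s (nn om sg (pz q) / κ) * tp A₁ A₂ q)))‖ ≤ C * Cm / T := by
  obtain ⟨Ca, hCa, hra⟩ := rect_a B C3 C4 c1 hB hC3 hC4 hc1
  obtain ⟨Cb, hCb, hrb⟩ := rect_b B C3 C4 c1 hB hC3 hC4 hc1
  obtain ⟨B1, hB1, hft1⟩ := FT1_mp 1 one_ne_zero
  obtain ⟨B2, hB2, hft2⟩ := FT1_mp (-1) (by norm_num)
  refine ⟨Ca + Cb + B1 * B1 + B2 * B2, by positivity,
    fun R φ w hw om sg ho hsg x0 y0 δ η μ ν Cm T κ hδ hδ1 hT hκ hκη hμ hν hν1 hνC hE0 hE2a hE2b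
    hV hMn s hs A₁ A₂ hA1 hA2 b1 b2 s1 s2 γ d hγ hγ1 hd => ?_⟩
  have hνi : 0 < 1 / ν := by positivity
  have hCm : 0 ≤ Cm := by linarith
  have k2 : 0 ≤ B1 * B1 * Cm := by positivity
  have k3 : 0 ≤ B2 * B2 * Cm := by positivity
  have k4 : 0 ≤ Ca * Cm := by positivity
  have k5 : 0 ≤ Cb * Cm := by positivity
  set M : V × V → ℂ := fun q => mp s (nn om sg (px q) / κ) *
    (mp s (nn om sg (pz q) / κ) * tp A₁ A₂ q) with hM
  have htp : Measurable (tp A₁ A₂) := by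
    unfold tp
    exact (hA1.comp measurable_fst).mul (hA2.comp measurable_snd)
  have hn := nn_meas om sg ho hsg
  have hMm : Measurable M := by
    refine ((measurable_mp s).comp ((hn.comp px_meas).div_const κ)).mul
      (((measurable_mp s).comp ((hn.comp pz_meas).div_const κ)).mul htp)
  have hM1 : ∀ q, ‖M q‖ ≤ 1 := fun q => by
    rw [hM, norm_mul, norm_mul]
    unfold tp
    rw [norm_mul]
    exact mul_le_one₀ (mp_norm _ _) (by positivity) (mul_le_one₀ (mp_norm _ _) (by positivity)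
      (mul_le_one₀ (b1 _) (norm_nonneg _) (b2 _)))
  have hMs : ∀ q, M q ≠ 0 → NbG δ x0 y0 q ∧ mp s (nn om sg (px q) / κ) ≠ 0 ∧
      mp s (nn om sg (pz q) / κ) ≠ 0 := by
    intro q hq
    have e1 := left_ne_zero_of_mul hq
    have e2 := left_ne_zero_of_mul (right_ne_zero_of_mul hq)
    have e3 : tp A₁ A₂ q ≠ 0 := right_ne_zero_of_mul (right_ne_zero_of_mul hq)
    obtain ⟨f1, f2, f3, f3'⟩ := s1 q.1 (left_ne_zero_of_mul e3)
    obtain ⟨f4, f5, f6, f6'⟩ := s2 q.2 (right_ne_zero_of_mul e3)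
    exact ⟨⟨⟨f1, f4, f2, f5⟩, ⟨f1, f4, f3, f6⟩, f3', f6'⟩, e1, e2⟩
  have fin : ∀ D : ℝ, D ≤ Ca * Cm + Cb * Cm + B1 * B1 * Cm + B2 * B2 * Cm →
      ‖FFg φ w T (rec γ d M)‖ ≤ D / T →
      ‖FFg φ w T (rec γ d M)‖ ≤ (Ca + Cb + B1 * B1 + B2 * B2) * Cm / T := by
    intro D hD h
    refine h.trans ?_
    gcongr
    linarith
  have hdν : ∀ x : ℝ, 0 ≤ x → x / ν ≤ x * Cm := fun x hx => by
    have := mul_le_mul_of_nonneg_left hνC hx
    rwa [mul_one_div] at this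
  have two : ∀ q, M q ≠ 0 → NbG δ x0 y0 q ∧ |nn om sg (px q)| ≤ 2 * κ ∧
      |nn om sg (pz q)| ≤ 2 * κ := fun q hq => by
    obtain ⟨e1, e2, e3⟩ := hMs q hq
    exact ⟨e1, (mp_ne_zero s _ κ hs hκ e2).1, (mp_ne_zero s _ κ hs hκ e3).1⟩
  rcases le_or_gt (2 * C4 * (κ * (ν * γ))) d with h1 | h1
  · exact fin (Ca / ν) (by linarith [hdν Ca hCa]) (hra R φ w hw om sg x0 y0 δ η ν T κ hT hκ hκη hν
      (fun q => hE2a κ q hκ hκη) hV M hMm hM1 two γ d hγ hd h1)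
  · rcases le_or_gt (2 * C4 * d) (κ * (ν * γ)) with h2 | h2
    · refine fin (Cb / ν) (by linarith [hdν Cb hCb]) (hrb R φ w hw om sg x0 y0 δ η ν T κ hT hκ hκη
        hν (fun q => hE2b κ q hκ hκη) hV M hMm hM1 (fun q hq => ?_) γ d hγ hd h2)
      obtain ⟨e1, f2, f3⟩ := hMs q hq
      obtain ⟨g1, g2⟩ := mp_ne_zero s _ κ hs hκ f2
      obtain ⟨g3, g4⟩ := mp_ne_zero s _ κ hs hκ f3
      refine ⟨e1, g1, ?_⟩
      rcases hs with rfl | rfl
      · rcases g2 with g2 | g2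
        · rcases g4 with g4 | g4
          · exact Or.inl ⟨g2.2, g4.2⟩
          · norm_num at g4
        · norm_num at g2
      · rcases g2 with g2 | g2
        · norm_num at g2
        · rcases g4 with g4 | g4
          · norm_num at g4
          · exact Or.inr ⟨g2.2, g4.2⟩
    · -- MAIN, unless the density vanishes
      by_cases h0 : ∃ q, rec γ d M q ≠ 0
      · obtain ⟨q, hq⟩ := h0
        obtain ⟨e1, e2, e3, e4, e5⟩ := rec_ne_zero γ d M q hq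
        obtain ⟨f1, f2, f3⟩ := two q e1
        have hγδ : γ ≤ 2 * δ := by
          have := f1.2.2.1
          linarith
        have hμγ : μ * γ ≤ C0 * (8 + 8 * C4) * κ := by
          have i1 := hE0 q f1
          have i2 : μ * γ ≤ 2 * (μ * |q.1.2.2|) := by
            have := mul_le_mul_of_nonneg_left e2.le hμ
            linarith
          have i3 : |q.2.2.2| ≤ 2 * C4 * κ := by
            have i4 : ν * γ ≤ 1 := mul_le_one₀ hν1 hγ.le hγ1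
            have i4 : 2 * C4 * (κ * (ν * γ)) ≤ 2 * C4 * (κ * 1) := by gcongr
            linarith
          have i5 : C0 * (|nn om sg (px q)| + |nn om sg (pz q)| + |q.2.2.2|) ≤
              C0 * (2 * κ + 2 * κ + 2 * C4 * κ) := by gcongr
          have i6 : 0 ≤ C0 * (C4 * κ) := by positivity
          calc μ * γ ≤ 2 * (C0 * (2 * κ + 2 * κ + 2 * C4 * κ)) := by linarith
            _ = C0 * (8 + 4 * C4) * κ := by ring
            _ ≤ C0 * (8 + 8 * C4) * κ := by nlinarith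
        have key : ∀ D : ℝ, 0 ≤ D → FT1 D (mp s) → ‖FFg φ w T (rec γ d M)‖ ≤
            D * D * Cm / T := by
          intro D hD hft
          rw [hM, rec_eq_rc]
          have h6 := expand_twiceG om sg B R φ w hw ho hsg T hT D (mp s) hft (measurable_mp s)
            (mp_norm s) κ (rc γ A₁) (rc d A₂) (measurable_rc γ _ hA1) (measurable_rc d _ hA2)
            (rc_le_one γ _ b1) (rc_le_one d _ b2) (Cm / T)
            (fun A₁' A₂' c1 c2 c3 c4 c5 c6 => by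
              refine hMn κ γ d hκ hκη hγ hγδ hd hμγ h2.le h1.le A₁' A₂' c1 c2 c3 c4
                (fun u hu => ?_) (fun v hv => ?_)
              · obtain ⟨e1, e2, e3⟩ := rc_ne_zero γ A₁ u (c5 u hu)
                obtain ⟨f1, f2, f3, _⟩ := s1 u e1
                exact ⟨f1, f2, f3, e2, e3⟩
              · obtain ⟨e1, e2, e3⟩ := rc_ne_zero d A₂ v (c6 v hv)
                obtain ⟨f1, f2, f3, _⟩ := s2 v e1
                exact ⟨f1, f2, f3, e2, e3⟩)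
          refine h6.trans (le_of_eq ?_)
          ring
        rcases hs with rfl | rfl
        · exact fin _ (by linarith) (key B1 hB1 hft1)
        · exact fin _ (by linarith) (key B2 hB2 hft2)
      · push Not at h0
        rw [FFg_zero φ w T _ h0, norm_zero]
        positivity

end Pool.Agent.SDT.N1G

end -- N1G.L1b

section -- N1G.L1c

/-!
N1G, block L1, part 3: the combinatorial core, case (D), assembly.
-/

namespace Pool.Agent.SDT.N1G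

open MeasureTheory Set Metric Pool.Agent.SDT.MP_6cbfb8_an Pool.Agent.SDT.MST Pool.Agent.SDT.N1
  Pool.Agent.SDT.N1.MD
open scoped ENNReal Real ContDiff

theorem dd_suppG {α : ℝ × ℝ → ℂ} {y x δ : ℝ}
    (h : ∀ p, α p ≠ 0 → |p.1 - y| ≤ δ / 2 ∧ |p.2 - x| ≤ δ / 2) (hδ : 0 ≤ δ) (u : V)
    (hu : dd α u ≠ 0) :
    |u.1 - y| ≤ δ ∧ |u.2.1 - x| ≤ δ ∧ |u.2.1 - u.2.2 - x| ≤ δ ∧ |u.2.2| ≤ δ := by
  have h' : ∀ p : ℝ × ℝ, α p ≠ 0 → |p.1 / 1 - y| ≤ δ / 2 ∧ |p.2 - x| ≤ δ / 2 := fun p hp => by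
    rw [div_one]
    exact h p hp
  obtain ⟨a1, a2, a3, a4⟩ := dd_supp h' u hu
  rw [div_one] at a1
  exact ⟨by linarith, by linarith, by linarith, by linarith⟩

/-- The combinatorial core, case (D). The case `ν = 1` is the isotropic one. -/
theorem coreD (B C0 C3 C4 c1 : ℝ) (hB : 0 ≤ B) (hC0 : 0 < C0) (hC3 : 0 ≤ C3) (hC4 : 1 ≤ C4)
    (hc1 : 0 < c1) : ∃ C : ℝ, 0 ≤ C ∧ ∀ (R : ℝ) (φ w : YX → ℝ), Adm B R φ w →
    ∀ om sg : ℝ × ℝ → ℝ, Measurable om → Measurable sg →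
    ∀ (x0 y0 : ℝ × ℝ) (δ η μ ν Cm T : ℝ),
    0 < δ → δ ≤ 1 → 0 < η → η ≤ 1 → 0 ≤ μ → 0 < ν → ν ≤ 1 → 1 / ν ≤ Cm → 1 ≤ T →
    (∀ p, Bx δ x0 y0 p → |nn om sg p| ≤ η) →
    (∀ q, NbG δ x0 y0 q →
      μ * |q.1.2.2| ≤ C0 * (|nn om sg (px q)| + |nn om sg (pz q)| + |q.2.2.2|)) →
    (∀ κ q, 0 < κ → κ ≤ η → NbG δ x0 y0 q → |nn om sg (px q)| ≤ 2 * κ →
      |nn om sg (pz q)| ≤ 2 * κ → C4 * κ * (ν * |q.1.2.2|) ≤ |q.2.2.2| →
      c1 * |q.2.2.2| ≤ |Fg φ q|) →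
    (∀ κ q, 0 < κ → κ ≤ η → NbG δ x0 y0 q →
      ((κ / 2 ≤ nn om sg (px q) ∧ κ / 2 ≤ nn om sg (pz q)) ∨
        (nn om sg (px q) ≤ -(κ / 2) ∧ nn om sg (pz q) ≤ -(κ / 2))) →
      C4 * |q.2.2.2| ≤ κ * (ν * |q.1.2.2|) → c1 * (κ * (ν * |q.1.2.2|)) ≤ |Fg φ q|) →
    (∀ κ γ d : ℝ, 0 < κ → κ ≤ η → 0 < γ → 0 < d → volume {q : V × V | NbG δ x0 y0 q ∧
      |nn om sg (px q)| ≤ 2 * κ ∧ |q.1.2.2| ≤ γ ∧ |q.2.2.2| ≤ d} ≤
      ENNReal.ofReal (C3 * κ * γ * d)) →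
    (∀ κ γ d : ℝ, 0 < κ → κ ≤ η → 0 < γ → γ ≤ 2 * δ → 0 < d → μ * γ ≤ C0 * (8 + 8 * C4) * κ →
      κ * (ν * γ) ≤ 2 * C4 * d → d ≤ 2 * C4 * (κ * (ν * γ)) → ∀ A₁ A₂ : V → ℂ, Measurable A₁ →
      Measurable A₂ → (∀ u, ‖A₁ u‖ ≤ 1) → (∀ u, ‖A₂ u‖ ≤ 1) → Sp δ y0.1 x0.1 γ A₁ →
      Sp δ y0.2 x0.2 d A₂ → ‖FFg φ w T (tp A₁ A₂)‖ ≤ Cm / T) →
    ∀ α β : ℝ × ℝ → ℂ, Measurable α → Measurable β → (∀ p, ‖α p‖ ≤ 1) → (∀ p, ‖β p‖ ≤ 1) →
      (∀ p, α p ≠ 0 → |p.1 - y0.1| ≤ δ / 2 ∧ |p.2 - x0.1| ≤ δ / 2) →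
      (∀ p, β p ≠ 0 → |p.1 - y0.2| ≤ δ / 2 ∧ |p.2 - x0.2| ≤ δ / 2) →
      Thg φ w T (pd α β) ≤ ENNReal.ofReal (C * Cm * (1 + Real.log T) ^ 4 / T) := by
  classical
  obtain ⟨Cr, hCr, hrm⟩ := rect_m B C0 C3 C4 c1 hB hC0 hC3 hC4 hc1
  obtain ⟨Ca, hCa, hra⟩ := rect_a B C3 C4 c1 hB hC3 hC4 hc1
  obtain ⟨Cl, hCl, hrl⟩ := rect_l B C3 C4 hB hC3 hC4
  obtain ⟨CZ, hCZ, hz⟩ := z_splitG B hB
  refine ⟨100 * (CZ * (Cr + Ca + Cl + 1)), by positivity,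
    fun R φ w hw om sg ho hsg x0 y0 δ η μ ν Cm T hδ hδ1 hη hη1 hμ hν hν1 hνC hT hsmall hE0 hE2a
    hE2b hV hMn α β hα hβ hα1 hβ1 hαs hβs => ?_⟩
  have hT0 : 0 < T := by linarith
  have hCm1 : 1 ≤ Cm := by
    have : 1 ≤ 1 / ν := by
      rw [le_div_iff₀ hν]
      linarith
    linarith
  have hCm : 0 ≤ Cm := by linarith
  have hlog : 0 ≤ Real.log T := Real.log_nonneg hT
  obtain ⟨J, hJ1, hJ2⟩ := dy_num T hT
  set Q : ℝ := CZ * (1 + Real.log T) ^ 2 * ((Cr + Ca + Cl + 1) * Cm / T) with hQ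
  have hQ0 : 0 ≤ Q := by positivity
  -- the supports
  have hNb : ∀ q : V × V, tp (dd α) (dd β) q ≠ 0 → NbG δ x0 y0 q := by
    intro q hq
    unfold tp at hq
    obtain ⟨a1, a2, a3, a4⟩ := dd_suppG hαs hδ.le q.1 (left_ne_zero_of_mul hq)
    obtain ⟨b1, b2, b3, b4⟩ := dd_suppG hβs hδ.le q.2 (right_ne_zero_of_mul hq)
    exact ⟨⟨a1, b1, a2, b2⟩, ⟨a1, b1, a3, b3⟩, a4, b4⟩
  have hddm := dd_meas α hα
  have hddm' := dd_meas β hβ
  have hdd1 := dd_norm α hα1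
  have hdd1' := dd_norm β hβ1
  have htpm : Measurable (tp (dd α) (dd β)) := by
    unfold tp
    exact (hddm.comp measurable_fst).mul (hddm'.comp measurable_snd)
  have htp1 : ∀ q, ‖tp (dd α) (dd β) q‖ ≤ 1 := fun q => by
    unfold tp
    rw [norm_mul]
    exact mul_le_one₀ (hdd1 _) (norm_nonneg _) (hdd1' _)
  have hn := nn_meas om sg ho hsg
  have hMm : ∀ m : ℝ → ℂ, Measurable m →
      Measurable fun q => m (nn om sg (px q)) * (m (nn om sg (pz q)) * tp (dd α) (dd β) q) :=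
    fun m hm => (hm.comp (hn.comp px_meas)).mul ((hm.comp (hn.comp pz_meas)).mul htpm)
  have hMb : ∀ m : ℝ → ℂ, (∀ x, ‖m x‖ ≤ 1) →
      ∀ q, ‖m (nn om sg (px q)) * (m (nn om sg (pz q)) * tp (dd α) (dd β) q)‖ ≤ 1 :=
    fun m hm q => by
    rw [norm_mul, norm_mul]
    exact mul_le_one₀ (hm _) (by positivity) (mul_le_one₀ (hm _) (norm_nonneg _) (htp1 _))
  have k1 : 0 ≤ Cr * Cm := by positivity
  have k2 : 0 ≤ Ca * Cm := by positivity
  have k3 : 0 ≤ Cl * Cm := by positivity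
  have k4 : Cl ≤ Cl * Cm := le_mul_of_one_le_right hCl hCm1
  have k5 : Ca / ν ≤ Ca * Cm := by
    have := mul_le_mul_of_nonneg_left hνC hCa
    rwa [mul_one_div] at this
  have hQm : CZ * (1 + Real.log T) ^ 2 * (Cr * Cm / T + 1 / T) ≤ Q := by
    rw [hQ, ← add_div]
    gcongr
    linarith
  have hQt : CZ * (1 + Real.log T) ^ 2 * ((Ca * Cm + Cl * Cm) / T + 1 / T) ≤ Q := by
    rw [hQ, ← add_div]
    gcongr
    linarith
  -- one-sided pieces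
  have hP1 : ∀ s : ℝ, s = 1 ∨ s = -1 → ∀ κ : ℝ, 0 < κ → κ ≤ η →
      Thg φ w T (mMg om sg (fun x => mp s (x / κ)) α β) ≤ ENNReal.ofReal Q := by
    intro s hs κ hκ hκη
    have hm1 : Measurable fun x : ℝ => mp s (x / κ) :=
      (measurable_mp s).comp (measurable_id.div_const κ)
    refine Thg_of_FFg om sg B R φ w hw ho hsg T hT0 _ hm1 (fun x => mp_norm s _) (fun x => ?_)
      α β hα hβ hα1 hβ1 Q ?_
    · unfold mp
      exact Complex.conj_ofReal _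
    · refine (hz R φ w hw T hT x0 y0 δ hδ.le hδ1
        (fun q => mp s (nn om sg (px q) / κ) *
          (mp s (nn om sg (pz q) / κ) * tp (dd α) (dd β) q))
        (hMm (fun x => mp s (x / κ)) hm1) (hMb (fun x => mp s (x / κ)) fun x => mp_norm s _)
        (fun q hq => ?_) (Cr * Cm / T) (by positivity) (fun γ d hγ hγ1 hd _ => ?_)).trans hQm
      · exact hNb q (right_ne_zero_of_mul (right_ne_zero_of_mul hq))
      · exact hrm R φ w hw om sg ho hsg x0 y0 δ η μ ν Cm T κ hδ hδ1 hT0 hκ hκη hμ hν hν1 hνC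
          hE0 hE2a hE2b hV
          hMn s hs (dd α) (dd β) hddm hddm' hdd1 hdd1' (fun u hu => dd_suppG hαs hδ.le u hu)
          (fun v hv => dd_suppG hβs hδ.le v hv) γ d hγ hγ1 hd
  -- the last piece
  have hP2 : Thg φ w T (mMg om sg (fun x => tq (x / (η / 2 ^ J))) α β) ≤ ENNReal.ofReal Q := by
    set κ : ℝ := η / 2 ^ J with hκdef
    have hκ : 0 < κ := by positivity
    have h2J : (1 : ℝ) ≤ 2 ^ J := one_le_pow₀ (by norm_num)
    have hκη : κ ≤ η := div_le_self hη.le h2J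
    have hκT : κ ≤ 1 / T := by
      have e1 : (1 : ℝ) / T ^ 2 ≤ 1 / T := by
        apply one_div_le_one_div_of_le hT0
        nlinarith
      calc κ = η * (1 / 2) ^ J := by rw [hκdef, one_div, inv_pow]; rfl
        _ ≤ 1 * (1 / T ^ 2) := by gcongr
        _ ≤ 1 / T := by rw [one_mul]; exact e1
    have hm1 : Measurable fun x : ℝ => tq (x / κ) :=
      measurable_tq.comp (measurable_id.div_const κ)
    refine Thg_of_FFg om sg B R φ w hw ho hsg T hT0 _ hm1 (fun x => tq_norm _) (fun x => ?_)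
      α β hα hβ hα1 hβ1 Q ?_
    · unfold tq
      exact Complex.conj_ofReal _
    · refine (hz R φ w hw T hT x0 y0 δ hδ.le hδ1
        (fun q => tq (nn om sg (px q) / κ) * (tq (nn om sg (pz q) / κ) * tp (dd α) (dd β) q))
        (hMm (fun x => tq (x / κ)) hm1) (hMb (fun x => tq (x / κ)) fun x => tq_norm _)
        (fun q hq => ?_) ((Ca * Cm + Cl * Cm) / T) (by positivity)
        (fun γ d hγ hγ1 hd _ => ?_)).trans hQt
      · exact hNb q (right_ne_zero_of_mul (right_ne_zero_of_mul hq))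
      · have hs3 : ∀ q, tq (nn om sg (px q) / κ) *
            (tq (nn om sg (pz q) / κ) * tp (dd α) (dd β) q) ≠ 0 →
            NbG δ x0 y0 q ∧ |nn om sg (px q)| ≤ 2 * κ ∧ |nn om sg (pz q)| ≤ 2 * κ := fun q hq =>
          ⟨hNb q (right_ne_zero_of_mul (right_ne_zero_of_mul hq)),
            tq_ne_zero _ κ hκ (left_ne_zero_of_mul hq),
            tq_ne_zero _ κ hκ (left_ne_zero_of_mul (right_ne_zero_of_mul hq))⟩
        rcases le_or_gt (2 * C4 * (κ * (ν * γ))) d with h1 | h1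
        · refine (hra R φ w hw om sg x0 y0 δ η ν T κ hT0 hκ hκη hν (fun q => hE2a κ q hκ hκη) hV
            (fun q => tq (nn om sg (px q) / κ) *
              (tq (nn om sg (pz q) / κ) * tp (dd α) (dd β) q))
            (hMm (fun x => tq (x / κ)) hm1) (hMb (fun x => tq (x / κ)) fun x => tq_norm _)
            hs3 γ d hγ hd h1).trans ?_
          gcongr
          linarith
        · refine (hrl R φ w hw om sg x0 y0 δ η ν T κ hT0 hκ hκη hκT hν hν1 hV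
            (fun q => tq (nn om sg (px q) / κ) *
              (tq (nn om sg (pz q) / κ) * tp (dd α) (dd β) q))
            (hMm (fun x => tq (x / κ)) hm1) (hMb (fun x => tq (x / κ)) fun x => tq_norm _)
            (fun q hq => ⟨(hs3 q hq).1, (hs3 q hq).2.1⟩) γ d hγ hγ1 hd h1.le).trans ?_
          gcongr
          linarith
  -- the decomposition
  set mul : ℕ → ℝ → ℂ := fun i x => if i < J then mp 1 (x / (η / 2 ^ i)) else
    if i < J + J then mp (-1) (x / (η / 2 ^ (i - J))) else tq (x / (η / 2 ^ J)) with hmul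
  have hκi : ∀ i : ℕ, 0 < η / 2 ^ i ∧ η / 2 ^ i ≤ η := fun i =>
    ⟨by positivity, div_le_self hη.le (one_le_pow₀ (by norm_num))⟩
  have hpiece : ∀ i : ℕ, Thg φ w T (mMg om sg (mul i) α β) ≤ ENNReal.ofReal Q := by
    intro i
    by_cases hi : i < J
    · have e1 : mul i = fun x => mp 1 (x / (η / 2 ^ i)) := by
        funext x
        rw [hmul]
        simp only [if_pos hi]
      rw [e1]
      exact hP1 1 (Or.inl rfl) _ (hκi i).1 (hκi i).2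
    · by_cases hi2 : i < J + J
      · have e1 : mul i = fun x => mp (-1) (x / (η / 2 ^ (i - J))) := by
          funext x
          rw [hmul]
          simp only [if_neg hi, if_pos hi2]
        rw [e1]
        exact hP1 (-1) (Or.inr rfl) _ (hκi _).1 (hκi _).2
      · have e1 : mul i = fun x => tq (x / (η / 2 ^ J)) := by
          funext x
          rw [hmul]
          simp only [if_neg hi, if_neg hi2]
        rw [e1]
        exact hP2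
  have hmulm : ∀ i, Measurable (mul i) := by
    intro i
    rw [hmul]
    simp only
    split_ifs
    · exact (measurable_mp 1).comp (measurable_id.div_const _)
    · exact (measurable_mp (-1)).comp (measurable_id.div_const _)
    · exact measurable_tq.comp (measurable_id.div_const _)
  have hmuln : ∀ i x, ‖mul i x‖ ≤ 1 := by
    intro i x
    rw [hmul]
    simp only
    split_ifs
    · exact mp_norm _ _
    · exact mp_norm _ _
    · exact tq_norm _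
  have hsum : pd α β = fun p => ∑ i : Fin (J + J + 1), mMg om sg (mul i) α β p := by
    funext p
    by_cases hp : pd α β p = 0
    · rw [hp]
      refine (Finset.sum_eq_zero fun i _ => ?_).symm
      unfold mMg
      rw [hp, mul_zero]
    · unfold mMg
      rw [← Finset.sum_mul]
      have hp' : α (p.1.1, p.2.1) * β (p.1.2, p.2.2) ≠ 0 := hp
      obtain ⟨a1, a2⟩ := hαs _ (left_ne_zero_of_mul hp')
      obtain ⟨b1, b2⟩ := hβs _ (right_ne_zero_of_mul hp')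
      simp only at a1 a2 b1 b2
      set x : ℝ := nn om sg p with hxdef
      have hxη : |x| ≤ η := hsmall p ⟨by linarith, by linarith, by linarith, by linarith⟩
      have hxη' : |x / η| ≤ 1 := by
        rw [abs_div, abs_of_pos hη, div_le_one hη]
        exact hxη
      have hs := mpl_sum J (x / η) hxη'
      have hdiv : ∀ j : ℕ, x / (η / 2 ^ j) = 2 ^ j * (x / η) := fun j => by
        field_simp
      have e2 : (∑ i : Fin (J + J + 1), mul i x) = 1 := by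
        rw [Fin.sum_univ_eq_sum_range (fun i => mul i x) (J + J + 1), Finset.sum_range_succ,
          Finset.sum_range_add]
        have f1 : ∀ i ∈ Finset.range J, mul i x = ((mpl (2 ^ i * (x / η)) : ℝ) : ℂ) := by
          intro i hi
          rw [hmul]
          simp only [if_pos (Finset.mem_range.1 hi)]
          unfold mp
          rw [one_mul, hdiv]
        have f2 : ∀ i ∈ Finset.range J,
            mul (J + i) x = ((mpl (-(2 ^ i * (x / η))) : ℝ) : ℂ) := by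
          intro i hi
          have g1 : ¬ J + i < J := by omega
          have g2 : J + i < J + J := by
            have := Finset.mem_range.1 hi
            omega
          rw [hmul]
          simp only [if_neg g1, if_pos g2]
          unfold mp
          rw [Nat.add_sub_cancel_left, hdiv, neg_one_mul]
        have f3 : mul (J + J) x = ((th (2 ^ J * (x / η)) : ℝ) : ℂ) := by
          have g1 : ¬ J + J < J := by omega
          have g2 : ¬ J + J < J + J := by omega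
          rw [hmul]
          simp only [if_neg g1, if_neg g2]
          unfold tq
          rw [hdiv]
        rw [Finset.sum_congr rfl f1, Finset.sum_congr rfl f2, f3]
        exact_mod_cast hs
      rw [e2, one_mul]
  rw [hsum]
  refine (Thg_sum B R φ w hw T hT0 (J + J + 1)
    (fun i : Fin (J + J + 1) => mMg om sg (mul i) α β)
    (fun i => measurable_mMg om sg ho hsg _ (hmulm i) α β hα hβ) 1
    (fun i => mMg_norm om sg _ (hmuln i) α β hα1 hβ1)).trans ?_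
  have h5 : (∑ i : Fin (J + J + 1), Thg φ w T (mMg om sg (mul i) α β)) ≤
      ((J + J + 1 : ℕ) : ℝ≥0∞) * ENNReal.ofReal Q := by
    refine (Finset.sum_le_card_nsmul (Finset.univ : Finset (Fin (J + J + 1)))
      (fun i : Fin (J + J + 1) => Thg φ w T (mMg om sg (mul i) α β)) (ENNReal.ofReal Q)
      fun i _ => hpiece i).trans ?_
    rw [Finset.card_univ, Fintype.card_fin, nsmul_eq_mul]
  have h6 : ∀ (n : ℕ) (x : ℝ), (n : ℝ≥0∞) * ((n : ℝ≥0∞) * ENNReal.ofReal x) =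
      ENNReal.ofReal ((n : ℝ) * ((n : ℝ) * x)) := by
    intro n x
    rw [ENNReal.ofReal_mul (Nat.cast_nonneg n), ENNReal.ofReal_mul (Nat.cast_nonneg n),
      ENNReal.ofReal_natCast]
  refine (mul_le_mul_right h5 _).trans ?_
  rw [h6]
  apply ENNReal.ofReal_le_ofReal
  have hJ3 : ((J + J + 1 : ℕ) : ℝ) ≤ 10 * (1 + Real.log T) := by
    push_cast
    linarith
  calc ((J + J + 1 : ℕ) : ℝ) * (((J + J + 1 : ℕ) : ℝ) * Q) ≤
        (10 * (1 + Real.log T)) * ((10 * (1 + Real.log T)) * Q) := by gcongr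
    _ = 100 * (CZ * (Cr + Ca + Cl + 1)) * Cm * (1 + Real.log T) ^ 4 / T := by
        rw [hQ]
        ring

/-- The combinatorial core, case (N). The case `ν = 1` is the isotropic one. -/
theorem coreN (B C4 c1 : ℝ) (hB : 0 ≤ B) (hC4 : 1 ≤ C4) (hc1 : 0 < c1) :
    ∃ C : ℝ, 0 ≤ C ∧ ∀ (R : ℝ) (φ w : YX → ℝ), Adm B R φ w →
    ∀ (x0 y0 : ℝ × ℝ) (δ ν Cm T : ℝ), 0 < δ → δ ≤ 1 → 0 < ν → ν ≤ 1 → 1 / ν ≤ Cm → 1 ≤ T →
    (∀ q, NbG δ x0 y0 q →
      (C4 * (ν * |q.1.2.2|) ≤ |q.2.2.2| ∨ C4 * |q.2.2.2| ≤ ν * |q.1.2.2|) →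
      c1 * (ν * |q.1.2.2| + |q.2.2.2|) ≤ |Fg φ q|) →
    (∀ γ d : ℝ, 0 < γ → γ ≤ 2 * δ → 0 < d → ν * γ ≤ 2 * C4 * d → d ≤ 2 * C4 * (ν * γ) →
      ∀ A₁ A₂ : V → ℂ, Measurable A₁ →
      Measurable A₂ → (∀ u, ‖A₁ u‖ ≤ 1) → (∀ u, ‖A₂ u‖ ≤ 1) → Sp δ y0.1 x0.1 γ A₁ →
      Sp δ y0.2 x0.2 d A₂ → ‖FFg φ w T (tp A₁ A₂)‖ ≤ Cm / T) →
    ∀ α β : ℝ × ℝ → ℂ, Measurable α → Measurable β → (∀ p, ‖α p‖ ≤ 1) → (∀ p, ‖β p‖ ≤ 1) →
      (∀ p, α p ≠ 0 → |p.1 - y0.1| ≤ δ / 2 ∧ |p.2 - x0.1| ≤ δ / 2) →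
      (∀ p, β p ≠ 0 → |p.1 - y0.2| ≤ δ / 2 ∧ |p.2 - x0.2| ≤ δ / 2) →
      Thg φ w T (pd α β) ≤ ENNReal.ofReal (C * Cm * (1 + Real.log T) ^ 4 / T) := by
  obtain ⟨Ca, hCa, hF⟩ := FFg_abs2 B hB
  obtain ⟨CZ, hCZ, hz⟩ := z_splitG B hB
  set Cx : ℝ := Ca * (64 * (4 / c1 ^ 2)) with hCx
  have hCx0 : 0 ≤ Cx := by positivity
  refine ⟨CZ * (Cx + 1 + 1), by positivity,
    fun R φ w hw x0 y0 δ ν Cm T hδ hδ1 hν hν1 hνC hT hE hMn α β hα hβ hα1 hβ1 hαs hβs => ?_⟩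
  have hT0 : 0 < T := by linarith
  have hCm1 : 1 ≤ Cm := by
    have : 1 ≤ 1 / ν := by
      rw [le_div_iff₀ hν]
      linarith
    linarith
  have hCm : 0 ≤ Cm := by linarith
  have k5 : Cx / ν ≤ Cx * Cm := by
    have := mul_le_mul_of_nonneg_left hνC hCx0
    rwa [mul_one_div] at this
  have hlog : 0 ≤ Real.log T := Real.log_nonneg hT
  have hNb : ∀ q : V × V, tp (dd α) (dd β) q ≠ 0 → NbG δ x0 y0 q := by
    intro q hq
    unfold tp at hq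
    obtain ⟨a1, a2, a3, a4⟩ := dd_suppG hαs hδ.le q.1 (left_ne_zero_of_mul hq)
    obtain ⟨b1, b2, b3, b4⟩ := dd_suppG hβs hδ.le q.2 (right_ne_zero_of_mul hq)
    exact ⟨⟨a1, b1, a2, b2⟩, ⟨a1, b1, a3, b3⟩, a4, b4⟩
  have hddm := dd_meas α hα
  have hddm' := dd_meas β hβ
  have hdd1 := dd_norm α hα1
  have hdd1' := dd_norm β hβ1
  have htpm : Measurable (tp (dd α) (dd β)) := by
    unfold tp
    exact (hddm.comp measurable_fst).mul (hddm'.comp measurable_snd)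
  have htp1 : ∀ q, ‖tp (dd α) (dd β) q‖ ≤ 1 := fun q => by
    unfold tp
    rw [norm_mul]
    exact mul_le_one₀ (hdd1 _) (norm_nonneg _) (hdd1' _)
  rw [Thg_eq B R φ w hw T hT0 _ (measurable_pd α β hα hβ) (pd_norm α β hα1 hβ1), sqM_pd,
    ← ofReal_norm]
  apply ENNReal.ofReal_le_ofReal
  have h1 := hz R φ w hw T hT x0 y0 δ hδ.le hδ1 (tp (dd α) (dd β)) htpm htp1 hNb
    ((Cx * Cm + Cm) / T)
    (by positivity) (fun γ d hγ hγ1 hd _ => ?_)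
  · refine h1.trans ?_
    have h2 : (1 : ℝ) ≤ 1 + Real.log T := by linarith
    have h3 : (1 + Real.log T) ^ 2 ≤ (1 + Real.log T) ^ 4 :=
      pow_le_pow_right₀ h2 (by norm_num)
    calc CZ * (1 + Real.log T) ^ 2 * ((Cx * Cm + Cm) / T + 1 / T) =
          CZ * (1 + Real.log T) ^ 2 * ((Cx * Cm + Cm + 1) / T) := by ring
      _ ≤ CZ * (1 + Real.log T) ^ 4 * ((Cx * Cm + Cm + Cm) / T) := by gcongr
      _ = CZ * (Cx + 1 + 1) * Cm * (1 + Real.log T) ^ 4 / T := by ring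
  · by_cases hcomp : ν * γ ≤ 2 * C4 * d ∧ d ≤ 2 * C4 * (ν * γ)
    · by_cases h0 : ∃ q, rec γ d (tp (dd α) (dd β)) q ≠ 0
      · obtain ⟨q, hq⟩ := h0
        obtain ⟨e1, e2, e3, e4, e5⟩ := rec_ne_zero γ d _ q hq
        have hγδ : γ ≤ 2 * δ := by
          have := (hNb q e1).2.2.1
          linarith
        have e6 : rec γ d (tp (dd α) (dd β)) = tp (rc γ (dd α)) (rc d (dd β)) := by
          have := rec_eq_rc γ d (fun _ => 1) (fun _ => 1) (dd α) (dd β)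
          simpa only [one_mul] using this
        rw [e6]
        refine (hMn γ d hγ hγδ hd hcomp.1 hcomp.2 _ _ (measurable_rc γ _ hddm)
          (measurable_rc d _ hddm') (rc_le_one γ _ hdd1) (rc_le_one d _ hdd1')
          (fun u hu => ?_) (fun v hv => ?_)).trans ?_
        · obtain ⟨f1, f2, f3⟩ := rc_ne_zero γ _ u hu
          obtain ⟨a1, a2, a3, _⟩ := dd_suppG hαs hδ.le u f1
          exact ⟨a1, a2, a3, f2, f3⟩
        · obtain ⟨f1, f2, f3⟩ := rc_ne_zero d _ v hv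
          obtain ⟨a1, a2, a3, _⟩ := dd_suppG hβs hδ.le v f1
          exact ⟨a1, a2, a3, f2, f3⟩
        · gcongr
          linarith [mul_nonneg hCx0 hCm]
      · push Not at h0
        rw [FFg_zero φ w T _ h0, norm_zero]
        positivity
    · -- one of the two sizes dominates
      have hνγ : 0 < ν * γ := by positivity
      have hm0 : 0 < max (ν * γ) d := lt_max_of_lt_left hνγ
      have hCxe : Cx / ν = Ca * (64 * (4 / c1 ^ 2) / ν) := by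
        rw [hCx]
        ring
      refine (hF R φ w hw T hT0 (rec γ d (tp (dd α) (dd β)))
        {q | (NbG δ x0 y0 q ∧ |q.1.2.2| ≤ γ ∧ |q.2.2.2| ≤ d) ∧ γ / 2 < |q.1.2.2| ∧
          d / 2 < |q.2.2.2|}
        (c1 * (max (ν * γ) d / 2)) (64 * γ * d) (64 * (4 / c1 ^ 2) / ν) (measurable_rec γ d _ htpm)
        (rec_le_one γ d _ htp1) (fun q hq => ?_) (by positivity) ?_ (by positivity)
        (fun q hq => ?_) (by positivity) ?_).trans ?_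
      · obtain ⟨e1, e2, e3, e4, e5⟩ := rec_ne_zero γ d _ q hq
        exact ⟨⟨hNb q e1, e3, e5⟩, e2, e4⟩
      · exact (measure_mono fun q hq => hq.1).trans
          (vol_boxG x0 y0 δ γ d hδ.le hδ1 hγ.le hd.le)
      · obtain ⟨⟨e1, e2, e3⟩, e4, e5⟩ := hq
        have hC4' : 0 < C4 := by linarith
        have e2' : ν * |q.1.2.2| ≤ ν * γ := mul_le_mul_of_nonneg_left e2 hν.le
        have e4' : ν * (γ / 2) ≤ ν * |q.1.2.2| := mul_le_mul_of_nonneg_left e4.le hν.le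
        have e6 : 0 ≤ ν * |q.1.2.2| := by positivity
        refine le_trans ?_ (hE q e1 ?_)
        · refine mul_le_mul_of_nonneg_left ?_ hc1.le
          rcases le_total (ν * γ) d with h | h
          · rw [max_eq_right h]
            linarith
          · rw [max_eq_left h]
            linarith [abs_nonneg q.2.2.2]
        · rw [not_and_or] at hcomp
          rcases hcomp with h | h
          · right
            push Not at h
            have i1 : C4 * |q.2.2.2| ≤ C4 * d := mul_le_mul_of_nonneg_left e3 hC4'.le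
            linarith
          · left
            push Not at h
            have i1 : C4 * (ν * |q.1.2.2|) ≤ C4 * (ν * γ) := mul_le_mul_of_nonneg_left e2' hC4'.le
            linarith
      · have e1 : 64 * (4 / c1 ^ 2) / ν * (c1 * (max (ν * γ) d / 2)) ^ 2 =
            64 / ν * (max (ν * γ) d * max (ν * γ) d) := by
          field_simp
          try ring
        rw [e1]
        have e2 : (ν * γ) * d ≤ max (ν * γ) d * max (ν * γ) d :=
          mul_le_mul (le_max_left _ _) (le_max_right _ _) hd.le hm0.le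
        calc 64 * γ * d = 64 / ν * ((ν * γ) * d) := by field_simp
          _ ≤ 64 / ν * (max (ν * γ) d * max (ν * γ) d) := by gcongr
      · rw [← hCxe]
        gcongr
        linarith

end Pool.Agent.SDT.N1G

end -- N1G.L1c
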