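import Pool.Agent.SDT.B41
import Pool.Agent.SDT.B42
import Pool.Agent.SDT.B45
import Pool.Agent.SDT.B60

set_option autoImplicit false

namespace Pool.Agent.SDT.MP_6cbfb8_an
end Pool.Agent.SDT.MP_6cbfb8_an
namespace Pool.Agent.SDT.MST
end Pool.Agent.SDT.MST
namespace Pool.Agent.SDT.N1
end Pool.Agent.SDT.N1
namespace Pool.Agent.SDT.N1F
end Pool.Agent.SDT.N1F
namespace Pool.Agent.SDT.N1G
end Pool.Agent.SDT.N1G

section -- N1M.I3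

/-!
N1M, Proposition I: the form in scaled variables and the oscillatory estimate near a base point.
-/

namespace Pool.Agent.SDT.N1M

open MeasureTheory Set Metric Pool.Agent.SDT.MP_6cbfb8_an Pool.Agent.SDT.MST Pool.Agent.SDT.N1
open Pool.Agent.SDT.N1F Pool.Agent.SDT.N1G
open scoped ENNReal Real ContDiff Topology

/-- The four-linear form in scaled variables. -/
theorem FM_nf (c m' T : ℝ) (hT : 0 < T) (s1 s2 s3 t1 t2 t3 : ℝ) (hs1 : 0 < s1) (hs2 : 0 < s2)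
    (hs3 : 0 < s3) (ht1 : 0 < t1) (ht2 : 0 < t2) (ht3 : 0 < t3) (A B : V → ℂ) (m : ℝ)
    (Ef Ff Wf : V × V → ℝ)
    (h : ∀ a b, A (Sc3 s1 s2 s3 a) ≠ 0 → B (Sc3 t1 t2 t3 b) ≠ 0 → Ef (a, b) ≠ 0 ∧
      FrM c m' (Sc3 s1 s2 s3 a, Sc3 t1 t2 t3 b) = m * (Ef (a, b) * Ff (a, b)) ∧
      Wg (dam (wm c m')) (Sc3 s1 s2 s3 a, Sc3 t1 t2 t3 b) = Wf (a, b)) :
    FM c m' T (tp A B) = (((s1 * s2 * s3) * (t1 * t2 * t3) * T : ℝ) : ℂ) *
      ∫ q : V × V, A (Sc3 s1 s2 s3 q.1) * B (Sc3 t1 t2 t3 q.2) * ∫ s : ℝ,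
        ((Wf q * (chi (s / Ef q) / |Ef q|) : ℝ) : ℂ) * ex (T * m * (s * Ff q)) := by
  unfold FM FFg
  rw [integral_scale3 _ s1 s2 s3 t1 t2 t3 hs1 hs2 hs3 ht1 ht2 ht3, Complex.ofReal_mul _ T,
    mul_assoc _ ((T : ℝ) : ℂ), ← integral_const_mul ((T : ℝ) : ℂ)]
  congr 1
  refine integral_congr_ae (Filter.Eventually.of_forall fun q => ?_)
  simp only [tp]
  by_cases hq : A (Sc3 s1 s2 s3 q.1) = 0
  · rw [hq]; simp
  by_cases hq' : B (Sc3 t1 t2 t3 q.2) = 0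
  · rw [hq']; simp
  obtain ⟨h1, h2, h3⟩ := h q.1 q.2 hq hq'
  unfold FrM at h2
  rw [Kt_scale T _ (Ef q) (Ff q) hT h1 m h2, h3]
  have h5 : ∀ s : ℝ, ((Wf q * (chi (s / Ef q) / |Ef q|) : ℝ) : ℂ) *
      ex (T * m * (s * Ff q)) = ((Wf q : ℝ) : ℂ) * (((chi (s / Ef q) / |Ef q| : ℝ) : ℂ) *
        ex (T * m * (s * Ff q))) := by
    intro s
    rw [Complex.ofReal_mul]
    ring
  simp only [h5]
  rw [integral_const_mul]
  ring

/-- The amplitude in scaled variables. -/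
noncomputable def WM (c : ℝ) (x : P7 × V × V) : ℝ :=
  sma c (1 - x.1 0 * Xi false false (prA x) ^ 2 - sM (x.1 1) (Wi false false (prB x))) *
    sma c (1 - x.1 0 * Xi true false (prA x) ^ 2 - sM (x.1 1) (Wi true false (prB x))) *
    (sma c (1 - x.1 0 * Xi false true (prA x) ^ 2 - sM (x.1 1) (Wi false true (prB x))) *
    sma c (1 - x.1 0 * Xi true true (prA x) ^ 2 - sM (x.1 1) (Wi true true (prB x))))

/-- The amplitude. -/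
noncomputable def amI (c : ℝ) (Ef : P7 × V × V → ℝ) (x : ℝ × P7 × V × V) : ℝ :=
  WM c x.2 * (chi (x.1 / Ef x.2) / |Ef x.2|)

lemma amI_smooth (c : ℝ) (hc : 0 < c) (Ef : P7 × V × V → ℝ) (S : Set (P7 × V × V))
    (hE : ContDiffOn ℝ ∞ Ef S) (hE0 : ∀ x ∈ S, Ef x ≠ 0) :
    ContDiffOn ℝ ∞ (amI c Ef) (univ ×ˢ S) := by
  have h1 : ContDiffOn ℝ ∞ (fun x : ℝ × P7 × V × V => Ef x.2) (univ ×ˢ S) :=
    hE.comp contDiff_snd.contDiffOn (fun x hx => hx.2)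
  have hs := sma_smooth c hc
  have hk : ∀ e f : Bool, ContDiff ℝ ∞ fun x : P7 × V × V =>
      sma c (1 - x.1 0 * Xi e f (prA x) ^ 2 - sM (x.1 1) (Wi e f (prB x))) := fun e f =>
    hs.comp ((contDiff_const.sub ((pi_cd 0).mul ((XA_cd e f).pow 2))).sub
      (contDiff_iff_contDiffAt.2 fun x => sM_cd (pi_cd 1).contDiffAt (WB_cd e f).contDiffAt))
  have h2 : ContDiff ℝ ∞ (fun x : ℝ × P7 × V × V => WM c x.2) := by
    have : ContDiff ℝ ∞ (WM c) := ((hk _ _).mul (hk _ _)).mul ((hk _ _).mul (hk _ _))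
    exact this.comp contDiff_snd
  have h4 : ContDiffOn ℝ ∞ (fun x : ℝ × P7 × V × V => chi (x.1 / Ef x.2)) (univ ×ˢ S) :=
    chi_smooth.comp_contDiffOn (contDiff_fst.contDiffOn.div h1 (fun x hx => hE0 _ hx.2))
  have h5 : ContDiffOn ℝ ∞ (fun x : ℝ × P7 × V × V => |Ef x.2|) (univ ×ˢ S) := by
    intro x hx
    exact (contDiffAt_abs (hE0 _ hx.2)).comp_contDiffWithinAt x (h1 x hx)
  exact h2.contDiffOn.mul (h4.div h5 (fun x hx => abs_ne_zero.2 (hE0 _ hx.2)))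

lemma amI_supp (c : ℝ) (Ef : P7 × V × V → ℝ) (e0 e1 s : ℝ) (q : P7 × V × V)
    (he0 : 0 < e0) (h0 : e0 ≤ |Ef q|) (h1 : |Ef q| ≤ e1) (h : amI c Ef (s, q) ≠ 0) :
    e0 / 2 ≤ |s| ∧ |s| ≤ 3 * e1 := by
  have hchi : chi (s / Ef q) ≠ 0 := by
    intro h2
    apply h
    unfold amI
    simp only
    rw [h2, zero_div, mul_zero]
  obtain ⟨g1, g2⟩ := chi_zero _ hchi
  have hE : 0 < |Ef q| := lt_of_lt_of_le he0 h0
  have h3 : |s| = |s / Ef q| * |Ef q| := by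
    rw [abs_div]
    field_simp
  have h4 : |s / Ef q| = s / Ef q := abs_of_nonneg (by linarith)
  rw [h4] at h3
  rw [h3]
  constructor
  · nlinarith
  · nlinarith

/-- Values of the pair amplitude. -/
lemma wm_eq (c m : ℝ) (x : ℝ × ℝ) (h0 : 0 ≤ x.2) (h8 : x.2 ≤ 8) :
    wm c m x = sma c (hm m x.2 - x.1 ^ 2) := by
  unfold wm
  rw [if_pos ⟨h0, h8⟩]

lemma baseM_ok (c : ℝ) (hc : 0 < c) (hc1 : c ≤ 1) (m0 k : ℝ) (x0 y0 z0 : ℝ × ℝ)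
    (hb : Bm m0 x0) :
    okI4 c (pI 0 m0 0 0 0 0 k, ((y0.1, x0.1, z0.1) : V), ((y0.2, x0.2, z0.2) : V)) := by
  obtain ⟨h1, h2, h3, h4, h5, h6, h7⟩ := hb
  have hc2 : c ^ 2 / 8 < 1 / 4 := by nlinarith
  have hX : ∀ e f, Xi e f (prA ((pI 0 m0 0 0 0 0 k, ((y0.1, x0.1, z0.1) : V),
      ((y0.2, x0.2, z0.2) : V)) : P7 × V × V)) = x0.1 := fun e f => Xi_diag e f _ rfl rfl
  have hW : ∀ e f, Wi e f (prB ((pI 0 m0 0 0 0 0 k, ((y0.1, x0.1, z0.1) : V),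
      ((y0.2, x0.2, z0.2) : V)) : P7 × V × V)) = x0.2 := fun e f => Wi_diag e f _ rfl rfl
  refine ⟨?_, ?_, ?_⟩
  · unfold okA4
    rw [hX]
    show 0 < 1 - m0 * (0 * x0.1 ^ 2)
    rw [zero_mul, mul_zero, sub_zero]
    exact one_pos
  · intro e f
    rw [hW]
    show c ^ 2 / 8 < 1 - 0 - sM m0 x0.2
    unfold sM
    linarith
  · intro e f e' f'
    rw [hX, hW]
    show c ^ 2 / 8 < 1 - 0 * x0.1 ^ 2 - sM m0 x0.2
    unfold sM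
    rw [zero_mul]
    linarith

lemma W_ev (x : P7 × V × V) (h : ∀ e f : Bool, 0 < Wi e f (prB x) ∧ Wi e f (prB x) < 8) :
    ∀ᶠ y in 𝓝 x, ∀ e f : Bool, 0 < Wi e f (prB y) ∧ Wi e f (prB y) < 8 := by
  rw [Filter.eventually_all]
  intro e
  rw [Filter.eventually_all]
  intro f
  have h1 : ContinuousAt (fun y : P7 × V × V => Wi e f (prB y)) x :=
    (WB_cd e f).continuous.continuousAt
  filter_upwards [h1.eventually (lt_mem_nhds (h e f).1), h1.eventually (gt_mem_nhds (h e f).2)]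
    with y h2 h3
  exact ⟨h2, h3⟩

/-- The oscillatory estimate near a base point. -/
theorem M1_loc (c : ℝ) (hc : 0 < c) (hc1 : c ≤ 1) (m0 : ℝ) (x0 y0 z0 : ℝ × ℝ) (hb : Bm m0 x0)
    (hy1 : y0.1 ≠ 0) (hy2 : y0.2 ≠ 0) (hz1 : z0.1 ≠ 0) (hz2 : z0.2 ≠ 0) (k1 : ℝ) (hk1 : 0 ≤ k1) :
    ∃ r : ℝ, 0 < r ∧ ∃ g : P7 × V × V → ℝ,
    (∀ x ∈ ball ((pI 0 m0 0 0 0 0 k1, (y0.1, x0.1, z0.1), (y0.2, x0.2, z0.2)) : P7 × V × V) r,
      okI4 c x ∧ ∀ e f : Bool, 0 < Wi e f (prB x) ∧ Wi e f (prB x) < 8) ∧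
    (∀ x ∈ ball ((pI 0 m0 0 0 0 0 k1, (y0.1, x0.1, z0.1), (y0.2, x0.2, z0.2)) : P7 × V × V) r,
      ∀ κ₂ : ℝ, x.1 0 = x.1 6 * κ₂ →
        M11 c x + M22 c x + x.1 6 * M12 c x + κ₂ * M21 c x =
          -(UM c x * (omM (prA x) - sgM c (prB x) + x.1 6 * (alM (prA x) * beM c (prB x)) +
            κ₂ * g x))) ∧
    ∃ δ : ℝ, 0 < δ ∧ ∃ C : ℝ, 0 ≤ C ∧ ∀ p ∈ ball (pI 0 m0 0 0 0 0 k1) δ, ∀ κ ε lam : ℝ,
      0 < κ → κ ≤ 1 → 0 < ε → ε ≤ 1 → (ε < δ ∨ κ < δ) → 0 < lam →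
      ∀ A B : V → ℂ, Measurable A → Measurable B → (∀ a, ‖A a‖ ≤ 1) → (∀ b, ‖B b‖ ≤ 1) →
      (∀ a, A a ≠ 0 → a ∈ ball ((y0.1, x0.1, z0.1) : V) δ) →
      (∀ b, B b ≠ 0 → b ∈ ball ((y0.2, x0.2, z0.2) : V) δ) →
      ‖∫ q : V × V, A q.1 * B q.2 * ∫ s : ℝ,
        ((amI c (fun x => -UM c x) (s, p, q.1, q.2) : ℝ) : ℂ) *
        ex (lam * (s * (omM (p, q.1) - sgM c (p, q.2) + κ * ((k1 + 1) * alM (p, q.1) *
          beM c (p, q.2) + ε * ((k1 + 1) * g (p, q.1, q.2))))))‖ ≤ C / (lam ^ 2 * κ * √ε) := by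
  have hok := baseM_ok c hc hc1 m0 k1 x0 y0 z0 hb
  obtain ⟨hm0, hm1, hx1, hx2, hx3, hx4, hx5⟩ := hb
  set a0 : V := (y0.1, x0.1, z0.1) with ha0
  set b0 : V := (y0.2, x0.2, z0.2) with hb0
  set p0 : P7 := pI 0 m0 0 0 0 0 k1 with hp0
  have q0 : p0 0 = 0 := rfl
  have q1 : p0 1 = m0 := rfl
  have q2 : p0 2 = 0 := rfl
  have q3 : p0 3 = 0 := rfl
  have q4 : p0 4 = 0 := rfl
  have q5 : p0 5 = 0 := rfl
  obtain ⟨r0, hr0, g, hg, hgok, hgid, hgb⟩ := nfM c hc hc1 p0 a0 b0 hok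
  -- the unit near the base point
  set Ef : P7 × V × V → ℝ := fun x => -UM c x with hEf
  set e : ℝ := UM c (p0, a0, b0) with he
  have he0 : 0 < e := UM_pos c hc _ hok
  have hEc : ContinuousAt (UM c) (p0, a0, b0) := (UM_cd c hc _ hok).continuousAt
  have hWb : ∀ e f : Bool, 0 < Wi e f (prB ((p0, a0, b0) : P7 × V × V)) ∧
      Wi e f (prB ((p0, a0, b0) : P7 × V × V)) < 8 := by
    intro e f
    rw [Wi_diag e f (prB ((p0, a0, b0) : P7 × V × V)) rfl rfl]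
    show 0 < x0.2 ∧ x0.2 < 8
    exact ⟨hx2, by linarith⟩
  have ev : ∀ᶠ x in 𝓝 (p0, a0, b0), (e / 2 ≤ UM c x ∧ UM c x ≤ 2 * e) ∧
      ∀ e f : Bool, 0 < Wi e f (prB x) ∧ Wi e f (prB x) < 8 := by
    filter_upwards [hEc.eventually (lt_mem_nhds (show e / 2 < e by linarith)),
      hEc.eventually (gt_mem_nhds (show e < 2 * e by linarith)), W_ev _ hWb] with x d2 d3 d4
    exact ⟨⟨d2.le, d3.le⟩, d4⟩
  obtain ⟨r', hr', hball⟩ := g_ball ev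
  set r : ℝ := min r0 r' with hr
  have hrp : 0 < r := lt_min hr0 hr'
  have B1 : ∀ x ∈ ball (p0, a0, b0) r, okI4 c x := fun x hx =>
    hgok x (ball_subset_ball (min_le_left _ _) hx)
  have B2 : ∀ x ∈ ball (p0, a0, b0) r, e / 2 ≤ UM c x ∧ UM c x ≤ 2 * e := fun x hx =>
    (hball x (ball_subset_ball (min_le_right _ _) hx)).1
  have B3 : ∀ x ∈ ball (p0, a0, b0) r, ∀ e f : Bool, 0 < Wi e f (prB x) ∧ Wi e f (prB x) < 8 :=
    fun x hx => (hball x (ball_subset_ball (min_le_right _ _) hx)).2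
  have BA : ∀ x : P7 × V, x ∈ ball (p0, a0) r → okA4 x := by
    intro x hx
    have h1 : ((x.1, x.2, b0) : P7 × V × V) ∈ ball (p0, a0, b0) r := by
      rw [mem_ball, Prod.dist_eq, max_lt_iff] at hx
      rw [mem_ball, Prod.dist_eq, Prod.dist_eq]
      exact max_lt hx.1 (max_lt hx.2 (by rw [dist_self]; exact hrp))
    exact (B1 _ h1).1
  have BB : ∀ x : P7 × V, x ∈ ball (p0, b0) r → okB4 c x := by
    intro x hx
    have h1 : ((x.1, a0, x.2) : P7 × V × V) ∈ ball (p0, a0, b0) r := by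
      rw [mem_ball, Prod.dist_eq, max_lt_iff] at hx
      rw [mem_ball, Prod.dist_eq, Prod.dist_eq]
      exact max_lt hx.1 (max_lt (by rw [dist_self]; exact hrp) hx.2)
    exact (B1 _ h1).2.1
  have hhm : hm m0 b0.2.1 ≠ 0 := by
    show hm m0 x0.2 ≠ 0
    linarith
  have hbm : bm m0 b0.2.1 ≠ 0 := by
    show bm m0 x0.2 ≠ 0
    linarith
  have evB : ∀ᶠ b in 𝓝 b0, okB4 c (p0, b) := by
    have h2 : Filter.Tendsto (fun b : V => (p0, b)) (𝓝 b0) (𝓝 (p0, b0)) :=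
      (by fun_prop : Continuous fun b : V => (p0, b)).tendsto b0
    exact h2.eventually (okB4_ev c _ hok.2.1)
  have hXp : ∀ (e f : Bool) (a : V), Xi e f (p0, a) = a.2.1 := fun e f a =>
    Xi_diag e f (p0, a) rfl rfl
  have hD0 : ∀ a : V, 1 - (0 : ℝ) * a.2.1 ^ 2 = 1 := by
    intro a
    ring
  have ew : (fun a => omM (p0, a)) = f0 0 := by
    funext a
    unfold omM f0
    rw [hXp]
    show a.1 * a.2.2 / (1 - m0 * (0 * a.2.1 ^ 2)) = a.1 * a.2.2 / (1 - 0 * a.2.1 ^ 2)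
    rw [zero_mul, mul_zero]
  have el : (fun a => (k1 + 1) * alM (p0, a)) = fun a => (2 * (k1 + 1)) * N1F.f1 0 a := by
    funext a
    unfold alM N1F.f1
    rw [hXp, hXp]
    show (k1 + 1) * (a.1 * (a.2.1 + a.2.1) / (1 - m0 * (0 * a.2.1 ^ 2))) =
      2 * (k1 + 1) * (a.2.1 * a.1 / (1 - 0 * a.2.1 ^ 2))
    rw [zero_mul, mul_zero, sub_zero, div_one, div_one]
    ring
  have es : (fun b => sgM c (p0, b)) =ᶠ[𝓝 b0] fun b => -F0 m0 b := by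
    filter_upwards [evB] with b h
    exact sgM_base c hc (p0, b) h q4 q5
  have em : (fun b => beM c (p0, b)) =ᶠ[𝓝 b0] fun b => -(1 / 2 * F2 m0 b) := by
    filter_upwards [evB] with b h
    exact beM_base c hc (p0, b) h q4 q5
  have hk1' : 2 * (k1 + 1) ≠ 0 := by positivity
  have hk1'' : k1 + 1 ≠ 0 := by positivity
  have hne : ∀ x ∈ ball (p0, a0, b0) r, Ef x ≠ 0 := by
    intro x hx
    have := (B2 x hx).1
    have h2 : 0 < UM c x := by linarith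
    exact neg_ne_zero.2 h2.ne'
  have hcs : ∀ s, ∀ q ∈ ball (p0, a0, b0) r, amI c Ef (s, q) ≠ 0 → e / 2 / 2 ≤ |s| ∧
      |s| ≤ 3 * (2 * e) := by
    intro s q hq h
    have h1 := B2 q hq
    have h2 : |Ef q| = UM c q := by
      show |-UM c q| = UM c q
      rw [abs_neg, abs_of_pos (by linarith)]
    exact amI_supp c Ef (e / 2) (2 * e) s q (by linarith) (by rw [h2]; exact h1.1)
      (by rw [h2]; exact h1.2) h
  have hg0 : ∀ᶠ q in 𝓝 (a0, b0), (k1 + 1) * g (p0, q.1, q.2) =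
      ((k1 + 1) * f2 0 q.1) * (-F1 m0 q.2) := by
    have h2 : Filter.Tendsto (fun q : V × V => ((p0, q.1, q.2) : P7 × V × V)) (𝓝 (a0, b0))
        (𝓝 (p0, a0, b0)) :=
      (by fun_prop : Continuous fun q : V × V => ((p0, q.1, q.2) : P7 × V × V)).tendsto (a0, b0)
    filter_upwards [h2.eventually (ball_mem_nhds _ hr0)] with q hq
    rw [hgb _ hq q2 q3 q4 q5]
    unfold f2
    show (k1 + 1) * (q.1.2.1 * q.1.2.2 / (1 - m0 * (0 * q.1.2.1 ^ 2)) * -F1 m0 q.2) =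
      (k1 + 1) * (q.1.2.1 * q.1.2.2 / (1 - 0 * q.1.2.1 ^ 2)) * -F1 m0 q.2
    rw [zero_mul, mul_zero]
    ring
  have hDne : (1 : ℝ) - 0 * a0.2.1 ^ 2 ≠ 0 := by
    rw [hD0]
    exact one_ne_zero
  have d1 : DifferentiableAt ℝ (N1F.f1 0) a0 := f1_diff 0 a0 hDne
  have d2 : DifferentiableAt ℝ (f2 0) a0 := f2_diff 0 a0 hDne
  have ha : ∀ u, fderiv ℝ (fun a => omM (p0, a)) a0 u = 0 →
      fderiv ℝ (fun a => (k1 + 1) * alM (p0, a)) a0 u = 0 →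
      fderiv ℝ (fun a => (k1 + 1) * f2 0 a) a0 u = 0 → u = 0 := by
    intro u h1 h2 h3
    rw [ew] at h1
    rw [el, fderiv_const_mul d1] at h2
    rw [fderiv_const_mul d2] at h3
    rw [smul_apply, smul_eq_mul] at h2 h3
    exact f_indep 0 a0 u hDne hy1 hx1.ne' hz1 h1 ((mul_eq_zero.1 h2).resolve_left hk1')
      ((mul_eq_zero.1 h3).resolve_left hk1'')
  have hF1d : DifferentiableAt ℝ (F1 m0) b0 := F1_diff m0 b0 hhm
  have hF2d : DifferentiableAt ℝ (F2 m0) b0 := F2_diff m0 b0 hhm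
  have hb' : ∀ u, fderiv ℝ (fun b => sgM c (p0, b)) b0 u = 0 →
      fderiv ℝ (fun b => beM c (p0, b)) b0 u = 0 →
      fderiv ℝ (fun b => -F1 m0 b) b0 u = 0 → u = 0 := by
    intro u h1 h2 h3
    rw [es.fderiv_eq, fderiv_fun_neg, neg_apply, neg_eq_zero] at h1
    rw [em.fderiv_eq, fderiv_fun_neg, neg_apply, neg_eq_zero, fderiv_const_mul hF2d,
      smul_apply, smul_eq_mul] at h2
    rw [fderiv_fun_neg, neg_apply, neg_eq_zero] at h3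
    exact F_indep m0 b0 u hhm hy2 hbm hz2 h1 h3
      ((mul_eq_zero.1 h2).resolve_left (by norm_num))
  have h1 : fderiv ℝ (fun a => omM (p0, a)) a0 (1, 0, 0) ≠ 0 := by
    rw [ew, f0_fd 0 a0 _ hDne]
    refine div_ne_zero ?_ (pow_ne_zero 2 hDne)
    intro h
    apply hz1
    show a0.2.2 = 0
    simp only at h
    linear_combination h
  have h2 : fderiv ℝ (fun b => sgM c (p0, b)) b0 (1, 0, 0) ≠ 0 := by
    rw [es.fderiv_eq, fderiv_fun_neg, neg_apply, F0_fd m0 b0 _ hhm,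
      neg_ne_zero]
    refine div_ne_zero ?_ (pow_ne_zero 2 hhm)
    have : z0.2 * hm m0 b0.2.1 ≠ 0 := mul_ne_zero hz2 hhm
    intro h
    apply this
    show b0.2.2 * hm m0 b0.2.1 = 0
    simp only at h
    linear_combination h
  refine ⟨r, hrp, g, fun x hx => ⟨B1 x hx, B3 x hx⟩, fun x hx => hgid x (ball_subset_ball (min_le_left _ _) hx), ?_⟩
  have hamI : ContDiffOn ℝ ∞ (amI c Ef) (univ ×ˢ ball (p0, a0, b0) r) :=
    amI_smooth c hc _ _ (fun x hx => ((UM_cd c hc x (B1 x hx)).neg).contDiffWithinAt) hne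
  have hwd : ContDiffOn ℝ ∞ omM (ball (p0, a0) r) :=
    fun x hx => (omM_cd x (BA x hx)).contDiffWithinAt
  have hld : ContDiffOn ℝ ∞ (fun x => (k1 + 1) * alM x) (ball (p0, a0) r) :=
    fun x hx => (contDiffAt_const.mul (alM_cd x (BA x hx))).contDiffWithinAt
  have hsd : ContDiffOn ℝ ∞ (sgM c) (ball (p0, b0) r) :=
    fun x hx => (sgM_cd c hc x (BB x hx)).contDiffWithinAt
  have hmd : ContDiffOn ℝ ∞ (beM c) (ball (p0, b0) r) :=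
    fun x hx => (beM_cd c hc x (BB x hx)).contDiffWithinAt
  have hgd : ContDiffOn ℝ ∞ (fun x => (k1 + 1) * g x) (ball (p0, a0, b0) r) :=
    contDiffOn_const.mul (hg.mono (ball_subset_ball (min_le_left _ _)))
  exact HLI omM (fun x => (k1 + 1) * alM x) (sgM c) (beM c)
    (fun x => (k1 + 1) * g x) (fun a => (k1 + 1) * f2 0 a) (fun b => -F1 m0 b) (amI c Ef)
    p0 a0 b0 r (e / 2 / 2) (3 * (2 * e)) hrp (by positivity) hwd hld hsd hmd hgd hamI hcs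
    (d2.const_mul _) hF1d.fun_neg hg0 ha hb' h1 h2

end Pool.Agent.SDT.N1M

end -- N1M.I3

section -- N1M.P3h

/-!
N1M, block M3 (type N'): the oscillatory estimate for one cell.
-/

namespace Pool.Agent.SDT.N1M

open MeasureTheory Set Metric Filter Pool.Agent.SDT.MP_6cbfb8_an Pool.Agent.SDT.MST Pool.Agent.SDT.N1
open Pool.Agent.SDT.N1F Pool.Agent.SDT.N1G
open scoped ENNReal Real ContDiff Topology

/-- The amplitude in scaled variables. -/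
noncomputable def WfQ (c : ℝ) (x : P6 × V × V) : ℝ :=
  sma c (hm x.1.2.1 x.2.2.2.1 - x.1.1 * x.2.1.2.1 ^ 2) *
    sma c (hm x.1.2.1 (x.2.2.2.1 - x.1.1 * x.1.2.2.1 * x.2.2.1) -
      x.1.1 * (x.2.1.2.1 - x.1.2.2.1 * x.2.1.1) ^ 2) *
    (sma c (hm x.1.2.1 (x.2.2.2.1 - x.1.2.2.2.1 * x.2.2.2.2) -
      x.1.1 * (x.2.1.2.1 - x.1.2.2.2.2.1 * x.1.2.2.2.1 * x.2.1.2.2) ^ 2) *
    sma c (hm x.1.2.1 (x.2.2.2.1 - x.1.1 * x.1.2.2.1 * x.2.2.1 - x.1.2.2.2.1 * x.2.2.2.2) -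
      x.1.1 * (x.2.1.2.1 - x.1.2.2.1 * x.2.1.1 -
        x.1.2.2.2.2.1 * x.1.2.2.2.1 * x.2.1.2.2) ^ 2))

lemma WfQ_smooth (c : ℝ) (hc : 0 < c) : ContDiff ℝ ∞ (WfQ c) := by
  have hs := sma_smooth c hc
  unfold WfQ hm
  refine ContDiff.mul (ContDiff.mul ?_ ?_) (ContDiff.mul ?_ ?_)
  · exact hs.comp (by fun_prop)
  · exact hs.comp (by fun_prop)
  · exact hs.comp (by fun_prop)
  · exact hs.comp (by fun_prop)

lemma WfQ_eq (c al m ρ γ κ η : ℝ) (a b : V)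
    (h1 : 0 ≤ b.2.1 ∧ b.2.1 ≤ 8)
    (h2 : 0 ≤ b.2.1 - al ^ 2 * ρ * b.1 ∧ b.2.1 - al ^ 2 * ρ * b.1 ≤ 8)
    (h3 : 0 ≤ b.2.1 - γ * b.2.2 ∧ b.2.1 - γ * b.2.2 ≤ 8)
    (h4 : 0 ≤ b.2.1 - al ^ 2 * ρ * b.1 - γ * b.2.2 ∧
      b.2.1 - al ^ 2 * ρ * b.1 - γ * b.2.2 ≤ 8) :
    Wg (dam (wm c m)) (Sc3 (al * ρ) al (al * κ * γ) a, Sc3 (al ^ 2 * ρ) 1 γ b) =
      WfQ c ((al ^ 2, m, ρ, γ, κ, η), a, b) := by
  have e1 : wm c m (al * a.2.1, 1 * b.2.1) = sma c (hm m b.2.1 - al ^ 2 * a.2.1 ^ 2) := by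
    unfold wm
    simp only
    rw [if_pos (by rwa [one_mul])]
    congr 1
    rw [one_mul]
    ring
  have e2 : wm c m (al * a.2.1 - al * ρ * a.1, 1 * b.2.1 - al ^ 2 * ρ * b.1) =
      sma c (hm m (b.2.1 - al ^ 2 * ρ * b.1) - al ^ 2 * (a.2.1 - ρ * a.1) ^ 2) := by
    unfold wm
    simp only
    rw [if_pos (by rwa [one_mul])]
    congr 1
    rw [one_mul]
    ring
  have e3 : wm c m (al * a.2.1 - al * κ * γ * a.2.2, 1 * b.2.1 - γ * b.2.2) =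
      sma c (hm m (b.2.1 - γ * b.2.2) - al ^ 2 * (a.2.1 - κ * γ * a.2.2) ^ 2) := by
    unfold wm
    simp only
    rw [if_pos (by rwa [one_mul])]
    congr 1
    rw [one_mul]
    ring
  have e4 : wm c m (al * a.2.1 - al * κ * γ * a.2.2 - al * ρ * a.1,
      1 * b.2.1 - γ * b.2.2 - al ^ 2 * ρ * b.1) =
      sma c (hm m (b.2.1 - al ^ 2 * ρ * b.1 - γ * b.2.2) -
        al ^ 2 * (a.2.1 - ρ * a.1 - κ * γ * a.2.2) ^ 2) := by
    unfold wm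
    simp only
    have : 1 * b.2.1 - γ * b.2.2 - al ^ 2 * ρ * b.1 = b.2.1 - al ^ 2 * ρ * b.1 - γ * b.2.2 := by
      ring
    rw [this, if_pos h4]
    congr 1
    ring
  unfold Wg dam px pz Sc3 WfQ
  simp only
  rw [← e1, ← e2, ← e3, ← e4]
  rfl

lemma FQ_eq (c al m ρ γ κ : ℝ) (a b : V) :
    Fg (dif (qm c m)) (Sc3 (al * ρ) al (al * κ * γ) a, Sc3 (al ^ 2 * ρ) 1 γ b) =
      FQ c (al ^ 2) m ρ γ κ a b := by
  unfold Fg dif px pz Sc3 FQ qm qB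
  simp only
  have e1 : hm m (1 * b.2.1) - (al * a.2.1) ^ 2 = hm m b.2.1 - al ^ 2 * a.2.1 ^ 2 := by
    rw [one_mul]
    ring
  have e2 : hm m (1 * b.2.1 - al ^ 2 * ρ * b.1) - (al * a.2.1 - al * ρ * a.1) ^ 2 =
      hm m (b.2.1 - al ^ 2 * ρ * b.1) - al ^ 2 * (a.2.1 - ρ * a.1) ^ 2 := by
    rw [one_mul]
    ring
  have e3 : hm m (1 * b.2.1 - γ * b.2.2) - (al * a.2.1 - al * κ * γ * a.2.2) ^ 2 =
      hm m (b.2.1 - γ * b.2.2) - al ^ 2 * (a.2.1 - κ * γ * a.2.2) ^ 2 := by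
    rw [one_mul]
    ring
  have e4 : hm m (1 * b.2.1 - γ * b.2.2 - al ^ 2 * ρ * b.1) -
      (al * a.2.1 - al * κ * γ * a.2.2 - al * ρ * a.1) ^ 2 =
      hm m (b.2.1 - al ^ 2 * ρ * b.1 - γ * b.2.2) -
        al ^ 2 * (a.2.1 - ρ * a.1 - κ * γ * a.2.2) ^ 2 := by
    rw [one_mul, show b.2.1 - γ * b.2.2 - al ^ 2 * ρ * b.1 =
      b.2.1 - al ^ 2 * ρ * b.1 - γ * b.2.2 by ring]
    ring
  show Sq c (hm m (1 * b.2.1) - (al * a.2.1) ^ 2) -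
    Sq c (hm m (1 * b.2.1 - al ^ 2 * ρ * b.1) - (al * a.2.1 - al * ρ * a.1) ^ 2) -
    (Sq c (hm m (1 * b.2.1 - γ * b.2.2) - (al * a.2.1 - al * κ * γ * a.2.2) ^ 2) -
    Sq c (hm m (1 * b.2.1 - γ * b.2.2 - al ^ 2 * ρ * b.1) -
      (al * a.2.1 - al * κ * γ * a.2.2 - al * ρ * a.1) ^ 2)) = _
  rw [e1, e2, e3, e4]
  ring

/-- All four radial points lie in `[0, 8]`. -/
lemma r_ev (m0 k0 : ℝ) (a0 b0 : V) (h1 : 0 < b0.2.1) (h2 : b0.2.1 ≤ 4) :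
    ∀ᶠ x in 𝓝 (bp m0 k0, a0, b0), (0 ≤ x.2.2.2.1 ∧ x.2.2.2.1 ≤ 8) ∧
      (0 ≤ x.2.2.2.1 - x.1.1 * x.1.2.2.1 * x.2.2.1 ∧
        x.2.2.2.1 - x.1.1 * x.1.2.2.1 * x.2.2.1 ≤ 8) ∧
      (0 ≤ x.2.2.2.1 - x.1.2.2.2.1 * x.2.2.2.2 ∧ x.2.2.2.1 - x.1.2.2.2.1 * x.2.2.2.2 ≤ 8) ∧
      (0 ≤ x.2.2.2.1 - x.1.1 * x.1.2.2.1 * x.2.2.1 - x.1.2.2.2.1 * x.2.2.2.2 ∧
        x.2.2.2.1 - x.1.1 * x.1.2.2.1 * x.2.2.1 - x.1.2.2.2.1 * x.2.2.2.2 ≤ 8) := by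
  have hv : ∀ v : P6 × V × V → ℝ, Continuous v → v (bp m0 k0, a0, b0) = b0.2.1 →
      ∀ᶠ x in 𝓝 (bp m0 k0, a0, b0), 0 ≤ v x ∧ v x ≤ 8 := by
    intro v hv h0
    filter_upwards [hv.continuousAt.eventually (lt_mem_nhds (show 0 < v (bp m0 k0, a0, b0) by
      rw [h0]; exact h1)), hv.continuousAt.eventually (gt_mem_nhds
      (show v (bp m0 k0, a0, b0) < 8 by rw [h0]; linarith))] with x g1 g2
    exact ⟨g1.le, g2.le⟩
  filter_upwards [hv (fun x => x.2.2.2.1) (by fun_prop) rfl,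
    hv (fun x => x.2.2.2.1 - x.1.1 * x.1.2.2.1 * x.2.2.1) (by fun_prop) (by simp [bp]),
    hv (fun x => x.2.2.2.1 - x.1.2.2.2.1 * x.2.2.2.2) (by fun_prop) (by simp [bp]),
    hv (fun x => x.2.2.2.1 - x.1.1 * x.1.2.2.1 * x.2.2.1 - x.1.2.2.2.1 * x.2.2.2.2)
      (by fun_prop) (by simp [bp])] with x g1 g2 g3 g4
  exact ⟨g1, g2, g3, g4⟩

theorem propF4P (c : ℝ) (hc : 0 < c) (hc1 : c ≤ 1) (m0 : ℝ) (x0 y0 z0 : ℝ × ℝ) (hb : Bm m0 x0)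
    (hy1 : y0.1 ≠ 0) (hy2 : y0.2 ≠ 0) (hz1 : z0.1 ≠ 0) (hz2 : z0.2 ≠ 0) (k0 : ℝ) (hk : 0 ≤ k0)
    (hk' : k0 ≤ 1) (C5 : ℝ) :
    ∃ δ : ℝ, 0 < δ ∧ ∃ C : ℝ, 0 ≤ C ∧ ∀ T al m ρ γ κ : ℝ, 0 < T → Sm al m m0 δ →
      0 < ρ → ρ < δ → 0 < γ → γ < δ → 0 < κ → κ ≤ 1 → |κ - k0| < δ → m * γ ≤ C5 * κ →
      ∀ A B : V → ℂ, Measurable A → Measurable B → (∀ a, ‖A a‖ ≤ 1) → (∀ b, ‖B b‖ ≤ 1) →
      (∀ u, A u ≠ 0 → LB (al * ρ) al (al * κ * γ) y0.1 x0.1 z0.1 δ u) →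
      (∀ v, B v ≠ 0 → LB (al ^ 2 * ρ) 1 γ y0.2 x0.2 z0.2 δ v) →
      ‖FM c m T (tp A B)‖ ≤ C / T := by
  obtain ⟨hm0, hm1, hx1, hr0, hr4, hh, hbb⟩ := hb
  set a0 : V := (y0.1, x0.1, z0.1) with ha0
  set b0 : V := (y0.2, x0.2, z0.2) with hb0
  have hh' : 1 / 4 ≤ hm m0 b0.2.1 := hh
  have hbb' : 1 / 2 ≤ bm m0 b0.2.1 := hbb
  have hZ : b0.2.2 ≠ 0 := hz2
  obtain ⟨sE, sJ, sG, -, hE0, hok⟩ := smQ c hc hc1 m0 k0 a0 b0 hh' hbb' hZ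
  obtain ⟨ss, sl, so, sm⟩ := smQ' c hc hc1 m0 k0 a0 b0 hh' hbb' hZ
  obtain ⟨G1, sG1, hG1⟩ := had_Ps c hc hc1 m0 k0 a0 b0 hh' hbb' hZ
  have hgb := gQ_bp c hc hc1 m0 k0 a0 b0 hh' hbb' hZ G1 sG1 hG1
  have sg : SmN (gQ c G1) (bp m0 k0, a0, b0) := by
    have f1 : SmN (fun x : P6 × V × V => x.2.1.2.2 * (2 * (x.2.1.2.1 - x.1.2.2.1 * x.2.1.1) -
      x.1.2.2.2.2.1 * x.1.2.2.2.1 * x.2.1.2.2)) (bp m0 k0, a0, b0) := smN_of (by fun_prop)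
    have f2 : SmN (fun x : P6 × V × V => x.2.1.1 * x.2.1.2.2) (bp m0 k0, a0, b0) :=
      smN_of (by fun_prop)
    have f3 : SmN (fun x : P6 × V × V => x.1.2.2.2.2.2) (bp m0 k0, a0, b0) :=
      smN_of (by fun_prop)
    exact (((f1.mul sJ).div sE hE0).neg.add (f2.mul sG1)).add (f3.mul sG)
  obtain ⟨r1, hr1, c1⟩ := sE.ball
  obtain ⟨r2, hr2, c2⟩ := sg.ball
  obtain ⟨r3, hr3, c3⟩ := ss.ball
  obtain ⟨r4, hr4', c4⟩ := sl.ball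
  obtain ⟨r5, hr5, c5⟩ := so.ball
  obtain ⟨r6, hr6, c6⟩ := sm.ball
  obtain ⟨r7, hr7, c7⟩ := Metric.eventually_nhds_iff_ball.1
    ((hok.and hG1).and (r_ev m0 k0 a0 b0 hr0 hr4))
  obtain ⟨r, hr, l1, l2, l3, l4, l5, l6, l7⟩ : ∃ r : ℝ, 0 < r ∧ r ≤ r1 ∧ r ≤ r2 ∧ r ≤ r3 ∧
      r ≤ r4 ∧ r ≤ r5 ∧ r ≤ r6 ∧ r ≤ r7 := by
    refine ⟨min r1 (min r2 (min r3 (min r4 (min r5 (min r6 r7))))), ?_, ?_, ?_, ?_, ?_, ?_, ?_,
      ?_⟩
    · simp only [lt_min_iff]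
      exact ⟨hr1, hr2, hr3, hr4', hr5, hr6, hr7⟩
    all_goals simp
  have a1 : a0.1 ≠ 0 := hy1
  have a2 : a0.2.1 ≠ 0 := hx1.ne'
  have a3 : a0.2.2 ≠ 0 := hz1
  have b1 : b0.1 ≠ 0 := hy2
  have b2 : bm m0 b0.2.1 ≠ 0 := by linarith
  have b4 : hm m0 b0.2.1 ≠ 0 := by linarith
  obtain ⟨A1, A2, A3, A4, A5, A6⟩ := base_PA a0 a1 a2 a3
  obtain ⟨B1, B2, B3, B4, B5, B6⟩ := base_PB m0 b0 b1 b2 hZ b4
  have ew : (fun a : V => sgQ (bp m0 k0, a)) = wP := funext fun a => sgQ_bp m0 k0 a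
  have el : (fun a : V => lQ (bp m0 k0, a)) = lP := funext fun a => lQ_bp m0 k0 a
  have nb := near_b c hc hc1 m0 b0 hh' hbb' hZ
  have eo : (fun b : V => omQ c (bp m0 k0, b)) =ᶠ[𝓝 b0] oP m0 := by
    filter_upwards [nb] with b hb
    exact omQ_bp c m0 k0 b hb.2.1
  have em : (fun b : V => mQ c (bp m0 k0, b)) =ᶠ[𝓝 b0] mP m0 := by
    filter_upwards [nb] with b hb
    exact mQ_bp c hc m0 k0 b hb.2.1 hb.1.le hb.2.2
  obtain ⟨δ, hδ, C, hC, hP⟩ := absProp sgQ lQ (omQ c) (mQ c) (gQ c G1) (EQ c) (WfQ c)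
    (bp m0 k0) a0 b0 r hr (c3.mono (ball_subset_ball l3)) (c4.mono (ball_subset_ball l4))
    (c5.mono (ball_subset_ball l5)) (c6.mono (ball_subset_ball l6))
    (c2.mono (ball_subset_ball l2)) (c1.mono (ball_subset_ball l1))
    (WfQ_smooth c hc).contDiffOn hE0 (1, 0, 0) (0, 0, 1) (dirP a0) (1, 0, 0) (0, 0, 1)
    (dirP' m0 b0) (by rw [ew]; exact A1) (by rw [ew]; exact A2) (by rw [el]; exact A3)
    (by rw [ew]; exact A4) (by rw [el]; exact A5) (by rw [eo.fderiv_eq]; exact B1)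
    (by rw [eo.fderiv_eq]; exact B2) (by rw [em.fderiv_eq]; exact B3)
    (by rw [eo.fderiv_eq]; exact B4) (by rw [em.fderiv_eq]; exact B5)
    (by
      rw [base_Pg a0 b0 (dirP a0) (dirP' m0 b0) hZ
        (fun q : V × V => gQ c G1 (bp m0 k0, q.1, q.2)) hgb]
      exact mul_ne_zero A6 B6)
  set δ' := min (min (δ / 2) (r / 2)) (1 / 2) / (1 + |C5|) with hδ'
  have hM : 1 ≤ 1 + |C5| := by linarith [abs_nonneg C5]
  have hm' : 0 < min (min (δ / 2) (r / 2)) (1 / 2) :=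
    lt_min (lt_min (by linarith) (by linarith)) (by norm_num)
  have hδ'p : 0 < δ' := div_pos hm' (by linarith)
  have hδM : (1 + |C5|) * δ' = min (min (δ / 2) (r / 2)) (1 / 2) := by
    rw [hδ']
    field_simp
  have hle : δ' ≤ (1 + |C5|) * δ' := by nlinarith
  have hM1 : (1 + |C5|) * δ' < δ := by
    rw [hδM]
    exact lt_of_le_of_lt ((min_le_left _ _).trans (min_le_left _ _)) (by linarith)
  have hM2 : (1 + |C5|) * δ' < r := by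
    rw [hδM]
    exact lt_of_le_of_lt ((min_le_left _ _).trans (min_le_right _ _)) (by linarith)
  have hM3 : (1 + |C5|) * δ' ≤ 1 / 2 := by
    rw [hδM]
    exact min_le_right _ _
  refine ⟨δ', hδ'p, C, hC, ?_⟩
  intro T al m ρ γ κ hT hS hρ hρδ hγ hγδ hκ hκ1 hκk hmγ A B hA hB hA1 hB1 hAs hBs
  obtain ⟨hal, halδ, hm0', hm1', hmδ⟩ := hS
  set η := m * γ ^ 2 / κ with hη
  have hη0 : 0 ≤ η := by rw [hη]; positivity
  have hηle : η ≤ |C5| * δ' := by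
    rw [hη, div_le_iff₀ hκ]
    have h3 : m * γ ≤ |C5| * κ := hmγ.trans (mul_le_mul_of_nonneg_right (le_abs_self _) hκ.le)
    calc m * γ ^ 2 = (m * γ) * γ := by ring
      _ ≤ (|C5| * κ) * δ' := mul_le_mul h3 hγδ.le hγ.le (by positivity)
      _ = |C5| * δ' * κ := by ring
  have hκη : κ * η = m * γ ^ 2 := by rw [hη]; field_simp
  have hal1 : al ≤ 1 / 2 := by linarith
  have hal2 : al ^ 2 < δ' := by nlinarith
  have hpR : ∀ S, (1 + |C5|) * δ' < S → ((al ^ 2, m, ρ, γ, κ, η) : P6) ∈ ball (bp m0 k0) S := by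
    intro S hS
    have hS' : δ' < S := lt_of_le_of_lt hle hS
    unfold bp
    rw [mem_ball, Prod.dist_eq, Prod.dist_eq, Prod.dist_eq, Prod.dist_eq, Prod.dist_eq,
      Real.dist_eq, Real.dist_eq, Real.dist_eq, Real.dist_eq, Real.dist_eq, Real.dist_eq]
    simp only [sub_zero, abs_of_pos hρ, abs_of_pos hγ, abs_of_nonneg hη0,
      abs_of_nonneg (sq_nonneg al)]
    refine max_lt (by linarith) (max_lt (by linarith) (max_lt (by linarith) (max_lt (by linarith)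
      (max_lt (by linarith) ?_))))
    nlinarith
  have hτ : 0 < al ^ 2 * ρ * γ := by positivity
  have hmain := hP (al ^ 2, m, ρ, γ, κ, η) (hpR δ hM1) κ (al ^ 2) T (al ^ 2 * ρ * γ) hκ hκ1
    (by positivity) (by linarith) hT hτ (al * ρ) al (al * κ * γ) (al ^ 2 * ρ) 1 γ
    (by positivity) hal (by positivity) (by positivity) one_pos hγ
    (Fg (dif (qm c m))) (Wg (dam (wm c m))) (fun a ha b hb => by
      have hin : (((al ^ 2, m, ρ, γ, κ, η) : P6), a, b) ∈ ball (bp m0 k0, a0, b0) r := by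
        rw [mem_ball, Prod.dist_eq, Prod.dist_eq]
        exact max_lt (hpR r hM2) (max_lt ha hb)
      obtain ⟨⟨g1, g2⟩, g3, g4, g5, g6⟩ := c7 _ (ball_subset_ball l7 hin)
      refine ⟨?_, WfQ_eq c al m ρ γ κ η a b g3 g4 g5 g6⟩
      rw [FQ_eq]
      exact nfQ c hc (al ^ 2) m ρ γ κ η a b g1 hκη _ g2)
    A B hA hB hA1 hB1
    (fun u hu => by
      obtain ⟨h1, h2, h3⟩ := hAs u hu
      exact ⟨by linarith, by linarith, by linarith⟩)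
    (fun v hv => by
      obtain ⟨h1, h2, h3⟩ := hBs v hv
      exact ⟨by linarith, by linarith, by linarith⟩)
  have hFM : FM c m T (tp A B) = ∫ q : V × V, tp A B q * ((Wg (dam (wm c m)) q : ℝ) : ℂ) *
      Kt T (Fg (dif (qm c m)) q) := rfl
  rw [hFM]
  refine hmain.trans (le_of_eq ?_)
  rw [Real.sqrt_sq hal.le]
  field_simp

end Pool.Agent.SDT.N1M

end -- N1M.P3h
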