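import Pool.Agent.SDT.B54
import Pool.Agent.SDT.B61
import Pool.Agent.SDT.B64

set_option autoImplicit false

namespace Pool.Agent.SDT.MP_6cbfb8_an
end Pool.Agent.SDT.MP_6cbfb8_an
namespace Pool.Agent.SDT.MST
end Pool.Agent.SDT.MST
namespace Pool.Agent.SDT.N1
end Pool.Agent.SDT.N1

section -- N1.M2g

/-!
N1, block M2, part 7: the dyadic `L⁴` estimate.
-/

namespace Pool.Agent.SDT.N1

open MeasureTheory Set Metric Pool.Agent.SDT.MP_6cbfb8_an Pool.Agent.SDT.MST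
open scoped ENNReal Real ContDiff

theorem m2_sum_four {ι : Type*} (s : Finset ι) (a : ι → ℝ≥0∞) :
    (∑ i ∈ s, a i) ^ 4 ≤ (s.card : ℝ≥0∞) ^ 4 * ∑ i ∈ s, a i ^ 4 := by
  rcases s.eq_empty_or_nonempty with rfl | hs
  · simp
  obtain ⟨i0, hi0, hmax⟩ := Finset.exists_max_image s a hs
  have h1 : ∑ i ∈ s, a i ≤ s.card * a i0 := by
    refine (Finset.sum_le_card_nsmul s a (a i0) hmax).trans (le_of_eq ?_)
    rw [nsmul_eq_mul]
  calc (∑ i ∈ s, a i) ^ 4 ≤ (s.card * a i0) ^ 4 := by gcongr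
    _ = (s.card : ℝ≥0∞) ^ 4 * a i0 ^ 4 := by rw [mul_pow]
    _ ≤ _ := by
        gcongr
        exact Finset.single_le_sum (f := fun i => a i ^ 4) (fun _ _ => zero_le) hi0

theorem m2_Eo_int (c : ℝ) (hc : 0 < c) (G₁ G₂ : ℝ → ℂ) (h1 : Measurable G₁) (h2 : Measurable G₂)
    (b1 : ∀ a, ‖G₁ a‖ ≤ 1) (b2 : ∀ a, ‖G₂ a‖ ≤ 1) (t : ℝ) (ξ : ℝ × ℝ) :
    Integrable fun x : ℝ × ℝ => G₁ x.1 * G₂ x.2 * ((wf c x.1 x.2 : ℝ) : ℂ) *
      ex (t * qf c x.1 x.2) * ex (x.1 * ξ.1 + x.2 * ξ.2) := by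
  have hwc : Continuous fun x : ℝ × ℝ => wf c x.1 x.2 := (wf_smooth c hc).continuous
  have hqc : Continuous fun x : ℝ × ℝ => qf c x.1 x.2 := (qf_smooth c hc).continuous
  have hw : Integrable fun x : ℝ × ℝ => wf c x.1 x.2 := by
    refine hwc.integrable_of_hasCompactSupport ?_
    refine HasCompactSupport.intro (isCompact_closedBall (0 : ℝ × ℝ) 1) ?_
    intro x hx
    by_contra h3
    have h4 := m2_wf_ne hc h3
    have h5 : 0 ≤ c ^ 2 / 4 := by positivity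
    apply hx
    rw [mem_closedBall, dist_zero_right, Prod.norm_def, max_le_iff, Real.norm_eq_abs,
      Real.norm_eq_abs, ← sq_le_one_iff_abs_le_one, ← sq_le_one_iff_abs_le_one]
    constructor <;> nlinarith [sq_nonneg x.1, sq_nonneg x.2]
  refine hw.mono ?_ (ae_of_all _ fun x => ?_)
  · refine Measurable.aestronglyMeasurable ?_
    refine Measurable.mul (Measurable.mul (Measurable.mul (Measurable.mul ?_ ?_) ?_) ?_) ?_
    · exact h1.comp measurable_fst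
    · exact h2.comp measurable_snd
    · exact Complex.measurable_ofReal.comp hwc.measurable
    · exact measurable_ex.comp (hqc.measurable.const_mul t)
    · exact measurable_ex.comp (by fun_prop)
  · rw [norm_mul, norm_mul, norm_mul, norm_mul, m2_ex_norm, m2_ex_norm, mul_one, mul_one,
      Complex.norm_real]
    have h3 : ‖G₁ x.1‖ * ‖G₂ x.2‖ ≤ 1 := mul_le_one₀ (b1 _) (norm_nonneg _) (b2 _)
    calc ‖G₁ x.1‖ * ‖G₂ x.2‖ * ‖wf c x.1 x.2‖ ≤ 1 * ‖wf c x.1 x.2‖ := by gcongr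
      _ = _ := one_mul _

theorem m2_Eo_meas (c : ℝ) (hc : 0 < c) (G₁ G₂ : ℝ → ℂ) (h1 : Measurable G₁)
    (h2 : Measurable G₂) : Measurable fun p : ℝ × (ℝ × ℝ) => Eo c G₁ G₂ p.1 p.2 := by
  have hwc : Continuous fun x : ℝ × ℝ => wf c x.1 x.2 := (wf_smooth c hc).continuous
  have hqc : Continuous fun x : ℝ × ℝ => qf c x.1 x.2 := (qf_smooth c hc).continuous
  unfold Eo
  have h3 : Measurable fun z : (ℝ × (ℝ × ℝ)) × (ℝ × ℝ) =>
      G₁ z.2.1 * G₂ z.2.2 * ((wf c z.2.1 z.2.2 : ℝ) : ℂ) *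
      ex (z.1.1 * qf c z.2.1 z.2.2) * ex (z.2.1 * z.1.2.1 + z.2.2 * z.1.2.2) := by
    refine Measurable.mul (Measurable.mul (Measurable.mul (Measurable.mul ?_ ?_) ?_) ?_) ?_
    · exact h1.comp (by fun_prop)
    · exact h2.comp (by fun_prop)
    · exact Complex.measurable_ofReal.comp (hwc.measurable.comp measurable_snd)
    · exact measurable_ex.comp ((measurable_fst.comp measurable_fst).mul
        (hqc.measurable.comp measurable_snd))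
    · exact measurable_ex.comp (by fun_prop)
  exact (h3.stronglyMeasurable.integral_prod_right').measurable

theorem m2_lint_sum {ι : Type*} (s : Finset ι) (f : ι → ℝ × (ℝ × ℝ) → ℂ)
    (hf : ∀ i ∈ s, Measurable (f i)) (S : Set ℝ) (K : ℝ≥0∞)
    (hK : ∀ i ∈ s, ∫⁻ t in S, ∫⁻ ξ : ℝ × ℝ, ‖f i (t, ξ)‖ₑ ^ 4 ≤ K) :
    ∫⁻ t in S, ∫⁻ ξ : ℝ × ℝ, ‖∑ i ∈ s, f i (t, ξ)‖ₑ ^ 4 ≤
      (s.card : ℝ≥0∞) ^ 4 * (s.card * K) := by
  have hm : ∀ i ∈ s, Measurable fun p : ℝ × (ℝ × ℝ) => ‖f i p‖ₑ ^ 4 := fun i hi =>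
    (hf i hi).enorm.pow_const 4
  have hm2 : ∀ i ∈ s, Measurable fun t : ℝ => ∫⁻ ξ : ℝ × ℝ, ‖f i (t, ξ)‖ₑ ^ 4 := fun i hi =>
    (hm i hi).lintegral_prod_right'
  have hm3 : ∀ i ∈ s, ∀ t : ℝ, Measurable fun ξ : ℝ × ℝ => ‖f i (t, ξ)‖ₑ ^ 4 := fun i hi t =>
    (hm i hi).comp (measurable_const.prodMk measurable_id)
  have e1 : ∀ t : ℝ, ∫⁻ ξ : ℝ × ℝ, ‖∑ i ∈ s, f i (t, ξ)‖ₑ ^ 4 ≤
      (s.card : ℝ≥0∞) ^ 4 * ∑ i ∈ s, ∫⁻ ξ : ℝ × ℝ, ‖f i (t, ξ)‖ₑ ^ 4 := by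
    intro t
    rw [← lintegral_finsetSum' _ fun i hi => (hm3 i hi t).aemeasurable,
      ← lintegral_const_mul _ (Finset.measurable_sum _ fun i hi => hm3 i hi t)]
    refine lintegral_mono fun ξ => ?_
    refine le_trans ?_ (m2_sum_four s fun i => ‖f i (t, ξ)‖ₑ)
    gcongr
    exact enorm_sum_le _ _
  refine (lintegral_mono e1).trans ?_
  rw [lintegral_const_mul _ (Finset.measurable_sum _ hm2),
    lintegral_finsetSum' _ fun i hi => (hm2 i hi).aemeasurable]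
  gcongr
  refine (Finset.sum_le_card_nsmul s _ K hK).trans (le_of_eq ?_)
  rw [nsmul_eq_mul]

/-- truncation at `1` -/
noncomputable def m2_tr (G : ℝ → ℂ) (a : ℝ) : ℂ := if a ≤ 1 then G a else 0

theorem m2_tr_Eo (c : ℝ) (hc : 0 < c) (G₁ G₂ : ℝ → ℂ) (t : ℝ) (ξ : ℝ × ℝ) :
    Eo c (m2_tr G₁) (m2_tr G₂) t ξ = Eo c G₁ G₂ t ξ := by
  unfold Eo
  congr 1
  funext x
  by_cases h : wf c x.1 x.2 = 0
  · rw [h]
    simp
  · have h1 := m2_wf_ne hc h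
    have h2 : 0 ≤ c ^ 2 / 4 := by positivity
    have h3 : x.1 ≤ 1 := by nlinarith [sq_nonneg x.2]
    have h4 : x.2 ≤ 1 := by nlinarith [sq_nonneg x.1]
    unfold m2_tr
    rw [if_pos h3, if_pos h4]

theorem m2_tr_meas {G : ℝ → ℂ} (hG : Measurable G) : Measurable (m2_tr G) := by
  unfold m2_tr
  exact Measurable.ite measurableSet_Iic hG measurable_const

theorem m2_tr_norm {G : ℝ → ℂ} (hG : ∀ a, ‖G a‖ ≤ 1) (a : ℝ) : ‖m2_tr G a‖ ≤ 1 := by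
  unfold m2_tr
  split_ifs
  · exact hG a
  · simp

theorem m2_tr_ne {G : ℝ → ℂ} {a : ℝ} (h : m2_tr G a ≠ 0) : a ≤ 1 ∧ G a ≠ 0 := by
  unfold m2_tr at h
  split_ifs at h with h1
  · exact ⟨h1, h⟩
  · exact absurd rfl h

/-- the caps -/
noncomputable def m2_cp (r : ℝ) (G : ℝ → ℂ) (i : ℕ) (a : ℝ) : ℂ :=
  g2_cut (fun a : ℝ => a) 1 r (m2_tr G) i a

theorem m2_cp_meas (r : ℝ) {G : ℝ → ℂ} (hG : Measurable G) (i : ℕ) : Measurable (m2_cp r G i) :=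
  g2_cut_meas measurable_id _ _ (m2_tr_meas hG) _

theorem m2_cp_norm (r : ℝ) {G : ℝ → ℂ} (hG : ∀ a, ‖G a‖ ≤ 1) (i : ℕ) (a : ℝ) :
    ‖m2_cp r G i a‖ ≤ 1 := g2_cut_norm _ _ _ (m2_tr_norm hG) _ _

theorem m2_cp_cap {c r : ℝ} (hc : 0 < c) (hr : 0 < r) {G : ℝ → ℂ} (hG : ∀ a, G a ≠ 0 → c ≤ a)
    (i : ℕ) : ∃ x : ℝ, m2_cap c r x (m2_cp r G i) := by
  by_cases h : ∃ a, m2_cp r G i a ≠ 0
  · obtain ⟨x, hx⟩ := h
    obtain ⟨h1, h2⟩ := g2_cut_ne hx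
    obtain ⟨h3, h4⟩ := m2_tr_ne h2
    have h5 := hG x h4
    refine ⟨x, fun a ha => ?_⟩
    obtain ⟨g1, g2⟩ := g2_cut_ne ha
    obtain ⟨g3, g4⟩ := m2_tr_ne g2
    have g5 := hG a g4
    refine ⟨g5, ?_⟩
    exact g2_ix_near (R := 1) hr (abs_le.2 ⟨by linarith, g3⟩) (abs_le.2 ⟨by linarith, h3⟩)
      (g1.trans h1.symm)
  · push Not at h
    exact ⟨0, fun a ha => absurd (h a) ha⟩

theorem m2_cp_sum {c r : ℝ} (hc : 0 < c) (hr : 0 < r) {G : ℝ → ℂ} (hG : ∀ a, G a ≠ 0 → c ≤ a)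
    (a : ℝ) : ∑ i ∈ Finset.range (⌊2 * 1 / r⌋₊ + 1), m2_cp r G i a = m2_tr G a := by
  refine g2_cut_sum (fun a : ℝ => a) 1 r hr (m2_tr G) ?_ a
  intro u hu
  obtain ⟨h3, h4⟩ := m2_tr_ne hu
  have h5 := hG u h4
  exact abs_le.2 ⟨by linarith, h3⟩

/-- The dyadic `L⁴` estimate. -/
theorem L4 (c : ℝ) (hc : 0 < c) : ∃ C : ℝ, 0 ≤ C ∧ ∀ T : ℝ, 1 ≤ T → ∀ G₁ G₂ : ℝ → ℂ,
    Measurable G₁ → Measurable G₂ → (∀ a, ‖G₁ a‖ ≤ 1) → (∀ b, ‖G₂ b‖ ≤ 1) →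
    (∀ a, G₁ a ≠ 0 → c ≤ a) → (∀ b, G₂ b ≠ 0 → c ≤ b) →
    ∫⁻ t in Icc T (2 * T), ∫⁻ ξ : ℝ × ℝ, ‖Eo c G₁ G₂ t ξ‖ₑ ^ 4 ≤
      ENNReal.ofReal (C * (1 + Real.log T) ^ 8 / T) := by
  obtain ⟨r, hr, C, hC, hcap⟩ := m2_capest c hc
  set n : ℕ := ⌊2 * 1 / r⌋₊ + 1 with hn
  set s : Finset (ℕ × ℕ) := Finset.range n ×ˢ Finset.range n with hs
  refine ⟨(s.card : ℝ) ^ 5 * C, by positivity, ?_⟩
  intro T hT G₁ G₂ h1 h2 b1 b2 s1 s2
  have hT0 : 0 < T := by linarith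
  have hL : 0 ≤ Real.log T := Real.log_nonneg hT
  have hsum : ∀ t ξ, Eo c G₁ G₂ t ξ =
      ∑ p ∈ s, Eo c (m2_cp r G₁ p.1) (m2_cp r G₂ p.2) t ξ := by
    intro t ξ
    rw [← m2_tr_Eo c hc]
    unfold Eo
    rw [← integral_finsetSum s fun p _ => m2_Eo_int c hc (m2_cp r G₁ p.1) (m2_cp r G₂ p.2)
      (m2_cp_meas r h1 _) (m2_cp_meas r h2 _) (m2_cp_norm r b1 _) (m2_cp_norm r b2 _) t ξ]
    congr 1
    funext x
    rw [← m2_cp_sum hc hr s1 x.1, ← m2_cp_sum hc hr s2 x.2, Finset.sum_mul_sum,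
      ← Finset.sum_product', Finset.sum_mul, Finset.sum_mul, Finset.sum_mul]
  simp only [hsum]
  refine (m2_lint_sum s (fun p z => Eo c (m2_cp r G₁ p.1) (m2_cp r G₂ p.2) z.1 z.2)
    (fun p _ => m2_Eo_meas c hc _ _ (m2_cp_meas r h1 _) (m2_cp_meas r h2 _)) (Icc T (2 * T))
    (ENNReal.ofReal (C * (1 + Real.log T) ^ 8 / T)) ?_).trans (le_of_eq ?_)
  · intro p _
    obtain ⟨x1, hx1⟩ := m2_cp_cap hc hr s1 p.1
    obtain ⟨x2, hx2⟩ := m2_cp_cap hc hr s2 p.2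
    exact hcap T hT x1 x2 _ _ (m2_cp_meas r h1 _) (m2_cp_meas r h2 _) (m2_cp_norm r b1 _)
      (m2_cp_norm r b2 _) hx1 hx2
  · rw [show (s.card : ℝ) ^ 5 * C * (1 + Real.log T) ^ 8 / T =
      (s.card : ℝ) ^ 4 * (s.card * (C * (1 + Real.log T) ^ 8 / T)) by ring,
      ENNReal.ofReal_mul (by positivity), ENNReal.ofReal_mul (by positivity),
      ENNReal.ofReal_pow (by positivity), ENNReal.ofReal_natCast]

end Pool.Agent.SDT.N1

end -- N1.M2g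

section -- N1G.L2

/-!
N1G, block L2: the local theorem for a smooth family.
-/

namespace Pool.Agent.SDT.N1G

open MeasureTheory Set Metric Pool.Agent.SDT.MP_6cbfb8_an Pool.Agent.SDT.MST Pool.Agent.SDT.N1
open scoped ENNReal Real ContDiff

section cut

theorem cl_abs {E : Type*} [TopologicalSpace E] (f : E → ℝ) (hf : Continuous f) (c δ : ℝ) :
    IsClosed {p : E | |f p - c| ≤ δ} :=
  isClosed_le (hf.sub continuous_const).abs continuous_const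

theorem Bx_closed (δ : ℝ) (x0 y0 : ℝ × ℝ) : IsClosed {p : YX | Bx δ x0 y0 p} :=
  (cl_abs (fun p : YX => p.1.1) (by fun_prop) _ _).inter
    ((cl_abs (fun p : YX => p.1.2) (by fun_prop) _ _).inter
      ((cl_abs (fun p : YX => p.2.1) (by fun_prop) _ _).inter
        (cl_abs (fun p : YX => p.2.2) (by fun_prop) _ _)))

theorem meas_cut {E : Type*} [TopologicalSpace E] [MeasurableSpace E] [BorelSpace E]
    (f : E → ℝ) (S : Set E) (hS : MeasurableSet S) (hf : ContinuousOn f S) :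
    Measurable (S.indicator f) := by
  classical
  have h1 : S.indicator f = fun x => if x ∈ S then f x else 0 := by
    funext x
    rw [Set.indicator_apply]
  rw [h1]
  have h2 : S.piecewise f (fun _ => (0 : ℝ)) = fun x => if x ∈ S then f x else 0 := by
    funext x
    rfl
  rw [← h2]
  exact ContinuousOn.measurable_piecewise hf continuousOn_const hS

theorem Sp_mono {δ δ' y x γ : ℝ} {A : V → ℂ} (h : Sp δ y x γ A) (hd : δ ≤ δ') :
    Sp δ' y x γ A := fun u hu => by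
  obtain ⟨a1, a2, a3, a4, a5⟩ := h u hu
  exact ⟨a1.trans hd, a2.trans hd, a3.trans hd, a4, a5⟩

/-- Rectangles in the support of a product density. -/
theorem Sp_Bx {δ γ d : ℝ} {x0 y0 : ℝ × ℝ} {A₁ A₂ : V → ℂ} (h1 : Sp δ y0.1 x0.1 γ A₁)
    (h2 : Sp δ y0.2 x0.2 d A₂) {q : V × V} (hq : tp A₁ A₂ q ≠ 0) :
    Bx δ x0 y0 (px q) ∧ Bx δ x0 y0 (pz q) := by
  unfold tp at hq
  obtain ⟨a1, a2, a3, _, _⟩ := h1 _ (left_ne_zero_of_mul hq)
  obtain ⟨b1, b2, b3, _, _⟩ := h2 _ (right_ne_zero_of_mul hq)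
  exact ⟨⟨a1, b1, a2, b2⟩, ⟨a1, b1, a3, b3⟩⟩

/-- Product densities with support in the box. -/
theorem pd_Bx {δ : ℝ} {x0 y0 : ℝ × ℝ} {α β : ℝ × ℝ → ℂ}
    (hα : ∀ p, α p ≠ 0 → |p.1 - y0.1| ≤ δ ∧ |p.2 - x0.1| ≤ δ)
    (hβ : ∀ p, β p ≠ 0 → |p.1 - y0.2| ≤ δ ∧ |p.2 - x0.2| ≤ δ) {s : YX} (hs : pd α β s ≠ 0) :
    Bx δ x0 y0 s := by
  unfold pd at hs
  obtain ⟨a1, a2⟩ := hα _ (left_ne_zero_of_mul hs)
  obtain ⟨b1, b2⟩ := hβ _ (right_ne_zero_of_mul hs)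
  exact ⟨a1, b1, a2, b2⟩

theorem Bx_mono {δ δ' : ℝ} {x0 y0 : ℝ × ℝ} {s : YX} (h : Bx δ x0 y0 s) (hd : δ ≤ δ') :
    Bx δ' x0 y0 s := by
  obtain ⟨a1, a2, a3, a4⟩ := h
  exact ⟨a1.trans hd, a2.trans hd, a3.trans hd, a4.trans hd⟩

end cut

section family

variable {P : Type*} [NormedAddCommGroup P] [NormedSpace ℝ P]
  (F : Fam P) (p0 : P) (x0 y0 : ℝ × ℝ) (r : ℝ)

omit [NormedSpace ℝ P] in
theorem Bx_ball {δ ρ : ℝ} {p p0 : P} {x0 y0 : ℝ × ℝ} (hp : p ∈ ball p0 ρ) (hδ : δ < ρ) {s : YX}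
    (hs : Bx δ x0 y0 s) : (p, s) ∈ ball (p0, (y0, x0)) ρ := by
  obtain ⟨a1, a2, a3, a4⟩ := hs
  rw [mem_ball] at hp
  simp only [mem_ball, Prod.dist_eq, sup_lt_iff, Real.dist_eq]
  exact ⟨hp, ⟨by linarith, by linarith⟩, ⟨by linarith, by linarith⟩⟩

/-- The cut members of the family. -/
theorem fam_cut (h : FamOk F p0 x0 y0 r) : ∃ δ0 : ℝ, 0 < δ0 ∧ δ0 ≤ 1 ∧ ∃ B R : ℝ, 0 ≤ B ∧
    ∀ δ : ℝ, 0 < δ → δ ≤ δ0 → ∀ p ∈ ball p0 δ0, ∃ φ w : YX → ℝ, ∃ om sg : ℝ × ℝ → ℝ,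
    Adm B R φ w ∧ Agr F p x0 y0 δ φ w ∧ Measurable om ∧ Measurable sg ∧
    ∀ s : YX, Bx δ x0 y0 s → nn om sg s = F.N p s := by
  classical
  have hr := h.hr
  have hW : ContinuousAt F.W (p0, (y0, x0)) :=
    (h.sW.continuousOn).continuousAt (ball_mem_nhds _ hr)
  obtain ⟨ρ, hρ, hρW⟩ := Metric.continuousAt_iff.1 hW 1 one_pos
  refine ⟨min 1 (min (r / 2) (ρ / 2)), by positivity, min_le_left _ _, |F.W (p0, (y0, x0))| + 1,
    ‖y0‖ + ‖x0‖ + 1, by positivity, fun δ hδ hδ1 p hp => ?_⟩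
  have e1 : δ ≤ 1 := hδ1.trans (min_le_left _ _)
  have e2 : δ < r := by
    have := hδ1.trans ((min_le_right _ _).trans (min_le_left _ _))
    linarith
  have e3 : δ < ρ := by
    have := hδ1.trans ((min_le_right _ _).trans (min_le_right _ _))
    linarith
  have p1 : p ∈ ball p0 r := by
    rw [mem_ball] at hp ⊢
    have := hp.trans_le ((min_le_right _ _).trans (min_le_left _ _))
    linarith
  have p2 : p ∈ ball p0 ρ := by
    rw [mem_ball] at hp ⊢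
    have := hp.trans_le ((min_le_right _ _).trans (min_le_right _ _))
    linarith
  set S : Set YX := {s | Bx δ x0 y0 s} with hS
  have hSc : IsClosed S := Bx_closed δ x0 y0
  have hin : ∀ s ∈ S, (p, s) ∈ ball (p0, (y0, x0)) r := fun s hs => Bx_ball p1 e2 hs
  have hψc : ContinuousOn (fun s => F.ψ (p, s)) S := by
    refine h.sψ.continuousOn.comp (Continuous.continuousOn (by fun_prop)) (fun s hs => hin s hs)
  have hWc : ContinuousOn (fun s => F.W (p, s)) S := by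
    refine h.sW.continuousOn.comp (Continuous.continuousOn (by fun_prop)) (fun s hs => hin s hs)
  set A1 : Set (ℝ × ℝ) := {u | |u.1 - y0.1| ≤ δ ∧ |u.2 - x0.1| ≤ δ} with hA1
  set A2 : Set (ℝ × ℝ) := {u | |u.1 - y0.2| ≤ δ ∧ |u.2 - x0.2| ≤ δ} with hA2
  have c1 : IsClosed A1 := (cl_abs (fun p : ℝ × ℝ => p.1) continuous_fst _ _).inter
    (cl_abs (fun p : ℝ × ℝ => p.2) continuous_snd _ _)
  have c2 : IsClosed A2 := (cl_abs (fun p : ℝ × ℝ => p.1) continuous_fst _ _).inter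
    (cl_abs (fun p : ℝ × ℝ => p.2) continuous_snd _ _)
  have hoc : ContinuousOn (F.om p) A1 := by
    unfold Fam.om
    refine ContinuousOn.add ?_ (ContinuousOn.mul continuousOn_const ?_)
    · refine h.so0.continuousOn.comp (Continuous.continuousOn (by fun_prop)) (fun u hu => ?_)
      rw [mem_ball] at p1 ⊢
      simp only [Prod.dist_eq, max_lt_iff, Real.dist_eq]
      exact ⟨p1, by linarith [hu.1]⟩
    · refine h.so1.continuousOn.comp (Continuous.continuousOn (by fun_prop)) (fun u hu => ?_)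
      rw [mem_ball] at p1 ⊢
      simp only [Prod.dist_eq, max_lt_iff, Real.dist_eq]
      exact ⟨p1, by linarith [hu.1], by linarith [hu.2]⟩
  have hsc : ContinuousOn (F.sg p) A2 := by
    unfold Fam.sg
    refine h.ss.continuousOn.comp (Continuous.continuousOn (by fun_prop)) (fun u hu => ?_)
    rw [mem_ball] at p1 ⊢
    simp only [Prod.dist_eq, max_lt_iff, Real.dist_eq]
    exact ⟨p1, by linarith [hu.1], by linarith [hu.2]⟩
  refine ⟨S.indicator fun s => F.ψ (p, s), S.indicator fun s => F.W (p, s),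
    A1.indicator (F.om p), A2.indicator (F.sg p), ⟨?_, ?_, ?_, ?_⟩, ?_, ?_, ?_, ?_⟩
  · exact meas_cut _ S hSc.measurableSet hψc
  · exact meas_cut _ S hSc.measurableSet hWc
  · intro s
    by_cases hs : s ∈ S
    · rw [indicator_of_mem hs]
      have h1 := hρW (mem_ball.1 (Bx_ball p2 e3 hs))
      rw [Real.dist_eq] at h1
      have h2 := abs_sub_abs_le_abs_sub (F.W (p, s)) (F.W (p0, (y0, x0)))
      linarith
    · rw [indicator_of_notMem hs, abs_zero]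
      positivity
  · intro s hs
    have hs' : s ∈ S := by
      by_contra hc
      exact hs (indicator_of_notMem hc _)
    obtain ⟨a1, a2, a3, a4⟩ := hs'
    have k1 : |s.1.1| ≤ ‖y0‖ + 1 := by
      have i1 : |s.1.1| ≤ |y0.1| + |s.1.1 - y0.1| := by
        have := abs_add_le y0.1 (s.1.1 - y0.1)
        rwa [add_sub_cancel] at this
      have i2 : |y0.1| ≤ ‖y0‖ := norm_fst_le y0
      linarith
    have k2 : |s.1.2| ≤ ‖y0‖ + 1 := by
      have i1 : |s.1.2| ≤ |y0.2| + |s.1.2 - y0.2| := by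
        have := abs_add_le y0.2 (s.1.2 - y0.2)
        rwa [add_sub_cancel] at this
      have i2 : |y0.2| ≤ ‖y0‖ := norm_snd_le y0
      linarith
    have k3 : |s.2.1| ≤ ‖x0‖ + 1 := by
      have i1 : |s.2.1| ≤ |x0.1| + |s.2.1 - x0.1| := by
        have := abs_add_le x0.1 (s.2.1 - x0.1)
        rwa [add_sub_cancel] at this
      have i2 : |x0.1| ≤ ‖x0‖ := norm_fst_le x0
      linarith
    have k4 : |s.2.2| ≤ ‖x0‖ + 1 := by
      have i1 : |s.2.2| ≤ |x0.2| + |s.2.2 - x0.2| := by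
        have := abs_add_le x0.2 (s.2.2 - x0.2)
        rwa [add_sub_cancel] at this
      have i2 : |x0.2| ≤ ‖x0‖ := norm_snd_le x0
      linarith
    have n1 := norm_nonneg y0
    have n2 := norm_nonneg x0
    simp only [Prod.norm_def, sup_le_iff, Real.norm_eq_abs] at *
    refine ⟨⟨?_, ?_⟩, ⟨?_, ?_⟩⟩ <;> linarith
  · intro s hs
    exact ⟨indicator_of_mem (show s ∈ S from hs) _, indicator_of_mem (show s ∈ S from hs) _⟩
  · exact meas_cut _ A1 c1.measurableSet hoc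
  · exact meas_cut _ A2 c2.measurableSet hsc
  · intro s hs
    obtain ⟨a1, a2, a3, a4⟩ := hs
    unfold Fam.N nn
    rw [indicator_of_mem (show ((s.1.1, s.2.1) : ℝ × ℝ) ∈ A1 from ⟨a1, a3⟩),
      indicator_of_mem (show ((s.1.2, s.2.2) : ℝ × ℝ) ∈ A2 from ⟨a2, a4⟩)]

/-- The local theorem. -/
theorem TH_fam [FiniteDimensional ℝ P] (h : FamOk F p0 x0 y0 r)
    (hc : CaseD F p0 x0 y0 ∨ CaseN F p0 x0 y0) :
    ∃ δ : ℝ, 0 < δ ∧ ∃ C : ℝ, 0 ≤ C ∧ ∀ p ∈ ball p0 δ, 0 ≤ F.μ p → ∀ φ w : YX → ℝ,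
    Agr F p x0 y0 δ φ w → ∀ T : ℝ, 1 ≤ T →
    ∀ α β : ℝ × ℝ → ℂ, Measurable α → Measurable β → (∀ p, ‖α p‖ ≤ 1) → (∀ p, ‖β p‖ ≤ 1) →
      (∀ p, α p ≠ 0 → |p.1 - y0.1| ≤ δ ∧ |p.2 - x0.1| ≤ δ) →
      (∀ p, β p ≠ 0 → |p.1 - y0.2| ≤ δ ∧ |p.2 - x0.2| ≤ δ) →
      Thg φ w T (pd α β) ≤ ENNReal.ofReal (C * (1 + Real.log T) ^ 4 / T) := by
  obtain ⟨δa, hδa, hδa1, B, R, hB, hcut⟩ := fam_cut F p0 x0 y0 r h
  have hfull : ∀ (p : P) (δ : ℝ), Agr F p x0 y0 δ (fun s => F.ψ (p, s)) (fun s => F.W (p, s)) :=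
    fun p δ s _ => ⟨rfl, rfl⟩
  have hFF : ∀ (p : P) (δ δ' γ d T : ℝ) (φ w : YX → ℝ), Agr F p x0 y0 δ φ w →
      ∀ A₁ A₂ : V → ℂ, Sp δ y0.1 x0.1 γ A₁ → Sp δ y0.2 x0.2 d A₂ →
      FFg φ w T (tp A₁ A₂) = FFg (fun s => F.ψ (p, s)) (fun s => F.W (p, s)) T (tp A₁ A₂) := by
    intro p δ δ' γ d T φ w hA A₁ A₂ h1 h2
    refine FFg_congr _ _ _ _ T _ (fun q hq => ?_)
    obtain ⟨b1, b2⟩ := Sp_Bx h1 h2 hq
    exact ⟨(hA _ b1).1, (hA _ b2).1, (hA _ b1).2, (hA _ b2).2⟩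
  rcases hc with hD | hN
  · obtain ⟨C0, C3, C4, c1, δb, hC0, hC3, hC4, hc1, hδb, hδb1, hE⟩ := famD_E F p0 x0 y0 r h hD
    obtain ⟨δm, hδm, Cm, hCm, hM⟩ := mainD F p0 x0 y0 r h hD (C0 * (8 + 8 * C4)) (2 * C4)
      (by linarith)
    set η : ℝ := min 1 δm with hη
    have hη0 : 0 < η := by positivity
    obtain ⟨δ1, hδ1, hE⟩ := hE η hη0
    obtain ⟨C, hC, hcore⟩ := coreD B C0 C3 C4 c1 hB hC0 hC3 hC4 hc1
    set δ : ℝ := min (min δa δb) (min δ1 δm) with hδ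
    have hδ0 : 0 < δ := by positivity
    have d1 : δ ≤ δa := (min_le_left _ _).trans (min_le_left _ _)
    have d2 : δ ≤ δb := (min_le_left _ _).trans (min_le_right _ _)
    have d3 : δ ≤ δ1 := (min_le_right _ _).trans (min_le_left _ _)
    have d4 : δ ≤ δm := (min_le_right _ _).trans (min_le_right _ _)
    refine ⟨δ / 2, by positivity, C * max 1 Cm, by positivity,
      fun p hp hμ φ w hA T hT α β hα hβ hα1 hβ1 hαs hβs => ?_⟩
    have hT0 : 0 < T := by linarith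
    have hp' : ∀ ρ : ℝ, δ ≤ ρ → p ∈ ball p0 ρ := fun ρ hρ => by
      rw [mem_ball] at hp ⊢
      linarith
    obtain ⟨φ', w', om, sg, hadm, hA', hom, hsg, hnn⟩ := hcut δ hδ0 d1 p (hp' _ d1)
    have hcg : Thg φ w T (pd α β) = Thg φ' w' T (pd α β) := by
      refine Thg_congr φ w φ' w' T _ (fun s hs => ?_)
      have b0 := pd_Bx hαs hβs hs
      obtain ⟨f1, f2⟩ := hA s b0
      obtain ⟨g1, g2⟩ := hA' s (Bx_mono b0 (by linarith))
      exact ⟨f1.trans g1.symm, f2.trans g2.symm⟩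
    rw [hcg]
    obtain ⟨E1, E2, E3, E4, E5⟩ := hE δ hδ0 d2 p (by
      rw [mem_ball]
      exact lt_min (mem_ball.1 (hp' _ d2)) (mem_ball.1 (hp' _ d3))) hμ φ' w' hA'
    have nx : ∀ q, NbG δ x0 y0 q → nn om sg (px q) = F.N p (px q) := fun q hq => hnn _ hq.1
    have nz : ∀ q, NbG δ x0 y0 q → nn om sg (pz q) = F.N p (pz q) := fun q hq => hnn _ hq.2.1
    refine hcore R φ' w' hadm om sg hom hsg x0 y0 δ η (F.μ p) 1 (max 1 Cm) T hδ0
      (d1.trans hδa1) hη0 (min_le_left _ _) hμ one_pos le_rfl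
      (by rw [div_one]; exact le_max_left _ _) hT ?_ ?_ ?_ ?_ ?_ ?_ α β hα hβ hα1 hβ1 hαs hβs
    · intro s hs
      rw [hnn s hs]
      exact E1 d3 s hs
    · intro q hq
      rw [nx q hq, nz q hq]
      exact E2 q hq
    · intro κ q hκ hκη hq n1 n2 hz
      rw [nx q hq] at n1
      rw [nz q hq] at n2
      rw [one_mul] at hz
      exact E3 κ q hκ hq n1 n2 hz
    · intro κ q hκ hκη hq n1 hz
      rw [nx q hq, nz q hq] at n1
      rw [one_mul] at hz ⊢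
      exact E4 κ q hκ hq n1 hz
    · intro κ γ d hκ hκη hγ hd
      refine le_trans (measure_mono ?_) (E5 κ γ d hκ hγ hd)
      rintro q ⟨q1, q2, q3, q4⟩
      rw [nx q q1] at q2
      exact ⟨q1, q2, q3, q4⟩
    · intro κ γ d hκ hκη hγ hγδ hd hμγ hc1 hc2 A₁ A₂ hA1 hA2 b1 b2 s1 s2
      rw [one_mul] at hc1 hc2
      rw [hFF p δ δm γ d T φ' w' hA' A₁ A₂ s1 s2]
      refine (hM p (hp' _ d4) hμ _ _ (hfull p δm) T κ γ d hT0 hκ
        (hκη.trans (min_le_right _ _)) hγ (by linarith) hd hμγ hc1 hc2 A₁ A₂ hA1 hA2 b1 b2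
        (Sp_mono s1 d4) (Sp_mono s2 d4)).trans ?_
      gcongr
      exact le_max_right _ _
  · obtain ⟨C4, c1, δb, hC4, hc1, hδb, hδb1, hE⟩ := famN_E F p0 x0 y0 r h hN.n0
    obtain ⟨δm, hδm, Cm, hCm, hM⟩ := mainN F p0 x0 y0 r h hN (2 * C4) (by linarith)
    obtain ⟨C, hC, hcore⟩ := coreN B C4 c1 hB hC4 hc1
    set δ : ℝ := min (min δa δb) δm with hδ
    have hδ0 : 0 < δ := by positivity
    have d1 : δ ≤ δa := (min_le_left _ _).trans (min_le_left _ _)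
    have d2 : δ ≤ δb := (min_le_left _ _).trans (min_le_right _ _)
    have d4 : δ ≤ δm := min_le_right _ _
    refine ⟨δ / 2, by positivity, C * max 1 Cm, by positivity,
      fun p hp hμ φ w hA T hT α β hα hβ hα1 hβ1 hαs hβs => ?_⟩
    have hT0 : 0 < T := by linarith
    have hp' : ∀ ρ : ℝ, δ ≤ ρ → p ∈ ball p0 ρ := fun ρ hρ => by
      rw [mem_ball] at hp ⊢
      linarith
    obtain ⟨φ', w', om, sg, hadm, hA', hom, hsg, hnn⟩ := hcut δ hδ0 d1 p (hp' _ d1)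
    have hcg : Thg φ w T (pd α β) = Thg φ' w' T (pd α β) := by
      refine Thg_congr φ w φ' w' T _ (fun s hs => ?_)
      have b0 := pd_Bx hαs hβs hs
      obtain ⟨f1, f2⟩ := hA s b0
      obtain ⟨g1, g2⟩ := hA' s (Bx_mono b0 (by linarith))
      exact ⟨f1.trans g1.symm, f2.trans g2.symm⟩
    rw [hcg]
    have hE' := hE δ hδ0 d2 p (hp' _ d2) φ' w' hA'
    refine hcore R φ' w' hadm x0 y0 δ 1 (max 1 Cm) T hδ0 (d1.trans hδa1) one_pos le_rfl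
      (by rw [div_one]; exact le_max_left _ _) hT ?_ ?_ α β hα hβ hα1 hβ1 hαs hβs
    · intro q hq hz
      rw [one_mul] at hz ⊢
      exact hE' q hq hz
    · intro γ d hγ hγδ hd hc1 hc2 A₁ A₂ hA1 hA2 b1 b2 s1 s2
      rw [one_mul] at hc1 hc2
      rw [hFF p δ δm γ d T φ' w' hA' A₁ A₂ s1 s2]
      refine (hM p (hp' _ d4) _ _ (hfull p δm) T γ d hT0 hγ (by linarith) hd hc1 hc2
        A₁ A₂ hA1 hA2 b1 b2 (Sp_mono s1 d4) (Sp_mono s2 d4)).trans ?_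
      gcongr
      exact le_max_right _ _

end family

end Pool.Agent.SDT.N1G

end -- N1G.L2
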