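import Pool.Agent.SDT.B61

set_option autoImplicit false

namespace Pool.Agent.SDT.MP_6cbfb8_an
end Pool.Agent.SDT.MP_6cbfb8_an
namespace Pool.Agent.SDT.MST
end Pool.Agent.SDT.MST
namespace Pool.Agent.SDT.N1
end Pool.Agent.SDT.N1
namespace Pool.Agent.SDT.N1F
end Pool.Agent.SDT.N1F
namespace Pool.Agent.SDT.N1G
end Pool.Agent.SDT.N1G

section -- N1F.CHa

/-!
N1F, block A6, part a: sizes of the dyadic blocks; the partition of unity.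
-/

namespace Pool.Agent.SDT.N1F

open MeasureTheory Set Metric Pool.Agent.SDT.MP_6cbfb8_an Pool.Agent.SDT.MST Pool.Agent.SDT.N1
open scoped ENNReal Real ContDiff

/-- type N: the first size is about `e` times the second -/
def ch_ty (K e Y1 Y2 : ℝ) : Prop := Y1 ≤ K * (e * Y2) ∧ e * Y2 ≤ K * Y1

/-- The case distinction for two differences of type O. -/
theorem ch_sizes (K e Y1 Y2 Z1 Z2 : ℝ) (hK : 1 ≤ K) (he : 0 < e) (he1 : e ≤ 1) (hY1 : 0 < Y1)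
    (hY2 : 0 < Y2) (hZ1 : 0 < Z1) (hZ2 : 0 < Z2) (a : ¬ ch_ty K e Y1 Y2) (a' : ¬ ch_ty K e Y2 Y1)
    (b : ¬ ch_ty K e Z1 Z2) (b' : ¬ ch_ty K e Z2 Z1) :
    (K * (Y2 * Z2) ≤ Y1 * Z1 ∧ K * (e * (Y1 * Z2)) ≤ Y1 * Z1 ∧ K * (e * (Y2 * Z1)) ≤ Y1 * Z1) ∨
    (K * (Y1 * Z1) ≤ Y2 * Z2 ∧ K * (e * (Y1 * Z2)) ≤ Y2 * Z2 ∧ K * (e * (Y2 * Z1)) ≤ Y2 * Z2) ∨
    (K * (Y1 * Z1) ≤ e * (Y1 * Z2) ∧ K * (Y2 * Z2) ≤ e * (Y1 * Z2) ∧
      K * (Y2 * Z1) ≤ Y1 * Z2) ∨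
    (K * (Y1 * Z1) ≤ e * (Y2 * Z1) ∧ K * (Y2 * Z2) ≤ e * (Y2 * Z1) ∧
      K * (Y1 * Z2) ≤ Y2 * Z1) ∨
    (Y1 * Z1 ≤ K * (Y2 * Z2) ∧ Y2 * Z2 ≤ K * (Y1 * Z1) ∧ e * Z2 ≤ K * Z1 ∧ e * Y2 ≤ K * Y1) := by
  have hK0 : 0 < K := by linarith
  -- the four alternatives
  have A : K * (e * (Y2 * Z1)) ≤ Y1 * Z1 ∨ K * (Y1 * Z1) ≤ e * (Y2 * Z1) := by
    by_cases h : Y1 ≤ K * (e * Y2)
    · have h1 : K * Y1 < e * Y2 := not_le.1 fun h2 => a ⟨h, h2⟩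
      right
      nlinarith
    · left
      push Not at h
      nlinarith
  have A' : K * (e * (Y1 * Z2)) ≤ Y2 * Z2 ∨ K * (Y2 * Z2) ≤ e * (Y1 * Z2) := by
    by_cases h : Y2 ≤ K * (e * Y1)
    · have h1 : K * Y2 < e * Y1 := not_le.1 fun h2 => a' ⟨h, h2⟩
      right
      nlinarith
    · left
      push Not at h
      nlinarith
  have B : K * (e * (Y1 * Z2)) ≤ Y1 * Z1 ∨ K * (Y1 * Z1) ≤ e * (Y1 * Z2) := by
    by_cases h : Z1 ≤ K * (e * Z2)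
    · have h1 : K * Z1 < e * Z2 := not_le.1 fun h2 => b ⟨h, h2⟩
      right
      nlinarith
    · left
      push Not at h
      nlinarith
  have B' : K * (e * (Y2 * Z1)) ≤ Y2 * Z2 ∨ K * (Y2 * Z2) ≤ e * (Y2 * Z1) := by
    by_cases h : Z2 ≤ K * (e * Z1)
    · have h1 : K * Z2 < e * Z1 := not_le.1 fun h2 => b' ⟨h, h2⟩
      right
      nlinarith
    · left
      push Not at h
      nlinarith
  have p1 : 0 < Y1 * Z1 := by positivity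
  have p2 : 0 < Y2 * Z2 := by positivity
  have p3 : 0 < e * (Y1 * Z2) := by positivity
  have p4 : 0 < e * (Y2 * Z1) := by positivity
  have hprod : (e * (Y1 * Z2)) * (e * (Y2 * Z1)) = e ^ 2 * ((Y1 * Z1) * (Y2 * Z2)) := by ring
  -- the last alternative from comparison of the first two sizes
  have last : Y1 * Z1 ≤ K * (Y2 * Z2) → Y2 * Z2 ≤ K * (Y1 * Z1) →
      e * (Y1 * Z2) ≤ K * (Y1 * Z1) → e * (Y2 * Z1) ≤ K * (Y1 * Z1) →
      (Y1 * Z1 ≤ K * (Y2 * Z2) ∧ Y2 * Z2 ≤ K * (Y1 * Z1) ∧ e * Z2 ≤ K * Z1 ∧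
        e * Y2 ≤ K * Y1) := by
    intro h1 h2 h3 h4
    refine ⟨h1, h2, ?_, ?_⟩
    · have h5 : Y1 * (e * Z2) ≤ Y1 * (K * Z1) := by linarith
      exact le_of_mul_le_mul_left h5 hY1
    · have h5 : Z1 * (e * Y2) ≤ Z1 * (K * Y1) := by linarith
      exact le_of_mul_le_mul_left h5 hZ1
  by_cases m13 : Y1 * Z1 < e * (Y1 * Z2)
  · -- the first size is not the maximum
    have B2 : K * (Y1 * Z1) ≤ e * (Y1 * Z2) := by
      rcases B with h | h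
      · nlinarith
      · exact h
    by_cases m32 : Y2 * Z2 < e * (Y1 * Z2)
    · have A2 : K * (Y2 * Z2) ≤ e * (Y1 * Z2) := by
        rcases A' with h | h
        · nlinarith
        · exact h
      right; right; left
      refine ⟨B2, A2, ?_⟩
      -- `K² s₁ s₂ ≤ s₃²`, so `K² s₄ ≤ e² s₃`
      have h1 : K * (Y1 * Z1) * (K * (Y2 * Z2)) ≤ (e * (Y1 * Z2)) * (e * (Y1 * Z2)) :=
        mul_le_mul B2 A2 (by positivity) p3.le
      have h2 : K * K * (Y2 * Z1) ≤ e * (e * (Y1 * Z2)) := by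
        have h3 : (Y1 * Z2) * (K * K * (Y2 * Z1)) ≤ (Y1 * Z2) * (e * (e * (Y1 * Z2))) := by
          nlinarith
        exact le_of_mul_le_mul_left h3 (by positivity)
      have h4 : e * (e * (Y1 * Z2)) ≤ Y1 * Z2 := by
        have h5 : 0 < Y1 * Z2 := by positivity
        have h6 : e * e ≤ 1 := by nlinarith
        nlinarith
      have h7 : 0 < Y2 * Z1 := by positivity
      have h8 : K * (Y2 * Z1) ≤ K * K * (Y2 * Z1) :=
        mul_le_mul_of_nonneg_right (le_mul_of_one_le_left hK0.le hK) h7.le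
      linarith
    · push Not at m32
      -- the second size is at least the third, which is larger than the first
      by_cases m24 : Y2 * Z2 < e * (Y2 * Z1)
      · -- fourth is larger than second
        exfalso
        -- `s₁ < s₃ ≤ s₂ < s₄` contradicts `s₃ s₄ ≤ s₁ s₂`
        have h1 : (Y1 * Z1) * (Y2 * Z2) < (e * (Y1 * Z2)) * (e * (Y2 * Z1)) :=
          mul_lt_mul'' m13 m24 p1.le p2.le
        rw [hprod] at h1
        have h2 : e ^ 2 ≤ 1 := by nlinarith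
        nlinarith [mul_pos p1 p2]
      · push Not at m24
        -- the second size is the maximum
        by_cases h12 : K * (Y1 * Z1) ≤ Y2 * Z2
        · right; left
          refine ⟨h12, ?_, ?_⟩
          · rcases A' with h | h
            · exact h
            · -- `K s₂ ≤ s₃ ≤ s₂`
              have h3 : K * (Y2 * Z2) ≤ Y2 * Z2 := h.trans m32
              have h4 : K ≤ 1 := by
                by_contra h5
                push Not at h5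
                nlinarith
              have h5 : K = 1 := le_antisymm h4 hK
              rw [h5, one_mul]
              exact m32
          · rcases B' with h | h
            · exact h
            · have h3 : K * (Y2 * Z2) ≤ Y2 * Z2 := h.trans m24
              have h4 : K ≤ 1 := by
                by_contra h5
                push Not at h5
                nlinarith
              have h5 : K = 1 := le_antisymm h4 hK
              rw [h5, one_mul]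
              exact m24
        · push Not at h12
          right; right; right; right
          refine last ?_ h12.le ?_ ?_
          · nlinarith
          · linarith
          · linarith
  · push Not at m13
    by_cases m14 : Y1 * Z1 < e * (Y2 * Z1)
    · have A2 : K * (Y1 * Z1) ≤ e * (Y2 * Z1) := by
        rcases A with h | h
        · nlinarith
        · exact h
      by_cases m24 : Y2 * Z2 < e * (Y2 * Z1)
      · have B2 : K * (Y2 * Z2) ≤ e * (Y2 * Z1) := by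
          rcases B' with h | h
          · nlinarith
          · exact h
        right; right; right; left
        refine ⟨A2, B2, ?_⟩
        have h1 : K * (Y1 * Z1) * (K * (Y2 * Z2)) ≤ (e * (Y2 * Z1)) * (e * (Y2 * Z1)) :=
          mul_le_mul A2 B2 (by positivity) p4.le
        have h2 : K * K * (Y1 * Z2) ≤ e * (e * (Y2 * Z1)) := by
          have h3 : (Y2 * Z1) * (K * K * (Y1 * Z2)) ≤ (Y2 * Z1) * (e * (e * (Y2 * Z1))) := by
            nlinarith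
          exact le_of_mul_le_mul_left h3 (by positivity)
        have h4 : e * (e * (Y2 * Z1)) ≤ Y2 * Z1 := by
          have h5 : 0 < Y2 * Z1 := by positivity
          have h6 : e * e ≤ 1 := by nlinarith
          nlinarith
        have h7 : 0 < Y1 * Z2 := by positivity
        have h8 : K * (Y1 * Z2) ≤ K * K * (Y1 * Z2) :=
          mul_le_mul_of_nonneg_right (le_mul_of_one_le_left hK0.le hK) h7.le
        linarith
      · push Not at m24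
        by_cases m23 : Y2 * Z2 < e * (Y1 * Z2)
        · exfalso
          have h1 : Y1 * Z1 < e * (Y1 * Z2) := by linarith
          linarith
        · push Not at m23
          by_cases h12 : K * (Y1 * Z1) ≤ Y2 * Z2
          · right; left
            refine ⟨h12, ?_, ?_⟩
            · rcases A' with h | h
              · exact h
              · have h3 : K * (Y2 * Z2) ≤ Y2 * Z2 := h.trans m23
                have h4 : K ≤ 1 := by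
                  by_contra h5
                  push Not at h5
                  nlinarith
                have h5 : K = 1 := le_antisymm h4 hK
                rw [h5, one_mul]
                exact m23
            · rcases B' with h | h
              · exact h
              · have h3 : K * (Y2 * Z2) ≤ Y2 * Z2 := h.trans m24
                have h4 : K ≤ 1 := by
                  by_contra h5
                  push Not at h5
                  nlinarith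
                have h5 : K = 1 := le_antisymm h4 hK
                rw [h5, one_mul]
                exact m24
          · push Not at h12
            right; right; right; right
            refine last ?_ h12.le ?_ ?_
            · nlinarith
            · nlinarith
            · linarith
    · push Not at m14
      by_cases m12 : Y1 * Z1 < Y2 * Z2
      · by_cases h12 : K * (Y1 * Z1) ≤ Y2 * Z2
        · right; left
          refine ⟨h12, ?_, ?_⟩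
          · rcases A' with h | h
            · exact h
            · nlinarith
          · rcases B' with h | h
            · exact h
            · nlinarith
        · push Not at h12
          right; right; right; right
          refine last ?_ h12.le ?_ ?_
          · nlinarith
          · nlinarith
          · nlinarith
      · push Not at m12
        by_cases h12 : K * (Y2 * Z2) ≤ Y1 * Z1
        · left
          refine ⟨h12, ?_, ?_⟩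
          · rcases B with h | h
            · exact h
            · have h3 : K * (Y1 * Z1) ≤ Y1 * Z1 := h.trans m13
              have h4 : K ≤ 1 := by
                by_contra h5
                push Not at h5
                nlinarith
              have h5 : K = 1 := le_antisymm h4 hK
              rw [h5, one_mul]
              exact m13
          · rcases A with h | h
            · exact h
            · have h3 : K * (Y1 * Z1) ≤ Y1 * Z1 := h.trans m14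
              have h4 : K ≤ 1 := by
                by_contra h5
                push Not at h5
                nlinarith
              have h5 : K = 1 := le_antisymm h4 hK
              rw [h5, one_mul]
              exact m14
        · push Not at h12
          right; right; right; right
          refine last h12.le ?_ ?_ ?_
          · nlinarith
          · nlinarith
          · nlinarith

/-- The low part of the partition. -/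
noncomputable def ch_rs (J : ℕ) (y : ℝ × ℝ) : ℝ :=
  th (2 ^ J * y.1) + th (2 ^ J * y.2) - th (2 ^ J * y.1) * th (2 ^ J * y.2)

theorem ch_rs_meas (J : ℕ) : Measurable (ch_rs J) := by
  unfold ch_rs
  have h1 : Measurable fun y : ℝ × ℝ => th (2 ^ J * y.1) := measurable_th.comp (by fun_prop)
  have h2 : Measurable fun y : ℝ × ℝ => th (2 ^ J * y.2) := measurable_th.comp (by fun_prop)
  exact (h1.add h2).sub (h1.mul h2)

theorem ch_rs_abs (J : ℕ) (y : ℝ × ℝ) : |ch_rs J y| ≤ 1 := by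
  have h1 := th_nonneg (2 ^ J * y.1)
  have h2 := th_nonneg (2 ^ J * y.2)
  have h3 := th_le_one (2 ^ J * y.1)
  have h4 := th_le_one (2 ^ J * y.2)
  unfold ch_rs
  rw [abs_le]
  constructor <;> nlinarith

theorem ch_rs_ne {J : ℕ} {y : ℝ × ℝ} (h : ch_rs J y ≠ 0) :
    |y.1| ≤ 2 / 2 ^ J ∨ |y.2| ≤ 2 / 2 ^ J := by
  have hJ : (0 : ℝ) < 2 ^ J := by positivity
  by_contra h1
  push Not at h1
  apply h
  have key : ∀ x : ℝ, 2 / 2 ^ J < |x| → th (2 ^ J * x) = 0 := by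
    intro x hx
    by_contra h2
    have h3 := th_support _ h2
    rw [abs_mul, abs_of_pos hJ] at h3
    rw [div_lt_iff₀ hJ] at hx
    linarith
  unfold ch_rs
  rw [key _ h1.1, key _ h1.2]
  ring

/-- Splitting by the partition of unity in a pair of coordinates. -/
theorem ch_part (c : ℝ) (hc : 0 < c) (T : ℝ) (hT : 0 < T) (J : ℕ)
    (Y : V × V → ℝ × ℝ) (hY : Measurable Y) (M : V × V → ℂ) (hM : Measurable M)
    (hM1 : ∀ q, ‖M q‖ ≤ 1) (hMs : ∀ q, M q ≠ 0 → |(Y q).1| ≤ 1 ∧ |(Y q).2| ≤ 1)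
    (K1 K3 : ℝ)
    (h1 : ∀ j k : ℕ, ‖FF c T (fun q => ((uj j (Y q).1 * uj k (Y q).2 : ℝ) : ℂ) * M q)‖ ≤ K1)
    (h4 : ‖FF c T (fun q => ((ch_rs J (Y q) : ℝ) : ℂ) * M q)‖ ≤ K3) :
    ‖FF c T M‖ ≤ (J : ℝ) ^ 2 * K1 + K3 := by
  classical
  let F : (ℕ × ℕ) ⊕ Unit → V × V → ℂ :=
    Sum.elim (fun p q => ((uj p.1 (Y q).1 * uj p.2 (Y q).2 : ℝ) : ℂ) * M q)
      (fun _ q => ((ch_rs J (Y q) : ℝ) : ℂ) * M q)
  let s : Finset ((ℕ × ℕ) ⊕ Unit) := (Finset.range J ×ˢ Finset.range J).disjSum {()}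
  have hY1 : Measurable fun q => (Y q).1 := measurable_fst.comp hY
  have hY2 : Measurable fun q => (Y q).2 := measurable_snd.comp hY
  have hsum : (fun q => ∑ i ∈ s, F i q) = M := by
    funext q
    by_cases hq : M q = 0
    · rw [hq]
      refine Finset.sum_eq_zero ?_
      rintro (p | u) - <;> simp [F, hq]
    · have h5 := th_sum J _ (hMs q hq).1
      have h6 := th_sum J _ (hMs q hq).2
      simp only [s, Finset.sum_disjSum, Finset.sum_singleton, F, Sum.elim_inl, Sum.elim_inr,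
        Finset.sum_product]
      have h7 : (∑ j ∈ Finset.range J, ∑ k ∈ Finset.range J,
          (uj j (Y q).1 * uj k (Y q).2)) + ch_rs J (Y q) = 1 := by
        have h8 : ∑ j ∈ Finset.range J, ∑ k ∈ Finset.range J, (uj j (Y q).1 * uj k (Y q).2) =
            (∑ j ∈ Finset.range J, uj j (Y q).1) * ∑ k ∈ Finset.range J, uj k (Y q).2 := by
          rw [Finset.sum_mul_sum]
        rw [h8, eq_sub_iff_add_eq.2 h5, eq_sub_iff_add_eq.2 h6]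
        unfold ch_rs
        ring
      have h9 : (1 : ℂ) * M q = M q := one_mul _
      rw [← Complex.ofReal_one, ← h7] at h9
      refine Eq.trans ?_ h9
      push_cast
      rw [add_mul, Finset.sum_mul]
      simp only [Finset.sum_mul]
  have hF : ∀ i, Measurable (F i) := by
    rintro (p | u)
    · exact (Complex.measurable_ofReal.comp (((measurable_uj _).comp hY1).mul
        ((measurable_uj _).comp hY2))).mul hM
    · exact (Complex.measurable_ofReal.comp ((ch_rs_meas J).comp hY)).mul hM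
  have hB : ∀ i q, ‖F i q‖ ≤ 1 := by
    rintro (p | u) q
    · exact m2_mul_norm (uj_abs_le _ _) (uj_abs_le _ _) (hM1 q)
    · show ‖((ch_rs J (Y q) : ℝ) : ℂ) * M q‖ ≤ _
      rw [norm_mul, Complex.norm_real, Real.norm_eq_abs]
      exact mul_le_one₀ (ch_rs_abs _ _) (norm_nonneg _) (hM1 q)
  have h5 := FF_sum c hc T hT s F hF _ hB
  rw [hsum] at h5
  rw [h5]
  refine (norm_sum_le _ _).trans ?_
  simp only [s, Finset.sum_disjSum, Finset.sum_singleton, F, Sum.elim_inl, Sum.elim_inr]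
  have h6 : ∑ x ∈ Finset.range J ×ˢ Finset.range J,
      ‖FF c T fun q => ((uj x.1 (Y q).1 * uj x.2 (Y q).2 : ℝ) : ℂ) * M q‖ ≤
        (J : ℝ) ^ 2 * K1 := by
    refine (Finset.sum_le_card_nsmul _ _ K1 ?_).trans (le_of_eq ?_)
    · rintro ⟨j, k⟩ -
      exact h1 j k
    · rw [Finset.card_product, Finset.card_range, nsmul_eq_mul]
      push_cast
      ring
  linarith

end Pool.Agent.SDT.N1F

end -- N1F.CHa

section -- N1G.Ca2

/-!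
N1G, block C1, assembly, part 2: the pieces of the dyadic decomposition.
-/

namespace Pool.Agent.SDT.N1G

open MeasureTheory Set Metric Pool.Agent.SDT.MP_6cbfb8_an Pool.Agent.SDT.MST Pool.Agent.SDT.N1
open scoped ENNReal Real ContDiff

/-- Four corners in `S`. -/
def Cor (S : Set ℝ) (u : V) : Prop :=
  u.2.1 ∈ S ∧ u.2.1 - u.1 ∈ S ∧ u.2.1 - u.2.2 ∈ S ∧ u.2.1 - u.1 - u.2.2 ∈ S

/-- the support condition of a cap -/
def ca_cap (S : Set ℝ) (r x : ℝ) (G : ℝ → ℂ) : Prop := ∀ a, G a ≠ 0 → a ∈ S ∧ |a - x| ≤ r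

theorem ca_Q_Cor {S1 S2 : Set ℝ} {r x1 x2 : ℝ} {G₁ G₂ : ℝ → ℂ} (h1 : ca_cap S1 r x1 G₁)
    (h2 : ca_cap S2 r x2 G₂) {q : V × V} (h : m2_Q G₁ G₂ q ≠ 0) : Cor S1 q.1 ∧ Cor S2 q.2 := by
  obtain ⟨⟨a1, a2, a3, a4⟩, b1, b2, b3, b4⟩ := m2_Q_ne h
  exact ⟨⟨(h1 _ a1).1, (h1 _ a2).1, (h1 _ a3).1, (h1 _ a4).1⟩,
    (h2 _ b1).1, (h2 _ b2).1, (h2 _ b3).1, (h2 _ b4).1⟩

theorem ca_Q_le {S1 S2 : Set ℝ} {r x1 x2 : ℝ} {G₁ G₂ : ℝ → ℂ} (h1 : ca_cap S1 r x1 G₁)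
    (h2 : ca_cap S2 r x2 G₂) (hr : r ≤ 1 / 2) {q : V × V} (h : m2_Q G₁ G₂ q ≠ 0) :
    |q.1.1| ≤ 1 ∧ |q.2.1| ≤ 1 ∧ |q.1.2.2| ≤ 1 ∧ |q.2.2.2| ≤ 1 := by
  obtain ⟨⟨a1, a2, a3, a4⟩, b1, b2, b3, b4⟩ := m2_Q_ne h
  have key : ∀ (x a y : ℝ), |a - x| ≤ r → |a - y - x| ≤ r → |y| ≤ 1 := by
    intro x a y h3 h4
    rw [abs_le] at *
    constructor <;> linarith
  exact ⟨key x1 _ _ (h1 _ a1).2 (h1 _ a2).2, key x2 _ _ (h2 _ b1).2 (h2 _ b2).2,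
    key x1 _ _ (h1 _ a1).2 (h1 _ a3).2, key x2 _ _ (h2 _ b1).2 (h2 _ b3).2⟩

/-- The conclusion of TH, as a property of the constants. -/
def ca_TH (g w : ℝ × ℝ → ℝ) (S1 S2 : Set ℝ) (k0 : ℕ) (r C : ℝ) : Prop := ∀ T : ℝ, 1 ≤ T →
    ∀ ρ : ℝ, 0 < ρ → ∀ x0 : ℝ × ℝ, ∀ α β : ℝ × ℝ → ℂ, Measurable α → Measurable β →
      (∀ p, ‖α p‖ ≤ 1) → (∀ p, ‖β p‖ ≤ 1) →
      (∀ p, α p ≠ 0 → p.2 ∈ S1 ∧ p.2 - p.1 ∈ S1 ∧ |p.2 - x0.1| ≤ r ∧ |p.2 - p.1 - x0.1| ≤ r ∧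
        1 / 2 ≤ |p.1 / ρ| ∧ |p.1 / ρ| ≤ 2) →
      (∀ p, β p ≠ 0 → p.2 ∈ S2 ∧ p.2 - p.1 ∈ S2 ∧ |p.2 - x0.2| ≤ r ∧ |p.2 - p.1 - x0.2| ≤ r ∧
        1 / 2 ^ (k0 + 1) ≤ |p.1 / ρ| ∧ |p.1 / ρ| ≤ 2 ^ (k0 + 1)) →
      Thg (dif g) (dam w) T (pd α β) ≤ ENNReal.ofReal (C * (1 + Real.log T) ^ 5 / T)

theorem ca_N0 (g w : ℝ × ℝ → ℝ) (S1 S2 : Set ℝ) (k0 : ℕ) (r C : ℝ)
    (hTH : ca_TH g w S1 S2 k0 r C)
    (T : ℝ) (hT : 1 ≤ T) (x1 x2 : ℝ) (G₁ G₂ : ℝ → ℂ) (h1 : Measurable G₁) (h2 : Measurable G₂)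
    (b1 : ∀ a, ‖G₁ a‖ ≤ 1) (b2 : ∀ a, ‖G₂ a‖ ≤ 1) (hG1 : ca_cap S1 r x1 G₁)
    (hG2 : ca_cap S2 r x2 G₂) (j k : ℕ) (hjk : j < k + k0) (hkj : k < j + k0) (η₁ η₂ : ℝ) :
    Thg (dif g) (dam w) T (pd (m2_ac j G₁ η₁) (m2_ac k G₂ η₂)) ≤
      ENNReal.ofReal (C * (1 + Real.log T) ^ 5 / T) := by
  refine hTH T hT (1 / 2 ^ j) (by positivity) (x1, x2) _ _ (m2_ac_meas j η₁ h1)
    (m2_ac_meas k η₂ h2) (m2_ac_norm j η₁ b1) (m2_ac_norm k η₂ b2) ?_ ?_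
  · intro p hp
    obtain ⟨h3, h4, h5⟩ := m2_ac_ne hp
    obtain ⟨h6, h7⟩ := m2_uj_scale1 h3
    exact ⟨(hG1 _ h4).1, (hG1 _ h5).1, (hG1 _ h4).2, (hG1 _ h5).2, h6, h7⟩
  · intro p hp
    obtain ⟨h3, h4, h5⟩ := m2_ac_ne hp
    obtain ⟨h6, h7⟩ := m2_uj_scale hjk hkj h3
    exact ⟨(hG2 _ h4).1, (hG2 _ h5).1, (hG2 _ h4).2, (hG2 _ h5).2, h6, h7⟩

/-- The nondegenerate pieces. -/
theorem ca_N {B R : ℝ} {g w : ℝ × ℝ → ℝ} (hpd : PD B R g w) (S1 S2 : Set ℝ) (k0 : ℕ) (r C : ℝ)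
    (hC : 0 ≤ C) (hTH : ca_TH g w S1 S2 k0 r C)
    (T : ℝ) (hT : 1 ≤ T) (x1 x2 : ℝ) (G₁ G₂ : ℝ → ℂ) (h1 : Measurable G₁) (h2 : Measurable G₂)
    (b1 : ∀ a, ‖G₁ a‖ ≤ 1) (b2 : ∀ a, ‖G₂ a‖ ≤ 1) (hG1 : ca_cap S1 r x1 G₁)
    (hG2 : ca_cap S2 r x2 G₂) (j k : ℕ) (hjk : j < k + k0) (hkj : k < j + k0) (η₁ η₂ : ℝ) :
    ‖FFg (dif g) (dam w) T (fun q => m2_psi j k (q.1.1, q.2.1) *
      (ex (η₁ * q.1.2.2) * ex (η₂ * q.2.2.2) * m2_Q G₁ G₂ q))‖ ≤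
      C * (1 + Real.log T) ^ 5 / T := by
  have hT0 : 0 < T := by linarith
  have hL : 0 ≤ Real.log T := Real.log_nonneg hT
  refine m2_enorm_le (by positivity) ?_
  have h3 := FFg_weight (B * B) (2 * R) (dif g) (dam w) hpd.adm T hT0 (pd (m2_al G₁ η₁) (m2_al G₂ η₂))
    (m2_pd_meas (m2_al_meas h1 η₁) (m2_al_meas h2 η₂))
    (m2_pd_norm (m2_al_norm b1 η₁) (m2_al_norm b2 η₂)) (m2_psi j k) (m2_psi_meas j k)
    (m2_psi_norm j k)
  rw [m2_ac_pd] at h3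
  simp only [m2_sq_mod] at h3
  exact h3.trans (ca_N0 g w S1 S2 k0 r C hTH T hT x1 x2 G₁ G₂ h1 h2 b1 b2 hG1 hG2 j k hjk hkj η₁ η₂)

/-- Outer direction near an axis, inner direction nondegenerate. -/
theorem ca_DN {B0 R : ℝ} {g w : ℝ × ℝ → ℝ} (hpd : PD B0 R g w) (S1 S2 : Set ℝ) (k0 : ℕ) (r C : ℝ)
    (hC : 0 ≤ C) (hTH : ca_TH g w S1 S2 k0 r C)
    (T : ℝ) (hT : 1 ≤ T) (x1 x2 : ℝ) (G₁ G₂ : ℝ → ℂ) (h1 : Measurable G₁) (h2 : Measurable G₂)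
    (b1 : ∀ a, ‖G₁ a‖ ≤ 1) (b2 : ∀ a, ‖G₂ a‖ ≤ 1) (hG1 : ca_cap S1 r x1 G₁)
    (hG2 : ca_cap S2 r x2 G₂) (j k : ℕ) (hjk : j < k + k0) (hkj : k < j + k0)
    (B : ℝ) (m1 m2 : ℝ → ℂ) (hm1 : FT1 B m1) (hm2 : FT1 B m2) (m2m : Measurable m2)
    (m2b : ∀ x, ‖m2 x‖ ≤ 1) :
    ‖FFg (dif g) (dam w) T (fun q => m2_psi j k (q.1.2.2, q.2.2.2) *
      (m1 q.1.1 * m2 q.2.1 * m2_Q G₁ G₂ q))‖ ≤
      B * (B * (C * (1 + Real.log T) ^ 5 / T)) := by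
  have hT0 : 0 < T := by linarith
  have hQm := m2_Q_meas h1 h2
  have hQn := m2_Q_norm b1 b2
  have hpm : Measurable fun q : V × V => m2_psi j k (q.1.2.2, q.2.2.2) :=
    (m2_psi_meas j k).comp (by fun_prop)
  -- the innermost estimate
  have k1 : ∀ η₁ η₂ : ℝ, ‖FFg (dif g) (dam w) T (fun q => ex (η₂ * q.2.1) * (ex (η₁ * q.1.1) *
      (m2_psi j k (q.1.2.2, q.2.2.2) * m2_Q G₁ G₂ q)))‖ ≤ C * (1 + Real.log T) ^ 5 / T := by
    intro η₁ η₂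
    have h3 := ca_N hpd S1 S2 k0 r C hC hTH T hT x1 x2 G₁ G₂ h1 h2 b1 b2 hG1 hG2 j k hjk hkj η₁ η₂
    rw [← FFg_swp] at h3
    have h4 : (fun q : V × V => m2_psi j k ((swp q).1.1, (swp q).2.1) *
        (ex (η₁ * (swp q).1.2.2) * ex (η₂ * (swp q).2.2.2) * m2_Q G₁ G₂ (swp q))) =
        fun q => ex (η₂ * q.2.1) * (ex (η₁ * q.1.1) *
          (m2_psi j k (q.1.2.2, q.2.2.2) * m2_Q G₁ G₂ q)) := by
      funext q
      rw [m2_Q_swp]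
      unfold swp
      simp only
      ring
    rw [h4] at h3
    exact h3
  have k2 : ∀ η₁ : ℝ, ‖FFg (dif g) (dam w) T (fun q => ex (η₁ * q.1.1) * (m2 q.2.1 *
      (m2_psi j k (q.1.2.2, q.2.2.2) * m2_Q G₁ G₂ q)))‖ ≤
      B * (C * (1 + Real.log T) ^ 5 / T) := by
    intro η₁
    have h3 := expandg (B0 * B0) (2 * R) (dif g) (dam w) hpd.adm T hT0 B m2 hm2 (fun q => ex (η₁ * q.1.1) *
      (m2_psi j k (q.1.2.2, q.2.2.2) * m2_Q G₁ G₂ q)) ?_ 1 ?_ (fun q => q.2.1) (by fun_prop)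
      (C * (1 + Real.log T) ^ 5 / T) (k1 η₁)
    · have h4 : (fun q : V × V => ex (η₁ * q.1.1) * (m2 q.2.1 *
          (m2_psi j k (q.1.2.2, q.2.2.2) * m2_Q G₁ G₂ q))) =
          fun q : V × V => m2 q.2.1 * (ex (η₁ * q.1.1) *
          (m2_psi j k (q.1.2.2, q.2.2.2) * m2_Q G₁ G₂ q)) := by
        funext q
        ring
      rw [h4]
      exact h3
    · exact (measurable_ex.comp (by fun_prop)).mul (hpm.mul hQm)
    · intro q
      rw [norm_mul, norm_mul, m2_ex_norm, one_mul]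
      exact mul_le_one₀ (m2_psi_norm _ _ _) (norm_nonneg _) (hQn _)
  have h3 := expandg (B0 * B0) (2 * R) (dif g) (dam w) hpd.adm T hT0 B m1 hm1 (fun q => m2 q.2.1 *
      (m2_psi j k (q.1.2.2, q.2.2.2) * m2_Q G₁ G₂ q)) ?_ 1 ?_ (fun q => q.1.1) (by fun_prop)
      (B * (C * (1 + Real.log T) ^ 5 / T)) k2
  · have h4 : (fun q : V × V => m2_psi j k (q.1.2.2, q.2.2.2) *
        (m1 q.1.1 * m2 q.2.1 * m2_Q G₁ G₂ q)) =
        fun q : V × V => m1 q.1.1 * (m2 q.2.1 *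
          (m2_psi j k (q.1.2.2, q.2.2.2) * m2_Q G₁ G₂ q)) := by
      funext q
      ring
    rw [h4]
    exact h3
  · exact (m2m.comp (by fun_prop)).mul (hpm.mul hQm)
  · intro q
    rw [norm_mul, norm_mul]
    exact mul_le_one₀ (m2b _) (by positivity)
      (mul_le_one₀ (m2_psi_norm _ _ _) (norm_nonneg _) (hQn _))

/-- The elementary estimate for directions near the axes. -/
def ca_DE (g w : ℝ × ℝ → ℝ) (S1 S2 : Set ℝ) (k0 : ℕ) (c1 : ℝ) : Prop := ∀ q : V × V,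
    Cor S1 q.1 → Cor S2 q.2 → Wg (dam w) q ≠ 0 →
    (|q.2.1| ≤ 4 / 2 ^ k0 * |q.1.1| → |q.2.2.2| ≤ 4 / 2 ^ k0 * |q.1.2.2| →
      c1 * |q.1.1| * |q.1.2.2| ≤ |Fg (dif g) q|) ∧
    (|q.2.1| ≤ 4 / 2 ^ k0 * |q.1.1| → |q.1.2.2| ≤ 4 / 2 ^ k0 * |q.2.2.2| →
      c1 * |q.1.1| * |q.2.2.2| ≤ |Fg (dif g) q|) ∧
    (|q.1.1| ≤ 4 / 2 ^ k0 * |q.2.1| → |q.2.2.2| ≤ 4 / 2 ^ k0 * |q.1.2.2| →
      c1 * |q.2.1| * |q.1.2.2| ≤ |Fg (dif g) q|) ∧
    (|q.1.1| ≤ 4 / 2 ^ k0 * |q.2.1| → |q.1.2.2| ≤ 4 / 2 ^ k0 * |q.2.2.2| →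
      c1 * |q.2.1| * |q.2.2.2| ≤ |Fg (dif g) q|)

/-- Both directions near an axis. -/
theorem ca_DD (B R : ℝ) (hR : 0 ≤ R) (k0 : ℕ) (c1 : ℝ) (hc1 : 0 < c1) : ∃ C : ℝ, 0 ≤ C ∧
    ∀ g w : ℝ × ℝ → ℝ, PD B R g w → ∀ S1 S2 : Set ℝ, ca_DE g w S1 S2 k0 c1 → ∀ T : ℝ, 0 < T →
    ∀ (M : V × V → ℂ) (s s' : ℝ), Measurable M → (∀ q, ‖M q‖ ≤ 1) → 0 < s → 0 < s' →
    (∀ q, M q ≠ 0 → Cor S1 q.1 ∧ Cor S2 q.2 ∧ m2_Dg k0 s (q.1.1, q.2.1) ∧
      m2_Dg k0 s' (q.1.2.2, q.2.2.2)) →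
    ‖FFg (dif g) (dam w) T M‖ ≤ C / T := by
  obtain ⟨C, hC, hA⟩ := ca_abs B R hR
  refine ⟨256 * C / c1 ^ 2, by positivity, ?_⟩
  intro g w hpd S1 S2 hE T hT M s s' hM hM1 hs hs' hsup
  have h1 := hA g w hpd T hT M (2 * s) (2 * s') (c1 * (s / 2) * (s' / 2)) hM hM1 (by positivity)
    (by positivity) (by positivity) ?_
  · refine h1.trans ?_
    set X : ℝ := T * (c1 * (s / 2) * (s' / 2)) with hX
    have hX0 : 0 ≤ X := by positivity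
    have h2 : C * T * ((2 * s) ^ 2 * (2 * s') ^ 2) = 256 * C / c1 ^ 2 / T * X ^ 2 := by
      rw [hX]
      field_simp
      ring
    rw [h2, div_le_iff₀ (by positivity)]
    have h3 : X ^ 2 ≤ (1 + X) ^ 3 := by nlinarith [pow_nonneg hX0 3, pow_nonneg hX0 2]
    have h4 : 0 ≤ 256 * C / c1 ^ 2 / T := by positivity
    gcongr
  · intro q hq hW
    obtain ⟨hG1, hG2, ⟨a1, a2, a3⟩, d1, d2, d3⟩ := hsup q hq
    simp only at a1 a2 a3 d1 d2 d3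
    obtain ⟨e1, e2, e3, e4⟩ := hE q hG1 hG2 hW
    refine ⟨a1, a2, d1, d2, ?_⟩
    have key : ∀ u v w : ℝ, s / 2 ≤ u → s' / 2 ≤ v → c1 * u * v ≤ w →
        c1 * (s / 2) * (s' / 2) ≤ w := by
      intro u v w hu hv hw
      have hu0 : 0 ≤ u := le_trans (by positivity) hu
      refine le_trans ?_ hw
      gcongr
    rcases a3 with ⟨a3, a4⟩ | ⟨a3, a4⟩
    · rcases d3 with ⟨d3, d4⟩ | ⟨d3, d4⟩
      · exact key _ _ _ a3 d3 (e1 a4 d4)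
      · exact key _ _ _ a3 d3 (e2 a4 d4)
    · rcases d3 with ⟨d3, d4⟩ | ⟨d3, d4⟩
      · exact key _ _ _ a3 d3 (e3 a4 d4)
      · exact key _ _ _ a3 d3 (e4 a4 d4)

/-- The low part of a partition. -/
theorem ca_rest (B R : ℝ) (hR : 0 ≤ R) (k0 : ℕ) : ∃ C : ℝ, 0 ≤ C ∧ ∀ g w : ℝ × ℝ → ℝ,
    PD B R g w → ∀ T : ℝ, 1 ≤ T → ∀ J : ℕ,
    T ≤ 2 ^ J → ∀ (M : V × V → ℂ) (rest : ℝ × ℝ → ℝ) (Y : V × V → ℝ × ℝ), Measurable M →
    (∀ q, ‖M q‖ ≤ 1) → Measurable Y → Measurable rest → (∀ y, |rest y| ≤ 4 * (k0 : ℝ) + 4) →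
    (∀ y, rest y ≠ 0 → (|y.1| ≤ 2 ^ (k0 + 2) / 2 ^ J ∧ |y.2| ≤ 2 ^ (k0 + 2) / 2 ^ J)) →
    (∀ q, M q ≠ 0 → |q.1.1| ≤ 1 ∧ |q.2.1| ≤ 1 ∧ |q.1.2.2| ≤ 1 ∧ |q.2.2.2| ≤ 1) →
    ((∀ q, Y q = (q.1.1, q.2.1)) ∨ (∀ q, Y q = (q.1.2.2, q.2.2.2))) →
    ‖FFg (dif g) (dam w) T (fun q => ((rest (Y q) : ℝ) : ℂ) * M q)‖ ≤ C / T := by
  obtain ⟨C, hC, hA⟩ := ca_abs B R hR
  refine ⟨(4 * (k0 : ℝ) + 4) * (C * (2 ^ (k0 + 2)) ^ 2), by positivity, ?_⟩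
  intro g w hpd T hT J hJ M rest Y hM hM1 hY hr hr1 hr2 hMs hYc
  have hT0 : 0 < T := by linarith
  have hk : (0 : ℝ) < 4 * (k0 : ℝ) + 4 := by positivity
  have e1 : (fun q => ((rest (Y q) : ℝ) : ℂ) * M q) =
      fun q => ((4 * (k0 : ℝ) + 4 : ℝ) : ℂ) *
        (((rest (Y q) / (4 * (k0 : ℝ) + 4) : ℝ) : ℂ) * M q) := by
    funext q
    rw [← mul_assoc, ← Complex.ofReal_mul]
    congr 3
    field_simp
  rw [e1, ca_smul, norm_mul, Complex.norm_real, Real.norm_eq_abs, abs_of_pos hk]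
  set e : ℝ := 2 ^ (k0 + 2) / 2 ^ J with he
  have he0 : 0 ≤ e := by positivity
  have hbound : C * T * e ^ 2 ≤ C * (2 ^ (k0 + 2)) ^ 2 / T := by
    rw [he, div_pow, le_div_iff₀ hT0]
    have h3 : T ^ 2 ≤ (2 ^ J) ^ 2 := by gcongr
    have h4 : (0 : ℝ) < (2 ^ J) ^ 2 := by positivity
    have h5 : C * T * ((2 ^ (k0 + 2)) ^ 2 / (2 ^ J) ^ 2) * T =
        C * (2 ^ (k0 + 2)) ^ 2 * (T ^ 2 / (2 ^ J) ^ 2) := by ring
    rw [h5]
    have h6 : T ^ 2 / (2 ^ J) ^ 2 ≤ 1 := (div_le_one h4).2 h3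
    calc C * (2 ^ (k0 + 2)) ^ 2 * (T ^ 2 / (2 ^ J) ^ 2) ≤ C * (2 ^ (k0 + 2)) ^ 2 * 1 := by
          gcongr
      _ = _ := mul_one _
  have hm : Measurable fun q => ((rest (Y q) / (4 * (k0 : ℝ) + 4) : ℝ) : ℂ) * M q :=
    (Complex.measurable_ofReal.comp ((hr.comp hY).div_const _)).mul hM
  have hn : ∀ q, ‖((rest (Y q) / (4 * (k0 : ℝ) + 4) : ℝ) : ℂ) * M q‖ ≤ 1 := by
    intro q
    rw [norm_mul, Complex.norm_real, Real.norm_eq_abs, abs_div, abs_of_pos hk]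
    exact mul_le_one₀ ((div_le_one hk).2 (hr1 _)) (norm_nonneg _) (hM1 _)
  have hne : ∀ q, ((rest (Y q) / (4 * (k0 : ℝ) + 4) : ℝ) : ℂ) * M q ≠ 0 →
      rest (Y q) ≠ 0 ∧ M q ≠ 0 := by
    intro q hq
    refine ⟨?_, right_ne_zero_of_mul hq⟩
    intro h3
    rw [h3] at hq
    simp at hq
  have hfin : ‖FFg (dif g) (dam w) T fun q => ((rest (Y q) / (4 * (k0 : ℝ) + 4) : ℝ) : ℂ) * M q‖ ≤
      C * (2 ^ (k0 + 2)) ^ 2 / T := by
    refine le_trans ?_ hbound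
    rcases hYc with hYc | hYc
    · have h3 := hA g w hpd T hT0 _ e 1 0 hm hn he0 zero_le_one le_rfl ?_
      · refine h3.trans (le_of_eq ?_)
        ring
      · intro q hq _
        obtain ⟨h4, h5⟩ := hne q hq
        have h6 := hr2 _ h4
        rw [hYc] at h6
        have h7 := hMs q h5
        exact ⟨h6.1, h6.2, h7.2.2.1, h7.2.2.2, abs_nonneg _⟩
    · have h3 := hA g w hpd T hT0 _ 1 e 0 hm hn zero_le_one he0 le_rfl ?_
      · refine h3.trans (le_of_eq ?_)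
        ring
      · intro q hq _
        obtain ⟨h4, h5⟩ := hne q hq
        have h6 := hr2 _ h4
        rw [hYc] at h6
        have h7 := hMs q h5
        exact ⟨h7.1, h7.2.1, h6.1, h6.2, abs_nonneg _⟩
  calc (4 * (k0 : ℝ) + 4) * ‖FFg (dif g) (dam w) T fun q =>
        ((rest (Y q) / (4 * (k0 : ℝ) + 4) : ℝ) : ℂ) * M q‖ ≤
        (4 * (k0 : ℝ) + 4) * (C * (2 ^ (k0 + 2)) ^ 2 / T) := by gcongr
    _ = _ := by ring

end Pool.Agent.SDT.N1G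

end -- N1G.Ca2

section -- N1G.Ca5

/-!
N1G, block C1, assembly, part 5: from local estimates for the positive form to the estimate for
all comparable outer directions.
-/

namespace Pool.Agent.SDT.N1G

open MeasureTheory Set Metric Pool.Agent.SDT.MP_6cbfb8_an Pool.Agent.SDT.MST Pool.Agent.SDT.N1
open scoped ENNReal Real ContDiff

/-- The local estimates at all relevant base points, as a property of the constants. -/
def ca_loc (g w : ℝ × ℝ → ℝ) (S1 S2 : Set ℝ) (k0 : ℕ) (δ C : ℝ) : Prop := ∀ T : ℝ, 1 ≤ T →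
    ∀ ρ : ℝ, 0 < ρ → ρ < δ → ∀ x y : ℝ × ℝ, x.1 ∈ S1 → x.2 ∈ S2 → w x ≠ 0 → y ∈ m2_Y k0 →
    ∀ α β : ℝ × ℝ → ℂ, Measurable α → Measurable β → (∀ p, ‖α p‖ ≤ 1) → (∀ p, ‖β p‖ ≤ 1) →
      (∀ p, α p ≠ 0 → |p.1 / ρ - y.1| ≤ δ ∧ |p.2 - x.1| ≤ δ) →
      (∀ p, β p ≠ 0 → |p.1 / ρ - y.2| ≤ δ ∧ |p.2 - x.2| ≤ δ) →
      Thg (dif g) (dam w) T (pd α β) ≤ ENNReal.ofReal (C * (1 + Real.log T) ^ 5 / T)

theorem ca_Th_zero (φ w : YX → ℝ) (T : ℝ) (M : YX → ℂ) (h : ∀ p, M p ≠ 0 → w p = 0) :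
    Thg φ w T M = 0 := by
  have h1 : ∀ y t, Hyg φ w M y t = 0 := by
    intro y t
    unfold Hyg
    have h2 : ∀ x : ℝ × ℝ, M (y, x) * ((w (y, x) : ℝ) : ℂ) * ex (t * φ (y, x)) = 0 := by
      intro x
      by_cases h3 : M (y, x) = 0
      · rw [h3]
        simp
      · rw [h _ h3]
        simp
    simp only [h2, integral_zero]
  unfold Thg
  simp [h1]

/-- the splitting of a positive form in the first factor -/
theorem ca_split1 {B R : ℝ} {φ w : YX → ℝ} (hA : Adm B R φ w) (T : ℝ) (hT : 0 < T) (n : ℕ)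
    (α : Fin n → ℝ × ℝ → ℂ)
    (β : ℝ × ℝ → ℂ) (hα : ∀ i, Measurable (α i)) (hβ : Measurable β) (hα1 : ∀ i p, ‖α i p‖ ≤ 1)
    (hβ1 : ∀ p, ‖β p‖ ≤ 1) (K : ℝ≥0∞) (hK : ∀ i, Thg φ w T (pd (α i) β) ≤ K) :
    Thg φ w T (pd (fun p => ∑ i, α i p) β) ≤ n * (n * K) := by
  have h1 : pd (fun p => ∑ i, α i p) β = fun p => ∑ i, pd (α i) β p := by
    funext p
    unfold pd
    rw [Finset.sum_mul]
  rw [h1]
  refine (Thg_sum B R φ w hA T hT n (fun i => pd (α i) β) ?_ 1 ?_).trans ?_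
  · intro i
    unfold pd
    have h2 := hα i
    fun_prop
  · intro i p
    unfold pd
    rw [norm_mul]
    exact mul_le_one₀ (hα1 i _) (norm_nonneg _) (hβ1 _)
  · gcongr
    refine (Finset.sum_le_sum fun i _ => hK i).trans ?_
    simp

/-- the splitting of a positive form in the second factor -/
theorem ca_split2 {B R : ℝ} {φ w : YX → ℝ} (hA : Adm B R φ w) (T : ℝ) (hT : 0 < T) (n : ℕ)
    (α : ℝ × ℝ → ℂ) (β : Fin n → ℝ × ℝ → ℂ)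
    (hα : Measurable α) (hβ : ∀ i, Measurable (β i)) (hα1 : ∀ p, ‖α p‖ ≤ 1)
    (hβ1 : ∀ i p, ‖β i p‖ ≤ 1) (K : ℝ≥0∞) (hK : ∀ i, Thg φ w T (pd α (β i)) ≤ K) :
    Thg φ w T (pd α (fun p => ∑ i, β i p)) ≤ n * (n * K) := by
  have h1 : pd α (fun p => ∑ i, β i p) = fun p => ∑ i, pd α (β i) p := by
    funext p
    unfold pd
    rw [Finset.mul_sum]
  rw [h1]
  refine (Thg_sum B R φ w hA T hT n (fun i => pd α (β i)) ?_ 1 ?_).trans ?_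
  · intro i
    unfold pd
    have h2 := hβ i
    fun_prop
  · intro i p
    unfold pd
    rw [norm_mul]
    exact mul_le_one₀ (hα1 _) (norm_nonneg _) (hβ1 i _)
  · gcongr
    refine (Finset.sum_le_sum fun i _ => hK i).trans ?_
    simp

theorem ca_cell (g w : ℝ × ℝ → ℝ) (S1 S2 : Set ℝ) (k0 : ℕ) (δ C : ℝ) (_hδ : 0 < δ)
    (hP : ca_loc g w S1 S2 k0 δ C) (T : ℝ) (hT : 1 ≤ T) (ρ : ℝ) (hρ : 0 < ρ)
    (x0 : ℝ × ℝ) (α β : ℝ × ℝ → ℂ) (hα : Measurable α) (hβ : Measurable β)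
    (hα1 : ∀ p, ‖α p‖ ≤ 1) (hβ1 : ∀ p, ‖β p‖ ≤ 1)
    (hαs : ∀ p, α p ≠ 0 → p.2 ∈ S1 ∧ p.2 - p.1 ∈ S1 ∧ |p.2 - x0.1| ≤ δ / 8 ∧
      |p.2 - p.1 - x0.1| ≤ δ / 8 ∧ 1 / 2 ≤ |p.1 / ρ| ∧ |p.1 / ρ| ≤ 2)
    (hβs : ∀ p, β p ≠ 0 → p.2 ∈ S2 ∧ p.2 - p.1 ∈ S2 ∧ |p.2 - x0.2| ≤ δ / 8 ∧
      |p.2 - p.1 - x0.2| ≤ δ / 8 ∧ 1 / 2 ^ (k0 + 1) ≤ |p.1 / ρ| ∧ |p.1 / ρ| ≤ 2 ^ (k0 + 1))
    (hαd : ∀ p p', α p ≠ 0 → α p' ≠ 0 → |p.1 / ρ - p'.1 / ρ| ≤ δ)
    (hβd : ∀ p p', β p ≠ 0 → β p' ≠ 0 → |p.1 / ρ - p'.1 / ρ| ≤ δ) :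
    Thg (dif g) (dam w) T (pd α β) ≤ ENNReal.ofReal (C * (1 + Real.log T) ^ 5 / T) := by
  by_cases hne : ∀ p : YX, pd α β p ≠ 0 → dam w p = 0
  · rw [ca_Th_zero _ _ T _ hne]
    exact zero_le
  push Not at hne
  obtain ⟨⟨y, x⟩, h1, h2⟩ := hne
  unfold pd at h1
  simp only at h1
  have h3 := left_ne_zero_of_mul h1
  have h4 := right_ne_zero_of_mul h1
  have h5 := hαs _ h3
  have h6 := hβs _ h4
  simp only at h5 h6
  unfold dam at h2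
  have h7 : w x ≠ 0 := left_ne_zero_of_mul h2
  have hy : (y.1 / ρ, y.2 / ρ) ∈ m2_Y k0 := ⟨h5.2.2.2.2, h6.2.2.2.2⟩
  have hρδ : ρ < δ := by
    have h8 : |y.1| ≤ δ / 4 := by
      have h9 := abs_sub_le x.1 x0.1 (x.1 - y.1)
      have h10 : x.1 - (x.1 - y.1) = y.1 := by ring
      rw [h10, abs_sub_comm x0.1] at h9
      linarith [h5.2.2.1, h5.2.2.2.1]
    have h9 := h5.2.2.2.2.1
    rw [abs_div, abs_of_pos hρ, le_div_iff₀ hρ] at h9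
    linarith
  refine hP T hT ρ hρ hρδ x (y.1 / ρ, y.2 / ρ) h5.1 h6.1 h7 hy α β hα hβ hα1 hβ1 ?_ ?_
  · intro p hp
    refine ⟨hαd p (y.1, x.1) hp h3, ?_⟩
    have h9 := abs_sub_le p.2 x0.1 x.1
    rw [abs_sub_comm x0.1] at h9
    linarith [(hαs p hp).2.2.1, h5.2.2.1]
  · intro p hp
    refine ⟨hβd p (y.2, x.2) hp h4, ?_⟩
    have h9 := abs_sub_le p.2 x0.2 x.2
    rw [abs_sub_comm x0.2] at h9
    linarith [(hβs p hp).2.2.1, h6.2.2.1]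

/-- The estimate for all comparable outer directions, from the local estimates. -/
theorem ca_TH_of (k0 : ℕ) (δ : ℝ) (hδ : 0 < δ) (C : ℝ) (hC : 0 ≤ C) : ∃ C' : ℝ, 0 ≤ C' ∧
    ∀ (B R : ℝ) (g w : ℝ × ℝ → ℝ), PD B R g w → ∀ S1 S2 : Set ℝ, ca_loc g w S1 S2 k0 δ C →
    ca_TH g w S1 S2 k0 (δ / 8) C' := by
  set n1 : ℕ := ⌊2 * 2 / δ⌋₊ + 1 with hn1
  set n2 : ℕ := ⌊2 * (2 ^ (k0 + 1)) / δ⌋₊ + 1 with hn2
  refine ⟨(n1 : ℝ) ^ 2 * n2 ^ 2 * C, by positivity, ?_⟩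
  intro B R g w hpd S1 S2 hP T hT ρ hρ x0 α β hα hβ hα1 hβ1 hαs hβs
  have hT0 : 0 < T := by linarith
  have hφ : Measurable fun p : ℝ × ℝ => p.1 / ρ := by fun_prop
  have hc1 := m2_cut_fin (φ := fun p : ℝ × ℝ => p.1 / ρ) (R := 2) hδ (A := α)
    (fun u hu => (hαs u hu).2.2.2.2.2)
  have hc2 := m2_cut_fin (φ := fun p : ℝ × ℝ => p.1 / ρ) (R := 2 ^ (k0 + 1)) hδ (A := β)
    (fun u hu => (hβs u hu).2.2.2.2.2)
  set K : ℝ≥0∞ := ENNReal.ofReal (C * (1 + Real.log T) ^ 5 / T) with hK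
  have key : ∀ (i : ℕ) (k : ℕ), Thg (dif g) (dam w) T
      (pd (g2_cut (fun p : ℝ × ℝ => p.1 / ρ) 2 δ α i)
      (g2_cut (fun p : ℝ × ℝ => p.1 / ρ) (2 ^ (k0 + 1)) δ β k)) ≤ K := by
    intro i k
    refine ca_cell g w S1 S2 k0 δ C hδ hP T hT ρ hρ x0 _ _ (g2_cut_meas hφ _ _ hα _)
      (g2_cut_meas hφ _ _ hβ _) (g2_cut_norm _ _ _ hα1 _) (g2_cut_norm _ _ _ hβ1 _) ?_ ?_ ?_ ?_
    · intro p hp
      exact hαs p (g2_cut_ne hp).2
    · intro p hp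
      exact hβs p (g2_cut_ne hp).2
    · intro p p' hp hp'
      have h1 := g2_cut_ne hp
      have h2 := g2_cut_ne hp'
      exact g2_ix_near hδ (hαs p h1.2).2.2.2.2.2 (hαs p' h2.2).2.2.2.2.2 (h1.1.trans h2.1.symm)
    · intro p p' hp hp'
      have h1 := g2_cut_ne hp
      have h2 := g2_cut_ne hp'
      exact g2_ix_near hδ (hβs p h1.2).2.2.2.2.2 (hβs p' h2.2).2.2.2.2.2 (h1.1.trans h2.1.symm)
  have key2 : ∀ i : ℕ, Thg (dif g) (dam w) T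
      (pd (g2_cut (fun p : ℝ × ℝ => p.1 / ρ) 2 δ α i) β) ≤ n2 * (n2 * K) := by
    intro i
    conv_lhs => rw [← hc2]
    exact ca_split2 hpd.adm T hT0 n2 _ _ (g2_cut_meas hφ _ _ hα _)
      (fun k => g2_cut_meas hφ _ _ hβ _) (g2_cut_norm _ _ _ hα1 _)
      (fun k => g2_cut_norm _ _ _ hβ1 _) K (fun k => key i k)
  have key3 : Thg (dif g) (dam w) T (pd α β) ≤ n1 * (n1 * (n2 * (n2 * K))) := by
    conv_lhs => rw [← hc1]
    exact ca_split1 hpd.adm T hT0 n1 _ _ (fun i => g2_cut_meas hφ _ _ hα _) hβ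
      (fun i => g2_cut_norm _ _ _ hα1 _) hβ1 _ (fun i => key2 i)
  refine key3.trans (le_of_eq ?_)
  rw [hK]
  rw [show (n1 : ℝ) ^ 2 * n2 ^ 2 * C * (1 + Real.log T) ^ 5 / T =
    n1 * (n1 * (n2 * (n2 * (C * (1 + Real.log T) ^ 5 / T)))) by ring]
  rw [ENNReal.ofReal_mul (by positivity), ENNReal.ofReal_mul (by positivity),
    ENNReal.ofReal_mul (by positivity), ENNReal.ofReal_mul (by positivity),
    ENNReal.ofReal_natCast, ENNReal.ofReal_natCast]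

end Pool.Agent.SDT.N1G

end -- N1G.Ca5

section -- N1M.S3a

/-!
N1M, S3, part 1: the corner family as a family of point phases, compactness.
-/

namespace Pool.Agent.SDT.N1M

open MeasureTheory Set Metric Pool.Agent.SDT.MP_6cbfb8_an Pool.Agent.SDT.MST Pool.Agent.SDT.N1
open Pool.Agent.SDT.N1F Pool.Agent.SDT.N1G
open scoped ENNReal Real ContDiff

theorem s3_Sq_cont (c : ℝ) : Continuous (Sq c) := by
  unfold Sq
  exact Real.continuous_sqrt.mul (Real.smoothTransition.continuous.comp (by fun_prop))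

theorem s3_wm_ne {c m : ℝ} (hc : 0 < c) {x : ℝ × ℝ} (h : wm c m x ≠ 0) :
    0 ≤ x.2 ∧ x.2 ≤ 8 ∧ c ^ 2 / 4 < hm m x.2 - x.1 ^ 2 := by
  unfold wm at h
  split_ifs at h with h1
  · refine ⟨h1.1, h1.2, ?_⟩
    by_contra h2
    push Not at h2
    exact h (f1_sma_zero c hc _ h2)
  · exact absurd rfl h

theorem s3_PD (c m : ℝ) (hc : 0 < c) (hm0 : 0 ≤ m) : PD (2 / c) 8 (qm c m) (wm c m) where
  mq := by
    unfold qm
    refine (s3_Sq_cont c).measurable.comp ?_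
    unfold hm
    fun_prop
  mw := by
    unfold wm
    refine Measurable.ite ?_ ?_ measurable_const
    · exact (measurableSet_le measurable_const measurable_snd).inter
        (measurableSet_le measurable_snd measurable_const)
    · refine (f1_sma_cont c hc).measurable.comp ?_
      unfold hm
      fun_prop
  bw := fun x => by
    unfold wm
    split_ifs
    · exact f1_sma_le c hc _
    · rw [abs_zero]
      positivity
  sw := fun x hx => by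
    obtain ⟨h1, h2, h3⟩ := s3_wm_ne hc hx
    have h4 : 0 < c ^ 2 := by positivity
    rw [Prod.norm_def, max_le_iff, Real.norm_eq_abs, Real.norm_eq_abs]
    refine ⟨?_, by rw [abs_of_nonneg h1]; exact h2⟩
    unfold hm at h3
    have h5 : x.1 ^ 2 ≤ 8 ^ 2 := by nlinarith [mul_nonneg hm0 (sq_nonneg x.2)]
    exact abs_le_of_sq_le_sq h5 (by norm_num)

/-- The set of base points `(m, (a, r))`. -/
def KM (c c' : ℝ) : Set (ℝ × (ℝ × ℝ)) :=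
  {P | (0 ≤ P.1 ∧ P.1 ≤ 1) ∧ c' ≤ P.2.1 ∧ (0 ≤ P.2.2 ∧ P.2.2 ≤ 4) ∧ 1 / 4 ≤ hm P.1 P.2.2 ∧
    1 / 2 ≤ bm P.1 P.2.2 ∧ c ^ 2 / 4 ≤ hm P.1 P.2.2 - P.2.1 ^ 2}

theorem s3_KM_compact (c c' : ℝ) : IsCompact (KM c c') := by
  have h1 : KM c c' ⊆ Icc 0 1 ×ˢ (Icc (-8) 8 ×ˢ Icc 0 4) := by
    rintro ⟨m, a, r⟩ ⟨⟨h1, h2⟩, h3, ⟨h4, h5⟩, h6, h7, h8⟩
    simp only at h1 h2 h3 h4 h5 h6 h7 h8
    have h9 : 0 ≤ c ^ 2 / 4 := by positivity
    unfold hm at h8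
    have h10 : a ^ 2 ≤ 8 ^ 2 := by nlinarith [mul_nonneg h1 (sq_nonneg r)]
    exact ⟨⟨h1, h2⟩, abs_le.1 (abs_le_of_sq_le_sq h10 (by norm_num)), h4, h5⟩
  refine (isCompact_Icc.prod (isCompact_Icc.prod isCompact_Icc)).of_isClosed_subset ?_ h1
  have e : KM c c' = ({P : ℝ × (ℝ × ℝ) | (0 : ℝ) ≤ P.1} ∩ {P : ℝ × (ℝ × ℝ) | P.1 ≤ 1}) ∩
      ({P : ℝ × (ℝ × ℝ) | c' ≤ P.2.1} ∩
      (({P : ℝ × (ℝ × ℝ) | (0 : ℝ) ≤ P.2.2} ∩ {P : ℝ × (ℝ × ℝ) | P.2.2 ≤ 4}) ∩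
      ({P : ℝ × (ℝ × ℝ) | 1 / 4 ≤ 2 * P.2.2 - P.1 * P.2.2 ^ 2} ∩
      ({P : ℝ × (ℝ × ℝ) | 1 / 2 ≤ 1 - P.1 * P.2.2} ∩
      {P : ℝ × (ℝ × ℝ) | c ^ 2 / 4 ≤ 2 * P.2.2 - P.1 * P.2.2 ^ 2 - P.2.1 ^ 2})))) := by
    ext P
    rfl
  rw [e]
  refine IsClosed.inter (IsClosed.inter ?_ ?_) (IsClosed.inter ?_ (IsClosed.inter
    (IsClosed.inter ?_ ?_) (IsClosed.inter ?_ (IsClosed.inter ?_ ?_))))
  all_goals exact isClosed_le (by fun_prop) (by fun_prop)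

theorem s3_KM_Rg {c c' : ℝ} {P : ℝ × (ℝ × ℝ)} (h : P ∈ KM c c') : Rg P.1 P.2.2 := by
  obtain ⟨⟨h1, h2⟩, h3, ⟨h4, h5⟩, h6, h7, h8⟩ := h
  refine ⟨?_, h5, h6, h7⟩
  rcases h4.lt_or_eq with h9 | h9
  · exact h9
  · rw [← h9] at h6
    unfold hm at h6
    norm_num at h6

/-- The local estimate, as a property of the base point and of the constants. -/
def s3_P (c : ℝ) (P : (ℝ × (ℝ × ℝ)) × (ℝ × ℝ)) (δ C : ℝ) : Prop :=
  ∀ m : ℝ, 0 ≤ m → m ≤ 1 → |m - P.1.1| < δ → ∀ T : ℝ, 1 ≤ T → ∀ ρ : ℝ, 0 < ρ → ρ < δ →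
      ∀ α β : ℝ × ℝ → ℂ, Measurable α → Measurable β → (∀ p, ‖α p‖ ≤ 1) → (∀ p, ‖β p‖ ≤ 1) →
      (∀ p, α p ≠ 0 → |p.1 / ρ - P.2.1| ≤ δ ∧ |p.2 - P.1.2.1| ≤ δ) →
      (∀ p, β p ≠ 0 → |p.1 / ρ - P.2.2| ≤ δ ∧ |p.2 - P.1.2.2| ≤ δ) →
      TM c m T (pd α β) ≤ ENNReal.ofReal (C * (1 + Real.log T) ^ 5 / T)

/-- The local theorem. -/
def s3_loc (c c' : ℝ) : Prop := ∀ (m0 : ℝ) (x0 y0 : ℝ × ℝ), 0 ≤ m0 → m0 ≤ 1 →
    c' ≤ x0.1 → Rg m0 x0.2 → c ^ 2 / 4 ≤ hm m0 x0.2 - x0.1 ^ 2 → y0.1 ≠ 0 → y0.2 ≠ 0 →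
    ∃ δ : ℝ, 0 < δ ∧ ∃ C : ℝ, 0 ≤ C ∧ ∀ m : ℝ, 0 ≤ m → m ≤ 1 → |m - m0| < δ → ∀ T : ℝ, 1 ≤ T →
      ∀ ρ : ℝ, 0 < ρ → ρ < δ →
      ∀ α β : ℝ × ℝ → ℂ, Measurable α → Measurable β → (∀ p, ‖α p‖ ≤ 1) → (∀ p, ‖β p‖ ≤ 1) →
      (∀ p, α p ≠ 0 → |p.1 / ρ - y0.1| ≤ δ ∧ |p.2 - x0.1| ≤ δ) →
      (∀ p, β p ≠ 0 → |p.1 / ρ - y0.2| ≤ δ ∧ |p.2 - x0.2| ≤ δ) →
      TM c m T (pd α β) ≤ ENNReal.ofReal (C * (1 + Real.log T) ^ 5 / T)

theorem s3_P_mono (c : ℝ) (x : (ℝ × (ℝ × ℝ)) × (ℝ × ℝ)) (δ δ' C C' : ℝ) (hδδ : δ' ≤ δ)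
    (hCC : C ≤ C') (h : s3_P c x δ C) : s3_P c x δ' C' := by
  intro m hm0 hm1 hm T hT ρ hρ hρδ α β hα hβ hα1 hβ1 hαs hβs
  refine (h m hm0 hm1 (hm.trans_le hδδ) T hT ρ hρ (hρδ.trans_le hδδ) α β hα hβ hα1 hβ1
    ?_ ?_).trans ?_
  · intro p hp
    have h2 := hαs p hp
    exact ⟨h2.1.trans hδδ, h2.2.trans hδδ⟩
  · intro p hp
    have h2 := hβs p hp
    exact ⟨h2.1.trans hδδ, h2.2.trans hδδ⟩
  · have h3 : 0 ≤ Real.log T := Real.log_nonneg hT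
    have h4 : 0 < T := by linarith
    apply ENNReal.ofReal_le_ofReal
    gcongr

theorem s3_P_shift (c : ℝ) (x x' : (ℝ × (ℝ × ℝ)) × (ℝ × ℝ)) (δ C : ℝ) (_hδ : 0 < δ)
    (hd : dist x' x ≤ δ / 2) (h : s3_P c x δ C) : s3_P c x' (δ / 2) C := by
  rw [Prod.dist_eq, Prod.dist_eq, Prod.dist_eq, Prod.dist_eq, max_le_iff, max_le_iff, max_le_iff,
    max_le_iff, Real.dist_eq, Real.dist_eq, Real.dist_eq, Real.dist_eq, Real.dist_eq] at hd
  obtain ⟨⟨d1, d2, d3⟩, d4, d5⟩ := hd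
  intro m hm0 hm1 hm T hT ρ hρ hρδ α β hα hβ hα1 hβ1 hαs hβs
  refine h m hm0 hm1 ?_ T hT ρ hρ (by linarith) α β hα hβ hα1 hβ1 ?_ ?_
  · have h3 := abs_sub_le m x'.1.1 x.1.1
    linarith
  · intro p hp
    have h2 := hαs p hp
    have h3 := abs_sub_le (p.1 / ρ) x'.2.1 x.2.1
    have h4 := abs_sub_le p.2 x'.1.2.1 x.1.2.1
    constructor <;> linarith
  · intro p hp
    have h2 := hβs p hp
    have h3 := abs_sub_le (p.1 / ρ) x'.2.2 x.2.2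
    have h4 := abs_sub_le p.2 x'.1.2.2 x.1.2.2
    constructor <;> linarith

theorem s3_unif (c c' : ℝ) (hloc : s3_loc c c') (k0 : ℕ) :
    ∃ δ : ℝ, 0 < δ ∧ ∃ C : ℝ, 0 ≤ C ∧ ∀ P ∈ KM c c' ×ˢ m2_Y k0, s3_P c P δ C := by
  refine g2_unif ((s3_KM_compact c c').prod (m2_Y_compact k0)) (s3_P c) ?_ ?_ ?_
  · intro x δ δ' C C' _ hδδ hCC h
    exact s3_P_mono c x δ δ' C C' hδδ hCC h
  · rintro ⟨P, y0⟩ ⟨hP, ⟨h1, -⟩, h2, -⟩
    have hP' : P ∈ KM c c' := hP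
    have hy1 : y0.1 ≠ 0 := by
      have h3 : (0 : ℝ) < 1 / 2 := by norm_num
      exact abs_pos.1 (h3.trans_le h1)
    have hy2 : y0.2 ≠ 0 := by
      have h3 : (0 : ℝ) < 1 / 2 ^ (k0 + 1) := by positivity
      exact abs_pos.1 (h3.trans_le h2)
    exact hloc P.1 P.2 y0 hP'.1.1 hP'.1.2 hP'.2.1 (s3_KM_Rg hP') hP'.2.2.2.2.2 hy1 hy2
  · intro x x' δ C hδ hd h
    exact s3_P_shift c x x' δ C hδ hd h

/-- The global theorem for comparable outer directions. -/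
theorem s3_TH (c c' : ℝ) (hc : 0 < c) (hloc : s3_loc c c') (k0 : ℕ) :
    ∃ r : ℝ, 0 < r ∧ ∃ C : ℝ, 0 ≤ C ∧ ∀ m : ℝ, 0 ≤ m → m ≤ 1 →
      ca_TH (qm c m) (wm c m) (Ici c') {r | Rg m r} k0 r C := by
  obtain ⟨δ, hδ, C, hC, h⟩ := s3_unif c c' hloc k0
  obtain ⟨C', hC', h'⟩ := ca_TH_of k0 δ hδ C hC
  refine ⟨δ / 8, by positivity, C', hC', ?_⟩
  intro m hm0 hm1
  refine h' (2 / c) 8 (qm c m) (wm c m) (s3_PD c m hc hm0) _ _ ?_
  intro T hT ρ hρ hρδ x y hx1 hx2 hw hy α β hα hβ hα1 hβ1 hαs hβs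
  obtain ⟨g1, g2, g3⟩ := s3_wm_ne hc hw
  obtain ⟨k1, k2, k3, k4⟩ := hx2
  have hK : (m, x) ∈ KM c c' := ⟨⟨hm0, hm1⟩, hx1, ⟨k1.le, k2⟩, k3, k4, g3.le⟩
  exact h ((m, x), y) ⟨hK, hy⟩ m hm0 hm1 (by simpa using hδ) T hT ρ hρ hρδ α β hα hβ hα1 hβ1
    hαs hβs

end Pool.Agent.SDT.N1M

end -- N1M.S3a
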