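import Pool.Agent.SDT.B51
import Pool.Agent.SDT.B62

set_option autoImplicit false

namespace Pool.Agent.SDT.MP_6cbfb8_an
end Pool.Agent.SDT.MP_6cbfb8_an
namespace Pool.Agent.SDT.MST
end Pool.Agent.SDT.MST
namespace Pool.Agent.SDT.N1
end Pool.Agent.SDT.N1

section -- N1F.A5N

/-!
N1F, block A5: the positive form, outer difference of type N, case `n ≠ 0`.
-/

namespace Pool.Agent.SDT.N1F

open MeasureTheory Set Metric Pool.Agent.SDT.MP_6cbfb8_an Pool.Agent.SDT.MST Pool.Agent.SDT.N1
open scoped ENNReal Real ContDiff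

theorem a5n_NbF_mono {al be δ δ' ρ : ℝ} {x0 y0 : ℝ × ℝ} {q : V × V} (h : δ ≤ δ')
    (hq : NbF al be δ ρ x0 y0 q) : NbF al be δ' ρ x0 y0 q := by
  obtain ⟨a1, a2, a3, a4, a5, a6⟩ := hq
  exact ⟨a1.trans h, a2.trans h, a3.trans h, a4.trans h, a5.trans h, a6.trans h⟩

theorem a5n_Sz_mono {al be A0 B0 δ δ' : ℝ} (h : δ ≤ δ') (hs : Sz al be A0 B0 δ) :
    Sz al be A0 B0 δ' := by
  obtain ⟨a1, a2, a3, a4, a5, a6⟩ := hs
  exact ⟨a1, a2, a3, a4, a5.trans_le h, a6.trans_le h⟩

theorem a5n_dd_supp {α : ℝ × ℝ → ℂ} {s al y x δ : ℝ}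
    (h : ∀ p, α p ≠ 0 → |p.1 / s - y| ≤ δ ∧ |p.2 / al - x| ≤ δ) (u : V) (hu : dd α u ≠ 0) :
    |u.1 / s - y| ≤ δ ∧ |u.2.1 / al - x| ≤ δ ∧ |u.2.2 / al| ≤ 2 * δ := by
  unfold dd at hu
  have h1 : α (u.1, u.2.1) ≠ 0 := left_ne_zero_of_mul hu
  have h2 : α (u.1, u.2.1 - u.2.2) ≠ 0 := by
    intro h3
    apply right_ne_zero_of_mul hu
    rw [h3, map_zero]
  obtain ⟨a1, a2⟩ := h _ h1
  obtain ⟨_, b2⟩ := h _ h2
  simp only at a1 a2 b2
  refine ⟨a1, a2, ?_⟩
  rw [sub_div] at b2
  rw [abs_le] at a2 b2 ⊢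
  constructor <;> linarith [a2.1, a2.2, b2.1, b2.2]

theorem TH_NF (c : ℝ) (hc : 0 < c) (A0 B0 : ℝ) (x0 y0 : ℝ × ℝ) (hb : Bs c A0 B0 x0)
    (hy1 : y0.1 ≠ 0) (hy2 : y0.2 ≠ 0) (h1 : nb B0 x0 y0 ≠ 0) :
    ∃ δ : ℝ, 0 < δ ∧ ∃ C : ℝ, 0 ≤ C ∧ ∀ T : ℝ, 1 ≤ T → ∀ al be : ℝ, Sz al be A0 B0 δ →
      ∀ ρ : ℝ, 0 < ρ → ρ < δ →
      ∀ α β : ℝ × ℝ → ℂ, Measurable α → Measurable β → (∀ p, ‖α p‖ ≤ 1) → (∀ p, ‖β p‖ ≤ 1) →
      (∀ p, α p ≠ 0 → |p.1 / (al * be ^ 2 * ρ) - y0.1| ≤ δ ∧ |p.2 / al - x0.1| ≤ δ) →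
      (∀ p, β p ≠ 0 → |p.1 / (be * ρ) - y0.2| ≤ δ ∧ |p.2 / be - x0.2| ≤ δ) →
      Th c T (pd α β) ≤ ENNReal.ofReal (C * (1 + Real.log T) ^ 5 / T) := by
  obtain ⟨δE, c1, C7, hδE, hc1, hC7, hE⟩ := E_NF c hc A0 B0 x0 y0 hb hy2 h1
  obtain ⟨δN, hδN, CN, hCN, hN⟩ := propNF2 c hc A0 B0 x0 y0 hb hy1 hy2 (4 * C7) (by linarith)
  obtain ⟨CA, hCA, hA⟩ := FF_abs2 c hc
  obtain ⟨C0, hC0, h0⟩ := FF_abs0 c hc
  obtain ⟨δ, hδ, hd1, hd2, hd3⟩ : ∃ δ : ℝ, 0 < δ ∧ 2 * δ < δE ∧ 4 * δ < δN ∧ 8 * δ ≤ 1 := by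
    refine ⟨min (min (δE / 4) (δN / 8)) (1 / 8), by positivity, ?_, ?_, ?_⟩
    · have := (min_le_left (min (δE / 4) (δN / 8)) (1 / 8)).trans (min_le_left _ _)
      linarith
    · have := (min_le_left (min (δE / 4) (δN / 8)) (1 / 8)).trans (min_le_right _ _)
      linarith
    · have := min_le_right (min (δE / 4) (δN / 8)) (1 / 8)
      linarith
  set L : ℝ := CN + CA * (256 / c1 ^ 2) + C0 * 64 with hL
  have hL0 : 0 ≤ L := by positivity
  refine ⟨δ, hδ, 25 * L, by positivity, ?_⟩
  intro T hT al be hS ρ hρ hρδ α β hα hβ hα1 hβ1 hαs hβs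
  have hT0 : 0 < T := by linarith
  have hρ1 : ρ ≤ 1 := by linarith
  have hlog : 0 ≤ Real.log T := Real.log_nonneg hT
  obtain ⟨hal, hal1, hbe, hbe1, -, -⟩ := id hS
  rw [Th_eq c hc T hT0 (pd α β) ?_ ?_, sqM_pd]
  rotate_left
  · unfold pd
    have e1 : Measurable fun p : (ℝ × ℝ) × (ℝ × ℝ) => (p.1.1, p.2.1) := by fun_prop
    have e2 : Measurable fun p : (ℝ × ℝ) × (ℝ × ℝ) => (p.1.2, p.2.2) := by fun_prop
    exact (hα.comp e1).mul (hβ.comp e2)
  · intro p
    unfold pd
    rw [norm_mul]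
    exact mul_le_one₀ (hα1 _) (norm_nonneg _) (hβ1 _)
  have hA1 : ∀ u, ‖dd α u‖ ≤ 1 := dd_norm α hα1
  have hB1 : ∀ u, ‖dd β u‖ ≤ 1 := dd_norm β hβ1
  have hM1 : ∀ q : V × V, ‖tp (dd α) (dd β) q‖ ≤ 1 := by
    intro q
    unfold tp
    rw [norm_mul]
    exact mul_le_one₀ (hA1 _) (norm_nonneg _) (hB1 _)
  have hMm : Measurable (tp (dd α) (dd β)) := by
    unfold tp
    exact ((dd_meas α hα).comp measurable_fst).mul ((dd_meas β hβ).comp measurable_snd)
  -- the neighbourhood
  have hNb : ∀ q : V × V, tp (dd α) (dd β) q ≠ 0 → NbF al be (2 * δ) ρ x0 y0 q := by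
    intro q hq
    unfold tp at hq
    obtain ⟨a1, a2, a4⟩ := a5n_dd_supp hαs q.1 (left_ne_zero_of_mul hq)
    obtain ⟨b1, b2, b4⟩ := a5n_dd_supp hβs q.2 (right_ne_zero_of_mul hq)
    exact ⟨by linarith, by linarith, by linarith, by linarith, a4, b4⟩
  have hz1le : ∀ q : V × V, NbF al be (2 * δ) ρ x0 y0 q →
      |q.1.2.2| ≤ 2 * δ * al ∧ |q.2.2.2| ≤ 2 * δ * be := by
    rintro q ⟨-, -, -, -, a5, a6⟩
    rw [abs_div, abs_of_pos hal, div_le_iff₀ hal] at a5
    rw [abs_div, abs_of_pos hbe, div_le_iff₀ hbe] at a6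
    exact ⟨a5, a6⟩
  obtain ⟨K, hK1, hK2⟩ := dy_num T hT
  have key : ‖FF c T (tp (dd α) (dd β))‖ ≤ ((K : ℝ) + 1) ^ 2 * (L / T) := by
    refine FF_dy c hc T hT0 _ hMm 1 hM1 K (L / T) ?_
    intro j hj k hk
    set g : ℝ := (1 / 2) ^ j with hg
    set d : ℝ := (1 / 2) ^ k with hd
    have hg0 : 0 < g := by positivity
    have hd0 : 0 < d := by positivity
    have hg1 : g ≤ 1 := pow_le_one₀ (by norm_num) (by norm_num)
    have hd1' : d ≤ 1 := pow_le_one₀ (by norm_num) (by norm_num)
    have hg2 : (1 / 2 : ℝ) ^ (j + 1) = g / 2 := by rw [pow_succ, hg]; ring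
    have hd2' : (1 / 2 : ℝ) ^ (k + 1) = d / 2 := by rw [pow_succ, hd]; ring
    have hzm := zc_meas K j k _ hMm
    have hz1 := zc_norm K j k (tp (dd α) (dd β)) 1 zero_le_one hM1
    have hab1 : al * be ≤ 1 := mul_le_one₀ hal1 hbe.le hbe1
    have hrect : ∀ q : V × V, zc K j k (tp (dd α) (dd β)) q ≠ 0 →
        NbF al be (2 * δ) ρ x0 y0 q ∧
        |q.1.2.2| ≤ g ∧ |q.2.2.2| ≤ d ∧ (j < K → g / 2 < |q.1.2.2|) ∧
        (k < K → d / 2 < |q.2.2.2|) := by
      intro q hq
      have hN1 := hNb q (zc_ne hq).2.2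
      obtain ⟨a5, a6⟩ := hz1le q hN1
      have a5' : |q.1.2.2| ≤ 1 := by nlinarith
      have a6' : |q.2.2.2| ≤ 1 := by nlinarith
      obtain ⟨_, r2, r3, r4, r5⟩ := zc_rect hq a5' a6'
      rw [hg2] at r4
      rw [hd2'] at r5
      exact ⟨hNb q (zc_ne hq).2.2, r2, r3, r4, r5⟩
    have hvol := vol_boxF al be x0 y0 (2 * δ) ρ g d hal hbe (by linarith) (by linarith) hρ
      hg0.le hd0.le
    by_cases htail : j = K ∨ k = K
    · -- the tails
      have hgd : g * d ≤ 1 / T ^ 2 := by
        rcases htail with h3 | h3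
        · calc g * d ≤ g * 1 := by gcongr
            _ = (1 / 2 : ℝ) ^ K := by rw [mul_one, hg, h3]
            _ ≤ 1 / T ^ 2 := hK1
        · calc g * d ≤ 1 * d := by gcongr
            _ = (1 / 2 : ℝ) ^ K := by rw [one_mul, hd, h3]
            _ ≤ 1 / T ^ 2 := hK1
      have h3 := h0 T hT0 (zc K j k (tp (dd α) (dd β)))
        {q : V × V | NbF al be (2 * δ) ρ x0 y0 q ∧ |q.1.2.2| ≤ g ∧ |q.2.2.2| ≤ d}
        (64 * (al ^ 2 * be ^ 4) * ρ ^ 2 * g * d) 64 hzm hz1
        (fun q hq _ => ⟨(hrect q hq).1, (hrect q hq).2.1, (hrect q hq).2.2.1⟩) (by positivity) hvol ?_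
      · refine h3.trans ?_
        gcongr
        rw [hL]
        have : 0 ≤ CA * (256 / c1 ^ 2) := by positivity
        linarith
      · have hρ2 : ρ ^ 2 ≤ 1 := pow_le_one₀ hρ.le hρ1
        have hal2 : al ^ 2 ≤ 1 := pow_le_one₀ hal.le hal1
        have hbe4 : be ^ 4 ≤ 1 := pow_le_one₀ hbe.le hbe1
        calc 64 * (al ^ 2 * be ^ 4) * ρ ^ 2 * g * d
            = 64 * (al ^ 2 * be ^ 4) * ρ ^ 2 * (g * d) := by ring
          _ ≤ 64 * (1 * 1) * 1 * (1 / T ^ 2) := by gcongr
          _ = 64 / T ^ 2 := by ring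
    · push Not at htail
      have hjK : j < K := by omega
      have hkK : k < K := by omega
      by_cases hcase1 : C7 * (be * d) ≤ al * be ^ 2 * (g / 2)
      · -- first direction dominates
        have h3 := hA T hT0 (zc K j k (tp (dd α) (dd β)))
          {q : V × V | NbF al be (2 * δ) ρ x0 y0 q ∧ g / 2 < |q.1.2.2| ∧ |q.1.2.2| ≤ g ∧
            |q.2.2.2| ≤ d}
          (c1 * ρ * (al * be ^ 2 * (g / 2))) (64 * (al ^ 2 * be ^ 4) * ρ ^ 2 * g * d)
          (256 / c1 ^ 2) hzm hz1
          (fun q hq _ => ⟨(hrect q hq).1, (hrect q hq).2.2.2.1 hjK, (hrect q hq).2.1,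
            (hrect q hq).2.2.1⟩) (by positivity) ?_ (by positivity) ?_ (by positivity) ?_
        · refine h3.trans ?_
          gcongr
          rw [hL]
          have : 0 ≤ C0 * 64 := by positivity
          linarith
        · refine le_trans (measure_mono ?_) hvol
          rintro q ⟨e1, _, e3, e4⟩
          exact ⟨e1, e3, e4⟩
        · rintro q ⟨e1, e2, e3, e4⟩
          have h4 := (hE al be (a5n_Sz_mono (by linarith) hS) ρ hρ (by linarith) q
            (a5n_NbF_mono (by linarith) e1)).1 ?_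
          · refine le_trans ?_ h4
            gcongr
          · calc C7 * (be * |q.2.2.2|) ≤ C7 * (be * d) := by gcongr
              _ ≤ al * be ^ 2 * (g / 2) := hcase1
              _ ≤ al * be ^ 2 * |q.1.2.2| := by gcongr
        · have h4 : d ≤ g := by
            have h5 : be * d ≤ be * (al * be * (g / 2)) := by
              calc be * d ≤ C7 * (be * d) := le_mul_of_one_le_left (by positivity) hC7
                _ ≤ al * be ^ 2 * (g / 2) := hcase1
                _ = be * (al * be * (g / 2)) := by ring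
            have h6 : d ≤ al * be * (g / 2) := le_of_mul_le_mul_left h5 hbe
            calc d ≤ al * be * (g / 2) := h6
              _ ≤ 1 * (g / 2) := by gcongr
              _ ≤ g := by linarith
          calc 64 * (al ^ 2 * be ^ 4) * ρ ^ 2 * g * d
              ≤ 64 * (al ^ 2 * be ^ 4) * ρ ^ 2 * g * g := by gcongr
            _ = 256 / c1 ^ 2 * (c1 * ρ * (al * be ^ 2 * (g / 2))) ^ 2 := by
              field_simp
              ring
      · by_cases hcase2 : C7 * (al * be ^ 2 * g) ≤ be * (d / 2)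
        · -- second direction dominates
          have h3 := hA T hT0 (zc K j k (tp (dd α) (dd β)))
            {q : V × V | NbF al be (2 * δ) ρ x0 y0 q ∧ d / 2 < |q.2.2.2| ∧ |q.1.2.2| ≤ g ∧
              |q.2.2.2| ≤ d}
            (c1 * ρ * (be * (d / 2))) (64 * (al ^ 2 * be ^ 4) * ρ ^ 2 * g * d)
            (256 / c1 ^ 2) hzm hz1
            (fun q hq _ => ⟨(hrect q hq).1, (hrect q hq).2.2.2.2 hkK, (hrect q hq).2.1,
              (hrect q hq).2.2.1⟩) (by positivity) ?_ (by positivity) ?_ (by positivity) ?_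
          · refine h3.trans ?_
            gcongr
            rw [hL]
            have : 0 ≤ C0 * 64 := by positivity
            linarith
          · refine le_trans (measure_mono ?_) hvol
            rintro q ⟨e1, _, e3, e4⟩
            exact ⟨e1, e3, e4⟩
          · rintro q ⟨e1, e2, e3, e4⟩
            have h4 := (hE al be (a5n_Sz_mono (by linarith) hS) ρ hρ (by linarith) q
              (a5n_NbF_mono (by linarith) e1)).2 ?_
            · refine le_trans ?_ h4
              gcongr
            · calc C7 * (al * be ^ 2 * |q.1.2.2|) ≤ C7 * (al * be ^ 2 * g) := by gcongr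
                _ ≤ be * (d / 2) := hcase2
                _ ≤ be * |q.2.2.2| := by gcongr
          · have h4 : al ^ 2 * be ^ 2 * g ≤ d := by
              have h5 : be * (al * be * g) ≤ be * (d / 2) := by
                calc be * (al * be * g) = al * be ^ 2 * g := by ring
                  _ ≤ C7 * (al * be ^ 2 * g) := le_mul_of_one_le_left (by positivity) hC7
                  _ ≤ be * (d / 2) := hcase2
              have h6 : al * be * g ≤ d / 2 := le_of_mul_le_mul_left h5 hbe
              calc al ^ 2 * be ^ 2 * g = al * be * (al * be * g) := by ring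
                _ ≤ 1 * (al * be * g) := by gcongr
                _ ≤ d := by linarith
            calc 64 * (al ^ 2 * be ^ 4) * ρ ^ 2 * g * d
                = 64 * be ^ 2 * ρ ^ 2 * (al ^ 2 * be ^ 2 * g) * d := by ring
              _ ≤ 64 * be ^ 2 * ρ ^ 2 * d * d := by gcongr
              _ = 256 / c1 ^ 2 * (c1 * ρ * (be * (d / 2))) ^ 2 := by
                field_simp
                ring
        · -- comparable sizes
          push Not at hcase1 hcase2
          have hu1 : al * be * g < 2 * C7 * d := by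
            have h5 : be * (al * be * (g / 2)) < be * (C7 * d) := by
              calc be * (al * be * (g / 2)) = al * be ^ 2 * (g / 2) := by ring
                _ < C7 * (be * d) := hcase1
                _ = be * (C7 * d) := by ring
            have h6 := lt_of_mul_lt_mul_left h5 hbe.le
            linarith
          have hu2 : d < 2 * C7 * (al * be * g) := by
            have h5 : be * (d / 2) < be * (C7 * (al * be * g)) := by
              calc be * (d / 2) < C7 * (al * be ^ 2 * g) := hcase2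
                _ = be * (C7 * (al * be * g)) := by ring
            have h6 := lt_of_mul_lt_mul_left h5 hbe.le
            linarith
          by_cases hgN : g / al < δN
          · have hγ : al * (g / al) = g := by field_simp
            have hγ2 : be * al ^ 2 * (g / al) = al * be * g := by field_simp
            have habg : 0 < al * be * g := by positivity
            have h3 := hN T al be ρ (g / al) hT0 (a5n_Sz_mono (by linarith) hS) hρ (by linarith)
              (by positivity) hgN (zc1 K j (dd α)) (zc1 K k (dd β))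
              (zc1_meas K j _ (dd_meas α hα)) (zc1_meas K k _ (dd_meas β hβ))
              (zc1_norm K j _ 1 zero_le_one hA1) (zc1_norm K k _ 1 zero_le_one hB1) ?_ ?_
            · rw [← zc_tp] at h3
              refine h3.trans ?_
              gcongr
              rw [hL]
              have : 0 ≤ CA * (256 / c1 ^ 2) := by positivity
              have : 0 ≤ C0 * 64 := by positivity
              linarith
            · intro u hu
              rw [hγ]
              obtain ⟨e1, e2⟩ := zc1_ne hu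
              obtain ⟨f1, f2, f4⟩ := a5n_dd_supp hαs u e2
              rw [abs_div, abs_of_pos hal, div_le_iff₀ hal] at f4
              have e3 := zix_ub K u.2.2 (by nlinarith)
              rw [e1, ← hg] at e3
              have e4 := zix_lb K u.2.2 (by omega)
              rw [e1, hg2] at e4
              refine ⟨by linarith, by linarith, ?_, ?_⟩
              · rw [abs_div, abs_of_pos hg0, div_le_div_iff₀ (by linarith) hg0]
                nlinarith
              · rw [abs_div, abs_of_pos hg0, div_le_iff₀ hg0]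
                nlinarith
            · intro u hu
              rw [hγ2]
              obtain ⟨e1, e2⟩ := zc1_ne hu
              obtain ⟨f1, f2, f4⟩ := a5n_dd_supp hβs u e2
              rw [abs_div, abs_of_pos hbe, div_le_iff₀ hbe] at f4
              have e3 := zix_ub K u.2.2 (by nlinarith)
              rw [e1, ← hd] at e3
              have e4 := zix_lb K u.2.2 (by omega)
              rw [e1, hd2'] at e4
              refine ⟨by linarith, by linarith, ?_, ?_⟩
              · rw [abs_div, abs_of_pos habg, div_le_div_iff₀ (by linarith) habg]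
                have : al * be * g < 2 * C7 * (2 * |u.2.2|) := by nlinarith
                linarith
              · rw [abs_div, abs_of_pos habg, div_le_iff₀ habg]
                have : 0 ≤ C7 * (al * be * g) := by positivity
                linarith
          · rw [FF_zero]
            · simpa using by positivity
            · intro q
              by_contra hq
              apply hgN
              obtain ⟨e1, _, _, e4, _⟩ := hrect q hq
              have e5 := e4 hjK
              obtain ⟨a5, _⟩ := hz1le q e1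
              rw [div_lt_iff₀ hal]
              nlinarith
  -- conclusion
  have hfin : ((K : ℝ) + 1) ^ 2 * (L / T) ≤ 25 * L * (1 + Real.log T) ^ 5 / T := by
    have h3 : ((K : ℝ) + 1) ^ 2 ≤ (5 * (1 + Real.log T)) ^ 2 := by gcongr
    have h4 : (1 + Real.log T) ^ 2 ≤ (1 + Real.log T) ^ 5 :=
      pow_le_pow_right₀ (by linarith) (by norm_num)
    calc ((K : ℝ) + 1) ^ 2 * (L / T) ≤ (5 * (1 + Real.log T)) ^ 2 * (L / T) := by gcongr
      _ = 25 * L * (1 + Real.log T) ^ 2 / T := by ring
      _ ≤ 25 * L * (1 + Real.log T) ^ 5 / T := by gcongr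
  have h5 : ‖FF c T (tp (dd α) (dd β))‖ₑ = ENNReal.ofReal ‖FF c T (tp (dd α) (dd β))‖ := by
    rw [ofReal_norm]
  rw [h5]
  exact ENNReal.ofReal_le_ofReal (key.trans hfin)

end Pool.Agent.SDT.N1F

end -- N1F.A5N
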