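import Pool.Agent.SDT.B59
import Pool.Agent.SDT.B62
import Pool.Agent.SDT.B63
import Pool.Agent.SDT.B64

set_option autoImplicit false

namespace Pool.Agent.SDT.MP_6cbfb8_an
end Pool.Agent.SDT.MP_6cbfb8_an
namespace Pool.Agent.SDT.MST
end Pool.Agent.SDT.MST
namespace Pool.Agent.SDT.N1
end Pool.Agent.SDT.N1
namespace Pool.Agent.SDT.N1.MD
end Pool.Agent.SDT.N1.MD
namespace Pool.Agent.SDT.N1F
end Pool.Agent.SDT.N1F
namespace Pool.Agent.SDT.N1F.DF
end Pool.Agent.SDT.N1F.DF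
namespace Pool.Agent.SDT.N1G
end Pool.Agent.SDT.N1G
namespace Pool.Agent.SDT.N1M
end Pool.Agent.SDT.N1M

section -- N1F.DF2

/-!
N1F, block A5, case n = 0, part 2: the rectangles which can be treated with absolute values.
-/

namespace Pool.Agent.SDT.N1F.DF

open MeasureTheory Set Metric Pool.Agent.SDT.MP_6cbfb8_an Pool.Agent.SDT.MST Pool.Agent.SDT.N1
open Pool.Agent.SDT.N1.MD
open scoped ENNReal Real ContDiff

/-- volume of a box in terms of the scaled sizes -/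
theorem vol_boxG {al be : ℝ} (x0 y0 : ℝ × ℝ) {δ ρ γ d : ℝ} (hal : 0 < al) (hal1 : al ≤ 1)
    (hbe : 0 < be) (hbe1 : be ≤ 1) (hδ : 0 ≤ δ) (hδ1 : δ ≤ 1) (hρ : 0 < ρ) (hγ : 0 ≤ γ)
    (hd : 0 ≤ d) :
    volume {q : V × V | NbF al be δ ρ x0 y0 q ∧ |q.1.2.2| ≤ γ ∧ |q.2.2.2| ≤ d} ≤
      ENNReal.ofReal (64 * ρ ^ 2 * (al * be ^ 2 * γ) * (be * d)) := by
  refine (vol_boxF al be x0 y0 δ ρ γ d hal hbe hδ hδ1 hρ hγ hd).trans ?_
  apply ENNReal.ofReal_le_ofReal
  have h1 : al * be ≤ 1 := mul_le_one₀ hal1 hbe.le hbe1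
  calc 64 * (al ^ 2 * be ^ 4) * ρ ^ 2 * γ * d =
        (al * be) * (64 * ρ ^ 2 * (al * be ^ 2 * γ) * (be * d)) := by ring
    _ ≤ 1 * (64 * ρ ^ 2 * (al * be ^ 2 * γ) * (be * d)) := by gcongr
    _ = _ := one_mul _

theorem vol_stripG (c : ℝ) (hc : 0 < c) (A0 B0 : ℝ) (x0 y0 : ℝ × ℝ) (hb : Bs c A0 B0 x0)
    (hy1 : y0.1 ≠ 0) :
    ∃ δ C : ℝ, 0 < δ ∧ 0 < C ∧ ∀ al be : ℝ, Sz al be A0 B0 δ → ∀ ρ : ℝ, 0 < ρ → ρ < δ →
    ∀ κ g d : ℝ, 0 ≤ κ → 0 ≤ g → 0 ≤ d →
    volume {q : V × V | NbF al be δ ρ x0 y0 q ∧ |Nx (be ^ 2 * ρ) q| ≤ 2 * κ ∧ |q.1.2.2| ≤ g ∧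
      |q.2.2.2| ≤ d} ≤ ENNReal.ofReal (C * ρ ^ 2 * κ * (al * be ^ 2 * g) * (be * d)) := by
  obtain ⟨δ, C, hδ, hC, h⟩ := vol_stripF c hc A0 B0 x0 y0 hb hy1
  refine ⟨δ, C, hδ, hC, fun al be hs ρ hρ hρδ κ g d hκ hg hd => ?_⟩
  obtain ⟨hal, hal1, hbe, hbe1, -, -⟩ := id hs
  refine (h al be hs ρ hρ hρδ κ g d hκ hg hd).trans ?_
  apply ENNReal.ofReal_le_ofReal
  have h1 : al * be ≤ 1 := mul_le_one₀ hal1 hbe.le hbe1
  calc C * (al ^ 2 * be ^ 4) * ρ ^ 2 * κ * g * d =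
        (al * be) * (C * ρ ^ 2 * κ * (al * be ^ 2 * g) * (be * d)) := by ring
    _ ≤ 1 * (C * ρ ^ 2 * κ * (al * be ^ 2 * g) * (be * d)) := by gcongr
    _ = _ := one_mul _

/-- The rectangles which can be treated with absolute values. -/
theorem rect_absF (c : ℝ) (hc : 0 < c) (A0 B0 : ℝ) (x0 y0 : ℝ × ℝ) (hb : Bs c A0 B0 x0)
    (hy1 : y0.1 ≠ 0) (hy2 : y0.2 ≠ 0) (h1 : nb B0 x0 y0 = 0) :
    ∃ δ C5 C4 C : ℝ, 0 < δ ∧ 0 < C5 ∧ 0 < C4 ∧ 0 ≤ C ∧ ∀ T : ℝ, 0 < T → ∀ al be : ℝ,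
    Sz al be A0 B0 δ → ∀ ρ : ℝ, 0 < ρ → ρ < δ →
    ∀ κ : ℝ, 0 < κ → κ < δ → ∀ M : V × V → ℂ, Measurable M → (∀ q, ‖M q‖ ≤ 1) →
    (∀ q, M q ≠ 0 → NbF al be δ ρ x0 y0 q ∧ |Nx (be ^ 2 * ρ) q| ≤ 2 * κ ∧
      |Nz (be ^ 2 * ρ) q| ≤ 2 * κ) →
    ∀ γ d : ℝ, 0 < γ → 0 < d →
    (‖FF c T (rec γ d M)‖ ≤ C / T ∨
      (γ ≤ C5 * κ * al ∧ be * d ≤ C4 * κ * (al * be ^ 2 * γ))) := by
  obtain ⟨δ0, θ0, C5, hδ0, hθ0, hC5, hE0⟩ := E_D0F c hc A0 B0 x0 y0 hb hy2 h1
  set θ : ℝ := min θ0 1 / 4 with hθdef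
  have hθ : 0 < θ := by positivity
  have hθ0' : 4 * θ ≤ θ0 := by
    have := min_le_left θ0 1
    rw [hθdef]
    linarith
  have hθ1' : 4 * θ ≤ 1 := by
    have := min_le_right θ0 1
    rw [hθdef]
    linarith
  obtain ⟨δ1, c1, hδ1, hc1, hE1⟩ := E_D1F c hc A0 B0 x0 y0 hb hy2 h1 θ hθ
  obtain ⟨δ2, c2, C4, hδ2, hc2, hC4, hE2⟩ := E_D2aF c hc A0 B0 x0 y0 hb hy2 h1 (2 * C5)
  obtain ⟨δ3, C3, hδ3, hC3, hV⟩ := vol_stripG c hc A0 B0 x0 y0 hb hy1
  obtain ⟨CF, hCF, hF⟩ := FF_abs c hc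
  set δ : ℝ := min (min (min δ0 δ1) (min δ2 δ3)) 1 with hδdef
  have hδ : 0 < δ := by positivity
  have g0 : δ ≤ δ0 := (min_le_left _ _).trans ((min_le_left _ _).trans (min_le_left _ _))
  have g1 : δ ≤ δ1 := (min_le_left _ _).trans ((min_le_left _ _).trans (min_le_right _ _))
  have g2 : δ ≤ δ2 := (min_le_left _ _).trans ((min_le_right _ _).trans (min_le_left _ _))
  have g3 : δ ≤ δ3 := (min_le_left _ _).trans ((min_le_right _ _).trans (min_le_right _ _))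
  have g4 : δ ≤ 1 := min_le_right _ _
  set A1 : ℝ := 32 / θ * (4 / c1 ^ 2) with hA1
  set A2 : ℝ := C3 / (2 * C4) * (4 / c2 ^ 2) with hA2
  have hA1p : 0 ≤ A1 := by positivity
  have hA2p : 0 ≤ A2 := by positivity
  refine ⟨δ, 2 * C5, 2 * C4, CF * A1 + CF * A2, hδ, by positivity, by positivity, by positivity,
    fun T hT al be hsz ρ hρ hρδ κ hκ hκδ M hM hM1 hMs γ d hγ hd => ?_⟩
  obtain ⟨hal, hal1, hbe, hbe1, -, -⟩ := id hsz
  have hadd1 : CF * A1 / T ≤ (CF * A1 + CF * A2) / T := by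
    gcongr
    linarith [mul_nonneg hCF hA2p]
  have hadd2 : CF * A2 / T ≤ (CF * A1 + CF * A2) / T := by
    gcongr
    linarith [mul_nonneg hCF hA1p]
  -- the scaled sizes
  have hP : 0 < al * be ^ 2 := by positivity
  set G : ℝ := al * be ^ 2 * γ with hG
  set D : ℝ := be * d with hD
  have hG0 : 0 < G := by positivity
  have hD0 : 0 < D := by positivity
  have tG : ∀ z : ℝ, |z| ≤ γ → al * be ^ 2 * |z| ≤ G := fun z hz => by
    rw [hG]
    gcongr
  have tG' : ∀ z : ℝ, γ / 2 < |z| → G ≤ 2 * (al * be ^ 2 * |z|) := fun z hz => by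
    have : al * be ^ 2 * (γ / 2) ≤ al * be ^ 2 * |z| := by gcongr
    rw [hG]
    linarith
  have tD : ∀ z : ℝ, |z| ≤ d → be * |z| ≤ D := fun z hz => by
    rw [hD]
    gcongr
  have tD' : ∀ z : ℝ, d / 2 < |z| → D / 2 ≤ be * |z| := fun z hz => by
    have : be * (d / 2) ≤ be * |z| := by gcongr
    rw [hD]
    linarith
  rcases le_or_gt (2 * θ * G) D with hR1 | hR1
  · -- R1
    left
    refine le_trans ?_ hadd1
    have hS := hF T hT (rec γ d M)
      {q | (NbF al be δ ρ x0 y0 q ∧ |q.1.2.2| ≤ γ ∧ |q.2.2.2| ≤ d) ∧ d / 2 < |q.2.2.2|}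
      (c1 * ρ * (D / 2)) (64 * ρ ^ 2 * G * D) (measurable_rec γ d M hM) (rec_le_one γ d M hM1)
      (fun q hq _ => by
        obtain ⟨e1, e2, e3, e4, e5⟩ := rec_ne_zero γ d M q hq
        exact ⟨⟨(hMs q e1).1, e3, e5⟩, e4⟩) (by positivity)
      ((measure_mono fun q hq => hq.1).trans
        (vol_boxG x0 y0 hal hal1 hbe hbe1 hδ.le g4 hρ hγ.le hd.le))
      (by positivity)
      (fun q hq => by
        obtain ⟨⟨e1, e2, e3⟩, e4⟩ := hq
        have f2 := tG _ e2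
        have f4 := tD' _ e4
        have e5 := hE1 al be (Sz_mono g1 hsz) ρ hρ (hρδ.trans_le g1) q (NbF_mono g1 e1)
          (by
            have := mul_le_mul_of_nonneg_left f2 hθ.le
            linarith)
        refine le_trans ?_ e5
        gcongr)
    refine hS.trans (abs_num CF A1 T _ _ hCF hT (by positivity) hA1p ?_)
    have e1 : A1 * (c1 * ρ * (D / 2)) ^ 2 = 32 / θ * ρ ^ 2 * D ^ 2 := by
      rw [hA1]
      field_simp
      norm_num
    rw [e1]
    have e2 : G ≤ D / (2 * θ) := by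
      rw [le_div_iff₀ (by positivity)]
      linarith
    calc 64 * ρ ^ 2 * G * D ≤ 64 * ρ ^ 2 * (D / (2 * θ)) * D := by gcongr
      _ = 32 / θ * ρ ^ 2 * D ^ 2 := by
        field_simp
        ring
  · -- now `be |z₂| ≤ θ₀ al be² |z₁|`
    have hz : ∀ q : V × V, γ / 2 < |q.1.2.2| → |q.2.2.2| ≤ d →
        be * |q.2.2.2| ≤ θ0 * (al * be ^ 2 * |q.1.2.2|) := by
      intro q e1 e2
      have f1 := tG' _ e1
      have f2 := tD _ e2
      have e3 : θ * G ≤ θ * (2 * (al * be ^ 2 * |q.1.2.2|)) := mul_le_mul_of_nonneg_left f1 hθ.le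
      have e4 : 4 * θ * (al * be ^ 2 * |q.1.2.2|) ≤ θ0 * (al * be ^ 2 * |q.1.2.2|) :=
        mul_le_mul_of_nonneg_right hθ0' (by positivity)
      linarith
    have hz1 : ∀ q : V × V, γ / 2 < |q.1.2.2| → |q.2.2.2| ≤ d →
        be * |q.2.2.2| ≤ al * be ^ 2 * |q.1.2.2| := by
      intro q e1 e2
      have f1 := tG' _ e1
      have f2 := tD _ e2
      have e3 : θ * G ≤ θ * (2 * (al * be ^ 2 * |q.1.2.2|)) := mul_le_mul_of_nonneg_left f1 hθ.le
      have e4 : 4 * θ * (al * be ^ 2 * |q.1.2.2|) ≤ 1 * (al * be ^ 2 * |q.1.2.2|) :=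
        mul_le_mul_of_nonneg_right hθ1' (by positivity)
      linarith
    rcases le_or_gt γ (2 * C5 * κ * al) with hR0 | hR0
    · rcases le_or_gt D (2 * C4 * κ * G) with hR2 | hR2
      · exact Or.inr ⟨hR0, hR2⟩
      · -- R2a
        left
        refine le_trans ?_ hadd2
        have hS := hF T hT (rec γ d M)
          {q | (NbF al be δ ρ x0 y0 q ∧ |Nx (be ^ 2 * ρ) q| ≤ 2 * κ ∧ |q.1.2.2| ≤ γ ∧
            |q.2.2.2| ≤ d) ∧ d / 2 < |q.2.2.2| ∧ γ / 2 < |q.1.2.2|}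
          (c2 * ρ * (D / 2)) (C3 * ρ ^ 2 * κ * G * D) (measurable_rec γ d M hM)
          (rec_le_one γ d M hM1)
          (fun q hq _ => by
            obtain ⟨e1, e2, e3, e4, e5⟩ := rec_ne_zero γ d M q hq
            exact ⟨⟨(hMs q e1).1, (hMs q e1).2.1, e3, e5⟩, e4, e2⟩) (by positivity)
          ((measure_mono fun q hq => ?_).trans
            (hV al be (Sz_mono g3 hsz) ρ hρ (hρδ.trans_le g3) κ γ d hκ.le hγ.le hd.le))
          (by positivity)
          (fun q hq => by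
            obtain ⟨⟨e1, e2, e3, e4⟩, e5, e6⟩ := hq
            have f3 := tG _ e3
            have f5 := tD' _ e5
            have e7 := hE2 al be (Sz_mono g2 hsz) ρ hρ (hρδ.trans_le g2) κ hκ (hκδ.trans_le g2) q
              (NbF_mono g2 e1) e2 (e3.trans hR0) (hz1 q e6 e4)
              (by
                have := mul_le_mul_of_nonneg_left f3 (mul_pos hC4 hκ).le
                linarith)
            refine le_trans ?_ e7
            gcongr)
        · refine hS.trans (abs_num CF A2 T _ _ hCF hT (by positivity) hA2p ?_)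
          have e1 : A2 * (c2 * ρ * (D / 2)) ^ 2 = C3 / (2 * C4) * ρ ^ 2 * D ^ 2 := by
            rw [hA2]
            field_simp
            norm_num
          rw [e1]
          have e2 : κ * G ≤ D / (2 * C4) := by
            rw [le_div_iff₀ (by positivity)]
            linarith
          calc C3 * ρ ^ 2 * κ * G * D = C3 * ρ ^ 2 * (κ * G) * D := by ring
            _ ≤ C3 * ρ ^ 2 * (D / (2 * C4)) * D := by gcongr
            _ = C3 / (2 * C4) * ρ ^ 2 * D ^ 2 := by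
              field_simp
        · exact ⟨NbF_mono g3 hq.1.1, hq.1.2.1, hq.1.2.2.1, hq.1.2.2.2⟩
    · -- R0: the density vanishes
      left
      have e0 : rec γ d M = fun _ => 0 := by
        funext q
        by_contra hq
        obtain ⟨e1, e2, e3, e4, e5⟩ := rec_ne_zero γ d M q hq
        obtain ⟨f1, f2, f3⟩ := hMs q e1
        have e6 := hE0 al be (Sz_mono g0 hsz) ρ hρ (hρδ.trans_le g0) κ hκ q (NbF_mono g0 f1)
          (hz q e2 e5) f2 f3
        linarith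
      rw [e0]
      unfold FF
      simp only [zero_mul, integral_zero, norm_zero]
      positivity

end Pool.Agent.SDT.N1F.DF

end -- N1F.DF2

section -- N1F.DF3

/-!
N1F, block A5, case n = 0, part 3: the one-sided pieces.
-/

namespace Pool.Agent.SDT.N1F.DF

open MeasureTheory Set Metric Pool.Agent.SDT.MP_6cbfb8_an Pool.Agent.SDT.MST Pool.Agent.SDT.N1
open Pool.Agent.SDT.N1.MD
open scoped ENNReal Real ContDiff

/-- One dyadic rectangle of a one-sided piece. -/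
theorem rect_mplF (c : ℝ) (hc : 0 < c) (A0 B0 : ℝ) (x0 y0 : ℝ × ℝ) (hb : Bs c A0 B0 x0)
    (hy1 : y0.1 ≠ 0) (hy2 : y0.2 ≠ 0) (h1 : nb B0 x0 y0 = 0) :
    ∃ δ C : ℝ, 0 < δ ∧ 0 ≤ C ∧ ∀ T : ℝ, 0 < T → ∀ al be : ℝ, Sz al be A0 B0 δ →
    ∀ ρ : ℝ, 0 < ρ → ρ < δ →
    ∀ κ : ℝ, 0 < κ → κ < δ → ∀ s : ℝ, s = 1 ∨ s = -1 → ∀ A₁ A₂ : V → ℂ,
    Measurable A₁ → Measurable A₂ → (∀ a, ‖A₁ a‖ ≤ 1) → (∀ b, ‖A₂ b‖ ≤ 1) →
    (∀ u, A₁ u ≠ 0 → |u.1 / (al * be ^ 2 * ρ) - y0.1| ≤ δ ∧ |u.2.1 / al - x0.1| ≤ δ ∧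
      |u.2.2 / al| ≤ δ) →
    (∀ v, A₂ v ≠ 0 → |v.1 / (be * ρ) - y0.2| ≤ δ ∧ |v.2.1 / be - x0.2| ≤ δ ∧
      |v.2.2 / be| ≤ δ) →
    ∀ γ d : ℝ, 0 < γ → 0 < d →
    ‖FF c T (rec γ d (fun q => mp s (Nx (be ^ 2 * ρ) q / κ) *
      (mp s (Nz (be ^ 2 * ρ) q / κ) * tp A₁ A₂ q)))‖ ≤ C / T := by
  obtain ⟨δa, C5, C4, Ca, hδa, hC5, hC4, hCa, habs⟩ := rect_absF c hc A0 B0 x0 y0 hb hy1 hy2 h1
  obtain ⟨δb, cb, C4b, hδb, hcb, hC4b, hE⟩ := E_D2bF c hc A0 B0 x0 y0 hb hy2 h1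
  obtain ⟨δv, Cv, hδv, hCv, hV⟩ := vol_stripG c hc A0 B0 x0 y0 hb hy1
  obtain ⟨CF, hCF, hF⟩ := FF_abs c hc
  set C7 : ℝ := 2 + C4 + 4 * C4b with hC7
  obtain ⟨δp, hδp, Cp, hCp, hP⟩ := propDF2 c hc A0 B0 x0 y0 hb hy1 hy2 C5 C7 (by linarith)
  obtain ⟨B1, hB1, hft1⟩ := FT1_mp 1 one_ne_zero
  obtain ⟨B2, hB2, hft2⟩ := FT1_mp (-1) (by norm_num)
  set δ : ℝ := min (min δa δb) (min δv δp) / 4 with hδdef
  have hδ : 0 < δ := by positivity
  have m1 : min (min δa δb) (min δv δp) ≤ δa := (min_le_left _ _).trans (min_le_left _ _)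
  have m2 : min (min δa δb) (min δv δp) ≤ δb := (min_le_left _ _).trans (min_le_right _ _)
  have m3 : min (min δa δb) (min δv δp) ≤ δv := (min_le_right _ _).trans (min_le_left _ _)
  have m4 : min (min δa δb) (min δv δp) ≤ δp := (min_le_right _ _).trans (min_le_right _ _)
  have ga : 4 * δ ≤ δa := by rw [hδdef]; linarith
  have gb : 4 * δ ≤ δb := by rw [hδdef]; linarith
  have gv : 4 * δ ≤ δv := by rw [hδdef]; linarith
  have gp : 4 * δ ≤ δp := by rw [hδdef]; linarith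
  set A : ℝ := Cv / C4b * (2 / cb ^ 2) with hA
  have hAp : 0 ≤ A := by positivity
  have k1 : 0 ≤ CF * A := mul_nonneg hCF hAp
  have k2 : 0 ≤ B1 * (B1 * Cp) := by positivity
  have k3 : 0 ≤ B2 * (B2 * Cp) := by positivity
  refine ⟨δ, Ca + CF * A + B1 * (B1 * Cp) + B2 * (B2 * Cp), hδ, by positivity,
    fun T hT al be hsz ρ hρ hρδ κ hκ hκδ s hs A₁ A₂ hA1 hA2 b1 b2 s1 s2 γ d hγ hd => ?_⟩
  obtain ⟨hal, hal1, hbe, hbe1, -, -⟩ := id hsz
  set ρ' : ℝ := be ^ 2 * ρ with hρ'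
  have hP0 : 0 < al * be ^ 2 := by positivity
  set G : ℝ := al * be ^ 2 * γ with hG
  set D : ℝ := be * d with hD
  have hG0 : 0 < G := by positivity
  have hD0 : 0 < D := by positivity
  set M : V × V → ℂ := fun q => mp s (Nx ρ' q / κ) * (mp s (Nz ρ' q / κ) * tp A₁ A₂ q) with hM
  have htp : Measurable (tp A₁ A₂) := by
    unfold tp
    exact (hA1.comp measurable_fst).mul (hA2.comp measurable_snd)
  have hMm : Measurable M := by
    refine ((measurable_mp s).comp ((measurable_Nx ρ').div_const κ)).mul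
      (((measurable_mp s).comp ((measurable_Nz ρ').div_const κ)).mul htp)
  have hM1 : ∀ q, ‖M q‖ ≤ 1 := fun q => by
    rw [hM, norm_mul, norm_mul]
    unfold tp
    rw [norm_mul]
    exact mul_le_one₀ (mp_norm _ _) (by positivity) (mul_le_one₀ (mp_norm _ _) (by positivity)
      (mul_le_one₀ (b1 _) (norm_nonneg _) (b2 _)))
  have hMs : ∀ q, M q ≠ 0 → NbF al be δ ρ x0 y0 q ∧ mp s (Nx ρ' q / κ) ≠ 0 ∧
      mp s (Nz ρ' q / κ) ≠ 0 := by
    intro q hq
    have e1 := left_ne_zero_of_mul hq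
    have e2 := left_ne_zero_of_mul (right_ne_zero_of_mul hq)
    have e3 : tp A₁ A₂ q ≠ 0 := right_ne_zero_of_mul (right_ne_zero_of_mul hq)
    obtain ⟨f1, f2, f3⟩ := s1 q.1 (left_ne_zero_of_mul e3)
    obtain ⟨f4, f5, f6⟩ := s2 q.2 (right_ne_zero_of_mul e3)
    exact ⟨⟨f1, f4, f2, f5, f3, f6⟩, e1, e2⟩
  have fin : ∀ D : ℝ, D ≤ Ca + CF * A + B1 * (B1 * Cp) + B2 * (B2 * Cp) →
      ‖FF c T (rec γ d M)‖ ≤ D / T →
      ‖FF c T (rec γ d M)‖ ≤ (Ca + CF * A + B1 * (B1 * Cp) + B2 * (B2 * Cp)) / T := by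
    intro D hD h
    refine h.trans ?_
    gcongr
  rcases habs T hT al be (Sz_mono (by linarith) hsz) ρ hρ (by linarith) κ hκ (by linarith) M hMm
    hM1 (fun q hq => by
    obtain ⟨e1, e2, e3⟩ := hMs q hq
    exact ⟨NbF_mono (by linarith) e1, (mp_ne_zero s _ κ hs hκ e2).1,
      (mp_ne_zero s _ κ hs hκ e3).1⟩) γ d hγ hd with h2 | ⟨h2, h3⟩
  · exact fin Ca (by linarith) h2
  · rcases le_or_gt (2 * C4b * D) (κ * G) with h4 | h4
    · -- R2b
      refine fin (CF * A) (by linarith) ?_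
      have hS := hF T hT (rec γ d M)
        {q | (NbF al be δ ρ x0 y0 q ∧ |Nx ρ' q| ≤ 2 * κ ∧ |q.1.2.2| ≤ γ ∧ |q.2.2.2| ≤ d) ∧
          γ / 2 < |q.1.2.2| ∧
          ((κ / 2 ≤ Nx ρ' q ∧ κ / 2 ≤ Nz ρ' q) ∨ (Nx ρ' q ≤ -(κ / 2) ∧ Nz ρ' q ≤ -(κ / 2)))}
        (cb * ρ * κ * (G / 2)) (Cv * ρ ^ 2 * κ * G * D) (measurable_rec γ d M hMm)
        (rec_le_one γ d M hM1)
        (fun q hq _ => by
          obtain ⟨e1, e2, e3, e4, e5⟩ := rec_ne_zero γ d M q hq
          obtain ⟨f1, f2, f3⟩ := hMs q e1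
          obtain ⟨g1, g2⟩ := mp_ne_zero s _ κ hs hκ f2
          obtain ⟨g3, g4⟩ := mp_ne_zero s _ κ hs hκ f3
          refine ⟨⟨f1, g1, e3, e5⟩, e2, ?_⟩
          rcases hs with rfl | rfl
          · rcases g2 with g2 | g2
            · rcases g4 with g4 | g4
              · exact Or.inl ⟨g2.2, g4.2⟩
              · norm_num at g4
            · norm_num at g2
          · rcases g2 with g2 | g2
            · norm_num at g2
            · rcases g4 with g4 | g4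
              · norm_num at g4
              · exact Or.inr ⟨g2.2, g4.2⟩) (by positivity)
        ((measure_mono fun q hq => ?_).trans
          (hV al be (Sz_mono (by linarith) hsz) ρ hρ (by linarith) κ γ d hκ.le hγ.le hd.le))
        (by positivity)
        (fun q hq => by
          obtain ⟨⟨e1, e2, e3, e4⟩, e5, e6⟩ := hq
          have f4 : be * |q.2.2.2| ≤ D := by
            rw [hD]
            gcongr
          have f5 : G / 2 ≤ al * be ^ 2 * |q.1.2.2| := by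
            have : al * be ^ 2 * (γ / 2) ≤ al * be ^ 2 * |q.1.2.2| := by gcongr
            rw [hG]
            linarith
          have e7 := hE al be (Sz_mono (by linarith) hsz) ρ hρ (by linarith) κ hκ (by linarith) q
            (NbF_mono (by linarith) e1) e6
            (by
              have i1 := mul_le_mul_of_nonneg_left f4 hC4b.le
              have i2 := mul_le_mul_of_nonneg_left f5 hκ.le
              linarith)
          refine le_trans ?_ e7
          gcongr)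
      · refine hS.trans (abs_num CF A T _ _ hCF hT (by positivity) hAp ?_)
        have e1 : A * (cb * ρ * κ * (G / 2)) ^ 2 = Cv / (2 * C4b) * ρ ^ 2 * (κ * G) ^ 2 := by
          rw [hA]
          field_simp
        rw [e1]
        have e2 : D ≤ κ * G / (2 * C4b) := by
          rw [le_div_iff₀ (by positivity)]
          linarith
        calc Cv * ρ ^ 2 * κ * G * D ≤ Cv * ρ ^ 2 * κ * G * (κ * G / (2 * C4b)) := by gcongr
          _ = Cv / (2 * C4b) * ρ ^ 2 * (κ * G) ^ 2 := by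
            field_simp
      · exact ⟨NbF_mono (by linarith) hq.1.1, hq.1.2.1, hq.1.2.2.1, hq.1.2.2.2⟩
    · -- MAIN
      set γ' : ℝ := γ / al with hγ'
      have hγ'0 : 0 < γ' := by positivity
      have hγγ : al * γ' = γ := by
        rw [hγ']
        field_simp
      have hγγ2 : be * al ^ 2 * κ * γ' = be * al * κ * γ := by
        rw [← hγγ]
        ring
      rcases le_or_gt γ' (2 * δ) with h5 | h5
      · have hκγ : 0 < be * al * κ * γ := by positivity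
        -- the size of `d`
        have hd1 : d ≤ C4 * (be * al * κ * γ) := by
          have e1 : be * d ≤ be * (C4 * (be * al * κ * γ)) := by
            refine h3.trans (le_of_eq ?_)
            ring
          exact le_of_mul_le_mul_left e1 hbe
        have hd2 : be * al * κ * γ < 2 * C4b * d := by
          have e1 : be * (be * al * κ * γ) < be * (2 * C4b * d) := by
            calc be * (be * al * κ * γ) = κ * G := by
                  rw [hG]
                  ring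
              _ < 2 * C4b * D := h4
              _ = be * (2 * C4b * d) := by
                  rw [hD]
                  ring
          exact lt_of_mul_lt_mul_left e1 hbe.le
        have hγκ : γ' ≤ C5 * κ := by
          rw [hγ', div_le_iff₀ hal]
          exact h2
        have key : ∀ B : ℝ, 0 ≤ B → FT1 B (mp s) → ‖FF c T (rec γ d M)‖ ≤ B * (B * Cp) / T := by
          intro B hB hft
          rw [hM, rec_eq_rc]
          have h6 := expand_twice c hc T hT B (mp s) hft (measurable_mp s) (mp_norm s) ρ' κ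
            (rc γ A₁) (rc d A₂) (measurable_rc γ _ hA1) (measurable_rc d _ hA2)
            (rc_le_one γ _ b1) (rc_le_one d _ b2) (Cp / T)
            (fun A₁' A₂' c1 c2 c3 c4 c5 c6 => by
              refine hP T al be ρ γ' κ hT (Sz_mono (by linarith) hsz) hρ (by linarith) hγ'0
                (by linarith) hκ (by linarith) hγκ A₁' A₂'
                c1 c2 c3 c4 (fun u hu => ?_) (fun v hv => ?_)
              · obtain ⟨e1, e2, e3⟩ := rc_ne_zero γ A₁ u (c5 u hu)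
                obtain ⟨f1, f2, _⟩ := s1 u e1
                rw [hγγ]
                refine ⟨by linarith, by linarith, ?_, ?_⟩
                · rw [abs_div, abs_of_pos hγ, div_le_div_iff₀ (by linarith) hγ, one_mul]
                  have i1 : |u.2.2| * 2 ≤ |u.2.2| * C7 :=
                    mul_le_mul_of_nonneg_left (by linarith) (abs_nonneg _)
                  linarith
                · rw [abs_div, abs_of_pos hγ, div_le_iff₀ hγ]
                  have i1 : 1 * γ ≤ C7 * γ := mul_le_mul_of_nonneg_right (by linarith) hγ.le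
                  linarith
              · obtain ⟨e1, e2, e3⟩ := rc_ne_zero d A₂ v (c6 v hv)
                obtain ⟨f1, f2, _⟩ := s2 v e1
                rw [hγγ2]
                refine ⟨by linarith, by linarith, ?_, ?_⟩
                · rw [abs_div, abs_of_pos hκγ, div_le_div_iff₀ (by linarith) hκγ, one_mul]
                  have i1 : 2 * C4b * d ≤ 2 * C4b * (2 * |v.2.2|) :=
                    mul_le_mul_of_nonneg_left (by linarith) (by linarith)
                  have i2 : |v.2.2| * (4 * C4b) ≤ |v.2.2| * C7 :=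
                    mul_le_mul_of_nonneg_left (by linarith) (abs_nonneg _)
                  linarith
                · rw [abs_div, abs_of_pos hκγ, div_le_iff₀ hκγ]
                  have i1 : C4 * (be * al * κ * γ) ≤ C7 * (be * al * κ * γ) :=
                    mul_le_mul_of_nonneg_right (by linarith) hκγ.le
                  linarith)
          refine h6.trans (le_of_eq ?_)
          ring
        rcases hs with rfl | rfl
        · exact fin _ (by linarith) (key B1 hB1 hft1)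
        · exact fin _ (by linarith) (key B2 hB2 hft2)
      · have e0 : rec γ d M = fun _ => 0 := by
          funext q
          by_contra hq
          obtain ⟨e1, e2, e3, e4, e5⟩ := rec_ne_zero γ d M q hq
          obtain ⟨⟨_, _, _, _, f5, _⟩, _, _⟩ := hMs q e1
          rw [abs_div, abs_of_pos hal, div_le_iff₀ hal] at f5
          rw [hγ', lt_div_iff₀ hal] at h5
          linarith
        rw [e0]
        unfold FF
        simp only [zero_mul, integral_zero, norm_zero]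
        positivity

end Pool.Agent.SDT.N1F.DF

end -- N1F.DF3

section -- N1F.DF4

/-!
N1F, block A5, case n = 0, part 4: assembly.
-/

namespace Pool.Agent.SDT.N1F.DF

open MeasureTheory Set Metric Pool.Agent.SDT.MP_6cbfb8_an Pool.Agent.SDT.MST Pool.Agent.SDT.N1
open Pool.Agent.SDT.N1.MD
open scoped ENNReal Real ContDiff

/-- The last piece: one dyadic rectangle. -/
theorem rect_thF (c : ℝ) (hc : 0 < c) (A0 B0 : ℝ) (x0 y0 : ℝ × ℝ) (hb : Bs c A0 B0 x0)
    (hy1 : y0.1 ≠ 0) (hy2 : y0.2 ≠ 0) (h1 : nb B0 x0 y0 = 0) :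
    ∃ δ C : ℝ, 0 < δ ∧ 0 ≤ C ∧ ∀ T : ℝ, 1 ≤ T → ∀ al be : ℝ, Sz al be A0 B0 δ →
    ∀ ρ : ℝ, 0 < ρ → ρ < δ →
    ∀ κ : ℝ, 0 < κ → κ < δ → κ ≤ 1 / T ^ 2 → ∀ M : V × V → ℂ, Measurable M → (∀ q, ‖M q‖ ≤ 1) →
    (∀ q, M q ≠ 0 → NbF al be δ ρ x0 y0 q ∧ |Nx (be ^ 2 * ρ) q| ≤ 2 * κ ∧
      |Nz (be ^ 2 * ρ) q| ≤ 2 * κ) →
    ∀ γ d : ℝ, 0 < γ → 0 < d → ‖FF c T (rec γ d M)‖ ≤ C / T := by
  obtain ⟨δa, C5, C4, Ca, hδa, hC5, hC4, hCa, habs⟩ := rect_absF c hc A0 B0 x0 y0 hb hy1 hy2 h1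
  obtain ⟨δv, Cv, hδv, hCv, hV⟩ := vol_stripG c hc A0 B0 x0 y0 hb hy1
  obtain ⟨CF, hCF, hF⟩ := FF_abs0 c hc
  set δ : ℝ := min (min δa δv) 1 with hδdef
  have hδ : 0 < δ := by positivity
  have ga : δ ≤ δa := (min_le_left _ _).trans (min_le_left _ _)
  have gv : δ ≤ δv := (min_le_left _ _).trans (min_le_right _ _)
  have g1 : δ ≤ 1 := min_le_right _ _
  refine ⟨δ, Ca + CF * (Cv * C5 * (C4 * C5)), hδ, by positivity,
    fun T hT al be hsz ρ hρ hρδ κ hκ hκδ hκT M hM hM1 hMs γ d hγ hd => ?_⟩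
  obtain ⟨hal, hal1, hbe, hbe1, -, -⟩ := id hsz
  have hT0 : 0 < T := by linarith
  rcases habs T hT0 al be (Sz_mono ga hsz) ρ hρ (by linarith) κ hκ (by linarith) M hM hM1
    (fun q hq => by
    obtain ⟨e1, e2, e3⟩ := hMs q hq
    exact ⟨NbF_mono ga e1, e2, e3⟩) γ d hγ hd with h2 | ⟨h2, h3⟩
  · refine h2.trans ?_
    gcongr
    have : 0 ≤ CF * (Cv * C5 * (C4 * C5)) := by positivity
    linarith
  · have h4 := hF T hT0 (rec γ d M)
      {q | NbF al be δ ρ x0 y0 q ∧ |Nx (be ^ 2 * ρ) q| ≤ 2 * κ ∧ |q.1.2.2| ≤ γ ∧ |q.2.2.2| ≤ d}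
      (Cv * ρ ^ 2 * κ * (al * be ^ 2 * γ) * (be * d)) (Cv * C5 * (C4 * C5))
      (measurable_rec γ d M hM)
      (rec_le_one γ d M hM1)
      (fun q hq _ => by
        obtain ⟨e1, e2, e3, e4, e5⟩ := rec_ne_zero γ d M q hq
        exact ⟨(hMs q e1).1, (hMs q e1).2.1, e3, e5⟩) (by positivity)
      ((measure_mono fun q hq => ?_).trans
        (hV al be (Sz_mono gv hsz) ρ hρ (by linarith) κ γ d hκ.le hγ.le hd.le)) ?_
    · refine h4.trans ?_
      gcongr
      linarith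
    · exact ⟨NbF_mono gv hq.1, hq.2.1, hq.2.2.1, hq.2.2.2⟩
    · have hκ1 : κ ≤ 1 := by linarith
      have hG : al * be ^ 2 * γ ≤ C5 * κ := by
        have h5 : al * be ^ 2 ≤ 1 := mul_le_one₀ hal1 (by positivity) (pow_le_one₀ hbe.le hbe1)
        calc al * be ^ 2 * γ ≤ 1 * γ := by gcongr
          _ = γ := one_mul _
          _ ≤ C5 * κ * al := h2
          _ ≤ C5 * κ * 1 := by gcongr
          _ = C5 * κ := mul_one _
      have e1 : be * d ≤ C4 * κ * (C5 * κ) := h3.trans (by gcongr)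
      have e2 : κ ^ 4 ≤ κ := by
        calc κ ^ 4 = κ * κ ^ 3 := by ring
          _ ≤ κ * 1 := by
            gcongr
            exact pow_le_one₀ hκ.le hκ1
          _ = κ := mul_one κ
      calc Cv * ρ ^ 2 * κ * (al * be ^ 2 * γ) * (be * d) ≤
            Cv * 1 ^ 2 * κ * (C5 * κ) * (C4 * κ * (C5 * κ)) := by
            gcongr
            linarith
        _ = Cv * C5 * (C4 * C5) * κ ^ 4 := by ring
        _ ≤ Cv * C5 * (C4 * C5) * (1 / T ^ 2) := by
            gcongr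
            exact e2.trans hκT
        _ = Cv * C5 * (C4 * C5) / T ^ 2 := by ring

end Pool.Agent.SDT.N1F.DF

namespace Pool.Agent.SDT.N1F

open MeasureTheory Set Metric Pool.Agent.SDT.MP_6cbfb8_an Pool.Agent.SDT.MST Pool.Agent.SDT.N1
open Pool.Agent.SDT.N1.MD Pool.Agent.SDT.N1F.DF
open scoped ENNReal Real ContDiff

/-- Case `n = 0`. -/
theorem TH_DF (c : ℝ) (hc : 0 < c) (A0 B0 : ℝ) (x0 y0 : ℝ × ℝ) (hb : Bs c A0 B0 x0)
    (hy1 : y0.1 ≠ 0) (hy2 : y0.2 ≠ 0) (h1 : nb B0 x0 y0 = 0) :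
    ∃ δ : ℝ, 0 < δ ∧ ∃ C : ℝ, 0 ≤ C ∧ ∀ T : ℝ, 1 ≤ T → ∀ al be : ℝ, Sz al be A0 B0 δ →
      ∀ ρ : ℝ, 0 < ρ → ρ < δ →
      ∀ α β : ℝ × ℝ → ℂ, Measurable α → Measurable β → (∀ p, ‖α p‖ ≤ 1) → (∀ p, ‖β p‖ ≤ 1) →
      (∀ p, α p ≠ 0 → |p.1 / (al * be ^ 2 * ρ) - y0.1| ≤ δ ∧ |p.2 / al - x0.1| ≤ δ) →
      (∀ p, β p ≠ 0 → |p.1 / (be * ρ) - y0.2| ≤ δ ∧ |p.2 / be - x0.2| ≤ δ) →
      Th c T (pd α β) ≤ ENNReal.ofReal (C * (1 + Real.log T) ^ 5 / T) := by
  classical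
  obtain ⟨δm, Cm, hδm, hCm, hmpl⟩ := rect_mplF c hc A0 B0 x0 y0 hb hy1 hy2 h1
  obtain ⟨δt, Ct, hδt, hCt, hth⟩ := rect_thF c hc A0 B0 x0 y0 hb hy1 hy2 h1
  obtain ⟨CZ, hCZ, hz⟩ := z_splitF c hc
  set D : ℝ := min (min δm δt) 1 with hD
  have hDpos : 0 < D := by positivity
  have dm : D ≤ δm := (min_le_left _ _).trans (min_le_left _ _)
  have dt : D ≤ δt := (min_le_left _ _).trans (min_le_right _ _)
  have d1 : D ≤ 1 := min_le_right _ _
  set η : ℝ := D / 2 with hη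
  have hηpos : 0 < η := by positivity
  obtain ⟨δn, hδn, hN⟩ := Nx_smallF c hc A0 B0 x0 y0 hb h1 η hηpos
  set δ : ℝ := min δn D / 4 with hδdef
  have hδ : 0 < δ := by positivity
  have gn : 4 * δ ≤ δn := by
    have := min_le_left δn D
    rw [hδdef]
    linarith
  have gD : 4 * δ ≤ D := by
    have := min_le_right δn D
    rw [hδdef]
    linarith
  refine ⟨δ, hδ, 100 * (CZ * (Cm + Ct + 1)), by positivity,
    fun T hT al be hsz ρ hρ hρδ α β hα hβ hα1 hβ1 hαs hβs => ?_⟩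
  obtain ⟨hal, hal1, hbe, hbe1, -, -⟩ := id hsz
  have hT0 : 0 < T := by linarith
  have hlog : 0 ≤ Real.log T := Real.log_nonneg hT
  obtain ⟨J, hJ1, hJ2⟩ := dy_num T hT
  set Q : ℝ := CZ * (1 + Real.log T) ^ 2 * ((Cm + Ct + 1) / T) with hQ
  have hQ0 : 0 ≤ Q := by positivity
  set ρ' : ℝ := be ^ 2 * ρ with hρ'
  -- the supports
  have hNb : ∀ q : V × V, tp (dd α) (dd β) q ≠ 0 → NbF al be (2 * δ) ρ x0 y0 q := by
    intro q hq
    unfold tp at hq
    obtain ⟨a1, a2, a4⟩ := dd_suppF hαs q.1 (left_ne_zero_of_mul hq)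
    obtain ⟨b1, b2, b4⟩ := dd_suppF hβs q.2 (right_ne_zero_of_mul hq)
    exact ⟨by linarith, by linarith, by linarith, by linarith, a4, b4⟩
  have hddm := dd_meas α hα
  have hddm' := dd_meas β hβ
  have hdd1 := dd_norm α hα1
  have hdd1' := dd_norm β hβ1
  have htpm : Measurable (tp (dd α) (dd β)) := by
    unfold tp
    exact (hddm.comp measurable_fst).mul (hddm'.comp measurable_snd)
  have htp1 : ∀ q, ‖tp (dd α) (dd β) q‖ ≤ 1 := fun q => by
    unfold tp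
    rw [norm_mul]
    exact mul_le_one₀ (hdd1 _) (norm_nonneg _) (hdd1' _)
  have hMm : ∀ m : ℝ → ℂ, Measurable m →
      Measurable fun q => m (Nx ρ' q) * (m (Nz ρ' q) * tp (dd α) (dd β) q) := fun m hm =>
    (hm.comp (measurable_Nx ρ')).mul ((hm.comp (measurable_Nz ρ')).mul htpm)
  have hMn : ∀ m : ℝ → ℂ, (∀ x, ‖m x‖ ≤ 1) →
      ∀ q, ‖m (Nx ρ' q) * (m (Nz ρ' q) * tp (dd α) (dd β) q)‖ ≤ 1 := fun m hm q => by
    rw [norm_mul, norm_mul]
    exact mul_le_one₀ (hm _) (by positivity) (mul_le_one₀ (hm _) (norm_nonneg _) (htp1 _))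
  have hQm : CZ * (1 + Real.log T) ^ 2 * (Cm / T + 1 / T) ≤ Q := by
    rw [hQ, ← add_div]
    gcongr
    linarith
  have hQt : CZ * (1 + Real.log T) ^ 2 * (Ct / T + 1 / T) ≤ Q := by
    rw [hQ, ← add_div]
    gcongr
    linarith
  -- one-sided pieces
  have hP1 : ∀ s : ℝ, s = 1 ∨ s = -1 → ∀ κ : ℝ, 0 < κ → κ ≤ η →
      Th c T (mM ρ' (fun x => mp s (x / κ)) α β) ≤ ENNReal.ofReal Q := by
    intro s hs κ hκ hκη
    have hm1 : Measurable fun x : ℝ => mp s (x / κ) :=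
      (measurable_mp s).comp (measurable_id.div_const κ)
    refine Th_of_FF c hc T hT0 ρ' _ hm1 (fun x => mp_norm s _) (fun x => ?_) α β hα hβ hα1 hβ1
      Q ?_
    · unfold mp
      exact Complex.conj_ofReal _
    · refine (hz T hT al be hal hal1 hbe hbe1 ρ hρ (by linarith) x0 y0
        (fun q => mp s (Nx ρ' q / κ) * (mp s (Nz ρ' q / κ) * tp (dd α) (dd β) q))
        (hMm (fun x => mp s (x / κ)) hm1) (hMn (fun x => mp s (x / κ)) fun x => mp_norm s _)
        (fun q hq => ?_) (Cm / T) (by positivity) (fun γ d hγ _ hd _ => ?_)).trans hQm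
      · exact NbF_mono (by linarith) (hNb q (right_ne_zero_of_mul (right_ne_zero_of_mul hq)))
      · refine hmpl T hT0 al be (Sz_mono (by linarith) hsz) ρ hρ (by linarith) κ hκ (by linarith)
          s hs (dd α) (dd β) hddm hddm' hdd1
          hdd1' (fun u hu => ?_) (fun v hv => ?_) γ d hγ hd
        · obtain ⟨a1, a2, a4⟩ := dd_suppF hαs u hu
          exact ⟨by linarith, by linarith, by linarith⟩
        · obtain ⟨a1, a2, a4⟩ := dd_suppF hβs v hv
          exact ⟨by linarith, by linarith, by linarith⟩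
  -- the last piece
  have hP2 : Th c T (mM ρ' (fun x => tq (x / (η / 2 ^ J))) α β) ≤ ENNReal.ofReal Q := by
    set κ : ℝ := η / 2 ^ J with hκdef
    have hκ : 0 < κ := by positivity
    have h2J : (1 : ℝ) ≤ 2 ^ J := one_le_pow₀ (by norm_num)
    have hκη : κ ≤ η := div_le_self hηpos.le h2J
    have hκT : κ ≤ 1 / T ^ 2 := by
      calc κ = η * (1 / 2) ^ J := by rw [hκdef, one_div, inv_pow]; rfl
        _ ≤ 1 * (1 / T ^ 2) := by
          gcongr
          linarith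
        _ = 1 / T ^ 2 := one_mul _
    have hm1 : Measurable fun x : ℝ => tq (x / κ) :=
      measurable_tq.comp (measurable_id.div_const κ)
    refine Th_of_FF c hc T hT0 ρ' _ hm1 (fun x => tq_norm _) (fun x => ?_) α β hα hβ hα1 hβ1 Q ?_
    · unfold tq
      exact Complex.conj_ofReal _
    · refine (hz T hT al be hal hal1 hbe hbe1 ρ hρ (by linarith) x0 y0
        (fun q => tq (Nx ρ' q / κ) * (tq (Nz ρ' q / κ) * tp (dd α) (dd β) q))
        (hMm (fun x => tq (x / κ)) hm1) (hMn (fun x => tq (x / κ)) fun x => tq_norm _)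
        (fun q hq => ?_) (Ct / T) (by positivity) (fun γ d hγ _ hd _ => ?_)).trans hQt
      · exact NbF_mono (by linarith) (hNb q (right_ne_zero_of_mul (right_ne_zero_of_mul hq)))
      · refine hth T hT al be (Sz_mono (by linarith) hsz) ρ hρ (by linarith) κ hκ (by linarith) hκT
          (fun q => tq (Nx ρ' q / κ) * (tq (Nz ρ' q / κ) * tp (dd α) (dd β) q))
          (hMm (fun x => tq (x / κ)) hm1) (hMn (fun x => tq (x / κ)) fun x => tq_norm _)
          (fun q hq => ?_) γ d hγ hd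
        refine ⟨NbF_mono (by linarith) (hNb q (right_ne_zero_of_mul (right_ne_zero_of_mul hq))),
          tq_ne_zero _ κ hκ (left_ne_zero_of_mul hq),
          tq_ne_zero _ κ hκ (left_ne_zero_of_mul (right_ne_zero_of_mul hq))⟩
  -- the decomposition
  set mul : ℕ → ℝ → ℂ := fun i x => if i < J then mp 1 (x / (η / 2 ^ i)) else
    if i < J + J then mp (-1) (x / (η / 2 ^ (i - J))) else tq (x / (η / 2 ^ J)) with hmul
  have hκi : ∀ i : ℕ, 0 < η / 2 ^ i ∧ η / 2 ^ i ≤ η := fun i =>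
    ⟨by positivity, div_le_self hηpos.le (one_le_pow₀ (by norm_num))⟩
  have hpiece : ∀ i : ℕ, Th c T (mM ρ' (mul i) α β) ≤ ENNReal.ofReal Q := by
    intro i
    by_cases hi : i < J
    · have e1 : mul i = fun x => mp 1 (x / (η / 2 ^ i)) := by
        funext x
        rw [hmul]
        simp only [if_pos hi]
      rw [e1]
      exact hP1 1 (Or.inl rfl) _ (hκi i).1 (hκi i).2
    · by_cases hi2 : i < J + J
      · have e1 : mul i = fun x => mp (-1) (x / (η / 2 ^ (i - J))) := by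
          funext x
          rw [hmul]
          simp only [if_neg hi, if_pos hi2]
        rw [e1]
        exact hP1 (-1) (Or.inr rfl) _ (hκi _).1 (hκi _).2
      · have e1 : mul i = fun x => tq (x / (η / 2 ^ J)) := by
          funext x
          rw [hmul]
          simp only [if_neg hi, if_neg hi2]
        rw [e1]
        exact hP2
  have hmulm : ∀ i, Measurable (mul i) := by
    intro i
    rw [hmul]
    simp only
    split_ifs
    · exact (measurable_mp 1).comp (measurable_id.div_const _)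
    · exact (measurable_mp (-1)).comp (measurable_id.div_const _)
    · exact measurable_tq.comp (measurable_id.div_const _)
  have hmuln : ∀ i x, ‖mul i x‖ ≤ 1 := by
    intro i x
    rw [hmul]
    simp only
    split_ifs
    · exact mp_norm _ _
    · exact mp_norm _ _
    · exact tq_norm _
  have hsum : pd α β = fun p => ∑ i : Fin (J + J + 1), mM ρ' (mul i) α β p := by
    funext p
    by_cases hp : pd α β p = 0
    · rw [hp]
      refine (Finset.sum_eq_zero fun i _ => ?_).symm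
      unfold mM
      rw [hp, mul_zero]
    · unfold mM
      rw [← Finset.sum_mul]
      have hp' : α (p.1.1, p.2.1) * β (p.1.2, p.2.2) ≠ 0 := hp
      obtain ⟨a1, a2⟩ := hαs _ (left_ne_zero_of_mul hp')
      obtain ⟨b1, b2⟩ := hβs _ (right_ne_zero_of_mul hp')
      simp only at a1 a2 b1 b2
      set x : ℝ := Nf ρ' (p.1.1 / ρ', p.1.2 / ρ') p.2 with hxdef
      have hxη : |x| ≤ η := hN al be (Sz_mono (by linarith) hsz) ρ hρ (by linarith) p.1 p.2
        (by linarith) (by linarith) (by linarith) (by linarith)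
      have hxη' : |x / η| ≤ 1 := by
        rw [abs_div, abs_of_pos hηpos, div_le_one hηpos]
        exact hxη
      have hs := mpl_sum J (x / η) hxη'
      have hdiv : ∀ j : ℕ, x / (η / 2 ^ j) = 2 ^ j * (x / η) := fun j => by
        field_simp
      have e2 : (∑ i : Fin (J + J + 1), mul i x) = 1 := by
        rw [Fin.sum_univ_eq_sum_range (fun i => mul i x) (J + J + 1), Finset.sum_range_succ,
          Finset.sum_range_add]
        have f1 : ∀ i ∈ Finset.range J, mul i x = ((mpl (2 ^ i * (x / η)) : ℝ) : ℂ) := by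
          intro i hi
          rw [hmul]
          simp only [if_pos (Finset.mem_range.1 hi)]
          unfold mp
          rw [one_mul, hdiv]
        have f2 : ∀ i ∈ Finset.range J,
            mul (J + i) x = ((mpl (-(2 ^ i * (x / η))) : ℝ) : ℂ) := by
          intro i hi
          have g1 : ¬ J + i < J := by omega
          have g2 : J + i < J + J := by
            have := Finset.mem_range.1 hi
            omega
          rw [hmul]
          simp only [if_neg g1, if_pos g2]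
          unfold mp
          rw [Nat.add_sub_cancel_left, hdiv, neg_one_mul]
        have f3 : mul (J + J) x = ((th (2 ^ J * (x / η)) : ℝ) : ℂ) := by
          have g1 : ¬ J + J < J := by omega
          have g2 : ¬ J + J < J + J := by omega
          rw [hmul]
          simp only [if_neg g1, if_neg g2]
          unfold tq
          rw [hdiv]
        rw [Finset.sum_congr rfl f1, Finset.sum_congr rfl f2, f3]
        exact_mod_cast hs
      rw [e2, one_mul]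
  rw [hsum]
  refine (Th_sum c hc T hT0 (J + J + 1) (fun i : Fin (J + J + 1) => mM ρ' (mul i) α β)
    (fun i => measurable_mM ρ' _ (hmulm i) α β hα hβ) 1
    (fun i => mM_norm ρ' _ (hmuln i) α β hα1 hβ1)).trans ?_
  have h5 : (∑ i : Fin (J + J + 1), Th c T (mM ρ' (mul i) α β)) ≤
      ((J + J + 1 : ℕ) : ℝ≥0∞) * ENNReal.ofReal Q := by
    refine (Finset.sum_le_card_nsmul (Finset.univ : Finset (Fin (J + J + 1)))
      (fun i : Fin (J + J + 1) => Th c T (mM ρ' (mul i) α β)) (ENNReal.ofReal Q)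
      fun i _ => hpiece i).trans ?_
    rw [Finset.card_univ, Fintype.card_fin, nsmul_eq_mul]
  have h6 : ∀ (n : ℕ) (x : ℝ), (n : ℝ≥0∞) * ((n : ℝ≥0∞) * ENNReal.ofReal x) =
      ENNReal.ofReal ((n : ℝ) * ((n : ℝ) * x)) := by
    intro n x
    rw [ENNReal.ofReal_mul (Nat.cast_nonneg n), ENNReal.ofReal_mul (Nat.cast_nonneg n),
      ENNReal.ofReal_natCast]
  refine (mul_le_mul_right h5 _).trans ?_
  rw [h6]
  apply ENNReal.ofReal_le_ofReal
  have hJ3 : ((J + J + 1 : ℕ) : ℝ) ≤ 10 * (1 + Real.log T) := by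
    push_cast
    linarith
  have hL1 : 1 ≤ 1 + Real.log T := by linarith
  calc ((J + J + 1 : ℕ) : ℝ) * (((J + J + 1 : ℕ) : ℝ) * Q) ≤
        (10 * (1 + Real.log T)) * ((10 * (1 + Real.log T)) * Q) := by gcongr
    _ = 100 * (CZ * (Cm + Ct + 1)) * (1 + Real.log T) ^ 4 / T := by
        rw [hQ]
        ring
    _ ≤ 100 * (CZ * (Cm + Ct + 1)) * (1 + Real.log T) ^ 5 / T := by
        have h7 : (1 + Real.log T) ^ 4 ≤ (1 + Real.log T) ^ 5 :=
          pow_le_pow_right₀ hL1 (by norm_num)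
        gcongr

end Pool.Agent.SDT.N1F

end -- N1F.DF4

section -- N1G.QAh

/-!
N1G, strips, annular boxes, part h: the core estimate and the scaling.
-/

namespace Pool.Agent.SDT.N1G

open MeasureTheory Set Metric Filter Topology Pool.Agent.SDT.MP_6cbfb8_an Pool.Agent.SDT.MST Pool.Agent.SDT.N1
open scoped ENNReal Real ContDiff

/-! ### Scaling -/

lemma qa_lint2 (F : ℝ × ℝ → ℝ≥0∞) (r : ℝ) (hr : 0 < r) (y0 : ℝ × ℝ) :
    ∫⁻ y, F y = ENNReal.ofReal (r ^ 2) * ∫⁻ Y : ℝ × ℝ, F (y0 + r • Y) := by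
  have h1 : ∫⁻ Y : ℝ × ℝ, F (y0 + r • Y) =
      ∫⁻ Z, F (y0 + Z) ∂(Measure.map (fun Y : ℝ × ℝ => r • Y) volume) :=
    (lintegral_map_equiv (fun Z => F (y0 + Z)) (MeasurableEquiv.smul₀ r hr.ne')).symm
  rw [Measure.map_addHaar_smul volume hr.ne', lintegral_smul_measure,
    lintegral_add_left_eq_self] at h1
  have h2 : Module.finrank ℝ (ℝ × ℝ) = 2 := by simp
  rw [h2, abs_of_pos (by positivity), smul_eq_mul] at h1
  rw [h1, ← mul_assoc, ← ENNReal.ofReal_mul (by positivity), mul_inv_cancel₀ (by positivity),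
    ENNReal.ofReal_one, one_mul]

lemma qa_lint1 (F : ℝ → ℝ≥0∞) (r : ℝ) (hr : 0 < r) :
    ∫⁻ t, F t = ENNReal.ofReal (r⁻¹) * ∫⁻ t : ℝ, F (t / r) := by
  have h1 : ∫⁻ t : ℝ, F (t / r) = ∫⁻ t : ℝ, F (r⁻¹ • t) := by
    refine lintegral_congr fun t => ?_
    rw [smul_eq_mul, inv_mul_eq_div]
  have hr' : r⁻¹ ≠ 0 := inv_ne_zero hr.ne'
  have h2 : ∫⁻ t : ℝ, F (r⁻¹ • t) = ∫⁻ t, F t ∂(Measure.map (fun Y : ℝ => r⁻¹ • Y) volume) :=
    (lintegral_map_equiv F (MeasurableEquiv.smul₀ r⁻¹ hr')).symm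
  rw [Measure.map_addHaar_smul volume hr', lintegral_smul_measure] at h2
  have h3 : Module.finrank ℝ ℝ = 1 := by simp
  rw [h3, pow_one, inv_inv, abs_of_pos hr, smul_eq_mul] at h2
  rw [h1, h2, ← mul_assoc, ← ENNReal.ofReal_mul (by positivity), inv_mul_cancel₀ hr.ne',
    ENNReal.ofReal_one, one_mul]

/-- Scaling of the outer difference and of the phase. -/
theorem Thg_sc (φ w : YX → ℝ) (T : ℝ) (M : YX → ℂ) (r : ℝ) (hr : 0 < r) (y0 : ℝ × ℝ) :
    Thg φ w T M = ENNReal.ofReal r * Thg (fun p => φ (y0 + r • p.1, p.2) / r)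
      (fun p => w (y0 + r • p.1, p.2)) (r * T) (fun p => M (y0 + r • p.1, p.2)) := by
  unfold Thg
  rw [qa_lint2 _ r hr y0]
  have h1 : ∀ Y : ℝ × ℝ, ∫⁻ t : ℝ, ENNReal.ofReal (chi (t / T)) *
      ‖Hyg φ w M (y0 + r • Y) t‖ₑ ^ 2 = ENNReal.ofReal (r⁻¹) *
      ∫⁻ t : ℝ, ENNReal.ofReal (chi (t / (r * T))) * ‖Hyg (fun p => φ (y0 + r • p.1, p.2) / r)
        (fun p => w (y0 + r • p.1, p.2)) (fun p => M (y0 + r • p.1, p.2)) Y t‖ₑ ^ 2 := by
    intro Y
    rw [qa_lint1 _ r hr]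
    congr 1
    refine lintegral_congr fun t => ?_
    have h2 : Hyg φ w M (y0 + r • Y) (t / r) = Hyg (fun p => φ (y0 + r • p.1, p.2) / r)
        (fun p => w (y0 + r • p.1, p.2)) (fun p => M (y0 + r • p.1, p.2)) Y t := by
      unfold Hyg
      refine integral_congr_ae (Filter.Eventually.of_forall fun x => ?_)
      simp only
      congr 2
      ring
    rw [h2, div_div]
  simp only [h1]
  rw [lintegral_const_mul' _ _ ENNReal.ofReal_ne_top, ← mul_assoc,
    ← ENNReal.ofReal_mul (by positivity)]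
  congr 2
  field_simp

/-! ### Admissibility -/

lemma wone_le (v : ℝ) : |wone v| ≤ 3 := by
  unfold wone
  have h1 := f1_sma_le 1 one_pos v
  have h2 := f1_sma_le 2 two_pos v
  have h3 := abs_sub (sma 1 v) (sma 2 v)
  linarith

lemma amA_le (p : QP) (s : YX) : |amA p s| ≤ 9 := by
  unfold amA wA
  rw [abs_mul]
  have h1 := wone_le (Kp p s.2)
  have h2 := wone_le (Kp p (s.2 - yY p s.1))
  calc _ ≤ (3 : ℝ) * 3 := by gcongr
    _ = 9 := by norm_num

lemma Kp_cont (p : QP) : Continuous (Kp p) := by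
  unfold Kp
  fun_prop

lemma yY_cont (p : QP) : Continuous (yY p) := by
  unfold yY hY
  fun_prop

lemma phA_cont (p : QP) : Continuous (phA p) := by
  have h1 : Continuous (qA p) := sqp_smooth.continuous.comp (Kp_cont p)
  have h2 : Continuous fun s : YX => s.2 - yY p s.1 :=
    continuous_snd.sub ((yY_cont p).comp continuous_fst)
  unfold phA
  exact ((h1.comp continuous_snd).sub (h1.comp h2)).div_const _

lemma amA_cont (p : QP) : Continuous (amA p) := by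
  have h1 : Continuous (wA p) := wone_smooth.continuous.comp (Kp_cont p)
  have h2 : Continuous fun s : YX => s.2 - yY p s.1 :=
    continuous_snd.sub ((yY_cont p).comp continuous_fst)
  unfold amA
  exact (h1.comp continuous_snd).mul (h1.comp h2)

lemma admA (p : QP) (δ Y : ℝ) : ∃ R : ℝ, Adm 9 R (cutB δ (0, 0) (0, Y) (phA p))
    (cutB δ (0, 0) (0, Y) (amA p)) := by
  obtain ⟨R, hR⟩ := (BxS_compact δ (0, 0) (0, Y)).exists_bound_of_continuousOn
    (f := fun s : YX => s) continuousOn_id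
  refine ⟨R, cutB_meas _ _ _ _ (phA_cont p).continuousOn,
    cutB_meas _ _ _ _ (amA_cont p).continuousOn, ?_, ?_⟩
  · intro s
    by_cases hs : cutB δ (0, 0) (0, Y) (amA p) s = 0
    · rw [hs, abs_zero]
      norm_num
    · rw [cutB_eq _ _ _ _ _ (cutB_ne _ _ _ _ _ hs)]
      exact amA_le p s
  · intro s hs
    exact hR s (cutB_ne _ _ _ _ _ hs)

/-! ### The core estimate -/

/-- The annular box in scaled variables. -/
theorem coreA : ∃ δ : ℝ, 0 < δ ∧ δ ≤ 1 ∧ ∃ C : ℝ, 0 ≤ C ∧ ∀ p : QP, (p.1, p.2.1) ∈ KB →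
    ∀ Y ∈ An (1 / 4) 4, 0 < p.2.2.1 → p.2.2.1 ≤ δ → 0 < p.2.2.2.1 → p.2.2.2.1 ≤ δ →
    0 < p.2.2.2.2 → p.2.2.2.2 ≤ δ → ∀ T : ℝ, 1 ≤ T → ∀ α β : ℝ × ℝ → ℂ, Measurable α →
    Measurable β → (∀ q, ‖α q‖ ≤ 1) → (∀ q, ‖β q‖ ≤ 1) →
    (∀ q, α q ≠ 0 → |q.1| ≤ δ / 2 ∧ |q.2| ≤ δ / 2) →
    (∀ q, β q ≠ 0 → |q.1 - Y| ≤ δ / 2 ∧ |q.2| ≤ δ / 2) →
    Thg (phA p) (amA p) T (pd α β) ≤
      ENNReal.ofReal (C * (1 + Real.log T) ^ 4 / (p.2.2.2.1 * T)) := by
  obtain ⟨δE, hδE, c1, hc1, HE⟩ := ellA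
  obtain ⟨δM, hδM, CM, hCM, HM⟩ := mainA
  obtain ⟨CC, hCC, HC⟩ := coreN 9 32 c1 (by norm_num) (by norm_num) hc1
  set δ := min (min δE δM) 1 with hδ
  have hδ0 : 0 < δ := by positivity
  have d1 : δ ≤ δE := (min_le_left _ _).trans (min_le_left _ _)
  have d2 : δ ≤ δM := (min_le_left _ _).trans (min_le_right _ _)
  have d3 : δ ≤ 1 := min_le_right _ _
  refine ⟨δ, hδ0, d3, CC * (CM + 1), by positivity, ?_⟩
  intro p hp Y hY hθ hθ1 hκ hκ1 hρ hρ1 T hT α β hα hβ hα1 hβ1 hαs hβs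
  obtain ⟨R, hadm⟩ := admA p δ Y
  have hT0 : 0 < T := by linarith
  have hbx : ∀ s, pd α β s ≠ 0 → Bx δ (0, 0) (0, Y) s := by
    intro s hs
    unfold pd at hs
    obtain ⟨a1, a2⟩ := hαs _ (left_ne_zero_of_mul hs)
    obtain ⟨b1, b2⟩ := hβs _ (right_ne_zero_of_mul hs)
    unfold Bx
    simp only [sub_zero] at a1 a2 b1 b2 ⊢
    exact ⟨by linarith, by linarith, by linarith, by linarith⟩
  rw [Thg_congr (phA p) (amA p) (cutB δ (0, 0) (0, Y) (phA p)) (cutB δ (0, 0) (0, Y) (amA p)) T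
    (pd α β) (fun s hs => ⟨(cutB_eq _ _ _ _ _ (hbx s hs)).symm,
      (cutB_eq _ _ _ _ _ (hbx s hs)).symm⟩)]
  have hCm : 1 / (1 : ℝ) ≤ (CM + 1) / p.2.2.2.1 := by
    rw [one_div_one, le_div_iff₀ hκ]
    linarith
  have h1 := HC R _ _ hadm (0, 0) (0, Y) δ 1 ((CM + 1) / p.2.2.2.1) T hδ0 d3 one_pos le_rfl hCm hT
    (by
      intro q hq hnc
      have h2 := HE p hp Y hY δ d1 hθ (hθ1.trans d1) hκ (hκ1.trans d1) hρ (hρ1.trans d1) q hq hnc
      unfold Fg
      rw [cutB_eq _ _ _ _ _ hq.1, cutB_eq _ _ _ _ _ hq.2.1]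
      exact h2)
    (by
      intro γ d hγ hγδ hd k1 k2 A₁ A₂ m1 m2 n1 n2 s1 s2
      have h2 := HM p hp Y hY δ hδ0 d2 hθ (hθ1.trans d2) hκ (hκ1.trans d2) hρ (hρ1.trans d2)
        9 R _ _ hadm (fun s hs => ⟨cutB_eq _ _ _ _ _ hs, cutB_eq _ _ _ _ _ hs⟩) T γ d hT0 hγ
        hγδ hd (by linarith) (by linarith) A₁ A₂ m1 m2 n1 n2 s1 s2
      refine h2.trans ?_
      rw [div_div, mul_comm p.2.2.2.1 T]
      gcongr
      linarith)
    α β hα hβ hα1 hβ1
    (by
      intro s hs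
      have := hαs s hs
      simp only [sub_zero]
      exact this)
    (by
      intro s hs
      have := hβs s hs
      simp only [sub_zero]
      exact this)
  refine h1.trans (ENNReal.ofReal_le_ofReal (le_of_eq ?_))
  field_simp

/-- The estimate for all `T`. -/
theorem coreA' : ∃ δ : ℝ, 0 < δ ∧ δ ≤ 1 ∧ ∃ C : ℝ, 0 ≤ C ∧ ∀ p : QP, (p.1, p.2.1) ∈ KB →
    ∀ Y ∈ An (1 / 4) 4, 0 < p.2.2.1 → p.2.2.1 ≤ δ → 0 < p.2.2.2.1 → p.2.2.2.1 ≤ δ →
    0 < p.2.2.2.2 → p.2.2.2.2 ≤ δ → ∀ T T1 : ℝ, 0 < T → T ≤ T1 → 1 ≤ T1 →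
    ∀ α β : ℝ × ℝ → ℂ, Measurable α →
    Measurable β → (∀ q, ‖α q‖ ≤ 1) → (∀ q, ‖β q‖ ≤ 1) →
    (∀ q, α q ≠ 0 → |q.1| ≤ δ / 2 ∧ |q.2| ≤ δ / 2) →
    (∀ q, β q ≠ 0 → |q.1 - Y| ≤ δ / 2 ∧ |q.2| ≤ δ / 2) →
    Thg (phA p) (amA p) T (pd α β) ≤
      ENNReal.ofReal (C * (1 + Real.log T1) ^ 4 / (p.2.2.2.1 * T)) := by
  obtain ⟨δ, hδ0, hδ1, C, hC, H⟩ := coreA
  obtain ⟨Ca, hCa, HA⟩ := FFg_abs 9 (by norm_num)
  set v0 : ℝ := (volume (closedBall (0 : V × V) 20)).toReal with hv0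
  have hv0n : 0 ≤ v0 := ENNReal.toReal_nonneg
  refine ⟨δ, hδ0, hδ1, C + Ca * v0, by positivity, ?_⟩
  intro p hp Y hY hθ hθ1 hκ hκ1 hρ hρ1 T T1 hT hT1 h1T α β hα hβ hα1 hβ1 hαs hβs
  have hl1 : 0 ≤ Real.log T1 := Real.log_nonneg h1T
  by_cases hT' : 1 ≤ T
  · refine (H p hp Y hY hθ hθ1 hκ hκ1 hρ hρ1 T hT' α β hα hβ hα1 hβ1 hαs hβs).trans
      (ENNReal.ofReal_le_ofReal ?_)
    have hl : Real.log T ≤ Real.log T1 := Real.log_le_log hT hT1
    have hl0 : 0 ≤ Real.log T := Real.log_nonneg hT'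
    have hcv : 0 ≤ Ca * v0 := by positivity
    gcongr
    linarith
  · push Not at hT'
    obtain ⟨R, hadm⟩ := admA p δ Y
    have hbx : ∀ s, pd α β s ≠ 0 → Bx δ (0, 0) (0, Y) s := by
      intro s hs
      unfold pd at hs
      obtain ⟨a1, a2⟩ := hαs _ (left_ne_zero_of_mul hs)
      obtain ⟨b1, b2⟩ := hβs _ (right_ne_zero_of_mul hs)
      unfold Bx
      simp only [sub_zero] at a1 a2 b1 b2 ⊢
      exact ⟨by linarith, by linarith, by linarith, by linarith⟩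
    rw [Thg_congr (phA p) (amA p) (cutB δ (0, 0) (0, Y) (phA p)) (cutB δ (0, 0) (0, Y) (amA p)) T
      (pd α β) (fun s hs => ⟨(cutB_eq _ _ _ _ _ (hbx s hs)).symm,
        (cutB_eq _ _ _ _ _ (hbx s hs)).symm⟩),
      Thg_eq 9 R _ _ hadm T hT _ (m2_pd_meas hα hβ) (m2_pd_norm hα1 hβ1), ← ofReal_norm]
    refine ENNReal.ofReal_le_ofReal ?_
    have hfin : volume (closedBall (0 : V × V) 20) ≠ ⊤ :=
      (isCompact_closedBall (0 : V × V) 20).measure_lt_top.ne
    have h2 := HA R _ _ hadm T hT (sqM (pd α β)) (closedBall (0 : V × V) 20) 0 v0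
      (m2_sqM_meas (m2_pd_meas hα hβ)) (m2_sqM_norm (m2_pd_norm hα1 hβ1))
      (by
        intro q hq _
        unfold sqM at hq
        have g1 := hbx _ (left_ne_zero_of_mul hq)
        have g2 := hbx ((q.1.1, q.2.1), (q.1.2.1 - q.1.2.2, q.2.2.1 - q.2.2.2)) (fun h => by
          have := right_ne_zero_of_mul hq
          rw [h, map_zero] at this
          exact this rfl)
        obtain ⟨a1, a2, a3, a4⟩ := g1
        obtain ⟨-, -, a5, a6⟩ := g2
        simp only [sub_zero] at a1 a2 a3 a4 a5 a6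
        have hY4 := (abs_le.1 hY.2)
        rw [abs_le] at a1 a2 a3 a4 a5 a6
        rw [mem_closedBall_zero_iff, Prod.norm_def, Prod.norm_def, Prod.norm_def, Prod.norm_def,
          Prod.norm_def]
        simp only [Real.norm_eq_abs]
        refine max_le (max_le ?_ (max_le ?_ ?_)) (max_le ?_ (max_le ?_ ?_)) <;> rw [abs_le] <;>
          constructor <;> linarith [a1.1, a1.2, a2.1, a2.2, a3.1, a3.2, a4.1, a4.2, a5.1, a5.2,
            a6.1, a6.2, hY4.1, hY4.2])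
      hv0n (by rw [hv0, ENNReal.ofReal_toReal hfin]) le_rfl (fun q _ => abs_nonneg _)
    refine h2.trans ?_
    rw [mul_zero, add_zero, one_pow, div_one, le_div_iff₀ (by positivity)]
    have hl4 : 1 ≤ (1 + Real.log T1) ^ 4 := one_le_pow₀ (by linarith)
    have hκ1' : p.2.2.2.1 ≤ 1 := hκ1.trans hδ1
    have e1 : T * (p.2.2.2.1 * T) ≤ 1 := by
      have e2 : p.2.2.2.1 * T ≤ 1 := by nlinarith
      nlinarith
    calc Ca * T * v0 * (p.2.2.2.1 * T) = Ca * v0 * (T * (p.2.2.2.1 * T)) := by ring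
      _ ≤ Ca * v0 * 1 := by gcongr
      _ ≤ (C + Ca * v0) * (1 + Real.log T1) ^ 4 := by
        rw [mul_one]
        have : 0 ≤ Ca * v0 := by positivity
        nlinarith

end Pool.Agent.SDT.N1G

end -- N1G.QAh

section -- N1G.QAi

/-!
N1Q, QA: the annular boxes.
-/

namespace Pool.Agent.SDT.N1Q

open MeasureTheory Set Metric Pool.Agent.SDT.MP_6cbfb8_an Pool.Agent.SDT.MST Pool.Agent.SDT.N1
open Pool.Agent.SDT.N1F Pool.Agent.SDT.N1G Pool.Agent.SDT.N1M
open scoped ENNReal Real ContDiff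

lemma qa_w1_zero (v : ℝ) (hv : v ≤ 1 / 4) : w1 v = 0 := by
  unfold w1
  rw [f1_sma_zero 1 one_pos v (by linarith), f1_sma_zero 2 two_pos v (by linarith), sub_zero]

lemma qa_Thg_zero (φ w : YX → ℝ) (T : ℝ) (M : YX → ℂ) (h : ∀ p, M p ≠ 0 → w p = 0) :
    Thg φ w T M = 0 := by
  have h1 : ∀ y t, Hyg φ w M y t = 0 := by
    intro y t
    unfold Hyg
    have : (fun x : ℝ × ℝ => M (y, x) * ((w (y, x) : ℝ) : ℂ) * ex (t * φ (y, x))) =
        fun _ => 0 := by
      funext x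
      by_cases hM : M (y, x) = 0
      · rw [hM, zero_mul, zero_mul]
      · rw [h _ hM]
        simp
    rw [this, integral_zero]
  unfold Thg
  simp [h1]

theorem boxA : ∃ C2 θ0 δ C : ℝ, 1 ≤ C2 ∧ 0 < θ0 ∧ 0 < δ ∧ δ ≤ 1 / 4 ∧ 0 ≤ C ∧
    ∀ b P g1 g2 η ρ θ T : ℝ, Par b g1 g2 → 1 / 8 ≤ P → P ≤ 8 → 0 < η → 0 < ρ → ρ ≤ δ →
    C2 * η ^ 2 ≤ θ → θ ≤ θ0 →
    1 ≤ T → ∀ yc : ℝ × ℝ, ρ / 2 ≤ |yc.1| → |yc.1| ≤ ρ → θ * ρ / 2 ≤ |lnE g1 g2 yc| →
    |lnE g1 g2 yc| ≤ θ * ρ →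
    ∀ α β : ℝ × ℝ → ℂ, Measurable α → Measurable β → (∀ p, ‖α p‖ ≤ 1) → (∀ p, ‖β p‖ ≤ 1) →
    SX δ α → SX δ β → SY yc.1 (δ * θ * ρ) α → SY yc.2 (δ * θ * ρ) β →
    TE b P g1 g2 η T (pd α β) ≤ ENNReal.ofReal (C * (1 + Real.log T) ^ 4 * θ / (η ^ 2 * T)) := by
  obtain ⟨δ0, hδ0, hδ01, C, hC, H⟩ := coreA'
  set δ := min (δ0 / 2) (1 / 300) with hδ
  have hδp : 0 < δ := by positivity
  have d1 : δ ≤ δ0 / 2 := min_le_left _ _
  have d2 : δ ≤ 1 / 300 := min_le_right _ _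
  refine ⟨1 / δ0, δ0, δ, C, ?_, hδ0, hδp, by linarith, hC, ?_⟩
  · rw [le_div_iff₀ hδ0]
    linarith
  intro b P g1 g2 η ρ θ T hPar hP hP8 hη hρ hρδ hC2 hθ0 hT yc hy1 hy2 hl1 hl2 α β hα hβ hα1 hβ1
    hXα hXβ hYα hYβ
  obtain ⟨b0, b1, ga, gb, gc, gd⟩ := hPar
  have hη2 : 0 < η ^ 2 := by positivity
  have hθ : 0 < θ := lt_of_lt_of_le (by positivity) hC2
  have hT0 : 0 < T := by linarith
  have hg2 : 0 < g2 := by linarith
  by_cases hP5 : P < 1 / 5
  · -- the amplitude vanishes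
    have h0 : TE b P g1 g2 η T (pd α β) = 0 := by
      unfold TE
      refine qa_Thg_zero _ _ _ _ fun p hp => ?_
      unfold pd at hp
      obtain ⟨a1, -⟩ := hXα _ (left_ne_zero_of_mul hp)
      obtain ⟨a2, -⟩ := hXβ _ (right_ne_zero_of_mul hp)
      have h1 : wE b P g1 g2 η p.2 = 0 := by
        unfold wE
        split_ifs with h
        · refine qa_w1_zero _ ?_
          unfold KE
          simp only at a1 a2
          rw [abs_le] at a1 a2
          have h2 : 0 ≤ η ^ 2 * (p.2.1 ^ 2 + b * p.2.2 ^ 2) := by positivity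
          have h3 : g1 * p.2.1 ≤ 4 * δ := by nlinarith
          have h4 : g2 * p.2.2 ≤ 2 * δ := by nlinarith
          nlinarith
        · rfl
      unfold dam
      rw [h1, zero_mul]
    rw [h0]
    exact zero_le
  push Not at hP5
  set r := θ * ρ with hr
  have hr0 : 0 < r := mul_pos hθ hρ
  set κ := η ^ 2 / θ with hκ
  have hκ0 : 0 < κ := by positivity
  have hκθ : κ * θ = η ^ 2 := by
    rw [hκ]
    field_simp
  have hκδ : κ ≤ δ0 := by
    rw [hκ, div_le_iff₀ hθ]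
    have := mul_le_mul_of_nonneg_left hC2 hδ0.le
    rw [← mul_assoc, mul_one_div_cancel hδ0.ne', one_mul] at this
    exact this
  set s := -(yc.1 / (ρ * g2)) with hs
  set p : QP := ((b, g1, g2, P), (s, θ, κ, ρ)) with hp
  set Y := lnE g1 g2 yc / (g2 * r) with hYd
  set y0 : ℝ × ℝ := (yc.1, -(g1 / g2 * yc.1)) with hy0
  have hpK : (p.1, p.2.1) ∈ N1G.KB := by
    rw [mem_KB]
    refine ⟨⟨⟨b0, b1⟩, ⟨ga, gb⟩, ⟨gc, gd⟩, ⟨hP5, hP8⟩⟩, ?_⟩
    have e : |s| = |yc.1| / (ρ * g2) := by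
      rw [hs, abs_neg, abs_div, abs_of_pos (mul_pos hρ hg2)]
    simp only [hp]
    rw [e, le_div_iff₀ (by positivity), div_le_iff₀ (by positivity)]
    constructor
    · nlinarith
    · nlinarith
  have hYA : Y ∈ An (1 / 4) 4 := by
    have e : |Y| = |lnE g1 g2 yc| / (g2 * r) := by
      rw [hYd, abs_div, abs_of_pos (mul_pos hg2 hr0)]
    refine ⟨?_, ?_⟩
    · rw [e, le_div_iff₀ (by positivity)]
      nlinarith
    · rw [e, div_le_iff₀ (by positivity)]
      nlinarith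
  set α' : ℝ × ℝ → ℂ := fun q => α (y0.1 + r * q.1, q.2) with hα'
  set β' : ℝ × ℝ → ℂ := fun q => β (y0.2 + r * q.1, q.2) with hβ'
  have hsα : ∀ q, α' q ≠ 0 → |q.1| ≤ δ ∧ |q.2| ≤ δ ∧ |q.2 - (y0.1 + r * q.1)| ≤ δ := by
    intro q hq
    have h1 := hXα _ hq
    have h2 := hYα _ hq
    simp only at h1 h2
    have h3 : y0.1 + r * q.1 - yc.1 = r * q.1 := by
      rw [hy0]
      ring
    rw [h3, abs_mul, abs_of_pos hr0] at h2
    refine ⟨?_, h1⟩
    have h4 : r * |q.1| ≤ r * δ := by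
      rw [hr]
      rw [hr] at h2
      linarith
    exact le_of_mul_le_mul_left h4 hr0
  have hsβ : ∀ q, β' q ≠ 0 → |q.1 - Y| ≤ δ ∧ |q.2| ≤ δ ∧ |q.2 - (y0.2 + r * q.1)| ≤ δ := by
    intro q hq
    have h1 := hXβ _ hq
    have h2 := hYβ _ hq
    simp only at h1 h2
    have h3 : y0.2 + r * q.1 - yc.2 = r * (q.1 - Y) := by
      rw [hy0, hYd]
      unfold lnE
      field_simp
      ring
    rw [h3, abs_mul, abs_of_pos hr0] at h2
    refine ⟨?_, h1⟩
    have h4 : r * |q.1 - Y| ≤ r * δ := by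
      rw [hr]
      rw [hr] at h2
      linarith
    exact le_of_mul_le_mul_left h4 hr0
  have hyY : ∀ Z : ℝ × ℝ, y0 + r • Z = yY p Z := by
    intro Z
    unfold yY hY
    rw [hy0, hp, hs, hr]
    simp only [Prod.smul_def, smul_eq_mul]
    ext
    · simp only [Prod.fst_add]
      field_simp
    · simp only [Prod.snd_add]
      field_simp
  have hqE : ∀ X, qE b P g1 g2 η X = qA p X := by
    intro X
    unfold qE qA sqp KE Kp
    rw [hp]
    simp only
    rw [hκθ]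
  have hwE : ∀ X : ℝ × ℝ, |X.1| ≤ 1 → |X.2| ≤ 1 → wE b P g1 g2 η X = wA p X := by
    intro X h1 h2
    unfold wE wA w1 wone KE Kp
    rw [if_pos ⟨h1, h2⟩, hp]
    simp only
    rw [hκθ]
  have hTE : TE b P g1 g2 η T (pd α β) =
      ENNReal.ofReal r * Thg (phA p) (amA p) (r * T) (pd α' β') := by
    unfold TE
    rw [Thg_sc _ _ T (pd α β) r hr0 y0]
    have e1 : (fun p : YX => pd α β (y0 + r • p.1, p.2)) = pd α' β' := by
      funext q
      rfl
    rw [e1]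
    congr 1
    refine Thg_congr _ _ _ _ _ _ fun q hq => ?_
    unfold pd at hq
    obtain ⟨a1, a2, a3⟩ := hsα _ (left_ne_zero_of_mul hq)
    obtain ⟨c1, c2, c3⟩ := hsβ _ (right_ne_zero_of_mul hq)
    simp only at a1 a2 a3 c1 c2 c3
    refine ⟨?_, ?_⟩
    · unfold dif phA
      simp only
      rw [hqE, hqE, hyY]
    · unfold dam amA
      simp only
      have e2 : |(q.2 - (y0 + r • q.1)).1| ≤ 1 := by
        have : (q.2 - (y0 + r • q.1)).1 = q.2.1 - (y0.1 + r * q.1.1) := rfl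
        rw [this]
        linarith
      have e3 : |(q.2 - (y0 + r • q.1)).2| ≤ 1 := by
        have : (q.2 - (y0 + r • q.1)).2 = q.2.2 - (y0.2 + r * q.1.2) := rfl
        rw [this]
        linarith
      rw [hwE _ (by linarith) (by linarith), hwE _ e2 e3, hyY]
  have hθ1 : θ ≤ 1 := hθ0.trans hδ01
  have hrT : r * T ≤ T := by
    have : r ≤ 1 := by
      rw [hr]
      nlinarith
    nlinarith
  have mα : Measurable α' := hα.comp (by fun_prop)
  have mβ : Measurable β' := hβ.comp (by fun_prop)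
  have hfin := H p hpK Y hYA hθ hθ0 hκ0 hκδ hρ (by linarith) (r * T) T (by positivity) hrT hT
    α' β' mα mβ (fun q => hα1 _) (fun q => hβ1 _)
    (fun q hq => ⟨(hsα q hq).1.trans d1, (hsα q hq).2.1.trans d1⟩)
    (fun q hq => ⟨(hsβ q hq).1.trans d1, (hsβ q hq).2.1.trans d1⟩)
  rw [hTE]
  calc ENNReal.ofReal r * Thg (phA p) (amA p) (r * T) (pd α' β') ≤
        ENNReal.ofReal r * ENNReal.ofReal (C * (1 + Real.log T) ^ 4 / (κ * (r * T))) := by
        gcongr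
    _ = ENNReal.ofReal (C * (1 + Real.log T) ^ 4 * θ / (η ^ 2 * T)) := by
      rw [← ENNReal.ofReal_mul hr0.le]
      congr 1
      rw [← hκθ]
      field_simp

end Pool.Agent.SDT.N1Q

end -- N1G.QAi
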