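import Pool.Agent.SDT.B47
import Pool.Agent.SDT.B50
import Pool.Agent.SDT.B57
import Pool.Agent.SDT.B61
import Pool.Agent.SDT.B64

set_option autoImplicit false

namespace Pool.Agent.SDT.MP_6cbfb8_an
end Pool.Agent.SDT.MP_6cbfb8_an
namespace Pool.Agent.SDT.MP_6cbfb8_an.DecayAux
end Pool.Agent.SDT.MP_6cbfb8_an.DecayAux
namespace Pool.Agent.SDT.MST
end Pool.Agent.SDT.MST
namespace Pool.Agent.SDT.N1
end Pool.Agent.SDT.N1
namespace Pool.Agent.SDT.N1F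
end Pool.Agent.SDT.N1F
namespace Pool.Agent.SDT.N1G
end Pool.Agent.SDT.N1G

section -- N1F.A6x

/-!
N1F, block A6: the absolute estimate on a box with four sizes.
-/

namespace Pool.Agent.SDT.N1F

open MeasureTheory Set Metric Pool.Agent.SDT.MP_6cbfb8_an Pool.Agent.SDT.MST Pool.Agent.SDT.N1
open scoped ENNReal Real ContDiff

/-- Absolute estimate on a box. -/
theorem a6_abs (c : ℝ) (hc : 0 < c) : ∃ C : ℝ, 0 ≤ C ∧ ∀ T : ℝ, 0 < T → ∀ (M : V × V → ℂ)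
    (e1 e2 d1 d2 f0 : ℝ), Measurable M → (∀ q, ‖M q‖ ≤ 1) → 0 ≤ e1 → 0 ≤ e2 → 0 ≤ d1 → 0 ≤ d2 →
    0 ≤ f0 →
    (∀ q, M q ≠ 0 → Wr c q.1 q.2 ≠ 0 → |q.1.1| ≤ e1 ∧ |q.2.1| ≤ e2 ∧ |q.1.2.2| ≤ d1 ∧
      |q.2.2.2| ≤ d2 ∧ f0 ≤ |Fr c q.1 q.2|) →
    ‖FF c T M‖ ≤ C * T * (e1 * e2 * (d1 * d2)) / (1 + T * f0) ^ 3 := by
  obtain ⟨C, hC, h⟩ := FF_abs c hc
  refine ⟨64 * C, by positivity, ?_⟩
  intro T hT M e1 e2 d1 d2 f0 hM hM1 he1 he2 hd1 hd2 hf0 hs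
  have h1 := h T hT M {q : V × V | |q.1.1| ≤ e1 ∧ |q.2.1| ≤ e2 ∧ |q.1.2.2| ≤ d1 ∧
    |q.2.2.2| ≤ d2 ∧ |q.1.2.1| ≤ 1 ∧ |q.2.2.1| ≤ 1 ∧ f0 ≤ |Fr c q.1 q.2|} f0
    (64 * (e1 * e2 * (d1 * d2))) hM hM1 ?_ (by positivity) ?_ hf0 ?_
  · refine h1.trans (le_of_eq ?_)
    ring
  · intro q hq hW
    obtain ⟨h2, h3, h4, h5, h6⟩ := hs q hq hW
    have h7 : wf c q.1.2.1 q.2.2.1 ≠ 0 := by
      intro h8
      apply hW
      unfold Wr
      rw [h8]
      simp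
    have h8 := m2_wf_ne hc h7
    have h9 : 0 ≤ c ^ 2 / 4 := by positivity
    refine ⟨h2, h3, h4, h5, ?_, ?_, h6⟩
    · rw [← sq_le_one_iff_abs_le_one]
      nlinarith [sq_nonneg q.2.2.1]
    · rw [← sq_le_one_iff_abs_le_one]
      nlinarith [sq_nonneg q.1.2.1]
  · have h2 : {q : V × V | |q.1.1| ≤ e1 ∧ |q.2.1| ≤ e2 ∧ |q.1.2.2| ≤ d1 ∧ |q.2.2.2| ≤ d2 ∧
        |q.1.2.1| ≤ 1 ∧ |q.2.2.1| ≤ 1 ∧ f0 ≤ |Fr c q.1 q.2|} ⊆
        (Icc (-e1) e1 ×ˢ Icc (-1) 1 ×ˢ Icc (-d1) d1) ×ˢ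
          (Icc (-e2) e2 ×ˢ Icc (-1) 1 ×ˢ Icc (-d2) d2) := by
      rintro q ⟨h2, h3, h4, h5, h6, h7, -⟩
      exact ⟨⟨abs_le.1 h2, abs_le.1 h6, abs_le.1 h4⟩, abs_le.1 h3, abs_le.1 h7, abs_le.1 h5⟩
    refine (measure_mono h2).trans (le_of_eq ?_)
    have p1 : 0 ≤ (1 - -1 : ℝ) * (d1 - -d1) := by nlinarith
    have p2 : 0 ≤ (e1 - -e1) * ((1 - -1 : ℝ) * (d1 - -d1)) := mul_nonneg (by linarith) p1
    rw [Measure.volume_eq_prod, Measure.prod_prod, Measure.volume_eq_prod, Measure.prod_prod,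
      Measure.prod_prod, Measure.volume_eq_prod, Measure.prod_prod, Measure.prod_prod,
      Real.volume_Icc, Real.volume_Icc, Real.volume_Icc, Real.volume_Icc, Real.volume_Icc,
      ← ENNReal.ofReal_mul (by norm_num), ← ENNReal.ofReal_mul (by linarith),
      ← ENNReal.ofReal_mul (by norm_num), ← ENNReal.ofReal_mul (by linarith),
      ← ENNReal.ofReal_mul p2]
    congr 1
    ring
  · rintro q ⟨-, -, -, -, -, -, h2⟩
    exact h2

/-- The estimate of a box on which `|F|` is large. -/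
theorem a6_dom (c : ℝ) (hc : 0 < c) (c1 : ℝ) (hc1 : 0 < c1) : ∃ C : ℝ, 0 ≤ C ∧
    ∀ T : ℝ, 0 < T → ∀ (M : V × V → ℂ) (e1 e2 d1 d2 t : ℝ), Measurable M →
    (∀ q, ‖M q‖ ≤ 1) → 0 ≤ e1 → 0 ≤ e2 → 0 ≤ d1 → 0 ≤ d2 → 0 ≤ t →
    e1 * e2 * (d1 * d2) ≤ 16 * t ^ 2 →
    (∀ q, M q ≠ 0 → Wr c q.1 q.2 ≠ 0 → |q.1.1| ≤ e1 ∧ |q.2.1| ≤ e2 ∧ |q.1.2.2| ≤ d1 ∧
      |q.2.2.2| ≤ d2 ∧ c1 * t ≤ |Fr c q.1 q.2|) →
    ‖FF c T M‖ ≤ C / T := by
  obtain ⟨C, hC, h⟩ := a6_abs c hc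
  refine ⟨16 * C / c1 ^ 2, by positivity, ?_⟩
  intro T hT M e1 e2 d1 d2 t hM hM1 he1 he2 hd1 hd2 ht hv hs
  have h1 := h T hT M e1 e2 d1 d2 (c1 * t) hM hM1 he1 he2 hd1 hd2 (by positivity) hs
  refine h1.trans ?_
  set X : ℝ := T * (c1 * t) with hX
  have hX0 : 0 ≤ X := by positivity
  rw [div_le_iff₀ (by positivity)]
  have h3 : X ^ 2 ≤ (1 + X) ^ 3 := by nlinarith [pow_nonneg hX0 3, pow_nonneg hX0 2]
  calc C * T * (e1 * e2 * (d1 * d2)) ≤ C * T * (16 * t ^ 2) := by gcongr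
    _ = 16 * C / c1 ^ 2 / T * X ^ 2 := by
        rw [hX]
        field_simp
    _ ≤ 16 * C / c1 ^ 2 / T * (1 + X) ^ 3 := by gcongr

/-- The estimate of a thin box. -/
theorem a6_low (c : ℝ) (hc : 0 < c) : ∃ C : ℝ, 0 ≤ C ∧
    ∀ T : ℝ, 0 < T → ∀ (M : V × V → ℂ) (e1 e2 d1 d2 : ℝ), Measurable M →
    (∀ q, ‖M q‖ ≤ 1) → 0 ≤ e1 → 0 ≤ e2 → 0 ≤ d1 → 0 ≤ d2 →
    e1 * e2 * (d1 * d2) ≤ 2 / T ^ 2 →
    (∀ q, M q ≠ 0 → Wr c q.1 q.2 ≠ 0 → |q.1.1| ≤ e1 ∧ |q.2.1| ≤ e2 ∧ |q.1.2.2| ≤ d1 ∧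
      |q.2.2.2| ≤ d2) →
    ‖FF c T M‖ ≤ C / T := by
  obtain ⟨C, hC, h⟩ := a6_abs c hc
  refine ⟨2 * C, by positivity, ?_⟩
  intro T hT M e1 e2 d1 d2 hM hM1 he1 he2 hd1 hd2 hv hs
  have h1 := h T hT M e1 e2 d1 d2 0 hM hM1 he1 he2 hd1 hd2 le_rfl (fun q hq hW => by
    obtain ⟨a1, a2, a3, a4⟩ := hs q hq hW
    exact ⟨a1, a2, a3, a4, abs_nonneg _⟩)
  refine h1.trans ?_
  rw [mul_zero, add_zero, one_pow, div_one]
  calc C * T * (e1 * e2 * (d1 * d2)) ≤ C * T * (2 / T ^ 2) := by gcongr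
    _ = 2 * C / T := by
        field_simp

end Pool.Agent.SDT.N1F

end -- N1F.A6x

section -- N1.Y9

/-!
N1, block Y: functions `F(x₁, h(x₂))` of bounded quadratic variation in the second variable, and
their products, are near Schur multipliers.
-/

namespace Pool.Agent.SDT.N1

open MeasureTheory Set Metric Pool.Agent.SDT.MP_6cbfb8_an Pool.Agent.SDT.MST
open scoped ENNReal Real

theorem AT_qv (V : ℝ) (hV : 0 ≤ V) (F : ℝ → ℝ → ℂ) (h : ℝ → ℝ)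
    (hF : Measurable fun q : ℝ × ℝ => F q.1 q.2) (hh : Measurable h) (hb : ∀ a y, ‖F a y‖ ≤ 1)
    (hvar : ∀ a, QVar V (F a)) (N : ℕ) (hN : 1 ≤ N) :
    AT ((4 + 7 * (8 * Real.exp 32 + 1)) * (V + 1) * (1 + Real.log N) ^ 3) N
      fun x => F x.1 (h x.2) := by
  have hN0 : (0:ℝ) < N := by exact_mod_cast hN
  have hN1 : (1:ℝ) ≤ N := by exact_mod_cast hN
  have hlog : 0 ≤ Real.log N := Real.log_nonneg hN1
  set μ : Measure ℝ := (volume.restrict (Icc (-1:ℝ) 1)).map h with hμ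
  have hfin : IsFiniteMeasure μ := by
    rw [hμ]
    infer_instance
  have htot : μ.real univ = 2 := by
    rw [measureReal_def, hμ, Measure.map_apply hh MeasurableSet.univ, preimage_univ,
      Measure.restrict_apply MeasurableSet.univ, univ_inter, Real.volume_Icc]
    norm_num
  obtain ⟨κ, ρ, hκ, hρ, hκN, herr⟩ := qv_part μ N hN
  rw [htot] at herr
  obtain ⟨L, hL⟩ : ∃ L, L = Nat.log 2 (2 * (N ^ 2 + 1)) + 1 := ⟨_, rfl⟩
  have hk : ∀ y, κ y < 2 ^ L := by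
    intro y
    have e1 := Nat.lt_pow_succ_log_self (b := 2) (by norm_num) (2 * (N ^ 2 + 1))
    rw [hL]
    exact (hκN y).trans_lt e1
  have hLN : (L : ℝ) ≤ 6 * (1 + Real.log N) := by
    rw [hL]
    refine (log_size (N ^ 2) (Nat.one_le_pow _ _ hN)).trans ?_
    push_cast
    rw [Real.log_pow]
    push_cast
    linarith
  have mF : ∀ y, Measurable fun a => F a y := fun y =>
    hF.comp (f := fun a : ℝ => (a, y)) (by fun_prop)
  have mF' : ∀ a, Measurable (F a) := fun a => hF.comp (f := fun y : ℝ => (a, y)) (by fun_prop)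
  have mκ : Measurable κ := hκ.measurable
  have hg : ∀ a l, ∑ q ∈ Finset.range (2 ^ L), ‖dya (fun k => F a (ρ k)) l q‖ ^ 2 ≤ V := by
    intro a l
    refine (dya_var (fun k => F a (ρ k)) l (2 ^ L) Nat.one_le_two_pow).trans ?_
    have hu : Monotone fun i : ℕ => ρ (i * 2 ^ l) := fun i j hij =>
      hρ (Nat.mul_le_mul_right _ hij)
    exact hvar a _ hu (2 ^ L)
  obtain ⟨B, hB⟩ : ∃ B : ℝ, B = √((1 + L) * (1 + V)) := ⟨_, rfl⟩
  have hB2 : B ^ 2 = (1 + L) * (1 + V) := by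
    rw [hB, Real.sq_sqrt (by positivity)]
  have hB0 : 0 < B := by
    rw [hB]
    exact Real.sqrt_pos.2 (by positivity)
  have key := AT_schur (κ := Option (Fin L × Fin (2 ^ L)))
    (fun i a => i.elim (F a (ρ 0)) fun i => dya (fun k => F a (ρ k)) i.1 i.2)
    (fun i b => i.elim 1 fun i => if κ (h b) / 2 ^ (i.1 : ℕ) = i.2 then 1 else 0)
    ?_ ?_ B hB0 ?_ ?_ N hN (fun x => F x.1 (h x.2)) (4 * (V + 1)) (by positivity) ?_
  · refine AT_mono ?_ key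
    rw [hB2]
    obtain ⟨t, ht⟩ : ∃ t : ℝ, t = 1 + Real.log N := ⟨_, rfl⟩
    rw [← ht] at hLN ⊢
    have ht1 : 1 ≤ t := by rw [ht]; linarith
    have h1 : (1:ℝ) ≤ t ^ 3 := one_le_pow₀ ht1
    have h2 : 4 * (V + 1) ≤ 4 * (V + 1) * t ^ 3 := le_mul_of_one_le_right (by positivity) h1
    have h3 : (1 + (L:ℝ)) ≤ 7 * t := by linarith
    have h4 : (8 * Real.exp 32 + 1) * ((1 + L) * (1 + V)) * t ^ 2 ≤
        (8 * Real.exp 32 + 1) * ((7 * t) * (1 + V)) * t ^ 2 := by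
      gcongr
    calc 4 * (V + 1) + (8 * Real.exp 32 + 1) * ((1 + L) * (1 + V)) * t ^ 2
        ≤ 4 * (V + 1) * t ^ 3 + (8 * Real.exp 32 + 1) * ((7 * t) * (1 + V)) * t ^ 2 :=
          add_le_add h2 h4
      _ = (4 + 7 * (8 * Real.exp 32 + 1)) * (V + 1) * t ^ 3 := by ring
  · rintro (_ | i)
    · exact mF _
    · show Measurable fun a => dya (fun k => F a (ρ k)) i.1 i.2
      unfold dya
      exact (mF _).sub (mF _)
  · rintro (_ | i)
    · exact measurable_const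
    · show Measurable fun b => if κ (h b) / 2 ^ (i.1 : ℕ) = (i.2 : ℕ) then (1:ℂ) else 0
      refine Measurable.ite ?_ measurable_const measurable_const
      exact ((Measurable.of_discrete (f := fun k : ℕ => k / 2 ^ (i.1 : ℕ))).comp
        (mκ.comp hh)) (measurableSet_singleton _)
  · intro a
    rw [Fintype.sum_option, Fintype.sum_prod_type, hB2]
    simp only [Option.elim]
    have e1 : ‖F a (ρ 0)‖ ^ 2 ≤ 1 := pow_le_one₀ (norm_nonneg _) (hb _ _)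
    have e2 : ∑ l : Fin L, ∑ q : Fin (2 ^ L), ‖dya (fun k => F a (ρ k)) l q‖ ^ 2 ≤
        ∑ _l : Fin L, V := by
      refine Finset.sum_le_sum fun l _ => ?_
      have := hg a l
      rw [Finset.sum_range] at this
      exact this
    rw [Finset.sum_const, Finset.card_univ, Fintype.card_fin, nsmul_eq_mul] at e2
    have e3 : (0:ℝ) ≤ L := Nat.cast_nonneg _
    nlinarith
  · intro b
    rw [Fintype.sum_option, Fintype.sum_prod_type, hB2]
    simp only [Option.elim]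
    have e2 : ∑ l : Fin L, ∑ q : Fin (2 ^ L),
        ‖(if κ (h b) / 2 ^ (l : ℕ) = (q : ℕ) then (1:ℂ) else 0)‖ ^ 2 ≤ ∑ _l : Fin L, (1:ℝ) := by
      refine Finset.sum_le_sum fun l _ => ?_
      have hq : κ (h b) / 2 ^ (l : ℕ) < 2 ^ L := (Nat.div_le_self _ _).trans_lt (hk _)
      have e3 : ∀ q : Fin (2 ^ L), ‖(if κ (h b) / 2 ^ (l : ℕ) = (q : ℕ) then (1:ℂ) else 0)‖ ^ 2 =
          if q = (⟨κ (h b) / 2 ^ (l : ℕ), hq⟩ : Fin (2 ^ L)) then (1:ℝ) else 0 := by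
        intro q
        by_cases hc : κ (h b) / 2 ^ (l : ℕ) = (q : ℕ)
        · rw [if_pos hc, if_pos (Fin.ext hc.symm)]
          simp
        · rw [if_neg hc, if_neg (fun h' => hc (by rw [h']))]
          simp
      simp only [e3]
      rw [Finset.sum_ite_eq']
      simp
    rw [Finset.sum_const, Finset.card_univ, Fintype.card_fin, nsmul_eq_mul, mul_one] at e2
    have e3 : (0:ℝ) ≤ L := Nat.cast_nonneg _
    rw [norm_one, one_pow]
    nlinarith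
  · have hid : ∀ x : ℝ × ℝ, ∑ i : Option (Fin L × Fin (2 ^ L)),
        (i.elim (F x.1 (ρ 0)) fun i => dya (fun k => F x.1 (ρ k)) i.1 i.2) *
        (i.elim 1 fun i => if κ (h x.2) / 2 ^ (i.1 : ℕ) = i.2 then 1 else 0) =
        F x.1 (ρ (κ (h x.2))) := by
      intro x
      rw [Fintype.sum_option, Fintype.sum_prod_type]
      have e1 := dya_sum (fun k => F x.1 (ρ k)) L (κ (h x.2)) (hk _)
      simp only [Option.elim, mul_one]
      refine Eq.trans ?_ e1.symm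
      rw [Finset.sum_range]
      congr 1
      refine Finset.sum_congr rfl fun l _ => ?_
      have hq : κ (h x.2) / 2 ^ (l : ℕ) < 2 ^ L := (Nat.div_le_self _ _).trans_lt (hk _)
      rw [Finset.sum_eq_single (⟨κ (h x.2) / 2 ^ (l : ℕ), hq⟩ : Fin (2 ^ L))]
      · simp
      · intro q _ hne
        rw [if_neg, mul_zero]
        intro h'
        exact hne (Fin.ext h'.symm)
      · intro h'
        exact absurd (Finset.mem_univ _) h'
    calc ∫⁻ x in Icc (-1:ℝ) 1 ×ˢ Icc (-1:ℝ) 1, ‖F x.1 (h x.2) -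
          ∑ i : Option (Fin L × Fin (2 ^ L)),
          (i.elim (F x.1 (ρ 0)) fun i => dya (fun k => F x.1 (ρ k)) i.1 i.2) *
          (i.elim 1 fun i => if κ (h x.2) / 2 ^ (i.1 : ℕ) = i.2 then 1 else 0)‖ₑ
        = ∫⁻ x in Icc (-1:ℝ) 1 ×ˢ Icc (-1:ℝ) 1,
            ‖F x.1 (h x.2) - F x.1 (ρ (κ (h x.2)))‖ₑ := by
          refine lintegral_congr fun x => ?_
          rw [hid]
      _ = ∫⁻ a in Icc (-1:ℝ) 1, ∫⁻ b in Icc (-1:ℝ) 1, ‖F a (h b) - F a (ρ (κ (h b)))‖ₑ := by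
          rw [Measure.volume_eq_prod, ← Measure.prod_restrict, lintegral_prod]
          refine Measurable.aemeasurable ?_
          refine Measurable.enorm (Measurable.sub ?_ ?_)
          · exact hF.comp (f := fun x : ℝ × ℝ => (x.1, h x.2))
              (measurable_fst.prodMk (hh.comp measurable_snd))
          · refine hF.comp (f := fun x : ℝ × ℝ => (x.1, ρ (κ (h x.2)))) ?_
            exact measurable_fst.prodMk
              ((Measurable.of_discrete (f := ρ)).comp (mκ.comp (hh.comp measurable_snd)))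
      _ ≤ ∫⁻ _a in Icc (-1:ℝ) 1, ENNReal.ofReal ((V + 1) * 2 / N) := by
          refine lintegral_mono fun a => ?_
          have e1 : ∫⁻ b in Icc (-1:ℝ) 1, ‖F a (h b) - F a (ρ (κ (h b)))‖ₑ =
              ∫⁻ y, ‖F a y - F a (ρ (κ y))‖ₑ ∂μ := by
            rw [hμ, lintegral_map _ hh]
            refine Measurable.enorm (Measurable.sub (mF' a) ((mF' a).comp ?_))
            exact (Measurable.of_discrete (f := ρ)).comp mκ
          simp only [e1]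
          exact herr V (F a) hV (hvar a)
      _ = ENNReal.ofReal (4 * (V + 1) / N) := by
          rw [setLIntegral_const, Real.volume_Icc, ← ENNReal.ofReal_mul (by positivity)]
          congr 1
          ring

theorem LB_qv (V : ℝ) (hV : 0 ≤ V) : ∃ A : ℝ → ℝ, ∀ (F : ℝ → ℝ → ℂ) (h : ℝ → ℝ),
    (Measurable fun q : ℝ × ℝ => F q.1 q.2) → Measurable h → (∀ a y, ‖F a y‖ ≤ 1) →
    (∀ a, QVar V (F a)) → LB A fun x => F x.1 (h x.2) := by
  have hex : ∀ δ : ℝ, ∃ K : ℝ, 0 < δ → 0 ≤ K ∧ ∀ T : ℝ, 1 ≤ T →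
      (1 + Real.log T) ^ 3 ≤ K * T ^ δ := by
    intro δ
    by_cases h : 0 < δ
    · obtain ⟨K, hK⟩ := log_pow_le2 3 δ h
      exact ⟨K, fun _ => hK⟩
    · exact ⟨0, fun h' => absurd h' h⟩
  choose K hK using hex
  refine ⟨fun δ => (4 + 7 * (8 * Real.exp 32 + 1)) * (V + 1) * K δ, ?_⟩
  intro F h hF hh hb hvar δ hδ N hN
  refine AT_mono ?_ (AT_qv V hV F h hF hh hb hvar N hN)
  rw [mul_assoc _ (K δ)]
  exact mul_le_mul_of_nonneg_left ((hK δ hδ).2 N (by exact_mod_cast hN)) (by positivity)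

/-- Finite products of such functions, in both orders of the variables. -/
theorem LB_prod (V : ℝ) (hV : 0 ≤ V) (k : ℕ) : ∃ A : ℝ → ℝ, ∀ (F F' : Fin k → ℝ → ℝ → ℂ)
    (h h' : Fin k → ℝ → ℝ), (∀ i, Measurable fun q : ℝ × ℝ => F i q.1 q.2) →
    (∀ i, Measurable fun q : ℝ × ℝ => F' i q.1 q.2) → (∀ i, Measurable (h i)) →
    (∀ i, Measurable (h' i)) → (∀ i a y, ‖F i a y‖ ≤ 1) → (∀ i a y, ‖F' i a y‖ ≤ 1) →
    (∀ i a, QVar V (F i a)) → (∀ i a, QVar V (F' i a)) →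
    LB A fun x => ∏ i, (F i x.1 (h i x.2) * F' i x.2 (h' i x.1)) := by
  obtain ⟨A0, H0⟩ := LB_qv V hV
  obtain ⟨A1, H1⟩ := LB_mul A0 A0
  induction k with
  | zero =>
    refine ⟨fun _ => 1, ?_⟩
    intro F F' h h' _ _ _ _ _ _ _ _
    simpa using LB_one
  | succ k ih =>
    obtain ⟨A, H⟩ := ih
    obtain ⟨A', H'⟩ := LB_mul A A1
    refine ⟨A', ?_⟩
    intro F F' h h' m1 m2 m3 m4 b1 b2 v1 v2
    have hm : ∀ i, Measurable fun x : ℝ × ℝ => F i x.1 (h i x.2) := fun i =>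
      (m1 i).comp (f := fun x : ℝ × ℝ => (x.1, h i x.2))
        (measurable_fst.prodMk ((m3 i).comp measurable_snd))
    have hm' : ∀ i, Measurable fun x : ℝ × ℝ => F' i x.2 (h' i x.1) := fun i =>
      (m2 i).comp (f := fun x : ℝ × ℝ => (x.2, h' i x.1))
        (measurable_snd.prodMk ((m4 i).comp measurable_fst))
    have k1 := H (fun i => F (Fin.castSucc i)) (fun i => F' (Fin.castSucc i))
      (fun i => h (Fin.castSucc i)) (fun i => h' (Fin.castSucc i)) (fun i => m1 _) (fun i => m2 _)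
      (fun i => m3 _) (fun i => m4 _) (fun i => b1 _) (fun i => b2 _) (fun i => v1 _)
      (fun i => v2 _)
    have k2 := H0 (F (Fin.last k)) (h (Fin.last k)) (m1 _) (m3 _) (b1 _) (v1 _)
    have k3 := LB_swap _ _ (H0 (F' (Fin.last k)) (h' (Fin.last k)) (m2 _) (m4 _) (b2 _) (v2 _))
    have k4 := H1 _ _ k2 k3 (hm _) (hm' _) (fun x => b1 _ _ _)
    have k5 := H' _ _ k1 k4 (Finset.measurable_prod _ fun i _ => (hm _).mul (hm' _))
      ((hm _).mul (hm' _)) (fun x => by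
        rw [norm_prod]
        refine Finset.prod_le_one (fun _ _ => norm_nonneg _) fun i _ => ?_
        rw [norm_mul]
        exact mul_le_one₀ (b1 _ _ _) (norm_nonneg _) (b2 _ _ _))
    intro δ hδ N hN
    have k6 := k5 δ hδ N hN
    simp only [Fin.prod_univ_castSucc]
    exact k6

end Pool.Agent.SDT.N1

end -- N1.Y9

section -- N1.Y10

/-!
N1, block Y: the theorem for the class of densities.
-/

namespace Pool.Agent.SDT.N1

open MeasureTheory Set Metric Pool.Agent.SDT.MP_6cbfb8_an Pool.Agent.SDT.MST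
open scoped ENNReal Real

theorem Dens_LB (A : ℝ → ℝ) (V : ℝ) (k : ℕ) : ∃ A' : ℝ → ℝ, ∀ G, Dens A V k G → LB A' G := by
  obtain ⟨A1, H1⟩ := NS_LB A
  obtain ⟨A2, H2⟩ := LB_prod (max V 0) (le_max_right _ _) k
  obtain ⟨A3, H3⟩ := LB_mul A1 A2
  refine ⟨A3, ?_⟩
  rintro G ⟨S, F, F', h, h', mS, bS, hS, mF, mF', mh, mh', bF, bF', vF, vF', hG⟩
  have hv : ∀ f : ℝ → ℂ, QVar V f → QVar (max V 0) f := fun f hf u hu n =>
    (hf u hu n).trans (le_max_left _ _)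
  have m1 : Measurable fun x : ℝ × ℝ => ∏ i, (F i x.1 (h i x.2) * F' i x.2 (h' i x.1)) := by
    refine Finset.measurable_prod _ fun i _ => Measurable.mul ?_ ?_
    · exact (mF i).comp (f := fun x : ℝ × ℝ => (x.1, h i x.2))
        (measurable_fst.prodMk ((mh i).comp measurable_snd))
    · exact (mF' i).comp (f := fun x : ℝ × ℝ => (x.2, h' i x.1))
        (measurable_snd.prodMk ((mh' i).comp measurable_fst))
  have k2 := H2 F F' h h' mF mF' mh mh' bF bF' (fun i a => hv _ (vF i a)) (fun i a => hv _ (vF' i a))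
  have k3 := H3 S _ (H1 S hS) k2 mS m1 bS
  have e : G = fun x => S x * ∏ i, (F i x.1 (h i x.2) * F' i x.2 (h' i x.1)) := funext hG
  rw [e]
  exact k3

theorem Dens_norm (A : ℝ → ℝ) (V : ℝ) (k : ℕ) (G : ℝ × ℝ → ℂ) (h : Dens A V k G) (x : ℝ × ℝ) :
    ‖G x‖ ≤ 1 := by
  obtain ⟨S, F, F', h, h', mS, bS, hS, mF, mF', mh, mh', bF, bF', vF, vF', hG⟩ := h
  rw [hG, norm_mul, norm_prod]
  refine mul_le_one₀ (bS x) (Finset.prod_nonneg fun _ _ => norm_nonneg _) ?_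
  refine Finset.prod_le_one (fun _ _ => norm_nonneg _) fun i _ => ?_
  rw [norm_mul]
  exact mul_le_one₀ (bF _ _ _) (norm_nonneg _) (bF' _ _ _)


theorem L4D_of (c : ℝ) (hc : 0 < c) (h : L4H c) : L4D c c 8 := L4_times c hc h

end Pool.Agent.SDT.N1

end -- N1.Y10

section -- N1S.S6

/-!
N1S, part 6: the sum of the strips.
-/

namespace Pool.Agent.SDT.N1S

open MeasureTheory Set Metric Pool.Agent.SDT.MP_6cbfb8_an Pool.Agent.SDT.MST Pool.Agent.SDT.N1 Filter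
open Pool.Agent.SDT.MP_6cbfb8_an.DecayAux
open scoped ENNReal Real Topology

theorem sum_bj (c0 : ℝ) (J : ℕ) (x : ℝ) :
    ∑ j ∈ Finset.range (J + 1), bj c0 j x = hft_b (cj c0 J) x := by
  induction J with
  | zero =>
    rw [zero_add, Finset.sum_range_one, cj_zero]
    rfl
  | succ J ih =>
    rw [Finset.sum_range_succ, ih]
    show hft_b (cj c0 J) x + (hft_b (cj c0 (J + 1)) x - hft_b (cj c0 J) x) = _
    ring

theorem ch_meas {n : ℕ} (ξ : E n) : Measurable fun x : S n => ch (inner ℝ (x : E n) ξ) := by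
  refine continuous_ch.measurable.comp ?_
  exact (measurable_subtype_coe).inner measurable_const

theorem extn_int {n : ℕ} (g : E n → ℂ) (hg : Measurable g) (B : ℝ) (hb : ∀ x, ‖g x‖ ≤ B)
    (ξ : E n) : Integrable (fun x : S n => g x * ch (inner ℝ (x : E n) ξ)) (sm n) := by
  refine (integrable_const B).mono'
    ((hg.comp measurable_subtype_coe).mul (ch_meas ξ)).aestronglyMeasurable
    (Eventually.of_forall fun x => ?_)
  rw [norm_mul, norm_ch, mul_one]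
  exact hb _

/-- The sum of the first strips. -/
noncomputable def SJ (c0 : ℝ) (G : E 2 → ℂ) (n : ℕ) (x : E 3) : ℂ :=
  ∑ j ∈ Finset.range n, Dj c0 j G x

theorem SJ_meas (c0 : ℝ) (G : E 2 → ℂ) (hG : Measurable G) (n : ℕ) : Measurable (SJ c0 G n) := by
  unfold SJ
  exact Finset.measurable_sum _ fun j _ => Dj_meas c0 j G hG

theorem SJ_eq (c0 : ℝ) (G : E 2 → ℂ) (n : ℕ) (x : E 3) : SJ c0 G (n + 1) x =
    if 0 < x (Fin.last 2) then G (fstE (k := 2) (l := 1) x) *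
      ((hft_b (cj c0 n) (x (Fin.last 2)) : ℝ) : ℂ) else 0 := by
  unfold SJ Dj
  split_ifs with h
  · rw [← Finset.mul_sum, ← sum_bj]
    push_cast
    rfl
  · simp

theorem SJ_norm (c0 : ℝ) (G : E 2 → ℂ) (hb : ∀ w, ‖G w‖ ≤ 1) (n : ℕ) (x : E 3) :
    ‖SJ c0 G n x‖ ≤ 1 := by
  cases n with
  | zero =>
    unfold SJ
    simp
  | succ n =>
    rw [SJ_eq]
    split_ifs
    · rw [norm_mul, Complex.norm_real, Real.norm_eq_abs]
      exact mul_le_one₀ (hb _) (abs_nonneg _) (hft_b_abs _ _)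
    · simp

theorem SJ_extn (c0 : ℝ) (hc : 0 < c0) (G : E 2 → ℂ) (hG : Measurable G) (hb : ∀ w, ‖G w‖ ≤ 1)
    (n : ℕ) (ξ : E 3) : extn (SJ c0 G n) ξ = ∑ j ∈ Finset.range n, extn (Dj c0 j G) ξ := by
  simp only [extn_eq]
  unfold SJ
  rw [← integral_finsetSum _ fun j _ => extn_int _ (Dj_meas c0 j G hG) 1 (Dj_norm c0 hc j G hb) ξ]
  refine integral_congr_ae (Eventually.of_forall fun x => ?_)
  simp only
  rw [Finset.sum_mul]

theorem cj_tendsto (c0 : ℝ) : Tendsto (cj c0) atTop (𝓝 0) := by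
  have h1 : Tendsto (fun n : ℕ => c0 * (1 / 2) ^ n) atTop (𝓝 (c0 * 0)) :=
    (tendsto_pow_atTop_nhds_zero_of_lt_one (by norm_num) (by norm_num)).const_mul c0
  rw [mul_zero] at h1
  refine h1.congr fun n => ?_
  unfold cj
  rw [one_div, inv_pow]
  rfl

theorem SJ_tendsto (c0 : ℝ) (hc : 0 < c0) (G : E 2 → ℂ) (x : E 3) :
    Tendsto (fun n => SJ c0 G n x) atTop (𝓝 (up 1 G x)) := by
  rw [← tendsto_add_atTop_iff_nat 1]
  simp only [SJ_eq]
  unfold up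
  by_cases h : 0 < x (Fin.last 2)
  · simp only [h, if_true]
    rw [one_smul]
    refine tendsto_const_nhds.congr' ?_
    have h1 : ∀ᶠ n in atTop, cj c0 n < x (Fin.last 2) := (cj_tendsto c0).eventually_lt_const h
    filter_upwards [h1] with n hn
    rw [hft_b_one (cj_pos hc n) hn.le]
    simp
  · simp only [h, if_false]
    exact tendsto_const_nhds

theorem SJ_extn_tendsto (c0 : ℝ) (hc : 0 < c0) (G : E 2 → ℂ) (hG : Measurable G)
    (hb : ∀ w, ‖G w‖ ≤ 1) (ξ : E 3) :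
    Tendsto (fun n => extn (SJ c0 G n) ξ) atTop (𝓝 (extn (up 1 G) ξ)) := by
  simp only [extn_eq]
  refine tendsto_integral_of_dominated_convergence (fun _ => 1) ?_ (integrable_const 1) ?_ ?_
  · intro n
    exact (((SJ_meas c0 G hG n).comp measurable_subtype_coe).mul (ch_meas ξ)).aestronglyMeasurable
  · intro n
    refine Eventually.of_forall fun x => ?_
    rw [norm_mul, norm_ch, mul_one]
    exact SJ_norm c0 G hb n _
  · refine Eventually.of_forall fun x => ?_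
    exact (SJ_tendsto c0 hc G _).mul_const _

/-- From the geometric bounds for the strips to the half sphere. -/
theorem up_Lp_of (c0 : ℝ) (hc : 0 < c0) (p : ℝ) (hp : 1 ≤ p) (C : ℝ≥0∞) (hC : C ≠ ∞) (r : ℝ)
    (hr : 0 < r) (hr1 : r < 1) : ∃ C' : ℝ≥0∞, C' ≠ ∞ ∧ ∀ G : E 2 → ℂ, Measurable G →
      (∀ w, ‖G w‖ ≤ 1) →
      (∀ j : ℕ, ∫⁻ ξ : E 3, ‖extn (Dj c0 j G) ξ‖ₑ ^ p ≤ C * ENNReal.ofReal (r ^ j)) →
      ∫⁻ ξ : E 3, ‖extn (up 1 G) ξ‖ₑ ^ p ≤ C' := by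
  have hp0 : 0 < p := by linarith
  obtain ⟨q, hq⟩ : ∃ q : ℝ≥0∞, q = ENNReal.ofReal p := ⟨_, rfl⟩
  have hq0 : q ≠ 0 := by
    rw [hq]
    exact (ENNReal.ofReal_pos.2 hp0).ne'
  have hqt : q ≠ ∞ := by
    rw [hq]
    exact ENNReal.ofReal_ne_top
  have hqr : q.toReal = p := by
    rw [hq]
    exact ENNReal.toReal_ofReal hp0.le
  have hq1 : 1 ≤ q := by
    rw [hq]
    exact ENNReal.one_le_ofReal.2 hp
  obtain ⟨s, hs⟩ : ∃ s : ℝ≥0∞, s = ENNReal.ofReal r ^ (1 / p) := ⟨_, rfl⟩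
  have hs1 : s < 1 := by
    rw [hs]
    exact ENNReal.rpow_lt_one (ENNReal.ofReal_lt_one.2 hr1) (by positivity)
  have hnn : ∀ F : E 3 → ℂ, eLpNorm F q volume = (∫⁻ ξ, ‖F ξ‖ₑ ^ p) ^ (1 / p) := by
    intro F
    rw [eLpNorm_eq_lintegral_rpow_enorm_toReal hq0 hqt, hqr]
  refine ⟨(C ^ (1 / p) * (1 - s)⁻¹) ^ p, ?_, ?_⟩
  · refine ENNReal.rpow_ne_top_of_nonneg hp0.le (ENNReal.mul_ne_top
      (ENNReal.rpow_ne_top_of_nonneg (by positivity) hC) ?_)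
    rw [ENNReal.inv_ne_top]
    rw [Ne, tsub_eq_zero_iff_le, not_le]
    exact hs1
  intro G hG hb H
  have h1 : ∀ j : ℕ, eLpNorm (extn (Dj c0 j G)) q volume ≤ C ^ (1 / p) * s ^ j := by
    intro j
    rw [hnn]
    calc (∫⁻ ξ : E 3, ‖extn (Dj c0 j G) ξ‖ₑ ^ p) ^ (1 / p)
        ≤ (C * ENNReal.ofReal (r ^ j)) ^ (1 / p) := ENNReal.rpow_le_rpow (H j) (by positivity)
      _ = C ^ (1 / p) * s ^ j := by
          rw [ENNReal.mul_rpow_of_nonneg _ _ (by positivity), hs, ENNReal.ofReal_pow hr.le]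
          congr 1
          rw [← ENNReal.rpow_natCast, ← ENNReal.rpow_natCast, ← ENNReal.rpow_mul,
            ← ENNReal.rpow_mul, mul_comm]
  have h2 : ∀ n : ℕ, eLpNorm (extn (SJ c0 G n)) q volume ≤ C ^ (1 / p) * (1 - s)⁻¹ := by
    intro n
    have h3 : extn (SJ c0 G n) = ∑ j ∈ Finset.range n, extn (Dj c0 j G) := by
      funext ξ
      rw [SJ_extn c0 hc G hG hb, Finset.sum_apply]
    rw [h3]
    calc eLpNorm (∑ j ∈ Finset.range n, extn (Dj c0 j G)) q volume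
        ≤ ∑ j ∈ Finset.range n, eLpNorm (extn (Dj c0 j G)) q volume :=
          eLpNorm_sum_le (fun j _ =>
            (measurable_extn _ (Dj_meas c0 j G hG)).aestronglyMeasurable) hq1
      _ ≤ ∑ j ∈ Finset.range n, C ^ (1 / p) * s ^ j := Finset.sum_le_sum fun j _ => h1 j
      _ ≤ ∑' j : ℕ, C ^ (1 / p) * s ^ j := ENNReal.sum_le_tsum _
      _ = C ^ (1 / p) * (1 - s)⁻¹ := by rw [ENNReal.tsum_mul_left, ENNReal.tsum_geometric]
  have h4 : eLpNorm (extn (up 1 G)) q volume ≤ C ^ (1 / p) * (1 - s)⁻¹ :=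
    Lp.eLpNorm_le_of_ae_tendsto (u := atTop) (f := fun n => extn (SJ c0 G n))
      (Eventually.of_forall h2)
      (fun n => (measurable_extn _ (SJ_meas c0 G hG n)).aestronglyMeasurable)
      (Eventually.of_forall fun ξ => SJ_extn_tendsto c0 hc G hG hb ξ)
  rw [hnn] at h4
  have h5 := ENNReal.rpow_le_rpow h4 hp0.le
  rwa [← ENNReal.rpow_mul, one_div_mul_cancel hp0.ne', ENNReal.rpow_one] at h5

/-- The half sphere of dimension two. -/
theorem up_Lp (c0 : ℝ) (hc : 0 < c0) (hc1 : c0 ≤ 1) (K : ℕ) (h : L4E c0 K) (A : ℝ → ℝ) (p : ℝ)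
    (hp : 3 < p) (hp4 : p < 4) : ∃ C : ℝ≥0∞, C ≠ ∞ ∧ ∀ G : ℝ × ℝ → ℂ, Measurable G →
      (∀ x, ‖G x‖ ≤ 1) → LB A G → ∫⁻ ξ : E 3, ‖extn (up 1 (pl G)) ξ‖ₑ ^ p ≤ C := by
  obtain ⟨C, r, hC, hr0, hr1, H⟩ := opj_Lp c0 hc hc1 K h A p hp hp4
  obtain ⟨C', hC', H'⟩ := up_Lp_of c0 hc p (by linarith) C hC r hr0 hr1
  refine ⟨C', hC', fun G hG hb hcls => H' (pl G) (pl_meas G hG) (pl_norm G 1 hb) fun j => ?_⟩
  rw [Dj_Lp c0 hc j (pl G) (pl_meas G hG)]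
  exact H j G hG hb hcls

theorem extn_sup {n : ℕ} (g : E n → ℂ) (hb : ∀ x, ‖g x‖ ≤ 1) (ξ : E n) :
    ‖extn g ξ‖ ≤ (sm n).real univ := by
  rw [extn_eq]
  refine (norm_integral_le_of_norm_le_const (C := 1) ?_).trans (by rw [one_mul])
  filter_upwards with x
  rw [norm_mul, norm_ch, mul_one]
  exact hb _

/-- The sphere of dimension two. -/
theorem sph_Lp (c0 : ℝ) (hc : 0 < c0) (hc1 : c0 ≤ 1) (K : ℕ) (h : L4E c0 K) (A : ℝ → ℝ) (p : ℝ)
    (hp : 3 < p) : ∃ C : ℝ≥0∞, C ≠ ∞ ∧ ∀ g : E 2 → ℂ, Measurable g → (∀ w, ‖g w‖ ≤ 1) →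
      (∃ G : ℝ × ℝ → ℂ, Measurable G ∧ (∀ x, ‖G x‖ ≤ 1) ∧ LB A G ∧ g = pl G) →
      ∫⁻ ξ : E 3, ‖extn (fun x : E 3 => g (fstE (k := 2) (l := 1) x)) ξ‖ₑ ^ p ≤ C := by
  have key : ∀ p : ℝ, 3 < p → p < 4 → ∃ C : ℝ≥0∞, C ≠ ∞ ∧ ∀ g : E 2 → ℂ, Measurable g →
      (∀ w, ‖g w‖ ≤ 1) →
      (∃ G : ℝ × ℝ → ℂ, Measurable G ∧ (∀ x, ‖G x‖ ≤ 1) ∧ LB A G ∧ g = pl G) →
      ∫⁻ ξ : E 3, ‖extn (fun x : E 3 => g (fstE (k := 2) (l := 1) x)) ξ‖ₑ ^ p ≤ C := by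
    intro p hp hp4
    obtain ⟨C, hC, H⟩ := up_Lp c0 hc hc1 K h A p hp hp4
    refine ⟨2 ^ (p + 1) * C, ENNReal.mul_ne_top (ENNReal.rpow_ne_top_of_nonneg (by linarith)
      ENNReal.ofNat_ne_top) hC, ?_⟩
    rintro g hg hgb ⟨G, hG, hb, hcls, rfl⟩
    have h3 := dens_le p (by linarith) 1 (pl G) hg hgb
    have h4 : dens 1 (pl G) = fun x : E 3 => pl G (fstE (k := 2) (l := 1) x) := by
      funext x
      unfold dens
      rw [one_smul]
    rw [h4] at h3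
    refine h3.trans ?_
    gcongr
    exact H G hG hb hcls
  rcases lt_or_ge p 4 with hp4 | hp4
  · exact key p hp hp4
  · obtain ⟨C, hC, H⟩ := key (7 / 2) (by norm_num) (by norm_num)
    obtain ⟨B, hB⟩ : ∃ B : ℝ≥0∞, B = ENNReal.ofReal ((sm 3).real univ) := ⟨_, rfl⟩
    have hBt : B ≠ ∞ := by
      rw [hB]
      exact ENNReal.ofReal_ne_top
    have hK : B ^ (p - 7 / 2) ≠ ∞ := ENNReal.rpow_ne_top_of_nonneg (by linarith) hBt
    refine ⟨B ^ (p - 7 / 2) * C, ENNReal.mul_ne_top hK hC, ?_⟩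
    intro g hg hgb hcls
    calc ∫⁻ ξ : E 3, ‖extn (fun x : E 3 => g (fstE (k := 2) (l := 1) x)) ξ‖ₑ ^ p
        ≤ ∫⁻ ξ : E 3, B ^ (p - 7 / 2) *
            ‖extn (fun x : E 3 => g (fstE (k := 2) (l := 1) x)) ξ‖ₑ ^ (7 / 2 : ℝ) := by
          refine lintegral_mono fun ξ => ?_
          have h3 : ‖extn (fun x : E 3 => g (fstE (k := 2) (l := 1) x)) ξ‖ₑ ≤ B := by
            rw [← ofReal_norm, hB]
            exact ENNReal.ofReal_le_ofReal (extn_sup _ (fun x => hgb _) ξ)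
          have h4 : p = (p - 7 / 2) + 7 / 2 := by ring
          show ‖extn (fun x : E 3 => g (fstE (k := 2) (l := 1) x)) ξ‖ₑ ^ p ≤ _
          conv_lhs => rw [h4]
          rw [ENNReal.rpow_add_of_nonneg _ _ (by linarith) (by norm_num)]
          gcongr
          linarith
      _ = B ^ (p - 7 / 2) * ∫⁻ ξ : E 3,
            ‖extn (fun x : E 3 => g (fstE (k := 2) (l := 1) x)) ξ‖ₑ ^ (7 / 2 : ℝ) :=
          lintegral_const_mul' _ _ hK
      _ ≤ B ^ (p - 7 / 2) * C := by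
          gcongr
          exact H g hg hgb hcls

theorem pl_meas2 {W : Type*} [MeasurableSpace W] (l : ℕ) (G : W → ℝ × ℝ → ℂ)
    (hG : Measurable fun q : W × ℝ × ℝ => G q.1 q.2) :
    Measurable fun q : W × E (2 + l) => pl (G q.1) (fstE q.2) := by
  have a1 : Measurable fun q : W × E (2 + l) => (fstE q.2 : E 2) 0 := by
    unfold fstE
    fun_prop
  have a2 : Measurable fun q : W × E (2 + l) => (fstE q.2 : E 2) 1 := by
    unfold fstE
    fun_prop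
  exact hG.comp (measurable_fst.prodMk (a1.prodMk a2))

/-- The theorem for the class of all near Schur multipliers. -/
theorem main_LB (l : ℕ) (hl : 1 ≤ l) (N : ℕ) (c0 p : ℝ) (hc : 0 < c0) (hc1 : c0 ≤ 1)
    (K : ℕ) (h : L4E c0 K) (A : ℝ → ℝ) (hp : 2 * ((l : ℝ) + 2) / (l + 1) < p) :
    ∃ C : ℝ≥0∞, C ≠ ⊤ ∧ ∀ (W : Type) (_ : MeasurableSpace W) (ν : Measure W)
      (_ : IsFiniteMeasure ν) (R : W → (E (2 + l) ≃ₗᵢ[ℝ] E (2 + l))) (η : W → E (2 + l))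
      (G : W → ℝ × ℝ → ℂ) (v : W → Fin N → E (2 + l)) (e : W → Fin N → ℝ),
      (Measurable fun q : W × E (2 + l) => R q.1 q.2) → Measurable η →
      (Measurable fun q : W × ℝ × ℝ => G q.1 q.2) → Measurable v → Measurable e →
      (∀ w x, ‖G w x‖ ≤ 1) → (∀ w, LB A (G w)) →
      ∫⁻ ξ, ‖extn (mix ν R η fun w x =>
        pl (G w) (fstE x) * ∏ i, hsn (e w i) (v w i) x) ξ‖ₑ ^ p ≤ C * ν univ ^ p := by
  obtain ⟨C, hC, H⟩ := transfer (fun g => ∃ G : ℝ × ℝ → ℂ, Measurable G ∧ (∀ x, ‖G x‖ ≤ 1) ∧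
    LB A G ∧ g = pl G) (fun p hp => sph_Lp c0 hc hc1 K h A p hp) l hl N p hp
  refine ⟨C, hC, ?_⟩
  intro W _ ν _ R η G v e hR hη hG hv he hb hcls
  have hp1 : 1 ≤ p := by
    have hl1 : (1:ℝ) ≤ l := by exact_mod_cast hl
    refine le_trans ?_ hp.le
    rw [le_div_iff₀ (by linarith)]
    linarith
  refine lintegral_mix_le hp1 (fun g => ∃ (G : ℝ × ℝ → ℂ) (v' : Fin N → E (2 + l))
    (e' : Fin N → ℝ), Measurable G ∧ (∀ x, ‖G x‖ ≤ 1) ∧ LB A G ∧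
    g = fun x => pl G (fstE x) * ∏ i, hsn (e' i) (v' i) x) ?_ ν R η _ hR hη ?_ ?_ ?_
  · rintro g - - ⟨G', v', e', m1, n1, hc1, rfl⟩
    exact H (pl G') (pl_meas _ m1) (pl_norm _ 1 n1) ⟨G', m1, n1, hc1, rfl⟩ v' e'
  · have k1 := pl_meas2 l G hG
    have k2 : Measurable fun q : W × E (2 + l) => ∏ i, hsn (e q.1 i) (v q.1 i) q.2 := by
      refine Finset.measurable_prod _ fun i _ => ?_
      unfold hsn
      refine Measurable.ite ?_ measurable_const measurable_const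
      have h3 : Measurable fun q : W × E (2 + l) => e q.1 i :=
        (measurable_pi_iff.1 he i).comp measurable_fst
      have h4 : Measurable fun q : W × E (2 + l) => v q.1 i :=
        (measurable_pi_iff.1 hv i).comp measurable_fst
      exact measurableSet_lt h3 (measurable_snd.inner h4)
    exact k1.mul k2
  · intro w x
    rw [norm_mul]
    exact mul_le_one₀ (pl_norm _ 1 (hb w) _) (norm_nonneg _) (norm_prod_hsn_le _ _ _)
  · intro w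
    exact ⟨G w, v w, e w, hG.comp (f := fun z : ℝ × ℝ => (w, z)) (by fun_prop), hb w, hcls w, rfl⟩

/-- The theorem for the class of densities. -/
theorem main_full (l : ℕ) (hl : 1 ≤ l) (N : ℕ) (c0 p : ℝ) (hc : 0 < c0) (hc1 : c0 ≤ 1)
    (K : ℕ) (h : L4E c0 K) (hp : 2 * ((l : ℝ) + 2) / (l + 1) < p) (A : ℝ → ℝ) (V : ℝ) (k : ℕ) :
    ∃ C : ℝ≥0∞, C ≠ ⊤ ∧ ∀ (W : Type) (_ : MeasurableSpace W) (ν : Measure W)
      (_ : IsFiniteMeasure ν) (R : W → (E (2 + l) ≃ₗᵢ[ℝ] E (2 + l))) (η : W → E (2 + l))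
      (G : W → ℝ × ℝ → ℂ) (v : W → Fin N → E (2 + l)) (e : W → Fin N → ℝ),
      (Measurable fun q : W × E (2 + l) => R q.1 q.2) → Measurable η →
      (Measurable fun q : W × ℝ × ℝ => G q.1 q.2) → Measurable v → Measurable e →
      (∀ w, Dens A V k (G w)) →
      ∫⁻ ξ, ‖extn (mix ν R η fun w x =>
        G w ((fstE x : E 2) 0, (fstE x : E 2) 1) * ∏ i, hsn (e w i) (v w i) x) ξ‖ₑ ^ p ≤
        C * ν univ ^ p := by
  obtain ⟨A', HA⟩ := Dens_LB A V k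
  obtain ⟨C, hC, H⟩ := main_LB l hl N c0 p hc hc1 K h A' hp
  refine ⟨C, hC, ?_⟩
  intro W iW ν iν R η G v e hR hη hG hv he hcls
  exact H W iW ν iν R η G v e hR hη hG hv he (fun w x => Dens_norm A V k _ (hcls w) x)
    (fun w => HA _ (hcls w))

end Pool.Agent.SDT.N1S

end -- N1S.S6

section -- N1S.S7

/-!
N1S, part 7: from the estimates for the quarter plane, with a constant growing slowly in the size
of the cut-off near the equator, to the strips.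
-/

namespace Pool.Agent.SDT.N1S

open MeasureTheory Set Metric Pool.Agent.SDT.MP_6cbfb8_an Pool.Agent.SDT.MST Pool.Agent.SDT.N1
open scoped ENNReal Real

/-- Both signs of the coordinates, for one time and one cut-off. -/
theorem signs_of (c T : ℝ) (hc : 0 < c) (R : ℝ≥0∞)
    (H' : ∀ G₁ G₂ : ℝ → ℂ, Measurable G₁ → Measurable G₂ → (∀ a, ‖G₁ a‖ ≤ 1) →
      (∀ b, ‖G₂ b‖ ≤ 1) → (∀ a, G₁ a ≠ 0 → 0 ≤ a) → (∀ b, G₂ b ≠ 0 → 0 ≤ b) →
      S4 c G₁ G₂ T ≤ R) (G₁ G₂ : ℝ → ℂ) (h1 : Measurable G₁) (h2 : Measurable G₂)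
    (b1 : ∀ a, ‖G₁ a‖ ≤ 1) (b2 : ∀ b, ‖G₂ b‖ ≤ 1) : S4 c G₁ G₂ T ≤ 256 * R := by
  set P : (ℝ → ℂ) → ℝ → ℂ := fun G a => if 0 ≤ a then G a else 0 with hP
  set M : (ℝ → ℂ) → ℝ → ℂ := fun G a => if 0 ≤ a then 0 else G a with hM
  have hsum : ∀ (G : ℝ → ℂ) a, G a = P G a + M G a := by
    intro G a
    simp only [hP, hM]
    split_ifs <;> simp
  have mP : ∀ G : ℝ → ℂ, Measurable G → Measurable (P G) := by
    intro G hG
    exact Measurable.ite (measurableSet_Ici : MeasurableSet (Ici (0:ℝ))) hG measurable_const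
  have mM : ∀ G : ℝ → ℂ, Measurable G → Measurable (M G) := by
    intro G hG
    exact Measurable.ite (measurableSet_Ici : MeasurableSet (Ici (0:ℝ))) measurable_const hG
  have nP : ∀ G : ℝ → ℂ, (∀ a, ‖G a‖ ≤ 1) → ∀ a, ‖P G a‖ ≤ 1 := by
    intro G hG a
    simp only [hP]
    split_ifs
    · exact hG a
    · simp
  have nM : ∀ G : ℝ → ℂ, (∀ a, ‖G a‖ ≤ 1) → ∀ a, ‖M G a‖ ≤ 1 := by
    intro G hG a
    simp only [hM]
    split_ifs
    · simp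
    · exact hG a
  have sP : ∀ (G : ℝ → ℂ) a, P G a ≠ 0 → 0 ≤ a := by
    intro G a ha
    simp only [hP] at ha
    split_ifs at ha with h3
    · exact h3
    · exact absurd rfl ha
  have sM : ∀ (G : ℝ → ℂ) a, M G (-a) ≠ 0 → 0 ≤ a := by
    intro G a ha
    simp only [hM] at ha
    split_ifs at ha with h3
    · exact absurd rfl ha
    · linarith
  have mneg : ∀ G : ℝ → ℂ, Measurable G → Measurable (fun a => G (-a)) := by
    intro G hG
    exact hG.comp measurable_neg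
  have e1 : S4 c (P G₁) (P G₂) T ≤ R :=
    H' _ _ (mP _ h1) (mP _ h2) (nP _ b1) (nP _ b2) (sP _) (sP _)
  have e2 : S4 c (M G₁) (P G₂) T ≤ R := by
    rw [← S4_refl1]
    exact H' _ _ (mneg _ (mM _ h1)) (mP _ h2) (fun a => nM _ b1 _) (nP _ b2) (sM _) (sP _)
  have e3 : S4 c (P G₁) (M G₂) T ≤ R := by
    rw [← S4_refl2]
    exact H' _ _ (mP _ h1) (mneg _ (mM _ h2)) (nP _ b1) (fun a => nM _ b2 _) (sP _) (sM _)
  have e4 : S4 c (M G₁) (M G₂) T ≤ R := by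
    rw [← S4_refl2, ← S4_refl1]
    exact H' _ _ (mneg _ (mM _ h1)) (mneg _ (mM _ h2)) (fun a => nM _ b1 _)
      (fun a => nM _ b2 _) (sM _) (sM _)
  have f1 : S4 c G₁ (P G₂) T ≤ 8 * (S4 c (P G₁) (P G₂) T + S4 c (M G₁) (P G₂) T) :=
    S4_add c hc _ _ _ _ _ _ (mP _ h1) (mP _ h2) (mM _ h1) (mP _ h2) (nP _ b1) (nP _ b2) (nM _ b1)
      (nP _ b2) (fun x => by rw [hsum G₁ x.1]; ring) T
  have f2 : S4 c G₁ (M G₂) T ≤ 8 * (S4 c (P G₁) (M G₂) T + S4 c (M G₁) (M G₂) T) :=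
    S4_add c hc _ _ _ _ _ _ (mP _ h1) (mM _ h2) (mM _ h1) (mM _ h2) (nP _ b1) (nM _ b2) (nM _ b1)
      (nM _ b2) (fun x => by rw [hsum G₁ x.1]; ring) T
  have f3 : S4 c G₁ G₂ T ≤ 8 * (S4 c G₁ (P G₂) T + S4 c G₁ (M G₂) T) :=
    S4_add c hc _ _ _ _ _ _ h1 (mP _ h2) h1 (mM _ h2) b1 (nP _ b2) b1
      (nM _ b2) (fun x => by rw [hsum G₂ x.2]; ring) T
  calc S4 c G₁ G₂ T ≤ 8 * (8 * (R + R) + 8 * (R + R)) := by
        refine f3.trans ?_
        gcongr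
        · exact f1.trans (by gcongr)
        · exact f2.trans (by gcongr)
    _ = 256 * R := by ring

/-- Both signs of the coordinates and of the time. -/
theorem D_of (c T : ℝ) (hc : 0 < c) (R : ℝ≥0∞)
    (H' : ∀ G₁ G₂ : ℝ → ℂ, Measurable G₁ → Measurable G₂ → (∀ a, ‖G₁ a‖ ≤ 1) →
      (∀ b, ‖G₂ b‖ ≤ 1) → (∀ a, G₁ a ≠ 0 → 0 ≤ a) → (∀ b, G₂ b ≠ 0 → 0 ≤ b) →
      S4 c G₁ G₂ T ≤ R) (G₁ G₂ : ℝ → ℂ) (h1 : Measurable G₁) (h2 : Measurable G₂)
    (b1 : ∀ a, ‖G₁ a‖ ≤ 1) (b2 : ∀ b, ‖G₂ b‖ ≤ 1) :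
    ∫⁻ t in {t : ℝ | T ≤ |t| ∧ |t| ≤ 2 * T}, ∫⁻ x : E 2,
      ‖op2 (hft_a c) idM t (pw G₁ G₂) x‖ₑ ^ (4:ℝ) ≤ 512 * R := by
  have hsub : {t : ℝ | T ≤ |t| ∧ |t| ≤ 2 * T} ⊆ Icc T (2 * T) ∪ Icc (-(2 * T)) (-T) := by
    intro t ht
    obtain ⟨ht1, ht2⟩ := ht
    rcases le_total 0 t with h0 | h0
    · rw [abs_of_nonneg h0] at ht1 ht2
      exact Or.inl ⟨ht1, ht2⟩
    · rw [abs_of_nonpos h0] at ht1 ht2
      exact Or.inr ⟨by linarith, by linarith⟩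
  have hin : ∀ t : ℝ, ∫⁻ x : E 2, ‖op2 (hft_a c) idM t (pw G₁ G₂) x‖ₑ ^ (4:ℝ) =
      ∫⁻ ξ : ℝ × ℝ, ‖Eo c G₁ G₂ t ξ‖ₑ ^ 4 := by
    intro t
    rw [← lint_pe]
    refine lintegral_congr fun x => ?_
    rw [op2_pw c hc]
    exact_mod_cast ENNReal.rpow_natCast _ 4
  have hcm : ∀ G : ℝ → ℂ, Measurable G → Measurable fun a => (starRingEnd ℂ) (G a) := by
    intro G hG
    exact Complex.continuous_conj.measurable.comp hG
  calc ∫⁻ t in {t : ℝ | T ≤ |t| ∧ |t| ≤ 2 * T}, ∫⁻ x : E 2,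
        ‖op2 (hft_a c) idM t (pw G₁ G₂) x‖ₑ ^ (4:ℝ)
      = ∫⁻ t in {t : ℝ | T ≤ |t| ∧ |t| ≤ 2 * T}, ∫⁻ ξ : ℝ × ℝ, ‖Eo c G₁ G₂ t ξ‖ₑ ^ 4 :=
        lintegral_congr fun t => hin t
    _ ≤ ∫⁻ t in Icc T (2 * T) ∪ Icc (-(2 * T)) (-T), ∫⁻ ξ : ℝ × ℝ, ‖Eo c G₁ G₂ t ξ‖ₑ ^ 4 :=
        lintegral_mono_set hsub
    _ ≤ S4 c G₁ G₂ T + S4 c (fun a => (starRingEnd ℂ) (G₁ a)) (fun b => (starRingEnd ℂ) (G₂ b)) T := by
        refine (lintegral_union_le _ _ _).trans ?_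
        rw [S4_neg]
        exact le_rfl
    _ ≤ 256 * R + 256 * R := by
        refine add_le_add (signs_of c T hc R H' G₁ G₂ h1 h2 b1 b2)
          (signs_of c T hc R H' _ _ (hcm _ h1) (hcm _ h2) ?_ ?_)
        · intro a
          rw [RCLike.norm_conj]
          exact b1 a
        · intro a
          rw [RCLike.norm_conj]
          exact b2 a
    _ = 512 * R := by ring

/-- The dyadic `L⁴` estimates in the quarter plane, with a constant growing slowly in the size of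
the cut-off near the equator. -/
def L4S (K : ℕ) : Prop := ∃ C : ℝ, 0 ≤ C ∧ ∀ c T : ℝ, 0 < c → c ≤ 1 → 1 ≤ T → ∀ G₁ G₂ : ℝ → ℂ,
    Measurable G₁ → Measurable G₂ → (∀ a, ‖G₁ a‖ ≤ 1) → (∀ b, ‖G₂ b‖ ≤ 1) →
    (∀ a, G₁ a ≠ 0 → 0 ≤ a) → (∀ b, G₂ b ≠ 0 → 0 ≤ b) →
    ∫⁻ t in Icc T (2 * T), ∫⁻ ξ : ℝ × ℝ, ‖Eo c G₁ G₂ t ξ‖ₑ ^ 4 ≤
      ENNReal.ofReal (C * (1 + Real.log T + Real.log (1 / c)) ^ K / T)

/-- The amplitude of a strip is a difference. -/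
theorem aj_succ (c0 : ℝ) (j : ℕ) (v : ℝ) :
    aj c0 (j + 1) v = hft_a (cj c0 (j + 1)) v - hft_a (cj c0 j) v := by
  unfold aj hft_a
  rw [← sub_div]
  rfl

theorem opj_succ (c0 : ℝ) (hc : 0 < c0) (j : ℕ) (t : ℝ) (g : E 2 → ℂ) (hg : Measurable g) (B : ℝ)
    (hB : ∀ w, ‖g w‖ ≤ B) (x : E 2) : op2 (aj c0 (j + 1)) idM t g x =
      op2 (hft_a (cj c0 (j + 1))) idM t g x + (-1) * op2 (hft_a (cj c0 j)) idM t g x := by
  unfold op2
  have h1 := op_int2 (cj c0 (j + 1)) (cj_pos hc _) g hg B hB t x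
  have h2 := op_int2 (cj c0 j) (cj_pos hc _) g hg B hB t x
  rw [← integral_const_mul, ← integral_add h1 (h2.const_mul _)]
  refine integral_congr_ae (Filter.Eventually.of_forall fun w => ?_)
  simp only
  unfold amp2
  rw [aj_succ]
  push_cast
  ring

/-- From the quarter plane to the strips. -/
theorem L4E_of (K : ℕ) (h : L4S K) (c0 : ℝ) (hc : 0 < c0) (hc1 : c0 ≤ 1) : L4E c0 K := by
  obtain ⟨C, hC, H⟩ := h
  obtain ⟨M, hM⟩ : ∃ M : ℝ, M = 2 + Real.log (1 / c0) := ⟨_, rfl⟩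
  have hl0 : 0 ≤ Real.log (1 / c0) := Real.log_nonneg (by rw [le_div_iff₀ hc]; linarith)
  have hM0 : 0 ≤ M := by rw [hM]; linarith
  refine ⟨16 * 512 * (C * M ^ K), by positivity, ?_⟩
  intro j T hjT' G₁ G₂ h1 h2 b1 b2
  have h2j : (1:ℝ) ≤ 2 ^ j := one_le_pow₀ one_le_two
  have hTT : 0 ≤ T := by
    by_contra hneg
    push Not at hneg
    nlinarith
  have hjT : 2 ^ j ≤ T := hjT'.trans (by nlinarith)
  have hT : 1 ≤ T := h2j.trans hjT
  have hT0 : 0 < T := by linarith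
  have hlT : 0 ≤ Real.log T := Real.log_nonneg hT
  obtain ⟨R, hR⟩ : ∃ R : ℝ, R = C * M ^ K * (1 + Real.log T) ^ K / T := ⟨_, rfl⟩
  have hR0 : 0 ≤ R := by rw [hR]; positivity
  have key : ∀ i : ℕ, i ≤ j → ∫⁻ t in {t : ℝ | T ≤ |t| ∧ |t| ≤ 2 * T}, ∫⁻ x : E 2,
      ‖op2 (hft_a (cj c0 i)) idM t (pw G₁ G₂) x‖ₑ ^ (4:ℝ) ≤ 512 * ENNReal.ofReal R := by
    intro i hi
    have hci := cj_pos hc i
    have hci1 : cj c0 i ≤ 1 := by
      unfold cj
      rw [div_le_one (by positivity)]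
      exact hc1.trans (one_le_pow₀ one_le_two)
    refine D_of (cj c0 i) T hci (ENNReal.ofReal R) ?_ G₁ G₂ h1 h2 b1 b2
    intro G G' m1 m2 n1 n2 s1 s2
    refine (H (cj c0 i) T hci hci1 hT G G' m1 m2 n1 n2 s1 s2).trans (ENNReal.ofReal_le_ofReal ?_)
    have hlc : Real.log (1 / cj c0 i) ≤ Real.log (1 / c0) + Real.log T := by
      have e1 : 1 / cj c0 i = 1 / c0 * 2 ^ i := by
        unfold cj
        rw [one_div_div]
        ring
      rw [e1, Real.log_mul (by positivity) (by positivity)]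
      have e2 : Real.log (2 ^ i) ≤ Real.log T := by
        apply Real.log_le_log (by positivity)
        exact (pow_le_pow_right₀ one_le_two hi).trans hjT
      linarith
    have hlc0 : 0 ≤ Real.log (1 / cj c0 i) :=
      Real.log_nonneg (by rw [le_div_iff₀ hci]; linarith)
    have hle : 1 + Real.log T + Real.log (1 / cj c0 i) ≤ M * (1 + Real.log T) := by
      rw [hM]
      nlinarith
    rw [hR]
    apply div_le_div_of_nonneg_right _ hT0.le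
    calc C * (1 + Real.log T + Real.log (1 / cj c0 i)) ^ K
        ≤ C * (M * (1 + Real.log T)) ^ K :=
          mul_le_mul_of_nonneg_left (pow_le_pow_left₀ (by linarith) hle K) hC
      _ = C * M ^ K * (1 + Real.log T) ^ K := by rw [mul_pow]; ring
  have hfin : 16 * (512 * ENNReal.ofReal R) =
      ENNReal.ofReal (16 * 512 * (C * M ^ K) * (1 + Real.log T) ^ K / T) := by
    have e1 : (16 : ℝ≥0∞) = ENNReal.ofReal 16 := by norm_num
    have e2 : (512 : ℝ≥0∞) = ENNReal.ofReal 512 := by norm_num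
    rw [e1, e2, ← ENNReal.ofReal_mul (by norm_num), ← ENNReal.ofReal_mul (by norm_num), hR]
    congr 1
    ring
  rw [← hfin]
  cases j with
  | zero =>
    have e0 : aj c0 0 = hft_a (cj c0 0) := by
      funext v
      unfold aj hft_a
      rw [cj_zero]
      rfl
    rw [e0]
    refine (key 0 le_rfl).trans ?_
    calc 512 * ENNReal.ofReal R = 1 * (512 * ENNReal.ofReal R) := (one_mul _).symm
      _ ≤ 16 * (512 * ENNReal.ofReal R) := by
          gcongr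
          norm_num
  | succ j =>
    have mp := pw_meas G₁ G₂ h1 h2
    have np := pw_norm G₁ G₂ b1 b2
    have k1 := key (j + 1) le_rfl
    have k2 := key j (Nat.le_succ j)
    have hm1 := op4_meas (cj c0 (j + 1)) (cj_pos hc _) (pw G₁ G₂) mp
    have hm2 := op4_meas (cj c0 j) (cj_pos hc _) (pw G₁ G₂) mp
    calc ∫⁻ t in {t : ℝ | T ≤ |t| ∧ |t| ≤ 2 * T}, ∫⁻ x : E 2,
          ‖op2 (aj c0 (j + 1)) idM t (pw G₁ G₂) x‖ₑ ^ (4:ℝ)
        ≤ ∫⁻ t in {t : ℝ | T ≤ |t| ∧ |t| ≤ 2 * T}, ∫⁻ x : E 2, 8 *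
            (‖op2 (hft_a (cj c0 (j + 1))) idM t (pw G₁ G₂) x‖ₑ ^ (4:ℝ) +
              ‖op2 (hft_a (cj c0 j)) idM t (pw G₁ G₂) x‖ₑ ^ (4:ℝ)) := by
          refine lintegral_mono fun t => lintegral_mono fun x => ?_
          simp only
          rw [opj_succ c0 hc j t _ mp 1 np]
          refine (enorm_add_four' _ _).trans (le_of_eq ?_)
          rw [enorm_mul]
          simp
      _ = 8 * ((∫⁻ t in {t : ℝ | T ≤ |t| ∧ |t| ≤ 2 * T}, ∫⁻ x : E 2,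
            ‖op2 (hft_a (cj c0 (j + 1))) idM t (pw G₁ G₂) x‖ₑ ^ (4:ℝ)) +
            ∫⁻ t in {t : ℝ | T ≤ |t| ∧ |t| ≤ 2 * T}, ∫⁻ x : E 2,
              ‖op2 (hft_a (cj c0 j)) idM t (pw G₁ G₂) x‖ₑ ^ (4:ℝ)) := by
          have e1 : ∀ t : ℝ, ∫⁻ x : E 2, 8 *
              (‖op2 (hft_a (cj c0 (j + 1))) idM t (pw G₁ G₂) x‖ₑ ^ (4:ℝ) +
                ‖op2 (hft_a (cj c0 j)) idM t (pw G₁ G₂) x‖ₑ ^ (4:ℝ)) =
              8 * ((∫⁻ x : E 2, ‖op2 (hft_a (cj c0 (j + 1))) idM t (pw G₁ G₂) x‖ₑ ^ (4:ℝ)) +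
                ∫⁻ x : E 2, ‖op2 (hft_a (cj c0 j)) idM t (pw G₁ G₂) x‖ₑ ^ (4:ℝ)) := by
            intro t
            have e2 : Measurable fun x : E 2 =>
                ‖op2 (hft_a (cj c0 (j + 1))) idM t (pw G₁ G₂) x‖ₑ ^ (4:ℝ) :=
              hm1.comp (f := fun x : E 2 => (t, x)) (by fun_prop)
            rw [lintegral_const_mul' _ _ (by simp), lintegral_add_left e2]
          simp only [e1]
          rw [lintegral_const_mul' _ _ (by simp), lintegral_add_left hm1.lintegral_prod_right']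
      _ ≤ 8 * (512 * ENNReal.ofReal R + 512 * ENNReal.ofReal R) := by gcongr
      _ = 16 * (512 * ENNReal.ofReal R) := by ring

/-- The theorem for the class of densities on the whole sphere, from the dyadic `L⁴` estimates. -/
theorem main_S (K : ℕ) (h : L4S K) (l : ℕ) (hl : 1 ≤ l) (N : ℕ) (p : ℝ)
    (hp : 2 * ((l : ℝ) + 2) / (l + 1) < p) (A : ℝ → ℝ) (V : ℝ) (k : ℕ) :
    ∃ C : ℝ≥0∞, C ≠ ⊤ ∧ ∀ (W : Type) (_ : MeasurableSpace W) (ν : Measure W)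
      (_ : IsFiniteMeasure ν) (R : W → (E (2 + l) ≃ₗᵢ[ℝ] E (2 + l))) (η : W → E (2 + l))
      (G : W → ℝ × ℝ → ℂ) (v : W → Fin N → E (2 + l)) (e : W → Fin N → ℝ),
      (Measurable fun q : W × E (2 + l) => R q.1 q.2) → Measurable η →
      (Measurable fun q : W × ℝ × ℝ => G q.1 q.2) → Measurable v → Measurable e →
      (∀ w, Dens A V k (G w)) →
      ∫⁻ ξ, ‖extn (mix ν R η fun w x =>
        G w ((fstE x : E 2) 0, (fstE x : E 2) 1) * ∏ i, hsn (e w i) (v w i) x) ξ‖ₑ ^ p ≤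
        C * ν univ ^ p :=
  main_full l hl N 1 p one_pos le_rfl K (L4E_of K h 1 one_pos le_rfl) hp A V k

end Pool.Agent.SDT.N1S

end -- N1S.S7

section -- N1S.S9

/-!
N1S, part 9: the sum of the shells, and the full theorem from one shell.
-/

namespace Pool.Agent.SDT.N1S

open MeasureTheory Set Metric Pool.Agent.SDT.MP_6cbfb8_an Pool.Agent.SDT.MST Pool.Agent.SDT.N1
open scoped ENNReal Real

/-- Restriction to a shell. -/
noncomputable def rs (m : ℕ) (G : ℝ → ℂ) (b : ℝ) : ℂ :=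
  if 1 / 2 ≤ b ∧ (1 / 4) ^ m / 4 ≤ 1 - b ^ 2 ∧ 1 - b ^ 2 < (1 / 4) ^ m then G b else 0

theorem rs_meas (m : ℕ) (G : ℝ → ℂ) (hG : Measurable G) : Measurable (rs m G) := by
  unfold rs
  refine Measurable.ite ?_ hG measurable_const
  have m1 : MeasurableSet {b : ℝ | 1 / 2 ≤ b} := measurableSet_le measurable_const (by fun_prop)
  have m2 : MeasurableSet {b : ℝ | (1 / 4 : ℝ) ^ m / 4 ≤ 1 - b ^ 2} :=
    measurableSet_le measurable_const (by fun_prop)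
  have m3 : MeasurableSet {b : ℝ | 1 - b ^ 2 < (1 / 4 : ℝ) ^ m} :=
    measurableSet_lt (by fun_prop) measurable_const
  exact m1.inter (m2.inter m3)

theorem rs_norm (m : ℕ) (G : ℝ → ℂ) (hb : ∀ b, ‖G b‖ ≤ 1) (b : ℝ) : ‖rs m G b‖ ≤ 1 := by
  unfold rs
  split_ifs
  · exact hb _
  · simp

theorem rs_supp (m : ℕ) (G : ℝ → ℂ) (b : ℝ) (h : rs m G b ≠ 0) :
    1 / 2 ≤ b ∧ (1 / 4) ^ m / 4 ≤ 1 - b ^ 2 ∧ 1 - b ^ 2 < (1 / 4) ^ m := by
  unfold rs at h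
  split_ifs at h with h1
  · exact h1
  · exact absurd rfl h

theorem rs_sum (k : ℕ) (G : ℝ → ℂ) (b : ℝ) (hb : 1 / 2 ≤ b) (hk : (1 / 4) ^ k / 4 < 1 - b ^ 2) :
    ∑ m ∈ Finset.range (k + 1), rs m G b = G b := by
  set P : ℕ → ℂ := fun m => if 1 - b ^ 2 < (1 / 4 : ℝ) ^ m then G b else 0 with hP
  have h1 : ∀ m, rs m G b = P m - P (m + 1) := by
    intro m
    have e1 : (1 / 4 : ℝ) ^ (m + 1) = (1 / 4) ^ m / 4 := by rw [pow_succ]; ring
    have e2 : (0:ℝ) < (1 / 4) ^ m := by positivity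
    simp only [hP, rs, e1]
    by_cases h2 : 1 - b ^ 2 < (1 / 4 : ℝ) ^ m
    · by_cases h3 : 1 - b ^ 2 < (1 / 4 : ℝ) ^ m / 4
      · rw [if_neg (by rintro ⟨-, h4, -⟩; linarith), if_pos h2, if_pos h3, sub_self]
      · rw [if_pos ⟨hb, not_lt.1 h3, h2⟩, if_pos h2, if_neg h3, sub_zero]
    · rw [if_neg (by rintro ⟨-, -, h4⟩; exact h2 h4), if_neg h2, if_neg (by linarith), sub_zero]
  simp only [h1]
  rw [Finset.sum_range_sub']
  have e0 : P 0 = G b := by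
    simp only [hP, pow_zero]
    rw [if_pos]
    nlinarith
  have e1 : P (k + 1) = 0 := by
    have e2 : (1 / 4 : ℝ) ^ (k + 1) = (1 / 4) ^ k / 4 := by rw [pow_succ]; ring
    simp only [hP, e2]
    rw [if_neg]
    linarith
  rw [e0, e1, sub_zero]

theorem c_sq (k : ℕ) : (1 / 2 ^ k : ℝ) ^ 2 = (1 / 4) ^ k := by
  rw [div_pow, div_pow, one_pow, one_pow, ← pow_mul, mul_comm, pow_mul]
  norm_num

/-- The strips for densities supported in `b ≥ 1 / 2`. -/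
theorem SE_b (K : ℕ) (C : ℝ)
    (H : ∀ (i m : ℕ) (T : ℝ), 2 ^ (i + m) ≤ T →
    ∀ G₁ G₂ : ℝ → ℂ, Measurable G₁ → Measurable G₂ → (∀ a, ‖G₁ a‖ ≤ 1) → (∀ b, ‖G₂ b‖ ≤ 1) →
    (∀ a, G₁ a ≠ 0 → 0 ≤ a) →
    (∀ b, G₂ b ≠ 0 → 1 / 2 ≤ b ∧ (1 / 4) ^ m / 4 ≤ 1 - b ^ 2 ∧ 1 - b ^ 2 < (1 / 4) ^ m) →
    ∫⁻ t in Icc T (2 * T), ∫⁻ ξ : ℝ × ℝ,
      ‖Eo (1 / 2 ^ (i + m)) G₁ G₂ t ξ - Eo (2 * (1 / 2 ^ (i + m))) G₁ G₂ t ξ‖ₑ ^ 4 ≤
      ENNReal.ofReal (C * (1 + Real.log T) ^ K / T)) (k : ℕ) (T : ℝ) (hk : 2 ^ k ≤ T)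
    (G₁ G₂ : ℝ → ℂ) (h1 : Measurable G₁) (h2 : Measurable G₂) (b1 : ∀ a, ‖G₁ a‖ ≤ 1)
    (b2 : ∀ b, ‖G₂ b‖ ≤ 1) (s1 : ∀ a, G₁ a ≠ 0 → 0 ≤ a) (s2 : ∀ b, G₂ b ≠ 0 → 1 / 2 ≤ b) :
    SE (1 / 2 ^ k) (pr G₁ G₂) T ≤
      ((k + 1 : ℕ) : ℝ≥0∞) ^ 4 * ENNReal.ofReal (C * (1 + Real.log T) ^ K / T) := by
  have hc : (0:ℝ) < 1 / 2 ^ k := by positivity
  refine SE_sum (1 / 2 ^ k) hc (k + 1) (pr G₁ G₂) (fun m => pr G₁ (rs m G₂))
    (fun m => pr_meas _ _ h1 (rs_meas m _ h2)) (fun m x => pr_norm _ _ b1 (rs_norm m _ b2) x)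
    ?_ T _ ?_
  · intro x hx
    have h3 := (ws_supp _ hc x hx).1
    rw [c_sq] at h3
    unfold pr
    rw [← Finset.mul_sum, Fin.sum_univ_eq_sum_range (fun m => rs m G₂ x.2) (k + 1)]
    by_cases h4 : G₂ x.2 = 0
    · have h5 : ∀ m ∈ Finset.range (k + 1), rs m G₂ x.2 = 0 := by
        intro m _
        unfold rs
        split_ifs
        · exact h4
        · rfl
      rw [Finset.sum_eq_zero h5, h4]
    · rw [rs_sum k G₂ x.2 (s2 _ h4) (by nlinarith [sq_nonneg x.1])]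
  · intro m
    have hm : (m : ℕ) ≤ k := Nat.lt_succ_iff.1 m.2
    have hkm : k - (m : ℕ) + (m : ℕ) = k := Nat.sub_add_cancel hm
    have key := H (k - m) m T (by rw [hkm]; exact hk) G₁ (rs m G₂) h1 (rs_meas m _ h2) b1
      (rs_norm m _ b2) s1 (fun b hb => rs_supp m G₂ b hb)
    rw [hkm] at key
    unfold SE
    refine le_trans (le_of_eq ?_) key
    refine lintegral_congr fun t => lintegral_congr fun ξ => ?_
    rw [EG_eq _ hc _ _ h1 (rs_meas m _ h2) b1 (rs_norm m _ b2)]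

/-- The strips for densities supported in the quarter plane. -/
theorem SE_pos (k : ℕ) (hk3 : 3 ≤ k) (T : ℝ) (R : ℝ≥0∞)
    (H : ∀ G₁ G₂ : ℝ → ℂ, Measurable G₁ → Measurable G₂ → (∀ a, ‖G₁ a‖ ≤ 1) →
      (∀ b, ‖G₂ b‖ ≤ 1) → (∀ a, G₁ a ≠ 0 → 0 ≤ a) → (∀ b, G₂ b ≠ 0 → 1 / 2 ≤ b) →
      SE (1 / 2 ^ k) (pr G₁ G₂) T ≤ R)
    (G₁ G₂ : ℝ → ℂ) (h1 : Measurable G₁) (h2 : Measurable G₂) (b1 : ∀ a, ‖G₁ a‖ ≤ 1)
    (b2 : ∀ b, ‖G₂ b‖ ≤ 1) (s1 : ∀ a, G₁ a ≠ 0 → 0 ≤ a) (s2 : ∀ b, G₂ b ≠ 0 → 0 ≤ b) :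
    SE (1 / 2 ^ k) (pr G₁ G₂) T ≤ 16 * R := by
  have hc : (0:ℝ) < 1 / 2 ^ k := by positivity
  set P : (ℝ → ℂ) → ℝ → ℂ := fun G a => if 1 / 2 ≤ a then G a else 0 with hP
  set M : (ℝ → ℂ) → ℝ → ℂ := fun G a => if 1 / 2 ≤ a then 0 else G a with hM
  have mP : ∀ G : ℝ → ℂ, Measurable G → Measurable (P G) := by
    intro G hG
    exact Measurable.ite (measurableSet_Ici : MeasurableSet (Ici (1 / 2 : ℝ))) hG measurable_const
  have mM : ∀ G : ℝ → ℂ, Measurable G → Measurable (M G) := by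
    intro G hG
    exact Measurable.ite (measurableSet_Ici : MeasurableSet (Ici (1 / 2 : ℝ))) measurable_const hG
  have nP : ∀ G : ℝ → ℂ, (∀ a, ‖G a‖ ≤ 1) → ∀ a, ‖P G a‖ ≤ 1 := by
    intro G hG a
    simp only [hP]
    split_ifs
    · exact hG a
    · simp
  have nM : ∀ G : ℝ → ℂ, (∀ a, ‖G a‖ ≤ 1) → ∀ a, ‖M G a‖ ≤ 1 := by
    intro G hG a
    simp only [hM]
    split_ifs
    · simp
    · exact hG a
  have sP : ∀ (G : ℝ → ℂ) a, P G a ≠ 0 → 1 / 2 ≤ a := by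
    intro G a ha
    simp only [hP] at ha
    split_ifs at ha with h3
    · exact h3
    · exact absurd rfl ha
  refine SE_add (1 / 2 ^ k) hc (pr G₁ G₂) (pr G₁ (P G₂)) (pr (P G₁) (M G₂))
    (pr_meas _ _ h1 (mP _ h2)) (pr_meas _ _ (mP _ h1) (mM _ h2)) (pr_norm _ _ b1 (nP _ b2))
    (pr_norm _ _ (nP _ b1) (nM _ b2)) ?_ T R
    (H G₁ (P G₂) h1 (mP _ h2) b1 (nP _ b2) s1 (sP _)) ?_
  · intro x hx
    have h3 := (ws_supp _ hc x hx).2
    rw [c_sq] at h3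
    have h4 : (1 / 4 : ℝ) ^ k ≤ (1 / 4) ^ 3 :=
      pow_le_pow_of_le_one (by norm_num) (by norm_num) hk3
    have h5 : 15 / 16 < x.1 ^ 2 + x.2 ^ 2 := by
      norm_num at h4
      linarith
    unfold pr
    simp only [hP, hM]
    by_cases h6 : 1 / 2 ≤ x.2
    · rw [if_pos h6, if_pos h6, mul_zero, add_zero]
    · rw [if_neg h6, if_neg h6, mul_zero, zero_add]
      push Not at h6
      by_cases h7 : G₁ x.1 = 0
      · rw [h7]
        split_ifs <;> simp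
      · by_cases h8 : G₂ x.2 = 0
        · rw [h8]
          simp
        · have h9 := s1 _ h7
          have h10 := s2 _ h8
          rw [if_pos]
          nlinarith
  · have h3 : SE (1 / 2 ^ k) (pr (P G₁) (M G₂)) T = SE (1 / 2 ^ k) (pr (M G₂) (P G₁)) T := by
      rw [← SE_swap]
      congr 1
      funext x
      unfold pr
      ring
    rw [h3]
    refine H (M G₂) (P G₁) (mM _ h2) (mP _ h1) (nM _ b2) (nP _ b1) ?_ (sP _)
    intro a ha
    simp only [hM] at ha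
    split_ifs at ha with h4
    · exact absurd rfl ha
    · exact s2 a ha

/-- Both signs. -/
theorem SE_signs (c : ℝ) (hc : 0 < c) (T : ℝ) (R : ℝ≥0∞)
    (H : ∀ G₁ G₂ : ℝ → ℂ, Measurable G₁ → Measurable G₂ → (∀ a, ‖G₁ a‖ ≤ 1) →
      (∀ b, ‖G₂ b‖ ≤ 1) → (∀ a, G₁ a ≠ 0 → 0 ≤ a) → (∀ b, G₂ b ≠ 0 → 0 ≤ b) →
      SE c (pr G₁ G₂) T ≤ R)
    (G₁ G₂ : ℝ → ℂ) (h1 : Measurable G₁) (h2 : Measurable G₂) (b1 : ∀ a, ‖G₁ a‖ ≤ 1)
    (b2 : ∀ b, ‖G₂ b‖ ≤ 1) : SE c (pr G₁ G₂) T ≤ 256 * R := by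
  set P : (ℝ → ℂ) → ℝ → ℂ := fun G a => if 0 ≤ a then G a else 0 with hP
  set M : (ℝ → ℂ) → ℝ → ℂ := fun G a => if 0 ≤ a then 0 else G a with hM
  have hsum : ∀ (G : ℝ → ℂ) a, G a = P G a + M G a := by
    intro G a
    simp only [hP, hM]
    split_ifs <;> simp
  have mP : ∀ G : ℝ → ℂ, Measurable G → Measurable (P G) := by
    intro G hG
    exact Measurable.ite (measurableSet_Ici : MeasurableSet (Ici (0:ℝ))) hG measurable_const
  have mM : ∀ G : ℝ → ℂ, Measurable G → Measurable (M G) := by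
    intro G hG
    exact Measurable.ite (measurableSet_Ici : MeasurableSet (Ici (0:ℝ))) measurable_const hG
  have nP : ∀ G : ℝ → ℂ, (∀ a, ‖G a‖ ≤ 1) → ∀ a, ‖P G a‖ ≤ 1 := by
    intro G hG a
    simp only [hP]
    split_ifs
    · exact hG a
    · simp
  have nM : ∀ G : ℝ → ℂ, (∀ a, ‖G a‖ ≤ 1) → ∀ a, ‖M G a‖ ≤ 1 := by
    intro G hG a
    simp only [hM]
    split_ifs
    · simp
    · exact hG a
  have sP : ∀ (G : ℝ → ℂ) a, P G a ≠ 0 → 0 ≤ a := by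
    intro G a ha
    simp only [hP] at ha
    split_ifs at ha with h3
    · exact h3
    · exact absurd rfl ha
  have sM : ∀ (G : ℝ → ℂ) a, M G (-a) ≠ 0 → 0 ≤ a := by
    intro G a ha
    simp only [hM] at ha
    split_ifs at ha with h3
    · exact absurd rfl ha
    · linarith
  have mneg : ∀ G : ℝ → ℂ, Measurable G → Measurable (fun a => G (-a)) := by
    intro G hG
    exact hG.comp measurable_neg
  have e1 : SE c (pr (P G₁) (P G₂)) T ≤ R :=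
    H _ _ (mP _ h1) (mP _ h2) (nP _ b1) (nP _ b2) (sP _) (sP _)
  have e2 : SE c (pr (M G₁) (P G₂)) T ≤ R := by
    rw [← SE_refl1]
    exact H (fun a => M G₁ (-a)) _ (mneg _ (mM _ h1)) (mP _ h2) (fun a => nM _ b1 _) (nP _ b2)
      (sM _) (sP _)
  have e3 : SE c (pr (P G₁) (M G₂)) T ≤ R := by
    rw [← SE_refl2]
    exact H _ (fun a => M G₂ (-a)) (mP _ h1) (mneg _ (mM _ h2)) (nP _ b1) (fun a => nM _ b2 _)
      (sP _) (sM _)
  have e4 : SE c (pr (M G₁) (M G₂)) T ≤ R := by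
    rw [← SE_refl2, ← SE_refl1]
    exact H (fun a => M G₁ (-a)) (fun a => M G₂ (-a)) (mneg _ (mM _ h1)) (mneg _ (mM _ h2))
      (fun a => nM _ b1 _) (fun a => nM _ b2 _) (sM _) (sM _)
  have key := SE_sum c hc 4 (pr G₁ G₂) ![pr (P G₁) (P G₂), pr (M G₁) (P G₂), pr (P G₁) (M G₂),
    pr (M G₁) (M G₂)] (by
      intro i
      fin_cases i
      · exact pr_meas _ _ (mP _ h1) (mP _ h2)
      · exact pr_meas _ _ (mM _ h1) (mP _ h2)
      · exact pr_meas _ _ (mP _ h1) (mM _ h2)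
      · exact pr_meas _ _ (mM _ h1) (mM _ h2)) (by
      intro i x
      fin_cases i
      · exact pr_norm _ _ (nP _ b1) (nP _ b2) x
      · exact pr_norm _ _ (nM _ b1) (nP _ b2) x
      · exact pr_norm _ _ (nP _ b1) (nM _ b2) x
      · exact pr_norm _ _ (nM _ b1) (nM _ b2) x) (by
      intro x _
      rw [Fin.sum_univ_four]
      show pr G₁ G₂ x = pr (P G₁) (P G₂) x + pr (M G₁) (P G₂) x + pr (P G₁) (M G₂) x +
        pr (M G₁) (M G₂) x
      unfold pr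
      rw [hsum G₁ x.1, hsum G₂ x.2]
      ring) T R (by
      intro i
      fin_cases i
      · exact e1
      · exact e2
      · exact e3
      · exact e4)
  refine key.trans (le_of_eq ?_)
  norm_num

/-- Both signs of the time; the operator in the chart. -/
theorem SE_D (c0 : ℝ) (hc : 0 < c0) (j : ℕ) (T : ℝ) (R : ℝ≥0∞)
    (H : ∀ G₁ G₂ : ℝ → ℂ, Measurable G₁ → Measurable G₂ → (∀ a, ‖G₁ a‖ ≤ 1) →
      (∀ b, ‖G₂ b‖ ≤ 1) → SE (cj c0 (j + 1)) (pr G₁ G₂) T ≤ R)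
    (G₁ G₂ : ℝ → ℂ) (h1 : Measurable G₁) (h2 : Measurable G₂) (b1 : ∀ a, ‖G₁ a‖ ≤ 1)
    (b2 : ∀ b, ‖G₂ b‖ ≤ 1) :
    ∫⁻ t in {t : ℝ | T ≤ |t| ∧ |t| ≤ 2 * T}, ∫⁻ x : E 2,
      ‖op2 (aj c0 (j + 1)) idM t (pw G₁ G₂) x‖ₑ ^ (4:ℝ) ≤ 2 * R := by
  obtain ⟨c, hcc⟩ : ∃ c, c = cj c0 (j + 1) := ⟨_, rfl⟩
  rw [← hcc] at H
  have hc1 : 0 < c := by rw [hcc]; exact cj_pos hc _
  have hsub : {t : ℝ | T ≤ |t| ∧ |t| ≤ 2 * T} ⊆ Icc T (2 * T) ∪ Icc (-(2 * T)) (-T) := by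
    intro t ht
    obtain ⟨ht1, ht2⟩ := ht
    rcases le_total 0 t with h0 | h0
    · rw [abs_of_nonneg h0] at ht1 ht2
      exact Or.inl ⟨ht1, ht2⟩
    · rw [abs_of_nonpos h0] at ht1 ht2
      exact Or.inr ⟨by linarith, by linarith⟩
  have hop : ∀ (t : ℝ) (x : E 2), op2 (aj c0 (j + 1)) idM t (pw G₁ G₂) x =
      EG c (pr G₁ G₂) t (x 0, x 1) := by
    intro t x
    rw [opj_succ c0 hc j t _ (pw_meas G₁ G₂ h1 h2) 1 (pw_norm G₁ G₂ b1 b2),
      op2_pw _ (cj_pos hc _), op2_pw _ (cj_pos hc _), cj_succ c0 j, ← hcc,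
      ← EG_eq c hc1 G₁ G₂ h1 h2 b1 b2]
    ring
  have hin : ∀ t : ℝ, ∫⁻ x : E 2, ‖op2 (aj c0 (j + 1)) idM t (pw G₁ G₂) x‖ₑ ^ (4:ℝ) =
      ∫⁻ ξ : ℝ × ℝ, ‖EG c (pr G₁ G₂) t ξ‖ₑ ^ 4 := by
    intro t
    rw [← lint_pe]
    refine lintegral_congr fun x => ?_
    rw [hop]
    exact_mod_cast ENNReal.rpow_natCast _ 4
  have hcm : ∀ G : ℝ → ℂ, Measurable G → Measurable fun a => (starRingEnd ℂ) (G a) := by
    intro G hG
    exact Complex.continuous_conj.measurable.comp hG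
  have hconj : (fun x : ℝ × ℝ => (starRingEnd ℂ) (pr G₁ G₂ x)) =
      pr (fun a => (starRingEnd ℂ) (G₁ a)) (fun b => (starRingEnd ℂ) (G₂ b)) := by
    funext x
    unfold pr
    rw [map_mul]
  calc ∫⁻ t in {t : ℝ | T ≤ |t| ∧ |t| ≤ 2 * T}, ∫⁻ x : E 2,
        ‖op2 (aj c0 (j + 1)) idM t (pw G₁ G₂) x‖ₑ ^ (4:ℝ)
      = ∫⁻ t in {t : ℝ | T ≤ |t| ∧ |t| ≤ 2 * T}, ∫⁻ ξ : ℝ × ℝ, ‖EG c (pr G₁ G₂) t ξ‖ₑ ^ 4 :=
        lintegral_congr fun t => hin t
    _ ≤ ∫⁻ t in Icc T (2 * T) ∪ Icc (-(2 * T)) (-T),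
          ∫⁻ ξ : ℝ × ℝ, ‖EG c (pr G₁ G₂) t ξ‖ₑ ^ 4 :=
        lintegral_mono_set hsub
    _ ≤ SE c (pr G₁ G₂) T + SE c (pr (fun a => (starRingEnd ℂ) (G₁ a))
          (fun b => (starRingEnd ℂ) (G₂ b))) T := by
        refine (lintegral_union_le _ _ _).trans ?_
        rw [SE_neg, hconj]
        exact le_rfl
    _ ≤ R + R := by
        refine add_le_add (H G₁ G₂ h1 h2 b1 b2) (H _ _ (hcm _ h1) (hcm _ h2) ?_ ?_)
        · intro a
          rw [RCLike.norm_conj]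
          exact b1 a
        · intro a
          rw [RCLike.norm_conj]
          exact b2 a
    _ = 2 * R := (two_mul R).symm

/-- From one shell, and from the theorem away from the equator, to all strips. -/
theorem L4E_shell (K : ℕ) (h : OneShell K) (k0 : ℕ) (h0 : L4K 0 (1 / 8) k0) :
    L4E (1 / 8) (K + 4 + k0) := by
  obtain ⟨C, hC, H⟩ := h
  obtain ⟨C0, hC0, H0⟩ := L4K_D 0 (1 / 8) (by norm_num) k0 h0
  refine ⟨C0 + 131072 * C, by positivity, ?_⟩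
  intro j T hjT G₁ G₂ h1 h2 b1 b2
  have h2j : (1:ℝ) ≤ 2 ^ j := one_le_pow₀ one_le_two
  have hT : 1 ≤ T := by linarith
  have hT0 : 0 < T := by linarith
  obtain ⟨u, hu⟩ : ∃ u, u = 1 + Real.log T := ⟨_, rfl⟩
  have hu1 : 1 ≤ u := by rw [hu]; linarith [Real.log_nonneg hT]
  rw [← hu]
  cases j with
  | zero =>
    have e0 : aj (1 / 8) 0 = hft_a (1 / 8) := by
      funext v
      unfold aj hft_a
      rfl
    rw [e0]
    refine (H0 T hT G₁ G₂ h1 h2 b1 b2 (fun a _ => abs_nonneg a) (fun a _ => abs_nonneg a)).trans ?_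
    rw [← hu]
    apply ENNReal.ofReal_le_ofReal
    apply div_le_div_of_nonneg_right _ hT0.le
    have e1 : u ^ k0 ≤ u ^ (K + 4 + k0) := pow_le_pow_right₀ hu1 (by omega)
    calc C0 * u ^ k0 ≤ C0 * u ^ (K + 4 + k0) := mul_le_mul_of_nonneg_left e1 hC0
      _ ≤ (C0 + 131072 * C) * u ^ (K + 4 + k0) := by
          apply mul_le_mul_of_nonneg_right _ (by positivity)
          linarith
  | succ j =>
    obtain ⟨k, hk⟩ : ∃ k, k = j + 4 := ⟨_, rfl⟩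
    have hck : cj (1 / 8) (j + 1) = 1 / 2 ^ k := by
      unfold cj
      rw [hk, pow_add, pow_add]
      norm_num
      ring
    have hkT : 2 ^ k ≤ T := by
      rw [hk, pow_add]
      rw [pow_add] at hjT
      norm_num at hjT ⊢
      linarith
    have hku : ((k + 1 : ℕ) : ℝ) ≤ 2 * u := by
      have e1 : (k : ℝ) * Real.log 2 ≤ Real.log T := by
        rw [← Real.log_pow]
        exact Real.log_le_log (by positivity) hkT
      have e2 : (1:ℝ) / 2 ≤ Real.log 2 := by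
        have := Real.log_two_gt_d9
        linarith
      have e3 : (k : ℝ) * (1 / 2) ≤ (k : ℝ) * Real.log 2 :=
        mul_le_mul_of_nonneg_left e2 (Nat.cast_nonneg k)
      push_cast
      rw [hu]
      linarith
    have key := SE_D (1 / 8) (by norm_num) j T
      (256 * (16 * (((k + 1 : ℕ) : ℝ≥0∞) ^ 4 * ENNReal.ofReal (C * u ^ K / T)))) (by
        rw [hck]
        intro G G' m1 m2 n1 n2
        refine SE_signs (1 / 2 ^ k) (by positivity) T _ ?_ G G' m1 m2 n1 n2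
        refine SE_pos k (by omega) T _ ?_
        intro F F' p1 p2 q1 q2 s1 s2
        rw [hu]
        exact SE_b K C H k T hkT F F' p1 p2 q1 q2 s1 s2) G₁ G₂ h1 h2 b1 b2
    refine key.trans ?_
    have e1 : ((k + 1 : ℕ) : ℝ≥0∞) ^ 4 ≤ ENNReal.ofReal (16 * u ^ 4) := by
      rw [← ENNReal.ofReal_natCast, ← ENNReal.ofReal_pow (Nat.cast_nonneg _)]
      apply ENNReal.ofReal_le_ofReal
      calc ((k + 1 : ℕ) : ℝ) ^ 4 ≤ (2 * u) ^ 4 := pow_le_pow_left₀ (Nat.cast_nonneg _) hku 4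
        _ = 16 * u ^ 4 := by ring
    calc 2 * (256 * (16 * (((k + 1 : ℕ) : ℝ≥0∞) ^ 4 * ENNReal.ofReal (C * u ^ K / T))))
        ≤ 2 * (256 * (16 * (ENNReal.ofReal (16 * u ^ 4) * ENNReal.ofReal (C * u ^ K / T)))) := by
          gcongr
      _ = ENNReal.ofReal (131072 * C * u ^ (K + 4) / T) := by
          have f1 : (2 : ℝ≥0∞) = ENNReal.ofReal 2 := by norm_num
          have f2 : (256 : ℝ≥0∞) = ENNReal.ofReal 256 := by norm_num
          have f3 : (16 : ℝ≥0∞) = ENNReal.ofReal 16 := by norm_num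
          rw [f1, f2, f3, ← ENNReal.ofReal_mul (by positivity), ← ENNReal.ofReal_mul (by norm_num),
            ← ENNReal.ofReal_mul (by norm_num), ← ENNReal.ofReal_mul (by norm_num)]
          congr 1
          rw [pow_add]
          ring
      _ ≤ ENNReal.ofReal ((C0 + 131072 * C) * u ^ (K + 4 + k0) / T) := by
          apply ENNReal.ofReal_le_ofReal
          apply div_le_div_of_nonneg_right _ hT0.le
          have e2 : u ^ (K + 4) ≤ u ^ (K + 4 + k0) := pow_le_pow_right₀ hu1 (by omega)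
          calc 131072 * C * u ^ (K + 4) ≤ 131072 * C * u ^ (K + 4 + k0) :=
                mul_le_mul_of_nonneg_left e2 (by positivity)
            _ ≤ (C0 + 131072 * C) * u ^ (K + 4 + k0) := by
                apply mul_le_mul_of_nonneg_right _ (by positivity)
                linarith

/-- The theorem for the class of densities on the whole sphere, from one shell. -/
theorem main_shell (K : ℕ) (h : OneShell K) (k0 : ℕ) (h0 : L4K 0 (1 / 8) k0) (l : ℕ)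
    (hl : 1 ≤ l) (N : ℕ) (p : ℝ)
    (hp : 2 * ((l : ℝ) + 2) / (l + 1) < p) (A : ℝ → ℝ) (V : ℝ) (k : ℕ) :
    ∃ C : ℝ≥0∞, C ≠ ⊤ ∧ ∀ (W : Type) (_ : MeasurableSpace W) (ν : Measure W)
      (_ : IsFiniteMeasure ν) (R : W → (E (2 + l) ≃ₗᵢ[ℝ] E (2 + l))) (η : W → E (2 + l))
      (G : W → ℝ × ℝ → ℂ) (v : W → Fin N → E (2 + l)) (e : W → Fin N → ℝ),
      (Measurable fun q : W × E (2 + l) => R q.1 q.2) → Measurable η →
      (Measurable fun q : W × ℝ × ℝ => G q.1 q.2) → Measurable v → Measurable e →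
      (∀ w, Dens A V k (G w)) →
      ∫⁻ ξ, ‖extn (mix ν R η fun w x =>
        G w ((fstE x : E 2) 0, (fstE x : E 2) 1) * ∏ i, hsn (e w i) (v w i) x) ξ‖ₑ ^ p ≤
        C * ν univ ^ p :=
  main_full l hl N (1 / 8) p (by norm_num) (by norm_num) (K + 4 + k0)
    (L4E_shell K h k0 h0) hp A V k

end Pool.Agent.SDT.N1S

end -- N1S.S9

section -- N1M.TH1

/-!
N1M, block M5, part 1: admissibility, small times, scaling.
-/

namespace Pool.Agent.SDT.N1M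

open MeasureTheory Set Metric Pool.Agent.SDT.MP_6cbfb8_an Pool.Agent.SDT.MST Pool.Agent.SDT.N1
open Pool.Agent.SDT.N1F Pool.Agent.SDT.N1G
open scoped ENNReal Real ContDiff

/-! ### The point phase and the point amplitude -/

theorem th_meas_hm (m : ℝ) : Measurable fun x : ℝ × ℝ => hm m x.2 - x.1 ^ 2 := by
  unfold hm
  fun_prop

theorem th_qm_meas (c m : ℝ) : Measurable (qm c m) := by
  unfold qm Sq
  have h1 : Continuous fun v : ℝ => Real.smoothTransition ((16 * v - c ^ 2) / c ^ 2) :=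
    Real.smoothTransition.continuous.comp (by fun_prop)
  exact (Real.continuous_sqrt.mul h1).measurable.comp (th_meas_hm m)

theorem th_wm_meas (c m : ℝ) (hc : 0 < c) : Measurable (wm c m) := by
  unfold wm
  refine Measurable.ite ?_ ((f1_sma_cont c hc).measurable.comp (th_meas_hm m)) measurable_const
  have h1 : MeasurableSet {x : ℝ × ℝ | 0 ≤ x.2} := measurableSet_le measurable_const measurable_snd
  have h2 : MeasurableSet {x : ℝ × ℝ | x.2 ≤ 8} := measurableSet_le measurable_snd measurable_const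
  exact h1.inter h2

theorem th_wm_le (c m : ℝ) (hc : 0 < c) (x : ℝ × ℝ) : |wm c m x| ≤ 2 / c := by
  unfold wm
  split_ifs
  · exact f1_sma_le c hc _
  · rw [abs_zero]
    positivity

theorem th_wm_supp (c m : ℝ) (hc : 0 < c) (hm0 : 0 ≤ m) (x : ℝ × ℝ) (h : wm c m x ≠ 0) :
    ‖x‖ ≤ 8 := by
  unfold wm at h
  split_ifs at h with h1
  · obtain ⟨h2, h3⟩ := h1
    have h4 : c ^ 2 / 4 < hm m x.2 - x.1 ^ 2 := by
      by_contra h5
      push Not at h5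
      exact h (f1_sma_zero c hc _ h5)
    unfold hm at h4
    have h5 : 0 ≤ m * x.2 ^ 2 := by positivity
    have h6 : x.1 ^ 2 ≤ 8 ^ 2 := by nlinarith [sq_nonneg c]
    have h7 : |x.1| ≤ 8 := abs_le_of_sq_le_sq h6 (by norm_num)
    rw [Prod.norm_def, max_le_iff, Real.norm_eq_abs, Real.norm_eq_abs]
    exact ⟨h7, abs_le.2 ⟨by linarith, h3⟩⟩
  · exact absurd rfl h

theorem th_adm (c m : ℝ) (hc : 0 < c) (hm0 : 0 ≤ m) :
    Adm (2 / c * (2 / c)) (2 * 8) (dif (qm c m)) (dam (wm c m)) :=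
  f3g_adm (2 / c) 8 (qm c m) (wm c m) (th_qm_meas c m) (th_wm_meas c m hc) (th_wm_le c m hc)
    (th_wm_supp c m hc hm0)

theorem s4_meas (a b c d : ℝ) : Measurable (s4 a b c d) := by
  unfold s4 s2
  fun_prop

theorem cs_meas : Measurable cs := by
  unfold cs
  exact (measurable_swap.comp measurable_fst).prodMk (measurable_swap.comp measurable_snd)

theorem adm_cs {B R : ℝ} {φ w : YX → ℝ} (h : Adm B R φ w) :
    Adm B R (fun p => φ (cs p)) (fun p => w (cs p)) where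
  mφ := h.mφ.comp cs_meas
  mw := h.mw.comp cs_meas
  bw := fun p => h.bw _
  sw := fun p hp => by
    have h1 := h.sw _ hp
    have h2 : ‖cs p‖ = ‖p‖ := by
      unfold cs
      simp only [Prod.norm_def, Prod.fst_swap, Prod.snd_swap]
      rw [max_comm ‖p.1.2‖, max_comm ‖p.2.2‖]
    rwa [h2] at h1

theorem adm_s4 {B R : ℝ} {φ w : YX → ℝ} (h : Adm B R φ w) (τ a b c d k : ℝ) (hk : 0 < k)
    (ha : k ≤ a) (hb : k ≤ b) (hc : k ≤ c) (hd : k ≤ d) :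
    Adm B (R / k) (fun p => φ (s4 a b c d p) / τ) (fun p => w (s4 a b c d p)) where
  mφ := (h.mφ.comp (s4_meas a b c d)).div_const τ
  mw := h.mw.comp (s4_meas a b c d)
  bw := fun p => h.bw _
  sw := fun p hp => by
    have h1 := h.sw _ hp
    unfold s4 s2 at h1
    simp only [Prod.norm_def, max_le_iff, Real.norm_eq_abs, abs_mul] at h1
    obtain ⟨⟨h2, h3⟩, h4, h5⟩ := h1
    have key : ∀ s t : ℝ, k ≤ s → |s| * |t| ≤ R → |t| ≤ R / k := by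
      intro s t hs ht
      rw [le_div_iff₀ hk]
      have h6 : k ≤ |s| := hs.trans (le_abs_self s)
      have h7 : k * |t| ≤ |s| * |t| := mul_le_mul_of_nonneg_right h6 (abs_nonneg t)
      linarith
    simp only [Prod.norm_def, max_le_iff, Real.norm_eq_abs]
    exact ⟨⟨key _ _ ha h2, key _ _ hb h3⟩, key _ _ hc h4, key _ _ hd h5⟩

/-- Times at most `1`. -/
theorem th_small (B : ℝ) (hB : 0 ≤ B) : ∃ C : ℝ, 0 ≤ C ∧ ∀ (R : ℝ) (φ w : YX → ℝ),
    Adm B R φ w → ∀ (x0 y0 : ℝ × ℝ) (δ T : ℝ), 0 < δ → δ ≤ 1 → 0 < T → T ≤ 1 →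
    ∀ α β : ℝ × ℝ → ℂ, Measurable α → Measurable β → (∀ p, ‖α p‖ ≤ 1) → (∀ p, ‖β p‖ ≤ 1) →
      (∀ p, α p ≠ 0 → |p.1 - y0.1| ≤ δ / 2 ∧ |p.2 - x0.1| ≤ δ / 2) →
      (∀ p, β p ≠ 0 → |p.1 - y0.2| ≤ δ / 2 ∧ |p.2 - x0.2| ≤ δ / 2) →
      Thg φ w T (pd α β) ≤ ENNReal.ofReal (C / T) := by
  obtain ⟨C, hC, h⟩ := FFg_abs0 B hB
  refine ⟨C * 64, by positivity, fun R φ w hw x0 y0 δ T hδ hδ1 hT hT1 α β hα hβ hα1 hβ1 hαs
    hβs => ?_⟩
  rw [Thg_eq B R φ w hw T hT _ (m2_pd_meas hα hβ) (m2_pd_norm hα1 hβ1), sqM_pd, ← ofReal_norm]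
  apply ENNReal.ofReal_le_ofReal
  have hdd1 := dd_norm α hα1
  have hdd1' := dd_norm β hβ1
  refine h R φ w hw T hT _ {q | NbG δ x0 y0 q ∧ |q.1.2.2| ≤ 1 ∧ |q.2.2.2| ≤ 1} (64 * 1 * 1) 64
    ?_ ?_ ?_ (by norm_num) (vol_boxG x0 y0 δ 1 1 hδ.le hδ1 zero_le_one zero_le_one) ?_
  · unfold tp
    exact ((dd_meas α hα).comp measurable_fst).mul ((dd_meas β hβ).comp measurable_snd)
  · intro q
    unfold tp
    rw [norm_mul]
    exact mul_le_one₀ (hdd1 _) (norm_nonneg _) (hdd1' _)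
  · intro q hq
    unfold tp at hq
    obtain ⟨a1, a2, a3, a4⟩ := dd_suppG hαs hδ.le q.1 (left_ne_zero_of_mul hq)
    obtain ⟨b1, b2, b3, b4⟩ := dd_suppG hβs hδ.le q.2 (right_ne_zero_of_mul hq)
    exact ⟨⟨⟨a1, b1, a2, b2⟩, ⟨a1, b1, a3, b3⟩, a4, b4⟩, a4.trans hδ1, b4.trans hδ1⟩
  · rw [mul_one, mul_one, le_div_iff₀ (by positivity)]
    have h1 : T ^ 2 ≤ 1 := pow_le_one₀ hT.le hT1
    linarith

/-- From the scaled form to the form. -/
theorem th_bridge (φ w : YX → ℝ) (M : YX → ℂ) (T τ a b c d E : ℝ) (hT : 1 ≤ T) (hτ : 0 < τ)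
    (hτ1 : τ ≤ 1) (ha : 0 < a) (hb : 0 < b) (hc : 0 < c) (hd : 0 < d) (hE : 0 ≤ E)
    (h1 : 1 ≤ τ * T → Thg (fun p => φ (s4 a b c d p) / τ) (fun p => w (s4 a b c d p)) (τ * T)
        (fun p => M (s4 a b c d p)) ≤
      ENNReal.ofReal (E * (1 + Real.log (τ * T)) ^ 4 / (τ * T)))
    (h2 : τ * T ≤ 1 → Thg (fun p => φ (s4 a b c d p) / τ) (fun p => w (s4 a b c d p)) (τ * T)
        (fun p => M (s4 a b c d p)) ≤ ENNReal.ofReal (E / (τ * T))) :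
    Thg φ w T M ≤
      ENNReal.ofReal (a * b * (c * d) ^ 2 / τ ^ 2 * E * (1 + Real.log T) ^ 5 / T) := by
  have hT0 : 0 < T := by linarith
  have hlog : 0 ≤ Real.log T := Real.log_nonneg hT
  rw [Thg_scale φ w M T τ a b c d hτ ha hb hc hd]
  have hL1 : 1 ≤ 1 + Real.log T := by linarith
  have h3 : Thg (fun p => φ (s4 a b c d p) / τ) (fun p => w (s4 a b c d p)) (τ * T)
      (fun p => M (s4 a b c d p)) ≤ ENNReal.ofReal (E * (1 + Real.log T) ^ 5 / (τ * T)) := by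
    rcases le_total 1 (τ * T) with h4 | h4
    · refine (h1 h4).trans (ENNReal.ofReal_le_ofReal ?_)
      have h5 : 0 ≤ Real.log (τ * T) := Real.log_nonneg h4
      have h6 : Real.log (τ * T) ≤ Real.log T :=
        Real.log_le_log (by positivity) (mul_le_of_le_one_left hT0.le hτ1)
      have h7 : (1 + Real.log (τ * T)) ^ 4 ≤ (1 + Real.log T) ^ 5 :=
        (pow_le_pow_left₀ (by linarith) (by linarith) 4).trans
          (pow_le_pow_right₀ hL1 (by norm_num))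
      gcongr
    · refine (h2 h4).trans (ENNReal.ofReal_le_ofReal ?_)
      have h7 : 1 ≤ (1 + Real.log T) ^ 5 := one_le_pow₀ hL1
      have h8 : E ≤ E * (1 + Real.log T) ^ 5 := le_mul_of_one_le_right hE h7
      gcongr
  refine (mul_le_mul_right h3 _).trans ?_
  rw [← ENNReal.ofReal_mul (by positivity)]
  apply ENNReal.ofReal_le_ofReal
  apply le_of_eq
  field_simp

end Pool.Agent.SDT.N1M

end -- N1M.TH1
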