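import Pool.Agent.SDT.B57
import Pool.Agent.SDT.B58
import Pool.Agent.SDT.B63
import Pool.Agent.SDT.B65

set_option autoImplicit false

namespace Pool.Agent.SDT.MP_6cbfb8_an
end Pool.Agent.SDT.MP_6cbfb8_an
namespace Pool.Agent.SDT.MST
end Pool.Agent.SDT.MST
namespace Pool.Agent.SDT.N1
end Pool.Agent.SDT.N1
namespace Pool.Agent.SDT.N1F
end Pool.Agent.SDT.N1F
namespace Pool.Agent.SDT.N1G
end Pool.Agent.SDT.N1G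

section -- N1M.K1

/-!
N1M, block K (compactness): splitting in cells for general forms; admissibility of `qm`, `wm`.
-/

namespace Pool.Agent.SDT.N1M

open MeasureTheory Set Metric Pool.Agent.SDT.MP_6cbfb8_an Pool.Agent.SDT.MST Pool.Agent.SDT.N1
open Pool.Agent.SDT.N1F Pool.Agent.SDT.N1G
open scoped ENNReal Real ContDiff

/-- Splitting in cells in all six variables, general phase and amplitude. -/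
theorem gk_split3 (B0 R0 : ℝ) (φ w : YX → ℝ) (hadm : Adm B0 R0 φ w) (T : ℝ) (hT : 0 < T)
    (A B : V → ℂ) (hA : Measurable A)
    (hB : Measurable B) (hA1 : ∀ a, ‖A a‖ ≤ 1) (hB1 : ∀ b, ‖B b‖ ≤ 1)
    (φ₁ φ₂ φ₃ ψ₁ ψ₂ ψ₃ : V → ℝ)
    (m1 : Measurable φ₁) (m2 : Measurable φ₂) (m3 : Measurable φ₃)
    (n1 : Measurable ψ₁) (n2 : Measurable ψ₂) (n3 : Measurable ψ₃)
    (R δ K : ℝ) (hδ : 0 < δ) (hK : 0 ≤ K)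
    (hAs : ∀ u, A u ≠ 0 → |φ₁ u| ≤ R ∧ |φ₂ u| ≤ R ∧ |φ₃ u| ≤ R)
    (hBs : ∀ v, B v ≠ 0 → |ψ₁ v| ≤ R ∧ |ψ₂ v| ≤ R ∧ |ψ₃ v| ≤ R)
    (hloc : ∀ A' B' : V → ℂ, Measurable A' → Measurable B' → (∀ a, ‖A' a‖ ≤ 1) →
      (∀ b, ‖B' b‖ ≤ 1) → ∀ u0 v0, A u0 ≠ 0 → B v0 ≠ 0 → Wg w (u0, v0) ≠ 0 →
      (∀ u, A' u ≠ 0 → A u ≠ 0 ∧ |φ₁ u - φ₁ u0| ≤ δ ∧ |φ₂ u - φ₂ u0| ≤ δ ∧
        |φ₃ u - φ₃ u0| ≤ δ) →
      (∀ v, B' v ≠ 0 → B v ≠ 0 ∧ |ψ₁ v - ψ₁ v0| ≤ δ ∧ |ψ₂ v - ψ₂ v0| ≤ δ ∧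
        |ψ₃ v - ψ₃ v0| ≤ δ) → ‖FFg φ w T (tp A' B')‖ ≤ K) :
    ‖FFg φ w T (tp A B)‖ ≤ ((⌊2 * R / δ⌋₊ + 1 : ℕ) : ℝ) ^ 6 * K := by
  set N : ℕ := ⌊2 * R / δ⌋₊ + 1 with hN
  set S : Finset (ℕ × ℕ × ℕ) := Finset.range N ×ˢ (Finset.range N ×ˢ Finset.range N) with hS
  have h1 : tp A B = fun q => ∑ p ∈ S ×ˢ S,
      tp (g2f_cut3 φ₁ φ₂ φ₃ R δ A p.1) (g2f_cut3 ψ₁ ψ₂ ψ₃ R δ B p.2) q := by
    funext q
    rw [Finset.sum_product]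
    unfold tp
    simp only
    rw [← Finset.sum_mul_sum, hS, hN, g2f_cut3_sum φ₁ φ₂ φ₃ R δ hδ A hAs,
      g2f_cut3_sum ψ₁ ψ₂ ψ₃ R δ hδ B hBs]
  rw [h1, FFg_sum B0 R0 φ w hadm T hT _ _ (fun p => ?_) 1 (fun p q => ?_)]
  · refine (norm_sum_le _ _).trans ?_
    have h2 : ∀ p ∈ S ×ˢ S,
        ‖FFg φ w T (tp (g2f_cut3 φ₁ φ₂ φ₃ R δ A p.1) (g2f_cut3 ψ₁ ψ₂ ψ₃ R δ B p.2))‖ ≤ K := by
      intro p _
      by_cases hu : ∃ u0 v0, g2f_cut3 φ₁ φ₂ φ₃ R δ A p.1 u0 ≠ 0 ∧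
          g2f_cut3 ψ₁ ψ₂ ψ₃ R δ B p.2 v0 ≠ 0 ∧ Wg w (u0, v0) ≠ 0
      · obtain ⟨u0, v0, hu0, hv0, hW⟩ := hu
        have a0 := g2f_cut3_ne hu0
        have b0 := g2f_cut3_ne hv0
        have a0' := hAs u0 a0.2
        have b0' := hBs v0 b0.2
        refine hloc _ _ (g2f_cut3_meas m1 m2 m3 R δ hA _) (g2f_cut3_meas n1 n2 n3 R δ hB _)
          (g2f_cut3_norm φ₁ φ₂ φ₃ R δ hA1 _) (g2f_cut3_norm ψ₁ ψ₂ ψ₃ R δ hB1 _) u0 v0 a0.2 b0.2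
          hW ?_ ?_
        · intro u hu
          have a1 := g2f_cut3_ne hu
          have a1' := hAs u a1.2
          exact ⟨a1.2, g2_ix_near hδ a1'.1 a0'.1 (a1.1.1.trans a0.1.1.symm),
            g2_ix_near hδ a1'.2.1 a0'.2.1 (a1.1.2.1.trans a0.1.2.1.symm),
            g2_ix_near hδ a1'.2.2 a0'.2.2 (a1.1.2.2.trans a0.1.2.2.symm)⟩
        · intro v hv
          have b1 := g2f_cut3_ne hv
          have b1' := hBs v b1.2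
          exact ⟨b1.2, g2_ix_near hδ b1'.1 b0'.1 (b1.1.1.trans b0.1.1.symm),
            g2_ix_near hδ b1'.2.1 b0'.2.1 (b1.1.2.1.trans b0.1.2.1.symm),
            g2_ix_near hδ b1'.2.2 b0'.2.2 (b1.1.2.2.trans b0.1.2.2.symm)⟩
      · push Not at hu
        have h3 : FFg φ w T (tp (g2f_cut3 φ₁ φ₂ φ₃ R δ A p.1)
            (g2f_cut3 ψ₁ ψ₂ ψ₃ R δ B p.2)) = 0 := by
          unfold FFg tp
          have h4 : (fun q : V × V => g2f_cut3 φ₁ φ₂ φ₃ R δ A p.1 q.1 *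
              g2f_cut3 ψ₁ ψ₂ ψ₃ R δ B p.2 q.2 * ((Wg w q : ℝ) : ℂ) * Kt T (Fg φ q)) =
              fun _ => 0 := by
            funext q
            by_cases h5 : g2f_cut3 φ₁ φ₂ φ₃ R δ A p.1 q.1 = 0
            · rw [h5]; simp
            · by_cases h6 : g2f_cut3 ψ₁ ψ₂ ψ₃ R δ B p.2 q.2 = 0
              · rw [h6]; simp
              · have h7 := hu q.1 q.2 h5 h6
                rw [show Wg w q = 0 from h7]; simp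
          rw [h4]
          simp
        rw [h3]
        simpa using hK
    refine (Finset.sum_le_sum h2).trans (le_of_eq ?_)
    rw [Finset.sum_const, Finset.card_product, hS, Finset.card_product, Finset.card_product,
      Finset.card_range, nsmul_eq_mul]
    push_cast
    ring
  · exact ((g2f_cut3_meas m1 m2 m3 R δ hA _).comp measurable_fst).mul
      ((g2f_cut3_meas n1 n2 n3 R δ hB _).comp measurable_snd)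
  · unfold tp
    rw [norm_mul]
    exact mul_le_one₀ (g2f_cut3_norm φ₁ φ₂ φ₃ R δ hA1 _ _) (norm_nonneg _)
      (g2f_cut3_norm ψ₁ ψ₂ ψ₃ R δ hB1 _ _)

/-! ### Admissibility of the corner family (copy of `N1M.TH1`, other names) -/

theorem gk_meas_hm (m : ℝ) : Measurable fun x : ℝ × ℝ => hm m x.2 - x.1 ^ 2 := by
  unfold hm
  fun_prop

theorem gk_qm_meas (c m : ℝ) : Measurable (qm c m) := by
  unfold qm Sq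
  have h1 : Continuous fun v : ℝ => Real.smoothTransition ((16 * v - c ^ 2) / c ^ 2) :=
    Real.smoothTransition.continuous.comp (by fun_prop)
  exact (Real.continuous_sqrt.mul h1).measurable.comp (gk_meas_hm m)

theorem gk_wm_meas (c m : ℝ) (hc : 0 < c) : Measurable (wm c m) := by
  unfold wm
  refine Measurable.ite ?_ ((f1_sma_cont c hc).measurable.comp (gk_meas_hm m)) measurable_const
  have h1 : MeasurableSet {x : ℝ × ℝ | 0 ≤ x.2} := measurableSet_le measurable_const measurable_snd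
  have h2 : MeasurableSet {x : ℝ × ℝ | x.2 ≤ 8} := measurableSet_le measurable_snd measurable_const
  exact h1.inter h2

theorem gk_wm_le (c m : ℝ) (hc : 0 < c) (x : ℝ × ℝ) : |wm c m x| ≤ 2 / c := by
  unfold wm
  split_ifs
  · exact f1_sma_le c hc _
  · rw [abs_zero]
    positivity

theorem gk_wm_supp (c m : ℝ) (hc : 0 < c) (hm0 : 0 ≤ m) (x : ℝ × ℝ) (h : wm c m x ≠ 0) :
    ‖x‖ ≤ 8 := by
  unfold wm at h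
  split_ifs at h with h1
  · obtain ⟨h2, h3⟩ := h1
    have h4 : c ^ 2 / 4 < hm m x.2 - x.1 ^ 2 := by
      by_contra h5
      push Not at h5
      exact h (f1_sma_zero c hc _ h5)
    unfold hm at h4
    have h5 : 0 ≤ m * x.2 ^ 2 := by positivity
    have h6 : x.1 ^ 2 ≤ 8 ^ 2 := by nlinarith [sq_nonneg c]
    have h7 : |x.1| ≤ 8 := abs_le_of_sq_le_sq h6 (by norm_num)
    rw [Prod.norm_def, max_le_iff, Real.norm_eq_abs, Real.norm_eq_abs]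
    exact ⟨h7, abs_le.2 ⟨by linarith, h3⟩⟩
  · exact absurd rfl h

theorem gk_adm (c m : ℝ) (hc : 0 < c) (hm0 : 0 ≤ m) :
    Adm (2 / c * (2 / c)) (2 * 8) (dif (qm c m)) (dam (wm c m)) :=
  f3g_adm (2 / c) 8 (qm c m) (wm c m) (gk_qm_meas c m) (gk_wm_meas c m hc) (gk_wm_le c m hc)
    (gk_wm_supp c m hc hm0)

end Pool.Agent.SDT.N1M

end -- N1M.K1

section -- N1M.K4

/-!
N1M, block K: the cells `oscND`, `oscNN`, `oscPD`, `oscPN` from `propF4N`, `propF4P`.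
-/

namespace Pool.Agent.SDT.N1M

open MeasureTheory Set Metric Pool.Agent.SDT.MP_6cbfb8_an Pool.Agent.SDT.MST Pool.Agent.SDT.N1
open Pool.Agent.SDT.N1F Pool.Agent.SDT.N1G
open scoped ENNReal Real ContDiff

/-- From points to compact sets in the inner variables, general phase and amplitude. -/
theorem gk_compact {P : Type*} (Ad : ℝ → P → Prop)
    (hAd : ∀ δ δ' p, δ' ≤ δ → Ad δ' p → Ad δ p) (B0 : ℝ) (R0 : P → ℝ) (φ w : P → YX → ℝ)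
    (hadm : ∀ δ p, Ad δ p → Adm B0 (R0 p) (φ p) (w p)) (sy₁ sx₁ sz₁ sy₂ sx₂ sz₂ : P → ℝ)
    (x0 y0 : ℝ × ℝ) (C7 : ℝ) (hC7 : 1 ≤ C7)
    (hloc : ∀ z0 : ℝ × ℝ, z0.1 ≠ 0 → z0.2 ≠ 0 →
      ∃ δ : ℝ, 0 < δ ∧ ∃ C : ℝ, 0 ≤ C ∧ ∀ (T : ℝ) (p : P), 0 < T → Ad δ p →
      ∀ A B : V → ℂ, Measurable A → Measurable B → (∀ a, ‖A a‖ ≤ 1) → (∀ b, ‖B b‖ ≤ 1) →
      (∀ u, A u ≠ 0 → LB (sy₁ p) (sx₁ p) (sz₁ p) y0.1 x0.1 z0.1 δ u) →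
      (∀ v, B v ≠ 0 → LB (sy₂ p) (sx₂ p) (sz₂ p) y0.2 x0.2 z0.2 δ v) →
      ‖FFg (φ p) (w p) T (tp A B)‖ ≤ C / T) :
    ∃ δ : ℝ, 0 < δ ∧ ∃ C : ℝ, 0 ≤ C ∧ ∀ (T : ℝ) (p : P), 0 < T → Ad δ p →
      ∀ A B : V → ℂ, Measurable A → Measurable B → (∀ a, ‖A a‖ ≤ 1) → (∀ b, ‖B b‖ ≤ 1) →
      (∀ u, A u ≠ 0 → |u.1 / sy₁ p - y0.1| ≤ δ ∧ |u.2.1 / sx₁ p - x0.1| ≤ δ ∧
        1 / C7 ≤ |u.2.2 / sz₁ p| ∧ |u.2.2 / sz₁ p| ≤ C7) →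
      (∀ v, B v ≠ 0 → |v.1 / sy₂ p - y0.2| ≤ δ ∧ |v.2.1 / sx₂ p - x0.2| ≤ δ ∧
        1 / C7 ≤ |v.2.2 / sz₂ p| ∧ |v.2.2 / sz₂ p| ≤ C7) →
      ‖FFg (φ p) (w p) T (tp A B)‖ ≤ C / T := by
  have hC7' : 0 < C7 := by linarith
  have key : ∃ δ : ℝ, 0 < δ ∧ ∃ C : ℝ, 0 ≤ C ∧ ∀ z0 ∈ g2_Z C7, ∀ (T : ℝ) (p : P), 0 < T →
      Ad δ p →
      ∀ A B : V → ℂ, Measurable A → Measurable B → (∀ a, ‖A a‖ ≤ 1) → (∀ b, ‖B b‖ ≤ 1) →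
      (∀ u, A u ≠ 0 → LB (sy₁ p) (sx₁ p) (sz₁ p) y0.1 x0.1 z0.1 δ u) →
      (∀ v, B v ≠ 0 → LB (sy₂ p) (sx₂ p) (sz₂ p) y0.2 x0.2 z0.2 δ v) →
      ‖FFg (φ p) (w p) T (tp A B)‖ ≤ C / T := by
    refine g2_unif (g2_Z_compact C7) (fun z0 δ C => ∀ (T : ℝ) (p : P), 0 < T → Ad δ p →
      ∀ A B : V → ℂ, Measurable A → Measurable B → (∀ a, ‖A a‖ ≤ 1) → (∀ b, ‖B b‖ ≤ 1) →
      (∀ u, A u ≠ 0 → LB (sy₁ p) (sx₁ p) (sz₁ p) y0.1 x0.1 z0.1 δ u) →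
      (∀ v, B v ≠ 0 → LB (sy₂ p) (sx₂ p) (sz₂ p) y0.2 x0.2 z0.2 δ v) →
      ‖FFg (φ p) (w p) T (tp A B)‖ ≤ C / T) ?_ ?_ ?_
    · intro z0 δ δ' C C' hδ' hδδ hCC h T p hT hp A B hA hB hA1 hB1 hAs hBs
      refine (h T p hT (hAd _ _ p hδδ hp) A B hA hB hA1 hB1
        (fun u hu => g2f_LB_mono hδδ (hAs u hu)) (fun v hv => g2f_LB_mono hδδ (hBs v hv))).trans ?_
      gcongr
    · rintro z0 ⟨⟨h1, -⟩, h2, -⟩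
      have h3 : 0 < 1 / C7 := by positivity
      exact hloc z0 (abs_pos.1 (h3.trans_le h1)) (abs_pos.1 (h3.trans_le h2))
    · intro z0 z0' δ C hδ hd h T p hT hp A B hA hB hA1 hB1 hAs hBs
      rw [Prod.dist_eq, max_le_iff, Real.dist_eq, Real.dist_eq] at hd
      exact h T p hT (hAd _ _ p (by linarith) hp) A B hA hB hA1 hB1
        (fun u hu => g2f_LB_shift hδ hd.1 (hAs u hu)) (fun v hv => g2f_LB_shift hδ hd.2 (hBs v hv))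
  obtain ⟨δ, hδ, C, hC, h⟩ := key
  refine ⟨δ, hδ, ((⌊2 * C7 / δ⌋₊ + 1 : ℕ) : ℝ) ^ 6 * C, by positivity, ?_⟩
  intro T p hT hp A B hA hB hA1 hB1 hAs hBs
  rw [mul_div_assoc]
  refine gk_split3 B0 (R0 p) (φ p) (w p) (hadm δ p hp) T hT A B hA hB hA1 hB1 (fun _ => 0)
    (fun _ => 0) (fun u => u.2.2 / sz₁ p) (fun _ => 0) (fun _ => 0) (fun v => v.2.2 / sz₂ p)
    measurable_const measurable_const (by fun_prop) measurable_const measurable_const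
    (by fun_prop) C7 δ (C / T) hδ (by positivity)
    (fun u hu => ⟨by simpa using hC7'.le, by simpa using hC7'.le, (hAs u hu).2.2.2⟩)
    (fun v hv => ⟨by simpa using hC7'.le, by simpa using hC7'.le, (hBs v hv).2.2.2⟩) ?_
  intro A' B' hA' hB' hA1' hB1' u0 v0 hu0 hv0 _ hAs' hBs'
  refine h (u0.2.2 / sz₁ p, v0.2.2 / sz₂ p) ⟨(hAs u0 hu0).2.2, (hBs v0 hv0).2.2⟩ T p hT hp
    A' B' hA' hB' hA1' hB1' ?_ ?_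
  · intro u hu
    have h1 := hAs' u hu
    have h2 := hAs u h1.1
    exact ⟨h2.1, h2.2.1, h1.2.2.2⟩
  · intro v hv
    have h1 := hBs' v hv
    have h2 := hBs v h1.1
    exact ⟨h2.1, h2.2.1, h1.2.2.2⟩

/-- Parameters `(al, m, ρ, γ, κ)`. -/
abbrev P5 : Type := ℝ × ℝ × ℝ × ℝ × ℝ

/-- One cell, type N, compact in the inner variables. -/
theorem propF4N2_of (c : ℝ) (hc : 0 < c) (m0 : ℝ) (x0 y0 : ℝ × ℝ) (k0 C5 C7 : ℝ) (hC7 : 1 ≤ C7)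
    (hloc : ∀ z0 : ℝ × ℝ, z0.1 ≠ 0 → z0.2 ≠ 0 →
      ∃ δ : ℝ, 0 < δ ∧ ∃ C : ℝ, 0 ≤ C ∧ ∀ T al m ρ γ κ : ℝ, 0 < T → Sm al m m0 δ →
      0 < ρ → ρ < δ → 0 < γ → γ < δ → 0 < κ → κ ≤ 1 → |κ - k0| < δ → γ ≤ C5 * κ →
      ∀ A B : V → ℂ, Measurable A → Measurable B → (∀ a, ‖A a‖ ≤ 1) → (∀ b, ‖B b‖ ≤ 1) →
      (∀ u, A u ≠ 0 → LB (al * ρ) al (al * γ) y0.1 x0.1 z0.1 δ u) →
      (∀ v, B v ≠ 0 → LB ρ 1 (al ^ 2 * κ * γ) y0.2 x0.2 z0.2 δ v) →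
      ‖FM c m T (tp A B)‖ ≤ C / T) :
    ∃ δ : ℝ, 0 < δ ∧ ∃ C : ℝ, 0 ≤ C ∧ ∀ T al m ρ γ κ : ℝ, 0 < T → Sm al m m0 δ →
      0 < ρ → ρ < δ → 0 < γ → γ < δ → 0 < κ → κ ≤ 1 → |κ - k0| < δ → γ ≤ C5 * κ →
      ∀ A B : V → ℂ, Measurable A → Measurable B → (∀ a, ‖A a‖ ≤ 1) → (∀ b, ‖B b‖ ≤ 1) →
      (∀ u, A u ≠ 0 → |u.1 / (al * ρ) - y0.1| ≤ δ ∧ |u.2.1 / al - x0.1| ≤ δ ∧
        1 / C7 ≤ |u.2.2 / (al * γ)| ∧ |u.2.2 / (al * γ)| ≤ C7) →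
      (∀ v, B v ≠ 0 → |v.1 / ρ - y0.2| ≤ δ ∧ |v.2.1 / 1 - x0.2| ≤ δ ∧
        1 / C7 ≤ |v.2.2 / (al ^ 2 * κ * γ)| ∧ |v.2.2 / (al ^ 2 * κ * γ)| ≤ C7) →
      ‖FM c m T (tp A B)‖ ≤ C / T := by
  obtain ⟨δ, hδ, C, hC, h⟩ := gk_compact (P := P5)
    (fun δ p => Sm p.1 p.2.1 m0 δ ∧ (0 < p.2.2.1 ∧ p.2.2.1 < δ) ∧
      (0 < p.2.2.2.1 ∧ p.2.2.2.1 < δ) ∧ 0 < p.2.2.2.2 ∧ p.2.2.2.2 ≤ 1 ∧ |p.2.2.2.2 - k0| < δ ∧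
      p.2.2.2.1 ≤ C5 * p.2.2.2.2)
    (fun δ δ' p hδ h => ⟨⟨h.1.1, h.1.2.1.trans_le hδ, h.1.2.2.1, h.1.2.2.2.1,
      h.1.2.2.2.2.trans_le hδ⟩, ⟨h.2.1.1, h.2.1.2.trans_le hδ⟩,
      ⟨h.2.2.1.1, h.2.2.1.2.trans_le hδ⟩, h.2.2.2.1, h.2.2.2.2.1, h.2.2.2.2.2.1.trans_le hδ,
      h.2.2.2.2.2.2⟩)
    (2 / c * (2 / c)) (fun _ => 2 * 8) (fun p => dif (qm c p.2.1)) (fun p => dam (wm c p.2.1))
    (fun δ p hp => gk_adm c p.2.1 hc hp.1.2.2.1)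
    (fun p => p.1 * p.2.2.1) (fun p => p.1) (fun p => p.1 * p.2.2.2.1)
    (fun p => p.2.2.1) (fun _ => 1) (fun p => p.1 ^ 2 * p.2.2.2.2 * p.2.2.2.1)
    x0 y0 C7 hC7 (by
      intro z0 hz1 hz2
      obtain ⟨δ, hδ, C, hC, h⟩ := hloc z0 hz1 hz2
      refine ⟨δ, hδ, C, hC, ?_⟩
      rintro T ⟨al, m, ρ, γ, κ⟩ hT ⟨hS, ⟨hρ, hρδ⟩, ⟨hγ, hγδ⟩, hκ, hκ1, hκδ, hγκ⟩ A B hA hB hA1 hB1
        hAs hBs
      exact h T al m ρ γ κ hT hS hρ hρδ hγ hγδ hκ hκ1 hκδ hγκ A B hA hB hA1 hB1 hAs hBs)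
  refine ⟨δ, hδ, C, hC, ?_⟩
  intro T al m ρ γ κ hT hS hρ hρδ hγ hγδ hκ hκ1 hκδ hγκ A B hA hB hA1 hB1 hAs hBs
  exact h T (al, m, ρ, γ, κ) hT ⟨hS, ⟨hρ, hρδ⟩, ⟨hγ, hγδ⟩, hκ, hκ1, hκδ, hγκ⟩ A B hA hB hA1 hB1
    hAs hBs

/-- One cell, type N', compact in the inner variables. -/
theorem propF4P2_of (c : ℝ) (hc : 0 < c) (m0 : ℝ) (x0 y0 : ℝ × ℝ) (k0 C5 C7 : ℝ) (hC7 : 1 ≤ C7)
    (hloc : ∀ z0 : ℝ × ℝ, z0.1 ≠ 0 → z0.2 ≠ 0 →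
      ∃ δ : ℝ, 0 < δ ∧ ∃ C : ℝ, 0 ≤ C ∧ ∀ T al m ρ γ κ : ℝ, 0 < T → Sm al m m0 δ →
      0 < ρ → ρ < δ → 0 < γ → γ < δ → 0 < κ → κ ≤ 1 → |κ - k0| < δ → m * γ ≤ C5 * κ →
      ∀ A B : V → ℂ, Measurable A → Measurable B → (∀ a, ‖A a‖ ≤ 1) → (∀ b, ‖B b‖ ≤ 1) →
      (∀ u, A u ≠ 0 → LB (al * ρ) al (al * κ * γ) y0.1 x0.1 z0.1 δ u) →
      (∀ v, B v ≠ 0 → LB (al ^ 2 * ρ) 1 γ y0.2 x0.2 z0.2 δ v) →
      ‖FM c m T (tp A B)‖ ≤ C / T) :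
    ∃ δ : ℝ, 0 < δ ∧ ∃ C : ℝ, 0 ≤ C ∧ ∀ T al m ρ γ κ : ℝ, 0 < T → Sm al m m0 δ →
      0 < ρ → ρ < δ → 0 < γ → γ < δ → 0 < κ → κ ≤ 1 → |κ - k0| < δ → m * γ ≤ C5 * κ →
      ∀ A B : V → ℂ, Measurable A → Measurable B → (∀ a, ‖A a‖ ≤ 1) → (∀ b, ‖B b‖ ≤ 1) →
      (∀ u, A u ≠ 0 → |u.1 / (al * ρ) - y0.1| ≤ δ ∧ |u.2.1 / al - x0.1| ≤ δ ∧
        1 / C7 ≤ |u.2.2 / (al * κ * γ)| ∧ |u.2.2 / (al * κ * γ)| ≤ C7) →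
      (∀ v, B v ≠ 0 → |v.1 / (al ^ 2 * ρ) - y0.2| ≤ δ ∧ |v.2.1 / 1 - x0.2| ≤ δ ∧
        1 / C7 ≤ |v.2.2 / γ| ∧ |v.2.2 / γ| ≤ C7) →
      ‖FM c m T (tp A B)‖ ≤ C / T := by
  obtain ⟨δ, hδ, C, hC, h⟩ := gk_compact (P := P5)
    (fun δ p => Sm p.1 p.2.1 m0 δ ∧ (0 < p.2.2.1 ∧ p.2.2.1 < δ) ∧
      (0 < p.2.2.2.1 ∧ p.2.2.2.1 < δ) ∧ 0 < p.2.2.2.2 ∧ p.2.2.2.2 ≤ 1 ∧ |p.2.2.2.2 - k0| < δ ∧
      p.2.1 * p.2.2.2.1 ≤ C5 * p.2.2.2.2)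
    (fun δ δ' p hδ h => ⟨⟨h.1.1, h.1.2.1.trans_le hδ, h.1.2.2.1, h.1.2.2.2.1,
      h.1.2.2.2.2.trans_le hδ⟩, ⟨h.2.1.1, h.2.1.2.trans_le hδ⟩,
      ⟨h.2.2.1.1, h.2.2.1.2.trans_le hδ⟩, h.2.2.2.1, h.2.2.2.2.1, h.2.2.2.2.2.1.trans_le hδ,
      h.2.2.2.2.2.2⟩)
    (2 / c * (2 / c)) (fun _ => 2 * 8) (fun p => dif (qm c p.2.1)) (fun p => dam (wm c p.2.1))
    (fun δ p hp => gk_adm c p.2.1 hc hp.1.2.2.1)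
    (fun p => p.1 * p.2.2.1) (fun p => p.1) (fun p => p.1 * p.2.2.2.2 * p.2.2.2.1)
    (fun p => p.1 ^ 2 * p.2.2.1) (fun _ => 1) (fun p => p.2.2.2.1)
    x0 y0 C7 hC7 (by
      intro z0 hz1 hz2
      obtain ⟨δ, hδ, C, hC, h⟩ := hloc z0 hz1 hz2
      refine ⟨δ, hδ, C, hC, ?_⟩
      rintro T ⟨al, m, ρ, γ, κ⟩ hT ⟨hS, ⟨hρ, hρδ⟩, ⟨hγ, hγδ⟩, hκ, hκ1, hκδ, hγκ⟩ A B hA hB hA1 hB1
        hAs hBs
      exact h T al m ρ γ κ hT hS hρ hρδ hγ hγδ hκ hκ1 hκδ hγκ A B hA hB hA1 hB1 hAs hBs)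
  refine ⟨δ, hδ, C, hC, ?_⟩
  intro T al m ρ γ κ hT hS hρ hρδ hγ hγδ hκ hκ1 hκδ hγκ A B hA hB hA1 hB1 hAs hBs
  exact h T (al, m, ρ, γ, κ) hT ⟨hS, ⟨hρ, hρδ⟩, ⟨hγ, hγδ⟩, hκ, hκ1, hκδ, hγκ⟩ A B hA hB hA1 hB1
    hAs hBs

end Pool.Agent.SDT.N1M

end -- N1M.K4

section -- N1M.K2

/-!
N1M, block K: `propI42` from `propI4`.
-/

namespace Pool.Agent.SDT.N1M

open MeasureTheory Set Metric Pool.Agent.SDT.MP_6cbfb8_an Pool.Agent.SDT.MST Pool.Agent.SDT.N1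
open Pool.Agent.SDT.N1F Pool.Agent.SDT.N1G
open scoped ENNReal Real ContDiff

/-- The space of base points `(m0, x0, y0, z0, k1)`. -/
abbrev XM : Type := ℝ × (ℝ × ℝ) × (ℝ × ℝ) × (ℝ × ℝ) × ℝ

/-- The local statement. -/
def PM (c : ℝ) (x : XM) (δ C : ℝ) : Prop :=
  ∀ T al m ρ₁ ρ₂ γ₁ γ₂ : ℝ, 0 < T → Sm al m x.1 δ →
      0 < ρ₁ → ρ₁ < δ → 0 < ρ₂ → ρ₂ < δ → 0 < γ₁ → γ₁ < δ → 0 < γ₂ → γ₂ < δ →
      al ^ 2 * ρ₁ * γ₁ = ρ₂ * γ₂ → |γ₂ / γ₁ - x.2.2.2.2| < δ → ρ₂ / ρ₁ ≤ γ₂ / γ₁ →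
      ∀ A B : V → ℂ, Measurable A → Measurable B → (∀ a, ‖A a‖ ≤ 1) → (∀ b, ‖B b‖ ≤ 1) →
      (∀ u, A u ≠ 0 → LB (al * ρ₁) al (al * γ₁) x.2.2.1.1 x.2.1.1 x.2.2.2.1.1 δ u) →
      (∀ v, B v ≠ 0 → LB ρ₂ 1 γ₂ x.2.2.1.2 x.2.1.2 x.2.2.2.1.2 δ v) →
      ‖FM c m T (tp A B)‖ ≤ C / T

/-- The compact set of base points. -/
def KMk (K : ℝ) : Set XM :=
  (Icc 0 1 ×ˢ (Icc (1 / K) K ×ˢ Icc 0 4) ×ˢ g2_Z K ×ˢ g2_Z K ×ˢ Icc 0 K) ∩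
    ({x | 1 / 4 ≤ 2 * x.2.1.2 - x.1 * x.2.1.2 ^ 2} ∩ {x | 1 / 2 ≤ 1 - x.1 * x.2.1.2})

theorem KM_compact (K : ℝ) : IsCompact (KMk K) := by
  refine IsCompact.inter_right ?_ (IsClosed.inter ?_ ?_)
  · exact isCompact_Icc.prod ((isCompact_Icc.prod isCompact_Icc).prod
      ((g2_Z_compact K).prod ((g2_Z_compact K).prod isCompact_Icc)))
  · exact isClosed_le continuous_const (by fun_prop)
  · exact isClosed_le continuous_const (by fun_prop)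

lemma gk_dist {x x' : XM} {d : ℝ} (h : dist x' x ≤ d) :
    |x'.1 - x.1| ≤ d ∧
      (|x'.2.1.1 - x.2.1.1| ≤ d ∧ |x'.2.1.2 - x.2.1.2| ≤ d) ∧
      (|x'.2.2.1.1 - x.2.2.1.1| ≤ d ∧ |x'.2.2.1.2 - x.2.2.1.2| ≤ d) ∧
      (|x'.2.2.2.1.1 - x.2.2.2.1.1| ≤ d ∧ |x'.2.2.2.1.2 - x.2.2.2.1.2| ≤ d) ∧
      |x'.2.2.2.2 - x.2.2.2.2| ≤ d := by
  simpa only [Prod.dist_eq, max_le_iff, Real.dist_eq] using h

lemma gk_Sm_mono {al m m0 δ δ' : ℝ} (h : δ ≤ δ') (hs : Sm al m m0 δ) : Sm al m m0 δ' :=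
  ⟨hs.1, hs.2.1.trans_le h, hs.2.2.1, hs.2.2.2.1, hs.2.2.2.2.trans_le h⟩

/-- Uniform version of the local statement. -/
theorem PM_unif (c : ℝ) (K : ℝ) (hK : 1 ≤ K)
    (hI : ∀ (m0 : ℝ) (x0 y0 z0 : ℝ × ℝ) (k1 : ℝ), Bm m0 x0 → y0.1 ≠ 0 → y0.2 ≠ 0 →
      z0.1 ≠ 0 → z0.2 ≠ 0 → 0 ≤ k1 → ∃ δ : ℝ, 0 < δ ∧ ∃ C : ℝ, 0 ≤ C ∧
        PM c (m0, x0, y0, z0, k1) δ C) :
    ∃ δ : ℝ, 0 < δ ∧ ∃ C : ℝ, 0 ≤ C ∧ ∀ x ∈ KMk K, PM c x δ C := by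
  refine g2_unif (KM_compact K) (PM c) ?_ ?_ ?_
  · intro x δ δ' C C' hδ' hδδ hCC h T al m ρ₁ ρ₂ γ₁ γ₂ hT hS r1 r1' r2 r2' g1 g1' g2 g2' hbal hk
      hle A B hA hB hA1 hB1 hAs hBs
    refine (h T al m ρ₁ ρ₂ γ₁ γ₂ hT (gk_Sm_mono hδδ hS) r1 (r1'.trans_le hδδ) r2
      (r2'.trans_le hδδ) g1 (g1'.trans_le hδδ) g2 (g2'.trans_le hδδ) hbal (hk.trans_le hδδ) hle
      A B hA hB hA1 hB1 (fun u hu => g2f_LB_mono hδδ (hAs u hu))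
      (fun v hv => g2f_LB_mono hδδ (hBs v hv))).trans ?_
    gcongr
  · rintro ⟨m0, x0, y0, z0, k1⟩ ⟨⟨hm0, ⟨hx1, hx2⟩, hy, hz, hk⟩, hh, hbm⟩
    simp only [mem_ofPred_eq] at hh hbm hm0 hx1 hx2 hk
    have h3 : 0 < 1 / K := by positivity
    have hr : 0 < x0.2 := by
      have h5 : 0 ≤ m0 * x0.2 ^ 2 := mul_nonneg hm0.1 (sq_nonneg _)
      linarith
    refine hI m0 x0 y0 z0 k1 ⟨hm0.1, hm0.2, h3.trans_le hx1.1, hr, hx2.2, hh, hbm⟩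
      (abs_pos.1 (h3.trans_le hy.1.1)) (abs_pos.1 (h3.trans_le hy.2.1))
      (abs_pos.1 (h3.trans_le hz.1.1)) (abs_pos.1 (h3.trans_le hz.2.1)) hk.1
  · intro x x' δ C hδ hd h T al m ρ₁ ρ₂ γ₁ γ₂ hT hS r1 r1' r2 r2' g1 g1' g2 g2' hbal hk
      hle A B hA hB hA1 hB1 hAs hBs
    obtain ⟨d1, ⟨d3, d3'⟩, ⟨d4, d4'⟩, ⟨d5, d5'⟩, d6⟩ := gk_dist hd
    refine h T al m ρ₁ ρ₂ γ₁ γ₂ hT ?_ r1 (by linarith) r2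
      (by linarith) g1 (by linarith) g2 (by linarith) hbal ?_ hle
      A B hA hB hA1 hB1 (fun u hu => g2f_LB_shift3 d4 d3 d5 (hAs u hu))
      (fun v hv => g2f_LB_shift3 d4' d3' d5' (hBs v hv))
    · obtain ⟨s1, s2, s3, s4, s5⟩ := hS
      refine ⟨s1, by linarith, s3, s4, ?_⟩
      have h4 := abs_sub_le m x'.1 x.1
      linarith
    · have h4 := abs_sub_le (γ₂ / γ₁) x'.2.2.2.2 x.2.2.2.2
      linarith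

/-- The global statement with exact balance and one order. -/
theorem propI43_of (c : ℝ) (hc : 0 < c) (K : ℝ) (hK : 1 ≤ K)
    (hI : ∀ (m0 : ℝ) (x0 y0 z0 : ℝ × ℝ) (k1 : ℝ), Bm m0 x0 → y0.1 ≠ 0 → y0.2 ≠ 0 →
      z0.1 ≠ 0 → z0.2 ≠ 0 → 0 ≤ k1 → ∃ δ : ℝ, 0 < δ ∧ ∃ C : ℝ, 0 ≤ C ∧
        PM c (m0, x0, y0, z0, k1) δ C) :
    ∃ δ : ℝ, 0 < δ ∧ ∃ C : ℝ, 0 ≤ C ∧ ∀ T al m ρ₁ ρ₂ γ₁ γ₂ : ℝ, 0 < T →
      0 < al → al < δ → 0 ≤ m → m ≤ 1 →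
      0 < ρ₁ → ρ₁ < δ → 0 < ρ₂ → ρ₂ < δ → 0 < γ₁ → γ₁ < δ → 0 < γ₂ → γ₂ < δ →
      al ^ 2 * ρ₁ * γ₁ = ρ₂ * γ₂ → γ₂ ≤ K * γ₁ → ρ₂ / ρ₁ ≤ γ₂ / γ₁ →
      ∀ A B : V → ℂ, Measurable A → Measurable B → (∀ a, ‖A a‖ ≤ 1) → (∀ b, ‖B b‖ ≤ 1) →
      (∀ u, A u ≠ 0 → GB (al * ρ₁) al (al * γ₁) K u) →
      (∀ v, B v ≠ 0 → GR m ρ₂ γ₂ K v) →
      ‖FM c m T (tp A B)‖ ≤ C / T := by
  obtain ⟨δ, hδ, C, hC, h⟩ := PM_unif c K hK hI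
  have hK0 : 0 < K := by linarith
  refine ⟨δ, hδ, ((⌊2 * (K + 4) / δ⌋₊ + 1 : ℕ) : ℝ) ^ 6 * C, by positivity, ?_⟩
  intro T al m ρ₁ ρ₂ γ₁ γ₂ hT hal hal1 hm0 hm1 r1 r1' r2 r2' g1 g1' g2 g2' hbal hk
      hle A B hA hB hA1 hB1 hAs hBs
  rw [mul_div_assoc]
  have pos_le : ∀ t : ℝ, 1 / K ≤ t → t ≤ K → |t| ≤ K + 4 := by
    intro t h1 h2
    rw [abs_of_pos (lt_of_lt_of_le (by positivity) h1)]
    linarith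
  refine gk_split3 _ _ (dif (qm c m)) (dam (wm c m)) (gk_adm c m hc hm0) T hT A B hA hB hA1 hB1
    (fun u => u.1 / (al * ρ₁)) (fun u => u.2.1 / al)
    (fun u => u.2.2 / (al * γ₁)) (fun v => v.1 / ρ₂) (fun v => v.2.1 / 1)
    (fun v => v.2.2 / γ₂) (by fun_prop) (by fun_prop) (by fun_prop) (by fun_prop)
    (by fun_prop) (by fun_prop) (K + 4) δ (C / T) hδ (by positivity)
    (fun u hu => ⟨(hAs u hu).1.2.trans (by linarith), pos_le _ (hAs u hu).2.1.1 (hAs u hu).2.1.2,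
      (hAs u hu).2.2.2.trans (by linarith)⟩)
    (fun v hv => ⟨(hBs v hv).1.2.trans (by linarith), ?_,
      (hBs v hv).2.2.2.trans (by linarith)⟩) ?_
  · obtain ⟨e1, e2, -, -⟩ := (hBs v hv).2.1
    rw [div_one, abs_of_pos e1]
    linarith
  intro A' B' hA' hB' hA1' hB1' u0 v0 hu0 hv0 _ hAs' hBs'
  have hu := hAs u0 hu0
  have hv := hBs v0 hv0
  obtain ⟨e1, e2, e3, e4⟩ := hv.2.1
  have hk0 : 0 ≤ γ₂ / γ₁ := by positivity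
  have hkK : γ₂ / γ₁ ≤ K := by rwa [div_le_iff₀ g1]
  refine h (m, (u0.2.1 / al, v0.2.1 / 1), (u0.1 / (al * ρ₁), v0.1 / ρ₂),
    (u0.2.2 / (al * γ₁), v0.2.2 / γ₂), γ₂ / γ₁) ?_ T al m ρ₁ ρ₂ γ₁ γ₂ hT ?_
    r1 r1' r2 r2' g1 g1' g2 g2' hbal ?_ hle A' B' hA' hB' hA1' hB1' ?_ ?_
  · refine ⟨⟨⟨hm0, hm1⟩, ⟨⟨hu.2.1.1, hu.2.1.2⟩, ⟨?_, ?_⟩⟩, ⟨hu.1, hv.1⟩, ⟨hu.2.2, hv.2.2⟩,
      ⟨hk0, hkK⟩⟩, ?_, ?_⟩
    · simp only [div_one]; exact e1.le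
    · simp only [div_one]; exact e2
    · simp only [mem_ofPred_eq, div_one]
      exact e3
    · simp only [mem_ofPred_eq, div_one]
      exact e4
  · exact ⟨hal, hal1, hm0, hm1, by simpa using hδ⟩
  · simpa using hδ
  · intro u hu'
    have h1 := hAs' u hu'
    exact ⟨h1.2.1, h1.2.2.1, h1.2.2.2⟩
  · intro v hv'
    have h1 := hBs' v hv'
    exact ⟨h1.2.1, h1.2.2.1, h1.2.2.2⟩

lemma gk_GR_mono {m sy sz K K' : ℝ} {v : V} (hK : 1 ≤ K) (h : K ≤ K') (hv : GR m sy sz K v) :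
    GR m sy sz K' v := by
  have h1 : 1 / K' ≤ 1 / K := one_div_le_one_div_of_le (by linarith) h
  obtain ⟨⟨a1, a2⟩, b1, ⟨c1, c2⟩⟩ := hv
  exact ⟨⟨h1.trans a1, a2.trans h⟩, b1, ⟨h1.trans c1, c2.trans h⟩⟩

lemma gk_GR_swap {m sy sz K : ℝ} {v : V} (hv : GR m sy sz K (v.2.2, v.2.1, v.1)) :
    GR m sz sy K v := ⟨hv.2.2, hv.2.1, hv.1⟩

lemma gk_GR_scale {m s τ sz K : ℝ} {v : V} (hK : 1 ≤ K) (hτ1 : 1 / K ≤ τ) (hτ2 : τ ≤ K)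
    (hv : GR m s sz K v) : GR m (s * τ) sz (K ^ 2) v := by
  have hK2 : K ≤ K ^ 2 := by nlinarith
  have hK0 : 0 < K := by linarith
  have hτ : 0 < τ := lt_of_lt_of_le (by positivity) hτ1
  refine ⟨?_, (gk_GR_mono hK hK2 hv).2⟩
  have h1 := hv.1
  have e1 : |v.1 / (s * τ)| = |v.1 / s| / τ := by
    rw [← div_div, abs_div (v.1 / s) τ, abs_of_pos hτ]
  rw [e1]
  constructor
  · rw [le_div_iff₀ hτ]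
    calc 1 / K ^ 2 * τ ≤ 1 / K ^ 2 * K := by gcongr
      _ = 1 / K := by field_simp
      _ ≤ _ := h1.1
  · rw [div_le_iff₀ hτ]
    calc |v.1 / s| ≤ K := h1.2
      _ = K ^ 2 * (1 / K) := by field_simp
      _ ≤ K ^ 2 * τ := by gcongr

theorem propI42_of (c : ℝ) (hc : 0 < c) (K : ℝ) (hK : 1 ≤ K)
    (hI : ∀ (m0 : ℝ) (x0 y0 z0 : ℝ × ℝ), Bm m0 x0 → y0.1 ≠ 0 → y0.2 ≠ 0 →
      z0.1 ≠ 0 → z0.2 ≠ 0 → ∀ k1 : ℝ, 0 ≤ k1 → ∃ δ : ℝ, 0 < δ ∧ ∃ C : ℝ, 0 ≤ C ∧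
      ∀ T al m ρ₁ ρ₂ γ₁ γ₂ : ℝ, 0 < T → Sm al m m0 δ →
      0 < ρ₁ → ρ₁ < δ → 0 < ρ₂ → ρ₂ < δ → 0 < γ₁ → γ₁ < δ → 0 < γ₂ → γ₂ < δ →
      al ^ 2 * ρ₁ * γ₁ = ρ₂ * γ₂ → |γ₂ / γ₁ - k1| < δ → ρ₂ / ρ₁ ≤ γ₂ / γ₁ →
      ∀ A B : V → ℂ, Measurable A → Measurable B → (∀ a, ‖A a‖ ≤ 1) → (∀ b, ‖B b‖ ≤ 1) →
      (∀ u, A u ≠ 0 → LB (al * ρ₁) al (al * γ₁) y0.1 x0.1 z0.1 δ u) →
      (∀ v, B v ≠ 0 → LB ρ₂ 1 γ₂ y0.2 x0.2 z0.2 δ v) →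
      ‖FM c m T (tp A B)‖ ≤ C / T) :
    ∃ δ : ℝ, 0 < δ ∧ ∃ C : ℝ, 0 ≤ C ∧ ∀ T al m ρ₁ ρ₂ γ₁ γ₂ : ℝ, 0 < T →
      0 < al → al ≤ δ → 0 ≤ m → m ≤ 1 →
      0 < ρ₁ → ρ₁ < δ → 0 < ρ₂ → ρ₂ < δ → 0 < γ₁ → γ₁ < δ → 0 < γ₂ → γ₂ < δ →
      al ^ 2 * ρ₁ * γ₁ ≤ K * (ρ₂ * γ₂) → ρ₂ * γ₂ ≤ K * (al ^ 2 * ρ₁ * γ₁) →
      γ₂ ≤ K * γ₁ → ρ₂ ≤ K * ρ₁ →
      ∀ A B : V → ℂ, Measurable A → Measurable B → (∀ a, ‖A a‖ ≤ 1) → (∀ b, ‖B b‖ ≤ 1) →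
      (∀ u, A u ≠ 0 → GB (al * ρ₁) al (al * γ₁) K u) → (∀ v, B v ≠ 0 → GR m ρ₂ γ₂ K v) →
      ‖FM c m T (tp A B)‖ ≤ C / T := by
  have hK2 : K ≤ K ^ 2 := by nlinarith
  have hK0 : 0 < K := by linarith
  obtain ⟨δ, hδ, C, hC, h⟩ := propI43_of c hc (K ^ 2) (hK.trans hK2)
    (fun m0 x0 y0 z0 k1 hb hy1 hy2 hz1 hz2 hk => hI m0 x0 y0 z0 hb hy1 hy2 hz1 hz2 k1 hk)
  have hδK : δ / (2 * K) < δ := by
    rw [div_lt_iff₀ (by positivity)]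
    nlinarith
  refine ⟨δ / (2 * K), by positivity, C, hC, ?_⟩
  intro T al m ρ₁ ρ₂ γ₁ γ₂ hT hal hal1 hm0 hm1 r1 r1' r2 r2' g1 g1' g2 g2' hb1 hb2 hk1 hk2
    A B hA hB hA1 hB1 hAs hBs
  have hden : 0 < ρ₂ * γ₂ := by positivity
  set τ : ℝ := al ^ 2 * ρ₁ * γ₁ / (ρ₂ * γ₂) with hτdef
  have hτ2 : τ ≤ K := by rwa [hτdef, div_le_iff₀ hden]
  have hτ1 : 1 / K ≤ τ := by
    rw [hτdef, div_le_div_iff₀ hK0 hden]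
    linarith
  have hτ : 0 < τ := lt_of_lt_of_le (by positivity) hτ1
  have r3 : 0 < ρ₂ * τ := by positivity
  have r3' : ρ₂ * τ < δ := by
    calc ρ₂ * τ ≤ ρ₂ * K := by gcongr
      _ < δ / (2 * K) * K := by gcongr
      _ = δ / 2 := by field_simp
      _ < δ := by linarith
  have hbal : al ^ 2 * ρ₁ * γ₁ = ρ₂ * τ * γ₂ := by
    rw [hτdef]
    field_simp
  have hA2 : ∀ u, A u ≠ 0 → GB (al * ρ₁) al (al * γ₁) (K ^ 2) u :=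
    fun u hu => g2f_GB_mono hK hK2 (hAs u hu)
  have hB2 : ∀ v, B v ≠ 0 → GR m (ρ₂ * τ) γ₂ (K ^ 2) v :=
    fun v hv => gk_GR_scale hK hτ1 hτ2 (hBs v hv)
  rcases le_total (ρ₂ * τ / ρ₁) (γ₂ / γ₁) with hle | hle
  · refine h T al m ρ₁ (ρ₂ * τ) γ₁ γ₂ hT hal (hal1.trans_lt hδK) hm0 hm1 r1
      (r1'.trans hδK) r3 r3' g1 (g1'.trans hδK) g2 (g2'.trans hδK) hbal ?_ hle A B hA hB hA1 hB1
      hA2 hB2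
    exact hk1.trans (by gcongr)
  · have hsw : FM c m T (tp A B) = FM c m T (tp (fun u : V => A (u.2.2, u.2.1, u.1))
        (fun v : V => B (v.2.2, v.2.1, v.1))) := (FFg_swp (qm c m) (wm c m) T (tp A B)).symm
    rw [hsw]
    refine h T al m γ₁ γ₂ ρ₁ (ρ₂ * τ) hT hal (hal1.trans_lt hδK) hm0 hm1 g1
      (g1'.trans hδK) g2 (g2'.trans hδK) r1 (r1'.trans hδK) r3 r3' ?_ ?_ hle _ _
      (hA.comp (by fun_prop)) (hB.comp (by fun_prop)) (fun u => hA1 _) (fun v => hB1 _)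
      (fun u hu => g2f_GB_swap (hA2 _ hu)) (fun v hv => gk_GR_swap (hB2 _ hv))
    · linarith [hbal, mul_comm ρ₁ γ₁, mul_comm (ρ₂ * τ) γ₂]
    · calc ρ₂ * τ ≤ (K * ρ₁) * K := by gcongr
        _ = K ^ 2 * ρ₁ := by ring

end Pool.Agent.SDT.N1M

end -- N1M.K2

section -- N1M.K5

/-!
N1M, block K: `oscND`, `oscNN` from `propF4N`; `oscPD`, `oscPN` from `propF4P`.
-/

namespace Pool.Agent.SDT.N1M

open MeasureTheory Set Metric Pool.Agent.SDT.MP_6cbfb8_an Pool.Agent.SDT.MST Pool.Agent.SDT.N1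
open Pool.Agent.SDT.N1F Pool.Agent.SDT.N1G
open scoped ENNReal Real ContDiff

/-- The scaling of type N. -/
theorem gk_scaleN (c m al ρ T : ℝ) (hal : 0 < al) (hρ : 0 < ρ) (A B : V → ℂ) :
    FFg (phN c m al ρ) (waN c m al ρ) T (tp A B) =
      ((ρ * (al * ρ * (al * al) * (ρ * (1 * 1)))⁻¹ : ℝ) : ℂ) *
      FM c m (T / ρ) (tp (fun u => A (s3 (al * ρ)⁻¹ al⁻¹ al⁻¹ u))
        (fun v => B (s3 ρ⁻¹ 1⁻¹ 1⁻¹ v))) :=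
  gk_FFg_scale (dif (qm c m)) (dam (wm c m)) (phN c m al ρ) (waN c m al ρ) T ρ hρ (al * ρ) al ρ 1
    (by positivity) hal hρ one_pos (fun p => by unfold phN; rw [one_mul])
    (fun p => by unfold waN; rw [one_mul]) A B

/-- The scaling of type N'. -/
theorem gk_scaleP (c m al ρ T : ℝ) (hal : 0 < al) (hρ : 0 < ρ) (A B : V → ℂ) :
    FFg (phP c m al ρ) (waP c m al ρ) T (tp A B) =
      ((al ^ 2 * ρ * (al * ρ * (al * al) * (al ^ 2 * ρ * (1 * 1)))⁻¹ : ℝ) : ℂ) *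
      FM c m (T / (al ^ 2 * ρ)) (tp (fun u => B (s3 (al * ρ)⁻¹ al⁻¹ al⁻¹ u))
        (fun v => A (s3 (al ^ 2 * ρ)⁻¹ 1⁻¹ 1⁻¹ v))) := by
  rw [← FFg_comm (phP c m al ρ) (waP c m al ρ) T (tp A B)]
  have h1 : (fun q : V × V => tp A B q.swap) = tp B A := by
    funext q
    unfold tp
    simp only [Prod.fst_swap, Prod.snd_swap]
    rw [mul_comm]
  rw [h1]
  exact gk_FFg_scale (dif (qm c m)) (dam (wm c m)) _ _ T (al ^ 2 * ρ) (by positivity) (al * ρ) al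
    (al ^ 2 * ρ) 1 (by positivity) hal (by positivity) one_pos
    (fun p => by unfold phP cs; simp only [Prod.fst_swap, Prod.snd_swap]; rw [one_mul])
    (fun p => by unfold waP cs; simp only [Prod.fst_swap, Prod.snd_swap]; rw [one_mul]) B A

/-- Support of a scaled block. -/
lemma gk_supp {A : V → ℂ} {δ y x g sy sx s C7 : ℝ} (hs : 0 < s)
    (hg : 0 < g) (hC7 : 1 ≤ C7) (h1 : s ≤ C7 * g) (h2 : g ≤ C7 * s) (hA : Sp δ y x g A) (u : V)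
    (hu : A (s3 sy⁻¹ sx⁻¹ sx⁻¹ u) ≠ 0) :
    |u.1 / sy - y| ≤ δ ∧ |u.2.1 / sx - x| ≤ δ ∧
      1 / (2 * C7) ≤ |u.2.2 / (sx * s)| ∧ |u.2.2 / (sx * s)| ≤ 2 * C7 := by
  obtain ⟨a1, a2, -, a4, a5⟩ := hA _ hu
  unfold s3 at a1 a2 a4 a5
  simp only at a1 a2 a4 a5
  rw [inv_mul_eq_div] at a1 a2 a4 a5
  have e1 : |u.2.2 / (sx * s)| = |u.2.2 / sx| / s := by
    rw [← div_div, abs_div (u.2.2 / sx) s, abs_of_pos hs]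
  have hC : 0 < C7 := by linarith
  refine ⟨a1, a2, ?_, ?_⟩
  · rw [e1, le_div_iff₀ hs]
    calc 1 / (2 * C7) * s ≤ 1 / (2 * C7) * (C7 * g) := by gcongr
      _ = g / 2 := by field_simp
      _ ≤ |u.2.2 / sx| := a4.le
  · rw [e1, div_le_iff₀ hs]
    calc |u.2.2 / sx| ≤ g := a5
      _ ≤ C7 * s := h2
      _ ≤ 2 * C7 * s := by nlinarith

theorem oscND_of (c : ℝ) (hc : 0 < c) (m0 : ℝ) (x0 y0 : ℝ × ℝ) (C5 C7 : ℝ) (hC7 : 1 ≤ C7)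
    (hloc : ∀ z0 : ℝ × ℝ, z0.1 ≠ 0 → z0.2 ≠ 0 →
      ∃ δ : ℝ, 0 < δ ∧ ∃ C : ℝ, 0 ≤ C ∧ ∀ T al m ρ γ κ : ℝ, 0 < T → Sm al m m0 δ →
      0 < ρ → ρ < δ → 0 < γ → γ < δ → 0 < κ → κ ≤ 1 → |κ - 0| < δ → γ ≤ C5 * κ →
      ∀ A B : V → ℂ, Measurable A → Measurable B → (∀ a, ‖A a‖ ≤ 1) → (∀ b, ‖B b‖ ≤ 1) →
      (∀ u, A u ≠ 0 → LB (al * ρ) al (al * γ) y0.1 x0.1 z0.1 δ u) →
      (∀ v, B v ≠ 0 → LB ρ 1 (al ^ 2 * κ * γ) y0.2 x0.2 z0.2 δ v) →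
      ‖FM c m T (tp A B)‖ ≤ C / T) :
    ∃ δ : ℝ, 0 < δ ∧ ∃ C : ℝ, 0 ≤ C ∧ ∀ T al m ρ κ γ d : ℝ, 0 < T → Sm al m m0 δ →
      0 < ρ → ρ < δ → 0 < κ → κ ≤ δ → 0 < γ → γ ≤ 2 * δ → 0 < d → γ ≤ C5 * κ →
      κ * (al ^ 2 * γ) ≤ C7 * d → d ≤ C7 * (κ * (al ^ 2 * γ)) →
      ∀ A B : V → ℂ, Measurable A → Measurable B → (∀ a, ‖A a‖ ≤ 1) → (∀ b, ‖B b‖ ≤ 1) →
      Sp δ y0.1 x0.1 γ A → Sp δ y0.2 x0.2 d B →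
      ‖FFg (phN c m al ρ) (waN c m al ρ) T (tp A B)‖ ≤ C / al ^ 3 / T := by
  obtain ⟨δ, hδ, C, hC, h⟩ := propF4N2_of c hc m0 x0 y0 0 C5 (2 * C7) (by linarith) hloc
  have hmin : 0 < min δ 1 := lt_min hδ one_pos
  have hle : min δ 1 / 4 ≤ δ := by linarith [min_le_left δ 1]
  refine ⟨min δ 1 / 4, by positivity, C, hC, ?_⟩
  intro T al m ρ κ γ d hT hS hρ hρδ hκ hκδ hγ hγδ hd hγκ h1 h2 A B hA hB hA1 hB1 hAs hBs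
  have hal := hS.1
  have hl := min_le_left δ 1
  have hr := min_le_right δ 1
  rw [gk_scaleN c m al ρ T hal hρ, norm_mul, Complex.norm_real, Real.norm_eq_abs,
    abs_of_pos (by positivity)]
  have key := h (T / ρ) al m ρ γ κ (by positivity) (gk_Sm_mono hle hS) hρ (by linarith) hγ
    (by linarith) hκ (by linarith) (by rw [sub_zero, abs_of_pos hκ]; linarith) hγκ
    (fun u => A (s3 (al * ρ)⁻¹ al⁻¹ al⁻¹ u)) (fun v => B (s3 ρ⁻¹ 1⁻¹ 1⁻¹ v))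
    (hA.comp (s3_meas _ _ _)) (hB.comp (s3_meas _ _ _)) (fun u => hA1 _) (fun v => hB1 _)
    (fun u hu => ?_) (fun v hv => ?_)
  · calc ρ * (al * ρ * (al * al) * (ρ * (1 * 1)))⁻¹ * ‖FM c m (T / ρ)
          (tp (fun u => A (s3 (al * ρ)⁻¹ al⁻¹ al⁻¹ u)) (fun v => B (s3 ρ⁻¹ 1⁻¹ 1⁻¹ v)))‖
        ≤ ρ * (al * ρ * (al * al) * (ρ * (1 * 1)))⁻¹ * (C / (T / ρ)) := by gcongr
      _ = C / al ^ 3 / T := by field_simp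
  · have e := gk_supp (sy := al * ρ) (sx := al) hγ hγ (by linarith : (1 : ℝ) ≤ C7) (by nlinarith)
      (by nlinarith) hAs u hu
    exact ⟨e.1.trans hle, e.2.1.trans hle, e.2.2⟩
  · have e := gk_supp (sy := ρ) (sx := 1) (s := al ^ 2 * κ * γ) (by positivity) hd hC7
      (by linarith [h1, (by ring : al ^ 2 * κ * γ = κ * (al ^ 2 * γ))])
      (by rw [(by ring : al ^ 2 * κ * γ = κ * (al ^ 2 * γ))]; exact h2) hBs v hv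
    rw [one_mul] at e
    exact ⟨e.1.trans hle, e.2.1.trans hle, e.2.2⟩

theorem oscNN_of (c : ℝ) (hc : 0 < c) (m0 : ℝ) (x0 y0 : ℝ × ℝ) (C7 : ℝ) (hC7 : 1 ≤ C7)
    (hloc : ∀ z0 : ℝ × ℝ, z0.1 ≠ 0 → z0.2 ≠ 0 →
      ∃ δ : ℝ, 0 < δ ∧ ∃ C : ℝ, 0 ≤ C ∧ ∀ T al m ρ γ κ : ℝ, 0 < T → Sm al m m0 δ →
      0 < ρ → ρ < δ → 0 < γ → γ < δ → 0 < κ → κ ≤ 1 → |κ - 1| < δ → γ ≤ 1 * κ →
      ∀ A B : V → ℂ, Measurable A → Measurable B → (∀ a, ‖A a‖ ≤ 1) → (∀ b, ‖B b‖ ≤ 1) →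
      (∀ u, A u ≠ 0 → LB (al * ρ) al (al * γ) y0.1 x0.1 z0.1 δ u) →
      (∀ v, B v ≠ 0 → LB ρ 1 (al ^ 2 * κ * γ) y0.2 x0.2 z0.2 δ v) →
      ‖FM c m T (tp A B)‖ ≤ C / T) :
    ∃ δ : ℝ, 0 < δ ∧ ∃ C : ℝ, 0 ≤ C ∧ ∀ T al m ρ γ d : ℝ, 0 < T → Sm al m m0 δ →
      0 < ρ → ρ < δ → 0 < γ → γ ≤ 2 * δ → 0 < d →
      al ^ 2 * γ ≤ C7 * d → d ≤ C7 * (al ^ 2 * γ) →
      ∀ A B : V → ℂ, Measurable A → Measurable B → (∀ a, ‖A a‖ ≤ 1) → (∀ b, ‖B b‖ ≤ 1) →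
      Sp δ y0.1 x0.1 γ A → Sp δ y0.2 x0.2 d B →
      ‖FFg (phN c m al ρ) (waN c m al ρ) T (tp A B)‖ ≤ C / al ^ 3 / T := by
  obtain ⟨δ, hδ, C, hC, h⟩ := propF4N2_of c hc m0 x0 y0 1 1 (2 * C7) (by linarith) hloc
  have hmin : 0 < min δ 1 := lt_min hδ one_pos
  have hle : min δ 1 / 4 ≤ δ := by linarith [min_le_left δ 1]
  refine ⟨min δ 1 / 4, by positivity, C, hC, ?_⟩
  intro T al m ρ γ d hT hS hρ hρδ hγ hγδ hd h1 h2 A B hA hB hA1 hB1 hAs hBs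
  have hal := hS.1
  have hl := min_le_left δ 1
  have hr := min_le_right δ 1
  rw [gk_scaleN c m al ρ T hal hρ, norm_mul, Complex.norm_real, Real.norm_eq_abs,
    abs_of_pos (by positivity)]
  have key := h (T / ρ) al m ρ γ 1 (by positivity) (gk_Sm_mono hle hS) hρ (by linarith) hγ
    (by linarith) one_pos le_rfl (by simpa using hδ) (by linarith)
    (fun u => A (s3 (al * ρ)⁻¹ al⁻¹ al⁻¹ u)) (fun v => B (s3 ρ⁻¹ 1⁻¹ 1⁻¹ v))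
    (hA.comp (s3_meas _ _ _)) (hB.comp (s3_meas _ _ _)) (fun u => hA1 _) (fun v => hB1 _)
    (fun u hu => ?_) (fun v hv => ?_)
  · calc ρ * (al * ρ * (al * al) * (ρ * (1 * 1)))⁻¹ * ‖FM c m (T / ρ)
          (tp (fun u => A (s3 (al * ρ)⁻¹ al⁻¹ al⁻¹ u)) (fun v => B (s3 ρ⁻¹ 1⁻¹ 1⁻¹ v)))‖
        ≤ ρ * (al * ρ * (al * al) * (ρ * (1 * 1)))⁻¹ * (C / (T / ρ)) := by gcongr
      _ = C / al ^ 3 / T := by field_simp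
  · have e := gk_supp (sy := al * ρ) (sx := al) hγ hγ (by linarith : (1 : ℝ) ≤ C7) (by nlinarith)
      (by nlinarith) hAs u hu
    exact ⟨e.1.trans hle, e.2.1.trans hle, e.2.2⟩
  · have e := gk_supp (sy := ρ) (sx := 1) (s := al ^ 2 * 1 * γ) (by positivity) hd hC7
      (by rw [mul_one]; exact h1) (by rw [mul_one]; exact h2) hBs v hv
    rw [one_mul] at e
    exact ⟨e.1.trans hle, e.2.1.trans hle, e.2.2⟩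

theorem oscPD_of (c : ℝ) (hc : 0 < c) (m0 : ℝ) (x0 y0 : ℝ × ℝ) (C5 C7 : ℝ) (hC7 : 1 ≤ C7)
    (hloc : ∀ z0 : ℝ × ℝ, z0.1 ≠ 0 → z0.2 ≠ 0 →
      ∃ δ : ℝ, 0 < δ ∧ ∃ C : ℝ, 0 ≤ C ∧ ∀ T al m ρ γ κ : ℝ, 0 < T → Sm al m m0 δ →
      0 < ρ → ρ < δ → 0 < γ → γ < δ → 0 < κ → κ ≤ 1 → |κ - 0| < δ → m * γ ≤ C5 * κ →
      ∀ A B : V → ℂ, Measurable A → Measurable B → (∀ a, ‖A a‖ ≤ 1) → (∀ b, ‖B b‖ ≤ 1) →
      (∀ u, A u ≠ 0 → LB (al * ρ) al (al * κ * γ) y0.1 x0.1 z0.1 δ u) →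
      (∀ v, B v ≠ 0 → LB (al ^ 2 * ρ) 1 γ y0.2 x0.2 z0.2 δ v) →
      ‖FM c m T (tp A B)‖ ≤ C / T) :
    ∃ δ : ℝ, 0 < δ ∧ ∃ C : ℝ, 0 ≤ C ∧ ∀ T al m ρ κ γ d : ℝ, 0 < T → Sm al m m0 δ →
      0 < ρ → ρ < δ → 0 < κ → κ ≤ δ → 0 < γ → γ ≤ 2 * δ → 0 < d → m * γ ≤ C5 * κ →
      κ * γ ≤ C7 * d → d ≤ C7 * (κ * γ) →
      ∀ A B : V → ℂ, Measurable A → Measurable B → (∀ a, ‖A a‖ ≤ 1) → (∀ b, ‖B b‖ ≤ 1) →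
      Sp δ y0.2 x0.2 γ A → Sp δ y0.1 x0.1 d B →
      ‖FFg (phP c m al ρ) (waP c m al ρ) T (tp A B)‖ ≤ C / al / T := by
  obtain ⟨δ, hδ, C, hC, h⟩ := propF4P2_of c hc m0 x0 y0 0 C5 (2 * C7) (by linarith) hloc
  have hmin : 0 < min δ 1 := lt_min hδ one_pos
  have hle : min δ 1 / 4 ≤ δ := by linarith [min_le_left δ 1]
  refine ⟨min δ 1 / 4, by positivity, C, hC, ?_⟩
  intro T al m ρ κ γ d hT hS hρ hρδ hκ hκδ hγ hγδ hd hγκ h1 h2 A B hA hB hA1 hB1 hAs hBs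
  have hal := hS.1
  have hl := min_le_left δ 1
  have hr := min_le_right δ 1
  rw [gk_scaleP c m al ρ T hal hρ, norm_mul, Complex.norm_real, Real.norm_eq_abs,
    abs_of_pos (by positivity)]
  have key := h (T / (al ^ 2 * ρ)) al m ρ γ κ (by positivity) (gk_Sm_mono hle hS) hρ
    (by linarith) hγ (by linarith) hκ (by linarith)
    (by rw [sub_zero, abs_of_pos hκ]; linarith) hγκ
    (fun u => B (s3 (al * ρ)⁻¹ al⁻¹ al⁻¹ u)) (fun v => A (s3 (al ^ 2 * ρ)⁻¹ 1⁻¹ 1⁻¹ v))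
    (hB.comp (s3_meas _ _ _)) (hA.comp (s3_meas _ _ _)) (fun u => hB1 _) (fun v => hA1 _)
    (fun u hu => ?_) (fun v hv => ?_)
  · calc al ^ 2 * ρ * (al * ρ * (al * al) * (al ^ 2 * ρ * (1 * 1)))⁻¹ *
          ‖FM c m (T / (al ^ 2 * ρ)) (tp (fun u => B (s3 (al * ρ)⁻¹ al⁻¹ al⁻¹ u))
            (fun v => A (s3 (al ^ 2 * ρ)⁻¹ 1⁻¹ 1⁻¹ v)))‖
        ≤ al ^ 2 * ρ * (al * ρ * (al * al) * (al ^ 2 * ρ * (1 * 1)))⁻¹ *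
          (C / (T / (al ^ 2 * ρ))) := by gcongr
      _ = C / al / T := by field_simp
  · have e := gk_supp (sy := al * ρ) (sx := al) (s := κ * γ) (by positivity) hd hC7 h1 h2 hBs u hu
    rw [← mul_assoc] at e
    exact ⟨e.1.trans hle, e.2.1.trans hle, e.2.2⟩
  · have e := gk_supp (sy := al ^ 2 * ρ) (sx := 1) hγ hγ (by linarith : (1 : ℝ) ≤ C7)
      (by nlinarith) (by nlinarith) hAs v hv
    rw [one_mul] at e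
    exact ⟨e.1.trans hle, e.2.1.trans hle, e.2.2⟩

theorem oscPN_of (c : ℝ) (hc : 0 < c) (m0 : ℝ) (x0 y0 : ℝ × ℝ) (C7 : ℝ) (hC7 : 1 ≤ C7)
    (hloc : ∀ z0 : ℝ × ℝ, z0.1 ≠ 0 → z0.2 ≠ 0 →
      ∃ δ : ℝ, 0 < δ ∧ ∃ C : ℝ, 0 ≤ C ∧ ∀ T al m ρ γ κ : ℝ, 0 < T → Sm al m m0 δ →
      0 < ρ → ρ < δ → 0 < γ → γ < δ → 0 < κ → κ ≤ 1 → |κ - 1| < δ → m * γ ≤ 1 * κ →
      ∀ A B : V → ℂ, Measurable A → Measurable B → (∀ a, ‖A a‖ ≤ 1) → (∀ b, ‖B b‖ ≤ 1) →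
      (∀ u, A u ≠ 0 → LB (al * ρ) al (al * κ * γ) y0.1 x0.1 z0.1 δ u) →
      (∀ v, B v ≠ 0 → LB (al ^ 2 * ρ) 1 γ y0.2 x0.2 z0.2 δ v) →
      ‖FM c m T (tp A B)‖ ≤ C / T) :
    ∃ δ : ℝ, 0 < δ ∧ ∃ C : ℝ, 0 ≤ C ∧ ∀ T al m ρ γ d : ℝ, 0 < T → Sm al m m0 δ →
      0 < ρ → ρ < δ → 0 < γ → γ ≤ 2 * δ → 0 < d → γ ≤ C7 * d → d ≤ C7 * γ →
      ∀ A B : V → ℂ, Measurable A → Measurable B → (∀ a, ‖A a‖ ≤ 1) → (∀ b, ‖B b‖ ≤ 1) →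
      Sp δ y0.2 x0.2 γ A → Sp δ y0.1 x0.1 d B →
      ‖FFg (phP c m al ρ) (waP c m al ρ) T (tp A B)‖ ≤ C / al / T := by
  obtain ⟨δ, hδ, C, hC, h⟩ := propF4P2_of c hc m0 x0 y0 1 1 (2 * C7) (by linarith) hloc
  have hmin : 0 < min δ 1 := lt_min hδ one_pos
  have hle : min δ 1 / 4 ≤ δ := by linarith [min_le_left δ 1]
  refine ⟨min δ 1 / 4, by positivity, C, hC, ?_⟩
  intro T al m ρ γ d hT hS hρ hρδ hγ hγδ hd h1 h2 A B hA hB hA1 hB1 hAs hBs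
  have hal := hS.1
  have hl := min_le_left δ 1
  have hr := min_le_right δ 1
  have hm0 := hS.2.2.1
  have hm1 := hS.2.2.2.1
  rw [gk_scaleP c m al ρ T hal hρ, norm_mul, Complex.norm_real, Real.norm_eq_abs,
    abs_of_pos (by positivity)]
  have key := h (T / (al ^ 2 * ρ)) al m ρ γ 1 (by positivity) (gk_Sm_mono hle hS) hρ
    (by linarith) hγ (by linarith) one_pos le_rfl (by simpa using hδ) (by nlinarith)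
    (fun u => B (s3 (al * ρ)⁻¹ al⁻¹ al⁻¹ u)) (fun v => A (s3 (al ^ 2 * ρ)⁻¹ 1⁻¹ 1⁻¹ v))
    (hB.comp (s3_meas _ _ _)) (hA.comp (s3_meas _ _ _)) (fun u => hB1 _) (fun v => hA1 _)
    (fun u hu => ?_) (fun v hv => ?_)
  · calc al ^ 2 * ρ * (al * ρ * (al * al) * (al ^ 2 * ρ * (1 * 1)))⁻¹ *
          ‖FM c m (T / (al ^ 2 * ρ)) (tp (fun u => B (s3 (al * ρ)⁻¹ al⁻¹ al⁻¹ u))
            (fun v => A (s3 (al ^ 2 * ρ)⁻¹ 1⁻¹ 1⁻¹ v)))‖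
        ≤ al ^ 2 * ρ * (al * ρ * (al * al) * (al ^ 2 * ρ * (1 * 1)))⁻¹ *
          (C / (T / (al ^ 2 * ρ))) := by gcongr
      _ = C / al / T := by field_simp
  · have e := gk_supp (sy := al * ρ) (sx := al) (s := 1 * γ) (by positivity) hd hC7
      (by rw [one_mul]; exact h1) (by rw [one_mul]; exact h2) hBs u hu
    rw [← mul_assoc] at e
    exact ⟨e.1.trans hle, e.2.1.trans hle, e.2.2⟩
  · have e := gk_supp (sy := al ^ 2 * ρ) (sx := 1) hγ hγ (by linarith : (1 : ℝ) ≤ C7)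
      (by nlinarith) (by nlinarith) hAs v hv
    rw [one_mul] at e
    exact ⟨e.1.trans hle, e.2.1.trans hle, e.2.2⟩

end Pool.Agent.SDT.N1M

end -- N1M.K5

section -- N1M.I4

/-!
N1M, Proposition I: end of the proof.
-/

namespace Pool.Agent.SDT.N1M

open MeasureTheory Set Metric Pool.Agent.SDT.MP_6cbfb8_an Pool.Agent.SDT.MST Pool.Agent.SDT.N1
open Pool.Agent.SDT.N1F Pool.Agent.SDT.N1G
open scoped ENNReal Real ContDiff Topology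

/-- The phase of a rectangle in scaled variables. -/
theorem FrM_nf (c : ℝ) (hc : 0 < c) (al m ρ₁ ρ₂ γ₁ γ₂ κ₁ : ℝ) (a b : V)
    (h : okI4 c (pI (al ^ 2) m ρ₁ γ₁ ρ₂ γ₂ κ₁, a, b)) :
    FrM c m (Sc3 (al * ρ₁) al (al * γ₁) a, Sc3 ρ₂ 1 γ₂ b) =
      al ^ 2 * ρ₁ * γ₁ * M11 c (pI (al ^ 2) m ρ₁ γ₁ ρ₂ γ₂ κ₁, a, b) +
      ρ₂ * γ₂ * M22 c (pI (al ^ 2) m ρ₁ γ₁ ρ₂ γ₂ κ₁, a, b) +
      al ^ 2 * ρ₁ * γ₂ * M12 c (pI (al ^ 2) m ρ₁ γ₁ ρ₂ γ₂ κ₁, a, b) +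
      al ^ 2 * γ₁ * ρ₂ * M21 c (pI (al ^ 2) m ρ₁ γ₁ ρ₂ γ₂ κ₁, a, b) := by
  obtain ⟨h1, h2, h3⟩ := h
  set p : P7 := pI (al ^ 2) m ρ₁ γ₁ ρ₂ γ₂ κ₁ with hp
  have e0 : p 0 = al ^ 2 := rfl
  have e1 : p 1 = m := rfl
  have e2 : p 2 = ρ₁ := rfl
  have e3 : p 3 = γ₁ := rfl
  have e4 : p 4 = ρ₂ := rfl
  have e5 : p 5 = γ₂ := rfl
  have x1 : Xi false false (prA (p, a, b)) = a.2.1 := by
    simp [Xi, prA, bt]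
  have x2 : Xi true false (prA (p, a, b)) = a.2.1 - ρ₁ * a.1 := by
    simp [Xi, prA, bt, e2]
  have x3 : Xi false true (prA (p, a, b)) = a.2.1 - γ₁ * a.2.2 := by
    simp [Xi, prA, bt, e3]
  have x4 : Xi true true (prA (p, a, b)) = a.2.1 - ρ₁ * a.1 - γ₁ * a.2.2 := by
    simp [Xi, prA, bt, e2, e3]
  have w1 : Wi false false (prB (p, a, b)) = b.2.1 := by
    simp [Wi, prB, bt]
  have w2 : Wi true false (prB (p, a, b)) = b.2.1 - ρ₂ * b.1 := by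
    simp [Wi, prB, bt, e4]
  have w3 : Wi false true (prB (p, a, b)) = b.2.1 - γ₂ * b.2.2 := by
    simp [Wi, prB, bt, e5]
  have w4 : Wi true true (prB (p, a, b)) = b.2.1 - ρ₂ * b.1 - γ₂ * b.2.2 := by
    simp [Wi, prB, bt, e4, e5]
  have H : ∀ x ∈ ({a.2.1, a.2.1 - ρ₁ * a.1, a.2.1 - γ₁ * a.2.2, a.2.1 - ρ₁ * a.1 - γ₁ * a.2.2} :
      Set ℝ), ∀ w ∈ ({b.2.1, b.2.1 - ρ₂ * b.1, b.2.1 - γ₂ * b.2.2,
        b.2.1 - ρ₂ * b.1 - γ₂ * b.2.2} : Set ℝ),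
      c ^ 2 / 8 ≤ 1 - al ^ 2 * x ^ 2 - sM m w := by
    have k := h3
    simp only [Bool.forall_bool, x1, x2, x3, x4, w1, w2, w3, w4, e0, e1] at k
    obtain ⟨⟨⟨⟨k1, k2⟩, k3, k4⟩, ⟨k5, k6⟩, k7, k8⟩, ⟨⟨k9, k10⟩, k11, k12⟩, ⟨k13, k14⟩,
      k15, k16⟩ := k
    rintro x (rfl | rfl | rfl | rfl) w (rfl | rfl | rfl | rfl) <;> linarith
  have T1 := E1_id c hc (al ^ 2) a.2.1 (ρ₁ * a.1) (γ₁ * a.2.2)
    (sM m (b.2.1 - γ₂ * b.2.2)) (H _ (by simp) _ (by simp)) (H _ (by simp) _ (by simp))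
    (H _ (by simp) _ (by simp)) (H _ (by simp) _ (by simp))
  have T2 := G1_id c hc m (al ^ 2 * (a.2.1 - ρ₁ * a.1) ^ 2) b.2.1 (ρ₂ * b.1) (γ₂ * b.2.2)
    (H (a.2.1 - ρ₁ * a.1) (by simp) b.2.1 (by simp))
    (H (a.2.1 - ρ₁ * a.1) (by simp) (b.2.1 - ρ₂ * b.1) (by simp))
    (H (a.2.1 - ρ₁ * a.1) (by simp) (b.2.1 - γ₂ * b.2.2) (by simp))
    (H (a.2.1 - ρ₁ * a.1) (by simp) (b.2.1 - ρ₂ * b.1 - γ₂ * b.2.2) (by simp))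
  have T3 := G3_id c hc m (al ^ 2) a.2.1 (ρ₁ * a.1) b.2.1 (γ₂ * b.2.2)
    (H _ (by simp) _ (by simp)) (H _ (by simp) _ (by simp)) (H _ (by simp) _ (by simp))
    (H _ (by simp) _ (by simp))
  have T4 := G3_id c hc m (al ^ 2) (a.2.1 - ρ₁ * a.1) (γ₁ * a.2.2)
    (b.2.1 - γ₂ * b.2.2) (ρ₂ * b.1)
    (H _ (by simp) _ (by simp)) (H _ (by simp) _ (by simp))
    (by have := H (a.2.1 - ρ₁ * a.1) (by simp) (b.2.1 - ρ₂ * b.1 - γ₂ * b.2.2) (by simp)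
        rw [show b.2.1 - γ₂ * b.2.2 - ρ₂ * b.1 = b.2.1 - ρ₂ * b.1 - γ₂ * b.2.2 by ring]
        exact this)
    (by have := H (a.2.1 - ρ₁ * a.1 - γ₁ * a.2.2) (by simp)
          (b.2.1 - ρ₂ * b.1 - γ₂ * b.2.2) (by simp)
        rw [show b.2.1 - γ₂ * b.2.2 - ρ₂ * b.1 = b.2.1 - ρ₂ * b.1 - γ₂ * b.2.2 by ring]
        exact this)
  rw [show b.2.1 - γ₂ * b.2.2 - ρ₂ * b.1 = b.2.1 - ρ₂ * b.1 - γ₂ * b.2.2 by ring] at T4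
  unfold M11 M22 M12 M21
  rw [x1, x2, x3, x4, w1, w2, w3, w4]
  dsimp only
  rw [e0, e1]
  have hq : ∀ X W X' W' : ℝ, X' = al * X → W' = W →
      qm c m (X', W') = Qs c (al ^ 2 * X ^ 2) (sM m W) := by
    intro X W X' W' h1 h2
    rw [h1, h2]
    unfold qm Qs sM
    congr 1
    simp only
    ring
  have hFr : FrM c m (Sc3 (al * ρ₁) al (al * γ₁) a, Sc3 ρ₂ 1 γ₂ b) =
      Qs c (al ^ 2 * a.2.1 ^ 2) (sM m b.2.1) -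
      Qs c (al ^ 2 * (a.2.1 - ρ₁ * a.1) ^ 2) (sM m (b.2.1 - ρ₂ * b.1)) -
      Qs c (al ^ 2 * (a.2.1 - γ₁ * a.2.2) ^ 2) (sM m (b.2.1 - γ₂ * b.2.2)) +
      Qs c (al ^ 2 * (a.2.1 - ρ₁ * a.1 - γ₁ * a.2.2) ^ 2)
        (sM m (b.2.1 - ρ₂ * b.1 - γ₂ * b.2.2)) := by
    unfold FrM Fg dif N1G.px pz Sc3
    simp only [Prod.mk_sub_mk]
    rw [hq a.2.1 b.2.1 _ _ rfl (by ring),
      hq (a.2.1 - ρ₁ * a.1) (b.2.1 - ρ₂ * b.1) _ _ (by ring) (by ring),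
      hq (a.2.1 - γ₁ * a.2.2) (b.2.1 - γ₂ * b.2.2) _ _ (by ring) (by ring),
      hq (a.2.1 - ρ₁ * a.1 - γ₁ * a.2.2) (b.2.1 - ρ₂ * b.1 - γ₂ * b.2.2) _ _ (by ring) (by ring)]
    ring
  rw [hFr]
  linear_combination T1 + T2 + T3 + T4

/-- The amplitude in scaled variables. -/
lemma WM_eq (c al m ρ₁ ρ₂ γ₁ γ₂ k : ℝ) (a b : V)
    (h : ∀ e f : Bool, 0 < Wi e f (prB ((pI (al ^ 2) m ρ₁ γ₁ ρ₂ γ₂ k, a, b) : P7 × V × V)) ∧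
      Wi e f (prB ((pI (al ^ 2) m ρ₁ γ₁ ρ₂ γ₂ k, a, b) : P7 × V × V)) < 8) :
    Wg (dam (wm c m)) (Sc3 (al * ρ₁) al (al * γ₁) a, Sc3 ρ₂ 1 γ₂ b) =
      WM c (pI (al ^ 2) m ρ₁ γ₁ ρ₂ γ₂ k, a, b) := by
  set p : P7 := pI (al ^ 2) m ρ₁ γ₁ ρ₂ γ₂ k with hp
  have e0 : p 0 = al ^ 2 := rfl
  have e1 : p 1 = m := rfl
  have e2 : p 2 = ρ₁ := rfl
  have e3 : p 3 = γ₁ := rfl
  have e4 : p 4 = ρ₂ := rfl
  have e5 : p 5 = γ₂ := rfl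
  have x1 : Xi false false (prA (p, a, b)) = a.2.1 := by
    simp [Xi, prA, bt]
  have x2 : Xi true false (prA (p, a, b)) = a.2.1 - ρ₁ * a.1 := by
    simp [Xi, prA, bt, e2]
  have x3 : Xi false true (prA (p, a, b)) = a.2.1 - γ₁ * a.2.2 := by
    simp [Xi, prA, bt, e3]
  have x4 : Xi true true (prA (p, a, b)) = a.2.1 - ρ₁ * a.1 - γ₁ * a.2.2 := by
    simp [Xi, prA, bt, e2, e3]
  have w1 : Wi false false (prB (p, a, b)) = b.2.1 := by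
    simp [Wi, prB, bt]
  have w2 : Wi true false (prB (p, a, b)) = b.2.1 - ρ₂ * b.1 := by
    simp [Wi, prB, bt, e4]
  have w3 : Wi false true (prB (p, a, b)) = b.2.1 - γ₂ * b.2.2 := by
    simp [Wi, prB, bt, e5]
  have w4 : Wi true true (prB (p, a, b)) = b.2.1 - ρ₂ * b.1 - γ₂ * b.2.2 := by
    simp [Wi, prB, bt, e4, e5]
  have g1 := h false false
  have g2 := h true false
  have g3 := h false true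
  have g4 := h true true
  rw [w1] at g1
  rw [w2] at g2
  rw [w3] at g3
  rw [w4] at g4
  have hw : ∀ X W X' W' : ℝ, X' = al * X → W' = W → (0 < W ∧ W < 8) →
      wm c m (X', W') = sma c (1 - al ^ 2 * X ^ 2 - sM m W) := by
    intro X W X' W' h1 h2 h3
    rw [h1, h2, wm_eq c m (al * X, W) h3.1.le h3.2.le]
    unfold sM
    congr 1
    simp only
    ring
  unfold WM Wg dam N1G.px pz Sc3
  rw [x1, x2, x3, x4, w1, w2, w3, w4]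
  simp only [Prod.mk_sub_mk, e0, e1]
  rw [hw a.2.1 b.2.1 _ _ rfl (by ring) g1,
    hw (a.2.1 - ρ₁ * a.1) (b.2.1 - ρ₂ * b.1) _ _ (by ring) (by ring) g2,
    hw (a.2.1 - γ₁ * a.2.2) (b.2.1 - γ₂ * b.2.2) _ _ (by ring) (by ring) g3,
    hw (a.2.1 - ρ₁ * a.1 - γ₁ * a.2.2) (b.2.1 - ρ₂ * b.1 - γ₂ * b.2.2) _ _ (by ring) (by ring) g4]

theorem propI4 (c : ℝ) (hc : 0 < c) (hc1 : c ≤ 1) (m0 : ℝ) (x0 y0 z0 : ℝ × ℝ) (hb : Bm m0 x0)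
    (hy1 : y0.1 ≠ 0) (hy2 : y0.2 ≠ 0) (hz1 : z0.1 ≠ 0) (hz2 : z0.2 ≠ 0) (k1 : ℝ) (hk1 : 0 ≤ k1) :
    ∃ δ : ℝ, 0 < δ ∧ ∃ C : ℝ, 0 ≤ C ∧ ∀ T al m ρ₁ ρ₂ γ₁ γ₂ : ℝ, 0 < T → Sm al m m0 δ →
      0 < ρ₁ → ρ₁ < δ → 0 < ρ₂ → ρ₂ < δ → 0 < γ₁ → γ₁ < δ → 0 < γ₂ → γ₂ < δ →
      al ^ 2 * ρ₁ * γ₁ = ρ₂ * γ₂ → |γ₂ / γ₁ - k1| < δ → ρ₂ / ρ₁ ≤ γ₂ / γ₁ →
      ∀ A B : V → ℂ, Measurable A → Measurable B → (∀ a, ‖A a‖ ≤ 1) → (∀ b, ‖B b‖ ≤ 1) →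
      (∀ u, A u ≠ 0 → LB (al * ρ₁) al (al * γ₁) y0.1 x0.1 z0.1 δ u) →
      (∀ v, B v ≠ 0 → LB ρ₂ 1 γ₂ y0.2 x0.2 z0.2 δ v) →
      ‖FM c m T (tp A B)‖ ≤ C / T := by
  obtain ⟨r, hrp, g, B1, hgid, δh, hδh, Ch, hCh, H⟩ := M1_loc c hc hc1 m0 x0 y0 z0 hb hy1 hy2 hz1
    hz2 k1 hk1
  set R : ℝ := min r δh with hR
  have hRp : 0 < R := lt_min hrp hδh
  set δ2 : ℝ := if 0 < k1 then min (k1 / 2) (δh * k1 ^ 2 / 8) else 1 with hδ2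
  have hδ2p : 0 < δ2 := by
    rw [hδ2]
    split_ifs with h
    · exact lt_min (by positivity) (by positivity)
    · exact one_pos
  refine ⟨min (min (R / 2) 1) δ2, lt_min (lt_min (by positivity) one_pos) hδ2p, Ch * (k1 + 1),
    by positivity, ?_⟩
  intro T al m ρ₁ ρ₂ γ₁ γ₂ hT hSz hρ₁ hρ₁' hρ₂ hρ₂' hγ₁ hγ₁' hγ₂ hγ₂' heq hk hle A B hA hB hA1
    hB1 hAs hBs
  set δ : ℝ := min (min (R / 2) 1) δ2 with hδ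
  have hδR : δ ≤ R / 2 := (min_le_left _ _).trans (min_le_left _ _)
  have hδ1 : δ ≤ 1 := (min_le_left _ _).trans (min_le_right _ _)
  have hδδ2 : δ ≤ δ2 := min_le_right _ _
  have hRr : R ≤ r := min_le_left _ _
  have hRh : R ≤ δh := min_le_right _ _
  obtain ⟨hal, halδ, hm0, hm1, hmm⟩ := hSz
  have hal1 : al < 1 := by linarith
  have hA2 : al ^ 2 < δ := by nlinarith
  set k : ℝ := γ₂ / γ₁ with hkdef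
  set kk : ℝ := ρ₂ / ρ₁ with hkkdef
  have hkp : 0 < k := by positivity
  have hkkp : 0 < kk := by positivity
  have hprod : k * kk = al ^ 2 := by
    rw [hkdef, hkkdef]
    field_simp
    linear_combination -heq
  set κ : ℝ := k / (k1 + 1) with hκ
  set ε : ℝ := kk / k with hε
  have hκp : 0 < κ := by positivity
  have hεp : 0 < ε := by positivity
  have hk1p : 0 < k1 + 1 := by positivity
  have hκ1 : κ ≤ 1 := by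
    rw [hκ, div_le_one hk1p]
    have := (abs_lt.1 hk).2
    linarith
  have hε1 : ε ≤ 1 := by
    rw [hε, div_le_one hkp]
    exact hle
  have hor : ε < δh ∨ κ < δh := by
    by_cases h0 : 0 < k1
    · left
      rw [hδ2, if_pos h0] at hδδ2
      have e1 : δ ≤ k1 / 2 := hδδ2.trans (min_le_left _ _)
      have e2 : δ ≤ δh * k1 ^ 2 / 8 := hδδ2.trans (min_le_right _ _)
      have e3 : k1 / 2 ≤ k := by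
        have := (abs_lt.1 hk).1
        linarith
      have e4 : ε * k ^ 2 = al ^ 2 := by
        rw [hε, ← hprod]
        field_simp
      by_contra h5
      push Not at h5
      have e5 : δh * (k1 / 2) ^ 2 ≤ ε * k ^ 2 := by
        apply mul_le_mul h5 _ (by positivity) hεp.le
        exact pow_le_pow_left₀ (by positivity) e3 2
      nlinarith [mul_pos hδh (pow_pos h0 2)]
    · right
      have h1 : k1 = 0 := le_antisymm (not_lt.1 h0) hk1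
      rw [hκ, h1, zero_add, div_one]
      rw [h1, sub_zero, abs_of_pos hkp] at hk
      linarith
  have hsq : √ε = al / k := by
    have : ε = (al / k) ^ 2 := by
      rw [hε, div_pow, ← hprod]
      field_simp
    rw [this]
    exact Real.sqrt_sq (by positivity)
  set p : P7 := pI (al ^ 2) m ρ₁ γ₁ ρ₂ γ₂ k with hp
  have hpR : p ∈ ball (pI 0 m0 0 0 0 0 k1) R := by
    apply pI_dist
    · exact hRp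
    · rw [sub_zero, abs_of_pos (by positivity)]; linarith
    · linarith
    · rw [sub_zero, abs_of_pos hρ₁]; linarith
    · rw [sub_zero, abs_of_pos hγ₁]; linarith
    · rw [sub_zero, abs_of_pos hρ₂]; linarith
    · rw [sub_zero, abs_of_pos hγ₂]; linarith
    · linarith
  have hAb : ∀ a, A (Sc3 (al * ρ₁) al (al * γ₁) a) ≠ 0 → a ∈ ball ((y0.1, x0.1, z0.1) : V) R :=
    fun a ha => sc_ball _ _ _ _ _ _ δ R (by positivity) hal (by positivity) (by linarith) a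
      (hAs _ ha)
  have hBb : ∀ b, B (Sc3 ρ₂ 1 γ₂ b) ≠ 0 → b ∈ ball ((y0.2, x0.2, z0.2) : V) R :=
    fun b hb => sc_ball _ _ _ _ _ _ δ R hρ₂ one_pos hγ₂ (by linarith) b
      (hBs _ hb)
  have hm : 0 < al ^ 2 * ρ₁ * γ₁ := by positivity
  rw [FM_nf c m T hT (al * ρ₁) al (al * γ₁) ρ₂ 1 γ₂ (by positivity) hal
    (by positivity) hρ₂ one_pos hγ₂ A B (al ^ 2 * ρ₁ * γ₁)
    (fun q => -UM c (p, q.1, q.2))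
    (fun q => omM (p, q.1) - sgM c (p, q.2) + κ * ((k1 + 1) * alM (p, q.1) *
          beM c (p, q.2) + ε * ((k1 + 1) * g (p, q.1, q.2))))
    (fun q => WM c (p, q.1, q.2)) ?_]
  · have h1 := H p (ball_subset_ball hRh hpR) κ ε (T * (al ^ 2 * ρ₁ * γ₁)) hκp hκ1 hεp hε1 hor
      (by positivity) (fun a => A (Sc3 (al * ρ₁) al (al * γ₁) a))
      (fun b => B (Sc3 ρ₂ 1 γ₂ b))
      (hA.comp (by unfold Sc3; fun_prop)) (hB.comp (by unfold Sc3; fun_prop))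
      (fun a => hA1 _) (fun b => hB1 _)
      (fun a ha => ball_subset_ball hRh (hAb a ha)) (fun b hb => ball_subset_ball hRh (hBb b hb))
    rw [norm_mul, Complex.norm_real, Real.norm_eq_abs, abs_of_pos (by positivity)]
    refine (mul_le_mul_of_nonneg_left h1 (by positivity)).trans (le_of_eq ?_)
    rw [hsq, hκ]
    have hkne := hkp.ne'
    have e1 : (T * (al ^ 2 * ρ₁ * γ₁)) ^ 2 * (k / (k1 + 1)) * (al / k) =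
        T ^ 2 * (al ^ 2 * ρ₁ * γ₁) * (ρ₂ * γ₂) * al / (k1 + 1) := by
      rw [← heq]
      field_simp
    rw [e1]
    field_simp
  · intro a b ha hb
    have hx : ((p, a, b) : P7 × V × V) ∈ ball ((pI 0 m0 0 0 0 0 k1, (y0.1, x0.1, z0.1),
        (y0.2, x0.2, z0.2)) : P7 × V × V) r := by
      rw [mem_ball, Prod.dist_eq, Prod.dist_eq]
      exact max_lt ((mem_ball.1 hpR).trans_le hRr) (max_lt ((mem_ball.1 (hAb a ha)).trans_le hRr)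
        ((mem_ball.1 (hBb b hb)).trans_le hRr))
    obtain ⟨hok, hW⟩ := B1 _ hx
    have hU := UM_pos c hc _ hok
    refine ⟨neg_ne_zero.2 hU.ne', ?_, ?_⟩
    · have h1 := FrM_nf c hc al m ρ₁ ρ₂ γ₁ γ₂ k a b hok
      have h2 := hgid _ hx kk (by
        show al ^ 2 = k * kk
        exact hprod.symm)
      have h3 : FrM c m (Sc3 (al * ρ₁) al (al * γ₁) a, Sc3 ρ₂ 1 γ₂ b) =
          al ^ 2 * ρ₁ * γ₁ * M11 c (p, a, b) + ρ₂ * γ₂ * M22 c (p, a, b) +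
          al ^ 2 * ρ₁ * γ₂ * M12 c (p, a, b) +
          al ^ 2 * γ₁ * ρ₂ * M21 c (p, a, b) := h1
      rw [h3]
      have h4 : M11 c (p, a, b) + M22 c (p, a, b) + k * M12 c (p, a, b) + kk * M21 c (p, a, b) =
        -(UM c (p, a, b) * (omM (p, a) - sgM c (p, b) + k * (alM (p, a) * beM c (p, b)) +
            kk * g (p, a, b))) := h2
      have e1 : al ^ 2 * ρ₁ * γ₂ = al ^ 2 * ρ₁ * γ₁ * k := by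
        rw [hkdef]
        field_simp
      have e2 : al ^ 2 * γ₁ * ρ₂ = al ^ 2 * ρ₁ * γ₁ * kk := by
        rw [hkkdef]
        field_simp
      have e3 : κ * (k1 + 1) = k := by
        rw [hκ]
        field_simp
      have e4 : κ * (k1 + 1) * ε = kk := by
        rw [e3, hε]
        field_simp
      rw [e1, e2, ← heq]
      show _ = al ^ 2 * ρ₁ * γ₁ * (-UM c (p, a, b) * (omM (p, a) - sgM c (p, b) +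
        κ * ((k1 + 1) * alM (p, a) * beM c (p, b) + ε * ((k1 + 1) * g (p, a, b)))))
      linear_combination (al ^ 2 * ρ₁ * γ₁) * h4 + (al ^ 2 * ρ₁ * γ₁) * UM c (p, a, b) *
        (alM (p, a) * beM c (p, b)) * e3 + (al ^ 2 * ρ₁ * γ₁) * UM c (p, a, b) *
        g (p, a, b) * e4
    · exact WM_eq c al m ρ₁ ρ₂ γ₁ γ₂ k a b hW

end Pool.Agent.SDT.N1M

end -- N1M.I4

section -- N1M.K6

/-!
N1M, block K: the oscillatory estimates, final statements.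
-/

namespace Pool.Agent.SDT.N1M

open MeasureTheory Set Metric Pool.Agent.SDT.MP_6cbfb8_an Pool.Agent.SDT.MST Pool.Agent.SDT.N1
open Pool.Agent.SDT.N1F Pool.Agent.SDT.N1G
open scoped ENNReal Real ContDiff

theorem propI42 (c : ℝ) (hc : 0 < c) (hc1 : c ≤ 1) (K : ℝ) (hK : 1 ≤ K) :
    ∃ δ : ℝ, 0 < δ ∧ ∃ C : ℝ, 0 ≤ C ∧ ∀ T al m ρ₁ ρ₂ γ₁ γ₂ : ℝ, 0 < T →
      0 < al → al ≤ δ → 0 ≤ m → m ≤ 1 →
      0 < ρ₁ → ρ₁ < δ → 0 < ρ₂ → ρ₂ < δ → 0 < γ₁ → γ₁ < δ → 0 < γ₂ → γ₂ < δ →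
      al ^ 2 * ρ₁ * γ₁ ≤ K * (ρ₂ * γ₂) → ρ₂ * γ₂ ≤ K * (al ^ 2 * ρ₁ * γ₁) →
      γ₂ ≤ K * γ₁ → ρ₂ ≤ K * ρ₁ →
      ∀ A B : V → ℂ, Measurable A → Measurable B → (∀ a, ‖A a‖ ≤ 1) → (∀ b, ‖B b‖ ≤ 1) →
      (∀ u, A u ≠ 0 → GB (al * ρ₁) al (al * γ₁) K u) → (∀ v, B v ≠ 0 → GR m ρ₂ γ₂ K v) →
      ‖FM c m T (tp A B)‖ ≤ C / T :=
  propI42_of c hc K hK (fun m0 x0 y0 z0 hb hy1 hy2 hz1 hz2 k1 hk1 =>
    propI4 c hc hc1 m0 x0 y0 z0 hb hy1 hy2 hz1 hz2 k1 hk1)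

theorem oscND (c : ℝ) (hc : 0 < c) (hc1 : c ≤ 1) (m0 : ℝ) (x0 y0 : ℝ × ℝ) (hb : Bm m0 x0)
    (hy1 : y0.1 ≠ 0) (hy2 : y0.2 ≠ 0) (C5 C7 : ℝ) (hC7 : 1 ≤ C7) :
    ∃ δ : ℝ, 0 < δ ∧ ∃ C : ℝ, 0 ≤ C ∧ ∀ T al m ρ κ γ d : ℝ, 0 < T → Sm al m m0 δ →
      0 < ρ → ρ < δ → 0 < κ → κ ≤ δ → 0 < γ → γ ≤ 2 * δ → 0 < d → γ ≤ C5 * κ →
      κ * (al ^ 2 * γ) ≤ C7 * d → d ≤ C7 * (κ * (al ^ 2 * γ)) →
      ∀ A B : V → ℂ, Measurable A → Measurable B → (∀ a, ‖A a‖ ≤ 1) → (∀ b, ‖B b‖ ≤ 1) →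
      Sp δ y0.1 x0.1 γ A → Sp δ y0.2 x0.2 d B →
      ‖FFg (phN c m al ρ) (waN c m al ρ) T (tp A B)‖ ≤ C / al ^ 3 / T :=
  oscND_of c hc m0 x0 y0 C5 C7 hC7 (fun z0 hz1 hz2 =>
    propF4N c hc hc1 m0 x0 y0 z0 hb hy1 hy2 hz1 hz2 0 le_rfl zero_le_one C5)

theorem oscNN (c : ℝ) (hc : 0 < c) (hc1 : c ≤ 1) (m0 : ℝ) (x0 y0 : ℝ × ℝ) (hb : Bm m0 x0)
    (hy1 : y0.1 ≠ 0) (hy2 : y0.2 ≠ 0) (C7 : ℝ) (hC7 : 1 ≤ C7) :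
    ∃ δ : ℝ, 0 < δ ∧ ∃ C : ℝ, 0 ≤ C ∧ ∀ T al m ρ γ d : ℝ, 0 < T → Sm al m m0 δ →
      0 < ρ → ρ < δ → 0 < γ → γ ≤ 2 * δ → 0 < d →
      al ^ 2 * γ ≤ C7 * d → d ≤ C7 * (al ^ 2 * γ) →
      ∀ A B : V → ℂ, Measurable A → Measurable B → (∀ a, ‖A a‖ ≤ 1) → (∀ b, ‖B b‖ ≤ 1) →
      Sp δ y0.1 x0.1 γ A → Sp δ y0.2 x0.2 d B →
      ‖FFg (phN c m al ρ) (waN c m al ρ) T (tp A B)‖ ≤ C / al ^ 3 / T :=
  oscNN_of c hc m0 x0 y0 C7 hC7 (fun z0 hz1 hz2 =>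
    propF4N c hc hc1 m0 x0 y0 z0 hb hy1 hy2 hz1 hz2 1 zero_le_one le_rfl 1)

theorem oscPD (c : ℝ) (hc : 0 < c) (hc1 : c ≤ 1) (m0 : ℝ) (x0 y0 : ℝ × ℝ) (hb : Bm m0 x0)
    (hy1 : y0.1 ≠ 0) (hy2 : y0.2 ≠ 0) (C5 C7 : ℝ) (hC7 : 1 ≤ C7) :
    ∃ δ : ℝ, 0 < δ ∧ ∃ C : ℝ, 0 ≤ C ∧ ∀ T al m ρ κ γ d : ℝ, 0 < T → Sm al m m0 δ →
      0 < ρ → ρ < δ → 0 < κ → κ ≤ δ → 0 < γ → γ ≤ 2 * δ → 0 < d → m * γ ≤ C5 * κ →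
      κ * γ ≤ C7 * d → d ≤ C7 * (κ * γ) →
      ∀ A B : V → ℂ, Measurable A → Measurable B → (∀ a, ‖A a‖ ≤ 1) → (∀ b, ‖B b‖ ≤ 1) →
      Sp δ y0.2 x0.2 γ A → Sp δ y0.1 x0.1 d B →
      ‖FFg (phP c m al ρ) (waP c m al ρ) T (tp A B)‖ ≤ C / al / T :=
  oscPD_of c hc m0 x0 y0 C5 C7 hC7 (fun z0 hz1 hz2 =>
    propF4P c hc hc1 m0 x0 y0 z0 hb hy1 hy2 hz1 hz2 0 le_rfl zero_le_one C5)

theorem oscPN (c : ℝ) (hc : 0 < c) (hc1 : c ≤ 1) (m0 : ℝ) (x0 y0 : ℝ × ℝ) (hb : Bm m0 x0)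
    (hy1 : y0.1 ≠ 0) (hy2 : y0.2 ≠ 0) (C7 : ℝ) (hC7 : 1 ≤ C7) :
    ∃ δ : ℝ, 0 < δ ∧ ∃ C : ℝ, 0 ≤ C ∧ ∀ T al m ρ γ d : ℝ, 0 < T → Sm al m m0 δ →
      0 < ρ → ρ < δ → 0 < γ → γ ≤ 2 * δ → 0 < d → γ ≤ C7 * d → d ≤ C7 * γ →
      ∀ A B : V → ℂ, Measurable A → Measurable B → (∀ a, ‖A a‖ ≤ 1) → (∀ b, ‖B b‖ ≤ 1) →
      Sp δ y0.2 x0.2 γ A → Sp δ y0.1 x0.1 d B →
      ‖FFg (phP c m al ρ) (waP c m al ρ) T (tp A B)‖ ≤ C / al / T :=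
  oscPN_of c hc m0 x0 y0 C7 hC7 (fun z0 hz1 hz2 =>
    propF4P c hc hc1 m0 x0 y0 z0 hb hy1 hy2 hz1 hz2 1 zero_le_one le_rfl 1)

end Pool.Agent.SDT.N1M

end -- N1M.K6
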