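import Pool.Agent.SDT.B18
import Pool.Agent.SDT.B66
import Pool.Agent.SDT.B67

set_option autoImplicit false

namespace Pool.Agent.SDT.MP_6cbfb8_an
end Pool.Agent.SDT.MP_6cbfb8_an
namespace Pool.Agent.SDT.MST
end Pool.Agent.SDT.MST
namespace Pool.Agent.SDT.N1
end Pool.Agent.SDT.N1
namespace Pool.Agent.SDT.N1F
end Pool.Agent.SDT.N1F
namespace Pool.Agent.SDT.N1G
end Pool.Agent.SDT.N1G
namespace Pool.Agent.SDT.N1M
end Pool.Agent.SDT.N1M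

section -- N1F.A6y

/-!
N1F, block A6: from caps to dyadic pieces.
-/

namespace Pool.Agent.SDT.N1F

open MeasureTheory Set Metric Pool.Agent.SDT.MP_6cbfb8_an Pool.Agent.SDT.MST Pool.Agent.SDT.N1
open scoped ENNReal Real ContDiff

/-- the caps -/
noncomputable def a6_cp (al r : ℝ) (G : ℝ → ℂ) (i : ℕ) (a : ℝ) : ℂ :=
  g2_cut (fun a : ℝ => a / al) 2 r G i a

theorem a6_cp_meas (al r : ℝ) {G : ℝ → ℂ} (hG : Measurable G) (i : ℕ) :
    Measurable (a6_cp al r G i) :=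
  g2_cut_meas (by fun_prop) _ _ hG _

theorem a6_cp_norm (al r : ℝ) {G : ℝ → ℂ} (hG : ∀ a, ‖G a‖ ≤ 1) (i : ℕ) (a : ℝ) :
    ‖a6_cp al r G i a‖ ≤ 1 := g2_cut_norm _ _ _ hG _ _

theorem a6_cp_abs {al a : ℝ} (hal : 0 < al) (h1 : al ≤ a) (h2 : a ≤ 2 * al) : |a / al| ≤ 2 := by
  rw [abs_of_nonneg (div_nonneg (by linarith) hal.le), div_le_iff₀ hal]
  exact h2

theorem a6_cp_cap {al r : ℝ} (hal : 0 < al) (hr : 0 < r) {G : ℝ → ℂ}
    (hG : ∀ a, G a ≠ 0 → al ≤ a ∧ a ≤ 2 * al) (i : ℕ) : ∃ x : ℝ, CapG al r x (a6_cp al r G i) := by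
  by_cases h : ∃ a, a6_cp al r G i a ≠ 0
  · obtain ⟨x, hx⟩ := h
    obtain ⟨h1, h2⟩ := g2_cut_ne hx
    have h5 := hG x h2
    refine ⟨x, fun a ha => ?_⟩
    obtain ⟨g1, g2⟩ := g2_cut_ne ha
    have g5 := hG a g2
    refine ⟨g5.1, g5.2, ?_⟩
    have h6 := g2_ix_near (R := 2) hr (a6_cp_abs hal g5.1 g5.2) (a6_cp_abs hal h5.1 h5.2)
      (g1.trans h1.symm)
    rw [← sub_div, abs_div, abs_of_pos hal, div_le_iff₀ hal] at h6
    exact h6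
  · push Not at h
    exact ⟨0, fun a ha => absurd (h a) ha⟩

theorem a6_cp_sum {al r : ℝ} (hal : 0 < al) (hr : 0 < r) {G : ℝ → ℂ}
    (hG : ∀ a, G a ≠ 0 → al ≤ a ∧ a ≤ 2 * al) (a : ℝ) :
    ∑ i ∈ Finset.range (⌊2 * 2 / r⌋₊ + 1), a6_cp al r G i a = G a := by
  refine g2_cut_sum (fun a : ℝ => a / al) 2 r hr G ?_ a
  intro u hu
  have h5 := hG u hu
  exact a6_cp_abs hal h5.1 h5.2

/-- The conclusion of `capF`. -/
def CapEst (c : ℝ) : Prop := ∃ r : ℝ, 0 < r ∧ ∃ C : ℝ, 0 ≤ C ∧ ∀ T : ℝ, 1 ≤ T →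
    ∀ al be : ℝ, 0 < al → al ≤ 1 → 0 < be → be ≤ 1 → al * be ≤ r →
    ∀ (x1 x2 : ℝ) (G₁ G₂ : ℝ → ℂ), Measurable G₁ → Measurable G₂ →
    (∀ a, ‖G₁ a‖ ≤ 1) → (∀ a, ‖G₂ a‖ ≤ 1) → CapG al r x1 G₁ → CapG be r x2 G₂ →
    ∫⁻ t in Icc T (2 * T), ∫⁻ ξ : ℝ × ℝ, ‖Eo c G₁ G₂ t ξ‖ₑ ^ 4 ≤
      ENNReal.ofReal (C * (1 + Real.log T) ^ 12 / T)

/-- The conclusion of `L4two`. -/
def TwoEst (c c' : ℝ) : Prop := ∃ C : ℝ, 0 ≤ C ∧ ∀ T : ℝ, 1 ≤ T →
    ∀ G₁ G₂ : ℝ → ℂ, Measurable G₁ → Measurable G₂ → (∀ a, ‖G₁ a‖ ≤ 1) → (∀ b, ‖G₂ b‖ ≤ 1) →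
    (∀ a, G₁ a ≠ 0 → c' ≤ a) → (∀ b, G₂ b ≠ 0 → c' ≤ b) →
    ∫⁻ t in Icc T (2 * T), ∫⁻ ξ : ℝ × ℝ, ‖Eo c G₁ G₂ t ξ‖ₑ ^ 4 ≤
      ENNReal.ofReal (C * (1 + Real.log T) ^ 8 / T)

/-- Dyadic pieces, from caps. -/
theorem L4P_of (c : ℝ) (hc : 0 < c) (hcap : CapEst c) (htwo : ∀ c' : ℝ, 0 < c' → TwoEst c c') :
    ∃ C : ℝ, 0 ≤ C ∧ ∀ T : ℝ, 1 ≤ T →
    ∀ al be : ℝ, 0 < al → al ≤ 1 → 0 < be → be ≤ 1 →
    ∀ G₁ G₂ : ℝ → ℂ, Measurable G₁ → Measurable G₂ → (∀ a, ‖G₁ a‖ ≤ 1) → (∀ b, ‖G₂ b‖ ≤ 1) →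
    (∀ a, G₁ a ≠ 0 → al ≤ a ∧ a ≤ 2 * al) → (∀ b, G₂ b ≠ 0 → be ≤ b ∧ b ≤ 2 * be) →
    ∫⁻ t in Icc T (2 * T), ∫⁻ ξ : ℝ × ℝ, ‖Eo c G₁ G₂ t ξ‖ₑ ^ 4 ≤
      ENNReal.ofReal (C * (1 + Real.log T) ^ 12 / T) := by
  obtain ⟨r, hr, C, hC, hcap⟩ := hcap
  obtain ⟨C', hC', htwo⟩ := htwo r hr
  set n : ℕ := ⌊2 * 2 / r⌋₊ + 1 with hn
  set s : Finset (ℕ × ℕ) := Finset.range n ×ˢ Finset.range n with hs
  refine ⟨(s.card : ℝ) ^ 5 * C + C', by positivity, ?_⟩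
  intro T hT al be hal hal1 hbe hbe1 G₁ G₂ h1 h2 b1 b2 s1 s2
  have hT0 : 0 < T := by linarith
  have hL : 0 ≤ Real.log T := Real.log_nonneg hT
  rcases le_or_gt (al * be) r with hab | hab
  · have hsum : ∀ t ξ, Eo c G₁ G₂ t ξ =
        ∑ p ∈ s, Eo c (a6_cp al r G₁ p.1) (a6_cp be r G₂ p.2) t ξ := by
      intro t ξ
      unfold Eo
      rw [← integral_finsetSum s fun p _ => m2_Eo_int c hc (a6_cp al r G₁ p.1)
        (a6_cp be r G₂ p.2) (a6_cp_meas al r h1 _) (a6_cp_meas be r h2 _)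
        (a6_cp_norm al r b1 _) (a6_cp_norm be r b2 _) t ξ]
      congr 1
      funext x
      rw [← a6_cp_sum hal hr s1 x.1, ← a6_cp_sum hbe hr s2 x.2, Finset.sum_mul_sum,
        ← Finset.sum_product', Finset.sum_mul, Finset.sum_mul, Finset.sum_mul]
    simp only [hsum]
    refine (m2_lint_sum s (fun p z => Eo c (a6_cp al r G₁ p.1) (a6_cp be r G₂ p.2) z.1 z.2)
      (fun p _ => m2_Eo_meas c hc _ _ (a6_cp_meas al r h1 _) (a6_cp_meas be r h2 _))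
      (Icc T (2 * T)) (ENNReal.ofReal (C * (1 + Real.log T) ^ 12 / T)) ?_).trans ?_
    · intro p _
      obtain ⟨x1, hx1⟩ := a6_cp_cap hal hr s1 p.1
      obtain ⟨x2, hx2⟩ := a6_cp_cap hbe hr s2 p.2
      exact hcap T hT al be hal hal1 hbe hbe1 hab x1 x2 _ _ (a6_cp_meas al r h1 _)
        (a6_cp_meas be r h2 _) (a6_cp_norm al r b1 _) (a6_cp_norm be r b2 _) hx1 hx2
    · have e1 : (s.card : ℝ≥0∞) ^ 4 * (s.card * ENNReal.ofReal (C * (1 + Real.log T) ^ 12 / T)) =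
          ENNReal.ofReal ((s.card : ℝ) ^ 5 * C * (1 + Real.log T) ^ 12 / T) := by
        rw [show (s.card : ℝ) ^ 5 * C * (1 + Real.log T) ^ 12 / T =
          (s.card : ℝ) ^ 4 * (s.card * (C * (1 + Real.log T) ^ 12 / T)) by ring,
          ENNReal.ofReal_mul (by positivity), ENNReal.ofReal_mul (by positivity),
          ENNReal.ofReal_pow (by positivity), ENNReal.ofReal_natCast]
      rw [e1]
      apply ENNReal.ofReal_le_ofReal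
      gcongr
      linarith
  · have g1 : r ≤ al := by nlinarith
    have g2 : r ≤ be := by nlinarith
    refine (htwo T hT G₁ G₂ h1 h2 b1 b2 (fun a ha => g1.trans (s1 a ha).1)
      (fun b hb => g2.trans (s2 b hb).1)).trans ?_
    apply ENNReal.ofReal_le_ofReal
    have h5 : (1 + Real.log T) ^ 8 ≤ (1 + Real.log T) ^ 12 :=
      pow_le_pow_right₀ (by linarith) (by norm_num)
    have h6 : 0 ≤ (s.card : ℝ) ^ 5 * C := by positivity
    gcongr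
    linarith

end Pool.Agent.SDT.N1F

end -- N1F.A6y

section -- N1F.L4two

/-!
N1F, A7: `L4two`.
-/

namespace Pool.Agent.SDT.N1F

open MeasureTheory Set Metric Pool.Agent.SDT.MP_6cbfb8_an Pool.Agent.SDT.MST Pool.Agent.SDT.N1
open scoped ENNReal Real ContDiff

/-- N1 with the amplitude of `c` and the smaller constant `c'` in the supports. -/
theorem L4two (c c' : ℝ) (hc : 0 < c) (hc' : 0 < c') : ∃ C : ℝ, 0 ≤ C ∧ ∀ T : ℝ, 1 ≤ T →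
    ∀ G₁ G₂ : ℝ → ℂ, Measurable G₁ → Measurable G₂ → (∀ a, ‖G₁ a‖ ≤ 1) → (∀ b, ‖G₂ b‖ ≤ 1) →
    (∀ a, G₁ a ≠ 0 → c' ≤ a) → (∀ b, G₂ b ≠ 0 → c' ≤ b) →
    ∫⁻ t in Icc T (2 * T), ∫⁻ ξ : ℝ × ℝ, ‖Eo c G₁ G₂ t ξ‖ₑ ^ 4 ≤
      ENNReal.ofReal (C * (1 + Real.log T) ^ 8 / T) := by
  have hc1 : 0 < min (c / 2) c' := lt_min (by positivity) hc'
  obtain ⟨C, hC, H⟩ := FN.change_cut c (min (c / 2) c') hc hc1 (min_le_left _ _) (L4 _ hc1)
  exact ⟨C, hC, fun T hT G₁ G₂ h1 h2 b1 b2 s1 s2 => H T hT G₁ G₂ h1 h2 b1 b2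
    (fun a ha => (min_le_right _ _).trans (s1 a ha)) (fun b hb => (min_le_right _ _).trans (s2 b hb))⟩

end Pool.Agent.SDT.N1F

end -- N1F.L4two

section -- N1G.C1k

/-!
N1G, block C1, part k: the local theorem for the corner family.
-/

namespace Pool.Agent.SDT.N1G

open MeasureTheory Set Metric Pool.Agent.SDT.MP_6cbfb8_an Pool.Agent.SDT.MST Pool.Agent.SDT.N1
open scoped ENNReal Real ContDiff

/-- The local theorem in scaled variables. -/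
theorem c1_loc {c M0 : ℝ} {x0 y0 : ℝ × ℝ} (hc : 0 < c) (h : C1B c M0 x0 y0) :
    ∃ δ : ℝ, 0 < δ ∧ ∃ C : ℝ, 0 ≤ C ∧ ∀ p ∈ ball ((M0, 0) : ℝ × ℝ) δ, ∀ T : ℝ, 1 ≤ T →
    ∀ α β : ℝ × ℝ → ℂ, Measurable α → Measurable β → (∀ p, ‖α p‖ ≤ 1) → (∀ p, ‖β p‖ ≤ 1) →
      (∀ p, α p ≠ 0 → |p.1 - y0.1| ≤ δ ∧ |p.2 - x0.1| ≤ δ) →
      (∀ p, β p ≠ 0 → |p.1 - y0.2| ≤ δ ∧ |p.2 - x0.2| ≤ δ) →
      Thg (fun s => c1ψ c (p, s)) (fun s => c1W c (p, s)) T (pd α β) ≤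
        ENNReal.ofReal (C * (1 + Real.log T) ^ 4 / T) := by
  by_cases hN : c1N ((M0, 0), (y0, x0)) = 0
  · by_cases hN' : c1N' ((M0, 0), (y0, x0)) = 0
    · exfalso
      have hmem := h.mem hc
      have hh := c1_hpos hmem
      have hS : 0 < 1 - M0 ^ 2 * x0.1 ^ 2 := hmem.2.2.2.2.2.2
      rw [c1_N0] at hN
      rw [c1_N0'] at hN'
      simp only at hN hN' hh
      have ha := h.a
      have hb := h.b
      have hq : 0 < c1h M0 x0.2 - x0.1 ^ 2 := by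
        have := h.q
        have hc2 : 0 < c ^ 2 := by positivity
        linarith
      have k1 : c1h M0 x0.2 * M0 ^ 2 = 1 - c1be M0 x0.2 ^ 2 := by
        unfold c1h c1be
        ring
      have e1 : y0.1 * c1h M0 x0.2 = y0.2 * c1be M0 x0.2 * x0.1 := by
        field_simp at hN
        linarith
      have e2 : y0.2 * (1 - M0 ^ 2 * x0.1 ^ 2) = y0.1 * x0.1 * c1be M0 x0.2 := by
        generalize 1 - M0 ^ 2 * x0.1 ^ 2 = S at *
        field_simp at hN'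
        linarith
      have e3 : y0.2 * (c1h M0 x0.2 - x0.1 ^ 2) = 0 := by
        linear_combination c1h M0 x0.2 * e2 + x0.1 * c1be M0 x0.2 * e1 +
          y0.2 * x0.1 ^ 2 * k1
      rcases mul_eq_zero.1 e3 with h3 | h3
      · exact h.y2 h3
      · exact hq.ne' h3
    · obtain ⟨r, hr⟩ := FA_ok hc h hN'
      obtain ⟨δ, hδ, C, hC, k⟩ := TH_fam (FA c) _ _ _ _ hr (Or.inl (FA_D hc h hN))
      refine ⟨δ, hδ, C, hC, ?_⟩
      intro p hp T hT α β hα hβ hα1 hβ1 hαs hβs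
      exact k p hp zero_le_one _ _ (fun s _ => ⟨rfl, rfl⟩) T hT α β hα hβ hα1 hβ1 hαs hβs
  · by_cases hN' : c1N' ((M0, 0), (y0, x0)) = 0
    · obtain ⟨r, hr⟩ := FB_ok hc h hN
      obtain ⟨δ, hδ, C, hC, k⟩ := TH_fam (FB c) _ _ _ _ hr (Or.inl (FB_D hc h hN'))
      refine ⟨δ, hδ, C, hC, ?_⟩
      intro p hp T hT α β hα hβ hα1 hβ1 hαs hβs
      rw [← Thg_comm]
      exact k p hp (sq_nonneg _) _ _ (fun s _ => ⟨rfl, rfl⟩) T hT β α hβ hα hβ1 hα1 hβs hαs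
    · obtain ⟨r, hr⟩ := FA_ok hc h hN'
      obtain ⟨δ, hδ, C, hC, k⟩ := TH_fam (FA c) _ _ _ _ hr (Or.inr (FA_N' hc h hN))
      refine ⟨δ, hδ, C, hC, ?_⟩
      intro p hp T hT α β hα hβ hα1 hβ1 hαs hβs
      exact k p hp zero_le_one _ _ (fun s _ => ⟨rfl, rfl⟩) T hT α β hα hβ hα1 hβ1 hαs hβs

end Pool.Agent.SDT.N1G

end -- N1G.C1k

section -- N1M.THloc

/-!
N1M: the local theorem for the interior of the corner (`a`, `q` of size one), uniform in `m`.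
-/

namespace Pool.Agent.SDT.N1M

open MeasureTheory Set Metric Pool.Agent.SDT.MP_6cbfb8_an Pool.Agent.SDT.MST Pool.Agent.SDT.N1
open Pool.Agent.SDT.N1F Pool.Agent.SDT.N1G
open scoped ENNReal Real ContDiff

theorem tl_h {m : ℝ} (hm0 : 0 ≤ m) (r : ℝ) : c1h (√m) r = hm m r := by
  unfold c1h hm
  rw [Real.sq_sqrt hm0]

theorem tl_b {m : ℝ} (hm0 : 0 ≤ m) (r : ℝ) : c1be (√m) r = bm m r := by
  unfold c1be bm
  rw [Real.sq_sqrt hm0]

theorem tl_q {c m : ℝ} (hm0 : 0 ≤ m) (x : ℝ × ℝ) : c1q c (√m) x = qm c m x := by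
  unfold c1q qm
  rw [tl_h hm0]

theorem tl_wle {c m : ℝ} (hc : 0 < c) (x : ℝ × ℝ) : |wm c m x| ≤ 2 / c := by
  unfold wm
  split_ifs
  · exact f1_sma_le c hc _
  · rw [abs_zero]
    positivity

theorem tl_sqrt {m m0 η : ℝ} (h : 0 ≤ m) (h0 : 0 ≤ m0) (hη : 0 < η) (hd : |m - m0| < η ^ 2) :
    |√m - √m0| < η := by
  have h1 : (√m - √m0) * (√m + √m0) = m - m0 := by
    have h2 := Real.sq_sqrt h
    have h3 := Real.sq_sqrt h0
    nlinarith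
  have h4 : |√m - √m0| ≤ √m + √m0 := by
    rw [abs_le]
    constructor <;> linarith [Real.sqrt_nonneg m, Real.sqrt_nonneg m0]
  have h5 : |√m - √m0| ^ 2 < η ^ 2 := by
    calc |√m - √m0| ^ 2 = |√m - √m0| * |√m - √m0| := sq _
      _ ≤ |√m - √m0| * (√m + √m0) := by gcongr
      _ = |m - m0| := by
          rw [← h1, abs_mul, abs_of_nonneg (by positivity : 0 ≤ √m + √m0)]
      _ < η ^ 2 := hd
  exact lt_of_pow_lt_pow_left₀ 2 hη.le h5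

/-- the pair phase and amplitude on the domain -/
theorem tl_eq {c m ρ : ℝ} (hc : 0 < c) (hm0 : 0 ≤ m) (hρ : 0 < ρ) (s : YX)
    (h : ((√m, ρ), s) ∈ c1U c) (h1 : 0 ≤ s.2.2 ∧ s.2.2 ≤ 8)
    (h2 : 0 ≤ s.2.2 - ρ * s.1.2 ∧ s.2.2 - ρ * s.1.2 ≤ 8) :
    dif (qm c m) (ρ • s.1, s.2) / ρ = c1ψ c ((√m, ρ), s) ∧
      dam (wm c m) (ρ • s.1, s.2) = c1W c ((√m, ρ), s) := by
  obtain ⟨⟨y1, y2⟩, ⟨a, r⟩⟩ := s
  simp only at h1 h2
  have h3 := c1_q_diff hc h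
  obtain ⟨h4, h5⟩ := c1_qpos hc h
  have hx : c1x ((√m, ρ), ((y1, y2), (a, r))) = (a - ρ * y1, r - ρ * y2) := rfl
  have hx2 : ((a, r) : ℝ × ℝ) - ρ • (y1, y2) = (a - ρ * y1, r - ρ * y2) := rfl
  rw [hx] at h5
  simp only at h4 h5
  constructor
  · unfold dif c1ψ
    rw [hx]
    simp only
    rw [hx2, ← tl_q hm0, ← tl_q hm0]
    have h6 : 0 < c1q c √m (a, r) + c1q c √m (a - ρ * y1, r - ρ * y2) := by positivity
    rw [div_eq_div_iff hρ.ne' h6.ne']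
    linear_combination h3
  · unfold dam c1W c1w wm
    rw [hx]
    simp only
    rw [hx2, if_pos h1, if_pos (by exact h2), tl_h hm0, tl_h hm0]

theorem TH_loc (c c' : ℝ) (hc : 0 < c) (_hc1 : c ≤ 1) (hc' : 0 < c') (m0 : ℝ) (h0 : 0 ≤ m0)
    (h1 : m0 ≤ 1) (x0 y0 : ℝ × ℝ) (hx1 : c' ≤ x0.1) (hx2 : Rg m0 x0.2)
    (hx3 : c ^ 2 / 4 ≤ hm m0 x0.2 - x0.1 ^ 2) (hy1 : y0.1 ≠ 0) (hy2 : y0.2 ≠ 0) :
    ∃ δ : ℝ, 0 < δ ∧ ∃ C : ℝ, 0 ≤ C ∧ ∀ m : ℝ, 0 ≤ m → m ≤ 1 → |m - m0| < δ → ∀ T : ℝ, 1 ≤ T →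
    ∀ ρ : ℝ, 0 < ρ → ρ < δ → ∀ α β : ℝ × ℝ → ℂ, Measurable α → Measurable β →
    (∀ p, ‖α p‖ ≤ 1) → (∀ p, ‖β p‖ ≤ 1) →
    (∀ p, α p ≠ 0 → |p.1 / ρ - y0.1| ≤ δ ∧ |p.2 - x0.1| ≤ δ) →
    (∀ p, β p ≠ 0 → |p.1 / ρ - y0.2| ≤ δ ∧ |p.2 - x0.2| ≤ δ) →
    TM c m T (pd α β) ≤ ENNReal.ofReal (C * (1 + Real.log T) ^ 5 / T) := by
  obtain ⟨hr0, hr4, -, hb0⟩ := hx2
  have hB : C1B c (√m0) x0 y0 := by
    refine ⟨⟨Real.sqrt_nonneg _, Real.sqrt_le_one.2 h1⟩, ?_, by linarith, ?_, hy1, hy2⟩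
    · rw [tl_h h0]
      exact hx3
    · rw [tl_b h0]
      linarith
  obtain ⟨δ1, hδ1, C, hC, key⟩ := c1_loc hc hB
  have hmem := hB.mem hc
  have hO : IsOpen (c1U c ∩ {z : (ℝ × ℝ) × YX | (0 < z.2.2.2 ∧ z.2.2.2 < 8) ∧
      (0 < z.2.2.2 - z.1.2 * z.2.1.2 ∧ z.2.2.2 - z.1.2 * z.2.1.2 < 8)}) := by
    refine (c1U_open c).inter ?_
    refine ((isOpen_lt ?_ ?_).and (isOpen_lt ?_ ?_)).and ((isOpen_lt ?_ ?_).and (isOpen_lt ?_ ?_))
      <;> fun_prop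
  obtain ⟨r1, hr1, hball⟩ := c1_ball hO (x := ((√m0, (0 : ℝ)), (y0, x0)))
    ⟨hmem, ⟨hr0, by simp only; linarith⟩, by simp only; linarith, by simp only; linarith⟩
  set η : ℝ := min δ1 r1 / 2 with hη
  have hη0 : 0 < η := by
    have : 0 < min δ1 r1 := lt_min hδ1 hr1
    positivity
  have hηδ : η < δ1 := by
    have := min_le_left δ1 r1
    linarith
  have hηr : η < r1 := by
    have := min_le_right δ1 r1
    linarith
  set B : ℝ := 2 / c * (2 / c) with hBdef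
  have hB0 : 0 ≤ B := by positivity
  refine ⟨min (min η 1) (η ^ 2), lt_min (lt_min hη0 one_pos) (by positivity),
    C + 200 * B ^ 2, by positivity, ?_⟩
  intro m hm0 hm1 hmm T hT ρ hρ hρδ α β hα hβ hα1 hβ1 hαs hβs
  have hT0 : 0 < T := by linarith
  have hL : 0 ≤ Real.log T := Real.log_nonneg hT
  have l1 : min (min η 1) (η ^ 2) ≤ η := (min_le_left _ _).trans (min_le_left _ _)
  have l2 : min (min η 1) (η ^ 2) ≤ 1 := (min_le_left _ _).trans (min_le_right _ _)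
  have l3 : min (min η 1) (η ^ 2) ≤ η ^ 2 := min_le_right _ _
  have hM : |√m - √m0| < η := tl_sqrt hm0 h0 hη0 (hmm.trans_le l3)
  have hρη : ρ < η := hρδ.trans_le l1
  have hρ1 : ρ < 1 := hρδ.trans_le l2
  set α' : ℝ × ℝ → ℂ := fun p => α (ρ * p.1, p.2) with hα'
  set β' : ℝ × ℝ → ℂ := fun p => β (ρ * p.1, p.2) with hβ'
  have sα : ∀ p, α' p ≠ 0 → |p.1 - y0.1| ≤ min (min η 1) (η ^ 2) ∧
      |p.2 - x0.1| ≤ min (min η 1) (η ^ 2) := by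
    intro p hp
    have := hαs _ hp
    simp only at this
    rw [mul_div_cancel_left₀ _ hρ.ne'] at this
    exact this
  have sβ : ∀ p, β' p ≠ 0 → |p.1 - y0.2| ≤ min (min η 1) (η ^ 2) ∧
      |p.2 - x0.2| ≤ min (min η 1) (η ^ 2) := by
    intro p hp
    have := hβs _ hp
    simp only at this
    rw [mul_div_cancel_left₀ _ hρ.ne'] at this
    exact this
  have hpd : (fun s : YX => pd α β (ρ • s.1, s.2)) = pd α' β' := rfl
  unfold TM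
  rw [c1_scale _ _ T ρ hρ, hpd]
  have hw : ∀ s : YX, |dam (wm c m) (ρ • s.1, s.2)| ≤ B := by
    intro s
    unfold dam
    rw [abs_mul]
    exact mul_le_mul (tl_wle hc _) (tl_wle hc _) (abs_nonneg _) (by positivity)
  rcases lt_or_ge (T * ρ) 1 with hTρ | hTρ
  · have h2 := c1_triv B hB0 (fun s => dif (qm c m) (ρ • s.1, s.2) / ρ)
      (fun s => dam (wm c m) (ρ • s.1, s.2)) hw (T * ρ) (by positivity) x0 y0 α' β'
      (fun p => hα1 _) (fun p => hβ1 _) (fun p hp => ⟨(sα p hp).1.trans l2, (sα p hp).2.trans l2⟩)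
      (fun p hp => ⟨(sβ p hp).1.trans l2, (sβ p hp).2.trans l2⟩)
    refine (mul_le_mul_right h2 _).trans ?_
    rw [← ENNReal.ofReal_mul hρ.le]
    apply ENNReal.ofReal_le_ofReal
    rw [le_div_iff₀ hT0]
    have h3 : (1 : ℝ) ≤ (1 + Real.log T) ^ 5 := one_le_pow₀ (by linarith)
    have h4 : (T * ρ) ^ 2 ≤ 1 := pow_le_one₀ (by positivity) hTρ.le
    calc ρ * (200 * B ^ 2 * (T * ρ)) * T = 200 * B ^ 2 * (T * ρ) ^ 2 := by ring
      _ ≤ 200 * B ^ 2 * 1 := by gcongr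
      _ ≤ (C + 200 * B ^ 2) * 1 := by linarith
      _ ≤ (C + 200 * B ^ 2) * (1 + Real.log T) ^ 5 := by gcongr
  · have hcg : Thg (fun s => dif (qm c m) (ρ • s.1, s.2) / ρ)
        (fun s => dam (wm c m) (ρ • s.1, s.2)) (T * ρ) (pd α' β') =
        Thg (fun s => c1ψ c ((√m, ρ), s)) (fun s => c1W c ((√m, ρ), s)) (T * ρ) (pd α' β') := by
      refine Thg_congr _ _ _ _ _ _ ?_
      intro s hs
      unfold pd at hs
      have g1 := sα _ (left_ne_zero_of_mul hs)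
      have g2 := sβ _ (right_ne_zero_of_mul hs)
      simp only at g1 g2
      have hin := hball r1 le_rfl (a := ((√m, ρ), s)) (by
        rw [mem_ball, Prod.dist_eq, Prod.dist_eq, Prod.dist_eq, Prod.dist_eq, Prod.dist_eq]
        simp only [Real.dist_eq, sub_zero, abs_of_pos hρ]
        refine max_lt (max_lt (hM.trans hηr) (hρη.trans hηr)) (max_lt (max_lt ?_ ?_)
          (max_lt ?_ ?_))
        · exact (g1.1.trans l1).trans_lt hηr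
        · exact (g2.1.trans l1).trans_lt hηr
        · exact (g1.2.trans l1).trans_lt hηr
        · exact (g2.2.trans l1).trans_lt hηr)
      obtain ⟨i1, ⟨i2, i3⟩, i4, i5⟩ := hin
      exact tl_eq hc hm0 hρ s i1 ⟨i2.le, i3.le⟩ ⟨i4.le, i5.le⟩
    rw [hcg]
    have hp : (√m, ρ) ∈ ball ((√m0, 0) : ℝ × ℝ) δ1 := by
      rw [mem_ball, Prod.dist_eq]
      simp only [Real.dist_eq, sub_zero, abs_of_pos hρ]
      exact max_lt (hM.trans hηδ) (hρη.trans hηδ)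
    have mα : Measurable α' := hα.comp (by fun_prop)
    have mβ : Measurable β' := hβ.comp (by fun_prop)
    have h2 := key (√m, ρ) hp (T * ρ) hTρ α' β' mα mβ (fun p => hα1 _) (fun p => hβ1 _)
      (fun p hp => ⟨((sα p hp).1.trans l1).trans hηδ.le, ((sα p hp).2.trans l1).trans hηδ.le⟩)
      (fun p hp => ⟨((sβ p hp).1.trans l1).trans hηδ.le, ((sβ p hp).2.trans l1).trans hηδ.le⟩)
    refine (mul_le_mul_right h2 _).trans ?_
    rw [← ENNReal.ofReal_mul hρ.le]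
    apply ENNReal.ofReal_le_ofReal
    have h5 : 0 ≤ Real.log (T * ρ) := Real.log_nonneg hTρ
    have h6 : Real.log (T * ρ) ≤ Real.log T := by
      apply Real.log_le_log (by positivity)
      nlinarith
    calc ρ * (C * (1 + Real.log (T * ρ)) ^ 4 / (T * ρ)) = C * (1 + Real.log (T * ρ)) ^ 4 / T := by
          field_simp
      _ ≤ C * (1 + Real.log T) ^ 4 / T := by gcongr
      _ ≤ (C + 200 * B ^ 2) * (1 + Real.log T) ^ 5 / T := by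
          have h7 : C ≤ C + 200 * B ^ 2 := by
            have : 0 ≤ 200 * B ^ 2 := by positivity
            linarith
          have h8 : (1 + Real.log T) ^ 4 ≤ (1 + Real.log T) ^ 5 :=
            pow_le_pow_right₀ (by linarith) (by norm_num)
          gcongr

end Pool.Agent.SDT.N1M

end -- N1M.THloc

section -- N1G.CG1

/-!
N1G: the cap assembly for a general point phase, part 1: partition, blocks of type N, low part.
-/

namespace Pool.Agent.SDT.N1G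

open MeasureTheory Set Metric Pool.Agent.SDT.MP_6cbfb8_an Pool.Agent.SDT.MST Pool.Agent.SDT.N1
open Pool.Agent.SDT.N1F
open scoped ENNReal Real ContDiff

/-- Splitting by the partition of unity in a pair of coordinates. -/
theorem cg_part {B R : ℝ} {φ w : YX → ℝ} (hA : Adm B R φ w) (T : ℝ) (hT : 0 < T) (J : ℕ)
    (Y : V × V → ℝ × ℝ) (hY : Measurable Y) (M : V × V → ℂ) (hM : Measurable M)
    (hM1 : ∀ q, ‖M q‖ ≤ 1) (hMs : ∀ q, M q ≠ 0 → |(Y q).1| ≤ 1 ∧ |(Y q).2| ≤ 1)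
    (K1 K3 : ℝ)
    (h1 : ∀ j k : ℕ, ‖FFg φ w T (fun q => ((uj j (Y q).1 * uj k (Y q).2 : ℝ) : ℂ) * M q)‖ ≤ K1)
    (h4 : ‖FFg φ w T (fun q => ((ch_rs J (Y q) : ℝ) : ℂ) * M q)‖ ≤ K3) :
    ‖FFg φ w T M‖ ≤ (J : ℝ) ^ 2 * K1 + K3 := by
  classical
  let F : (ℕ × ℕ) ⊕ Unit → V × V → ℂ :=
    Sum.elim (fun p q => ((uj p.1 (Y q).1 * uj p.2 (Y q).2 : ℝ) : ℂ) * M q)
      (fun _ q => ((ch_rs J (Y q) : ℝ) : ℂ) * M q)
  let s : Finset ((ℕ × ℕ) ⊕ Unit) := (Finset.range J ×ˢ Finset.range J).disjSum {()}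
  have hY1 : Measurable fun q => (Y q).1 := measurable_fst.comp hY
  have hY2 : Measurable fun q => (Y q).2 := measurable_snd.comp hY
  have hsum : (fun q => ∑ i ∈ s, F i q) = M := by
    funext q
    by_cases hq : M q = 0
    · rw [hq]
      refine Finset.sum_eq_zero ?_
      rintro (p | u) - <;> simp [F, hq]
    · have h5 := th_sum J _ (hMs q hq).1
      have h6 := th_sum J _ (hMs q hq).2
      simp only [s, Finset.sum_disjSum, Finset.sum_singleton, F, Sum.elim_inl, Sum.elim_inr,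
        Finset.sum_product]
      have h7 : (∑ j ∈ Finset.range J, ∑ k ∈ Finset.range J,
          (uj j (Y q).1 * uj k (Y q).2)) + ch_rs J (Y q) = 1 := by
        have h8 : ∑ j ∈ Finset.range J, ∑ k ∈ Finset.range J, (uj j (Y q).1 * uj k (Y q).2) =
            (∑ j ∈ Finset.range J, uj j (Y q).1) * ∑ k ∈ Finset.range J, uj k (Y q).2 := by
          rw [Finset.sum_mul_sum]
        rw [h8, eq_sub_iff_add_eq.2 h5, eq_sub_iff_add_eq.2 h6]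
        unfold ch_rs
        ring
      have h9 : (1 : ℂ) * M q = M q := one_mul _
      rw [← Complex.ofReal_one, ← h7] at h9
      refine Eq.trans ?_ h9
      push_cast
      rw [add_mul, Finset.sum_mul]
      simp only [Finset.sum_mul]
  have hF : ∀ i, Measurable (F i) := by
    rintro (p | u)
    · exact (Complex.measurable_ofReal.comp (((measurable_uj _).comp hY1).mul
        ((measurable_uj _).comp hY2))).mul hM
    · exact (Complex.measurable_ofReal.comp ((ch_rs_meas J).comp hY)).mul hM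
  have hB : ∀ i q, ‖F i q‖ ≤ 1 := by
    rintro (p | u) q
    · exact m2_mul_norm (uj_abs_le _ _) (uj_abs_le _ _) (hM1 q)
    · show ‖((ch_rs J (Y q) : ℝ) : ℂ) * M q‖ ≤ _
      rw [norm_mul, Complex.norm_real, Real.norm_eq_abs]
      exact mul_le_one₀ (ch_rs_abs _ _) (norm_nonneg _) (hM1 q)
  have h5 := FFg_sum B R φ w hA T hT s F hF _ hB
  rw [hsum] at h5
  rw [h5]
  refine (norm_sum_le _ _).trans ?_
  simp only [s, Finset.sum_disjSum, Finset.sum_singleton, F, Sum.elim_inl, Sum.elim_inr]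
  have h6 : ∑ x ∈ Finset.range J ×ˢ Finset.range J,
      ‖FFg φ w T fun q => ((uj x.1 (Y q).1 * uj x.2 (Y q).2 : ℝ) : ℂ) * M q‖ ≤
        (J : ℝ) ^ 2 * K1 := by
    refine (Finset.sum_le_card_nsmul _ _ K1 ?_).trans (le_of_eq ?_)
    · rintro ⟨j, k⟩ -
      exact h1 j k
    · rw [Finset.card_product, Finset.card_range, nsmul_eq_mul]
      push_cast
      ring
  linarith

/-- Outer difference of type N. -/
theorem cg_N {B R : ℝ} {φ w : YX → ℝ} (hA : Adm B R φ w) (T : ℝ) (hT : 1 ≤ T) (G₁ G₂ : ℝ → ℂ)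
    (h1 : Measurable G₁)
    (h2 : Measurable G₂) (b1 : ∀ a, ‖G₁ a‖ ≤ 1) (b2 : ∀ a, ‖G₂ a‖ ≤ 1) (j k : ℕ) (η₁ η₂ Q : ℝ)
    (hQ : 0 ≤ Q) (hTh : Thg φ w T (pd (m2_ac j G₁ η₁) (m2_ac k G₂ η₂)) ≤ ENNReal.ofReal Q) :
    ‖FFg φ w T (fun q => m2_psi j k (q.1.1, q.2.1) *
      (ex (η₁ * q.1.2.2) * ex (η₂ * q.2.2.2) * m2_Q G₁ G₂ q))‖ ≤ Q := by
  have hT0 : 0 < T := by linarith
  refine m2_enorm_le hQ ?_
  have h3 := FFg_weight B R φ w hA T hT0 (pd (m2_al G₁ η₁) (m2_al G₂ η₂))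
    (m2_pd_meas (m2_al_meas h1 η₁) (m2_al_meas h2 η₂))
    (m2_pd_norm (m2_al_norm b1 η₁) (m2_al_norm b2 η₂)) (m2_psi j k) (m2_psi_meas j k)
    (m2_psi_norm j k)
  rw [m2_ac_pd] at h3
  simp only [m2_sq_mod] at h3
  exact h3.trans hTh

/-- Inner difference of type N, any outer cut-offs. -/
theorem cg_DN {B' R : ℝ} {qp wp : ℝ × ℝ → ℝ} (hA : Adm B' R (dif qp) (dam wp)) (T : ℝ)
    (hT : 1 ≤ T) (G₁ G₂ : ℝ → ℂ) (h1 : Measurable G₁)
    (h2 : Measurable G₂) (b1 : ∀ a, ‖G₁ a‖ ≤ 1) (b2 : ∀ a, ‖G₂ a‖ ≤ 1) (j k : ℕ) (Q : ℝ)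
    (hQ : 0 ≤ Q)
    (hTh : ∀ η₁ η₂ : ℝ, Thg (dif qp) (dam wp) T (pd (m2_ac j G₁ η₁) (m2_ac k G₂ η₂)) ≤
      ENNReal.ofReal Q)
    (B : ℝ) (m1 m2 : ℝ → ℂ) (hm1 : FT1 B m1) (hm2 : FT1 B m2) (m2m : Measurable m2)
    (m2b : ∀ x, ‖m2 x‖ ≤ 1) :
    ‖FFg (dif qp) (dam wp) T (fun q => m2_psi j k (q.1.2.2, q.2.2.2) *
      (m1 q.1.1 * m2 q.2.1 * m2_Q G₁ G₂ q))‖ ≤ B * (B * Q) := by
  have hT0 : 0 < T := by linarith
  have hQm := m2_Q_meas h1 h2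
  have hQn := m2_Q_norm b1 b2
  have hpm : Measurable fun q : V × V => m2_psi j k (q.1.2.2, q.2.2.2) :=
    (m2_psi_meas j k).comp (by fun_prop)
  -- the innermost estimate
  have k1 : ∀ η₁ η₂ : ℝ, ‖FFg (dif qp) (dam wp) T (fun q => ex (η₂ * q.2.1) *
      (ex (η₁ * q.1.1) * (m2_psi j k (q.1.2.2, q.2.2.2) * m2_Q G₁ G₂ q)))‖ ≤ Q := by
    intro η₁ η₂
    have h3 := cg_N hA T hT G₁ G₂ h1 h2 b1 b2 j k η₁ η₂ Q hQ (hTh η₁ η₂)
    rw [← FFg_swp] at h3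
    have h4 : (fun q : V × V => m2_psi j k ((swp q).1.1, (swp q).2.1) *
        (ex (η₁ * (swp q).1.2.2) * ex (η₂ * (swp q).2.2.2) * m2_Q G₁ G₂ (swp q))) =
        fun q => ex (η₂ * q.2.1) * (ex (η₁ * q.1.1) *
          (m2_psi j k (q.1.2.2, q.2.2.2) * m2_Q G₁ G₂ q)) := by
      funext q
      rw [m2_Q_swp]
      unfold swp
      simp only
      ring
    rw [h4] at h3
    exact h3
  have k2 : ∀ η₁ : ℝ, ‖FFg (dif qp) (dam wp) T (fun q => ex (η₁ * q.1.1) * (m2 q.2.1 *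
      (m2_psi j k (q.1.2.2, q.2.2.2) * m2_Q G₁ G₂ q)))‖ ≤ B * Q := by
    intro η₁
    have h3 := expandg B' R _ _ hA T hT0 B m2 hm2 (fun q => ex (η₁ * q.1.1) *
      (m2_psi j k (q.1.2.2, q.2.2.2) * m2_Q G₁ G₂ q)) ?_ 1 ?_ (fun q => q.2.1) (by fun_prop)
      Q (k1 η₁)
    · have h4 : (fun q : V × V => ex (η₁ * q.1.1) * (m2 q.2.1 *
          (m2_psi j k (q.1.2.2, q.2.2.2) * m2_Q G₁ G₂ q))) =
          fun q : V × V => m2 q.2.1 * (ex (η₁ * q.1.1) *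
          (m2_psi j k (q.1.2.2, q.2.2.2) * m2_Q G₁ G₂ q)) := by
        funext q
        ring
      rw [h4]
      exact h3
    · exact (measurable_ex.comp (by fun_prop)).mul (hpm.mul hQm)
    · intro q
      rw [norm_mul, norm_mul, m2_ex_norm, one_mul]
      exact mul_le_one₀ (m2_psi_norm _ _ _) (norm_nonneg _) (hQn _)
  have h3 := expandg B' R _ _ hA T hT0 B m1 hm1 (fun q => m2 q.2.1 *
      (m2_psi j k (q.1.2.2, q.2.2.2) * m2_Q G₁ G₂ q)) ?_ 1 ?_ (fun q => q.1.1) (by fun_prop)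
      (B * Q) k2
  · have h4 : (fun q : V × V => m2_psi j k (q.1.2.2, q.2.2.2) *
        (m1 q.1.1 * m2 q.2.1 * m2_Q G₁ G₂ q)) =
        fun q : V × V => m1 q.1.1 * (m2 q.2.1 *
          (m2_psi j k (q.1.2.2, q.2.2.2) * m2_Q G₁ G₂ q)) := by
      funext q
      ring
    rw [h4]
    exact h3
  · exact (m2m.comp (by fun_prop)).mul (hpm.mul hQm)
  · intro q
    rw [norm_mul, norm_mul]
    exact mul_le_one₀ (m2b _) (by positivity)
      (mul_le_one₀ (m2_psi_norm _ _ _) (norm_nonneg _) (hQn _))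

/-- the volume of a box -/
theorem cg_vol (a1 a2 a3 a4 a5 a6 : ℝ) (g1 : 0 ≤ a1) (g2 : 0 ≤ a2) (g3 : 0 ≤ a3) (g4 : 0 ≤ a4)
    (g5 : 0 ≤ a5) (g6 : 0 ≤ a6) :
    volume ((Icc (-a1) a1 ×ˢ Icc (-a2) a2 ×ˢ Icc (-a3) a3) ×ˢ
      (Icc (-a4) a4 ×ˢ Icc (-a5) a5 ×ˢ Icc (-a6) a6) : Set (V × V)) =
      ENNReal.ofReal (64 * (a1 * a2 * a3 * (a4 * a5 * a6))) := by
  rw [Measure.volume_eq_prod, Measure.prod_prod, Measure.volume_eq_prod, Measure.prod_prod,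
    Measure.prod_prod, Measure.volume_eq_prod, Measure.prod_prod, Measure.prod_prod,
    Real.volume_Icc, Real.volume_Icc,
    Real.volume_Icc, Real.volume_Icc, Real.volume_Icc, Real.volume_Icc,
    ← ENNReal.ofReal_mul (by linarith), ← ENNReal.ofReal_mul (by linarith),
    ← ENNReal.ofReal_mul (by linarith), ← ENNReal.ofReal_mul (by linarith),
    ← ENNReal.ofReal_mul]
  · congr 1
    ring
  · have : 0 ≤ a1 * (a2 * a3) := by positivity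
    nlinarith

theorem cg_x {B R : ℝ} {φ w : YX → ℝ} (hA : Adm B R φ w) {q : V × V} (h : Wg w q ≠ 0) :
    |q.1.2.1| ≤ R ∧ |q.2.2.1| ≤ R := by
  have h1 := hA.sw (px q) (f1g_Wg_ne w q h).1
  have h2 : ‖(px q).2‖ ≤ R := (norm_snd_le _).trans h1
  exact ⟨(norm_fst_le (px q).2).trans h2, (norm_snd_le (px q).2).trans h2⟩

/-- The absolute estimate for boxes. -/
theorem cg_AB (B R : ℝ) (hB : 0 ≤ B) (hR : 0 ≤ R) : ∃ C : ℝ, 0 ≤ C ∧ ∀ (φ w : YX → ℝ),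
    Adm B R φ w → ∀ T : ℝ, 0 < T → ∀ (M : V × V → ℂ)
    (e1 e2 d1 d2 f0 : ℝ), Measurable M → (∀ q, ‖M q‖ ≤ 1) → 0 ≤ e1 → 0 ≤ e2 → 0 ≤ d1 → 0 ≤ d2 →
    0 ≤ f0 →
    (∀ q, M q ≠ 0 → Wg w q ≠ 0 → |q.1.1| ≤ e1 ∧ |q.2.1| ≤ e2 ∧ |q.1.2.2| ≤ d1 ∧
      |q.2.2.2| ≤ d2 ∧ f0 ≤ |Fg φ q|) →
    ‖FFg φ w T M‖ ≤ C * T * (e1 * e2 * (d1 * d2)) / (1 + T * f0) ^ 3 := by
  obtain ⟨C, hC, h⟩ := FFg_abs B hB
  refine ⟨C * (64 * R ^ 2), by positivity, ?_⟩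
  intro φ w hA T hT M e1 e2 d1 d2 f0 hM hM1 he1 he2 hd1 hd2 hf0 hM2
  have h3 := h R φ w hA T hT M {q | q ∈ ((Icc (-e1) e1 ×ˢ Icc (-R) R ×ˢ Icc (-d1) d1) ×ˢ
      (Icc (-e2) e2 ×ˢ Icc (-R) R ×ˢ Icc (-d2) d2) : Set (V × V)) ∧ f0 ≤ |Fg φ q|} f0
    (64 * (e1 * R * d1 * (e2 * R * d2))) hM hM1 ?_ (by positivity) ?_ hf0 (fun q hq => hq.2)
  · refine h3.trans (le_of_eq ?_)
    ring
  · intro q hq hW
    obtain ⟨a1, a2, a3, a4, a5⟩ := hM2 q hq hW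
    obtain ⟨x1, x2⟩ := cg_x hA hW
    exact ⟨⟨⟨abs_le.1 a1, abs_le.1 x1, abs_le.1 a3⟩, abs_le.1 a2, abs_le.1 x2, abs_le.1 a4⟩, a5⟩
  · refine (measure_mono fun q hq => hq.1).trans (le_of_eq ?_)
    exact cg_vol e1 R d1 e2 R d2 he1 hR hd1 he2 hR hd2

/-- The low part of a partition. -/
theorem cg_low (B R : ℝ) (hB : 0 ≤ B) (hR : 0 ≤ R) : ∃ C : ℝ, 0 ≤ C ∧ ∀ (φ w : YX → ℝ),
    Adm B R φ w → ∀ T : ℝ, 1 ≤ T → ∀ J : ℕ,
    T ^ 2 ≤ 2 ^ J → ∀ (M : V × V → ℂ) (Y : V × V → ℝ × ℝ), Measurable M →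
    (∀ q, ‖M q‖ ≤ 1) → Measurable Y →
    (∀ q, M q ≠ 0 → |q.1.1| ≤ 1 ∧ |q.2.1| ≤ 1 ∧ |q.1.2.2| ≤ 1 ∧ |q.2.2.2| ≤ 1) →
    ((∀ q, Y q = (q.1.1, q.2.1)) ∨ (∀ q, Y q = (q.1.2.2, q.2.2.2))) →
    ‖FFg φ w T (fun q => ((ch_rs J (Y q) : ℝ) : ℂ) * M q)‖ ≤ C / T := by
  obtain ⟨C, hC, h⟩ := FFg_abs B hB
  refine ⟨256 * C * R ^ 2, by positivity, ?_⟩
  intro φ w hA T hT J hJ M Y hM hM1 hY hMs hYc
  have hT0 : 0 < T := by linarith
  set e : ℝ := 2 / 2 ^ J with he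
  have he0 : 0 ≤ e := by positivity
  have hm : Measurable fun q => ((ch_rs J (Y q) : ℝ) : ℂ) * M q :=
    (Complex.measurable_ofReal.comp ((ch_rs_meas J).comp hY)).mul hM
  have hn : ∀ q, ‖((ch_rs J (Y q) : ℝ) : ℂ) * M q‖ ≤ 1 := by
    intro q
    rw [norm_mul, Complex.norm_real, Real.norm_eq_abs]
    exact mul_le_one₀ (ch_rs_abs _ _) (norm_nonneg _) (hM1 _)
  have hne : ∀ q, ((ch_rs J (Y q) : ℝ) : ℂ) * M q ≠ 0 →
      (|(Y q).1| ≤ e ∨ |(Y q).2| ≤ e) ∧ M q ≠ 0 := by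
    intro q hq
    refine ⟨ch_rs_ne ?_, right_ne_zero_of_mul hq⟩
    intro h3
    rw [h3] at hq
    simp at hq
  have fin : ∀ S : Set (V × V), volume S ≤ ENNReal.ofReal (64 * (e * R ^ 2)) +
      ENNReal.ofReal (64 * (e * R ^ 2)) →
      (∀ q, ((ch_rs J (Y q) : ℝ) : ℂ) * M q ≠ 0 → Wg w q ≠ 0 → q ∈ S) →
      ‖FFg φ w T (fun q => ((ch_rs J (Y q) : ℝ) : ℂ) * M q)‖ ≤ 256 * C * R ^ 2 / T := by
    intro S hS hsub
    rw [← ENNReal.ofReal_add (by positivity) (by positivity)] at hS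
    have h3 := h R φ w hA T hT0 _ S 0 (64 * (e * R ^ 2) + 64 * (e * R ^ 2)) hm hn hsub
      (by positivity) hS le_rfl (fun q _ => abs_nonneg _)
    refine h3.trans ?_
    rw [mul_zero, add_zero, one_pow, div_one, le_div_iff₀ hT0]
    have h4 : e * T ^ 2 ≤ 2 := by
      rw [he, div_mul_eq_mul_div, div_le_iff₀ (by positivity)]
      linarith
    calc C * T * (64 * (e * R ^ 2) + 64 * (e * R ^ 2)) * T = 128 * C * R ^ 2 * (e * T ^ 2) := by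
          ring
      _ ≤ 128 * C * R ^ 2 * 2 := by gcongr
      _ = 256 * C * R ^ 2 := by ring
  have cast : ∀ {x : ℝ}, |x| ≤ e → x ∈ Icc (-e) e := fun {x} hx => abs_le.1 hx
  have cast1 : ∀ {x : ℝ}, |x| ≤ 1 → x ∈ Icc (-1 : ℝ) 1 := fun {x} hx => abs_le.1 hx
  have castR : ∀ {x : ℝ}, |x| ≤ R → x ∈ Icc (-R : ℝ) R := fun {x} hx => abs_le.1 hx
  have one : (0 : ℝ) ≤ 1 := zero_le_one
  rcases hYc with hYc | hYc
  · refine fin (((Icc (-e) e ×ˢ Icc (-R) R ×ˢ Icc (-1) 1) ×ˢ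
        (Icc (-1) 1 ×ˢ Icc (-R) R ×ˢ Icc (-1) 1)) ∪
        ((Icc (-1) 1 ×ˢ Icc (-R) R ×ˢ Icc (-1) 1) ×ˢ
        (Icc (-e) e ×ˢ Icc (-R) R ×ˢ Icc (-1) 1))) ?_ ?_
    · refine (measure_union_le _ _).trans (add_le_add (le_of_eq ?_) (le_of_eq ?_))
      · rw [cg_vol e R 1 1 R 1 he0 hR one one hR one]
        congr 1
        ring
      · rw [cg_vol 1 R 1 e R 1 one hR one he0 hR one]
        congr 1
        ring
    · intro q hq hWq
      obtain ⟨h3, h4⟩ := hne q hq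
      obtain ⟨g1, g2, g3, g4⟩ := hMs q h4
      obtain ⟨w1, w2⟩ := cg_x hA hWq
      rw [hYc] at h3
      rcases h3 with h3 | h3
      · exact Or.inl ⟨⟨cast h3, castR w1, cast1 g3⟩, cast1 g2, castR w2, cast1 g4⟩
      · exact Or.inr ⟨⟨cast1 g1, castR w1, cast1 g3⟩, cast h3, castR w2, cast1 g4⟩
  · refine fin (((Icc (-1) 1 ×ˢ Icc (-R) R ×ˢ Icc (-e) e) ×ˢ
        (Icc (-1) 1 ×ˢ Icc (-R) R ×ˢ Icc (-1) 1)) ∪
        ((Icc (-1) 1 ×ˢ Icc (-R) R ×ˢ Icc (-1) 1) ×ˢ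
        (Icc (-1) 1 ×ˢ Icc (-R) R ×ˢ Icc (-e) e))) ?_ ?_
    · refine (measure_union_le _ _).trans (add_le_add (le_of_eq ?_) (le_of_eq ?_))
      · rw [cg_vol 1 R e 1 R 1 one hR he0 one hR one]
        congr 1
        ring
      · rw [cg_vol 1 R 1 1 R e one hR one one hR he0]
        congr 1
        ring
    · intro q hq hWq
      obtain ⟨h3, h4⟩ := hne q hq
      obtain ⟨g1, g2, g3, g4⟩ := hMs q h4
      obtain ⟨w1, w2⟩ := cg_x hA hWq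
      rw [hYc] at h3
      rcases h3 with h3 | h3
      · exact Or.inl ⟨⟨cast1 g1, castR w1, cast h3⟩, cast1 g2, castR w2, cast1 g4⟩
      · exact Or.inr ⟨⟨cast1 g1, castR w1, cast1 g3⟩, cast1 g2, castR w2, cast h3⟩

end Pool.Agent.SDT.N1G

end -- N1G.CG1

section -- N1Q.Tan2

/-!
N1Q, block QT, part 2: tangential outer differences.
-/

namespace Pool.Agent.SDT.N1Q

open MeasureTheory Set Metric Pool.Agent.SDT.MP_6cbfb8_an Pool.Agent.SDT.MST Pool.Agent.SDT.N1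
open Pool.Agent.SDT.N1F Pool.Agent.SDT.N1G Pool.Agent.SDT.N1M
open scoped ENNReal Real ContDiff

/-! ### Admissibility -/

theorem tn_KE_meas (b P g1 g2 τ : ℝ) : Measurable (KE b P g1 g2 τ) := by
  unfold KE
  fun_prop

theorem tn_qE_meas (b P g1 g2 η : ℝ) : Measurable (qE b P g1 g2 η) := by
  unfold qE Sq
  have h1 : Continuous fun v : ℝ => Real.smoothTransition ((16 * v - (1 : ℝ) ^ 2) / 1 ^ 2) :=
    Real.smoothTransition.continuous.comp (by fun_prop)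
  exact (Real.continuous_sqrt.mul h1).measurable.comp (tn_KE_meas b P g1 g2 _)

theorem tn_w1_meas : Measurable w1 := by
  unfold w1
  exact (f1_sma_cont 1 one_pos).measurable.sub (f1_sma_cont 2 two_pos).measurable

theorem tn_wE_meas (b P g1 g2 η : ℝ) : Measurable (wE b P g1 g2 η) := by
  unfold wE
  refine Measurable.ite ?_ (tn_w1_meas.comp (tn_KE_meas b P g1 g2 _)) measurable_const
  have h1 : MeasurableSet {x : ℝ × ℝ | |x.1| ≤ 1} :=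
    measurableSet_le (by fun_prop) measurable_const
  have h2 : MeasurableSet {x : ℝ × ℝ | |x.2| ≤ 1} :=
    measurableSet_le (by fun_prop) measurable_const
  exact h1.inter h2

theorem tn_wE_le (b P g1 g2 η : ℝ) (x : ℝ × ℝ) : |wE b P g1 g2 η x| ≤ 3 := by
  unfold wE
  split_ifs
  · unfold w1
    have h1 := f1_sma_le 1 one_pos (KE b P g1 g2 (η ^ 2) x)
    have h2 := f1_sma_le 2 two_pos (KE b P g1 g2 (η ^ 2) x)
    rw [abs_le] at *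
    constructor <;> linarith [h1.1, h1.2, h2.1, h2.2]
  · rw [abs_zero]
    norm_num

theorem tn_wE_supp (b P g1 g2 η : ℝ) (x : ℝ × ℝ) (h : wE b P g1 g2 η x ≠ 0) : ‖x‖ ≤ 1 := by
  unfold wE at h
  split_ifs at h with h1
  · rw [Prod.norm_def, max_le_iff, Real.norm_eq_abs, Real.norm_eq_abs]
    exact h1
  · exact absurd rfl h

theorem tn_adm (b P g1 g2 η : ℝ) :
    Adm (3 * 3) (2 * 1) (dif (qE b P g1 g2 η)) (dam (wE b P g1 g2 η)) :=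
  f3g_adm 3 1 _ _ (tn_qE_meas b P g1 g2 η) (tn_wE_meas b P g1 g2 η) (tn_wE_le b P g1 g2 η)
    (tn_wE_supp b P g1 g2 η)

theorem tn_lnE_cont (g1 g2 : ℝ) : Continuous (lnE g1 g2) := by
  unfold lnE
  fun_prop

/-- Outer differences close to the origin. -/
theorem tn_low : ∃ C : ℝ, 0 ≤ C ∧ ∀ b P g1 g2 η T e r A : ℝ, Par b g1 g2 → 0 < T → 0 ≤ e →
    0 ≤ A → r ≤ 1 / 4 → ∀ α β : ℝ × ℝ → ℂ, Measurable α → Measurable β → (∀ p, ‖α p‖ ≤ 1) →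
    (∀ p, ‖β p‖ ≤ 1) → SX r α → SX r β →
    ∫⁻ y in {y : ℝ × ℝ | |y.1| ≤ e ∧ |lnE g1 g2 y| ≤ A * |y.1|},
      gT (dif (qE b P g1 g2 η)) (dam (wE b P g1 g2 η)) T (pd α β) y ≤
      ENNReal.ofReal (C * (4 + A) * T * e ^ 2) := by
  obtain ⟨C, hC, h⟩ := FFg_abs (3 * 3) (by norm_num)
  refine ⟨C * 256, by positivity, ?_⟩
  intro b P g1 g2 η T e r A hpar hT he hA0 hr α β hα hβ hα1 hβ1 hαs hβs
  obtain ⟨-, -, p1, p2, p3, p4⟩ := hpar
  have hadm := tn_adm b P g1 g2 η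
  set E : Set (ℝ × ℝ) := {y : ℝ × ℝ | |y.1| ≤ e ∧ |lnE g1 g2 y| ≤ A * |y.1|} with hE
  have hEm : MeasurableSet E := by
    have h1 : MeasurableSet {y : ℝ × ℝ | |y.1| ≤ e} :=
      measurableSet_le (by fun_prop) measurable_const
    have h2 : MeasurableSet {y : ℝ × ℝ | |lnE g1 g2 y| ≤ A * |y.1|} :=
      measurableSet_le ((tn_lnE_cont g1 g2).measurable.abs) (by fun_prop)
    exact h1.inter h2
  classical
  set M' : YX → ℂ := fun p => if p.1 ∈ E then pd α β p else 0 with hM'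
  rw [← tn_mask _ _ T (pd α β) E hEm M' (fun p hp => by rw [hM']; simp only [if_pos hp])
    (fun p hp => by rw [hM']; simp only [if_neg hp])]
  have hM'm : Measurable M' :=
    Measurable.ite (measurable_fst hEm) (m2_pd_meas hα hβ) measurable_const
  have hM'1 : ∀ p, ‖M' p‖ ≤ 1 := by
    intro p
    rw [hM']
    simp only
    split_ifs
    · exact m2_pd_norm hα1 hβ1 p
    · simp
  rw [Thg_eq _ _ _ _ hadm T hT M' hM'm hM'1, ← ofReal_norm]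
  apply ENNReal.ofReal_le_ofReal
  have key : ∀ {p : YX}, M' p ≠ 0 → p.1 ∈ E ∧ α (p.1.1, p.2.1) ≠ 0 ∧ β (p.1.2, p.2.2) ≠ 0 := by
    intro p hp
    rw [hM'] at hp
    simp only at hp
    split_ifs at hp with h1
    · unfold pd at hp
      exact ⟨h1, left_ne_zero_of_mul hp, right_ne_zero_of_mul hp⟩
    · exact absurd rfl hp
  have hS := h 2 _ _ (by
      have := hadm
      norm_num at this ⊢
      exact this) T hT (sqM M')
    ((Icc (-e) e ×ˢ Icc (-1) 1 ×ˢ Icc (-1) 1) ×ˢ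
      (Icc (-(4 * (4 + A) * e)) (4 * (4 + A) * e) ×ˢ Icc (-1) 1 ×ˢ Icc (-1) 1)) 0
    (64 * (e * 1 * 1 * (4 * (4 + A) * e * 1 * 1))) ?_ ?_ ?_ (by positivity)
    (le_of_eq (cg_vol e 1 1 (4 * (4 + A) * e) 1 1 he zero_le_one zero_le_one (by positivity)
      zero_le_one zero_le_one)) le_rfl (fun q _ => abs_nonneg _)
  · refine hS.trans (le_of_eq ?_)
    rw [mul_zero, add_zero, one_pow, div_one]
    ring
  · unfold sqM
    exact (hM'm.comp (by fun_prop)).mul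
      (Complex.continuous_conj.measurable.comp (hM'm.comp (by fun_prop)))
  · intro q
    unfold sqM
    rw [norm_mul, RCLike.norm_conj]
    exact mul_le_one₀ (hM'1 _) (norm_nonneg _) (hM'1 _)
  · intro q hq _
    unfold sqM at hq
    obtain ⟨h1, h2⟩ := mul_ne_zero_iff.1 hq
    obtain ⟨⟨a1, a2⟩, a3, a4⟩ := key h1
    have h2' : M' ((q.1.1, q.2.1), (q.1.2.1 - q.1.2.2, q.2.2.1 - q.2.2.2)) ≠ 0 := by
      intro h3
      apply h2
      rw [h3, map_zero]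
    obtain ⟨-, b3, b4⟩ := key h2'
    simp only at a1 a2 a3 a4 b3 b4
    have c1 := (hαs _ a3).1
    have c2 := (hβs _ a4).1
    have c3 := (hαs _ b3).1
    have c4 := (hβs _ b4).1
    simp only at c1 c2 c3 c4
    have hy2 : |q.2.1| ≤ 4 * (4 + A) * e := by
      have e1 : |g2 * q.2.1| ≤ (4 + A) * e := by
        have e2 : g2 * q.2.1 = lnE g1 g2 (q.1.1, q.2.1) - g1 * q.1.1 := by
          unfold lnE
          ring
        rw [e2]
        refine (abs_sub _ _).trans ?_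
        have e3 : |g1 * q.1.1| ≤ 4 * e := by
          rw [abs_mul]
          have e4 : |g1| ≤ 4 := abs_le.2 ⟨by linarith, by linarith⟩
          exact mul_le_mul e4 a1 (abs_nonneg _) (by norm_num)
        have e5 : A * |q.1.1| ≤ A * e := mul_le_mul_of_nonneg_left a1 hA0
        linarith
      rw [abs_mul, abs_of_pos (by linarith)] at e1
      nlinarith [abs_nonneg q.2.1]
    have small : ∀ x z : ℝ, |x| ≤ r → |x - z| ≤ r → |z| ≤ 1 := by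
      intro x z h3 h4
      rw [abs_le] at *
      constructor <;> linarith [h3.1, h3.2, h4.1, h4.2]
    have one : ∀ x : ℝ, |x| ≤ r → x ∈ Icc (-1 : ℝ) 1 := by
      intro x h3
      rw [abs_le] at h3
      exact ⟨by linarith [h3.1], by linarith [h3.2]⟩
    exact ⟨⟨abs_le.1 a1, one _ c1, abs_le.1 (small _ _ c1 c3)⟩,
      abs_le.1 hy2, one _ c2, abs_le.1 (small _ _ c2 c4)⟩

end Pool.Agent.SDT.N1Q

end -- N1Q.Tan2
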