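import Pool.Agent.SDT.B67

set_option autoImplicit false

namespace Pool.Agent.SDT.MP_6cbfb8_an
end Pool.Agent.SDT.MP_6cbfb8_an
namespace Pool.Agent.SDT.MST
end Pool.Agent.SDT.MST
namespace Pool.Agent.SDT.N1
end Pool.Agent.SDT.N1

section -- N1F.CHb

/-!
N1F, block A6, part b: blocks of type N (outer or inner difference).
-/

namespace Pool.Agent.SDT.N1F

open MeasureTheory Set Metric Pool.Agent.SDT.MP_6cbfb8_an Pool.Agent.SDT.MST Pool.Agent.SDT.N1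
open scoped ENNReal Real ContDiff

/-- the conclusion of THF -/
def ch_THF (c K r C : ℝ) : Prop :=
    ∀ T : ℝ, 1 ≤ T → ∀ al be : ℝ, 0 < al → al ≤ 1 → 0 < be → be ≤ 1 → al * be ≤ r →
    ∀ ρ : ℝ, 0 < ρ → ∀ x0 : ℝ × ℝ, ∀ α β : ℝ × ℝ → ℂ, Measurable α → Measurable β →
      (∀ p, ‖α p‖ ≤ 1) → (∀ p, ‖β p‖ ≤ 1) →
      CapS al r x0.1 (al * be ^ 2 * ρ) K α → CapS be r x0.2 (be * ρ) K β →
      Th c T (pd α β) ≤ ENNReal.ofReal (C * (1 + Real.log T) ^ 5 / T)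

theorem ch_CapS {al r r' x sy K η : ℝ} {G : ℝ → ℂ} {j : ℕ} (hal : 0 < al) (hG : CapG al r x G)
    (hr : r ≤ r') (h : ∀ y, uj j y ≠ 0 → 1 / K ≤ |y / sy| ∧ |y / sy| ≤ K) :
    CapS al r' x sy K (m2_ac j G η) := by
  intro p hp
  obtain ⟨h1, h2, h3⟩ := m2_ac_ne hp
  obtain ⟨a1, a2, a3⟩ := hG _ h2
  obtain ⟨b1, b2, b3⟩ := hG _ h3
  obtain ⟨c1, c2⟩ := h _ h1
  have h4 : r * al ≤ r' * al := by gcongr
  exact ⟨a1, a2, b1, b2, a3.trans h4, b3.trans h4, c1, c2⟩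

theorem ch_scale {K e Y1 Y2 : ℝ} {j : ℕ} (hK : 1 ≤ K) (he : 0 < e) (hY2 : 0 < Y2)
    (hY1 : Y1 = 1 / 2 ^ j) (h : ch_ty K e Y1 Y2) (y : ℝ) (hy : uj j y ≠ 0) :
    1 / (2 * K) ≤ |y / (e * Y2)| ∧ |y / (e * Y2)| ≤ 2 * K := by
  obtain ⟨h1, h2⟩ := uj_support j y hy
  obtain ⟨h3, h4⟩ := h
  have hj : (0 : ℝ) < 2 ^ j := by positivity
  have hY : 0 < Y1 := by rw [hY1]; positivity
  have e1 : (1 : ℝ) / 2 ^ (j + 1) = Y1 / 2 := by rw [hY1, pow_succ]; ring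
  have e2 : (2 : ℝ) / 2 ^ j = 2 * Y1 := by rw [hY1]; ring
  rw [e1] at h1
  rw [e2] at h2
  have hp : 0 < e * Y2 := by positivity
  rw [abs_div, abs_of_pos hp]
  constructor
  · rw [div_le_div_iff₀ (by positivity) hp]
    nlinarith
  · rw [div_le_iff₀ hp]
    nlinarith

theorem ch_scale1 {K Y : ℝ} {j : ℕ} (hK : 1 ≤ K) (hY : Y = 1 / 2 ^ j) (y : ℝ) (hy : uj j y ≠ 0) :
    1 / (2 * K) ≤ |y / Y| ∧ |y / Y| ≤ 2 * K := by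
  obtain ⟨h1, h2⟩ := m2_uj_scale1 hy
  rw [hY]
  refine ⟨le_trans ?_ h1, h2.trans ?_⟩
  · rw [div_le_div_iff₀ (by positivity) (by norm_num)]
    linarith
  · linarith

theorem ch_Th (c : ℝ) (K r' C : ℝ) (hK : 1 ≤ K) (hTH : ch_THF c (2 * K) r' C)
    (T : ℝ) (hT : 1 ≤ T) (al be : ℝ) (hal : 0 < al) (hal1 : al ≤ 1) (hbe : 0 < be) (hbe1 : be ≤ 1)
    (r : ℝ) (hr : r ≤ r') (hab : al * be ≤ r) (x1 x2 : ℝ) (G₁ G₂ : ℝ → ℂ) (h1 : Measurable G₁)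
    (h2 : Measurable G₂) (b1 : ∀ a, ‖G₁ a‖ ≤ 1) (b2 : ∀ a, ‖G₂ a‖ ≤ 1) (hG1 : CapG al r x1 G₁)
    (hG2 : CapG be r x2 G₂) (j k : ℕ)
    (hjk : ch_ty K (al * be) (1 / 2 ^ j) (1 / 2 ^ k) ∨ ch_ty K (al * be) (1 / 2 ^ k) (1 / 2 ^ j))
    (η₁ η₂ : ℝ) :
    Th c T (pd (m2_ac j G₁ η₁) (m2_ac k G₂ η₂)) ≤
      ENNReal.ofReal (C * (1 + Real.log T) ^ 5 / T) := by
  have he : 0 < al * be := by positivity
  rcases hjk with hjk | hjk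
  · have e1 : al * be ^ 2 * (1 / 2 ^ k / be) = al * be * (1 / 2 ^ k) := by
      field_simp
    have e2 : be * (1 / 2 ^ k / be) = 1 / (2 : ℝ) ^ k := by
      field_simp
    refine hTH T hT al be hal hal1 hbe hbe1 (hab.trans hr) (1 / 2 ^ k / be) (by positivity)
      (x1, x2) _ _ (m2_ac_meas j η₁ h1) (m2_ac_meas k η₂ h2) (m2_ac_norm j η₁ b1)
      (m2_ac_norm k η₂ b2) (ch_CapS hal hG1 hr ?_) (ch_CapS hbe hG2 hr ?_)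
    · rw [e1]
      exact ch_scale hK he (by positivity) rfl hjk
    · rw [e2]
      exact ch_scale1 hK rfl
  · rw [Th_comm]
    have e1 : be * al ^ 2 * (1 / 2 ^ j / al) = al * be * (1 / 2 ^ j) := by
      field_simp
    have e2 : al * (1 / 2 ^ j / al) = 1 / (2 : ℝ) ^ j := by
      field_simp
    refine hTH T hT be al hbe hbe1 hal hal1 (by rw [mul_comm]; exact hab.trans hr)
      (1 / 2 ^ j / al) (by positivity)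
      (x2, x1) _ _ (m2_ac_meas k η₂ h2) (m2_ac_meas j η₁ h1) (m2_ac_norm k η₂ b2)
      (m2_ac_norm j η₁ b1) (ch_CapS hbe hG2 hr ?_) (ch_CapS hal hG1 hr ?_)
    · rw [e1]
      exact ch_scale hK he (by positivity) rfl hjk
    · rw [e2]
      exact ch_scale1 hK rfl

/-- Outer difference of type N. -/
theorem ch_N (c : ℝ) (hc : 0 < c) (T : ℝ) (hT : 1 ≤ T) (G₁ G₂ : ℝ → ℂ) (h1 : Measurable G₁)
    (h2 : Measurable G₂) (b1 : ∀ a, ‖G₁ a‖ ≤ 1) (b2 : ∀ a, ‖G₂ a‖ ≤ 1) (j k : ℕ) (η₁ η₂ Q : ℝ)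
    (hQ : 0 ≤ Q) (hTh : Th c T (pd (m2_ac j G₁ η₁) (m2_ac k G₂ η₂)) ≤ ENNReal.ofReal Q) :
    ‖FF c T (fun q => m2_psi j k (q.1.1, q.2.1) *
      (ex (η₁ * q.1.2.2) * ex (η₂ * q.2.2.2) * m2_Q G₁ G₂ q))‖ ≤ Q := by
  have hT0 : 0 < T := by linarith
  refine m2_enorm_le hQ ?_
  have h3 := FF_weight c hc T hT0 (pd (m2_al G₁ η₁) (m2_al G₂ η₂))
    (m2_pd_meas (m2_al_meas h1 η₁) (m2_al_meas h2 η₂))
    (m2_pd_norm (m2_al_norm b1 η₁) (m2_al_norm b2 η₂)) (m2_psi j k) (m2_psi_meas j k)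
    (m2_psi_norm j k)
  rw [m2_ac_pd] at h3
  simp only [m2_sq_mod] at h3
  exact h3.trans hTh

/-- Inner difference of type N, any outer cut-offs. -/
theorem ch_DN (c : ℝ) (hc : 0 < c) (T : ℝ) (hT : 1 ≤ T) (G₁ G₂ : ℝ → ℂ) (h1 : Measurable G₁)
    (h2 : Measurable G₂) (b1 : ∀ a, ‖G₁ a‖ ≤ 1) (b2 : ∀ a, ‖G₂ a‖ ≤ 1) (j k : ℕ) (Q : ℝ)
    (hQ : 0 ≤ Q)
    (hTh : ∀ η₁ η₂ : ℝ, Th c T (pd (m2_ac j G₁ η₁) (m2_ac k G₂ η₂)) ≤ ENNReal.ofReal Q)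
    (B : ℝ) (m1 m2 : ℝ → ℂ) (hm1 : FT1 B m1) (hm2 : FT1 B m2) (m2m : Measurable m2)
    (m2b : ∀ x, ‖m2 x‖ ≤ 1) :
    ‖FF c T (fun q => m2_psi j k (q.1.2.2, q.2.2.2) *
      (m1 q.1.1 * m2 q.2.1 * m2_Q G₁ G₂ q))‖ ≤ B * (B * Q) := by
  have hT0 : 0 < T := by linarith
  have hQm := m2_Q_meas h1 h2
  have hQn := m2_Q_norm b1 b2
  have hpm : Measurable fun q : V × V => m2_psi j k (q.1.2.2, q.2.2.2) :=
    (m2_psi_meas j k).comp (by fun_prop)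
  -- the innermost estimate
  have k1 : ∀ η₁ η₂ : ℝ, ‖FF c T (fun q => ex (η₂ * q.2.1) * (ex (η₁ * q.1.1) *
      (m2_psi j k (q.1.2.2, q.2.2.2) * m2_Q G₁ G₂ q)))‖ ≤ Q := by
    intro η₁ η₂
    have h3 := ch_N c hc T hT G₁ G₂ h1 h2 b1 b2 j k η₁ η₂ Q hQ (hTh η₁ η₂)
    rw [← FF_swp] at h3
    have h4 : (fun q : V × V => m2_psi j k ((swp q).1.1, (swp q).2.1) *
        (ex (η₁ * (swp q).1.2.2) * ex (η₂ * (swp q).2.2.2) * m2_Q G₁ G₂ (swp q))) =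
        fun q => ex (η₂ * q.2.1) * (ex (η₁ * q.1.1) *
          (m2_psi j k (q.1.2.2, q.2.2.2) * m2_Q G₁ G₂ q)) := by
      funext q
      rw [m2_Q_swp]
      unfold swp
      simp only
      ring
    rw [h4] at h3
    exact h3
  have k2 : ∀ η₁ : ℝ, ‖FF c T (fun q => ex (η₁ * q.1.1) * (m2 q.2.1 *
      (m2_psi j k (q.1.2.2, q.2.2.2) * m2_Q G₁ G₂ q)))‖ ≤ B * Q := by
    intro η₁
    have h3 := expand c hc T hT0 B m2 hm2 (fun q => ex (η₁ * q.1.1) *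
      (m2_psi j k (q.1.2.2, q.2.2.2) * m2_Q G₁ G₂ q)) ?_ 1 ?_ (fun q => q.2.1) (by fun_prop)
      Q (k1 η₁)
    · have h4 : (fun q : V × V => ex (η₁ * q.1.1) * (m2 q.2.1 *
          (m2_psi j k (q.1.2.2, q.2.2.2) * m2_Q G₁ G₂ q))) =
          fun q : V × V => m2 q.2.1 * (ex (η₁ * q.1.1) *
          (m2_psi j k (q.1.2.2, q.2.2.2) * m2_Q G₁ G₂ q)) := by
        funext q
        ring
      rw [h4]
      exact h3
    · exact (measurable_ex.comp (by fun_prop)).mul (hpm.mul hQm)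
    · intro q
      rw [norm_mul, norm_mul, m2_ex_norm, one_mul]
      exact mul_le_one₀ (m2_psi_norm _ _ _) (norm_nonneg _) (hQn _)
  have h3 := expand c hc T hT0 B m1 hm1 (fun q => m2 q.2.1 *
      (m2_psi j k (q.1.2.2, q.2.2.2) * m2_Q G₁ G₂ q)) ?_ 1 ?_ (fun q => q.1.1) (by fun_prop)
      (B * Q) k2
  · have h4 : (fun q : V × V => m2_psi j k (q.1.2.2, q.2.2.2) *
        (m1 q.1.1 * m2 q.2.1 * m2_Q G₁ G₂ q)) =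
        fun q : V × V => m1 q.1.1 * (m2 q.2.1 *
          (m2_psi j k (q.1.2.2, q.2.2.2) * m2_Q G₁ G₂ q)) := by
      funext q
      ring
    rw [h4]
    exact h3
  · exact (m2m.comp (by fun_prop)).mul (hpm.mul hQm)
  · intro q
    rw [norm_mul, norm_mul]
    exact mul_le_one₀ (m2b _) (by positivity)
      (mul_le_one₀ (m2_psi_norm _ _ _) (norm_nonneg _) (hQn _))

end Pool.Agent.SDT.N1F

end -- N1F.CHb

section -- N1F.CHc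

/-!
N1F, block A6, part c: both differences of type O.
-/

namespace Pool.Agent.SDT.N1F

open MeasureTheory Set Metric Pool.Agent.SDT.MP_6cbfb8_an Pool.Agent.SDT.MST Pool.Agent.SDT.N1
open scoped ENNReal Real ContDiff

/-- the conclusion of propI2 -/
def ch_I2 (c K δ C : ℝ) : Prop :=
    ∀ T al be ρ₁ ρ₂ γ₁ γ₂ : ℝ, 0 < T →
      0 < al → al ≤ 1 → 0 < be → be ≤ 1 → al * be ≤ δ →
      0 < ρ₁ → ρ₁ < δ → 0 < ρ₂ → ρ₂ < δ → 0 < γ₁ → γ₁ < δ → 0 < γ₂ → γ₂ < δ →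
      al ^ 2 * ρ₁ * γ₁ ≤ K * (be ^ 2 * ρ₂ * γ₂) → be ^ 2 * ρ₂ * γ₂ ≤ K * (al ^ 2 * ρ₁ * γ₁) →
      be ^ 2 * γ₂ ≤ K * γ₁ → be ^ 2 * ρ₂ ≤ K * ρ₁ →
      ∀ A B : V → ℂ, Measurable A → Measurable B → (∀ a, ‖A a‖ ≤ 1) → (∀ b, ‖B b‖ ≤ 1) →
      (∀ u, A u ≠ 0 → GB (al * ρ₁) al (al * γ₁) K u) →
      (∀ v, B v ≠ 0 → GB (be * ρ₂) be (be * γ₂) K v) →
      ‖FF c T (tp A B)‖ ≤ C / T

/-- the conclusion of E_DDF -/
def ch_DD (c K r c1 : ℝ) : Prop := ∀ al be : ℝ,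
    0 < al → al ≤ 1 → 0 < be → be ≤ 1 → ∀ q : V × V,
    (Ge al q.1 ∧ q.1.2.1 ≤ 2 * al ∧ |q.1.1| ≤ r * al ∧ |q.1.2.2| ≤ r * al) →
    (Ge be q.2 ∧ q.2.2.1 ≤ 2 * be ∧ |q.2.1| ≤ r * be ∧ |q.2.2.2| ≤ r * be) →
    Wr c q.1 q.2 ≠ 0 →
    (K * (|q.2.1| * |q.2.2.2|) ≤ |q.1.1| * |q.1.2.2| →
      K * (al * be * (|q.1.1| * |q.2.2.2|)) ≤ |q.1.1| * |q.1.2.2| →
      K * (al * be * (|q.2.1| * |q.1.2.2|)) ≤ |q.1.1| * |q.1.2.2| →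
      c1 * (|q.1.1| * |q.1.2.2|) ≤ |Fr c q.1 q.2|) ∧
    (K * (|q.1.1| * |q.1.2.2|) ≤ |q.2.1| * |q.2.2.2| →
      K * (al * be * (|q.1.1| * |q.2.2.2|)) ≤ |q.2.1| * |q.2.2.2| →
      K * (al * be * (|q.2.1| * |q.1.2.2|)) ≤ |q.2.1| * |q.2.2.2| →
      c1 * (|q.2.1| * |q.2.2.2|) ≤ |Fr c q.1 q.2|) ∧
    (K * (|q.1.1| * |q.1.2.2|) ≤ al * be * (|q.1.1| * |q.2.2.2|) →
      K * (|q.2.1| * |q.2.2.2|) ≤ al * be * (|q.1.1| * |q.2.2.2|) →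
      K * (|q.2.1| * |q.1.2.2|) ≤ |q.1.1| * |q.2.2.2| →
      c1 * (al * be * (|q.1.1| * |q.2.2.2|)) ≤ |Fr c q.1 q.2|) ∧
    (K * (|q.1.1| * |q.1.2.2|) ≤ al * be * (|q.2.1| * |q.1.2.2|) →
      K * (|q.2.1| * |q.2.2.2|) ≤ al * be * (|q.2.1| * |q.1.2.2|) →
      K * (|q.1.1| * |q.2.2.2|) ≤ |q.2.1| * |q.1.2.2| →
      c1 * (al * be * (|q.2.1| * |q.1.2.2|)) ≤ |Fr c q.1 q.2|)

/-- the conclusion of the absolute estimate -/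
def ch_AB (c C : ℝ) : Prop := ∀ T : ℝ, 0 < T → ∀ (M : V × V → ℂ)
    (e1 e2 d1 d2 f0 : ℝ), Measurable M → (∀ q, ‖M q‖ ≤ 1) → 0 ≤ e1 → 0 ≤ e2 → 0 ≤ d1 → 0 ≤ d2 →
    0 ≤ f0 →
    (∀ q, M q ≠ 0 → Wr c q.1 q.2 ≠ 0 → |q.1.1| ≤ e1 ∧ |q.2.1| ≤ e2 ∧ |q.1.2.2| ≤ d1 ∧
      |q.2.2.2| ≤ d2 ∧ f0 ≤ |Fr c q.1 q.2|) →
    ‖FF c T M‖ ≤ C * T * (e1 * e2 * (d1 * d2)) / (1 + T * f0) ^ 3

/-- one factor of a block -/
noncomputable def ch_A (j l : ℕ) (G : ℝ → ℂ) (u : V) : ℂ :=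
  ((uj j u.1 * uj l u.2.2 : ℝ) : ℂ) *
    (da G (u.1, u.2.1) * (starRingEnd ℂ) (da G (u.1, u.2.1 - u.2.2)))

theorem ch_A_meas (j l : ℕ) {G : ℝ → ℂ} (hG : Measurable G) : Measurable (ch_A j l G) := by
  unfold ch_A
  refine Measurable.mul ?_ (Measurable.mul ?_ ?_)
  · exact Complex.measurable_ofReal.comp (((measurable_uj j).comp (by fun_prop)).mul
      ((measurable_uj l).comp (by fun_prop)))
  · exact (m2_da_meas hG).comp (by fun_prop)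
  · exact Complex.continuous_conj.measurable.comp ((m2_da_meas hG).comp (by fun_prop))

theorem ch_A_norm (j l : ℕ) {G : ℝ → ℂ} (hG : ∀ a, ‖G a‖ ≤ 1) (u : V) : ‖ch_A j l G u‖ ≤ 1 := by
  unfold ch_A
  refine m2_mul_norm (uj_abs_le _ _) (uj_abs_le _ _) ?_
  rw [norm_mul, RCLike.norm_conj]
  exact mul_le_one₀ (m2_da_norm hG _) (norm_nonneg _) (m2_da_norm hG _)

theorem ch_tp (j k l m : ℕ) (G₁ G₂ : ℝ → ℂ) : tp (ch_A j l G₁) (ch_A k m G₂) =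
    fun q : V × V => ((uj l q.1.2.2 * uj m q.2.2.2 : ℝ) : ℂ) *
      (((uj j q.1.1 * uj k q.2.1 : ℝ) : ℂ) * m2_Q G₁ G₂ q) := by
  funext q
  unfold tp ch_A m2_Q sqM pd
  simp only [map_mul]
  push_cast
  ring

theorem ch_A_ne {j l : ℕ} {G : ℝ → ℂ} {al r x : ℝ} (hG : CapG al r x G) {u : V}
    (h : ch_A j l G u ≠ 0) :
    (1 / 2 ^ j / 2 ≤ |u.1| ∧ |u.1| ≤ 2 * (1 / 2 ^ j)) ∧
    (1 / 2 ^ l / 2 ≤ |u.2.2| ∧ |u.2.2| ≤ 2 * (1 / 2 ^ l)) ∧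
    Ge al u ∧ u.2.1 ≤ 2 * al ∧ |u.1| ≤ 2 * r * al ∧ |u.2.2| ≤ 2 * r * al := by
  unfold ch_A at h
  obtain ⟨h1, h2⟩ := m2_mul_ne h
  have e1 : ∀ n : ℕ, (1 : ℝ) / 2 ^ (n + 1) = 1 / 2 ^ n / 2 := fun n => by rw [pow_succ]; ring
  have e2 : ∀ n : ℕ, (2 : ℝ) / 2 ^ n = 2 * (1 / 2 ^ n) := fun n => by ring
  have h3 := uj_support j _ (left_ne_zero_of_mul h1)
  have h4 := uj_support l _ (right_ne_zero_of_mul h1)
  rw [e1, e2] at h3 h4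
  have h5 := m2_da_ne (left_ne_zero_of_mul h2)
  have h6 : da G (u.1, u.2.1 - u.2.2) ≠ 0 := by
    intro h7
    rw [h7] at h2
    simp at h2
  have h7 := m2_da_ne h6
  simp only at h5 h7
  obtain ⟨a1, a2, a3⟩ := hG _ h5.1
  obtain ⟨b1, b2, b3⟩ := hG _ h5.2
  obtain ⟨c1, c2, c3⟩ := hG _ h7.1
  obtain ⟨d1, d2, d3⟩ := hG _ h7.2
  rw [sub_right_comm] at d1
  have key : ∀ y : ℝ, |u.2.1 - x| ≤ r * al → |u.2.1 - y - x| ≤ r * al → |y| ≤ 2 * r * al := by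
    intro y g1 g2
    rw [abs_le] at *
    constructor <;> linarith
  exact ⟨⟨h3.1.le, h3.2.le⟩, ⟨h4.1.le, h4.2.le⟩, ⟨a1, b1, c1, d1⟩, a2, key _ a3 b3, key _ a3 c3⟩

theorem ch_prod {a b X Y : ℝ} (hX : 0 < X) (hY : 0 < Y) (h1 : X / 2 ≤ a) (h2 : a ≤ 2 * X)
    (h3 : Y / 2 ≤ b) (h4 : b ≤ 2 * Y) : X * Y ≤ 4 * (a * b) ∧ a * b ≤ 4 * (X * Y) := by
  have ha : 0 ≤ a := le_trans (by positivity) h1
  have hb : 0 ≤ b := le_trans (by positivity) h3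
  constructor
  · have h5 : X / 2 * (Y / 2) ≤ a * b := mul_le_mul h1 h3 (by positivity) ha
    linarith
  · have h5 : a * b ≤ 2 * X * (2 * Y) := mul_le_mul h2 h4 hb (by positivity)
    linarith

theorem ch_GB {al K Y Z : ℝ} (hal : 0 < al) (hY : 0 < Y) (hZ : 0 < Z) (hK : 2 ≤ K) {u : V}
    (h1 : Y / 2 ≤ |u.1|) (h2 : |u.1| ≤ 2 * Y) (h3 : Z / 2 ≤ |u.2.2|) (h4 : |u.2.2| ≤ 2 * Z)
    (h5 : al ≤ u.2.1) (h6 : u.2.1 ≤ 2 * al) : GB (al * (Y / al)) al (al * (Z / al)) K u := by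
  have e1 : al * (Y / al) = Y := by field_simp
  have e2 : al * (Z / al) = Z := by field_simp
  have hK0 : 0 < K := by linarith
  have hK2 : 1 / K ≤ 1 / 2 := by
    rw [div_le_div_iff₀ hK0 (by norm_num)]
    linarith
  unfold GB
  rw [e1, e2, abs_div, abs_div, abs_of_pos hY, abs_of_pos hZ]
  refine ⟨⟨?_, ?_⟩, ⟨?_, ?_⟩, ?_, ?_⟩
  · rw [le_div_iff₀ hY]
    nlinarith
  · rw [div_le_iff₀ hY]
    nlinarith
  · rw [le_div_iff₀ hal]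
    nlinarith
  · rw [div_le_iff₀ hal]
    nlinarith
  · rw [le_div_iff₀ hZ]
    nlinarith
  · rw [div_le_iff₀ hZ]
    nlinarith

/-- Both differences of type O. -/
theorem ch_OO (c K0 r0 c1 CA δ CI : ℝ) (hK0 : 1 ≤ K0) (hc1 : 0 < c1) (hCA : 0 ≤ CA)
    (hDD : ch_DD c K0 r0 c1) (hAB : ch_AB c CA)
    (hI : ch_I2 c (16 * K0) δ CI) (r : ℝ) (hr0 : 2 * r ≤ r0) (hr2 : 4 * r < δ)
    (hr3 : r ≤ δ)
    (T : ℝ) (hT : 0 < T) (al be : ℝ) (hal : 0 < al) (hal1 : al ≤ 1) (hbe : 0 < be) (hbe1 : be ≤ 1)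
    (hab : al * be ≤ r) (x1 x2 : ℝ) (G₁ G₂ : ℝ → ℂ) (h1 : Measurable G₁)
    (h2 : Measurable G₂) (b1 : ∀ a, ‖G₁ a‖ ≤ 1) (b2 : ∀ a, ‖G₂ a‖ ≤ 1) (hG1 : CapG al r x1 G₁)
    (hG2 : CapG be r x2 G₂) (j k l m : ℕ)
    (t1 : ¬ ch_ty (16 * K0) (al * be) (1 / 2 ^ j) (1 / 2 ^ k))
    (t2 : ¬ ch_ty (16 * K0) (al * be) (1 / 2 ^ k) (1 / 2 ^ j))
    (t3 : ¬ ch_ty (16 * K0) (al * be) (1 / 2 ^ l) (1 / 2 ^ m))
    (t4 : ¬ ch_ty (16 * K0) (al * be) (1 / 2 ^ m) (1 / 2 ^ l)) :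
    ‖FF c T (tp (ch_A j l G₁) (ch_A k m G₂))‖ ≤ max (CA * (256 / c1 ^ 2)) CI / T := by
  have hM : Measurable (tp (ch_A j l G₁) (ch_A k m G₂)) := by
    unfold tp
    exact ((ch_A_meas j l h1).comp measurable_fst).mul ((ch_A_meas k m h2).comp measurable_snd)
  have hM1 : ∀ q, ‖tp (ch_A j l G₁) (ch_A k m G₂) q‖ ≤ 1 := by
    intro q
    unfold tp
    rw [norm_mul]
    exact mul_le_one₀ (ch_A_norm j l b1 _) (norm_nonneg _) (ch_A_norm k m b2 _)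
  by_cases hne : ∀ q, tp (ch_A j l G₁) (ch_A k m G₂) q = 0
  · have h3 : tp (ch_A j l G₁) (ch_A k m G₂) = fun _ => 0 := funext hne
    have h4 : FF c T (fun _ => 0) = 0 := by
      unfold FF
      simp
    rw [h3, h4, norm_zero]
    have h5 : 0 ≤ CA * (256 / c1 ^ 2) := by positivity
    exact div_nonneg (h5.trans (le_max_left _ _)) hT.le
  push Not at hne
  obtain ⟨q0, hq0⟩ := hne
  obtain ⟨hA0, hB0⟩ := mul_ne_zero_iff.1 (show ch_A j l G₁ q0.1 * ch_A k m G₂ q0.2 ≠ 0 from hq0)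
  set Y1 : ℝ := 1 / 2 ^ j with hY1
  set Y2 : ℝ := 1 / 2 ^ k with hY2
  set Z1 : ℝ := 1 / 2 ^ l with hZ1
  set Z2 : ℝ := 1 / 2 ^ m with hZ2
  have pY1 : 0 < Y1 := by positivity
  have pY2 : 0 < Y2 := by positivity
  have pZ1 : 0 < Z1 := by positivity
  have pZ2 : 0 < Z2 := by positivity
  have he : 0 < al * be := by positivity
  have he1 : al * be ≤ 1 := mul_le_one₀ hal1 hbe.le hbe1
  have hpt : ∀ q, tp (ch_A j l G₁) (ch_A k m G₂) q ≠ 0 →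
      ((Y1 / 2 ≤ |q.1.1| ∧ |q.1.1| ≤ 2 * Y1) ∧ (Z1 / 2 ≤ |q.1.2.2| ∧ |q.1.2.2| ≤ 2 * Z1) ∧
        Ge al q.1 ∧ q.1.2.1 ≤ 2 * al ∧ |q.1.1| ≤ 2 * r * al ∧ |q.1.2.2| ≤ 2 * r * al) ∧
      ((Y2 / 2 ≤ |q.2.1| ∧ |q.2.1| ≤ 2 * Y2) ∧ (Z2 / 2 ≤ |q.2.2.2| ∧ |q.2.2.2| ≤ 2 * Z2) ∧
        Ge be q.2 ∧ q.2.2.1 ≤ 2 * be ∧ |q.2.1| ≤ 2 * r * be ∧ |q.2.2.2| ≤ 2 * r * be) := by
    intro q hq
    obtain ⟨hA, hB⟩ := mul_ne_zero_iff.1 (show ch_A j l G₁ q.1 * ch_A k m G₂ q.2 ≠ 0 from hq)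
    exact ⟨ch_A_ne hG1 hA, ch_A_ne hG2 hB⟩
  -- the absolute estimate, given a lower bound by a size which dominates the first two
  have habs : ∀ s : ℝ, 0 ≤ s → Y1 * Z1 ≤ s → Y2 * Z2 ≤ s →
      (∀ q, tp (ch_A j l G₁) (ch_A k m G₂) q ≠ 0 → Wr c q.1 q.2 ≠ 0 →
        c1 * (s / 4) ≤ |Fr c q.1 q.2|) →
      ‖FF c T (tp (ch_A j l G₁) (ch_A k m G₂))‖ ≤ max (CA * (256 / c1 ^ 2)) CI / T := by
    intro s hs hs1 hs2 hlow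
    have h3 := hAB T hT _ (2 * Y1) (2 * Y2) (2 * Z1) (2 * Z2) (c1 * (s / 4)) hM hM1
      (by positivity) (by positivity) (by positivity) (by positivity) (by positivity) ?_
    · refine h3.trans ?_
      have h4 : 2 * Y1 * (2 * Y2) * (2 * Z1 * (2 * Z2)) ≤ 256 / c1 ^ 2 * (c1 * (s / 4)) ^ 2 := by
        have h5 : 256 / c1 ^ 2 * (c1 * (s / 4)) ^ 2 = 16 * (s * s) := by
          field_simp
          ring
        rw [h5]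
        have h6 : Y1 * Z1 * (Y2 * Z2) ≤ s * s := mul_le_mul hs1 hs2 (by positivity) hs
        linarith
      refine (MD.abs_num CA (256 / c1 ^ 2) T _ (c1 * (s / 4)) hCA hT (by positivity)
        (by positivity) h4).trans ?_
      gcongr
      exact le_max_left _ _
    · intro q hq hW
      obtain ⟨⟨⟨-, a2⟩, ⟨-, a4⟩, -⟩, ⟨-, a6⟩, ⟨-, a8⟩, -⟩ := hpt q hq
      exact ⟨a2, a6, a4, a8, hlow q hq hW⟩
  -- pointwise data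
  have hdat : ∀ q, tp (ch_A j l G₁) (ch_A k m G₂) q ≠ 0 → Wr c q.1 q.2 ≠ 0 →
      (Y1 * Z1 ≤ 4 * (|q.1.1| * |q.1.2.2|) ∧ |q.1.1| * |q.1.2.2| ≤ 4 * (Y1 * Z1)) ∧
      (Y2 * Z2 ≤ 4 * (|q.2.1| * |q.2.2.2|) ∧ |q.2.1| * |q.2.2.2| ≤ 4 * (Y2 * Z2)) ∧
      (Y1 * Z2 ≤ 4 * (|q.1.1| * |q.2.2.2|) ∧ |q.1.1| * |q.2.2.2| ≤ 4 * (Y1 * Z2)) ∧
      (Y2 * Z1 ≤ 4 * (|q.2.1| * |q.1.2.2|) ∧ |q.2.1| * |q.1.2.2| ≤ 4 * (Y2 * Z1)) := by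
    intro q hq hW
    obtain ⟨⟨⟨a1, a2⟩, ⟨a3, a4⟩, -⟩, ⟨a5, a6⟩, ⟨a7, a8⟩, -⟩ := hpt q hq
    exact ⟨ch_prod pY1 pZ1 a1 a2 a3 a4, ch_prod pY2 pZ2 a5 a6 a7 a8, ch_prod pY1 pZ2 a1 a2 a7 a8,
      ch_prod pY2 pZ1 a5 a6 a3 a4⟩
  have hE : ∀ q, tp (ch_A j l G₁) (ch_A k m G₂) q ≠ 0 → Wr c q.1 q.2 ≠ 0 → _ :=
    fun q hq hW => hDD al be hal hal1 hbe hbe1 q
      (by
        obtain ⟨⟨-, -, g1, g2, g3, g4⟩, -⟩ := hpt q hq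
        have h7 : 2 * r * al ≤ r0 * al := by gcongr
        exact ⟨g1, g2, g3.trans h7, g4.trans h7⟩)
      (by
        obtain ⟨-, -, -, g1, g2, g3, g4⟩ := hpt q hq
        have h7 : 2 * r * be ≤ r0 * be := by gcongr
        exact ⟨g1, g2, g3.trans h7, g4.trans h7⟩) hW
  have hKK : (1 : ℝ) ≤ 16 * K0 := by linarith
  rcases ch_sizes (16 * K0) (al * be) Y1 Y2 Z1 Z2 hKK he he1 pY1 pY2 pZ1 pZ2 t1 t2 t3 t4 with
    ⟨s2, s3, s4⟩ | ⟨s1, s3, s4⟩ | ⟨s1, s2, s4⟩ | ⟨s1, s2, s3⟩ | ⟨s1, s2, s3, s4⟩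
  · refine habs (Y1 * Z1) (by positivity) le_rfl ?_ ?_
    · have : 0 < Y2 * Z2 := by positivity
      nlinarith
    · intro q hq hW
      obtain ⟨⟨p1, p2⟩, ⟨p3, p4⟩, ⟨p5, p6⟩, p7, p8⟩ := hdat q hq hW
      have h3 := (hE q hq hW).1 ?_ ?_ ?_
      · refine le_trans ?_ h3
        gcongr
        linarith
      · have : K0 * (|q.2.1| * |q.2.2.2|) ≤ K0 * (4 * (Y2 * Z2)) := by gcongr
        linarith
      · have : K0 * (al * be * (|q.1.1| * |q.2.2.2|)) ≤ K0 * (al * be * (4 * (Y1 * Z2))) := by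
          gcongr
        linarith
      · have : K0 * (al * be * (|q.2.1| * |q.1.2.2|)) ≤ K0 * (al * be * (4 * (Y2 * Z1))) := by
          gcongr
        linarith
  · refine habs (Y2 * Z2) (by positivity) ?_ le_rfl ?_
    · have : 0 < Y1 * Z1 := by positivity
      nlinarith
    · intro q hq hW
      obtain ⟨⟨p1, p2⟩, ⟨p3, p4⟩, ⟨p5, p6⟩, p7, p8⟩ := hdat q hq hW
      have h3 := (hE q hq hW).2.1 ?_ ?_ ?_
      · refine le_trans ?_ h3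
        gcongr
        linarith
      · have : K0 * (|q.1.1| * |q.1.2.2|) ≤ K0 * (4 * (Y1 * Z1)) := by gcongr
        linarith
      · have : K0 * (al * be * (|q.1.1| * |q.2.2.2|)) ≤ K0 * (al * be * (4 * (Y1 * Z2))) := by
          gcongr
        linarith
      · have : K0 * (al * be * (|q.2.1| * |q.1.2.2|)) ≤ K0 * (al * be * (4 * (Y2 * Z1))) := by
          gcongr
        linarith
  · refine habs (al * be * (Y1 * Z2)) (by positivity) ?_ ?_ ?_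
    · have : 0 < Y1 * Z1 := by positivity
      nlinarith
    · have : 0 < Y2 * Z2 := by positivity
      nlinarith
    · intro q hq hW
      obtain ⟨⟨p1, p2⟩, ⟨p3, p4⟩, ⟨p5, p6⟩, p7, p8⟩ := hdat q hq hW
      have p5' : al * be * (Y1 * Z2) ≤ al * be * (4 * (|q.1.1| * |q.2.2.2|)) := by gcongr
      have h3 := (hE q hq hW).2.2.1 ?_ ?_ ?_
      · refine le_trans ?_ h3
        gcongr
        linarith
      · have : K0 * (|q.1.1| * |q.1.2.2|) ≤ K0 * (4 * (Y1 * Z1)) := by gcongr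
        linarith
      · have : K0 * (|q.2.1| * |q.2.2.2|) ≤ K0 * (4 * (Y2 * Z2)) := by gcongr
        linarith
      · have : K0 * (|q.2.1| * |q.1.2.2|) ≤ K0 * (4 * (Y2 * Z1)) := by gcongr
        linarith
  · refine habs (al * be * (Y2 * Z1)) (by positivity) ?_ ?_ ?_
    · have : 0 < Y1 * Z1 := by positivity
      nlinarith
    · have : 0 < Y2 * Z2 := by positivity
      nlinarith
    · intro q hq hW
      obtain ⟨⟨p1, p2⟩, ⟨p3, p4⟩, ⟨p5, p6⟩, p7, p8⟩ := hdat q hq hW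
      have p7' : al * be * (Y2 * Z1) ≤ al * be * (4 * (|q.2.1| * |q.1.2.2|)) := by gcongr
      have h3 := (hE q hq hW).2.2.2 ?_ ?_ ?_
      · refine le_trans ?_ h3
        gcongr
        linarith
      · have : K0 * (|q.1.1| * |q.1.2.2|) ≤ K0 * (4 * (Y1 * Z1)) := by gcongr
        linarith
      · have : K0 * (|q.2.1| * |q.2.2.2|) ≤ K0 * (4 * (Y2 * Z2)) := by gcongr
        linarith
      · have : K0 * (|q.1.1| * |q.2.2.2|) ≤ K0 * (4 * (Y1 * Z2)) := by gcongr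
        linarith
  · -- comparable sizes
    obtain ⟨⟨⟨a1, -⟩, ⟨a3, -⟩, -, -, g1, g2⟩, ⟨a5, -⟩, ⟨a7, -⟩, -, -, g3, g4⟩ := hpt q0 hq0
    have small : ∀ X y w : ℝ, 0 < w → X / 2 ≤ y → y ≤ 2 * r * w → X / w < δ := by
      intro X y w hw h3 h4
      rw [div_lt_iff₀ hw]
      nlinarith
    have q1 : al ^ 2 * (Y1 / al) * (Z1 / al) = Y1 * Z1 := by field_simp
    have q2 : be ^ 2 * (Y2 / be) * (Z2 / be) = Y2 * Z2 := by field_simp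
    have aux : ∀ X Z : ℝ, al * be * X ≤ 16 * K0 * Z → be ^ 2 * (X / be) ≤ 16 * K0 * (Z / al) := by
      intro X Z h3
      have h4 : be ^ 2 * (X / be) = be * X := by field_simp
      rw [h4, mul_div_assoc', le_div_iff₀ hal]
      linarith
    have q3 : be ^ 2 * (Z2 / be) ≤ 16 * K0 * (Z1 / al) := aux _ _ s3
    have q4 : be ^ 2 * (Y2 / be) ≤ 16 * K0 * (Y1 / al) := aux _ _ s4
    have h3 := hI T al be (Y1 / al) (Y2 / be) (Z1 / al) (Z2 / be) hT hal hal1 hbe hbe1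
      (hab.trans hr3) (by positivity) (small _ _ _ hal a1 g1) (by positivity)
      (small _ _ _ hbe a5 g3) (by positivity) (small _ _ _ hal a3 g2) (by positivity)
      (small _ _ _ hbe a7 g4) (by rw [q1, q2]; exact s1) (by rw [q1, q2]; exact s2) q3 q4
      (ch_A j l G₁) (ch_A k m G₂) (ch_A_meas j l h1) (ch_A_meas k m h2) (ch_A_norm j l b1)
      (ch_A_norm k m b2) ?_ ?_
    · refine h3.trans ?_
      gcongr
      exact le_max_right _ _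
    · intro u hu
      obtain ⟨⟨u1, u2⟩, ⟨u3, u4⟩, u5, u6, -, -⟩ := ch_A_ne hG1 hu
      exact ch_GB hal pY1 pZ1 (by linarith) u1 u2 u3 u4 u5.1 u6
    · intro u hu
      obtain ⟨⟨u1, u2⟩, ⟨u3, u4⟩, u5, u6, -, -⟩ := ch_A_ne hG2 hu
      exact ch_GB hbe pY2 pZ2 (by linarith) u1 u2 u3 u4 u5.1 u6

end Pool.Agent.SDT.N1F

end -- N1F.CHc

section -- N1F.CHd

/-!
N1F, block A6, part d: the estimate for one cap.
-/

namespace Pool.Agent.SDT.N1F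

open MeasureTheory Set Metric Pool.Agent.SDT.MP_6cbfb8_an Pool.Agent.SDT.MST Pool.Agent.SDT.N1
open scoped ENNReal Real ContDiff

/-- The low part of a partition. -/
theorem ch_low (c : ℝ) (hc : 0 < c) : ∃ C : ℝ, 0 ≤ C ∧ ∀ T : ℝ, 1 ≤ T → ∀ J : ℕ,
    T ^ 2 ≤ 2 ^ J → ∀ (M : V × V → ℂ) (Y : V × V → ℝ × ℝ), Measurable M →
    (∀ q, ‖M q‖ ≤ 1) → Measurable Y →
    (∀ q, M q ≠ 0 → |q.1.1| ≤ 1 ∧ |q.2.1| ≤ 1 ∧ |q.1.2.2| ≤ 1 ∧ |q.2.2.2| ≤ 1) →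
    ((∀ q, Y q = (q.1.1, q.2.1)) ∨ (∀ q, Y q = (q.1.2.2, q.2.2.2))) →
    ‖FF c T (fun q => ((ch_rs J (Y q) : ℝ) : ℂ) * M q)‖ ≤ C / T := by
  obtain ⟨C, hC, h⟩ := FF_abs c hc
  refine ⟨256 * C, by positivity, ?_⟩
  intro T hT J hJ M Y hM hM1 hY hMs hYc
  have hT0 : 0 < T := by linarith
  set e : ℝ := 2 / 2 ^ J with he
  have he0 : 0 ≤ e := by positivity
  have hm : Measurable fun q => ((ch_rs J (Y q) : ℝ) : ℂ) * M q :=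
    (Complex.measurable_ofReal.comp ((ch_rs_meas J).comp hY)).mul hM
  have hn : ∀ q, ‖((ch_rs J (Y q) : ℝ) : ℂ) * M q‖ ≤ 1 := by
    intro q
    rw [norm_mul, Complex.norm_real, Real.norm_eq_abs]
    exact mul_le_one₀ (ch_rs_abs _ _) (norm_nonneg _) (hM1 _)
  have hW : ∀ q : V × V, Wr c q.1 q.2 ≠ 0 → |q.1.2.1| ≤ 1 ∧ |q.2.2.1| ≤ 1 := by
    intro q hW
    have h7 : wf c q.1.2.1 q.2.2.1 ≠ 0 := by
      intro h8
      apply hW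
      unfold Wr
      rw [h8]
      simp
    have h8 := m2_wf_ne hc h7
    have h9 : 0 ≤ c ^ 2 / 4 := by positivity
    refine ⟨?_, ?_⟩
    · rw [← sq_le_one_iff_abs_le_one]
      nlinarith [sq_nonneg q.2.2.1]
    · rw [← sq_le_one_iff_abs_le_one]
      nlinarith [sq_nonneg q.1.2.1]
  have hne : ∀ q, ((ch_rs J (Y q) : ℝ) : ℂ) * M q ≠ 0 →
      (|(Y q).1| ≤ e ∨ |(Y q).2| ≤ e) ∧ M q ≠ 0 := by
    intro q hq
    refine ⟨ch_rs_ne ?_, right_ne_zero_of_mul hq⟩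
    intro h3
    rw [h3] at hq
    simp at hq
  -- the volume of a box
  have vol : ∀ a1 a2 a3 a4 a5 a6 : ℝ, 0 ≤ a1 → 0 ≤ a2 → 0 ≤ a3 → 0 ≤ a4 → 0 ≤ a5 → 0 ≤ a6 →
      volume ((Icc (-a1) a1 ×ˢ Icc (-a2) a2 ×ˢ Icc (-a3) a3) ×ˢ
        (Icc (-a4) a4 ×ˢ Icc (-a5) a5 ×ˢ Icc (-a6) a6) : Set (V × V)) =
        ENNReal.ofReal (64 * (a1 * a2 * a3 * (a4 * a5 * a6))) := by
    intro a1 a2 a3 a4 a5 a6 g1 g2 g3 g4 g5 g6
    rw [Measure.volume_eq_prod, Measure.prod_prod, Measure.volume_eq_prod, Measure.prod_prod,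
      Measure.prod_prod, Measure.volume_eq_prod, Measure.prod_prod, Measure.prod_prod,
      Real.volume_Icc, Real.volume_Icc,
      Real.volume_Icc, Real.volume_Icc, Real.volume_Icc, Real.volume_Icc,
      ← ENNReal.ofReal_mul (by linarith), ← ENNReal.ofReal_mul (by linarith),
      ← ENNReal.ofReal_mul (by linarith), ← ENNReal.ofReal_mul (by linarith),
      ← ENNReal.ofReal_mul]
    · congr 1
      ring
    · have : 0 ≤ a1 * (a2 * a3) := by positivity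
      nlinarith
  have fin : ∀ S : Set (V × V), volume S ≤ ENNReal.ofReal (64 * e) + ENNReal.ofReal (64 * e) →
      (∀ q, ((ch_rs J (Y q) : ℝ) : ℂ) * M q ≠ 0 → Wr c q.1 q.2 ≠ 0 → q ∈ S) →
      ‖FF c T (fun q => ((ch_rs J (Y q) : ℝ) : ℂ) * M q)‖ ≤ 256 * C / T := by
    intro S hS hsub
    rw [← ENNReal.ofReal_add (by positivity) (by positivity)] at hS
    have h3 := h T hT0 _ S 0 (64 * e + 64 * e) hm hn hsub (by positivity) hS le_rfl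
      (fun q _ => abs_nonneg _)
    refine h3.trans ?_
    rw [mul_zero, add_zero, one_pow, div_one, le_div_iff₀ hT0]
    have h4 : e * T ^ 2 ≤ 2 := by
      rw [he, div_mul_eq_mul_div, div_le_iff₀ (by positivity)]
      linarith
    calc C * T * (64 * e + 64 * e) * T = 128 * C * (e * T ^ 2) := by ring
      _ ≤ 128 * C * 2 := by gcongr
      _ = 256 * C := by ring
  have cast : ∀ {x : ℝ}, |x| ≤ e → x ∈ Icc (-e) e := fun {x} hx => abs_le.1 hx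
  have cast1 : ∀ {x : ℝ}, |x| ≤ 1 → x ∈ Icc (-1 : ℝ) 1 := fun {x} hx => abs_le.1 hx
  rcases hYc with hYc | hYc
  · refine fin (((Icc (-e) e ×ˢ Icc (-1) 1 ×ˢ Icc (-1) 1) ×ˢ
        (Icc (-1) 1 ×ˢ Icc (-1) 1 ×ˢ Icc (-1) 1)) ∪
        ((Icc (-1) 1 ×ˢ Icc (-1) 1 ×ˢ Icc (-1) 1) ×ˢ
        (Icc (-e) e ×ˢ Icc (-1) 1 ×ˢ Icc (-1) 1))) ?_ ?_
    · refine (measure_union_le _ _).trans (add_le_add (le_of_eq ?_) (le_of_eq ?_))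
      · rw [vol e 1 1 1 1 1 he0 zero_le_one zero_le_one zero_le_one zero_le_one zero_le_one]
        congr 1
        ring
      · rw [vol 1 1 1 e 1 1 zero_le_one zero_le_one zero_le_one he0 zero_le_one zero_le_one]
        congr 1
        ring
    · intro q hq hWq
      obtain ⟨h3, h4⟩ := hne q hq
      obtain ⟨g1, g2, g3, g4⟩ := hMs q h4
      obtain ⟨w1, w2⟩ := hW q hWq
      rw [hYc] at h3
      rcases h3 with h3 | h3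
      · exact Or.inl ⟨⟨cast h3, cast1 w1, cast1 g3⟩, cast1 g2, cast1 w2, cast1 g4⟩
      · exact Or.inr ⟨⟨cast1 g1, cast1 w1, cast1 g3⟩, cast h3, cast1 w2, cast1 g4⟩
  · refine fin (((Icc (-1) 1 ×ˢ Icc (-1) 1 ×ˢ Icc (-e) e) ×ˢ
        (Icc (-1) 1 ×ˢ Icc (-1) 1 ×ˢ Icc (-1) 1)) ∪
        ((Icc (-1) 1 ×ˢ Icc (-1) 1 ×ˢ Icc (-1) 1) ×ˢ
        (Icc (-1) 1 ×ˢ Icc (-1) 1 ×ˢ Icc (-e) e))) ?_ ?_
    · refine (measure_union_le _ _).trans (add_le_add (le_of_eq ?_) (le_of_eq ?_))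
      · rw [vol 1 1 e 1 1 1 zero_le_one zero_le_one he0 zero_le_one zero_le_one zero_le_one]
        congr 1
        ring
      · rw [vol 1 1 1 1 1 e zero_le_one zero_le_one zero_le_one zero_le_one zero_le_one he0]
        congr 1
        ring
    · intro q hq hWq
      obtain ⟨h3, h4⟩ := hne q hq
      obtain ⟨g1, g2, g3, g4⟩ := hMs q h4
      obtain ⟨w1, w2⟩ := hW q hWq
      rw [hYc] at h3
      rcases h3 with h3 | h3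
      · exact Or.inl ⟨⟨cast1 g1, cast1 w1, cast h3⟩, cast1 g2, cast1 w2, cast1 g4⟩
      · exact Or.inr ⟨⟨cast1 g1, cast1 w1, cast1 g3⟩, cast1 g2, cast1 w2, cast h3⟩

end Pool.Agent.SDT.N1F

end -- N1F.CHd

section -- N1F.CHe

/-!
N1F, block A6, part e: assembly for one cap.
-/

namespace Pool.Agent.SDT.N1F

open MeasureTheory Set Metric Pool.Agent.SDT.MP_6cbfb8_an Pool.Agent.SDT.MST Pool.Agent.SDT.N1
open scoped ENNReal Real ContDiff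

theorem ch_Q_le {al be r x1 x2 : ℝ} {G₁ G₂ : ℝ → ℂ} (hal : 0 < al) (hal1 : al ≤ 1) (hbe : 0 < be)
    (hbe1 : be ≤ 1) (h1 : CapG al r x1 G₁) (h2 : CapG be r x2 G₂)
    (hr : r ≤ 1 / 2) {q : V × V} (h : m2_Q G₁ G₂ q ≠ 0) :
    |q.1.1| ≤ 1 ∧ |q.2.1| ≤ 1 ∧ |q.1.2.2| ≤ 1 ∧ |q.2.2.2| ≤ 1 := by
  obtain ⟨⟨a1, a2, a3, a4⟩, b1, b2, b3, b4⟩ := m2_Q_ne h
  have key : ∀ (w x a y : ℝ), 0 < w → w ≤ 1 → |a - x| ≤ r * w → |a - y - x| ≤ r * w → |y| ≤ 1 := by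
    intro w x a y hw hw1 h3 h4
    have h5 : r * w ≤ 1 / 2 := by nlinarith
    rw [abs_le] at *
    constructor <;> linarith
  exact ⟨key al x1 _ _ hal hal1 (h1 _ a1).2.2 (h1 _ a2).2.2,
    key be x2 _ _ hbe hbe1 (h2 _ b1).2.2 (h2 _ b2).2.2,
    key al x1 _ _ hal hal1 (h1 _ a1).2.2 (h1 _ a3).2.2,
    key be x2 _ _ hbe hbe1 (h2 _ b1).2.2 (h2 _ b3).2.2⟩

/-- the data of one cap: all estimates for blocks -/
structure ch_dat (c T K e : ℝ) (G₁ G₂ : ℝ → ℂ) (Q O : ℝ) : Prop where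
  Q0 : 0 ≤ Q
  O0 : 0 ≤ O
  N : ∀ j k : ℕ, (ch_ty K e (1 / 2 ^ j) (1 / 2 ^ k) ∨ ch_ty K e (1 / 2 ^ k) (1 / 2 ^ j)) →
    ∀ η₁ η₂ : ℝ, Th c T (pd (m2_ac j G₁ η₁) (m2_ac k G₂ η₂)) ≤ ENNReal.ofReal Q
  OO : ∀ j k l m : ℕ, ¬ (ch_ty K e (1 / 2 ^ j) (1 / 2 ^ k) ∨ ch_ty K e (1 / 2 ^ k) (1 / 2 ^ j)) →
    ¬ (ch_ty K e (1 / 2 ^ l) (1 / 2 ^ m) ∨ ch_ty K e (1 / 2 ^ m) (1 / 2 ^ l)) →
    ‖FF c T (tp (ch_A j l G₁) (ch_A k m G₂))‖ ≤ O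
  le : ∀ q, m2_Q G₁ G₂ q ≠ 0 → |q.1.1| ≤ 1 ∧ |q.2.1| ≤ 1 ∧ |q.1.2.2| ≤ 1 ∧ |q.2.2.2| ≤ 1

/-- Outer difference of type O. -/
theorem ch_D (c : ℝ) (hc : 0 < c) (T : ℝ) (hT : 1 ≤ T) (K e : ℝ) (G₁ G₂ : ℝ → ℂ)
    (h1 : Measurable G₁) (h2 : Measurable G₂)
    (b1 : ∀ a, ‖G₁ a‖ ≤ 1) (b2 : ∀ a, ‖G₂ a‖ ≤ 1) (Q O : ℝ) (hd : ch_dat c T K e G₁ G₂ Q O)
    (B : ℝ) (hB : 0 ≤ B) (hu : ∀ n, FT1 B fun x => ((uj n x : ℝ) : ℂ)) (J : ℕ)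
    (CL : ℝ) (hlow : ∀ (M : V × V → ℂ) (Y : V × V → ℝ × ℝ), Measurable M →
      (∀ q, ‖M q‖ ≤ 1) → Measurable Y →
      (∀ q, M q ≠ 0 → |q.1.1| ≤ 1 ∧ |q.2.1| ≤ 1 ∧ |q.1.2.2| ≤ 1 ∧ |q.2.2.2| ≤ 1) →
      ((∀ q, Y q = (q.1.1, q.2.1)) ∨ (∀ q, Y q = (q.1.2.2, q.2.2.2))) →
      ‖FF c T (fun q => ((ch_rs J (Y q) : ℝ) : ℂ) * M q)‖ ≤ CL)
    (j k : ℕ) (hjk : ¬ (ch_ty K e (1 / 2 ^ j) (1 / 2 ^ k) ∨ ch_ty K e (1 / 2 ^ k) (1 / 2 ^ j))) :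
    ‖FF c T (fun q => ((uj j q.1.1 * uj k q.2.1 : ℝ) : ℂ) * m2_Q G₁ G₂ q)‖ ≤
      (J : ℝ) ^ 2 * (B * (B * Q) + O) + CL := by
  have hT0 : 0 < T := by linarith
  have hQ0 := hd.Q0
  have hO0 := hd.O0
  have hQm := m2_Q_meas h1 h2
  have hQn := m2_Q_norm b1 b2
  have hYm : Measurable fun q : V × V => (q.1.2.2, q.2.2.2) := by fun_prop
  have hMm : Measurable fun q : V × V => ((uj j q.1.1 * uj k q.2.1 : ℝ) : ℂ) * m2_Q G₁ G₂ q :=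
    (Complex.measurable_ofReal.comp (((measurable_uj j).comp (by fun_prop)).mul
      ((measurable_uj k).comp (by fun_prop)))).mul hQm
  have hMn : ∀ q : V × V, ‖((uj j q.1.1 * uj k q.2.1 : ℝ) : ℂ) * m2_Q G₁ G₂ q‖ ≤ 1 :=
    fun q => m2_mul_norm (uj_abs_le _ _) (uj_abs_le _ _) (hQn q)
  refine ch_part c hc T hT0 J (fun q => (q.1.2.2, q.2.2.2)) hYm
    (fun q => ((uj j q.1.1 * uj k q.2.1 : ℝ) : ℂ) * m2_Q G₁ G₂ q) hMm hMn ?_ _ _ ?_ ?_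
  · intro q hq
    have h3 := hd.le q (right_ne_zero_of_mul hq)
    exact ⟨h3.2.2.1, h3.2.2.2⟩
  · intro l m
    by_cases hlm : ch_ty K e (1 / 2 ^ l) (1 / 2 ^ m) ∨ ch_ty K e (1 / 2 ^ m) (1 / 2 ^ l)
    · have h3 := ch_DN c hc T hT G₁ G₂ h1 h2 b1 b2 l m Q hQ0 (hd.N l m hlm) B
        (fun x => ((uj j x : ℝ) : ℂ)) (fun x => ((uj k x : ℝ) : ℂ)) (hu j) (hu k)
        (Complex.measurable_ofReal.comp (measurable_uj k)) (fun x => by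
          rw [Complex.norm_real, Real.norm_eq_abs]
          exact uj_abs_le k x)
      have e1 : (fun q : V × V => m2_psi l m (q.1.2.2, q.2.2.2) *
          (((uj j q.1.1 : ℝ) : ℂ) * ((uj k q.2.1 : ℝ) : ℂ) * m2_Q G₁ G₂ q)) =
          fun q : V × V => ((uj l q.1.2.2 * uj m q.2.2.2 : ℝ) : ℂ) *
            (((uj j q.1.1 * uj k q.2.1 : ℝ) : ℂ) * m2_Q G₁ G₂ q) := by
        funext q
        unfold m2_psi
        push_cast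
        ring
      rw [e1] at h3
      linarith
    · have h3 := hd.OO j k l m hjk hlm
      rw [ch_tp] at h3
      have h4 : 0 ≤ B * (B * Q) := by positivity
      linarith
  · exact hlow _ _ hMm hMn hYm (fun q hq => hd.le q (right_ne_zero_of_mul hq))
      (Or.inr fun q => rfl)

/-- The form of one cap. -/
theorem ch_cap_FF (c : ℝ) (hc : 0 < c) (T : ℝ) (hT : 1 ≤ T) (K e : ℝ) (G₁ G₂ : ℝ → ℂ)
    (h1 : Measurable G₁) (h2 : Measurable G₂)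
    (b1 : ∀ a, ‖G₁ a‖ ≤ 1) (b2 : ∀ a, ‖G₂ a‖ ≤ 1) (Q O : ℝ) (hd : ch_dat c T K e G₁ G₂ Q O)
    (B : ℝ) (hB : 0 ≤ B) (hu : ∀ n, FT1 B fun x => ((uj n x : ℝ) : ℂ)) (J : ℕ)
    (CL : ℝ) (hCL : 0 ≤ CL) (hlow : ∀ (M : V × V → ℂ) (Y : V × V → ℝ × ℝ), Measurable M →
      (∀ q, ‖M q‖ ≤ 1) → Measurable Y →
      (∀ q, M q ≠ 0 → |q.1.1| ≤ 1 ∧ |q.2.1| ≤ 1 ∧ |q.1.2.2| ≤ 1 ∧ |q.2.2.2| ≤ 1) →
      ((∀ q, Y q = (q.1.1, q.2.1)) ∨ (∀ q, Y q = (q.1.2.2, q.2.2.2))) →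
      ‖FF c T (fun q => ((ch_rs J (Y q) : ℝ) : ℂ) * M q)‖ ≤ CL) :
    ‖FF c T (m2_Q G₁ G₂)‖ ≤
      (J : ℝ) ^ 2 * (Q + ((J : ℝ) ^ 2 * (B * (B * Q) + O) + CL)) + CL := by
  have hT0 : 0 < T := by linarith
  have hQ0 := hd.Q0
  have hO0 := hd.O0
  have hQm := m2_Q_meas h1 h2
  have hQn := m2_Q_norm b1 b2
  have hYm : Measurable fun q : V × V => (q.1.1, q.2.1) := by fun_prop
  refine ch_part c hc T hT0 J (fun q => (q.1.1, q.2.1)) hYm (m2_Q G₁ G₂) hQm hQn ?_ _ _ ?_ ?_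
  · intro q hq
    have h3 := hd.le q hq
    exact ⟨h3.1, h3.2.1⟩
  · intro j k
    by_cases hjk : ch_ty K e (1 / 2 ^ j) (1 / 2 ^ k) ∨ ch_ty K e (1 / 2 ^ k) (1 / 2 ^ j)
    · have h3 := ch_N c hc T hT G₁ G₂ h1 h2 b1 b2 j k 0 0 Q hQ0 (hd.N j k hjk 0 0)
      have h0 : ex 0 = 1 := by
        unfold ex
        simp
      simp only [zero_mul, h0, one_mul] at h3
      have h4 : 0 ≤ (J : ℝ) ^ 2 * (B * (B * Q) + O) + CL := by positivity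
      refine (show ‖FF c T (fun q => ((uj j q.1.1 * uj k q.2.1 : ℝ) : ℂ) *
        m2_Q G₁ G₂ q)‖ ≤ Q from h3).trans ?_
      linarith
    · refine (ch_D c hc T hT K e G₁ G₂ h1 h2 b1 b2 Q O hd B hB hu J CL hlow j k hjk).trans ?_
      linarith
  · exact hlow _ _ hQm hQn hYm (fun q hq => hd.le q hq) (Or.inl fun q => rfl)

end Pool.Agent.SDT.N1F

end -- N1F.CHe

section -- N1F.CHf

/-!
N1F, block A6, part f: the theorem capF from the estimates of the blocks.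
-/

namespace Pool.Agent.SDT.N1F

open MeasureTheory Set Metric Pool.Agent.SDT.MP_6cbfb8_an Pool.Agent.SDT.MST Pool.Agent.SDT.N1
open scoped ENNReal Real ContDiff

theorem ch_scales (T : ℝ) (hT : 1 ≤ T) : ∃ J : ℕ, T ^ 2 ≤ 2 ^ J ∧
    (J : ℝ) ≤ 4 * (1 + Real.log T) := by
  obtain ⟨J, -, h1, h2⟩ := m2_scales 0 T hT
  refine ⟨2 * J, ?_, ?_⟩
  · rw [mul_comm, pow_mul]
    gcongr
  · push_cast
    push_cast at h2
    linarith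

theorem ch_uj_FT1 {B : ℝ} (hth : FT1 B fun x => ((th x : ℝ) : ℂ)) (n : ℕ) :
    FT1 (B + B) fun x => ((uj n x : ℝ) : ℂ) := by
  have f1 : ∀ n : ℕ, FT1 B fun x => ((th (2 ^ n * x) : ℝ) : ℂ) := fun n =>
    FT1_scale B _ hth (2 ^ n) (by positivity)
  have h3 := FT1_sub B B _ _ (f1 n) (f1 (n + 1))
  have e1 : (fun x => ((uj n x : ℝ) : ℂ)) =
      fun x => ((th (2 ^ n * x) : ℝ) : ℂ) - ((th (2 ^ (n + 1) * x) : ℝ) : ℂ) := by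
    funext x
    unfold uj
    push_cast
    rfl
  rw [e1]
  exact h3

theorem ch_num (L T A C0 CO CL B : ℝ) (J : ℕ) (hL : 1 ≤ L) (hT : 0 < T)
    (hC0 : 0 ≤ C0) (hCO : 0 ≤ CO) (hCL : 0 ≤ CL) (hJ : (J : ℝ) ≤ A * L) (hB : 0 ≤ B) :
    (J : ℝ) ^ 2 * (C0 * L ^ 5 / T + ((J : ℝ) ^ 2 * (B * (B * (C0 * L ^ 5 / T)) + CO / T) +
      CL / T)) + CL / T ≤
      (A ^ 2 * C0 + A ^ 4 * (B ^ 2 * C0 + CO) + A ^ 2 * CL + CL) * L ^ 12 / T := by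
  have hJ0 : (0 : ℝ) ≤ J := Nat.cast_nonneg _
  have j2 : (J : ℝ) ^ 2 ≤ A ^ 2 * L ^ 2 := by
    rw [← mul_pow]
    gcongr
  have j4 : (J : ℝ) ^ 4 ≤ A ^ 4 * L ^ 4 := by
    rw [← mul_pow]
    gcongr
  have l12 : ∀ n : ℕ, n ≤ 12 → L ^ n ≤ L ^ 12 := fun n hn => pow_le_pow_right₀ hL hn
  rw [le_div_iff₀ hT]
  have e1 : ((J : ℝ) ^ 2 * (C0 * L ^ 5 / T + ((J : ℝ) ^ 2 * (B * (B * (C0 * L ^ 5 / T)) +
      CO / T) + CL / T)) + CL / T) * T =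
      (J : ℝ) ^ 2 * (C0 * L ^ 5) + (J : ℝ) ^ 4 * (B ^ 2 * C0 * L ^ 5) + (J : ℝ) ^ 4 * CO +
        (J : ℝ) ^ 2 * CL + CL := by
    field_simp
    ring
  rw [e1]
  have hA : 0 ≤ A ^ 2 := sq_nonneg A
  have hA4 : 0 ≤ A ^ 4 := by positivity
  have t1 : (J : ℝ) ^ 2 * (C0 * L ^ 5) ≤ A ^ 2 * C0 * L ^ 12 := by
    calc (J : ℝ) ^ 2 * (C0 * L ^ 5) ≤ (A ^ 2 * L ^ 2) * (C0 * L ^ 5) := by gcongr
      _ = A ^ 2 * C0 * L ^ 7 := by ring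
      _ ≤ A ^ 2 * C0 * L ^ 12 := by
          have := l12 7 (by norm_num)
          gcongr
  have t2 : (J : ℝ) ^ 4 * (B ^ 2 * C0 * L ^ 5) ≤ A ^ 4 * (B ^ 2 * C0) * L ^ 12 := by
    calc (J : ℝ) ^ 4 * (B ^ 2 * C0 * L ^ 5) ≤ (A ^ 4 * L ^ 4) * (B ^ 2 * C0 * L ^ 5) := by gcongr
      _ = A ^ 4 * (B ^ 2 * C0) * L ^ 9 := by ring
      _ ≤ A ^ 4 * (B ^ 2 * C0) * L ^ 12 := by
          have := l12 9 (by norm_num)
          gcongr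
  have t3 : (J : ℝ) ^ 4 * CO ≤ A ^ 4 * CO * L ^ 12 := by
    calc (J : ℝ) ^ 4 * CO ≤ (A ^ 4 * L ^ 4) * CO := by gcongr
      _ = A ^ 4 * CO * L ^ 4 := by ring
      _ ≤ A ^ 4 * CO * L ^ 12 := by
          have := l12 4 (by norm_num)
          gcongr
  have t4 : (J : ℝ) ^ 2 * CL ≤ A ^ 2 * CL * L ^ 12 := by
    calc (J : ℝ) ^ 2 * CL ≤ (A ^ 2 * L ^ 2) * CL := by gcongr
      _ = A ^ 2 * CL * L ^ 2 := by ring
      _ ≤ A ^ 2 * CL * L ^ 12 := by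
          have := l12 2 (by norm_num)
          gcongr
  have t5 : CL ≤ CL * L ^ 12 := by
    have := l12 0 (by norm_num)
    rw [pow_zero] at this
    nlinarith
  calc _ ≤ A ^ 2 * C0 * L ^ 12 + A ^ 4 * (B ^ 2 * C0) * L ^ 12 + A ^ 4 * CO * L ^ 12 +
        A ^ 2 * CL * L ^ 12 + CL * L ^ 12 := by linarith
    _ = _ := by ring

/-- The estimate for one cap, from the estimates of the blocks. -/
theorem capF_of (c : ℝ) (hc : 0 < c)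
    (hDD : ∃ K r c1 : ℝ, 1 ≤ K ∧ 0 < r ∧ 0 < c1 ∧ ch_DD c K r c1)
    (hTHF : ∀ K : ℝ, 1 ≤ K → ∃ r : ℝ, 0 < r ∧ ∃ C : ℝ, 0 ≤ C ∧ ch_THF c K r C)
    (hI2 : ∀ K : ℝ, 1 ≤ K → ∃ δ : ℝ, 0 < δ ∧ ∃ C : ℝ, 0 ≤ C ∧ ch_I2 c K δ C)
    (hAB : ∃ C : ℝ, 0 ≤ C ∧ ch_AB c C) :
    ∃ r : ℝ, 0 < r ∧ ∃ C : ℝ, 0 ≤ C ∧ ∀ T : ℝ, 1 ≤ T →
    ∀ al be : ℝ, 0 < al → al ≤ 1 → 0 < be → be ≤ 1 → al * be ≤ r →
    ∀ (x1 x2 : ℝ) (G₁ G₂ : ℝ → ℂ), Measurable G₁ → Measurable G₂ →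
    (∀ a, ‖G₁ a‖ ≤ 1) → (∀ a, ‖G₂ a‖ ≤ 1) → CapG al r x1 G₁ → CapG be r x2 G₂ →
    ∫⁻ t in Icc T (2 * T), ∫⁻ ξ : ℝ × ℝ, ‖Eo c G₁ G₂ t ξ‖ₑ ^ 4 ≤
      ENNReal.ofReal (C * (1 + Real.log T) ^ 12 / T) := by
  obtain ⟨K0, r0, c1, hK0, hr0, hc1, hDD⟩ := hDD
  obtain ⟨r', hr', C0, hC0, hTH⟩ := hTHF (2 * (16 * K0)) (by linarith)
  obtain ⟨δ, hδ, CI, hCI, hI⟩ := hI2 (16 * K0) (by linarith)
  obtain ⟨CA, hCA, hAB⟩ := hAB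
  obtain ⟨CL, hCL, hlow⟩ := ch_low c hc
  obtain ⟨B, hB, hth⟩ := FT1_th
  set CO : ℝ := max (CA * (256 / c1 ^ 2)) CI with hCO
  have hCO0 : 0 ≤ CO := hCI.trans (le_max_right _ _)
  set r : ℝ := min (min (r0 / 2) (δ / 8)) (min r' (1 / 2)) with hrdef
  have hr : 0 < r := by
    rw [hrdef]
    positivity
  have e1 : r ≤ r0 / 2 := (min_le_left _ _).trans (min_le_left _ _)
  have e2 : r ≤ δ / 8 := (min_le_left _ _).trans (min_le_right _ _)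
  have e3 : r ≤ r' := (min_le_right _ _).trans (min_le_left _ _)
  have e4 : r ≤ 1 / 2 := (min_le_right _ _).trans (min_le_right _ _)
  refine ⟨r, hr, (4 ^ 2 * C0 + 4 ^ 4 * ((B + B) ^ 2 * C0 + CO) + 4 ^ 2 * CL + CL),
    by positivity, ?_⟩
  intro T hT al be hal hal1 hbe hbe1 hab x1 x2 G₁ G₂ h1 h2 b1 b2 hG1 hG2
  have hT0 : 0 < T := by linarith
  have hL : 0 ≤ Real.log T := Real.log_nonneg hT
  obtain ⟨J, hTJ, hJ⟩ := ch_scales T hT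
  refine (four c hc T hT0 G₁ G₂ h1 h2 b1 b2).trans ?_
  rw [Th_eq c hc T hT0 _ (m2_pd_meas (m2_da_meas h1) (m2_da_meas h2))
    (m2_pd_norm (m2_da_norm b1) (m2_da_norm b2))]
  have hd : ch_dat c T (16 * K0) (al * be) G₁ G₂ (C0 * (1 + Real.log T) ^ 5 / T) (CO / T) := by
    refine ⟨by positivity, by positivity, ?_, ?_, ?_⟩
    · intro j k hjk η₁ η₂
      exact ch_Th c (16 * K0) r' C0 (by linarith) hTH T hT al be hal hal1 hbe hbe1 r e3 hab x1 x2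
        G₁ G₂ h1 h2 b1 b2 hG1 hG2 j k hjk η₁ η₂
    · intro j k l m hjk hlm
      rw [not_or] at hjk hlm
      exact ch_OO c K0 r0 c1 CA δ CI hK0 hc1 hCA hDD hAB hI r (by linarith) (by linarith)
        (by linarith) T hT0 al be hal hal1 hbe hbe1 hab x1 x2 G₁ G₂ h1 h2 b1 b2 hG1 hG2 j k l m
        hjk.1 hjk.2 hlm.1 hlm.2
    · intro q hq
      exact ch_Q_le hal hal1 hbe hbe1 hG1 hG2 e4 hq
  have h3 := ch_cap_FF c hc T hT (16 * K0) (al * be) G₁ G₂ h1 h2 b1 b2 _ _ hd (B + B)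
    (by positivity) (fun n => ch_uj_FT1 hth n) J (CL / T) (by positivity)
    (fun M Y hM hM1 hY hMs hYc => hlow T hT J hTJ M Y hM hM1 hY hMs hYc)
  have h4 : FF c T (sqM (pd (da G₁) (da G₂))) = FF c T (m2_Q G₁ G₂) := rfl
  rw [h4, ← ofReal_norm]
  apply ENNReal.ofReal_le_ofReal
  refine h3.trans ?_
  exact ch_num (1 + Real.log T) T 4 C0 CO CL (B + B) J (by linarith) hT0 hC0 hCO0 hCL hJ
    (by positivity)

end Pool.Agent.SDT.N1F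

end -- N1F.CHf
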