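import Pool.Agent.SDT.B66
import Pool.Agent.SDT.B67

set_option autoImplicit false

namespace Pool.Agent.SDT.MP_6cbfb8_an
end Pool.Agent.SDT.MP_6cbfb8_an
namespace Pool.Agent.SDT.MST
end Pool.Agent.SDT.MST
namespace Pool.Agent.SDT.N1
end Pool.Agent.SDT.N1
namespace Pool.Agent.SDT.N1F
end Pool.Agent.SDT.N1F
namespace Pool.Agent.SDT.N1G
end Pool.Agent.SDT.N1G
namespace Pool.Agent.SDT.N1M
end Pool.Agent.SDT.N1M
namespace Pool.Agent.SDT.N1Q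
end Pool.Agent.SDT.N1Q

section -- N1G.Ca3

/-!
N1G, block C1, assembly, part 3: the estimate for one cap.
-/

namespace Pool.Agent.SDT.N1G

open MeasureTheory Set Metric Pool.Agent.SDT.MP_6cbfb8_an Pool.Agent.SDT.MST Pool.Agent.SDT.N1
open scoped ENNReal Real ContDiff

/-- The conclusion of `ca_DD`. -/
def ca_DDp (g w : ℝ × ℝ → ℝ) (S1 S2 : Set ℝ) (k0 : ℕ) (C : ℝ) : Prop := ∀ T : ℝ, 0 < T →
    ∀ (M : V × V → ℂ) (s s' : ℝ), Measurable M → (∀ q, ‖M q‖ ≤ 1) → 0 < s → 0 < s' →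
    (∀ q, M q ≠ 0 → Cor S1 q.1 ∧ Cor S2 q.2 ∧ m2_Dg k0 s (q.1.1, q.2.1) ∧
      m2_Dg k0 s' (q.1.2.2, q.2.2.2)) →
    ‖FFg (dif g) (dam w) T M‖ ≤ C / T

/-- The conclusion of `ca_rest`. -/
def ca_Rp (g w : ℝ × ℝ → ℝ) (k0 : ℕ) (C : ℝ) : Prop := ∀ T : ℝ, 1 ≤ T → ∀ J : ℕ,
    T ≤ 2 ^ J → ∀ (M : V × V → ℂ) (rest : ℝ × ℝ → ℝ) (Y : V × V → ℝ × ℝ), Measurable M →
    (∀ q, ‖M q‖ ≤ 1) → Measurable Y → Measurable rest → (∀ y, |rest y| ≤ 4 * (k0 : ℝ) + 4) →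
    (∀ y, rest y ≠ 0 → (|y.1| ≤ 2 ^ (k0 + 2) / 2 ^ J ∧ |y.2| ≤ 2 ^ (k0 + 2) / 2 ^ J)) →
    (∀ q, M q ≠ 0 → |q.1.1| ≤ 1 ∧ |q.2.1| ≤ 1 ∧ |q.1.2.2| ≤ 1 ∧ |q.2.2.2| ≤ 1) →
    ((∀ q, Y q = (q.1.1, q.2.1)) ∨ (∀ q, Y q = (q.1.2.2, q.2.2.2))) →
    ‖FFg (dif g) (dam w) T (fun q => ((rest (Y q) : ℝ) : ℂ) * M q)‖ ≤ C / T

/-- Outer direction near an axis. -/
theorem ca_D {B0 R : ℝ} {g w : ℝ × ℝ → ℝ} (hpd : PD B0 R g w) (S1 S2 : Set ℝ) (k0 : ℕ) (hk0 : 1 ≤ k0) (r C CD CR : ℝ) (hC : 0 ≤ C)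
    (hCD : 0 ≤ CD) (hr : r ≤ 1 / 2) (hTH : ca_TH g w S1 S2 k0 r C) (hDD : ca_DDp g w S1 S2 k0 CD)
    (hRR : ca_Rp g w k0 CR) (T : ℝ) (hT : 1 ≤ T) (J : ℕ) (hJ : k0 ≤ J) (hTJ : T ≤ 2 ^ J)
    (x1 x2 : ℝ) (G₁ G₂ : ℝ → ℂ) (h1 : Measurable G₁) (h2 : Measurable G₂)
    (b1 : ∀ a, ‖G₁ a‖ ≤ 1) (b2 : ∀ a, ‖G₂ a‖ ≤ 1) (hG1 : ca_cap S1 r x1 G₁)
    (hG2 : ca_cap S2 r x2 G₂) (B : ℝ) (hB : 0 ≤ B) (m1 m2 : ℝ → ℝ)
    (hm1 : FT1 B fun x => ((m1 x : ℝ) : ℂ)) (hm2 : FT1 B fun x => ((m2 x : ℝ) : ℂ))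
    (m1m : Measurable m1) (m2m : Measurable m2) (m1b : ∀ x, |m1 x| ≤ 1) (m2b : ∀ x, |m2 x| ≤ 1)
    (s : ℝ) (hs : 0 < s) (hm : ∀ x y, m1 x * m2 y ≠ 0 → m2_Dg k0 s (x, y)) :
    ‖FFg (dif g) (dam w) T (fun q => ((m1 q.1.1 * m2 q.2.1 : ℝ) : ℂ) * m2_Q G₁ G₂ q)‖ ≤
      (J : ℝ) ^ 2 * (B * (B * (C * (1 + Real.log T) ^ 5 / T))) + 2 * J * (CD / T) + CR / T := by
  have hT0 : 0 < T := by linarith
  have hL : 0 ≤ Real.log T := Real.log_nonneg hT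
  have hQm := m2_Q_meas h1 h2
  have hQn := m2_Q_norm b1 b2
  have hYm : Measurable fun q : V × V => (q.1.2.2, q.2.2.2) := by fun_prop
  have hMm : Measurable fun q : V × V => ((m1 q.1.1 * m2 q.2.1 : ℝ) : ℂ) * m2_Q G₁ G₂ q :=
    (Complex.measurable_ofReal.comp ((m1m.comp (by fun_prop)).mul (m2m.comp (by fun_prop)))).mul
      hQm
  have hMn : ∀ q : V × V, ‖((m1 q.1.1 * m2 q.2.1 : ℝ) : ℂ) * m2_Q G₁ G₂ q‖ ≤ 1 :=
    fun q => m2_mul_norm (m1b _) (m2b _) (hQn q)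
  have hMs : ∀ q : V × V, ((m1 q.1.1 * m2 q.2.1 : ℝ) : ℂ) * m2_Q G₁ G₂ q ≠ 0 →
      m2_Dg k0 s (q.1.1, q.2.1) ∧ m2_Q G₁ G₂ q ≠ 0 := by
    intro q hq
    obtain ⟨h3, h4⟩ := m2_mul_ne hq
    exact ⟨hm _ _ h3, h4⟩
  refine ca_part hpd.adm T hT0 k0 J hk0 hJ (fun q => (q.1.2.2, q.2.2.2)) hYm
    (fun q => ((m1 q.1.1 * m2 q.2.1 : ℝ) : ℂ) * m2_Q G₁ G₂ q) hMm hMn ?_ _ _ _ (by positivity)
    (by positivity) ?_ ?_ ?_ ?_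
  · intro q hq
    have h3 := ca_Q_le hG1 hG2 hr (hMs q hq).2
    exact ⟨h3.2.2.1, h3.2.2.2⟩
  · intro j k hjk hkj
    have h3 := ca_DN hpd S1 S2 k0 r C hC hTH T hT x1 x2 G₁ G₂ h1 h2 b1 b2 hG1 hG2 j k hjk hkj B
      (fun x => ((m1 x : ℝ) : ℂ)) (fun x => ((m2 x : ℝ) : ℂ)) hm1 hm2
      (Complex.measurable_ofReal.comp m2m) (fun x => by
        rw [Complex.norm_real, Real.norm_eq_abs]
        exact m2b x)
    have e1 : (fun q : V × V => m2_psi j k (q.1.2.2, q.2.2.2) *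
        (((m1 q.1.1 : ℝ) : ℂ) * ((m2 q.2.1 : ℝ) : ℂ) * m2_Q G₁ G₂ q)) =
        fun q : V × V => ((uj j q.1.2.2 * uj k q.2.2.2 : ℝ) : ℂ) *
          (((m1 q.1.1 * m2 q.2.1 : ℝ) : ℂ) * m2_Q G₁ G₂ q) := by
      funext q
      unfold m2_psi
      push_cast
      ring
    rw [e1] at h3
    exact h3
  · intro j
    refine hDD T hT0 _ s (1 / 2 ^ j) ?_ ?_ hs (by positivity) ?_
    · exact (Complex.measurable_ofReal.comp (((measurable_uj j).comp (by fun_prop)).mul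
        (measurable_th.comp (by fun_prop)))).mul hMm
    · intro q
      exact m2_mul_norm (uj_abs_le _ _) (m2_abs_th _) (hMn q)
    · intro q hq
      obtain ⟨h3, h4⟩ := m2_mul_ne hq
      obtain ⟨h5, h6⟩ := hMs q h4
      have h7 := ca_Q_Cor hG1 hG2 h6
      obtain ⟨d1, d2, d3, d4⟩ := m2_Dg_uj h3
      exact ⟨h7.1, h7.2, h5, d1, d2, Or.inl ⟨d3, d4⟩⟩
  · intro j
    refine hDD T hT0 _ s (1 / 2 ^ j) ?_ ?_ hs (by positivity) ?_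
    · exact (Complex.measurable_ofReal.comp ((measurable_th.comp (by fun_prop)).mul
        ((measurable_uj j).comp (by fun_prop)))).mul hMm
    · intro q
      exact m2_mul_norm (m2_abs_th _) (uj_abs_le _ _) (hMn q)
    · intro q hq
      obtain ⟨h3, h4⟩ := m2_mul_ne hq
      obtain ⟨h5, h6⟩ := hMs q h4
      have h7 := ca_Q_Cor hG1 hG2 h6
      rw [mul_comm] at h3
      obtain ⟨d1, d2, d3, d4⟩ := m2_Dg_uj h3
      exact ⟨h7.1, h7.2, h5, d2, d1, Or.inr ⟨d3, d4⟩⟩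
  · intro rest hr1 hr2 hr3
    refine hRR T hT J hTJ _ rest _ hMm hMn hYm hr1 hr2 hr3 ?_ (Or.inr fun q => rfl)
    intro q hq
    exact ca_Q_le hG1 hG2 hr (hMs q hq).2

/-- The form of one cap. -/
theorem ca_cap_FF {B0 R : ℝ} {g w : ℝ × ℝ → ℝ} (hpd : PD B0 R g w) (S1 S2 : Set ℝ) (k0 : ℕ) (hk0 : 1 ≤ k0) (r C CD CR : ℝ) (hC : 0 ≤ C)
    (hCD : 0 ≤ CD) (hCR : 0 ≤ CR) (hr : r ≤ 1 / 2) (hTH : ca_TH g w S1 S2 k0 r C)
    (hDD : ca_DDp g w S1 S2 k0 CD)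
    (hRR : ca_Rp g w k0 CR) (T : ℝ) (hT : 1 ≤ T) (J : ℕ) (hJ : k0 ≤ J) (hTJ : T ≤ 2 ^ J)
    (x1 x2 : ℝ) (G₁ G₂ : ℝ → ℂ) (h1 : Measurable G₁) (h2 : Measurable G₂)
    (b1 : ∀ a, ‖G₁ a‖ ≤ 1) (b2 : ∀ a, ‖G₂ a‖ ≤ 1) (hG1 : ca_cap S1 r x1 G₁)
    (hG2 : ca_cap S2 r x2 G₂) (B : ℝ) (hB : 0 ≤ B) (hth : FT1 B fun x => ((th x : ℝ) : ℂ)) :
    ‖FFg (dif g) (dam w) T (m2_Q G₁ G₂)‖ ≤
      (J : ℝ) ^ 2 * (C * (1 + Real.log T) ^ 5 / T) + 2 * J *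
      ((J : ℝ) ^ 2 * ((B + B) * ((B + B) * (C * (1 + Real.log T) ^ 5 / T))) +
        2 * J * (CD / T) + CR / T) + CR / T := by
  have hT0 : 0 < T := by linarith
  have hL : 0 ≤ Real.log T := Real.log_nonneg hT
  have hQm := m2_Q_meas h1 h2
  have hQn := m2_Q_norm b1 b2
  have hYm : Measurable fun q : V × V => (q.1.1, q.2.1) := by fun_prop
  have f1 : ∀ n : ℕ, FT1 B fun x => ((th (2 ^ n * x) : ℝ) : ℂ) := fun n =>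
    FT1_scale B _ hth (2 ^ n) (by positivity)
  have f2 : ∀ n : ℕ, FT1 (B + B) fun x => ((uj n x : ℝ) : ℂ) := by
    intro n
    have h3 := FT1_sub B B _ _ (f1 n) (f1 (n + 1))
    have e1 : (fun x => ((uj n x : ℝ) : ℂ)) =
        fun x => ((th (2 ^ n * x) : ℝ) : ℂ) - ((th (2 ^ (n + 1) * x) : ℝ) : ℂ) := by
      funext x
      unfold uj
      push_cast
      rfl
    rw [e1]
    exact h3
  have f3 : ∀ n : ℕ, FT1 (B + B) fun x => ((th (2 ^ n * x) : ℝ) : ℂ) := by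
    intro n
    obtain ⟨w, hw1, hw2, hw3⟩ := f1 n
    exact ⟨w, hw1, by linarith, hw3⟩
  have mth : ∀ n : ℕ, Measurable fun x : ℝ => th (2 ^ n * x) := fun n =>
    measurable_th.comp (by fun_prop)
  refine ca_part hpd.adm T hT0 k0 J hk0 hJ (fun q => (q.1.1, q.2.1)) hYm
    (m2_Q G₁ G₂) hQm hQn ?_ _ _ _ (by positivity) (by positivity) ?_ ?_ ?_ ?_
  · intro q hq
    have h3 := ca_Q_le hG1 hG2 hr hq
    exact ⟨h3.1, h3.2.1⟩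
  · intro j k hjk hkj
    have h3 := ca_N hpd S1 S2 k0 r C hC hTH T hT x1 x2 G₁ G₂ h1 h2 b1 b2 hG1 hG2 j k hjk hkj 0 0
    have h0 : ex 0 = 1 := by
      unfold ex
      simp
    simp only [zero_mul, h0, one_mul] at h3
    exact h3
  · intro j
    exact ca_D hpd S1 S2 k0 hk0 r C CD CR hC hCD hr hTH hDD hRR T hT J hJ hTJ x1 x2 G₁ G₂ h1 h2 b1 b2
      hG1 hG2 (B + B) (by positivity) (uj j) (fun x => th (2 ^ (j + k0) * x)) (f2 j)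
      (f3 (j + k0)) (measurable_uj j) (mth _) (uj_abs_le j) (fun x => m2_abs_th _) (1 / 2 ^ j)
      (by positivity) (fun x y h => by
        obtain ⟨d1, d2, d3, d4⟩ := m2_Dg_uj h
        exact ⟨d1, d2, Or.inl ⟨d3, d4⟩⟩)
  · intro j
    exact ca_D hpd S1 S2 k0 hk0 r C CD CR hC hCD hr hTH hDD hRR T hT J hJ hTJ x1 x2 G₁ G₂ h1 h2 b1 b2
      hG1 hG2 (B + B) (by positivity) (fun x => th (2 ^ (j + k0) * x)) (uj j)
      (f3 (j + k0)) (f2 j) (mth _) (measurable_uj j) (fun x => m2_abs_th _) (uj_abs_le j)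
      (1 / 2 ^ j) (by positivity) (fun x y h => by
        rw [mul_comm] at h
        obtain ⟨d1, d2, d3, d4⟩ := m2_Dg_uj h
        exact ⟨d2, d1, Or.inr ⟨d3, d4⟩⟩)
  · intro rest hr1 hr2 hr3
    refine hRR T hT J hTJ _ rest _ hQm hQn hYm hr1 hr2 hr3 ?_ (Or.inl fun q => rfl)
    intro q hq
    exact ca_Q_le hG1 hG2 hr hq

/-- The estimate for one cap. -/
theorem ca_capest (B0 R : ℝ) (hR : 0 ≤ R) (k0 : ℕ) (hk0 : 1 ≤ k0) (c1 : ℝ) (hc1 : 0 < c1)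
    (r' : ℝ) (C : ℝ) (hC : 0 ≤ C) : ∃ C' : ℝ, 0 ≤ C' ∧ ∀ g w : ℝ × ℝ → ℝ, PD B0 R g w →
    ∀ S1 S2 : Set ℝ, ca_DE g w S1 S2 k0 c1 → ca_TH g w S1 S2 k0 r' C → ∀ T : ℝ, 1 ≤ T →
    ∀ (x1 x2 : ℝ) (G₁ G₂ : ℝ → ℂ), Measurable G₁ → Measurable G₂ →
    (∀ a, ‖G₁ a‖ ≤ 1) → (∀ a, ‖G₂ a‖ ≤ 1) → ca_cap S1 (min r' (1 / 2)) x1 G₁ →
    ca_cap S2 (min r' (1 / 2)) x2 G₂ →
    ∫⁻ t in Icc T (2 * T), ∫⁻ ξ : ℝ × ℝ, ‖Eg g w (fun x => G₁ x.1 * G₂ x.2) t ξ‖ₑ ^ 4 ≤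
      ENNReal.ofReal (C' * (1 + Real.log T) ^ 8 / T) := by
  obtain ⟨CD, hCD, hDD'⟩ := ca_DD B0 R hR k0 c1 hc1
  obtain ⟨CR, hCR, hRR'⟩ := ca_rest B0 R hR k0
  obtain ⟨B, hB, hth⟩ := FT1_th
  set A : ℝ := (k0 : ℝ) + 2 with hA
  have hA0 : 0 ≤ A := by positivity
  refine ⟨A ^ 2 * C + 2 * A ^ 3 * (2 * B) ^ 2 * C + 4 * A ^ 2 * CD + 2 * A * CR + CR,
    by positivity, ?_⟩
  intro g w hpd S1 S2 hDE hTH
  have hDD := hDD' g w hpd S1 S2 hDE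
  have hRR := hRR' g w hpd
  have hTH1 : ca_TH g w S1 S2 k0 (min r' (1 / 2)) C := by
    intro T hT ρ hρ x0 α β hα hβ hα1 hβ1 hαs hβs
    refine hTH T hT ρ hρ x0 α β hα hβ hα1 hβ1 ?_ ?_
    · intro p hp
      obtain ⟨h1, h2, h3, h4, h5⟩ := hαs p hp
      exact ⟨h1, h2, h3.trans (min_le_left _ _), h4.trans (min_le_left _ _), h5⟩
    · intro p hp
      obtain ⟨h1, h2, h3, h4, h5⟩ := hβs p hp
      exact ⟨h1, h2, h3.trans (min_le_left _ _), h4.trans (min_le_left _ _), h5⟩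
  intro T hT x1 x2 G₁ G₂ h1 h2 b1 b2 hG1 hG2
  have hT0 : 0 < T := by linarith
  have hL : 0 ≤ Real.log T := Real.log_nonneg hT
  obtain ⟨J, hJ, hTJ, hJA⟩ := m2_scales k0 T hT
  have h0 : ∫⁻ t in Icc T (2 * T), ∫⁻ ξ : ℝ × ℝ,
      ‖Eg g w (fun x => G₁ x.1 * G₂ x.2) t ξ‖ₑ ^ 4 ≤
      ‖FFg (dif g) (dam w) T (sqM fun p => da G₁ (p.1.1, p.2.1) * da G₂ (p.1.2, p.2.2))‖ₑ := by
    have h00 := fourg B0 R g w hpd.mq hpd.mw hpd.bw hpd.sw T hT0 G₁ G₂ h1 h2 b1 b2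
    refine le_trans (le_of_eq ?_) h00
    refine lintegral_congr fun t => lintegral_congr fun ξ => ?_
    exact_mod_cast (ENNReal.rpow_natCast _ 4).symm
  refine h0.trans ?_
  have h3 := ca_cap_FF hpd S1 S2 k0 hk0 (min r' (1 / 2)) C CD CR hC hCD hCR (min_le_right _ _) hTH1
    hDD hRR T hT J hJ hTJ x1 x2 G₁ G₂ h1 h2 b1 b2 hG1 hG2 B hB hth
  have h4 : FFg (dif g) (dam w) T (sqM fun p => da G₁ (p.1.1, p.2.1) * da G₂ (p.1.2, p.2.2)) =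
      FFg (dif g) (dam w) T (m2_Q G₁ G₂) := rfl
  rw [h4, ← ofReal_norm]
  apply ENNReal.ofReal_le_ofReal
  refine h3.trans ?_
  set L : ℝ := 1 + Real.log T with hLdef
  have hL1 : 1 ≤ L := by linarith
  have hJ0 : (0 : ℝ) ≤ J := Nat.cast_nonneg _
  have j1 : (J : ℝ) ≤ A * L := hJA
  have j2 : (J : ℝ) ^ 2 ≤ A ^ 2 * L ^ 2 := by
    rw [← mul_pow]
    gcongr
  have j3 : (J : ℝ) ^ 3 ≤ A ^ 3 * L ^ 3 := by
    rw [← mul_pow]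
    gcongr
  have l8 : ∀ n : ℕ, n ≤ 8 → L ^ n ≤ L ^ 8 := fun n hn => pow_le_pow_right₀ hL1 hn
  rw [le_div_iff₀ hT0]
  have e1 : ((J : ℝ) ^ 2 * (C * L ^ 5 / T) + 2 * J *
      ((J : ℝ) ^ 2 * ((B + B) * ((B + B) * (C * L ^ 5 / T))) +
        2 * J * (CD / T) + CR / T) + CR / T) * T =
      (J : ℝ) ^ 2 * (C * L ^ 5) + 2 * (2 * B) ^ 2 * C * ((J : ℝ) ^ 3 * L ^ 5) +
        4 * CD * (J : ℝ) ^ 2 + 2 * CR * J + CR := by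
    field_simp
    ring
  rw [e1]
  have t1 : (J : ℝ) ^ 2 * (C * L ^ 5) ≤ A ^ 2 * C * L ^ 8 := by
    calc (J : ℝ) ^ 2 * (C * L ^ 5) ≤ (A ^ 2 * L ^ 2) * (C * L ^ 5) := by gcongr
      _ = A ^ 2 * C * L ^ 7 := by ring
      _ ≤ A ^ 2 * C * L ^ 8 := by
          have := l8 7 (by norm_num)
          gcongr
  have t2 : 2 * (2 * B) ^ 2 * C * ((J : ℝ) ^ 3 * L ^ 5) ≤ 2 * A ^ 3 * (2 * B) ^ 2 * C * L ^ 8 := by
    calc 2 * (2 * B) ^ 2 * C * ((J : ℝ) ^ 3 * L ^ 5) ≤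
        2 * (2 * B) ^ 2 * C * ((A ^ 3 * L ^ 3) * L ^ 5) := by gcongr
      _ = _ := by ring
  have t3 : 4 * CD * (J : ℝ) ^ 2 ≤ 4 * A ^ 2 * CD * L ^ 8 := by
    calc 4 * CD * (J : ℝ) ^ 2 ≤ 4 * CD * (A ^ 2 * L ^ 2) := by gcongr
      _ = 4 * A ^ 2 * CD * L ^ 2 := by ring
      _ ≤ _ := by
          have := l8 2 (by norm_num)
          gcongr
  have t4 : 2 * CR * (J : ℝ) ≤ 2 * A * CR * L ^ 8 := by
    calc 2 * CR * (J : ℝ) ≤ 2 * CR * (A * L) := by gcongr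
      _ = 2 * A * CR * L ^ 1 := by ring
      _ ≤ _ := by
          have := l8 1 (by norm_num)
          gcongr
  have t5 : CR ≤ CR * L ^ 8 := by
    have := l8 0 (by norm_num)
    rw [pow_zero] at this
    nlinarith
  calc _ ≤ A ^ 2 * C * L ^ 8 + 2 * A ^ 3 * (2 * B) ^ 2 * C * L ^ 8 + 4 * A ^ 2 * CD * L ^ 8 +
        2 * A * CR * L ^ 8 + CR * L ^ 8 := by linarith
    _ = _ := by ring

end Pool.Agent.SDT.N1G

end -- N1G.Ca3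

section -- N1G.Ca4

/-!
N1G, block C1, assembly, part 4: the dyadic `L⁴` estimate for a point phase.
-/

namespace Pool.Agent.SDT.N1G

open MeasureTheory Set Metric Pool.Agent.SDT.MP_6cbfb8_an Pool.Agent.SDT.MST Pool.Agent.SDT.N1
open scoped ENNReal Real ContDiff

theorem ca_Eg_int {B R : ℝ} {g w : ℝ × ℝ → ℝ} (h : PD B R g w) (G₁ G₂ : ℝ → ℂ)
    (h1 : Measurable G₁) (h2 : Measurable G₂) (b1 : ∀ a, ‖G₁ a‖ ≤ 1) (b2 : ∀ a, ‖G₂ a‖ ≤ 1)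
    (t : ℝ) (ξ : ℝ × ℝ) :
    Integrable fun x : ℝ × ℝ => G₁ x.1 * G₂ x.2 * ((w x : ℝ) : ℂ) * ex (t * g x) *
      ex (x.1 * ξ.1 + x.2 * ξ.2) := by
  have hfin : volume (closedBall (0 : ℝ × ℝ) R) < ⊤ := (isCompact_closedBall _ _).measure_lt_top
  have hw : IntegrableOn (fun _ : ℝ × ℝ => B) (closedBall (0 : ℝ × ℝ) R) volume :=
    integrableOn_const hfin.ne
  have hw2 : Integrable (indicator (closedBall (0 : ℝ × ℝ) R) fun _ => B) :=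
    (integrable_indicator_iff measurableSet_closedBall).2 hw
  refine hw2.mono ?_ (ae_of_all _ fun x => ?_)
  · refine Measurable.aestronglyMeasurable ?_
    refine Measurable.mul (Measurable.mul (Measurable.mul (Measurable.mul ?_ ?_) ?_) ?_) ?_
    · exact h1.comp measurable_fst
    · exact h2.comp measurable_snd
    · exact Complex.measurable_ofReal.comp h.mw
    · exact measurable_ex.comp (h.mq.const_mul t)
    · exact measurable_ex.comp (by fun_prop)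
  · rw [norm_mul, norm_mul, norm_mul, norm_mul, m2_ex_norm, m2_ex_norm, mul_one, mul_one,
      Complex.norm_real, Real.norm_eq_abs]
    by_cases hx : w x = 0
    · rw [hx, abs_zero, mul_zero]
      exact norm_nonneg _
    · have h3 : ‖G₁ x.1‖ * ‖G₂ x.2‖ ≤ 1 := mul_le_one₀ (b1 _) (norm_nonneg _) (b2 _)
      have h4 : x ∈ closedBall (0 : ℝ × ℝ) R := by
        rw [mem_closedBall, dist_zero_right]
        exact h.sw x hx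
      rw [indicator_of_mem h4, Real.norm_eq_abs]
      have h5 : |w x| ≤ |B| := (h.bw x).trans (le_abs_self B)
      calc ‖G₁ x.1‖ * ‖G₂ x.2‖ * |w x| ≤ 1 * |w x| := by gcongr
        _ = |w x| := one_mul _
        _ ≤ |B| := h5

theorem ca_Eg_meas {B R : ℝ} {g w : ℝ × ℝ → ℝ} (h : PD B R g w) (G₁ G₂ : ℝ → ℂ)
    (h1 : Measurable G₁) (h2 : Measurable G₂) :
    Measurable fun p : ℝ × (ℝ × ℝ) => Eg g w (fun x => G₁ x.1 * G₂ x.2) p.1 p.2 := by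
  unfold Eg
  have h3 : Measurable fun z : (ℝ × (ℝ × ℝ)) × (ℝ × ℝ) =>
      G₁ z.2.1 * G₂ z.2.2 * ((w z.2 : ℝ) : ℂ) *
      ex (z.1.1 * g z.2) * ex (z.2.1 * z.1.2.1 + z.2.2 * z.1.2.2) := by
    refine Measurable.mul (Measurable.mul (Measurable.mul (Measurable.mul ?_ ?_) ?_) ?_) ?_
    · exact h1.comp (by fun_prop)
    · exact h2.comp (by fun_prop)
    · exact Complex.measurable_ofReal.comp (h.mw.comp measurable_snd)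
    · exact measurable_ex.comp ((measurable_fst.comp measurable_fst).mul
        (h.mq.comp measurable_snd))
    · exact measurable_ex.comp (by fun_prop)
  exact (h3.stronglyMeasurable.integral_prod_right').measurable

/-- truncation at `R` -/
noncomputable def ca_tr (R : ℝ) (G : ℝ → ℂ) (a : ℝ) : ℂ := if |a| ≤ R then G a else 0

theorem ca_tr_Eg {B R : ℝ} {g w : ℝ × ℝ → ℝ} (h : PD B R g w) (G₁ G₂ : ℝ → ℂ) (t : ℝ)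
    (ξ : ℝ × ℝ) : Eg g w (fun x => ca_tr R G₁ x.1 * ca_tr R G₂ x.2) t ξ =
      Eg g w (fun x => G₁ x.1 * G₂ x.2) t ξ := by
  unfold Eg
  congr 1
  funext x
  by_cases hx : w x = 0
  · rw [hx]
    simp
  · have h1 := h.sw x hx
    rw [Prod.norm_def, max_le_iff, Real.norm_eq_abs, Real.norm_eq_abs] at h1
    simp only [ca_tr, if_pos h1.1, if_pos h1.2]

theorem ca_tr_meas (R : ℝ) {G : ℝ → ℂ} (hG : Measurable G) : Measurable (ca_tr R G) := by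
  unfold ca_tr
  exact Measurable.ite (measurableSet_le measurable_id.abs measurable_const) hG measurable_const

theorem ca_tr_norm (R : ℝ) {G : ℝ → ℂ} (hG : ∀ a, ‖G a‖ ≤ 1) (a : ℝ) : ‖ca_tr R G a‖ ≤ 1 := by
  unfold ca_tr
  split_ifs
  · exact hG a
  · simp

theorem ca_tr_ne {R : ℝ} {G : ℝ → ℂ} {a : ℝ} (h : ca_tr R G a ≠ 0) : |a| ≤ R ∧ G a ≠ 0 := by
  unfold ca_tr at h
  split_ifs at h with h1
  · exact ⟨h1, h⟩
  · exact absurd rfl h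

/-- the caps -/
noncomputable def ca_cp (R r : ℝ) (G : ℝ → ℂ) (i : ℕ) (a : ℝ) : ℂ :=
  g2_cut (fun a : ℝ => a) R r (ca_tr R G) i a

theorem ca_cp_meas (R r : ℝ) {G : ℝ → ℂ} (hG : Measurable G) (i : ℕ) :
    Measurable (ca_cp R r G i) :=
  g2_cut_meas measurable_id _ _ (ca_tr_meas R hG) _

theorem ca_cp_norm (R r : ℝ) {G : ℝ → ℂ} (hG : ∀ a, ‖G a‖ ≤ 1) (i : ℕ) (a : ℝ) :
    ‖ca_cp R r G i a‖ ≤ 1 := g2_cut_norm _ _ _ (ca_tr_norm R hG) _ _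

theorem ca_cp_cap {R r : ℝ} (hr : 0 < r) {S : Set ℝ} {G : ℝ → ℂ} (hG : ∀ a, G a ≠ 0 → a ∈ S)
    (i : ℕ) : ∃ x : ℝ, ca_cap S r x (ca_cp R r G i) := by
  by_cases h : ∃ a, ca_cp R r G i a ≠ 0
  · obtain ⟨x, hx⟩ := h
    obtain ⟨h1, h2⟩ := g2_cut_ne hx
    obtain ⟨h3, h4⟩ := ca_tr_ne h2
    refine ⟨x, fun a ha => ?_⟩
    obtain ⟨g1, g2⟩ := g2_cut_ne ha
    obtain ⟨g3, g4⟩ := ca_tr_ne g2
    exact ⟨hG a g4, g2_ix_near (R := R) hr g3 h3 (g1.trans h1.symm)⟩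
  · push Not at h
    exact ⟨0, fun a ha => absurd (h a) ha⟩

theorem ca_cp_sum (R : ℝ) {r : ℝ} (hr : 0 < r) (G : ℝ → ℂ) (a : ℝ) :
    ∑ i ∈ Finset.range (⌊2 * R / r⌋₊ + 1), ca_cp R r G i a = ca_tr R G a := by
  refine g2_cut_sum (fun a : ℝ => a) R r hr (ca_tr R G) ?_ a
  intro u hu
  exact (ca_tr_ne hu).1

/-- The dyadic `L⁴` estimate. -/
theorem ca_L4 (B R : ℝ) (hR : 0 ≤ R) (k0 : ℕ) (hk0 : 1 ≤ k0) (c1 : ℝ) (hc1 : 0 < c1)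
    (r : ℝ) (hr : 0 < r) (C : ℝ) (hC : 0 ≤ C) : ∃ C' : ℝ, 0 ≤ C' ∧ ∀ g w : ℝ × ℝ → ℝ,
    PD B R g w → ∀ S1 S2 : Set ℝ, ca_DE g w S1 S2 k0 c1 → ca_TH g w S1 S2 k0 r C →
    ∀ T : ℝ, 1 ≤ T → ∀ G₁ G₂ : ℝ → ℂ, Measurable G₁ → Measurable G₂ →
    (∀ a, ‖G₁ a‖ ≤ 1) → (∀ a, ‖G₂ a‖ ≤ 1) → (∀ a, G₁ a ≠ 0 → a ∈ S1) → (∀ b, G₂ b ≠ 0 → b ∈ S2) →
    ∫⁻ t in Icc T (2 * T), ∫⁻ ξ : ℝ × ℝ, ‖Eg g w (fun x => G₁ x.1 * G₂ x.2) t ξ‖ₑ ^ 4 ≤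
      ENNReal.ofReal (C' * (1 + Real.log T) ^ 8 / T) := by
  obtain ⟨C1, hC1, hcap⟩ := ca_capest B R hR k0 hk0 c1 hc1 r C hC
  set r' : ℝ := min r (1 / 2) with hr'
  have hr0 : 0 < r' := lt_min hr (by norm_num)
  set n : ℕ := ⌊2 * R / r'⌋₊ + 1 with hn
  set s : Finset (ℕ × ℕ) := Finset.range n ×ˢ Finset.range n with hs
  refine ⟨(s.card : ℝ) ^ 5 * C1, by positivity, ?_⟩
  intro g w hpd S1 S2 hDE hTH T hT G₁ G₂ h1 h2 b1 b2 s1 s2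
  have hT0 : 0 < T := by linarith
  have hL : 0 ≤ Real.log T := Real.log_nonneg hT
  have hsum : ∀ t ξ, Eg g w (fun x => G₁ x.1 * G₂ x.2) t ξ =
      ∑ p ∈ s, Eg g w (fun x => ca_cp R r' G₁ p.1 x.1 * ca_cp R r' G₂ p.2 x.2) t ξ := by
    intro t ξ
    rw [← ca_tr_Eg hpd]
    unfold Eg
    rw [← integral_finsetSum s fun p _ => ca_Eg_int hpd (ca_cp R r' G₁ p.1) (ca_cp R r' G₂ p.2)
      (ca_cp_meas R r' h1 _) (ca_cp_meas R r' h2 _) (ca_cp_norm R r' b1 _) (ca_cp_norm R r' b2 _)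
      t ξ]
    congr 1
    funext x
    simp only
    rw [← ca_cp_sum R hr0 G₁ x.1, ← ca_cp_sum R hr0 G₂ x.2, Finset.sum_mul_sum,
      ← Finset.sum_product', Finset.sum_mul, Finset.sum_mul, Finset.sum_mul]
  simp only [hsum]
  refine (m2_lint_sum s
    (fun p z => Eg g w (fun x => ca_cp R r' G₁ p.1 x.1 * ca_cp R r' G₂ p.2 x.2) z.1 z.2)
    (fun p _ => ca_Eg_meas hpd _ _ (ca_cp_meas R r' h1 _) (ca_cp_meas R r' h2 _)) (Icc T (2 * T))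
    (ENNReal.ofReal (C1 * (1 + Real.log T) ^ 8 / T)) ?_).trans (le_of_eq ?_)
  · intro p _
    obtain ⟨x1, hx1⟩ := ca_cp_cap (R := R) hr0 s1 p.1
    obtain ⟨x2, hx2⟩ := ca_cp_cap (R := R) hr0 s2 p.2
    exact hcap g w hpd S1 S2 hDE hTH T hT x1 x2 _ _ (ca_cp_meas R r' h1 _) (ca_cp_meas R r' h2 _)
      (ca_cp_norm R r' b1 _) (ca_cp_norm R r' b2 _) hx1 hx2
  · rw [show (s.card : ℝ) ^ 5 * C1 * (1 + Real.log T) ^ 8 / T =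
      (s.card : ℝ) ^ 4 * (s.card * (C1 * (1 + Real.log T) ^ 8 / T)) by ring,
      ENNReal.ofReal_mul (by positivity), ENNReal.ofReal_mul (by positivity),
      ENNReal.ofReal_pow (by positivity), ENNReal.ofReal_natCast]

end Pool.Agent.SDT.N1G

end -- N1G.Ca4

section -- N1S.S6A

/-!
N1S, stage 2, S6: from the corner families to one shell.
-/

namespace Pool.Agent.SDT.N1S

open MeasureTheory Set Metric Pool.Agent.SDT.MP_6cbfb8_an Pool.Agent.SDT.MST Pool.Agent.SDT.N1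
open Pool.Agent.SDT.N1F Pool.Agent.SDT.N1G Pool.Agent.SDT.N1M Pool.Agent.SDT.N1Q
open scoped ENNReal Real ContDiff

theorem Sq_scale (M c v : ℝ) (hM : 0 < M) (hc : 0 < c) : Sq (M * c) (M ^ 2 * v) = M * Sq c v := by
  unfold Sq
  have e1 : (16 * (M ^ 2 * v) - (M * c) ^ 2) / (M * c) ^ 2 = (16 * v - c ^ 2) / c ^ 2 := by
    field_simp
  rw [e1, Real.sqrt_mul (by positivity) v, Real.sqrt_sq hM.le]
  ring

theorem sma_scale (M c v : ℝ) (hM : 0 < M) (hc : 0 < c) :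
    sma (M * c) (M ^ 2 * v) = sma c v / M := by
  unfold sma smb
  rw [Real.sqrt_mul (by positivity) v, Real.sqrt_sq hM.le]
  have e1 : (2 * (M * √v) - M * c) / (M * c) = (2 * √v - c) / c := by
    field_simp
  rw [e1, mul_comm M √v, ← div_div]

theorem Sq_two (c v : ℝ) (hc : 0 < c) (h : sma (2 * c) v ≠ 0) : Sq (2 * c) v = Sq c v := by
  have h1 : (2 * c) ^ 2 / 4 < v := by
    by_contra h5
    exact h (f1_sma_zero (2 * c) (by positivity) v (not_lt.1 h5))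
  have e : ∀ d : ℝ, 0 < d → d ^ 2 / 4 ≤ v → Sq d v = √v := by
    intro d hd hv
    unfold Sq
    rw [Real.smoothTransition.one_of_one_le, mul_one]
    rw [le_div_iff₀ (by positivity)]
    nlinarith [sq_nonneg d]
  rw [e (2 * c) (by positivity) h1.le, e c hc (by nlinarith [sq_nonneg c])]

theorem Eo_sub (c : ℝ) (hc : 0 < c) (G₁ G₂ : ℝ → ℂ) (h1 : Measurable G₁) (h2 : Measurable G₂)
    (b1 : ∀ a, ‖G₁ a‖ ≤ 1) (b2 : ∀ b, ‖G₂ b‖ ≤ 1) (t : ℝ) (ξ : ℝ × ℝ) :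
    Eo c G₁ G₂ t ξ - Eo (2 * c) G₁ G₂ t ξ = ∫ x : ℝ × ℝ, G₁ x.1 * G₂ x.2 *
      ((sma c (1 - x.1 ^ 2 - x.2 ^ 2) - sma (2 * c) (1 - x.1 ^ 2 - x.2 ^ 2) : ℝ) : ℂ) *
      ex (t * Sq c (1 - x.1 ^ 2 - x.2 ^ 2)) * ex (x.1 * ξ.1 + x.2 * ξ.2) := by
  have i1 := Ei_int c hc G₁ G₂ h1 h2 b1 b2 t ξ
  have i2 := Ei_int (2 * c) (by positivity) G₁ G₂ h1 h2 b1 b2 t ξ
  have e1 : Eo c G₁ G₂ t ξ - Eo (2 * c) G₁ G₂ t ξ =
      ∫ x, (Ei c G₁ G₂ t ξ x - Ei (2 * c) G₁ G₂ t ξ x) := by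
    rw [integral_sub i1 i2]
    rfl
  rw [e1]
  refine integral_congr_ae (Filter.Eventually.of_forall fun x => ?_)
  unfold Ei wf qf
  simp only
  by_cases h : sma (2 * c) (1 - x.1 ^ 2 - x.2 ^ 2) = 0
  · rw [h]
    simp
  · rw [Sq_two c _ hc h]
    push_cast
    ring

theorem EN_sub (c m : ℝ) (hc : 0 < c) (hm0 : 0 ≤ m) (G₁ G₂ : ℝ → ℂ) (h1 : Measurable G₁)
    (h2 : Measurable G₂) (b1 : ∀ a, ‖G₁ a‖ ≤ 1) (b2 : ∀ b, ‖G₂ b‖ ≤ 1) (t : ℝ) (ξ : ℝ × ℝ) :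
    N1Q.EN c m G₁ G₂ t ξ = EM c m G₁ G₂ t ξ - EM (2 * c) m G₁ G₂ t ξ := by
  have i1 := ca_Eg_int (s3_PD c m hc hm0) G₁ G₂ h1 h2 b1 b2 t ξ
  have i2 := ca_Eg_int (s3_PD (2 * c) m (by positivity) hm0) G₁ G₂ h1 h2 b1 b2 t ξ
  unfold N1Q.EN EM
  rw [← integral_sub i1 i2]
  refine integral_congr_ae (Filter.Eventually.of_forall fun x => ?_)
  unfold wn wm qm
  simp only
  split_ifs with hx
  · by_cases h : sma (2 * c) (hm m x.2 - x.1 ^ 2) = 0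
    · rw [h]
      simp
    · rw [Sq_two c _ hc h]
      push_cast
      ring
  · simp

theorem int_neg2 (f : ℝ × ℝ → ℂ) : ∫ x : ℝ × ℝ, f x = ∫ x : ℝ × ℝ, f (x.1, -x.2) := by
  have h1 : MeasurePreserving (fun x : ℝ × ℝ => (x.1, -x.2)) (volume : Measure (ℝ × ℝ)) volume :=
    (MeasurePreserving.id volume).prod (Measure.measurePreserving_neg (volume : Measure ℝ))
  have h2 : MeasurableEmbedding (fun x : ℝ × ℝ => (x.1, -x.2)) :=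
    ((MeasurableEquiv.refl ℝ).prodCongr (MeasurableEquiv.neg ℝ)).measurableEmbedding
  rw [← h1.integral_comp h2]

theorem lint_neg2 (f : ℝ × ℝ → ℝ≥0∞) : ∫⁻ x : ℝ × ℝ, f x = ∫⁻ x : ℝ × ℝ, f (x.1, -x.2) := by
  have h1 : MeasurePreserving (fun x : ℝ × ℝ => (x.1, -x.2)) (volume : Measure (ℝ × ℝ)) volume :=
    (MeasurePreserving.id volume).prod (Measure.measurePreserving_neg (volume : Measure ℝ))
  have h2 : MeasurableEmbedding (fun x : ℝ × ℝ => (x.1, -x.2)) :=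
    ((MeasurableEquiv.refl ℝ).prodCongr (MeasurableEquiv.neg ℝ)).measurableEmbedding
  rw [← h1.lintegral_comp_emb h2]

/-- The rescaling identity. -/
theorem shell_id (M ν : ℝ) (hM : 0 < M) (hν : 0 < ν) (G₁ G₂ : ℝ → ℂ) (h1 : Measurable G₁)
    (h2 : Measurable G₂) (b1 : ∀ a, ‖G₁ a‖ ≤ 1) (b2 : ∀ b, ‖G₂ b‖ ≤ 1)
    (s2 : ∀ r, G₂ (1 - M ^ 2 * r) ≠ 0 → 0 ≤ r ∧ r ≤ 8) (t : ℝ) (ξ : ℝ × ℝ) :
    Eo (M * ν) G₁ G₂ t ξ - Eo (2 * (M * ν)) G₁ G₂ t ξ = ((M ^ 2 : ℝ) : ℂ) * (ex ξ.2 *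
      N1Q.EN ν (M ^ 2) (fun a => G₁ (M * a)) (fun r => G₂ (1 - M ^ 2 * r)) (M * t)
        (M * ξ.1, -(M ^ 2 * ξ.2))) := by
  rw [Eo_sub (M * ν) (by positivity) G₁ G₂ h1 h2 b1 b2 t ξ, int_neg2,
    int_af2 (M, M ^ 2) (0, -1) hM (by positivity)]
  unfold N1Q.EN
  rw [← integral_const_mul, ← integral_const_mul, ← integral_const_mul]
  refine integral_congr_ae (Filter.Eventually.of_forall fun x => ?_)
  simp only [af2, add_zero, even_two, Even.neg_pow]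
  have e0 : -(M ^ 2 * x.2 + -1) = 1 - M ^ 2 * x.2 := by ring
  rw [e0]
  by_cases hG : G₂ (1 - M ^ 2 * x.2) = 0
  · rw [hG]
    simp
  · have hx := s2 _ hG
    have e1 : 1 - (M * x.1) ^ 2 - (M ^ 2 * x.2 + -1) ^ 2 =
        M ^ 2 * (hm (M ^ 2) x.2 - x.1 ^ 2) := by
      unfold hm
      ring
    have e2 : 2 * (M * ν) = M * (2 * ν) := by ring
    rw [e1, e2, sma_scale M ν _ hM hν, sma_scale M (2 * ν) _ hM (by positivity),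
      Sq_scale M ν _ hM hν]
    unfold wn qm
    rw [if_pos hx]
    have e3 : ex (M * x.1 * ξ.1 + (1 - M ^ 2 * x.2) * ξ.2) =
        ex ξ.2 * ex (x.1 * (M * ξ.1) + x.2 * -(M ^ 2 * ξ.2)) := by
      rw [← m2_ex_add]
      congr 1
      ring
    rw [e3]
    have e4 : t * (M * Sq ν (hm (M ^ 2) x.2 - x.1 ^ 2)) =
        M * t * Sq ν (hm (M ^ 2) x.2 - x.1 ^ 2) := by ring
    rw [e4]
    have hM' : (M : ℂ) ≠ 0 := by exact_mod_cast hM.ne'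
    push_cast
    field_simp

end Pool.Agent.SDT.N1S

end -- N1S.S6A

section -- N1S.S6B

/-!
N1S, stage 2, S6: from the corner families to one shell, the `L⁴` norms.
-/

namespace Pool.Agent.SDT.N1S

open MeasureTheory Set Metric Pool.Agent.SDT.MP_6cbfb8_an Pool.Agent.SDT.MST Pool.Agent.SDT.N1
open Pool.Agent.SDT.N1F Pool.Agent.SDT.N1G Pool.Agent.SDT.N1M Pool.Agent.SDT.N1Q
open scoped ENNReal Real ContDiff

/-- Change of the time scale. -/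
theorem time_scale (M T : ℝ) (hM : 0 < M) (F : ℝ → ℝ≥0∞) :
    ENNReal.ofReal M * ∫⁻ t in Icc T (2 * T), F (M * t) = ∫⁻ t in Icc (M * T) (2 * (M * T)), F t := by
  rw [← lintegral_indicator measurableSet_Icc, ← lintegral_indicator measurableSet_Icc,
    lint_aff M 0 hM ((Icc (M * T) (2 * (M * T))).indicator F)]
  congr 1
  refine lintegral_congr fun t => ?_
  simp only [add_zero]
  by_cases h : t ∈ Icc T (2 * T)
  · have h' : M * t ∈ Icc (M * T) (2 * (M * T)) := by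
      obtain ⟨h1, h2⟩ := h
      constructor
      · gcongr
      · calc M * t ≤ M * (2 * T) := by gcongr
          _ = 2 * (M * T) := by ring
    rw [indicator_of_mem h, indicator_of_mem h']
  · have h' : M * t ∉ Icc (M * T) (2 * (M * T)) := by
      intro h3
      apply h
      obtain ⟨h1, h2⟩ := h3
      constructor
      · exact le_of_mul_le_mul_left h1 hM
      · refine le_of_mul_le_mul_left ?_ hM
        calc M * t ≤ 2 * (M * T) := h2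
          _ = M * (2 * T) := by ring
    rw [indicator_of_notMem h, indicator_of_notMem h']

/-- The `L⁴` norms. -/
theorem shell_L4 (M ν : ℝ) (hM : 0 < M) (hν : 0 < ν) (G₁ G₂ : ℝ → ℂ) (h1 : Measurable G₁)
    (h2 : Measurable G₂) (b1 : ∀ a, ‖G₁ a‖ ≤ 1) (b2 : ∀ b, ‖G₂ b‖ ≤ 1)
    (s2 : ∀ r, G₂ (1 - M ^ 2 * r) ≠ 0 → 0 ≤ r ∧ r ≤ 8) (T : ℝ) :
    ∫⁻ t in Icc T (2 * T), ∫⁻ ξ : ℝ × ℝ,
      ‖Eo (M * ν) G₁ G₂ t ξ - Eo (2 * (M * ν)) G₁ G₂ t ξ‖ₑ ^ 4 =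
    ENNReal.ofReal (M ^ 4) * ∫⁻ t in Icc (M * T) (2 * (M * T)), ∫⁻ ξ : ℝ × ℝ,
      ‖N1Q.EN ν (M ^ 2) (fun a => G₁ (M * a)) (fun r => G₂ (1 - M ^ 2 * r)) t ξ‖ₑ ^ 4 := by
  set N : ℝ → ℝ × ℝ → ℝ≥0∞ := fun t ξ =>
    ‖N1Q.EN ν (M ^ 2) (fun a => G₁ (M * a)) (fun r => G₂ (1 - M ^ 2 * r)) t ξ‖ₑ ^ 4 with hN
  have e1 : ∀ t ξ, ‖Eo (M * ν) G₁ G₂ t ξ - Eo (2 * (M * ν)) G₁ G₂ t ξ‖ₑ ^ 4 =
      ENNReal.ofReal (M ^ 8) * N (M * t) (M * ξ.1, -(M ^ 2 * ξ.2)) := by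
    intro t ξ
    rw [shell_id M ν hM hν G₁ G₂ h1 h2 b1 b2 s2 t ξ, enorm_mul, enorm_mul]
    have e2 : ‖ex ξ.2‖ₑ = 1 := by
      rw [← ofReal_norm, m2_ex_norm, ENNReal.ofReal_one]
    have e3 : ‖((M ^ 2 : ℝ) : ℂ)‖ₑ = ENNReal.ofReal (M ^ 2) := by
      rw [← ofReal_norm, Complex.norm_real, Real.norm_eq_abs, abs_of_pos (by positivity)]
    rw [e2, e3, one_mul, mul_pow, ← ENNReal.ofReal_pow (by positivity)]
    congr 2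
    ring
  have e4 : ∀ t, ∫⁻ ξ : ℝ × ℝ, ‖Eo (M * ν) G₁ G₂ t ξ - Eo (2 * (M * ν)) G₁ G₂ t ξ‖ₑ ^ 4 =
      ENNReal.ofReal (M ^ 5) * ∫⁻ ξ, N (M * t) ξ := by
    intro t
    simp only [e1]
    rw [lintegral_const_mul' _ _ ENNReal.ofReal_ne_top, lint_neg2 (fun ξ => N (M * t) ξ),
      lint_af2 (M, M ^ 2) (0, 0) hM (by positivity) (fun x => N (M * t) (x.1, -x.2)), ← mul_assoc,
      ← ENNReal.ofReal_mul (by positivity)]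
    simp only [af2, add_zero]
    congr 2
    ring
  simp only [e4]
  rw [lintegral_const_mul' _ _ ENNReal.ofReal_ne_top,
    ← time_scale M T hM (fun t => ∫⁻ ξ, N t ξ), ← mul_assoc, ← ENNReal.ofReal_mul (by positivity),
    show M ^ 4 * M = M ^ 5 by ring]

/-- The conclusion of `L4M`. -/
def L4MEst (c : ℝ) : Prop := ∃ C : ℝ, 0 ≤ C ∧ ∃ k : ℕ, ∀ T : ℝ, 1 ≤ T →
    ∀ m : ℝ, 0 ≤ m → m ≤ 1 →
    ∀ G₁ G₂ : ℝ → ℂ, Measurable G₁ → Measurable G₂ → (∀ a, ‖G₁ a‖ ≤ 1) → (∀ b, ‖G₂ b‖ ≤ 1) →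
    (∀ b, G₂ b ≠ 0 → Rg m b) →
    ∫⁻ t in Icc T (2 * T), ∫⁻ ξ : ℝ × ℝ, ‖EM c m G₁ G₂ t ξ‖ₑ ^ 4 ≤
      ENNReal.ofReal (C * (1 + Real.log T) ^ k / T)

/-- The conclusion of `L4E`. -/
def L4EEst : Prop := ∃ ν0 C : ℝ, 0 < ν0 ∧ ν0 ≤ 1 / 4 ∧ 0 ≤ C ∧ ∀ T ν m : ℝ, 0 < ν → ν ≤ ν0 →
    1 / ν ≤ T → 0 ≤ m → m ≤ 1 →
    ∀ G₁ G₂ : ℝ → ℂ, Measurable G₁ → Measurable G₂ → (∀ a, ‖G₁ a‖ ≤ 1) → (∀ b, ‖G₂ b‖ ≤ 1) →
    (∀ a, G₁ a ≠ 0 → 0 ≤ a) → (∀ b, G₂ b ≠ 0 → Rg m b) →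
    ∫⁻ t in Icc T (2 * T), ∫⁻ ξ : ℝ × ℝ, ‖N1Q.EN ν m G₁ G₂ t ξ‖ₑ ^ (4 : ℝ) ≤
      ENNReal.ofReal (C * (1 + Real.log T) ^ 8 / T)

/-- One value of `ν`, from `L4M`. -/
theorem EN_of_EM (ν : ℝ) (hν : 0 < ν) (hν1 : ν = 1 ∨ ν ≤ 1 / 2)
    (hM : ∀ c : ℝ, 0 < c → c ≤ 1 → L4MEst c) : ∃ C : ℝ, 0 ≤ C ∧ ∃ k : ℕ, ∀ T : ℝ, 1 ≤ T →
    ∀ m : ℝ, 0 ≤ m → m ≤ 1 →
    ∀ G₁ G₂ : ℝ → ℂ, Measurable G₁ → Measurable G₂ → (∀ a, ‖G₁ a‖ ≤ 1) → (∀ b, ‖G₂ b‖ ≤ 1) →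
    (∀ b, G₂ b ≠ 0 → Rg m b ∧ hm m b ≤ 1) →
    ∫⁻ t in Icc T (2 * T), ∫⁻ ξ : ℝ × ℝ, ‖N1Q.EN ν m G₁ G₂ t ξ‖ₑ ^ 4 ≤
      ENNReal.ofReal (C * (1 + Real.log T) ^ k / T) := by
  rcases hν1 with hν1 | hν1
  · obtain ⟨C, hC, k, H⟩ := hM 1 one_pos le_rfl
    refine ⟨C, hC, k, ?_⟩
    intro T hT m hm0 hm1 G₁ G₂ h1 h2 b1 b2 s2
    refine le_trans (le_of_eq ?_) (H T hT m hm0 hm1 G₁ G₂ h1 h2 b1 b2 fun b hb => (s2 b hb).1)
    refine lintegral_congr fun t => lintegral_congr fun ξ => ?_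
    have e1 : N1Q.EN ν m G₁ G₂ t ξ = EM 1 m G₁ G₂ t ξ := by
      rw [hν1]
      unfold N1Q.EN EM
      congr 1
      funext x
      by_cases hG : G₂ x.2 = 0
      · rw [hG]
        simp
      · have e2 : wn 1 m x = wm 1 m x := by
          unfold wn wm
          split_ifs with hx
          · have h3 := (s2 _ hG).2
            rw [f1_sma_zero (2 * 1) (by norm_num) (hm m x.2 - x.1 ^ 2)
              (by nlinarith [sq_nonneg x.1]), sub_zero]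
          · rfl
        rw [e2]
    rw [e1]
  · obtain ⟨C1, hC1, k1, H1⟩ := hM ν hν (by linarith)
    obtain ⟨C2, hC2, k2, H2⟩ := hM (2 * ν) (by positivity) (by linarith)
    refine ⟨32 * (C1 + C2), by positivity, k1 + k2, ?_⟩
    intro T hT m hm0 hm1 G₁ G₂ h1 h2 b1 b2 s2
    have hT0 : 0 < T := by linarith
    have hlog := Real.log_nonneg hT
    set L : ℝ := 1 + Real.log T with hL
    have hL1 : 1 ≤ L := by rw [hL]; linarith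
    set K : ℝ := (C1 + C2) * L ^ (k1 + k2) / T with hK
    have q₁ : ∫⁻ t in Icc T (2 * T), ∫⁻ ξ : ℝ × ℝ, ‖EM ν m G₁ G₂ t ξ‖ₑ ^ 4 ≤
        ENNReal.ofReal K := by
      refine (H1 T hT m hm0 hm1 G₁ G₂ h1 h2 b1 b2 fun b hb => (s2 b hb).1).trans ?_
      apply ENNReal.ofReal_le_ofReal
      have e1 : L ^ k1 ≤ L ^ (k1 + k2) := pow_le_pow_right₀ hL1 (by omega)
      have e2 : C1 ≤ C1 + C2 := by linarith
      rw [hK]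
      gcongr
    have q₂ : ∫⁻ t in Icc T (2 * T), ∫⁻ ξ : ℝ × ℝ, ‖EM (2 * ν) m G₁ G₂ t ξ‖ₑ ^ 4 ≤
        ENNReal.ofReal K := by
      refine (H2 T hT m hm0 hm1 G₁ G₂ h1 h2 b1 b2 fun b hb => (s2 b hb).1).trans ?_
      apply ENNReal.ofReal_le_ofReal
      have e1 : L ^ k2 ≤ L ^ (k1 + k2) := pow_le_pow_right₀ hL1 (by omega)
      have e2 : C2 ≤ C1 + C2 := by linarith
      rw [hK]
      gcongr
    have mE : ∀ c : ℝ, 0 < c → Measurable fun p : ℝ × (ℝ × ℝ) => EM c m G₁ G₂ p.1 p.2 :=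
      fun c hc => ca_Eg_meas (s3_PD c m hc hm0) G₁ G₂ h1 h2
    have hsum : ∀ t ξ, N1Q.EN ν m G₁ G₂ t ξ =
        ∑ i : Fin 2, (![fun p : ℝ × (ℝ × ℝ) => EM ν m G₁ G₂ p.1 p.2,
          fun p : ℝ × (ℝ × ℝ) => -EM (2 * ν) m G₁ G₂ p.1 p.2] i) (t, ξ) := by
      intro t ξ
      rw [EN_sub ν m hν hm0 G₁ G₂ h1 h2 b1 b2 t ξ]
      simp only [Fin.sum_univ_two, Matrix.cons_val_zero, Matrix.cons_val_one]
      ring
    simp only [hsum]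
    refine (m2_lint_sum (Finset.univ : Finset (Fin 2)) _ ?_ (Icc T (2 * T))
      (ENNReal.ofReal K) ?_).trans (le_of_eq ?_)
    · intro i _
      fin_cases i
      · exact mE ν hν
      · exact (mE (2 * ν) (by positivity)).neg
    · intro i _
      fin_cases i
      · exact q₁
      · refine le_trans (le_of_eq ?_) q₂
        refine lintegral_congr fun t => lintegral_congr fun ξ => ?_
        show ‖-EM (2 * ν) m G₁ G₂ t ξ‖ₑ ^ 4 = _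
        rw [enorm_neg]
    · simp only [Finset.card_univ, Fintype.card_fin]
      have e1 : ((2 : ℕ) : ℝ≥0∞) = ENNReal.ofReal 2 := by simp
      rw [e1, ← ENNReal.ofReal_pow (by norm_num), ← ENNReal.ofReal_mul (by norm_num),
        ← ENNReal.ofReal_mul (by norm_num)]
      congr 1
      rw [hK]
      ring

end Pool.Agent.SDT.N1S

end -- N1S.S6B

section -- N1S.S6C

/-!
N1S, stage 2, S6: the dyadic `L⁴` estimates of the strips in one shell.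
-/

namespace Pool.Agent.SDT.N1S

open MeasureTheory Set Metric Pool.Agent.SDT.MP_6cbfb8_an Pool.Agent.SDT.MST Pool.Agent.SDT.N1
open Pool.Agent.SDT.N1F Pool.Agent.SDT.N1G Pool.Agent.SDT.N1M Pool.Agent.SDT.N1Q
open scoped ENNReal Real ContDiff

/-- All dyadic values of `ν`. -/
theorem EN_all (hM : ∀ c : ℝ, 0 < c → c ≤ 1 → L4MEst c) (hE : L4EEst) : ∃ C : ℝ, 0 ≤ C ∧
    ∃ K : ℕ, ∀ (i : ℕ) (T : ℝ), 2 ^ i ≤ T → ∀ m : ℝ, 0 ≤ m → m ≤ 1 →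
    ∀ G₁ G₂ : ℝ → ℂ, Measurable G₁ → Measurable G₂ → (∀ a, ‖G₁ a‖ ≤ 1) → (∀ b, ‖G₂ b‖ ≤ 1) →
    (∀ a, G₁ a ≠ 0 → 0 ≤ a) → (∀ b, G₂ b ≠ 0 → Rg m b ∧ hm m b ≤ 1) →
    ∫⁻ t in Icc T (2 * T), ∫⁻ ξ : ℝ × ℝ, ‖N1Q.EN (1 / 2 ^ i) m G₁ G₂ t ξ‖ₑ ^ 4 ≤
      ENNReal.ofReal (C * (1 + Real.log T) ^ K / T) := by
  obtain ⟨ν0, C0, hν0, -, hC0, H0⟩ := hE
  obtain ⟨n, hn⟩ := exists_pow_lt_of_lt_one hν0 (by norm_num : (1 / 2 : ℝ) < 1)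
  have h1 : ∀ i : ℕ, ∃ C : ℝ, 0 ≤ C ∧ ∃ k : ℕ, ∀ T : ℝ, 1 ≤ T →
      ∀ m : ℝ, 0 ≤ m → m ≤ 1 →
      ∀ G₁ G₂ : ℝ → ℂ, Measurable G₁ → Measurable G₂ → (∀ a, ‖G₁ a‖ ≤ 1) → (∀ b, ‖G₂ b‖ ≤ 1) →
      (∀ b, G₂ b ≠ 0 → Rg m b ∧ hm m b ≤ 1) →
      ∫⁻ t in Icc T (2 * T), ∫⁻ ξ : ℝ × ℝ, ‖N1Q.EN (1 / 2 ^ i) m G₁ G₂ t ξ‖ₑ ^ 4 ≤
        ENNReal.ofReal (C * (1 + Real.log T) ^ k / T) := by
    intro i
    refine EN_of_EM (1 / 2 ^ i) (by positivity) ?_ hM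
    rcases Nat.eq_zero_or_pos i with h | h
    · left
      rw [h]
      norm_num
    · right
      exact one_div_le_one_div_of_le (by norm_num) (by
        calc (2:ℝ) = 2 ^ 1 := (pow_one _).symm
          _ ≤ 2 ^ i := pow_le_pow_right₀ (by norm_num) h)
  choose C hC k H using h1
  refine ⟨C0 + ∑ i ∈ Finset.range n, C i, add_nonneg hC0 (Finset.sum_nonneg fun i _ => hC i),
    8 + ∑ i ∈ Finset.range n, k i, ?_⟩
  intro i T hT m hm0 hm1 G₁ G₂ h1 h2 b1 b2 s1 s2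
  have h2i : (1:ℝ) ≤ 2 ^ i := one_le_pow₀ one_le_two
  have hT1 : 1 ≤ T := h2i.trans hT
  have hT0 : 0 < T := by linarith
  have hlog := Real.log_nonneg hT1
  set L : ℝ := 1 + Real.log T with hL
  have hL1 : 1 ≤ L := by rw [hL]; linarith
  have hS : 0 ≤ ∑ i ∈ Finset.range n, C i := Finset.sum_nonneg fun i _ => hC i
  rcases lt_or_ge i n with hi | hi
  · refine (H i T hT1 m hm0 hm1 G₁ G₂ h1 h2 b1 b2 s2).trans ?_
    apply ENNReal.ofReal_le_ofReal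
    rw [← hL]
    have e1 : C i ≤ ∑ i ∈ Finset.range n, C i :=
      Finset.single_le_sum (fun j _ => hC j) (Finset.mem_range.2 hi)
    have e2 : k i ≤ ∑ i ∈ Finset.range n, k i :=
      Finset.single_le_sum (fun j _ => Nat.zero_le _) (Finset.mem_range.2 hi)
    have e3 : L ^ k i ≤ L ^ (8 + ∑ i ∈ Finset.range n, k i) := pow_le_pow_right₀ hL1 (by omega)
    have e4 : C i ≤ C0 + ∑ i ∈ Finset.range n, C i := by linarith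
    gcongr
  · have e0 : (1:ℝ) / 2 ^ i ≤ ν0 := by
      have : (1:ℝ) / 2 ^ i = (1 / 2) ^ i := by rw [one_div_pow]
      rw [this]
      exact (pow_le_pow_of_le_one (by norm_num) (by norm_num) hi).trans hn.le
    have e1 := H0 T (1 / 2 ^ i) m (by positivity) e0 (by rw [one_div_one_div]; exact hT) hm0 hm1
      G₁ G₂ h1 h2 b1 b2 s1 fun b hb => (s2 b hb).1
    have e2 : ∀ t ξ, ‖N1Q.EN (1 / 2 ^ i) m G₁ G₂ t ξ‖ₑ ^ 4 =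
        ‖N1Q.EN (1 / 2 ^ i) m G₁ G₂ t ξ‖ₑ ^ (4 : ℝ) := fun t ξ =>
      (ENNReal.rpow_natCast _ 4).symm
    simp only [e2]
    refine e1.trans ?_
    apply ENNReal.ofReal_le_ofReal
    rw [← hL]
    have e3 : L ^ 8 ≤ L ^ (8 + ∑ i ∈ Finset.range n, k i) := pow_le_pow_right₀ hL1 (by omega)
    gcongr
    linarith

/-- The support of the rescaled function. -/
theorem shell_supp (M : ℝ) (hM : 0 < M) (hM1 : M ≤ 1) (r : ℝ) (h1 : 1 / 2 ≤ 1 - M ^ 2 * r)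
    (h2 : M ^ 2 / 4 ≤ 1 - (1 - M ^ 2 * r) ^ 2) (h3 : 1 - (1 - M ^ 2 * r) ^ 2 < M ^ 2) :
    Rg (M ^ 2) r ∧ hm (M ^ 2) r ≤ 1 ∧ 0 ≤ r ∧ r ≤ 8 := by
  have hM2 : 0 < M ^ 2 := by positivity
  have e1 : 1 - (1 - M ^ 2 * r) ^ 2 = M ^ 2 * hm (M ^ 2) r := by
    unfold hm
    ring
  rw [e1] at h2 h3
  have h4 : 1 / 4 ≤ hm (M ^ 2) r := by
    by_contra h
    push Not at h
    nlinarith
  have h5 : hm (M ^ 2) r < 1 := by
    by_contra h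
    push Not at h
    nlinarith
  have e2 : hm (M ^ 2) r = r * (1 + (1 - M ^ 2 * r)) := by
    unfold hm
    ring
  have h6 : 0 < r := by
    by_contra h
    push Not at h
    rw [e2] at h4
    nlinarith
  have h7 : r ≤ 1 := by
    rw [e2] at h5
    nlinarith
  exact ⟨⟨h6, by linarith, h4, h1⟩, h5.le, h6.le, by linarith⟩

/-- The dyadic `L⁴` estimates of the strips in one shell. -/
theorem oneShell_of (hM : ∀ c : ℝ, 0 < c → c ≤ 1 → L4MEst c) (hE : L4EEst) : ∃ K : ℕ,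
    ∃ C : ℝ, 0 ≤ C ∧ ∀ (i m : ℕ) (T : ℝ), 2 ^ (i + m) ≤ T →
    ∀ G₁ G₂ : ℝ → ℂ, Measurable G₁ → Measurable G₂ → (∀ a, ‖G₁ a‖ ≤ 1) → (∀ b, ‖G₂ b‖ ≤ 1) →
    (∀ a, G₁ a ≠ 0 → 0 ≤ a) →
    (∀ b, G₂ b ≠ 0 → 1 / 2 ≤ b ∧ (1 / 4) ^ m / 4 ≤ 1 - b ^ 2 ∧ 1 - b ^ 2 < (1 / 4) ^ m) →
    ∫⁻ t in Icc T (2 * T), ∫⁻ ξ : ℝ × ℝ,
      ‖Eo (1 / 2 ^ (i + m)) G₁ G₂ t ξ - Eo (2 * (1 / 2 ^ (i + m))) G₁ G₂ t ξ‖ₑ ^ 4 ≤
      ENNReal.ofReal (C * (1 + Real.log T) ^ K / T) := by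
  obtain ⟨C, hC, K, H⟩ := EN_all hM hE
  refine ⟨K, C, hC, ?_⟩
  intro i m T hT G₁ G₂ h1 h2 b1 b2 s1 s2
  set M : ℝ := 1 / 2 ^ m with hMdef
  have h2m : (1:ℝ) ≤ 2 ^ m := one_le_pow₀ one_le_two
  have h2i : (1:ℝ) ≤ 2 ^ i := one_le_pow₀ one_le_two
  have hM0 : 0 < M := by positivity
  have hM1 : M ≤ 1 := by
    rw [hMdef, div_le_one (by positivity)]
    exact h2m
  have hM2 : M ^ 2 ≤ 1 := pow_le_one₀ hM0.le hM1
  have hM4 : M ^ 2 = (1 / 4) ^ m := by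
    rw [hMdef, one_div_pow, one_div_pow, ← pow_mul, mul_comm m 2, pow_mul]
    norm_num
  have ec : (1:ℝ) / 2 ^ (i + m) = M * (1 / 2 ^ i) := by
    rw [hMdef, pow_add]
    field_simp
  have hT1 : 1 ≤ T := (one_le_pow₀ one_le_two).trans hT
  have hT0 : 0 < T := by linarith
  have hMT : 2 ^ i ≤ M * T := by
    rw [pow_add] at hT
    calc (2:ℝ) ^ i = M * (2 ^ i * 2 ^ m) := by
          rw [hMdef]
          field_simp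
      _ ≤ M * T := by gcongr
  have hMT1 : 1 ≤ M * T := h2i.trans hMT
  have hMT0 : 0 < M * T := by linarith
  have sr : ∀ r, G₂ (1 - M ^ 2 * r) ≠ 0 → Rg (M ^ 2) r ∧ hm (M ^ 2) r ≤ 1 ∧ 0 ≤ r ∧ r ≤ 8 := by
    intro r hr
    obtain ⟨a1, a2, a3⟩ := s2 _ hr
    rw [← hM4] at a2 a3
    exact shell_supp M hM0 hM1 r a1 a2 a3
  rw [ec, shell_L4 M (1 / 2 ^ i) hM0 (by positivity) G₁ G₂ h1 h2 b1 b2
    (fun r hr => (sr r hr).2.2) T]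
  have key := H i (M * T) hMT (M ^ 2) (by positivity) hM2 (fun a => G₁ (M * a))
    (fun r => G₂ (1 - M ^ 2 * r)) (h1.comp (by fun_prop)) (h2.comp (by fun_prop))
    (fun a => b1 _) (fun b => b2 _) (fun a ha => by
      have h3 := s1 _ ha
      by_contra h4
      push Not at h4
      nlinarith) (fun b hb => ⟨(sr b hb).1, (sr b hb).2.1⟩)
  refine (mul_le_mul_right key _).trans ?_
  rw [← ENNReal.ofReal_mul (by positivity)]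
  apply ENNReal.ofReal_le_ofReal
  have hl0 : 0 ≤ Real.log (M * T) := Real.log_nonneg hMT1
  have hl : Real.log (M * T) ≤ Real.log T := Real.log_le_log hMT0 (by nlinarith)
  have e1 : M ^ 4 * (C * (1 + Real.log (M * T)) ^ K / (M * T)) =
      M ^ 3 * (C * (1 + Real.log (M * T)) ^ K) / T := by
    field_simp
  rw [e1]
  have e2 : M ^ 3 ≤ 1 := pow_le_one₀ hM0.le hM1
  calc M ^ 3 * (C * (1 + Real.log (M * T)) ^ K) / T ≤ 1 * (C * (1 + Real.log T) ^ K) / T := by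
        gcongr
    _ = C * (1 + Real.log T) ^ K / T := by rw [one_mul]

end Pool.Agent.SDT.N1S

end -- N1S.S6C
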