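import Pool.Agent.SDT.B55
import Pool.Agent.SDT.B66
import Pool.Agent.SDT.B70
import Pool.Agent.SDT.B71

set_option autoImplicit false

namespace Pool.Agent.SDT.MP_6cbfb8_an
end Pool.Agent.SDT.MP_6cbfb8_an
namespace Pool.Agent.SDT.MST
end Pool.Agent.SDT.MST
namespace Pool.Agent.SDT.N1
end Pool.Agent.SDT.N1
namespace Pool.Agent.SDT.N1F
end Pool.Agent.SDT.N1F
namespace Pool.Agent.SDT.N1G
end Pool.Agent.SDT.N1G

section -- N1M.TH2

/-!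
N1M, block M5, part 2: the positive forms of type N and N'.
-/

namespace Pool.Agent.SDT.N1M

open MeasureTheory Set Metric Pool.Agent.SDT.MP_6cbfb8_an Pool.Agent.SDT.MST Pool.Agent.SDT.N1
open Pool.Agent.SDT.N1F Pool.Agent.SDT.N1G
open scoped ENNReal Real ContDiff

theorem omN_meas (ρ : ℝ) : Measurable (omN ρ) := by
  unfold omN
  fun_prop

theorem sgN_meas (m ρ : ℝ) : Measurable (sgN m ρ) := by
  unfold sgN hm
  fun_prop

theorem omP_meas (m : ℝ) : Measurable (omP m) := by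
  unfold omP bm
  fun_prop

theorem sgP_meas (m al ρ : ℝ) : Measurable (sgP m al ρ) := by
  unfold sgP Sm2
  have h1 : Measurable fun v : ℝ × ℝ => √(1 - m * (al ^ 2 * v.2 ^ 2)) :=
    Real.continuous_sqrt.measurable.comp (by fun_prop)
  have h2 : Measurable fun v : ℝ × ℝ => √(1 - m * (al ^ 2 * (v.2 - ρ * v.1) ^ 2)) :=
    Real.continuous_sqrt.measurable.comp (by fun_prop)
  have h3 : Measurable fun v : ℝ × ℝ => v.1 * (2 * v.2 - ρ * v.1) := by fun_prop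
  exact h3.div (h1.mul (h1.add h2))

/-- the positive form in normalised coordinates, type N -/
theorem th_N (c : ℝ) (hc : 0 < c) (hc1 : c ≤ 1) (m0 : ℝ) (x0 y0 : ℝ × ℝ) (hb : Bm m0 x0)
    (hy1 : y0.1 ≠ 0) (hy2 : y0.2 ≠ 0) :
    ∃ δ : ℝ, 0 < δ ∧ δ ≤ 1 ∧ ∃ C : ℝ, 0 ≤ C ∧ ∀ T : ℝ, 1 ≤ T → ∀ al m ρ R : ℝ, Sm al m m0 δ →
      0 < ρ → ρ < δ →
      Adm (2 / c * (2 / c)) R (phN c m al ρ) (waN c m al ρ) →
      ∀ α β : ℝ × ℝ → ℂ, Measurable α → Measurable β → (∀ p, ‖α p‖ ≤ 1) → (∀ p, ‖β p‖ ≤ 1) →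
      (∀ p, α p ≠ 0 → |p.1 - y0.1| ≤ δ / 2 ∧ |p.2 - x0.1| ≤ δ / 2) →
      (∀ p, β p ≠ 0 → |p.1 - y0.2| ≤ δ / 2 ∧ |p.2 - x0.2| ≤ δ / 2) →
      Thg (phN c m al ρ) (waN c m al ρ) T (pd α β) ≤
        ENNReal.ofReal (C / al ^ 3 * (1 + Real.log T) ^ 4 / T) := by
  have hB : 0 ≤ 2 / c * (2 / c) := by positivity
  by_cases n0 : nn (omN 0) (sgN m0 0) (y0, x0) = 0
  · obtain ⟨C0, C3, C4, c1, δ0, hC0, hC3, hC4, hc1', hδ0, hδ01, hE⟩ :=
      E4ND c hc hc1 m0 x0 y0 hb hy1 hy2 n0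
    obtain ⟨δo, hδo, Co, hCo, hosc⟩ := oscND c hc hc1 m0 x0 y0 hb hy1 hy2 (C0 * (8 + 8 * C4))
      (2 * C4) (by linarith)
    obtain ⟨C, hC, hcore⟩ := coreD (2 / c * (2 / c)) C0 C3 C4 c1 hB hC0 hC3 hC4 hc1'
    set η : ℝ := min 1 δo with hη
    have hη0 : 0 < η := by positivity
    obtain ⟨δ1, hδ1, hE1⟩ := hE η hη0
    set δ : ℝ := min (min δ0 δ1) δo with hδdef
    have hδ : 0 < δ := by positivity
    have g01 : δ ≤ min δ0 δ1 := min_le_left _ _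
    have g0 : δ ≤ δ0 := g01.trans (min_le_left _ _)
    have g1 : δ ≤ δ1 := g01.trans (min_le_right _ _)
    have go : δ ≤ δo := min_le_right _ _
    refine ⟨δ, hδ, g0.trans hδ01, C * max 1 Co, by positivity, ?_⟩
    intro T hT al m ρ R hsm hρ hρδ hadm α β hα hβ hα1 hβ1 hαs hβs
    obtain ⟨hal, halδ, hm0, hm1, hmm⟩ := hsm
    have hal1 : al ≤ 1 := by linarith
    obtain ⟨a1, a2, a3, a4, a5⟩ := hE1 δ hδ g0 al m ρ
      ⟨hal, by linarith, hm0, hm1, by linarith⟩ hρ (by linarith)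
    have hT0 : 0 < T := by linarith
    have h3 : 0 < al ^ 3 := by positivity
    have hres := hcore R _ _ hadm (omN ρ) (sgN m ρ) (omN_meas ρ) (sgN_meas m ρ) x0 y0 δ η 1
      (al ^ 2) (max 1 Co / al ^ 3) T hδ (g0.trans hδ01) hη0 (min_le_left _ _) zero_le_one
      (by positivity) (pow_le_one₀ hal.le hal1) ?_ hT (a1 g1)
      (fun q hq => by
        rw [one_mul]
        exact a2 q hq)
      (fun κ q hκ _ hq => a3 κ q hκ hq) (fun κ q hκ _ hq => a4 κ q hκ hq)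
      (fun κ γ d hκ _ hγ hd => a5 κ γ d hκ hγ hd) ?_ α β hα hβ hα1 hβ1 hαs hβs
    · refine hres.trans (ENNReal.ofReal_le_ofReal (le_of_eq ?_))
      ring
    · rw [div_le_div_iff₀ (by positivity) h3, one_mul]
      have h4 : (1 : ℝ) ≤ max 1 Co := le_max_left _ _
      have h5 : al ^ 3 ≤ al ^ 2 := pow_le_pow_of_le_one hal.le hal1 (by norm_num)
      calc al ^ 3 ≤ 1 * al ^ 2 := by linarith
        _ ≤ max 1 Co * al ^ 2 := by gcongr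
    · intro κ γ d hκ hκη hγ hγδ hd hκγ hd1 hd2 A₁ A₂ hA1 hA2 b1 b2 s1 s2
      refine (hosc T al m ρ κ γ d hT0 ⟨hal, by linarith, hm0, hm1, by linarith⟩ hρ
        (by linarith) hκ (hκη.trans (min_le_right _ _)) hγ (by linarith) hd (by linarith)
        (by linarith) (by linarith) A₁ A₂ hA1 hA2 b1 b2 (Sp_mono s1 go) (Sp_mono s2 go)).trans ?_
      have h4 : Co ≤ max 1 Co := le_max_right _ _
      gcongr
  · obtain ⟨C4, c1, δ0, hC4, hc1', hδ0, hδ01, hE⟩ := E4NN c hc hc1 m0 x0 y0 hb hy1 hy2 n0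
    obtain ⟨δo, hδo, Co, hCo, hosc⟩ := oscNN c hc hc1 m0 x0 y0 hb hy1 hy2 (2 * C4) (by linarith)
    obtain ⟨C, hC, hcore⟩ := coreN (2 / c * (2 / c)) C4 c1 hB hC4 hc1'
    set δ : ℝ := min δ0 δo with hδdef
    have hδ : 0 < δ := by positivity
    have g0 : δ ≤ δ0 := min_le_left _ _
    have go : δ ≤ δo := min_le_right _ _
    refine ⟨δ, hδ, g0.trans hδ01, C * max 1 Co, by positivity, ?_⟩
    intro T hT al m ρ R hsm hρ hρδ hadm α β hα hβ hα1 hβ1 hαs hβs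
    obtain ⟨hal, halδ, hm0, hm1, hmm⟩ := hsm
    have hal1 : al ≤ 1 := by linarith
    have hT0 : 0 < T := by linarith
    have h3 : 0 < al ^ 3 := by positivity
    have hres := hcore R _ _ hadm x0 y0 δ (al ^ 2) (max 1 Co / al ^ 3) T hδ (g0.trans hδ01)
      (by positivity) (pow_le_one₀ hal.le hal1) ?_ hT
      (hE δ hδ g0 al m ρ ⟨hal, by linarith, hm0, hm1, by linarith⟩ hρ (by linarith))
      ?_ α β hα hβ hα1 hβ1 hαs hβs
    · refine hres.trans (ENNReal.ofReal_le_ofReal (le_of_eq ?_))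
      ring
    · rw [div_le_div_iff₀ (by positivity) h3, one_mul]
      have h4 : (1 : ℝ) ≤ max 1 Co := le_max_left _ _
      have h5 : al ^ 3 ≤ al ^ 2 := pow_le_pow_of_le_one hal.le hal1 (by norm_num)
      calc al ^ 3 ≤ 1 * al ^ 2 := by linarith
        _ ≤ max 1 Co * al ^ 2 := by gcongr
    · intro γ d hγ hγδ hd hd1 hd2 A₁ A₂ hA1 hA2 b1 b2 s1 s2
      refine (hosc T al m ρ γ d hT0 ⟨hal, by linarith, hm0, hm1, by linarith⟩ hρ
        (by linarith) hγ (by linarith) hd (by linarith)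
        (by linarith) A₁ A₂ hA1 hA2 b1 b2 (Sp_mono s1 go) (Sp_mono s2 go)).trans ?_
      have h4 : Co ≤ max 1 Co := le_max_right _ _
      gcongr

/-- the positive form in normalised coordinates, type N' -/
theorem th_P (c : ℝ) (hc : 0 < c) (hc1 : c ≤ 1) (m0 : ℝ) (x0 y0 : ℝ × ℝ) (hb : Bm m0 x0)
    (hy1 : y0.1 ≠ 0) (hy2 : y0.2 ≠ 0) :
    ∃ δ : ℝ, 0 < δ ∧ δ ≤ 1 ∧ ∃ C : ℝ, 0 ≤ C ∧ ∀ T : ℝ, 1 ≤ T → ∀ al m ρ R : ℝ, Sm al m m0 δ →
      0 < ρ → ρ < δ →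
      Adm (2 / c * (2 / c)) R (phP c m al ρ) (waP c m al ρ) →
      ∀ β α : ℝ × ℝ → ℂ, Measurable β → Measurable α → (∀ p, ‖β p‖ ≤ 1) → (∀ p, ‖α p‖ ≤ 1) →
      (∀ p, β p ≠ 0 → |p.1 - y0.2| ≤ δ / 2 ∧ |p.2 - x0.2| ≤ δ / 2) →
      (∀ p, α p ≠ 0 → |p.1 - y0.1| ≤ δ / 2 ∧ |p.2 - x0.1| ≤ δ / 2) →
      Thg (phP c m al ρ) (waP c m al ρ) T (pd β α) ≤
        ENNReal.ofReal (C / al * (1 + Real.log T) ^ 4 / T) := by
  have hB : 0 ≤ 2 / c * (2 / c) := by positivity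
  by_cases n0 : nn (omP m0) (sgP m0 0 0) (y0.swap, x0.swap) = 0
  · obtain ⟨C0, C3, C4, c1, δ0, hC0, hC3, hC4, hc1', hδ0, hδ01, hE⟩ :=
      E4PD c hc hc1 m0 x0 y0 hb hy1 hy2 n0
    obtain ⟨δo, hδo, Co, hCo, hosc⟩ := oscPD c hc hc1 m0 x0 y0 hb hy1 hy2 (C0 * (8 + 8 * C4))
      (2 * C4) (by linarith)
    obtain ⟨C, hC, hcore⟩ := coreD (2 / c * (2 / c)) C0 C3 C4 c1 hB hC0 hC3 hC4 hc1'
    set η : ℝ := min 1 δo with hη
    have hη0 : 0 < η := by positivity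
    obtain ⟨δ1, hδ1, hE1⟩ := hE η hη0
    set δ : ℝ := min (min δ0 δ1) δo with hδdef
    have hδ : 0 < δ := by positivity
    have g01 : δ ≤ min δ0 δ1 := min_le_left _ _
    have g0 : δ ≤ δ0 := g01.trans (min_le_left _ _)
    have g1 : δ ≤ δ1 := g01.trans (min_le_right _ _)
    have go : δ ≤ δo := min_le_right _ _
    refine ⟨δ, hδ, g0.trans hδ01, C * max 1 Co, by positivity, ?_⟩
    intro T hT al m ρ R hsm hρ hρδ hadm β α hβ hα hβ1 hα1 hβs hαs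
    obtain ⟨hal, halδ, hm0, hm1, hmm⟩ := hsm
    have hal1 : al ≤ 1 := by linarith
    obtain ⟨a1, a2, a3, a4, a5⟩ := hE1 δ hδ g0 al m ρ
      ⟨hal, by linarith, hm0, hm1, by linarith⟩ hρ (by linarith)
    have hT0 : 0 < T := by linarith
    have hres := hcore R _ _ hadm (omP m) (sgP m al ρ) (omP_meas m) (sgP_meas m al ρ) x0.swap
      y0.swap δ η m 1 (max 1 Co / al) T hδ (g0.trans hδ01) hη0 (min_le_left _ _) hm0
      one_pos le_rfl ?_ hT (a1 g1) a2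
      (fun κ q hκ _ hq h4 h5 h6 => a3 κ q hκ hq h4 h5 (by rwa [one_mul] at h6))
      (fun κ q hκ _ hq h4 h5 => by
        rw [one_mul] at h5 ⊢
        exact a4 κ q hκ hq h4 h5)
      (fun κ γ d hκ _ hγ hd => a5 κ γ d hκ hγ hd) ?_ β α hβ hα hβ1 hα1 hβs hαs
    · refine hres.trans (ENNReal.ofReal_le_ofReal (le_of_eq ?_))
      ring
    · rw [div_le_div_iff₀ one_pos hal, one_mul, mul_one]
      exact hal1.trans (le_max_left _ _)
    · intro κ γ d hκ hκη hγ hγδ hd hκγ hd1 hd2 A₁ A₂ hA1 hA2 b1 b2 s1 s2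
      rw [one_mul] at hd1 hd2
      refine (hosc T al m ρ κ γ d hT0 ⟨hal, by linarith, hm0, hm1, by linarith⟩ hρ
        (by linarith) hκ (hκη.trans (min_le_right _ _)) hγ (by linarith) hd hκγ
        hd1 hd2 A₁ A₂ hA1 hA2 b1 b2 (Sp_mono s1 go) (Sp_mono s2 go)).trans ?_
      have h4 : Co ≤ max 1 Co := le_max_right _ _
      gcongr
  · obtain ⟨C4, c1, δ0, hC4, hc1', hδ0, hδ01, hE⟩ := E4PN c hc hc1 m0 x0 y0 hb hy1 hy2 n0
    obtain ⟨δo, hδo, Co, hCo, hosc⟩ := oscPN c hc hc1 m0 x0 y0 hb hy1 hy2 (2 * C4) (by linarith)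
    obtain ⟨C, hC, hcore⟩ := coreN (2 / c * (2 / c)) C4 c1 hB hC4 hc1'
    set δ : ℝ := min δ0 δo with hδdef
    have hδ : 0 < δ := by positivity
    have g0 : δ ≤ δ0 := min_le_left _ _
    have go : δ ≤ δo := min_le_right _ _
    refine ⟨δ, hδ, g0.trans hδ01, C * max 1 Co, by positivity, ?_⟩
    intro T hT al m ρ R hsm hρ hρδ hadm β α hβ hα hβ1 hα1 hβs hαs
    obtain ⟨hal, halδ, hm0, hm1, hmm⟩ := hsm
    have hal1 : al ≤ 1 := by linarith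
    have hT0 : 0 < T := by linarith
    have hres := hcore R _ _ hadm x0.swap y0.swap δ 1 (max 1 Co / al) T hδ (g0.trans hδ01)
      one_pos le_rfl ?_ hT
      (fun q hq h4 => by
        rw [one_mul] at h4 ⊢
        exact hE δ hδ g0 al m ρ ⟨hal, by linarith, hm0, hm1, by linarith⟩ hρ (by linarith) q hq h4)
      ?_ β α hβ hα hβ1 hα1 hβs hαs
    · refine hres.trans (ENNReal.ofReal_le_ofReal (le_of_eq ?_))
      ring
    · rw [div_le_div_iff₀ one_pos hal, one_mul, mul_one]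
      exact hal1.trans (le_max_left _ _)
    · intro γ d hγ hγδ hd hd1 hd2 A₁ A₂ hA1 hA2 b1 b2 s1 s2
      rw [one_mul] at hd1 hd2
      refine (hosc T al m ρ γ d hT0 ⟨hal, by linarith, hm0, hm1, by linarith⟩ hρ
        (by linarith) hγ (by linarith) hd hd1
        hd2 A₁ A₂ hA1 hA2 b1 b2 (Sp_mono s1 go) (Sp_mono s2 go)).trans ?_
      have h4 : Co ≤ max 1 Co := le_max_right _ _
      gcongr

/-- Type N. -/
theorem TH4N (c : ℝ) (hc : 0 < c) (hc1 : c ≤ 1) (m0 : ℝ) (x0 y0 : ℝ × ℝ) (hb : Bm m0 x0)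
    (hy1 : y0.1 ≠ 0) (hy2 : y0.2 ≠ 0) :
    ∃ δ : ℝ, 0 < δ ∧ ∃ C : ℝ, 0 ≤ C ∧ ∀ T : ℝ, 1 ≤ T → ∀ al m : ℝ, Sm al m m0 δ →
      ∀ ρ : ℝ, 0 < ρ → ρ < δ →
      ∀ α β : ℝ × ℝ → ℂ, Measurable α → Measurable β → (∀ p, ‖α p‖ ≤ 1) → (∀ p, ‖β p‖ ≤ 1) →
      (∀ p, α p ≠ 0 → |p.1 / (al * ρ) - y0.1| ≤ δ ∧ |p.2 / al - x0.1| ≤ δ) →
      (∀ p, β p ≠ 0 → |p.1 / ρ - y0.2| ≤ δ ∧ |p.2 - x0.2| ≤ δ) →
      TM c m T (pd α β) ≤ ENNReal.ofReal (C * (1 + Real.log T) ^ 5 / T) := by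
  obtain ⟨δ, hδ, hδ1, C, hC, h⟩ := th_N c hc hc1 m0 x0 y0 hb hy1 hy2
  have hB : 0 ≤ 2 / c * (2 / c) := by positivity
  obtain ⟨Cs, hCs, hs⟩ := th_small (2 / c * (2 / c)) hB
  refine ⟨δ / 2, by positivity, C + Cs, by positivity, ?_⟩
  intro T hT al m hsm ρ hρ hρδ α β hα hβ hα1 hβ1 hαs hβs
  obtain ⟨hal, halδ, hm0, hm1, hmm⟩ := hsm
  have hal1 : al ≤ 1 := by linarith
  have hρ1 : ρ ≤ 1 := by linarith
  have hT0 : 0 < T := by linarith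
  have hE : 0 ≤ (C + Cs) / al ^ 3 := by positivity
  -- the scaled functions
  have e1 : phN c m al ρ = fun p => dif (qm c m) (s4 (al * ρ) ρ al 1 p) / ρ := by
    funext p
    unfold phN s4 s2
    rw [one_mul]
  have e2 : waN c m al ρ = fun p => dam (wm c m) (s4 (al * ρ) ρ al 1 p) := by
    funext p
    unfold waN s4 s2
    rw [one_mul]
  have e3 : (fun p => pd α β (s4 (al * ρ) ρ al 1 p)) =
      pd (fun p => α (al * ρ * p.1, al * p.2)) (fun p => β (ρ * p.1, p.2)) := by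
    funext p
    unfold pd s4 s2
    simp only [one_mul]
  have hadm : Adm (2 / c * (2 / c)) (2 * 8 / (al * ρ)) (phN c m al ρ) (waN c m al ρ) := by
    rw [e1, e2]
    have h4 : al * ρ ≤ ρ := mul_le_of_le_one_left hρ.le hal1
    have h5 : al * ρ ≤ al := mul_le_of_le_one_right hal.le hρ1
    exact adm_s4 (th_adm c m hc hm0) ρ (al * ρ) ρ al 1 (al * ρ) (by positivity) le_rfl h4 h5
      (h5.trans hal1)
  have hα' : Measurable fun p : ℝ × ℝ => α (al * ρ * p.1, al * p.2) := hα.comp (by fun_prop)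
  have hβ' : Measurable fun p : ℝ × ℝ => β (ρ * p.1, p.2) := hβ.comp (by fun_prop)
  have hαs' : ∀ p : ℝ × ℝ, α (al * ρ * p.1, al * p.2) ≠ 0 →
      |p.1 - y0.1| ≤ δ / 2 ∧ |p.2 - x0.1| ≤ δ / 2 := by
    intro p hp
    have h4 := hαs _ hp
    simp only at h4
    rwa [mul_div_cancel_left₀ _ (by positivity), mul_div_cancel_left₀ _ hal.ne'] at h4
  have hβs' : ∀ p : ℝ × ℝ, β (ρ * p.1, p.2) ≠ 0 →
      |p.1 - y0.2| ≤ δ / 2 ∧ |p.2 - x0.2| ≤ δ / 2 := by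
    intro p hp
    have h4 := hβs _ hp
    simp only at h4
    rwa [mul_div_cancel_left₀ _ hρ.ne'] at h4
  have hres := th_bridge (dif (qm c m)) (dam (wm c m)) (pd α β) T ρ (al * ρ) ρ al 1
    ((C + Cs) / al ^ 3) hT hρ hρ1 (by positivity) hρ hal one_pos hE ?_ ?_
  · unfold TM
    refine hres.trans (ENNReal.ofReal_le_ofReal (le_of_eq ?_))
    field_simp
  · intro h1
    rw [← e1, ← e2, e3]
    refine (h (ρ * T) h1 al m ρ _ ⟨hal, by linarith, hm0, hm1, by linarith⟩ hρ (by linarith) hadm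
      _ _ hα' hβ' (fun p => hα1 _) (fun p => hβ1 _) hαs' hβs').trans
      (ENNReal.ofReal_le_ofReal ?_)
    have h5 : 0 ≤ Real.log (ρ * T) := Real.log_nonneg h1
    gcongr
    linarith
  · intro h1
    rw [← e1, ← e2, e3]
    refine (hs _ _ _ hadm x0 y0 δ (ρ * T) hδ hδ1 (by positivity) h1 _ _ hα' hβ'
      (fun p => hα1 _) (fun p => hβ1 _) hαs' hβs').trans (ENNReal.ofReal_le_ofReal ?_)
    have h5 : Cs ≤ (C + Cs) / al ^ 3 := by
      rw [le_div_iff₀ (by positivity)]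
      have h6 : al ^ 3 ≤ 1 := pow_le_one₀ hal.le hal1
      nlinarith
    gcongr

/-- Type N'. -/
theorem TH4P (c : ℝ) (hc : 0 < c) (hc1 : c ≤ 1) (m0 : ℝ) (x0 y0 : ℝ × ℝ) (hb : Bm m0 x0)
    (hy1 : y0.1 ≠ 0) (hy2 : y0.2 ≠ 0) :
    ∃ δ : ℝ, 0 < δ ∧ ∃ C : ℝ, 0 ≤ C ∧ ∀ T : ℝ, 1 ≤ T → ∀ al m : ℝ, Sm al m m0 δ →
      ∀ ρ : ℝ, 0 < ρ → ρ < δ →
      ∀ α β : ℝ × ℝ → ℂ, Measurable α → Measurable β → (∀ p, ‖α p‖ ≤ 1) → (∀ p, ‖β p‖ ≤ 1) →
      (∀ p, α p ≠ 0 → |p.1 / (al * ρ) - y0.1| ≤ δ ∧ |p.2 / al - x0.1| ≤ δ) →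
      (∀ p, β p ≠ 0 → |p.1 / (al ^ 2 * ρ) - y0.2| ≤ δ ∧ |p.2 - x0.2| ≤ δ) →
      TM c m T (pd α β) ≤ ENNReal.ofReal (C * (1 + Real.log T) ^ 5 / T) := by
  obtain ⟨δ, hδ, hδ1, C, hC, h⟩ := th_P c hc hc1 m0 x0 y0 hb hy1 hy2
  have hB : 0 ≤ 2 / c * (2 / c) := by positivity
  obtain ⟨Cs, hCs, hs⟩ := th_small (2 / c * (2 / c)) hB
  refine ⟨δ / 2, by positivity, C + Cs, by positivity, ?_⟩
  intro T hT al m hsm ρ hρ hρδ α β hα hβ hα1 hβ1 hαs hβs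
  obtain ⟨hal, halδ, hm0, hm1, hmm⟩ := hsm
  have hal1 : al ≤ 1 := by linarith
  have hρ1 : ρ ≤ 1 := by linarith
  have hT0 : 0 < T := by linarith
  have hE : 0 ≤ (C + Cs) / al := by positivity
  have hal2 : al ^ 2 ≤ 1 := pow_le_one₀ hal.le hal1
  have hτ1 : al ^ 2 * ρ ≤ 1 := mul_le_one₀ hal2 hρ.le hρ1
  -- the scaled functions
  have e1 : phP c m al ρ = fun p => (fun s => dif (qm c m) (cs s))
      (s4 (al ^ 2 * ρ) (al * ρ) 1 al p) / (al ^ 2 * ρ) := by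
    funext p
    unfold phP s4 s2 cs
    simp only [Prod.swap_prod_mk, one_mul]
  have e2 : waP c m al ρ = fun p => (fun s => dam (wm c m) (cs s))
      (s4 (al ^ 2 * ρ) (al * ρ) 1 al p) := by
    funext p
    unfold waP s4 s2 cs
    simp only [Prod.swap_prod_mk, one_mul]
  have e3 : (fun p => pd β α (s4 (al ^ 2 * ρ) (al * ρ) 1 al p)) =
      pd (fun p => β (al ^ 2 * ρ * p.1, p.2)) (fun p => α (al * ρ * p.1, al * p.2)) := by
    funext p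
    unfold pd s4 s2
    simp only [one_mul]
  have hadm : Adm (2 / c * (2 / c)) (2 * 8 / (al ^ 2 * ρ)) (phP c m al ρ) (waP c m al ρ) := by
    rw [e1, e2]
    have h3 : al ^ 2 ≤ al := by nlinarith
    have h4 : al ^ 2 * ρ ≤ al * ρ := by gcongr
    have h5 : al * ρ ≤ al := mul_le_of_le_one_right hal.le hρ1
    exact adm_s4 (adm_cs (th_adm c m hc hm0)) (al ^ 2 * ρ) (al ^ 2 * ρ) (al * ρ) 1 al
      (al ^ 2 * ρ) (by positivity) le_rfl h4 hτ1 (h4.trans h5)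
  have hα' : Measurable fun p : ℝ × ℝ => α (al * ρ * p.1, al * p.2) := hα.comp (by fun_prop)
  have hβ' : Measurable fun p : ℝ × ℝ => β (al ^ 2 * ρ * p.1, p.2) := hβ.comp (by fun_prop)
  have hαs' : ∀ p : ℝ × ℝ, α (al * ρ * p.1, al * p.2) ≠ 0 →
      |p.1 - y0.1| ≤ δ / 2 ∧ |p.2 - x0.1| ≤ δ / 2 := by
    intro p hp
    have h4 := hαs _ hp
    simp only at h4
    rwa [mul_div_cancel_left₀ _ (by positivity), mul_div_cancel_left₀ _ hal.ne'] at h4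
  have hβs' : ∀ p : ℝ × ℝ, β (al ^ 2 * ρ * p.1, p.2) ≠ 0 →
      |p.1 - y0.2| ≤ δ / 2 ∧ |p.2 - x0.2| ≤ δ / 2 := by
    intro p hp
    have h4 := hβs _ hp
    simp only at h4
    rwa [mul_div_cancel_left₀ _ (by positivity)] at h4
  have hres := th_bridge (fun s => dif (qm c m) (cs s)) (fun s => dam (wm c m) (cs s)) (pd β α) T
    (al ^ 2 * ρ) (al ^ 2 * ρ) (al * ρ) 1 al ((C + Cs) / al) hT (by positivity) hτ1 (by positivity)
    (by positivity) one_pos hal hE ?_ ?_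
  · unfold TM
    rw [← Thg_comm]
    refine hres.trans (ENNReal.ofReal_le_ofReal (le_of_eq ?_))
    field_simp
  · intro h1
    rw [← e1, ← e2, e3]
    refine (h (al ^ 2 * ρ * T) h1 al m ρ _ ⟨hal, by linarith, hm0, hm1, by linarith⟩ hρ
      (by linarith) hadm _ _ hβ' hα' (fun p => hβ1 _) (fun p => hα1 _) hβs' hαs').trans
      (ENNReal.ofReal_le_ofReal ?_)
    have h5 : 0 ≤ Real.log (al ^ 2 * ρ * T) := Real.log_nonneg h1
    gcongr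
    linarith
  · intro h1
    rw [← e1, ← e2, e3]
    refine (hs _ _ _ hadm x0.swap y0.swap δ (al ^ 2 * ρ * T) hδ hδ1 (by positivity) h1 _ _ hβ' hα'
      (fun p => hβ1 _) (fun p => hα1 _) hβs' hαs').trans (ENNReal.ofReal_le_ofReal ?_)
    have h5 : Cs ≤ (C + Cs) / al := by
      rw [le_div_iff₀ hal]
      nlinarith
    gcongr

end Pool.Agent.SDT.N1M

end -- N1M.TH2

section -- N1M.THF

/-!
N1M, block M5: the global estimates for outer differences of types N and N'.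
-/

namespace Pool.Agent.SDT.N1M

open MeasureTheory Set Metric Pool.Agent.SDT.MP_6cbfb8_an Pool.Agent.SDT.MST Pool.Agent.SDT.N1
open Pool.Agent.SDT.N1F Pool.Agent.SDT.N1G
open scoped ENNReal Real ContDiff

/-- The local statement; `X = (m₀, x₀, y₀)`, `sc al * ρ` is the size of `y₂`. -/
def THl4 (c : ℝ) (sc : ℝ → ℝ) (X : ℝ × (ℝ × ℝ) × (ℝ × ℝ)) (δ C : ℝ) : Prop :=
  ∀ T : ℝ, 1 ≤ T → ∀ al m : ℝ, Sm al m X.1 δ →
    ∀ ρ : ℝ, 0 < ρ → ρ < δ →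
    ∀ α β : ℝ × ℝ → ℂ, Measurable α → Measurable β → (∀ p, ‖α p‖ ≤ 1) → (∀ p, ‖β p‖ ≤ 1) →
    (∀ p, α p ≠ 0 → |p.1 / (al * ρ) - X.2.2.1| ≤ δ ∧ |p.2 / al - X.2.1.1| ≤ δ) →
    (∀ p, β p ≠ 0 → |p.1 / (sc al * ρ) - X.2.2.2| ≤ δ ∧ |p.2 - X.2.1.2| ≤ δ) →
    TM c m T (pd α β) ≤ ENNReal.ofReal (C * (1 + Real.log T) ^ 5 / T)

theorem THl4_mono (c : ℝ) (sc : ℝ → ℝ) :
    ∀ X δ δ' C C', 0 < δ' → δ' ≤ δ → C ≤ C' → THl4 c sc X δ C → THl4 c sc X δ' C' := by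
  intro X δ δ' C C' h0 h1 h2 h T hT al m hs ρ hρ hρ1 α β hα hβ hα1 hβ1 hα2 hβ2
  obtain ⟨s1, s2, s3, s4, s5⟩ := hs
  refine (h T hT al m ⟨s1, s2.trans_le h1, s3, s4, s5.trans_le h1⟩ ρ hρ (hρ1.trans_le h1) α β hα
    hβ hα1 hβ1 (fun p hp => ⟨(hα2 p hp).1.trans h1, (hα2 p hp).2.trans h1⟩)
    (fun p hp => ⟨(hβ2 p hp).1.trans h1, (hβ2 p hp).2.trans h1⟩)).trans ?_
  refine ENNReal.ofReal_le_ofReal ?_
  have hl : 0 ≤ Real.log T := Real.log_nonneg hT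
  gcongr

theorem THl4_shift (c : ℝ) (sc : ℝ → ℝ) : ∀ X X' δ C, 0 < δ → dist X' X ≤ δ / 2 →
    THl4 c sc X δ C → THl4 c sc X' (δ / 2) C := by
  intro X X' δ C h0 hd h T hT al m hs ρ hρ hρ1 α β hα hβ hα1 hβ1 hα2 hβ2
  obtain ⟨s1, s2, s3, s4, s5⟩ := hs
  simp only [Prod.dist_eq, max_le_iff, Real.dist_eq] at hd
  obtain ⟨d1, ⟨d3, d4⟩, d5, d6⟩ := hd
  have key : ∀ a b b' : ℝ, |a - b'| ≤ δ / 2 → |b' - b| ≤ δ / 2 → |a - b| ≤ δ := by
    intro a b b' h1 h2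
    have := abs_sub_le a b' b
    linarith
  have key' : ∀ a b b' : ℝ, |a - b'| < δ / 2 → |b' - b| ≤ δ / 2 → |a - b| < δ := by
    intro a b b' h1 h2
    have := abs_sub_le a b' b
    linarith
  exact h T hT al m ⟨s1, by linarith, s3, s4, key' _ _ _ s5 d1⟩ ρ hρ (by linarith) α β hα
    hβ hα1 hβ1 (fun p hp => ⟨key _ _ _ (hα2 p hp).1 d5, key _ _ _ (hα2 p hp).2 d3⟩)
    (fun p hp => ⟨key _ _ _ (hβ2 p hp).1 d6, key _ _ _ (hβ2 p hp).2 d4⟩)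

/-- The base points. -/
def KpM (K : ℝ) : Set (ℝ × (ℝ × ℝ) × (ℝ × ℝ)) :=
  {X | (0 ≤ X.1 ∧ X.1 ≤ 1) ∧ (1 ≤ X.2.1.1 ∧ X.2.1.1 ≤ 2) ∧ (0 ≤ X.2.1.2 ∧ X.2.1.2 ≤ 4) ∧
    1 / 4 ≤ 2 * X.2.1.2 - X.1 * X.2.1.2 ^ 2 ∧ 1 / 2 ≤ 1 - X.1 * X.2.1.2 ∧
    (1 / K ≤ |X.2.2.1| ∧ |X.2.2.1| ≤ K) ∧ (1 / K ≤ |X.2.2.2| ∧ |X.2.2.2| ≤ K)}

theorem KpM_compact (K : ℝ) : IsCompact (KpM K) := by
  have hc1 : Continuous fun X : ℝ × (ℝ × ℝ) × (ℝ × ℝ) => X.1 := continuous_fst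
  have hc2 : Continuous fun X : ℝ × (ℝ × ℝ) × (ℝ × ℝ) => X.2.1.1 :=
    (continuous_fst.comp continuous_fst).comp continuous_snd
  have hc3 : Continuous fun X : ℝ × (ℝ × ℝ) × (ℝ × ℝ) => X.2.1.2 :=
    (continuous_snd.comp continuous_fst).comp continuous_snd
  have hc4 : Continuous fun X : ℝ × (ℝ × ℝ) × (ℝ × ℝ) => X.2.2.1 :=
    (continuous_fst.comp continuous_snd).comp continuous_snd
  have hc5 : Continuous fun X : ℝ × (ℝ × ℝ) × (ℝ × ℝ) => X.2.2.2 :=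
    (continuous_snd.comp continuous_snd).comp continuous_snd
  have hcl : IsClosed (KpM K) := by
    refine IsClosed.and (IsClosed.and ?_ ?_) (IsClosed.and (IsClosed.and ?_ ?_) (IsClosed.and
      (IsClosed.and ?_ ?_) (IsClosed.and ?_ (IsClosed.and ?_ (IsClosed.and (IsClosed.and ?_ ?_)
        (IsClosed.and ?_ ?_))))))
    · exact isClosed_le continuous_const hc1
    · exact isClosed_le hc1 continuous_const
    · exact isClosed_le continuous_const hc2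
    · exact isClosed_le hc2 continuous_const
    · exact isClosed_le continuous_const hc3
    · exact isClosed_le hc3 continuous_const
    · exact isClosed_le continuous_const ((continuous_const.mul hc3).sub (hc1.mul (hc3.pow 2)))
    · exact isClosed_le continuous_const (continuous_const.sub (hc1.mul hc3))
    · exact isClosed_le continuous_const hc4.abs
    · exact isClosed_le hc4.abs continuous_const
    · exact isClosed_le continuous_const hc5.abs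
    · exact isClosed_le hc5.abs continuous_const
  refine Metric.isCompact_of_isClosed_isBounded hcl ?_
  refine (Metric.isBounded_closedBall (x := (0 : ℝ × (ℝ × ℝ) × (ℝ × ℝ)))
    (r := max 4 K)).subset ?_
  rintro ⟨A, ⟨x1, x2⟩, ⟨y1, y2⟩⟩ ⟨⟨a1, a2⟩, ⟨c1, c2⟩, ⟨d1, d2⟩, -, -, ⟨-, e2⟩, ⟨-, f2⟩⟩
  simp only at *
  simp only [mem_closedBall, Prod.dist_eq, max_le_iff, Real.dist_eq, Prod.fst_zero, Prod.snd_zero,
    sub_zero]
  have h2 : (4 : ℝ) ≤ max 4 K := le_max_left _ _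
  have hK : K ≤ max 4 K := le_max_right _ _
  refine ⟨?_, ⟨?_, ?_⟩, e2.trans hK, f2.trans hK⟩ <;> rw [abs_le] <;> constructor <;> linarith

theorem TM_zero_of (c m T : ℝ) (M : YX → ℂ) (h : ∀ p, M p = 0) : TM c m T M = 0 := by
  have h1 : ∀ y t, Hyg (dif (qm c m)) (dam (wm c m)) M y t = 0 := by
    intro y t
    unfold Hyg
    simp [h]
  unfold TM Thg
  simp [h1]

theorem TM_sum (c m T : ℝ) (hc : 0 < c) (hm : 0 ≤ m) (hT : 0 < T) (n : ℕ) (M : ℕ → YX → ℂ)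
    (hM : ∀ i, Measurable (M i)) (hM1 : ∀ i p, ‖M i p‖ ≤ 1) (M0 : YX → ℂ)
    (hs : ∀ p, ∑ i ∈ Finset.range n, M i p = M0 p)
    (Q : ℝ≥0∞) (hQ : ∀ i, TM c m T (M i) ≤ Q) : TM c m T M0 ≤ n * (n * Q) := by
  have h1 := Thg_sum _ _ _ _ (th_adm c m hc hm) T hT n (fun i => M i) (fun i => hM i) 1
    (fun i p => hM1 i p)
  have h2 : (fun p => ∑ i : Fin n, M i p) = M0 := by
    funext p
    rw [← hs, Finset.sum_range (fun i => M i p)]
  rw [h2] at h1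
  refine h1.trans ?_
  gcongr
  calc ∑ i : Fin n, Thg (dif (qm c m)) (dam (wm c m)) T (M i) ≤ ∑ _i : Fin n, Q :=
        Finset.sum_le_sum fun i _ => hQ i
    _ = n * Q := by simp

theorem pd_meas {α β : ℝ × ℝ → ℂ} (hα : Measurable α) (hβ : Measurable β) : Measurable (pd α β) := by
  unfold pd
  exact (hα.comp (by fun_prop)).mul (hβ.comp (by fun_prop))

theorem pd_norm {α β : ℝ × ℝ → ℂ} (hα : ∀ p, ‖α p‖ ≤ 1) (hβ : ∀ p, ‖β p‖ ≤ 1)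
    (p : (ℝ × ℝ) × (ℝ × ℝ)) : ‖pd α β p‖ ≤ 1 := by
  unfold pd
  rw [norm_mul]
  exact mul_le_one₀ (hα _) (norm_nonneg _) (hβ _)

/-- The global estimate from the local estimates. -/
theorem THF4_of (c : ℝ) (hc : 0 < c) (sc : ℝ → ℝ)
    (hloc : ∀ (m0 : ℝ) (x0 y0 : ℝ × ℝ), Bm m0 x0 → y0.1 ≠ 0 → y0.2 ≠ 0 →
      ∃ δ : ℝ, 0 < δ ∧ ∃ C : ℝ, 0 ≤ C ∧ THl4 c sc (m0, x0, y0) δ C) (K : ℝ) (hK : 1 ≤ K) :
    ∃ r : ℝ, 0 < r ∧ ∃ C : ℝ, 0 ≤ C ∧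
    ∀ T : ℝ, 1 ≤ T → ∀ al m : ℝ, 0 < al → al ≤ r → 0 ≤ m → m ≤ 1 →
    ∀ ρ : ℝ, 0 < ρ → ∀ x0 : ℝ × ℝ, ∀ α β : ℝ × ℝ → ℂ, Measurable α → Measurable β →
      (∀ p, ‖α p‖ ≤ 1) → (∀ p, ‖β p‖ ≤ 1) →
      CapS al r x0.1 (al * ρ) K α → CapR m r x0.2 (sc al * ρ) K β →
      TM c m T (pd α β) ≤ ENNReal.ofReal (C * (1 + Real.log T) ^ 5 / T) := by
  have hK0 : 0 < K := by linarith
  obtain ⟨δ, hδ, C, hC, h⟩ := g2_unif (KpM_compact K) (THl4 c sc) (THl4_mono c sc) (by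
    rintro ⟨A, x, y⟩ ⟨⟨a1, a2⟩, ⟨c1, c2⟩, ⟨d1, d2⟩, g1, g2, ⟨e1, -⟩, ⟨f1, -⟩⟩
    simp only at *
    have hKi : 0 < 1 / K := by positivity
    have hx2 : 0 < x.2 := by
      rcases d1.lt_or_eq with h | h
      · exact h
      · exfalso
        rw [← h] at g1
        norm_num at g1
    refine hloc A x y ⟨a1, a2, by linarith, hx2, d2, g1, g2⟩ ?_ ?_
    · exact abs_pos.1 (hKi.trans_le e1)
    · exact abs_pos.1 (hKi.trans_le f1)) (THl4_shift c sc)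
  set N : ℕ := ⌊2 * K / δ⌋₊ + 1 with hN
  refine ⟨δ / (4 * K), by positivity, N * (N * (N * (N * C))), by positivity, ?_⟩
  intro T hT al m hal hal1 hm0 hm1 ρ hρ x0 α β hα hβ hα1 hβ1 hSα hSβ
  have hT0 : 0 < T := by linarith
  have hl : 0 ≤ Real.log T := Real.log_nonneg hT
  have hr1 : δ / (4 * K) ≤ δ / 4 := by
    apply div_le_div_of_nonneg_left hδ.le (by norm_num) (by linarith)
  -- the size of ρ
  by_cases hρδ : δ ≤ ρ
  · have hα0 : ∀ p, α p = 0 := by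
      intro p
      by_contra hp
      obtain ⟨-, -, -, -, h5, h6, h7, -⟩ := hSα p hp
      have h8 : |p.1| ≤ 2 * (δ / (4 * K) * al) := by
        have e : p.1 = (p.2 - x0.1) - (p.2 - p.1 - x0.1) := by ring
        rw [e]
        refine (abs_sub _ _).trans ?_
        linarith
      rw [abs_div, abs_of_pos (show 0 < al * ρ by positivity), le_div_iff₀ (by positivity)] at h7
      have h9 : 1 / K * (al * ρ) ≤ 2 * (δ / (4 * K) * al) := h7.trans h8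
      have h10 : al * ρ ≤ al * (δ / 2) := by
        have := mul_le_mul_of_nonneg_left h9 hK0.le
        have e1 : K * (1 / K * (al * ρ)) = al * ρ := by field_simp
        have e2 : K * (2 * (δ / (4 * K) * al)) = al * (δ / 2) := by field_simp; ring
        rwa [e1, e2] at this
      have := le_of_mul_le_mul_left h10 hal
      linarith
    rw [TM_zero_of c m T _ (fun p => by unfold pd; rw [hα0, zero_mul])]
    exact zero_le
  push Not at hρδ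
  -- the pieces
  have hpc : ∀ i j, TM c m T (pd (g2_cut (fun p => p.1 / (al * ρ)) K δ α i)
      (g2_cut (fun p => p.1 / (sc al * ρ)) K δ β j)) ≤
        ENNReal.ofReal (C * (1 + Real.log T) ^ 5 / T) := by
    intro i j
    by_cases hex : ∃ y x, pd (g2_cut (fun p => p.1 / (al * ρ)) K δ α i)
      (g2_cut (fun p => p.1 / (sc al * ρ)) K δ β j) (y, x) ≠ 0
    · obtain ⟨y, x, hM⟩ := hex
      unfold pd at hM
      have hM1 := g2_cut_ne (left_ne_zero_of_mul hM)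
      have hM2 := g2_cut_ne (right_ne_zero_of_mul hM)
      obtain ⟨i1, a0⟩ := hM1
      obtain ⟨j1, b0⟩ := hM2
      obtain ⟨u1, u2, u3, u4, u5, u6, u7, u8⟩ := hSα _ a0
      obtain ⟨v1, v2, v5, v6, v7, v8⟩ := hSβ _ b0
      simp only at *
      obtain ⟨w1, w2, w3, w4⟩ := v1
      have hx1 : 1 ≤ x.1 / al ∧ x.1 / al ≤ 2 := ⟨(one_le_div hal).2 u1, (div_le_iff₀ hal).2 u2⟩
      refine h (m, (x.1 / al, x.2), (y.1 / (al * ρ), y.2 / (sc al * ρ)))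
        ⟨⟨hm0, hm1⟩, hx1, ⟨w1.le, w2⟩, w3, w4, ⟨u7, u8⟩, ⟨v7, v8⟩⟩ T hT al m
        ⟨hal, by linarith, hm0, hm1, by simpa using hδ⟩ ρ hρ hρδ _ _
        (g2_cut_meas (by fun_prop) _ _ hα i) (g2_cut_meas (by fun_prop) _ _ hβ j)
        (g2_cut_norm _ _ _ hα1 i) (g2_cut_norm _ _ _ hβ1 j) ?_ ?_
      · intro p hp
        obtain ⟨k1, k2⟩ := g2_cut_ne hp
        obtain ⟨w1, w2, w3, w4, w5, w6, w7, w8⟩ := hSα _ k2
        refine ⟨g2_ix_near hδ w8 u8 (k1.trans i1.symm), ?_⟩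
        simp only
        rw [← sub_div, abs_div, abs_of_pos hal, div_le_iff₀ hal]
        have := abs_sub_le p.2 x0.1 x.1
        rw [abs_sub_comm x0.1 x.1] at this
        have h9 := mul_le_mul_of_nonneg_right hr1 hal.le
        linarith [mul_pos hδ hal]
      · intro p hp
        obtain ⟨k1, k2⟩ := g2_cut_ne hp
        obtain ⟨w1, w2, w5, w6, w7, w8⟩ := hSβ _ k2
        refine ⟨g2_ix_near hδ w8 v8 (k1.trans j1.symm), ?_⟩
        simp only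
        have := abs_sub_le p.2 x0.2 x.2
        rw [abs_sub_comm x0.2 x.2] at this
        linarith
    · push Not at hex
      rw [TM_zero_of c m T _ (fun p => hex p.1 p.2)]
      exact zero_le
  have hstep : ∀ i, TM c m T (pd (g2_cut (fun p => p.1 / (al * ρ)) K δ α i) β) ≤
      N * (N * ENNReal.ofReal (C * (1 + Real.log T) ^ 5 / T)) := by
    intro i
    refine TM_sum c m T hc hm0 hT0 N
      (fun j => pd (g2_cut (fun p => p.1 / (al * ρ)) K δ α i)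
        (g2_cut (fun p => p.1 / (sc al * ρ)) K δ β j))
      (fun j => pd_meas (g2_cut_meas (by fun_prop) _ _ hα i) (g2_cut_meas (by fun_prop) _ _ hβ j))
      (fun j => pd_norm (g2_cut_norm _ _ _ hα1 i) (g2_cut_norm _ _ _ hβ1 j)) _ (fun p => ?_) _
      (fun j => hpc i j)
    unfold pd
    rw [← Finset.mul_sum, g2_cut_sum _ _ _ hδ β (fun u hu => (hSβ _ hu).2.2.2.2.2)]
  have hfin := TM_sum c m T hc hm0 hT0 N
      (fun i => pd (g2_cut (fun p => p.1 / (al * ρ)) K δ α i) β)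
      (fun j => pd_meas (g2_cut_meas (by fun_prop) _ _ hα j) hβ)
      (fun j => pd_norm (g2_cut_norm _ _ _ hα1 j) hβ1) (pd α β) (fun p => by
        unfold pd
        rw [← Finset.sum_mul, g2_cut_sum _ _ _ hδ α (fun u hu => (hSα _ hu).2.2.2.2.2.2.2)]) _
      hstep
  refine hfin.trans (le_of_eq ?_)
  have e0 : 0 ≤ C * (1 + Real.log T) ^ 5 / T := by positivity
  rw [show (N : ℝ) * (N * (N * (N * C))) * (1 + Real.log T) ^ 5 / T =
    N * (N * (N * (N * (C * (1 + Real.log T) ^ 5 / T)))) by ring]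
  rw [ENNReal.ofReal_mul (Nat.cast_nonneg N), ENNReal.ofReal_mul (Nat.cast_nonneg N),
    ENNReal.ofReal_mul (Nat.cast_nonneg N), ENNReal.ofReal_mul (Nat.cast_nonneg N),
    ENNReal.ofReal_natCast]

theorem THF4N (c : ℝ) (hc : 0 < c) (hc1 : c ≤ 1) (K : ℝ) (hK : 1 ≤ K) : ∃ r : ℝ, 0 < r ∧ ∃ C : ℝ, 0 ≤ C ∧
    ∀ T : ℝ, 1 ≤ T → ∀ al m : ℝ, 0 < al → al ≤ r → 0 ≤ m → m ≤ 1 →
    ∀ ρ : ℝ, 0 < ρ → ∀ x0 : ℝ × ℝ, ∀ α β : ℝ × ℝ → ℂ, Measurable α → Measurable β →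
      (∀ p, ‖α p‖ ≤ 1) → (∀ p, ‖β p‖ ≤ 1) →
      CapS al r x0.1 (al * ρ) K α → CapR m r x0.2 ρ K β →
      TM c m T (pd α β) ≤ ENNReal.ofReal (C * (1 + Real.log T) ^ 5 / T) := by
  obtain ⟨r, hr, C, hC, h⟩ := THF4_of c hc (fun _ => 1) (fun m0 x0 y0 hb h1 h2 => by
    obtain ⟨δ, hδ, C, hC, h⟩ := TH4N c hc hc1 m0 x0 y0 hb h1 h2
    refine ⟨δ, hδ, C, hC, ?_⟩
    intro T hT al m hs ρ hρ hρ1 α β hα hβ hα1 hβ1 hα2 hβ2
    simp only [one_mul] at hβ2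
    exact h T hT al m hs ρ hρ hρ1 α β hα hβ hα1 hβ1 hα2 hβ2) K hK
  refine ⟨r, hr, C, hC, ?_⟩
  simpa only [one_mul] using h

theorem THF4P (c : ℝ) (hc : 0 < c) (hc1 : c ≤ 1) (K : ℝ) (hK : 1 ≤ K) : ∃ r : ℝ, 0 < r ∧ ∃ C : ℝ, 0 ≤ C ∧
    ∀ T : ℝ, 1 ≤ T → ∀ al m : ℝ, 0 < al → al ≤ r → 0 ≤ m → m ≤ 1 →
    ∀ ρ : ℝ, 0 < ρ → ∀ x0 : ℝ × ℝ, ∀ α β : ℝ × ℝ → ℂ, Measurable α → Measurable β →
      (∀ p, ‖α p‖ ≤ 1) → (∀ p, ‖β p‖ ≤ 1) →
      CapS al r x0.1 (al * ρ) K α → CapR m r x0.2 (al ^ 2 * ρ) K β →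
      TM c m T (pd α β) ≤ ENNReal.ofReal (C * (1 + Real.log T) ^ 5 / T) :=
  THF4_of c hc (fun al => al ^ 2) (fun m0 x0 y0 hb h1 h2 => TH4P c hc hc1 m0 x0 y0 hb h1 h2) K hK

end Pool.Agent.SDT.N1M

end -- N1M.THF
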