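import Pool.Agent.SDT.B66

set_option autoImplicit false

namespace Pool.Agent.SDT.MP_6cbfb8_an
end Pool.Agent.SDT.MP_6cbfb8_an
namespace Pool.Agent.SDT.MST
end Pool.Agent.SDT.MST
namespace Pool.Agent.SDT.N1
end Pool.Agent.SDT.N1
namespace Pool.Agent.SDT.N1F
end Pool.Agent.SDT.N1F
namespace Pool.Agent.SDT.N1G
end Pool.Agent.SDT.N1G
namespace Pool.Agent.SDT.N1M
end Pool.Agent.SDT.N1M

section -- N1G.Bb1

/-!
N1G, core boxes: the local estimate for the quadratic family at `τ = ρ = 0`.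
-/

namespace Pool.Agent.SDT.N1G.Qf

open MeasureTheory Set Metric Filter Topology Pool.Agent.SDT.MP_6cbfb8_an Pool.Agent.SDT.MST
open Pool.Agent.SDT.N1 Pool.Agent.SDT.N1G
open scoped ENNReal Real ContDiff

/-- Case (D) of the family at a base point with `τ = ρ = 0`. -/
theorem caseD_fam (W : PP × YX → ℝ) (B1 B2 P g1 g2 s : ℝ) (y0 : ℝ × ℝ) (hP : 0 < P)
    (hg1 : g1 ≠ 0) (hg2 : g2 ≠ 0) (hs : s ≠ 0) (hB : 0 < B2 * g1 ^ 2 + B1 * g2 ^ 2)
    (ha : B1 * (-(s * g2)) * P + g1 * (g1 * y0.1 + g2 * y0.2) = 0) :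
    CaseD (fam W) ((B1, B2), (0, P), (g1, g2), (s, 0)) (0, 0) y0 := by
  refine caseD W _ _ _ rfl ?_ hg1 ?_ ?_ ?_ ?_ ?_ ?_ ?_
  · simpa [Qqq] using hP
  · simpa [G1] using hg1
  · simpa [G2] using hg2
  · simpa [D1] using hg1
  · simpa [e1] using ⟨hs, hg2⟩
  · simpa [e2] using ⟨hs, hg1⟩
  · have := hB.ne'
    simpa [D1, G2] using this
  · have hG : G1 ((B1, B2), (0, P), (g1, g2), (s, 0)) 0 ≠ 0 := by simpa [G1] using hg1
    show (fam W).om _ (y0.1, 0) - (fam W).sg _ (y0.2, 0) = 0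
    simp only [Fam.om, Fam.sg, fam]
    rw [oo_0 _ rfl _ _ hG, ss_0 _ rfl]
    simp only [D1, mul_zero, zero_div, add_zero, zero_mul, sub_zero]
    rw [sub_eq_zero, eq_div_iff (by positivity)]
    linear_combination 2 * ha

/-- The local estimate for the member `p` of the family. -/
def LocE (W : PP × YX → ℝ) (p : PP) (y0 : ℝ × ℝ) (δ C : ℝ) : Prop :=
  ∀ φ w : YX → ℝ, Agr (fam W) p (0, 0) y0 δ φ w → ∀ T : ℝ, 1 ≤ T →
    ∀ α β : ℝ × ℝ → ℂ, Measurable α → Measurable β → (∀ p, ‖α p‖ ≤ 1) → (∀ p, ‖β p‖ ≤ 1) →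
      (∀ p, α p ≠ 0 → |p.1 - y0.1| ≤ δ ∧ |p.2| ≤ δ) →
      (∀ p, β p ≠ 0 → |p.1 - y0.2| ≤ δ ∧ |p.2| ≤ δ) →
      Thg φ w T (pd α β) ≤ ENNReal.ofReal (C * (1 + Real.log T) ^ 4 / T)

theorem uu_base (B1 B2 τ P g1 g2 s : ℝ) (y0 : ℝ × ℝ) :
    UU ((B1, B2), (τ, P), (g1, g2), (s, 0)) (y0, (0, 0)) = g1 * y0.1 + g2 * y0.2 := by
  simp [UU]

theorem Q_base (B1 B2 τ P g1 g2 s ρ : ℝ) :
    Qqq ((B1, B2), (τ, P), (g1, g2), (s, ρ)) (0, 0) = P := by
  simp [Qqq]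

/-- The smoothness assumption at a base point with `τ = ρ = 0`. -/
theorem famOk0 (W : PP × YX → ℝ) (hW : ContDiff ℝ ∞ W) (B1 B2 P g1 g2 s : ℝ) (y0 : ℝ × ℝ)
    (hP : 0 < P) (hg1 : g1 ≠ 0) (hb : B2 * (s * g1) * P + g2 * (g1 * y0.1 + g2 * y0.2) ≠ 0) :
    ∃ r : ℝ, FamOk (fam W) ((B1, B2), (0, P), (g1, g2), (s, 0)) (0, 0) y0 r := by
  have hp : (((B1, B2), (0, P), (g1, g2), (s, 0)) : PP).2.2.2.2 = 0 := rfl
  have hQ : 0 < Qqq ((B1, B2), (0, P), (g1, g2), (s, 0)) ((y0, (0, 0)) : YX).2 := by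
    rw [show ((y0, (0, 0)) : YX).2 = (0, 0) from rfl, Q_base]
    exact hP
  refine famOk W _ _ _ (good_0 _ hp _ hQ ?_ ?_) ?_ 1 one_pos hW.contDiffOn
  · simp only [G1]
    rw [zero_mul, zero_mul, sub_zero]
    exact mul_self_pos.2 hg1
  · simp only [D1]
    rw [zero_mul, zero_mul, add_zero]
    positivity
  · rw [psb_0 _ hp W _ hQ]
    unfold Nb
    rw [uu_base]
    simp only [Q_base, e2, G2, zero_mul, add_zero, sub_zero, ne_eq, neg_eq_zero, div_eq_zero_iff,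
      not_or]
    exact ⟨hb, (pow_pos (Real.sqrt_pos.2 hP) 3).ne'⟩

theorem Bx_cs {δ : ℝ} {x0 y0 : ℝ × ℝ} {s : YX} (h : Bx δ x0 y0 s) :
    Bx δ x0.swap y0.swap (cs s) :=
  ⟨h.2.1, h.1, h.2.2.2, h.2.2.1⟩

theorem cs_cs (s : YX) : cs (cs s) = s := by
  unfold cs
  simp

theorem swP_dist (p p0 : PP) : dist (swP p) (swP p0) = dist p p0 := by
  obtain ⟨⟨a, b⟩, ⟨c, d⟩, ⟨e, f⟩, ⟨g, h⟩⟩ := p
  obtain ⟨⟨a', b'⟩, ⟨c', d'⟩, ⟨e', f'⟩, ⟨g', h'⟩⟩ := p0
  simp only [swP, Prod.dist_eq]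
  rw [max_comm (dist b b'), max_comm (dist f f'), dist_neg_neg]

/-- The local estimate near a base point with `τ = ρ = 0`. -/
theorem fam_loc (W : PP × YX → ℝ) (hW : ContDiff ℝ ∞ W)
    (B1 B2 P g1 g2 s : ℝ) (y0 : ℝ × ℝ) (hP : 0 < P) (hg1 : g1 ≠ 0)
    (hg2 : g2 ≠ 0) (hs : s ≠ 0) (hB : 0 < B2 * g1 ^ 2 + B1 * g2 ^ 2) :
    ∃ δ : ℝ, 0 < δ ∧ ∃ C : ℝ, 0 ≤ C ∧
      ∀ p ∈ ball (((B1, B2), (0, P), (g1, g2), (s, 0)) : PP) δ, 0 ≤ p.1.1 → 0 ≤ p.1.2 →
        LocE W p y0 δ C := by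
  by_cases ha : B1 * (-(s * g2)) * P + g1 * (g1 * y0.1 + g2 * y0.2) = 0
  · -- case (D)
    have hb : B2 * (s * g1) * P + g2 * (g1 * y0.1 + g2 * y0.2) ≠ 0 := by
      intro hb
      have e : s * P * (B2 * g1 ^ 2 + B1 * g2 ^ 2) = 0 := by
        linear_combination g1 * hb - g2 * ha
      rcases mul_eq_zero.1 e with h | h
      · exact absurd h (mul_ne_zero hs hP.ne')
      · exact absurd h hB.ne'
    obtain ⟨r, hF⟩ := famOk0 W hW B1 B2 P g1 g2 s y0 hP hg1 hb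
    obtain ⟨δ, hδ, C, hC, h⟩ := TH_fam (fam W) _ (0, 0) y0 r hF
      (Or.inl (caseD_fam W B1 B2 P g1 g2 s y0 hP hg1 hg2 hs hB ha))
    refine ⟨δ, hδ, C, hC, fun p hp h1 _ φ w hA T hT α β hα hβ hα1 hβ1 hαs hβs => ?_⟩
    refine h p hp h1 φ w hA T hT α β hα hβ hα1 hβ1 ?_ ?_
    · intro q hq
      simpa using hαs q hq
    · intro q hq
      simpa using hβs q hq
  · by_cases hb : B2 * (s * g1) * P + g2 * (g1 * y0.1 + g2 * y0.2) = 0
    · -- case (D) for the exchanged family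
      have ha' : B1 * (-s * g2) * P + g1 * (g2 * y0.swap.1 + g1 * y0.swap.2) ≠ 0 := by
        intro h
        apply ha
        simp only [Prod.fst_swap, Prod.snd_swap] at h
        linear_combination h
      have hb' : B2 * (-(-s * g1)) * P + g2 * (g2 * y0.swap.1 + g1 * y0.swap.2) = 0 := by
        simp only [Prod.fst_swap, Prod.snd_swap]
        linear_combination hb
      obtain ⟨W', hW'⟩ : ∃ W' : PP × YX → ℝ, W' = fun z => W (swP z.1, cs z.2) := ⟨_, rfl⟩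
      have hW's : ContDiff ℝ ∞ W' := by
        rw [hW']
        refine hW.comp ?_
        unfold swP cs
        refine ContDiff.prodMk ?_ ?_
        · fun_prop
        · have e1 : ContDiff ℝ ∞ fun z : PP × YX => (z.2.1.2, z.2.1.1) := by fun_prop
          have e2 : ContDiff ℝ ∞ fun z : PP × YX => (z.2.2.2, z.2.2.1) := by fun_prop
          exact e1.prodMk e2
      obtain ⟨r, hF⟩ := famOk0 W' hW's B2 B1 P g2 g1 (-s) y0.swap hP hg2 ha'
      obtain ⟨δ, hδ, C, hC, h⟩ := TH_fam (fam W') _ (0, 0) y0.swap r hF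
        (Or.inl (caseD_fam W' B2 B1 P g2 g1 (-s) y0.swap hP hg2 hg1 (neg_ne_zero.2 hs)
          (by linarith) hb'))
      refine ⟨δ, hδ, C, hC, fun p hp _ h2 φ w hA T hT α β hα hβ hα1 hβ1 hαs hβs => ?_⟩
      rw [← Thg_comm]
      refine h (swP p) ?_ h2 _ _ ?_ T hT β α hβ hα hβ1 hα1 ?_ ?_
      · have e : (((B2, B1), (0, P), (g2, g1), (-s, 0)) : PP) =
          swP ((B1, B2), (0, P), (g1, g2), (s, 0)) := rfl
        rw [e, mem_ball, swP_dist]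
        exact hp
      · intro t ht
        have ht' : Bx δ (0, 0) y0 (cs t) := by
          have := Bx_cs ht
          simpa using this
        obtain ⟨a1, a2⟩ := hA (cs t) ht'
        refine ⟨?_, ?_⟩
        · show φ (cs t) = psi (swP p, t)
          rw [a1]
          show psi (p, cs t) = psi (swP p, t)
          rw [← psi_swP p (cs t), cs_cs]
        · show w (cs t) = W' (swP p, t)
          rw [a2, hW']
          simp only [swP_swP]
          rfl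
      · intro q hq
        simpa using hβs q hq
      · intro q hq
        simpa using hαs q hq
    · -- case (N)
      obtain ⟨r, hF⟩ := famOk0 W hW B1 B2 P g1 g2 s y0 hP hg1 hb
      have hN : CaseN (fam W) ((B1, B2), (0, P), (g1, g2), (s, 0)) (0, 0) y0 := by
        refine CN.caseN_fam W B1 B2 0 P g1 g2 s y0 hP hg1 hg2 ?_ ?_ ?_ ?_ ?_
        · simp only [zero_mul, add_zero, ne_eq, neg_eq_zero, mul_eq_zero, not_or]
          exact ⟨hs, hg2⟩
        · simp only [zero_mul, add_zero, ne_eq, mul_eq_zero, not_or]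
          exact ⟨hs, hg1⟩
        · simp only [zero_mul, add_zero]
          exact hB.ne'
        · simp only [zero_mul, add_zero]
          exact pow_ne_zero 2 hg1
        · simp only [zero_mul, add_zero]
          exact ha
      obtain ⟨δ, hδ, C, hC, h⟩ := TH_fam (fam W) _ (0, 0) y0 r hF (Or.inr hN)
      refine ⟨δ, hδ, C, hC, fun p hp h1 _ φ w hA T hT α β hα hβ hα1 hβ1 hαs hβs => ?_⟩
      refine h p hp h1 φ w hA T hT α β hα hβ hα1 hβ1 ?_ ?_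
      · intro q hq
        simpa using hαs q hq
      · intro q hq
        simpa using hβs q hq

end Pool.Agent.SDT.N1G.Qf

end -- N1G.Bb1

section -- N1G.Bb2

/-!
N1G, core boxes: the uniform local estimate for the quadratic family near `τ = ρ = 0`.
-/

namespace Pool.Agent.SDT.N1G.Qf

open MeasureTheory Set Metric Filter Topology Pool.Agent.SDT.MP_6cbfb8_an Pool.Agent.SDT.MST
open Pool.Agent.SDT.N1 Pool.Agent.SDT.N1G
open scoped ENNReal Real ContDiff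

/-- The local estimate for the member `p` of the family itself. -/
def LocF (W : PP × YX → ℝ) (p : PP) (y0 : ℝ × ℝ) (δ C : ℝ) : Prop :=
  ∀ T : ℝ, 1 ≤ T →
    ∀ α β : ℝ × ℝ → ℂ, Measurable α → Measurable β → (∀ p, ‖α p‖ ≤ 1) → (∀ p, ‖β p‖ ≤ 1) →
      (∀ p, α p ≠ 0 → |p.1 - y0.1| ≤ δ ∧ |p.2| ≤ δ) →
      (∀ p, β p ≠ 0 → |p.1 - y0.2| ≤ δ ∧ |p.2| ≤ δ) →
      Thg (fun s => psi (p, s)) (fun s => W (p, s)) T (pd α β) ≤
        ENNReal.ofReal (C * (1 + Real.log T) ^ 4 / T)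

theorem LocF_of (W : PP × YX → ℝ) (p : PP) (y0 : ℝ × ℝ) (δ C : ℝ) (h : LocE W p y0 δ C) :
    LocF W p y0 δ C :=
  h _ _ (fun _ _ => ⟨rfl, rfl⟩)

theorem LocF_mono (W : PP × YX → ℝ) (p : PP) (y0 y1 : ℝ × ℝ) (δ δ' C C' : ℝ)
    (h1 : |y1.1 - y0.1| + δ' ≤ δ) (h2 : |y1.2 - y0.2| + δ' ≤ δ) (hC : C ≤ C')
    (h : LocF W p y0 δ C) : LocF W p y1 δ' C' := by
  intro T hT α β hα hβ hα1 hβ1 sα sβ
  have hT0 : 0 < T := by linarith
  have hd : δ' ≤ δ := by linarith [abs_nonneg (y1.1 - y0.1)]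
  refine (h T hT α β hα hβ hα1 hβ1 ?_ ?_).trans (ENNReal.ofReal_le_ofReal ?_)
  · intro q hq
    obtain ⟨a1, a2⟩ := sα q hq
    refine ⟨?_, a2.trans hd⟩
    have : q.1 - y0.1 = (q.1 - y1.1) + (y1.1 - y0.1) := by ring
    rw [this]
    exact (abs_add_le _ _).trans (by linarith)
  · intro q hq
    obtain ⟨a1, a2⟩ := sβ q hq
    refine ⟨?_, a2.trans hd⟩
    have : q.1 - y0.2 = (q.1 - y1.2) + (y1.2 - y0.2) := by ring
    rw [this]
    exact (abs_add_le _ _).trans (by linarith)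
  · have hl : 0 ≤ Real.log T := Real.log_nonneg hT
    gcongr

/-- The compact set of base points. -/
def KB (C3 : ℝ) : Set (PP × (ℝ × ℝ)) :=
  ((({1} : Set ℝ) ×ˢ Icc 0 1) ×ˢ (({0} : Set ℝ) ×ˢ Icc (1 / 8) 8) ×ˢ
    (Icc (-4) (-(1 / 4)) ×ˢ Icc (1 / 4) 2) ×ˢ
    ((Icc (-4) (-(1 / 4)) ∪ Icc (1 / 4) 4) ×ˢ ({0} : Set ℝ))) ×ˢ
    (Icc (-C3) C3 ×ˢ Icc (-C3) C3)

theorem KB_compact (C3 : ℝ) : IsCompact (KB C3) := by
  unfold KB
  refine IsCompact.prod (IsCompact.prod ?_ (IsCompact.prod ?_ (IsCompact.prod ?_ ?_))) ?_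
  · exact isCompact_singleton.prod isCompact_Icc
  · exact isCompact_singleton.prod isCompact_Icc
  · exact isCompact_Icc.prod isCompact_Icc
  · exact (isCompact_Icc.union isCompact_Icc).prod isCompact_singleton
  · exact isCompact_Icc.prod isCompact_Icc

/-- The uniform local estimate. -/
theorem fam_unif (W : PP × YX → ℝ) (hW : ContDiff ℝ ∞ W) (C3 : ℝ) :
    ∃ δ : ℝ, 0 < δ ∧ ∃ C : ℝ, 0 ≤ C ∧ ∀ b P g1 g2 s τ ρ : ℝ, ∀ y0 : ℝ × ℝ, 0 ≤ b → b ≤ 1 →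
      1 / 8 ≤ P → P ≤ 8 → -4 ≤ g1 → g1 ≤ -(1 / 4) → 1 / 4 ≤ g2 → g2 ≤ 2 →
      1 / 4 ≤ |s| → |s| ≤ 4 → |y0.1| ≤ C3 → |y0.2| ≤ C3 →
      |τ| < δ → |ρ| < δ → LocF W ((1, b), (τ, P), (g1, g2), (s, ρ)) y0 δ C := by
  obtain ⟨δ, hδ, C, hC, h⟩ := g2_unif (KB_compact C3)
    (fun z δ C => ∀ p ∈ ball z.1 δ, 0 ≤ p.1.1 → 0 ≤ p.1.2 → ∀ y ∈ ball z.2 δ, LocF W p y δ C)
    (by
      intro z δ δ' C C' hδ' hd hC h p hp h1 h2 y hy
      refine LocF_mono W p y y δ δ' C C' ?_ ?_ hC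
        (h p (ball_subset_ball hd hp) h1 h2 y (ball_subset_ball hd hy))
      · rw [sub_self, abs_zero, zero_add]
        exact hd
      · rw [sub_self, abs_zero, zero_add]
        exact hd)
    (by
      rintro ⟨⟨⟨B1, b⟩, ⟨τ, P⟩, ⟨g1, g2⟩, ⟨s, ρ⟩⟩, y0⟩ hz
      obtain ⟨⟨⟨hB, hb⟩, ⟨hτ, hP⟩, ⟨hg1, hg2⟩, hs, hρ⟩, hy⟩ := hz
      simp only [mem_singleton_iff, mem_Icc, mem_union] at hB hb hτ hP hg1 hg2 hs hρ
      subst hB hτ hρ
      have hs0 : s ≠ 0 := by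
        rcases hs with h | h
        · intro h0
          rw [h0] at h
          linarith [h.2]
        · intro h0
          rw [h0] at h
          linarith [h.1]
      have hg10 : g1 ≠ 0 := by
        intro h0
        rw [h0] at hg1
        linarith [hg1.2]
      have hg20 : 0 < g2 := by linarith [hg2.1]
      obtain ⟨δ, hδ, C, hC, h⟩ := fam_loc W hW 1 b P g1 g2 s y0 (by linarith [hP.1]) hg10
        hg20.ne' hs0 (by
          have := hb.1
          positivity)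
      refine ⟨δ / 2, half_pos hδ, C, hC, fun p hp h1 h2 y hy => ?_⟩
      have h3 := LocF_of W p y0 δ C (h p (ball_subset_ball (half_le_self hδ.le) hp) h1 h2)
      rw [mem_ball, Prod.dist_eq, max_lt_iff, Real.dist_eq, Real.dist_eq] at hy
      exact LocF_mono W p y0 y δ (δ / 2) C C (by linarith [hy.1]) (by linarith [hy.2]) le_rfl h3)
    (by
      intro z z' δ C hδ hd h p hp h1 h2 y hy
      have hz1 : dist z'.1 z.1 ≤ δ / 2 := le_trans (le_max_left _ _) hd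
      have hz2 : dist z'.2 z.2 ≤ δ / 2 := le_trans (le_max_right _ _) hd
      have hp' : p ∈ ball z.1 δ := by
        rw [mem_ball] at hp ⊢
        linarith [dist_triangle p z'.1 z.1]
      have hy' : y ∈ ball z.2 δ := by
        rw [mem_ball] at hy ⊢
        linarith [dist_triangle y z'.2 z.2]
      refine LocF_mono W p y y δ (δ / 2) C C ?_ ?_ le_rfl (h p hp' h1 h2 y hy')
      · rw [sub_self, abs_zero, zero_add]
        linarith
      · rw [sub_self, abs_zero, zero_add]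
        linarith)
  refine ⟨δ, hδ, C, hC, ?_⟩
  intro b P g1 g2 s τ ρ y0 hb0 hb1 hP0 hP1 hg10 hg11 hg20 hg21 hs0 hs1 hy1 hy2 hτ hρ
  refine h (((1, b), (0, P), (g1, g2), (s, 0)), y0) ?_ _ ?_ zero_le_one hb0 y0
    (mem_ball_self hδ)
  · refine ⟨⟨⟨rfl, hb0, hb1⟩, ⟨rfl, hP0, hP1⟩, ⟨⟨hg10, hg11⟩, hg20, hg21⟩, ?_, rfl⟩,
      abs_le.1 hy1, abs_le.1 hy2⟩
    rcases le_total 0 s with h | h
    · rw [abs_of_nonneg h] at hs0 hs1
      exact Or.inr ⟨hs0, hs1⟩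
    · rw [abs_of_nonpos h] at hs0 hs1
      exact Or.inl ⟨by linarith, by linarith⟩
  · rw [mem_ball]
    simp only [Prod.dist_eq, dist_self, Real.dist_eq, sub_zero]
    simp [hτ, hρ]

end Pool.Agent.SDT.N1G.Qf

end -- N1G.Bb2

section -- N1Q.BoxB

/-!
N1Q: core boxes (`boxB` of `N1Q.Spec`).
-/

namespace Pool.Agent.SDT.N1Q

open MeasureTheory Set Metric Pool.Agent.SDT.MP_6cbfb8_an Pool.Agent.SDT.MST Pool.Agent.SDT.N1
open Pool.Agent.SDT.N1F Pool.Agent.SDT.N1G Pool.Agent.SDT.N1M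
open scoped ENNReal Real ContDiff

/-- The trivial estimate. -/
theorem bb_triv (B : ℝ) (hB : 0 ≤ B) (φ w : YX → ℝ) (hw : ∀ s, |w s| ≤ B) (T : ℝ) (hT : 0 < T)
    (x0 y0 : ℝ × ℝ) (α β : ℝ × ℝ → ℂ) (hα : ∀ p, ‖α p‖ ≤ 1) (hβ : ∀ p, ‖β p‖ ≤ 1)
    (sα : ∀ p, α p ≠ 0 → |p.1 - y0.1| ≤ 1 ∧ |p.2 - x0.1| ≤ 1)
    (sβ : ∀ p, β p ≠ 0 → |p.1 - y0.2| ≤ 1 ∧ |p.2 - x0.2| ≤ 1) :
    Thg φ w T (pd α β) ≤ ENNReal.ofReal (200 * B ^ 2 * T) := by
  set Y : Set (ℝ × ℝ) := Icc (y0.1 - 1) (y0.1 + 1) ×ˢ Icc (y0.2 - 1) (y0.2 + 1) with hY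
  set X : Set (ℝ × ℝ) := Icc (x0.1 - 1) (x0.1 + 1) ×ˢ Icc (x0.2 - 1) (x0.2 + 1) with hX
  have vol : ∀ z : ℝ × ℝ, volume (Icc (z.1 - 1) (z.1 + 1) ×ˢ Icc (z.2 - 1) (z.2 + 1)) =
      ENNReal.ofReal 4 := by
    intro z
    rw [Measure.volume_eq_prod, Measure.prod_prod, Real.volume_Icc, Real.volume_Icc,
      ← ENNReal.ofReal_mul (by linarith)]
    congr 1
    ring
  have hH : ∀ y t, ‖Hyg φ w (pd α β) y t‖ₑ ≤ ENNReal.ofReal (4 * B) := by
    intro y t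
    unfold Hyg
    refine (enorm_integral_le_lintegral_enorm _).trans ?_
    have h1 : ∀ x : ℝ × ℝ, ‖pd α β (y, x) * ((w (y, x) : ℝ) : ℂ) * ex (t * φ (y, x))‖ₑ ≤
        X.indicator (fun _ => ENNReal.ofReal B) x := by
      intro x
      by_cases hx : pd α β (y, x) = 0
      · rw [hx]
        simp
      · unfold pd at hx
        simp only at hx
        have h3 := (sα _ (left_ne_zero_of_mul hx)).2
        have h4 := (sβ _ (right_ne_zero_of_mul hx)).2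
        simp only at h3 h4
        rw [abs_le] at h3 h4
        have hxX : x ∈ X := ⟨⟨by linarith, by linarith⟩, by linarith, by linarith⟩
        rw [indicator_of_mem hxX, ← ofReal_norm]
        apply ENNReal.ofReal_le_ofReal
        have h5 : ‖pd α β (y, x)‖ ≤ 1 := by
          unfold pd
          rw [norm_mul]
          exact mul_le_one₀ (hα _) (norm_nonneg _) (hβ _)
        have h6 : ‖ex (t * φ (y, x))‖ = 1 := hns_norm_ex _
        rw [norm_mul, norm_mul, h6, mul_one, Complex.norm_real, Real.norm_eq_abs]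
        calc ‖pd α β (y, x)‖ * |w (y, x)| ≤ 1 * B := by
              gcongr
              exact hw _
          _ = B := one_mul B
    refine (lintegral_mono h1).trans ?_
    rw [lintegral_indicator (measurableSet_Icc.prod measurableSet_Icc), lintegral_const,
      Measure.restrict_apply_univ, vol, ← ENNReal.ofReal_mul hB]
    apply ENNReal.ofReal_le_ofReal
    linarith
  have hz : ∀ y, y ∉ Y → ∀ t, Hyg φ w (pd α β) y t = 0 := by
    intro y hy t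
    unfold Hyg
    have h1 : ∀ x : ℝ × ℝ, pd α β (y, x) * ((w (y, x) : ℝ) : ℂ) * ex (t * φ (y, x)) = 0 := by
      intro x
      have h2 : pd α β (y, x) = 0 := by
        by_contra hx
        unfold pd at hx
        simp only at hx
        have h3 := (sα _ (left_ne_zero_of_mul hx)).1
        have h4 := (sβ _ (right_ne_zero_of_mul hx)).1
        simp only at h3 h4
        rw [abs_le] at h3 h4
        exact hy ⟨⟨by linarith, by linarith⟩, by linarith, by linarith⟩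
      rw [h2]
      simp
    simp only [h1, integral_zero]
  have hchi : ∀ t : ℝ, ENNReal.ofReal (chi (t / T)) ≤
      (Icc 0 (3 * T)).indicator (fun _ => 1) t := by
    intro t
    by_cases h : chi (t / T) = 0
    · rw [h]
      simp
    · have h1 := chi_zero _ h
      rw [le_div_iff₀ hT, div_le_iff₀ hT] at h1
      have h2 : t ∈ Icc 0 (3 * T) := ⟨by nlinarith, h1.2⟩
      rw [indicator_of_mem h2]
      rw [← ENNReal.ofReal_one]
      apply ENNReal.ofReal_le_ofReal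
      unfold chi
      exact mul_le_one₀ (Real.smoothTransition.le_one _) (Real.smoothTransition.nonneg _)
        (Real.smoothTransition.le_one _)
  unfold Thg
  have h1 : ∀ y : ℝ × ℝ, ∫⁻ t : ℝ, ENNReal.ofReal (chi (t / T)) *
      ‖Hyg φ w (pd α β) y t‖ₑ ^ 2 ≤
      Y.indicator (fun _ => ENNReal.ofReal (3 * T * (4 * B) ^ 2)) y := by
    intro y
    by_cases hy : y ∈ Y
    · rw [indicator_of_mem hy]
      calc ∫⁻ t : ℝ, ENNReal.ofReal (chi (t / T)) * ‖Hyg φ w (pd α β) y t‖ₑ ^ 2 ≤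
          ∫⁻ t : ℝ, (Icc 0 (3 * T)).indicator (fun _ => (ENNReal.ofReal (4 * B)) ^ 2) t := by
            refine lintegral_mono fun t => ?_
            have h3 := hchi t
            by_cases ht : t ∈ Icc 0 (3 * T)
            · rw [indicator_of_mem ht] at h3 ⊢
              calc _ ≤ 1 * (ENNReal.ofReal (4 * B)) ^ 2 := by
                    gcongr
                    exact hH y t
                _ = _ := one_mul _
            · rw [indicator_of_notMem ht] at h3 ⊢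
              have h4 : ENNReal.ofReal (chi (t / T)) = 0 := le_antisymm h3 zero_le
              rw [h4, zero_mul]
        _ = _ := by
            rw [lintegral_indicator measurableSet_Icc, lintegral_const,
              Measure.restrict_apply_univ, Real.volume_Icc, ← ENNReal.ofReal_pow (by positivity),
              ← ENNReal.ofReal_mul (by positivity)]
            congr 1
            ring
    · rw [indicator_of_notMem hy]
      simp [hz y hy]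
  refine (lintegral_mono h1).trans ?_
  rw [lintegral_indicator (measurableSet_Icc.prod measurableSet_Icc), lintegral_const,
    Measure.restrict_apply_univ, vol, ← ENNReal.ofReal_mul (by positivity)]
  apply ENNReal.ofReal_le_ofReal
  nlinarith [mul_nonneg (mul_nonneg hB hB) hT.le]

theorem w1_smooth : ContDiff ℝ ∞ w1 := by
  unfold w1
  exact (sma_smooth 1 one_pos).sub (sma_smooth 2 two_pos)

theorem w1_zero (v : ℝ) (hv : v ≤ 1 / 4) : w1 v = 0 := by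
  unfold w1
  rw [f1_sma_zero 1 one_pos v (by linarith), f1_sma_zero 2 two_pos v (by linarith), sub_zero]

theorem w1_le_x (v : ℝ) : |w1 v| ≤ 3 := by
  have h1 := f1_sma_le 1 one_pos v
  have h2 := f1_sma_le 2 two_pos v
  unfold w1
  rw [abs_le] at *
  constructor <;> linarith [h1.1, h1.2, h2.1, h2.2]

theorem wE_le_x (b P g1 g2 η : ℝ) (X : ℝ × ℝ) : |wE b P g1 g2 η X| ≤ 3 := by
  unfold wE
  split_ifs
  · exact w1_le_x _
  · rw [abs_zero]
    norm_num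

/-- The amplitude of the family. -/
noncomputable def WQ (z : Qf.PP × YX) : ℝ :=
  w1 (Qf.Qqq z.1 z.2.2) * w1 (Qf.Qqq z.1 (Qf.xm z.1 z.2))

theorem WQ_smooth : ContDiff ℝ ∞ WQ := by
  unfold WQ
  exact (w1_smooth.comp Qf.cd_Q0).mul (w1_smooth.comp Qf.cd_Q0')

theorem KE_eq (b P g1 g2 τ s ρ : ℝ) (X : ℝ × ℝ) :
    KE b P g1 g2 τ X = Qf.Qqq ((1, b), (τ, P), (g1, g2), (s, ρ)) X := by
  unfold KE Qf.Qqq
  simp only [one_mul]

theorem KE_lin (b P g1 g2 τ δ : ℝ) (X : ℝ × ℝ) (hb : 0 ≤ b) (hb1 : b ≤ 1) (h1 : -4 ≤ g1)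
    (h2 : g1 ≤ 0) (h3 : 0 ≤ g2) (h4 : g2 ≤ 2) (hτ : 0 ≤ τ) (hτ1 : τ ≤ 1) (hδ1 : δ ≤ 1)
    (hX1 : |X.1| ≤ δ) (hX2 : |X.2| ≤ δ) : |KE b P g1 g2 τ X - P| ≤ 14 * δ := by
  have hδ : 0 ≤ δ := le_trans (abs_nonneg _) hX1
  have e : KE b P g1 g2 τ X - P = 2 * g1 * X.1 + 2 * g2 * X.2 - τ * (X.1 ^ 2 + b * X.2 ^ 2) := by
    unfold KE
    ring
  rw [e]
  have a1 : |2 * g1 * X.1| ≤ 8 * δ := by
    rw [abs_mul, abs_mul, abs_of_nonpos h2, abs_two]
    nlinarith [abs_nonneg X.1]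
  have a2 : |2 * g2 * X.2| ≤ 4 * δ := by
    rw [abs_mul, abs_mul, abs_of_nonneg h3, abs_two]
    nlinarith [abs_nonneg X.2]
  have q1 : X.1 ^ 2 ≤ δ := by
    rw [← sq_abs]
    nlinarith [abs_nonneg X.1]
  have q2 : X.2 ^ 2 ≤ δ := by
    rw [← sq_abs]
    nlinarith [abs_nonneg X.2]
  have q3 : b * X.2 ^ 2 ≤ δ := by nlinarith [sq_nonneg X.2]
  have q4 : 0 ≤ b * X.2 ^ 2 := mul_nonneg hb (sq_nonneg _)
  have a3 : |τ * (X.1 ^ 2 + b * X.2 ^ 2)| ≤ 2 * δ := by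
    rw [abs_of_nonneg (by positivity)]
    nlinarith [sq_nonneg X.1]
  have a4 := abs_sub (2 * g1 * X.1 + 2 * g2 * X.2) (τ * (X.1 ^ 2 + b * X.2 ^ 2))
  have a5 := abs_add_le (2 * g1 * X.1) (2 * g2 * X.2)
  linarith

theorem Thg_w0 (φ w : YX → ℝ) (T : ℝ) (M : YX → ℂ) (h : ∀ p, M p ≠ 0 → w p = 0) :
    Thg φ w T M = 0 := by
  rw [Thg_congr φ w φ (fun _ => 0) T M (fun p hp => ⟨rfl, h p hp⟩)]
  unfold Thg Hyg
  simp

/-- **Core boxes.** -/
theorem boxB (C3 : ℝ) (hC3 : 0 < C3) : ∃ δ η0 C : ℝ, 0 < δ ∧ δ ≤ 1 / 4 ∧ 0 < η0 ∧ 0 ≤ C ∧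
    ∀ b P g1 g2 η ρ T : ℝ, Par b g1 g2 → 1 / 8 ≤ P → P ≤ 8 → 0 < η → η ≤ η0 → 0 < ρ → ρ ≤ δ →
    1 ≤ T → ∀ yc : ℝ × ℝ, ρ / 2 ≤ |yc.1| → |yc.1| ≤ ρ → |lnE g1 g2 yc| ≤ C3 * η ^ 2 * ρ →
    ∀ α β : ℝ × ℝ → ℂ, Measurable α → Measurable β → (∀ p, ‖α p‖ ≤ 1) → (∀ p, ‖β p‖ ≤ 1) →
    SX δ α → SX δ β → SY yc.1 (δ * η ^ 2 * ρ) α → SY yc.2 (δ * η ^ 2 * ρ) β →
    TE b P g1 g2 η T (pd α β) ≤ ENNReal.ofReal (C * (1 + Real.log T) ^ 4 / T) := by
  obtain ⟨δ0, hδ0, C, hC, hU⟩ := Qf.fam_unif WQ WQ_smooth (4 * C3)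
  refine ⟨min (δ0 / 2) (1 / 400), min (1 / 2) δ0, max C 16200, by positivity,
    (min_le_right _ _).trans (by norm_num), by positivity, le_max_of_le_left hC, ?_⟩
  intro b P g1 g2 η ρ T hPar hP0 hP1 hη hη0 hρ hρδ hT yc hy1 hy2 hln α β hα hβ hα1 hβ1 sXα sXβ
    sYα sYβ
  set δ : ℝ := min (δ0 / 2) (1 / 400) with hδdef
  have hδ : 0 < δ := by positivity
  have hδa : δ ≤ δ0 / 2 := min_le_left _ _
  have hδb : δ ≤ 1 / 400 := min_le_right _ _
  obtain ⟨hb0, hb1, hg10, hg11, hg20, hg21⟩ := hPar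
  have hg2 : 0 < g2 := by linarith
  have hT0 : 0 < T := by linarith
  have hη2 : η ≤ 1 / 2 := hη0.trans (min_le_left _ _)
  have hη3 : η ≤ δ0 := hη0.trans (min_le_right _ _)
  obtain ⟨τ, hτdef⟩ : ∃ τ : ℝ, τ = η ^ 2 := ⟨_, rfl⟩
  have hτ : 0 < τ := by rw [hτdef]; positivity
  have hτ1 : τ ≤ 1 := by rw [hτdef]; nlinarith
  have hτ2 : τ < δ0 := by rw [hτdef]; nlinarith
  have hρ1 : ρ ≤ 1 := by linarith
  have hκ : 0 < τ * ρ := mul_pos hτ hρ
  have hκ1 : τ * ρ ≤ 1 := mul_le_one₀ hτ1 hρ.le hρ1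
  rw [← hτdef] at hln sYα sYβ
  obtain ⟨s, hs⟩ : ∃ s : ℝ, s = -(yc.1 / (ρ * g2)) := ⟨_, rfl⟩
  obtain ⟨Y2, hY2⟩ : ∃ Y2 : ℝ, Y2 = lnE g1 g2 yc / (τ * ρ * g2) := ⟨_, rfl⟩
  -- the parameters
  have hs1 : 1 / 4 ≤ |s| := by
    rw [hs, abs_neg, abs_div, abs_of_pos (mul_pos hρ hg2), le_div_iff₀ (by positivity)]
    nlinarith
  have hs2 : |s| ≤ 4 := by
    rw [hs, abs_neg, abs_div, abs_of_pos (mul_pos hρ hg2), div_le_iff₀ (by positivity)]
    nlinarith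
  have hY2b : |Y2| ≤ 4 * C3 := by
    rw [hY2, abs_div, abs_of_pos (show 0 < τ * ρ * g2 by positivity),
      div_le_iff₀ (by positivity)]
    have : C3 * τ * ρ ≤ 4 * C3 * (τ * ρ * g2) := by
      have h1 : 0 < C3 * τ * ρ := by positivity
      nlinarith
    linarith
  have ec1 : ρ * Qf.e1 ((1, b), (τ, P), (g1, g2), (s, ρ)) 0 = yc.1 := by
    unfold Qf.e1
    rw [hs]
    field_simp
    ring
  have ec1' : ∀ Y : ℝ, ρ * Qf.e1 ((1, b), (τ, P), (g1, g2), (s, ρ)) Y = τ * ρ * Y + yc.1 := by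
    intro Y
    rw [← ec1]
    unfold Qf.e1
    ring
  have ec2 : ∀ Y : ℝ, ρ * Qf.e2 ((1, b), (τ, P), (g1, g2), (s, ρ)) Y =
      τ * ρ * Y + (yc.2 - τ * ρ * Y2) := by
    intro Y
    unfold Qf.e2
    rw [hs, hY2]
    unfold lnE
    field_simp
    ring
  -- change of variables
  have hcv := N1G.Thg_aff (dif (qE b P g1 g2 η)) (dam (wE b P g1 g2 η)) T (τ * ρ) hκ
    (τ * ρ, τ * ρ) (yc.1, yc.2 - τ * ρ * Y2) (1, 1) (0, 0) hκ hκ one_pos one_pos (pd α β)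
  have hpre : ENNReal.ofReal (τ * ρ * (τ * ρ) * (1 * 1) ^ 2 / (τ * ρ)) =
      ENNReal.ofReal (τ * ρ) := by
    congr 1
    field_simp
  simp only at hcv
  rw [hpre] at hcv
  unfold TE
  rw [hcv]
  clear hcv hpre
  obtain ⟨α', hα'⟩ : ∃ α' : ℝ × ℝ → ℂ, α' = fun p => α (τ * ρ * p.1 + yc.1, 1 * p.2 + 0) := ⟨_, rfl⟩
  obtain ⟨β', hβ'⟩ : ∃ β' : ℝ × ℝ → ℂ, β' = fun p =>
    β (τ * ρ * p.1 + (yc.2 - τ * ρ * Y2), 1 * p.2 + 0) := ⟨_, rfl⟩
  have hM : (fun s => pd α β (af4 (τ * ρ, τ * ρ) (yc.1, yc.2 - τ * ρ * Y2) (1, 1) (0, 0) s)) =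
      pd α' β' := by
    rw [hα', hβ']
    rfl
  rw [hM]
  have hα'm : Measurable α' := by
    rw [hα']
    exact hα.comp (by fun_prop)
  have hβ'm : Measurable β' := by
    rw [hβ']
    exact hβ.comp (by fun_prop)
  have hα'1 : ∀ p, ‖α' p‖ ≤ 1 := by
    rw [hα']
    exact fun p => hα1 _
  have hβ'1 : ∀ p, ‖β' p‖ ≤ 1 := by
    rw [hβ']
    exact fun p => hβ1 _
  have sα' : ∀ p, α' p ≠ 0 → |p.1 - 0| ≤ δ ∧ |p.2| ≤ δ ∧
      |p.2 - ρ * Qf.e1 ((1, b), (τ, P), (g1, g2), (s, ρ)) p.1| ≤ δ := by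
    intro p hp
    rw [hα'] at hp
    have h1 := sXα _ hp
    have h2 := sYα _ hp
    simp only [one_mul, add_zero] at h1 h2
    refine ⟨?_, h1.1, ?_⟩
    · have e : τ * ρ * p.1 + yc.1 - yc.1 = τ * ρ * p.1 := by ring
      rw [e, abs_mul, abs_of_pos hκ] at h2
      rw [sub_zero]
      have : τ * ρ * |p.1| ≤ τ * ρ * δ := by linarith
      exact le_of_mul_le_mul_left this hκ
    · rw [ec1']
      exact h1.2
  have sβ' : ∀ p, β' p ≠ 0 → |p.1 - Y2| ≤ δ ∧ |p.2| ≤ δ ∧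
      |p.2 - ρ * Qf.e2 ((1, b), (τ, P), (g1, g2), (s, ρ)) p.1| ≤ δ := by
    intro p hp
    rw [hβ'] at hp
    have h1 := sXβ _ hp
    have h2 := sYβ _ hp
    simp only [one_mul, add_zero] at h1 h2
    refine ⟨?_, h1.1, ?_⟩
    · have e : τ * ρ * p.1 + (yc.2 - τ * ρ * Y2) - yc.2 = τ * ρ * (p.1 - Y2) := by ring
      rw [e, abs_mul, abs_of_pos hκ] at h2
      have : τ * ρ * |p.1 - Y2| ≤ τ * ρ * δ := by linarith
      exact le_of_mul_le_mul_left this hκ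
    · rw [ec2]
      exact h1.2
  have hsup : ∀ p, pd α' β' p ≠ 0 → (|p.1.1 - 0| ≤ δ ∧ |p.2.1| ≤ δ ∧
      |p.2.1 - ρ * Qf.e1 ((1, b), (τ, P), (g1, g2), (s, ρ)) p.1.1| ≤ δ) ∧
      (|p.1.2 - Y2| ≤ δ ∧ |p.2.2| ≤ δ ∧
      |p.2.2 - ρ * Qf.e2 ((1, b), (τ, P), (g1, g2), (s, ρ)) p.1.2| ≤ δ) := by
    intro p hp
    exact ⟨sα' _ (left_ne_zero_of_mul hp), sβ' _ (right_ne_zero_of_mul hp)⟩
  -- the points
  have hpt : ∀ p : YX, (af4 (τ * ρ, τ * ρ) (yc.1, yc.2 - τ * ρ * Y2) (1, 1) (0, 0) p).2 = p.2 := by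
    intro p
    simp [af4, af2]
  have hpt' : ∀ p : YX, (af4 (τ * ρ, τ * ρ) (yc.1, yc.2 - τ * ρ * Y2) (1, 1) (0, 0) p).2 -
      (af4 (τ * ρ, τ * ρ) (yc.1, yc.2 - τ * ρ * Y2) (1, 1) (0, 0) p).1 =
      Qf.xm ((1, b), (τ, P), (g1, g2), (s, ρ)) p := by
    intro p
    rw [hpt]
    unfold Qf.xm Qf.m1 Qf.m2
    ext
    · simp only [af4, af2, Prod.fst_sub]
      rw [ec1']
    · simp only [af4, af2, Prod.snd_sub]
      rw [ec2]
  have hK : ∀ X : ℝ × ℝ, |X.1| ≤ δ → |X.2| ≤ δ → |KE b P g1 g2 τ X - P| ≤ 14 * δ :=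
    fun X h1 h2 => KE_lin b P g1 g2 τ δ X hb0 hb1 hg10 (by linarith) (by linarith) hg21 hτ.le
      hτ1 (by linarith) h1 h2
  have hlog : 0 ≤ Real.log T := Real.log_nonneg hT
  by_cases hP5 : P < 1 / 5
  · -- the amplitude vanishes
    rw [Thg_w0, mul_zero]
    · exact zero_le
    · intro p hp
      obtain ⟨⟨-, a1, -⟩, -, a2, -⟩ := hsup p hp
      have h1 := hK p.2 a1 a2
      rw [abs_le] at h1
      show dam (wE b P g1 g2 η) _ = 0
      unfold dam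
      rw [hpt]
      have h2 : wE b P g1 g2 η p.2 = 0 := by
        unfold wE
        rw [← hτdef]
        split_ifs
        · exact w1_zero _ (by linarith [h1.2])
        · rfl
      rw [h2, zero_mul]
  · rw [not_lt] at hP5
    -- the family
    have hcg : Thg (fun p => dif (qE b P g1 g2 η)
          (af4 (τ * ρ, τ * ρ) (yc.1, yc.2 - τ * ρ * Y2) (1, 1) (0, 0) p) / (τ * ρ))
        (fun p => dam (wE b P g1 g2 η)
          (af4 (τ * ρ, τ * ρ) (yc.1, yc.2 - τ * ρ * Y2) (1, 1) (0, 0) p)) (τ * ρ * T)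
        (pd α' β') =
        Thg (fun p => Qf.psi (((1, b), (τ, P), (g1, g2), (s, ρ)), p))
          (fun p => WQ (((1, b), (τ, P), (g1, g2), (s, ρ)), p)) (τ * ρ * T) (pd α' β') := by
      refine Thg_congr _ _ _ _ _ _ (fun p hp => ?_)
      obtain ⟨⟨-, a1, a1'⟩, -, a2, a2'⟩ := hsup p hp
      have b1 : |(Qf.xm ((1, b), (τ, P), (g1, g2), (s, ρ)) p).1| ≤ δ := a1'
      have b2 : |(Qf.xm ((1, b), (τ, P), (g1, g2), (s, ρ)) p).2| ≤ δ := a2'
      have h1 := hK p.2 a1 a2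
      have h2 := hK _ b1 b2
      rw [abs_le] at h1 h2
      have k1 : 1 / 8 ≤ KE b P g1 g2 τ p.2 := by linarith [h1.1]
      have k2 : 1 / 8 ≤ KE b P g1 g2 τ (Qf.xm ((1, b), (τ, P), (g1, g2), (s, ρ)) p) := by
        linarith [h2.1]
      constructor
      · unfold dif
        rw [hpt', hpt]
        unfold qE
        rw [← hτdef, Sq_eq 1 one_pos _ (by linarith), Sq_eq 1 one_pos _ (by linarith),
          div_eq_iff hκ.ne']
        rw [KE_eq b P g1 g2 τ s ρ] at k1 k2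
        have h3 := Qf.psi_dif ((1, b), (τ, P), (g1, g2), (s, ρ)) p (by linarith) (by linarith)
        rw [KE_eq b P g1 g2 τ s ρ, KE_eq b P g1 g2 τ s ρ, ← h3]
        simp only
        ring
      · unfold dam
        rw [hpt', hpt]
        unfold wE WQ
        rw [← hτdef, if_pos ⟨by linarith, by linarith⟩, if_pos ⟨by linarith, by linarith⟩,
          KE_eq b P g1 g2 τ s ρ, KE_eq b P g1 g2 τ s ρ]
    by_cases hbig : 1 ≤ τ * ρ * T
    · rw [hcg]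
      have h1 := hU b P g1 g2 s τ ρ (0, Y2) hb0 hb1 hP0 hP1 hg10 hg11 hg20 hg21 hs1 hs2
        (by rw [abs_zero]; positivity) hY2b (by rw [abs_of_pos hτ]; exact hτ2)
        (by rw [abs_of_pos hρ]; linarith) (τ * ρ * T) hbig α' β' hα'm hβ'm hα'1 hβ'1
        (fun p hp => ⟨(sα' p hp).1.trans (by linarith), (sα' p hp).2.1.trans (by linarith)⟩)
        (fun p hp => ⟨(sβ' p hp).1.trans (by linarith), (sβ' p hp).2.1.trans (by linarith)⟩)
      calc ENNReal.ofReal (τ * ρ) * _ ≤ ENNReal.ofReal (τ * ρ) * ENNReal.ofReal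
            (C * (1 + Real.log (τ * ρ * T)) ^ 4 / (τ * ρ * T)) := by gcongr
        _ ≤ _ := by
          rw [← ENNReal.ofReal_mul hκ.le]
          apply ENNReal.ofReal_le_ofReal
          have e : τ * ρ * (C * (1 + Real.log (τ * ρ * T)) ^ 4 / (τ * ρ * T)) =
              C * (1 + Real.log (τ * ρ * T)) ^ 4 / T := by
            field_simp
          rw [e]
          have h2 : 0 ≤ Real.log (τ * ρ * T) := Real.log_nonneg hbig
          have h3 : Real.log (τ * ρ * T) ≤ Real.log T :=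
            Real.log_le_log (by positivity) (by nlinarith)
          have h4 : C ≤ max C 16200 := le_max_left _ _
          gcongr
    · rw [not_le] at hbig
      have h1 := bb_triv 9 (by norm_num) (fun p => dif (qE b P g1 g2 η)
          (af4 (τ * ρ, τ * ρ) (yc.1, yc.2 - τ * ρ * Y2) (1, 1) (0, 0) p) / (τ * ρ))
        (fun p => dam (wE b P g1 g2 η)
          (af4 (τ * ρ, τ * ρ) (yc.1, yc.2 - τ * ρ * Y2) (1, 1) (0, 0) p)) (by
            intro p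
            show |dam (wE b P g1 g2 η) _| ≤ 9
            unfold dam
            rw [abs_mul]
            have h1 := wE_le_x b P g1 g2 η
            have h2 := mul_le_mul (h1 (af4 (τ * ρ, τ * ρ) (yc.1, yc.2 - τ * ρ * Y2) (1, 1)
              (0, 0) p).2) (h1 ((af4 (τ * ρ, τ * ρ) (yc.1, yc.2 - τ * ρ * Y2) (1, 1)
              (0, 0) p).2 - (af4 (τ * ρ, τ * ρ) (yc.1, yc.2 - τ * ρ * Y2) (1, 1)
              (0, 0) p).1)) (abs_nonneg _) (by norm_num)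
            linarith) (τ * ρ * T) (by positivity) (0, 0) (0, Y2) α' β' hα'1 hβ'1
        (fun p hp => ⟨(sα' p hp).1.trans (by linarith), by
          simpa using (sα' p hp).2.1.trans (by linarith : δ ≤ 1)⟩)
        (fun p hp => ⟨(sβ' p hp).1.trans (by linarith), by
          simpa using (sβ' p hp).2.1.trans (by linarith : δ ≤ 1)⟩)
      calc ENNReal.ofReal (τ * ρ) * _ ≤ ENNReal.ofReal (τ * ρ) * ENNReal.ofReal
            (200 * 9 ^ 2 * (τ * ρ * T)) := by gcongr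
        _ ≤ _ := by
          rw [← ENNReal.ofReal_mul hκ.le]
          apply ENNReal.ofReal_le_ofReal
          rw [le_div_iff₀ hT0]
          have h2 : (τ * ρ * T) ^ 2 ≤ 1 := by
            have : 0 ≤ τ * ρ * T := by positivity
            nlinarith
          have h3 : (1 : ℝ) ≤ (1 + Real.log T) ^ 4 := one_le_pow₀ (by linarith)
          have h4 : (16200 : ℝ) ≤ max C 16200 := le_max_right _ _
          have h5 : (16200 : ℝ) * 1 ≤ max C 16200 * (1 + Real.log T) ^ 4 := by gcongr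
          calc τ * ρ * (200 * 9 ^ 2 * (τ * ρ * T)) * T = 16200 * (τ * ρ * T) ^ 2 := by ring
            _ ≤ 16200 * 1 := by gcongr
            _ ≤ _ := h5

end Pool.Agent.SDT.N1Q

end -- N1Q.BoxB
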