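import Pool.Agent.SDT.B72
import Pool.Agent.SDT.B74

set_option autoImplicit false

namespace Pool.Agent.SDT.MP_6cbfb8_an
end Pool.Agent.SDT.MP_6cbfb8_an
namespace Pool.Agent.SDT.MST
end Pool.Agent.SDT.MST
namespace Pool.Agent.SDT.N1
end Pool.Agent.SDT.N1
namespace Pool.Agent.SDT.N1F
end Pool.Agent.SDT.N1F
namespace Pool.Agent.SDT.N1G
end Pool.Agent.SDT.N1G

section -- N1M.S3c

/-!
N1M, S3, part 3: the elementary estimate for directions near the axes, and the dyadic `L⁴`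
estimate from the local theorem.
-/

namespace Pool.Agent.SDT.N1M

open MeasureTheory Set Metric Pool.Agent.SDT.MP_6cbfb8_an Pool.Agent.SDT.MST Pool.Agent.SDT.N1
open Pool.Agent.SDT.N1F Pool.Agent.SDT.N1G
open scoped ENNReal Real ContDiff

/-- Lower bounds of the bilinear form near the axes. -/
theorem bil_ge {mu La e A E B : ℝ} (hmu : 0 < mu) (hmA : mu ≤ A) (hAL : A ≤ La)
    (hmE : mu ≤ E) (hEL : E ≤ La) (hmB : mu ≤ B) (hBL : B ≤ La) (he0 : 0 ≤ e) (he1 : e ≤ 1)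
    (he : 6 * (e * La) ≤ mu) (q : V × V) :
    (|q.2.1| ≤ e * |q.1.1| → |q.2.2.2| ≤ e * |q.1.2.2| →
      mu / 2 * |q.1.1| * |q.1.2.2| ≤ |bil A E B q|) ∧
    (|q.2.1| ≤ e * |q.1.1| → |q.1.2.2| ≤ e * |q.2.2.2| →
      mu / 2 * |q.1.1| * |q.2.2.2| ≤ |bil A E B q|) ∧
    (|q.1.1| ≤ e * |q.2.1| → |q.2.2.2| ≤ e * |q.1.2.2| →
      mu / 2 * |q.2.1| * |q.1.2.2| ≤ |bil A E B q|) ∧
    (|q.1.1| ≤ e * |q.2.1| → |q.1.2.2| ≤ e * |q.2.2.2| →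
      mu / 2 * |q.2.1| * |q.2.2.2| ≤ |bil A E B q|) := by
  have hA0 : 0 < A := by linarith
  have hE0 : 0 < E := by linarith
  have hB0 : 0 < B := by linarith
  have hL0 : 0 < La := by linarith
  -- main term `M u`, three error terms
  have key : ∀ M u t1 t2 t3 b : ℝ, mu ≤ M → 0 ≤ u → |t1| ≤ La * (e * u) → |t2| ≤ La * (e * u) →
      |t3| ≤ La * (e * u) → M * u - |t1| - |t2| - |t3| ≤ |b| → mu / 2 * u ≤ |b| := by
    intro M u t1 t2 t3 b hM hu h1 h2 h3 h4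
    have h5 : mu * u ≤ M * u := mul_le_mul_of_nonneg_right hM hu
    have h6 : 6 * (e * La) * u ≤ mu * u := mul_le_mul_of_nonneg_right he hu
    have h7 : La * (e * u) = e * La * u := by ring
    rw [h7] at h1 h2 h3
    linarith
  have err : ∀ X x y z w : ℝ, 0 < X → X ≤ La → |x| ≤ |z| → |y| ≤ e * |w| →
      |X * (x * y)| ≤ La * (e * (|z| * |w|)) := by
    intro X x y z w hX hXL hx hy
    rw [abs_mul, abs_of_pos hX, abs_mul]
    calc X * (|x| * |y|) ≤ La * (|z| * (e * |w|)) := by gcongr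
      _ = _ := by ring
  have err' : ∀ X x y z w : ℝ, 0 < X → X ≤ La → |x| ≤ e * |z| → |y| ≤ |w| →
      |X * (x * y)| ≤ La * (e * (|z| * |w|)) := by
    intro X x y z w hX hXL hx hy
    rw [abs_mul, abs_of_pos hX, abs_mul]
    calc X * (|x| * |y|) ≤ La * ((e * |z|) * |w|) := by gcongr
      _ = _ := by ring
  have wk : ∀ x y : ℝ, |x| ≤ e * |y| → |x| ≤ |y| := by
    intro x y h
    have := abs_nonneg y
    nlinarith
  have tri : ∀ a b c d : ℝ, |a| - |b| - |c| - |d| ≤ |a + b + c + d| := by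
    intro a b c d
    have h1 := abs_sub_abs_le_abs_sub a (-(b + c + d))
    rw [abs_neg, sub_neg_eq_add] at h1
    have h2 := abs_add_le (b + c) d
    have h3 := abs_add_le b c
    have h4 : a + (b + c + d) = a + b + c + d := by ring
    rw [h4] at h1
    linarith
  have mainT : ∀ X x y : ℝ, 0 < X → |X * (x * y)| = X * (|x| * |y|) := by
    intro X x y hX
    rw [abs_mul, abs_of_pos hX, abs_mul]
  refine ⟨fun h1 h2 => ?_, fun h1 h2 => ?_, fun h1 h2 => ?_, fun h1 h2 => ?_⟩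
  · rw [mul_assoc]
    refine key A _ (E * (q.1.1 * q.2.2.2)) (E * (q.2.1 * q.1.2.2)) (B * (q.2.1 * q.2.2.2)) _ hmA
      (by positivity) (err E _ _ _ _ hE0 hEL le_rfl h2) (err' E _ _ _ _ hE0 hEL h1 le_rfl)
      (err' B _ _ _ _ hB0 hBL h1 (wk _ _ h2)) ?_
    have h3 := tri (-(A * (q.1.1 * q.1.2.2))) (E * (q.1.1 * q.2.2.2)) (E * (q.2.1 * q.1.2.2))
      (-(B * (q.2.1 * q.2.2.2)))
    rw [abs_neg, abs_neg, mainT A _ _ hA0] at h3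
    refine h3.trans (le_of_eq ?_)
    unfold bil
    congr 1
    ring
  · rw [mul_assoc]
    refine key E _ (A * (q.1.1 * q.1.2.2)) (E * (q.2.1 * q.1.2.2)) (B * (q.2.1 * q.2.2.2)) _ hmE
      (by positivity) (err A _ _ _ _ hA0 hAL le_rfl h2) (err' E _ _ _ _ hE0 hEL h1 (wk _ _ h2))
      (err' B _ _ _ _ hB0 hBL h1 le_rfl) ?_
    have h3 := tri (E * (q.1.1 * q.2.2.2)) (-(A * (q.1.1 * q.1.2.2))) (E * (q.2.1 * q.1.2.2))
      (-(B * (q.2.1 * q.2.2.2)))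
    rw [abs_neg, abs_neg, mainT E _ _ hE0] at h3
    refine h3.trans (le_of_eq ?_)
    unfold bil
    congr 1
    ring
  · rw [mul_assoc]
    refine key E _ (A * (q.1.1 * q.1.2.2)) (E * (q.1.1 * q.2.2.2)) (B * (q.2.1 * q.2.2.2)) _ hmE
      (by positivity) (err' A _ _ _ _ hA0 hAL h1 le_rfl) (err' E _ _ _ _ hE0 hEL h1 (wk _ _ h2))
      (err B _ _ _ _ hB0 hBL le_rfl h2) ?_
    have h3 := tri (E * (q.2.1 * q.1.2.2)) (-(A * (q.1.1 * q.1.2.2))) (E * (q.1.1 * q.2.2.2))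
      (-(B * (q.2.1 * q.2.2.2)))
    rw [abs_neg, abs_neg, mainT E _ _ hE0] at h3
    refine h3.trans (le_of_eq ?_)
    unfold bil
    congr 1
    ring
  · rw [mul_assoc]
    refine key B _ (A * (q.1.1 * q.1.2.2)) (E * (q.1.1 * q.2.2.2)) (E * (q.2.1 * q.1.2.2)) _ hmB
      (by positivity) (err' A _ _ _ _ hA0 hAL h1 (wk _ _ h2)) (err' E _ _ _ _ hE0 hEL h1 le_rfl)
      (err E _ _ _ _ hE0 hEL le_rfl h2) ?_
    have h3 := tri (-(B * (q.2.1 * q.2.2.2))) (-(A * (q.1.1 * q.1.2.2))) (E * (q.1.1 * q.2.2.2))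
      (E * (q.2.1 * q.1.2.2))
    rw [abs_neg, abs_neg, mainT B _ _ hB0] at h3
    refine h3.trans (le_of_eq ?_)
    unfold bil
    congr 1
    ring

theorem bil_div (A E B W : ℝ) (q : V × V) :
    bil A E B q / W = bil (A / W) (E / W) (B / W) q := by
  unfold bil
  ring

/-- Bounds of the coefficients. -/
theorem s3_coef {c c' m a r : ℝ} (hc : 0 < c) (hc' : 0 < c') (hm0 : 0 ≤ m)
    (h : DM c c' m a r) : 0 < √(hm m r - a ^ 2) ^ 3 ∧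
    (min (1 / 108) (c' / 54) ≤ hm m r / √(hm m r - a ^ 2) ^ 3 ∧
      hm m r / √(hm m r - a ^ 2) ^ 3 ≤ 64 / c ^ 3) ∧
    (min (1 / 108) (c' / 54) ≤ a * bm m r / √(hm m r - a ^ 2) ^ 3 ∧
      a * bm m r / √(hm m r - a ^ 2) ^ 3 ≤ 64 / c ^ 3) ∧
    (min (1 / 108) (c' / 54) ≤ (1 - m * a ^ 2) / √(hm m r - a ^ 2) ^ 3 ∧
      (1 - m * a ^ 2) / √(hm m r - a ^ 2) ^ 3 ≤ 64 / c ^ 3) := by
  obtain ⟨h1, h2, h3, h4, h5, h6⟩ := h
  have hc2 : 0 < c ^ 2 := by positivity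
  have ha : 0 < a := by linarith
  set P := hm m r - a ^ 2 with hP
  have hP0 : 0 < P := by linarith
  have hh8 : hm m r ≤ 8 := by
    unfold hm
    nlinarith [mul_nonneg hm0 (sq_nonneg r)]
  have hP8 : P ≤ 3 ^ 2 := by
    have := sq_nonneg a
    rw [hP]
    linarith
  have w1 : c / 2 ≤ √P := by
    rw [Real.le_sqrt (by positivity) hP0.le]
    nlinarith
  have w2 : √P ≤ 3 := by
    rw [Real.sqrt_le_left (by norm_num)]
    exact hP8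
  have w0 : 0 < √P := Real.sqrt_pos.2 hP0
  have w3 : √P ^ 3 ≤ 27 := by
    calc √P ^ 3 ≤ 3 ^ 3 := by gcongr
      _ = 27 := by norm_num
  have w4 : c ^ 3 / 8 ≤ √P ^ 3 := by
    calc c ^ 3 / 8 = (c / 2) ^ 3 := by ring
      _ ≤ √P ^ 3 := by gcongr
  have w5 : 0 < √P ^ 3 := by positivity
  have b1 : bm m r ≤ 1 := by
    unfold bm
    nlinarith
  have a3 : a ≤ 3 := by
    have : a ^ 2 ≤ 3 ^ 2 := by linarith
    exact abs_le_of_sq_le_sq' this (by norm_num) |>.2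
  have bb : m * P + bm m r ^ 2 = 1 - m * a ^ 2 := by
    rw [hP]
    unfold hm bm
    ring
  have b2 : 1 / 4 ≤ bm m r ^ 2 := by nlinarith
  have m1 := min_le_left (1 / 108 : ℝ) (c' / 54)
  have m2 := min_le_right (1 / 108 : ℝ) (c' / 54)
  have m0 : 0 < min (1 / 108 : ℝ) (c' / 54) := lt_min (by norm_num) (by positivity)
  have lo : ∀ X y : ℝ, 0 < y → min (1 / 108 : ℝ) (c' / 54) ≤ y → y * 27 ≤ X →
      min (1 / 108 : ℝ) (c' / 54) ≤ X / √P ^ 3 := by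
    intro X y hy h7 h8
    rw [le_div_iff₀ w5]
    calc min (1 / 108 : ℝ) (c' / 54) * √P ^ 3 ≤ y * 27 := by gcongr
      _ ≤ X := h8
  have up : ∀ X : ℝ, X ≤ 8 → X / √P ^ 3 ≤ 64 / c ^ 3 := by
    intro X h7
    rw [div_le_div_iff₀ w5 (by positivity)]
    have h8 : X * c ^ 3 ≤ 8 * c ^ 3 := by gcongr
    have h9 : 64 * (c ^ 3 / 8) ≤ 64 * √P ^ 3 := by gcongr
    linarith
  refine ⟨w5, ⟨?_, ?_⟩, ⟨?_, ?_⟩, ?_, ?_⟩
  · exact lo _ (1 / 108) (by norm_num) m1 (by linarith)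
  · exact up _ hh8
  · refine lo _ (c' / 54) (by positivity) m2 ?_
    have : c' * (1 / 2) ≤ a * bm m r := by gcongr
    linarith
  · refine up _ ?_
    have : a * bm m r ≤ 3 * 1 := by gcongr
    linarith
  · refine lo _ (1 / 108) (by norm_num) m1 ?_
    have : 0 ≤ m * P := by positivity
    linarith
  · refine up _ ?_
    have : 0 ≤ m * a ^ 2 := by positivity
    linarith

/-- The elementary estimate, uniformly in `m`. -/
theorem s3_DE (c c' : ℝ) (hc : 0 < c) (hc1 : c ≤ 1) (hc' : 0 < c') :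
    ∃ k0 : ℕ, 1 ≤ k0 ∧ ∃ c1 : ℝ, 0 < c1 ∧ ∀ m : ℝ, 0 ≤ m → m ≤ 1 →
      ca_DE (qm c m) (wm c m) (Ici c') {r | Rg m r} k0 c1 := by
  set mu : ℝ := min (1 / 108 : ℝ) (c' / 54) with hmu
  have hmu0 : 0 < mu := lt_min (by norm_num) (by positivity)
  set La : ℝ := 64 / c ^ 3 with hLa
  have hLa0 : 0 < La := by positivity
  obtain ⟨n, hn⟩ := exists_pow_lt_of_lt_one (show 0 < min (mu / (48 * La)) (1 / 8) by positivity)
    (show (1 / 2 : ℝ) < 1 by norm_num)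
  have n1 := hn.le.trans (min_le_left _ _)
  have n2 := hn.le.trans (min_le_right _ _)
  have ee : (4 : ℝ) / 2 ^ (n + 1) = 2 * (1 / 2) ^ n := by
    rw [pow_succ, one_div, inv_pow]
    field_simp
    norm_num
  have he0 : (0 : ℝ) ≤ 4 / 2 ^ (n + 1) := by positivity
  have he1 : (4 : ℝ) / 2 ^ (n + 1) ≤ 1 := by
    rw [ee]
    linarith
  have he : 6 * ((4 : ℝ) / 2 ^ (n + 1) * La) ≤ mu := by
    rw [ee]
    have h1 : (1 / 2 : ℝ) ^ n * (48 * La) ≤ mu := by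
      rwa [le_div_iff₀ (by positivity)] at n1
    nlinarith
  refine ⟨n + 1, by omega, mu / 2, by positivity, ?_⟩
  intro m hm0 hm1 q hq1 hq2 hW
  obtain ⟨w1, w2, w3, w4⟩ := ca_Wg_ne hW
  obtain ⟨a1, a2, a3, a4⟩ := hq1
  obtain ⟨b1, b2, b3, b4⟩ := hq2
  have cor : ∀ a r : ℝ, a ∈ Ici c' → r ∈ {r | Rg m r} → wm c m (a, r) ≠ 0 → DM c c' m a r := by
    intro a r h1 h2 h3
    obtain ⟨k1, k2, k3, k4⟩ := h2
    exact ⟨h1, k1, k2, k3, k4, (s3_wm_ne hc h3).2.2.le⟩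
  have h4 : C4 c c' m q := by
    refine ⟨cor _ _ a1 b1 w1, cor _ _ a2 b2 w2, cor _ _ a3 b3 w3, cor _ _ a4 b4 ?_⟩
    have e1 : q.1.2.1 - q.1.1 - q.1.2.2 = q.1.2.1 - q.1.2.2 - q.1.1 := by ring
    have e2 : q.2.2.1 - q.2.1 - q.2.2.2 = q.2.2.1 - q.2.2.2 - q.2.1 := by ring
    rw [e1, e2]
    exact w4
  obtain ⟨a, r, hD, hF⟩ := s3_mvt hc hm0 h4
  obtain ⟨w5, ⟨u1, u2⟩, ⟨u3, u4⟩, u5, u6⟩ := s3_coef hc hc' hm0 hD
  have hF' : Fg (dif (qm c m)) q = FrM c m q := rfl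
  rw [hF', hF, bil_div]
  exact bil_ge hmu0 u1 u2 u3 u4 u5 u6 he0 he1 he q

/-- S3: the dyadic `L⁴` estimate for `a ≥ c'`, from the local theorem. -/
theorem S3_of (c c' : ℝ) (hc : 0 < c) (hc1 : c ≤ 1) (hc' : 0 < c') (hloc : s3_loc c c') :
    ∃ C : ℝ, 0 ≤ C ∧ ∃ k : ℕ, ∀ T : ℝ, 1 ≤ T →
    ∀ m : ℝ, 0 ≤ m → m ≤ 1 →
    ∀ G₁ G₂ : ℝ → ℂ, Measurable G₁ → Measurable G₂ → (∀ a, ‖G₁ a‖ ≤ 1) → (∀ b, ‖G₂ b‖ ≤ 1) →
    (∀ a, G₁ a ≠ 0 → c' ≤ a) → (∀ b, G₂ b ≠ 0 → Rg m b) →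
    ∫⁻ t in Icc T (2 * T), ∫⁻ ξ : ℝ × ℝ, ‖EM c m G₁ G₂ t ξ‖ₑ ^ 4 ≤
      ENNReal.ofReal (C * (1 + Real.log T) ^ k / T) := by
  obtain ⟨k0, hk0, c1, hc1', hDE⟩ := s3_DE c c' hc hc1 hc'
  obtain ⟨r, hr, C, hC, hTH⟩ := s3_TH c c' hc hloc k0
  obtain ⟨C', hC', h⟩ := ca_L4 (2 / c) 8 (by norm_num) k0 hk0 c1 hc1' r hr C hC
  refine ⟨C', hC', 8, ?_⟩
  intro T hT m hm0 hm1 G₁ G₂ h1 h2 b1 b2 s1 s2
  exact h (qm c m) (wm c m) (s3_PD c m hc hm0) (Ici c') {r | Rg m r} (hDE m hm0 hm1)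
    (hTH m hm0 hm1) T hT G₁ G₂ h1 h2 b1 b2 s1 s2

end Pool.Agent.SDT.N1M

end -- N1M.S3c

section -- N1G.St2

/-!
N1G: strips, part 2: the `L⁴` estimate for thin strips `|a| ≤ δ`.
-/

namespace Pool.Agent.SDT.N1G

open MeasureTheory Set Metric Pool.Agent.SDT.MP_6cbfb8_an Pool.Agent.SDT.MST Pool.Agent.SDT.N1
open scoped ENNReal Real ContDiff

/-- The planar integral. -/
noncomputable def st_Pl (g w : ℝ × ℝ → ℝ) (G : ℝ → ℂ) (a t y : ℝ) : ℂ :=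
  ∫ b : ℝ, G b * st_Al g w a t b * ex (b * y)

theorem st_Pl_meas {B R : ℝ} {g w : ℝ × ℝ → ℝ} (h : PD B R g w) (G : ℝ → ℂ)
    (hG : Measurable G) : Measurable fun q : ℝ × ℝ × ℝ => st_Pl g w G q.1 q.2.1 q.2.2 := by
  have m1 : Measurable fun q : (ℝ × ℝ × ℝ) × ℝ =>
      G q.2 * st_Al g w q.1.1 q.1.2.1 q.2 * ex (q.2 * q.1.2.2) := by
    have n1 : Measurable fun q : (ℝ × ℝ × ℝ) × ℝ => st_Al g w q.1.1 q.1.2.1 q.2 :=
      (st_Al_meas h).comp (f := fun q : (ℝ × ℝ × ℝ) × ℝ => (q.1.1, q.1.2.1, q.2)) (by fun_prop)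
    exact ((hG.comp measurable_snd).mul n1).mul (measurable_ex.comp (by fun_prop))
  exact (m1.stronglyMeasurable.integral_prod_right' (ν := (volume : Measure ℝ))).measurable

theorem st_Pl_norm {B R : ℝ} {g w : ℝ × ℝ → ℝ} (h : PD B R g w) (hB : 0 ≤ B) (hR : 0 ≤ R)
    (G : ℝ → ℂ) (hb : ∀ b, ‖G b‖ ≤ 1) (a t y : ℝ) : ‖st_Pl g w G a t y‖ ≤ 2 * R * B := by
  have hint : Integrable ((Icc (-R) R).indicator (fun _ => B)) :=
    (integrable_indicator_iff measurableSet_Icc).2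
      (integrableOn_const (by rw [Real.volume_Icc]; exact ENNReal.ofReal_ne_top))
  unfold st_Pl
  refine (norm_integral_le_of_norm_le hint (Filter.Eventually.of_forall fun b => ?_)).trans ?_
  · rw [norm_mul, norm_mul, m2_ex_norm, mul_one]
    by_cases hw : w (a, b) = 0
    · have : st_Al g w a t b = 0 := by unfold st_Al; rw [hw]; simp
      rw [this, norm_zero, mul_zero]
      exact indicator_nonneg (fun _ _ => hB) b
    · have hmem : b ∈ Icc (-R) R := abs_le.1 (st_w_ne h hw).2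
      rw [indicator_of_mem hmem]
      calc ‖G b‖ * ‖st_Al g w a t b‖ ≤ 1 * B :=
            mul_le_mul (hb b) (st_Al_norm h a t b) (norm_nonneg _) zero_le_one
        _ = B := one_mul _
  · rw [integral_indicator measurableSet_Icc, setIntegral_const, smul_eq_mul, Measure.real,
      Real.volume_Icc, ENNReal.toReal_ofReal (by linarith)]
    apply le_of_eq
    ring

theorem st_iter {B R : ℝ} {g w : ℝ × ℝ → ℝ} (h : PD B R g w) (G₁ G₂ : ℝ → ℂ)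
    (h1 : Measurable G₁) (h2 : Measurable G₂) (b1 : ∀ a, ‖G₁ a‖ ≤ 1) (b2 : ∀ a, ‖G₂ a‖ ≤ 1)
    (t : ℝ) (ξ : ℝ × ℝ) : Eg g w (fun x => G₁ x.1 * G₂ x.2) t ξ =
      ∫ a : ℝ, (G₁ a * st_Pl g w G₂ a t ξ.2) * ex (a * ξ.1) := by
  have hi := ca_Eg_int h G₁ G₂ h1 h2 b1 b2 t ξ
  unfold Eg
  rw [Measure.volume_eq_prod, integral_prod _ hi]
  refine integral_congr_ae (Filter.Eventually.of_forall fun a => ?_)
  unfold st_Pl st_Al
  simp only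
  rw [← integral_const_mul, ← integral_mul_const]
  refine integral_congr_ae (Filter.Eventually.of_forall fun b => ?_)
  simp only
  rw [m2_ex_add]
  ring

/-- The `L⁴` estimate for thin strips. -/
theorem st_L4 (B R κ : ℝ) (hB : 0 ≤ B) (hR : 0 ≤ R) (hκ : 0 < κ) : ∃ C : ℝ, 0 ≤ C ∧
    ∀ g w : ℝ × ℝ → ℝ, PD B R g w → CV g w κ → ∀ T : ℝ, 1 ≤ T → ∀ δ : ℝ, 0 < δ →
    ∀ G₁ G₂ : ℝ → ℂ, Measurable G₁ → Measurable G₂ → (∀ a, ‖G₁ a‖ ≤ 1) → (∀ b, ‖G₂ b‖ ≤ 1) →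
    (∀ a, G₁ a ≠ 0 → |a| ≤ δ) →
    ∫⁻ t in Icc T (2 * T), ∫⁻ ξ : ℝ × ℝ, ‖Eg g w (fun x => G₁ x.1 * G₂ x.2) t ξ‖ₑ ^ 4 ≤
      ENNReal.ofReal (C * (1 + Real.log T) * δ ^ 3) := by
  obtain ⟨C, hC, H⟩ := st_planar B R κ hB hR hκ
  refine ⟨128 * C, by positivity, ?_⟩
  intro g w hpd hcv T hT δ hδ G₁ G₂ h1 h2 b1 b2 s1
  have hlog := Real.log_nonneg hT
  have hPm := st_Pl_meas hpd G₂ h2
  have hh : Measurable fun q : ℝ × ℝ × ℝ => ‖st_Pl g w G₂ q.1 q.2.1 q.2.2‖ₑ ^ (4:ℝ) :=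
    hPm.enorm.pow_const _
  have hfix : ∀ t y : ℝ, Measurable fun a : ℝ => G₁ a * st_Pl g w G₂ a t y := fun t y =>
    h1.mul (hPm.comp (f := fun a : ℝ => (a, t, y)) (by fun_prop))
  have hin : ∀ t : ℝ, ∫⁻ ξ : ℝ × ℝ, ‖Eg g w (fun x => G₁ x.1 * G₂ x.2) t ξ‖ₑ ^ 4 ≤
      ENNReal.ofReal (64 * δ ^ 2) *
        ∫⁻ y : ℝ, ∫⁻ a in Icc (-δ) δ, ‖st_Pl g w G₂ a t y‖ₑ ^ (4:ℝ) := by
    intro t
    have hm : Measurable fun ξ : ℝ × ℝ => ‖Eg g w (fun x => G₁ x.1 * G₂ x.2) t ξ‖ₑ ^ 4 :=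
      ((ca_Eg_meas hpd G₁ G₂ h1 h2).comp (f := fun ξ : ℝ × ℝ => (t, ξ))
        (by fun_prop)).enorm.pow_const 4
    rw [Measure.volume_eq_prod, lintegral_prod_symm _ hm.aemeasurable,
      ← lintegral_const_mul' _ _ ENNReal.ofReal_ne_top]
    refine lintegral_mono fun y => ?_
    have key := FN.l4a (fun a => G₁ a * st_Pl g w G₂ a t y) (hfix t y) (2 * R * B) (fun a => by
      rw [norm_mul]
      calc ‖G₁ a‖ * ‖st_Pl g w G₂ a t y‖ ≤ 1 * (2 * R * B) :=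
            mul_le_mul (b1 a) (st_Pl_norm hpd hB hR G₂ b2 a t y) (norm_nonneg _) zero_le_one
        _ = 2 * R * B := one_mul _) δ hδ (fun a ha => by
      have : G₁ a = 0 := by
        by_contra h
        exact absurd (s1 a h) (not_le.2 ha)
      rw [this, zero_mul])
    have h4 : ∀ x : ℝ, ‖Eg g w (fun x => G₁ x.1 * G₂ x.2) t (x, y)‖ₑ ^ 4 =
        ‖∫ a : ℝ, (G₁ a * st_Pl g w G₂ a t y) * ex (a * x)‖ₑ ^ (4:ℝ) := by
      intro x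
      rw [st_iter hpd G₁ G₂ h1 h2 b1 b2]
      have : (4:ℝ) = ((4:ℕ):ℝ) := by norm_num
      rw [this, ENNReal.rpow_natCast]
    rw [lintegral_congr h4]
    refine key.trans ?_
    refine mul_le_mul_right ?_ _
    rw [← lintegral_indicator measurableSet_Icc]
    refine lintegral_mono fun a => ?_
    by_cases ha : G₁ a = 0
    · rw [ha, zero_mul, enorm_zero, ENNReal.zero_rpow_of_pos (by norm_num)]
      exact zero_le
    · have hmem : a ∈ Icc (-δ) δ := abs_le.1 (s1 a ha)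
      rw [indicator_of_mem hmem]
      refine ENNReal.rpow_le_rpow ?_ (by norm_num)
      rw [enorm_mul]
      have : ‖G₁ a‖ₑ ≤ 1 := by
        rw [← ofReal_norm]
        exact ENNReal.ofReal_le_one.2 (b1 a)
      calc ‖G₁ a‖ₑ * ‖st_Pl g w G₂ a t y‖ₑ ≤ 1 * ‖st_Pl g w G₂ a t y‖ₑ := mul_le_mul_left this _
        _ = ‖st_Pl g w G₂ a t y‖ₑ := one_mul _
  calc ∫⁻ t in Icc T (2 * T), ∫⁻ ξ : ℝ × ℝ, ‖Eg g w (fun x => G₁ x.1 * G₂ x.2) t ξ‖ₑ ^ 4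
      ≤ ∫⁻ t in Icc T (2 * T), ENNReal.ofReal (64 * δ ^ 2) *
          ∫⁻ y : ℝ, ∫⁻ a in Icc (-δ) δ, ‖st_Pl g w G₂ a t y‖ₑ ^ (4:ℝ) :=
        lintegral_mono fun t => hin t
    _ = ENNReal.ofReal (64 * δ ^ 2) * ∫⁻ t in Icc T (2 * T),
          ∫⁻ y : ℝ, ∫⁻ a in Icc (-δ) δ, ‖st_Pl g w G₂ a t y‖ₑ ^ (4:ℝ) :=
        lintegral_const_mul' _ _ ENNReal.ofReal_ne_top
    _ = ENNReal.ofReal (64 * δ ^ 2) * ∫⁻ a in Icc (-δ) δ, ∫⁻ t in Icc T (2 * T),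
          ∫⁻ y : ℝ, ‖st_Pl g w G₂ a t y‖ₑ ^ (4:ℝ) := by
        congr 1
        have e1 : ∀ t : ℝ, ∫⁻ y : ℝ, ∫⁻ a in Icc (-δ) δ, ‖st_Pl g w G₂ a t y‖ₑ ^ (4:ℝ) =
            ∫⁻ a in Icc (-δ) δ, ∫⁻ y : ℝ, ‖st_Pl g w G₂ a t y‖ₑ ^ (4:ℝ) := by
          intro t
          refine lintegral_lintegral_swap ?_
          exact (hh.comp (f := fun q : ℝ × ℝ => (q.2, t, q.1)) (by fun_prop)).aemeasurable
        rw [lintegral_congr e1]
        refine lintegral_lintegral_swap ?_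
        have e2 : Measurable fun q : ℝ × ℝ => ∫⁻ y : ℝ, ‖st_Pl g w G₂ q.2 q.1 y‖ₑ ^ (4:ℝ) := by
          have e3 : Measurable fun q : (ℝ × ℝ) × ℝ => ‖st_Pl g w G₂ q.1.2 q.1.1 q.2‖ₑ ^ (4:ℝ) :=
            hh.comp (f := fun q : (ℝ × ℝ) × ℝ => (q.1.2, q.1.1, q.2)) (by fun_prop)
          exact e3.lintegral_prod_right'
        exact e2.aemeasurable
    _ ≤ ENNReal.ofReal (64 * δ ^ 2) * ∫⁻ _a in Icc (-δ) δ,
          ENNReal.ofReal (C * (1 + Real.log T)) := by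
        refine mul_le_mul_right ?_ _
        exact lintegral_mono fun a => H g w hpd hcv T hT a G₂ h2 b2
    _ = ENNReal.ofReal (128 * C * (1 + Real.log T) * δ ^ 3) := by
        rw [setLIntegral_const, Real.volume_Icc, ← ENNReal.ofReal_mul (by positivity),
          ← ENNReal.ofReal_mul (by positivity)]
        congr 1
        ring

end Pool.Agent.SDT.N1G

end -- N1G.St2

section -- N1M.St3

/-!
N1M: thin strips.
-/

namespace Pool.Agent.SDT.N1M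

open MeasureTheory Set Metric Pool.Agent.SDT.MP_6cbfb8_an Pool.Agent.SDT.MST Pool.Agent.SDT.N1
open Pool.Agent.SDT.N1F Pool.Agent.SDT.N1G
open scoped ENNReal Real ContDiff

open Classical in
/-- The amplitude, cut to the admissible values of `r`. -/
noncomputable def wR (c m : ℝ) (x : ℝ × ℝ) : ℝ := if Rg m x.2 then wm c m x else 0

theorem wR_ne {c m : ℝ} {x : ℝ × ℝ} (h : wR c m x ≠ 0) : Rg m x.2 ∧ wm c m x ≠ 0 := by
  unfold wR at h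
  split_ifs at h with h1
  · exact ⟨h1, h⟩
  · exact absurd rfl h

theorem Rg_meas (m : ℝ) : MeasurableSet {r : ℝ | Rg m r} := by
  have e : {r : ℝ | Rg m r} = {r : ℝ | 0 < r} ∩ ({r : ℝ | r ≤ 4} ∩
      ({r : ℝ | 1 / 4 ≤ hm m r} ∩ {r : ℝ | 1 / 2 ≤ bm m r})) := by
    ext r
    rfl
  rw [e]
  unfold hm bm
  refine MeasurableSet.inter ?_ (MeasurableSet.inter ?_ (MeasurableSet.inter ?_ ?_))
  · exact measurableSet_lt (by fun_prop) (by fun_prop)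
  · exact measurableSet_le (by fun_prop) (by fun_prop)
  · exact measurableSet_le (by fun_prop) (by fun_prop)
  · exact measurableSet_le (by fun_prop) (by fun_prop)

theorem wR_PD (c m : ℝ) (hc : 0 < c) (hm0 : 0 ≤ m) : PD (2 / c) 8 (qm c m) (wR c m) where
  mq := (s3_PD c m hc hm0).mq
  mw := by
    unfold wR
    exact Measurable.ite (measurable_snd (Rg_meas m)) (s3_PD c m hc hm0).mw measurable_const
  bw := fun x => by
    unfold wR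
    split_ifs
    · exact (s3_PD c m hc hm0).bw x
    · rw [abs_zero]
      positivity
  sw := fun x hx => (s3_PD c m hc hm0).sw x (wR_ne hx).2

theorem EM_wR (c m : ℝ) (G₁ G₂ : ℝ → ℂ) (s2 : ∀ b, G₂ b ≠ 0 → Rg m b) (t : ℝ) (ξ : ℝ × ℝ) :
    EM c m G₁ G₂ t ξ = Eg (qm c m) (wR c m) (fun x => G₁ x.1 * G₂ x.2) t ξ := by
  unfold EM Eg
  congr 1
  funext x
  simp only
  by_cases h : G₂ x.2 = 0
  · rw [h]
    simp
  · have h1 : wR c m x = wm c m x := by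
      unfold wR
      rw [if_pos (s2 _ h)]
    rw [h1]

theorem wR_CV (c m : ℝ) (hc : 0 < c) (hm0 : 0 ≤ m) : CV (qm c m) (wR c m) (1 / 108) := by
  intro a b y z w1 w2 w3 w4
  have cor : ∀ r : ℝ, wR c m (a, r) ≠ 0 → DM c a m a r := by
    intro r h
    obtain ⟨⟨k1, k2, k3, k4⟩, h2⟩ := wR_ne h
    exact ⟨le_rfl, k1, k2, k3, k4, (s3_wm_ne hc h2).2.2.le⟩
  have h4 : C4 c a m (((0, a, 0), (y, b, z)) : V × V) := by
    refine ⟨cor _ w1, ?_, ?_, ?_⟩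
    · simp only [sub_zero]
      exact cor _ w2
    · simp only [sub_zero]
      exact cor _ w3
    · simp only [sub_zero]
      exact cor _ w4
  obtain ⟨a', r', hD, hF⟩ := s3_mvt hc hm0 h4
  have e1 : FrM c m (((0, a, 0), (y, b, z)) : V × V) =
      qm c m (a, b) + qm c m (a, b - y - z) - qm c m (a, b - y) - qm c m (a, b - z) := by
    unfold FrM Fg dif px pz
    simp only [Prod.mk_sub_mk, sub_zero]
    rw [sub_right_comm b z y]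
    ring
  rw [← e1, hF]
  obtain ⟨h1, h2, h3, h5, h6, h7⟩ := hD
  have hc2 : 0 < c ^ 2 := by positivity
  set P := hm m r' - a' ^ 2 with hP
  have hP0 : 0 < P := by linarith
  have hP8 : P ≤ 3 ^ 2 := by
    have := sq_nonneg a'
    have hh8 : hm m r' ≤ 8 := by
      unfold hm
      nlinarith [mul_nonneg hm0 (sq_nonneg r')]
    rw [hP]
    linarith
  have w0 : 0 < √P := Real.sqrt_pos.2 hP0
  have w5 : √P ≤ 3 := by
    rw [Real.sqrt_le_left (by norm_num)]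
    exact hP8
  have w6 : √P ^ 3 ≤ 27 := by
    calc √P ^ 3 ≤ 3 ^ 3 := by gcongr
      _ = 27 := by norm_num
  have w7 : 0 < √P ^ 3 := by positivity
  have bb : m * P + bm m r' ^ 2 = 1 - m * a' ^ 2 := by
    rw [hP]
    unfold hm bm
    ring
  have b2 : 1 / 4 ≤ bm m r' ^ 2 := by nlinarith
  have b3 : 1 / 4 ≤ 1 - m * a' ^ 2 := by
    have : 0 ≤ m * P := by positivity
    linarith
  have e2 : bil (hm m r') (a' * bm m r') (1 - m * a' ^ 2) (((0, a, 0), (y, b, z)) : V × V) =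
      -((1 - m * a' ^ 2) * (y * z)) := by
    unfold bil
    simp only
    ring
  have e3 : |-((1 - m * a' ^ 2) * (y * z)) / √P ^ 3| = (1 - m * a' ^ 2) * |y * z| / √P ^ 3 := by
    rw [abs_div, abs_neg, abs_of_pos w7, abs_mul (1 - m * a' ^ 2),
      abs_of_pos (by linarith : 0 < 1 - m * a' ^ 2)]
  rw [e2, e3, le_div_iff₀ w7]
  have h8 : 0 ≤ |y * z| := abs_nonneg _
  calc 1 / 108 * |y * z| * √P ^ 3 ≤ 1 / 108 * |y * z| * 27 := by gcongr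
    _ = 1 / 4 * |y * z| := by ring
    _ ≤ (1 - m * a' ^ 2) * |y * z| := by gcongr

/-- Thin strips, every width. -/
theorem strip4' (c : ℝ) (hc : 0 < c) : ∃ C : ℝ, 0 ≤ C ∧ ∀ T : ℝ, 1 ≤ T → ∀ m : ℝ, 0 ≤ m →
    ∀ δ : ℝ, 0 < δ →
    ∀ G₁ G₂ : ℝ → ℂ, Measurable G₁ → Measurable G₂ → (∀ a, ‖G₁ a‖ ≤ 1) → (∀ b, ‖G₂ b‖ ≤ 1) →
    (∀ a, G₁ a ≠ 0 → |a| ≤ δ) → (∀ b, G₂ b ≠ 0 → Rg m b) →
    ∫⁻ t in Icc T (2 * T), ∫⁻ ξ : ℝ × ℝ, ‖EM c m G₁ G₂ t ξ‖ₑ ^ 4 ≤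
      ENNReal.ofReal (C * (1 + Real.log T) * δ ^ 3) := by
  obtain ⟨C, hC, H⟩ := st_L4 (2 / c) 8 (1 / 108) (by positivity) (by norm_num) (by norm_num)
  refine ⟨C, hC, ?_⟩
  intro T hT m hm0 δ hδ G₁ G₂ h1 h2 b1 b2 s1 s2
  have key := H (qm c m) (wR c m) (wR_PD c m hc hm0) (wR_CV c m hc hm0) T hT δ hδ G₁ G₂ h1 h2
    b1 b2 s1
  refine le_trans (le_of_eq ?_) key
  refine lintegral_congr fun t => lintegral_congr fun ξ => ?_
  rw [EM_wR c m G₁ G₂ s2]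

/-- Thin strips. -/
theorem strip4 (c : ℝ) (hc : 0 < c) (_hc1 : c ≤ 1) : ∃ C : ℝ, 0 ≤ C ∧ ∀ T : ℝ, 1 ≤ T →
    ∀ m : ℝ, 0 ≤ m → m ≤ 1 →
    ∀ G₁ G₂ : ℝ → ℂ, Measurable G₁ → Measurable G₂ → (∀ a, ‖G₁ a‖ ≤ 1) → (∀ b, ‖G₂ b‖ ≤ 1) →
    (∀ a, G₁ a ≠ 0 → |a| ≤ 2 / √T) → (∀ b, G₂ b ≠ 0 → Rg m b) →
    ∫⁻ t in Icc T (2 * T), ∫⁻ ξ : ℝ × ℝ, ‖EM c m G₁ G₂ t ξ‖ₑ ^ 4 ≤
      ENNReal.ofReal (C * (1 + Real.log T) / T) := by
  obtain ⟨C, hC, H⟩ := strip4' c hc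
  refine ⟨8 * C, by positivity, ?_⟩
  intro T hT m hm0 _ G₁ G₂ h1 h2 b1 b2 s1 s2
  have hT0 : 0 < T := by linarith
  have hlog := Real.log_nonneg hT
  have hs0 : 0 < √T := Real.sqrt_pos.2 hT0
  have hs1 : 1 ≤ √T := by
    rw [Real.one_le_sqrt]
    exact hT
  have hs2 : √T * √T = T := Real.mul_self_sqrt hT0.le
  refine (H T hT m hm0 (2 / √T) (by positivity) G₁ G₂ h1 h2 b1 b2 s1 s2).trans ?_
  apply ENNReal.ofReal_le_ofReal
  have h3 : (2 / √T) ^ 3 ≤ 8 / T := by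
    rw [div_pow, div_le_div_iff₀ (by positivity) hT0]
    have h5 : √T ^ 3 = T * √T := by
      calc √T ^ 3 = √T * √T * √T := by ring
        _ = T * √T := by rw [hs2]
    rw [h5]
    nlinarith
  calc C * (1 + Real.log T) * (2 / √T) ^ 3 ≤ C * (1 + Real.log T) * (8 / T) := by gcongr
    _ = 8 * C * (1 + Real.log T) / T := by ring

end Pool.Agent.SDT.N1M

end -- N1M.St3

section -- N1M.L4M

/-!
N1M: from caps, strips and the region `a ≥ c'` to all product densities of the corner.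
-/

namespace Pool.Agent.SDT.N1M

open MeasureTheory Set Metric Pool.Agent.SDT.MP_6cbfb8_an Pool.Agent.SDT.MST Pool.Agent.SDT.N1
open Pool.Agent.SDT.N1F Pool.Agent.SDT.N1G
open scoped ENNReal Real ContDiff

/-- The conclusion of `cap4`. -/
def Cap4Est (c : ℝ) : Prop := ∃ r : ℝ, 0 < r ∧ ∃ C : ℝ, 0 ≤ C ∧ ∀ T : ℝ, 1 ≤ T →
    ∀ al m : ℝ, 0 < al → al ≤ r → 0 ≤ m → m ≤ 1 →
    ∀ (x1 x2 : ℝ) (G₁ G₂ : ℝ → ℂ), Measurable G₁ → Measurable G₂ →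
    (∀ a, ‖G₁ a‖ ≤ 1) → (∀ a, ‖G₂ a‖ ≤ 1) → CapG al r x1 G₁ → CapH m r x2 G₂ →
    ∫⁻ t in Icc T (2 * T), ∫⁻ ξ : ℝ × ℝ, ‖EM c m G₁ G₂ t ξ‖ₑ ^ 4 ≤
      ENNReal.ofReal (C * (1 + Real.log T) ^ 12 / T)

/-- The conclusion of `S3`. -/
def S3Est (c c' : ℝ) : Prop := ∃ C : ℝ, 0 ≤ C ∧ ∃ k : ℕ, ∀ T : ℝ, 1 ≤ T →
    ∀ m : ℝ, 0 ≤ m → m ≤ 1 →
    ∀ G₁ G₂ : ℝ → ℂ, Measurable G₁ → Measurable G₂ → (∀ a, ‖G₁ a‖ ≤ 1) → (∀ b, ‖G₂ b‖ ≤ 1) →
    (∀ a, G₁ a ≠ 0 → c' ≤ a) → (∀ b, G₂ b ≠ 0 → Rg m b) →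
    ∫⁻ t in Icc T (2 * T), ∫⁻ ξ : ℝ × ℝ, ‖EM c m G₁ G₂ t ξ‖ₑ ^ 4 ≤
      ENNReal.ofReal (C * (1 + Real.log T) ^ k / T)

/-- The `L⁴` norm. -/
noncomputable def SM (c m : ℝ) (G₁ G₂ : ℝ → ℂ) (T : ℝ) : ℝ≥0∞ :=
  ∫⁻ t in Icc T (2 * T), ∫⁻ ξ : ℝ × ℝ, ‖EM c m G₁ G₂ t ξ‖ₑ ^ 4

/-- Finite decompositions. -/
theorem SM_sum (c m : ℝ) (hc : 0 < c) (hm0 : 0 ≤ m) {ι : Type*} (s : Finset ι) (A B : ι → ℝ → ℂ)
    (D₁ D₂ : ℝ → ℂ) (hA : ∀ i, Measurable (A i)) (hB : ∀ i, Measurable (B i))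
    (nA : ∀ i a, ‖A i a‖ ≤ 1) (nB : ∀ i b, ‖B i b‖ ≤ 1)
    (hD : ∀ x : ℝ × ℝ, wm c m x ≠ 0 → D₁ x.1 * D₂ x.2 = ∑ i ∈ s, A i x.1 * B i x.2)
    (T K : ℝ) (hK : ∀ i ∈ s, SM c m (A i) (B i) T ≤ ENNReal.ofReal K) :
    SM c m D₁ D₂ T ≤ ENNReal.ofReal ((s.card : ℝ) ^ 5 * K) := by
  have hpd := s3_PD c m hc hm0
  have hsum : ∀ t ξ, EM c m D₁ D₂ t ξ = ∑ i ∈ s, EM c m (A i) (B i) t ξ := by
    intro t ξ
    unfold EM
    rw [← integral_finsetSum s fun i _ => ca_Eg_int hpd (A i) (B i) (hA i) (hB i) (nA i) (nB i)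
      t ξ]
    congr 1
    funext x
    by_cases hw : wm c m x = 0
    · rw [hw]
      simp
    · rw [hD x hw, Finset.sum_mul, Finset.sum_mul, Finset.sum_mul]
  unfold SM
  simp only [hsum]
  refine (m2_lint_sum s (fun i z => EM c m (A i) (B i) z.1 z.2)
    (fun i _ => ca_Eg_meas hpd _ _ (hA i) (hB i)) (Icc T (2 * T))
    (ENNReal.ofReal K) hK).trans (le_of_eq ?_)
  rw [show (s.card : ℝ) ^ 5 * K = (s.card : ℝ) ^ 4 * (s.card * K) by ring,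
      ENNReal.ofReal_mul (by positivity), ENNReal.ofReal_mul (by positivity),
      ENNReal.ofReal_pow (by positivity), ENNReal.ofReal_natCast]

/-- One dyadic piece. -/
theorem L4M_cap (c : ℝ) (hc : 0 < c) (hcap : Cap4Est c) : ∃ r : ℝ, 0 < r ∧ ∃ C : ℝ, 0 ≤ C ∧
    ∀ T : ℝ, 1 ≤ T → ∀ al m : ℝ, 0 < al → al ≤ r → 0 ≤ m → m ≤ 1 →
    ∀ G₁ G₂ : ℝ → ℂ, Measurable G₁ → Measurable G₂ →
    (∀ a, ‖G₁ a‖ ≤ 1) → (∀ a, ‖G₂ a‖ ≤ 1) → (∀ a, G₁ a ≠ 0 → al ≤ a ∧ a ≤ 2 * al) →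
    (∀ b, G₂ b ≠ 0 → Rg m b) →
    SM c m G₁ G₂ T ≤ ENNReal.ofReal (C * (1 + Real.log T) ^ 12 / T) := by
  obtain ⟨r, hr, C, hC, hcap⟩ := hcap
  set s : Finset (ℕ × ℕ) :=
    Finset.range (⌊2 * 2 / r⌋₊ + 1) ×ˢ Finset.range (⌊2 * 8 / r⌋₊ + 1) with hs
  refine ⟨r, hr, (s.card : ℝ) ^ 5 * C, by positivity, ?_⟩
  intro T hT al m hal halr hm0 hm1 G₁ G₂ h1 h2 b1 b2 s1 s2
  have hT0 : 0 < T := by linarith
  have key := SM_sum c m hc hm0 s (fun p => a6_cp al r G₁ p.1) (fun p => ca_cp 8 r G₂ p.2)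
    G₁ G₂ (fun p => a6_cp_meas al r h1 _) (fun p => ca_cp_meas 8 r h2 _)
    (fun p => a6_cp_norm al r b1 _) (fun p => ca_cp_norm 8 r b2 _) (by
      intro x hx
      have e1 : ca_tr 8 G₂ x.2 = G₂ x.2 := by
        have h3 := (s3_PD c m hc hm0).sw x hx
        rw [Prod.norm_def, max_le_iff, Real.norm_eq_abs, Real.norm_eq_abs] at h3
        unfold ca_tr
        rw [if_pos h3.2]
      rw [hs, Finset.sum_product]
      simp only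
      rw [← Finset.sum_mul_sum, a6_cp_sum hal hr s1 x.1, ca_cp_sum 8 hr G₂ x.2, e1]) T (C * (1 + Real.log T) ^ 12 / T) (by
      intro p _
      obtain ⟨x1, hx1⟩ := a6_cp_cap hal hr s1 p.1
      obtain ⟨x2, hx2⟩ := ca_cp_cap (R := 8) (S := {b | Rg m b}) hr s2 p.2
      exact hcap T hT al m hal halr hm0 hm1 x1 x2 _ _ (a6_cp_meas al r h1 _)
        (ca_cp_meas 8 r h2 _) (a6_cp_norm al r b1 _) (ca_cp_norm 8 r b2 _) hx1 hx2)
  refine key.trans (le_of_eq ?_)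
  congr 1
  ring

/-- All densities with support in `a ≥ 0`. -/
theorem L4M_pos (c : ℝ) (hc : 0 < c) (hc1 : c ≤ 1) (hcap : Cap4Est c)
    (hS3 : ∀ c' : ℝ, 0 < c' → S3Est c c') : ∃ C : ℝ, 0 ≤ C ∧ ∃ k : ℕ, ∀ T : ℝ, 1 ≤ T →
    ∀ m : ℝ, 0 ≤ m → m ≤ 1 →
    ∀ G₁ G₂ : ℝ → ℂ, Measurable G₁ → Measurable G₂ → (∀ a, ‖G₁ a‖ ≤ 1) → (∀ b, ‖G₂ b‖ ≤ 1) →
    (∀ a, G₁ a ≠ 0 → 0 ≤ a) → (∀ b, G₂ b ≠ 0 → Rg m b) →
    SM c m G₁ G₂ T ≤ ENNReal.ofReal (C * (1 + Real.log T) ^ k / T) := by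
  obtain ⟨r, hr, C1, hC1, H1⟩ := L4M_cap c hc hcap
  obtain ⟨i0, hi0⟩ := exists_pow_lt_of_lt_one hr (by norm_num : (1 / 2 : ℝ) < 1)
  obtain ⟨C2, hC2, k2, H2⟩ := hS3 ((1 / 2) ^ i0) (by positivity)
  obtain ⟨C3, hC3, H3⟩ := strip4 c hc hc1
  set C : ℝ := C1 + C2 + C3 with hCdef
  set k : ℕ := 17 + k2 with hk
  refine ⟨3 ^ 5 * C, by positivity, k, ?_⟩
  intro T hT m hm0 hm1 G₁ G₂ h1 h2 b1 b2 s1 s2
  have hT0 : 0 < T := by linarith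
  have hlog := Real.log_nonneg hT
  set L : ℝ := 1 + Real.log T with hL
  have hL1 : 1 ≤ L := by rw [hL]; linarith
  obtain ⟨J, hJ1, hJ2, hJ3⟩ := FN.scales T hT
  rw [← hL] at hJ3
  have hJ0 : (0:ℝ) ≤ J := Nat.cast_nonneg J
  -- the three groups of pieces
  set p₁ : ℝ → ℂ := FN.ct (i0 + J) G₁ with hp₁
  set p₂ : ℝ → ℂ := fun a => G₁ a - FN.ct i0 G₁ a with hp₂
  set p₃ : ℝ → ℂ := fun a => FN.ct i0 G₁ a - FN.ct (i0 + J) G₁ a with hp₃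
  have mp₁ : Measurable p₁ := FN.ct_meas _ G₁ h1
  have mp₂ : Measurable p₂ := h1.sub (FN.ct_meas i0 G₁ h1)
  have mp₃ : Measurable p₃ := (FN.ct_meas i0 G₁ h1).sub (FN.ct_meas _ G₁ h1)
  have np₁ : ∀ a, ‖p₁ a‖ ≤ 1 := FN.ct_norm _ G₁ b1
  have np₂ : ∀ a, ‖p₂ a‖ ≤ 1 := by
    intro a
    simp only [hp₂]
    unfold FN.ct
    split_ifs
    · simp
    · rw [sub_zero]; exact b1 a
  have np₃ : ∀ a, ‖p₃ a‖ ≤ 1 := FN.cd_norm i0 (i0 + J) (Nat.le_add_right _ _) G₁ b1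
  have q₁ : SM c m p₁ G₂ T ≤ ENNReal.ofReal (C * L ^ k / T) := by
    have sp : ∀ a, p₁ a ≠ 0 → |a| ≤ 2 / √T := by
      intro a ha
      simp only [hp₁] at ha
      unfold FN.ct at ha
      split_ifs at ha with h3
      · rw [abs_of_nonneg (s1 a ha)]
        have e1 : T ^ (-(1 / 2) : ℝ) = (√T)⁻¹ := by
          rw [Real.rpow_neg hT0.le, Real.sqrt_eq_rpow]
        rw [e1] at hJ2
        have e2 : (1 / 2 : ℝ) ^ (i0 + J) ≤ (1 / 2) ^ J :=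
          pow_le_pow_of_le_one (by norm_num) (by norm_num) (Nat.le_add_left _ _)
        rw [div_eq_mul_inv]
        linarith
      · exact absurd rfl ha
    refine (H3 T hT m hm0 hm1 p₁ G₂ mp₁ h2 np₁ b2 sp s2).trans ?_
    apply ENNReal.ofReal_le_ofReal
    rw [← hL]
    have e1 : L ≤ L ^ k := le_self_pow₀ hL1 (by omega)
    have e2 : C3 ≤ C := by linarith
    gcongr
  have q₂ : SM c m p₂ G₂ T ≤ ENNReal.ofReal (C * L ^ k / T) := by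
    have sp : ∀ a, p₂ a ≠ 0 → (1 / 2 : ℝ) ^ i0 ≤ a := by
      intro a ha
      by_contra h3
      apply ha
      simp only [hp₂]
      unfold FN.ct
      rw [if_pos (not_le.1 h3).le, sub_self]
    refine (H2 T hT m hm0 hm1 p₂ G₂ mp₂ h2 np₂ b2 sp s2).trans ?_
    apply ENNReal.ofReal_le_ofReal
    rw [← hL]
    have e1 : L ^ k2 ≤ L ^ k := pow_le_pow_right₀ hL1 (by omega)
    have e2 : C2 ≤ C := by linarith
    gcongr
  have q₃ : SM c m p₃ G₂ T ≤ ENNReal.ofReal (C * L ^ k / T) := by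
    have key := SM_sum c m hc hm0 (Finset.range J)
      (fun i a => FN.ct (i0 + i) G₁ a - FN.ct (i0 + (i + 1)) G₁ a) (fun _ => G₂) p₃ G₂
      (fun i => (FN.ct_meas _ G₁ h1).sub (FN.ct_meas _ G₁ h1)) (fun _ => h2)
      (fun i => FN.cd_norm _ _ (by omega) G₁ b1) (fun _ => b2)
      (by
        intro x _
        rw [← Finset.sum_mul]
        congr 1
        exact (Finset.sum_range_sub' (fun i => FN.ct (i0 + i) G₁ x.1) J).symm) T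
      (C1 * L ^ 12 / T) (by
        intro i _
        refine H1 T hT ((1 / 2) ^ (i0 + i + 1)) m (by positivity) ?_ hm0 hm1 _ G₂
          ((FN.ct_meas _ G₁ h1).sub (FN.ct_meas _ G₁ h1)) h2
          (FN.cd_norm _ _ (by omega) G₁ b1) b2 (FN.cd_supp (i0 + i) G₁) s2
        exact (pow_le_pow_of_le_one (by norm_num) (by norm_num) (by omega)).trans hi0.le)
    refine key.trans ?_
    apply ENNReal.ofReal_le_ofReal
    rw [Finset.card_range]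
    have e2 : C1 ≤ C := by linarith
    calc (J:ℝ) ^ 5 * (C1 * L ^ 12 / T) ≤ L ^ 5 * (C1 * L ^ 12 / T) := by gcongr
      _ = C1 * L ^ 17 / T := by ring
      _ ≤ C * L ^ k / T := by
        have e1 : L ^ 17 ≤ L ^ k := pow_le_pow_right₀ hL1 (by omega)
        gcongr
  have key := SM_sum c m hc hm0 (Finset.univ : Finset (Fin 3)) ![p₁, p₂, p₃] (fun _ => G₂)
    G₁ G₂ (by
      intro i
      fin_cases i
      · exact mp₁
      · exact mp₂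
      · exact mp₃) (fun _ => h2) (by
      intro i
      fin_cases i
      · exact np₁
      · exact np₂
      · exact np₃) (fun _ => b2) (by
      intro x _
      simp only [Fin.sum_univ_three, Matrix.cons_val_zero, Matrix.cons_val_one,
        Matrix.cons_val]
      simp only [hp₁, hp₂, hp₃]
      ring) T (C * L ^ k / T) (by
      intro i _
      fin_cases i
      · exact q₁
      · exact q₂
      · exact q₃)
  refine key.trans (le_of_eq ?_)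
  congr 1
  simp only [Finset.card_univ, Fintype.card_fin]
  push_cast
  ring

/-! ### Signs -/

theorem EM_refl (c m : ℝ) (G₁ G₂ : ℝ → ℂ) (t : ℝ) (ξ : ℝ × ℝ) :
    EM c m (fun a => G₁ (-a)) G₂ t ξ = EM c m G₁ G₂ t (-ξ.1, ξ.2) := by
  unfold EM
  have h1 : MeasurePreserving (fun x : ℝ × ℝ => (-x.1, x.2)) (volume : Measure (ℝ × ℝ)) volume :=
    (Measure.measurePreserving_neg (volume : Measure ℝ)).prod (MeasurePreserving.id volume)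
  have h2 : MeasurableEmbedding (fun x : ℝ × ℝ => (-x.1, x.2)) :=
    ((MeasurableEquiv.neg ℝ).prodCongr (MeasurableEquiv.refl ℝ)).measurableEmbedding
  rw [← h1.integral_comp h2]
  congr 1
  funext x
  have e1 : qm c m (-x.1, x.2) = qm c m x := by
    unfold qm
    simp
  have e2 : wm c m (-x.1, x.2) = wm c m x := by
    unfold wm
    simp
  simp only [neg_neg]
  rw [e1, e2]
  congr 2
  ring

theorem SM_refl (c m : ℝ) (G₁ G₂ : ℝ → ℂ) (T : ℝ) :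
    SM c m (fun a => G₁ (-a)) G₂ T = SM c m G₁ G₂ T := by
  unfold SM
  refine lintegral_congr fun t => ?_
  have h1 : MeasurePreserving (fun x : ℝ × ℝ => (-x.1, x.2)) (volume : Measure (ℝ × ℝ)) volume :=
    (Measure.measurePreserving_neg (volume : Measure ℝ)).prod (MeasurePreserving.id volume)
  have h2 : MeasurableEmbedding (fun x : ℝ × ℝ => (-x.1, x.2)) :=
    ((MeasurableEquiv.neg ℝ).prodCongr (MeasurableEquiv.refl ℝ)).measurableEmbedding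
  rw [← h1.lintegral_comp_emb h2 (fun ξ : ℝ × ℝ => ‖EM c m G₁ G₂ t ξ‖ₑ ^ 4)]
  refine lintegral_congr fun ξ => ?_
  rw [EM_refl]

/-- The corner with `q ≥ c`, all products. -/
theorem L4M_of (c : ℝ) (hc : 0 < c) (hc1 : c ≤ 1) (hcap : Cap4Est c)
    (hS3 : ∀ c' : ℝ, 0 < c' → S3Est c c') : ∃ C : ℝ, 0 ≤ C ∧ ∃ k : ℕ, ∀ T : ℝ, 1 ≤ T →
    ∀ m : ℝ, 0 ≤ m → m ≤ 1 →
    ∀ G₁ G₂ : ℝ → ℂ, Measurable G₁ → Measurable G₂ → (∀ a, ‖G₁ a‖ ≤ 1) → (∀ b, ‖G₂ b‖ ≤ 1) →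
    (∀ b, G₂ b ≠ 0 → Rg m b) →
    ∫⁻ t in Icc T (2 * T), ∫⁻ ξ : ℝ × ℝ, ‖EM c m G₁ G₂ t ξ‖ₑ ^ 4 ≤
      ENNReal.ofReal (C * (1 + Real.log T) ^ k / T) := by
  obtain ⟨C, hC, k, H⟩ := L4M_pos c hc hc1 hcap hS3
  refine ⟨2 ^ 5 * C, by positivity, k, ?_⟩
  intro T hT m hm0 hm1 G₁ G₂ h1 h2 b1 b2 s2
  have hT0 : 0 < T := by linarith
  set P : ℝ → ℂ := fun a => if 0 ≤ a then G₁ a else 0 with hP
  set M : ℝ → ℂ := fun a => if 0 ≤ a then 0 else G₁ a with hM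
  have mP : Measurable P :=
    Measurable.ite (measurableSet_Ici : MeasurableSet (Ici (0:ℝ))) h1 measurable_const
  have mM : Measurable M :=
    Measurable.ite (measurableSet_Ici : MeasurableSet (Ici (0:ℝ))) measurable_const h1
  have nP : ∀ a, ‖P a‖ ≤ 1 := by
    intro a
    simp only [hP]
    split_ifs
    · exact b1 a
    · simp
  have nM : ∀ a, ‖M a‖ ≤ 1 := by
    intro a
    simp only [hM]
    split_ifs
    · simp
    · exact b1 a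
  have sP : ∀ a, P a ≠ 0 → 0 ≤ a := by
    intro a ha
    simp only [hP] at ha
    split_ifs at ha with h3
    · exact h3
    · exact absurd rfl ha
  have sM : ∀ a, M (-a) ≠ 0 → 0 ≤ a := by
    intro a ha
    simp only [hM] at ha
    split_ifs at ha with h3
    · exact absurd rfl ha
    · linarith
  have q₁ : SM c m P G₂ T ≤ ENNReal.ofReal (C * (1 + Real.log T) ^ k / T) :=
    H T hT m hm0 hm1 P G₂ mP h2 nP b2 sP s2
  have q₂ : SM c m M G₂ T ≤ ENNReal.ofReal (C * (1 + Real.log T) ^ k / T) := by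
    rw [← SM_refl]
    exact H T hT m hm0 hm1 _ G₂ (mM.comp measurable_neg) h2 (fun a => nM _) b2 sM s2
  have key := SM_sum c m hc hm0 (Finset.univ : Finset (Fin 2)) ![P, M] (fun _ => G₂)
    G₁ G₂ (by
      intro i
      fin_cases i
      · exact mP
      · exact mM) (fun _ => h2) (by
      intro i
      fin_cases i
      · exact nP
      · exact nM) (fun _ => b2) (by
      intro x _
      simp only [Fin.sum_univ_two, Matrix.cons_val_zero, Matrix.cons_val_one]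
      simp only [hP, hM]
      split_ifs <;> simp) T (C * (1 + Real.log T) ^ k / T) (by
      intro i _
      fin_cases i
      · exact q₁
      · exact q₂)
  refine key.trans (le_of_eq ?_)
  congr 1
  simp only [Finset.card_univ, Fintype.card_fin]
  push_cast
  ring

end Pool.Agent.SDT.N1M

end -- N1M.L4M

section -- N1M.S3

/-!
N1M: the region `a ≥ c'` of the corner.
-/

namespace Pool.Agent.SDT.N1M

open MeasureTheory Set Metric Pool.Agent.SDT.MP_6cbfb8_an Pool.Agent.SDT.MST Pool.Agent.SDT.N1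
open Pool.Agent.SDT.N1F Pool.Agent.SDT.N1G
open scoped ENNReal Real ContDiff

/-- S3: `a ≥ c'`. -/
theorem S3 (c c' : ℝ) (hc : 0 < c) (hc1 : c ≤ 1) (hc' : 0 < c') : ∃ C : ℝ, 0 ≤ C ∧ ∃ k : ℕ, ∀ T : ℝ, 1 ≤ T →
    ∀ m : ℝ, 0 ≤ m → m ≤ 1 →
    ∀ G₁ G₂ : ℝ → ℂ, Measurable G₁ → Measurable G₂ → (∀ a, ‖G₁ a‖ ≤ 1) → (∀ b, ‖G₂ b‖ ≤ 1) →
    (∀ a, G₁ a ≠ 0 → c' ≤ a) → (∀ b, G₂ b ≠ 0 → Rg m b) →
    ∫⁻ t in Icc T (2 * T), ∫⁻ ξ : ℝ × ℝ, ‖EM c m G₁ G₂ t ξ‖ₑ ^ 4 ≤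
      ENNReal.ofReal (C * (1 + Real.log T) ^ k / T) :=
  S3_of c c' hc hc1 hc' fun m0 x0 y0 h0 h1 hx1 hx2 hx3 hy1 hy2 =>
    TH_loc c c' hc hc1 hc' m0 h0 h1 x0 y0 hx1 hx2 hx3 hy1 hy2

/-- The corner with `q ≥ c`, all products, from the estimate for one cap. -/
theorem L4M_of_cap (c : ℝ) (hc : 0 < c) (hc1 : c ≤ 1) (hcap : Cap4Est c) :
    ∃ C : ℝ, 0 ≤ C ∧ ∃ k : ℕ, ∀ T : ℝ, 1 ≤ T →
    ∀ m : ℝ, 0 ≤ m → m ≤ 1 →
    ∀ G₁ G₂ : ℝ → ℂ, Measurable G₁ → Measurable G₂ → (∀ a, ‖G₁ a‖ ≤ 1) → (∀ b, ‖G₂ b‖ ≤ 1) →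
    (∀ b, G₂ b ≠ 0 → Rg m b) →
    ∫⁻ t in Icc T (2 * T), ∫⁻ ξ : ℝ × ℝ, ‖EM c m G₁ G₂ t ξ‖ₑ ^ 4 ≤
      ENNReal.ofReal (C * (1 + Real.log T) ^ k / T) :=
  L4M_of c hc hc1 hcap fun c' hc' => S3 c c' hc hc1 hc'

end Pool.Agent.SDT.N1M

end -- N1M.S3
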