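import Pool.Agent.SDT.B39
import Pool.Agent.SDT.B72
import Pool.Agent.SDT.B73
import Pool.Agent.SDT.B75

set_option autoImplicit false

namespace Pool.Agent.SDT.MP_6cbfb8_an
end Pool.Agent.SDT.MP_6cbfb8_an
namespace Pool.Agent.SDT.MST
end Pool.Agent.SDT.MST
namespace Pool.Agent.SDT.N1
end Pool.Agent.SDT.N1
namespace Pool.Agent.SDT.N1F
end Pool.Agent.SDT.N1F
namespace Pool.Agent.SDT.N1G
end Pool.Agent.SDT.N1G

section -- N1G.CG2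

/-!
N1G: the cap assembly for a general point phase, part 2: both differences of type O.
-/

namespace Pool.Agent.SDT.N1G

open MeasureTheory Set Metric Pool.Agent.SDT.MP_6cbfb8_an Pool.Agent.SDT.MST Pool.Agent.SDT.N1
open Pool.Agent.SDT.N1F
open scoped ENNReal Real ContDiff

/-- The elementary lower bounds when one of the four terms of the phase is dominant. -/
def cg_DD (φ : YX → ℝ) (K e c1 : ℝ) (q : V × V) : Prop :=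
    (K * (|q.2.1| * |q.2.2.2|) ≤ |q.1.1| * |q.1.2.2| →
      K * (e * (|q.1.1| * |q.2.2.2|)) ≤ |q.1.1| * |q.1.2.2| →
      K * (e * (|q.2.1| * |q.1.2.2|)) ≤ |q.1.1| * |q.1.2.2| →
      c1 * (|q.1.1| * |q.1.2.2|) ≤ |Fg φ q|) ∧
    (K * (|q.1.1| * |q.1.2.2|) ≤ |q.2.1| * |q.2.2.2| →
      K * (e * (|q.1.1| * |q.2.2.2|)) ≤ |q.2.1| * |q.2.2.2| →
      K * (e * (|q.2.1| * |q.1.2.2|)) ≤ |q.2.1| * |q.2.2.2| →
      c1 * (|q.2.1| * |q.2.2.2|) ≤ |Fg φ q|) ∧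
    (K * (|q.1.1| * |q.1.2.2|) ≤ e * (|q.1.1| * |q.2.2.2|) →
      K * (|q.2.1| * |q.2.2.2|) ≤ e * (|q.1.1| * |q.2.2.2|) →
      K * (|q.2.1| * |q.1.2.2|) ≤ |q.1.1| * |q.2.2.2| →
      c1 * (e * (|q.1.1| * |q.2.2.2|)) ≤ |Fg φ q|) ∧
    (K * (|q.1.1| * |q.1.2.2|) ≤ e * (|q.2.1| * |q.1.2.2|) →
      K * (|q.2.1| * |q.2.2.2|) ≤ e * (|q.2.1| * |q.1.2.2|) →
      K * (|q.1.1| * |q.2.2.2|) ≤ |q.2.1| * |q.1.2.2| →
      c1 * (e * (|q.2.1| * |q.1.2.2|)) ≤ |Fg φ q|)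

theorem cg_A_ne {j l : ℕ} {G : ℝ → ℂ} {u : V}
    (h : ch_A j l G u ≠ 0) :
    (1 / 2 ^ j / 2 ≤ |u.1| ∧ |u.1| ≤ 2 * (1 / 2 ^ j)) ∧
    (1 / 2 ^ l / 2 ≤ |u.2.2| ∧ |u.2.2| ≤ 2 * (1 / 2 ^ l)) ∧
    G u.2.1 ≠ 0 ∧ G (u.2.1 - u.1) ≠ 0 ∧ G (u.2.1 - u.2.2) ≠ 0 ∧ G (u.2.1 - u.2.2 - u.1) ≠ 0 := by
  unfold ch_A at h
  obtain ⟨h1, h2⟩ := m2_mul_ne h
  have e1 : ∀ n : ℕ, (1 : ℝ) / 2 ^ (n + 1) = 1 / 2 ^ n / 2 := fun n => by rw [pow_succ]; ring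
  have e2 : ∀ n : ℕ, (2 : ℝ) / 2 ^ n = 2 * (1 / 2 ^ n) := fun n => by ring
  have h3 := uj_support j _ (left_ne_zero_of_mul h1)
  have h4 := uj_support l _ (right_ne_zero_of_mul h1)
  rw [e1, e2] at h3 h4
  have h5 := m2_da_ne (left_ne_zero_of_mul h2)
  have h6 : da G (u.1, u.2.1 - u.2.2) ≠ 0 := by
    intro h7
    rw [h7] at h2
    simp at h2
  have h7 := m2_da_ne h6
  exact ⟨⟨h3.1.le, h3.2.le⟩, ⟨h4.1.le, h4.2.le⟩, h5.1, h5.2, h7.1, h7.2⟩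

/-- Both differences of type O. -/
theorem cg_OO {qp wp : ℝ × ℝ → ℝ} (K0 c1 CA CI : ℝ) (hK0 : 1 ≤ K0) (hc1 : 0 < c1) (hCA : 0 ≤ CA)
    (hAB : ∀ T : ℝ, 0 < T → ∀ (M : V × V → ℂ)
      (e1 e2 d1 d2 f0 : ℝ), Measurable M → (∀ q, ‖M q‖ ≤ 1) → 0 ≤ e1 → 0 ≤ e2 → 0 ≤ d1 →
      0 ≤ d2 → 0 ≤ f0 →
      (∀ q, M q ≠ 0 → Wg (dam wp) q ≠ 0 → |q.1.1| ≤ e1 ∧ |q.2.1| ≤ e2 ∧ |q.1.2.2| ≤ d1 ∧
        |q.2.2.2| ≤ d2 ∧ f0 ≤ |Fg (dif qp) q|) →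
      ‖FFg (dif qp) (dam wp) T M‖ ≤ CA * T * (e1 * e2 * (d1 * d2)) / (1 + T * f0) ^ 3)
    (T : ℝ) (hT : 0 < T) (e : ℝ) (he : 0 < e) (he1 : e ≤ 1)
    (G₁ G₂ : ℝ → ℂ) (h1 : Measurable G₁)
    (h2 : Measurable G₂) (b1 : ∀ a, ‖G₁ a‖ ≤ 1) (b2 : ∀ a, ‖G₂ a‖ ≤ 1)
    (hDD : ∀ q : V × V, m2_Q G₁ G₂ q ≠ 0 → Wg (dam wp) q ≠ 0 → cg_DD (dif qp) K0 e c1 q)
    (j k l m : ℕ)
    (hI : (∃ q, tp (ch_A j l G₁) (ch_A k m G₂) q ≠ 0) →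
      (1 : ℝ) / 2 ^ j * (1 / 2 ^ l) ≤ 16 * K0 * (1 / 2 ^ k * (1 / 2 ^ m)) →
      (1 : ℝ) / 2 ^ k * (1 / 2 ^ m) ≤ 16 * K0 * (1 / 2 ^ j * (1 / 2 ^ l)) →
      e * (1 / 2 ^ m) ≤ 16 * K0 * (1 / 2 ^ l) → e * (1 / 2 ^ k) ≤ 16 * K0 * (1 / 2 ^ j) →
      ‖FFg (dif qp) (dam wp) T (tp (ch_A j l G₁) (ch_A k m G₂))‖ ≤ CI / T)
    (t1 : ¬ ch_ty (16 * K0) e (1 / 2 ^ j) (1 / 2 ^ k))
    (t2 : ¬ ch_ty (16 * K0) e (1 / 2 ^ k) (1 / 2 ^ j))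
    (t3 : ¬ ch_ty (16 * K0) e (1 / 2 ^ l) (1 / 2 ^ m))
    (t4 : ¬ ch_ty (16 * K0) e (1 / 2 ^ m) (1 / 2 ^ l)) :
    ‖FFg (dif qp) (dam wp) T (tp (ch_A j l G₁) (ch_A k m G₂))‖ ≤
      max (CA * (256 / c1 ^ 2)) CI / T := by
  have hM : Measurable (tp (ch_A j l G₁) (ch_A k m G₂)) := by
    unfold tp
    exact ((ch_A_meas j l h1).comp measurable_fst).mul ((ch_A_meas k m h2).comp measurable_snd)
  have hM1 : ∀ q, ‖tp (ch_A j l G₁) (ch_A k m G₂) q‖ ≤ 1 := by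
    intro q
    unfold tp
    rw [norm_mul]
    exact mul_le_one₀ (ch_A_norm j l b1 _) (norm_nonneg _) (ch_A_norm k m b2 _)
  by_cases hne : ∀ q, tp (ch_A j l G₁) (ch_A k m G₂) q = 0
  · have h3 : tp (ch_A j l G₁) (ch_A k m G₂) = fun _ => 0 := funext hne
    have h4 : FFg (dif qp) (dam wp) T (fun _ => 0) = 0 := by
      unfold FFg
      simp
    rw [h3, h4, norm_zero]
    have h5 : 0 ≤ CA * (256 / c1 ^ 2) := by positivity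
    exact div_nonneg (h5.trans (le_max_left _ _)) hT.le
  push Not at hne
  set Y1 : ℝ := 1 / 2 ^ j with hY1
  set Y2 : ℝ := 1 / 2 ^ k with hY2
  set Z1 : ℝ := 1 / 2 ^ l with hZ1
  set Z2 : ℝ := 1 / 2 ^ m with hZ2
  have pY1 : 0 < Y1 := by positivity
  have pY2 : 0 < Y2 := by positivity
  have pZ1 : 0 < Z1 := by positivity
  have pZ2 : 0 < Z2 := by positivity
  have hQne : ∀ q, tp (ch_A j l G₁) (ch_A k m G₂) q ≠ 0 → m2_Q G₁ G₂ q ≠ 0 := by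
    intro q hq
    rw [ch_tp] at hq
    exact right_ne_zero_of_mul (right_ne_zero_of_mul hq)
  have hpt : ∀ q, tp (ch_A j l G₁) (ch_A k m G₂) q ≠ 0 →
      ((Y1 / 2 ≤ |q.1.1| ∧ |q.1.1| ≤ 2 * Y1) ∧ (Z1 / 2 ≤ |q.1.2.2| ∧ |q.1.2.2| ≤ 2 * Z1)) ∧
      ((Y2 / 2 ≤ |q.2.1| ∧ |q.2.1| ≤ 2 * Y2) ∧ (Z2 / 2 ≤ |q.2.2.2| ∧ |q.2.2.2| ≤ 2 * Z2)) := by
    intro q hq
    obtain ⟨hA, hB⟩ := mul_ne_zero_iff.1 (show ch_A j l G₁ q.1 * ch_A k m G₂ q.2 ≠ 0 from hq)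
    obtain ⟨u1, u2, -⟩ := cg_A_ne hA
    obtain ⟨v1, v2, -⟩ := cg_A_ne hB
    exact ⟨⟨u1, u2⟩, v1, v2⟩
  -- the absolute estimate, given a lower bound by a size which dominates the first two
  have habs : ∀ s : ℝ, 0 ≤ s → Y1 * Z1 ≤ s → Y2 * Z2 ≤ s →
      (∀ q, tp (ch_A j l G₁) (ch_A k m G₂) q ≠ 0 → Wg (dam wp) q ≠ 0 →
        c1 * (s / 4) ≤ |Fg (dif qp) q|) →
      ‖FFg (dif qp) (dam wp) T (tp (ch_A j l G₁) (ch_A k m G₂))‖ ≤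
        max (CA * (256 / c1 ^ 2)) CI / T := by
    intro s hs hs1 hs2 hlow
    have h3 := hAB T hT _ (2 * Y1) (2 * Y2) (2 * Z1) (2 * Z2) (c1 * (s / 4)) hM hM1
      (by positivity) (by positivity) (by positivity) (by positivity) (by positivity) ?_
    · refine h3.trans ?_
      have h4 : 2 * Y1 * (2 * Y2) * (2 * Z1 * (2 * Z2)) ≤ 256 / c1 ^ 2 * (c1 * (s / 4)) ^ 2 := by
        have h5 : 256 / c1 ^ 2 * (c1 * (s / 4)) ^ 2 = 16 * (s * s) := by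
          field_simp
          ring
        rw [h5]
        have h6 : Y1 * Z1 * (Y2 * Z2) ≤ s * s := mul_le_mul hs1 hs2 (by positivity) hs
        linarith
      refine (MD.abs_num CA (256 / c1 ^ 2) T _ (c1 * (s / 4)) hCA hT (by positivity)
        (by positivity) h4).trans ?_
      gcongr
      exact le_max_left _ _
    · intro q hq hW
      obtain ⟨⟨⟨-, a2⟩, ⟨-, a4⟩⟩, ⟨-, a6⟩, ⟨-, a8⟩⟩ := hpt q hq
      exact ⟨a2, a6, a4, a8, hlow q hq hW⟩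
  -- pointwise data
  have hdat : ∀ q, tp (ch_A j l G₁) (ch_A k m G₂) q ≠ 0 →
      (Y1 * Z1 ≤ 4 * (|q.1.1| * |q.1.2.2|) ∧ |q.1.1| * |q.1.2.2| ≤ 4 * (Y1 * Z1)) ∧
      (Y2 * Z2 ≤ 4 * (|q.2.1| * |q.2.2.2|) ∧ |q.2.1| * |q.2.2.2| ≤ 4 * (Y2 * Z2)) ∧
      (Y1 * Z2 ≤ 4 * (|q.1.1| * |q.2.2.2|) ∧ |q.1.1| * |q.2.2.2| ≤ 4 * (Y1 * Z2)) ∧
      (Y2 * Z1 ≤ 4 * (|q.2.1| * |q.1.2.2|) ∧ |q.2.1| * |q.1.2.2| ≤ 4 * (Y2 * Z1)) := by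
    intro q hq
    obtain ⟨⟨⟨a1, a2⟩, ⟨a3, a4⟩⟩, ⟨a5, a6⟩, ⟨a7, a8⟩⟩ := hpt q hq
    exact ⟨ch_prod pY1 pZ1 a1 a2 a3 a4, ch_prod pY2 pZ2 a5 a6 a7 a8, ch_prod pY1 pZ2 a1 a2 a7 a8,
      ch_prod pY2 pZ1 a5 a6 a3 a4⟩
  have hE : ∀ q, tp (ch_A j l G₁) (ch_A k m G₂) q ≠ 0 → Wg (dam wp) q ≠ 0 →
      cg_DD (dif qp) K0 e c1 q := fun q hq hW => hDD q (hQne q hq) hW
  have hKK : (1 : ℝ) ≤ 16 * K0 := by linarith
  rcases ch_sizes (16 * K0) e Y1 Y2 Z1 Z2 hKK he he1 pY1 pY2 pZ1 pZ2 t1 t2 t3 t4 with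
    ⟨s2, s3, s4⟩ | ⟨s1, s3, s4⟩ | ⟨s1, s2, s4⟩ | ⟨s1, s2, s3⟩ | ⟨s1, s2, s3, s4⟩
  · refine habs (Y1 * Z1) (by positivity) le_rfl ?_ ?_
    · have : 0 < Y2 * Z2 := by positivity
      nlinarith
    · intro q hq hW
      obtain ⟨⟨p1, p2⟩, ⟨p3, p4⟩, ⟨p5, p6⟩, p7, p8⟩ := hdat q hq
      have h3 := (hE q hq hW).1 ?_ ?_ ?_
      · refine le_trans ?_ h3
        gcongr
        linarith
      · have : K0 * (|q.2.1| * |q.2.2.2|) ≤ K0 * (4 * (Y2 * Z2)) := by gcongr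
        linarith
      · have : K0 * (e * (|q.1.1| * |q.2.2.2|)) ≤ K0 * (e * (4 * (Y1 * Z2))) := by
          gcongr
        linarith
      · have : K0 * (e * (|q.2.1| * |q.1.2.2|)) ≤ K0 * (e * (4 * (Y2 * Z1))) := by
          gcongr
        linarith
  · refine habs (Y2 * Z2) (by positivity) ?_ le_rfl ?_
    · have : 0 < Y1 * Z1 := by positivity
      nlinarith
    · intro q hq hW
      obtain ⟨⟨p1, p2⟩, ⟨p3, p4⟩, ⟨p5, p6⟩, p7, p8⟩ := hdat q hq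
      have h3 := (hE q hq hW).2.1 ?_ ?_ ?_
      · refine le_trans ?_ h3
        gcongr
        linarith
      · have : K0 * (|q.1.1| * |q.1.2.2|) ≤ K0 * (4 * (Y1 * Z1)) := by gcongr
        linarith
      · have : K0 * (e * (|q.1.1| * |q.2.2.2|)) ≤ K0 * (e * (4 * (Y1 * Z2))) := by
          gcongr
        linarith
      · have : K0 * (e * (|q.2.1| * |q.1.2.2|)) ≤ K0 * (e * (4 * (Y2 * Z1))) := by
          gcongr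
        linarith
  · refine habs (e * (Y1 * Z2)) (by positivity) ?_ ?_ ?_
    · have : 0 < Y1 * Z1 := by positivity
      nlinarith
    · have : 0 < Y2 * Z2 := by positivity
      nlinarith
    · intro q hq hW
      obtain ⟨⟨p1, p2⟩, ⟨p3, p4⟩, ⟨p5, p6⟩, p7, p8⟩ := hdat q hq
      have p5' : e * (Y1 * Z2) ≤ e * (4 * (|q.1.1| * |q.2.2.2|)) := by gcongr
      have h3 := (hE q hq hW).2.2.1 ?_ ?_ ?_
      · refine le_trans ?_ h3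
        gcongr
        linarith
      · have : K0 * (|q.1.1| * |q.1.2.2|) ≤ K0 * (4 * (Y1 * Z1)) := by gcongr
        linarith
      · have : K0 * (|q.2.1| * |q.2.2.2|) ≤ K0 * (4 * (Y2 * Z2)) := by gcongr
        linarith
      · have : K0 * (|q.2.1| * |q.1.2.2|) ≤ K0 * (4 * (Y2 * Z1)) := by gcongr
        linarith
  · refine habs (e * (Y2 * Z1)) (by positivity) ?_ ?_ ?_
    · have : 0 < Y1 * Z1 := by positivity
      nlinarith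
    · have : 0 < Y2 * Z2 := by positivity
      nlinarith
    · intro q hq hW
      obtain ⟨⟨p1, p2⟩, ⟨p3, p4⟩, ⟨p5, p6⟩, p7, p8⟩ := hdat q hq
      have p7' : e * (Y2 * Z1) ≤ e * (4 * (|q.2.1| * |q.1.2.2|)) := by gcongr
      have h3 := (hE q hq hW).2.2.2 ?_ ?_ ?_
      · refine le_trans ?_ h3
        gcongr
        linarith
      · have : K0 * (|q.1.1| * |q.1.2.2|) ≤ K0 * (4 * (Y1 * Z1)) := by gcongr
        linarith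
      · have : K0 * (|q.2.1| * |q.2.2.2|) ≤ K0 * (4 * (Y2 * Z2)) := by gcongr
        linarith
      · have : K0 * (|q.1.1| * |q.2.2.2|) ≤ K0 * (4 * (Y1 * Z2)) := by gcongr
        linarith
  · -- comparable sizes
    refine (hI hne s1 s2 s3 s4).trans ?_
    gcongr
    exact le_max_right _ _

end Pool.Agent.SDT.N1G

end -- N1G.CG2

section -- N1G.CG3

/-!
N1G: the cap assembly for a general point phase, part 3: one cap.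
-/

namespace Pool.Agent.SDT.N1G

open MeasureTheory Set Metric Pool.Agent.SDT.MP_6cbfb8_an Pool.Agent.SDT.MST Pool.Agent.SDT.N1
open Pool.Agent.SDT.N1F
open scoped ENNReal Real ContDiff

/-- the data of one cap: all estimates for blocks -/
structure cg_dat (qp wp : ℝ × ℝ → ℝ) (T K e : ℝ) (G₁ G₂ : ℝ → ℂ) (Q O : ℝ) : Prop where
  Q0 : 0 ≤ Q
  O0 : 0 ≤ O
  N : ∀ j k : ℕ, (ch_ty K e (1 / 2 ^ j) (1 / 2 ^ k) ∨ ch_ty K e (1 / 2 ^ k) (1 / 2 ^ j)) →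
    ∀ η₁ η₂ : ℝ, Thg (dif qp) (dam wp) T (pd (m2_ac j G₁ η₁) (m2_ac k G₂ η₂)) ≤
      ENNReal.ofReal Q
  OO : ∀ j k l m : ℕ, ¬ (ch_ty K e (1 / 2 ^ j) (1 / 2 ^ k) ∨ ch_ty K e (1 / 2 ^ k) (1 / 2 ^ j)) →
    ¬ (ch_ty K e (1 / 2 ^ l) (1 / 2 ^ m) ∨ ch_ty K e (1 / 2 ^ m) (1 / 2 ^ l)) →
    ‖FFg (dif qp) (dam wp) T (tp (ch_A j l G₁) (ch_A k m G₂))‖ ≤ O
  le : ∀ q, m2_Q G₁ G₂ q ≠ 0 → |q.1.1| ≤ 1 ∧ |q.2.1| ≤ 1 ∧ |q.1.2.2| ≤ 1 ∧ |q.2.2.2| ≤ 1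

/-- Outer difference of type O. -/
theorem cg_D {B' R : ℝ} {qp wp : ℝ × ℝ → ℝ} (hA : Adm B' R (dif qp) (dam wp))
    (T : ℝ) (hT : 1 ≤ T) (K e : ℝ) (G₁ G₂ : ℝ → ℂ)
    (h1 : Measurable G₁) (h2 : Measurable G₂)
    (b1 : ∀ a, ‖G₁ a‖ ≤ 1) (b2 : ∀ a, ‖G₂ a‖ ≤ 1) (Q O : ℝ)
    (hd : cg_dat qp wp T K e G₁ G₂ Q O)
    (B : ℝ) (hB : 0 ≤ B) (hu : ∀ n, FT1 B fun x => ((uj n x : ℝ) : ℂ)) (J : ℕ)
    (CL : ℝ) (hlow : ∀ (M : V × V → ℂ) (Y : V × V → ℝ × ℝ), Measurable M →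
      (∀ q, ‖M q‖ ≤ 1) → Measurable Y →
      (∀ q, M q ≠ 0 → |q.1.1| ≤ 1 ∧ |q.2.1| ≤ 1 ∧ |q.1.2.2| ≤ 1 ∧ |q.2.2.2| ≤ 1) →
      ((∀ q, Y q = (q.1.1, q.2.1)) ∨ (∀ q, Y q = (q.1.2.2, q.2.2.2))) →
      ‖FFg (dif qp) (dam wp) T (fun q => ((ch_rs J (Y q) : ℝ) : ℂ) * M q)‖ ≤ CL)
    (j k : ℕ) (hjk : ¬ (ch_ty K e (1 / 2 ^ j) (1 / 2 ^ k) ∨ ch_ty K e (1 / 2 ^ k) (1 / 2 ^ j))) :
    ‖FFg (dif qp) (dam wp) T (fun q => ((uj j q.1.1 * uj k q.2.1 : ℝ) : ℂ) * m2_Q G₁ G₂ q)‖ ≤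
      (J : ℝ) ^ 2 * (B * (B * Q) + O) + CL := by
  have hT0 : 0 < T := by linarith
  have hQ0 := hd.Q0
  have hO0 := hd.O0
  have hQm := m2_Q_meas h1 h2
  have hQn := m2_Q_norm b1 b2
  have hYm : Measurable fun q : V × V => (q.1.2.2, q.2.2.2) := by fun_prop
  have hMm : Measurable fun q : V × V => ((uj j q.1.1 * uj k q.2.1 : ℝ) : ℂ) * m2_Q G₁ G₂ q :=
    (Complex.measurable_ofReal.comp (((measurable_uj j).comp (by fun_prop)).mul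
      ((measurable_uj k).comp (by fun_prop)))).mul hQm
  have hMn : ∀ q : V × V, ‖((uj j q.1.1 * uj k q.2.1 : ℝ) : ℂ) * m2_Q G₁ G₂ q‖ ≤ 1 :=
    fun q => m2_mul_norm (uj_abs_le _ _) (uj_abs_le _ _) (hQn q)
  refine cg_part hA T hT0 J (fun q => (q.1.2.2, q.2.2.2)) hYm
    (fun q => ((uj j q.1.1 * uj k q.2.1 : ℝ) : ℂ) * m2_Q G₁ G₂ q) hMm hMn ?_ _ _ ?_ ?_
  · intro q hq
    have h3 := hd.le q (right_ne_zero_of_mul hq)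
    exact ⟨h3.2.2.1, h3.2.2.2⟩
  · intro l m
    by_cases hlm : ch_ty K e (1 / 2 ^ l) (1 / 2 ^ m) ∨ ch_ty K e (1 / 2 ^ m) (1 / 2 ^ l)
    · have h3 := cg_DN hA T hT G₁ G₂ h1 h2 b1 b2 l m Q hQ0 (hd.N l m hlm) B
        (fun x => ((uj j x : ℝ) : ℂ)) (fun x => ((uj k x : ℝ) : ℂ)) (hu j) (hu k)
        (Complex.measurable_ofReal.comp (measurable_uj k)) (fun x => by
          rw [Complex.norm_real, Real.norm_eq_abs]
          exact uj_abs_le k x)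
      have e1 : (fun q : V × V => m2_psi l m (q.1.2.2, q.2.2.2) *
          (((uj j q.1.1 : ℝ) : ℂ) * ((uj k q.2.1 : ℝ) : ℂ) * m2_Q G₁ G₂ q)) =
          fun q : V × V => ((uj l q.1.2.2 * uj m q.2.2.2 : ℝ) : ℂ) *
            (((uj j q.1.1 * uj k q.2.1 : ℝ) : ℂ) * m2_Q G₁ G₂ q) := by
        funext q
        unfold m2_psi
        push_cast
        ring
      rw [e1] at h3
      linarith
    · have h3 := hd.OO j k l m hjk hlm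
      rw [ch_tp] at h3
      have h4 : 0 ≤ B * (B * Q) := by positivity
      linarith
  · exact hlow _ _ hMm hMn hYm (fun q hq => hd.le q (right_ne_zero_of_mul hq))
      (Or.inr fun q => rfl)

/-- The form of one cap. -/
theorem cg_cap_FF {B' R : ℝ} {qp wp : ℝ × ℝ → ℝ} (hA : Adm B' R (dif qp) (dam wp))
    (T : ℝ) (hT : 1 ≤ T) (K e : ℝ) (G₁ G₂ : ℝ → ℂ)
    (h1 : Measurable G₁) (h2 : Measurable G₂)
    (b1 : ∀ a, ‖G₁ a‖ ≤ 1) (b2 : ∀ a, ‖G₂ a‖ ≤ 1) (Q O : ℝ)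
    (hd : cg_dat qp wp T K e G₁ G₂ Q O)
    (B : ℝ) (hB : 0 ≤ B) (hu : ∀ n, FT1 B fun x => ((uj n x : ℝ) : ℂ)) (J : ℕ)
    (CL : ℝ) (hCL : 0 ≤ CL) (hlow : ∀ (M : V × V → ℂ) (Y : V × V → ℝ × ℝ), Measurable M →
      (∀ q, ‖M q‖ ≤ 1) → Measurable Y →
      (∀ q, M q ≠ 0 → |q.1.1| ≤ 1 ∧ |q.2.1| ≤ 1 ∧ |q.1.2.2| ≤ 1 ∧ |q.2.2.2| ≤ 1) →
      ((∀ q, Y q = (q.1.1, q.2.1)) ∨ (∀ q, Y q = (q.1.2.2, q.2.2.2))) →
      ‖FFg (dif qp) (dam wp) T (fun q => ((ch_rs J (Y q) : ℝ) : ℂ) * M q)‖ ≤ CL) :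
    ‖FFg (dif qp) (dam wp) T (m2_Q G₁ G₂)‖ ≤
      (J : ℝ) ^ 2 * (Q + ((J : ℝ) ^ 2 * (B * (B * Q) + O) + CL)) + CL := by
  have hT0 : 0 < T := by linarith
  have hQ0 := hd.Q0
  have hO0 := hd.O0
  have hQm := m2_Q_meas h1 h2
  have hQn := m2_Q_norm b1 b2
  have hYm : Measurable fun q : V × V => (q.1.1, q.2.1) := by fun_prop
  refine cg_part hA T hT0 J (fun q => (q.1.1, q.2.1)) hYm (m2_Q G₁ G₂) hQm hQn ?_ _ _ ?_ ?_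
  · intro q hq
    have h3 := hd.le q hq
    exact ⟨h3.1, h3.2.1⟩
  · intro j k
    by_cases hjk : ch_ty K e (1 / 2 ^ j) (1 / 2 ^ k) ∨ ch_ty K e (1 / 2 ^ k) (1 / 2 ^ j)
    · have h3 := cg_N hA T hT G₁ G₂ h1 h2 b1 b2 j k 0 0 Q hQ0 (hd.N j k hjk 0 0)
      have h0 : ex 0 = 1 := by
        unfold ex
        simp
      simp only [zero_mul, h0, one_mul] at h3
      have h4 : 0 ≤ (J : ℝ) ^ 2 * (B * (B * Q) + O) + CL := by positivity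
      refine (show ‖FFg (dif qp) (dam wp) T (fun q => ((uj j q.1.1 * uj k q.2.1 : ℝ) : ℂ) *
        m2_Q G₁ G₂ q)‖ ≤ Q from h3).trans ?_
      linarith
    · refine (cg_D hA T hT K e G₁ G₂ h1 h2 b1 b2 Q O hd B hB hu J CL hlow j k hjk).trans ?_
      linarith
  · exact hlow _ _ hQm hQn hYm (fun q hq => hd.le q hq) (Or.inl fun q => rfl)

/-- **The cap estimate for a general point phase.**  The size `e` is the ratio of the types: a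
difference is of type N if its first size is about `e` times its second size (or conversely). -/
theorem cg_cap (Bw Rw K0 c1 C0 CI : ℝ) (hBw : 0 ≤ Bw) (hRw : 0 ≤ Rw) (hK0 : 1 ≤ K0)
    (hc1 : 0 < c1) (hC0 : 0 ≤ C0) (hCI : 0 ≤ CI) : ∃ C : ℝ, 0 ≤ C ∧
    ∀ qp wp : ℝ × ℝ → ℝ, Measurable qp → Measurable wp → (∀ x, |wp x| ≤ Bw) →
    (∀ x, wp x ≠ 0 → ‖x‖ ≤ Rw) → ∀ T : ℝ, 1 ≤ T → ∀ e : ℝ, 0 < e → e ≤ 1 →
    ∀ G₁ G₂ : ℝ → ℂ, Measurable G₁ → Measurable G₂ → (∀ a, ‖G₁ a‖ ≤ 1) → (∀ a, ‖G₂ a‖ ≤ 1) →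
    (∀ q, m2_Q G₁ G₂ q ≠ 0 → |q.1.1| ≤ 1 ∧ |q.2.1| ≤ 1 ∧ |q.1.2.2| ≤ 1 ∧ |q.2.2.2| ≤ 1) →
    (∀ q : V × V, m2_Q G₁ G₂ q ≠ 0 → Wg (dam wp) q ≠ 0 → cg_DD (dif qp) K0 e c1 q) →
    (∀ j k : ℕ, (ch_ty (16 * K0) e (1 / 2 ^ j) (1 / 2 ^ k) ∨
        ch_ty (16 * K0) e (1 / 2 ^ k) (1 / 2 ^ j)) → ∀ η₁ η₂ : ℝ,
      Thg (dif qp) (dam wp) T (pd (m2_ac j G₁ η₁) (m2_ac k G₂ η₂)) ≤
        ENNReal.ofReal (C0 * (1 + Real.log T) ^ 5 / T)) →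
    (∀ j k l m : ℕ, (∃ q, tp (ch_A j l G₁) (ch_A k m G₂) q ≠ 0) →
      (1 : ℝ) / 2 ^ j * (1 / 2 ^ l) ≤ 16 * K0 * (1 / 2 ^ k * (1 / 2 ^ m)) →
      (1 : ℝ) / 2 ^ k * (1 / 2 ^ m) ≤ 16 * K0 * (1 / 2 ^ j * (1 / 2 ^ l)) →
      e * (1 / 2 ^ m) ≤ 16 * K0 * (1 / 2 ^ l) → e * (1 / 2 ^ k) ≤ 16 * K0 * (1 / 2 ^ j) →
      ‖FFg (dif qp) (dam wp) T (tp (ch_A j l G₁) (ch_A k m G₂))‖ ≤ CI / T) →
    ∫⁻ t in Icc T (2 * T), ∫⁻ ξ : ℝ × ℝ, ‖Eg qp wp (fun x => G₁ x.1 * G₂ x.2) t ξ‖ₑ ^ (4 : ℝ) ≤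
      ENNReal.ofReal (C * (1 + Real.log T) ^ 12 / T) := by
  obtain ⟨CA, hCA, hAB⟩ := cg_AB (Bw * Bw) (2 * Rw) (by positivity) (by positivity)
  obtain ⟨CL, hCL, hlow⟩ := cg_low (Bw * Bw) (2 * Rw) (by positivity) (by positivity)
  obtain ⟨B, hB, hth⟩ := FT1_th
  set CO : ℝ := max (CA * (256 / c1 ^ 2)) CI with hCO
  have hCO0 : 0 ≤ CO := hCI.trans (le_max_right _ _)
  refine ⟨(4 ^ 2 * C0 + 4 ^ 4 * ((B + B) ^ 2 * C0 + CO) + 4 ^ 2 * CL + CL), by positivity, ?_⟩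
  intro qp wp hqm hwm hwB hwR T hT e he he1 G₁ G₂ h1 h2 b1 b2 hle hDD hN hI
  have hA := f3g_adm Bw Rw qp wp hqm hwm hwB hwR
  have hT0 : 0 < T := by linarith
  have hL : 0 ≤ Real.log T := Real.log_nonneg hT
  obtain ⟨J, hTJ, hJ⟩ := ch_scales T hT
  refine (fourg Bw Rw qp wp hqm hwm hwB hwR T hT0 G₁ G₂ h1 h2 b1 b2).trans ?_
  have hd : cg_dat qp wp T (16 * K0) e G₁ G₂ (C0 * (1 + Real.log T) ^ 5 / T) (CO / T) := by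
    refine ⟨by positivity, by positivity, hN, ?_, hle⟩
    intro j k l m hjk hlm
    rw [not_or] at hjk hlm
    exact cg_OO K0 c1 CA CI hK0 hc1 hCA (hAB _ _ hA) T hT0 e he he1 G₁ G₂ h1 h2 b1 b2 hDD
      j k l m (hI j k l m) hjk.1 hjk.2 hlm.1 hlm.2
  have h3 := cg_cap_FF hA T hT (16 * K0) e G₁ G₂ h1 h2 b1 b2 _ _ hd (B + B)
    (by positivity) (fun n => ch_uj_FT1 hth n) J (CL / T) (by positivity)
    (fun M Y hM hM1 hY hMs hYc => hlow _ _ hA T hT J hTJ M Y hM hM1 hY hMs hYc)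
  have h4 : FFg (dif qp) (dam wp) T
      (sqM fun p => da G₁ (p.1.1, p.2.1) * da G₂ (p.1.2, p.2.2)) =
      FFg (dif qp) (dam wp) T (m2_Q G₁ G₂) := rfl
  rw [h4, ← ofReal_norm]
  apply ENNReal.ofReal_le_ofReal
  refine h3.trans ?_
  exact ch_num (1 + Real.log T) T 4 C0 CO CL (B + B) J (by linarith) hT0 hC0 hCO0 hCL hJ
    (by positivity)

end Pool.Agent.SDT.N1G

end -- N1G.CG3

section -- N1M.Cap

/-!
N1M, block M6: the estimate for one cap.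
-/

namespace Pool.Agent.SDT.N1M

open MeasureTheory Set Metric Pool.Agent.SDT.MP_6cbfb8_an Pool.Agent.SDT.MST Pool.Agent.SDT.N1
open Pool.Agent.SDT.N1F Pool.Agent.SDT.N1G
open scoped ENNReal Real ContDiff

/-! ### The point phase and the point amplitude -/

theorem cm_meas_hm (m : ℝ) : Measurable fun x : ℝ × ℝ => hm m x.2 - x.1 ^ 2 := by
  unfold hm
  fun_prop

theorem cm_Sq_meas (c : ℝ) : Measurable (Sq c) := by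
  unfold Sq
  have h1 : Continuous fun v : ℝ => Real.smoothTransition ((16 * v - c ^ 2) / c ^ 2) :=
    Real.smoothTransition.continuous.comp (by fun_prop)
  exact (Real.continuous_sqrt.mul h1).measurable

theorem cm_qm_meas (c m : ℝ) : Measurable (qm c m) := by
  unfold qm
  exact (cm_Sq_meas c).comp (cm_meas_hm m)

theorem cm_wm_meas (c m : ℝ) (hc : 0 < c) : Measurable (wm c m) := by
  unfold wm
  refine Measurable.ite ?_ ((f1_sma_cont c hc).measurable.comp (cm_meas_hm m)) measurable_const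
  have h1 : MeasurableSet {x : ℝ × ℝ | 0 ≤ x.2} := measurableSet_le measurable_const measurable_snd
  have h2 : MeasurableSet {x : ℝ × ℝ | x.2 ≤ 8} := measurableSet_le measurable_snd measurable_const
  exact h1.inter h2

theorem cm_wm_le (c m : ℝ) (hc : 0 < c) (x : ℝ × ℝ) : |wm c m x| ≤ 2 / c := by
  unfold wm
  split_ifs
  · exact f1_sma_le c hc _
  · rw [abs_zero]
    positivity

theorem cm_wm_supp (c m : ℝ) (hc : 0 < c) (hm0 : 0 ≤ m) (x : ℝ × ℝ) (h : wm c m x ≠ 0) :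
    ‖x‖ ≤ 8 := by
  unfold wm at h
  split_ifs at h with h1
  · obtain ⟨h2, h3⟩ := h1
    have h4 : c ^ 2 / 4 < hm m x.2 - x.1 ^ 2 := by
      by_contra h5
      push Not at h5
      exact h (f1_sma_zero c hc _ h5)
    unfold hm at h4
    have h5 : 0 ≤ m * x.2 ^ 2 := by positivity
    have h6 : x.1 ^ 2 ≤ 8 ^ 2 := by nlinarith [sq_nonneg c]
    have h7 : |x.1| ≤ 8 := abs_le_of_sq_le_sq h6 (by norm_num)
    rw [Prod.norm_def, max_le_iff, Real.norm_eq_abs, Real.norm_eq_abs]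
    exact ⟨h7, abs_le.2 ⟨by linarith, h3⟩⟩
  · exact absurd rfl h

/-- Supports: differences are small. -/
theorem cm_le {w r x : ℝ} {a y : ℝ} (h3 : |a - x| ≤ r * w) (h4 : |a - y - x| ≤ r * w) :
    |y| ≤ 2 * r * w := by
  rw [abs_le] at *
  constructor <;> linarith

theorem cm_CapR {m r r' x K s η : ℝ} {G : ℝ → ℂ} {j : ℕ} (hG : CapH m r x G) (hr : r ≤ r')
    (h : ∀ y, uj j y ≠ 0 → 1 / K ≤ |y / s| ∧ |y / s| ≤ K) :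
    CapR m r' x s K (m2_ac j G η) := by
  intro p hp
  obtain ⟨h1, h2, h3⟩ := m2_ac_ne hp
  obtain ⟨a1, a2⟩ := hG _ h2
  obtain ⟨b1, b2⟩ := hG _ h3
  obtain ⟨c1, c2⟩ := h _ h1
  exact ⟨a1, b1, a2.trans hr, b2.trans hr, c1, c2⟩

theorem cap4 (c : ℝ) (hc : 0 < c) (hc1 : c ≤ 1) : ∃ r : ℝ, 0 < r ∧ ∃ C : ℝ, 0 ≤ C ∧ ∀ T : ℝ, 1 ≤ T →
    ∀ al m : ℝ, 0 < al → al ≤ r → 0 ≤ m → m ≤ 1 →
    ∀ (x1 x2 : ℝ) (G₁ G₂ : ℝ → ℂ), Measurable G₁ → Measurable G₂ →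
    (∀ a, ‖G₁ a‖ ≤ 1) → (∀ a, ‖G₂ a‖ ≤ 1) → CapG al r x1 G₁ → CapH m r x2 G₂ →
    ∫⁻ t in Icc T (2 * T), ∫⁻ ξ : ℝ × ℝ, ‖EM c m G₁ G₂ t ξ‖ₑ ^ 4 ≤
      ENNReal.ofReal (C * (1 + Real.log T) ^ 12 / T) := by
  obtain ⟨K0, r0, c1, hK0, hr0, hc1', hDD⟩ := E_DD4 c hc hc1
  obtain ⟨rN, hrN, CN, hCN, hN⟩ := THF4N c hc hc1 (2 * (16 * K0)) (by linarith)
  obtain ⟨rP, hrP, CP, hCP, hP⟩ := THF4P c hc hc1 (2 * (16 * K0)) (by linarith)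
  obtain ⟨δ, hδ, CI, hCI, hI⟩ := propI42 c hc hc1 (16 * K0) (by linarith)
  obtain ⟨C, hC, hcap⟩ := cg_cap (2 / c) 8 K0 c1 (max CN CP) CI (by positivity) (by norm_num)
    hK0 hc1' (hCN.trans (le_max_left _ _)) hCI
  set r : ℝ := min (min (min (r0 / 2) (δ / 8)) (min rN rP)) (1 / 2) with hrdef
  have hr : 0 < r := by
    rw [hrdef]
    positivity
  have e1 : r ≤ r0 / 2 := (min_le_left _ _).trans ((min_le_left _ _).trans (min_le_left _ _))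
  have e2 : r ≤ δ / 8 := (min_le_left _ _).trans ((min_le_left _ _).trans (min_le_right _ _))
  have e3 : r ≤ rN := (min_le_left _ _).trans ((min_le_right _ _).trans (min_le_left _ _))
  have e4 : r ≤ rP := (min_le_left _ _).trans ((min_le_right _ _).trans (min_le_right _ _))
  have e5 : r ≤ 1 / 2 := min_le_right _ _
  refine ⟨r, hr, C, hC, ?_⟩
  intro T hT al m hal halr hm0 hm1 x1 x2 G₁ G₂ h1 h2 b1 b2 hG1 hG2
  have hT0 : 0 < T := by linarith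
  have hL : 0 ≤ Real.log T := Real.log_nonneg hT
  have hal1 : al ≤ 1 := by linarith
  -- data on the supports
  have hs1 : ∀ a y : ℝ, G₁ a ≠ 0 → G₁ (a - y) ≠ 0 → |y| ≤ 2 * r * al := fun a y g1 g2 =>
    cm_le (hG1 _ g1).2.2 (hG1 _ g2).2.2
  have hs2 : ∀ a y : ℝ, G₂ a ≠ 0 → G₂ (a - y) ≠ 0 → |y| ≤ 2 * r := fun a y g1 g2 => by
    have g3 : |a - x2| ≤ r * 1 := by
      rw [mul_one]
      exact (hG2 _ g1).2
    have g4 : |a - y - x2| ≤ r * 1 := by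
      rw [mul_one]
      exact (hG2 _ g2).2
    have g5 := cm_le g3 g4
    rwa [mul_one] at g5
  have h2r1 : 2 * r * al ≤ 1 := by
    calc 2 * r * al ≤ 1 * 1 := by
          gcongr
          linarith
      _ = 1 := one_mul _
  have hfin := hcap (qm c m) (wm c m) (cm_qm_meas c m) (cm_wm_meas c m hc) (cm_wm_le c m hc)
    (cm_wm_supp c m hc hm0) T hT al hal hal1 G₁ G₂ h1 h2 b1 b2 ?_ ?_ ?_ ?_
  · have e6 : (∫⁻ t in Icc T (2 * T), ∫⁻ ξ : ℝ × ℝ, ‖EM c m G₁ G₂ t ξ‖ₑ ^ 4) =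
        ∫⁻ t in Icc T (2 * T), ∫⁻ ξ : ℝ × ℝ,
          ‖Eg (qm c m) (wm c m) (fun x => G₁ x.1 * G₂ x.2) t ξ‖ₑ ^ (4 : ℝ) := by
      refine lintegral_congr fun t => lintegral_congr fun ξ => ?_
      have e7 : EM c m G₁ G₂ t ξ = Eg (qm c m) (wm c m) (fun x => G₁ x.1 * G₂ x.2) t ξ := rfl
      rw [e7]
      exact (ENNReal.rpow_natCast _ 4).symm
    rw [e6]
    exact hfin
  · intro q hq
    obtain ⟨⟨a1, a2, a3, a4⟩, g1, g2, g3, g4⟩ := m2_Q_ne hq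
    exact ⟨(hs1 _ _ a1 a2).trans h2r1, (hs2 _ _ g1 g2).trans (by linarith),
      (hs1 _ _ a1 a3).trans h2r1, (hs2 _ _ g1 g3).trans (by linarith)⟩
  · intro q hq hW
    obtain ⟨⟨a1, a2, a3, a4⟩, g1, g2, g3, g4⟩ := m2_Q_ne hq
    have h5 : 2 * r * al ≤ r0 * al := by
      gcongr
      linarith
    exact hDD al m hal (by linarith) hm0 hm1 q
      ⟨⟨(hG1 _ a1).1, (hG1 _ a2).1, (hG1 _ a3).1, (hG1 _ a4).1⟩, (hG1 _ a1).2.1,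
        (hs1 _ _ a1 a2).trans h5, (hs1 _ _ a1 a3).trans h5⟩
      ⟨(hG2 _ g1).1, (hG2 _ g2).1, (hG2 _ g3).1, (hG2 _ g4).1,
        (hs2 _ _ g1 g2).trans (by linarith), (hs2 _ _ g1 g3).trans (by linarith)⟩ hW
  · intro j k hjk η₁ η₂
    have hmax : ∀ C', C' ≤ max CN CP → ENNReal.ofReal (C' * (1 + Real.log T) ^ 5 / T) ≤
        ENNReal.ofReal (max CN CP * (1 + Real.log T) ^ 5 / T) := by
      intro C' hC'
      apply ENNReal.ofReal_le_ofReal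
      gcongr
    rcases hjk with hjk | hjk
    · refine (hN T hT al m hal (by linarith) hm0 hm1 (1 / 2 ^ k) (by positivity) (x1, x2) _ _
        (m2_ac_meas j η₁ h1) (m2_ac_meas k η₂ h2) (m2_ac_norm j η₁ b1)
        (m2_ac_norm k η₂ b2) (ch_CapS hal hG1 e3 ?_) (cm_CapR hG2 e3 ?_)).trans
        (hmax _ (le_max_left _ _))
      · exact ch_scale (by linarith) hal (by positivity) rfl hjk
      · exact ch_scale1 (by linarith) rfl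
    · have f1 : al * (1 / 2 ^ j / al) = 1 / (2 : ℝ) ^ j := by
        field_simp
      have f2 : al ^ 2 * (1 / 2 ^ j / al) = al * (1 / 2 ^ j) := by
        field_simp
      refine (hP T hT al m hal (by linarith) hm0 hm1 (1 / 2 ^ j / al) (by positivity) (x1, x2) _ _
        (m2_ac_meas j η₁ h1) (m2_ac_meas k η₂ h2) (m2_ac_norm j η₁ b1)
        (m2_ac_norm k η₂ b2) (ch_CapS hal hG1 e4 ?_) (cm_CapR hG2 e4 ?_)).trans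
        (hmax _ (le_max_right _ _))
      · rw [f1]
        exact ch_scale1 (by linarith) rfl
      · rw [f2]
        exact ch_scale (by linarith) hal (by positivity) rfl hjk
  · intro j k l n hne s1 s2 s3 s4
    obtain ⟨q0, hq0⟩ := hne
    obtain ⟨hA0, hB0⟩ := mul_ne_zero_iff.1 (show ch_A j l G₁ q0.1 * ch_A k n G₂ q0.2 ≠ 0 from hq0)
    obtain ⟨⟨u1, -⟩, ⟨u3, -⟩, u5, u6, u7, -⟩ := cg_A_ne hA0
    obtain ⟨⟨v1, -⟩, ⟨v3, -⟩, v5, v6, v7, -⟩ := cg_A_ne hB0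
    have g1 := hs1 _ _ u5 u6
    have g2 := hs1 _ _ u5 u7
    have g3 := hs2 _ _ v5 v6
    have g4 := hs2 _ _ v5 v7
    set Y1 : ℝ := 1 / 2 ^ j with hY1
    set Y2 : ℝ := 1 / 2 ^ k with hY2
    set Z1 : ℝ := 1 / 2 ^ l with hZ1
    set Z2 : ℝ := 1 / 2 ^ n with hZ2
    have pY1 : 0 < Y1 := by positivity
    have pY2 : 0 < Y2 := by positivity
    have pZ1 : 0 < Z1 := by positivity
    have pZ2 : 0 < Z2 := by positivity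
    have small : ∀ X y : ℝ, X / 2 ≤ y → y ≤ 2 * r * al → X / al < δ := by
      intro X y h3 h4
      rw [div_lt_iff₀ hal]
      nlinarith
    have q1 : al ^ 2 * (Y1 / al) * (Z1 / al) = Y1 * Z1 := by field_simp
    have aux : ∀ X Z : ℝ, al * X ≤ 16 * K0 * Z → X ≤ 16 * K0 * (Z / al) := by
      intro X Z h3
      rw [mul_div_assoc', le_div_iff₀ hal]
      linarith
    refine hI T al m (Y1 / al) Y2 (Z1 / al) Z2 hT0 hal (by linarith) hm0 hm1 (by positivity)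
      (small _ _ u1 g1) pY2 (by linarith) (by positivity) (small _ _ u3 g2) pZ2 (by linarith)
      (by rw [q1]; exact s1) (by rw [q1]; exact s2) (aux _ _ s3) (aux _ _ s4)
      (ch_A j l G₁) (ch_A k n G₂) (ch_A_meas j l h1) (ch_A_meas k n h2) (ch_A_norm j l b1)
      (ch_A_norm k n b2) ?_ ?_
    · intro u hu
      obtain ⟨⟨w1, w2⟩, ⟨w3, w4⟩, w5, -⟩ := cg_A_ne hu
      exact ch_GB hal pY1 pZ1 (by linarith) w1 w2 w3 w4 (hG1 _ w5).1 (hG1 _ w5).2.1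
    · intro v hv
      obtain ⟨⟨w1, w2⟩, ⟨w3, w4⟩, w5, -⟩ := cg_A_ne hv
      have key : ∀ {Y t : ℝ}, 0 < Y → Y / 2 ≤ |t| → |t| ≤ 2 * Y →
          1 / (16 * K0) ≤ |t / Y| ∧ |t / Y| ≤ 16 * K0 := by
        intro Y t hY h3 h4
        have hK1 : 1 / (16 * K0) ≤ 1 / 2 := by
          rw [div_le_div_iff₀ (by linarith) (by norm_num)]
          linarith
        rw [abs_div, abs_of_pos hY]
        constructor
        · rw [le_div_iff₀ hY]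
          nlinarith
        · rw [div_le_iff₀ hY]
          nlinarith
      exact ⟨key pY2 w1 w2, (hG2 _ w5).1, key pZ2 w3 w4⟩

end Pool.Agent.SDT.N1M

end -- N1M.Cap
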