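import Pool.Agent.SDT.B46
import Pool.Agent.SDT.B69
import Pool.Agent.SDT.B72
import Pool.Agent.SDT.B73
import Pool.Agent.SDT.B76

set_option autoImplicit false

namespace Pool.Agent.SDT.MP_6cbfb8_an
end Pool.Agent.SDT.MP_6cbfb8_an
namespace Pool.Agent.SDT.MST
end Pool.Agent.SDT.MST
namespace Pool.Agent.SDT.N1
end Pool.Agent.SDT.N1
namespace Pool.Agent.SDT.N1F
end Pool.Agent.SDT.N1F
namespace Pool.Agent.SDT.N1G
end Pool.Agent.SDT.N1G
namespace Pool.Agent.SDT.N1M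
end Pool.Agent.SDT.N1M

section -- N1Q.Tan3

/-!
N1Q, block QT, part 3: tangential outer differences, assembly.
-/

namespace Pool.Agent.SDT.N1Q

open MeasureTheory Set Metric Pool.Agent.SDT.MP_6cbfb8_an Pool.Agent.SDT.MST Pool.Agent.SDT.N1
open Pool.Agent.SDT.N1F Pool.Agent.SDT.N1G Pool.Agent.SDT.N1M
open scoped ENNReal Real ContDiff

theorem SX_mono {r r' : ℝ} {α : ℝ × ℝ → ℂ} (h : SX r α) (hr : r ≤ r') : SX r' α := fun p hp =>
  ⟨(h p hp).1.trans hr, (h p hp).2.trans hr⟩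

theorem SY_mono {c s s' : ℝ} {α : ℝ × ℝ → ℂ} (h : SY c s α) (hs : s ≤ s') : SY c s' α :=
  fun p hp => (h p hp).trans hs

/-- the number of cells -/
theorem tn_card (δ Θ : ℝ) (hδ : 0 < δ) (hδ1 : δ ≤ 1) (hΘ : 0 < Θ) (hΘ1 : Θ ≤ 1) (L : ℕ) :
    ∃ N : ℕ, 1 / (δ * Θ) + 1 ≤ N ∧
      (((2 * N + 1) * (2 * L + 1) : ℕ) : ℝ) ≤ 7 * (2 * L + 1) / δ / Θ := by
  have h1 : 0 < δ * Θ := by positivity
  have h2 : δ * Θ ≤ 1 := mul_le_one₀ hδ1 hΘ.le hΘ1
  have h3 : 1 ≤ 1 / (δ * Θ) := by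
    rw [le_div_iff₀ h1]
    linarith
  refine ⟨⌈1 / (δ * Θ)⌉₊ + 1, ?_, ?_⟩
  · push_cast
    linarith [Nat.le_ceil (1 / (δ * Θ))]
  · have h4 : ((⌈1 / (δ * Θ)⌉₊ : ℕ) : ℝ) < 1 / (δ * Θ) + 1 :=
      Nat.ceil_lt_add_one (by positivity)
    push_cast
    have h5 : 7 * (2 * (L : ℝ) + 1) / δ / Θ = 7 * (1 / (δ * Θ)) * (2 * L + 1) := by
      field_simp
    rw [h5]
    have h6 : (0 : ℝ) ≤ 2 * (L : ℝ) + 1 := by positivity
    have h7 : 2 * ((⌈1 / (δ * Θ)⌉₊ : ℝ) + 1) + 1 ≤ 7 * (1 / (δ * Θ)) := by linarith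
    exact mul_le_mul_of_nonneg_right h7 h6

/-- One region. -/
theorem tn_region (b P g1 g2 η T ρ Θ s δ V : ℝ) (hpar : Par b g1 g2) (hs : 0 < s)
    (hδ : 0 < δ) (hδ1 : δ ≤ 1) (hΘ : 0 < Θ) (hΘ1 : Θ ≤ 1) (hρs : ρ / s = 1 / (δ * Θ))
    (A : ℝ) (L : ℕ) (hL : 4 * (A * ρ / s) + 17 ≤ L) (hV : 0 ≤ V)
    (α β : ℝ × ℝ → ℂ) (R : Set (ℝ × ℝ))
    (hR : ∀ y ∈ R, |y.1| ≤ ρ ∧ |lnE g1 g2 y| ≤ A * ρ)
    (hbox : ∀ yc ∈ R, TE b P g1 g2 η T (pd (rtn s ⌊yc.1 / s⌋ α) (rtn s ⌊yc.2 / s⌋ β)) ≤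
      ENNReal.ofReal (V * Θ)) :
    ∫⁻ y in R, gT (dif (qE b P g1 g2 η)) (dam (wE b P g1 g2 η)) T (pd α β) y ≤
      ENNReal.ofReal (7 * (2 * L + 1) / δ * V) := by
  obtain ⟨N, hN1, hN2⟩ := tn_card δ Θ hδ hδ1 hΘ hΘ1 L
  obtain ⟨-, -, p1, p2, p3, p4⟩ := hpar
  have h1 := tn_cover (gT (dif (qE b P g1 g2 η)) (dam (wE b P g1 g2 η)) T (pd α β)) g1 g2 ρ A s hs
    p1 (by linarith) p3 R hR (ENNReal.ofReal (V * Θ)) (fun yc hyc => by
      rw [tn_cell]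
      exact hbox yc hyc) N L (by rw [hρs]; exact hN1) hL
  refine h1.trans ?_
  rw [← ENNReal.ofReal_natCast, ← ENNReal.ofReal_mul (Nat.cast_nonneg _)]
  apply ENNReal.ofReal_le_ofReal
  calc (((2 * N + 1) * (2 * L + 1) : ℕ) : ℝ) * (V * Θ) ≤ 7 * (2 * L + 1) / δ / Θ * (V * Θ) := by
        gcongr
    _ = 7 * (2 * L + 1) / δ * V := by
        field_simp

/-- The number of annuli. -/
theorem tn_K (C1 C2 : ℝ) (hC1 : 0 < C1) (hC2 : 1 ≤ C2) : ∃ CK : ℝ, 0 ≤ CK ∧ ∀ η : ℝ, 0 < η →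
    η ≤ 1 → ∃ K : ℕ, C1 * η / 2 ^ K ≤ C2 * η ^ 2 ∧ (∀ k < K, C2 * η ^ 2 ≤ C1 * η / 2 ^ k) ∧
      (K : ℝ) ≤ CK * (1 + Real.log (1 / η)) := by
  classical
  refine ⟨1 + 2 * (|Real.log (C1 / C2)| + 1), by positivity, fun η hη hη1 => ?_⟩
  have hC2' : 0 < C2 := by linarith
  have hlog : 0 ≤ Real.log (1 / η) := Real.log_nonneg (by rw [le_div_iff₀ hη]; linarith)
  have hex : ∃ K : ℕ, C1 * η / 2 ^ K < C2 * η ^ 2 := by
    have h1 : 0 < C2 * η ^ 2 / (C1 * η) := by positivity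
    obtain ⟨K, hK⟩ := exists_pow_lt_of_lt_one h1 (by norm_num : (1 / 2 : ℝ) < 1)
    refine ⟨K, ?_⟩
    rw [lt_div_iff₀ (by positivity)] at hK
    calc C1 * η / 2 ^ K = (1 / 2) ^ K * (C1 * η) := by
          rw [one_div, inv_pow]
          ring
      _ < C2 * η ^ 2 := hK
  refine ⟨Nat.find hex, (Nat.find_spec hex).le, fun k hk => not_lt.1 (Nat.find_min hex hk), ?_⟩
  rcases Nat.eq_zero_or_pos (Nat.find hex) with h0 | h0
  · rw [h0, Nat.cast_zero]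
    positivity
  · obtain ⟨n, hn⟩ := Nat.exists_eq_add_of_le h0
    have hn' : Nat.find hex = n + 1 := by rw [hn]; ring
    have h2 : C2 * η ^ 2 ≤ C1 * η / 2 ^ n :=
      not_lt.1 (Nat.find_min hex (by rw [hn']; exact Nat.lt_succ_self n))
    rw [hn']
    have h3 : (2 : ℝ) ^ n ≤ C1 / C2 * (1 / η) := by
      rw [le_div_iff₀ (by positivity)] at h2
      have h4 : C1 / C2 * (1 / η) = C1 * η / (C2 * η ^ 2) := by
        field_simp
      rw [h4, le_div_iff₀ (by positivity)]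
      linarith
    have h5 := Real.log_le_log (by positivity) h3
    rw [Real.log_pow, Real.log_mul (by positivity) (by positivity)] at h5
    have h6 : (1 / 2 : ℝ) ≤ Real.log 2 := by
      have := Real.log_two_gt_d9
      linarith
    have h7 : (n : ℝ) * (1 / 2) ≤ (n : ℝ) * Real.log 2 :=
      mul_le_mul_of_nonneg_left h6 (Nat.cast_nonneg _)
    have h8 := le_abs_self (Real.log (C1 / C2))
    have h9 : 0 ≤ |Real.log (C1 / C2)| := abs_nonneg _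
    push_cast
    nlinarith

/-- Dyadic position of a positive number. -/
theorem tn_dyadic (x δ : ℝ) (J : ℕ) (h1 : x ≤ δ) (h2 : δ / 2 ^ J < x) :
    ∃ j < J, δ / 2 ^ j / 2 < x ∧ x ≤ δ / 2 ^ j := by
  classical
  have hex : ∃ n : ℕ, δ / 2 ^ n < x := ⟨J, h2⟩
  have h0 : Nat.find hex ≠ 0 := by
    intro h3
    have h4 := Nat.find_spec hex
    rw [h3, pow_zero, div_one] at h4
    linarith
  obtain ⟨n, hn⟩ := Nat.exists_eq_succ_of_ne_zero h0
  have h5 := Nat.find_spec hex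
  have h6 : Nat.find hex ≤ J := Nat.find_min' hex h2
  have h7 : ¬ δ / 2 ^ n < x := Nat.find_min hex (by omega)
  refine ⟨n, by omega, ?_, not_lt.1 h7⟩
  rw [hn, Nat.succ_eq_add_one, pow_succ] at h5
  rwa [div_div]

theorem tn_zero {r : ℝ} {φ w : YX → ℝ} {T : ℝ} {α β : ℝ × ℝ → ℂ} (hα : SX r α) (y : ℝ × ℝ)
    (hy : 2 * r < |y.1|) : gT φ w T (pd α β) y = 0 := by
  have h1 : ∀ x, pd α β (y, x) = 0 := by
    intro x
    unfold pd
    simp only
    by_contra h2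
    have h3 := hα _ (left_ne_zero_of_mul h2)
    simp only at h3
    have h4 : |y.1| ≤ 2 * r := by
      have h5 : y.1 = x.1 - (x.1 - y.1) := by ring
      rw [h5]
      refine (abs_sub _ _).trans ?_
      linarith [h3.1, h3.2]
    linarith
  unfold gT Hyg
  simp [h1]

theorem tanE (C1 : ℝ) (hC1 : 0 < C1) : ∃ r0 η0 C : ℝ, 0 < r0 ∧ r0 ≤ 1 / 4 ∧ 0 < η0 ∧ 0 ≤ C ∧
    ∀ b P g1 g2 η T : ℝ, Par b g1 g2 → 1 / 8 ≤ P → P ≤ 8 → 0 < η → η ≤ η0 → 1 ≤ T →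
    ∀ α β : ℝ × ℝ → ℂ, Measurable α → Measurable β → (∀ p, ‖α p‖ ≤ 1) → (∀ p, ‖β p‖ ≤ 1) →
    SX r0 α → SX r0 β →
    TE b P g1 g2 η T (tanM g1 g2 (C1 * η) (pd α β)) ≤
      ENNReal.ofReal (C * (1 + Real.log T + Real.log (1 / η)) ^ 6 / (η ^ 2 * T)) := by
  obtain ⟨C2, θ0, δA, CA, hC2, hθ0, hδA, hδA4, hCA, hA⟩ := boxA
  obtain ⟨δB, ηB, CB, hδB, hδB4, hηB, hCB, hB⟩ := boxB C2 (by linarith)
  obtain ⟨CK, hCK, hK⟩ := tn_K C1 C2 hC1 hC2
  obtain ⟨Cl, hCl, hlow⟩ := tn_low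
  set δ : ℝ := min δA δB with hδdef
  have hδ : 0 < δ := by positivity
  have dA : δ ≤ δA := min_le_left _ _
  have dB : δ ≤ δB := min_le_right _ _
  have hδ1 : δ ≤ 1 := by linarith
  set η0 : ℝ := min (min ηB 1) (min θ0 1 / C1) with hη0def
  have hη0 : 0 < η0 := by positivity
  have eB : η0 ≤ ηB := (min_le_left _ _).trans (min_le_left _ _)
  have e1 : η0 ≤ 1 := (min_le_left _ _).trans (min_le_right _ _)
  have e2 : η0 ≤ min θ0 1 / C1 := min_le_right _ _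
  -- numbers of cells
  set LA : ℕ := ⌈4 * (1 / δ) + 17⌉₊ with hLA
  set LB : ℕ := ⌈4 * (C2 / δ) + 17⌉₊ with hLB
  set DA : ℝ := 7 * (2 * LA + 1) / δ * CA with hDA
  set DB : ℝ := 7 * (2 * LB + 1) / δ * CB with hDB
  have hDA0 : 0 ≤ DA := by positivity
  have hDB0 : 0 ≤ DB := by positivity
  set Dl : ℝ := Cl * (4 + C1) with hDl
  have hDl0 : 0 ≤ Dl := by positivity
  refine ⟨δ / 2, η0, Dl + 4 * (DB + CK * DA), by positivity, by linarith, hη0, by positivity, ?_⟩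
  intro b P g1 g2 η T hpar hP1 hP2 hη hηη hT α β hα hβ hα1 hβ1 hαs hβs
  have hT0 : 0 < T := by linarith
  have hη1 : η ≤ 1 := by linarith
  have hlogT : 0 ≤ Real.log T := Real.log_nonneg hT
  have hlogη : 0 ≤ Real.log (1 / η) := Real.log_nonneg (by rw [le_div_iff₀ hη]; linarith)
  have hC1η : C1 * η ≤ min θ0 1 := by
    have h1 := hηη.trans e2
    rw [le_div_iff₀ hC1] at h1
    linarith
  have hC1θ : C1 * η ≤ θ0 := hC1η.trans (min_le_left _ _)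
  have hC11 : C1 * η ≤ 1 := hC1η.trans (min_le_right _ _)
  obtain ⟨K, hK1, hK2, hK3⟩ := hK η hη hη1
  obtain ⟨J, hJ1, hJ2⟩ := ch_scales T hT
  set Λ : ℝ := 1 + Real.log T + Real.log (1 / η) with hΛ
  have hΛ1 : 1 ≤ Λ := by linarith
  set φ := dif (qE b P g1 g2 η) with hφ
  set w := dam (wE b P g1 g2 η) with hw
  set g : ℝ × ℝ → ℝ≥0∞ := gT φ w T (pd α β) with hg
  -- the mask
  have hEm : MeasurableSet {y : ℝ × ℝ | |lnE g1 g2 y| ≤ C1 * η * |y.1|} :=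
    measurableSet_le ((tn_lnE_cont g1 g2).measurable.abs) (by fun_prop)
  have hmask : TE b P g1 g2 η T (tanM g1 g2 (C1 * η) (pd α β)) =
      ∫⁻ y in {y : ℝ × ℝ | |lnE g1 g2 y| ≤ C1 * η * |y.1|}, g y := by
    unfold TE
    refine tn_mask _ _ T (pd α β) _ hEm _ ?_ ?_
    · intro p hp
      exact if_pos hp
    · intro p hp
      exact if_neg hp
  rw [hmask]
  -- the regions
  set ρ : ℕ → ℝ := fun j => δ / 2 ^ j with hρ
  set Θ : ℕ → ℝ := fun k => C1 * η / 2 ^ k with hΘ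
  have hρ0 : ∀ j, 0 < ρ j := fun j => by
    rw [hρ]
    positivity
  have hρδ : ∀ j, ρ j ≤ δ := fun j => div_le_self hδ.le (one_le_pow₀ (by norm_num))
  have hΘ0 : ∀ k, 0 < Θ k := fun k => by
    rw [hΘ]
    positivity
  have hΘle : ∀ k, Θ k ≤ C1 * η := fun k => div_le_self (by positivity) (one_le_pow₀ (by norm_num))
  set LOW : Set (ℝ × ℝ) := {y : ℝ × ℝ | |y.1| ≤ ρ J ∧ |lnE g1 g2 y| ≤ C1 * η * |y.1|} with hLOW
  set BIG : Set (ℝ × ℝ) := {y : ℝ × ℝ | δ < |y.1|} with hBIG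
  set RB : ℕ → Set (ℝ × ℝ) := fun j =>
    {y : ℝ × ℝ | ρ j / 2 ≤ |y.1| ∧ |y.1| ≤ ρ j ∧ |lnE g1 g2 y| ≤ C2 * η ^ 2 * ρ j} with hRB
  set RA : ℕ → ℕ → Set (ℝ × ℝ) := fun j k =>
    {y : ℝ × ℝ | ρ j / 2 ≤ |y.1| ∧ |y.1| ≤ ρ j ∧ Θ k * ρ j / 2 ≤ |lnE g1 g2 y| ∧
      |lnE g1 g2 y| ≤ Θ k * ρ j} with hRA
  have hcov : {y : ℝ × ℝ | |lnE g1 g2 y| ≤ C1 * η * |y.1|} ⊆ (LOW ∪ BIG) ∪
      ((⋃ j ∈ Finset.range J, RB j) ∪
        ⋃ p ∈ Finset.range J ×ˢ Finset.range K, RA p.1 p.2) := by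
    intro y hy
    have hy' : |lnE g1 g2 y| ≤ C1 * η * |y.1| := hy
    by_cases hbig : δ < |y.1|
    · exact Or.inl (Or.inr hbig)
    push Not at hbig
    by_cases hlw : |y.1| ≤ ρ J
    · exact Or.inl (Or.inl ⟨hlw, hy'⟩)
    push Not at hlw
    right
    obtain ⟨j, hj, hj1, hj2⟩ := tn_dyadic |y.1| δ J hbig hlw
    have hjρ1 : ρ j / 2 ≤ |y.1| := hj1.le
    have hjρ2 : |y.1| ≤ ρ j := hj2
    by_cases hcore : |lnE g1 g2 y| ≤ C2 * η ^ 2 * ρ j
    · left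
      exact mem_iUnion₂.2 ⟨j, Finset.mem_range.2 hj, hjρ1, hjρ2, hcore⟩
    · right
      push Not at hcore
      have h3 : |lnE g1 g2 y| ≤ C1 * η * ρ j := hy'.trans (by gcongr)
      have h4 : C1 * η * ρ j / 2 ^ K < |lnE g1 g2 y| := by
        refine lt_of_le_of_lt ?_ hcore
        have h5 : C1 * η * ρ j / 2 ^ K = C1 * η / 2 ^ K * ρ j := by ring
        rw [h5]
        exact mul_le_mul_of_nonneg_right hK1 (hρ0 j).le
      obtain ⟨k, hk, hk1, hk2⟩ := tn_dyadic |lnE g1 g2 y| (C1 * η * ρ j) K h3 h4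
      refine mem_iUnion₂.2 ⟨(j, k), Finset.mem_product.2 ⟨Finset.mem_range.2 hj,
        Finset.mem_range.2 hk⟩, hjρ1, hjρ2, ?_, ?_⟩
      · have h5 : Θ k * ρ j / 2 = C1 * η * ρ j / 2 ^ k / 2 := by
          rw [hΘ]
          ring
        rw [h5]
        exact hk1.le
      · have h5 : Θ k * ρ j = C1 * η * ρ j / 2 ^ k := by
          rw [hΘ]
          ring
        rw [h5]
        exact hk2
  -- estimates
  have hL4 : (1 + Real.log T) ^ 4 ≤ Λ ^ 4 := by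
    have : 1 + Real.log T ≤ Λ := by linarith
    gcongr
  have hbound0 : ∫⁻ y in LOW, g y ≤ ENNReal.ofReal (Dl / (η ^ 2 * T)) := by
    refine (hlow b P g1 g2 η T (ρ J) (δ / 2) (C1 * η) hpar hT0 (hρ0 J).le (by positivity)
      (by linarith) α β hα hβ hα1 hβ1 hαs hβs).trans (ENNReal.ofReal_le_ofReal ?_)
    have h1 : ρ J ≤ 1 / T ^ 2 := by
      rw [hρ]
      simp only
      rw [div_le_div_iff₀ (by positivity) (by positivity)]
      have h2 : δ * T ^ 2 ≤ 1 * 2 ^ J := mul_le_mul hδ1 hJ1 (by positivity) zero_le_one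
      exact h2
    have h3 : ρ J ^ 2 ≤ (1 / T ^ 2) ^ 2 := pow_le_pow_left₀ (hρ0 J).le h1 2
    have h4 : (1 / T ^ 2) ^ 2 * T ≤ 1 / T := by
      have h5 : (1 / T ^ 2) ^ 2 * T = 1 / T / T ^ 2 := by
        field_simp
      rw [h5]
      exact div_le_self (by positivity) (one_le_pow₀ hT)
    calc Cl * (4 + C1 * η) * T * ρ J ^ 2 ≤ Cl * (4 + C1 * 1) * T * (1 / T ^ 2) ^ 2 := by gcongr
      _ = Dl * ((1 / T ^ 2) ^ 2 * T) := by
          rw [hDl]
          ring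
      _ ≤ Dl * (1 / T) := by gcongr
      _ = Dl / (1 * T) := by
          rw [one_mul]
          ring
      _ ≤ Dl / (η ^ 2 * T) := by
          have h6 : η ^ 2 ≤ 1 := pow_le_one₀ hη.le hη1
          gcongr
  have hbound1 : ∫⁻ y in BIG, g y = 0 := by
    have h1 : MeasurableSet BIG := measurableSet_lt measurable_const (by fun_prop)
    rw [setLIntegral_congr_fun (g := fun _ => 0) h1 (fun y hy => ?_)]
    · simp
    · refine tn_zero hαs y ?_
      have h2 : δ < |y.1| := hy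
      linarith
  have hboundB : ∀ j ∈ Finset.range J, ∫⁻ y in RB j, g y ≤
      ENNReal.ofReal (DB * Λ ^ 4 / (η ^ 2 * T)) := by
    intro j _
    have hs : 0 < δ * η ^ 2 * ρ j := by
      have := hρ0 j
      positivity
    have h1 := tn_region b P g1 g2 η T (ρ j) (η ^ 2) (δ * η ^ 2 * ρ j) δ
      (CB * Λ ^ 4 / (η ^ 2 * T)) hpar hs hδ hδ1 (by positivity) (pow_le_one₀ hη.le hη1)
      (by
        have := (hρ0 j).ne'
        field_simp) (C2 * η ^ 2) LB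
      (by
        have h2 : C2 * η ^ 2 * ρ j / (δ * η ^ 2 * ρ j) = C2 / δ := by
          have := (hρ0 j).ne'
          field_simp
        rw [h2]
        exact Nat.le_ceil _) (by positivity) α β (RB j) (fun y hy => ⟨hy.2.1, hy.2.2⟩)
      (fun yc hyc => ?_)
    · refine h1.trans (ENNReal.ofReal_le_ofReal (le_of_eq ?_))
      rw [hDB]
      ring
    · obtain ⟨q1, q2, q3⟩ := hyc
      have hs' : δ * η ^ 2 * ρ j ≤ δB * η ^ 2 * ρ j := by
        have := hρ0 j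
        gcongr
      refine (hB b P g1 g2 η (ρ j) T hpar hP1 hP2 hη (hηη.trans eB) (hρ0 j)
        ((hρδ j).trans dB) hT yc q1 q2 q3 _ _ (rtn_meas _ _ hα) (rtn_meas _ _ hβ)
        (rtn_norm _ _ hα1) (rtn_norm _ _ hβ1) (SX_mono (rtn_SX hαs) (by linarith))
        (SX_mono (rtn_SX hβs) (by linarith)) (SY_mono (rtn_SY hs) hs')
        (SY_mono (rtn_SY hs) hs')).trans (ENNReal.ofReal_le_ofReal ?_)
      have h2 : CB * Λ ^ 4 / (η ^ 2 * T) * η ^ 2 = CB * Λ ^ 4 / T := by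
        field_simp
      rw [h2]
      gcongr
  have hboundA : ∀ p ∈ Finset.range J ×ˢ Finset.range K, ∫⁻ y in RA p.1 p.2, g y ≤
      ENNReal.ofReal (DA * Λ ^ 4 / (η ^ 2 * T)) := by
    intro p hp
    obtain ⟨j, k⟩ := p
    have hk : k < K := Finset.mem_range.1 (Finset.mem_product.1 hp).2
    simp only
    have hs : 0 < δ * Θ k * ρ j := by
      have := hρ0 j
      have := hΘ0 k
      positivity
    have h1 := tn_region b P g1 g2 η T (ρ j) (Θ k) (δ * Θ k * ρ j) δ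
      (CA * Λ ^ 4 / (η ^ 2 * T)) hpar hs hδ hδ1 (hΘ0 k) ((hΘle k).trans hC11)
      (by
        have := (hρ0 j).ne'
        have := (hΘ0 k).ne'
        field_simp) (Θ k) LA
      (by
        have h2 : Θ k * ρ j / (δ * Θ k * ρ j) = 1 / δ := by
          have := (hρ0 j).ne'
          have := (hΘ0 k).ne'
          field_simp
        rw [h2]
        exact Nat.le_ceil _) (by positivity) α β (RA j k) (fun y hy => ⟨hy.2.1, hy.2.2.2⟩)
      (fun yc hyc => ?_)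
    · refine h1.trans (ENNReal.ofReal_le_ofReal (le_of_eq ?_))
      rw [hDA]
      ring
    · obtain ⟨q1, q2, q3, q4⟩ := hyc
      have hs' : δ * Θ k * ρ j ≤ δA * Θ k * ρ j := by
        have := hρ0 j
        have := hΘ0 k
        gcongr
      refine (hA b P g1 g2 η (ρ j) (Θ k) T hpar hP1 hP2 hη (hρ0 j)
        ((hρδ j).trans dA) (hK2 k hk) ((hΘle k).trans hC1θ) hT yc q1 q2 q3 q4 _ _
        (rtn_meas _ _ hα) (rtn_meas _ _ hβ)
        (rtn_norm _ _ hα1) (rtn_norm _ _ hβ1) (SX_mono (rtn_SX hαs) (by linarith))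
        (SX_mono (rtn_SX hβs) (by linarith)) (SY_mono (rtn_SY hs) hs')
        (SY_mono (rtn_SY hs) hs')).trans (ENNReal.ofReal_le_ofReal ?_)
      have h2 : CA * Λ ^ 4 / (η ^ 2 * T) * Θ k = CA * Λ ^ 4 * Θ k / (η ^ 2 * T) := by
        ring
      rw [h2]
      have := hΘ0 k
      gcongr
  -- the sum
  have hsumB : ∫⁻ y in ⋃ j ∈ Finset.range J, RB j, g y ≤
      ENNReal.ofReal ((J : ℝ) * (DB * Λ ^ 4 / (η ^ 2 * T))) := by
    refine (tn_union _ _ _).trans ((Finset.sum_le_sum hboundB).trans (le_of_eq ?_))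
    rw [Finset.sum_const, Finset.card_range, nsmul_eq_mul, ← ENNReal.ofReal_natCast,
      ← ENNReal.ofReal_mul (Nat.cast_nonneg _)]
  have hsumA : ∫⁻ y in ⋃ p ∈ Finset.range J ×ˢ Finset.range K, RA p.1 p.2, g y ≤
      ENNReal.ofReal ((J : ℝ) * K * (DA * Λ ^ 4 / (η ^ 2 * T))) := by
    refine (tn_union _ _ _).trans ((Finset.sum_le_sum hboundA).trans (le_of_eq ?_))
    rw [Finset.sum_const, Finset.card_product, Finset.card_range, Finset.card_range,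
      nsmul_eq_mul, ← ENNReal.ofReal_natCast, ← ENNReal.ofReal_mul (Nat.cast_nonneg _)]
    push_cast
    rfl
  have htot : ∫⁻ y in {y : ℝ × ℝ | |lnE g1 g2 y| ≤ C1 * η * |y.1|}, g y ≤
      ENNReal.ofReal (Dl / (η ^ 2 * T)) + 0 +
        (ENNReal.ofReal ((J : ℝ) * (DB * Λ ^ 4 / (η ^ 2 * T))) +
          ENNReal.ofReal ((J : ℝ) * K * (DA * Λ ^ 4 / (η ^ 2 * T)))) := by
    refine (lintegral_mono_set hcov).trans ?_
    refine (lintegral_union_le _ _ _).trans ?_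
    refine add_le_add ((lintegral_union_le _ _ _).trans (add_le_add hbound0 hbound1.le))
      ((lintegral_union_le _ _ _).trans (add_le_add hsumB hsumA))
  refine htot.trans ?_
  rw [add_zero, ← ENNReal.ofReal_add (by positivity) (by positivity),
    ← ENNReal.ofReal_add (by positivity) (by positivity)]
  apply ENNReal.ofReal_le_ofReal
  have hJ3 : (J : ℝ) ≤ 4 * Λ := by linarith
  have hK4 : (K : ℝ) ≤ CK * Λ := by
    refine hK3.trans ?_
    have : 1 + Real.log (1 / η) ≤ Λ := by linarith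
    gcongr
  have p6 : Λ ^ 5 ≤ Λ ^ 6 := pow_le_pow_right₀ hΛ1 (by norm_num)
  have p0 : 1 ≤ Λ ^ 6 := one_le_pow₀ hΛ1
  have t0 : Dl / (η ^ 2 * T) ≤ Dl * Λ ^ 6 / (η ^ 2 * T) := by
    have : Dl ≤ Dl * Λ ^ 6 := le_mul_of_one_le_right hDl0 p0
    gcongr
  have t1 : (J : ℝ) * (DB * Λ ^ 4 / (η ^ 2 * T)) ≤ 4 * DB * Λ ^ 6 / (η ^ 2 * T) := by
    calc (J : ℝ) * (DB * Λ ^ 4 / (η ^ 2 * T)) ≤ 4 * Λ * (DB * Λ ^ 4 / (η ^ 2 * T)) := by gcongr
      _ = 4 * DB * Λ ^ 5 / (η ^ 2 * T) := by ring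
      _ ≤ 4 * DB * Λ ^ 6 / (η ^ 2 * T) := by gcongr
  have t2 : (J : ℝ) * K * (DA * Λ ^ 4 / (η ^ 2 * T)) ≤ 4 * (CK * DA) * Λ ^ 6 / (η ^ 2 * T) := by
    calc (J : ℝ) * K * (DA * Λ ^ 4 / (η ^ 2 * T)) ≤
          4 * Λ * (CK * Λ) * (DA * Λ ^ 4 / (η ^ 2 * T)) := by gcongr
      _ = 4 * (CK * DA) * Λ ^ 6 / (η ^ 2 * T) := by ring
  calc Dl / (η ^ 2 * T) + ((J : ℝ) * (DB * Λ ^ 4 / (η ^ 2 * T)) +
        (J : ℝ) * K * (DA * Λ ^ 4 / (η ^ 2 * T))) ≤
        Dl * Λ ^ 6 / (η ^ 2 * T) + (4 * DB * Λ ^ 6 / (η ^ 2 * T) +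
          4 * (CK * DA) * Λ ^ 6 / (η ^ 2 * T)) := by gcongr
    _ = (Dl + 4 * (DB + CK * DA)) * Λ ^ 6 / (η ^ 2 * T) := by ring

end Pool.Agent.SDT.N1Q

end -- N1Q.Tan3

section -- N1Q.Q2c

/-!
N1Q, block Q2: the estimate for one cell.
-/

namespace Pool.Agent.SDT.N1Q

open MeasureTheory Set Metric Pool.Agent.SDT.MP_6cbfb8_an Pool.Agent.SDT.MST Pool.Agent.SDT.N1
open Pool.Agent.SDT.N1F Pool.Agent.SDT.N1G Pool.Agent.SDT.N1M
open scoped ENNReal Real ContDiff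

lemma smb_bd (c x : ℝ) : 0 ≤ smb c x ∧ smb c x ≤ 1 :=
  ⟨Real.smoothTransition.nonneg _, Real.smoothTransition.le_one _⟩

lemma smb_zero (c x : ℝ) (hc : 0 < c) (h : x ≤ c / 2) : smb c x = 0 := by
  unfold smb
  apply Real.smoothTransition.zero_of_nonpos
  apply div_nonpos_of_nonpos_of_nonneg _ hc.le
  linarith

lemma smb_one (c x : ℝ) (hc : 0 < c) (h : c ≤ x) : smb c x = 1 := by
  unfold smb
  apply Real.smoothTransition.one_of_one_le
  rw [le_div_iff₀ hc]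
  linarith

lemma sma_bd (c v : ℝ) (hc : 0 < c) : 0 ≤ sma c v ∧ sma c v ≤ 2 / c := by
  obtain ⟨h1, h2⟩ := smb_bd c √v
  refine ⟨div_nonneg h1 (Real.sqrt_nonneg _), ?_⟩
  unfold sma
  rcases le_or_gt (√v) (c / 2) with h | h
  · rw [smb_zero c _ hc h, zero_div]
    positivity
  · have h3 : 0 < √v := by linarith
    rw [div_le_div_iff₀ h3 hc]
    nlinarith

lemma w1_low (v : ℝ) (h : v ≤ 1 / 4) : w1 v = 0 := by
  have h1 : √v ≤ 1 / 2 := by
    rw [show (1 / 2 : ℝ) = √(1 / 4) by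
      rw [show (1 / 4 : ℝ) = (1 / 2) ^ 2 by norm_num]
      exact (Real.sqrt_sq (by norm_num)).symm]
    exact Real.sqrt_le_sqrt h
  unfold w1 sma
  rw [smb_zero 1 _ one_pos h1, smb_zero 2 _ two_pos (by linarith)]
  simp

lemma w1_high (v : ℝ) (h : 4 ≤ v) : w1 v = 0 := by
  have h1 : 2 ≤ √v := by
    rw [show (2 : ℝ) = √4 by
      rw [show (4 : ℝ) = 2 ^ 2 by norm_num]
      exact (Real.sqrt_sq (by norm_num)).symm]
    exact Real.sqrt_le_sqrt h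
  unfold w1 sma
  rw [smb_one 1 _ one_pos (by linarith), smb_one 2 _ two_pos h1, sub_self]

lemma w1_bd (v : ℝ) : |w1 v| ≤ 2 := by
  obtain ⟨h1, h2⟩ := sma_bd 1 v one_pos
  obtain ⟨h3, h4⟩ := sma_bd 2 v two_pos
  unfold w1
  rw [abs_le]
  constructor <;> linarith

lemma w1_meas : Measurable w1 := by
  unfold w1
  exact ((sma_smooth 1 one_pos).continuous.sub (sma_smooth 2 two_pos).continuous).measurable

lemma KE_meas (b P g1 g2 τ : ℝ) : Measurable (KE b P g1 g2 τ) := by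
  unfold KE
  fun_prop

lemma q2_qE_meas (b P g1 g2 η : ℝ) : Measurable (qE b P g1 g2 η) := by
  unfold qE Sq
  have h := KE_meas b P g1 g2 (η ^ 2)
  exact (h.sqrt).mul (Real.smoothTransition.continuous.measurable.comp (by fun_prop))

lemma q2_wE_meas (b P g1 g2 η : ℝ) : Measurable (wE b P g1 g2 η) := by
  unfold wE
  refine Measurable.ite ?_ (w1_meas.comp (KE_meas _ _ _ _ _)) measurable_const
  have e1 : Measurable fun X : ℝ × ℝ => |X.1| := measurable_fst.abs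
  have e2 : Measurable fun X : ℝ × ℝ => |X.2| := measurable_snd.abs
  exact (measurableSet_le e1 measurable_const).inter (measurableSet_le e2 measurable_const)

lemma wE_bd (b P g1 g2 η : ℝ) (X : ℝ × ℝ) : |wE b P g1 g2 η X| ≤ 2 := by
  unfold wE
  split_ifs
  · exact w1_bd _
  · norm_num

lemma wE_supp (b P g1 g2 η : ℝ) (X : ℝ × ℝ) (h : wE b P g1 g2 η X ≠ 0) : ‖X‖ ≤ 1 := by
  unfold wE at h
  split_ifs at h with h1
  · rw [Prod.norm_def, Real.norm_eq_abs, Real.norm_eq_abs]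
    exact max_le h1.1 h1.2
  · exact absurd rfl h

lemma KE_near (b P g1 g2 τ r : ℝ) (hp : Par b g1 g2) (hτ : 0 ≤ τ) (hτ1 : τ ≤ 1) (hr : r ≤ 1)
    (X : ℝ × ℝ) (h1 : |X.1| ≤ r) (h2 : |X.2| ≤ r) : |KE b P g1 g2 τ X - P| ≤ 14 * r := by
  obtain ⟨p1, p2, p3, p4, p5, p6⟩ := hp
  have hr0 : 0 ≤ r := (abs_nonneg _).trans h1
  have e1 : |2 * g1 * X.1| ≤ 8 * r := by
    rw [abs_mul, abs_mul, abs_two, abs_of_nonpos (by linarith)]
    nlinarith [abs_nonneg X.1]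
  have e2 : |2 * g2 * X.2| ≤ 4 * r := by
    rw [abs_mul, abs_mul, abs_two, abs_of_nonneg (by linarith)]
    nlinarith [abs_nonneg X.2]
  have q1 : X.1 ^ 2 ≤ r := by
    rw [← sq_abs]
    nlinarith [abs_nonneg X.1]
  have q2 : X.2 ^ 2 ≤ r := by
    rw [← sq_abs]
    nlinarith [abs_nonneg X.2]
  have q3 : 0 ≤ X.1 ^ 2 := sq_nonneg _
  have q4 : 0 ≤ X.2 ^ 2 := sq_nonneg _
  have q5 : b * X.2 ^ 2 ≤ r := by nlinarith
  have q6 : 0 ≤ b * X.2 ^ 2 := by positivity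
  have e3 : |τ * (X.1 ^ 2 + b * X.2 ^ 2)| ≤ 2 * r := by
    rw [abs_of_nonneg (by positivity)]
    nlinarith
  have e4 : KE b P g1 g2 τ X - P = 2 * g1 * X.1 + 2 * g2 * X.2 - τ * (X.1 ^ 2 + b * X.2 ^ 2) := by
    unfold KE
    ring
  rw [e4]
  have e5 := abs_sub (2 * g1 * X.1 + 2 * g2 * X.2) (τ * (X.1 ^ 2 + b * X.2 ^ 2))
  have e6 := abs_add_le (2 * g1 * X.1) (2 * g2 * X.2)
  linarith

/-- Nothing happens if `P` is far from the support. -/
lemma TE_zero (b P g1 g2 η T r : ℝ) (hp : Par b g1 g2) (hη : 0 < η) (hη1 : η ≤ 1) (hr : r ≤ 1 / 200)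
    (hP : P < 1 / 8 ∨ 8 < P) (M : YX → ℂ) (hM : ∀ p, M p ≠ 0 → |p.2.1| ≤ r ∧ |p.2.2| ≤ r) :
    TE b P g1 g2 η T M = 0 := by
  unfold TE
  rw [Thg_congr (dif (qE b P g1 g2 η)) (dam (wE b P g1 g2 η)) (dif (qE b P g1 g2 η)) (fun _ => 0)
    T M ?_]
  · unfold Thg Hyg
    simp
  · intro p h
    refine ⟨rfl, ?_⟩
    obtain ⟨h1, h2⟩ := hM p h
    have h3 := KE_near b P g1 g2 (η ^ 2) r hp (by positivity) (by nlinarith) (by linarith) p.2 h1 h2
    have h4 : wE b P g1 g2 η p.2 = 0 := by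
      unfold wE
      split_ifs
      · rw [abs_le] at h3
        rcases hP with h5 | h5
        · exact w1_low _ (by linarith)
        · exact w1_high _ (by linarith)
      · rfl
    unfold dam
    rw [h4, zero_mul]

theorem cellE : ∃ r0 η0 C : ℝ, 0 < r0 ∧ r0 ≤ 1 / 4 ∧ 0 < η0 ∧ 0 ≤ C ∧
    ∀ b P g1 g2 η T : ℝ, Par b g1 g2 → 0 < η → η ≤ η0 → 1 ≤ T →
    ∀ G₁ G₂ : ℝ → ℂ, Measurable G₁ → Measurable G₂ → (∀ a, ‖G₁ a‖ ≤ 1) → (∀ a, ‖G₂ a‖ ≤ 1) →
    (∀ a, G₁ a ≠ 0 → |a| ≤ r0) → (∀ a, G₂ a ≠ 0 → |a| ≤ r0) →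
    TE b P g1 g2 η T (pd (da G₁) (da G₂)) ≤
      ENNReal.ofReal (C * (1 + Real.log T + Real.log (1 / η)) ^ 7 / (η ^ 2 * T)) := by
  obtain ⟨B0, hB0, hpart⟩ := part_gen
  obtain ⟨C1, r1, η1, Ca, hC1, hr1, hr1', hη1, hCa, habs⟩ := absE
  obtain ⟨r2, η2, Ct, hr2, hr2', hη2, hCt, htan⟩ := tanE (8 * C1) (by positivity)
  refine ⟨min (min r1 r2) (1 / 200), min (min η1 η2) 1, 2 * Ct + 5 * B0 * Ct + Ca,
    lt_min (lt_min hr1 hr2) (by norm_num), (min_le_right _ _).trans (by norm_num),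
    lt_min (lt_min hη1 hη2) one_pos, by positivity, ?_⟩
  intro b P g1 g2 η T hp hη hη0 hT G₁ G₂ m1 m2 b1 b2 s1 s2
  have hη1' : η ≤ η1 := hη0.trans ((min_le_left _ _).trans (min_le_left _ _))
  have hη2' : η ≤ η2 := hη0.trans ((min_le_left _ _).trans (min_le_right _ _))
  have hη3 : η ≤ 1 := hη0.trans (min_le_right _ _)
  set r0 : ℝ := min (min r1 r2) (1 / 200) with hr0
  have hr01 : r0 ≤ r1 := (min_le_left _ _).trans (min_le_left _ _)
  have hr02 : r0 ≤ r2 := (min_le_left _ _).trans (min_le_right _ _)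
  have hr03 : r0 ≤ 1 / 200 := min_le_right _ _
  have sd : ∀ (G : ℝ → ℂ), (∀ a, G a ≠ 0 → |a| ≤ r0) → ∀ p, da G p ≠ 0 → |p.2| ≤ r0 ∧
      |p.2 - p.1| ≤ r0 := by
    intro G hG p h
    unfold da at h
    refine ⟨hG _ (left_ne_zero_of_mul h), hG _ ?_⟩
    have := right_ne_zero_of_mul h
    intro h0
    apply this
    rw [h0, map_zero]
  by_cases hP : 1 / 8 ≤ P ∧ P ≤ 8
  swap
  · rw [TE_zero b P g1 g2 η T r0 hp hη hη3 hr03]
    · exact bot_le
    · by_contra hcon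
      push Not at hcon
      exact hP hcon
    · intro p h
      unfold pd at h
      exact ⟨(sd G₁ s1 _ (left_ne_zero_of_mul h)).1, (sd G₂ s2 _ (right_ne_zero_of_mul h)).1⟩
  obtain ⟨hP1, hP2⟩ := hP
  have hT0 : 0 < T := by linarith
  have hlT : 0 ≤ Real.log T := Real.log_nonneg hT
  have hlη : 0 ≤ Real.log (1 / η) := Real.log_nonneg (by rw [le_div_iff₀ hη]; linarith)
  set L : ℝ := 1 + Real.log T + Real.log (1 / η) with hL
  have hL1 : 1 ≤ L := by linarith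
  obtain ⟨K, hK1, hK2⟩ := dy_num T hT
  have hη2p : 0 < η ^ 2 * T := by positivity
  have h1 := hpart 2 1 (qE b P g1 g2 η) (wE b P g1 g2 η) (q2_qE_meas _ _ _ _ _) (q2_wE_meas _ _ _ _ _)
    (wE_bd _ _ _ _ _) (wE_supp _ _ _ _ _) T hT0 G₁ G₂ m1 m2 b1 b2 g1 g2 (2 * C1 * η) (K + 1)
    (by positivity) (Ct * L ^ 6 / (η ^ 2 * T)) (Ca * (1 + Real.log T) / (η ^ 2 * T))
    (by positivity) (by positivity) ?_ ?_
  · refine h1.trans (ENNReal.ofReal_le_ofReal ?_)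
    rw [← mul_div_assoc, ← add_div]
    apply div_le_div_of_nonneg_right _ hη2p.le
    have e1 : ((K + 1 : ℕ) : ℝ) ≤ 5 * L := by
      push_cast
      have : 5 * (1 + Real.log T) ≤ 5 * L := by linarith
      linarith
    have hL6 : 0 ≤ L ^ 6 := by positivity
    have hL7 : L ^ 6 ≤ L ^ 7 := pow_le_pow_right₀ hL1 (by norm_num)
    have hL8 : L ≤ L ^ 7 := le_self_pow₀ hL1 (by norm_num)
    have e2 : (2 + ((K + 1 : ℕ) : ℝ) * B0) * (Ct * L ^ 6) ≤ (2 + 5 * L * B0) * (Ct * L ^ 6) := by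
      apply mul_le_mul_of_nonneg_right _ (by positivity)
      nlinarith
    have e3 : (2 + 5 * L * B0) * (Ct * L ^ 6) = 2 * Ct * L ^ 6 + 5 * B0 * Ct * L ^ 7 := by ring
    have e4 : 2 * Ct * L ^ 6 ≤ 2 * Ct * L ^ 7 := by gcongr
    have e5 : Ca * (1 + Real.log T) ≤ Ca * L ^ 7 := by
      apply mul_le_mul_of_nonneg_left _ hCa
      linarith
    nlinarith
  · intro α β mα mβ nα nβ sα sβ
    have h2 := htan b P g1 g2 η T hp hP1 hP2 hη hη2' hT α β mα mβ nα nβ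
      (fun p h => by
        obtain ⟨e1, e2⟩ := sd G₁ s1 p (sα p h)
        exact ⟨e1.trans hr02, e2.trans hr02⟩)
      (fun p h => by
        obtain ⟨e1, e2⟩ := sd G₂ s2 p (sβ p h)
        exact ⟨e1.trans hr02, e2.trans hr02⟩)
    have e : 4 * (2 * C1 * η) = 8 * C1 * η := by ring
    rw [e]
    exact h2
  · intro M hM hM1 hMs
    refine habs b P g1 g2 η T hp hP1 hP2 hη hη1' hT M hM hM1 fun q hq => ?_
    obtain ⟨k1, k2, k3⟩ := hMs q hq
    unfold sqM at k1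
    have k4 := left_ne_zero_of_mul k1
    have k5 : pd (da G₁) (da G₂) ((q.1.1, q.2.1), q.1.2.1 - q.1.2.2, q.2.2.1 - q.2.2.2) ≠ 0 := by
      intro h
      apply right_ne_zero_of_mul k1
      rw [h, map_zero]
    unfold pd at k4 k5
    obtain ⟨a1, a2⟩ := sd G₁ s1 _ (left_ne_zero_of_mul k4)
    obtain ⟨a3, a4⟩ := sd G₂ s2 _ (right_ne_zero_of_mul k4)
    obtain ⟨a5, a6⟩ := sd G₁ s1 _ (left_ne_zero_of_mul k5)
    obtain ⟨a7, a8⟩ := sd G₂ s2 _ (right_ne_zero_of_mul k5)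
    simp only at a1 a2 a3 a4 a5 a6 a7 a8
    have hd : ∀ x y r : ℝ, |x| ≤ r → |x - y| ≤ r → r ≤ 1 / 200 → |y| ≤ 1 := by
      intro x y r e1 e2 e3
      rw [abs_le] at e1 e2 ⊢
      constructor <;> linarith
    have hJ : (2 : ℝ) / 2 ^ (K + 1) = (1 / 2) ^ K := by
      rw [pow_succ, one_div, inv_pow]
      field_simp
    refine ⟨a1.trans hr01, a2.trans hr01, a5.trans hr01, a3.trans hr01, a4.trans hr01,
      a7.trans hr01, ?_, ?_⟩
    · rcases ct_compl g1 g2 (2 * C1 * η) (by positivity) (K + 1) _ (hd _ _ _ a1 a2 hr03) k2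
        with h | h
      · left
        rw [hJ] at h
        exact h.le.trans hK1
      · right
        rw [show 2 * C1 * η / 2 = C1 * η by ring] at h
        exact h
    · rcases ct_compl g1 g2 (2 * C1 * η) (by positivity) (K + 1) _ (hd _ _ _ a1 a5 hr03) k3
        with h | h
      · left
        rw [hJ] at h
        exact h.le.trans hK1
      · right
        rw [show 2 * C1 * η / 2 = C1 * η by ring] at h
        exact h

end Pool.Agent.SDT.N1Q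

end -- N1Q.Q2c

section -- N1Q.Q5

/-!
N1Q: the strips, final statement `L4E`.
-/

namespace Pool.Agent.SDT.N1Q

open MeasureTheory Set Metric Pool.Agent.SDT.MP_6cbfb8_an Pool.Agent.SDT.MST Pool.Agent.SDT.N1
open Pool.Agent.SDT.N1F Pool.Agent.SDT.N1G Pool.Agent.SDT.N1M
open scoped ENNReal Real ContDiff

lemma hm_meas (m : ℝ) : Measurable (hm m) := by
  unfold hm
  fun_prop

lemma qm_meas (c m : ℝ) : Measurable (qm c m) := by
  unfold qm Sq
  have h : Measurable fun x : ℝ × ℝ => hm m x.2 - x.1 ^ 2 :=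
    ((hm_meas m).comp measurable_snd).sub (by fun_prop)
  exact (h.sqrt).mul (Real.smoothTransition.continuous.measurable.comp (by fun_prop))

lemma wn_meas (ν m : ℝ) (hν : 0 < ν) : Measurable (wn ν m) := by
  unfold wn
  have h : Measurable fun x : ℝ × ℝ => hm m x.2 - x.1 ^ 2 :=
    ((hm_meas m).comp measurable_snd).sub (by fun_prop)
  refine Measurable.ite ?_ (((sma_smooth ν hν).continuous.measurable.comp h).sub
    ((sma_smooth (2 * ν) (by positivity)).continuous.measurable.comp h)) measurable_const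
  exact (measurableSet_le measurable_const measurable_snd).inter
    (measurableSet_le measurable_snd measurable_const)

lemma wn_bd (ν m : ℝ) (hν : 0 < ν) (x : ℝ × ℝ) : |wn ν m x| ≤ 2 / ν := by
  obtain ⟨h1, h2⟩ := sma_bd ν (hm m x.2 - x.1 ^ 2) hν
  obtain ⟨h3, h4⟩ := sma_bd (2 * ν) (hm m x.2 - x.1 ^ 2) (by positivity)
  have h5 : 2 / (2 * ν) ≤ 2 / ν := by
    apply div_le_div_of_nonneg_left (by norm_num) hν
    linarith
  have h6 : 0 < 2 / ν := by positivity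
  unfold wn
  split_ifs
  · rw [abs_le]
    constructor <;> linarith
  · rw [abs_zero]
    exact h6.le

/-- Where the amplitude of the strip lives. -/
lemma wn_loc (ν m : ℝ) (hν : 0 < ν) (x : ℝ × ℝ) (h : wn ν m x ≠ 0) :
    0 ≤ x.2 ∧ x.2 ≤ 8 ∧ ν ^ 2 / 4 ≤ hm m x.2 - x.1 ^ 2 ∧ hm m x.2 - x.1 ^ 2 ≤ 4 * ν ^ 2 := by
  unfold wn at h
  split_ifs at h with h1
  swap
  · exact absurd rfl h
  refine ⟨h1.1, h1.2, ?_, ?_⟩
  · by_contra hcon
    push Not at hcon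
    apply h
    have h2 : √(hm m x.2 - x.1 ^ 2) ≤ ν / 2 := by
      rw [show ν / 2 = √(ν ^ 2 / 4) by
        rw [show ν ^ 2 / 4 = (ν / 2) ^ 2 by ring]
        exact (Real.sqrt_sq (by positivity)).symm]
      exact Real.sqrt_le_sqrt hcon.le
    unfold sma
    rw [smb_zero ν _ hν h2, smb_zero (2 * ν) _ (by positivity) (by linarith)]
    simp
  · by_contra hcon
    push Not at hcon
    apply h
    have h2 : 2 * ν ≤ √(hm m x.2 - x.1 ^ 2) := by
      rw [show 2 * ν = √(4 * ν ^ 2) by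
        rw [show 4 * ν ^ 2 = (2 * ν) ^ 2 by ring]
        exact (Real.sqrt_sq (by positivity)).symm]
      exact Real.sqrt_le_sqrt hcon.le
    unfold sma
    rw [smb_one ν _ hν (by linarith), smb_one (2 * ν) _ (by positivity) h2, sub_self]

lemma wn_supp (ν m : ℝ) (hν : 0 < ν) (hm0 : 0 ≤ m) (x : ℝ × ℝ) (h : wn ν m x ≠ 0) :
    ‖x‖ ≤ 8 := by
  obtain ⟨h1, h2, h3, h4⟩ := wn_loc ν m hν x h
  rw [Prod.norm_def, Real.norm_eq_abs, Real.norm_eq_abs]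
  have e1 : 0 < ν ^ 2 / 4 := by positivity
  have e2 : hm m x.2 ≤ 2 * x.2 := by
    unfold hm
    have : 0 ≤ m * x.2 ^ 2 := by positivity
    linarith
  refine max_le ?_ ?_
  · apply abs_le_of_sq_le_sq _ (by norm_num)
    linarith
  · rw [abs_of_nonneg h1]
    exact h2

theorem L4E : ∃ ν0 C : ℝ, 0 < ν0 ∧ ν0 ≤ 1 / 4 ∧ 0 ≤ C ∧ ∀ T ν m : ℝ, 0 < ν → ν ≤ ν0 → 1 / ν ≤ T →
    0 ≤ m → m ≤ 1 →
    ∀ G₁ G₂ : ℝ → ℂ, Measurable G₁ → Measurable G₂ → (∀ a, ‖G₁ a‖ ≤ 1) → (∀ b, ‖G₂ b‖ ≤ 1) →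
    (∀ a, G₁ a ≠ 0 → 0 ≤ a) → (∀ b, G₂ b ≠ 0 → Rg m b) →
    ∫⁻ t in Icc T (2 * T), ∫⁻ ξ : ℝ × ℝ, ‖EN ν m G₁ G₂ t ξ‖ₑ ^ (4 : ℝ) ≤
      ENNReal.ofReal (C * (1 + Real.log T) ^ 8 / T) := by
  obtain ⟨σ, ηc, Cc, hσ, hσ4, hηc, hCc, hcell⟩ := cellE
  obtain ⟨νb, Cb, hνb, hνb', hCb, hband⟩ := bandE σ hσ (by linarith)
  refine ⟨min (min νb ηc) (1 / 8), Cb * Cc, lt_min (lt_min hνb hηc) (by norm_num),
    (min_le_right _ _).trans (by norm_num), by positivity, ?_⟩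
  intro T ν m hν hν0 hT hm0 hm1 G₁ G₂ m1 m2 b1 b2 s1 s2
  have hν1 : ν ≤ νb := hν0.trans ((min_le_left _ _).trans (min_le_left _ _))
  have hν2 : ν ≤ ηc := hν0.trans ((min_le_left _ _).trans (min_le_right _ _))
  have hν3 : ν ≤ 1 / 8 := hν0.trans (min_le_right _ _)
  have hνT : 1 ≤ ν * T := by
    rw [div_le_iff₀ hν] at hT
    linarith
  have hT1 : 1 ≤ T := by
    have : 1 ≤ 1 / ν := by
      rw [le_div_iff₀ hν]
      linarith
    linarith
  have hT0 : 0 < T := by linarith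
  have hlT : 0 ≤ Real.log T := Real.log_nonneg hT1
  have hlν : Real.log (1 / ν) ≤ Real.log T := Real.log_le_log (by positivity) hT
  have hlν0 : 0 ≤ Real.log (1 / ν) := Real.log_nonneg (by rw [le_div_iff₀ hν]; linarith)
  have hlog : Real.log (ν * T) + Real.log (1 / ν) = Real.log T := by
    rw [Real.log_mul hν.ne' hT0.ne', one_div, Real.log_inv]
    ring
  have hAdm := f3g_adm (2 / ν) 8 (qm ν m) (wn ν m) (qm_meas ν m) (wn_meas ν m hν) (wn_bd ν m hν)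
    (wn_supp ν m hν hm0)
  have h1 := fourg (2 / ν) 8 (qm ν m) (wn ν m) (qm_meas ν m) (wn_meas ν m hν) (wn_bd ν m hν)
    (wn_supp ν m hν hm0) T hT0 G₁ G₂ m1 m2 b1 b2
  have h2 : (fun p : YX => da G₁ (p.1.1, p.2.1) * da G₂ (p.1.2, p.2.2)) = pd (da G₁) (da G₂) := rfl
  rw [h2, ← Thg_eq (2 / ν * (2 / ν)) (2 * 8) _ _ hAdm T hT0 _ (pd_meas' _ _ (da_meas _ m1)
    (da_meas _ m2)) (pd_norm' _ _ (da_norm _ b1) (da_norm _ b2))] at h1
  refine h1.trans ?_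
  set Q : ℝ := Cc * ν ^ 4 * (1 + Real.log T) ^ 7 / T with hQ
  have hQ0 : 0 ≤ Q := by positivity
  have h3 := hband ν m T hν hν1 hm0 hm1 hT0 G₁ G₂ m1 m2 b1 b2 s1 s2 Q hQ0 ?_
  · refine h3.trans (ENNReal.ofReal_le_ofReal ?_)
    rw [hQ]
    have e1 : Cb * (1 + Real.log (1 / ν)) / ν ^ 4 * (Cc * ν ^ 4 * (1 + Real.log T) ^ 7 / T) =
        Cb * Cc * ((1 + Real.log (1 / ν)) * (1 + Real.log T) ^ 7) / T := by
      field_simp
    rw [e1]
    apply div_le_div_of_nonneg_right _ hT0.le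
    apply mul_le_mul_of_nonneg_left _ (by positivity)
    rw [pow_succ (1 + Real.log T) 7, mul_comm]
    apply mul_le_mul_of_nonneg_left _ (by positivity)
    linarith
  · intro c1 c2
    set s : ℝ := σ * ν ^ 2 with hs
    set H₁ : ℝ → ℂ := rs c1 s G₁ with hH1
    set H₂ : ℝ → ℂ := rs c2 s G₂ with hH2
    have r1 : ∀ (c : ℝ) (G : ℝ → ℂ) (a : ℝ), rs c s G a ≠ 0 → c ≤ a ∧ a < c + s ∧ G a ≠ 0 := by
      intro c G a h
      unfold rs at h
      split_ifs at h with h0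
      · exact ⟨h0.1, h0.2, h⟩
      · exact absurd rfl h
    have r2 : ∀ (c : ℝ) (G : ℝ → ℂ), (∀ a, ‖G a‖ ≤ 1) → ∀ a, ‖rs c s G a‖ ≤ 1 := by
      intro c G hG a
      unfold rs
      split_ifs
      · exact hG a
      · rw [norm_zero]; norm_num
    have r3 : ∀ (c : ℝ) (G : ℝ → ℂ), Measurable G → Measurable (rs c s G) := by
      intro c G hG
      unfold rs
      refine Measurable.ite ?_ hG measurable_const
      exact (measurableSet_le measurable_const measurable_id).inter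
        (measurableSet_lt measurable_id measurable_const)
    by_cases hex : ∃ x : ℝ × ℝ, H₁ x.1 ≠ 0 ∧ H₂ x.2 ≠ 0 ∧ wn ν m x ≠ 0
    · obtain ⟨c, k1, k2, k3⟩ := hex
      obtain ⟨u1, u2, u3⟩ := r1 c1 G₁ _ k1
      obtain ⟨v1, v2, v3⟩ := r1 c2 G₂ _ k2
      have hR := s2 _ v3
      have hc0 := s1 _ u3
      obtain ⟨w1', w2, w3, w4⟩ := wn_loc ν m hν c k3
      obtain ⟨R1, R2, R3, R4⟩ := hR
      have hν2' : 0 < ν ^ 2 := by positivity
      have hν64 : ν ^ 2 ≤ 1 / 64 := by nlinarith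
      have hh : hm m c.2 ≤ 8 := by
        unfold hm
        have : 0 ≤ m * c.2 ^ 2 := by positivity
        linarith
      have hs1 : s ≤ ν ^ 2 := by
        rw [hs]
        nlinarith
      have hA : ∀ a, H₁ a ≠ 0 → |a - c.1| ≤ s := by
        intro a ha
        obtain ⟨a1, a2, a3⟩ := r1 c1 G₁ _ ha
        rw [abs_le]
        constructor <;> linarith
      have hB : ∀ a, H₂ a ≠ 0 → |a - c.2| ≤ s := by
        intro a ha
        obtain ⟨a1, a2, a3⟩ := r1 c2 G₂ _ ha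
        rw [abs_le]
        constructor <;> linarith
      have h4 := cell_scale ν m T hν (by linarith) hm0 hm1 hT0 c hc0 ⟨R1, R2, R3, R4⟩ H₁ H₂
        (fun a ha => (hA a ha).trans hs1)
        (fun a ha => ⟨(hB a ha).trans hs1, s2 _ (r1 c2 G₂ _ ha).2.2⟩)
      refine h4.trans ?_
      have hpar : Par m (-c.1) (bm m c.2) := by
        refine ⟨hm0, hm1, ?_, ?_, by linarith, ?_⟩
        · have : c.1 ≤ 4 := by
            apply abs_le_of_sq_le_sq' _ (by norm_num) |>.2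
            nlinarith
          linarith
        · have : 1 / 4 ≤ c.1 := by
            by_contra hcon
            push Not at hcon
            nlinarith
          linarith
        · unfold bm
          have : 0 ≤ m * c.2 := by positivity
          linarith
      have hrr : ∀ (H : ℝ → ℂ) (d : ℝ), (∀ a, H a ≠ 0 → |a - d| ≤ s) → ∀ X,
          H (d + ν ^ 2 * X) ≠ 0 → |X| ≤ σ := by
        intro H d hH X hX
        have h5 := hH _ hX
        rw [add_sub_cancel_left, abs_mul, abs_of_pos hν2', hs, mul_comm] at h5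
        exact le_of_mul_le_mul_right h5 hν2'
      have h6 := hcell m ((hm m c.2 - c.1 ^ 2) / ν ^ 2) (-c.1) (bm m c.2) ν (ν * T) hpar hν hν2 hνT
        (fun X => H₁ (c.1 + ν ^ 2 * X)) (fun X => H₂ (c.2 + ν ^ 2 * X))
        ((r3 _ _ m1).comp (by fun_prop)) ((r3 _ _ m2).comp (by fun_prop))
        (fun a => r2 _ _ b1 _) (fun a => r2 _ _ b2 _) (hrr H₁ c.1 hA) (hrr H₂ c.2 hB)
      refine (mul_le_mul_right h6 _).trans ?_
      rw [← ENNReal.ofReal_mul (by positivity)]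
      apply ENNReal.ofReal_le_ofReal
      rw [add_assoc, hlog, hQ]
      apply le_of_eq
      field_simp
    · have h0 : TN ν m T (pd (da H₁) (da H₂)) = 0 := by
        unfold TN
        rw [Thg_congr (dif (qm ν m)) (dam (wn ν m)) (dif (qm ν m)) (fun _ => 0) T _ ?_]
        · unfold Thg Hyg
          simp
        · intro p hp
          refine ⟨rfl, ?_⟩
          by_contra hcon
          apply hex
          unfold pd da at hp
          exact ⟨p.2, left_ne_zero_of_mul (left_ne_zero_of_mul hp),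
            left_ne_zero_of_mul (right_ne_zero_of_mul hp), left_ne_zero_of_mul hcon⟩
      rw [h0]
      exact bot_le

end Pool.Agent.SDT.N1Q

end -- N1Q.Q5
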