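import Mathlib

/-!
Definitions used in the statement: surface measure on the unit sphere, the Fourier transform of a
density on it, superpositions, half space indicators, and the class of densities `Dens`.
-/

set_option autoImplicit false

namespace Pool.Agent.SDT.MP_6cbfb8_an

open MeasureTheory Set
open scoped ENNReal Real

/-- `R^n` with its Euclidean structure. -/
abbrev E (n : ℕ) : Type := EuclideanSpace ℝ (Fin n)

/-- The unit sphere of `R^n`. -/
abbrev S (n : ℕ) : Set (E n) := Metric.sphere (0 : E n) 1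

/-- Surface measure on the unit sphere of `R^n`. -/
noncomputable abbrev sm (n : ℕ) : Measure (S n) := (volume : Measure (E n)).toSphere

/-- The Fourier transform at `ξ` of the measure with density `g` with respect to the surface
measure of the unit sphere of `R^n`. -/
noncomputable def extn {n : ℕ} (g : E n → ℂ) (ξ : E n) : ℂ :=
  ∫ x : S n, g x * Complex.exp (((-(2 * π * inner ℝ (x : E n) ξ) : ℝ) : ℂ) * Complex.I) ∂(sm n)

/-- The superposition over `w`, with respect to the measure `ν`, of the densities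
`x ↦ exp (2 π i ⟨x, η w⟩) h w (R w x)` (each `h w` is rotated by `R w` and modulated by the
frequency `η w`). -/
noncomputable def mix {n : ℕ} {W : Type*} [MeasurableSpace W] (ν : Measure W)
    (R : W → (E n ≃ₗᵢ[ℝ] E n)) (η : W → E n) (h : W → E n → ℂ) (x : E n) : ℂ :=
  ∫ w, Complex.exp (((2 * π * inner ℝ x (η w) : ℝ) : ℂ) * Complex.I) * h w (R w x) ∂ν

/-- The first `k` coordinates of a point of `R^(k+l)`. -/
noncomputable def fstE {k l : ℕ} (x : E (k + l)) : E k :=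
  WithLp.toLp 2 fun i => x (Fin.castAdd l i)

/-- The indicator function of the half space of all `x` in `R^n` with `⟨x, v⟩ > c`. -/
noncomputable def hsn {n : ℕ} (c : ℝ) (v x : E n) : ℂ := if c < inner ℝ x v then 1 else 0

end Pool.Agent.SDT.MP_6cbfb8_an

namespace Pool.Agent.SDT.N1

open MeasureTheory Set Pool.Agent.SDT.MP_6cbfb8_an
open scoped ENNReal Real

/-- `S` is a near Schur multiplier: for every `δ > 0` and `N ≥ 1` there is a kernel
`⟨u(x₁), v(x₂)⟩` with `|u|, |v| ≤ A(δ) N^δ` at distance at most `A(δ) N^δ / N` from `S` in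
`L¹([-1, 1]²)`. -/
def NearSchur (A : ℝ → ℝ) (S : ℝ × ℝ → ℂ) : Prop :=
  ∀ δ : ℝ, 0 < δ → ∀ N : ℕ, 1 ≤ N → ∃ (d : ℕ) (u v : ℝ → EuclideanSpace ℂ (Fin d)),
    Measurable u ∧ Measurable v ∧ (∀ a, ‖u a‖ ≤ A δ * (N : ℝ) ^ δ) ∧
    (∀ b, ‖v b‖ ≤ A δ * (N : ℝ) ^ δ) ∧
    ∫⁻ x in Icc (-1:ℝ) 1 ×ˢ Icc (-1:ℝ) 1, ‖S x - inner ℂ (u x.1) (v x.2)‖ₑ ≤
      ENNReal.ofReal (A δ * (N : ℝ) ^ δ / N)

/-- The quadratic variation of `f` is at most `V`. -/
def QVar (V : ℝ) (f : ℝ → ℂ) : Prop :=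
  ∀ u : ℕ → ℝ, Monotone u → ∀ n : ℕ, ∑ i ∈ Finset.range n, ‖f (u (i + 1)) - f (u i)‖ ^ 2 ≤ V

/-- The class of densities: products `S(x₁, x₂) ∏ᵢ Fᵢ(x₁, hᵢ(x₂)) F'ᵢ(x₂, h'ᵢ(x₁))` with `k`
factors of each kind, where `S` is a near Schur multiplier, the functions `Fᵢ` and `F'ᵢ` have
quadratic variation at most `V` in the second variable, the functions `hᵢ` and `h'ᵢ` are arbitrary
measurable functions, and all factors are bounded by `1`. -/
def Dens (A : ℝ → ℝ) (V : ℝ) (k : ℕ) (G : ℝ × ℝ → ℂ) : Prop :=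
  ∃ (S : ℝ × ℝ → ℂ) (F F' : Fin k → ℝ → ℝ → ℂ) (h h' : Fin k → ℝ → ℝ),
    Measurable S ∧ (∀ x, ‖S x‖ ≤ 1) ∧ NearSchur A S ∧
    (∀ i, Measurable fun q : ℝ × ℝ => F i q.1 q.2) ∧
    (∀ i, Measurable fun q : ℝ × ℝ => F' i q.1 q.2) ∧
    (∀ i, Measurable (h i)) ∧ (∀ i, Measurable (h' i)) ∧
    (∀ i a y, ‖F i a y‖ ≤ 1) ∧ (∀ i a y, ‖F' i a y‖ ≤ 1) ∧
    (∀ i a, QVar V (F i a)) ∧ (∀ i a, QVar V (F' i a)) ∧
    ∀ x, G x = S x * ∏ i, (F i x.1 (h i x.2) * F' i x.2 (h' i x.1))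

end Pool.Agent.SDT.N1
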